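import Pool.Agent.Lib.H32C.Defs

/-!
# Geometry of the board
-/

set_option autoImplicit false
set_option linter.unusedSimpArgs false

namespace Pool.Agent.Lib.H32C

/-- on a common rank or file -/
def OrthI (a b : Sq) : Prop := (a.1 = b.1 ∧ a.2 ≠ b.2) ∨ (a.1 ≠ b.1 ∧ a.2 = b.2)

/-- on a common diagonal -/
def DiagI (a b : Sq) : Prop := (a.1 - b.1).natAbs = (a.2 - b.2).natAbs ∧ a.1 ≠ b.1

/-- `c` is strictly between `a` and `b` (for `a`, `b` on a common line) -/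
def BetwI (a b c : Sq) : Prop :=
  ¬ (a.1 = c.1 ∧ a.2 = c.2) ∧ ¬ (c.1 = b.1 ∧ c.2 = b.2) ∧
    (a.1 - c.1).natAbs + (c.1 - b.1).natAbs = (a.1 - b.1).natAbs ∧
    (a.2 - c.2).natAbs + (c.2 - b.2).natAbs = (a.2 - b.2).natAbs ∧
    (OrthI a b ∨ (a.1 - c.1).natAbs = (a.2 - c.2).natAbs)

theorem add_nsmul_fst (a d : Sq) (n : ℕ) : (a + n • d).1 = a.1 + n * d.1 := by
  simp

theorem add_nsmul_snd (a d : Sq) (n : ℕ) : (a + n • d).2 = a.2 + n * d.2 := by
  simp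

theorem betwI_iff (a d c : Sq) (n : ℕ) (hd : d ∈ orthDirs ++ diagDirs) (hn : 0 < n) :
    BetwI a (a + n • d) c ↔ ∃ k : ℕ, 0 < k ∧ k < n ∧ c = a + k • d := by
  obtain ⟨d1, d2⟩ := d
  obtain ⟨a1, a2⟩ := a
  obtain ⟨c1, c2⟩ := c
  simp only [orthDirs, diagDirs, List.cons_append, List.nil_append, List.mem_cons,
    List.not_mem_nil, or_false, Prod.mk.injEq] at hd
  unfold BetwI OrthI
  rw [add_nsmul_fst, add_nsmul_snd]
  constructor
  · rintro ⟨h1, h2, h3, h4, h5⟩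
    refine ⟨max (a1 - c1).natAbs (a2 - c2).natAbs, ?_⟩
    rw [Prod.ext_iff, add_nsmul_fst, add_nsmul_snd]
    simp only at h1 h2 h3 h4 h5 ⊢
    rcases hd with ⟨rfl, rfl⟩ | ⟨rfl, rfl⟩ | ⟨rfl, rfl⟩ | ⟨rfl, rfl⟩ | ⟨rfl, rfl⟩ | ⟨rfl, rfl⟩ |
      ⟨rfl, rfl⟩ | ⟨rfl, rfl⟩ <;> omega
  · rintro ⟨k, hk, hkn, hc⟩
    rw [Prod.ext_iff, add_nsmul_fst, add_nsmul_snd] at hc
    simp only at hc ⊢
    obtain ⟨hc1, hc2⟩ := hc
    rcases hd with ⟨rfl, rfl⟩ | ⟨rfl, rfl⟩ | ⟨rfl, rfl⟩ | ⟨rfl, rfl⟩ | ⟨rfl, rfl⟩ | ⟨rfl, rfl⟩ |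
      ⟨rfl, rfl⟩ | ⟨rfl, rfl⟩ <;> omega

theorem slides_iff (B : Board) (ds : List Sq) (hds : ∀ d ∈ ds, d ∈ orthDirs ++ diagDirs)
    (a b : Sq) : Slides B ds a b ↔
      (∃ d ∈ ds, ∃ n : ℕ, 0 < n ∧ b = a + n • d) ∧ ∀ c, BetwI a b c → B c = none := by
  constructor
  · rintro ⟨d, hd, n, hn, rfl, h⟩
    refine ⟨⟨d, hd, n, hn, rfl⟩, fun c hc => ?_⟩
    rw [betwI_iff a d c n (hds d hd) hn] at hc
    obtain ⟨k, h1, h2, rfl⟩ := hc
    exact h k h1 h2
  · rintro ⟨⟨d, hd, n, hn, rfl⟩, h⟩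
    refine ⟨d, hd, n, hn, rfl, fun k h1 h2 => h _ ?_⟩
    rw [betwI_iff a d _ n (hds d hd) hn]
    exact ⟨k, h1, h2, rfl⟩

theorem orth_iff (a b : Sq) : (∃ d ∈ orthDirs, ∃ n : ℕ, 0 < n ∧ b = a + n • d) ↔ OrthI a b := by
  obtain ⟨a1, a2⟩ := a
  obtain ⟨b1, b2⟩ := b
  unfold OrthI
  constructor
  · rintro ⟨⟨d1, d2⟩, hd, n, hn, h⟩
    simp only [orthDirs, List.mem_cons, List.not_mem_nil, or_false, Prod.mk.injEq] at hd
    rw [Prod.ext_iff, add_nsmul_fst, add_nsmul_snd] at h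
    simp only at h ⊢
    rcases hd with ⟨rfl, rfl⟩ | ⟨rfl, rfl⟩ | ⟨rfl, rfl⟩ | ⟨rfl, rfl⟩ <;> omega
  · intro h
    simp only at h
    have key : ∀ d : Sq, d ∈ orthDirs → ∀ n : ℕ, 0 < n → b1 = a1 + n * d.1 → b2 = a2 + n * d.2 →
        ∃ d ∈ orthDirs, ∃ n : ℕ, 0 < n ∧ ((b1, b2) : Sq) = (a1, a2) + n • d := by
      intro d hd n hn h1 h2
      refine ⟨d, hd, n, hn, ?_⟩
      rw [Prod.ext_iff, add_nsmul_fst, add_nsmul_snd]
      exact ⟨h1, h2⟩
    rcases h with ⟨h1, h2⟩ | ⟨h1, h2⟩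
    · rcases lt_or_gt_of_ne h2 with h3 | h3
      · exact key (0, 1) (by simp [orthDirs]) (b2 - a2).natAbs (by omega) (by simp only [mul_one, mul_zero, mul_neg]; omega)
          (by simp only [mul_one, mul_zero, mul_neg]; omega)
      · exact key (0, -1) (by simp [orthDirs]) (b2 - a2).natAbs (by omega) (by simp only [mul_one, mul_zero, mul_neg]; omega)
          (by simp only [mul_one, mul_zero, mul_neg]; omega)
    · rcases lt_or_gt_of_ne h1 with h3 | h3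
      · exact key (1, 0) (by simp [orthDirs]) (b1 - a1).natAbs (by omega) (by simp only [mul_one, mul_zero, mul_neg]; omega)
          (by simp only [mul_one, mul_zero, mul_neg]; omega)
      · exact key (-1, 0) (by simp [orthDirs]) (b1 - a1).natAbs (by omega) (by simp only [mul_one, mul_zero, mul_neg]; omega)
          (by simp only [mul_one, mul_zero, mul_neg]; omega)

theorem diag_iff (a b : Sq) : (∃ d ∈ diagDirs, ∃ n : ℕ, 0 < n ∧ b = a + n • d) ↔ DiagI a b := by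
  obtain ⟨a1, a2⟩ := a
  obtain ⟨b1, b2⟩ := b
  unfold DiagI
  constructor
  · rintro ⟨⟨d1, d2⟩, hd, n, hn, h⟩
    simp only [diagDirs, List.mem_cons, List.not_mem_nil, or_false, Prod.mk.injEq] at hd
    rw [Prod.ext_iff, add_nsmul_fst, add_nsmul_snd] at h
    simp only at h ⊢
    rcases hd with ⟨rfl, rfl⟩ | ⟨rfl, rfl⟩ | ⟨rfl, rfl⟩ | ⟨rfl, rfl⟩ <;> omega
  · rintro ⟨h, h1⟩
    simp only at h h1
    have key : ∀ d : Sq, d ∈ diagDirs → ∀ n : ℕ, 0 < n → b1 = a1 + n * d.1 → b2 = a2 + n * d.2 →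
        ∃ d ∈ diagDirs, ∃ n : ℕ, 0 < n ∧ ((b1, b2) : Sq) = (a1, a2) + n • d := by
      intro d hd n hn h1 h2
      refine ⟨d, hd, n, hn, ?_⟩
      rw [Prod.ext_iff, add_nsmul_fst, add_nsmul_snd]
      exact ⟨h1, h2⟩
    rcases lt_or_gt_of_ne h1 with h3 | h3 <;> rcases le_or_gt a2 b2 with h4 | h4
    · exact key (1, 1) (by simp [diagDirs]) (b1 - a1).natAbs (by omega) (by simp only [mul_one, mul_zero, mul_neg]; omega)
          (by simp only [mul_one, mul_zero, mul_neg]; omega)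
    · exact key (1, -1) (by simp [diagDirs]) (b1 - a1).natAbs (by omega) (by simp only [mul_one, mul_zero, mul_neg]; omega)
          (by simp only [mul_one, mul_zero, mul_neg]; omega)
    · exact key (-1, 1) (by simp [diagDirs]) (b1 - a1).natAbs (by omega) (by simp only [mul_one, mul_zero, mul_neg]; omega)
          (by simp only [mul_one, mul_zero, mul_neg]; omega)
    · exact key (-1, -1) (by simp [diagDirs]) (b1 - a1).natAbs (by omega) (by simp only [mul_one, mul_zero, mul_neg]; omega)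
          (by simp only [mul_one, mul_zero, mul_neg]; omega)

theorem slides_orth (B : Board) (a b : Sq) :
    Slides B orthDirs a b ↔ OrthI a b ∧ ∀ c, BetwI a b c → B c = none := by
  rw [slides_iff B orthDirs (fun d hd => List.mem_append_left _ hd), orth_iff]

theorem slides_diag (B : Board) (a b : Sq) :
    Slides B diagDirs a b ↔ DiagI a b ∧ ∀ c, BetwI a b c → B c = none := by
  rw [slides_iff B diagDirs (fun d hd => List.mem_append_right _ hd), diag_iff]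

theorem slides_all (B : Board) (a b : Sq) :
    Slides B (orthDirs ++ diagDirs) a b ↔
      (OrthI a b ∨ DiagI a b) ∧ ∀ c, BetwI a b c → B c = none := by
  rw [slides_iff B _ (fun d hd => hd)]
  have : (∃ d ∈ orthDirs ++ diagDirs, ∃ n : ℕ, 0 < n ∧ b = a + n • d) ↔
      (OrthI a b ∨ DiagI a b) := by
    rw [← orth_iff, ← diag_iff]
    constructor
    · rintro ⟨d, hd, n, h⟩
      rcases List.mem_append.1 hd with hd | hd
      · exact Or.inl ⟨d, hd, n, h⟩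
      · exact Or.inr ⟨d, hd, n, h⟩
    · rintro (⟨d, hd, n, h⟩ | ⟨d, hd, n, h⟩)
      · exact ⟨d, List.mem_append_left _ hd, n, h⟩
      · exact ⟨d, List.mem_append_right _ hd, n, h⟩
  rw [this]

theorem king_iff (a b : Sq) : b - a ∈ orthDirs ++ diagDirs ↔
    (a.1 - b.1).natAbs ≤ 1 ∧ (a.2 - b.2).natAbs ≤ 1 ∧ ¬ (a.1 = b.1 ∧ a.2 = b.2) := by
  obtain ⟨a1, a2⟩ := a
  obtain ⟨b1, b2⟩ := b
  simp only [orthDirs, diagDirs, List.cons_append, List.nil_append, List.mem_cons,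
    List.not_mem_nil, or_false, Prod.mk_sub_mk, Prod.mk.injEq]
  omega

theorem knight_iff (a b : Sq) : b - a ∈ knightJumps ↔
    ((a.1 - b.1).natAbs = 1 ∧ (a.2 - b.2).natAbs = 2) ∨
      ((a.1 - b.1).natAbs = 2 ∧ (a.2 - b.2).natAbs = 1) := by
  obtain ⟨a1, a2⟩ := a
  obtain ⟨b1, b2⟩ := b
  simp only [knightJumps, List.mem_cons, List.not_mem_nil, or_false, Prod.mk_sub_mk,
    Prod.mk.injEq]
  omega

end Pool.Agent.Lib.H32C
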