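import Pool.Agent.Lib.H32C.Code
import Pool.Agent.Lib.H32C.Geo

/-!
# Coded chess is chess; the upper bound
-/

set_option autoImplicit false

namespace Pool.Agent.Lib.H32C

/-- the integer coded by a pair -/
def zi (a : ℕ × ℕ) : ℤ := (a.1 : ℤ) - a.2

theorem zd_eq (a b : ℕ × ℕ) : zd a b = (zi a - zi b).natAbs := by
  unfold zd zi; omega

theorem sqv_fst (s : SqC) : (sqv s).1 = zi s.1 := rfl

theorem sqv_snd (s : SqC) : (sqv s).2 = zi s.2 := rfl

theorem same_iff (a b : SqC) : sameC a b ↔ sqv a = sqv b := by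
  unfold sameC
  rw [zd_eq, zd_eq, Prod.ext_iff, sqv_fst, sqv_fst, sqv_snd, sqv_snd]
  omega

theorem orthC_iff (a b : SqC) : orthC a b ↔ OrthI (sqv a) (sqv b) := by
  unfold orthC OrthI
  rw [zd_eq, zd_eq, sqv_fst, sqv_fst, sqv_snd, sqv_snd]
  omega

theorem diagC_iff (a b : SqC) : diagC a b ↔ DiagI (sqv a) (sqv b) := by
  unfold diagC DiagI
  rw [zd_eq, zd_eq, sqv_fst, sqv_fst, sqv_snd, sqv_snd]
  omega

theorem betwC_iff (a b c : SqC) : betwC a b c ↔ BetwI (sqv a) (sqv b) (sqv c) := by
  unfold betwC BetwI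
  rw [orthC_iff, same_iff, same_iff, Prod.ext_iff, Prod.ext_iff]
  simp only [zd_eq, sqv_fst, sqv_snd]

theorem kingC_iff (a b : SqC) : kingC a b ↔ sqv b - sqv a ∈ orthDirs ++ diagDirs := by
  rw [king_iff]
  unfold kingC
  rw [same_iff, Prod.ext_iff]
  simp only [zd_eq, sqv_fst, sqv_snd]

theorem knightC_iff (a b : SqC) : knightC a b ↔ sqv b - sqv a ∈ knightJumps := by
  rw [knight_iff]
  unfold knightC
  simp only [zd_eq, sqv_fst, sqv_snd]

theorem rowC_iff (c : ℕ) (a b : SqC) : rowC c a b ↔ (sqv b).2 - (sqv a).2 = fwd (man c).1 := by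
  have h : (man c).1 = decide (c % 2 = 1) := rfl
  rw [h]
  unfold rowC fwd sqv
  simp only [decide_eq_true_eq]
  split_ifs with h1 <;> omega

section codes
variable {l : List Ent} {B : Board}

theorem Codes.mem (h : Codes l B) {e : Ent} (he : e ∈ l) : B (sqv e.1) = some (man e.2) :=
  (h _ _).2 ⟨e, he, rfl, rfl⟩

theorem Codes.none_iff (h : Codes l B) (s : Sq) : B s = none ↔ ∀ e ∈ l, ¬ sqv e.1 = s := by
  constructor
  · intro h1 e he h2
    have := h.mem he
    rw [h2, h1] at this
    exact absurd this (by simp)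
  · intro h1
    cases h2 : B s with
    | none => rfl
    | some m =>
      obtain ⟨e, he, h3, -⟩ := (h _ _).1 h2
      exact absurd h3 (h1 e he)

theorem clear_iff (h : Codes l B) (a b : SqC) :
    clearC l a b ↔ ∀ c, BetwI (sqv a) (sqv b) c → B c = none := by
  unfold clearC
  simp only [betwC_iff]
  constructor
  · intro h1 c hc
    rw [h.none_iff]
    rintro e he rfl
    exact h1 e he hc
  · intro h1 e he hb
    exact (h.none_iff _).1 (h1 _ hb) e he rfl

theorem att_iff (h : Codes l B) (e : Ent) (b : SqC) :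
    attC l e b ↔ ManAttacks B (man e.2) (sqv e.1) (sqv b) := by
  unfold attC
  rw [clear_iff h, kingC_iff, knightC_iff, orthC_iff, diagC_iff, rowC_iff]
  have hk : (man e.2).2 = kindOf (e.2 / 2) := rfl
  unfold ManAttacks
  rw [hk]
  rcases hn : e.2 / 2 with _ | _ | _ | _ | _ | n
  · simp [kindOf]
  · simp [kindOf, slides_all]
  · simp [kindOf, slides_orth]
  · simp [kindOf, slides_diag]
  · simp [kindOf]
  · have h1 : ¬ n + 1 + 1 + 1 + 1 + 1 = 0 := by omega
    have h2 : ¬ n + 1 + 1 + 1 + 1 + 1 = 1 := by omega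
    have h3 : ¬ n + 1 + 1 + 1 + 1 + 1 = 2 := by omega
    have h4 : ¬ n + 1 + 1 + 1 + 1 + 1 = 3 := by omega
    have h5 : ¬ n + 1 + 1 + 1 + 1 + 1 = 4 := by omega
    have h6 : 5 ≤ n + 1 + 1 + 1 + 1 + 1 := by omega
    simp only [h1, h2, h3, h4, h5, h6, false_and, false_or, true_and, kindOf, zd_eq]
    rw [Prod.ext_iff, Prod.ext_iff]
    simp only [Prod.fst_sub, Prod.snd_sub, sqv_fst, sqv_snd]
    omega

theorem kindOf_king (n : ℕ) : kindOf n = Kind.king ↔ n = 0 := by
  rcases n with _ | _ | _ | _ | _ | n <;> simp [kindOf]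

theorem kindOf_pawn (n : ℕ) : kindOf n = Kind.pawn ↔ 5 ≤ n := by
  rcases n with _ | _ | _ | _ | _ | n <;> simp [kindOf]

theorem man_king (k : ℕ) (c : Bool) :
    man k = (c, Kind.king) ↔ k / 2 = 0 ∧ decide (k % 2 = 1) = c := by
  unfold man
  rw [Prod.ext_iff]
  simp only [kindOf_king]
  tauto

/-- the number of a colour -/
def colN (c : Bool) : ℕ := if c then 1 else 0

theorem mod_colN (k : ℕ) (c : Bool) : k % 2 = colN c ↔ (man k).1 = c := by
  unfold man colN
  cases c <;> simp

theorem mod_colN_not (k : ℕ) (c : Bool) : ¬ k % 2 = colN c ↔ (man k).1 = !c := by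
  unfold man colN
  cases c <;> simp

theorem chk_iff (h : Codes l B) (c : Bool) : chkC l (colN c) ↔ InCheck B c := by
  unfold chkC InCheck
  constructor
  · rintro ⟨k, hk, ⟨hk1, hk2⟩, e, he, he1, he2⟩
    refine ⟨sqv k.1, sqv e.1, man e.2, ?_, h.mem he, (mod_colN_not _ _).1 he1, (att_iff h e _).1 he2⟩
    rw [h.mem hk]
    congr 1
    rw [Prod.ext_iff]
    exact ⟨(mod_colN _ _).1 hk2, (kindOf_king _).2 hk1⟩
  · rintro ⟨s, a, m, hs, ha, hm, hat⟩
    obtain ⟨k, hk, rfl, hk2⟩ := (h _ _).1 hs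
    obtain ⟨e, he, rfl, rfl⟩ := (h _ _).1 ha
    refine ⟨k, hk, ⟨?_, ?_⟩, e, he, (mod_colN_not _ _).2 hm, (att_iff h e _).2 hat⟩
    · rw [← kindOf_king]; exact congrArg Prod.snd hk2
    · rw [mod_colN]; exact congrArg Prod.fst hk2

theorem mv_codes (h : Codes l B) {e : Ent} (he : e ∈ l) (b : SqC) (hne : sqv b ≠ sqv e.1) :
    Codes (mvC l e b) (B.move (sqv e.1) (sqv b)) := by
  classical
  intro s m
  unfold mvC Board.move
  by_cases h1 : s = sqv e.1
  · rw [if_pos h1]
    constructor
    · intro h2; exact absurd h2 (by simp)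
    · rintro ⟨f, hf, hfs, -⟩
      rw [List.mem_cons] at hf
      rcases hf with rfl | hf
      · exact absurd (hfs.trans h1) hne
      · have := (List.mem_filter.1 hf).2
        simp only [decide_eq_true_eq, same_iff] at this
        exact absurd (hfs.trans h1) this.1
  · rw [if_neg h1]
    by_cases h2 : s = sqv b
    · rw [if_pos h2, h.mem he]
      constructor
      · intro h3
        exact ⟨(b, e.2), List.mem_cons_self, h2.symm, Option.some.inj h3⟩
      · rintro ⟨f, hf, hfs, hfm⟩
        rw [List.mem_cons] at hf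
        rcases hf with rfl | hf
        · rw [← hfm]
        · have := (List.mem_filter.1 hf).2
          simp only [decide_eq_true_eq, same_iff] at this
          exact absurd (hfs.trans h2) this.2
    · rw [if_neg h2, h s m]
      constructor
      · rintro ⟨f, hf, hfs, hfm⟩
        refine ⟨f, List.mem_cons_of_mem _ (List.mem_filter.2 ⟨hf, ?_⟩), hfs, hfm⟩
        simp only [decide_eq_true_eq, same_iff]
        exact ⟨fun h3 => h1 (hfs.symm.trans h3), fun h3 => h2 (hfs.symm.trans h3)⟩
      · rintro ⟨f, hf, hfs, hfm⟩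
        rw [List.mem_cons] at hf
        rcases hf with rfl | hf
        · exact absurd hfs.symm h2
        · exact ⟨f, (List.mem_filter.1 hf).1, hfs, hfm⟩

theorem manAttacks_ne (B : Board) (m : Man) (a b : Sq) (h : ManAttacks B m a b) : b ≠ a := by
  rintro rfl
  unfold ManAttacks at h
  have hO : ¬ OrthI b b := by unfold OrthI; omega
  have hD : ¬ DiagI b b := by unfold DiagI; omega
  split at h
  · rw [king_iff] at h; omega
  · rw [slides_all] at h; tauto
  · rw [slides_orth] at h; tauto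
  · rw [slides_diag] at h; tauto
  · rw [knight_iff] at h; omega
  · rw [Prod.ext_iff, Prod.ext_iff] at h; simp at h

theorem canGo_ne (B : Board) (c : Bool) (a b : Sq) (h : CanGo B c a b) : b ≠ a := by
  obtain ⟨m, -, -, ⟨-, h⟩ | ⟨-, h⟩⟩ := h
  · split_ifs at h with hp
    · rintro rfl
      rw [Prod.ext_iff] at h
      have := h.2
      unfold fwd at this
      split_ifs at this <;> simp at this
    · exact manAttacks_ne _ _ _ _ h
  · exact manAttacks_ne _ _ _ _ h

theorem go_iff (h : Codes l B) (c : Bool) {e : Ent} (he : e ∈ l) (b : SqC) :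
    goC l (colN c) e b ↔ CanGo B c (sqv e.1) (sqv b) := by
  unfold goC CanGo
  have e1 : (∃ f ∈ l, f = e) ↔ True := by simpa using he
  have e2 : (∀ f ∈ l, ¬ sameC f.1 b) ↔ B (sqv b) = none := by
    rw [h.none_iff]; simp only [same_iff]
  have e3 : (∃ f ∈ l, sameC f.1 b ∧ ¬ f.2 % 2 = colN c ∧ ¬ f.2 / 2 = 0) ↔
      ∃ t : Man, B (sqv b) = some t ∧ t.1 = !c ∧ t.2 ≠ Kind.king := by
    constructor
    · rintro ⟨f, hf, h1, h2, h3⟩
      rw [same_iff] at h1
      refine ⟨man f.2, by rw [← h1]; exact h.mem hf, (mod_colN_not _ _).1 h2, ?_⟩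
      intro h4; exact h3 ((kindOf_king _).1 h4)
    · rintro ⟨t, h1, h2, h3⟩
      obtain ⟨f, hf, h4, rfl⟩ := (h _ _).1 h1
      refine ⟨f, hf, (same_iff _ _).2 h4, (mod_colN_not _ _).2 h2, ?_⟩
      intro h5; exact h3 ((kindOf_king _).2 h5)
  have e4 : (5 ≤ e.2 / 2 ∧ rowC e.2 e.1 b ∧ zd e.1.1 b.1 = 0) ∨ (¬ 5 ≤ e.2 / 2 ∧ attC l e b) ↔
      (if (man e.2).2 = Kind.pawn then sqv b - sqv e.1 = (0, fwd (man e.2).1)
        else ManAttacks B (man e.2) (sqv e.1) (sqv b)) := by
    have : (man e.2).2 = Kind.pawn ↔ 5 ≤ e.2 / 2 := kindOf_pawn _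
    by_cases h5 : 5 ≤ e.2 / 2
    · rw [if_pos (this.2 h5), rowC_iff, zd_eq, Prod.ext_iff]
      simp only [h5, true_and, not_true, false_and, or_false, Prod.fst_sub, Prod.snd_sub, sqv_fst,
        sqv_snd]
      omega
    · rw [if_neg (fun h6 => h5 (this.1 h6))]
      simp only [h5, false_and, not_false_iff, true_and, false_or, att_iff h]
  rw [e1, e2, e3, e4, att_iff h, mod_colN, true_and]
  constructor
  · rintro ⟨h1, h2⟩
    refine ⟨man e.2, h.mem he, h1, ?_⟩
    rw [← h1]
    rw [← h1] at h2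
    exact h2
  · rintro ⟨m, h0, h1, h2⟩
    rw [h.mem he] at h0
    obtain rfl := Option.some.inj h0
    refine ⟨h1, ?_⟩
    rw [← h1] at h2
    rw [← h1]
    exact h2

theorem leg_iff (h : Codes l B) (c : Bool) {e : Ent} (he : e ∈ l) (b : SqC) :
    legC l (colN c) e b ↔ Legal B c (sqv e.1) (sqv b) := by
  unfold legC Legal
  rw [go_iff h c he]
  constructor
  · rintro ⟨h1, h2⟩
    refine ⟨h1, ?_⟩
    rwa [chk_iff (mv_codes h he b (canGo_ne _ _ _ _ h1))] at h2
  · rintro ⟨h1, h2⟩
    refine ⟨h1, ?_⟩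
    rwa [chk_iff (mv_codes h he b (canGo_ne _ _ _ _ h1))]

end codes

/-- a code of a square -/
def cod (s : Sq) : SqC := ((s.1.toNat, (-s.1).toNat), (s.2.toNat, (-s.2).toNat))

theorem sqv_cod (s : Sq) : sqv (cod s) = s := by
  unfold sqv cod
  rw [Prod.ext_iff]
  simp only
  omega

/-- moves forth -/
theorem move_forth {l : List Ent} {B : Board} {c : Bool} (h : Codes l B) {q : Pos}
    (hq : (⟨B, c⟩ : Pos).Move q) :
    ∃ m l', moveC (colN c) (Encodable.encode l) m = some (Encodable.encode l') ∧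
      Codes l' q.board ∧ q.turn = !c := by
  classical
  obtain ⟨a, b, hl, rfl⟩ := hq
  obtain ⟨m, hm, -⟩ := hl.1
  simp only at hl hm
  obtain ⟨e, he, rfl, -⟩ := (h _ _).1 hm
  refine ⟨Encodable.encode ((e, cod b) : Ent × SqC), mvC l e (cod b), ?_, ?_, rfl⟩
  · unfold moveC
    simp only [Denumerable.ofNat_encode]
    rw [if_pos]
    rw [leg_iff h c he, sqv_cod]
    exact hl
  · have hne := canGo_ne _ _ _ _ hl.1
    have := mv_codes h he (cod b) (by rw [sqv_cod]; exact hne)
    rw [sqv_cod] at this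
    exact this

/-- moves back -/
theorem move_back {l : List Ent} {B : Board} {c : Bool} (h : Codes l B) {m z : ℕ}
    (hm : moveC (colN c) (Encodable.encode l) m = some z) :
    ∃ l' B', z = Encodable.encode l' ∧ Codes l' B' ∧ (⟨B, c⟩ : Pos).Move ⟨B', !c⟩ := by
  classical
  unfold moveC at hm
  simp only [Denumerable.ofNat_encode] at hm
  split_ifs at hm with hl
  have he : (Denumerable.ofNat (Ent × SqC) m).1 ∈ l := by
    obtain ⟨f, hf, hfe⟩ := hl.1.1
    rw [← hfe]; exact hf
  have hl' := (leg_iff h c he _).1 hl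
  exact ⟨_, _, (Option.some.inj hm).symm, mv_codes h he _ (canGo_ne _ _ _ _ hl'.1),
    _, _, hl', rfl⟩

/-- game values agree, first direction -/
theorem valLE_forth {p : Pos} {β : Ordinal.{0}} (h : ValLE p β) :
    ∀ l, Codes l p.board →
      (p.turn = true → chessC.WV (Encodable.encode l) β) ∧
      (p.turn = false →
        (chessC.chk (Encodable.encode l) ∧ ∀ r, chessC.bm (Encodable.encode l) r = none) ∨
        ((∃ r, chessC.bm (Encodable.encode l) r ≠ none) ∧
          ∀ r z, chessC.bm (Encodable.encode l) r = some z → chessC.WV z β)) := by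
  induction h with
  | @mate p β hmate =>
    intro l hl
    obtain ⟨B, c⟩ := p
    obtain ⟨h1, h2, h3⟩ := hmate
    simp only at h1
    subst h1
    refine ⟨fun h => absurd h (by simp), fun _ => Or.inl ⟨?_, ?_⟩⟩
    · have := (chk_iff hl false).2 h2
      simpa [chessC, colN] using this
    · intro r
      cases hr : chessC.bm (Encodable.encode l) r with
      | none => rfl
      | some z =>
        obtain ⟨l', B', -, -, hmv⟩ := move_back (c := false) hl hr
        exact absurd hmv (h3 _)
  | @white p q α β ht hm hq hab ih =>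
    intro l hl
    obtain ⟨B, c⟩ := p
    simp only at ht
    subst ht
    refine ⟨fun _ => ?_, fun h => absurd h (by simp)⟩
    obtain ⟨m, l', h1, h2, h3⟩ := move_forth hl hm
    rcases (ih l' h2).2 h3 with ⟨h4, h5⟩ | ⟨h4, h5⟩
    · refine CGame.WV.mate (G := chessC) h1 h4 h5 (le_trans ?_ hab)
      exact le_add_of_nonneg_left (bot_le (a := α))
    · exact CGame.WV.step (G := chessC) h1 h4 h5 hab
  | @black p β ht hex h ih =>
    intro l hl
    obtain ⟨B, c⟩ := p
    simp only at ht
    subst ht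
    refine ⟨fun h => absurd h (by simp), fun _ => Or.inr ⟨?_, ?_⟩⟩
    · obtain ⟨q, hq⟩ := hex
      obtain ⟨m, l', h1, -⟩ := move_forth hl hq
      refine ⟨m, ?_⟩
      have h2 : chessC.bm (Encodable.encode l) m = some (Encodable.encode l') := h1
      rw [h2]; simp
    · intro r z hz
      obtain ⟨l', B', rfl, h2, hmv⟩ := move_back (c := false) hl hz
      exact (ih _ hmv l' h2).1 rfl

/-- game values agree, second direction -/
theorem valLE_back {x : ℕ} {β : Ordinal.{0}} (h : chessC.WV x β) :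
    ∀ l B, Codes l B → x = Encodable.encode l → ValLE ⟨B, true⟩ β := by
  induction h with
  | @mate x m y β h hc hn hβ =>
    rintro l B hl rfl
    obtain ⟨l', B', rfl, h2, hmv⟩ := move_back (c := true) hl h
    refine ValLE.white (α := 0) rfl hmv (ValLE.mate ⟨rfl, ?_, ?_⟩) (by simpa using hβ)
    · have : chkC l' (colN false) := by simpa [chessC, colN] using hc
      exact (chk_iff h2 false).1 this
    · intro q hq
      obtain ⟨r, l'', h3, -⟩ := move_forth h2 hq
      have h4 : chessC.bm (Encodable.encode l') r = some (Encodable.encode l'') := h3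
      rw [hn r] at h4
      exact absurd h4 (by simp)
  | @step x m y α β h hex hall hαβ ih =>
    rintro l B hl rfl
    obtain ⟨l', B', rfl, h2, hmv⟩ := move_back (c := true) hl h
    refine ValLE.white (α := α) rfl hmv (ValLE.black rfl ?_ ?_) hαβ
    · obtain ⟨r, hr⟩ := hex
      obtain ⟨z, hz⟩ := Option.ne_none_iff_exists'.1 hr
      obtain ⟨l'', B'', -, -, hmv'⟩ := move_back (c := false) h2 hz
      exact ⟨_, hmv'⟩
    · intro q hq
      obtain ⟨r, l'', h3, h4, h5⟩ := move_forth h2 hq
      obtain ⟨Bq, tq⟩ := q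
      simp only at h5
      subst h5
      exact ih r _ h3 l'' Bq h4 rfl

theorem exists_code (B : Board) (hB : {s | B s ≠ none}.Finite) : ∃ l, Codes l B := by
  classical
  have hman : ∀ m : Man, ∃ k, man k = m := by
    rintro ⟨c, k⟩
    cases c <;> cases k
    · exact ⟨0, rfl⟩
    · exact ⟨2, rfl⟩
    · exact ⟨4, rfl⟩
    · exact ⟨6, rfl⟩
    · exact ⟨8, rfl⟩
    · exact ⟨10, rfl⟩
    · exact ⟨1, rfl⟩
    · exact ⟨3, rfl⟩
    · exact ⟨5, rfl⟩
    · exact ⟨7, rfl⟩
    · exact ⟨9, rfl⟩
    · exact ⟨11, rfl⟩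
  choose k hk using hman
  refine ⟨hB.toFinset.toList.map (fun s => (cod s, k ((B s).getD (true, Kind.king)))), ?_⟩
  intro s m
  constructor
  · intro h
    refine ⟨(cod s, k ((B s).getD (true, Kind.king))), ?_, sqv_cod s, ?_⟩
    · rw [List.mem_map]
      refine ⟨s, ?_, rfl⟩
      rw [Finset.mem_toList, Set.Finite.mem_toFinset]
      show B s ≠ none
      rw [h]; simp
    · simp only [hk, h, Option.getD_some]
  · rintro ⟨e, he, h1, h2⟩
    rw [List.mem_map] at he
    obtain ⟨t, ht, rfl⟩ := he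
    simp only [sqv_cod] at h1
    subst h1
    rw [Finset.mem_toList, Set.Finite.mem_toFinset] at ht
    obtain ⟨m', hm'⟩ := Option.ne_none_iff_exists'.1 ht
    simp only [hk, hm', Option.getD_some] at h2
    rw [hm', h2]

theorem ValLE.mono {p : Pos} {α β : Ordinal.{0}} (h : ValLE p α) (hab : α ≤ β) : ValLE p β := by
  induction h generalizing β with
  | mate h => exact ValLE.mate h
  | white ht hm hq hab' _ => exact ValLE.white ht hm hq (hab'.trans hab)
  | black ht hex h ih => exact ValLE.black ht hex fun q hq => ih q hq hab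

theorem bddAbove_CK : BddAbove {α : Ordinal.{0} | ∃ (r : ℕ → ℕ → Prop) (_ : IsWellOrder ℕ r),
    ComputablePred (fun x : ℕ × ℕ => r x.1 x.2) ∧ Ordinal.type r = α} := by
  refine ⟨Ordinal.omega 1, ?_⟩
  rintro α ⟨r, hr, -, rfl⟩
  have h1 : (Ordinal.type r).card = Cardinal.aleph0 := by
    rw [Ordinal.card_type, Cardinal.mk_nat]
  have h2 : Ordinal.type r < (Order.succ (Cardinal.aleph0)).ord := by
    rw [Cardinal.lt_ord, h1]
    exact Order.lt_succ _
  rw [← Cardinal.aleph_zero, Cardinal.succ_aleph, Cardinal.ord_aleph] at h2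
  simpa using h2.le

theorem valLE_CK_white (B : Board) (hB : {s | B s ≠ none}.Finite) {β : Ordinal.{0}}
    (h : ValLE ⟨B, true⟩ β) : ValLE ⟨B, true⟩ omegaOneCK := by
  obtain ⟨l, hl⟩ := exists_code B hB
  have h1 := (valLE_forth h l hl).1 rfl
  have := chessC.isWellOrder_ord _ h1
  have h2 := valLE_back (chessC.wv_type _ h1) l B hl rfl
  refine h2.mono (le_csSup bddAbove_CK ?_)
  exact ⟨_, chessC.isWellOrder_ord _ h1, (CGame.prim_ord prim_chessC _).computablePred, rfl⟩

theorem move_finite {p q : Pos} (hp : {s | p.board s ≠ none}.Finite) (h : p.Move q) :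
    {s | q.board s ≠ none}.Finite := by
  obtain ⟨a, b, -, rfl⟩ := h
  refine (hp.union (Set.finite_singleton b)).subset ?_
  intro s hs
  simp only [Board.move, ne_eq, Set.mem_ofPred_eq] at hs
  by_cases h1 : s = b
  · exact Or.inr h1
  · left
    by_cases h2 : s = a
    · rw [if_pos h2] at hs; exact absurd rfl hs
    · rw [if_neg h2, if_neg h1] at hs; exact hs

/-- **Upper bound** (Blass): the value of every finite position is at most the Church-Kleene
ordinal. -/
theorem valLE_CK (p : Pos) (hp : {s | p.board s ≠ none}.Finite) (h : HasValue p) :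
    ValLE p omegaOneCK := by
  obtain ⟨β, hβ⟩ := h
  obtain ⟨B, c⟩ := p
  cases c with
  | true => exact valLE_CK_white B hp hβ
  | false =>
    cases hβ with
    | mate h => exact ValLE.mate h
    | white ht => exact absurd ht (by simp)
    | black ht hex h =>
      refine ValLE.black rfl hex fun q hq => ?_
      have hf := move_finite hp hq
      have h1 := h q hq
      obtain ⟨a, b, -, rfl⟩ := hq
      exact valLE_CK_white _ hf h1

theorem val_le_CK (p : Pos) (hp : {s | p.board s ≠ none}.Finite) (h : HasValue p) :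
    val p ≤ omegaOneCK := csInf_le' (valLE_CK p hp h)

end Pool.Agent.Lib.H32C
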