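import Pool.Agent.Lib.H32C.MemD

/-!
# Chunk ME: phases, groups of items with rays (upper bound)
-/

set_option autoImplicit false

namespace Pool.Agent.Lib.H32C.Loc

/-! helpers of chunk ME1 -/

theorem ME1_msk : ∀ c < 16, (msk 0x180 c = true → c = 7 ∨ c = 8) := by
  decide

theorem ME1_msk' (c : Nat) (h : msk 0x180 c = true) : c = 7 ∨ c = 8 := by
  by_cases hc : c < 16
  · exact ME1_msk c hc h
  · exfalso
    rw [msk_iff, Nat.testBit_lt_two_pow] at h
    · exact absurd h Bool.false_ne_true
    · calc 0x180 < 2 ^ 16 := by norm_num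
        _ ≤ 2 ^ c := Nat.pow_le_pow_right (by norm_num) (by omega)

theorem ME1_msk7 : ∀ c < 16, (msk 0x180 c = false → c ≠ 7 ∧ c ≠ 8) := by
  decide

theorem ME1_noMk {L : List Pc} (h : noMk L = true) : ∀ q ∈ L, q.c ≠ 7 ∧ q.c ≠ 8 := by
  intro q hq
  unfold noMk at h
  rw [TS1_allb] at h
  have h1 := h q hq
  rw [Bool.not_eq_true'] at h1
  by_cases hc : q.c < 16
  · exact ME1_msk7 q.c hc h1
  · omega

theorem ME1_memb {x : Nat} {L : List Nat} (h : memb x L = true) : x ∈ L := by
  induction L with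
  | nil => exact absurd h Bool.false_ne_true
  | cons y L ih =>
    have h1 : memb x (y :: L) = (Nat.beq x y || memb x L) := rfl
    rw [h1, Bool.or_eq_true, TS1_beq] at h
    rcases h with rfl | h
    · exact List.mem_cons_self
    · exact List.mem_cons_of_mem _ (ih h)

theorem ME1_ne8 {p : Nat} {L : List RI} (h : allb (fun r' => !Nat.beq (cell p r'.ρ.e) 8) L = true) :
    ∀ r ∈ L, cell p r.ρ.e ≠ 8 := by
  rw [TS1_allb] at h
  intro r hr h8
  have h1 := h r hr
  rw [TS1_beq.2 h8] at h1
  exact absurd h1 Bool.false_ne_true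

theorem ME1_find0 {p : Nat} (f : Nat → Sq) (s : Sq) {L : List RI} (h : ∀ r ∈ L, cell p r.ρ.e ≠ 8) :
    (raysOf L).find? (fun ρ => decide (s = f ρ.e ∧ cell p ρ.e = 8)) = none := by
  rw [List.find?_eq_none]
  intro ρ hρ hd
  obtain ⟨r, hr, rfl⟩ := mem_raysOf.1 hρ
  exact h r hr (of_decide_eq_true hd).2

/-- the phase of a patch, the resident being on a ray -/
theorem ME1_phase (T : MT) (ps : PS) (p : Nat) (f : Nat → Sq) (L : List RI)
    (h : (List.rec 0 (fun r L' ih => cond (Nat.beq (cell p r.ρ.e) 8)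
      (cond (allb (fun r' => !Nat.beq (cell p r'.ρ.e) 8) L' && (Nat.beq r.ρ.k T.k &&
        memb (zA ps.X ps.Y r.ρ r.n) T.st)) (zA ps.X ps.Y r.ρ r.n) 0) ih) L : Nat) ≠ 0) :
    ∃ r ∈ L, cell p r.ρ.e = 8 ∧ r.ρ.k = T.k ∧ zA ps.X ps.Y r.ρ r.n ∈ T.st ∧
      (List.rec 0 (fun r L' ih => cond (Nat.beq (cell p r.ρ.e) 8)
      (cond (allb (fun r' => !Nat.beq (cell p r'.ρ.e) 8) L' && (Nat.beq r.ρ.k T.k &&
        memb (zA ps.X ps.Y r.ρ r.n) T.st)) (zA ps.X ps.Y r.ρ r.n) 0) ih) L : Nat) =
          zA ps.X ps.Y r.ρ r.n ∧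
      ∀ s : Sq, (raysOf L).find? (fun ρ => decide (s = f ρ.e ∧ cell p ρ.e = 8)) =
        if s = f r.ρ.e then some r.ρ else none := by
  induction L with
  | nil => exact absurd rfl h
  | cons r L ih =>
    have e1 : (List.rec 0 (fun r L' ih => cond (Nat.beq (cell p r.ρ.e) 8)
      (cond (allb (fun r' => !Nat.beq (cell p r'.ρ.e) 8) L' && (Nat.beq r.ρ.k T.k &&
        memb (zA ps.X ps.Y r.ρ r.n) T.st)) (zA ps.X ps.Y r.ρ r.n) 0) ih) (r :: L) : Nat) =
        cond (Nat.beq (cell p r.ρ.e) 8)
          (cond (allb (fun r' => !Nat.beq (cell p r'.ρ.e) 8) L && (Nat.beq r.ρ.k T.k &&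
            memb (zA ps.X ps.Y r.ρ r.n) T.st)) (zA ps.X ps.Y r.ρ r.n) 0)
          (List.rec 0 (fun r L' ih => cond (Nat.beq (cell p r.ρ.e) 8)
            (cond (allb (fun r' => !Nat.beq (cell p r'.ρ.e) 8) L' && (Nat.beq r.ρ.k T.k &&
              memb (zA ps.X ps.Y r.ρ r.n) T.st)) (zA ps.X ps.Y r.ρ r.n) 0) ih) L : Nat) := rfl
    have e2 : raysOf (r :: L) = r.ρ :: raysOf L := rfl
    rw [e1] at h ⊢
    by_cases h8 : cell p r.ρ.e = 8
    · rw [TS1_beq.2 h8, cond_true] at h ⊢
      have hc : (allb (fun r' => !Nat.beq (cell p r'.ρ.e) 8) L && (Nat.beq r.ρ.k T.k &&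
            memb (zA ps.X ps.Y r.ρ r.n) T.st)) = true := by
        cases hcc : (allb (fun r' => !Nat.beq (cell p r'.ρ.e) 8) L && (Nat.beq r.ρ.k T.k &&
            memb (zA ps.X ps.Y r.ρ r.n) T.st)) with
        | true => rfl
        | false =>
          rw [hcc, cond_false] at h
          exact absurd rfl h
      rw [hc, cond_true]
      rw [Bool.and_eq_true, Bool.and_eq_true, TS1_beq] at hc
      obtain ⟨c1, c2, c3⟩ := hc
      refine ⟨r, List.mem_cons_self, h8, c2, ME1_memb c3, rfl, fun s => ?_⟩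
      rw [e2]
      by_cases hs : s = f r.ρ.e
      · rw [if_pos hs]
        exact List.find?_cons_of_pos
          (decide_eq_true (⟨hs, h8⟩ : s = f r.ρ.e ∧ cell p r.ρ.e = 8))
      · rw [if_neg hs, List.find?_cons_of_neg (by
          rw [decide_eq_true_iff]
          exact fun h => hs h.1)]
        exact ME1_find0 f s (ME1_ne8 c1)
    · have hb : Nat.beq (cell p r.ρ.e) 8 = false := by
        rw [Bool.eq_false_iff, ne_eq, TS1_beq]
        exact h8
      rw [hb, cond_false] at h ⊢
      obtain ⟨r', hr', g1, g2, g3, g4, g5⟩ := ih h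
      refine ⟨r', List.mem_cons_of_mem _ hr', g1, g2, g3, g4, fun s => ?_⟩
      rw [e2, List.find?_cons_of_neg (by
          rw [decide_eq_true_iff]
          exact fun h => h8 h.2)]
      exact g5 s

theorem ME1_fits {T : MT} {O : Sq} {F : Board} {R : Room} (hT : mtOk T = true)
    (hF : MBase T O F R) {q : Nat} (hq : q = 0 ∨ q ∈ T.st) : FitsH T.H T.A O (FM T F O q) := by
  rcases hq with rfl | hq
  · have h1 : FM T F O 0 = F := by
      funext s
      unfold FM
      rw [if_neg (fun h => h.1 rfl)]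
    rw [h1]
    exact hF.fits
  · unfold mtOk at hT
    rw [Bool.and_eq_true, Bool.or_eq_true, TS1_beq, TS1_beq, TS1_allb] at hT
    obtain ⟨hk, hst⟩ := hT
    have h1 := hst q hq
    rw [Bool.and_eq_true, TS1_beq] at h1
    obtain ⟨-, h15⟩ := h1
    have hdm := Nat.div_add_mod q 80
    refine ⟨?_, ?_⟩
    · intro X Y hX hY hc
      unfold FM
      rw [if_neg ?_]
      · exact hF.fits.cells X Y hX hY hc
      · rintro ⟨-, hs⟩
        apply hc
        unfold sqA tsq at hs
        have e1 := congrArg Prod.fst hs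
        have e2 := congrArg Prod.snd hs
        simp only at e1 e2
        have e3 : X = q % 80 := by omega
        have e4 : Y = q / 80 := by omega
        rw [TS1_codeA, e3, e4]
        have e5 : q % 80 + 80 * (q / 80) = q := by omega
        rw [e5, h15]
    · intro s
      unfold FM
      split_ifs with hs
      · rcases hk with hk | hk <;> rw [hk] <;> exact nk_dec (by decide) (by decide) s
      · exact hF.fits.noK s

/-- chunk ME: the board of a state with marks, and its phase (use `brd_patW`) -/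
theorem brd_phase {T : MT} {O : Sq} {F : Board} {R : Room} (hT : mtOk T = true)
    (hF : MBase T O F R) {ps : PS} (h : psOkE T ps = true) {q : Nat} (hq : q = ps.q ∨ q = 0)
    {S : List (List Pc)} {i : Nat} {M : List Pc} (hM : allb (fun m => msk 0x180 m.c) M = true)
    (hL : noMk (nthP S i) = true)
    (hp : pcsOkW T.A ps.X ps.Y (catP M (nthP S i)) = true)
    (h0 : phP T ps q (patW T.A S ps.X ps.Y i M) ≠ 0) :
    (cxM T ps O F q).brd (patW T.A S ps.X ps.Y i M) =
      stB (FM T F O (phP T ps q (patW T.A S ps.X ps.Y i M))) O (nthP S i) := by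
  have d := psD h
  have hok := cxM_ok hT hF h hq
  have hq' : q = 0 ∨ q ∈ T.st := by
    rcases hq with rfl | rfl
    · exact d.q
    · exact Or.inl rfl
  rw [TS1_allb] at hM
  have hbrd := brd_patW hok (O := O) (X := ps.X) (Y := ps.Y) (cxM_at T ps O F q)
    (ME1_fits hT hF hq') d.hX d.hY hp (fun m hm => ME1_msk' m.c (hM m hm)) (ME1_noMk hL)
    (fun ρ hρ => by
      obtain ⟨r, hr, rfl⟩ := mem_raysOf.1 hρ
      have hin := (rayD (d.ray r hr)).inn
      unfold Inner at hin
      omega)
    (fun ρ hρ _ => by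
      obtain ⟨r, hr, rfl⟩ := mem_raysOf.1 hρ
      exact Or.inl (rayD (d.ray r hr)).out)
  have hpat : patW T.A S ps.X ps.Y i M = pat T.A ps.X ps.Y (catP M (nthP S i)) := rfl
  rw [← hpat] at hbrd
  rw [hbrd]
  generalize patW T.A S ps.X ps.Y i M = p at h0
  have hout : (cxM T ps O F q).out8 p = FM T F O (phP T ps q p) := by
    by_cases hq0 : q = 0
    · subst hq0
      have hph : phP T ps 0 p = (List.rec 0 (fun r L' ih => cond (Nat.beq (cell p r.ρ.e) 8)
        (cond (allb (fun r' => !Nat.beq (cell p r'.ρ.e) 8) L' && (Nat.beq r.ρ.k T.k &&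
          memb (zA ps.X ps.Y r.ρ r.n) T.st)) (zA ps.X ps.Y r.ρ r.n) 0) ih) ps.rs : Nat) := rfl
      rw [hph] at h0 ⊢
      obtain ⟨r, hr, g1, g2, g3, g4, g5⟩ := ME1_phase T ps p (fM ps O) ps.rs h0
      rw [g4] at h0 ⊢
      funext s
      have e1 : (cxM T ps O F 0).out8 p s =
          match (raysOf ps.rs).find? (fun ρ => decide (s = fM ps O ρ.e ∧ cell p ρ.e = 8)) with
          | some ρ => dec ρ.k
          | none => FM T F O 0 s := rfl
      rw [e1, g5 s, fM_eq d hr]
      have hFM0 : FM T F O 0 s = F s := by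
        unfold FM
        rw [if_neg (fun h => h.1 rfl)]
      by_cases hs : s = sqA O (zA ps.X ps.Y r.ρ r.n)
      · have hFM1 : FM T F O (zA ps.X ps.Y r.ρ r.n) s = dec T.k := by
          unfold FM
          rw [if_pos ⟨h0, hs⟩]
        rw [if_pos hs, hFM1, ← g2]
      · have hFM2 : FM T F O (zA ps.X ps.Y r.ρ r.n) s = F s := by
          unfold FM
          rw [if_neg (fun h => hs h.2)]
        rw [if_neg hs, hFM2, ← hFM0]
    · have hph : phP T ps q p =
          cond (allb (fun r' => !Nat.beq (cell p r'.ρ.e) 8) ps.rs) q 0 := by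
        unfold phP
        have hb : Nat.beq q 0 = false := by
          rw [Bool.eq_false_iff, ne_eq, TS1_beq]
          exact hq0
        rw [hb, cond_false]
      rw [hph] at h0 ⊢
      have hc : allb (fun r' => !Nat.beq (cell p r'.ρ.e) 8) ps.rs = true := by
        cases hcc : allb (fun r' => !Nat.beq (cell p r'.ρ.e) 8) ps.rs with
        | true => rfl
        | false =>
          rw [hcc, cond_false] at h0
          exact absurd rfl h0
      rw [hc, cond_true]
      funext s
      have e1 : (cxM T ps O F q).out8 p s =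
          match (raysOf ps.rs).find? (fun ρ => decide (s = fM ps O ρ.e ∧ cell p ρ.e = 8)) with
          | some ρ => dec ρ.k
          | none => FM T F O q s := rfl
      rw [e1, ME1_find0 (fM ps O) s (ME1_ne8 hc)]
  rw [hout]

/-! helpers of chunk ME2 -/

theorem ME2_membM {i φ : Nat} (L : List Mo) (h : membM i φ L = true) : (⟨i, φ⟩ : Mo) ∈ L := by
  induction L with
  | nil => cases h
  | cons m L ih =>
    have h1 : membM i φ (m :: L) = ((Nat.beq m.j i && Nat.beq m.k φ) || membM i φ L) := rfl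
    rw [h1, Bool.or_eq_true, Bool.and_eq_true, TS1_beq, TS1_beq] at h
    rcases h with ⟨h2, h3⟩ | h
    · subst h2
      subst h3
      exact List.mem_cons_self
    · exact List.mem_cons_of_mem _ (ih h)

theorem ME2_exsOk {T : MT} {S : List (List Pc)} {ps : PS} {acc : List Mo} (X : List (List Ex)) :
    ∀ {l₀ : Nat}, exsOk T S ps acc X l₀ = true → ∀ (l : Nat) (E : List Ex), X[l]? = some E →
      (l₀ + l = ps.n → exOk T S ps acc ps.q E = true) ∧
      (l₀ + l < ps.n → exOk T S ps acc 0 E = true) := by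
  induction X with
  | nil =>
    intro l₀ _ l E hE
    rw [List.getElem?_nil] at hE
    cases hE
  | cons E₀ X ih =>
    intro l₀ h l E hE
    have h1 : exsOk T S ps acc (E₀ :: X) l₀ =
      (cond (Nat.beq l₀ ps.n) (exOk T S ps acc ps.q E₀)
        (cond (Nat.blt l₀ ps.n) (exOk T S ps acc 0 E₀) true) && exsOk T S ps acc X (Nat.add l₀ 1)) := rfl
    rw [h1, Bool.and_eq_true] at h
    obtain ⟨h2, h3⟩ := h
    cases l with
    | zero =>
      have hE' : E₀ = E := by simpa using hE
      subst hE'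
      constructor
      · intro h4
        have h5 : Nat.beq l₀ ps.n = true := TS1_beq.2 (by omega)
        rw [h5] at h2
        exact h2
      · intro h4
        have h5 : Nat.beq l₀ ps.n = false := by
          rw [← Bool.not_eq_true, TS1_beq]
          omega
        have h6 : Nat.blt l₀ ps.n = true := Nat.ble_eq_true_of_le (by omega)
        rw [h5, h6] at h2
        exact h2
    | succ l =>
      have hE' : X[l]? = some E := by simpa using hE
      obtain ⟨h4, h5⟩ := ih h3 l E hE'
      have h6 : Nat.add l₀ 1 = l₀ + 1 := rfl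
      rw [h6] at h4 h5
      exact ⟨fun h7 => h4 (by omega), fun h7 => h5 (by omega)⟩

/-- a group of items, upper bound, with a family of contexts -/
theorem grpU_hasValueE {T : MT} {S : List (List Pc)} {ps : PS} {acc : List Mo} {L : List UI}
    (hT : mtOk T = true) (hps : psOkE T ps = true) (h : grpU T S ps acc L = true)
    {O : Sq} {F : Board} {R : Room} (hF : MBase T O F R)
    (hfam : Family R ps.P (raysOf ps.rs) (KM T ps O F))
    (hacc : ∀ m ∈ acc, HasValue (PM T S F O m.j m.k)) :
    ∀ m ∈ keysU L acc, HasValue (PM T S F O m.j m.k) := by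
  induction L with
  | nil => exact hacc
  | cons u L ih =>
    have h1 : grpU T S ps acc (u :: L) = (uiOk T S ps (keysU L acc) u
      (patW T.A S ps.X ps.Y u.i u.M) (kOf ps.X ps.Y (nthP S u.i)) && grpU T S ps acc L) := rfl
    have h2 : keysU (u :: L) acc = ⟨u.i, u.φ⟩ :: keysU L acc := rfl
    rw [h1, Bool.and_eq_true] at h
    obtain ⟨h3, h4⟩ := h
    have ih' := ih h4
    rw [h2]
    intro m hm
    rcases List.mem_cons.1 hm with rfl | hm
    · unfold uiOk at h3
      simp only [Bool.and_eq_true, Bool.not_eq_true', ← Bool.not_eq_true, TS1_beq] at h3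
      obtain ⟨h5, h6, h7, h8, h9, h10⟩ := h3
      have h9' := h9
      unfold swOk baseOk at h9'
      simp only [TS3_ands_cons] at h9'
      obtain ⟨⟨-, h11, -⟩, h12, -⟩ := h9'
      have hph : phP T ps ps.q (patW T.A S ps.X ps.Y u.i u.M) ≠ 0 := by rw [h7]; exact h8
      have hb := brd_phase hT hF hps (Or.inl rfl) h6 h5 h11 hph
      show HasValue ⟨stB (FM T F O u.φ) O (nthP S u.i), false⟩
      rw [h7] at hb
      rw [← hb]
      refine sw_hasValue (x := u.sw ps) (H := T.H) h9 hfam ?_ (Or.inl ⟨rfl, rfl⟩)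
        (cxM_G hT hF hps (Or.inl rfl) _)
      intro l E hE e he C hC
      rw [TS3_allb] at h12
      have hEm : E ∈ (u.sw ps).ex := List.mem_of_getElem? hE
      have hpcs := (TS3_allb _ _).1 (h12 E hEm) e he
      obtain ⟨g1, g2⟩ := ME2_exsOk u.ex h10 l E hE
      rw [Nat.zero_add] at g1 g2
      have key : ∀ q, (q = ps.q ∨ q = 0) → exOk T S ps (keysU L acc) q E = true →
          HasValue ⟨(cxM T ps O F q).brd (patW T.A S ps.X ps.Y e.i e.M), false⟩ := by
        intro q hq hex
        unfold exOk at hex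
        rw [TS3_allb] at hex
        have hex' := hex e he
        simp only [Bool.and_eq_true, Bool.not_eq_true', ← Bool.not_eq_true, TS1_beq] at hex'
        obtain ⟨⟨k1, k2⟩, k3, k4⟩ := hex'
        rw [brd_phase hT hF hps hq k2 k1 hpcs k3]
        exact ih' _ (ME2_membM _ k4)
      rcases hC with ⟨hl, rfl⟩ | ⟨hn, hl, rfl⟩
      · exact key ps.q (Or.inl rfl) (g1 hl)
      · exact key 0 (Or.inr rfl) (g2 (by omega))
    · exact ih' m hm

/-- chunk ME: **a group of items, upper bound** -/
theorem grpU_hasValue {T : MT} {S : List (List Pc)} {ps : PS} {acc : List Mo} {L : List UI}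
    (hT : mtOk T = true) (hps : psOk T ps = true) (h : grpU T S ps acc L = true)
    {O : Sq} {F : Board} {R : Room} (hF : MBase T O F R)
    (hacc : ∀ m ∈ acc, HasValue (PM T S F O m.j m.k)) :
    ∀ m ∈ keysU L acc, HasValue (PM T S F O m.j m.k) :=
  grpU_hasValueE hT (psOk_E hps) h hF (psFamily hT hF hps) hacc

/-- a group of items without events, upper bound -/
theorem grpU_hasValue0 {T : MT} {S : List (List Pc)} {ps : PS} {acc : List Mo} {L : List UI}
    (hT : mtOk T = true) (hps : psOkE T ps = true) (hn : psNo ps = true)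
    (h : grpU T S ps acc L = true)
    {O : Sq} {F : Board} {R : Room} (hF : MBase T O F R)
    (hacc : ∀ m ∈ acc, HasValue (PM T S F O m.j m.k)) :
    ∀ m ∈ keysU L acc, HasValue (PM T S F O m.j m.k) :=
  grpU_hasValueE hT hps h hF (psFamilyE hT hF hps hn) hacc

end Pool.Agent.Lib.H32C.Loc
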