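import Pool.Agent.Lib.H32C.LocN
import Pool.Agent.Lib.H32C.MemE

/-!
# Two residents: the upper bound at the special square of the choice

Two Black sliders `M`, `N` stand on stations; at the special square `W` each of them may arrive on a ray of its own.
The tile `T₁` describes `M` as the resident (`N` is static and stands at home), the tile `T₂` describes `N` as the
resident (`M` is static and stands at home).
-/

set_option autoImplicit false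

namespace Pool.Agent.Lib.H32C.Loc

/-- upper bound, with allowed marks -/
theorem sw_hasValueV {H A : Nat} {S : List (List Pc)} {i : Nat} {x : SW}
    (h : swOk H A S i x (patW A S x.X x.Y i x.M) (kOf x.X x.Y (nthP S i)) = true) {R : Room}
    {K : Nat → Ctx → Prop} {V : Ctx → Nat → Prop} (hK : FamV R x.P x.R K V)
    (hex : ∀ (l : Nat) (E : List Ex), x.ex[l]? = some E → ∀ e ∈ E, ∀ C, K l C →
      ValP x.R V C (patW A S x.X x.Y e.i e.M) →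
      HasValue ⟨C.brd (patW A S x.X x.Y e.i e.M), false⟩)
    {C : Ctx} (hC : K x.n C) (hG : R.G (C.brd (patW A S x.X x.Y i x.M)))
    (hv : ValP x.R V C (patW A S x.X x.Y i x.M)) :
    HasValue ⟨C.brd (patW A S x.X x.Y i x.M), false⟩ := by
  unfold swOk at h
  simp only [TS3_ands_cons] at h
  obtain ⟨h1, -, h3, h4, h5, -⟩ := h
  obtain ⟨hsm, hne⟩ := TS3_small h4
  refine chkA_soundV hK _ ?_ x.tr hsm hne x.n C hC _ _ (wf_base (hK.fam.ok _ _ hC) (hK.fam.rays _ _ hC) h1) hG hv h3 h5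
  intro n C' p' hC' hv' hp'
  obtain ⟨E, hE, hp2⟩ := TW2_mem_exPP x.ex hp'
  obtain ⟨e, he, rfl⟩ := TW2_mem_exP E hp2
  exact hex n E hE e he C' hC' hv'

/-- the patch setting of the second resident -/
def psB (ps : PS) (q e : Nat) : PS := ⟨ps.X, ps.Y, ps.rs, ps.P, ps.n, q, e⟩

/-- the check of the patch setting at the special square of the choice -/
def psW (T₁ T₂ : MT) (ps : PS) (q e : Nat) : Bool :=
  ands [mtOk T₁, mtOk T₂, psOkE T₁ ps, psOkE T₂ (psB ps q e), Nat.beq ps.n 1, !ps.P.fin,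
    List.rec true (fun _ _ _ => false) ps.P.dead, !Nat.beq ps.q q, !Nat.beq ps.e e,
    allb (fun r => (Nat.beq r.ρ.e ps.e && rayOk T₁ ps r) ||
      (Nat.beq r.ρ.e e && rayOk T₂ (psB ps q e) r)) ps.rs]

/-- the exits of level `0` -/
def exOkW (T₁ T₂ : MT) (S : List (List Pc)) (ps : PS) (q e : Nat) (acc₁ acc₂ : List Mo)
    (E : List Ex) : Bool :=
  allb (fun x => noMk (nthP S x.i) && (allb (fun m => msk 0x180 m.c) x.M &&
    ((Nat.beq (cell (patW T₁.A S ps.X ps.Y x.i x.M) ps.e) 8 &&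
      (!Nat.beq (phP T₁ ps 0 (patW T₁.A S ps.X ps.Y x.i x.M)) 0 &&
        membM x.i (phP T₁ ps 0 (patW T₁.A S ps.X ps.Y x.i x.M)) acc₁)) ||
    (Nat.beq (cell (patW T₁.A S ps.X ps.Y x.i x.M) e) 8 &&
      (Nat.beq (patW T₁.A S ps.X ps.Y x.i x.M) (patW T₂.A S ps.X ps.Y x.i x.M) &&
      (pcsOkW T₂.A ps.X ps.Y (catP x.M (nthP S x.i)) &&
      (!Nat.beq (phP T₂ (psB ps q e) 0 (patW T₂.A S ps.X ps.Y x.i x.M)) 0 &&
        membM x.i (phP T₂ (psB ps q e) 0 (patW T₂.A S ps.X ps.Y x.i x.M)) acc₂))))))) E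

/-- the exits of all levels from `l` on -/
def exsOkW (T₁ T₂ : MT) (S : List (List Pc)) (ps : PS) (q e : Nat) (acc₁ acc₂ : List Mo)
    (X : List (List Ex)) : Nat → Bool :=
  List.rec (fun _ => true) (fun E _ ih l =>
    cond (Nat.beq l 0) (exOkW T₁ T₂ S ps q e acc₁ acc₂ E)
      (cond (Nat.beq l 1) (exOk T₁ S ps acc₁ ps.q E) true) && ih (Nat.add l 1)) X

/-- the check of the item at the special square of the choice, with patch `p` and king on `k` -/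
noncomputable def wItem (T₁ T₂ : MT) (S : List (List Pc)) (ps : PS) (q e : Nat) (acc₁ acc₂ : List Mo)
    (u : UI) (p k : Nat) : Bool :=
  noMk (nthP S u.i) && (allb (fun m => msk 0x180 m.c) u.M && (Nat.beq (phP T₁ ps ps.q p) u.φ &&
    (!Nat.beq u.φ 0 && (swOk T₁.H T₁.A S u.i (u.sw ps) p k &&
      exsOkW T₁ T₂ S ps q e acc₁ acc₂ u.ex 0))))

/-! ### Meaning -/

/-- the family of contexts -/
def KWW (T₁ T₂ : MT) (ps : PS) (q e : Nat) (O : Sq) (F₁ F₂ : Board) (l : Nat) (C : Ctx) : Prop :=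
  (l = 1 ∧ C = cxM T₁ ps O F₁ ps.q) ∨ (l = 0 ∧ C = cxM T₁ ps O F₁ 0) ∨
    (l = 0 ∧ C = cxM T₂ (psB ps q e) O F₂ 0)

/-- the allowed marks -/
def VWW (T₁ T₂ : MT) (ps : PS) (q e : Nat) (O : Sq) (F₁ F₂ : Board) (C : Ctx) (i : Nat) : Prop :=
  (C = cxM T₁ ps O F₁ 0 ∧ i = ps.e) ∨ (C = cxM T₂ (psB ps q e) O F₂ 0 ∧ i = e)

/-- the boards of the two residents -/
structure WBase (T₁ T₂ : MT) (q₁ q₂ : Nat) (O : Sq) (F₁ F₂ : Board) (R : Room) : Prop where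
  b₁ : MBase T₁ O F₁ R
  b₂ : MBase T₂ O F₂ R
  fm : FM T₁ F₁ O q₁ = FM T₂ F₂ O q₂

/-- the conditions of `psW`, unfolded -/
structure PsW (T₁ T₂ : MT) (ps : PS) (q e : Nat) : Prop where
  t₁ : mtOk T₁ = true
  t₂ : mtOk T₂ = true
  p₁ : psOkE T₁ ps = true
  p₂ : psOkE T₂ (psB ps q e) = true
  n : ps.n = 1
  fin : ps.P.fin = false
  dead : ps.P.dead = []
  qne : ps.q ≠ q
  ene : ps.e ≠ e
  ray : ∀ r ∈ ps.rs, (r.ρ.e = ps.e ∧ rayOk T₁ ps r = true) ∨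
    (r.ρ.e = e ∧ rayOk T₂ (psB ps q e) r = true)

theorem mw_psW {T₁ T₂ : MT} {ps : PS} {q e : Nat} (h : psW T₁ T₂ ps q e = true) :
    PsW T₁ T₂ ps q e := by
  unfold psW at h
  simp only [TS3_ands_cons] at h
  obtain ⟨h1, h2, h3, h4, h5, h6, h7, h8, he, h9, -⟩ := h
  rw [Bool.not_eq_true'] at h6
  rw [mc_notbeq] at h8 he
  rw [TS1_allb] at h9
  refine ⟨h1, h2, h3, h4, TS1_beq.1 h5, h6, ?_, h8, he, ?_⟩
  · cases hd : ps.P.dead with
    | nil => rfl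
    | cons x L =>
      rw [hd] at h7
      exact absurd h7 Bool.false_ne_true
  · intro r hr
    have h10 := h9 r hr
    rw [Bool.or_eq_true, Bool.and_eq_true, Bool.and_eq_true, TS1_beq, TS1_beq] at h10
    exact h10

variable {T₁ T₂ : MT} {ps : PS} {q e : Nat} {O : Sq} {F₁ F₂ : Board} {R : Room}

theorem mw_cx (hF : WBase T₁ T₂ ps.q q O F₁ F₂ R) :
    cxM T₁ ps O F₁ ps.q = cxM T₂ (psB ps q e) O F₂ q := by
  unfold cxM
  rw [hF.fm]
  rfl

theorem mw_arr₁ (h : PsW T₁ T₂ ps q e) : arrOk T₁ ps = true := by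
  have h1 := (psD h.p₁).n
  have h2 := h.n
  rcases h1 with h1 | h1
  · omega
  · exact h1.2

theorem mw_arr₂ (h : PsW T₁ T₂ ps q e) : arrOk T₂ (psB ps q e) = true := by
  have h1 := (psD h.p₂).n
  have h2 : (psB ps q e).n = 1 := h.n
  rcases h1 with h1 | h1
  · omega
  · exact h1.2

/-- the board with the resident on its home is not empty there; without it, it is -/
theorem mw_home {T : MT} {ps : PS} {O : Sq} {F : Board} {R : Room} (hT : mtOk T = true)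
    (hF : MBase T O F R) (h : psOkE T ps = true) (hq : ps.q ≠ 0) :
    (cxM T ps O F ps.q).F (sqA O ps.q) ≠ none ∧ (cxM T ps O F 0).F (sqA O ps.q) = none := by
  obtain ⟨h1, h2, h3⟩ := MD_q hT hF h hq
  constructor
  · show FM T F O ps.q (sqA O ps.q) ≠ none
    rw [h2]
    exact h3
  · show FM T F O 0 (sqA O ps.q) = none
    unfold FM
    rw [if_neg (fun h => h.1 rfl)]
    exact h1

theorem mw_ne₁ (h : PsW T₁ T₂ ps q e) (hF : WBase T₁ T₂ ps.q q O F₁ F₂ R) :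
    cxM T₁ ps O F₁ ps.q ≠ cxM T₁ ps O F₁ 0 := by
  obtain ⟨h1, h2⟩ := mw_home h.t₁ hF.b₁ h.p₁ (MD_arrOk (mw_arr₁ h)).1
  intro he
  rw [he] at h1
  exact h1 h2

theorem mw_ne₂ (h : PsW T₁ T₂ ps q e) (hF : WBase T₁ T₂ ps.q q O F₁ F₂ R) :
    cxM T₁ ps O F₁ ps.q ≠ cxM T₂ (psB ps q e) O F₂ 0 := by
  obtain ⟨h1, h2⟩ := mw_home h.t₂ hF.b₂ h.p₂ (MD_arrOk (mw_arr₂ h)).1
  rw [mw_cx (e := e) hF]
  intro he
  have h3 : (cxM T₂ (psB ps q e) O F₂ q).F (sqA O q) ≠ none := h1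
  rw [he] at h3
  exact h3 h2

theorem mw_ne (h : PsW T₁ T₂ ps q e) (hF : WBase T₁ T₂ ps.q q O F₁ F₂ R) :
    cxM T₁ ps O F₁ 0 ≠ cxM T₂ (psB ps q e) O F₂ 0 := by
  obtain ⟨h1, h2⟩ := mw_home h.t₁ hF.b₁ h.p₁ (MD_arrOk (mw_arr₁ h)).1
  intro he
  rw [he] at h2
  apply h1
  have h3 : (cxM T₁ ps O F₁ ps.q).F (sqA O ps.q) = FM T₂ F₂ O q (sqA O ps.q) := by
    show FM T₁ F₁ O ps.q (sqA O ps.q) = _
    rw [hF.fm]
  have h4 : (cxM T₂ (psB ps q e) O F₂ 0).F (sqA O ps.q) = F₂ (sqA O ps.q) := by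
    show FM T₂ F₂ O 0 (sqA O ps.q) = _
    unfold FM
    rw [if_neg (fun h => h.1 rfl)]
  rw [h3]
  unfold FM
  rw [if_neg (fun h5 => h.qne (sqA_inj h5.2)), ← h4]
  exact h2

/-- the events at level `1` -/
theorem mw_event (h : PsW T₁ T₂ ps q e) (hF : WBase T₁ T₂ ps.q q O F₁ F₂ R) {p k : Nat}
    (hp : WF (cxM T₁ ps O F₁ ps.q) p k) {r : RI} (hr : r ∈ ps.rs) (hs : see7 p k r.ρ = true)
    {a b : Sq} (hl : Legal ((cxM T₁ ps O F₁ ps.q).brd p) false a b)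
    (hout : ¬ (InB (cxM T₁ ps O F₁ ps.q).o a ∧ cell p (idx (cxM T₁ ps O F₁ ps.q).o a) ≠ 15))
    (hh : Hit (cxM T₁ ps O F₁ ps.q) (((cxM T₁ ps O F₁ ps.q).brd p).move a b) r.ρ) :
    ∃ C', KWW T₁ T₂ ps q e O F₁ F₂ 0 C' ∧
      C'.brd (arr' p r.ρ.e) = ((cxM T₁ ps O F₁ ps.q).brd p).move a b ∧
      R.G (((cxM T₁ ps O F₁ ps.q).brd p).move a b) ∧ VWW T₁ T₂ ps q e O F₁ F₂ C' r.ρ.e := by
  have h7 : cell p r.ρ.e = 7 := by
    unfold see7 at hs
    exact Nat.eq_of_beq_eq_true (Bool.and_eq_true_iff.1 hs).1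
  rcases h.ray r hr with ⟨he, hfull⟩ | ⟨he, hfull⟩
  · obtain ⟨e1, -, -, e4, e5⟩ := event_only h.t₁ hF.b₁ h.p₁ (Or.inl rfl) hp hr hfull hs hl hout hh
    obtain ⟨-, -, r', hr', a3, a4, -⟩ := MD_arrOk (mw_arr₁ h)
    have hrr : r' = r := by
      by_contra hne
      exact ((psD h.p₁).pair r' hr' r hr hne).1 (a3.trans he.symm)
    subst hrr
    subst e4
    subst e5
    have hb := brd_arrM h.t₁ hF.b₁ h.p₁ e1 hp hr h7 a4 hout
    refine ⟨cxM T₁ ps O F₁ 0, Or.inr (Or.inl ⟨rfl, rfl⟩), hb, ?_, Or.inl ⟨rfl, he⟩⟩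
    rw [← hb]
    exact cxM_G h.t₁ hF.b₁ h.p₁ (Or.inr rfl) _
  · rw [mw_cx (e := e) hF] at hp hl hout hh ⊢
    have hr2 : r ∈ (psB ps q e).rs := hr
    obtain ⟨e1, -, -, e4, e5⟩ := event_only h.t₂ hF.b₂ h.p₂ (q := q) (Or.inl rfl) hp hr2 hfull hs hl
      hout hh
    obtain ⟨-, -, r', hr', a3, a4, -⟩ := MD_arrOk (mw_arr₂ h)
    have hrr : r' = r := by
      by_contra hne
      exact ((psD h.p₂).pair r' hr' r hr2 hne).1 (a3.trans he.symm)
    subst hrr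
    subst e4
    subst e5
    have hb := brd_arrM h.t₂ hF.b₂ h.p₂ (p := p) (k := k) e1 hp hr2 h7 a4 hout
    refine ⟨cxM T₂ (psB ps q e) O F₂ 0, Or.inr (Or.inr ⟨rfl, rfl⟩), hb, ?_, Or.inr ⟨rfl, he⟩⟩
    have hb' : (cxM T₂ (psB ps q e) O F₂ 0).brd (arr' p r'.ρ.e) =
      ((cxM T₂ (psB ps q e) O F₂ q).brd p).move (sqA O q)
        (sqA O (zA (psB ps q e).X (psB ps q e).Y r'.ρ r'.n)) := hb
    rw [← hb']
    exact cxM_G h.t₂ hF.b₂ h.p₂ (Or.inr rfl) _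

/-- **the family of contexts at the special square of the choice** -/
theorem mw_fam (h : PsW T₁ T₂ ps q e) (hF : WBase T₁ T₂ ps.q q O F₁ F₂ R) :
    FamV R ps.P (raysOf ps.rs) (KWW T₁ T₂ ps q e O F₁ F₂) (VWW T₁ T₂ ps q e O F₁ F₂) := by
  have hlv := (psD h.p₁).lv
  refine ⟨⟨?_, ?_, ?_, ?_, ?_, ?_⟩, hlv, ?_⟩
  · rintro n C (⟨-, rfl⟩ | ⟨-, rfl⟩ | ⟨-, rfl⟩)
    · exact cxM_ok h.t₁ hF.b₁ h.p₁ (Or.inl rfl)
    · exact cxM_ok h.t₁ hF.b₁ h.p₁ (Or.inr rfl)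
    · exact cxM_ok h.t₂ hF.b₂ h.p₂ (Or.inr rfl)
  · rintro n C (⟨-, rfl⟩ | ⟨-, rfl⟩ | ⟨-, rfl⟩) <;> rfl
  · rintro n C (⟨-, rfl⟩ | ⟨-, rfl⟩ | ⟨-, rfl⟩)
    · exact cxM_sep h.t₁ hF.b₁ h.p₁ (Or.inl rfl)
    · exact cxM_sep h.t₁ hF.b₁ h.p₁ (Or.inr rfl)
    · exact cxM_sep h.t₂ hF.b₂ h.p₂ (Or.inr rfl)
  · intro n C p k a b ρ hρ hK hp hG hs hl hout hh
    obtain ⟨r, hr, rfl⟩ := mem_raysOf.1 hρ
    refine ⟨by rw [h.dead]; rfl, fun h1 => absurd (h.fin.symm.trans h1) Bool.false_ne_true, ?_⟩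
    intro n' hn'
    rcases hK with ⟨h1, rfl⟩ | ⟨h1, -⟩ | ⟨h1, -⟩
    · obtain ⟨C', g1, g2, g3, -⟩ := mw_event h hF hp hr hs hl hout hh
      have h2 : n' = 0 := by omega
      rw [h2]
      exact ⟨C', g1, g2, g3⟩
    · omega
    · omega
  · intro n C p k ρ hρ hK hp hG hs a hl
    obtain ⟨r, hr, rfl⟩ := mem_raysOf.1 hρ
    have h7 : cell p r.ρ.e = 7 := by
      unfold see7 at hs
      exact Nat.eq_of_beq_eq_true (Bool.and_eq_true_iff.1 hs).1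
    rcases hK with ⟨-, rfl⟩ | ⟨-, rfl⟩ | ⟨-, rfl⟩
    · exact edge_not h.t₁ hF.b₁ h.p₁ (Or.inl rfl) hp hr h7 a
    · exact edge_not h.t₁ hF.b₁ h.p₁ (Or.inr rfl) hp hr h7 a
    · exact edge_not h.t₂ hF.b₂ h.p₂ (Or.inr rfl) hp (show r ∈ (psB ps q e).rs from hr) h7 a
  · intro hlv'
    rw [hlv] at hlv'
    exact absurd hlv' (by decide)
  · intro n C p k a b ρ hρ hK hp hG hs hl hout hh hv
    obtain ⟨r, hr, rfl⟩ := mem_raysOf.1 hρ
    rcases hK with ⟨h1, rfl⟩ | ⟨h1, -⟩ | ⟨h1, -⟩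
    · obtain ⟨C', g1, g2, g3, g4⟩ := mw_event h hF hp hr hs hl hout hh
      have h2 : n = 0 := by omega
      rw [h2]
      refine ⟨C', g1, g2, g3, g4, ?_⟩
      intro ρ' hρ' h8
      rcases hv ρ' hρ' h8 with ⟨h3, -⟩ | ⟨h3, -⟩
      · exact absurd h3 (mw_ne₁ h hF)
      · exact absurd h3 (mw_ne₂ h hF)
    · omega
    · omega

theorem mw_exs {T₁ T₂ : MT} {S : List (List Pc)} {ps : PS} {q e : Nat} {acc₁ acc₂ : List Mo}
    (X : List (List Ex)) :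
    ∀ {l₀ : Nat}, exsOkW T₁ T₂ S ps q e acc₁ acc₂ X l₀ = true → ∀ (l : Nat) (E : List Ex),
      X[l]? = some E →
      (l₀ + l = 0 → exOkW T₁ T₂ S ps q e acc₁ acc₂ E = true) ∧
      (l₀ + l = 1 → exOk T₁ S ps acc₁ ps.q E = true) := by
  induction X with
  | nil =>
    intro l₀ _ l E hE
    rw [List.getElem?_nil] at hE
    cases hE
  | cons E₀ X ih =>
    intro l₀ h l E hE
    have h1 : exsOkW T₁ T₂ S ps q e acc₁ acc₂ (E₀ :: X) l₀ =
      (cond (Nat.beq l₀ 0) (exOkW T₁ T₂ S ps q e acc₁ acc₂ E₀)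
        (cond (Nat.beq l₀ 1) (exOk T₁ S ps acc₁ ps.q E₀) true) &&
          exsOkW T₁ T₂ S ps q e acc₁ acc₂ X (Nat.add l₀ 1)) := rfl
    rw [h1, Bool.and_eq_true] at h
    obtain ⟨h2, h3⟩ := h
    cases l with
    | zero =>
      have hE' : E₀ = E := by simpa using hE
      subst hE'
      constructor
      · intro h4
        have h5 : Nat.beq l₀ 0 = true := TS1_beq.2 (by omega)
        rw [h5] at h2
        exact h2
      · intro h4
        have h5 : Nat.beq l₀ 0 = false := by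
          rw [← Bool.not_eq_true, TS1_beq]
          omega
        have h6 : Nat.beq l₀ 1 = true := TS1_beq.2 (by omega)
        rw [h5, h6] at h2
        exact h2
    | succ l =>
      have hE' : X[l]? = some E := by simpa using hE
      obtain ⟨h4, h5⟩ := ih h3 l E hE'
      have h6 : Nat.add l₀ 1 = l₀ + 1 := rfl
      rw [h6] at h4 h5
      exact ⟨fun h7 => h4 (by omega), fun h7 => h5 (by omega)⟩

/-- **the upper bound at the special square of the choice** -/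
theorem wItem_hasValue {S : List (List Pc)} {acc₁ acc₂ : List Mo} {u : UI}
    (hps : psW T₁ T₂ ps q e = true)
    (hu : wItem T₁ T₂ S ps q e acc₁ acc₂ u (patW T₁.A S ps.X ps.Y u.i u.M)
      (kOf ps.X ps.Y (nthP S u.i)) = true)
    (hF : WBase T₁ T₂ ps.q q O F₁ F₂ R)
    (h₁ : ∀ m ∈ acc₁, HasValue (PM T₁ S F₁ O m.j m.k))
    (h₂ : ∀ m ∈ acc₂, HasValue (PM T₂ S F₂ O m.j m.k)) :
    HasValue (PM T₁ S F₁ O u.i u.φ) := by
  have h := mw_psW hps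
  have d := psD h.p₁
  unfold wItem at hu
  simp only [Bool.and_eq_true, Bool.not_eq_true', ← Bool.not_eq_true, TS1_beq] at hu
  obtain ⟨h5, h6, h7, h8, h9, h10⟩ := hu
  have h9' := h9
  unfold swOk baseOk at h9'
  simp only [TS3_ands_cons] at h9'
  obtain ⟨⟨-, h11, -⟩, h12, -⟩ := h9'
  have hph : phP T₁ ps ps.q (patW T₁.A S ps.X ps.Y u.i u.M) ≠ 0 := by rw [h7]; exact h8
  have hb := brd_phase h.t₁ hF.b₁ h.p₁ (Or.inl rfl) h6 h5 h11 hph
  show HasValue ⟨stB (FM T₁ F₁ O u.φ) O (nthP S u.i), false⟩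
  rw [h7] at hb
  rw [← hb]
  refine sw_hasValueV (x := u.sw ps) (H := T₁.H) h9 (mw_fam h hF) ?_ (Or.inl ⟨h.n, rfl⟩)
    (cxM_G h.t₁ hF.b₁ h.p₁ (Or.inl rfl) _) ?_
  · intro l E hE x hx C hC hv
    rw [TS3_allb] at h12
    have hEm : E ∈ (u.sw ps).ex := List.mem_of_getElem? hE
    have hpcs := (TS3_allb _ _).1 (h12 E hEm) x hx
    obtain ⟨g1, g2⟩ := mw_exs u.ex h10 l E hE
    rw [Nat.zero_add] at g1 g2
    have hv' : ∀ i, cell (patW T₁.A S ps.X ps.Y x.i x.M) i = 8 → (∃ r ∈ ps.rs, r.ρ.e = i) →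
        VWW T₁ T₂ ps q e O F₁ F₂ C i := by
      rintro i h13 ⟨r, hr, rfl⟩
      exact hv r.ρ (mem_raysOf.2 ⟨r, hr, rfl⟩) h13
    rcases hC with ⟨hl, rfl⟩ | ⟨hl, rfl⟩ | ⟨hl, rfl⟩
    · have hex := g2 hl
      unfold exOk at hex
      rw [TS3_allb] at hex
      have hex' := hex x hx
      simp only [Bool.and_eq_true, Bool.not_eq_true', ← Bool.not_eq_true, TS1_beq] at hex'
      obtain ⟨⟨k1, k2⟩, k3, k4⟩ := hex'
      have key := h₁ _ (ME2_membM _ k4)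
      have hb2 := brd_phase h.t₁ hF.b₁ h.p₁ (Or.inl rfl) k2 k1 hpcs k3
      show HasValue ⟨(cxM T₁ ps O F₁ ps.q).brd (patW T₁.A S ps.X ps.Y x.i x.M), false⟩
      rw [hb2]
      exact key
    · have hex := g1 hl
      unfold exOkW at hex
      rw [TS3_allb] at hex
      have hex' := hex x hx
      simp only [Bool.and_eq_true, Bool.or_eq_true, Bool.not_eq_true', ← Bool.not_eq_true,
        TS1_beq] at hex'
      obtain ⟨k1, k2, ⟨-, k3, k4⟩ | ⟨k5, -⟩⟩ := hex'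
      · have key := h₁ _ (ME2_membM _ k4)
        have hb2 := brd_phase h.t₁ hF.b₁ h.p₁ (Or.inr rfl) k2 k1 hpcs k3
        show HasValue ⟨(cxM T₁ ps O F₁ 0).brd (patW T₁.A S ps.X ps.Y x.i x.M), false⟩
        rw [hb2]
        exact key
      · exfalso
        obtain ⟨-, -, r', hr', a3, -⟩ := MD_arrOk (mw_arr₂ h)
        have a3' : r'.ρ.e = e := a3
        rcases hv' e k5 ⟨r', hr', a3'⟩ with ⟨-, k6⟩ | ⟨k6, -⟩
        · exact h.ene k6.symm
        · exact mw_ne h hF k6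
    · have hex := g1 hl
      unfold exOkW at hex
      rw [TS3_allb] at hex
      have hex' := hex x hx
      simp only [Bool.and_eq_true, Bool.or_eq_true, Bool.not_eq_true', ← Bool.not_eq_true,
        TS1_beq] at hex'
      obtain ⟨k1, k2, ⟨k5, -⟩ | ⟨-, k3, k4, k6, k7⟩⟩ := hex'
      · exfalso
        obtain ⟨-, -, r', hr', a3, -⟩ := MD_arrOk (mw_arr₁ h)
        rcases hv' ps.e k5 ⟨r', hr', a3⟩ with ⟨k6, -⟩ | ⟨-, k6⟩
        · exact mw_ne h hF k6.symm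
        · exact h.ene k6
      · have key := h₂ _ (ME2_membM _ k7)
        have hb2 := brd_phase h.t₂ hF.b₂ h.p₂ (Or.inr rfl) k2 k1 k4 k6
        show HasValue ⟨(cxM T₂ (psB ps q e) O F₂ 0).brd (patW T₁.A S ps.X ps.Y x.i x.M), false⟩
        rw [k3]
        have hb3 : (cxM T₂ (psB ps q e) O F₂ 0).brd (patW T₂.A S ps.X ps.Y x.i x.M) =
          stB (FM T₂ F₂ O (phP T₂ (psB ps q e) 0 (patW T₂.A S ps.X ps.Y x.i x.M))) O
            (nthP S x.i) := hb2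
        rw [hb3]
        exact key
  · intro ρ hρ h8
    exfalso
    obtain ⟨r, hr, rfl⟩ := mem_raysOf.1 hρ
    have h13 : phP T₁ ps ps.q (patW T₁.A S ps.X ps.Y u.i u.M) =
        cond (allb (fun r' => !Nat.beq (cell (patW T₁.A S ps.X ps.Y u.i u.M) r'.ρ.e) 8) ps.rs)
          ps.q 0 := by
      unfold phP
      have hbq : Nat.beq ps.q 0 = false := by
        rw [Bool.eq_false_iff, ne_eq, TS1_beq]
        exact (MD_arrOk (mw_arr₁ h)).1
      rw [hbq, cond_false]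
    cases hcc : allb (fun r' => !Nat.beq (cell (patW T₁.A S ps.X ps.Y u.i u.M) r'.ρ.e) 8) ps.rs with
    | true => exact ME1_ne8 hcc r hr h8
    | false =>
      rw [h13, hcc, cond_false] at hph
      exact hph rfl

end Pool.Agent.Lib.H32C.Loc
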