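import Pool.Agent.Lib.H32C.ChM
import Pool.Agent.Lib.H32C.MemW

/-!
# The certificate of the choice
-/

set_option autoImplicit false

namespace Pool.Agent.Lib.H32C.Loc

/-! ### From the first to the second description of the board -/

/-- the cell `i` of the second array, compared with the first array -/
def swC (T₁ T₂ : MT) (q₁ i : Nat) : Bool :=
  Nat.beq (cell T₂.A i) 15 || ((Nat.beq (cell T₂.A i) (cell T₁.A i) && !Nat.beq (cell T₁.A i) 15) ||
    ((Nat.beq i q₁ && Nat.beq (cell T₂.A i) T₁.k) ||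
      (memb i T₁.st && (!Nat.beq i q₁ && Nat.beq (cell T₂.A i) 0))))

/-- all cells below `n` -/
def swCs (T₁ T₂ : MT) (q₁ n : Nat) : Bool :=
  Nat.rec true (fun i ih => ih && swC T₁ T₂ q₁ i) n

/-- The tile `T₂` describes the same board as `T₁`: in `T₁` the second slider stands on `q₂` and its other
stations are empty; in `T₂` the first slider stands on `q₁`. -/
def swapOk (T₁ T₂ : MT) (q₁ q₂ : Nat) : Bool :=
  ands [mtOk T₁, mtOk T₂, Nat.beq T₂.H T₁.H, memb q₁ T₁.st, memb q₂ T₂.st, !Nat.beq q₁ 0,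
    !Nat.beq q₂ 0, Nat.beq (cell T₁.A q₂) T₂.k,
    allb (fun j => Nat.beq j q₂ || Nat.beq (cell T₁.A j) 0) T₂.st,
    swCs T₁ T₂ q₁ (Nat.mul 80 T₁.H)]

/-- the board without the second slider -/
def swB (T₁ : MT) (F₁ : Board) (O : Sq) (q₁ q₂ : Nat) : Board := fun s =>
  if s = sqA O q₂ then none else FM T₁ F₁ O q₁ s

theorem chc_swCs {T₁ T₂ : MT} {q₁ : Nat} (n : ℕ) (h : swCs T₁ T₂ q₁ n = true) :
    ∀ i < n, swC T₁ T₂ q₁ i = true := by
  induction n with
  | zero => intro i hi; omega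
  | succ n ih =>
    have h1 : swCs T₁ T₂ q₁ (n + 1) = (swCs T₁ T₂ q₁ n && swC T₁ T₂ q₁ n) := rfl
    rw [h1, Bool.and_eq_true] at h
    intro i hi
    rcases Nat.lt_succ_iff_lt_or_eq.1 hi with h2 | h2
    · exact ih h.1 i h2
    · rw [h2]
      exact h.2

theorem chc_base {T₁ T₂ : MT} {q₁ q₂ : Nat} (h : swapOk T₁ T₂ q₁ q₂ = true) {O : Sq} {F₁ : Board}
    {R : Room} (hF : MBase T₁ O F₁ R) :
    WBase T₁ T₂ q₁ q₂ O F₁ (swB T₁ F₁ O q₁ q₂) R := by
  unfold swapOk at h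
  simp only [TS3_ands_cons] at h
  obtain ⟨h1, h2, h3, h4, h5, h6, h7, h8, h9, h10, -⟩ := h
  have h3 := TS1_beq.1 h3
  have h4 := mc_memb.1 h4
  have h5 := mc_memb.1 h5
  have h6 := mc_notbeq.1 h6
  have h7 := mc_notbeq.1 h7
  have h8 := TS1_beq.1 h8
  rw [TS1_allb] at h9
  have hk1 := mc_k h1
  have hk2 := mc_k h2
  obtain ⟨s1, s2⟩ := mc_st h1 h4
  obtain ⟨s3, s4⟩ := mc_st h2 h5
  rw [h3] at s3
  have hq : q₂ ≠ q₁ := by
    rintro rfl
    omega
  have hin1 := (inA_lt s1).1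
  have hin2 := (inA_lt s3).1
  have hF12 : F₁ (sqA O q₂) = dec T₂.k := by
    rw [cell_sqA hF.fits hin2 (by omega), h8]
  have hst : ∀ j ∈ T₂.st, j ≠ q₂ → cell T₁.A j = 0 := by
    intro j hj hne
    have h11 := h9 j hj
    rw [Bool.or_eq_true, TS1_beq, TS1_beq] at h11
    rcases h11 with h11 | h11
    · exact absurd h11 hne
    · exact h11
  have hdiv : ∀ X Y : Nat, X < 80 → Y < T₁.H → X + 80 * Y < 80 * T₁.H := by
    intro X Y hX hY
    have : 80 * Y + 80 ≤ 80 * T₁.H := by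
      have h11 : Y + 1 ≤ T₁.H := hY
      calc 80 * Y + 80 = 80 * (Y + 1) := by ring
        _ ≤ 80 * T₁.H := Nat.mul_le_mul_left 80 h11
    omega
  have hsq : ∀ X Y : Nat, X < 80 → Y < T₁.H → tsq O X Y = sqA O (X + 80 * Y) := by
    intro X Y hX hY
    unfold sqA
    congr 1 <;> omega
  refine ⟨hF, ?_, ?_⟩
  · refine ⟨⟨?_, ?_⟩, ?_, ?_, ?_⟩
    · intro X Y hX hY hc
      rw [h3] at hY
      have hcell : codeA T₂.A X Y = cell T₂.A (X + 80 * Y) := TS1_codeA T₂.A X Y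
      rw [hcell] at hc ⊢
      rw [hsq X Y hX hY]
      have hjl := hdiv X Y hX hY
      have h11 := chc_swCs _ h10 (X + 80 * Y) hjl
      generalize X + 80 * Y = j at hc h11 hjl
      unfold swC at h11
      simp only [Bool.or_eq_true, Bool.and_eq_true, TS1_beq, mc_notbeq, mc_memb] at h11
      have hj2 : j ≠ q₂ := by
        rintro rfl
        exact hc s4
      unfold swB
      rw [if_neg (fun h => hj2 (sqA_inj h))]
      rcases h11 with h11 | ⟨h11, h12⟩ | ⟨h11, h12⟩ | ⟨h11, h12, h13⟩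
      · exact absurd h11 hc
      · have hj1 : j ≠ q₁ := by
          rintro rfl
          exact h12 s2
        unfold FM
        rw [if_neg (fun h => hj1 (sqA_inj h.2))]
        rw [cell_sqA hF.fits hjl h12, h11]
      · unfold FM
        rw [h11, if_pos ⟨h6, rfl⟩, ← h11, h12]
      · unfold FM
        rw [if_neg (fun h => h12 (sqA_inj h.2)), hF.st j h11, h13]
        rfl
    · intro s
      unfold swB
      split_ifs with h11
      · exact nk_none s
      · exact mc_noK h1 hF q₁ s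
    · intro j hj
      unfold swB
      split_ifs with h11
      · rfl
      · have hj2 : j ≠ q₂ := by
          rintro rfl
          exact h11 rfl
        have h12 := hst j hj hj2
        have hj1 : j ≠ q₁ := by
          rintro rfl
          omega
        have hjl : j < 80 * T₁.H := by
          have h13 := (mc_st h2 hj).1
          rw [h3] at h13
          exact (inA_lt h13).1
        unfold FM
        rw [if_neg (fun h => hj1 (sqA_inj h.2)), cell_sqA hF.fits hjl (by omega), h12]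
        rfl
    · rw [h3]
      exact hF.reg
    · refine R.dep F₁ _ ?_ hF.G
      intro s hs
      unfold swB FM
      rw [if_neg, if_neg]
      · rintro ⟨-, h11⟩
        exact hF.reg s (by rw [h11]; exact inA_reg s1) hs
      · intro h11
        exact hF.reg s (by rw [h11]; exact inA_reg s3) hs
  · funext s
    have e2 : FM T₂ (swB T₁ F₁ O q₁ q₂) O q₂ s =
      if q₂ ≠ 0 ∧ s = sqA O q₂ then dec T₂.k else swB T₁ F₁ O q₁ q₂ s := rfl
    rw [e2]
    unfold swB
    by_cases h11 : s = sqA O q₂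
    · rw [if_pos ⟨h7, h11⟩]
      unfold FM
      rw [if_neg (fun h => hq (sqA_inj (h11.symm.trans h.2))), h11]
      exact hF12
    · rw [if_neg (fun h => h11 h.2), if_neg h11]

/-! ### Chains of groups for two residents -/

/-- A chain of groups of items for upper bounds with two residents: `a` are pairs of the tile `T₁`, `b` are pairs
of the tile `T₂`. -/
inductive DU (T₁ T₂ : MT) (q₁ q₂ : Nat) (S : List (List Pc)) (a b : List Mo) : List Mo → List Mo → Prop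
  | nil : DU T₁ T₂ q₁ q₂ S a b a b
  | A {acc bcc acc' : List Mo} (h : DU T₁ T₂ q₁ q₂ S a b acc bcc) (g : MU T₁ S acc acc') :
      DU T₁ T₂ q₁ q₂ S a b acc' bcc
  | B {acc bcc bcc' : List Mo} (h : DU T₁ T₂ q₁ q₂ S a b acc bcc) (g : MU T₂ S bcc bcc') :
      DU T₁ T₂ q₁ q₂ S a b acc bcc'
  | S {acc bcc : List Mo} (h : DU T₁ T₂ q₁ q₂ S a b acc bcc) (i : Nat) (g : membM i q₁ acc = true) :
      DU T₁ T₂ q₁ q₂ S a b acc (⟨i, q₂⟩ :: bcc)
  | T {acc bcc : List Mo} (h : DU T₁ T₂ q₁ q₂ S a b acc bcc) (i : Nat) (g : membM i q₂ bcc = true) :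
      DU T₁ T₂ q₁ q₂ S a b (⟨i, q₁⟩ :: acc) bcc
  | W {acc bcc : List Mo} (h : DU T₁ T₂ q₁ q₂ S a b acc bcc) (ps : PS) (e : Nat) (u : UI)
      (hq : Nat.beq ps.q q₁ = true) (hp : psW T₁ T₂ ps q₂ e = true)
      (hg : wItem T₁ T₂ S ps q₂ e acc bcc u (patW T₁.A S ps.X ps.Y u.i u.M)
        (kOf ps.X ps.Y (nthP S u.i)) = true) :
      DU T₁ T₂ q₁ q₂ S a b (⟨u.i, u.φ⟩ :: acc) bcc

/-- A chain of groups of items for lower bounds with two residents. -/
inductive DL (T₁ T₂ : MT) (q₁ q₂ : Nat) (S : List (List Pc)) (a b : List Mo) : List Mo → List Mo → Prop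
  | nil : DL T₁ T₂ q₁ q₂ S a b a b
  | A {acc bcc acc' : List Mo} (h : DL T₁ T₂ q₁ q₂ S a b acc bcc) (g : ML T₁ S acc acc') :
      DL T₁ T₂ q₁ q₂ S a b acc' bcc
  | B {acc bcc bcc' : List Mo} (h : DL T₁ T₂ q₁ q₂ S a b acc bcc) (g : ML T₂ S bcc bcc') :
      DL T₁ T₂ q₁ q₂ S a b acc bcc'
  | S {acc bcc : List Mo} (h : DL T₁ T₂ q₁ q₂ S a b acc bcc) (i : Nat) (g : membM i q₁ acc = true) :
      DL T₁ T₂ q₁ q₂ S a b acc (⟨i, q₂⟩ :: bcc)
  | T {acc bcc : List Mo} (h : DL T₁ T₂ q₁ q₂ S a b acc bcc) (i : Nat) (g : membM i q₂ bcc = true) :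
      DL T₁ T₂ q₁ q₂ S a b (⟨i, q₁⟩ :: acc) bcc

section chain

variable {T₁ T₂ : MT} {q₁ q₂ : Nat} {S : List (List Pc)} {O : Sq} {F₁ F₂ : Board} {R : Room}

theorem chc_pm (hF : WBase T₁ T₂ q₁ q₂ O F₁ F₂ R) (i : Nat) :
    PM T₁ S F₁ O i q₁ = PM T₂ S F₂ O i q₂ := by
  unfold PM
  rw [hF.fm]

theorem DU.hv {a b acc bcc : List Mo} (h : DU T₁ T₂ q₁ q₂ S a b acc bcc)
    (h₁ : mtOk T₁ = true) (h₂ : mtOk T₂ = true) (hF : WBase T₁ T₂ q₁ q₂ O F₁ F₂ R)
    (ha : HVs T₁ S F₁ O a) (hb : HVs T₂ S F₂ O b) : HVs T₁ S F₁ O acc ∧ HVs T₂ S F₂ O bcc := by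
  induction h with
  | nil => exact ⟨ha, hb⟩
  | A _ g ih => exact ⟨g.hv h₁ hF.b₁ ih.1, ih.2⟩
  | B _ g ih => exact ⟨ih.1, g.hv h₂ hF.b₂ ih.2⟩
  | S _ i g ih =>
    refine ⟨ih.1, fun m hm => ?_⟩
    rcases List.mem_cons.1 hm with rfl | hm
    · have h3 := ih.1 _ (mem_acc g)
      rw [chc_pm hF] at h3
      exact h3
    · exact ih.2 m hm
  | T _ i g ih =>
    refine ⟨fun m hm => ?_, ih.2⟩
    rcases List.mem_cons.1 hm with rfl | hm
    · have h3 := ih.2 _ (mem_acc g)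
      rw [← chc_pm hF] at h3
      exact h3
    · exact ih.1 m hm
  | W _ ps e u hq hp hg ih =>
    refine ⟨fun m hm => ?_, ih.2⟩
    rcases List.mem_cons.1 hm with rfl | hm
    · have hq := TS1_beq.1 hq
      subst hq
      exact wItem_hasValue hp hg hF ih.1 ih.2
    · exact ih.1 m hm

theorem DL.ge {a b acc bcc : List Mo} (h : DL T₁ T₂ q₁ q₂ S a b acc bcc)
    (h₁ : mtOk T₁ = true) (h₂ : mtOk T₂ = true) (hF : WBase T₁ T₂ q₁ q₂ O F₁ F₂ R)
    {β : Ordinal.{0}} (ha : GEs T₁ S F₁ O β a) (hb : GEs T₂ S F₂ O β b) :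
    GEs T₁ S F₁ O β acc ∧ GEs T₂ S F₂ O β bcc := by
  induction h with
  | nil => exact ⟨ha, hb⟩
  | A _ g ih => exact ⟨g.ge h₁ hF.b₁ ih.1, ih.2⟩
  | B _ g ih => exact ⟨ih.1, g.ge h₂ hF.b₂ ih.2⟩
  | S _ i g ih =>
    refine ⟨ih.1, fun m hm => ?_⟩
    rcases List.mem_cons.1 hm with rfl | hm
    · have h3 := ih.1 _ (mem_acc g)
      rw [chc_pm hF] at h3
      exact h3
    · exact ih.2 m hm
  | T _ i g ih =>
    refine ⟨fun m hm => ?_, ih.2⟩
    rcases List.mem_cons.1 hm with rfl | hm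
    · have h3 := ih.2 _ (mem_acc g)
      rw [← chc_pm hF] at h3
      exact h3
    · exact ih.1 m hm

end chain

/-- a main line at an item without rays is strict -/
theorem niLo_not {H A : Nat} {S : List (List Pc)} {acc : List Nat} {u : NI}
    (h : niLo H A S acc u (patW A S u.X u.Y u.i []) (kOf u.X u.Y (nthP S u.i)) = true)
    (hk : Nat.beq u.kd 0 = true) {O : Sq} {F : Board} {R : Room} (hF : FitsH H A O F)
    (hreg : ∀ s ∈ TileRegH H O, s ∉ R.Z) (hG : R.G F) {β : Ordinal.{0}}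
    (hacc : ∀ j ∈ acc, GE ⟨stB F O (nthP S j), false⟩ β) :
    ¬ ValLE ⟨stB F O (nthP S u.i), false⟩ β := by
  unfold niLo at h
  simp only [TS3_ands_cons] at h
  obtain ⟨n0, n1, n2, h3, -⟩ := h
  rw [hk, cond_true, Bool.and_eq_true] at h3
  obtain ⟨hm, hj⟩ := h3
  have hm' := hm
  unfold mainW at hm'
  simp only [TS3_ands_cons] at hm'
  have d := TW1_base hm'.1
  have hX : 8 ≤ u.X ∧ u.X ≤ 72 := d.hX
  have hY : 8 ≤ u.Y ∧ u.Y + 8 ≤ H := d.hY
  have hbrd := MN_brd (S := S) (i := u.i) (O := O) hF hX hY d.pcs n0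
  have hbrd1 := MN_brd (S := S) (i := u.j₁) (O := O) hF hX hY hm'.2.1 n1
  have hv := hacc u.j₁ (MN_memb hj)
  rw [← hbrd1] at hv
  rw [← hbrd]
  exact (mainW_ge (x := u.sw) hm (C := ctx O F u.X u.Y) (ctx_ok hF.noK _ _) rfl R
    (MN_sep hreg hX hY) (MN_G hreg hG hX hY _) hv).2

/-- **The certificate of the choice**: from the state `px` White goes to the special square, from which Black leads
the play to `pu` or to `pl`. -/
structure ChoC (T₁ T₂ : MT) (q₁ q₂ : Nat) (px pu pl : List Pc) : Prop where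
  sw : swapOk T₁ T₂ q₁ q₂ = true
  /-- upper bound -/
  up : ∃ (S : List (List Pc)) (x yu yl : Nat) (acc bcc : List Mo), nthP S x = px ∧ nthP S yu = pu ∧
    nthP S yl = pl ∧ DU T₁ T₂ q₁ q₂ S [⟨yu, q₁⟩, ⟨yl, q₁⟩] [] acc bcc ∧ membM x q₁ acc = true
  /-- lower bound -/
  low : ∃ (S : List (List Pc)) (yu yl : Nat) (u : NI) (acc bcc acc' bcc' : List Mo),
    nthP S u.i = px ∧ nthP S yu = pu ∧ nthP S yl = pl ∧
    DL T₁ T₂ q₁ q₂ S [⟨yu, q₁⟩] [] acc bcc ∧ DL T₁ T₂ q₁ q₂ S [⟨yl, q₁⟩] [] acc' bcc' ∧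
    membM u.j₁ q₁ acc = true ∧ membM u.j₁ q₁ acc' = true ∧ Nat.beq u.kd 0 = true ∧
    niLo T₁.H T₁.A S [u.j₁] u (patW T₁.A S u.X u.Y u.i []) (kOf u.X u.Y (nthP S u.i)) = true

section choice

variable {T₁ T₂ : MT} {q₁ q₂ : Nat} {px pu pl : List Pc} {O : Sq} {F : Board} {R : Room}

/-- the upper bound of the choice -/
theorem ChoC.hasValue (h : ChoC T₁ T₂ q₁ q₂ px pu pl) (hF : MBase T₁ O F R)
    (hu : HasValue ⟨stB (FM T₁ F O q₁) O pu, false⟩)
    (hl : HasValue ⟨stB (FM T₁ F O q₁) O pl, false⟩) :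
    HasValue ⟨stB (FM T₁ F O q₁) O px, false⟩ := by
  have hW := chc_base h.sw hF
  have h1 := h.sw
  unfold swapOk at h1
  simp only [TS3_ands_cons] at h1
  obtain ⟨h1, h2, -⟩ := h1
  obtain ⟨S, x, yu, yl, acc, bcc, e1, e2, e3, hc, hx⟩ := h.up
  have h3 := (hc.hv h1 h2 hW (fun m hm => ?_) (fun m hm => absurd hm List.not_mem_nil)).1 _
    (mem_acc hx)
  · rw [← e1]
    exact h3
  · rcases List.mem_cons.1 hm with rfl | hm
    · show HasValue ⟨stB (FM T₁ F O q₁) O (nthP S yu), false⟩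
      rw [e2]
      exact hu
    · rcases List.mem_cons.1 hm with rfl | hm
      · show HasValue ⟨stB (FM T₁ F O q₁) O (nthP S yl), false⟩
        rw [e3]
        exact hl
      · exact absurd hm List.not_mem_nil

/-- the lower bound of the choice -/
theorem ChoC.not_valLE (h : ChoC T₁ T₂ q₁ q₂ px pu pl) (hF : MBase T₁ O F R) {β : Ordinal.{0}}
    (hy : GE ⟨stB (FM T₁ F O q₁) O pu, false⟩ β ∨ GE ⟨stB (FM T₁ F O q₁) O pl, false⟩ β) :
    ¬ ValLE ⟨stB (FM T₁ F O q₁) O px, false⟩ β := by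
  have hW := chc_base h.sw hF
  have h1 := h.sw
  unfold swapOk at h1
  simp only [TS3_ands_cons] at h1
  obtain ⟨h1, h2, -, h4, -⟩ := h1
  have h4 := mc_memb.1 h4
  obtain ⟨S, yu, yl, u, acc, bcc, acc', bcc', e1, e2, e3, hc, hc', hj, hj', hk, hn⟩ := h.low
  obtain ⟨g1, g2⟩ := fits_FM h1 hF (Or.inr h4)
  rw [← e1]
  refine niLo_not hn hk g1 hF.reg g2 (fun j hjm => ?_)
  have hjm' : j = u.j₁ := by simpa using hjm
  subst hjm'
  rcases hy with hy | hy
  · refine (hc.ge h1 h2 hW (fun m hm => ?_) (fun m hm => absurd hm List.not_mem_nil)).1 _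
      (mem_acc hj)
    have hm' : m = ⟨yu, q₁⟩ := by simpa using hm
    subst hm'
    show GE ⟨stB (FM T₁ F O q₁) O (nthP S yu), false⟩ β
    rw [e2]
    exact hy
  · refine (hc'.ge h1 h2 hW (fun m hm => ?_) (fun m hm => absurd hm List.not_mem_nil)).1 _
      (mem_acc hj')
    have hm' : m = ⟨yl, q₁⟩ := by simpa using hm
    subst hm'
    show GE ⟨stB (FM T₁ F O q₁) O (nthP S yl), false⟩ β
    rw [e3]
    exact hy

end choice

/-- **The certificate of the choice, one resident**: from the state `px` the play leads to `pu` or to `pl`, as Black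
chooses. -/
structure ChoS (T : MT) (q : Nat) (px pu pl : List Pc) : Prop where
  ok : mtOk T = true
  st : memb q T.st = true
  /-- upper bound -/
  up : ∃ (S : List (List Pc)) (x yu yl : Nat) (acc : List Mo), nthP S x = px ∧ nthP S yu = pu ∧
    nthP S yl = pl ∧ MU T S [⟨yu, q⟩, ⟨yl, q⟩] acc ∧ membM x q acc = true
  /-- lower bound -/
  low : ∃ (S : List (List Pc)) (yu yl : Nat) (u : NI) (acc acc' : List Mo),
    nthP S u.i = px ∧ nthP S yu = pu ∧ nthP S yl = pl ∧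
    ML T S [⟨yu, q⟩] acc ∧ ML T S [⟨yl, q⟩] acc' ∧
    membM u.j₁ q acc = true ∧ membM u.j₁ q acc' = true ∧ Nat.beq u.kd 0 = true ∧
    niLo T.H T.A S [u.j₁] u (patW T.A S u.X u.Y u.i []) (kOf u.X u.Y (nthP S u.i)) = true

section one

variable {T : MT} {q : Nat} {px pu pl : List Pc} {O : Sq} {F : Board} {R : Room}

/-- the upper bound of the choice -/
theorem ChoS.hasValue (h : ChoS T q px pu pl) (hF : MBase T O F R)
    (hu : HasValue ⟨stB (FM T F O q) O pu, false⟩)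
    (hl : HasValue ⟨stB (FM T F O q) O pl, false⟩) :
    HasValue ⟨stB (FM T F O q) O px, false⟩ := by
  obtain ⟨S, x, yu, yl, acc, e1, e2, e3, hc, hx⟩ := h.up
  have h3 := hc.hv h.ok hF (fun m hm => ?_) _ (mem_acc hx)
  · rw [← e1]
    exact h3
  · rcases List.mem_cons.1 hm with rfl | hm
    · show HasValue ⟨stB (FM T F O q) O (nthP S yu), false⟩
      rw [e2]
      exact hu
    · rcases List.mem_cons.1 hm with rfl | hm
      · show HasValue ⟨stB (FM T F O q) O (nthP S yl), false⟩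
        rw [e3]
        exact hl
      · exact absurd hm List.not_mem_nil

/-- the lower bound of the choice -/
theorem ChoS.not_valLE (h : ChoS T q px pu pl) (hF : MBase T O F R) {β : Ordinal.{0}}
    (hy : GE ⟨stB (FM T F O q) O pu, false⟩ β ∨ GE ⟨stB (FM T F O q) O pl, false⟩ β) :
    ¬ ValLE ⟨stB (FM T F O q) O px, false⟩ β := by
  obtain ⟨S, yu, yl, u, acc, acc', e1, e2, e3, hc, hc', hj, hj', hk, hn⟩ := h.low
  obtain ⟨g1, g2⟩ := fits_FM h.ok hF (Or.inr (mc_memb.1 h.st))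
  rw [← e1]
  refine niLo_not hn hk g1 hF.reg g2 (fun j hjm => ?_)
  have hjm' : j = u.j₁ := by simpa using hjm
  subst hjm'
  rcases hy with hy | hy
  · refine hc.ge h.ok hF (fun m hm => ?_) _ (mem_acc hj)
    have hm' : m = ⟨yu, q⟩ := by simpa using hm
    subst hm'
    show GE ⟨stB (FM T F O q) O (nthP S yu), false⟩ β
    rw [e2]
    exact hy
  · refine hc'.ge h.ok hF (fun m hm => ?_) _ (mem_acc hj')
    have hm' : m = ⟨yl, q⟩ := by simpa using hm
    subst hm'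
    show GE ⟨stB (FM T F O q) O (nthP S yl), false⟩ β
    rw [e3]
    exact hy

end one

end Pool.Agent.Lib.H32C.Loc
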