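import Pool.Agent.Lib.H32C.FwE

/-!
# Lines of the services `Out` and `Bin`

The line of a service begins at the special square (cell `z` of the array) and has the step `t`; its first `J` squares
after the special square are free of static pieces.
-/

set_option autoImplicit false

namespace Pool.Agent.Lib.H32C.Loc

/-- No static Black slider which moves in direction `t` comes to `c` from the side: every line is closed by a static
piece outside of `P`. -/
def NoSl (B0 : Board) (P : Set Sq) (t : Nat) (c : Sq) : Prop :=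
  ∀ u ∈ orT ++ diT, u ≠ t → u + t ≠ 84 → ∀ (l : ℕ) (κ : Kind), 0 < l →
    B0 (c + l • vec u) = some (false, κ) → SlK κ u → SlK κ t →
      ∃ i : ℕ, 0 < i ∧ i < l ∧ c + i • vec u ∉ P ∧ B0 (c + i • vec u) ≠ none

/-- The White piece of kind `κ` on `a` cannot go to `c`, nor capture on `c`; its lines are blocked by pieces of `B0`. -/
def WNo (B0 : Board) (κ : Kind) (a c : Sq) : Prop :=
  match κ with
  | Kind.king => False
  | Kind.knight => c - a ∉ knightJumps
  | Kind.pawn => c - a ≠ (0, 1) ∧ (B0 c ≠ none → c - a ≠ (1, 1) ∧ c - a ≠ (-1, 1))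
  | Kind.queen => (OrthI a c ∨ DiagI a c) → ∃ d, BetwI a c d ∧ B0 d ≠ none
  | Kind.rook => OrthI a c → ∃ d, BetwI a c d ∧ B0 d ≠ none
  | Kind.bishop => DiagI a c → ∃ d, BetwI a c d ∧ B0 d ≠ none

/-- the `j`-th square of the line -/
def stepL (O : Sq) (z t : Nat) (j : ℕ) : Sq := sqA O z + j • vec t

/-- facts about the line -/
structure LineT (B0 : Board) (H A t z : Nat) (J : ℕ) (O : Sq) : Prop where
  ht : t ∈ orT ++ diT
  fits : FitsH H A O B0
  clear : ∀ j : ℕ, 0 < j → j ≤ J → B0 (stepL O z t j) = none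
  closed : ∀ j : ℕ, 0 < j → j ≤ J → stepL O z t j ∉ CoreH 2 H O →
    NoSl B0 (CoreH 3 H O) t (stepL O z t j)
  white : ∀ j : ℕ, 0 < j → j ≤ J → stepL O z t j ∉ CoreH 2 H O →
    ∀ a κ, B0 a = some (true, κ) → WNo B0 κ a (stepL O z t j)
  /-- the line leaves the array before its end -/
  out : stepL O z t J ∉ CoreH (-2) H O

/-- facts about a patch with mark on `e`, which is the `m`-th square of the line -/
structure LineP (B0 : Board) (H t z : Nat) (J : ℕ) (O : Sq) (X Y e : Nat) (m : ℕ) : Prop where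
  hX : 8 ≤ X ∧ X ≤ 72
  hY : 8 ≤ Y ∧ Y + 8 ≤ H
  inn : Inner e
  out : ¬ Inner (stp t e)
  hm : 0 < m
  hmark : sq (orgP O X Y) e = stepL O z t m
  inn' : ∀ j : ℕ, 0 < j → (stepL O z t j ∈ inP O X Y ↔ j ≤ m)
  mJ : m + 2 ≤ J
  closed : ∀ j : ℕ, m < j → j ≤ J → NoSl B0 (inP O X Y) t (stepL O z t j)
  /-- the cells next to the mark in the directions in which the patch ends -/
  edge : ∀ u ∈ orT ++ diT, u ≠ t → ¬ Inner (stp u e) →
    ∃ m, B0 (sq (orgP O X Y) e + vec u) = some m ∧ (m.2 = Kind.pawn ∨ m.2 = Kind.knight)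

/-! helpers of chunk FLA -/

theorem fla_od {t : Nat} (ht : t ∈ orT ++ diT) : t = 43 ∨ t = 62 ∨ t = 41 ∨ t = 22 ∨ t = 63 ∨
    t = 61 ∨ t = 21 ∨ t = 23 := by
  simpa only [orT, diT, List.cons_append, List.nil_append, List.mem_cons, List.not_mem_nil,
    or_false] using ht

theorem fla_it63 (j i : Nat) : itA 63 j i = j + 81 * i := by
  induction i with
  | zero => rfl
  | succ i ih =>
    rw [mb_itA_s, ih, ma_stA]
    omega

theorem fla_it61 (j i : Nat) : itA 61 j i = j + 79 * i := by
  induction i with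
  | zero => rfl
  | succ i ih =>
    rw [mb_itA_s, ih, ma_stA]
    omega

theorem fla_it21 (j i : Nat) : itA 21 j i = j - 81 * i := by
  induction i with
  | zero => rfl
  | succ i ih =>
    rw [mb_itA_s, ih, ma_stA]
    omega

theorem fla_it23 (j i : Nat) : itA 23 j i = j - 79 * i := by
  induction i with
  | zero => rfl
  | succ i ih =>
    rw [mb_itA_s, ih, ma_stA]
    omega

theorem fla_v63 : vec 63 = (1, 1) := by decide
theorem fla_v61 : vec 61 = (-1, 1) := by decide
theorem fla_v21 : vec 21 = (-1, -1) := by decide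
theorem fla_v23 : vec 23 = (1, -1) := by decide

/-- the steps from a cell near the centre to a cell near the centre are exact -/
theorem fla_exact {X Y : Nat} {O : Sq} {t j i : Nat} (ht : t ∈ orT ++ diT)
    (hX : 11 ≤ X ∧ X ≤ 68) (hY : 11 ≤ Y)
    (h1 : sqA O j ∈ inP O X Y) (h2 : sqA O (itA t j i) ∈ inP O X Y) (hi : i ≤ 15) :
    sqA O (itA t j i) = sqA O j + i • vec t := by
  by_cases hto : t ∈ orT
  · exact fwe_exact hto hX hY h1 h2 hi
  unfold inP sqA tsq at h1 h2
  simp only [Set.mem_ofPred_eq] at h1 h2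
  unfold sqA tsq
  ext
  · rw [add_nsmul_fst]
    rcases fla_od ht with rfl | rfl | rfl | rfl | rfl | rfl | rfl | rfl
    · exact absurd (by decide) hto
    · exact absurd (by decide) hto
    · exact absurd (by decide) hto
    · exact absurd (by decide) hto
    · rw [fla_it63] at *
      rw [fla_v63]
      dsimp only
      omega
    · rw [fla_it61] at *
      rw [fla_v61]
      dsimp only
      omega
    · rw [fla_it21] at *
      rw [fla_v21]
      dsimp only
      omega
    · rw [fla_it23] at *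
      rw [fla_v23]
      dsimp only
      omega
  · rw [add_nsmul_snd]
    rcases fla_od ht with rfl | rfl | rfl | rfl | rfl | rfl | rfl | rfl
    · exact absurd (by decide) hto
    · exact absurd (by decide) hto
    · exact absurd (by decide) hto
    · exact absurd (by decide) hto
    · rw [fla_it63] at *
      rw [fla_v63]
      dsimp only
      omega
    · rw [fla_it61] at *
      rw [fla_v61]
      dsimp only
      omega
    · rw [fla_it21] at *
      rw [fla_v21]
      dsimp only
      omega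
    · rw [fla_it23] at *
      rw [fla_v23]
      dsimp only
      omega

/-- beyond the mark the line has left the patch -/
theorem fla_out {X Y e : Nat} {O : Sq} {t : Nat} (ht : t ∈ orT ++ diT) (he : Inner e)
    (ho : ¬ Inner (stp t e)) {n : ℕ} (hn : 0 < n) :
    sq (orgP O X Y) e + n • vec t ∉ inP O X Y := by
  by_cases hto : t ∈ orT
  · exact fwe_out hto he ho hn
  have e1 : stp t e = e + t - 42 := rfl
  rw [e1] at ho
  unfold Inner at he ho
  unfold inP sq orgP
  rw [Set.mem_ofPred_eq, add_nsmul_fst, add_nsmul_snd]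
  rcases fla_od ht with rfl | rfl | rfl | rfl | rfl | rfl | rfl | rfl
  · exact absurd (by decide) hto
  · exact absurd (by decide) hto
  · exact absurd (by decide) hto
  · exact absurd (by decide) hto
  · rw [fla_v63]
    dsimp only
    omega
  · rw [fla_v61]
    dsimp only
    omega
  · rw [fla_v21]
    dsimp only
    omega
  · rw [fla_v23]
    dsimp only
    omega

theorem fla_core (m : ℤ) {H : Nat} {O c : Sq} (hm : m ≤ 3) (hc : c ∈ CoreH 3 H O) :
    c ∈ CoreH m H O := by
  unfold CoreH at *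
  rw [Set.mem_ofPred_eq] at *
  omega

theorem fla_core2 {H : Nat} {O c : Sq} (hc : c ∈ CoreH 2 H O) : c ∈ CoreH (-2) H O := by
  unfold CoreH at *
  rw [Set.mem_ofPred_eq] at *
  omega

theorem fla_core1 {H : Nat} {O c : Sq} {t : Nat} (ht : t ∈ orT ++ diT) (hc : c ∈ CoreH 3 H O) :
    c + 1 • vec t ∈ CoreH (-2) H O := by
  obtain ⟨v1, v2⟩ := fwe_vec ht
  unfold CoreH at *
  rw [Set.mem_ofPred_eq] at *
  rw [add_nsmul_fst, add_nsmul_snd]
  omega

theorem fla_data {B0 : Board} {H A t z : Nat} {J : ℕ} {O : Sq} {X Y e : Nat}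
    (hT : LineT B0 H A t z J O) (hz : inA2 H z = true) (h : wpOk ⟨H, A, t, z⟩ X Y e = true) :
    ∃ i₀ : ℕ, 0 < i₀ ∧ sq (orgP O X Y) e = stepL O z t i₀ ∧ stepL O z t 1 ∈ inP O X Y := by
  obtain ⟨h1, h2, h3, h4, h5, h6, h7, h8, h9, h10⟩ := fwe_wp h
  dsimp only at h4 h6 h7 h8
  have hs := (sqA_stA2 (O := O) (List.mem_append_left _ hT.ht) hz).1
  have hn : sqA O (stA t z) ∈ inP O X Y := fwe_near.1 h7
  obtain ⟨i, hi, hi'⟩ := fwe_onL 16 h8
  have hm := fwe_mark (T := ⟨H, A, t, z⟩) (O := O) (X := X) (Y := Y) h5 ⟨by omega, by omega⟩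
    (by omega)
  have hx := fla_exact (i := i) (j := stA t z) hT.ht ⟨h1, h2⟩ h3 hn
    (by rw [hi', hm]; exact fwe_markP h5) (by omega)
  refine ⟨i + 1, by omega, ?_, ?_⟩
  · unfold stepL
    rw [← hm, ← hi', hx, hs, succ_nsmul', add_assoc]
  · unfold stepL
    rw [one_smul, ← hs]
    exact hn

theorem fla_step {O : Sq} {z t : Nat} (i j : ℕ) :
    stepL O z t (i + j) = stepL O z t i + j • vec t := by
  unfold stepL
  rw [add_smul, add_assoc]

/-- chunk FLA: the facts about a patch from its check (cf. `winP_of`) -/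
theorem lineP_of {B0 : Board} {H A t z : Nat} {J : ℕ} {O : Sq} {X Y e : Nat}
    (hT : LineT B0 H A t z J O) (hz : inA2 H z = true) (h : wpOk ⟨H, A, t, z⟩ X Y e = true) :
    ∃ m, LineP B0 H t z J O X Y e m := by
  obtain ⟨g1, g2, g3, g4, g5, g6, g7, g8, g9, g10⟩ := fwe_wp h
  dsimp only at g4 g6 g7 g8 g9 g10
  obtain ⟨m, hm, he, h1⟩ := fla_data hT hz h
  obtain ⟨v1, v2⟩ := fwe_vec hT.ht
  have hmark := fwe_mark (T := ⟨H, A, t, z⟩) (O := O) (X := X) (Y := Y) g5 ⟨by omega, by omega⟩
    (by omega)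
  have hmP : stepL O z t m ∈ inP O X Y := by
    rw [← he]
    exact fwe_markP g5
  have hmC : stepL O z t m ∈ CoreH 3 H O := fwe_inCore ⟨g1, g2⟩ g3 g4 hmP
  have hz0 : sqA O z ∈ CoreH 2 H O := fwe_inA2.1 hz
  have hJ : m + 2 ≤ J := by
    by_contra hlt
    apply hT.out
    rcases Nat.lt_or_ge m J with h2 | h2
    · obtain rfl : J = m + 1 := by omega
      rw [fla_step]
      exact fla_core1 hT.ht hmC
    · apply fla_core2
      exact fwe_conv v1 v2 hz0 (fla_core 2 (by norm_num) hmC) h2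
  refine ⟨m, ⟨by omega, by omega⟩, ⟨by omega, by omega⟩, g5, g6, hm, he, ?_, hJ, ?_, ?_⟩
  · intro j hj
    constructor
    · intro h2
      by_contra h3
      obtain ⟨k, rfl⟩ : ∃ k, j = m + k := ⟨j - m, by omega⟩
      rw [fla_step, ← he] at h2
      exact fla_out hT.ht g5 g6 (by omega) h2
    · intro h2
      obtain ⟨k, rfl⟩ : ∃ k, j = 1 + k := ⟨j - 1, by omega⟩
      obtain ⟨k', rfl⟩ : ∃ k', m = 1 + k' := ⟨m - 1, by omega⟩
      rw [fla_step] at hmP ⊢
      exact fwe_convP v1 v2 h1 hmP (by omega)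
  · intro j hmj hjJ
    by_cases hcore : stepL O z t j ∈ CoreH 2 H O
    · intro u hu hne hop l κ hl hB hslk _
      obtain ⟨n, rfl⟩ : ∃ n, j = m + n := ⟨j - m, by omega⟩
      rw [fla_step, ← he] at hcore hB ⊢
      have hmc : sq (orgP O X Y) e ∈ CoreH 2 H O := by
        rw [he]
        exact fla_core 2 (by norm_num) hmC
      have hall : ∀ i ≤ n, sqA O (zA X Y (WT.ray ⟨H, A, t, z⟩ e) 0) + i • vec t ∈ CoreH 2 H O := by
        intro i hi
        rw [hmark]
        exact fwe_conv v1 v2 hmc hcore hi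
      have hit := fwe_it (List.mem_append_left _ hT.ht) _ n hall
      have hz1 : zA X Y (WT.ray ⟨H, A, t, z⟩ e) 1 = stA t (zA X Y (WT.ray ⟨H, A, t, z⟩ e) 0) := rfl
      rw [hz1] at g10
      have hup := upA_spec (T := ⟨H, A, t, z⟩) 150 g10 (n - 1) (by
        intro i' hi'
        dsimp only
        rw [← mb_itA_succ]
        exact (hit (i' + 1) (by omega)).2)
      dsimp only at hup
      rw [← mb_itA_succ, show n - 1 + 1 = n by omega] at hup
      obtain ⟨c, hc⟩ : ∃ c, c = sq (orgP O X Y) e + n • vec t := ⟨_, rfl⟩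
      have hcq : sqA O (itA t (zA X Y (WT.ray ⟨H, A, t, z⟩ e) 0) n) = c := by
        rw [(hit n le_rfl).1, hmark, hc]
      rw [← hc] at hB ⊢
      obtain ⟨j, hj⟩ : ∃ j, j = itA t (zA X Y (WT.ray ⟨H, A, t, z⟩ e) 0) n := ⟨_, rfl⟩
      rw [← hj] at hup hcq
      obtain ⟨L, hL, k1, k2, k3, k4, k5, k6⟩ := scanA_spec 90 (fwe_side hup u hu hne hop)
      have hsq := mb_sq (T := WT.mt ⟨H, A, t, z⟩) (O := O) hu (fun i h0 hi => (k1 i h0 hi).1)
      have hfit : ∀ i : ℕ, 0 < i → i ≤ L → B0 (sqA O j + i • vec u) = dec (cell A (itA u j i)) ∧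
          msk (slM u) (cell A (itA u j i)) = false := by
        intro i h0 hi
        obtain ⟨m1, -, m2⟩ := k1 i h0 hi
        rcases m2 with ⟨-, m2⟩ | ⟨m2, m3⟩
        · exact absurd m2 List.not_mem_nil
        · rw [← hsq i hi]
          exact ⟨cell_sqA hT.fits (inA_lt m1).1 m2, m3⟩
      rcases Nat.lt_or_ge L l with hLl | hLl
      · refine ⟨L, hL, hLl, ?_, ?_⟩
        · rw [← hcq, ← hsq L le_rfl, ← fwe_near, k5]
          exact Bool.false_ne_true
        · rw [← hcq, (hfit L hL le_rfl).1]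
          exact mb_mskDec _ (cell_lt _ _) k6
      · exfalso
        obtain ⟨m1, m2⟩ := hfit l hl hLl
        rw [hcq, hB] at m1
        have m3 := (slM_iff hu (cell_lt A (itA u j l))).2 ⟨κ, m1.symm, hslk⟩
        rw [m2] at m3
        cases m3
    · intro u hu hne hop l κ hl hB hslk hslt
      obtain ⟨i, hi0, hil, hiP, hiB⟩ :=
        hT.closed j (by omega) hjJ hcore u hu hne hop l κ hl hB hslk hslt
      exact ⟨i, hi0, hil, fun h2 => hiP (fwe_inCore ⟨g1, g2⟩ g3 g4 h2), hiB⟩
  · intro u hu hne ho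
    have h1 := g9 u hu hne ho
    unfold pnA at h1
    rw [Bool.and_eq_true] at h1
    dsimp only at h1
    obtain ⟨m, h2, h3⟩ := fwe_pn _
      (cell_lt A (stA u (zA X Y (WT.ray ⟨H, A, t, z⟩ e) 0))) h1.2
    have h15 : cell A (stA u (zA X Y (WT.ray ⟨H, A, t, z⟩ e) 0)) ≠ 15 := by
      intro h4
      rw [h4] at h2
      cases h2
    refine ⟨m, ?_, h3⟩
    rw [← hmark, ← sqA_stA hu h1.1, cell_sqA hT.fits (inA_lt h1.1).1 h15, h2]

/-! helpers of chunk FLB -/

theorem flb_WNo {B0 : Board} {κ : Kind} {a c : Sq} {u : Nat} (hu : u ∈ orT ++ diT)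
    (hslk : SlK κ u) {l : ℕ} (hl : 0 < l) (hc : c = a + l • vec u) (hW : WNo B0 κ a c) :
    ∃ k : ℕ, 0 < k ∧ k < l ∧ B0 (a + k • vec u) ≠ none := by
  have hv : vec u ∈ orthDirs ++ diagDirs := by
    rcases List.mem_append.1 hu with h | h
    · exact List.mem_append_left _ (vec_or h)
    · exact List.mem_append_right _ (vec_di h)
  have h1 : u ∈ orT → OrthI a c := fun h => (orth_iff a c).1 ⟨vec u, vec_or h, l, hl, hc⟩
  have h2 : u ∈ diT → DiagI a c := fun h => (diag_iff a c).1 ⟨vec u, vec_di h, l, hl, hc⟩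
  have h3 : ∃ d, BetwI a c d ∧ B0 d ≠ none := by
    rcases hslk with h | ⟨h, h'⟩ | ⟨h, h'⟩
    · subst h
      rcases List.mem_append.1 hu with h | h
      · exact hW (Or.inl (h1 h))
      · exact hW (Or.inr (h2 h))
    · subst h'
      exact hW (h1 h)
    · subst h'
      exact hW (h2 h)
  obtain ⟨d, h4, h5⟩ := h3
  rw [hc, betwI_iff _ _ _ _ hv hl] at h4
  obtain ⟨k, hk, hkl, rfl⟩ := h4
  exact ⟨k, hk, hkl, h5⟩

theorem flb_opp {u t : Nat} (ht : t ∈ orT ++ diT) (hop : u + t = 84) {κ : Kind}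
    (hκ : SlK κ u) : vec u = - vec t ∧ SlK κ t := by
  have hou : opp t = u := by
    unfold opp
    omega
  have ho := opp_spec ht
  refine ⟨by rw [← hou]; exact ho.2.1, ?_⟩
  have hut : opp u = t := by
    unfold opp
    omega
  have hu : u ∈ orT ++ diT := by
    rw [← hou]
    exact ho.1
  have ho' := opp_spec hu
  rcases hκ with h | ⟨h, h'⟩ | ⟨h, h'⟩
  · exact Or.inl h
  · right
    left
    rw [← hut]
    exact ⟨ho'.2.2.1 h, h'⟩
  · right
    right
    rw [← hut]
    exact ⟨ho'.2.2.2 h, h'⟩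

/-- White sliders are blocked -/
theorem flb_slide {B0 : Board} {H A t z₀ : Nat} {J : ℕ} {O : Sq}
    (hT : LineT B0 H A t z₀ J O) (hz0 : sqA O z₀ ∈ CoreH 2 H O) {j : ℕ} (hj : 0 < j)
    (hjJ : j ≤ J) {z : Nat} (hz : sqA O z = stepL O z₀ t j)
    (hZ : ∀ u ∈ orT ++ diT, u ≠ t → u + t ≠ 84 → scanW ⟨H, A, 12, []⟩ u 90 z = true)
    {a : Sq} {κ : Kind} (ha : B0 a = some (true, κ)) {u : Nat} (hu : u ∈ orT ++ diT)
    (hslk : SlK κ u) {l : ℕ} (hl : 0 < l) (hal : a = sqA O z + l • vec u) :
    ∃ d, BetwI a (sqA O z) d ∧ B0 d ≠ none := by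
  have hJ2 : stepL O z₀ t J ∉ CoreH 2 H O := fun h => hT.out (fla_core2 h)
  have hW := hT.white J (by omega) le_rfl hJ2 a κ ha
  by_cases hut : u = t
  · subst hut
    have h1 : a = stepL O z₀ u (j + l) := by rw [fla_step, ← hz, hal]
    rcases Nat.lt_or_ge J (j + l) with h2 | h2
    · -- beyond the line
      obtain ⟨r, hr⟩ : ∃ r, j + l = J + r := ⟨j + l - J, by omega⟩
      have hr0 : 0 < r := by omega
      rw [hr, fla_step] at h1
      have hop : opp u + u = 84 := by
        have := ma_od hu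
        unfold opp
        omega
      have hslk' : SlK κ (opp u) := by
        have h3 := opp_spec hu
        rcases hslk with h | ⟨h, h'⟩ | ⟨h, h'⟩
        · exact Or.inl h
        · exact Or.inr (Or.inl ⟨h3.2.2.1 h, h'⟩)
        · exact Or.inr (Or.inr ⟨h3.2.2.2 h, h'⟩)
      have hvo := (opp_spec hu).2.1
      obtain ⟨k, hk, hkr, hkB⟩ := flb_WNo (opp_spec hu).1 hslk' hr0
        (by rw [h1, hvo, smul_neg, add_neg_cancel_right]) hW
      refine ⟨a + k • vec (opp u), ?_, hkB⟩
      have hb : a + k • vec (opp u) = sqA O z + (l - k) • vec u := by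
        obtain ⟨q, rfl⟩ : ∃ q, l = q + k := ⟨l - k, by omega⟩
        rw [hal, hvo, smul_neg, Nat.add_sub_cancel, add_smul, add_assoc, add_assoc,
          add_neg_cancel, add_zero]
      exact fwe_betw hu hal (by omega) (by omega) hb
    · exfalso
      rw [h1, hT.clear (j + l) (by omega) h2] at ha
      cases ha
  by_cases hop : u + t = 84
  · obtain ⟨hv, hslt⟩ := flb_opp hT.ht hop hslk
    rcases Nat.lt_or_ge l j with hlj | hlj
    · exfalso
      obtain ⟨m, rfl⟩ : ∃ m, j = m + l := ⟨j - l, by omega⟩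
      have h1 : a = stepL O z₀ t m := by
        rw [hal, hz, fla_step, hv, smul_neg, add_neg_cancel_right]
      rw [h1, hT.clear m (by omega) (by omega)] at ha
      cases ha
    · obtain ⟨m, rfl⟩ : ∃ m, l = m + j := ⟨l - j, by omega⟩
      have hzv : sqA O z = a + (m + j) • vec t := by
        rw [hal, hv, smul_neg, neg_add_cancel_right]
      have hazz : sqA O z₀ = a + m • vec t := by
        have h1 := hz.symm.trans hzv
        unfold stepL at h1
        rw [add_smul, ← add_assoc] at h1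
        exact add_right_cancel h1
      have hst : ∀ i : ℕ, stepL O z₀ t i = a + (m + i) • vec t := by
        intro i
        unfold stepL
        rw [hazz, add_assoc, ← add_smul]
      obtain ⟨k, hk, hkr, hkB⟩ := flb_WNo hT.ht hslt (by omega : 0 < m + J) (hst J) hW
      have hkm : k ≤ m := by
        by_contra hlt
        apply hkB
        have h3 := hT.clear (k - m) (by omega) (by omega)
        rw [hst, show m + (k - m) = k by omega] at h3
        exact h3
      refine ⟨a + k • vec t, ?_, hkB⟩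
      rw [hzv]
      have hvd : vec t ∈ orthDirs ++ diagDirs := by
        rcases List.mem_append.1 hT.ht with h | h
        · exact List.mem_append_left _ (vec_or h)
        · exact List.mem_append_right _ (vec_di h)
      rw [betwI_iff _ _ _ _ hvd (by omega)]
      exact ⟨k, hk, by omega, rfl⟩
  · obtain ⟨L, hL, k1, k2⟩ := fwe_scanW (M := ⟨H, A, 12, []⟩) rfl 90 (hZ u hu hut hop)
    have hsq := mb_sq (T := ⟨H, A, 12, []⟩) (O := O) hu (fun i h0 hi => (k1 i h0 hi).1)
    have hfit : ∀ i : ℕ, 0 < i → i ≤ L → B0 (sqA O z + i • vec u) = dec (cell A (itA u z i)) := by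
      intro i h0 hi
      obtain ⟨m1, m2, -⟩ := k1 i h0 hi
      rw [← hsq i hi]
      exact cell_sqA hT.fits (inA_lt m1).1 m2
    rcases Nat.lt_or_ge L l with hLl | hLl
    · refine ⟨sqA O z + L • vec u, fwe_betw hu hal hL hLl rfl, ?_⟩
      rw [hfit L hL le_rfl]
      exact mb_mskDec _ (cell_lt _ _) k2
    · exfalso
      have h1 := hfit l hl hLl
      rw [← hal, ha] at h1
      have h2 := fwe_maskW hu (cell_lt A (itA u z l)) hslk h1.symm
      have h3 : msk (cond (aO fun v => !Nat.beq v u) 0x28 0x30) (cell A (itA u z l)) = false :=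
        (k1 l hl hLl).2.2
      rw [h3] at h2
      cases h2

/-- chunk FLB: no White piece comes to the line (cf. `whiteL_of`).  Here `la = false` leaves out the White pieces behind
the squares on the line itself, which do not exist (`clear`), and those behind the special square, which are excluded
by the clause `white` for a square of the line outside of the array. -/
theorem whiteLine_of {B0 : Board} {H A t z : Nat} {J : ℕ} {O : Sq}
    (hT : LineT B0 H A t z J O) (hz : inA2 H z = true) (h : whiteUp ⟨H, A, t, z⟩ = true) :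
    ∀ j : ℕ, 0 < j → j ≤ J → ∀ a κ, B0 a = some (true, κ) → WNo B0 κ a (stepL O z t j) := by
  intro n hn hnJ a κ ha
  by_cases hcore : stepL O z t n ∈ CoreH 2 H O
  swap
  · exact hT.white n hn hnJ hcore a κ ha
  obtain ⟨v1, v2⟩ := fwe_vec hT.ht
  have hz0 : sqA O z ∈ CoreH 2 H O := fwe_inA2.1 hz
  have hall : ∀ i ≤ n, sqA O z + i • vec t ∈ CoreH 2 H O := by
    intro i hi
    exact fwe_conv v1 v2 hz0 hcore hi
  have hit := fwe_it (List.mem_append_left _ hT.ht) z n hall
  unfold whiteUp at h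
  have hZ := upA_spec (T := ⟨H, A, t, z⟩) 150 h (n - 1) (by
    intro i' hi'
    dsimp only
    rw [← mb_itA_succ]
    exact (hit (i' + 1) (by omega)).2)
  dsimp only at hZ
  rw [← mb_itA_succ, show n - 1 + 1 = n by omega] at hZ
  have hzn : sqA O (itA t z n) = stepL O z t n := (hit n le_rfl).1
  obtain ⟨w, hw⟩ : ∃ w, w = itA t z n := ⟨_, rfl⟩
  rw [← hw] at hZ hzn
  obtain ⟨c, hc⟩ : ∃ c, c = stepL O z t n := ⟨_, rfl⟩
  obtain ⟨hi2, hkn, hp, -, hsc⟩ := mf1_Z hZ
  have hcn : B0 c = none := by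
    rw [hc]
    exact hT.clear n hn hnJ
  have hzc : sqA O w = c := by rw [hzn, hc]
  rw [← hc]
  have near : ∀ u ∈ orT ++ diT ++ knT, ∀ c₀ : Nat, notW (WT.mt ⟨H, A, t, z⟩) c₀ (stA u w) = true →
      a = c + vec u → dec (cell A (stA u w)) = some (true, κ) ∧ cell A (stA u w) ≠ c₀ := by
    intro u hu c₀ hnw hyu
    obtain ⟨h1, h2⟩ := sqA_stA2 (O := O) hu hi2
    unfold notW at hnw
    rw [Bool.and_eq_true, Bool.or_eq_true, mc_notbeq, mc_notbeq] at hnw
    have h15 : cell A (stA u w) ≠ 15 := by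
      rcases hnw.2 with h4 | h4
      · exact h4
      · cases h4
    rw [hyu, ← hzc, ← h1, cell_sqA hT.fits h2 h15] at ha
    exact ⟨ha, hnw.1⟩
  have slide : ∀ u ∈ orT ++ diT, SlK κ u → ∀ l : ℕ, 0 < l → a = c + l • vec u →
      ∃ d, BetwI a c d ∧ B0 d ≠ none := by
    intro u hu hslk l hl hal
    rw [← hzc] at hal ⊢
    exact flb_slide hT hz0 hn hnJ hzn hsc ha hu hslk hl hal
  cases κ with
  | king => exact absurd ha (hT.fits.noK a).1
  | queen =>
    intro hac
    obtain ⟨u, hu, l, hl, hal, -, -⟩ := fwe_line hac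
    exact slide u hu (Or.inl rfl) l hl hal
  | rook =>
    intro hac
    obtain ⟨u, hu, l, hl, hal, h1, h2⟩ := fwe_line (Or.inl hac)
    refine slide u hu (Or.inr (Or.inl ⟨?_, rfl⟩)) l hl hal
    rcases List.mem_append.1 hu with h3 | h3
    · exact h3
    · exfalso
      have h4 := h2 h3
      have h5 : OrthI a c := hac
      unfold DiagI at h4
      unfold OrthI at h5
      omega
  | bishop =>
    intro hac
    obtain ⟨u, hu, l, hl, hal, h1, h2⟩ := fwe_line (Or.inr hac)
    refine slide u hu (Or.inr (Or.inr ⟨?_, rfl⟩)) l hl hal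
    rcases List.mem_append.1 hu with h3 | h3
    · exfalso
      have h4 := h1 h3
      have h5 : DiagI a c := hac
      unfold DiagI at h5
      unfold OrthI at h4
      omega
    · exact h3
  | knight =>
    intro hj
    have h2 : a - c ∈ knightJumps := by
      obtain ⟨t, ht', htd⟩ := kn_vec hj
      have e : a - c = - vec t := by rw [htd, neg_sub]
      rw [e]
      simp only [knT, List.mem_cons, List.not_mem_nil, or_false] at ht'
      rcases ht' with rfl | rfl | rfl | rfl | rfl | rfl | rfl | rfl <;> decide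
    obtain ⟨u, hu, hud⟩ := kn_vec h2
    obtain ⟨h3, h4⟩ := near u (List.mem_append_right _ hu) 2 (hkn u hu)
      (by rw [hud, add_sub_cancel])
    rcases mf1_dec h3 with h | h | h | h | h | h <;>
      first | (exact h4 h.1) | (exact absurd h.2 (by decide))
  | pawn =>
    refine ⟨?_, fun h1 => absurd hcn h1⟩
    intro hj
    have h3 : c = a + (0, 1) := by rw [← hj, add_sub_cancel]
    obtain ⟨h4, h5⟩ := near 22 (by decide) 1 hp (by
      rw [h3, add_assoc]
      have h5 : ((0, 1) : Sq) + vec 22 = 0 := by decide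
      rw [h5, add_zero])
    rcases mf1_dec h4 with h | h | h | h | h | h <;>
      first | (exact h5 h.1) | (exact absurd h.2 (by decide))

end Pool.Agent.Lib.H32C.Loc
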