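import Pool.Agent.Lib.H32C.FarEv
import Pool.Agent.Lib.H32C.FarLine

/-!
# Chunk FBA: the service `Bin`

The White king on the special square stands on the line `G.se`; the bishop comes back to its home and attacks along
this line (step `61`).
-/

set_option autoImplicit false

namespace Pool.Agent.Lib.H32C.Loc

/-- facts about the tile of the service `Bin` -/
structure BinT (G : FGeo) (B0 : Board) (R : Room) (H A z : Nat) (J : ℕ) (O : Sq) : Prop where
  geo : G.Ok
  wor : FarWorld G B0
  line : LineT B0 H A 61 z J O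
  /-- the special square is on the line `G.se` -/
  zse : sqA O z = G.se J
  /-- behind the home there is a Black pawn or knight, and behind it no slider -/
  blk : ∃ κ, B0 (G.hb + (-1, 1)) = some (false, κ) ∧ (κ = Kind.pawn ∨ κ = Kind.knight)
  blk2 : ∃ m, B0 (G.hb + (-2, 2)) = some m ∧ m.2 ≠ Kind.bishop ∧ m.2 ≠ Kind.queen
  /-- no White pawn can capture on the home -/
  whiteH : B0 (G.hb + (1, -1)) ≠ some (true, Kind.pawn) ∧ B0 (G.hb + (-1, -1)) ≠ some (true, Kind.pawn)
  hull : ∀ c ∈ TileRegH H O, c.2 ≤ G.T ∧ ¬ G.Zone c ∧ c ≠ G.hb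
  hullZ : ∀ c ∈ R.Z, c.2 ≤ G.T ∧ ¬ G.Zone c ∧ c ≠ G.hb
  reg : ∀ c ∈ TileRegH H O, c ∉ R.Z
  G : R.G B0

/-- the board after the event -/
def WBin (G : FGeo) (B0 : Board) (F : Far) (B : Board) (f : Sq) : Prop :=
  f = G.hb ∧ B = fullB G B0 ⟨F.q, G.hb⟩

variable {G : FGeo} {B0 : Board} {R : Room} {H A z : Nat} {J : ℕ} {O : Sq} {X Y e m : Nat}

/-! ### helpers -/

theorem fba_vec : vec 61 = (-1, 1) := by decide

theorem fba_dir : (61 : Nat) ∈ diT := by decide

/-- coordinates of the squares of the line -/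
theorem fba_st (hT : BinT G B0 R H A z J O) (j : ℕ) :
    (stepL O z 61 j).1 = G.xD + J - j ∧ (stepL O z 61 j).2 = G.X0 - 2 - G.xD - J + j := by
  unfold stepL
  rw [add_nsmul_fst, add_nsmul_snd, fba_vec, hT.zse]
  simp only [FGeo.se]
  constructor <;> ring

theorem fba_st_J (hT : BinT G B0 R H A z J O) : stepL O z 61 J = G.hb := by
  obtain ⟨h1, h2⟩ := fba_st hT J
  refine Prod.ext ?_ ?_
  · rw [h1]; simp only [FGeo.hb]; ring
  · rw [h2]; simp only [FGeo.hb]; ring

theorem fba_st_J1 (hT : BinT G B0 R H A z J O) : stepL O z 61 (J + 1) = G.hb + (-1, 1) := by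
  obtain ⟨h1, h2⟩ := fba_st hT (J + 1)
  refine Prod.ext ?_ ?_
  · rw [h1]; simp only [FGeo.hb, Prod.fst_add]; push_cast; ring
  · rw [h2]; simp only [FGeo.hb, Prod.snd_add]; push_cast; ring

theorem fba_st_J2 (hT : BinT G B0 R H A z J O) : stepL O z 61 (J + 2) = G.hb + (-2, 2) := by
  obtain ⟨h1, h2⟩ := fba_st hT (J + 2)
  refine Prod.ext ?_ ?_
  · rw [h1]; simp only [FGeo.hb, Prod.fst_add]; push_cast; ring
  · rw [h2]; simp only [FGeo.hb, Prod.snd_add]; push_cast; ring

/-- the queens at home -/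
theorem fba_q (h : G.Ok) {F : Far} {q : Qn} (hq : AtHome G F q) :
    (F.q q).1 < G.xD ∧ G.T + 7 ≤ (F.q q).2 ∧ G.X0 ≤ (F.q q).1 + (F.q q).2 := by
  obtain ⟨h1, h2⟩ := hq
  have h3 := col_lt_xD h q
  have h4 := h.hT q
  have h5 := j_ge h q
  have h6 : G.X0 ≤ G.col q + G.base q := by
    cases q <;> simp only [FGeo.base] <;> omega
  refine ⟨by omega, by omega, by omega⟩

/-- the floating pawns -/
theorem fba_fl (h : G.Ok) {c : Sq} (hc : G.floater c) : c.1 < G.xD ∧ G.T + 3 ≤ c.2 := by
  refine ⟨?_, floater_above h hc⟩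
  obtain ⟨r, -, h1, -⟩ := floater_col hc
  have h3 := col_lt_xD h r
  have h5 := j_ge h r
  omega

theorem fba_eq {F : Far} {c : Sq} (h1 : ∀ q, c ≠ F.q q) (h2 : c ≠ F.b) (h3 : ¬ G.floater c) :
    fullB G B0 F c = B0 c := by
  unfold fullB farB
  rw [if_neg, if_neg, if_neg h3]
  · exact fun h => h2 h.2
  · rintro ⟨q, -, h⟩
    exact h1 q h

/-- squares of low rows -/
theorem fba_low (h : G.Ok) {F : Far} (hq : ∀ q, AtHome G F q) {c : Sq} (hc : c.2 ≤ G.T + 2)
    (hb : c ≠ F.b) : fullB G B0 F c = B0 c := by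
  refine fba_eq (fun q hcq => ?_) hb (fun hf => ?_)
  · have := (fba_q h (hq q)).2.1
    rw [← hcq] at this
    omega
  · have := (fba_fl h hf).2
    omega

theorem bin_hull (hT : BinT G B0 R H A z J O) {F : Far} (hq : ∀ q, AtHome G F q)
    (hb : F.b = G.hb ∨ ∃ t : ℕ, 0 < t ∧ F.b = G.out t) {c : Sq}
    (hc : c.2 ≤ G.T ∧ ¬ G.Zone c ∧ c ≠ G.hb) : fullB G B0 F c = B0 c := by
  obtain ⟨h1, h2, h3⟩ := hc
  refine fba_low hT.geo hq (by omega) ?_
  rcases hb with hb | ⟨t, ht, hb⟩
  · rw [hb]; exact h3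
  · rw [hb]
    intro h
    exact h2 (by rw [h]; exact out_zone hT.geo ht)

theorem fba_noK (hT : BinT G B0 R H A z J O) {F : Far} (c : Sq) :
    NK (fullB G B0 F c) c := by
  unfold fullB farB
  split_ifs
  · exact nk_man (by decide) c
  · exact nk_man (by decide) c
  · exact nk_man (by decide) c
  · exact hT.line.fits.noK c

theorem bin_bd (hT : BinT G B0 R H A z J O) {F : Far} (hq : ∀ q, AtHome G F q)
    (hb : F.b = G.hb ∨ ∃ t : ℕ, 0 < t ∧ F.b = G.out t) : BdOk H A O R (fullB G B0 F) where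
  fits := {
    cells := by
      intro X Y hX hY hc
      rw [bin_hull hT hq hb (hT.hull (tsq O X Y) (by
        refine ⟨?_, ?_, ?_, ?_⟩ <;> simp only [tsq] <;> omega))]
      exact hT.line.fits.cells X Y hX hY hc
    noK := fba_noK hT }
  reg := hT.reg
  G := R.dep B0 _ (fun c hc => (bin_hull hT hq hb (hT.hullZ c hc)).symm) hT.G

theorem fba_full_hb (hT : BinT G B0 R H A z J O) {F : Far} (hq : ∀ q, AtHome G F q)
    (hb : F.b = G.hb) : fullB G B0 F G.hb = some (false, Kind.bishop) := by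
  unfold fullB farB
  rw [if_neg, if_pos ⟨trivial, hb.symm⟩]
  rintro ⟨q, -, h⟩
  have h1 := (fba_q hT.geo (hq q)).1
  rw [← h] at h1
  simp only [FGeo.hb] at h1
  omega

/-- the square of the bishop away from home -/
theorem fba_full_out (hT : BinT G B0 R H A z J O) {F : Far} (hq : ∀ q, AtHome G F q) {t : ℕ}
    (hb : F.b = G.out t) : fullB G B0 F F.b = some (false, Kind.bishop) := by
  unfold fullB farB
  rw [if_neg, if_pos ⟨trivial, rfl⟩]
  rintro ⟨q, -, h⟩
  have h1 := (fba_q hT.geo (hq q)).1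
  rw [← h, hb] at h1
  simp only [FGeo.out] at h1
  omega

theorem bin_fs (hT : BinT G B0 R H A z J O) {F : Far} (hq : ∀ q, AtHome G F q) :
    FsOk H 11 O (fullB G B0 ⟨F.q, G.hb⟩) G.hb where
  occ := fba_full_hb hT (F := ⟨F.q, G.hb⟩) hq rfl
  k := ⟨by norm_num, by norm_num⟩
  out := by
    intro x y hx hy h
    have h1 := hT.hull (tsq O x y) (by
      refine ⟨?_, ?_, ?_, ?_⟩ <;> simp only [tsq] <;> omega)
    exact h1.2.2 h.symm

/-- the squares of the line -/
theorem bin_line (hT : BinT G B0 R H A z J O) {F : Far} (hq : ∀ q, AtHome G F q)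
    (hb : F.b = G.hb ∨ ∃ t : ℕ, 0 < t ∧ F.b = G.out t) {j : ℕ} (hj : 0 < j) (hJ : j ≤ J) :
    stepL O z 61 j = G.se (J - j) ∧ fullB G B0 F (stepL O z 61 j) =
      if j = J ∧ F.b = G.hb then some (false, Kind.bishop) else none := by
  obtain ⟨h1, h2⟩ := fba_st hT j
  refine ⟨?_, ?_⟩
  · refine Prod.ext ?_ ?_
    · rw [h1]; simp only [FGeo.se]; push_cast [hJ]; ring
    · rw [h2]; simp only [FGeo.se]; push_cast [hJ]; ring
  · split_ifs with h3
    · obtain ⟨rfl, h4⟩ := h3
      rw [fba_st_J hT]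
      exact fba_full_hb hT hq h4
    · rw [fba_low hT.geo hq]
      · exact hT.line.clear j hj hJ
      · rw [h2]
        have := hT.geo.hTD
        omega
      · intro h4
        rcases hb with hb | ⟨t, ht, hb⟩
        · apply h3
          refine ⟨?_, hb⟩
          rw [hb] at h4
          rw [h4] at h1
          simp only [FGeo.hb] at h1
          omega
        · rw [hb] at h4
          rw [h4] at h1 h2
          simp only [FGeo.out] at h1 h2
          omega

/-- the blocker behind the home -/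
theorem fba_blk (hT : BinT G B0 R H A z J O) {F : Far} (hq : ∀ q, AtHome G F q)
    (hb : F.b = G.hb ∨ ∃ t : ℕ, 0 < t ∧ F.b = G.out t) :
    ∃ κ, fullB G B0 F (stepL O z 61 (J + 1)) = some (false, κ) ∧ (κ = Kind.pawn ∨ κ = Kind.knight) := by
  obtain ⟨κ, h1, h2⟩ := hT.blk
  refine ⟨κ, ?_, h2⟩
  rw [fba_low hT.geo hq, fba_st_J1 hT]
  · exact h1
  · obtain ⟨-, h3⟩ := fba_st hT (J + 1)
    rw [h3]
    have := hT.geo.hTD
    push_cast
    omega
  · obtain ⟨h3, h4⟩ := fba_st hT (J + 1)
    intro h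
    rw [h] at h3 h4
    rcases hb with hb | ⟨t, ht, hb⟩ <;> rw [hb] at h3 h4
    · simp only [FGeo.hb] at h3
      push_cast at h3
      omega
    · simp only [FGeo.out] at h3
      push_cast at h3
      omega

theorem fba_blk2 (hT : BinT G B0 R H A z J O) {F : Far} (hq : ∀ q, AtHome G F q)
    (hb : F.b = G.hb ∨ ∃ t : ℕ, 0 < t ∧ F.b = G.out t) :
    ∃ m, fullB G B0 F (stepL O z 61 (J + 2)) = some m ∧ m.2 ≠ Kind.bishop ∧ m.2 ≠ Kind.queen := by
  obtain ⟨κ, h1, h2⟩ := hT.blk2
  refine ⟨κ, ?_, h2⟩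
  rw [fba_low hT.geo hq, fba_st_J2 hT]
  · exact h1
  · obtain ⟨-, h3⟩ := fba_st hT (J + 2)
    rw [h3]
    have := hT.geo.hTD
    push_cast
    omega
  · obtain ⟨h3, h4⟩ := fba_st hT (J + 2)
    intro h
    rw [h] at h3 h4
    rcases hb with hb | ⟨t, ht, hb⟩ <;> rw [hb] at h3 h4
    · simp only [FGeo.hb] at h3
      push_cast at h3
      omega
    · simp only [FGeo.out] at h3
      push_cast at h3
      omega

theorem fba_ray (hP : LineP B0 H 61 z J O X Y e m) (n : ℕ) :
    rayG 61 O X Y e n = stepL O z 61 (m + n) := by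
  unfold rayG
  rw [hP.hmark]
  unfold stepL
  rw [add_assoc, ← add_smul]

theorem fba_cray (hP : LineP B0 H 61 z J O X Y e m) {B : Board} {f : Sq} (n : ℕ) :
    (cxG 61 11 O X Y e B f).ray ⟨e, 61, 11⟩ n = stepL O z 61 (m + n) := fba_ray hP n

/-- the squares of a patch belong to the region of the tile -/
theorem fba_patch_reg (hP : LineP B0 H 61 z J O X Y e m) {c : Sq} (hc : InB (orgP O X Y) c) :
    c ∈ TileRegH H O := by
  obtain ⟨h1, h2, h3, h4⟩ := hc
  obtain ⟨h5, h6⟩ := hP.hX
  obtain ⟨h7, h8⟩ := hP.hY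
  simp only [orgP] at h1 h2 h3 h4
  refine ⟨?_, ?_, ?_, ?_⟩ <;> omega

/-- admissible contexts -/
theorem fba_ok (hT : BinT G B0 R H A z J O) (hP : LineP B0 H 61 z J O X Y e m) {B : Board} {f : Sq}
    (hk : ∀ c, NK (B c) c)
    (hl : ∀ j : ℕ, 0 < j → j ≤ J → B (stepL O z 61 j) = none)
    (hb : ∃ κ, B (stepL O z 61 (J + 1)) = some (false, κ) ∧ (κ = Kind.pawn ∨ κ = Kind.knight))
    {n : ℕ} (hn : 0 < n) (hnJ : m + n ≤ J) (hf : f = stepL O z 61 (m + n)) :
    (cxG 61 11 O X Y e B f).Ok where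
  noK := hk
  nodup := by simp [cxG]
  kind := by
    intro ρ hρ
    simp only [cxG, List.mem_singleton] at hρ
    subst hρ
    exact Or.inr ⟨fba_dir, Or.inl rfl⟩
  inner := by
    intro ρ hρ
    simp only [cxG, List.mem_singleton] at hρ
    subst hρ
    exact ⟨hP.inn, fun _ => hP.out⟩
  empty := by
    intro ρ hρ n' hn' hcl m' hm
    simp only [cxG, List.mem_singleton] at hρ
    subst hρ
    rw [fba_cray hP] at hm
    have hm' : B (stepL O z 61 (m + n')) = some m' := hm
    obtain ⟨κ, hκ1, hκ2⟩ := hb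
    have hmJ := hP.mJ
    have h1 : J < m + n' := by
      by_contra h
      rw [hl (m + n') (by omega) (by omega)] at hm'
      cases hm'
    have h2 : m + n' = J + 1 := by
      by_contra h
      have h3 := hcl (J + 1 - m) (by omega) (by omega)
      rw [fba_cray hP] at h3
      have h4 : B (stepL O z 61 (m + (J + 1 - m))) = none := h3
      rw [show m + (J + 1 - m) = J + 1 by omega, hκ1] at h4
      cases h4
    rw [h2, hκ1] at hm'
    have h3 : m' = (false, κ) := by simpa using hm'.symm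
    rw [h3]
    rcases hκ2 with rfl | rfl
    · exact Or.inl rfl
    · exact Or.inr (Or.inl rfl)
  far := by
    intro ρ hρ
    simp only [cxG, List.mem_singleton] at hρ
    subst hρ
    refine ⟨n, hn, ?_, fun i hi hin => ?_⟩
    · rw [fba_cray hP]
      simp only [cxG, if_true]
      exact hf
    · rw [fba_cray hP]
      exact hl _ (by omega) (by omega)
  disj := by
    intro ρ hρ ρ' hρ' hne
    simp only [cxG, List.mem_singleton] at hρ hρ'
    subst hρ
    subst hρ'
    exact absurd rfl hne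

theorem fba_nb (hT : BinT G B0 R H A z J O) {F : Far} (hb : ∃ t : ℕ, 0 < t ∧ F.b = G.out t) :
    F.b ≠ G.hb := by
  obtain ⟨t, ht, hb⟩ := hb
  rw [hb]
  intro h
  have := congrArg Prod.fst h
  simp only [FGeo.out, FGeo.hb] at this
  omega

/-- chunk FBA: the context before the event -/
theorem bin_ok0 (hT : BinT G B0 R H A z J O) (hP : LineP B0 H 61 z J O X Y e m) {F : Far}
    (hq : ∀ q, AtHome G F q) (hb : ∃ t : ℕ, 0 < t ∧ F.b = G.out t) :
    (cxG 61 11 O X Y e (fullB G B0 F) (rayG 61 O X Y e 1)).Ok := by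
  have hmJ := hP.mJ
  refine fba_ok hT hP (fba_noK hT) (fun j hj hjJ => ?_) (fba_blk hT hq (Or.inr hb)) one_pos
    (by omega) (fba_ray hP 1)
  rw [(bin_line hT hq (Or.inr hb) hj hjJ).2, if_neg]
  rintro ⟨-, h⟩
  exact fba_nb hT hb h

theorem fba_hb_ne (hT : BinT G B0 R H A z J O) {j : ℕ} (hj : stepL O z 61 j = G.hb) : j = J := by
  obtain ⟨h1, -⟩ := fba_st hT j
  rw [hj] at h1
  simp only [FGeo.hb] at h1
  omega

/-- chunk FBA: the context after the event -/
theorem bin_ok1 (hT : BinT G B0 R H A z J O) (hP : LineP B0 H 61 z J O X Y e m) {F : Far}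
    (hq : ∀ q, AtHome G F q) :
    (cxG 61 11 O X Y e (delB (fullB G B0 ⟨F.q, G.hb⟩) G.hb) G.hb).Ok := by
  have hmJ := hP.mJ
  refine fba_ok hT hP (fun c => ?_) (fun j hj hjJ => ?_) ?_ (n := J - m) (by omega)
    (by omega) ?_
  · unfold delB
    split_ifs
    · exact nk_none c
    · exact fba_noK hT c
  · unfold delB
    split_ifs with h
    · rfl
    · rw [(bin_line hT (F := ⟨F.q, G.hb⟩) hq (Or.inl rfl) hj hjJ).2, if_neg]
      rintro ⟨h1, -⟩
      rw [h1] at h
      exact h (fba_st_J hT)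
  · obtain ⟨κ, h1, h2⟩ := fba_blk hT (F := ⟨F.q, G.hb⟩) hq (Or.inl rfl)
    refine ⟨κ, ?_, h2⟩
    unfold delB
    rw [if_neg, h1]
    intro h
    have := fba_hb_ne hT h
    omega
  · rw [show m + (J - m) = J by omega, fba_st_J hT]

/-! ### the event -/

theorem fba_inP {C : Ctx} (ho : C.o = orgP O X Y) {p k : Nat} (hp : WF C p k) {d : Sq}
    (hd : d ∉ inP O X Y) : ¬ (InB C.o d ∧ cell p (idx C.o d) ≠ 15) := by
  rintro ⟨h1, h2⟩
  apply h2
  apply hp.margin _ (sq_idx h1).2
  intro hI
  apply hd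
  rw [ho] at h1 hI
  obtain ⟨a1, a2, a3, a4⟩ := h1
  obtain ⟨b1, b2, b3, b4⟩ := hI
  simp only [idx, orgP] at *
  refine ⟨?_, ?_, ?_, ?_⟩ <;> omega

theorem fba_sees {C : Ctx} {p k : Nat} (hp : WF C p k)
    (hs : see7 p k ⟨e, 61, 11⟩ = true) : cell p e = 7 ∧ ∃ n, Sees C p k 61 n e := by
  unfold see7 at hs
  rw [Bool.and_eq_true, TS1_beq, TS1_beq] at hs
  obtain ⟨h7, hfirst⟩ := hs
  simp only at h7 hfirst
  refine ⟨h7, ?_⟩
  obtain ⟨n', hS⟩ := first_spec hp hp.lt (by rw [hp.king]; decide)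
    (List.mem_append_right _ fba_dir) (by rw [hfirst, h7]; decide)
  rw [hfirst] at hS
  exact ⟨n', hS⟩

/-- the board outside of the known cells -/
theorem fba_brd {B : Board} {f : Sq} {p k : Nat} (_hp : WF (cxG 61 11 O X Y e B f) p k)
    (h7 : cell p e = 7) {c : Sq} (hc : ¬ (InB (cxG 61 11 O X Y e B f).o c ∧
      cell p (idx (cxG 61 11 O X Y e B f).o c) ≠ 15)) :
    (cxG 61 11 O X Y e B f).brd p c = B c := by
  rw [brd_out hc]
  · rfl
  · intro ρ hρ _
    simp only [cxG, List.mem_singleton] at hρ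
    subst hρ
    rw [h7]
    decide

theorem fba_st_notin (hP : LineP B0 H 61 z J O X Y e m) {j : ℕ} (hj : m < j) :
    stepL O z 61 j ∉ inP O X Y := by
  rw [hP.inn' j (by omega)]
  omega

theorem fba_move_none {B : Board} {a b s : Sq} (h : B.move a b s = none) (hs : B s ≠ none)
    (ha : B a ≠ none) : s = a := by
  by_contra hne
  unfold Board.move at h
  rw [if_neg hne] at h
  split_ifs at h
  · exact ha h
  · exact hs h

theorem bin_event (hT : BinT G B0 R H A z J O) (hP : LineP B0 H 61 z J O X Y e m) {F : Far}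
    (hq : ∀ q, AtHome G F q) (hb : ∃ t : ℕ, 0 < t ∧ F.b = G.out t) {C : Ctx}
    (hC : C = cxG 61 11 O X Y e (fullB G B0 F) (rayG 61 O X Y e 1)) {p k : Nat} (hp : WF C p k)
    (hs : see7 p k ⟨e, 61, 11⟩ = true) {a b : Sq} (hl : Legal (C.brd p) false a b)
    (hout : ¬ (InB C.o a ∧ cell p (idx C.o a) ≠ 15))
    (hh : Hit C ((C.brd p).move a b) ⟨e, 61, 11⟩) : a = F.b ∧ b = G.hb := by
  have hOk : C.Ok := by rw [hC]; exact bin_ok0 hT hP hq hb
  have hking := (kingAt hOk hp).1
  have ho : C.o = orgP O X Y := by rw [hC]; rfl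
  obtain ⟨h7, n', hS⟩ := fba_sees hp hs
  have hnb := fba_nb hT hb
  have hmJ := hP.mJ
  have hm0 := hP.hm
  have hbrd : ∀ c : Sq, ¬ (InB C.o c ∧ cell p (idx C.o c) ≠ 15) → C.brd p c = fullB G B0 F c := by
    subst hC
    intro c hc
    exact fba_brd hp h7 hc
  have hst : ∀ j : ℕ, m < j → C.brd p (stepL O z 61 j) = fullB G B0 F (stepL O z 61 j) := by
    intro j hj
    exact hbrd _ (fba_inP ho hp (fba_st_notin hP hj))
  have hfree : ∀ j : ℕ, m < j → j ≤ J → C.brd p (stepL O z 61 j) = none := by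
    intro j hj hjJ
    rw [hst j hj, (bin_line hT hq (Or.inr hb) (by omega) hjJ).2, if_neg]
    exact fun h => hnb h.2
  obtain ⟨κ1, hκ1, hκ1'⟩ := fba_blk hT hq (Or.inr hb)
  obtain ⟨m2, hm2, hm2b, hm2q⟩ := fba_blk2 hT hq (Or.inr hb)
  have hb1 : C.brd p (stepL O z 61 (J + 1)) = some (false, κ1) := by
    rw [hst _ (by omega)]; exact hκ1
  have hb2 : C.brd p (stepL O z 61 (J + 2)) = some m2 := by
    rw [hst _ (by omega)]; exact hm2
  have hray : ∀ i : ℕ, C.ray ⟨e, 61, 11⟩ i = stepL O z 61 (m + i) := by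
    intro i
    rw [hC]
    exact fba_cray hP i
  obtain ⟨m', hm', hcl, κ, hκm, hκ⟩ := hh
  rw [hray] at hκm
  have hcl' : ∀ i : ℕ, 0 < i → i < m' → (C.brd p).move a b (stepL O z 61 (m + i)) = none := by
    intro i hi him
    rw [← hray]
    exact hcl i hi him
  have hκ2 : κ = Kind.queen ∨ κ = Kind.bishop := by
    rcases hκ with h | ⟨h, -⟩ | ⟨-, h⟩
    · exact Or.inl h
    · exact absurd h (by show ¬ (61 : Nat) ∈ orT; decide)
    · exact Or.inr h
  have hκS : SlK κ 61 := hκ2.imp id fun h => Or.inr ⟨fba_dir, h⟩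
  obtain ⟨⟨ma, hma, hmac, hgo⟩, -⟩ := hl
  have hane : C.brd p a ≠ none := by rw [hma]; simp
  have hsa : stepL O z 61 (m + m') ≠ a := by
    intro he
    unfold Board.move at hκm
    rw [if_pos he] at hκm
    cases hκm
  have hkind1 : κ ≠ κ1 := by
    rcases hκ2 with rfl | rfl <;> rcases hκ1' with rfl | rfl <;> decide
  -- the moved piece arrives on the line
  have hsb : stepL O z 61 (m + m') = b := by
    by_contra hsb
    have h1 : C.brd p (stepL O z 61 (m + m')) = some (false, κ) := by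
      unfold Board.move at hκm
      rw [if_neg hsa, if_neg hsb] at hκm
      exact hκm
    have hJ1 : J < m + m' := by
      by_contra h
      rw [hfree _ (by omega) (by omega)] at h1
      cases h1
    have hJ2 : m + m' ≠ J + 1 := by
      intro h
      rw [h, hb1] at h1
      simp only [Option.some.injEq, Prod.mk.injEq, true_and] at h1
      exact hkind1 h1.symm
    have h2 : stepL O z 61 (J + 1) = a := by
      refine fba_move_none (b := b) ?_ (by rw [hb1]; simp) hane
      have := hcl' (J + 1 - m) (by omega) (by omega)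
      rwa [show m + (J + 1 - m) = J + 1 by omega] at this
    by_cases hJ3 : m + m' = J + 2
    · rw [hJ3, hb2] at h1
      have h3 : m2 = (false, κ) := by simpa using h1
      rcases hκ2 with rfl | rfl
      · exact hm2q (by rw [h3])
      · exact hm2b (by rw [h3])
    · have h3 : stepL O z 61 (J + 2) = a := by
        refine fba_move_none (b := b) ?_ (by rw [hb2]; simp) hane
        have := hcl' (J + 2 - m) (by omega) (by omega)
        rwa [show m + (J + 2 - m) = J + 2 by omega] at this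
      have h4 := (fba_st hT (J + 1)).1
      have h5 := (fba_st hT (J + 2)).1
      rw [h2] at h4
      rw [h3] at h5
      push_cast at h4 h5
      omega
  have hMa : C.brd p a = some (false, κ) := by
    unfold Board.move at hκm
    rw [if_neg hsa, if_pos hsb] at hκm
    exact hκm
  have hma' : ma = (false, κ) := by
    rw [hma] at hMa
    simpa using hMa
  subst hma'
  have hatt : ManAttacks (C.brd p) (false, κ) a b := by
    rcases hgo with ⟨-, h⟩ | ⟨-, h⟩
    · rw [if_neg] at h
      · exact h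
      · rcases hκ2 with rfl | rfl <;> decide
    · exact h
  have hbn : ∀ κ', C.brd p b ≠ some (false, κ') := by
    intro κ' h
    rcases hgo with ⟨h1, -⟩ | ⟨⟨t', h1, h2, -⟩, -⟩
    · rw [h] at h1; cases h1
    · rw [h] at h1
      have h3 : t' = (false, κ') := by simpa using h1.symm
      rw [h3] at h2
      simp at h2
  -- the target is not beyond the home
  have hNJ : m + m' ≤ J := by
    by_contra h
    by_cases h1 : m + m' = J + 1
    · rw [← hsb, h1] at hbn
      exact hbn _ hb1
    · have h2 : stepL O z 61 (J + 1) = a := by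
        refine fba_move_none (b := b) ?_ (by rw [hb1]; simp) hane
        have := hcl' (J + 1 - m) (by omega) (by omega)
        rwa [show m + (J + 1 - m) = J + 1 by omega] at this
      rw [← h2, hb1] at hMa
      simp only [Option.some.injEq, Prod.mk.injEq, true_and] at hMa
      exact hkind1 hMa.symm
  obtain ⟨hbx, hby⟩ := fba_st hT (m + m')
  rw [hsb] at hbx hby
  obtain ⟨u, hu, hSu, l, hl0, hal, hcb⟩ := MD1_line hκS hatt
  have hax : a.1 = b.1 + l * (vec u).1 := by rw [hal, add_nsmul_fst]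
  have hay : a.2 = b.2 + l * (vec u).2 := by rw [hal, add_nsmul_snd]
  have hfa := hMa
  rw [hbrd a hout] at hfa
  have hTD := hT.geo.hTD
  have hfa' := hfa
  unfold fullB farB at hfa'
  split_ifs at hfa' with g1 g2 g3
  · -- a queen at home
    exfalso
    obtain ⟨q, -, haq⟩ := g1
    obtain ⟨q1, q2, q3⟩ := fba_q hT.geo (hq q)
    rw [← haq] at q1 q2 q3
    simp only [orT, diT, List.mem_append, List.mem_cons, List.not_mem_nil, or_false] at hu
    push_cast at hbx hby
    rcases hu with (h | h | h | h) | (h | h | h | h) <;> subst h <;>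
      simp only [vec] at hax hay <;> norm_num at hax hay <;> omega
  · -- the bishop
    have hκb : κ = Kind.bishop := by
      simp only [Option.some.injEq, Prod.mk.injEq, true_and] at hfa'
      exact hfa'.symm
    subst hκb
    obtain ⟨t, ht, hbt⟩ := hb
    refine ⟨g2.2, ?_⟩
    have hdi : u ∈ diT := by
      rcases hSu with h | ⟨-, h⟩ | ⟨h, -⟩
      · cases h
      · cases h
      · exact h
    have e1 : a.1 = G.xD + t := by rw [g2.2, hbt]; rfl
    have e2 : a.2 = G.X0 - 2 - G.xD + t := by rw [g2.2, hbt]; rfl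
    have hJm : m + m' = J := by
      simp only [diT, List.mem_cons, List.not_mem_nil, or_false] at hdi
      push_cast at hbx hby
      rcases hdi with h | h | h | h <;> subst h <;>
        simp only [vec] at hax hay <;> norm_num at hax hay <;> omega
    rw [← hsb, hJm, fba_st_J hT]
  · exfalso
    simp only [Option.some.injEq, Prod.mk.injEq, true_and] at hfa'
    rcases hκ2 with rfl | rfl <;> cases hfa'
  · -- a static slider
    exfalso
    have hmv : vec 23 = -vec 61 := by decide
    have hbe : b = sq (orgP O X Y) e + m' • vec 61 := by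
      rw [← hsb, ← fba_ray hP m']
      rfl
    by_cases hu1 : u = 61
    · subst hu1
      have hal' : a = stepL O z 61 (m + m' + l) := by
        rw [hal, ← hsb]
        unfold stepL
        rw [add_assoc, ← add_smul]
      by_cases h1 : m + m' + l ≤ J
      · rw [hal', hfree _ (by omega) h1] at hMa
        cases hMa
      · by_cases h2 : m + m' + l = J + 1
        · rw [hal', h2, hb1] at hMa
          simp only [Option.some.injEq, Prod.mk.injEq, true_and] at hMa
          exact hkind1 hMa.symm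
        · have h3 := hcb (J + 1 - (m + m')) (by omega) (by omega)
          have h4 : b + (J + 1 - (m + m')) • vec 61 = stepL O z 61 (J + 1) := by
            rw [← hsb]
            unfold stepL
            rw [add_assoc, ← add_smul]
            congr 2
            omega
          rw [h4, hb1] at h3
          cases h3
    · by_cases hu2 : u + 61 = 84
      · have hu3 : u = 23 := by omega
        subst hu3
        rw [hmv] at hal hcb
        have hke : sq (orgP O X Y) e = sq C.o k + n' • vec 61 := by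
          rw [← ho]; exact hS.eq
        have hlt : e < 400 := hS.lt
        rcases lt_trichotomy l m' with hlm | hlm | hlm
        · have h1 : a = stepL O z 61 (m + (m' - l)) := by
            rw [hal, ← hsb]
            unfold stepL
            obtain ⟨d, rfl⟩ : ∃ d, m' = l + d := ⟨m' - l, by omega⟩
            rw [show m + (l + d - l) = m + d by omega, show m + (l + d) = (m + d) + l by omega,
              add_smul (m + d) l, smul_neg]
            abel
          rw [h1, hfree _ (by omega) (by omega)] at hMa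
          cases hMa
        · have h1 : a = sq C.o e := by
            rw [hal, hbe, ho, hlm, smul_neg]
            abel
          apply hout
          rw [h1, idx_sq _ hlt, h7]
          exact ⟨inB_sq _ hlt, by decide⟩
        · rcases lt_trichotomy l (m' + n') with h2 | h2 | h2
          · obtain ⟨c, hc, hc0, hce⟩ := hS.clear (m' + n' - l) (by omega) (by omega)
            have h3 : a = sq C.o c := by
              rw [hce, hal, hbe, hke]
              obtain ⟨d, hd⟩ : ∃ d, m' + n' = l + d := ⟨m' + n' - l, by omega⟩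
              rw [show m' + n' - l = d by omega]
              have h4 : m' • vec 61 + n' • vec 61 = l • vec 61 + d • vec 61 := by
                rw [← add_smul, ← add_smul, hd]
              rw [smul_neg]
              calc sq C.o k + n' • vec 61 + m' • vec 61 + -(l • vec 61)
                  = sq C.o k + (m' • vec 61 + n' • vec 61) - l • vec 61 := by abel
                _ = sq C.o k + d • vec 61 := by rw [h4]; abel
            rw [h3, brd_sq _ hc (by rw [hc0]; decide), hc0] at hMa
            cases hMa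
          · have h3 : a = sq C.o k := by
              rw [hal, hbe, hke, h2, smul_neg, add_smul]
              abel
            rw [h3, hking] at hMa
            simp at hMa
          · have h3 := hcb (m' + n') (by omega) h2
            have h4 : b + (m' + n') • -vec 61 = sq C.o k := by
              rw [hbe, hke, smul_neg, add_smul]
              abel
            rw [h4, hking] at h3
            cases h3
      · obtain ⟨i, hi, hil, hin, hi0⟩ := hP.closed (m + m') (by omega) hNJ u hu hu1 hu2 l κ hl0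
          (by rw [hsb, ← hal]; exact hfa') hSu hκS
        rw [hsb] at hin hi0
        have h3 := hcb i hi hil
        rw [hbrd _ (fba_inP ho hp hin), fullB_none] at h3
        exact hi0 h3.2

/-- the board without the bishop -/
theorem fba_del (hT : BinT G B0 R H A z J O) (hJ : 0 < J) {F : Far} (hq : ∀ q, AtHome G F q)
    (hb : ∃ t : ℕ, 0 < t ∧ F.b = G.out t) :
    (fun c => if c = F.b then none else fullB G B0 F c) =
      delB (fullB G B0 ⟨F.q, G.hb⟩) G.hb := by
  have hnb := fba_nb hT hb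
  obtain ⟨t, ht, hbt⟩ := hb
  have h0 : B0 G.hb = none := by
    rw [← fba_st_J hT]
    exact hT.line.clear J hJ le_rfl
  funext c
  unfold delB
  by_cases h1 : c = F.b
  · rw [if_pos h1, if_neg (by rw [h1]; exact hnb), eq_comm]
    rw [fba_eq, h1, hbt]
    · exact hT.wor.zone _ (out_zone hT.geo ht)
    · intro q h
      have h2 := (fba_q hT.geo (hq q)).1
      have h3 : (F.q q).1 = G.xD + t := by
        have h4 : c = F.q q := h
        rw [← h4, h1, hbt]
        rfl
      omega
    · rw [h1]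
      exact hnb
    · intro hf
      have h2 := (fba_fl hT.geo hf).1
      rw [h1, hbt] at h2
      simp only [FGeo.out] at h2
      omega
  · rw [if_neg h1]
    by_cases h2 : c = G.hb
    · rw [if_pos h2, h2, fba_low hT.geo hq, h0]
      · have := hT.geo.hTD
        simp only [FGeo.hb]
        omega
      · exact hnb.symm
    · rw [if_neg h2]
      unfold fullB farB
      simp only [h1, h2, and_false, if_false]

/-- the board after the event: the mark becomes `8` -/
theorem bin_brd (hT : BinT G B0 R H A z J O) (hP : LineP B0 H 61 z J O X Y e m) {F : Far}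
    (hq : ∀ q, AtHome G F q) (hb : ∃ t : ℕ, 0 < t ∧ F.b = G.out t) {p k : Nat}
    (hp : WF (cxG 61 11 O X Y e (fullB G B0 F) (rayG 61 O X Y e 1)) p k) (h7 : cell p e = 7) :
    (cxG 61 11 O X Y e (delB (fullB G B0 ⟨F.q, G.hb⟩) G.hb) G.hb).brd (arr' p e) =
      ((cxG 61 11 O X Y e (fullB G B0 F) (rayG 61 O X Y e 1)).brd p).move F.b G.hb := by
  have hmJ := hP.mJ
  have hnb := fba_nb hT hb
  have hC := bin_ok0 hT hP hq hb
  have hρ : (⟨e, 61, 11⟩ : Ray) ∈ (cxG 61 11 O X Y e (fullB G B0 F) (rayG 61 O X Y e 1)).R :=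
    List.mem_singleton.2 rfl
  have hray : (cxG 61 11 O X Y e (fullB G B0 F) (rayG 61 O X Y e 1)).ray ⟨e, 61, 11⟩ (J - m) =
      G.hb := by
    rw [fba_cray hP, show m + (J - m) = J by omega, fba_st_J hT]
  have harr : (cxG 61 11 O X Y e (fullB G B0 F) (rayG 61 O X Y e 1)).arr F.b e G.hb =
      cxG 61 11 O X Y e (delB (fullB G B0 ⟨F.q, G.hb⟩) G.hb) G.hb := by
    unfold Ctx.arr cxG
    rw [← fba_del hT (by omega) hq hb]
    congr 1
    funext i
    show (if i = e then G.hb else if i = e then rayG 61 O X Y e 1 else (0, 0)) =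
      if i = e then G.hb else (0, 0)
    split_ifs <;> rfl
  have hout : ¬ (InB (cxG 61 11 O X Y e (fullB G B0 F) (rayG 61 O X Y e 1)).o F.b ∧
      cell p (idx (cxG 61 11 O X Y e (fullB G B0 F) (rayG 61 O X Y e 1)).o F.b) ≠ 15) := by
    rintro ⟨h1, -⟩
    have h2 := hT.hull _ (fba_patch_reg hP h1)
    obtain ⟨t, ht, hbt⟩ := hb
    apply h2.2.1
    rw [hbt]
    exact out_zone hT.geo ht
  have key := brd_arr hC hp hρ h7 (a := F.b) hout (by
      intro ρ' hρ' _
      rw [List.mem_singleton.1 hρ']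
      show cell p e ≠ 8
      rw [h7]
      decide) (by
      obtain ⟨t, ht, hbt⟩ := hb
      exact fba_full_out hT hq hbt) (n := J - m) (by omega) (by
      rw [hray]
      exact hnb) (by
      rw [hray]
      show ((cxG 61 11 O X Y e (fullB G B0 F) (rayG 61 O X Y e 1)).arr F.b e G.hb).Ok
      rw [harr]
      exact bin_ok1 hT hP hq)
  rw [hray] at key
  have h2 := key.2
  have h3 : (cxG 61 11 O X Y e (fullB G B0 F) (rayG 61 O X Y e 1)).arr F.b
      (⟨e, 61, 11⟩ : Ray).e G.hb =
    cxG 61 11 O X Y e (delB (fullB G B0 ⟨F.q, G.hb⟩) G.hb) G.hb := harr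
  rw [h3] at h2
  rw [arr'_eq]
  exact h2

/-! ### the families -/

/-- nobody comes to the mark from a direction in which the patch ends -/
theorem fba_edge (hT : BinT G B0 R H A z J O) (hP : LineP B0 H 61 z J O X Y e m) {B : Board}
    {f : Sq} (hBB : ∀ c ∈ TileRegH H O, B c = B0 c) {p k : Nat}
    (hp : WF (cxG 61 11 O X Y e B f) p k) (h7 : cell p e = 7) (a : Sq) :
    ¬ Edge' (cxG 61 11 O X Y e B f) p ⟨e, 61, 11⟩ a := by
  rintro ⟨u, hu, hne, hin, l, hl, ha, hcl, κ, hB, hκ⟩
  have hne' : u ≠ 61 := hne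
  have hin' : ¬ Inner (stp u e) := hin
  obtain ⟨m', hm, hm2⟩ := hP.edge u hu hne' hin'
  obtain ⟨hlt, hsq⟩ := stp_inner (List.mem_append_left knT hu) hP.inn
  have hsq' := hsq (orgP O X Y)
  have hInB : InB (orgP O X Y) (sq (orgP O X Y) e + vec u) := by
    rw [← hsq']
    exact inB_sq _ hlt
  have hreg := fba_patch_reg hP hInB
  have hbrd : (cxG 61 11 O X Y e B f).brd p (sq (orgP O X Y) e + vec u) = some m' := by
    rw [fba_brd hp h7, hBB _ hreg]
    · exact hm
    · rintro ⟨-, h2⟩
      apply h2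
      show cell p (idx (orgP O X Y) (sq (orgP O X Y) e + vec u)) = 15
      rw [← hsq', idx_sq _ hlt]
      exact hp.margin _ hlt hin'
  by_cases hl1 : l = 1
  · subst hl1
    rw [one_smul] at ha
    have ha' : a = sq (orgP O X Y) e + vec u := ha
    rw [ha', hbrd] at hB
    have h3 : m' = (false, κ) := by simpa using hB
    rw [h3] at hm2
    rcases hκ with rfl | ⟨-, rfl⟩ | ⟨-, rfl⟩ <;> rcases hm2 with h4 | h4 <;> cases h4
  · have h3 := hcl 1 one_pos (by omega)
    rw [one_smul] at h3
    have h4 : (cxG 61 11 O X Y e B f).brd p (sq (orgP O X Y) e + vec u) = none := h3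
    rw [hbrd] at h4
    cases h4

theorem fba_rs (hP : LineP B0 H 61 z J O X Y e m) : rsK 61 11 e = [⟨e, 61, 11⟩] := by
  unfold rsK
  have h1 : Nat.beq e 0 = false := by
    rw [← Bool.not_eq_true]
    intro h
    have h2 := Nat.eq_of_beq_eq_true h
    have h3 := hP.inn
    unfold Inner at h3
    omega
  rw [h1]
  rfl

/-- the first square beyond the mark belongs to the patch -/
theorem fba_ray1 (hP : LineP B0 H 61 z J O X Y e m) :
    InB (orgP O X Y) (rayG 61 O X Y e 1) := by
  obtain ⟨h2, h3, h4, h5⟩ := hP.inn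
  unfold rayG
  rw [one_smul, fba_vec]
  refine ⟨?_, ?_, ?_, ?_⟩ <;> simp only [sq, Prod.fst_add, Prod.snd_add] <;> omega

/-- the room is away -/
theorem fba_sep (hT : BinT G B0 R H A z J O) (hP : LineP B0 H 61 z J O X Y e m) {B : Board}
    {f : Sq} (hf : f ∉ R.Z) : R.Sep (cxG 61 11 O X Y e B f) where
  patch := fun c hc => hT.reg c (fba_patch_reg hP hc)
  far := by
    intro ρ hρ
    simp only [cxG, List.mem_singleton] at hρ
    subst hρ
    simp only [cxG, if_true]
    exact hf

theorem fba_hbZ (hT : BinT G B0 R H A z J O) : G.hb ∉ R.Z := fun h => (hT.hullZ _ h).2.2 rfl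

/-- the mating threat of the room -/
theorem fba_G (hT : BinT G B0 R H A z J O) (hP : LineP B0 H 61 z J O X Y e m) {F : Far}
    (hq : ∀ q, AtHome G F q) (p : Nat) :
    R.G ((cxG 61 11 O X Y e (delB (fullB G B0 ⟨F.q, G.hb⟩) G.hb) G.hb).brd p) := by
  refine R.dep (fullB G B0 ⟨F.q, G.hb⟩) _ (fun c hc => ?_)
    (bin_bd hT (F := ⟨F.q, G.hb⟩) hq (Or.inl rfl)).G
  have h1 : ¬ InB (orgP O X Y) c := fun h => hT.reg c (fba_patch_reg hP h) hc
  have h2 : c ≠ G.hb := by
    rintro rfl
    exact fba_hbZ hT hc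
  unfold Ctx.brd
  rw [if_neg (fun h => h1 h.1)]
  have h3 : (cxG 61 11 O X Y e (delB (fullB G B0 ⟨F.q, G.hb⟩) G.hb) G.hb).R.find? (fun ρ =>
      decide (c = (cxG 61 11 O X Y e (delB (fullB G B0 ⟨F.q, G.hb⟩) G.hb) G.hb).f ρ.e ∧
        cell p ρ.e = 8)) = none := by
    rw [List.find?_eq_none]
    intro ρ hρ
    simp only [cxG, List.mem_singleton] at hρ
    subst hρ
    simp [cxG, h2]
  rw [h3]
  show _ = delB (fullB G B0 ⟨F.q, G.hb⟩) G.hb c
  unfold delB
  rw [if_neg h2]

theorem fba_BB0 (hT : BinT G B0 R H A z J O) {F : Far} (hq : ∀ q, AtHome G F q)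
    (hb : ∃ t : ℕ, 0 < t ∧ F.b = G.out t) : ∀ c ∈ TileRegH H O, fullB G B0 F c = B0 c :=
  fun c hc => bin_hull hT hq (Or.inr hb) (hT.hull c hc)

theorem fba_BB1 (hT : BinT G B0 R H A z J O) {F : Far} (hq : ∀ q, AtHome G F q) :
    ∀ c ∈ TileRegH H O, delB (fullB G B0 ⟨F.q, G.hb⟩) G.hb c = B0 c := by
  intro c hc
  unfold delB
  rw [if_neg (hT.hull c hc).2.2]
  exact bin_hull hT (F := ⟨F.q, G.hb⟩) hq (Or.inl rfl) (hT.hull c hc)

theorem fba_see7 {p k : Nat} (hs : see7 p k ⟨e, 61, 11⟩ = true) : cell p e = 7 := by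
  unfold see7 at hs
  exact Nat.eq_of_beq_eq_true (Bool.and_eq_true_iff.1 hs).1

/-- chunk FBA: **phase 0** -/
theorem bin_fam0 (hT : BinT G B0 R H A z J O) (hP : LineP B0 H 61 z J O X Y e m) {F : Far}
    (hq : ∀ q, AtHome G F q) (hb : ∃ t : ℕ, 0 < t ∧ F.b = G.out t) :
    Family R PW (rsK 61 11 e) (K0 61 11 O X Y e (fullB G B0 F) (WBin G B0 F)) := by
  rw [fba_rs hP]
  refine ⟨?_, ?_, ?_, ?_, ?_, ?_⟩
  · rintro n C (⟨-, rfl⟩ | ⟨-, B, f, ⟨rfl, rfl⟩, rfl⟩)
    · exact bin_ok0 hT hP hq hb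
    · exact bin_ok1 hT hP hq
  · rintro n C (⟨-, rfl⟩ | ⟨-, B, f, ⟨rfl, rfl⟩, rfl⟩) <;> rfl
  · rintro n C (⟨-, rfl⟩ | ⟨-, B, f, ⟨rfl, rfl⟩, rfl⟩)
    · exact fba_sep hT hP (hT.reg _ (fba_patch_reg hP (fba_ray1 hP)))
    · exact fba_sep hT hP (fba_hbZ hT)
  · intro n C p k a b ρ hρ hK hp hG hs hl hout hh
    rw [List.mem_singleton.1 hρ] at hs hh ⊢
    refine ⟨rfl, fun h => absurd h (by decide), fun n' hn' => ?_⟩
    rcases hK with ⟨hn, hCeq⟩ | ⟨hn, -⟩
    · obtain ⟨e1, e2⟩ := bin_event hT hP hq hb hCeq hp hs hl hout hh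
      subst hCeq
      have h7 := fba_see7 hs
      have hbd := bin_brd hT hP hq hb hp h7
      rw [← e1, ← e2] at hbd
      rw [e2] at hbd
      refine ⟨_, Or.inr ⟨by omega, fullB G B0 ⟨F.q, G.hb⟩, G.hb, ⟨rfl, rfl⟩, rfl⟩, ?_, ?_⟩
      · rw [e2]; exact hbd
      · rw [e2, ← hbd]
        exact fba_G hT hP hq _
    · omega
  · intro n C p k ρ hρ hK hp hG hs a hl
    rw [List.mem_singleton.1 hρ] at hs hl ⊢
    have h7 := fba_see7 hs
    rcases hK with ⟨-, rfl⟩ | ⟨-, B, f, ⟨rfl, rfl⟩, rfl⟩
    · exact fba_edge hT hP (fba_BB0 hT hq hb) hp h7 a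
    · exact fba_edge hT hP (fba_BB1 hT hq) hp h7 a
  · intro h
    exact absurd h (by decide)

/-- chunk FBA: **phase 1** -/
theorem bin_fam1 (hT : BinT G B0 R H A z J O) (hP : LineP B0 H 61 z J O X Y e m) {F : Far}
    (hq : ∀ q, AtHome G F q) :
    Family R PW (rsK 61 11 e) (K1 61 11 O X Y e (fullB G B0 ⟨F.q, G.hb⟩) G.hb) := by
  rw [fba_rs hP]
  refine ⟨?_, ?_, ?_, ?_, ?_, ?_⟩
  · rintro n C ⟨-, rfl⟩
    exact bin_ok1 hT hP hq
  · rintro n C ⟨-, rfl⟩
    rfl
  · rintro n C ⟨-, rfl⟩
    exact fba_sep hT hP (fba_hbZ hT)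
  · intro n C p k a b ρ hρ hK hp hG hs hl hout hh
    rw [List.mem_singleton.1 hρ] at hs hh ⊢
    refine ⟨rfl, fun h => absurd h (by decide), fun n' hn' => ?_⟩
    obtain ⟨hn, -⟩ := hK
    omega
  · intro n C p k ρ hρ hK hp hG hs a hl
    rw [List.mem_singleton.1 hρ] at hs hl ⊢
    have h7 := fba_see7 hs
    obtain ⟨-, rfl⟩ := hK
    exact fba_edge hT hP (fba_BB1 hT hq) hp h7 a
  · intro h
    exact absurd h (by decide)

/-! ### moves with a state -/

theorem fba_stB_out {B : Board} {L : List Pc} (hL : ∀ q ∈ L, tsq O q.x q.y ∈ TileRegH H O) {c : Sq}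
    (hc : c ∉ TileRegH H O) : stB B O L c = B c := by
  unfold stB
  have h : L.find? (fun q => decide (tsq O q.x q.y = c)) = none := by
    rw [List.find?_eq_none]
    intro q hq
    simp only [decide_eq_true_eq]
    intro h
    exact hc (h ▸ hL q hq)
  rw [h]

/-- chunk FBA: the move home is possible -/
theorem bin_mv (hT : BinT G B0 R H A z J O) (hJ : 0 < J) {F : Far} (hB : FBase G F)
    (hq : ∀ q, AtHome G F q) (hb : ∃ t : ℕ, 0 < t ∧ F.b = G.out t) (L : List Pc)
    (hL : ∀ q ∈ L, tsq O q.x q.y ∈ TileRegH H O) :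
    CanGo (stB (fullB G B0 F) O L) false F.b G.hb ∧
      (stB (fullB G B0 F) O L).move F.b G.hb = stB (fullB G B0 ⟨F.q, G.hb⟩) O L := by
  have hnb := fba_nb hT hb
  have h0 : B0 G.hb = none := by
    rw [← fba_st_J hT]
    exact hT.line.clear J hJ le_rfl
  have hdel := fba_del hT hJ hq hb
  obtain ⟨t, ht, hbt⟩ := hb
  have hout : ∀ i : ℕ, 0 < i → G.out i ∉ TileRegH H O := fun i hi h =>
    (hT.hull _ h).2.1 (out_zone hT.geo hi)
  have hhb : G.hb ∉ TileRegH H O := fun h => (hT.hull _ h).2.2 rfl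
  have hFb : F.b ∉ TileRegH H O := by rw [hbt]; exact hout t ht
  have hBb : fullB G B0 F F.b = some (false, Kind.bishop) := fba_full_out hT hq hbt
  have hfree : ∀ i : ℕ, 0 < i → i < t → fullB G B0 F (G.out i) = none := by
    intro i hi hit
    rw [fba_eq]
    · exact hT.wor.zone _ (out_zone hT.geo hi)
    · intro q h
      have h2 := (fba_q hT.geo (hq q)).1
      rw [← h] at h2
      simp only [FGeo.out] at h2
      omega
    · rw [hbt]
      intro h
      have := congrArg Prod.fst h
      simp only [FGeo.out] at this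
      omega
    · intro hf
      have h2 := (fba_fl hT.geo hf).1
      simp only [FGeo.out] at h2
      omega
  have hhbF : fullB G B0 F G.hb = none := by
    rw [fba_low hT.geo hq _ hnb.symm, h0]
    have := hT.geo.hTD
    simp only [FGeo.hb]
    omega
  refine ⟨⟨(false, Kind.bishop), ?_, rfl, Or.inl ⟨?_, ?_⟩⟩, ?_⟩
  · rw [fba_stB_out hL hFb]
    exact hBb
  · rw [fba_stB_out hL hhb]
    exact hhbF
  · rw [if_neg (by decide)]
    show Slides (stB (fullB G B0 F) O L) diagDirs F.b G.hb
    refine ⟨(-1, -1), by decide, t, ht, ?_, ?_⟩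
    · rw [hbt]
      refine Prod.ext ?_ ?_
      · rw [add_nsmul_fst]; simp only [FGeo.out, FGeo.hb]; ring
      · rw [add_nsmul_snd]; simp only [FGeo.out, FGeo.hb]; ring
    · intro i hi hit
      have h1 : F.b + i • ((-1, -1) : Sq) = G.out (t - i) := by
        rw [hbt]
        refine Prod.ext ?_ ?_
        · rw [add_nsmul_fst]; simp only [FGeo.out]; push_cast [hit.le]; ring
        · rw [add_nsmul_snd]; simp only [FGeo.out]; push_cast [hit.le]; ring
      rw [h1, fba_stB_out hL (hout _ (by omega))]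
      exact hfree _ (by omega) (by omega)
  · funext c
    unfold Board.move
    by_cases h1 : c = F.b
    · rw [if_pos h1, h1, fba_stB_out hL hFb]
      have h2 := congrFun hdel F.b
      simp only [if_true] at h2
      rw [h2]
      unfold delB
      rw [if_neg hnb]
    · rw [if_neg h1]
      by_cases h2 : c = G.hb
      · rw [if_pos h2, h2, fba_stB_out hL hFb, fba_stB_out hL hhb, hBb]
        exact (fba_full_hb hT (F := ⟨F.q, G.hb⟩) hq rfl).symm
      · rw [if_neg h2]
        unfold stB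
        have h3 := congrFun hdel c
        simp only [if_neg h1] at h3
        unfold delB at h3
        rw [if_neg h2] at h3
        rw [h3]

theorem fba_white {F : Far} {a : Sq} {κ : Kind} (h : fullB G B0 F a = some (true, κ)) :
    B0 a = some (true, κ) := farB_white h

/-- chunk FBA: no White piece can go to the line, nor capture the bishop -/
theorem bin_far (hT : BinT G B0 R H A z J O)
    (hw : ∀ j : ℕ, 0 < j → j ≤ J → ∀ a κ, B0 a = some (true, κ) → WNo B0 κ a (stepL O z 61 j))
    {F : Far} (hq : ∀ q, AtHome G F q) (L : List Pc)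
    (hL : ∀ q ∈ L, (9 ≤ q.c ∧ q.c ≤ 13) ∨ q.c = 6) (y : Sq) (l m : ℕ)
    (hf : G.hb = sqA O z + m • vec 61) (h0 : 0 < l) (hlm : l ≤ m)
    (hk : stB (fullB G B0 ⟨F.q, G.hb⟩) O L y ≠ some (true, Kind.king))
    (he : ∀ i : ℕ, 0 < i → i < m →
      stB (fullB G B0 ⟨F.q, G.hb⟩) O L (sqA O z + i • vec 61) = none) :
    ¬ CanGo (stB (fullB G B0 ⟨F.q, G.hb⟩) O L) true y (sqA O z + l • vec 61) := by
  have hmJ : m = J := fba_hb_ne hT (j := m) hf.symm
  subst hmJ
  have hB0hb : B0 G.hb = none := by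
    rw [← fba_st_J hT]
    exact hT.line.clear m (by omega) le_rfl
  rintro ⟨⟨c, κ⟩, hm, hc, hgo⟩
  simp only at hc
  subst hc
  have hdec : ∀ c : Nat, (9 ≤ c ∧ c ≤ 13) ∨ c = 6 → dec c ≠ none := by
    rintro c (⟨h1, h2⟩ | rfl)
    · interval_cases c <;> decide
    · decide
  -- an empty square
  have hemp : ∀ d : Sq, stB (fullB G B0 ⟨F.q, G.hb⟩) O L d = none → B0 d = none := by
    intro d hd
    unfold stB at hd
    split at hd
    · rename_i q hfind
      exact absurd hd (hdec _ (hL q (List.mem_of_find?_eq_some hfind)))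
    · exact (fullB_none.1 hd).2
  have hy : B0 y = some (true, κ) := by
    have hm' := hm
    unfold stB at hm'
    split at hm'
    · rename_i q hfind
      rcases hL q (List.mem_of_find?_eq_some hfind) with ⟨h1, h2⟩ | h1
      · exfalso
        have : ∀ c : Nat, 9 ≤ c ∧ c ≤ 13 → ∀ κ, dec c ≠ some (true, κ) := by
          rintro c ⟨h1, h2⟩ κ
          interval_cases c <;> simp [dec]
        exact this _ ⟨h1, h2⟩ _ hm'
      · exfalso
        rw [h1] at hm'
        have h2 : κ = Kind.king := by simpa [dec] using hm'.symm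
        rw [h2] at hm
        exact hk hm
    · exact farB_white hm'
  have hst := hw l h0 hlm y κ hy
  have hfold : sqA O z + l • vec 61 = stepL O z 61 l := rfl
  rw [hfold] at hgo
  have hatt : (∀ c, BetwI y (stepL O z 61 l) c → stB (fullB G B0 ⟨F.q, G.hb⟩) O L c = none) →
      (∃ d, BetwI y (stepL O z 61 l) d ∧ B0 d ≠ none) → False := by
    rintro h1 ⟨d, h2, h3⟩
    exact h3 (hemp d (h1 d h2))
  cases κ with
  | king => exact hst
  | knight =>
    rcases hgo with ⟨-, hgo⟩ | ⟨-, hgo⟩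
    · rw [if_neg (by decide)] at hgo; exact hst hgo
    · exact hst hgo
  | pawn =>
    rcases hgo with ⟨-, hgo⟩ | ⟨⟨m', hm1, hm2, -⟩, hgo⟩
    · rw [if_pos rfl] at hgo
      exact hst.1 hgo
    · have hlJ : l = m := by
        by_contra hne
        have h1 := he l h0 (by omega)
        rw [hfold] at h1
        rw [h1] at hm1
        cases hm1
      subst hlJ
      rw [fba_st_J hT] at hgo
      have hgo' : G.hb - y = (1, 1) ∨ G.hb - y = (-1, 1) := hgo
      rcases hgo' with hgo' | hgo'
      · apply hT.whiteH.2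
        have : G.hb + (-1, -1) = y := by
          have h1 : y = G.hb - (1, 1) := by rw [← hgo']; abel
          rw [h1]
          refine Prod.ext ?_ ?_ <;> simp <;> ring
        rw [this]
        exact hy
      · apply hT.whiteH.1
        have : G.hb + (1, -1) = y := by
          have h1 : y = G.hb - (-1, 1) := by rw [← hgo']; abel
          rw [h1]
          refine Prod.ext ?_ ?_ <;> simp <;> ring
        rw [this]
        exact hy
  | queen =>
    have hgo' : Slides (stB (fullB G B0 ⟨F.q, G.hb⟩) O L) (orthDirs ++ diagDirs) y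
        (stepL O z 61 l) := by
      rcases hgo with ⟨-, hgo⟩ | ⟨-, hgo⟩
      · rw [if_neg (by decide)] at hgo; exact hgo
      · exact hgo
    rw [slides_all] at hgo'
    exact hatt hgo'.2 (hst hgo'.1)
  | rook =>
    have hgo' : Slides (stB (fullB G B0 ⟨F.q, G.hb⟩) O L) orthDirs y (stepL O z 61 l) := by
      rcases hgo with ⟨-, hgo⟩ | ⟨-, hgo⟩
      · rw [if_neg (by decide)] at hgo; exact hgo
      · exact hgo
    rw [slides_orth] at hgo'
    exact hatt hgo'.2 (hst hgo'.1)
  | bishop =>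
    have hgo' : Slides (stB (fullB G B0 ⟨F.q, G.hb⟩) O L) diagDirs y (stepL O z 61 l) := by
      rcases hgo with ⟨-, hgo⟩ | ⟨-, hgo⟩
      · rw [if_neg (by decide)] at hgo; exact hgo
      · exact hgo
    rw [slides_diag] at hgo'
    exact hatt hgo'.2 (hst hgo'.1)

end Pool.Agent.Lib.H32C.Loc
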