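import Pool.Agent.Lib.H32C.FeA

/-!
# Chunk FEB: groups of items with one event, lower bound
-/

set_option autoImplicit false

namespace Pool.Agent.Lib.H32C.Loc

variable {R : Room} {H A t k : Nat} {O : Sq}

/-! helpers of chunk FEB -/

theorem feb_rs {e : Nat} (he : e ≠ 0) : rsK t k e = [⟨e, t, k⟩] := by
  unfold rsK
  rw [fwc_beq0 he, cond_false]

/-- the pieces of a state stand in the tile -/
theorem feb_pcs {X Y : Nat} (hX : 8 ≤ X ∧ X ≤ 72) (hY : 8 ≤ Y ∧ Y + 8 ≤ H) {M L : List Pc}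
    (h : pcsOkW A X Y (catP M L) = true) {u : Pc} (hu : u ∈ L) :
    tsq O u.x u.y ∈ TileRegH H O := by
  obtain ⟨h1, -, -⟩ := TW1_pcs h u (TW1_mem_cat.2 (Or.inr hu))
  unfold tsq
  refine ⟨?_, ?_, ?_, ?_⟩ <;> simp only <;> omega

/-- the patch after the event -/
theorem feb_arr {X Y e : Nat} (hX : 8 ≤ X ∧ X ≤ 72) (hY : 8 ≤ Y) (hi : Inner e)
    (S : List (List Pc)) (i : Nat) :
    arr' (patW A S X Y i (mkW X Y e 7)) e = patW A S X Y i (mkW X Y e 8) := by
  have hc : cellOf X Y (Nat.sub (Nat.add X (Nat.mod e 20)) 10)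
      (Nat.sub (Nat.add Y (Nat.div e 20)) 10) = e := by
    obtain ⟨a1, a2, a3, a4⟩ := hi
    change (X + e % 20 - 10 + 10 - X) + 20 * (Y + e / 20 - 10 + 10 - Y) = e
    omega
  have key : ∀ c, patW A S X Y i (mkW X Y e c) =
      Nat.xor (put X Y (nthP S i) (patR A X Y 16)) (Nat.shiftLeft c (Nat.mul 4 e)) := by
    intro c
    rw [fwc_mkW hi]
    have h1 : patW A S X Y i [⟨Nat.sub (Nat.add X (Nat.mod e 20)) 10,
        Nat.sub (Nat.add Y (Nat.div e 20)) 10, c⟩] =
      Nat.xor (put X Y (nthP S i) (patR A X Y 16)) (Nat.shiftLeft c (Nat.mul 4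
        (cellOf X Y (Nat.sub (Nat.add X (Nat.mod e 20)) 10)
          (Nat.sub (Nat.add Y (Nat.div e 20)) 10)))) := rfl
    rw [h1, hc]
  rw [key 7, key 8]
  unfold arr'
  generalize put X Y (nthP S i) (patR A X Y 16) = P
  generalize Nat.mul 4 e = n
  change (P ^^^ (7 <<< n)) ^^^ (15 <<< n) = P ^^^ (8 <<< n)
  rw [Nat.xor_assoc, ← Nat.shiftLeft_xor_distrib]
  rfl

/-- a list of pieces with the mark `7` may have the mark `8` instead -/
theorem feb_mk {X Y e : Nat} (hi : Inner e) {L : List Pc}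
    (h : pcsOkW A X Y (catP (mkW X Y e 7) L) = true) :
    pcsOkW A X Y (catP (mkW X Y e 8) L) = true := by
  rw [fwc_mkW hi] at h ⊢
  have e1 : ∀ c, catP [⟨Nat.sub (Nat.add X (Nat.mod e 20)) 10,
    Nat.sub (Nat.add Y (Nat.div e 20)) 10, c⟩] L = ⟨Nat.sub (Nat.add X (Nat.mod e 20)) 10,
    Nat.sub (Nat.add Y (Nat.div e 20)) 10, c⟩ :: L := fun _ => rfl
  rw [e1, pcsOkW_cons] at h ⊢
  refine ⟨h.1, h.2.1, ?_, h.2.2.2⟩
  simp only
  omega

/-- the items of kinds `0`, `1`, `2` in a context -/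
theorem feb_item {z : Nat} {S : List (List Pc)} {acc : List Mo} {u : WL}
    (h : wlOkK H A t k z S acc u (patW A S u.X u.Y u.i (u.swK t k).M)
      (kOf u.X u.Y (nthP S u.i)) = true)
    (hk : u.kd = 0 ∨ u.kd = 1 ∨ u.kd = 2) {B : Board} {β : Ordinal.{0}}
    (hacc : ∀ m ∈ acc, m.k = u.φ → GE (PB S O B m.j) β) {C : Ctx} (hC : C.Ok)
    (hR : C.R = rsK t k u.e) (hsep : R.Sep C)
    (hG : R.G (C.brd (patW A S u.X u.Y u.i (u.swK t k).M)))
    (hbrd : ∀ j, noMk (nthP S j) = true →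
      pcsOkW A u.X u.Y (catP (u.swK t k).M (nthP S j)) = true →
      TW1_Base H A S u.i (u.swK t k) (patW A S u.X u.Y u.i (u.swK t k).M)
        (kOf u.X u.Y (nthP S u.i)) →
      C.brd (patW A S u.X u.Y j (u.swK t k).M) = stB B O (nthP S j)) :
    GE (PB S O B u.i) β ∧ (u.kd = 0 → ¬ ValLE (PB S O B u.i) β) := by
  unfold wlOkK at h
  simp only [TS3_ands_cons] at h
  obtain ⟨h5, -, h9, h9', h11, -⟩ := h
  have next : ∀ j, noMk (nthP S j) = true →
      pcsOkW A u.X u.Y (catP (u.swK t k).M (nthP S j)) = true → membM j u.φ acc = true →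
      TW1_Base H A S u.i (u.swK t k) (patW A S u.X u.Y u.i (u.swK t k).M)
        (kOf u.X u.Y (nthP S u.i)) →
      GE ⟨C.brd (patW A S u.X u.Y j (u.swK t k).M), false⟩ β := by
    intro j hj hp hm hb
    rw [hbrd j hj hp hb]
    exact hacc _ (ME2_membM _ hm) rfl
  by_cases k0 : u.kd = 0
  · rw [TS1_beq.2 k0, cond_true, Bool.and_eq_true] at h11
    obtain ⟨h12, h13⟩ := h11
    have h14 := h12
    unfold mainW at h14
    simp only [TS3_ands_cons] at h14
    obtain ⟨b1, b2, -⟩ := h14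
    have hb := TW1_base b1
    have hge := mainW_ge (x := u.swK t k) h12 hC hR R hsep hG (next u.j₁ h9 b2 h13 hb)
    have e1 : C.brd (patW A S (u.swK t k).X (u.swK t k).Y u.i (u.swK t k).M) =
        stB B O (nthP S u.i) := hbrd u.i h5 hb.pcs hb
    rw [e1] at hge
    exact ⟨hge.1, fun _ => hge.2⟩
  · refine ⟨?_, fun h => absurd h k0⟩
    rw [fwc_beq0 k0, cond_false] at h11
    by_cases k1 : u.kd = 1
    · rw [TS1_beq.2 k1, cond_true] at h11
      have h14 := h11
      unfold mateW at h14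
      simp only [TS3_ands_cons] at h14
      obtain ⟨b1, -⟩ := h14
      have hb := TW1_base b1
      have hge := mateW_ge (x := u.swK t k) h11 hC hR R hsep hG β
      have e1 : C.brd (patW A S (u.swK t k).X (u.swK t k).Y u.i (u.swK t k).M) =
          stB B O (nthP S u.i) := hbrd u.i h5 hb.pcs hb
      rw [e1] at hge
      exact hge
    · have e1 : Nat.beq u.kd 1 = false := by
        rw [Bool.eq_false_iff, ne_eq, TS1_beq]
        exact k1
      rw [e1, cond_false] at h11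
      have k2 : u.kd = 2 := by omega
      rw [TS1_beq.2 k2, cond_true, Bool.and_eq_true, Bool.and_eq_true] at h11
      obtain ⟨h12, h13, h13'⟩ := h11
      have h14 := h12
      unfold mainW2 at h14
      simp only [TS3_ands_cons] at h14
      obtain ⟨b1, b2, b3, -⟩ := h14
      have hb := TW1_base b1
      have hge := mainW2_ge (x := u.swK t k) h12 hC hR R hsep hG (next u.j₁ h9 b2 h13 hb)
        (next u.j₂ h9' b3 h13' hb)
      have e1 : C.brd (patW A S (u.swK t k).X (u.swK t k).Y u.i (u.swK t k).M) =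
          stB B O (nthP S u.i) := hbrd u.i h5 hb.pcs hb
      rw [e1] at hge
      exact hge

/-- the kind of an item without ray, or of phase `1` -/
theorem feb_kd {z : Nat} {S : List (List Pc)} {acc : List Mo} {u : WL} {p κ : Nat}
    (h : wlOkK H A t k z S acc u p κ = true) (he : u.e = 0 ∨ u.φ ≠ 0) :
    u.kd = 0 ∨ u.kd = 1 ∨ u.kd = 2 := by
  by_contra hk
  unfold wlOkK at h
  simp only [TS3_ands_cons] at h
  obtain ⟨-, -, -, -, h11, -⟩ := h
  have e0 : Nat.beq u.kd 0 = false := by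
    rw [Bool.eq_false_iff, ne_eq, TS1_beq]; omega
  have e1 : Nat.beq u.kd 1 = false := by
    rw [Bool.eq_false_iff, ne_eq, TS1_beq]; omega
  have e2 : Nat.beq u.kd 2 = false := by
    rw [Bool.eq_false_iff, ne_eq, TS1_beq]; omega
  rw [e0, cond_false, e1, cond_false, e2, cond_false] at h11
  simp only [TS3_ands_cons] at h11
  obtain ⟨h12, h13, -⟩ := h11
  rcases he with he | he
  · rw [TS1_beq.2 he] at h13
    cases h13
  · rw [fwc_beq0 he] at h12
    cases h12

/-- the basic conditions of an item -/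
theorem feb_base {z : Nat} {S : List (List Pc)} {acc : List Mo} {u : WL} {p κ : Nat}
    (h : wlOkK H A t k z S acc u p κ = true) : TW1_Base H A S u.i (u.swK t k) p κ := by
  unfold wlOkK at h
  simp only [TS3_ands_cons] at h
  obtain ⟨-, -, -, -, h11, -⟩ := h
  by_cases k0 : u.kd = 0
  · rw [TS1_beq.2 k0, cond_true, Bool.and_eq_true] at h11
    have h14 := h11.1
    unfold mainW at h14
    simp only [TS3_ands_cons] at h14
    exact TW1_base h14.1
  rw [fwc_beq0 k0, cond_false] at h11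
  by_cases k1 : u.kd = 1
  · rw [TS1_beq.2 k1, cond_true] at h11
    have h14 := h11
    unfold mateW at h14
    simp only [TS3_ands_cons] at h14
    exact TW1_base h14.1
  have e1 : Nat.beq u.kd 1 = false := by
    rw [Bool.eq_false_iff, ne_eq, TS1_beq]
    exact k1
  rw [e1, cond_false] at h11
  by_cases k2 : u.kd = 2
  · rw [TS1_beq.2 k2, cond_true, Bool.and_eq_true] at h11
    have h14 := h11.1
    unfold mainW2 at h14
    simp only [TS3_ands_cons] at h14
    exact TW1_base h14.1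
  · have e2 : Nat.beq u.kd 2 = false := by
      rw [Bool.eq_false_iff, ne_eq, TS1_beq]
      exact k2
    rw [e2, cond_false] at h11
    simp only [TS3_ands_cons] at h11
    obtain ⟨-, -, h14, -⟩ := h11
    unfold eventW at h14
    simp only [TS3_ands_cons] at h14
    exact TW1_base h14.1

/-- the items without a ray -/
theorem feb_item0 {z : Nat} {S : List (List Pc)} {acc : List Mo} {u : WL}
    (h : wlOkK H A t k z S acc u (patW A S u.X u.Y u.i (u.swK t k).M)
      (kOf u.X u.Y (nthP S u.i)) = true)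
    (he : u.e = 0) {B : Board} (hB : BdOk H A O R B) {β : Ordinal.{0}}
    (hacc : ∀ m ∈ acc, m.k = u.φ → GE (PB S O B m.j) β) :
    GE (PB S O B u.i) β ∧ (u.kd = 0 → ¬ ValLE (PB S O B u.i) β) := by
  have hk := feb_kd h (Or.inl he)
  have hM' : (u.swK t k).M = [] := by
    show mkW u.X u.Y u.e _ = []
    unfold mkW
    rw [TS1_beq.2 he, cond_true]
  have hC : (ctx O B u.X u.Y).Ok := ctx_ok hB.fits.noK u.X u.Y
  have hR : (ctx O B u.X u.Y).R = rsK t k u.e := by
    unfold rsK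
    rw [TS1_beq.2 he, cond_true]
    rfl
  have hbase := feb_base h
  have hX : 8 ≤ u.X ∧ u.X ≤ 72 := hbase.hX
  have hY : 8 ≤ u.Y ∧ u.Y + 8 ≤ H := hbase.hY
  refine feb_item h hk hacc hC hR (MN_sep hB.reg hX hY) (MN_G hB.reg hB.G hX hY _) ?_
  intro j hj hp _
  rw [hM'] at hp ⊢
  exact MN_brd hB.fits hX hY hp hj

/-- the items of phase `1` -/
theorem feb_item1 {z : Nat} {S : List (List Pc)} {acc : List Mo} {u : WL}
    (h : wlOkK H A t k z S acc u (patW A S u.X u.Y u.i (u.swK t k).M)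
      (kOf u.X u.Y (nthP S u.i)) = true)
    (hφ : u.φ = 1) {B : Board} (hB : BdOk H A O R B) {f : Sq} (hf : FsOk H k O B f)
    (hin : u.e ≠ 0 → Inner u.e)
    (hfam : u.e ≠ 0 → Family R PW (rsK t k u.e) (K1 t k O u.X u.Y u.e B f))
    {β : Ordinal.{0}} (hacc : ∀ m ∈ acc, m.k = 1 → GE (PB S O B m.j) β) :
    GE (PB S O B u.i) β := by
  have hacc' : ∀ m ∈ acc, m.k = u.φ → GE (PB S O B m.j) β := by
    rw [hφ]
    exact hacc
  by_cases he : u.e = 0
  · exact (feb_item0 h he hB hacc').1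
  have hk := feb_kd h (Or.inr (by omega))
  have hM : (u.swK t k).M = mkW u.X u.Y u.e 8 := by
    show mkW u.X u.Y u.e (cond (Nat.beq u.φ 0) 7 8) = _
    rw [hφ]
    rfl
  have hok := (hfam he).ok 0 _ ⟨rfl, rfl⟩
  have hsep := (hfam he).sep 0 _ ⟨rfl, rfl⟩
  have hbase := feb_base h
  have hX : 8 ≤ u.X ∧ u.X ≤ 72 := hbase.hX
  have hY : 8 ≤ u.Y ∧ u.Y + 8 ≤ H := hbase.hY
  refine (feb_item h hk hacc' hok (feb_rs he).symm hsep (fea_G1 hB hsep _) ?_).1
  intro j hj hp _
  rw [hM] at hp ⊢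
  exact brdK1 hB hf hok hX hY hj (hin he) hp

theorem feb_grp {z : Nat} {S : List (List Pc)} {acc : List Mo} {u : WL} {L : List WL}
    (h : grpKL H A t k z S acc (u :: L) = true) :
    wlOkK H A t k z S (keysWL L acc) u (patW A S u.X u.Y u.i (u.swK t k).M)
      (kOf u.X u.Y (nthP S u.i)) = true ∧ grpKL H A t k z S acc L = true := by
  have h1 : grpKL H A t k z S acc (u :: L) = (wlOkK H A t k z S (keysWL L acc) u
    (patW A S u.X u.Y u.i (u.swK t k).M) (kOf u.X u.Y (nthP S u.i)) &&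
      grpKL H A t k z S acc L) := rfl
  rw [h1, Bool.and_eq_true] at h
  exact h

/-- chunk FEB: **phase 1, lower bound** -/
theorem grpKL_1 {z : Nat} {S : List (List Pc)} {acc : List Mo} {L : List WL}
    (h : grpKL H A t k z S acc L = true)
    {B : Board} (hB : BdOk H A O R B) {f : Sq} (hf : FsOk H k O B f)
    (hin : ∀ u ∈ L, u.e ≠ 0 → Inner u.e)
    (hfam : ∀ u ∈ L, u.e ≠ 0 → Family R PW (rsK t k u.e) (K1 t k O u.X u.Y u.e B f))
    {β : Ordinal.{0}} (hacc : ∀ m ∈ acc, m.k = 1 → GE (PB S O B m.j) β) :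
    ∀ m ∈ keysWL L acc, m.k = 1 → GE (PB S O B m.j) β := by
  induction L with
  | nil => exact hacc
  | cons u L ih =>
    obtain ⟨h3, h4⟩ := feb_grp h
    have e2 : keysWL (u :: L) acc = ⟨u.i, u.φ⟩ :: keysWL L acc := rfl
    have ih' := ih h4 (fun v hv => hin v (List.mem_cons_of_mem _ hv))
      (fun v hv => hfam v (List.mem_cons_of_mem _ hv))
    rw [e2]
    intro m hm hmk
    rcases List.mem_cons.1 hm with rfl | hm
    · exact feb_item1 h3 hmk hB hf (hin u List.mem_cons_self) (hfam u List.mem_cons_self) ih'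
    · exact ih' m hm hmk

/-- the event -/
theorem feb_ev {z : Nat} {S : List (List Pc)} {acc : List Mo} {u : WL}
    (h : wlOkK H A t k z S acc u (patW A S u.X u.Y u.i (u.swK t k).M)
      (kOf u.X u.Y (nthP S u.i)) = true)
    (hφ : u.φ = 0) (hk : u.kd ≠ 0 ∧ u.kd ≠ 1 ∧ u.kd ≠ 2) (ht : t ∈ orT ++ diT)
    {Bf B : Board} (hBf : BdOk H A O R Bf) (hB : BdOk H A O R B) {f : Sq} (hf : FsOk H k O B f)
    (hin : Inner u.e) {W : Board → Sq → Prop}
    (hfam0 : Family R PW (rsK t k u.e) (K0 t k O u.X u.Y u.e Bf W))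
    (hfam1 : Family R PW (rsK t k u.e) (K1 t k O u.X u.Y u.e B f))
    {a b : Sq}
    (hmv : ∀ L : List Pc, (∀ q ∈ L, tsq O q.x q.y ∈ TileRegH H O) →
      CanGo (stB Bf O L) false a b ∧ (stB Bf O L).move a b = stB B O L)
    (hfar : ∀ L : List Pc, (∀ q ∈ L, (9 ≤ q.c ∧ q.c ≤ 13) ∨ q.c = 6) → ∀ (y : Sq) (l m : ℕ),
      f = sqA O z + m • vec t → 0 < l → l ≤ m → stB B O L y ≠ some (true, Kind.king) →
      (∀ i : ℕ, 0 < i → i < m → stB B O L (sqA O z + i • vec t) = none) →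
      ¬ CanGo (stB B O L) true y (sqA O z + l • vec t))
    {β : Ordinal.{0}} (hacc : ∀ m ∈ acc, m.k = 1 → GE (PB S O B m.j) β) :
    GE (PB S O Bf u.i) β := by
  have hbase := feb_base h
  unfold wlOkK at h
  simp only [TS3_ands_cons] at h
  obtain ⟨h5, -, h9, -, h11, -⟩ := h
  have e0 : Nat.beq u.kd 0 = false := by
    rw [Bool.eq_false_iff, ne_eq, TS1_beq]; omega
  have e1 : Nat.beq u.kd 1 = false := by
    rw [Bool.eq_false_iff, ne_eq, TS1_beq]; omega
  have e2 : Nat.beq u.kd 2 = false := by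
    rw [Bool.eq_false_iff, ne_eq, TS1_beq]; omega
  rw [e0, cond_false, e1, cond_false, e2, cond_false] at h11
  simp only [TS3_ands_cons] at h11
  obtain ⟨-, he', h12, h13, h14, h15, -⟩ := h11
  have he : u.e ≠ 0 := by
    intro h0
    rw [TS1_beq.2 h0] at he'
    cases he'
  have hM : (u.swK t k).M = mkW u.X u.Y u.e 7 := by
    show mkW u.X u.Y u.e (cond (Nat.beq u.φ 0) 7 8) = _
    rw [hφ]
    rfl
  have hrs : (u.swK t k).R = [⟨u.e, t, k⟩] := feb_rs he
  -- the parts of the check of the event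
  have h18 := h12
  unfold eventW at h18
  simp only [TS3_ands_cons] at h18
  obtain ⟨b1, b2, b3, b4, b5, b6, b7, -⟩ := h18
  have hX : 8 ≤ u.X ∧ u.X ≤ 72 := hbase.hX
  have hY : 8 ≤ u.Y ∧ u.Y + 8 ≤ H := hbase.hY
  have hpc : pcsOkW A u.X u.Y (catP (mkW u.X u.Y u.e 7) (nthP S u.i)) = true := by
    rw [← hM]
    exact hbase.pcs
  have h7 : cell (patW A S u.X u.Y u.i (u.swK t k).M) u.e = 7 := by
    unfold see7 at b3
    rw [Bool.and_eq_true] at b3
    exact Nat.eq_of_beq_eq_true b3.1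
  -- the two contexts
  have hok0 := hfam0.ok 1 _ (Or.inl ⟨rfl, rfl⟩)
  have hsep0 := hfam0.sep 1 _ (Or.inl ⟨rfl, rfl⟩)
  have hok1 := hfam1.ok 0 _ ⟨rfl, rfl⟩
  have hsep1 := hfam1.sep 0 _ ⟨rfl, rfl⟩
  have hR1 : (cxG t k O u.X u.Y u.e (delB B f) f).R = (u.swK t k).R := hrs.symm
  have hρ : (⟨u.e, t, k⟩ : Ray) ∈ (cxG t k O u.X u.Y u.e (delB B f) f).R :=
    List.mem_singleton.2 rfl
  have hρx : (⟨u.e, t, k⟩ : Ray) ∈ (u.swK t k).R := by
    rw [hrs]
    exact List.mem_cons_self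
  have hwfA0 : WF (cxG t k O u.X u.Y u.e (delB B f) f)
      (patW A S u.X u.Y u.i (u.swK t k).M) (kOf u.X u.Y (nthP S u.i)) :=
    wf_base (x := u.swK t k) hok1 hR1 b1
  have hwfA : WF (cxG t k O u.X u.Y u.e (delB B f) f)
      (arr' (patW A S u.X u.Y u.i (u.swK t k).M) u.e) (kOf u.X u.Y (nthP S u.i)) :=
    LK2_wf_arr (ρ := ⟨u.e, t, k⟩) hok1 rfl hwfA0 hρ h7
  have hreg : ∀ v ∈ nthP S u.i, tsq O v.x v.y ∈ TileRegH H O :=
    fun v hv => feb_pcs hX hY hbase.pcs hv
  -- the boards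
  have hbE : (cxG t k O u.X u.Y u.e Bf (rayG t O u.X u.Y u.e 1)).brd
      (patW A S u.X u.Y u.i (u.swK t k).M) = stB Bf O (nthP S u.i) := by
    rw [hM]
    exact brdK0 hBf hok0 hX hY h5 hin hpc
  have hbA : (cxG t k O u.X u.Y u.e (delB B f) f).brd
      (arr' (patW A S u.X u.Y u.i (u.swK t k).M) u.e) = stB B O (nthP S u.i) := by
    rw [hM, feb_arr hX hY.1 hin]
    exact brdK1 hB hf hok1 hX hY h5 hin (feb_mk hin hpc)
  obtain ⟨hgo, hmove⟩ := hmv (nthP S u.i) hreg
  have hleg : Legal (stB Bf O (nthP S u.i)) false a b := by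
    refine ⟨hgo, ?_⟩
    rw [hmove, ← hbA]
    exact room_nocheck hok1 R hsep1 hwfA (fea_G1 hB hsep1 _)
  have hno : ¬ InCheck (stB Bf O (nthP S u.i)) false := by
    rw [← hbE]
    have hR0 : (cxG t k O u.X u.Y u.e Bf (rayG t O u.X u.Y u.e 1)).R = (u.swK t k).R := hrs.symm
    exact room_nocheck hok0 R hsep0 (wf_base (x := u.swK t k) hok0 hR0 b1) (fea_G0 hBf hsep0 _)
  -- the king
  have hkk : sqA O z = sq (cxG t k O u.X u.Y u.e (delB B f) f).o
      (kOf u.X u.Y (nthP S u.i)) := by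
    obtain ⟨v, L', hq⟩ : ∃ v L', nthP S u.i = v :: L' := by
      cases hn : nthP S u.i with
      | nil =>
        have := hbase.hC
        rw [hn] at this
        cases this
      | cons v L' => exact ⟨v, L', rfl⟩
    have hmem : v ∈ catP (u.swK t k).M (nthP S u.i) := by
      rw [TW1_mem_cat, hq]
      exact Or.inr List.mem_cons_self
    have d1 := (TW1_pcs hbase.pcs v hmem).1
    have d2 : tsq O v.x v.y = sq (orgP O u.X u.Y) (cellOf u.X u.Y v.x v.y) := TW1_sq rfl d1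
    have d3 : kOf u.X u.Y (nthP S u.i) = cellOf u.X u.Y v.x v.y := by rw [hq]; rfl
    have d4 : kA (nthP S u.i) = v.x + 80 * v.y := by rw [hq]; rfl
    have d5 : kA (nthP S u.i) = z := Nat.eq_of_beq_eq_true h14
    have d6 : u.X ≤ v.x + 8 ∧ v.x ≤ u.X + 7 ∧ u.Y ≤ v.y + 8 ∧ v.y ≤ u.Y + 7 := d1
    show sqA O z = sq (orgP O u.X u.Y) (kOf u.X u.Y (nthP S u.i))
    rw [d3, ← d2, ← d5, d4]
    unfold sqA
    have e1 : (v.x + 80 * v.y) % 80 = v.x := by omega
    have e2 : (v.x + 80 * v.y) / 80 = v.y := by omega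
    rw [e1, e2]
  -- the next state
  have hge : GE ⟨(cxG t k O u.X u.Y u.e (delB B f) f).brd
      (patW A S u.X u.Y u.j₁ (mkW u.X u.Y u.e 8)), false⟩ β := by
    rw [brdK1 hB hf hok1 hX hY h9 hin b2]
    exact hacc _ (ME2_membM _ h15) rfl
  -- the codes of the pieces
  have hcod : ∀ v ∈ nthP S u.i, (9 ≤ v.c ∧ v.c ≤ 13) ∨ v.c = 6 := by
    intro v hv
    have d1 := (TW1_pcs hbase.pcs v (TW1_mem_cat.2 (Or.inr hv))).2.1
    have d2 := (TS1_allb _ _).mp h13 v hv
    rw [Bool.or_eq_true, TS1_ble, TS1_beq] at d2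
    omega
  have hking := kingAt hok1 hwfA
  -- the squares between the king and the far slider
  have hF8 : cell (arr' (patW A S u.X u.Y u.i (u.swK t k).M) u.e) u.e = 8 ∧
      first (arr' (patW A S u.X u.Y u.i (u.swK t k).M) u.e) t 20 (kOf u.X u.Y (nthP S u.i)) =
        u.e := by
    unfold onlyF at b6
    rw [Bool.and_eq_true, Bool.and_eq_true] at b6
    exact ⟨Nat.eq_of_beq_eq_true b6.1.1, Nat.eq_of_beq_eq_true b6.1.2⟩
  obtain ⟨n₀, hS⟩ := first_spec hwfA hwfA.lt (by rw [hwfA.king]; decide) ht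
    (by rw [hF8.2, hF8.1]; decide)
  rw [hF8.2] at hS
  obtain ⟨m', hm', hf', -, hcl⟩ := mark8_sees (ρ := ⟨u.e, t, k⟩) hok1 hwfA hwfA.lt hρ hS hF8.1
  have hff : (cxG t k O u.X u.Y u.e (delB B f) f).f u.e = f := if_pos rfl
  have hmain := eventW_ge (x := u.swK t k) h12 (B := stB Bf O (nthP S u.i))
    (a := a) (b := b) hleg hno hok1 hR1 (hmove.trans hbA.symm)
    (ρ := ⟨u.e, t, k⟩) hρx rfl rfl ?_ hge
  · exact hmain
  intro y l m hm hl hlm hy
  have hmm : m' = m := LC_smul_inj (LC_vec_ne ht) (add_left_cancel (hf'.symm.trans hm))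
  subst hmm
  have hcan : ¬ CanGo (stB B O (nthP S u.i)) true y (sqA O z + l • vec t) := by
    refine hfar (nthP S u.i) hcod y l m' ?_ hl hlm ?_ ?_
    · rw [hkk]
      exact hff.symm.trans hf'
    · rw [← hbA]
      intro h2
      exact hy (hking.2 y h2)
    · intro i h0 hi
      rw [← hbA, hkk]
      exact hcl i h0 hi
  rw [hkk] at hcan
  have e3 : (cxG t k O u.X u.Y u.e (delB B f) f).brd
      (arr' (patW A S (u.swK t k).X (u.swK t k).Y u.i (u.swK t k).M) u.e) =
        stB B O (nthP S u.i) := hbA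
  rw [e3]
  exact hcan

/-- chunk FEB: **phase 0, lower bound.**  The event is the Black move `a → b`, which is possible whatever pieces of
the list `L` (Black pieces and the White king) stand on the tile, and after which no White piece other than the king
can go to the squares between the special square `z` and the far slider, nor to the far slider. -/
theorem grpKL_0 {z : Nat} {S : List (List Pc)} {acc : List Mo} {L : List WL}
    (h : grpKL H A t k z S acc L = true) (ht : t ∈ orT ++ diT)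
    {Bf B : Board} (hBf : BdOk H A O R Bf) (hB : BdOk H A O R B) {f : Sq} (hf : FsOk H k O B f)
    (hin : ∀ u ∈ L, u.e ≠ 0 → Inner u.e) {W : Board → Sq → Prop}
    (hfam0 : ∀ u ∈ L, u.e ≠ 0 → Family R PW (rsK t k u.e) (K0 t k O u.X u.Y u.e Bf W))
    (hfam1 : ∀ u ∈ L, u.e ≠ 0 → Family R PW (rsK t k u.e) (K1 t k O u.X u.Y u.e B f))
    {a b : Sq}
    (hmv : ∀ L : List Pc, (∀ q ∈ L, tsq O q.x q.y ∈ TileRegH H O) →
      CanGo (stB Bf O L) false a b ∧ (stB Bf O L).move a b = stB B O L)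
    (hfar : ∀ L : List Pc, (∀ q ∈ L, (9 ≤ q.c ∧ q.c ≤ 13) ∨ q.c = 6) → ∀ (y : Sq) (l m : ℕ),
      f = sqA O z + m • vec t → 0 < l → l ≤ m → stB B O L y ≠ some (true, Kind.king) →
      (∀ i : ℕ, 0 < i → i < m → stB B O L (sqA O z + i • vec t) = none) → ¬ CanGo (stB B O L) true y (sqA O z + l • vec t))
    {β : Ordinal.{0}} (hacc0 : ∀ m ∈ acc, m.k = 0 → GE (PB S O Bf m.j) β)
    (hacc1 : ∀ m ∈ acc, m.k = 1 → GE (PB S O B m.j) β) :
    ∀ m ∈ keysWL L acc, m.k = 0 → GE (PB S O Bf m.j) β := by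
  induction L with
  | nil => exact hacc0
  | cons u L ih =>
    obtain ⟨h3, h4⟩ := feb_grp h
    have e2 : keysWL (u :: L) acc = ⟨u.i, u.φ⟩ :: keysWL L acc := rfl
    have hinL := fun v hv => hin v (List.mem_cons_of_mem u hv)
    have hf0L := fun v hv => hfam0 v (List.mem_cons_of_mem u hv)
    have hf1L := fun v hv => hfam1 v (List.mem_cons_of_mem u hv)
    have ih' := ih h4 hinL hf0L hf1L
    have ih1 := grpKL_1 h4 hB hf hinL hf1L hacc1
    rw [e2]
    intro m hm hmk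
    rcases List.mem_cons.1 hm with rfl | hm
    · have hφ : u.φ = 0 := hmk
      have hacc' : ∀ m ∈ keysWL L acc, m.k = u.φ → GE (PB S O Bf m.j) β := by
        rw [hφ]
        exact ih'
      by_cases he : u.e = 0
      · exact (feb_item0 h3 he hBf hacc').1
      by_cases hkd : u.kd = 0 ∨ u.kd = 1 ∨ u.kd = 2
      · have hM : (u.swK t k).M = mkW u.X u.Y u.e 7 := by
          show mkW u.X u.Y u.e (cond (Nat.beq u.φ 0) 7 8) = _
          rw [hφ]
          rfl
        have hok0 := (hfam0 u List.mem_cons_self he).ok 1 _ (Or.inl ⟨rfl, rfl⟩)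
        have hsep0 := (hfam0 u List.mem_cons_self he).sep 1 _ (Or.inl ⟨rfl, rfl⟩)
        have hbase := feb_base h3
        have hX : 8 ≤ u.X ∧ u.X ≤ 72 := hbase.hX
        have hY : 8 ≤ u.Y ∧ u.Y + 8 ≤ H := hbase.hY
        refine (feb_item h3 hkd hacc' hok0 (feb_rs he).symm hsep0 (fea_G0 hBf hsep0 _) ?_).1
        intro j hj hp _
        rw [hM] at hp ⊢
        exact brdK0 hBf hok0 hX hY hj (hin u List.mem_cons_self he) hp
      · push Not at hkd
        exact feb_ev h3 hφ hkd ht hBf hB hf (hin u List.mem_cons_self he)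
          (hfam0 u List.mem_cons_self he) (hfam1 u List.mem_cons_self he) hmv hfar ih1
    · exact ih' m hm hmk

/-- chunk FEB: the strict form for an item of kind `0` without ray -/
theorem wlK_strict {z : Nat} {S : List (List Pc)} {acc : List Mo} {u : WL}
    (h : wlOkK H A t k z S acc u (patW A S u.X u.Y u.i (u.swK t k).M)
      (kOf u.X u.Y (nthP S u.i)) = true)
    (he : u.e = 0) (hk : u.kd = 0) {B : Board} (hB : BdOk H A O R B) {β : Ordinal.{0}}
    (hacc : ∀ m ∈ acc, m.k = u.φ → GE (PB S O B m.j) β) :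
    ¬ ValLE (PB S O B u.i) β :=
  (feb_item0 h he hB hacc).2 hk

end Pool.Agent.Lib.H32C.Loc
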