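import Pool.Agent.Lib.H32C.FarEv
import Pool.Agent.Lib.H32C.FarLine

/-!
# Chunk FOA: the service `Out`

The White king on the special square stands on the file of the bishop, below its home; above the home stands the
anchor rook.  The event is the departure of the bishop, which discovers an attack of the rook.
-/

set_option autoImplicit false

namespace Pool.Agent.Lib.H32C.Loc

/-- the square of the anchor rook -/
def rkS (G : FGeo) : Sq := G.hb + (0, 1)

/-- squares which are not used by the far pieces and the anchor rook -/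
def OutHull (G : FGeo) (c : Sq) : Prop :=
  c.2 ≤ G.T ∧ ¬ G.Zone c ∧ c ≠ G.hb ∧ c ≠ rkS G ∧ (∀ t : ℕ, 0 < t → t ≤ G.m → c ≠ G.se t) ∧
    ∀ t : ℕ, 0 < t → t ≤ 2 → c ≠ G.sw t

/-- facts about the tile of the service `Out` -/
structure OutT (G : FGeo) (B0 : Board) (R : Room) (H A z : Nat) (J : ℕ) (O : Sq) : Prop where
  geo : G.Ok
  wor : FarWorld G B0
  line : LineT B0 H A 62 z J O
  /-- the end of the line is the home of the bishop -/
  home : stepL O z 62 J = G.hb
  rook : B0 (rkS G) = some (false, Kind.rook)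
  nw : ∃ κ, B0 (G.hb + (-1, 1)) = some (false, κ)
  se : ∃ κ, B0 (G.se (G.m + 1)) = some (false, κ)
  /-- the resident of `Tb` -/
  sw : ∃ κ, B0 (G.sw 1) = some (false, κ)
  whiteR : ∀ a κ, B0 a = some (true, κ) → WNo B0 κ a (rkS G)
  hull : ∀ c ∈ TileRegH H O, OutHull G c
  hullZ : ∀ c ∈ R.Z, OutHull G c ∧ c.1 ≠ G.xD
  reg : ∀ c ∈ TileRegH H O, c ∉ R.Z
  G : R.G B0

/-- the squares to which the bishop may go -/
def Dst (G : FGeo) (b : Sq) : Prop :=
  (∃ t : ℕ, 0 < t ∧ b = G.out t) ∨ ∃ t : ℕ, 0 < t ∧ t ≤ G.m ∧ b = G.se t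

/-- boards after the event -/
def WOut (G : FGeo) (B0 : Board) (F : Far) (B : Board) (f : Sq) : Prop :=
  f = rkS G ∧ ∃ b, Dst G b ∧ B = fullB G B0 ⟨F.q, b⟩

variable {G : FGeo} {B0 : Board} {R : Room} {H A z : Nat} {J : ℕ} {O : Sq} {X Y e m : Nat}

/-! helpers of chunks FOA1, FOA2 -/

theorem foa2_step (O : Sq) (z : Nat) (j : ℕ) : (stepL O z 62 j).1 = (sqA O z).1 ∧
    (stepL O z 62 j).2 = (sqA O z).2 + j := by
  have hv : vec 62 = (0, 1) := by decide
  unfold stepL
  rw [add_nsmul_fst, add_nsmul_snd, hv]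
  simp

theorem foa2_home (hT : OutT G B0 R H A z J O) : (sqA O z).1 = G.xD ∧
    (sqA O z).2 + J = G.X0 - 2 - G.xD := by
  have h := hT.home
  obtain ⟨h1, h2⟩ := foa2_step O z J
  rw [h] at h1 h2
  exact ⟨h1.symm, h2.symm⟩

theorem foa1_base (h : G.Ok) (q : Qn) : G.T + 7 ≤ G.base q ∧ 3 ≤ G.j q := by
  have h1 := h.hT q
  have h2 := h.hjA
  have h3 := h.hjB
  have h4 := h.hjC
  cases q <;> omega

/-- queens at home are above the hull and to the left of the file -/
theorem foa1_nq (h : G.Ok) {F : Far} (hq : ∀ q, AtHome G F q) {c : Sq}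
    (hc : c.2 ≤ G.T + 1 ∨ G.xD ≤ c.1) (q : Qn) : c ≠ F.q q := by
  intro he
  obtain ⟨h1, h2⟩ := hq q
  rw [← he] at h1 h2
  have h3 := foa1_base h q
  have h4 := col_lt_xD h q
  omega

theorem foa1_nf (h : G.Ok) {c : Sq} (hc : c.2 ≤ G.T + 1 ∨ G.xD ≤ c.1) : ¬ G.floater c := by
  intro hf
  have h1 := floater_above h hf
  obtain ⟨q, hq⟩ := hf
  have h2 := col_lt_xD h q
  have h3 := foa1_base h q
  rcases hc with hc | hc
  · omega
  · rcases hq with hq | hq | hq | hq <;> rw [hq] at hc <;> simp only at hc <;> omega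

/-- the board of the far pieces with queens at home -/
theorem foa1_full (h : G.Ok) {F : Far} (hq : ∀ q, AtHome G F q) {b c : Sq}
    (hc : c.2 ≤ G.T + 1 ∨ G.xD ≤ c.1) :
    fullB G B0 ⟨F.q, b⟩ c = if c = b then some (false, Kind.bishop) else B0 c := by
  unfold fullB farB
  rw [if_neg (fun ⟨q, _, he⟩ => foa1_nq h hq hc q he)]
  by_cases hcb : c = b
  · rw [if_pos ⟨trivial, hcb⟩, if_pos hcb]
  · rw [if_neg (fun h => hcb h.2), if_neg (foa1_nf h hc), if_neg hcb]

/-- the squares of the bishop -/
theorem foa1_dst {b : Sq} (hb : Dst G b) : b.1 ≠ G.xD ∧ b ≠ G.hb ∧ b ≠ rkS G := by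
  have h1 : b.1 ≠ G.xD := by
    rcases hb with ⟨t, ht, rfl⟩ | ⟨t, ht, -, rfl⟩
    · simp only [FGeo.out]; omega
    · simp only [FGeo.se]; omega
  refine ⟨h1, ?_, ?_⟩
  · rintro rfl
    exact h1 rfl
  · rintro rfl
    apply h1
    simp [rkS, FGeo.hb]

/-- queens at home are not in the hull, nor on the squares of the bishop (cf. `farB_hull`) -/
theorem out_hull (hT : OutT G B0 R H A z J O) {F : Far} (hq : ∀ q, AtHome G F q) {b : Sq}
    (hb : b = G.hb ∨ Dst G b) {c : Sq} (hc : OutHull G c) : fullB G B0 ⟨F.q, b⟩ c = B0 c := by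
  obtain ⟨h1, h2, h3, h4, h5, h6⟩ := hc
  rw [foa1_full hT.geo hq (Or.inl (by omega)), if_neg]
  rintro rfl
  rcases hb with hb | ⟨t, ht, hb⟩ | ⟨t, ht, ht', hb⟩
  · exact h3 hb
  · exact h2 (hb ▸ out_zone hT.geo ht)
  · exact h5 t ht ht' hb

theorem foa1_noK (hT : OutT G B0 R H A z J O) (F : Far) (c : Sq) :
    NK (fullB G B0 F c) c := by
  unfold fullB farB
  split_ifs
  · exact nk_man (by decide) c
  · exact nk_man (by decide) c
  · exact nk_man (by decide) c
  · exact hT.line.fits.noK c

theorem out_bd (hT : OutT G B0 R H A z J O) {F : Far} (hq : ∀ q, AtHome G F q) {b : Sq}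
    (hb : b = G.hb ∨ Dst G b) : BdOk H A O R (fullB G B0 ⟨F.q, b⟩) where
  fits := by
    refine ⟨?_, fun c => foa1_noK hT _ c⟩
    intro X Y hX hY hc
    rw [out_hull hT hq hb (hT.hull (tsq O X Y) (by
      refine ⟨?_, ?_, ?_, ?_⟩ <;> simp only [tsq] <;> omega))]
    exact hT.line.fits.cells X Y hX hY hc
  reg := hT.reg
  G := R.dep B0 _ (fun c hc => (out_hull hT hq hb (hT.hullZ c hc).1).symm) hT.G

theorem out_fs (hT : OutT G B0 R H A z J O) {F : Far} (hq : ∀ q, AtHome G F q) {b : Sq}
    (hb : Dst G b) : FsOk H 12 O (fullB G B0 ⟨F.q, b⟩) (rkS G) where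
  occ := by
    have h1 : (rkS G).1 = G.xD := by simp [rkS, FGeo.hb]
    rw [foa1_full hT.geo hq (Or.inr h1.ge), if_neg (foa1_dst hb).2.2.symm, hT.rook]
    rfl
  k := ⟨by norm_num, by norm_num⟩
  out := by
    intro x y hx hy he
    have h := hT.hull (tsq O x y) (by
      refine ⟨?_, ?_, ?_, ?_⟩ <;> simp only [tsq] <;> omega)
    exact h.2.2.2.1 he.symm

/-- the squares of the file of the bishop: `J` free squares, the home, the rook, nothing above -/
theorem out_file (hT : OutT G B0 R H A z J O) {F : Far} (hq : ∀ q, AtHome G F q) {b : Sq}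
    (hb : b = G.hb ∨ Dst G b) {j : ℕ} (hj : 0 < j) :
    fullB G B0 ⟨F.q, b⟩ (stepL O z 62 j) =
      if j = J ∧ b = G.hb then some (false, Kind.bishop)
      else if j = J + 1 then some (false, Kind.rook) else none := by
  obtain ⟨x1, x2⟩ := foa2_home hT
  obtain ⟨s1, s2⟩ := foa2_step O z j
  have hx : (stepL O z 62 j).1 = G.xD := s1.trans x1
  rw [foa1_full hT.geo hq (Or.inr hx.ge)]
  by_cases h1 : stepL O z 62 j = b
  · have h2 : b = G.hb := hb.resolve_right (fun h => (foa1_dst h).1 (h1 ▸ hx))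
    have h3 : j = J := by
      have h4 : (stepL O z 62 j).2 = G.X0 - 2 - G.xD := by rw [h1, h2]; rfl
      omega
    rw [if_pos h1, if_pos ⟨h3, h2⟩]
  · rw [if_neg h1]
    have h2 : ¬ (j = J ∧ b = G.hb) := by
      rintro ⟨rfl, h3⟩
      exact h1 (hT.home.trans h3.symm)
    rw [if_neg h2]
    by_cases h3 : j = J + 1
    · rw [if_pos h3]
      have h4 : stepL O z 62 j = rkS G := by
        apply Prod.ext
        · rw [hx]; simp [rkS, FGeo.hb]
        · rw [s2]; simp only [rkS, FGeo.hb, Prod.snd_add]; omega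
      rw [h4, hT.rook]
    · rw [if_neg h3]
      rcases Nat.lt_or_ge J j with h4 | h4
      · apply hT.wor.zone
        left
        have h5 := hT.geo.heD
        omega
      · exact hT.line.clear j hj h4

/-- the board of a context with one ray -/
theorem foa1_brd (t k : Nat) (O : Sq) (X Y e : Nat) (B : Board) (f : Sq) (p : Nat) (s : Sq) :
    (cxG t k O X Y e B f).brd p s =
      if InB (orgP O X Y) s ∧ cell p (idx (orgP O X Y) s) ≠ 15 then
        dec (cell p (idx (orgP O X Y) s))
      else if s = f ∧ cell p e = 8 then dec k else B s := by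
  by_cases h1 : InB (orgP O X Y) s ∧ cell p (idx (orgP O X Y) s) ≠ 15
  · rw [if_pos h1]
    exact LB_e1 (cxG t k O X Y e B f) h1
  · rw [if_neg h1]
    by_cases h2 : s = f ∧ cell p e = 8
    · rw [if_pos h2]
      unfold Ctx.brd
      have h3 : (cxG t k O X Y e B f).R.find? (fun ρ => decide
          (s = (cxG t k O X Y e B f).f ρ.e ∧ cell p ρ.e = 8)) = some ⟨e, t, k⟩ := by
        simp [cxG, h2]
      have h1' : ¬ (InB (cxG t k O X Y e B f).o s ∧
          cell p (idx (cxG t k O X Y e B f).o s) ≠ 15) := h1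
      rw [if_neg h1', h3]
    · rw [if_neg h2]
      apply brd_out h1
      intro ρ hρ h3 h4
      simp only [cxG, List.mem_singleton] at hρ
      subst hρ
      apply h2
      simp only [cxG, if_true] at h3
      exact ⟨h3, h4⟩

theorem foa1_ray (hP : LineP B0 H 62 z J O X Y e m) (i : ℕ) :
    sq (orgP O X Y) e + i • vec 62 = stepL O z 62 (m + i) := by
  rw [fla_step, ← hP.hmark]

/-- the context is admissible -/
theorem foa1_ok (hP : LineP B0 H 62 z J O X Y e m) {B : Board} {f : Sq}
    (hK : ∀ s, NK (B s) s)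
    (hE : ∀ n : ℕ, 0 < n → (∀ i : ℕ, 0 < i → i < n → B (stepL O z 62 (m + i)) = none) →
      ∀ m', B (stepL O z 62 (m + n)) = some m' → Quiet 62 m')
    (hf : ∃ n : ℕ, 0 < n ∧ f = stepL O z 62 (m + n) ∧
      ∀ i : ℕ, 0 < i → i ≤ n → B (stepL O z 62 (m + i)) = none) :
    (cxG 62 12 O X Y e B f).Ok where
  noK := hK
  nodup := by simp [cxG]
  kind := by
    intro ρ hρ
    simp only [cxG, List.mem_singleton] at hρ
    subst hρ
    exact Or.inl ⟨(by decide : 62 ∈ orT), Or.inl rfl⟩
  inner := by
    intro ρ hρ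
    simp only [cxG, List.mem_singleton] at hρ
    subst hρ
    exact ⟨hP.inn, fun _ => hP.out⟩
  empty := by
    intro ρ hρ n hn h1 m' h2
    simp only [cxG, List.mem_singleton] at hρ
    subst hρ
    refine hE n hn (fun i hi hin => ?_) m' ?_
    · rw [← foa1_ray hP]
      exact h1 i hi hin
    · rw [← foa1_ray hP]
      exact h2
  far := by
    intro ρ hρ
    simp only [cxG, List.mem_singleton] at hρ
    subst hρ
    obtain ⟨n, hn, h1, h2⟩ := hf
    refine ⟨n, hn, ?_, fun i hi hin => ?_⟩
    · simp only [cxG, if_true]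
      rw [h1]
      exact (foa1_ray hP n).symm
    · have h3 := h2 i hi hin
      rw [← foa1_ray hP] at h3
      exact h3
  disj := by
    intro ρ hρ ρ' hρ' hne
    simp only [cxG, List.mem_singleton] at hρ hρ'
    subst hρ
    subst hρ'
    exact absurd rfl hne

/-- chunk FOA: the context before the event -/
theorem out_ok0 (hT : OutT G B0 R H A z J O) (hP : LineP B0 H 62 z J O X Y e m) {F : Far}
    (hq : ∀ q, AtHome G F q) (hb : F.b = G.hb) :
    (cxG 62 12 O X Y e (fullB G B0 F) (rayG 62 O X Y e 1)).Ok := by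
  have hFe : F = ⟨F.q, G.hb⟩ := by
    rw [← hb]
  have hmJ := hP.mJ
  have hm0 := hP.hm
  have hfile : ∀ j : ℕ, 0 < j → fullB G B0 F (stepL O z 62 j) =
      if j = J then some (false, Kind.bishop)
      else if j = J + 1 then some (false, Kind.rook) else none := by
    intro j hj
    rw [hFe, out_file hT hq (Or.inl rfl) hj]
    by_cases h2 : j = J
    · rw [if_pos h2, if_pos ⟨h2, rfl⟩]
    · rw [if_neg h2, if_neg (fun h => h2 h.1)]
  refine foa1_ok hP (foa1_noK hT F) ?_ ⟨1, one_pos, foa1_ray hP 1, ?_⟩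
  · intro n hn h1 m' h2
    rw [hfile _ (by omega)] at h2
    split_ifs at h2 with h3 h4
    · simp only [Option.some.injEq] at h2
      subst h2
      exact Or.inr (Or.inr ⟨rfl, Or.inl ⟨by decide, rfl⟩⟩)
    · exfalso
      have h5 := h1 (n - 1) (by omega) (by omega)
      rw [hfile _ (by omega), if_pos (by omega)] at h5
      cases h5
  · intro i hi hi1
    rw [hfile _ (by omega), if_neg (by omega), if_neg (by omega)]

/-- chunk FOA: the context after the event -/
theorem out_ok1 (hT : OutT G B0 R H A z J O) (hP : LineP B0 H 62 z J O X Y e m) {F : Far}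
    (hq : ∀ q, AtHome G F q) {b : Sq} (hb : Dst G b) :
    (cxG 62 12 O X Y e (delB (fullB G B0 ⟨F.q, b⟩) (rkS G)) (rkS G)).Ok := by
  have hmJ := hP.mJ
  have hm0 := hP.hm
  have hrk : stepL O z 62 (J + 1) = rkS G := by
    obtain ⟨x1, x2⟩ := foa2_home hT
    obtain ⟨s1, s2⟩ := foa2_step O z (J + 1)
    apply Prod.ext
    · rw [s1, x1]; simp [rkS, FGeo.hb]
    · rw [s2]; simp only [rkS, FGeo.hb, Prod.snd_add]; omega
  have hfile : ∀ j : ℕ, 0 < j → delB (fullB G B0 ⟨F.q, b⟩) (rkS G) (stepL O z 62 j) = none := by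
    intro j hj
    unfold delB
    by_cases h1 : stepL O z 62 j = rkS G
    · rw [if_pos h1]
    · rw [if_neg h1, out_file hT hq (Or.inr hb) hj, if_neg (fun h => (foa1_dst hb).2.1 h.2),
        if_neg]
      rintro rfl
      exact h1 hrk
  refine foa1_ok hP ?_ ?_ ⟨J + 1 - m, by omega, ?_, ?_⟩
  · intro s
    unfold delB
    split_ifs
    · exact nk_none s
    · exact foa1_noK hT _ s
  · intro n hn _ m' h2
    rw [hfile _ (by omega)] at h2
    cases h2
  · rw [show m + (J + 1 - m) = J + 1 by omega, hrk]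
  · intro i hi _
    exact hfile _ (by omega)

theorem foa1_reg (hP : LineP B0 H 62 z J O X Y e m) {c : Sq} (hc : InB (orgP O X Y) c) :
    c ∈ TileRegH H O := by
  obtain ⟨h1, h2, h3, h4⟩ := hc
  obtain ⟨h5, h6⟩ := hP.hX
  obtain ⟨h7, h8⟩ := hP.hY
  simp only [orgP] at h1 h2 h3 h4
  refine ⟨?_, ?_, ?_, ?_⟩ <;> omega

/-- the room is away -/
theorem foa1_sep (hT : OutT G B0 R H A z J O) (hP : LineP B0 H 62 z J O X Y e m) {B : Board}
    {f : Sq} (hf : f.1 = G.xD) : R.Sep (cxG 62 12 O X Y e B f) where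
  patch := fun c hc => hT.reg c (foa1_reg hP hc)
  far := by
    intro ρ hρ
    simp only [cxG, List.mem_singleton] at hρ
    subst hρ
    intro h
    simp only [cxG, if_true] at h
    exact (hT.hullZ f h).2 hf

/-- the mating threat of the room -/
theorem foa1_G (hT : OutT G B0 R H A z J O) (hP : LineP B0 H 62 z J O X Y e m) {B : Board}
    {f : Sq} (hf : f.1 = G.xD) (hB : ∀ c, OutHull G c → B c = B0 c) (p : Nat) :
    R.G ((cxG 62 12 O X Y e B f).brd p) := by
  refine R.dep B0 _ (fun c hc => ?_) hT.G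
  obtain ⟨h1, h2⟩ := hT.hullZ c hc
  rw [foa1_brd, if_neg (fun h => hT.reg c (foa1_reg hP h.1) hc), if_neg, hB c h1]
  rintro ⟨rfl, -⟩
  exact h2 hf

theorem foa1_del (hT : OutT G B0 R H A z J O) {F : Far} (hq : ∀ q, AtHome G F q) {b : Sq}
    (hb : Dst G b) {c : Sq} (hc : OutHull G c) :
    delB (fullB G B0 ⟨F.q, b⟩) (rkS G) c = B0 c := by
  unfold delB
  rw [if_neg hc.2.2.2.1]
  exact out_hull hT hq (Or.inr hb) hc

/-- nobody comes to the mark from a direction in which the patch ends -/
theorem foa1_edge (hP : LineP B0 H 62 z J O X Y e m) {B : Board} {f : Sq}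
    (hBB : ∀ c ∈ TileRegH H O, B c = B0 c) {p k : Nat}
    (hp : WF (cxG 62 12 O X Y e B f) p k) (h7 : cell p e = 7) (a : Sq) :
    ¬ Edge' (cxG 62 12 O X Y e B f) p ⟨e, 62, 12⟩ a := by
  rintro ⟨u, hu, hne, hin, l, hl, ha, hcl, κ, hB, hκ⟩
  have hne' : u ≠ 62 := hne
  have hin' : ¬ Inner (stp u e) := hin
  obtain ⟨m, hm, hm2⟩ := hP.edge u hu hne' hin'
  obtain ⟨hlt, hsq⟩ := stp_inner (List.mem_append_left knT hu) hP.inn
  have hsq' := hsq (orgP O X Y)
  have hInB : InB (orgP O X Y) (sq (orgP O X Y) e + vec u) := by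
    rw [← hsq']
    exact inB_sq _ hlt
  have hbrd : (cxG 62 12 O X Y e B f).brd p (sq (orgP O X Y) e + vec u) = some m := by
    rw [foa1_brd, if_neg, if_neg, hBB _ (foa1_reg hP hInB)]
    · exact hm
    · rintro ⟨-, h⟩
      rw [h7] at h
      exact absurd h (by decide)
    · rintro ⟨-, h2⟩
      apply h2
      rw [← hsq', idx_sq _ hlt]
      exact hp.margin _ hlt hin'
  by_cases hl1 : l = 1
  · subst hl1
    rw [one_smul] at ha
    have ha' : a = sq (orgP O X Y) e + vec u := ha
    rw [ha', hbrd] at hB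
    have h3 : m = (false, κ) := by simpa using hB
    rw [h3] at hm2
    rcases hκ with rfl | ⟨-, rfl⟩ | ⟨-, rfl⟩ <;> rcases hm2 with h4 | h4 <;> cases h4
  · have h3 := hcl 1 one_pos (by omega)
    rw [one_smul] at h3
    have h4 : (cxG 62 12 O X Y e B f).brd p (sq (orgP O X Y) e + vec u) = none := h3
    rw [hbrd] at h4
    cases h4

theorem foa1_rs (hP : LineP B0 H 62 z J O X Y e m) : rsK 62 12 e = [⟨e, 62, 12⟩] := by
  unfold rsK
  have h1 : Nat.beq e 0 = false := by
    rw [← Bool.not_eq_true]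
    intro h
    have h2 := Nat.eq_of_beq_eq_true h
    have h3 := hP.inn
    unfold Inner at h3
    omega
  rw [h1]
  rfl

/-- static Black pieces -/
theorem foa2_black {F : Far} {c : Sq} (h : ∃ κ, B0 c = some (false, κ)) :
    ∃ κ, fullB G B0 F c = some (false, κ) := by
  obtain ⟨κ, h⟩ := h
  unfold fullB farB
  split_ifs
  · exact ⟨_, rfl⟩
  · exact ⟨_, rfl⟩
  · exact ⟨_, rfl⟩
  · exact ⟨κ, h⟩

/-- the direction of a queen or rook -/
theorem foa2_dir {a b : Sq} {κ : Kind} (h : OrthI a b ∨ (κ = Kind.queen ∧ DiagI a b))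
    (hκ : κ = Kind.queen ∨ κ = Kind.rook) :
    ∃ u ∈ orT ++ diT, ∃ l : ℕ, 0 < l ∧ a = b + l • vec u ∧ SlK κ u := by
  rcases h with h | ⟨hq, h⟩
  · have h' : OrthI b a := by
      unfold OrthI at *
      omega
    obtain ⟨d, hd, n, hn, he⟩ := (orth_iff b a).2 h'
    obtain ⟨u, hu, hud⟩ := or_vec hd
    refine ⟨u, List.mem_append_left _ hu, n, hn, by rw [hud]; exact he, ?_⟩
    rcases hκ with hκ | hκ
    · exact Or.inl hκ
    · exact Or.inr (Or.inl ⟨hu, hκ⟩)
  · have h' : DiagI b a := by
      unfold DiagI at *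
      omega
    obtain ⟨d, hd, n, hn, he⟩ := (diag_iff b a).2 h'
    obtain ⟨u, hu, hud⟩ := di_vec hd
    exact ⟨u, List.mem_append_right _ hu, n, hn, by rw [hud]; exact he, Or.inl hq⟩

/-- the rows of the patch -/
theorem foa2_top (hP : LineP B0 H 62 z J O X Y e m) {c : Sq} (hc : c ∈ inP O X Y) :
    c.2 ≤ (sqA O z).2 + m := by
  have h1 := (hP.inn' m hP.hm).2 le_rfl
  have h2 : ¬ stepL O z 62 (m + 1) ∈ inP O X Y := by
    rw [hP.inn' (m + 1) (by omega)]
    omega
  obtain ⟨a1, a2⟩ := foa2_step O z m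
  obtain ⟨b1, b2⟩ := foa2_step O z (m + 1)
  unfold inP at h1 h2 hc
  rw [Set.mem_ofPred_eq] at h1 h2 hc
  rw [a1, a2] at h1
  rw [b1, b2] at h2
  push_cast at h2
  omega

theorem foa2_reg (hX : 8 ≤ X ∧ X ≤ 72) (hY : 8 ≤ Y ∧ Y + 8 ≤ H) {c d : Sq}
    (hc : c ∈ inP O X Y) (h1 : (c.1 - d.1).natAbs ≤ 1) (h2 : (c.2 - d.2).natAbs ≤ 1) :
    d ∈ TileRegH H O := by
  unfold inP at hc
  rw [Set.mem_ofPred_eq] at hc
  refine ⟨?_, ?_, ?_, ?_⟩ <;> omega

/-- **The event of `Out`.**  The king sees the mark `7`; a Black move `a → b`, where `a` is not a known cell, after which a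
slider attacks along the file: the bishop leaves its home.

Proof (cf. `arriveW`).  `Hit`: a queen or rook (`62 ∈ orT`) stands on the `i`-th square beyond the mark after the move,
with nothing before it.  If it is `b` itself, then `b` lies below the home (the bishop on the home is in the way, or
it is the piece which moves, but a bishop does not attack along the file; so the home is occupied after
the move).  The slider comes from the side: not a static one (`LineP.closed`: the blocker is outside of the inner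
squares of the patch), not a queen at home (computation: `base` and `col`), or along the file: from above: the home is
occupied; from below: the king is in the way.  Otherwise the slider stood there before, so it is the rook
(`out_file`), and the home has become empty: `a` is the home.  The bishop goes along its diagonals: NE: `out t`; NW: blocked by a
Black piece; SE: at most `se m` (Black piece on `se (m + 1)`); SW: at most `sw 2`. -/
theorem out_event (hT : OutT G B0 R H A z J O) (hP : LineP B0 H 62 z J O X Y e m) {F : Far}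
    (hq : ∀ q, AtHome G F q) (hb : F.b = G.hb) {C : Ctx}
    (hC : C = cxG 62 12 O X Y e (fullB G B0 F) (rayG 62 O X Y e 1)) {p k : Nat} (hp : WF C p k)
    (hs : see7 p k ⟨e, 62, 12⟩ = true) {a b : Sq} (hl : Legal (C.brd p) false a b)
    (hout : ¬ (InB C.o a ∧ cell p (idx C.o a) ≠ 15))
    (hh : Hit C ((C.brd p).move a b) ⟨e, 62, 12⟩) : a = G.hb ∧ Dst G b := by
  subst hC
  have hok := out_ok0 hT hP hq hb
  obtain ⟨h7, n', hS⟩ := fwb1_sees (t := 62) hp (by decide) hs
  have ho : (cxG 62 12 O X Y e (fullB G B0 F) (rayG 62 O X Y e 1)).o = orgP O X Y := rfl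
  have hout' : ∀ c : Sq, ¬ (InB (orgP O X Y) c ∧ cell p (idx (orgP O X Y) c) ≠ 15) →
      (cxG 62 12 O X Y e (fullB G B0 F) (rayG 62 O X Y e 1)).brd p c = fullB G B0 F c := by
    intro c hc
    refine brd_out hc ?_
    intro ρ hρ _
    simp only [cxG, List.mem_singleton] at hρ
    subst hρ
    simp only
    rw [h7]
    decide
  have hinP : ∀ c : Sq, c ∉ inP O X Y →
      (cxG 62 12 O X Y e (fullB G B0 F) (rayG 62 O X Y e 1)).brd p c = fullB G B0 F c :=
    fun c hc => hout' c (fwb1_inP ho hp hc)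
  have hkey := (kingAt hok hp).1
  rw [ho] at hkey hout
  have hray : ∀ i : ℕ, (cxG 62 12 O X Y e (fullB G B0 F) (rayG 62 O X Y e 1)).ray ⟨e, 62, 12⟩ i =
      stepL O z 62 (m + i) := by
    intro i
    rw [fla_step, ← hP.hmark]
    rfl
  have hSeq := hS.eq
  have hScl := hS.clear
  rw [ho] at hSeq hScl
  have hbrdsq : ∀ c : Nat, c < 400 → cell p c ≠ 15 →
      (cxG 62 12 O X Y e (fullB G B0 F) (rayG 62 O X Y e 1)).brd p (sq (orgP O X Y) c) =
        dec (cell p c) := fun c hc h => brd_sq _ hc h
  unfold Hit at hh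
  simp only [hray] at hh
  generalize (cxG 62 12 O X Y e (fullB G B0 F) (rayG 62 O X Y e 1)).brd p = B at *
  obtain ⟨hx, hy⟩ := foa2_home hT
  have hst : ∀ j : ℕ, (stepL O z 62 j).1 = G.xD ∧ (stepL O z 62 j).2 = (sqA O z).2 + j := by
    intro j
    obtain ⟨h1, h2⟩ := foa2_step O z j
    exact ⟨h1.trans hx, h2⟩
  have hmJ := hP.mJ
  have hm0 := hP.hm
  have hFe : F = ⟨F.q, G.hb⟩ := by
    rw [← hb]
  have hfile : ∀ j : ℕ, m < j → B (stepL O z 62 j) =
      if j = J then some (false, Kind.bishop)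
      else if j = J + 1 then some (false, Kind.rook) else none := by
    intro j hj
    have h1 : stepL O z 62 j ∉ inP O X Y := by
      rw [hP.inn' j (by omega)]
      omega
    rw [hinP _ h1, hFe, out_file hT hq (Or.inl rfl) (by omega : 0 < j)]
    by_cases h2 : j = J
    · rw [if_pos h2, if_pos ⟨h2, rfl⟩]
    · rw [if_neg h2, if_neg (fun h => h2 h.1)]
  have hBhb : B G.hb = some (false, Kind.bishop) := by
    rw [← hT.home, hfile J (by omega), if_pos rfl]
  obtain ⟨hcan, -⟩ := hl
  obtain ⟨i₀, hi₀, hcl, κ, hκm, hκ⟩ := hh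
  have hκ2 : κ = Kind.queen ∨ κ = Kind.rook := by
    rcases hκ with h | ⟨-, h⟩ | ⟨h, -⟩
    · exact Or.inl h
    · exact Or.inr h
    · exact absurd h (by decide)
  have hκb : κ ≠ Kind.bishop := by
    rintro rfl
    rcases hκ2 with h | h <;> cases h
  have hMa0 : ∃ w, B a = some w ∧ w.1 = false := by
    obtain ⟨w, h1, h2, -⟩ := hcan
    exact ⟨w, h1, h2⟩
  have hsa : stepL O z 62 (m + i₀) ≠ a := by
    intro h
    unfold Board.move at hκm
    rw [if_pos h] at hκm
    cases hκm
  have hinj : ∀ i j : ℕ, stepL O z 62 i = stepL O z 62 j → i = j := by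
    intro i j h
    have h1 := (hst i).2
    rw [h, (hst j).2] at h1
    omega
  -- the home is left if a slider attacks from above
  have hhome : J < m + i₀ → a = G.hb := by
    intro h1
    have h2 := hcl (J - m) (by omega) (by omega)
    rw [show m + (J - m) = J by omega, hT.home] at h2
    by_contra h3
    unfold Board.move at h2
    rw [if_neg (fun h => h3 h.symm)] at h2
    split_ifs at h2 with h4
    · obtain ⟨w, h5, -⟩ := hMa0
      rw [h5] at h2
      cases h2
    · rw [hBhb] at h2
      cases h2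
  by_cases hsb : stepL O z 62 (m + i₀) = b
  · -- the slider has moved
    exfalso
    have hMa : B a = some (false, κ) := by
      unfold Board.move at hκm
      rw [if_neg hsa, if_pos hsb] at hκm
      exact hκm
    have hna : a ≠ G.hb := by
      rintro rfl
      rw [hBhb] at hMa
      exact hκb (by simpa using hMa.symm)
    have hle : m + i₀ ≤ J := by
      by_contra h
      exact hna (hhome (by omega))
    obtain ⟨g1, g2, g3⟩ := canGo_slider hMa hκ2 hcan
    have hlt : m + i₀ < J := by
      rcases Nat.lt_or_ge (m + i₀) J with h | h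
      · exact h
      · exfalso
        have h1 : b = G.hb := by
          rw [← hsb, ← hT.home]
          congr 1
          omega
        rw [h1] at g3
        have := (g3 _ hBhb).1
        simp at this
    have hMa' := hMa
    rw [hout' a hout] at hMa'
    obtain ⟨hb1, hb2⟩ := hst (m + i₀)
    rw [hsb] at hb1 hb2
    push_cast at hb2
    rcases farB_slider hMa' hκ2 with ⟨q, -, haq⟩ | hst0
    · -- a queen at home
      obtain ⟨c1, c2⟩ := hq q
      rw [← haq] at c1 c2
      have c3 := col_lt_xD hT.geo q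
      have c4 : G.X0 - G.col q ≤ G.base q := by
        cases q <;> simp only [FGeo.base] <;> omega
      unfold OrthI DiagI at g1
      rcases g1 with g1 | ⟨-, g1⟩
      · omega
      · omega
    · obtain ⟨u, hu, l, hl, hal, hslk⟩ := foa2_dir g1 hκ2
      by_cases hut : u = 62
      · subst hut
        have h1 : a = stepL O z 62 (m + i₀ + l) := by
          rw [hal, ← hsb, fla_step (m + i₀) l]
        rcases Nat.lt_or_ge J (m + i₀ + l) with h2 | h2
        · have h3 : G.hb = b + (J - (m + i₀)) • vec 62 := by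
            rw [← hsb, ← fla_step, ← hT.home]
            congr 1
            omega
          have h4 := g2 _ (fwe_betw hu hal (by omega) (by omega) h3)
          rw [hBhb] at h4
          cases h4
        · rw [h1, hT.line.clear _ (by omega) h2] at hst0
          cases hst0
      by_cases hop : u + 62 = 84
      · have h22 : u = 22 := by omega
        subst h22
        have hv : vec 22 = (0, -1) := by decide
        have ha1 : a.1 = G.xD := by
          rw [hal, add_nsmul_fst, hv, hb1]
          simp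
        have ha2 : a.2 = (sqA O z).2 + (m + i₀) - l := by
          rw [hal, add_nsmul_snd, hv, hb2]
          simp only
          ring
        have hmk := hP.hmark
        obtain ⟨m1, m2⟩ := hst m
        rw [← hmk] at m1 m2
        have hv2 : vec 62 = (0, 1) := by decide
        have hk1 : (sq (orgP O X Y) k).1 = G.xD := by
          have h1 := congrArg Prod.fst hSeq
          rw [add_nsmul_fst, hv2] at h1
          simp only at h1
          rw [m1] at h1
          omega
        have hk2 : (sq (orgP O X Y) k).2 = (sqA O z).2 + m - n' := by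
          have h1 := congrArg Prod.snd hSeq
          rw [add_nsmul_snd, hv2] at h1
          simp only at h1
          rw [m2] at h1
          omega
        rcases lt_trichotomy ((i₀ : ℤ) - l) (-(n' : ℤ)) with h1 | h1 | h1
        · have h2 : BetwI a b (sq (orgP O X Y) k) := by
            unfold BetwI OrthI
            rw [ha1, ha2, hk1, hk2, hb1, hb2]
            omega
          have h3 := g2 _ h2
          rw [hkey] at h3
          cases h3
        · have h2 : a = sq (orgP O X Y) k := by
            apply Prod.ext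
            · rw [ha1, hk1]
            · rw [ha2, hk2]
              omega
          rw [h2, hkey] at hMa
          simp at hMa
        · rcases lt_trichotomy ((i₀ : ℤ) - l) 0 with h2 | h2 | h2
          · obtain ⟨c, hc, hc0, hce⟩ := hScl (n' + (i₀ - l : ℤ)).toNat (by omega) (by omega)
            have h3 : a = sq (orgP O X Y) c := by
              rw [hce]
              apply Prod.ext
              · rw [add_nsmul_fst, hv2, ha1, hk1]
                simp
              · rw [add_nsmul_snd, hv2, ha2, hk2]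
                simp only
                omega
            rw [h3, hbrdsq c hc (by rw [hc0]; decide), hc0] at hMa
            cases hMa
          · have h3 : a = sq (orgP O X Y) e := by
              apply Prod.ext
              · rw [ha1, m1]
              · rw [ha2, m2]
                omega
            apply hout
            have he : e < 400 := by
              obtain ⟨a1, a2, a3, a4⟩ := hP.inn
              omega
            rw [h3, idx_sq _ he, h7]
            exact ⟨inB_sq _ he, by decide⟩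
          · obtain ⟨j, hj⟩ : ∃ j : ℕ, (j : ℤ) = (m + i₀ : ℤ) - l :=
              ⟨((m + i₀ : ℤ) - l).toNat, by omega⟩
            have h3 : a = stepL O z 62 j := by
              apply Prod.ext
              · rw [ha1, (hst j).1]
              · rw [ha2, (hst j).2]
                omega
            rw [h3, hT.line.clear j (by omega) (by omega)] at hst0
            cases hst0
      · have hal' : a = stepL O z 62 (m + i₀) + l • vec u := by rw [hsb]; exact hal
        rw [hal'] at hst0
        obtain ⟨i, hi, hil, hiP, hiB⟩ := hP.closed (m + i₀) (by omega) (by omega) u hu hut hop l κ hl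
          hst0 hslk (by rcases hκ2 with h | h; exacts [Or.inl h, Or.inr (Or.inl ⟨by decide, h⟩)])
        rw [hsb] at hiP hiB
        have h1 := g2 _ (fwe_betw hu hal hi hil rfl)
        rw [hinP _ hiP, fullB_none] at h1
        exact hiB h1.2
  · -- the rook was there before
    have hB1 : B (stepL O z 62 (m + i₀)) = some (false, κ) := by
      unfold Board.move at hκm
      rw [if_neg hsa, if_neg hsb] at hκm
      exact hκm
    rw [hfile _ (by omega)] at hB1
    have hJ1 : J < m + i₀ := by
      by_contra hcon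
      split_ifs at hB1 with h1 h2
      · exact hκb (by simpa using hB1.symm)
      · omega
    have ha := hhome hJ1
    refine ⟨ha, ?_⟩
    subst ha
    obtain ⟨w, hw1, -, hgo⟩ := hcan
    rw [hBhb] at hw1
    obtain rfl : (false, Kind.bishop) = w := by simpa using hw1
    have hnb : ∀ κ', B b ≠ some (false, κ') := by
      intro κ' h1
      rcases hgo with ⟨h2, -⟩ | ⟨⟨w, h2, h3, -⟩, -⟩
      · rw [h1] at h2
        cases h2
      · rw [h1] at h2
        obtain rfl : (false, κ') = w := by simpa using h2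
        simp at h3
    have hsl : Slides B diagDirs G.hb b := by
      rcases hgo with ⟨-, h1⟩ | ⟨-, h1⟩
      · rw [if_neg (by decide)] at h1
        exact h1
      · exact h1
    obtain ⟨d, hd, n, hn, hbn, hcn⟩ := hsl
    -- a blocker
    have hblk : ∀ r : ℕ, 0 < r → G.hb + r • d ∉ inP O X Y →
        (∃ κ, B0 (G.hb + r • d) = some (false, κ)) → n < r := by
      intro r hr h1 h2
      obtain ⟨κ', h3⟩ := foa2_black (G := G) (F := F) h2
      rw [← hinP _ h1] at h3
      by_contra hcon
      rcases Nat.lt_or_ge r n with h4 | h4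
      · rw [hcn r hr h4] at h3
        cases h3
      · obtain rfl : r = n := by omega
        rw [← hbn] at h3
        exact hnb κ' h3
    simp only [diagDirs, List.mem_cons, List.not_mem_nil, or_false] at hd
    have hX := hP.hX
    have hY := hP.hY
    have hhb1 : G.hb.1 = G.xD := rfl
    have hhb2 : G.hb.2 = G.X0 - 2 - G.xD := rfl
    rcases hd with rfl | rfl | rfl | rfl
    · left
      refine ⟨n, hn, ?_⟩
      rw [hbn]
      apply Prod.ext
      · rw [add_nsmul_fst, hhb1]
        simp only [FGeo.out]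
        ring
      · rw [add_nsmul_snd, hhb2]
        simp only [FGeo.out]
        ring
    · -- SE
      right
      have hse : ∀ r : ℕ, G.hb + r • ((1, -1) : Sq) = G.se r := by
        intro r
        apply Prod.ext
        · rw [add_nsmul_fst, hhb1]
          simp only [FGeo.se]
          ring
        · rw [add_nsmul_snd, hhb2]
          simp only [FGeo.se]
          ring
      rw [hse] at hbn
      refine ⟨n, hn, ?_, hbn⟩
      have h1 := hblk (G.m + 1) (by omega) (by
        rw [hse]
        intro h2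
        rcases Nat.eq_zero_or_pos G.m with h3 | h3
        · have h4 := foa2_top hP h2
          simp only [FGeo.se] at h4
          rw [h3] at h4
          push_cast at h4
          omega
        · have h4 : G.se G.m ∈ TileRegH H O := by
            refine foa2_reg hX hY h2 ?_ ?_
            · simp only [FGeo.se]
              push_cast
              omega
            · simp only [FGeo.se]
              push_cast
              omega
          exact (hT.hull _ h4).2.2.2.2.1 G.m h3 le_rfl rfl) (by rw [hse]; exact hT.se)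
      omega
    · -- NW
      exfalso
      have h1 := hblk 1 Nat.one_pos (by
        intro h2
        have h4 := foa2_top hP h2
        rw [add_nsmul_snd, hhb2] at h4
        push_cast at h4
        omega) (by rw [one_smul]; exact hT.nw)
      omega
    · -- SW
      exfalso
      have hsw : ∀ r : ℕ, G.hb + r • ((-1, -1) : Sq) = G.sw r := by
        intro r
        apply Prod.ext
        · rw [add_nsmul_fst, hhb1]
          simp only [FGeo.sw]
          ring
        · rw [add_nsmul_snd, hhb2]
          simp only [FGeo.sw]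
          ring
      have h1 := hblk 1 Nat.one_pos (by
        rw [hsw]
        intro h2
        have h4 : G.sw 1 ∈ TileRegH H O := by
          refine foa2_reg hX hY h2 ?_ ?_ <;> simp
        exact (hT.hull _ h4).2.2.2.2.2 1 Nat.one_pos (by norm_num) rfl) (by rw [hsw]; exact hT.sw)
      omega

/-- the board after the event: the mark becomes `8` -/
theorem out_brd (hT : OutT G B0 R H A z J O) (hP : LineP B0 H 62 z J O X Y e m) {F : Far}
    (hq : ∀ q, AtHome G F q) (hb : F.b = G.hb) {p k : Nat}
    (hp : WF (cxG 62 12 O X Y e (fullB G B0 F) (rayG 62 O X Y e 1)) p k) (h7 : cell p e = 7)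
    {b : Sq} (hd : Dst G b) :
    (cxG 62 12 O X Y e (delB (fullB G B0 ⟨F.q, b⟩) (rkS G)) (rkS G)).brd (arr' p e) =
      ((cxG 62 12 O X Y e (fullB G B0 F) (rayG 62 O X Y e 1)).brd p).move G.hb b := by
  have _ := hp
  have hcell : ∀ i, cell (arr' p e) i = if i = e then 8 else cell p i := by
    intro i
    rw [arr'_eq]
    exact cell_arr h7 i
  have hdec : ∀ i, dec (cell (arr' p e) i) = dec (cell p i) ∧
      (cell (arr' p e) i ≠ 15 ↔ cell p i ≠ 15) := by
    intro i
    rw [hcell]
    by_cases h : i = e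
    · rw [if_pos h, h, h7]
      exact ⟨rfl, by decide⟩
    · rw [if_neg h]
      exact ⟨rfl, Iff.rfl⟩
  have h8 : cell (arr' p e) e = 8 := by rw [hcell, if_pos rfl]
  obtain ⟨d1, d2, d3⟩ := foa1_dst hd
  have hrx : (rkS G).1 = G.xD := by simp [rkS, FGeo.hb]
  have hhx : G.hb.1 = G.xD := rfl
  have hhr : G.hb ≠ rkS G := by
    intro h
    have h1 := congrArg Prod.snd h
    simp [rkS] at h1
  -- the home and the square of the bishop are not in the region of the tile
  have hreg : ∀ c : Sq, c ∈ TileRegH H O → c ≠ G.hb ∧ c ≠ b ∧ c ≠ rkS G := by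
    intro c hc
    obtain ⟨g1, g2, g3, g4, g5, g6⟩ := hT.hull c hc
    refine ⟨g3, ?_, g4⟩
    rintro rfl
    rcases hd with ⟨t, ht, hb'⟩ | ⟨t, ht, ht', hb'⟩
    · exact g2 (hb' ▸ out_zone hT.geo ht)
    · exact g5 t ht ht' hb'
  have hInB : ∀ c : Sq, InB (orgP O X Y) c → c ≠ G.hb ∧ c ≠ b ∧ c ≠ rkS G :=
    fun c hc => hreg c (foa1_reg hP hc)
  have hFe : F = ⟨F.q, G.hb⟩ := by
    rw [← hb]
  have hbz : b.2 ≤ G.T + 1 ∨ G.xD ≤ b.1 := by
    have h1 := hT.geo.hTD
    rcases hd with ⟨t, ht, rfl⟩ | ⟨t, ht, -, rfl⟩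
    · right; simp only [FGeo.out]; omega
    · right; simp only [FGeo.se]; omega
  funext s
  unfold Board.move
  by_cases hs : InB (orgP O X Y) s
  · obtain ⟨s1, s2, s3⟩ := hInB s hs
    rw [if_neg s1, if_neg s2, foa1_brd, foa1_brd]
    by_cases h15 : cell p (idx (orgP O X Y) s) ≠ 15
    · rw [if_pos ⟨hs, (hdec _).2.2 h15⟩, if_pos ⟨hs, h15⟩, (hdec _).1]
    · have n1 : ¬ (InB (orgP O X Y) s ∧ cell (arr' p e) (idx (orgP O X Y) s) ≠ 15) :=
        fun h => h15 ((hdec _).2.1 h.2)
      have n2 : ¬ (InB (orgP O X Y) s ∧ cell p (idx (orgP O X Y) s) ≠ 15) := fun h => h15 h.2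
      have n3 : ¬ (s = rkS G ∧ cell (arr' p e) e = 8) := fun h => s3 h.1
      have n4 : ¬ (s = rayG 62 O X Y e 1 ∧ cell p e = 8) := by
        rintro ⟨-, h⟩
        rw [h7] at h
        exact absurd h (by decide)
      rw [if_neg n1, if_neg n2, if_neg n3, if_neg n4]
      unfold delB
      rw [if_neg s3, hFe, out_hull hT hq (Or.inr hd) (hT.hull s (foa1_reg hP hs)),
        out_hull hT hq (Or.inl rfl) (hT.hull s (foa1_reg hP hs))]
  · have hp0 : ∀ c : Sq, ¬ InB (orgP O X Y) c →
        (cxG 62 12 O X Y e (fullB G B0 F) (rayG 62 O X Y e 1)).brd p c = fullB G B0 F c := by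
      intro c hc
      rw [foa1_brd, if_neg (fun h => hc h.1), if_neg]
      rintro ⟨-, h⟩
      rw [h7] at h
      exact absurd h (by decide)
    have hnhb : ¬ InB (orgP O X Y) G.hb := fun h => (hInB _ h).1 rfl
    rw [hp0 s hs, hp0 _ hnhb, foa1_brd, if_neg (fun h => hs h.1)]
    by_cases s3 : s = rkS G
    · subst s3
      rw [if_pos ⟨rfl, h8⟩, if_neg hhr.symm, if_neg d3.symm, hFe,
        foa1_full hT.geo hq (Or.inr hrx.ge), if_neg hhr.symm, hT.rook]
      rfl
    · rw [if_neg (fun h => s3 h.1)]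
      unfold delB
      rw [if_neg s3]
      by_cases s1 : s = G.hb
      · subst s1
        rw [if_pos rfl, foa1_full hT.geo hq (Or.inr hhx.ge), if_neg d2.symm]
        have hmJ := hP.mJ
        rw [← hT.home]
        exact hT.line.clear J (by omega) le_rfl
      · rw [if_neg s1]
        by_cases s2 : s = b
        · subst s2
          rw [if_pos rfl, foa1_full hT.geo hq hbz, if_pos rfl, hFe,
            foa1_full hT.geo hq (Or.inr hhx.ge), if_pos rfl]
        · rw [if_neg s2]
          unfold fullB farB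
          have e1 : ¬ (True ∧ s = (⟨F.q, b⟩ : Far).b) := fun h => s2 h.2
          have e2 : ¬ (True ∧ s = F.b) := fun h => s1 (h.2.trans hb)
          rw [if_neg e1, if_neg e2]

/-- chunk FOA: **phase 0** -/
theorem out_fam0 (hT : OutT G B0 R H A z J O) (hP : LineP B0 H 62 z J O X Y e m) {F : Far}
    (hq : ∀ q, AtHome G F q) (hb : F.b = G.hb) :
    Family R PW (rsK 62 12 e) (K0 62 12 O X Y e (fullB G B0 F) (WOut G B0 F)) := by
  have hrx : (rkS G).1 = G.xD := by simp [rkS, FGeo.hb]
  have hr1 : (rayG 62 O X Y e 1).1 = G.xD := by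
    have h1 : rayG 62 O X Y e 1 = stepL O z 62 (m + 1) := foa1_ray hP 1
    rw [h1]
    exact (foa2_step O z (m + 1)).1.trans (foa2_home hT).1
  rw [foa1_rs hP]
  refine ⟨?_, ?_, ?_, ?_, ?_, ?_⟩
  · rintro n C (⟨-, rfl⟩ | ⟨-, B, f, ⟨rfl, b, hd, rfl⟩, rfl⟩)
    · exact out_ok0 hT hP hq hb
    · exact out_ok1 hT hP hq hd
  · rintro n C (⟨-, rfl⟩ | ⟨-, B, f, ⟨rfl, b, hd, rfl⟩, rfl⟩) <;> rfl
  · rintro n C (⟨-, rfl⟩ | ⟨-, B, f, ⟨rfl, b, hd, rfl⟩, rfl⟩)
    · exact foa1_sep hT hP hr1
    · exact foa1_sep hT hP hrx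
  · intro n C p k a b ρ hρ hK hp hG hs hl hout hh
    rw [List.mem_singleton.1 hρ] at hs hh ⊢
    refine ⟨rfl, fun h => absurd h (by decide), fun n' hn' => ?_⟩
    rcases hK with ⟨hn, hC⟩ | ⟨hn, -⟩
    · have h7 : cell p e = 7 := by
        unfold see7 at hs
        exact Nat.eq_of_beq_eq_true (Bool.and_eq_true_iff.1 hs).1
      obtain ⟨ha, hd⟩ := out_event hT hP hq hb hC hp hs hl hout hh
      subst hC
      subst ha
      have hbr := out_brd hT hP hq hb hp h7 hd
      refine ⟨_, Or.inr ⟨by omega, _, _, ⟨rfl, b, hd, rfl⟩, rfl⟩, hbr, ?_⟩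
      rw [← hbr]
      exact foa1_G hT hP hrx (fun c hc => foa1_del hT hq hd hc) _
    · omega
  · intro n C p k ρ hρ hK hp hG hs a hl
    rw [List.mem_singleton.1 hρ] at hs hl ⊢
    have h7 : cell p e = 7 := by
      unfold see7 at hs
      exact Nat.eq_of_beq_eq_true (Bool.and_eq_true_iff.1 hs).1
    rcases hK with ⟨-, rfl⟩ | ⟨-, B, f, ⟨rfl, b, hd, rfl⟩, rfl⟩
    · refine foa1_edge hP (fun c hc => ?_) hp h7 a
      have hFe : F = ⟨F.q, G.hb⟩ := by
        rw [← hb]
      rw [hFe]
      exact out_hull hT hq (Or.inl rfl) (hT.hull c hc)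
    · exact foa1_edge hP (fun c hc => foa1_del hT hq hd (hT.hull c hc)) hp h7 a
  · intro h
    exact absurd h (by decide)

/-- chunk FOA: **phase 1** -/
theorem out_fam1 (hT : OutT G B0 R H A z J O) (hP : LineP B0 H 62 z J O X Y e m) {F : Far}
    (hq : ∀ q, AtHome G F q) {b : Sq} (hd : Dst G b) :
    Family R PW (rsK 62 12 e) (K1 62 12 O X Y e (fullB G B0 ⟨F.q, b⟩) (rkS G)) := by
  have hrx : (rkS G).1 = G.xD := by simp [rkS, FGeo.hb]
  rw [foa1_rs hP]
  refine ⟨?_, ?_, ?_, ?_, ?_, ?_⟩
  · rintro n C ⟨-, rfl⟩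
    exact out_ok1 hT hP hq hd
  · rintro n C ⟨-, rfl⟩
    rfl
  · rintro n C ⟨-, rfl⟩
    exact foa1_sep hT hP hrx
  · intro n C p k a b ρ hρ hK hp hG hs hl hout hh
    rw [List.mem_singleton.1 hρ] at hs hh ⊢
    refine ⟨rfl, fun h => absurd h (by decide), fun n' hn' => ?_⟩
    obtain ⟨hn, -⟩ := hK
    omega
  · intro n C p k ρ hρ hK hp hG hs a hl
    rw [List.mem_singleton.1 hρ] at hs hl ⊢
    have h7 : cell p e = 7 := by
      unfold see7 at hs
      exact Nat.eq_of_beq_eq_true (Bool.and_eq_true_iff.1 hs).1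
    obtain ⟨-, rfl⟩ := hK
    exact foa1_edge hP (fun c hc => foa1_del hT hq hd (hT.hull c hc)) hp h7 a
  · intro h
    exact absurd h (by decide)

/-- the squares of the bishop on its way out are free -/
theorem foa2_out (hT : OutT G B0 R H A z J O) {F : Far} (hq : ∀ q, AtHome G F q) {b : Sq}
    {t : ℕ} (ht : 0 < t) (hb : b ≠ G.out t) : fullB G B0 ⟨F.q, b⟩ (G.out t) = none := by
  have hz := out_zone hT.geo ht
  unfold fullB
  rw [farB_none]
  refine ⟨?_, ?_, zone_not_floater hT.geo hz, hT.wor.zone _ hz⟩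
  · rintro ⟨q, -, h⟩
    have h1 := (hq q).1
    have h2 := col_lt_xD hT.geo q
    have h3 : (G.out t).1 = (F.q q).1 := congrArg Prod.fst h
    simp only [FGeo.out] at h3
    omega
  · rintro ⟨-, h⟩
    exact hb h.symm

theorem foa2_outT (hT : OutT G B0 R H A z J O) {t : ℕ} (ht : 0 < t) :
    G.out t ∉ TileRegH H O := fun h => (hT.hull _ h).2.1 (out_zone hT.geo ht)

/-- chunk FOA: the departure is possible -/
theorem out_mv (hT : OutT G B0 R H A z J O) (hJ : 0 < J) {F : Far} (hB : FBase G F)
    (hq : ∀ q, AtHome G F q)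
    (hb : F.b = G.hb) {t : ℕ} (ht : 0 < t) (L : List Pc)
    (hL : ∀ q ∈ L, tsq O q.x q.y ∈ TileRegH H O) :
    CanGo (stB (fullB G B0 F) O L) false G.hb (G.out t) ∧
      (stB (fullB G B0 F) O L).move G.hb (G.out t) = stB (fullB G B0 ⟨F.q, G.out t⟩) O L := by
  have hFe : F = ⟨F.q, G.hb⟩ := by
    rw [← hb]
  have hno : ∀ r : ℕ, 0 < r → ∀ u ∈ L, tsq O u.x u.y ≠ G.out r :=
    fun r hr u hu h => foa2_outT hT hr (h ▸ hL u hu)
  have hnh : ∀ u ∈ L, tsq O u.x u.y ≠ G.hb :=
    fun u hu h => (hT.hull _ (hL u hu)).2.2.1 h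
  have key : ∀ (B : Board) (c : Sq), (∀ u ∈ L, tsq O u.x u.y ≠ c) → stB B O L c = B c := by
    intro B c hc
    rcases fwd_stB B O L c with ⟨u, hu, he, -⟩ | ⟨he, -⟩
    · exact absurd he (hc u hu)
    · exact he
  have hne : ∀ r : ℕ, 0 < r → G.hb ≠ G.out r := by
    intro r hr h
    have h1 := congrArg Prod.fst h
    simp only [FGeo.hb, FGeo.out] at h1
    omega
  have hfree : ∀ r : ℕ, 0 < r → stB (fullB G B0 F) O L (G.out r) = none := by
    intro r hr
    rw [key _ _ (hno r hr), hFe]
    exact foa2_out hT hq hr (hne r hr)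
  have hqh : ¬ ∃ q, True ∧ G.hb = F.q q := by
    rintro ⟨q, -, h⟩
    exact hB.2.1 q (by rw [hb]; exact h.symm)
  have hfullhb : fullB G B0 F G.hb = some (false, Kind.bishop) := by
    unfold fullB farB
    rw [if_neg hqh, if_pos ⟨trivial, hb.symm⟩]
  have hbhb : stB (fullB G B0 F) O L G.hb = some (false, Kind.bishop) := by
    rw [key _ _ hnh, hfullhb]
  have hadd : ∀ r : ℕ, G.out r = G.hb + r • ((1, 1) : Sq) := by
    intro r
    apply Prod.ext
    · rw [add_nsmul_fst]
      simp only [FGeo.out, FGeo.hb]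
      ring
    · rw [add_nsmul_snd]
      simp only [FGeo.out, FGeo.hb]
      ring
  constructor
  · refine ⟨(false, Kind.bishop), hbhb, rfl, Or.inl ⟨hfree t ht, ?_⟩⟩
    rw [if_neg (by decide)]
    refine ⟨(1, 1), by decide, t, ht, hadd t, ?_⟩
    intro i hi _
    rw [← hadd]
    exact hfree i hi
  · have hB0 : B0 G.hb = none := by
      rw [← hT.home]
      exact hT.line.clear J hJ le_rfl
    have hfl : ¬ G.floater G.hb := by
      intro h
      have h1 := floater_above hT.geo h
      have h2 := hT.geo.hTD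
      simp only [FGeo.hb] at h1
      omega
    have hmv : (fullB G B0 F).move G.hb (G.out t) = fullB G B0 ⟨F.q, G.out t⟩ := by
      funext c
      unfold Board.move
      by_cases h1 : c = G.hb
      · rw [if_pos h1, h1]
        symm
        unfold fullB
        rw [farB_none]
        exact ⟨hqh, fun h => hne t ht h.2, hfl, hB0⟩
      · rw [if_neg h1]
        by_cases h2 : c = G.out t
        · rw [if_pos h2, hfullhb, h2]
          unfold fullB farB
          have hqo : ¬ ∃ q, True ∧ G.out t = F.q q := by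
            rintro ⟨q, -, h⟩
            have h3 := (hq q).1
            have h4 := col_lt_xD hT.geo q
            have h5 : (G.out t).1 = (F.q q).1 := congrArg Prod.fst h
            simp only [FGeo.out] at h5
            omega
          rw [if_neg hqo, if_pos ⟨trivial, rfl⟩]
        · rw [if_neg h2]
          unfold fullB farB
          by_cases h3 : ∃ q, True ∧ c = F.q q
          · rw [if_pos h3, if_pos h3]
          · have e1 : ¬ (True ∧ c = F.b) := fun h => h1 (h.2.trans hb)
            have e2 : ¬ (True ∧ c = (⟨F.q, G.out t⟩ : Far).b) := fun h => h2 h.2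
            rw [if_neg h3, if_neg h3, if_neg e1, if_neg e2]
    funext c
    by_cases hc : ∀ u ∈ L, tsq O u.x u.y ≠ c
    · rw [key _ c hc, ← hmv]
      unfold Board.move
      rw [key _ _ hnh, key _ c hc]
    · push Not at hc
      obtain ⟨u, hu, he⟩ := hc
      have n1 : c ≠ G.hb := by
        rintro rfl
        exact hnh u hu he
      have n2 : c ≠ G.out t := by
        rintro rfl
        exact hno t ht u hu he
      unfold Board.move
      rw [if_neg n1, if_neg n2]
      unfold stB
      cases hf : L.find? (fun q => decide (tsq O q.x q.y = c)) with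
      | some v => rfl
      | none =>
        rw [List.find?_eq_none] at hf
        exact absurd (decide_eq_true he) (hf u hu)

/-- chunk FOA: no White piece can go to the file, nor capture the rook -/
theorem out_far (hT : OutT G B0 R H A z J O)
    (hw : ∀ j : ℕ, 0 < j → j ≤ J → ∀ a κ, B0 a = some (true, κ) → WNo B0 κ a (stepL O z 62 j))
    {F : Far} (hq : ∀ q, AtHome G F q) {b : Sq} (hd : Dst G b) (L : List Pc)
    (hL : ∀ q ∈ L, (9 ≤ q.c ∧ q.c ≤ 13) ∨ q.c = 6) (y : Sq) (l m : ℕ)
    (hf : rkS G = sqA O z + m • vec 62) (h0 : 0 < l) (hlm : l ≤ m)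
    (hk : stB (fullB G B0 ⟨F.q, b⟩) O L y ≠ some (true, Kind.king))
    (he : ∀ i : ℕ, 0 < i → i < m →
      stB (fullB G B0 ⟨F.q, b⟩) O L (sqA O z + i • vec 62) = none) :
    ¬ CanGo (stB (fullB G B0 ⟨F.q, b⟩) O L) true y (sqA O z + l • vec 62) := by
  have _ := hq
  have _ := hd
  have hm : m = J + 1 := by
    have h1 : sqA O z + m • vec 62 = stepL O z 62 m := rfl
    rw [h1] at hf
    have h2 := (foa2_step O z m).2
    have h3 := (foa2_home hT).2
    rw [← hf] at h2
    have h4 : (rkS G).2 = G.X0 - 2 - G.xD + 1 := rfl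
    omega
  obtain ⟨c, hcd⟩ : ∃ c, c = sqA O z + l • vec 62 := ⟨_, rfl⟩
  rw [← hcd]
  rintro ⟨⟨w, κ⟩, hw1, hw2, hgo⟩
  simp only at hw2
  subst hw2
  have hB0 : B0 y = some (true, κ) := by
    rcases fwd_stB (fullB G B0 ⟨F.q, b⟩) O L y with ⟨u, hu, -, hu2⟩ | ⟨hu2, -⟩
    · exfalso
      rw [hw1] at hu2
      have h1 := fwd_dec_white (hL u hu) hu2.symm
      subst h1
      exact hk hw1
    · rw [hw1] at hu2
      exact farB_white hu2.symm
  have hst : WNo B0 κ y c := by
    rcases Nat.lt_or_ge J l with h1 | h1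
    · have h2 : l = m := by omega
      rw [hcd, h2, ← hf]
      exact hT.whiteR y κ hB0
    · rw [hcd]
      exact hw l h0 h1 y κ hB0
  have hne : ∀ d, B0 d ≠ none → stB (fullB G B0 ⟨F.q, b⟩) O L d ≠ none := by
    intro d hd
    rcases fwd_stB (fullB G B0 ⟨F.q, b⟩) O L d with ⟨u, hu, -, he⟩ | ⟨he, -⟩
    · rw [he]
      exact fwd_dec_ne (hL u hu)
    · rw [he]
      intro h
      rw [fullB_none] at h
      exact hd h.2
  have hatt : (∀ d, BetwI y c d → stB (fullB G B0 ⟨F.q, b⟩) O L d = none) →
      (∃ d, BetwI y c d ∧ B0 d ≠ none) → False := by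
    rintro h2 ⟨d, h3, h4⟩
    exact hne d h4 (h2 d h3)
  cases κ with
  | king => exact hst
  | knight =>
    rcases hgo with ⟨-, hgo⟩ | ⟨-, hgo⟩
    · rw [if_neg (by decide)] at hgo; exact hst hgo
    · exact hst hgo
  | pawn =>
    rcases hgo with ⟨-, hgo⟩ | ⟨⟨m', hm1, hm2, -⟩, hgo⟩
    · rw [if_pos rfl] at hgo
      exact hst.1 hgo
    · have hlm' : l = m := by
        by_contra hne'
        rw [hcd, he l h0 (by omega)] at hm1
        cases hm1
      have hB : B0 c ≠ none := by
        rw [hcd, hlm', ← hf, hT.rook]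
        exact Option.some_ne_none _
      rcases hgo with hgo | hgo
      · exact (hst.2 hB).1 hgo
      · exact (hst.2 hB).2 hgo
  | queen =>
    have hgo' : Slides (stB (fullB G B0 ⟨F.q, b⟩) O L) (orthDirs ++ diagDirs) y c := by
      rcases hgo with ⟨-, hgo⟩ | ⟨-, hgo⟩
      · rw [if_neg (by decide)] at hgo; exact hgo
      · exact hgo
    rw [slides_all] at hgo'
    exact hatt hgo'.2 (hst hgo'.1)
  | rook =>
    have hgo' : Slides (stB (fullB G B0 ⟨F.q, b⟩) O L) orthDirs y c := by
      rcases hgo with ⟨-, hgo⟩ | ⟨-, hgo⟩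
      · rw [if_neg (by decide)] at hgo; exact hgo
      · exact hgo
    rw [slides_orth] at hgo'
    exact hatt hgo'.2 (hst hgo'.1)
  | bishop =>
    have hgo' : Slides (stB (fullB G B0 ⟨F.q, b⟩) O L) diagDirs y c := by
      rcases hgo with ⟨-, hgo⟩ | ⟨-, hgo⟩
      · rw [if_neg (by decide)] at hgo; exact hgo
      · exact hgo
    rw [slides_diag] at hgo'
    exact hatt hgo'.2 (hst hgo'.1)

end Pool.Agent.Lib.H32C.Loc
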