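import Pool.Agent.Lib.H32C.ChW
import Pool.Agent.Lib.H32C.FbA
import Pool.Agent.Lib.H32C.FeB
import Pool.Agent.Lib.H32C.FoA

/-!
# The services `Out` and `Bin`: certificates as chains of groups
-/

set_option autoImplicit false

namespace Pool.Agent.Lib.H32C.Loc

/-- A chain of groups of items for upper bounds, from the pairs `a` on. -/
inductive KU (H A t k z : Nat) (S : List (List Pc)) (a : List Mo) : List Mo → Prop
  | nil : KU H A t k z S a a
  | grp {acc : List Mo} (h : KU H A t k z S a acc) (L : List WU) (hg : grpKU H A t k S acc L = true)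
      (hp : wpU ⟨H, A, t, z⟩ L = true) : KU H A t k z S a (keysWU L acc)

/-- A chain of groups of items for lower bounds, from the pairs `a` on. -/
inductive KL (H A t k z : Nat) (S : List (List Pc)) (a : List Mo) : List Mo → Prop
  | nil : KL H A t k z S a a
  | grp {acc : List Mo} (h : KL H A t k z S a acc) (L : List WL) (hg : grpKL H A t k z S acc L = true)
      (hp : wpL ⟨H, A, t, z⟩ L = true) : KL H A t k z S a (keysWL L acc)

/-- **The certificate of `Out` or `Bin`**, from the state `x` to the state `y`. -/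
structure EvC (H A t k z : Nat) (S : List (List Pc)) (x y : Nat) : Prop where
  inz : inA2 H z = true
  white : whiteUp ⟨H, A, t, z⟩ = true
  up : ∃ acc, KU H A t k z S [⟨y, 1⟩] acc ∧ membM x 0 acc = true
  low : ∃ acc u, KL H A t k z S [⟨y, 1⟩] acc ∧ u.e = 0 ∧ u.kd = 0 ∧ u.φ = 0 ∧ u.i = x ∧
    wlOkK H A t k z S acc u (patW A S u.X u.Y u.i (u.swK t k).M) (kOf u.X u.Y (nthP S u.i)) = true

variable {G : FGeo} {B0 : Board} {R : Room} {H A z : Nat} {J : ℕ} {O : Sq}

theorem chk_inner {t : Nat} {L : List WU} (h : wpU ⟨H, A, t, z⟩ L = true) :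
    ∀ u ∈ L, u.e ≠ 0 → wpOk ⟨H, A, t, z⟩ u.X u.Y u.e = true ∧ Inner u.e := by
  intro u hu he
  unfold wpU at h
  rw [TS1_allb] at h
  have h1 := h u hu
  rw [Bool.or_eq_true] at h1
  rcases h1 with h1 | h1
  · exact absurd (Nat.eq_of_beq_eq_true h1) he
  · exact ⟨h1, (fwe_wp h1).2.2.2.2.1⟩

theorem chk_innerL {t : Nat} {L : List WL} (h : wpL ⟨H, A, t, z⟩ L = true) :
    ∀ u ∈ L, u.e ≠ 0 → wpOk ⟨H, A, t, z⟩ u.X u.Y u.e = true ∧ Inner u.e := by
  intro u hu he
  unfold wpL at h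
  rw [TS1_allb] at h
  have h1 := h u hu
  rw [Bool.or_eq_true] at h1
  rcases h1 with h1 | h1
  · exact absurd (Nat.eq_of_beq_eq_true h1) he
  · exact ⟨h1, (fwe_wp h1).2.2.2.2.1⟩

theorem chk_dst {F F' : Far} (h : StepU G Svc.Out F F') : F' = ⟨F.q, F'.b⟩ ∧ Dst G F'.b := by
  obtain ⟨h1, h2⟩ := h
  exact ⟨by rw [← h1], h2⟩

theorem chk_stepOut {F : Far} {b : Sq} (h : Dst G b) : StepU G Svc.Out F ⟨F.q, b⟩ := ⟨rfl, h⟩

/-- **`Out`, upper bound.** -/
theorem EvC.outU {S : List (List Pc)} {x y : Nat} (h : EvC H A 62 12 z S x y)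
    (hT : OutT G B0 R H A z J O) {F : Far} (hI : Inv G Svc.Out F)
    (hex : ∀ F', StepU G Svc.Out F F' → HasValue (PFw G B0 S O F' y)) :
    HasValue (PFw G B0 S O F x) := by
  obtain ⟨acc, h1, h2⟩ := h.up
  have hq := hI.2.2.2.2.1
  have hb := hI.2.2.2.2.2
  have hF : F = ⟨F.q, G.hb⟩ := by rw [← hb]
  have hbd : BdOk H A O R (fullB G B0 F) := by
    have := out_bd hT hq (b := G.hb) (Or.inl rfl)
    rwa [← hF] at this
  have key : (∀ m ∈ acc, m.k = 0 → HasValue (PB S O (fullB G B0 F) m.j)) ∧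
      ∀ B f, WOut G B0 F B f → ∀ m ∈ acc, m.k = 1 → HasValue (PB S O B m.j) := by
    clear h2
    induction h1 with
    | nil =>
      constructor
      · intro m hm hk
        rw [List.mem_singleton.1 hm] at hk
        exact absurd hk (by simp)
      · rintro B f ⟨-, b, hd, rfl⟩ m hm _
        rw [List.mem_singleton.1 hm]
        exact hex _ (chk_stepOut hd)
    | grp _ L hg hp ih =>
      obtain ⟨i0, i1⟩ := ih
      have hin := chk_inner hp
      have hW : ∀ B f, WOut G B0 F B f → BdOk H A O R B ∧ FsOk H 12 O B f := by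
        rintro B f ⟨rfl, b, hd, rfl⟩
        exact ⟨out_bd hT hq (Or.inr hd), out_fs hT hq hd⟩
      have hf1 : ∀ B f, WOut G B0 F B f → ∀ u ∈ L, u.e ≠ 0 →
          Family R PW (rsK 62 12 u.e) (K1 62 12 O u.X u.Y u.e B f) := by
        rintro B f ⟨rfl, b, hd, rfl⟩ u hu he
        obtain ⟨m, hP⟩ := lineP_of hT.line h.inz (hin u hu he).1
        exact out_fam1 hT hP hq hd
      refine ⟨grpKU_0 hg hbd hW (fun u hu he => (hin u hu he).2) (fun u hu he => ?_) hf1 i0 i1, ?_⟩
      · obtain ⟨m, hP⟩ := lineP_of hT.line h.inz (hin u hu he).1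
        exact out_fam0 hT hP hq hb
      · intro B f hBf
        exact grpKU_1 hg (hW B f hBf).1 (hW B f hBf).2 (fun u hu he => (hin u hu he).2)
          (hf1 B f hBf) (i1 B f hBf)
  exact key.1 _ (ME2_membM _ h2) rfl

/-- **`Out`, lower bound.** -/
theorem EvC.outL {S : List (List Pc)} {x y : Nat} (h : EvC H A 62 12 z S x y)
    (hT : OutT G B0 R H A z J O) (hJ : 0 < J) {F F' : Far} (hI : Inv G Svc.Out F)
    (hst : StepL G Svc.Out F F') {β : Ordinal.{0}} (hex : GE (PFw G B0 S O F' y) β) :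
    ¬ ValLE (PFw G B0 S O F x) β := by
  obtain ⟨acc, u, h1, h2, h3, h4, h5, h6⟩ := h.low
  have hq := hI.2.2.2.2.1
  have hb := hI.2.2.2.2.2
  have hF : F = ⟨F.q, G.hb⟩ := by rw [← hb]
  have hbd : BdOk H A O R (fullB G B0 F) := by
    have := out_bd hT hq (b := G.hb) (Or.inl rfl)
    rwa [← hF] at this
  obtain ⟨g1, t, ht, g2⟩ := hst
  obtain ⟨F'q, F'b⟩ := F'
  simp only at g1 g2
  subst g1 g2
  have hd : Dst G (G.out t) := Or.inl ⟨t, ht, rfl⟩
  have hbd' : BdOk H A O R (fullB G B0 ⟨F.q, G.out t⟩) := out_bd hT hq (Or.inr hd)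
  have hfs := out_fs hT hq hd
  have hw := whiteLine_of hT.line h.inz h.white
  have key : (∀ m ∈ acc, m.k = 0 → GE (PB S O (fullB G B0 F) m.j) β) ∧
      ∀ m ∈ acc, m.k = 1 → GE (PB S O (fullB G B0 ⟨F.q, G.out t⟩) m.j) β := by
    clear h6
    induction h1 with
    | nil =>
      constructor
      · intro m hm hk
        rw [List.mem_singleton.1 hm] at hk
        exact absurd hk (by simp)
      · intro m hm _
        rw [List.mem_singleton.1 hm]
        exact hex
    | grp _ L hg hp ih =>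
      obtain ⟨i0, i1⟩ := ih
      have hin := chk_innerL hp
      have hf1 : ∀ u ∈ L, u.e ≠ 0 →
          Family R PW (rsK 62 12 u.e) (K1 62 12 O u.X u.Y u.e (fullB G B0 ⟨F.q, G.out t⟩) (rkS G)) := by
        intro u hu he
        obtain ⟨m, hP⟩ := lineP_of hT.line h.inz (hin u hu he).1
        exact out_fam1 hT hP hq hd
      refine ⟨grpKL_0 hg (by decide) hbd hbd' hfs (fun u hu he => (hin u hu he).2)
        (W := WOut G B0 F) (fun u hu he => ?_) hf1
        (fun L hL => out_mv hT hJ hI.base hq hb ht L hL)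
        (fun L hL y l m hf h0 hlm hk he => out_far hT hw hq hd L hL y l m hf h0 hlm hk he) i0 i1, ?_⟩
      · obtain ⟨m, hP⟩ := lineP_of hT.line h.inz (hin u hu he).1
        exact out_fam0 hT hP hq hb
      · exact grpKL_1 hg hbd' hfs (fun u hu he => (hin u hu he).2) hf1 i1
  rw [← h5]
  refine wlK_strict h6 h2 h3 hbd ?_
  rw [h4]
  exact key.1

/-- **`Bin`, upper bound.** -/
theorem EvC.binU {S : List (List Pc)} {x y : Nat} (h : EvC H A 61 11 z S x y)
    (hT : BinT G B0 R H A z J O) {F : Far} (hI : Inv G Svc.Bin F)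
    (hex : ∀ F', StepU G Svc.Bin F F' → HasValue (PFw G B0 S O F' y)) :
    HasValue (PFw G B0 S O F x) := by
  obtain ⟨acc, h1, h2⟩ := h.up
  have hq := hI.2.2.2.2.1
  have hb := hI.2.2.2.2.2
  have hbd : BdOk H A O R (fullB G B0 F) := bin_bd hT hq (Or.inr hb)
  have hbd' : BdOk H A O R (fullB G B0 ⟨F.q, G.hb⟩) := bin_bd hT (F := ⟨F.q, G.hb⟩) hq (Or.inl rfl)
  have key : (∀ m ∈ acc, m.k = 0 → HasValue (PB S O (fullB G B0 F) m.j)) ∧
      ∀ B f, WBin G B0 F B f → ∀ m ∈ acc, m.k = 1 → HasValue (PB S O B m.j) := by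
    clear h2
    induction h1 with
    | nil =>
      constructor
      · intro m hm hk
        rw [List.mem_singleton.1 hm] at hk
        exact absurd hk (by simp)
      · rintro B f ⟨rfl, rfl⟩ m hm _
        rw [List.mem_singleton.1 hm]
        exact hex _ ⟨rfl, rfl⟩
    | grp _ L hg hp ih =>
      obtain ⟨i0, i1⟩ := ih
      have hin := chk_inner hp
      have hW : ∀ B f, WBin G B0 F B f → BdOk H A O R B ∧ FsOk H 11 O B f := by
        rintro B f ⟨rfl, rfl⟩
        exact ⟨hbd', bin_fs hT hq⟩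
      have hf1 : ∀ B f, WBin G B0 F B f → ∀ u ∈ L, u.e ≠ 0 →
          Family R PW (rsK 61 11 u.e) (K1 61 11 O u.X u.Y u.e B f) := by
        rintro B f ⟨rfl, rfl⟩ u hu he
        obtain ⟨m, hP⟩ := lineP_of hT.line h.inz (hin u hu he).1
        exact bin_fam1 hT hP hq
      refine ⟨grpKU_0 hg hbd hW (fun u hu he => (hin u hu he).2) (fun u hu he => ?_) hf1 i0 i1, ?_⟩
      · obtain ⟨m, hP⟩ := lineP_of hT.line h.inz (hin u hu he).1
        exact bin_fam0 hT hP hq hb
      · intro B f hBf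
        exact grpKU_1 hg (hW B f hBf).1 (hW B f hBf).2 (fun u hu he => (hin u hu he).2)
          (hf1 B f hBf) (i1 B f hBf)
  exact key.1 _ (ME2_membM _ h2) rfl

/-- **`Bin`, lower bound.** -/
theorem EvC.binL {S : List (List Pc)} {x y : Nat} (h : EvC H A 61 11 z S x y)
    (hT : BinT G B0 R H A z J O) (hJ : 0 < J) {F F' : Far} (hI : Inv G Svc.Bin F)
    (hst : StepL G Svc.Bin F F') {β : Ordinal.{0}} (hex : GE (PFw G B0 S O F' y) β) :
    ¬ ValLE (PFw G B0 S O F x) β := by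
  obtain ⟨acc, u, h1, h2, h3, h4, h5, h6⟩ := h.low
  have hq := hI.2.2.2.2.1
  have hb := hI.2.2.2.2.2
  have hbd : BdOk H A O R (fullB G B0 F) := bin_bd hT hq (Or.inr hb)
  have hbd' : BdOk H A O R (fullB G B0 ⟨F.q, G.hb⟩) := bin_bd hT (F := ⟨F.q, G.hb⟩) hq (Or.inl rfl)
  obtain ⟨g1, g2⟩ := hst
  obtain ⟨F'q, F'b⟩ := F'
  simp only at g1 g2
  subst g1 g2
  have hfs := bin_fs hT hq
  have hw := whiteLine_of hT.line h.inz h.white
  have key : (∀ m ∈ acc, m.k = 0 → GE (PB S O (fullB G B0 F) m.j) β) ∧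
      ∀ m ∈ acc, m.k = 1 → GE (PB S O (fullB G B0 ⟨F.q, G.hb⟩) m.j) β := by
    clear h6
    induction h1 with
    | nil =>
      constructor
      · intro m hm hk
        rw [List.mem_singleton.1 hm] at hk
        exact absurd hk (by simp)
      · intro m hm _
        rw [List.mem_singleton.1 hm]
        exact hex
    | grp _ L hg hp ih =>
      obtain ⟨i0, i1⟩ := ih
      have hin := chk_innerL hp
      have hf1 : ∀ u ∈ L, u.e ≠ 0 →
          Family R PW (rsK 61 11 u.e) (K1 61 11 O u.X u.Y u.e (fullB G B0 ⟨F.q, G.hb⟩) G.hb) := by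
        intro u hu he
        obtain ⟨m, hP⟩ := lineP_of hT.line h.inz (hin u hu he).1
        exact bin_fam1 hT hP hq
      refine ⟨grpKL_0 hg (by decide) hbd hbd' hfs (fun u hu he => (hin u hu he).2)
        (W := WBin G B0 F) (fun u hu he => ?_) hf1
        (fun L hL => bin_mv hT hJ hI.base hq hb L hL)
        (fun L hL y l m hf h0 hlm hk he => bin_far hT hw hq L hL y l m hf h0 hlm hk he) i0 i1, ?_⟩
      · obtain ⟨m, hP⟩ := lineP_of hT.line h.inz (hin u hu he).1
        exact bin_fam0 hT hP hq hb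
      · exact grpKL_1 hg hbd' hfs (fun u hu he => (hin u hu he).2) hf1 i1
  rw [← h5]
  refine wlK_strict h6 h2 h3 hbd ?_
  rw [h4]
  exact key.1

end Pool.Agent.Lib.H32C.Loc
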