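import Pool.Agent.Lib.H32C.MemChain

/-!
# Certificates of tiles with residents as chains of groups
-/

set_option autoImplicit false

namespace Pool.Agent.Lib.H32C.Loc

/-- A chain of groups of items for upper bounds, from the pairs `a` on. -/
inductive MU (T : MT) (S : List (List Pc)) (a : List Mo) : List Mo → Prop
  | nil : MU T S a a
  | U {acc : List Mo} (h : MU T S a acc) (ps : PS) (L : List UI) (hp : psOk T ps = true)
      (hg : grpU T S ps acc L = true) : MU T S a (keysU L acc)
  | N {acc : List Mo} (h : MU T S a acc) (q : Nat) (L : List NI)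
      (hq : (Nat.beq q 0 || memb q T.st) = true)
      (hg : grpNU T.H T.A S (phs q acc) L = true) : MU T S a (addN q L acc)
  | E {acc : List Mo} (h : MU T S a acc) (ps : PS) (L : List UI) (hp : psOkE T ps = true)
      (hn : psNo ps = true) (hg : grpU T S ps acc L = true) : MU T S a (keysU L acc)

/-- A chain of groups of items for lower bounds, from the pairs `a` on. -/
inductive ML (T : MT) (S : List (List Pc)) (a : List Mo) : List Mo → Prop
  | nil : ML T S a a
  | U {acc : List Mo} (h : ML T S a acc) (ps : PS) (L : List LI) (hp : psOk T ps = true)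
      (hg : grpL T S ps acc L = true) : ML T S a (keysL L acc)
  | N {acc : List Mo} (h : ML T S a acc) (q : Nat) (L : List NI)
      (hq : (Nat.beq q 0 || memb q T.st) = true)
      (hg : grpNL T.H T.A S (phs q acc) L = true) : ML T S a (addN q L acc)
  | E {acc : List Mo} (h : ML T S a acc) (ps : PS) (L : List LI) (hp : psOkE T ps = true)
      (hg : grpL T S ps acc L = true) : ML T S a (keysL L acc)

theorem MU.hv {T : MT} {S : List (List Pc)} {a acc : List Mo} (h : MU T S a acc)
    (hT : mtOk T = true) {F : Board} {O : Sq} {R : Room} (hF : MBase T O F R)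
    (ha : HVs T S F O a) : HVs T S F O acc := by
  induction h with
  | nil => exact ha
  | U _ ps L hp hg ih => exact ih.U hF hT ps L hp hg
  | N _ q L hq hg ih => exact ih.N hF hT q hq L hg
  | E _ ps L hp hn hg ih => exact ih.E hF hT ps L hp hn hg

theorem ML.ge {T : MT} {S : List (List Pc)} {a acc : List Mo} (h : ML T S a acc)
    (hT : mtOk T = true) {F : Board} {O : Sq} {R : Room} (hF : MBase T O F R) {β : Ordinal.{0}}
    (ha : GEs T S F O β a) : GEs T S F O β acc := by
  induction h with
  | nil => exact ha
  | U _ ps L hp hg ih => exact ih.U hF hT ps L hp hg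
  | N _ q L hq hg ih => exact ih.N hF hT q hq L hg
  | E _ ps L hp hg ih => exact ih.E hF hT ps L hp hg

/-- membership in a list of pairs -/
theorem mem_acc {i q : Nat} {acc : List Mo} (h : membM i q acc = true) : (⟨i, q⟩ : Mo) ∈ acc :=
  ME2_membM _ h

/-- The gadget leads from the pair `x` to the pair `y`: upper and lower bounds. -/
structure MTr (T : MT) (S S' : List (List Pc)) (x y : Mo) : Prop where
  ok : mtOk T = true
  up : ∃ acc, MU T S [y] acc ∧ membM x.j x.k acc = true
  low : ∃ acc, ML T S' [y] acc ∧ membM x.j x.k acc = true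

end Pool.Agent.Lib.H32C.Loc
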