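import Pool.Agent.Lib.H32C.FwE

/-!
# Windows and touches: certificates as chains of groups, and what they prove about the services
-/

set_option autoImplicit false

namespace Pool.Agent.Lib.H32C.Loc

/-- the patches of a list of items satisfy the check -/
def wpU (T : WT) (L : List WU) : Bool := allb (fun u => Nat.beq u.e 0 || wpOk T u.X u.Y u.e) L

/-- the patches of a list of items satisfy the check -/
def wpL (T : WT) (L : List WL) : Bool := allb (fun u => Nat.beq u.e 0 || wpOk T u.X u.Y u.e) L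

/-- no exits after arrivals in phase `0` -/
def noX (L : List WU) : Bool := allb (fun u => !Nat.beq u.φ 0 || (Nat.beq u.e 0 ||
  List.rec true (fun _ _ _ => false) u.x0)) L

/-- A chain of groups of items for upper bounds, from the pairs `a` on. -/
inductive CU (T : WT) (S : List (List Pc)) (a : List Mo) : List Mo → Prop
  | nil : CU T S a a
  | grp {acc : List Mo} (h : CU T S a acc) (L : List WU) (hg : grpWU T S acc L = true)
      (hp : wpU T L = true) : CU T S a (keysWU L acc)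

/-- The same, without arrivals. -/
inductive CX (T : WT) (S : List (List Pc)) (a : List Mo) : List Mo → Prop
  | nil : CX T S a a
  | grp {acc : List Mo} (h : CX T S a acc) (L : List WU) (hg : grpWU T S acc L = true)
      (hp : wpU T L = true) (hx : noX L = true) : CX T S a (keysWU L acc)

/-- A chain of groups of items for lower bounds, from the pairs `a` on. -/
inductive CL (T : WT) (S : List (List Pc)) (a : List Mo) : List Mo → Prop
  | nil : CL T S a a
  | grp {acc : List Mo} (h : CL T S a acc) (L : List WL) (hg : grpWL T S acc L = true)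
      (hp : wpL T L = true) : CL T S a (keysWL L acc)

variable {G : FGeo} {B0 : Board} {s : Svc} {R : Room} {T : WT} {O : Sq}

theorem wpU_of {L : List WU} (h : wpU T L = true) (hT : WinT G B0 s R T O) (hw : wtOk T = true) :
    ∀ u ∈ L, u.e ≠ 0 → WinP G B0 s T O u.X u.Y u.e := by
  intro u hu he
  unfold wpU at h
  rw [TS1_allb] at h
  have h1 := h u hu
  rw [Bool.or_eq_true] at h1
  rcases h1 with h1 | h1
  · exact absurd (Nat.eq_of_beq_eq_true h1) he
  · exact winP_of hT hw h1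

theorem wpL_of {L : List WL} (h : wpL T L = true) (hT : WinT G B0 s R T O) (hw : wtOk T = true) :
    ∀ u ∈ L, u.e ≠ 0 → WinP G B0 s T O u.X u.Y u.e := by
  intro u hu he
  unfold wpL at h
  rw [TS1_allb] at h
  have h1 := h u hu
  rw [Bool.or_eq_true] at h1
  rcases h1 with h1 | h1
  · exact absurd (Nat.eq_of_beq_eq_true h1) he
  · exact winP_of hT hw h1

theorem noX_of {L : List WU} (h : noX L = true) : ∀ u ∈ L, u.φ = 0 → u.e ≠ 0 → u.x0 = [] := by
  intro u hu h0 he
  unfold noX at h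
  rw [TS1_allb] at h
  have h1 := h u hu
  rw [Bool.or_eq_true, Bool.or_eq_true] at h1
  rcases h1 with h1 | h1 | h1
  · rw [h0] at h1
    exact absurd h1 (by decide)
  · exact absurd (Nat.eq_of_beq_eq_true h1) he
  · cases hx : u.x0 with
    | nil => rfl
    | cons y L' =>
      rw [hx] at h1
      exact absurd h1 (by simp)

/-- the squares of the line between the window and a square of its ray are no floaters -/
theorem chw_free (hT : WinT G B0 s R T O) {t : Sq} (ht : G.line s t)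
    (hz : ∀ q, s = Svc.Z q → t.2 ≤ G.base q - G.j q) :
    ∀ c, G.line s c → (∃ i : ℕ, t = c + i • vec T.t) → ¬ G.floater c := by
  rintro c hc ⟨i, hi⟩
  refine line_not_floater hT.geo hc fun q hq => ?_
  have h1 := hz q hq
  obtain ⟨n, hn, hcn⟩ := (hT.line c).1 hc
  subst hq
  -- the line is unbounded above
  have h2 := hT.t
  have hup : T.t = 62 := by
    rcases fwe_or h2 with h3 | h3 | h3 | h3
    · exfalso
      have g1 : G.line (Svc.Z q) (G.col q - G.j q, G.yw (Svc.Z q) + 1) := ⟨rfl, by simp⟩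
      have g2 : G.line (Svc.Z q) (G.col q - G.j q, G.yw (Svc.Z q) + 2) := ⟨rfl, by simp⟩
      obtain ⟨n1, -, e1⟩ := (hT.line _).1 g1
      obtain ⟨n2, -, e2⟩ := (hT.line _).1 g2
      have v : vec T.t = (1, 0) := by rw [h3]; decide
      rw [v] at e1 e2
      have e1 := congrArg Prod.snd e1
      have e2 := congrArg Prod.snd e2
      simp at e1 e2
      omega
    · exact h3
    · exfalso
      have g1 : G.line (Svc.Z q) (G.col q - G.j q, G.yw (Svc.Z q) + 1) := ⟨rfl, by simp⟩
      have g2 : G.line (Svc.Z q) (G.col q - G.j q, G.yw (Svc.Z q) + 2) := ⟨rfl, by simp⟩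
      obtain ⟨n1, -, e1⟩ := (hT.line _).1 g1
      obtain ⟨n2, -, e2⟩ := (hT.line _).1 g2
      have v : vec T.t = (-1, 0) := by rw [h3]; decide
      rw [v] at e1 e2
      have e1 := congrArg Prod.snd e1
      have e2 := congrArg Prod.snd e2
      simp at e1 e2
      omega
    · exfalso
      have v : vec T.t = (0, -1) := by rw [h3]; decide
      have g1 : G.line (Svc.Z q) (G.col q - G.j q, max (G.yw (Svc.Z q)) (sqA O T.z).2 + 1) :=
        ⟨rfl, by simp only; omega⟩
      obtain ⟨n1, -, e1⟩ := (hT.line _).1 g1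
      rw [v] at e1
      have e1 := congrArg Prod.snd e1
      simp at e1
      omega
  have v : vec T.t = (0, 1) := by rw [hup]; decide
  rw [v] at hi
  have e := congrArg Prod.snd hi
  simp at e
  omega

/-- the phase after the arrival of a queen -/
theorem chw_ph1 (hT : WinT G B0 s R T O) {F : Far} (hF : FarS G s F (fun _ => True)) {q : Qn} {t : Sq}
    (ht : G.ray s t) (hB : FBase G (F.set q t)) : Ph1 G s T (F.set q t) q := by
  refine ⟨hB, ⟨hF.b, fun r hr => ?_, fun r hr => ?_⟩, ?_, ?_⟩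
  · rw [Far.set_ne _ _ hr]
    exact hF.off r trivial
  · rw [Far.set_ne _ _ hr]
    exact hF.out r trivial
  · rw [Far.set_q]
    exact line_of_ray ht
  · rw [Far.set_q]
    refine chw_free hT (line_of_ray ht) fun r hr => ?_
    subst hr
    exact ht.2.2

theorem chw_farS (hs : s.win = true) {F : Far} (hI : Inv G s F) : FarS G s F (fun _ => True) :=
  ⟨(hI.win hs).1, fun q _ => (hI.win hs).2 q, fun q _ => hI.base.2.2.1 q⟩

theorem chw_stepU (hs : s.win = true) {F : Far} {q : Qn} {t : Sq} (ht : G.ray s t)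
    (hf : FarU G F (F.q q) t) : StepU G s F (F.set q t) := by
  have h : ∃ q' t', G.ray s t' ∧ FarU G F (F.q q') t' ∧ F.set q t = F.set q' t' :=
    ⟨q, t, ht, hf, rfl⟩
  cases s <;> first | exact h | exact absurd hs (by simp [Svc.win])

/-- **Windows, upper bound.** -/
theorem CU.win {S : List (List Pc)} {a acc : List Mo} (h : CU T S a acc) (hw : wtOk T = true)
    (hT : WinT G B0 s R T O) (hs : s.win = true) {F : Far} (hI : Inv G s F)
    (hbase : ∀ F', StepU G s F F' → FBase G F')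
    (ha0 : ∀ m ∈ a, m.k = 0 → HasValue (PFw G B0 S O F m.j))
    (ha1 : ∀ F', StepU G s F F' → ∀ m ∈ a, m.k = 1 → HasValue (PFw G B0 S O F' m.j)) :
    (∀ m ∈ acc, m.k = 0 → HasValue (PFw G B0 S O F m.j)) ∧
      ∀ F', StepU G s F F' → ∀ m ∈ acc, m.k = 1 → HasValue (PFw G B0 S O F' m.j) := by
  induction h with
  | nil => exact ⟨ha0, ha1⟩
  | grp _ L hg hp ih =>
    obtain ⟨i0, i1⟩ := ih
    have hF := chw_farS hs hI
    have hP := wpU_of hp hT hw
    refine ⟨grpWU_0 hg hT hP hI.base hF (W := fun q t => G.ray s t ∧ FarU G F (F.q q) t)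
      (fun q t _ h2 h3 => ⟨h3 hs, h2⟩) (Or.inr fun q t hqt => ?_) i0, ?_⟩
    · have h1 := chw_stepU hs hqt.1 hqt.2
      exact ⟨chw_ph1 hT hF hqt.1 (hbase _ h1), i1 _ h1⟩
    · intro F' hF'
      obtain ⟨q, t, h1, h2, rfl⟩ := StepU_win hs hF'
      exact grpWU_1 hg hT hP (chw_ph1 hT hF h1 (hbase _ hF')) (i1 _ hF')

/-- **Windows, lower bound.** -/
theorem CL.win {S : List (List Pc)} {a acc : List Mo} (h : CL T S a acc) (hw : wtOk T = true)
    (hT : WinT G B0 s R T O) (hs : s.win = true) {F F' : Far} (hI : Inv G s F)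
    (hst : StepL G s F F') (hbase : FBase G F') {β : Ordinal.{0}}
    (ha0 : ∀ m ∈ a, m.k = 0 → GE (PFw G B0 S O F m.j) β)
    (ha1 : ∀ m ∈ a, m.k = 1 → GE (PFw G B0 S O F' m.j) β) :
    (∀ m ∈ acc, m.k = 0 → GE (PFw G B0 S O F m.j) β) ∧
      ∀ m ∈ acc, m.k = 1 → GE (PFw G B0 S O F' m.j) β := by
  have h0 : ∃ q t, G.ray s t ∧ G.Outside t ∧ FarL G F q t ∧ F' = F.set q t := by
    cases s <;> first | exact hst | exact absurd hs (by simp [Svc.win])
  obtain ⟨q, t, h1, h2, h3, rfl⟩ := h0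
  have hF := chw_farS hs hI
  have hph := chw_ph1 hT hF h1 hbase
  induction h with
  | nil => exact ⟨ha0, ha1⟩
  | grp _ L hg hp ih =>
    obtain ⟨i0, i1⟩ := ih
    have hP := wpL_of hp hT hw
    exact ⟨grpWL_0 hg hw hT (whiteL_of hT hw) hP hI.base hF (line_of_ray h1) h2 h3 hph i0 i1,
      grpWL_1 hg hT hP hph i1⟩

/-- the phase of a touch if the queen `p` is at home -/
theorem cht_ph1 {p : Qn} (hT : WinT G B0 (Svc.T p) R T O) {F : Far} (hI : Inv G (Svc.T p) F)
    (hh : AtHome G F p ∧ ∀ r, r ≠ p → (F.q r).1 ≠ G.col p) : Ph1 G (Svc.T p) T F p := by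
  obtain ⟨⟨k1, k2⟩, k3⟩ := hh
  have h1 : G.line (Svc.T p) (F.q p) := by
    refine ⟨k1, ?_⟩
    have := hT.geo.hT p
    have := hT.geo.hy (Svc.T p)
    have := j_ge hT.geo p
    omega
  refine ⟨hI.base, ⟨hI.2.2.2.2.1, fun r hr hl => k3 r hr hl.1, fun r _ => hI.base.2.2.1 r⟩, h1, ?_⟩
  exact chw_free hT h1 (fun q hq => by cases hq)

/-- **Touches, upper bound, the queen is at home.** -/
theorem CU.touch1 {p : Qn} {S : List (List Pc)} {a acc : List Mo} (h : CU T S a acc)
    (hw : wtOk T = true) (hT : WinT G B0 (Svc.T p) R T O) {F : Far} (hI : Inv G (Svc.T p) F)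
    (hh : AtHome G F p ∧ ∀ r, r ≠ p → (F.q r).1 ≠ G.col p)
    (ha1 : ∀ m ∈ a, m.k = 1 → HasValue (PFw G B0 S O F m.j)) :
    ∀ m ∈ acc, m.k = 1 → HasValue (PFw G B0 S O F m.j) := by
  have hph := cht_ph1 hT hI hh
  induction h with
  | nil => exact ha1
  | grp _ L hg hp ih => exact grpWU_1 hg hT (wpU_of hp hT hw) hph ih

/-- **Touches, upper bound, no queen on the file.** -/
theorem CX.touch0 {p : Qn} {S : List (List Pc)} {a acc : List Mo} (h : CX T S a acc)
    (hw : wtOk T = true) (hT : WinT G B0 (Svc.T p) R T O) {F : Far} (hI : Inv G (Svc.T p) F)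
    (hh : ∀ r, (F.q r).1 ≠ G.col p)
    (ha0 : ∀ m ∈ a, m.k = 0 → HasValue (PFw G B0 S O F m.j)) :
    ∀ m ∈ acc, m.k = 0 → HasValue (PFw G B0 S O F m.j) := by
  have hF : FarS G (Svc.T p) F (fun _ => True) :=
    ⟨hI.2.2.2.2.1, fun r _ hl => hh r hl.1, fun r _ => hI.base.2.2.1 r⟩
  induction h with
  | nil => exact ha0
  | grp _ L hg hp hx ih =>
    exact grpWU_0 hg hT (wpU_of hp hT hw) hI.base hF (W := fun _ _ => True)
      (fun _ _ _ _ _ => trivial) (Or.inl (noX_of hx)) ih

/-- **Touches, lower bound.** -/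
theorem CL.touch {p : Qn} {S : List (List Pc)} {a acc : List Mo} (h : CL T S a acc)
    (hw : wtOk T = true) (hT : WinT G B0 (Svc.T p) R T O) {F : Far} (hI : Inv G (Svc.T p) F)
    (hh : ∃ r, (F.q r).1 = G.col p) {β : Ordinal.{0}}
    (ha1 : ∀ m ∈ a, m.k = 1 → GE (PFw G B0 S O F m.j) β) :
    ∀ m ∈ acc, m.k = 1 → GE (PFw G B0 S O F m.j) β := by
  have hh' : AtHome G F p ∧ ∀ r, r ≠ p → (F.q r).1 ≠ G.col p := by
    rcases hI.2.2.2.2.2 with h1 | h1
    · exact h1
    · obtain ⟨r, hr⟩ := hh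
      exact absurd hr (h1 r)
  have hph := cht_ph1 hT hI hh'
  induction h with
  | nil => exact ha1
  | grp _ L hg hp ih => exact grpWL_1 hg hT (wpL_of hp hT hw) hph ih

/-- **The certificate of a window**: from the state `x` to the state `y`; `S` are the states of the upper bound, `S'`
the states of the lower bound; the item `u` is the entry of the lower bound -/
structure WinC (T : WT) (S : List (List Pc)) (x y : Nat) : Prop where
  wt : wtOk T = true
  up : ∃ acc, CU T S [⟨y, 1⟩] acc ∧ membM x 0 acc = true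
  low : ∃ acc u, CL T S [⟨y, 1⟩] acc ∧ u.e = 0 ∧ u.kd = 0 ∧ u.φ = 0 ∧ u.i = x ∧
    wlOk T S acc u (patW T.A S u.X u.Y u.i (u.sw T.t).M) (kOf u.X u.Y (nthP S u.i)) = true

/-- **The certificate of a touch.** -/
structure TouC (T : WT) (S : List (List Pc)) (x y : Nat) : Prop where
  wt : wtOk T = true
  up1 : ∃ acc, CU T S [⟨y, 1⟩] acc ∧ membM x 1 acc = true
  up0 : ∃ acc, CX T S [] acc ∧ membM x 0 acc = true
  low : ∃ acc u, CL T S [⟨y, 1⟩] acc ∧ u.e = 0 ∧ u.kd = 0 ∧ u.φ = 1 ∧ u.i = x ∧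
    wlOk T S acc u (patW T.A S u.X u.Y u.i (u.sw T.t).M) (kOf u.X u.Y (nthP S u.i)) = true

theorem WinC.upS {S : List (List Pc)} {x y : Nat} (h : WinC T S x y) (hT : WinT G B0 s R T O)
    (hs : s.win = true) {F : Far} (hI : Inv G s F)
    (hbase : ∀ F', StepU G s F F' → FBase G F')
    (hex : ∀ F', StepU G s F F' → HasValue (PFw G B0 S O F' y)) : HasValue (PFw G B0 S O F x) := by
  obtain ⟨acc, h1, h2⟩ := h.up
  refine (h1.win h.wt hT hs hI hbase ?_ ?_).1 _ (ME2_membM _ h2) rfl
  · intro m hm hk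
    rw [List.mem_singleton.1 hm] at hk
    exact absurd hk (by simp)
  · intro F' hF' m hm _
    rw [List.mem_singleton.1 hm]
    exact hex F' hF'

theorem WinC.lowS {S : List (List Pc)} {x y : Nat} (h : WinC T S x y) (hT : WinT G B0 s R T O)
    (hs : s.win = true) {F F' : Far} (hI : Inv G s F) (hst : StepL G s F F')
    (hbase : FBase G F') {β : Ordinal.{0}} (hex : GE (PFw G B0 S O F' y) β) :
    ¬ ValLE (PFw G B0 S O F x) β := by
  obtain ⟨acc, u, h1, h2, h3, h4, h5, h6⟩ := h.low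
  rw [← h5]
  refine wl_strict h6 h2 h3 hT (chw_farS hs hI).b (fun q => hI.base.2.2.1 q) ?_
  rw [h4]
  refine (h1.win h.wt hT hs hI hst hbase ?_ ?_).1
  · intro m hm hk
    rw [List.mem_singleton.1 hm] at hk
    exact absurd hk (by simp)
  · intro m hm _
    rw [List.mem_singleton.1 hm]
    exact hex

theorem TouC.upS {p : Qn} {S : List (List Pc)} {x y : Nat} (h : TouC T S x y)
    (hT : WinT G B0 (Svc.T p) R T O) {F : Far} (hI : Inv G (Svc.T p) F)
    (hex : ∀ F', StepU G (Svc.T p) F F' → HasValue (PFw G B0 S O F' y)) :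
    HasValue (PFw G B0 S O F x) := by
  rcases hI.2.2.2.2.2 with h1 | h1
  · obtain ⟨acc, h2, h3⟩ := h.up1
    refine h2.touch1 h.wt hT hI h1 ?_ _ (ME2_membM _ h3) rfl
    intro m hm _
    rw [List.mem_singleton.1 hm]
    exact hex F ⟨rfl, p, h1.1.1⟩
  · obtain ⟨acc, h2, h3⟩ := h.up0
    refine h2.touch0 h.wt hT hI h1 ?_ _ (ME2_membM _ h3) rfl
    intro m hm
    exact absurd hm List.not_mem_nil

theorem TouC.lowS {p : Qn} {S : List (List Pc)} {x y : Nat} (h : TouC T S x y)
    (hT : WinT G B0 (Svc.T p) R T O) {F F' : Far} (hI : Inv G (Svc.T p) F)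
    (hst : StepL G (Svc.T p) F F') {β : Ordinal.{0}} (hex : GE (PFw G B0 S O F' y) β) :
    ¬ ValLE (PFw G B0 S O F x) β := by
  obtain ⟨rfl, hh⟩ := hst
  obtain ⟨acc, u, h1, h2, h3, h4, h5, h6⟩ := h.low
  rw [← h5]
  refine wl_strict h6 h2 h3 hT hI.2.2.2.2.1 (fun q => hI.base.2.2.1 q) ?_
  rw [h4]
  refine h1.touch h.wt hT hI hh ?_
  intro m hm _
  rw [List.mem_singleton.1 hm]
  exact hex

end Pool.Agent.Lib.H32C.Loc
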