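import Pool.Agent.Lib.H32C.GenUp

/-!
# The order attached to a primitive recursive game is primitive recursive
-/

set_option autoImplicit false

namespace Pool.Agent.Lib.H32C

open Primrec

section
variable {α : Type*} [Primcodable α]

theorem prim_bex_lt {f : α → ℕ} {R : ℕ → α → Prop} (hf : Primrec f) (hR : PrimrecRel R) :
    PrimrecPred fun a => ∃ x < f a, R x a :=
  (hR.exists_mem_list.comp (list_range.comp hf) Primrec.id).of_eq (by simp)

theorem prim_ball_lt {f : α → ℕ} {R : ℕ → α → Prop} (hf : Primrec f) (hR : PrimrecRel R) :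
    PrimrecPred fun a => ∀ x < f a, R x a :=
  (hR.forall_mem_list.comp (list_range.comp hf) Primrec.id).of_eq (by simp)

theorem prim_bex_mem {β : Type*} [Primcodable β] {f : α → List β} {R : β → α → Prop}
    (hf : Primrec f) (hR : PrimrecRel R) : PrimrecPred fun a => ∃ x ∈ f a, R x a :=
  (hR.exists_mem_list.comp hf Primrec.id)

theorem prim_ball_mem {β : Type*} [Primcodable β] {f : α → List β} {R : β → α → Prop}
    (hf : Primrec f) (hR : PrimrecRel R) : PrimrecPred fun a => ∀ x ∈ f a, R x a :=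
  (hR.forall_mem_list.comp hf Primrec.id)

end

theorem prim_unpair1 {α : Type*} [Primcodable α] {f : α → ℕ} (hf : Primrec f) :
    Primrec fun a => (f a).unpair.1 := fst.comp (unpair.comp hf)

theorem prim_unpair2 {α : Type*} [Primcodable α] {f : α → ℕ} (hf : Primrec f) :
    Primrec fun a => (f a).unpair.2 := snd.comp (unpair.comp hf)

theorem prim_getD {α : Type*} [Primcodable α] {f : α → List ℕ} {g : α → ℕ} (hf : Primrec f)
    (hg : Primrec g) : Primrec fun a => (f a).getD (g a) 0 :=
  (list_getD 0).comp hf hg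

/-- primitive recursive games -/
structure CGame.Prim (G : CGame) : Prop where
  wm : Primrec₂ G.wm
  bm : Primrec₂ G.bm
  chk : PrimrecPred G.chk

namespace CGame

variable {G : CGame}

theorem prim_pos {α : Type*} [Primcodable α] (p : ℕ) {f : α → List ℕ} {g : α → ℕ}
    (hf : Primrec f) (hg : Primrec g) : Primrec fun a => pos p (f a) (g a) := by
  unfold pos
  exact Primrec.ite (Primrec.eq.comp hg (const 0)) (const p)
    (prim_unpair1 (prim_getD hf (nat_sub.comp hg (const 1))))

theorem prim_cond (hG : G.Prim) (p : ℕ) : PrimrecRel (fun (t : ℕ) (σ : List ℕ) => G.Cond p σ t) := by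
  have ht : Primrec (fun a : ℕ × List ℕ => a.1) := fst
  have hσ : Primrec (fun a : ℕ × List ℕ => a.2) := snd
  have hx : Primrec (fun a : ℕ × List ℕ => G.wm (pos p a.2 a.1.unpair.1) a.1.unpair.2) :=
    hG.wm.comp (prim_pos p hσ (prim_unpair1 ht)) (prim_unpair2 ht)
  have hy : Primrec (fun a : ℕ × List ℕ =>
      (G.wm (pos p a.2 a.1.unpair.1) a.1.unpair.2).getD 0) := option_getD_default.comp hx
  have he : Primrec (fun a : ℕ × List ℕ => a.2.getD a.1 0) := prim_getD hσ ht
  have hn : PrimrecPred (fun a : ℕ × List ℕ =>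
      G.wm (pos p a.2 a.1.unpair.1) a.1.unpair.2 = none) := Primrec.eq.comp hx (const none)
  have hprom : PrimrecPred (fun a : ℕ × List ℕ => ∀ m < a.2.length,
      G.bm ((G.wm (pos p a.2 a.1.unpair.1) a.1.unpair.2).getD 0) m = none) := by
    refine prim_ball_lt (list_length.comp hσ) ?_
    exact Primrec.eq.comp (hG.bm.comp (hy.comp snd) fst) (const none)
  have main : PrimrecPred (fun a : ℕ × List ℕ =>
      (G.wm (pos p a.2 a.1.unpair.1) a.1.unpair.2 = none ∧ a.2.getD a.1 0 = Nat.pair p 0) ∨
      (¬ (G.wm (pos p a.2 a.1.unpair.1) a.1.unpair.2 = none) ∧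
        (((a.2.getD a.1 0).unpair.2 = 0 ∧ (a.2.getD a.1 0).unpair.1 = p ∧
          ¬ G.chk ((G.wm (pos p a.2 a.1.unpair.1) a.1.unpair.2).getD 0) ∧
          ∀ m < a.2.length,
            G.bm ((G.wm (pos p a.2 a.1.unpair.1) a.1.unpair.2).getD 0) m = none) ∨
        (¬ ((a.2.getD a.1 0).unpair.2 = 0) ∧
          G.bm ((G.wm (pos p a.2 a.1.unpair.1) a.1.unpair.2).getD 0)
            ((a.2.getD a.1 0).unpair.2 - 1) = some (a.2.getD a.1 0).unpair.1)))) := by
    refine PrimrecPred.or (PrimrecPred.and hn (Primrec.eq.comp he (const _))) ?_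
    refine PrimrecPred.and (PrimrecPred.not hn) (PrimrecPred.or ?_ ?_)
    · refine PrimrecPred.and (Primrec.eq.comp (prim_unpair2 he) (const 0)) ?_
      refine PrimrecPred.and (Primrec.eq.comp (prim_unpair1 he) (const p)) ?_
      exact PrimrecPred.and (PrimrecPred.not (hG.chk.comp hy)) hprom
    · refine PrimrecPred.and (PrimrecPred.not (Primrec.eq.comp (prim_unpair2 he) (const 0))) ?_
      exact Primrec.eq.comp (hG.bm.comp hy (nat_sub.comp (prim_unpair2 he) (const 1)))
        (option_some.comp (prim_unpair1 he))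
  refine main.of_eq fun a => ?_
  unfold Cond
  cases h : G.wm (pos p a.2 a.1.unpair.1) a.1.unpair.2 with
  | none => simp [h]
  | some y => simp [h]

theorem prim_inT (hG : G.Prim) (p : ℕ) : PrimrecPred (fun σ : List ℕ => G.InT p σ) :=
  prim_ball_lt list_length (prim_cond hG p)

theorem prim_kb : PrimrecPred (fun a : List ℕ × List ℕ => KB a.1 a.2) := by
  have hR : PrimrecRel (fun (i : ℕ) (a : List ℕ × List ℕ) => i < a.1.length ∧
      a.1.take i = a.2.take i ∧ (i = a.2.length ∨
        (i < a.2.length ∧ a.1.getD i 0 < a.2.getD i 0))) := by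
    have hi : Primrec (fun b : ℕ × (List ℕ × List ℕ) => b.1) := fst
    have h1 : Primrec (fun b : ℕ × (List ℕ × List ℕ) => b.2.1) := fst.comp snd
    have h2 : Primrec (fun b : ℕ × (List ℕ × List ℕ) => b.2.2) := snd.comp snd
    refine PrimrecPred.and (nat_lt.comp hi (list_length.comp h1)) ?_
    refine PrimrecPred.and (Primrec.eq.comp (list_take.comp hi h1) (list_take.comp hi h2)) ?_
    refine PrimrecPred.or (Primrec.eq.comp hi (list_length.comp h2)) ?_
    exact PrimrecPred.and (nat_lt.comp hi (list_length.comp h2))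
      (nat_lt.comp (prim_getD h1 hi) (prim_getD h2 hi))
  refine (prim_bex_lt (succ.comp (list_length.comp fst)) hR).of_eq fun a => ?_
  exact (kb_iff a.1 a.2).symm

theorem prim_ord (hG : G.Prim) (p : ℕ) : PrimrecPred (fun x : ℕ × ℕ => G.ord p x.1 x.2) := by
  have hd1 : Primrec (fun x : ℕ × ℕ => Denumerable.ofNat (List ℕ) x.1) :=
    (Primrec.ofNat (List ℕ)).comp fst
  have hd2 : Primrec (fun x : ℕ × ℕ => Denumerable.ofNat (List ℕ) x.2) :=
    (Primrec.ofNat (List ℕ)).comp snd
  have h1 := (prim_inT hG p).comp hd1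
  have h2 := (prim_inT hG p).comp hd2
  have h3 := prim_kb.comp (hd1.pair hd2)
  refine (PrimrecPred.or (PrimrecPred.and h1.not h2) (PrimrecPred.or
    (PrimrecPred.and h1.not (PrimrecPred.and h2.not (nat_lt.comp fst snd)))
    (PrimrecPred.and h1 (PrimrecPred.and h2 h3)))).of_eq fun x => ?_
  rw [ord_iff]

end CGame

end Pool.Agent.Lib.H32C
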