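import Pool.Agent.Lib.H32C.Defs
import Pool.Agent.Lib.H32C.GenPrim

/-!
# Coded boards

A square is coded by two pairs of natural numbers (differences), a board by the list of its pieces.
-/

set_option autoImplicit false

namespace Pool.Agent.Lib.H32C

/-- codes of squares -/
abbrev SqC := (ℕ × ℕ) × (ℕ × ℕ)

/-- codes of pieces on squares -/
abbrev Ent := SqC × ℕ

/-- the square of a code -/
def sqv (s : SqC) : Sq := ((s.1.1 : ℤ) - s.1.2, (s.2.1 : ℤ) - s.2.2)

/-- the kind of a code -/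
def kindOf : ℕ → Kind
  | 0 => Kind.king
  | 1 => Kind.queen
  | 2 => Kind.rook
  | 3 => Kind.bishop
  | 4 => Kind.knight
  | _ + 5 => Kind.pawn

/-- the piece of a code -/
def man (k : ℕ) : Man := (decide (k % 2 = 1), kindOf (k / 2))

/-- the list `l` codes the board `B` -/
def Codes (l : List Ent) (B : Board) : Prop :=
  ∀ s m, B s = some m ↔ ∃ e ∈ l, sqv e.1 = s ∧ man e.2 = m

/-- the distance of two coded integers -/
def zd (a b : ℕ × ℕ) : ℕ := (a.1 + b.2 - (b.1 + a.2)) + (b.1 + a.2 - (a.1 + b.2))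

/-- the same square -/
def sameC (a b : SqC) : Prop := zd a.1 b.1 = 0 ∧ zd a.2 b.2 = 0

/-- on a common rank or file -/
def orthC (a b : SqC) : Prop :=
  (zd a.1 b.1 = 0 ∧ ¬ zd a.2 b.2 = 0) ∨ (¬ zd a.1 b.1 = 0 ∧ zd a.2 b.2 = 0)

/-- on a common diagonal -/
def diagC (a b : SqC) : Prop := zd a.1 b.1 = zd a.2 b.2 ∧ ¬ zd a.1 b.1 = 0

/-- `c` is strictly between `a` and `b` -/
def betwC (a b c : SqC) : Prop :=
  ¬ sameC a c ∧ ¬ sameC c b ∧ zd a.1 c.1 + zd c.1 b.1 = zd a.1 b.1 ∧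
    zd a.2 c.2 + zd c.2 b.2 = zd a.2 b.2 ∧ (orthC a b ∨ zd a.1 c.1 = zd a.2 c.2)

/-- king step -/
def kingC (a b : SqC) : Prop := zd a.1 b.1 ≤ 1 ∧ zd a.2 b.2 ≤ 1 ∧ ¬ sameC a b

/-- knight jump -/
def knightC (a b : SqC) : Prop :=
  (zd a.1 b.1 = 1 ∧ zd a.2 b.2 = 2) ∨ (zd a.1 b.1 = 2 ∧ zd a.2 b.2 = 1)

/-- `b` is one row further for the colour `c` -/
def rowC (c : ℕ) (a b : SqC) : Prop :=
  (c % 2 = 1 ∧ b.2.1 + a.2.2 = a.2.1 + b.2.2 + 1) ∨
    (¬ c % 2 = 1 ∧ b.2.1 + a.2.2 + 1 = a.2.1 + b.2.2)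

/-- the way from `a` to `b` is free -/
def clearC (l : List Ent) (a b : SqC) : Prop := ∀ f ∈ l, ¬ betwC a b f.1

/-- the coded piece `e` attacks `b` -/
def attC (l : List Ent) (e : Ent) (b : SqC) : Prop :=
  (e.2 / 2 = 0 ∧ kingC e.1 b) ∨
  (e.2 / 2 = 1 ∧ (orthC e.1 b ∨ diagC e.1 b) ∧ clearC l e.1 b) ∨
  (e.2 / 2 = 2 ∧ orthC e.1 b ∧ clearC l e.1 b) ∨
  (e.2 / 2 = 3 ∧ diagC e.1 b ∧ clearC l e.1 b) ∨
  (e.2 / 2 = 4 ∧ knightC e.1 b) ∨
  (5 ≤ e.2 / 2 ∧ rowC e.2 e.1 b ∧ zd e.1.1 b.1 = 1)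

/-- the king of colour `c` is in check -/
def chkC (l : List Ent) (c : ℕ) : Prop :=
  ∃ k ∈ l, (k.2 / 2 = 0 ∧ k.2 % 2 = c) ∧ ∃ e ∈ l, ¬ e.2 % 2 = c ∧ attC l e k.1

/-- move the piece `e` to `b` -/
noncomputable def mvC (l : List Ent) (e : Ent) (b : SqC) : List Ent :=
  open Classical in
  (b, e.2) :: l.filter (fun f => ¬ sameC f.1 e.1 ∧ ¬ sameC f.1 b)

/-- the coded piece `e` of colour `c` may go to `b` -/
def goC (l : List Ent) (c : ℕ) (e : Ent) (b : SqC) : Prop :=
  (∃ f ∈ l, f = e) ∧ e.2 % 2 = c ∧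
    (((∀ f ∈ l, ¬ sameC f.1 b) ∧
        ((5 ≤ e.2 / 2 ∧ rowC e.2 e.1 b ∧ zd e.1.1 b.1 = 0) ∨ (¬ 5 ≤ e.2 / 2 ∧ attC l e b))) ∨
      ((∃ f ∈ l, sameC f.1 b ∧ ¬ f.2 % 2 = c ∧ ¬ f.2 / 2 = 0) ∧ attC l e b))

/-- legal moves -/
def legC (l : List Ent) (c : ℕ) (e : Ent) (b : SqC) : Prop :=
  goC l c e b ∧ ¬ chkC (mvC l e b) c

/-! ### Primitive recursiveness -/

open Primrec

section prim
variable {α : Type*} [Primcodable α]

theorem prim_zd {f g : α → ℕ × ℕ} (hf : Primrec f) (hg : Primrec g) :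
    Primrec fun a => zd (f a) (g a) := by
  unfold zd
  have f1 := fst.comp hf
  have f2 := snd.comp hf
  have g1 := fst.comp hg
  have g2 := snd.comp hg
  exact nat_add.comp (nat_sub.comp (nat_add.comp f1 g2) (nat_add.comp g1 f2))
    (nat_sub.comp (nat_add.comp g1 f2) (nat_add.comp f1 g2))

theorem prim_zdx {f g : α → SqC} (hf : Primrec f) (hg : Primrec g) :
    Primrec fun a => zd (f a).1 (g a).1 := prim_zd (fst.comp hf) (fst.comp hg)

theorem prim_zdy {f g : α → SqC} (hf : Primrec f) (hg : Primrec g) :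
    Primrec fun a => zd (f a).2 (g a).2 := prim_zd (snd.comp hf) (snd.comp hg)

theorem prim_eqn {f : α → ℕ} (hf : Primrec f) (n : ℕ) : PrimrecPred fun a => f a = n :=
  Primrec.eq.comp hf (const n)

theorem prim_same {f g : α → SqC} (hf : Primrec f) (hg : Primrec g) :
    PrimrecPred fun a => sameC (f a) (g a) :=
  PrimrecPred.and (prim_eqn (prim_zdx hf hg) 0) (prim_eqn (prim_zdy hf hg) 0)

theorem prim_orth {f g : α → SqC} (hf : Primrec f) (hg : Primrec g) :
    PrimrecPred fun a => orthC (f a) (g a) := by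
  have h1 := prim_eqn (prim_zdx hf hg) 0
  have h2 := prim_eqn (prim_zdy hf hg) 0
  exact PrimrecPred.or (h1.and h2.not) (h1.not.and h2)

theorem prim_diag {f g : α → SqC} (hf : Primrec f) (hg : Primrec g) :
    PrimrecPred fun a => diagC (f a) (g a) :=
  PrimrecPred.and (Primrec.eq.comp (prim_zdx hf hg) (prim_zdy hf hg))
    (prim_eqn (prim_zdx hf hg) 0).not

theorem prim_betw {f g h : α → SqC} (hf : Primrec f) (hg : Primrec g) (hh : Primrec h) :
    PrimrecPred fun a => betwC (f a) (g a) (h a) := by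
  refine PrimrecPred.and (prim_same hf hh).not (PrimrecPred.and (prim_same hh hg).not
    (PrimrecPred.and ?_ (PrimrecPred.and ?_ (PrimrecPred.or (prim_orth hf hg) ?_))))
  · exact Primrec.eq.comp (nat_add.comp (prim_zdx hf hh) (prim_zdx hh hg)) (prim_zdx hf hg)
  · exact Primrec.eq.comp (nat_add.comp (prim_zdy hf hh) (prim_zdy hh hg)) (prim_zdy hf hg)
  · exact Primrec.eq.comp (prim_zdx hf hh) (prim_zdy hf hh)

theorem prim_king {f g : α → SqC} (hf : Primrec f) (hg : Primrec g) :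
    PrimrecPred fun a => kingC (f a) (g a) :=
  PrimrecPred.and (nat_le.comp (prim_zdx hf hg) (const 1))
    (PrimrecPred.and (nat_le.comp (prim_zdy hf hg) (const 1)) (prim_same hf hg).not)

theorem prim_knight {f g : α → SqC} (hf : Primrec f) (hg : Primrec g) :
    PrimrecPred fun a => knightC (f a) (g a) :=
  PrimrecPred.or ((prim_eqn (prim_zdx hf hg) 1).and (prim_eqn (prim_zdy hf hg) 2))
    ((prim_eqn (prim_zdx hf hg) 2).and (prim_eqn (prim_zdy hf hg) 1))

theorem prim_mod2 {f : α → ℕ} (hf : Primrec f) : Primrec fun a => f a % 2 :=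
  nat_mod.comp hf (const 2)

theorem prim_half {f : α → ℕ} (hf : Primrec f) : Primrec fun a => f a / 2 :=
  nat_div.comp hf (const 2)

theorem prim_row {c : α → ℕ} {f g : α → SqC} (hc : Primrec c) (hf : Primrec f)
    (hg : Primrec g) : PrimrecPred fun a => rowC (c a) (f a) (g a) := by
  have h0 := prim_eqn (prim_mod2 hc) 1
  have f1 := fst.comp (snd.comp hf)
  have f2 := snd.comp (snd.comp hf)
  have g1 := fst.comp (snd.comp hg)
  have g2 := snd.comp (snd.comp hg)
  refine PrimrecPred.or (h0.and ?_) (h0.not.and ?_)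
  · exact Primrec.eq.comp (nat_add.comp g1 f2) (succ.comp (nat_add.comp f1 g2))
  · exact Primrec.eq.comp (succ.comp (nat_add.comp g1 f2)) (nat_add.comp f1 g2)

theorem prim_clear {l : α → List Ent} {f g : α → SqC} (hl : Primrec l) (hf : Primrec f)
    (hg : Primrec g) : PrimrecPred fun a => clearC (l a) (f a) (g a) := by
  refine prim_ball_mem (R := fun (e : Ent) a => ¬ betwC (f a) (g a) e.1) hl ?_
  exact (prim_betw (hf.comp snd) (hg.comp snd) (fst.comp fst)).not

theorem prim_att {l : α → List Ent} {e : α → Ent} {b : α → SqC} (hl : Primrec l)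
    (he : Primrec e) (hb : Primrec b) : PrimrecPred fun a => attC (l a) (e a) (b a) := by
  have e1 := fst.comp he
  have e2 := snd.comp he
  have k := prim_half e2
  have ho := prim_orth e1 hb
  have hd := prim_diag e1 hb
  have hc := prim_clear hl e1 hb
  refine PrimrecPred.or ((prim_eqn k 0).and (prim_king e1 hb)) ?_
  refine PrimrecPred.or ((prim_eqn k 1).and ((ho.or hd).and hc)) ?_
  refine PrimrecPred.or ((prim_eqn k 2).and (ho.and hc)) ?_
  refine PrimrecPred.or ((prim_eqn k 3).and (hd.and hc)) ?_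
  refine PrimrecPred.or ((prim_eqn k 4).and (prim_knight e1 hb)) ?_
  exact (nat_le.comp (const 5) k).and ((prim_row e2 e1 hb).and (prim_eqn (prim_zdx e1 hb) 1))

theorem prim_chk {l : α → List Ent} (hl : Primrec l) (c : ℕ) :
    PrimrecPred fun a => chkC (l a) c := by
  refine prim_bex_mem (R := fun (k : Ent) a => (k.2 / 2 = 0 ∧ k.2 % 2 = c) ∧
    ∃ e ∈ l a, ¬ e.2 % 2 = c ∧ attC (l a) e k.1) hl ?_
  have hk : Primrec fun x : Ent × α => x.1.2 := snd.comp fst
  refine PrimrecPred.and ((prim_eqn (prim_half hk) 0).and (prim_eqn (prim_mod2 hk) c)) ?_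
  refine prim_bex_mem (R := fun (e : Ent) (x : Ent × α) => ¬ e.2 % 2 = c ∧
    attC (l x.2) e x.1.1) (hl.comp snd) ?_
  refine PrimrecPred.and (prim_eqn (prim_mod2 (snd.comp fst)) c).not ?_
  exact prim_att (hl.comp (snd.comp snd)) fst (fst.comp (fst.comp snd))

theorem prim_mv {l : α → List Ent} {e : α → Ent} {b : α → SqC} (hl : Primrec l)
    (he : Primrec e) (hb : Primrec b) : Primrec fun a => mvC (l a) (e a) (b a) := by
  classical
  unfold mvC
  refine list_cons.comp (hb.pair (snd.comp he)) ?_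
  have hR : PrimrecRel (fun (f : Ent) (x : Ent × SqC) => ¬ sameC f.1 x.1.1 ∧ ¬ sameC f.1 x.2) :=
    PrimrecPred.and (prim_same (fst.comp fst) (fst.comp (fst.comp snd))).not
      (prim_same (fst.comp fst) (snd.comp snd)).not
  exact (hR.listFilter).comp hl (he.pair hb)

theorem prim_go {l : α → List Ent} {e : α → Ent} {b : α → SqC} (hl : Primrec l)
    (he : Primrec e) (hb : Primrec b) (c : ℕ) : PrimrecPred fun a => goC (l a) c (e a) (b a) := by
  have e1 := fst.comp he
  have e2 := snd.comp he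
  have hpawn : PrimrecPred fun a => 5 ≤ (e a).2 / 2 := nat_le.comp (const 5) (prim_half e2)
  refine PrimrecPred.and ?_ (PrimrecPred.and (prim_eqn (prim_mod2 e2) c) (PrimrecPred.or ?_ ?_))
  · exact prim_bex_mem (R := fun (f : Ent) a => f = e a) hl (Primrec.eq.comp fst (he.comp snd))
  · refine PrimrecPred.and ?_ (PrimrecPred.or (hpawn.and ((prim_row e2 e1 hb).and
      (prim_eqn (prim_zdx e1 hb) 0))) (hpawn.not.and (prim_att hl he hb)))
    exact prim_ball_mem (R := fun (f : Ent) a => ¬ sameC f.1 (b a)) hl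
      (prim_same (fst.comp fst) (hb.comp snd)).not
  · refine PrimrecPred.and ?_ (prim_att hl he hb)
    refine prim_bex_mem (R := fun (f : Ent) a => sameC f.1 (b a) ∧ ¬ f.2 % 2 = c ∧ ¬ f.2 / 2 = 0)
      hl ?_
    exact (prim_same (fst.comp fst) (hb.comp snd)).and
      ((prim_eqn (prim_mod2 (snd.comp fst)) c).not.and
        (prim_eqn (prim_half (snd.comp fst)) 0).not)

theorem prim_leg {l : α → List Ent} {e : α → Ent} {b : α → SqC} (hl : Primrec l)
    (he : Primrec e) (hb : Primrec b) (c : ℕ) : PrimrecPred fun a => legC (l a) c (e a) (b a) :=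
  (prim_go hl he hb c).and (prim_chk (prim_mv hl he hb) c).not

end prim

/-- the coded moves of chess, for the colour `c` (`1` = White, `0` = Black) -/
noncomputable def moveC (c : ℕ) (x m : ℕ) : Option ℕ :=
  open Classical in
  if legC (Denumerable.ofNat (List Ent) x) c (Denumerable.ofNat (Ent × SqC) m).1
      (Denumerable.ofNat (Ent × SqC) m).2 then
    some (Encodable.encode (mvC (Denumerable.ofNat (List Ent) x)
      (Denumerable.ofNat (Ent × SqC) m).1 (Denumerable.ofNat (Ent × SqC) m).2))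
  else none

theorem prim_move (c : ℕ) : Primrec₂ (moveC c) := by
  classical
  have hl : Primrec fun x : ℕ × ℕ => Denumerable.ofNat (List Ent) x.1 :=
    (Primrec.ofNat (List Ent)).comp fst
  have he : Primrec fun x : ℕ × ℕ => (Denumerable.ofNat (Ent × SqC) x.2).1 :=
    fst.comp ((Primrec.ofNat (Ent × SqC)).comp snd)
  have hb : Primrec fun x : ℕ × ℕ => (Denumerable.ofNat (Ent × SqC) x.2).2 :=
    snd.comp ((Primrec.ofNat (Ent × SqC)).comp snd)
  exact Primrec.ite (prim_leg hl he hb c)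
    (option_some.comp (Primrec.encode.comp (prim_mv hl he hb))) (const none)

/-- coded chess -/
noncomputable def chessC : CGame where
  wm := moveC 1
  bm := moveC 0
  chk x := chkC (Denumerable.ofNat (List Ent) x) 0

theorem prim_chessC : chessC.Prim where
  wm := prim_move 1
  bm := prim_move 0
  chk := prim_chk (Primrec.ofNat (List Ent)) 0

end Pool.Agent.Lib.H32C
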