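import Pool.Agent.Lib.H32C.TileA

/-!
# Worlds: finite rectangles of tiles

A world consists of `nx * ny` tiles of size `64 * 64`; the tile `(i, j)` has the static content `A i j`
(an array of `80 * 80` cells which contains also a ring of width `8` of the neighbours; cells with code
`15` are not specified).  The board outside the rectangle is empty.
-/

set_option autoImplicit false

namespace Pool.Agent.Lib.H32C.Loc

/-- a rectangle of tiles -/
structure World where
  /-- number of columns -/
  nx : Nat
  /-- number of rows -/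
  ny : Nat
  /-- the static content of the tiles -/
  A : Nat → Nat → Nat

/-- the code of the static content of a square -/
def World.code (W : World) (x y : ℤ) : Nat :=
  if 0 ≤ x ∧ x < 64 * W.nx ∧ 0 ≤ y ∧ y < 64 * W.ny then
    codeA (W.A (x / 64).toNat (y / 64).toNat) ((x % 64).toNat + 8) ((y % 64).toNat + 8)
  else 0

/-- the static board of a world -/
def World.board (W : World) : Board := fun s => dec (W.code s.1 s.2)

/-- the origin of the extended array of the tile `(i, j)` -/
def World.org (i j : Nat) : Sq := (64 * (i : ℤ) - 8, 64 * (j : ℤ) - 8)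

/-- sixteen cells of a row of an array, beginning with the cell `(X, Y)`, agree with a pattern, `n` rows -/
def rowsEq (A X Y P : Nat) (n : Nat) : Bool :=
  Nat.rec true (fun m ih => ih && Nat.beq (rowA A X (Nat.add Y m))
    (Nat.land (Nat.shiftRight P (Nat.mul 64 m)) 0xffffffffffffffff)) n

/-- sixty-four cells of a row -/
def rowB (A X Y : Nat) : Nat :=
  Nat.land (Nat.shiftRight A (Nat.mul 4 (Nat.add X (Nat.mul 80 Y))))
    (Nat.sub (Nat.pow 2 256) 1)

/-- sixty-four cells of a row of an array, beginning with the cell `(8, Y)`, agree with a pattern, `n`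
rows -/
def colsEq (A Y P : Nat) (n : Nat) : Bool :=
  Nat.rec true (fun m ih => ih && Nat.beq (rowB A 8 (Nat.add Y m))
    (Nat.land (Nat.shiftRight P (Nat.mul 256 m)) (Nat.sub (Nat.pow 2 256) 1))) n

/-- Horizontal neighbours fit together: `A` left, `B` right. -/
def HFit (A B : Nat) : Prop := ∀ X Y : Nat, X < 8 → 8 ≤ Y → Y < 72 →
  (codeA A (72 + X) Y = 15 ∨ codeA A (72 + X) Y = codeA B (8 + X) Y) ∧
    (codeA B X Y = 15 ∨ codeA B X Y = codeA A (64 + X) Y)

/-- Vertical neighbours fit together: `A` below, `B` above. -/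
def VFit (A B : Nat) : Prop := ∀ X Y : Nat, Y < 8 → 8 ≤ X → X < 72 →
  (codeA A X (72 + Y) = 15 ∨ codeA A X (72 + Y) = codeA B X (8 + Y)) ∧
    (codeA B X Y = 15 ∨ codeA B X Y = codeA A X (64 + Y))

/-- the corners of the ring are not specified -/
def Corners (A : Nat) : Prop := ∀ X Y : Nat, X < 80 → Y < 80 → (X < 8 ∨ 72 ≤ X) → (Y < 8 ∨ 72 ≤ Y) →
  codeA A X Y = 15

/-- the conditions on a world: neighbours fit together, and the outer rings are not specified -/
structure World.Ok (W : World) : Prop where
  hfit : ∀ i j, i + 1 < W.nx → j < W.ny → HFit (W.A i j) (W.A (i + 1) j)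
  vfit : ∀ i j, i < W.nx → j + 1 < W.ny → VFit (W.A i j) (W.A i (j + 1))
  corners : ∀ i j, i < W.nx → j < W.ny → Corners (W.A i j)
  left : ∀ j, j < W.ny → ∀ X Y : Nat, X < 8 → Y < 80 → codeA (W.A 0 j) X Y = 15
  right : ∀ j, j < W.ny → ∀ X Y : Nat, 72 ≤ X → X < 80 → Y < 80 →
    codeA (W.A (W.nx - 1) j) X Y = 15
  bottom : ∀ i, i < W.nx → ∀ X Y : Nat, X < 80 → Y < 8 → codeA (W.A i 0) X Y = 15
  top : ∀ i, i < W.nx → ∀ X Y : Nat, X < 80 → 72 ≤ Y → Y < 80 →
    codeA (W.A i (W.ny - 1)) X Y = 15
  noK : ∀ i j, i < W.nx → j < W.ny → ∀ X Y : Nat, X < 80 → Y < 80 → codeA (W.A i j) X Y ≠ 6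
  bk : ∀ i j, i < W.nx → j < W.ny → ∀ X Y : Nat, 8 ≤ X → X < 72 → 8 ≤ Y → Y < 72 →
    codeA (W.A i j) X Y = 14 → i = 0 ∧ j = 0 ∧ X = 28 ∧ Y = 28

/-! chunk WA: helpers -/

theorem WA_codeA (A X Y : Nat) : codeA A X Y = cell A (X + 80 * Y) := rfl

theorem WA_rowsEq_succ (A X Y P n : Nat) : rowsEq A X Y P (n + 1) =
    (rowsEq A X Y P n && Nat.beq (rowA A X (Nat.add Y n))
      (Nat.land (Nat.shiftRight P (Nat.mul 64 n)) 0xffffffffffffffff)) := rfl

theorem WA_colsEq_succ (A Y P n : Nat) : colsEq A Y P (n + 1) =
    (colsEq A Y P n && Nat.beq (rowB A 8 (Nat.add Y n))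
      (Nat.land (Nat.shiftRight P (Nat.mul 256 n)) (Nat.sub (Nat.pow 2 256) 1))) := rfl

theorem WA_rows {A X Y P : Nat} : ∀ n, rowsEq A X Y P n = true → ∀ m < n,
    rowA A X (Nat.add Y m) = Nat.land (Nat.shiftRight P (Nat.mul 64 m)) 0xffffffffffffffff := by
  intro n
  induction n with
  | zero =>
    intro _ m hm
    omega
  | succ n ih =>
    intro h m hm
    rw [WA_rowsEq_succ, Bool.and_eq_true] at h
    rcases Nat.lt_succ_iff_lt_or_eq.1 hm with h1 | h1
    · exact ih h.1 m h1
    · rw [h1]
      exact Nat.eq_of_beq_eq_true h.2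

theorem WA_cols {A Y P : Nat} : ∀ n, colsEq A Y P n = true → ∀ m < n,
    rowB A 8 (Nat.add Y m) =
      Nat.land (Nat.shiftRight P (Nat.mul 256 m)) (Nat.sub (Nat.pow 2 256) 1) := by
  intro n
  induction n with
  | zero =>
    intro _ m hm
    omega
  | succ n ih =>
    intro h m hm
    rw [WA_colsEq_succ, Bool.and_eq_true] at h
    rcases Nat.lt_succ_iff_lt_or_eq.1 hm with h1 | h1
    · exact ih h.1 m h1
    · rw [h1]
      exact Nat.eq_of_beq_eq_true h.2

/-- the cells of a masked and shifted number -/
theorem WA_cell_land (P s w c : Nat) (hc : c < w) :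
    cell ((P >>> (4 * s)) &&& (2 ^ (4 * w) - 1)) c = cell P (c + s) := by
  apply Nat.eq_of_testBit_eq
  intro k
  rw [LA_cell_testBit, LA_cell_testBit, Nat.testBit_and, Nat.testBit_shiftRight,
    Nat.testBit_two_pow_sub_one]
  by_cases hk : k < 4
  · have e1 : 4 * c + k < 4 * w := by omega
    have e2 : 4 * s + (4 * c + k) = 4 * (c + s) + k := by ring
    simp [hk, e1, e2]
  · simp [hk]

theorem WA_rows_cell {A X Y P n : Nat} (h : rowsEq A X Y P n = true) (m c : Nat) (hm : m < n)
    (hc : c < 16) : codeA A (X + c) (Y + m) = cell P (c + 16 * m) := by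
  have h1 := congrArg (fun q => cell q c) (WA_rows n h m hm)
  have h2 : rowA A X (Nat.add Y m) = (A >>> (4 * (X + 80 * (Y + m)))) &&& (2 ^ (4 * 16) - 1) := rfl
  have h3 : Nat.land (Nat.shiftRight P (Nat.mul 64 m)) 0xffffffffffffffff =
      (P >>> (4 * (16 * m))) &&& (2 ^ (4 * 16) - 1) := by
    have e1 : Nat.mul 64 m = 4 * (16 * m) := by
      have : Nat.mul 64 m = 64 * m := rfl
      omega
    rw [e1]
    rfl
  beta_reduce at h1
  rw [h2, h3, WA_cell_land _ _ _ _ hc, WA_cell_land _ _ _ _ hc] at h1
  rw [WA_codeA, ← h1]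
  congr 1
  ring

theorem WA_cols_cell {A Y P n : Nat} (h : colsEq A Y P n = true) (m c : Nat) (hm : m < n)
    (hc : c < 64) : codeA A (8 + c) (Y + m) = cell P (c + 64 * m) := by
  have h1 := congrArg (fun q => cell q c) (WA_cols n h m hm)
  have h2 : rowB A 8 (Nat.add Y m) = (A >>> (4 * (8 + 80 * (Y + m)))) &&& (2 ^ (4 * 64) - 1) := rfl
  have h3 : Nat.land (Nat.shiftRight P (Nat.mul 256 m)) (Nat.sub (Nat.pow 2 256) 1) =
      (P >>> (4 * (64 * m))) &&& (2 ^ (4 * 64) - 1) := by
    have e1 : Nat.mul 256 m = 4 * (64 * m) := by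
      have : Nat.mul 256 m = 256 * m := rfl
      omega
    rw [e1]
    rfl
  beta_reduce at h1
  rw [h2, h3, WA_cell_land _ _ _ _ hc, WA_cell_land _ _ _ _ hc] at h1
  rw [WA_codeA, ← h1]
  congr 1
  ring

theorem WA_land (P i : Nat) : Nat.land (Nat.shiftRight P (4 * i)) 15 = cell P i := rfl

/-- the code of a square of the tile `(i, j)` -/
theorem WA_code {W : World} {i j : Nat} (hi : i < W.nx) (hj : j < W.ny) {X Y : Nat} (hX : 8 ≤ X)
    (hX2 : X < 72) (hY : 8 ≤ Y) (hY2 : Y < 72) {x y : ℤ} (hx : x = 64 * (i : ℤ) - 8 + X)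
    (hy : y = 64 * (j : ℤ) - 8 + Y) : W.code x y = codeA (W.A i j) X Y := by
  have e1 : (x / 64).toNat = i := by omega
  have e2 : (y / 64).toNat = j := by omega
  have e3 : (x % 64).toNat + 8 = X := by omega
  have e4 : (y % 64).toNat + 8 = Y := by omega
  unfold World.code
  rw [if_pos, e1, e2, e3, e4]
  refine ⟨by omega, by omega, by omega, by omega⟩

theorem WA_dec_king : ∀ c < 16, dec c = some (true, Kind.king) → c = 6 := by
  decide

theorem WA_dec14 : ∀ c < 16, dec c = some (false, Kind.king) → c = 14 := by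
  decide

theorem WA_codeA_lt (A X Y : Nat) : codeA A X Y < 16 := by
  have h : codeA A X Y ≤ 15 := Nat.and_le_right
  omega

/-- chunk WA: the static content of a tile agrees with the static board -/
theorem World.Ok.fits {W : World} (h : W.Ok) {i j : Nat} (hi : i < W.nx) (hj : j < W.ny) :
    Fits (W.A i j) (World.org i j) W.board := by
  constructor
  · intro X Y hX hY hne
    change dec (W.code (64 * (i : ℤ) - 8 + (X : ℤ)) (64 * (j : ℤ) - 8 + (Y : ℤ))) = _
    congr 1
    by_cases hX1 : X < 8
    · by_cases hY1 : Y < 8 ∨ 72 ≤ Y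
      · exact absurd (h.corners i j hi hj X Y hX hY (Or.inl hX1) hY1) hne
      · by_cases hi0 : i = 0
        · subst hi0
          exact absurd (h.left j hj X Y hX1 hY) hne
        · obtain ⟨i', rfl⟩ : ∃ i', i = i' + 1 := ⟨i - 1, by omega⟩
          have h1 := (h.hfit i' j hi hj X Y hX1 (by omega) (by omega)).2
          rcases h1 with h1 | h1
          · exact absurd h1 hne
          · rw [h1]
            exact WA_code (by omega) hj (by omega) (by omega) (by omega) (by omega)
              (by push_cast; ring) rfl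
    · by_cases hX2 : X < 72
      · by_cases hY1 : Y < 8
        · by_cases hj0 : j = 0
          · subst hj0
            exact absurd (h.bottom i hi X Y hX hY1) hne
          · obtain ⟨j', rfl⟩ : ∃ j', j = j' + 1 := ⟨j - 1, by omega⟩
            have h1 := (h.vfit i j' hi hj X Y hY1 (by omega) (by omega)).2
            rcases h1 with h1 | h1
            · exact absurd h1 hne
            · rw [h1]
              exact WA_code hi (by omega) (by omega) (by omega) (by omega) (by omega) rfl
                (by push_cast; ring)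
        · by_cases hY2 : Y < 72
          · exact WA_code hi hj (by omega) hX2 (by omega) hY2 rfl rfl
          · by_cases hj0 : j + 1 < W.ny
            · have h1 := (h.vfit i j hi hj0 X (Y - 72) (by omega) (by omega) (by omega)).1
              have e1 : 72 + (Y - 72) = Y := by omega
              rw [e1] at h1
              rcases h1 with h1 | h1
              · exact absurd h1 hne
              · rw [h1]
                exact WA_code hi hj0 (by omega) (by omega) (by omega) (by omega) rfl
                  (by omega)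
            · have e1 : j = W.ny - 1 := by omega
              have h1 := h.top i hi X Y hX (by omega) hY
              rw [← e1] at h1
              exact absurd h1 hne
      · by_cases hY1 : Y < 8 ∨ 72 ≤ Y
        · exact absurd (h.corners i j hi hj X Y hX hY (Or.inr (by omega)) hY1) hne
        · by_cases hi0 : i + 1 < W.nx
          · have h1 := (h.hfit i j hi0 hj (X - 72) Y (by omega) (by omega) (by omega)).1
            have e1 : 72 + (X - 72) = X := by omega
            rw [e1] at h1
            rcases h1 with h1 | h1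
            · exact absurd h1 hne
            · rw [h1]
              exact WA_code hi0 hj (by omega) (by omega) (by omega) (by omega) (by omega) rfl
          · have e1 : i = W.nx - 1 := by omega
            have h1 := h.right j hj X Y (by omega) hX hY
            rw [← e1] at h1
            exact absurd h1 hne
  · intro s
    constructor
    · intro hs
      change dec (W.code s.1 s.2) = _ at hs
      unfold World.code at hs
      split_ifs at hs with h1
      · have h2 := WA_dec_king _ (WA_codeA_lt _ _ _) hs
        exact h.noK _ _ (by omega) (by omega) _ _ (by omega) (by omega) h2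
      · cases hs
    · intro hs
      change dec (W.code s.1 s.2) = _ at hs
      unfold World.code at hs
      split_ifs at hs with h1
      · have h2 := WA_dec14 _ (WA_codeA_lt _ _ _) hs
        obtain ⟨g1, g2, g3, g4⟩ := h.bk _ _ (by omega) (by omega) _ _ (by omega) (by omega)
          (by omega) (by omega) h2
        apply Prod.ext
        · show s.1 = 20
          omega
        · show s.2 = 20
          omega
      · cases hs

/-- chunk WA: the static board is finite -/
theorem World.finite (W : World) : {s | W.board s ≠ none}.Finite := by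
  apply Set.Finite.subset ((Set.finite_Ico (0 : ℤ) (64 * W.nx)).prod
    (Set.finite_Ico (0 : ℤ) (64 * W.ny)))
  intro s hs
  by_cases h1 : 0 ≤ s.1 ∧ s.1 < 64 * W.nx ∧ 0 ≤ s.2 ∧ s.2 < 64 * W.ny
  · exact ⟨⟨h1.1, h1.2.1⟩, ⟨h1.2.2.1, h1.2.2.2⟩⟩
  · exfalso
    apply hs
    change dec (W.code s.1 s.2) = none
    unfold World.code
    rw [if_neg h1]
    rfl

/-- chunk WA: from patterns of the boundary to `HFit`: the sixteen columns around the common boundary
agree with the same pattern in both tiles, or the outer half is not specified -/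
theorem hfit_of {A B P : Nat}
    (hA : rowsEq A 64 8 P 64 = true ∨
      (∀ X Y, X < 8 → 8 ≤ Y → Y < 72 → codeA A (72 + X) Y = 15 ∧
        codeA A (64 + X) Y = Nat.land (Nat.shiftRight P (4 * (X + 16 * (Y - 8)))) 15))
    (hB : rowsEq B 0 8 P 64 = true ∨
      (∀ X Y, X < 8 → 8 ≤ Y → Y < 72 → codeA B X Y = 15 ∧
        codeA B (8 + X) Y = Nat.land (Nat.shiftRight P (4 * (8 + X + 16 * (Y - 8)))) 15)) :
    HFit A B := by
  intro X Y hX hY hY2
  have a1 : codeA A (64 + X) Y = cell P (X + 16 * (Y - 8)) := by
    rcases hA with hA | hA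
    · have h1 := WA_rows_cell hA (Y - 8) X (by omega) (by omega)
      have e1 : 8 + (Y - 8) = Y := by omega
      rw [e1] at h1
      exact h1
    · rw [← WA_land]
      exact (hA X Y hX hY hY2).2
  have b1 : codeA B (8 + X) Y = cell P (8 + X + 16 * (Y - 8)) := by
    rcases hB with hB | hB
    · have h1 := WA_rows_cell hB (Y - 8) (8 + X) (by omega) (by omega)
      have e1 : 8 + (Y - 8) = Y := by omega
      have e2 : 0 + (8 + X) = 8 + X := by omega
      rw [e1, e2] at h1
      exact h1
    · rw [← WA_land]
      exact (hB X Y hX hY hY2).2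
  constructor
  · rcases hA with hA | hA
    · right
      have h1 := WA_rows_cell hA (Y - 8) (8 + X) (by omega) (by omega)
      have e1 : 8 + (Y - 8) = Y := by omega
      have e2 : 64 + (8 + X) = 72 + X := by omega
      rw [e1, e2] at h1
      rw [h1, b1]
    · left
      exact (hA X Y hX hY hY2).1
  · rcases hB with hB | hB
    · right
      have h1 := WA_rows_cell hB (Y - 8) X (by omega) (by omega)
      have e1 : 8 + (Y - 8) = Y := by omega
      have e2 : 0 + X = X := by omega
      rw [e1, e2] at h1
      rw [h1, a1]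
    · left
      exact (hB X Y hX hY hY2).1

/-- chunk WA: from patterns of the boundary to `VFit` -/
theorem vfit_of {A B P : Nat}
    (hA : colsEq A 64 P 16 = true ∨
      (∀ X Y, Y < 8 → 8 ≤ X → X < 72 → codeA A X (72 + Y) = 15 ∧
        codeA A X (64 + Y) = Nat.land (Nat.shiftRight P (4 * (X - 8 + 64 * Y))) 15))
    (hB : colsEq B 0 P 16 = true ∨
      (∀ X Y, Y < 8 → 8 ≤ X → X < 72 → codeA B X Y = 15 ∧
        codeA B X (8 + Y) = Nat.land (Nat.shiftRight P (4 * (X - 8 + 64 * (8 + Y)))) 15)) :
    VFit A B := by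
  intro X Y hY hX hX2
  have a1 : codeA A X (64 + Y) = cell P (X - 8 + 64 * Y) := by
    rcases hA with hA | hA
    · have h1 := WA_cols_cell hA Y (X - 8) (by omega) (by omega)
      have e1 : 8 + (X - 8) = X := by omega
      rw [e1] at h1
      exact h1
    · rw [← WA_land]
      exact (hA X Y hY hX hX2).2
  have b1 : codeA B X (8 + Y) = cell P (X - 8 + 64 * (8 + Y)) := by
    rcases hB with hB | hB
    · have h1 := WA_cols_cell hB (8 + Y) (X - 8) (by omega) (by omega)
      have e1 : 8 + (X - 8) = X := by omega
      have e2 : 0 + (8 + Y) = 8 + Y := by omega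
      rw [e1, e2] at h1
      exact h1
    · rw [← WA_land]
      exact (hB X Y hY hX hX2).2
  constructor
  · rcases hA with hA | hA
    · right
      have h1 := WA_cols_cell hA (8 + Y) (X - 8) (by omega) (by omega)
      have e1 : 8 + (X - 8) = X := by omega
      have e2 : 64 + (8 + Y) = 72 + Y := by omega
      rw [e1, e2] at h1
      rw [h1, b1]
    · left
      exact (hA X Y hY hX hX2).1
  · rcases hB with hB | hB
    · right
      have h1 := WA_cols_cell hB Y (X - 8) (by omega) (by omega)
      have e1 : 8 + (X - 8) = X := by omega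
      have e2 : 0 + Y = Y := by omega
      rw [e1, e2] at h1
      rw [h1, a1]
    · left
      exact (hB X Y hY hX hX2).1

end Pool.Agent.Lib.H32C.Loc
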