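import Pool.Agent.Lib.H32C.LayT
import Pool.Agent.Lib.H32C.World

/-!
# The data of the tiles: checks of arrays
-/

set_option autoImplicit false
set_option exponentiation.threshold 400

namespace Pool.Agent.Lib.H32C.Ly

open Loc

/-- two cells agree, or the first is not specified -/
def fitC (a b : ℕ) : Bool := Nat.beq a 15 || Nat.beq a b

/-- two rows with `n` cells agree, unless cells of the first are not specified -/
def fitN (n a b : ℕ) : Bool := Nat.beq a b || allN (fun x => fitC (cell a x) (cell b x)) n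

theorem fitC_iff {a b : ℕ} : fitC a b = true ↔ a = 15 ∨ a = b := by
  unfold fitC
  rw [Bool.or_eq_true, Nat.beq_eq, Nat.beq_eq]

theorem fitN_spec {n a b : ℕ} (h : fitN n a b = true) : ∀ x < n, cell a x = 15 ∨ cell a x = cell b x := by
  intro x hx
  unfold fitN at h
  rw [Bool.or_eq_true, Nat.beq_eq] at h
  rcases h with h | h
  · rw [h]
    exact Or.inr rfl
  · exact fitC_iff.1 ((allN_iff _ _).1 h x hx)

/-- eight cells of a row, beginning with the cell `(X, Y)` -/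
def row8 (A X Y : ℕ) : ℕ :=
  Nat.land (Nat.shiftRight A (Nat.mul 4 (Nat.add X (Nat.mul 80 Y)))) 0xffffffff

theorem row8_cell (A X Y : ℕ) {x : ℕ} (hx : x < 8) : cell (row8 A X Y) x = codeA A (X + x) Y := by
  have h2 : row8 A X Y = (A >>> (4 * (X + 80 * Y))) &&& (2 ^ (4 * 8) - 1) := rfl
  rw [h2, WA_cell_land _ _ _ _ hx, WA_codeA]
  congr 1
  ring

theorem rowB_cell (A Y : ℕ) {x : ℕ} (hx : x < 64) : cell (rowB A 8 Y) x = codeA A (8 + x) Y := by
  have h2 : rowB A 8 Y = (A >>> (4 * (8 + 80 * Y))) &&& (2 ^ (4 * 64) - 1) := rfl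
  rw [h2, WA_cell_land _ _ _ _ hx, WA_codeA]
  congr 1
  ring

/-- horizontal neighbours fit together -/
def hfB (A B : ℕ) : Bool := allN (fun y => fitN 8 (row8 A 72 (Nat.add 8 y)) (row8 B 8 (Nat.add 8 y)) &&
  fitN 8 (row8 B 0 (Nat.add 8 y)) (row8 A 64 (Nat.add 8 y))) 64

/-- vertical neighbours fit together -/
def vfB (A B : ℕ) : Bool := allN (fun y => fitN 64 (rowB A 8 (Nat.add 72 y)) (rowB B 8 (Nat.add 8 y)) &&
  fitN 64 (rowB B 8 y) (rowB A 8 (Nat.add 64 y))) 8

theorem hfB_spec {A B : ℕ} (h : hfB A B = true) : HFit A B := by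
  intro X Y hX hY hY2
  obtain ⟨y, rfl⟩ : ∃ y, Y = 8 + y := ⟨Y - 8, by omega⟩
  have h1 := (allN_iff _ _).1 h y (by omega)
  rw [Bool.and_eq_true] at h1
  have h2 := fitN_spec h1.1 X hX
  have h3 := fitN_spec h1.2 X hX
  rw [row8_cell _ _ _ hX, row8_cell _ _ _ hX] at h2 h3
  exact ⟨h2, by simpa using h3⟩

theorem vfB_spec {A B : ℕ} (h : vfB A B = true) : VFit A B := by
  intro X Y hY hX hX2
  obtain ⟨x, rfl⟩ : ∃ x, X = 8 + x := ⟨X - 8, by omega⟩
  have h1 := (allN_iff _ _).1 h Y hY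
  rw [Bool.and_eq_true] at h1
  have h2 := fitN_spec h1.1 x (by omega)
  have h3 := fitN_spec h1.2 x (by omega)
  rw [rowB_cell _ _ (by omega), rowB_cell _ _ (by omega)] at h2 h3
  exact ⟨h2, h3⟩

/-- a rectangle of cells: `p` holds for the cells `(X, Y)` with `x0 ≤ X < x0 + w`, `y0 ≤ Y < y0 + h` -/
def rect (p : ℕ → ℕ → ℕ → Bool) (A x0 w y0 h : ℕ) : Bool :=
  allN (fun y => allN (fun x => p (Nat.add x0 x) (Nat.add y0 y) (codeA A (Nat.add x0 x) (Nat.add y0 y))) w) h

theorem rect_spec {p : ℕ → ℕ → ℕ → Bool} {A x0 w y0 h : ℕ} (hr : rect p A x0 w y0 h = true) {X Y : ℕ}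
    (h1 : x0 ≤ X) (h2 : X < x0 + w) (h3 : y0 ≤ Y) (h4 : Y < y0 + h) : p X Y (codeA A X Y) = true := by
  obtain ⟨x, rfl⟩ : ∃ x, X = x0 + x := ⟨X - x0, by omega⟩
  obtain ⟨y, rfl⟩ : ∃ y, Y = y0 + y := ⟨Y - y0, by omega⟩
  exact (allN_iff _ _).1 ((allN_iff _ _).1 hr y (by omega)) x (by omega)

/-- the corners of the ring are not specified -/
def corB (A : ℕ) : Bool :=
  rect (fun _ _ k => Nat.beq k 15) A 0 8 0 8 && (rect (fun _ _ k => Nat.beq k 15) A 72 8 0 8 &&
    (rect (fun _ _ k => Nat.beq k 15) A 0 8 72 8 && rect (fun _ _ k => Nat.beq k 15) A 72 8 72 8))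

theorem corB_spec {A : ℕ} (h : corB A = true) : Corners A := by
  intro X Y hX hY h1 h2
  unfold corB at h
  simp only [Bool.and_eq_true] at h
  obtain ⟨g1, g2, g3, g4⟩ := h
  rcases h1 with h1 | h1 <;> rcases h2 with h2 | h2
  · exact Nat.eq_of_beq_eq_true (rect_spec g1 (by omega) (by omega) (by omega) (by omega))
  · exact Nat.eq_of_beq_eq_true (rect_spec g3 (by omega) (by omega) (by omega) (by omega))
  · exact Nat.eq_of_beq_eq_true (rect_spec g2 (by omega) (by omega) (by omega) (by omega))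
  · exact Nat.eq_of_beq_eq_true (rect_spec g4 (by omega) (by omega) (by omega) (by omega))

/-- there is no White king -/
def nokB (A : ℕ) : Bool := rect (fun _ _ k => !Nat.beq k 6) A 0 80 0 80

/-- there is no Black king in the core -/
def nobB (A : ℕ) : Bool := rect (fun _ _ k => !Nat.beq k 14) A 8 64 8 64

/-- the ring is not specified -/
def ringB (A : ℕ) : Bool :=
  rect (fun _ _ k => Nat.beq k 15) A 0 80 0 8 && (rect (fun _ _ k => Nat.beq k 15) A 0 80 72 8 &&
    (rect (fun _ _ k => Nat.beq k 15) A 0 8 0 80 && rect (fun _ _ k => Nat.beq k 15) A 72 8 0 80))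

theorem beq_ne_of {a b : ℕ} (h : (!Nat.beq a b) = true) : a ≠ b := by
  rintro rfl
  rw [show Nat.beq a a = true from Nat.beq_refl a] at h
  cases h

theorem nokB_spec {A : ℕ} (h : nokB A = true) : ∀ X Y : ℕ, X < 80 → Y < 80 → codeA A X Y ≠ 6 :=
  fun X Y hX hY => beq_ne_of (rect_spec h (Nat.zero_le X) (by omega) (Nat.zero_le Y) (by omega))

theorem nobB_spec {A : ℕ} (h : nobB A = true) : ∀ X Y : ℕ, 8 ≤ X → X < 72 → 8 ≤ Y → Y < 72 →
    codeA A X Y ≠ 14 :=
  fun X Y h1 h2 h3 h4 => beq_ne_of (rect_spec h h1 (by omega) h3 (by omega))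

theorem ringB_spec {A : ℕ} (h : ringB A = true) : ∀ X Y : ℕ, X < 80 → Y < 80 →
    (X < 8 ∨ 72 ≤ X ∨ Y < 8 ∨ 72 ≤ Y) → codeA A X Y = 15 := by
  intro X Y hX hY h1
  unfold ringB at h
  simp only [Bool.and_eq_true] at h
  obtain ⟨g1, g2, g3, g4⟩ := h
  rcases h1 with h1 | h1 | h1 | h1
  · exact Nat.eq_of_beq_eq_true (rect_spec g3 (by omega) (by omega) (by omega) (by omega))
  · exact Nat.eq_of_beq_eq_true (rect_spec g4 (by omega) (by omega) (by omega) (by omega))
  · exact Nat.eq_of_beq_eq_true (rect_spec g1 (by omega) (by omega) (by omega) (by omega))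
  · exact Nat.eq_of_beq_eq_true (rect_spec g2 (by omega) (by omega) (by omega) (by omega))

/-- conjunction over the numbers `a + i`, `i < n` -/
theorem allN_of {f : ℕ → Bool} {a n : ℕ} (h : allN (fun i => f (Nat.add a i)) n = true) {X : ℕ} (h1 : a ≤ X)
    (h2 : X < a + n) : f X = true := by
  obtain ⟨i, rfl⟩ : ∃ i, X = a + i := ⟨X - a, by omega⟩
  exact (allN_iff _ _).1 h i (by omega)

theorem blt_iff' {a b : ℕ} : Nat.blt a b = true ↔ a < b :=
  ⟨fun h => Nat.le_of_ble_eq_true h, fun h => Nat.ble_eq_true_of_le h⟩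

/-- implication -/
theorem imp_of {a b : Bool} (h : (!a || b) = true) (h1 : a = true) : b = true := by
  rw [h1] at h
  exact h

/-- The array `A` with the cells of its lower and of its upper tile -/
def cmpB (L U A : ℕ) : Bool :=
  allN (fun y => fitN 80 (Nat.land (Nat.shiftRight A (Nat.mul 320 y)) (Nat.sub (Nat.pow 2 320) 1))
    (Nat.land (Nat.shiftRight L (Nat.mul 320 y)) (Nat.sub (Nat.pow 2 320) 1))) 72 &&
  allN (fun y => fitN 80 (Nat.land (Nat.shiftRight A (Nat.mul 320 (Nat.add 72 y))) (Nat.sub (Nat.pow 2 320) 1))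
    (Nat.land (Nat.shiftRight U (Nat.mul 320 (Nat.add 8 y))) (Nat.sub (Nat.pow 2 320) 1))) 72

theorem row80_cell (A Y : ℕ) {X : ℕ} (hX : X < 80) :
    cell (Nat.land (Nat.shiftRight A (Nat.mul 320 Y)) (Nat.sub (Nat.pow 2 320) 1)) X = codeA A X Y := by
  have h2 : Nat.land (Nat.shiftRight A (Nat.mul 320 Y)) (Nat.sub (Nat.pow 2 320) 1) =
      (A >>> (4 * (80 * Y))) &&& (2 ^ (4 * 80) - 1) := by
    have e1 : Nat.mul 320 Y = 4 * (80 * Y) := by
      have : Nat.mul 320 Y = 320 * Y := rfl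
      omega
    rw [e1]
    rfl
  rw [h2, WA_cell_land _ _ _ _ hX, WA_codeA]

theorem cmpB_spec {L U A : ℕ} (h : cmpB L U A = true) : ∀ X Y : ℕ, X < 80 → Y < 144 → codeA A X Y ≠ 15 →
    (Y < 72 → codeA A X Y = codeA L X Y) ∧ (72 ≤ Y → codeA A X Y = codeA U X (Y - 64)) := by
  intro X Y hX hY hne
  unfold cmpB at h
  rw [Bool.and_eq_true] at h
  constructor
  · intro h1
    have h2 := fitN_spec ((allN_iff _ _).1 h.1 Y h1) X hX
    rw [row80_cell _ _ hX, row80_cell _ _ hX] at h2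
    rcases h2 with h2 | h2
    · exact absurd h2 hne
    · exact h2
  · intro h1
    obtain ⟨y, rfl⟩ : ∃ y, Y = 72 + y := ⟨Y - 72, by omega⟩
    have h2 := fitN_spec ((allN_iff _ _).1 h.2 y (by omega)) X hX
    have e1 : Nat.add 72 y = 72 + y := rfl
    have e2 : Nat.add 8 y = 72 + y - 64 := by
      show 8 + y = 72 + y - 64
      omega
    rw [row80_cell _ _ hX, row80_cell _ _ hX, e1, e2] at h2
    rcases h2 with h2 | h2
    · exact absurd h2 hne
    · exact h2

end Pool.Agent.Lib.H32C.Ly
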