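import Pool.Agent.Lib.H32C.DatB0

/-!
# The arrays fit together: vertical neighbours
-/

set_option autoImplicit false

namespace Pool.Agent.Lib.H32C.Ly

open Loc

theorem vAll_true : vAll = true := by decide +kernel

end Pool.Agent.Lib.H32C.Ly
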