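import Pool.Agent.Lib.H32C.DatB0

/-!
# The corners and the cells of the arrays
-/

set_option autoImplicit false

namespace Pool.Agent.Lib.H32C.Ly

open Loc

theorem cAll_true : cAll = true := by decide +kernel

theorem bAll_true : bAll = true := by decide +kernel

theorem rAll_true : rAll = true := by decide +kernel

theorem pPair_true : pPair = true := by decide +kernel

end Pool.Agent.Lib.H32C.Ly
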