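import Pool.Agent.Lib.H32C.DatA
import Pool.Agent.Lib.H32C.TdAr
import Pool.Agent.Lib.H32C.TdDL
import Pool.Agent.Lib.H32C.TdDR
import Pool.Agent.Lib.H32C.TdH
import Pool.Agent.Lib.H32C.TdLD
import Pool.Agent.Lib.H32C.TdLU
import Pool.Agent.Lib.H32C.TdML
import Pool.Agent.Lib.H32C.TdMR
import Pool.Agent.Lib.H32C.TdRD
import Pool.Agent.Lib.H32C.TdRU
import Pool.Agent.Lib.H32C.TdS
import Pool.Agent.Lib.H32C.TdUL
import Pool.Agent.Lib.H32C.TdUR
import Pool.Agent.Lib.H32C.TdV
import Pool.Agent.Lib.H32C.WldA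

/-!
# The data of the tiles

The arrays of all kinds, except those of the kinds `35`, `36` (the service `Tb`) and `38`, which are parameters.
-/

set_option autoImplicit false

namespace Pool.Agent.Lib.H32C.Ly

open Loc

/-- the arrays of the kinds -/
def arL : List ℕ := [AF, AX, AH, AH, AV, AV, ARD, ARU, ALD, ALU, ADR, ADL, AUR, AUL, ACR, ACL, AMR, AML,
  ASTA, AEND, AHALT, ACHU, ACHL, AMEMU, AMEML, AWN, AWN2, ATU, ATL, ASV, AWE, ASE, AWW, ASW, AWB, 0, 0,
  AWN, 0, AROOM, AFD, ASV2]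

/-- the arrays; `A0`, `A1`, `A3` are the arrays of the kinds `35`, `36`, `38` -/
def arK (A0 A1 A3 k : ℕ) : ℕ :=
  cond (Nat.beq k 35) A0 (cond (Nat.beq k 36) A1 (cond (Nat.beq k 38) A3 (Loc.nth arL k)))

/-- the data -/
def dD (A0 A1 A3 : ℕ) : TD where
  ar := arK A0 A1 A3
  rk k := cond (Nat.beq k 14 || (Nat.beq k 15 || (Nat.beq k 22 || Nat.beq k 24))) 11 0
  sts k := cond (Nat.beq k 14) [2382, 1491] (cond (Nat.beq k 15) [2500, 1631]
    (cond (Nat.beq k 22) [2280] (cond (Nat.beq k 24) [2382, 1491] [])))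
  r k := cond (Nat.beq k 14) 2382 (cond (Nat.beq k 15) 2500 (cond (Nat.beq k 22) 2280
    (cond (Nat.beq k 24) 2382 0)))
  m := 1491

/-- the kinds whose arrays are parameters -/
def par (k : ℕ) : Bool := Nat.beq k 35 || (Nat.beq k 36 || Nat.beq k 38)

theorem arK_par {A0 A1 A3 k : ℕ} (h : par k = false) : arK A0 A1 A3 k = Loc.nth arL k := by
  unfold par at h
  simp only [Bool.or_eq_false_iff] at h
  unfold arK
  rw [h.1, h.2.1, h.2.2]
  rfl

/-- all horizontal pairs of arrays fit -/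
def hAll : Bool := allN (fun a => par a || allN (fun b => par b || (!htb a b ||
  hfB (Loc.nth arL a) (Loc.nth arL b))) 42) 42

/-- all vertical pairs of arrays fit -/
def vAll : Bool := allN (fun a => par a || allN (fun b => par b || (!vtb a b ||
  vfB (Loc.nth arL a) (Loc.nth arL b))) 42) 42

/-- corners and White kings -/
def cAll : Bool := allN (fun a => par a || (corB (Loc.nth arL a) && nokB (Loc.nth arL a))) 42

/-- Black kings -/
def bAll : Bool := allN (fun a => par a || (Nat.beq a 39 || nobB (Loc.nth arL a))) 42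

/-- rings -/
def rAll : Bool := ringB AF && (ringB AX && (ringB ASW && (ringB AROOM && ringB AFD)))

/-- the pairs which contain a kind whose array is a parameter -/
def pPair : Bool := allN (fun a => allN (fun b => (!(par a || par b) || ((!htb a b ||
    memb (Nat.add (Nat.mul 64 a) b) [64 * 14 + 36, 64 * 8 + 35, 64 * 35 + 1, 64 * 36 + 1, 64 * 14 + 38,
      64 * 38 + 0]) &&
    (!vtb a b || memb (Nat.add (Nat.mul 64 a) b) [64 * 38 + 37, 64 * 37 + 36, 64 * 36 + 35, 64 * 35 + 1,
      64 * 0 + 38])))) 42) 42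

end Pool.Agent.Lib.H32C.Ly
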