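import Pool.Agent.Lib.H32C.LocI4

/-!
# Chunk LM: forks, mates and events in the lower bound
-/

set_option autoImplicit false

namespace Pool.Agent.Lib.H32C.Loc

/-- the king on `k` has to go to `k₁` or `k₂` or stay -/
def onlyK2 (R : List Ray) (p k k₁ k₂ : Nat) : Bool :=
  (aO fun t => Nat.beq (stp t k) k₁ || (Nat.beq (stp t k) k₂ || noK R p k t)) &&
    (aD fun t => Nat.beq (stp t k) k₁ || (Nat.beq (stp t k) k₂ || noK R p k t))

/-- With the king on `k` in check by the piece on `s`, every legal White move goes from `k` to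
`k₁` or `k₂`. -/
def only2 (R : List Ray) (p k s k₁ k₂ : Nat) : Bool :=
  hit p s k && (noW R p 0 true s && (onlyK2 R p k k₁ k₂ && noI R p k s))

/-- Black plays `a` to `b`, which gives check by the piece on `s`, and White has to answer `k` to
`k₁` or `k₂`. -/
def main2 (R : List Ray) (p k a b s k₁ k₂ : Nat) : Bool :=
  bGo R p a b && only2 R (mvb R p a b) k s k₁ k₂

/-- the king has to go to `k₁` or `k₂` -/
theorem LM_onlyK2_sound {C : Ctx} (hC : C.Ok) {p k k₁ k₂ : Nat} (h : WF C p k)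
    (ho : onlyK2 C.R p k k₁ k₂ = true) (b : Sq) (hl : Legal (C.brd p) true (sq C.o k) b) :
    b = sq C.o k₁ ∨ b = sq C.o k₂ := by
  have hki := LI3_kinner h
  have hK := kingAt hC h
  obtain ⟨⟨m, hm, hmc, hcan⟩, hchk⟩ := hl
  rw [hK.1] at hm
  obtain rfl : m = (true, Kind.king) := by simpa using hm.symm
  have hatt : b - sq C.o k ∈ orthDirs ++ diagDirs := by
    rcases hcan with ⟨_, h2⟩ | ⟨_, h2⟩
    · simpa [ManAttacks] using h2
    · simpa [ManAttacks] using h2
  have hdest : ¬ ∃ t : Man, C.brd p b = some t ∧ t.1 = true := by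
    rintro ⟨t, ht, ht1⟩
    rcases hcan with ⟨h2, _⟩ | ⟨⟨t', h2, h3, _⟩, _⟩
    · rw [h2] at ht; exact absurd ht (by simp)
    · rw [h2] at ht
      obtain rfl : t' = t := by simpa using ht
      rw [ht1] at h3
      exact absurd h3 (by decide)
  unfold onlyK2 at ho
  rw [Bool.and_eq_true, aO_iff, aD_iff] at ho
  have key : ∀ t ∈ orT ++ diT, vec t = b - sq C.o k →
      (Nat.beq (stp t k) k₁ || (Nat.beq (stp t k) k₂ || noK C.R p k t)) = true →
      b = sq C.o k₁ ∨ b = sq C.o k₂ := by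
    intro t ht hv hor
    obtain ⟨hlt, hsq⟩ := stp_inner (t := t) (by
      rw [List.mem_append]; exact Or.inl ht) hki
    have hsb : sq C.o (stp t k) = b := by
      rw [hsq C.o, hv]; abel
    rw [Bool.or_eq_true, Bool.or_eq_true] at hor
    rcases hor with h1 | h1 | h1
    · left; rw [← Nat.eq_of_beq_eq_true h1, hsb]
    · right; rw [← Nat.eq_of_beq_eq_true h1, hsb]
    · exfalso
      rcases LI3_noK_cases h1 with ⟨h2, h3⟩ | ⟨h2, h3, h4⟩
      · apply hdest
        obtain ⟨m, hm, hm1⟩ := LI3_dec_white h2 h3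
        refine ⟨m, ?_, hm1⟩
        rw [← hsb, brd_sq C hlt (by omega), hm]
      · have h14 := h.noBK _ hlt
        have hcb : cell p (stp t k) = 0 ∨ (9 ≤ cell p (stp t k) ∧ cell p (stp t k) ≤ 13) := by omega
        have hne : k ≠ stp t k := by
          intro he
          have h5 := hsq C.o
          rw [← he] at h5
          exact LI3_dir_ne ht (by simpa using h5)
        have hwf := wf_mv h h.lt hlt (by rw [h.king]; decide) hcb
        have hnk : newK k k (stp t k) = stp t k := by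
          unfold newK
          rw [show Nat.beq k k = true from Nat.beq_refl k]
          rfl
        rw [hnk] at hwf
        have hbd := brd_mv C h h.lt hlt hne (by rw [h.king]; decide) (by omega)
        have := att_inCheck hC hwf h4
        rw [hbd, hsb] at this
        exact hchk this
  rcases List.mem_append.1 hatt with hd | hd
  · obtain ⟨t, ht, hv⟩ := or_vec hd
    exact key t (List.mem_append.2 (Or.inl ht)) hv (ho.1 t ht)
  · obtain ⟨t, ht, hv⟩ := di_vec hd
    exact key t (List.mem_append.2 (Or.inr ht)) hv (ho.2 t ht)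

/-- chunk LM1 -/
theorem only2_sound {C : Ctx} (hC : C.Ok) {p k s k₁ k₂ : Nat} (h : WF C p k) (hs : s < 400)
    (hcs : 9 ≤ cell p s ∧ cell p s ≤ 13) (ho : only2 C.R p k s k₁ k₂ = true) (x y : Sq)
    (hl : Legal (C.brd p) true x y) : x = sq C.o k ∧ (y = sq C.o k₁ ∨ y = sq C.o k₂) := by
  unfold only2 at ho
  rw [Bool.and_eq_true, Bool.and_eq_true, Bool.and_eq_true] at ho
  obtain ⟨hhit, hnoW, honlyK, hnoI⟩ := ho
  have hki := LI3_kinner h
  suffices hx : x = sq C.o k by
    refine ⟨hx, ?_⟩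
    rw [hx] at hl
    exact LM_onlyK2_sound hC h honlyK y hl
  obtain ⟨m, hm, hmb, hatt⟩ := hit_sound hC h hs hcs hhit
  rcases reply_cases (C.brd p) (kingAt hC h) hm hmb hatt hl with h1 | h1 | h1
  · exact h1
  · have hg := hl.1
    rw [h1] at hg
    exact noW_cap hC h hs hcs hnoW x hg
  · obtain ⟨d, hd, n, l, hl0, hln, hsd, hyd, _⟩ := h1
    have hslide : ∀ t ∈ orT ++ diT, first p t 20 k = s → x = sq C.o k := by
      intro t ht hf
      obtain ⟨n', hS⟩ := first_spec h h.lt (by rw [h.king]; decide) ht (by rw [hf]; omega)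
      rw [hf] at hS
      have h2 : n • d = n' • vec t := by
        have h3 := hS.eq
        rw [hsd] at h3
        exact add_left_cancel h3
      obtain ⟨h4, h5⟩ := LI3_dir_inj hd (LI3_vec_dir ht) (by omega) hS.pos h2
      have hg := hl.1
      rw [hyd, h4] at hg
      exact LI3_between hC h ht hS (LI3_noI hnoI ht hf) hl0 (by omega) x hg
    rcases LI3_hit_cases hhit hcs with ⟨_, t, ht, hst⟩ | ⟨_, hst⟩ | ⟨_, t, ht, hst⟩ | ⟨_, t, ht, hst⟩
    · exfalso
      have hsq := (stp_inner (t := t) (List.mem_append.2 (Or.inr ht)) hki).2 C.o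
      rw [hst, hsd] at hsq
      exact LI3_kn_dir hd (vec_kn ht) (add_left_cancel hsq)
    · exfalso
      rcases hst with hst | hst
      · have hsq := (stp_inner (t := 63) (by decide) hki).2 C.o
        rw [hst, hsd] at hsq
        have h2 : n • d = 1 • vec 63 := by rw [one_smul]; exact add_left_cancel hsq
        have := (LI3_dir_inj hd (LI3_vec_dir (t := 63) (by decide)) (by omega) one_pos h2).2
        omega
      · have hsq := (stp_inner (t := 61) (by decide) hki).2 C.o
        rw [hst, hsd] at hsq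
        have h2 : n • d = 1 • vec 61 := by rw [one_smul]; exact add_left_cancel hsq
        have := (LI3_dir_inj hd (LI3_vec_dir (t := 61) (by decide)) (by omega) one_pos h2).2
        omega
    · exact hslide t (List.mem_append.2 (Or.inl ht)) hst
    · exact hslide t (List.mem_append.2 (Or.inr ht)) hst

/-- the general form of the strict lower bound -/
theorem LM_not_valLE_gen {B : Board} {a b : Sq} {β : Ordinal.{0}} (hl : Legal B false a b)
    (hno : ¬ InCheck B false)
    (h : ∀ x' y', Legal (B.move a b) true x' y' → GE ⟨(B.move a b).move x' y', false⟩ β) :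
    ¬ ValLE ⟨B, false⟩ β := by
  intro hv
  cases hv with
  | mate h1 => exact hno h1.2.1
  | white ht _ _ _ => cases ht
  | black ht hex hall =>
    have h2 := hall ⟨B.move a b, true⟩ ⟨a, b, hl, rfl⟩
    cases h2 with
    | mate h1 => exact absurd h1.1 (by simp)
    | black ht' _ _ => cases ht'
    | white ht' hm hq hab =>
      obtain ⟨x', y', hl', rfl⟩ := hm
      refine h x' y' hl' _ ?_ hq
      exact lt_of_lt_of_le (Order.lt_add_one_iff.mpr le_rfl) hab

/-- the general form of the lower bound -/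
theorem LM_ge_gen {B : Board} {a b : Sq} {β : Ordinal.{0}} (hl : Legal B false a b)
    (hno : ¬ InCheck B false)
    (h : ∀ x' y', Legal (B.move a b) true x' y' → GE ⟨(B.move a b).move x' y', false⟩ β) :
    GE ⟨B, false⟩ β := by
  intro α hα
  exact LM_not_valLE_gen hl hno fun x' y' hl' γ hγ => h x' y' hl' γ (hγ.trans hα)

/-- the Black move of a main line on the board -/
theorem LM_prep {C : Ctx} (hC : C.Ok) (R : Room) (hR : R.Sep C) {p k a b : Nat}
    (h : WF C p k) (hG : R.G (C.brd p)) (ha : a < 400) (hb : b < 400)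
    (hgo : bGo C.R p a b = true) : WF C (mvb C.R p a b) k ∧ ¬ InCheck (C.brd p) false ∧
      ∃ x y, C.brd (mvb C.R p a b) = (C.brd p).move x y ∧ Legal (C.brd p) false x y := by
  obtain ⟨hmo, hcan⟩ := bGo_sound hC h ha hb hgo
  have hcb := (LI4_bGo_cases hgo).1
  have hwf := wf_mvb hC h hmo
  -- the board after the Black move
  have hbrd : C.brd (mvb C.R p a b) =
      (C.brd p).move (if cell p a = 8 then C.f a else sq C.o a) (sq C.o b) := by
    by_cases h8 : cell p a = 8
    · rw [if_pos h8]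
      obtain ⟨ρ, hρ, rfl⟩ := h.mark a ha (Or.inr h8)
      exact brd_mvb hC h hρ h8 hb (Or.inl hcb) hmo.ne.symm
    · rw [if_neg h8, mvb_eq h8]
      have := hmo.src
      exact brd_mv C h ha hb hmo.ne (by omega) (by omega)
  have hno : ¬ InCheck (C.brd p) false := room_nocheck hC R hR h hG
  have hleg : Legal (C.brd p) false (if cell p a = 8 then C.f a else sq C.o a) (sq C.o b) := by
    refine ⟨hcan, ?_⟩
    rw [← hbrd]
    exact room_nocheck hC R hR hwf (LI4_G_brd R hR hG)
  exact ⟨hwf, hno, _, _, hbrd, hleg⟩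

/-- the board after a move of the king to an empty cell -/
theorem LM_brd_king {C : Ctx} {q k k' : Nat} (h : WF C q k) (hk : k' < 400) (hck : cell q k' = 0) :
    C.brd (mv q k k') = (C.brd q).move (sq C.o k) (sq C.o k') := by
  have hkk : k ≠ k' := by
    rintro rfl
    rw [h.king] at hck
    exact absurd hck (by decide)
  exact brd_mv C h h.lt hk hkk (by rw [h.king]; decide) (by rw [hck]; decide)

/-- chunk LM1: a fork -/
theorem main2_ge {C : Ctx} (hC : C.Ok) (R : Room) (hR : R.Sep C) {p k a b s k₁ k₂ : Nat}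
    (h : WF C p k) (hG : R.G (C.brd p)) (ha : a < 400) (hb : b < 400) (hs : s < 400) (hk₁ : k₁ < 400)
    (hk₂ : k₂ < 400) (hcs : 9 ≤ cell (mvb C.R p a b) s ∧ cell (mvb C.R p a b) s ≤ 13)
    (hck₁ : cell (mvb C.R p a b) k₁ = 0) (hck₂ : cell (mvb C.R p a b) k₂ = 0)
    (hm : main2 C.R p k a b s k₁ k₂ = true) {β : Ordinal.{0}}
    (hge₁ : GE ⟨C.brd (mv (mvb C.R p a b) k k₁), false⟩ β)
    (hge₂ : GE ⟨C.brd (mv (mvb C.R p a b) k k₂), false⟩ β) : GE ⟨C.brd p, false⟩ β := by
  unfold main2 at hm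
  rw [Bool.and_eq_true] at hm
  obtain ⟨hgo, honly⟩ := hm
  obtain ⟨hwf, hno, x, y, hbrd, hleg⟩ := LM_prep hC R hR h hG ha hb hgo
  refine LM_ge_gen hleg hno ?_
  intro x' y' hl
  rw [← hbrd] at hl ⊢
  obtain ⟨rfl, rfl | rfl⟩ := only2_sound hC hwf hs hcs honly x' y' hl
  · rw [← LM_brd_king hwf hk₁ hck₁]
    exact hge₁
  · rw [← LM_brd_king hwf hk₂ hck₂]
    exact hge₂

/-- chunk LM2: Black mates -/
theorem mate_ge {C : Ctx} (hC : C.Ok) (R : Room) (hR : R.Sep C) {p k a b s : Nat}
    (h : WF C p k) (hG : R.G (C.brd p)) (ha : a < 400) (hb : b < 400) (hs : s < 400)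
    (hcs : 9 ≤ cell (mvb C.R p a b) s ∧ cell (mvb C.R p a b) s ≤ 13)
    (hm : main C.R p k a b s 400 = true) (β : Ordinal.{0}) : GE ⟨C.brd p, false⟩ β := by
  unfold main at hm
  rw [Bool.and_eq_true] at hm
  obtain ⟨hgo, honly⟩ := hm
  obtain ⟨hwf, hno, x, y, hbrd, hleg⟩ := LM_prep hC R hR h hG ha hb hgo
  refine LM_ge_gen hleg hno ?_
  intro x' y' hl
  exfalso
  rw [← hbrd] at hl
  obtain ⟨rfl, rfl⟩ := only_sound hC hwf hs hcs honly x' y' hl
  obtain ⟨⟨m, hm, hmc, hcan⟩, _⟩ := hl
  rw [(kingAt hC hwf).1] at hm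
  obtain rfl : m = (true, Kind.king) := by simpa using hm.symm
  have hatt : sq C.o 400 - sq C.o k ∈ orthDirs ++ diagDirs := by
    rcases hcan with ⟨_, h2⟩ | ⟨_, h2⟩
    · simpa [ManAttacks] using h2
    · simpa [ManAttacks] using h2
  have hki := LI3_kinner hwf
  have hd : ∀ d ∈ orthDirs ++ diagDirs, d.2 ≤ 1 := by decide
  have h2 := hd _ hatt
  have h3 : (sq C.o 400 - sq C.o k).2 = 20 - ((k / 20 : ℕ) : ℤ) := by
    simp only [sq, Prod.snd_sub]
    norm_num
  rw [h3] at h2
  have h4 := hki.2.2.2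
  omega

/-- chunk LM3: a forced step after an event: the legal Black move `a → b` leads to the board described
by `p'` in the context `C'`, where the far slider on the ray `ρ` gives check. -/
theorem event_ge {C' : Ctx} (hC : C'.Ok) {B : Board} {a b : Sq} (hl : Legal B false a b)
    (hno : ¬ InCheck B false) {p' k k' : Nat} (hB : B.move a b = C'.brd p') (h : WF C' p' k)
    (hk' : k' < 400) (hck : cell p' k' = 0) {ρ : Ray} (hρ : ρ ∈ C'.R)
    (hfar : ∀ (x : Sq) (l m : ℕ), C'.f ρ.e = sq C'.o k + m • vec ρ.t → 0 < l → l ≤ m →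
      x ≠ sq C'.o k → ¬ CanGo (C'.brd p') true x (sq C'.o k + l • vec ρ.t))
    (ho : onlyF C'.R p' k ρ.e ρ.t k' = true) {β : Ordinal.{0}}
    (hge : GE ⟨C'.brd (mv p' k k'), false⟩ β) : GE ⟨B, false⟩ β := by
  refine LM_ge_gen hl hno ?_
  intro x' y' hl'
  rw [hB] at hl' ⊢
  obtain ⟨rfl, rfl⟩ := onlyF_sound hC h hρ hfar ho x' y' hl'
  rw [← LM_brd_king h hk' hck]
  exact hge

/-- chunk LM3: the strict form -/
theorem ge_step_strict {B : Board} {a b x y : Sq} {β : Ordinal.{0}} (hl : Legal B false a b)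
    (hno : ¬ InCheck B false)
    (hu : ∀ x' y', Legal (B.move a b) true x' y' → x' = x ∧ y' = y)
    (h : GE ⟨(B.move a b).move x y, false⟩ β) : ¬ ValLE ⟨B, false⟩ β := by
  refine LM_not_valLE_gen hl hno ?_
  intro x' y' hl'
  obtain ⟨rfl, rfl⟩ := hu x' y' hl'
  exact h

/-- chunk LM4: strict form of `main_ge` -/
theorem main_not_valLE {C : Ctx} (hC : C.Ok) (R : Room) (hR : R.Sep C) {p k a b s k' : Nat}
    (h : WF C p k) (hG : R.G (C.brd p)) (ha : a < 400) (hb : b < 400) (hs : s < 400) (hk : k' < 400)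
    (hcs : 9 ≤ cell (mvb C.R p a b) s ∧ cell (mvb C.R p a b) s ≤ 13)
    (hck : cell (mvb C.R p a b) k' = 0)
    (hm : main C.R p k a b s k' = true) {β : Ordinal.{0}}
    (hge : GE ⟨C.brd (mv (mvb C.R p a b) k k'), false⟩ β) : ¬ ValLE ⟨C.brd p, false⟩ β := by
  unfold main at hm
  rw [Bool.and_eq_true] at hm
  obtain ⟨hgo, honly⟩ := hm
  obtain ⟨hwf, hno, x, y, hbrd, hleg⟩ := LM_prep hC R hR h hG ha hb hgo
  refine LM_not_valLE_gen hleg hno ?_
  intro x' y' hl
  rw [← hbrd] at hl ⊢
  obtain ⟨rfl, rfl⟩ := only_sound hC hwf hs hcs honly x' y' hl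
  rw [← LM_brd_king hwf hk hck]
  exact hge

end Pool.Agent.Lib.H32C.Loc
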