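import Pool.Agent.Lib.H32C.LocI3

/-!
# Chunk LI4: forced main lines
-/

set_option autoImplicit false

namespace Pool.Agent.Lib.H32C.Loc

theorem LI4_a8 {f : Nat → Bool} (h : (!(a8 f)) = true) : ∃ t ∈ knT, f t = false := by
  by_contra hcon
  push Not at hcon
  rw [Bool.not_eq_true'] at h
  have h2 := (a8_iff f).2 (by
    intro t ht
    exact eq_true_of_ne_false (hcon t ht))
  rw [h] at h2
  exact absurd h2 (by decide)

theorem LI4_beq {a b : Nat} (h : (!Nat.beq a b) = false) : a = b := by
  rw [Bool.not_eq_false'] at h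
  exact Nat.eq_of_beq_eq_true h

/-- what `bGo` means -/
theorem LI4_bGo_cases {R : List Ray} {p a b : Nat} (hg : bGo R p a b = true) :
    cell p b ≤ 5 ∧ ((cell p a = 10 ∧ ∃ t ∈ knT, stp t a = b) ∨
      ((cell p a = 12 ∨ cell p a = 13) ∧ ∃ t ∈ orT, first p t 20 b = a) ∨
      ((cell p a = 11 ∨ cell p a = 13) ∧ ∃ t ∈ diT, first p t 20 b = a) ∨
      (cell p a = 8 ∧ seesM R p b a = true)) := by
  have hlt := cell_lt p a
  have hltb := cell_lt p b
  unfold bGo at hg
  rw [Bool.and_eq_true] at hg
  obtain ⟨h1, h2⟩ := hg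
  constructor
  · generalize cell p b = c at h2 hltb
    interval_cases c <;> revert h2 <;> simp [msk]
  · have hO : (!(aO fun t => !Nat.beq (first p t 20 b) a)) = true →
        ∃ t ∈ orT, first p t 20 b = a := by
      intro h3
      by_contra hcon
      push Not at hcon
      rw [Bool.not_eq_true'] at h3
      have h4 := (aO_iff (fun t => !Nat.beq (first p t 20 b) a)).2 (fun t ht =>
        LI3_beq_false (hcon t ht))
      rw [h3] at h4
      exact absurd h4 (by decide)
    have hD : (!(aD fun t => !Nat.beq (first p t 20 b) a)) = true →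
        ∃ t ∈ diT, first p t 20 b = a := by
      intro h3
      by_contra hcon
      push Not at hcon
      rw [Bool.not_eq_true'] at h3
      have h4 := (aD_iff (fun t => !Nat.beq (first p t 20 b) a)).2 (fun t ht =>
        LI3_beq_false (hcon t ht))
      rw [h3] at h4
      exact absurd h4 (by decide)
    generalize cell p a = c at h1 hlt ⊢
    interval_cases c
    · exact absurd (show false = true from h1) (by decide)
    · exact absurd (show false = true from h1) (by decide)
    · exact absurd (show false = true from h1) (by decide)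
    · exact absurd (show false = true from h1) (by decide)
    · exact absurd (show false = true from h1) (by decide)
    · exact absurd (show false = true from h1) (by decide)
    · exact absurd (show false = true from h1) (by decide)
    · exact absurd (show false = true from h1) (by decide)
    · right; right; right
      exact ⟨rfl, h1⟩
    · exact absurd (show false = true from h1) (by decide)
    · left
      obtain ⟨t, ht, h3⟩ := LI4_a8 (f := fun t => !Nat.beq (stp t a) b) h1
      exact ⟨rfl, t, ht, LI4_beq h3⟩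
    · right; right; left
      refine ⟨Or.inl rfl, hD ?_⟩
      have h3 : (!((true || aO fun t => !Nat.beq (first p t 20 b) a) &&
        (false || aD fun t => !Nat.beq (first p t 20 b) a))) = true := h1
      rw [Bool.true_or, Bool.true_and, Bool.false_or] at h3
      exact h3
    · right; left
      refine ⟨Or.inl rfl, hO ?_⟩
      have h3 : (!((false || aO fun t => !Nat.beq (first p t 20 b) a) &&
        (true || aD fun t => !Nat.beq (first p t 20 b) a))) = true := h1
      rw [Bool.true_or, Bool.and_true, Bool.false_or] at h3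
      exact h3
    · right
      have h3 : (!((false || aO fun t => !Nat.beq (first p t 20 b) a) &&
        (false || aD fun t => !Nat.beq (first p t 20 b) a))) = true := h1
      rw [Bool.false_or, Bool.false_or, Bool.not_and, Bool.or_eq_true] at h3
      rcases h3 with h3 | h3
      · exact Or.inl ⟨Or.inr rfl, hO h3⟩
      · exact Or.inr (Or.inl ⟨Or.inr rfl, hD h3⟩)
    · exact absurd (show false = true from h1) (by decide)
    · exact absurd (show false = true from h1) (by decide)

theorem LI4_dest {C : Ctx} {p b : Nat} (hb : b < 400) (hcb : cell p b ≤ 5) :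
    C.brd p (sq C.o b) = none ∨
      ∃ t : Man, C.brd p (sq C.o b) = some t ∧ t.1 = !false ∧ t.2 ≠ Kind.king := by
  rw [brd_sq C hb (by omega)]
  generalize cell p b = c at hcb
  interval_cases c
  · exact Or.inl rfl
  · exact Or.inr ⟨_, rfl, rfl, by decide⟩
  · exact Or.inr ⟨_, rfl, rfl, by decide⟩
  · exact Or.inr ⟨_, rfl, rfl, by decide⟩
  · exact Or.inr ⟨_, rfl, rfl, by decide⟩
  · exact Or.inr ⟨_, rfl, rfl, by decide⟩

theorem LI4_canGo {B : Board} {a b : Sq} {m : Man} (hm : B a = some m) (hmb : m.1 = false)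
    (hp : m.2 ≠ Kind.pawn) (hatt : ManAttacks B m a b)
    (hd : B b = none ∨ ∃ t : Man, B b = some t ∧ t.1 = !false ∧ t.2 ≠ Kind.king) :
    CanGo B false a b := by
  refine ⟨m, hm, hmb, ?_⟩
  rcases hd with hd | hd
  · left
    refine ⟨hd, ?_⟩
    rw [if_neg hp]
    exact hatt
  · right
    exact ⟨hd, hatt⟩

/-- a Black move accepted by `bGo` is possible on the board -/
theorem bGo_sound {C : Ctx} (hC : C.Ok) {p k a b : Nat} (h : WF C p k) (ha : a < 400) (hb : b < 400)
    (hg : bGo C.R p a b = true) : MoveOk p a b ∧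
      CanGo (C.brd p) false (if cell p a = 8 then C.f a else sq C.o a) (sq C.o b) := by
  obtain ⟨hcb, hcases⟩ := LI4_bGo_cases hg
  have hdest := LI4_dest (C := C) hb hcb
  have hca : cell p a = 8 ∨ (9 ≤ cell p a ∧ cell p a ≤ 13) := by
    rcases hcases with ⟨h1, _⟩ | ⟨h1, _⟩ | ⟨h1, _⟩ | ⟨h1, _⟩ <;> omega
  refine ⟨⟨ha, hb, ?_, hca, Or.inl hcb⟩, ?_⟩
  · rintro rfl
    omega
  rcases hcases with ⟨hc, t, ht, hst⟩ | ⟨hc, t, ht, hst⟩ | ⟨hc, t, ht, hst⟩ | ⟨hc, hsees⟩
  · rw [if_neg (by omega)]
    have hbs := brd_sq C ha (by omega : cell p a ≠ 15)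
    rw [hc] at hbs
    have hai : Inner a := inner_of_cell h ha (by omega)
    have hsq := (stp_inner (t := t) (List.mem_append.2 (Or.inr ht)) hai).2 C.o
    rw [hst] at hsq
    refine LI4_canGo hbs rfl (by decide) ?_ hdest
    change sq C.o b - sq C.o a ∈ knightJumps
    rw [hsq, add_sub_cancel_left]
    exact vec_kn ht
  · rw [if_neg (by omega)]
    have hbs := brd_sq C ha (by omega : cell p a ≠ 15)
    obtain ⟨n, hS⟩ := first_spec h hb (by omega) (List.mem_append.2 (Or.inl ht) : t ∈ orT ++ diT)
      (by rw [hst]; omega)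
    rw [hst] at hS
    rcases hc with hc | hc <;> rw [hc] at hbs
    · exact LI4_canGo hbs rfl (by decide) (LI3_slides hS (LI3_neg_or ht)) hdest
    · exact LI4_canGo hbs rfl (by decide)
        (LI3_slides hS (List.mem_append.2 (Or.inl (LI3_neg_or ht)))) hdest
  · rw [if_neg (by omega)]
    have hbs := brd_sq C ha (by omega : cell p a ≠ 15)
    obtain ⟨n, hS⟩ := first_spec h hb (by omega) (List.mem_append.2 (Or.inr ht) : t ∈ orT ++ diT)
      (by rw [hst]; omega)
    rw [hst] at hS
    rcases hc with hc | hc <;> rw [hc] at hbs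
    · exact LI4_canGo hbs rfl (by decide) (LI3_slides hS (LI3_neg_di ht)) hdest
    · exact LI4_canGo hbs rfl (by decide)
        (LI3_slides hS (List.mem_append.2 (Or.inr (LI3_neg_di ht)))) hdest
  · rw [if_pos hc]
    obtain ⟨ρ, hρ, hρe, hf⟩ := (seesM_iff C.R p b a).1 hsees
    have ht := LI3_ray_t hC hρ
    obtain ⟨n, hS⟩ := first_spec h hb (by omega) ht (by rw [hf]; omega)
    rw [hf, ← hρe] at hS
    rw [← hρe] at hc ⊢
    obtain ⟨m', hm', hfm, hbf, hcl⟩ := mark8_sees hC h hb hρ hS hc
    have hsl : ∀ ds : List Sq, - vec ρ.t ∈ ds → Slides (C.brd p) ds (C.f ρ.e) (sq C.o b) := by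
      intro ds hds
      refine ⟨- vec ρ.t, hds, m', hm', ?_, ?_⟩
      · rw [hfm, smul_neg]; abel
      · intro l hl hlm
        have h1 : C.f ρ.e + l • (- vec ρ.t) = sq C.o b + (m' - l) • vec ρ.t := by
          have h2 : m' • vec ρ.t = (m' - l) • vec ρ.t + l • vec ρ.t := by
            rw [← add_smul]; congr 1; omega
          rw [hfm, h2, smul_neg]; abel
        rw [h1]
        exact hcl _ (by omega) (by omega)
    rcases hC.kind ρ hρ with ⟨h1, h2 | h2⟩ | ⟨h1, h2 | h2⟩ <;> rw [h2] at hbf
    · exact LI4_canGo hbf rfl (by decide) (hsl _ (LI3_neg_or h1)) hdest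
    · exact LI4_canGo hbf rfl (by decide)
        (hsl _ (List.mem_append.2 (Or.inl (LI3_neg_or h1)))) hdest
    · exact LI4_canGo hbf rfl (by decide) (hsl _ (LI3_neg_di h1)) hdest
    · exact LI4_canGo hbf rfl (by decide)
        (hsl _ (List.mem_append.2 (Or.inr (LI3_neg_di h1)))) hdest

/-- the condition of a room does not depend on the patch -/
theorem LI4_G_brd {C : Ctx} (R : Room) (hR : R.Sep C) {p q : Nat} (h : R.G (C.brd p)) :
    R.G (C.brd q) := by
  have key : ∀ p, ∀ s ∈ R.Z, C.brd p s = C.F s := by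
    intro p s hs
    have h1 : ¬ InB C.o s := fun h1 => hR.patch s h1 hs
    unfold Ctx.brd
    rw [if_neg (fun h2 => h1 h2.1)]
    have h2 : C.R.find? (fun ρ => decide (s = C.f ρ.e ∧ cell p ρ.e = 8)) = none := by
      rw [List.find?_eq_none]
      intro ρ hρ h3
      have h4 := (of_decide_eq_true h3).1
      exact hR.far ρ hρ (h4 ▸ hs)
    rw [h2]
  exact R.dep _ _ (fun s hs => by rw [key p s hs, key q s hs]) h

/-- **Forced step:** the value does not drop along the main line. -/
theorem main_ge {C : Ctx} (hC : C.Ok) (R : Room) (hR : R.Sep C) {p k a b s k' : Nat}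
    (h : WF C p k) (hG : R.G (C.brd p)) (ha : a < 400) (hb : b < 400) (hs : s < 400) (hk : k' < 400)
    (hcs : 9 ≤ cell (mvb C.R p a b) s ∧ cell (mvb C.R p a b) s ≤ 13)
    (hck : cell (mvb C.R p a b) k' = 0)
    (hm : main C.R p k a b s k' = true) {β : Ordinal.{0}}
    (hge : GE ⟨C.brd (mv (mvb C.R p a b) k k'), false⟩ β) : GE ⟨C.brd p, false⟩ β := by
  unfold main at hm
  rw [Bool.and_eq_true] at hm
  obtain ⟨hgo, honly⟩ := hm
  obtain ⟨hmo, hcan⟩ := bGo_sound hC h ha hb hgo
  have hcb := (LI4_bGo_cases hgo).1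
  have hwf := wf_mvb hC h hmo
  -- the board after the Black move
  have hbrd : C.brd (mvb C.R p a b) =
      (C.brd p).move (if cell p a = 8 then C.f a else sq C.o a) (sq C.o b) := by
    by_cases h8 : cell p a = 8
    · rw [if_pos h8]
      obtain ⟨ρ, hρ, rfl⟩ := h.mark a ha (Or.inr h8)
      exact brd_mvb hC h hρ h8 hb (Or.inl hcb) hmo.ne.symm
    · rw [if_neg h8, mvb_eq h8]
      have := hmo.src
      exact brd_mv C h ha hb hmo.ne (by omega) (by omega)
  have hkk : k ≠ k' := by
    rintro rfl
    rw [hwf.king] at hck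
    exact absurd hck (by decide)
  have hbrd2 : C.brd (mv (mvb C.R p a b) k k') =
      (C.brd (mvb C.R p a b)).move (sq C.o k) (sq C.o k') :=
    brd_mv C hwf h.lt hk hkk (by rw [hwf.king]; decide) (by rw [hck]; decide)
  have hno : ¬ InCheck (C.brd p) false := room_nocheck hC R hR h hG
  have hleg : Legal (C.brd p) false (if cell p a = 8 then C.f a else sq C.o a) (sq C.o b) := by
    refine ⟨hcan, ?_⟩
    rw [← hbrd]
    exact room_nocheck hC R hR hwf (LI4_G_brd R hR hG)
  refine ge_step (x := sq C.o k) (y := sq C.o k') hleg hno ?_ ?_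
  · intro x' y' hl
    rw [← hbrd] at hl
    exact only_sound hC hwf hs hcs honly x' y' hl
  · rw [← hbrd, ← hbrd2]
    exact hge

end Pool.Agent.Lib.H32C.Loc
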