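import Pool.Agent.Lib.H32C.Loc

/-!
# Tiles: data and checks

The static content of a tile together with a ring of width 8 of its neighbours is a number `A` with four bits
per cell, `80 * 80` cells; cell `(X, Y)` is the digit `X + 80 * Y`, and corresponds to the square
`(X - 8, Y - 8)` of the tile.  A state of a tile is a list of pieces `(X, Y, code)`, beginning with the White
king.
-/

set_option autoImplicit false

namespace Pool.Agent.Lib.H32C.Loc

/-- the code of a cell of a tile -/
def codeA (A X Y : Nat) : Nat :=
  Nat.land (Nat.shiftRight A (Nat.mul 4 (Nat.add X (Nat.mul 80 Y)))) 15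

/-- sixteen cells of a row of a tile -/
def rowA (A X Y : Nat) : Nat :=
  Nat.land (Nat.shiftRight A (Nat.mul 4 (Nat.add X (Nat.mul 80 Y)))) 0xffffffffffffffff

/-- the patch without content: the two outer layers are unknown, all other cells are empty -/
def margin : Nat :=
  0xffffffffffffffffffffffffffffffffffffffffff0000000000000000ffff0000000000000000ffff0000000000000000ffff0000000000000000ffff0000000000000000ffff0000000000000000ffff0000000000000000ffff0000000000000000ffff0000000000000000ffff0000000000000000ffff0000000000000000ffff0000000000000000ffff0000000000000000ffff0000000000000000ffff0000000000000000ffff0000000000000000ffffffffffffffffffffffffffffffffffffffffff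

/-- the patch of the static content of a tile, with the cell `(X, Y)` as cell `210`; `n` rows -/
def patR (A X Y : Nat) (n : Nat) : Nat :=
  Nat.rec margin
    (fun m ih => Nat.xor ih (Nat.shiftLeft (rowA A (Nat.sub X 8) (Nat.sub (Nat.add Y m) 8))
      (Nat.mul 4 (Nat.add 42 (Nat.mul 20 m))))) n

/-- a piece on a tile: coordinates and code -/
structure Pc where
  /-- first coordinate -/
  x : Nat
  /-- second coordinate -/
  y : Nat
  /-- code -/
  c : Nat

/-- the cell of `(x, y)` in the patch around `(X, Y)` -/
def cellOf (X Y x y : Nat) : Nat :=
  Nat.add (Nat.sub (Nat.add x 10) X) (Nat.mul 20 (Nat.sub (Nat.add y 10) Y))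

/-- `(x, y)` belongs to the inner part of the patch around `(X, Y)` -/
def near (X Y x y : Nat) : Bool :=
  Nat.ble X (Nat.add x 8) && (Nat.ble x (Nat.add X 7) &&
    (Nat.ble Y (Nat.add y 8) && Nat.ble y (Nat.add Y 7)))

/-- put pieces on a patch -/
def put (X Y : Nat) (L : List Pc) (p : Nat) : Nat :=
  List.rec p (fun q _ ih => Nat.xor ih (Nat.shiftLeft q.c (Nat.mul 4 (cellOf X Y q.x q.y)))) L

/-- the patch of a state around `(X, Y)` -/
def pat (A X Y : Nat) (L : List Pc) : Nat := put X Y L (patR A X Y 16)

/-- conjunction -/
def ands (L : List Bool) : Bool := List.rec true (fun b _ ih => b && ih) L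

/-- all elements satisfy a condition -/
def allb {α : Type} (f : α → Bool) (L : List α) : Bool := List.rec true (fun x _ ih => f x && ih) L

/-- the pieces of a state stand on distinct empty cells inside the patch around `(X, Y)`, and their
codes are codes of pieces -/
def pcsOk (A X Y : Nat) (L : List Pc) : Bool :=
  List.rec true (fun q L' ih => ands [near X Y q.x q.y, Nat.beq (codeA A q.x q.y) 0,
    msk 0x3e7e q.c, allb (fun u => !(Nat.beq u.x q.x && Nat.beq u.y q.y)) L', ih]) L

/-- a state of a track: the pieces (first the White king), the main line (Black move `a → b`, checking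
piece on `s`, White move to `k'`, as cells of the patch around the king), the certificate, and the
numbers of the exit states -/
structure St where
  /-- pieces -/
  L : List Pc
  /-- source of the Black main move -/
  a : Nat
  /-- target of the Black main move -/
  b : Nat
  /-- the checking piece -/
  s : Nat
  /-- the reply -/
  k' : Nat
  /-- certificate -/
  tr : Tr
  /-- exits -/
  ex : List Nat

/-- the pieces of the `i`-th state -/
def St.nth (S : List St) : Nat → List Pc :=
  List.rec (fun _ => []) (fun x _ ih i => Nat.rec x.L (fun j _ => ih j) i) S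

/-- first coordinate of the first piece of a list -/
def headX (L : List Pc) : Nat := List.rec 0 (fun q _ _ => q.x) L

/-- second coordinate of the first piece of a list -/
def headY (L : List Pc) : Nat := List.rec 0 (fun q _ _ => q.y) L

/-- code of the first piece of a list -/
def headC (L : List Pc) : Nat := List.rec 0 (fun q _ _ => q.c) L

/-- conditions on the cells below `n` of a patch around the king on `k`: only one White king, no Black
king, no marks -/
def cellsOk (p k n : Nat) : Bool :=
  Nat.rec true (fun i ih => ih && (!msk 0x4180 (cell p i) &&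
    (Nat.beq i k || !Nat.beq (cell p i) 6))) n

/-- a certificate which is not an exit, and whose moves start in the patch -/
noncomputable def trOk (t : Tr) : Bool :=
  Tr.rec (fun _ => false) true (fun _ _ _ _ _ _ => true) t &&
    Tr.rec (fun _ => true) true (fun a _ _ _ ihs ihr => Nat.blt a 400 && (ihs && ihr)) t

/-- the check of a state without rays: number `n` in the list `S`, `N` is the number of the last
state (which is not checked); `X`, `Y` are the coordinates of the king, `p` is the patch -/
noncomputable def stOk (A : Nat) (S : List St) (N n : Nat) (x : St) (X Y p : Nat) : Bool :=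
  ands [Nat.beq (headC x.L) 6, pcsOk A X Y x.L, pcsOk A X Y (St.nth S (Nat.add n 1)),
    allb (fun i => ands [Nat.blt n i, Nat.ble i N, pcsOk A X Y (St.nth S i)]) x.ex,
    cellsOk p 210 400, Nat.ble 8 X, Nat.ble X 72, Nat.ble 8 Y, Nat.ble Y 72, safe [] p 210,
    trOk x.tr,
    chk [] (List.rec [] (fun i _ ih => pat A X Y (St.nth S i) :: ih) x.ex) x.tr p 210
      (checks [] false p 210),
    Nat.blt x.a 400, Nat.blt x.b 400, Nat.blt x.s 400, Nat.blt x.k' 400,
    msk 0x3e00 (cell (mvb [] p x.a x.b) x.s), Nat.beq (cell (mvb [] p x.a x.b) x.k') 0,
    main [] p 210 x.a x.b x.s x.k',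
    Nat.beq (mv (mvb [] p x.a x.b) 210 x.k') (pat A X Y (St.nth S (Nat.add n 1)))]

/-- the check of all states of a track -/
noncomputable def trackOk (A : Nat) (S : List St) (N : Nat) : Bool :=
  List.rec (fun n => Nat.beq n (Nat.add N 1))
    (fun x _ ih n => (Nat.beq n N ||
      stOk A S N n x (headX x.L) (headY x.L) (pat A (headX x.L) (headY x.L) x.L)) &&
      ih (Nat.add n 1)) S 0

end Pool.Agent.Lib.H32C.Loc
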