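import Pool.Agent.Lib.H32C.LocA
import Pool.Agent.Lib.H32C.Tile

/-!
# The meaning of the data of tiles: definitions, and chunk TS1 (cells of patches)
-/

set_option autoImplicit false

namespace Pool.Agent.Lib.H32C.Loc

/-- the square of the cell `(x, y)` of a tile whose extended array starts at `O` -/
def tsq (O : Sq) (x y : Nat) : Sq := (O.1 + (x : ℤ), O.2 + (y : ℤ))

/-- the board `F` with the pieces of a state added -/
def stB (F : Board) (O : Sq) (L : List Pc) : Board := fun s =>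
  match L.find? (fun q => decide (tsq O q.x q.y = s)) with
  | some q => dec q.c
  | none => F s

/-- the static content `A` of a (composite) tile with `H` rows agrees with the board `F` -/
structure FitsH (H A : Nat) (O : Sq) (F : Board) : Prop where
  cells : ∀ X Y : Nat, X < 80 → Y < H → codeA A X Y ≠ 15 → F (tsq O X Y) = dec (codeA A X Y)
  noK : ∀ s, NK (F s) s

/-- the static content `A` agrees with the board `F` -/
abbrev Fits (A : Nat) (O : Sq) (F : Board) : Prop := FitsH 80 A O F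

/-- the context of the patch around `(X, Y)` -/
def ctx (O : Sq) (F : Board) (X Y : Nat) : Ctx :=
  ⟨(O.1 + (X : ℤ) - 10, O.2 + (Y : ℤ) - 10), F, [], fun _ => (0, 0)⟩

/-- the region of a tile with its ring -/
def TileReg (O : Sq) : Set Sq :=
  {s | O.1 - 2 ≤ s.1 ∧ s.1 < O.1 + 82 ∧ O.2 - 2 ≤ s.2 ∧ s.2 < O.2 + 82}

/-- the region of a composite tile with `H` rows -/
def TileRegH (H : Nat) (O : Sq) : Set Sq :=
  {s | O.1 - 2 ≤ s.1 ∧ s.1 < O.1 + 82 ∧ O.2 - 2 ≤ s.2 ∧ s.2 < O.2 + (H : ℤ) + 2}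

/-! chunk TS1: helpers -/

theorem TS1_shiftLeft (a b : Nat) : Nat.shiftLeft a b = a <<< b := rfl

theorem TS1_row (A x y c i : Nat) :
    cell (Nat.shiftLeft (rowA A x y) (Nat.mul 4 c)) i =
      if c ≤ i ∧ i < c + 16 then cell A (x + 80 * y + (i - c)) else 0 := by
  have h0 : rowA A x y = (A >>> (4 * (x + 80 * y))) &&& (2 ^ 64 - 1) := rfl
  have h1 : Nat.mul 4 c = 4 * c := rfl
  apply Nat.eq_of_testBit_eq
  intro k
  rw [h0, h1, TS1_shiftLeft, LA_cell_testBit, Nat.testBit_shiftLeft, Nat.testBit_and,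
    Nat.testBit_shiftRight, Nat.testBit_two_pow_sub_one]
  by_cases hk : k < 4
  · by_cases hi : c ≤ i ∧ i < c + 16
    · rw [if_pos hi, LA_cell_testBit]
      have e1 : 4 * c ≤ 4 * i + k := by omega
      have e2 : 4 * i + k - 4 * c < 64 := by omega
      have e3 : 4 * (x + 80 * y) + (4 * i + k - 4 * c) = 4 * (x + 80 * y + (i - c)) + k := by omega
      simp [hk, e1, e2, e3]
    · rw [if_neg hi]
      by_cases e1 : 4 * c ≤ 4 * i + k
      · have e2 : ¬ (4 * i + k - 4 * c < 64) := by omega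
        simp [e2]
      · simp [e1]
  · by_cases hi : c ≤ i ∧ i < c + 16
    · rw [if_pos hi, LA_cell_testBit]
      simp [hk]
    · rw [if_neg hi]
      simp [hk]

theorem TS1_margin : ∀ i < 400, cell margin i = if Inner i then 0 else 15 := by
  decide +kernel

theorem TS1_codeA (A X Y : Nat) : codeA A X Y = cell A (X + 80 * Y) := rfl

theorem TS1_patR_succ (A X Y n : Nat) : patR A X Y (n + 1) =
    Nat.xor (patR A X Y n) (Nat.shiftLeft (rowA A (X - 8) (Y + n - 8))
      (Nat.mul 4 (42 + 20 * n))) := rfl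

theorem TS1_patR (A X Y : Nat) (hX : 8 ≤ X) (hY : 8 ≤ Y) (i : Nat) (hi : i < 400)
    (n : Nat) : n ≤ 16 → cell (patR A X Y n) i =
      if Inner i then (if i / 20 < n + 2 then codeA A (X + i % 20 - 10) (Y + i / 20 - 10) else 0)
      else 15 := by
  induction n with
  | zero =>
    intro _
    have h1 : cell (patR A X Y 0) i = cell margin i := rfl
    rw [h1, TS1_margin i hi]
    by_cases h2 : Inner i
    · rw [if_pos h2, if_pos h2, if_neg]
      unfold Inner at h2
      omega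
    · rw [if_neg h2, if_neg h2]
  | succ n ih =>
    intro hn
    rw [TS1_patR_succ, LA_cell_xor, ih (by omega), TS1_row]
    by_cases h2 : Inner i
    · rw [if_pos h2, if_pos h2]
      have h2' := h2
      unfold Inner at h2'
      by_cases h3 : i / 20 < n + 2
      · have e1 : ¬ (42 + 20 * n ≤ i ∧ i < 42 + 20 * n + 16) := by omega
        have e2 : i / 20 < n + 1 + 2 := by omega
        rw [if_pos h3, if_neg e1, if_pos e2, Nat.xor_zero]
      · rw [if_neg h3]
        by_cases h4 : i / 20 < n + 1 + 2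
        · have e1 : 42 + 20 * n ≤ i ∧ i < 42 + 20 * n + 16 := by omega
          rw [if_pos e1, if_pos h4, Nat.zero_xor, TS1_codeA]
          congr 1
          omega
        · have e1 : ¬ (42 + 20 * n ≤ i ∧ i < 42 + 20 * n + 16) := by omega
          rw [if_neg e1, if_neg h4, Nat.zero_xor]
    · rw [if_neg h2, if_neg h2]
      have h3 : ¬ (42 + 20 * n ≤ i ∧ i < 42 + 20 * n + 16) := by
        unfold Inner at h2
        omega
      rw [if_neg h3, Nat.xor_zero]

/-- chunk TS1: the cells of the patch of a state: for a cell `i` with coordinates `x, y < 20` -/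
theorem cell_patR (A X Y : Nat) (hX : 8 ≤ X ∧ X ≤ 72) (hY : 8 ≤ Y) (i : Nat) (hi : i < 400) :
    cell (patR A X Y 16) i =
      if Inner i then codeA A (X + i % 20 - 10) (Y + i / 20 - 10) else 15 := by
  rw [TS1_patR A X Y hX.1 hY i hi 16 le_rfl]
  by_cases h2 : Inner i
  · rw [if_pos h2, if_pos h2, if_pos]
    unfold Inner at h2
    omega
  · rw [if_neg h2, if_neg h2]

/-- chunk TS1: putting a piece on an empty cell -/
theorem cell_put (X Y : Nat) (q : Pc) (L : List Pc) (p i : Nat) (hq : q.c < 16) :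
    cell (put X Y (q :: L) p) i =
      if i = cellOf X Y q.x q.y then Nat.xor (cell (put X Y L p) i) q.c
      else cell (put X Y L p) i := by
  have h1 : put X Y (q :: L) p = Nat.xor (put X Y L p)
    (Nat.shiftLeft q.c (Nat.mul 4 (cellOf X Y q.x q.y))) := rfl
  rw [h1, LA_cell_xor, LA_cell_shl hq]
  by_cases h2 : i = cellOf X Y q.x q.y
  · rw [if_pos h2, if_pos h2]
    rfl
  · rw [if_neg h2, if_neg h2, Nat.xor_zero]

theorem TS1_ble {a b : Nat} : Nat.ble a b = true ↔ a ≤ b :=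
  ⟨Nat.le_of_ble_eq_true, Nat.ble_eq_true_of_le⟩

theorem TS1_beq {a b : Nat} : Nat.beq a b = true ↔ a = b :=
  ⟨Nat.eq_of_beq_eq_true, fun h => h ▸ Nat.beq_refl a⟩

theorem TS1_near (X Y x y : Nat) : near X Y x y = true ↔
    (X ≤ x + 8 ∧ x ≤ X + 7 ∧ Y ≤ y + 8 ∧ y ≤ Y + 7) := by
  unfold near
  rw [Bool.and_eq_true, Bool.and_eq_true, Bool.and_eq_true, TS1_ble, TS1_ble, TS1_ble, TS1_ble]

theorem TS1_allb {α : Type} (f : α → Bool) (L : List α) :
    allb f L = true ↔ ∀ x ∈ L, f x = true := by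
  induction L with
  | nil =>
    constructor
    · intro _ x hx
      exact absurd hx List.not_mem_nil
    · intro _
      rfl
  | cons x L ih =>
    have h1 : allb f (x :: L) = (f x && allb f L) := rfl
    rw [h1, Bool.and_eq_true, ih, List.forall_mem_cons]

theorem TS1_mskLt : ∀ c < 16, (msk 0x3e7e c = true ↔ ((1 ≤ c ∧ c ≤ 6) ∨ (9 ≤ c ∧ c ≤ 13))) := by
  decide

theorem TS1_msk (c : Nat) : msk 0x3e7e c = true ↔ ((1 ≤ c ∧ c ≤ 6) ∨ (9 ≤ c ∧ c ≤ 13)) := by
  by_cases hc : c < 16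
  · exact TS1_mskLt c hc
  · rw [msk_iff, Nat.testBit_lt_two_pow]
    · constructor
      · intro h
        cases h
      · intro h
        omega
    · calc 0x3e7e < 2 ^ 16 := by norm_num
        _ ≤ 2 ^ c := Nat.pow_le_pow_right (by norm_num) (by omega)

/-- chunk TS1: the conditions `pcsOk`, unfolded -/
theorem pcsOk_cons (A X Y : Nat) (q : Pc) (L : List Pc) : pcsOk A X Y (q :: L) = true ↔
    (X ≤ q.x + 8 ∧ q.x ≤ X + 7 ∧ Y ≤ q.y + 8 ∧ q.y ≤ Y + 7) ∧ codeA A q.x q.y = 0 ∧
      ((1 ≤ q.c ∧ q.c ≤ 6) ∨ (9 ≤ q.c ∧ q.c ≤ 13)) ∧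
      (∀ u ∈ L, ¬ (u.x = q.x ∧ u.y = q.y)) ∧ pcsOk A X Y L = true := by
  have h1 : pcsOk A X Y (q :: L) = (near X Y q.x q.y && (Nat.beq (codeA A q.x q.y) 0 &&
    (msk 0x3e7e q.c && (allb (fun u => !(Nat.beq u.x q.x && Nat.beq u.y q.y)) L &&
      (pcsOk A X Y L && true))))) := rfl
  rw [h1, Bool.and_true, Bool.and_eq_true, Bool.and_eq_true, Bool.and_eq_true, Bool.and_eq_true,
    TS1_near, TS1_beq, TS1_msk, TS1_allb]
  have h2 : (∀ u ∈ L, (!(Nat.beq u.x q.x && Nat.beq u.y q.y)) = true) ↔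
      ∀ u ∈ L, ¬ (u.x = q.x ∧ u.y = q.y) := by
    apply forall_congr'
    intro u
    apply imp_congr_right
    intro _
    rw [Bool.not_eq_true', ← Bool.not_eq_true, Bool.and_eq_true, TS1_beq, TS1_beq]
  rw [h2]

end Pool.Agent.Lib.H32C.Loc
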