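import Pool.Agent.Lib.H32C.LocB
import Pool.Agent.Lib.H32C.TileA

/-!
# Chunk TS2: the board of the patch of a state
-/

set_option autoImplicit false

namespace Pool.Agent.Lib.H32C.Loc

/-! helpers -/

theorem TS2_cellOf {X Y x y : Nat} (h : X ≤ x + 8 ∧ x ≤ X + 7 ∧ Y ≤ y + 8 ∧ y ≤ Y + 7) :
    cellOf X Y x y % 20 = x + 10 - X ∧ cellOf X Y x y / 20 = y + 10 - Y ∧
      cellOf X Y x y < 400 ∧ Inner (cellOf X Y x y) := by
  have h1 : cellOf X Y x y = (x + 10 - X) + 20 * (y + 10 - Y) := rfl
  have h2 : cellOf X Y x y % 20 = x + 10 - X := by omega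
  have h3 : cellOf X Y x y / 20 = y + 10 - Y := by omega
  refine ⟨h2, h3, by omega, ?_⟩
  unfold Inner
  omega

theorem TS2_pcs {A X Y : Nat} {L : List Pc} (h : pcsOk A X Y L = true) : ∀ q ∈ L,
    (X ≤ q.x + 8 ∧ q.x ≤ X + 7 ∧ Y ≤ q.y + 8 ∧ q.y ≤ Y + 7) ∧
      ((1 ≤ q.c ∧ q.c ≤ 6) ∨ (9 ≤ q.c ∧ q.c ≤ 13)) := by
  induction L with
  | nil => intro q hq; exact absurd hq List.not_mem_nil
  | cons u L ih =>
    rw [pcsOk_cons] at h
    obtain ⟨h1, _, h2, _, h3⟩ := h
    intro q hq
    rcases List.mem_cons.1 hq with rfl | hq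
    · exact ⟨h1, h2⟩
    · exact ih h3 q hq

theorem TS2_put_nil (X Y p : Nat) : put X Y [] p = p := rfl

/-- chunk TS2: the cells of the patch of a state -/
theorem cell_pat {A X Y : Nat} (hX : 8 ≤ X ∧ X ≤ 72) (hY : 8 ≤ Y ∧ Y ≤ 72) {L : List Pc}
    (h : pcsOk A X Y L = true) (i : Nat) (hi : i < 400) :
    cell (pat A X Y L) i =
      match L.find? (fun q => decide (cellOf X Y q.x q.y = i)) with
      | some q => q.c
      | none => if Inner i then codeA A (X + i % 20 - 10) (Y + i / 20 - 10) else 15 := by
  unfold pat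
  induction L with
  | nil => exact cell_patR A X Y hX hY.1 i hi
  | cons q L ih =>
    rw [pcsOk_cons] at h
    obtain ⟨h1, h2, h3, h4, h5⟩ := h
    have ih' := ih h5
    rw [cell_put X Y q L _ i (by omega)]
    by_cases hc : cellOf X Y q.x q.y = i
    · rw [if_pos hc.symm, List.find?_cons_of_pos (by simpa using hc)]
      have hnone : L.find? (fun q => decide (cellOf X Y q.x q.y = i)) = none := by
        rw [List.find?_eq_none]
        intro u hu hcu
        have hcu' : cellOf X Y u.x u.y = i := by simpa using hcu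
        obtain ⟨g1, g2, _, _⟩ := TS2_cellOf h1
        obtain ⟨g3, g4, _, _⟩ := TS2_cellOf (TS2_pcs h5 u hu).1
        rw [hc] at g1 g2
        rw [hcu'] at g3 g4
        have g5 := (TS2_pcs h5 u hu).1
        exact h4 u hu ⟨by omega, by omega⟩
      rw [hnone] at ih'
      have hin : Inner i := by
        rw [← hc]
        exact (TS2_cellOf h1).2.2.2
      simp only [if_pos hin] at ih'
      rw [ih']
      obtain ⟨g1, g2, _, _⟩ := TS2_cellOf h1
      rw [hc] at g1 g2
      have e1 : X + i % 20 - 10 = q.x := by omega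
      have e2 : Y + i / 20 - 10 = q.y := by omega
      rw [e1, e2, h2]
      show Nat.xor 0 q.c = q.c
      exact Nat.zero_xor q.c
    · rw [if_neg (fun hh => hc hh.symm), List.find?_cons_of_neg (by simpa using hc)]
      exact ih'

theorem TS2_find_congr {L : List Pc} {f g : Pc → Bool} (h : ∀ q ∈ L, f q = g q) :
    L.find? f = L.find? g := by
  induction L with
  | nil => rfl
  | cons q L ih =>
    have h1 := h q List.mem_cons_self
    have h2 := ih (fun u hu => h u (List.mem_cons_of_mem _ hu))
    by_cases hf : f q = true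
    · rw [List.find?_cons_of_pos hf, List.find?_cons_of_pos (h1 ▸ hf)]
    · rw [List.find?_cons_of_neg hf, List.find?_cons_of_neg (h1 ▸ hf), h2]

/-- chunk TS2: the board described by the patch of a state -/
theorem brd_pat {A : Nat} {O : Sq} {F : Board} (hF : Fits A O F) {X Y : Nat}
    (hX : 8 ≤ X ∧ X ≤ 72) (hY : 8 ≤ Y ∧ Y ≤ 72) {L : List Pc} (h : pcsOk A X Y L = true) :
    (ctx O F X Y).brd (pat A X Y L) = stB F O L := by
  funext s
  have ho : (ctx O F X Y).o = (O.1 + (X : ℤ) - 10, O.2 + (Y : ℤ) - 10) := rfl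
  have hbrd : (ctx O F X Y).brd (pat A X Y L) s =
      if InB (ctx O F X Y).o s ∧ cell (pat A X Y L) (idx (ctx O F X Y).o s) ≠ 15 then
        dec (cell (pat A X Y L) (idx (ctx O F X Y).o s)) else F s := rfl
  rw [hbrd]
  have hpcs := TS2_pcs h
  -- squares of pieces are squares of the patch
  have hsq : ∀ u ∈ L, tsq O u.x u.y = s → InB (ctx O F X Y).o s := by
    intro u hu hs
    obtain ⟨⟨g1, g2, g3, g4⟩, _⟩ := hpcs u hu
    rw [← hs, ho]
    unfold InB tsq
    simp only
    omega
  by_cases hin : InB (ctx O F X Y).o s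
  · obtain ⟨hs1, hs2⟩ := sq_idx hin
    set i := idx (ctx O F X Y).o s with hi
    have e1 : O.1 + (X : ℤ) - 10 + ((i % 20 : ℕ) : ℤ) = s.1 := congrArg Prod.fst hs1
    have e2 : O.2 + (Y : ℤ) - 10 + ((i / 20 : ℕ) : ℤ) = s.2 := congrArg Prod.snd hs1
    have hcong : L.find? (fun q => decide (cellOf X Y q.x q.y = i)) =
        L.find? (fun q => decide (tsq O q.x q.y = s)) := by
      apply TS2_find_congr
      intro u hu
      obtain ⟨g, _⟩ := hpcs u hu
      obtain ⟨g1, g2, _, _⟩ := TS2_cellOf g
      apply decide_eq_decide.2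
      constructor
      · intro hc
        rw [hc] at g1 g2
        apply Prod.ext
        · show O.1 + (u.x : ℤ) = s.1
          omega
        · show O.2 + (u.y : ℤ) = s.2
          omega
      · intro hc
        have c1 : O.1 + (u.x : ℤ) = s.1 := congrArg Prod.fst hc
        have c2 : O.2 + (u.y : ℤ) = s.2 := congrArg Prod.snd hc
        omega
    have hcell := cell_pat hX hY h i hs2
    rw [hcong] at hcell
    unfold stB
    cases hfind : L.find? (fun q => decide (tsq O q.x q.y = s)) with
    | some q =>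
      rw [hfind] at hcell
      simp only at hcell ⊢
      have hq := hpcs q (List.mem_of_find?_eq_some hfind)
      rw [hcell, if_pos ⟨hin, by omega⟩]
    | none =>
      rw [hfind] at hcell
      simp only at hcell ⊢
      by_cases hinn : Inner i
      · rw [if_pos hinn] at hcell
        rw [hcell]
        by_cases h15 : codeA A (X + i % 20 - 10) (Y + i / 20 - 10) = 15
        · rw [if_neg (fun hh => hh.2 h15)]
        · rw [if_pos ⟨hin, h15⟩]
          unfold Inner at hinn
          rw [← hF.cells _ _ (by omega) (by omega) h15]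
          congr 1
          apply Prod.ext
          · show O.1 + ((X + i % 20 - 10 : ℕ) : ℤ) = s.1
            omega
          · show O.2 + ((Y + i / 20 - 10 : ℕ) : ℤ) = s.2
            omega
      · rw [if_neg hinn] at hcell
        rw [if_neg (fun hh => hh.2 hcell)]
  · rw [if_neg (fun hh => hin hh.1)]
    unfold stB
    have hnone : L.find? (fun q => decide (tsq O q.x q.y = s)) = none := by
      rw [List.find?_eq_none]
      intro u hu hs
      exact hin (hsq u hu (by simpa using hs))
    rw [hnone]

theorem ctx_ok {O : Sq} {F : Board} (hF : ∀ s, NK (F s) s) (X Y : Nat) :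
    (ctx O F X Y).Ok where
  noK := hF
  nodup := List.nodup_nil
  kind := fun _ h => absurd h List.not_mem_nil
  inner := fun _ h => absurd h List.not_mem_nil
  empty := fun _ h => absurd h List.not_mem_nil
  far := fun _ h => absurd h List.not_mem_nil
  disj := fun _ h => absurd h List.not_mem_nil

theorem TS2_msk : ∀ c < 16, (msk 0x4180 c = true ↔ c = 7 ∨ c = 8 ∨ c = 14) := by decide

theorem TS2_cellsOk (p k n : Nat) (h : cellsOk p k n = true) : ∀ i < n,
    msk 0x4180 (cell p i) = false ∧ (i = k ∨ cell p i ≠ 6) := by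
  induction n with
  | zero => intro i hi; omega
  | succ n ih =>
    have h1 : cellsOk p k (n + 1) = (cellsOk p k n && (!msk 0x4180 (cell p n) &&
      (Nat.beq n k || !Nat.beq (cell p n) 6))) := rfl
    rw [h1, Bool.and_eq_true, Bool.and_eq_true, Bool.or_eq_true, Bool.not_eq_true',
      Bool.not_eq_true', TS1_beq] at h
    obtain ⟨h2, h3, h4⟩ := h
    intro i hi
    by_cases hin : i < n
    · exact ih h2 i hin
    · have : i = n := by omega
      subst this
      refine ⟨h3, ?_⟩
      rcases h4 with h4 | h4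
      · exact Or.inl h4
      · right
        intro h5
        rw [TS1_beq.2 h5] at h4
        cases h4

/-- chunk TS2: well-formedness -/
theorem wf_pat {A : Nat} {O : Sq} {F : Board} {X Y : Nat} (hX : 8 ≤ X ∧ X ≤ 72)
    (hY : 8 ≤ Y ∧ Y ≤ 72) {L : List Pc} (h : pcsOk A X Y L = true)
    (hX' : headX L = X) (hY' : headY L = Y) (hC : headC L = 6)
    (hc : cellsOk (pat A X Y L) 210 400 = true) : WF (ctx O F X Y) (pat A X Y L) 210 := by
  have hcells := TS2_cellsOk _ _ _ hc
  have hlt := cell_lt (pat A X Y L)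
  refine ⟨by norm_num, ?_, ?_, ?_, ?_, ?_, fun _ h => absurd h List.not_mem_nil⟩
  · cases L with
    | nil => cases hC
    | cons q L =>
      have e1 : q.x = X := hX'
      have e2 : q.y = Y := hY'
      have e3 : q.c = 6 := hC
      rw [cell_pat hX hY h 210 (by norm_num), List.find?_cons_of_pos]
      · exact e3
      · have g : cellOf X Y q.x q.y = (q.x + 10 - X) + 20 * (q.y + 10 - Y) := rfl
        simp only [decide_eq_true_eq]
        omega
  · intro i hi h6
    rcases (hcells i hi).2 with h7 | h7
    · exact h7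
    · exact absurd h6 h7
  · intro i hi hin
    rw [cell_pat hX hY h i hi]
    have hnone : L.find? (fun q => decide (cellOf X Y q.x q.y = i)) = none := by
      rw [List.find?_eq_none]
      intro u hu hcu
      have hcu' : cellOf X Y u.x u.y = i := by simpa using hcu
      apply hin
      rw [← hcu']
      exact (TS2_cellOf (TS2_pcs h u hu).1).2.2.2
    rw [hnone]
    simp only [if_neg hin]
  · intro i hi h7
    exfalso
    have h8 := (hcells i hi).1
    rw [← Bool.not_eq_true, TS2_msk _ (hlt i)] at h8
    omega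
  · intro i hi h7
    have h8 := (hcells i hi).1
    rw [← Bool.not_eq_true, TS2_msk _ (hlt i)] at h8
    omega

end Pool.Agent.Lib.H32C.Loc
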