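import Pool.Agent.Lib.H32C.LocH2
import Pool.Agent.Lib.H32C.LocI4
import Pool.Agent.Lib.H32C.TileB

/-!
# Chunk TS3: one state
-/

set_option autoImplicit false

namespace Pool.Agent.Lib.H32C.Loc

theorem TS3_ands_cons (b : Bool) (L : List Bool) : ands (b :: L) = true ↔ b = true ∧ ands L = true := by
  show (b && ands L) = true ↔ _
  rw [Bool.and_eq_true]

theorem TS3_allb {α : Type} (f : α → Bool) (L : List α) :
    allb f L = true ↔ ∀ x ∈ L, f x = true := by
  induction L with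
  | nil => exact ⟨fun _ x hx => absurd hx (by simp), fun _ => rfl⟩
  | cons y L ih =>
    have h1 : allb f (y :: L) = true ↔ f y = true ∧ allb f L = true := by
      show (f y && allb f L) = true ↔ _
      rw [Bool.and_eq_true]
    rw [h1, ih]
    constructor
    · rintro ⟨h2, h3⟩ x hx
      rcases List.mem_cons.1 hx with rfl | hx
      · exact h2
      · exact h3 x hx
    · intro h2
      exact ⟨h2 y (List.mem_cons_self ..), fun x hx => h2 x (List.mem_cons_of_mem _ hx)⟩

/-- the conditions of `stOk`, unfolded -/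
structure TS3_Data (A : Nat) (S : List St) (N n : Nat) (x : St) (X Y p : Nat) : Prop where
  hC : headC x.L = 6
  pcs : pcsOk A X Y x.L = true
  pcs' : pcsOk A X Y (St.nth S (n + 1)) = true
  ex : ∀ i ∈ x.ex, n < i ∧ i ≤ N ∧ pcsOk A X Y (St.nth S i) = true
  cells : cellsOk p 210 400 = true
  hX : 8 ≤ X ∧ X ≤ 72
  hY : 8 ≤ Y ∧ Y ≤ 72
  safe : safe [] p 210 = true
  tr : trOk x.tr = true
  chk : chk [] (List.rec [] (fun i _ ih => pat A X Y (St.nth S i) :: ih) x.ex) x.tr p 210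
      (checks [] false p 210) = true
  ha : x.a < 400
  hb : x.b < 400
  hs : x.s < 400
  hk : x.k' < 400
  hcs : msk 0x3e00 (cell (mvb [] p x.a x.b) x.s) = true
  hck : cell (mvb [] p x.a x.b) x.k' = 0
  main : main [] p 210 x.a x.b x.s x.k' = true
  next : mv (mvb [] p x.a x.b) 210 x.k' = pat A X Y (St.nth S (n + 1))

theorem TS3_data {A : Nat} {S : List St} {N n : Nat} {x : St} {X Y p : Nat}
    (h : stOk A S N n x X Y p = true) : TS3_Data A S N n x X Y p := by
  unfold stOk at h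
  simp only [TS3_ands_cons] at h
  obtain ⟨h1, h2, h3, h4, h5, h6, h7, h8, h9, h10, h11, h12, h13, h14, h15, h16, h17, h18, h19, h20,
    -⟩ := h
  rw [TS3_allb] at h4
  refine ⟨Nat.eq_of_beq_eq_true h1, h2, h3, ?_, h5, ⟨Nat.le_of_ble_eq_true h6, Nat.le_of_ble_eq_true h7⟩,
    ⟨Nat.le_of_ble_eq_true h8, Nat.le_of_ble_eq_true h9⟩, h10, h11, h12, ?_, ?_, ?_, ?_, h17,
    Nat.eq_of_beq_eq_true h18, h19, Nat.eq_of_beq_eq_true h20⟩
  · intro i hi
    have := h4 i hi
    simp only [TS3_ands_cons] at this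
    exact ⟨Nat.le_of_ble_eq_true this.1, Nat.le_of_ble_eq_true this.2.1, this.2.2.1⟩
  · exact Nat.le_of_ble_eq_true h13
  · exact Nat.le_of_ble_eq_true h14
  · exact Nat.le_of_ble_eq_true h15
  · exact Nat.le_of_ble_eq_true h16

theorem TS3_small {t : Tr} (h : trOk t = true) : t.Small ∧ ∀ i, t ≠ Tr.exit i := by
  unfold trOk at h
  rw [Bool.and_eq_true] at h
  constructor
  · rw [← Tr.small_iff]
    exact h.2
  · rintro i rfl
    exact absurd h.1 (by simp)

theorem TS3_mem_exits {A X Y : Nat} {S : List St} (L : List Nat) {p : Nat}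
    (hp : p ∈ (List.rec [] (fun i _ ih => pat A X Y (St.nth S i) :: ih) L : List Nat)) :
    ∃ i ∈ L, p = pat A X Y (St.nth S i) := by
  induction L with
  | nil => exact absurd hp (by simp)
  | cons y L ih =>
    rcases List.mem_cons.1 hp with rfl | hp
    · exact ⟨y, List.mem_cons_self .., rfl⟩
    · obtain ⟨i, hi, h1⟩ := ih hp
      exact ⟨i, List.mem_cons_of_mem _ hi, h1⟩

theorem TS3_sep {O : Sq} {F : Board} (R : Room) (hR : ∀ s ∈ TileReg O, s ∉ R.Z) {X Y : Nat}
    (hX : 8 ≤ X ∧ X ≤ 72) (hY : 8 ≤ Y ∧ Y ≤ 72) : R.Sep (ctx O F X Y) := by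
  constructor
  · intro s hs
    refine hR s ?_
    obtain ⟨h1, h2, h3, h4⟩ := hs
    simp only [ctx] at h1 h2 h3 h4
    refine ⟨?_, ?_, ?_, ?_⟩ <;> omega
  · intro ρ hρ
    exact absurd hρ (by simp [ctx])

theorem TS3_G {O : Sq} {F : Board} (R : Room) (hR : ∀ s ∈ TileReg O, s ∉ R.Z) (hG : R.G F)
    {X Y : Nat} (hX : 8 ≤ X ∧ X ≤ 72) (hY : 8 ≤ Y ∧ Y ≤ 72) (p : Nat) :
    R.G ((ctx O F X Y).brd p) := by
  refine R.dep F _ (fun s hs => ?_) hG
  have h1 : ¬ InB (ctx O F X Y).o s := fun h => (TS3_sep R hR hX hY (F := F)).patch s h hs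
  unfold Ctx.brd
  rw [if_neg (fun h => h1 h.1)]
  rfl

/-- chunk TS3: one state, upper bound -/
theorem st_hasValue {A : Nat} {O : Sq} {F : Board} (hF : Fits A O F) (R : Room)
    (hR : ∀ s ∈ TileReg O, s ∉ R.Z) (hG : R.G F) {S : List St} {N n : Nat} {x : St}
    (h : stOk A S N n x (headX x.L) (headY x.L) (pat A (headX x.L) (headY x.L) x.L) = true)
    (hv : ∀ m, n < m → m ≤ N → HasValue ⟨stB F O (St.nth S m), false⟩) :
    HasValue ⟨stB F O x.L, false⟩ := by
  have d := TS3_data h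
  have hsep := TS3_sep (F := F) R hR d.hX d.hY
  have hok := ctx_ok hF.noK (O := O) (headX x.L) (headY x.L)
  have hwf := wf_pat (O := O) (F := F) d.hX d.hY d.pcs rfl rfl d.hC d.cells
  have hbrd := brd_pat hF d.hX d.hY d.pcs
  obtain ⟨hsm, hne⟩ := TS3_small d.tr
  have hG' := TS3_G R hR hG d.hX d.hY (pat A (headX x.L) (headY x.L) x.L)
  have key := chk_sound (C := ctx O F (headX x.L) (headY x.L)) hok R hsep _ ?_ x.tr hsm hne _ 210
    hwf hG' d.safe d.chk
  · rw [hbrd] at key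
    exact key
  · intro p hp
    obtain ⟨i, hi, rfl⟩ := TS3_mem_exits x.ex hp
    obtain ⟨h1, h2, h3⟩ := d.ex i hi
    rw [brd_pat hF d.hX d.hY h3]
    exact hv i h1 h2

/-- chunk TS3: one state, lower bound -/
theorem st_ge {A : Nat} {O : Sq} {F : Board} (hF : Fits A O F) (R : Room)
    (hR : ∀ s ∈ TileReg O, s ∉ R.Z) (hG : R.G F) {S : List St} {N n : Nat} {x : St}
    (h : stOk A S N n x (headX x.L) (headY x.L) (pat A (headX x.L) (headY x.L) x.L) = true)
    {β : Ordinal.{0}} (hv : GE ⟨stB F O (St.nth S (n + 1)), false⟩ β) :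
    GE ⟨stB F O x.L, false⟩ β := by
  have d := TS3_data h
  have hsep := TS3_sep (F := F) R hR d.hX d.hY
  have hok := ctx_ok hF.noK (O := O) (headX x.L) (headY x.L)
  have hwf := wf_pat (O := O) (F := F) d.hX d.hY d.pcs rfl rfl d.hC d.cells
  have hbrd := brd_pat hF d.hX d.hY d.pcs
  have hG' := TS3_G R hR hG d.hX d.hY (pat A (headX x.L) (headY x.L) x.L)
  have hcs : 9 ≤ cell (mvb [] (pat A (headX x.L) (headY x.L) x.L) x.a x.b) x.s ∧
      cell (mvb [] (pat A (headX x.L) (headY x.L) x.L) x.a x.b) x.s ≤ 13 := by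
    have h1 := cell_lt (mvb [] (pat A (headX x.L) (headY x.L) x.L) x.a x.b) x.s
    have h2 := d.hcs
    revert h1 h2
    generalize cell (mvb [] (pat A (headX x.L) (headY x.L) x.L) x.a x.b) x.s = c
    intro h1 h2
    interval_cases c <;> first | exact ⟨by omega, by omega⟩ | exact absurd h2 (by decide)
  have key := main_ge (C := ctx O F (headX x.L) (headY x.L)) hok R hsep hwf hG' d.ha d.hb d.hs d.hk
    hcs d.hck d.main (β := β) ?_
  · rw [hbrd] at key
    exact key
  · show GE ⟨(ctx O F (headX x.L) (headY x.L)).brd (mv (mvb [] _ x.a x.b) 210 x.k'), false⟩ β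
    rw [d.next, brd_pat hF d.hX d.hY d.pcs']
    exact hv

end Pool.Agent.Lib.H32C.Loc
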