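import Pool.Agent.Lib.H32C.LocL2
import Pool.Agent.Lib.H32C.LocM
import Pool.Agent.Lib.H32C.TileC

/-!
# Tiles: states with rays

The states of a gadget in a tile are given by a list `S` of lists of pieces (first the White king).  A
verification datum `SW` consists of the centre of a patch (which need not be the square of the king), the marks
of the rays in this patch, a certificate with events, and its exits (by the number of events still allowed).
-/

set_option autoImplicit false

namespace Pool.Agent.Lib.H32C.Loc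

/-- an exit: the number of a state, and the marks -/
structure Ex where
  /-- number of the state -/
  i : Nat
  /-- marks -/
  M : List Pc

/-- verification data of a state -/
structure SW where
  /-- first coordinate of the centre of the patch -/
  X : Nat
  /-- second coordinate of the centre of the patch -/
  Y : Nat
  /-- marks -/
  M : List Pc
  /-- rays -/
  R : List Ray
  /-- parameters -/
  P : Par
  /-- number of events allowed -/
  n : Nat
  /-- certificate -/
  tr : Tr
  /-- exits, by the number of events still allowed -/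
  ex : List (List Ex)

/-- the pieces of the `i`-th state -/
def nthP (S : List (List Pc)) : Nat → List Pc :=
  List.rec (fun _ => []) (fun x _ ih i => Nat.rec x (fun j _ => ih j) i) S

/-- concatenation -/
def catP (M L : List Pc) : List Pc := List.rec L (fun q _ ih => q :: ih) M

/-- the pieces and marks stand on distinct empty cells inside the patch around `(X, Y)`, and their
codes are codes of pieces or marks -/
def pcsOkW (A X Y : Nat) (L : List Pc) : Bool :=
  List.rec true (fun q L' ih => ands [near X Y q.x q.y, Nat.beq (codeA A q.x q.y) 0,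
    msk 0x3ffe q.c, allb (fun u => !(Nat.beq u.x q.x && Nat.beq u.y q.y)) L', ih]) L

/-- there is a ray with mark on `i` -/
def isE (R : List Ray) (i : Nat) : Bool := List.rec false (fun x _ ih => Nat.beq x.e i || ih) R

/-- conditions on the cells below `n` of a patch around the king on `k`: only one White king, no Black
king, marks only on the cells of the rays -/
def cellsOkW (R : List Ray) (p k n : Nat) : Bool :=
  Nat.rec true (fun i ih => ih && (!msk 0x4000 (cell p i) && ((Nat.beq i k || !Nat.beq (cell p i) 6) &&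
    (!msk 0x180 (cell p i) || isE R i)))) n

/-- the patch of the state with the number `i` and with marks `M` -/
def patW (A : Nat) (S : List (List Pc)) (X Y i : Nat) (M : List Pc) : Nat :=
  pat A X Y (catP M (nthP S i))

/-- the cell of the king in the patch around `(X, Y)` -/
def kOf (X Y : Nat) (L : List Pc) : Nat := cellOf X Y (headX L) (headY L)

/-- the patches of the exits -/
def exP (A : Nat) (S : List (List Pc)) (X Y : Nat) (E : List Ex) : List Nat :=
  List.rec [] (fun e _ ih => patW A S X Y e.i e.M :: ih) E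

/-- the patches of the exits by level -/
def exPP (A : Nat) (S : List (List Pc)) (X Y : Nat) (E : List (List Ex)) : List (List Nat) :=
  List.rec [] (fun e _ ih => exP A S X Y e :: ih) E

/-- the cells beyond `i` in direction `t` are unknown -/
def beyC (p t : Nat) (n : Nat) : Nat → Bool :=
  Nat.rec (fun _ => true)
    (fun _ ih i => outC (stp t i) || (Nat.beq (cell p (stp t i)) 15 && ih (stp t i))) n

/-- the cells beyond the marks on the rays are unknown -/
def beyR (p : Nat) (R : List Ray) : Bool :=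
  List.rec true (fun ρ _ ih => !outC ρ.e && (beyC p ρ.t 16 ρ.e && ih)) R

/-- basic conditions on a state and its patch `p`, with the king on the cell `k` -/
def baseOk (H A : Nat) (S : List (List Pc)) (i : Nat) (x : SW) (p k : Nat) : Bool :=
  ands [Nat.beq (headC (nthP S i)) 6, pcsOkW A x.X x.Y (catP x.M (nthP S i)),
    cellsOkW x.R p k 400, Nat.ble 8 x.X, Nat.ble x.X 72, Nat.ble 8 x.Y, Nat.ble (Nat.add x.Y 8) H,
    beyR p x.R]

/-- the check of the verification data of the state number `i` -/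
noncomputable def swOk (H A : Nat) (S : List (List Pc)) (i : Nat) (x : SW) (p k : Nat) : Bool :=
  ands [baseOk H A S i x p k,
    allb (fun E => allb (fun e => pcsOkW A x.X x.Y (catP e.M (nthP S e.i))) E) x.ex,
    safe x.R p k, trOk x.tr,
    chkA x.P x.R (exPP A S x.X x.Y x.ex) x.tr x.n p k (checksA x.P x.R x.n p k)]

/-- lower bound: Black moves `a → b`, which gives check by the piece on `s`, White answers `k → k'`, and this
leads to the state number `j` with marks `M'` -/
def mainW (H A : Nat) (S : List (List Pc)) (i : Nat) (x : SW) (p k a b s k' j : Nat) (M' : List Pc) :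
    Bool :=
  ands [baseOk H A S i x p k, pcsOkW A x.X x.Y (catP M' (nthP S j)),
    Nat.blt a 400, Nat.blt b 400, Nat.blt s 400, Nat.blt k' 400,
    msk 0x3e00 (cell (mvb x.R p a b) s), Nat.beq (cell (mvb x.R p a b) k') 0,
    main x.R p k a b s k', Nat.beq (mv (mvb x.R p a b) k k') (patW A S x.X x.Y j M')]

/-- lower bound at a fork -/
def mainW2 (H A : Nat) (S : List (List Pc)) (i : Nat) (x : SW) (p k a b s k₁ j₁ k₂ j₂ : Nat)
    (M' : List Pc) : Bool :=
  ands [baseOk H A S i x p k, pcsOkW A x.X x.Y (catP M' (nthP S j₁)),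
    pcsOkW A x.X x.Y (catP M' (nthP S j₂)),
    Nat.blt a 400, Nat.blt b 400, Nat.blt s 400, Nat.blt k₁ 400, Nat.blt k₂ 400,
    msk 0x3e00 (cell (mvb x.R p a b) s), Nat.beq (cell (mvb x.R p a b) k₁) 0,
    Nat.beq (cell (mvb x.R p a b) k₂) 0,
    main2 x.R p k a b s k₁ k₂, Nat.beq (mv (mvb x.R p a b) k k₁) (patW A S x.X x.Y j₁ M'),
    Nat.beq (mv (mvb x.R p a b) k k₂) (patW A S x.X x.Y j₂ M')]

/-- Black mates -/
def mateW (H A : Nat) (S : List (List Pc)) (i : Nat) (x : SW) (p k a b s : Nat) : Bool :=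
  ands [baseOk H A S i x p k, Nat.blt a 400, Nat.blt b 400, Nat.blt s 400,
    msk 0x3e00 (cell (mvb x.R p a b) s), main x.R p k a b s 400]

/-- lower bound after an event on the ray with mark on `e` and step `t` -/
def eventW (H A : Nat) (S : List (List Pc)) (i : Nat) (x : SW) (p k e t k' j : Nat) (M' : List Pc) :
    Bool :=
  ands [baseOk H A S i x p k, pcsOkW A x.X x.Y (catP M' (nthP S j)), see7 p k ⟨e, t, 0⟩,
    Nat.blt k' 400, Nat.beq (cell (arr' p e) k') 0, onlyF x.R (arr' p e) k e t k',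
    Nat.beq (mv (arr' p e) k k') (patW A S x.X x.Y j M')]

/-! ### Meaning -/

/-- the board outside of the patch, with the far sliders whose marks are `8` -/
def Ctx.out8 (C : Ctx) (p : Nat) : Board := fun s =>
  match C.R.find? (fun ρ => decide (s = C.f ρ.e ∧ cell p ρ.e = 8)) with
  | some ρ => dec ρ.k
  | none => C.F s

/-- the context belongs to the patch around `(X, Y)` of a tile -/
def Ctx.At (C : Ctx) (O : Sq) (X Y : Nat) : Prop := C.o = (O.1 + (X : ℤ) - 10, O.2 + (Y : ℤ) - 10)

/-! helpers of chunk TW1 -/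

theorem TW1_mskLt : ∀ c < 16, (msk 0x3ffe c = true ↔ (1 ≤ c ∧ c ≤ 13)) := by
  decide

theorem TW1_msk (c : Nat) : msk 0x3ffe c = true ↔ (1 ≤ c ∧ c ≤ 13) := by
  by_cases hc : c < 16
  · exact TW1_mskLt c hc
  · rw [msk_iff, Nat.testBit_lt_two_pow]
    · constructor
      · intro h
        cases h
      · intro h
        omega
    · calc 0x3ffe < 2 ^ 16 := by norm_num
        _ ≤ 2 ^ c := Nat.pow_le_pow_right (by norm_num) (by omega)

/-- the conditions `pcsOkW`, unfolded -/
theorem pcsOkW_cons (A X Y : Nat) (q : Pc) (L : List Pc) : pcsOkW A X Y (q :: L) = true ↔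
    (X ≤ q.x + 8 ∧ q.x ≤ X + 7 ∧ Y ≤ q.y + 8 ∧ q.y ≤ Y + 7) ∧ codeA A q.x q.y = 0 ∧
      (1 ≤ q.c ∧ q.c ≤ 13) ∧
      (∀ u ∈ L, ¬ (u.x = q.x ∧ u.y = q.y)) ∧ pcsOkW A X Y L = true := by
  have h1 : pcsOkW A X Y (q :: L) = (near X Y q.x q.y && (Nat.beq (codeA A q.x q.y) 0 &&
    (msk 0x3ffe q.c && (allb (fun u => !(Nat.beq u.x q.x && Nat.beq u.y q.y)) L &&
      (pcsOkW A X Y L && true))))) := rfl
  rw [h1, Bool.and_true, Bool.and_eq_true, Bool.and_eq_true, Bool.and_eq_true, Bool.and_eq_true,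
    TS1_near, TS1_beq, TW1_msk, TS1_allb]
  have h2 : (∀ u ∈ L, (!(Nat.beq u.x q.x && Nat.beq u.y q.y)) = true) ↔
      ∀ u ∈ L, ¬ (u.x = q.x ∧ u.y = q.y) := by
    apply forall_congr'
    intro u
    apply imp_congr_right
    intro _
    rw [Bool.not_eq_true', ← Bool.not_eq_true, Bool.and_eq_true, TS1_beq, TS1_beq]
  rw [h2]

theorem TW1_pcs {A X Y : Nat} {L : List Pc} (h : pcsOkW A X Y L = true) : ∀ q ∈ L,
    (X ≤ q.x + 8 ∧ q.x ≤ X + 7 ∧ Y ≤ q.y + 8 ∧ q.y ≤ Y + 7) ∧
      (1 ≤ q.c ∧ q.c ≤ 13) ∧ codeA A q.x q.y = 0 := by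
  induction L with
  | nil => intro q hq; exact absurd hq List.not_mem_nil
  | cons u L ih =>
    rw [pcsOkW_cons] at h
    obtain ⟨h1, h0, h2, _, h3⟩ := h
    intro q hq
    rcases List.mem_cons.1 hq with rfl | hq
    · exact ⟨h1, h2, h0⟩
    · exact ih h3 q hq

/-- distinct pieces stand on distinct cells -/
theorem TW1_uniq {A X Y : Nat} {L : List Pc} (h : pcsOkW A X Y L = true) : ∀ q ∈ L, ∀ u ∈ L,
    cellOf X Y q.x q.y = cellOf X Y u.x u.y → q = u := by
  induction L with
  | nil => intro q hq; exact absurd hq List.not_mem_nil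
  | cons v L ih =>
    rw [pcsOkW_cons] at h
    obtain ⟨h1, h2, h3, h4, h5⟩ := h
    have key : ∀ u ∈ L, cellOf X Y v.x v.y ≠ cellOf X Y u.x u.y := by
      intro u hu hc
      obtain ⟨g1, g2, _, _⟩ := TS2_cellOf h1
      obtain ⟨g3, g4, _, _⟩ := TS2_cellOf (TW1_pcs h5 u hu).1
      rw [hc] at g1 g2
      have g5 := (TW1_pcs h5 u hu).1
      exact h4 u hu ⟨by omega, by omega⟩
    intro q hq u hu hc
    rcases List.mem_cons.1 hq with hq' | hq'
    · rcases List.mem_cons.1 hu with hu' | hu'
      · rw [hq', hu']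
      · rw [hq'] at hc
        exact absurd hc (key u hu')
    · rcases List.mem_cons.1 hu with hu' | hu'
      · rw [hu'] at hc
        exact absurd hc.symm (key q hq')
      · exact ih h5 q hq' u hu' hc

/-- the cells of the patch of a state with marks -/
theorem TW1_cell {A X Y : Nat} (hX : 8 ≤ X ∧ X ≤ 72) (hY : 8 ≤ Y) {L : List Pc}
    (h : pcsOkW A X Y L = true) (i : Nat) (hi : i < 400) :
    cell (pat A X Y L) i =
      match L.find? (fun q => decide (cellOf X Y q.x q.y = i)) with
      | some q => q.c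
      | none => if Inner i then codeA A (X + i % 20 - 10) (Y + i / 20 - 10) else 15 := by
  unfold pat
  induction L with
  | nil => exact cell_patR A X Y hX hY i hi
  | cons q L ih =>
    have hu := TW1_uniq h
    rw [pcsOkW_cons] at h
    obtain ⟨h1, h2, h3, h4, h5⟩ := h
    have ih' := ih h5
    rw [cell_put X Y q L _ i (by omega)]
    by_cases hc : cellOf X Y q.x q.y = i
    · rw [if_pos hc.symm, List.find?_cons_of_pos (by simpa using hc)]
      have hnone : L.find? (fun q => decide (cellOf X Y q.x q.y = i)) = none := by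
        rw [List.find?_eq_none]
        intro u hu' hcu
        have hcu' : cellOf X Y u.x u.y = i := by simpa using hcu
        have : q = u := hu q List.mem_cons_self u (List.mem_cons_of_mem _ hu') (hc.trans hcu'.symm)
        subst this
        exact h4 q hu' ⟨rfl, rfl⟩
      rw [hnone] at ih'
      have hin : Inner i := by
        rw [← hc]
        exact (TS2_cellOf h1).2.2.2
      simp only [if_pos hin] at ih'
      rw [ih']
      obtain ⟨g1, g2, _, _⟩ := TS2_cellOf h1
      rw [hc] at g1 g2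
      have e1 : X + i % 20 - 10 = q.x := by omega
      have e2 : Y + i / 20 - 10 = q.y := by omega
      rw [e1, e2, h2]
      show Nat.xor 0 q.c = q.c
      exact Nat.zero_xor q.c
    · rw [if_neg (fun hh => hc hh.symm), List.find?_cons_of_neg (by simpa using hc)]
      exact ih'

/-- the cell of a piece -/
theorem TW1_cell_mem {A X Y : Nat} (hX : 8 ≤ X ∧ X ≤ 72) (hY : 8 ≤ Y) {L : List Pc}
    (h : pcsOkW A X Y L = true) {q : Pc} (hq : q ∈ L) :
    cell (pat A X Y L) (cellOf X Y q.x q.y) = q.c := by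
  have hlt := (TS2_cellOf (TW1_pcs h q hq).1).2.2.1
  rw [TW1_cell hX hY h _ hlt]
  cases hf : L.find? (fun u => decide (cellOf X Y u.x u.y = cellOf X Y q.x q.y)) with
  | some u =>
    have h1 := List.mem_of_find?_eq_some hf
    have h2 := List.find?_some hf
    have h3 : cellOf X Y u.x u.y = cellOf X Y q.x q.y := by simpa using h2
    have := TW1_uniq h u h1 q hq h3
    rw [this]
  | none =>
    rw [List.find?_eq_none] at hf
    exact absurd (by simp) (hf q hq)

theorem TW1_mem_cat {M L : List Pc} {q : Pc} : q ∈ catP M L ↔ q ∈ M ∨ q ∈ L := by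
  induction M with
  | nil => exact ⟨fun h => Or.inr h, fun h => h.elim (fun h => absurd h List.not_mem_nil) id⟩
  | cons u M ih =>
    have h1 : catP (u :: M) L = u :: catP M L := rfl
    rw [h1, List.mem_cons, ih, List.mem_cons, or_assoc]

/-- the far sliders do not stand on known cells -/
theorem TW1_far {C : Ctx} (hC : C.Ok) {p : Nat} (hmar : ∀ i < 400, ¬ Inner i → cell p i = 15)
    {ρ : Ray} (hρ : ρ ∈ C.R) (h0 : ¬ Inner (stp ρ.t ρ.e)) :
    ¬ (InB C.o (C.f ρ.e) ∧ cell p (idx C.o (C.f ρ.e)) ≠ 15) := by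
  rintro ⟨h1, h2⟩
  obtain ⟨n, hn, hf, -⟩ := hC.far ρ hρ
  have ht : ρ.t ∈ orT ++ diT := by
    rcases hC.kind ρ hρ with h3 | h3
    · exact List.mem_append_left _ h3.1
    · exact List.mem_append_right _ h3.1
  have h3 := hC.inner ρ hρ
  have hin : Inner (idx C.o (C.f ρ.e)) := by
    by_contra hn
    exact h2 (hmar _ (sq_idx h1).2 hn)
  rw [hf] at h1 hin
  exact LB_out ht h3.1 h0 n hn h1 hin

theorem TW1_margin {A X Y : Nat} (hX : 8 ≤ X ∧ X ≤ 72) (hY : 8 ≤ Y) {L : List Pc}
    (h : pcsOkW A X Y L = true) (i : Nat) (hi : i < 400) (hin : ¬ Inner i) :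
    cell (pat A X Y L) i = 15 := by
  rw [TW1_cell hX hY h i hi]
  have hnone : L.find? (fun q => decide (cellOf X Y q.x q.y = i)) = none := by
    rw [List.find?_eq_none]
    intro u hu hcu
    have hcu' : cellOf X Y u.x u.y = i := by simpa using hcu
    apply hin
    rw [← hcu']
    exact (TS2_cellOf (TW1_pcs h u hu).1).2.2.2
  rw [hnone]
  simp only [if_neg hin]

/-- the square of a piece -/
theorem TW1_sq {O o : Sq} {X Y : Nat} (ho : o = (O.1 + (X : ℤ) - 10, O.2 + (Y : ℤ) - 10)) {x y : Nat}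
    (h : X ≤ x + 8 ∧ x ≤ X + 7 ∧ Y ≤ y + 8 ∧ y ≤ Y + 7) : tsq O x y = sq o (cellOf X Y x y) := by
  obtain ⟨g1, g2, _, _⟩ := TS2_cellOf h
  unfold sq tsq
  rw [g1, g2, ho]
  apply Prod.ext
  · show O.1 + (x : ℤ) = O.1 + (X : ℤ) - 10 + ((x + 10 - X : ℕ) : ℤ)
    omega
  · show O.2 + (y : ℤ) = O.2 + (Y : ℤ) - 10 + ((y + 10 - Y : ℕ) : ℤ)
    omega

theorem TW1_out8 (C : Ctx) (p : Nat) (s : Sq) : C.brd p s =
    if InB C.o s ∧ cell p (idx C.o s) ≠ 15 then dec (cell p (idx C.o s)) else C.out8 p s := rfl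

/-- chunk TW1: the board of a state with rays -/
theorem brd_patW {H A : Nat} {O : Sq} {C : Ctx} (hC : C.Ok) {X Y : Nat} (hAt : C.At O X Y)
    (hF : FitsH H A O C.F) (hX : 8 ≤ X ∧ X ≤ 72) (hY : 8 ≤ Y ∧ Y + 8 ≤ H) {M L : List Pc}
    (hp : pcsOkW A X Y (catP M L) = true) (hM : ∀ q ∈ M, q.c = 7 ∨ q.c = 8)
    (hL : ∀ q ∈ L, q.c ≠ 7 ∧ q.c ≠ 8) (hin : ∀ ρ ∈ C.R, ρ.e < 400)
    (hfar : ∀ ρ ∈ C.R, cell (pat A X Y (catP M L)) ρ.e = 8 → ¬ Inner (stp ρ.t ρ.e) ∨
      ∀ x y : Nat, x < 80 → y < H → codeA A x y ≠ 15 → C.f ρ.e ≠ tsq O x y) :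
    C.brd (pat A X Y (catP M L)) = stB (C.out8 (pat A X Y (catP M L))) O L := by
  funext s
  have _ := hin
  have _ := hL
  have ho : C.o = (O.1 + (X : ℤ) - 10, O.2 + (Y : ℤ) - 10) := hAt
  have hpcs := TW1_pcs hp
  have hmar := fun i hi hn => TW1_margin hX hY.1 hp i hi hn
  set p := pat A X Y (catP M L) with hpdef
  rw [TW1_out8]
  -- pieces of the state
  have hpiece : ∀ u ∈ L, tsq O u.x u.y = s → InB C.o s ∧ idx C.o s = cellOf X Y u.x u.y := by
    intro u hu hs
    obtain ⟨g, _⟩ := hpcs u (TW1_mem_cat.2 (Or.inr hu))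
    have g1 := TW1_sq ho g
    have g2 := (TS2_cellOf g).2.2.1
    rw [← hs, g1]
    exact ⟨inB_sq C.o g2, idx_sq C.o g2⟩
  have hout : InB C.o s ∧ cell p (idx C.o s) ≠ 15 → C.out8 p s = C.F s := by
    intro hk
    unfold Ctx.out8
    have hf : C.R.find? (fun ρ => decide (s = C.f ρ.e ∧ cell p ρ.e = 8)) = none := by
      rw [List.find?_eq_none]
      intro ρ hρ hd
      have h3 := of_decide_eq_true hd
      rcases hfar ρ hρ h3.2 with h0 | h0
      · apply TW1_far hC hmar hρ h0
        rw [← h3.1]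
        exact hk
      · obtain ⟨g1, g2⟩ := hk
        obtain ⟨hs1, hs2⟩ := sq_idx g1
        have hcell := TW1_cell hX hY.1 hp (idx C.o s) hs2
        rw [← h3.1] at h0
        cases hf : (catP M L).find? (fun q => decide (cellOf X Y q.x q.y = idx C.o s)) with
        | some q =>
          have h1 := List.mem_of_find?_eq_some hf
          have h2 := List.find?_some hf
          have h3 : cellOf X Y q.x q.y = idx C.o s := by simpa using h2
          obtain ⟨g, g', g''⟩ := hpcs q h1
          have h4 : tsq O q.x q.y = s := by rw [TW1_sq ho g, h3, hs1]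
          exact h0 q.x q.y (by omega) (by omega) (by rw [g'']; norm_num) h4.symm
        | none =>
          rw [hf] at hcell
          simp only at hcell
          rw [← hpdef] at hcell
          by_cases hinn : Inner (idx C.o s)
          · rw [if_pos hinn] at hcell
            have h15 : codeA A (X + idx C.o s % 20 - 10) (Y + idx C.o s / 20 - 10) ≠ 15 := by
              rw [← hcell]; exact g2
            have e1 : C.o.1 + ((idx C.o s % 20 : ℕ) : ℤ) = s.1 := congrArg Prod.fst hs1
            have e2 : C.o.2 + ((idx C.o s / 20 : ℕ) : ℤ) = s.2 := congrArg Prod.snd hs1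
            have o1 : C.o.1 = O.1 + (X : ℤ) - 10 := congrArg Prod.fst ho
            have o2 : C.o.2 = O.2 + (Y : ℤ) - 10 := congrArg Prod.snd ho
            generalize idx C.o s = i at hinn h15 e1 e2
            unfold Inner at hinn
            refine h0 _ _ (by omega) (by omega) h15 ?_
            apply Prod.ext
            · show s.1 = O.1 + ((X + i % 20 - 10 : ℕ) : ℤ)
              omega
            · show s.2 = O.2 + ((Y + i / 20 - 10 : ℕ) : ℤ)
              omega
          · rw [if_neg hinn] at hcell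
            exact absurd hcell g2
    rw [hf]
  unfold stB
  cases hfind : L.find? (fun q => decide (tsq O q.x q.y = s)) with
  | some q =>
    simp only
    have h1 := List.mem_of_find?_eq_some hfind
    have h2 := List.find?_some hfind
    have h3 : tsq O q.x q.y = s := by simpa using h2
    obtain ⟨h4, h5⟩ := hpiece q h1 h3
    have h6 := TW1_cell_mem hX hY.1 hp (TW1_mem_cat.2 (Or.inr h1))
    have h7 := (hpcs q (TW1_mem_cat.2 (Or.inr h1))).2.1
    rw [h5, hpdef, h6, if_pos ⟨h4, by omega⟩]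
  | none =>
    simp only
    by_cases hk : InB C.o s ∧ cell p (idx C.o s) ≠ 15
    · rw [if_pos hk, hout hk]
      obtain ⟨hs1, hs2⟩ := sq_idx hk.1
      have hcell := TW1_cell hX hY.1 hp (idx C.o s) hs2
      cases hf : (catP M L).find? (fun q => decide (cellOf X Y q.x q.y = idx C.o s)) with
      | some q =>
        rw [hf] at hcell
        simp only at hcell
        have h1 := List.mem_of_find?_eq_some hf
        have h2 := List.find?_some hf
        have h3 : cellOf X Y q.x q.y = idx C.o s := by simpa using h2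
        obtain ⟨g, g', g''⟩ := hpcs q h1
        have h4 : tsq O q.x q.y = s := by rw [TW1_sq ho g, h3, hs1]
        rcases TW1_mem_cat.1 h1 with h5 | h5
        · rw [← hpdef] at hcell
          have h6 : dec (cell p (idx C.o s)) = none := by
            rw [hcell]
            rcases hM q h5 with h6 | h6 <;> rw [h6] <;> rfl
          rw [h6, ← h4]
          have h7 : codeA A q.x q.y ≠ 15 := by rw [g'']; norm_num
          rw [hF.cells q.x q.y (by omega) (by omega) h7, g'']
          rfl
        · rw [List.find?_eq_none] at hfind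
          exact absurd (by simpa using h4) (hfind q h5)
      | none =>
        rw [hf] at hcell
        simp only at hcell
        rw [← hpdef] at hcell
        by_cases hinn : Inner (idx C.o s)
        · rw [if_pos hinn] at hcell
          have h15 : codeA A (X + idx C.o s % 20 - 10) (Y + idx C.o s / 20 - 10) ≠ 15 := by
            rw [← hcell]; exact hk.2
          rw [hcell]
          have e1 : C.o.1 + ((idx C.o s % 20 : ℕ) : ℤ) = s.1 := congrArg Prod.fst hs1
          have e2 : C.o.2 + ((idx C.o s / 20 : ℕ) : ℤ) = s.2 := congrArg Prod.snd hs1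
          have o1 : C.o.1 = O.1 + (X : ℤ) - 10 := congrArg Prod.fst ho
          have o2 : C.o.2 = O.2 + (Y : ℤ) - 10 := congrArg Prod.snd ho
          generalize idx C.o s = i at hinn h15 e1 e2 ⊢
          unfold Inner at hinn
          rw [← hF.cells _ _ (by omega) (by omega) h15]
          congr 1
          apply Prod.ext
          · show O.1 + ((X + i % 20 - 10 : ℕ) : ℤ) = s.1
            omega
          · show O.2 + ((Y + i / 20 - 10 : ℕ) : ℤ) = s.2
            omega
        · rw [if_neg hinn] at hcell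
          exact absurd hcell hk.2
    · rw [if_neg hk]

theorem TW1_isE (R : List Ray) (i : Nat) (h : isE R i = true) : ∃ ρ ∈ R, ρ.e = i := by
  induction R with
  | nil => cases h
  | cons x R ih =>
    have h1 : isE (x :: R) i = (Nat.beq x.e i || isE R i) := rfl
    rw [h1, Bool.or_eq_true, TS1_beq] at h
    rcases h with h | h
    · exact ⟨x, List.mem_cons_self, h⟩
    · obtain ⟨ρ, h2, h3⟩ := ih h
      exact ⟨ρ, List.mem_cons_of_mem _ h2, h3⟩

theorem TW1_msk2 : ∀ c < 16, (msk 0x4000 c = true ↔ c = 14) ∧ (msk 0x180 c = true ↔ c = 7 ∨ c = 8) := by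
  decide

theorem TW1_cells (R : List Ray) (p k n : Nat) (h : cellsOkW R p k n = true) : ∀ i < n,
    cell p i ≠ 14 ∧ (i = k ∨ cell p i ≠ 6) ∧ (cell p i = 7 ∨ cell p i = 8 → ∃ ρ ∈ R, ρ.e = i) := by
  induction n with
  | zero => intro i hi; omega
  | succ n ih =>
    have h1 : cellsOkW R p k (n + 1) = (cellsOkW R p k n && (!msk 0x4000 (cell p n) &&
      ((Nat.beq n k || !Nat.beq (cell p n) 6) && (!msk 0x180 (cell p n) || isE R n)))) := rfl
    rw [h1, Bool.and_eq_true, Bool.and_eq_true, Bool.and_eq_true, Bool.or_eq_true, Bool.or_eq_true,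
      Bool.not_eq_true', Bool.not_eq_true', Bool.not_eq_true', TS1_beq] at h
    obtain ⟨h2, h3, h4, h5⟩ := h
    intro i hi
    by_cases hin : i < n
    · exact ih h2 i hin
    · have : i = n := by omega
      subst this
      have hlt := cell_lt p i
      obtain ⟨m1, m2⟩ := TW1_msk2 _ hlt
      refine ⟨?_, ?_, ?_⟩
      · intro h6
        rw [m1.2 h6] at h3
        cases h3
      · rcases h4 with h4 | h4
        · exact Or.inl h4
        · right
          intro h5
          rw [TS1_beq.2 h5] at h4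
          cases h4
      · intro h6
        rcases h5 with h5 | h5
        · rw [m2.2 h6] at h5
          cases h5
        · exact TW1_isE R i h5

/-- the conditions `baseOk`, unfolded -/
structure TW1_Base (H A : Nat) (S : List (List Pc)) (i : Nat) (x : SW) (p k : Nat) : Prop where
  hC : headC (nthP S i) = 6
  pcs : pcsOkW A x.X x.Y (catP x.M (nthP S i)) = true
  cells : cellsOkW x.R p k 400 = true
  hX : 8 ≤ x.X ∧ x.X ≤ 72
  hY : 8 ≤ x.Y ∧ x.Y + 8 ≤ H
  bey : beyR p x.R = true

theorem TW1_base {H A : Nat} {S : List (List Pc)} {i : Nat} {x : SW} {p k : Nat}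
    (h : baseOk H A S i x p k = true) : TW1_Base H A S i x p k := by
  unfold baseOk at h
  simp only [TS3_ands_cons] at h
  obtain ⟨h1, h2, h3, h4, h5, h6, h7, h8, -⟩ := h
  exact ⟨Nat.eq_of_beq_eq_true h1, h2, h3, ⟨Nat.le_of_ble_eq_true h4, Nat.le_of_ble_eq_true h5⟩,
    ⟨Nat.le_of_ble_eq_true h6, Nat.le_of_ble_eq_true h7⟩, h8⟩

theorem outC_false (j : Nat) : outC j = false ↔ Inner j := by
  rw [← Bool.not_eq_true, outC_iff, not_not]

theorem bey_mid {t e i : Nat} (ht : t ∈ orT ++ diT) (he : Inner e) (hi : Inner i) {n : ℕ}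
    (hs : sq (0, 0) i = sq (0, 0) e + (n + 1) • vec t) : Inner (stp t e) ∧ n ≤ 15 := by
  have e1 : stp t e = e + t - 42 := rfl
  have hx := congrArg Prod.fst hs
  have hy := congrArg Prod.snd hs
  rw [e1]
  unfold Inner at he hi ⊢
  simp only [orT, diT, List.cons_append, List.nil_append, List.mem_cons,
    List.not_mem_nil, or_false] at ht
  rcases ht with rfl | rfl | rfl | rfl | rfl | rfl | rfl | rfl <;>
    · simp [sq, vec] at hx hy
      omega

theorem beyC_sound {p t : Nat} (ht : t ∈ orT ++ diT) {i : Nat} (hi : i < 400) (hin : Inner i) :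
    ∀ (N n e : Nat), beyC p t N e = true → Inner e → n < N →
      sq (0, 0) i = sq (0, 0) e + (n + 1) • vec t → cell p i = 15 := by
  intro N
  induction N with
  | zero => intro n e _ _ hn; omega
  | succ N ih =>
    intro n e hb he hn hs
    have h1 : beyC p t (N + 1) e = (outC (stp t e) ||
      (Nat.beq (cell p (stp t e)) 15 && beyC p t N (stp t e))) := rfl
    obtain ⟨h2, h3⟩ := stp_inner (t := t) (List.mem_append.2 (Or.inl ht)) he
    obtain ⟨h4, -⟩ := bey_mid ht he hin hs
    rw [h1, (outC_false _).2 h4, Bool.false_or, Bool.and_eq_true] at hb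
    cases n with
    | zero =>
      have h5 : i = stp t e := sq_inj (0, 0) hi h2 (by rw [h3, hs, zero_add, one_smul])
      rw [h5]
      exact Nat.eq_of_beq_eq_true hb.1
    | succ n =>
      refine ih n (stp t e) hb.2 h4 (by omega) ?_
      have e2 : (n + 1 + 1) • vec t = vec t + (n + 1) • vec t := by
        rw [add_smul (n + 1) 1, one_smul, add_comm]
      rw [h3, hs, e2, ← add_assoc]

theorem beyR_sound {p : Nat} {R : List Ray} (h : beyR p R = true)
    (hmar : ∀ i < 400, ¬ Inner i → cell p i = 15) {ρ : Ray} (hρ : ρ ∈ R) (ht : ρ.t ∈ orT ++ diT)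
    {i : Nat} (hi : i < 400) (ho : On ρ.t ρ.e i) : cell p i = 15 := by
  induction R with
  | nil => exact absurd hρ List.not_mem_nil
  | cons x R ih =>
    have h1 : beyR p (x :: R) = (!outC x.e && (beyC p x.t 16 x.e && beyR p R)) := rfl
    rw [h1, Bool.and_eq_true, Bool.and_eq_true, Bool.not_eq_true'] at h
    rcases List.mem_cons.1 hρ with rfl | hρ
    · by_cases hin : Inner i
      · obtain ⟨n, hn, hs⟩ := ho
        obtain ⟨m, rfl⟩ : ∃ m, n = m + 1 := ⟨n - 1, by omega⟩
        have he := (outC_false _).1 h.1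
        have hm := (bey_mid ht he hin hs).2
        exact beyC_sound ht hi hin 16 m ρ.e h.2.1 he (by omega) hs
      · exact hmar i hi hin
    · exact ih h.2.2 hρ

/-- chunk TW1: well-formedness -/
theorem wf_base {H A : Nat} {S : List (List Pc)} {i : Nat} {x : SW} {C : Ctx} (hC : C.Ok)
    (hR : C.R = x.R)
    (h : baseOk H A S i x (patW A S x.X x.Y i x.M) (kOf x.X x.Y (nthP S i)) = true) :
    WF C (patW A S x.X x.Y i x.M) (kOf x.X x.Y (nthP S i)) := by
  have d := TW1_base h
  have hcells := TW1_cells _ _ _ _ d.cells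
  obtain ⟨q, L', hq⟩ : ∃ q L', nthP S i = q :: L' := by
    cases hn : nthP S i with
    | nil =>
      have := d.hC
      rw [hn] at this
      cases this
    | cons q L' => exact ⟨q, L', rfl⟩
  have hqc : q.c = 6 := by
    have := d.hC
    rw [hq] at this
    exact this
  have hk : kOf x.X x.Y (nthP S i) = cellOf x.X x.Y q.x q.y := by rw [hq]; rfl
  have hmem : q ∈ catP x.M (nthP S i) := by
    rw [TW1_mem_cat, hq]
    exact Or.inr List.mem_cons_self
  have hlt := (TS2_cellOf (TW1_pcs d.pcs q hmem).1).2.2.1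
  have hmar : ∀ j < 400, ¬ Inner j → cell (patW A S x.X x.Y i x.M) j = 15 := by
    intro j hj hn
    unfold patW
    exact TW1_margin d.hX d.hY.1 d.pcs j hj hn
  refine ⟨?_, ?_, ?_, hmar, ?_, ?_, ?_⟩
  · rw [hk]; exact hlt
  · rw [hk]
    unfold patW
    rw [TW1_cell_mem d.hX d.hY.1 d.pcs hmem, hqc]
  · intro j hj h6
    rcases (hcells j hj).2.1 with h7 | h7
    · exact h7
    · exact absurd h6 h7
  · intro j hj h7
    rw [hR]
    exact (hcells j hj).2.2 h7
  · intro j hj
    exact (hcells j hj).1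
  · intro ρ hρ j hj ho
    have ht : ρ.t ∈ orT ++ diT := by
      rcases hC.kind ρ hρ with h3 | h3
      · exact List.mem_append_left _ h3.1
      · exact List.mem_append_right _ h3.1
    exact beyR_sound d.bey hmar (by rw [← hR]; exact hρ) ht hj ho

/-! helpers of chunk TW2 -/

theorem TW2_mem_exP {A : Nat} {S : List (List Pc)} {X Y : Nat} (E : List Ex) {p : Nat}
    (hp : p ∈ exP A S X Y E) : ∃ e ∈ E, p = patW A S X Y e.i e.M := by
  induction E with
  | nil => exact absurd hp List.not_mem_nil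
  | cons e E ih =>
    have h1 : exP A S X Y (e :: E) = patW A S X Y e.i e.M :: exP A S X Y E := rfl
    rw [h1] at hp
    rcases List.mem_cons.1 hp with rfl | hp
    · exact ⟨e, List.mem_cons_self, rfl⟩
    · obtain ⟨u, hu, h2⟩ := ih hp
      exact ⟨u, List.mem_cons_of_mem _ hu, h2⟩

theorem TW2_mem_exPP {A : Nat} {S : List (List Pc)} {X Y : Nat} (E : List (List Ex)) :
    ∀ {n p : Nat}, p ∈ nthL (exPP A S X Y E) n → ∃ e, E[n]? = some e ∧ p ∈ exP A S X Y e := by
  induction E with
  | nil =>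
    intro n p hp
    exact absurd hp List.not_mem_nil
  | cons e E ih =>
    intro n p hp
    cases n with
    | zero => exact ⟨e, rfl, hp⟩
    | succ n =>
      have h1 : p ∈ nthL (exPP A S X Y E) n := hp
      obtain ⟨u, hu, h2⟩ := ih h1
      exact ⟨u, by simpa using hu, h2⟩

/-- chunk TW2: **upper bound** -/
theorem sw_hasValue {H A : Nat} {S : List (List Pc)} {i : Nat} {x : SW}
    (h : swOk H A S i x (patW A S x.X x.Y i x.M) (kOf x.X x.Y (nthP S i)) = true) {R : Room}
    {K : Nat → Ctx → Prop} (hK : Family R x.P x.R K)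
    (hex : ∀ (l : Nat) (E : List Ex), x.ex[l]? = some E → ∀ e ∈ E, ∀ C, K l C →
      HasValue ⟨C.brd (patW A S x.X x.Y e.i e.M), false⟩)
    {C : Ctx} (hC : K x.n C) (hG : R.G (C.brd (patW A S x.X x.Y i x.M))) :
    HasValue ⟨C.brd (patW A S x.X x.Y i x.M), false⟩ := by
  unfold swOk at h
  simp only [TS3_ands_cons] at h
  obtain ⟨h1, -, h3, h4, h5, -⟩ := h
  obtain ⟨hsm, hne⟩ := TS3_small h4
  refine chkA_sound hK _ ?_ x.tr hsm hne x.n C hC _ _ (wf_base (hK.ok _ _ hC) (hK.rays _ _ hC) h1) hG h3 h5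
  intro n C' p' hC' hp'
  obtain ⟨E, hE, hp2⟩ := TW2_mem_exPP x.ex hp'
  obtain ⟨e, he, rfl⟩ := TW2_mem_exP E hp2
  exact hex n E hE e he C' hC'

/-! helpers of chunk TW3 -/

theorem TW3_blk {p s : Nat} (h2 : msk 0x3e00 (cell p s) = true) : 9 ≤ cell p s ∧ cell p s ≤ 13 := by
  have h1 := cell_lt p s
  revert h1 h2
  generalize cell p s = c
  intro h1 h2
  interval_cases c <;> first | exact ⟨by omega, by omega⟩ | exact absurd h1 (by decide)

/-- chunk TW3: **lower bound** -/
theorem mainW_ge {H A : Nat} {S : List (List Pc)} {i : Nat} {x : SW} {a b s k' j : Nat} {M' : List Pc}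
    (h : mainW H A S i x (patW A S x.X x.Y i x.M) (kOf x.X x.Y (nthP S i)) a b s k' j M' = true)
    {C : Ctx} (hC : C.Ok) (hR : C.R = x.R) (R : Room) (hRC : R.Sep C)
    (hG : R.G (C.brd (patW A S x.X x.Y i x.M))) {β : Ordinal.{0}}
    (hge : GE ⟨C.brd (patW A S x.X x.Y j M'), false⟩ β) :
    GE ⟨C.brd (patW A S x.X x.Y i x.M), false⟩ β ∧
      ¬ ValLE ⟨C.brd (patW A S x.X x.Y i x.M), false⟩ β := by
  unfold mainW at h
  simp only [TS3_ands_cons] at h
  obtain ⟨h1, -, h3, h4, h5, h6, h7, h8, h9, h10, -⟩ := h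
  have hwf := wf_base hC hR h1
  rw [← hR] at h7 h8 h9 h10
  have hcs := TW3_blk h7
  have hck := Nat.eq_of_beq_eq_true h8
  have hnx := Nat.eq_of_beq_eq_true h10
  have hge' : GE ⟨C.brd (mv (mvb C.R (patW A S x.X x.Y i x.M) a b)
      (kOf x.X x.Y (nthP S i)) k'), false⟩ β := by
    rw [hnx]; exact hge
  exact ⟨main_ge hC R hRC hwf hG (Nat.le_of_ble_eq_true h3) (Nat.le_of_ble_eq_true h4)
    (Nat.le_of_ble_eq_true h5) (Nat.le_of_ble_eq_true h6) hcs hck h9 hge',
    main_not_valLE hC R hRC hwf hG (Nat.le_of_ble_eq_true h3) (Nat.le_of_ble_eq_true h4)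
    (Nat.le_of_ble_eq_true h5) (Nat.le_of_ble_eq_true h6) hcs hck h9 hge'⟩

/-- chunk TW3: lower bound at a fork -/
theorem mainW2_ge {H A : Nat} {S : List (List Pc)} {i : Nat} {x : SW} {a b s k₁ j₁ k₂ j₂ : Nat}
    {M' : List Pc}
    (h : mainW2 H A S i x (patW A S x.X x.Y i x.M) (kOf x.X x.Y (nthP S i)) a b s k₁ j₁ k₂ j₂ M' =
      true)
    {C : Ctx} (hC : C.Ok) (hR : C.R = x.R) (R : Room) (hRC : R.Sep C)
    (hG : R.G (C.brd (patW A S x.X x.Y i x.M))) {β : Ordinal.{0}}
    (hge₁ : GE ⟨C.brd (patW A S x.X x.Y j₁ M'), false⟩ β)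
    (hge₂ : GE ⟨C.brd (patW A S x.X x.Y j₂ M'), false⟩ β) :
    GE ⟨C.brd (patW A S x.X x.Y i x.M), false⟩ β := by
  unfold mainW2 at h
  simp only [TS3_ands_cons] at h
  obtain ⟨h1, -, -, h3, h4, h5, h6, h7, h8, h9, h10, h11, h12, h13, -⟩ := h
  have hwf := wf_base hC hR h1
  rw [← hR] at h8 h9 h10 h11 h12 h13
  have hcs := TW3_blk h8
  have hck₁ := Nat.eq_of_beq_eq_true h9
  have hck₂ := Nat.eq_of_beq_eq_true h10
  have hnx₁ := Nat.eq_of_beq_eq_true h12
  have hnx₂ := Nat.eq_of_beq_eq_true h13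
  refine main2_ge hC R hRC hwf hG (Nat.le_of_ble_eq_true h3) (Nat.le_of_ble_eq_true h4)
    (Nat.le_of_ble_eq_true h5) (Nat.le_of_ble_eq_true h6) (Nat.le_of_ble_eq_true h7) hcs hck₁ hck₂
    h11 ?_ ?_
  · rw [hnx₁]; exact hge₁
  · rw [hnx₂]; exact hge₂

/-- chunk TW3: Black mates -/
theorem mateW_ge {H A : Nat} {S : List (List Pc)} {i : Nat} {x : SW} {a b s : Nat}
    (h : mateW H A S i x (patW A S x.X x.Y i x.M) (kOf x.X x.Y (nthP S i)) a b s = true)
    {C : Ctx} (hC : C.Ok) (hR : C.R = x.R) (R : Room) (hRC : R.Sep C)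
    (hG : R.G (C.brd (patW A S x.X x.Y i x.M))) (β : Ordinal.{0}) :
    GE ⟨C.brd (patW A S x.X x.Y i x.M), false⟩ β := by
  unfold mateW at h
  simp only [TS3_ands_cons] at h
  obtain ⟨h1, h3, h4, h5, h6, h7, -⟩ := h
  have hwf := wf_base hC hR h1
  rw [← hR] at h6 h7
  exact mate_ge hC R hRC hwf hG (Nat.le_of_ble_eq_true h3) (Nat.le_of_ble_eq_true h4)
    (Nat.le_of_ble_eq_true h5) (TW3_blk h6) h7 β

/-- chunk TW3: lower bound after an event -/
theorem eventW_ge {H A : Nat} {S : List (List Pc)} {i : Nat} {x : SW} {e t k' j : Nat} {M' : List Pc}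
    (h : eventW H A S i x (patW A S x.X x.Y i x.M) (kOf x.X x.Y (nthP S i)) e t k' j M' = true)
    {B : Board} {a b : Sq} (hl : Legal B false a b) (hno : ¬ InCheck B false) {C' : Ctx}
    (hC : C'.Ok) (hR : C'.R = x.R) (hB : B.move a b = C'.brd (arr' (patW A S x.X x.Y i x.M) e))
    {ρ : Ray} (hρ : ρ ∈ x.R) (he : ρ.e = e) (ht : ρ.t = t)
    (hfar : ∀ (y : Sq) (l m : ℕ),
      C'.f ρ.e = sq C'.o (kOf x.X x.Y (nthP S i)) + m • vec ρ.t → 0 < l → l ≤ m →
      y ≠ sq C'.o (kOf x.X x.Y (nthP S i)) →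
      ¬ CanGo (C'.brd (arr' (patW A S x.X x.Y i x.M) e)) true y
        (sq C'.o (kOf x.X x.Y (nthP S i)) + l • vec ρ.t))
    {β : Ordinal.{0}} (hge : GE ⟨C'.brd (patW A S x.X x.Y j M'), false⟩ β) :
    GE ⟨B, false⟩ β := by
  unfold eventW at h
  simp only [TS3_ands_cons] at h
  obtain ⟨h1, -, h3, h4, h5, h6, h7, -⟩ := h
  have hwf : WF C' (patW A S x.X x.Y i x.M) (kOf x.X x.Y (nthP S i)) := wf_base hC hR h1
  unfold see7 at h3
  rw [Bool.and_eq_true] at h3
  have h7' : cell (patW A S x.X x.Y i x.M) e = 7 := Nat.eq_of_beq_eq_true h3.1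
  subst he
  subst ht
  rw [← hR] at h6 hρ
  have hwf' : WF C' (arr' (patW A S x.X x.Y i x.M) ρ.e) (kOf x.X x.Y (nthP S i)) :=
    LK2_wf_arr hC rfl hwf hρ h7'
  refine event_ge hC hl hno hB hwf' (Nat.le_of_ble_eq_true h4) (Nat.eq_of_beq_eq_true h5) hρ hfar h6 ?_
  rw [Nat.eq_of_beq_eq_true h7]
  exact hge

end Pool.Agent.Lib.H32C.Loc
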