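import Pool.Agent.Lib.H32C.MemDf
import Pool.Agent.Lib.H32C.TileW

/-!
# Tiles with a resident slider: data and checks

A tile with a resident has an array `A` with `80` columns and `H` rows; its cells are numbered `x + 80 * y`.
The resident is a Black slider with code `k`, which stands on one of the *stations* `st` (cells with code `15`).
A *patch setting* `PS` describes the rays which leave a patch, the position `q` of the resident (`0`: on a ray),
and whether the resident may arrive on the ray with mark `e` (`n = 1`) or no event is possible (`n = 0`).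
-/

set_option autoImplicit false

namespace Pool.Agent.Lib.H32C.Loc

/-- the cell `j` belongs to the inner part of the patch around `(X, Y)` -/
def nearA (X Y j : Nat) : Bool := near X Y (Nat.mod j 80) (Nat.div j 80)

/-- data of a ray: `n` is the distance of the square of the far slider from the mark, `N` the number of
empty squares beyond the mark -/
structure RI where
  /-- the ray -/
  ρ : Ray
  /-- distance of the far slider -/
  n : Nat
  /-- number of empty squares -/
  N : Nat

/-- a patch setting -/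
structure PS where
  /-- first coordinate of the centre -/
  X : Nat
  /-- second coordinate of the centre -/
  Y : Nat
  /-- the rays -/
  rs : List RI
  /-- parameters -/
  P : Par
  /-- number of events -/
  n : Nat
  /-- the resident (`0`: on a ray or gone) -/
  q : Nat
  /-- mark of the ray where the resident may arrive -/
  e : Nat

/-- the rays of a patch setting -/
def raysOf (L : List RI) : List Ray := List.rec [] (fun r _ ih => r.ρ :: ih) L

/-- the `n`-th cell beyond the mark of a ray of the patch around `(X, Y)` -/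
def zA (X Y : Nat) (ρ : Ray) (n : Nat) : Nat :=
  Nat.rec (Nat.add (Nat.sub (Nat.add X (Nat.mod ρ.e 20)) 10)
    (Nat.mul 80 (Nat.sub (Nat.add Y (Nat.div ρ.e 20)) 10))) (fun _ ih => stA ρ.t ih) n

/-- a piece of the list which moves in direction `u` stands on `j` -/
def mvHit (mv : List Mo) (u j : Nat) : Bool :=
  List.rec false (fun m _ ih => (Nat.beq m.j j && msk (slM u) m.k) || ih) mv

/-- the far sliders of the other rays -/
def ghosts (X Y : Nat) (e : Nat) (L : List RI) : List Mo :=
  List.rec [] (fun r _ ih => cond (Nat.beq r.ρ.e e) ih (⟨zA X Y r.ρ r.n, r.ρ.k⟩ :: ih)) L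

/-- No slider comes to the cell `j` from the direction `u`: there is a static piece in this direction; before it,
no slider moving in this direction is met.  The cells of the patch are transparent, and so are the stations; the
cells of the list `mv` may hold sliders. -/
def scanA (T : MT) (X Y : Nat) (mv : List Mo) (u n : Nat) : Nat → Bool :=
  Nat.rec (fun _ => false)
    (fun _ ih j => inA T.H (stA u j) && (!mvHit mv u (stA u j) &&
      cond (Nat.beq (cell T.A (stA u j)) 15) (memb (stA u j) T.st && ih (stA u j))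
        (!msk (slM u) (cell T.A (stA u j)) &&
          cond (Nat.beq (cell T.A (stA u j)) 0 || nearA X Y (stA u j)) (ih (stA u j))
            (msk 0x7e7e (cell T.A (stA u j)))))) n

/-- no slider comes to `j` from the directions other than `t` and the opposite of `t` -/
def sideA (T : MT) (X Y : Nat) (mv : List Mo) (t j : Nat) : Bool :=
  (aO fun u => (Nat.beq u t || Nat.beq (Nat.add u t) 84) || scanA T X Y mv u 90 j) &&
    (aD fun u => (Nat.beq u t || Nat.beq (Nat.add u t) 84) || scanA T X Y mv u 90 j)

/-- the list of movers for a ray -/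
def movers (T : MT) (ps : PS) (e : Nat) : List Mo :=
  cond (Nat.beq ps.q 0) (ghosts ps.X ps.Y e ps.rs) (⟨ps.q, T.k⟩ :: ghosts ps.X ps.Y e ps.rs)

/-- `z` is the arrival square of the ray -/
def exempt (ps : PS) (r : RI) (i : Nat) : Bool :=
  Nat.beq i r.n && (Nat.beq ps.n 1 && Nat.beq r.ρ.e ps.e)

/-- the condition on the `i`-th cell `z` beyond the mark -/
def rayIn (T : MT) (ps : PS) (r : RI) (i z : Nat) : Bool :=
  inA T.H z && ((Nat.beq (cell T.A z) 0 || (Nat.beq (cell T.A z) 15 && memb z T.st)) &&
    (!Nat.beq z ps.q &&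
      cond (exempt ps r i) (sideA T ps.X ps.Y (ghosts ps.X ps.Y r.ρ.e ps.rs) r.ρ.t z)
        (sideA T ps.X ps.Y (movers T ps r.ρ.e) r.ρ.t z)))

/-- the codes of quiet pieces on a ray with step `t` -/
def qM (t : Nat) : Nat := cond (aO fun u => !Nat.beq u t) 0x1606 0x0e06

/-- the condition on the blocker on `z` -/
def rayEnd (T : MT) (ps : PS) (r : RI) (z : Nat) : Bool :=
  inA T.H z && (msk (qM r.ρ.t) (cell T.A z) && (scanA T ps.X ps.Y (movers T ps r.ρ.e) r.ρ.t 90 z &&
    (Nat.ble 8 (cell T.A z) || sideA T ps.X ps.Y (movers T ps r.ρ.e) r.ρ.t z)))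

/-- the conditions on the first `m` cells beyond the mark -/
def rayIns (T : MT) (ps : PS) (r : RI) (m : Nat) : Bool :=
  Nat.rec true (fun i ih => ih && rayIn T ps r (Nat.add i 1) (zA ps.X ps.Y r.ρ (Nat.add i 1))) m

/-- the two rays have no common square -/
def rDisj (ρ ρ' : Ray) : Bool :=
  let v := vec ρ.t
  let w := vec ρ'.t
  let d := sq (0, 0) ρ'.e - sq (0, 0) ρ.e
  let D := v.1 * w.2 - v.2 * w.1
  let a := d.1 * w.2 - d.2 * w.1
  let b := d.1 * v.2 - d.2 * v.1
  decide (D ≠ 0 ∧ (a * D ≤ 0 ∨ b * D ≤ 0)) ||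
    decide (D = 0 ∧ (b ≠ 0 ∨ (v = -w ∧ d.1 * v.1 + d.2 * v.2 ≤ 0)))

/-- no slider comes to the mark from the directions in which the patch ends -/
def edgeOk (T : MT) (ps : PS) (r : RI) : Bool :=
  (aO fun u => (Nat.beq u r.ρ.t || !outC (stp u r.ρ.e)) ||
      scanA T ps.X ps.Y (movers T ps r.ρ.e) u 90 (zA ps.X ps.Y r.ρ 0)) &&
    (aD fun u => (Nat.beq u r.ρ.t || !outC (stp u r.ρ.e)) ||
      scanA T ps.X ps.Y (movers T ps r.ρ.e) u 90 (zA ps.X ps.Y r.ρ 0))

/-- the conditions on a single ray -/
def rayOk (T : MT) (ps : PS) (r : RI) : Bool :=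
  ((!(aO fun u => !Nat.beq u r.ρ.t) && msk 0x3000 r.ρ.k) ||
    (!(aD fun u => !Nat.beq u r.ρ.t) && msk 0x2800 r.ρ.k)) &&
  (decide (Inner r.ρ.e) && (decide (¬ Inner (stp r.ρ.t r.ρ.e)) &&
  (Nat.ble 1 r.n && (Nat.ble r.n r.N && (edgeOk T ps r &&
  (rayIns T ps r r.N && rayEnd T ps r (zA ps.X ps.Y r.ρ (Nat.add r.N 1))))))))

/-- the rays are pairwise disjoint -/
def rayPair (L : List RI) : Bool :=
  List.rec true (fun r L' ih => allb (fun r' => !Nat.beq r.ρ.e r'.ρ.e && (rDisj r.ρ r'.ρ && rDisj r'.ρ r.ρ)) L' && ih) L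

/-- the resident may arrive on the ray with mark `ps.e` -/
def arrOk (T : MT) (ps : PS) : Bool :=
  !Nat.beq ps.q 0 && (!memb ps.e ps.P.dead &&
    List.rec false (fun r _ ih => (Nat.beq r.ρ.e ps.e && (Nat.beq r.ρ.k T.k &&
      memb (zA ps.X ps.Y r.ρ r.n) T.st)) || ih) ps.rs)

/-- the check of a patch setting -/
def psOk (T : MT) (ps : PS) : Bool :=
  ands [Nat.ble 8 ps.X, Nat.ble ps.X 72, Nat.ble 8 ps.Y, Nat.ble (Nat.add ps.Y 8) T.H,
    !ps.P.lv, rayPair ps.rs, Nat.beq ps.q 0 || memb ps.q T.st,
    Nat.beq ps.n 0 || (Nat.beq ps.n 1 && arrOk T ps), allb (fun r => rayOk T ps r) ps.rs]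

/-- the cell `z` beyond the mark is empty (weak form of `rayIn`) -/
def rayInE (T : MT) (ps : PS) (z : Nat) : Bool :=
  inA T.H z && ((Nat.beq (cell T.A z) 0 || (Nat.beq (cell T.A z) 15 && memb z T.st)) &&
    !Nat.beq z ps.q)

/-- the blocker on `z` is quiet (weak form of `rayEnd`) -/
def rayEndE (T : MT) (r : RI) (z : Nat) : Bool :=
  inA T.H z && msk (qM r.ρ.t) (cell T.A z)

/-- the first `m` cells beyond the mark are empty -/
def rayInsE (T : MT) (ps : PS) (r : RI) (m : Nat) : Bool :=
  Nat.rec true (fun i ih => ih && rayInE T ps (zA ps.X ps.Y r.ρ (Nat.add i 1))) m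

/-- the weak conditions on a single ray -/
def rayOkE (T : MT) (ps : PS) (r : RI) : Bool :=
  ((!(aO fun u => !Nat.beq u r.ρ.t) && msk 0x3000 r.ρ.k) ||
    (!(aD fun u => !Nat.beq u r.ρ.t) && msk 0x2800 r.ρ.k)) &&
  (decide (Inner r.ρ.e) && (decide (¬ Inner (stp r.ρ.t r.ρ.e)) &&
  (Nat.ble 1 r.n && (Nat.ble r.n r.N && (edgeOk T ps r &&
  (rayInsE T ps r r.N && rayEndE T r (zA ps.X ps.Y r.ρ (Nat.add r.N 1))))))))

/-- The weak check of a patch setting: nothing is said about sliders which come to the rays. -/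
def psOkE (T : MT) (ps : PS) : Bool :=
  ands [Nat.ble 8 ps.X, Nat.ble ps.X 72, Nat.ble 8 ps.Y, Nat.ble (Nat.add ps.Y 8) T.H,
    !ps.P.lv, rayPair ps.rs, Nat.beq ps.q 0 || memb ps.q T.st,
    Nat.beq ps.n 0 || (Nat.beq ps.n 1 && arrOk T ps), allb (fun r => rayOkE T ps r) ps.rs]

/-- no events are treated: level `0`, no dead rays, and a seen mark `7` lets the certificate fail -/
def psNo (ps : PS) : Bool :=
  Nat.beq ps.n 0 && (!ps.P.fin && List.rec true (fun _ _ _ => false) ps.P.dead)

/-- the check of a tile with a resident -/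
def mtOk (T : MT) : Bool :=
  (Nat.beq T.k 11 || Nat.beq T.k 12) && allb (fun j => inA T.H j && Nat.beq (cell T.A j) 15) T.st

/-- The phase of the patch `p`, the resident being on `q` (`0`: on a ray): the station of the resident; `0` if
there is none. -/
def phP (T : MT) (ps : PS) (q p : Nat) : Nat :=
  cond (Nat.beq q 0)
    (List.rec 0 (fun r L' ih => cond (Nat.beq (cell p r.ρ.e) 8)
      (cond (allb (fun r' => !Nat.beq (cell p r'.ρ.e) 8) L' && (Nat.beq r.ρ.k T.k &&
        memb (zA ps.X ps.Y r.ρ r.n) T.st)) (zA ps.X ps.Y r.ρ r.n) 0) ih) ps.rs)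
    (cond (allb (fun r' => !Nat.beq (cell p r'.ρ.e) 8) ps.rs) q 0)

/-- the pair `(i, φ)` belongs to a list -/
def membM (i φ : Nat) (L : List Mo) : Bool :=
  List.rec false (fun m _ ih => (Nat.beq m.j i && Nat.beq m.k φ) || ih) L

/-- an item of an upper bound: state `i`, phase `φ`, marks, certificate, exits by level -/
structure UI where
  /-- the state -/
  i : Nat
  /-- the phase -/
  φ : Nat
  /-- marks -/
  M : List Pc
  /-- certificate -/
  tr : Tr
  /-- exits -/
  ex : List (List Ex)

/-- the verification datum of an item -/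
def UI.sw (ps : PS) (u : UI) : SW := ⟨ps.X, ps.Y, u.M, raysOf ps.rs, ps.P, ps.n, u.tr, u.ex⟩

/-- the pieces of a state are pieces, not marks -/
def noMk (L : List Pc) : Bool := allb (fun q => !msk 0x180 q.c) L

/-- the exits of level `l` are among the pairs `acc`; the resident of this level is on `q` -/
def exOk (T : MT) (S : List (List Pc)) (ps : PS) (acc : List Mo) (q : Nat) (E : List Ex) : Bool :=
  allb (fun e => noMk (nthP S e.i) && allb (fun m => msk 0x180 m.c) e.M &&
    (!Nat.beq (phP T ps q (patW T.A S ps.X ps.Y e.i e.M)) 0 &&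
      membM e.i (phP T ps q (patW T.A S ps.X ps.Y e.i e.M)) acc)) E

/-- the exits of all levels from `l` on -/
def exsOk (T : MT) (S : List (List Pc)) (ps : PS) (acc : List Mo) (X : List (List Ex)) : Nat → Bool :=
  List.rec (fun _ => true) (fun E _ ih l =>
    cond (Nat.beq l ps.n) (exOk T S ps acc ps.q E)
      (cond (Nat.blt l ps.n) (exOk T S ps acc 0 E) true) && ih (Nat.add l 1)) X

/-- the check of an item with patch `p` and king on `k` -/
noncomputable def uiOk (T : MT) (S : List (List Pc)) (ps : PS) (acc : List Mo) (u : UI) (p k : Nat) :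
    Bool :=
  noMk (nthP S u.i) && (allb (fun m => msk 0x180 m.c) u.M && (Nat.beq (phP T ps ps.q p) u.φ &&
    (!Nat.beq u.φ 0 && (swOk T.H T.A S u.i (u.sw ps) p k && exsOk T S ps acc u.ex 0))))

/-- the pairs of a list of items -/
def keysU (L : List UI) (acc : List Mo) : List Mo := List.rec acc (fun u _ ih => ⟨u.i, u.φ⟩ :: ih) L

/-- the check of a list of items with the same patch setting -/
noncomputable def grpU (T : MT) (S : List (List Pc)) (ps : PS) (acc : List Mo) (L : List UI) : Bool :=
  List.rec true (fun u L' ih => uiOk T S ps (keysU L' acc) u (patW T.A S ps.X ps.Y u.i u.M)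
    (kOf ps.X ps.Y (nthP S u.i)) && ih) L

/-! ### Lower bounds -/

/-- An item of a lower bound: state `i`, phase `φ`, marks; kind `0`: Black plays `a → b` (check by the piece on
`s`), White answers with the king to `k₁`, which leads to the state `j₁` with marks `M'`; kind `1`: mate;
kind `2`: fork, two answers; kind `3`: the resident arrives on the ray with mark `ps.e`. -/
structure LI where
  /-- the state -/
  i : Nat
  /-- the phase -/
  φ : Nat
  /-- marks -/
  M : List Pc
  /-- kind -/
  kd : Nat
  /-- source -/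
  a : Nat
  /-- target -/
  b : Nat
  /-- checking piece -/
  s : Nat
  /-- first answer -/
  k₁ : Nat
  /-- first next state -/
  j₁ : Nat
  /-- second answer -/
  k₂ : Nat
  /-- second next state -/
  j₂ : Nat
  /-- marks afterwards -/
  M' : List Pc

/-- the verification datum of an item -/
def LI.sw (ps : PS) (u : LI) : SW := ⟨ps.X, ps.Y, u.M, raysOf ps.rs, ps.P, ps.n, Tr.nil, []⟩

/-- No White slider comes to `j` from the direction `u`: a static piece is met, and no White slider moving in
this direction before. -/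
def scanW (T : MT) (u n : Nat) : Nat → Bool :=
  Nat.rec (fun _ => false)
    (fun _ ih j => inA T.H (stA u j) &&
      cond (Nat.beq (cell T.A (stA u j)) 15) (memb (stA u j) T.st && ih (stA u j))
        (!msk (cond (aO fun v => !Nat.beq v u) 0x28 0x30) (cell T.A (stA u j)) &&
          cond (Nat.beq (cell T.A (stA u j)) 0) (ih (stA u j)) (msk 0x7e7e (cell T.A (stA u j))))) n

/-- the cell `j` has distance at least two from the boundary of the array -/
def inA2 (H j : Nat) : Bool :=
  Nat.ble 2 (Nat.mod j 80) && (Nat.ble (Nat.mod j 80) 77 &&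
    (Nat.ble 160 j && Nat.blt (Nat.add j 160) (Nat.mul 80 H)))

/-- a code which is not the code `c`, nor unknown (unless on a station) -/
def notW (T : MT) (c j : Nat) : Bool :=
  !Nat.beq (cell T.A j) c && (!Nat.beq (cell T.A j) 15 || memb j T.st)

/-- no White piece comes to the cell `z` of a line with step `t` from the side; `la`: the last one -/
def whiteZ (T : MT) (t : Nat) (la : Bool) (z : Nat) : Bool :=
  inA2 T.H z && ((a8 fun u => notW T 2 (stA u z)) && (notW T 1 (stA 22 z) &&
    ((!la || (notW T 1 (stA 21 z) && (notW T 1 (stA 23 z) && scanW T t 90 z))) &&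
    ((aO fun u => (Nat.beq u t || Nat.beq (Nat.add u t) 84) || scanW T u 90 z) &&
      (aD fun u => (Nat.beq u t || Nat.beq (Nat.add u t) 84) || scanW T u 90 z)))))

/-- no White piece comes to the cells after `j` in direction `t`, up to `z` -/
def whiteTo (T : MT) (t z n : Nat) : Nat → Bool :=
  Nat.rec (fun _ => false)
    (fun _ ih j => whiteZ T t (Nat.beq (stA t j) z) (stA t j) &&
      (Nat.beq (stA t j) z || ih (stA t j))) n

/-- the cell of the king -/
def kA (L : List Pc) : Nat := Nat.add (headX L) (Nat.mul 80 (headY L))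

/-- the way from `j` in direction `u` to `z` is free, outside of the patch -/
def goA (T : MT) (X Y u z n : Nat) : Nat → Bool :=
  Nat.rec (fun _ => false)
    (fun _ ih j => inA T.H (stA u j) && (Nat.beq (stA u j) z ||
      (Nat.beq (cell T.A (stA u j)) 0 && (!nearA X Y (stA u j) && ih (stA u j))))) n

/-- the resident can go from `q` to `z` -/
def goesA (T : MT) (X Y q z : Nat) : Bool :=
  !(aO (fun u => !(msk (slM u) T.k && goA T X Y u z 90 q)) &&
    aD (fun u => !(msk (slM u) T.k && goA T X Y u z 90 q)))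

/-- the check for the arrival of the resident on the ray `r` -/
def liEvR (T : MT) (S : List (List Pc)) (ps : PS) (acc : List Mo) (u : LI) (p k : Nat) (r : RI) : Bool :=
  ands [eventW T.H T.A S u.i (u.sw ps) p k r.ρ.e r.ρ.t u.k₁ u.j₁ u.M',
    allb (fun q => Nat.ble 9 q.c || Nat.beq q.c 6) (nthP S u.i),
    goesA T ps.X ps.Y ps.q (zA ps.X ps.Y r.ρ r.n),
    whiteTo T r.ρ.t (zA ps.X ps.Y r.ρ r.n) 150 (kA (nthP S u.i)),
    Nat.beq (phP T ps 0 (patW T.A S ps.X ps.Y u.j₁ u.M')) (zA ps.X ps.Y r.ρ r.n),
    membM u.j₁ (zA ps.X ps.Y r.ρ r.n) acc]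

/-- the check for the arrival of the resident -/
def liEv (T : MT) (S : List (List Pc)) (ps : PS) (acc : List Mo) (u : LI) (p k : Nat) : Bool :=
  Nat.beq ps.n 1 && List.rec false (fun r _ ih => cond (Nat.beq r.ρ.e ps.e)
    (liEvR T S ps acc u p k r) ih) ps.rs

/-- the check of an item with patch `p` and king on `k` -/
def liOk (T : MT) (S : List (List Pc)) (ps : PS) (acc : List Mo) (u : LI) (p k : Nat) : Bool :=
  ands [noMk (nthP S u.i), allb (fun m => msk 0x180 m.c) u.M, Nat.beq (phP T ps ps.q p) u.φ,
    !Nat.beq u.φ 0, noMk (nthP S u.j₁), noMk (nthP S u.j₂), allb (fun m => msk 0x180 m.c) u.M',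
    cond (Nat.beq u.kd 0)
      (mainW T.H T.A S u.i (u.sw ps) p k u.a u.b u.s u.k₁ u.j₁ u.M' &&
        (Nat.beq (phP T ps ps.q (patW T.A S ps.X ps.Y u.j₁ u.M')) u.φ && membM u.j₁ u.φ acc))
      (cond (Nat.beq u.kd 1) (mateW T.H T.A S u.i (u.sw ps) p k u.a u.b u.s)
        (cond (Nat.beq u.kd 2)
          (mainW2 T.H T.A S u.i (u.sw ps) p k u.a u.b u.s u.k₁ u.j₁ u.k₂ u.j₂ u.M' &&
            ((Nat.beq (phP T ps ps.q (patW T.A S ps.X ps.Y u.j₁ u.M')) u.φ && membM u.j₁ u.φ acc) &&
            (Nat.beq (phP T ps ps.q (patW T.A S ps.X ps.Y u.j₂ u.M')) u.φ && membM u.j₂ u.φ acc)))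
          (liEv T S ps acc u p k)))]

/-- the pairs of a list of items -/
def keysL (L : List LI) (acc : List Mo) : List Mo := List.rec acc (fun u _ ih => ⟨u.i, u.φ⟩ :: ih) L

/-- the check of a list of items with the same patch setting -/
def grpL (T : MT) (S : List (List Pc)) (ps : PS) (acc : List Mo) (L : List LI) : Bool :=
  List.rec true (fun u L' ih => liOk T S ps (keysL L' acc) u (patW T.A S ps.X ps.Y u.i u.M)
    (kOf ps.X ps.Y (nthP S u.i)) && ih) L

/-! ### States without rays -/

/-- an item without rays: upper and lower bound -/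
structure NI where
  /-- the state -/
  i : Nat
  /-- first coordinate of the centre -/
  X : Nat
  /-- second coordinate of the centre -/
  Y : Nat
  /-- certificate -/
  tr : Tr
  /-- exits -/
  ex : List Nat
  /-- kind: `0` main line, `1` mate, `2` fork -/
  kd : Nat
  /-- source -/
  a : Nat
  /-- target -/
  b : Nat
  /-- checking piece -/
  s : Nat
  /-- first answer -/
  k₁ : Nat
  /-- first next state -/
  j₁ : Nat
  /-- second answer -/
  k₂ : Nat
  /-- second next state -/
  j₂ : Nat

/-- exits without marks -/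
def exN (L : List Nat) : List Ex := List.rec [] (fun i _ ih => ⟨i, []⟩ :: ih) L

/-- the verification datum of an item without rays -/
def NI.sw (u : NI) : SW := ⟨u.X, u.Y, [], [], ⟨false, [], true⟩, 0, u.tr, [exN u.ex]⟩

/-- the check of the upper bound -/
noncomputable def niUp (H A : Nat) (S : List (List Pc)) (acc : List Nat) (u : NI) (p k : Nat) : Bool :=
  noMk (nthP S u.i) && (swOk H A S u.i u.sw p k &&
    allb (fun i => noMk (nthP S i) && memb i acc) u.ex)

/-- the check of the lower bound -/
def niLo (H A : Nat) (S : List (List Pc)) (acc : List Nat) (u : NI) (p k : Nat) : Bool :=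
  ands [noMk (nthP S u.i), noMk (nthP S u.j₁), noMk (nthP S u.j₂),
    cond (Nat.beq u.kd 0) (mainW H A S u.i u.sw p k u.a u.b u.s u.k₁ u.j₁ [] && memb u.j₁ acc)
      (cond (Nat.beq u.kd 1) (mateW H A S u.i u.sw p k u.a u.b u.s)
        (mainW2 H A S u.i u.sw p k u.a u.b u.s u.k₁ u.j₁ u.k₂ u.j₂ [] &&
          (memb u.j₁ acc && memb u.j₂ acc)))]

/-- the states of a list of items -/
def keysN (L : List NI) (acc : List Nat) : List Nat := List.rec acc (fun u _ ih => u.i :: ih) L

/-- the check of the upper bounds of a list of items without rays -/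
noncomputable def grpNU (H A : Nat) (S : List (List Pc)) (acc : List Nat) (L : List NI) : Bool :=
  List.rec true (fun u L' ih => niUp H A S (keysN L' acc) u (patW A S u.X u.Y u.i [])
    (kOf u.X u.Y (nthP S u.i)) && ih) L

/-- the check of the lower bounds of a list of items without rays -/
def grpNL (H A : Nat) (S : List (List Pc)) (acc : List Nat) (L : List NI) : Bool :=
  List.rec true (fun u L' ih => niLo H A S (keysN L' acc) u (patW A S u.X u.Y u.i [])
    (kOf u.X u.Y (nthP S u.i)) && ih) L

/-! ### Meaning -/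

/-- the position: state `i`, resident on `q` -/
def PM (T : MT) (S : List (List Pc)) (F : Board) (O : Sq) (i q : Nat) : Pos :=
  ⟨stB (FM T F O q) O (nthP S i), false⟩

/-- conditions on the static board `F` (without resident) -/
structure MBase (T : MT) (O : Sq) (F : Board) (R : Room) : Prop where
  fits : FitsH T.H T.A O F
  st : ∀ j ∈ T.st, F (sqA O j) = none
  reg : ∀ s ∈ TileRegH T.H O, s ∉ R.Z
  G : R.G F

/-- the squares of the far sliders -/
def fM (ps : PS) (O : Sq) (e : Nat) : Sq :=
  match ps.rs.find? (fun r => decide (r.ρ.e = e)) with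
  | some r => sqA O (zA ps.X ps.Y r.ρ r.n)
  | none => (0, 0)

/-- the context of a patch setting, the resident being on `q` (`0`: not on the board outside the patch, or on a
ray whose mark is `8`) -/
def cxM (T : MT) (ps : PS) (O : Sq) (F : Board) (q : Nat) : Ctx :=
  ⟨(O.1 + (ps.X : ℤ) - 10, O.2 + (ps.Y : ℤ) - 10), FM T F O q, raysOf ps.rs, fM ps O⟩

/-- the family of contexts of a patch setting -/
def KM (T : MT) (ps : PS) (O : Sq) (F : Board) (l : Nat) (C : Ctx) : Prop :=
  (l = ps.n ∧ C = cxM T ps O F ps.q) ∨ (ps.n = 1 ∧ l = 0 ∧ C = cxM T ps O F 0)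

end Pool.Agent.Lib.H32C.Loc
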