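import Pool.Agent.Lib.H32C.Prim

/-!
# One universal three counter machine realises all computable ordinals

`universal`: there is a machine such that for every computable well order `r` of `ℕ` there is an
initial value `N` of `c₁` from which the machine is well founded with rank at least the order type.
-/

set_option autoImplicit false
set_option linter.unusedSimpArgs false
set_option linter.unusedVariables false

namespace Pool.Agent.Lib.H32C

open Function Nat.Partrec

/-- The check: the bound is `x` (`0` = no bound, `y + 1` = below `y`), the chosen number `m` codes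
an element and the length of a computation; the result is the new bound, `0` if the choice is
refused. -/
def check (x m e : ℕ) : ℕ :=
  if x = 0 ∨ Code.evaln m.unpair.2 (Denumerable.ofNat Code e) (Nat.pair m.unpair.1 (x - 1)) = some 1
  then m.unpair.1 + 1 else 0

theorem primrec_check : Primrec (fun v : List.Vector ℕ 3 => check (v.get 0) (v.get 1) (v.get 2)) := by
  have h0 : Primrec (fun v : List.Vector ℕ 3 => v.get 0) := Primrec.vector_get.comp .id (.const 0)
  have h1 : Primrec (fun v : List.Vector ℕ 3 => v.get 1) := Primrec.vector_get.comp .id (.const 1)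
  have h2 : Primrec (fun v : List.Vector ℕ 3 => v.get 2) := Primrec.vector_get.comp .id (.const 2)
  have hn : Primrec (fun v : List.Vector ℕ 3 => (v.get 1).unpair.1) :=
    Primrec.fst.comp (Primrec.unpair.comp h1)
  have hs : Primrec (fun v : List.Vector ℕ 3 => (v.get 1).unpair.2) :=
    Primrec.snd.comp (Primrec.unpair.comp h1)
  have hc : Primrec (fun v : List.Vector ℕ 3 => Denumerable.ofNat Code (v.get 2)) :=
    (Primrec.ofNat Code).comp h2
  have hp : Primrec (fun v : List.Vector ℕ 3 => Nat.pair (v.get 1).unpair.1 (v.get 0 - 1)) :=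
    Primrec₂.natPair.comp hn (Primrec.nat_sub.comp h0 (.const 1))
  have he := Code.primrec_evaln.comp ((hs.pair hc).pair hp)
  exact Primrec.ite (PrimrecPred.or (Primrec.eq.comp h0 (.const 0)) (Primrec.eq.comp he (.const _)))
    (Primrec.succ.comp hn) (.const 0)

/-- the registers of the main states -/
def st (e x : ℕ) : ℕ → ℕ := fun j => if j = 0 then x else if j = 2 then e else 0

/-- transfer of `c₀` into the register `1` -/
noncomputable def transF : Frag Unit :=
  Frag.loop ((decF 0).bind fun b => match b with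
    | true => (mulF (pr 1)).map fun _ => none
    | false => retF (some ()))

theorem transF_run (K : ℕ) (hK : 1 < K) (m : ℕ) (v : ℕ → ℕ) :
    transF.Run (m, G K v, 0) () (0, G K (update v 1 (v 1 + m)), 0) := by
  induction m generalizing v with
  | zero =>
    refine Frag.loop_run_exit _ ?_
    have := Frag.bind_run (decF 0) (fun b => match b with
      | true => (mulF (pr 1)).map fun _ => none
      | false => retF (some ())) (decF_run_zero 0 (0, G K v, 0) rfl) (retF_run _ _)
    simpa using this
  | succ m ih =>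
    refine Frag.loop_run_again _ ?_ (?_ : transF.Run (m, G K (update v 1 (v 1 + 1)), 0) () _)
    · have h1 := decF_run_pos 0 (m + 1, G K v, 0) (by simp [Store.get])
      have h2 := Frag.map_run _ (fun _ => (none : Option Unit)) (mulF_run (pr 1) m (G K v))
      rw [← G_inc K 1 hK v] at h2
      exact Frag.bind_run (decF 0) _ h1 h2
    · have := ih (update v 1 (v 1 + 1))
      rw [update_self, update_idem] at this
      have e : v 1 + 1 + m = v 1 + (m + 1) := by ring
      rw [e] at this
      exact this

/-- the main fragment -/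
theorem exists_main : ∃ (K : ℕ) (F : Frag Bool), 3 < K ∧ ∀ e x m : ℕ,
    (check x m e ≠ 0 → F.Run (m, G K (st e x), 0) true (0, G K (st e (check x m e)), 0)) ∧
    (check x m e = 0 → ∃ s, F.Run (m, G K (st e x), 0) false s) := by
  have hcomp := comp_of_primrec' (Nat.Primrec'.of_prim primrec_check)
  obtain ⟨g, hg1, hg2, hg3⟩ := hcomp (fun i => (i : ℕ)) 3 4 (fun i => by omega) (by omega)
    (fun i => by omega)
  have hI1 : Impl (fun v => clearR 0 (clearR 1 (g v))) :=
    Impl.comp (Impl.clear 0) (Impl.comp (Impl.clear 1) hg1)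
  have hI2 : Impl (fun v => moveR 3 0 (incR 3 v)) := Impl.comp (Impl.move 3 0 (by omega)) (Impl.inc 3)
  obtain ⟨K1, h1⟩ := hI1
  obtain ⟨K2, h2⟩ := hI2
  obtain ⟨F1, hF1⟩ := h1 (max (max K1 K2) 4) ((le_max_left _ _).trans (le_max_left _ _))
  obtain ⟨F2, hF2⟩ := h2 (max (max K1 K2) 4) ((le_max_right _ _).trans (le_max_left _ _))
  set K := max (max K1 K2) 4 with hK
  have hK4 : 3 < K := lt_of_lt_of_le (by omega : 3 < 4) (le_max_right _ _)
  refine ⟨K, transF.bind fun _ => F1.bind fun _ => (divF (pr 3)).bind fun b => match b with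
    | true => F2.map fun _ => true
    | false => retF false, hK4, fun e x m => ?_⟩
  have ht := transF_run K (by omega) m (st e x)
  have hst1 : st e x 1 + m = m := by simp [st]
  rw [hst1] at ht
  set v1 := update (st e x) 1 m with hv1
  have hg : g v1 = update v1 3 (check x m e) := by
    have := hg3 v1 (fun j hj => by
      rw [hv1, update_of_ne (by omega)]
      simp only [st]
      rw [if_neg (by omega), if_neg (by omega)]) (by rw [hv1, update_of_ne (by omega)]; rfl)
    rw [this]
    congr 1
  have hr1 := hF1 v1 0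
  have hv2 : clearR 0 (clearR 1 (g v1)) = update (update (st e x) 0 0) 3 (check x m e) := by
    rw [hg]
    unfold clearR
    funext j
    by_cases h0 : j = 0
    · subst h0; simp [hv1, st, update_apply]
    · by_cases h1 : j = 1
      · subst h1; simp [hv1, st, update_apply]
      · by_cases h3 : j = 3
        · subst h3; simp [hv1, st, update_apply]
        · simp [hv1, st, update_apply, h0, h1, h3]
  beta_reduce at hr1
  rw [hv2] at hr1
  set v2 := update (update (st e x) 0 0) 3 (check x m e) with hv2'
  have hv23 : v2 3 = check x m e := by rw [hv2', update_self]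
  constructor
  · intro hc
    have hdiv := divF_run_true (pr 3) 0 (G K (update v2 3 (v2 3 - 1))) (pr_prime 3).pos
    have h3 : G K (update v2 3 (v2 3 - 1)) * pr 3 = G K v2 :=
      (G_dec K 3 hK4 v2 (by rw [hv23]; exact hc)).symm
    rw [h3] at hdiv
    have hr2 := Frag.map_run _ (fun _ => true) (hF2 (update v2 3 (v2 3 - 1)) 0)
    have hv3 : moveR 3 0 (incR 3 (update v2 3 (v2 3 - 1))) = st e (check x m e) := by
      rw [hv23]
      unfold moveR incR
      funext j
      by_cases h0 : j = 0
      · subst h0; simp [hv2', st, update_apply]; omega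
      · by_cases h3 : j = 3
        · subst h3; simp [hv2', st, update_apply]
        · simp [hv2', st, update_apply, h0, h3]
    beta_reduce at hr2
    rw [hv3] at hr2
    exact Frag.bind_run transF _ ht (Frag.bind_run F1 _ hr1 (Frag.bind_run (divF (pr 3)) _ hdiv hr2))
  · intro hc
    have h3 : ¬ pr 3 ∣ G K v2 := by
      rw [G_dvd K 3 hK4, hv23]; simpa using hc
    have hdiv := divF_run_false (pr 3) 0 (G K v2) (pr_prime 3).pos h3
    exact ⟨_, Frag.bind_run transF _ ht (Frag.bind_run F1 _ hr1
      (Frag.bind_run (divF (pr 3)) _ hdiv (retF_run _ _)))⟩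

/-- A code for the characteristic function of a computable relation. -/
theorem exists_code_rel (r : ℕ → ℕ → Prop) (hr : ComputablePred (fun x : ℕ × ℕ => r x.1 x.2)) :
    ∃ e : ℕ, ∀ n y, r n y ↔ ∃ s, Code.evaln s (Denumerable.ofNat Code e) (Nat.pair n y) = some 1 := by
  obtain ⟨f, hf, hfr⟩ := ComputablePred.computable_iff.1 hr
  have hf2 : Nat.Partrec fun n => (Part.some (Encodable.encode (f n.unpair)) : Part ℕ) := by
    have : Computable fun n : ℕ => Encodable.encode (f n.unpair) :=
      Computable.encode.comp (hf.comp Computable.unpair)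
    exact Partrec.nat_iff.1 this
  obtain ⟨c, hc⟩ := Code.exists_code.1 hf2
  refine ⟨Encodable.encode c, fun n y => ?_⟩
  have h1 : r n y ↔ f (n, y) = true := by
    have := congrFun hfr (n, y)
    simpa using this
  rw [h1, Denumerable.ofNat_encode]
  have h2 : (∃ s, Code.evaln s c (Nat.pair n y) = some 1) ↔ (1 : ℕ) ∈ Code.eval c (Nat.pair n y) :=
    (Code.evaln_complete (c := c) (n := Nat.pair n y) (x := 1)).symm
  rw [h2, hc]
  simp only [Nat.unpair_pair, Part.mem_some_iff]
  cases f (n, y) <;> simp

/-- **The universal machine.** -/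
theorem universal : ∃ (Q : Type) (_ : Finite Q) (P : Q → Instr Q) (q₀ : Q),
    ∀ (r : ℕ → ℕ → Prop) (_ : IsWellOrder ℕ r), ComputablePred (fun x : ℕ × ℕ => r x.1 x.2) →
      ∃ N : ℕ, Acc (fun y x => Step P x y) (q₀, (0, N, 0)) ∧
        RankGE P (Ordinal.type r) (q₀, (0, N, 0)) := by
  obtain ⟨K, F, hK, hF⟩ := exists_main
  have := F.fin
  let φ : F.Q ⊕ Bool → Option (F.Q ⊕ Unit) := Sum.elim (fun q => some (Sum.inl q))
    (fun b => if b then none else some (Sum.inr ()))
  let P : Option (F.Q ⊕ Unit) → Instr (Option (F.Q ⊕ Unit)) := fun q => match q with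
    | Option.none => Instr.choose (some (Sum.inl F.entry))
    | Option.some (Sum.inl q) => (F.prog q).map φ
    | Option.some (Sum.inr _) => Instr.halt
  refine ⟨Option (F.Q ⊕ Unit), inferInstance, P, none, fun r hwo hr => ?_⟩
  obtain ⟨e, he⟩ := exists_code_rel r hr
  refine ⟨G K (st e 0), ?_⟩
  have hgood : ∀ x m, check x m e ≠ 0 →
      DReach P (some (Sum.inl F.entry), (m, G K (st e x), 0)) (none, (0, G K (st e (check x m e)), 0)) :=
    fun x m h => (hF e x m).1 h _ P φ (fun q => rfl)
  have hbad : ∀ x m, check x m e = 0 → ∃ s,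
      DReach P (some (Sum.inl F.entry), (m, G K (st e x), 0)) (some (Sum.inr ()), s) := by
    intro x m h
    obtain ⟨s, hs⟩ := (hF e x m).2 h
    exact ⟨s, hs _ P φ (fun q => rfl)⟩
  have hstep : ∀ N b, Step P (none, (0, N, 0)) b ↔
      ∃ m, 1 ≤ m ∧ b = (some (Sum.inl F.entry), (m, N, 0)) := by
    intro N b
    unfold Step
    constructor
    · rintro (h | ⟨j, m, h1, -, h3, h4⟩)
      · exact absurd h (by simp [P, Instr.next])
      · refine ⟨m, h3, ?_⟩
        have : j = some (Sum.inl F.entry) := by
          have h5 : Instr.choose (some (Sum.inl F.entry)) = Instr.choose j := h1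
          injection h5 with h6
          exact h6.symm
        rw [h4, this]
    · rintro ⟨m, h3, rfl⟩
      exact Or.inr ⟨_, m, rfl, rfl, h3, rfl⟩
  have hacc1 : ∀ x, (∀ m, check x m e ≠ 0 →
      Acc (fun y x => Step P x y) (none, (0, G K (st e (check x m e)), 0))) →
      Acc (fun y x => Step P x y) (none, (0, G K (st e x), 0)) := by
    intro x hx
    refine Acc.intro _ fun b hb => ?_
    rw [hstep] at hb
    obtain ⟨m, hm, rfl⟩ := hb
    by_cases hc : check x m e = 0
    · obtain ⟨s, hs⟩ := hbad x m hc
      refine acc_of_dreach P hs (Acc.intro _ fun b hb => ?_)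
      exact absurd hb (by simp [Step, P, Instr.next])
    · exact acc_of_dreach P (hgood x m hc) (hx m hc)
  have hacc2 : ∀ x, Acc (fun y x => Step P x y) (none, (0, G K (st e (x + 1)), 0)) := by
    intro x
    induction x using hwo.wf.induction with
    | _ x ih =>
      refine hacc1 (x + 1) fun m hm => ?_
      by_cases h : x + 1 = 0 ∨ Code.evaln m.unpair.2 (Denumerable.ofNat Code e)
          (Nat.pair m.unpair.1 (x + 1 - 1)) = some 1
      · have hc : check (x + 1) m e = m.unpair.1 + 1 := if_pos h
        rw [hc]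
        rcases h with h | h
        · omega
        · refine ih _ ((he _ _).2 ⟨m.unpair.2, ?_⟩)
          rw [Nat.add_sub_cancel] at h
          exact h
      · exact absurd (if_neg h) hm
  have hrk1 : ∀ x n, (x = 0 ∨ ∃ y, x = y + 1 ∧ r n y) → ∃ m, 1 ≤ m ∧ check x m e = n + 1 := by
    intro x n hx
    rcases hx with rfl | ⟨y, rfl, hny⟩
    · refine ⟨Nat.pair n 1, ?_, ?_⟩
      · exact le_trans (by omega : 1 ≤ 1) (Nat.right_le_pair n 1)
      · unfold check
        rw [if_pos (Or.inl rfl), Nat.unpair_pair]
    · obtain ⟨s, hs⟩ := (he n y).1 hny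
      refine ⟨Nat.pair n (s + 1), ?_, ?_⟩
      · exact le_trans (by omega : 1 ≤ s + 1) (Nat.right_le_pair n (s + 1))
      · unfold check
        rw [if_pos (Or.inr ?_), Nat.unpair_pair]
        rw [Nat.unpair_pair, Nat.add_sub_cancel]
        exact Code.evaln_mono (Nat.le_succ s) hs
  have hrk2 : ∀ β : Ordinal.{0}, ∀ x, β ≤ Ordinal.typein r x →
      RankGE P β (none, (0, G K (st e (x + 1)), 0)) := by
    intro β
    induction β using WellFoundedLT.induction with
    | _ β ih =>
      intro x hβ
      refine RankGE.intro fun γ hγ => ?_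
      have hγ' : γ < Ordinal.type r := (hγ.trans_le hβ).trans (Ordinal.typein_lt_type r x)
      obtain ⟨y, hy⟩ := Ordinal.typein_surj r hγ'
      have hyx : r y x := by
        rw [← Ordinal.typein_lt_typein r, hy]
        exact hγ.trans_le hβ
      obtain ⟨m, hm, hc⟩ := hrk1 (x + 1) y (Or.inr ⟨x, rfl, hyx⟩)
      refine ⟨_, (hstep _ _).2 ⟨m, hm, rfl⟩, RankGE.of_dreach (hgood (x + 1) m (by omega)) ?_⟩
      rw [hc]
      exact ih γ hγ y hy.ge
  refine ⟨hacc1 0 fun m hm => ?_, ?_⟩
  · obtain ⟨k, hk⟩ := Nat.exists_eq_succ_of_ne_zero hm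
    rw [hk]
    exact hacc2 k
  · refine RankGE.intro fun γ hγ => ?_
    obtain ⟨y, hy⟩ := Ordinal.typein_surj r hγ
    obtain ⟨m, hm, hc⟩ := hrk1 0 y (Or.inl rfl)
    refine ⟨_, (hstep _ _).2 ⟨m, hm, rfl⟩, RankGE.of_dreach (hgood 0 m (by omega)) ?_⟩
    rw [hc]
    exact hrk2 γ y hy.ge

end Pool.Agent.Lib.H32C
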