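import Pool.Agent.Lib.H32C.Bisim
import Pool.Agent.Lib.H32C.Univ

/-!
# From a simulation of the machine by chess positions to the omega one of chess
-/

set_option autoImplicit false

namespace Pool.Agent.Lib.H32C

/-- the position has no value less than `β` (it has a value `≥ β` or no value at all) -/
def GE (p : Pos) (β : Ordinal.{0}) : Prop := ∀ α < β, ¬ ValLE p α

/-- `Rep c p`: the position `p` (a finite position) represents the configuration `c`. -/
structure Simulation {Q : Type} (P : Q → Instr Q) (Rep : Q × Store → Pos → Prop) : Prop where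
  /-- positions are finite -/
  finite : ∀ c p, Rep c p → FinitePos p
  /-- White wins if White wins from all representatives of all next configurations -/
  upper : ∀ c p, Rep c p → (∀ c' p', Step P c c' → Rep c' p' → HasValue p') → HasValue p
  /-- Black can force every next configuration -/
  lower : ∀ c c' p β, Rep c p → Step P c c' → (∀ p', Rep c' p' → GE p' β) → ¬ ValLE p β

theorem Simulation.hasValue {Q : Type} {P : Q → Instr Q} {Rep : Q × Store → Pos → Prop}
    (h : Simulation P Rep) {c : Q × Store} (hc : Acc (fun y x => Step P x y) c) :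
    ∀ p, Rep c p → HasValue p := by
  induction hc with
  | intro c _ ih => exact fun p hp => h.upper c p hp fun c' p' hs hp' => ih c' hs p' hp'

theorem Simulation.ge {Q : Type} {P : Q → Instr Q} {Rep : Q × Store → Pos → Prop}
    (h : Simulation P Rep) {c : Q × Store} {β : Ordinal.{0}} (hc : RankGE P β c) :
    ∀ p, Rep c p → GE p β := by
  induction hc with
  | mk f hs _ ih => exact fun p hp γ hγ => h.lower _ _ p γ hp (hs γ hγ) (ih γ hγ)

/-- **Reduction.** If every machine configuration has a simulation by finite chess positions, then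
the omega one of chess is the Church-Kleene ordinal. -/
theorem omegaOne_of_simulation
    (h : ∀ (Q : Type) (_ : Finite Q) (P : Q → Instr Q), ∃ Rep : Q × Store → Pos → Prop,
      Simulation P Rep ∧ ∀ q N, ∃ p, Rep (q, (0, N, 0)) p) :
    omegaOneChess = omegaOneCK := by
  have hbdd : BddAbove {α | ∃ p, FinitePos p ∧ HasValue p ∧ val p = α} := by
    refine ⟨omegaOneCK, ?_⟩
    rintro α ⟨p, hp, hv, rfl⟩
    exact val_le_CK p hp.1 hv
  apply le_antisymm
  · rcases Set.eq_empty_or_nonempty {α | ∃ p, FinitePos p ∧ HasValue p ∧ val p = α} with he | hne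
    · unfold omegaOneChess
      rw [he, csSup_empty]
      exact bot_le
    · refine csSup_le hne ?_
      rintro α ⟨p, hp, hv, rfl⟩
      exact val_le_CK p hp.1 hv
  · obtain ⟨Q, hQ, P, q₀, hU⟩ := universal
    obtain ⟨Rep, hS, hR⟩ := h Q hQ P
    have key : ∀ α ∈ {α : Ordinal.{0} | ∃ (r : ℕ → ℕ → Prop) (_ : IsWellOrder ℕ r),
        ComputablePred (fun x : ℕ × ℕ => r x.1 x.2) ∧ Ordinal.type r = α}, α ≤ omegaOneChess := by
      rintro α ⟨r, hwo, hr, rfl⟩
      obtain ⟨N, hacc, hrk⟩ := hU r hwo hr
      obtain ⟨p, hp⟩ := hR q₀ N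
      have hv := hS.hasValue hacc p hp
      have hge := hS.ge hrk p hp
      have h1 : Ordinal.type r ≤ val p := by
        by_contra hlt
        push Not at hlt
        exact hge _ hlt (csInf_mem (s := {β | ValLE p β}) hv)
      exact h1.trans (le_csSup hbdd ⟨p, hS.finite _ _ hp, hv, rfl⟩)
    rcases Set.eq_empty_or_nonempty {α : Ordinal.{0} | ∃ (r : ℕ → ℕ → Prop) (_ : IsWellOrder ℕ r),
        ComputablePred (fun x : ℕ × ℕ => r x.1 x.2) ∧ Ordinal.type r = α} with he | hne
    · unfold omegaOneCK
      rw [he, csSup_empty]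
      exact bot_le
    · exact csSup_le hne key

end Pool.Agent.Lib.H32C
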