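import Pool.Agent.Lib.H32C.LayB
import Pool.Agent.Lib.H32C.Sim

/-!
# The layout of the control part: facts about tiles, and paths through the groups of tiles
-/

set_option autoImplicit false

namespace Pool.Agent.Lib.H32C.Ly

/-- White's win and Black's lower bounds are inherited. -/
def Imp (a b : Pos) : Prop := (HasValue b → HasValue a) ∧ ∀ β : Ordinal.{0}, GE b β → GE a β

theorem Imp.refl (a : Pos) : Imp a a := ⟨id, fun _ => id⟩

theorem Imp.trans {a b c : Pos} (h1 : Imp a b) (h2 : Imp b c) : Imp a c :=
  ⟨fun h => h1.1 (h2.1 h), fun β h => h1.2 β (h2.2 β h)⟩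

theorem Imp.of_eq {a b : Pos} (h : a = b) : Imp a b := h ▸ Imp.refl a

/-- the far pieces during the travel of the White king through the control part -/
def FarOk (G : FGeo) (F : Far) : Prop :=
  FBase G F ∧ (BOk G F ∨ ∃ t : ℕ, 0 < t ∧ t ≤ G.m ∧ F.b = G.se t)

/-- The border through which a tile is entered in direction `d`: `VH` are the vertical borders (left
border of the tile), `VV` the horizontal borders (lower border of the tile). -/
def ent {α : Type} (VH VV : ℕ → ℕ → α) (i j d : ℕ) : α :=
  if d = 0 then VH i j else if d = 1 then VH (i + 1) j else if d = 2 then VV i j else VV i (j + 1)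

/-- the border through which a tile is left in direction `d` -/
def lea {α : Type} (VH VV : ℕ → ℕ → α) (i j d : ℕ) : α :=
  if d = 0 then VH (i + 1) j else if d = 1 then VH i j else if d = 2 then VV i (j + 1) else VV i j

/-- the lower row of the band of a label -/
def lo (n m : ℕ) : ℕ := 26 + n + 2 * m

/-- the upper row of the band of a label -/
def up (n m : ℕ) : ℕ := 27 + n + 2 * m

/-- the column of the loop of a label -/
def lp (n m : ℕ) : ℕ := n + 5 - m

/-- the column of the entry of a service -/
def enI (n b : ℕ) : ℕ := xf n (enS b)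

/-- the row of the entry of a service -/
def enJ (n b : ℕ) : ℕ := yf n (enL b)

/-- the column of the first tile after the exit of a service -/
def exI (n b : ℕ) : ℕ := xf n (exS b)

/-- the row of the first tile after the exit of a service -/
def exJ (n b : ℕ) : ℕ := yf n (exL b)

/-- **Facts about tiles.**  `VH i j μ F` is the position in which the White king crosses the left border
of the tile `(i, j)`, `VV i j μ F` the position in which it crosses the lower border; `μ` is the label of
the call which is being performed; `F` are the far pieces. -/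
structure TileSys (P : Prog) (G : FGeo) (VH VV : ℕ → ℕ → Option ℕ → Far → Pos) : Prop where
  /-- finite positions at the labels -/
  fin : ∀ m F, m < P.n → FarOk G F → FinitePos (VV (lp P.n m) (lo P.n m) none F)
  /-- wires, corners, crossings and merges -/
  wire : ∀ i j d μ F, i < nx P.n → j < ny P.n → d < 4 → FarOk G F → out (kd P i j) d < 4 →
    Imp (ent VH VV i j d μ F) (lea VH VV i j (out (kd P i j) d) μ F)
  /-- a call -/
  set : ∀ i m F, m < P.n → i < nx P.n → FarOk G F → kd P i (lo P.n m) = 24 →
    kd P i (up P.n m) = 23 → Imp (VH i (lo P.n m) none F) (VH i (up P.n m) (some m) F)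
  /-- the return -/
  ret : ∀ i m F, m < P.n → i < nx P.n → FarOk G F → kd P i (lo P.n m) = 24 →
    kd P i (up P.n m) = 23 →
      Imp (VV i (up P.n m + 1) (some m) F) (VH (i + 1) (lo P.n m) none F)
  /-- the return of another call -/
  pass : ∀ i m μ F, m < P.n → i < nx P.n → FarOk G F → kd P i (lo P.n m) = 24 →
    kd P i (up P.n m) = 23 → μ ≠ some m →
      Imp (VV i (up P.n m + 1) μ F) (VV i (lo P.n m) μ F)
  /-- the choice, upper bound -/
  cho_up : ∀ i m F, m < P.n → i < nx P.n → FarOk G F → kd P i (lo P.n m) = 22 →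
    kd P i (up P.n m) = 21 → HasValue (VH (i + 1) (up P.n m) none F) →
      HasValue (VH (i + 1) (lo P.n m) none F) → HasValue (VH i (up P.n m) none F)
  /-- the choice, lower bound -/
  cho_low : ∀ i m F β, m < P.n → i < nx P.n → FarOk G F → kd P i (lo P.n m) = 22 →
    kd P i (up P.n m) = 21 →
      GE (VH (i + 1) (up P.n m) none F) β ∨ GE (VH (i + 1) (lo P.n m) none F) β →
        ¬ ValLE (VH i (up P.n m) none F) β
  /-- the end -/
  halt : ∀ i m F, m < P.n → i < nx P.n → FarOk G F → kd P i (up P.n m) = 20 →
    HasValue (VH i (up P.n m) none F)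
  /-- the services, upper bound -/
  svc_up : ∀ s m F, m < P.n → Inv G s F → (∀ F', StepU G s F F' → FBase G F') →
    (∀ F', StepU G s F F' →
      HasValue (ent VH VV (exI P.n (sc s)) (exJ P.n (sc s)) (exD (sc s)) (some m) F')) →
    HasValue (ent VH VV (enI P.n (sc s)) (enJ P.n (sc s)) (enD (sc s)) (some m) F)
  /-- the services, lower bound -/
  svc_low : ∀ s m F F' β, m < P.n → Inv G s F → StepL G s F F' → FBase G F' →
    GE (ent VH VV (exI P.n (sc s)) (exJ P.n (sc s)) (exD (sc s)) (some m) F') β →
    ¬ ValLE (ent VH VV (enI P.n (sc s)) (enJ P.n (sc s)) (enD (sc s)) (some m) F) β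

/-! ### Coordinates of groups -/

/-- a group which consists of several columns -/
def bigS (s : ℕ) : Bool := Nat.beq s 6 || (Nat.beq s 52 || Nat.beq s 74)

theorem bigS_false {s : ℕ} (h : bigS s = false) : s ≠ 6 ∧ s ≠ 52 ∧ s ≠ 74 := by
  refine ⟨?_, ?_, ?_⟩ <;> rintro rfl <;> exact absurd h (by decide)

theorem bigS_true {s : ℕ} (h : bigS s = true) : s = 6 ∨ s = 52 ∨ s = 74 := by
  unfold bigS at h
  rw [Bool.or_eq_true, Bool.or_eq_true] at h
  rcases h with h | h | h
  · exact Or.inl (Nat.eq_of_beq_eq_true h)
  · exact Or.inr (Or.inl (Nat.eq_of_beq_eq_true h))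
  · exact Or.inr (Or.inr (Nat.eq_of_beq_eq_true h))

theorem xf_succ {n s : ℕ} (h : s ≠ 6) (h2 : s ≠ 52) (h3 : s ≠ 74) :
    xf n (s + 1) = xf n s + 1 := by
  unfold xf
  split_ifs <;> omega

theorem xf_lt {n s : ℕ} (h : s < 79) : xf n s < nx n := by
  unfold xf nx
  split_ifs <;> omega

theorem cx_xf {n m t s : ℕ} (hn : 0 < n) (h : s < 79) (h1 : s ≠ 6) (h2 : s ≠ 52) :
    cx n m t (xf n s) = s := by
  unfold xf
  split_ifs with h3 h4 h5
  · rw [cx_a (by omega)]
  · rw [cx_b (by omega) (by omega)]; omega
  · rcases Nat.lt_or_ge s 74 with h6 | h6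
    · rw [cx_d (by omega) (by omega)]; omega
    · rw [cx_g (by omega) (by omega)]; omega
  · rw [cx_e (by omega)]; omega

theorem yf_succ {n l : ℕ} (h : l ≠ 25) (h2 : l ≠ 27) : yf n (l + 1) = yf n l + 1 := by
  unfold yf
  split_ifs <;> omega

theorem yf_lt {n l : ℕ} (h : l < 47) : yf n l < ny n := by
  unfold yf ny
  split_ifs <;> omega

variable (P : Prog)

/-- the kind of a tile in a row without label -/
theorem kd_yf {l : ℕ} (h : l < 47) (h1 : l ≠ 25) (h2 : l ≠ 27) (i : ℕ) :
    kd P i (yf P.n l) = kdt l (cx P.n 0 0 i) := by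
  unfold yf
  split_ifs with h3 h4
  · rw [kd_a P (by omega)]
  · rw [kd_m, h4]
  · have e : l - 2 + 3 * P.n + 2 - 3 * P.n = l := by omega
    rw [kd_t P (by omega), e]

/-! ### Runs -/

section runs

variable {P} {G : FGeo} {VH VV : ℕ → ℕ → Option ℕ → Far → Pos} (hT : TileSys P G VH VV)
  {μ : Option ℕ} {F : Far} (hF : FarOk G F)

include hT hF

theorem run0 {j a b : ℕ} (hj : j < ny P.n) (hb : b ≤ nx P.n) (hab : a ≤ b)
    (h : ∀ i, a ≤ i → i < b → out (kd P i j) 0 = 0) : Imp (VH a j μ F) (VH b j μ F) := by
  induction b, hab using Nat.le_induction with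
  | base => exact Imp.refl _
  | succ b hab ih =>
    have h1 := hT.wire b j 0 μ F (by omega) hj (by decide) hF (by rw [h b hab (by omega)]; decide)
    rw [h b hab (by omega)] at h1
    exact (ih (by omega) fun i h2 h3 => h i h2 (by omega)).trans h1

theorem run1 {j a b : ℕ} (hj : j < ny P.n) (hb : b ≤ nx P.n) (hab : a ≤ b)
    (h : ∀ i, a ≤ i → i < b → out (kd P i j) 1 = 1) : Imp (VH b j μ F) (VH a j μ F) := by
  induction b, hab using Nat.le_induction with
  | base => exact Imp.refl _
  | succ b hab ih =>
    have h1 := hT.wire b j 1 μ F (by omega) hj (by decide) hF (by rw [h b hab (by omega)]; decide)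
    rw [h b hab (by omega)] at h1
    exact h1.trans (ih (by omega) fun i h2 h3 => h i h2 (by omega))

theorem run2 {i a b : ℕ} (hi : i < nx P.n) (hb : b ≤ ny P.n) (hab : a ≤ b)
    (h : ∀ j, a ≤ j → j < b → out (kd P i j) 2 = 2) : Imp (VV i a μ F) (VV i b μ F) := by
  induction b, hab using Nat.le_induction with
  | base => exact Imp.refl _
  | succ b hab ih =>
    have h1 := hT.wire i b 2 μ F hi (by omega) (by decide) hF (by rw [h b hab (by omega)]; decide)
    rw [h b hab (by omega)] at h1
    exact (ih (by omega) fun i h2 h3 => h i h2 (by omega)).trans h1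

theorem run3 {i a b : ℕ} (hi : i < nx P.n) (hb : b ≤ ny P.n) (hab : a ≤ b)
    (h : ∀ j, a ≤ j → j < b → out (kd P i j) 3 = 3) : Imp (VV i b μ F) (VV i a μ F) := by
  induction b, hab using Nat.le_induction with
  | base => exact Imp.refl _
  | succ b hab ih =>
    have h1 := hT.wire i b 3 μ F hi (by omega) (by decide) hF (by rw [h b hab (by omega)]; decide)
    rw [h b hab (by omega)] at h1
    exact h1.trans (ih (by omega) fun i h2 h3 => h i h2 (by omega))

end runs

/-! ### Walks through the groups -/

/-- the direction after a group -/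
def nd (s l d : ℕ) : ℕ :=
  cond (bigS s)
    (cond (!Nat.beq l 25 && (!Nat.beq l 27 && (Nat.blt d 2 && Nat.beq (out (kdt l s) d) d))) d 4)
    (cond (Nat.beq l 25) (cond (!Nat.blt d 2 && Nat.beq (out (kdt 25 s) d) d) d 4)
      (cond (Nat.beq l 27)
        (cond (!Nat.blt d 2 && allN (fun a => Nat.beq (out (kdt (Nat.add 47 a) s) d) d) 38) d 4)
        (out (kdt l s) d)))

/-- the walk from the group `(s, l)`, entered in direction `d`, reaches the group `(s', l')`, entered
in direction `d'` -/
def walk (s' l' d' : ℕ) (f : ℕ) : ℕ → ℕ → ℕ → Bool :=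
  Nat.rec (fun _ _ _ => false)
    (fun _ ih s l d => (Nat.beq s s' && (Nat.beq l l' && Nat.beq d d')) ||
      cond (Nat.beq (nd s l d) 0) (Nat.blt s 78 && ih (Nat.add s 1) l 0)
        (cond (Nat.beq (nd s l d) 1) (Nat.blt 0 s && ih (Nat.sub s 1) l 1)
          (cond (Nat.beq (nd s l d) 2) (Nat.blt l 46 && ih s (Nat.add l 1) 2)
            (cond (Nat.beq (nd s l d) 3) (Nat.blt 0 l && ih s (Nat.sub l 1) 3) false)))) f

/-- the border at which a group is entered in direction `d` -/
def gent {α : Type} (VH VV : ℕ → ℕ → α) (n s l d : ℕ) : α :=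
  if d = 0 then VH (xf n s) (yf n l) else if d = 1 then VH (xf n (s + 1)) (yf n l)
  else if d = 2 then VV (xf n s) (yf n l) else VV (xf n s) (yf n (l + 1))

theorem bne_false {a b : ℕ} (h : (!Nat.beq a b) = true) : a ≠ b := by
  rintro rfl
  rw [Nat.beq_refl] at h
  exact absurd h (by decide)

theorem blt_not {a b : ℕ} (h : (!Nat.blt a b) = true) : b ≤ a := by
  by_contra h1
  have h2 : Nat.blt a b = true := Nat.ble_eq_true_of_le (by omega)
  rw [h2] at h
  exact absurd h (by decide)

/-- the kinds in a group of columns -/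
theorem kd_big {s l i : ℕ} (hb : bigS s = true) (hl : l < 47) (h1 : l ≠ 25) (h2 : l ≠ 27)
    (ha : xf P.n s ≤ i) (hi : i < xf P.n (s + 1)) : kd P i (yf P.n l) = kdt l s := by
  have hin : i < nx P.n := by
    rcases bigS_true hb with rfl | rfl | rfl <;> unfold xf at hi <;> unfold nx <;> simp at hi <;> omega
  rw [kd_yf P hl h1 h2, kdt_gr h1 h2 hl (cx_lt hin)]
  congr 1
  rcases bigS_true hb with rfl | rfl | rfl
  · unfold xf at ha hi
    rw [cx_l (by simpa using ha) (by simp at hi; omega)]
    split_ifs <;> rfl
  · unfold xf at ha hi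
    rw [cx_c (by simp at ha; omega) (by simp at hi; omega)]
    split_ifs <;> rfl
  · unfold xf at ha hi
    rw [cx_g (by simp at ha; omega) (by simp at hi; omega)]
    rfl

theorem xf_le {n s : ℕ} : xf n s ≤ xf n (s + 1) := by
  unfold xf
  split_ifs <;> omega

theorem yf_le {n l : ℕ} : yf n l ≤ yf n (l + 1) := by
  unfold yf
  split_ifs <;> omega

theorem cond_lt {b : Bool} {d : ℕ} (h : cond b d 4 < 4) : b = true ∧ cond b d 4 = d := by
  cases b
  · exact absurd (show (4 : ℕ) < 4 from h) (lt_irrefl _)
  · exact ⟨rfl, rfl⟩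

/-- the kind of a tile in the bands -/
theorem kd_band {s j : ℕ} (hs : s < 79) (h6 : s ≠ 6) (h52 : s ≠ 52) (h1 : 26 + P.n ≤ j)
    (h2 : j < 26 + 3 * P.n) : ∃ a < 38, kd P (xf P.n s) j = kdt (47 + a) s := by
  have hn := P.pos
  obtain ⟨m, hm, rfl | rfl⟩ := band_cases h1 h2
  · refine ⟨ic (P.M m), (ic_lt _).trans (by decide), ?_⟩
    rw [kd_lo P hm, cx_xf hn hs h6 h52]
  · refine ⟨19 + ic (P.M m), by have := ic_lt (P.M m); omega, ?_⟩
    rw [kd_up P hm, cx_xf hn hs h6 h52]
    congr 1
    omega

theorem kd_lane' {s j : ℕ} (hs : s < 79) (h6 : s ≠ 6) (h52 : s ≠ 52) (h1 : 25 ≤ j)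
    (h2 : j < 25 + P.n) : kd P (xf P.n s) j = kdt 25 s := by
  have hn := P.pos
  obtain ⟨m, hm, rfl⟩ : ∃ m < P.n, j = P.n + 24 - m := ⟨P.n + 24 - j, by omega, by omega⟩
  rw [kd_lane P hm, cx_xf hn hs h6 h52]

section walk

variable {P} {G : FGeo} {VH VV : ℕ → ℕ → Option ℕ → Far → Pos} (hT : TileSys P G VH VV)
  {μ : Option ℕ} {F : Far} (hF : FarOk G F)

include hT hF

/-- the border at which a group is left in direction `d` -/
theorem nd_imp {s l d : ℕ} (hs : s < 79) (hl : l < 47) (hd : d < 4) (h : nd s l d < 4) :
    Imp (gent (fun a b => VH a b μ F) (fun a b => VV a b μ F) P.n s l d)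
      (if nd s l d = 0 then VH (xf P.n (s + 1)) (yf P.n l) μ F
        else if nd s l d = 1 then VH (xf P.n s) (yf P.n l) μ F
        else if nd s l d = 2 then VV (xf P.n s) (yf P.n (l + 1)) μ F
        else VV (xf P.n s) (yf P.n l) μ F) := by
  have hn := P.pos
  cases hb : bigS s with
  | true =>
    unfold nd at h ⊢
    rw [hb] at h ⊢
    simp only [cond_true] at h ⊢
    obtain ⟨h1, h2⟩ := cond_lt h
    rw [h2]
    simp only [Bool.and_eq_true] at h1
    obtain ⟨h3, h4, h5, h6⟩ := h1
    have h3 := bne_false h3
    have h4 := bne_false h4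
    have h5 := blt_of h5
    have h6 := Nat.eq_of_beq_eq_true h6
    have hx : xf P.n (s + 1) ≤ nx P.n := by
      rcases bigS_true hb with rfl | rfl | rfl <;> unfold xf nx <;> simp <;> omega
    have hk : ∀ i, xf P.n s ≤ i → i < xf P.n (s + 1) → out (kd P i (yf P.n l)) d = d := by
      intro i ha hi
      rw [kd_big P hb hl h3 h4 ha hi, h6]
    have hd2 : d = 0 ∨ d = 1 := by omega
    rcases hd2 with rfl | rfl
    · simp only [gent, if_true]
      exact run0 hT hF (yf_lt hl) hx xf_le hk
    · simp only [gent]
      exact run1 hT hF (yf_lt hl) hx xf_le hk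
  | false =>
    obtain ⟨b1, b2, b3⟩ := bigS_false hb
    unfold nd at h ⊢
    rw [hb] at h ⊢
    simp only [cond_false] at h ⊢
    cases h25 : Nat.beq l 25 with
    | true =>
      obtain rfl := Nat.eq_of_beq_eq_true h25
      simp only [Nat.beq_refl, cond_true] at h ⊢
      obtain ⟨h1, h2⟩ := cond_lt h
      rw [h2]
      simp only [Bool.and_eq_true] at h1
      obtain ⟨h5, h6⟩ := h1
      have h5 := blt_not h5
      have h6 := Nat.eq_of_beq_eq_true h6
      have hk : ∀ j, yf P.n 25 ≤ j → j < yf P.n (25 + 1) → out (kd P (xf P.n s) j) d = d := by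
        intro j ha hj
        have e1 : yf P.n 25 = 25 := rfl
        have e2 : yf P.n (25 + 1) = 25 + P.n := rfl
        rw [kd_lane' P hs b1 b2 (by omega) (by omega), h6]
      have hy : yf P.n (25 + 1) ≤ ny P.n := (yf_lt (show 26 < 47 by decide)).le
      have hd2 : d = 2 ∨ d = 3 := by omega
      rcases hd2 with rfl | rfl
      · simp only [gent]
        exact run2 hT hF (xf_lt hs) hy yf_le hk
      · simp only [gent]
        exact run3 hT hF (xf_lt hs) hy yf_le hk
    | false =>
      rw [h25] at h
      simp only [cond_false] at h ⊢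
      have n25 : l ≠ 25 := by rintro rfl; exact absurd h25 (by decide)
      cases h27 : Nat.beq l 27 with
      | true =>
        obtain rfl := Nat.eq_of_beq_eq_true h27
        simp only [Nat.beq_refl, cond_true] at h ⊢
        obtain ⟨h1, h2⟩ := cond_lt h
        rw [h2]
        rw [Bool.and_eq_true] at h1
        obtain ⟨h5, h6⟩ := h1
        have h5 := blt_not h5
        have h6 := (allN_iff _ _).1 h6
        have hk : ∀ j, yf P.n 27 ≤ j → j < yf P.n (27 + 1) → out (kd P (xf P.n s) j) d = d := by
          intro j ha hj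
          have e1 : yf P.n 27 = 26 + P.n := rfl
          have e2 : yf P.n (27 + 1) = 26 + 3 * P.n := rfl
          obtain ⟨a, ha, ha2⟩ := kd_band P hs b1 b2 (show 26 + P.n ≤ j by omega) (by omega)
          rw [ha2]
          exact Nat.eq_of_beq_eq_true (h6 a ha)
        have hy : yf P.n (27 + 1) ≤ ny P.n := (yf_lt (show 28 < 47 by decide)).le
        have hd2 : d = 2 ∨ d = 3 := by omega
        rcases hd2 with rfl | rfl
        · simp only [gent]
          exact run2 hT hF (xf_lt hs) hy yf_le hk
        · simp only [gent]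
          exact run3 hT hF (xf_lt hs) hy yf_le hk
      | false =>
        rw [h27] at h
        simp only [cond_false] at h ⊢
        have n27 : l ≠ 27 := by rintro rfl; exact absurd h27 (by decide)
        have hk : kd P (xf P.n s) (yf P.n l) = kdt l s := by
          rw [kd_yf P hl n25 n27, cx_xf hn hs b1 b2]
        have hw := hT.wire (xf P.n s) (yf P.n l) d μ F (xf_lt hs) (yf_lt hl) hd hF (by rw [hk]; exact h)
        rw [hk] at hw
        have e1 := xf_succ (n := P.n) b1 b2 b3
        have e2 := yf_succ (n := P.n) n25 n27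
        have hent : gent (fun a b => VH a b μ F) (fun a b => VV a b μ F) P.n s l d =
            ent VH VV (xf P.n s) (yf P.n l) d μ F := by
          unfold gent ent
          rw [e1, e2]
          split_ifs <;> rfl
        rw [hent]
        refine hw.trans (Imp.of_eq ?_)
        unfold lea
        rw [e1, e2]
        split_ifs <;> rfl

/-- **Walks.** -/
theorem walk_imp {s' l' d' : ℕ} (f : ℕ) : ∀ s l d : ℕ, s < 79 → l < 47 → d < 4 →
    walk s' l' d' f s l d = true →
    Imp (gent (fun a b => VH a b μ F) (fun a b => VV a b μ F) P.n s l d)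
      (gent (fun a b => VH a b μ F) (fun a b => VV a b μ F) P.n s' l' d') := by
  induction f with
  | zero => intro s l d _ _ _ h; exact absurd h (by simp [walk])
  | succ f ih =>
    intro s l d hs hl hd h
    have h1 : walk s' l' d' (f + 1) s l d =
      ((Nat.beq s s' && (Nat.beq l l' && Nat.beq d d')) ||
      cond (Nat.beq (nd s l d) 0) (Nat.blt s 78 && walk s' l' d' f (Nat.add s 1) l 0)
        (cond (Nat.beq (nd s l d) 1) (Nat.blt 0 s && walk s' l' d' f (Nat.sub s 1) l 1)
          (cond (Nat.beq (nd s l d) 2) (Nat.blt l 46 && walk s' l' d' f s (Nat.add l 1) 2)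
            (cond (Nat.beq (nd s l d) 3) (Nat.blt 0 l && walk s' l' d' f s (Nat.sub l 1) 3)
              false)))) := rfl
    rw [h1, Bool.or_eq_true] at h
    rcases h with h | h
    · simp only [Bool.and_eq_true] at h
      obtain ⟨h2, h3, h4⟩ := h
      obtain rfl := Nat.eq_of_beq_eq_true h2
      obtain rfl := Nat.eq_of_beq_eq_true h3
      obtain rfl := Nat.eq_of_beq_eq_true h4
      exact Imp.refl _
    have hnd : ∀ k, k < 4 → nd s l d = k → nd s l d < 4 := fun k hk e => e ▸ hk
    cases c0 : Nat.beq (nd s l d) 0 with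
    | true =>
      rw [c0, cond_true, Bool.and_eq_true] at h
      have e := Nat.eq_of_beq_eq_true c0
      have h2 := nd_imp hT (μ := μ) hF hs hl hd (hnd 0 (by decide) e)
      rw [e] at h2
      have h3 := blt_of h.1
      refine h2.trans ?_
      have h4 := ih (s + 1) l 0 (by omega) hl (by decide) h.2
      simpa only [gent, if_true] using h4
    | false =>
      rw [c0, cond_false] at h
      cases c1 : Nat.beq (nd s l d) 1 with
      | true =>
        rw [c1, cond_true, Bool.and_eq_true] at h
        have e := Nat.eq_of_beq_eq_true c1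
        have h2 := nd_imp hT (μ := μ) hF hs hl hd (hnd 1 (by decide) e)
        rw [e] at h2
        have h3 := blt_of h.1
        refine h2.trans ?_
        have h4 := ih (s - 1) l 1 (by omega) hl (by decide) h.2
        have e3 : s - 1 + 1 = s := by omega
        refine (Imp.of_eq ?_).trans h4
        unfold gent
        rw [e3]
        rfl
      | false =>
        rw [c1, cond_false] at h
        cases c2 : Nat.beq (nd s l d) 2 with
        | true =>
          rw [c2, cond_true, Bool.and_eq_true] at h
          have e := Nat.eq_of_beq_eq_true c2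
          have h2 := nd_imp hT (μ := μ) hF hs hl hd (hnd 2 (by decide) e)
          rw [e] at h2
          have h3 := blt_of h.1
          refine h2.trans ?_
          have h4 := ih s (l + 1) 2 hs (by omega) (by decide) h.2
          refine (Imp.of_eq ?_).trans h4
          rfl
        | false =>
          rw [c2, cond_false] at h
          cases c3 : Nat.beq (nd s l d) 3 with
          | true =>
            rw [c3, cond_true, Bool.and_eq_true] at h
            have e := Nat.eq_of_beq_eq_true c3
            have h2 := nd_imp hT (μ := μ) hF hs hl hd (hnd 3 (by decide) e)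
            rw [e] at h2
            have h3 := blt_of h.1
            refine h2.trans ?_
            have h4 := ih s (l - 1) 3 hs (by omega) (by decide) h.2
            have e3 : l - 1 + 1 = l := by omega
            refine (Imp.of_eq ?_).trans h4
            unfold gent
            rw [e3]
            rfl
          | false =>
            rw [c3, cond_false] at h
            exact absurd h (by decide)

end walk

/-! ### The walks from the service columns to the services and back -/

/-- the walks to the services -/
theorem walk_to : allN (fun b => walk (enS b) (enL b) (enD b) 200 (sO b) 26 3) 17 = true := by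
  decide +kernel

/-- the walks from the services -/
theorem walk_from : allN (fun b => walk (Nat.add (sO b) 1) 27 3 200 (exS b) (exL b) (exD b)) 17 =
    true := by
  decide +kernel

/-- bounds for the tables of the services -/
theorem svc_tab : allN (fun b => Nat.blt (sO b) 50 && (Nat.blt 7 (sO b) &&
    (Nat.blt (enS b) 79 && (Nat.blt (exS b) 79 && (!bigS (enS b) && (!bigS (exS b) &&
    (Nat.blt (enL b) 47 && (Nat.blt (exL b) 47 && (Nat.blt (enD b) 4 && (Nat.blt (exD b) 4 &&
    (!Nat.beq (enL b) 25 && (!Nat.beq (enL b) 27 && (!Nat.beq (exL b) 25 &&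
      (!Nat.beq (exL b) 27)))))))))))))) 17 = true := by
  decide +kernel

end Pool.Agent.Lib.H32C.Ly
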