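import Pool.Agent.Lib.H32C.Far

/-!
# The layout of the control part: the constants of the geometry
-/

set_option autoImplicit false

namespace Pool.Agent.Lib.H32C.Ly

/-- the places of the special squares in their tiles -/
structure Offs where
  /-- the file of the shafts of the windows `N, N1, H, Z` and of the touches -/
  o : ℤ
  /-- the row of the special square of the windows `N, N1, H, Z` -/
  rN : ℤ
  /-- the row of the special square of the window `N2` (whose file is `o - 1`) -/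
  r2 : ℤ
  /-- the row of the special square of the touches -/
  rT : ℤ
  /-- the special square of the window `E` -/
  oE : ℤ
  /-- the row of the window `E` -/
  rE : ℤ
  /-- the special square of the window `W` -/
  oW : ℤ
  /-- the row of the window `W` -/
  rW : ℤ
  /-- the home of the bishop -/
  hx : ℤ
  /-- the home of the bishop -/
  hy : ℤ
  /-- the number of squares of the line of the service `Bin`, minus `192 n` -/
  m0 : ℕ

/-- bounds of the offsets -/
structure Offs.Ok (c : Offs) : Prop where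
  o : 1 ≤ c.o ∧ c.o < 64
  rN : 0 ≤ c.rN ∧ c.rN < 64
  r2 : 0 ≤ c.r2 ∧ c.r2 < 64
  rT : 0 ≤ c.rT ∧ c.rT < 128
  oE : 0 ≤ c.oE ∧ c.oE < 64
  rE : 0 ≤ c.rE ∧ c.rE < 64
  oW : 0 ≤ c.oW ∧ c.oW < 64
  rW : 0 ≤ c.rW ∧ c.rW < 64
  hx : 0 ≤ c.hx ∧ c.hx < 64
  hy : 0 ≤ c.hy ∧ c.hy < 64

/-- the rows of the special squares -/
def yw (c : Offs) (n : ℤ) : Svc → ℤ
  | Svc.N => 64 * (28 + 3 * n) + c.rN
  | Svc.N1 => 64 * (29 + 3 * n) + c.rN
  | Svc.Z Qn.C => 64 * (30 + 3 * n) + c.rN
  | Svc.H Qn.C => 64 * (32 + 3 * n) + c.rN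
  | Svc.T Qn.C => 64 * (33 + 3 * n) + c.rT
  | Svc.N2 => 64 * (33 + 3 * n) + c.r2
  | Svc.Z Qn.A => 64 * (34 + 3 * n) + c.rN
  | Svc.H Qn.A => 64 * (36 + 3 * n) + c.rN
  | Svc.T Qn.A => 64 * (37 + 3 * n) + c.rT
  | Svc.Z Qn.B => 64 * (37 + 3 * n) + c.rN
  | Svc.H Qn.B => 64 * (39 + 3 * n) + c.rN
  | Svc.T Qn.B => 64 * (40 + 3 * n) + c.rT
  | _ => 64 * (45 + 3 * n) - 1

/-- the home files of the queens -/
def colq (c : Offs) (n : ℤ) : Qn → ℤ
  | Qn.C => 64 * (30 + n) + c.o
  | Qn.A => 64 * (41 + n) + c.o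
  | Qn.B => 64 * (49 + n) + c.o

/-- the constants of the geometry -/
def geo (c : Offs) (n : ℕ) : FGeo where
  e := 64 * (26 + 3 * (n : ℤ)) + c.rE
  w := 64 * (26 + 3 * (n : ℤ)) + c.rW
  xE := 64 * (70 + 2 * (n : ℤ)) + c.oE
  xW := 64 + c.oW
  xN := 64 * (19 + (n : ℤ)) + c.o
  x1 := 64 * (22 + (n : ℤ)) + c.o
  x2 := 64 * (33 + (n : ℤ)) + c.o - 1
  col := colq c n
  j := fun _ => 320
  xD := 64 * (67 + 2 * (n : ℤ)) + c.hx
  X0 := 64 * (67 + 2 * (n : ℤ)) + c.hx + (64 * (43 + 3 * (n : ℤ)) + c.hy) + 2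
  yw := yw c n
  T := 64 * (45 + 3 * (n : ℤ)) - 1
  m := c.m0 + 192 * n

theorem geo_ok {c : Offs} (h : c.Ok) (n : ℕ) : (geo c n).Ok := by
  obtain ⟨h1, h2, h3, h4, h5, h6, h7, h8, h9, h10⟩ := h
  have hn : (0 : ℤ) ≤ n := Int.natCast_nonneg n
  refine ⟨?_, ?_, ?_, ?_, ?_, ?_, ?_, ?_, ?_, ?_, ?_, ?_, ?_, ?_, ?_, ?_, ?_, ?_, ?_, ?_, ?_⟩
  case refine_14 =>
    intro s
    cases s with
    | H q => cases q <;> simp only [geo, yw] <;> omega
    | Z q => cases q <;> simp only [geo, yw] <;> omega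
    | T q => cases q <;> simp only [geo, yw] <;> omega
    | _ => simp only [geo, yw]; omega
  case refine_15 =>
    intro s
    cases s with
    | H q => cases q <;> simp only [geo, yw] <;> omega
    | Z q => cases q <;> simp only [geo, yw] <;> omega
    | T q => cases q <;> simp only [geo, yw] <;> omega
    | _ => simp only [geo, yw]; omega
  case refine_16 =>
    intro s
    cases s with
    | H q => cases q <;> simp only [geo, yw] <;> omega
    | Z q => cases q <;> simp only [geo, yw] <;> omega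
    | T q => cases q <;> simp only [geo, yw] <;> omega
    | _ => simp only [geo, yw]; omega
  case refine_17 =>
    intro q
    cases q <;> simp only [geo, colq, FGeo.base] <;> omega
  all_goals simp only [geo, colq, FGeo.base, FGeo.c1]
  all_goals omega

end Pool.Agent.Lib.H32C.Ly
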