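import Pool.Agent.Lib.H32C.Geo
import Pool.Agent.Lib.H32C.TileA

/-!
# Arrays: cells, squares, steps
-/

set_option autoImplicit false

namespace Pool.Agent.Lib.H32C.Loc

/-- the next cell of the array in direction `t` -/
def stA (t j : Nat) : Nat :=
  Nat.sub (Nat.add j (Nat.add (Nat.mod t 20) (Nat.mul 80 (Nat.div t 20)))) 162

/-- the square of a cell of the array -/
def sqA (O : Sq) (j : Nat) : Sq := tsq O (j % 80) (j / 80)

/-- the cell `j` does not belong to the boundary of the array with `H` rows -/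
def inA (H j : Nat) : Bool :=
  Nat.ble 1 (Nat.mod j 80) && (Nat.ble (Nat.mod j 80) 78 &&
    (Nat.ble 80 j && Nat.blt (Nat.add j 80) (Nat.mul 80 H)))

/-- a cell and a code -/
structure Mo where
  /-- the cell -/
  j : Nat
  /-- the code -/
  k : Nat

/-- a tile with a resident -/
structure MT where
  /-- number of rows -/
  H : Nat
  /-- the array -/
  A : Nat
  /-- code of the resident -/
  k : Nat
  /-- stations -/
  st : List Nat

/-- the board with the resident on `q` (`0`: without the resident) -/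
def FM (T : MT) (F : Board) (O : Sq) (q : Nat) : Board := fun s =>
  if q ≠ 0 ∧ s = sqA O q then dec T.k else F s

theorem ma_stA (t j : Nat) : stA t j = j + (t % 20 + 80 * (t / 20)) - 162 := rfl

theorem ma_inA {H j : Nat} (h : inA H j = true) :
    1 ≤ j % 80 ∧ j % 80 ≤ 78 ∧ 80 ≤ j ∧ j + 80 < 80 * H := by
  unfold inA at h
  simp only [Bool.and_eq_true, Nat.ble_eq, Nat.blt] at h
  obtain ⟨h1, h2, h3, h4⟩ := h
  have e1 : Nat.mod j 80 = j % 80 := rfl
  have e2 : Nat.add j 80 = j + 80 := rfl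
  have e3 : Nat.mul 80 H = 80 * H := rfl
  rw [e1] at h1 h2
  rw [e2, e3] at h4
  omega

theorem ma_od {t : Nat} (ht : t ∈ orT ++ diT) :
    1 ≤ t % 20 ∧ t % 20 ≤ 3 ∧ 1 ≤ t / 20 ∧ t / 20 ≤ 3 ∧ (t % 20 ≠ 2 ∨ t / 20 ≠ 2) := by
  simp only [orT, diT, List.cons_append, List.nil_append, List.mem_cons, List.not_mem_nil,
    or_false] at ht
  rcases ht with rfl | rfl | rfl | rfl | rfl | rfl | rfl | rfl <;> norm_num

/-- the step is exact if the target is not on the boundary -/
theorem sqA_stA {O : Sq} {H j t : Nat} (ht : t ∈ orT ++ diT) (h : inA H (stA t j) = true) :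
    sqA O (stA t j) = sqA O j + vec t := by
  have h1 := ma_inA h
  have h2 := ma_od ht
  obtain ⟨x, hx⟩ : ∃ x, x = t % 20 := ⟨_, rfl⟩
  obtain ⟨y, hy⟩ : ∃ y, y = t / 20 := ⟨_, rfl⟩
  obtain ⟨s, hs⟩ : ∃ s, s = stA t j := ⟨_, rfl⟩
  have h3 := ma_stA t j
  rw [← hs] at h1 h3
  rw [← hx, ← hy] at h2 h3
  unfold sqA tsq vec
  rw [← hs, ← hx, ← hy]
  ext
  · simp only [Prod.fst_add]
    have : s % 80 + 2 = j % 80 + x := by omega
    omega
  · simp only [Prod.snd_add]
    have : s / 80 + 2 = j / 80 + y := by omega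
    omega

/-- a man of kind `κ` moves in the direction `u` -/
def SlK (κ : Kind) (u : Nat) : Prop :=
  κ = Kind.queen ∨ (u ∈ orT ∧ κ = Kind.rook) ∨ (u ∈ diT ∧ κ = Kind.bishop)

theorem fwe_vec {t : Nat} (ht : t ∈ orT ++ diT) :
    ((vec t).1 = -1 ∨ (vec t).1 = 0 ∨ (vec t).1 = 1) ∧
    ((vec t).2 = -1 ∨ (vec t).2 = 0 ∨ (vec t).2 = 1) := by
  have h := ma_od ht
  unfold vec
  dsimp only
  omega

theorem fwe_betw {a c d : Sq} {u : Nat} (hu : u ∈ orT ++ diT) {l k : ℕ} (ha : a = c + l • vec u)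
    (hk : 0 < k) (hkl : k < l) (hd : d = c + k • vec u) : BetwI a c d := by
  have h1 := ma_od hu
  have h2 := fwe_vec hu
  have h3 : (vec u).1 ≠ 0 ∨ (vec u).2 ≠ 0 := by
    unfold vec
    dsimp only
    omega
  unfold BetwI OrthI
  rw [ha, hd, add_nsmul_fst, add_nsmul_snd, add_nsmul_fst, add_nsmul_snd]
  obtain ⟨h4, h5⟩ := h2
  clear h1 hu ha hd
  generalize (vec u).1 = v1 at *
  generalize (vec u).2 = v2 at *
  rcases h4 with h4 | h4 | h4 <;> rcases h5 with h5 | h5 | h5 <;> subst h4 <;> subst h5 <;> omega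

end Pool.Agent.Lib.H32C.Loc
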