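import Pool.Agent.Lib.H32C.Loc

/-!
# Certificates with events on rays

`chkA` extends `chk`: at most `na` times an *event* may take place: a Black move outside of the patch after
which a far slider attacks along a ray whose mark (`7`) is seen by the White king (it arrives on the ray, or
a piece standing on the ray leaves), or (if `lv`) a Black slider of the patch may leave it along a ray.
An event on the ray with mark on `e` is coded as the move `e → e`, a departure of the piece on `j` along
this ray as `e → j`.  The exits are given by a list of lists, indexed by the number of events still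
allowed.
-/

set_option autoImplicit false

namespace Pool.Agent.Lib.H32C.Loc

/-- Parameters: `lv`: Black sliders may leave the patch along rays; `dead`: the marks of the rays on which no
event is possible; `fin`: when no further event is allowed, then no event is possible -/
structure Par where
  /-- departures are allowed -/
  lv : Bool
  /-- the marks of the rays without events -/
  dead : List Nat
  /-- events are impossible at level `0` -/
  fin : Bool

/-- membership in a list -/
def memb (x : Nat) (L : List Nat) : Bool := List.rec false (fun y _ ih => Nat.beq x y || ih) L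

/-- the mark of the ray on `e` is changed from `7` to `8` -/
def arr' (p e : Nat) : Nat := Nat.xor p (Nat.shiftLeft 15 (Nat.mul 4 e))

/-- the king on `k` sees the mark `7` of the ray `ρ` -/
def see7 (p k : Nat) (ρ : Ray) : Bool := Nat.beq (cell p ρ.e) 7 && Nat.beq (first p ρ.t 20 k) ρ.e

/-- events on rays -/
def arrL (P : Par) (R : List Ray) (na p k : Nat) (L : List Nat) : List Nat :=
  List.rec L (fun ρ _ ih => cond (see7 p k ρ && !memb ρ.e P.dead)
    (cond (Nat.beq na 0) (cond P.fin ih (0 :: ih)) (enc ρ.e ρ.e :: ih)) ih) R

/-- the mask of the Black sliders attacking along the step `t` -/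
def slM (t : Nat) : Nat := cond (aO fun u => !Nat.beq u t) 0x2800 0x3000

/-- the patch without the piece on `j` -/
def del (p j : Nat) : Nat := Nat.xor p (Nat.shiftLeft (cell p j) (Nat.mul 4 j))

/-- departures along rays -/
def outL (P : Par) (R : List Ray) (na p k : Nat) (L : List Nat) : List Nat :=
  List.rec L (fun ρ _ ih => cond (Nat.beq (cell p ρ.e) 7 &&
      msk (slM ρ.t) (cell p (first p (Nat.sub 84 ρ.t) 20 ρ.e)))
    (cond (safe R (del p (first p (Nat.sub 84 ρ.t) 20 ρ.e)) k) ih
      (cond (P.lv && (Nat.blt 0 na && (Nat.beq (cell p (first p (Nat.sub 84 ρ.t) 20 ρ.e)) ρ.k &&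
          !memb ρ.e P.dead)))
        (enc ρ.e (first p (Nat.sub 84 ρ.t) 20 ρ.e) :: ih) (0 :: ih))) ih) R

/-- there is a ray with mark `7` -/
def has7 (R : List Ray) (p : Nat) : Bool :=
  List.rec false (fun ρ _ ih => Nat.beq (cell p ρ.e) 7 || ih) R

/-- The Black slider with code `c` on the cell `i` has no line into the unknown. -/
def closed1 (R : List Ray) (p c i : Nat) : Bool :=
  (!msk 0x3000 c || aO fun t => !Nat.beq (fcode R p t i) 15) &&
    (!msk 0x2800 c || aD fun t => !Nat.beq (fcode R p t i) 15)

/-- No piece with a code in the mask `m` on a cell below `n` has a line into the unknown. -/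
def closedX (R : List Ray) (p m : Nat) (n : Nat) : Bool :=
  Nat.rec true (fun i ih => ih && (!msk m (cell p i) || closed1 R p (cell p i) i)) n

/-- the mask of the sliders which may cross a ray with step `t` -/
def xM (t : Nat) : Nat := cond (aO fun u => !Nat.beq u t) 0x2800 0x2000

/-- the sliders which may cross a ray seen by the king -/
def seenM (R : List Ray) (p k : Nat) : Nat :=
  List.rec 0 (fun ρ _ ih => cond (see7 p k ρ) (Nat.lor (xM ρ.t) ih) ih) R

/-- Black moves, events and departures to be dealt with -/
def checksA (P : Par) (R : List Ray) (na p k : Nat) : List Nat :=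
  cond (has7 R p)
    (cond (Nat.beq (seenM R p k) 0 || closedX R p (seenM R p k) 400)
      (arrL P R na p k (outL P R na p k (checks R true p k))) [0])
    (checks R false p k)

/-- the patch after a Black move, event or departure -/
def mvA (R : List Ray) (p a b : Nat) : Nat :=
  cond (Nat.beq (cell p a) 7)
    (cond (Nat.beq a b) (arr' p a)
      (arr' (Nat.xor p (Nat.shiftLeft (farK R a) (Nat.mul 4 b))) a))
    (mvb R p a b)

/-- the number of events allowed after the move -/
def naA (na p a : Nat) : Nat := cond (Nat.beq (cell p a) 7) (Nat.sub na 1) na

/-- element of a list of lists -/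
def nthL (X : List (List Nat)) : Nat → List Nat := List.rec (fun _ => [])
  (fun x _ ih i => Nat.rec x (fun j _ => ih j) i) X

/-- certificates with events -/
noncomputable def chkA (P : Par) (R : List Ray) (X : List (List Nat)) :
    Tr → Nat → Nat → Nat → List Nat → Bool :=
  Tr.rec (fun i na p _ _ => Nat.beq (nth (nthL X na) i) p)
    (fun _ p k L => List.rec true
      (fun m _ ihL => Nat.blt 0 m &&
        (safe R (mvA R p (Nat.div m 400) (Nat.mod m 400)) k && ihL)) L)
    (fun a b _ _ ihs ihr na p k L =>
      List.rec false
        (fun m L' ihL =>
          cond (Nat.beq 0 m) false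
          (cond (safe R (mvA R p (Nat.div m 400) (Nat.mod m 400)) k) ihL
            (wOk R (mvA R p (Nat.div m 400) (Nat.mod m 400)) k a b &&
              (ihs (naA na p (Nat.div m 400))
                (mv (mvA R p (Nat.div m 400) (Nat.mod m 400)) a b) (newK k a b)
                (checksA P R (naA na p (Nat.div m 400))
                  (mv (mvA R p (Nat.div m 400) (Nat.mod m 400)) a b) (newK k a b)) &&
              ihr na p k L')))) L)

end Pool.Agent.Lib.H32C.Loc
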