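import Pool.Agent.Lib.H32C.LayT

/-!
# Facts about the tables, checked by the kernel
-/

set_option autoImplicit false

namespace Pool.Agent.Lib.H32C.Ly

/-- the kinds of tiles at the outer border of the world -/
def borderK : List ℕ := [0, 1, 33, 39, 40]

/-- the kinds of tiles with tracks, except `WB` and the tiles of the device `D` -/
def kingK (k : ℕ) : Bool := (Nat.blt 1 k && Nat.blt k 18) || ((Nat.blt 19 k && Nat.blt k 29) ||
  (Nat.beq k 30 || Nat.beq k 32))

/-- table facts on the kinds with tracks -/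
def kck : Bool := (allN (fun r => allN (fun c => !kingK (kdt r c) ||
  ((!Nat.beq c 69 || Nat.blt r 9) && ((!(Nat.blt 69 c && Nat.blt c 74) || (Nat.blt r 31 || Nat.blt 46 r)) &&
    ((!Nat.beq c 74 || Nat.blt r 9) &&
    (!(Nat.blt 74 c && Nat.blt c 79) || (Nat.blt r 23 || (Nat.beq c 77 && Nat.beq r 23))))))) 83) 85) &&
  borderK.all fun k => !kingK k

theorem kck_true : kck = true := by decide +kernel

/-- above the lower tiles of composites -/
def upk : Bool := allN (fun k => (!vtb 24 k || Nat.beq k 23) && (!vtb 22 k || Nat.beq k 21)) 42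

theorem upk_true : upk = true := by decide +kernel

/-- table facts on the zone of the far pieces -/
def znk : Bool :=
  allN (fun r => Nat.blt r 28 || (Nat.blt 46 r || allN (fun q => Nat.beq (kdt r q) 1 ||
    (Nat.blt q 53 || (Nat.blt 78 q || (Nat.blt q 74 && (Nat.blt (Nat.add q r) 114 ||
      ((Nat.beq q 69 && (Nat.beq r 45 && Nat.beq (kdt r q) 35)) ||
        (Nat.beq q 68 && (Nat.beq r 46 && Nat.beq (kdt r q) 40)))))))) 83)) 85

theorem znk_true : znk = true := by decide +kernel

/-- table facts on the neighbours of empty tiles -/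
def nbk : Bool := allN (fun k =>
  (!htb k 1 || (Nat.beq k 0 || (Nat.beq k 1 || (Nat.beq k 29 || (Nat.beq k 31 || (Nat.beq k 35 ||
    (Nat.beq k 36 || Nat.beq k 40))))))) &&
  ((!htb 1 k || (Nat.beq k 0 || (Nat.beq k 1 || Nat.beq k 29))) &&
  ((!vtb k 1 || (Nat.beq k 0 || (Nat.beq k 1 || (Nat.beq k 29 || (Nat.beq k 34 || (Nat.beq k 35 ||
    Nat.beq k 41)))))) &&
  ((!vtb 1 k || Nat.beq k 1) && ((!htb 35 k || Nat.beq k 1) && ((!htb 40 k || Nat.beq k 1) &&
    (!vtb 35 k || Nat.beq k 1))))))) 42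

theorem nbk_true : nbk = true := by decide +kernel

/-- table facts on the outer border -/
def obk : Bool :=
  (allN (fun r => Nat.beq r 27 || (Nat.beq (kdt r 78) 0 || Nat.beq (kdt r 78) 1)) 85) &&
    ((allN (fun r => Nat.beq r 27 || (Nat.beq (kdt r 0) 0 || (Nat.beq (kdt r 0) 1 ||
      (Nat.beq (kdt r 0) 33 || Nat.beq (kdt r 0) 39)))) 85) &&
    allN (fun q => Nat.beq (kdt 46 q) 0 || (Nat.beq (kdt 46 q) 1 || Nat.beq (kdt 46 q) 40)) 83)

theorem obk_true : obk = true := by decide +kernel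

/-- positions of kinds which occur once: kind, row, column of the table -/
def UQ : List (ℕ × ℕ × ℕ) := [(26, 35, 34), (30, 28, 72), (31, 28, 73), (32, 28, 1), (33, 28, 0),
  (34, 23, 76), (35, 45, 69), (36, 44, 69), (37, 43, 69), (38, 42, 69), (40, 46, 68), (41, 36, 34)]

/-- table facts on the positions -/
def uqk : Bool := allN (fun r => allN (fun q => UQ.all fun a =>
  !Nat.beq (kdt r q) a.1 || (Nat.beq r a.2.1 && Nat.beq q a.2.2)) 83) 85

theorem uqk_true : uqk = true := by decide +kernel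

/-- table facts on the tiles above windows -/
def abk : Bool := allN (fun k =>
  (!vtb 25 k || (Nat.beq k 28 || Nat.beq k 29)) && ((!vtb 26 k || Nat.beq k 41) &&
  ((!vtb 28 k || Nat.beq k 27) && ((!vtb 27 k || Nat.beq k 29) &&
  ((!vtb 29 k || (Nat.beq k 1 || Nat.beq k 29)) && ((!vtb 41 k || Nat.beq k 1) &&
    (!vtb 1 k || Nat.beq k 1))))))) 42

theorem abk_true : abk = true := by decide +kernel

/-- positions of further kinds -/
def svp : Bool := allN (fun r => allN (fun q =>
  (!Nat.beq (kdt r q) 29 || (Nat.blt 30 r && Nat.blt r 47))) 83) 85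

theorem svp_true : svp = true := by decide +kernel

/-- table facts -/
def dgk : Bool :=
  allN (fun r => Nat.beq r 27 || ((Nat.blt 23 r || (!Nat.beq (kdt r 75) 1 && !Nat.beq (kdt r 76) 1)) &&
    ((Nat.blt r 24 || (Nat.beq (kdt r 75) 1 && (Nat.beq (kdt r 76) 1 && Nat.beq (kdt r 74) 1))) &&
    (Nat.blt r 28 || (Nat.blt 45 r || allN (fun q => Nat.blt q 70 || (Nat.blt (Nat.add q r) 114 ||
      (Nat.blt 115 (Nat.add q r) || Nat.beq (kdt r q) 1))) 74))))) 85 &&
  (allN (fun r => allN (fun q => !Nat.beq (kdt r q) 29 || (Nat.blt q 52 && !Nat.beq q 6)) 83) 85 &&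
  (Nat.beq (kdt 23 75) 0 && (Nat.beq (kdt 23 76) 34 && (Nat.beq (kdt 42 69) 38 &&
  (Nat.beq (kdt 43 69) 37 && (Nat.beq (kdt 44 69) 36 && Nat.beq (kdt 45 69) 35))))))

theorem dgk_true : dgk = true := by decide +kernel

end Pool.Agent.Lib.H32C.Ly
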