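import Pool.Agent.Lib.H32C.LayB
import Pool.Agent.Lib.H32C.LocK
import Pool.Agent.Lib.H32C.WldTb
import Pool.Agent.Lib.H32C.World

/-!
# The world of a program: the static board

`TD` contains the arrays of the kinds of tiles, and the data of the residents of tiles.
-/

set_option autoImplicit false

namespace Pool.Agent.Lib.H32C.Loc

/-- the code of a cell of the extended array of a tile is the code of its square in the world, unless it is
not specified -/
theorem World.Ok.code_eq {W : World} (h : W.Ok) {i j : Nat} (hi : i < W.nx) (hj : j < W.ny)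
    {X Y : Nat} (hX : X < 80) (hY : Y < 80) (hne : codeA (W.A i j) X Y ≠ 15) :
    W.code (64 * (i : ℤ) - 8 + (X : ℤ)) (64 * (j : ℤ) - 8 + (Y : ℤ)) = codeA (W.A i j) X Y := by
  by_cases hX1 : X < 8
  · by_cases hY1 : Y < 8 ∨ 72 ≤ Y
    · exact absurd (h.corners i j hi hj X Y hX hY (Or.inl hX1) hY1) hne
    · by_cases hi0 : i = 0
      · subst hi0
        exact absurd (h.left j hj X Y hX1 hY) hne
      · obtain ⟨i', rfl⟩ : ∃ i', i = i' + 1 := ⟨i - 1, by omega⟩
        have h1 := (h.hfit i' j hi hj X Y hX1 (by omega) (by omega)).2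
        rcases h1 with h1 | h1
        · exact absurd h1 hne
        · rw [h1]
          exact WA_code (by omega) hj (by omega) (by omega) (by omega) (by omega)
            (by push_cast; ring) rfl
  · by_cases hX2 : X < 72
    · by_cases hY1 : Y < 8
      · by_cases hj0 : j = 0
        · subst hj0
          exact absurd (h.bottom i hi X Y hX hY1) hne
        · obtain ⟨j', rfl⟩ : ∃ j', j = j' + 1 := ⟨j - 1, by omega⟩
          have h1 := (h.vfit i j' hi hj X Y hY1 (by omega) (by omega)).2
          rcases h1 with h1 | h1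
          · exact absurd h1 hne
          · rw [h1]
            exact WA_code hi (by omega) (by omega) (by omega) (by omega) (by omega) rfl
              (by push_cast; ring)
      · by_cases hY2 : Y < 72
        · exact WA_code hi hj (by omega) hX2 (by omega) hY2 rfl rfl
        · by_cases hj0 : j + 1 < W.ny
          · have h1 := (h.vfit i j hi hj0 X (Y - 72) (by omega) (by omega) (by omega)).1
            have e1 : 72 + (Y - 72) = Y := by omega
            rw [e1] at h1
            rcases h1 with h1 | h1
            · exact absurd h1 hne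
            · rw [h1]
              exact WA_code hi hj0 (by omega) (by omega) (by omega) (by omega) rfl
                (by omega)
          · have e1 : j = W.ny - 1 := by omega
            have h1 := h.top i hi X Y hX (by omega) hY
            rw [← e1] at h1
            exact absurd h1 hne
    · by_cases hY1 : Y < 8 ∨ 72 ≤ Y
      · exact absurd (h.corners i j hi hj X Y hX hY (Or.inr (by omega)) hY1) hne
      · by_cases hi0 : i + 1 < W.nx
        · have h1 := (h.hfit i j hi0 hj (X - 72) Y (by omega) (by omega) (by omega)).1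
          have e1 : 72 + (X - 72) = X := by omega
          rw [e1] at h1
          rcases h1 with h1 | h1
          · exact absurd h1 hne
          · rw [h1]
            exact WA_code hi0 hj (by omega) (by omega) (by omega) (by omega) (by omega) rfl
        · have e1 : i = W.nx - 1 := by omega
          have h1 := h.right j hj X Y (by omega) hX hY
          rw [← e1] at h1
          exact absurd h1 hne

/-- the code of a square of a tile -/
theorem World.code_in {W : World} {i j : Nat} (hi : i < W.nx) (hj : j < W.ny) {X Y : Nat}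
    (hX : 8 ≤ X) (hX2 : X < 72) (hY : 8 ≤ Y) (hY2 : Y < 72) :
    W.code (64 * (i : ℤ) - 8 + (X : ℤ)) (64 * (j : ℤ) - 8 + (Y : ℤ)) = codeA (W.A i j) X Y :=
  WA_code hi hj hX hX2 hY hY2 rfl rfl

end Pool.Agent.Lib.H32C.Loc

namespace Pool.Agent.Lib.H32C.Ly

open Loc

/-- data of the tiles -/
structure TD where
  /-- the arrays -/
  ar : ℕ → ℕ
  /-- the code of the resident of a kind (`0`: there is no resident), for `CR`, `CL`, `MEML`, `CHL` -/
  rk : ℕ → ℕ
  /-- all stations of a kind, as cells of the composite array -/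
  sts : ℕ → List ℕ
  /-- the station of the resident; for `MEML`: if the memory is not set -/
  r : ℕ → ℕ
  /-- the station of the resident of `MEML` if the memory is set -/
  m : ℕ

/-- conditions on the data -/
structure TD.Ok (D : TD) : Prop where
  hfit : ∀ a b, a < 42 → b < 42 → htb a b = true → HFit (D.ar a) (D.ar b)
  vfit : ∀ a b, a < 42 → b < 42 → vtb a b = true → VFit (D.ar a) (D.ar b)
  corners : ∀ k, k < 42 → Corners (D.ar k)
  noK : ∀ k, k < 42 → ∀ X Y : ℕ, X < 80 → Y < 80 → codeA (D.ar k) X Y ≠ 6
  /-- the Black king -/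
  bk : ∀ k, k < 42 → ∀ X Y : ℕ, 8 ≤ X → X < 72 → 8 ≤ Y → Y < 72 → codeA (D.ar k) X Y = 14 →
    k = 39 ∧ X = 28 ∧ Y = 28
  /-- the rings of the tiles at the outer border are not specified -/
  ring : ∀ k ∈ borderK, ∀ X Y : ℕ, X < 80 → Y < 80 → (X < 8 ∨ 72 ≤ X ∨ Y < 8 ∨ 72 ≤ Y) →
    codeA (D.ar k) X Y = 15

/-- the static world of a program -/
def wld (D : TD) (P : Prog) : World := ⟨nx P.n, ny P.n, fun i j => D.ar (kd P i j)⟩

/-- the table of the kinds which occur in a column or row at the outer border -/
def bord : Bool :=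
  (allN (fun r => Nat.beq r 27 || (memb (kdt r 0) borderK && memb (kdt r 78) borderK)) 85) &&
    (allN (fun c => memb (kdt 0 c) borderK && memb (kdt 46 c) borderK) 83) &&
    allN (fun r => allN (fun c => Nat.blt (kdt r c) 42) 83) 85

theorem bord_true : bord = true := by decide +kernel

theorem memb_iff {x : ℕ} {L : List ℕ} : memb x L = true ↔ x ∈ L := by
  induction L with
  | nil => exact ⟨fun h => Bool.noConfusion (show false = true from h), fun h => absurd h (by simp)⟩
  | cons y L ih =>
    have h1 : memb x (y :: L) = (Nat.beq x y || memb x L) := rfl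
    rw [h1, Bool.or_eq_true, ih, List.mem_cons, Nat.beq_eq]

/-- the room occurs once -/
def k39 : Bool := allN (fun r => allN (fun q => !Nat.beq (kdt r q) 39 ||
  (Nat.beq r 0 && Nat.beq q 0)) 83) 85

theorem k39_true : k39 = true := by decide +kernel

variable (P : Prog)

theorem kd_lt {i j : ℕ} (hi : i < nx P.n) (hj : j < ny P.n) : kd P i j < 42 := by
  have h := bord_true
  unfold bord at h
  simp only [Bool.and_eq_true] at h
  have h1 := (allN_iff _ _).1 h.2 _ (rx_lt P hj).1
  exact blt_of ((allN_iff _ _).1 h1 _ (cx_lt hi))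

theorem bord_col {i j : ℕ} (hi : i = 0 ∨ i = nx P.n - 1) (hj : j < ny P.n) :
    kd P i j ∈ borderK := by
  have h := bord_true
  unfold bord at h
  simp only [Bool.and_eq_true] at h
  have h1 := (allN_iff _ _).1 h.1.1 _ (rx_lt P hj).1
  have h2 := or_of_false h1 (beq_ne (rx_lt P hj).2)
  rw [Bool.and_eq_true] at h2
  rcases hi with rfl | rfl
  · have e : cx P.n (pm P.n j) (pt P j) 0 = 0 := cx_a (by omega)
    unfold kd
    rw [e]
    exact memb_iff.1 h2.1
  · have e : cx P.n (pm P.n j) (pt P j) (nx P.n - 1) = 78 := by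
      unfold nx
      rw [cx_e (by omega)]
      omega
    unfold kd
    rw [e]
    exact memb_iff.1 h2.2

theorem bord_row {i j : ℕ} (hj : j = 0 ∨ j = ny P.n - 1) (hi : i < nx P.n) :
    kd P i j ∈ borderK := by
  have h := bord_true
  unfold bord at h
  simp only [Bool.and_eq_true] at h
  rcases hj with rfl | rfl
  · rw [kd_a P (by omega)]
    have h1 := (allN_iff _ _).1 h.1.2 _ (cx_lt (m := 0) (t := 0) hi)
    rw [Bool.and_eq_true] at h1
    exact memb_iff.1 h1.1
  · have e : ny P.n - 1 + 2 - 3 * P.n = 46 := by unfold ny; omega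
    rw [kd_t P (by unfold ny; omega), e]
    have h1 := (allN_iff _ _).1 h.1.2 _ (cx_lt (m := 0) (t := 0) hi)
    rw [Bool.and_eq_true] at h1
    exact memb_iff.1 h1.2

/-- the room is in the corner of the world -/
theorem room_pos {i j : ℕ} (hi : i < nx P.n) (hj : j < ny P.n) (h : kd P i j = 39) :
    i = 0 ∧ j = 0 := by
  have h0 := k39_true
  unfold k39 at h0
  have h1 := (allN_iff _ _).1 ((allN_iff _ _).1 h0 _ (rx_lt P hj).1) _ (cx_lt (m := pm P.n j)
    (t := pt P j) hi)
  have h2 : Nat.beq (kdt (rx P j) (cx P.n (pm P.n j) (pt P j) i)) 39 = true := Nat.beq_eq ▸ h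
  rw [h2] at h1
  have h3 := or_of_false h1 rfl
  rw [Bool.and_eq_true] at h3
  have h4 := Nat.eq_of_beq_eq_true h3.1
  have h5 := Nat.eq_of_beq_eq_true h3.2
  constructor
  · unfold cx at h5
    split_ifs at h5 <;> omega
  · unfold rx at h4
    split_ifs at h4 <;> omega

/-- **The world satisfies the conditions of worlds.** -/
theorem wld_ok {D : TD} (hD : D.Ok) : (wld D P).Ok where
  hfit i j hi hj := hD.hfit _ _ (kd_lt P (by simp only [wld] at hi; omega) hj) (kd_lt P hi hj) (hadj P hi hj)
  vfit i j hi hj := hD.vfit _ _ (kd_lt P hi (by simp only [wld] at hj; omega)) (kd_lt P hi hj) (vadj P hi hj)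
  corners _ _ hi hj := hD.corners _ (kd_lt P hi hj)
  left j hj X Y hX hY := hD.ring _ (bord_col P (Or.inl rfl) hj) X Y (by omega) hY (Or.inl hX)
  right j hj X Y hX hX2 hY :=
    hD.ring _ (bord_col P (Or.inr rfl) hj) X Y hX2 hY (Or.inr (Or.inl hX))
  bottom i hi X Y hX hY :=
    hD.ring _ (bord_row P (Or.inl rfl) hi) X Y hX (by omega) (Or.inr (Or.inr (Or.inl hY)))
  top i hi X Y hX hY hY2 :=
    hD.ring _ (bord_row P (Or.inr rfl) hi) X Y hX hY2 (Or.inr (Or.inr (Or.inr hY)))
  noK _ _ hi hj := hD.noK _ (kd_lt P hi hj)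
  bk _ _ hi hj X Y h1 h2 h3 h4 h5 := by
    obtain ⟨g1, g2, g3⟩ := hD.bk _ (kd_lt P hi hj) X Y h1 h2 h3 h4 h5
    obtain ⟨g4, g5⟩ := room_pos P hi hj g1
    exact ⟨g4, g5, g2, g3⟩

end Pool.Agent.Lib.H32C.Ly
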