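import Pool.Agent.Lib.H32C.FarGlue
import Pool.Agent.Lib.H32C.LayC
import Pool.Agent.Lib.H32C.LayG
import Pool.Agent.Lib.H32C.MemDf
import Pool.Agent.Lib.H32C.WldA

/-!
# The world of a program: residents and far pieces, and the surroundings of the tiles
-/

set_option autoImplicit false

namespace Pool.Agent.Lib.H32C.Ly

open Loc

/-! ### Where the king travels -/

/-- table facts on the kinds with tracks, unfolded -/
theorem king_tab {r c : ℕ} (hr : r < 85) (hc : c < 83) (h : kingK (kdt r c) = true) :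
    (c = 69 → r < 9) ∧ (69 < c → c < 74 → r < 31 ∨ 46 < r) ∧ (c = 74 → r < 9) ∧
      (74 < c → c < 79 → r < 23 ∨ (c = 77 ∧ r = 23)) := by
  have h1 := kck_true
  unfold kck at h1
  rw [Bool.and_eq_true] at h1
  have h2 := (allN_iff _ _).1 ((allN_iff _ _).1 h1.1 r hr) c hc
  rw [h, Bool.not_true, Bool.false_or] at h2
  simp only [Bool.and_eq_true, Bool.or_eq_true] at h2
  obtain ⟨h3, h4, h5, h6⟩ := h2
  have e1 : ∀ {a b : ℕ}, a < b → Nat.blt a b = true := fun h => Nat.ble_eq_true_of_le h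
  refine ⟨?_, ?_, ?_, ?_⟩
  · rintro rfl
    rcases h3 with h3 | h3
    · exact absurd h3 (by decide)
    · exact blt_of h3
  · intro g1 g2
    rcases h4 with h4 | h4 | h4
    · rw [e1 g1, e1 g2] at h4; exact absurd h4 (by decide)
    · exact Or.inl (blt_of h4)
    · exact Or.inr (blt_of h4)
  · rintro rfl
    rcases h5 with h5 | h5
    · exact absurd h5 (by decide)
    · exact blt_of h5
  · intro g1 g2
    rcases h6 with h6 | h6 | ⟨h6, h7⟩
    · rw [e1 g1, e1 g2] at h6; exact absurd h6 (by decide)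
    · exact Or.inl (blt_of h6)
    · exact Or.inr ⟨Nat.eq_of_beq_eq_true h6, Nat.eq_of_beq_eq_true h7⟩

variable (P : Prog)

theorem king_border {k : ℕ} (h : kingK k = true) : k ∉ borderK := by
  intro hk
  have h1 := kck_true
  unfold kck at h1
  rw [Bool.and_eq_true] at h1
  have h2 := List.all_eq_true.1 h1.2 _ hk
  rw [h] at h2
  exact absurd h2 (by decide)

/-- **Positions of the tiles with tracks.** -/
theorem king_pos {i j : ℕ} (hi : i < nx P.n) (hj : j < ny P.n) (h : kingK (kd P i j) = true) :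
    1 ≤ i ∧ i + 1 < nx P.n ∧ 1 ≤ j ∧ j + 1 < ny P.n ∧
      (i < 67 + 2 * P.n ∨ (67 + 2 * P.n ≤ i ∧ i < 72 + 2 * P.n ∧ j ≤ 28 + 3 * P.n) ∨
        (72 + 2 * P.n ≤ i ∧ i < 86 + 5 * P.n ∧ j ≤ 8) ∨ (86 + 5 * P.n ≤ i ∧ j ≤ 22) ∨
        (i = 88 + 5 * P.n ∧ j = 23)) := by
  have hb := king_border h
  have c1 : i ≠ 0 := fun e => hb (bord_col P (Or.inl e) hj)
  have c2 : i ≠ nx P.n - 1 := fun e => hb (bord_col P (Or.inr e) hj)
  have c3 : j ≠ 0 := fun e => hb (bord_row P (Or.inl e) hi)
  have c4 : j ≠ ny P.n - 1 := fun e => hb (bord_row P (Or.inr e) hi)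
  have hr := rx_lt P hj
  have hc := cx_lt (m := pm P.n j) (t := pt P j) hi
  obtain ⟨t1, t2, t3, t4⟩ := king_tab hr.1 hc h
  have hrx : ∀ k, rx P j < k → k ≤ 31 → 9 ≤ k → j + 1 ≤ k - 2 + 3 * P.n ∨ (j < k ∧ j < 27) := by
    intro k h1 h2 h3
    unfold rx at h1
    split_ifs at h1 <;> omega
  refine ⟨by omega, by omega, by omega, by omega, ?_⟩
  unfold nx at hi
  unfold ny at hj
  rcases Nat.lt_or_ge i (67 + 2 * P.n) with h1 | h1
  · exact Or.inl h1
  right
  rcases Nat.lt_or_ge i (72 + 2 * P.n) with h2 | h2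
  · left
    rw [cx_d (by omega) h2] at t1 t2
    refine ⟨h1, h2, ?_⟩
    rcases Nat.eq_or_lt_of_le h1 with h0 | h0
    · have h3 := t1 (by omega)
      unfold rx at h3
      split_ifs at h3 <;> omega
    · rcases t2 (by omega) (by omega) with h3 | h3
      · unfold rx at h3
        split_ifs at h3 <;> omega
      · unfold rx at h3
        split_ifs at h3 <;> omega
  right
  rcases Nat.lt_or_ge i (86 + 5 * P.n) with h3 | h3
  · left
    rw [cx_g h2 h3] at t3
    have h4 := t3 rfl
    refine ⟨h2, h3, ?_⟩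
    unfold rx at h4
    split_ifs at h4 <;> omega
  right
  rw [cx_e h3] at t4
  have h4 := t4 (by omega) (by omega)
  rcases h4 with h4 | ⟨h4, h5⟩
  · left
    refine ⟨h3, ?_⟩
    unfold rx at h4
    split_ifs at h4 <;> omega
  · right
    refine ⟨by omega, ?_⟩
    unfold rx at h5
    split_ifs at h5 <;> omega

/-- further bounds of the offsets -/
structure Offs.Ok2 (c : Offs) : Prop extends c.Ok where
  rE8 : 8 ≤ c.rE
  rW8 : 8 ≤ c.rW
  hx1 : 10 ≤ c.hx
  hx2 : c.hx < 56
  hxy : 69 ≤ c.hx + c.hy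
  m1 : (c.m0 : ℤ) + c.hx ≤ 1333
  m2 : (c.m0 : ℤ) ≤ 1272 + c.hy

/-- **The far pieces are away from the tiles with tracks.** -/
theorem king_far {c : Offs} (hc : c.Ok2) {i j : ℕ} (hi : i < nx P.n) (hj : j < ny P.n)
    (h : kingK (kd P i j) = true) {X Y : ℕ} (hX : X < 80) (hY : Y < 80)
    (hcor : ¬ ((X < 8 ∨ 72 ≤ X) ∧ (Y < 8 ∨ 72 ≤ Y))) {F : Far} (hF : FarOk (geo c P.n) F) :
    ¬ Occ (geo c P.n) F (tsq (World.org i j) X Y) := by
  have hG := geo_ok hc.toOk P.n
  obtain ⟨k1, k2, k3, k4, k5⟩ := king_pos P hi hj h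
  obtain ⟨⟨f1, f2, f3, f4⟩, f5⟩ := hF
  have e1 : (tsq (World.org i j) X Y).1 = 64 * (i : ℤ) - 8 + X := rfl
  have e2 : (tsq (World.org i j) X Y).2 = 64 * (j : ℤ) - 8 + Y := rfl
  obtain ⟨o1, o2, o3, o4, o5, o6, o7, o8, o9, o10⟩ := hc.toOk
  have o11 := hc.rE8
  have o12 := hc.rW8
  have o13 := hc.hx1
  have o14 := hc.hx2
  have o15 := hc.hxy
  have o16 := hc.m1
  have o17 := hc.m2
  unfold nx at k2
  unfold ny at k4
  -- rows below the top
  have hT : (tsq (World.org i j) X Y).2 < (geo c P.n).T + 3 := by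
    rw [e2]
    simp only [geo]
    omega
  rintro (h1 | h1 | ⟨q, h1⟩)
  · have := floater_above hG h1
    omega
  · have hb : ∀ x : ℕ, x ≤ 2 → tsq (World.org i j) X Y ≠ (geo c P.n).sw x := by
      intro x hx e
      have g1 := congrArg Prod.fst e
      have g2 := congrArg Prod.snd e
      simp only [FGeo.sw, geo] at g1 g2
      rw [e1] at g1
      rw [e2] at g2
      omega
    have hse : ∀ x : ℕ, x ≤ (geo c P.n).m → tsq (World.org i j) X Y ≠ (geo c P.n).se x := by
      intro x hx e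
      have g1 := congrArg Prod.fst e
      have g2 := congrArg Prod.snd e
      simp only [FGeo.se, geo] at g1 g2 hx
      rw [e1] at g1
      rw [e2] at g2
      omega
    rcases f5 with (f5 | ⟨x, f6, f5⟩) | ⟨x, f6, f7, f5⟩
    · refine hb 0 (by omega) ?_
      rw [h1, f5]
      simp [FGeo.hb, FGeo.sw]
    · rw [f5] at h1
      have g1 := congrArg Prod.fst h1
      have g2 := congrArg Prod.snd h1
      simp only [FGeo.out, geo] at g1 g2
      rw [e1] at g1
      rw [e2] at g2
      omega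
    · exact hse x f7 (by rw [h1, f5])
  · have h2 := f3 q
    rw [← h1] at h2
    unfold FGeo.Outside at h2
    rw [e1, e2] at h2
    rw [e2] at hT
    simp only [geo, FGeo.c1, colq] at h2 hT
    omega

/-! ### Residents -/

/-- the station of the resident of a tile -/
def stn (D : TD) (μ : Option ℕ) (i j : ℕ) : ℕ :=
  if kd P i j = 24 ∧ μ = some (bm P.n j) then D.m else D.r (kd P i j)

/-- a resident with code `k` stands on `s`; its tile is not `x` -/
def Res (D : TD) (μ : Option ℕ) (x : Option (ℕ × ℕ)) (k : ℕ) (s : Sq) : Prop :=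
  ∃ i j, i < nx P.n ∧ j < ny P.n ∧ D.rk (kd P i j) = k ∧ x ≠ some (i, j) ∧
    s = sqA (World.org i j) (stn P D μ i j)

open Classical in
/-- the static board with the residents -/
noncomputable def resB (D : TD) (μ : Option ℕ) (x : Option (ℕ × ℕ)) : Board := fun s =>
  if Res P D μ x 11 s then some (false, Kind.bishop)
  else if Res P D μ x 12 s then some (false, Kind.rook)
  else (wld D P).board s

/-- the board with residents and far pieces -/
noncomputable def FB (c : Offs) (D : TD) (μ : Option ℕ) (x : Option (ℕ × ℕ)) (F : Far) : Board :=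
  fullB (geo c P.n) (resB P D μ x) F

/-- conditions on the data of the residents -/
structure TD.Ok2 (D : TD) : Prop extends D.Ok where
  rk : ∀ k, D.rk k ≠ 0 → k = 14 ∨ k = 15 ∨ k = 22 ∨ k = 24
  rk2 : ∀ k, D.rk k = 0 ∨ D.rk k = 11 ∨ D.rk k = 12
  r : ∀ k, D.rk k ≠ 0 → D.r k ∈ D.sts k
  m : D.m ∈ D.sts 24
  st : ∀ k, D.rk k ≠ 0 → ∀ q ∈ D.sts k, 8 ≤ q % 80 ∧ q % 80 < 72 ∧ 8 ≤ q / 80 ∧
    (q / 80 < 72 → codeA (D.ar k) (q % 80) (q / 80) = 15) ∧
    (72 ≤ q / 80 → (k = 22 ∨ k = 24) ∧ q / 80 < 136 ∧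
      codeA (D.ar (k - 1)) (q % 80) (q / 80 - 64) = 15)

theorem kd_above {k : ℕ} {i j : ℕ} (hi : i < nx P.n) (hj : j < ny P.n) (h : kd P i j = k)
    (hk : k = 22 ∨ k = 24) : j + 1 < ny P.n ∧ kd P i (j + 1) = k - 1 := by
  have h1 : j + 1 < ny P.n := by
    have hb : kingK (kd P i j) = true := by
      rw [h]; rcases hk with rfl | rfl <;> decide
    exact (king_pos P hi hj hb).2.2.2.1
  refine ⟨h1, ?_⟩
  have h2 := vadj P hi h1
  have h3 := (allN_iff _ _).1 upk_true (kd P i (j + 1)) (kd_lt P hi h1)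
  rw [Bool.and_eq_true] at h3
  rw [h] at h2
  rcases hk with rfl | rfl
  · exact Nat.eq_of_beq_eq_true (or_of_false h3.2 (by rw [h2]; rfl))
  · exact Nat.eq_of_beq_eq_true (or_of_false h3.1 (by rw [h2]; rfl))

theorem sqA_fst (O : Sq) (q : ℕ) : (sqA O q).1 = O.1 + ((q % 80 : ℕ) : ℤ) := rfl

theorem sqA_snd (O : Sq) (q : ℕ) : (sqA O q).2 = O.2 + ((q / 80 : ℕ) : ℤ) := rfl

theorem org_fst (i j : ℕ) : (World.org i j).1 = 64 * (i : ℤ) - 8 := rfl

theorem org_snd (i j : ℕ) : (World.org i j).2 = 64 * (j : ℤ) - 8 := rfl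

section res

variable {D : TD} (hD : D.Ok2)

include hD

/-- the cells of the stations are not specified -/
theorem st_code {i j : ℕ} (hi : i < nx P.n) (hj : j < ny P.n) (hk : D.rk (kd P i j) ≠ 0) {q : ℕ}
    (hq : q ∈ D.sts (kd P i j)) :
    (wld D P).code (sqA (World.org i j) q).1 (sqA (World.org i j) q).2 = 15 := by
  obtain ⟨h1, h2, h3, h4, h5⟩ := hD.st _ hk q hq
  rw [sqA_fst, sqA_snd, org_fst, org_snd]
  rcases Nat.lt_or_ge (q / 80) 72 with h6 | h6
  · exact (World.code_in (W := wld D P) hi hj h1 h2 h3 h6).trans (h4 h6)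
  · obtain ⟨h7, h8, h9⟩ := h5 h6
    obtain ⟨h10, h11⟩ := kd_above P hi hj rfl h7
    have h12 := World.code_in (W := wld D P) (i := i) (j := j + 1) hi h10 h1 h2
      (Y := q / 80 - 64) (by omega) (by omega)
    have e : 64 * ((j + 1 : ℕ) : ℤ) - 8 + ((q / 80 - 64 : ℕ) : ℤ) =
        64 * (j : ℤ) - 8 + ((q / 80 : ℕ) : ℤ) := by
      have : 64 ≤ q / 80 := by omega
      push_cast [this]
      ring
    rw [e] at h12
    rw [h12]
    change codeA (D.ar (kd P i (j + 1))) _ _ = 15
    rw [h11]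
    exact h9

/-- different residents have different stations -/
theorem st_uniq {i j i' j' : ℕ} (hi : i < nx P.n) (hj : j < ny P.n) (hk : D.rk (kd P i j) ≠ 0)
    (hi' : i' < nx P.n) (hj' : j' < ny P.n) (hk' : D.rk (kd P i' j') ≠ 0) {q q' : ℕ}
    (hq : q ∈ D.sts (kd P i j)) (hq' : q' ∈ D.sts (kd P i' j'))
    (h : sqA (World.org i j) q = sqA (World.org i' j') q') : i = i' ∧ j = j' := by
  obtain ⟨h1, h2, h3, h4, h5⟩ := hD.st _ hk q hq
  obtain ⟨h1', h2', h3', h4', h5'⟩ := hD.st _ hk' q' hq'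
  have g1 := congrArg Prod.fst h
  have g2 := congrArg Prod.snd h
  rw [sqA_fst, sqA_fst, org_fst, org_fst] at g1
  rw [sqA_snd, sqA_snd, org_snd, org_snd] at g2
  have hii : i = i' := by omega
  refine ⟨hii, ?_⟩
  subst hii
  by_contra hjj
  have key : ∀ {a b : ℕ} {qa : ℕ}, a < ny P.n → b < ny P.n → (72 ≤ qa / 80 →
      (kd P i a = 22 ∨ kd P i a = 24) ∧ qa / 80 < 136 ∧
      codeA (D.ar (kd P i a - 1)) (qa % 80) (qa / 80 - 64) = 15) → 72 ≤ qa / 80 → b = a + 1 →
      D.rk (kd P i b) ≠ 0 → False := by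
    intro a b qa ha hb k1 k2 k3 k4
    obtain ⟨m1, m2, -⟩ := k1 k2
    obtain ⟨m3, m4⟩ := kd_above P hi ha rfl m1
    subst k3
    rw [m4] at k4
    have := hD.rk _ k4
    omega
  rcases Nat.lt_or_ge j j' with h6 | h6
  · have h7 : 72 ≤ q / 80 := by omega
    have h8 : q / 80 < 136 := (h5 h7).2.1
    exact key hj hj' h5 h7 (by omega) hk'
  · have h7 : 72 ≤ q' / 80 := by omega
    have h8 : q' / 80 < 136 := (h5' h7).2.1
    exact key hj' hj h5' h7 (by omega) hk

theorem stn_mem {μ : Option ℕ} {i j : ℕ} (hk : D.rk (kd P i j) ≠ 0) :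
    stn P D μ i j ∈ D.sts (kd P i j) := by
  unfold stn
  split_ifs with h
  · rw [h.1]; exact hD.m
  · exact hD.r _ hk

/-- the squares of residents are not specified in the world -/
theorem Res.code {μ : Option ℕ} {x : Option (ℕ × ℕ)} {k : ℕ} (hk : k ≠ 0) {s : Sq}
    (h : Res P D μ x k s) : (wld D P).code s.1 s.2 = 15 := by
  obtain ⟨i, j, hi, hj, h1, -, rfl⟩ := h
  exact st_code P hD hi hj (by rw [h1]; exact hk) (stn_mem P hD (by rw [h1]; exact hk))

/-- the board with residents on specified squares -/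
theorem resB_of_code {μ : Option ℕ} {x : Option (ℕ × ℕ)} {s : Sq}
    (h : (wld D P).code s.1 s.2 ≠ 15) : resB P D μ x s = (wld D P).board s := by
  unfold resB
  rw [if_neg (fun hr => h (Res.code P hD (by decide) hr)),
    if_neg (fun hr => h (Res.code P hD (by decide) hr))]

theorem resB_noK {μ : Option ℕ} {x : Option (ℕ × ℕ)} (s : Sq) :
    NK (resB P D μ x s) s := by
  unfold resB
  split_ifs
  · exact nk_man (by decide) s
  · exact nk_man (by decide) s
  · exact ((wld_ok P hD.toOk).fits (i := 0) (j := 0) (by unfold wld nx; simp) (by unfold wld ny; simp)).noK s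

theorem FB_noK {c : Offs} {μ : Option ℕ} {x : Option (ℕ × ℕ)} {F : Far} (s : Sq) :
    NK (FB P c D μ x F s) s := by
  unfold FB fullB farB
  split_ifs
  · exact nk_man (by decide) s
  · exact nk_man (by decide) s
  · exact nk_man (by decide) s
  · exact resB_noK P hD s

/-- the corners of the array of a tile -/
theorem noncorner {i j : ℕ} (hi : i < nx P.n) (hj : j < ny P.n) {X Y : ℕ} (hX : X < 80) (hY : Y < 80)
    (h : codeA (D.ar (kd P i j)) X Y ≠ 15) : ¬ ((X < 8 ∨ 72 ≤ X) ∧ (Y < 8 ∨ 72 ≤ Y)) :=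
  fun hc => h (hD.corners _ (kd_lt P hi hj) X Y hX hY hc.1 hc.2)

/-- **The surroundings of the tiles with tracks.** -/
theorem fits_FB {c : Offs} (hc : c.Ok2) {μ : Option ℕ} {x : Option (ℕ × ℕ)} {F : Far}
    (hF : FarOk (geo c P.n) F) {i j : ℕ} (hi : i < nx P.n) (hj : j < ny P.n)
    (hk : kingK (kd P i j) = true) : Fits (D.ar (kd P i j)) (World.org i j) (FB P c D μ x F) := by
  refine ⟨fun X Y hX hY hne => ?_, FB_noK P hD⟩
  have h1 := (wld_ok P hD.toOk).code_eq (i := i) (j := j) hi hj hX hY hne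
  have h2 := king_far P hc hi hj hk hX hY (noncorner P hD hi hj hX hY hne) hF
  have e : (wld D P).code (tsq (World.org i j) X Y).1 (tsq (World.org i j) X Y).2 =
      codeA (D.ar (kd P i j)) X Y := h1
  have h3 : FB P c D μ x F (tsq (World.org i j) X Y) =
      resB P D μ x (tsq (World.org i j) X Y) := by
    unfold FB fullB farB
    unfold Occ at h2
    rw [if_neg (fun h => h2 (by obtain ⟨q, -, h⟩ := h; exact Or.inr (Or.inr ⟨q, h⟩))),
      if_neg (fun h => h2 (Or.inr (Or.inl h.2))), if_neg (fun h => h2 (Or.inl h))]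
  rw [h3, resB_of_code P hD (by rw [e]; exact hne)]
  change dec _ = _
  rw [e]

/-- the squares of the stations are empty without the resident -/
theorem FB_st {c : Offs} (hc : c.Ok2) {μ : Option ℕ} {F : Far} (hF : FarOk (geo c P.n) F)
    {i j : ℕ} (hi : i < nx P.n) (hj : j < ny P.n) (hk : D.rk (kd P i j) ≠ 0) {q : ℕ}
    (hq : q ∈ D.sts (kd P i j)) :
    ¬ Occ (geo c P.n) F (sqA (World.org i j) q) ∧
      FB P c D μ (some (i, j)) F (sqA (World.org i j) q) = none := by
  have hocc : ¬ Occ (geo c P.n) F (sqA (World.org i j) q) := by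
    obtain ⟨h1, h2, h3, h4, h5⟩ := hD.st _ hk q hq
    have hkk : kingK (kd P i j) = true := by
      rcases hD.rk _ hk with h | h | h | h <;> rw [h] <;> decide
    rcases Nat.lt_or_ge (q / 80) 72 with h6 | h6
    · exact king_far P hc hi hj hkk (X := q % 80) (Y := q / 80) (by omega) (by omega) (by omega) hF
    · obtain ⟨h7, h8, h9⟩ := h5 h6
      obtain ⟨h10, h11⟩ := kd_above P hi hj rfl h7
      have hkk2 : kingK (kd P i (j + 1)) = true := by
        rw [h11]; rcases h7 with h | h <;> rw [h] <;> decide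
      have h12 := king_far P hc hi h10 hkk2 (X := q % 80) (Y := q / 80 - 64) (by omega) (by omega)
        (by omega) hF
      have e : tsq (World.org i (j + 1)) (q % 80) (q / 80 - 64) = sqA (World.org i j) q := by
        unfold sqA tsq
        rw [org_snd, org_snd]
        have : 64 ≤ q / 80 := by omega
        refine Prod.ext rfl ?_
        simp only
        push_cast [this]
        ring
      rw [e] at h12
      exact h12
  refine ⟨hocc, ?_⟩
  have hcode := st_code P hD hi hj hk hq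
  have hno : ∀ k, k ≠ 0 → ¬ Res P D μ (some (i, j)) k (sqA (World.org i j) q) := by
    rintro k hk0 ⟨i', j', hi', hj', h1, h2, h3⟩
    have hk' : D.rk (kd P i' j') ≠ 0 := by rw [h1]; exact hk0
    obtain ⟨e1, e2⟩ := st_uniq P hD hi hj hk hi' hj' hk' hq (stn_mem P hD hk') h3
    subst e1 e2
    exact h2 rfl
  unfold FB
  rw [fullB_none]
  refine ⟨hocc, ?_⟩
  unfold resB
  rw [if_neg (hno 11 (by decide)), if_neg (hno 12 (by decide))]
  change dec ((wld D P).code _ _) = none
  rw [hcode]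
  rfl

/-- **The board with and without the resident of a tile.** -/
theorem FB_FM {c : Offs} (hc : c.Ok2) {μ : Option ℕ} {F : Far} (hF : FarOk (geo c P.n) F)
    {i j : ℕ} (hi : i < nx P.n) (hj : j < ny P.n) (hk : D.rk (kd P i j) ≠ 0) {H A : ℕ}
    {st : List ℕ} : FB P c D μ none F = FM ⟨H, A, D.rk (kd P i j), st⟩
      (FB P c D μ (some (i, j)) F) (World.org i j) (stn P D μ i j) := by
  have hq := stn_mem P hD (μ := μ) hk
  obtain ⟨hocc, hnone⟩ := FB_st P hD hc hF hi hj hk (μ := μ) hq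
  have hq0 : stn P D μ i j ≠ 0 := by
    intro h0
    have := hD.st _ hk _ hq
    rw [h0] at this
    omega
  funext s
  unfold FM
  by_cases hs : s = sqA (World.org i j) (stn P D μ i j)
  · rw [if_pos ⟨hq0, hs⟩]
    have h1 : FB P c D μ none F s = resB P D μ none s := by
      unfold FB fullB farB
      unfold Occ at hocc
      rw [← hs] at hocc
      rw [if_neg (fun h => hocc (by obtain ⟨q, -, h⟩ := h; exact Or.inr (Or.inr ⟨q, h⟩))),
        if_neg (fun h => hocc (Or.inr (Or.inl h.2))), if_neg (fun h => hocc (Or.inl h))]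
    rw [h1]
    have hres : ∀ k, k ≠ 0 → Res P D μ none k s → k = D.rk (kd P i j) := by
      rintro k hk0 ⟨i', j', hi', hj', g1, -, g3⟩
      have hk' : D.rk (kd P i' j') ≠ 0 := by rw [g1]; exact hk0
      obtain ⟨e1, e2⟩ := st_uniq P hD hi hj hk hi' hj' hk' hq (stn_mem P hD hk') (hs ▸ g3)
      subst e1 e2
      exact g1.symm
    have hown : Res P D μ none (D.rk (kd P i j)) s := ⟨i, j, hi, hj, rfl, by simp, hs⟩
    unfold resB
    rcases hD.rk2 (kd P i j) with g | g | g
    · exact absurd g hk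
    · rw [g] at hown ⊢
      rw [if_pos hown]
      rfl
    · rw [g] at hown hres ⊢
      rw [if_neg (fun h => absurd (hres 11 (by decide) h) (by decide)), if_pos hown]
      rfl
  · rw [if_neg (fun h => hs h.2)]
    have hres : ∀ k, Res P D μ none k s ↔ Res P D μ (some (i, j)) k s := by
      intro k
      constructor
      · rintro ⟨i', j', hi', hj', g1, -, g3⟩
        refine ⟨i', j', hi', hj', g1, ?_, g3⟩
        intro e
        simp only [Option.some.injEq, Prod.mk.injEq] at e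
        obtain ⟨rfl, rfl⟩ := e
        exact hs g3
      · rintro ⟨i', j', hi', hj', g1, -, g3⟩
        exact ⟨i', j', hi', hj', g1, by simp, g3⟩
    have hrB : resB P D μ none s = resB P D μ (some (i, j)) s := by
      unfold resB
      by_cases g1 : Res P D μ none 11 s
      · rw [if_pos g1, if_pos ((hres 11).1 g1)]
      · rw [if_neg g1, if_neg (fun h => g1 ((hres 11).2 h))]
        by_cases g2 : Res P D μ none 12 s
        · rw [if_pos g2, if_pos ((hres 12).1 g2)]
        · rw [if_neg g2, if_neg (fun h => g2 ((hres 12).2 h))]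
    unfold FB fullB farB
    rw [hrB]

end res

end Pool.Agent.Lib.H32C.Ly
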