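import Pool.Agent.Lib.H32C.TdBase
import Pool.Agent.Lib.H32C.WldB

/-!
# The world of a program: the positions at the borders of tiles, and the facts about tiles
-/

set_option autoImplicit false

namespace Pool.Agent.Lib.H32C.Ly

open Loc

/-! ### Ports -/

/-- the wire at the left border of a kind: `1` travelling right, `2` travelling left, `0` none -/
def lpt (k : ℕ) : ℕ := Nat.land (Nat.shiftRight
  0x10201020000000000000201020201020001010000000102010200020000000101000002010000 (Nat.mul 8 k)) 255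

/-- the wire at the right border of a kind -/
def rpt (k : ℕ) : ℕ := Nat.land (Nat.shiftRight
  0x200000000000000000001000101000000020002010001000102020000000002010000 (Nat.mul 8 k)) 255

/-- the wire at the lower border of a kind: `1` travelling up, `2` travelling down, `0` none -/
def bpt (k : ℕ) : ℕ := Nat.land (Nat.shiftRight
  0x200010001000000010102000000000002020202020101000000020002020100000000 (Nat.mul 8 k)) 255

/-- the wire at the upper border of a kind -/
def tpt (k : ℕ) : ℕ := Nat.land (Nat.shiftRight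
  0x10001000000000000020000000200020202020000020201000100020100000000 (Nat.mul 8 k)) 255

/-- the ports fit together, and fit to the wires of the tiles -/
def pck : Bool :=
  allN (fun a => allN (fun b => (!htb a b || Nat.beq (rpt a) (lpt b)) &&
    (!vtb a b || Nat.beq (tpt a) (bpt b))) 42) 42 &&
  allN (fun k =>
    (Nat.beq (out k 0) 4 || Nat.beq (lpt k) 1) && ((Nat.beq (out k 1) 4 || Nat.beq (rpt k) 2) &&
    ((Nat.beq (out k 2) 4 || Nat.beq (bpt k) 1) && ((Nat.beq (out k 3) 4 || Nat.beq (tpt k) 2) &&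
    allN (fun d => (!Nat.beq (out k d) 0 || Nat.beq (rpt k) 1) &&
      ((!Nat.beq (out k d) 1 || Nat.beq (lpt k) 2) &&
      ((!Nat.beq (out k d) 2 || Nat.beq (tpt k) 1) &&
      ((!Nat.beq (out k d) 3 || Nat.beq (bpt k) 2) &&
      ((Nat.beq (out k d) 4 || kingK k) && Nat.blt (out k d) 5))))) 4)))) 42

theorem pck_true : pck = true := by decide +kernel

theorem port_h {a b : ℕ} (ha : a < 42) (hb : b < 42) (h : htb a b = true) : rpt a = lpt b := by
  have h1 := pck_true
  unfold pck at h1
  rw [Bool.and_eq_true] at h1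
  have h2 := (allN_iff _ _).1 ((allN_iff _ _).1 h1.1 a ha) b hb
  rw [Bool.and_eq_true] at h2
  exact Nat.eq_of_beq_eq_true (or_of_false h2.1 (by rw [h]; rfl))

theorem port_v {a b : ℕ} (ha : a < 42) (hb : b < 42) (h : vtb a b = true) : tpt a = bpt b := by
  have h1 := pck_true
  unfold pck at h1
  rw [Bool.and_eq_true] at h1
  have h2 := (allN_iff _ _).1 ((allN_iff _ _).1 h1.1 a ha) b hb
  rw [Bool.and_eq_true] at h2
  exact Nat.eq_of_beq_eq_true (or_of_false h2.2 (by rw [h]; rfl))

/-- the entry ports of a kind -/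
theorem port_in {k d : ℕ} (hk : k < 42) (hd : d < 4) (h : out k d < 4) :
    (d = 0 → lpt k = 1) ∧ (d = 1 → rpt k = 2) ∧ (d = 2 → bpt k = 1) ∧ (d = 3 → tpt k = 2) := by
  have h1 := pck_true
  unfold pck at h1
  rw [Bool.and_eq_true] at h1
  have h2 := (allN_iff _ _).1 h1.2 k hk
  simp only [Bool.and_eq_true] at h2
  obtain ⟨g1, g2, g3, g4, -⟩ := h2
  refine ⟨?_, ?_, ?_, ?_⟩ <;> rintro rfl
  · exact Nat.eq_of_beq_eq_true (or_of_false g1 (beq_ne (by omega)))
  · exact Nat.eq_of_beq_eq_true (or_of_false g2 (beq_ne (by omega)))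
  · exact Nat.eq_of_beq_eq_true (or_of_false g3 (beq_ne (by omega)))
  · exact Nat.eq_of_beq_eq_true (or_of_false g4 (beq_ne (by omega)))

/-- the exit ports of a kind -/
theorem port_out {k d : ℕ} (hk : k < 42) (hd : d < 4) (h : out k d < 4) :
    (out k d = 0 → rpt k = 1) ∧ (out k d = 1 → lpt k = 2) ∧ (out k d = 2 → tpt k = 1) ∧
      (out k d = 3 → bpt k = 2) ∧ kingK k = true := by
  have h1 := pck_true
  unfold pck at h1
  rw [Bool.and_eq_true] at h1
  have h2 := (allN_iff _ _).1 h1.2 k hk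
  simp only [Bool.and_eq_true] at h2
  obtain ⟨-, -, -, -, g⟩ := h2
  have h3 := (allN_iff _ _).1 g d hd
  simp only [Bool.and_eq_true] at h3
  obtain ⟨g1, g2, g3, g4, g5, -⟩ := h3
  have e : ∀ {a b : ℕ}, a = b → (!Nat.beq a b) = false := by
    rintro a b rfl
    rw [Nat.beq_refl]
    rfl
  refine ⟨fun h0 => ?_, fun h0 => ?_, fun h0 => ?_, fun h0 => ?_, ?_⟩
  · exact Nat.eq_of_beq_eq_true (or_of_false g1 (e h0))
  · exact Nat.eq_of_beq_eq_true (or_of_false g2 (e h0))
  · exact Nat.eq_of_beq_eq_true (or_of_false g3 (e h0))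
  · exact Nat.eq_of_beq_eq_true (or_of_false g4 (e h0))
  · exact or_of_false g5 (beq_ne (by omega))

/-! ### Shifts -/

/-- shift a list of pieces -/
def shp (a b : ℕ) (L : List Pc) : List Pc := L.map fun q => ⟨q.x + a, q.y + b, q.c⟩

theorem stB_shp (F : Board) (O : Sq) (a b : ℕ) (L : List Pc) :
    stB F (O.1 + (a : ℤ), O.2 + (b : ℤ)) L = stB F O (shp a b L) := by
  funext s
  unfold stB shp
  rw [List.find?_map]
  have h : ((fun q : Pc => decide (tsq O q.x q.y = s)) ∘ fun q : Pc => ⟨q.x + a, q.y + b, q.c⟩) =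
      fun q : Pc => decide (tsq (O.1 + (a : ℤ), O.2 + (b : ℤ)) q.x q.y = s) := by
    funext q
    simp only [Function.comp, tsq]
    congr 1
    push_cast
    rw [show O.1 + ((q.x : ℤ) + a) = O.1 + a + q.x by ring,
      show O.2 + ((q.y : ℤ) + b) = O.2 + b + q.y by ring]
  rw [h]
  cases List.find? (fun q : Pc => decide (tsq (O.1 + (a : ℤ), O.2 + (b : ℤ)) q.x q.y = s)) L <;> rfl

theorem org_right (i j : ℕ) : World.org (i + 1) j =
    ((World.org i j).1 + ((64 : ℕ) : ℤ), (World.org i j).2 + ((0 : ℕ) : ℤ)) := by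
  unfold World.org
  refine Prod.ext ?_ ?_ <;> simp only <;> push_cast <;> ring

theorem org_up (i j : ℕ) : World.org i (j + 1) =
    ((World.org i j).1 + ((0 : ℕ) : ℤ), (World.org i j).2 + ((64 : ℕ) : ℤ)) := by
  unfold World.org
  refine Prod.ext ?_ ?_ <;> simp only <;> push_cast <;> ring

/-! ### Positions at the borders -/

/-- a direction -/
def dir (d : ℕ) : Dir := if d = 0 then Dir.R else if d = 1 then Dir.L else if d = 2 then Dir.U else Dir.D

variable (P : Prog) (c : Offs) (D : TD)

/-- the position at the left border of a tile -/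
noncomputable def VHp (i j : ℕ) (μ : Option ℕ) (F : Far) : Pos :=
  ⟨stB (FB P c D μ none F) (World.org i j)
    (if lpt (kd P i j) = 1 then Loc.ent Dir.R else Loc.ext Dir.L), false⟩

/-- the position at the lower border of a tile -/
noncomputable def VVp (i j : ℕ) (μ : Option ℕ) (F : Far) : Pos :=
  ⟨stB (FB P c D μ none F) (World.org i j)
    (if bpt (kd P i j) = 1 then Loc.ent Dir.U else Loc.ext Dir.D), false⟩

theorem VH_right {i j : ℕ} (hi : i + 1 < nx P.n) (hj : j < ny P.n) (μ : Option ℕ) (F : Far) :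
    VHp P c D (i + 1) j μ F = ⟨stB (FB P c D μ none F) (World.org i j)
      (if rpt (kd P i j) = 1 then Loc.ext Dir.R else Loc.ent Dir.L), false⟩ := by
  have h := port_h (kd_lt P (by omega) hj) (kd_lt P hi hj) (hadj P hi hj)
  unfold VHp
  rw [org_right, stB_shp, h]
  congr 2
  split_ifs <;> rfl

theorem VV_up {i j : ℕ} (hi : i < nx P.n) (hj : j + 1 < ny P.n) (μ : Option ℕ) (F : Far) :
    VVp P c D i (j + 1) μ F = ⟨stB (FB P c D μ none F) (World.org i j)
      (if tpt (kd P i j) = 1 then Loc.ext Dir.U else Loc.ent Dir.D), false⟩ := by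
  have h := port_v (kd_lt P hi (by omega)) (kd_lt P hi hj) (vadj P hi hj)
  unfold VVp
  rw [org_up, stB_shp, h]
  congr 2
  split_ifs <;> rfl

/-- the position at an entry border -/
theorem ent_eq {i j d : ℕ} (hi : i < nx P.n) (hj : j < ny P.n) (hd : d < 4)
    (h : out (kd P i j) d < 4) (μ : Option ℕ) (F : Far) :
    ent (VHp P c D) (VVp P c D) i j d μ F =
      ⟨stB (FB P c D μ none F) (World.org i j) (Loc.ent (dir d)), false⟩ := by
  obtain ⟨h0, h1, h2, h3⟩ := port_in (kd_lt P hi hj) hd h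
  have hk := (port_out (kd_lt P hi hj) hd h).2.2.2.2
  obtain ⟨-, k2, -, k4, -⟩ := king_pos P hi hj hk
  have hd' : d = 0 ∨ d = 1 ∨ d = 2 ∨ d = 3 := by omega
  rcases hd' with rfl | rfl | rfl | rfl
  · unfold ent VHp
    rw [if_pos rfl, if_pos (h0 rfl)]
    rfl
  · unfold ent
    rw [if_neg (by decide), if_pos rfl, VH_right P c D k2 hj, if_neg (by rw [h1 rfl]; decide)]
    rfl
  · unfold ent VVp
    rw [if_neg (by decide), if_neg (by decide), if_pos rfl, if_pos (h2 rfl)]
    rfl
  · unfold ent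
    rw [if_neg (by decide), if_neg (by decide), if_neg (by decide), VV_up P c D hi k4,
      if_neg (by rw [h3 rfl]; decide)]
    rfl

/-- the position at an exit border -/
theorem lea_eq {i j d : ℕ} (hi : i < nx P.n) (hj : j < ny P.n) (hd : d < 4)
    (h : out (kd P i j) d < 4) (μ : Option ℕ) (F : Far) :
    lea (VHp P c D) (VVp P c D) i j (out (kd P i j) d) μ F =
      ⟨stB (FB P c D μ none F) (World.org i j) (Loc.ext (dir (out (kd P i j) d))), false⟩ := by
  obtain ⟨h0, h1, h2, h3, hk⟩ := port_out (kd_lt P hi hj) hd h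
  obtain ⟨-, k2, -, k4, -⟩ := king_pos P hi hj hk
  revert h0 h1 h2 h3
  generalize out (kd P i j) d = o at h
  intro h0 h1 h2 h3
  have hd' : o = 0 ∨ o = 1 ∨ o = 2 ∨ o = 3 := by omega
  rcases hd' with rfl | rfl | rfl | rfl
  · unfold lea
    rw [if_pos rfl, VH_right P c D k2 hj, if_pos (h0 rfl)]
    rfl
  · unfold lea VHp
    rw [if_neg (by decide), if_pos rfl, if_neg (by rw [h1 rfl]; decide)]
    rfl
  · unfold lea
    rw [if_neg (by decide), if_neg (by decide), if_pos rfl, VV_up P c D hi k4, if_pos (h2 rfl)]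
    rfl
  · unfold lea VVp
    rw [if_neg (by decide), if_neg (by decide), if_neg (by decide), if_neg (by rw [h3 rfl]; decide)]
    rfl

end Pool.Agent.Lib.H32C.Ly
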