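import Pool.Agent.Lib.H32C.LayG
import Pool.Agent.Lib.H32C.MemDf
import Pool.Agent.Lib.H32C.WldA

/-!
# The conditions on the arrays of the world of a program
-/

set_option autoImplicit false

namespace Pool.Agent.Lib.H32C.Ly

open Loc

/-- The array `A` of a composite tile of two tiles (lower tile of kind `k`, upper tile of kind `k - 1`)
agrees with the arrays of its tiles, as far as it is specified. -/
def Comp (D : TD) (k A : ℕ) : Prop := ∀ X Y : ℕ, X < 80 → Y < 144 → codeA A X Y ≠ 15 →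
  (Y < 72 → codeA A X Y = codeA (D.ar k) X Y) ∧
    (72 ≤ Y → codeA A X Y = codeA (D.ar (k - 1)) X (Y - 64))

/-- the codes of pieces which do not move in direction `u` -/
def qmk (u : Nat) : Nat := cond (aO fun v => !Nat.beq v u) 0x1616 0x0e0e

/-- from the cell `j` in direction `u` the first piece does not move in this direction; `n` steps -/
def scn (H A u n : Nat) : Nat → Bool :=
  Nat.rec (fun _ => false) (fun _ ih j => inA H (stA u j) &&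
    cond (Nat.beq (cell A (stA u j)) 0) (ih (stA u j)) (msk (qmk u) (cell A (stA u j)))) n

/-- the facts about the walls -/
structure WallOk (c : Offs) (D : TD) : Prop where
  x1 : ∀ X Y : ℕ, 8 ≤ X → X < 72 → 8 ≤ Y → Y < 72 → codeA (D.ar 1) X Y = 0
  cut : ∀ k, (k = 35 ∨ k = 40) → ∀ X Y : ℕ, 8 ≤ X → X < 72 → 8 ≤ Y → Y < 72 →
    c.hx + c.hy + 18 ≤ (X : ℤ) + Y → codeA (D.ar k) X Y = 0
  corner : ∀ k, k < 42 → k ≠ 1 → ∀ X Y : ℕ, (X = 8 ∨ X = 71) → (Y = 8 ∨ Y = 71) →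
    ((k = 35 ∨ k = 40) → ¬ (X = 71 ∧ Y = 71)) → msk 0x606 (codeA (D.ar k) X Y) = true
  right : ∀ k, (k = 0 ∨ k = 29) → ∀ Y : ℕ, 8 ≤ Y → Y < 72 →
    scn 80 (D.ar k) 41 90 (72 + 80 * Y) = true ∧
      (Y < 71 → scn 80 (D.ar k) 61 90 (72 + 80 * Y) = true) ∧
      (8 < Y → scn 80 (D.ar k) 21 90 (72 + 80 * Y) = true)
  rightE : ∀ Y : ℕ, 8 ≤ Y → Y < 72 → (Y < 71 → scn 80 (D.ar 31) 61 90 (72 + 80 * Y) = true) ∧
    (8 < Y → scn 80 (D.ar 31) 21 90 (72 + 80 * Y) = true)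
  rightD : ∀ k, (k = 35 ∨ k = 36 ∨ k = 40) → ∀ Y : ℕ, 8 ≤ Y → Y < 71 →
    (k ≠ 36 → 72 + (Y : ℤ) < c.hx + c.hy + 18) → scn 80 (D.ar k) 61 90 (72 + 80 * Y) = true
  left : ∀ k, (k = 0 ∨ k = 29) → ∀ Y : ℕ, 8 ≤ Y → Y < 72 →
    scn 80 (D.ar k) 43 90 (7 + 80 * Y) = true
  left2 : ∀ k, (k = 0 ∨ k = 29 ∨ k = 33 ∨ k = 39) → ∀ Y : ℕ, 8 ≤ Y → Y < 72 →
    (Y < 71 → scn 80 (D.ar k) 63 90 (7 + 80 * Y) = true) ∧
      (8 < Y → scn 80 (D.ar k) 23 90 (7 + 80 * Y) = true)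
  top : ∀ k, (k = 0 ∨ k = 34) → ∀ X : ℕ, 8 ≤ X → X < 72 →
    scn 80 (D.ar k) 22 90 (X + 80 * 72) = true
  top2 : ∀ k, (k = 0 ∨ k = 34 ∨ k = 29 ∨ k = 41) → ∀ X : ℕ, 8 ≤ X → X < 72 →
    (8 < X → scn 80 (D.ar k) 21 90 (X + 80 * 72) = true) ∧
      (X < 71 → scn 80 (D.ar k) 23 90 (X + 80 * 72) = true)
  topD : ∀ k, (k = 35 ∨ k = 40) → ∀ X : ℕ, 8 ≤ X → X < 71 →
    72 + (X : ℤ) < c.hx + c.hy + 18 → scn 80 (D.ar k) 23 90 (X + 80 * 72) = true

/-- the codes of the other pieces -/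
def tmk (u t : Nat) : Nat :=
  cond (aO fun v => !Nat.beq v u) (cond (aO fun v => !Nat.beq v t) 0x1616 0x1e16)
    (cond (aO fun v => !Nat.beq v t) 0x1e0e 0x0e0e)

/-- from the cell `j` in direction `u` the first piece has its code in `M` and a cell with number at least `b`; or
the cells reach a cell with `X + Y ≥ s`; `n` steps -/
def scg (H A b s M u n : Nat) : Nat → Bool :=
  Nat.rec (fun _ => false) (fun _ ih j => inA H (stA u j) &&
    (Nat.ble s (Nat.add (Nat.mod (stA u j) 80) (Nat.div (stA u j) 80)) ||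
      cond (Nat.beq (cell A (stA u j)) 0) (ih (stA u j))
        (msk M (cell A (stA u j)) && Nat.ble b (stA u j)))) n

/-- from the cell `j` in direction `u` the first piece does not move in this direction, all cells up to
it have numbers at least `b`; `n` steps -/
def scb (H A b u n : Nat) : Nat → Bool :=
  Nat.rec (fun _ => false) (fun _ ih j => (inA H (stA u j) && Nat.ble b (stA u j)) &&
    cond (Nat.beq (cell A (stA u j)) 0) (ih (stA u j)) (msk (qmk u) (cell A (stA u j)))) n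

/-- The first piece from the cell `j` in direction `u` is not a White rook or queen; `n` steps. -/
def scw (H A u n : Nat) : Nat → Bool :=
  Nat.rec (fun _ => false) (fun _ ih j => inA H (stA u j) &&
    cond (Nat.beq (cell A (stA u j)) 0) (ih (stA u j)) (msk 0x7e4e (cell A (stA u j)))) n

/-- the facts about the vertical shafts; `tou` is the array of the composite tile of the touch, `xo` the file of the
shafts in the arrays -/
structure ShaftV (D : TD) (tou xo : ℕ) : Prop where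
  hx : 20 ≤ xo ∧ xo ≤ 60
  sv : ∀ Y : ℕ, 8 ≤ Y → Y < 72 →
    msk 0x600 (codeA (D.ar 29) (xo - 1) Y) = true ∧ msk 0x600 (codeA (D.ar 29) (xo + 1) Y) = true
  cl : ∀ k, (k = 27 ∨ k = 28 ∨ k = 29) → ∀ Y : ℕ, 8 ≤ Y → Y < 72 → codeA (D.ar k) xo Y = 0
  kn : ∀ k, (k = 27 ∨ k = 28 ∨ k = 29) → ∀ X Y : ℕ, xo - 2 ≤ X → X < xo + 3 → 8 ≤ Y → Y < 72 →
    codeA (D.ar k) X Y ≠ 2
  s2 : ∀ Y : ℕ, 8 ≤ Y → Y < 72 → codeA (D.ar 41) (xo - 1) Y = 0 ∧
    msk 0x600 (codeA (D.ar 41) (xo - 2) Y) = true ∧ msk 0x600 (codeA (D.ar 41) xo Y) = true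
  s2k : ∀ X Y : ℕ, xo - 3 ≤ X → X < xo + 2 → 8 ≤ Y → Y < 72 → codeA (D.ar 41) X Y ≠ 2
  comp : Comp D 28 tou
  tsc : ∀ Y : ℕ, 14 ≤ Y → Y < 136 → ∀ u ∈ [43, 41, 63, 61, 21, 23],
    (Y = 135 ∧ (u = 63 ∨ u = 61)) ∨ scg 144 tou 1040 1000 (tmk u 62) u 90 (xo + 80 * Y) = true
  tw : msk 0x606 (codeA (D.ar 27) (xo - 1) 71) = true ∧
    msk 0x606 (codeA (D.ar 27) (xo + 1) 71) = true

/-- the file of a shaft in its tile -/
def xoK (xo k : ℕ) : ℕ := if k = 41 then xo - 9 else xo - 8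

/-- facts about the array of a window with a vertical shaft -/
structure WinV (H A z : ℕ) : Prop where
  z1 : 11 ≤ z / 80 ∧ z / 80 + 11 ≤ H
  clr : ∀ Y, z / 80 ≤ Y → Y < H - 8 → codeA A (z % 80) Y = 0

/-- The special squares: `zN` in the windows of kind `25`, `z2` in the window of kind `26`, `zT` in the composite
touches, `zE` and `zW` in the windows of the kinds `30` and `32`. -/
structure Zs (c : Offs) (xo zN z2 zT zE zW : ℕ) : Prop where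
  o : c.o = (xo : ℤ) - 8
  N1 : zN % 80 = xo
  N2 : c.rN = ((zN / 80 : ℕ) : ℤ) - 8
  a1 : z2 % 80 = xo - 1
  a2 : c.r2 = ((z2 / 80 : ℕ) : ℤ) - 8
  T1 : zT % 80 = xo
  T2 : c.rT = ((zT / 80 : ℕ) : ℤ) - 8
  E1 : c.oE = ((zE % 80 : ℕ) : ℤ) - 8
  E2 : c.rE = ((zE / 80 : ℕ) : ℤ) - 8
  W1 : c.oW = ((zW % 80 : ℕ) : ℤ) - 8
  W2 : c.rW = ((zW / 80 : ℕ) : ℤ) - 8

/-- the facts about the arrays of the windows with vertical shafts -/
structure WinF (D : TD) (tou zN z2 zT : ℕ) : Prop where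
  N : WinV 80 (D.ar 25) zN
  a : WinV 80 (D.ar 26) z2
  T : WinV 144 tou zT
  bN : scw 80 (D.ar 25) 22 90 zN = true
  ba : scw 80 (D.ar 26) 22 90 z2 = true
  /-- below the special square of the windows -/
  b1 : codeA (D.ar 25) (zN % 80) (zN / 80 - 1) = 9
  b2 : msk 0x606 (codeA (D.ar 25) (zN % 80) (zN / 80 - 2)) = true
  zT1 : zT / 80 < 72

/-- facts about a horizontal shaft; `Y0` is the row of the line -/
structure ShaftH (A Y0 : ℕ) : Prop where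
  cl : ∀ X : ℕ, 8 ≤ X → X < 72 → codeA A X Y0 = 0 ∧ msk 0x600 (codeA A X (Y0 - 1)) = true ∧
    msk 0x600 (codeA A X (Y0 + 1)) = true
  kn : ∀ X Y : ℕ, 8 ≤ X → X < 72 → Y0 - 2 ≤ Y → Y ≤ Y0 + 2 → codeA A X Y ≠ 2

/-- facts about the array of a window with a horizontal shaft -/
structure WinH (A z t : ℕ) : Prop where
  z1 : 11 ≤ z % 80 ∧ z % 80 ≤ 68
  z2 : 17 ≤ z / 80 ∧ z / 80 ≤ 62
  clr : ∀ X : ℕ, 8 ≤ X → X < 72 → ((t = 43 ∧ z % 80 ≤ X) ∨ (t = 41 ∧ X ≤ z % 80)) →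
    codeA A X (z / 80) = 0
  below : scw 80 A (84 - t) 90 z = true

/-- from the cell `j` in direction `u` the first piece has its code in `M` and a cell with number below `b`; `n` steps -/
def sch (H A b M u n : Nat) : Nat → Bool :=
  Nat.rec (fun _ => false) (fun _ ih j => inA H (stA u j) &&
    cond (Nat.beq (cell A (stA u j)) 0) (ih (stA u j))
      (msk M (cell A (stA u j)) && Nat.blt (stA u j) b)) n

/-- the codes of the other pieces -/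
def bmk (u : Nat) : Nat := cond (aO fun v => !Nat.beq v u) 0x1e3e 0x0e3e

/-- facts about the file of the window below a touch -/
structure TouF (D : TD) (zN : ℕ) : Prop where
  z : zN / 80 ≤ 60
  sc : ∀ Y : ℕ, zN / 80 ≤ Y → Y < 66 → ∀ u ∈ [43, 41, 63, 61, 21, 23],
    sch 80 (D.ar 25) 5360 (bmk u) u 90 (zN % 80 + 80 * Y) = true

/-- the facts about the arrays of the windows `E` and `W` -/
structure WinE (D : TD) (zE zW : ℕ) : Prop where
  E : WinH (D.ar 30) zE 43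
  E2 : ShaftH (D.ar 31) (zE / 80)
  W : WinH (D.ar 32) zW 41
  W2 : ShaftH (D.ar 33) (zW / 80)

/-- the places of the squares of the service `Bin` and of the home `(hX, hY)` of the bishop in the composite array
of the tiles `36`, `35`; `zB` is the special square in the array `34`; `nb` is the distance of the
Black piece behind it. -/
structure Hs (c : Offs) (hX hY zB nb : ℕ) : Prop where
  x : c.hx = (hX : ℤ) - 8
  y : c.hy = (hY : ℤ) - 72
  z : zB % 80 + zB / 80 + 64 = hX + hY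
  m : c.m0 + 1 + hX = 1280 + zB % 80 + nb
  nb : 0 < nb
  s : 147 ≤ hX + hY ∧ hX + hY ≤ 202
  x10 : 10 ≤ hX
  y2 : hY ≤ 133

/-- facts about the column of the home, down to the special square `zO` of the service `Out` in the array `37` -/
structure ColF (D : TD) (tb hX hY zO : ℕ) : Prop where
  z : zO % 80 = hX ∧ 9 ≤ zO / 80 ∧ zO / 80 ≤ 60
  clr : ∀ Y : ℕ, 8 ≤ Y → Y ≤ hY → codeA tb hX Y = 0
  clr2 : ∀ Y : ℕ, zO / 80 ≤ Y → Y < 72 → codeA (D.ar 37) hX Y = 0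
  blk : msk 0x600 (codeA (D.ar 37) hX (zO / 80 - 1)) = true

/-- the directions from the sides of the line of `Bin` -/
def sdB : List Nat := [43, 62, 63, 41, 22, 21]

/-- the bound of the zone for the scans in a direction -/
def zsB (hX hY u : Nat) : Nat :=
  cond (Nat.beq u 43 || (Nat.beq u 62 || Nat.beq u 63)) (Nat.add (Nat.add hX hY) 2) 1000

/-- facts about the arrays near the line of `Bin` -/
structure BinF (D : TD) (tb hX hY zB nb zE : ℕ) : Prop where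
  comp : Comp D 36 tb
  z1 : 12 ≤ zB / 80 ∧ zB / 80 ≤ 58 ∧ 12 ≤ zB % 80 ∧ zB % 80 ≤ 60
  /-- the diagonal up to row `71` -/
  clr : ∀ t : ℕ, zB / 80 + t ≤ 71 → codeA (D.ar 34) (zB % 80 - t) (zB / 80 + t) = 0
  /-- behind the special square -/
  bclr : ∀ t : ℕ, t < nb → codeA (D.ar 34) (zB % 80 + t) (zB / 80 - t) = 0
  blk : zB % 80 + nb < 72 ∧ 8 + nb ≤ zB / 80 ∧
    msk 0x600 (codeA (D.ar 34) (zB % 80 + nb) (zB / 80 - nb)) = true
  sides : ∀ Y : ℕ, 70 ≤ Y → Y < 72 → ∀ u ∈ sdB, (Y = 71 ∧ (u = 62 ∨ u = 63)) ∨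
    scg 80 (D.ar 34) 5520 1000 (tmk u 61) u 90 (hX + hY - 64 - Y + 80 * Y) = true
  top : ∀ X : ℕ, 8 ≤ X → X < 72 → scg 80 (D.ar 34) 5520 1000 (tmk 22 61) 22 90 (X + 80 * 72) = true ∧
    (8 < X → scg 80 (D.ar 34) 5520 1000 (tmk 21 61) 21 90 (X + 80 * 72) = true)
  top0 : ∀ X : ℕ, 8 ≤ X → X < 72 → scg 80 (D.ar 0) 5520 1000 (tmk 22 61) 22 90 (X + 80 * 72) = true ∧
    (8 < X → scg 80 (D.ar 0) 5520 1000 (tmk 21 61) 21 90 (X + 80 * 72) = true)
  /-- the line in `D0` -/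
  dclr : ∀ X : ℕ, hX ≤ X → X < 72 → codeA tb X (hX + hY - X) = 0
  dsc : ∀ X : ℕ, hX ≤ X → X < 72 → ∀ u ∈ sdB, (X = 71 ∧ u = 43) ∨ (X = hX ∧ u = 22) ∨
    scg 144 tb 0 (zsB hX hY u) (tmk u 61) u 150 (X + 80 * (hX + hY - X)) = true
  /-- from the right border -/
  rt : ∀ Y : ℕ, 8 ≤ Y → Y + 72 ≤ hX + hY → scg 144 tb 0 1000 (tmk 41 61) 41 150 (72 + 80 * Y) = true ∧
    (9 ≤ Y → scg 144 tb 0 1000 (tmk 21 61) 21 150 (72 + 80 * Y) = true)
  /-- the row of the window `E` -/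
  se : ∀ Y : ℕ, 8 ≤ Y → Y < 72 → Y ≠ zE / 80 → scn 80 (D.ar 31) 41 90 (72 + 80 * Y) = true
  we : scn 80 (D.ar 30) 41 90 zE = true

/-- the jumps of knights, shifted by `(2, 2)` -/
def knL : List (ℕ × ℕ) := [(0, 1), (0, 3), (1, 0), (1, 4), (3, 0), (3, 4), (4, 1), (4, 3)]

/-- the cells from which White pieces could come to the line of `Bin` -/
structure BinG (D : TD) (tb hX hY zB nb : ℕ) : Prop where
  fblk : msk 0x600 (codeA tb (hX - 1) (hY + 1)) = true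
  fblk2 : msk 0x1616 (codeA tb (hX - 2) (hY + 2)) = true
  wp : codeA (D.ar 35) (hX - 1) (hY - 65) ≠ 1
  kn35 : ∀ X : ℕ, hX ≤ X → X < 74 → ∀ q ∈ knL, X + q.1 < 74 →
    codeA (D.ar 35) (X + q.1 - 2) (hX + hY + q.2 - (X + 66)) ≠ 2
  kn34 : ∀ Y : ℕ, 70 ≤ Y → Y < 74 → ∀ q ∈ knL, Y + q.2 < 74 →
    codeA (D.ar 34) (hX + hY + q.1 - (Y + 66)) (Y + q.2 - 2) ≠ 2
  pn35 : ∀ X : ℕ, hX ≤ X → X < 72 → codeA (D.ar 35) X (hX + hY - (X + 65)) ≠ 1
  pn34 : ∀ Y : ℕ, 70 ≤ Y → Y < 73 → codeA (D.ar 34) (hX + hY - (Y + 64)) (Y - 1) ≠ 1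

/-- the directions from the sides of the column -/
def sdO : List Nat := [43, 41, 63, 61, 21, 23]

/-- the bound of the zone -/
def zsO (hX hY u : Nat) : Nat :=
  cond (Nat.beq u 43 || Nat.beq u 63) (Nat.add (Nat.add hX hY) 2) 1000

/-- facts about the arrays near the line of `Out` -/
structure OutF (D : TD) (tb hX hY : ℕ) : Prop where
  y : 20 ≤ hY ∧ hY ≤ 130
  side : ∀ Y : ℕ, 14 ≤ Y → Y ≤ hY → ∀ u ∈ sdO, (Y = hY ∧ u = 23) ∨
    scg 144 tb 1040 (zsO hX hY u) (tmk u 62) u 150 (hX + 80 * Y) = true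
  rook : codeA tb hX (hY + 1) = 12
  res : codeA tb (hX - 1) (hY - 1) = 10
  rks : ∀ p ∈ ([(61, 62), (21, 62), (23, 62), (41, 61)] : List (ℕ × ℕ)),
    scg 144 tb 0 1000 (tmk p.1 p.2) p.1 150 (hX + 80 * (hY + 1)) = true
  kn : ∀ Y : ℕ, 14 ≤ Y → Y ≤ hY + 1 → ∀ q ∈ knL,
    (Y + q.2 < 74 → codeA (D.ar 36) (hX + q.1 - 2) (Y + q.2 - 2) ≠ 2) ∧
    (74 ≤ Y + q.2 → codeA (D.ar 35) (hX + q.1 - 2) (Y + q.2 - 66) ≠ 2)
  pw : codeA (D.ar 35) (hX - 1) (hY - 64) ≠ 1 ∧ codeA (D.ar 35) (hX + 1) (hY - 64) ≠ 1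

/-- Facts about the array `A` of `Tb`, and about the cells from which White pieces could come to the ray of the
bishop. -/
structure TbF (D : TD) (A tb hX hY : ℕ) : Prop where
  comp : Comp D 36 A
  ne : ∀ t : ℕ, hX + t < 80 → hY + t < 144 → codeA A (hX + t) (hY + t) = 15
  se : ∀ t : ℕ, hX + t < 80 → codeA A (hX + t) (hY - t) = 15
  /-- to the left of the ray -/
  wl : ∀ Y : ℕ, hY < Y → Y < 136 →
    scg 144 tb 0 1000 (tmk 41 61) 41 150 (hX + hY + 2 - Y + 80 * Y) = true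
  /-- below the ray -/
  wd : ∀ X : ℕ, hX < X → X < 72 →
    scg 144 tb 0 1000 (tmk 22 61) 22 150 (X + 80 * (hX + hY + 2 - X)) = true
  fd : ∀ X Y : ℕ, 8 ≤ X → X < 72 → 8 ≤ Y → Y < 72 → X + Y + 62 < hX + hY →
    (X = 71 ∨ X + Y + 63 = hX + hY) → scn 80 (D.ar 40) 41 90 (X + 1 + 80 * Y) = true
  kn1 : codeA (D.ar 35) (hX - 1) (hY - 64) ≠ 2
  kn2 : codeA (D.ar 35) (hX - 1) (hY - 62) ≠ 2
  kn3 : codeA (D.ar 35) (hX + 2) (hY - 65) ≠ 2
  kn4 : codeA (D.ar 35) (hX + 1) (hY - 64) ≠ 2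

end Pool.Agent.Lib.H32C.Ly
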