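import Pool.Agent.Lib.H32C.LayD
import Pool.Agent.Lib.H32C.Mem
import Pool.Agent.Lib.H32C.WldC
import Pool.Agent.Lib.H32C.WldDf

/-!
# The world of a program: the facts about tiles
-/

set_option autoImplicit false

namespace Pool.Agent.Lib.H32C.Ly

open Loc

/-- the position with the static board `F` and the state `L` -/
def ps (F : Board) (O : Sq) (L : List Pc) : Pos := ⟨stB F O L, false⟩

/-- the data of a kind with a resident -/
def mtK (D : TD) (k H A : ℕ) : MT := ⟨H, A, D.rk k, D.sts k⟩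

/-- **Facts about tiles.** `mem` and `cho` are the arrays of the composite tiles of the memory and of the
choice. -/
structure Facts (D : TD) (R : Room) (mem cho : ℕ) : Prop where
  /-- wires, corners and merges -/
  wire : ∀ k d, k < 42 → d < 4 → out k d < 4 → D.rk k = 0 → ∀ O F, Fits (D.ar k) O F →
    (∀ s ∈ TileReg O, s ∉ R.Z) → R.G F →
      Imp (ps F O (Loc.ent (dir d))) (ps F O (Loc.ext (dir (out k d))))
  /-- crossings -/
  cross : ∀ k d, k < 42 → d < 4 → out k d < 4 → D.rk k ≠ 0 → ∀ O F,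
    MBase (mtK D k 80 (D.ar k)) O F R →
      Imp (ps (FM (mtK D k 80 (D.ar k)) F O (D.r k)) O (Loc.ent (dir d)))
        (ps (FM (mtK D k 80 (D.ar k)) F O (D.r k)) O (Loc.ext (dir (out k d))))
  cmem : Comp D 24 mem
  ccho : Comp D 22 cho
  /-- a call: in at the left border of the lower tile, out at the left border of the upper tile -/
  set : ∀ O F, MBase (mtK D 24 144 mem) O F R →
    Imp (ps (FM (mtK D 24 144 mem) F O (D.r 24)) O (Loc.ent Dir.R))
      (ps (FM (mtK D 24 144 mem) F O D.m) O (shp 0 64 (Loc.ext Dir.L)))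
  /-- the return: in at the upper border, out at the right border of the lower tile -/
  ret : ∀ O F, MBase (mtK D 24 144 mem) O F R →
    Imp (ps (FM (mtK D 24 144 mem) F O D.m) O (shp 0 64 (Loc.ent Dir.D)))
      (ps (FM (mtK D 24 144 mem) F O (D.r 24)) O (Loc.ext Dir.R))
  /-- another call returns: in at the upper border, out at the lower border -/
  pass : ∀ O F, MBase (mtK D 24 144 mem) O F R →
    Imp (ps (FM (mtK D 24 144 mem) F O (D.r 24)) O (shp 0 64 (Loc.ent Dir.D)))
      (ps (FM (mtK D 24 144 mem) F O (D.r 24)) O (Loc.ext Dir.D))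
  /-- choice, upper bound -/
  cho_up : ∀ O F, MBase (mtK D 22 144 cho) O F R →
    HasValue (ps (FM (mtK D 22 144 cho) F O (D.r 22)) O (shp 0 64 (Loc.ext Dir.R))) →
    HasValue (ps (FM (mtK D 22 144 cho) F O (D.r 22)) O (Loc.ext Dir.R)) →
    HasValue (ps (FM (mtK D 22 144 cho) F O (D.r 22)) O (shp 0 64 (Loc.ent Dir.R)))
  /-- choice, lower bound -/
  cho_low : ∀ O F β, MBase (mtK D 22 144 cho) O F R →
    (GE (ps (FM (mtK D 22 144 cho) F O (D.r 22)) O (shp 0 64 (Loc.ext Dir.R))) β ∨
      GE (ps (FM (mtK D 22 144 cho) F O (D.r 22)) O (Loc.ext Dir.R)) β) →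
    ¬ ValLE (ps (FM (mtK D 22 144 cho) F O (D.r 22)) O (shp 0 64 (Loc.ent Dir.R))) β
  /-- the end -/
  halt : ∀ O F, Fits (D.ar 20) O F → (∀ s ∈ TileReg O, s ∉ R.Z) → R.G F →
    HasValue (ps F O (Loc.ent Dir.R))

/-- the residents which must exist -/
structure TD.Ok3 (D : TD) : Prop extends D.Ok2 where
  rk24 : D.rk 24 ≠ 0
  rk22 : D.rk 22 ≠ 0

/-- the mating room is in the tile `(0, 0)` -/
structure RoomOk (D : TD) (R : Room) : Prop where
  Z : ∀ s ∈ R.Z, 0 ≤ s.1 ∧ s.1 < 54 ∧ 0 ≤ s.2 ∧ s.2 < 54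
  cells : ∀ X Y : ℕ, 8 ≤ X → X < 72 → 8 ≤ Y → Y < 72 → codeA (D.ar 39) X Y ≠ 15
  G : ∀ B : Board, (∀ X Y : ℕ, 8 ≤ X → X < 72 → 8 ≤ Y → Y < 72 →
    B (tsq (World.org 0 0) X Y) = dec (codeA (D.ar 39) X Y)) → R.G B

variable (P : Prog)

section facts

variable {c : Offs} (hc : c.Ok2) {D : TD} (hD : D.Ok3) {R : Room} (hR : RoomOk D R)

theorem kd00 : kd P 0 0 = 39 := by
  have h : kdt 0 0 = 39 := by decide +kernel
  rw [kd_a P (by decide), cx_a (by decide)]
  exact h

include hc hD hR in
/-- the condition of the room -/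
theorem G_FB {μ : Option ℕ} {x : Option (ℕ × ℕ)} {F : Far} (hF : FarOk (geo c P.n) F) :
    R.G (FB P c D μ x F) := by
  refine hR.G _ fun X Y hX hX2 hY hY2 => ?_
  have h0 : 0 < nx P.n := by unfold nx; omega
  have h0' : 0 < ny P.n := by unfold ny; omega
  have hcode := World.code_in (W := wld D P) (i := 0) (j := 0) h0 h0' hX hX2 hY hY2
  have e : (wld D P).code (tsq (World.org 0 0) X Y).1 (tsq (World.org 0 0) X Y).2 =
      codeA (D.ar 39) X Y := by
    rw [← kd00 P]
    exact hcode
  have hne := hR.cells X Y hX hX2 hY hY2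
  have hocc : ¬ Occ (geo c P.n) F (tsq (World.org 0 0) X Y) := by
    have hG := geo_ok hc.toOk P.n
    obtain ⟨⟨f1, f2, f3, f4⟩, f5⟩ := hF
    have e1 : (tsq (World.org 0 0) X Y).1 = 64 * ((0 : ℕ) : ℤ) - 8 + X := rfl
    have e2 : (tsq (World.org 0 0) X Y).2 = 64 * ((0 : ℕ) : ℤ) - 8 + Y := rfl
    obtain ⟨o1, o2, o3, o4, o5, o6, o7, o8, o9, o10⟩ := hc.toOk
    have o13 := hc.hx1
    have o17 := hc.m2
    rintro (h1 | h1 | ⟨q, h1⟩)
    · have := floater_above hG h1
      rw [e2] at this
      simp only [geo] at this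
      omega
    · have g2 := congrArg Prod.snd h1
      rw [e2] at g2
      rcases f5 with (f5 | ⟨x, f6, f5⟩) | ⟨x, f6, f7, f5⟩ <;> rw [f5] at g2
      · simp only [FGeo.hb, geo] at g2; omega
      · simp only [FGeo.out, geo] at g2; omega
      · simp only [FGeo.se, geo] at g2 f7; omega
    · have h2 := f3 q
      rw [← h1] at h2
      unfold FGeo.Outside at h2
      rw [e1, e2] at h2
      simp only [geo, FGeo.c1, colq] at h2
      omega
  have h3 : FB P c D μ x F (tsq (World.org 0 0) X Y) = resB P D μ x (tsq (World.org 0 0) X Y) := by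
    unfold FB fullB farB
    unfold Occ at hocc
    rw [if_neg (fun h => hocc (by obtain ⟨q, -, h⟩ := h; exact Or.inr (Or.inr ⟨q, h⟩))),
      if_neg (fun h => hocc (Or.inr (Or.inl h.2))), if_neg (fun h => hocc (Or.inl h))]
  rw [h3, resB_of_code P hD.toOk2 (by rw [e]; exact hne)]
  change dec _ = _
  rw [e]

include hR in
/-- the region of a tile with tracks is away from the room -/
theorem reg_king {i j H : ℕ} (hi : 1 ≤ i) (hj : 1 ≤ j) :
    ∀ s ∈ TileRegH H (World.org i j), s ∉ R.Z := by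
  intro s hs hz
  obtain ⟨h1, h2, h3, h4⟩ := hs
  obtain ⟨g1, g2, g3, g4⟩ := hR.Z s hz
  rw [org_fst] at h1
  rw [org_snd] at h3
  omega

include hR in
theorem reg_king' {i j : ℕ} (hi : 1 ≤ i) (hj : 1 ≤ j) :
    ∀ s ∈ TileReg (World.org i j), s ∉ R.Z := by
  intro s hs hz
  obtain ⟨h1, h2, h3, h4⟩ := hs
  obtain ⟨g1, g2, g3, g4⟩ := hR.Z s hz
  rw [org_fst] at h1
  rw [org_snd] at h3
  omega

include hc hD hR in
/-- the surroundings of a crossing -/
theorem base_cross {μ : Option ℕ} {F : Far} (hF : FarOk (geo c P.n) F) {i j : ℕ}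
    (hi : i < nx P.n) (hj : j < ny P.n) (hk : D.rk (kd P i j) ≠ 0) :
    MBase (mtK D (kd P i j) 80 (D.ar (kd P i j))) (World.org i j)
      (FB P c D μ (some (i, j)) F) R := by
  have hkk : kingK (kd P i j) = true := by
    rcases hD.rk _ hk with h | h | h | h <;> rw [h] <;> decide
  obtain ⟨k1, -, k3, -, -⟩ := king_pos P hi hj hkk
  exact ⟨fits_FB P hD.toOk2 hc hF hi hj hkk, fun q hq => (FB_st P hD.toOk2 hc hF hi hj hk hq).2,
    reg_king hR k1 k3, G_FB P hc hD hR hF⟩

include hc hD hR in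
/-- the surroundings of a composite tile -/
theorem base_comp {μ : Option ℕ} {F : Far} (hF : FarOk (geo c P.n) F) {i j : ℕ}
    (hi : i < nx P.n) (hj : j < ny P.n) (hk : D.rk (kd P i j) ≠ 0)
    (h24 : kd P i j = 22 ∨ kd P i j = 24) {A : ℕ} (hA : Comp D (kd P i j) A) :
    MBase (mtK D (kd P i j) 144 A) (World.org i j) (FB P c D μ (some (i, j)) F) R := by
  have hkk : kingK (kd P i j) = true := by
    rcases h24 with h | h <;> rw [h] <;> decide
  obtain ⟨k1, -, k3, k4, -⟩ := king_pos P hi hj hkk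
  have hab := (kd_above P hi hj rfl h24).2
  have hkk2 : kingK (kd P i (j + 1)) = true := by
    rw [hab]; rcases h24 with h | h <;> rw [h] <;> decide
  have f1 := fits_FB P hD.toOk2 hc (μ := μ) (x := some (i, j)) hF hi hj hkk
  have f2 := fits_FB P hD.toOk2 hc (μ := μ) (x := some (i, j)) hF hi k4 hkk2
  refine ⟨⟨fun X Y hX hY hne => ?_, f1.noK⟩,
    fun q hq => (FB_st P hD.toOk2 hc hF hi hj hk hq).2, reg_king hR k1 k3, G_FB P hc hD hR hF⟩
  obtain ⟨a1, a2⟩ := hA X Y hX hY hne
  rcases Nat.lt_or_ge Y 72 with h6 | h6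
  · have e := a1 h6
    have h7 := f1.cells X Y hX (by omega) (by rw [← e]; exact hne)
    rw [← e] at h7
    exact h7
  · have e := a2 h6
    rw [← hab] at e
    change Y < 144 at hY
    have h7 := f2.cells X (Y - 64) hX (by omega) (by rw [← e]; exact hne)
    rw [← e] at h7
    have e3 : tsq (World.org i (j + 1)) X (Y - 64) = tsq (World.org i j) X Y := by
      unfold tsq
      rw [org_snd, org_snd]
      have : 64 ≤ Y := by omega
      refine Prod.ext rfl ?_
      simp only
      push_cast [this]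
      ring
    rw [e3] at h7
    exact h7

/-- the kind 24 in the table -/
def k24 : Bool := allN (fun r => allN (fun q => !Nat.beq (kdt r q) 24 ||
  (Nat.blt 46 r && (Nat.blt r 64 && Nat.beq q (Nat.add (sO (Nat.sub r 47)) 1)))) 83) 85

theorem k24_true : k24 = true := by decide +kernel

/-- the lower tiles of the memories -/
theorem mem_pos {i j : ℕ} (hi : i < nx P.n) (hj : j < ny P.n) (h : kd P i j = 24) :
    ∃ m < P.n, j = lo P.n m ∧ ic (P.M m) < 17 ∧ i = sO (ic (P.M m)) + P.n := by
  have hr := rx_lt P hj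
  have hcx := cx_lt (m := pm P.n j) (t := pt P j) hi
  have h1 := (allN_iff _ _).1 ((allN_iff _ _).1 k24_true _ hr.1) _ hcx
  have h2 : kdt (rx P j) (cx P.n (pm P.n j) (pt P j) i) = 24 := h
  rw [h2] at h1
  have h3 := or_of_false h1 rfl
  rw [Bool.and_eq_true, Bool.and_eq_true] at h3
  obtain ⟨g1, g2, g3⟩ := h3
  have g1 := blt_of g1
  have g2 := blt_of g2
  have g3 := Nat.eq_of_beq_eq_true g3
  have hj' : 26 + P.n ≤ j ∧ j < 26 + 3 * P.n := by
    constructor
    · by_contra hlt
      unfold rx at g1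
      unfold ny at hj
      split_ifs at g1 <;> omega
    · by_contra hlt
      unfold rx at g1
      unfold ny at hj
      split_ifs at g1 <;> omega
  obtain ⟨m, hm, e | e⟩ := band_cases hj'.1 hj'.2
  · refine ⟨m, hm, e, ?_, ?_⟩
    · rw [e, rx_lo P hm] at g2
      omega
    · rw [e, rx_lo P hm, show Nat.sub (47 + ic (P.M m)) 47 = ic (P.M m) by
        show 47 + ic (P.M m) - 47 = _
        omega] at g3
      have hic : ic (P.M m) < 17 := by
        rw [e, rx_lo P hm] at g2
        omega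
      obtain ⟨s1, s2, -⟩ := svc_data hic
      have g4 : cx P.n (pm P.n (26 + P.n + 2 * m)) (pt P (26 + P.n + 2 * m)) i =
          sO (ic (P.M m)) + 1 := g3
      unfold nx at hi
      unfold cx at g4
      split_ifs at g4 <;> omega
  · rw [e, rx_up P hm] at g1 g2
    have := ic_lt (P.M m)
    omega

/-- the board without the resident of a memory does not depend on the state of this memory -/
theorem FB_mem {c : Offs} {D : TD} {m : ℕ} {F : Far} {i j : ℕ} (hm : m < P.n)
    (hi : i < nx P.n) (hj : j = lo P.n m) (hk : kd P i j = 24) :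
    FB P c D (some m) (some (i, j)) F = FB P c D none (some (i, j)) F := by
  have hjn : j < ny P.n := by rw [hj]; unfold lo ny; omega
  have key : ∀ k s, Res P D (some m) (some (i, j)) k s ↔ Res P D none (some (i, j)) k s := by
    have hst : ∀ i' j', i' < nx P.n → j' < ny P.n → some (i, j) ≠ some (i', j') →
        stn P D (some m) i' j' = stn P D none i' j' := by
      intro i' j' hi' hj' hne
      unfold stn
      rw [if_neg (c := kd P i' j' = 24 ∧ (none : Option ℕ) = some (bm P.n j')) (by simp)]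
      rw [if_neg]
      rintro ⟨h1, h2⟩
      obtain ⟨m1, a1, a2, a3, a4⟩ := mem_pos P hi hjn hk
      obtain ⟨m2, b1, b2, b3, b4⟩ := mem_pos P hi' hj' h1
      have e1 : bm P.n j' = m2 := by rw [b2]; unfold bm lo; omega
      have e2 : m1 = m := by rw [hj] at a2; unfold lo at a2; omega
      rw [e1, Option.some.injEq] at h2
      subst h2 e2
      exact hne (by rw [a4, b4, a2, b2])
    intro k s
    constructor
    · rintro ⟨i', j', hi', hj', g1, g2, g3⟩
      exact ⟨i', j', hi', hj', g1, g2, by rw [← hst i' j' hi' hj' g2]; exact g3⟩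
    · rintro ⟨i', j', hi', hj', g1, g2, g3⟩
      exact ⟨i', j', hi', hj', g1, g2, by rw [hst i' j' hi' hj' g2]; exact g3⟩
  funext s
  have hrB : resB P D (some m) (some (i, j)) s = resB P D none (some (i, j)) s := by
    unfold resB
    by_cases g1 : Res P D (some m) (some (i, j)) 11 s
    · rw [if_pos g1, if_pos ((key 11 s).1 g1)]
    · rw [if_neg g1, if_neg (fun h => g1 ((key 11 s).2 h))]
      by_cases g2 : Res P D (some m) (some (i, j)) 12 s
      · rw [if_pos g2, if_pos ((key 12 s).1 g2)]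
      · rw [if_neg g2, if_neg (fun h => g2 ((key 12 s).2 h))]
  unfold FB fullB farB
  rw [hrB]

end facts

end Pool.Agent.Lib.H32C.Ly
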