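import Pool.Agent.Lib.H32C.RoomP
import Pool.Agent.Lib.H32C.TdAr
import Pool.Agent.Lib.H32C.WldD

/-!
# Tile data: the room
-/

set_option autoImplicit false

namespace Pool.Agent.Lib.H32C.Ly

open Loc

theorem AROOM_cells : ∀ X < 64, ∀ Y < 64, codeA AROOM (X + 8) (Y + 8) ≠ 15 := by decide +kernel

theorem AROOM_rp : ∀ X < 21, ∀ Y < 21, dec (codeA AROOM (X + 18) (Y + 18)) =
    rp ((X : ℤ) + 10, (Y : ℤ) + 10) := by decide +kernel

theorem AROOM_bk : ∀ X < 64, ∀ Y < 64, codeA AROOM (X + 8) (Y + 8) = 14 → X = 20 ∧ Y = 20 := by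
  decide +kernel

theorem AROOM_bk1 : codeA AROOM 28 28 = 14 := by decide +kernel

theorem AROOM_noK : ∀ X < 80, ∀ Y < 80, codeA AROOM X Y ≠ 6 := by decide +kernel

theorem AROOM_ring : ∀ X < 80, ∀ Y < 80, (X < 8 ∨ 72 ≤ X ∨ Y < 8 ∨ 72 ≤ Y) → codeA AROOM X Y = 15 := by
  decide +kernel

/-- **The room is in the tile `(0, 0)`.** -/
theorem roomOk_of {D : TD} (h : D.ar 39 = AROOM) : RoomOk D RP where
  Z := by
    rintro s ⟨h1, h2, h3, h4⟩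
    omega
  cells := by
    intro X Y h1 h2 h3 h4
    rw [h]
    obtain ⟨x, rfl⟩ : ∃ x, X = x + 8 := ⟨X - 8, by omega⟩
    obtain ⟨y, rfl⟩ : ∃ y, Y = y + 8 := ⟨Y - 8, by omega⟩
    exact AROOM_cells x (by omega) y (by omega)
  G := by
    intro B hB s hs
    rw [h] at hB
    obtain ⟨h1, h2, h3, h4⟩ := hs
    have g1 := hB (s.1 + 8).toNat (s.2 + 8).toNat (by omega) (by omega) (by omega) (by omega)
    have g2 := AROOM_rp (s.1 - 10).toNat (by omega) (s.2 - 10).toNat (by omega)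
    have e1 : (s.1 - 10).toNat + 18 = (s.1 + 8).toNat := by omega
    have e2 : (s.2 - 10).toNat + 18 = (s.2 + 8).toNat := by omega
    have e3 : (((s.1 - 10).toNat : ℤ) + 10, ((s.2 - 10).toNat : ℤ) + 10) = s := by
      apply Prod.ext
      · show ((s.1 - 10).toNat : ℤ) + 10 = s.1
        omega
      · show ((s.2 - 10).toNat : ℤ) + 10 = s.2
        omega
    have e4 : tsq (World.org 0 0) (s.1 + 8).toNat (s.2 + 8).toNat = s := by
      apply Prod.ext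
      · show 64 * ((0 : ℕ) : ℤ) - 8 + (((s.1 + 8).toNat : ℕ) : ℤ) = s.1
        omega
      · show 64 * ((0 : ℕ) : ℤ) - 8 + (((s.2 + 8).toNat : ℕ) : ℤ) = s.2
        omega
    rw [e1, e2, e3] at g2
    rw [e4, g2] at g1
    exact g1

/-- the Black king of the room -/
theorem bkX_of {D : TD} (h : D.ar 39 = AROOM) : ∃ X0 Y0 : ℕ, 8 ≤ X0 ∧ X0 < 72 ∧ 8 ≤ Y0 ∧ Y0 < 72 ∧
    codeA (D.ar 39) X0 Y0 = 14 ∧
    ∀ X Y : ℕ, 8 ≤ X → X < 72 → 8 ≤ Y → Y < 72 → codeA (D.ar 39) X Y = 14 → X = X0 ∧ Y = Y0 := by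
  rw [h]
  refine ⟨28, 28, by omega, by omega, by omega, by omega, AROOM_bk1, ?_⟩
  intro X Y h1 h2 h3 h4 h5
  obtain ⟨x, rfl⟩ : ∃ x, X = x + 8 := ⟨X - 8, by omega⟩
  obtain ⟨y, rfl⟩ : ∃ y, Y = y + 8 := ⟨Y - 8, by omega⟩
  obtain ⟨g1, g2⟩ := AROOM_bk x (by omega) y (by omega) h5
  omega

end Pool.Agent.Lib.H32C.Ly
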