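import Pool.Agent.Lib.H32C.DatB1
import Pool.Agent.Lib.H32C.DatB2
import Pool.Agent.Lib.H32C.DatB3
import Pool.Agent.Lib.H32C.TdROOM

/-!
# The data of the tiles: neighbours fit together
-/

set_option autoImplicit false

namespace Pool.Agent.Lib.H32C.Ly

open Loc

/-- the checks of the arrays which are parameters -/
def pB (A0 A1 A3 : ℕ) : Bool :=
  ands [hfB ACR A1, hfB ALD A0, hfB A0 AX, hfB A1 AX, hfB ACR A3, hfB A3 AF, vfB A3 AWN, vfB AWN A1, vfB A1 A0,
    vfB A0 AX, vfB AF A3, corB A0, corB A1, corB A3, nokB A0, nokB A1, nokB A3, nobB A0, nobB A1, nobB A3]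

structure PB (A0 A1 A3 : ℕ) : Prop where
  h1 : hfB ACR A1 = true
  h2 : hfB ALD A0 = true
  h3 : hfB A0 AX = true
  h4 : hfB A1 AX = true
  h5 : hfB ACR A3 = true
  h6 : hfB A3 AF = true
  v1 : vfB A3 AWN = true
  v2 : vfB AWN A1 = true
  v3 : vfB A1 A0 = true
  v4 : vfB A0 AX = true
  v5 : vfB AF A3 = true
  c0 : corB A0 = true
  c1 : corB A1 = true
  c3 : corB A3 = true
  n0 : nokB A0 = true
  n1 : nokB A1 = true
  n3 : nokB A3 = true
  b0 : nobB A0 = true
  b1 : nobB A1 = true
  b3 : nobB A3 = true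

theorem pB_iff {A0 A1 A3 : ℕ} (h : pB A0 A1 A3 = true) : PB A0 A1 A3 := by
  unfold pB at h
  simp only [TS3_ands_cons] at h
  obtain ⟨h1, h2, h3, h4, h5, h6, h7, h8, h9, h10, h11, h12, h13, h14, h15, h16, h17, h18, h19, h20, -⟩ := h
  exact ⟨h1, h2, h3, h4, h5, h6, h7, h8, h9, h10, h11, h12, h13, h14, h15, h16, h17, h18, h19, h20⟩

theorem ar_35 (A0 A1 A3 : ℕ) : (dD A0 A1 A3).ar 35 = A0 := rfl

theorem ar_36 (A0 A1 A3 : ℕ) : (dD A0 A1 A3).ar 36 = A1 := rfl

theorem ar_38 (A0 A1 A3 : ℕ) : (dD A0 A1 A3).ar 38 = A3 := rfl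

theorem ar_np {A0 A1 A3 k : ℕ} (h : par k = false) : (dD A0 A1 A3).ar k = Loc.nth arL k := arK_par h

theorem par_of {k : ℕ} (h : par k = true) : k = 35 ∨ k = 36 ∨ k = 38 := by
  unfold par at h
  simp only [Bool.or_eq_true, Nat.beq_eq] at h
  exact h

variable {A0 A1 A3 : ℕ}

theorem or_np {a : Bool} {b : Bool} (h : (a || b) = true) (h1 : a = false) : b = true := by
  rw [h1] at h
  exact h

theorem pp_of {a b : ℕ} (ha : a < 42) (hb : b < 42) (h : par a = true ∨ par b = true) :
    (htb a b = true → 64 * a + b ∈ [64 * 14 + 36, 64 * 8 + 35, 64 * 35 + 1, 64 * 36 + 1, 64 * 14 + 38,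
      64 * 38 + 0]) ∧ (vtb a b = true → 64 * a + b ∈ [64 * 38 + 37, 64 * 37 + 36, 64 * 36 + 35, 64 * 35 + 1,
      64 * 0 + 38]) := by
  have h1 := (allN_iff _ _).1 ((allN_iff _ _).1 pPair_true a ha) b hb
  have h2 : (par a || par b) = true := by
    rw [Bool.or_eq_true]
    exact h
  have h3 := imp_of h1 h2
  rw [Bool.and_eq_true] at h3
  exact ⟨fun g => memb_iff.1 (imp_of h3.1 g), fun g => memb_iff.1 (imp_of h3.2 g)⟩

theorem dD_hfit (h : PB A0 A1 A3) (a b : ℕ) (ha : a < 42) (hb : b < 42) (hab : htb a b = true) :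
    HFit ((dD A0 A1 A3).ar a) ((dD A0 A1 A3).ar b) := by
  by_cases hp : par a = true ∨ par b = true
  · have h1 := (pp_of ha hb hp).1 hab
    simp only [List.mem_cons, List.not_mem_nil, or_false] at h1
    rcases h1 with h1 | h1 | h1 | h1 | h1 | h1
    · obtain ⟨rfl, rfl⟩ : a = 14 ∧ b = 36 := by omega
      exact hfB_spec h.h1
    · obtain ⟨rfl, rfl⟩ : a = 8 ∧ b = 35 := by omega
      exact hfB_spec h.h2
    · obtain ⟨rfl, rfl⟩ : a = 35 ∧ b = 1 := by omega
      exact hfB_spec h.h3
    · obtain ⟨rfl, rfl⟩ : a = 36 ∧ b = 1 := by omega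
      exact hfB_spec h.h4
    · obtain ⟨rfl, rfl⟩ : a = 14 ∧ b = 38 := by omega
      exact hfB_spec h.h5
    · obtain ⟨rfl, rfl⟩ : a = 38 ∧ b = 0 := by omega
      exact hfB_spec h.h6
  · simp only [not_or, Bool.not_eq_true] at hp
    rw [ar_np hp.1, ar_np hp.2]
    exact hfB_spec (imp_of (or_np ((allN_iff _ _).1 (or_np ((allN_iff _ _).1 hAll_true a ha) hp.1) b hb)
      hp.2) hab)

theorem dD_vfit (h : PB A0 A1 A3) (a b : ℕ) (ha : a < 42) (hb : b < 42) (hab : vtb a b = true) :
    VFit ((dD A0 A1 A3).ar a) ((dD A0 A1 A3).ar b) := by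
  by_cases hp : par a = true ∨ par b = true
  · have h1 := (pp_of ha hb hp).2 hab
    simp only [List.mem_cons, List.not_mem_nil, or_false] at h1
    rcases h1 with h1 | h1 | h1 | h1 | h1
    · obtain ⟨rfl, rfl⟩ : a = 38 ∧ b = 37 := by omega
      exact vfB_spec h.v1
    · obtain ⟨rfl, rfl⟩ : a = 37 ∧ b = 36 := by omega
      exact vfB_spec h.v2
    · obtain ⟨rfl, rfl⟩ : a = 36 ∧ b = 35 := by omega
      exact vfB_spec h.v3
    · obtain ⟨rfl, rfl⟩ : a = 35 ∧ b = 1 := by omega
      exact vfB_spec h.v4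
    · obtain ⟨rfl, rfl⟩ : a = 0 ∧ b = 38 := by omega
      exact vfB_spec h.v5
  · simp only [not_or, Bool.not_eq_true] at hp
    rw [ar_np hp.1, ar_np hp.2]
    exact vfB_spec (imp_of (or_np ((allN_iff _ _).1 (or_np ((allN_iff _ _).1 vAll_true a ha) hp.1) b hb)
      hp.2) hab)

theorem dD_cor (h : PB A0 A1 A3) (k : ℕ) (hk : k < 42) : corB ((dD A0 A1 A3).ar k) = true ∧
    nokB ((dD A0 A1 A3).ar k) = true := by
  by_cases hp : par k = true
  · rcases par_of hp with rfl | rfl | rfl
    · exact ⟨h.c0, h.n0⟩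
    · exact ⟨h.c1, h.n1⟩
    · exact ⟨h.c3, h.n3⟩
  · rw [Bool.not_eq_true] at hp
    rw [ar_np hp]
    have h1 := or_np ((allN_iff _ _).1 cAll_true k hk) hp
    rw [Bool.and_eq_true] at h1
    exact h1

theorem dD_bk (h : PB A0 A1 A3) (k : ℕ) (hk : k < 42) (h39 : k ≠ 39) :
    nobB ((dD A0 A1 A3).ar k) = true := by
  by_cases hp : par k = true
  · rcases par_of hp with rfl | rfl | rfl
    · exact h.b0
    · exact h.b1
    · exact h.b3
  · rw [Bool.not_eq_true] at hp
    rw [ar_np hp]
    have h1 := or_np ((allN_iff _ _).1 bAll_true k hk) hp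
    rw [Bool.or_eq_true, Nat.beq_eq] at h1
    exact h1.resolve_left h39

/-- **The conditions on the data.** -/
theorem dD_ok (h : PB A0 A1 A3) : (dD A0 A1 A3).Ok where
  hfit := dD_hfit h
  vfit := dD_vfit h
  corners k hk := corB_spec (dD_cor h k hk).1
  noK k hk := nokB_spec (dD_cor h k hk).2
  bk k hk X Y h1 h2 h3 h4 h5 := by
    by_cases h39 : k = 39
    · subst h39
      obtain ⟨x, rfl⟩ : ∃ x, X = x + 8 := ⟨X - 8, by omega⟩
      obtain ⟨y, rfl⟩ : ∃ y, Y = y + 8 := ⟨Y - 8, by omega⟩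
      have h6 := AROOM_bk x (by omega) y (by omega) h5
      exact ⟨rfl, by omega, by omega⟩
    · exact absurd h5 (nobB_spec (dD_bk h k hk h39) X Y h1 h2 h3 h4)
  ring k hk := by
    have h1 := rAll_true
    unfold rAll at h1
    simp only [Bool.and_eq_true] at h1
    obtain ⟨r1, r2, r3, r4, r5⟩ := h1
    simp only [borderK, List.mem_cons, List.not_mem_nil, or_false] at hk
    rcases hk with rfl | rfl | rfl | rfl | rfl
    · exact ringB_spec r1
    · exact ringB_spec r2
    · exact ringB_spec r3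
    · exact ringB_spec r4
    · exact ringB_spec r5

theorem rk_of {k : ℕ} (h : (dD A0 A1 A3).rk k ≠ 0) : k = 14 ∨ k = 15 ∨ k = 22 ∨ k = 24 := by
  by_contra h1
  apply h
  show cond _ _ _ = _
  have e : (Nat.beq k 14 || (Nat.beq k 15 || (Nat.beq k 22 || Nat.beq k 24))) = false := by
    simp only [Bool.or_eq_false_iff, beq_ne (show k ≠ 14 by omega), beq_ne (show k ≠ 15 by omega),
      beq_ne (show k ≠ 22 by omega), beq_ne (show k ≠ 24 by omega), and_self]
  rw [e]
  rfl

theorem dD_ok2 (h : PB A0 A1 A3) : (dD A0 A1 A3).Ok2 where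
  toOk := dD_ok h
  rk k hk := rk_of hk
  rk2 k := by
    by_cases h1 : (dD A0 A1 A3).rk k = 0
    · exact Or.inl h1
    · right
      left
      rcases rk_of h1 with rfl | rfl | rfl | rfl <;> rfl
  r k hk := by
    rcases rk_of hk with rfl | rfl | rfl | rfl
    · exact List.mem_cons_self
    · exact List.mem_cons_self
    · exact List.mem_cons_self
    · exact List.mem_cons_self
  m := List.mem_cons_of_mem _ List.mem_cons_self
  st k hk q hq := by
    rcases rk_of hk with rfl | rfl | rfl | rfl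
    · have hq' : q ∈ [2382, 1491] := hq
      simp only [List.mem_cons, List.not_mem_nil, or_false] at hq'
      rcases hq' with rfl | rfl
      · refine ⟨by decide, by decide, by decide, fun _ => ?_, fun h9 => absurd h9 (by decide)⟩
        show codeA ACR 62 29 = 15
        decide +kernel
      · refine ⟨by decide, by decide, by decide, fun _ => ?_, fun h9 => absurd h9 (by decide)⟩
        show codeA ACR 51 18 = 15
        decide +kernel
    · have hq' : q ∈ [2500, 1631] := hq
      simp only [List.mem_cons, List.not_mem_nil, or_false] at hq'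
      rcases hq' with rfl | rfl
      · refine ⟨by decide, by decide, by decide, fun _ => ?_, fun h9 => absurd h9 (by decide)⟩
        show codeA ACL 20 31 = 15
        decide +kernel
      · refine ⟨by decide, by decide, by decide, fun _ => ?_, fun h9 => absurd h9 (by decide)⟩
        show codeA ACL 31 20 = 15
        decide +kernel
    · have hq' : q ∈ [2280] := hq
      simp only [List.mem_cons, List.not_mem_nil, or_false] at hq'
      subst hq'
      refine ⟨by decide, by decide, by decide, fun _ => ?_, fun h9 => absurd h9 (by decide)⟩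
      show codeA ACHL 40 28 = 15
      decide +kernel
    · have hq' : q ∈ [2382, 1491] := hq
      simp only [List.mem_cons, List.not_mem_nil, or_false] at hq'
      rcases hq' with rfl | rfl
      · refine ⟨by decide, by decide, by decide, fun _ => ?_, fun h9 => absurd h9 (by decide)⟩
        show codeA AMEML 62 29 = 15
        decide +kernel
      · refine ⟨by decide, by decide, by decide, fun _ => ?_, fun h9 => absurd h9 (by decide)⟩
        show codeA AMEML 51 18 = 15
        decide +kernel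

theorem dD_ok3 (h : PB A0 A1 A3) : (dD A0 A1 A3).Ok3 where
  toOk2 := dD_ok2 h
  rk24 := show (11 : ℕ) ≠ 0 by decide
  rk22 := show (11 : ℕ) ≠ 0 by decide

end Pool.Agent.Lib.H32C.Ly
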