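import Pool.Agent.Lib.H32C.ChM
import Pool.Agent.Lib.H32C.TdCH0

/-!
# Part a of the certificate of the tile TdCH
-/

set_option autoImplicit false

namespace Pool.Agent.Lib.H32C.Loc

/-- accumulated states -/
def uCH0 : List Mo := [⟨72, 2280⟩, ⟨137, 2280⟩]

/-- items -/
def uCHL0 : List NI := [
⟨97, 46, 68, (.cons 210 190 (.exit 0) .nil), [98], 0, 0, 0, 0, 0, 0, 0, 0⟩,
⟨98, 46, 67, (.cons 210 191 .nil (.cons 210 191 (.exit 0) (.cons 211 229 (.cons 210 191 .nil (.cons 210 211 .nil .nil)) .nil))), [99], 0, 0, 0, 0, 0, 0, 0, 0⟩,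
⟨99, 47, 66, (.cons 210 190 (.exit 0) .nil), [100], 0, 0, 0, 0, 0, 0, 0, 0⟩,
⟨100, 47, 65, (.cons 210 191 .nil (.cons 210 191 .nil (.cons 210 191 (.exit 0) (.cons 211 229 (.cons 210 191 .nil (.cons 210 191 .nil (.cons 210 211 .nil .nil))) .nil)))), [101], 0, 0, 0, 0, 0, 0, 0, 0⟩,
⟨101, 48, 64, (.cons 210 190 (.exit 0) .nil), [102], 0, 0, 0, 0, 0, 0, 0, 0⟩,
⟨102, 48, 63, (.cons 210 191 .nil (.cons 210 191 (.exit 0) (.cons 211 229 (.cons 210 191 .nil (.cons 210 211 (.cons 208 229 .nil .nil) .nil)) .nil))), [103], 0, 0, 0, 0, 0, 0, 0, 0⟩,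
⟨103, 49, 62, (.cons 210 190 (.exit 0) .nil), [104], 0, 0, 0, 0, 0, 0, 0, 0⟩,
⟨104, 49, 61, (.cons 210 191 .nil (.cons 210 191 (.exit 0) (.cons 211 229 (.cons 210 191 .nil (.cons 210 211 .nil .nil)) .nil))), [105], 0, 0, 0, 0, 0, 0, 0, 0⟩,
⟨105, 50, 60, (.cons 210 190 (.exit 0) .nil), [106], 0, 0, 0, 0, 0, 0, 0, 0⟩,
⟨106, 50, 59, (.cons 210 191 .nil (.cons 210 191 .nil (.cons 210 191 (.exit 0) (.cons 211 229 (.cons 210 191 .nil (.cons 210 191 .nil (.cons 210 211 .nil .nil))) .nil)))), [107], 0, 0, 0, 0, 0, 0, 0, 0⟩,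
⟨107, 51, 58, (.cons 210 190 (.exit 0) .nil), [108], 0, 0, 0, 0, 0, 0, 0, 0⟩,
⟨108, 51, 57, (.cons 210 191 .nil (.cons 210 191 .nil (.cons 210 191 (.exit 0) (.cons 211 229 (.cons 210 191 .nil (.cons 210 191 .nil (.cons 210 211 (.cons 208 229 .nil .nil) .nil))) .nil)))), [109], 0, 0, 0, 0, 0, 0, 0, 0⟩,
⟨109, 52, 56, (.cons 210 190 (.exit 0) .nil), [110], 0, 0, 0, 0, 0, 0, 0, 0⟩,
⟨110, 52, 55, (.cons 210 191 .nil (.cons 210 191 (.exit 0) (.cons 211 229 (.cons 210 191 .nil (.cons 210 211 (.cons 208 229 .nil .nil) .nil)) .nil))), [111], 0, 0, 0, 0, 0, 0, 0, 0⟩,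
⟨111, 53, 54, (.cons 210 190 (.exit 0) .nil), [112], 0, 0, 0, 0, 0, 0, 0, 0⟩,
⟨112, 53, 53, (.cons 210 191 .nil (.cons 210 191 (.exit 0) (.cons 211 229 (.cons 210 191 .nil (.cons 210 211 .nil .nil)) .nil))), [113], 0, 0, 0, 0, 0, 0, 0, 0⟩,
⟨113, 54, 52, (.cons 210 190 (.exit 0) .nil), [114], 0, 0, 0, 0, 0, 0, 0, 0⟩,
⟨114, 54, 51, (.cons 210 191 .nil (.cons 210 191 .nil (.cons 210 191 (.exit 0) (.cons 211 229 (.cons 210 191 .nil (.cons 210 191 .nil (.cons 210 211 .nil .nil))) .nil)))), [115], 0, 0, 0, 0, 0, 0, 0, 0⟩,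
⟨115, 55, 50, (.cons 210 190 (.exit 0) .nil), [116], 0, 0, 0, 0, 0, 0, 0, 0⟩,
⟨116, 55, 49, (.cons 210 191 .nil (.cons 210 191 .nil (.cons 210 191 (.exit 0) (.cons 211 229 (.cons 210 191 .nil (.cons 210 191 .nil (.cons 210 211 (.cons 208 229 .nil .nil) .nil))) .nil)))), [117], 0, 0, 0, 0, 0, 0, 0, 0⟩,
⟨117, 56, 48, (.cons 210 190 (.exit 0) .nil), [118], 0, 0, 0, 0, 0, 0, 0, 0⟩,
⟨118, 56, 47, (.cons 210 191 .nil (.cons 210 191 (.exit 0) (.cons 211 229 (.cons 210 191 .nil (.cons 210 211 (.cons 208 229 .nil .nil) .nil)) .nil))), [119], 0, 0, 0, 0, 0, 0, 0, 0⟩,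
⟨119, 57, 46, (.cons 210 190 (.exit 0) .nil), [120], 0, 0, 0, 0, 0, 0, 0, 0⟩,
⟨120, 57, 45, (.cons 210 191 .nil (.cons 210 191 (.exit 0) (.cons 211 229 (.cons 210 191 .nil (.cons 210 211 .nil .nil)) .nil))), [121], 0, 0, 0, 0, 0, 0, 0, 0⟩,
⟨121, 58, 44, (.cons 210 190 (.exit 0) .nil), [122], 0, 0, 0, 0, 0, 0, 0, 0⟩,
⟨122, 58, 43, (.cons 210 191 .nil (.cons 210 191 (.exit 0) (.cons 211 229 (.cons 210 191 .nil (.cons 210 211 .nil .nil)) .nil))), [123], 0, 0, 0, 0, 0, 0, 0, 0⟩,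
⟨123, 59, 42, (.cons 210 190 (.exit 0) .nil), [124], 0, 0, 0, 0, 0, 0, 0, 0⟩,
⟨124, 59, 41, (.cons 210 191 .nil (.cons 210 191 .nil (.cons 210 191 (.exit 0) (.cons 210 191 (.cons 191 192 .nil .nil) .nil)))), [125], 0, 0, 0, 0, 0, 0, 0, 0⟩,
⟨125, 60, 40, (.cons 210 211 (.exit 0) .nil), [126], 0, 0, 0, 0, 0, 0, 0, 0⟩,
⟨126, 61, 40, (.cons 210 231 (.exit 0) (.cons 230 249 .nil .nil)), [127], 0, 0, 0, 0, 0, 0, 0, 0⟩,
⟨127, 62, 41, (.cons 210 211 (.exit 0) (.cons 208 249 .nil .nil)), [128], 0, 0, 0, 0, 0, 0, 0, 0⟩,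
⟨128, 63, 41, (.cons 210 191 (.exit 0) (.cons 210 191 .nil (.cons 246 228 (.cons 210 191 .nil .nil) .nil))), [129], 0, 0, 0, 0, 0, 0, 0, 0⟩,
⟨129, 64, 40, (.cons 210 211 (.exit 0) .nil), [130], 0, 0, 0, 0, 0, 0, 0, 0⟩,
⟨130, 65, 40, (.cons 210 231 (.exit 0) (.cons 250 249 (.cons 210 231 .nil .nil) .nil)), [131], 0, 0, 0, 0, 0, 0, 0, 0⟩,
⟨131, 66, 41, (.cons 210 211 (.exit 0) (.cons 229 228 .nil .nil)), [132], 0, 0, 0, 0, 0, 0, 0, 0⟩,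
⟨132, 67, 41, (.cons 210 191 (.exit 0) (.cons 210 191 .nil (.cons 248 228 (.cons 210 191 .nil .nil) .nil))), [133], 0, 0, 0, 0, 0, 0, 0, 0⟩,
⟨133, 68, 40, (.cons 210 211 (.exit 0) .nil), [134], 0, 0, 0, 0, 0, 0, 0, 0⟩,
⟨134, 69, 40, (.cons 210 231 (.exit 0) (.cons 250 249 (.cons 210 231 .nil .nil) .nil)), [135], 0, 0, 0, 0, 0, 0, 0, 0⟩,
⟨135, 70, 41, (.cons 210 211 (.exit 0) (.cons 229 228 .nil .nil)), [136], 0, 0, 0, 0, 0, 0, 0, 0⟩,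
⟨136, 71, 41, (.cons 210 191 (.exit 0) (.cons 210 191 .nil (.cons 248 228 (.cons 210 191 .nil .nil) .nil))), [137], 0, 0, 0, 0, 0, 0, 0, 0⟩]

theorem uCHL0_ok : grpNU MCH.H MCH.A SCH (phs 2280 uCH0) uCHL0 = true := by decide +kernel

/-- accumulated states -/
def uCH1 : List Mo := addN 2280 uCHL0 uCH0

/-- items -/
def uCHL1 : List NI := [
⟨56, 58, 100, (.cons 210 230 (.exit 0) (.cons 210 231 .nil .nil)), [57], 0, 0, 0, 0, 0, 0, 0, 0⟩,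
⟨57, 58, 101, (.cons 210 231 (.exit 0) (.cons 210 231 .nil .nil)), [58], 0, 0, 0, 0, 0, 0, 0, 0⟩,
⟨58, 59, 102, (.cons 210 230 (.exit 0) .nil), [59], 0, 0, 0, 0, 0, 0, 0, 0⟩,
⟨59, 59, 103, (.cons 210 231 (.exit 0) (.cons 210 231 .nil .nil)), [60], 0, 0, 0, 0, 0, 0, 0, 0⟩,
⟨60, 60, 104, (.cons 210 211 (.exit 0) .nil), [61], 0, 0, 0, 0, 0, 0, 0, 0⟩,
⟨61, 61, 104, (.cons 210 231 (.exit 0) .nil), [62], 0, 0, 0, 0, 0, 0, 0, 0⟩,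
⟨62, 62, 105, (.cons 210 211 (.exit 0) .nil), [63], 0, 0, 0, 0, 0, 0, 0, 0⟩,
⟨63, 63, 105, (.cons 210 191 (.exit 0) (.cons 210 191 .nil .nil)), [64], 0, 0, 0, 0, 0, 0, 0, 0⟩,
⟨64, 64, 104, (.cons 210 211 (.exit 0) .nil), [65], 0, 0, 0, 0, 0, 0, 0, 0⟩,
⟨65, 65, 104, (.cons 210 231 (.exit 0) (.cons 250 249 (.cons 210 231 .nil .nil) .nil)), [66], 0, 0, 0, 0, 0, 0, 0, 0⟩,
⟨66, 66, 105, (.cons 210 211 (.exit 0) (.cons 229 228 .nil .nil)), [67], 0, 0, 0, 0, 0, 0, 0, 0⟩,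
⟨67, 67, 105, (.cons 210 191 (.exit 0) (.cons 210 191 .nil (.cons 248 228 (.cons 210 191 .nil .nil) .nil))), [68], 0, 0, 0, 0, 0, 0, 0, 0⟩,
⟨68, 68, 104, (.cons 210 211 (.exit 0) .nil), [69], 0, 0, 0, 0, 0, 0, 0, 0⟩,
⟨69, 69, 104, (.cons 210 231 (.exit 0) (.cons 250 249 (.cons 210 231 .nil .nil) .nil)), [70], 0, 0, 0, 0, 0, 0, 0, 0⟩,
⟨70, 70, 105, (.cons 210 211 (.exit 0) (.cons 229 228 .nil .nil)), [71], 0, 0, 0, 0, 0, 0, 0, 0⟩,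
⟨71, 71, 105, (.cons 210 191 (.exit 0) (.cons 210 191 .nil (.cons 248 228 (.cons 210 191 .nil .nil) .nil))), [72], 0, 0, 0, 0, 0, 0, 0, 0⟩,
⟨73, 47, 91, (.cons 210 190 (.exit 0) (.cons 211 232 (.cons 232 251 (.cons 210 190 (.cons 190 169 .nil (.cons 190 169 (.cons 170 188 .nil .nil) (.cons 190 169 (.cons 170 188 .nil .nil) .nil))) (.cons 210 190 (.cons 190 169 .nil (.cons 190 169 .nil (.cons 190 169 (.cons 170 188 .nil .nil) (.cons 190 169 (.cons 170 188 .nil .nil) .nil)))) (.cons 210 190 (.cons 190 169 .nil (.cons 190 169 (.cons 170 188 .nil .nil) (.cons 190 169 (.cons 170 188 .nil .nil) .nil))) .nil))) (.cons 210 190 (.cons 190 169 .nil (.cons 190 169 (.cons 170 188 .nil .nil) (.cons 190 169 (.cons 170 188 .nil .nil) .nil))) (.cons 210 190 (.cons 190 169 .nil (.cons 190 169 .nil (.cons 190 169 (.cons 170 188 .nil .nil) (.cons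 190 169 (.cons 170 188 .nil .nil) .nil)))) (.cons 210 190 (.cons 190 169 .nil (.cons 190 169 (.cons 170 188 .nil .nil) (.cons 190 169 (.cons 170 188 .nil .nil) .nil))) .nil)))) (.cons 210 190 (.cons 190 169 .nil (.cons 190 169 .nil (.cons 190 169 (.cons 170 188 .nil .nil) (.cons 190 169 (.cons 170 188 .nil .nil) .nil)))) (.cons 210 190 (.cons 190 169 .nil (.cons 190 169 .nil (.cons 190 169 .nil (.cons 190 169 (.cons 170 188 .nil .nil) (.cons 190 169 (.cons 170 188 .nil .nil) .nil))))) .nil)))), [74], 0, 0, 0, 0, 0, 0, 0, 0⟩,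
⟨74, 47, 90, (.cons 210 189 (.exit 0) (.cons 210 189 .nil (.cons 227 249 (.cons 210 189 .nil (.cons 210 189 .nil (.cons 210 189 (.cons 189 169 (.cons 169 148 .nil (.cons 168 190 (.cons 169 148 .nil .nil) .nil)) .nil) (.cons 210 189 (.cons 189 169 (.cons 169 148 .nil (.cons 168 190 (.cons 169 148 .nil .nil) .nil)) (.cons 189 169 (.cons 169 148 .nil .nil) .nil)) (.cons 210 189 (.cons 189 169 (.cons 169 148 .nil (.cons 168 190 (.cons 169 148 .nil .nil) .nil)) (.cons 189 169 (.cons 169 148 .nil .nil) .nil)) .nil))))) (.cons 210 189 .nil (.cons 210 189 (.cons 189 169 (.cons 169 148 .nil (.cons 168 190 (.cons 169 148 .nil .nil) .nil)) .nil) (.cons 210 189 (.cons 189 169 (.cons 169 148 .nil (.cons 168 190 (.cons 169 148 .nil .nil) .nil)) (.cons 189 169 (.cons 169 148 .nil .nil) .nil)) (.cons 210 189 (.cons 189 169 (.cons 169 148 .nil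 (.cons 168 190 (.cons 169 148 .nil .nil) .nil)) (.cons 189 169 (.cons 169 148 .nil .nil) .nil)) .nil))))))), [75], 0, 0, 0, 0, 0, 0, 0, 0⟩,
⟨75, 46, 89, (.cons 210 190 (.exit 0) .nil), [76], 0, 0, 0, 0, 0, 0, 0, 0⟩,
⟨76, 46, 88, (.cons 210 189 (.exit 0) (.cons 210 189 .nil (.cons 210 189 (.cons 189 188 (.cons 168 209 .nil (.cons 168 207 .nil .nil)) .nil) .nil))), [77], 0, 0, 0, 0, 0, 0, 0, 0⟩,
⟨77, 45, 87, (.cons 210 209 (.exit 0) .nil), [78], 0, 0, 0, 0, 0, 0, 0, 0⟩,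
⟨78, 44, 87, (.cons 290 251 (.cons 253 231 .nil (.cons 251 229 .nil .nil)) (.cons 210 189 (.exit 0) (.cons 210 189 (.cons 209 230 .nil (.cons 189 169 .nil .nil)) (.cons 190 229 (.cons 229 251 .nil (.cons 210 190 (.cons 253 231 .nil .nil) .nil)) .nil)))), [79], 0, 0, 0, 0, 0, 0, 0, 0⟩,
⟨79, 43, 86, (.cons 230 251 .nil (.cons 210 190 (.exit 0) .nil)), [80], 0, 0, 0, 0, 0, 0, 0, 0⟩,
⟨80, 43, 85, (.cons 210 189 (.exit 0) .nil), [81], 0, 0, 0, 0, 0, 0, 0, 0⟩,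
⟨81, 42, 84, (.cons 210 190 (.exit 0) .nil), [82], 0, 0, 0, 0, 0, 0, 0, 0⟩,
⟨82, 42, 83, (.cons 210 189 (.exit 0) (.cons 210 189 .nil (.cons 209 231 (.cons 210 209 .nil (.cons 210 189 .nil .nil)) .nil))), [83], 0, 0, 0, 0, 0, 0, 0, 0⟩,
⟨83, 41, 82, (.cons 210 190 (.exit 0) .nil), [84], 0, 0, 0, 0, 0, 0, 0, 0⟩,
⟨84, 41, 81, (.cons 210 189 (.exit 0) (.cons 210 189 .nil (.cons 209 231 (.cons 210 209 .nil (.cons 210 189 .nil .nil)) .nil))), [85], 0, 0, 0, 0, 0, 0, 0, 0⟩,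
⟨85, 40, 80, (.cons 210 190 (.exit 0) .nil), [86], 0, 0, 0, 0, 0, 0, 0, 0⟩,
⟨86, 40, 79, (.cons 210 191 (.exit 0) (.cons 250 232 (.cons 210 191 .nil (.cons 210 230 .nil .nil)) (.cons 210 191 .nil (.cons 232 231 (.cons 210 191 (.cons 250 232 .nil (.cons 231 230 .nil .nil)) (.cons 250 232 (.cons 210 191 .nil .nil) (.cons 210 191 .nil .nil))) .nil)))), [87], 0, 0, 0, 0, 0, 0, 0, 0⟩,
⟨87, 41, 78, (.cons 269 251 .nil (.cons 210 190 (.exit 0) .nil)), [88], 0, 0, 0, 0, 0, 0, 0, 0⟩,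
⟨88, 41, 77, (.cons 210 191 .nil (.cons 232 251 (.cons 210 191 .nil (.cons 211 229 (.cons 210 191 .nil .nil) .nil)) (.cons 210 191 (.exit 0) (.cons 211 229 (.cons 210 191 .nil (.cons 229 251 (.cons 210 191 .nil .nil) (.cons 210 211 (.cons 208 229 .nil .nil) .nil))) .nil)))), [89], 0, 0, 0, 0, 0, 0, 0, 0⟩,
⟨89, 42, 76, (.cons 210 190 (.exit 0) .nil), [90], 0, 0, 0, 0, 0, 0, 0, 0⟩,
⟨90, 42, 75, (.cons 210 191 .nil (.cons 210 191 (.exit 0) (.cons 211 229 (.cons 210 191 .nil (.cons 210 211 .nil .nil)) .nil))), [91], 0, 0, 0, 0, 0, 0, 0, 0⟩,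
⟨91, 43, 74, (.cons 210 190 (.exit 0) .nil), [92], 0, 0, 0, 0, 0, 0, 0, 0⟩,
⟨92, 43, 73, (.cons 210 191 .nil (.cons 210 191 .nil (.cons 210 191 (.exit 0) (.cons 211 229 (.cons 210 191 .nil (.cons 210 191 .nil (.cons 210 211 .nil .nil))) .nil)))), [93], 0, 0, 0, 0, 0, 0, 0, 0⟩,
⟨93, 44, 72, (.cons 210 190 (.exit 0) .nil), [94], 0, 0, 0, 0, 0, 0, 0, 0⟩,
⟨94, 44, 71, (.cons 210 191 .nil (.cons 210 191 .nil (.cons 210 191 (.exit 0) (.cons 211 229 (.cons 210 191 .nil (.cons 210 191 .nil (.cons 210 211 (.cons 208 229 .nil .nil) .nil))) .nil)))), [95], 0, 0, 0, 0, 0, 0, 0, 0⟩,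
⟨95, 45, 70, (.cons 210 190 (.exit 0) .nil), [96], 0, 0, 0, 0, 0, 0, 0, 0⟩,
⟨96, 45, 69, (.cons 210 191 .nil (.cons 210 191 (.exit 0) (.cons 211 229 (.cons 210 191 .nil (.cons 210 211 (.cons 208 229 .nil .nil) .nil)) .nil))), [97], 0, 0, 0, 0, 0, 0, 0, 0⟩]

theorem uCHL1_ok : grpNU MCH.H MCH.A SCH (phs 2280 uCH1) uCHL1 = true := by decide +kernel

/-- accumulated states -/
def uCH2 : List Mo := addN 2280 uCHL1 uCH1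

/-- items -/
def uCHL2 : List NI := [
⟨16, 23, 101, (.cons 210 211 (.exit 0) (.cons 230 249 .nil .nil)), [17], 0, 0, 0, 0, 0, 0, 0, 0⟩,
⟨17, 24, 101, (.cons 210 191 (.exit 0) (.cons 210 191 .nil .nil)), [18], 0, 0, 0, 0, 0, 0, 0, 0⟩,
⟨18, 25, 100, (.cons 210 211 (.exit 0) .nil), [19], 0, 0, 0, 0, 0, 0, 0, 0⟩,
⟨19, 26, 100, (.cons 210 191 .nil (.cons 210 191 (.exit 0) (.cons 210 191 .nil .nil))), [20], 0, 0, 0, 0, 0, 0, 0, 0⟩,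
⟨20, 27, 99, (.cons 210 211 (.exit 0) .nil), [21], 0, 0, 0, 0, 0, 0, 0, 0⟩,
⟨21, 28, 99, (.cons 210 191 .nil (.cons 210 191 (.exit 0) (.cons 210 191 .nil .nil))), [22], 0, 0, 0, 0, 0, 0, 0, 0⟩,
⟨22, 29, 98, (.cons 210 211 (.exit 0) .nil), [23], 0, 0, 0, 0, 0, 0, 0, 0⟩,
⟨23, 30, 98, (.cons 210 191 (.exit 0) (.cons 210 191 .nil .nil)), [24], 0, 0, 0, 0, 0, 0, 0, 0⟩,
⟨24, 31, 97, (.cons 210 211 (.exit 0) .nil), [25], 0, 0, 0, 0, 0, 0, 0, 0⟩,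
⟨25, 32, 97, (.cons 210 191 (.exit 0) (.cons 210 191 .nil .nil)), [26], 0, 0, 0, 0, 0, 0, 0, 0⟩,
⟨26, 33, 96, (.cons 210 211 (.exit 0) .nil), [27], 0, 0, 0, 0, 0, 0, 0, 0⟩,
⟨27, 34, 96, (.cons 210 191 (.exit 0) (.cons 210 191 .nil .nil)), [28], 0, 0, 0, 0, 0, 0, 0, 0⟩,
⟨28, 35, 95, (.cons 210 211 (.exit 0) .nil), [29], 0, 0, 0, 0, 0, 0, 0, 0⟩,
⟨29, 36, 95, (.cons 210 191 .nil (.cons 210 191 (.exit 0) (.cons 210 191 .nil .nil))), [30], 0, 0, 0, 0, 0, 0, 0, 0⟩,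
⟨30, 37, 94, (.cons 210 211 (.exit 0) .nil), [31], 0, 0, 0, 0, 0, 0, 0, 0⟩,
⟨31, 38, 94, (.cons 210 231 .nil (.cons 210 231 (.exit 0) (.cons 208 249 (.cons 210 231 .nil .nil) .nil))), [32], 0, 0, 0, 0, 0, 0, 0, 0⟩,
⟨32, 39, 95, (.cons 210 211 (.exit 0) (.cons 187 228 .nil .nil)), [33], 0, 0, 0, 0, 0, 0, 0, 0⟩,
⟨33, 40, 95, (.cons 210 231 (.exit 0) (.cons 210 231 .nil (.cons 189 228 (.cons 210 231 .nil .nil) .nil))), [34], 0, 0, 0, 0, 0, 0, 0, 0⟩,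
⟨34, 41, 96, (.cons 210 211 (.exit 0) .nil), [35], 0, 0, 0, 0, 0, 0, 0, 0⟩,
⟨35, 42, 96, (.cons 210 231 (.exit 0) (.cons 210 231 .nil .nil)), [36], 0, 0, 0, 0, 0, 0, 0, 0⟩,
⟨36, 43, 97, (.cons 210 211 (.exit 0) .nil), [37], 0, 0, 0, 0, 0, 0, 0, 0⟩,
⟨37, 44, 97, (.cons 210 191 (.exit 0) (.cons 210 191 .nil .nil)), [38], 0, 0, 0, 0, 0, 0, 0, 0⟩,
⟨38, 45, 96, (.cons 210 190 (.exit 0) .nil), [39], 0, 0, 0, 0, 0, 0, 0, 0⟩,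
⟨39, 45, 95, (.cons 210 191 (.exit 0) .nil), [40], 0, 0, 0, 0, 0, 0, 0, 0⟩,
⟨40, 46, 94, (.cons 210 211 (.cons 211 192 (.cons 167 188 .nil (.cons 167 188 .nil .nil)) (.cons 211 232 .nil (.cons 211 192 (.cons 167 188 .nil (.cons 167 188 .nil .nil)) (.cons 272 250 (.cons 211 192 (.cons 167 188 .nil (.cons 167 188 .nil .nil)) (.cons 231 250 .nil .nil)) .nil)))) (.cons 210 211 (.exit 0) (.cons 210 211 (.cons 211 192 .nil (.cons 211 192 .nil .nil)) .nil))), [41], 0, 0, 0, 0, 0, 0, 0, 0⟩,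
⟨41, 47, 94, (.cons 210 191 (.exit 0) (.cons 271 249 .nil .nil)), [42], 0, 0, 0, 0, 0, 0, 0, 0⟩,
⟨42, 48, 93, (.cons 210 190 (.exit 0) (.cons 290 249 .nil .nil)), [43], 0, 0, 0, 0, 0, 0, 0, 0⟩,
⟨43, 49, 92, (.cons 209 210 (.cons 214 232 .nil (.cons 210 191 .nil .nil)) (.cons 209 210 (.cons 210 191 .nil .nil) (.cons 209 190 (.exit 0) (.cons 209 188 (.exit 1) (.cons 209 190 (.cons 190 191 .nil (.cons 190 191 .nil (.cons 190 191 .nil .nil))) .nil))))), [44, 73], 0, 0, 0, 0, 0, 0, 0, 0⟩,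
⟨44, 49, 91, (.cons 210 211 (.exit 0) (.cons 210 211 (.cons 211 232 .nil .nil) .nil)), [45], 0, 0, 0, 0, 0, 0, 0, 0⟩,
⟨45, 50, 91, (.cons 210 231 (.exit 0) .nil), [46], 0, 0, 0, 0, 0, 0, 0, 0⟩,
⟨46, 51, 92, (.cons 210 211 (.exit 0) (.cons 230 249 .nil .nil)), [47], 0, 0, 0, 0, 0, 0, 0, 0⟩,
⟨47, 52, 92, (.cons 210 231 (.exit 0) (.cons 210 231 (.cons 211 189 .nil .nil) (.cons 189 228 (.cons 210 231 (.cons 211 189 .nil .nil) (.cons 211 189 (.cons 210 231 .nil .nil) .nil)) (.cons 211 189 (.cons 210 211 (.cons 211 232 .nil .nil) (.cons 210 231 .nil (.cons 189 228 (.cons 210 231 .nil .nil) .nil))) .nil)))), [48], 0, 0, 0, 0, 0, 0, 0, 0⟩,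
⟨48, 53, 93, (.cons 210 211 (.exit 0) (.cons 210 211 (.cons 211 232 (.cons 231 253 .nil .nil) .nil) .nil)), [49], 0, 0, 0, 0, 0, 0, 0, 0⟩,
⟨49, 54, 93, (.cons 210 231 (.exit 0) (.cons 210 231 (.cons 230 252 .nil .nil) .nil)), [50], 0, 0, 0, 0, 0, 0, 0, 0⟩,
⟨50, 55, 94, (.cons 210 230 (.exit 0) (.cons 210 231 .nil .nil)), [51], 0, 0, 0, 0, 0, 0, 0, 0⟩,
⟨51, 55, 95, (.cons 210 231 (.exit 0) (.cons 167 188 .nil .nil)), [52], 0, 0, 0, 0, 0, 0, 0, 0⟩,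
⟨52, 56, 96, (.cons 210 230 (.exit 0) (.cons 167 188 (.cons 210 231 .nil .nil) (.cons 210 231 .nil .nil))), [53], 0, 0, 0, 0, 0, 0, 0, 0⟩,
⟨53, 56, 97, (.cons 210 231 (.exit 0) (.cons 210 231 (.cons 230 252 .nil .nil) .nil)), [54], 0, 0, 0, 0, 0, 0, 0, 0⟩,
⟨54, 57, 98, (.cons 210 230 (.exit 0) (.cons 210 231 .nil .nil)), [55], 0, 0, 0, 0, 0, 0, 0, 0⟩,
⟨55, 57, 99, (.cons 210 231 (.exit 0) (.cons 210 231 (.cons 231 252 .nil .nil) .nil)), [56], 0, 0, 0, 0, 0, 0, 0, 0⟩]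

theorem uCHL2_ok : grpNU MCH.H MCH.A SCH (phs 2280 uCH2) uCHL2 = true := by decide +kernel

/-- accumulated states -/
def uCH3 : List Mo := addN 2280 uCHL2 uCH2

/-- items -/
def uCHL3 : List NI := [
⟨0, 8, 104, (.cons 210 211 (.exit 0) .nil), [1], 0, 0, 0, 0, 0, 0, 0, 0⟩,
⟨1, 9, 104, (.cons 210 231 (.exit 0) (.cons 250 249 (.cons 210 231 .nil .nil) .nil)), [2], 0, 0, 0, 0, 0, 0, 0, 0⟩,
⟨2, 10, 105, (.cons 210 211 (.exit 0) (.cons 229 228 .nil .nil)), [3], 0, 0, 0, 0, 0, 0, 0, 0⟩,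
⟨3, 11, 105, (.cons 210 191 (.exit 0) (.cons 210 191 .nil (.cons 248 228 (.cons 210 191 .nil .nil) .nil))), [4], 0, 0, 0, 0, 0, 0, 0, 0⟩,
⟨4, 12, 104, (.cons 210 211 (.exit 0) .nil), [5], 0, 0, 0, 0, 0, 0, 0, 0⟩,
⟨5, 13, 104, (.cons 210 231 (.exit 0) (.cons 250 249 (.cons 210 231 .nil .nil) .nil)), [6], 0, 0, 0, 0, 0, 0, 0, 0⟩,
⟨6, 14, 105, (.cons 210 211 (.exit 0) (.cons 229 228 .nil .nil)), [7], 0, 0, 0, 0, 0, 0, 0, 0⟩,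
⟨7, 15, 105, (.cons 210 191 (.exit 0) (.cons 210 191 .nil (.cons 248 228 (.cons 210 191 .nil .nil) .nil))), [8], 0, 0, 0, 0, 0, 0, 0, 0⟩,
⟨8, 16, 104, (.cons 210 211 (.exit 0) .nil), [9], 0, 0, 0, 0, 0, 0, 0, 0⟩,
⟨9, 17, 104, (.cons 210 231 (.exit 0) (.cons 230 249 (.cons 210 231 .nil .nil) .nil)), [10], 0, 0, 0, 0, 0, 0, 0, 0⟩,
⟨10, 18, 105, (.cons 210 211 (.exit 0) (.cons 209 228 .nil .nil)), [11], 0, 0, 0, 0, 0, 0, 0, 0⟩,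
⟨11, 19, 105, (.cons 210 191 (.exit 0) (.cons 210 191 .nil (.cons 207 228 (.cons 210 191 .nil .nil) .nil))), [12], 0, 0, 0, 0, 0, 0, 0, 0⟩,
⟨12, 20, 104, (.cons 210 190 (.exit 0) .nil), [13], 0, 0, 0, 0, 0, 0, 0, 0⟩,
⟨13, 20, 103, (.cons 210 191 (.exit 0) .nil), [14], 0, 0, 0, 0, 0, 0, 0, 0⟩,
⟨14, 21, 102, (.cons 210 211 (.exit 0) .nil), [15], 0, 0, 0, 0, 0, 0, 0, 0⟩,
⟨15, 22, 102, (.cons 210 191 (.exit 0) (.cons 230 249 .nil .nil)), [16], 0, 0, 0, 0, 0, 0, 0, 0⟩]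

theorem uCHL3_ok : grpNU MCH.H MCH.A SCH (phs 2280 uCH3) uCHL3 = true := by decide +kernel

/-- accumulated states -/
def uCH4 : List Mo := addN 2280 uCHL3 uCH3

theorem uCH_chain : MU MCH SCH uCH0 uCH4 := by
  have c0 : MU MCH SCH uCH0 uCH0 := .nil
  have c1 : MU MCH SCH uCH0 uCH1 := .N c0 2280 uCHL0 (by decide +kernel) uCHL0_ok
  have c2 : MU MCH SCH uCH0 uCH2 := .N c1 2280 uCHL1 (by decide +kernel) uCHL1_ok
  have c3 : MU MCH SCH uCH0 uCH3 := .N c2 2280 uCHL2 (by decide +kernel) uCHL2_ok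
  have c4 : MU MCH SCH uCH0 uCH4 := .N c3 2280 uCHL3 (by decide +kernel) uCHL3_ok
  exact c4

end Pool.Agent.Lib.H32C.Loc
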