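import Pool.Agent.Lib.H32C.ChM
import Pool.Agent.Lib.H32C.TdCH0

/-!
# Part b of the certificate of the tile TdCH
-/

set_option autoImplicit false

namespace Pool.Agent.Lib.H32C.Loc

/-- accumulated states -/
def vCH0 : List Mo := [⟨72, 2280⟩]

/-- items -/
def vCHL0 : List NI := [
⟨32, 39, 95, .nil, [], 0, 206, 188, 188, 211, 33, 0, 0⟩,
⟨33, 40, 95, .nil, [], 0, 206, 188, 188, 231, 34, 0, 0⟩,
⟨34, 41, 96, .nil, [], 0, 166, 188, 188, 211, 35, 0, 0⟩,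
⟨35, 42, 96, .nil, [], 0, 166, 188, 188, 231, 36, 0, 0⟩,
⟨36, 43, 97, .nil, [], 0, 166, 188, 188, 211, 37, 0, 0⟩,
⟨37, 44, 97, .nil, [], 0, 166, 188, 188, 191, 38, 0, 0⟩,
⟨38, 45, 96, .nil, [], 0, 206, 228, 228, 190, 39, 0, 0⟩,
⟨39, 45, 95, .nil, [], 0, 227, 249, 249, 191, 40, 0, 0⟩,
⟨40, 46, 94, .nil, [], 0, 267, 249, 249, 211, 41, 0, 0⟩,
⟨41, 47, 94, .nil, [], 0, 267, 228, 228, 191, 42, 0, 0⟩,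
⟨42, 48, 93, .nil, [], 0, 267, 228, 228, 190, 43, 0, 0⟩,
⟨43, 48, 92, .nil, [], 0, 267, 228, 228, 191, 44, 0, 0⟩,
⟨44, 49, 91, .nil, [], 0, 267, 249, 249, 211, 45, 0, 0⟩,
⟨45, 50, 91, .nil, [], 0, 246, 228, 228, 231, 46, 0, 0⟩,
⟨46, 51, 92, .nil, [], 0, 227, 188, 188, 211, 47, 0, 0⟩,
⟨47, 52, 92, .nil, [], 0, 206, 188, 188, 231, 48, 0, 0⟩,
⟨48, 53, 93, .nil, [], 0, 166, 188, 188, 211, 49, 0, 0⟩,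
⟨49, 54, 93, .nil, [], 0, 166, 188, 188, 231, 50, 0, 0⟩,
⟨50, 55, 94, .nil, [], 0, 166, 188, 188, 230, 51, 0, 0⟩,
⟨51, 55, 95, .nil, [], 0, 147, 169, 169, 231, 52, 0, 0⟩,
⟨52, 56, 96, .nil, [], 0, 147, 169, 169, 230, 53, 0, 0⟩,
⟨53, 56, 97, .nil, [], 0, 128, 169, 169, 231, 54, 0, 0⟩,
⟨54, 57, 98, .nil, [], 0, 128, 169, 169, 230, 55, 0, 0⟩,
⟨55, 57, 99, .nil, [], 0, 128, 169, 169, 231, 56, 0, 0⟩,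
⟨56, 58, 100, .nil, [], 0, 128, 169, 169, 230, 57, 0, 0⟩,
⟨57, 58, 101, .nil, [], 0, 128, 169, 169, 231, 58, 0, 0⟩,
⟨58, 59, 102, .nil, [], 0, 128, 169, 169, 230, 59, 0, 0⟩,
⟨59, 59, 103, .nil, [], 0, 128, 169, 169, 231, 60, 0, 0⟩,
⟨60, 60, 104, .nil, [], 0, 128, 169, 169, 211, 61, 0, 0⟩,
⟨61, 61, 104, .nil, [], 0, 147, 188, 188, 231, 62, 0, 0⟩,
⟨62, 62, 105, .nil, [], 0, 147, 188, 188, 211, 63, 0, 0⟩,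
⟨63, 63, 105, .nil, [], 0, 166, 188, 188, 191, 64, 0, 0⟩,
⟨64, 64, 104, .nil, [], 0, 206, 228, 228, 211, 65, 0, 0⟩,
⟨65, 65, 104, .nil, [], 0, 206, 228, 228, 231, 66, 0, 0⟩,
⟨66, 66, 105, .nil, [], 0, 206, 188, 188, 211, 67, 0, 0⟩,
⟨67, 67, 105, .nil, [], 0, 206, 188, 188, 191, 68, 0, 0⟩,
⟨68, 68, 104, .nil, [], 0, 206, 228, 228, 211, 69, 0, 0⟩,
⟨69, 69, 104, .nil, [], 0, 206, 228, 228, 231, 70, 0, 0⟩,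
⟨70, 70, 105, .nil, [], 0, 206, 188, 188, 211, 71, 0, 0⟩,
⟨71, 71, 105, .nil, [], 0, 206, 188, 188, 191, 72, 0, 0⟩]

theorem vCHL0_ok : grpNL MCH.H MCH.A SCH (phs 2280 vCH0) vCHL0 = true := by decide +kernel

/-- accumulated states -/
def vCH1 : List Mo := addN 2280 vCHL0 vCH0

/-- items -/
def vCHL1 : List NI := [
⟨1, 9, 104, .nil, [], 0, 206, 228, 228, 231, 2, 0, 0⟩,
⟨2, 10, 105, .nil, [], 0, 206, 188, 188, 211, 3, 0, 0⟩,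
⟨3, 11, 105, .nil, [], 0, 206, 188, 188, 191, 4, 0, 0⟩,
⟨4, 12, 104, .nil, [], 0, 206, 228, 228, 211, 5, 0, 0⟩,
⟨5, 13, 104, .nil, [], 0, 206, 228, 228, 231, 6, 0, 0⟩,
⟨6, 14, 105, .nil, [], 0, 206, 188, 188, 211, 7, 0, 0⟩,
⟨7, 15, 105, .nil, [], 0, 206, 188, 188, 191, 8, 0, 0⟩,
⟨8, 16, 104, .nil, [], 0, 206, 228, 228, 211, 9, 0, 0⟩,
⟨9, 17, 104, .nil, [], 0, 206, 228, 228, 231, 10, 0, 0⟩,
⟨10, 18, 105, .nil, [], 0, 206, 188, 188, 211, 11, 0, 0⟩,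
⟨11, 19, 105, .nil, [], 0, 206, 188, 188, 191, 12, 0, 0⟩,
⟨12, 20, 104, .nil, [], 0, 206, 228, 228, 190, 13, 0, 0⟩,
⟨13, 20, 103, .nil, [], 0, 227, 249, 249, 191, 14, 0, 0⟩,
⟨14, 21, 102, .nil, [], 0, 267, 249, 249, 211, 15, 0, 0⟩,
⟨15, 22, 102, .nil, [], 0, 267, 228, 228, 191, 16, 0, 0⟩,
⟨16, 23, 101, .nil, [], 0, 267, 228, 228, 211, 17, 0, 0⟩,
⟨17, 24, 101, .nil, [], 0, 246, 228, 228, 191, 18, 0, 0⟩,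
⟨18, 25, 100, .nil, [], 0, 246, 228, 228, 211, 19, 0, 0⟩,
⟨19, 26, 100, .nil, [], 0, 246, 228, 228, 191, 20, 0, 0⟩,
⟨20, 27, 99, .nil, [], 0, 246, 228, 228, 211, 21, 0, 0⟩,
⟨21, 28, 99, .nil, [], 0, 246, 228, 228, 191, 22, 0, 0⟩,
⟨22, 29, 98, .nil, [], 0, 246, 228, 228, 211, 23, 0, 0⟩,
⟨23, 30, 98, .nil, [], 0, 246, 228, 228, 191, 24, 0, 0⟩,
⟨24, 31, 97, .nil, [], 0, 246, 228, 228, 211, 25, 0, 0⟩,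
⟨25, 32, 97, .nil, [], 0, 246, 228, 228, 191, 26, 0, 0⟩,
⟨26, 33, 96, .nil, [], 0, 246, 228, 228, 211, 27, 0, 0⟩,
⟨27, 34, 96, .nil, [], 0, 246, 228, 228, 191, 28, 0, 0⟩,
⟨28, 35, 95, .nil, [], 0, 246, 228, 228, 211, 29, 0, 0⟩,
⟨29, 36, 95, .nil, [], 0, 246, 228, 228, 191, 30, 0, 0⟩,
⟨30, 37, 94, .nil, [], 0, 246, 228, 228, 211, 31, 0, 0⟩,
⟨31, 38, 94, .nil, [], 0, 246, 228, 228, 231, 32, 0, 0⟩]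

theorem vCHL1_ok : grpNL MCH.H MCH.A SCH (phs 2280 vCH1) vCHL1 = true := by decide +kernel

/-- accumulated states -/
def vCH2 : List Mo := addN 2280 vCHL1 vCH1

theorem vCH_chain : ML MCH SCH vCH0 vCH2 := by
  have c0 : ML MCH SCH vCH0 vCH0 := .nil
  have c1 : ML MCH SCH vCH0 vCH1 := .N c0 2280 vCHL0 (by decide +kernel) vCHL0_ok
  have c2 : ML MCH SCH vCH0 vCH2 := .N c1 2280 vCHL1 (by decide +kernel) vCHL1_ok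
  exact c2

end Pool.Agent.Lib.H32C.Loc
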