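import Pool.Agent.Lib.H32C.ChM
import Pool.Agent.Lib.H32C.TdCH0

/-!
# Part c of the certificate of the tile TdCH
-/

set_option autoImplicit false

namespace Pool.Agent.Lib.H32C.Loc

/-- accumulated states -/
def yCH0 : List Mo := [⟨137, 2280⟩]

/-- items -/
def yCHL0 : List NI := [
⟨97, 46, 68, .nil, [], 0, 288, 249, 249, 190, 98, 0, 0⟩,
⟨98, 46, 67, .nil, [], 0, 288, 249, 249, 191, 99, 0, 0⟩,
⟨99, 47, 66, .nil, [], 0, 288, 249, 249, 190, 100, 0, 0⟩,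
⟨100, 47, 65, .nil, [], 0, 288, 249, 249, 191, 101, 0, 0⟩,
⟨101, 48, 64, .nil, [], 0, 288, 249, 249, 190, 102, 0, 0⟩,
⟨102, 48, 63, .nil, [], 0, 288, 249, 249, 191, 103, 0, 0⟩,
⟨103, 49, 62, .nil, [], 0, 288, 249, 249, 190, 104, 0, 0⟩,
⟨104, 49, 61, .nil, [], 0, 288, 249, 249, 191, 105, 0, 0⟩,
⟨105, 50, 60, .nil, [], 0, 288, 249, 249, 190, 106, 0, 0⟩,
⟨106, 50, 59, .nil, [], 0, 288, 249, 249, 191, 107, 0, 0⟩,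
⟨107, 51, 58, .nil, [], 0, 288, 249, 249, 190, 108, 0, 0⟩,
⟨108, 51, 57, .nil, [], 0, 288, 249, 249, 191, 109, 0, 0⟩,
⟨109, 52, 56, .nil, [], 0, 288, 249, 249, 190, 110, 0, 0⟩,
⟨110, 52, 55, .nil, [], 0, 288, 249, 249, 191, 111, 0, 0⟩,
⟨111, 53, 54, .nil, [], 0, 288, 249, 249, 190, 112, 0, 0⟩,
⟨112, 53, 53, .nil, [], 0, 288, 249, 249, 191, 113, 0, 0⟩,
⟨113, 54, 52, .nil, [], 0, 288, 249, 249, 190, 114, 0, 0⟩,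
⟨114, 54, 51, .nil, [], 0, 288, 249, 249, 191, 115, 0, 0⟩,
⟨115, 55, 50, .nil, [], 0, 288, 249, 249, 190, 116, 0, 0⟩,
⟨116, 55, 49, .nil, [], 0, 288, 249, 249, 191, 117, 0, 0⟩,
⟨117, 56, 48, .nil, [], 0, 288, 249, 249, 190, 118, 0, 0⟩,
⟨118, 56, 47, .nil, [], 0, 288, 249, 249, 191, 119, 0, 0⟩,
⟨119, 57, 46, .nil, [], 0, 288, 249, 249, 190, 120, 0, 0⟩,
⟨120, 57, 45, .nil, [], 0, 288, 249, 249, 191, 121, 0, 0⟩,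
⟨121, 58, 44, .nil, [], 0, 288, 249, 249, 190, 122, 0, 0⟩,
⟨122, 58, 43, .nil, [], 0, 288, 249, 249, 191, 123, 0, 0⟩,
⟨123, 59, 42, .nil, [], 0, 288, 249, 249, 190, 124, 0, 0⟩,
⟨124, 59, 41, .nil, [], 0, 288, 249, 249, 191, 125, 0, 0⟩,
⟨125, 60, 40, .nil, [], 0, 288, 249, 249, 211, 126, 0, 0⟩,
⟨126, 61, 40, .nil, [], 0, 267, 228, 228, 231, 127, 0, 0⟩,
⟨127, 62, 41, .nil, [], 0, 227, 188, 188, 211, 128, 0, 0⟩,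
⟨128, 63, 41, .nil, [], 0, 206, 188, 188, 191, 129, 0, 0⟩,
⟨129, 64, 40, .nil, [], 0, 206, 228, 228, 211, 130, 0, 0⟩,
⟨130, 65, 40, .nil, [], 0, 206, 228, 228, 231, 131, 0, 0⟩,
⟨131, 66, 41, .nil, [], 0, 206, 188, 188, 211, 132, 0, 0⟩,
⟨132, 67, 41, .nil, [], 0, 206, 188, 188, 191, 133, 0, 0⟩,
⟨133, 68, 40, .nil, [], 0, 206, 228, 228, 211, 134, 0, 0⟩,
⟨134, 69, 40, .nil, [], 0, 206, 228, 228, 231, 135, 0, 0⟩,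
⟨135, 70, 41, .nil, [], 0, 206, 188, 188, 211, 136, 0, 0⟩,
⟨136, 71, 41, .nil, [], 0, 206, 188, 188, 191, 137, 0, 0⟩]

theorem yCHL0_ok : grpNL MCH.H MCH.A SCH (phs 2280 yCH0) yCHL0 = true := by decide +kernel

/-- accumulated states -/
def yCH1 : List Mo := addN 2280 yCHL0 yCH0

/-- items -/
def yCHL1 : List NI := [
⟨30, 37, 94, .nil, [], 0, 246, 228, 228, 211, 31, 0, 0⟩,
⟨31, 38, 94, .nil, [], 0, 246, 228, 228, 231, 32, 0, 0⟩,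
⟨32, 39, 95, .nil, [], 0, 206, 188, 188, 211, 33, 0, 0⟩,
⟨33, 40, 95, .nil, [], 0, 206, 188, 188, 231, 34, 0, 0⟩,
⟨34, 41, 96, .nil, [], 0, 166, 188, 188, 211, 35, 0, 0⟩,
⟨35, 42, 96, .nil, [], 0, 166, 188, 188, 231, 36, 0, 0⟩,
⟨36, 43, 97, .nil, [], 0, 166, 188, 188, 211, 37, 0, 0⟩,
⟨37, 44, 97, .nil, [], 0, 166, 188, 188, 191, 38, 0, 0⟩,
⟨38, 45, 96, .nil, [], 0, 206, 228, 228, 190, 39, 0, 0⟩,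
⟨39, 45, 95, .nil, [], 0, 227, 249, 249, 191, 40, 0, 0⟩,
⟨40, 46, 94, .nil, [], 0, 267, 249, 249, 211, 41, 0, 0⟩,
⟨41, 47, 94, .nil, [], 0, 267, 228, 228, 191, 42, 0, 0⟩,
⟨42, 48, 93, .nil, [], 0, 267, 228, 228, 190, 43, 0, 0⟩,
⟨43, 48, 92, .nil, [], 2, 267, 249, 249, 189, 73, 191, 138⟩,
⟨138, 49, 91, .nil, [], 0, 267, 249, 249, 211, 139, 0, 0⟩,
⟨139, 50, 91, .nil, [], 1, 267, 249, 249, 0, 0, 0, 0⟩,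
⟨73, 47, 91, .nil, [], 0, 269, 251, 251, 190, 74, 0, 0⟩,
⟨74, 47, 90, .nil, [], 0, 290, 251, 251, 189, 75, 0, 0⟩,
⟨75, 46, 89, .nil, [], 0, 292, 251, 251, 190, 76, 0, 0⟩,
⟨76, 46, 88, .nil, [], 0, 292, 251, 251, 189, 77, 0, 0⟩,
⟨77, 45, 87, .nil, [], 0, 292, 251, 251, 209, 78, 0, 0⟩,
⟨78, 44, 87, .nil, [], 0, 273, 232, 232, 189, 79, 0, 0⟩,
⟨79, 43, 86, .nil, [], 0, 273, 232, 232, 190, 80, 0, 0⟩,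
⟨80, 43, 85, .nil, [], 0, 273, 251, 251, 189, 81, 0, 0⟩,
⟨81, 42, 84, .nil, [], 0, 273, 251, 251, 190, 82, 0, 0⟩,
⟨82, 42, 83, .nil, [], 0, 292, 251, 251, 189, 83, 0, 0⟩,
⟨83, 41, 82, .nil, [], 0, 292, 251, 251, 190, 84, 0, 0⟩,
⟨84, 41, 81, .nil, [], 0, 292, 251, 251, 189, 85, 0, 0⟩,
⟨85, 40, 80, .nil, [], 0, 292, 251, 251, 190, 86, 0, 0⟩,
⟨86, 40, 79, .nil, [], 0, 292, 251, 251, 191, 87, 0, 0⟩,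
⟨87, 41, 78, .nil, [], 0, 290, 249, 249, 190, 88, 0, 0⟩,
⟨88, 41, 77, .nil, [], 0, 290, 249, 249, 191, 89, 0, 0⟩,
⟨89, 42, 76, .nil, [], 0, 288, 249, 249, 190, 90, 0, 0⟩,
⟨90, 42, 75, .nil, [], 0, 288, 249, 249, 191, 91, 0, 0⟩,
⟨91, 43, 74, .nil, [], 0, 288, 249, 249, 190, 92, 0, 0⟩,
⟨92, 43, 73, .nil, [], 0, 288, 249, 249, 191, 93, 0, 0⟩,
⟨93, 44, 72, .nil, [], 0, 288, 249, 249, 190, 94, 0, 0⟩,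
⟨94, 44, 71, .nil, [], 0, 288, 249, 249, 191, 95, 0, 0⟩,
⟨95, 45, 70, .nil, [], 0, 288, 249, 249, 190, 96, 0, 0⟩,
⟨96, 45, 69, .nil, [], 0, 288, 249, 249, 191, 97, 0, 0⟩]

theorem yCHL1_ok : grpNL MCH.H MCH.A SCH (phs 2280 yCH1) yCHL1 = true := by decide +kernel

/-- accumulated states -/
def yCH2 : List Mo := addN 2280 yCHL1 yCH1

/-- items -/
def yCHL2 : List NI := [
⟨1, 9, 104, .nil, [], 0, 206, 228, 228, 231, 2, 0, 0⟩,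
⟨2, 10, 105, .nil, [], 0, 206, 188, 188, 211, 3, 0, 0⟩,
⟨3, 11, 105, .nil, [], 0, 206, 188, 188, 191, 4, 0, 0⟩,
⟨4, 12, 104, .nil, [], 0, 206, 228, 228, 211, 5, 0, 0⟩,
⟨5, 13, 104, .nil, [], 0, 206, 228, 228, 231, 6, 0, 0⟩,
⟨6, 14, 105, .nil, [], 0, 206, 188, 188, 211, 7, 0, 0⟩,
⟨7, 15, 105, .nil, [], 0, 206, 188, 188, 191, 8, 0, 0⟩,
⟨8, 16, 104, .nil, [], 0, 206, 228, 228, 211, 9, 0, 0⟩,
⟨9, 17, 104, .nil, [], 0, 206, 228, 228, 231, 10, 0, 0⟩,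
⟨10, 18, 105, .nil, [], 0, 206, 188, 188, 211, 11, 0, 0⟩,
⟨11, 19, 105, .nil, [], 0, 206, 188, 188, 191, 12, 0, 0⟩,
⟨12, 20, 104, .nil, [], 0, 206, 228, 228, 190, 13, 0, 0⟩,
⟨13, 20, 103, .nil, [], 0, 227, 249, 249, 191, 14, 0, 0⟩,
⟨14, 21, 102, .nil, [], 0, 267, 249, 249, 211, 15, 0, 0⟩,
⟨15, 22, 102, .nil, [], 0, 267, 228, 228, 191, 16, 0, 0⟩,
⟨16, 23, 101, .nil, [], 0, 267, 228, 228, 211, 17, 0, 0⟩,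
⟨17, 24, 101, .nil, [], 0, 246, 228, 228, 191, 18, 0, 0⟩,
⟨18, 25, 100, .nil, [], 0, 246, 228, 228, 211, 19, 0, 0⟩,
⟨19, 26, 100, .nil, [], 0, 246, 228, 228, 191, 20, 0, 0⟩,
⟨20, 27, 99, .nil, [], 0, 246, 228, 228, 211, 21, 0, 0⟩,
⟨21, 28, 99, .nil, [], 0, 246, 228, 228, 191, 22, 0, 0⟩,
⟨22, 29, 98, .nil, [], 0, 246, 228, 228, 211, 23, 0, 0⟩,
⟨23, 30, 98, .nil, [], 0, 246, 228, 228, 191, 24, 0, 0⟩,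
⟨24, 31, 97, .nil, [], 0, 246, 228, 228, 211, 25, 0, 0⟩,
⟨25, 32, 97, .nil, [], 0, 246, 228, 228, 191, 26, 0, 0⟩,
⟨26, 33, 96, .nil, [], 0, 246, 228, 228, 211, 27, 0, 0⟩,
⟨27, 34, 96, .nil, [], 0, 246, 228, 228, 191, 28, 0, 0⟩,
⟨28, 35, 95, .nil, [], 0, 246, 228, 228, 211, 29, 0, 0⟩,
⟨29, 36, 95, .nil, [], 0, 246, 228, 228, 191, 30, 0, 0⟩]

theorem yCHL2_ok : grpNL MCH.H MCH.A SCH (phs 2280 yCH2) yCHL2 = true := by decide +kernel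

/-- accumulated states -/
def yCH3 : List Mo := addN 2280 yCHL2 yCH2

theorem yCH_chain : ML MCH SCH yCH0 yCH3 := by
  have c0 : ML MCH SCH yCH0 yCH0 := .nil
  have c1 : ML MCH SCH yCH0 yCH1 := .N c0 2280 yCHL0 (by decide +kernel) yCHL0_ok
  have c2 : ML MCH SCH yCH0 yCH2 := .N c1 2280 yCHL1 (by decide +kernel) yCHL1_ok
  have c3 : ML MCH SCH yCH0 yCH3 := .N c2 2280 yCHL2 (by decide +kernel) yCHL2_ok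
  exact c3

end Pool.Agent.Lib.H32C.Loc
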