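import Pool.Agent.Lib.H32C.ChC
import Pool.Agent.Lib.H32C.TdCHa
import Pool.Agent.Lib.H32C.TdCHb
import Pool.Agent.Lib.H32C.TdCHc

/-!
# Tile data: CH (choice of Black; composite of two tiles; no resident is used, the bishop of the
tile description stands in a closed cell)
-/

set_option autoImplicit false

namespace Pool.Agent.Lib.H32C.Loc

/-- the entry item -/
def eCH : NI := ⟨0, 8, 104, .nil, [], 0, 206, 228, 228, 211, 1, 0, 0⟩

theorem CH_in : nthP SCH 0 = (ent Dir.R).map (fun q => ⟨q.x + 0, q.y + 64, q.c⟩) := rfl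

theorem CH_outU : nthP SCH 72 = (ext Dir.R).map (fun q => ⟨q.x + 0, q.y + 64, q.c⟩) := rfl

theorem CH_outL : nthP SCH 137 = ext Dir.R := rfl

/-- **The certificate of the tile of the choice.** -/
theorem CH_cert : ChoS MCH 2280 ((ent Dir.R).map fun q => ⟨q.x + 0, q.y + 64, q.c⟩)
    ((ext Dir.R).map fun q => ⟨q.x + 0, q.y + 64, q.c⟩) (ext Dir.R) where
  ok := MCH_ok
  st := by decide +kernel
  up := ⟨SCH, 0, 72, 137, uCH4, CH_in, CH_outU, CH_outL, uCH_chain, by decide +kernel⟩
  low := ⟨SCH, 72, 137, eCH, vCH2, yCH3, CH_in, CH_outU, CH_outL, vCH_chain, yCH_chain,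
    by decide +kernel, by decide +kernel, by decide +kernel, by decide +kernel⟩

end Pool.Agent.Lib.H32C.Loc
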