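import Pool.Agent.Lib.H32C.Mem
import Pool.Agent.Lib.H32C.TdAr
import Pool.Agent.Lib.H32C.TdBase
import Pool.Agent.Lib.H32C.World

/-!
# Tile data: CL (crossing; resident bishop)
-/

set_option autoImplicit false

namespace Pool.Agent.Lib.H32C.Loc

theorem ACL_L : rowsEq ACL 0 8 PH 64 = true := by decide +kernel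

theorem ACL_R : rowsEq ACL 64 8 PH 64 = true := by decide +kernel

theorem ACL_B : colsEq ACL 0 PV 16 = true := by decide +kernel

theorem ACL_T : colsEq ACL 64 PV 16 = true := by decide +kernel

theorem ACL_C : cornersOk ACL = true := by decide +kernel

theorem ACL_K : noKing ACL = true := by decide +kernel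

/-- the tile -/
def MCL : MT := ⟨80, ACL, 11, [2500, 1631]⟩

theorem MCL_ok : mtOk MCL = true := by decide +kernel

/-- the states -/
def SCL : List (List Pc) := [
[⟨71, 41, 6⟩, ⟨74, 41, 10⟩, ⟨75, 41, 10⟩],
[⟨70, 41, 6⟩, ⟨73, 40, 10⟩, ⟨74, 41, 10⟩],
[⟨69, 40, 6⟩, ⟨72, 40, 10⟩, ⟨73, 40, 10⟩],
[⟨68, 40, 6⟩, ⟨71, 41, 10⟩, ⟨72, 40, 10⟩],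
[⟨67, 41, 6⟩, ⟨70, 41, 10⟩, ⟨71, 41, 10⟩],
[⟨66, 41, 6⟩, ⟨69, 40, 10⟩, ⟨70, 41, 10⟩],
[⟨65, 40, 6⟩, ⟨68, 40, 10⟩, ⟨69, 40, 10⟩],
[⟨64, 40, 6⟩, ⟨67, 41, 10⟩, ⟨68, 40, 10⟩],
[⟨63, 41, 6⟩, ⟨66, 41, 10⟩, ⟨67, 41, 10⟩],
[⟨62, 41, 6⟩, ⟨65, 40, 10⟩, ⟨66, 41, 10⟩],
[⟨61, 40, 6⟩, ⟨64, 40, 10⟩, ⟨65, 40, 10⟩],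
[⟨60, 40, 6⟩, ⟨63, 41, 10⟩, ⟨64, 40, 10⟩],
[⟨59, 41, 6⟩, ⟨62, 41, 10⟩, ⟨63, 41, 10⟩],
[⟨58, 41, 6⟩, ⟨61, 40, 10⟩, ⟨62, 41, 10⟩],
[⟨57, 40, 6⟩, ⟨60, 40, 10⟩, ⟨61, 40, 10⟩],
[⟨56, 40, 6⟩, ⟨59, 41, 10⟩, ⟨60, 40, 10⟩],
[⟨55, 41, 6⟩, ⟨58, 41, 10⟩, ⟨59, 41, 10⟩],
[⟨54, 41, 6⟩, ⟨57, 40, 10⟩, ⟨58, 41, 10⟩],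
[⟨53, 40, 6⟩, ⟨56, 40, 10⟩, ⟨57, 40, 10⟩],
[⟨53, 39, 6⟩, ⟨55, 41, 10⟩, ⟨56, 40, 10⟩],
[⟨52, 38, 6⟩, ⟨54, 41, 10⟩, ⟨55, 41, 10⟩],
[⟨51, 38, 6⟩, ⟨53, 40, 10⟩, ⟨54, 41, 10⟩],
[⟨50, 39, 6⟩, ⟨53, 39, 10⟩, ⟨53, 40, 10⟩],
[⟨49, 40, 6⟩, ⟨53, 39, 10⟩, ⟨53, 40, 10⟩],
[⟨49, 41, 6⟩, ⟨51, 39, 10⟩, ⟨53, 39, 10⟩],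
[⟨48, 42, 6⟩, ⟨51, 39, 10⟩, ⟨51, 40, 10⟩],
[⟨48, 43, 6⟩, ⟨49, 40, 10⟩, ⟨51, 40, 10⟩],
[⟨49, 44, 6⟩, ⟨49, 40, 10⟩, ⟨49, 41, 10⟩],
[⟨49, 45, 6⟩, ⟨48, 42, 10⟩, ⟨49, 41, 10⟩],
[⟨48, 46, 6⟩, ⟨48, 42, 10⟩, ⟨48, 43, 10⟩],
[⟨48, 47, 6⟩, ⟨48, 43, 10⟩, ⟨49, 44, 10⟩],
[⟨49, 48, 6⟩, ⟨49, 44, 10⟩, ⟨49, 45, 10⟩],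
[⟨49, 49, 6⟩, ⟨48, 46, 10⟩, ⟨49, 45, 10⟩],
[⟨50, 50, 6⟩, ⟨48, 46, 10⟩, ⟨48, 47, 10⟩],
[⟨50, 51, 6⟩, ⟨48, 47, 10⟩, ⟨49, 48, 10⟩],
[⟨49, 52, 6⟩, ⟨49, 48, 10⟩, ⟨49, 49, 10⟩],
[⟨48, 52, 6⟩, ⟨49, 49, 10⟩, ⟨50, 50, 10⟩],
[⟨47, 53, 6⟩, ⟨50, 50, 10⟩, ⟨50, 51, 10⟩],
[⟨46, 53, 6⟩, ⟨49, 52, 10⟩, ⟨50, 51, 10⟩],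
[⟨45, 52, 6⟩, ⟨48, 52, 10⟩, ⟨49, 52, 10⟩],
[⟨44, 52, 6⟩, ⟨47, 53, 10⟩, ⟨48, 52, 10⟩],
[⟨43, 51, 6⟩, ⟨46, 53, 10⟩, ⟨47, 53, 10⟩],
[⟨43, 50, 6⟩, ⟨45, 52, 10⟩, ⟨46, 53, 10⟩],
[⟨42, 49, 6⟩, ⟨44, 52, 10⟩, ⟨45, 52, 10⟩],
[⟨42, 48, 6⟩, ⟨43, 51, 10⟩, ⟨44, 52, 10⟩],
[⟨41, 47, 6⟩, ⟨43, 50, 10⟩, ⟨43, 51, 10⟩],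
[⟨41, 46, 6⟩, ⟨42, 49, 10⟩, ⟨43, 50, 10⟩],
[⟨40, 45, 6⟩, ⟨42, 48, 10⟩, ⟨42, 49, 10⟩],
[⟨39, 45, 6⟩, ⟨41, 47, 10⟩, ⟨42, 48, 10⟩],
[⟨38, 44, 6⟩, ⟨41, 46, 10⟩, ⟨41, 47, 10⟩],
[⟨38, 43, 6⟩, ⟨40, 45, 10⟩, ⟨41, 46, 10⟩],
[⟨39, 42, 6⟩, ⟨39, 45, 10⟩, ⟨40, 45, 10⟩],
[⟨39, 41, 6⟩, ⟨38, 44, 10⟩, ⟨39, 45, 10⟩],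
[⟨38, 40, 6⟩, ⟨38, 43, 10⟩, ⟨38, 44, 10⟩],
[⟨37, 40, 6⟩, ⟨38, 43, 10⟩, ⟨39, 42, 10⟩],
[⟨36, 41, 6⟩, ⟨39, 41, 10⟩, ⟨39, 42, 10⟩],
[⟨35, 41, 6⟩, ⟨38, 40, 10⟩, ⟨39, 41, 10⟩],
[⟨34, 42, 6⟩, ⟨37, 40, 10⟩, ⟨38, 40, 10⟩],
[⟨33, 42, 6⟩, ⟨36, 41, 10⟩, ⟨37, 40, 10⟩],
[⟨32, 41, 6⟩, ⟨35, 41, 10⟩, ⟨36, 41, 10⟩],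
[⟨32, 40, 6⟩, ⟨34, 42, 10⟩, ⟨35, 41, 10⟩],
[⟨31, 39, 6⟩, ⟨33, 42, 10⟩, ⟨34, 42, 10⟩],
[⟨30, 39, 6⟩, ⟨32, 41, 10⟩, ⟨33, 42, 10⟩],
[⟨29, 40, 6⟩, ⟨32, 40, 10⟩, ⟨32, 41, 10⟩],
[⟨28, 41, 6⟩, ⟨32, 40, 10⟩, ⟨32, 41, 10⟩],
[⟨28, 42, 6⟩, ⟨30, 40, 10⟩, ⟨32, 40, 10⟩],
[⟨27, 43, 6⟩, ⟨30, 40, 10⟩, ⟨30, 41, 10⟩],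
[⟨26, 43, 6⟩, ⟨28, 41, 10⟩, ⟨30, 41, 10⟩],
[⟨25, 42, 6⟩, ⟨28, 41, 10⟩, ⟨28, 42, 10⟩],
[⟨24, 42, 6⟩, ⟨27, 43, 10⟩, ⟨28, 42, 10⟩],
[⟨23, 41, 6⟩, ⟨26, 43, 10⟩, ⟨27, 43, 10⟩],
[⟨22, 41, 6⟩, ⟨25, 42, 10⟩, ⟨26, 43, 10⟩],
[⟨21, 40, 6⟩, ⟨24, 42, 10⟩, ⟨25, 42, 10⟩],
[⟨20, 40, 6⟩, ⟨23, 41, 10⟩, ⟨24, 42, 10⟩],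
[⟨19, 41, 6⟩, ⟨22, 41, 10⟩, ⟨23, 41, 10⟩],
[⟨18, 41, 6⟩, ⟨21, 40, 10⟩, ⟨22, 41, 10⟩],
[⟨17, 40, 6⟩, ⟨20, 40, 10⟩, ⟨21, 40, 10⟩],
[⟨16, 40, 6⟩, ⟨19, 41, 10⟩, ⟨20, 40, 10⟩],
[⟨15, 41, 6⟩, ⟨18, 41, 10⟩, ⟨19, 41, 10⟩],
[⟨14, 41, 6⟩, ⟨17, 40, 10⟩, ⟨18, 41, 10⟩],
[⟨13, 40, 6⟩, ⟨16, 40, 10⟩, ⟨17, 40, 10⟩],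
[⟨12, 40, 6⟩, ⟨15, 41, 10⟩, ⟨16, 40, 10⟩],
[⟨11, 41, 6⟩, ⟨14, 41, 10⟩, ⟨15, 41, 10⟩],
[⟨10, 41, 6⟩, ⟨13, 40, 10⟩, ⟨14, 41, 10⟩],
[⟨9, 40, 6⟩, ⟨12, 40, 10⟩, ⟨13, 40, 10⟩],
[⟨8, 40, 6⟩, ⟨11, 41, 10⟩, ⟨12, 40, 10⟩],
[⟨7, 41, 6⟩, ⟨10, 41, 10⟩, ⟨11, 41, 10⟩],
[⟨41, 71, 6⟩, ⟨41, 74, 10⟩, ⟨41, 75, 10⟩],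
[⟨41, 70, 6⟩, ⟨40, 73, 10⟩, ⟨41, 74, 10⟩],
[⟨40, 69, 6⟩, ⟨40, 72, 10⟩, ⟨40, 73, 10⟩],
[⟨40, 68, 6⟩, ⟨40, 72, 10⟩, ⟨41, 71, 10⟩],
[⟨41, 67, 6⟩, ⟨41, 70, 10⟩, ⟨41, 71, 10⟩],
[⟨41, 66, 6⟩, ⟨40, 69, 10⟩, ⟨41, 70, 10⟩],
[⟨40, 65, 6⟩, ⟨40, 68, 10⟩, ⟨40, 69, 10⟩],
[⟨40, 64, 6⟩, ⟨40, 68, 10⟩, ⟨41, 67, 10⟩],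
[⟨41, 63, 6⟩, ⟨41, 66, 10⟩, ⟨41, 67, 10⟩],
[⟨41, 62, 6⟩, ⟨40, 65, 10⟩, ⟨41, 66, 10⟩],
[⟨40, 61, 6⟩, ⟨40, 64, 10⟩, ⟨40, 65, 10⟩],
[⟨40, 60, 6⟩, ⟨40, 64, 10⟩, ⟨41, 63, 10⟩],
[⟨41, 59, 6⟩, ⟨41, 62, 10⟩, ⟨41, 63, 10⟩],
[⟨41, 58, 6⟩, ⟨40, 61, 10⟩, ⟨41, 62, 10⟩],
[⟨40, 57, 6⟩, ⟨40, 60, 10⟩, ⟨40, 61, 10⟩],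
[⟨40, 56, 6⟩, ⟨40, 60, 10⟩, ⟨41, 59, 10⟩],
[⟨41, 55, 6⟩, ⟨41, 58, 10⟩, ⟨41, 59, 10⟩],
[⟨41, 54, 6⟩, ⟨40, 57, 10⟩, ⟨41, 58, 10⟩],
[⟨40, 53, 6⟩, ⟨40, 56, 10⟩, ⟨40, 57, 10⟩],
[⟨40, 52, 6⟩, ⟨40, 56, 10⟩, ⟨41, 55, 10⟩],
[⟨41, 51, 6⟩, ⟨41, 54, 10⟩, ⟨41, 55, 10⟩],
[⟨41, 50, 6⟩, ⟨40, 53, 10⟩, ⟨41, 54, 10⟩],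
[⟨42, 49, 6⟩, ⟨40, 52, 10⟩, ⟨40, 53, 10⟩],
[⟨42, 48, 6⟩, ⟨40, 52, 10⟩, ⟨41, 51, 10⟩],
[⟨41, 47, 6⟩, ⟨41, 50, 10⟩, ⟨41, 51, 10⟩],
[⟨41, 46, 6⟩, ⟨41, 50, 10⟩, ⟨42, 49, 10⟩],
[⟨38, 39, 6⟩, ⟨38, 43, 10⟩, ⟨39, 42, 10⟩],
[⟨39, 38, 6⟩, ⟨39, 41, 10⟩, ⟨39, 42, 10⟩],
[⟨39, 37, 6⟩, ⟨38, 40, 10⟩, ⟨39, 41, 10⟩],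
[⟨40, 36, 6⟩, ⟨38, 39, 10⟩, ⟨38, 40, 10⟩],
[⟨40, 35, 6⟩, ⟨38, 39, 10⟩, ⟨39, 38, 10⟩],
[⟨41, 34, 6⟩, ⟨39, 37, 10⟩, ⟨39, 38, 10⟩],
[⟨41, 33, 6⟩, ⟨39, 37, 10⟩, ⟨40, 36, 10⟩],
[⟨42, 32, 6⟩, ⟨40, 35, 10⟩, ⟨40, 36, 10⟩],
[⟨42, 31, 6⟩, ⟨40, 35, 10⟩, ⟨41, 34, 10⟩],
[⟨43, 30, 6⟩, ⟨41, 33, 10⟩, ⟨41, 34, 10⟩],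
[⟨43, 29, 6⟩, ⟨41, 33, 10⟩, ⟨42, 32, 10⟩],
[⟨44, 28, 6⟩, ⟨42, 31, 10⟩, ⟨42, 32, 10⟩],
[⟨45, 28, 6⟩, ⟨42, 31, 10⟩, ⟨43, 30, 10⟩],
[⟨46, 27, 6⟩, ⟨43, 29, 10⟩, ⟨43, 30, 10⟩],
[⟨46, 26, 6⟩, ⟨43, 29, 10⟩, ⟨44, 28, 10⟩],
[⟨45, 25, 6⟩, ⟨44, 28, 10⟩, ⟨45, 28, 10⟩],
[⟨45, 24, 6⟩, ⟨45, 28, 10⟩, ⟨46, 27, 10⟩],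
[⟨44, 23, 6⟩, ⟨46, 26, 10⟩, ⟨46, 27, 10⟩],
[⟨43, 23, 6⟩, ⟨45, 25, 10⟩, ⟨46, 26, 10⟩],
[⟨42, 22, 6⟩, ⟨45, 24, 10⟩, ⟨45, 25, 10⟩],
[⟨41, 22, 6⟩, ⟨44, 23, 10⟩, ⟨45, 24, 10⟩],
[⟨40, 21, 6⟩, ⟨43, 23, 10⟩, ⟨44, 23, 10⟩],
[⟨40, 20, 6⟩, ⟨42, 22, 10⟩, ⟨43, 23, 10⟩],
[⟨41, 19, 6⟩, ⟨41, 22, 10⟩, ⟨42, 22, 10⟩],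
[⟨41, 18, 6⟩, ⟨40, 21, 10⟩, ⟨41, 22, 10⟩],
[⟨40, 17, 6⟩, ⟨40, 20, 10⟩, ⟨40, 21, 10⟩],
[⟨40, 16, 6⟩, ⟨40, 20, 10⟩, ⟨41, 19, 10⟩],
[⟨41, 15, 6⟩, ⟨41, 18, 10⟩, ⟨41, 19, 10⟩],
[⟨41, 14, 6⟩, ⟨40, 17, 10⟩, ⟨41, 18, 10⟩],
[⟨40, 13, 6⟩, ⟨40, 16, 10⟩, ⟨40, 17, 10⟩],
[⟨40, 12, 6⟩, ⟨40, 16, 10⟩, ⟨41, 15, 10⟩],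
[⟨41, 11, 6⟩, ⟨41, 14, 10⟩, ⟨41, 15, 10⟩],
[⟨41, 10, 6⟩, ⟨40, 13, 10⟩, ⟨41, 14, 10⟩],
[⟨40, 9, 6⟩, ⟨40, 12, 10⟩, ⟨40, 13, 10⟩],
[⟨40, 8, 6⟩, ⟨40, 12, 10⟩, ⟨41, 11, 10⟩],
[⟨41, 7, 6⟩, ⟨41, 10, 10⟩, ⟨41, 11, 10⟩]]

end Pool.Agent.Lib.H32C.Loc
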