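import Pool.Agent.Lib.H32C.MemChain
import Pool.Agent.Lib.H32C.TdCL0

/-!
# Part a of the certificate of the tile TdCL
-/

set_option autoImplicit false

namespace Pool.Agent.Lib.H32C.Loc

/-- accumulated states -/
def uCLL0 : List Mo := [⟨86, 2500⟩]

/-- items -/
def uCLLL0 : List NI := [
⟨65, 28, 42, (.cons 210 229 (.exit 0) .nil), [66], 0, 0, 0, 0, 0, 0, 0, 0⟩,
⟨66, 27, 43, (.cons 212 192 .nil (.cons 210 209 (.exit 0) .nil)), [67], 0, 0, 0, 0, 0, 0, 0, 0⟩,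
⟨67, 26, 43, (.cons 210 189 (.exit 0) .nil), [68], 0, 0, 0, 0, 0, 0, 0, 0⟩,
⟨68, 25, 42, (.cons 210 209 (.exit 0) .nil), [69], 0, 0, 0, 0, 0, 0, 0, 0⟩,
⟨69, 24, 42, (.cons 210 189 .nil (.cons 210 189 (.exit 0) .nil)), [70], 0, 0, 0, 0, 0, 0, 0, 0⟩,
⟨70, 23, 41, (.cons 210 209 (.exit 0) .nil), [71], 0, 0, 0, 0, 0, 0, 0, 0⟩,
⟨71, 22, 41, (.cons 210 189 .nil (.cons 210 189 (.exit 0) (.cons 210 189 .nil .nil))), [72], 0, 0, 0, 0, 0, 0, 0, 0⟩,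
⟨72, 21, 40, (.cons 210 209 (.exit 0) .nil), [73], 0, 0, 0, 0, 0, 0, 0, 0⟩,
⟨73, 20, 40, (.cons 212 251 (.cons 210 229 .nil .nil) (.cons 210 229 (.exit 0) .nil)), [74], 0, 0, 0, 0, 0, 0, 0, 0⟩,
⟨74, 19, 41, (.cons 193 232 .nil (.cons 210 209 (.exit 0) .nil)), [75], 0, 0, 0, 0, 0, 0, 0, 0⟩,
⟨75, 18, 41, (.cons 191 232 (.cons 210 189 .nil .nil) (.cons 210 189 .nil (.cons 210 189 (.exit 0) .nil))), [76], 0, 0, 0, 0, 0, 0, 0, 0⟩,
⟨76, 17, 40, (.cons 210 209 (.exit 0) .nil), [77], 0, 0, 0, 0, 0, 0, 0, 0⟩,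
⟨77, 16, 40, (.cons 230 251 (.cons 210 229 .nil .nil) (.cons 210 229 (.exit 0) .nil)), [78], 0, 0, 0, 0, 0, 0, 0, 0⟩,
⟨78, 15, 41, (.cons 211 232 .nil (.cons 210 209 (.exit 0) .nil)), [79], 0, 0, 0, 0, 0, 0, 0, 0⟩,
⟨79, 14, 41, (.cons 213 232 (.cons 210 189 .nil .nil) (.cons 210 189 .nil (.cons 210 189 (.exit 0) .nil))), [80], 0, 0, 0, 0, 0, 0, 0, 0⟩,
⟨80, 13, 40, (.cons 210 209 (.exit 0) .nil), [81], 0, 0, 0, 0, 0, 0, 0, 0⟩,
⟨81, 12, 40, (.cons 212 251 (.cons 210 229 .nil .nil) (.cons 210 229 (.exit 0) .nil)), [82], 0, 0, 0, 0, 0, 0, 0, 0⟩,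
⟨82, 11, 41, (.cons 193 232 .nil (.cons 210 209 (.exit 0) .nil)), [83], 0, 0, 0, 0, 0, 0, 0, 0⟩,
⟨83, 10, 41, (.cons 233 232 (.cons 210 189 .nil .nil) (.cons 210 189 .nil (.cons 210 189 (.exit 0) .nil))), [84], 0, 0, 0, 0, 0, 0, 0, 0⟩,
⟨84, 9, 40, (.cons 210 209 (.exit 0) .nil), [85], 0, 0, 0, 0, 0, 0, 0, 0⟩,
⟨85, 8, 40, (.cons 212 251 (.cons 210 229 .nil .nil) (.cons 210 229 (.exit 0) .nil)), [86], 0, 0, 0, 0, 0, 0, 0, 0⟩]

theorem uCLLL0_ok : grpNU MCL.H MCL.A SCL (phs 2500 uCLL0) uCLLL0 = true := by decide +kernel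

/-- accumulated states -/
def uCLL1 : List Mo := addN 2500 uCLLL0 uCLL0

/-- patch setting -/
def uCLLP1 : PS := ⟨28, 41, [⟨⟨44, 21, 11⟩, 2, 2⟩], ⟨false, [44], true⟩, 0, 0, 0⟩

theorem uCLLP1_ok : psOk MCL uCLLP1 = true := by decide +kernel

/-- items -/
def uCLLL1 : List UI := [
⟨64, 2500, [⟨22, 33, 8⟩], (.cons 193 232 (.cons 232 191 .nil .nil) (.cons 210 230 (.exit 0) (.cons 210 230 (.cons 230 249 .nil .nil) .nil))), [[⟨65, [⟨22, 33, 8⟩]⟩]]⟩]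

theorem uCLLL1_ok : grpU MCL SCL uCLLP1 uCLL1 uCLLL1 = true := by decide +kernel

/-- accumulated states -/
def uCLL2 : List Mo := keysU uCLLL1 uCLL1

/-- patch setting -/
def uCLLP2 : PS := ⟨29, 40, [⟨⟨42, 21, 11⟩, 1, 1⟩], ⟨false, [], true⟩, 1, 1631, 42⟩

theorem uCLLP2_ok : psOk MCL uCLLP2 = true := by decide +kernel

/-- items -/
def uCLLL2 : List UI := [
⟨63, 1631, [⟨21, 32, 7⟩], (.cons 210 229 (.exit 0) (.cons 212 251 (.cons 210 229 (.cons 229 210 .nil .nil) .nil) (.cons 210 229 .nil .nil))), [[⟨64, [⟨21, 32, 8⟩]⟩], []]⟩]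

theorem uCLLL2_ok : grpU MCL SCL uCLLP2 uCLL2 uCLLL2 = true := by decide +kernel

/-- accumulated states -/
def uCLL3 : List Mo := keysU uCLLL2 uCLL2

/-- patch setting -/
def uCLLP3 : PS := ⟨29, 39, [⟨⟨62, 21, 11⟩, 1, 1⟩], ⟨false, [], true⟩, 1, 1631, 62⟩

theorem uCLLP3_ok : psOk MCL uCLLP3 = true := by decide +kernel

/-- items -/
def uCLLL3 : List UI := [
⟨62, 1631, [⟨21, 32, 7⟩], (.cons 272 252 (.cons 211 230 (.cons 230 211 (.cons 211 230 (.cons 230 251 .nil (.cons 230 249 .nil .nil)) .nil) (.cons 230 211 .nil (.cons 230 249 .nil .nil))) .nil) (.cons 211 230 (.exit 0) (.cons 211 230 (.cons 230 249 (.cons 232 271 (.cons 271 230 .nil .nil) (.cons 249 269 (.cons 232 250 .nil .nil) (.cons 249 269 (.cons 269 250 .nil .nil) .nil))) (.cons 232 271 (.cons 230 231 (.cons 231 250 .nil .nil) (.cons 230 249 .nil .nil)) (.cons 272 252 (.cons 230 211 (.cons 211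 230 (.cons 230 251 .nil (.cons 230 249 .nil .nil)) .nil) (.cons 230 211 .nil (.cons 230 249 .nil .nil))) (.cons 230 249 .nil .nil)))) .nil))), [[], [⟨63, [⟨21, 32, 7⟩]⟩]]⟩]

theorem uCLLL3_ok : grpU MCL SCL uCLLP3 uCLL3 uCLLL3 = true := by decide +kernel

/-- accumulated states -/
def uCLL4 : List Mo := keysU uCLLL3 uCLL3

/-- items -/
def uCLLL4 : List NI := [
⟨60, 32, 40, (.cons 210 189 (.exit 0) .nil), [61], 0, 0, 0, 0, 0, 0, 0, 0⟩,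
⟨61, 31, 39, (.cons 210 209 (.exit 0) .nil), [62], 0, 0, 0, 0, 0, 0, 0, 0⟩]

theorem uCLLL4_ok : grpNU MCL.H MCL.A SCL (phs 1631 uCLL4) uCLLL4 = true := by decide +kernel

/-- accumulated states -/
def uCLL5 : List Mo := addN 1631 uCLLL4 uCLL4

/-- patch setting -/
def uCLLP5 : PS := ⟨32, 41, [⟨⟨82, 21, 11⟩, 4, 4⟩], ⟨false, [], true⟩, 1, 1631, 82⟩

theorem uCLLP5_ok : psOk MCL uCLLP5 = true := by decide +kernel

/-- items -/
def uCLLL5 : List UI := [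
⟨59, 1631, [⟨24, 35, 7⟩], (.cons 210 190 (.exit 0) .nil), [[], [⟨60, [⟨24, 35, 7⟩]⟩]]⟩]

theorem uCLLL5_ok : grpU MCL SCL uCLLP5 uCLL5 uCLLL5 = true := by decide +kernel

/-- accumulated states -/
def uCLL6 : List Mo := keysU uCLLL5 uCLL5

/-- items -/
def uCLLL6 : List NI := [
⟨24, 49, 41, (.cons 210 229 (.exit 0) .nil), [25], 0, 0, 0, 0, 0, 0, 0, 0⟩,
⟨25, 48, 42, (.cons 212 192 (.cons 232 231 .nil .nil) (.cons 210 230 (.exit 0) (.cons 210 230 (.cons 232 212 .nil (.cons 230 251 (.cons 249 270 .nil .nil) .nil)) .nil))), [26], 0, 0, 0, 0, 0, 0, 0, 0⟩,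
⟨26, 48, 43, (.cons 212 192 (.cons 173 192 .nil (.cons 191 169 .nil .nil)) (.cons 173 192 (.cons 212 192 .nil (.cons 192 171 .nil .nil)) (.cons 210 231 (.exit 0) (.cons 191 169 (.cons 210 191 .nil (.cons 210 191 .nil .nil)) .nil)))), [27], 0, 0, 0, 0, 0, 0, 0, 0⟩,
⟨27, 49, 44, (.cons 191 171 (.cons 208 229 .nil .nil) (.cons 210 230 (.exit 0) (.cons 210 229 (.cons 265 286 .nil .nil) .nil))), [28], 0, 0, 0, 0, 0, 0, 0, 0⟩,
⟨28, 49, 45, (.cons 189 171 (.cons 152 171 .nil (.cons 210 189 .nil .nil)) (.cons 210 229 (.cons 229 250 .nil .nil) (.cons 210 229 (.exit 0) (.cons 167 188 (.cons 189 171 .nil (.cons 210 229 (.cons 229 250 .nil .nil) .nil)) .nil)))), [29], 0, 0, 0, 0, 0, 0, 0, 0⟩,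
⟨29, 48, 46, (.cons 210 230 (.exit 0) (.cons 148 169 (.cons 210 231 .nil .nil) (.cons 210 231 .nil .nil))), [30], 0, 0, 0, 0, 0, 0, 0, 0⟩,
⟨30, 48, 47, (.cons 212 192 (.cons 210 190 (.cons 230 212 (.cons 190 210 .nil .nil) (.cons 128 149 (.cons 190 210 .nil .nil) (.cons 190 211 (.cons 211 190 .nil .nil) .nil))) (.cons 191 169 .nil .nil)) (.cons 210 231 (.exit 0) (.cons 191 169 (.cons 210 191 .nil (.cons 148 169 .nil .nil)) (.cons 191 169 (.cons 210 191 .nil (.cons 148 169 .nil .nil)) .nil)))), [31], 0, 0, 0, 0, 0, 0, 0, 0⟩,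
⟨31, 49, 48, (.cons 191 171 (.cons 210 230 (.cons 230 251 .nil (.cons 230 251 .nil .nil)) (.cons 209 231 (.cons 210 231 .nil .nil) (.cons 210 229 (.cons 270 248 .nil .nil) .nil))) (.cons 210 230 (.exit 0) (.cons 210 230 (.cons 230 251 .nil (.cons 230 251 .nil .nil)) (.cons 210 230 (.cons 230 251 .nil (.cons 230 251 .nil .nil)) (.cons 210 229 (.cons 270 248 .nil .nil) .nil))))), [32], 0, 0, 0, 0, 0, 0, 0, 0⟩,
⟨32, 49, 49, (.cons 189 171 (.cons 210 231 .nil (.cons 210 231 .nil .nil)) (.cons 210 231 .nil (.cons 210 231 (.exit 0) (.cons 210 231 .nil .nil)))), [33], 0, 0, 0, 0, 0, 0, 0, 0⟩,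
⟨33, 50, 50, (.cons 210 230 (.exit 0) .nil), [34], 0, 0, 0, 0, 0, 0, 0, 0⟩,
⟨34, 50, 51, (.cons 210 229 (.exit 0) (.cons 167 188 (.cons 210 229 .nil .nil) .nil)), [35], 0, 0, 0, 0, 0, 0, 0, 0⟩,
⟨35, 49, 52, (.cons 210 209 (.exit 0) (.cons 148 169 .nil .nil)), [36], 0, 0, 0, 0, 0, 0, 0, 0⟩,
⟨36, 48, 52, (.cons 210 229 (.exit 0) (.cons 191 169 .nil .nil)), [37], 0, 0, 0, 0, 0, 0, 0, 0⟩,
⟨37, 47, 53, (.cons 210 209 (.exit 0) .nil), [38], 0, 0, 0, 0, 0, 0, 0, 0⟩,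
⟨38, 46, 53, (.cons 210 189 (.cons 187 208 .nil .nil) (.cons 210 189 (.exit 0) .nil)), [39], 0, 0, 0, 0, 0, 0, 0, 0⟩,
⟨39, 45, 52, (.cons 210 209 (.exit 0) (.cons 210 229 (.cons 229 248 .nil .nil) .nil)), [40], 0, 0, 0, 0, 0, 0, 0, 0⟩,
⟨40, 44, 52, (.cons 210 189 .nil (.cons 210 189 (.exit 0) (.cons 210 229 (.cons 230 251 (.cons 229 249 .nil .nil) (.cons 229 249 .nil (.cons 229 249 .nil .nil))) .nil))), [41], 0, 0, 0, 0, 0, 0, 0, 0⟩,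
⟨41, 43, 51, (.cons 210 190 (.exit 0) .nil), [42], 0, 0, 0, 0, 0, 0, 0, 0⟩,
⟨42, 43, 50, (.cons 210 189 (.exit 0) (.cons 210 229 (.cons 229 228 .nil (.cons 229 228 (.cons 228 247 (.cons 249 268 .nil .nil) .nil) (.cons 229 228 .nil .nil))) .nil)), [43], 0, 0, 0, 0, 0, 0, 0, 0⟩,
⟨43, 42, 49, (.cons 210 190 (.exit 0) .nil), [44], 0, 0, 0, 0, 0, 0, 0, 0⟩,
⟨44, 42, 48, (.cons 210 189 (.exit 0) (.cons 210 189 .nil (.cons 210 189 (.cons 189 169 (.cons 169 148 .nil (.cons 169 148 (.cons 148 147 .nil .nil) (.cons 169 188 (.cons 250 209 .nil .nil) .nil))) .nil) (.cons 210 189 (.cons 189 169 (.cons 169 148 .nil (.cons 169 148 (.cons 148 147 .nil .nil) (.cons 169 188 (.cons 250 209 .nil .nil) .nil))) (.cons 189 169 (.cons 169 148 .nil (.cons 169 188 (.cons 188 209 .nil .nil) .nil)) .nil)) .nil)))), [45], 0, 0, 0, 0, 0, 0, 0, 0⟩,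
⟨45, 41, 47, (.cons 210 190 (.exit 0) .nil), [46], 0, 0, 0, 0, 0, 0, 0, 0⟩,
⟨46, 41, 46, (.cons 210 189 (.exit 0) (.cons 210 189 .nil (.cons 210 189 (.cons 189 188 .nil .nil) (.cons 210 189 (.cons 189 188 .nil (.cons 189 188 .nil .nil)) .nil)))), [47], 0, 0, 0, 0, 0, 0, 0, 0⟩,
⟨47, 40, 45, (.cons 210 209 (.exit 0) .nil), [48], 0, 0, 0, 0, 0, 0, 0, 0⟩,
⟨48, 39, 45, (.cons 230 251 .nil (.cons 210 189 (.exit 0) .nil)), [49], 0, 0, 0, 0, 0, 0, 0, 0⟩,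
⟨49, 38, 44, (.cons 230 251 .nil (.cons 210 190 (.exit 0) .nil)), [50], 0, 0, 0, 0, 0, 0, 0, 0⟩,
⟨50, 38, 43, (.cons 210 191 (.exit 0) .nil), [51], 0, 0, 0, 0, 0, 0, 0, 0⟩,
⟨51, 39, 42, (.cons 250 232 .nil (.cons 210 190 (.exit 0) .nil)), [52], 0, 0, 0, 0, 0, 0, 0, 0⟩,
⟨52, 39, 41, (.cons 210 189 .nil (.cons 252 251 (.cons 210 189 .nil (.cons 210 230 (.cons 230 249 .nil (.cons 230 249 .nil .nil)) (.cons 210 231 .nil (.cons 210 189 (.cons 189 188 .nil (.cons 247 228 (.cons 189 188 .nil .nil) (.cons 189 188 .nil .nil))) (.cons 210 189 (.cons 189 188 .nil (.cons 247 228 (.cons 189 188 .nil .nil) (.cons 189 188 .nil .nil))) .nil))))) (.cons 247 228 (.cons 210 189 .nil (.cons 210 189 .nil (.cons 210 230 .nil (.cons 210 230 .nil (.cons 210 230 .nil .nil))))) (.cons 210 189 (.exit 0) (.cons 210 189 (.cons 189 188 .nil (.cons 247 228 .nil .nil)) (.cons 210 189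 (.cons 189 188 .nil (.cons 247 228 (.cons 189 188 .nil .nil) (.cons 189 188 .nil .nil))) (.cons 210 189 (.cons 189 188 .nil (.cons 247 228 (.cons 189 188 .nil .nil) (.cons 189 188 .nil .nil))) .nil))))))), [53], 0, 0, 0, 0, 0, 0, 0, 0⟩,
⟨53, 38, 40, (.cons 210 209 (.exit 0) (.cons 268 249 .nil .nil)), [54], 0, 0, 0, 0, 0, 0, 0, 0⟩,
⟨54, 37, 40, (.cons 210 229 (.exit 0) (.cons 231 249 .nil .nil)), [55], 0, 0, 0, 0, 0, 0, 0, 0⟩,
⟨55, 36, 41, (.cons 210 209 (.exit 0) .nil), [56], 0, 0, 0, 0, 0, 0, 0, 0⟩,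
⟨56, 35, 41, (.cons 251 232 (.cons 210 229 (.cons 231 250 .nil .nil) (.cons 210 211 (.cons 211 192 .nil .nil) (.cons 210 229 (.cons 232 211 (.cons 229 228 .nil .nil) (.cons 229 228 .nil .nil)) .nil))) (.cons 210 229 (.cons 231 250 .nil .nil) (.cons 210 229 (.exit 0) (.cons 210 229 (.cons 231 250 .nil .nil) (.cons 212 231 (.cons 251 232 (.cons 210 229 (.cons 231 250 .nil .nil) (.cons 150 171 .nil .nil)) (.cons 210 229 (.cons 231 250 .nil .nil) (.cons 232 192 (.cons 192 232 .nil (.cons 150 171 .nil .nil)) (.cons 210 229 (.cons 231 250 .nil .nil) .nil)))) .nil))))), [57], 0, 0, 0, 0, 0, 0, 0, 0⟩,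
⟨57, 34, 42, (.cons 210 209 (.exit 0) (.cons 210 231 (.cons 231 210 .nil (.cons 231 252 .nil .nil)) .nil)), [58], 0, 0, 0, 0, 0, 0, 0, 0⟩,
⟨58, 33, 42, (.cons 213 232 (.cons 210 211 (.cons 212 233 (.cons 211 210 .nil .nil) (.cons 211 192 .nil .nil)) .nil) (.cons 210 189 (.exit 0) .nil)), [59], 0, 0, 0, 0, 0, 0, 0, 0⟩]

theorem uCLLL6_ok : grpNU MCL.H MCL.A SCL (phs 1631 uCLL6) uCLLL6 = true := by decide +kernel

/-- accumulated states -/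
def uCLL7 : List Mo := addN 1631 uCLLL6 uCLL6

/-- patch setting -/
def uCLLP7 : PS := ⟨49, 40, [⟨⟨44, 21, 11⟩, 12, 12⟩], ⟨false, [44], true⟩, 0, 0, 0⟩

theorem uCLLP7_ok : psOk MCL uCLLP7 = true := by decide +kernel

/-- items -/
def uCLLL7 : List UI := [
⟨23, 1631, [⟨43, 32, 8⟩], (.cons 193 232 (.cons 208 229 (.cons 210 191 .nil .nil) (.cons 210 191 .nil .nil)) (.cons 210 230 (.exit 0) (.cons 210 230 (.cons 230 249 (.cons 271 270 .nil .nil) (.cons 230 249 (.cons 249 248 .nil .nil) .nil)) (.cons 210 230 (.cons 230 249 (.cons 271 270 .nil .nil) .nil) .nil)))), [[⟨24, [⟨43, 32, 8⟩]⟩]]⟩]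

theorem uCLLL7_ok : grpU MCL SCL uCLLP7 uCLL7 uCLLL7 = true := by decide +kernel

/-- accumulated states -/
def uCLL8 : List Mo := keysU uCLLL7 uCLL7

/-- patch setting -/
def uCLLP8 : PS := ⟨49, 40, [⟨⟨44, 21, 11⟩, 12, 12⟩], ⟨false, [], true⟩, 1, 2500, 44⟩

theorem uCLLP8_ok : psOk MCL uCLLP8 = true := by decide +kernel

/-- items -/
def uCLLL8 : List UI := [
⟨22, 2500, [⟨43, 32, 7⟩], (.cons 191 210 (.exit 0) (.cons 193 232 (.cons 191 210 (.cons 208 229 (.cons 210 191 .nil .nil) (.cons 210 191 .nil .nil)) .nil) (.cons 191 210 (.cons 208 229 .nil .nil) .nil))), [[⟨23, [⟨43, 32, 8⟩]⟩], []]⟩]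

theorem uCLLL8_ok : grpU MCL SCL uCLLP8 uCLL8 uCLLL8 = true := by decide +kernel

/-- accumulated states -/
def uCLL9 : List Mo := keysU uCLLL8 uCLL8

/-- patch setting -/
def uCLLP9 : PS := ⟨51, 38, [⟨⟨82, 21, 11⟩, 12, 12⟩], ⟨false, [], true⟩, 1, 2500, 82⟩

theorem uCLLP9_ok : psOk MCL uCLLP9 = true := by decide +kernel

/-- items -/
def uCLLL9 : List UI := [
⟨21, 2500, [⟨43, 32, 7⟩], (.cons 270 251 (.cons 210 229 (.cons 229 210 (.cons 210 229 (.cons 229 250 .nil (.cons 229 210 .nil .nil)) .nil) (.cons 229 210 .nil (.cons 229 210 .nil .nil))) .nil) (.cons 210 229 (.exit 0) (.cons 210 229 (.cons 229 248 (.cons 231 270 (.cons 246 267 (.cons 270 229 .nil .nil) (.cons 248 229 (.cons 229 250 .nil .nil) .nil)) (.cons 248 268 (.cons 231 249 .nil .nil) (.cons 248 268 (.cons 265 286 (.cons 268 249 .nil .nil) (.cons 268 249 .nil .nil)) (.cons 248 268 (.cons 231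 249 .nil .nil) .nil)))) (.cons 231 270 (.cons 229 230 (.cons 288 249 .nil .nil) (.cons 229 248 (.cons 246 267 .nil .nil) .nil)) (.cons 270 251 (.cons 229 210 (.cons 210 229 (.cons 229 250 .nil (.cons 229 210 .nil .nil)) .nil) (.cons 229 210 .nil (.cons 229 210 .nil .nil))) (.cons 229 248 (.cons 246 267 .nil .nil) .nil)))) .nil))), [[], [⟨22, [⟨43, 32, 7⟩]⟩]]⟩]

theorem uCLLL9_ok : grpU MCL SCL uCLLP9 uCLL9 uCLLL9 = true := by decide +kernel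

/-- accumulated states -/
def uCLL10 : List Mo := keysU uCLLL9 uCLL9

/-- items -/
def uCLLL10 : List NI := [
⟨19, 53, 39, (.cons 210 189 (.exit 0) .nil), [20], 0, 0, 0, 0, 0, 0, 0, 0⟩,
⟨20, 52, 38, (.cons 210 209 (.exit 0) .nil), [21], 0, 0, 0, 0, 0, 0, 0, 0⟩]

theorem uCLLL10_ok : grpNU MCL.H MCL.A SCL (phs 2500 uCLL10) uCLLL10 = true := by decide +kernel

/-- accumulated states -/
def uCLL11 : List Mo := addN 2500 uCLLL10 uCLL10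

/-- patch setting -/
def uCLLP11 : PS := ⟨53, 40, [⟨⟨82, 21, 11⟩, 14, 14⟩], ⟨false, [], true⟩, 1, 2500, 82⟩

theorem uCLLP11_ok : psOk MCL uCLLP11 = true := by decide +kernel

/-- items -/
def uCLLL11 : List UI := [
⟨18, 2500, [⟨45, 34, 7⟩], (.cons 210 190 (.exit 0) .nil), [[], [⟨19, [⟨45, 34, 7⟩]⟩]]⟩]

theorem uCLLL11_ok : grpU MCL SCL uCLLP11 uCLL11 uCLLL11 = true := by decide +kernel

/-- accumulated states -/
def uCLL12 : List Mo := keysU uCLLL11 uCLL11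

/-- items -/
def uCLLL12 : List NI := [
⟨0, 71, 41, (.cons 193 232 .nil (.cons 210 209 (.exit 0) .nil)), [1], 0, 0, 0, 0, 0, 0, 0, 0⟩,
⟨1, 70, 41, (.cons 233 232 (.cons 210 189 .nil .nil) (.cons 210 189 .nil (.cons 210 189 (.exit 0) .nil))), [2], 0, 0, 0, 0, 0, 0, 0, 0⟩,
⟨2, 69, 40, (.cons 210 209 (.exit 0) .nil), [3], 0, 0, 0, 0, 0, 0, 0, 0⟩,
⟨3, 68, 40, (.cons 212 251 (.cons 210 229 .nil .nil) (.cons 210 229 (.exit 0) .nil)), [4], 0, 0, 0, 0, 0, 0, 0, 0⟩,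
⟨4, 67, 41, (.cons 193 232 .nil (.cons 210 209 (.exit 0) .nil)), [5], 0, 0, 0, 0, 0, 0, 0, 0⟩,
⟨5, 66, 41, (.cons 233 232 (.cons 210 189 .nil .nil) (.cons 210 189 .nil (.cons 210 189 (.exit 0) .nil))), [6], 0, 0, 0, 0, 0, 0, 0, 0⟩,
⟨6, 65, 40, (.cons 210 209 (.exit 0) .nil), [7], 0, 0, 0, 0, 0, 0, 0, 0⟩,
⟨7, 64, 40, (.cons 212 251 (.cons 210 229 .nil .nil) (.cons 210 229 (.exit 0) .nil)), [8], 0, 0, 0, 0, 0, 0, 0, 0⟩,
⟨8, 63, 41, (.cons 193 232 .nil (.cons 210 209 (.exit 0) .nil)), [9], 0, 0, 0, 0, 0, 0, 0, 0⟩,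
⟨9, 62, 41, (.cons 233 232 (.cons 210 189 .nil .nil) (.cons 210 189 .nil (.cons 210 189 (.exit 0) .nil))), [10], 0, 0, 0, 0, 0, 0, 0, 0⟩,
⟨10, 61, 40, (.cons 210 209 (.exit 0) .nil), [11], 0, 0, 0, 0, 0, 0, 0, 0⟩,
⟨11, 60, 40, (.cons 230 251 (.cons 210 229 .nil .nil) (.cons 210 229 (.exit 0) .nil)), [12], 0, 0, 0, 0, 0, 0, 0, 0⟩,
⟨12, 59, 41, (.cons 211 232 .nil (.cons 210 209 (.exit 0) .nil)), [13], 0, 0, 0, 0, 0, 0, 0, 0⟩,
⟨13, 58, 41, (.cons 213 232 (.cons 210 189 .nil (.cons 152 171 .nil .nil)) (.cons 210 189 .nil (.cons 210 189 (.exit 0) (.cons 152 171 (.cons 210 189 .nil (.cons 210 189 .nil .nil)) .nil)))), [14], 0, 0, 0, 0, 0, 0, 0, 0⟩,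
⟨14, 57, 40, (.cons 210 209 (.exit 0) (.cons 173 192 .nil .nil)), [15], 0, 0, 0, 0, 0, 0, 0, 0⟩,
⟨15, 56, 40, (.cons 212 251 (.cons 210 229 .nil (.cons 210 229 .nil .nil)) (.cons 210 229 (.exit 0) (.cons 210 229 .nil (.cons 173 192 (.cons 212 251 .nil (.cons 210 229 .nil .nil)) .nil)))), [16], 0, 0, 0, 0, 0, 0, 0, 0⟩,
⟨16, 55, 41, (.cons 193 232 .nil (.cons 210 209 (.exit 0) .nil)), [17], 0, 0, 0, 0, 0, 0, 0, 0⟩,
⟨17, 54, 41, (.cons 213 232 (.cons 210 211 (.cons 211 192 .nil (.cons 211 192 .nil .nil)) .nil) (.cons 213 232 (.cons 210 211 (.cons 211 192 .nil (.cons 211 192 .nil .nil)) (.cons 210 211 (.cons 194 233 .nil .nil) .nil)) (.cons 210 189 (.exit 0) .nil))), [18], 0, 0, 0, 0, 0, 0, 0, 0⟩]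

theorem uCLLL12_ok : grpNU MCL.H MCL.A SCL (phs 2500 uCLL12) uCLLL12 = true := by decide +kernel

/-- accumulated states -/
def uCLL13 : List Mo := addN 2500 uCLLL12 uCLL12

theorem CLL_up {R : Room} {F : Board} {O : Sq} (hF : MBase MCL O F R) (h0 : HasValue (PM MCL SCL F O 86 2500)) :
    HasValue (PM MCL SCL F O 0 2500) := by
  have a0 : HVs MCL SCL F O uCLL0 := by
    intro m hm
    rw [List.mem_singleton.1 hm]
    exact h0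
  have a1 := HVs.N hF MCL_ok 2500 (by decide +kernel) uCLLL0 uCLLL0_ok a0
  have a2 := HVs.U hF MCL_ok uCLLP1 uCLLL1 uCLLP1_ok uCLLL1_ok a1
  have a3 := HVs.U hF MCL_ok uCLLP2 uCLLL2 uCLLP2_ok uCLLL2_ok a2
  have a4 := HVs.U hF MCL_ok uCLLP3 uCLLL3 uCLLP3_ok uCLLL3_ok a3
  have a5 := HVs.N hF MCL_ok 1631 (by decide +kernel) uCLLL4 uCLLL4_ok a4
  have a6 := HVs.U hF MCL_ok uCLLP5 uCLLL5 uCLLP5_ok uCLLL5_ok a5
  have a7 := HVs.N hF MCL_ok 1631 (by decide +kernel) uCLLL6 uCLLL6_ok a6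
  have a8 := HVs.U hF MCL_ok uCLLP7 uCLLL7 uCLLP7_ok uCLLL7_ok a7
  have a9 := HVs.U hF MCL_ok uCLLP8 uCLLL8 uCLLP8_ok uCLLL8_ok a8
  have a10 := HVs.U hF MCL_ok uCLLP9 uCLLL9 uCLLP9_ok uCLLL9_ok a9
  have a11 := HVs.N hF MCL_ok 2500 (by decide +kernel) uCLLL10 uCLLL10_ok a10
  have a12 := HVs.U hF MCL_ok uCLLP11 uCLLL11 uCLLP11_ok uCLLL11_ok a11
  have a13 := HVs.N hF MCL_ok 2500 (by decide +kernel) uCLLL12 uCLLL12_ok a12
  exact a13 ⟨0, 2500⟩ (ME2_membM _ (by decide +kernel))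

end Pool.Agent.Lib.H32C.Loc
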