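import Pool.Agent.Lib.H32C.MemChain
import Pool.Agent.Lib.H32C.TdCL0

/-!
# Part b of the certificate of the tile TdCL
-/

set_option autoImplicit false

namespace Pool.Agent.Lib.H32C.Loc

/-- accumulated states -/
def uCLD0 : List Mo := [⟨148, 2500⟩]

/-- items -/
def uCLDL0 : List NI := [
⟨123, 43, 29, (.cons 210 191 (.cons 193 212 .nil .nil) (.cons 210 191 (.cons 193 212 .nil .nil) (.cons 210 191 (.exit 0) (.cons 210 191 (.cons 191 192 .nil (.cons 193 212 (.cons 191 192 (.cons 212 233 (.cons 192 193 .nil (.cons 192 193 .nil .nil)) .nil) (.cons 191 192 (.cons 192 212 (.cons 212 193 .nil (.cons 212 233 .nil (.cons 212 193 .nil (.cons 212 191 .nil .nil)))) .nil) .nil)) (.cons 191 192 .nil .nil))) (.cons 210 191 (.cons 191 192 .nil (.cons 193 212 (.cons 191 192 (.cons 212 233 (.cons 192 193 .nil (.cons 192 193 .nil .nil)) .nil) (.cons 191 212 (.cons 212 192 (.cons 214 233 (.cons 192 193 .nil .nil)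 .nil) (.cons 212 191 .nil .nil)) .nil)) (.cons 191 192 .nil .nil))) .nil))))), [124], 0, 0, 0, 0, 0, 0, 0, 0⟩,
⟨124, 44, 28, (.cons 210 211 (.exit 0) (.cons 210 211 (.cons 211 192 (.cons 192 172 (.cons 172 151 (.cons 151 170 .nil .nil) .nil) (.cons 192 172 (.cons 191 213 .nil (.cons 172 151 (.cons 149 170 .nil .nil) .nil)) .nil)) (.cons 211 192 (.cons 192 172 .nil .nil) (.cons 211 192 (.cons 192 172 .nil .nil) .nil))) .nil)), [125], 0, 0, 0, 0, 0, 0, 0, 0⟩,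
⟨125, 45, 28, (.cons 210 191 (.exit 0) (.cons 230 249 .nil .nil)), [126], 0, 0, 0, 0, 0, 0, 0, 0⟩,
⟨126, 46, 27, (.cons 210 190 (.exit 0) (.cons 230 249 .nil .nil)), [127], 0, 0, 0, 0, 0, 0, 0, 0⟩,
⟨127, 46, 26, (.cons 210 189 (.exit 0) .nil), [128], 0, 0, 0, 0, 0, 0, 0, 0⟩,
⟨128, 45, 25, (.cons 210 190 (.exit 0) (.cons 250 228 (.cons 208 229 .nil .nil) (.cons 210 190 (.cons 190 169 .nil (.cons 190 169 .nil (.cons 190 169 .nil (.cons 190 169 (.cons 169 168 .nil .nil) .nil)))) .nil))), [129], 0, 0, 0, 0, 0, 0, 0, 0⟩,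
⟨129, 45, 24, (.cons 210 189 (.exit 0) (.cons 210 189 .nil (.cons 228 249 (.cons 210 189 .nil (.cons 210 189 .nil (.cons 210 189 (.cons 189 188 .nil .nil) (.cons 210 189 (.cons 189 188 .nil .nil) (.cons 210 189 (.cons 189 188 .nil (.cons 189 188 .nil .nil)) .nil))))) (.cons 210 189 .nil (.cons 210 189 (.cons 189 188 .nil .nil) (.cons 210 189 (.cons 189 188 .nil .nil) (.cons 210 189 (.cons 189 188 .nil (.cons 189 188 .nil .nil)) .nil))))))), [130], 0, 0, 0, 0, 0, 0, 0, 0⟩,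
⟨130, 44, 23, (.cons 210 209 (.exit 0) .nil), [131], 0, 0, 0, 0, 0, 0, 0, 0⟩,
⟨131, 43, 23, (.cons 292 251 .nil (.cons 210 189 (.exit 0) .nil)), [132], 0, 0, 0, 0, 0, 0, 0, 0⟩,
⟨132, 42, 22, (.cons 230 251 .nil (.cons 210 209 (.exit 0) .nil)), [133], 0, 0, 0, 0, 0, 0, 0, 0⟩,
⟨133, 41, 22, (.cons 210 189 .nil (.cons 210 189 (.exit 0) (.cons 210 189 .nil .nil))), [134], 0, 0, 0, 0, 0, 0, 0, 0⟩,
⟨134, 40, 21, (.cons 210 190 (.exit 0) .nil), [135], 0, 0, 0, 0, 0, 0, 0, 0⟩,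
⟨135, 40, 20, (.cons 210 191 (.exit 0) .nil), [136], 0, 0, 0, 0, 0, 0, 0, 0⟩,
⟨136, 41, 19, (.cons 250 232 .nil (.cons 210 190 (.exit 0) .nil)), [137], 0, 0, 0, 0, 0, 0, 0, 0⟩,
⟨137, 41, 18, (.cons 210 189 .nil (.cons 233 251 (.cons 210 189 .nil (.cons 210 230 (.cons 230 249 .nil (.cons 230 249 .nil .nil)) (.cons 210 231 (.cons 231 232 .nil (.cons 231 232 .nil .nil)) (.cons 228 229 (.cons 210 189 .nil (.cons 229 228 .nil (.cons 270 229 (.cons 210 189 .nil (.cons 207 228 .nil .nil)) .nil))) (.cons 228 229 (.cons 210 189 .nil (.cons 229 228 (.cons 210 230 .nil .nil) (.cons 210 231 (.cons 231 232 .nil (.cons 231 232 .nil .nil)) (.cons 270 229 (.cons 210 189 .nil (.cons 207 228 .nil .nil)) .nil)))) .nil))))) (.cons 207 228 (.cons 210 189 .nil (.cons 210 189 .nil (.cons 210 230 .nil (.cons 210 230 .nil (.cons 210 230 .nil .nil))))) (.cons 210 189 (.exit 0) (.cons 210 231 (.cons 231 232 (.cons 232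 211 .nil (.cons 209 250 .nil .nil)) (.cons 231 232 (.cons 232 211 .nil .nil) (.cons 231 232 .nil (.cons 231 232 .nil .nil)))) (.cons 210 189 (.cons 189 169 (.cons 209 191 (.cons 149 190 .nil .nil) (.cons 169 150 .nil (.cons 169 190 (.cons 190 169 .nil (.cons 228 208 .nil .nil)) .nil))) (.cons 189 169 (.cons 169 150 .nil (.cons 169 190 .nil .nil)) (.cons 189 169 (.cons 169 190 .nil .nil) .nil))) (.cons 210 189 (.cons 189 169 (.cons 209 191 (.cons 149 190 .nil .nil) (.cons 169 150 .nil (.cons 169 190 (.cons 190 169 .nil (.cons 228 208 .nil .nil)) .nil))) (.cons 189 169 (.cons 169 150 .nil (.cons 169 190 .nil .nil)) (.cons 189 169 (.cons 169 190 .nil .nil) .nil))) .nil))))))), [138], 0, 0, 0, 0, 0, 0, 0, 0⟩,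
⟨138, 40, 17, (.cons 210 190 (.exit 0) (.cons 228 249 .nil .nil)), [139], 0, 0, 0, 0, 0, 0, 0, 0⟩,
⟨139, 40, 16, (.cons 210 191 (.exit 0) (.cons 250 232 (.cons 210 191 .nil (.cons 210 191 .nil (.cons 210 230 .nil .nil))) (.cons 269 249 (.cons 250 232 (.cons 210 230 .nil .nil) (.cons 210 191 .nil (.cons 190 231 (.cons 250 232 .nil (.cons 210 191 .nil .nil)) .nil))) (.cons 210 191 .nil (.cons 232 231 (.cons 210 191 (.cons 250 232 .nil (.cons 231 230 .nil .nil)) (.cons 250 232 (.cons 210 191 .nil (.cons 210 191 .nil .nil)) (.cons 210 191 (.cons 250 232 .nil (.cons 231 230 .nil .nil)) (.cons 210 191 .nil .nil)))) .nil))))), [140], 0, 0, 0, 0, 0, 0, 0, 0⟩,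
⟨140, 41, 15, (.cons 269 251 .nil (.cons 210 190 (.exit 0) .nil)), [141], 0, 0, 0, 0, 0, 0, 0, 0⟩,
⟨141, 41, 14, (.cons 210 189 .nil (.cons 229 251 (.cons 210 189 .nil (.cons 250 228 .nil .nil)) (.cons 250 228 (.cons 210 189 .nil (.cons 210 189 .nil (.cons 210 230 .nil .nil))) (.cons 210 189 (.exit 0) (.cons 228 229 (.cons 210 189 .nil (.cons 210 189 (.cons 229 230 .nil (.cons 250 228 .nil .nil)) (.cons 250 228 (.cons 210 189 .nil (.cons 210 189 .nil .nil)) (.cons 210 189 (.cons 229 230 .nil (.cons 250 228 .nil .nil)) .nil)))) .nil))))), [142], 0, 0, 0, 0, 0, 0, 0, 0⟩,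
⟨142, 40, 13, (.cons 210 190 (.exit 0) (.cons 271 249 .nil .nil)), [143], 0, 0, 0, 0, 0, 0, 0, 0⟩,
⟨143, 40, 12, (.cons 210 191 (.exit 0) (.cons 269 249 (.cons 210 191 .nil (.cons 190 231 (.cons 210 191 .nil .nil) .nil)) (.cons 210 191 .nil (.cons 190 231 (.cons 253 251 (.cons 210 191 .nil .nil) (.cons 231 249 (.cons 210 191 .nil .nil) (.cons 210 191 .nil .nil))) .nil)))), [144], 0, 0, 0, 0, 0, 0, 0, 0⟩,
⟨144, 41, 11, (.cons 210 190 (.exit 0) .nil), [145], 0, 0, 0, 0, 0, 0, 0, 0⟩,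
⟨145, 41, 10, (.cons 210 189 .nil (.cons 229 251 (.cons 210 189 .nil (.cons 250 228 .nil .nil)) (.cons 250 228 (.cons 210 189 .nil (.cons 210 189 .nil (.cons 210 230 .nil .nil))) (.cons 210 189 (.exit 0) (.cons 228 229 (.cons 210 189 .nil (.cons 210 189 (.cons 229 230 .nil (.cons 250 228 .nil .nil)) (.cons 250 228 (.cons 210 189 .nil (.cons 210 189 .nil .nil)) (.cons 210 189 (.cons 229 230 .nil (.cons 250 228 .nil .nil)) .nil)))) .nil))))), [146], 0, 0, 0, 0, 0, 0, 0, 0⟩,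
⟨146, 40, 9, (.cons 210 190 (.exit 0) (.cons 271 249 .nil .nil)), [147], 0, 0, 0, 0, 0, 0, 0, 0⟩,
⟨147, 40, 8, (.cons 210 191 (.exit 0) (.cons 269 249 (.cons 210 191 .nil (.cons 190 231 (.cons 210 191 .nil .nil) .nil)) (.cons 210 191 .nil (.cons 190 231 (.cons 253 251 (.cons 210 191 .nil .nil) (.cons 231 249 (.cons 210 191 .nil .nil) (.cons 210 191 .nil .nil))) .nil)))), [148], 0, 0, 0, 0, 0, 0, 0, 0⟩]

theorem uCLDL0_ok : grpNU MCL.H MCL.A SCL (phs 2500 uCLD0) uCLDL0 = true := by decide +kernel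

/-- accumulated states -/
def uCLD1 : List Mo := addN 2500 uCLDL0 uCLD0

/-- patch setting -/
def uCLDP1 : PS := ⟨44, 30, [⟨⟨354, 63, 11⟩, 1, 3⟩, ⟨⟨102, 21, 11⟩, 5, 5⟩], ⟨false, [354], true⟩, 1, 2500, 102⟩

theorem uCLDP1_ok : psOk MCL uCLDP1 = true := by decide +kernel

/-- items -/
def uCLDL1 : List UI := [
⟨122, 2500, [⟨48, 37, 7⟩, ⟨36, 25, 7⟩], (.cons 209 189 (.exit 0) .nil), [[], [⟨123, [⟨48, 37, 7⟩, ⟨36, 25, 7⟩]⟩]]⟩]

theorem uCLDL1_ok : grpU MCL SCL uCLDP1 uCLD1 uCLDL1 = true := by decide +kernel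

/-- accumulated states -/
def uCLD2 : List Mo := keysU uCLDL1 uCLD1

/-- patch setting -/
def uCLDP2 : PS := ⟨42, 31, [⟨⟨357, 63, 11⟩, 1, 2⟩, ⟨⟨42, 21, 11⟩, 3, 3⟩], ⟨false, [357], true⟩, 1, 2500, 42⟩

theorem uCLDP2_ok : psOk MCL uCLDP2 = true := by decide +kernel

/-- items -/
def uCLDL2 : List UI := [
⟨120, 2500, [⟨49, 38, 7⟩, ⟨34, 23, 7⟩], (.cons 230 210 (.exit 0) .nil), [[], [⟨121, [⟨49, 38, 7⟩, ⟨34, 23, 7⟩]⟩]]⟩,
⟨121, 2500, [⟨49, 38, 7⟩, ⟨34, 23, 7⟩], (.cons 210 191 (.cons 191 171 (.cons 171 152 (.cons 154 173 .nil .nil) (.cons 171 152 (.cons 154 173 .nil .nil) (.cons 173 192 (.cons 171 152 .nil (.cons 171 152 .nil (.cons 171 192 .nil .nil))) (.cons 173 192 (.cons 171 152 .nil (.cons 171 152 .nil (.cons 171 192 .nil .nil))) .nil)))) (.cons 191 171 (.cons 173 192 (.cons 171 192 .nil .nil) (.cons 173 192 (.cons 171 192 .nil .nil) .nil)) .nil)) (.cons 210 191 .nil (.cons 210 191 (.exit 0)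 (.cons 210 191 (.cons 191 171 (.cons 171 152 (.cons 154 173 .nil .nil) (.cons 171 152 (.cons 154 173 .nil .nil) (.cons 173 192 (.cons 171 152 .nil (.cons 171 152 .nil (.cons 171 192 .nil .nil))) (.cons 173 192 (.cons 171 152 .nil (.cons 171 152 .nil (.cons 171 192 .nil .nil))) .nil)))) .nil) (.cons 210 191 (.cons 191 171 (.cons 171 152 (.cons 154 173 .nil .nil) (.cons 171 152 (.cons 154 173 .nil .nil) (.cons 173 192 (.cons 171 152 .nil (.cons 171 152 .nil (.cons 171 192 .nil .nil))) (.cons 173 192 (.cons 171 152 .nil (.cons 171 152 .nil (.cons 171 192 .nil .nil))) .nil)))) .nil) .nil))))), [[], [⟨122, [⟨49, 38, 7⟩, ⟨34, 23, 7⟩]⟩]]⟩]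

theorem uCLDL2_ok : grpU MCL SCL uCLDP2 uCLD2 uCLDL2 = true := by decide +kernel

/-- accumulated states -/
def uCLD3 : List Mo := keysU uCLDL2 uCLD2

/-- patch setting -/
def uCLDP3 : PS := ⟨41, 31, [⟨⟨337, 63, 11⟩, 1, 3⟩, ⟨⟨43, 21, 11⟩, 3, 3⟩], ⟨false, [337], true⟩, 1, 2500, 43⟩

theorem uCLDP3_ok : psOk MCL uCLDP3 = true := by decide +kernel

/-- items -/
def uCLDL3 : List UI := [
⟨119, 2500, [⟨48, 37, 7⟩, ⟨34, 23, 7⟩], (.cons 250 231 .nil (.cons 250 231 (.exit 0) (.cons 250 231 (.cons 231 211 (.cons 211 192 (.cons 192 172 (.cons 172 153 (.cons 155 174 .nil .nil) (.cons 172 153 (.cons 155 174 .nil .nil) (.cons 174 193 (.cons 172 153 .nil (.cons 172 153 .nil (.cons 172 193 .nil .nil))) (.cons 174 193 (.cons 172 153 .nil (.cons 172 153 .nil (.cons 172 193 .nil .nil))) .nil)))) (.cons 192 172 (.cons 174 193 (.cons 172 193 .nil .nil) (.cons 174 193 (.cons 172 193 .nil .nil) .nil)) .nil)) (.cons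 211 192 .nil (.cons 211 192 (.cons 192 172 (.cons 172 153 (.cons 155 174 .nil .nil) (.cons 172 153 (.cons 155 174 .nil .nil) (.cons 174 193 (.cons 172 153 .nil (.cons 172 153 .nil (.cons 172 193 .nil .nil))) (.cons 174 193 (.cons 172 153 .nil (.cons 172 153 .nil (.cons 172 193 .nil .nil))) .nil)))) .nil) (.cons 211 192 (.cons 192 172 (.cons 172 153 (.cons 155 174 .nil .nil) (.cons 172 153 (.cons 155 174 .nil .nil) (.cons 174 193 (.cons 172 153 .nil (.cons 172 153 .nil (.cons 172 193 .nil .nil))) (.cons 174 193 (.cons 172 153 .nil (.cons 172 153 .nil (.cons 172 193 .nil .nil))) .nil)))) .nil) .nil)))) .nil) .nil))), [[], [⟨120, [⟨48, 37, 7⟩, ⟨34, 23, 7⟩]⟩]]⟩]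

theorem uCLDL3_ok : grpU MCL SCL uCLDP3 uCLD3 uCLDL3 = true := by decide +kernel

/-- accumulated states -/
def uCLD4 : List Mo := keysU uCLDL3 uCLD3

/-- items -/
def uCLDL4 : List NI := [
⟨87, 41, 71, (.cons 210 190 (.exit 0) .nil), [88], 0, 0, 0, 0, 0, 0, 0, 0⟩,
⟨88, 41, 70, (.cons 210 189 .nil (.cons 229 251 (.cons 210 189 .nil (.cons 250 228 .nil .nil)) (.cons 250 228 (.cons 210 189 .nil (.cons 210 189 .nil (.cons 210 230 .nil .nil))) (.cons 210 189 (.exit 0) (.cons 228 229 (.cons 210 189 .nil (.cons 210 189 (.cons 229 230 .nil (.cons 250 228 .nil .nil)) (.cons 250 228 (.cons 210 189 .nil (.cons 210 189 .nil .nil)) (.cons 210 189 (.cons 229 230 .nil (.cons 250 228 .nil .nil)) .nil)))) .nil))))), [89], 0, 0, 0, 0, 0, 0, 0, 0⟩,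
⟨89, 40, 69, (.cons 210 190 (.exit 0) (.cons 271 249 .nil .nil)), [90], 0, 0, 0, 0, 0, 0, 0, 0⟩,
⟨90, 40, 68, (.cons 210 191 (.exit 0) (.cons 269 249 (.cons 210 191 .nil (.cons 190 231 (.cons 210 191 .nil .nil) .nil)) (.cons 210 191 .nil (.cons 190 231 (.cons 253 251 (.cons 210 191 .nil .nil) (.cons 231 249 (.cons 210 191 .nil .nil) (.cons 210 191 .nil .nil))) .nil)))), [91], 0, 0, 0, 0, 0, 0, 0, 0⟩,
⟨91, 41, 67, (.cons 210 190 (.exit 0) .nil), [92], 0, 0, 0, 0, 0, 0, 0, 0⟩,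
⟨92, 41, 66, (.cons 210 189 .nil (.cons 229 251 (.cons 210 189 .nil (.cons 250 228 .nil .nil)) (.cons 250 228 (.cons 210 189 .nil (.cons 210 189 .nil (.cons 210 230 .nil .nil))) (.cons 210 189 (.exit 0) (.cons 228 229 (.cons 210 189 .nil (.cons 210 189 (.cons 229 230 .nil (.cons 250 228 .nil .nil)) (.cons 250 228 (.cons 210 189 .nil (.cons 210 189 .nil .nil)) (.cons 210 189 (.cons 229 230 .nil (.cons 250 228 .nil .nil)) .nil)))) .nil))))), [93], 0, 0, 0, 0, 0, 0, 0, 0⟩,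
⟨93, 40, 65, (.cons 210 190 (.exit 0) (.cons 271 249 .nil .nil)), [94], 0, 0, 0, 0, 0, 0, 0, 0⟩,
⟨94, 40, 64, (.cons 210 191 (.exit 0) (.cons 269 249 (.cons 210 191 .nil (.cons 270 231 (.cons 210 191 .nil .nil) .nil)) (.cons 210 191 .nil (.cons 270 231 (.cons 253 251 (.cons 210 191 .nil .nil) (.cons 231 249 (.cons 210 191 .nil .nil) (.cons 210 191 .nil .nil))) .nil)))), [95], 0, 0, 0, 0, 0, 0, 0, 0⟩,
⟨95, 41, 63, (.cons 210 190 (.exit 0) .nil), [96], 0, 0, 0, 0, 0, 0, 0, 0⟩,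
⟨96, 41, 62, (.cons 210 189 .nil (.cons 252 251 (.cons 210 189 .nil (.cons 250 228 (.cons 210 230 .nil .nil) (.cons 208 229 (.cons 210 189 .nil (.cons 250 228 .nil .nil)) .nil))) (.cons 250 228 (.cons 210 189 .nil (.cons 210 189 .nil (.cons 210 230 .nil .nil))) (.cons 210 189 (.exit 0) (.cons 208 229 (.cons 210 189 .nil (.cons 252 251 (.cons 210 189 .nil (.cons 250 228 .nil .nil)) (.cons 250 228 (.cons 210 189 .nil (.cons 210 189 .nil .nil)) (.cons 247 249 (.cons 210 189 .nil (.cons 250 228 .nil .nil)) .nil)))) .nil))))), [97], 0, 0, 0, 0, 0, 0, 0, 0⟩,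
⟨97, 40, 61, (.cons 210 190 (.exit 0) (.cons 271 249 .nil .nil)), [98], 0, 0, 0, 0, 0, 0, 0, 0⟩,
⟨98, 40, 60, (.cons 210 191 (.exit 0) (.cons 250 232 (.cons 210 191 .nil (.cons 210 191 .nil (.cons 210 230 .nil .nil))) (.cons 269 249 (.cons 250 232 (.cons 210 230 .nil .nil) (.cons 210 191 .nil (.cons 212 231 (.cons 250 232 .nil (.cons 210 191 .nil .nil)) .nil))) (.cons 210 191 .nil (.cons 232 231 (.cons 210 191 (.cons 250 232 .nil (.cons 231 230 .nil .nil)) (.cons 250 232 (.cons 210 191 .nil (.cons 210 191 .nil .nil)) (.cons 210 191 (.cons 250 232 .nil (.cons 231 230 .nil .nil)) (.cons 210 191 .nil .nil)))) .nil))))), [99], 0, 0, 0, 0, 0, 0, 0, 0⟩,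
⟨99, 41, 59, (.cons 269 251 .nil (.cons 210 190 (.exit 0) .nil)), [100], 0, 0, 0, 0, 0, 0, 0, 0⟩,
⟨100, 41, 58, (.cons 210 189 .nil (.cons 271 251 (.cons 210 189 .nil (.cons 250 228 (.cons 210 230 .nil .nil) (.cons 208 229 (.cons 210 189 .nil (.cons 250 228 .nil .nil)) .nil))) (.cons 250 228 (.cons 210 189 .nil (.cons 210 189 .nil (.cons 210 230 .nil .nil))) (.cons 210 189 (.exit 0) (.cons 228 229 (.cons 210 189 .nil (.cons 210 189 (.cons 229 230 .nil (.cons 250 228 .nil .nil)) (.cons 250 228 (.cons 210 189 .nil (.cons 210 189 .nil .nil)) (.cons 210 189 (.cons 229 230 .nil (.cons 250 228 .nil .nil)) .nil)))) .nil))))), [101], 0, 0, 0, 0, 0, 0, 0, 0⟩,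
⟨101, 40, 57, (.cons 210 190 (.exit 0) (.cons 271 249 .nil .nil)), [102], 0, 0, 0, 0, 0, 0, 0, 0⟩,
⟨102, 40, 56, (.cons 210 191 (.exit 0) (.cons 250 232 (.cons 210 191 .nil (.cons 210 191 .nil (.cons 210 230 .nil .nil))) (.cons 269 249 (.cons 250 232 (.cons 210 230 .nil .nil) (.cons 210 191 .nil (.cons 212 231 (.cons 250 232 .nil (.cons 210 191 .nil .nil)) .nil))) (.cons 210 191 .nil (.cons 232 231 (.cons 210 191 (.cons 250 232 .nil (.cons 231 230 .nil .nil)) (.cons 250 232 (.cons 210 191 .nil (.cons 210 191 .nil .nil)) (.cons 210 191 (.cons 250 232 .nil (.cons 231 230 .nil .nil)) (.cons 210 191 .nil .nil)))) .nil))))), [103], 0, 0, 0, 0, 0, 0, 0, 0⟩,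
⟨103, 41, 55, (.cons 269 251 .nil (.cons 210 190 (.exit 0) .nil)), [104], 0, 0, 0, 0, 0, 0, 0, 0⟩,
⟨104, 41, 54, (.cons 210 189 .nil (.cons 271 251 (.cons 210 189 .nil (.cons 250 228 (.cons 210 230 .nil .nil) (.cons 208 229 (.cons 210 189 .nil (.cons 250 228 .nil .nil)) .nil))) (.cons 250 228 (.cons 210 189 .nil (.cons 210 189 .nil (.cons 210 230 .nil .nil))) (.cons 210 189 (.exit 0) (.cons 228 229 (.cons 210 189 .nil (.cons 210 189 (.cons 229 230 .nil (.cons 250 228 .nil .nil)) (.cons 250 228 (.cons 210 189 .nil (.cons 210 189 .nil .nil)) (.cons 210 189 (.cons 229 230 .nil (.cons 250 228 .nil .nil)) .nil)))) .nil))))), [105], 0, 0, 0, 0, 0, 0, 0, 0⟩,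
⟨105, 40, 53, (.cons 210 190 (.exit 0) (.cons 271 249 .nil .nil)), [106], 0, 0, 0, 0, 0, 0, 0, 0⟩,
⟨106, 40, 52, (.cons 210 191 (.exit 0) (.cons 228 249 (.cons 210 191 .nil (.cons 212 231 (.cons 269 249 .nil .nil) .nil)) (.cons 210 191 .nil (.cons 210 231 (.cons 231 210 (.cons 210 191 .nil .nil) (.cons 231 210 (.cons 210 209 (.cons 212 231 .nil (.cons 147 168 .nil .nil)) (.cons 228 249 (.cons 210 191 .nil .nil) (.cons 210 191 .nil .nil))) (.cons 228 249 (.cons 231 210 (.cons 210 191 .nil .nil) (.cons 269 249 (.cons 231 210 .nil .nil) .nil)) (.cons 228 249 (.cons 231 230 .nil (.cons 231 230 (.cons 230 209 .nil .nil) (.cons 269 249 (.cons 231 210 .nil .nil) .nil))) .nil)))) .nil)))), [107], 0, 0, 0, 0, 0, 0, 0, 0⟩,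
⟨107, 41, 51, (.cons 210 190 (.exit 0) .nil), [108], 0, 0, 0, 0, 0, 0, 0, 0⟩,
⟨108, 41, 50, (.cons 210 191 .nil (.cons 233 251 (.cons 210 191 .nil (.cons 252 231 (.cons 210 191 .nil (.cons 251 229 (.cons 210 191 .nil .nil) .nil)) (.cons 211 229 (.cons 210 191 .nil (.cons 210 211 .nil .nil)) (.cons 211 229 (.cons 210 191 .nil (.cons 210 211 (.cons 251 229 .nil .nil) (.cons 210 211 .nil .nil))) .nil)))) (.cons 210 191 (.exit 0) (.cons 210 231 (.cons 251 272 (.cons 231 232 .nil .nil) (.cons 231 232 (.cons 252 210 .nil .nil) (.cons 231 232 .nil .nil))) (.cons 211 229 (.cons 210 191 .nil (.cons 229 251 (.cons 210 191 .nil .nil) (.cons 210 211 (.cons 208 229 .nil .nil) (.cons 210 211 .nil .nil)))) (.cons 210 191 (.cons 191 171 (.cons 171 150 .nil (.cons 171 192 .nil (.cons 169 190 (.cons 171 150 (.cons 150 169 .nil .nil) (.cons 171 192 .nil .nil)) .nil))) .nil) .nil)))))), [109], 0, 0, 0, 0, 0, 0,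 0, 0⟩,
⟨109, 42, 49, (.cons 210 190 (.exit 0) .nil), [110], 0, 0, 0, 0, 0, 0, 0, 0⟩,
⟨110, 42, 48, (.cons 210 189 .nil (.cons 210 189 (.exit 0) (.cons 210 189 (.cons 189 169 (.cons 169 148 .nil (.cons 169 148 (.cons 148 147 .nil .nil) (.cons 169 188 (.cons 250 209 .nil .nil) .nil))) .nil) (.cons 210 189 (.cons 189 169 (.cons 169 148 .nil (.cons 169 148 (.cons 148 147 .nil .nil) (.cons 169 188 (.cons 250 209 .nil .nil) .nil))) (.cons 189 169 (.cons 169 148 .nil (.cons 169 188 (.cons 188 209 .nil .nil) .nil)) .nil)) .nil)))), [111], 0, 0, 0, 0, 0, 0, 0, 0⟩,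
⟨111, 41, 47, (.cons 210 190 (.exit 0) .nil), [112], 0, 0, 0, 0, 0, 0, 0, 0⟩,
⟨112, 41, 46, (.cons 210 189 (.exit 0) (.cons 228 249 (.cons 210 189 .nil (.cons 210 189 (.cons 189 188 .nil .nil) (.cons 210 229 (.cons 291 250 .nil .nil) .nil))) (.cons 210 189 .nil (.cons 210 189 (.cons 189 188 .nil .nil) (.cons 210 189 (.cons 189 188 .nil (.cons 189 188 .nil .nil)) .nil))))), [47], 0, 0, 0, 0, 0, 0, 0, 0⟩,
⟨47, 40, 45, (.cons 210 209 (.exit 0) .nil), [48], 0, 0, 0, 0, 0, 0, 0, 0⟩,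
⟨48, 39, 45, (.cons 230 251 .nil (.cons 210 189 (.exit 0) .nil)), [49], 0, 0, 0, 0, 0, 0, 0, 0⟩,
⟨49, 38, 44, (.cons 230 251 .nil (.cons 210 190 (.exit 0) .nil)), [50], 0, 0, 0, 0, 0, 0, 0, 0⟩,
⟨50, 38, 43, (.cons 210 191 (.exit 0) .nil), [51], 0, 0, 0, 0, 0, 0, 0, 0⟩,
⟨51, 39, 42, (.cons 250 232 .nil (.cons 210 190 (.exit 0) .nil)), [52], 0, 0, 0, 0, 0, 0, 0, 0⟩,
⟨52, 39, 41, (.cons 210 189 .nil (.cons 252 251 (.cons 210 189 .nil (.cons 210 230 (.cons 230 249 .nil (.cons 230 249 .nil .nil)) (.cons 210 231 .nil (.cons 210 189 (.cons 189 188 .nil (.cons 247 228 (.cons 189 188 .nil .nil) (.cons 189 188 .nil .nil))) (.cons 210 189 (.cons 189 188 .nil (.cons 247 228 (.cons 189 188 .nil .nil) (.cons 189 188 .nil .nil))) .nil))))) (.cons 247 228 (.cons 210 189 .nil (.cons 210 189 .nil (.cons 210 230 .nil (.cons 210 230 .nil (.cons 210 230 .nil .nil))))) (.cons 210 189 (.exit 0) (.cons 210 189 (.cons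 189 188 .nil (.cons 247 228 .nil .nil)) (.cons 210 189 (.cons 189 188 .nil (.cons 247 228 (.cons 189 188 .nil .nil) (.cons 189 188 .nil .nil))) (.cons 210 189 (.cons 189 188 .nil (.cons 247 228 (.cons 189 188 .nil .nil) (.cons 189 188 .nil .nil))) .nil))))))), [53], 0, 0, 0, 0, 0, 0, 0, 0⟩,
⟨53, 38, 40, (.cons 210 190 (.exit 0) (.cons 268 249 .nil .nil)), [113], 0, 0, 0, 0, 0, 0, 0, 0⟩,
⟨113, 38, 39, (.cons 210 191 (.exit 0) (.cons 210 229 .nil (.cons 210 191 .nil (.cons 210 231 (.cons 231 210 (.cons 210 229 .nil .nil) (.cons 269 249 (.cons 231 230 (.cons 230 229 .nil (.cons 187 208 .nil .nil)) .nil) (.cons 269 249 (.cons 231 230 .nil (.cons 231 230 (.cons 230 229 .nil (.cons 187 208 .nil .nil)) .nil)) .nil))) .nil)))), [114], 0, 0, 0, 0, 0, 0, 0, 0⟩,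
⟨114, 39, 38, (.cons 210 190 (.exit 0) .nil), [115], 0, 0, 0, 0, 0, 0, 0, 0⟩,
⟨115, 39, 37, (.cons 210 191 .nil (.cons 232 251 (.cons 210 191 .nil (.cons 210 191 .nil (.cons 210 231 (.cons 231 232 .nil (.cons 231 232 .nil .nil)) (.cons 211 229 (.cons 210 191 .nil (.cons 210 191 .nil (.cons 210 211 .nil .nil))) (.cons 211 229 (.cons 210 191 .nil (.cons 210 191 .nil (.cons 210 211 .nil (.cons 210 211 .nil .nil)))) .nil))))) (.cons 210 191 .nil (.cons 210 191 (.exit 0) (.cons 210 191 (.cons 191 171 (.cons 171 152 .nil (.cons 171 152 .nil (.cons 172 190 (.cons 171 152 .nil (.cons 171 152 .nil .nil)) .nil))) (.cons 191 171 (.cons 171 152 .nil .nil) .nil)) (.cons 210 191 (.cons 191 171 (.cons 171 152 .nil (.cons 171 152 .nil (.cons 172 190 (.cons 171 152 .nil (.cons 171 152 .nil .nil)) .nil))) .nil) (.cons 210 191 (.cons 191 171 (.cons 171 152 .nil (.cons 171 152 .nil (.cons 172 190 (.cons 171 152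 .nil (.cons 171 152 .nil .nil)) .nil))) .nil) .nil))))))), [116], 0, 0, 0, 0, 0, 0, 0, 0⟩,
⟨116, 40, 36, (.cons 210 190 (.exit 0) .nil), [117], 0, 0, 0, 0, 0, 0, 0, 0⟩,
⟨117, 40, 35, (.cons 210 191 .nil (.cons 210 191 .nil (.cons 210 191 (.exit 0) (.cons 211 229 (.cons 210 191 .nil (.cons 210 191 .nil (.cons 210 211 (.cons 190 229 .nil .nil) .nil))) .nil)))), [118], 0, 0, 0, 0, 0, 0, 0, 0⟩,
⟨118, 41, 34, (.cons 210 190 (.exit 0) .nil), [119], 0, 0, 0, 0, 0, 0, 0, 0⟩]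

theorem uCLDL4_ok : grpNU MCL.H MCL.A SCL (phs 2500 uCLD4) uCLDL4 = true := by decide +kernel

/-- accumulated states -/
def uCLD5 : List Mo := addN 2500 uCLDL4 uCLD4

theorem CLD_up {R : Room} {F : Board} {O : Sq} (hF : MBase MCL O F R) (h0 : HasValue (PM MCL SCL F O 148 2500)) :
    HasValue (PM MCL SCL F O 87 2500) := by
  have a0 : HVs MCL SCL F O uCLD0 := by
    intro m hm
    rw [List.mem_singleton.1 hm]
    exact h0
  have a1 := HVs.N hF MCL_ok 2500 (by decide +kernel) uCLDL0 uCLDL0_ok a0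
  have a2 := HVs.U hF MCL_ok uCLDP1 uCLDL1 uCLDP1_ok uCLDL1_ok a1
  have a3 := HVs.U hF MCL_ok uCLDP2 uCLDL2 uCLDP2_ok uCLDL2_ok a2
  have a4 := HVs.U hF MCL_ok uCLDP3 uCLDL3 uCLDP3_ok uCLDL3_ok a3
  have a5 := HVs.N hF MCL_ok 2500 (by decide +kernel) uCLDL4 uCLDL4_ok a4
  exact a5 ⟨87, 2500⟩ (ME2_membM _ (by decide +kernel))

end Pool.Agent.Lib.H32C.Loc
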