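import Pool.Agent.Lib.H32C.MemChain
import Pool.Agent.Lib.H32C.TdCL0

/-!
# Part c of the certificate of the tile TdCL
-/

set_option autoImplicit false

namespace Pool.Agent.Lib.H32C.Loc

/-- accumulated states -/
def lCLL0 : List Mo := [⟨86, 2500⟩]

/-- items -/
def lCLLL0 : List NI := [
⟨66, 27, 43, .nil, [], 0, 153, 171, 171, 209, 67, 0, 0⟩,
⟨67, 26, 43, .nil, [], 0, 174, 192, 192, 189, 68, 0, 0⟩,
⟨68, 25, 42, .nil, [], 0, 193, 232, 232, 209, 69, 0, 0⟩,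
⟨69, 24, 42, .nil, [], 0, 214, 232, 232, 189, 70, 0, 0⟩,
⟨70, 23, 41, .nil, [], 0, 254, 232, 232, 209, 71, 0, 0⟩,
⟨71, 22, 41, .nil, [], 0, 254, 232, 232, 189, 72, 0, 0⟩,
⟨72, 21, 40, .nil, [], 0, 254, 232, 232, 209, 73, 0, 0⟩,
⟨73, 20, 40, .nil, [], 0, 254, 232, 232, 229, 74, 0, 0⟩,
⟨74, 19, 41, .nil, [], 0, 214, 192, 192, 209, 75, 0, 0⟩,
⟨75, 18, 41, .nil, [], 0, 214, 192, 192, 189, 76, 0, 0⟩,
⟨76, 17, 40, .nil, [], 0, 214, 232, 232, 209, 77, 0, 0⟩,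
⟨77, 16, 40, .nil, [], 0, 214, 232, 232, 229, 78, 0, 0⟩,
⟨78, 15, 41, .nil, [], 0, 214, 192, 192, 209, 79, 0, 0⟩,
⟨79, 14, 41, .nil, [], 0, 214, 192, 192, 189, 80, 0, 0⟩,
⟨80, 13, 40, .nil, [], 0, 214, 232, 232, 209, 81, 0, 0⟩,
⟨81, 12, 40, .nil, [], 0, 214, 232, 232, 229, 82, 0, 0⟩,
⟨82, 11, 41, .nil, [], 0, 214, 192, 192, 209, 83, 0, 0⟩,
⟨83, 10, 41, .nil, [], 0, 214, 192, 192, 189, 84, 0, 0⟩,
⟨84, 9, 40, .nil, [], 0, 214, 232, 232, 209, 85, 0, 0⟩,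
⟨85, 8, 40, .nil, [], 0, 214, 232, 232, 229, 86, 0, 0⟩]

theorem lCLLL0_ok : grpNL MCL.H MCL.A SCL (phs 2500 lCLL0) lCLLL0 = true := by decide +kernel

/-- accumulated states -/
def lCLL1 : List Mo := addN 2500 lCLLL0 lCLL0

/-- patch setting -/
def lCLLP1 : PS := ⟨28, 42, [⟨⟨45, 21, 11⟩, 3, 3⟩], ⟨false, [45], true⟩, 0, 0, 0⟩

theorem lCLLP1_ok : psOk MCL lCLLP1 = true := by decide +kernel

/-- items -/
def lCLLL1 : List LI := [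
⟨65, 2500, [⟨23, 34, 8⟩], 0, 174, 192, 192, 229, 66, 0, 0, [⟨23, 34, 8⟩]⟩]

theorem lCLLL1_ok : grpL MCL SCL lCLLP1 lCLL1 lCLLL1 = true := by decide +kernel

/-- accumulated states -/
def lCLL2 : List Mo := keysL lCLLL1 lCLL1

/-- patch setting -/
def lCLLP2 : PS := ⟨28, 41, [⟨⟨44, 21, 11⟩, 2, 2⟩], ⟨false, [44], true⟩, 0, 0, 0⟩

theorem lCLLP2_ok : psOk MCL lCLLP2 = true := by decide +kernel

/-- items -/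
def lCLLL2 : List LI := [
⟨64, 2500, [⟨22, 33, 8⟩], 0, 214, 192, 192, 230, 65, 0, 0, [⟨22, 33, 8⟩]⟩]

theorem lCLLL2_ok : grpL MCL SCL lCLLP2 lCLL2 lCLLL2 = true := by decide +kernel

/-- accumulated states -/
def lCLL3 : List Mo := keysL lCLLL2 lCLL2

/-- patch setting -/
def lCLLP3 : PS := ⟨29, 40, [⟨⟨42, 21, 11⟩, 1, 1⟩], ⟨false, [], true⟩, 1, 1631, 42⟩

theorem lCLLP3_ok : psOk MCL lCLLP3 = true := by decide +kernel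

/-- items -/
def lCLLL3 : List LI := [
⟨63, 1631, [⟨21, 32, 7⟩], 3, 0, 0, 0, 229, 64, 0, 0, [⟨21, 32, 8⟩]⟩]

theorem lCLLL3_ok : grpL MCL SCL lCLLP3 lCLL3 lCLLL3 = true := by decide +kernel

/-- accumulated states -/
def lCLL4 : List Mo := keysL lCLLL3 lCLL3

/-- items -/
def lCLLL4 : List NI := [
⟨54, 37, 40, .nil, [], 0, 271, 232, 232, 229, 55, 0, 0⟩,
⟨55, 36, 41, .nil, [], 0, 233, 192, 192, 209, 56, 0, 0⟩,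
⟨56, 35, 41, .nil, [], 0, 214, 192, 192, 229, 57, 0, 0⟩,
⟨57, 34, 42, .nil, [], 0, 174, 192, 192, 209, 58, 0, 0⟩,
⟨58, 33, 42, .nil, [], 0, 174, 192, 192, 189, 59, 0, 0⟩,
⟨59, 32, 41, .nil, [], 0, 214, 232, 232, 190, 60, 0, 0⟩,
⟨60, 32, 40, .nil, [], 0, 233, 251, 251, 189, 61, 0, 0⟩,
⟨61, 31, 39, .nil, [], 0, 273, 251, 251, 209, 62, 0, 0⟩,
⟨62, 30, 39, .nil, [], 0, 273, 232, 232, 229, 63, 0, 0⟩]

theorem lCLLL4_ok : grpNL MCL.H MCL.A SCL (phs 1631 lCLL4) lCLLL4 = true := by decide +kernel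

/-- accumulated states -/
def lCLL5 : List Mo := addN 1631 lCLLL4 lCLL4

/-- patch setting -/
def lCLLP5 : PS := ⟨42, 31, [⟨⟨42, 21, 11⟩, 3, 3⟩], ⟨false, [42], true⟩, 0, 0, 0⟩

theorem lCLLP5_ok : psOk MCL lCLLP5 = true := by decide +kernel

/-- items -/
def lCLLL5 : List LI := [
⟨120, 1631, [⟨34, 23, 8⟩], 1, 308, 269, 269, 0, 0, 0, 0, [⟨34, 23, 8⟩]⟩]

theorem lCLLL5_ok : grpL MCL SCL lCLLP5 lCLL5 lCLLL5 = true := by decide +kernel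

/-- accumulated states -/
def lCLL6 : List Mo := keysL lCLLL5 lCLL5

/-- items -/
def lCLLL6 : List NI := [
⟨25, 48, 42, .nil, [], 0, 153, 171, 171, 230, 26, 0, 0⟩,
⟨26, 48, 43, .nil, [], 0, 153, 171, 171, 231, 27, 0, 0⟩,
⟨27, 49, 44, .nil, [], 0, 130, 169, 169, 230, 28, 0, 0⟩,
⟨28, 49, 45, .nil, [], 0, 130, 169, 169, 229, 29, 0, 0⟩,
⟨29, 48, 46, .nil, [], 0, 130, 171, 171, 230, 30, 0, 0⟩,
⟨30, 48, 47, .nil, [], 0, 130, 171, 171, 231, 31, 0, 0⟩,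
⟨31, 49, 48, .nil, [], 0, 130, 169, 169, 230, 32, 0, 0⟩,
⟨32, 49, 49, .nil, [], 0, 130, 169, 169, 231, 33, 0, 0⟩,
⟨33, 50, 50, .nil, [], 0, 128, 169, 169, 230, 34, 0, 0⟩,
⟨34, 50, 51, .nil, [], 0, 128, 169, 169, 229, 35, 0, 0⟩,
⟨35, 49, 52, .nil, [], 0, 130, 171, 171, 209, 36, 0, 0⟩,
⟨36, 48, 52, .nil, [], 0, 151, 192, 192, 229, 37, 0, 0⟩,
⟨37, 47, 53, .nil, [], 0, 153, 192, 192, 209, 38, 0, 0⟩,
⟨38, 46, 53, .nil, [], 0, 174, 192, 192, 189, 39, 0, 0⟩,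
⟨39, 45, 52, .nil, [], 0, 214, 232, 232, 209, 40, 0, 0⟩,
⟨40, 44, 52, .nil, [], 0, 214, 232, 232, 189, 41, 0, 0⟩,
⟨41, 43, 51, .nil, [], 0, 254, 232, 232, 190, 42, 0, 0⟩,
⟨42, 43, 50, .nil, [], 0, 273, 251, 251, 189, 43, 0, 0⟩,
⟨43, 42, 49, .nil, [], 0, 273, 251, 251, 190, 44, 0, 0⟩,
⟨44, 42, 48, .nil, [], 0, 292, 251, 251, 189, 45, 0, 0⟩,
⟨45, 41, 47, .nil, [], 0, 292, 251, 251, 190, 46, 0, 0⟩,
⟨46, 41, 46, .nil, [], 0, 292, 251, 251, 189, 47, 0, 0⟩,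
⟨47, 40, 45, .nil, [], 0, 292, 251, 251, 209, 48, 0, 0⟩,
⟨48, 39, 45, .nil, [], 0, 273, 232, 232, 189, 49, 0, 0⟩,
⟨49, 38, 44, .nil, [], 0, 273, 232, 232, 190, 50, 0, 0⟩,
⟨50, 38, 43, .nil, [], 0, 273, 251, 251, 191, 51, 0, 0⟩,
⟨51, 39, 42, .nil, [], 0, 271, 249, 249, 190, 52, 0, 0⟩,
⟨52, 39, 41, .nil, [], 0, 290, 249, 249, 189, 53, 0, 0⟩,
⟨53, 38, 40, .nil, [], 2, 290, 251, 251, 209, 54, 190, 113⟩,
⟨113, 38, 39, .nil, [], 0, 290, 251, 251, 191, 114, 0, 0⟩,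
⟨114, 39, 38, .nil, [], 0, 290, 249, 249, 190, 115, 0, 0⟩,
⟨115, 39, 37, .nil, [], 0, 290, 249, 249, 191, 116, 0, 0⟩,
⟨116, 40, 36, .nil, [], 0, 288, 249, 249, 190, 117, 0, 0⟩,
⟨117, 40, 35, .nil, [], 0, 288, 249, 249, 191, 118, 0, 0⟩,
⟨118, 41, 34, .nil, [], 0, 288, 249, 249, 190, 119, 0, 0⟩,
⟨119, 41, 33, .nil, [], 0, 288, 249, 249, 191, 120, 0, 0⟩]

theorem lCLLL6_ok : grpNL MCL.H MCL.A SCL (phs 1631 lCLL6) lCLLL6 = true := by decide +kernel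

/-- accumulated states -/
def lCLL7 : List Mo := addN 1631 lCLLL6 lCLL6

/-- patch setting -/
def lCLLP7 : PS := ⟨49, 41, [⟨⟨45, 21, 11⟩, 13, 13⟩], ⟨false, [45], true⟩, 0, 0, 0⟩

theorem lCLLP7_ok : psOk MCL lCLLP7 = true := by decide +kernel

/-- items -/
def lCLLL7 : List LI := [
⟨24, 1631, [⟨44, 33, 8⟩], 0, 174, 192, 192, 229, 25, 0, 0, [⟨44, 33, 8⟩]⟩]

theorem lCLLL7_ok : grpL MCL SCL lCLLP7 lCLL7 lCLLL7 = true := by decide +kernel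

/-- accumulated states -/
def lCLL8 : List Mo := keysL lCLLL7 lCLL7

/-- patch setting -/
def lCLLP8 : PS := ⟨49, 40, [⟨⟨44, 21, 11⟩, 12, 12⟩], ⟨false, [44], true⟩, 0, 0, 0⟩

theorem lCLLP8_ok : psOk MCL lCLLP8 = true := by decide +kernel

/-- items -/
def lCLLL8 : List LI := [
⟨23, 1631, [⟨43, 32, 8⟩], 0, 214, 192, 192, 230, 24, 0, 0, [⟨43, 32, 8⟩]⟩]

theorem lCLLL8_ok : grpL MCL SCL lCLLP8 lCLL8 lCLLL8 = true := by decide +kernel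

/-- accumulated states -/
def lCLL9 : List Mo := keysL lCLLL8 lCLL8

/-- patch setting -/
def lCLLP9 : PS := ⟨50, 39, [⟨⟨42, 21, 11⟩, 11, 11⟩], ⟨false, [], true⟩, 1, 2500, 42⟩

theorem lCLLP9_ok : psOk MCL lCLLP9 = true := by decide +kernel

/-- items -/
def lCLLL9 : List LI := [
⟨22, 2500, [⟨42, 31, 7⟩], 3, 0, 0, 0, 229, 23, 0, 0, [⟨42, 31, 8⟩]⟩]

theorem lCLLL9_ok : grpL MCL SCL lCLLP9 lCLL9 lCLLL9 = true := by decide +kernel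

/-- accumulated states -/
def lCLL10 : List Mo := keysL lCLLL9 lCLL9

/-- items -/
def lCLLL10 : List NI := [
⟨0, 71, 41, .nil, [], 0, 214, 192, 192, 209, 1, 0, 0⟩,
⟨1, 70, 41, .nil, [], 0, 214, 192, 192, 189, 2, 0, 0⟩,
⟨2, 69, 40, .nil, [], 0, 214, 232, 232, 209, 3, 0, 0⟩,
⟨3, 68, 40, .nil, [], 0, 214, 232, 232, 229, 4, 0, 0⟩,
⟨4, 67, 41, .nil, [], 0, 214, 192, 192, 209, 5, 0, 0⟩,
⟨5, 66, 41, .nil, [], 0, 214, 192, 192, 189, 6, 0, 0⟩,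
⟨6, 65, 40, .nil, [], 0, 214, 232, 232, 209, 7, 0, 0⟩,
⟨7, 64, 40, .nil, [], 0, 214, 232, 232, 229, 8, 0, 0⟩,
⟨8, 63, 41, .nil, [], 0, 214, 192, 192, 209, 9, 0, 0⟩,
⟨9, 62, 41, .nil, [], 0, 214, 192, 192, 189, 10, 0, 0⟩,
⟨10, 61, 40, .nil, [], 0, 214, 232, 232, 209, 11, 0, 0⟩,
⟨11, 60, 40, .nil, [], 0, 214, 232, 232, 229, 12, 0, 0⟩,
⟨12, 59, 41, .nil, [], 0, 214, 192, 192, 209, 13, 0, 0⟩,
⟨13, 58, 41, .nil, [], 0, 214, 192, 192, 189, 14, 0, 0⟩,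
⟨14, 57, 40, .nil, [], 0, 214, 232, 232, 209, 15, 0, 0⟩,
⟨15, 56, 40, .nil, [], 0, 214, 232, 232, 229, 16, 0, 0⟩,
⟨16, 55, 41, .nil, [], 0, 214, 192, 192, 209, 17, 0, 0⟩,
⟨17, 54, 41, .nil, [], 0, 214, 192, 192, 189, 18, 0, 0⟩,
⟨18, 53, 40, .nil, [], 0, 214, 232, 232, 190, 19, 0, 0⟩,
⟨19, 53, 39, .nil, [], 0, 233, 251, 251, 189, 20, 0, 0⟩,
⟨20, 52, 38, .nil, [], 0, 273, 251, 251, 209, 21, 0, 0⟩,
⟨21, 51, 38, .nil, [], 0, 273, 232, 232, 229, 22, 0, 0⟩]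

theorem lCLLL10_ok : grpNL MCL.H MCL.A SCL (phs 2500 lCLL10) lCLLL10 = true := by decide +kernel

/-- accumulated states -/
def lCLL11 : List Mo := addN 2500 lCLLL10 lCLL10

theorem CLL_lo {R : Room} {F : Board} {O : Sq} {β : Ordinal.{0}} (hF : MBase MCL O F R) (h0 : GE (PM MCL SCL F O 86 2500) β) :
    GE (PM MCL SCL F O 0 2500) β := by
  have a0 : GEs MCL SCL F O β lCLL0 := by
    intro m hm
    rw [List.mem_singleton.1 hm]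
    exact h0
  have a1 := GEs.N hF MCL_ok 2500 (by decide +kernel) lCLLL0 lCLLL0_ok a0
  have a2 := GEs.U hF MCL_ok lCLLP1 lCLLL1 lCLLP1_ok lCLLL1_ok a1
  have a3 := GEs.U hF MCL_ok lCLLP2 lCLLL2 lCLLP2_ok lCLLL2_ok a2
  have a4 := GEs.U hF MCL_ok lCLLP3 lCLLL3 lCLLP3_ok lCLLL3_ok a3
  have a5 := GEs.N hF MCL_ok 1631 (by decide +kernel) lCLLL4 lCLLL4_ok a4
  have a6 := GEs.U hF MCL_ok lCLLP5 lCLLL5 lCLLP5_ok lCLLL5_ok a5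
  have a7 := GEs.N hF MCL_ok 1631 (by decide +kernel) lCLLL6 lCLLL6_ok a6
  have a8 := GEs.U hF MCL_ok lCLLP7 lCLLL7 lCLLP7_ok lCLLL7_ok a7
  have a9 := GEs.U hF MCL_ok lCLLP8 lCLLL8 lCLLP8_ok lCLLL8_ok a8
  have a10 := GEs.U hF MCL_ok lCLLP9 lCLLL9 lCLLP9_ok lCLLL9_ok a9
  have a11 := GEs.N hF MCL_ok 2500 (by decide +kernel) lCLLL10 lCLLL10_ok a10
  exact a11 ⟨0, 2500⟩ (ME2_membM _ (by decide +kernel))

end Pool.Agent.Lib.H32C.Loc
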