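import Pool.Agent.Lib.H32C.MemChain
import Pool.Agent.Lib.H32C.TdCL0

/-!
# Part d of the certificate of the tile TdCL
-/

set_option autoImplicit false

namespace Pool.Agent.Lib.H32C.Loc

/-- accumulated states -/
def lCLD0 : List Mo := [⟨148, 2500⟩]

/-- items -/
def lCLDL0 : List NI := [
⟨124, 44, 28, .nil, [], 0, 288, 249, 249, 211, 125, 0, 0⟩,
⟨125, 45, 28, .nil, [], 0, 267, 228, 228, 191, 126, 0, 0⟩,
⟨126, 46, 27, .nil, [], 0, 267, 228, 228, 190, 127, 0, 0⟩,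
⟨127, 46, 26, .nil, [], 0, 267, 249, 249, 189, 128, 0, 0⟩,
⟨128, 45, 25, .nil, [], 0, 269, 251, 251, 190, 129, 0, 0⟩,
⟨129, 45, 24, .nil, [], 0, 290, 251, 251, 189, 130, 0, 0⟩,
⟨130, 44, 23, .nil, [], 0, 292, 251, 251, 209, 131, 0, 0⟩,
⟨131, 43, 23, .nil, [], 0, 273, 232, 232, 189, 132, 0, 0⟩,
⟨132, 42, 22, .nil, [], 0, 273, 232, 232, 209, 133, 0, 0⟩,
⟨133, 41, 22, .nil, [], 0, 254, 232, 232, 189, 134, 0, 0⟩,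
⟨134, 40, 21, .nil, [], 0, 254, 232, 232, 190, 135, 0, 0⟩,
⟨135, 40, 20, .nil, [], 0, 273, 251, 251, 191, 136, 0, 0⟩,
⟨136, 41, 19, .nil, [], 0, 271, 249, 249, 190, 137, 0, 0⟩,
⟨137, 41, 18, .nil, [], 0, 290, 249, 249, 189, 138, 0, 0⟩,
⟨138, 40, 17, .nil, [], 0, 290, 251, 251, 190, 139, 0, 0⟩,
⟨139, 40, 16, .nil, [], 0, 290, 251, 251, 191, 140, 0, 0⟩,
⟨140, 41, 15, .nil, [], 0, 290, 249, 249, 190, 141, 0, 0⟩,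
⟨141, 41, 14, .nil, [], 0, 290, 249, 249, 189, 142, 0, 0⟩,
⟨142, 40, 13, .nil, [], 0, 290, 251, 251, 190, 143, 0, 0⟩,
⟨143, 40, 12, .nil, [], 0, 290, 251, 251, 191, 144, 0, 0⟩,
⟨144, 41, 11, .nil, [], 0, 290, 249, 249, 190, 145, 0, 0⟩,
⟨145, 41, 10, .nil, [], 0, 290, 249, 249, 189, 146, 0, 0⟩,
⟨146, 40, 9, .nil, [], 0, 290, 251, 251, 190, 147, 0, 0⟩,
⟨147, 40, 8, .nil, [], 0, 290, 251, 251, 191, 148, 0, 0⟩]

theorem lCLDL0_ok : grpNL MCL.H MCL.A SCL (phs 2500 lCLD0) lCLDL0 = true := by decide +kernel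

/-- accumulated states -/
def lCLD1 : List Mo := addN 2500 lCLDL0 lCLD0

/-- patch setting -/
def lCLDP1 : PS := ⟨44, 29, [⟨⟨353, 63, 11⟩, 1, 4⟩, ⟨⟨122, 21, 11⟩, 5, 5⟩], ⟨false, [353], true⟩, 1, 2500, 122⟩

theorem lCLDP1_ok : psOk MCL lCLDP1 = true := by decide +kernel

/-- items -/
def lCLDL1 : List LI := [
⟨123, 2500, [⟨47, 36, 7⟩, ⟨36, 25, 7⟩], 0, 287, 248, 248, 190, 124, 0, 0, [⟨47, 36, 7⟩, ⟨36, 25, 7⟩]⟩]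

theorem lCLDL1_ok : grpL MCL SCL lCLDP1 lCLD1 lCLDL1 = true := by decide +kernel

/-- accumulated states -/
def lCLD2 : List Mo := keysL lCLDL1 lCLD1

/-- items -/
def lCLDL2 : List NI := [
⟨113, 38, 39, .nil, [], 0, 290, 251, 251, 191, 114, 0, 0⟩,
⟨114, 39, 38, .nil, [], 0, 290, 249, 249, 190, 115, 0, 0⟩,
⟨115, 39, 37, .nil, [], 0, 290, 249, 249, 191, 116, 0, 0⟩,
⟨116, 40, 36, .nil, [], 0, 288, 249, 249, 190, 117, 0, 0⟩,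
⟨117, 40, 35, .nil, [], 0, 288, 249, 249, 191, 118, 0, 0⟩,
⟨118, 41, 34, .nil, [], 0, 288, 249, 249, 190, 119, 0, 0⟩,
⟨119, 41, 33, .nil, [], 0, 288, 249, 249, 191, 120, 0, 0⟩,
⟨120, 42, 32, .nil, [], 0, 288, 249, 249, 190, 121, 0, 0⟩,
⟨121, 42, 31, .nil, [], 0, 288, 249, 249, 191, 122, 0, 0⟩,
⟨122, 43, 30, .nil, [], 0, 288, 249, 249, 190, 123, 0, 0⟩]

theorem lCLDL2_ok : grpNL MCL.H MCL.A SCL (phs 2500 lCLD2) lCLDL2 = true := by decide +kernel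

/-- accumulated states -/
def lCLD3 : List Mo := addN 2500 lCLDL2 lCLD2

/-- patch setting -/
def lCLDP3 : PS := ⟨30, 39, [⟨⟨82, 21, 11⟩, 2, 2⟩], ⟨false, [82], true⟩, 0, 0, 0⟩

theorem lCLDP3_ok : psOk MCL lCLDP3 = true := by decide +kernel

/-- items -/
def lCLDL3 : List LI := [
⟨62, 2500, [⟨22, 33, 8⟩], 1, 273, 232, 232, 0, 0, 0, 0, [⟨22, 33, 8⟩]⟩]

theorem lCLDL3_ok : grpL MCL SCL lCLDP3 lCLD3 lCLDL3 = true := by decide +kernel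

/-- accumulated states -/
def lCLD4 : List Mo := keysL lCLDL3 lCLD3

/-- items -/
def lCLDL4 : List NI := [
⟨88, 41, 70, .nil, [], 0, 290, 249, 249, 189, 89, 0, 0⟩,
⟨89, 40, 69, .nil, [], 0, 290, 251, 251, 190, 90, 0, 0⟩,
⟨90, 40, 68, .nil, [], 0, 290, 251, 251, 191, 91, 0, 0⟩,
⟨91, 41, 67, .nil, [], 0, 290, 249, 249, 190, 92, 0, 0⟩,
⟨92, 41, 66, .nil, [], 0, 290, 249, 249, 189, 93, 0, 0⟩,
⟨93, 40, 65, .nil, [], 0, 290, 251, 251, 190, 94, 0, 0⟩,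
⟨94, 40, 64, .nil, [], 0, 290, 251, 251, 191, 95, 0, 0⟩,
⟨95, 41, 63, .nil, [], 0, 290, 249, 249, 190, 96, 0, 0⟩,
⟨96, 41, 62, .nil, [], 0, 290, 249, 249, 189, 97, 0, 0⟩,
⟨97, 40, 61, .nil, [], 0, 290, 251, 251, 190, 98, 0, 0⟩,
⟨98, 40, 60, .nil, [], 0, 290, 251, 251, 191, 99, 0, 0⟩,
⟨99, 41, 59, .nil, [], 0, 290, 249, 249, 190, 100, 0, 0⟩,
⟨100, 41, 58, .nil, [], 0, 290, 249, 249, 189, 101, 0, 0⟩,
⟨101, 40, 57, .nil, [], 0, 290, 251, 251, 190, 102, 0, 0⟩,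
⟨102, 40, 56, .nil, [], 0, 290, 251, 251, 191, 103, 0, 0⟩,
⟨103, 41, 55, .nil, [], 0, 290, 249, 249, 190, 104, 0, 0⟩,
⟨104, 41, 54, .nil, [], 0, 290, 249, 249, 189, 105, 0, 0⟩,
⟨105, 40, 53, .nil, [], 0, 290, 251, 251, 190, 106, 0, 0⟩,
⟨106, 40, 52, .nil, [], 0, 290, 251, 251, 191, 107, 0, 0⟩,
⟨107, 41, 51, .nil, [], 0, 290, 249, 249, 190, 108, 0, 0⟩,
⟨108, 41, 50, .nil, [], 0, 290, 249, 249, 191, 109, 0, 0⟩,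
⟨109, 42, 49, .nil, [], 0, 288, 249, 249, 190, 110, 0, 0⟩,
⟨110, 42, 48, .nil, [], 0, 288, 249, 249, 189, 111, 0, 0⟩,
⟨111, 41, 47, .nil, [], 0, 290, 251, 251, 190, 112, 0, 0⟩,
⟨112, 41, 46, .nil, [], 0, 290, 251, 251, 189, 47, 0, 0⟩,
⟨47, 40, 45, .nil, [], 0, 292, 251, 251, 209, 48, 0, 0⟩,
⟨48, 39, 45, .nil, [], 0, 273, 232, 232, 189, 49, 0, 0⟩,
⟨49, 38, 44, .nil, [], 0, 273, 232, 232, 190, 50, 0, 0⟩,
⟨50, 38, 43, .nil, [], 0, 273, 251, 251, 191, 51, 0, 0⟩,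
⟨51, 39, 42, .nil, [], 0, 271, 249, 249, 190, 52, 0, 0⟩,
⟨52, 39, 41, .nil, [], 0, 290, 249, 249, 189, 53, 0, 0⟩,
⟨53, 38, 40, .nil, [], 2, 290, 251, 251, 190, 113, 209, 54⟩,
⟨54, 37, 40, .nil, [], 0, 271, 232, 232, 229, 55, 0, 0⟩,
⟨55, 36, 41, .nil, [], 0, 233, 192, 192, 209, 56, 0, 0⟩,
⟨56, 35, 41, .nil, [], 0, 214, 192, 192, 229, 57, 0, 0⟩,
⟨57, 34, 42, .nil, [], 0, 174, 192, 192, 209, 58, 0, 0⟩,
⟨58, 33, 42, .nil, [], 0, 174, 192, 192, 189, 59, 0, 0⟩,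
⟨59, 32, 41, .nil, [], 0, 214, 232, 232, 190, 60, 0, 0⟩,
⟨60, 32, 40, .nil, [], 0, 233, 251, 251, 189, 61, 0, 0⟩,
⟨61, 31, 39, .nil, [], 0, 273, 251, 251, 209, 62, 0, 0⟩]

theorem lCLDL4_ok : grpNL MCL.H MCL.A SCL (phs 2500 lCLD4) lCLDL4 = true := by decide +kernel

/-- accumulated states -/
def lCLD5 : List Mo := addN 2500 lCLDL4 lCLD4

/-- items -/
def lCLDL5 : List NI := [
⟨87, 41, 71, .nil, [], 0, 290, 249, 249, 190, 88, 0, 0⟩]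

theorem lCLDL5_ok : grpNL MCL.H MCL.A SCL (phs 2500 lCLD5) lCLDL5 = true := by decide +kernel

/-- accumulated states -/
def lCLD6 : List Mo := addN 2500 lCLDL5 lCLD5

theorem CLD_lo {R : Room} {F : Board} {O : Sq} {β : Ordinal.{0}} (hF : MBase MCL O F R) (h0 : GE (PM MCL SCL F O 148 2500) β) :
    GE (PM MCL SCL F O 87 2500) β := by
  have a0 : GEs MCL SCL F O β lCLD0 := by
    intro m hm
    rw [List.mem_singleton.1 hm]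
    exact h0
  have a1 := GEs.N hF MCL_ok 2500 (by decide +kernel) lCLDL0 lCLDL0_ok a0
  have a2 := GEs.U hF MCL_ok lCLDP1 lCLDL1 lCLDP1_ok lCLDL1_ok a1
  have a3 := GEs.N hF MCL_ok 2500 (by decide +kernel) lCLDL2 lCLDL2_ok a2
  have a4 := GEs.U hF MCL_ok lCLDP3 lCLDL3 lCLDP3_ok lCLDL3_ok a3
  have a5 := GEs.N hF MCL_ok 2500 (by decide +kernel) lCLDL4 lCLDL4_ok a4
  have a6 := GEs.N hF MCL_ok 2500 (by decide +kernel) lCLDL5 lCLDL5_ok a5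
  exact a6 ⟨87, 2500⟩ (ME2_membM _ (by decide +kernel))

end Pool.Agent.Lib.H32C.Loc
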