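import Pool.Agent.Lib.H32C.Mem
import Pool.Agent.Lib.H32C.TdAr
import Pool.Agent.Lib.H32C.TdBase
import Pool.Agent.Lib.H32C.World

/-!
# Tile data: CR (crossing; resident bishop)
-/

set_option autoImplicit false

namespace Pool.Agent.Lib.H32C.Loc

theorem ACR_L : rowsEq ACR 0 8 PH 64 = true := by decide +kernel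

theorem ACR_R : rowsEq ACR 64 8 PH 64 = true := by decide +kernel

theorem ACR_B : colsEq ACR 0 PV 16 = true := by decide +kernel

theorem ACR_T : colsEq ACR 64 PV 16 = true := by decide +kernel

theorem ACR_C : cornersOk ACR = true := by decide +kernel

theorem ACR_K : noKing ACR = true := by decide +kernel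

/-- the tile -/
def MCR : MT := ⟨80, ACR, 11, [2382, 1491]⟩

theorem MCR_ok : mtOk MCR = true := by decide +kernel

/-- the states -/
def SCR : List (List Pc) := [
[⟨8, 40, 6⟩, ⟨4, 40, 10⟩, ⟨5, 40, 10⟩],
[⟨9, 40, 6⟩, ⟨5, 40, 10⟩, ⟨6, 41, 10⟩],
[⟨10, 41, 6⟩, ⟨6, 41, 10⟩, ⟨7, 41, 10⟩],
[⟨11, 41, 6⟩, ⟨7, 41, 10⟩, ⟨8, 40, 10⟩],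
[⟨12, 40, 6⟩, ⟨8, 40, 10⟩, ⟨9, 40, 10⟩],
[⟨13, 40, 6⟩, ⟨9, 40, 10⟩, ⟨10, 41, 10⟩],
[⟨14, 41, 6⟩, ⟨10, 41, 10⟩, ⟨11, 41, 10⟩],
[⟨15, 41, 6⟩, ⟨11, 41, 10⟩, ⟨12, 40, 10⟩],
[⟨16, 40, 6⟩, ⟨12, 40, 10⟩, ⟨13, 40, 10⟩],
[⟨17, 40, 6⟩, ⟨13, 40, 10⟩, ⟨14, 41, 10⟩],
[⟨18, 41, 6⟩, ⟨14, 41, 10⟩, ⟨15, 41, 10⟩],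
[⟨19, 41, 6⟩, ⟨15, 41, 10⟩, ⟨16, 40, 10⟩],
[⟨20, 40, 6⟩, ⟨16, 40, 10⟩, ⟨17, 40, 10⟩],
[⟨21, 40, 6⟩, ⟨17, 40, 10⟩, ⟨18, 41, 10⟩],
[⟨22, 41, 6⟩, ⟨18, 41, 10⟩, ⟨19, 41, 10⟩],
[⟨23, 41, 6⟩, ⟨19, 41, 10⟩, ⟨20, 40, 10⟩],
[⟨24, 42, 6⟩, ⟨20, 40, 10⟩, ⟨21, 40, 10⟩],
[⟨25, 42, 6⟩, ⟨21, 40, 10⟩, ⟨22, 41, 10⟩],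
[⟨26, 41, 6⟩, ⟨22, 41, 10⟩, ⟨23, 41, 10⟩],
[⟨26, 40, 6⟩, ⟨23, 41, 10⟩, ⟨24, 42, 10⟩],
[⟨27, 39, 6⟩, ⟨24, 42, 10⟩, ⟨25, 42, 10⟩],
[⟨28, 39, 6⟩, ⟨25, 42, 10⟩, ⟨26, 41, 10⟩],
[⟨29, 40, 6⟩, ⟨26, 40, 10⟩, ⟨26, 41, 10⟩],
[⟨30, 41, 6⟩, ⟨26, 40, 10⟩, ⟨26, 41, 10⟩],
[⟨30, 42, 6⟩, ⟨26, 40, 10⟩, ⟨28, 40, 10⟩],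
[⟨31, 43, 6⟩, ⟨28, 40, 10⟩, ⟨28, 41, 10⟩],
[⟨31, 44, 6⟩, ⟨28, 41, 10⟩, ⟨30, 41, 10⟩],
[⟨32, 45, 6⟩, ⟨30, 41, 10⟩, ⟨30, 42, 10⟩],
[⟨33, 45, 6⟩, ⟨30, 42, 10⟩, ⟨31, 43, 10⟩],
[⟨34, 46, 6⟩, ⟨31, 43, 10⟩, ⟨31, 44, 10⟩],
[⟨34, 47, 6⟩, ⟨31, 44, 10⟩, ⟨32, 45, 10⟩],
[⟨33, 48, 6⟩, ⟨32, 45, 10⟩, ⟨33, 45, 10⟩],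
[⟨33, 49, 6⟩, ⟨33, 45, 10⟩, ⟨34, 46, 10⟩],
[⟨32, 50, 6⟩, ⟨34, 46, 10⟩, ⟨34, 47, 10⟩],
[⟨32, 51, 6⟩, ⟨33, 48, 10⟩, ⟨34, 47, 10⟩],
[⟨31, 52, 6⟩, ⟨33, 48, 10⟩, ⟨33, 49, 10⟩],
[⟨31, 53, 6⟩, ⟨32, 50, 10⟩, ⟨33, 49, 10⟩],
[⟨32, 54, 6⟩, ⟨32, 50, 10⟩, ⟨32, 51, 10⟩],
[⟨33, 54, 6⟩, ⟨31, 52, 10⟩, ⟨32, 51, 10⟩],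
[⟨34, 55, 6⟩, ⟨31, 52, 10⟩, ⟨31, 53, 10⟩],
[⟨35, 55, 6⟩, ⟨31, 53, 10⟩, ⟨32, 54, 10⟩],
[⟨36, 54, 6⟩, ⟨32, 54, 10⟩, ⟨33, 54, 10⟩],
[⟨37, 54, 6⟩, ⟨33, 54, 10⟩, ⟨34, 55, 10⟩],
[⟨38, 53, 6⟩, ⟨34, 55, 10⟩, ⟨35, 55, 10⟩],
[⟨38, 52, 6⟩, ⟨35, 55, 10⟩, ⟨36, 54, 10⟩],
[⟨39, 51, 6⟩, ⟨36, 54, 10⟩, ⟨37, 54, 10⟩],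
[⟨39, 50, 6⟩, ⟨37, 54, 10⟩, ⟨38, 53, 10⟩],
[⟨40, 49, 6⟩, ⟨38, 52, 10⟩, ⟨38, 53, 10⟩],
[⟨40, 48, 6⟩, ⟨38, 52, 10⟩, ⟨39, 51, 10⟩],
[⟨41, 47, 6⟩, ⟨39, 50, 10⟩, ⟨39, 51, 10⟩],
[⟨41, 46, 6⟩, ⟨39, 50, 10⟩, ⟨40, 49, 10⟩],
[⟨40, 45, 6⟩, ⟨40, 48, 10⟩, ⟨40, 49, 10⟩],
[⟨40, 44, 6⟩, ⟨40, 48, 10⟩, ⟨41, 47, 10⟩],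
[⟨39, 43, 6⟩, ⟨41, 46, 10⟩, ⟨41, 47, 10⟩],
[⟨39, 42, 6⟩, ⟨40, 45, 10⟩, ⟨41, 46, 10⟩],
[⟨40, 41, 6⟩, ⟨40, 44, 10⟩, ⟨40, 45, 10⟩],
[⟨41, 41, 6⟩, ⟨39, 43, 10⟩, ⟨40, 44, 10⟩],
[⟨42, 40, 6⟩, ⟨39, 42, 10⟩, ⟨39, 43, 10⟩],
[⟨43, 40, 6⟩, ⟨39, 42, 10⟩, ⟨40, 41, 10⟩],
[⟨44, 41, 6⟩, ⟨40, 41, 10⟩, ⟨41, 41, 10⟩],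
[⟨45, 41, 6⟩, ⟨41, 41, 10⟩, ⟨42, 40, 10⟩],
[⟨46, 42, 6⟩, ⟨42, 40, 10⟩, ⟨43, 40, 10⟩],
[⟨47, 42, 6⟩, ⟨43, 40, 10⟩, ⟨44, 41, 10⟩],
[⟨48, 41, 6⟩, ⟨44, 41, 10⟩, ⟨45, 41, 10⟩],
[⟨48, 40, 6⟩, ⟨45, 41, 10⟩, ⟨46, 42, 10⟩],
[⟨49, 39, 6⟩, ⟨46, 42, 10⟩, ⟨47, 42, 10⟩],
[⟨50, 39, 6⟩, ⟨47, 42, 10⟩, ⟨48, 41, 10⟩],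
[⟨51, 40, 6⟩, ⟨48, 40, 10⟩, ⟨48, 41, 10⟩],
[⟨52, 41, 6⟩, ⟨48, 40, 10⟩, ⟨48, 41, 10⟩],
[⟨52, 42, 6⟩, ⟨48, 40, 10⟩, ⟨50, 40, 10⟩],
[⟨53, 43, 6⟩, ⟨50, 40, 10⟩, ⟨50, 41, 10⟩],
[⟨54, 43, 6⟩, ⟨50, 41, 10⟩, ⟨52, 41, 10⟩],
[⟨55, 42, 6⟩, ⟨52, 41, 10⟩, ⟨52, 42, 10⟩],
[⟨56, 42, 6⟩, ⟨52, 42, 10⟩, ⟨53, 43, 10⟩],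
[⟨57, 43, 6⟩, ⟨53, 43, 10⟩, ⟨54, 43, 10⟩],
[⟨58, 43, 6⟩, ⟨54, 43, 10⟩, ⟨55, 42, 10⟩],
[⟨59, 42, 6⟩, ⟨55, 42, 10⟩, ⟨56, 42, 10⟩],
[⟨59, 41, 6⟩, ⟨56, 42, 10⟩, ⟨57, 43, 10⟩],
[⟨60, 40, 6⟩, ⟨57, 43, 10⟩, ⟨58, 43, 10⟩],
[⟨61, 40, 6⟩, ⟨58, 43, 10⟩, ⟨59, 42, 10⟩],
[⟨62, 41, 6⟩, ⟨59, 41, 10⟩, ⟨59, 42, 10⟩],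
[⟨63, 41, 6⟩, ⟨59, 41, 10⟩, ⟨60, 40, 10⟩],
[⟨64, 40, 6⟩, ⟨60, 40, 10⟩, ⟨61, 40, 10⟩],
[⟨65, 40, 6⟩, ⟨61, 40, 10⟩, ⟨62, 41, 10⟩],
[⟨66, 41, 6⟩, ⟨62, 41, 10⟩, ⟨63, 41, 10⟩],
[⟨67, 41, 6⟩, ⟨63, 41, 10⟩, ⟨64, 40, 10⟩],
[⟨68, 40, 6⟩, ⟨64, 40, 10⟩, ⟨65, 40, 10⟩],
[⟨69, 40, 6⟩, ⟨65, 40, 10⟩, ⟨66, 41, 10⟩],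
[⟨70, 41, 6⟩, ⟨66, 41, 10⟩, ⟨67, 41, 10⟩],
[⟨71, 41, 6⟩, ⟨67, 41, 10⟩, ⟨68, 40, 10⟩],
[⟨72, 40, 6⟩, ⟨68, 40, 10⟩, ⟨69, 40, 10⟩],
[⟨41, 71, 6⟩, ⟨41, 74, 10⟩, ⟨41, 75, 10⟩],
[⟨41, 70, 6⟩, ⟨40, 73, 10⟩, ⟨41, 74, 10⟩],
[⟨40, 69, 6⟩, ⟨40, 72, 10⟩, ⟨40, 73, 10⟩],
[⟨40, 68, 6⟩, ⟨40, 72, 10⟩, ⟨41, 71, 10⟩],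
[⟨41, 67, 6⟩, ⟨41, 70, 10⟩, ⟨41, 71, 10⟩],
[⟨41, 66, 6⟩, ⟨40, 69, 10⟩, ⟨41, 70, 10⟩],
[⟨40, 65, 6⟩, ⟨40, 68, 10⟩, ⟨40, 69, 10⟩],
[⟨40, 64, 6⟩, ⟨40, 68, 10⟩, ⟨41, 67, 10⟩],
[⟨41, 63, 6⟩, ⟨41, 66, 10⟩, ⟨41, 67, 10⟩],
[⟨41, 62, 6⟩, ⟨40, 65, 10⟩, ⟨41, 66, 10⟩],
[⟨40, 61, 6⟩, ⟨40, 64, 10⟩, ⟨40, 65, 10⟩],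
[⟨40, 60, 6⟩, ⟨40, 64, 10⟩, ⟨41, 63, 10⟩],
[⟨41, 59, 6⟩, ⟨41, 62, 10⟩, ⟨41, 63, 10⟩],
[⟨41, 58, 6⟩, ⟨40, 61, 10⟩, ⟨41, 62, 10⟩],
[⟨40, 57, 6⟩, ⟨40, 60, 10⟩, ⟨40, 61, 10⟩],
[⟨40, 56, 6⟩, ⟨40, 60, 10⟩, ⟨41, 59, 10⟩],
[⟨41, 55, 6⟩, ⟨41, 58, 10⟩, ⟨41, 59, 10⟩],
[⟨41, 54, 6⟩, ⟨40, 57, 10⟩, ⟨41, 58, 10⟩],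
[⟨40, 53, 6⟩, ⟨40, 56, 10⟩, ⟨40, 57, 10⟩],
[⟨40, 52, 6⟩, ⟨40, 56, 10⟩, ⟨41, 55, 10⟩],
[⟨39, 51, 6⟩, ⟨41, 54, 10⟩, ⟨41, 55, 10⟩],
[⟨39, 50, 6⟩, ⟨40, 53, 10⟩, ⟨41, 54, 10⟩],
[⟨40, 49, 6⟩, ⟨40, 52, 10⟩, ⟨40, 53, 10⟩],
[⟨40, 48, 6⟩, ⟨39, 51, 10⟩, ⟨40, 52, 10⟩],
[⟨42, 39, 6⟩, ⟨39, 42, 10⟩, ⟨40, 41, 10⟩],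
[⟨41, 38, 6⟩, ⟨40, 41, 10⟩, ⟨41, 41, 10⟩],
[⟨41, 37, 6⟩, ⟨41, 41, 10⟩, ⟨42, 40, 10⟩],
[⟨40, 36, 6⟩, ⟨42, 39, 10⟩, ⟨42, 40, 10⟩],
[⟨40, 35, 6⟩, ⟨41, 38, 10⟩, ⟨42, 39, 10⟩],
[⟨39, 34, 6⟩, ⟨41, 37, 10⟩, ⟨41, 38, 10⟩],
[⟨39, 33, 6⟩, ⟨40, 36, 10⟩, ⟨41, 37, 10⟩],
[⟨38, 32, 6⟩, ⟨40, 35, 10⟩, ⟨40, 36, 10⟩],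
[⟨38, 31, 6⟩, ⟨39, 34, 10⟩, ⟨40, 35, 10⟩],
[⟨37, 30, 6⟩, ⟨39, 33, 10⟩, ⟨39, 34, 10⟩],
[⟨37, 29, 6⟩, ⟨38, 32, 10⟩, ⟨39, 33, 10⟩],
[⟨36, 28, 6⟩, ⟨38, 31, 10⟩, ⟨38, 32, 10⟩],
[⟨36, 27, 6⟩, ⟨37, 30, 10⟩, ⟨38, 31, 10⟩],
[⟨35, 26, 6⟩, ⟨37, 29, 10⟩, ⟨37, 30, 10⟩],
[⟨35, 25, 6⟩, ⟨36, 28, 10⟩, ⟨37, 29, 10⟩],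
[⟨34, 24, 6⟩, ⟨36, 27, 10⟩, ⟨36, 28, 10⟩],
[⟨34, 23, 6⟩, ⟨35, 26, 10⟩, ⟨36, 27, 10⟩],
[⟨35, 22, 6⟩, ⟨35, 25, 10⟩, ⟨35, 26, 10⟩],
[⟨36, 22, 6⟩, ⟨34, 24, 10⟩, ⟨35, 25, 10⟩],
[⟨37, 21, 6⟩, ⟨34, 23, 10⟩, ⟨34, 24, 10⟩],
[⟨38, 21, 6⟩, ⟨34, 23, 10⟩, ⟨35, 22, 10⟩],
[⟨39, 20, 6⟩, ⟨35, 22, 10⟩, ⟨36, 22, 10⟩],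
[⟨40, 20, 6⟩, ⟨36, 22, 10⟩, ⟨37, 21, 10⟩],
[⟨41, 19, 6⟩, ⟨37, 21, 10⟩, ⟨38, 21, 10⟩],
[⟨41, 18, 6⟩, ⟨38, 21, 10⟩, ⟨39, 20, 10⟩],
[⟨40, 17, 6⟩, ⟨39, 20, 10⟩, ⟨40, 20, 10⟩],
[⟨40, 16, 6⟩, ⟨40, 20, 10⟩, ⟨41, 19, 10⟩],
[⟨41, 15, 6⟩, ⟨41, 18, 10⟩, ⟨41, 19, 10⟩],
[⟨41, 14, 6⟩, ⟨40, 17, 10⟩, ⟨41, 18, 10⟩],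
[⟨40, 13, 6⟩, ⟨40, 16, 10⟩, ⟨40, 17, 10⟩],
[⟨40, 12, 6⟩, ⟨40, 16, 10⟩, ⟨41, 15, 10⟩],
[⟨41, 11, 6⟩, ⟨41, 14, 10⟩, ⟨41, 15, 10⟩],
[⟨41, 10, 6⟩, ⟨40, 13, 10⟩, ⟨41, 14, 10⟩],
[⟨40, 9, 6⟩, ⟨40, 12, 10⟩, ⟨40, 13, 10⟩],
[⟨40, 8, 6⟩, ⟨40, 12, 10⟩, ⟨41, 11, 10⟩],
[⟨41, 7, 6⟩, ⟨41, 10, 10⟩, ⟨41, 11, 10⟩]]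

end Pool.Agent.Lib.H32C.Loc
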