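import Pool.Agent.Lib.H32C.MemChain
import Pool.Agent.Lib.H32C.TdCR0

/-!
# Part a of the certificate of the tile TdCR
-/

set_option autoImplicit false

namespace Pool.Agent.Lib.H32C.Loc

/-- accumulated states -/
def uCRR0 : List Mo := [⟨90, 2382⟩]

/-- items -/
def uCRRL0 : List NI := [
⟨69, 52, 42, (.cons 210 231 (.exit 0) .nil), [70], 0, 0, 0, 0, 0, 0, 0, 0⟩,
⟨70, 53, 43, (.cons 210 211 (.exit 0) (.cons 227 188 .nil .nil)), [71], 0, 0, 0, 0, 0, 0, 0, 0⟩,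
⟨71, 54, 43, (.cons 210 191 (.exit 0) .nil), [72], 0, 0, 0, 0, 0, 0, 0, 0⟩,
⟨72, 55, 42, (.cons 210 211 (.exit 0) .nil), [73], 0, 0, 0, 0, 0, 0, 0, 0⟩,
⟨73, 56, 42, (.cons 210 231 (.exit 0) (.cons 230 249 (.cons 210 231 .nil .nil) .nil)), [74], 0, 0, 0, 0, 0, 0, 0, 0⟩,
⟨74, 57, 43, (.cons 210 211 (.exit 0) (.cons 209 228 .nil .nil)), [75], 0, 0, 0, 0, 0, 0, 0, 0⟩,
⟨75, 58, 43, (.cons 210 191 (.exit 0) (.cons 210 191 .nil (.cons 207 228 (.cons 210 191 .nil .nil) .nil))), [76], 0, 0, 0, 0, 0, 0, 0, 0⟩,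
⟨76, 59, 42, (.cons 210 190 (.exit 0) .nil), [77], 0, 0, 0, 0, 0, 0, 0, 0⟩,
⟨77, 59, 41, (.cons 210 191 (.exit 0) .nil), [78], 0, 0, 0, 0, 0, 0, 0, 0⟩,
⟨78, 60, 40, (.cons 210 211 (.exit 0) .nil), [79], 0, 0, 0, 0, 0, 0, 0, 0⟩,
⟨79, 61, 40, (.cons 210 231 (.exit 0) (.cons 230 249 .nil .nil)), [80], 0, 0, 0, 0, 0, 0, 0, 0⟩,
⟨80, 62, 41, (.cons 210 211 (.exit 0) (.cons 208 249 .nil .nil)), [81], 0, 0, 0, 0, 0, 0, 0, 0⟩,
⟨81, 63, 41, (.cons 210 191 (.exit 0) (.cons 210 191 .nil (.cons 246 228 (.cons 210 191 .nil .nil) .nil))), [82], 0, 0, 0, 0, 0, 0, 0, 0⟩,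
⟨82, 64, 40, (.cons 210 211 (.exit 0) .nil), [83], 0, 0, 0, 0, 0, 0, 0, 0⟩,
⟨83, 65, 40, (.cons 210 231 (.exit 0) (.cons 250 249 (.cons 210 231 .nil .nil) .nil)), [84], 0, 0, 0, 0, 0, 0, 0, 0⟩,
⟨84, 66, 41, (.cons 210 211 (.exit 0) (.cons 229 228 .nil .nil)), [85], 0, 0, 0, 0, 0, 0, 0, 0⟩,
⟨85, 67, 41, (.cons 210 191 (.exit 0) (.cons 210 191 .nil (.cons 248 228 (.cons 210 191 .nil .nil) .nil))), [86], 0, 0, 0, 0, 0, 0, 0, 0⟩,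
⟨86, 68, 40, (.cons 210 211 (.exit 0) .nil), [87], 0, 0, 0, 0, 0, 0, 0, 0⟩,
⟨87, 69, 40, (.cons 210 231 (.exit 0) (.cons 250 249 (.cons 210 231 .nil .nil) .nil)), [88], 0, 0, 0, 0, 0, 0, 0, 0⟩,
⟨88, 70, 41, (.cons 210 211 (.exit 0) (.cons 229 228 .nil .nil)), [89], 0, 0, 0, 0, 0, 0, 0, 0⟩,
⟨89, 71, 41, (.cons 210 191 (.exit 0) (.cons 210 191 .nil (.cons 248 228 (.cons 210 191 .nil .nil) .nil))), [90], 0, 0, 0, 0, 0, 0, 0, 0⟩]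

theorem uCRRL0_ok : grpNU MCR.H MCR.A SCR (phs 2382 uCRR0) uCRRL0 = true := by decide +kernel

/-- accumulated states -/
def uCRR1 : List Mo := addN 2382 uCRRL0 uCRR0

/-- patch setting -/
def uCRRP1 : PS := ⟨52, 41, [⟨⟨56, 23, 11⟩, 4, 4⟩], ⟨false, [56], true⟩, 0, 0, 0⟩

theorem uCRRP1_ok : psOk MCR uCRRP1 = true := by decide +kernel

/-- items -/
def uCRRL1 : List UI := [
⟨68, 2382, [⟨58, 33, 8⟩], (.cons 210 230 (.exit 0) (.cons 210 230 (.cons 230 251 .nil .nil) .nil)), [[⟨69, [⟨58, 33, 8⟩]⟩]]⟩]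

theorem uCRRL1_ok : grpU MCR SCR uCRRP1 uCRR1 uCRRL1 = true := by decide +kernel

/-- accumulated states -/
def uCRR2 : List Mo := keysU uCRRL1 uCRR1

/-- patch setting -/
def uCRRP2 : PS := ⟨51, 40, [⟨⟨77, 23, 11⟩, 4, 4⟩], ⟨false, [], true⟩, 1, 1491, 77⟩

theorem uCRRP2_ok : psOk MCR uCRRP2 = true := by decide +kernel

/-- items -/
def uCRRL2 : List UI := [
⟨67, 1491, [⟨58, 33, 7⟩], (.cons 210 231 (.exit 0) (.cons 210 231 .nil (.cons 210 230 (.cons 230 251 .nil (.cons 230 251 .nil .nil)) .nil))), [[⟨68, [⟨58, 33, 8⟩]⟩], []]⟩]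

theorem uCRRL2_ok : grpU MCR SCR uCRRP2 uCRR2 uCRRL2 = true := by decide +kernel

/-- accumulated states -/
def uCRR3 : List Mo := keysU uCRRL2 uCRR2

/-- patch setting -/
def uCRRP3 : PS := ⟨50, 39, [⟨⟨117, 23, 11⟩, 5, 5⟩], ⟨false, [], true⟩, 1, 1491, 117⟩

theorem uCRRP3_ok : psOk MCR uCRRP3 = true := by decide +kernel

/-- items -/
def uCRRL3 : List UI := [
⟨66, 1491, [⟨57, 34, 7⟩], (.cons 210 231 (.exit 0) (.cons 268 249 (.cons 210 231 (.cons 231 252 (.cons 252 272 .nil (.cons 252 272 .nil .nil)) (.cons 231 252 .nil (.cons 231 251 .nil .nil))) .nil) (.cons 210 231 (.cons 231 252 (.cons 252 272 .nil (.cons 252 272 .nil .nil)) (.cons 231 252 .nil (.cons 268 249 (.cons 231 252 (.cons 252 272 .nil (.cons 252 272 .nil .nil)) (.cons 231 252 .nil (.cons 231 251 .nil .nil))) (.cons 231 251 .nil .nil)))) .nil))), [[], [⟨67, [⟨57, 34, 7⟩]⟩]]⟩]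

theorem uCRRL3_ok : grpU MCR SCR uCRRP3 uCRR3 uCRRL3 = true := by decide +kernel

/-- accumulated states -/
def uCRR4 : List Mo := keysU uCRRL3 uCRR3

/-- items -/
def uCRRL4 : List NI := [
⟨65, 49, 39, (.cons 210 211 (.exit 0) .nil), [66], 0, 0, 0, 0, 0, 0, 0, 0⟩]

theorem uCRRL4_ok : grpNU MCR.H MCR.A SCR (phs 1491 uCRR4) uCRRL4 = true := by decide +kernel

/-- accumulated states -/
def uCRR5 : List Mo := addN 1491 uCRRL4 uCRR4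

/-- patch setting -/
def uCRRP5 : PS := ⟨48, 40, [⟨⟨137, 23, 11⟩, 7, 7⟩], ⟨false, [], true⟩, 1, 1491, 137⟩

theorem uCRRP5_ok : psOk MCR uCRRP5 = true := by decide +kernel

/-- items -/
def uCRRL5 : List UI := [
⟨64, 1491, [⟨55, 36, 7⟩], (.cons 210 191 (.exit 0) (.cons 210 231 (.cons 231 252 (.cons 252 233 .nil (.cons 252 233 .nil .nil)) (.cons 231 210 (.cons 210 191 .nil .nil) .nil)) .nil)), [[], [⟨65, [⟨55, 36, 7⟩]⟩]]⟩]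

theorem uCRRL5_ok : grpU MCR SCR uCRRP5 uCRR5 uCRRL5 = true := by decide +kernel

/-- accumulated states -/
def uCRR6 : List Mo := keysU uCRRL5 uCRR5

/-- patch setting -/
def uCRRP6 : PS := ⟨48, 41, [⟨⟨117, 23, 11⟩, 7, 7⟩], ⟨false, [], true⟩, 1, 1491, 117⟩

theorem uCRRP6_ok : psOk MCR uCRRP6 = true := by decide +kernel

/-- items -/
def uCRRL6 : List UI := [
⟨63, 1491, [⟨55, 36, 7⟩], (.cons 210 190 (.exit 0) .nil), [[], [⟨64, [⟨55, 36, 7⟩]⟩]]⟩]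

theorem uCRRL6_ok : grpU MCR SCR uCRRP6 uCRR6 uCRRL6 = true := by decide +kernel

/-- accumulated states -/
def uCRR7 : List Mo := keysU uCRRL6 uCRR6

/-- items -/
def uCRRL7 : List NI := [
⟨24, 30, 42, (.cons 210 231 (.exit 0) .nil), [25], 0, 0, 0, 0, 0, 0, 0, 0⟩,
⟨25, 31, 43, (.cons 210 230 (.exit 0) (.cons 208 188 .nil .nil)), [26], 0, 0, 0, 0, 0, 0, 0, 0⟩,
⟨26, 31, 44, (.cons 210 231 .nil (.cons 210 231 (.exit 0) (.cons 210 231 .nil (.cons 167 188 (.cons 210 231 .nil (.cons 210 231 .nil .nil)) .nil)))), [27], 0, 0, 0, 0, 0, 0, 0, 0⟩,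
⟨27, 32, 45, (.cons 210 211 (.exit 0) .nil), [28], 0, 0, 0, 0, 0, 0, 0, 0⟩,
⟨28, 33, 45, (.cons 210 231 (.exit 0) .nil), [29], 0, 0, 0, 0, 0, 0, 0, 0⟩,
⟨29, 34, 46, (.cons 210 230 (.exit 0) (.cons 208 229 (.cons 228 188 .nil .nil) .nil)), [30], 0, 0, 0, 0, 0, 0, 0, 0⟩,
⟨30, 34, 47, (.cons 210 229 (.exit 0) (.cons 167 188 .nil .nil)), [31], 0, 0, 0, 0, 0, 0, 0, 0⟩,
⟨31, 33, 48, (.cons 210 230 (.exit 0) (.cons 170 188 (.cons 210 229 .nil .nil) (.cons 210 229 (.cons 229 210 .nil (.cons 170 188 .nil .nil)) .nil))), [32], 0, 0, 0, 0, 0, 0, 0, 0⟩,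
⟨32, 33, 49, (.cons 173 192 (.cons 210 190 (.cons 230 212 (.cons 190 210 .nil .nil) (.cons 128 149 (.cons 190 210 .nil .nil) (.cons 190 209 .nil .nil))) (.cons 191 169 .nil .nil)) (.cons 210 229 (.exit 0) (.cons 191 169 (.cons 210 191 (.cons 191 171 .nil .nil) (.cons 148 169 .nil .nil)) (.cons 191 169 (.cons 173 192 .nil (.cons 148 169 .nil .nil)) .nil)))), [33], 0, 0, 0, 0, 0, 0, 0, 0⟩,
⟨33, 32, 50, (.cons 210 230 (.exit 0) (.cons 210 230 (.cons 230 249 .nil .nil) (.cons 210 230 (.cons 230 249 .nil .nil) (.cons 210 230 (.cons 230 249 .nil .nil) (.cons 210 230 (.cons 230 249 (.cons 226 247 .nil .nil) .nil) .nil))))), [34], 0, 0, 0, 0, 0, 0, 0, 0⟩,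
⟨34, 32, 51, (.cons 210 229 .nil (.cons 210 229 (.exit 0) .nil)), [35], 0, 0, 0, 0, 0, 0, 0, 0⟩,
⟨35, 31, 52, (.cons 210 230 (.exit 0) .nil), [36], 0, 0, 0, 0, 0, 0, 0, 0⟩,
⟨36, 31, 53, (.cons 173 192 (.cons 210 231 .nil .nil) (.cons 210 231 (.exit 0) .nil)), [37], 0, 0, 0, 0, 0, 0, 0, 0⟩,
⟨37, 32, 54, (.cons 152 171 .nil (.cons 210 211 (.exit 0) .nil)), [38], 0, 0, 0, 0, 0, 0, 0, 0⟩,
⟨38, 33, 54, (.cons 210 231 (.exit 0) .nil), [39], 0, 0, 0, 0, 0, 0, 0, 0⟩,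
⟨39, 34, 55, (.cons 210 211 (.exit 0) .nil), [40], 0, 0, 0, 0, 0, 0, 0, 0⟩,
⟨40, 35, 55, (.cons 210 191 (.exit 0) (.cons 210 191 (.cons 190 212 .nil .nil) .nil)), [41], 0, 0, 0, 0, 0, 0, 0, 0⟩,
⟨41, 36, 54, (.cons 210 211 (.exit 0) (.cons 210 231 (.cons 231 252 .nil .nil) .nil)), [42], 0, 0, 0, 0, 0, 0, 0, 0⟩,
⟨42, 37, 54, (.cons 210 191 (.exit 0) (.cons 210 191 .nil (.cons 190 231 (.cons 210 190 (.cons 172 211 .nil .nil) (.cons 210 191 .nil .nil)) .nil))), [43], 0, 0, 0, 0, 0, 0, 0, 0⟩,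
⟨43, 38, 53, (.cons 210 190 (.exit 0) .nil), [44], 0, 0, 0, 0, 0, 0, 0, 0⟩,
⟨44, 38, 52, (.cons 210 191 (.exit 0) (.cons 210 231 (.cons 231 232 (.cons 232 253 (.cons 251 272 .nil .nil) .nil) (.cons 231 232 .nil (.cons 231 232 .nil .nil))) .nil)), [45], 0, 0, 0, 0, 0, 0, 0, 0⟩,
⟨45, 39, 51, (.cons 210 190 (.exit 0) .nil), [46], 0, 0, 0, 0, 0, 0, 0, 0⟩,
⟨46, 39, 50, (.cons 210 191 .nil (.cons 210 191 (.exit 0) (.cons 210 191 (.cons 191 171 (.cons 171 152 .nil (.cons 171 192 (.cons 172 211 .nil .nil) (.cons 172 190 (.cons 171 152 .nil (.cons 171 172 (.cons 194 213 .nil .nil) .nil)) .nil))) (.cons 191 171 (.cons 171 192 (.cons 192 211 .nil .nil) (.cons 171 152 .nil .nil)) .nil)) (.cons 210 191 (.cons 191 171 (.cons 171 152 .nil (.cons 171 192 (.cons 172 211 .nil .nil) (.cons 172 190 (.cons 171 152 .nil (.cons 171 172 (.cons 194 213 .nil .nil) .nil))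 .nil))) .nil) .nil)))), [47], 0, 0, 0, 0, 0, 0, 0, 0⟩,
⟨47, 40, 49, (.cons 210 190 (.exit 0) .nil), [48], 0, 0, 0, 0, 0, 0, 0, 0⟩,
⟨48, 40, 48, (.cons 210 191 .nil (.cons 210 191 (.exit 0) (.cons 210 191 (.cons 191 171 (.cons 171 150 .nil (.cons 211 189 (.cons 169 190 .nil .nil) (.cons 171 190 (.cons 213 212 .nil (.cons 190 171 .nil .nil)) .nil))) (.cons 191 171 (.cons 171 190 .nil .nil) .nil)) (.cons 211 229 (.cons 210 191 .nil (.cons 210 211 .nil (.cons 210 211 (.cons 233 252 .nil .nil) .nil))) .nil)))), [49], 0, 0, 0, 0, 0, 0, 0, 0⟩,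
⟨49, 41, 47, (.cons 210 190 (.exit 0) .nil), [50], 0, 0, 0, 0, 0, 0, 0, 0⟩,
⟨50, 41, 46, (.cons 210 189 .nil (.cons 250 228 (.cons 210 189 .nil (.cons 210 230 .nil .nil)) (.cons 210 189 (.exit 0) (.cons 228 229 (.cons 210 189 .nil (.cons 250 228 (.cons 210 189 .nil .nil) (.cons 210 189 (.cons 229 230 .nil (.cons 250 228 .nil .nil)) .nil))) .nil)))), [51], 0, 0, 0, 0, 0, 0, 0, 0⟩,
⟨51, 40, 45, (.cons 210 190 (.exit 0) (.cons 271 249 .nil .nil)), [52], 0, 0, 0, 0, 0, 0, 0, 0⟩,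
⟨52, 40, 44, (.cons 210 189 (.exit 0) (.cons 228 249 (.cons 210 189 .nil (.cons 209 231 (.cons 210 189 .nil .nil) .nil)) (.cons 210 189 .nil (.cons 209 231 (.cons 210 209 .nil (.cons 231 249 (.cons 210 189 .nil .nil) (.cons 210 189 .nil .nil))) .nil)))), [53], 0, 0, 0, 0, 0, 0, 0, 0⟩,
⟨53, 39, 43, (.cons 210 190 (.exit 0) .nil), [54], 0, 0, 0, 0, 0, 0, 0, 0⟩,
⟨54, 39, 42, (.cons 210 191 (.exit 0) (.cons 250 232 (.cons 210 191 .nil (.cons 210 230 .nil .nil)) (.cons 210 191 .nil (.cons 210 191 (.cons 250 232 (.cons 191 192 .nil .nil) (.cons 191 192 .nil (.cons 191 192 .nil .nil))) .nil)))), [55], 0, 0, 0, 0, 0, 0, 0, 0⟩,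
⟨55, 40, 41, (.cons 269 251 .nil (.cons 210 211 (.exit 0) .nil)), [56], 0, 0, 0, 0, 0, 0, 0, 0⟩,
⟨56, 41, 41, (.cons 229 251 .nil (.cons 210 191 (.exit 0) .nil)), [57], 0, 0, 0, 0, 0, 0, 0, 0⟩,
⟨57, 42, 40, (.cons 210 211 (.exit 0) (.cons 230 249 .nil .nil)), [58], 0, 0, 0, 0, 0, 0, 0, 0⟩,
⟨58, 43, 40, (.cons 210 231 (.exit 0) (.cons 210 189 (.cons 189 168 .nil .nil) .nil)), [59], 0, 0, 0, 0, 0, 0, 0, 0⟩,
⟨59, 44, 41, (.cons 210 211 (.exit 0) (.cons 187 228 .nil .nil)), [60], 0, 0, 0, 0, 0, 0, 0, 0⟩,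
⟨60, 45, 41, (.cons 210 231 .nil (.cons 210 231 (.exit 0) (.cons 210 231 .nil (.cons 207 228 (.cons 210 231 .nil (.cons 210 231 .nil .nil)) .nil)))), [61], 0, 0, 0, 0, 0, 0, 0, 0⟩,
⟨61, 46, 42, (.cons 210 211 (.exit 0) .nil), [62], 0, 0, 0, 0, 0, 0, 0, 0⟩,
⟨62, 47, 42, (.cons 210 191 (.exit 0) (.cons 207 228 (.cons 210 209 (.cons 206 227 .nil .nil) .nil) .nil)), [63], 0, 0, 0, 0, 0, 0, 0, 0⟩]

theorem uCRRL7_ok : grpNU MCR.H MCR.A SCR (phs 1491 uCRR7) uCRRL7 = true := by decide +kernel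

/-- accumulated states -/
def uCRR8 : List Mo := addN 1491 uCRRL7 uCRR7

/-- patch setting -/
def uCRRP8 : PS := ⟨30, 41, [⟨⟨56, 23, 11⟩, 15, 15⟩], ⟨false, [56], true⟩, 0, 0, 0⟩

theorem uCRRP8_ok : psOk MCR uCRRP8 = true := by decide +kernel

/-- items -/
def uCRRL8 : List UI := [
⟨23, 1491, [⟨36, 33, 8⟩], (.cons 210 230 (.exit 0) (.cons 250 228 (.cons 210 230 (.cons 230 250 .nil .nil) (.cons 210 230 (.cons 230 251 .nil .nil) .nil)) (.cons 210 230 (.cons 230 251 .nil .nil) (.cons 210 230 (.cons 230 251 .nil .nil) .nil)))), [[⟨24, [⟨36, 33, 8⟩]⟩]]⟩]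

theorem uCRRL8_ok : grpU MCR SCR uCRRP8 uCRR8 uCRRL8 = true := by decide +kernel

/-- accumulated states -/
def uCRR9 : List Mo := keysU uCRRL8 uCRR8

/-- patch setting -/
def uCRRP9 : PS := ⟨28, 40, [⟨⟨97, 23, 11⟩, 16, 16⟩], ⟨false, [], true⟩, 1, 2382, 97⟩

theorem uCRRP9_ok : psOk MCR uCRRP9 = true := by decide +kernel

/-- items -/
def uCRRL9 : List UI := [
⟨21, 2382, [⟨35, 34, 7⟩], (.cons 190 211 (.exit 0) (.cons 248 229 (.cons 190 211 (.cons 211 190 (.cons 190 211 (.cons 211 190 .nil (.cons 211 230 .nil .nil)) .nil) (.cons 211 190 .nil (.cons 211 190 .nil .nil))) .nil) (.cons 190 211 (.cons 211 232 (.cons 232 252 (.cons 272 231 .nil .nil) (.cons 272 250 (.cons 232 252 (.cons 252 231 .nil .nil) (.cons 232 252 (.cons 252 231 .nil .nil) .nil)) (.cons 232 252 (.cons 252 231 .nil .nil) (.cons 232 252 (.cons 252 231 .nil .nil) .nil)))) (.cons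 211 232 (.cons 232 253 .nil .nil) (.cons 248 229 (.cons 211 190 (.cons 190 211 (.cons 211 190 .nil (.cons 211 230 .nil .nil)) .nil) (.cons 211 190 .nil (.cons 211 190 .nil .nil))) (.cons 272 250 (.cons 211 210 (.cons 210 231 .nil .nil) (.cons 211 232 (.cons 232 253 .nil .nil) .nil)) .nil)))) .nil))), [[], [⟨22, [⟨35, 34, 7⟩]⟩]]⟩,
⟨22, 2382, [⟨35, 34, 7⟩], (.cons 211 232 (.exit 0) (.cons 211 232 (.cons 232 253 .nil .nil) (.cons 272 250 (.cons 211 232 (.cons 232 252 (.cons 252 273 .nil .nil) (.cons 232 211 .nil .nil)) .nil) .nil))), [[⟨23, [⟨35, 34, 8⟩]⟩], []]⟩]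

theorem uCRRL9_ok : grpU MCR SCR uCRRP9 uCRR9 uCRRL9 = true := by decide +kernel

/-- accumulated states -/
def uCRR10 : List Mo := keysU uCRRL9 uCRR9

/-- items -/
def uCRRL10 : List NI := [
⟨19, 26, 40, (.cons 210 191 (.exit 0) .nil), [20], 0, 0, 0, 0, 0, 0, 0, 0⟩,
⟨20, 27, 39, (.cons 210 211 (.exit 0) .nil), [21], 0, 0, 0, 0, 0, 0, 0, 0⟩]

theorem uCRRL10_ok : grpNU MCR.H MCR.A SCR (phs 2382 uCRR10) uCRRL10 = true := by decide +kernel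

/-- accumulated states -/
def uCRR11 : List Mo := addN 2382 uCRRL10 uCRR10

/-- patch setting -/
def uCRRP11 : PS := ⟨26, 41, [⟨⟨117, 23, 11⟩, 18, 18⟩], ⟨false, [], true⟩, 1, 2382, 117⟩

theorem uCRRP11_ok : psOk MCR uCRRP11 = true := by decide +kernel

/-- items -/
def uCRRL11 : List UI := [
⟨18, 2382, [⟨33, 36, 7⟩], (.cons 210 190 (.exit 0) .nil), [[], [⟨19, [⟨33, 36, 7⟩]⟩]]⟩]

theorem uCRRL11_ok : grpU MCR SCR uCRRP11 uCRR11 uCRRL11 = true := by decide +kernel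

/-- accumulated states -/
def uCRR12 : List Mo := keysU uCRRL11 uCRR11

/-- items -/
def uCRRL12 : List NI := [
⟨0, 8, 40, (.cons 210 211 (.exit 0) .nil), [1], 0, 0, 0, 0, 0, 0, 0, 0⟩,
⟨1, 9, 40, (.cons 210 231 (.exit 0) (.cons 250 249 (.cons 210 231 .nil .nil) .nil)), [2], 0, 0, 0, 0, 0, 0, 0, 0⟩,
⟨2, 10, 41, (.cons 210 211 (.exit 0) (.cons 229 228 .nil .nil)), [3], 0, 0, 0, 0, 0, 0, 0, 0⟩,
⟨3, 11, 41, (.cons 210 191 (.exit 0) (.cons 210 191 .nil (.cons 248 228 (.cons 210 191 .nil .nil) .nil))), [4], 0, 0, 0, 0, 0, 0, 0, 0⟩,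
⟨4, 12, 40, (.cons 210 211 (.exit 0) .nil), [5], 0, 0, 0, 0, 0, 0, 0, 0⟩,
⟨5, 13, 40, (.cons 210 231 (.exit 0) (.cons 250 249 (.cons 210 231 .nil .nil) .nil)), [6], 0, 0, 0, 0, 0, 0, 0, 0⟩,
⟨6, 14, 41, (.cons 210 211 (.exit 0) (.cons 229 228 .nil .nil)), [7], 0, 0, 0, 0, 0, 0, 0, 0⟩,
⟨7, 15, 41, (.cons 210 191 (.exit 0) (.cons 210 191 .nil (.cons 248 228 (.cons 210 191 .nil .nil) .nil))), [8], 0, 0, 0, 0, 0, 0, 0, 0⟩,
⟨8, 16, 40, (.cons 210 211 (.exit 0) .nil), [9], 0, 0, 0, 0, 0, 0, 0, 0⟩,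
⟨9, 17, 40, (.cons 210 231 (.exit 0) (.cons 230 249 (.cons 210 231 .nil .nil) .nil)), [10], 0, 0, 0, 0, 0, 0, 0, 0⟩,
⟨10, 18, 41, (.cons 210 211 (.exit 0) (.cons 209 228 .nil .nil)), [11], 0, 0, 0, 0, 0, 0, 0, 0⟩,
⟨11, 19, 41, (.cons 210 191 (.exit 0) (.cons 210 191 .nil (.cons 207 228 (.cons 210 191 .nil .nil) .nil))), [12], 0, 0, 0, 0, 0, 0, 0, 0⟩,
⟨12, 20, 40, (.cons 210 211 (.exit 0) .nil), [13], 0, 0, 0, 0, 0, 0, 0, 0⟩,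
⟨13, 21, 40, (.cons 210 231 (.exit 0) (.cons 208 249 (.cons 210 231 .nil .nil) .nil)), [14], 0, 0, 0, 0, 0, 0, 0, 0⟩,
⟨14, 22, 41, (.cons 210 211 (.exit 0) (.cons 187 228 .nil .nil)), [15], 0, 0, 0, 0, 0, 0, 0, 0⟩,
⟨15, 23, 41, (.cons 210 231 .nil (.cons 210 231 (.exit 0) (.cons 210 231 .nil (.cons 189 228 (.cons 210 231 .nil (.cons 210 231 .nil .nil)) .nil)))), [16], 0, 0, 0, 0, 0, 0, 0, 0⟩,
⟨16, 24, 42, (.cons 210 211 (.exit 0) .nil), [17], 0, 0, 0, 0, 0, 0, 0, 0⟩,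
⟨17, 25, 42, (.cons 210 191 (.exit 0) (.cons 207 228 (.cons 210 209 (.cons 206 227 .nil .nil) .nil) .nil)), [18], 0, 0, 0, 0, 0, 0, 0, 0⟩]

theorem uCRRL12_ok : grpNU MCR.H MCR.A SCR (phs 2382 uCRR12) uCRRL12 = true := by decide +kernel

/-- accumulated states -/
def uCRR13 : List Mo := addN 2382 uCRRL12 uCRR12

theorem CRR_up {R : Room} {F : Board} {O : Sq} (hF : MBase MCR O F R) (h0 : HasValue (PM MCR SCR F O 90 2382)) :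
    HasValue (PM MCR SCR F O 0 2382) := by
  have a0 : HVs MCR SCR F O uCRR0 := by
    intro m hm
    rw [List.mem_singleton.1 hm]
    exact h0
  have a1 := HVs.N hF MCR_ok 2382 (by decide +kernel) uCRRL0 uCRRL0_ok a0
  have a2 := HVs.U hF MCR_ok uCRRP1 uCRRL1 uCRRP1_ok uCRRL1_ok a1
  have a3 := HVs.U hF MCR_ok uCRRP2 uCRRL2 uCRRP2_ok uCRRL2_ok a2
  have a4 := HVs.U hF MCR_ok uCRRP3 uCRRL3 uCRRP3_ok uCRRL3_ok a3
  have a5 := HVs.N hF MCR_ok 1491 (by decide +kernel) uCRRL4 uCRRL4_ok a4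
  have a6 := HVs.U hF MCR_ok uCRRP5 uCRRL5 uCRRP5_ok uCRRL5_ok a5
  have a7 := HVs.U hF MCR_ok uCRRP6 uCRRL6 uCRRP6_ok uCRRL6_ok a6
  have a8 := HVs.N hF MCR_ok 1491 (by decide +kernel) uCRRL7 uCRRL7_ok a7
  have a9 := HVs.U hF MCR_ok uCRRP8 uCRRL8 uCRRP8_ok uCRRL8_ok a8
  have a10 := HVs.U hF MCR_ok uCRRP9 uCRRL9 uCRRP9_ok uCRRL9_ok a9
  have a11 := HVs.N hF MCR_ok 2382 (by decide +kernel) uCRRL10 uCRRL10_ok a10
  have a12 := HVs.U hF MCR_ok uCRRP11 uCRRL11 uCRRP11_ok uCRRL11_ok a11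
  have a13 := HVs.N hF MCR_ok 2382 (by decide +kernel) uCRRL12 uCRRL12_ok a12
  exact a13 ⟨0, 2382⟩ (ME2_membM _ (by decide +kernel))

end Pool.Agent.Lib.H32C.Loc
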