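import Pool.Agent.Lib.H32C.MemChain
import Pool.Agent.Lib.H32C.TdCR0

/-!
# Part b of the certificate of the tile TdCR
-/

set_option autoImplicit false

namespace Pool.Agent.Lib.H32C.Loc

/-- accumulated states -/
def uCRD0 : List Mo := [⟨150, 2382⟩]

/-- items -/
def uCRDL0 : List NI := [
⟨125, 37, 29, (.cons 210 189 (.exit 0) (.cons 210 189 .nil (.cons 210 189 .nil (.cons 210 189 (.cons 189 169 (.cons 169 148 .nil (.cons 168 190 (.cons 169 148 .nil .nil) .nil)) (.cons 189 169 (.cons 169 148 .nil .nil) .nil)) .nil)))), [126], 0, 0, 0, 0, 0, 0, 0, 0⟩,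
⟨126, 36, 28, (.cons 210 190 (.exit 0) .nil), [127], 0, 0, 0, 0, 0, 0, 0, 0⟩,
⟨127, 36, 27, (.cons 210 189 (.exit 0) (.cons 210 189 .nil (.cons 209 231 (.cons 210 209 (.cons 212 231 .nil .nil) (.cons 210 189 .nil .nil)) .nil))), [128], 0, 0, 0, 0, 0, 0, 0, 0⟩,
⟨128, 35, 26, (.cons 210 190 (.exit 0) .nil), [129], 0, 0, 0, 0, 0, 0, 0, 0⟩,
⟨129, 35, 25, (.cons 210 189 (.exit 0) (.cons 210 189 .nil (.cons 209 231 (.cons 210 209 .nil (.cons 210 189 .nil .nil)) .nil))), [130], 0, 0, 0, 0, 0, 0, 0, 0⟩,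
⟨130, 34, 24, (.cons 210 190 (.exit 0) .nil), [131], 0, 0, 0, 0, 0, 0, 0, 0⟩,
⟨131, 34, 23, (.cons 210 191 (.exit 0) (.cons 250 232 (.cons 210 191 .nil (.cons 210 230 .nil .nil)) (.cons 210 191 .nil (.cons 210 191 (.cons 191 192 (.cons 192 173 .nil .nil) (.cons 191 192 .nil (.cons 191 192 .nil .nil))) .nil)))), [132], 0, 0, 0, 0, 0, 0, 0, 0⟩,
⟨132, 35, 22, (.cons 269 251 .nil (.cons 210 211 (.exit 0) .nil)), [133], 0, 0, 0, 0, 0, 0, 0, 0⟩,
⟨133, 36, 22, (.cons 229 251 .nil (.cons 210 191 (.exit 0) .nil)), [134], 0, 0, 0, 0, 0, 0, 0, 0⟩,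
⟨134, 37, 21, (.cons 210 211 (.exit 0) (.cons 230 249 .nil .nil)), [135], 0, 0, 0, 0, 0, 0, 0, 0⟩,
⟨135, 38, 21, (.cons 210 191 (.cons 190 212 .nil .nil) (.cons 210 191 (.exit 0) (.cons 210 191 (.cons 190 212 .nil .nil) (.cons 190 231 (.cons 210 191 (.cons 191 212 (.cons 213 234 .nil .nil) .nil) (.cons 210 190 (.cons 151 172 .nil (.cons 247 229 .nil .nil)) (.cons 231 249 (.cons 210 231 .nil .nil) .nil))) (.cons 210 191 (.cons 191 192 (.cons 192 173 .nil (.cons 172 213 (.cons 192 173 .nil .nil) .nil)) (.cons 191 212 (.cons 213 234 .nil .nil) .nil)) .nil))))), [136], 0, 0, 0, 0, 0, 0, 0, 0⟩,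
⟨136, 39, 20, (.cons 210 211 (.exit 0) (.cons 210 231 (.cons 232 253 (.cons 209 250 .nil .nil) (.cons 209 250 (.cons 232 253 .nil .nil) .nil)) .nil)), [137], 0, 0, 0, 0, 0, 0, 0, 0⟩,
⟨137, 40, 20, (.cons 210 191 (.exit 0) (.cons 210 191 .nil (.cons 210 191 (.cons 191 171 .nil (.cons 191 171 .nil .nil)) .nil))), [138], 0, 0, 0, 0, 0, 0, 0, 0⟩,
⟨138, 41, 19, (.cons 210 190 (.exit 0) .nil), [139], 0, 0, 0, 0, 0, 0, 0, 0⟩,
⟨139, 41, 18, (.cons 210 189 (.exit 0) .nil), [140], 0, 0, 0, 0, 0, 0, 0, 0⟩,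
⟨140, 40, 17, (.cons 210 190 (.exit 0) (.cons 250 228 (.cons 268 229 .nil .nil) (.cons 210 190 (.cons 190 171 .nil (.cons 190 171 (.cons 170 192 .nil .nil) (.cons 190 171 (.cons 170 192 .nil .nil) (.cons 190 171 .nil .nil)))) .nil))), [141], 0, 0, 0, 0, 0, 0, 0, 0⟩,
⟨141, 40, 16, (.cons 210 191 (.exit 0) (.cons 213 232 (.cons 210 191 .nil (.cons 210 191 .nil (.cons 210 191 (.cons 190 212 .nil .nil) (.cons 210 230 (.cons 288 249 .nil .nil) (.cons 210 191 .nil .nil))))) (.cons 288 249 (.cons 213 232 (.cons 210 191 (.cons 191 212 .nil .nil) (.cons 210 230 (.cons 230 251 .nil .nil) (.cons 210 191 .nil .nil))) (.cons 210 191 .nil (.cons 232 231 (.cons 231 232 (.cons 210 191 .nil .nil) (.cons 210 191 .nil (.cons 190 231 (.cons 213 232 .nil (.cons 210 191 .nil .nil)) (.cons 210 191 (.cons 213 232 .nil (.cons 231 230 .nil .nil)) .nil)))) (.cons 232 231 (.cons 231 232 .nil (.cons 210 191 .nil (.cons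 190 231 (.cons 213 232 .nil (.cons 210 191 .nil .nil)) .nil))) (.cons 270 229 (.cons 213 232 (.cons 190 231 .nil .nil) (.cons 210 191 .nil (.cons 190 231 (.cons 213 232 .nil (.cons 210 191 .nil .nil)) .nil))) .nil))))) (.cons 210 191 .nil (.cons 210 191 (.cons 213 232 (.cons 190 212 .nil .nil) (.cons 191 171 (.cons 171 150 .nil (.cons 188 189 (.cons 171 190 .nil .nil) (.cons 171 190 (.cons 232 212 .nil (.cons 190 171 .nil .nil)) .nil))) (.cons 191 171 (.cons 171 190 .nil .nil) .nil))) (.cons 210 191 (.cons 213 232 (.cons 190 212 .nil .nil) (.cons 191 171 (.cons 171 150 .nil (.cons 188 189 (.cons 171 190 .nil .nil) (.cons 171 190 (.cons 232 212 .nil (.cons 190 171 .nil .nil)) .nil))) (.cons 191 171 (.cons 171 190 .nil .nil) .nil))) (.cons 210 191 (.cons 213 232 .nil (.cons 191 171 (.cons 171 150 .nil (.cons 211 189 (.cons 171 191 .nil .nil) (.cons 189 190 (.cons 171 150 .nil (.cons 211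 189 .nil .nil)) .nil))) .nil)) .nil))))))), [142], 0, 0, 0, 0, 0, 0, 0, 0⟩,
⟨142, 41, 15, (.cons 232 251 .nil (.cons 210 190 (.exit 0) .nil)), [143], 0, 0, 0, 0, 0, 0, 0, 0⟩,
⟨143, 41, 14, (.cons 210 189 .nil (.cons 229 251 (.cons 210 189 .nil (.cons 250 228 .nil .nil)) (.cons 250 228 (.cons 210 189 .nil (.cons 210 189 .nil (.cons 210 230 .nil .nil))) (.cons 210 189 (.exit 0) (.cons 228 229 (.cons 210 189 .nil (.cons 210 189 (.cons 229 230 .nil (.cons 250 228 .nil .nil)) (.cons 250 228 (.cons 210 189 .nil (.cons 210 189 .nil .nil)) (.cons 210 189 (.cons 229 230 .nil (.cons 250 228 .nil .nil)) .nil)))) .nil))))), [144], 0, 0, 0, 0, 0, 0, 0, 0⟩,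
⟨144, 40, 13, (.cons 210 190 (.exit 0) (.cons 271 249 .nil .nil)), [145], 0, 0, 0, 0, 0, 0, 0, 0⟩,
⟨145, 40, 12, (.cons 210 191 (.exit 0) (.cons 269 249 (.cons 210 191 .nil (.cons 190 231 (.cons 210 191 .nil .nil) .nil)) (.cons 210 191 .nil (.cons 190 231 (.cons 253 251 (.cons 210 191 .nil .nil) (.cons 231 249 (.cons 210 191 .nil .nil) (.cons 210 191 .nil .nil))) .nil)))), [146], 0, 0, 0, 0, 0, 0, 0, 0⟩,
⟨146, 41, 11, (.cons 210 190 (.exit 0) .nil), [147], 0, 0, 0, 0, 0, 0, 0, 0⟩,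
⟨147, 41, 10, (.cons 210 189 .nil (.cons 229 251 (.cons 210 189 .nil (.cons 250 228 .nil .nil)) (.cons 250 228 (.cons 210 189 .nil (.cons 210 189 .nil (.cons 210 230 .nil .nil))) (.cons 210 189 (.exit 0) (.cons 228 229 (.cons 210 189 .nil (.cons 210 189 (.cons 229 230 .nil (.cons 250 228 .nil .nil)) (.cons 250 228 (.cons 210 189 .nil (.cons 210 189 .nil .nil)) (.cons 210 189 (.cons 229 230 .nil (.cons 250 228 .nil .nil)) .nil)))) .nil))))), [148], 0, 0, 0, 0, 0, 0, 0, 0⟩,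
⟨148, 40, 9, (.cons 210 190 (.exit 0) (.cons 271 249 .nil .nil)), [149], 0, 0, 0, 0, 0, 0, 0, 0⟩,
⟨149, 40, 8, (.cons 210 191 (.exit 0) (.cons 269 249 (.cons 210 191 .nil (.cons 190 231 (.cons 210 191 .nil .nil) .nil)) (.cons 210 191 .nil (.cons 190 231 (.cons 253 251 (.cons 210 191 .nil .nil) (.cons 231 249 (.cons 210 191 .nil .nil) (.cons 210 191 .nil .nil))) .nil)))), [150], 0, 0, 0, 0, 0, 0, 0, 0⟩]

theorem uCRDL0_ok : grpNU MCR.H MCR.A SCR (phs 2382 uCRD0) uCRDL0 = true := by decide +kernel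

/-- accumulated states -/
def uCRD1 : List Mo := addN 2382 uCRDL0 uCRD0

/-- patch setting -/
def uCRDP1 : PS := ⟨37, 30, [⟨⟨345, 61, 11⟩, 1, 4⟩, ⟨⟨117, 23, 11⟩, 7, 7⟩], ⟨false, [345], true⟩, 1, 2382, 117⟩

theorem uCRDP1_ok : psOk MCR uCRDP1 = true := by decide +kernel

/-- items -/
def uCRDL1 : List UI := [
⟨124, 2382, [⟨32, 37, 7⟩, ⟨44, 25, 7⟩], (.cons 210 190 (.exit 0) .nil), [[], [⟨125, [⟨32, 37, 7⟩, ⟨44, 25, 7⟩]⟩]]⟩]

theorem uCRDL1_ok : grpU MCR SCR uCRDP1 uCRD1 uCRDL1 = true := by decide +kernel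

/-- accumulated states -/
def uCRD2 : List Mo := keysU uCRDL1 uCRD1

/-- patch setting -/
def uCRDP2 : PS := ⟨38, 31, [⟨⟨343, 61, 11⟩, 1, 3⟩, ⟨⟨77, 23, 11⟩, 6, 6⟩], ⟨false, [343], true⟩, 1, 2382, 77⟩

theorem uCRDP2_ok : psOk MCR uCRDP2 = true := by decide +kernel

/-- items -/
def uCRDL2 : List UI := [
⟨123, 2382, [⟨31, 38, 7⟩, ⟨45, 24, 7⟩], (.cons 210 189 (.cons 189 169 (.cons 169 148 .nil (.cons 169 148 .nil (.cons 167 188 (.cons 169 148 .nil (.cons 169 148 .nil .nil)) .nil))) (.cons 189 169 (.cons 167 188 .nil .nil) .nil)) (.cons 210 189 (.exit 0) (.cons 210 189 .nil (.cons 210 189 (.cons 189 169 (.cons 169 148 .nil (.cons 169 148 .nil (.cons 167 188 (.cons 169 148 .nil (.cons 169 148 .nil .nil)) .nil))) .nil) (.cons 210 229 (.cons 229 228 .nil (.cons 229 228 .nil (.cons 229 228 (.cons 228 209 .nil .nil) .nil))) .nil))))), [[], [⟨124, [⟨31, 38, 7⟩, ⟨45, 24, 7⟩]⟩]]⟩]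

theorem uCRDL2_ok : grpU MCR SCR uCRDP2 uCRD2 uCRDL2 = true := by decide +kernel

/-- accumulated states -/
def uCRD3 : List Mo := keysU uCRDL2 uCRD2

/-- patch setting -/
def uCRDP3 : PS := ⟨38, 32, [⟨⟨342, 61, 11⟩, 1, 2⟩, ⟨⟨57, 23, 11⟩, 6, 6⟩], ⟨false, [342], true⟩, 1, 2382, 57⟩

theorem uCRDP3_ok : psOk MCR uCRDP3 = true := by decide +kernel

/-- items -/
def uCRDL3 : List UI := [
⟨122, 2382, [⟨30, 39, 7⟩, ⟨45, 24, 7⟩], (.cons 210 190 (.exit 0) .nil), [[], [⟨123, [⟨30, 39, 7⟩, ⟨45, 24, 7⟩]⟩]]⟩]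

theorem uCRDL3_ok : grpU MCR SCR uCRDP3 uCRD3 uCRDL3 = true := by decide +kernel

/-- accumulated states -/
def uCRD4 : List Mo := keysU uCRDL3 uCRD3

/-- patch setting -/
def uCRDP4 : PS := ⟨37, 33, [⟨⟨342, 61, 11⟩, 1, 1⟩, ⟨⟨57, 23, 11⟩, 7, 7⟩], ⟨false, [342], true⟩, 1, 2382, 57⟩

theorem uCRDP4_ok : psOk MCR uCRDP4 = true := by decide +kernel

/-- items -/
def uCRDL4 : List UI := [
⟨121, 2382, [⟨29, 40, 7⟩, ⟨44, 25, 7⟩], (.cons 212 191 (.exit 0) (.cons 212 191 .nil (.cons 212 233 (.cons 252 274 (.cons 233 252 .nil (.cons 233 212 (.cons 212 191 .nil .nil) (.cons 233 252 .nil (.cons 233 212 (.cons 212 191 .nil .nil) .nil)))) (.cons 233 212 (.cons 212 191 .nil .nil) (.cons 233 212 (.cons 212 191 .nil .nil) (.cons 194 215 (.cons 233 212 (.cons 212 191 .nil .nil) (.cons 233 212 (.cons 212 191 .nil .nil) (.cons 233 232 (.cons 232 212 (.cons 212 233 (.cons 236 255 .nil (.cons 233 232 (.cons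 232 253 (.cons 252 274 .nil .nil) (.cons 232 251 .nil (.cons 192 210 (.cons 232 251 .nil (.cons 232 251 .nil .nil)) (.cons 232 251 .nil .nil)))) .nil)) (.cons 212 191 .nil .nil)) (.cons 192 210 .nil .nil)) (.cons 233 212 (.cons 212 191 .nil .nil) .nil)))) (.cons 233 232 (.cons 232 212 (.cons 212 233 (.cons 233 253 (.cons 214 235 .nil (.cons 271 292 .nil .nil)) (.cons 236 255 (.cons 252 274 .nil (.cons 194 215 .nil .nil)) (.cons 233 253 (.cons 252 274 .nil .nil) (.cons 233 232 (.cons 232 253 (.cons 252 274 .nil .nil) (.cons 232 251 .nil (.cons 192 210 (.cons 232 251 .nil (.cons 232 251 .nil .nil)) (.cons 232 251 .nil .nil)))) .nil)))) (.cons 212 191 .nil .nil)) (.cons 192 210 .nil .nil)) (.cons 233 212 (.cons 212 191 .nil .nil) .nil)))))) .nil))), [[], [⟨122, [⟨29, 40, 7⟩, ⟨44, 25, 7⟩]⟩]]⟩]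

theorem uCRDL4_ok : grpU MCR SCR uCRDP4 uCRD4 uCRDL4 = true := by decide +kernel

/-- accumulated states -/
def uCRD5 : List Mo := keysU uCRDL4 uCRD4

/-- items -/
def uCRDL5 : List NI := [
⟨91, 41, 71, (.cons 210 190 (.exit 0) .nil), [92], 0, 0, 0, 0, 0, 0, 0, 0⟩,
⟨92, 41, 70, (.cons 210 189 .nil (.cons 229 251 (.cons 210 189 .nil (.cons 250 228 .nil .nil)) (.cons 250 228 (.cons 210 189 .nil (.cons 210 189 .nil (.cons 210 230 .nil .nil))) (.cons 210 189 (.exit 0) (.cons 228 229 (.cons 210 189 .nil (.cons 210 189 (.cons 229 230 .nil (.cons 250 228 .nil .nil)) (.cons 250 228 (.cons 210 189 .nil (.cons 210 189 .nil .nil)) (.cons 210 189 (.cons 229 230 .nil (.cons 250 228 .nil .nil)) .nil)))) .nil))))), [93], 0, 0, 0, 0, 0, 0, 0, 0⟩,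
⟨93, 40, 69, (.cons 210 190 (.exit 0) (.cons 271 249 .nil .nil)), [94], 0, 0, 0, 0, 0, 0, 0, 0⟩,
⟨94, 40, 68, (.cons 210 191 (.exit 0) (.cons 269 249 (.cons 210 191 .nil (.cons 190 231 (.cons 210 191 .nil .nil) .nil)) (.cons 210 191 .nil (.cons 190 231 (.cons 253 251 (.cons 210 191 .nil .nil) (.cons 231 249 (.cons 210 191 .nil .nil) (.cons 210 191 .nil .nil))) .nil)))), [95], 0, 0, 0, 0, 0, 0, 0, 0⟩,
⟨95, 41, 67, (.cons 210 190 (.exit 0) .nil), [96], 0, 0, 0, 0, 0, 0, 0, 0⟩,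
⟨96, 41, 66, (.cons 210 189 .nil (.cons 229 251 (.cons 210 189 .nil (.cons 250 228 .nil .nil)) (.cons 250 228 (.cons 210 189 .nil (.cons 210 189 .nil (.cons 210 230 .nil .nil))) (.cons 210 189 (.exit 0) (.cons 228 229 (.cons 210 189 .nil (.cons 210 189 (.cons 229 230 .nil (.cons 250 228 .nil .nil)) (.cons 250 228 (.cons 210 189 .nil (.cons 210 189 .nil .nil)) (.cons 210 189 (.cons 229 230 .nil (.cons 250 228 .nil .nil)) .nil)))) .nil))))), [97], 0, 0, 0, 0, 0, 0, 0, 0⟩,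
⟨97, 40, 65, (.cons 210 190 (.exit 0) (.cons 271 249 .nil .nil)), [98], 0, 0, 0, 0, 0, 0, 0, 0⟩,
⟨98, 40, 64, (.cons 210 191 (.exit 0) (.cons 269 249 (.cons 210 191 .nil (.cons 270 231 (.cons 210 191 .nil .nil) .nil)) (.cons 210 191 .nil (.cons 270 231 (.cons 253 251 (.cons 210 191 .nil .nil) (.cons 231 249 (.cons 210 191 .nil .nil) (.cons 210 191 .nil .nil))) .nil)))), [99], 0, 0, 0, 0, 0, 0, 0, 0⟩,
⟨99, 41, 63, (.cons 210 190 (.exit 0) .nil), [100], 0, 0, 0, 0, 0, 0, 0, 0⟩,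
⟨100, 41, 62, (.cons 210 189 .nil (.cons 252 251 (.cons 210 189 .nil (.cons 250 228 (.cons 210 230 .nil .nil) (.cons 208 229 (.cons 210 189 .nil (.cons 250 228 .nil .nil)) .nil))) (.cons 250 228 (.cons 210 189 .nil (.cons 210 189 .nil (.cons 210 230 .nil .nil))) (.cons 210 189 (.exit 0) (.cons 208 229 (.cons 210 189 .nil (.cons 252 251 (.cons 210 189 .nil (.cons 250 228 .nil .nil)) (.cons 250 228 (.cons 210 189 .nil (.cons 210 189 .nil .nil)) (.cons 247 249 (.cons 210 189 .nil (.cons 250 228 .nil .nil)) .nil)))) .nil))))), [101], 0, 0, 0, 0, 0, 0, 0, 0⟩,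
⟨101, 40, 61, (.cons 210 190 (.exit 0) (.cons 271 249 .nil .nil)), [102], 0, 0, 0, 0, 0, 0, 0, 0⟩,
⟨102, 40, 60, (.cons 210 191 (.exit 0) (.cons 250 232 (.cons 210 191 .nil (.cons 210 191 .nil (.cons 210 230 .nil .nil))) (.cons 269 249 (.cons 250 232 (.cons 210 230 .nil .nil) (.cons 210 191 .nil (.cons 212 231 (.cons 250 232 .nil (.cons 210 191 .nil .nil)) .nil))) (.cons 210 191 .nil (.cons 232 231 (.cons 210 191 (.cons 250 232 .nil (.cons 231 230 .nil .nil)) (.cons 250 232 (.cons 210 191 .nil (.cons 210 191 .nil .nil)) (.cons 210 191 (.cons 250 232 .nil (.cons 231 230 .nil .nil)) (.cons 210 191 .nil .nil)))) .nil))))), [103], 0, 0, 0, 0, 0, 0, 0, 0⟩,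
⟨103, 41, 59, (.cons 269 251 .nil (.cons 210 190 (.exit 0) .nil)), [104], 0, 0, 0, 0, 0, 0, 0, 0⟩,
⟨104, 41, 58, (.cons 210 189 .nil (.cons 271 251 (.cons 210 189 .nil (.cons 250 228 (.cons 210 230 .nil .nil) (.cons 208 229 (.cons 210 189 .nil (.cons 250 228 .nil .nil)) .nil))) (.cons 250 228 (.cons 210 189 .nil (.cons 210 189 .nil (.cons 210 230 .nil .nil))) (.cons 210 189 (.exit 0) (.cons 228 229 (.cons 210 189 .nil (.cons 210 189 (.cons 229 230 .nil (.cons 250 228 .nil .nil)) (.cons 250 228 (.cons 210 189 .nil (.cons 210 189 .nil .nil)) (.cons 210 189 (.cons 229 230 .nil (.cons 250 228 .nil .nil)) .nil)))) .nil))))), [105], 0, 0, 0, 0, 0, 0, 0, 0⟩,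
⟨105, 40, 57, (.cons 210 190 (.exit 0) (.cons 271 249 .nil .nil)), [106], 0, 0, 0, 0, 0, 0, 0, 0⟩,
⟨106, 40, 56, (.cons 210 191 (.exit 0) (.cons 250 232 (.cons 210 191 .nil (.cons 210 191 .nil (.cons 210 230 .nil .nil))) (.cons 269 249 (.cons 250 232 (.cons 210 230 .nil .nil) (.cons 210 191 .nil (.cons 212 231 (.cons 250 232 .nil (.cons 210 191 .nil .nil)) .nil))) (.cons 210 191 .nil (.cons 232 231 (.cons 210 191 (.cons 250 232 .nil (.cons 231 230 .nil .nil)) (.cons 250 232 (.cons 210 191 .nil (.cons 210 191 .nil .nil)) (.cons 210 191 (.cons 250 232 .nil (.cons 231 230 .nil .nil)) (.cons 210 191 .nil .nil)))) .nil))))), [107], 0, 0, 0, 0, 0, 0, 0, 0⟩,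
⟨107, 41, 55, (.cons 269 251 .nil (.cons 210 190 (.exit 0) .nil)), [108], 0, 0, 0, 0, 0, 0, 0, 0⟩,
⟨108, 41, 54, (.cons 210 189 .nil (.cons 232 251 (.cons 210 189 .nil (.cons 208 229 (.cons 271 251 .nil .nil) .nil)) (.cons 210 189 (.exit 0) (.cons 210 229 (.cons 232 251 (.cons 271 251 (.cons 229 210 .nil .nil) (.cons 229 230 (.cons 230 211 .nil (.cons 186 208 .nil .nil)) (.cons 229 230 .nil .nil))) (.cons 232 251 (.cons 271 251 (.cons 229 210 .nil .nil) (.cons 229 210 (.cons 210 189 .nil .nil) .nil)) (.cons 168 190 (.cons 232 251 (.cons 271 251 .nil (.cons 229 230 .nil .nil)) (.cons 232 251 (.cons 271 251 .nil .nil) (.cons 229 210 (.cons 210 189 .nil .nil) .nil))) (.cons 229 210 (.cons 210 189 .nil .nil) .nil)))) .nil)))), [109], 0, 0, 0, 0, 0, 0, 0, 0⟩,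
⟨109, 40, 53, (.cons 210 190 (.exit 0) .nil), [110], 0, 0, 0, 0, 0, 0, 0, 0⟩,
⟨110, 40, 52, (.cons 210 189 (.exit 0) (.cons 227 249 (.cons 210 189 .nil (.cons 209 231 (.cons 210 189 .nil (.cons 210 209 .nil (.cons 210 209 (.cons 209 228 .nil .nil) .nil))) (.cons 209 231 (.cons 210 189 .nil (.cons 210 209 .nil .nil)) (.cons 210 229 (.cons 229 228 .nil .nil) .nil)))) (.cons 210 189 .nil (.cons 210 189 (.cons 189 169 (.cons 169 150 .nil (.cons 171 190 (.cons 169 150 (.cons 150 171 .nil .nil) (.cons 169 188 .nil .nil)) (.cons 169 188 .nil .nil))) .nil) (.cons 209 231 (.cons 210 209 (.cons 212 231 .nil .nil) (.cons 231 249 (.cons 210 189 .nil .nil) (.cons 210 189 .nil (.cons 210 209 .nil .nil)))) (.cons 210 229 (.cons 229 228 (.cons 248 210 .nil .nil) (.cons 227 268 (.cons 229 228 .nil .nil) (.cons 229 228 .nil .nil))) .nil)))))), [111], 0, 0, 0, 0, 0, 0, 0, 0⟩,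
⟨111, 39, 51, (.cons 210 190 (.exit 0) .nil), [112], 0, 0, 0, 0, 0, 0, 0, 0⟩,
⟨112, 39, 50, (.cons 210 191 (.exit 0) (.cons 210 191 .nil (.cons 210 191 (.cons 191 171 (.cons 171 152 .nil (.cons 171 192 (.cons 172 211 .nil .nil) (.cons 172 190 (.cons 171 152 .nil (.cons 171 172 (.cons 194 213 .nil .nil) .nil)) .nil))) (.cons 191 171 (.cons 171 192 (.cons 192 211 .nil .nil) (.cons 171 152 .nil .nil)) .nil)) (.cons 210 191 (.cons 191 171 (.cons 171 152 .nil (.cons 171 192 (.cons 172 211 .nil .nil) (.cons 172 190 (.cons 171 152 .nil (.cons 171 172 (.cons 194 213 .nil .nil) .nil)) .nil))) .nil) .nil)))), [113], 0, 0, 0, 0, 0, 0, 0, 0⟩,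
⟨113, 40, 49, (.cons 210 190 (.exit 0) .nil), [114], 0, 0, 0, 0, 0, 0, 0, 0⟩,
⟨114, 40, 48, (.cons 210 191 .nil (.cons 232 251 (.cons 210 191 .nil (.cons 210 231 (.cons 211 250 .nil .nil) (.cons 211 229 (.cons 210 191 .nil (.cons 210 211 (.cons 211 232 .nil .nil) .nil)) .nil))) (.cons 210 191 (.exit 0) (.cons 210 191 (.cons 191 171 (.cons 171 150 .nil (.cons 211 189 (.cons 169 190 .nil .nil) (.cons 171 190 (.cons 213 212 .nil (.cons 190 171 .nil .nil)) .nil))) (.cons 191 171 (.cons 171 190 .nil .nil) .nil)) (.cons 210 191 (.cons 191 171 (.cons 171 150 .nil (.cons 211 189 (.cons 171 191 .nil .nil) (.cons 169 190 (.cons 213 212 .nil (.cons 211 189 .nil .nil)) .nil))) .nil) .nil))))), [49], 0, 0, 0, 0, 0, 0, 0, 0⟩,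
⟨49, 41, 47, (.cons 210 190 (.exit 0) .nil), [50], 0, 0, 0, 0, 0, 0, 0, 0⟩,
⟨50, 41, 46, (.cons 210 189 .nil (.cons 250 228 (.cons 210 189 .nil (.cons 210 230 .nil .nil)) (.cons 210 189 (.exit 0) (.cons 228 229 (.cons 210 189 .nil (.cons 250 228 (.cons 210 189 .nil .nil) (.cons 210 189 (.cons 229 230 .nil (.cons 250 228 .nil .nil)) .nil))) .nil)))), [51], 0, 0, 0, 0, 0, 0, 0, 0⟩,
⟨51, 40, 45, (.cons 210 190 (.exit 0) (.cons 271 249 .nil .nil)), [52], 0, 0, 0, 0, 0, 0, 0, 0⟩,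
⟨52, 40, 44, (.cons 210 189 (.exit 0) (.cons 228 249 (.cons 210 189 .nil (.cons 209 231 (.cons 210 189 .nil .nil) .nil)) (.cons 210 189 .nil (.cons 209 231 (.cons 210 209 .nil (.cons 231 249 (.cons 210 189 .nil .nil) (.cons 210 189 .nil .nil))) .nil)))), [53], 0, 0, 0, 0, 0, 0, 0, 0⟩,
⟨53, 39, 43, (.cons 210 190 (.exit 0) .nil), [54], 0, 0, 0, 0, 0, 0, 0, 0⟩,
⟨54, 39, 42, (.cons 210 191 (.exit 0) (.cons 250 232 (.cons 210 191 .nil (.cons 210 230 .nil .nil)) (.cons 210 191 .nil (.cons 210 191 (.cons 250 232 (.cons 191 192 .nil .nil) (.cons 191 192 .nil (.cons 191 192 .nil .nil))) .nil)))), [55], 0, 0, 0, 0, 0, 0, 0, 0⟩,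
⟨55, 40, 41, (.cons 269 251 .nil (.cons 210 211 (.exit 0) .nil)), [56], 0, 0, 0, 0, 0, 0, 0, 0⟩,
⟨56, 41, 41, (.cons 229 251 .nil (.cons 210 191 (.exit 0) .nil)), [57], 0, 0, 0, 0, 0, 0, 0, 0⟩,
⟨57, 42, 40, (.cons 210 190 (.exit 0) (.cons 230 249 .nil .nil)), [115], 0, 0, 0, 0, 0, 0, 0, 0⟩,
⟨115, 42, 39, (.cons 210 189 (.exit 0) .nil), [116], 0, 0, 0, 0, 0, 0, 0, 0⟩,
⟨116, 41, 38, (.cons 210 190 (.exit 0) (.cons 250 228 .nil .nil)), [117], 0, 0, 0, 0, 0, 0, 0, 0⟩,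
⟨117, 41, 37, (.cons 210 189 (.exit 0) (.cons 210 189 .nil (.cons 228 249 (.cons 210 189 .nil (.cons 210 189 .nil (.cons 209 231 (.cons 210 189 .nil (.cons 210 189 .nil (.cons 210 209 .nil (.cons 210 209 .nil .nil)))) (.cons 209 231 (.cons 210 189 .nil (.cons 210 189 .nil (.cons 210 209 .nil .nil))) (.cons 210 229 (.cons 229 228 .nil (.cons 229 228 .nil .nil)) .nil))))) (.cons 210 189 .nil (.cons 210 189 (.cons 189 169 (.cons 169 148 .nil (.cons 149 190 (.cons 169 148 .nil .nil) .nil)) .nil) (.cons 210 189 (.cons 189 169 (.cons 169 148 .nil (.cons 149 190 (.cons 169 148 .nil .nil) .nil)) .nil) (.cons 210 189 (.cons 189 169 (.cons 169 148 .nil (.cons 149 190 (.cons 169 148 .nil .nil) .nil)) (.cons 189 169 (.cons 169 148 .nil .nil) .nil)) .nil))))))), [118], 0, 0, 0, 0, 0, 0, 0, 0⟩,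
⟨118, 40, 36, (.cons 210 190 (.exit 0) .nil), [119], 0, 0, 0, 0, 0, 0, 0, 0⟩,
⟨119, 40, 35, (.cons 210 189 (.exit 0) (.cons 210 189 .nil (.cons 209 231 (.cons 210 209 (.cons 190 231 .nil .nil) (.cons 210 189 .nil .nil)) .nil))), [120], 0, 0, 0, 0, 0, 0, 0, 0⟩,
⟨120, 39, 34, (.cons 210 190 (.exit 0) .nil), [121], 0, 0, 0, 0, 0, 0, 0, 0⟩]

theorem uCRDL5_ok : grpNU MCR.H MCR.A SCR (phs 2382 uCRD5) uCRDL5 = true := by decide +kernel

/-- accumulated states -/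
def uCRD6 : List Mo := addN 2382 uCRDL5 uCRD5

theorem CRD_up {R : Room} {F : Board} {O : Sq} (hF : MBase MCR O F R) (h0 : HasValue (PM MCR SCR F O 150 2382)) :
    HasValue (PM MCR SCR F O 91 2382) := by
  have a0 : HVs MCR SCR F O uCRD0 := by
    intro m hm
    rw [List.mem_singleton.1 hm]
    exact h0
  have a1 := HVs.N hF MCR_ok 2382 (by decide +kernel) uCRDL0 uCRDL0_ok a0
  have a2 := HVs.U hF MCR_ok uCRDP1 uCRDL1 uCRDP1_ok uCRDL1_ok a1
  have a3 := HVs.U hF MCR_ok uCRDP2 uCRDL2 uCRDP2_ok uCRDL2_ok a2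
  have a4 := HVs.U hF MCR_ok uCRDP3 uCRDL3 uCRDP3_ok uCRDL3_ok a3
  have a5 := HVs.U hF MCR_ok uCRDP4 uCRDL4 uCRDP4_ok uCRDL4_ok a4
  have a6 := HVs.N hF MCR_ok 2382 (by decide +kernel) uCRDL5 uCRDL5_ok a5
  exact a6 ⟨91, 2382⟩ (ME2_membM _ (by decide +kernel))

end Pool.Agent.Lib.H32C.Loc
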