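import Pool.Agent.Lib.H32C.MemChain
import Pool.Agent.Lib.H32C.TdCR0

/-!
# Part c of the certificate of the tile TdCR
-/

set_option autoImplicit false

namespace Pool.Agent.Lib.H32C.Loc

/-- accumulated states -/
def lCRR0 : List Mo := [⟨90, 2382⟩]

/-- items -/
def lCRRL0 : List NI := [
⟨70, 53, 43, .nil, [], 0, 147, 169, 169, 211, 71, 0, 0⟩,
⟨71, 54, 43, .nil, [], 0, 166, 188, 188, 191, 72, 0, 0⟩,
⟨72, 55, 42, .nil, [], 0, 187, 228, 228, 211, 73, 0, 0⟩,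
⟨73, 56, 42, .nil, [], 0, 206, 228, 228, 231, 74, 0, 0⟩,
⟨74, 57, 43, .nil, [], 0, 206, 188, 188, 211, 75, 0, 0⟩,
⟨75, 58, 43, .nil, [], 0, 206, 188, 188, 191, 76, 0, 0⟩,
⟨76, 59, 42, .nil, [], 0, 206, 228, 228, 190, 77, 0, 0⟩,
⟨77, 59, 41, .nil, [], 0, 227, 249, 249, 191, 78, 0, 0⟩,
⟨78, 60, 40, .nil, [], 0, 267, 249, 249, 211, 79, 0, 0⟩,
⟨79, 61, 40, .nil, [], 0, 267, 228, 228, 231, 80, 0, 0⟩,
⟨80, 62, 41, .nil, [], 0, 227, 188, 188, 211, 81, 0, 0⟩,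
⟨81, 63, 41, .nil, [], 0, 206, 188, 188, 191, 82, 0, 0⟩,
⟨82, 64, 40, .nil, [], 0, 206, 228, 228, 211, 83, 0, 0⟩,
⟨83, 65, 40, .nil, [], 0, 206, 228, 228, 231, 84, 0, 0⟩,
⟨84, 66, 41, .nil, [], 0, 206, 188, 188, 211, 85, 0, 0⟩,
⟨85, 67, 41, .nil, [], 0, 206, 188, 188, 191, 86, 0, 0⟩,
⟨86, 68, 40, .nil, [], 0, 206, 228, 228, 211, 87, 0, 0⟩,
⟨87, 69, 40, .nil, [], 0, 206, 228, 228, 231, 88, 0, 0⟩,
⟨88, 70, 41, .nil, [], 0, 206, 188, 188, 211, 89, 0, 0⟩,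
⟨89, 71, 41, .nil, [], 0, 206, 188, 188, 191, 90, 0, 0⟩]

theorem lCRRL0_ok : grpNL MCR.H MCR.A SCR (phs 2382 lCRR0) lCRRL0 = true := by decide +kernel

/-- accumulated states -/
def lCRR1 : List Mo := addN 2382 lCRRL0 lCRR0

/-- patch setting -/
def lCRRP1 : PS := ⟨52, 42, [⟨⟨55, 23, 11⟩, 5, 5⟩], ⟨false, [55], true⟩, 0, 0, 0⟩

theorem lCRRP1_ok : psOk MCR lCRRP1 = true := by decide +kernel

/-- items -/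
def lCRRL1 : List LI := [
⟨69, 2382, [⟨57, 34, 8⟩], 0, 166, 188, 188, 231, 70, 0, 0, [⟨57, 34, 8⟩]⟩]

theorem lCRRL1_ok : grpL MCR SCR lCRRP1 lCRR1 lCRRL1 = true := by decide +kernel

/-- accumulated states -/
def lCRR2 : List Mo := keysL lCRRL1 lCRR1

/-- patch setting -/
def lCRRP2 : PS := ⟨52, 41, [⟨⟨56, 23, 11⟩, 4, 4⟩], ⟨false, [56], true⟩, 0, 0, 0⟩

theorem lCRRP2_ok : psOk MCR lCRRP2 = true := by decide +kernel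

/-- items -/
def lCRRL2 : List LI := [
⟨68, 2382, [⟨58, 33, 8⟩], 0, 206, 188, 188, 230, 69, 0, 0, [⟨58, 33, 8⟩]⟩]

theorem lCRRL2_ok : grpL MCR SCR lCRRP2 lCRR2 lCRRL2 = true := by decide +kernel

/-- accumulated states -/
def lCRR3 : List Mo := keysL lCRRL2 lCRR2

/-- patch setting -/
def lCRRP3 : PS := ⟨51, 40, [⟨⟨77, 23, 11⟩, 4, 4⟩], ⟨false, [], true⟩, 1, 1491, 77⟩

theorem lCRRP3_ok : psOk MCR lCRRP3 = true := by decide +kernel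

/-- items -/
def lCRRL3 : List LI := [
⟨67, 1491, [⟨58, 33, 7⟩], 3, 0, 0, 0, 231, 68, 0, 0, [⟨58, 33, 8⟩]⟩]

theorem lCRRL3_ok : grpL MCR SCR lCRRP3 lCRR3 lCRRL3 = true := by decide +kernel

/-- accumulated states -/
def lCRR4 : List Mo := keysL lCRRL3 lCRR3

/-- items -/
def lCRRL4 : List NI := [
⟨58, 43, 40, .nil, [], 0, 246, 228, 228, 231, 59, 0, 0⟩,
⟨59, 44, 41, .nil, [], 0, 206, 188, 188, 211, 60, 0, 0⟩,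
⟨60, 45, 41, .nil, [], 0, 206, 188, 188, 231, 61, 0, 0⟩,
⟨61, 46, 42, .nil, [], 0, 166, 188, 188, 211, 62, 0, 0⟩,
⟨62, 47, 42, .nil, [], 0, 166, 188, 188, 191, 63, 0, 0⟩,
⟨63, 48, 41, .nil, [], 0, 206, 228, 228, 190, 64, 0, 0⟩,
⟨64, 48, 40, .nil, [], 0, 227, 249, 249, 191, 65, 0, 0⟩,
⟨65, 49, 39, .nil, [], 0, 267, 249, 249, 211, 66, 0, 0⟩,
⟨66, 50, 39, .nil, [], 0, 267, 228, 228, 231, 67, 0, 0⟩]

theorem lCRRL4_ok : grpNL MCR.H MCR.A SCR (phs 1491 lCRR4) lCRRL4 = true := by decide +kernel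

/-- accumulated states -/
def lCRR5 : List Mo := addN 1491 lCRRL4 lCRR4

/-- patch setting -/
def lCRRP5 : PS := ⟨38, 32, [⟨⟨57, 23, 11⟩, 6, 6⟩], ⟨false, [57], true⟩, 0, 0, 0⟩

theorem lCRRP5_ok : psOk MCR lCRRP5 = true := by decide +kernel

/-- items -/
def lCRRL5 : List LI := [
⟨122, 1491, [⟨45, 24, 8⟩], 1, 292, 251, 251, 0, 0, 0, 0, [⟨45, 24, 8⟩]⟩]

theorem lCRRL5_ok : grpL MCR SCR lCRRP5 lCRR5 lCRRL5 = true := by decide +kernel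

/-- accumulated states -/
def lCRR6 : List Mo := keysL lCRRL5 lCRR5

/-- items -/
def lCRRL6 : List NI := [
⟨25, 31, 43, .nil, [], 0, 147, 169, 169, 230, 26, 0, 0⟩,
⟨26, 31, 44, .nil, [], 0, 147, 169, 169, 231, 27, 0, 0⟩,
⟨27, 32, 45, .nil, [], 0, 128, 169, 169, 211, 28, 0, 0⟩,
⟨28, 33, 45, .nil, [], 0, 147, 188, 188, 231, 29, 0, 0⟩,
⟨29, 34, 46, .nil, [], 0, 147, 188, 188, 230, 30, 0, 0⟩,
⟨30, 34, 47, .nil, [], 0, 147, 169, 169, 229, 31, 0, 0⟩,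
⟨31, 33, 48, .nil, [], 0, 149, 171, 171, 230, 32, 0, 0⟩,
⟨32, 33, 49, .nil, [], 0, 130, 171, 171, 229, 33, 0, 0⟩,
⟨33, 32, 50, .nil, [], 0, 132, 171, 171, 230, 34, 0, 0⟩,
⟨34, 32, 51, .nil, [], 0, 132, 171, 171, 229, 35, 0, 0⟩,
⟨35, 31, 52, .nil, [], 0, 132, 171, 171, 230, 36, 0, 0⟩,
⟨36, 31, 53, .nil, [], 0, 132, 171, 171, 231, 37, 0, 0⟩,
⟨37, 32, 54, .nil, [], 0, 130, 169, 169, 211, 38, 0, 0⟩,
⟨38, 33, 54, .nil, [], 0, 149, 188, 188, 231, 39, 0, 0⟩,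
⟨39, 34, 55, .nil, [], 0, 147, 188, 188, 211, 40, 0, 0⟩,
⟨40, 35, 55, .nil, [], 0, 166, 188, 188, 191, 41, 0, 0⟩,
⟨41, 36, 54, .nil, [], 0, 206, 228, 228, 211, 42, 0, 0⟩,
⟨42, 37, 54, .nil, [], 0, 206, 228, 228, 191, 43, 0, 0⟩,
⟨43, 38, 53, .nil, [], 0, 246, 228, 228, 190, 44, 0, 0⟩,
⟨44, 38, 52, .nil, [], 0, 267, 249, 249, 191, 45, 0, 0⟩,
⟨45, 39, 51, .nil, [], 0, 267, 249, 249, 190, 46, 0, 0⟩,
⟨46, 39, 50, .nil, [], 0, 288, 249, 249, 191, 47, 0, 0⟩,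
⟨47, 40, 49, .nil, [], 0, 288, 249, 249, 190, 48, 0, 0⟩,
⟨48, 40, 48, .nil, [], 0, 288, 249, 249, 191, 49, 0, 0⟩,
⟨49, 41, 47, .nil, [], 0, 288, 249, 249, 190, 50, 0, 0⟩,
⟨50, 41, 46, .nil, [], 0, 288, 249, 249, 189, 51, 0, 0⟩,
⟨51, 40, 45, .nil, [], 0, 290, 251, 251, 190, 52, 0, 0⟩,
⟨52, 40, 44, .nil, [], 0, 290, 251, 251, 189, 53, 0, 0⟩,
⟨53, 39, 43, .nil, [], 0, 292, 251, 251, 190, 54, 0, 0⟩,
⟨54, 39, 42, .nil, [], 0, 292, 251, 251, 191, 55, 0, 0⟩,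
⟨55, 40, 41, .nil, [], 0, 290, 249, 249, 211, 56, 0, 0⟩,
⟨56, 41, 41, .nil, [], 0, 269, 228, 228, 191, 57, 0, 0⟩,
⟨57, 42, 40, .nil, [], 2, 267, 228, 228, 211, 58, 190, 115⟩,
⟨115, 42, 39, .nil, [], 0, 267, 249, 249, 189, 116, 0, 0⟩,
⟨116, 41, 38, .nil, [], 0, 269, 251, 251, 190, 117, 0, 0⟩,
⟨117, 41, 37, .nil, [], 0, 290, 251, 251, 189, 118, 0, 0⟩,
⟨118, 40, 36, .nil, [], 0, 292, 251, 251, 190, 119, 0, 0⟩,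
⟨119, 40, 35, .nil, [], 0, 292, 251, 251, 189, 120, 0, 0⟩,
⟨120, 39, 34, .nil, [], 0, 292, 251, 251, 190, 121, 0, 0⟩,
⟨121, 39, 33, .nil, [], 0, 292, 251, 251, 189, 122, 0, 0⟩]

theorem lCRRL6_ok : grpNL MCR.H MCR.A SCR (phs 1491 lCRR6) lCRRL6 = true := by decide +kernel

/-- accumulated states -/
def lCRR7 : List Mo := addN 1491 lCRRL6 lCRR6

/-- patch setting -/
def lCRRP7 : PS := ⟨30, 42, [⟨⟨55, 23, 11⟩, 16, 16⟩], ⟨false, [55], true⟩, 0, 0, 0⟩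

theorem lCRRP7_ok : psOk MCR lCRRP7 = true := by decide +kernel

/-- items -/
def lCRRL7 : List LI := [
⟨24, 1491, [⟨35, 34, 8⟩], 0, 166, 188, 188, 231, 25, 0, 0, [⟨35, 34, 8⟩]⟩]

theorem lCRRL7_ok : grpL MCR SCR lCRRP7 lCRR7 lCRRL7 = true := by decide +kernel

/-- accumulated states -/
def lCRR8 : List Mo := keysL lCRRL7 lCRR7

/-- patch setting -/
def lCRRP8 : PS := ⟨30, 41, [⟨⟨56, 23, 11⟩, 15, 15⟩], ⟨false, [56], true⟩, 0, 0, 0⟩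

theorem lCRRP8_ok : psOk MCR lCRRP8 = true := by decide +kernel

/-- items -/
def lCRRL8 : List LI := [
⟨23, 1491, [⟨36, 33, 8⟩], 0, 206, 188, 188, 230, 24, 0, 0, [⟨36, 33, 8⟩]⟩]

theorem lCRRL8_ok : grpL MCR SCR lCRRP8 lCRR8 lCRRL8 = true := by decide +kernel

/-- accumulated states -/
def lCRR9 : List Mo := keysL lCRRL8 lCRR8

/-- patch setting -/
def lCRRP9 : PS := ⟨29, 40, [⟨⟨77, 23, 11⟩, 15, 15⟩], ⟨false, [], true⟩, 1, 2382, 77⟩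

theorem lCRRP9_ok : psOk MCR lCRRP9 = true := by decide +kernel

/-- items -/
def lCRRL9 : List LI := [
⟨22, 2382, [⟨36, 33, 7⟩], 3, 0, 0, 0, 231, 23, 0, 0, [⟨36, 33, 8⟩]⟩]

theorem lCRRL9_ok : grpL MCR SCR lCRRP9 lCRR9 lCRRL9 = true := by decide +kernel

/-- accumulated states -/
def lCRR10 : List Mo := keysL lCRRL9 lCRR9

/-- items -/
def lCRRL10 : List NI := [
⟨0, 8, 40, .nil, [], 0, 206, 228, 228, 211, 1, 0, 0⟩,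
⟨1, 9, 40, .nil, [], 0, 206, 228, 228, 231, 2, 0, 0⟩,
⟨2, 10, 41, .nil, [], 0, 206, 188, 188, 211, 3, 0, 0⟩,
⟨3, 11, 41, .nil, [], 0, 206, 188, 188, 191, 4, 0, 0⟩,
⟨4, 12, 40, .nil, [], 0, 206, 228, 228, 211, 5, 0, 0⟩,
⟨5, 13, 40, .nil, [], 0, 206, 228, 228, 231, 6, 0, 0⟩,
⟨6, 14, 41, .nil, [], 0, 206, 188, 188, 211, 7, 0, 0⟩,
⟨7, 15, 41, .nil, [], 0, 206, 188, 188, 191, 8, 0, 0⟩,
⟨8, 16, 40, .nil, [], 0, 206, 228, 228, 211, 9, 0, 0⟩,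
⟨9, 17, 40, .nil, [], 0, 206, 228, 228, 231, 10, 0, 0⟩,
⟨10, 18, 41, .nil, [], 0, 206, 188, 188, 211, 11, 0, 0⟩,
⟨11, 19, 41, .nil, [], 0, 206, 188, 188, 191, 12, 0, 0⟩,
⟨12, 20, 40, .nil, [], 0, 206, 228, 228, 211, 13, 0, 0⟩,
⟨13, 21, 40, .nil, [], 0, 206, 228, 228, 231, 14, 0, 0⟩,
⟨14, 22, 41, .nil, [], 0, 206, 188, 188, 211, 15, 0, 0⟩,
⟨15, 23, 41, .nil, [], 0, 206, 188, 188, 231, 16, 0, 0⟩,
⟨16, 24, 42, .nil, [], 0, 166, 188, 188, 211, 17, 0, 0⟩,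
⟨17, 25, 42, .nil, [], 0, 166, 188, 188, 191, 18, 0, 0⟩,
⟨18, 26, 41, .nil, [], 0, 206, 228, 228, 190, 19, 0, 0⟩,
⟨19, 26, 40, .nil, [], 0, 227, 249, 249, 191, 20, 0, 0⟩,
⟨20, 27, 39, .nil, [], 0, 267, 249, 249, 211, 21, 0, 0⟩,
⟨21, 28, 39, .nil, [], 0, 267, 228, 228, 231, 22, 0, 0⟩]

theorem lCRRL10_ok : grpNL MCR.H MCR.A SCR (phs 2382 lCRR10) lCRRL10 = true := by decide +kernel

/-- accumulated states -/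
def lCRR11 : List Mo := addN 2382 lCRRL10 lCRR10

theorem CRR_lo {R : Room} {F : Board} {O : Sq} {β : Ordinal.{0}} (hF : MBase MCR O F R) (h0 : GE (PM MCR SCR F O 90 2382) β) :
    GE (PM MCR SCR F O 0 2382) β := by
  have a0 : GEs MCR SCR F O β lCRR0 := by
    intro m hm
    rw [List.mem_singleton.1 hm]
    exact h0
  have a1 := GEs.N hF MCR_ok 2382 (by decide +kernel) lCRRL0 lCRRL0_ok a0
  have a2 := GEs.U hF MCR_ok lCRRP1 lCRRL1 lCRRP1_ok lCRRL1_ok a1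
  have a3 := GEs.U hF MCR_ok lCRRP2 lCRRL2 lCRRP2_ok lCRRL2_ok a2
  have a4 := GEs.U hF MCR_ok lCRRP3 lCRRL3 lCRRP3_ok lCRRL3_ok a3
  have a5 := GEs.N hF MCR_ok 1491 (by decide +kernel) lCRRL4 lCRRL4_ok a4
  have a6 := GEs.U hF MCR_ok lCRRP5 lCRRL5 lCRRP5_ok lCRRL5_ok a5
  have a7 := GEs.N hF MCR_ok 1491 (by decide +kernel) lCRRL6 lCRRL6_ok a6
  have a8 := GEs.U hF MCR_ok lCRRP7 lCRRL7 lCRRP7_ok lCRRL7_ok a7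
  have a9 := GEs.U hF MCR_ok lCRRP8 lCRRL8 lCRRP8_ok lCRRL8_ok a8
  have a10 := GEs.U hF MCR_ok lCRRP9 lCRRL9 lCRRP9_ok lCRRL9_ok a9
  have a11 := GEs.N hF MCR_ok 2382 (by decide +kernel) lCRRL10 lCRRL10_ok a10
  exact a11 ⟨0, 2382⟩ (ME2_membM _ (by decide +kernel))

end Pool.Agent.Lib.H32C.Loc
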