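import Pool.Agent.Lib.H32C.MemChain
import Pool.Agent.Lib.H32C.TdCR0

/-!
# Part d of the certificate of the tile TdCR
-/

set_option autoImplicit false

namespace Pool.Agent.Lib.H32C.Loc

/-- accumulated states -/
def lCRD0 : List Mo := [⟨150, 2382⟩]

/-- items -/
def lCRDL0 : List NI := [
⟨126, 36, 28, .nil, [], 0, 292, 251, 251, 190, 127, 0, 0⟩,
⟨127, 36, 27, .nil, [], 0, 292, 251, 251, 189, 128, 0, 0⟩,
⟨128, 35, 26, .nil, [], 0, 292, 251, 251, 190, 129, 0, 0⟩,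
⟨129, 35, 25, .nil, [], 0, 292, 251, 251, 189, 130, 0, 0⟩,
⟨130, 34, 24, .nil, [], 0, 292, 251, 251, 190, 131, 0, 0⟩,
⟨131, 34, 23, .nil, [], 0, 292, 251, 251, 191, 132, 0, 0⟩,
⟨132, 35, 22, .nil, [], 0, 290, 249, 249, 211, 133, 0, 0⟩,
⟨133, 36, 22, .nil, [], 0, 269, 228, 228, 191, 134, 0, 0⟩,
⟨134, 37, 21, .nil, [], 0, 267, 228, 228, 211, 135, 0, 0⟩,
⟨135, 38, 21, .nil, [], 0, 246, 228, 228, 191, 136, 0, 0⟩,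
⟨136, 39, 20, .nil, [], 0, 246, 228, 228, 211, 137, 0, 0⟩,
⟨137, 40, 20, .nil, [], 0, 246, 228, 228, 191, 138, 0, 0⟩,
⟨138, 41, 19, .nil, [], 0, 246, 228, 228, 190, 139, 0, 0⟩,
⟨139, 41, 18, .nil, [], 0, 267, 249, 249, 189, 140, 0, 0⟩,
⟨140, 40, 17, .nil, [], 0, 269, 251, 251, 190, 141, 0, 0⟩,
⟨141, 40, 16, .nil, [], 0, 290, 251, 251, 191, 142, 0, 0⟩,
⟨142, 41, 15, .nil, [], 0, 290, 249, 249, 190, 143, 0, 0⟩,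
⟨143, 41, 14, .nil, [], 0, 290, 249, 249, 189, 144, 0, 0⟩,
⟨144, 40, 13, .nil, [], 0, 290, 251, 251, 190, 145, 0, 0⟩,
⟨145, 40, 12, .nil, [], 0, 290, 251, 251, 191, 146, 0, 0⟩,
⟨146, 41, 11, .nil, [], 0, 290, 249, 249, 190, 147, 0, 0⟩,
⟨147, 41, 10, .nil, [], 0, 290, 249, 249, 189, 148, 0, 0⟩,
⟨148, 40, 9, .nil, [], 0, 290, 251, 251, 190, 149, 0, 0⟩,
⟨149, 40, 8, .nil, [], 0, 290, 251, 251, 191, 150, 0, 0⟩]

theorem lCRDL0_ok : grpNL MCR.H MCR.A SCR (phs 2382 lCRD0) lCRDL0 = true := by decide +kernel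

/-- accumulated states -/
def lCRD1 : List Mo := addN 2382 lCRDL0 lCRD0

/-- patch setting -/
def lCRDP1 : PS := ⟨37, 29, [⟨⟨346, 61, 11⟩, 1, 5⟩, ⟨⟨137, 23, 11⟩, 7, 7⟩], ⟨false, [346], true⟩, 1, 2382, 137⟩

theorem lCRDP1_ok : psOk MCR lCRDP1 = true := by decide +kernel

/-- items -/
def lCRDL1 : List LI := [
⟨125, 2382, [⟨33, 36, 7⟩, ⟨44, 25, 7⟩], 0, 292, 251, 251, 189, 126, 0, 0, [⟨33, 36, 7⟩, ⟨44, 25, 7⟩]⟩]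

theorem lCRDL1_ok : grpL MCR SCR lCRDP1 lCRD1 lCRDL1 = true := by decide +kernel

/-- accumulated states -/
def lCRD2 : List Mo := keysL lCRDL1 lCRD1

/-- items -/
def lCRDL2 : List NI := [
⟨115, 42, 39, .nil, [], 0, 267, 249, 249, 189, 116, 0, 0⟩,
⟨116, 41, 38, .nil, [], 0, 269, 251, 251, 190, 117, 0, 0⟩,
⟨117, 41, 37, .nil, [], 0, 290, 251, 251, 189, 118, 0, 0⟩,
⟨118, 40, 36, .nil, [], 0, 292, 251, 251, 190, 119, 0, 0⟩,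
⟨119, 40, 35, .nil, [], 0, 292, 251, 251, 189, 120, 0, 0⟩,
⟨120, 39, 34, .nil, [], 0, 292, 251, 251, 190, 121, 0, 0⟩,
⟨121, 39, 33, .nil, [], 0, 292, 251, 251, 189, 122, 0, 0⟩,
⟨122, 38, 32, .nil, [], 0, 292, 251, 251, 190, 123, 0, 0⟩,
⟨123, 38, 31, .nil, [], 0, 292, 251, 251, 189, 124, 0, 0⟩,
⟨124, 37, 30, .nil, [], 0, 292, 251, 251, 190, 125, 0, 0⟩]

theorem lCRDL2_ok : grpNL MCR.H MCR.A SCR (phs 2382 lCRD2) lCRDL2 = true := by decide +kernel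

/-- accumulated states -/
def lCRD3 : List Mo := addN 2382 lCRDL2 lCRD2

/-- patch setting -/
def lCRDP3 : PS := ⟨50, 39, [⟨⟨117, 23, 11⟩, 5, 5⟩], ⟨false, [117], true⟩, 0, 0, 0⟩

theorem lCRDP3_ok : psOk MCR lCRDP3 = true := by decide +kernel

/-- items -/
def lCRDL3 : List LI := [
⟨66, 2382, [⟨57, 34, 8⟩], 1, 267, 228, 228, 0, 0, 0, 0, [⟨57, 34, 8⟩]⟩]

theorem lCRDL3_ok : grpL MCR SCR lCRDP3 lCRD3 lCRDL3 = true := by decide +kernel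

/-- accumulated states -/
def lCRD4 : List Mo := keysL lCRDL3 lCRD3

/-- items -/
def lCRDL4 : List NI := [
⟨92, 41, 70, .nil, [], 0, 290, 249, 249, 189, 93, 0, 0⟩,
⟨93, 40, 69, .nil, [], 0, 290, 251, 251, 190, 94, 0, 0⟩,
⟨94, 40, 68, .nil, [], 0, 290, 251, 251, 191, 95, 0, 0⟩,
⟨95, 41, 67, .nil, [], 0, 290, 249, 249, 190, 96, 0, 0⟩,
⟨96, 41, 66, .nil, [], 0, 290, 249, 249, 189, 97, 0, 0⟩,
⟨97, 40, 65, .nil, [], 0, 290, 251, 251, 190, 98, 0, 0⟩,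
⟨98, 40, 64, .nil, [], 0, 290, 251, 251, 191, 99, 0, 0⟩,
⟨99, 41, 63, .nil, [], 0, 290, 249, 249, 190, 100, 0, 0⟩,
⟨100, 41, 62, .nil, [], 0, 290, 249, 249, 189, 101, 0, 0⟩,
⟨101, 40, 61, .nil, [], 0, 290, 251, 251, 190, 102, 0, 0⟩,
⟨102, 40, 60, .nil, [], 0, 290, 251, 251, 191, 103, 0, 0⟩,
⟨103, 41, 59, .nil, [], 0, 290, 249, 249, 190, 104, 0, 0⟩,
⟨104, 41, 58, .nil, [], 0, 290, 249, 249, 189, 105, 0, 0⟩,
⟨105, 40, 57, .nil, [], 0, 290, 251, 251, 190, 106, 0, 0⟩,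
⟨106, 40, 56, .nil, [], 0, 290, 251, 251, 191, 107, 0, 0⟩,
⟨107, 41, 55, .nil, [], 0, 290, 249, 249, 190, 108, 0, 0⟩,
⟨108, 41, 54, .nil, [], 0, 290, 249, 249, 189, 109, 0, 0⟩,
⟨109, 40, 53, .nil, [], 0, 290, 251, 251, 190, 110, 0, 0⟩,
⟨110, 40, 52, .nil, [], 0, 290, 251, 251, 189, 111, 0, 0⟩,
⟨111, 39, 51, .nil, [], 0, 292, 251, 251, 190, 112, 0, 0⟩,
⟨112, 39, 50, .nil, [], 0, 292, 251, 251, 191, 113, 0, 0⟩,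
⟨113, 40, 49, .nil, [], 0, 290, 249, 249, 190, 114, 0, 0⟩,
⟨114, 40, 48, .nil, [], 0, 290, 249, 249, 191, 49, 0, 0⟩,
⟨49, 41, 47, .nil, [], 0, 288, 249, 249, 190, 50, 0, 0⟩,
⟨50, 41, 46, .nil, [], 0, 288, 249, 249, 189, 51, 0, 0⟩,
⟨51, 40, 45, .nil, [], 0, 290, 251, 251, 190, 52, 0, 0⟩,
⟨52, 40, 44, .nil, [], 0, 290, 251, 251, 189, 53, 0, 0⟩,
⟨53, 39, 43, .nil, [], 0, 292, 251, 251, 190, 54, 0, 0⟩,
⟨54, 39, 42, .nil, [], 0, 292, 251, 251, 191, 55, 0, 0⟩,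
⟨55, 40, 41, .nil, [], 0, 290, 249, 249, 211, 56, 0, 0⟩,
⟨56, 41, 41, .nil, [], 0, 269, 228, 228, 191, 57, 0, 0⟩,
⟨57, 42, 40, .nil, [], 2, 267, 228, 228, 190, 115, 211, 58⟩,
⟨58, 43, 40, .nil, [], 0, 246, 228, 228, 231, 59, 0, 0⟩,
⟨59, 44, 41, .nil, [], 0, 206, 188, 188, 211, 60, 0, 0⟩,
⟨60, 45, 41, .nil, [], 0, 206, 188, 188, 231, 61, 0, 0⟩,
⟨61, 46, 42, .nil, [], 0, 166, 188, 188, 211, 62, 0, 0⟩,
⟨62, 47, 42, .nil, [], 0, 166, 188, 188, 191, 63, 0, 0⟩,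
⟨63, 48, 41, .nil, [], 0, 206, 228, 228, 190, 64, 0, 0⟩,
⟨64, 48, 40, .nil, [], 0, 227, 249, 249, 191, 65, 0, 0⟩,
⟨65, 49, 39, .nil, [], 0, 267, 249, 249, 211, 66, 0, 0⟩]

theorem lCRDL4_ok : grpNL MCR.H MCR.A SCR (phs 2382 lCRD4) lCRDL4 = true := by decide +kernel

/-- accumulated states -/
def lCRD5 : List Mo := addN 2382 lCRDL4 lCRD4

/-- items -/
def lCRDL5 : List NI := [
⟨91, 41, 71, .nil, [], 0, 290, 249, 249, 190, 92, 0, 0⟩]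

theorem lCRDL5_ok : grpNL MCR.H MCR.A SCR (phs 2382 lCRD5) lCRDL5 = true := by decide +kernel

/-- accumulated states -/
def lCRD6 : List Mo := addN 2382 lCRDL5 lCRD5

theorem CRD_lo {R : Room} {F : Board} {O : Sq} {β : Ordinal.{0}} (hF : MBase MCR O F R) (h0 : GE (PM MCR SCR F O 150 2382) β) :
    GE (PM MCR SCR F O 91 2382) β := by
  have a0 : GEs MCR SCR F O β lCRD0 := by
    intro m hm
    rw [List.mem_singleton.1 hm]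
    exact h0
  have a1 := GEs.N hF MCR_ok 2382 (by decide +kernel) lCRDL0 lCRDL0_ok a0
  have a2 := GEs.U hF MCR_ok lCRDP1 lCRDL1 lCRDP1_ok lCRDL1_ok a1
  have a3 := GEs.N hF MCR_ok 2382 (by decide +kernel) lCRDL2 lCRDL2_ok a2
  have a4 := GEs.U hF MCR_ok lCRDP3 lCRDL3 lCRDP3_ok lCRDL3_ok a3
  have a5 := GEs.N hF MCR_ok 2382 (by decide +kernel) lCRDL4 lCRDL4_ok a4
  have a6 := GEs.N hF MCR_ok 2382 (by decide +kernel) lCRDL5 lCRDL5_ok a5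
  exact a6 ⟨91, 2382⟩ (ME2_membM _ (by decide +kernel))

end Pool.Agent.Lib.H32C.Loc
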