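import Pool.Agent.Lib.H32C.Mem
import Pool.Agent.Lib.H32C.TdAr
import Pool.Agent.Lib.H32C.TdBase
import Pool.Agent.Lib.H32C.World

/-!
# Tile data: HALT
-/

set_option autoImplicit false

namespace Pool.Agent.Lib.H32C.Loc

theorem AHALT_L : rowsEq AHALT 0 8 PH 64 = true := by decide +kernel

theorem AHALT_R : rowsEq AHALT 64 8 PF 64 = true := by decide +kernel

theorem AHALT_B : colsEq AHALT 0 PF 16 = true := by decide +kernel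

theorem AHALT_T : colsEq AHALT 64 PF 16 = true := by decide +kernel

theorem AHALT_C : cornersOk AHALT = true := by decide +kernel

theorem AHALT_K : noKing AHALT = true := by decide +kernel

/-- track data -/
def SHALTR : List St := [
⟨[⟨8, 40, 6⟩, ⟨4, 40, 10⟩, ⟨5, 40, 10⟩], 206, 228, 228, 211, (.cons 210 211 (.exit 0) .nil), [1]⟩,
⟨[⟨9, 40, 6⟩, ⟨5, 40, 10⟩, ⟨6, 41, 10⟩], 206, 228, 228, 231, (.cons 210 231 (.exit 0) (.cons 250 249 (.cons 210 231 .nil .nil) .nil)), [2]⟩,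
⟨[⟨10, 41, 6⟩, ⟨6, 41, 10⟩, ⟨7, 41, 10⟩], 206, 188, 188, 211, (.cons 210 211 (.exit 0) (.cons 229 228 .nil .nil)), [3]⟩,
⟨[⟨11, 41, 6⟩, ⟨7, 41, 10⟩, ⟨8, 40, 10⟩], 206, 188, 188, 191, (.cons 210 191 (.exit 0) (.cons 210 191 .nil (.cons 248 228 (.cons 210 191 .nil .nil) .nil))), [4]⟩,
⟨[⟨12, 40, 6⟩, ⟨8, 40, 10⟩, ⟨9, 40, 10⟩], 206, 228, 228, 211, (.cons 210 211 (.exit 0) .nil), [5]⟩,
⟨[⟨13, 40, 6⟩, ⟨9, 40, 10⟩, ⟨10, 41, 10⟩], 206, 228, 228, 231, (.cons 210 231 (.exit 0) (.cons 250 249 (.cons 210 231 .nil .nil) .nil)), [6]⟩,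
⟨[⟨14, 41, 6⟩, ⟨10, 41, 10⟩, ⟨11, 41, 10⟩], 206, 188, 188, 211, (.cons 210 211 (.exit 0) (.cons 229 228 .nil .nil)), [7]⟩,
⟨[⟨15, 41, 6⟩, ⟨11, 41, 10⟩, ⟨12, 40, 10⟩], 206, 188, 188, 191, (.cons 210 191 (.exit 0) (.cons 210 191 .nil (.cons 248 228 (.cons 210 191 .nil .nil) .nil))), [8]⟩,
⟨[⟨16, 40, 6⟩, ⟨12, 40, 10⟩, ⟨13, 40, 10⟩], 206, 228, 228, 211, (.cons 210 211 (.exit 0) .nil), [9]⟩,
⟨[⟨17, 40, 6⟩, ⟨13, 40, 10⟩, ⟨14, 41, 10⟩], 206, 228, 228, 231, (.cons 210 231 (.exit 0) (.cons 250 249 (.cons 210 231 .nil .nil) .nil)), [10]⟩,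
⟨[⟨18, 41, 6⟩, ⟨14, 41, 10⟩, ⟨15, 41, 10⟩], 206, 188, 188, 211, (.cons 210 211 (.exit 0) (.cons 229 228 .nil .nil)), [11]⟩,
⟨[⟨19, 41, 6⟩, ⟨15, 41, 10⟩, ⟨16, 40, 10⟩], 206, 188, 188, 191, (.cons 210 191 (.exit 0) (.cons 210 191 .nil (.cons 248 228 (.cons 210 191 .nil .nil) .nil))), [12]⟩,
⟨[⟨20, 40, 6⟩, ⟨16, 40, 10⟩, ⟨17, 40, 10⟩], 206, 228, 228, 211, (.cons 210 211 (.exit 0) .nil), [13]⟩,
⟨[⟨21, 40, 6⟩, ⟨17, 40, 10⟩, ⟨18, 41, 10⟩], 206, 228, 228, 231, (.cons 210 231 (.exit 0) (.cons 250 249 (.cons 210 231 .nil .nil) .nil)), [14]⟩,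
⟨[⟨22, 41, 6⟩, ⟨18, 41, 10⟩, ⟨19, 41, 10⟩], 206, 188, 188, 211, (.cons 210 211 (.exit 0) (.cons 229 228 .nil .nil)), [15]⟩,
⟨[⟨23, 41, 6⟩, ⟨19, 41, 10⟩, ⟨20, 40, 10⟩], 206, 188, 188, 191, (.cons 210 191 (.exit 0) (.cons 210 191 .nil (.cons 248 228 (.cons 210 191 .nil .nil) .nil))), [16]⟩,
⟨[⟨24, 40, 6⟩, ⟨20, 40, 10⟩, ⟨21, 40, 10⟩], 206, 228, 228, 211, (.cons 210 211 (.exit 0) .nil), [17]⟩,
⟨[⟨25, 40, 6⟩, ⟨21, 40, 10⟩, ⟨22, 41, 10⟩], 206, 228, 228, 231, (.cons 210 231 (.exit 0) (.cons 250 249 (.cons 210 231 .nil .nil) .nil)), [18]⟩,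
⟨[⟨26, 41, 6⟩, ⟨22, 41, 10⟩, ⟨23, 41, 10⟩], 206, 188, 188, 211, (.cons 210 211 (.exit 0) (.cons 229 228 .nil .nil)), [19]⟩,
⟨[⟨27, 41, 6⟩, ⟨23, 41, 10⟩, ⟨24, 40, 10⟩], 206, 188, 188, 191, (.cons 210 191 (.exit 0) (.cons 210 191 .nil (.cons 248 228 (.cons 210 191 .nil .nil) .nil))), [20]⟩,
⟨[⟨28, 40, 6⟩, ⟨24, 40, 10⟩, ⟨25, 40, 10⟩], 206, 228, 228, 211, (.cons 210 211 (.exit 0) .nil), [21]⟩,
⟨[⟨29, 40, 6⟩, ⟨25, 40, 10⟩, ⟨26, 41, 10⟩], 0, 0, 0, 0, .nil, []⟩]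

theorem SHALTR_ok : trackOk AHALT SHALTR 21 = true := by decide +kernel

/-- the last state: White wins -/
def LHALT : List (List Pc) := [[⟨29, 40, 6⟩, ⟨25, 40, 10⟩, ⟨26, 41, 10⟩]]

/-- the item of the last state -/
def WHALT : NI := ⟨0, 29, 40, (.cons 210 231 (.cons 231 232 (.cons 232 213 (.cons 212 231 .nil .nil) (.cons 232 213 .nil (.cons 232 213 (.cons 212 231 .nil .nil) .nil))) (.cons 250 249 .nil .nil)) (.cons 210 191 .nil .nil)), [], 0, 0, 0, 0, 0, 0, 0, 0⟩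

theorem WHALT_ok : grpNU 80 AHALT LHALT [] [WHALT] = true := by decide +kernel

end Pool.Agent.Lib.H32C.Loc
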