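import Pool.Agent.Lib.H32C.MemChain
import Pool.Agent.Lib.H32C.TdMEM0

/-!
# Part a of the certificate of the tile TdMEM
-/

set_option autoImplicit false

namespace Pool.Agent.Lib.H32C.Loc

/-- accumulated states -/
def uMEMs0 : List Mo := [⟨105, 1491⟩]

/-- items -/
def uMEMsL0 : List NI := [
⟨65, 28, 80, (.cons 210 230 (.exit 0) (.cons 189 169 (.cons 190 231 .nil .nil) (.cons 210 231 (.cons 212 233 .nil (.cons 211 233 .nil .nil)) .nil))), [66], 0, 0, 0, 0, 0, 0, 0, 0⟩,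
⟨66, 28, 81, (.cons 170 192 (.cons 169 171 .nil (.cons 191 169 .nil .nil)) (.cons 210 231 (.exit 0) (.cons 210 231 (.cons 249 250 .nil .nil) (.cons 191 169 (.cons 170 192 .nil (.cons 168 169 .nil .nil)) .nil)))), [67], 0, 0, 0, 0, 0, 0, 0, 0⟩,
⟨67, 29, 82, (.cons 149 171 (.cons 228 229 .nil .nil) (.cons 210 230 (.exit 0) (.cons 210 229 (.cons 209 250 .nil .nil) .nil))), [68], 0, 0, 0, 0, 0, 0, 0, 0⟩,
⟨68, 29, 83, (.cons 210 229 (.exit 0) (.cons 208 188 (.cons 210 229 (.cons 209 250 .nil .nil) .nil) .nil)), [69], 0, 0, 0, 0, 0, 0, 0, 0⟩,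
⟨69, 28, 84, (.cons 210 230 (.exit 0) (.cons 189 169 (.cons 190 231 .nil .nil) (.cons 210 231 (.cons 212 233 .nil (.cons 211 233 .nil .nil)) .nil))), [70], 0, 0, 0, 0, 0, 0, 0, 0⟩,
⟨70, 28, 85, (.cons 170 192 (.cons 169 171 .nil (.cons 191 169 .nil .nil)) (.cons 210 231 (.exit 0) (.cons 210 231 (.cons 249 250 .nil .nil) (.cons 191 169 (.cons 170 192 .nil (.cons 168 169 .nil .nil)) .nil)))), [71], 0, 0, 0, 0, 0, 0, 0, 0⟩,
⟨71, 29, 86, (.cons 149 171 (.cons 228 229 .nil .nil) (.cons 210 230 (.exit 0) (.cons 210 229 (.cons 209 250 .nil .nil) .nil))), [72], 0, 0, 0, 0, 0, 0, 0, 0⟩,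
⟨72, 29, 87, (.cons 210 229 (.exit 0) (.cons 208 188 (.cons 210 229 (.cons 209 250 .nil .nil) .nil) .nil)), [73], 0, 0, 0, 0, 0, 0, 0, 0⟩,
⟨73, 28, 88, (.cons 210 230 (.exit 0) (.cons 189 169 (.cons 190 231 .nil .nil) (.cons 210 231 (.cons 212 233 .nil (.cons 211 233 .nil .nil)) .nil))), [74], 0, 0, 0, 0, 0, 0, 0, 0⟩,
⟨74, 28, 89, (.cons 170 192 (.cons 169 171 .nil (.cons 191 169 .nil .nil)) (.cons 210 231 (.exit 0) (.cons 210 231 (.cons 249 250 .nil .nil) (.cons 191 169 (.cons 170 192 .nil (.cons 168 169 .nil .nil)) .nil)))), [75], 0, 0, 0, 0, 0, 0, 0, 0⟩,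
⟨75, 29, 90, (.cons 149 171 (.cons 228 229 .nil .nil) (.cons 210 230 (.exit 0) (.cons 210 229 (.cons 209 250 .nil .nil) .nil))), [76], 0, 0, 0, 0, 0, 0, 0, 0⟩,
⟨76, 29, 91, (.cons 210 229 (.exit 0) (.cons 208 188 (.cons 210 190 (.cons 129 151 (.cons 190 210 .nil .nil) (.cons 230 208 (.cons 190 210 .nil .nil) (.cons 190 169 (.cons 169 190 .nil .nil) .nil))) .nil) .nil)), [77], 0, 0, 0, 0, 0, 0, 0, 0⟩,
⟨77, 28, 92, (.cons 210 230 (.exit 0) (.cons 189 169 (.cons 190 231 (.cons 270 231 .nil (.cons 270 229 .nil .nil)) (.cons 190 231 (.cons 270 231 .nil .nil) (.cons 270 229 (.cons 190 231 .nil .nil) .nil))) (.cons 210 230 (.cons 230 251 (.cons 254 253 .nil .nil) (.cons 211 189 .nil .nil)) (.cons 210 230 (.cons 230 251 .nil (.cons 230 251 .nil .nil)) (.cons 210 230 (.cons 230 251 .nil (.cons 230 251 .nil .nil)) .nil))))), [78], 0, 0, 0, 0, 0, 0, 0, 0⟩,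
⟨78, 28, 93, (.cons 170 192 (.cons 210 231 .nil (.cons 210 231 .nil .nil)) (.cons 210 231 (.exit 0) (.cons 210 231 .nil (.cons 191 169 (.cons 170 192 .nil (.cons 210 231 .nil .nil)) .nil)))), [79], 0, 0, 0, 0, 0, 0, 0, 0⟩,
⟨79, 29, 94, (.cons 149 171 .nil (.cons 210 230 (.exit 0) .nil)), [80], 0, 0, 0, 0, 0, 0, 0, 0⟩,
⟨80, 29, 95, (.cons 210 229 (.exit 0) (.cons 187 188 (.cons 210 229 .nil .nil) .nil)), [81], 0, 0, 0, 0, 0, 0, 0, 0⟩,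
⟨81, 28, 96, (.cons 210 209 (.exit 0) (.cons 168 169 .nil .nil)), [82], 0, 0, 0, 0, 0, 0, 0, 0⟩,
⟨82, 27, 96, (.cons 210 229 (.exit 0) (.cons 191 169 .nil .nil)), [83], 0, 0, 0, 0, 0, 0, 0, 0⟩,
⟨83, 26, 97, (.cons 210 209 (.exit 0) .nil), [84], 0, 0, 0, 0, 0, 0, 0, 0⟩,
⟨84, 25, 97, (.cons 210 229 (.cons 230 248 .nil .nil) (.cons 210 229 (.exit 0) (.cons 210 229 (.cons 230 248 .nil .nil) .nil))), [85], 0, 0, 0, 0, 0, 0, 0, 0⟩,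
⟨85, 24, 98, (.cons 210 230 (.exit 0) (.cons 211 229 (.cons 210 211 (.cons 212 233 .nil .nil) .nil) .nil)), [86], 0, 0, 0, 0, 0, 0, 0, 0⟩,
⟨86, 24, 99, (.cons 193 192 .nil (.cons 210 229 (.exit 0) .nil)), [87], 0, 0, 0, 0, 0, 0, 0, 0⟩,
⟨87, 23, 100, (.cons 173 192 (.cons 211 229 .nil .nil) (.cons 210 230 (.exit 0) (.cons 210 230 (.cons 230 249 (.cons 286 247 .nil .nil) (.cons 230 249 .nil .nil)) .nil))), [88], 0, 0, 0, 0, 0, 0, 0, 0⟩,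
⟨88, 23, 101, (.cons 210 229 .nil (.cons 210 229 (.exit 0) .nil)), [89], 0, 0, 0, 0, 0, 0, 0, 0⟩,
⟨89, 22, 102, (.cons 210 230 (.exit 0) .nil), [90], 0, 0, 0, 0, 0, 0, 0, 0⟩,
⟨90, 22, 103, (.cons 210 229 .nil (.cons 210 229 (.exit 0) .nil)), [91], 0, 0, 0, 0, 0, 0, 0, 0⟩,
⟨91, 21, 104, (.cons 210 209 (.exit 0) .nil), [92], 0, 0, 0, 0, 0, 0, 0, 0⟩,
⟨92, 20, 104, (.cons 210 229 (.exit 0) .nil), [93], 0, 0, 0, 0, 0, 0, 0, 0⟩,
⟨93, 19, 105, (.cons 210 209 (.exit 0) .nil), [94], 0, 0, 0, 0, 0, 0, 0, 0⟩,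
⟨94, 18, 105, (.cons 210 189 .nil (.cons 210 189 (.exit 0) (.cons 212 171 (.cons 210 189 .nil .nil) .nil))), [95], 0, 0, 0, 0, 0, 0, 0, 0⟩,
⟨95, 17, 104, (.cons 210 209 (.exit 0) (.cons 233 192 .nil .nil)), [96], 0, 0, 0, 0, 0, 0, 0, 0⟩,
⟨96, 16, 104, (.cons 212 251 (.cons 210 229 .nil .nil) (.cons 210 229 (.exit 0) .nil)), [97], 0, 0, 0, 0, 0, 0, 0, 0⟩,
⟨97, 15, 105, (.cons 193 232 .nil (.cons 210 209 (.exit 0) .nil)), [98], 0, 0, 0, 0, 0, 0, 0, 0⟩,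
⟨98, 14, 105, (.cons 233 232 (.cons 210 189 .nil .nil) (.cons 210 189 .nil (.cons 210 189 (.exit 0) .nil))), [99], 0, 0, 0, 0, 0, 0, 0, 0⟩,
⟨99, 13, 104, (.cons 210 209 (.exit 0) .nil), [100], 0, 0, 0, 0, 0, 0, 0, 0⟩,
⟨100, 12, 104, (.cons 212 251 (.cons 210 229 .nil .nil) (.cons 210 229 (.exit 0) .nil)), [101], 0, 0, 0, 0, 0, 0, 0, 0⟩,
⟨101, 11, 105, (.cons 193 232 .nil (.cons 210 209 (.exit 0) .nil)), [102], 0, 0, 0, 0, 0, 0, 0, 0⟩,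
⟨102, 10, 105, (.cons 233 232 (.cons 210 189 .nil .nil) (.cons 210 189 .nil (.cons 210 189 (.exit 0) .nil))), [103], 0, 0, 0, 0, 0, 0, 0, 0⟩,
⟨103, 9, 104, (.cons 210 209 (.exit 0) .nil), [104], 0, 0, 0, 0, 0, 0, 0, 0⟩,
⟨104, 8, 104, (.cons 212 251 (.cons 210 229 .nil .nil) (.cons 210 229 (.exit 0) .nil)), [105], 0, 0, 0, 0, 0, 0, 0, 0⟩]

theorem uMEMsL0_ok : grpNU MMEM.H MMEM.A SMEM (phs 1491 uMEMs0) uMEMsL0 = true := by decide +kernel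

/-- accumulated states -/
def uMEMs1 : List Mo := addN 1491 uMEMsL0 uMEMs0

/-- items -/
def uMEMsL1 : List NI := [
⟨25, 31, 43, (.cons 210 230 (.exit 0) (.cons 208 188 .nil .nil)), [26], 0, 0, 0, 0, 0, 0, 0, 0⟩,
⟨26, 31, 44, (.cons 210 231 .nil (.cons 210 231 (.exit 0) (.cons 210 231 .nil (.cons 167 188 (.cons 210 231 .nil (.cons 210 231 .nil .nil)) .nil)))), [27], 0, 0, 0, 0, 0, 0, 0, 0⟩,
⟨27, 32, 45, (.cons 210 211 (.exit 0) .nil), [28], 0, 0, 0, 0, 0, 0, 0, 0⟩,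
⟨28, 33, 45, (.cons 210 231 (.exit 0) .nil), [29], 0, 0, 0, 0, 0, 0, 0, 0⟩,
⟨29, 34, 46, (.cons 210 230 (.exit 0) (.cons 208 229 (.cons 228 188 .nil .nil) .nil)), [30], 0, 0, 0, 0, 0, 0, 0, 0⟩,
⟨30, 34, 47, (.cons 210 229 (.exit 0) (.cons 167 188 .nil .nil)), [31], 0, 0, 0, 0, 0, 0, 0, 0⟩,
⟨31, 33, 48, (.cons 210 230 (.exit 0) (.cons 170 188 (.cons 211 229 .nil .nil) (.cons 210 229 (.cons 229 210 .nil (.cons 170 188 (.cons 211 250 .nil .nil) (.cons 211 250 (.cons 229 210 .nil (.cons 170 188 .nil .nil)) .nil))) .nil))), [32], 0, 0, 0, 0, 0, 0, 0, 0⟩,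
⟨32, 33, 49, (.cons 213 192 (.cons 192 171 .nil (.cons 191 169 .nil .nil)) (.cons 210 229 (.exit 0) (.cons 191 169 (.cons 210 191 .nil (.cons 148 169 .nil .nil)) (.cons 191 169 (.cons 210 191 .nil (.cons 148 169 .nil .nil)) .nil)))), [33], 0, 0, 0, 0, 0, 0, 0, 0⟩,
⟨33, 32, 50, (.cons 210 230 (.exit 0) (.cons 210 230 (.cons 230 251 .nil .nil) (.cons 210 230 (.cons 230 251 .nil .nil) (.cons 210 230 (.cons 230 251 .nil .nil) .nil)))), [34], 0, 0, 0, 0, 0, 0, 0, 0⟩,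
⟨34, 32, 51, (.cons 173 192 (.cons 210 231 .nil .nil) (.cons 210 231 (.exit 0) .nil)), [35], 0, 0, 0, 0, 0, 0, 0, 0⟩,
⟨35, 33, 52, (.cons 152 171 .nil (.cons 210 230 (.exit 0) .nil)), [36], 0, 0, 0, 0, 0, 0, 0, 0⟩,
⟨36, 33, 53, (.cons 210 229 (.exit 0) (.cons 187 188 (.cons 210 229 .nil (.cons 210 190 .nil .nil)) (.cons 209 231 (.cons 210 229 (.cons 231 190 .nil (.cons 187 188 .nil .nil)) (.cons 210 191 (.cons 191 212 .nil .nil) (.cons 210 189 (.cons 189 209 .nil .nil) .nil))) .nil))), [37], 0, 0, 0, 0, 0, 0, 0, 0⟩,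
⟨37, 32, 54, (.cons 210 209 (.exit 0) (.cons 168 169 .nil .nil)), [38], 0, 0, 0, 0, 0, 0, 0, 0⟩,
⟨38, 31, 54, (.cons 210 229 (.exit 0) (.cons 191 169 (.cons 212 231 .nil .nil) (.cons 210 229 (.cons 229 228 (.cons 291 250 (.cons 271 249 .nil .nil) (.cons 271 249 (.cons 291 250 .nil .nil) .nil)) (.cons 229 228 (.cons 271 249 .nil .nil) (.cons 229 228 (.cons 271 249 .nil .nil) (.cons 229 228 (.cons 271 249 (.cons 169 229 .nil .nil) (.cons 169 229 (.cons 271 249 .nil .nil) .nil)) .nil)))) .nil))), [39], 0, 0, 0, 0, 0, 0, 0, 0⟩,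
⟨39, 30, 55, (.cons 210 209 (.exit 0) (.cons 210 231 (.cons 231 250 .nil (.cons 231 250 (.cons 250 270 .nil .nil) (.cons 231 250 (.cons 229 251 .nil .nil) (.cons 231 250 (.cons 229 251 .nil .nil) .nil)))) (.cons 210 229 (.cons 272 250 .nil .nil) (.cons 211 170 (.cons 170 192 (.cons 272 231 .nil (.cons 268 229 .nil .nil)) (.cons 272 231 (.cons 170 192 .nil .nil) (.cons 210 229 (.cons 272 250 .nil .nil) .nil))) .nil)))), [40], 0, 0, 0, 0, 0, 0, 0, 0⟩,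
⟨40, 29, 55, (.cons 210 229 (.cons 289 250 (.cons 310 269 .nil .nil) .nil) (.cons 210 229 (.exit 0) (.cons 210 229 (.cons 229 249 .nil (.cons 229 249 (.cons 310 269 .nil .nil) .nil)) .nil))), [41], 0, 0, 0, 0, 0, 0, 0, 0⟩,
⟨41, 28, 56, (.cons 210 230 (.exit 0) (.cons 270 231 (.cons 231 192 (.cons 291 250 .nil .nil) (.cons 291 250 (.cons 231 192 .nil .nil) .nil)) .nil)), [42], 0, 0, 0, 0, 0, 0, 0, 0⟩,
⟨42, 28, 57, (.cons 214 192 .nil (.cons 210 231 (.exit 0) .nil)), [43], 0, 0, 0, 0, 0, 0, 0, 0⟩,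
⟨43, 29, 58, (.cons 210 230 (.exit 0) (.cons 210 230 (.cons 230 249 (.cons 251 270 .nil .nil) .nil) (.cons 210 230 (.cons 230 249 (.cons 251 270 .nil .nil) (.cons 230 249 (.cons 249 269 .nil (.cons 209 250 (.cons 249 269 .nil .nil) .nil)) .nil)) .nil))), [44], 0, 0, 0, 0, 0, 0, 0, 0⟩,
⟨44, 29, 59, (.cons 210 229 (.exit 0) (.cons 167 188 (.cons 210 229 (.cons 229 250 .nil .nil) .nil) .nil)), [45], 0, 0, 0, 0, 0, 0, 0, 0⟩,
⟨45, 28, 60, (.cons 210 230 (.exit 0) (.cons 148 169 (.cons 210 231 .nil .nil) (.cons 210 231 .nil .nil))), [46], 0, 0, 0, 0, 0, 0, 0, 0⟩,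
⟨46, 28, 61, (.cons 170 192 (.cons 210 231 (.cons 249 250 .nil .nil) .nil) (.cons 210 231 (.exit 0) .nil)), [47], 0, 0, 0, 0, 0, 0, 0, 0⟩,
⟨47, 29, 62, (.cons 149 171 (.cons 228 229 .nil .nil) (.cons 210 230 (.exit 0) (.cons 210 229 (.cons 209 250 .nil .nil) .nil))), [48], 0, 0, 0, 0, 0, 0, 0, 0⟩,
⟨48, 29, 63, (.cons 210 229 (.exit 0) (.cons 208 188 (.cons 210 229 (.cons 209 250 .nil .nil) .nil) .nil)), [49], 0, 0, 0, 0, 0, 0, 0, 0⟩,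
⟨49, 28, 64, (.cons 210 230 (.exit 0) (.cons 189 169 (.cons 190 231 .nil .nil) (.cons 210 231 (.cons 212 233 .nil (.cons 211 233 .nil .nil)) .nil))), [50], 0, 0, 0, 0, 0, 0, 0, 0⟩,
⟨50, 28, 65, (.cons 170 192 (.cons 169 171 .nil (.cons 191 169 .nil .nil)) (.cons 210 231 (.exit 0) (.cons 210 231 (.cons 249 250 .nil .nil) (.cons 191 169 (.cons 170 192 .nil (.cons 168 169 .nil .nil)) .nil)))), [51], 0, 0, 0, 0, 0, 0, 0, 0⟩,
⟨51, 29, 66, (.cons 149 171 (.cons 228 229 .nil .nil) (.cons 210 230 (.exit 0) (.cons 210 229 (.cons 209 250 .nil .nil) .nil))), [52], 0, 0, 0, 0, 0, 0, 0, 0⟩,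
⟨52, 29, 67, (.cons 210 229 (.exit 0) (.cons 208 188 (.cons 210 229 (.cons 209 250 .nil .nil) .nil) .nil)), [53], 0, 0, 0, 0, 0, 0, 0, 0⟩,
⟨53, 28, 68, (.cons 210 230 (.exit 0) (.cons 189 169 (.cons 190 231 .nil .nil) (.cons 210 231 (.cons 212 233 .nil (.cons 211 233 .nil .nil)) .nil))), [54], 0, 0, 0, 0, 0, 0, 0, 0⟩,
⟨54, 28, 69, (.cons 170 192 (.cons 169 171 .nil (.cons 191 169 .nil .nil)) (.cons 210 231 (.exit 0) (.cons 210 231 (.cons 249 250 .nil .nil) (.cons 191 169 (.cons 170 192 .nil (.cons 168 169 .nil .nil)) .nil)))), [55], 0, 0, 0, 0, 0, 0, 0, 0⟩,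
⟨55, 29, 70, (.cons 149 171 (.cons 228 229 .nil .nil) (.cons 210 230 (.exit 0) (.cons 210 229 (.cons 209 250 .nil .nil) .nil))), [56], 0, 0, 0, 0, 0, 0, 0, 0⟩,
⟨56, 29, 71, (.cons 210 229 (.exit 0) (.cons 208 188 (.cons 210 229 (.cons 209 250 .nil .nil) .nil) .nil)), [57], 0, 0, 0, 0, 0, 0, 0, 0⟩,
⟨57, 28, 72, (.cons 210 230 (.exit 0) (.cons 189 169 (.cons 190 231 .nil .nil) (.cons 210 231 (.cons 212 233 .nil (.cons 211 233 .nil .nil)) .nil))), [58], 0, 0, 0, 0, 0, 0, 0, 0⟩,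
⟨58, 28, 73, (.cons 170 192 (.cons 169 171 .nil (.cons 191 169 .nil .nil)) (.cons 210 231 (.exit 0) (.cons 210 231 (.cons 249 250 .nil .nil) (.cons 191 169 (.cons 170 192 .nil (.cons 168 169 .nil .nil)) .nil)))), [59], 0, 0, 0, 0, 0, 0, 0, 0⟩,
⟨59, 29, 74, (.cons 149 171 (.cons 228 229 .nil .nil) (.cons 210 230 (.exit 0) (.cons 210 229 (.cons 209 250 .nil .nil) .nil))), [60], 0, 0, 0, 0, 0, 0, 0, 0⟩,
⟨60, 29, 75, (.cons 210 229 (.exit 0) (.cons 208 188 (.cons 210 229 (.cons 209 250 .nil .nil) .nil) .nil)), [61], 0, 0, 0, 0, 0, 0, 0, 0⟩,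
⟨61, 28, 76, (.cons 210 230 (.exit 0) (.cons 189 169 (.cons 190 231 .nil .nil) (.cons 210 231 (.cons 212 233 .nil (.cons 211 233 .nil .nil)) .nil))), [62], 0, 0, 0, 0, 0, 0, 0, 0⟩,
⟨62, 28, 77, (.cons 170 192 (.cons 169 171 .nil (.cons 191 169 .nil .nil)) (.cons 210 231 (.exit 0) (.cons 210 231 (.cons 249 250 .nil .nil) (.cons 191 169 (.cons 170 192 .nil (.cons 168 169 .nil .nil)) .nil)))), [63], 0, 0, 0, 0, 0, 0, 0, 0⟩,
⟨63, 29, 78, (.cons 149 171 (.cons 228 229 .nil .nil) (.cons 210 230 (.exit 0) (.cons 210 229 (.cons 209 250 .nil .nil) .nil))), [64], 0, 0, 0, 0, 0, 0, 0, 0⟩,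
⟨64, 29, 79, (.cons 210 229 (.exit 0) (.cons 208 188 (.cons 210 229 (.cons 209 250 .nil .nil) .nil) .nil)), [65], 0, 0, 0, 0, 0, 0, 0, 0⟩]

theorem uMEMsL1_ok : grpNU MMEM.H MMEM.A SMEM (phs 1491 uMEMs1) uMEMsL1 = true := by decide +kernel

/-- accumulated states -/
def uMEMs2 : List Mo := addN 1491 uMEMsL1 uMEMs1

/-- items -/
def uMEMsL2 : List NI := [
⟨24, 30, 42, (.cons 210 231 (.exit 0) .nil), [25], 0, 0, 0, 0, 0, 0, 0, 0⟩]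

theorem uMEMsL2_ok : grpNU MMEM.H MMEM.A SMEM (phs 1491 uMEMs2) uMEMsL2 = true := by decide +kernel

/-- accumulated states -/
def uMEMs3 : List Mo := addN 1491 uMEMsL2 uMEMs2

/-- patch setting -/
def uMEMsP3 : PS := ⟨29, 41, [⟨⟨57, 23, 11⟩, 15, 15⟩], ⟨false, [57], true⟩, 0, 0, 0⟩

theorem uMEMsP3_ok : psOk MMEM uMEMsP3 = true := by decide +kernel

/-- items -/
def uMEMsL3 : List UI := [
⟨23, 1491, [⟨36, 33, 8⟩], (.cons 211 231 (.exit 0) (.cons 251 229 (.cons 211 231 (.cons 231 251 .nil .nil) (.cons 211 231 (.cons 231 252 .nil .nil) .nil)) (.cons 211 231 (.cons 231 252 .nil .nil) (.cons 211 231 (.cons 231 252 .nil .nil) .nil)))), [[⟨24, [⟨36, 33, 8⟩]⟩]]⟩]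

theorem uMEMsL3_ok : grpU MMEM SMEM uMEMsP3 uMEMs3 uMEMsL3 = true := by decide +kernel

/-- accumulated states -/
def uMEMs4 : List Mo := keysU uMEMsL3 uMEMs3

/-- patch setting -/
def uMEMsP4 : PS := ⟨28, 40, [⟨⟨97, 23, 11⟩, 16, 16⟩], ⟨false, [], true⟩, 1, 2382, 97⟩

theorem uMEMsP4_ok : psOk MMEM uMEMsP4 = true := by decide +kernel

/-- items -/
def uMEMsL4 : List UI := [
⟨21, 2382, [⟨35, 34, 7⟩], (.cons 190 211 (.exit 0) (.cons 248 229 (.cons 190 211 (.cons 211 190 (.cons 190 211 (.cons 211 190 .nil (.cons 211 230 .nil .nil)) .nil) (.cons 211 190 .nil (.cons 211 190 .nil .nil))) .nil) (.cons 190 211 (.cons 211 232 (.cons 232 252 (.cons 272 231 .nil .nil) (.cons 272 250 (.cons 232 252 (.cons 252 231 .nil .nil) (.cons 232 252 (.cons 252 231 .nil .nil) .nil)) (.cons 232 252 (.cons 252 231 .nil .nil) (.cons 232 252 (.cons 252 231 .nil .nil) .nil))))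 (.cons 211 232 (.cons 232 253 .nil .nil) (.cons 248 229 (.cons 211 190 (.cons 190 211 (.cons 211 190 .nil (.cons 211 230 .nil .nil)) .nil) (.cons 211 190 .nil (.cons 211 190 .nil .nil))) (.cons 272 250 (.cons 211 210 (.cons 210 231 .nil .nil) (.cons 211 232 (.cons 232 253 .nil .nil) .nil)) .nil)))) .nil))), [[], [⟨22, [⟨35, 34, 7⟩]⟩]]⟩,
⟨22, 2382, [⟨35, 34, 7⟩], (.cons 211 232 (.exit 0) (.cons 211 232 (.cons 232 253 .nil .nil) (.cons 272 250 (.cons 211 232 (.cons 232 252 (.cons 252 273 .nil .nil) (.cons 232 211 .nil .nil)) .nil) .nil))), [[⟨23, [⟨35, 34, 8⟩]⟩], []]⟩]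

theorem uMEMsL4_ok : grpU MMEM SMEM uMEMsP4 uMEMs4 uMEMsL4 = true := by decide +kernel

/-- accumulated states -/
def uMEMs5 : List Mo := keysU uMEMsL4 uMEMs4

/-- items -/
def uMEMsL5 : List NI := [
⟨19, 26, 40, (.cons 210 191 (.exit 0) .nil), [20], 0, 0, 0, 0, 0, 0, 0, 0⟩,
⟨20, 27, 39, (.cons 210 211 (.exit 0) .nil), [21], 0, 0, 0, 0, 0, 0, 0, 0⟩]

theorem uMEMsL5_ok : grpNU MMEM.H MMEM.A SMEM (phs 2382 uMEMs5) uMEMsL5 = true := by decide +kernel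

/-- accumulated states -/
def uMEMs6 : List Mo := addN 2382 uMEMsL5 uMEMs5

/-- patch setting -/
def uMEMsP6 : PS := ⟨26, 41, [⟨⟨117, 23, 11⟩, 18, 18⟩], ⟨false, [], true⟩, 1, 2382, 117⟩

theorem uMEMsP6_ok : psOk MMEM uMEMsP6 = true := by decide +kernel

/-- items -/
def uMEMsL6 : List UI := [
⟨18, 2382, [⟨33, 36, 7⟩], (.cons 210 190 (.exit 0) .nil), [[], [⟨19, [⟨33, 36, 7⟩]⟩]]⟩]

theorem uMEMsL6_ok : grpU MMEM SMEM uMEMsP6 uMEMs6 uMEMsL6 = true := by decide +kernel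

/-- accumulated states -/
def uMEMs7 : List Mo := keysU uMEMsL6 uMEMs6

/-- items -/
def uMEMsL7 : List NI := [
⟨0, 8, 40, (.cons 210 211 (.exit 0) .nil), [1], 0, 0, 0, 0, 0, 0, 0, 0⟩,
⟨1, 9, 40, (.cons 210 231 (.exit 0) (.cons 250 249 (.cons 210 231 .nil .nil) .nil)), [2], 0, 0, 0, 0, 0, 0, 0, 0⟩,
⟨2, 10, 41, (.cons 210 211 (.exit 0) (.cons 229 228 .nil .nil)), [3], 0, 0, 0, 0, 0, 0, 0, 0⟩,
⟨3, 11, 41, (.cons 210 191 (.exit 0) (.cons 210 191 .nil (.cons 248 228 (.cons 210 191 .nil .nil) .nil))), [4], 0, 0, 0, 0, 0, 0, 0, 0⟩,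
⟨4, 12, 40, (.cons 210 211 (.exit 0) .nil), [5], 0, 0, 0, 0, 0, 0, 0, 0⟩,
⟨5, 13, 40, (.cons 210 231 (.exit 0) (.cons 250 249 (.cons 210 231 .nil .nil) .nil)), [6], 0, 0, 0, 0, 0, 0, 0, 0⟩,
⟨6, 14, 41, (.cons 210 211 (.exit 0) (.cons 229 228 .nil .nil)), [7], 0, 0, 0, 0, 0, 0, 0, 0⟩,
⟨7, 15, 41, (.cons 210 191 (.exit 0) (.cons 210 191 .nil (.cons 248 228 (.cons 210 191 .nil .nil) .nil))), [8], 0, 0, 0, 0, 0, 0, 0, 0⟩,
⟨8, 16, 40, (.cons 210 211 (.exit 0) .nil), [9], 0, 0, 0, 0, 0, 0, 0, 0⟩,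
⟨9, 17, 40, (.cons 210 231 (.exit 0) (.cons 230 249 (.cons 210 231 .nil .nil) .nil)), [10], 0, 0, 0, 0, 0, 0, 0, 0⟩,
⟨10, 18, 41, (.cons 210 211 (.exit 0) (.cons 209 228 .nil .nil)), [11], 0, 0, 0, 0, 0, 0, 0, 0⟩,
⟨11, 19, 41, (.cons 210 191 (.exit 0) (.cons 210 191 .nil (.cons 207 228 (.cons 210 191 .nil .nil) .nil))), [12], 0, 0, 0, 0, 0, 0, 0, 0⟩,
⟨12, 20, 40, (.cons 210 211 (.exit 0) .nil), [13], 0, 0, 0, 0, 0, 0, 0, 0⟩,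
⟨13, 21, 40, (.cons 210 231 (.exit 0) (.cons 208 249 (.cons 210 231 .nil .nil) .nil)), [14], 0, 0, 0, 0, 0, 0, 0, 0⟩,
⟨14, 22, 41, (.cons 210 211 (.exit 0) (.cons 187 228 .nil .nil)), [15], 0, 0, 0, 0, 0, 0, 0, 0⟩,
⟨15, 23, 41, (.cons 210 231 .nil (.cons 210 231 (.exit 0) (.cons 210 231 .nil (.cons 189 228 (.cons 210 231 .nil (.cons 210 231 .nil .nil)) .nil)))), [16], 0, 0, 0, 0, 0, 0, 0, 0⟩,
⟨16, 24, 42, (.cons 210 211 (.exit 0) .nil), [17], 0, 0, 0, 0, 0, 0, 0, 0⟩,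
⟨17, 25, 42, (.cons 210 191 (.exit 0) (.cons 207 228 (.cons 210 209 (.cons 206 227 .nil .nil) .nil) .nil)), [18], 0, 0, 0, 0, 0, 0, 0, 0⟩]

theorem uMEMsL7_ok : grpNU MMEM.H MMEM.A SMEM (phs 2382 uMEMs7) uMEMsL7 = true := by decide +kernel

/-- accumulated states -/
def uMEMs8 : List Mo := addN 2382 uMEMsL7 uMEMs7

theorem MEMset_up {R : Room} {F : Board} {O : Sq} (hF : MBase MMEM O F R) (h0 : HasValue (PM MMEM SMEM F O 105 1491)) :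
    HasValue (PM MMEM SMEM F O 0 2382) := by
  have a0 : HVs MMEM SMEM F O uMEMs0 := by
    intro m hm
    rw [List.mem_singleton.1 hm]
    exact h0
  have a1 := HVs.N hF MMEM_ok 1491 (by decide +kernel) uMEMsL0 uMEMsL0_ok a0
  have a2 := HVs.N hF MMEM_ok 1491 (by decide +kernel) uMEMsL1 uMEMsL1_ok a1
  have a3 := HVs.N hF MMEM_ok 1491 (by decide +kernel) uMEMsL2 uMEMsL2_ok a2
  have a4 := HVs.U hF MMEM_ok uMEMsP3 uMEMsL3 uMEMsP3_ok uMEMsL3_ok a3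
  have a5 := HVs.U hF MMEM_ok uMEMsP4 uMEMsL4 uMEMsP4_ok uMEMsL4_ok a4
  have a6 := HVs.N hF MMEM_ok 2382 (by decide +kernel) uMEMsL5 uMEMsL5_ok a5
  have a7 := HVs.U hF MMEM_ok uMEMsP6 uMEMsL6 uMEMsP6_ok uMEMsL6_ok a6
  have a8 := HVs.N hF MMEM_ok 2382 (by decide +kernel) uMEMsL7 uMEMsL7_ok a7
  exact a8 ⟨0, 2382⟩ (ME2_membM _ (by decide +kernel))

end Pool.Agent.Lib.H32C.Loc
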