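import Pool.Agent.Lib.H32C.MemChain
import Pool.Agent.Lib.H32C.TdMEM0

/-!
# Part b of the certificate of the tile TdMEM
-/

set_option autoImplicit false

namespace Pool.Agent.Lib.H32C.Loc

/-- accumulated states -/
def uMEMr0 : List Mo := [⟨235, 2382⟩]

/-- items -/
def uMEMrL0 : List NI := [
⟨214, 52, 42, (.cons 210 231 (.exit 0) .nil), [215], 0, 0, 0, 0, 0, 0, 0, 0⟩,
⟨215, 53, 43, (.cons 210 211 (.exit 0) (.cons 227 188 .nil .nil)), [216], 0, 0, 0, 0, 0, 0, 0, 0⟩,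
⟨216, 54, 43, (.cons 210 191 (.exit 0) .nil), [217], 0, 0, 0, 0, 0, 0, 0, 0⟩,
⟨217, 55, 42, (.cons 210 211 (.exit 0) .nil), [218], 0, 0, 0, 0, 0, 0, 0, 0⟩,
⟨218, 56, 42, (.cons 210 231 (.exit 0) (.cons 230 249 (.cons 210 231 .nil .nil) .nil)), [219], 0, 0, 0, 0, 0, 0, 0, 0⟩,
⟨219, 57, 43, (.cons 210 211 (.exit 0) (.cons 209 228 .nil .nil)), [220], 0, 0, 0, 0, 0, 0, 0, 0⟩,
⟨220, 58, 43, (.cons 210 191 (.exit 0) (.cons 210 191 .nil (.cons 207 228 (.cons 210 191 .nil .nil) .nil))), [221], 0, 0, 0, 0, 0, 0, 0, 0⟩,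
⟨221, 59, 42, (.cons 210 190 (.exit 0) .nil), [222], 0, 0, 0, 0, 0, 0, 0, 0⟩,
⟨222, 59, 41, (.cons 210 191 (.exit 0) .nil), [223], 0, 0, 0, 0, 0, 0, 0, 0⟩,
⟨223, 60, 40, (.cons 210 211 (.exit 0) .nil), [224], 0, 0, 0, 0, 0, 0, 0, 0⟩,
⟨224, 61, 40, (.cons 210 231 (.exit 0) (.cons 230 249 .nil .nil)), [225], 0, 0, 0, 0, 0, 0, 0, 0⟩,
⟨225, 62, 41, (.cons 210 211 (.exit 0) (.cons 208 249 .nil .nil)), [226], 0, 0, 0, 0, 0, 0, 0, 0⟩,
⟨226, 63, 41, (.cons 210 191 (.exit 0) (.cons 210 191 .nil (.cons 246 228 (.cons 210 191 .nil .nil) .nil))), [227], 0, 0, 0, 0, 0, 0, 0, 0⟩,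
⟨227, 64, 40, (.cons 210 211 (.exit 0) .nil), [228], 0, 0, 0, 0, 0, 0, 0, 0⟩,
⟨228, 65, 40, (.cons 210 231 (.exit 0) (.cons 250 249 (.cons 210 231 .nil .nil) .nil)), [229], 0, 0, 0, 0, 0, 0, 0, 0⟩,
⟨229, 66, 41, (.cons 210 211 (.exit 0) (.cons 229 228 .nil .nil)), [230], 0, 0, 0, 0, 0, 0, 0, 0⟩,
⟨230, 67, 41, (.cons 210 191 (.exit 0) (.cons 210 191 .nil (.cons 248 228 (.cons 210 191 .nil .nil) .nil))), [231], 0, 0, 0, 0, 0, 0, 0, 0⟩,
⟨231, 68, 40, (.cons 210 211 (.exit 0) .nil), [232], 0, 0, 0, 0, 0, 0, 0, 0⟩,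
⟨232, 69, 40, (.cons 210 231 (.exit 0) (.cons 250 249 (.cons 210 231 .nil .nil) .nil)), [233], 0, 0, 0, 0, 0, 0, 0, 0⟩,
⟨233, 70, 41, (.cons 210 211 (.exit 0) (.cons 229 228 .nil .nil)), [234], 0, 0, 0, 0, 0, 0, 0, 0⟩,
⟨234, 71, 41, (.cons 210 191 (.exit 0) (.cons 210 191 .nil (.cons 248 228 (.cons 210 191 .nil .nil) .nil))), [235], 0, 0, 0, 0, 0, 0, 0, 0⟩]

theorem uMEMrL0_ok : grpNU MMEM.H MMEM.A SMEM (phs 2382 uMEMr0) uMEMrL0 = true := by decide +kernel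

/-- accumulated states -/
def uMEMr1 : List Mo := addN 2382 uMEMrL0 uMEMr0

/-- patch setting -/
def uMEMrP1 : PS := ⟨52, 41, [⟨⟨56, 23, 11⟩, 4, 4⟩], ⟨false, [56], true⟩, 0, 0, 0⟩

theorem uMEMrP1_ok : psOk MMEM uMEMrP1 = true := by decide +kernel

/-- items -/
def uMEMrL1 : List UI := [
⟨213, 2382, [⟨58, 33, 8⟩], (.cons 210 230 (.exit 0) (.cons 210 230 (.cons 230 251 .nil .nil) .nil)), [[⟨214, [⟨58, 33, 8⟩]⟩]]⟩]

theorem uMEMrL1_ok : grpU MMEM SMEM uMEMrP1 uMEMr1 uMEMrL1 = true := by decide +kernel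

/-- accumulated states -/
def uMEMr2 : List Mo := keysU uMEMrL1 uMEMr1

/-- patch setting -/
def uMEMrP2 : PS := ⟨51, 40, [⟨⟨77, 23, 11⟩, 4, 4⟩], ⟨false, [], true⟩, 1, 1491, 77⟩

theorem uMEMrP2_ok : psOk MMEM uMEMrP2 = true := by decide +kernel

/-- items -/
def uMEMrL2 : List UI := [
⟨212, 1491, [⟨58, 33, 7⟩], (.cons 210 231 (.exit 0) (.cons 210 231 .nil (.cons 210 230 (.cons 230 251 .nil (.cons 230 251 .nil .nil)) .nil))), [[⟨213, [⟨58, 33, 8⟩]⟩], []]⟩]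

theorem uMEMrL2_ok : grpU MMEM SMEM uMEMrP2 uMEMr2 uMEMrL2 = true := by decide +kernel

/-- accumulated states -/
def uMEMr3 : List Mo := keysU uMEMrL2 uMEMr2

/-- patch setting -/
def uMEMrP3 : PS := ⟨50, 39, [⟨⟨117, 23, 11⟩, 5, 5⟩], ⟨false, [], true⟩, 1, 1491, 117⟩

theorem uMEMrP3_ok : psOk MMEM uMEMrP3 = true := by decide +kernel

/-- items -/
def uMEMrL3 : List UI := [
⟨211, 1491, [⟨57, 34, 7⟩], (.cons 210 231 (.exit 0) (.cons 268 249 (.cons 210 231 (.cons 231 252 (.cons 252 272 .nil (.cons 252 272 .nil .nil)) (.cons 231 252 .nil (.cons 231 251 .nil .nil))) .nil) (.cons 210 231 (.cons 231 252 (.cons 252 272 .nil (.cons 252 272 .nil .nil)) (.cons 231 252 .nil (.cons 268 249 (.cons 231 252 (.cons 252 272 .nil (.cons 252 272 .nil .nil)) (.cons 231 252 .nil (.cons 231 251 .nil .nil))) (.cons 231 251 .nil .nil)))) .nil))), [[], [⟨212, [⟨57, 34, 7⟩]⟩]]⟩]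

theorem uMEMrL3_ok : grpU MMEM SMEM uMEMrP3 uMEMr3 uMEMrL3 = true := by decide +kernel

/-- accumulated states -/
def uMEMr4 : List Mo := keysU uMEMrL3 uMEMr3

/-- items -/
def uMEMrL4 : List NI := [
⟨210, 49, 39, (.cons 210 211 (.exit 0) .nil), [211], 0, 0, 0, 0, 0, 0, 0, 0⟩]

theorem uMEMrL4_ok : grpNU MMEM.H MMEM.A SMEM (phs 1491 uMEMr4) uMEMrL4 = true := by decide +kernel

/-- accumulated states -/
def uMEMr5 : List Mo := addN 1491 uMEMrL4 uMEMr4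

/-- patch setting -/
def uMEMrP5 : PS := ⟨48, 40, [⟨⟨137, 23, 11⟩, 7, 7⟩], ⟨false, [], true⟩, 1, 1491, 137⟩

theorem uMEMrP5_ok : psOk MMEM uMEMrP5 = true := by decide +kernel

/-- items -/
def uMEMrL5 : List UI := [
⟨209, 1491, [⟨55, 36, 7⟩], (.cons 210 191 (.exit 0) (.cons 210 231 (.cons 231 252 (.cons 252 233 .nil (.cons 252 233 .nil .nil)) (.cons 231 210 (.cons 210 191 .nil .nil) .nil)) .nil)), [[], [⟨210, [⟨55, 36, 7⟩]⟩]]⟩]

theorem uMEMrL5_ok : grpU MMEM SMEM uMEMrP5 uMEMr5 uMEMrL5 = true := by decide +kernel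

/-- accumulated states -/
def uMEMr6 : List Mo := keysU uMEMrL5 uMEMr5

/-- patch setting -/
def uMEMrP6 : PS := ⟨48, 41, [⟨⟨117, 23, 11⟩, 7, 7⟩], ⟨false, [], true⟩, 1, 1491, 117⟩

theorem uMEMrP6_ok : psOk MMEM uMEMrP6 = true := by decide +kernel

/-- items -/
def uMEMrL6 : List UI := [
⟨208, 1491, [⟨55, 36, 7⟩], (.cons 210 190 (.exit 0) .nil), [[], [⟨209, [⟨55, 36, 7⟩]⟩]]⟩]

theorem uMEMrL6_ok : grpU MMEM SMEM uMEMrP6 uMEMr6 uMEMrL6 = true := by decide +kernel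

/-- accumulated states -/
def uMEMr7 : List Mo := keysU uMEMrL6 uMEMr6

/-- items -/
def uMEMrL7 : List NI := [
⟨168, 40, 73, (.cons 210 190 (.exit 0) (.cons 271 249 .nil .nil)), [169], 0, 0, 0, 0, 0, 0, 0, 0⟩,
⟨169, 40, 72, (.cons 210 191 (.exit 0) (.cons 269 249 (.cons 210 191 .nil (.cons 190 231 (.cons 210 191 .nil .nil) .nil)) (.cons 210 191 .nil (.cons 190 231 (.cons 253 251 (.cons 210 191 .nil .nil) (.cons 231 249 (.cons 210 191 .nil .nil) (.cons 210 191 .nil .nil))) .nil)))), [170], 0, 0, 0, 0, 0, 0, 0, 0⟩,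
⟨170, 41, 71, (.cons 210 190 (.exit 0) .nil), [171], 0, 0, 0, 0, 0, 0, 0, 0⟩,
⟨171, 41, 70, (.cons 210 189 .nil (.cons 229 251 (.cons 210 189 .nil (.cons 250 228 .nil .nil)) (.cons 250 228 (.cons 210 189 .nil (.cons 210 189 .nil (.cons 210 230 .nil .nil))) (.cons 210 189 (.exit 0) (.cons 228 229 (.cons 210 189 .nil (.cons 210 189 (.cons 229 230 .nil (.cons 250 228 .nil .nil)) (.cons 250 228 (.cons 210 189 .nil (.cons 210 189 .nil .nil)) (.cons 210 189 (.cons 229 230 .nil (.cons 250 228 .nil .nil)) .nil)))) .nil))))), [172], 0, 0, 0, 0, 0, 0, 0, 0⟩,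
⟨172, 40, 69, (.cons 210 190 (.exit 0) (.cons 271 249 .nil .nil)), [173], 0, 0, 0, 0, 0, 0, 0, 0⟩,
⟨173, 40, 68, (.cons 210 191 (.exit 0) (.cons 269 249 (.cons 210 191 .nil (.cons 190 231 (.cons 210 191 .nil .nil) .nil)) (.cons 210 191 .nil (.cons 190 231 (.cons 253 251 (.cons 210 191 .nil .nil) (.cons 231 249 (.cons 210 191 .nil .nil) (.cons 210 191 .nil .nil))) .nil)))), [174], 0, 0, 0, 0, 0, 0, 0, 0⟩,
⟨174, 41, 67, (.cons 210 190 (.exit 0) .nil), [175], 0, 0, 0, 0, 0, 0, 0, 0⟩,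
⟨175, 41, 66, (.cons 210 189 .nil (.cons 229 251 (.cons 210 189 .nil (.cons 250 228 .nil .nil)) (.cons 250 228 (.cons 210 189 .nil (.cons 210 189 .nil (.cons 210 230 .nil .nil))) (.cons 210 189 (.exit 0) (.cons 228 229 (.cons 210 189 .nil (.cons 210 189 (.cons 229 230 .nil (.cons 250 228 .nil .nil)) (.cons 250 228 (.cons 210 189 .nil (.cons 210 189 .nil .nil)) (.cons 210 189 (.cons 229 230 .nil (.cons 250 228 .nil .nil)) .nil)))) .nil))))), [176], 0, 0, 0, 0, 0, 0, 0, 0⟩,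
⟨176, 40, 65, (.cons 210 190 (.exit 0) (.cons 271 249 .nil .nil)), [177], 0, 0, 0, 0, 0, 0, 0, 0⟩,
⟨177, 40, 64, (.cons 210 191 (.exit 0) (.cons 269 249 (.cons 210 191 .nil (.cons 270 231 (.cons 210 191 .nil .nil) .nil)) (.cons 210 191 .nil (.cons 270 231 (.cons 253 251 (.cons 210 191 .nil .nil) (.cons 231 249 (.cons 210 191 .nil .nil) (.cons 210 191 .nil .nil))) .nil)))), [178], 0, 0, 0, 0, 0, 0, 0, 0⟩,
⟨178, 41, 63, (.cons 210 190 (.exit 0) .nil), [179], 0, 0, 0, 0, 0, 0, 0, 0⟩,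
⟨179, 41, 62, (.cons 210 189 .nil (.cons 252 251 (.cons 210 189 .nil (.cons 250 228 (.cons 210 230 .nil .nil) (.cons 208 229 (.cons 210 189 .nil (.cons 250 228 .nil .nil)) .nil))) (.cons 250 228 (.cons 210 189 .nil (.cons 210 189 .nil (.cons 210 230 .nil .nil))) (.cons 210 189 (.exit 0) (.cons 208 229 (.cons 210 189 .nil (.cons 252 251 (.cons 210 189 .nil (.cons 250 228 .nil .nil)) (.cons 250 228 (.cons 210 189 .nil (.cons 210 189 .nil .nil)) (.cons 247 249 (.cons 210 189 .nil (.cons 250 228 .nil .nil)) .nil)))) .nil))))), [180], 0, 0, 0, 0, 0, 0, 0, 0⟩,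
⟨180, 40, 61, (.cons 210 190 (.exit 0) (.cons 271 249 .nil .nil)), [181], 0, 0, 0, 0, 0, 0, 0, 0⟩,
⟨181, 40, 60, (.cons 210 191 (.exit 0) (.cons 250 232 (.cons 210 191 .nil (.cons 210 191 .nil (.cons 210 230 .nil .nil))) (.cons 269 249 (.cons 250 232 (.cons 210 230 .nil .nil) (.cons 210 191 .nil (.cons 212 231 (.cons 250 232 .nil (.cons 210 191 .nil .nil)) .nil))) (.cons 210 191 .nil (.cons 232 231 (.cons 210 191 (.cons 250 232 .nil (.cons 231 230 .nil .nil)) (.cons 250 232 (.cons 210 191 .nil (.cons 210 191 .nil .nil)) (.cons 210 191 (.cons 250 232 .nil (.cons 231 230 .nil .nil)) (.cons 210 191 .nil .nil)))) .nil))))), [182], 0, 0, 0, 0, 0, 0, 0, 0⟩,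
⟨182, 41, 59, (.cons 269 251 .nil (.cons 210 190 (.exit 0) .nil)), [183], 0, 0, 0, 0, 0, 0, 0, 0⟩,
⟨183, 41, 58, (.cons 210 189 .nil (.cons 271 251 (.cons 210 189 .nil (.cons 250 228 (.cons 210 230 .nil .nil) (.cons 208 229 (.cons 210 189 .nil (.cons 250 228 .nil .nil)) .nil))) (.cons 250 228 (.cons 210 189 .nil (.cons 210 189 .nil (.cons 210 230 .nil .nil))) (.cons 210 189 (.exit 0) (.cons 228 229 (.cons 210 189 .nil (.cons 210 189 (.cons 229 230 .nil (.cons 250 228 .nil .nil)) (.cons 250 228 (.cons 210 189 .nil (.cons 210 189 .nil .nil)) (.cons 210 189 (.cons 229 230 .nil (.cons 250 228 .nil .nil)) .nil)))) .nil))))), [184], 0, 0, 0, 0, 0, 0, 0, 0⟩,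
⟨184, 40, 57, (.cons 210 190 (.exit 0) (.cons 271 249 .nil .nil)), [185], 0, 0, 0, 0, 0, 0, 0, 0⟩,
⟨185, 40, 56, (.cons 210 191 (.exit 0) (.cons 250 232 (.cons 210 191 .nil (.cons 210 191 .nil (.cons 210 230 .nil .nil))) (.cons 269 249 (.cons 250 232 (.cons 210 230 .nil .nil) (.cons 210 191 .nil (.cons 210 231 (.cons 231 210 .nil (.cons 248 249 .nil .nil)) .nil))) (.cons 210 191 .nil (.cons 232 231 (.cons 210 191 (.cons 250 232 .nil (.cons 231 230 .nil .nil)) (.cons 250 232 (.cons 210 191 .nil (.cons 210 191 .nil .nil)) (.cons 210 191 (.cons 250 232 .nil (.cons 231 230 .nil .nil)) (.cons 210 191 .nil .nil)))) .nil))))), [186], 0, 0, 0, 0, 0, 0, 0, 0⟩,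
⟨186, 41, 55, (.cons 269 251 .nil (.cons 210 190 (.exit 0) .nil)), [187], 0, 0, 0, 0, 0, 0, 0, 0⟩,
⟨187, 41, 54, (.cons 210 189 .nil (.cons 229 251 (.cons 210 189 .nil (.cons 250 228 .nil .nil)) (.cons 250 228 (.cons 210 189 .nil (.cons 210 189 .nil (.cons 210 230 .nil .nil))) (.cons 210 189 (.exit 0) (.cons 228 229 (.cons 210 189 .nil (.cons 210 189 (.cons 229 230 .nil (.cons 250 228 .nil .nil)) (.cons 250 228 (.cons 210 189 .nil (.cons 210 189 .nil .nil)) (.cons 210 189 (.cons 229 230 .nil (.cons 250 228 .nil .nil)) .nil)))) .nil))))), [188], 0, 0, 0, 0, 0, 0, 0, 0⟩,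
⟨188, 40, 53, (.cons 210 190 (.exit 0) (.cons 271 249 .nil .nil)), [189], 0, 0, 0, 0, 0, 0, 0, 0⟩,
⟨189, 40, 52, (.cons 210 189 (.exit 0) (.cons 231 249 (.cons 210 189 .nil .nil) (.cons 210 189 .nil (.cons 209 231 (.cons 210 209 (.cons 270 231 .nil .nil) (.cons 231 249 (.cons 210 189 .nil .nil) (.cons 210 189 .nil .nil))) .nil)))), [190], 0, 0, 0, 0, 0, 0, 0, 0⟩,
⟨190, 39, 51, (.cons 210 190 (.exit 0) .nil), [191], 0, 0, 0, 0, 0, 0, 0, 0⟩,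
⟨191, 39, 50, (.cons 210 191 (.exit 0) (.cons 210 191 .nil (.cons 210 231 (.cons 250 272 (.cons 231 250 .nil (.cons 231 250 .nil (.cons 231 250 .nil (.cons 231 250 .nil .nil)))) (.cons 231 210 (.cons 210 191 .nil .nil) (.cons 231 210 (.cons 210 191 .nil .nil) (.cons 269 249 (.cons 231 230 .nil (.cons 231 210 .nil (.cons 231 210 .nil .nil))) (.cons 231 210 (.cons 210 191 .nil .nil) .nil))))) .nil))), [192], 0, 0, 0, 0, 0, 0, 0, 0⟩,
⟨192, 40, 49, (.cons 210 190 (.exit 0) .nil), [193], 0, 0, 0, 0, 0, 0, 0, 0⟩,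
⟨193, 40, 48, (.cons 210 191 .nil (.cons 229 251 (.cons 210 191 .nil (.cons 210 231 (.cons 211 250 .nil .nil) .nil)) (.cons 210 191 (.exit 0) (.cons 251 231 (.cons 210 191 .nil (.cons 210 191 (.cons 231 230 .nil .nil) (.cons 210 191 (.cons 231 230 .nil .nil) (.cons 210 191 (.cons 231 230 .nil .nil) .nil)))) (.cons 211 229 (.cons 210 191 .nil (.cons 210 211 (.cons 212 233 .nil (.cons 208 229 .nil .nil)) (.cons 210 211 .nil (.cons 210 211 (.cons 233 252 .nil .nil) .nil)))) .nil))))), [194], 0, 0, 0, 0, 0, 0, 0, 0⟩,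
⟨194, 41, 47, (.cons 210 190 (.exit 0) .nil), [195], 0, 0, 0, 0, 0, 0, 0, 0⟩,
⟨195, 41, 46, (.cons 210 189 .nil (.cons 250 228 (.cons 210 189 .nil (.cons 210 230 .nil .nil)) (.cons 210 189 (.exit 0) (.cons 228 229 (.cons 210 189 .nil (.cons 250 228 (.cons 210 189 .nil .nil) (.cons 210 189 (.cons 229 230 .nil (.cons 250 228 .nil .nil)) .nil))) .nil)))), [196], 0, 0, 0, 0, 0, 0, 0, 0⟩,
⟨196, 40, 45, (.cons 210 190 (.exit 0) (.cons 271 249 .nil .nil)), [197], 0, 0, 0, 0, 0, 0, 0, 0⟩,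
⟨197, 40, 44, (.cons 210 189 (.exit 0) (.cons 228 249 (.cons 210 189 .nil (.cons 209 231 (.cons 210 189 .nil .nil) .nil)) (.cons 210 189 .nil (.cons 209 231 (.cons 210 209 .nil (.cons 231 249 (.cons 210 189 .nil .nil) (.cons 210 189 .nil .nil))) .nil)))), [198], 0, 0, 0, 0, 0, 0, 0, 0⟩,
⟨198, 39, 43, (.cons 210 190 (.exit 0) .nil), [199], 0, 0, 0, 0, 0, 0, 0, 0⟩,
⟨199, 39, 42, (.cons 210 191 (.exit 0) (.cons 250 232 (.cons 210 191 .nil (.cons 210 230 .nil .nil)) (.cons 210 191 .nil (.cons 210 191 (.cons 250 232 (.cons 191 192 .nil .nil) (.cons 191 192 .nil (.cons 191 192 .nil .nil))) .nil)))), [200], 0, 0, 0, 0, 0, 0, 0, 0⟩,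
⟨200, 40, 41, (.cons 269 251 .nil (.cons 210 211 (.exit 0) .nil)), [201], 0, 0, 0, 0, 0, 0, 0, 0⟩,
⟨201, 41, 41, (.cons 229 251 .nil (.cons 210 191 (.exit 0) .nil)), [202], 0, 0, 0, 0, 0, 0, 0, 0⟩,
⟨202, 42, 40, (.cons 210 211 (.exit 0) (.cons 230 249 .nil .nil)), [203], 0, 0, 0, 0, 0, 0, 0, 0⟩,
⟨203, 43, 40, (.cons 210 231 (.exit 0) (.cons 210 189 (.cons 189 168 .nil .nil) .nil)), [204], 0, 0, 0, 0, 0, 0, 0, 0⟩,
⟨204, 44, 41, (.cons 210 211 (.exit 0) (.cons 187 228 .nil .nil)), [205], 0, 0, 0, 0, 0, 0, 0, 0⟩,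
⟨205, 45, 41, (.cons 210 231 .nil (.cons 210 231 (.exit 0) (.cons 210 231 .nil (.cons 207 228 (.cons 210 231 .nil (.cons 210 231 .nil .nil)) .nil)))), [206], 0, 0, 0, 0, 0, 0, 0, 0⟩,
⟨206, 46, 42, (.cons 210 211 (.exit 0) .nil), [207], 0, 0, 0, 0, 0, 0, 0, 0⟩,
⟨207, 47, 42, (.cons 210 191 (.exit 0) (.cons 207 228 (.cons 210 209 (.cons 206 227 .nil .nil) .nil) .nil)), [208], 0, 0, 0, 0, 0, 0, 0, 0⟩]

theorem uMEMrL7_ok : grpNU MMEM.H MMEM.A SMEM (phs 1491 uMEMr7) uMEMrL7 = true := by decide +kernel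

/-- accumulated states -/
def uMEMr8 : List Mo := addN 1491 uMEMrL7 uMEMr7

/-- items -/
def uMEMrL8 : List NI := [
⟨128, 40, 113, (.cons 210 190 (.exit 0) (.cons 271 249 .nil .nil)), [129], 0, 0, 0, 0, 0, 0, 0, 0⟩,
⟨129, 40, 112, (.cons 210 191 (.exit 0) (.cons 269 249 (.cons 210 191 .nil (.cons 190 231 (.cons 210 191 .nil .nil) .nil)) (.cons 210 191 .nil (.cons 190 231 (.cons 253 251 (.cons 210 191 .nil .nil) (.cons 231 249 (.cons 210 191 .nil .nil) (.cons 210 191 .nil .nil))) .nil)))), [130], 0, 0, 0, 0, 0, 0, 0, 0⟩,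
⟨130, 41, 111, (.cons 210 190 (.exit 0) .nil), [131], 0, 0, 0, 0, 0, 0, 0, 0⟩,
⟨131, 41, 110, (.cons 210 189 .nil (.cons 229 251 (.cons 210 189 .nil (.cons 250 228 .nil .nil)) (.cons 250 228 (.cons 210 189 .nil (.cons 210 189 .nil (.cons 210 230 .nil .nil))) (.cons 210 189 (.exit 0) (.cons 228 229 (.cons 210 189 .nil (.cons 210 189 (.cons 229 230 .nil (.cons 250 228 .nil .nil)) (.cons 250 228 (.cons 210 189 .nil (.cons 210 189 .nil .nil)) (.cons 210 189 (.cons 229 230 .nil (.cons 250 228 .nil .nil)) .nil)))) .nil))))), [132], 0, 0, 0, 0, 0, 0, 0, 0⟩,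
⟨132, 40, 109, (.cons 210 190 (.exit 0) (.cons 271 249 .nil .nil)), [133], 0, 0, 0, 0, 0, 0, 0, 0⟩,
⟨133, 40, 108, (.cons 210 191 (.exit 0) (.cons 269 249 (.cons 210 191 .nil (.cons 190 231 (.cons 210 191 .nil .nil) .nil)) (.cons 210 191 .nil (.cons 190 231 (.cons 253 251 (.cons 210 191 .nil .nil) (.cons 231 249 (.cons 210 191 .nil .nil) (.cons 210 191 .nil .nil))) .nil)))), [134], 0, 0, 0, 0, 0, 0, 0, 0⟩,
⟨134, 41, 107, (.cons 210 190 (.exit 0) .nil), [135], 0, 0, 0, 0, 0, 0, 0, 0⟩,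
⟨135, 41, 106, (.cons 210 189 .nil (.cons 229 251 (.cons 210 189 .nil (.cons 250 228 .nil .nil)) (.cons 250 228 (.cons 210 189 .nil (.cons 210 189 .nil (.cons 210 230 .nil .nil))) (.cons 210 189 (.exit 0) (.cons 228 229 (.cons 210 189 .nil (.cons 210 189 (.cons 229 230 .nil (.cons 250 228 .nil .nil)) (.cons 250 228 (.cons 210 189 .nil (.cons 210 189 .nil .nil)) (.cons 210 189 (.cons 229 230 .nil (.cons 250 228 .nil .nil)) .nil)))) .nil))))), [136], 0, 0, 0, 0, 0, 0, 0, 0⟩,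
⟨136, 40, 105, (.cons 210 190 (.exit 0) (.cons 271 249 .nil .nil)), [137], 0, 0, 0, 0, 0, 0, 0, 0⟩,
⟨137, 40, 104, (.cons 210 191 (.exit 0) (.cons 269 249 (.cons 210 191 .nil (.cons 190 231 (.cons 210 191 .nil .nil) .nil)) (.cons 210 191 .nil (.cons 190 231 (.cons 253 251 (.cons 210 191 .nil .nil) (.cons 231 249 (.cons 210 191 .nil .nil) (.cons 210 191 .nil .nil))) .nil)))), [138], 0, 0, 0, 0, 0, 0, 0, 0⟩,
⟨138, 41, 103, (.cons 210 190 (.exit 0) .nil), [139], 0, 0, 0, 0, 0, 0, 0, 0⟩,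
⟨139, 41, 102, (.cons 210 189 .nil (.cons 229 251 (.cons 210 189 .nil (.cons 250 228 .nil .nil)) (.cons 250 228 (.cons 210 189 .nil (.cons 210 189 .nil (.cons 210 230 .nil .nil))) (.cons 210 189 (.exit 0) (.cons 228 229 (.cons 210 189 .nil (.cons 210 189 (.cons 229 230 .nil (.cons 250 228 .nil .nil)) (.cons 250 228 (.cons 210 189 .nil (.cons 210 189 .nil .nil)) (.cons 210 189 (.cons 229 230 .nil (.cons 250 228 .nil .nil)) .nil)))) .nil))))), [140], 0, 0, 0, 0, 0, 0, 0, 0⟩,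
⟨140, 40, 101, (.cons 210 190 (.exit 0) (.cons 271 249 .nil .nil)), [141], 0, 0, 0, 0, 0, 0, 0, 0⟩,
⟨141, 40, 100, (.cons 210 191 (.exit 0) (.cons 269 249 (.cons 210 191 .nil (.cons 190 231 (.cons 210 191 .nil .nil) .nil)) (.cons 210 191 .nil (.cons 190 231 (.cons 253 251 (.cons 210 191 .nil .nil) (.cons 231 249 (.cons 210 191 .nil .nil) (.cons 210 191 .nil .nil))) .nil)))), [142], 0, 0, 0, 0, 0, 0, 0, 0⟩,
⟨142, 41, 99, (.cons 210 190 (.exit 0) .nil), [143], 0, 0, 0, 0, 0, 0, 0, 0⟩,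
⟨143, 41, 98, (.cons 210 189 .nil (.cons 229 251 (.cons 210 189 .nil (.cons 250 228 .nil .nil)) (.cons 250 228 (.cons 210 189 .nil (.cons 210 189 .nil (.cons 210 230 .nil .nil))) (.cons 210 189 (.exit 0) (.cons 228 229 (.cons 210 189 .nil (.cons 210 189 (.cons 229 230 .nil (.cons 250 228 .nil .nil)) (.cons 250 228 (.cons 210 189 .nil (.cons 210 189 .nil .nil)) (.cons 210 189 (.cons 229 230 .nil (.cons 250 228 .nil .nil)) .nil)))) .nil))))), [144], 0, 0, 0, 0, 0, 0, 0, 0⟩,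
⟨144, 40, 97, (.cons 210 190 (.exit 0) (.cons 271 249 .nil .nil)), [145], 0, 0, 0, 0, 0, 0, 0, 0⟩,
⟨145, 40, 96, (.cons 210 191 (.exit 0) (.cons 269 249 (.cons 210 191 .nil (.cons 190 231 (.cons 210 191 .nil .nil) .nil)) (.cons 210 191 .nil (.cons 190 231 (.cons 253 251 (.cons 210 191 .nil .nil) (.cons 231 249 (.cons 210 191 .nil .nil) (.cons 210 191 .nil .nil))) .nil)))), [146], 0, 0, 0, 0, 0, 0, 0, 0⟩,
⟨146, 41, 95, (.cons 210 190 (.exit 0) .nil), [147], 0, 0, 0, 0, 0, 0, 0, 0⟩,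
⟨147, 41, 94, (.cons 210 189 .nil (.cons 229 251 (.cons 210 189 .nil (.cons 250 228 .nil .nil)) (.cons 250 228 (.cons 210 189 .nil (.cons 210 189 .nil (.cons 210 230 .nil .nil))) (.cons 210 189 (.exit 0) (.cons 228 229 (.cons 210 189 .nil (.cons 210 189 (.cons 229 230 .nil (.cons 250 228 .nil .nil)) (.cons 250 228 (.cons 210 189 .nil (.cons 210 189 .nil .nil)) (.cons 210 189 (.cons 229 230 .nil (.cons 250 228 .nil .nil)) .nil)))) .nil))))), [148], 0, 0, 0, 0, 0, 0, 0, 0⟩,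
⟨148, 40, 93, (.cons 210 190 (.exit 0) (.cons 271 249 .nil .nil)), [149], 0, 0, 0, 0, 0, 0, 0, 0⟩,
⟨149, 40, 92, (.cons 210 191 (.exit 0) (.cons 269 249 (.cons 210 191 .nil (.cons 190 231 (.cons 210 191 .nil .nil) .nil)) (.cons 210 191 .nil (.cons 190 231 (.cons 253 251 (.cons 210 191 .nil .nil) (.cons 231 249 (.cons 210 191 .nil .nil) (.cons 210 191 .nil .nil))) .nil)))), [150], 0, 0, 0, 0, 0, 0, 0, 0⟩,
⟨150, 41, 91, (.cons 210 190 (.exit 0) .nil), [151], 0, 0, 0, 0, 0, 0, 0, 0⟩,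
⟨151, 41, 90, (.cons 210 189 .nil (.cons 229 251 (.cons 210 189 .nil (.cons 250 228 .nil .nil)) (.cons 250 228 (.cons 210 189 .nil (.cons 210 189 .nil (.cons 210 230 .nil .nil))) (.cons 210 189 (.exit 0) (.cons 228 229 (.cons 210 189 .nil (.cons 210 189 (.cons 229 230 .nil (.cons 250 228 .nil .nil)) (.cons 250 228 (.cons 210 189 .nil (.cons 210 189 .nil .nil)) (.cons 210 189 (.cons 229 230 .nil (.cons 250 228 .nil .nil)) .nil)))) .nil))))), [152], 0, 0, 0, 0, 0, 0, 0, 0⟩,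
⟨152, 40, 89, (.cons 210 190 (.exit 0) (.cons 271 249 .nil .nil)), [153], 0, 0, 0, 0, 0, 0, 0, 0⟩,
⟨153, 40, 88, (.cons 210 191 (.exit 0) (.cons 269 249 (.cons 210 191 .nil (.cons 190 231 (.cons 210 191 .nil .nil) .nil)) (.cons 210 191 .nil (.cons 190 231 (.cons 253 251 (.cons 210 191 .nil .nil) (.cons 231 249 (.cons 210 191 .nil .nil) (.cons 210 191 .nil .nil))) .nil)))), [154], 0, 0, 0, 0, 0, 0, 0, 0⟩,
⟨154, 41, 87, (.cons 210 190 (.exit 0) .nil), [155], 0, 0, 0, 0, 0, 0, 0, 0⟩,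
⟨155, 41, 86, (.cons 210 189 .nil (.cons 229 251 (.cons 210 189 .nil (.cons 250 228 .nil .nil)) (.cons 250 228 (.cons 210 189 .nil (.cons 210 189 .nil (.cons 210 230 .nil .nil))) (.cons 210 189 (.exit 0) (.cons 228 229 (.cons 210 189 .nil (.cons 210 189 (.cons 229 230 .nil (.cons 250 228 .nil .nil)) (.cons 250 228 (.cons 210 189 .nil (.cons 210 189 .nil .nil)) (.cons 210 189 (.cons 229 230 .nil (.cons 250 228 .nil .nil)) .nil)))) .nil))))), [156], 0, 0, 0, 0, 0, 0, 0, 0⟩,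
⟨156, 40, 85, (.cons 210 190 (.exit 0) (.cons 271 249 .nil .nil)), [157], 0, 0, 0, 0, 0, 0, 0, 0⟩,
⟨157, 40, 84, (.cons 210 191 (.exit 0) (.cons 269 249 (.cons 210 191 .nil (.cons 190 231 (.cons 210 191 .nil .nil) .nil)) (.cons 210 191 .nil (.cons 190 231 (.cons 253 251 (.cons 210 191 .nil .nil) (.cons 231 249 (.cons 210 191 .nil .nil) (.cons 210 191 .nil .nil))) .nil)))), [158], 0, 0, 0, 0, 0, 0, 0, 0⟩,
⟨158, 41, 83, (.cons 210 190 (.exit 0) .nil), [159], 0, 0, 0, 0, 0, 0, 0, 0⟩,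
⟨159, 41, 82, (.cons 210 189 .nil (.cons 229 251 (.cons 210 189 .nil (.cons 250 228 .nil .nil)) (.cons 250 228 (.cons 210 189 .nil (.cons 210 189 .nil (.cons 210 230 .nil .nil))) (.cons 210 189 (.exit 0) (.cons 228 229 (.cons 210 189 .nil (.cons 210 189 (.cons 229 230 .nil (.cons 250 228 .nil .nil)) (.cons 250 228 (.cons 210 189 .nil (.cons 210 189 .nil .nil)) (.cons 210 189 (.cons 229 230 .nil (.cons 250 228 .nil .nil)) .nil)))) .nil))))), [160], 0, 0, 0, 0, 0, 0, 0, 0⟩,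
⟨160, 40, 81, (.cons 210 190 (.exit 0) (.cons 271 249 .nil .nil)), [161], 0, 0, 0, 0, 0, 0, 0, 0⟩,
⟨161, 40, 80, (.cons 210 191 (.exit 0) (.cons 269 249 (.cons 210 191 .nil (.cons 190 231 (.cons 210 191 .nil .nil) .nil)) (.cons 210 191 .nil (.cons 190 231 (.cons 253 251 (.cons 210 191 .nil .nil) (.cons 231 249 (.cons 210 191 .nil .nil) (.cons 210 191 .nil .nil))) .nil)))), [162], 0, 0, 0, 0, 0, 0, 0, 0⟩,
⟨162, 41, 79, (.cons 210 190 (.exit 0) .nil), [163], 0, 0, 0, 0, 0, 0, 0, 0⟩,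
⟨163, 41, 78, (.cons 210 189 .nil (.cons 229 251 (.cons 210 189 .nil (.cons 250 228 .nil .nil)) (.cons 250 228 (.cons 210 189 .nil (.cons 210 189 .nil (.cons 210 230 .nil .nil))) (.cons 210 189 (.exit 0) (.cons 228 229 (.cons 210 189 .nil (.cons 210 189 (.cons 229 230 .nil (.cons 250 228 .nil .nil)) (.cons 250 228 (.cons 210 189 .nil (.cons 210 189 .nil .nil)) (.cons 210 189 (.cons 229 230 .nil (.cons 250 228 .nil .nil)) .nil)))) .nil))))), [164], 0, 0, 0, 0, 0, 0, 0, 0⟩,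
⟨164, 40, 77, (.cons 210 190 (.exit 0) (.cons 271 249 .nil .nil)), [165], 0, 0, 0, 0, 0, 0, 0, 0⟩,
⟨165, 40, 76, (.cons 210 191 (.exit 0) (.cons 269 249 (.cons 210 191 .nil (.cons 190 231 (.cons 210 191 .nil .nil) .nil)) (.cons 210 191 .nil (.cons 190 231 (.cons 253 251 (.cons 210 191 .nil .nil) (.cons 231 249 (.cons 210 191 .nil .nil) (.cons 210 191 .nil .nil))) .nil)))), [166], 0, 0, 0, 0, 0, 0, 0, 0⟩,
⟨166, 41, 75, (.cons 210 190 (.exit 0) .nil), [167], 0, 0, 0, 0, 0, 0, 0, 0⟩,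
⟨167, 41, 74, (.cons 210 189 .nil (.cons 229 251 (.cons 210 189 .nil (.cons 250 228 .nil .nil)) (.cons 250 228 (.cons 210 189 .nil (.cons 210 189 .nil (.cons 210 230 .nil .nil))) (.cons 210 189 (.exit 0) (.cons 228 229 (.cons 210 189 .nil (.cons 210 189 (.cons 229 230 .nil (.cons 250 228 .nil .nil)) (.cons 250 228 (.cons 210 189 .nil (.cons 210 189 .nil .nil)) (.cons 210 189 (.cons 229 230 .nil (.cons 250 228 .nil .nil)) .nil)))) .nil))))), [168], 0, 0, 0, 0, 0, 0, 0, 0⟩]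

theorem uMEMrL8_ok : grpNU MMEM.H MMEM.A SMEM (phs 1491 uMEMr8) uMEMrL8 = true := by decide +kernel

/-- accumulated states -/
def uMEMr9 : List Mo := addN 1491 uMEMrL8 uMEMr8

/-- items -/
def uMEMrL9 : List NI := [
⟨106, 41, 135, (.cons 210 190 (.exit 0) .nil), [107], 0, 0, 0, 0, 0, 0, 0, 0⟩,
⟨107, 41, 134, (.cons 210 189 .nil (.cons 229 251 (.cons 210 189 .nil (.cons 250 228 .nil .nil)) (.cons 250 228 (.cons 210 189 .nil (.cons 210 189 .nil (.cons 210 230 .nil .nil))) (.cons 210 189 (.exit 0) (.cons 228 229 (.cons 210 189 .nil (.cons 210 189 (.cons 229 230 .nil (.cons 250 228 .nil .nil)) (.cons 250 228 (.cons 210 189 .nil (.cons 210 189 .nil .nil)) (.cons 210 189 (.cons 229 230 .nil (.cons 250 228 .nil .nil)) .nil)))) .nil))))), [108], 0, 0, 0, 0, 0, 0, 0, 0⟩,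
⟨108, 40, 133, (.cons 210 190 (.exit 0) (.cons 271 249 .nil .nil)), [109], 0, 0, 0, 0, 0, 0, 0, 0⟩,
⟨109, 40, 132, (.cons 210 191 (.exit 0) (.cons 269 249 (.cons 210 191 .nil (.cons 190 231 (.cons 210 191 .nil .nil) .nil)) (.cons 210 191 .nil (.cons 190 231 (.cons 253 251 (.cons 210 191 .nil .nil) (.cons 231 249 (.cons 210 191 .nil .nil) (.cons 210 191 .nil .nil))) .nil)))), [110], 0, 0, 0, 0, 0, 0, 0, 0⟩,
⟨110, 41, 131, (.cons 210 190 (.exit 0) .nil), [111], 0, 0, 0, 0, 0, 0, 0, 0⟩,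
⟨111, 41, 130, (.cons 210 189 .nil (.cons 229 251 (.cons 210 189 .nil (.cons 250 228 .nil .nil)) (.cons 250 228 (.cons 210 189 .nil (.cons 210 189 .nil (.cons 210 230 .nil .nil))) (.cons 210 189 (.exit 0) (.cons 228 229 (.cons 210 189 .nil (.cons 210 189 (.cons 229 230 .nil (.cons 250 228 .nil .nil)) (.cons 250 228 (.cons 210 189 .nil (.cons 210 189 .nil .nil)) (.cons 210 189 (.cons 229 230 .nil (.cons 250 228 .nil .nil)) .nil)))) .nil))))), [112], 0, 0, 0, 0, 0, 0, 0, 0⟩,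
⟨112, 40, 129, (.cons 210 190 (.exit 0) (.cons 271 249 .nil .nil)), [113], 0, 0, 0, 0, 0, 0, 0, 0⟩,
⟨113, 40, 128, (.cons 210 191 (.exit 0) (.cons 269 249 (.cons 210 191 .nil (.cons 190 231 (.cons 210 191 .nil .nil) .nil)) (.cons 210 191 .nil (.cons 190 231 (.cons 253 251 (.cons 210 191 .nil .nil) (.cons 231 249 (.cons 210 191 .nil .nil) (.cons 210 191 .nil .nil))) .nil)))), [114], 0, 0, 0, 0, 0, 0, 0, 0⟩,
⟨114, 41, 127, (.cons 210 190 (.exit 0) .nil), [115], 0, 0, 0, 0, 0, 0, 0, 0⟩,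
⟨115, 41, 126, (.cons 210 189 .nil (.cons 229 251 (.cons 210 189 .nil (.cons 250 228 .nil .nil)) (.cons 250 228 (.cons 210 189 .nil (.cons 210 189 .nil (.cons 210 230 .nil .nil))) (.cons 210 189 (.exit 0) (.cons 228 229 (.cons 210 189 .nil (.cons 210 189 (.cons 229 230 .nil (.cons 250 228 .nil .nil)) (.cons 250 228 (.cons 210 189 .nil (.cons 210 189 .nil .nil)) (.cons 210 189 (.cons 229 230 .nil (.cons 250 228 .nil .nil)) .nil)))) .nil))))), [116], 0, 0, 0, 0, 0, 0, 0, 0⟩,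
⟨116, 40, 125, (.cons 210 190 (.exit 0) (.cons 271 249 .nil .nil)), [117], 0, 0, 0, 0, 0, 0, 0, 0⟩,
⟨117, 40, 124, (.cons 210 191 (.exit 0) (.cons 269 249 (.cons 210 191 .nil (.cons 190 231 (.cons 210 191 .nil .nil) .nil)) (.cons 210 191 .nil (.cons 190 231 (.cons 253 251 (.cons 210 191 .nil .nil) (.cons 231 249 (.cons 210 191 .nil .nil) (.cons 210 191 .nil .nil))) .nil)))), [118], 0, 0, 0, 0, 0, 0, 0, 0⟩,
⟨118, 41, 123, (.cons 210 190 (.exit 0) .nil), [119], 0, 0, 0, 0, 0, 0, 0, 0⟩,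
⟨119, 41, 122, (.cons 210 189 .nil (.cons 229 251 (.cons 210 189 .nil (.cons 250 228 .nil .nil)) (.cons 250 228 (.cons 210 189 .nil (.cons 210 189 .nil (.cons 210 230 .nil .nil))) (.cons 210 189 (.exit 0) (.cons 228 229 (.cons 210 189 .nil (.cons 210 189 (.cons 229 230 .nil (.cons 250 228 .nil .nil)) (.cons 250 228 (.cons 210 189 .nil (.cons 210 189 .nil .nil)) (.cons 210 189 (.cons 229 230 .nil (.cons 250 228 .nil .nil)) .nil)))) .nil))))), [120], 0, 0, 0, 0, 0, 0, 0, 0⟩,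
⟨120, 40, 121, (.cons 210 190 (.exit 0) (.cons 271 249 .nil .nil)), [121], 0, 0, 0, 0, 0, 0, 0, 0⟩,
⟨121, 40, 120, (.cons 210 191 (.exit 0) (.cons 269 249 (.cons 210 191 .nil (.cons 190 231 (.cons 210 191 .nil .nil) .nil)) (.cons 210 191 .nil (.cons 190 231 (.cons 253 251 (.cons 210 191 .nil .nil) (.cons 231 249 (.cons 210 191 .nil .nil) (.cons 210 191 .nil .nil))) .nil)))), [122], 0, 0, 0, 0, 0, 0, 0, 0⟩,
⟨122, 41, 119, (.cons 210 190 (.exit 0) .nil), [123], 0, 0, 0, 0, 0, 0, 0, 0⟩,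
⟨123, 41, 118, (.cons 210 189 .nil (.cons 229 251 (.cons 210 189 .nil (.cons 250 228 .nil .nil)) (.cons 250 228 (.cons 210 189 .nil (.cons 210 189 .nil (.cons 210 230 .nil .nil))) (.cons 210 189 (.exit 0) (.cons 228 229 (.cons 210 189 .nil (.cons 210 189 (.cons 229 230 .nil (.cons 250 228 .nil .nil)) (.cons 250 228 (.cons 210 189 .nil (.cons 210 189 .nil .nil)) (.cons 210 189 (.cons 229 230 .nil (.cons 250 228 .nil .nil)) .nil)))) .nil))))), [124], 0, 0, 0, 0, 0, 0, 0, 0⟩,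
⟨124, 40, 117, (.cons 210 190 (.exit 0) (.cons 271 249 .nil .nil)), [125], 0, 0, 0, 0, 0, 0, 0, 0⟩,
⟨125, 40, 116, (.cons 210 191 (.exit 0) (.cons 269 249 (.cons 210 191 .nil (.cons 190 231 (.cons 210 191 .nil .nil) .nil)) (.cons 210 191 .nil (.cons 190 231 (.cons 253 251 (.cons 210 191 .nil .nil) (.cons 231 249 (.cons 210 191 .nil .nil) (.cons 210 191 .nil .nil))) .nil)))), [126], 0, 0, 0, 0, 0, 0, 0, 0⟩,
⟨126, 41, 115, (.cons 210 190 (.exit 0) .nil), [127], 0, 0, 0, 0, 0, 0, 0, 0⟩,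
⟨127, 41, 114, (.cons 210 189 .nil (.cons 229 251 (.cons 210 189 .nil (.cons 250 228 .nil .nil)) (.cons 250 228 (.cons 210 189 .nil (.cons 210 189 .nil (.cons 210 230 .nil .nil))) (.cons 210 189 (.exit 0) (.cons 228 229 (.cons 210 189 .nil (.cons 210 189 (.cons 229 230 .nil (.cons 250 228 .nil .nil)) (.cons 250 228 (.cons 210 189 .nil (.cons 210 189 .nil .nil)) (.cons 210 189 (.cons 229 230 .nil (.cons 250 228 .nil .nil)) .nil)))) .nil))))), [128], 0, 0, 0, 0, 0, 0, 0, 0⟩]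

theorem uMEMrL9_ok : grpNU MMEM.H MMEM.A SMEM (phs 1491 uMEMr9) uMEMrL9 = true := by decide +kernel

/-- accumulated states -/
def uMEMr10 : List Mo := addN 1491 uMEMrL9 uMEMr9

theorem MEMret_up {R : Room} {F : Board} {O : Sq} (hF : MBase MMEM O F R) (h0 : HasValue (PM MMEM SMEM F O 235 2382)) :
    HasValue (PM MMEM SMEM F O 106 1491) := by
  have a0 : HVs MMEM SMEM F O uMEMr0 := by
    intro m hm
    rw [List.mem_singleton.1 hm]
    exact h0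
  have a1 := HVs.N hF MMEM_ok 2382 (by decide +kernel) uMEMrL0 uMEMrL0_ok a0
  have a2 := HVs.U hF MMEM_ok uMEMrP1 uMEMrL1 uMEMrP1_ok uMEMrL1_ok a1
  have a3 := HVs.U hF MMEM_ok uMEMrP2 uMEMrL2 uMEMrP2_ok uMEMrL2_ok a2
  have a4 := HVs.U hF MMEM_ok uMEMrP3 uMEMrL3 uMEMrP3_ok uMEMrL3_ok a3
  have a5 := HVs.N hF MMEM_ok 1491 (by decide +kernel) uMEMrL4 uMEMrL4_ok a4
  have a6 := HVs.U hF MMEM_ok uMEMrP5 uMEMrL5 uMEMrP5_ok uMEMrL5_ok a5
  have a7 := HVs.U hF MMEM_ok uMEMrP6 uMEMrL6 uMEMrP6_ok uMEMrL6_ok a6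
  have a8 := HVs.N hF MMEM_ok 1491 (by decide +kernel) uMEMrL7 uMEMrL7_ok a7
  have a9 := HVs.N hF MMEM_ok 1491 (by decide +kernel) uMEMrL8 uMEMrL8_ok a8
  have a10 := HVs.N hF MMEM_ok 1491 (by decide +kernel) uMEMrL9 uMEMrL9_ok a9
  exact a10 ⟨106, 1491⟩ (ME2_membM _ (by decide +kernel))

end Pool.Agent.Lib.H32C.Loc
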