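import Pool.Agent.Lib.H32C.MemChain
import Pool.Agent.Lib.H32C.TdMEM0

/-!
# Part d of the certificate of the tile TdMEM
-/

set_option autoImplicit false

namespace Pool.Agent.Lib.H32C.Loc

/-- accumulated states -/
def lMEMs0 : List Mo := [⟨105, 1491⟩]

/-- items -/
def lMEMsL0 : List NI := [
⟨65, 28, 80, .nil, [], 0, 130, 171, 171, 230, 66, 0, 0⟩,
⟨66, 28, 81, .nil, [], 0, 130, 171, 171, 231, 67, 0, 0⟩,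
⟨67, 29, 82, .nil, [], 0, 130, 169, 169, 230, 68, 0, 0⟩,
⟨68, 29, 83, .nil, [], 0, 130, 169, 169, 229, 69, 0, 0⟩,
⟨69, 28, 84, .nil, [], 0, 130, 171, 171, 230, 70, 0, 0⟩,
⟨70, 28, 85, .nil, [], 0, 130, 171, 171, 231, 71, 0, 0⟩,
⟨71, 29, 86, .nil, [], 0, 130, 169, 169, 230, 72, 0, 0⟩,
⟨72, 29, 87, .nil, [], 0, 130, 169, 169, 229, 73, 0, 0⟩,
⟨73, 28, 88, .nil, [], 0, 130, 171, 171, 230, 74, 0, 0⟩,
⟨74, 28, 89, .nil, [], 0, 130, 171, 171, 231, 75, 0, 0⟩,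
⟨75, 29, 90, .nil, [], 0, 130, 169, 169, 230, 76, 0, 0⟩,
⟨76, 29, 91, .nil, [], 0, 130, 169, 169, 229, 77, 0, 0⟩,
⟨77, 28, 92, .nil, [], 0, 130, 171, 171, 230, 78, 0, 0⟩,
⟨78, 28, 93, .nil, [], 0, 130, 171, 171, 231, 79, 0, 0⟩,
⟨79, 29, 94, .nil, [], 0, 130, 169, 169, 230, 80, 0, 0⟩,
⟨80, 29, 95, .nil, [], 0, 130, 169, 169, 229, 81, 0, 0⟩,
⟨81, 28, 96, .nil, [], 0, 130, 171, 171, 209, 82, 0, 0⟩,
⟨82, 27, 96, .nil, [], 0, 151, 192, 192, 229, 83, 0, 0⟩,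
⟨83, 26, 97, .nil, [], 0, 153, 192, 192, 209, 84, 0, 0⟩,
⟨84, 25, 97, .nil, [], 0, 174, 192, 192, 229, 85, 0, 0⟩,
⟨85, 24, 98, .nil, [], 0, 174, 192, 192, 230, 86, 0, 0⟩,
⟨86, 24, 99, .nil, [], 0, 153, 171, 171, 229, 87, 0, 0⟩,
⟨87, 23, 100, .nil, [], 0, 153, 171, 171, 230, 88, 0, 0⟩,
⟨88, 23, 101, .nil, [], 0, 132, 171, 171, 229, 89, 0, 0⟩,
⟨89, 22, 102, .nil, [], 0, 132, 171, 171, 230, 90, 0, 0⟩,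
⟨90, 22, 103, .nil, [], 0, 132, 171, 171, 229, 91, 0, 0⟩,
⟨91, 21, 104, .nil, [], 0, 132, 171, 171, 209, 92, 0, 0⟩,
⟨92, 20, 104, .nil, [], 0, 153, 192, 192, 229, 93, 0, 0⟩,
⟨93, 19, 105, .nil, [], 0, 153, 192, 192, 209, 94, 0, 0⟩,
⟨94, 18, 105, .nil, [], 0, 174, 192, 192, 189, 95, 0, 0⟩,
⟨95, 17, 104, .nil, [], 0, 214, 232, 232, 209, 96, 0, 0⟩,
⟨96, 16, 104, .nil, [], 0, 214, 232, 232, 229, 97, 0, 0⟩,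
⟨97, 15, 105, .nil, [], 0, 214, 192, 192, 209, 98, 0, 0⟩,
⟨98, 14, 105, .nil, [], 0, 214, 192, 192, 189, 99, 0, 0⟩,
⟨99, 13, 104, .nil, [], 0, 214, 232, 232, 209, 100, 0, 0⟩,
⟨100, 12, 104, .nil, [], 0, 214, 232, 232, 229, 101, 0, 0⟩,
⟨101, 11, 105, .nil, [], 0, 214, 192, 192, 209, 102, 0, 0⟩,
⟨102, 10, 105, .nil, [], 0, 214, 192, 192, 189, 103, 0, 0⟩,
⟨103, 9, 104, .nil, [], 0, 214, 232, 232, 209, 104, 0, 0⟩,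
⟨104, 8, 104, .nil, [], 0, 214, 232, 232, 229, 105, 0, 0⟩]

theorem lMEMsL0_ok : grpNL MMEM.H MMEM.A SMEM (phs 1491 lMEMs0) lMEMsL0 = true := by decide +kernel

/-- accumulated states -/
def lMEMs1 : List Mo := addN 1491 lMEMsL0 lMEMs0

/-- items -/
def lMEMsL1 : List NI := [
⟨25, 31, 43, .nil, [], 0, 147, 169, 169, 230, 26, 0, 0⟩,
⟨26, 31, 44, .nil, [], 0, 147, 169, 169, 231, 27, 0, 0⟩,
⟨27, 32, 45, .nil, [], 0, 128, 169, 169, 211, 28, 0, 0⟩,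
⟨28, 33, 45, .nil, [], 0, 147, 188, 188, 231, 29, 0, 0⟩,
⟨29, 34, 46, .nil, [], 0, 147, 188, 188, 230, 30, 0, 0⟩,
⟨30, 34, 47, .nil, [], 0, 147, 169, 169, 229, 31, 0, 0⟩,
⟨31, 33, 48, .nil, [], 0, 149, 171, 171, 230, 32, 0, 0⟩,
⟨32, 33, 49, .nil, [], 0, 130, 171, 171, 229, 33, 0, 0⟩,
⟨33, 32, 50, .nil, [], 0, 132, 171, 171, 230, 34, 0, 0⟩,
⟨34, 32, 51, .nil, [], 0, 132, 171, 171, 231, 35, 0, 0⟩,
⟨35, 33, 52, .nil, [], 0, 130, 169, 169, 230, 36, 0, 0⟩,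
⟨36, 33, 53, .nil, [], 0, 130, 169, 169, 229, 37, 0, 0⟩,
⟨37, 32, 54, .nil, [], 0, 130, 171, 171, 209, 38, 0, 0⟩,
⟨38, 31, 54, .nil, [], 0, 151, 192, 192, 229, 39, 0, 0⟩,
⟨39, 30, 55, .nil, [], 0, 153, 192, 192, 209, 40, 0, 0⟩,
⟨40, 29, 55, .nil, [], 0, 174, 192, 192, 229, 41, 0, 0⟩,
⟨41, 28, 56, .nil, [], 0, 174, 192, 192, 230, 42, 0, 0⟩,
⟨42, 28, 57, .nil, [], 0, 153, 171, 171, 231, 43, 0, 0⟩,
⟨43, 29, 58, .nil, [], 0, 151, 169, 169, 230, 44, 0, 0⟩,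
⟨44, 29, 59, .nil, [], 0, 130, 169, 169, 229, 45, 0, 0⟩,
⟨45, 28, 60, .nil, [], 0, 130, 171, 171, 230, 46, 0, 0⟩,
⟨46, 28, 61, .nil, [], 0, 130, 171, 171, 231, 47, 0, 0⟩,
⟨47, 29, 62, .nil, [], 0, 130, 169, 169, 230, 48, 0, 0⟩,
⟨48, 29, 63, .nil, [], 0, 130, 169, 169, 229, 49, 0, 0⟩,
⟨49, 28, 64, .nil, [], 0, 130, 171, 171, 230, 50, 0, 0⟩,
⟨50, 28, 65, .nil, [], 0, 130, 171, 171, 231, 51, 0, 0⟩,
⟨51, 29, 66, .nil, [], 0, 130, 169, 169, 230, 52, 0, 0⟩,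
⟨52, 29, 67, .nil, [], 0, 130, 169, 169, 229, 53, 0, 0⟩,
⟨53, 28, 68, .nil, [], 0, 130, 171, 171, 230, 54, 0, 0⟩,
⟨54, 28, 69, .nil, [], 0, 130, 171, 171, 231, 55, 0, 0⟩,
⟨55, 29, 70, .nil, [], 0, 130, 169, 169, 230, 56, 0, 0⟩,
⟨56, 29, 71, .nil, [], 0, 130, 169, 169, 229, 57, 0, 0⟩,
⟨57, 28, 72, .nil, [], 0, 130, 171, 171, 230, 58, 0, 0⟩,
⟨58, 28, 73, .nil, [], 0, 130, 171, 171, 231, 59, 0, 0⟩,
⟨59, 29, 74, .nil, [], 0, 130, 169, 169, 230, 60, 0, 0⟩,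
⟨60, 29, 75, .nil, [], 0, 130, 169, 169, 229, 61, 0, 0⟩,
⟨61, 28, 76, .nil, [], 0, 130, 171, 171, 230, 62, 0, 0⟩,
⟨62, 28, 77, .nil, [], 0, 130, 171, 171, 231, 63, 0, 0⟩,
⟨63, 29, 78, .nil, [], 0, 130, 169, 169, 230, 64, 0, 0⟩,
⟨64, 29, 79, .nil, [], 0, 130, 169, 169, 229, 65, 0, 0⟩]

theorem lMEMsL1_ok : grpNL MMEM.H MMEM.A SMEM (phs 1491 lMEMs1) lMEMsL1 = true := by decide +kernel

/-- accumulated states -/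
def lMEMs2 : List Mo := addN 1491 lMEMsL1 lMEMs1

/-- patch setting -/
def lMEMsP2 : PS := ⟨30, 42, [⟨⟨55, 23, 11⟩, 16, 16⟩], ⟨false, [55], true⟩, 0, 0, 0⟩

theorem lMEMsP2_ok : psOk MMEM lMEMsP2 = true := by decide +kernel

/-- items -/
def lMEMsL2 : List LI := [
⟨24, 1491, [⟨35, 34, 8⟩], 0, 166, 188, 188, 231, 25, 0, 0, [⟨35, 34, 8⟩]⟩]

theorem lMEMsL2_ok : grpL MMEM SMEM lMEMsP2 lMEMs2 lMEMsL2 = true := by decide +kernel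

/-- accumulated states -/
def lMEMs3 : List Mo := keysL lMEMsL2 lMEMs2

/-- patch setting -/
def lMEMsP3 : PS := ⟨29, 41, [⟨⟨57, 23, 11⟩, 15, 15⟩], ⟨false, [57], true⟩, 0, 0, 0⟩

theorem lMEMsP3_ok : psOk MMEM lMEMsP3 = true := by decide +kernel

/-- items -/
def lMEMsL3 : List LI := [
⟨23, 1491, [⟨36, 33, 8⟩], 0, 207, 189, 189, 231, 24, 0, 0, [⟨36, 33, 8⟩]⟩]

theorem lMEMsL3_ok : grpL MMEM SMEM lMEMsP3 lMEMs3 lMEMsL3 = true := by decide +kernel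

/-- accumulated states -/
def lMEMs4 : List Mo := keysL lMEMsL3 lMEMs3

/-- patch setting -/
def lMEMsP4 : PS := ⟨29, 40, [⟨⟨77, 23, 11⟩, 15, 15⟩], ⟨false, [], true⟩, 1, 2382, 77⟩

theorem lMEMsP4_ok : psOk MMEM lMEMsP4 = true := by decide +kernel

/-- items -/
def lMEMsL4 : List LI := [
⟨22, 2382, [⟨36, 33, 7⟩], 3, 0, 0, 0, 231, 23, 0, 0, [⟨36, 33, 8⟩]⟩]

theorem lMEMsL4_ok : grpL MMEM SMEM lMEMsP4 lMEMs4 lMEMsL4 = true := by decide +kernel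

/-- accumulated states -/
def lMEMs5 : List Mo := keysL lMEMsL4 lMEMs4

/-- items -/
def lMEMsL5 : List NI := [
⟨0, 8, 40, .nil, [], 0, 206, 228, 228, 211, 1, 0, 0⟩,
⟨1, 9, 40, .nil, [], 0, 206, 228, 228, 231, 2, 0, 0⟩,
⟨2, 10, 41, .nil, [], 0, 206, 188, 188, 211, 3, 0, 0⟩,
⟨3, 11, 41, .nil, [], 0, 206, 188, 188, 191, 4, 0, 0⟩,
⟨4, 12, 40, .nil, [], 0, 206, 228, 228, 211, 5, 0, 0⟩,
⟨5, 13, 40, .nil, [], 0, 206, 228, 228, 231, 6, 0, 0⟩,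
⟨6, 14, 41, .nil, [], 0, 206, 188, 188, 211, 7, 0, 0⟩,
⟨7, 15, 41, .nil, [], 0, 206, 188, 188, 191, 8, 0, 0⟩,
⟨8, 16, 40, .nil, [], 0, 206, 228, 228, 211, 9, 0, 0⟩,
⟨9, 17, 40, .nil, [], 0, 206, 228, 228, 231, 10, 0, 0⟩,
⟨10, 18, 41, .nil, [], 0, 206, 188, 188, 211, 11, 0, 0⟩,
⟨11, 19, 41, .nil, [], 0, 206, 188, 188, 191, 12, 0, 0⟩,
⟨12, 20, 40, .nil, [], 0, 206, 228, 228, 211, 13, 0, 0⟩,
⟨13, 21, 40, .nil, [], 0, 206, 228, 228, 231, 14, 0, 0⟩,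
⟨14, 22, 41, .nil, [], 0, 206, 188, 188, 211, 15, 0, 0⟩,
⟨15, 23, 41, .nil, [], 0, 206, 188, 188, 231, 16, 0, 0⟩,
⟨16, 24, 42, .nil, [], 0, 166, 188, 188, 211, 17, 0, 0⟩,
⟨17, 25, 42, .nil, [], 0, 166, 188, 188, 191, 18, 0, 0⟩,
⟨18, 26, 41, .nil, [], 0, 206, 228, 228, 190, 19, 0, 0⟩,
⟨19, 26, 40, .nil, [], 0, 227, 249, 249, 191, 20, 0, 0⟩,
⟨20, 27, 39, .nil, [], 0, 267, 249, 249, 211, 21, 0, 0⟩,
⟨21, 28, 39, .nil, [], 0, 267, 228, 228, 231, 22, 0, 0⟩]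

theorem lMEMsL5_ok : grpNL MMEM.H MMEM.A SMEM (phs 2382 lMEMs5) lMEMsL5 = true := by decide +kernel

/-- accumulated states -/
def lMEMs6 : List Mo := addN 2382 lMEMsL5 lMEMs5

theorem MEMset_lo {R : Room} {F : Board} {O : Sq} {β : Ordinal.{0}} (hF : MBase MMEM O F R) (h0 : GE (PM MMEM SMEM F O 105 1491) β) :
    GE (PM MMEM SMEM F O 0 2382) β := by
  have a0 : GEs MMEM SMEM F O β lMEMs0 := by
    intro m hm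
    rw [List.mem_singleton.1 hm]
    exact h0
  have a1 := GEs.N hF MMEM_ok 1491 (by decide +kernel) lMEMsL0 lMEMsL0_ok a0
  have a2 := GEs.N hF MMEM_ok 1491 (by decide +kernel) lMEMsL1 lMEMsL1_ok a1
  have a3 := GEs.U hF MMEM_ok lMEMsP2 lMEMsL2 lMEMsP2_ok lMEMsL2_ok a2
  have a4 := GEs.U hF MMEM_ok lMEMsP3 lMEMsL3 lMEMsP3_ok lMEMsL3_ok a3
  have a5 := GEs.U hF MMEM_ok lMEMsP4 lMEMsL4 lMEMsP4_ok lMEMsL4_ok a4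
  have a6 := GEs.N hF MMEM_ok 2382 (by decide +kernel) lMEMsL5 lMEMsL5_ok a5
  exact a6 ⟨0, 2382⟩ (ME2_membM _ (by decide +kernel))

end Pool.Agent.Lib.H32C.Loc
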