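import Pool.Agent.Lib.H32C.MemChain
import Pool.Agent.Lib.H32C.TdMEM0

/-!
# Part e of the certificate of the tile TdMEM
-/

set_option autoImplicit false

namespace Pool.Agent.Lib.H32C.Loc

/-- accumulated states -/
def lMEMr0 : List Mo := [⟨235, 2382⟩]

/-- items -/
def lMEMrL0 : List NI := [
⟨215, 53, 43, .nil, [], 0, 147, 169, 169, 211, 216, 0, 0⟩,
⟨216, 54, 43, .nil, [], 0, 166, 188, 188, 191, 217, 0, 0⟩,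
⟨217, 55, 42, .nil, [], 0, 187, 228, 228, 211, 218, 0, 0⟩,
⟨218, 56, 42, .nil, [], 0, 206, 228, 228, 231, 219, 0, 0⟩,
⟨219, 57, 43, .nil, [], 0, 206, 188, 188, 211, 220, 0, 0⟩,
⟨220, 58, 43, .nil, [], 0, 206, 188, 188, 191, 221, 0, 0⟩,
⟨221, 59, 42, .nil, [], 0, 206, 228, 228, 190, 222, 0, 0⟩,
⟨222, 59, 41, .nil, [], 0, 227, 249, 249, 191, 223, 0, 0⟩,
⟨223, 60, 40, .nil, [], 0, 267, 249, 249, 211, 224, 0, 0⟩,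
⟨224, 61, 40, .nil, [], 0, 267, 228, 228, 231, 225, 0, 0⟩,
⟨225, 62, 41, .nil, [], 0, 227, 188, 188, 211, 226, 0, 0⟩,
⟨226, 63, 41, .nil, [], 0, 206, 188, 188, 191, 227, 0, 0⟩,
⟨227, 64, 40, .nil, [], 0, 206, 228, 228, 211, 228, 0, 0⟩,
⟨228, 65, 40, .nil, [], 0, 206, 228, 228, 231, 229, 0, 0⟩,
⟨229, 66, 41, .nil, [], 0, 206, 188, 188, 211, 230, 0, 0⟩,
⟨230, 67, 41, .nil, [], 0, 206, 188, 188, 191, 231, 0, 0⟩,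
⟨231, 68, 40, .nil, [], 0, 206, 228, 228, 211, 232, 0, 0⟩,
⟨232, 69, 40, .nil, [], 0, 206, 228, 228, 231, 233, 0, 0⟩,
⟨233, 70, 41, .nil, [], 0, 206, 188, 188, 211, 234, 0, 0⟩,
⟨234, 71, 41, .nil, [], 0, 206, 188, 188, 191, 235, 0, 0⟩]

theorem lMEMrL0_ok : grpNL MMEM.H MMEM.A SMEM (phs 2382 lMEMr0) lMEMrL0 = true := by decide +kernel

/-- accumulated states -/
def lMEMr1 : List Mo := addN 2382 lMEMrL0 lMEMr0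

/-- patch setting -/
def lMEMrP1 : PS := ⟨52, 42, [⟨⟨55, 23, 11⟩, 5, 5⟩], ⟨false, [55], true⟩, 0, 0, 0⟩

theorem lMEMrP1_ok : psOk MMEM lMEMrP1 = true := by decide +kernel

/-- items -/
def lMEMrL1 : List LI := [
⟨214, 2382, [⟨57, 34, 8⟩], 0, 166, 188, 188, 231, 215, 0, 0, [⟨57, 34, 8⟩]⟩]

theorem lMEMrL1_ok : grpL MMEM SMEM lMEMrP1 lMEMr1 lMEMrL1 = true := by decide +kernel

/-- accumulated states -/
def lMEMr2 : List Mo := keysL lMEMrL1 lMEMr1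

/-- patch setting -/
def lMEMrP2 : PS := ⟨52, 41, [⟨⟨56, 23, 11⟩, 4, 4⟩], ⟨false, [56], true⟩, 0, 0, 0⟩

theorem lMEMrP2_ok : psOk MMEM lMEMrP2 = true := by decide +kernel

/-- items -/
def lMEMrL2 : List LI := [
⟨213, 2382, [⟨58, 33, 8⟩], 0, 206, 188, 188, 230, 214, 0, 0, [⟨58, 33, 8⟩]⟩]

theorem lMEMrL2_ok : grpL MMEM SMEM lMEMrP2 lMEMr2 lMEMrL2 = true := by decide +kernel

/-- accumulated states -/
def lMEMr3 : List Mo := keysL lMEMrL2 lMEMr2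

/-- patch setting -/
def lMEMrP3 : PS := ⟨51, 40, [⟨⟨77, 23, 11⟩, 4, 4⟩], ⟨false, [], true⟩, 1, 1491, 77⟩

theorem lMEMrP3_ok : psOk MMEM lMEMrP3 = true := by decide +kernel

/-- items -/
def lMEMrL3 : List LI := [
⟨212, 1491, [⟨58, 33, 7⟩], 3, 0, 0, 0, 231, 213, 0, 0, [⟨58, 33, 8⟩]⟩]

theorem lMEMrL3_ok : grpL MMEM SMEM lMEMrP3 lMEMr3 lMEMrL3 = true := by decide +kernel

/-- accumulated states -/
def lMEMr4 : List Mo := keysL lMEMrL3 lMEMr3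

/-- items -/
def lMEMrL4 : List NI := [
⟨203, 43, 40, .nil, [], 0, 246, 228, 228, 231, 204, 0, 0⟩,
⟨204, 44, 41, .nil, [], 0, 206, 188, 188, 211, 205, 0, 0⟩,
⟨205, 45, 41, .nil, [], 0, 206, 188, 188, 231, 206, 0, 0⟩,
⟨206, 46, 42, .nil, [], 0, 166, 188, 188, 211, 207, 0, 0⟩,
⟨207, 47, 42, .nil, [], 0, 166, 188, 188, 191, 208, 0, 0⟩,
⟨208, 48, 41, .nil, [], 0, 206, 228, 228, 190, 209, 0, 0⟩,
⟨209, 48, 40, .nil, [], 0, 227, 249, 249, 191, 210, 0, 0⟩,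
⟨210, 49, 39, .nil, [], 0, 267, 249, 249, 211, 211, 0, 0⟩,
⟨211, 50, 39, .nil, [], 0, 267, 228, 228, 231, 212, 0, 0⟩]

theorem lMEMrL4_ok : grpNL MMEM.H MMEM.A SMEM (phs 1491 lMEMr4) lMEMrL4 = true := by decide +kernel

/-- accumulated states -/
def lMEMr5 : List Mo := addN 1491 lMEMrL4 lMEMr4

/-- patch setting -/
def lMEMrP5 : PS := ⟨38, 32, [⟨⟨57, 23, 11⟩, 6, 6⟩], ⟨false, [57], true⟩, 0, 0, 0⟩

theorem lMEMrP5_ok : psOk MMEM lMEMrP5 = true := by decide +kernel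

/-- items -/
def lMEMrL5 : List LI := [
⟨243, 1491, [⟨45, 24, 8⟩], 1, 292, 251, 251, 0, 0, 0, 0, [⟨45, 24, 8⟩]⟩]

theorem lMEMrL5_ok : grpL MMEM SMEM lMEMrP5 lMEMr5 lMEMrL5 = true := by decide +kernel

/-- accumulated states -/
def lMEMr6 : List Mo := keysL lMEMrL5 lMEMr5

/-- items -/
def lMEMrL6 : List NI := [
⟨170, 41, 71, .nil, [], 0, 290, 249, 249, 190, 171, 0, 0⟩,
⟨171, 41, 70, .nil, [], 0, 290, 249, 249, 189, 172, 0, 0⟩,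
⟨172, 40, 69, .nil, [], 0, 290, 251, 251, 190, 173, 0, 0⟩,
⟨173, 40, 68, .nil, [], 0, 290, 251, 251, 191, 174, 0, 0⟩,
⟨174, 41, 67, .nil, [], 0, 290, 249, 249, 190, 175, 0, 0⟩,
⟨175, 41, 66, .nil, [], 0, 290, 249, 249, 189, 176, 0, 0⟩,
⟨176, 40, 65, .nil, [], 0, 290, 251, 251, 190, 177, 0, 0⟩,
⟨177, 40, 64, .nil, [], 0, 290, 251, 251, 191, 178, 0, 0⟩,
⟨178, 41, 63, .nil, [], 0, 290, 249, 249, 190, 179, 0, 0⟩,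
⟨179, 41, 62, .nil, [], 0, 290, 249, 249, 189, 180, 0, 0⟩,
⟨180, 40, 61, .nil, [], 0, 290, 251, 251, 190, 181, 0, 0⟩,
⟨181, 40, 60, .nil, [], 0, 290, 251, 251, 191, 182, 0, 0⟩,
⟨182, 41, 59, .nil, [], 0, 290, 249, 249, 190, 183, 0, 0⟩,
⟨183, 41, 58, .nil, [], 0, 290, 249, 249, 189, 184, 0, 0⟩,
⟨184, 40, 57, .nil, [], 0, 290, 251, 251, 190, 185, 0, 0⟩,
⟨185, 40, 56, .nil, [], 0, 290, 251, 251, 191, 186, 0, 0⟩,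
⟨186, 41, 55, .nil, [], 0, 290, 249, 249, 190, 187, 0, 0⟩,
⟨187, 41, 54, .nil, [], 0, 290, 249, 249, 189, 188, 0, 0⟩,
⟨188, 40, 53, .nil, [], 0, 290, 251, 251, 190, 189, 0, 0⟩,
⟨189, 40, 52, .nil, [], 0, 290, 251, 251, 189, 190, 0, 0⟩,
⟨190, 39, 51, .nil, [], 0, 292, 251, 251, 190, 191, 0, 0⟩,
⟨191, 39, 50, .nil, [], 0, 292, 251, 251, 191, 192, 0, 0⟩,
⟨192, 40, 49, .nil, [], 0, 290, 249, 249, 190, 193, 0, 0⟩,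
⟨193, 40, 48, .nil, [], 0, 290, 249, 249, 191, 194, 0, 0⟩,
⟨194, 41, 47, .nil, [], 0, 288, 249, 249, 190, 195, 0, 0⟩,
⟨195, 41, 46, .nil, [], 0, 288, 249, 249, 189, 196, 0, 0⟩,
⟨196, 40, 45, .nil, [], 0, 290, 251, 251, 190, 197, 0, 0⟩,
⟨197, 40, 44, .nil, [], 0, 290, 251, 251, 189, 198, 0, 0⟩,
⟨198, 39, 43, .nil, [], 0, 292, 251, 251, 190, 199, 0, 0⟩,
⟨199, 39, 42, .nil, [], 0, 292, 251, 251, 191, 200, 0, 0⟩,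
⟨200, 40, 41, .nil, [], 0, 290, 249, 249, 211, 201, 0, 0⟩,
⟨201, 41, 41, .nil, [], 0, 269, 228, 228, 191, 202, 0, 0⟩,
⟨202, 42, 40, .nil, [], 2, 267, 228, 228, 211, 203, 190, 236⟩,
⟨236, 42, 39, .nil, [], 0, 267, 249, 249, 189, 237, 0, 0⟩,
⟨237, 41, 38, .nil, [], 0, 269, 251, 251, 190, 238, 0, 0⟩,
⟨238, 41, 37, .nil, [], 0, 290, 251, 251, 189, 239, 0, 0⟩,
⟨239, 40, 36, .nil, [], 0, 292, 251, 251, 190, 240, 0, 0⟩,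
⟨240, 40, 35, .nil, [], 0, 292, 251, 251, 189, 241, 0, 0⟩,
⟨241, 39, 34, .nil, [], 0, 292, 251, 251, 190, 242, 0, 0⟩,
⟨242, 39, 33, .nil, [], 0, 292, 251, 251, 189, 243, 0, 0⟩]

theorem lMEMrL6_ok : grpNL MMEM.H MMEM.A SMEM (phs 1491 lMEMr6) lMEMrL6 = true := by decide +kernel

/-- accumulated states -/
def lMEMr7 : List Mo := addN 1491 lMEMrL6 lMEMr6

/-- items -/
def lMEMrL7 : List NI := [
⟨130, 41, 111, .nil, [], 0, 290, 249, 249, 190, 131, 0, 0⟩,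
⟨131, 41, 110, .nil, [], 0, 290, 249, 249, 189, 132, 0, 0⟩,
⟨132, 40, 109, .nil, [], 0, 290, 251, 251, 190, 133, 0, 0⟩,
⟨133, 40, 108, .nil, [], 0, 290, 251, 251, 191, 134, 0, 0⟩,
⟨134, 41, 107, .nil, [], 0, 290, 249, 249, 190, 135, 0, 0⟩,
⟨135, 41, 106, .nil, [], 0, 290, 249, 249, 189, 136, 0, 0⟩,
⟨136, 40, 105, .nil, [], 0, 290, 251, 251, 190, 137, 0, 0⟩,
⟨137, 40, 104, .nil, [], 0, 290, 251, 251, 191, 138, 0, 0⟩,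
⟨138, 41, 103, .nil, [], 0, 290, 249, 249, 190, 139, 0, 0⟩,
⟨139, 41, 102, .nil, [], 0, 290, 249, 249, 189, 140, 0, 0⟩,
⟨140, 40, 101, .nil, [], 0, 290, 251, 251, 190, 141, 0, 0⟩,
⟨141, 40, 100, .nil, [], 0, 290, 251, 251, 191, 142, 0, 0⟩,
⟨142, 41, 99, .nil, [], 0, 290, 249, 249, 190, 143, 0, 0⟩,
⟨143, 41, 98, .nil, [], 0, 290, 249, 249, 189, 144, 0, 0⟩,
⟨144, 40, 97, .nil, [], 0, 290, 251, 251, 190, 145, 0, 0⟩,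
⟨145, 40, 96, .nil, [], 0, 290, 251, 251, 191, 146, 0, 0⟩,
⟨146, 41, 95, .nil, [], 0, 290, 249, 249, 190, 147, 0, 0⟩,
⟨147, 41, 94, .nil, [], 0, 290, 249, 249, 189, 148, 0, 0⟩,
⟨148, 40, 93, .nil, [], 0, 290, 251, 251, 190, 149, 0, 0⟩,
⟨149, 40, 92, .nil, [], 0, 290, 251, 251, 191, 150, 0, 0⟩,
⟨150, 41, 91, .nil, [], 0, 290, 249, 249, 190, 151, 0, 0⟩,
⟨151, 41, 90, .nil, [], 0, 290, 249, 249, 189, 152, 0, 0⟩,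
⟨152, 40, 89, .nil, [], 0, 290, 251, 251, 190, 153, 0, 0⟩,
⟨153, 40, 88, .nil, [], 0, 290, 251, 251, 191, 154, 0, 0⟩,
⟨154, 41, 87, .nil, [], 0, 290, 249, 249, 190, 155, 0, 0⟩,
⟨155, 41, 86, .nil, [], 0, 290, 249, 249, 189, 156, 0, 0⟩,
⟨156, 40, 85, .nil, [], 0, 290, 251, 251, 190, 157, 0, 0⟩,
⟨157, 40, 84, .nil, [], 0, 290, 251, 251, 191, 158, 0, 0⟩,
⟨158, 41, 83, .nil, [], 0, 290, 249, 249, 190, 159, 0, 0⟩,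
⟨159, 41, 82, .nil, [], 0, 290, 249, 249, 189, 160, 0, 0⟩,
⟨160, 40, 81, .nil, [], 0, 290, 251, 251, 190, 161, 0, 0⟩,
⟨161, 40, 80, .nil, [], 0, 290, 251, 251, 191, 162, 0, 0⟩,
⟨162, 41, 79, .nil, [], 0, 290, 249, 249, 190, 163, 0, 0⟩,
⟨163, 41, 78, .nil, [], 0, 290, 249, 249, 189, 164, 0, 0⟩,
⟨164, 40, 77, .nil, [], 0, 290, 251, 251, 190, 165, 0, 0⟩,
⟨165, 40, 76, .nil, [], 0, 290, 251, 251, 191, 166, 0, 0⟩,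
⟨166, 41, 75, .nil, [], 0, 290, 249, 249, 190, 167, 0, 0⟩,
⟨167, 41, 74, .nil, [], 0, 290, 249, 249, 189, 168, 0, 0⟩,
⟨168, 40, 73, .nil, [], 0, 290, 251, 251, 190, 169, 0, 0⟩,
⟨169, 40, 72, .nil, [], 0, 290, 251, 251, 191, 170, 0, 0⟩]

theorem lMEMrL7_ok : grpNL MMEM.H MMEM.A SMEM (phs 1491 lMEMr7) lMEMrL7 = true := by decide +kernel

/-- accumulated states -/
def lMEMr8 : List Mo := addN 1491 lMEMrL7 lMEMr7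

/-- items -/
def lMEMrL8 : List NI := [
⟨106, 41, 135, .nil, [], 0, 290, 249, 249, 190, 107, 0, 0⟩,
⟨107, 41, 134, .nil, [], 0, 290, 249, 249, 189, 108, 0, 0⟩,
⟨108, 40, 133, .nil, [], 0, 290, 251, 251, 190, 109, 0, 0⟩,
⟨109, 40, 132, .nil, [], 0, 290, 251, 251, 191, 110, 0, 0⟩,
⟨110, 41, 131, .nil, [], 0, 290, 249, 249, 190, 111, 0, 0⟩,
⟨111, 41, 130, .nil, [], 0, 290, 249, 249, 189, 112, 0, 0⟩,
⟨112, 40, 129, .nil, [], 0, 290, 251, 251, 190, 113, 0, 0⟩,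
⟨113, 40, 128, .nil, [], 0, 290, 251, 251, 191, 114, 0, 0⟩,
⟨114, 41, 127, .nil, [], 0, 290, 249, 249, 190, 115, 0, 0⟩,
⟨115, 41, 126, .nil, [], 0, 290, 249, 249, 189, 116, 0, 0⟩,
⟨116, 40, 125, .nil, [], 0, 290, 251, 251, 190, 117, 0, 0⟩,
⟨117, 40, 124, .nil, [], 0, 290, 251, 251, 191, 118, 0, 0⟩,
⟨118, 41, 123, .nil, [], 0, 290, 249, 249, 190, 119, 0, 0⟩,
⟨119, 41, 122, .nil, [], 0, 290, 249, 249, 189, 120, 0, 0⟩,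
⟨120, 40, 121, .nil, [], 0, 290, 251, 251, 190, 121, 0, 0⟩,
⟨121, 40, 120, .nil, [], 0, 290, 251, 251, 191, 122, 0, 0⟩,
⟨122, 41, 119, .nil, [], 0, 290, 249, 249, 190, 123, 0, 0⟩,
⟨123, 41, 118, .nil, [], 0, 290, 249, 249, 189, 124, 0, 0⟩,
⟨124, 40, 117, .nil, [], 0, 290, 251, 251, 190, 125, 0, 0⟩,
⟨125, 40, 116, .nil, [], 0, 290, 251, 251, 191, 126, 0, 0⟩,
⟨126, 41, 115, .nil, [], 0, 290, 249, 249, 190, 127, 0, 0⟩,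
⟨127, 41, 114, .nil, [], 0, 290, 249, 249, 189, 128, 0, 0⟩,
⟨128, 40, 113, .nil, [], 0, 290, 251, 251, 190, 129, 0, 0⟩,
⟨129, 40, 112, .nil, [], 0, 290, 251, 251, 191, 130, 0, 0⟩]

theorem lMEMrL8_ok : grpNL MMEM.H MMEM.A SMEM (phs 1491 lMEMr8) lMEMrL8 = true := by decide +kernel

/-- accumulated states -/
def lMEMr9 : List Mo := addN 1491 lMEMrL8 lMEMr8

theorem MEMret_lo {R : Room} {F : Board} {O : Sq} {β : Ordinal.{0}} (hF : MBase MMEM O F R) (h0 : GE (PM MMEM SMEM F O 235 2382) β) :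
    GE (PM MMEM SMEM F O 106 1491) β := by
  have a0 : GEs MMEM SMEM F O β lMEMr0 := by
    intro m hm
    rw [List.mem_singleton.1 hm]
    exact h0
  have a1 := GEs.N hF MMEM_ok 2382 (by decide +kernel) lMEMrL0 lMEMrL0_ok a0
  have a2 := GEs.U hF MMEM_ok lMEMrP1 lMEMrL1 lMEMrP1_ok lMEMrL1_ok a1
  have a3 := GEs.U hF MMEM_ok lMEMrP2 lMEMrL2 lMEMrP2_ok lMEMrL2_ok a2
  have a4 := GEs.U hF MMEM_ok lMEMrP3 lMEMrL3 lMEMrP3_ok lMEMrL3_ok a3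
  have a5 := GEs.N hF MMEM_ok 1491 (by decide +kernel) lMEMrL4 lMEMrL4_ok a4
  have a6 := GEs.U hF MMEM_ok lMEMrP5 lMEMrL5 lMEMrP5_ok lMEMrL5_ok a5
  have a7 := GEs.N hF MMEM_ok 1491 (by decide +kernel) lMEMrL6 lMEMrL6_ok a6
  have a8 := GEs.N hF MMEM_ok 1491 (by decide +kernel) lMEMrL7 lMEMrL7_ok a7
  have a9 := GEs.N hF MMEM_ok 1491 (by decide +kernel) lMEMrL8 lMEMrL8_ok a8
  exact a9 ⟨106, 1491⟩ (ME2_membM _ (by decide +kernel))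

end Pool.Agent.Lib.H32C.Loc
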