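import Pool.Agent.Lib.H32C.MemChain
import Pool.Agent.Lib.H32C.TdMEM0

/-!
# Part f of the certificate of the tile TdMEM
-/

set_option autoImplicit false

namespace Pool.Agent.Lib.H32C.Loc

/-- accumulated states -/
def lMEMp0 : List Mo := [⟨271, 2382⟩]

/-- items -/
def lMEMpL0 : List NI := [
⟨247, 36, 28, .nil, [], 0, 292, 251, 251, 190, 248, 0, 0⟩,
⟨248, 36, 27, .nil, [], 0, 292, 251, 251, 189, 249, 0, 0⟩,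
⟨249, 35, 26, .nil, [], 0, 292, 251, 251, 190, 250, 0, 0⟩,
⟨250, 35, 25, .nil, [], 0, 292, 251, 251, 189, 251, 0, 0⟩,
⟨251, 34, 24, .nil, [], 0, 292, 251, 251, 190, 252, 0, 0⟩,
⟨252, 34, 23, .nil, [], 0, 292, 251, 251, 191, 253, 0, 0⟩,
⟨253, 35, 22, .nil, [], 0, 290, 249, 249, 211, 254, 0, 0⟩,
⟨254, 36, 22, .nil, [], 0, 269, 228, 228, 191, 255, 0, 0⟩,
⟨255, 37, 21, .nil, [], 0, 267, 228, 228, 211, 256, 0, 0⟩,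
⟨256, 38, 21, .nil, [], 0, 246, 228, 228, 191, 257, 0, 0⟩,
⟨257, 39, 20, .nil, [], 0, 246, 228, 228, 211, 258, 0, 0⟩,
⟨258, 40, 20, .nil, [], 0, 246, 228, 228, 191, 259, 0, 0⟩,
⟨259, 41, 19, .nil, [], 0, 246, 228, 228, 190, 260, 0, 0⟩,
⟨260, 41, 18, .nil, [], 0, 267, 249, 249, 189, 261, 0, 0⟩,
⟨261, 40, 17, .nil, [], 0, 269, 251, 251, 190, 262, 0, 0⟩,
⟨262, 40, 16, .nil, [], 0, 290, 251, 251, 191, 263, 0, 0⟩,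
⟨263, 41, 15, .nil, [], 0, 290, 249, 249, 190, 264, 0, 0⟩,
⟨264, 41, 14, .nil, [], 0, 290, 249, 249, 189, 265, 0, 0⟩,
⟨265, 40, 13, .nil, [], 0, 290, 251, 251, 190, 266, 0, 0⟩,
⟨266, 40, 12, .nil, [], 0, 290, 251, 251, 191, 267, 0, 0⟩,
⟨267, 41, 11, .nil, [], 0, 290, 249, 249, 190, 268, 0, 0⟩,
⟨268, 41, 10, .nil, [], 0, 290, 249, 249, 189, 269, 0, 0⟩,
⟨269, 40, 9, .nil, [], 0, 290, 251, 251, 190, 270, 0, 0⟩,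
⟨270, 40, 8, .nil, [], 0, 290, 251, 251, 191, 271, 0, 0⟩]

theorem lMEMpL0_ok : grpNL MMEM.H MMEM.A SMEM (phs 2382 lMEMp0) lMEMpL0 = true := by decide +kernel

/-- accumulated states -/
def lMEMp1 : List Mo := addN 2382 lMEMpL0 lMEMp0

/-- patch setting -/
def lMEMpP1 : PS := ⟨37, 29, [⟨⟨346, 61, 11⟩, 1, 5⟩, ⟨⟨137, 23, 11⟩, 7, 7⟩], ⟨false, [346], true⟩, 1, 2382, 137⟩

theorem lMEMpP1_ok : psOk MMEM lMEMpP1 = true := by decide +kernel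

/-- items -/
def lMEMpL1 : List LI := [
⟨246, 2382, [⟨33, 36, 7⟩, ⟨44, 25, 7⟩], 0, 292, 251, 251, 189, 247, 0, 0, [⟨33, 36, 7⟩, ⟨44, 25, 7⟩]⟩]

theorem lMEMpL1_ok : grpL MMEM SMEM lMEMpP1 lMEMp1 lMEMpL1 = true := by decide +kernel

/-- accumulated states -/
def lMEMp2 : List Mo := keysL lMEMpL1 lMEMp1

/-- items -/
def lMEMpL2 : List NI := [
⟨236, 42, 39, .nil, [], 0, 267, 249, 249, 189, 237, 0, 0⟩,
⟨237, 41, 38, .nil, [], 0, 269, 251, 251, 190, 238, 0, 0⟩,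
⟨238, 41, 37, .nil, [], 0, 290, 251, 251, 189, 239, 0, 0⟩,
⟨239, 40, 36, .nil, [], 0, 292, 251, 251, 190, 240, 0, 0⟩,
⟨240, 40, 35, .nil, [], 0, 292, 251, 251, 189, 241, 0, 0⟩,
⟨241, 39, 34, .nil, [], 0, 292, 251, 251, 190, 242, 0, 0⟩,
⟨242, 39, 33, .nil, [], 0, 292, 251, 251, 189, 243, 0, 0⟩,
⟨243, 38, 32, .nil, [], 0, 292, 251, 251, 190, 244, 0, 0⟩,
⟨244, 38, 31, .nil, [], 0, 292, 251, 251, 189, 245, 0, 0⟩,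
⟨245, 37, 30, .nil, [], 0, 292, 251, 251, 190, 246, 0, 0⟩]

theorem lMEMpL2_ok : grpNL MMEM.H MMEM.A SMEM (phs 2382 lMEMp2) lMEMpL2 = true := by decide +kernel

/-- accumulated states -/
def lMEMp3 : List Mo := addN 2382 lMEMpL2 lMEMp2

/-- patch setting -/
def lMEMpP3 : PS := ⟨50, 39, [⟨⟨117, 23, 11⟩, 5, 5⟩], ⟨false, [117], true⟩, 0, 0, 0⟩

theorem lMEMpP3_ok : psOk MMEM lMEMpP3 = true := by decide +kernel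

/-- items -/
def lMEMpL3 : List LI := [
⟨211, 2382, [⟨57, 34, 8⟩], 1, 267, 228, 228, 0, 0, 0, 0, [⟨57, 34, 8⟩]⟩]

theorem lMEMpL3_ok : grpL MMEM SMEM lMEMpP3 lMEMp3 lMEMpL3 = true := by decide +kernel

/-- accumulated states -/
def lMEMp4 : List Mo := keysL lMEMpL3 lMEMp3

/-- items -/
def lMEMpL4 : List NI := [
⟨171, 41, 70, .nil, [], 0, 290, 249, 249, 189, 172, 0, 0⟩,
⟨172, 40, 69, .nil, [], 0, 290, 251, 251, 190, 173, 0, 0⟩,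
⟨173, 40, 68, .nil, [], 0, 290, 251, 251, 191, 174, 0, 0⟩,
⟨174, 41, 67, .nil, [], 0, 290, 249, 249, 190, 175, 0, 0⟩,
⟨175, 41, 66, .nil, [], 0, 290, 249, 249, 189, 176, 0, 0⟩,
⟨176, 40, 65, .nil, [], 0, 290, 251, 251, 190, 177, 0, 0⟩,
⟨177, 40, 64, .nil, [], 0, 290, 251, 251, 191, 178, 0, 0⟩,
⟨178, 41, 63, .nil, [], 0, 290, 249, 249, 190, 179, 0, 0⟩,
⟨179, 41, 62, .nil, [], 0, 290, 249, 249, 189, 180, 0, 0⟩,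
⟨180, 40, 61, .nil, [], 0, 290, 251, 251, 190, 181, 0, 0⟩,
⟨181, 40, 60, .nil, [], 0, 290, 251, 251, 191, 182, 0, 0⟩,
⟨182, 41, 59, .nil, [], 0, 290, 249, 249, 190, 183, 0, 0⟩,
⟨183, 41, 58, .nil, [], 0, 290, 249, 249, 189, 184, 0, 0⟩,
⟨184, 40, 57, .nil, [], 0, 290, 251, 251, 190, 185, 0, 0⟩,
⟨185, 40, 56, .nil, [], 0, 290, 251, 251, 191, 186, 0, 0⟩,
⟨186, 41, 55, .nil, [], 0, 290, 249, 249, 190, 187, 0, 0⟩,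
⟨187, 41, 54, .nil, [], 0, 290, 249, 249, 189, 188, 0, 0⟩,
⟨188, 40, 53, .nil, [], 0, 290, 251, 251, 190, 189, 0, 0⟩,
⟨189, 40, 52, .nil, [], 0, 290, 251, 251, 189, 190, 0, 0⟩,
⟨190, 39, 51, .nil, [], 0, 292, 251, 251, 190, 191, 0, 0⟩,
⟨191, 39, 50, .nil, [], 0, 292, 251, 251, 191, 192, 0, 0⟩,
⟨192, 40, 49, .nil, [], 0, 290, 249, 249, 190, 193, 0, 0⟩,
⟨193, 40, 48, .nil, [], 0, 290, 249, 249, 191, 194, 0, 0⟩,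
⟨194, 41, 47, .nil, [], 0, 288, 249, 249, 190, 195, 0, 0⟩,
⟨195, 41, 46, .nil, [], 0, 288, 249, 249, 189, 196, 0, 0⟩,
⟨196, 40, 45, .nil, [], 0, 290, 251, 251, 190, 197, 0, 0⟩,
⟨197, 40, 44, .nil, [], 0, 290, 251, 251, 189, 198, 0, 0⟩,
⟨198, 39, 43, .nil, [], 0, 292, 251, 251, 190, 199, 0, 0⟩,
⟨199, 39, 42, .nil, [], 0, 292, 251, 251, 191, 200, 0, 0⟩,
⟨200, 40, 41, .nil, [], 0, 290, 249, 249, 211, 201, 0, 0⟩,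
⟨201, 41, 41, .nil, [], 0, 269, 228, 228, 191, 202, 0, 0⟩,
⟨202, 42, 40, .nil, [], 2, 267, 228, 228, 190, 236, 211, 203⟩,
⟨203, 43, 40, .nil, [], 0, 246, 228, 228, 231, 204, 0, 0⟩,
⟨204, 44, 41, .nil, [], 0, 206, 188, 188, 211, 205, 0, 0⟩,
⟨205, 45, 41, .nil, [], 0, 206, 188, 188, 231, 206, 0, 0⟩,
⟨206, 46, 42, .nil, [], 0, 166, 188, 188, 211, 207, 0, 0⟩,
⟨207, 47, 42, .nil, [], 0, 166, 188, 188, 191, 208, 0, 0⟩,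
⟨208, 48, 41, .nil, [], 0, 206, 228, 228, 190, 209, 0, 0⟩,
⟨209, 48, 40, .nil, [], 0, 227, 249, 249, 191, 210, 0, 0⟩,
⟨210, 49, 39, .nil, [], 0, 267, 249, 249, 211, 211, 0, 0⟩]

theorem lMEMpL4_ok : grpNL MMEM.H MMEM.A SMEM (phs 2382 lMEMp4) lMEMpL4 = true := by decide +kernel

/-- accumulated states -/
def lMEMp5 : List Mo := addN 2382 lMEMpL4 lMEMp4

/-- items -/
def lMEMpL5 : List NI := [
⟨131, 41, 110, .nil, [], 0, 290, 249, 249, 189, 132, 0, 0⟩,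
⟨132, 40, 109, .nil, [], 0, 290, 251, 251, 190, 133, 0, 0⟩,
⟨133, 40, 108, .nil, [], 0, 290, 251, 251, 191, 134, 0, 0⟩,
⟨134, 41, 107, .nil, [], 0, 290, 249, 249, 190, 135, 0, 0⟩,
⟨135, 41, 106, .nil, [], 0, 290, 249, 249, 189, 136, 0, 0⟩,
⟨136, 40, 105, .nil, [], 0, 290, 251, 251, 190, 137, 0, 0⟩,
⟨137, 40, 104, .nil, [], 0, 290, 251, 251, 191, 138, 0, 0⟩,
⟨138, 41, 103, .nil, [], 0, 290, 249, 249, 190, 139, 0, 0⟩,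
⟨139, 41, 102, .nil, [], 0, 290, 249, 249, 189, 140, 0, 0⟩,
⟨140, 40, 101, .nil, [], 0, 290, 251, 251, 190, 141, 0, 0⟩,
⟨141, 40, 100, .nil, [], 0, 290, 251, 251, 191, 142, 0, 0⟩,
⟨142, 41, 99, .nil, [], 0, 290, 249, 249, 190, 143, 0, 0⟩,
⟨143, 41, 98, .nil, [], 0, 290, 249, 249, 189, 144, 0, 0⟩,
⟨144, 40, 97, .nil, [], 0, 290, 251, 251, 190, 145, 0, 0⟩,
⟨145, 40, 96, .nil, [], 0, 290, 251, 251, 191, 146, 0, 0⟩,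
⟨146, 41, 95, .nil, [], 0, 290, 249, 249, 190, 147, 0, 0⟩,
⟨147, 41, 94, .nil, [], 0, 290, 249, 249, 189, 148, 0, 0⟩,
⟨148, 40, 93, .nil, [], 0, 290, 251, 251, 190, 149, 0, 0⟩,
⟨149, 40, 92, .nil, [], 0, 290, 251, 251, 191, 150, 0, 0⟩,
⟨150, 41, 91, .nil, [], 0, 290, 249, 249, 190, 151, 0, 0⟩,
⟨151, 41, 90, .nil, [], 0, 290, 249, 249, 189, 152, 0, 0⟩,
⟨152, 40, 89, .nil, [], 0, 290, 251, 251, 190, 153, 0, 0⟩,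
⟨153, 40, 88, .nil, [], 0, 290, 251, 251, 191, 154, 0, 0⟩,
⟨154, 41, 87, .nil, [], 0, 290, 249, 249, 190, 155, 0, 0⟩,
⟨155, 41, 86, .nil, [], 0, 290, 249, 249, 189, 156, 0, 0⟩,
⟨156, 40, 85, .nil, [], 0, 290, 251, 251, 190, 157, 0, 0⟩,
⟨157, 40, 84, .nil, [], 0, 290, 251, 251, 191, 158, 0, 0⟩,
⟨158, 41, 83, .nil, [], 0, 290, 249, 249, 190, 159, 0, 0⟩,
⟨159, 41, 82, .nil, [], 0, 290, 249, 249, 189, 160, 0, 0⟩,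
⟨160, 40, 81, .nil, [], 0, 290, 251, 251, 190, 161, 0, 0⟩,
⟨161, 40, 80, .nil, [], 0, 290, 251, 251, 191, 162, 0, 0⟩,
⟨162, 41, 79, .nil, [], 0, 290, 249, 249, 190, 163, 0, 0⟩,
⟨163, 41, 78, .nil, [], 0, 290, 249, 249, 189, 164, 0, 0⟩,
⟨164, 40, 77, .nil, [], 0, 290, 251, 251, 190, 165, 0, 0⟩,
⟨165, 40, 76, .nil, [], 0, 290, 251, 251, 191, 166, 0, 0⟩,
⟨166, 41, 75, .nil, [], 0, 290, 249, 249, 190, 167, 0, 0⟩,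
⟨167, 41, 74, .nil, [], 0, 290, 249, 249, 189, 168, 0, 0⟩,
⟨168, 40, 73, .nil, [], 0, 290, 251, 251, 190, 169, 0, 0⟩,
⟨169, 40, 72, .nil, [], 0, 290, 251, 251, 191, 170, 0, 0⟩,
⟨170, 41, 71, .nil, [], 0, 290, 249, 249, 190, 171, 0, 0⟩]

theorem lMEMpL5_ok : grpNL MMEM.H MMEM.A SMEM (phs 2382 lMEMp5) lMEMpL5 = true := by decide +kernel

/-- accumulated states -/
def lMEMp6 : List Mo := addN 2382 lMEMpL5 lMEMp5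

/-- items -/
def lMEMpL6 : List NI := [
⟨106, 41, 135, .nil, [], 0, 290, 249, 249, 190, 107, 0, 0⟩,
⟨107, 41, 134, .nil, [], 0, 290, 249, 249, 189, 108, 0, 0⟩,
⟨108, 40, 133, .nil, [], 0, 290, 251, 251, 190, 109, 0, 0⟩,
⟨109, 40, 132, .nil, [], 0, 290, 251, 251, 191, 110, 0, 0⟩,
⟨110, 41, 131, .nil, [], 0, 290, 249, 249, 190, 111, 0, 0⟩,
⟨111, 41, 130, .nil, [], 0, 290, 249, 249, 189, 112, 0, 0⟩,
⟨112, 40, 129, .nil, [], 0, 290, 251, 251, 190, 113, 0, 0⟩,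
⟨113, 40, 128, .nil, [], 0, 290, 251, 251, 191, 114, 0, 0⟩,
⟨114, 41, 127, .nil, [], 0, 290, 249, 249, 190, 115, 0, 0⟩,
⟨115, 41, 126, .nil, [], 0, 290, 249, 249, 189, 116, 0, 0⟩,
⟨116, 40, 125, .nil, [], 0, 290, 251, 251, 190, 117, 0, 0⟩,
⟨117, 40, 124, .nil, [], 0, 290, 251, 251, 191, 118, 0, 0⟩,
⟨118, 41, 123, .nil, [], 0, 290, 249, 249, 190, 119, 0, 0⟩,
⟨119, 41, 122, .nil, [], 0, 290, 249, 249, 189, 120, 0, 0⟩,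
⟨120, 40, 121, .nil, [], 0, 290, 251, 251, 190, 121, 0, 0⟩,
⟨121, 40, 120, .nil, [], 0, 290, 251, 251, 191, 122, 0, 0⟩,
⟨122, 41, 119, .nil, [], 0, 290, 249, 249, 190, 123, 0, 0⟩,
⟨123, 41, 118, .nil, [], 0, 290, 249, 249, 189, 124, 0, 0⟩,
⟨124, 40, 117, .nil, [], 0, 290, 251, 251, 190, 125, 0, 0⟩,
⟨125, 40, 116, .nil, [], 0, 290, 251, 251, 191, 126, 0, 0⟩,
⟨126, 41, 115, .nil, [], 0, 290, 249, 249, 190, 127, 0, 0⟩,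
⟨127, 41, 114, .nil, [], 0, 290, 249, 249, 189, 128, 0, 0⟩,
⟨128, 40, 113, .nil, [], 0, 290, 251, 251, 190, 129, 0, 0⟩,
⟨129, 40, 112, .nil, [], 0, 290, 251, 251, 191, 130, 0, 0⟩,
⟨130, 41, 111, .nil, [], 0, 290, 249, 249, 190, 131, 0, 0⟩]

theorem lMEMpL6_ok : grpNL MMEM.H MMEM.A SMEM (phs 2382 lMEMp6) lMEMpL6 = true := by decide +kernel

/-- accumulated states -/
def lMEMp7 : List Mo := addN 2382 lMEMpL6 lMEMp6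

theorem MEMpass_lo {R : Room} {F : Board} {O : Sq} {β : Ordinal.{0}} (hF : MBase MMEM O F R) (h0 : GE (PM MMEM SMEM F O 271 2382) β) :
    GE (PM MMEM SMEM F O 106 2382) β := by
  have a0 : GEs MMEM SMEM F O β lMEMp0 := by
    intro m hm
    rw [List.mem_singleton.1 hm]
    exact h0
  have a1 := GEs.N hF MMEM_ok 2382 (by decide +kernel) lMEMpL0 lMEMpL0_ok a0
  have a2 := GEs.U hF MMEM_ok lMEMpP1 lMEMpL1 lMEMpP1_ok lMEMpL1_ok a1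
  have a3 := GEs.N hF MMEM_ok 2382 (by decide +kernel) lMEMpL2 lMEMpL2_ok a2
  have a4 := GEs.U hF MMEM_ok lMEMpP3 lMEMpL3 lMEMpP3_ok lMEMpL3_ok a3
  have a5 := GEs.N hF MMEM_ok 2382 (by decide +kernel) lMEMpL4 lMEMpL4_ok a4
  have a6 := GEs.N hF MMEM_ok 2382 (by decide +kernel) lMEMpL5 lMEMpL5_ok a5
  have a7 := GEs.N hF MMEM_ok 2382 (by decide +kernel) lMEMpL6 lMEMpL6_ok a6
  exact a7 ⟨106, 2382⟩ (ME2_membM _ (by decide +kernel))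

end Pool.Agent.Lib.H32C.Loc
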