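import Pool.Agent.Lib.H32C.TileC

/-!
# Chunk TS4: tracks
-/

set_option autoImplicit false

namespace Pool.Agent.Lib.H32C.Loc

/-- the check of a track which starts with the state number `n` -/
noncomputable def TS4_go (A : Nat) (S : List St) (N : Nat) (L : List St) : Nat → Bool :=
  List.rec (fun n => Nat.beq n (Nat.add N 1))
    (fun x _ ih n => (Nat.beq n N ||
      stOk A S N n x (headX x.L) (headY x.L) (pat A (headX x.L) (headY x.L) x.L)) &&
      ih (Nat.add n 1)) L

theorem TS4_go_cons (A : Nat) (S : List St) (N : Nat) (x : St) (L : List St) (n : Nat) :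
    TS4_go A S N (x :: L) n = ((Nat.beq n N ||
      stOk A S N n x (headX x.L) (headY x.L) (pat A (headX x.L) (headY x.L) x.L)) &&
      TS4_go A S N L (n + 1)) := rfl

theorem TS4_nth_succ (x : St) (L : List St) (j : Nat) :
    St.nth (x :: L) (j + 1) = St.nth L j := rfl

theorem TS4_nth_zero (x : St) (L : List St) : St.nth (x :: L) 0 = x.L := rfl

/-- what the check of a track says -/
theorem TS4_spec {A : Nat} {S : List St} {N : Nat} (L : List St) (m : Nat)
    (h : TS4_go A S N L m = true) (j : Nat) (hj : m + j < N) :
    ∃ x : St, St.nth L j = x.L ∧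
      stOk A S N (m + j) x (headX x.L) (headY x.L) (pat A (headX x.L) (headY x.L) x.L) = true := by
  induction L generalizing m j with
  | nil =>
    have h1 : m = N + 1 := Nat.eq_of_beq_eq_true h
    omega
  | cons x L ih =>
    rw [TS4_go_cons, Bool.and_eq_true, Bool.or_eq_true] at h
    obtain ⟨h1, h2⟩ := h
    cases j with
    | zero =>
      refine ⟨x, TS4_nth_zero x L, ?_⟩
      rcases h1 with h1 | h1
      · have := Nat.eq_of_beq_eq_true h1
        omega
      · exact h1
    | succ j =>
      obtain ⟨y, hy1, hy2⟩ := ih (m + 1) h2 j (by omega)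
      refine ⟨y, ?_, ?_⟩
      · rw [TS4_nth_succ]
        exact hy1
      · have h3 : m + (j + 1) = m + 1 + j := by omega
        rw [h3]
        exact hy2

theorem TS4_track {A : Nat} {S : List St} {N : Nat} (h : trackOk A S N = true) (n : Nat)
    (hn : n < N) : ∃ x : St, St.nth S n = x.L ∧
      stOk A S N n x (headX x.L) (headY x.L) (pat A (headX x.L) (headY x.L) x.L) = true := by
  have h1 := TS4_spec S 0 h n (by omega)
  rw [Nat.zero_add] at h1
  exact h1

/-- chunk TS4: **a track, upper bound** -/
theorem track_hasValue {A : Nat} {O : Sq} {F : Board} (hF : Fits A O F) (R : Room)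
    (hR : ∀ s ∈ TileReg O, s ∉ R.Z) (hG : R.G F) {S : List St} {N : Nat}
    (h : trackOk A S N = true) (hv : HasValue ⟨stB F O (St.nth S N), false⟩) (n : Nat)
    (hn : n ≤ N) : HasValue ⟨stB F O (St.nth S n), false⟩ := by
  have key : ∀ k, ∀ n, n ≤ N → N - n ≤ k → HasValue ⟨stB F O (St.nth S n), false⟩ := by
    intro k
    induction k with
    | zero =>
      intro n h1 h2
      have : n = N := by omega
      rw [this]
      exact hv
    | succ k ih =>
      intro n h1 h2
      rcases Nat.lt_or_ge n N with h3 | h3
      · obtain ⟨x, hx, hx2⟩ := TS4_track h n h3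
        rw [hx]
        exact st_hasValue hF R hR hG hx2 fun m hm hmN => ih m hmN (by omega)
      · have : n = N := by omega
        rw [this]
        exact hv
  exact key _ n hn le_rfl

/-- chunk TS4: **a track, lower bound** -/
theorem track_ge {A : Nat} {O : Sq} {F : Board} (hF : Fits A O F) (R : Room)
    (hR : ∀ s ∈ TileReg O, s ∉ R.Z) (hG : R.G F) {S : List St} {N : Nat}
    (h : trackOk A S N = true) {β : Ordinal.{0}} (hv : GE ⟨stB F O (St.nth S N), false⟩ β)
    (n : Nat) (hn : n ≤ N) : GE ⟨stB F O (St.nth S n), false⟩ β := by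
  have key : ∀ k, ∀ n, n ≤ N → N - n ≤ k → GE ⟨stB F O (St.nth S n), false⟩ β := by
    intro k
    induction k with
    | zero =>
      intro n h1 h2
      have : n = N := by omega
      rw [this]
      exact hv
    | succ k ih =>
      intro n h1 h2
      rcases Nat.lt_or_ge n N with h3 | h3
      · obtain ⟨x, hx, hx2⟩ := TS4_track h n h3
        rw [hx]
        exact st_ge hF R hR hG hx2 (ih (n + 1) (by omega) (by omega))
      · have : n = N := by omega
        rw [this]
        exact hv
  exact key _ n hn le_rfl

end Pool.Agent.Lib.H32C.Loc
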