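import Pool.Agent.Lib.H32C.DatC
import Pool.Agent.Lib.H32C.TdCH
import Pool.Agent.Lib.H32C.TdCLa
import Pool.Agent.Lib.H32C.TdCLb
import Pool.Agent.Lib.H32C.TdCLc
import Pool.Agent.Lib.H32C.TdCLd
import Pool.Agent.Lib.H32C.TdCRa
import Pool.Agent.Lib.H32C.TdCRb
import Pool.Agent.Lib.H32C.TdCRc
import Pool.Agent.Lib.H32C.TdCRd
import Pool.Agent.Lib.H32C.TdHALT
import Pool.Agent.Lib.H32C.TdMEMa
import Pool.Agent.Lib.H32C.TdMEMb
import Pool.Agent.Lib.H32C.TdMEMc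
import Pool.Agent.Lib.H32C.TdMEMd
import Pool.Agent.Lib.H32C.TdMEMe
import Pool.Agent.Lib.H32C.TdMEMf
import Pool.Agent.Lib.H32C.TileD

/-!
# The data of the tiles: the facts about tiles
-/

set_option autoImplicit false

namespace Pool.Agent.Lib.H32C.Ly

open Loc

theorem imp_track {A : ℕ} {O : Sq} {F : Board} {R : Room} (hF : Fits A O F)
    (hR : ∀ s ∈ TileReg O, s ∉ R.Z) (hG : R.G F) {S : List St} {N : ℕ} (h : trackOk A S N = true)
    {L L' : List Pc} (e : St.nth S 0 = L) (e' : St.nth S N = L') : Imp (ps F O L) (ps F O L') := by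
  subst e e'
  exact ⟨fun hv => track_hasValue hF R hR hG h hv 0 (Nat.zero_le N),
    fun β hv => track_ge hF R hR hG h hv 0 (Nat.zero_le N)⟩

/-- the wires -/
def wireL : List ℕ := [8, 13, 18, 23, 24, 28, 33, 37, 43, 47, 50, 54, 56, 59, 61, 63, 64, 67, 69, 71]

def wireB : Bool := allN (fun k => allN (fun d => !Nat.blt (out k d) 4 ||
  memb (Nat.add (Nat.mul 4 k) d) wireL) 4) 42

theorem wireB_true : wireB = true := by decide +kernel

theorem wire_mem {k d : ℕ} (hk : k < 42) (hd : d < 4) (ho : out k d < 4) : 4 * k + d ∈ wireL := by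
  have h1 := (allN_iff _ _).1 ((allN_iff _ _).1 wireB_true k hk) d hd
  exact memb_iff.1 (imp_of h1 (blt_iff'.2 ho))

variable {A0 A1 A3 : ℕ}

/-- **Wires.** -/
theorem dD_wire (k d : ℕ) (hk : k < 42) (hd : d < 4) (ho : out k d < 4) (hr : (dD A0 A1 A3).rk k = 0)
    (O : Sq) (F : Board) {R : Room} (hF : Fits ((dD A0 A1 A3).ar k) O F)
    (hR : ∀ s ∈ TileReg O, s ∉ R.Z) (hG : R.G F) :
    Imp (ps F O (Loc.ent (dir d))) (ps F O (Loc.ext (dir (out k d)))) := by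
  have h1 := wire_mem hk hd ho
  simp only [wireL, List.mem_cons, List.not_mem_nil, or_false] at h1
  rcases h1 with h1 | h1 | h1 | h1 | h1 | h1 | h1 | h1 | h1 | h1 | h1 | h1 | h1 | h1 | h1 | h1 | h1 | h1 | h1 | h1
  · obtain ⟨rfl, rfl⟩ : k = 2 ∧ d = 0 := by omega
    exact imp_track (A := AH) hF hR hG SHR_ok rfl rfl
  · obtain ⟨rfl, rfl⟩ : k = 3 ∧ d = 1 := by omega
    exact imp_track (A := AH) hF hR hG SHL_ok rfl rfl
  · obtain ⟨rfl, rfl⟩ : k = 4 ∧ d = 2 := by omega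
    exact imp_track (A := AV) hF hR hG SVU_ok rfl rfl
  · obtain ⟨rfl, rfl⟩ : k = 5 ∧ d = 3 := by omega
    exact imp_track (A := AV) hF hR hG SVD_ok rfl rfl
  · obtain ⟨rfl, rfl⟩ : k = 6 ∧ d = 0 := by omega
    exact imp_track (A := ARD) hF hR hG SRDR_ok rfl rfl
  · obtain ⟨rfl, rfl⟩ : k = 7 ∧ d = 0 := by omega
    exact imp_track (A := ARU) hF hR hG SRUR_ok rfl rfl
  · obtain ⟨rfl, rfl⟩ : k = 8 ∧ d = 1 := by omega
    exact imp_track (A := ALD) hF hR hG SLDL_ok rfl rfl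
  · obtain ⟨rfl, rfl⟩ : k = 9 ∧ d = 1 := by omega
    exact imp_track (A := ALU) hF hR hG SLUL_ok rfl rfl
  · obtain ⟨rfl, rfl⟩ : k = 10 ∧ d = 3 := by omega
    exact imp_track (A := ADR) hF hR hG SDRD_ok rfl rfl
  · obtain ⟨rfl, rfl⟩ : k = 11 ∧ d = 3 := by omega
    exact imp_track (A := ADL) hF hR hG SDLD_ok rfl rfl
  · obtain ⟨rfl, rfl⟩ : k = 12 ∧ d = 2 := by omega
    exact imp_track (A := AUR) hF hR hG SURU_ok rfl rfl
  · obtain ⟨rfl, rfl⟩ : k = 13 ∧ d = 2 := by omega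
    exact imp_track (A := AUL) hF hR hG SULU_ok rfl rfl
  · obtain ⟨rfl, rfl⟩ : k = 14 ∧ d = 0 := by omega
    exact absurd (show (11 : ℕ) = 0 from hr) (by decide)
  · obtain ⟨rfl, rfl⟩ : k = 14 ∧ d = 3 := by omega
    exact absurd (show (11 : ℕ) = 0 from hr) (by decide)
  · obtain ⟨rfl, rfl⟩ : k = 15 ∧ d = 1 := by omega
    exact absurd (show (11 : ℕ) = 0 from hr) (by decide)
  · obtain ⟨rfl, rfl⟩ : k = 15 ∧ d = 3 := by omega
    exact absurd (show (11 : ℕ) = 0 from hr) (by decide)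
  · obtain ⟨rfl, rfl⟩ : k = 16 ∧ d = 0 := by omega
    exact imp_track (A := AMR) hF hR hG SMRR_ok rfl rfl
  · obtain ⟨rfl, rfl⟩ : k = 16 ∧ d = 3 := by omega
    exact imp_track (A := AMR) hF hR hG SMRD_ok rfl rfl
  · obtain ⟨rfl, rfl⟩ : k = 17 ∧ d = 1 := by omega
    exact imp_track (A := AML) hF hR hG SMLL_ok rfl rfl
  · obtain ⟨rfl, rfl⟩ : k = 17 ∧ d = 3 := by omega
    exact imp_track (A := AML) hF hR hG SMLD_ok rfl rfl

/-- **Crossings.** -/
theorem dD_cross (k d : ℕ) (hk : k < 42) (hd : d < 4) (ho : out k d < 4) (hr : (dD A0 A1 A3).rk k ≠ 0)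
    (O : Sq) (F : Board) {R : Room} (hM : MBase (mtK (dD A0 A1 A3) k 80 ((dD A0 A1 A3).ar k)) O F R) :
    Imp (ps (FM (mtK (dD A0 A1 A3) k 80 ((dD A0 A1 A3).ar k)) F O ((dD A0 A1 A3).r k)) O (Loc.ent (dir d)))
      (ps (FM (mtK (dD A0 A1 A3) k 80 ((dD A0 A1 A3).ar k)) F O ((dD A0 A1 A3).r k)) O
        (Loc.ext (dir (out k d)))) := by
  have h1 := wire_mem hk hd ho
  have h2 := rk_of hr
  simp only [wireL, List.mem_cons, List.not_mem_nil, or_false] at h1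
  have h3 : (k = 14 ∧ d = 0) ∨ (k = 14 ∧ d = 3) ∨ (k = 15 ∧ d = 1) ∨ (k = 15 ∧ d = 3) := by omega
  rcases h3 with ⟨rfl, rfl⟩ | ⟨rfl, rfl⟩ | ⟨rfl, rfl⟩ | ⟨rfl, rfl⟩
  · have hM' : MBase MCR O F R := hM
    exact ⟨fun hv => CRR_up hM' hv, fun β hv => CRR_lo hM' hv⟩
  · have hM' : MBase MCR O F R := hM
    exact ⟨fun hv => CRD_up hM' hv, fun β hv => CRD_lo hM' hv⟩
  · have hM' : MBase MCL O F R := hM
    exact ⟨fun hv => CLL_up hM' hv, fun β hv => CLL_lo hM' hv⟩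
  · have hM' : MBase MCL O F R := hM
    exact ⟨fun hv => CLD_up hM' hv, fun β hv => CLD_lo hM' hv⟩

/-- composite arrays -/
theorem cmp_mem : cmpB AMEML AMEMU AMEM = true := by decide +kernel

theorem cmp_cho : cmpB ACHL ACHU ACH = true := by decide +kernel

theorem cmp_tou : cmpB ATL ATU AT = true := by decide +kernel

theorem halt_win (O : Sq) (F : Board) {R : Room} (hF : Fits AHALT O F) (hR : ∀ s ∈ TileReg O, s ∉ R.Z)
    (hG : R.G F) : HasValue (ps F O (Loc.ent Dir.R)) := by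
  have h1 := imp_track hF hR hG SHALTR_ok (L := Loc.ent Dir.R) (L' := nthP LHALT 0) rfl rfl
  refine h1.1 ?_
  have hR' : ∀ s ∈ TileRegH 80 O, s ∉ R.Z := by
    rintro s ⟨g1, g2, g3, g4⟩
    exact hR s ⟨g1, g2, g3, by push_cast at g4; omega⟩
  have h2 := grpNU_hasValue WHALT_ok hF hR' hG (fun j hj => absurd hj List.not_mem_nil)
  exact h2 0 List.mem_cons_self

/-- **The facts about the tiles.** -/
theorem dD_facts (R : Room) : Facts (dD A0 A1 A3) R AMEM ACH where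
  wire k d hk hd ho hr O F hF hR hG := dD_wire k d hk hd ho hr O F hF hR hG
  cross k d hk hd ho hr O F hM := dD_cross k d hk hd ho hr O F hM
  cmem := cmpB_spec cmp_mem
  ccho := cmpB_spec cmp_cho
  set O F hM := by
    have hM' : MBase MMEM O F R := hM
    exact ⟨fun hv => MEMset_up hM' hv, fun β hv => MEMset_lo hM' hv⟩
  ret O F hM := by
    have hM' : MBase MMEM O F R := hM
    exact ⟨fun hv => MEMret_up hM' hv, fun β hv => MEMret_lo hM' hv⟩
  pass O F hM := by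
    have hM' : MBase MMEM O F R := hM
    exact ⟨fun hv => MEMpass_up hM' hv, fun β hv => MEMpass_lo hM' hv⟩
  cho_up O F hM hu hl := by
    have hM' : MBase MCH O F R := hM
    exact CH_cert.hasValue hM' hu hl
  cho_low O F β hM h := by
    have hM' : MBase MCH O F R := hM
    exact CH_cert.not_valLE hM' h
  halt O F hF hR hG := halt_win O F hF hR hG

end Pool.Agent.Lib.H32C.Ly
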