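import Pool.Agent.Lib.H32C.DatC

/-!
# The data of the tiles: walls and vertical shafts
-/

set_option autoImplicit false

namespace Pool.Agent.Lib.H32C.Ly

open Loc

/-- the offsets -/
def cD : Offs := ⟨31, 26, 27, 62, 27, 33, 32, 36, 31, 49, 1284⟩

theorem cD_ok2 : cD.Ok2 := by
  refine ⟨⟨?_, ?_, ?_, ?_, ?_, ?_, ?_, ?_, ?_, ?_⟩, ?_, ?_, ?_, ?_, ?_, ?_, ?_⟩ <;> norm_num [cD]

/-- scans from the cells `(x, Y)`, `a ≤ Y < a + n` -/
def scY (A u x a n : ℕ) : Bool :=
  allN (fun i => scn 80 A u 90 (Nat.add x (Nat.mul 80 (Nat.add a i)))) n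

/-- scans from the cells `(X, y)`, `a ≤ X < a + n` -/
def scX (A u y a n : ℕ) : Bool :=
  allN (fun i => scn 80 A u 90 (Nat.add (Nat.add a i) (Nat.mul 80 y))) n

theorem scY_spec {A u x a n : ℕ} (h : scY A u x a n = true) {Y : ℕ} (h1 : a ≤ Y) (h2 : Y < a + n) :
    scn 80 A u 90 (x + 80 * Y) = true :=
  allN_of (f := fun Y => scn 80 A u 90 (Nat.add x (Nat.mul 80 Y))) h h1 h2

theorem scX_spec {A u y a n : ℕ} (h : scX A u y a n = true) {X : ℕ} (h1 : a ≤ X) (h2 : X < a + n) :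
    scn 80 A u 90 (X + 80 * y) = true :=
  allN_of (f := fun X => scn 80 A u 90 (Nat.add X (Nat.mul 80 y))) h h1 h2

/-- the cells of a core are empty -/
def zrB (A : ℕ) : Bool := rect (fun _ _ k => Nat.beq k 0) A 8 64 8 64

/-- the cells of a core in the zone are empty -/
def cutB (A : ℕ) : Bool := rect (fun X Y k => Nat.blt (Nat.add X Y) 98 || Nat.beq k 0) A 8 64 8 64

/-- the corners of a core -/
def crnB (A : ℕ) (e : Bool) : Bool := msk 0x606 (codeA A 8 8) && (msk 0x606 (codeA A 8 71) &&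
  (msk 0x606 (codeA A 71 8) && (e || msk 0x606 (codeA A 71 71))))

theorem cutB_spec {A : ℕ} (h : cutB A = true) {X Y : ℕ} (h1 : 8 ≤ X) (h2 : X < 72) (h3 : 8 ≤ Y) (h4 : Y < 72)
    (h5 : 98 ≤ X + Y) : codeA A X Y = 0 := by
  have h6 := rect_spec h h1 (by omega) h3 (by omega)
  rw [Bool.or_eq_true] at h6
  rcases h6 with h6 | h6
  · exact absurd (blt_iff'.1 h6) (by show ¬ (X + Y < 98); omega)
  · exact Nat.eq_of_beq_eq_true h6

theorem crnB_spec {A : ℕ} {e : Bool} (h : crnB A e = true) {X Y : ℕ} (hX : X = 8 ∨ X = 71) (hY : Y = 8 ∨ Y = 71)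
    (he : e = true → ¬ (X = 71 ∧ Y = 71)) : msk 0x606 (codeA A X Y) = true := by
  unfold crnB at h
  simp only [Bool.and_eq_true] at h
  obtain ⟨h1, h2, h3, h4⟩ := h
  rcases hX with rfl | rfl <;> rcases hY with rfl | rfl
  · exact h1
  · exact h2
  · exact h3
  · cases e
    · exact h4
    · exact absurd ⟨rfl, rfl⟩ (he rfl)

/-- corners of all arrays which are not parameters -/
def crnAll : Bool := allN (fun k => par k || (Nat.beq k 1 || crnB (Loc.nth arL k) (Nat.beq k 40))) 42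

theorem crnAll_true : crnAll = true := by decide +kernel

/-- the checks of the walls -/
def wlB : Bool := ands [zrB AX, cutB AFD,
  scY AF 41 72 8 64, scY AF 61 72 8 63, scY AF 21 72 9 63,
  scY ASV 41 72 8 64, scY ASV 61 72 8 63, scY ASV 21 72 9 63,
  scY ASE 61 72 8 63, scY ASE 21 72 9 63, scY AFD 61 72 8 18,
  scY AF 43 7 8 64, scY ASV 43 7 8 64,
  scY AF 63 7 8 63, scY AF 23 7 9 63, scY ASV 63 7 8 63, scY ASV 23 7 9 63,
  scY ASW 63 7 8 63, scY ASW 23 7 9 63, scY AROOM 63 7 8 63, scY AROOM 23 7 9 63,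
  scX AF 22 72 8 64, scX AWB 22 72 8 64,
  scX AF 21 72 9 63, scX AF 23 72 8 63, scX AWB 21 72 9 63, scX AWB 23 72 8 63,
  scX ASV 21 72 9 63, scX ASV 23 72 8 63, scX ASV2 21 72 9 63, scX ASV2 23 72 8 63,
  scX AFD 23 72 8 18]

theorem wlB_true : wlB = true := by decide +kernel

/-- the checks of the walls for the arrays which are parameters -/
structure WB (A0 A1 A3 : ℕ) : Prop where
  cut : cutB A0 = true
  c0 : crnB A0 true = true
  c1 : crnB A1 false = true
  c3 : crnB A3 false = true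
  r0 : scY A0 61 72 8 18 = true
  r1 : scY A1 61 72 8 63 = true
  t0 : scX A0 23 72 8 18 = true

def wB (A0 A1 A3 : ℕ) : Bool := ands [cutB A0, crnB A0 true, crnB A1 false, crnB A3 false,
  scY A0 61 72 8 18, scY A1 61 72 8 63, scX A0 23 72 8 18]

theorem wB_iff {A0 A1 A3 : ℕ} (h : wB A0 A1 A3 = true) : WB A0 A1 A3 := by
  unfold wB at h
  simp only [TS3_ands_cons] at h
  obtain ⟨h1, h2, h3, h4, h5, h6, h7, -⟩ := h
  exact ⟨h1, h2, h3, h4, h5, h6, h7⟩

variable {A0 A1 A3 : ℕ}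

theorem cD_xy : cD.hx + cD.hy + 18 = 98 := rfl

/-- **The walls.** -/
theorem dD_wall (h : WB A0 A1 A3) : WallOk cD (dD A0 A1 A3) := by
  have h0 := wlB_true
  unfold wlB at h0
  simp only [TS3_ands_cons] at h0
  obtain ⟨x1, c40, f1, f2, f3, s1, s2, s3, e2, e3, d2, f4, s4, f5, f6, s5, s6, w5, w6, r5, r6, f7, b7, f8, f9,
    b8, b9, s8, s9, t8, t9, d9, -⟩ := h0
  constructor
  · intro X Y h1 h2 h3 h4
    exact Nat.eq_of_beq_eq_true (rect_spec x1 h1 (by omega) h3 (by omega))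
  · intro k hk X Y h1 h2 h3 h4 h5
    rw [cD_xy] at h5
    rcases hk with rfl | rfl
    · exact cutB_spec h.cut h1 h2 h3 h4 (by omega)
    · exact cutB_spec c40 h1 h2 h3 h4 (by omega)
  · intro k hk k1 X Y hX hY he
    by_cases hp : par k = true
    · rcases par_of hp with rfl | rfl | rfl
      · exact crnB_spec h.c0 hX hY fun _ => he (Or.inl rfl)
      · exact crnB_spec h.c1 hX hY fun h9 => Bool.noConfusion h9
      · exact crnB_spec h.c3 hX hY fun h9 => Bool.noConfusion h9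
    · rw [Bool.not_eq_true] at hp
      have h1 := or_np ((allN_iff _ _).1 crnAll_true k hk) hp
      rw [Bool.or_eq_true, Nat.beq_eq] at h1
      rw [ar_np hp]
      exact crnB_spec (h1.resolve_left k1) hX hY fun h9 => he (Or.inr (Nat.eq_of_beq_eq_true h9))
  · intro k hk Y h1 h2
    rcases hk with rfl | rfl
    · exact ⟨scY_spec f1 h1 (by omega), fun h3 => scY_spec f2 h1 (by omega),
        fun h3 => scY_spec f3 (by omega) (by omega)⟩
    · exact ⟨scY_spec s1 h1 (by omega), fun h3 => scY_spec s2 h1 (by omega),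
        fun h3 => scY_spec s3 (by omega) (by omega)⟩
  · intro Y h1 h2
    exact ⟨fun h3 => scY_spec e2 h1 (by omega), fun h3 => scY_spec e3 (by omega) (by omega)⟩
  · intro k hk Y h1 h2 h3
    rw [cD_xy] at h3
    rcases hk with rfl | rfl | rfl
    · have h4 := h3 (by decide)
      exact scY_spec h.r0 h1 (by omega)
    · exact scY_spec h.r1 h1 (by omega)
    · have h4 := h3 (by decide)
      exact scY_spec d2 h1 (by omega)
  · intro k hk Y h1 h2
    rcases hk with rfl | rfl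
    · exact scY_spec f4 h1 (by omega)
    · exact scY_spec s4 h1 (by omega)
  · intro k hk Y h1 h2
    rcases hk with rfl | rfl | rfl | rfl
    · exact ⟨fun h3 => scY_spec f5 h1 (by omega), fun h3 => scY_spec f6 (by omega) (by omega)⟩
    · exact ⟨fun h3 => scY_spec s5 h1 (by omega), fun h3 => scY_spec s6 (by omega) (by omega)⟩
    · exact ⟨fun h3 => scY_spec w5 h1 (by omega), fun h3 => scY_spec w6 (by omega) (by omega)⟩
    · exact ⟨fun h3 => scY_spec r5 h1 (by omega), fun h3 => scY_spec r6 (by omega) (by omega)⟩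
  · intro k hk X h1 h2
    rcases hk with rfl | rfl
    · exact scX_spec f7 h1 (by omega)
    · exact scX_spec b7 h1 (by omega)
  · intro k hk X h1 h2
    rcases hk with rfl | rfl | rfl | rfl
    · exact ⟨fun h3 => scX_spec f8 (by omega) (by omega), fun h3 => scX_spec f9 h1 (by omega)⟩
    · exact ⟨fun h3 => scX_spec b8 (by omega) (by omega), fun h3 => scX_spec b9 h1 (by omega)⟩
    · exact ⟨fun h3 => scX_spec s8 (by omega) (by omega), fun h3 => scX_spec s9 h1 (by omega)⟩
    · exact ⟨fun h3 => scX_spec t8 (by omega) (by omega), fun h3 => scX_spec t9 h1 (by omega)⟩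
  · intro k hk X h1 h2 h3
    rw [cD_xy] at h3
    rcases hk with rfl | rfl
    · exact scX_spec h.t0 h1 (by omega)
    · exact scX_spec d9 h1 (by omega)

/-! ### Shafts and windows -/

/-- the checks of the shafts -/
def shB : Bool := ands [
  rect (fun _ _ k => msk 0x600 k) ASV 38 1 8 64, rect (fun _ _ k => msk 0x600 k) ASV 40 1 8 64,
  rect (fun _ _ k => Nat.beq k 0) ATU 39 1 8 64, rect (fun _ _ k => Nat.beq k 0) ATL 39 1 8 64,
  rect (fun _ _ k => Nat.beq k 0) ASV 39 1 8 64,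
  rect (fun _ _ k => !Nat.beq k 2) ATU 37 5 8 64, rect (fun _ _ k => !Nat.beq k 2) ATL 37 5 8 64,
  rect (fun _ _ k => !Nat.beq k 2) ASV 37 5 8 64,
  rect (fun _ _ k => Nat.beq k 0) ASV2 38 1 8 64, rect (fun _ _ k => msk 0x600 k) ASV2 37 1 8 64,
  rect (fun _ _ k => msk 0x600 k) ASV2 39 1 8 64, rect (fun _ _ k => !Nat.beq k 2) ASV2 36 5 8 64,
  cmpB ATL ATU AT,
  allN (fun y => [43, 41, 63, 61, 21, 23].all fun u => (Nat.beq y 121 && (Nat.beq u 63 || Nat.beq u 61)) ||
    scg 144 AT 1040 1000 (tmk u 62) u 90 (Nat.add 39 (Nat.mul 80 (Nat.add 14 y)))) 122,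
  msk 0x606 (codeA ATU 38 71), msk 0x606 (codeA ATU 40 71)]

theorem shB_true : shB = true := by decide +kernel

/-- **The vertical shafts.** -/
theorem dD_shaft : ShaftV (dD A0 A1 A3) AT 39 := by
  have h0 := shB_true
  unfold shB at h0
  simp only [TS3_ands_cons] at h0
  obtain ⟨a1, a2, c1, c2, c3, k1, k2, k3, s1, s2, s3, s4, cm, ts, t1, t2, -⟩ := h0
  constructor
  · omega
  · intro Y h1 h2
    exact ⟨rect_spec a1 (X := 38) (by omega) (by omega) h1 (by omega),
      rect_spec a2 (X := 40) (by omega) (by omega) h1 (by omega)⟩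
  · intro k hk Y h1 h2
    rcases hk with rfl | rfl | rfl
    · exact Nat.eq_of_beq_eq_true (rect_spec c1 (X := 39) (by omega) (by omega) h1 (by omega))
    · exact Nat.eq_of_beq_eq_true (rect_spec c2 (X := 39) (by omega) (by omega) h1 (by omega))
    · exact Nat.eq_of_beq_eq_true (rect_spec c3 (X := 39) (by omega) (by omega) h1 (by omega))
  · intro k hk X Y g1 g2 h1 h2
    rcases hk with rfl | rfl | rfl
    · exact beq_ne_of (rect_spec k1 (by omega) (by omega) h1 (by omega))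
    · exact beq_ne_of (rect_spec k2 (by omega) (by omega) h1 (by omega))
    · exact beq_ne_of (rect_spec k3 (by omega) (by omega) h1 (by omega))
  · intro Y h1 h2
    exact ⟨Nat.eq_of_beq_eq_true (rect_spec s1 (X := 38) (by omega) (by omega) h1 (by omega)),
      rect_spec s2 (X := 37) (by omega) (by omega) h1 (by omega),
      rect_spec s3 (X := 39) (by omega) (by omega) h1 (by omega)⟩
  · intro X Y g1 g2 h1 h2
    exact beq_ne_of (rect_spec s4 (by omega) (by omega) h1 (by omega))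
  · exact cmpB_spec cm
  · intro Y h1 h2 u hu
    obtain ⟨y, rfl⟩ : ∃ y, Y = 14 + y := ⟨Y - 14, by omega⟩
    have h3 := List.all_eq_true.1 ((allN_iff _ _).1 ts y (by omega)) u hu
    simp only [Bool.or_eq_true, Bool.and_eq_true, Nat.beq_eq] at h3
    rcases h3 with ⟨h3, h4⟩ | h3
    · exact Or.inl ⟨by omega, h4⟩
    · exact Or.inr h3
  · exact ⟨t1, t2⟩

/-- the checks of the windows -/
def wnB : Bool := ands [
  rect (fun _ _ k => Nat.beq k 0) AWN 39 1 34 38, rect (fun _ _ k => Nat.beq k 0) AWN2 38 1 35 37,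
  allN (fun y => Nat.beq (codeA AT 39 (Nat.add 70 y)) 0) 66,
  scw 80 AWN 22 90 2759, scw 80 AWN2 22 90 2838, Nat.beq (codeA AWN 39 33) 9, msk 0x606 (codeA AWN 39 32),
  allN (fun y => [43, 41, 63, 61, 21, 23].all fun u =>
    sch 80 AWN 5360 (bmk u) u 90 (Nat.add 39 (Nat.mul 80 (Nat.add 34 y)))) 32,
  rect (fun _ _ k => Nat.beq k 0) AWE 35 37 41 1, rect (fun _ _ k => Nat.beq k 0) AWW 8 33 44 1,
  scw 80 AWE 41 90 3315, scw 80 AWW 43 90 3560,
  rect (fun _ _ k => Nat.beq k 0) ASE 8 64 41 1, rect (fun _ _ k => msk 0x600 k) ASE 8 64 40 1,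
  rect (fun _ _ k => msk 0x600 k) ASE 8 64 42 1, rect (fun _ _ k => !Nat.beq k 2) ASE 8 64 39 5,
  rect (fun _ _ k => Nat.beq k 0) ASW 8 64 44 1, rect (fun _ _ k => msk 0x600 k) ASW 8 64 43 1,
  rect (fun _ _ k => msk 0x600 k) ASW 8 64 45 1, rect (fun _ _ k => !Nat.beq k 2) ASW 8 64 42 5]

theorem wnB_true : wnB = true := by decide +kernel

theorem wnB_all : ∀ b ∈ [
  rect (fun _ _ k => Nat.beq k 0) AWN 39 1 34 38, rect (fun _ _ k => Nat.beq k 0) AWN2 38 1 35 37], b = true := by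
  have h0 := wnB_true
  unfold wnB at h0
  simp only [TS3_ands_cons] at h0
  obtain ⟨n1, a1, -⟩ := h0
  simp [n1, a1]

/-- **The windows in vertical shafts.** -/
theorem dD_winF : WinF (dD A0 A1 A3) AT 2759 2838 5639 := by
  have h0 := wnB_true
  unfold wnB at h0
  simp only [TS3_ands_cons] at h0
  obtain ⟨n1, a1, t1, n2, a2, b1, b2, -⟩ := h0
  refine ⟨⟨by norm_num, ?_⟩, ⟨by norm_num, ?_⟩, ⟨by norm_num, ?_⟩, n2, a2, Nat.eq_of_beq_eq_true b1, b2, by norm_num⟩
  · intro Y h1 h2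
    exact Nat.eq_of_beq_eq_true (rect_spec n1 (X := 39) (by omega) (by omega) (by omega) (by omega))
  · intro Y h1 h2
    exact Nat.eq_of_beq_eq_true (rect_spec a1 (X := 38) (by omega) (by omega) (by omega) (by omega))
  · intro Y h1 h2
    exact Nat.eq_of_beq_eq_true (allN_of (f := fun Y => Nat.beq (codeA AT 39 Y) 0) t1 (by omega) (by omega))

/-- **The file of the window below a touch.** -/
theorem dD_touF : TouF (dD A0 A1 A3) 2759 := by
  have h0 := wnB_true
  unfold wnB at h0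
  simp only [TS3_ands_cons] at h0
  obtain ⟨-, -, -, -, -, -, -, s, -⟩ := h0
  refine ⟨by norm_num, ?_⟩
  intro Y h1 h2 u hu
  obtain ⟨y, rfl⟩ : ∃ y, Y = 34 + y := ⟨Y - 34, by omega⟩
  exact List.all_eq_true.1 ((allN_iff _ _).1 s y (by omega)) u hu

/-- **The windows in horizontal shafts.** -/
theorem dD_winE : WinE (dD A0 A1 A3) 3315 3560 := by
  have h0 := wnB_true
  unfold wnB at h0
  simp only [TS3_ands_cons] at h0
  obtain ⟨-, -, -, -, -, -, -, -, e1, w1, e2, w2, e3, e4, e5, e6, w3, w4, w5, w6, -⟩ := h0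
  refine ⟨⟨by norm_num, by norm_num, ?_, e2⟩, ⟨?_, ?_⟩, ⟨by norm_num, by norm_num, ?_, w2⟩, ⟨?_, ?_⟩⟩
  · intro X h1 h2 h3
    exact Nat.eq_of_beq_eq_true (rect_spec e1 (Y := 41) (by omega) (by omega) (by omega) (by omega))
  · intro X h1 h2
    exact ⟨Nat.eq_of_beq_eq_true (rect_spec e3 (Y := 41) h1 (by omega) (by omega) (by omega)),
      rect_spec e4 (Y := 40) h1 (by omega) (by omega) (by omega),
      rect_spec e5 (Y := 42) h1 (by omega) (by omega) (by omega)⟩
  · intro X Y h1 h2 h3 h4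
    exact beq_ne_of (rect_spec e6 h1 (by omega) (by omega) (by omega))
  · intro X h1 h2 h3
    exact Nat.eq_of_beq_eq_true (rect_spec w1 (Y := 44) (by omega) (by omega) (by omega) (by omega))
  · intro X h1 h2
    exact ⟨Nat.eq_of_beq_eq_true (rect_spec w3 (Y := 44) h1 (by omega) (by omega) (by omega)),
      rect_spec w4 (Y := 43) h1 (by omega) (by omega) (by omega),
      rect_spec w5 (Y := 45) h1 (by omega) (by omega) (by omega)⟩
  · intro X Y h1 h2 h3 h4
    exact beq_ne_of (rect_spec w6 h1 (by omega) (by omega) (by omega))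

/-- **The special squares.** -/
theorem dD_zs : Zs cD 39 2759 2838 5639 3315 3560 := by
  constructor <;> norm_num [cD]

end Pool.Agent.Lib.H32C.Ly
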