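import Pool.Agent.Lib.H32C.DatF

/-!
# The data of the tiles: the lines of the services `Bin` and `Out`

`A0`, `A1`, `A3` are the arrays of the kinds `35`, `36`, `38`, `tb` is the composite array of the first two.
-/

set_option autoImplicit false

namespace Pool.Agent.Lib.H32C.Ly

open Loc

/-- conjunction over the numbers `a + i`, `i < n` -/
def allF (f : ℕ → Bool) (a n : ℕ) : Bool := allN (fun i => f (Nat.add a i)) n

theorem allF_of {f : ℕ → Bool} {a n : ℕ} (h : allF f a n = true) {X : ℕ} (h1 : a ≤ X) (h2 : X < a + n) :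
    f X = true := allN_of h h1 h2

/-- The checks which do not depend on parameters. -/
def bnB : Bool := ands [
  allF (fun t => Nat.beq (codeA AWB (Nat.sub 43 t) (Nat.add 53 t)) 0) 0 19,
  Nat.beq (codeA AWB 43 53) 0, msk 0x600 (codeA AWB 44 52),
  allF (fun Y => sdB.all fun u => (Nat.beq Y 71 && (Nat.beq u 62 || Nat.beq u 63)) ||
    scg 80 AWB 5520 1000 (tmk u 61) u 90 (Nat.add (Nat.sub 96 Y) (Nat.mul 80 Y))) 70 2,
  allF (fun X => scg 80 AWB 5520 1000 (tmk 22 61) 22 90 (Nat.add X 5760)) 8 64,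
  allF (fun X => scg 80 AWB 5520 1000 (tmk 21 61) 21 90 (Nat.add X 5760)) 9 63,
  allF (fun X => scg 80 AF 5520 1000 (tmk 22 61) 22 90 (Nat.add X 5760)) 8 64,
  allF (fun X => scg 80 AF 5520 1000 (tmk 21 61) 21 90 (Nat.add X 5760)) 9 63,
  allF (fun Y => Nat.beq Y 41 || scn 80 ASE 41 90 (Nat.add 72 (Nat.mul 80 Y))) 8 64,
  scn 80 AWE 41 90 3315,
  allF (fun Y => knL.all fun q => Nat.ble 74 (Nat.add Y q.2) ||
    !Nat.beq (codeA AWB (Nat.sub (Nat.add 160 q.1) (Nat.add Y 66)) (Nat.sub (Nat.add Y q.2) 2)) 2) 70 4,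
  allF (fun Y => !Nat.beq (codeA AWB (Nat.sub 96 Y) (Nat.sub Y 1)) 1) 70 3,
  msk 0x600 (codeA AWN 39 33),
  allF (fun Y => scn 80 AFD 41 90 (Nat.add 72 (Nat.mul 80 Y))) 8 19,
  allF (fun X => scn 80 AFD 41 90 (Nat.add (Nat.add X 1) (Nat.mul 80 (Nat.sub 97 X)))) 26 46]

theorem bnB_true : bnB = true := by decide +kernel

/-- the checks of the line of `Bin` in the composite array -/
def bpB (tb A0 A1 : ℕ) : Bool := ands [cmpB A1 A0 tb,
  allF (fun X => Nat.beq (codeA tb X (Nat.sub 160 X)) 0) 39 33,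
  allF (fun X => sdB.all fun u => (Nat.beq X 71 && Nat.beq u 43) || ((Nat.beq X 39 && Nat.beq u 22) ||
    scg 144 tb 0 (zsB 39 121 u) (tmk u 61) u 150 (Nat.add X (Nat.mul 80 (Nat.sub 160 X))))) 39 33,
  allF (fun Y => scg 144 tb 0 1000 (tmk 41 61) 41 150 (Nat.add 72 (Nat.mul 80 Y))) 8 81,
  allF (fun Y => scg 144 tb 0 1000 (tmk 21 61) 21 150 (Nat.add 72 (Nat.mul 80 Y))) 9 80,
  msk 0x600 (codeA tb 38 122), msk 0x1616 (codeA tb 37 123), !Nat.beq (codeA A0 38 56) 1,
  allF (fun X => knL.all fun q => Nat.ble 74 (Nat.add X q.1) ||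
    !Nat.beq (codeA A0 (Nat.sub (Nat.add X q.1) 2) (Nat.sub (Nat.add 160 q.2) (Nat.add X 66))) 2) 39 35,
  allF (fun X => !Nat.beq (codeA A0 X (Nat.sub 95 X)) 1) 39 33]

/-- the checks of the column of the home in the composite array -/
def opB (tb A0 A1 : ℕ) : Bool := ands [
  allF (fun Y => Nat.beq (codeA tb 39 Y) 0) 8 114,
  allF (fun Y => sdO.all fun u => (Nat.beq Y 121 && Nat.beq u 23) ||
    scg 144 tb 1040 (zsO 39 121 u) (tmk u 62) u 150 (Nat.add 39 (Nat.mul 80 Y))) 14 108,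
  Nat.beq (codeA tb 39 122) 12, Nat.beq (codeA tb 38 120) 10,
  [(61, 62), (21, 62), (23, 62), (41, 61)].all fun p =>
    scg 144 tb 0 1000 (tmk p.1 p.2) p.1 150 9799,
  allF (fun Y => knL.all fun q =>
    (Nat.ble 74 (Nat.add Y q.2) || !Nat.beq (codeA A1 (Nat.sub (Nat.add 39 q.1) 2) (Nat.sub (Nat.add Y q.2) 2)) 2) &&
    (Nat.blt (Nat.add Y q.2) 74 ||
      !Nat.beq (codeA A0 (Nat.sub (Nat.add 39 q.1) 2) (Nat.sub (Nat.add Y q.2) 66)) 2)) 14 109,
  !Nat.beq (codeA A0 38 57) 1, !Nat.beq (codeA A0 40 57) 1]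

/-- the checks of the ray; `A` is the composite array with unknown cells on the rays from the home -/
def tpB (tb A A0 A1 : ℕ) : Bool := ands [cmpB A1 A0 A,
  allF (fun t => Nat.beq (codeA A (Nat.add 39 t) (Nat.add 121 t)) 15) 0 23,
  allF (fun t => Nat.beq (codeA A (Nat.add 39 t) (Nat.sub 121 t)) 15) 0 41,
  allF (fun Y => scg 144 tb 0 1000 (tmk 41 61) 41 150 (Nat.add (Nat.sub 162 Y) (Nat.mul 80 Y))) 122 14,
  allF (fun X => scg 144 tb 0 1000 (tmk 22 61) 22 150 (Nat.add X (Nat.mul 80 (Nat.sub 162 X)))) 40 32,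
  !Nat.beq (codeA A0 38 57) 2, !Nat.beq (codeA A0 38 59) 2, !Nat.beq (codeA A0 41 56) 2,
  !Nat.beq (codeA A0 40 57) 2]

variable {A0 A1 A3 tb A : ℕ}

/-- **The offsets of the services `Bin` and `Out`.** -/
theorem dD_hs : Hs cD 39 121 4283 1 := by
  constructor <;> norm_num [cD]


/-- **The line of `Bin`.** -/
theorem dD_binF (h : bpB tb A0 A1 = true) : BinF (dD A0 A1 A3) tb 39 121 4283 1 3315 := by
  have h0 := bnB_true
  unfold bnB at h0
  simp only [TS3_ands_cons] at h0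
  obtain ⟨n1, n2, n3, n4, n5, n6, n7, n8, n9, n10, -⟩ := h0
  unfold bpB at h
  simp only [TS3_ands_cons] at h
  obtain ⟨p1, p2, p3, p4, p5, -⟩ := h
  refine ⟨cmpB_spec p1, by norm_num, ?_, ?_, ⟨by norm_num, by norm_num, n3⟩, ?_, ?_, ?_, ?_, ?_, ?_, ?_, n10⟩
  · intro t ht
    exact Nat.eq_of_beq_eq_true (allF_of n1 (X := t) (by omega) (by omega))
  · intro t ht
    obtain rfl : t = 0 := by omega
    exact Nat.eq_of_beq_eq_true n2
  · intro Y h1 h2 u hu
    have h3 := List.all_eq_true.1 (allF_of n4 h1 (by omega)) u hu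
    simp only [Bool.or_eq_true, Bool.and_eq_true, Nat.beq_eq] at h3
    exact h3
  · intro X h1 h2
    exact ⟨allF_of n5 h1 (by omega), fun h3 => allF_of n6 (X := X) (by omega) (by omega)⟩
  · intro X h1 h2
    exact ⟨allF_of n7 h1 (by omega), fun h3 => allF_of n8 (X := X) (by omega) (by omega)⟩
  · intro X h1 h2
    exact Nat.eq_of_beq_eq_true (allF_of p2 h1 (by omega))
  · intro X h1 h2 u hu
    have h3 := List.all_eq_true.1 (allF_of p3 h1 (by omega)) u hu
    simp only [Bool.or_eq_true, Bool.and_eq_true, Nat.beq_eq] at h3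
    exact h3
  · intro Y h1 h2
    exact ⟨allF_of p4 h1 (by omega), fun h3 => allF_of p5 (X := Y) (by omega) (by omega)⟩
  · intro Y h1 h2 h3
    have h4 := allF_of n9 h1 (by omega)
    rw [Bool.or_eq_true, Nat.beq_eq] at h4
    exact h4.resolve_left h3

theorem dD_binG (h : bpB tb A0 A1 = true) : BinG (dD A0 A1 A3) tb 39 121 4283 1 := by
  have h0 := bnB_true
  unfold bnB at h0
  simp only [TS3_ands_cons] at h0
  obtain ⟨-, -, -, -, -, -, -, -, -, -, n1, n2, -⟩ := h0
  unfold bpB at h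
  simp only [TS3_ands_cons] at h
  obtain ⟨-, -, -, -, -, p1, p2, p3, p4, p5, -⟩ := h
  refine ⟨p1, p2, beq_ne_of p3, ?_, ?_, ?_, ?_⟩
  · intro X h1 h2 q hq h3
    have h4 := List.all_eq_true.1 (allF_of p4 h1 (by omega)) q hq
    rw [Bool.or_eq_true] at h4
    rcases h4 with h4 | h4
    · have h5 : 74 ≤ X + q.1 := Nat.le_of_ble_eq_true h4
      omega
    · exact beq_ne_of h4
  · intro Y h1 h2 q hq h3
    have h4 := List.all_eq_true.1 (allF_of n1 h1 (by omega)) q hq
    rw [Bool.or_eq_true] at h4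
    rcases h4 with h4 | h4
    · have h5 : 74 ≤ Y + q.2 := Nat.le_of_ble_eq_true h4
      omega
    · exact beq_ne_of h4
  · intro X h1 h2
    have h4 := beq_ne_of (allF_of p5 h1 (by omega))
    rwa [show 39 + 121 - (X + 65) = Nat.sub 95 X by show _ = 95 - X; omega]
  · intro Y h1 h2
    have h4 := beq_ne_of (allF_of n2 h1 (by omega))
    rwa [show 39 + 121 - (Y + 64) = Nat.sub 96 Y by show _ = 96 - Y; omega]

/-- **The column of the home.** -/
theorem dD_colF (h : opB tb A0 A1 = true) : ColF (dD A0 A1 A3) tb 39 121 2759 := by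
  have h0 := bnB_true
  unfold bnB at h0
  simp only [TS3_ands_cons] at h0
  obtain ⟨-, -, -, -, -, -, -, -, -, -, -, -, n1, -⟩ := h0
  unfold opB at h
  simp only [TS3_ands_cons] at h
  obtain ⟨p1, -⟩ := h
  refine ⟨by norm_num, ?_, ?_, n1⟩
  · intro Y h1 h2
    exact Nat.eq_of_beq_eq_true (allF_of p1 h1 (by omega))
  · intro Y h1 h2
    have h3 := dD_winF (A0 := A0) (A1 := A1) (A3 := A3)
    exact h3.N.clr Y h1 (by omega)

theorem dD_outF (h : opB tb A0 A1 = true) : OutF (dD A0 A1 A3) tb 39 121 := by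
  unfold opB at h
  simp only [TS3_ands_cons] at h
  obtain ⟨-, p2, p3, p4, p5, p6, p7, p8, -⟩ := h
  refine ⟨by norm_num, ?_, Nat.eq_of_beq_eq_true p3, Nat.eq_of_beq_eq_true p4, ?_, ?_, beq_ne_of p7,
    beq_ne_of p8⟩
  · intro Y h1 h2 u hu
    have h3 := List.all_eq_true.1 (allF_of p2 h1 (by omega)) u hu
    simp only [Bool.or_eq_true, Bool.and_eq_true, Nat.beq_eq] at h3
    exact h3
  · intro p hp
    exact List.all_eq_true.1 p5 p hp
  · intro Y h1 h2 q hq
    have h4 := List.all_eq_true.1 (allF_of p6 h1 (by omega)) q hq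
    rw [Bool.and_eq_true, Bool.or_eq_true, Bool.or_eq_true] at h4
    constructor
    · intro h3
      rcases h4.1 with h4 | h4
      · have h5 : 74 ≤ Y + q.2 := Nat.le_of_ble_eq_true h4
        omega
      · exact beq_ne_of h4
    · intro h3
      rcases h4.2 with h4 | h4
      · have h5 : Y + q.2 < 74 := blt_iff'.1 h4
        omega
      · exact beq_ne_of h4

/-- **The ray of the bishop.** -/
theorem dD_tbF (h : tpB tb A A0 A1 = true) : TbF (dD A0 A1 A3) A tb 39 121 := by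
  have h0 := bnB_true
  unfold bnB at h0
  simp only [TS3_ands_cons] at h0
  obtain ⟨-, -, -, -, -, -, -, -, -, -, -, -, -, n1, n2, -⟩ := h0
  unfold tpB at h
  simp only [TS3_ands_cons] at h
  obtain ⟨p1, p2, p3, p4, p5, p6, p7, p8, p9, -⟩ := h
  refine ⟨cmpB_spec p1, ?_, ?_, ?_, ?_, ?_, beq_ne_of p6, beq_ne_of p7, beq_ne_of p8, beq_ne_of p9⟩
  · intro t h1 h2
    exact Nat.eq_of_beq_eq_true (allF_of p2 (X := t) (by omega) (by omega))
  · intro t h1
    exact Nat.eq_of_beq_eq_true (allF_of p3 (X := t) (by omega) (by omega))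
  · intro Y h1 h2
    exact allF_of p4 (by omega) (by omega)
  · intro X h1 h2
    exact allF_of p5 (by omega) (by omega)
  · intro X Y h1 h2 h3 h4 h5 h6
    rcases h6 with rfl | h6
    · exact allF_of n1 (X := Y) h3 (by omega)
    · obtain rfl : Y = 97 - X := by omega
      exact allF_of n2 (by omega) (by omega)

end Pool.Agent.Lib.H32C.Ly
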