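import Pool.Agent.Lib.H32C.ChW
import Pool.Agent.Lib.H32C.TdAr
import Pool.Agent.Lib.H32C.TdBase
import Pool.Agent.Lib.H32C.World

/-!
# Tile data: WN (window with a shaft to the north)
-/

set_option autoImplicit false

namespace Pool.Agent.Lib.H32C.Loc

/-- pattern of the upper border of WN: the shaft between Black pawns -/
def PWN : Nat :=
  0x111111111111111111111111111111190911111111111111111111111111111111111111111111111111111111111119091111111111111111111111111111111111111111111111111111111111111909111111111111111111111111111111111111111111111111111111111111190911111111111111111111111111111111111111111111111111111111111119091111111111111111111111111111111111111111111111111111111111111909111111111111111111111111111111111111111111111111111111111111190911111111111111111111111111111111111111111111111111111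1111111190911111111111111111111111111111111111111111111111111111111111119091111111111111111111111111111111111111111111111111111111111111909111111111111111111111111111111111111111111111111111111111111190911111111111111111111111111111111111111111111111111111111111119091111111111111111111111111111111111111111111111111111111111111909111111111111111111111111111111111111111111111111111111111111190911111111111111111111111111111111111111111111111111111111111119091111111111111111111111111111111111111111111111111111111111111909111111111111111111111111111111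

theorem AWN_L : rowsEq AWN 0 8 PH 64 = true := by decide +kernel

theorem AWN_R : rowsEq AWN 64 8 PF 64 = true := by decide +kernel

theorem AWN_B : colsEq AWN 0 PV 16 = true := by decide +kernel

theorem AWN_T : colsEq AWN 64 PWN 16 = true := by decide +kernel

theorem AWN_C : cornersOk AWN = true := by decide +kernel

theorem AWN_K : noKing AWN = true := by decide +kernel

/-- the window -/
def WWN : WT := ⟨80, AWN, 62, 2759⟩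

theorem WWN_ok : wtOk WWN = true := by decide +kernel

/-- the states -/
def SWN : List (List Pc) :=
  [[⟨40, 8, 6⟩, ⟨40, 4, 10⟩, ⟨40, 5, 10⟩],
   [⟨40, 9, 6⟩, ⟨41, 6, 10⟩, ⟨40, 5, 10⟩],
   [⟨41, 10, 6⟩, ⟨41, 7, 10⟩, ⟨41, 6, 10⟩],
   [⟨41, 11, 6⟩, ⟨40, 8, 10⟩, ⟨41, 7, 10⟩],
   [⟨40, 12, 6⟩, ⟨40, 9, 10⟩, ⟨40, 8, 10⟩],
   [⟨40, 13, 6⟩, ⟨41, 10, 10⟩, ⟨40, 9, 10⟩],
   [⟨41, 14, 6⟩, ⟨41, 11, 10⟩, ⟨41, 10, 10⟩],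
   [⟨41, 15, 6⟩, ⟨40, 12, 10⟩, ⟨41, 11, 10⟩],
   [⟨40, 16, 6⟩, ⟨40, 13, 10⟩, ⟨40, 12, 10⟩],
   [⟨40, 17, 6⟩, ⟨41, 14, 10⟩, ⟨40, 13, 10⟩],
   [⟨41, 18, 6⟩, ⟨41, 15, 10⟩, ⟨41, 14, 10⟩],
   [⟨41, 19, 6⟩, ⟨40, 16, 10⟩, ⟨41, 15, 10⟩],
   [⟨40, 20, 6⟩, ⟨40, 17, 10⟩, ⟨40, 16, 10⟩],
   [⟨40, 21, 6⟩, ⟨41, 18, 10⟩, ⟨40, 17, 10⟩],
   [⟨39, 22, 6⟩, ⟨41, 19, 10⟩, ⟨41, 18, 10⟩],
   [⟨38, 22, 6⟩, ⟨40, 20, 10⟩, ⟨41, 19, 10⟩],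
   [⟨37, 23, 6⟩, ⟨40, 21, 10⟩, ⟨40, 20, 10⟩],
   [⟨36, 23, 6⟩, ⟨39, 22, 10⟩, ⟨40, 21, 10⟩],
   [⟨35, 24, 6⟩, ⟨38, 22, 10⟩, ⟨39, 22, 10⟩],
   [⟨34, 24, 6⟩, ⟨37, 23, 10⟩, ⟨38, 22, 10⟩],
   [⟨33, 25, 6⟩, ⟨36, 23, 10⟩, ⟨37, 23, 10⟩],
   [⟨33, 26, 6⟩, ⟨35, 24, 10⟩, ⟨36, 23, 10⟩],
   [⟨32, 27, 6⟩, ⟨34, 24, 10⟩, ⟨35, 24, 10⟩],
   [⟨32, 28, 6⟩, ⟨33, 25, 10⟩, ⟨34, 24, 10⟩],
   [⟨33, 29, 6⟩, ⟨33, 26, 10⟩, ⟨33, 25, 10⟩],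
   [⟨34, 29, 6⟩, ⟨32, 27, 10⟩, ⟨33, 26, 10⟩],
   [⟨35, 30, 6⟩, ⟨32, 28, 10⟩, ⟨32, 27, 10⟩],
   [⟨36, 30, 6⟩, ⟨33, 29, 10⟩, ⟨32, 28, 10⟩],
   [⟨37, 29, 6⟩, ⟨34, 29, 10⟩, ⟨33, 29, 10⟩],
   [⟨38, 29, 6⟩, ⟨35, 30, 10⟩, ⟨34, 29, 10⟩],
   [⟨39, 30, 6⟩, ⟨36, 30, 10⟩, ⟨35, 30, 10⟩],
   [⟨40, 30, 6⟩, ⟨37, 29, 10⟩, ⟨36, 30, 10⟩],
   [⟨41, 31, 6⟩, ⟨38, 29, 10⟩, ⟨37, 29, 10⟩],
   [⟨41, 32, 6⟩, ⟨39, 30, 10⟩, ⟨38, 29, 10⟩],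
   [⟨40, 33, 6⟩, ⟨40, 30, 10⟩, ⟨39, 30, 10⟩],
   [⟨39, 34, 6⟩, ⟨41, 31, 10⟩, ⟨40, 30, 10⟩],
   [⟨38, 34, 6⟩, ⟨41, 31, 10⟩, ⟨40, 30, 10⟩],
   [⟨37, 33, 6⟩, ⟨40, 33, 10⟩, ⟨40, 30, 10⟩],
   [⟨36, 33, 6⟩, ⟨40, 33, 10⟩, ⟨38, 31, 10⟩],
   [⟨35, 34, 6⟩, ⟨38, 34, 10⟩, ⟨38, 31, 10⟩],
   [⟨35, 35, 6⟩, ⟨37, 33, 10⟩, ⟨38, 34, 10⟩],
   [⟨34, 36, 6⟩, ⟨36, 33, 10⟩, ⟨37, 33, 10⟩],
   [⟨33, 36, 6⟩, ⟨35, 34, 10⟩, ⟨36, 33, 10⟩],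
   [⟨32, 35, 6⟩, ⟨35, 35, 10⟩, ⟨35, 34, 10⟩],
   [⟨31, 35, 6⟩, ⟨34, 36, 10⟩, ⟨35, 35, 10⟩],
   [⟨30, 36, 6⟩, ⟨33, 36, 10⟩, ⟨34, 36, 10⟩],
   [⟨30, 37, 6⟩, ⟨32, 35, 10⟩, ⟨33, 36, 10⟩],
   [⟨29, 38, 6⟩, ⟨31, 35, 10⟩, ⟨32, 35, 10⟩],
   [⟨28, 38, 6⟩, ⟨30, 36, 10⟩, ⟨31, 35, 10⟩],
   [⟨27, 39, 6⟩, ⟨30, 37, 10⟩, ⟨30, 36, 10⟩],
   [⟨26, 39, 6⟩, ⟨29, 38, 10⟩, ⟨30, 37, 10⟩],
   [⟨25, 40, 6⟩, ⟨28, 38, 10⟩, ⟨29, 38, 10⟩],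
   [⟨24, 40, 6⟩, ⟨27, 39, 10⟩, ⟨28, 38, 10⟩],
   [⟨23, 41, 6⟩, ⟨26, 39, 10⟩, ⟨27, 39, 10⟩],
   [⟨22, 41, 6⟩, ⟨25, 40, 10⟩, ⟨26, 39, 10⟩],
   [⟨21, 40, 6⟩, ⟨24, 40, 10⟩, ⟨25, 40, 10⟩],
   [⟨20, 40, 6⟩, ⟨23, 41, 10⟩, ⟨24, 40, 10⟩],
   [⟨19, 41, 6⟩, ⟨22, 41, 10⟩, ⟨23, 41, 10⟩],
   [⟨18, 41, 6⟩, ⟨21, 40, 10⟩, ⟨22, 41, 10⟩],
   [⟨17, 40, 6⟩, ⟨20, 40, 10⟩, ⟨21, 40, 10⟩],
   [⟨16, 40, 6⟩, ⟨19, 41, 10⟩, ⟨20, 40, 10⟩],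
   [⟨15, 41, 6⟩, ⟨18, 41, 10⟩, ⟨19, 41, 10⟩],
   [⟨14, 41, 6⟩, ⟨17, 40, 10⟩, ⟨18, 41, 10⟩],
   [⟨13, 40, 6⟩, ⟨16, 40, 10⟩, ⟨17, 40, 10⟩],
   [⟨12, 40, 6⟩, ⟨15, 41, 10⟩, ⟨16, 40, 10⟩],
   [⟨11, 41, 6⟩, ⟨14, 41, 10⟩, ⟨15, 41, 10⟩],
   [⟨10, 41, 6⟩, ⟨13, 40, 10⟩, ⟨14, 41, 10⟩],
   [⟨9, 40, 6⟩, ⟨12, 40, 10⟩, ⟨13, 40, 10⟩],
   [⟨8, 40, 6⟩, ⟨11, 41, 10⟩, ⟨12, 40, 10⟩],
   [⟨7, 41, 6⟩, ⟨10, 41, 10⟩, ⟨11, 41, 10⟩]]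

theorem SWN_x : nthP SWN 0 = ent Dir.U := rfl

theorem SWN_y : nthP SWN 69 = ext Dir.L := rfl

/-- the pairs at the exit -/
def kWNU_0 : List Mo := [⟨69, 1⟩]

theorem cWNU_0 : CU WWN SWN kWNU_0 kWNU_0 := .nil

/-- items -/
def gWNU_1 : List WU :=
  [⟨40, 1, 35, 35, 354, (.cons 191 232 .nil (.cons 210 229 (.exit 0) .nil)), [41], []⟩,
   ⟨41, 1, 34, 36, 355, (.cons 173 192 .nil (.cons 210 209 (.exit 0) .nil)), [42], []⟩,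
   ⟨42, 1, 33, 36, 356, (.cons 210 189 (.exit 0) .nil), [43], []⟩,
   ⟨43, 1, 32, 35, 357, (.cons 210 209 (.exit 0) .nil), [44], []⟩,
   ⟨44, 1, 31, 35, 0, (.cons 269 251 (.cons 210 229 .nil .nil) (.cons 210 229 (.exit 0) .nil)), [45], []⟩,
   ⟨45, 1, 30, 36, 0, (.cons 250 232 .nil (.cons 210 230 (.exit 0) .nil)), [46], []⟩,
   ⟨46, 1, 30, 37, 0, (.cons 191 232 .nil (.cons 210 229 (.exit 0) .nil)), [47], []⟩,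
   ⟨47, 1, 29, 38, 0, (.cons 173 192 .nil (.cons 210 209 (.exit 0) .nil)), [48], []⟩,
   ⟨48, 1, 28, 38, 0, (.cons 210 229 (.exit 0) .nil), [49], []⟩,
   ⟨49, 1, 27, 39, 0, (.cons 210 209 (.exit 0) .nil), [50], []⟩,
   ⟨50, 1, 26, 39, 0, (.cons 210 229 .nil (.cons 210 229 (.exit 0) (.cons 210 229 .nil .nil))), [51], []⟩,
   ⟨51, 1, 25, 40, 0, (.cons 210 209 (.exit 0) .nil), [52], []⟩,
   ⟨52, 1, 24, 40, 0, (.cons 210 229 .nil (.cons 210 229 (.exit 0) (.cons 210 229 .nil .nil))), [53], []⟩,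
   ⟨53, 1, 23, 41, 0, (.cons 210 209 (.exit 0) .nil), [54], []⟩,
   ⟨54, 1, 22, 41, 0, (.cons 210 189 .nil (.cons 210 189 (.exit 0) .nil)), [55], []⟩,
   ⟨55, 1, 21, 40, 0, (.cons 210 209 (.exit 0) .nil), [56], []⟩,
   ⟨56, 1, 20, 40, 0, (.cons 212 251 (.cons 210 229 .nil .nil) (.cons 210 229 (.exit 0) .nil)), [57], []⟩,
   ⟨57, 1, 19, 41, 0, (.cons 193 232 .nil (.cons 210 209 (.exit 0) .nil)), [58], []⟩,
   ⟨58, 1, 18, 41, 0, (.cons 213 232 (.cons 210 189 .nil .nil) (.cons 210 189 .nil (.cons 210 189 (.exit 0) .nil))), [59], []⟩,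
   ⟨59, 1, 17, 40, 0, (.cons 210 209 (.exit 0) .nil), [60], []⟩,
   ⟨60, 1, 16, 40, 0, (.cons 212 251 (.cons 210 229 .nil .nil) (.cons 210 229 (.exit 0) .nil)), [61], []⟩,
   ⟨61, 1, 15, 41, 0, (.cons 193 232 .nil (.cons 210 209 (.exit 0) .nil)), [62], []⟩,
   ⟨62, 1, 14, 41, 0, (.cons 213 232 (.cons 210 189 .nil .nil) (.cons 210 189 .nil (.cons 210 189 (.exit 0) .nil))), [63], []⟩,
   ⟨63, 1, 13, 40, 0, (.cons 210 209 (.exit 0) .nil), [64], []⟩,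
   ⟨64, 1, 12, 40, 0, (.cons 212 251 (.cons 210 229 .nil .nil) (.cons 210 229 (.exit 0) .nil)), [65], []⟩,
   ⟨65, 1, 11, 41, 0, (.cons 193 232 .nil (.cons 210 209 (.exit 0) .nil)), [66], []⟩,
   ⟨66, 1, 10, 41, 0, (.cons 233 232 (.cons 210 189 .nil .nil) (.cons 210 189 .nil (.cons 210 189 (.exit 0) .nil))), [67], []⟩,
   ⟨67, 1, 9, 40, 0, (.cons 210 209 (.exit 0) .nil), [68], []⟩,
   ⟨68, 1, 8, 40, 0, (.cons 212 251 (.cons 210 229 .nil .nil) (.cons 210 229 (.exit 0) .nil)), [69], []⟩]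

theorem oWNU_1 : grpWU WWN SWN kWNU_0 gWNU_1 = true := by decide +kernel

theorem wWNU_1 : wpU WWN gWNU_1 = true := by decide +kernel

/-- the pairs proved -/
def kWNU_1 : List Mo := keysWU gWNU_1 kWNU_0

theorem cWNU_1 : CU WWN SWN kWNU_0 kWNU_1 := .grp cWNU_0 gWNU_1 oWNU_1 wWNU_1

/-- items -/
def gWNU_2 : List WU :=
  [⟨27, 0, 36, 30, 353, (.cons 150 169 (.cons 210 209 (.cons 209 188 .nil .nil) (.cons 210 209 (.cons 189 230 .nil .nil) (.cons 210 209 (.cons 189 230 .nil .nil) (.cons 210 209 (.cons 189 230 .nil .nil) .nil)))) (.cons 210 191 (.exit 0) (.cons 210 191 (.cons 189 230 .nil .nil) (.cons 210 191 (.cons 150 169 (.cons 191 192 .nil .nil) (.cons 191 192 .nil (.cons 191 192 .nil .nil))) (.cons 210 191 (.cons 150 169 (.cons 191 192 .nil .nil) (.cons 191 192 .nil (.cons 191 192 .nil .nil))) (.cons 210 191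 (.cons 150 169 (.cons 191 192 .nil .nil) (.cons 191 192 (.cons 190 231 .nil .nil) (.cons 191 192 .nil .nil))) .nil)))))), [], [28]⟩,
   ⟨28, 0, 37, 29, 352, (.cons 169 188 (.cons 208 249 .nil .nil) (.cons 210 211 (.exit 0) (.cons 208 249 (.cons 169 188 .nil (.cons 188 228 .nil .nil)) .nil))), [], [29]⟩,
   ⟨29, 0, 38, 29, 351, (.cons 210 231 (.exit 0) (.cons 208 249 (.cons 210 231 (.cons 231 232 (.cons 249 210 .nil .nil) .nil) .nil) .nil)), [], [30]⟩,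
   ⟨30, 0, 39, 30, 350, (.cons 210 211 (.exit 0) (.cons 187 228 (.cons 210 211 (.cons 228 189 .nil .nil) .nil) (.cons 210 211 (.cons 211 232 (.cons 232 251 .nil .nil) .nil) .nil))), [], [31]⟩,
   ⟨31, 0, 40, 30, 349, (.cons 210 231 (.exit 0) (.cons 210 231 (.cons 211 250 .nil .nil) (.cons 210 231 (.cons 231 251 (.cons 193 212 (.cons 251 270 (.cons 212 231 .nil .nil) .nil) (.cons 251 270 (.exit 1) .nil)) (.cons 211 250 (.cons 250 209 .nil .nil) .nil)) (.cons 210 231 (.cons 231 251 (.cons 193 212 .nil .nil) (.cons 211 250 (.cons 250 209 .nil .nil) .nil)) .nil)))), [], [32, 34]⟩,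
   ⟨32, 0, 41, 31, 348, (.cons 210 230 (.exit 0) (.cons 190 229 (.cons 229 188 .nil .nil) .nil)), [], [33]⟩,
   ⟨33, 0, 41, 31, 348, (.cons 172 191 (.cons 230 249 (.cons 191 210 .nil .nil) (.cons 190 208 .nil .nil)) (.cons 230 249 (.exit 0) (.cons 190 208 (.cons 172 191 .nil .nil) .nil))), [], [34]⟩,
   ⟨34, 0, 40, 33, 349, (.cons 213 192 (.cons 192 171 .nil .nil) (.cons 210 229 (.exit 0) .nil)), [], [35]⟩,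
   ⟨35, 0, 39, 34, 350, (.cons 210 209 (.exit 0) (.cons 212 192 (.cons 210 209 (.cons 192 191 (.cons 189 210 .nil (.cons 211 230 .nil .nil)) (.cons 189 210 (.cons 192 191 .nil .nil) (.cons 211 230 (.cons 192 191 .nil .nil) .nil))) .nil) .nil)), [36], []⟩,
   ⟨36, 1, 38, 34, 351, (.cons 210 189 (.exit 0) (.cons 190 211 (.cons 211 192 .nil .nil) (.cons 212 231 (.cons 210 211 (.cons 214 233 (.cons 211 192 .nil .nil) (.cons 211 192 .nil .nil)) .nil) .nil))), [37], []⟩,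
   ⟨37, 1, 37, 33, 352, (.cons 210 209 (.exit 0) (.cons 128 169 (.cons 210 209 (.cons 209 228 (.cons 169 210 .nil .nil) .nil) (.cons 233 252 (.cons 210 209 (.cons 234 231 .nil .nil) .nil) .nil)) (.cons 210 209 (.cons 209 228 .nil (.cons 209 228 (.cons 228 229 .nil (.cons 228 209 (.cons 209 228 .nil .nil) .nil)) .nil)) .nil))), [38], []⟩,
   ⟨38, 1, 36, 33, 353, (.cons 210 229 (.exit 0) .nil), [39], []⟩,
   ⟨39, 1, 35, 34, 354, (.cons 210 230 (.exit 0) .nil), [40], []⟩]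

theorem oWNU_2 : grpWU WWN SWN kWNU_1 gWNU_2 = true := by decide +kernel

theorem wWNU_2 : wpU WWN gWNU_2 = true := by decide +kernel

/-- the pairs proved -/
def kWNU_2 : List Mo := keysWU gWNU_2 kWNU_1

theorem cWNU_2 : CU WWN SWN kWNU_0 kWNU_2 := .grp cWNU_1 gWNU_2 oWNU_2 wWNU_2

/-- items -/
def gWNU_3 : List WU :=
  [⟨8, 0, 40, 16, 0, (.cons 210 230 (.exit 0) (.cons 189 169 (.cons 210 231 .nil .nil) (.cons 210 231 .nil .nil))), [9], []⟩,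
   ⟨9, 0, 40, 17, 0, (.cons 170 192 (.cons 169 171 .nil (.cons 191 169 .nil .nil)) (.cons 210 231 (.exit 0) (.cons 210 231 (.cons 231 250 .nil .nil) (.cons 191 169 (.cons 210 191 .nil (.cons 168 169 .nil .nil)) .nil)))), [10], []⟩,
   ⟨10, 0, 41, 18, 0, (.cons 149 171 (.cons 210 229 .nil .nil) (.cons 210 230 (.exit 0) (.cons 210 229 .nil .nil))), [11], []⟩,
   ⟨11, 0, 41, 19, 0, (.cons 189 171 (.cons 210 229 .nil (.cons 210 189 .nil .nil)) (.cons 210 229 .nil (.cons 210 229 (.exit 0) (.cons 208 188 (.cons 210 229 .nil (.cons 210 229 .nil .nil)) .nil)))), [12], []⟩,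
   ⟨12, 0, 40, 20, 0, (.cons 210 230 (.exit 0) (.cons 189 169 .nil .nil)), [13], []⟩,
   ⟨13, 0, 40, 21, 0, (.cons 210 229 .nil (.cons 210 229 (.exit 0) (.cons 210 229 .nil (.cons 191 169 (.cons 210 229 .nil (.cons 210 229 .nil .nil)) .nil)))), [14], []⟩,
   ⟨14, 0, 39, 22, 0, (.cons 210 209 (.exit 0) .nil), [15], []⟩,
   ⟨15, 0, 38, 22, 0, (.cons 210 229 (.exit 0) .nil), [16], []⟩,
   ⟨16, 0, 37, 23, 0, (.cons 210 209 (.exit 0) .nil), [17], []⟩,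
   ⟨17, 0, 36, 23, 0, (.cons 210 229 .nil (.cons 210 229 (.exit 0) (.cons 210 229 .nil .nil))), [18], []⟩,
   ⟨18, 0, 35, 24, 0, (.cons 210 209 (.exit 0) .nil), [19], []⟩,
   ⟨19, 0, 34, 24, 0, (.cons 191 232 (.cons 210 211 (.cons 212 233 .nil (.cons 149 170 .nil .nil)) .nil) (.cons 210 229 (.exit 0) (.cons 152 171 (.cons 171 192 .nil .nil) .nil))), [20], []⟩,
   ⟨20, 0, 33, 25, 0, (.cons 210 230 (.exit 0) (.cons 210 230 (.cons 230 249 .nil (.cons 230 249 .nil .nil)) (.cons 210 230 (.cons 230 249 .nil (.cons 230 249 .nil .nil)) (.cons 210 230 (.cons 230 249 .nil (.cons 230 249 .nil .nil)) .nil)))), [21], []⟩,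
   ⟨21, 0, 33, 26, 0, (.cons 173 192 .nil (.cons 210 229 (.exit 0) .nil)), [22], []⟩,
   ⟨22, 0, 32, 27, 0, (.cons 231 192 .nil (.cons 210 230 (.exit 0) .nil)), [23], []⟩,
   ⟨23, 0, 32, 28, 357, (.cons 233 192 (.cons 210 190 (.cons 128 149 .nil .nil) .nil) (.cons 210 231 (.exit 0) .nil)), [], [24]⟩,
   ⟨24, 0, 33, 29, 356, (.cons 212 171 (.cons 213 231 .nil (.cons 210 229 .nil .nil)) (.cons 210 211 (.exit 0) (.cons 210 211 (.cons 213 172 .nil (.cons 211 232 (.cons 212 253 .nil .nil) .nil)) (.cons 210 229 .nil .nil)))), [], [25]⟩,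
   ⟨25, 0, 34, 29, 355, (.cons 212 171 .nil (.cons 210 231 (.exit 0) .nil)), [], [26]⟩,
   ⟨26, 0, 35, 30, 354, (.cons 210 211 (.exit 0) (.cons 210 211 (.cons 211 192 (.cons 192 193 (.cons 216 234 .nil .nil) .nil) (.cons 211 192 (.cons 192 193 .nil .nil) (.cons 211 192 (.cons 192 193 .nil .nil) (.cons 211 192 (.cons 192 193 .nil .nil) (.cons 211 192 (.cons 192 193 .nil .nil) .nil))))) .nil)), [], [27]⟩]

theorem oWNU_3 : grpWU WWN SWN kWNU_2 gWNU_3 = true := by decide +kernel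

theorem wWNU_3 : wpU WWN gWNU_3 = true := by decide +kernel

/-- the pairs proved -/
def kWNU_3 : List Mo := keysWU gWNU_3 kWNU_2

theorem cWNU_3 : CU WWN SWN kWNU_0 kWNU_3 := .grp cWNU_2 gWNU_3 oWNU_3 wWNU_3

/-- items -/
def gWNU_4 : List WU :=
  [⟨0, 0, 40, 8, 0, (.cons 210 230 (.exit 0) (.cons 189 169 (.cons 190 231 .nil .nil) (.cons 210 231 (.cons 212 233 .nil (.cons 211 233 .nil .nil)) .nil))), [1], []⟩,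
   ⟨1, 0, 40, 9, 0, (.cons 170 192 (.cons 169 171 .nil (.cons 191 169 .nil .nil)) (.cons 210 231 (.exit 0) (.cons 210 231 (.cons 249 250 .nil .nil) (.cons 191 169 (.cons 170 192 .nil (.cons 168 169 .nil .nil)) .nil)))), [2], []⟩,
   ⟨2, 0, 41, 10, 0, (.cons 149 171 (.cons 228 229 .nil .nil) (.cons 210 230 (.exit 0) (.cons 210 229 (.cons 209 250 .nil .nil) .nil))), [3], []⟩,
   ⟨3, 0, 41, 11, 0, (.cons 210 229 (.exit 0) (.cons 208 188 (.cons 210 229 (.cons 209 250 .nil .nil) .nil) .nil)), [4], []⟩,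
   ⟨4, 0, 40, 12, 0, (.cons 210 230 (.exit 0) (.cons 189 169 (.cons 190 231 .nil .nil) (.cons 210 231 (.cons 212 233 .nil (.cons 211 233 .nil .nil)) .nil))), [5], []⟩,
   ⟨5, 0, 40, 13, 0, (.cons 170 192 (.cons 169 171 .nil (.cons 191 169 .nil .nil)) (.cons 210 231 (.exit 0) (.cons 210 231 (.cons 231 250 .nil .nil) (.cons 191 169 (.cons 170 192 .nil (.cons 168 169 .nil .nil)) .nil)))), [6], []⟩,
   ⟨6, 0, 41, 14, 0, (.cons 149 171 (.cons 210 229 .nil .nil) (.cons 210 230 (.exit 0) (.cons 210 229 .nil .nil))), [7], []⟩,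
   ⟨7, 0, 41, 15, 0, (.cons 210 229 (.exit 0) (.cons 208 188 (.cons 210 229 (.cons 209 250 .nil .nil) .nil) .nil)), [8], []⟩]

theorem oWNU_4 : grpWU WWN SWN kWNU_3 gWNU_4 = true := by decide +kernel

theorem wWNU_4 : wpU WWN gWNU_4 = true := by decide +kernel

/-- the pairs proved -/
def kWNU_4 : List Mo := keysWU gWNU_4 kWNU_3

theorem cWNU_4 : CU WWN SWN kWNU_0 kWNU_4 := .grp cWNU_3 gWNU_4 oWNU_4 wWNU_4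

/-- the pairs at the exit -/
def kWNL_0 : List Mo := [⟨69, 1⟩]

theorem cWNL_0 : CL WWN SWN kWNL_0 kWNL_0 := .nil

/-- items -/
def gWNL_1 : List WL :=
  [⟨44, 1, 31, 35, 0, 0, 214, 232, 232, 229, 45, 0, 0⟩,
   ⟨45, 1, 30, 36, 0, 0, 214, 192, 192, 230, 46, 0, 0⟩,
   ⟨46, 1, 30, 37, 0, 0, 193, 171, 171, 229, 47, 0, 0⟩,
   ⟨47, 1, 29, 38, 0, 0, 153, 171, 171, 209, 48, 0, 0⟩,
   ⟨48, 1, 28, 38, 0, 0, 153, 192, 192, 229, 49, 0, 0⟩,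
   ⟨49, 1, 27, 39, 0, 0, 153, 192, 192, 209, 50, 0, 0⟩,
   ⟨50, 1, 26, 39, 0, 0, 174, 192, 192, 229, 51, 0, 0⟩,
   ⟨51, 1, 25, 40, 0, 0, 174, 192, 192, 209, 52, 0, 0⟩,
   ⟨52, 1, 24, 40, 0, 0, 174, 192, 192, 229, 53, 0, 0⟩,
   ⟨53, 1, 23, 41, 0, 0, 174, 192, 192, 209, 54, 0, 0⟩,
   ⟨54, 1, 22, 41, 0, 0, 174, 192, 192, 189, 55, 0, 0⟩,
   ⟨55, 1, 21, 40, 0, 0, 214, 232, 232, 209, 56, 0, 0⟩,
   ⟨56, 1, 20, 40, 0, 0, 214, 232, 232, 229, 57, 0, 0⟩,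
   ⟨57, 1, 19, 41, 0, 0, 214, 192, 192, 209, 58, 0, 0⟩,
   ⟨58, 1, 18, 41, 0, 0, 214, 192, 192, 189, 59, 0, 0⟩,
   ⟨59, 1, 17, 40, 0, 0, 214, 232, 232, 209, 60, 0, 0⟩,
   ⟨60, 1, 16, 40, 0, 0, 214, 232, 232, 229, 61, 0, 0⟩,
   ⟨61, 1, 15, 41, 0, 0, 214, 192, 192, 209, 62, 0, 0⟩,
   ⟨62, 1, 14, 41, 0, 0, 214, 192, 192, 189, 63, 0, 0⟩,
   ⟨63, 1, 13, 40, 0, 0, 214, 232, 232, 209, 64, 0, 0⟩,
   ⟨64, 1, 12, 40, 0, 0, 214, 232, 232, 229, 65, 0, 0⟩,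
   ⟨65, 1, 11, 41, 0, 0, 214, 192, 192, 209, 66, 0, 0⟩,
   ⟨66, 1, 10, 41, 0, 0, 214, 192, 192, 189, 67, 0, 0⟩,
   ⟨67, 1, 9, 40, 0, 0, 214, 232, 232, 209, 68, 0, 0⟩,
   ⟨68, 1, 8, 40, 0, 0, 214, 232, 232, 229, 69, 0, 0⟩]

theorem oWNL_1 : grpWL WWN SWN kWNL_0 gWNL_1 = true := by decide +kernel

theorem wWNL_1 : wpL WWN gWNL_1 = true := by decide +kernel

/-- the pairs proved -/
def kWNL_1 : List Mo := keysWL gWNL_1 kWNL_0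

theorem cWNL_1 : CL WWN SWN kWNL_0 kWNL_1 := .grp cWNL_0 gWNL_1 oWNL_1 wWNL_1

/-- items -/
def gWNL_2 : List WL :=
  [⟨19, 0, 34, 24, 0, 0, 174, 192, 192, 229, 20, 0, 0⟩,
   ⟨20, 0, 33, 25, 0, 0, 174, 192, 192, 230, 21, 0, 0⟩,
   ⟨21, 0, 33, 26, 0, 0, 153, 171, 171, 229, 22, 0, 0⟩,
   ⟨22, 0, 32, 27, 0, 0, 153, 171, 171, 230, 23, 0, 0⟩,
   ⟨23, 0, 32, 28, 357, 0, 132, 171, 171, 231, 24, 0, 0⟩,
   ⟨24, 0, 33, 29, 356, 0, 130, 169, 169, 211, 25, 0, 0⟩,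
   ⟨25, 0, 34, 29, 355, 0, 149, 188, 188, 231, 26, 0, 0⟩,
   ⟨26, 0, 35, 30, 354, 0, 147, 188, 188, 211, 27, 0, 0⟩,
   ⟨27, 0, 36, 30, 353, 0, 166, 188, 188, 191, 28, 0, 0⟩,
   ⟨28, 0, 37, 29, 352, 0, 206, 228, 228, 211, 29, 0, 0⟩,
   ⟨29, 0, 38, 29, 351, 0, 206, 228, 228, 231, 30, 0, 0⟩,
   ⟨30, 0, 39, 30, 350, 0, 206, 188, 188, 211, 31, 0, 0⟩,
   ⟨31, 0, 40, 30, 349, 0, 206, 188, 188, 231, 32, 0, 0⟩,
   ⟨32, 0, 41, 31, 348, 0, 166, 188, 188, 230, 33, 0, 0⟩,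
   ⟨33, 0, 41, 31, 348, 0, 167, 189, 189, 249, 34, 0, 0⟩,
   ⟨34, 0, 40, 33, 349, 0, 149, 171, 171, 229, 35, 0, 0⟩,
   ⟨35, 0, 39, 34, 350, 3, 0, 0, 0, 209, 36, 0, 0⟩,
   ⟨36, 1, 38, 34, 351, 0, 153, 192, 192, 189, 37, 0, 0⟩,
   ⟨37, 1, 37, 33, 352, 0, 153, 171, 171, 209, 38, 0, 0⟩,
   ⟨38, 1, 36, 33, 353, 0, 214, 232, 232, 229, 39, 0, 0⟩,
   ⟨39, 1, 35, 34, 354, 0, 153, 192, 192, 230, 40, 0, 0⟩,
   ⟨40, 1, 35, 35, 354, 0, 193, 171, 171, 229, 41, 0, 0⟩,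
   ⟨41, 1, 34, 36, 355, 0, 153, 171, 171, 209, 42, 0, 0⟩,
   ⟨42, 1, 33, 36, 356, 0, 153, 192, 192, 189, 43, 0, 0⟩,
   ⟨43, 1, 32, 35, 357, 0, 193, 232, 232, 209, 44, 0, 0⟩]

theorem oWNL_2 : grpWL WWN SWN kWNL_1 gWNL_2 = true := by decide +kernel

theorem wWNL_2 : wpL WWN gWNL_2 = true := by decide +kernel

/-- the pairs proved -/
def kWNL_2 : List Mo := keysWL gWNL_2 kWNL_1

theorem cWNL_2 : CL WWN SWN kWNL_0 kWNL_2 := .grp cWNL_1 gWNL_2 oWNL_2 wWNL_2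

/-- items -/
def gWNL_3 : List WL :=
  [⟨1, 0, 40, 9, 0, 0, 130, 171, 171, 231, 2, 0, 0⟩,
   ⟨2, 0, 41, 10, 0, 0, 130, 169, 169, 230, 3, 0, 0⟩,
   ⟨3, 0, 41, 11, 0, 0, 130, 169, 169, 229, 4, 0, 0⟩,
   ⟨4, 0, 40, 12, 0, 0, 130, 171, 171, 230, 5, 0, 0⟩,
   ⟨5, 0, 40, 13, 0, 0, 130, 171, 171, 231, 6, 0, 0⟩,
   ⟨6, 0, 41, 14, 0, 0, 130, 169, 169, 230, 7, 0, 0⟩,
   ⟨7, 0, 41, 15, 0, 0, 130, 169, 169, 229, 8, 0, 0⟩,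
   ⟨8, 0, 40, 16, 0, 0, 130, 171, 171, 230, 9, 0, 0⟩,
   ⟨9, 0, 40, 17, 0, 0, 130, 171, 171, 231, 10, 0, 0⟩,
   ⟨10, 0, 41, 18, 0, 0, 130, 169, 169, 230, 11, 0, 0⟩,
   ⟨11, 0, 41, 19, 0, 0, 130, 169, 169, 229, 12, 0, 0⟩,
   ⟨12, 0, 40, 20, 0, 0, 130, 171, 171, 230, 13, 0, 0⟩,
   ⟨13, 0, 40, 21, 0, 0, 130, 171, 171, 229, 14, 0, 0⟩,
   ⟨14, 0, 39, 22, 0, 0, 132, 171, 171, 209, 15, 0, 0⟩,
   ⟨15, 0, 38, 22, 0, 0, 153, 192, 192, 229, 16, 0, 0⟩,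
   ⟨16, 0, 37, 23, 0, 0, 153, 192, 192, 209, 17, 0, 0⟩,
   ⟨17, 0, 36, 23, 0, 0, 174, 192, 192, 229, 18, 0, 0⟩,
   ⟨18, 0, 35, 24, 0, 0, 174, 192, 192, 209, 19, 0, 0⟩]

theorem oWNL_3 : grpWL WWN SWN kWNL_2 gWNL_3 = true := by decide +kernel

theorem wWNL_3 : wpL WWN gWNL_3 = true := by decide +kernel

/-- the pairs proved -/
def kWNL_3 : List Mo := keysWL gWNL_3 kWNL_2

theorem cWNL_3 : CL WWN SWN kWNL_0 kWNL_3 := .grp cWNL_2 gWNL_3 oWNL_3 wWNL_3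

/-- the first item of the lower bound -/
def uWN : WL := ⟨0, 0, 40, 8, 0, 0, 130, 171, 171, 230, 1, 0, 0⟩

/-- **The certificate of the window.** -/
theorem WWN_cert : WinC WWN SWN 0 69 :=
  ⟨WWN_ok, ⟨kWNU_4, cWNU_4, by decide +kernel⟩,
    ⟨kWNL_3, uWN, cWNL_3, rfl, rfl, rfl, rfl, by decide +kernel⟩⟩

end Pool.Agent.Lib.H32C.Loc
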