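import Pool.Agent.Lib.H32C.ChK
import Pool.Agent.Lib.H32C.TdWN

/-!
# Tile data: OUT (the window WN with a rook: service Out)
-/

set_option autoImplicit false

namespace Pool.Agent.Lib.H32C.Loc

/-- the pairs at the exit -/
def kOUTU_0 : List Mo := [⟨69, 1⟩]

theorem cOUTU_0 : KU 80 AWN 62 12 2759 SWN kOUTU_0 kOUTU_0 := .nil

/-- items -/
def gOUTU_1 : List WU :=
  [⟨40, 1, 35, 35, 354, (.cons 191 232 .nil (.cons 210 229 (.exit 0) .nil)), [41], []⟩,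
   ⟨41, 1, 34, 36, 355, (.cons 173 192 .nil (.cons 210 209 (.exit 0) .nil)), [42], []⟩,
   ⟨42, 1, 33, 36, 356, (.cons 210 189 (.exit 0) .nil), [43], []⟩,
   ⟨43, 1, 32, 35, 357, (.cons 210 209 (.exit 0) .nil), [44], []⟩,
   ⟨44, 1, 31, 35, 0, (.cons 269 251 (.cons 210 229 .nil .nil) (.cons 210 229 (.exit 0) .nil)), [45], []⟩,
   ⟨45, 1, 30, 36, 0, (.cons 250 232 .nil (.cons 210 230 (.exit 0) .nil)), [46], []⟩,
   ⟨46, 1, 30, 37, 0, (.cons 191 232 .nil (.cons 210 229 (.exit 0) .nil)), [47], []⟩,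
   ⟨47, 1, 29, 38, 0, (.cons 173 192 .nil (.cons 210 209 (.exit 0) .nil)), [48], []⟩,
   ⟨48, 1, 28, 38, 0, (.cons 210 229 (.exit 0) .nil), [49], []⟩,
   ⟨49, 1, 27, 39, 0, (.cons 210 209 (.exit 0) .nil), [50], []⟩,
   ⟨50, 1, 26, 39, 0, (.cons 210 229 .nil (.cons 210 229 (.exit 0) (.cons 210 229 .nil .nil))), [51], []⟩,
   ⟨51, 1, 25, 40, 0, (.cons 210 209 (.exit 0) .nil), [52], []⟩,
   ⟨52, 1, 24, 40, 0, (.cons 210 229 .nil (.cons 210 229 (.exit 0) (.cons 210 229 .nil .nil))), [53], []⟩,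
   ⟨53, 1, 23, 41, 0, (.cons 210 209 (.exit 0) .nil), [54], []⟩,
   ⟨54, 1, 22, 41, 0, (.cons 210 189 .nil (.cons 210 189 (.exit 0) .nil)), [55], []⟩,
   ⟨55, 1, 21, 40, 0, (.cons 210 209 (.exit 0) .nil), [56], []⟩,
   ⟨56, 1, 20, 40, 0, (.cons 212 251 (.cons 210 229 .nil .nil) (.cons 210 229 (.exit 0) .nil)), [57], []⟩,
   ⟨57, 1, 19, 41, 0, (.cons 193 232 .nil (.cons 210 209 (.exit 0) .nil)), [58], []⟩,
   ⟨58, 1, 18, 41, 0, (.cons 213 232 (.cons 210 189 .nil .nil) (.cons 210 189 .nil (.cons 210 189 (.exit 0) .nil))), [59], []⟩,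
   ⟨59, 1, 17, 40, 0, (.cons 210 209 (.exit 0) .nil), [60], []⟩,
   ⟨60, 1, 16, 40, 0, (.cons 212 251 (.cons 210 229 .nil .nil) (.cons 210 229 (.exit 0) .nil)), [61], []⟩,
   ⟨61, 1, 15, 41, 0, (.cons 193 232 .nil (.cons 210 209 (.exit 0) .nil)), [62], []⟩,
   ⟨62, 1, 14, 41, 0, (.cons 213 232 (.cons 210 189 .nil .nil) (.cons 210 189 .nil (.cons 210 189 (.exit 0) .nil))), [63], []⟩,
   ⟨63, 1, 13, 40, 0, (.cons 210 209 (.exit 0) .nil), [64], []⟩,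
   ⟨64, 1, 12, 40, 0, (.cons 212 251 (.cons 210 229 .nil .nil) (.cons 210 229 (.exit 0) .nil)), [65], []⟩,
   ⟨65, 1, 11, 41, 0, (.cons 193 232 .nil (.cons 210 209 (.exit 0) .nil)), [66], []⟩,
   ⟨66, 1, 10, 41, 0, (.cons 233 232 (.cons 210 189 .nil .nil) (.cons 210 189 .nil (.cons 210 189 (.exit 0) .nil))), [67], []⟩,
   ⟨67, 1, 9, 40, 0, (.cons 210 209 (.exit 0) .nil), [68], []⟩,
   ⟨68, 1, 8, 40, 0, (.cons 212 251 (.cons 210 229 .nil .nil) (.cons 210 229 (.exit 0) .nil)), [69], []⟩]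

theorem oOUTU_1 : grpKU 80 AWN 62 12 SWN kOUTU_0 gOUTU_1 = true := by decide +kernel

theorem wOUTU_1 : wpU ⟨80, AWN, 62, 2759⟩ gOUTU_1 = true := by decide +kernel

/-- the pairs proved -/
def kOUTU_1 : List Mo := keysWU gOUTU_1 kOUTU_0

theorem cOUTU_1 : KU 80 AWN 62 12 2759 SWN kOUTU_0 kOUTU_1 := .grp cOUTU_0 gOUTU_1 oOUTU_1 wOUTU_1

/-- items -/
def gOUTU_2 : List WU :=
  [⟨26, 0, 35, 30, 354, (.cons 210 211 (.exit 0) (.cons 210 211 (.cons 211 192 (.cons 192 193 (.cons 216 234 .nil .nil) .nil) (.cons 211 192 (.cons 192 193 .nil .nil) (.cons 211 192 (.cons 192 193 .nil .nil) (.cons 211 192 (.cons 192 193 .nil .nil) (.cons 211 192 (.cons 192 193 .nil .nil) .nil))))) .nil)), [], [27]⟩,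
   ⟨27, 0, 36, 30, 353, (.cons 150 169 (.cons 210 209 (.cons 209 188 .nil .nil) (.cons 210 209 (.cons 189 230 .nil .nil) (.cons 210 209 (.cons 189 230 .nil .nil) (.cons 210 209 (.cons 189 230 .nil .nil) .nil)))) (.cons 210 191 (.exit 0) (.cons 210 191 (.cons 189 230 .nil .nil) (.cons 210 191 (.cons 150 169 (.cons 191 192 .nil .nil) (.cons 191 192 .nil (.cons 191 192 .nil .nil))) (.cons 210 191 (.cons 150 169 (.cons 191 192 .nil .nil) (.cons 191 192 .nil (.cons 191 192 .nil .nil))) (.cons 210 191 (.cons 150 169 (.cons 191 192 .nil .nil) (.cons 191 192 (.cons 190 231 .nil .nil) (.cons 191 192 .nil .nil))) .nil)))))), [], [28]⟩,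
   ⟨28, 0, 37, 29, 352, (.cons 169 188 (.cons 208 249 .nil .nil) (.cons 210 211 (.exit 0) (.cons 208 249 (.cons 169 188 .nil (.cons 188 228 .nil .nil)) .nil))), [], [29]⟩,
   ⟨29, 0, 38, 29, 351, (.cons 210 231 (.exit 0) (.cons 208 249 (.cons 210 231 (.cons 231 232 (.cons 249 210 .nil .nil) .nil) .nil) .nil)), [], [30]⟩,
   ⟨30, 0, 39, 30, 350, (.cons 210 211 (.exit 0) (.cons 187 228 (.cons 210 211 (.cons 228 189 .nil .nil) .nil) (.cons 210 211 (.cons 211 232 (.cons 232 251 .nil .nil) .nil) .nil))), [], [31]⟩,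
   ⟨31, 0, 40, 30, 349, (.cons 210 231 (.exit 0) (.cons 210 231 (.cons 211 250 .nil .nil) (.cons 210 231 (.cons 231 251 (.cons 193 212 (.cons 251 270 (.cons 212 231 .nil .nil) .nil) (.cons 251 270 (.exit 1) .nil)) (.cons 211 250 (.cons 250 209 .nil .nil) .nil)) (.cons 210 231 (.cons 231 251 (.cons 193 212 .nil .nil) (.cons 211 250 (.cons 250 209 .nil .nil) .nil)) .nil)))), [], [32, 34]⟩,
   ⟨32, 0, 41, 31, 348, (.cons 210 230 (.exit 0) (.cons 190 229 (.cons 229 188 .nil .nil) .nil)), [], [33]⟩,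
   ⟨33, 0, 41, 31, 348, (.cons 172 191 (.cons 230 249 (.cons 191 210 .nil .nil) (.cons 190 208 .nil .nil)) (.cons 230 249 (.exit 0) (.cons 190 208 (.cons 172 191 .nil .nil) .nil))), [], [34]⟩,
   ⟨34, 0, 40, 33, 349, (.cons 213 192 (.cons 192 171 .nil .nil) (.cons 210 229 (.exit 0) .nil)), [], [35]⟩,
   ⟨35, 0, 39, 34, 350, (.cons 210 209 (.exit 0) (.cons 212 192 (.cons 210 209 (.cons 192 191 (.cons 189 210 .nil .nil) (.cons 189 210 (.cons 192 191 .nil .nil) .nil)) .nil) .nil)), [36], []⟩,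
   ⟨36, 1, 38, 34, 351, (.cons 210 189 (.exit 0) (.cons 190 211 (.cons 211 192 .nil .nil) .nil)), [37], []⟩,
   ⟨37, 1, 37, 33, 352, (.cons 210 209 (.exit 0) (.cons 128 169 (.cons 210 209 (.cons 209 228 (.cons 169 210 .nil .nil) .nil) .nil) .nil)), [38], []⟩,
   ⟨38, 1, 36, 33, 353, (.cons 210 229 (.exit 0) .nil), [39], []⟩,
   ⟨39, 1, 35, 34, 354, (.cons 210 230 (.exit 0) .nil), [40], []⟩]

theorem oOUTU_2 : grpKU 80 AWN 62 12 SWN kOUTU_1 gOUTU_2 = true := by decide +kernel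

theorem wOUTU_2 : wpU ⟨80, AWN, 62, 2759⟩ gOUTU_2 = true := by decide +kernel

/-- the pairs proved -/
def kOUTU_2 : List Mo := keysWU gOUTU_2 kOUTU_1

theorem cOUTU_2 : KU 80 AWN 62 12 2759 SWN kOUTU_0 kOUTU_2 := .grp cOUTU_1 gOUTU_2 oOUTU_2 wOUTU_2

/-- items -/
def gOUTU_3 : List WU :=
  [⟨6, 0, 41, 14, 0, (.cons 149 171 (.cons 210 229 .nil .nil) (.cons 210 230 (.exit 0) (.cons 210 229 .nil .nil))), [7], []⟩,
   ⟨7, 0, 41, 15, 0, (.cons 210 229 (.exit 0) (.cons 208 188 (.cons 210 229 (.cons 209 250 .nil .nil) .nil) .nil)), [8], []⟩,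
   ⟨8, 0, 40, 16, 0, (.cons 210 230 (.exit 0) (.cons 189 169 (.cons 210 231 .nil .nil) (.cons 210 231 .nil .nil))), [9], []⟩,
   ⟨9, 0, 40, 17, 0, (.cons 170 192 (.cons 169 171 .nil (.cons 191 169 .nil .nil)) (.cons 210 231 (.exit 0) (.cons 210 231 (.cons 231 250 .nil .nil) (.cons 191 169 (.cons 210 191 .nil (.cons 168 169 .nil .nil)) .nil)))), [10], []⟩,
   ⟨10, 0, 41, 18, 0, (.cons 149 171 (.cons 210 229 .nil .nil) (.cons 210 230 (.exit 0) (.cons 210 229 .nil .nil))), [11], []⟩,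
   ⟨11, 0, 41, 19, 0, (.cons 189 171 (.cons 210 229 .nil (.cons 210 189 .nil .nil)) (.cons 210 229 .nil (.cons 210 229 (.exit 0) (.cons 208 188 (.cons 210 229 .nil (.cons 210 229 .nil .nil)) .nil)))), [12], []⟩,
   ⟨12, 0, 40, 20, 0, (.cons 210 230 (.exit 0) (.cons 189 169 .nil .nil)), [13], []⟩,
   ⟨13, 0, 40, 21, 0, (.cons 210 229 .nil (.cons 210 229 (.exit 0) (.cons 210 229 .nil (.cons 191 169 (.cons 210 229 .nil (.cons 210 229 .nil .nil)) .nil)))), [14], []⟩,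
   ⟨14, 0, 39, 22, 0, (.cons 210 209 (.exit 0) .nil), [15], []⟩,
   ⟨15, 0, 38, 22, 0, (.cons 210 229 (.exit 0) .nil), [16], []⟩,
   ⟨16, 0, 37, 23, 0, (.cons 210 209 (.exit 0) .nil), [17], []⟩,
   ⟨17, 0, 36, 23, 0, (.cons 210 229 .nil (.cons 210 229 (.exit 0) (.cons 210 229 .nil .nil))), [18], []⟩,
   ⟨18, 0, 35, 24, 0, (.cons 210 209 (.exit 0) .nil), [19], []⟩,
   ⟨19, 0, 34, 24, 0, (.cons 191 232 (.cons 210 211 (.cons 212 233 .nil (.cons 149 170 .nil .nil)) .nil) (.cons 210 229 (.exit 0) (.cons 152 171 (.cons 171 192 .nil .nil) .nil))), [20], []⟩,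
   ⟨20, 0, 33, 25, 0, (.cons 210 230 (.exit 0) (.cons 210 230 (.cons 230 249 .nil (.cons 230 249 .nil .nil)) (.cons 210 230 (.cons 230 249 .nil (.cons 230 249 .nil .nil)) (.cons 210 230 (.cons 230 249 .nil (.cons 230 249 .nil .nil)) .nil)))), [21], []⟩,
   ⟨21, 0, 33, 26, 0, (.cons 173 192 .nil (.cons 210 229 (.exit 0) .nil)), [22], []⟩,
   ⟨22, 0, 32, 27, 0, (.cons 231 192 .nil (.cons 210 230 (.exit 0) .nil)), [23], []⟩,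
   ⟨23, 0, 32, 28, 357, (.cons 233 192 (.cons 210 190 (.cons 128 149 .nil .nil) .nil) (.cons 210 231 (.exit 0) .nil)), [], [24]⟩,
   ⟨24, 0, 33, 29, 356, (.cons 212 171 (.cons 213 231 .nil (.cons 210 229 .nil .nil)) (.cons 210 211 (.exit 0) (.cons 210 211 (.cons 213 172 .nil (.cons 211 232 (.cons 212 253 .nil .nil) .nil)) (.cons 210 229 .nil .nil)))), [], [25]⟩,
   ⟨25, 0, 34, 29, 355, (.cons 212 171 .nil (.cons 210 231 (.exit 0) .nil)), [], [26]⟩]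

theorem oOUTU_3 : grpKU 80 AWN 62 12 SWN kOUTU_2 gOUTU_3 = true := by decide +kernel

theorem wOUTU_3 : wpU ⟨80, AWN, 62, 2759⟩ gOUTU_3 = true := by decide +kernel

/-- the pairs proved -/
def kOUTU_3 : List Mo := keysWU gOUTU_3 kOUTU_2

theorem cOUTU_3 : KU 80 AWN 62 12 2759 SWN kOUTU_0 kOUTU_3 := .grp cOUTU_2 gOUTU_3 oOUTU_3 wOUTU_3

/-- items -/
def gOUTU_4 : List WU :=
  [⟨0, 0, 40, 8, 0, (.cons 210 230 (.exit 0) (.cons 189 169 (.cons 190 231 .nil .nil) (.cons 210 231 (.cons 212 233 .nil (.cons 211 233 .nil .nil)) .nil))), [1], []⟩,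
   ⟨1, 0, 40, 9, 0, (.cons 170 192 (.cons 169 171 .nil (.cons 191 169 .nil .nil)) (.cons 210 231 (.exit 0) (.cons 210 231 (.cons 249 250 .nil .nil) (.cons 191 169 (.cons 170 192 .nil (.cons 168 169 .nil .nil)) .nil)))), [2], []⟩,
   ⟨2, 0, 41, 10, 0, (.cons 149 171 (.cons 228 229 .nil .nil) (.cons 210 230 (.exit 0) (.cons 210 229 (.cons 209 250 .nil .nil) .nil))), [3], []⟩,
   ⟨3, 0, 41, 11, 0, (.cons 210 229 (.exit 0) (.cons 208 188 (.cons 210 229 (.cons 209 250 .nil .nil) .nil) .nil)), [4], []⟩,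
   ⟨4, 0, 40, 12, 0, (.cons 210 230 (.exit 0) (.cons 189 169 (.cons 190 231 .nil .nil) (.cons 210 231 (.cons 212 233 .nil (.cons 211 233 .nil .nil)) .nil))), [5], []⟩,
   ⟨5, 0, 40, 13, 0, (.cons 170 192 (.cons 169 171 .nil (.cons 191 169 .nil .nil)) (.cons 210 231 (.exit 0) (.cons 210 231 (.cons 231 250 .nil .nil) (.cons 191 169 (.cons 170 192 .nil (.cons 168 169 .nil .nil)) .nil)))), [6], []⟩]

theorem oOUTU_4 : grpKU 80 AWN 62 12 SWN kOUTU_3 gOUTU_4 = true := by decide +kernel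

theorem wOUTU_4 : wpU ⟨80, AWN, 62, 2759⟩ gOUTU_4 = true := by decide +kernel

/-- the pairs proved -/
def kOUTU_4 : List Mo := keysWU gOUTU_4 kOUTU_3

theorem cOUTU_4 : KU 80 AWN 62 12 2759 SWN kOUTU_0 kOUTU_4 := .grp cOUTU_3 gOUTU_4 oOUTU_4 wOUTU_4

/-- the pairs at the exit -/
def kOUTL_0 : List Mo := [⟨69, 1⟩]

theorem cOUTL_0 : KL 80 AWN 62 12 2759 SWN kOUTL_0 kOUTL_0 := .nil

/-- items -/
def gOUTL_1 : List WL :=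
  [⟨44, 1, 31, 35, 0, 0, 214, 232, 232, 229, 45, 0, 0⟩,
   ⟨45, 1, 30, 36, 0, 0, 214, 192, 192, 230, 46, 0, 0⟩,
   ⟨46, 1, 30, 37, 0, 0, 193, 171, 171, 229, 47, 0, 0⟩,
   ⟨47, 1, 29, 38, 0, 0, 153, 171, 171, 209, 48, 0, 0⟩,
   ⟨48, 1, 28, 38, 0, 0, 153, 192, 192, 229, 49, 0, 0⟩,
   ⟨49, 1, 27, 39, 0, 0, 153, 192, 192, 209, 50, 0, 0⟩,
   ⟨50, 1, 26, 39, 0, 0, 174, 192, 192, 229, 51, 0, 0⟩,
   ⟨51, 1, 25, 40, 0, 0, 174, 192, 192, 209, 52, 0, 0⟩,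
   ⟨52, 1, 24, 40, 0, 0, 174, 192, 192, 229, 53, 0, 0⟩,
   ⟨53, 1, 23, 41, 0, 0, 174, 192, 192, 209, 54, 0, 0⟩,
   ⟨54, 1, 22, 41, 0, 0, 174, 192, 192, 189, 55, 0, 0⟩,
   ⟨55, 1, 21, 40, 0, 0, 214, 232, 232, 209, 56, 0, 0⟩,
   ⟨56, 1, 20, 40, 0, 0, 214, 232, 232, 229, 57, 0, 0⟩,
   ⟨57, 1, 19, 41, 0, 0, 214, 192, 192, 209, 58, 0, 0⟩,
   ⟨58, 1, 18, 41, 0, 0, 214, 192, 192, 189, 59, 0, 0⟩,
   ⟨59, 1, 17, 40, 0, 0, 214, 232, 232, 209, 60, 0, 0⟩,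
   ⟨60, 1, 16, 40, 0, 0, 214, 232, 232, 229, 61, 0, 0⟩,
   ⟨61, 1, 15, 41, 0, 0, 214, 192, 192, 209, 62, 0, 0⟩,
   ⟨62, 1, 14, 41, 0, 0, 214, 192, 192, 189, 63, 0, 0⟩,
   ⟨63, 1, 13, 40, 0, 0, 214, 232, 232, 209, 64, 0, 0⟩,
   ⟨64, 1, 12, 40, 0, 0, 214, 232, 232, 229, 65, 0, 0⟩,
   ⟨65, 1, 11, 41, 0, 0, 214, 192, 192, 209, 66, 0, 0⟩,
   ⟨66, 1, 10, 41, 0, 0, 214, 192, 192, 189, 67, 0, 0⟩,
   ⟨67, 1, 9, 40, 0, 0, 214, 232, 232, 209, 68, 0, 0⟩,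
   ⟨68, 1, 8, 40, 0, 0, 214, 232, 232, 229, 69, 0, 0⟩]

theorem oOUTL_1 : grpKL 80 AWN 62 12 2759 SWN kOUTL_0 gOUTL_1 = true := by decide +kernel

theorem wOUTL_1 : wpL ⟨80, AWN, 62, 2759⟩ gOUTL_1 = true := by decide +kernel

/-- the pairs proved -/
def kOUTL_1 : List Mo := keysWL gOUTL_1 kOUTL_0

theorem cOUTL_1 : KL 80 AWN 62 12 2759 SWN kOUTL_0 kOUTL_1 := .grp cOUTL_0 gOUTL_1 oOUTL_1 wOUTL_1

/-- items -/
def gOUTL_2 : List WL :=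
  [⟨19, 0, 34, 24, 0, 0, 174, 192, 192, 229, 20, 0, 0⟩,
   ⟨20, 0, 33, 25, 0, 0, 174, 192, 192, 230, 21, 0, 0⟩,
   ⟨21, 0, 33, 26, 0, 0, 153, 171, 171, 229, 22, 0, 0⟩,
   ⟨22, 0, 32, 27, 0, 0, 153, 171, 171, 230, 23, 0, 0⟩,
   ⟨23, 0, 32, 28, 357, 0, 132, 171, 171, 231, 24, 0, 0⟩,
   ⟨24, 0, 33, 29, 356, 0, 130, 169, 169, 211, 25, 0, 0⟩,
   ⟨25, 0, 34, 29, 355, 0, 149, 188, 188, 231, 26, 0, 0⟩,
   ⟨26, 0, 35, 30, 354, 0, 147, 188, 188, 211, 27, 0, 0⟩,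
   ⟨27, 0, 36, 30, 353, 0, 166, 188, 188, 191, 28, 0, 0⟩,
   ⟨28, 0, 37, 29, 352, 0, 206, 228, 228, 211, 29, 0, 0⟩,
   ⟨29, 0, 38, 29, 351, 0, 206, 228, 228, 231, 30, 0, 0⟩,
   ⟨30, 0, 39, 30, 350, 0, 206, 188, 188, 211, 31, 0, 0⟩,
   ⟨31, 0, 40, 30, 349, 0, 206, 188, 188, 231, 32, 0, 0⟩,
   ⟨32, 0, 41, 31, 348, 0, 166, 188, 188, 230, 33, 0, 0⟩,
   ⟨33, 0, 41, 31, 348, 0, 167, 189, 189, 249, 34, 0, 0⟩,
   ⟨34, 0, 40, 33, 349, 0, 149, 171, 171, 229, 35, 0, 0⟩,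
   ⟨35, 0, 39, 34, 350, 3, 0, 0, 0, 209, 36, 0, 0⟩,
   ⟨36, 1, 38, 34, 351, 0, 153, 192, 192, 189, 37, 0, 0⟩,
   ⟨37, 1, 37, 33, 352, 0, 153, 171, 171, 209, 38, 0, 0⟩,
   ⟨38, 1, 36, 33, 353, 0, 214, 232, 232, 229, 39, 0, 0⟩,
   ⟨39, 1, 35, 34, 354, 0, 153, 192, 192, 230, 40, 0, 0⟩,
   ⟨40, 1, 35, 35, 354, 0, 193, 171, 171, 229, 41, 0, 0⟩,
   ⟨41, 1, 34, 36, 355, 0, 153, 171, 171, 209, 42, 0, 0⟩,
   ⟨42, 1, 33, 36, 356, 0, 153, 192, 192, 189, 43, 0, 0⟩,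
   ⟨43, 1, 32, 35, 357, 0, 193, 232, 232, 209, 44, 0, 0⟩]

theorem oOUTL_2 : grpKL 80 AWN 62 12 2759 SWN kOUTL_1 gOUTL_2 = true := by decide +kernel

theorem wOUTL_2 : wpL ⟨80, AWN, 62, 2759⟩ gOUTL_2 = true := by decide +kernel

/-- the pairs proved -/
def kOUTL_2 : List Mo := keysWL gOUTL_2 kOUTL_1

theorem cOUTL_2 : KL 80 AWN 62 12 2759 SWN kOUTL_0 kOUTL_2 := .grp cOUTL_1 gOUTL_2 oOUTL_2 wOUTL_2

/-- items -/
def gOUTL_3 : List WL :=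
  [⟨1, 0, 40, 9, 0, 0, 130, 171, 171, 231, 2, 0, 0⟩,
   ⟨2, 0, 41, 10, 0, 0, 130, 169, 169, 230, 3, 0, 0⟩,
   ⟨3, 0, 41, 11, 0, 0, 130, 169, 169, 229, 4, 0, 0⟩,
   ⟨4, 0, 40, 12, 0, 0, 130, 171, 171, 230, 5, 0, 0⟩,
   ⟨5, 0, 40, 13, 0, 0, 130, 171, 171, 231, 6, 0, 0⟩,
   ⟨6, 0, 41, 14, 0, 0, 130, 169, 169, 230, 7, 0, 0⟩,
   ⟨7, 0, 41, 15, 0, 0, 130, 169, 169, 229, 8, 0, 0⟩,
   ⟨8, 0, 40, 16, 0, 0, 130, 171, 171, 230, 9, 0, 0⟩,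
   ⟨9, 0, 40, 17, 0, 0, 130, 171, 171, 231, 10, 0, 0⟩,
   ⟨10, 0, 41, 18, 0, 0, 130, 169, 169, 230, 11, 0, 0⟩,
   ⟨11, 0, 41, 19, 0, 0, 130, 169, 169, 229, 12, 0, 0⟩,
   ⟨12, 0, 40, 20, 0, 0, 130, 171, 171, 230, 13, 0, 0⟩,
   ⟨13, 0, 40, 21, 0, 0, 130, 171, 171, 229, 14, 0, 0⟩,
   ⟨14, 0, 39, 22, 0, 0, 132, 171, 171, 209, 15, 0, 0⟩,
   ⟨15, 0, 38, 22, 0, 0, 153, 192, 192, 229, 16, 0, 0⟩,
   ⟨16, 0, 37, 23, 0, 0, 153, 192, 192, 209, 17, 0, 0⟩,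
   ⟨17, 0, 36, 23, 0, 0, 174, 192, 192, 229, 18, 0, 0⟩,
   ⟨18, 0, 35, 24, 0, 0, 174, 192, 192, 209, 19, 0, 0⟩]

theorem oOUTL_3 : grpKL 80 AWN 62 12 2759 SWN kOUTL_2 gOUTL_3 = true := by decide +kernel

theorem wOUTL_3 : wpL ⟨80, AWN, 62, 2759⟩ gOUTL_3 = true := by decide +kernel

/-- the pairs proved -/
def kOUTL_3 : List Mo := keysWL gOUTL_3 kOUTL_2

theorem cOUTL_3 : KL 80 AWN 62 12 2759 SWN kOUTL_0 kOUTL_3 := .grp cOUTL_2 gOUTL_3 oOUTL_3 wOUTL_3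

/-- the first item of the lower bound -/
def uOUT : WL := ⟨0, 0, 40, 8, 0, 0, 130, 171, 171, 230, 1, 0, 0⟩

/-- **The certificate.** -/
theorem EOUT_cert : EvC 80 AWN 62 12 2759 SWN 0 69 :=
  ⟨by decide +kernel, by decide +kernel, ⟨kOUTU_4, cOUTU_4, by decide +kernel⟩,
    ⟨kOUTL_3, uOUT, cOUTL_3, rfl, rfl, rfl, rfl, by decide +kernel⟩⟩

end Pool.Agent.Lib.H32C.Loc
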