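import Pool.Agent.Lib.H32C.LocN

/-!
# An additional empty ray

Certificates with allowed marks, where the conditions on the contexts are asked only for patches with allowed
marks; and families of contexts with an additional ray which stays empty.
-/

set_option autoImplicit false

namespace Pool.Agent.Lib.H32C.Loc

/-- a family of contexts with allowed marks; the conditions are asked for patches with allowed marks only -/
structure FamW (R : Room) (P : Par) (Rs : List Ray) (K : Nat → Ctx → Prop) (V : Ctx → Nat → Prop) :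
    Prop where
  ok : ∀ n C, K n C → C.Ok
  rays : ∀ n C, K n C → C.R = Rs
  sep : ∀ n C, K n C → R.Sep C
  lv : P.lv = false
  event : ∀ n C p k a b, ∀ ρ ∈ Rs, K n C → WF C p k → R.G (C.brd p) → see7 p k ρ = true →
    Legal (C.brd p) false a b → ¬ (InB C.o a ∧ cell p (idx C.o a) ≠ 15) →
    Hit C ((C.brd p).move a b) ρ → ValP Rs V C p →
    memb ρ.e P.dead = false ∧ (P.fin = true → n ≠ 0) ∧ ∀ n', n = n' + 1 → ∃ C', K n' C' ∧
      C'.brd (arr' p ρ.e) = (C.brd p).move a b ∧ R.G ((C.brd p).move a b) ∧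
      V C' ρ.e ∧ ∀ ρ' ∈ Rs, cell p ρ'.e = 8 → V C' ρ'.e
  edge : ∀ n C p k, ∀ ρ ∈ Rs, K n C → WF C p k → R.G (C.brd p) → see7 p k ρ = true →
    ValP Rs V C p → ∀ a, Legal (C.brd p) false a (sq C.o ρ.e) → ¬ Edge' C p ρ a

/-- a move of the patch: the statement for the move in the context itself -/
theorem LS_move {R : Room} {P : Par} {Rs : List Ray} {K : Nat → Ctx → Prop} {V : Ctx → Nat → Prop}
    (hK : FamW R P Rs K V) {n : Nat} {C : Ctx} (hn : K n C) {p k m : Nat} (h : WF C p k)
    (hG : R.G (C.brd p)) (hv : ValP Rs V C p) {a b : Sq} (hm : Is C p m a b)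
    (hmo : MoveOk p (m / 400) (m % 400))
    (hch : InCheck ((C.brd p).move a b) true) (hg : LN_Good R Rs K V n p k m) :
    HasValue ⟨(C.brd p).move a b, true⟩ := by
  have hC := hK.ok n C hn
  have h7 : cell p (m / 400) ≠ 7 := by
    have := hmo.src
    omega
  have h1 := hg.2 C
  rw [LK2_mvA_ne h7, LK2_naA_ne h7, ← hK.rays n C hn] at h1
  rw [← hK.rays n C hn] at hv
  have hb := Is.brd hC h hm hmo
  rcases h1 hn (wf_mvb hC h hmo) (Room.G_brd R (hK.sep n C hn) hG) (LN_mvb hC h hmo hv) with h3 | h3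
  · exfalso
    have h4 := safe_noCheck hC (wf_mvb hC h hmo) h3
    rw [hb] at h4
    exact h4 hch
  · rw [hb] at h3
    exact h3

theorem LS_black {R : Room} {P : Par} {Rs : List Ray} {K : Nat → Ctx → Prop} {V : Ctx → Nat → Prop}
    (hK : FamW R P Rs K V) {n : Nat} {C : Ctx} (hn : K n C) {p k : Nat} (h : WF C p k)
    (hG : R.G (C.brd p)) (hv : ValP Rs V C p) (hs : safe Rs p k = true)
    (hg : ∀ m ∈ checksA P Rs n p k, LN_Good R Rs K V n p k m) : HasValue ⟨C.brd p, false⟩ := by
  have hC := hK.ok n C hn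
  have hR := hK.sep n C hn
  have hRs := hK.rays n C hn
  have h0 : 0 ∉ checksA P Rs n p k := fun h0 => (hg 0 h0).1 rfl
  have hs' : safe C.R p k = true := by rw [hRs]; exact hs
  have hKa := kingAt hC h
  have hZ : sq C.o k ∉ R.Z := hR.patch _ (inB_sq C.o h.lt)
  apply hasValue_black (R.legal _ _ hG (oneBK hC h) hKa hZ)
  intro a b hl
  by_cases hch : InCheck ((C.brd p).move a b) true
  swap
  · exact R.mate _ _ a b hG (oneBK hC h) hKa hZ hl hch
  cases hc : has7 Rs p with
  | false =>
    have e : checksA P Rs n p k = checks C.R false p k := by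
      unfold checksA
      rw [hc, hRs]
      rfl
    rw [e] at h0 hg
    rcases checks_complete hC h hs' false h0 a b hl hch with ⟨m, hm1, hm2, hm3⟩ | h3
    · exact LS_move hK hn h hG hv hm2 hm3 hch (hg m hm1)
    · exfalso
      simp at h3
  | true =>
    cases hcl : (Nat.beq (seenM Rs p k) 0 || closedX Rs p (seenM Rs p k) 400) with
    | false =>
      exfalso
      apply h0
      unfold checksA
      rw [hc, hcl]
      exact List.mem_cons_self
    | true =>
      have e : checksA P Rs n p k =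
          arrL P Rs n p k (LK2_out P Rs Rs n p k (checks Rs true p k)) := by
        unfold checksA
        rw [hc, hcl]
        rfl
      rw [e] at h0 hg
      have h0' : 0 ∉ LK2_out P Rs Rs n p k (checks Rs true p k) := fun hh => h0 (LK2_arrL_sub hh)
      have h0'' : 0 ∉ checks C.R true p k := by
        rw [hRs]
        exact fun hh => h0' (LK2_out_sub hh)
      have hcl' : seenM C.R p k = 0 ∨ closedX C.R p (seenM C.R p k) 400 = true := by
        rw [hRs]
        rw [Bool.or_eq_true, LH2_beq] at hcl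
        exact hcl
      rcases event_cases hC h hs' hcl' h0'' a b hl hch with
        ⟨m, hm1, hm2, hm3⟩ | ⟨ρ, hρ, hsee, hhit, hout⟩ | ⟨ρ, hρ, hsee, rfl, hE⟩ |
          ⟨ρ, hρ, h7, ⟨m, hm, rfl⟩, j, hj, hj1, rfl, hj2, hj3⟩
      · rw [hRs] at hm1
        exact LS_move hK hn h hG hv hm2 hm3 hch (hg m (LK2_arrL_sub (LK2_out_sub hm1)))
      · have hρ' : ρ ∈ Rs := by rw [← hRs]; exact hρ
        obtain ⟨hd, hfin, hev⟩ := hK.event n C p k a b ρ hρ' hn h hG hsee hl hout hhit hv
        obtain ⟨hn0, hmem⟩ := LK2_arrL_arr hρ' hsee hd hfin h0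
        obtain ⟨n', rfl⟩ := Nat.exists_eq_succ_of_ne_zero hn0
        obtain ⟨C', hC', hbrd, hG', hV1, hV2⟩ := hev n' rfl
        have h7 : cell p ρ.e = 7 := by
          unfold see7 at hsee
          rw [Bool.and_eq_true, LH2_beq] at hsee
          exact hsee.1
        have he := inner_lt (hC.inner ρ hρ).1
        have h1 := (hg _ hmem).2 C'
        have e1 : naA (n'.succ) p ρ.e = n' := LK2_naA_eq h7
        rw [enc_div he, enc_mod he, LK2_mvA_arr h7, e1] at h1
        have hRs' := hK.rays _ _ hC'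
        have hWF : WF C' (arr' p ρ.e) k := LK2_wf_arr hC (hRs'.trans hRs.symm) h hρ h7
        rw [← hbrd] at hG'
        have hVP : ValP Rs V C' (arr' p ρ.e) := by
          intro ρ' hρ'' h8
          have h9 : cell (arr' p ρ.e) ρ'.e = if ρ'.e = ρ.e then 8 else cell p ρ'.e := cell_arr h7 _
          rw [h9] at h8
          split_ifs at h8 with h10
          · rw [h10]
            exact hV1
          · exact hV2 ρ' hρ'' h8
        rcases h1 hC' hWF hG' hVP with h2 | h2
        · exfalso
          have h3 := safe_noCheck (hK.ok _ _ hC') hWF (hRs' ▸ h2)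
          rw [hbrd] at h3
          exact h3 hch
        · rw [hbrd] at h2
          exact h2
      · exact absurd hE (hK.edge n C p k ρ (by rw [← hRs]; exact hρ) hn h hG hsee hv a hl)
      · exfalso
        have hρ' : ρ ∈ Rs := by rw [← hRs]; exact hρ
        rw [hRs] at hj3
        obtain ⟨hlv, -⟩ := LK2_out_out hρ' h7 h0' hj1 hj2 hj3
        rw [hK.lv] at hlv
        exact Bool.false_ne_true hlv

theorem LS_list {R : Room} {P : Par} {Rs : List Ray} {K : Nat → Ctx → Prop} {V : Ctx → Nat → Prop}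
    (hK : FamW R P Rs K V) (X : List (List Nat))
    (hX : ∀ n C x, K n C → ValP Rs V C x → x ∈ nthL X n → HasValue ⟨C.brd x, false⟩) (tr : Tr) :
    ∀ (_ : tr.Small) (_ : ∀ i, tr ≠ Tr.exit i) (n p k : Nat) (_ : p ≠ 0) (L : List Nat)
    (_ : chkA P Rs X tr n p k L = true),
    p ∈ nthL X n ∨ ∀ m ∈ L, LN_Good R Rs K V n p k m := by
  induction tr with
  | exit i => intro _ h; exact absurd rfl (h i)
  | nil =>
    intro _ _ n p k _ L hc
    right
    induction L with
    | nil => intro m hm; exact absurd hm List.not_mem_nil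
    | cons m L ih =>
      rw [LK2_nil_cons, Bool.and_eq_true, Bool.and_eq_true] at hc
      intro m' hm'
      rcases List.mem_cons.1 hm' with h1 | h1
      · subst h1
        exact ⟨LH2_blt hc.1, fun C' _ _ _ _ => Or.inl hc.2.1⟩
      · exact ih hc.2.2 m' h1
  | cons a b sub rest ihs ihr =>
    intro htr _ n p k hp L hc
    obtain ⟨ha, hsub, hrest⟩ := htr
    induction L with
    | nil => right; intro m hm; exact absurd hm List.not_mem_nil
    | cons m L ih =>
      obtain ⟨hm, hc⟩ := LK2_cons hc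
      have key : (p ∈ nthL X n ∨ ∀ m ∈ L, LN_Good R Rs K V n p k m) ∧
          LN_Good R Rs K V n p k m := by
        rcases hc with ⟨hs, hc⟩ | ⟨hw, hcs, hcr⟩
        · exact ⟨ih hc, hm, fun C' _ _ _ _ => Or.inl hs⟩
        · constructor
          · by_cases hr : ∃ i, rest = Tr.exit i
            · obtain ⟨i, rfl⟩ := hr
              rw [LK2_exit, LH2_beq] at hcr
              left
              rw [← hcr]
              apply LH2_nth
              rw [hcr]
              exact hp
            · push Not at hr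
              exact ihr hrest hr n p k hp L hcr
          · refine ⟨hm, fun C' hn' hq hGq hvq => Or.inr ?_⟩
            have hC' := hK.ok _ _ hn'
            have hR' := hK.rays _ _ hn'
            rw [← hR'] at hw
            have hvm : ValP Rs V C' (mv (mvA Rs p (m / 400) (m % 400)) a b) := by
              have hq2 : WF C' (mvA C'.R p (m / 400) (m % 400)) k := by rw [hR']; exact hq
              have h9 := LN_mv (V := V) hq2 ha hw (by rw [hR']; exact hvq)
              rw [hR'] at h9
              exact h9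
            obtain ⟨hl, hb, hwf, hsafe⟩ := wOk_sound hC' (by rw [hR']; exact hq) ha hw
            rw [hR'] at hl hb hwf hsafe
            refine hasValue_white hl ?_
            rw [← hb]
            have hG' : R.G (C'.brd (mv (mvA Rs p (m / 400) (m % 400)) a b)) :=
              Room.G_brd R (hK.sep _ _ hn') hGq
            by_cases hr : ∃ i, sub = Tr.exit i
            · obtain ⟨i, rfl⟩ := hr
              rw [LK2_exit, LH2_beq] at hcs
              apply hX _ _ _ hn' hvm
              rw [← hcs]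
              apply LH2_nth
              rw [hcs]
              exact LH2_ne_zero hwf
            · push Not at hr
              rcases ihs hsub hr _ _ _ (LH2_ne_zero hwf) _ hcs with h1 | h1
              · exact hX _ _ _ hn' hvm h1
              · exact LS_black hK hn' hwf hG' hvm hsafe h1
      obtain ⟨k1, k2⟩ := key
      rcases k1 with k1 | k1
      · exact Or.inl k1
      · right
        intro m' hm'
        rcases List.mem_cons.1 hm' with h1 | h1
        · subst h1
          exact k2
        · exact k1 m' h1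

/-- **Soundness of certificates with events, allowed marks.** -/
theorem chkA_soundW {R : Room} {P : Par} {Rs : List Ray} {K : Nat → Ctx → Prop} {V : Ctx → Nat → Prop}
    (hK : FamW R P Rs K V) (X : List (List Nat))
    (hX : ∀ n C x, K n C → ValP Rs V C x → x ∈ nthL X n → HasValue ⟨C.brd x, false⟩)
    (tr : Tr) (htr : tr.Small) (hne : ∀ i, tr ≠ Tr.exit i) (n : Nat) (C : Ctx) (hn : K n C)
    (p k : Nat) (h : WF C p k) (hG : R.G (C.brd p)) (hv : ValP Rs V C p) (hs : safe Rs p k = true)
    (hc : chkA P Rs X tr n p k (checksA P Rs n p k) = true) : HasValue ⟨C.brd p, false⟩ := by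
  rcases LS_list hK X hX tr htr hne n p k (LH2_ne_zero h) _ hc with h1 | h1
  · exact hX _ _ _ hn hv h1
  · exact LS_black hK hn h hG hv hs h1

/-! ### An additional ray -/

/-- the context with the additional ray `ρ`, whose first square is `g` -/
def Ctx.add (C : Ctx) (ρ : Ray) (g : Sq) : Ctx := ⟨C.o, C.F, ρ :: C.R, fun i => if i = ρ.e then g else C.f i⟩

/-- the patch without the mark `7` on the cell `e` -/
def hat (e p : Nat) : Nat := if cell p e = 7 then Nat.xor p (Nat.shiftLeft 7 (Nat.mul 4 e)) else p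

theorem cell_hat (e p i : Nat) : cell (hat e p) i = if i = e ∧ cell p e = 7 then 0 else cell p i := by
  unfold hat
  split_ifs with h1 h2 h2
  · obtain ⟨rfl, -⟩ := h2
    rw [LA_cell_xor, LA_cell_shl (by norm_num : 7 < 16)]
    simp [h1]
  · rw [LA_cell_xor, LA_cell_shl (by norm_num : 7 < 16)]
    have : i ≠ e := fun h => h2 ⟨h, h1⟩
    simp [this]
  · exact absurd h2.2 h1
  · rfl

theorem hat_arr {e e' p : Nat} (h : cell p e' = 7) (hne : e' ≠ e) : hat e (arr' p e') = arr' (hat e p) e' := by
  have h1 : cell (arr' p e') e = cell p e := by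
    rw [arr'_eq, cell_arr h, if_neg (fun h => hne h.symm)]
  unfold hat
  rw [h1]
  split_ifs with h2
  · unfold arr'
    show (p ^^^ _) ^^^ _ = (p ^^^ _) ^^^ _
    rw [Nat.xor_assoc, Nat.xor_assoc, Nat.xor_comm (Nat.shiftLeft 15 _)]
  · rfl

/-- the mark `8` of the additional ray does not occur -/
theorem brd_add {C : Ctx} {ρ : Ray} {g : Sq} (hne : ∀ ρ' ∈ C.R, ρ'.e ≠ ρ.e) {p : Nat}
    (h8 : cell p ρ.e ≠ 8) : (C.add ρ g).brd p = C.brd (hat ρ.e p) := by
  funext s
  unfold Ctx.brd
  have e1 : cell (hat ρ.e p) (idx C.o s) = if idx C.o s = ρ.e ∧ cell p ρ.e = 7 then 0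
    else cell p (idx C.o s) := cell_hat _ _ _
  have e2 : (C.add ρ g).o = C.o := rfl
  rw [e1, e2]
  by_cases h1 : idx C.o s = ρ.e ∧ cell p ρ.e = 7
  · rw [if_pos h1]
    by_cases h2 : InB C.o s
    · rw [if_pos ⟨h2, by rw [h1.1, h1.2]; decide⟩, if_pos ⟨h2, by decide⟩, h1.1, h1.2]
      rfl
    · rw [if_neg (fun h => h2 h.1), if_neg (fun h => h2 h.1)]
      have e3 : (C.add ρ g).R.find? (fun ρ' => decide (s = (C.add ρ g).f ρ'.e ∧ cell p ρ'.e = 8)) =
          C.R.find? (fun ρ' => decide (s = C.f ρ'.e ∧ cell (hat ρ.e p) ρ'.e = 8)) := by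
        show (ρ :: C.R).find? _ = _
        rw [List.find?_cons_of_neg (by simp [h8])]
        refine LB_find_congr _ _ _ fun ρ' hρ' => ?_
        have e4 : (C.add ρ g).f ρ'.e = C.f ρ'.e := if_neg (hne ρ' hρ')
        rw [e4, cell_hat, if_neg (fun h => hne ρ' hρ' h.1)]
      rw [e3]
      rfl
  · rw [if_neg h1]
    by_cases h2 : InB C.o s ∧ cell p (idx C.o s) ≠ 15
    · rw [if_pos h2, if_pos h2]
    · rw [if_neg h2, if_neg h2]
      have e3 : (C.add ρ g).R.find? (fun ρ' => decide (s = (C.add ρ g).f ρ'.e ∧ cell p ρ'.e = 8)) =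
          C.R.find? (fun ρ' => decide (s = C.f ρ'.e ∧ cell (hat ρ.e p) ρ'.e = 8)) := by
        show (ρ :: C.R).find? _ = _
        rw [List.find?_cons_of_neg (by simp [h8])]
        refine LB_find_congr _ _ _ fun ρ' hρ' => ?_
        have e4 : (C.add ρ g).f ρ'.e = C.f ρ'.e := if_neg (hne ρ' hρ')
        rw [e4, cell_hat, if_neg (fun h => hne ρ' hρ' h.1)]
      rw [e3]
      rfl

theorem wf_hat {C : Ctx} {ρ : Ray} {g : Sq} {p k : Nat} (h : WF (C.add ρ g) p k)
    (h8 : cell p ρ.e ≠ 8) : WF C (hat ρ.e p) k where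
  lt := h.lt
  king := by
    rw [cell_hat, if_neg, h.king]
    rintro ⟨rfl, h1⟩
    rw [h.king] at h1
    exact absurd h1 (by decide)
  uniq := by
    intro i hi h6
    rw [cell_hat] at h6
    split_ifs at h6 with h1
    exact h.uniq i hi h6
  margin := by
    intro i hi hin
    rw [cell_hat, if_neg, h.margin i hi hin]
    rintro ⟨rfl, h1⟩
    rw [h.margin _ hi hin] at h1
    exact absurd h1 (by decide)
  mark := by
    intro i hi h6
    rw [cell_hat] at h6
    split_ifs at h6 with h1
    · rcases h6 with h6 | h6 <;> exact absurd h6 (by decide)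
    · obtain ⟨ρ', hρ', he⟩ := h.mark i hi h6
      rcases List.mem_cons.1 (show ρ' ∈ ρ :: C.R from hρ') with rfl | hρ''
      · exfalso
        rcases h6 with h6 | h6
        · exact h1 ⟨he.symm, by rw [he]; exact h6⟩
        · rw [← he] at h6
          exact h8 h6
      · exact ⟨ρ', hρ'', he⟩
  noBK := by
    intro i hi
    rw [cell_hat]
    split_ifs
    · decide
    · exact h.noBK i hi
  ray15 := by
    intro ρ' hρ' i hi ho
    have h1 := h.ray15 ρ' (List.mem_cons_of_mem _ hρ') i hi ho
    rw [cell_hat, if_neg]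
    · exact h1
    · rintro ⟨rfl, h2⟩
      rw [h1] at h2
      exact absurd h2 (by decide)

/-- the first nonempty cell does not change -/
theorem first_hat {e p t : Nat} (n : Nat) : ∀ {i : Nat}, first p t n i ≠ e → first p t n i ≠ 0 →
    first (hat e p) t n i = first p t n i := by
  induction n with
  | zero => intro i _ _; rfl
  | succ n ih =>
    intro i h1 h2
    have e1 : ∀ q, first q t (n + 1) i = cond (Nat.beq (cell q (stp t i)) 0) (first q t n (stp t i))
      (stp t i) := fun q => rfl
    rw [e1] at h1 h2 ⊢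
    rw [e1]
    by_cases h3 : cell p (stp t i) = 0
    · have h4 : cell (hat e p) (stp t i) = 0 := by
        rw [cell_hat]
        split_ifs
        · rfl
        · exact h3
      rw [LH2_beq.2 h3, cond_true] at h1 h2
      rw [LH2_beq.2 h4, LH2_beq.2 h3, cond_true, cond_true]
      exact ih h1 h2
    · have h5 : Nat.beq (cell p (stp t i)) 0 = false := by
        rw [← Bool.not_eq_true, LH2_beq]
        exact h3
      rw [h5, cond_false] at h1 h2
      have h4 : cell (hat e p) (stp t i) = cell p (stp t i) := by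
        rw [cell_hat, if_neg (fun h => h1 h.1)]
      have h6 : Nat.beq (cell (hat e p) (stp t i)) 0 = false := by
        rw [← Bool.not_eq_true, LH2_beq, h4]
        exact h3
      rw [h5, h6]
      rfl

theorem see7_hat {e p k : Nat} {ρ : Ray} (hne : ρ.e ≠ e) (h0 : ρ.e ≠ 0) (h : see7 p k ρ = true) :
    see7 (hat e p) k ρ = true := by
  unfold see7 at h ⊢
  rw [Bool.and_eq_true, LH2_beq, LH2_beq] at h ⊢
  obtain ⟨h1, h2⟩ := h
  have h3 : cell (hat e p) ρ.e = 7 := by
    rw [cell_hat, if_neg (fun h => hne h.1)]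
    exact h1
  refine ⟨h3, ?_⟩
  rw [first_hat 20 (by rw [h2]; exact hne) (by rw [h2]; exact h0), h2]

/-- the data of an additional ray for a family of contexts -/
structure AddR (R : Room) (P : Par) (Rs : List Ray) (K : Nat → Ctx → Prop) (ρ : Ray) (g : Sq) : Prop where
  fam : Family R P Rs K
  lv : P.lv = false
  ne : ∀ ρ' ∈ Rs, ρ'.e ≠ ρ.e
  ok : ∀ n C, K n C → (C.add ρ g).Ok
  z : g ∉ R.Z
  hit : ∀ n C p k a b, K n C → WF (C.add ρ g) p k → R.G ((C.add ρ g).brd p) → see7 p k ρ = true →
    cell p ρ.e ≠ 8 → Legal ((C.add ρ g).brd p) false a b →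
    ¬ (InB C.o a ∧ cell p (idx C.o a) ≠ 15) → ¬ Hit (C.add ρ g) (((C.add ρ g).brd p).move a b) ρ
  edge : ∀ n C p k, K n C → WF (C.add ρ g) p k → R.G ((C.add ρ g).brd p) → see7 p k ρ = true →
    cell p ρ.e ≠ 8 → ∀ a, ¬ Edge' (C.add ρ g) p ρ a

/-- **A family with an additional empty ray.** -/
theorem AddR.famW {R : Room} {P : Par} {Rs : List Ray} {K : Nat → Ctx → Prop} {ρ : Ray} {g : Sq}
    (h : AddR R P Rs K ρ g) : FamW R ⟨P.lv, ρ.e :: P.dead, P.fin⟩ (ρ :: Rs)
      (fun n C' => ∃ C, K n C ∧ C' = C.add ρ g) (fun _ i => i ≠ ρ.e) where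
  ok := by
    rintro n _ ⟨C, hC, rfl⟩
    exact h.ok n C hC
  rays := by
    rintro n _ ⟨C, hC, rfl⟩
    show ρ :: C.R = ρ :: Rs
    rw [h.fam.rays n C hC]
  sep := by
    rintro n _ ⟨C, hC, rfl⟩
    have h1 := h.fam.sep n C hC
    refine ⟨h1.patch, fun ρ' hρ' => ?_⟩
    rcases List.mem_cons.1 hρ' with rfl | hρ''
    · show (if ρ'.e = ρ'.e then g else _) ∉ R.Z
      rw [if_pos rfl]
      exact h.z
    · show (if ρ'.e = ρ.e then g else C.f ρ'.e) ∉ R.Z
      rw [if_neg (h.ne ρ' (by rw [← h.fam.rays n C hC]; exact hρ''))]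
      exact h1.far ρ' hρ''
  lv := h.lv
  event := by
    rintro n _ p k a b ρ' hρ' ⟨C, hC, rfl⟩ hp hG hs hl hout hh hv
    have h8 : cell p ρ.e ≠ 8 := fun h8 => hv ρ List.mem_cons_self h8 rfl
    have hRs := h.fam.rays n C hC
    have hne : ∀ ρ' ∈ C.R, ρ'.e ≠ ρ.e := by rw [hRs]; exact h.ne
    rcases List.mem_cons.1 hρ' with rfl | hρ''
    · exact absurd hh (h.hit n C p k a b hC hp hG hs h8 hl hout)
    · have hnn := h.ne ρ' hρ''
      have hb := brd_add (g := g) hne h8
      have hin := (h.ok n C hC).inner ρ' (List.mem_cons_of_mem _ (by rw [hRs]; exact hρ''))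
      have h0 : ρ'.e ≠ 0 := by
        intro h0
        have h1 := hin.1
        unfold Inner at h1
        omega
      have h7 : cell p ρ'.e = 7 := by
        unfold see7 at hs
        exact Nat.eq_of_beq_eq_true (Bool.and_eq_true_iff.1 hs).1
      rw [hb] at hG hl hh
      obtain ⟨g1, g2, g3⟩ := h.fam.event n C (hat ρ.e p) k a b ρ' hρ'' hC (wf_hat hp h8) hG
        (see7_hat hnn h0 hs) hl (by
          rintro ⟨h1, h2⟩
          refine hout ⟨h1, fun h3 => h2 ?_⟩
          rw [cell_hat]
          rw [if_neg]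
          · exact h3
          · rintro ⟨h4, h5⟩
            rw [← h4] at h5
            have h6 : cell p (idx C.o a) = 15 := h3
            rw [h6] at h5
            exact absurd h5 (by decide)) hh
      refine ⟨?_, g2, fun n' hn' => ?_⟩
      · show memb ρ'.e (ρ.e :: P.dead) = false
        have e1 : memb ρ'.e (ρ.e :: P.dead) = (Nat.beq ρ'.e ρ.e || memb ρ'.e P.dead) := rfl
        have e2 : Nat.beq ρ'.e ρ.e = false := by
          rw [← Bool.not_eq_true, LH2_beq]
          exact hnn
        rw [e1, e2, g1]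
        rfl
      · obtain ⟨C', hC', hb', hG'⟩ := g3 n' hn'
        refine ⟨C'.add ρ g, ⟨C', hC', rfl⟩, ?_, ?_, hnn, fun ρ₂ hρ₂ h82 he => ?_⟩
        · have hne' : ∀ ρ' ∈ C'.R, ρ'.e ≠ ρ.e := by rw [h.fam.rays n' C' hC']; exact h.ne
          rw [brd_add (g := g) hne', hat_arr h7 hnn, hb', hb]
          rw [arr'_eq, cell_arr h7, if_neg (fun h => hnn h.symm)]
          exact h8
        · rw [hb]
          exact hG'
        · rw [he] at h82
          exact h8 h82
  edge := by
    rintro n _ p k ρ' hρ' ⟨C, hC, rfl⟩ hp hG hs hv a hl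
    have h8 : cell p ρ.e ≠ 8 := fun h8 => hv ρ List.mem_cons_self h8 rfl
    have hRs := h.fam.rays n C hC
    have hne : ∀ ρ' ∈ C.R, ρ'.e ≠ ρ.e := by rw [hRs]; exact h.ne
    rcases List.mem_cons.1 hρ' with rfl | hρ''
    · exact h.edge n C p k hC hp hG hs h8 a
    · have hnn := h.ne ρ' hρ''
      have hb := brd_add (g := g) hne h8
      have hin := (h.ok n C hC).inner ρ' (List.mem_cons_of_mem _ (by rw [hRs]; exact hρ''))
      have h0 : ρ'.e ≠ 0 := by
        intro h0
        have h1 := hin.1
        unfold Inner at h1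
        omega
      rw [hb] at hG hl
      intro hE
      refine h.fam.edge n C (hat ρ.e p) k ρ' hρ'' hC (wf_hat hp h8) hG (see7_hat hnn h0 hs) a hl ?_
      obtain ⟨u, hu, hne2, hin2, l, hl2, ha, hcl, κ, hB, hκ⟩ := hE
      refine ⟨u, hu, hne2, hin2, l, hl2, ha, fun i hi hi2 => ?_, κ, ?_, hκ⟩
      · rw [← hb]
        exact hcl i hi hi2
      · rw [← hb]
        exact hB

end Pool.Agent.Lib.H32C.Loc
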