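import Pool.Agent.Lib.H32C.FwB
import Pool.Agent.Lib.H32C.LocS

/-!
# Touches: the file below the special square

In the upper bound of a touch, when no queen stands on the file, the White king may step on the file.  In the patches
there is then a second ray, which goes down, and which stays empty.
-/

set_option autoImplicit false

namespace Pool.Agent.Lib.H32C.Loc

variable {G : FGeo} {B0 : Board} {p₀ : Qn} {R : Room} {T : WT} {O : Sq} {X Y e e2 : Nat} {yb : ℤ}

/-- the ray which goes down -/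
def rS (e2 : Nat) : Ray := ⟨e2, 22, 13⟩

/-- A Black slider of kind `κ` which is static or far stands on `a`, and `a` and `c` are on a line of this slider. -/
def Comes (G : FGeo) (B0 : Board) (κ : Kind) (a c : Sq) : Prop :=
  (B0 a = some (false, κ) ∨ (G.Outside a ∧ κ = Kind.queen)) ∧ (κ = Kind.queen ∨ κ = Kind.rook) ∧
    (OrthI a c ∨ (κ = Kind.queen ∧ DiagI a c))

/-- what is known about the file of a touch below the special square; `(G.col p₀, yb)` is the first static
square -/
structure SCol (G : FGeo) (B0 : Board) (p₀ : Qn) (R : Room) (T : WT) (O : Sq) (yb : ℤ) : Prop where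
  low : yb < O.2 + 2
  blk : B0 (G.col p₀, yb) = some (false, Kind.pawn)
  blk2 : ∃ m, B0 (G.col p₀, yb - 1) = some m ∧ (m.2 = Kind.pawn ∨ m.2 = Kind.knight)
  clr : ∀ y, yb < y → y ≤ (sqA O T.z).2 → B0 (G.col p₀, y) = none
  hull : ∀ y, yb - 1 ≤ y → y ≤ (sqA O T.z).2 →
    y ≤ G.T ∧ ¬ G.Zone (G.col p₀, y) ∧ (G.col p₀, y) ≠ G.hb
  room : ∀ y, yb < y → y ≤ (sqA O T.z).2 → (G.col p₀, y) ∉ R.Z
  closed : ∀ y, yb < y → y ≤ (sqA O T.z).2 → (G.col p₀, y) ∉ CoreH 2 T.H O →
    ∀ a κ, Comes G B0 κ a (G.col p₀, y) → a.1 ≠ G.col p₀ →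
      ∃ d, BetwI a (G.col p₀, y) d ∧ d ∉ CoreH 3 T.H O ∧ B0 d ≠ none

/-- facts about a patch with the mark of the ray down on the cell `e2` -/
structure SPt (G : FGeo) (B0 : Board) (p₀ : Qn) (T : WT) (O : Sq) (yb : ℤ) (X Y e2 : Nat) : Prop where
  inn : Inner e2
  out : ¬ Inner (stp 22 e2)
  col : (sq (orgP O X Y) e2).1 = G.col p₀
  le : (sq (orgP O X Y) e2).2 ≤ (sqA O T.z).2
  gt : yb + 1 < (sq (orgP O X Y) e2).2
  closed : ∀ y, yb < y → y < (sq (orgP O X Y) e2).2 →
    ∀ a κ, Comes G B0 κ a (G.col p₀, y) → a.1 ≠ G.col p₀ →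
      ∃ d, BetwI a (G.col p₀, y) d ∧ d ∉ inP O X Y ∧ B0 d ≠ none
  edge : ∀ u ∈ orT ++ diT, u ≠ 22 → ¬ Inner (stp u e2) →
    ∃ m, B0 (sq (orgP O X Y) e2 + vec u) = some m ∧ (m.2 = Kind.pawn ∨ m.2 = Kind.knight)

/-- the first square of the ray down -/
def gS (O : Sq) (X Y e2 : Nat) : Sq := sq (orgP O X Y) e2 + 1 • vec 22

theorem tos_ray (c : Sq) (i : ℕ) : c + i • vec 22 = (c.1, c.2 - (i : ℤ)) := by
  have h : vec 22 = (0, -1) := by decide
  rw [h]
  ext
  · simp
  · simp
    ring

theorem tos_up (c : Sq) (i : ℕ) : c + i • vec 62 = (c.1, c.2 + (i : ℤ)) := by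
  have h : vec 62 = (0, 1) := by decide
  rw [h]
  ext
  · simp
  · simp

theorem tos_rows (hin : Inner e) (hout : ¬ Inner (stp 62 e)) (hin2 : Inner e2)
    (hout2 : ¬ Inner (stp 22 e2)) :
    (sq (orgP O X Y) e2).2 + 15 = (sq (orgP O X Y) e).2 := by
  unfold Inner stp at *
  simp only [sq, orgP]
  have e1 : Nat.sub (Nat.add e 62) 42 = e + 62 - 42 := rfl
  have e2' : Nat.sub (Nat.add e2 22) 42 = e2 + 22 - 42 := rfl
  simp only [e1, e2'] at *
  omega

section ctx

variable {F : Far} {A : Qn → Prop} {bp : Prop} {f : Sq} {n : ℕ}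

/-- the context with the ray down -/
theorem tos_ok (ht : T.t = 62) (hT : WinT G B0 (Svc.T p₀) R T O)
    (hP : WinP G B0 (Svc.T p₀) T O X Y e) (hS : SCol G B0 p₀ R T O yb)
    (hQ : SPt G B0 p₀ T O yb X Y e2) (hF : FarS G (Svc.T p₀) F A)
    (hC : (cxW T O X Y e (farB G B0 F A bp) f).Ok) :
    ((cxW T O X Y e (farB G B0 F A bp) f).add (rS e2) (gS O X Y e2)).Ok := by
  have hrow := tos_rows (O := O) (X := X) (Y := Y) hP.inn (by rw [← ht]; exact hP.out) hQ.inn hQ.out
  have hne : e ≠ e2 := by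
    rintro rfl
    omega
  have hB : ∀ y, yb - 1 ≤ y → y ≤ (sqA O T.z).2 → farB G B0 F A bp (G.col p₀, y) = B0 (G.col p₀, y) := by
    intro y h1 h2
    obtain ⟨h3, h4, h5⟩ := hS.hull y h1 h2
    exact farB_hull hT hF.b hF.out (by show y ≤ G.T + 1; omega) h4 h5
  have hray : ∀ i : ℕ, sq (orgP O X Y) e2 + i • vec 22 =
      (G.col p₀, (sq (orgP O X Y) e2).2 - (i : ℤ)) := by
    intro i
    rw [tos_ray, hQ.col]
  have hle := hQ.le
  have hgt := hQ.gt
  refine ⟨hC.noK, ?_, ?_, ?_, ?_, ?_, ?_⟩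
  · show ((rS e2 :: [⟨e, T.t, 13⟩] : List Ray).map (fun ρ => ρ.e)).Nodup
    simp [rS, hne.symm]
  · intro ρ hρ
    rcases List.mem_cons.1 hρ with rfl | hρ'
    · exact Or.inl ⟨(by decide : (22 : ℕ) ∈ orT), Or.inr rfl⟩
    · exact hC.kind ρ hρ'
  · intro ρ hρ
    rcases List.mem_cons.1 hρ with rfl | hρ'
    · exact ⟨hQ.inn, fun _ => hQ.out⟩
    · exact hC.inner ρ hρ'
  · intro ρ hρ i hi hcl m hm
    rcases List.mem_cons.1 hρ with rfl | hρ'
    · have hcl' : ∀ j : ℕ, 0 < j → j < i →
          farB G B0 F A bp (sq (orgP O X Y) e2 + j • vec 22) = none := hcl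
      have hm' : farB G B0 F A bp (sq (orgP O X Y) e2 + i • vec 22) = some m := hm
      rw [hray] at hm'
      rcases lt_trichotomy ((sq (orgP O X Y) e2).2 - (i : ℤ)) yb with h1 | h1 | h1
      · exfalso
        have h2 := hcl' ((sq (orgP O X Y) e2).2 - yb).toNat (by omega) (by omega)
        rw [hray, Int.toNat_of_nonneg (by omega), hB _ (by omega) (by omega), sub_sub_cancel, hS.blk] at h2
        cases h2
      · rw [hB _ (by omega) (by omega), h1, hS.blk] at hm'
        have h2 : (false, Kind.pawn) = m := by simpa using hm'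
        rw [← h2]
        exact Or.inl rfl
      · rw [hB _ (by omega) (by omega), hS.clr _ h1 (by omega)] at hm'
        cases hm'
    · exact hC.empty ρ hρ' i hi hcl m hm
  · intro ρ hρ
    rcases List.mem_cons.1 hρ with rfl | hρ'
    · refine ⟨1, one_pos, ?_, fun i hi hi1 => ?_⟩
      · show (if e2 = e2 then gS O X Y e2 else _) = _
        rw [if_pos rfl]
        rfl
      · obtain rfl : i = 1 := by omega
        show farB G B0 F A bp (sq (orgP O X Y) e2 + 1 • vec 22) = none
        rw [hray, hB _ (by omega) (by omega)]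
        exact hS.clr _ (by omega) (by omega)
    · have hne' : ρ.e ≠ e2 := by
        have h1 : ρ = ⟨e, T.t, 13⟩ := List.mem_singleton.1 hρ'
        rw [h1]
        exact hne
      obtain ⟨i, h1, h2, h3⟩ := hC.far ρ hρ'
      refine ⟨i, h1, ?_, h3⟩
      show (if ρ.e = e2 then gS O X Y e2 else _) = _
      rw [if_neg hne']
      exact h2
  · have hN : ∀ i : ℕ, (sq (orgP O X Y) e + i • vec T.t).2 = (sq (orgP O X Y) e).2 + (i : ℤ) := by
      intro i
      have h : vec 62 = (0, 1) := by decide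
      rw [ht, h]
      simp
    have key : ∀ i j : ℕ, 0 < i → 0 < j →
        sq (orgP O X Y) e2 + i • vec 22 ≠ sq (orgP O X Y) e + j • vec T.t := by
      intro i j hi hj h
      have h1 := congrArg Prod.snd h
      rw [hray, hN] at h1
      simp only at h1
      omega
    intro ρ hρ ρ' hρ' hee i j hi hj
    rcases List.mem_cons.1 hρ with rfl | hρ1 <;> rcases List.mem_cons.1 hρ' with rfl | hρ2
    · exact absurd rfl hee
    · have h1 : ρ' = ⟨e, T.t, 13⟩ := List.mem_singleton.1 hρ2
      rw [h1]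
      exact key i j hi hj
    · have h1 : ρ = ⟨e, T.t, 13⟩ := List.mem_singleton.1 hρ1
      rw [h1]
      exact fun h => key j i hj hi h.symm
    · exact hC.disj ρ hρ1 ρ' hρ2 hee i j hi hj

/-- nobody comes to the ray down -/
theorem tos_hit (ht : T.t = 62) (hT : WinT G B0 (Svc.T p₀) R T O)
    (hP : WinP G B0 (Svc.T p₀) T O X Y e) (hS : SCol G B0 p₀ R T O yb)
    (hQ : SPt G B0 p₀ T O yb X Y e2) (hF : FarS G (Svc.T p₀) F A)
    (hC : (cxW T O X Y e (farB G B0 F A bp) f).Ok) (hn : 0 < n) (hf : f = rayW T O X Y e n)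
    {p k : Nat} {a b : Sq}
    (hp : WF ((cxW T O X Y e (farB G B0 F A bp) f).add (rS e2) (gS O X Y e2)) p k)
    (hs : see7 p k (rS e2) = true)
    (hl : Legal (((cxW T O X Y e (farB G B0 F A bp) f).add (rS e2) (gS O X Y e2)).brd p) false a b)
    (hout : ¬ (InB (orgP O X Y) a ∧ cell p (idx (orgP O X Y) a) ≠ 15)) :
    ¬ Hit ((cxW T O X Y e (farB G B0 F A bp) f).add (rS e2) (gS O X Y e2))
      ((((cxW T O X Y e (farB G B0 F A bp) f).add (rS e2) (gS O X Y e2)).brd p).move a b) (rS e2) := by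
  have hCa := tos_ok ht hT hP hS hQ hF hC
  have hrow := tos_rows (O := O) (X := X) (Y := Y) hP.inn (by rw [← ht]; exact hP.out) hQ.inn hQ.out
  have hle := hQ.le
  have hgt := hQ.gt
  have hcol := hQ.col
  have hB : ∀ y, yb - 1 ≤ y → y ≤ (sqA O T.z).2 → farB G B0 F A bp (G.col p₀, y) = B0 (G.col p₀, y) := by
    intro y h1 h2
    obtain ⟨h3, h4, h5⟩ := hS.hull y h1 h2
    exact farB_hull hT hF.b hF.out (by show y ≤ G.T + 1; omega) h4 h5
  have hray : ∀ i : ℕ, sq (orgP O X Y) e2 + i • vec 22 =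
      (G.col p₀, (sq (orgP O X Y) e2).2 - (i : ℤ)) := by
    intro i
    rw [tos_ray, hcol]
  -- the far slider of the ray up
  have hfr : f.1 = G.col p₀ ∧ (sq (orgP O X Y) e2).2 < f.2 := by
    have h1 : G.line (Svc.T p₀) f := by rw [hf]; exact (rayW_line hP hn).1
    refine ⟨h1.1, ?_⟩
    rw [hf]
    unfold rayW
    rw [ht, tos_up]
    simp only
    omega
  obtain ⟨h7, n', hS7⟩ := fwb1_sees (e := e2) hp (by decide : (22 : ℕ) ∈ orT) hs
  have hout' : ∀ c : Sq, ¬ (InB (orgP O X Y) c ∧ cell p (idx (orgP O X Y) c) ≠ 15) → c ≠ f →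
      ((cxW T O X Y e (farB G B0 F A bp) f).add (rS e2) (gS O X Y e2)).brd p c =
        farB G B0 F A bp c := by
    intro c hc hcf
    refine brd_out (C := (cxW T O X Y e (farB G B0 F A bp) f).add (rS e2) (gS O X Y e2)) hc ?_
    intro ρ hρ hcρ
    rcases List.mem_cons.1 hρ with rfl | hρ'
    · show cell p e2 ≠ 8
      rw [h7]
      decide
    · exfalso
      have h1 : ρ = ⟨e, T.t, 13⟩ := List.mem_singleton.1 hρ'
      rw [h1] at hcρ
      apply hcf
      rw [hcρ]
      show (if e = e2 then gS O X Y e2 else if e = e then f else (0, 0)) = f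
      rw [if_neg, if_pos rfl]
      rintro rfl
      omega
  have hout2 : ∀ i : ℕ, 0 < i → (G.col p₀, (sq (orgP O X Y) e2).2 - (i : ℤ)) ∉ inP O X Y := by
    intro i hi h1
    have h2 := hQ.inn
    have h3 := hQ.out
    unfold Inner at h2
    unfold Inner stp at h3
    obtain ⟨-, -, h5, -⟩ := h1
    simp only [sq, orgP] at h5
    have e1 : Nat.sub (Nat.add e2 22) 42 = e2 + 22 - 42 := rfl
    rw [e1] at h3
    omega
  have hbr : ∀ i : ℕ, 0 < i →
      ((cxW T O X Y e (farB G B0 F A bp) f).add (rS e2) (gS O X Y e2)).brd p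
        (G.col p₀, (sq (orgP O X Y) e2).2 - (i : ℤ)) =
      farB G B0 F A bp (G.col p₀, (sq (orgP O X Y) e2).2 - (i : ℤ)) := by
    intro i hi
    refine hout' _ (fwb1_inP (C := (cxW T O X Y e (farB G B0 F A bp) f).add (rS e2) (gS O X Y e2))
      rfl hp (hout2 i hi)) ?_
    intro h
    have h1 := hfr.2
    rw [← h] at h1
    simp only at h1
    omega
  obtain ⟨N, hN⟩ : ∃ N : ℕ, (sq (orgP O X Y) e2).2 - (N : ℤ) = yb ∧ 1 < N :=
    ⟨((sq (orgP O X Y) e2).2 - yb).toNat, by omega, by omega⟩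
  generalize hBd : ((cxW T O X Y e (farB G B0 F A bp) f).add (rS e2) (gS O X Y e2)).brd p = Bd at *
  have hking : Bd (sq (orgP O X Y) k) = some (true, Kind.king) := by
    rw [← hBd]
    exact (kingAt hCa hp).1
  rintro ⟨m, hm, hcl, κ, hκm, hκ⟩
  have hκ2 : κ = Kind.queen ∨ κ = Kind.rook := by
    rcases hκ with h | ⟨-, h⟩ | ⟨h, -⟩
    · exact Or.inl h
    · exact Or.inr h
    · exact absurd h (by decide : (22 : ℕ) ∉ diT)
  have hκm' : Bd.move a b (sq (orgP O X Y) e2 + m • vec 22) = some (false, κ) := hκm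
  have hcl' : ∀ i : ℕ, 0 < i → i < m → Bd.move a b (sq (orgP O X Y) e2 + i • vec 22) = none := hcl
  clear hκm hcl hκ
  rw [hray] at hκm'
  have hpn : ∀ m' : Man, (m'.2 = Kind.pawn ∨ m'.2 = Kind.knight) → (false, κ) ≠ m' := by
    rintro m' h1 rfl
    rcases hκ2 with rfl | rfl <;> rcases h1 with h1 | h1 <;> cases h1
  -- the man which moves
  have hMa : (G.col p₀, (sq (orgP O X Y) e2).2 - (m : ℤ)) = b → Bd a = some (false, κ) := by
    intro hb
    unfold Board.move at hκm'
    by_cases h1 : (G.col p₀, (sq (orgP O X Y) e2).2 - (m : ℤ)) = a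
    · rw [if_pos h1] at hκm'
      cases hκm'
    · rw [if_neg h1, if_pos hb] at hκm'
      exact hκm'
  obtain ⟨ma, hma⟩ : ∃ m', Bd a = some m' := by
    obtain ⟨⟨m', hm', -⟩, -⟩ := hl
    exact ⟨m', hm'⟩
  have hval : ∀ i : ℕ, 0 < i → i ≤ N + 1 →
      Bd (G.col p₀, (sq (orgP O X Y) e2).2 - (i : ℤ)) =
        B0 (G.col p₀, (sq (orgP O X Y) e2).2 - (i : ℤ)) := by
    intro i hi hiN
    rw [hbr i hi]
    exact hB _ (by omega) (by omega)
  have hvN : Bd (G.col p₀, (sq (orgP O X Y) e2).2 - (N : ℤ)) = some (false, Kind.pawn) := by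
    rw [hval N (by omega) (by omega), hN.1, hS.blk]
  obtain ⟨m2, hm2, hm2q⟩ := hS.blk2
  have hvN1 : Bd (G.col p₀, (sq (orgP O X Y) e2).2 - ((N + 1 : ℕ) : ℤ)) = some m2 := by
    rw [hval (N + 1) (by omega) (by omega), ← hm2]
    congr 2
    push_cast
    omega
  have hinj : ∀ i j : ℕ, (G.col p₀, (sq (orgP O X Y) e2).2 - (i : ℤ)) =
      (G.col p₀, (sq (orgP O X Y) e2).2 - (j : ℤ)) → i = j := by
    intro i j h
    have h1 := congrArg Prod.snd h
    simp only at h1
    omega
  -- a square of the ray which is left empty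
  have hemp : ∀ i : ℕ, 0 < i → i < m → ∀ v, Bd (G.col p₀, (sq (orgP O X Y) e2).2 - (i : ℤ)) = some v →
      (G.col p₀, (sq (orgP O X Y) e2).2 - (i : ℤ)) = a := by
    intro i hi him v hv
    have h1 := hcl' i hi him
    rw [hray] at h1
    by_contra h2
    unfold Board.move at h1
    rw [if_neg h2] at h1
    split_ifs at h1 with h3
    · rw [hma] at h1
      cases h1
    · rw [hv] at h1
      cases h1
  by_cases hb : (G.col p₀, (sq (orgP O X Y) e2).2 - (m : ℤ)) = b
  swap
  · have h1 : Bd (G.col p₀, (sq (orgP O X Y) e2).2 - (m : ℤ)) = some (false, κ) := by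
      unfold Board.move at hκm'
      split_ifs at hκm' with h2
      exact hκm'
    rcases lt_trichotomy m N with h2 | h2 | h2
    · rw [hval m hm (by omega), hS.clr _ (by omega) (by omega)] at h1
      cases h1
    · rw [h2, hvN] at h1
      exact hpn (false, Kind.pawn) (Or.inl rfl) (by simpa using h1.symm)
    · have h3 := hemp N (by omega) h2 _ hvN
      rcases lt_or_eq_of_le (show N + 1 ≤ m by omega) with h4 | h4
      · have h5 := hemp (N + 1) (by omega) h4 _ hvN1
        have h6 := hinj _ _ (h3.trans h5.symm)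
        omega
      · rw [← h4, hvN1] at h1
        exact hpn m2 hm2q (by simpa using h1.symm)
  have hM := hMa hb
  have hmne : ∀ i : ℕ, 0 < i → i ≤ N → (G.col p₀, (sq (orgP O X Y) e2).2 - (i : ℤ)) ≠ a := by
    rintro i hi hiN rfl
    rcases lt_or_eq_of_le hiN with h1 | h1
    · rw [hval i hi (by omega), hS.clr _ (by omega) (by omega)] at hM
      cases hM
    · rw [h1, hvN] at hM
      exact hpn (false, Kind.pawn) (Or.inl rfl) (by simpa using hM.symm)
  obtain ⟨hcan, -⟩ := hl
  obtain ⟨g1, g2, g3⟩ := canGo_slider hM hκ2 hcan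
  rcases lt_trichotomy m N with h2 | h2 | h2
  swap
  · rw [← hb, h2] at g3
    have := (g3 _ hvN).1
    cases this
  swap
  · exact hmne N (by omega) le_rfl (hemp N (by omega) h2 _ hvN)
  -- an arrival between the mark and the static pieces
  by_cases hax : a.1 = G.col p₀
  · have hb1 : b.1 = G.col p₀ := by rw [← hb]
    have hb2 : b.2 = (sq (orgP O X Y) e2).2 - (m : ℤ) := by rw [← hb]
    have hke := hS7.eq
    have hke' : sq (orgP O X Y) e2 = sq (orgP O X Y) k + n' • vec 22 := hke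
    rw [tos_ray] at hke'
    have hk1 : (sq (orgP O X Y) k).1 = G.col p₀ := by
      have := congrArg Prod.fst hke'
      simp only at this
      omega
    have hk2 : (sq (orgP O X Y) e2).2 = (sq (orgP O X Y) k).2 - (n' : ℤ) := by
      have := congrArg Prod.snd hke'
      simp only at this
      omega
    have hbet : ∀ c : Sq, c.1 = G.col p₀ → (b.2 < c.2 ∧ c.2 < a.2 ∨ a.2 < c.2 ∧ c.2 < b.2) →
        BetwI a b c := by
      intro c h1 h2
      unfold BetwI OrthI
      omega
    have haeq : ∀ c : Sq, c.1 = G.col p₀ → c.2 = a.2 → c = a := fun c h1 h2 =>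
      Prod.ext (h1.trans hax.symm) h2
    rcases lt_trichotomy a.2 b.2 with h3 | h3 | h3
    · rcases lt_or_ge a.2 yb with h4 | h4
      · have h5 := g2 _ (hbet (G.col p₀, (sq (orgP O X Y) e2).2 - (N : ℤ)) rfl
          (Or.inr ⟨by simp only; omega, by simp only; omega⟩))
        rw [hvN] at h5
        cases h5
      · exact hmne ((sq (orgP O X Y) e2).2 - a.2).toNat (by omega) (by omega)
          (haeq _ rfl (by simp only; omega))
    · have : a = b := Prod.ext (hax.trans hb1.symm) h3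
      rw [this] at g1
      unfold OrthI DiagI at g1
      omega
    · rcases lt_trichotomy a.2 (sq (orgP O X Y) e2).2 with h4 | h4 | h4
      · exact hmne ((sq (orgP O X Y) e2).2 - a.2).toNat (by omega) (by omega)
          (haeq _ rfl (by simp only; omega))
      · have h5 := haeq _ hcol h4.symm
        have he2 := inner_lt hQ.inn
        apply hout
        rw [← h5, idx_sq _ he2, h7]
        exact ⟨inB_sq _ he2, by decide⟩
      · rcases lt_trichotomy a.2 (sq (orgP O X Y) k).2 with h5 | h5 | h5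
        · obtain ⟨c, hc, hc0, hce⟩ := hS7.clear ((sq (orgP O X Y) k).2 - a.2).toNat (by omega) (by omega)
          have hce' : sq (orgP O X Y) c = sq (orgP O X Y) k +
            ((sq (orgP O X Y) k).2 - a.2).toNat • vec 22 := hce
          rw [tos_ray] at hce'
          have h6 : sq (orgP O X Y) c = a := by
            rw [hce']
            exact haeq _ hk1 (by simp only; omega)
          apply hout
          rw [← h6, idx_sq _ hc, hc0]
          exact ⟨inB_sq _ hc, by decide⟩
        · have h6 := haeq _ hk1 h5.symm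
          rw [← h6, hking] at hM
          cases hM
        · have h6 := g2 _ (hbet (sq (orgP O X Y) k) hk1 (Or.inl ⟨by omega, h5⟩))
          rw [hking] at h6
          cases h6
  · have haf : a ≠ f := fun h => hax (by rw [h]; exact hfr.1)
    have hMf := hM
    rw [hout' a hout haf] at hMf
    have hcom : Comes G B0 κ a (G.col p₀, (sq (orgP O X Y) e2).2 - (m : ℤ)) := by
      rw [← hb] at g1
      refine ⟨?_, hκ2, g1⟩
      rcases farB_slider hMf hκ2 with ⟨q, hq, hq'⟩ | h
      · right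
        refine ⟨by rw [hq']; exact hF.out q hq, ?_⟩
        rw [hq', farB_queen hq] at hMf
        simpa using hMf.symm
      · exact Or.inl h
    obtain ⟨d, hd1, hd2, hd3⟩ := hQ.closed _ (by omega) (by omega) a κ hcom hax
    rw [hb] at hd1
    have h3 := g2 d hd1
    have hdf : d ≠ f := by
      rintro rfl
      have h4 := hfr.1
      have h5 := congrArg Prod.fst hb
      simp only at h5
      have g1' : OrthI a b ∨ DiagI a b := g1.imp id (fun h => h.2)
      unfold OrthI DiagI at g1'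
      unfold BetwI OrthI at hd1
      omega
    rw [hout' d (fwb1_inP (C := (cxW T O X Y e (farB G B0 F A bp) f).add (rS e2) (gS O X Y e2))
      rfl hp hd2) hdf] at h3
    exact hd3 (farB_none.1 h3).2.2.2

/-- nobody comes to the mark of the ray down from a direction in which the patch ends -/
theorem tos_edge (ht : T.t = 62) (hT : WinT G B0 (Svc.T p₀) R T O)
    (hP : WinP G B0 (Svc.T p₀) T O X Y e)
    (hQ : SPt G B0 p₀ T O yb X Y e2) (hF : FarS G (Svc.T p₀) F A)
    (hn : 0 < n) (hf : f = rayW T O X Y e n)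
    {p k : Nat} {a : Sq}
    (hp : WF ((cxW T O X Y e (farB G B0 F A bp) f).add (rS e2) (gS O X Y e2)) p k)
    (hs : see7 p k (rS e2) = true) :
    ¬ Edge' ((cxW T O X Y e (farB G B0 F A bp) f).add (rS e2) (gS O X Y e2)) p (rS e2) a := by
  have hrow := tos_rows (O := O) (X := X) (Y := Y) hP.inn (by rw [← ht]; exact hP.out) hQ.inn hQ.out
  have hcol := hQ.col
  have h7 : cell p e2 = 7 := by
    unfold see7 at hs
    exact Nat.eq_of_beq_eq_true (Bool.and_eq_true_iff.1 hs).1
  rintro ⟨u, hu, hne, hin, l, hl, ha, hcl, κ, hB, hκ⟩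
  have hne' : u ≠ 22 := hne
  have hin' : ¬ Inner (stp u e2) := hin
  obtain ⟨m, hm, hm2⟩ := hQ.edge u hu hne' hin'
  obtain ⟨hlt, hsq⟩ := stp_inner (List.mem_append_left knT hu) hQ.inn
  have hsq' := hsq (orgP O X Y)
  have hInB : InB (orgP O X Y) (sq (orgP O X Y) e2 + vec u) := by
    rw [← hsq']
    exact inB_sq _ hlt
  have hreg := hT.hull _ (patch_reg hP hInB)
  have hbrd : ((cxW T O X Y e (farB G B0 F A bp) f).add (rS e2) (gS O X Y e2)).brd p
      (sq (orgP O X Y) e2 + vec u) = some m := by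
    have h1 : ¬ (InB (orgP O X Y) (sq (orgP O X Y) e2 + vec u) ∧
        cell p (idx (orgP O X Y) (sq (orgP O X Y) e2 + vec u)) ≠ 15) := by
      rintro ⟨-, h2⟩
      apply h2
      rw [← hsq', idx_sq _ hlt]
      exact hp.margin _ hlt hin'
    rw [brd_out (C := (cxW T O X Y e (farB G B0 F A bp) f).add (rS e2) (gS O X Y e2)) h1]
    · show farB G B0 F A bp (sq (orgP O X Y) e2 + vec u) = some m
      rw [farB_hull hT hF.b hF.out (by have := hreg.1; omega) hreg.2.1 hreg.2.2]
      exact hm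
    · intro ρ hρ hcρ
      rcases List.mem_cons.1 hρ with rfl | hρ'
      · show cell p e2 ≠ 8
        rw [h7]
        decide
      · exfalso
        have h1 : ρ = ⟨e, T.t, 13⟩ := List.mem_singleton.1 hρ'
        rw [h1] at hcρ
        have hcρ' : sq (orgP O X Y) e2 + vec u =
            (if e = e2 then gS O X Y e2 else if e = e then f else (0, 0)) := hcρ
        rw [if_neg, if_pos rfl] at hcρ'
        · have h3 : (sq (orgP O X Y) e).2 < f.2 := by
            rw [hf]
            unfold rayW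
            rw [ht, tos_up]
            simp only
            omega
          have h4 := congrArg Prod.snd hcρ'
          rw [Prod.snd_add] at h4
          have h5 := (fwe_vec hu).2
          omega
        · rintro rfl
          omega
  by_cases hl1 : l = 1
  · subst hl1
    rw [one_smul] at ha
    have ha' : a = sq (orgP O X Y) e2 + vec u := ha
    rw [ha', hbrd] at hB
    have h3 : m = (false, κ) := by simpa using hB
    rw [h3] at hm2
    rcases hκ with rfl | ⟨-, rfl⟩ | ⟨-, rfl⟩ <;> rcases hm2 with h4 | h4 <;> cases h4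
  · have h3 := hcl 1 one_pos (by omega)
    rw [one_smul] at h3
    have h4 : ((cxW T O X Y e (farB G B0 F A bp) f).add (rS e2) (gS O X Y e2)).brd p
      (sq (orgP O X Y) e2 + vec u) = none := h3
    rw [hbrd] at h4
    cases h4

end ctx

/-- **The family of contexts of a touch, no queen on the file, with the ray down.** -/
theorem tos_fam (ht : T.t = 62) (hT : WinT G B0 (Svc.T p₀) R T O)
    (hP : WinP G B0 (Svc.T p₀) T O X Y e) (hS : SCol G B0 p₀ R T O yb)
    (hQ : SPt G B0 p₀ T O yb X Y e2) {F : Far} (hB : FBase G F)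
    (hF : FarS G (Svc.T p₀) F (fun _ => True)) :
    AddR R PW (rsW T.t e) (KW G B0 T O X Y e F (fun _ _ => True)) (rS e2) (gS O X Y e2) := by
  have hrow := tos_rows (O := O) (X := X) (Y := Y) hP.inn (by rw [← ht]; exact hP.out) hQ.inn hQ.out
  have hgt := hQ.gt
  have hle := hQ.le
  refine ⟨famW hT hP hB hF (fun _ _ _ _ _ => trivial), rfl, ?_, ?_, ?_, ?_, ?_⟩
  · intro ρ hρ
    rw [fwb_rs hP, List.mem_singleton] at hρ
    rw [hρ]
    show e ≠ e2
    rintro rfl
    omega
  · rintro l C (⟨-, rfl⟩ | ⟨-, q, t, -, ho, rfl⟩)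
    · exact tos_ok ht hT hP hS hQ hF (cxE_ok hT hP hF)
    · exact tos_ok ht hT hP hS hQ (fwb_farS hF) (cxA_ok hT hP (fwb_farS hF) ho)
  · unfold gS
    rw [tos_ray, hQ.col]
    exact hS.room _ (by push_cast; omega) (by push_cast; omega)
  · rintro l C p k a b (⟨-, rfl⟩ | ⟨-, q, t, -, ho, rfl⟩) hp - hs - hl hout
    · exact tos_hit ht hT hP hS hQ hF (cxE_ok hT hP hF) one_pos rfl hp hs hl hout
    · obtain ⟨n, hn, hq, -⟩ := id ho
      exact tos_hit ht hT hP hS hQ (fwb_farS hF) (cxA_ok hT hP (fwb_farS hF) ho) hn hq hp hs hl hout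
  · rintro l C p k (⟨-, rfl⟩ | ⟨-, q, t, -, ho, rfl⟩) hp - hs - a
    · exact tos_edge ht hT hP hQ hF one_pos rfl hp hs
    · obtain ⟨n, hn, hq, -⟩ := id ho
      exact tos_edge ht hT hP hQ (fwb_farS hF) hn hq hp hs

/-- **The family of contexts of a touch, the queen `q` on the file, with the ray down.** -/
theorem tos_fam1 (ht : T.t = 62) (hT : WinT G B0 (Svc.T p₀) R T O)
    (hP : WinP G B0 (Svc.T p₀) T O X Y e) (hS : SCol G B0 p₀ R T O yb)
    (hQ : SPt G B0 p₀ T O yb X Y e2) {F : Far} {q : Qn}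
    (hF : FarS G (Svc.T p₀) F (fun r => r ≠ q)) (ho : OnRay G B0 T O X Y e F q) :
    AddR R PW (rsW T.t e) (KW1 G B0 T O X Y e F q) (rS e2) (gS O X Y e2) := by
  have hrow := tos_rows (O := O) (X := X) (Y := Y) hP.inn (by rw [← ht]; exact hP.out) hQ.inn hQ.out
  have hgt := hQ.gt
  have hle := hQ.le
  obtain ⟨n, hn, hq, -⟩ := id ho
  refine ⟨famW1 hT hP hF ho, rfl, ?_, ?_, ?_, ?_, ?_⟩
  · intro ρ hρ
    rw [fwb_rs hP, List.mem_singleton] at hρ
    rw [hρ]
    show e ≠ e2
    rintro rfl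
    omega
  · rintro l C ⟨-, rfl⟩
    exact tos_ok ht hT hP hS hQ hF (cxA_ok hT hP hF ho)
  · unfold gS
    rw [tos_ray, hQ.col]
    exact hS.room _ (by push_cast; omega) (by push_cast; omega)
  · rintro l C p k a b ⟨-, rfl⟩ hp - hs - hl hout
    exact tos_hit ht hT hP hS hQ hF (cxA_ok hT hP hF ho) hn hq hp hs hl hout
  · rintro l C p k ⟨-, rfl⟩ hp - hs - a
    exact tos_edge ht hT hP hQ hF hn hq hp hs

end Pool.Agent.Lib.H32C.Loc
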