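import Pool.Agent.Lib.H32C.ChW
import Pool.Agent.Lib.H32C.TouS

/-!
# Touches with a ray down: checks and certificates

The checks of the patches are weaker than those of windows: Black bishops may stand beside the file.
-/

set_option autoImplicit false

namespace Pool.Agent.Lib.H32C.Loc

variable {G : FGeo} {B0 : Board} {p₀ : Qn} {R : Room} {T : WT} {O : Sq} {X Y e e2 : Nat} {yb : ℤ}
variable {s : Svc}

/-! ### Scans -/

/-- the codes of Black queens, and of Black rooks if `u` is orthogonal -/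
def slT (u : Nat) : Nat := cond (aO fun t => !Nat.beq t u) 0x2000 0x3000

/-- No Black queen or rook comes to the cell `j` from the direction `u`; the cells of the patch are transparent. -/
def scanT (T : WT) (X Y u n : Nat) : Nat → Bool :=
  Nat.rec (fun _ => false)
    (fun _ ih j => inA T.H (stA u j) && (!Nat.beq (cell T.A (stA u j)) 15 &&
      (!msk (slT u) (cell T.A (stA u j)) &&
        cond (Nat.beq (cell T.A (stA u j)) 0 || nearA X Y (stA u j)) (ih (stA u j))
          (msk 0x7e7e (cell T.A (stA u j)))))) n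

/-- no Black queen or rook comes to `j` from the directions other than `t` and the opposite of `t` -/
def sideT (T : WT) (X Y t j : Nat) : Bool :=
  (aO fun u => (Nat.beq u t || Nat.beq (Nat.add u t) 84) || scanT T X Y u 90 j) &&
    (aD fun u => (Nat.beq u t || Nat.beq (Nat.add u t) 84) || scanT T X Y u 90 j)

/-- the check of the patch around `(X, Y)` with mark on `e` -/
def wpOkT (T : WT) (X Y e : Nat) : Bool :=
  ands [Nat.ble 11 X, Nat.ble X 68, Nat.ble 11 Y, Nat.ble (Nat.add Y 11) T.H,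
    decide (Inner e), decide (¬ Inner (stp T.t e)),
    nearA X Y (stA T.t T.z), onL T.t (zA X Y (T.ray e) 0) 16 (stA T.t T.z),
    (aO fun u => (Nat.beq u T.t || !outC (stp u e)) || pnA T (stA u (zA X Y (T.ray e) 0))),
    (aD fun u => (Nat.beq u T.t || !outC (stp u e)) || pnA T (stA u (zA X Y (T.ray e) 0))),
    upA T (sideT T X Y T.t) 150 (zA X Y (T.ray e) 1)]

theorem scanT_spec {u : Nat} (n : Nat) : ∀ {j : Nat}, scanT T X Y u n j = true →
    ∃ L : ℕ, 0 < L ∧
      (∀ i : ℕ, 0 < i → i ≤ L → inA T.H (itA u j i) = true ∧ cell T.A (itA u j i) ≠ 15 ∧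
        msk (slT u) (cell T.A (itA u j i)) = false) ∧
      nearA X Y (itA u j L) = false ∧ msk 0x7e7e (cell T.A (itA u j L)) = true := by
  induction n with
  | zero => exact fun h => (Bool.false_ne_true h).elim
  | succ n ih =>
    intro j h
    have h0 : (inA T.H (stA u j) && (!Nat.beq (cell T.A (stA u j)) 15 &&
      (!msk (slT u) (cell T.A (stA u j)) &&
        cond (Nat.beq (cell T.A (stA u j)) 0 || nearA X Y (stA u j)) (scanT T X Y u n (stA u j))
          (msk 0x7e7e (cell T.A (stA u j)))))) = true := h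
    rw [Bool.and_eq_true, Bool.and_eq_true, Bool.and_eq_true, Bool.not_eq_true', Bool.not_eq_true'] at h0
    obtain ⟨h1, h2, h3, h4⟩ := h0
    have h15 : cell T.A (stA u j) ≠ 15 := by
      intro h5
      rw [h5] at h2
      exact absurd h2 (by decide)
    have e1 : itA u j 1 = stA u j := by
      rw [mb_itA_succ]
      rfl
    cases hc : (Nat.beq (cell T.A (stA u j)) 0 || nearA X Y (stA u j)) with
    | true =>
      rw [hc, cond_true] at h4
      obtain ⟨L, k1, k2, k3, k4⟩ := ih h4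
      refine ⟨L + 1, Nat.succ_pos _, ?_, ?_, ?_⟩
      · intro i hi hiL
        obtain ⟨i', rfl⟩ : ∃ i', i = i' + 1 := ⟨i - 1, by omega⟩
        rcases Nat.eq_zero_or_pos i' with hz | hz
        · rw [hz, e1]
          exact ⟨h1, h15, h3⟩
        · rw [mb_itA_succ]
          exact k2 i' hz (by omega)
      · rw [mb_itA_succ]
        exact k3
      · rw [mb_itA_succ]
        exact k4
    | false =>
      rw [hc, cond_false] at h4
      rw [Bool.or_eq_false_iff] at hc
      refine ⟨1, one_pos, ?_, ?_, ?_⟩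
      · intro i hi hiL
        obtain rfl : i = 1 := by omega
        rw [e1]
        exact ⟨h1, h15, h3⟩
      · rw [e1]
        exact hc.2
      · rw [e1]
        exact h4

theorem tot_side {t j : Nat} (h : sideT T X Y t j = true) :
    ∀ u ∈ orT ++ diT, u ≠ t → u + t ≠ 84 → scanT T X Y u 90 j = true := by
  intro u hu hne hop
  unfold sideT at h
  rw [Bool.and_eq_true, aO_iff, aD_iff] at h
  have key : ((Nat.beq u t || Nat.beq (Nat.add u t) 84) || scanT T X Y u 90 j) = true := by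
    rcases List.mem_append.1 hu with h7 | h7
    · exact h.1 u h7
    · exact h.2 u h7
  rw [Bool.or_eq_true, Bool.or_eq_true, TS1_beq, TS1_beq] at key
  rcases key with (h7 | h7) | h7
  · exact absurd h7 hne
  · exact absurd h7 hop
  · exact h7

theorem slT_of {u c : Nat} (hu : u ∈ orT ++ diT) (hc : c < 16) {κ : Kind}
    (h : dec c = some (false, κ)) (hκ : κ = Kind.queen ∨ (κ = Kind.rook ∧ u ∈ orT)) :
    msk (slT u) c = true := by
  have h1 : (∀ t ∈ orT, slT t = 0x3000) ∧ ∀ t ∈ diT, slT t = 0x2000 := by decide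
  have h13 : ∀ c < 16, dec c = some (false, Kind.queen) → c = 13 := by
    intro c hc h
    interval_cases c <;> simp [dec] at h ⊢
  have h12 : ∀ c < 16, dec c = some (false, Kind.rook) → c = 12 := by
    intro c hc h
    interval_cases c <;> simp [dec] at h ⊢
  rcases hκ with rfl | ⟨rfl, hu'⟩
  · rw [h13 c hc h]
    rcases List.mem_append.1 hu with h7 | h7
    · rw [h1.1 u h7]
      decide
    · rw [h1.2 u h7]
      decide
  · rw [h12 c hc h, h1.1 u hu']
    decide

/-- a static piece before a Black queen or rook, static or far -/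
theorem scanT_block (hT : WinT G B0 s R T O) {j u : Nat} (hu : u ∈ orT ++ diT)
    (h : scanT T X Y u 90 j = true) {a : Sq} {κ : Kind} {l : ℕ} (hl : 0 < l)
    (ha : a = sqA O j + l • vec u) (hκ : κ = Kind.queen ∨ (κ = Kind.rook ∧ u ∈ orT))
    (hcom : B0 a = some (false, κ) ∨ G.Outside a) :
    ∃ d, BetwI a (sqA O j) d ∧ d ∉ inP O X Y ∧ B0 d ≠ none := by
  obtain ⟨L, hL, k1, k2, k3⟩ := scanT_spec 90 h
  have hsq := mb_sq (T := T.mt) (O := O) hu (fun i h0 hi => (k1 i h0 hi).1)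
  have hfit : ∀ i : ℕ, 0 < i → i ≤ L → B0 (sqA O j + i • vec u) = dec (cell T.A (itA u j i)) := by
    intro i h0 hi
    obtain ⟨m1, m2, -⟩ := k1 i h0 hi
    rw [← hsq i hi]
    exact cell_sqA hT.fits (inA_lt m1).1 m2
  rcases Nat.lt_or_ge L l with hLl | hLl
  · refine ⟨sqA O j + L • vec u, fwe_betw hu ha hL hLl rfl, ?_, ?_⟩
    · rw [← hsq L le_rfl, ← fwe_near, k2]
      exact Bool.false_ne_true
    · rw [hfit L hL le_rfl]
      exact mb_mskDec _ (cell_lt _ _) k3
  · exfalso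
    obtain ⟨m1, m2, m3⟩ := k1 l hl hLl
    rcases hcom with hB | ho
    · have h1 := hfit l hl hLl
      rw [← ha, hB] at h1
      rw [slT_of hu (cell_lt _ _) h1.symm hκ] at m3
      cases m3
    · refine fwd_out hT ho ?_
      rw [ha, ← hsq l hLl]
      exact inA_reg m1

/-- the facts of the check of a patch -/
theorem tot_wp {T : WT} (h : wpOkT T X Y e = true) :
    11 ≤ X ∧ X ≤ 68 ∧ 11 ≤ Y ∧ Y + 11 ≤ T.H ∧ Inner e ∧ ¬ Inner (stp T.t e) ∧
    nearA X Y (stA T.t T.z) = true ∧ onL T.t (zA X Y (T.ray e) 0) 16 (stA T.t T.z) = true ∧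
    (∀ u ∈ orT ++ diT, u ≠ T.t → ¬ Inner (stp u e) →
      pnA T (stA u (zA X Y (T.ray e) 0)) = true) ∧
    upA T (sideT T X Y T.t) 150 (zA X Y (T.ray e) 1) = true := by
  unfold wpOkT at h
  simp only [TS3_ands_cons] at h
  obtain ⟨h1, h2, h3, h4, h5, h6, h7, h8, h9, h10, h11, -⟩ := h
  rw [TS1_ble] at h1 h2 h3 h4
  have e1 : Nat.add Y 11 = Y + 11 := rfl
  rw [e1] at h4
  rw [decide_eq_true_eq] at h5 h6
  rw [aO_iff] at h9
  rw [aD_iff] at h10
  refine ⟨h1, h2, h3, h4, h5, h6, h7, h8, ?_, h11⟩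
  intro u hu hne ho
  have key : ((Nat.beq u T.t || !outC (stp u e)) || pnA T (stA u (zA X Y (T.ray e) 0))) = true := by
    rcases List.mem_append.1 hu with h | h
    · exact h9 u h
    · exact h10 u h
  rw [Bool.or_eq_true, Bool.or_eq_true, TS1_beq, Bool.not_eq_true'] at key
  rcases key with (h | h) | h
  · exact absurd h hne
  · rw [(outC_iff _).2 ho] at h
    cases h
  · exact h

theorem tot_data (hT : WinT G B0 s R T O) (hw : wtOk T = true) (h : wpOkT T X Y e = true) :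
    ∃ i₀ : ℕ, 0 < i₀ ∧ sq (orgP O X Y) e = sqA O T.z + i₀ • vec T.t ∧
      sqA O T.z + 1 • vec T.t ∈ inP O X Y := by
  obtain ⟨h1, h2, h3, h4, h5, h6, h7, h8, h9, h10⟩ := tot_wp h
  obtain ⟨-, hz, -⟩ := fwe_wt hw
  have hs := (sqA_stA2 (O := O) (List.mem_append_left _ (List.mem_append_left _ hT.t)) hz).1
  have hn : sqA O (stA T.t T.z) ∈ inP O X Y := fwe_near.1 h7
  obtain ⟨i, hi, hi'⟩ := fwe_onL 16 h8
  have hm := fwe_mark (T := T) (O := O) (X := X) (Y := Y) h5 ⟨by omega, by omega⟩ (by omega)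
  have hx := fwe_exact (i := i) (j := stA T.t T.z) hT.t ⟨h1, h2⟩ h3 hn
    (by rw [hi', hm]; exact fwe_markP h5) (by omega)
  refine ⟨i + 1, by omega, ?_, ?_⟩
  · rw [← hm, ← hi', hx, hs, succ_nsmul', add_assoc]
  · rw [one_smul, ← hs]
    exact hn

theorem tot_lineP (hT : WinT G B0 s R T O) (hw : wtOk T = true) (h : wpOkT T X Y e = true)
    (c : Sq) : (G.line s c ∧ c ∉ inP O X Y) ↔ ∃ n : ℕ, 0 < n ∧ c = rayW T O X Y e n := by
  obtain ⟨i₀, hi₀, he, h1⟩ := tot_data hT hw h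
  obtain ⟨_, _, _, _, h5, h6, _⟩ := tot_wp h
  obtain ⟨v1, v2⟩ := fwe_vec (List.mem_append_left diT hT.t)
  constructor
  · rintro ⟨hc, hcp⟩
    obtain ⟨n, hn, rfl⟩ := (hT.line c).1 hc
    have hlt : i₀ < n := by
      by_contra hle
      apply hcp
      have h2 : sqA O T.z + 1 • vec T.t + (i₀ - 1) • vec T.t ∈ inP O X Y := by
        rw [add_assoc, ← add_smul, show 1 + (i₀ - 1) = i₀ by omega, ← he]
        exact fwe_markP h5
      have h3 := fwe_convP (i := n - 1) v1 v2 h1 h2 (by omega)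
      rwa [add_assoc, ← add_smul, show 1 + (n - 1) = n by omega] at h3
    refine ⟨n - i₀, by omega, ?_⟩
    unfold rayW
    rw [he, add_assoc, ← add_smul, show i₀ + (n - i₀) = n by omega]
  · rintro ⟨n, hn, rfl⟩
    refine ⟨(hT.line _).2 ⟨i₀ + n, by omega, ?_⟩, fwe_out hT.t h5 h6 hn⟩
    unfold rayW
    rw [he, add_assoc, ← add_smul]

theorem tot_axisP (hT : WinT G B0 s R T O) (hw : wtOk T = true) (h : wpOkT T X Y e = true)
    (c : Sq) : G.axis s c ↔ ∃ j : ℤ, c = sq (orgP O X Y) e + j • vec T.t := by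
  obtain ⟨i₀, hi₀, he, h1⟩ := tot_data hT hw h
  rw [hT.axis, he, ← natCast_zsmul]
  constructor
  · rintro ⟨j, rfl⟩
    refine ⟨j - i₀, ?_⟩
    rw [add_assoc, ← add_smul, show (i₀ : ℤ) + (j - i₀) = j by ring]
  · rintro ⟨j, rfl⟩
    refine ⟨i₀ + j, ?_⟩
    rw [add_assoc, ← add_smul]

/-- **the facts about a patch from its weaker check** -/
theorem winP_ofT (hT : WinT G B0 s R T O) (hw : wtOk T = true) (h : wpOkT T X Y e = true) :
    WinP G B0 s T O X Y e := by
  obtain ⟨g1, g2, g3, g4, g5, g6, g7, g8, g9, g10⟩ := tot_wp h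
  refine ⟨⟨by omega, by omega⟩, ⟨by omega, by omega⟩, g5, g6, tot_lineP hT hw h,
    tot_axisP hT hw h, ?_, ?_⟩
  · intro c hc hcp a κ ha hκ hax hac
    by_cases hcore : c ∈ CoreH 2 T.H O
    · obtain ⟨n, hn, rfl⟩ := (tot_lineP hT hw h c).1 ⟨hc, hcp⟩
      obtain ⟨v1, v2⟩ := fwe_vec (List.mem_append_left diT hT.t)
      have hm := fwe_mark (T := T) (O := O) (X := X) (Y := Y) g5 ⟨by omega, by omega⟩ (by omega)
      have hmc : sq (orgP O X Y) e ∈ CoreH 2 T.H O :=
        fwe_core32 (fwe_inCore ⟨g1, g2⟩ g3 g4 (fwe_markP g5))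
      have hall : ∀ i ≤ n, sqA O (zA X Y (T.ray e) 0) + i • vec T.t ∈ CoreH 2 T.H O := by
        intro i hi
        rw [hm]
        exact fwe_conv v1 v2 hmc hcore hi
      have hit := fwe_it (List.mem_append_left _ (List.mem_append_left _ hT.t)) _ n hall
      have hz1 : zA X Y (T.ray e) 1 = stA T.t (zA X Y (T.ray e) 0) := rfl
      rw [hz1] at g10
      have hup := upA_spec 150 g10 (n - 1) (by
        intro i' hi'
        rw [← mb_itA_succ]
        exact (hit (i' + 1) (by omega)).2)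
      rw [← mb_itA_succ, show n - 1 + 1 = n by omega] at hup
      have hcq : sqA O (itA T.t (zA X Y (T.ray e) 0) n) = rayW T O X Y e n := by
        rw [(hit n le_rfl).1, hm]
        rfl
      obtain ⟨j, hj⟩ : ∃ j, j = itA T.t (zA X Y (T.ray e) 0) n := ⟨_, rfl⟩
      rw [← hj] at hup hcq
      obtain ⟨u, hu, l, hl, hal, huo, hud⟩ := fwe_line (hac.imp id (fun h => h.2))
      -- the line is not the axis
      have haxis : ∀ k : ℤ, a ≠ rayW T O X Y e n + k • vec T.t := by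
        intro k hk
        apply hax
        rw [tot_axisP hT hw h]
        refine ⟨n + k, ?_⟩
        rw [hk]
        unfold rayW
        rw [add_assoc, add_smul, natCast_zsmul]
      have hne : u ≠ T.t := by
        rintro rfl
        apply haxis l
        rw [hal, natCast_zsmul]
      have hop : u + T.t ≠ 84 := by
        intro hh
        have hou : opp T.t = u := by
          unfold opp
          omega
        have hv : vec u = - vec T.t := by
          rw [← hou]
          exact (opp_spec (List.mem_append_left _ hT.t)).2.1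
        apply haxis (-l)
        rw [hal, hv, neg_smul, natCast_zsmul, smul_neg]
      rw [← hcq] at hal ⊢
      refine scanT_block hT hu (tot_side hup u hu hne hop) hl hal ?_ (Or.inl ha)
      rcases hκ with h7 | h7
      · exact Or.inl h7
      · refine Or.inr ⟨h7, ?_⟩
        rcases hac with h8 | ⟨h8, -⟩
        · rcases List.mem_append.1 hu with h9 | h9
          · exact h9
          · exfalso
            have h10 := hud h9
            unfold DiagI at h10
            unfold OrthI at h8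
            omega
        · rw [h7] at h8
          cases h8
    · obtain ⟨d, hd, hd3, hd0⟩ := hT.closed c hc hcore a κ ha hκ hax hac
      exact ⟨d, hd, fun hd' => hd3 (fwe_inCore ⟨g1, g2⟩ g3 g4 hd'), hd0⟩
  · intro u hu hne ho
    have h1 := g9 u hu hne ho
    unfold pnA at h1
    rw [Bool.and_eq_true] at h1
    have hm := fwe_mark (T := T) (O := O) (X := X) (Y := Y) g5 ⟨by omega, by omega⟩ (by omega)
    obtain ⟨m, h2, h3⟩ := fwe_pn _ (cell_lt T.A (stA u (zA X Y (T.ray e) 0))) h1.2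
    have h15 : cell T.A (stA u (zA X Y (T.ray e) 0)) ≠ 15 := by
      intro h4
      rw [h4] at h2
      cases h2
    refine ⟨m, ?_, h3⟩
    rw [← hm, ← sqA_stA hu h1.1, cell_sqA hT.fits (inA_lt h1.1).1 h15, h2]

/-! ### The ray down -/

/-- the tile with the ray down -/
def WT.dn (T : WT) : WT := ⟨T.H, T.A, 22, T.z⟩

/-- the check of the mark `e2` of the ray down in the patch around `(X, Y)` -/
def spOk (T : WT) (X Y e2 : Nat) : Bool :=
  ands [Nat.beq T.t 62, Nat.ble 11 X, Nat.ble X 68, Nat.ble 11 Y, Nat.ble (Nat.add Y 11) T.H,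
    decide (Inner e2), decide (¬ Inner (stp 22 e2)), onL 22 (zA X Y (T.dn.ray e2) 0) 40 T.z,
    (aO fun u => (Nat.beq u 22 || !outC (stp u e2)) || pnA T (stA u (zA X Y (T.dn.ray e2) 0))),
    (aD fun u => (Nat.beq u 22 || !outC (stp u e2)) || pnA T (stA u (zA X Y (T.dn.ray e2) 0))),
    upA T.dn (sideT T X Y 22) 150 (zA X Y (T.dn.ray e2) 1)]

theorem tot_col (hT : WinT G B0 (Svc.T p₀) R T O) : (sqA O T.z).1 = G.col p₀ := by
  have h : G.axis (Svc.T p₀) (sqA O T.z) := (hT.axis _).2 ⟨0, by simp⟩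
  exact h

/-- **the facts about a patch with a ray down** -/
theorem spt_of (hT : WinT G B0 (Svc.T p₀) R T O) (hS : SCol G B0 p₀ R T O yb)
    (h : spOk T X Y e2 = true) : SPt G B0 p₀ T O yb X Y e2 := by
  unfold spOk at h
  simp only [TS3_ands_cons] at h
  obtain ⟨ht, g1, g2, g3, g4, g5, g6, g8, g9, g10, g11, -⟩ := h
  have ht := TS1_beq.1 ht
  rw [TS1_ble] at g1 g2 g3 g4
  have e1 : Nat.add Y 11 = Y + 11 := rfl
  rw [e1] at g4
  rw [decide_eq_true_eq] at g5 g6
  rw [aO_iff] at g9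
  rw [aD_iff] at g10
  have hm := fwe_mark (T := T.dn) (O := O) (X := X) (Y := Y) g5 ⟨by omega, by omega⟩ (by omega)
  have hcolz := tot_col hT
  have hrow : (sq (orgP O X Y) e2).2 = O.2 + (Y : ℤ) - 8 := by
    unfold Inner at g5
    unfold Inner stp at g6
    have e2' : Nat.sub (Nat.add e2 22) 42 = e2 + 22 - 42 := rfl
    rw [e2'] at g6
    simp only [sq, orgP]
    omega
  obtain ⟨i₀, hi₀, hz⟩ := fwe_onL 40 g8
  rw [fwe_it22] at hz
  have hz0 : zA X Y (T.dn.ray e2) 0 = (X + e2 % 20 - 10) + 80 * (Y + e2 / 20 - 10) := ma_zA_zero _ _ _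
  have hpos : 80 * i₀ < T.z := by
    by_contra hle
    have h1 : T.z - 80 * i₀ = 0 := by omega
    rw [h1, hz0] at hz
    unfold Inner at g5
    omega
  have hzz : T.z = zA X Y (T.dn.ray e2) 0 + 80 * i₀ := by omega
  have hsqz : sqA O T.z = ((sq (orgP O X Y) e2).1, (sq (orgP O X Y) e2).2 + (i₀ : ℤ)) := by
    rw [← hm, hzz]
    unfold sqA tsq
    ext
    · simp only
      omega
    · simp only
      omega
  have hcol : (sq (orgP O X Y) e2).1 = G.col p₀ := by
    rw [← hcolz, hsqz]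
  have hle : (sq (orgP O X Y) e2).2 ≤ (sqA O T.z).2 := by
    rw [hsqz]
    simp only
    omega
  have hlow := hS.low
  refine ⟨g5, g6, hcol, hle, by rw [hrow]; omega, ?_, ?_⟩
  · intro y hy1 hy2 a κ hcom hax
    by_cases hcore : (G.col p₀, y) ∈ CoreH 2 T.H O
    · obtain ⟨n, hn, rfl⟩ : ∃ n : ℕ, 0 < n ∧ y = (sq (orgP O X Y) e2).2 - (n : ℤ) :=
        ⟨((sq (orgP O X Y) e2).2 - y).toNat, by omega, by omega⟩
      have hc : sq (orgP O X Y) e2 + n • vec 22 = (G.col p₀, (sq (orgP O X Y) e2).2 - (n : ℤ)) := by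
        rw [tos_ray, hcol]
      rw [← hc] at hcore hcom ⊢
      obtain ⟨v1, v2⟩ := fwe_vec (List.mem_append_left diT (by decide : (22 : ℕ) ∈ orT))
      have hmc : sq (orgP O X Y) e2 ∈ CoreH 2 T.H O :=
        fwe_core32 (fwe_inCore ⟨g1, g2⟩ g3 g4 (fwe_markP g5))
      have hall : ∀ i ≤ n, sqA O (zA X Y (T.dn.ray e2) 0) + i • vec 22 ∈ CoreH 2 T.H O := by
        intro i hi
        rw [hm]
        exact fwe_conv v1 v2 hmc hcore hi
      have hit := fwe_it (by decide : (22 : ℕ) ∈ orT ++ diT ++ knT) _ n hall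
      have hz1 : zA X Y (T.dn.ray e2) 1 = stA 22 (zA X Y (T.dn.ray e2) 0) := rfl
      rw [hz1] at g11
      have hup := upA_spec 150 g11 (n - 1) (by
        intro i' hi'
        show inA2 T.H (itA 22 (stA 22 (zA X Y (T.dn.ray e2) 0)) i') = true
        rw [← mb_itA_succ]
        exact (hit (i' + 1) (by omega)).2)
      have hup' : sideT T X Y 22 (itA 22 (stA 22 (zA X Y (T.dn.ray e2) 0)) (n - 1)) = true := hup
      rw [← mb_itA_succ, show n - 1 + 1 = n by omega] at hup'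
      have hcq : sqA O (itA 22 (zA X Y (T.dn.ray e2) 0) n) = sq (orgP O X Y) e2 + n • vec 22 := by
        rw [(hit n le_rfl).1, hm]
      obtain ⟨j, hj⟩ : ∃ j, j = itA 22 (zA X Y (T.dn.ray e2) 0) n := ⟨_, rfl⟩
      rw [← hj] at hup' hcq
      obtain ⟨hcom1, hκ, hac⟩ := hcom
      obtain ⟨u, hu, l, hl, hal, huo, hud⟩ := fwe_line (hac.imp id (fun h => h.2))
      have hne : u ≠ 22 := by
        rintro rfl
        apply hax
        rw [hal, hc, tos_ray]
      have hop : u + 22 ≠ 84 := by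
        intro hh
        have : u = 62 := by omega
        subst this
        apply hax
        rw [hal, hc, tos_up]
      rw [← hcq] at hal ⊢
      refine scanT_block hT hu (tot_side hup' u hu hne hop) hl hal ?_
        (hcom1.imp id (fun h => h.1))
      rcases hκ with h7 | h7
      · exact Or.inl h7
      · refine Or.inr ⟨h7, ?_⟩
        rcases hac with h8 | ⟨h8, -⟩
        · rcases List.mem_append.1 hu with h9 | h9
          · exact h9
          · exfalso
            have h10 := hud h9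
            unfold DiagI at h10
            unfold OrthI at h8
            omega
        · rw [h7] at h8
          cases h8
    · obtain ⟨d, hd, hd3, hd0⟩ := hS.closed y hy1 (by omega) hcore a κ hcom hax
      exact ⟨d, hd, fun hd' => hd3 (fwe_inCore ⟨g1, g2⟩ g3 g4 hd'), hd0⟩
  · intro u hu hne ho
    have h1 : pnA T (stA u (zA X Y (T.dn.ray e2) 0)) = true := by
      have key : ((Nat.beq u 22 || !outC (stp u e2)) || pnA T (stA u (zA X Y (T.dn.ray e2) 0))) =
          true := by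
        rcases List.mem_append.1 hu with h | h
        · exact g9 u h
        · exact g10 u h
      rw [Bool.or_eq_true, Bool.or_eq_true, TS1_beq, Bool.not_eq_true'] at key
      rcases key with (h | h) | h
      · exact absurd h hne
      · rw [(outC_iff _).2 ho] at h
        cases h
      · exact h
    unfold pnA at h1
    rw [Bool.and_eq_true] at h1
    obtain ⟨m, h2, h3⟩ := fwe_pn _ (cell_lt T.A (stA u (zA X Y (T.dn.ray e2) 0))) h1.2
    have h15 : cell T.A (stA u (zA X Y (T.dn.ray e2) 0)) ≠ 15 := by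
      intro h4
      rw [h4] at h2
      cases h2
    refine ⟨m, ?_, h3⟩
    rw [← hm, ← sqA_stA hu h1.1, cell_sqA hT.fits (inA_lt h1.1).1 h15, h2]

/-! ### Items -/

/-- upper bound, with allowed marks -/
theorem sw_hasValueW {H A : Nat} {S : List (List Pc)} {i : Nat} {x : SW}
    (h : swOk H A S i x (patW A S x.X x.Y i x.M) (kOf x.X x.Y (nthP S i)) = true) {R : Room}
    {K : Nat → Ctx → Prop} {V : Ctx → Nat → Prop} (hK : FamW R x.P x.R K V)
    (hex : ∀ (l : Nat) (E : List Ex), x.ex[l]? = some E → ∀ e ∈ E, ∀ C, K l C →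
      ValP x.R V C (patW A S x.X x.Y e.i e.M) →
      HasValue ⟨C.brd (patW A S x.X x.Y e.i e.M), false⟩)
    {C : Ctx} (hC : K x.n C) (hG : R.G (C.brd (patW A S x.X x.Y i x.M)))
    (hv : ValP x.R V C (patW A S x.X x.Y i x.M)) :
    HasValue ⟨C.brd (patW A S x.X x.Y i x.M), false⟩ := by
  unfold swOk at h
  simp only [TS3_ands_cons] at h
  obtain ⟨h1, -, h3, h4, h5, -⟩ := h
  obtain ⟨hsm, hne⟩ := TS3_small h4
  refine chkA_soundW hK _ ?_ x.tr hsm hne x.n C hC _ _ (wf_base (hK.ok _ _ hC) (hK.rays _ _ hC) h1) hG hv h3 h5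
  intro n C' p' hC' hv' hp'
  obtain ⟨E, hE, hp2⟩ := TW2_mem_exPP x.ex hp'
  obtain ⟨e, he, rfl⟩ := TW2_mem_exP E hp2
  exact hex n E hE e he C' hC' hv'

/-- an item of a touch with a ray down, whose mark is `e2` -/
structure TU where
  /-- the item -/
  u : WU
  /-- the mark of the ray down -/
  e2 : Nat

/-- the marks; `c` is the code of the mark of the ray up -/
def mkT (X Y e e2 c : Nat) : List Pc := catP (mkW X Y e2 7) (mkW X Y e c)

/-- exits with the marks -/
def exT (X Y e e2 c : Nat) (L : List Nat) : List Ex :=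
  List.rec [] (fun i _ ih => ⟨i, mkT X Y e e2 c⟩ :: ih) L

/-- The verification datum of an item: in phase `0` there are two levels, with exits of the higher level only. -/
def TU.sw (t : Nat) (v : TU) : SW :=
  cond (Nat.beq v.u.φ 0)
    ⟨v.u.X, v.u.Y, mkT v.u.X v.u.Y v.u.e v.e2 7, rS v.e2 :: rsW t v.u.e, ⟨false, [v.e2], false⟩, 1,
      v.u.tr, [[], exT v.u.X v.u.Y v.u.e v.e2 7 v.u.x1]⟩
    ⟨v.u.X, v.u.Y, mkT v.u.X v.u.Y v.u.e v.e2 8, rS v.e2 :: rsW t v.u.e, ⟨false, [v.e2], false⟩, 0,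
      v.u.tr, [exT v.u.X v.u.Y v.u.e v.e2 8 v.u.x0]⟩

/-- the check of an item with patch `p` and king on `k` -/
noncomputable def tuOk (T : WT) (S : List (List Pc)) (acc : List Mo) (v : TU) (p k : Nat) : Bool :=
  noMk (nthP S v.u.i) && (Nat.ble v.u.φ 1 && (!Nat.beq v.u.e 0 && (swOk T.H T.A S v.u.i (v.sw T.t) p k &&
    cond (Nat.beq v.u.φ 0) (allb (fun i => noMk (nthP S i) && membM i 0 acc) v.u.x1)
      (allb (fun i => noMk (nthP S i) && membM i 1 acc) v.u.x0))))

/-- the pairs of a list of items -/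
def keysTU (L : List TU) (acc : List Mo) : List Mo :=
  List.rec acc (fun v _ ih => ⟨v.u.i, v.u.φ⟩ :: ih) L

/-- the check of a list of items -/
noncomputable def grpTU (T : WT) (S : List (List Pc)) (acc : List Mo) (L : List TU) : Bool :=
  List.rec true (fun v L' ih => tuOk T S (keysTU L' acc) v
    (patW T.A S v.u.X v.u.Y v.u.i (v.sw T.t).M) (kOf v.u.X v.u.Y (nthP S v.u.i)) && ih) L

/-- the check of the patches of a list of items with rays down -/
def wpT (T : WT) (L : List TU) : Bool :=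
  allb (fun v => wpOkT T v.u.X v.u.Y v.u.e && spOk T v.u.X v.u.Y v.e2) L

/-- the check of the patches of a list of items -/
def wpTU (T : WT) (L : List WU) : Bool := allb (fun u => Nat.beq u.e 0 || wpOkT T u.X u.Y u.e) L

/-- the check of the patches of a list of items -/
def wpTL (T : WT) (L : List WL) : Bool := allb (fun u => Nat.beq u.e 0 || wpOkT T u.X u.Y u.e) L

theorem wpTU_of {L : List WU} (h : wpTU T L = true) (hT : WinT G B0 s R T O) (hw : wtOk T = true) :
    ∀ u ∈ L, u.e ≠ 0 → WinP G B0 s T O u.X u.Y u.e := by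
  intro u hu he
  unfold wpTU at h
  rw [TS1_allb] at h
  have h1 := h u hu
  rw [Bool.or_eq_true] at h1
  rcases h1 with h1 | h1
  · exact absurd (Nat.eq_of_beq_eq_true h1) he
  · exact winP_ofT hT hw h1

theorem wpTL_of {L : List WL} (h : wpTL T L = true) (hT : WinT G B0 s R T O) (hw : wtOk T = true) :
    ∀ u ∈ L, u.e ≠ 0 → WinP G B0 s T O u.X u.Y u.e := by
  intro u hu he
  unfold wpTL at h
  rw [TS1_allb] at h
  have h1 := h u hu
  rw [Bool.or_eq_true] at h1
  rcases h1 with h1 | h1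
  · exact absurd (Nat.eq_of_beq_eq_true h1) he
  · exact winP_ofT hT hw h1

theorem tot_mem_exT {c : Nat} {L : List Nat} {x : Ex} (h : x ∈ exT X Y e e2 c L) :
    x.M = mkT X Y e e2 c ∧ x.i ∈ L := by
  induction L with
  | nil => exact absurd h List.not_mem_nil
  | cons i L ih =>
    have h1 : exT X Y e e2 c (i :: L) = ⟨i, mkT X Y e e2 c⟩ :: exT X Y e e2 c L := rfl
    rw [h1] at h
    rcases List.mem_cons.1 h with rfl | h
    · exact ⟨rfl, List.mem_cons_self⟩
    · exact ⟨(ih h).1, List.mem_cons_of_mem _ (ih h).2⟩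

theorem tot_cellOf (hX : 8 ≤ X) (hY : 8 ≤ Y) (hi : Inner e) :
    cellOf X Y (Nat.sub (Nat.add X (Nat.mod e 20)) 10) (Nat.sub (Nat.add Y (Nat.div e 20)) 10) = e := by
  obtain ⟨a1, a2, a3, a4⟩ := hi
  change (X + e % 20 - 10 + 10 - X) + 20 * (Y + e / 20 - 10 + 10 - Y) = e
  omega

/-- the cells of the marks -/
theorem tot_marks (hX : 8 ≤ X ∧ X ≤ 72) (hY : 8 ≤ Y) (hi : Inner e) (hi2 : Inner e2) {A c : Nat}
    {L : List Pc} (h : pcsOkW A X Y (catP (mkT X Y e e2 c) L) = true) :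
    cell (pat A X Y (catP (mkT X Y e e2 c) L)) e = c ∧
      cell (pat A X Y (catP (mkT X Y e e2 c) L)) e2 = 7 := by
  have h1 : (⟨Nat.sub (Nat.add X (Nat.mod e 20)) 10, Nat.sub (Nat.add Y (Nat.div e 20)) 10, c⟩ : Pc) ∈
      catP (mkT X Y e e2 c) L := by
    rw [TW1_mem_cat]
    left
    unfold mkT
    rw [TW1_mem_cat, fwc_mkW hi]
    exact Or.inr (List.mem_singleton.2 rfl)
  have h2 : (⟨Nat.sub (Nat.add X (Nat.mod e2 20)) 10, Nat.sub (Nat.add Y (Nat.div e2 20)) 10, 7⟩ : Pc) ∈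
      catP (mkT X Y e e2 c) L := by
    rw [TW1_mem_cat]
    left
    unfold mkT
    rw [TW1_mem_cat, fwc_mkW hi2]
    exact Or.inl (List.mem_singleton.2 rfl)
  exact ⟨(congrArg (cell _) (tot_cellOf hX.1 hY hi).symm).trans (TW1_cell_mem hX hY h h1),
    (congrArg (cell _) (tot_cellOf hX.1 hY hi2).symm).trans (TW1_cell_mem hX hY h h2)⟩

theorem tot_mk_c {c : Nat} (hc : c = 7 ∨ c = 8) : ∀ q ∈ mkT X Y e e2 c, q.c = 7 ∨ q.c = 8 := by
  intro q hq
  unfold mkT at hq
  rw [TW1_mem_cat] at hq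
  rcases hq with hq | hq
  · exact fwc_mk_c (Or.inl rfl) q hq
  · exact fwc_mk_c hc q hq

/-- the board of a state, phase `0` -/
theorem tot_brd (ht : T.t = 62) (hT : WinT G B0 (Svc.T p₀) R T O)
    (hP : WinP G B0 (Svc.T p₀) T O X Y e) (hS : SCol G B0 p₀ R T O yb)
    (hQ : SPt G B0 p₀ T O yb X Y e2) {F : Far} (hF : FarS G (Svc.T p₀) F (fun _ => True))
    {S : List (List Pc)} {i : Nat} (hn : noMk (nthP S i) = true)
    (hp : pcsOkW T.A X Y (catP (mkT X Y e e2 7) (nthP S i)) = true) :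
    ((cxE G B0 T O X Y e F).add (rS e2) (gS O X Y e2)).brd (patW T.A S X Y i (mkT X Y e e2 7)) =
      stB (fullB G B0 F) O (nthP S i) := by
  have hok := tos_ok ht hT hP hS hQ hF (cxE_ok hT hP hF)
  obtain ⟨m1, m2⟩ := tot_marks hP.hX hP.hY.1 hP.inn hQ.inn hp
  have h1 := brd_patW (C := (cxE G B0 T O X Y e F).add (rS e2) (gS O X Y e2)) hok (O := O) (X := X)
    (Y := Y) rfl (farB_fits hT hF.b hF.out : FitsH T.H T.A O (fullB G B0 F)) hP.hX hP.hY hp
    (tot_mk_c (Or.inl rfl)) (ME1_noMk hn) (fun ρ hρ => inner_lt (hok.inner ρ hρ).1)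
    (fun ρ hρ _ => by
      rcases List.mem_cons.1 hρ with rfl | hρ'
      · exact Or.inl hQ.out
      · rw [List.mem_singleton.1 hρ']
        exact Or.inl hP.out)
  have h2 : ((cxE G B0 T O X Y e F).add (rS e2) (gS O X Y e2)).out8
      (pat T.A X Y (catP (mkT X Y e e2 7) (nthP S i))) = fullB G B0 F := by
    funext c
    unfold Ctx.out8
    have h4 : ((cxE G B0 T O X Y e F).add (rS e2) (gS O X Y e2)).R.find? (fun ρ =>
        decide (c = ((cxE G B0 T O X Y e F).add (rS e2) (gS O X Y e2)).f ρ.e ∧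
          cell (pat T.A X Y (catP (mkT X Y e e2 7) (nthP S i))) ρ.e = 8)) = none := by
      rw [List.find?_eq_none]
      intro ρ hρ hd
      have h5 := (of_decide_eq_true hd).2
      rcases List.mem_cons.1 hρ with rfl | hρ'
      · have h6 : cell (pat T.A X Y (catP (mkT X Y e e2 7) (nthP S i))) e2 = 8 := h5
        rw [m2] at h6
        exact absurd h6 (by decide)
      · have h6 : ρ = ⟨e, T.t, 13⟩ := List.mem_singleton.1 hρ'
        rw [h6] at h5
        have h7 : cell (pat T.A X Y (catP (mkT X Y e e2 7) (nthP S i))) e = 8 := h5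
        rw [m1] at h7
        exact absurd h7 (by decide)
    rw [h4]
    rfl
  rw [h2] at h1
  exact h1

/-- the board of a state, phase `1` -/
theorem tot_brd1 (ht : T.t = 62) (hT : WinT G B0 (Svc.T p₀) R T O)
    (hP : WinP G B0 (Svc.T p₀) T O X Y e) (hS : SCol G B0 p₀ R T O yb)
    (hQ : SPt G B0 p₀ T O yb X Y e2) {F : Far} {q : Qn}
    (hF : FarS G (Svc.T p₀) F (fun r => r ≠ q)) (ho : OnRay G B0 T O X Y e F q)
    {S : List (List Pc)} {i : Nat} (hn : noMk (nthP S i) = true)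
    (hp : pcsOkW T.A X Y (catP (mkT X Y e e2 8) (nthP S i)) = true) :
    ((cxA G B0 T O X Y e F q).add (rS e2) (gS O X Y e2)).brd (patW T.A S X Y i (mkT X Y e e2 8)) =
      stB (fullB G B0 F) O (nthP S i) := by
  have hok := tos_ok ht hT hP hS hQ hF (cxA_ok hT hP hF ho)
  obtain ⟨m1, m2⟩ := tot_marks hP.hX hP.hY.1 hP.inn hQ.inn hp
  have hne : e ≠ e2 := by
    rintro rfl
    rw [m1] at m2
    exact absurd m2 (by decide)
  have h1 := brd_patW (C := (cxA G B0 T O X Y e F q).add (rS e2) (gS O X Y e2)) hok (O := O) (X := X)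
    (Y := Y) rfl (farB_fits hT hF.b hF.out : FitsH T.H T.A O (remB G B0 F q)) hP.hX hP.hY hp
    (tot_mk_c (Or.inr rfl)) (ME1_noMk hn) (fun ρ hρ => inner_lt (hok.inner ρ hρ).1)
    (fun ρ hρ _ => by
      rcases List.mem_cons.1 hρ with rfl | hρ'
      · exact Or.inl hQ.out
      · rw [List.mem_singleton.1 hρ']
        exact Or.inl hP.out)
  have h2 : ((cxA G B0 T O X Y e F q).add (rS e2) (gS O X Y e2)).out8
      (pat T.A X Y (catP (mkT X Y e e2 8) (nthP S i))) = fullB G B0 F := by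
    funext c
    have hf : ((cxA G B0 T O X Y e F q).add (rS e2) (gS O X Y e2)).f e = F.q q := by
      show (if e = e2 then gS O X Y e2 else if e = e then F.q q else (0, 0)) = F.q q
      rw [if_neg hne, if_pos rfl]
    have hR : ((cxA G B0 T O X Y e F q).add (rS e2) (gS O X Y e2)).R = [rS e2, ⟨e, T.t, 13⟩] := rfl
    unfold Ctx.out8
    rw [hR, List.find?_cons_of_neg (by
      simp only [decide_eq_true_eq]
      rintro ⟨-, h6⟩
      have h7 : cell (pat T.A X Y (catP (mkT X Y e e2 8) (nthP S i))) e2 = 8 := h6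
      rw [m2] at h7
      exact absurd h7 (by decide))]
    by_cases hc : c = F.q q
    · rw [List.find?_cons_of_pos (by
        simp only [decide_eq_true_eq]
        rw [hf, m1]
        exact ⟨hc, rfl⟩)]
      rw [hc]
      exact (farB_queen trivial).symm
    · rw [List.find?_cons_of_neg (by
        simp only [decide_eq_true_eq]
        rw [hf]
        exact fun h => hc h.1), List.find?_nil]
      change remB G B0 F q c = fullB G B0 F c
      unfold remB fullB farB
      have h4 : (∃ r, r ≠ q ∧ c = F.q r) ↔ (∃ r, True ∧ c = F.q r) := by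
        constructor
        · rintro ⟨r, -, h⟩
          exact ⟨r, trivial, h⟩
        · rintro ⟨r, -, h⟩
          refine ⟨r, ?_, h⟩
          rintro rfl
          exact hc h
      by_cases h5 : ∃ r, True ∧ c = F.q r
      · rw [if_pos (h4.2 h5), if_pos h5]
      · rw [if_neg (fun h => h5 (h4.1 h)), if_neg h5]
  rw [h2] at h1
  exact h1

/-- the parts of the check of an item -/
theorem tot_parts {S : List (List Pc)} {acc : List Mo} {v : TU} {p k : Nat}
    (h : tuOk T S acc v p k = true) : noMk (nthP S v.u.i) = true ∧ v.u.φ ≤ 1 ∧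
      swOk T.H T.A S v.u.i (v.sw T.t) p k = true ∧
      (v.u.φ = 0 → ∀ i ∈ v.u.x1, noMk (nthP S i) = true ∧ (⟨i, 0⟩ : Mo) ∈ acc) ∧
      (v.u.φ ≠ 0 → ∀ i ∈ v.u.x0, noMk (nthP S i) = true ∧ (⟨i, 1⟩ : Mo) ∈ acc) := by
  unfold tuOk at h
  rw [Bool.and_eq_true, Bool.and_eq_true, Bool.and_eq_true, Bool.and_eq_true, TS1_ble] at h
  obtain ⟨h1, h2, -, h3, h4⟩ := h
  refine ⟨h1, h2, h3, fun h0 i hi => ?_, fun h0 i hi => ?_⟩
  · rw [TS1_beq.2 h0, cond_true, TS1_allb] at h4
    have h6 := h4 i hi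
    rw [Bool.and_eq_true] at h6
    exact ⟨h6.1, ME2_membM _ h6.2⟩
  · rw [fwc_beq0 h0, cond_false, TS1_allb] at h4
    have h6 := h4 i hi
    rw [Bool.and_eq_true] at h6
    exact ⟨h6.1, ME2_membM _ h6.2⟩

theorem tot_G {C : Ctx} (hsep : R.Sep C) {B : Board} (hB : C.F = B) (hG : R.G B) (p : Nat) :
    R.G (C.brd p) := by
  subst hB
  refine R.dep C.F _ (fun c hc => ?_) hG
  symm
  refine brd_out (fun h => hsep.patch c h.1 hc) ?_
  intro ρ hρ hcρ
  exact absurd hc (by rw [hcρ]; exact hsep.far ρ hρ)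

/-- an item with a ray down, phase `0` -/
theorem tot_item {S : List (List Pc)} {acc : List Mo} {v : TU} (ht : T.t = 62) (h0 : v.u.φ = 0)
    (h : tuOk T S acc v (patW T.A S v.u.X v.u.Y v.u.i (v.sw T.t).M)
      (kOf v.u.X v.u.Y (nthP S v.u.i)) = true)
    (hT : WinT G B0 (Svc.T p₀) R T O) (hP : WinP G B0 (Svc.T p₀) T O v.u.X v.u.Y v.u.e)
    (hS : SCol G B0 p₀ R T O yb) (hQ : SPt G B0 p₀ T O yb v.u.X v.u.Y v.e2) {F : Far}
    (hB : FBase G F) (hF : FarS G (Svc.T p₀) F (fun _ => True))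
    (hacc : ∀ m ∈ acc, m.k = 0 → HasValue (PFw G B0 S O F m.j)) :
    HasValue (PFw G B0 S O F v.u.i) := by
  obtain ⟨g1, -, h3, h5, -⟩ := tot_parts h
  have h5 := h5 h0
  have hsw : v.sw T.t = ⟨v.u.X, v.u.Y, mkT v.u.X v.u.Y v.u.e v.e2 7, rS v.e2 :: rsW T.t v.u.e,
      ⟨false, [v.e2], false⟩, 1, v.u.tr, [[], exT v.u.X v.u.Y v.u.e v.e2 7 v.u.x1]⟩ := by
    unfold TU.sw
    rw [TS1_beq.2 h0, cond_true]
  rw [hsw] at h3
  obtain ⟨hb, hex⟩ := fwc_swOk h3
  have d := TW1_base hb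
  have hfam := (tos_fam ht hT hP hS hQ hB hF).famW
  have hsep : R.Sep ((cxE G B0 T O v.u.X v.u.Y v.u.e F).add (rS v.e2) (gS O v.u.X v.u.Y v.e2)) :=
    hfam.sep 1 _ ⟨_, Or.inl ⟨rfl, rfl⟩, rfl⟩
  have key := sw_hasValueW (x := ⟨v.u.X, v.u.Y, mkT v.u.X v.u.Y v.u.e v.e2 7,
      rS v.e2 :: rsW T.t v.u.e, ⟨false, [v.e2], false⟩, 1, v.u.tr,
      [[], exT v.u.X v.u.Y v.u.e v.e2 7 v.u.x1]⟩) h3 (R := R) hfam ?_
    (C := (cxE G B0 T O v.u.X v.u.Y v.u.e F).add (rS v.e2) (gS O v.u.X v.u.Y v.e2))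
    ⟨_, Or.inl ⟨rfl, rfl⟩, rfl⟩ (tot_G hsep rfl (farB_G hT hF.b hF.out) _) ?_
  · have hbrd := tot_brd ht hT hP hS hQ hF (S := S) (i := v.u.i) g1 d.pcs
    unfold PFw
    rw [← hbrd]
    exact key
  · rintro l E hE y hy C ⟨C', hC', rfl⟩ -
    rcases hC' with ⟨hl, rfl⟩ | ⟨hl, -⟩
    · subst hl
      have hl : E = exT v.u.X v.u.Y v.u.e v.e2 7 v.u.x1 := by
        have : some (exT v.u.X v.u.Y v.u.e v.e2 7 v.u.x1) = some E := hE
        exact (Option.some.inj this).symm
      subst hl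
      have hpc := hex _ (List.mem_cons_of_mem _ (List.mem_singleton.2 rfl)) y hy
      obtain ⟨hyM, hyi⟩ := tot_mem_exT hy
      have h6 := h5 y.i hyi
      rw [hyM] at hpc ⊢
      have hbrd := tot_brd ht hT hP hS hQ hF (S := S) (i := y.i) h6.1 hpc
      have hv := hacc _ h6.2 rfl
      change HasValue ⟨((cxE G B0 T O v.u.X v.u.Y v.u.e F).add (rS v.e2)
        (gS O v.u.X v.u.Y v.e2)).brd (patW T.A S v.u.X v.u.Y y.i (mkT v.u.X v.u.Y v.u.e v.e2 7)), false⟩
      rw [hbrd]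
      exact hv
    · subst hl
      have : some ([] : List Ex) = some E := hE
      rw [← Option.some.inj this] at hy
      exact absurd hy List.not_mem_nil
  · intro ρ hρ h8 he
    have h9 : cell (pat T.A v.u.X v.u.Y (catP (mkT v.u.X v.u.Y v.u.e v.e2 7) (nthP S v.u.i))) ρ.e = 8 := h8
    have h10 : ρ.e = v.e2 := he
    rw [h10, (tot_marks hP.hX hP.hY.1 hP.inn hQ.inn d.pcs).2] at h9
    exact absurd h9 (by decide)

/-- an item with a ray down, phase `1` -/
theorem tot_item1 {S : List (List Pc)} {acc : List Mo} {v : TU} (ht : T.t = 62) (h0 : v.u.φ ≠ 0)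
    (h : tuOk T S acc v (patW T.A S v.u.X v.u.Y v.u.i (v.sw T.t).M)
      (kOf v.u.X v.u.Y (nthP S v.u.i)) = true)
    (hT : WinT G B0 (Svc.T p₀) R T O) (hP : WinP G B0 (Svc.T p₀) T O v.u.X v.u.Y v.u.e)
    (hS : SCol G B0 p₀ R T O yb) (hQ : SPt G B0 p₀ T O yb v.u.X v.u.Y v.e2) {F : Far} {q : Qn}
    (h1 : Ph1 G (Svc.T p₀) T F q)
    (hacc : ∀ m ∈ acc, m.k = 1 → HasValue (PFw G B0 S O F m.j)) :
    HasValue (PFw G B0 S O F v.u.i) := by
  obtain ⟨g1, -, h3, -, h5⟩ := tot_parts h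
  have h5 := h5 h0
  have hsw : v.sw T.t = ⟨v.u.X, v.u.Y, mkT v.u.X v.u.Y v.u.e v.e2 8, rS v.e2 :: rsW T.t v.u.e,
      ⟨false, [v.e2], false⟩, 0, v.u.tr, [exT v.u.X v.u.Y v.u.e v.e2 8 v.u.x0]⟩ := by
    unfold TU.sw
    rw [fwc_beq0 h0, cond_false]
  rw [hsw] at h3
  obtain ⟨hb, hex⟩ := fwc_swOk h3
  have d := TW1_base hb
  have ho := h1.onRay hT hP
  have hF := h1.far
  have hfam := (tos_fam1 ht hT hP hS hQ hF ho).famW
  have hsep : R.Sep ((cxA G B0 T O v.u.X v.u.Y v.u.e F q).add (rS v.e2) (gS O v.u.X v.u.Y v.e2)) :=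
    hfam.sep 0 _ ⟨_, ⟨rfl, rfl⟩, rfl⟩
  have key := sw_hasValueW (x := ⟨v.u.X, v.u.Y, mkT v.u.X v.u.Y v.u.e v.e2 8,
      rS v.e2 :: rsW T.t v.u.e, ⟨false, [v.e2], false⟩, 0, v.u.tr,
      [exT v.u.X v.u.Y v.u.e v.e2 8 v.u.x0]⟩) h3 (R := R) hfam ?_
    (C := (cxA G B0 T O v.u.X v.u.Y v.u.e F q).add (rS v.e2) (gS O v.u.X v.u.Y v.e2))
    ⟨_, ⟨rfl, rfl⟩, rfl⟩ (tot_G hsep rfl (farB_G hT hF.b hF.out) _) ?_
  · have hbrd := tot_brd1 ht hT hP hS hQ hF ho (S := S) (i := v.u.i) g1 d.pcs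
    unfold PFw
    rw [← hbrd]
    exact key
  · rintro l E hE y hy C ⟨C', ⟨hl, rfl⟩, rfl⟩ -
    subst hl
    have hl : E = exT v.u.X v.u.Y v.u.e v.e2 8 v.u.x0 := by
      have : some (exT v.u.X v.u.Y v.u.e v.e2 8 v.u.x0) = some E := hE
      exact (Option.some.inj this).symm
    subst hl
    have hpc := hex _ (List.mem_singleton.2 rfl) y hy
    obtain ⟨hyM, hyi⟩ := tot_mem_exT hy
    have h6 := h5 y.i hyi
    rw [hyM] at hpc ⊢
    have hbrd := tot_brd1 ht hT hP hS hQ hF ho (S := S) (i := y.i) h6.1 hpc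
    have hv := hacc _ h6.2 rfl
    change HasValue ⟨((cxA G B0 T O v.u.X v.u.Y v.u.e F q).add (rS v.e2)
      (gS O v.u.X v.u.Y v.e2)).brd (patW T.A S v.u.X v.u.Y y.i (mkT v.u.X v.u.Y v.u.e v.e2 8)), false⟩
    rw [hbrd]
    exact hv
  · intro ρ hρ h8 he
    have h9 : cell (pat T.A v.u.X v.u.Y (catP (mkT v.u.X v.u.Y v.u.e v.e2 8) (nthP S v.u.i))) ρ.e = 8 := h8
    have h10 : ρ.e = v.e2 := he
    rw [h10, (tot_marks hP.hX hP.hY.1 hP.inn hQ.inn d.pcs).2] at h9
    exact absurd h9 (by decide)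

theorem tot_grp {S : List (List Pc)} {acc : List Mo} {v : TU} {L : List TU}
    (h : grpTU T S acc (v :: L) = true) (hp : wpT T (v :: L) = true) :
    tuOk T S (keysTU L acc) v (patW T.A S v.u.X v.u.Y v.u.i (v.sw T.t).M)
      (kOf v.u.X v.u.Y (nthP S v.u.i)) = true ∧ grpTU T S acc L = true ∧
      wpOkT T v.u.X v.u.Y v.u.e = true ∧ spOk T v.u.X v.u.Y v.e2 = true ∧ wpT T L = true := by
  have h1 : grpTU T S acc (v :: L) = (tuOk T S (keysTU L acc) v
    (patW T.A S v.u.X v.u.Y v.u.i (v.sw T.t).M) (kOf v.u.X v.u.Y (nthP S v.u.i)) &&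
      grpTU T S acc L) := rfl
  have h2 : wpT T (v :: L) = ((wpOkT T v.u.X v.u.Y v.u.e && spOk T v.u.X v.u.Y v.e2) && wpT T L) := rfl
  rw [h1, Bool.and_eq_true] at h
  rw [h2, Bool.and_eq_true, Bool.and_eq_true] at hp
  exact ⟨h.1, h.2, hp.1.1, hp.1.2, hp.2⟩

/-- **a group of items with a ray down, phase `0`** -/
theorem grpTU_0 {S : List (List Pc)} {acc : List Mo} {L : List TU} (ht : T.t = 62)
    (h : grpTU T S acc L = true) (hp : wpT T L = true) (hw : wtOk T = true)
    (hT : WinT G B0 (Svc.T p₀) R T O) (hS : SCol G B0 p₀ R T O yb) {F : Far} (hB : FBase G F)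
    (hF : FarS G (Svc.T p₀) F (fun _ => True))
    (hacc : ∀ m ∈ acc, m.k = 0 → HasValue (PFw G B0 S O F m.j)) :
    ∀ m ∈ keysTU L acc, m.k = 0 → HasValue (PFw G B0 S O F m.j) := by
  induction L with
  | nil => exact hacc
  | cons v L ih =>
    obtain ⟨k1, k2, k3, k4, k5⟩ := tot_grp h hp
    have ih' := ih k2 k5
    have hk : keysTU (v :: L) acc = ⟨v.u.i, v.u.φ⟩ :: keysTU L acc := rfl
    rw [hk]
    intro m hm hmk
    rcases List.mem_cons.1 hm with rfl | hm
    · exact tot_item ht hmk k1 hT (winP_ofT hT hw k3) hS (spt_of hT hS k4) hB hF ih'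
    · exact ih' m hm hmk

/-- **a group of items with a ray down, phase `1`** -/
theorem grpTU_1 {S : List (List Pc)} {acc : List Mo} {L : List TU} (ht : T.t = 62)
    (h : grpTU T S acc L = true) (hp : wpT T L = true) (hw : wtOk T = true)
    (hT : WinT G B0 (Svc.T p₀) R T O) (hS : SCol G B0 p₀ R T O yb) {F : Far} {q : Qn}
    (h1 : Ph1 G (Svc.T p₀) T F q)
    (hacc : ∀ m ∈ acc, m.k = 1 → HasValue (PFw G B0 S O F m.j)) :
    ∀ m ∈ keysTU L acc, m.k = 1 → HasValue (PFw G B0 S O F m.j) := by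
  induction L with
  | nil => exact hacc
  | cons v L ih =>
    obtain ⟨k1, k2, k3, k4, k5⟩ := tot_grp h hp
    have ih' := ih k2 k5
    have hk : keysTU (v :: L) acc = ⟨v.u.i, v.u.φ⟩ :: keysTU L acc := rfl
    rw [hk]
    intro m hm hmk
    rcases List.mem_cons.1 hm with rfl | hm
    · exact tot_item1 ht (by rw [show v.u.φ = 1 from hmk]; decide) k1 hT (winP_ofT hT hw k3) hS
        (spt_of hT hS k4) h1 ih'
    · exact ih' m hm hmk

/-- A chain of groups of items for the upper bound of a touch. -/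
inductive CY (T : WT) (S : List (List Pc)) (a : List Mo) : List Mo → Prop
  | nil : CY T S a a
  | grp {acc : List Mo} (h : CY T S a acc) (L : List WU) (hg : grpWU T S acc L = true)
      (hp : wpTU T L = true) (hx : noX L = true) : CY T S a (keysWU L acc)
  | dn {acc : List Mo} (h : CY T S a acc) (L : List TU) (hg : grpTU T S acc L = true)
      (hp : wpT T L = true) : CY T S a (keysTU L acc)

/-- A chain of groups of items for the lower bound of a touch. -/
inductive CYL (T : WT) (S : List (List Pc)) (a : List Mo) : List Mo → Prop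
  | nil : CYL T S a a
  | grp {acc : List Mo} (h : CYL T S a acc) (L : List WL) (hg : grpWL T S acc L = true)
      (hp : wpTL T L = true) : CYL T S a (keysWL L acc)

theorem CY.touch0 {S : List (List Pc)} {a acc : List Mo} (h : CY T S a acc) (ht : T.t = 62)
    (hw : wtOk T = true) (hT : WinT G B0 (Svc.T p₀) R T O) (hS : SCol G B0 p₀ R T O yb) {F : Far}
    (hI : Inv G (Svc.T p₀) F) (hh : ∀ r, (F.q r).1 ≠ G.col p₀)
    (ha0 : ∀ m ∈ a, m.k = 0 → HasValue (PFw G B0 S O F m.j)) :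
    ∀ m ∈ acc, m.k = 0 → HasValue (PFw G B0 S O F m.j) := by
  have hF : FarS G (Svc.T p₀) F (fun _ => True) :=
    ⟨hI.2.2.2.2.1, fun r _ hl => hh r hl.1, fun r _ => hI.base.2.2.1 r⟩
  induction h with
  | nil => exact ha0
  | grp _ L hg hp hx ih =>
    exact grpWU_0 hg hT (wpTU_of hp hT hw) hI.base hF (W := fun _ _ => True)
      (fun _ _ _ _ _ => trivial) (Or.inl (noX_of hx)) ih
  | dn _ L hg hp ih => exact grpTU_0 ht hg hp hw hT hS hI.base hF ih

theorem CY.touch1 {S : List (List Pc)} {a acc : List Mo} (h : CY T S a acc) (ht : T.t = 62)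
    (hw : wtOk T = true) (hT : WinT G B0 (Svc.T p₀) R T O) (hS : SCol G B0 p₀ R T O yb) {F : Far}
    (hI : Inv G (Svc.T p₀) F) (hh : AtHome G F p₀ ∧ ∀ r, r ≠ p₀ → (F.q r).1 ≠ G.col p₀)
    (ha1 : ∀ m ∈ a, m.k = 1 → HasValue (PFw G B0 S O F m.j)) :
    ∀ m ∈ acc, m.k = 1 → HasValue (PFw G B0 S O F m.j) := by
  have hph := cht_ph1 hT hI hh
  induction h with
  | nil => exact ha1
  | grp _ L hg hp _ ih => exact grpWU_1 hg hT (wpTU_of hp hT hw) hph ih
  | dn _ L hg hp ih => exact grpTU_1 ht hg hp hw hT hS hph ih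

theorem CYL.touch {S : List (List Pc)} {a acc : List Mo} (h : CYL T S a acc)
    (hw : wtOk T = true) (hT : WinT G B0 (Svc.T p₀) R T O) {F : Far} (hI : Inv G (Svc.T p₀) F)
    (hh : ∃ r, (F.q r).1 = G.col p₀) {β : Ordinal.{0}}
    (ha1 : ∀ m ∈ a, m.k = 1 → GE (PFw G B0 S O F m.j) β) :
    ∀ m ∈ acc, m.k = 1 → GE (PFw G B0 S O F m.j) β := by
  have hh' : AtHome G F p₀ ∧ ∀ r, r ≠ p₀ → (F.q r).1 ≠ G.col p₀ := by
    rcases hI.2.2.2.2.2 with h1 | h1
    · exact h1
    · obtain ⟨r, hr⟩ := hh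
      exact absurd hr (h1 r)
  have hph := cht_ph1 hT hI hh'
  induction h with
  | nil => exact ha1
  | grp _ L hg hp ih => exact grpWL_1 hg hT (wpTL_of hp hT hw) hph ih

/-- **The certificate of a touch, with rays down.** -/
structure TouD (T : WT) (S : List (List Pc)) (x y : Nat) : Prop where
  wt : wtOk T = true
  t : Nat.beq T.t 62 = true
  up1 : ∃ acc, CY T S [⟨y, 1⟩] acc ∧ membM x 1 acc = true
  up0 : ∃ acc, CY T S [] acc ∧ membM x 0 acc = true
  low : ∃ acc u, CYL T S [⟨y, 1⟩] acc ∧ u.e = 0 ∧ u.kd = 0 ∧ u.φ = 1 ∧ u.i = x ∧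
    wlOk T S acc u (patW T.A S u.X u.Y u.i (u.sw T.t).M) (kOf u.X u.Y (nthP S u.i)) = true

theorem TouD.upS {S : List (List Pc)} {x y : Nat} (h : TouD T S x y)
    (hT : WinT G B0 (Svc.T p₀) R T O) (hS : SCol G B0 p₀ R T O yb) {F : Far}
    (hI : Inv G (Svc.T p₀) F)
    (hex : ∀ F', StepU G (Svc.T p₀) F F' → HasValue (PFw G B0 S O F' y)) :
    HasValue (PFw G B0 S O F x) := by
  rcases hI.2.2.2.2.2 with h1 | h1
  · obtain ⟨acc, h2, h3⟩ := h.up1
    refine h2.touch1 (TS1_beq.1 h.t) h.wt hT hS hI h1 ?_ _ (ME2_membM _ h3) rfl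
    intro m hm _
    rw [List.mem_singleton.1 hm]
    exact hex F ⟨rfl, p₀, h1.1.1⟩
  · obtain ⟨acc, h2, h3⟩ := h.up0
    refine h2.touch0 (TS1_beq.1 h.t) h.wt hT hS hI h1 ?_ _ (ME2_membM _ h3) rfl
    intro m hm
    exact absurd hm List.not_mem_nil

theorem TouD.lowS {S : List (List Pc)} {x y : Nat} (h : TouD T S x y)
    (hT : WinT G B0 (Svc.T p₀) R T O) {F F' : Far} (hI : Inv G (Svc.T p₀) F)
    (hst : StepL G (Svc.T p₀) F F') {β : Ordinal.{0}} (hex : GE (PFw G B0 S O F' y) β) :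
    ¬ ValLE (PFw G B0 S O F x) β := by
  obtain ⟨rfl, hh⟩ := hst
  obtain ⟨acc, u, h1, h2, h3, h4, h5, h6⟩ := h.low
  rw [← h5]
  refine wl_strict h6 h2 h3 hT hI.2.2.2.2.1 (fun q => hI.base.2.2.1 q) ?_
  rw [h4]
  refine h1.touch h.wt hT hI hh ?_
  intro m hm _
  rw [List.mem_singleton.1 hm]
  exact hex

end Pool.Agent.Lib.H32C.Loc
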