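import Pool.Agent.Lib.H32C.TdT0
import Pool.Agent.Lib.H32C.TouT

/-!
# Part b of the certificate of the tile TdT
-/

set_option autoImplicit false

namespace Pool.Agent.Lib.H32C.Loc

/-- the pairs at the exit -/
def ktouA_0 : List Mo := []

theorem ctouA_0 : CY Wtou Stou ktouA_0 ktouA_0 := .nil

/-- items with a ray down -/
def gtouA_1 : List TU :=
  [⟨⟨47, 0, 37, 73, 352, (.cons 210 191 (.exit 0) .nil), [], [48]⟩, 52⟩,
   ⟨⟨48, 0, 38, 72, 351, (.cons 210 191 (.cons 191 172 (.cons 152 171 .nil (.cons 170 191 .nil (.cons 132 151 .nil .nil))) (.cons 191 172 .nil .nil)) .nil), [], []⟩, 51⟩]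

theorem otouA_1 : grpTU Wtou Stou ktouA_0 gtouA_1 = true := by decide +kernel

theorem wtouA_1 : wpT Wtou gtouA_1 = true := by decide +kernel

/-- the pairs proved -/
def ktouA_1 : List Mo := keysTU gtouA_1 ktouA_0

theorem ctouA_1 : CY Wtou Stou ktouA_0 ktouA_1 :=
  .dn ctouA_0 gtouA_1 otouA_1 wtouA_1

/-- items -/
def gtouA_2 : List WU :=
  [⟨28, 0, 25, 89, 0, (.cons 210 190 (.exit 0) .nil), [29], []⟩,
   ⟨29, 0, 25, 88, 0, (.cons 210 191 .nil (.cons 210 191 (.exit 0) (.cons 211 229 (.cons 210 191 .nil (.cons 210 211 (.cons 208 229 .nil .nil) .nil)) .nil))), [30], []⟩,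
   ⟨30, 0, 26, 87, 0, (.cons 210 190 (.exit 0) .nil), [31], []⟩,
   ⟨31, 0, 26, 86, 0, (.cons 210 191 .nil (.cons 210 191 (.exit 0) (.cons 211 229 (.cons 210 191 .nil (.cons 210 211 .nil .nil)) .nil))), [32], []⟩,
   ⟨32, 0, 27, 85, 0, (.cons 210 190 (.exit 0) .nil), [33], []⟩,
   ⟨33, 0, 27, 84, 0, (.cons 210 191 .nil (.cons 210 191 .nil (.cons 210 191 (.exit 0) (.cons 211 229 (.cons 210 191 .nil (.cons 210 191 .nil (.cons 210 211 .nil .nil))) .nil)))), [34], []⟩,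
   ⟨34, 0, 28, 83, 0, (.cons 210 190 (.exit 0) .nil), [35], []⟩,
   ⟨35, 0, 28, 82, 0, (.cons 210 191 .nil (.cons 210 191 .nil (.cons 210 191 (.exit 0) (.cons 211 229 (.cons 210 191 .nil (.cons 210 191 .nil (.cons 210 211 (.cons 208 229 .nil .nil) .nil))) .nil)))), [36], []⟩,
   ⟨36, 0, 29, 81, 0, (.cons 210 190 (.exit 0) .nil), [37], []⟩,
   ⟨37, 0, 29, 80, 0, (.cons 210 191 .nil (.cons 210 191 (.exit 0) (.cons 211 229 (.cons 210 191 .nil (.cons 210 211 (.cons 208 229 .nil .nil) .nil)) .nil))), [38], []⟩,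
   ⟨38, 0, 30, 79, 0, (.cons 210 190 (.exit 0) .nil), [39], []⟩,
   ⟨39, 0, 30, 78, 0, (.cons 210 191 .nil (.cons 210 191 (.exit 0) (.cons 210 191 (.cons 191 192 .nil .nil) .nil))), [40], []⟩,
   ⟨40, 0, 31, 77, 0, (.cons 210 211 (.exit 0) .nil), [41], []⟩,
   ⟨41, 0, 32, 77, 0, (.cons 210 191 (.exit 0) (.cons 230 249 .nil .nil)), [42], []⟩,
   ⟨42, 0, 33, 76, 0, (.cons 210 211 (.exit 0) (.cons 230 249 .nil .nil)), [43], []⟩,
   ⟨43, 0, 34, 76, 0, (.cons 210 191 (.cons 208 190 .nil .nil) (.cons 210 191 (.exit 0) (.cons 210 191 (.cons 208 190 .nil .nil) (.cons 210 190 (.cons 110 149 .nil (.cons 190 171 .nil .nil)) .nil)))), [44], []⟩,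
   ⟨44, 0, 35, 75, 0, (.cons 210 211 (.exit 0) (.cons 188 209 (.cons 209 228 .nil .nil) .nil)), [45], []⟩,
   ⟨45, 0, 36, 75, 0, (.cons 210 191 (.exit 0) (.cons 210 191 .nil (.cons 210 189 (.cons 146 167 (.cons 189 208 (.cons 230 249 .nil (.cons 208 228 .nil .nil)) (.cons 189 170 (.cons 167 188 .nil .nil) (.cons 189 169 (.cons 168 189 .nil (.cons 169 150 .nil .nil)) .nil))) (.cons 189 208 (.cons 208 228 (.cons 228 209 .nil (.cons 228 209 .nil .nil)) (.cons 208 227 .nil (.cons 208 228 .nil (.cons 208 227 .nil .nil)))) (.cons 189 170 (.cons 170 191 (.cons 191 211 (.cons 149 170 .nil (.cons 211 191 .nil .nil)) .nil) .nil) (.cons 189 169 (.cons 168 189 .nil (.cons 169 150 .nil .nil)) .nil)))) .nil))), [46], []⟩,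
   ⟨46, 0, 37, 74, 0, (.cons 210 190 (.exit 0) .nil), [47], []⟩]

theorem otouA_2 : grpWU Wtou Stou ktouA_1 gtouA_2 = true := by decide +kernel

theorem wtouA_2 : wpTU Wtou gtouA_2 = true := by decide +kernel

theorem xtouA_2 : noX gtouA_2 = true := by decide +kernel

/-- the pairs proved -/
def ktouA_2 : List Mo := keysWU gtouA_2 ktouA_1

theorem ctouA_2 : CY Wtou Stou ktouA_0 ktouA_2 :=
  .grp ctouA_1 gtouA_2 otouA_2 wtouA_2 xtouA_2

/-- items -/
def gtouA_3 : List WU :=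
  [⟨14, 0, 21, 102, 0, (.cons 210 211 (.exit 0) .nil), [15], []⟩,
   ⟨15, 0, 22, 102, 0, (.cons 210 191 (.exit 0) (.cons 230 249 .nil .nil)), [16], []⟩,
   ⟨16, 0, 23, 101, 0, (.cons 210 190 (.exit 0) (.cons 230 249 .nil .nil)), [17], []⟩,
   ⟨17, 0, 23, 100, 0, (.cons 210 189 (.exit 0) .nil), [18], []⟩,
   ⟨18, 0, 22, 99, 0, (.cons 210 190 (.exit 0) (.cons 250 228 .nil .nil)), [19], []⟩,
   ⟨19, 0, 22, 98, 0, (.cons 210 189 (.exit 0) (.cons 228 249 (.cons 210 189 .nil (.cons 209 231 (.cons 210 189 .nil (.cons 210 209 .nil (.cons 210 209 (.cons 209 228 .nil .nil) .nil))) (.cons 209 231 (.cons 210 189 .nil (.cons 210 209 .nil .nil)) (.cons 210 229 (.cons 229 228 .nil .nil) .nil)))) (.cons 210 189 .nil (.cons 210 189 (.cons 189 169 (.cons 169 150 .nil (.cons 171 190 (.cons 186 208 .nil .nil) .nil)) .nil) (.cons 210 189 (.cons 189 169 (.cons 169 150 .nil (.cons 171 190 (.cons 186 208 .nil .nil) .nil)) .nil)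 (.cons 210 189 (.cons 189 169 (.cons 169 150 .nil (.cons 171 190 (.cons 186 208 .nil .nil) .nil)) (.cons 189 169 (.cons 171 190 .nil .nil) .nil)) .nil)))))), [20], []⟩,
   ⟨20, 0, 21, 97, 0, (.cons 210 190 (.exit 0) .nil), [21], []⟩,
   ⟨21, 0, 21, 96, 0, (.cons 210 191 (.exit 0) (.cons 210 191 .nil (.cons 210 231 (.cons 250 272 (.cons 231 210 (.cons 210 191 .nil .nil) (.cons 231 210 (.cons 210 191 .nil .nil) (.cons 231 250 (.cons 250 249 .nil .nil) (.cons 231 210 (.cons 210 191 .nil .nil) .nil)))) (.cons 231 210 (.cons 210 191 .nil .nil) (.cons 231 210 (.cons 210 191 .nil .nil) (.cons 227 249 (.cons 231 230 .nil (.cons 231 210 .nil (.cons 231 210 .nil .nil))) (.cons 231 210 (.cons 210 191 .nil .nil) .nil))))) .nil))), [22], []⟩,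
   ⟨22, 0, 22, 95, 0, (.cons 210 190 (.exit 0) .nil), [23], []⟩,
   ⟨23, 0, 22, 94, 0, (.cons 210 191 .nil (.cons 232 251 (.cons 210 191 .nil (.cons 210 231 (.cons 211 250 .nil .nil) (.cons 211 229 (.cons 210 191 .nil (.cons 210 211 (.cons 211 232 .nil .nil) .nil)) .nil))) (.cons 210 191 (.exit 0) (.cons 210 191 (.cons 191 171 (.cons 171 152 .nil (.cons 171 152 .nil (.cons 172 190 (.cons 171 152 .nil (.cons 171 152 .nil .nil)) .nil))) (.cons 191 171 (.cons 171 152 .nil .nil) .nil)) (.cons 210 191 (.cons 191 171 (.cons 171 152 .nil (.cons 171 152 .nil (.cons 172 190 (.cons 171 152 .nil (.cons 171 152 .nil .nil)) .nil))) .nil) .nil))))), [24], []⟩,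
   ⟨24, 0, 23, 93, 0, (.cons 210 190 (.exit 0) .nil), [25], []⟩,
   ⟨25, 0, 23, 92, 0, (.cons 210 191 .nil (.cons 210 191 .nil (.cons 210 191 (.exit 0) (.cons 211 229 (.cons 210 191 .nil (.cons 210 191 .nil (.cons 210 211 .nil .nil))) .nil)))), [26], []⟩,
   ⟨26, 0, 24, 91, 0, (.cons 210 190 (.exit 0) .nil), [27], []⟩,
   ⟨27, 0, 24, 90, 0, (.cons 210 191 .nil (.cons 210 191 .nil (.cons 210 191 (.exit 0) (.cons 211 229 (.cons 210 191 .nil (.cons 210 191 .nil (.cons 210 211 (.cons 208 229 .nil .nil) .nil))) .nil)))), [28], []⟩]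

theorem otouA_3 : grpWU Wtou Stou ktouA_2 gtouA_3 = true := by decide +kernel

theorem wtouA_3 : wpTU Wtou gtouA_3 = true := by decide +kernel

theorem xtouA_3 : noX gtouA_3 = true := by decide +kernel

/-- the pairs proved -/
def ktouA_3 : List Mo := keysWU gtouA_3 ktouA_2

theorem ctouA_3 : CY Wtou Stou ktouA_0 ktouA_3 :=
  .grp ctouA_2 gtouA_3 otouA_3 wtouA_3 xtouA_3

/-- items -/
def gtouA_4 : List WU :=
  [⟨0, 0, 8, 104, 0, (.cons 210 211 (.exit 0) .nil), [1], []⟩,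
   ⟨1, 0, 9, 104, 0, (.cons 210 231 (.exit 0) (.cons 250 249 (.cons 210 231 .nil .nil) .nil)), [2], []⟩,
   ⟨2, 0, 10, 105, 0, (.cons 210 211 (.exit 0) (.cons 229 228 .nil .nil)), [3], []⟩,
   ⟨3, 0, 11, 105, 0, (.cons 210 191 (.exit 0) (.cons 210 191 .nil (.cons 248 228 (.cons 210 191 .nil .nil) .nil))), [4], []⟩,
   ⟨4, 0, 12, 104, 0, (.cons 210 211 (.exit 0) .nil), [5], []⟩,
   ⟨5, 0, 13, 104, 0, (.cons 210 231 (.exit 0) (.cons 250 249 (.cons 210 231 .nil .nil) .nil)), [6], []⟩,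
   ⟨6, 0, 14, 105, 0, (.cons 210 211 (.exit 0) (.cons 229 228 .nil .nil)), [7], []⟩,
   ⟨7, 0, 15, 105, 0, (.cons 210 191 (.exit 0) (.cons 210 191 .nil (.cons 248 228 (.cons 210 191 .nil .nil) .nil))), [8], []⟩,
   ⟨8, 0, 16, 104, 0, (.cons 210 211 (.exit 0) .nil), [9], []⟩,
   ⟨9, 0, 17, 104, 0, (.cons 210 231 (.exit 0) (.cons 230 249 (.cons 210 231 .nil .nil) .nil)), [10], []⟩,
   ⟨10, 0, 18, 105, 0, (.cons 210 211 (.exit 0) (.cons 209 228 .nil .nil)), [11], []⟩,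
   ⟨11, 0, 19, 105, 0, (.cons 210 191 (.exit 0) (.cons 210 191 .nil (.cons 207 228 (.cons 210 191 .nil .nil) .nil))), [12], []⟩,
   ⟨12, 0, 20, 104, 0, (.cons 210 190 (.exit 0) .nil), [13], []⟩,
   ⟨13, 0, 20, 103, 0, (.cons 210 191 (.exit 0) .nil), [14], []⟩]

theorem otouA_4 : grpWU Wtou Stou ktouA_3 gtouA_4 = true := by decide +kernel

theorem wtouA_4 : wpTU Wtou gtouA_4 = true := by decide +kernel

theorem xtouA_4 : noX gtouA_4 = true := by decide +kernel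

/-- the pairs proved -/
def ktouA_4 : List Mo := keysWU gtouA_4 ktouA_3

theorem ctouA_4 : CY Wtou Stou ktouA_0 ktouA_4 :=
  .grp ctouA_3 gtouA_4 otouA_4 wtouA_4 xtouA_4

end Pool.Agent.Lib.H32C.Loc
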