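import Pool.Agent.Lib.H32C.TdT0
import Pool.Agent.Lib.H32C.TouT

/-!
# Part c of the certificate of the tile TdT
-/

set_option autoImplicit false

namespace Pool.Agent.Lib.H32C.Loc

/-- the pairs at the exit -/
def ktouL_0 : List Mo := [⟨96, 1⟩]

theorem ctouL_0 : CYL Wtou Stou ktouL_0 ktouL_0 := .nil

/-- items -/
def gtouL_1 : List WL :=
  [⟨71, 1, 25, 51, 0, 0, 292, 251, 251, 189, 72, 0, 0⟩,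
   ⟨72, 1, 24, 50, 0, 0, 292, 251, 251, 190, 73, 0, 0⟩,
   ⟨73, 1, 24, 49, 0, 0, 292, 251, 251, 189, 74, 0, 0⟩,
   ⟨74, 1, 23, 48, 0, 0, 292, 251, 251, 190, 75, 0, 0⟩,
   ⟨75, 1, 23, 47, 0, 0, 292, 251, 251, 189, 76, 0, 0⟩,
   ⟨76, 1, 22, 46, 0, 0, 292, 251, 251, 190, 77, 0, 0⟩,
   ⟨77, 1, 22, 45, 0, 0, 292, 251, 251, 189, 78, 0, 0⟩,
   ⟨78, 1, 21, 44, 0, 0, 292, 251, 251, 190, 79, 0, 0⟩,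
   ⟨79, 1, 21, 43, 0, 0, 292, 251, 251, 191, 80, 0, 0⟩,
   ⟨80, 1, 22, 42, 0, 0, 290, 249, 249, 190, 81, 0, 0⟩,
   ⟨81, 1, 22, 41, 0, 0, 290, 249, 249, 189, 82, 0, 0⟩,
   ⟨82, 1, 21, 40, 0, 0, 290, 251, 251, 209, 83, 0, 0⟩,
   ⟨83, 1, 20, 40, 0, 0, 271, 232, 232, 229, 84, 0, 0⟩,
   ⟨84, 1, 19, 41, 0, 0, 233, 192, 192, 209, 85, 0, 0⟩,
   ⟨85, 1, 18, 41, 0, 0, 214, 192, 192, 189, 86, 0, 0⟩,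
   ⟨86, 1, 17, 40, 0, 0, 214, 232, 232, 209, 87, 0, 0⟩,
   ⟨87, 1, 16, 40, 0, 0, 214, 232, 232, 229, 88, 0, 0⟩,
   ⟨88, 1, 15, 41, 0, 0, 214, 192, 192, 209, 89, 0, 0⟩,
   ⟨89, 1, 14, 41, 0, 0, 214, 192, 192, 189, 90, 0, 0⟩,
   ⟨90, 1, 13, 40, 0, 0, 214, 232, 232, 209, 91, 0, 0⟩,
   ⟨91, 1, 12, 40, 0, 0, 214, 232, 232, 229, 92, 0, 0⟩,
   ⟨92, 1, 11, 41, 0, 0, 214, 192, 192, 209, 93, 0, 0⟩,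
   ⟨93, 1, 10, 41, 0, 0, 214, 192, 192, 189, 94, 0, 0⟩,
   ⟨94, 1, 9, 40, 0, 0, 214, 232, 232, 209, 95, 0, 0⟩,
   ⟨95, 1, 8, 40, 0, 0, 214, 232, 232, 229, 96, 0, 0⟩]

theorem otouL_1 : grpWL Wtou Stou ktouL_0 gtouL_1 = true := by decide +kernel

theorem wtouL_1 : wpTL Wtou gtouL_1 = true := by decide +kernel

/-- the pairs proved -/
def ktouL_1 : List Mo := keysWL gtouL_1 ktouL_0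

theorem ctouL_1 : CYL Wtou Stou ktouL_0 ktouL_1 :=
  .grp ctouL_0 gtouL_1 otouL_1 wtouL_1

/-- items -/
def gtouL_2 : List WL :=
  [⟨46, 1, 37, 74, 0, 0, 246, 228, 228, 190, 47, 0, 0⟩,
   ⟨47, 1, 37, 73, 0, 0, 267, 249, 249, 191, 48, 0, 0⟩,
   ⟨48, 1, 38, 72, 351, 0, 267, 249, 249, 190, 49, 0, 0⟩,
   ⟨49, 1, 38, 71, 351, 0, 288, 249, 249, 189, 50, 0, 0⟩,
   ⟨50, 1, 37, 70, 0, 0, 290, 251, 251, 190, 51, 0, 0⟩,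
   ⟨51, 1, 37, 69, 0, 0, 290, 251, 251, 189, 52, 0, 0⟩,
   ⟨52, 1, 36, 68, 0, 0, 292, 251, 251, 190, 53, 0, 0⟩,
   ⟨53, 1, 36, 67, 0, 0, 292, 251, 251, 189, 54, 0, 0⟩,
   ⟨54, 1, 35, 66, 0, 0, 292, 251, 251, 209, 55, 0, 0⟩,
   ⟨55, 1, 34, 66, 0, 0, 273, 232, 232, 189, 56, 0, 0⟩,
   ⟨56, 1, 33, 65, 0, 0, 273, 232, 232, 190, 57, 0, 0⟩,
   ⟨57, 1, 33, 64, 0, 0, 273, 251, 251, 189, 58, 0, 0⟩,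
   ⟨58, 1, 32, 63, 0, 0, 273, 251, 251, 209, 59, 0, 0⟩,
   ⟨59, 1, 31, 63, 0, 0, 273, 232, 232, 189, 60, 0, 0⟩,
   ⟨60, 1, 30, 62, 0, 0, 273, 232, 232, 190, 61, 0, 0⟩,
   ⟨61, 1, 30, 61, 0, 0, 273, 251, 251, 189, 62, 0, 0⟩,
   ⟨62, 1, 29, 60, 0, 0, 273, 251, 251, 190, 63, 0, 0⟩,
   ⟨63, 1, 29, 59, 0, 0, 292, 251, 251, 189, 64, 0, 0⟩,
   ⟨64, 1, 28, 58, 0, 0, 292, 251, 251, 190, 65, 0, 0⟩,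
   ⟨65, 1, 28, 57, 0, 0, 292, 251, 251, 189, 66, 0, 0⟩,
   ⟨66, 1, 27, 56, 0, 0, 292, 251, 251, 190, 67, 0, 0⟩,
   ⟨67, 1, 27, 55, 0, 0, 292, 251, 251, 189, 68, 0, 0⟩,
   ⟨68, 1, 26, 54, 0, 0, 292, 251, 251, 190, 69, 0, 0⟩,
   ⟨69, 1, 26, 53, 0, 0, 292, 251, 251, 189, 70, 0, 0⟩,
   ⟨70, 1, 25, 52, 0, 0, 292, 251, 251, 190, 71, 0, 0⟩]

theorem otouL_2 : grpWL Wtou Stou ktouL_1 gtouL_2 = true := by decide +kernel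

theorem wtouL_2 : wpTL Wtou gtouL_2 = true := by decide +kernel

/-- the pairs proved -/
def ktouL_2 : List Mo := keysWL gtouL_2 ktouL_1

theorem ctouL_2 : CYL Wtou Stou ktouL_0 ktouL_2 :=
  .grp ctouL_1 gtouL_2 otouL_2 wtouL_2

/-- items -/
def gtouL_3 : List WL :=
  [⟨21, 1, 21, 96, 0, 0, 292, 251, 251, 191, 22, 0, 0⟩,
   ⟨22, 1, 22, 95, 0, 0, 290, 249, 249, 190, 23, 0, 0⟩,
   ⟨23, 1, 22, 94, 0, 0, 290, 249, 249, 191, 24, 0, 0⟩,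
   ⟨24, 1, 23, 93, 0, 0, 288, 249, 249, 190, 25, 0, 0⟩,
   ⟨25, 1, 23, 92, 0, 0, 288, 249, 249, 191, 26, 0, 0⟩,
   ⟨26, 1, 24, 91, 0, 0, 288, 249, 249, 190, 27, 0, 0⟩,
   ⟨27, 1, 24, 90, 0, 0, 288, 249, 249, 191, 28, 0, 0⟩,
   ⟨28, 1, 25, 89, 0, 0, 288, 249, 249, 190, 29, 0, 0⟩,
   ⟨29, 1, 25, 88, 0, 0, 288, 249, 249, 191, 30, 0, 0⟩,
   ⟨30, 1, 26, 87, 0, 0, 288, 249, 249, 190, 31, 0, 0⟩,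
   ⟨31, 1, 26, 86, 0, 0, 288, 249, 249, 191, 32, 0, 0⟩,
   ⟨32, 1, 27, 85, 0, 0, 288, 249, 249, 190, 33, 0, 0⟩,
   ⟨33, 1, 27, 84, 0, 0, 288, 249, 249, 191, 34, 0, 0⟩,
   ⟨34, 1, 28, 83, 0, 0, 288, 249, 249, 190, 35, 0, 0⟩,
   ⟨35, 1, 28, 82, 0, 0, 288, 249, 249, 191, 36, 0, 0⟩,
   ⟨36, 1, 29, 81, 0, 0, 288, 249, 249, 190, 37, 0, 0⟩,
   ⟨37, 1, 29, 80, 0, 0, 288, 249, 249, 191, 38, 0, 0⟩,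
   ⟨38, 1, 30, 79, 0, 0, 288, 249, 249, 190, 39, 0, 0⟩,
   ⟨39, 1, 30, 78, 0, 0, 288, 249, 249, 191, 40, 0, 0⟩,
   ⟨40, 1, 31, 77, 0, 0, 288, 249, 249, 211, 41, 0, 0⟩,
   ⟨41, 1, 32, 77, 0, 0, 267, 228, 228, 191, 42, 0, 0⟩,
   ⟨42, 1, 33, 76, 0, 0, 267, 228, 228, 211, 43, 0, 0⟩,
   ⟨43, 1, 34, 76, 0, 0, 246, 228, 228, 191, 44, 0, 0⟩,
   ⟨44, 1, 35, 75, 0, 0, 246, 228, 228, 211, 45, 0, 0⟩,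
   ⟨45, 1, 36, 75, 0, 0, 246, 228, 228, 191, 46, 0, 0⟩]

theorem otouL_3 : grpWL Wtou Stou ktouL_2 gtouL_3 = true := by decide +kernel

theorem wtouL_3 : wpTL Wtou gtouL_3 = true := by decide +kernel

/-- the pairs proved -/
def ktouL_3 : List Mo := keysWL gtouL_3 ktouL_2

theorem ctouL_3 : CYL Wtou Stou ktouL_0 ktouL_3 :=
  .grp ctouL_2 gtouL_3 otouL_3 wtouL_3

/-- items -/
def gtouL_4 : List WL :=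
  [⟨1, 1, 9, 104, 0, 0, 206, 228, 228, 231, 2, 0, 0⟩,
   ⟨2, 1, 10, 105, 0, 0, 206, 188, 188, 211, 3, 0, 0⟩,
   ⟨3, 1, 11, 105, 0, 0, 206, 188, 188, 191, 4, 0, 0⟩,
   ⟨4, 1, 12, 104, 0, 0, 206, 228, 228, 211, 5, 0, 0⟩,
   ⟨5, 1, 13, 104, 0, 0, 206, 228, 228, 231, 6, 0, 0⟩,
   ⟨6, 1, 14, 105, 0, 0, 206, 188, 188, 211, 7, 0, 0⟩,
   ⟨7, 1, 15, 105, 0, 0, 206, 188, 188, 191, 8, 0, 0⟩,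
   ⟨8, 1, 16, 104, 0, 0, 206, 228, 228, 211, 9, 0, 0⟩,
   ⟨9, 1, 17, 104, 0, 0, 206, 228, 228, 231, 10, 0, 0⟩,
   ⟨10, 1, 18, 105, 0, 0, 206, 188, 188, 211, 11, 0, 0⟩,
   ⟨11, 1, 19, 105, 0, 0, 206, 188, 188, 191, 12, 0, 0⟩,
   ⟨12, 1, 20, 104, 0, 0, 206, 228, 228, 190, 13, 0, 0⟩,
   ⟨13, 1, 20, 103, 0, 0, 227, 249, 249, 191, 14, 0, 0⟩,
   ⟨14, 1, 21, 102, 0, 0, 267, 249, 249, 211, 15, 0, 0⟩,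
   ⟨15, 1, 22, 102, 0, 0, 267, 228, 228, 191, 16, 0, 0⟩,
   ⟨16, 1, 23, 101, 0, 0, 267, 228, 228, 190, 17, 0, 0⟩,
   ⟨17, 1, 23, 100, 0, 0, 267, 249, 249, 189, 18, 0, 0⟩,
   ⟨18, 1, 22, 99, 0, 0, 269, 251, 251, 190, 19, 0, 0⟩,
   ⟨19, 1, 22, 98, 0, 0, 290, 251, 251, 189, 20, 0, 0⟩,
   ⟨20, 1, 21, 97, 0, 0, 292, 251, 251, 190, 21, 0, 0⟩]

theorem otouL_4 : grpWL Wtou Stou ktouL_3 gtouL_4 = true := by decide +kernel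

theorem wtouL_4 : wpTL Wtou gtouL_4 = true := by decide +kernel

/-- the pairs proved -/
def ktouL_4 : List Mo := keysWL gtouL_4 ktouL_3

theorem ctouL_4 : CYL Wtou Stou ktouL_0 ktouL_4 :=
  .grp ctouL_3 gtouL_4 otouL_4 wtouL_4

end Pool.Agent.Lib.H32C.Loc
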