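import Pool.Agent.Lib.H32C.TdTa
import Pool.Agent.Lib.H32C.TdTb
import Pool.Agent.Lib.H32C.TdTc

/-!
# Tile data: T (the touch), a composite tile of two tiles
-/

set_option autoImplicit false

namespace Pool.Agent.Lib.H32C.Loc

/-- the first item of the lower bound -/
def utou : WL := ⟨0, 1, 8, 104, 0, 0, 206, 228, 228, 211, 1, 0, 0⟩

/-- **The certificate of the touch.** -/
theorem Wtou_cert : TouD Wtou Stou 0 96 :=
  ⟨Wtou_ok, by decide, ⟨ktouU_9, ctouU_9, by decide +kernel⟩, ⟨ktouA_4, ctouA_4, by decide +kernel⟩,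
    ⟨ktouL_4, utou, ctouL_4, rfl, rfl, rfl, rfl, by decide +kernel⟩⟩

end Pool.Agent.Lib.H32C.Loc
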