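import Pool.Agent.Lib.H32C.TdAr
import Pool.Agent.Lib.H32C.TdBase
import Pool.Agent.Lib.H32C.TileW
import Pool.Agent.Lib.H32C.World

/-!
# Tile data: WB (window of the service Bin, with a shaft to the upper left)
-/

set_option autoImplicit false

namespace Pool.Agent.Lib.H32C.Loc

theorem AWB_L : rowsEq AWB 0 8 PF 64 = true := by decide +kernel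

theorem AWB_R : rowsEq AWB 64 8 PH 64 = true := by decide +kernel

theorem AWB_B : colsEq AWB 0 PV 16 = true := by decide +kernel

theorem AWB_C : cornersOk AWB = true := by decide +kernel

theorem AWB_K : noKing AWB = true := by decide +kernel

/-- the states -/
def SWB : List (List Pc) :=
  [[⟨71, 41, 6⟩, ⟨74, 41, 10⟩, ⟨75, 41, 10⟩],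
   [⟨70, 41, 6⟩, ⟨73, 40, 10⟩, ⟨74, 41, 10⟩],
   [⟨69, 40, 6⟩, ⟨72, 40, 10⟩, ⟨73, 40, 10⟩],
   [⟨68, 40, 6⟩, ⟨71, 41, 10⟩, ⟨72, 40, 10⟩],
   [⟨67, 41, 6⟩, ⟨70, 41, 10⟩, ⟨71, 41, 10⟩],
   [⟨66, 41, 6⟩, ⟨69, 40, 10⟩, ⟨70, 41, 10⟩],
   [⟨65, 40, 6⟩, ⟨68, 40, 10⟩, ⟨69, 40, 10⟩],
   [⟨64, 40, 6⟩, ⟨67, 41, 10⟩, ⟨68, 40, 10⟩],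
   [⟨63, 41, 6⟩, ⟨66, 41, 10⟩, ⟨67, 41, 10⟩],
   [⟨62, 41, 6⟩, ⟨65, 40, 10⟩, ⟨66, 41, 10⟩],
   [⟨61, 40, 6⟩, ⟨64, 40, 10⟩, ⟨65, 40, 10⟩],
   [⟨60, 40, 6⟩, ⟨63, 41, 10⟩, ⟨64, 40, 10⟩],
   [⟨59, 41, 6⟩, ⟨62, 41, 10⟩, ⟨63, 41, 10⟩],
   [⟨59, 42, 6⟩, ⟨61, 40, 10⟩, ⟨62, 41, 10⟩],
   [⟨58, 43, 6⟩, ⟨60, 40, 10⟩, ⟨61, 40, 10⟩],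
   [⟨58, 44, 6⟩, ⟨59, 41, 10⟩, ⟨60, 40, 10⟩],
   [⟨57, 45, 6⟩, ⟨59, 42, 10⟩, ⟨59, 41, 10⟩],
   [⟨57, 46, 6⟩, ⟨58, 43, 10⟩, ⟨59, 42, 10⟩],
   [⟨56, 47, 6⟩, ⟨58, 44, 10⟩, ⟨58, 43, 10⟩],
   [⟨55, 47, 6⟩, ⟨57, 45, 10⟩, ⟨58, 44, 10⟩],
   [⟨54, 48, 6⟩, ⟨57, 46, 10⟩, ⟨57, 45, 10⟩],
   [⟨54, 49, 6⟩, ⟨56, 47, 10⟩, ⟨57, 46, 10⟩],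
   [⟨53, 50, 6⟩, ⟨55, 47, 10⟩, ⟨56, 47, 10⟩],
   [⟨53, 51, 6⟩, ⟨54, 48, 10⟩, ⟨55, 47, 10⟩],
   [⟨52, 52, 6⟩, ⟨54, 49, 10⟩, ⟨54, 48, 10⟩],
   [⟨51, 52, 6⟩, ⟨53, 50, 10⟩, ⟨54, 49, 10⟩],
   [⟨50, 53, 6⟩, ⟨53, 51, 10⟩, ⟨53, 50, 10⟩],
   [⟨49, 53, 6⟩, ⟨52, 52, 10⟩, ⟨53, 51, 10⟩],
   [⟨48, 54, 6⟩, ⟨51, 52, 10⟩, ⟨52, 52, 10⟩],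
   [⟨47, 54, 6⟩, ⟨50, 53, 10⟩, ⟨51, 52, 10⟩],
   [⟨46, 55, 6⟩, ⟨49, 53, 10⟩, ⟨50, 53, 10⟩],
   [⟨45, 55, 6⟩, ⟨48, 54, 10⟩, ⟨49, 53, 10⟩],
   [⟨44, 54, 6⟩, ⟨47, 54, 10⟩, ⟨48, 54, 10⟩],
   [⟨43, 53, 6⟩, ⟨46, 55, 10⟩, ⟨47, 54, 10⟩],
   [⟨43, 52, 6⟩, ⟨46, 55, 10⟩, ⟨47, 54, 10⟩],
   [⟨44, 51, 6⟩, ⟨47, 54, 10⟩, ⟨44, 54, 10⟩],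
   [⟨44, 50, 6⟩, ⟨44, 54, 10⟩, ⟨46, 52, 10⟩],
   [⟨43, 49, 6⟩, ⟨46, 52, 10⟩, ⟨43, 52, 10⟩],
   [⟨43, 48, 6⟩, ⟨43, 52, 10⟩, ⟨45, 50, 10⟩],
   [⟨42, 47, 6⟩, ⟨45, 50, 10⟩, ⟨44, 50, 10⟩],
   [⟨41, 47, 6⟩, ⟨43, 49, 10⟩, ⟨44, 50, 10⟩],
   [⟨40, 48, 6⟩, ⟨43, 48, 10⟩, ⟨43, 49, 10⟩],
   [⟨39, 48, 6⟩, ⟨42, 47, 10⟩, ⟨43, 48, 10⟩],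
   [⟨38, 47, 6⟩, ⟨41, 47, 10⟩, ⟨42, 47, 10⟩],
   [⟨38, 46, 6⟩, ⟨40, 48, 10⟩, ⟨41, 47, 10⟩],
   [⟨37, 45, 6⟩, ⟨39, 48, 10⟩, ⟨40, 48, 10⟩],
   [⟨36, 45, 6⟩, ⟨38, 47, 10⟩, ⟨39, 48, 10⟩],
   [⟨35, 44, 6⟩, ⟨38, 46, 10⟩, ⟨38, 47, 10⟩],
   [⟨34, 44, 6⟩, ⟨37, 45, 10⟩, ⟨38, 46, 10⟩],
   [⟨33, 43, 6⟩, ⟨36, 45, 10⟩, ⟨37, 45, 10⟩],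
   [⟨33, 42, 6⟩, ⟨35, 44, 10⟩, ⟨36, 45, 10⟩],
   [⟨32, 41, 6⟩, ⟨34, 44, 10⟩, ⟨35, 44, 10⟩],
   [⟨32, 40, 6⟩, ⟨33, 43, 10⟩, ⟨34, 44, 10⟩],
   [⟨31, 39, 6⟩, ⟨33, 42, 10⟩, ⟨33, 43, 10⟩],
   [⟨31, 38, 6⟩, ⟨32, 41, 10⟩, ⟨33, 42, 10⟩],
   [⟨32, 37, 6⟩, ⟨32, 40, 10⟩, ⟨32, 41, 10⟩],
   [⟨32, 36, 6⟩, ⟨31, 39, 10⟩, ⟨32, 40, 10⟩],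
   [⟨33, 35, 6⟩, ⟨31, 38, 10⟩, ⟨31, 39, 10⟩],
   [⟨33, 34, 6⟩, ⟨32, 37, 10⟩, ⟨31, 38, 10⟩],
   [⟨34, 33, 6⟩, ⟨32, 36, 10⟩, ⟨32, 37, 10⟩],
   [⟨34, 32, 6⟩, ⟨33, 35, 10⟩, ⟨32, 36, 10⟩],
   [⟨35, 31, 6⟩, ⟨33, 34, 10⟩, ⟨33, 35, 10⟩],
   [⟨35, 30, 6⟩, ⟨34, 33, 10⟩, ⟨33, 34, 10⟩],
   [⟨36, 29, 6⟩, ⟨34, 32, 10⟩, ⟨34, 33, 10⟩],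
   [⟨36, 28, 6⟩, ⟨35, 31, 10⟩, ⟨34, 32, 10⟩],
   [⟨37, 27, 6⟩, ⟨35, 30, 10⟩, ⟨35, 31, 10⟩],
   [⟨37, 26, 6⟩, ⟨36, 29, 10⟩, ⟨35, 30, 10⟩],
   [⟨38, 25, 6⟩, ⟨36, 28, 10⟩, ⟨36, 29, 10⟩],
   [⟨38, 24, 6⟩, ⟨37, 27, 10⟩, ⟨36, 28, 10⟩],
   [⟨39, 23, 6⟩, ⟨37, 26, 10⟩, ⟨37, 27, 10⟩],
   [⟨39, 22, 6⟩, ⟨38, 25, 10⟩, ⟨37, 26, 10⟩],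
   [⟨40, 21, 6⟩, ⟨38, 24, 10⟩, ⟨38, 25, 10⟩],
   [⟨40, 20, 6⟩, ⟨39, 23, 10⟩, ⟨38, 24, 10⟩],
   [⟨41, 19, 6⟩, ⟨39, 22, 10⟩, ⟨39, 23, 10⟩],
   [⟨41, 18, 6⟩, ⟨40, 21, 10⟩, ⟨39, 22, 10⟩],
   [⟨40, 17, 6⟩, ⟨40, 20, 10⟩, ⟨40, 21, 10⟩],
   [⟨40, 16, 6⟩, ⟨41, 19, 10⟩, ⟨40, 20, 10⟩],
   [⟨41, 15, 6⟩, ⟨41, 18, 10⟩, ⟨41, 19, 10⟩],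
   [⟨41, 14, 6⟩, ⟨40, 17, 10⟩, ⟨41, 18, 10⟩],
   [⟨40, 13, 6⟩, ⟨40, 16, 10⟩, ⟨40, 17, 10⟩],
   [⟨40, 12, 6⟩, ⟨41, 15, 10⟩, ⟨40, 16, 10⟩],
   [⟨41, 11, 6⟩, ⟨41, 14, 10⟩, ⟨41, 15, 10⟩],
   [⟨41, 10, 6⟩, ⟨40, 13, 10⟩, ⟨41, 14, 10⟩],
   [⟨40, 9, 6⟩, ⟨40, 12, 10⟩, ⟨40, 13, 10⟩],
   [⟨40, 8, 6⟩, ⟨41, 11, 10⟩, ⟨40, 12, 10⟩],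
   [⟨41, 7, 6⟩, ⟨41, 10, 10⟩, ⟨41, 11, 10⟩]]

theorem SWB_x : nthP SWB 0 = ent Dir.L := rfl

theorem SWB_y : nthP SWB 85 = ext Dir.D := rfl

end Pool.Agent.Lib.H32C.Loc
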