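import Pool.Agent.Lib.H32C.ChK
import Pool.Agent.Lib.H32C.TdWB0

/-!
# Part b of the certificate of the tile TdWB
-/

set_option autoImplicit false

namespace Pool.Agent.Lib.H32C.Loc

/-- the pairs at the exit -/
def kWBL_0 : List Mo := [⟨85, 1⟩]

theorem cWBL_0 : KL 72 AWB 61 11 4283 SWB kWBL_0 kWBL_0 := .nil

/-- items -/
def gWBL_1 : List WL :=
  [⟨60, 1, 34, 32, 0, 0, 288, 249, 249, 191, 61, 0, 0⟩,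
   ⟨61, 1, 35, 31, 0, 0, 288, 249, 249, 190, 62, 0, 0⟩,
   ⟨62, 1, 35, 30, 0, 0, 288, 249, 249, 191, 63, 0, 0⟩,
   ⟨63, 1, 36, 29, 0, 0, 288, 249, 249, 190, 64, 0, 0⟩,
   ⟨64, 1, 36, 28, 0, 0, 288, 249, 249, 191, 65, 0, 0⟩,
   ⟨65, 1, 37, 27, 0, 0, 288, 249, 249, 190, 66, 0, 0⟩,
   ⟨66, 1, 37, 26, 0, 0, 288, 249, 249, 191, 67, 0, 0⟩,
   ⟨67, 1, 38, 25, 0, 0, 288, 249, 249, 190, 68, 0, 0⟩,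
   ⟨68, 1, 38, 24, 0, 0, 288, 249, 249, 191, 69, 0, 0⟩,
   ⟨69, 1, 39, 23, 0, 0, 288, 249, 249, 190, 70, 0, 0⟩,
   ⟨70, 1, 39, 22, 0, 0, 288, 249, 249, 191, 71, 0, 0⟩,
   ⟨71, 1, 40, 21, 0, 0, 288, 249, 249, 190, 72, 0, 0⟩,
   ⟨72, 1, 40, 20, 0, 0, 288, 249, 249, 191, 73, 0, 0⟩,
   ⟨73, 1, 41, 19, 0, 0, 288, 249, 249, 190, 74, 0, 0⟩,
   ⟨74, 1, 41, 18, 0, 0, 288, 249, 249, 189, 75, 0, 0⟩,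
   ⟨75, 1, 40, 17, 0, 0, 290, 251, 251, 190, 76, 0, 0⟩,
   ⟨76, 1, 40, 16, 0, 0, 290, 251, 251, 191, 77, 0, 0⟩,
   ⟨77, 1, 41, 15, 0, 0, 290, 249, 249, 190, 78, 0, 0⟩,
   ⟨78, 1, 41, 14, 0, 0, 290, 249, 249, 189, 79, 0, 0⟩,
   ⟨79, 1, 40, 13, 0, 0, 290, 251, 251, 190, 80, 0, 0⟩,
   ⟨80, 1, 40, 12, 0, 0, 290, 251, 251, 191, 81, 0, 0⟩,
   ⟨81, 1, 41, 11, 0, 0, 290, 249, 249, 190, 82, 0, 0⟩,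
   ⟨82, 1, 41, 10, 0, 0, 290, 249, 249, 189, 83, 0, 0⟩,
   ⟨83, 1, 40, 9, 0, 0, 290, 251, 251, 190, 84, 0, 0⟩,
   ⟨84, 1, 40, 8, 0, 0, 290, 251, 251, 191, 85, 0, 0⟩]

theorem oWBL_1 : grpKL 72 AWB 61 11 4283 SWB kWBL_0 gWBL_1 = true := by decide +kernel

theorem wWBL_1 : wpL ⟨72, AWB, 61, 4283⟩ gWBL_1 = true := by decide +kernel

/-- the pairs proved -/
def kWBL_1 : List Mo := keysWL gWBL_1 kWBL_0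

theorem cWBL_1 : KL 72 AWB 61 11 4283 SWB kWBL_0 kWBL_1 := .grp cWBL_0 gWBL_1 oWBL_1 wWBL_1

/-- items -/
def gWBL_2 : List WL :=
  [⟨35, 1, 44, 51, 344, 0, 273, 232, 232, 190, 36, 0, 0⟩,
   ⟨36, 1, 44, 49, 346, 0, 310, 269, 269, 209, 37, 0, 0⟩,
   ⟨37, 1, 43, 49, 347, 0, 273, 232, 232, 190, 38, 0, 0⟩,
   ⟨38, 1, 43, 49, 347, 0, 270, 231, 231, 169, 39, 0, 0⟩,
   ⟨39, 1, 42, 46, 0, 0, 293, 271, 271, 229, 40, 0, 0⟩,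
   ⟨40, 1, 41, 46, 0, 0, 293, 252, 252, 249, 41, 0, 0⟩,
   ⟨41, 1, 40, 49, 350, 0, 213, 172, 172, 189, 42, 0, 0⟩,
   ⟨42, 1, 39, 49, 351, 0, 194, 172, 172, 169, 43, 0, 0⟩,
   ⟨43, 1, 38, 46, 0, 0, 234, 252, 252, 210, 44, 0, 0⟩,
   ⟨44, 1, 38, 46, 0, 0, 233, 251, 251, 189, 45, 0, 0⟩,
   ⟨45, 1, 37, 45, 0, 0, 273, 251, 251, 209, 46, 0, 0⟩,
   ⟨46, 1, 36, 45, 0, 0, 273, 232, 232, 189, 47, 0, 0⟩,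
   ⟨47, 1, 35, 44, 0, 0, 273, 232, 232, 209, 48, 0, 0⟩,
   ⟨48, 1, 34, 44, 0, 0, 254, 232, 232, 189, 49, 0, 0⟩,
   ⟨49, 1, 33, 43, 0, 0, 254, 232, 232, 190, 50, 0, 0⟩,
   ⟨50, 1, 33, 42, 0, 0, 273, 251, 251, 189, 51, 0, 0⟩,
   ⟨51, 1, 32, 41, 0, 0, 273, 251, 251, 190, 52, 0, 0⟩,
   ⟨52, 1, 32, 40, 0, 0, 292, 251, 251, 189, 53, 0, 0⟩,
   ⟨53, 1, 31, 39, 0, 0, 292, 251, 251, 190, 54, 0, 0⟩,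
   ⟨54, 1, 31, 38, 0, 0, 292, 251, 251, 191, 55, 0, 0⟩,
   ⟨55, 1, 32, 37, 0, 0, 290, 249, 249, 190, 56, 0, 0⟩,
   ⟨56, 1, 32, 36, 0, 0, 290, 249, 249, 191, 57, 0, 0⟩,
   ⟨57, 1, 33, 35, 0, 0, 288, 249, 249, 190, 58, 0, 0⟩,
   ⟨58, 1, 33, 34, 0, 0, 288, 249, 249, 191, 59, 0, 0⟩,
   ⟨59, 1, 34, 33, 0, 0, 288, 249, 249, 190, 60, 0, 0⟩]

theorem oWBL_2 : grpKL 72 AWB 61 11 4283 SWB kWBL_1 gWBL_2 = true := by decide +kernel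

theorem wWBL_2 : wpL ⟨72, AWB, 61, 4283⟩ gWBL_2 = true := by decide +kernel

/-- the pairs proved -/
def kWBL_2 : List Mo := keysWL gWBL_2 kWBL_1

theorem cWBL_2 : KL 72 AWB 61 11 4283 SWB kWBL_0 kWBL_2 := .grp cWBL_1 gWBL_2 oWBL_2 wWBL_2

/-- items -/
def gWBL_3 : List WL :=
  [⟨10, 0, 61, 40, 0, 0, 214, 232, 232, 209, 11, 0, 0⟩,
   ⟨11, 0, 60, 40, 0, 0, 214, 232, 232, 229, 12, 0, 0⟩,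
   ⟨12, 0, 59, 41, 0, 0, 214, 192, 192, 230, 13, 0, 0⟩,
   ⟨13, 0, 59, 42, 0, 0, 193, 171, 171, 229, 14, 0, 0⟩,
   ⟨14, 0, 58, 43, 0, 0, 153, 171, 171, 230, 15, 0, 0⟩,
   ⟨15, 0, 58, 44, 0, 0, 132, 171, 171, 229, 16, 0, 0⟩,
   ⟨16, 0, 57, 45, 0, 0, 132, 171, 171, 230, 17, 0, 0⟩,
   ⟨17, 0, 57, 46, 0, 0, 132, 171, 171, 229, 18, 0, 0⟩,
   ⟨18, 0, 56, 47, 0, 0, 132, 171, 171, 209, 19, 0, 0⟩,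
   ⟨19, 0, 55, 47, 0, 0, 153, 192, 192, 229, 20, 0, 0⟩,
   ⟨20, 0, 54, 48, 0, 0, 153, 192, 192, 230, 21, 0, 0⟩,
   ⟨21, 0, 54, 49, 0, 0, 153, 171, 171, 229, 22, 0, 0⟩,
   ⟨22, 0, 53, 50, 0, 0, 153, 171, 171, 230, 23, 0, 0⟩,
   ⟨23, 0, 53, 51, 0, 0, 132, 171, 171, 229, 24, 0, 0⟩,
   ⟨24, 0, 52, 52, 0, 0, 132, 171, 171, 209, 25, 0, 0⟩,
   ⟨25, 0, 51, 52, 0, 0, 153, 192, 192, 229, 26, 0, 0⟩,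
   ⟨26, 0, 50, 53, 222, 0, 153, 192, 192, 209, 27, 0, 0⟩,
   ⟨27, 0, 50, 53, 222, 0, 173, 191, 191, 228, 28, 0, 0⟩,
   ⟨28, 0, 50, 54, 202, 0, 172, 190, 190, 207, 29, 0, 0⟩,
   ⟨29, 0, 44, 54, 322, 0, 177, 195, 195, 232, 30, 0, 0⟩,
   ⟨30, 0, 44, 55, 302, 0, 176, 194, 194, 211, 31, 0, 0⟩,
   ⟨31, 0, 44, 55, 302, 0, 175, 193, 193, 190, 32, 0, 0⟩,
   ⟨32, 0, 44, 54, 322, 0, 214, 232, 232, 189, 33, 0, 0⟩,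
   ⟨33, 0, 43, 53, 343, 3, 0, 0, 0, 190, 34, 0, 0⟩,
   ⟨34, 1, 43, 52, 344, 0, 273, 251, 251, 191, 35, 0, 0⟩]

theorem oWBL_3 : grpKL 72 AWB 61 11 4283 SWB kWBL_2 gWBL_3 = true := by decide +kernel

theorem wWBL_3 : wpL ⟨72, AWB, 61, 4283⟩ gWBL_3 = true := by decide +kernel

/-- the pairs proved -/
def kWBL_3 : List Mo := keysWL gWBL_3 kWBL_2

theorem cWBL_3 : KL 72 AWB 61 11 4283 SWB kWBL_0 kWBL_3 := .grp cWBL_2 gWBL_3 oWBL_3 wWBL_3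

/-- items -/
def gWBL_4 : List WL :=
  [⟨1, 0, 70, 41, 0, 0, 214, 192, 192, 189, 2, 0, 0⟩,
   ⟨2, 0, 69, 40, 0, 0, 214, 232, 232, 209, 3, 0, 0⟩,
   ⟨3, 0, 68, 40, 0, 0, 214, 232, 232, 229, 4, 0, 0⟩,
   ⟨4, 0, 67, 41, 0, 0, 214, 192, 192, 209, 5, 0, 0⟩,
   ⟨5, 0, 66, 41, 0, 0, 214, 192, 192, 189, 6, 0, 0⟩,
   ⟨6, 0, 65, 40, 0, 0, 214, 232, 232, 209, 7, 0, 0⟩,
   ⟨7, 0, 64, 40, 0, 0, 214, 232, 232, 229, 8, 0, 0⟩,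
   ⟨8, 0, 63, 41, 0, 0, 214, 192, 192, 209, 9, 0, 0⟩,
   ⟨9, 0, 62, 41, 0, 0, 214, 192, 192, 189, 10, 0, 0⟩]

theorem oWBL_4 : grpKL 72 AWB 61 11 4283 SWB kWBL_3 gWBL_4 = true := by decide +kernel

theorem wWBL_4 : wpL ⟨72, AWB, 61, 4283⟩ gWBL_4 = true := by decide +kernel

/-- the pairs proved -/
def kWBL_4 : List Mo := keysWL gWBL_4 kWBL_3

theorem cWBL_4 : KL 72 AWB 61 11 4283 SWB kWBL_0 kWBL_4 := .grp cWBL_3 gWBL_4 oWBL_4 wWBL_4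

end Pool.Agent.Lib.H32C.Loc
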