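import Pool.Agent.Lib.H32C.TdWBa
import Pool.Agent.Lib.H32C.TdWBb

/-!
# Tile data: WB (window of the service Bin, with a shaft to the upper left)
-/

set_option autoImplicit false

namespace Pool.Agent.Lib.H32C.Loc

/-- the first item of the lower bound -/
def uWB : WL := ⟨0, 0, 71, 41, 0, 0, 214, 192, 192, 209, 1, 0, 0⟩

/-- **The certificate.** -/
theorem EWB_cert : EvC 72 AWB 61 11 4283 SWB 0 85 :=
  ⟨by decide +kernel, by decide +kernel, ⟨kWBU_5, cWBU_5, by decide +kernel⟩,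
    ⟨kWBL_4, uWB, cWBL_4, rfl, rfl, rfl, rfl, by decide +kernel⟩⟩

end Pool.Agent.Lib.H32C.Loc
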