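import Pool.Agent.Lib.H32C.ChW
import Pool.Agent.Lib.H32C.TdAr
import Pool.Agent.Lib.H32C.TdBase
import Pool.Agent.Lib.H32C.World

/-!
# Tile data: WE (window with a shaft to the right)
-/

set_option autoImplicit false

namespace Pool.Agent.Lib.H32C.Loc

/-- pattern of the right border of WE: the shaft between Black pawns -/
def PWE : Nat :=
  0x111111111111111111111111111111111111111111111111111111111111111111111111111111111111111111111111111111111111111111111111111111111111111111111111111111111111111111111111111111111111111111111111111111111111111111111111111111111111111111111111111111111111111111111111111111111111111111111111111111111111111111111111111111111111111111111111111111111111111111111111111111111111111111111111111111111111111111111111111111111111111111111111111111111111111111111111111111119999999999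9999990000000000000000999999999999999911111111111111111111111111111111111111111111111111111111111111111111111111111111111111111111111111111111111111111111111111111111111111111111111111111111111111111111111111111111111111111111111111111111111111111111111111111111111111111111111111111111111111111111111111111111111111111111111111111111111111111111111111111111111111111111111111111111111111111111111111111111111111111111111111111111111111111111111111111111111111111111111111111111111111111111111111111111111111111111111111111111111111111111111111111111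

theorem AWE_L : rowsEq AWE 0 8 PF 64 = true := by decide +kernel

theorem AWE_R : rowsEq AWE 64 8 PWE 64 = true := by decide +kernel

theorem AWE_B : colsEq AWE 0 PV 16 = true := by decide +kernel

theorem AWE_T : colsEq AWE 64 PV 16 = true := by decide +kernel

theorem AWE_C : cornersOk AWE = true := by decide +kernel

theorem AWE_K : noKing AWE = true := by decide +kernel

/-- the window -/
def WWE : WT := ⟨80, AWE, 43, 3315⟩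

theorem WWE_ok : wtOk WWE = true := by decide +kernel

/-- the states -/
def SWE : List (List Pc) :=
  [[⟨40, 8, 6⟩, ⟨40, 4, 10⟩, ⟨40, 5, 10⟩],
   [⟨40, 9, 6⟩, ⟨41, 6, 10⟩, ⟨40, 5, 10⟩],
   [⟨41, 10, 6⟩, ⟨41, 7, 10⟩, ⟨41, 6, 10⟩],
   [⟨41, 11, 6⟩, ⟨40, 8, 10⟩, ⟨41, 7, 10⟩],
   [⟨40, 12, 6⟩, ⟨40, 9, 10⟩, ⟨40, 8, 10⟩],
   [⟨40, 13, 6⟩, ⟨41, 10, 10⟩, ⟨40, 9, 10⟩],
   [⟨41, 14, 6⟩, ⟨41, 11, 10⟩, ⟨41, 10, 10⟩],
   [⟨41, 15, 6⟩, ⟨40, 12, 10⟩, ⟨41, 11, 10⟩],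
   [⟨40, 16, 6⟩, ⟨40, 13, 10⟩, ⟨40, 12, 10⟩],
   [⟨40, 17, 6⟩, ⟨41, 14, 10⟩, ⟨40, 13, 10⟩],
   [⟨41, 18, 6⟩, ⟨41, 15, 10⟩, ⟨41, 14, 10⟩],
   [⟨41, 19, 6⟩, ⟨40, 16, 10⟩, ⟨41, 15, 10⟩],
   [⟨40, 20, 6⟩, ⟨40, 17, 10⟩, ⟨40, 16, 10⟩],
   [⟨40, 21, 6⟩, ⟨41, 18, 10⟩, ⟨40, 17, 10⟩],
   [⟨39, 22, 6⟩, ⟨41, 19, 10⟩, ⟨41, 18, 10⟩],
   [⟨39, 23, 6⟩, ⟨40, 20, 10⟩, ⟨41, 19, 10⟩],
   [⟨38, 24, 6⟩, ⟨40, 21, 10⟩, ⟨40, 20, 10⟩],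
   [⟨38, 25, 6⟩, ⟨39, 22, 10⟩, ⟨40, 21, 10⟩],
   [⟨37, 26, 6⟩, ⟨39, 23, 10⟩, ⟨39, 22, 10⟩],
   [⟨37, 27, 6⟩, ⟨38, 24, 10⟩, ⟨39, 23, 10⟩],
   [⟨36, 28, 6⟩, ⟨38, 25, 10⟩, ⟨38, 24, 10⟩],
   [⟨36, 29, 6⟩, ⟨37, 26, 10⟩, ⟨38, 25, 10⟩],
   [⟨35, 30, 6⟩, ⟨37, 27, 10⟩, ⟨37, 26, 10⟩],
   [⟨35, 31, 6⟩, ⟨36, 28, 10⟩, ⟨37, 27, 10⟩],
   [⟨34, 32, 6⟩, ⟨36, 29, 10⟩, ⟨36, 28, 10⟩],
   [⟨34, 33, 6⟩, ⟨35, 30, 10⟩, ⟨36, 29, 10⟩],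
   [⟨33, 34, 6⟩, ⟨35, 31, 10⟩, ⟨35, 30, 10⟩],
   [⟨32, 34, 6⟩, ⟨34, 32, 10⟩, ⟨35, 31, 10⟩],
   [⟨31, 35, 6⟩, ⟨34, 33, 10⟩, ⟨34, 32, 10⟩],
   [⟨30, 35, 6⟩, ⟨33, 34, 10⟩, ⟨34, 33, 10⟩],
   [⟨29, 36, 6⟩, ⟨32, 34, 10⟩, ⟨33, 34, 10⟩],
   [⟨29, 37, 6⟩, ⟨31, 35, 10⟩, ⟨32, 34, 10⟩],
   [⟨28, 38, 6⟩, ⟨30, 35, 10⟩, ⟨31, 35, 10⟩],
   [⟨27, 38, 6⟩, ⟨29, 36, 10⟩, ⟨30, 35, 10⟩],
   [⟨26, 39, 6⟩, ⟨29, 37, 10⟩, ⟨29, 36, 10⟩],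
   [⟨25, 39, 6⟩, ⟨28, 38, 10⟩, ⟨29, 37, 10⟩],
   [⟨24, 40, 6⟩, ⟨27, 38, 10⟩, ⟨28, 38, 10⟩],
   [⟨23, 40, 6⟩, ⟨26, 39, 10⟩, ⟨27, 38, 10⟩],
   [⟨22, 41, 6⟩, ⟨25, 39, 10⟩, ⟨26, 39, 10⟩],
   [⟨22, 42, 6⟩, ⟨24, 40, 10⟩, ⟨25, 39, 10⟩],
   [⟨21, 43, 6⟩, ⟨23, 40, 10⟩, ⟨24, 40, 10⟩],
   [⟨21, 44, 6⟩, ⟨22, 41, 10⟩, ⟨23, 40, 10⟩],
   [⟨22, 45, 6⟩, ⟨22, 42, 10⟩, ⟨22, 41, 10⟩],
   [⟨23, 45, 6⟩, ⟨21, 43, 10⟩, ⟨22, 42, 10⟩],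
   [⟨24, 46, 6⟩, ⟨21, 44, 10⟩, ⟨21, 43, 10⟩],
   [⟨25, 46, 6⟩, ⟨22, 45, 10⟩, ⟨21, 44, 10⟩],
   [⟨26, 45, 6⟩, ⟨23, 45, 10⟩, ⟨22, 45, 10⟩],
   [⟨27, 45, 6⟩, ⟨24, 46, 10⟩, ⟨23, 45, 10⟩],
   [⟨28, 44, 6⟩, ⟨25, 46, 10⟩, ⟨24, 46, 10⟩],
   [⟨29, 44, 6⟩, ⟨26, 45, 10⟩, ⟨25, 46, 10⟩],
   [⟨30, 43, 6⟩, ⟨27, 45, 10⟩, ⟨26, 45, 10⟩],
   [⟨30, 42, 6⟩, ⟨28, 44, 10⟩, ⟨27, 45, 10⟩],
   [⟨31, 41, 6⟩, ⟨29, 44, 10⟩, ⟨28, 44, 10⟩],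
   [⟨31, 40, 6⟩, ⟨30, 43, 10⟩, ⟨29, 44, 10⟩],
   [⟨32, 39, 6⟩, ⟨30, 42, 10⟩, ⟨30, 43, 10⟩],
   [⟨33, 39, 6⟩, ⟨31, 41, 10⟩, ⟨30, 42, 10⟩],
   [⟨34, 40, 6⟩, ⟨31, 40, 10⟩, ⟨31, 41, 10⟩],
   [⟨35, 41, 6⟩, ⟨32, 39, 10⟩, ⟨31, 40, 10⟩],
   [⟨35, 42, 6⟩, ⟨32, 39, 10⟩, ⟨31, 40, 10⟩],
   [⟨34, 43, 6⟩, ⟨34, 40, 10⟩, ⟨31, 40, 10⟩],
   [⟨34, 44, 6⟩, ⟨34, 40, 10⟩, ⟨32, 42, 10⟩],
   [⟨35, 45, 6⟩, ⟨35, 42, 10⟩, ⟨32, 42, 10⟩],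
   [⟨36, 45, 6⟩, ⟨34, 43, 10⟩, ⟨35, 42, 10⟩],
   [⟨37, 46, 6⟩, ⟨34, 44, 10⟩, ⟨34, 43, 10⟩],
   [⟨37, 47, 6⟩, ⟨35, 45, 10⟩, ⟨34, 44, 10⟩],
   [⟨38, 48, 6⟩, ⟨36, 45, 10⟩, ⟨35, 45, 10⟩],
   [⟨38, 49, 6⟩, ⟨37, 46, 10⟩, ⟨36, 45, 10⟩],
   [⟨39, 50, 6⟩, ⟨37, 47, 10⟩, ⟨37, 46, 10⟩],
   [⟨39, 51, 6⟩, ⟨38, 48, 10⟩, ⟨37, 47, 10⟩],
   [⟨40, 52, 6⟩, ⟨38, 49, 10⟩, ⟨38, 48, 10⟩],
   [⟨40, 53, 6⟩, ⟨39, 50, 10⟩, ⟨38, 49, 10⟩],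
   [⟨41, 54, 6⟩, ⟨39, 51, 10⟩, ⟨39, 50, 10⟩],
   [⟨41, 55, 6⟩, ⟨40, 52, 10⟩, ⟨39, 51, 10⟩],
   [⟨42, 56, 6⟩, ⟨40, 53, 10⟩, ⟨40, 52, 10⟩],
   [⟨42, 57, 6⟩, ⟨41, 54, 10⟩, ⟨40, 53, 10⟩],
   [⟨41, 58, 6⟩, ⟨41, 55, 10⟩, ⟨41, 54, 10⟩],
   [⟨41, 59, 6⟩, ⟨42, 56, 10⟩, ⟨41, 55, 10⟩],
   [⟨40, 60, 6⟩, ⟨42, 57, 10⟩, ⟨42, 56, 10⟩],
   [⟨40, 61, 6⟩, ⟨41, 58, 10⟩, ⟨42, 57, 10⟩],
   [⟨41, 62, 6⟩, ⟨41, 59, 10⟩, ⟨41, 58, 10⟩],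
   [⟨41, 63, 6⟩, ⟨40, 60, 10⟩, ⟨41, 59, 10⟩],
   [⟨40, 64, 6⟩, ⟨40, 61, 10⟩, ⟨40, 60, 10⟩],
   [⟨40, 65, 6⟩, ⟨41, 62, 10⟩, ⟨40, 61, 10⟩],
   [⟨41, 66, 6⟩, ⟨41, 63, 10⟩, ⟨41, 62, 10⟩],
   [⟨41, 67, 6⟩, ⟨40, 64, 10⟩, ⟨41, 63, 10⟩],
   [⟨40, 68, 6⟩, ⟨40, 65, 10⟩, ⟨40, 64, 10⟩],
   [⟨40, 69, 6⟩, ⟨41, 66, 10⟩, ⟨40, 65, 10⟩],
   [⟨41, 70, 6⟩, ⟨41, 67, 10⟩, ⟨41, 66, 10⟩],
   [⟨41, 71, 6⟩, ⟨40, 68, 10⟩, ⟨41, 67, 10⟩],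
   [⟨40, 72, 6⟩, ⟨40, 68, 10⟩, ⟨40, 69, 10⟩]]

theorem SWE_x : nthP SWE 0 = ent Dir.U := rfl

theorem SWE_y : nthP SWE 89 = ext Dir.U := rfl

/-- the pairs at the exit -/
def kWEU_0 : List Mo := [⟨89, 1⟩]

theorem cWEU_0 : CU WWE SWE kWEU_0 kWEU_0 := .nil

/-- items -/
def gWEU_1 : List WU :=
  [⟨72, 1, 41, 55, 0, (.cons 210 231 (.exit 0) (.cons 210 231 (.cons 229 250 .nil .nil) .nil)), [73], []⟩,
   ⟨73, 1, 42, 56, 0, (.cons 210 230 (.exit 0) (.cons 210 229 (.cons 168 190 .nil .nil) .nil)), [74], []⟩,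
   ⟨74, 1, 42, 57, 0, (.cons 210 229 (.cons 229 248 .nil .nil) (.cons 210 229 (.exit 0) (.cons 167 188 (.cons 210 229 (.cons 229 248 .nil .nil) .nil) .nil))), [75], []⟩,
   ⟨75, 1, 41, 58, 0, (.cons 210 230 (.exit 0) (.cons 148 169 (.cons 210 229 .nil .nil) (.cons 210 229 .nil .nil))), [76], []⟩,
   ⟨76, 1, 41, 59, 0, (.cons 210 229 (.cons 229 250 .nil .nil) (.cons 210 229 (.exit 0) (.cons 210 229 (.cons 229 250 .nil .nil) (.cons 191 169 (.cons 210 191 .nil (.cons 148 169 .nil .nil)) .nil)))), [77], []⟩,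
   ⟨77, 1, 40, 60, 0, (.cons 210 230 (.exit 0) (.cons 210 231 .nil .nil)), [78], []⟩,
   ⟨78, 1, 40, 61, 0, (.cons 173 192 (.cons 210 231 (.cons 229 250 .nil .nil) .nil) (.cons 210 231 (.exit 0) .nil)), [79], []⟩,
   ⟨79, 1, 41, 62, 0, (.cons 152 171 (.cons 208 229 .nil .nil) (.cons 210 230 (.exit 0) (.cons 210 229 (.cons 209 250 .nil .nil) .nil))), [80], []⟩,
   ⟨80, 1, 41, 63, 0, (.cons 189 171 (.cons 152 171 .nil (.cons 210 189 .nil .nil)) (.cons 210 229 (.cons 289 250 .nil .nil) (.cons 210 229 (.exit 0) (.cons 208 188 (.cons 189 171 .nil (.cons 210 229 (.cons 289 250 .nil .nil) .nil)) .nil)))), [81], []⟩,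
   ⟨81, 1, 40, 64, 0, (.cons 210 230 (.exit 0) (.cons 189 169 (.cons 270 231 .nil .nil) (.cons 210 231 (.cons 212 233 .nil (.cons 211 233 .nil .nil)) .nil))), [82], []⟩,
   ⟨82, 1, 40, 65, 0, (.cons 193 192 (.cons 210 231 (.cons 249 250 .nil .nil) (.cons 191 169 .nil .nil)) (.cons 210 231 (.exit 0) (.cons 210 231 (.cons 249 250 .nil .nil) (.cons 191 169 (.cons 193 192 .nil (.cons 148 169 .nil .nil)) .nil)))), [83], []⟩,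
   ⟨83, 1, 41, 66, 0, (.cons 172 171 (.cons 228 229 .nil .nil) (.cons 210 230 (.exit 0) (.cons 210 229 (.cons 209 250 .nil .nil) .nil))), [84], []⟩,
   ⟨84, 1, 41, 67, 0, (.cons 210 229 (.exit 0) (.cons 208 188 (.cons 210 229 (.cons 209 250 .nil .nil) .nil) .nil)), [85], []⟩,
   ⟨85, 1, 40, 68, 0, (.cons 210 230 (.exit 0) (.cons 189 169 (.cons 190 231 .nil .nil) (.cons 210 231 (.cons 212 233 .nil (.cons 211 233 .nil .nil)) .nil))), [86], []⟩,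
   ⟨86, 1, 40, 69, 0, (.cons 170 192 (.cons 169 171 .nil (.cons 191 169 .nil .nil)) (.cons 210 231 (.exit 0) (.cons 210 231 (.cons 249 250 .nil .nil) (.cons 191 169 (.cons 170 192 .nil (.cons 168 169 .nil .nil)) .nil)))), [87], []⟩,
   ⟨87, 1, 41, 70, 0, (.cons 149 171 (.cons 228 229 .nil .nil) (.cons 210 230 (.exit 0) (.cons 210 229 (.cons 209 250 .nil .nil) .nil))), [88], []⟩,
   ⟨88, 1, 41, 71, 0, (.cons 210 229 (.exit 0) (.cons 208 188 (.cons 210 229 (.cons 209 250 .nil .nil) .nil) .nil)), [89], []⟩]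

theorem oWEU_1 : grpWU WWE SWE kWEU_0 gWEU_1 = true := by decide +kernel

theorem wWEU_1 : wpU WWE gWEU_1 = true := by decide +kernel

/-- the pairs proved -/
def kWEU_1 : List Mo := keysWU gWEU_1 kWEU_0

theorem cWEU_1 : CU WWE SWE kWEU_0 kWEU_1 := .grp cWEU_0 gWEU_1 oWEU_1 wWEU_1

/-- items -/
def gWEU_2 : List WU :=
  [⟨59, 1, 34, 43, 177, (.cons 130 169 (.cons 151 172 .nil .nil) (.cons 210 230 (.exit 0) (.cons 151 172 (.cons 130 169 .nil (.cons 210 230 (.cons 172 191 .nil .nil) .nil)) .nil))), [60], []⟩,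
   ⟨60, 1, 34, 44, 157, (.cons 210 231 (.exit 0) .nil), [61], []⟩,
   ⟨61, 1, 34, 45, 137, (.cons 211 212 (.exit 0) (.cons 168 189 .nil .nil)), [62], []⟩,
   ⟨62, 1, 36, 45, 137, (.cons 210 231 (.exit 0) .nil), [63], []⟩,
   ⟨63, 1, 37, 46, 117, (.cons 210 230 (.exit 0) (.cons 190 231 (.cons 191 188 (.cons 209 170 .nil .nil) (.cons 209 170 (.cons 170 188 .nil .nil) .nil)) .nil)), [64], []⟩,
   ⟨64, 1, 37, 47, 97, (.cons 189 171 (.cons 210 189 (.cons 189 169 .nil (.cons 189 169 .nil .nil)) (.cons 170 188 (.cons 129 150 .nil .nil) (.cons 210 231 (.cons 231 232 .nil (.cons 231 251 .nil (.cons 231 232 .nil (.cons 231 232 .nil .nil)))) .nil))) (.cons 210 231 (.exit 0) (.cons 170 188 (.cons 189 171 (.cons 129 150 .nil .nil) (.cons 189 150 (.cons 152 171 .nil .nil) .nil)) (.cons 210 231 (.cons 231 251 (.cons 230 212 .nil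 (.cons 208 229 .nil .nil)) (.cons 231 251 .nil (.cons 231 251 .nil (.cons 231 251 .nil .nil)))) .nil)))), [65], []⟩,
   ⟨65, 1, 38, 48, 77, (.cons 210 230 (.exit 0) (.cons 149 188 (.cons 209 231 .nil .nil) (.cons 210 231 (.cons 192 213 .nil (.cons 149 190 .nil .nil)) .nil))), [66], []⟩,
   ⟨66, 1, 38, 49, 57, (.cons 210 231 (.cons 230 252 .nil .nil) (.cons 210 231 (.exit 0) (.cons 210 231 (.cons 230 252 .nil .nil) .nil))), [67], []⟩,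
   ⟨67, 1, 39, 50, 0, (.cons 210 230 (.exit 0) (.cons 210 231 (.cons 250 272 .nil (.cons 192 213 .nil .nil)) .nil)), [68], []⟩,
   ⟨68, 1, 39, 51, 0, (.cons 210 231 (.cons 230 252 .nil .nil) (.cons 210 231 (.exit 0) (.cons 210 231 (.cons 230 252 .nil .nil) .nil))), [69], []⟩,
   ⟨69, 1, 40, 52, 0, (.cons 210 230 (.exit 0) (.cons 210 230 (.cons 230 251 (.cons 250 272 .nil .nil) (.cons 230 251 (.cons 250 272 .nil .nil) .nil)) .nil)), [70], []⟩,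
   ⟨70, 1, 40, 53, 0, (.cons 210 231 (.exit 0) (.cons 210 231 (.cons 230 252 .nil .nil) .nil)), [71], []⟩,
   ⟨71, 1, 41, 54, 0, (.cons 210 230 (.exit 0) (.cons 210 230 (.cons 230 251 (.cons 249 270 .nil .nil) (.cons 230 251 (.cons 249 270 .nil .nil) .nil)) .nil)), [72], []⟩]

theorem oWEU_2 : grpWU WWE SWE kWEU_1 gWEU_2 = true := by decide +kernel

theorem wWEU_2 : wpU WWE gWEU_2 = true := by decide +kernel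

/-- the pairs proved -/
def kWEU_2 : List Mo := keysWU gWEU_2 kWEU_1

theorem cWEU_2 : CU WWE SWE kWEU_0 kWEU_2 := .grp cWEU_1 gWEU_2 oWEU_2 wWEU_2

/-- items -/
def gWEU_3 : List WU :=
  [⟨47, 0, 27, 45, 0, (.cons 210 191 (.exit 0) (.cons 210 191 .nil .nil)), [48], []⟩,
   ⟨48, 0, 28, 44, 0, (.cons 210 211 (.exit 0) .nil), [49], []⟩,
   ⟨49, 0, 29, 44, 157, (.cons 210 191 .nil (.cons 210 191 (.exit 0) (.cons 210 191 .nil .nil))), [], [50]⟩,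
   ⟨50, 0, 30, 43, 177, (.cons 210 190 (.exit 0) .nil), [], [51]⟩,
   ⟨51, 0, 30, 42, 197, (.cons 210 191 (.exit 0) (.cons 210 191 (.cons 191 171 (.cons 171 152 (.cons 193 173 .nil .nil) (.cons 173 192 (.cons 171 152 .nil (.cons 172 190 (.cons 171 152 .nil .nil) .nil)) (.cons 172 190 (.cons 171 172 (.cons 172 191 .nil .nil) (.cons 171 172 .nil .nil)) .nil))) .nil) .nil)), [], [52]⟩,
   ⟨52, 0, 30, 41, 217, (.cons 211 191 (.exit 0) .nil), [], [53]⟩,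
   ⟨53, 0, 30, 40, 237, (.cons 211 192 (.cons 233 213 .nil .nil) (.cons 211 192 (.exit 0) (.cons 233 232 (.cons 211 192 (.cons 173 213 .nil .nil) (.cons 211 192 (.cons 232 231 (.cons 192 213 .nil .nil) (.cons 173 213 (.cons 192 173 .nil .nil) .nil)) (.cons 212 230 (.cons 211 212 (.cons 212 231 .nil .nil) (.cons 211 212 .nil .nil)) .nil))) (.cons 212 230 (.cons 211 212 (.cons 212 231 .nil .nil) (.cons 211 212 .nil (.cons 211 212 .nil .nil))) .nil)))), [], [54]⟩,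
   ⟨54, 0, 32, 39, 257, (.cons 210 211 (.exit 0) (.cons 191 231 (.cons 210 191 .nil .nil) .nil)), [], [55]⟩,
   ⟨55, 0, 33, 39, 257, (.cons 210 231 (.exit 0) (.cons 230 249 (.cons 210 231 (.cons 231 210 .nil .nil) .nil) (.cons 210 231 (.cons 231 210 (.cons 210 209 (.cons 211 250 .nil (.cons 165 187 .nil .nil)) (.cons 230 249 .nil .nil)) (.cons 230 249 (.cons 231 210 .nil .nil) .nil)) .nil))), [], [56]⟩,
   ⟨56, 0, 34, 40, 237, (.cons 210 231 (.exit 0) .nil), [], [57]⟩,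
   ⟨57, 0, 34, 41, 217, (.cons 211 231 (.exit 0) (.cons 211 232 (.cons 232 233 .nil (.cons 232 252 .nil .nil)) (.cons 271 230 (.cons 230 212 (.cons 191 212 .nil .nil) (.cons 211 230 .nil .nil)) (.cons 271 230 (.cons 230 212 (.cons 211 230 .nil (.cons 191 212 (.cons 211 230 .nil .nil) .nil)) (.cons 211 232 (.cons 232 233 .nil (.cons 232 252 .nil .nil)) (.cons 211 230 .nil .nil))) .nil)))), [58], []⟩,
   ⟨58, 1, 34, 42, 197, (.cons 211 230 (.exit 0) (.cons 150 189 (.cons 207 189 (.cons 210 191 .nil (.cons 171 192 .nil .nil)) (.cons 210 191 (.cons 207 189 .nil .nil) (.cons 171 192 (.cons 207 189 .nil .nil) .nil))) (.cons 150 189 (.cons 211 230 (.cons 171 192 .nil .nil) (.cons 207 189 (.cons 210 191 .nil (.cons 171 192 .nil .nil)) (.cons 210 191 (.cons 211 230 .nil (.cons 207 189 .nil .nil)) (.cons 171 192 (.cons 211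 230 .nil (.cons 207 189 .nil .nil)) .nil)))) (.cons 210 191 (.cons 191 170 (.cons 150 189 .nil .nil) (.cons 150 189 (.cons 207 189 .nil .nil) (.cons 150 189 (.cons 211 230 .nil (.cons 207 189 .nil .nil)) .nil))) (.cons 171 192 (.cons 211 230 (.cons 150 189 .nil (.cons 230 250 (.cons 192 211 .nil .nil) .nil)) (.cons 150 189 (.cons 207 189 .nil .nil) (.cons 150 189 (.cons 211 230 .nil (.cons 207 189 .nil .nil)) .nil))) .nil))))), [59], []⟩]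

theorem oWEU_3 : grpWU WWE SWE kWEU_2 gWEU_3 = true := by decide +kernel

theorem wWEU_3 : wpU WWE gWEU_3 = true := by decide +kernel

/-- the pairs proved -/
def kWEU_3 : List Mo := keysWU gWEU_3 kWEU_2

theorem cWEU_3 : CU WWE SWE kWEU_0 kWEU_3 := .grp cWEU_2 gWEU_3 oWEU_3 wWEU_3

/-- items -/
def gWEU_4 : List WU :=
  [⟨23, 0, 35, 31, 0, (.cons 210 229 .nil (.cons 210 229 (.exit 0) .nil)), [24], []⟩,
   ⟨24, 0, 34, 32, 0, (.cons 210 230 (.exit 0) .nil), [25], []⟩,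
   ⟨25, 0, 34, 33, 0, (.cons 210 229 .nil (.cons 210 229 (.exit 0) .nil)), [26], []⟩,
   ⟨26, 0, 33, 34, 357, (.cons 210 209 (.exit 0) .nil), [], [27]⟩,
   ⟨27, 0, 32, 34, 357, (.cons 210 229 (.exit 0) .nil), [], [28]⟩,
   ⟨28, 0, 30, 35, 337, (.cons 211 210 (.exit 0) .nil), [], [29]⟩,
   ⟨29, 0, 30, 35, 337, (.cons 210 229 .nil (.cons 210 229 (.exit 0) (.cons 210 229 .nil .nil))), [], [30]⟩,
   ⟨30, 0, 29, 36, 317, (.cons 210 230 (.exit 0) .nil), [], [31]⟩,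
   ⟨31, 0, 29, 37, 297, (.cons 173 192 (.cons 209 248 .nil .nil) (.cons 210 229 (.exit 0) (.cons 209 248 (.cons 173 192 .nil (.cons 210 209 (.cons 209 228 (.cons 228 247 .nil .nil) (.cons 209 228 (.cons 228 247 .nil .nil) .nil)) .nil)) .nil))), [], [32]⟩,
   ⟨32, 0, 28, 38, 0, (.cons 173 192 (.cons 210 209 (.cons 209 228 .nil .nil) (.cons 210 209 (.cons 209 228 .nil .nil) (.cons 210 229 .nil .nil))) (.cons 210 209 (.exit 0) (.cons 210 209 (.cons 209 228 .nil .nil) (.cons 210 209 (.cons 209 228 .nil .nil) (.cons 210 229 .nil .nil))))), [33], []⟩,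
   ⟨33, 0, 27, 38, 0, (.cons 210 229 (.exit 0) .nil), [34], []⟩,
   ⟨34, 0, 26, 39, 0, (.cons 210 209 (.exit 0) .nil), [35], []⟩,
   ⟨35, 0, 25, 39, 0, (.cons 210 229 .nil (.cons 210 229 (.exit 0) (.cons 210 229 .nil .nil))), [36], []⟩,
   ⟨36, 0, 24, 40, 0, (.cons 210 209 (.exit 0) .nil), [37], []⟩,
   ⟨37, 0, 23, 40, 0, (.cons 191 232 (.cons 210 211 (.cons 212 233 .nil (.cons 149 170 .nil .nil)) .nil) (.cons 210 229 (.exit 0) .nil)), [38], []⟩,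
   ⟨38, 0, 22, 41, 0, (.cons 210 230 (.exit 0) (.cons 210 230 (.cons 230 249 .nil (.cons 230 249 .nil .nil)) (.cons 210 230 (.cons 230 249 .nil (.cons 230 249 .nil .nil)) (.cons 210 230 (.cons 230 249 .nil (.cons 230 249 .nil .nil)) .nil)))), [39], []⟩,
   ⟨39, 0, 22, 42, 0, (.cons 173 192 .nil (.cons 210 229 (.exit 0) .nil)), [40], []⟩,
   ⟨40, 0, 21, 43, 0, (.cons 231 192 .nil (.cons 210 230 (.exit 0) .nil)), [41], []⟩,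
   ⟨41, 0, 21, 44, 0, (.cons 173 192 (.cons 210 231 .nil .nil) (.cons 210 231 (.exit 0) .nil)), [42], []⟩,
   ⟨42, 0, 22, 45, 0, (.cons 152 171 .nil (.cons 210 211 (.exit 0) .nil)), [43], []⟩,
   ⟨43, 0, 23, 45, 0, (.cons 130 171 .nil (.cons 210 231 (.exit 0) .nil)), [44], []⟩,
   ⟨44, 0, 24, 46, 0, (.cons 210 211 (.exit 0) .nil), [45], []⟩,
   ⟨45, 0, 25, 46, 0, (.cons 210 191 (.exit 0) (.cons 210 191 .nil .nil)), [46], []⟩,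
   ⟨46, 0, 26, 45, 0, (.cons 210 211 (.exit 0) .nil), [47], []⟩]

theorem oWEU_4 : grpWU WWE SWE kWEU_3 gWEU_4 = true := by decide +kernel

theorem wWEU_4 : wpU WWE gWEU_4 = true := by decide +kernel

/-- the pairs proved -/
def kWEU_4 : List Mo := keysWU gWEU_4 kWEU_3

theorem cWEU_4 : CU WWE SWE kWEU_0 kWEU_4 := .grp cWEU_3 gWEU_4 oWEU_4 wWEU_4

/-- items -/
def gWEU_5 : List WU :=
  [⟨6, 0, 41, 14, 0, (.cons 149 171 (.cons 210 229 .nil .nil) (.cons 210 230 (.exit 0) (.cons 210 229 .nil .nil))), [7], []⟩,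
   ⟨7, 0, 41, 15, 0, (.cons 210 229 (.exit 0) (.cons 208 188 (.cons 210 229 (.cons 209 250 .nil .nil) .nil) .nil)), [8], []⟩,
   ⟨8, 0, 40, 16, 0, (.cons 210 230 (.exit 0) (.cons 189 169 (.cons 210 231 .nil .nil) (.cons 210 231 .nil .nil))), [9], []⟩,
   ⟨9, 0, 40, 17, 0, (.cons 170 192 (.cons 169 171 .nil (.cons 191 169 .nil .nil)) (.cons 210 231 (.exit 0) (.cons 210 231 (.cons 229 250 .nil .nil) (.cons 191 169 (.cons 210 191 .nil (.cons 168 169 .nil .nil)) .nil)))), [10], []⟩,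
   ⟨10, 0, 41, 18, 0, (.cons 149 171 (.cons 210 229 .nil .nil) (.cons 210 230 (.exit 0) (.cons 210 229 .nil .nil))), [11], []⟩,
   ⟨11, 0, 41, 19, 0, (.cons 189 171 (.cons 152 171 .nil (.cons 210 189 .nil .nil)) (.cons 210 229 (.cons 230 248 .nil .nil) (.cons 210 229 (.exit 0) (.cons 208 188 (.cons 189 171 .nil (.cons 210 229 (.cons 230 248 .nil .nil) .nil)) .nil)))), [12], []⟩,
   ⟨12, 0, 40, 20, 0, (.cons 210 230 (.exit 0) (.cons 189 169 (.cons 211 229 .nil .nil) (.cons 210 229 (.cons 186 207 .nil (.cons 250 268 .nil .nil)) .nil))), [13], []⟩,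
   ⟨13, 0, 40, 21, 0, (.cons 210 229 (.cons 230 248 .nil .nil) (.cons 210 229 (.exit 0) (.cons 210 229 (.cons 230 248 .nil .nil) (.cons 191 169 (.cons 210 191 .nil (.cons 148 169 .nil .nil)) .nil)))), [14], []⟩,
   ⟨14, 0, 39, 22, 0, (.cons 210 230 (.exit 0) (.cons 210 230 (.cons 230 249 (.cons 250 268 .nil .nil) (.cons 230 249 (.cons 250 268 .nil .nil) .nil)) .nil)), [15], []⟩,
   ⟨15, 0, 39, 23, 0, (.cons 210 229 (.cons 230 248 .nil .nil) (.cons 210 229 (.exit 0) .nil)), [16], []⟩,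
   ⟨16, 0, 38, 24, 0, (.cons 210 230 (.exit 0) (.cons 210 230 (.cons 230 249 (.cons 250 268 .nil .nil) (.cons 230 249 (.cons 250 268 .nil .nil) .nil)) .nil)), [17], []⟩,
   ⟨17, 0, 38, 25, 0, (.cons 210 229 (.cons 230 248 .nil .nil) (.cons 210 229 (.exit 0) .nil)), [18], []⟩,
   ⟨18, 0, 37, 26, 0, (.cons 210 230 (.exit 0) (.cons 210 229 (.cons 172 190 .nil (.cons 186 207 .nil .nil)) .nil)), [19], []⟩,
   ⟨19, 0, 37, 27, 0, (.cons 210 229 (.cons 230 248 .nil .nil) (.cons 210 229 (.exit 0) (.cons 210 229 (.cons 230 248 .nil .nil) .nil))), [20], []⟩,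
   ⟨20, 0, 36, 28, 0, (.cons 210 230 (.exit 0) (.cons 210 229 (.cons 186 207 .nil (.cons 250 268 .nil .nil)) .nil)), [21], []⟩,
   ⟨21, 0, 36, 29, 0, (.cons 210 229 (.cons 230 248 .nil .nil) (.cons 210 229 (.exit 0) (.cons 210 229 (.cons 230 248 .nil .nil) .nil))), [22], []⟩,
   ⟨22, 0, 35, 30, 0, (.cons 210 230 (.exit 0) (.cons 210 230 (.cons 230 249 (.cons 286 247 (.cons 249 228 .nil .nil) .nil) (.cons 230 249 .nil .nil)) .nil)), [23], []⟩]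

theorem oWEU_5 : grpWU WWE SWE kWEU_4 gWEU_5 = true := by decide +kernel

theorem wWEU_5 : wpU WWE gWEU_5 = true := by decide +kernel

/-- the pairs proved -/
def kWEU_5 : List Mo := keysWU gWEU_5 kWEU_4

theorem cWEU_5 : CU WWE SWE kWEU_0 kWEU_5 := .grp cWEU_4 gWEU_5 oWEU_5 wWEU_5

/-- items -/
def gWEU_6 : List WU :=
  [⟨0, 0, 40, 8, 0, (.cons 210 230 (.exit 0) (.cons 189 169 (.cons 190 231 .nil .nil) (.cons 210 231 (.cons 212 233 .nil (.cons 211 233 .nil .nil)) .nil))), [1], []⟩,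
   ⟨1, 0, 40, 9, 0, (.cons 170 192 (.cons 169 171 .nil (.cons 191 169 .nil .nil)) (.cons 210 231 (.exit 0) (.cons 210 231 (.cons 249 250 .nil .nil) (.cons 191 169 (.cons 170 192 .nil (.cons 168 169 .nil .nil)) .nil)))), [2], []⟩,
   ⟨2, 0, 41, 10, 0, (.cons 149 171 (.cons 228 229 .nil .nil) (.cons 210 230 (.exit 0) (.cons 210 229 (.cons 209 250 .nil .nil) .nil))), [3], []⟩,
   ⟨3, 0, 41, 11, 0, (.cons 210 229 (.exit 0) (.cons 208 188 (.cons 210 229 (.cons 209 250 .nil .nil) .nil) .nil)), [4], []⟩,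
   ⟨4, 0, 40, 12, 0, (.cons 210 230 (.exit 0) (.cons 189 169 (.cons 190 231 .nil .nil) (.cons 210 231 (.cons 212 233 .nil (.cons 211 233 .nil .nil)) .nil))), [5], []⟩,
   ⟨5, 0, 40, 13, 0, (.cons 170 192 (.cons 169 171 .nil (.cons 191 169 .nil .nil)) (.cons 210 231 (.exit 0) (.cons 210 231 (.cons 231 250 .nil .nil) (.cons 191 169 (.cons 170 192 .nil (.cons 168 169 .nil .nil)) .nil)))), [6], []⟩]

theorem oWEU_6 : grpWU WWE SWE kWEU_5 gWEU_6 = true := by decide +kernel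

theorem wWEU_6 : wpU WWE gWEU_6 = true := by decide +kernel

/-- the pairs proved -/
def kWEU_6 : List Mo := keysWU gWEU_6 kWEU_5

theorem cWEU_6 : CU WWE SWE kWEU_0 kWEU_6 := .grp cWEU_5 gWEU_6 oWEU_6 wWEU_6

/-- the pairs at the exit -/
def kWEL_0 : List Mo := [⟨89, 1⟩]

theorem cWEL_0 : CL WWE SWE kWEL_0 kWEL_0 := .nil

/-- items -/
def gWEL_1 : List WL :=
  [⟨64, 1, 37, 47, 97, 0, 147, 169, 169, 231, 65, 0, 0⟩,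
   ⟨65, 1, 38, 48, 77, 0, 147, 169, 169, 230, 66, 0, 0⟩,
   ⟨66, 1, 38, 49, 57, 0, 128, 169, 169, 231, 67, 0, 0⟩,
   ⟨67, 1, 39, 50, 0, 0, 128, 169, 169, 230, 68, 0, 0⟩,
   ⟨68, 1, 39, 51, 0, 0, 128, 169, 169, 231, 69, 0, 0⟩,
   ⟨69, 1, 40, 52, 0, 0, 128, 169, 169, 230, 70, 0, 0⟩,
   ⟨70, 1, 40, 53, 0, 0, 128, 169, 169, 231, 71, 0, 0⟩,
   ⟨71, 1, 41, 54, 0, 0, 128, 169, 169, 230, 72, 0, 0⟩,
   ⟨72, 1, 41, 55, 0, 0, 128, 169, 169, 231, 73, 0, 0⟩,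
   ⟨73, 1, 42, 56, 0, 0, 128, 169, 169, 230, 74, 0, 0⟩,
   ⟨74, 1, 42, 57, 0, 0, 128, 169, 169, 229, 75, 0, 0⟩,
   ⟨75, 1, 41, 58, 0, 0, 130, 171, 171, 230, 76, 0, 0⟩,
   ⟨76, 1, 41, 59, 0, 0, 130, 171, 171, 229, 77, 0, 0⟩,
   ⟨77, 1, 40, 60, 0, 0, 132, 171, 171, 230, 78, 0, 0⟩,
   ⟨78, 1, 40, 61, 0, 0, 132, 171, 171, 231, 79, 0, 0⟩,
   ⟨79, 1, 41, 62, 0, 0, 130, 169, 169, 230, 80, 0, 0⟩,
   ⟨80, 1, 41, 63, 0, 0, 130, 169, 169, 229, 81, 0, 0⟩,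
   ⟨81, 1, 40, 64, 0, 0, 130, 171, 171, 230, 82, 0, 0⟩,
   ⟨82, 1, 40, 65, 0, 0, 130, 171, 171, 231, 83, 0, 0⟩,
   ⟨83, 1, 41, 66, 0, 0, 130, 169, 169, 230, 84, 0, 0⟩,
   ⟨84, 1, 41, 67, 0, 0, 130, 169, 169, 229, 85, 0, 0⟩,
   ⟨85, 1, 40, 68, 0, 0, 130, 171, 171, 230, 86, 0, 0⟩,
   ⟨86, 1, 40, 69, 0, 0, 130, 171, 171, 231, 87, 0, 0⟩,
   ⟨87, 1, 41, 70, 0, 0, 130, 169, 169, 230, 88, 0, 0⟩,
   ⟨88, 1, 41, 71, 0, 0, 130, 169, 169, 229, 89, 0, 0⟩]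

theorem oWEL_1 : grpWL WWE SWE kWEL_0 gWEL_1 = true := by decide +kernel

theorem wWEL_1 : wpL WWE gWEL_1 = true := by decide +kernel

/-- the pairs proved -/
def kWEL_1 : List Mo := keysWL gWEL_1 kWEL_0

theorem cWEL_1 : CL WWE SWE kWEL_0 kWEL_1 := .grp cWEL_0 gWEL_1 oWEL_1 wWEL_1

/-- items -/
def gWEL_2 : List WL :=
  [⟨39, 0, 22, 42, 0, 0, 153, 171, 171, 229, 40, 0, 0⟩,
   ⟨40, 0, 21, 43, 0, 0, 153, 171, 171, 230, 41, 0, 0⟩,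
   ⟨41, 0, 21, 44, 0, 0, 132, 171, 171, 231, 42, 0, 0⟩,
   ⟨42, 0, 22, 45, 0, 0, 130, 169, 169, 211, 43, 0, 0⟩,
   ⟨43, 0, 23, 45, 0, 0, 149, 188, 188, 231, 44, 0, 0⟩,
   ⟨44, 0, 24, 46, 0, 0, 147, 188, 188, 211, 45, 0, 0⟩,
   ⟨45, 0, 25, 46, 0, 0, 166, 188, 188, 191, 46, 0, 0⟩,
   ⟨46, 0, 26, 45, 0, 0, 206, 228, 228, 211, 47, 0, 0⟩,
   ⟨47, 0, 27, 45, 0, 0, 206, 228, 228, 191, 48, 0, 0⟩,
   ⟨48, 0, 28, 44, 0, 0, 246, 228, 228, 211, 49, 0, 0⟩,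
   ⟨49, 0, 29, 44, 157, 0, 246, 228, 228, 191, 50, 0, 0⟩,
   ⟨50, 0, 30, 43, 177, 0, 246, 228, 228, 190, 51, 0, 0⟩,
   ⟨51, 0, 30, 42, 197, 0, 267, 249, 249, 191, 52, 0, 0⟩,
   ⟨52, 0, 30, 41, 217, 0, 268, 250, 250, 191, 53, 0, 0⟩,
   ⟨53, 0, 30, 40, 237, 0, 289, 250, 250, 192, 54, 0, 0⟩,
   ⟨54, 0, 32, 39, 257, 0, 288, 249, 249, 211, 55, 0, 0⟩,
   ⟨55, 0, 33, 39, 257, 0, 267, 228, 228, 231, 56, 0, 0⟩,
   ⟨56, 0, 34, 40, 237, 0, 227, 188, 188, 231, 57, 0, 0⟩,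
   ⟨57, 0, 34, 41, 217, 3, 0, 0, 0, 231, 58, 0, 0⟩,
   ⟨58, 1, 34, 42, 197, 0, 148, 170, 170, 230, 59, 0, 0⟩,
   ⟨59, 1, 34, 43, 177, 0, 147, 188, 188, 230, 60, 0, 0⟩,
   ⟨60, 1, 34, 44, 157, 0, 130, 171, 171, 231, 61, 0, 0⟩,
   ⟨61, 1, 34, 45, 137, 0, 148, 170, 170, 212, 62, 0, 0⟩,
   ⟨62, 1, 36, 45, 137, 0, 149, 188, 188, 231, 63, 0, 0⟩,
   ⟨63, 1, 37, 46, 117, 0, 147, 188, 188, 230, 64, 0, 0⟩]

theorem oWEL_2 : grpWL WWE SWE kWEL_1 gWEL_2 = true := by decide +kernel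

theorem wWEL_2 : wpL WWE gWEL_2 = true := by decide +kernel

/-- the pairs proved -/
def kWEL_2 : List Mo := keysWL gWEL_2 kWEL_1

theorem cWEL_2 : CL WWE SWE kWEL_0 kWEL_2 := .grp cWEL_1 gWEL_2 oWEL_2 wWEL_2

/-- items -/
def gWEL_3 : List WL :=
  [⟨14, 0, 39, 22, 0, 0, 132, 171, 171, 230, 15, 0, 0⟩,
   ⟨15, 0, 39, 23, 0, 0, 132, 171, 171, 229, 16, 0, 0⟩,
   ⟨16, 0, 38, 24, 0, 0, 132, 171, 171, 230, 17, 0, 0⟩,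
   ⟨17, 0, 38, 25, 0, 0, 132, 171, 171, 229, 18, 0, 0⟩,
   ⟨18, 0, 37, 26, 0, 0, 132, 171, 171, 230, 19, 0, 0⟩,
   ⟨19, 0, 37, 27, 0, 0, 132, 171, 171, 229, 20, 0, 0⟩,
   ⟨20, 0, 36, 28, 0, 0, 132, 171, 171, 230, 21, 0, 0⟩,
   ⟨21, 0, 36, 29, 0, 0, 132, 171, 171, 229, 22, 0, 0⟩,
   ⟨22, 0, 35, 30, 0, 0, 132, 171, 171, 230, 23, 0, 0⟩,
   ⟨23, 0, 35, 31, 0, 0, 132, 171, 171, 229, 24, 0, 0⟩,
   ⟨24, 0, 34, 32, 0, 0, 132, 171, 171, 230, 25, 0, 0⟩,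
   ⟨25, 0, 34, 33, 0, 0, 132, 171, 171, 229, 26, 0, 0⟩,
   ⟨26, 0, 33, 34, 357, 0, 132, 171, 171, 209, 27, 0, 0⟩,
   ⟨27, 0, 32, 34, 357, 0, 153, 192, 192, 229, 28, 0, 0⟩,
   ⟨28, 0, 30, 35, 337, 0, 154, 193, 193, 210, 29, 0, 0⟩,
   ⟨29, 0, 30, 35, 337, 0, 174, 192, 192, 229, 30, 0, 0⟩,
   ⟨30, 0, 29, 36, 317, 0, 174, 192, 192, 230, 31, 0, 0⟩,
   ⟨31, 0, 29, 37, 297, 0, 153, 171, 171, 229, 32, 0, 0⟩,
   ⟨32, 0, 28, 38, 0, 0, 153, 171, 171, 209, 33, 0, 0⟩,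
   ⟨33, 0, 27, 38, 0, 0, 153, 192, 192, 229, 34, 0, 0⟩,
   ⟨34, 0, 26, 39, 0, 0, 153, 192, 192, 209, 35, 0, 0⟩,
   ⟨35, 0, 25, 39, 0, 0, 174, 192, 192, 229, 36, 0, 0⟩,
   ⟨36, 0, 24, 40, 0, 0, 174, 192, 192, 209, 37, 0, 0⟩,
   ⟨37, 0, 23, 40, 0, 0, 174, 192, 192, 229, 38, 0, 0⟩,
   ⟨38, 0, 22, 41, 0, 0, 174, 192, 192, 230, 39, 0, 0⟩]

theorem oWEL_3 : grpWL WWE SWE kWEL_2 gWEL_3 = true := by decide +kernel

theorem wWEL_3 : wpL WWE gWEL_3 = true := by decide +kernel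

/-- the pairs proved -/
def kWEL_3 : List Mo := keysWL gWEL_3 kWEL_2

theorem cWEL_3 : CL WWE SWE kWEL_0 kWEL_3 := .grp cWEL_2 gWEL_3 oWEL_3 wWEL_3

/-- items -/
def gWEL_4 : List WL :=
  [⟨1, 0, 40, 9, 0, 0, 130, 171, 171, 231, 2, 0, 0⟩,
   ⟨2, 0, 41, 10, 0, 0, 130, 169, 169, 230, 3, 0, 0⟩,
   ⟨3, 0, 41, 11, 0, 0, 130, 169, 169, 229, 4, 0, 0⟩,
   ⟨4, 0, 40, 12, 0, 0, 130, 171, 171, 230, 5, 0, 0⟩,
   ⟨5, 0, 40, 13, 0, 0, 130, 171, 171, 231, 6, 0, 0⟩,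
   ⟨6, 0, 41, 14, 0, 0, 130, 169, 169, 230, 7, 0, 0⟩,
   ⟨7, 0, 41, 15, 0, 0, 130, 169, 169, 229, 8, 0, 0⟩,
   ⟨8, 0, 40, 16, 0, 0, 130, 171, 171, 230, 9, 0, 0⟩,
   ⟨9, 0, 40, 17, 0, 0, 130, 171, 171, 231, 10, 0, 0⟩,
   ⟨10, 0, 41, 18, 0, 0, 130, 169, 169, 230, 11, 0, 0⟩,
   ⟨11, 0, 41, 19, 0, 0, 130, 169, 169, 229, 12, 0, 0⟩,
   ⟨12, 0, 40, 20, 0, 0, 130, 171, 171, 230, 13, 0, 0⟩,
   ⟨13, 0, 40, 21, 0, 0, 130, 171, 171, 229, 14, 0, 0⟩]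

theorem oWEL_4 : grpWL WWE SWE kWEL_3 gWEL_4 = true := by decide +kernel

theorem wWEL_4 : wpL WWE gWEL_4 = true := by decide +kernel

/-- the pairs proved -/
def kWEL_4 : List Mo := keysWL gWEL_4 kWEL_3

theorem cWEL_4 : CL WWE SWE kWEL_0 kWEL_4 := .grp cWEL_3 gWEL_4 oWEL_4 wWEL_4

/-- the first item of the lower bound -/
def uWE : WL := ⟨0, 0, 40, 8, 0, 0, 130, 171, 171, 230, 1, 0, 0⟩

/-- **The certificate of the window.** -/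
theorem WWE_cert : WinC WWE SWE 0 89 :=
  ⟨WWE_ok, ⟨kWEU_6, cWEU_6, by decide +kernel⟩,
    ⟨kWEL_4, uWE, cWEL_4, rfl, rfl, rfl, rfl, by decide +kernel⟩⟩

end Pool.Agent.Lib.H32C.Loc
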