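import Pool.Agent.Lib.H32C.ChW
import Pool.Agent.Lib.H32C.TdAr
import Pool.Agent.Lib.H32C.TdBase
import Pool.Agent.Lib.H32C.World

/-!
# Tile data: WN2 (window with a shaft to the north)
-/

set_option autoImplicit false

namespace Pool.Agent.Lib.H32C.Loc

/-- pattern of the upper border of WN2: the shaft between Black pawns -/
def PWN2 : Nat :=
  0x11111111111111111111111111111111909111111111111111111111111111111111111111111111111111111111111190911111111111111111111111111111111111111111111111111111111111119091111111111111111111111111111111111111111111111111111111111111909111111111111111111111111111111111111111111111111111111111111190911111111111111111111111111111111111111111111111111111111111119091111111111111111111111111111111111111111111111111111111111111909111111111111111111111111111111111111111111111111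11111111111119091111111111111111111111111111111111111111111111111111111111111909111111111111111111111111111111111111111111111111111111111111190911111111111111111111111111111111111111111111111111111111111119091111111111111111111111111111111111111111111111111111111111111909111111111111111111111111111111111111111111111111111111111111190911111111111111111111111111111111111111111111111111111111111119091111111111111111111111111111111111111111111111111111111111111909111111111111111111111111111111111111111111111111111111111111190911111111111111111111111111111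

theorem AWN2_L : rowsEq AWN2 0 8 PH 64 = true := by decide +kernel

theorem AWN2_R : rowsEq AWN2 64 8 PF 64 = true := by decide +kernel

theorem AWN2_B : colsEq AWN2 0 PV 16 = true := by decide +kernel

theorem AWN2_T : colsEq AWN2 64 PWN2 16 = true := by decide +kernel

theorem AWN2_C : cornersOk AWN2 = true := by decide +kernel

theorem AWN2_K : noKing AWN2 = true := by decide +kernel

/-- the window -/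
def WWN2 : WT := ⟨80, AWN2, 62, 2838⟩

theorem WWN2_ok : wtOk WWN2 = true := by decide +kernel

/-- the states -/
def SWN2 : List (List Pc) :=
  [[⟨40, 8, 6⟩, ⟨40, 4, 10⟩, ⟨40, 5, 10⟩],
   [⟨40, 9, 6⟩, ⟨41, 6, 10⟩, ⟨40, 5, 10⟩],
   [⟨41, 10, 6⟩, ⟨41, 7, 10⟩, ⟨41, 6, 10⟩],
   [⟨41, 11, 6⟩, ⟨40, 8, 10⟩, ⟨41, 7, 10⟩],
   [⟨40, 12, 6⟩, ⟨40, 9, 10⟩, ⟨40, 8, 10⟩],
   [⟨40, 13, 6⟩, ⟨41, 10, 10⟩, ⟨40, 9, 10⟩],
   [⟨41, 14, 6⟩, ⟨41, 11, 10⟩, ⟨41, 10, 10⟩],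
   [⟨41, 15, 6⟩, ⟨40, 12, 10⟩, ⟨41, 11, 10⟩],
   [⟨40, 16, 6⟩, ⟨40, 13, 10⟩, ⟨40, 12, 10⟩],
   [⟨40, 17, 6⟩, ⟨41, 14, 10⟩, ⟨40, 13, 10⟩],
   [⟨41, 18, 6⟩, ⟨41, 15, 10⟩, ⟨41, 14, 10⟩],
   [⟨41, 19, 6⟩, ⟨40, 16, 10⟩, ⟨41, 15, 10⟩],
   [⟨40, 20, 6⟩, ⟨40, 17, 10⟩, ⟨40, 16, 10⟩],
   [⟨40, 21, 6⟩, ⟨41, 18, 10⟩, ⟨40, 17, 10⟩],
   [⟨41, 22, 6⟩, ⟨41, 19, 10⟩, ⟨41, 18, 10⟩],
   [⟨41, 23, 6⟩, ⟨40, 20, 10⟩, ⟨41, 19, 10⟩],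
   [⟨40, 24, 6⟩, ⟨40, 21, 10⟩, ⟨40, 20, 10⟩],
   [⟨39, 24, 6⟩, ⟨41, 22, 10⟩, ⟨40, 21, 10⟩],
   [⟨38, 25, 6⟩, ⟨41, 23, 10⟩, ⟨41, 22, 10⟩],
   [⟨37, 25, 6⟩, ⟨40, 24, 10⟩, ⟨41, 23, 10⟩],
   [⟨36, 26, 6⟩, ⟨39, 24, 10⟩, ⟨40, 24, 10⟩],
   [⟨35, 26, 6⟩, ⟨38, 25, 10⟩, ⟨39, 24, 10⟩],
   [⟨34, 25, 6⟩, ⟨37, 25, 10⟩, ⟨38, 25, 10⟩],
   [⟨33, 25, 6⟩, ⟨36, 26, 10⟩, ⟨37, 25, 10⟩],
   [⟨32, 26, 6⟩, ⟨35, 26, 10⟩, ⟨36, 26, 10⟩],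
   [⟨32, 27, 6⟩, ⟨34, 25, 10⟩, ⟨35, 26, 10⟩],
   [⟨31, 28, 6⟩, ⟨33, 25, 10⟩, ⟨34, 25, 10⟩],
   [⟨31, 29, 6⟩, ⟨32, 26, 10⟩, ⟨33, 25, 10⟩],
   [⟨32, 30, 6⟩, ⟨32, 27, 10⟩, ⟨32, 26, 10⟩],
   [⟨33, 30, 6⟩, ⟨31, 28, 10⟩, ⟨32, 27, 10⟩],
   [⟨34, 31, 6⟩, ⟨31, 29, 10⟩, ⟨31, 28, 10⟩],
   [⟨35, 31, 6⟩, ⟨32, 30, 10⟩, ⟨31, 29, 10⟩],
   [⟨36, 30, 6⟩, ⟨33, 30, 10⟩, ⟨32, 30, 10⟩],
   [⟨37, 30, 6⟩, ⟨34, 31, 10⟩, ⟨33, 30, 10⟩],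
   [⟨38, 31, 6⟩, ⟨35, 31, 10⟩, ⟨34, 31, 10⟩],
   [⟨39, 31, 6⟩, ⟨36, 30, 10⟩, ⟨35, 31, 10⟩],
   [⟨40, 32, 6⟩, ⟨37, 30, 10⟩, ⟨36, 30, 10⟩],
   [⟨40, 33, 6⟩, ⟨38, 31, 10⟩, ⟨37, 30, 10⟩],
   [⟨39, 34, 6⟩, ⟨39, 31, 10⟩, ⟨38, 31, 10⟩],
   [⟨38, 35, 6⟩, ⟨40, 32, 10⟩, ⟨39, 31, 10⟩],
   [⟨37, 35, 6⟩, ⟨40, 32, 10⟩, ⟨39, 31, 10⟩],
   [⟨36, 34, 6⟩, ⟨39, 34, 10⟩, ⟨39, 31, 10⟩],
   [⟨35, 34, 6⟩, ⟨39, 34, 10⟩, ⟨37, 32, 10⟩],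
   [⟨34, 35, 6⟩, ⟨37, 35, 10⟩, ⟨37, 32, 10⟩],
   [⟨34, 36, 6⟩, ⟨36, 34, 10⟩, ⟨37, 35, 10⟩],
   [⟨33, 37, 6⟩, ⟨35, 34, 10⟩, ⟨36, 34, 10⟩],
   [⟨32, 37, 6⟩, ⟨34, 35, 10⟩, ⟨35, 34, 10⟩],
   [⟨31, 36, 6⟩, ⟨34, 36, 10⟩, ⟨34, 35, 10⟩],
   [⟨30, 36, 6⟩, ⟨33, 37, 10⟩, ⟨34, 36, 10⟩],
   [⟨29, 37, 6⟩, ⟨32, 37, 10⟩, ⟨33, 37, 10⟩],
   [⟨29, 38, 6⟩, ⟨31, 36, 10⟩, ⟨32, 37, 10⟩],
   [⟨28, 39, 6⟩, ⟨30, 36, 10⟩, ⟨31, 36, 10⟩],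
   [⟨28, 40, 6⟩, ⟨29, 37, 10⟩, ⟨30, 36, 10⟩],
   [⟨27, 41, 6⟩, ⟨29, 38, 10⟩, ⟨29, 37, 10⟩],
   [⟨26, 41, 6⟩, ⟨28, 39, 10⟩, ⟨29, 38, 10⟩],
   [⟨25, 42, 6⟩, ⟨28, 40, 10⟩, ⟨28, 39, 10⟩],
   [⟨24, 42, 6⟩, ⟨27, 41, 10⟩, ⟨28, 40, 10⟩],
   [⟨23, 41, 6⟩, ⟨26, 41, 10⟩, ⟨27, 41, 10⟩],
   [⟨22, 41, 6⟩, ⟨25, 42, 10⟩, ⟨26, 41, 10⟩],
   [⟨21, 40, 6⟩, ⟨24, 42, 10⟩, ⟨25, 42, 10⟩],
   [⟨20, 40, 6⟩, ⟨23, 41, 10⟩, ⟨24, 42, 10⟩],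
   [⟨19, 41, 6⟩, ⟨22, 41, 10⟩, ⟨23, 41, 10⟩],
   [⟨18, 41, 6⟩, ⟨21, 40, 10⟩, ⟨22, 41, 10⟩],
   [⟨17, 40, 6⟩, ⟨20, 40, 10⟩, ⟨21, 40, 10⟩],
   [⟨16, 40, 6⟩, ⟨19, 41, 10⟩, ⟨20, 40, 10⟩],
   [⟨15, 41, 6⟩, ⟨18, 41, 10⟩, ⟨19, 41, 10⟩],
   [⟨14, 41, 6⟩, ⟨17, 40, 10⟩, ⟨18, 41, 10⟩],
   [⟨13, 40, 6⟩, ⟨16, 40, 10⟩, ⟨17, 40, 10⟩],
   [⟨12, 40, 6⟩, ⟨15, 41, 10⟩, ⟨16, 40, 10⟩],
   [⟨11, 41, 6⟩, ⟨14, 41, 10⟩, ⟨15, 41, 10⟩],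
   [⟨10, 41, 6⟩, ⟨13, 40, 10⟩, ⟨14, 41, 10⟩],
   [⟨9, 40, 6⟩, ⟨12, 40, 10⟩, ⟨13, 40, 10⟩],
   [⟨8, 40, 6⟩, ⟨11, 41, 10⟩, ⟨12, 40, 10⟩],
   [⟨7, 41, 6⟩, ⟨10, 41, 10⟩, ⟨11, 41, 10⟩]]

theorem SWN2_x : nthP SWN2 0 = ent Dir.U := rfl

theorem SWN2_y : nthP SWN2 73 = ext Dir.L := rfl

/-- the pairs at the exit -/
def kWN2U_0 : List Mo := [⟨73, 1⟩]

theorem cWN2U_0 : CU WWN2 SWN2 kWN2U_0 kWN2U_0 := .nil

/-- items -/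
def gWN2U_1 : List WU :=
  [⟨45, 1, 33, 37, 355, (.cons 173 192 .nil (.cons 210 209 (.exit 0) .nil)), [46], []⟩,
   ⟨46, 1, 32, 37, 356, (.cons 210 189 (.exit 0) .nil), [47], []⟩,
   ⟨47, 1, 31, 36, 357, (.cons 210 209 (.exit 0) .nil), [48], []⟩,
   ⟨48, 1, 30, 36, 0, (.cons 269 251 (.cons 210 211 (.cons 231 250 .nil .nil) .nil) (.cons 210 229 (.exit 0) .nil)), [49], []⟩,
   ⟨49, 1, 29, 37, 0, (.cons 250 232 (.cons 210 229 .nil .nil) (.cons 210 230 (.exit 0) (.cons 210 229 .nil .nil))), [50], []⟩,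
   ⟨50, 1, 29, 38, 0, (.cons 191 232 .nil (.cons 210 229 (.exit 0) .nil)), [51], []⟩,
   ⟨51, 1, 28, 39, 0, (.cons 173 192 .nil (.cons 210 230 (.exit 0) .nil)), [52], []⟩,
   ⟨52, 1, 28, 40, 0, (.cons 210 229 .nil (.cons 210 229 (.exit 0) .nil)), [53], []⟩,
   ⟨53, 1, 27, 41, 0, (.cons 210 209 (.exit 0) .nil), [54], []⟩,
   ⟨54, 1, 26, 41, 0, (.cons 210 229 (.exit 0) .nil), [55], []⟩,
   ⟨55, 1, 25, 42, 0, (.cons 210 209 (.exit 0) .nil), [56], []⟩,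
   ⟨56, 1, 24, 42, 0, (.cons 210 189 .nil (.cons 210 189 (.exit 0) (.cons 152 171 (.cons 210 189 .nil .nil) .nil))), [57], []⟩,
   ⟨57, 1, 23, 41, 0, (.cons 210 209 (.exit 0) (.cons 173 192 .nil .nil)), [58], []⟩,
   ⟨58, 1, 22, 41, 0, (.cons 210 189 .nil (.cons 210 189 (.exit 0) .nil)), [59], []⟩,
   ⟨59, 1, 21, 40, 0, (.cons 210 209 (.exit 0) .nil), [60], []⟩,
   ⟨60, 1, 20, 40, 0, (.cons 212 251 (.cons 210 229 .nil .nil) (.cons 210 229 (.exit 0) .nil)), [61], []⟩,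
   ⟨61, 1, 19, 41, 0, (.cons 193 232 .nil (.cons 210 209 (.exit 0) .nil)), [62], []⟩,
   ⟨62, 1, 18, 41, 0, (.cons 213 232 (.cons 210 189 .nil .nil) (.cons 210 189 .nil (.cons 210 189 (.exit 0) .nil))), [63], []⟩,
   ⟨63, 1, 17, 40, 0, (.cons 210 209 (.exit 0) .nil), [64], []⟩,
   ⟨64, 1, 16, 40, 0, (.cons 212 251 (.cons 210 229 .nil .nil) (.cons 210 229 (.exit 0) .nil)), [65], []⟩,
   ⟨65, 1, 15, 41, 0, (.cons 193 232 .nil (.cons 210 209 (.exit 0) .nil)), [66], []⟩,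
   ⟨66, 1, 14, 41, 0, (.cons 213 232 (.cons 210 189 .nil .nil) (.cons 210 189 .nil (.cons 210 189 (.exit 0) .nil))), [67], []⟩,
   ⟨67, 1, 13, 40, 0, (.cons 210 209 (.exit 0) .nil), [68], []⟩,
   ⟨68, 1, 12, 40, 0, (.cons 212 251 (.cons 210 229 .nil .nil) (.cons 210 229 (.exit 0) .nil)), [69], []⟩,
   ⟨69, 1, 11, 41, 0, (.cons 193 232 .nil (.cons 210 209 (.exit 0) .nil)), [70], []⟩,
   ⟨70, 1, 10, 41, 0, (.cons 233 232 (.cons 210 189 .nil .nil) (.cons 210 189 .nil (.cons 210 189 (.exit 0) .nil))), [71], []⟩,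
   ⟨71, 1, 9, 40, 0, (.cons 210 209 (.exit 0) .nil), [72], []⟩,
   ⟨72, 1, 8, 40, 0, (.cons 212 251 (.cons 210 229 .nil .nil) (.cons 210 229 (.exit 0) .nil)), [73], []⟩]

theorem oWN2U_1 : grpWU WWN2 SWN2 kWN2U_0 gWN2U_1 = true := by decide +kernel

theorem wWN2U_1 : wpU WWN2 gWN2U_1 = true := by decide +kernel

/-- the pairs proved -/
def kWN2U_1 : List Mo := keysWU gWN2U_1 kWN2U_0

theorem cWN2U_1 : CU WWN2 SWN2 kWN2U_0 kWN2U_1 := .grp cWN2U_0 gWN2U_1 oWN2U_1 wWN2U_1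

/-- items -/
def gWN2U_2 : List WU :=
  [⟨31, 0, 35, 31, 353, (.cons 210 191 (.exit 0) (.cons 210 191 (.cons 189 230 .nil .nil) (.cons 210 191 (.cons 191 192 .nil (.cons 191 192 .nil .nil)) (.cons 210 191 (.cons 191 192 .nil (.cons 191 192 .nil .nil)) (.cons 210 191 (.cons 191 192 (.cons 190 231 .nil .nil) (.cons 191 192 .nil .nil)) .nil))))), [], [32]⟩,
   ⟨32, 0, 36, 30, 352, (.cons 210 211 (.exit 0) (.cons 208 249 (.cons 210 211 (.cons 211 232 (.cons 232 213 (.cons 209 231 (.cons 196 215 .nil .nil) (.cons 196 215 (.cons 209 231 .nil .nil) .nil)) (.cons 209 250 (.cons 232 233 (.cons 250 211 .nil .nil) .nil) (.cons 232 213 (.cons 213 233 (.cons 295 211 .nil .nil) (.cons 196 215 (.cons 209 231 .nil .nil) .nil)) .nil))) (.cons 209 250 (.cons 211 210 (.cons 210 189 .nil .nil) .nil) .nil)) .nil) .nil)), [], [33]⟩,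
   ⟨33, 0, 37, 30, 351, (.cons 210 231 (.exit 0) (.cons 208 249 (.cons 210 231 (.cons 231 232 (.cons 249 210 .nil .nil) .nil) .nil) .nil)), [], [34]⟩,
   ⟨34, 0, 38, 31, 350, (.cons 210 211 (.exit 0) (.cons 187 228 (.cons 210 211 (.cons 228 189 .nil .nil) .nil) (.cons 210 211 (.cons 211 232 (.cons 232 251 .nil .nil) .nil) .nil))), [], [35]⟩,
   ⟨35, 0, 39, 31, 349, (.cons 210 231 (.exit 0) (.cons 210 231 (.cons 229 250 .nil .nil) (.cons 210 231 (.cons 231 251 (.cons 251 270 (.exit 1) .nil) (.cons 231 251 (.cons 251 270 (.cons 271 252 .nil .nil) (.cons 251 270 .nil (.cons 251 270 (.cons 271 252 .nil .nil) .nil))) .nil)) (.cons 210 231 (.cons 231 251 .nil (.cons 231 251 (.cons 251 270 .nil .nil) .nil)) .nil)))), [], [36, 38]⟩,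
   ⟨36, 0, 40, 32, 348, (.cons 210 230 (.exit 0) (.cons 210 230 (.cons 230 249 (.cons 250 231 .nil .nil) (.cons 186 208 (.cons 230 249 .nil .nil) (.cons 230 249 (.cons 186 208 .nil .nil) .nil))) .nil)), [], [37]⟩,
   ⟨37, 0, 40, 32, 348, (.cons 230 249 (.exit 0) (.cons 186 208 .nil .nil)), [], [38]⟩,
   ⟨38, 0, 39, 34, 349, (.cons 211 192 (.cons 192 171 .nil .nil) (.cons 210 229 (.exit 0) .nil)), [], [39]⟩,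
   ⟨39, 0, 38, 35, 350, (.cons 210 209 (.exit 0) (.cons 212 192 (.cons 210 209 (.cons 192 191 (.cons 189 210 .nil (.cons 211 230 .nil .nil)) (.cons 189 210 (.cons 192 191 .nil .nil) (.cons 211 230 (.cons 209 210 .nil .nil) .nil))) .nil) .nil)), [40], []⟩,
   ⟨40, 1, 37, 35, 351, (.cons 210 189 (.exit 0) (.cons 190 211 (.cons 211 192 .nil .nil) (.cons 212 231 (.cons 210 211 (.cons 211 192 .nil .nil) .nil) .nil))), [41], []⟩,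
   ⟨41, 1, 36, 34, 352, (.cons 210 209 (.exit 0) (.cons 128 169 (.cons 210 209 (.cons 209 228 (.cons 169 210 .nil .nil) .nil) (.cons 233 252 (.cons 210 209 (.cons 234 231 .nil .nil) .nil) .nil)) (.cons 210 209 (.cons 209 228 .nil (.cons 209 228 (.cons 228 229 .nil (.cons 228 209 (.cons 209 228 .nil .nil) .nil)) .nil)) .nil))), [42], []⟩,
   ⟨42, 1, 35, 34, 353, (.cons 210 229 (.exit 0) .nil), [43], []⟩,
   ⟨43, 1, 34, 35, 354, (.cons 210 230 (.exit 0) .nil), [44], []⟩,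
   ⟨44, 1, 34, 36, 354, (.cons 191 232 .nil (.cons 210 229 (.exit 0) .nil)), [45], []⟩]

theorem oWN2U_2 : grpWU WWN2 SWN2 kWN2U_1 gWN2U_2 = true := by decide +kernel

theorem wWN2U_2 : wpU WWN2 gWN2U_2 = true := by decide +kernel

/-- the pairs proved -/
def kWN2U_2 : List Mo := keysWU gWN2U_2 kWN2U_1

theorem cWN2U_2 : CU WWN2 SWN2 kWN2U_0 kWN2U_2 := .grp cWN2U_1 gWN2U_2 oWN2U_2 wWN2U_2

/-- items -/
def gWN2U_3 : List WU :=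
  [⟨15, 0, 41, 23, 0, (.cons 152 171 (.cons 210 229 .nil (.cons 166 188 .nil .nil)) (.cons 210 229 .nil (.cons 210 229 (.exit 0) (.cons 166 188 (.cons 210 229 .nil (.cons 210 229 .nil .nil)) .nil)))), [16], []⟩,
   ⟨16, 0, 40, 24, 0, (.cons 210 209 (.exit 0) (.cons 147 169 .nil .nil)), [17], []⟩,
   ⟨17, 0, 39, 24, 0, (.cons 210 229 (.exit 0) (.cons 191 169 .nil .nil)), [18], []⟩,
   ⟨18, 0, 38, 25, 0, (.cons 210 209 (.exit 0) .nil), [19], []⟩,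
   ⟨19, 0, 37, 25, 0, (.cons 210 229 (.cons 230 249 .nil .nil) (.cons 210 229 (.exit 0) (.cons 210 229 (.cons 230 249 .nil .nil) .nil))), [20], []⟩,
   ⟨20, 0, 36, 26, 0, (.cons 210 209 (.exit 0) (.cons 210 209 (.cons 209 188 .nil (.cons 209 188 (.cons 188 187 .nil .nil) (.cons 209 188 (.cons 186 208 .nil .nil) (.cons 209 188 (.cons 207 189 .nil .nil) .nil)))) .nil)), [21], []⟩,
   ⟨21, 0, 35, 26, 0, (.cons 210 189 .nil (.cons 210 189 (.exit 0) (.cons 210 189 (.cons 189 188 (.cons 190 229 .nil .nil) .nil) (.cons 210 189 (.cons 189 188 .nil (.cons 189 188 .nil .nil)) .nil)))), [22], []⟩,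
   ⟨22, 0, 34, 25, 0, (.cons 210 209 (.exit 0) .nil), [23], []⟩,
   ⟨23, 0, 33, 25, 0, (.cons 212 251 (.cons 210 211 (.cons 209 250 .nil .nil) .nil) (.cons 210 229 (.exit 0) .nil)), [24], []⟩,
   ⟨24, 0, 32, 26, 0, (.cons 193 232 (.cons 190 231 (.cons 270 229 .nil .nil) (.cons 270 229 (.cons 211 229 .nil .nil) (.cons 270 229 (.cons 190 231 .nil (.cons 211 229 .nil .nil)) .nil))) (.cons 210 230 (.exit 0) (.cons 210 230 (.cons 230 249 (.cons 292 251 .nil .nil) (.cons 230 249 (.cons 293 252 .nil .nil) .nil)) (.cons 190 229 (.cons 193 232 (.cons 270 229 .nil .nil) (.cons 189 192 (.cons 270 229 .nil .nil) (.cons 210 229 (.cons 169 190 .nil .nil) .nil))) (.cons 210 230 (.cons 230 249 .nil (.cons 230 249 (.cons 249 269 .nil .nil) .nil)) .nil))))), [25], []⟩,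
   ⟨25, 0, 32, 27, 0, (.cons 210 229 (.exit 0) (.cons 210 229 (.cons 229 249 .nil (.cons 229 249 .nil (.cons 229 249 .nil .nil))) .nil)), [26], []⟩,
   ⟨26, 0, 31, 28, 0, (.cons 151 192 .nil (.cons 210 230 (.exit 0) .nil)), [27], []⟩,
   ⟨27, 0, 31, 29, 357, (.cons 233 192 (.cons 210 190 (.cons 131 149 .nil .nil) .nil) (.cons 210 231 (.exit 0) .nil)), [], [28]⟩,
   ⟨28, 0, 32, 30, 356, (.cons 212 171 (.cons 213 231 .nil (.cons 210 229 .nil .nil)) (.cons 210 211 (.exit 0) (.cons 210 211 (.cons 211 232 (.cons 295 253 .nil .nil) .nil) (.cons 210 229 .nil .nil)))), [], [29]⟩,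
   ⟨29, 0, 33, 30, 355, (.cons 210 231 (.exit 0) .nil), [], [30]⟩,
   ⟨30, 0, 34, 31, 354, (.cons 210 211 (.exit 0) (.cons 210 211 (.cons 211 192 (.cons 192 193 (.cons 212 234 .nil .nil) .nil) (.cons 211 192 (.cons 192 193 .nil .nil) (.cons 211 192 (.cons 192 193 .nil .nil) (.cons 211 192 (.cons 192 193 .nil .nil) (.cons 211 192 (.cons 192 193 .nil .nil) .nil))))) .nil)), [], [31]⟩]

theorem oWN2U_3 : grpWU WWN2 SWN2 kWN2U_2 gWN2U_3 = true := by decide +kernel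

theorem wWN2U_3 : wpU WWN2 gWN2U_3 = true := by decide +kernel

/-- the pairs proved -/
def kWN2U_3 : List Mo := keysWU gWN2U_3 kWN2U_2

theorem cWN2U_3 : CU WWN2 SWN2 kWN2U_0 kWN2U_3 := .grp cWN2U_2 gWN2U_3 oWN2U_3 wWN2U_3

/-- items -/
def gWN2U_4 : List WU :=
  [⟨0, 0, 40, 8, 0, (.cons 210 230 (.exit 0) (.cons 189 169 (.cons 190 231 .nil .nil) (.cons 210 231 (.cons 212 233 .nil (.cons 211 233 .nil .nil)) .nil))), [1], []⟩,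
   ⟨1, 0, 40, 9, 0, (.cons 170 192 (.cons 169 171 .nil (.cons 191 169 .nil .nil)) (.cons 210 231 (.exit 0) (.cons 210 231 (.cons 249 250 .nil .nil) (.cons 191 169 (.cons 170 192 .nil (.cons 168 169 .nil .nil)) .nil)))), [2], []⟩,
   ⟨2, 0, 41, 10, 0, (.cons 149 171 (.cons 228 229 .nil .nil) (.cons 210 230 (.exit 0) (.cons 210 229 (.cons 209 250 .nil .nil) .nil))), [3], []⟩,
   ⟨3, 0, 41, 11, 0, (.cons 210 229 (.exit 0) (.cons 208 188 (.cons 210 229 (.cons 209 250 .nil .nil) .nil) .nil)), [4], []⟩,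
   ⟨4, 0, 40, 12, 0, (.cons 210 230 (.exit 0) (.cons 189 169 (.cons 190 231 .nil .nil) (.cons 210 231 (.cons 212 233 .nil (.cons 211 233 .nil .nil)) .nil))), [5], []⟩,
   ⟨5, 0, 40, 13, 0, (.cons 170 192 (.cons 169 171 .nil (.cons 191 169 .nil .nil)) (.cons 210 231 (.exit 0) (.cons 210 231 (.cons 231 250 .nil .nil) (.cons 191 169 (.cons 170 192 .nil (.cons 168 169 .nil .nil)) .nil)))), [6], []⟩,
   ⟨6, 0, 41, 14, 0, (.cons 149 171 (.cons 210 229 .nil .nil) (.cons 210 230 (.exit 0) (.cons 210 229 .nil .nil))), [7], []⟩,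
   ⟨7, 0, 41, 15, 0, (.cons 210 229 (.exit 0) (.cons 208 188 (.cons 210 229 (.cons 229 250 .nil .nil) .nil) .nil)), [8], []⟩,
   ⟨8, 0, 40, 16, 0, (.cons 210 230 (.exit 0) (.cons 189 169 (.cons 210 231 .nil .nil) (.cons 210 231 .nil .nil))), [9], []⟩,
   ⟨9, 0, 40, 17, 0, (.cons 170 192 (.cons 169 171 .nil (.cons 191 169 .nil .nil)) (.cons 210 231 (.exit 0) (.cons 210 231 (.cons 231 250 .nil .nil) (.cons 191 169 (.cons 210 191 .nil (.cons 168 169 .nil .nil)) .nil)))), [10], []⟩,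
   ⟨10, 0, 41, 18, 0, (.cons 149 171 (.cons 210 229 .nil .nil) (.cons 210 230 (.exit 0) (.cons 210 229 .nil .nil))), [11], []⟩,
   ⟨11, 0, 41, 19, 0, (.cons 189 171 (.cons 152 171 .nil (.cons 210 189 .nil .nil)) (.cons 189 171 (.cons 152 171 .nil (.cons 210 189 .nil .nil)) (.cons 210 229 (.exit 0) (.cons 207 188 (.cons 189 171 .nil (.cons 188 169 .nil .nil)) .nil)))), [12], []⟩,
   ⟨12, 0, 40, 20, 0, (.cons 210 230 (.exit 0) (.cons 189 169 (.cons 210 230 (.cons 230 251 .nil (.cons 230 251 .nil .nil)) (.cons 270 231 (.cons 210 231 .nil .nil) (.cons 270 229 (.cons 210 231 .nil .nil) .nil))) (.cons 210 230 (.cons 230 251 .nil (.cons 230 251 .nil .nil)) (.cons 210 230 (.cons 230 251 .nil (.cons 230 251 .nil .nil)) (.cons 210 230 (.cons 230 251 .nil (.cons 230 251 .nil .nil)) .nil))))), [13], []⟩,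
   ⟨13, 0, 40, 21, 0, (.cons 212 192 (.cons 210 231 .nil (.cons 210 231 .nil .nil)) (.cons 210 231 (.exit 0) (.cons 210 231 .nil (.cons 191 169 (.cons 212 192 .nil (.cons 210 231 .nil .nil)) .nil)))), [14], []⟩,
   ⟨14, 0, 41, 22, 0, (.cons 191 171 .nil (.cons 210 230 (.exit 0) .nil)), [15], []⟩]

theorem oWN2U_4 : grpWU WWN2 SWN2 kWN2U_3 gWN2U_4 = true := by decide +kernel

theorem wWN2U_4 : wpU WWN2 gWN2U_4 = true := by decide +kernel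

/-- the pairs proved -/
def kWN2U_4 : List Mo := keysWU gWN2U_4 kWN2U_3

theorem cWN2U_4 : CU WWN2 SWN2 kWN2U_0 kWN2U_4 := .grp cWN2U_3 gWN2U_4 oWN2U_4 wWN2U_4

/-- the pairs at the exit -/
def kWN2L_0 : List Mo := [⟨73, 1⟩]

theorem cWN2L_0 : CL WWN2 SWN2 kWN2L_0 kWN2L_0 := .nil

/-- items -/
def gWN2L_1 : List WL :=
  [⟨48, 1, 30, 36, 0, 0, 214, 232, 232, 229, 49, 0, 0⟩,
   ⟨49, 1, 29, 37, 0, 0, 214, 192, 192, 230, 50, 0, 0⟩,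
   ⟨50, 1, 29, 38, 0, 0, 193, 171, 171, 229, 51, 0, 0⟩,
   ⟨51, 1, 28, 39, 0, 0, 153, 171, 171, 230, 52, 0, 0⟩,
   ⟨52, 1, 28, 40, 0, 0, 132, 171, 171, 229, 53, 0, 0⟩,
   ⟨53, 1, 27, 41, 0, 0, 132, 171, 171, 209, 54, 0, 0⟩,
   ⟨54, 1, 26, 41, 0, 0, 153, 192, 192, 229, 55, 0, 0⟩,
   ⟨55, 1, 25, 42, 0, 0, 153, 192, 192, 209, 56, 0, 0⟩,
   ⟨56, 1, 24, 42, 0, 0, 174, 192, 192, 189, 57, 0, 0⟩,
   ⟨57, 1, 23, 41, 0, 0, 214, 232, 232, 209, 58, 0, 0⟩,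
   ⟨58, 1, 22, 41, 0, 0, 214, 232, 232, 189, 59, 0, 0⟩,
   ⟨59, 1, 21, 40, 0, 0, 254, 232, 232, 209, 60, 0, 0⟩,
   ⟨60, 1, 20, 40, 0, 0, 254, 232, 232, 229, 61, 0, 0⟩,
   ⟨61, 1, 19, 41, 0, 0, 214, 192, 192, 209, 62, 0, 0⟩,
   ⟨62, 1, 18, 41, 0, 0, 214, 192, 192, 189, 63, 0, 0⟩,
   ⟨63, 1, 17, 40, 0, 0, 214, 232, 232, 209, 64, 0, 0⟩,
   ⟨64, 1, 16, 40, 0, 0, 214, 232, 232, 229, 65, 0, 0⟩,
   ⟨65, 1, 15, 41, 0, 0, 214, 192, 192, 209, 66, 0, 0⟩,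
   ⟨66, 1, 14, 41, 0, 0, 214, 192, 192, 189, 67, 0, 0⟩,
   ⟨67, 1, 13, 40, 0, 0, 214, 232, 232, 209, 68, 0, 0⟩,
   ⟨68, 1, 12, 40, 0, 0, 214, 232, 232, 229, 69, 0, 0⟩,
   ⟨69, 1, 11, 41, 0, 0, 214, 192, 192, 209, 70, 0, 0⟩,
   ⟨70, 1, 10, 41, 0, 0, 214, 192, 192, 189, 71, 0, 0⟩,
   ⟨71, 1, 9, 40, 0, 0, 214, 232, 232, 209, 72, 0, 0⟩,
   ⟨72, 1, 8, 40, 0, 0, 214, 232, 232, 229, 73, 0, 0⟩]

theorem oWN2L_1 : grpWL WWN2 SWN2 kWN2L_0 gWN2L_1 = true := by decide +kernel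

theorem wWN2L_1 : wpL WWN2 gWN2L_1 = true := by decide +kernel

/-- the pairs proved -/
def kWN2L_1 : List Mo := keysWL gWN2L_1 kWN2L_0

theorem cWN2L_1 : CL WWN2 SWN2 kWN2L_0 kWN2L_1 := .grp cWN2L_0 gWN2L_1 oWN2L_1 wWN2L_1

/-- items -/
def gWN2L_2 : List WL :=
  [⟨23, 0, 33, 25, 0, 0, 214, 232, 232, 229, 24, 0, 0⟩,
   ⟨24, 0, 32, 26, 0, 0, 214, 192, 192, 230, 25, 0, 0⟩,
   ⟨25, 0, 32, 27, 0, 0, 193, 171, 171, 229, 26, 0, 0⟩,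
   ⟨26, 0, 31, 28, 0, 0, 153, 171, 171, 230, 27, 0, 0⟩,
   ⟨27, 0, 31, 29, 357, 0, 132, 171, 171, 231, 28, 0, 0⟩,
   ⟨28, 0, 32, 30, 356, 0, 130, 169, 169, 211, 29, 0, 0⟩,
   ⟨29, 0, 33, 30, 355, 0, 149, 188, 188, 231, 30, 0, 0⟩,
   ⟨30, 0, 34, 31, 354, 0, 147, 188, 188, 211, 31, 0, 0⟩,
   ⟨31, 0, 35, 31, 353, 0, 166, 188, 188, 191, 32, 0, 0⟩,
   ⟨32, 0, 36, 30, 352, 0, 206, 228, 228, 211, 33, 0, 0⟩,
   ⟨33, 0, 37, 30, 351, 0, 206, 228, 228, 231, 34, 0, 0⟩,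
   ⟨34, 0, 38, 31, 350, 0, 206, 188, 188, 211, 35, 0, 0⟩,
   ⟨35, 0, 39, 31, 349, 0, 206, 188, 188, 231, 36, 0, 0⟩,
   ⟨36, 0, 40, 32, 348, 0, 166, 188, 188, 230, 37, 0, 0⟩,
   ⟨37, 0, 40, 32, 348, 0, 167, 189, 189, 249, 38, 0, 0⟩,
   ⟨38, 0, 39, 34, 349, 0, 149, 171, 171, 229, 39, 0, 0⟩,
   ⟨39, 0, 38, 35, 350, 3, 0, 0, 0, 209, 40, 0, 0⟩,
   ⟨40, 1, 37, 35, 351, 0, 153, 192, 192, 189, 41, 0, 0⟩,
   ⟨41, 1, 36, 34, 352, 0, 153, 171, 171, 209, 42, 0, 0⟩,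
   ⟨42, 1, 35, 34, 353, 0, 214, 232, 232, 229, 43, 0, 0⟩,
   ⟨43, 1, 34, 35, 354, 0, 153, 192, 192, 230, 44, 0, 0⟩,
   ⟨44, 1, 34, 36, 354, 0, 193, 171, 171, 229, 45, 0, 0⟩,
   ⟨45, 1, 33, 37, 355, 0, 153, 171, 171, 209, 46, 0, 0⟩,
   ⟨46, 1, 32, 37, 356, 0, 153, 192, 192, 189, 47, 0, 0⟩,
   ⟨47, 1, 31, 36, 357, 0, 193, 232, 232, 209, 48, 0, 0⟩]

theorem oWN2L_2 : grpWL WWN2 SWN2 kWN2L_1 gWN2L_2 = true := by decide +kernel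

theorem wWN2L_2 : wpL WWN2 gWN2L_2 = true := by decide +kernel

/-- the pairs proved -/
def kWN2L_2 : List Mo := keysWL gWN2L_2 kWN2L_1

theorem cWN2L_2 : CL WWN2 SWN2 kWN2L_0 kWN2L_2 := .grp cWN2L_1 gWN2L_2 oWN2L_2 wWN2L_2

/-- items -/
def gWN2L_3 : List WL :=
  [⟨1, 0, 40, 9, 0, 0, 130, 171, 171, 231, 2, 0, 0⟩,
   ⟨2, 0, 41, 10, 0, 0, 130, 169, 169, 230, 3, 0, 0⟩,
   ⟨3, 0, 41, 11, 0, 0, 130, 169, 169, 229, 4, 0, 0⟩,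
   ⟨4, 0, 40, 12, 0, 0, 130, 171, 171, 230, 5, 0, 0⟩,
   ⟨5, 0, 40, 13, 0, 0, 130, 171, 171, 231, 6, 0, 0⟩,
   ⟨6, 0, 41, 14, 0, 0, 130, 169, 169, 230, 7, 0, 0⟩,
   ⟨7, 0, 41, 15, 0, 0, 130, 169, 169, 229, 8, 0, 0⟩,
   ⟨8, 0, 40, 16, 0, 0, 130, 171, 171, 230, 9, 0, 0⟩,
   ⟨9, 0, 40, 17, 0, 0, 130, 171, 171, 231, 10, 0, 0⟩,
   ⟨10, 0, 41, 18, 0, 0, 130, 169, 169, 230, 11, 0, 0⟩,
   ⟨11, 0, 41, 19, 0, 0, 130, 169, 169, 229, 12, 0, 0⟩,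
   ⟨12, 0, 40, 20, 0, 0, 130, 171, 171, 230, 13, 0, 0⟩,
   ⟨13, 0, 40, 21, 0, 0, 130, 171, 171, 231, 14, 0, 0⟩,
   ⟨14, 0, 41, 22, 0, 0, 130, 169, 169, 230, 15, 0, 0⟩,
   ⟨15, 0, 41, 23, 0, 0, 130, 169, 169, 229, 16, 0, 0⟩,
   ⟨16, 0, 40, 24, 0, 0, 130, 171, 171, 209, 17, 0, 0⟩,
   ⟨17, 0, 39, 24, 0, 0, 151, 192, 192, 229, 18, 0, 0⟩,
   ⟨18, 0, 38, 25, 0, 0, 153, 192, 192, 209, 19, 0, 0⟩,
   ⟨19, 0, 37, 25, 0, 0, 174, 192, 192, 229, 20, 0, 0⟩,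
   ⟨20, 0, 36, 26, 0, 0, 174, 192, 192, 209, 21, 0, 0⟩,
   ⟨21, 0, 35, 26, 0, 0, 174, 192, 192, 189, 22, 0, 0⟩,
   ⟨22, 0, 34, 25, 0, 0, 214, 232, 232, 209, 23, 0, 0⟩]

theorem oWN2L_3 : grpWL WWN2 SWN2 kWN2L_2 gWN2L_3 = true := by decide +kernel

theorem wWN2L_3 : wpL WWN2 gWN2L_3 = true := by decide +kernel

/-- the pairs proved -/
def kWN2L_3 : List Mo := keysWL gWN2L_3 kWN2L_2

theorem cWN2L_3 : CL WWN2 SWN2 kWN2L_0 kWN2L_3 := .grp cWN2L_2 gWN2L_3 oWN2L_3 wWN2L_3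

/-- the first item of the lower bound -/
def uWN2 : WL := ⟨0, 0, 40, 8, 0, 0, 130, 171, 171, 230, 1, 0, 0⟩

/-- **The certificate of the window.** -/
theorem WWN2_cert : WinC WWN2 SWN2 0 73 :=
  ⟨WWN2_ok, ⟨kWN2U_4, cWN2U_4, by decide +kernel⟩,
    ⟨kWN2L_3, uWN2, cWN2L_3, rfl, rfl, rfl, rfl, by decide +kernel⟩⟩

end Pool.Agent.Lib.H32C.Loc
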