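import Pool.Agent.Lib.H32C.ChW
import Pool.Agent.Lib.H32C.TdAr
import Pool.Agent.Lib.H32C.TdBase
import Pool.Agent.Lib.H32C.World

/-!
# Tile data: WW (window with a shaft to the left)
-/

set_option autoImplicit false

namespace Pool.Agent.Lib.H32C.Loc

/-- pattern of the left border of WW: the shaft between Black pawns -/
def PWW : Nat :=
  0x11111111111111111111111111111111111111111111111111111111111111111111111111111111111111111111111111111111111111111111111111111111111111111111111111111111111111111111111111111111111111111111111111111111111111111111111111111111111111111111111111111111111111111111111111111111111111111111111111111111111111111111111111111111111111111111111111111111111111111111111111111111111111111111111111111111111111111111111111111111999999999999999900000000000000009999999999999999111111111111111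11111111111111111111111111111111111111111111111111111111111111111111111111111111111111111111111111111111111111111111111111111111111111111111111111111111111111111111111111111111111111111111111111111111111111111111111111111111111111111111111111111111111111111111111111111111111111111111111111111111111111111111111111111111111111111111111111111111111111111111111111111111111111111111111111111111111111111111111111111111111111111111111111111111111111111111111111111111111111111111111111111111111111111111111111111111111111111111111111111111111111111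

theorem AWW_L : rowsEq AWW 0 8 PWW 64 = true := by decide +kernel

theorem AWW_R : rowsEq AWW 64 8 PF 64 = true := by decide +kernel

theorem AWW_B : colsEq AWW 0 PV 16 = true := by decide +kernel

theorem AWW_T : colsEq AWW 64 PV 16 = true := by decide +kernel

theorem AWW_C : cornersOk AWW = true := by decide +kernel

theorem AWW_K : noKing AWW = true := by decide +kernel

/-- the window -/
def WWW : WT := ⟨80, AWW, 41, 3560⟩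

theorem WWW_ok : wtOk WWW = true := by decide +kernel

/-- the states -/
def SWW : List (List Pc) :=
  [[⟨40, 8, 6⟩, ⟨40, 4, 10⟩, ⟨40, 5, 10⟩],
   [⟨40, 9, 6⟩, ⟨41, 6, 10⟩, ⟨40, 5, 10⟩],
   [⟨41, 10, 6⟩, ⟨41, 7, 10⟩, ⟨41, 6, 10⟩],
   [⟨41, 11, 6⟩, ⟨40, 8, 10⟩, ⟨41, 7, 10⟩],
   [⟨40, 12, 6⟩, ⟨40, 9, 10⟩, ⟨40, 8, 10⟩],
   [⟨40, 13, 6⟩, ⟨41, 10, 10⟩, ⟨40, 9, 10⟩],
   [⟨41, 14, 6⟩, ⟨41, 11, 10⟩, ⟨41, 10, 10⟩],
   [⟨41, 15, 6⟩, ⟨40, 12, 10⟩, ⟨41, 11, 10⟩],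
   [⟨40, 16, 6⟩, ⟨40, 13, 10⟩, ⟨40, 12, 10⟩],
   [⟨40, 17, 6⟩, ⟨41, 14, 10⟩, ⟨40, 13, 10⟩],
   [⟨41, 18, 6⟩, ⟨41, 15, 10⟩, ⟨41, 14, 10⟩],
   [⟨41, 19, 6⟩, ⟨40, 16, 10⟩, ⟨41, 15, 10⟩],
   [⟨40, 20, 6⟩, ⟨40, 17, 10⟩, ⟨40, 16, 10⟩],
   [⟨40, 21, 6⟩, ⟨41, 18, 10⟩, ⟨40, 17, 10⟩],
   [⟨41, 22, 6⟩, ⟨41, 19, 10⟩, ⟨41, 18, 10⟩],
   [⟨42, 22, 6⟩, ⟨40, 20, 10⟩, ⟨41, 19, 10⟩],
   [⟨43, 23, 6⟩, ⟨40, 21, 10⟩, ⟨40, 20, 10⟩],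
   [⟨43, 24, 6⟩, ⟨41, 22, 10⟩, ⟨40, 21, 10⟩],
   [⟨44, 25, 6⟩, ⟨42, 22, 10⟩, ⟨41, 22, 10⟩],
   [⟨44, 26, 6⟩, ⟨43, 23, 10⟩, ⟨42, 22, 10⟩],
   [⟨45, 27, 6⟩, ⟨43, 24, 10⟩, ⟨43, 23, 10⟩],
   [⟨45, 28, 6⟩, ⟨44, 25, 10⟩, ⟨43, 24, 10⟩],
   [⟨46, 29, 6⟩, ⟨44, 26, 10⟩, ⟨44, 25, 10⟩],
   [⟨46, 30, 6⟩, ⟨45, 27, 10⟩, ⟨44, 26, 10⟩],
   [⟨47, 31, 6⟩, ⟨45, 28, 10⟩, ⟨45, 27, 10⟩],
   [⟨47, 32, 6⟩, ⟨46, 29, 10⟩, ⟨45, 28, 10⟩],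
   [⟨48, 33, 6⟩, ⟨46, 30, 10⟩, ⟨46, 29, 10⟩],
   [⟨48, 34, 6⟩, ⟨47, 31, 10⟩, ⟨46, 30, 10⟩],
   [⟨49, 35, 6⟩, ⟨47, 32, 10⟩, ⟨47, 31, 10⟩],
   [⟨49, 36, 6⟩, ⟨48, 33, 10⟩, ⟨47, 32, 10⟩],
   [⟨50, 37, 6⟩, ⟨48, 34, 10⟩, ⟨48, 33, 10⟩],
   [⟨50, 38, 6⟩, ⟨49, 35, 10⟩, ⟨48, 34, 10⟩],
   [⟨51, 39, 6⟩, ⟨49, 36, 10⟩, ⟨49, 35, 10⟩],
   [⟨51, 40, 6⟩, ⟨50, 37, 10⟩, ⟨49, 36, 10⟩],
   [⟨52, 41, 6⟩, ⟨50, 38, 10⟩, ⟨50, 37, 10⟩],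
   [⟨52, 42, 6⟩, ⟨51, 39, 10⟩, ⟨50, 38, 10⟩],
   [⟨53, 43, 6⟩, ⟨51, 40, 10⟩, ⟨51, 39, 10⟩],
   [⟨53, 44, 6⟩, ⟨52, 41, 10⟩, ⟨51, 40, 10⟩],
   [⟨54, 45, 6⟩, ⟨52, 42, 10⟩, ⟨52, 41, 10⟩],
   [⟨54, 46, 6⟩, ⟨53, 43, 10⟩, ⟨52, 42, 10⟩],
   [⟨53, 47, 6⟩, ⟨53, 44, 10⟩, ⟨53, 43, 10⟩],
   [⟨53, 48, 6⟩, ⟨54, 45, 10⟩, ⟨53, 44, 10⟩],
   [⟨52, 49, 6⟩, ⟨54, 46, 10⟩, ⟨54, 45, 10⟩],
   [⟨51, 49, 6⟩, ⟨53, 47, 10⟩, ⟨54, 46, 10⟩],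
   [⟨50, 50, 6⟩, ⟨53, 48, 10⟩, ⟨53, 47, 10⟩],
   [⟨49, 50, 6⟩, ⟨52, 49, 10⟩, ⟨53, 48, 10⟩],
   [⟨48, 49, 6⟩, ⟨51, 49, 10⟩, ⟨52, 49, 10⟩],
   [⟨48, 48, 6⟩, ⟨50, 50, 10⟩, ⟨51, 49, 10⟩],
   [⟨47, 47, 6⟩, ⟨49, 50, 10⟩, ⟨50, 50, 10⟩],
   [⟨46, 47, 6⟩, ⟨48, 49, 10⟩, ⟨49, 50, 10⟩],
   [⟨45, 46, 6⟩, ⟨48, 48, 10⟩, ⟨48, 49, 10⟩],
   [⟨45, 45, 6⟩, ⟨47, 47, 10⟩, ⟨48, 48, 10⟩],
   [⟨44, 44, 6⟩, ⟨46, 47, 10⟩, ⟨47, 47, 10⟩],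
   [⟨44, 43, 6⟩, ⟨45, 46, 10⟩, ⟨46, 47, 10⟩],
   [⟨43, 42, 6⟩, ⟨45, 45, 10⟩, ⟨45, 46, 10⟩],
   [⟨42, 42, 6⟩, ⟨44, 44, 10⟩, ⟨45, 45, 10⟩],
   [⟨41, 43, 6⟩, ⟨44, 43, 10⟩, ⟨44, 44, 10⟩],
   [⟨40, 44, 6⟩, ⟨43, 42, 10⟩, ⟨44, 43, 10⟩],
   [⟨40, 45, 6⟩, ⟨43, 42, 10⟩, ⟨44, 43, 10⟩],
   [⟨41, 46, 6⟩, ⟨41, 43, 10⟩, ⟨44, 43, 10⟩],
   [⟨41, 47, 6⟩, ⟨41, 43, 10⟩, ⟨43, 45, 10⟩],
   [⟨40, 48, 6⟩, ⟨40, 45, 10⟩, ⟨43, 45, 10⟩],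
   [⟨39, 48, 6⟩, ⟨41, 46, 10⟩, ⟨40, 45, 10⟩],
   [⟨38, 49, 6⟩, ⟨41, 47, 10⟩, ⟨41, 46, 10⟩],
   [⟨37, 49, 6⟩, ⟨40, 48, 10⟩, ⟨41, 47, 10⟩],
   [⟨36, 50, 6⟩, ⟨39, 48, 10⟩, ⟨40, 48, 10⟩],
   [⟨36, 51, 6⟩, ⟨38, 49, 10⟩, ⟨39, 48, 10⟩],
   [⟨37, 52, 6⟩, ⟨37, 49, 10⟩, ⟨38, 49, 10⟩],
   [⟨37, 53, 6⟩, ⟨36, 50, 10⟩, ⟨37, 49, 10⟩],
   [⟨38, 54, 6⟩, ⟨36, 51, 10⟩, ⟨36, 50, 10⟩],
   [⟨39, 54, 6⟩, ⟨37, 52, 10⟩, ⟨36, 51, 10⟩],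
   [⟨40, 55, 6⟩, ⟨37, 53, 10⟩, ⟨37, 52, 10⟩],
   [⟨41, 55, 6⟩, ⟨38, 54, 10⟩, ⟨37, 53, 10⟩],
   [⟨42, 56, 6⟩, ⟨39, 54, 10⟩, ⟨38, 54, 10⟩],
   [⟨42, 57, 6⟩, ⟨40, 55, 10⟩, ⟨39, 54, 10⟩],
   [⟨41, 58, 6⟩, ⟨41, 55, 10⟩, ⟨40, 55, 10⟩],
   [⟨41, 59, 6⟩, ⟨42, 56, 10⟩, ⟨41, 55, 10⟩],
   [⟨40, 60, 6⟩, ⟨42, 57, 10⟩, ⟨42, 56, 10⟩],
   [⟨40, 61, 6⟩, ⟨41, 58, 10⟩, ⟨42, 57, 10⟩],
   [⟨41, 62, 6⟩, ⟨41, 59, 10⟩, ⟨41, 58, 10⟩],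
   [⟨41, 63, 6⟩, ⟨40, 60, 10⟩, ⟨41, 59, 10⟩],
   [⟨40, 64, 6⟩, ⟨40, 61, 10⟩, ⟨40, 60, 10⟩],
   [⟨40, 65, 6⟩, ⟨41, 62, 10⟩, ⟨40, 61, 10⟩],
   [⟨41, 66, 6⟩, ⟨41, 63, 10⟩, ⟨41, 62, 10⟩],
   [⟨41, 67, 6⟩, ⟨40, 64, 10⟩, ⟨41, 63, 10⟩],
   [⟨40, 68, 6⟩, ⟨40, 65, 10⟩, ⟨40, 64, 10⟩],
   [⟨40, 69, 6⟩, ⟨41, 66, 10⟩, ⟨40, 65, 10⟩],
   [⟨41, 70, 6⟩, ⟨41, 67, 10⟩, ⟨41, 66, 10⟩],
   [⟨41, 71, 6⟩, ⟨40, 68, 10⟩, ⟨41, 67, 10⟩],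
   [⟨40, 72, 6⟩, ⟨40, 68, 10⟩, ⟨40, 69, 10⟩]]

theorem SWW_x : nthP SWW 0 = ent Dir.U := rfl

theorem SWW_y : nthP SWW 89 = ext Dir.U := rfl

/-- the pairs at the exit -/
def kWWU_0 : List Mo := [⟨89, 1⟩]

theorem cWWU_0 : CU WWW SWW kWWU_0 kWWU_0 := .nil

/-- items -/
def gWWU_1 : List WU :=
  [⟨71, 1, 40, 55, 0, (.cons 210 211 (.exit 0) .nil), [72], []⟩,
   ⟨72, 1, 41, 55, 0, (.cons 210 231 (.cons 231 250 .nil .nil) (.cons 210 231 (.exit 0) (.cons 210 231 (.cons 229 250 .nil .nil) .nil))), [73], []⟩,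
   ⟨73, 1, 42, 56, 0, (.cons 210 230 (.exit 0) (.cons 208 229 (.cons 228 188 .nil .nil) .nil)), [74], []⟩,
   ⟨74, 1, 42, 57, 0, (.cons 210 229 (.exit 0) (.cons 167 188 .nil .nil)), [75], []⟩,
   ⟨75, 1, 41, 58, 0, (.cons 210 230 (.exit 0) (.cons 170 188 (.cons 210 229 .nil .nil) (.cons 210 229 (.cons 229 210 .nil (.cons 170 188 .nil .nil)) .nil))), [76], []⟩,
   ⟨76, 1, 41, 59, 0, (.cons 210 229 (.cons 229 250 .nil .nil) (.cons 210 229 (.exit 0) (.cons 210 229 (.cons 229 250 .nil .nil) (.cons 191 169 (.cons 210 191 .nil (.cons 148 169 .nil .nil)) .nil)))), [77], []⟩,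
   ⟨77, 1, 40, 60, 0, (.cons 210 230 (.exit 0) (.cons 210 231 .nil .nil)), [78], []⟩,
   ⟨78, 1, 40, 61, 0, (.cons 173 192 (.cons 210 231 (.cons 229 250 .nil .nil) .nil) (.cons 210 231 (.exit 0) .nil)), [79], []⟩,
   ⟨79, 1, 41, 62, 0, (.cons 152 171 (.cons 208 229 .nil .nil) (.cons 210 230 (.exit 0) (.cons 210 229 (.cons 209 250 .nil .nil) .nil))), [80], []⟩,
   ⟨80, 1, 41, 63, 0, (.cons 189 171 (.cons 152 171 .nil (.cons 210 189 .nil .nil)) (.cons 210 229 (.cons 289 250 .nil .nil) (.cons 210 229 (.exit 0) (.cons 208 188 (.cons 189 171 .nil (.cons 210 229 (.cons 289 250 .nil .nil) .nil)) .nil)))), [81], []⟩,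
   ⟨81, 1, 40, 64, 0, (.cons 210 230 (.exit 0) (.cons 189 169 (.cons 270 231 .nil .nil) (.cons 210 231 (.cons 212 233 .nil (.cons 211 233 .nil .nil)) .nil))), [82], []⟩,
   ⟨82, 1, 40, 65, 0, (.cons 193 192 (.cons 210 231 (.cons 249 250 .nil .nil) (.cons 191 169 .nil .nil)) (.cons 210 231 (.exit 0) (.cons 210 231 (.cons 249 250 .nil .nil) (.cons 191 169 (.cons 193 192 .nil (.cons 148 169 .nil .nil)) .nil)))), [83], []⟩,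
   ⟨83, 1, 41, 66, 0, (.cons 172 171 (.cons 228 229 .nil .nil) (.cons 210 230 (.exit 0) (.cons 210 229 (.cons 209 250 .nil .nil) .nil))), [84], []⟩,
   ⟨84, 1, 41, 67, 0, (.cons 210 229 (.exit 0) (.cons 208 188 (.cons 210 229 (.cons 209 250 .nil .nil) .nil) .nil)), [85], []⟩,
   ⟨85, 1, 40, 68, 0, (.cons 210 230 (.exit 0) (.cons 189 169 (.cons 190 231 .nil .nil) (.cons 210 231 (.cons 212 233 .nil (.cons 211 233 .nil .nil)) .nil))), [86], []⟩,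
   ⟨86, 1, 40, 69, 0, (.cons 170 192 (.cons 169 171 .nil (.cons 191 169 .nil .nil)) (.cons 210 231 (.exit 0) (.cons 210 231 (.cons 249 250 .nil .nil) (.cons 191 169 (.cons 170 192 .nil (.cons 168 169 .nil .nil)) .nil)))), [87], []⟩,
   ⟨87, 1, 41, 70, 0, (.cons 149 171 (.cons 228 229 .nil .nil) (.cons 210 230 (.exit 0) (.cons 210 229 (.cons 209 250 .nil .nil) .nil))), [88], []⟩,
   ⟨88, 1, 41, 71, 0, (.cons 210 229 (.exit 0) (.cons 208 188 (.cons 210 229 (.cons 209 250 .nil .nil) .nil) .nil)), [89], []⟩]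

theorem oWWU_1 : grpWU WWW SWW kWWU_0 gWWU_1 = true := by decide +kernel

theorem wWWU_1 : wpU WWW gWWU_1 = true := by decide +kernel

/-- the pairs proved -/
def kWWU_1 : List Mo := keysWU gWWU_1 kWWU_0

theorem cWWU_1 : CU WWW SWW kWWU_0 kWWU_1 := .grp cWWU_0 gWWU_1 oWWU_1 wWWU_1

/-- items -/
def gWWU_2 : List WU :=
  [⟨59, 1, 40, 46, 162, (.cons 211 231 (.exit 0) (.cons 194 172 (.cons 150 169 .nil .nil) (.cons 150 169 (.cons 211 231 (.cons 169 190 .nil .nil) (.cons 194 172 .nil .nil)) .nil))), [60], []⟩,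
   ⟨60, 1, 40, 47, 142, (.cons 211 230 (.exit 0) .nil), [61], []⟩,
   ⟨61, 1, 40, 48, 122, (.cons 233 192 .nil (.cons 210 209 (.exit 0) .nil)), [62], []⟩,
   ⟨62, 1, 39, 48, 122, (.cons 210 229 (.exit 0) (.cons 191 169 .nil .nil)), [63], []⟩,
   ⟨63, 1, 38, 49, 102, (.cons 210 209 (.exit 0) (.cons 190 168 (.cons 188 192 .nil .nil) .nil)), [64], []⟩,
   ⟨64, 1, 37, 49, 102, (.cons 210 229 (.cons 291 250 .nil .nil) (.cons 210 229 (.exit 0) (.cons 210 229 (.cons 291 250 .nil .nil) .nil))), [65], []⟩,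
   ⟨65, 1, 36, 50, 82, (.cons 210 230 (.exit 0) (.cons 272 231 (.cons 231 192 .nil .nil) .nil)), [66], []⟩,
   ⟨66, 1, 36, 51, 62, (.cons 173 192 .nil (.cons 210 231 (.exit 0) .nil)), [67], []⟩,
   ⟨67, 1, 37, 52, 42, (.cons 170 192 .nil (.cons 210 230 (.exit 0) .nil)), [68], []⟩,
   ⟨68, 1, 37, 53, 0, (.cons 189 171 (.cons 210 231 .nil (.cons 210 231 .nil .nil)) (.cons 210 231 .nil (.cons 210 231 (.exit 0) (.cons 210 231 .nil .nil)))), [69], []⟩,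
   ⟨69, 1, 38, 54, 0, (.cons 210 211 (.exit 0) .nil), [70], []⟩,
   ⟨70, 1, 39, 54, 0, (.cons 210 231 (.exit 0) .nil), [71], []⟩]

theorem oWWU_2 : grpWU WWW SWW kWWU_1 gWWU_2 = true := by decide +kernel

theorem wWWU_2 : wpU WWW gWWU_2 = true := by decide +kernel

/-- the pairs proved -/
def kWWU_2 : List Mo := keysWU gWWU_2 kWWU_1

theorem cWWU_2 : CU WWW SWW kWWU_0 kWWU_2 := .grp cWWU_1 gWWU_2 oWWU_2 wWWU_2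

/-- items -/
def gWWU_3 : List WU :=
  [⟨54, 0, 43, 42, 242, (.cons 210 209 (.exit 0) (.cons 211 229 (.cons 229 251 .nil .nil) .nil)), [], [55]⟩,
   ⟨55, 0, 41, 42, 242, (.cons 213 252 (.cons 252 230 .nil .nil) (.cons 211 230 (.exit 0) (.cons 211 230 (.cons 213 252 (.cons 230 211 .nil (.cons 230 211 .nil .nil)) (.cons 230 211 (.cons 213 252 .nil (.cons 211 212 (.cons 273 251 .nil .nil) .nil)) (.cons 172 191 (.cons 230 210 (.cons 148 169 .nil .nil) (.cons 191 212 (.cons 213 252 .nil .nil) .nil)) .nil))) .nil))), [], [56]⟩,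
   ⟨56, 0, 41, 43, 222, (.cons 210 229 (.exit 0) (.cons 152 171 (.cons 171 192 .nil .nil) .nil)), [], [57]⟩,
   ⟨57, 0, 40, 44, 202, (.cons 210 230 (.exit 0) (.cons 270 231 (.cons 231 209 (.cons 210 231 .nil (.cons 190 209 (.cons 210 231 .nil .nil) .nil)) (.cons 210 231 .nil (.cons 210 229 (.cons 229 250 .nil .nil) .nil))) (.cons 270 231 (.cons 231 209 (.cons 190 209 .nil .nil) (.cons 210 231 .nil .nil)) (.cons 210 229 (.cons 229 250 .nil .nil) .nil)))), [58], []⟩,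
   ⟨58, 1, 40, 45, 182, (.cons 214 192 (.cons 211 192 (.cons 210 231 (.cons 250 211 .nil (.cons 231 210 .nil (.cons 170 189 .nil .nil))) (.cons 170 189 .nil .nil)) (.cons 210 231 (.cons 170 189 .nil .nil) (.cons 210 231 (.cons 211 192 (.cons 250 211 .nil (.cons 231 210 .nil (.cons 170 189 .nil .nil))) (.cons 250 211 (.cons 231 250 .nil .nil) (.cons 192 210 (.cons 210 192 .nil .nil) (.cons 170 189 (.cons 211 192 .nil .nil) .nil)))) (.cons 170 189 (.cons 211 192 .nil (.cons 210 231 .nil .nil)) .nil)))) (.cons 214 192 (.cons 211 192 (.cons 210 231 (.cons 250 211 .nil (.cons 231 210 .nil (.cons 170 189 .nil .nil))) (.cons 170 189 .nil .nil)) (.cons 210 231 (.cons 231 251 (.cons 250 211 .nil .nil) (.cons 211 192 (.cons 250 211 .nil (.cons 231 210 .nil (.cons 170 189 .nil .nil))) (.cons 250 211 (.cons 231 251 .nil (.cons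 231 250 .nil .nil)) (.cons 231 210 (.cons 211 192 .nil .nil) (.cons 231 251 (.cons 293 252 .nil (.cons 192 231 .nil .nil)) .nil))))) (.cons 170 189 (.cons 211 192 .nil .nil) .nil))) (.cons 210 231 (.exit 0) (.cons 210 231 (.cons 231 251 (.cons 250 211 .nil .nil) (.cons 231 251 (.cons 251 270 .nil (.cons 250 211 (.cons 251 270 .nil .nil) .nil)) (.cons 231 251 (.cons 251 270 .nil (.cons 250 211 (.cons 251 270 .nil .nil) .nil)) (.cons 250 211 (.cons 231 251 .nil (.cons 231 250 .nil (.cons 231 250 .nil .nil))) (.cons 231 251 (.cons 293 252 .nil (.cons 251 270 (.cons 270 271 .nil (.cons 270 250 .nil (.cons 270 251 .nil .nil))) (.cons 250 211 .nil .nil))) (.cons 231 251 (.cons 293 252 .nil (.cons 251 270 (.cons 270 271 .nil (.cons 270 250 .nil (.cons 270 251 .nil .nil))) .nil)) .nil)))))) (.cons 170 189 (.cons 214 192 (.cons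 211 192 .nil (.cons 210 231 .nil .nil)) (.cons 214 192 (.cons 211 192 .nil .nil) (.cons 210 231 (.cons 231 251 (.cons 189 210 .nil .nil) (.cons 214 192 .nil .nil)) .nil))) .nil))))), [59], []⟩]

theorem oWWU_3 : grpWU WWW SWW kWWU_2 gWWU_3 = true := by decide +kernel

theorem wWWU_3 : wpU WWW gWWU_3 = true := by decide +kernel

/-- the pairs proved -/
def kWWU_3 : List Mo := keysWU gWWU_3 kWWU_2

theorem cWWU_3 : CU WWW SWW kWWU_0 kWWU_3 := .grp cWWU_2 gWWU_3 oWWU_3 wWWU_3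

/-- items -/
def gWWU_4 : List WU :=
  [⟨33, 0, 51, 40, 0, (.cons 210 231 (.cons 230 252 .nil .nil) (.cons 210 231 (.exit 0) (.cons 210 231 (.cons 230 252 .nil .nil) .nil))), [34], []⟩,
   ⟨34, 0, 52, 41, 0, (.cons 210 230 (.exit 0) (.cons 210 230 (.cons 230 251 (.cons 250 272 .nil .nil) (.cons 230 251 (.cons 250 272 .nil .nil) .nil)) .nil)), [35], []⟩,
   ⟨35, 0, 52, 42, 0, (.cons 210 231 (.exit 0) (.cons 210 231 (.cons 230 252 .nil .nil) .nil)), [36], []⟩,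
   ⟨36, 0, 53, 43, 0, (.cons 210 230 (.exit 0) (.cons 210 230 (.cons 230 251 (.cons 249 270 .nil .nil) (.cons 230 251 (.cons 249 270 .nil .nil) .nil)) .nil)), [37], []⟩,
   ⟨37, 0, 53, 44, 0, (.cons 210 231 (.exit 0) (.cons 210 231 (.cons 289 250 .nil .nil) .nil)), [38], []⟩,
   ⟨38, 0, 54, 45, 0, (.cons 210 230 (.exit 0) (.cons 210 229 (.cons 168 190 .nil .nil) .nil)), [39], []⟩,
   ⟨39, 0, 54, 46, 0, (.cons 210 229 .nil (.cons 210 229 (.exit 0) (.cons 167 188 (.cons 210 229 .nil .nil) .nil))), [40], []⟩,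
   ⟨40, 0, 53, 47, 0, (.cons 210 230 (.exit 0) (.cons 148 169 .nil .nil)), [41], []⟩,
   ⟨41, 0, 53, 48, 0, (.cons 210 229 .nil (.cons 210 229 (.exit 0) (.cons 210 229 .nil (.cons 191 169 (.cons 210 229 .nil (.cons 210 229 .nil .nil)) .nil)))), [42], []⟩,
   ⟨42, 0, 52, 49, 0, (.cons 210 209 (.exit 0) .nil), [43], []⟩,
   ⟨43, 0, 51, 49, 0, (.cons 210 229 (.exit 0) .nil), [44], []⟩,
   ⟨44, 0, 50, 50, 0, (.cons 210 209 (.exit 0) .nil), [45], []⟩,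
   ⟨45, 0, 49, 50, 0, (.cons 210 189 .nil (.cons 210 189 (.exit 0) .nil)), [46], []⟩,
   ⟨46, 0, 48, 49, 0, (.cons 210 190 (.exit 0) .nil), [47], []⟩,
   ⟨47, 0, 48, 48, 0, (.cons 210 189 (.exit 0) .nil), [48], []⟩,
   ⟨48, 0, 47, 47, 142, (.cons 210 209 (.exit 0) .nil), [], [49]⟩,
   ⟨49, 0, 46, 47, 142, (.cons 230 251 .nil (.cons 210 189 (.exit 0) .nil)), [], [50]⟩,
   ⟨50, 0, 45, 46, 162, (.cons 230 251 .nil (.cons 210 190 (.exit 0) .nil)), [], [51]⟩,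
   ⟨51, 0, 45, 45, 182, (.cons 210 189 (.exit 0) (.cons 210 229 (.cons 229 228 .nil (.cons 229 228 (.cons 228 207 .nil (.cons 228 207 .nil .nil)) .nil)) .nil)), [], [52]⟩,
   ⟨52, 0, 44, 44, 202, (.cons 210 190 (.exit 0) (.cons 210 190 (.cons 190 169 (.cons 170 188 .nil .nil) (.cons 190 211 (.cons 271 250 .nil .nil) (.cons 188 209 (.cons 190 169 .nil (.cons 190 169 .nil .nil)) .nil))) .nil)), [], [53]⟩,
   ⟨53, 0, 44, 43, 222, (.cons 210 189 (.exit 0) (.cons 210 189 (.cons 190 208 .nil .nil) (.cons 210 189 (.cons 189 188 (.cons 188 207 (.cons 207 188 .nil (.cons 207 188 .nil .nil)) .nil) (.cons 189 188 .nil .nil)) (.cons 210 189 (.cons 189 188 (.cons 188 207 (.cons 207 188 .nil (.cons 207 188 .nil (.cons 207 188 .nil .nil))) .nil) (.cons 189 188 (.cons 188 207 (.cons 207 188 .nil .nil) .nil) (.cons 189 188 .nil .nil)))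 .nil)))), [], [54]⟩]

theorem oWWU_4 : grpWU WWW SWW kWWU_3 gWWU_4 = true := by decide +kernel

theorem wWWU_4 : wpU WWW gWWU_4 = true := by decide +kernel

/-- the pairs proved -/
def kWWU_4 : List Mo := keysWU gWWU_4 kWWU_3

theorem cWWU_4 : CU WWW SWW kWWU_0 kWWU_4 := .grp cWWU_3 gWWU_4 oWWU_4 wWWU_4

/-- items -/
def gWWU_5 : List WU :=
  [⟨13, 0, 40, 21, 0, (.cons 170 192 (.cons 210 231 .nil (.cons 210 231 .nil .nil)) (.cons 210 231 (.exit 0) (.cons 210 231 .nil (.cons 148 169 (.cons 170 192 .nil (.cons 210 231 .nil .nil)) .nil)))), [14], []⟩,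
   ⟨14, 0, 41, 22, 0, (.cons 149 171 .nil (.cons 210 211 (.exit 0) .nil)), [15], []⟩,
   ⟨15, 0, 42, 22, 0, (.cons 189 171 .nil (.cons 210 231 (.exit 0) .nil)), [16], []⟩,
   ⟨16, 0, 43, 23, 0, (.cons 210 230 (.exit 0) (.cons 210 231 (.cons 250 272 .nil (.cons 192 213 .nil .nil)) .nil)), [17], []⟩,
   ⟨17, 0, 43, 24, 0, (.cons 210 231 (.exit 0) (.cons 167 188 .nil .nil)), [18], []⟩,
   ⟨18, 0, 44, 25, 0, (.cons 210 230 (.exit 0) (.cons 167 188 (.cons 209 231 .nil .nil) (.cons 210 230 (.cons 230 251 (.cons 250 272 .nil .nil) (.cons 230 251 (.cons 250 272 .nil .nil) .nil)) .nil))), [19], []⟩,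
   ⟨19, 0, 44, 26, 0, (.cons 210 231 (.exit 0) (.cons 210 231 (.cons 230 252 .nil .nil) .nil)), [20], []⟩,
   ⟨20, 0, 45, 27, 0, (.cons 210 230 (.exit 0) (.cons 210 230 (.cons 230 251 (.cons 250 272 .nil .nil) (.cons 230 251 (.cons 250 272 .nil .nil) .nil)) .nil)), [21], []⟩,
   ⟨21, 0, 45, 28, 0, (.cons 210 231 (.exit 0) (.cons 210 231 (.cons 230 252 .nil .nil) .nil)), [22], []⟩,
   ⟨22, 0, 46, 29, 0, (.cons 210 230 (.exit 0) (.cons 210 231 (.cons 192 213 .nil (.cons 168 190 .nil .nil)) .nil)), [23], []⟩,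
   ⟨23, 0, 46, 30, 0, (.cons 210 231 (.cons 230 252 .nil .nil) (.cons 210 231 (.exit 0) (.cons 210 231 (.cons 230 252 .nil .nil) .nil))), [24], []⟩,
   ⟨24, 0, 47, 31, 0, (.cons 210 230 (.exit 0) (.cons 210 231 (.cons 250 272 .nil (.cons 192 213 .nil .nil)) .nil)), [25], []⟩,
   ⟨25, 0, 47, 32, 0, (.cons 210 231 (.cons 230 252 .nil .nil) (.cons 210 231 (.exit 0) (.cons 210 231 (.cons 230 252 .nil .nil) .nil))), [26], []⟩,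
   ⟨26, 0, 48, 33, 0, (.cons 210 230 (.exit 0) (.cons 210 230 (.cons 230 251 (.cons 250 272 .nil .nil) (.cons 230 251 (.cons 250 272 .nil .nil) .nil)) .nil)), [27], []⟩,
   ⟨27, 0, 48, 34, 0, (.cons 210 231 (.exit 0) (.cons 210 231 (.cons 230 252 .nil .nil) .nil)), [28], []⟩,
   ⟨28, 0, 49, 35, 0, (.cons 210 230 (.exit 0) (.cons 210 230 (.cons 230 251 (.cons 250 272 .nil .nil) (.cons 230 251 (.cons 250 272 .nil .nil) .nil)) .nil)), [29], []⟩,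
   ⟨29, 0, 49, 36, 0, (.cons 210 231 (.exit 0) (.cons 210 231 (.cons 230 252 .nil .nil) .nil)), [30], []⟩,
   ⟨30, 0, 50, 37, 0, (.cons 210 230 (.exit 0) (.cons 210 231 (.cons 192 213 .nil (.cons 168 190 .nil .nil)) .nil)), [31], []⟩,
   ⟨31, 0, 50, 38, 0, (.cons 210 231 (.cons 230 252 .nil .nil) (.cons 210 231 (.exit 0) (.cons 210 231 (.cons 230 252 .nil .nil) .nil))), [32], []⟩,
   ⟨32, 0, 51, 39, 0, (.cons 210 230 (.exit 0) (.cons 210 231 (.cons 250 272 .nil (.cons 192 213 .nil .nil)) .nil)), [33], []⟩]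

theorem oWWU_5 : grpWU WWW SWW kWWU_4 gWWU_5 = true := by decide +kernel

theorem wWWU_5 : wpU WWW gWWU_5 = true := by decide +kernel

/-- the pairs proved -/
def kWWU_5 : List Mo := keysWU gWWU_5 kWWU_4

theorem cWWU_5 : CU WWW SWW kWWU_0 kWWU_5 := .grp cWWU_4 gWWU_5 oWWU_5 wWWU_5

/-- items -/
def gWWU_6 : List WU :=
  [⟨0, 0, 40, 8, 0, (.cons 210 230 (.exit 0) (.cons 189 169 (.cons 190 231 .nil .nil) (.cons 210 231 (.cons 212 233 .nil (.cons 211 233 .nil .nil)) .nil))), [1], []⟩,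
   ⟨1, 0, 40, 9, 0, (.cons 170 192 (.cons 169 171 .nil (.cons 191 169 .nil .nil)) (.cons 210 231 (.exit 0) (.cons 210 231 (.cons 249 250 .nil .nil) (.cons 191 169 (.cons 170 192 .nil (.cons 168 169 .nil .nil)) .nil)))), [2], []⟩,
   ⟨2, 0, 41, 10, 0, (.cons 149 171 (.cons 228 229 .nil .nil) (.cons 210 230 (.exit 0) (.cons 210 229 (.cons 209 250 .nil .nil) .nil))), [3], []⟩,
   ⟨3, 0, 41, 11, 0, (.cons 210 229 (.exit 0) (.cons 208 188 (.cons 210 229 (.cons 209 250 .nil .nil) .nil) .nil)), [4], []⟩,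
   ⟨4, 0, 40, 12, 0, (.cons 210 230 (.exit 0) (.cons 189 169 (.cons 190 231 .nil .nil) (.cons 210 231 (.cons 212 233 .nil (.cons 211 233 .nil .nil)) .nil))), [5], []⟩,
   ⟨5, 0, 40, 13, 0, (.cons 170 192 (.cons 169 171 .nil (.cons 191 169 .nil .nil)) (.cons 210 231 (.exit 0) (.cons 210 231 (.cons 231 250 .nil .nil) (.cons 191 169 (.cons 170 192 .nil (.cons 168 169 .nil .nil)) .nil)))), [6], []⟩,
   ⟨6, 0, 41, 14, 0, (.cons 149 171 (.cons 210 229 .nil .nil) (.cons 210 230 (.exit 0) (.cons 210 229 .nil .nil))), [7], []⟩,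
   ⟨7, 0, 41, 15, 0, (.cons 210 229 (.exit 0) (.cons 208 188 (.cons 210 229 (.cons 229 250 .nil .nil) .nil) .nil)), [8], []⟩,
   ⟨8, 0, 40, 16, 0, (.cons 210 230 (.exit 0) (.cons 189 169 (.cons 210 231 .nil .nil) (.cons 210 231 .nil .nil))), [9], []⟩,
   ⟨9, 0, 40, 17, 0, (.cons 170 192 (.cons 169 171 .nil (.cons 191 169 .nil .nil)) (.cons 210 231 (.exit 0) (.cons 191 169 (.cons 210 191 .nil (.cons 168 169 .nil .nil)) (.cons 191 169 (.cons 210 191 .nil (.cons 168 169 .nil .nil)) .nil)))), [10], []⟩,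
   ⟨10, 0, 41, 18, 0, (.cons 149 171 (.cons 210 231 (.cons 231 250 .nil .nil) (.cons 270 229 (.cons 210 229 .nil .nil) (.cons 210 230 (.cons 230 249 .nil (.cons 230 249 .nil .nil)) .nil))) (.cons 210 230 (.exit 0) (.cons 210 231 (.cons 231 250 .nil .nil) (.cons 210 230 (.cons 230 249 .nil (.cons 230 249 .nil .nil)) (.cons 210 230 (.cons 230 249 .nil (.cons 230 249 .nil .nil)) .nil))))), [11], []⟩,
   ⟨11, 0, 41, 19, 0, (.cons 189 171 (.cons 210 229 .nil (.cons 208 188 .nil .nil)) (.cons 210 229 .nil (.cons 210 229 (.exit 0) (.cons 208 188 (.cons 210 229 .nil (.cons 210 229 .nil .nil)) .nil)))), [12], []⟩,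
   ⟨12, 0, 40, 20, 0, (.cons 210 230 (.exit 0) (.cons 189 169 .nil .nil)), [13], []⟩]

theorem oWWU_6 : grpWU WWW SWW kWWU_5 gWWU_6 = true := by decide +kernel

theorem wWWU_6 : wpU WWW gWWU_6 = true := by decide +kernel

/-- the pairs proved -/
def kWWU_6 : List Mo := keysWU gWWU_6 kWWU_5

theorem cWWU_6 : CU WWW SWW kWWU_0 kWWU_6 := .grp cWWU_5 gWWU_6 oWWU_6 wWWU_6

/-- the pairs at the exit -/
def kWWL_0 : List Mo := [⟨89, 1⟩]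

theorem cWWL_0 : CL WWW SWW kWWL_0 kWWL_0 := .nil

/-- items -/
def gWWL_1 : List WL :=
  [⟨64, 1, 37, 49, 102, 0, 174, 192, 192, 229, 65, 0, 0⟩,
   ⟨65, 1, 36, 50, 82, 0, 174, 192, 192, 230, 66, 0, 0⟩,
   ⟨66, 1, 36, 51, 62, 0, 153, 171, 171, 231, 67, 0, 0⟩,
   ⟨67, 1, 37, 52, 42, 0, 151, 169, 169, 230, 68, 0, 0⟩,
   ⟨68, 1, 37, 53, 0, 0, 130, 169, 169, 231, 69, 0, 0⟩,
   ⟨69, 1, 38, 54, 0, 0, 128, 169, 169, 211, 70, 0, 0⟩,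
   ⟨70, 1, 39, 54, 0, 0, 147, 188, 188, 231, 71, 0, 0⟩,
   ⟨71, 1, 40, 55, 0, 0, 147, 188, 188, 211, 72, 0, 0⟩,
   ⟨72, 1, 41, 55, 0, 0, 166, 188, 188, 231, 73, 0, 0⟩,
   ⟨73, 1, 42, 56, 0, 0, 166, 188, 188, 230, 74, 0, 0⟩,
   ⟨74, 1, 42, 57, 0, 0, 147, 169, 169, 229, 75, 0, 0⟩,
   ⟨75, 1, 41, 58, 0, 0, 149, 171, 171, 230, 76, 0, 0⟩,
   ⟨76, 1, 41, 59, 0, 0, 130, 171, 171, 229, 77, 0, 0⟩,
   ⟨77, 1, 40, 60, 0, 0, 132, 171, 171, 230, 78, 0, 0⟩,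
   ⟨78, 1, 40, 61, 0, 0, 132, 171, 171, 231, 79, 0, 0⟩,
   ⟨79, 1, 41, 62, 0, 0, 130, 169, 169, 230, 80, 0, 0⟩,
   ⟨80, 1, 41, 63, 0, 0, 130, 169, 169, 229, 81, 0, 0⟩,
   ⟨81, 1, 40, 64, 0, 0, 130, 171, 171, 230, 82, 0, 0⟩,
   ⟨82, 1, 40, 65, 0, 0, 130, 171, 171, 231, 83, 0, 0⟩,
   ⟨83, 1, 41, 66, 0, 0, 130, 169, 169, 230, 84, 0, 0⟩,
   ⟨84, 1, 41, 67, 0, 0, 130, 169, 169, 229, 85, 0, 0⟩,
   ⟨85, 1, 40, 68, 0, 0, 130, 171, 171, 230, 86, 0, 0⟩,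
   ⟨86, 1, 40, 69, 0, 0, 130, 171, 171, 231, 87, 0, 0⟩,
   ⟨87, 1, 41, 70, 0, 0, 130, 169, 169, 230, 88, 0, 0⟩,
   ⟨88, 1, 41, 71, 0, 0, 130, 169, 169, 229, 89, 0, 0⟩]

theorem oWWL_1 : grpWL WWW SWW kWWL_0 gWWL_1 = true := by decide +kernel

theorem wWWL_1 : wpL WWW gWWL_1 = true := by decide +kernel

/-- the pairs proved -/
def kWWL_1 : List Mo := keysWL gWWL_1 kWWL_0

theorem cWWL_1 : CL WWW SWW kWWL_0 kWWL_1 := .grp cWWL_0 gWWL_1 oWWL_1 wWWL_1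

/-- items -/
def gWWL_2 : List WL :=
  [⟨39, 0, 54, 46, 0, 0, 128, 169, 169, 229, 40, 0, 0⟩,
   ⟨40, 0, 53, 47, 0, 0, 130, 171, 171, 230, 41, 0, 0⟩,
   ⟨41, 0, 53, 48, 0, 0, 130, 171, 171, 229, 42, 0, 0⟩,
   ⟨42, 0, 52, 49, 0, 0, 132, 171, 171, 209, 43, 0, 0⟩,
   ⟨43, 0, 51, 49, 0, 0, 153, 192, 192, 229, 44, 0, 0⟩,
   ⟨44, 0, 50, 50, 0, 0, 153, 192, 192, 209, 45, 0, 0⟩,
   ⟨45, 0, 49, 50, 0, 0, 174, 192, 192, 189, 46, 0, 0⟩,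
   ⟨46, 0, 48, 49, 0, 0, 214, 232, 232, 190, 47, 0, 0⟩,
   ⟨47, 0, 48, 48, 0, 0, 233, 251, 251, 189, 48, 0, 0⟩,
   ⟨48, 0, 47, 47, 142, 0, 273, 251, 251, 209, 49, 0, 0⟩,
   ⟨49, 0, 46, 47, 142, 0, 273, 232, 232, 189, 50, 0, 0⟩,
   ⟨50, 0, 45, 46, 162, 0, 273, 232, 232, 190, 51, 0, 0⟩,
   ⟨51, 0, 45, 45, 182, 0, 273, 251, 251, 189, 52, 0, 0⟩,
   ⟨52, 0, 44, 44, 202, 0, 273, 251, 251, 190, 53, 0, 0⟩,
   ⟨53, 0, 44, 43, 222, 0, 292, 251, 251, 189, 54, 0, 0⟩,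
   ⟨54, 0, 43, 42, 242, 0, 292, 251, 251, 209, 55, 0, 0⟩,
   ⟨55, 0, 41, 42, 242, 0, 274, 233, 233, 230, 56, 0, 0⟩,
   ⟨56, 0, 41, 43, 222, 0, 233, 192, 192, 229, 57, 0, 0⟩,
   ⟨57, 0, 40, 44, 202, 3, 0, 0, 0, 230, 58, 0, 0⟩,
   ⟨58, 1, 40, 45, 182, 0, 153, 171, 171, 231, 59, 0, 0⟩,
   ⟨59, 1, 40, 46, 162, 0, 154, 193, 193, 231, 60, 0, 0⟩,
   ⟨60, 1, 40, 47, 142, 0, 131, 170, 170, 230, 61, 0, 0⟩,
   ⟨61, 1, 40, 48, 122, 0, 153, 171, 171, 209, 62, 0, 0⟩,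
   ⟨62, 1, 39, 48, 122, 0, 151, 192, 192, 229, 63, 0, 0⟩,
   ⟨63, 1, 38, 49, 102, 0, 153, 192, 192, 209, 64, 0, 0⟩]

theorem oWWL_2 : grpWL WWW SWW kWWL_1 gWWL_2 = true := by decide +kernel

theorem wWWL_2 : wpL WWW gWWL_2 = true := by decide +kernel

/-- the pairs proved -/
def kWWL_2 : List Mo := keysWL gWWL_2 kWWL_1

theorem cWWL_2 : CL WWW SWW kWWL_0 kWWL_2 := .grp cWWL_1 gWWL_2 oWWL_2 wWWL_2

/-- items -/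
def gWWL_3 : List WL :=
  [⟨14, 0, 41, 22, 0, 0, 130, 169, 169, 211, 15, 0, 0⟩,
   ⟨15, 0, 42, 22, 0, 0, 149, 188, 188, 231, 16, 0, 0⟩,
   ⟨16, 0, 43, 23, 0, 0, 147, 188, 188, 230, 17, 0, 0⟩,
   ⟨17, 0, 43, 24, 0, 0, 147, 169, 169, 231, 18, 0, 0⟩,
   ⟨18, 0, 44, 25, 0, 0, 147, 169, 169, 230, 19, 0, 0⟩,
   ⟨19, 0, 44, 26, 0, 0, 128, 169, 169, 231, 20, 0, 0⟩,
   ⟨20, 0, 45, 27, 0, 0, 128, 169, 169, 230, 21, 0, 0⟩,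
   ⟨21, 0, 45, 28, 0, 0, 128, 169, 169, 231, 22, 0, 0⟩,
   ⟨22, 0, 46, 29, 0, 0, 128, 169, 169, 230, 23, 0, 0⟩,
   ⟨23, 0, 46, 30, 0, 0, 128, 169, 169, 231, 24, 0, 0⟩,
   ⟨24, 0, 47, 31, 0, 0, 128, 169, 169, 230, 25, 0, 0⟩,
   ⟨25, 0, 47, 32, 0, 0, 128, 169, 169, 231, 26, 0, 0⟩,
   ⟨26, 0, 48, 33, 0, 0, 128, 169, 169, 230, 27, 0, 0⟩,
   ⟨27, 0, 48, 34, 0, 0, 128, 169, 169, 231, 28, 0, 0⟩,
   ⟨28, 0, 49, 35, 0, 0, 128, 169, 169, 230, 29, 0, 0⟩,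
   ⟨29, 0, 49, 36, 0, 0, 128, 169, 169, 231, 30, 0, 0⟩,
   ⟨30, 0, 50, 37, 0, 0, 128, 169, 169, 230, 31, 0, 0⟩,
   ⟨31, 0, 50, 38, 0, 0, 128, 169, 169, 231, 32, 0, 0⟩,
   ⟨32, 0, 51, 39, 0, 0, 128, 169, 169, 230, 33, 0, 0⟩,
   ⟨33, 0, 51, 40, 0, 0, 128, 169, 169, 231, 34, 0, 0⟩,
   ⟨34, 0, 52, 41, 0, 0, 128, 169, 169, 230, 35, 0, 0⟩,
   ⟨35, 0, 52, 42, 0, 0, 128, 169, 169, 231, 36, 0, 0⟩,
   ⟨36, 0, 53, 43, 0, 0, 128, 169, 169, 230, 37, 0, 0⟩,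
   ⟨37, 0, 53, 44, 0, 0, 128, 169, 169, 231, 38, 0, 0⟩,
   ⟨38, 0, 54, 45, 0, 0, 128, 169, 169, 230, 39, 0, 0⟩]

theorem oWWL_3 : grpWL WWW SWW kWWL_2 gWWL_3 = true := by decide +kernel

theorem wWWL_3 : wpL WWW gWWL_3 = true := by decide +kernel

/-- the pairs proved -/
def kWWL_3 : List Mo := keysWL gWWL_3 kWWL_2

theorem cWWL_3 : CL WWW SWW kWWL_0 kWWL_3 := .grp cWWL_2 gWWL_3 oWWL_3 wWWL_3

/-- items -/
def gWWL_4 : List WL :=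
  [⟨1, 0, 40, 9, 0, 0, 130, 171, 171, 231, 2, 0, 0⟩,
   ⟨2, 0, 41, 10, 0, 0, 130, 169, 169, 230, 3, 0, 0⟩,
   ⟨3, 0, 41, 11, 0, 0, 130, 169, 169, 229, 4, 0, 0⟩,
   ⟨4, 0, 40, 12, 0, 0, 130, 171, 171, 230, 5, 0, 0⟩,
   ⟨5, 0, 40, 13, 0, 0, 130, 171, 171, 231, 6, 0, 0⟩,
   ⟨6, 0, 41, 14, 0, 0, 130, 169, 169, 230, 7, 0, 0⟩,
   ⟨7, 0, 41, 15, 0, 0, 130, 169, 169, 229, 8, 0, 0⟩,
   ⟨8, 0, 40, 16, 0, 0, 130, 171, 171, 230, 9, 0, 0⟩,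
   ⟨9, 0, 40, 17, 0, 0, 130, 171, 171, 231, 10, 0, 0⟩,
   ⟨10, 0, 41, 18, 0, 0, 130, 169, 169, 230, 11, 0, 0⟩,
   ⟨11, 0, 41, 19, 0, 0, 130, 169, 169, 229, 12, 0, 0⟩,
   ⟨12, 0, 40, 20, 0, 0, 130, 171, 171, 230, 13, 0, 0⟩,
   ⟨13, 0, 40, 21, 0, 0, 130, 171, 171, 231, 14, 0, 0⟩]

theorem oWWL_4 : grpWL WWW SWW kWWL_3 gWWL_4 = true := by decide +kernel

theorem wWWL_4 : wpL WWW gWWL_4 = true := by decide +kernel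

/-- the pairs proved -/
def kWWL_4 : List Mo := keysWL gWWL_4 kWWL_3

theorem cWWL_4 : CL WWW SWW kWWL_0 kWWL_4 := .grp cWWL_3 gWWL_4 oWWL_4 wWWL_4

/-- the first item of the lower bound -/
def uWW : WL := ⟨0, 0, 40, 8, 0, 0, 130, 171, 171, 230, 1, 0, 0⟩

/-- **The certificate of the window.** -/
theorem WWW_cert : WinC WWW SWW 0 89 :=
  ⟨WWW_ok, ⟨kWWU_6, cWWU_6, by decide +kernel⟩,
    ⟨kWWL_4, uWW, cWWL_4, rfl, rfl, rfl, rfl, by decide +kernel⟩⟩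

end Pool.Agent.Lib.H32C.Loc
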