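import Pool.Agent.Lib.H32C.WldD

/-!
# The world of a program: the positions at the labels are finite positions
-/

set_option autoImplicit false

namespace Pool.Agent.Lib.H32C.Ly

open Loc

/-- the facts about the Black king and about checks -/
structure FinFacts (D : TD) : Prop where
  /-- the White king is not in check if it leaves a tile `U` -/
  nock : ∀ O F, Fits (D.ar 4) O F → ¬ InCheck (stB F O (Loc.ext Dir.U)) true
  /-- the Black king -/
  bkX : ∃ X0 Y0 : ℕ, 8 ≤ X0 ∧ X0 < 72 ∧ 8 ≤ Y0 ∧ Y0 < 72 ∧ codeA (D.ar 39) X0 Y0 = 14 ∧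
    ∀ X Y : ℕ, 8 ≤ X → X < 72 → 8 ≤ Y → Y < 72 → codeA (D.ar 39) X Y = 14 → X = X0 ∧ Y = Y0
  /-- no other Black king -/
  bk : ∀ k, k < 42 → k ≠ 39 → ∀ X Y : ℕ, 8 ≤ X → X < 72 → 8 ≤ Y → Y < 72 → codeA (D.ar k) X Y ≠ 14

/-- a check for `FinFacts.nock`; `L` is the state -/
def nockOk (A : ℕ) (L : List Pc) : Bool :=
  ands [Nat.beq (headC L) 6, pcsOk A (headX L) (headY L) L,
    cellsOk (pat A (headX L) (headY L) L) 210 400, Nat.ble 8 (headX L), Nat.ble (headX L) 72,
    Nat.ble 8 (headY L), Nat.ble (headY L) 72, safe [] (pat A (headX L) (headY L) L) 210]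

theorem nock_of {A : ℕ} {L : List Pc} (h : nockOk A L = true) (O : Sq) (F : Board) (hF : Fits A O F) :
    ¬ InCheck (stB F O L) true := by
  unfold nockOk at h
  rw [TS3_ands_cons, TS3_ands_cons, TS3_ands_cons, TS3_ands_cons, TS3_ands_cons, TS3_ands_cons,
    TS3_ands_cons, TS3_ands_cons] at h
  obtain ⟨h1, h2, h3, h4, h5, h6, h7, h8, -⟩ := h
  have g1 := Nat.eq_of_beq_eq_true h1
  have g4 := Nat.le_of_ble_eq_true h4
  have g5 := Nat.le_of_ble_eq_true h5
  have g6 := Nat.le_of_ble_eq_true h6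
  have g7 := Nat.le_of_ble_eq_true h7
  rw [← brd_pat hF ⟨g4, g5⟩ ⟨g6, g7⟩ h2]
  exact safe_noCheck (ctx_ok hF.noK _ _) (wf_pat ⟨g4, g5⟩ ⟨g6, g7⟩ h2 rfl rfl g1 h3) h8

/-- the tiles below the labels -/
def k12 : Bool := allN (fun r => Nat.beq (kdt (Nat.add 66 r) 6) 4) 19 && Nat.beq (kdt 26 6) 4

theorem k12_true : k12 = true := by decide +kernel

variable (P : Prog)

theorem label_kd {m : ℕ} (hm : m < P.n) : kd P (lp P.n m) (lo P.n m - 1) = 4 := by
  have h0 := k12_true
  unfold k12 at h0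
  rw [Bool.and_eq_true] at h0
  rcases Nat.eq_zero_or_pos m with rfl | h1
  · have e : lo P.n 0 - 1 = 25 + P.n := by unfold lo; omega
    have hi : lp P.n 0 < nx P.n := by unfold lp nx; omega
    rw [e, kd_m, kdt_gr (by decide) (by decide) (by decide) (cx_lt hi),
      cx_l (by unfold lp; omega) (by unfold lp; omega)]
    split_ifs <;> exact Nat.eq_of_beq_eq_true h0.2
  · have e : lo P.n m - 1 = 27 + P.n + 2 * (m - 1) := by unfold lo; omega
    rw [e, kd_up P (show m - 1 < P.n by omega), cx_l (by unfold lp; omega) (by unfold lp; omega),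
      if_pos (by unfold lp; omega)]
    exact Nat.eq_of_beq_eq_true ((allN_iff _ _).1 h0.1 _ (ic_lt _))

/-- a code `14` in the world -/
theorem code_bk {D : TD} (hf : FinFacts D) {s : Sq} (h : (wld D P).code s.1 s.2 = 14) :
    ∃ X Y : ℕ, 8 ≤ X ∧ X < 72 ∧ 8 ≤ Y ∧ Y < 72 ∧ s = tsq (World.org 0 0) X Y ∧
      codeA (D.ar 39) X Y = 14 := by
  unfold World.code at h
  split_ifs at h with g
  obtain ⟨g1, g2, g3, g4⟩ := g
  simp only [wld] at h g2 g4
  have hi : (s.1 / 64).toNat < nx P.n := by omega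
  have hj : (s.2 / 64).toNat < ny P.n := by omega
  have hX : (s.1 % 64).toNat + 8 < 72 := by omega
  have hY : (s.2 % 64).toNat + 8 < 72 := by omega
  by_cases hk : kd P (s.1 / 64).toNat (s.2 / 64).toNat = 39
  · obtain ⟨e1, e2⟩ := room_pos P hi hj hk
    refine ⟨_, _, by omega, hX, by omega, hY, ?_, by rw [hk] at h; exact h⟩
    apply Prod.ext
    · show s.1 = 64 * ((0 : ℕ) : ℤ) - 8 + (((s.1 % 64).toNat + 8 : ℕ) : ℤ)
      omega
    · show s.2 = 64 * ((0 : ℕ) : ℤ) - 8 + (((s.2 % 64).toNat + 8 : ℕ) : ℤ)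
      omega
  · exact absurd h (hf.bk _ (kd_lt P hi hj) hk _ _ (by omega) hX (by omega) hY)

theorem dec_bk : ∀ c < 16, dec c = some (false, Kind.king) → c = 14 := by
  decide

theorem code_lt (W : World) (x y : ℤ) : W.code x y < 16 := by
  unfold World.code
  split_ifs
  · exact WA_codeA_lt _ _ _
  · decide

/-- the value of the full board at cells of the room -/
theorem FB_room {c : Offs} (hc : c.Ok2) {D : TD} (hD : D.Ok3) {μ : Option ℕ}
    {x : Option (ℕ × ℕ)} {F : Far} (hF : FarOk (geo c P.n) F) {X Y : ℕ} (hX : 8 ≤ X) (hX2 : X < 72)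
    (hY : 8 ≤ Y) (hY2 : Y < 72) (hne : codeA (D.ar 39) X Y ≠ 15) :
    FB P c D μ x F (tsq (World.org 0 0) X Y) = dec (codeA (D.ar 39) X Y) := by
  have h0 : 0 < nx P.n := by unfold nx; omega
  have h0' : 0 < ny P.n := by unfold ny; omega
  have hcode := World.code_in (W := wld D P) (i := 0) (j := 0) h0 h0' hX hX2 hY hY2
  have e : (wld D P).code (tsq (World.org 0 0) X Y).1 (tsq (World.org 0 0) X Y).2 =
      codeA (D.ar 39) X Y := by
    rw [← kd00 P]
    exact hcode
  have hocc : ¬ Occ (geo c P.n) F (tsq (World.org 0 0) X Y) := by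
    have hG := geo_ok hc.toOk P.n
    obtain ⟨⟨f1, f2, f3, f4⟩, f5⟩ := hF
    have e1 : (tsq (World.org 0 0) X Y).1 = 64 * ((0 : ℕ) : ℤ) - 8 + X := rfl
    have e2 : (tsq (World.org 0 0) X Y).2 = 64 * ((0 : ℕ) : ℤ) - 8 + Y := rfl
    obtain ⟨o1, o2, o3, o4, o5, o6, o7, o8, o9, o10⟩ := hc.toOk
    have o13 := hc.hx1
    have o17 := hc.m2
    rintro (h1 | h1 | ⟨q, h1⟩)
    · have := floater_above hG h1
      rw [e2] at this
      simp only [geo] at this
      omega
    · have g2 := congrArg Prod.snd h1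
      rw [e2] at g2
      rcases f5 with (f5 | ⟨x, f6, f5⟩) | ⟨x, f6, f7, f5⟩ <;> rw [f5] at g2
      · simp only [FGeo.hb, geo] at g2; omega
      · simp only [FGeo.out, geo] at g2; omega
      · simp only [FGeo.se, geo] at g2 f7; omega
    · have h2 := f3 q
      rw [← h1] at h2
      unfold FGeo.Outside at h2
      rw [e1, e2] at h2
      simp only [geo, FGeo.c1, colq] at h2
      omega
  have h3 : FB P c D μ x F (tsq (World.org 0 0) X Y) = resB P D μ x (tsq (World.org 0 0) X Y) := by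
    unfold FB fullB farB
    unfold Occ at hocc
    rw [if_neg (fun h => hocc (by obtain ⟨q, -, h⟩ := h; exact Or.inr (Or.inr ⟨q, h⟩))),
      if_neg (fun h => hocc (Or.inr (Or.inl h.2))), if_neg (fun h => hocc (Or.inl h))]
  rw [h3, resB_of_code P hD.toOk2 (by rw [e]; exact hne)]
  change dec _ = _
  rw [e]

/-- the Black king in the full board -/
theorem FB_bk {c : Offs} {D : TD} (hf : FinFacts D) {μ : Option ℕ} {x : Option (ℕ × ℕ)} {F : Far}
    {s : Sq} (h : FB P c D μ x F s = some (false, Kind.king)) :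
    ∃ X Y : ℕ, 8 ≤ X ∧ X < 72 ∧ 8 ≤ Y ∧ Y < 72 ∧ s = tsq (World.org 0 0) X Y ∧
      codeA (D.ar 39) X Y = 14 := by
  unfold FB fullB farB at h
  split_ifs at h with g1 g2 g3
  · simp at h
  · simp at h
  · simp at h
  unfold resB at h
  split_ifs at h with g4 g5
  · simp at h
  · simp at h
  exact code_bk P hf (dec_bk _ (code_lt _ _ _) h)

theorem finite_stB {F : Board} (h : {s | F s ≠ none}.Finite) (O : Sq) (L : List Pc) :
    {s | stB F O L s ≠ none}.Finite := by
  refine (h.union ((List.finite_toSet L).image fun q => tsq O q.x q.y)).subset ?_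
  intro s hs
  change stB F O L s ≠ none at hs
  unfold stB at hs
  cases hf : L.find? (fun q => decide (tsq O q.x q.y = s)) with
  | none =>
    rw [hf] at hs
    exact Or.inl hs
  | some q =>
    right
    refine ⟨q, List.mem_of_find?_eq_some hf, ?_⟩
    have := List.find?_some hf
    simpa using this

/-- the square of a station is determined -/
theorem finite_resB (D : TD) (μ : Option ℕ) (x : Option (ℕ × ℕ)) :
    {s | resB P D μ x s ≠ none}.Finite := by
  have h1 : {s : Sq | ∃ k, Res P D μ x k s}.Finite := by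
    refine (((Set.finite_Iio (nx P.n)).prod (Set.finite_Iio (ny P.n))).image
      fun a : ℕ × ℕ => sqA (World.org a.1 a.2) (stn P D μ a.1 a.2)).subset ?_
    rintro s ⟨k, i, j, hi, hj, -, -, rfl⟩
    exact ⟨(i, j), ⟨hi, hj⟩, rfl⟩
  refine (h1.union (wld D P).finite).subset ?_
  intro s hs
  change resB P D μ x s ≠ none at hs
  unfold resB at hs
  by_cases g1 : Res P D μ x 11 s
  · exact Or.inl ⟨11, g1⟩
  by_cases g2 : Res P D μ x 12 s
  · exact Or.inl ⟨12, g2⟩
  rw [if_neg g1, if_neg g2] at hs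
  exact Or.inr hs

theorem finite_FB {c : Offs} {D : TD} {μ : Option ℕ} {x : Option (ℕ × ℕ)} {F : Far} :
    {s | FB P c D μ x F s ≠ none}.Finite := by
  have h1 : {s | (geo c P.n).floater s}.Finite := by
    have : {s | (geo c P.n).floater s} ⊆ Set.range (fun a : Qn × Fin 4 =>
        match a.2 with
        | 0 => ((geo c P.n).col a.1 - (geo c P.n).j a.1 + 1, (geo c P.n).base a.1 - (geo c P.n).j a.1)
        | 1 => ((geo c P.n).col a.1 - (geo c P.n).j a.1 + 1,
            (geo c P.n).base a.1 - (geo c P.n).j a.1 - 1)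
        | 2 => ((geo c P.n).col a.1 - (geo c P.n).j a.1 - 1,
            (geo c P.n).base a.1 - (geo c P.n).j a.1 - 1)
        | 3 => ((geo c P.n).col a.1 - (geo c P.n).j a.1,
            (geo c P.n).base a.1 - (geo c P.n).j a.1 + 1)) := by
      rintro s ⟨q, h | h | h | h⟩
      · exact ⟨(q, 0), h.symm⟩
      · exact ⟨(q, 1), h.symm⟩
      · exact ⟨(q, 2), h.symm⟩
      · exact ⟨(q, 3), h.symm⟩
    have : Finite Qn := by
      have : Function.Injective (fun q : Qn => (match q with | Qn.A => 0 | Qn.B => 1 | Qn.C => 2 : Fin 3)) := by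
        intro a b h
        cases a <;> cases b <;> first | rfl | exact absurd h (by decide)
      exact Finite.of_injective _ this
    exact (Set.finite_range _).subset ‹_›
  have h2 : {s : Sq | ∃ q, s = F.q q}.Finite := by
    have : {s : Sq | ∃ q, s = F.q q} ⊆ {F.q Qn.A, F.q Qn.B, F.q Qn.C} := by
      rintro s ⟨q, rfl⟩
      cases q <;> simp
    exact (by simp : ({F.q Qn.A, F.q Qn.B, F.q Qn.C} : Set Sq).Finite).subset this
  refine (((h1.union h2).union (Set.finite_singleton F.b)).union (finite_resB P D μ x)).subset ?_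
  intro s hs
  change FB P c D μ x F s ≠ none at hs
  unfold FB fullB farB at hs
  split_ifs at hs with g1 g2 g3
  · obtain ⟨q, -, g1⟩ := g1
    exact Or.inl (Or.inl (Or.inr ⟨q, g1⟩))
  · exact Or.inl (Or.inr g2.2)
  · exact Or.inl (Or.inl (Or.inl g3))
  · exact Or.inr hs

theorem ext_U (F : Board) (O : Sq) (s : Sq) : stB F O (Loc.ext Dir.U) s =
    if s = tsq O 40 72 then some (true, Kind.king) else if s = tsq O 40 68 then some (false, Kind.knight)
      else if s = tsq O 40 69 then some (false, Kind.knight) else F s := by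
  unfold stB Loc.ext
  by_cases h1 : tsq O 40 72 = s
  · rw [List.find?_cons_of_pos (by simpa using h1), if_pos h1.symm]
    rfl
  rw [List.find?_cons_of_neg (by simpa using h1), if_neg (fun h => h1 h.symm)]
  by_cases h2 : tsq O 40 68 = s
  · rw [List.find?_cons_of_pos (by simpa using h2), if_pos h2.symm]
    rfl
  rw [List.find?_cons_of_neg (by simpa using h2), if_neg (fun h => h2 h.symm)]
  by_cases h3 : tsq O 40 69 = s
  · rw [List.find?_cons_of_pos (by simpa using h3), if_pos h3.symm]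
    rfl
  rw [List.find?_cons_of_neg (by simpa using h3), if_neg (fun h => h3 h.symm)]
  rfl

/-- **The positions at the labels are finite positions.** -/
theorem label_fin {c : Offs} (hc : c.Ok2) {D : TD} (hD : D.Ok3) (hf : FinFacts D) {m : ℕ} {F : Far}
    (hm : m < P.n) (hF : FarOk (geo c P.n) F) :
    FinitePos (VVp P c D (lp P.n m) (lo P.n m) none F) := by
  have hi : lp P.n m < nx P.n := by unfold lp nx; omega
  have hj : lo P.n m - 1 < ny P.n := by unfold lo ny; omega
  have hk := label_kd P hm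
  have ho : out 4 2 = 2 := by decide +kernel
  have e := lea_eq P c D hi hj (d := 2) (by decide) (by rw [hk, ho]; decide) none F
  rw [hk, ho] at e
  have hkk : kingK (kd P (lp P.n m) (lo P.n m - 1)) = true := by rw [hk]; decide
  have f := fits_FB P hD.toOk2 hc (μ := none) (x := none) hF hi hj hkk
  rw [hk] at f
  have e0 : lo P.n m - 1 + 1 = lo P.n m := by unfold lo; omega
  have e' : VVp P c D (lp P.n m) (lo P.n m) none F =
      ⟨stB (FB P c D none none F) (World.org (lp P.n m) (lo P.n m - 1)) (Loc.ext Dir.U), false⟩ := by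
    rw [← e0]
    exact e
  rw [e']
  obtain ⟨k1, -, k3, -, -⟩ := king_pos P hi hj hkk
  refine ⟨finite_stB (finite_FB P) _ _, ?_, ?_, ?_⟩
  · refine ⟨tsq (World.org (lp P.n m) (lo P.n m - 1)) 40 72, ?_, ?_⟩
    · change stB _ _ _ _ = _
      rw [ext_U, if_pos rfl]
    · intro s hs
      change stB _ _ _ _ = _ at hs
      rw [ext_U] at hs
      split_ifs at hs with g1 g2 g3
      · exact g1
      · simp at hs
      · simp at hs
      · exact absurd hs (f.noK s).1
  · obtain ⟨X0, Y0, b1, b2, b3, b4, b5, b6⟩ := hf.bkX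
    have hne : ∀ a b : ℕ, tsq (World.org 0 0) X0 Y0 ≠ tsq (World.org (lp P.n m) (lo P.n m - 1)) a b := by
      intro a b h
      have := congrArg Prod.fst h
      change 64 * ((0 : ℕ) : ℤ) - 8 + (X0 : ℤ) = 64 * ((lp P.n m : ℕ) : ℤ) - 8 + (a : ℤ) at this
      have hl : 6 ≤ lp P.n m := by unfold lp; omega
      omega
    refine ⟨tsq (World.org 0 0) X0 Y0, ?_, ?_⟩
    · change stB _ _ _ _ = _
      rw [ext_U, if_neg (hne _ _), if_neg (hne _ _), if_neg (hne _ _),
        FB_room P hc hD hF b1 b2 b3 b4 (by rw [b5]; decide), b5]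
      rfl
    · intro s hs
      change stB _ _ _ _ = _ at hs
      rw [ext_U] at hs
      split_ifs at hs with g1 g2 g3
      · simp at hs
      · simp at hs
      · simp at hs
      · obtain ⟨X, Y, c1, c2, c3, c4, c5, c6⟩ := FB_bk P hf hs
        obtain ⟨rfl, rfl⟩ := b6 X Y c1 c2 c3 c4 c6
        exact c5
  · exact hf.nock _ _ f

end Pool.Agent.Lib.H32C.Ly
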