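import Pool.Agent.Lib.H32C.LayE
import Pool.Agent.Lib.H32C.WldF

/-!
# The world of a program: the reduction to the facts about tiles and the facts about services
-/

set_option autoImplicit false

namespace Pool.Agent.Lib.H32C.Ly

open Loc

/-- The facts about the services in the world of a program. -/
structure SvcFacts (P : Prog) (c : Offs) (D : TD) : Prop where
  /-- upper bound -/
  up : ∀ s m F, m < P.n → Inv (geo c P.n) s F → (∀ F', StepU (geo c P.n) s F F' → FBase (geo c P.n) F') →
    (∀ F', StepU (geo c P.n) s F F' →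
      HasValue (ent (VHp P c D) (VVp P c D) (exI P.n (sc s)) (exJ P.n (sc s)) (exD (sc s)) (some m) F')) →
    HasValue (ent (VHp P c D) (VVp P c D) (enI P.n (sc s)) (enJ P.n (sc s)) (enD (sc s)) (some m) F)
  /-- lower bound -/
  low : ∀ s m F F' β, m < P.n → Inv (geo c P.n) s F → StepL (geo c P.n) s F F' →
    FBase (geo c P.n) F' →
    GE (ent (VHp P c D) (VVp P c D) (exI P.n (sc s)) (exJ P.n (sc s)) (exD (sc s)) (some m) F') β →
    ¬ ValLE (ent (VHp P c D) (VVp P c D) (enI P.n (sc s)) (enJ P.n (sc s)) (enD (sc s)) (some m) F) β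

/-- table facts on the ports of the composite tiles -/
theorem port_tab : lpt 23 = 2 ∧ lpt 24 = 1 ∧ rpt 24 = 1 ∧ tpt 23 = 2 ∧ bpt 24 = 2 ∧ lpt 21 = 1 ∧
    rpt 21 = 1 ∧ rpt 22 = 1 ∧ lpt 20 = 1 := by
  decide +kernel

variable (P : Prog)

/-- **The facts about tiles and services give all facts about the world.** -/
theorem tileSys {c : Offs} (hc : c.Ok2) {D : TD} (hD : D.Ok3) {R : Room} (hR : RoomOk D R)
    {mem cho : ℕ} (hf : FinFacts D) (hT : Facts D R mem cho) (hS : SvcFacts P c D) :
    TileSys P (geo c P.n) (VHp P c D) (VVp P c D) := by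
  have hn := P.pos
  obtain ⟨t1, t2, t3, t4, t5, t6, t7, t8, t9⟩ := port_tab
  -- rows of bands
  have hlo : ∀ m, m < P.n → lo P.n m < ny P.n := by intro m hm; unfold lo ny; omega
  have hup : ∀ m, m < P.n → up P.n m < ny P.n := by intro m hm; unfold up ny; omega
  have hlu : ∀ m, up P.n m = lo P.n m + 1 := by intro m; unfold up lo; omega
  have hbm : ∀ m, bm P.n (lo P.n m) = m := by intro m; unfold bm lo; omega
  have hst : ∀ m i, kd P i (lo P.n m) = 24 → stn P D (some m) i (lo P.n m) = D.m := by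
    intro m i h
    unfold stn
    rw [if_pos ⟨h, by rw [hbm]⟩]
  have hst' : ∀ m i μ, kd P i (lo P.n m) = 24 → μ ≠ some m →
      stn P D μ i (lo P.n m) = D.r 24 := by
    intro m i μ h hμ
    unfold stn
    rw [if_neg (by rintro ⟨-, h2⟩; rw [hbm] at h2; exact hμ h2), h]
  have hking : ∀ {i j k : ℕ}, kd P i j = k → kingK k = true → i < nx P.n → j < ny P.n →
      i + 1 < nx P.n ∧ j + 1 < ny P.n := by
    intro i j k h1 h2 h3 h4
    rw [← h1] at h2
    obtain ⟨-, k2, -, k4, -⟩ := king_pos P h3 h4 h2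
    exact ⟨k2, k4⟩
  -- memories
  have hFM : ∀ {m i : ℕ} {μ : Option ℕ} {F : Far}, m < P.n → i < nx P.n → FarOk (geo c P.n) F →
      kd P i (lo P.n m) = 24 → FB P c D μ none F = FM (mtK D 24 144 mem)
        (FB P c D μ (some (i, lo P.n m)) F) (World.org i (lo P.n m))
        (stn P D μ i (lo P.n m)) := by
    intro m i μ F hm hi hF h
    have h1 := FB_FM P hD.toOk2 hc (μ := μ) hF hi (hlo m hm) (by rw [h]; exact hD.rk24) (H := 144)
      (A := mem) (st := D.sts 24)
    rw [h] at h1
    exact h1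
  have hMB : ∀ {m i : ℕ} {μ : Option ℕ} {F : Far}, m < P.n → i < nx P.n → FarOk (geo c P.n) F →
      kd P i (lo P.n m) = 24 → MBase (mtK D 24 144 mem) (World.org i (lo P.n m))
        (FB P c D μ (some (i, lo P.n m)) F) R := by
    intro m i μ F hm hi hF h
    have h1 := base_comp P hc hD hR (μ := μ) hF hi (hlo m hm) (by rw [h]; exact hD.rk24)
      (Or.inr h) (A := mem) (by rw [h]; exact hT.cmem)
    rw [h] at h1
    exact h1
  -- choices
  have hFM2 : ∀ {m i : ℕ} {F : Far}, m < P.n → i < nx P.n → FarOk (geo c P.n) F →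
      kd P i (lo P.n m) = 22 → FB P c D none none F = FM (mtK D 22 144 cho)
        (FB P c D none (some (i, lo P.n m)) F) (World.org i (lo P.n m)) (D.r 22) := by
    intro m i F hm hi hF h
    have h1 := FB_FM P hD.toOk2 hc (μ := none) hF hi (hlo m hm) (by rw [h]; exact hD.rk22) (H := 144)
      (A := cho) (st := D.sts 22)
    have h2 : stn P D none i (lo P.n m) = D.r 22 := by
      unfold stn
      rw [if_neg (by simp), h]
    rw [h, h2] at h1
    exact h1
  have hMB2 : ∀ {m i : ℕ} {F : Far}, m < P.n → i < nx P.n → FarOk (geo c P.n) F →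
      kd P i (lo P.n m) = 22 → MBase (mtK D 22 144 cho) (World.org i (lo P.n m))
        (FB P c D none (some (i, lo P.n m)) F) R := by
    intro m i F hm hi hF h
    have h1 := base_comp P hc hD hR (μ := none) hF hi (hlo m hm) (by rw [h]; exact hD.rk22)
      (Or.inl h) (A := cho) (by rw [h]; exact hT.ccho)
    rw [h] at h1
    exact h1
  -- lists in composite coordinates
  have hsh : ∀ (B : Board) (i m : ℕ) (L : List Pc), stB B (World.org i (up P.n m)) L =
      stB B (World.org i (lo P.n m)) (shp 0 64 L) := by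
    intro B i m L
    rw [hlu, org_up, stB_shp]
  refine ⟨?_, ?_, ?_, ?_, ?_, ?_, ?_, ?_, fun s m F hm => hS.up s m F hm,
    fun s m F F' β hm => hS.low s m F F' β hm⟩
  · -- fin
    intro m F hm hF
    exact label_fin P hc hD hf hm hF
  · -- wire
    intro i j d μ F hi hj hd hF ho
    rw [ent_eq P c D hi hj hd ho, lea_eq P c D hi hj hd ho]
    have hk := (port_out (kd_lt P hi hj) hd ho).2.2.2.2
    obtain ⟨k1, -, k3, -, -⟩ := king_pos P hi hj hk
    by_cases hr : D.rk (kd P i j) = 0
    · exact hT.wire _ d (kd_lt P hi hj) hd ho hr _ _ (fits_FB P hD.toOk2 hc hF hi hj hk)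
        (reg_king' hR k1 k3) (G_FB P hc hD hR hF)
    · have h1 := hT.cross _ d (kd_lt P hi hj) hd ho hr _ _
        (base_cross P hc hD hR (μ := μ) hF hi hj hr)
      rw [FB_FM P hD.toOk2 hc hF hi hj hr (H := 80) (A := D.ar (kd P i j)) (st := D.sts (kd P i j))]
      have hs : stn P D μ i j = D.r (kd P i j) := by
        unfold stn
        rw [if_neg]
        rintro ⟨h2, -⟩
        rw [h2] at ho
        have : ∀ d < 4, ¬ out 24 d < 4 := by decide +kernel
        exact this d hd ho
      rw [hs]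
      exact h1
  · -- set
    intro i m F hm hi hF h1 h2
    have e1 : VHp P c D i (lo P.n m) none F = ps (FM (mtK D 24 144 mem)
        (FB P c D none (some (i, lo P.n m)) F) (World.org i (lo P.n m)) (D.r 24))
        (World.org i (lo P.n m)) (Loc.ent Dir.R) := by
      unfold VHp ps
      rw [h1, t2, if_pos rfl, hFM hm hi hF h1, hst' m i none h1 (by simp)]
    have e2 : VHp P c D i (up P.n m) (some m) F = ps (FM (mtK D 24 144 mem)
        (FB P c D none (some (i, lo P.n m)) F) (World.org i (lo P.n m)) D.m)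
        (World.org i (lo P.n m)) (shp 0 64 (Loc.ext Dir.L)) := by
      unfold VHp ps
      rw [h2, t1, if_neg (by decide), hsh, hFM hm hi hF h1, hst m i h1, FB_mem P hm hi rfl h1]
    rw [e1, e2]
    exact hT.set _ _ (hMB hm hi hF h1)
  · -- ret
    intro i m F hm hi hF h1 h2
    obtain ⟨g1, -⟩ := hking h1 (by decide) hi (hlo m hm)
    obtain ⟨-, g2⟩ := hking h2 (by decide) hi (hup m hm)
    have e1 : VVp P c D i (up P.n m + 1) (some m) F = ps (FM (mtK D 24 144 mem)
        (FB P c D none (some (i, lo P.n m)) F) (World.org i (lo P.n m)) D.m)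
        (World.org i (lo P.n m)) (shp 0 64 (Loc.ent Dir.D)) := by
      rw [VV_up P c D hi g2, h2, t4, if_neg (by decide), hsh, hFM hm hi hF h1, hst m i h1,
        FB_mem P hm hi rfl h1]
      rfl
    have e2 : VHp P c D (i + 1) (lo P.n m) none F = ps (FM (mtK D 24 144 mem)
        (FB P c D none (some (i, lo P.n m)) F) (World.org i (lo P.n m)) (D.r 24))
        (World.org i (lo P.n m)) (Loc.ext Dir.R) := by
      rw [VH_right P c D g1 (hlo m hm), h1, t3, if_pos rfl, hFM hm hi hF h1,
        hst' m i none h1 (by simp)]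
      rfl
    rw [e1, e2]
    exact hT.ret _ _ (hMB hm hi hF h1)
  · -- pass
    intro i m μ F hm hi hF h1 h2 hμ
    obtain ⟨-, g2⟩ := hking h2 (by decide) hi (hup m hm)
    have e1 : VVp P c D i (up P.n m + 1) μ F = ps (FM (mtK D 24 144 mem)
        (FB P c D μ (some (i, lo P.n m)) F) (World.org i (lo P.n m)) (D.r 24))
        (World.org i (lo P.n m)) (shp 0 64 (Loc.ent Dir.D)) := by
      rw [VV_up P c D hi g2, h2, t4, if_neg (by decide), hsh, hFM hm hi hF h1, hst' m i μ h1 hμ]
      rfl
    have e2 : VVp P c D i (lo P.n m) μ F = ps (FM (mtK D 24 144 mem)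
        (FB P c D μ (some (i, lo P.n m)) F) (World.org i (lo P.n m)) (D.r 24))
        (World.org i (lo P.n m)) (Loc.ext Dir.D) := by
      unfold VVp ps
      rw [h1, t5, if_neg (by decide), hFM hm hi hF h1, hst' m i μ h1 hμ]
    rw [e1, e2]
    exact hT.pass _ _ (hMB hm hi hF h1)
  · -- choice, upper bound
    intro i m F hm hi hF h1 h2
    obtain ⟨g1, -⟩ := hking h1 (by decide) hi (hlo m hm)
    have e1 : VHp P c D i (up P.n m) none F = ps (FM (mtK D 22 144 cho)
        (FB P c D none (some (i, lo P.n m)) F) (World.org i (lo P.n m)) (D.r 22))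
        (World.org i (lo P.n m)) (shp 0 64 (Loc.ent Dir.R)) := by
      unfold VHp ps
      rw [h2, t6, if_pos rfl, hsh, hFM2 hm hi hF h1]
    have e2 : VHp P c D (i + 1) (up P.n m) none F = ps (FM (mtK D 22 144 cho)
        (FB P c D none (some (i, lo P.n m)) F) (World.org i (lo P.n m)) (D.r 22))
        (World.org i (lo P.n m)) (shp 0 64 (Loc.ext Dir.R)) := by
      rw [VH_right P c D g1 (hup m hm), h2, t7, if_pos rfl, hsh, hFM2 hm hi hF h1]
      rfl
    have e3 : VHp P c D (i + 1) (lo P.n m) none F = ps (FM (mtK D 22 144 cho)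
        (FB P c D none (some (i, lo P.n m)) F) (World.org i (lo P.n m)) (D.r 22))
        (World.org i (lo P.n m)) (Loc.ext Dir.R) := by
      rw [VH_right P c D g1 (hlo m hm), h1, t8, if_pos rfl, hFM2 hm hi hF h1]
      rfl
    rw [e1, e2, e3]
    exact hT.cho_up _ _ (hMB2 hm hi hF h1)
  · -- choice, lower bound
    intro i m F β hm hi hF h1 h2
    obtain ⟨g1, -⟩ := hking h1 (by decide) hi (hlo m hm)
    have e1 : VHp P c D i (up P.n m) none F = ps (FM (mtK D 22 144 cho)
        (FB P c D none (some (i, lo P.n m)) F) (World.org i (lo P.n m)) (D.r 22))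
        (World.org i (lo P.n m)) (shp 0 64 (Loc.ent Dir.R)) := by
      unfold VHp ps
      rw [h2, t6, if_pos rfl, hsh, hFM2 hm hi hF h1]
    have e2 : VHp P c D (i + 1) (up P.n m) none F = ps (FM (mtK D 22 144 cho)
        (FB P c D none (some (i, lo P.n m)) F) (World.org i (lo P.n m)) (D.r 22))
        (World.org i (lo P.n m)) (shp 0 64 (Loc.ext Dir.R)) := by
      rw [VH_right P c D g1 (hup m hm), h2, t7, if_pos rfl, hsh, hFM2 hm hi hF h1]
      rfl
    have e3 : VHp P c D (i + 1) (lo P.n m) none F = ps (FM (mtK D 22 144 cho)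
        (FB P c D none (some (i, lo P.n m)) F) (World.org i (lo P.n m)) (D.r 22))
        (World.org i (lo P.n m)) (Loc.ext Dir.R) := by
      rw [VH_right P c D g1 (hlo m hm), h1, t8, if_pos rfl, hFM2 hm hi hF h1]
      rfl
    rw [e1, e2, e3]
    exact hT.cho_low _ _ β (hMB2 hm hi hF h1)
  · -- the end
    intro i m F hm hi hF h
    have hkk : kingK (kd P i (up P.n m)) = true := by rw [h]; decide
    obtain ⟨k1, -, k3, -, -⟩ := king_pos P hi (hup m hm) hkk
    have f := fits_FB P hD.toOk2 hc (μ := none) (x := none) hF hi (hup m hm) hkk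
    rw [h] at f
    unfold VHp
    rw [h, t9, if_pos rfl]
    exact hT.halt _ _ f (reg_king' hR k1 k3) (G_FB P hc hD hR hF)

/-- **The reduction of the main theorem to data of tiles.** -/
theorem omegaOne_of_facts {c : Offs} (hc : c.Ok2) {D : TD} (hD : D.Ok3) {R : Room} (hR : RoomOk D R)
    {mem cho : ℕ} (hf : FinFacts D) (hT : Facts D R mem cho) (hS : ∀ P : Prog, SvcFacts P c D) :
    omegaOneChess = omegaOneCK :=
  omegaOne_of_sys (G := geo c) (fun n => geo_ok hc.toOk n)
    fun P => ⟨_, _, tileSys P hc hD hR hf hT (hS P)⟩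

end Pool.Agent.Lib.H32C.Ly
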