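import Pool.Agent.Lib.H32C.FarWin
import Pool.Agent.Lib.H32C.WldE

/-!
# Positions at the ports of the tiles
-/

set_option autoImplicit false

namespace Pool.Agent.Lib.H32C.Ly

open Loc

variable (P : Prog)

section

variable (c : Offs) (D : TD) {μ : Option ℕ} {F : Far} {S : List (List Pc)} {x : Nat}

/-- entry from below -/
theorem en_U {i j : ℕ} (h : bpt (kd P i j) = 1) (hx : nthP S x = Loc.ent Dir.U) :
    ent (VHp P c D) (VVp P c D) i j 2 μ F =
      PFw (geo c P.n) (resB P D μ none) S (World.org i j) F x := by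
  unfold ent VVp PFw
  rw [if_neg (by decide), if_neg (by decide), if_pos rfl, if_pos h, hx]
  rfl

/-- entry from the left -/
theorem en_R {i j : ℕ} (h : lpt (kd P i j) = 1) (hx : nthP S x = Loc.ent Dir.R) :
    ent (VHp P c D) (VVp P c D) i j 0 μ F =
      PFw (geo c P.n) (resB P D μ none) S (World.org i j) F x := by
  unfold ent VHp PFw
  rw [if_pos rfl, if_pos h, hx]
  rfl

/-- entry from the left into the upper tile of a composite -/
theorem en_R2 {i j : ℕ} (h : lpt (kd P i (j + 1)) = 1) (hx : nthP S x = shp 0 64 (Loc.ent Dir.R)) :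
    ent (VHp P c D) (VVp P c D) i (j + 1) 0 μ F =
      PFw (geo c P.n) (resB P D μ none) S (World.org i j) F x := by
  unfold ent VHp PFw
  rw [if_pos rfl, if_pos h, hx, org_up, stB_shp]
  rfl

/-- exit to the left -/
theorem ex_L {i j : ℕ} (h : lpt (kd P (i + 1) j) = 2) (hx : nthP S x = Loc.ext Dir.L) :
    ent (VHp P c D) (VVp P c D) i j 1 μ F =
      PFw (geo c P.n) (resB P D μ none) S (World.org (i + 1) j) F x := by
  unfold ent VHp PFw
  rw [if_neg (by decide), if_pos rfl, if_neg (by rw [h]; decide), hx]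
  rfl

/-- exit upwards -/
theorem ex_U {i j : ℕ} (hi : i < nx P.n) (hj : j + 1 < ny P.n) (h : tpt (kd P i j) = 1)
    (hx : nthP S x = Loc.ext Dir.U) :
    ent (VHp P c D) (VVp P c D) i (j + 1) 2 μ F =
      PFw (geo c P.n) (resB P D μ none) S (World.org i j) F x := by
  unfold ent PFw
  rw [if_neg (by decide), if_neg (by decide), if_pos rfl, VV_up P c D hi hj, if_pos h, hx]
  rfl

end

/-- the facts about one service -/
structure SvcOk (c : Offs) (D : TD) (s : Svc) : Prop where
  up : ∀ m F, Inv (geo c P.n) s F → (∀ F', StepU (geo c P.n) s F F' → FBase (geo c P.n) F') →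
    (∀ F', StepU (geo c P.n) s F F' →
      HasValue (ent (VHp P c D) (VVp P c D) (exI P.n (sc s)) (exJ P.n (sc s)) (exD (sc s)) (some m) F')) →
    HasValue (ent (VHp P c D) (VVp P c D) (enI P.n (sc s)) (enJ P.n (sc s)) (enD (sc s)) (some m) F)
  low : ∀ m F F' β, Inv (geo c P.n) s F → StepL (geo c P.n) s F F' → FBase (geo c P.n) F' →
    GE (ent (VHp P c D) (VVp P c D) (exI P.n (sc s)) (exJ P.n (sc s)) (exD (sc s)) (some m) F') β →
    ¬ ValLE (ent (VHp P c D) (VVp P c D) (enI P.n (sc s)) (enJ P.n (sc s)) (enD (sc s)) (some m) F) β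

theorem svcFacts_of {c : Offs} {D : TD} (h : ∀ s, SvcOk P c D s) : SvcFacts P c D :=
  ⟨fun s m F _ => (h s).up m F, fun s m F F' β _ => (h s).low m F F' β⟩

end Pool.Agent.Lib.H32C.Ly
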