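import Pool.Agent.Lib.H32C.WldP

/-!
# The line of `Bin` in the world of a program: the land seen from the left and from below
-/

set_option autoImplicit false

namespace Pool.Agent.Lib.H32C.Ly

open Loc

variable (P : Prog)

section

variable {c : Offs} (hc : c.Ok2) {D : TD} (hD : D.Ok3) (hW : WallOk c D) {μ : Option ℕ}
  {x : Option (ℕ × ℕ)} {tb hX hY zB nb zE : ℕ} (hH : Hs c hX hY zB nb)
  (hB : BinF D tb hX hY zB nb zE)

/-- the sum of the coordinates on the line of `Bin` -/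
def sgB (hX hY : ℕ) : ℤ := 64 * (109 + 5 * (P.n : ℤ)) + hX + hY - 16

include hc hH in
/-- the land near the line of `Bin` consists of empty tiles -/
theorem land_k1 {p : Sq} (h : ¬ Hull P c p) {i j X Y : ℕ} (ht : Tl P i j X Y p)
    (hs : p.1 + p.2 ≤ sgB P hX hY + 1) : kd P i j = 1 := by
  rcases land_tl P hc h ht with h1 | ⟨-, h1, h2⟩
  · exact h1
  · exfalso
    have h3 := hH.x
    have h4 := hH.y
    have e1 := ht.e1
    have e2 := ht.e2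
    unfold sgB at hs
    rcases h1 with ⟨-, rfl, rfl⟩ | ⟨-, rfl, rfl⟩
    · push_cast at e1 e2
      omega
    · push_cast at e1 e2
      omega

include hc hH in
/-- the tiles of the line of `Bin` -/
theorem line_k1 {p : Sq} (h0 : p.1 + p.2 = sgB P hX hY) (h1 : 64 * (68 + 2 * (P.n : ℤ)) ≤ p.1)
    (h2 : 64 * 24 ≤ p.2) {i j X Y : ℕ} (ht : Tl P i j X Y p) : kd P i j = 1 := by
  obtain ⟨i1, i2, x1, x2, y1, y2, e1, e2⟩ := ht
  have h3 := hH.x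
  have h4 := hH.y
  have h5 := hH.s
  have o9 := hc.toOk.hx
  have o10 := hc.toOk.hy
  unfold sgB at h0
  refine diag_kd P ?_ ?_ ?_ i2 ?_ ?_ <;> omega

include hc hH in
theorem line_land {p : Sq} (h0 : p.1 + p.2 = sgB P hX hY) (h1 : 64 * (68 + 2 * (P.n : ℤ)) ≤ p.1)
    (h2 : 64 * 24 ≤ p.2) : ¬ Hull P c p := by
  rintro ⟨i, j, X, Y, ht, h3, -⟩
  exact h3 (line_k1 P hc hH h0 h1 h2 ht)

/-- the place of `SE` -/
theorem pos_31 {i j : ℕ} (hi : i < nx P.n) (hj : j < ny P.n) (h : kd P i j = 31) :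
    i = 71 + 2 * P.n ∧ j = 26 + 3 * P.n := by
  obtain ⟨h1, h2⟩ := uq_of P hi hj (a := (31, 28, 73)) (by decide) h
  have h3 := (row_of P h1 (by decide) (by decide)).2 (by decide)
  have h4 := (col_of hi h2 (by decide) (by decide) (by decide) (by decide)).2.2.1 (by decide)
    (by decide)
  simp only at h3 h4
  omega

/-- the data of a crossing of a ray which goes down or to the left: `(dx, dy)` is the negative of the step -/
structure DnX (n s i j X Y i' j' X' Y' : ℕ) (px py qx qy dx dy : ℤ) : Prop where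
  gs : 144 ≤ s ∧ s ≤ 206
  gdx : 0 ≤ dx ∧ dx ≤ 1
  gdy : 0 ≤ dy ∧ dy ≤ 1
  gX : 8 ≤ X ∧ X < 72
  gY : 8 ≤ Y ∧ Y < 72
  gX' : 8 ≤ X' ∧ X' < 72
  gY' : 8 ≤ Y' ∧ Y' < 72
  e1 : px - dx = 64 * (i : ℤ) - 8 + X
  e2 : py - dy = 64 * (j : ℤ) - 8 + Y
  f1 : px = 64 * (i' : ℤ) - 8 + X'
  f2 : py = 64 * (j' : ℤ) - 8 + Y'
  a : px ≤ qx
  b : py ≤ qy
  h0 : qx + qy = 64 * (109 + 5 * (n : ℤ)) + s - 16
  h1 : 64 * (68 + 2 * (n : ℤ)) ≤ qx
  h2 : 64 * 24 ≤ qy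

section arith

variable {n s i j X Y i' j' X' Y' : ℕ} {px py qx qy dx dy : ℤ}
  (h : DnX n s i j X Y i' j' X' Y' px py qx qy dx dy)

include h

theorem DnX.ii {C : ℤ} (hC : dx ≤ C) (h3 : 64 * (87 + 5 * (n : ℤ)) - 5 ≤ px - C) :
    (i = 86 + 5 * n ∨ i = 87 + 5 * n) ∧ (i' = 86 + 5 * n ∨ i' = 87 + 5 * n) := by
  obtain ⟨⟨s1, s2⟩, ⟨c1, c2⟩, ⟨c3, c4⟩, ⟨x1, x2⟩, ⟨y1, y2⟩, ⟨x3, x4⟩, ⟨y3, y4⟩, e1, e2, f1, f2, a, b,
    h0, h1, h2⟩ := h
  clear c3 c4 y1 y2 y3 y4 e2 f2 h1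
  constructor <;> omega

theorem DnX.top (hj : j < 24) (hj' : 24 ≤ j') : j = 23 ∧ Y = 71 ∧ py = 64 * 24 ∧ dy = 1 := by
  obtain ⟨⟨s1, s2⟩, ⟨c1, c2⟩, ⟨c3, c4⟩, ⟨x1, x2⟩, ⟨y1, y2⟩, ⟨x3, x4⟩, ⟨y3, y4⟩, e1, e2, f1, f2, a, b,
    h0, h1, h2⟩ := h
  clear c1 c2 x1 x2 x3 x4 e1 f1 a b h0 h1 h2 s1 s2
  omega

theorem DnX.x71 (hi : i = 87 + 5 * n) (hdx : dx = 1) : X < 71 := by
  obtain ⟨⟨s1, s2⟩, ⟨c1, c2⟩, ⟨c3, c4⟩, ⟨x1, x2⟩, ⟨y1, y2⟩, ⟨x3, x4⟩, ⟨y3, y4⟩, e1, e2, f1, f2, a, b,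
    h0, h1, h2⟩ := h
  clear c3 c4 y1 y2 y3 y4 e2 f1 f2 h1 c1 c2 x3 x4 b
  omega

theorem DnX.row44 (hj : j = 44 + 3 * n) : False := by
  obtain ⟨⟨s1, s2⟩, ⟨c1, c2⟩, ⟨c3, c4⟩, ⟨x1, x2⟩, ⟨y1, y2⟩, ⟨x3, x4⟩, ⟨y3, y4⟩, e1, e2, f1, f2, a, b,
    h0, h1, h2⟩ := h
  clear c1 c2 x1 x2 x3 x4 e1 f1 a h2 s1 f2 y3 y4
  omega

/-- the column `67 + 2 n` -/
theorem DnX.col67 (hi : i = 67 + 2 * n) (hp : px ≠ 64 * (68 + 2 * (n : ℤ))) : i' = 67 + 2 * n := by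
  obtain ⟨⟨s1, s2⟩, ⟨c1, c2⟩, ⟨c3, c4⟩, ⟨x1, x2⟩, ⟨y1, y2⟩, ⟨x3, x4⟩, ⟨y3, y4⟩, e1, e2, f1, f2, a, b,
    h0, h1, h2⟩ := h
  clear c3 c4 y1 y2 y3 y4 e2 f2 a b h0 h1 h2 s1 s2
  omega

theorem DnX.row67 (hj : j = 42 + 3 * n ∨ j = 43 + 3 * n) : j' = 42 + 3 * n ∨ j' = 43 + 3 * n := by
  obtain ⟨⟨s1, s2⟩, ⟨c1, c2⟩, ⟨c3, c4⟩, ⟨x1, x2⟩, ⟨y1, y2⟩, ⟨x3, x4⟩, ⟨y3, y4⟩, e1, e2, f1, f2, a, b,
    h0, h1, h2⟩ := h
  clear c1 c2 x1 x2 x3 x4 e1 f1 a h2 s1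
  omega

theorem DnX.yp (hj : j = 42 + 3 * n ∨ j = 43 + 3 * n) (hi : i = 67 + 2 * n)
    (hp : px = 64 * (68 + 2 * (n : ℤ))) {Yp : ℕ} (hY : py = 64 * (42 + 3 * (n : ℤ)) - 8 + Yp) :
    8 + dy ≤ Yp ∧ Yp + 72 ≤ s := by
  obtain ⟨⟨s1, s2⟩, ⟨c1, c2⟩, ⟨c3, c4⟩, ⟨x1, x2⟩, ⟨y1, y2⟩, ⟨x3, x4⟩, ⟨y3, y4⟩, e1, e2, f1, f2, a, b,
    h0, h1, h2⟩ := h
  clear c1 c2 x1 x2 x3 x4 e1 f1 h2 s1 s2 f2 y3 y4
  omega

theorem DnX.yp0 (hj : j = 42 + 3 * n ∨ j = 43 + 3 * n) : 0 ≤ py - (64 * (42 + 3 * (n : ℤ)) - 8) := by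
  obtain ⟨⟨s1, s2⟩, ⟨c1, c2⟩, ⟨c3, c4⟩, ⟨x1, x2⟩, ⟨y1, y2⟩, ⟨x3, x4⟩, ⟨y3, y4⟩, e1, e2, f1, f2, a, b,
    h0, h1, h2⟩ := h
  clear c1 c2 x1 x2 x3 x4 e1 f1 a h2 s1 s2 f2 y3 y4 h0 h1 b
  omega

end arith

include hc hD hW hH hB in
/-- the land is not seen from the left and from below along the line of `Bin` -/
theorem land_dn {zW : ℕ} (hE : WinE D zE zW) {u : ℕ} (hu : u = 41 ∨ u = 22 ∨ u = 21) {p0 : Sq}
    (h0 : p0.1 + p0.2 = sgB P hX hY) (h1 : 64 * (68 + 2 * (P.n : ℤ)) ≤ p0.1)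
    (h2 : 64 * 24 ≤ p0.2) : BlW (resB P D μ x) (QB P) (WD u 61) u p0 := by
  obtain ⟨v1, v2, v3, v4, v5, v6, v7, v8⟩ := vec8
  have hnx : nx P.n = 90 + 5 * P.n := rfl
  have hny : ny P.n = 45 + 3 * P.n := rfl
  have hu' : u ∈ orT ++ diT := by rcases hu with rfl | rfl | rfl <;> decide
  have hs : 144 ≤ hX + hY ∧ hX + hY ≤ 206 := by
    have g3 := hH.x
    have g4 := hH.y
    have g5 := hH.s
    have o9 := hc.toOk.hx
    have o10 := hc.toOk.hy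
    omega
  -- the step
  obtain ⟨dx, dy, d1, d2, d3, d4, d5⟩ : ∃ dx dy : ℤ, (vec u).1 = -dx ∧ (vec u).2 = -dy ∧
      (0 ≤ dx ∧ dx ≤ 1) ∧ (0 ≤ dy ∧ dy ≤ 1) ∧
      ((u = 41 ∧ dx = 1 ∧ dy = 0) ∨ (u = 22 ∧ dx = 0 ∧ dy = 1) ∨ (u = 21 ∧ dx = 1 ∧ dy = 1)) := by
    rcases hu with rfl | rfl | rfl
    · exact ⟨1, 0, by rw [v3], by rw [v3]; rfl, by norm_num, by norm_num, Or.inl ⟨rfl, rfl, rfl⟩⟩
    · exact ⟨0, 1, by rw [v4]; rfl, by rw [v4], by norm_num, by norm_num,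
        Or.inr (Or.inl ⟨rfl, rfl, rfl⟩)⟩
    · exact ⟨1, 1, by rw [v7], by rw [v7], by norm_num, by norm_num,
        Or.inr (Or.inr ⟨rfl, rfl, rfl⟩)⟩
  refine BlW.walk {p | ¬ Hull P c p} (fun p hp => land_none P hc hD.toOk2 hW hp)
    (line_land P hc hH h0 h1 h2) ?_
  intro k hk hk1
  have hk1 : Hull P c (p0 + (k + 1) • vec u) := by
    by_contra h
    exact hk1 h
  obtain ⟨i, j, X, Y, ht, hkd, hz⟩ := hk1
  have hland : ¬ Hull P c (p0 + k • vec u) := hk k le_rfl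
  have e : p0 + (k + 1) • vec u = p0 + k • vec u + vec u := by rw [succ_nsmul, add_assoc]
  rw [e] at ht hz
  have q1 : (p0 + k • vec u).1 = p0.1 + k * (vec u).1 := add_nsmul_fst _ _ _
  have q2 : (p0 + k • vec u).2 = p0.2 + k * (vec u).2 := add_nsmul_snd _ _ _
  have q3 : (p0 + k • vec u).1 ≤ p0.1 := by
    rw [q1, d1]
    have := mul_nonneg (Int.natCast_nonneg k) d3.1
    linarith
  have q4 : (p0 + k • vec u).2 ≤ p0.2 := by
    rw [q2, d2]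
    have := mul_nonneg (Int.natCast_nonneg k) d4.1
    linarith
  have q5 : u = 22 → (p0 + k • vec u).1 = p0.1 := by
    rintro rfl
    rw [q1, v4]
    simp
  clear q1 q2
  generalize p0 + k • vec u = p at *
  obtain ⟨i1, i2, x1, x2, y1, y2, e1, e2⟩ := id ht
  have f1 : (p + vec u).1 = p.1 - dx := by
    change p.1 + (vec u).1 = _
    rw [d1]; ring
  have f2 : (p + vec u).2 = p.2 - dy := by
    change p.2 + (vec u).2 = _
    rw [d2]; ring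
  rw [f1] at e1
  rw [f2] at e2
  -- bounds
  unfold sgB at h0
  have b3 : 0 ≤ p.1 := by clear d5; omega
  have b4 : 0 ≤ p.2 := by clear d5; omega
  obtain ⟨i', j', X', Y', ht'⟩ := tl_of P (s := p) b3 (by clear d5; omega) b4 (by clear d5; omega)
  have hk' := land_k1 P hc hH hland ht' (by unfold sgB; clear d5; omega)
  have hX' : DnX P.n (hX + hY) i j X Y i' j' X' Y' p.1 p.2 p0.1 p0.2 dx dy :=
    ⟨hs, d3, d4, ⟨x1, x2⟩, ⟨y1, y2⟩, ⟨ht'.X1, ht'.X2⟩, ⟨ht'.Y1, ht'.Y2⟩, e1, e2, ht'.e1, ht'.e2,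
      q3, q4, by rw [h0]; push_cast; ring, h1, h2⟩
  -- not the same tile
  have hne : ¬ (i' = i ∧ j' = j) := by
    rintro ⟨rfl, rfl⟩
    exact hkd hk'
  by_cases hq : ∃ l : ℕ, 0 < l ∧ p + l • vec u ∈ QB P
  · -- the neighbourhood of the special square
    obtain ⟨l, l0, hl⟩ := hq
    have h3 := (qb_iff P hl).1
    rw [add_nsmul_fst, d1, mul_neg, ← sub_eq_add_neg] at h3
    have hC : dx ≤ (l : ℤ) * dx := by
      have h5 : (1 : ℤ) ≤ l := by exact_mod_cast l0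
      calc dx = 1 * dx := (one_mul _).symm
        _ ≤ l * dx := mul_le_mul_of_nonneg_right h5 d3.1
    obtain ⟨hii, hii'⟩ := hX'.ii hC h3
    have hj24 : j < 24 := by
      by_contra h
      exact hkd ((col_bin P hii i2).1 (by omega))
    have hj24' : 24 ≤ j' := by
      by_contra h
      exact (col_bin P hii' ht'.hj).2 (by omega) hk'
    obtain ⟨rfl, rfl, hp2, hdy⟩ := hX'.top hj24 hj24'
    have hu2 : u = 22 ∨ u = 21 := by
      rcases d5 with ⟨a, b, c'⟩ | ⟨a, b, c'⟩ | ⟨a, b, c'⟩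
      · rw [c'] at hdy; exact absurd hdy (by norm_num)
      · exact Or.inl a
      · exact Or.inr a
    refine bl_top P hc hD hW hB hu2 hii ht hp2 ?_
    intro hi87 hu21
    refine hX'.x71 hi87 ?_
    rcases d5 with ⟨a, b, c'⟩ | ⟨a, b, c'⟩ | ⟨a, b, c'⟩
    · exact b
    · rw [a] at hu21; exact absurd hu21 (by decide)
    · exact b
  · have hq' : ∀ l : ℕ, 0 < l → p + l • vec u ∉ QB P := fun l hl h => hq ⟨l, hl, h⟩
    by_cases hex : Exc (kd P i j) i j u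
    · rcases hex with ⟨h3, -⟩ | ⟨h3, h4⟩ | ⟨h3, h4⟩ | ⟨-, h4⟩ | ⟨-, h4⟩
      · -- the tiles with the home
        have hD2 : i = 67 + 2 * P.n ∧ (j = 42 + 3 * P.n ∨ j = 43 + 3 * P.n) := by
          rcases h3 with h3 | h3 | h3
          · have := (pos_D P i1 i2).1 h3
            exact ⟨this.1, Or.inr this.2⟩
          · have := pos_36 P i1 i2 h3
            exact ⟨this.1, Or.inl this.2⟩
          · exact (hX'.row44 ((pos_D P i1 i2).2 h3).2).elim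
        obtain ⟨hi67, hj4⟩ := hD2
        have hpx : p.1 = 64 * (68 + 2 * (P.n : ℤ)) := by
          by_contra hne2
          have hi' := hX'.col67 hi67 hne2
          have hj' := hX'.row67 hj4
          obtain ⟨-, -, -, -, k1, k2⟩ := kd_bin P
          rcases hj' with hj' | hj' <;> rw [hi', hj'] at hk'
          · rw [k1] at hk'; exact absurd hk' (by decide)
          · rw [k2] at hk'; exact absurd hk' (by decide)
        have hY0 := hX'.yp0 hj4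
        obtain ⟨Yp, hYp⟩ : ∃ Yp : ℕ, p.2 = 64 * (42 + 3 * (P.n : ℤ)) - 8 + Yp :=
          ⟨(p.2 - (64 * (42 + 3 * (P.n : ℤ)) - 8)).toNat, by rw [Int.toNat_of_nonneg hY0]; ring⟩
        obtain ⟨r1, r2⟩ := hX'.yp hj4 hi67 hpx hYp
        have r1' : 8 ≤ Yp := by clear d5; omega
        refine bl_D P hc hD hW hB (Y := Yp) ?_ r1' r2 hpx hYp
        rcases d5 with ⟨a, b, c'⟩ | ⟨a, b, c'⟩ | ⟨a, b, c'⟩
        · exact Or.inl a
        · exfalso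
          have h5 := q5 a
          rw [b] at e1
          clear q5 hX' hq' hne hj4 hYp
          omega
        · refine Or.inr ⟨a, ?_⟩
          rw [c'] at r1
          clear q5 hX' hq' hne hj4 hYp
          omega
      · exfalso
        have h6 := pos_29 P i1 i2 h3
        have h7 := q5 h4
        clear q5 hX' hq' hne d5
        omega
      · -- the row of the window E
        subst h4
        obtain ⟨hi71, hj26⟩ := pos_31 P i1 i2 h3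
        have hdx : dx = 1 ∧ dy = 0 := by
          rcases d5 with ⟨a, b, c'⟩ | ⟨a, b, c'⟩ | ⟨a, b, c'⟩
          · exact ⟨b, c'⟩
          · exact absurd a (by decide)
          · exact absurd a (by decide)
        obtain ⟨rfl, rfl⟩ := hdx
        have hX71 : X = 71 := by
          by_contra hne2
          refine hne ⟨?_, ?_⟩
          · have := ht'.e1
            have := ht'.X1
            have := ht'.X2
            clear q5 hX' hq' hne d5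
            omega
          · have := ht'.e2
            have := ht'.Y1
            have := ht'.Y2
            clear q5 hX' hq' hne d5
            omega
        refine BlW.of_bl (bl_SE P hc hD hW hB hE (Y := Y) y1 y2 ?_ ?_) (fun m hm => hm.1) hq'
        · clear q5 hX' hq' hne d5
          omega
        · clear q5 hX' hq' hne d5
          omega
      · rcases hu with rfl | rfl | rfl <;> exact absurd h4 (by decide)
      · rcases hu with rfl | rfl | rfl <;> exact absurd h4 (by decide)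
    · exact BlW.of_bl (cross_bl P hc hD.toOk2 hW hu' hland ht hkd hz hex) (fun m hm => hm.1) hq'

end

end Pool.Agent.Lib.H32C.Ly
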