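import Pool.Agent.Lib.H32C.FbA
import Pool.Agent.Lib.H32C.WldQ

/-!
# The line of `Bin` in the world of a program: the facts about the line
-/

set_option autoImplicit false

namespace Pool.Agent.Lib.H32C.Ly

open Loc

/-- a White piece can move to `c` along a line only if it is not blocked -/
theorem line_betw {B : Board} {c a : Sq} {κ : Kind}
    (h : ∀ u ∈ orT ++ diT, ∀ l : ℕ, 0 < l → a = c + l • vec u → SlK κ u →
      ∃ i : ℕ, 0 < i ∧ i < l ∧ B (c + i • vec u) ≠ none)
    (hl : (OrthI a c ∧ (κ = Kind.queen ∨ κ = Kind.rook)) ∨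
      (DiagI a c ∧ (κ = Kind.queen ∨ κ = Kind.bishop))) :
    ∃ d, BetwI a c d ∧ B d ≠ none := by
  obtain ⟨u, hu, l, hl0, hal, h2, h3⟩ := fwe_line (a := a) (c := c)
    (hl.imp (fun h => h.1) (fun h => h.1))
  have hs : SlK κ u := by
    rcases List.mem_append.1 hu with h4 | h4
    · rcases hl with ⟨-, h5 | h5⟩ | ⟨h6, h5⟩
      · exact Or.inl h5
      · exact Or.inr (Or.inl ⟨h4, h5⟩)
      · exfalso
        have h7 := h2 h4
        unfold OrthI at h7
        unfold DiagI at h6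
        omega
    · rcases hl with ⟨h6, h5⟩ | ⟨-, h5 | h5⟩
      · exfalso
        have h7 := h3 h4
        unfold OrthI at h6
        unfold DiagI at h7
        omega
      · exact Or.inl h5
      · exact Or.inr (Or.inr ⟨h4, h5⟩)
  obtain ⟨i, g1, g2, g3⟩ := h u hu l hl0 hal hs
  exact ⟨_, fwe_betw hu hal g1 g2 rfl, g3⟩

theorem knL_of : ∀ d ∈ knightJumps, ∃ q ∈ knL, (q.1 : ℤ) = 2 - d.1 ∧ (q.2 : ℤ) = 2 - d.2 := by
  decide

theorem knL_le : ∀ q ∈ knL, q.1 ≤ 4 ∧ q.2 ≤ 4 ∧ 1 ≤ q.1 + q.2 ∧ q.1 + q.2 ≤ 7 := by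
  decide

variable (P : Prog)

/-- White pieces are pieces of the arrays -/
theorem wh_cell {D : TD} {μ : Option ℕ} {x : Option (ℕ × ℕ)} {i j X Y : ℕ} {s : Sq} {κ : Kind}
    (ht : Tl P i j X Y s) (h : resB P D μ x s = some (true, κ)) :
    dec (codeA (D.ar (kd P i j)) X Y) = some (true, κ) := by
  have h1 := ht.code (D := D)
  unfold resB at h
  split_ifs at h with h3 h4
  · cases h
  · cases h
  · unfold World.board at h
    rw [← h1]
    exact h

theorem inA_mk {H j : ℕ} (h1 : 1 ≤ j % 80) (h2 : j % 80 ≤ 78) (h3 : 80 ≤ j)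
    (h4 : j + 80 < 80 * H) : inA H j = true := by
  unfold inA
  simp only [Bool.and_eq_true, Nat.ble_eq, blt_iff]
  exact ⟨h1, h2, h3, h4⟩

theorem dec_kn : ∀ k < 16, dec k = some (true, Kind.knight) → k = 2 := by decide

theorem dec_pn : ∀ k < 16, dec k = some (true, Kind.pawn) → k = 1 := by decide

/-- the tile above `D0` is empty -/
theorem kd_44 : kd P (67 + 2 * P.n) (44 + 3 * P.n) = 1 := by
  have h : kdt 46 69 = 1 := by decide +kernel
  rw [kd_t P (by omega), cx_d (by omega) (by omega)]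
  rw [show 44 + 3 * P.n + 2 - 3 * P.n = 46 by omega, show 67 + 2 * P.n + 2 - 2 * P.n = 69 by omega]
  exact h

section

variable {c : Offs} (hc : c.Ok2) {D : TD} (hD : D.Ok3) (hW : WallOk c D) {μ : Option ℕ}
  {x : Option (ℕ × ℕ)} {tb hX hY zB nb zE : ℕ} (hH : Hs c hX hY zB nb)
  (hB : BinF D tb hX hY zB nb zE) (hG : BinG D tb hX hY zB nb) {zO : ℕ}
  (hC : ColF D tb hX hY zO)

/-- the number of squares of the line of `Bin` -/
def jB (hX zB : ℕ) : ℕ := 1280 + 192 * P.n + zB % 80 - hX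

/-- the squares of the line of `Bin` -/
def LnB (hX hY zB : ℕ) (p : Sq) : Prop :=
  p.1 + p.2 = sgB P hX hY ∧ 64 * (67 + 2 * (P.n : ℤ)) - 8 + hX ≤ p.1 ∧
    64 * 23 - 8 + ((zB / 80 : ℕ) : ℤ) < p.2

include hH in
theorem lnB_step {j : ℕ} (h0 : 0 < j) (hj : j ≤ jB P hX zB) :
    LnB P hX hY zB (stepL (World.org (87 + 5 * P.n) 23) zB 61 j) := by
  have hv : vec 61 = (-1, 1) := by decide
  have h1 := hH.z
  have h2 : hX ≤ 1280 := by have := hH.s; have := hH.z; have := hH.y2; omega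
  unfold jB at hj
  unfold LnB stepL
  rw [add_nsmul_fst, add_nsmul_snd, sqA_fst, sqA_snd, org_fst, org_snd, hv]
  unfold sgB
  push_cast
  clear hv
  refine ⟨?_, ?_, ?_⟩ <;> omega

include hc hH hB in
/-- three kinds of squares of the line -/
theorem lnB_cases {p : Sq} (h : LnB P hX hY zB p) :
    (∃ X Y : ℕ, Tl P (87 + 5 * P.n) 23 X Y p ∧ X + Y + 64 = hX + hY ∧ zB / 80 < Y) ∨
    (64 * (68 + 2 * (P.n : ℤ)) ≤ p.1 ∧ 64 * 24 ≤ p.2) ∨
    (∃ X Y : ℕ, Tl P (67 + 2 * P.n) (43 + 3 * P.n) X Y p ∧ hX ≤ X ∧ X + Y + 64 = hX + hY) := by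
  obtain ⟨h1, h2, h3⟩ := h
  have g3 := hH.x
  have g4 := hH.y
  obtain ⟨g5, g6⟩ := hH.s
  have g7 := hH.x10
  have o9 := hc.toOk.hx
  have o10 := hc.toOk.hy
  have g8 := hH.z
  have g9 := hH.y2
  obtain ⟨z1, z2, z3, z4⟩ := hB.z1
  unfold sgB at h1
  rcases lt_or_ge p.2 (64 * 24) with h4 | h4
  · left
    refine ⟨(p.1 - (64 * (87 + 5 * (P.n : ℤ)) - 8)).toNat, (p.2 - (64 * 23 - 8)).toNat,
      ⟨by unfold nx; omega, by unfold ny; omega, ?_, ?_, ?_, ?_, ?_, ?_⟩, ?_, ?_⟩
    all_goals clear g4 g3 o9 o10 z2 z3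
    all_goals push_cast
    all_goals omega
  · rcases lt_or_ge p.1 (64 * (68 + 2 * (P.n : ℤ))) with h5 | h5
    · right; right
      refine ⟨(p.1 - (64 * (67 + 2 * (P.n : ℤ)) - 8)).toNat,
        (p.2 - (64 * (43 + 3 * (P.n : ℤ)) - 8)).toNat,
        ⟨by unfold nx; omega, by unfold ny; omega, ?_, ?_, ?_, ?_, ?_, ?_⟩, ?_, ?_⟩
      all_goals clear g4 g3 o9 o10 g8 h3 z1 z2 z3 z4
      all_goals push_cast
      all_goals omega
    · exact Or.inr (Or.inl ⟨h5, h4⟩)


include hc hD hW hH hB in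
/-- the squares of the line are empty -/
theorem lnB_clear {p : Sq} (h : LnB P hX hY zB p) : resB P D μ x p = none := by
  obtain ⟨-, k34, -, -, k36, k35⟩ := kd_bin P
  rcases lnB_cases P hc hH hB h with ⟨X, Y, ht, h1, h2⟩ | ⟨h1, h2⟩ | ⟨X, Y, ht, h1, h2⟩
  · have h3 := hH.z
    have h4 := hB.clr (Y - zB / 80) (by have := ht.Y2; omega)
    have e1 : zB % 80 - (Y - zB / 80) = X := by omega
    have e2 : zB / 80 + (Y - zB / 80) = Y := by omega
    rw [e1, e2] at h4
    rw [ht.eq, fit_resB P hD.toOk2 ht.hi ht.hj (by have := ht.X2; omega) (by have := ht.Y2; omega)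
      (by rw [k34, h4]; decide), k34, h4]
    rfl
  · exact land_none P hc hD.toOk2 hW (line_land P hc hH h.1 h1 h2)
  · have h3 := hB.dclr X h1 ht.X2
    have e : p = sqA (World.org (67 + 2 * P.n) (42 + 3 * P.n)) (X + 80 * (hX + hY - X)) := by
      have e1 := ht.e1
      have e2 := ht.e2
      have e3 := ht.X2
      refine Prod.ext ?_ ?_
      · rw [sqA_fst, org_fst, show (X + 80 * (hX + hY - X)) % 80 = X by omega]
        exact e1
      · rw [sqA_snd, org_snd, show (X + 80 * (hX + hY - X)) / 80 = hX + hY - X by omega]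
        rw [e2]
        push_cast
        omega
    have h5 := hH.x10
    have h6 := hH.y2
    have h7 : inA 144 (X + 80 * (hX + hY - X)) = true := by
      have h9 := ht.X2
      have h10 := ht.X1
      exact inA_mk (by omega) (by omega) (by omega) (by omega)
    have h8 : cell tb (X + 80 * (hX + hY - X)) = 0 := by rw [← WA_codeA]; exact h3
    rw [e, tb_cells P hD hB _ h7 (by rw [h8]; decide), h8]
    rfl

theorem quiet_bk : ∀ k < 16, msk 0x600 k = true → ∃ κ, dec k = some (false, κ) ∧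
    (κ = Kind.pawn ∨ κ = Kind.knight) := by
  intro k hk h
  have key : ∀ k < 16, msk 0x600 k = true → k = 9 ∨ k = 10 := by decide
  rcases key k hk h with rfl | rfl
  · exact ⟨_, rfl, Or.inl rfl⟩
  · exact ⟨_, rfl, Or.inr rfl⟩

include hD hB in
/-- the cells of the composite tile with the home -/
theorem tb_cellc {X Y : ℕ} (h1 : 1 ≤ X) (h2 : X ≤ 78) (h3 : 1 ≤ Y) (h4 : Y ≤ 142)
    (hne : codeA tb X Y ≠ 15) : resB P D μ x (64 * (67 + 2 * (P.n : ℤ)) - 8 + X,
      64 * (42 + 3 * (P.n : ℤ)) - 8 + Y) = dec (codeA tb X Y) := by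
  have e1 : (X + 80 * Y) % 80 = X := by omega
  have e2 : (X + 80 * Y) / 80 = Y := by omega
  have h5 := tb_cells P hD hB (μ := μ) (x := x) (X + 80 * Y)
    (inA_mk (by omega) (by omega) (by omega) (by omega)) (by rw [← WA_codeA]; exact hne)
  rw [← WA_codeA] at h5
  rw [← h5]
  congr 1
  refine Prod.ext ?_ ?_
  · rw [sqA_fst, org_fst, e1]
    push_cast
    ring
  · rw [sqA_snd, org_snd, e2]
    push_cast
    ring

/-- the squares of the column of the home -/
def ColS (hX hY zO : ℕ) (p : Sq) : Prop :=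
  p.1 = 64 * (67 + 2 * (P.n : ℤ)) - 8 + hX ∧
    64 * (41 + 3 * (P.n : ℤ)) - 8 + ((zO / 80 : ℕ) : ℤ) ≤ p.2 ∧
    p.2 ≤ 64 * (42 + 3 * (P.n : ℤ)) - 8 + hY

include hc hD hH hB hC in
/-- the squares of the column are empty -/
theorem col_none {p : Sq} (h : ColS P hX hY zO p) : resB P D μ x p = none := by
  obtain ⟨-, -, -, k37, k36, k35⟩ := kd_bin P
  obtain ⟨h1, h2, h3⟩ := h
  have g1 := hH.x
  have g2 := hc.toOk.hx
  have g3 := hH.x10
  have g4 := hH.y2
  obtain ⟨c1, c2, c3⟩ := hC.z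
  rcases lt_or_ge p.2 (64 * (42 + 3 * (P.n : ℤ))) with h4 | h4
  · obtain ⟨Y, hY'⟩ : ∃ Y : ℕ, (Y : ℤ) = p.2 - (64 * (41 + 3 * (P.n : ℤ)) - 8) :=
      ⟨(p.2 - (64 * (41 + 3 * (P.n : ℤ)) - 8)).toNat, by omega⟩
    have h0 := hC.clr2 Y (by omega) (by omega)
    have h6 := fit_resB P hD.toOk2 (μ := μ) (x := x) (i := 67 + 2 * P.n) (j := 41 + 3 * P.n)
      (by unfold nx; omega) (by unfold ny; omega) (X := hX) (Y := Y) (by omega) (by omega)
      (by rw [k37, h0]; decide)
    rw [k37, h0] at h6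
    rw [show p = tsq (World.org (67 + 2 * P.n) (41 + 3 * P.n)) hX Y from
      Prod.ext (by rw [h1]; change _ = (World.org (67 + 2 * P.n) (41 + 3 * P.n)).1 + _
                   rw [org_fst]; push_cast; ring)
        (by change _ = (World.org (67 + 2 * P.n) (41 + 3 * P.n)).2 + _
            rw [org_snd]; push_cast; omega)]
    exact h6
  · obtain ⟨Y, hY'⟩ : ∃ Y : ℕ, (Y : ℤ) = p.2 - (64 * (42 + 3 * (P.n : ℤ)) - 8) :=
      ⟨(p.2 - (64 * (42 + 3 * (P.n : ℤ)) - 8)).toNat, by omega⟩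
    have h0 := hC.clr Y (by omega) (by omega)
    have h6 := tb_cellc P hD hB (μ := μ) (x := x) (X := hX) (Y := Y) (by omega) (by omega)
      (by omega) (by omega) (by rw [h0]; decide)
    rw [h0] at h6
    rw [show p = (64 * (67 + 2 * (P.n : ℤ)) - 8 + hX, 64 * (42 + 3 * (P.n : ℤ)) - 8 + Y) from
      Prod.ext (by rw [h1]) (by simp only; omega)]
    exact h6

include hc hD hH hC in
/-- below the column -/
theorem col_blk : ∃ κ, resB P D μ x (64 * (67 + 2 * (P.n : ℤ)) - 8 + hX,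
    64 * (41 + 3 * (P.n : ℤ)) - 8 + ((zO / 80 : ℕ) : ℤ) - 1) = some (false, κ) ∧
      (κ = Kind.pawn ∨ κ = Kind.knight) := by
  obtain ⟨-, -, -, k37, k36, k35⟩ := kd_bin P
  have g1 := hH.x
  have g2 := hc.toOk.hx
  obtain ⟨c1, c2, c3⟩ := hC.z
  obtain ⟨κ, w1, w2⟩ := quiet_bk _ (WA_codeA_lt _ _ _) hC.blk
  refine ⟨κ, ?_, w2⟩
  rw [← w1]
  have h6 := fit_resB P hD.toOk2 (μ := μ) (x := x) (i := 67 + 2 * P.n) (j := 41 + 3 * P.n)
    (by unfold nx; omega) (by unfold ny; omega) (X := hX) (Y := zO / 80 - 1) (by omega) (by omega)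
    (by rw [k37]; intro h; rw [h] at w1; cases w1)
  rw [k37] at h6
  rw [← h6]
  congr 1
  refine Prod.ext ?_ ?_
  · change _ = (World.org (67 + 2 * P.n) (41 + 3 * P.n)).1 + _
    rw [org_fst]; push_cast; ring
  · change _ = (World.org (67 + 2 * P.n) (41 + 3 * P.n)).2 + _
    rw [org_snd]; push_cast; omega

include hc hD hH hB hC in
/-- nobody sees the column from below -/
theorem col_down {Q : Set Sq} {W : Man → Prop} {u : Nat} (hu : u = 22) (hQ : ∀ q ∈ Q,
    q.1 ≠ 64 * (67 + 2 * (P.n : ℤ)) - 8 + hX ∨ q.2 ≠ 64 * (41 + 3 * (P.n : ℤ)) - 8 + ((zO / 80 : ℕ) : ℤ) - 1)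
    (hWs : ∀ m, W m → SlK m.2 u) {p : Sq} (h : ColS P hX hY zO p) :
    BlW (resB P D μ x) Q W u p := by
  subst hu
  obtain ⟨v1, v2, v3, v4, v5, v6, v7, v8⟩ := vec8
  obtain ⟨κ, w1, w2⟩ := col_blk P hc hD hH hC (μ := μ) (x := x)
  obtain ⟨h1, h2, h3⟩ := h
  obtain ⟨K, hK⟩ : ∃ K : ℕ, (K : ℤ) = p.2 - (64 * (41 + 3 * (P.n : ℤ)) - 8 + ((zO / 80 : ℕ) : ℤ)) :=
    ⟨(p.2 - (64 * (41 + 3 * (P.n : ℤ)) - 8 + ((zO / 80 : ℕ) : ℤ))).toNat, by omega⟩
  have e : ∀ i : ℕ, p + i • vec 22 = (p.1, p.2 - i) := by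
    intro i
    refine Prod.ext ?_ ?_
    · rw [add_nsmul_fst, v4]; simp
    · rw [add_nsmul_snd, v4]; simp only; ring
  have e2 : p + K • vec 22 + vec 22 = (64 * (67 + 2 * (P.n : ℤ)) - 8 + hX,
      64 * (41 + 3 * (P.n : ℤ)) - 8 + ((zO / 80 : ℕ) : ℤ) - 1) := by
    rw [add_assoc, ← succ_nsmul, e]
    refine Prod.ext ?_ ?_
    · exact h1
    · simp only; push_cast; omega
  refine BlW.steps K (fun i _ hi => col_none P hc hD hH hB hC ?_) ?_
  · rw [e]
    refine ⟨h1, ?_, ?_⟩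
    · simp only; omega
    · simp only; omega
  · refine BlW.quiet (m := (false, κ)) (by rw [e2]; exact w1) (fun h5 => slk_quiet w2 (hWs _ h5)) ?_
    · rw [e2]
      intro h5
      rcases hQ _ h5 with h6 | h6 <;> exact h6 rfl

include hc hD hW hH hB hC in
/-- nobody sees the line from the sides -/
theorem lnB_side {zW : ℕ} (hE : WinE D zE zW) {p : Sq} (h : LnB P hX hY zB p)
    (h70 : 64 * 23 - 8 + 70 ≤ p.2) {u : ℕ} (hu : u ∈ sdB) :
    BlW (resB P D μ x) (QB P) (WD u 61) u p := by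
  obtain ⟨v1, v2, v3, v4, v5, v6, v7, v8⟩ := vec8
  obtain ⟨-, k34, -, -, k36, k35⟩ := kd_bin P
  have hu' : u ∈ orT ++ diT := by
    have : ∀ u ∈ sdB, u ∈ orT ++ diT := by decide
    exact this u hu
  have hn24 : kd P (87 + 5 * P.n) 24 = 1 :=
    (col_bin P (Or.inr rfl) (by unfold ny; omega)).1 (le_refl 24)
  rcases lnB_cases P hc hH hB h with ⟨X, Y, ht, h1, h2⟩ | ⟨h1, h2⟩ | ⟨X, Y, ht, h1, h2⟩
  · have hY70 : 70 ≤ Y := by have := ht.e2; push_cast at this; omega
    have hs := hH.s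
    have e1 : hX + hY - 64 - Y = X := by omega
    rcases hB.sides Y hY70 ht.Y2 u hu with ⟨h3, h4⟩ | h3
    · subst h3
      have hl : ¬ Hull P c (p + vec u) := by
        have ht2 : Tl P (87 + 5 * P.n) 24 (if u = 62 then X else X + 1) 8 (p + vec u) := by
          obtain ⟨a1, a2, a3, a4, a5, a6, a7, a8⟩ := ht
          refine ⟨a1, by unfold ny; omega, ?_, ?_, by omega, by omega, ?_, ?_⟩
          · split_ifs <;> omega
          · split_ifs <;> omega
          · change p.1 + (vec u).1 = _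
            rcases h4 with rfl | rfl
            · rw [v2, if_pos rfl, a7]; ring
            · rw [v5, if_neg (by decide), a7]; push_cast; ring
          · change p.2 + (vec u).2 = _
            rcases h4 with rfl | rfl
            · rw [v2, a8]; norm_num
            · rw [v5, a8]; norm_num
        rintro ⟨i', j', X', Y', ht', h5, -⟩
        obtain ⟨rfl, rfl, -, -⟩ := ht2.uniq ht'
        exact h5 hn24
      refine BlW.step (land_none P hc hD.toOk2 hW hl)
        (land_up P hc hD hW (h4.elim (fun h => Or.inr (Or.inl h)) fun h => Or.inr (Or.inr h))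
          (fun m hm => hm.1) ?_ ?_ hl)
      · change 64 ≤ p.1 + (vec u).1
        have := ht.e1
        rcases h4 with rfl | rfl
        · rw [v2]; simp only; omega
        · rw [v5]; simp only; omega
      · change 64 * 24 ≤ p.2 + (vec u).2
        have := ht.e2
        rcases h4 with rfl | rfl
        · rw [v2]; simp only; push_cast at this; omega
        · rw [v5]; simp only; push_cast at this; omega
    · rw [e1] at h3
      rw [ht.eqA]
      have hfit := fit_resA P hD.toOk2 (μ := μ) (x := x) ht.hi ht.hj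
      rw [k34] at hfit
      refine scg_blw hfit ?_ (fun k hk h => tmk_spec u hu' 61 (by decide) k hk h) ?_ hu' 90 _ h3
      · intro j hj hj2 hq
        have h4 := (qb_iff P hq).2.2.2
        rw [sqA_snd, org_snd] at h4
        push_cast at h4
        omega
      · intro j hj h4
        have := (inA_lt hj).1
        omega
  · have hcase : (u = 43 ∨ u = 62 ∨ u = 63) ∨ (u = 41 ∨ u = 22 ∨ u = 21) := by
      have : ∀ u ∈ sdB, (u = 43 ∨ u = 62 ∨ u = 63) ∨ (u = 41 ∨ u = 22 ∨ u = 21) := by decide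
      exact this u hu
    rcases hcase with h3 | h3
    · exact land_up P hc hD hW h3 (fun m hm => hm.1) (by omega) h2 (line_land P hc hH h.1 h1 h2)
    · exact land_dn P hc hD hW hH hB hE h3 h.1 h1 h2
  · have e : p = sqA (World.org (67 + 2 * P.n) (42 + 3 * P.n)) (X + 80 * (hX + hY - X)) := by
      have e1 := ht.e1
      have e2 := ht.e2
      have e3 := ht.X2
      refine Prod.ext ?_ ?_
      · rw [sqA_fst, org_fst, show (X + 80 * (hX + hY - X)) % 80 = X by omega]
        exact e1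
      · rw [sqA_snd, org_snd, show (X + 80 * (hX + hY - X)) / 80 = hX + hY - X by omega]
        rw [e2]
        push_cast
        omega
    rcases hB.dsc X h1 ht.X2 u hu with ⟨h3, h4⟩ | ⟨h3, h4⟩ | h3
    · subst h3 h4
      have hs := hH.s
      have ht2 : Tl P (68 + 2 * P.n) (43 + 3 * P.n) 8 Y (p + vec 43) := by
        obtain ⟨a1, a2, a3, a4, a5, a6, a7, a8⟩ := ht
        refine ⟨by unfold nx; omega, a2, le_refl 8, by omega, a5, a6, ?_, ?_⟩
        · change p.1 + (vec 43).1 = _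
          rw [v1, a7]; push_cast; ring
        · change p.2 + (vec 43).2 = _
          rw [v1, a8]; ring
      have hl : ¬ Hull P c (p + vec 43) := by
        rintro ⟨i', j', X', Y', ht', h5, -⟩
        obtain ⟨rfl, rfl, -, -⟩ := ht2.uniq ht'
        refine h5 (diag_kd P le_rfl (by omega) (by omega) ht.hj (by omega) (by omega))
      refine BlW.step (land_none P hc hD.toOk2 hW hl)
        (land_up P hc hD hW (Or.inl rfl) (fun m hm => hm.1) ?_ ?_ hl)
      · have := ht2.e1
        push_cast at this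
        omega
      · have := ht2.e2
        push_cast at this
        omega
    · subst h3
      refine col_down P hc hD hH hB hC h4 (fun q hq => ?_) (fun m hm => hm.1) ?_
      · left
        have := (qb_iff P hq).1
        have := ht.X2
        omega
      · have := ht.e1
        have := ht.e2
        have := hC.z
        have := hH.s
        have := hH.x10
        have := hH.y2
        refine ⟨?_, ?_, ?_⟩
        · push_cast at this ⊢
          omega
        · omega
        · omega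
    · rw [e]
      refine scg_blw (fun j hj hne => tb_cells P hD hB j hj hne) ?_
        (fun k hk h => tmk_spec u hu' 61 (by decide) k hk h) ?_ hu' 150 _ h3
      · intro j hj _ hq
        have h4 := (qb_iff P hq).1
        rw [sqA_fst, org_fst] at h4
        push_cast at h4
        omega
      · intro j hj h4 i
        have hcase : (u = 43 ∨ u = 62 ∨ u = 63) ∨ (u = 41 ∨ u = 22 ∨ u = 21) := by
          have : ∀ u ∈ sdB, (u = 43 ∨ u = 62 ∨ u = 63) ∨ (u = 41 ∨ u = 22 ∨ u = 21) := by decide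
          exact this u hu
        rcases hcase with h5 | h5
        · have h6 : zsB hX hY u = hX + hY + 2 := by
            rcases h5 with rfl | rfl | rfl <;> rfl
          rw [h6] at h4
          exact (farWorld P hc hD.toOk2 hW).zone _ (tb_zone P hH h4 hc h5 i)
        · exfalso
          have h6 : zsB hX hY u = 1000 := by
            rcases h5 with rfl | rfl | rfl <;> rfl
          have := (inA_lt hj).1
          omega

include hc hD hW hH in
/-- pieces near the line -/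
theorem lnB_near {p a : Sq} (h : LnB P hX hY zB p) (h70 : 64 * 23 - 8 + 70 ≤ p.2)
    (h1 : p.1 - 2 ≤ a.1) (h2 : a.1 ≤ p.1 + 2) (h3 : p.2 - 2 ≤ a.2)
    (h5 : p.1 + p.2 - 3 ≤ a.1 + a.2) (h6 : a.1 + a.2 ≤ p.1 + p.2 + 3)
    (ha : resB P D μ x a ≠ none) :
    (∃ X Y, Tl P (87 + 5 * P.n) 23 X Y a) ∨ ∃ X Y, Tl P (67 + 2 * P.n) (43 + 3 * P.n) X Y a := by
  obtain ⟨i, j, X, Y, ht, hk, -⟩ := hull_of P hc hD.toOk2 hW ha
  have hs : 147 ≤ hX + hY ∧ hX + hY ≤ 202 := hH.s
  have h10 := hH.x10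
  obtain ⟨q1, q2, q3⟩ := h
  unfold sgB at q1
  have harith : (110 + 5 * P.n ≤ i + j ∧ i + j ≤ 111 + 5 * P.n) ∧ 67 + 2 * P.n ≤ i ∧
      i ≤ 87 + 5 * P.n ∧ 23 ≤ j := by
    obtain ⟨-, -, x1, x2, y1, y2, e1, e2⟩ := ht
    refine ⟨⟨?_, ?_⟩, ?_, ?_, ?_⟩
    · clear h1 h2 h3 h70 q2 q3 h10 hk; omega
    · clear h1 h2 h3 h70 q2 q3 h10 hk; omega
    · clear h2 h3 h70 q1 q3 h5 h6 hk hs y1 y2 e2; omega
    · clear h1 h3 q2 q3 h5 h6 hk h10 y1 y2 e2; omega
    · clear h1 h2 q1 q2 q3 h5 h6 hk hs h10 x1 x2 e1; omega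
  obtain ⟨⟨b1, b2⟩, b3, b4, b5⟩ := harith
  rcases Nat.eq_or_lt_of_le b5 with b6 | b6
  · subst b6
    left
    have : i = 87 + 5 * P.n := by omega
    subst this
    exact ⟨X, Y, ht⟩
  · rcases Nat.eq_or_lt_of_le b3 with b7 | b7
    · subst b7
      rcases (by omega : j = 43 + 3 * P.n ∨ j = 44 + 3 * P.n) with rfl | rfl
      · exact Or.inr ⟨X, Y, ht⟩
      · exact absurd (kd_44 P) hk
    · exact absurd (diag_kd P (by omega) b4 (by omega) ht.hj b1 b2) hk

include hc hD hW hH hB hG in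
/-- no White knight or pawn near the line -/
theorem lnB_kp {p a : Sq} (h : LnB P hX hY zB p) (h70 : 64 * 23 - 8 + 70 ≤ p.2) :
    (p - a ∈ knightJumps → resB P D μ x a ≠ some (true, Kind.knight)) ∧
    (p - a = (0, 1) → resB P D μ x a ≠ some (true, Kind.pawn)) := by
  obtain ⟨-, k34, -, -, k36, k35⟩ := kd_bin P
  have hs : 147 ≤ hX + hY ∧ hX + hY ≤ 202 := hH.s
  have h10 := hH.x10
  have hh := h
  obtain ⟨q1, q2, q3⟩ := hh
  unfold sgB at q1
  constructor
  · intro h1 h2
    obtain ⟨q, hq, w1, w2⟩ := knL_of _ h1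
    obtain ⟨r1, r2, r3, r4⟩ := knL_le q hq
    have e1 : (p - a).1 = p.1 - a.1 := rfl
    have e2 : (p - a).2 = p.2 - a.2 := rfl
    rw [e1] at w1
    rw [e2] at w2
    have hn : resB P D μ x a ≠ none := by rw [h2]; simp
    rcases lnB_near P hc hD hW hH h h70 (a := a) (by omega) (by omega) (by omega) (by omega)
      (by omega) hn with ⟨X, Y, ht⟩ | ⟨X, Y, ht⟩
    · have h3 := wh_cell P ht h2
      rw [k34] at h3
      have h4 := dec_kn _ (WA_codeA_lt _ _ _) h3
      obtain ⟨-, -, x1, x2, y1, y2, f1, f2⟩ := ht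
      obtain ⟨Yp, hYp⟩ : ∃ Yp : ℕ, (Yp : ℤ) = p.2 - (64 * 23 - 8) :=
        ⟨(p.2 - (64 * 23 - 8)).toNat, by omega⟩
      have g1 : 70 ≤ Yp := by omega
      have g2 : Yp + q.2 = Y + 2 := by push_cast at f2; omega
      have g3 : hX + hY + q.1 - (Yp + 66) = X := by push_cast at f1; omega
      have g4 : Yp + q.2 - 2 = Y := by omega
      have g5 : Yp < 74 := by omega
      have g6 : Yp + q.2 < 74 := by omega
      refine hG.kn34 Yp g1 g5 q hq g6 ?_
      rw [g3, g4]
      exact h4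
    · have h3 := wh_cell P ht h2
      rw [k35] at h3
      have h4 := dec_kn _ (WA_codeA_lt _ _ _) h3
      obtain ⟨-, -, x1, x2, y1, y2, f1, f2⟩ := ht
      obtain ⟨Xp, hXp⟩ : ∃ Xp : ℕ, (Xp : ℤ) = p.1 - (64 * (67 + 2 * (P.n : ℤ)) - 8) :=
        ⟨(p.1 - (64 * (67 + 2 * (P.n : ℤ)) - 8)).toNat, by omega⟩
      have g1 : hX ≤ Xp := by omega
      have g2 : Xp + q.1 = X + 2 := by push_cast at f1; omega
      have g3 : hX + hY + q.2 - (Xp + 66) = Y := by push_cast at f2; omega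
      have g4 : Xp + q.1 - 2 = X := by omega
      have g5 : Xp < 74 := by omega
      have g6 : Xp + q.1 < 74 := by omega
      refine hG.kn35 Xp g1 g5 q hq g6 ?_
      rw [g3, g4]
      exact h4
  · intro h1 h2
    have e1 : p.1 - a.1 = 0 := congrArg Prod.fst h1
    have e2 : p.2 - a.2 = 1 := congrArg Prod.snd h1
    have hn : resB P D μ x a ≠ none := by rw [h2]; simp
    rcases lnB_near P hc hD hW hH h h70 (a := a) (by omega) (by omega) (by omega) (by omega)
      (by omega) hn with ⟨X, Y, ht⟩ | ⟨X, Y, ht⟩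
    · have h3 := wh_cell P ht h2
      rw [k34] at h3
      have h4 := dec_pn _ (WA_codeA_lt _ _ _) h3
      obtain ⟨-, -, x1, x2, y1, y2, f1, f2⟩ := ht
      have g1 : 70 ≤ Y + 1 := by push_cast at f2; omega
      have g3 : hX + hY - (Y + 1 + 64) = X := by push_cast at f1 f2; omega
      have h5 := hG.pn34 (Y + 1) g1 (by omega)
      rw [g3, show Y + 1 - 1 = Y by omega] at h5
      exact h5 h4
    · have h3 := wh_cell P ht h2
      rw [k35] at h3
      have h4 := dec_pn _ (WA_codeA_lt _ _ _) h3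
      obtain ⟨-, -, x1, x2, y1, y2, f1, f2⟩ := ht
      have g1 : hX ≤ X := by push_cast at f1; omega
      have g3 : hX + hY - (X + 65) = Y := by push_cast at f1 f2; omega
      have h5 := hG.pn35 X g1 (by omega)
      rw [g3] at h5
      exact h5 h4

theorem lnB_st (j : ℕ) : stepL (World.org (87 + 5 * P.n) 23) zB 61 j =
    (64 * (87 + 5 * (P.n : ℤ)) - 8 + ((zB % 80 : ℕ) : ℤ) - j, 64 * 23 - 8 + ((zB / 80 : ℕ) : ℤ) + j) := by
  have hv : vec 61 = (-1, 1) := by decide
  unfold stepL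
  refine Prod.ext ?_ ?_
  · rw [add_nsmul_fst, sqA_fst, org_fst, hv]; push_cast; ring
  · rw [add_nsmul_snd, sqA_snd, org_snd, hv]; push_cast; ring

include hc hD hH hB hG in
/-- behind the home -/
theorem lnB_beh : ∃ κ, resB P D μ x (64 * (67 + 2 * (P.n : ℤ)) - 8 + hX - 1,
    64 * (42 + 3 * (P.n : ℤ)) - 8 + hY + 1) = some (false, κ) ∧
      (κ = Kind.pawn ∨ κ = Kind.knight) := by
  have h1 := hH.x10
  have h2 := hH.y2
  have h3 := hH.s
  have h4 := hH.x
  have h5 := hc.toOk.hx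
  obtain ⟨κ, g1, g2⟩ := quiet_bk _ (WA_codeA_lt _ _ _) hG.fblk
  refine ⟨κ, ?_, g2⟩
  rw [← g1]
  have hne : codeA tb (hX - 1) (hY + 1) ≠ 15 := by
    intro h
    rw [h] at g1
    cases g1
  rw [← tb_cellc P hD hB (μ := μ) (x := x) (by omega) (by omega) (by omega)
    (by omega) hne]
  congr 1
  refine Prod.ext ?_ ?_
  · simp only; omega
  · simp only; push_cast; ring

include hc hD hH hB hG in
/-- two squares behind the home -/
theorem lnB_beh2 : ∃ m, resB P D μ x (64 * (67 + 2 * (P.n : ℤ)) - 8 + hX - 2,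
    64 * (42 + 3 * (P.n : ℤ)) - 8 + hY + 2) = some m ∧ m.2 ≠ Kind.bishop ∧ m.2 ≠ Kind.queen := by
  have h1 := hH.x10
  have h2 := hH.y2
  have h3 := hH.s
  have h4 := hH.x
  have h5 := hc.toOk.hx
  have key : ∀ k < 16, msk 0x1616 k = true → ∃ m, dec k = some m ∧ m.2 ≠ Kind.bishop ∧
      m.2 ≠ Kind.queen := by
    intro k hk h
    have key : ∀ k < 16, msk 0x1616 k = true → k = 1 ∨ k = 2 ∨ k = 4 ∨ k = 9 ∨ k = 10 ∨ k = 12 := by
      decide
    rcases key k hk h with rfl | rfl | rfl | rfl | rfl | rfl <;>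
      exact ⟨_, rfl, by decide, by decide⟩
  obtain ⟨m, g1, g2⟩ := key _ (WA_codeA_lt _ _ _) hG.fblk2
  refine ⟨m, ?_, g2⟩
  rw [← g1]
  have hne : codeA tb (hX - 2) (hY + 2) ≠ 15 := by
    intro h
    rw [h] at g1
    cases g1
  rw [← tb_cellc P hD hB (μ := μ) (x := x) (by omega) (by omega) (by omega)
    (by omega) hne]
  congr 1
  refine Prod.ext ?_ ?_
  · simp only; omega
  · simp only; push_cast; ring

include hD hB in
/-- the diagonal behind the special square -/
theorem lnB_se (hs : zB % 80 + zB / 80 < 144) {t : ℕ} :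
    (t < nb → resB P D μ x (64 * (87 + 5 * (P.n : ℤ)) - 8 + ((zB % 80 : ℕ) : ℤ) + t,
      64 * 23 - 8 + ((zB / 80 : ℕ) : ℤ) - t) = none) ∧
    (t = nb → ∃ κ, resB P D μ x (64 * (87 + 5 * (P.n : ℤ)) - 8 + ((zB % 80 : ℕ) : ℤ) + t,
      64 * 23 - 8 + ((zB / 80 : ℕ) : ℤ) - t) = some (false, κ) ∧
        (κ = Kind.pawn ∨ κ = Kind.knight)) := by
  obtain ⟨-, k34, -, -, k36, k35⟩ := kd_bin P
  obtain ⟨b1, b2, b3⟩ := hB.blk
  have hi : 87 + 5 * P.n < nx P.n := by unfold nx; omega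
  have hj : 23 < ny P.n := by unfold ny; omega
  have key : ∀ t ≤ nb, codeA (D.ar 34) (zB % 80 + t) (zB / 80 - t) ≠ 15 →
      resB P D μ x (64 * (87 + 5 * (P.n : ℤ)) - 8 + ((zB % 80 : ℕ) : ℤ) + t,
      64 * 23 - 8 + ((zB / 80 : ℕ) : ℤ) - t) = dec (codeA (D.ar 34) (zB % 80 + t) (zB / 80 - t)) := by
    intro t ht hne
    have h := fit_resB P hD.toOk2 (μ := μ) (x := x) hi hj (X := zB % 80 + t) (Y := zB / 80 - t)
      (by omega) (by have := hB.z1; clear hs; omega) (by rw [k34]; exact hne)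
    rw [k34] at h
    rw [← h]
    congr 1
    refine Prod.ext ?_ ?_
    · change _ = (World.org (87 + 5 * P.n) 23).1 + ((zB % 80 + t : ℕ) : ℤ)
      rw [org_fst]; push_cast; ring
    · change _ = (World.org (87 + 5 * P.n) 23).2 + ((zB / 80 - t : ℕ) : ℤ)
      rw [org_snd]; push_cast; omega
  constructor
  · intro ht
    have h0 := hB.bclr t ht
    rw [key t ht.le (by rw [h0]; decide), h0]
    rfl
  · rintro rfl
    obtain ⟨κ, g1, g0⟩ := quiet_bk _ (WA_codeA_lt _ _ _) b3
    refine ⟨κ, ?_, g0⟩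
    rw [key t le_rfl ?_, g1]
    intro h
    rw [h] at g1
    cases g1

include hc hD hW hH hB hG in
/-- sliders on the diagonal of the line are blocked -/
theorem lnB_diag {j : ℕ} (h0 : 0 < j) (hj : j ≤ jB P hX zB) {u : ℕ} (hu : u = 61 ∨ u = 23)
    {l : ℕ} (hl : 0 < l) {κ : Kind}
    (ha : resB P D μ x (stepL (World.org (87 + 5 * P.n) 23) zB 61 j + l • vec u) = some (true, κ)) :
    ∃ i : ℕ, 0 < i ∧ i < l ∧
      resB P D μ x (stepL (World.org (87 + 5 * P.n) 23) zB 61 j + i • vec u) ≠ none := by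
  obtain ⟨z1, z2, z3, z4⟩ := hB.z1
  have hlt : zB % 80 + zB / 80 < 144 := by omega
  have hclr : ∀ j', 0 < j' → j' ≤ jB P hX zB →
      resB P D μ x (stepL (World.org (87 + 5 * P.n) 23) zB 61 j') = none :=
    fun j' g1 g2 => lnB_clear P hc hD hW hH hB (lnB_step P hH g1 g2)
  rcases hu with rfl | rfl
  · -- upwards
    have hst : ∀ i : ℕ, stepL (World.org (87 + 5 * P.n) 23) zB 61 j + i • vec 61 =
        stepL (World.org (87 + 5 * P.n) 23) zB 61 (j + i) := by
      intro i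
      unfold stepL
      rw [add_assoc, ← add_smul]
    obtain ⟨κ', hb1, -⟩ := lnB_beh P hc hD hH hB hG (μ := μ) (x := x)
    have hbe : stepL (World.org (87 + 5 * P.n) 23) zB 61 (jB P hX zB + 1) =
        (64 * (67 + 2 * (P.n : ℤ)) - 8 + hX - 1, 64 * (42 + 3 * (P.n : ℤ)) - 8 + hY + 1) := by
      rw [lnB_st]
      have g1 := hH.x10
      have g2 := hH.y2
      have g3 := hH.s
      have g4 := hH.x
      have g5 := hc.toOk.hx
      have g6 := hH.z
      unfold jB
      refine Prod.ext ?_ ?_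
      · simp only; clear z2 z3 hlt; omega
      · simp only; clear z2 z3 hlt; omega
    rw [← hbe] at hb1
    rw [hst] at ha
    have h1 : jB P hX zB < j + l := by
      by_contra h
      rw [hclr (j + l) (by omega) (by omega)] at ha
      cases ha
    have h2 : j + l ≠ jB P hX zB + 1 := by
      intro h
      rw [h, hb1] at ha
      cases ha
    refine ⟨jB P hX zB + 1 - j, by omega, by omega, ?_⟩
    rw [hst, show j + (jB P hX zB + 1 - j) = jB P hX zB + 1 by omega, hb1]
    simp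
  · -- downwards
    have hv : vec 23 = (1, -1) := by decide
    have hst : ∀ i : ℕ, i < j → stepL (World.org (87 + 5 * P.n) 23) zB 61 j + i • vec 23 =
        stepL (World.org (87 + 5 * P.n) 23) zB 61 (j - i) := by
      intro i hi
      rw [lnB_st, lnB_st]
      refine Prod.ext ?_ ?_
      · rw [add_nsmul_fst, hv]; push_cast [hi.le]; ring
      · rw [add_nsmul_snd, hv]; push_cast [hi.le]; ring
    have hst2 : ∀ i : ℕ, j ≤ i → stepL (World.org (87 + 5 * P.n) 23) zB 61 j + i • vec 23 =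
        (64 * (87 + 5 * (P.n : ℤ)) - 8 + ((zB % 80 : ℕ) : ℤ) + ((i - j : ℕ) : ℤ),
          64 * 23 - 8 + ((zB / 80 : ℕ) : ℤ) - ((i - j : ℕ) : ℤ)) := by
      intro i hi
      rw [lnB_st]
      refine Prod.ext ?_ ?_
      · rw [add_nsmul_fst, hv]; push_cast [hi]; ring
      · rw [add_nsmul_snd, hv]; push_cast [hi]; ring
    have h1 : j ≤ l := by
      by_contra h
      rw [hst l (by omega), hclr (j - l) (by omega) (by omega)] at ha
      cases ha
    have h2 : nb ≤ l - j := by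
      by_contra h
      rw [hst2 l h1, (lnB_se P hD hB hlt (t := l - j)).1 (by omega)] at ha
      cases ha
    have h3 : l - j ≠ nb := by
      intro h
      obtain ⟨κ', h4, -⟩ := (lnB_se P hD hB hlt (t := l - j) (μ := μ) (x := x)).2 h
      rw [hst2 l h1, h4] at ha
      cases ha
    refine ⟨j + nb, by omega, by omega, ?_⟩
    obtain ⟨κ', h4, -⟩ := (lnB_se P hD hB hlt (t := nb) (μ := μ) (x := x)).2 rfl
    rw [hst2 (j + nb) (by omega), show j + nb - j = nb by omega, h4]
    simp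

include hc hD hW hH hB hG hC in
/-- White pieces do not come to the line -/
theorem lnB_white {zW : ℕ} (hE : WinE D zE zW) {j : ℕ} (h0 : 0 < j) (hj : j ≤ jB P hX zB)
    (h70 : 64 * 23 - 8 + 70 ≤ (stepL (World.org (87 + 5 * P.n) 23) zB 61 j).2) {a : Sq} {κ : Kind}
    (ha : resB P D μ x a = some (true, κ)) :
    WNo (resB P D μ x) κ a (stepL (World.org (87 + 5 * P.n) 23) zB 61 j) := by
  have hL := lnB_step P hH h0 hj
  have hnk := resB_noK P hD.toOk2 (μ := μ) (x := x)
  have hsl : ∀ u ∈ orT ++ diT, ∀ l : ℕ, 0 < l →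
      a = stepL (World.org (87 + 5 * P.n) 23) zB 61 j + l • vec u → SlK κ u →
      ∃ i : ℕ, 0 < i ∧ i < l ∧
        resB P D μ x (stepL (World.org (87 + 5 * P.n) 23) zB 61 j + i • vec u) ≠ none := by
    intro u hu l hl hal hs
    rw [hal] at ha
    have hcase : (u = 61 ∨ u = 23) ∨ u ∈ sdB := by
      have : ∀ u ∈ orT ++ diT, (u = 61 ∨ u = 23) ∨ u ∈ sdB := by decide
      exact this u hu
    rcases hcase with h1 | h1
    · exact lnB_diag P hc hD hW hH hB hG h0 hj h1 hl ha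
    · obtain ⟨i, g1, g2, -, g4⟩ := lnB_side P hc hD hW hH hB hC hE hL h70 h1 l _ hl ha
        ⟨hs, fun h => by cases h⟩
      exact ⟨i, g1, g2, g4⟩
  cases κ with
  | king => exact (hnk a).1 ha
  | queen =>
    intro h5
    exact line_betw hsl (h5.imp (fun h => ⟨h, Or.inl rfl⟩) (fun h => ⟨h, Or.inl rfl⟩))
  | rook =>
    intro h5
    exact line_betw hsl (Or.inl ⟨h5, Or.inr rfl⟩)
  | bishop =>
    intro h5
    exact line_betw hsl (Or.inr ⟨h5, Or.inr rfl⟩)
  | knight =>
    intro h5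
    exact (lnB_kp P hc hD hW hH hB hG hL h70).1 h5 ha
  | pawn =>
    refine ⟨fun h5 => (lnB_kp P hc hD hW hH hB hG hL h70).2 h5 ha, fun h5 => ?_⟩
    exact absurd (lnB_clear P hc hD hW hH hB hL) h5

include hc hD hW hH hB hG hC in
/-- **The line of `Bin`.** -/
theorem lineB {zW : ℕ} (hE : WinE D zE zW) : LineT (resB P D μ x) 72 (D.ar 34) 61 zB
    (jB P hX zB) (World.org (87 + 5 * P.n) 23) := by
  obtain ⟨-, k34, -, -, k36, k35⟩ := kd_bin P
  obtain ⟨z1, z2, z3, z4⟩ := hB.z1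
  have hcore : ∀ j : ℕ, 0 < j → j ≤ jB P hX zB →
      stepL (World.org (87 + 5 * P.n) 23) zB 61 j ∉ CoreH 2 72 (World.org (87 + 5 * P.n) 23) →
      64 * 23 - 8 + 70 ≤ (stepL (World.org (87 + 5 * P.n) 23) zB 61 j).2 := by
    intro j g1 g2 g3
    have h1 := hH.s
    have h2 := hH.z
    rw [lnB_st] at g3 ⊢
    unfold CoreH at g3
    rw [Set.mem_ofPred_eq, org_fst, org_snd] at g3
    push_cast at g3
    simp only
    by_contra h3
    apply g3
    clear z2 z3
    refine ⟨?_, ?_, ?_, ?_⟩ <;> omega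
  refine ⟨by decide, ⟨?_, ?_⟩, ?_, ?_, ?_, ?_⟩
  · intro X Y hX' hY' hne
    have h := fit_resB P hD.toOk2 (μ := μ) (x := x) (i := 87 + 5 * P.n) (j := 23)
      (by unfold nx; omega) (by unfold ny; omega) hX' (Y := Y) (by omega) (by rw [k34]; exact hne)
    rw [k34] at h
    exact h
  · exact resB_noK P hD.toOk2
  · exact fun j g1 g2 => lnB_clear P hc hD hW hH hB (lnB_step P hH g1 g2)
  · intro j g1 g2 g3 u hu hu1 hu2 l κ hl ha hs hs2
    have hcase : u ∈ sdB := by
      have : ∀ u ∈ orT ++ diT, u ≠ 61 → u + 61 ≠ 84 → u ∈ sdB := by decide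
      exact this u hu hu1 hu2
    exact lnB_side P hc hD hW hH hB hC hE (lnB_step P hH g1 g2) (hcore j g1 g2 g3) hcase l _ hl ha
      ⟨hs, fun _ => hs2⟩
  · intro j g1 g2 g3 a κ ha
    exact lnB_white P hc hD hW hH hB hG hC hE g1 g2 (hcore j g1 g2 g3) ha
  · intro h
    rw [lnB_st] at h
    unfold CoreH at h
    rw [Set.mem_ofPred_eq, org_fst, org_snd] at h
    push_cast at h
    obtain ⟨-, -, -, h4⟩ := h
    have h1 := hH.s
    have h2 := hH.z
    have h3 := hH.x10
    have h5 : hX < 72 := by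
      have := hH.x
      have := hc.toOk.hx
      omega
    unfold jB at h4
    clear z2 z3
    omega

include hc in
/-- squares below the windows are not in the zone -/
theorem low_zone {s : Sq} (h : s.2 < 64 * (26 + 3 * (P.n : ℤ))) : s.2 ≤ (geo c P.n).T ∧
    ¬ (geo c P.n).Zone s ∧ s ≠ (geo c P.n).hb := by
  have hG := geo_ok hc.toOk P.n
  have o1 := hc.toOk.rE
  have o2 := hc.toOk.rW
  have o3 := hc.toOk.hy
  refine ⟨by simp only [geo]; omega, ?_, ?_⟩
  · rintro (⟨k1, -⟩ | ⟨k1, -⟩ | ⟨q, k1, k2, k3⟩)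
    · simp only [geo] at k1
      omega
    · simp only [geo] at k1
      omega
    · have := hG.hT q
      simp only [geo] at this k1 k2 k3
      omega
  · rintro rfl
    simp only [geo, FGeo.hb] at h
    omega

include hc hD hW hH hB hG hC in
/-- **The service `Bin`.** -/
theorem binT {R : Room} (hR : RoomOk D R) {zW : ℕ} (hE : WinE D zE zW) :
    BinT (geo c P.n) (resB P D μ x) R 72 (D.ar 34) zB (jB P hX zB)
      (World.org (87 + 5 * P.n) 23) := by
  obtain ⟨-, k34, -, -, k36, k35⟩ := kd_bin P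
  have hz1 := hB.z1
  have hx1 := hH.x
  have hy1 := hH.y
  have hs := hH.s
  have hz := hH.z
  have o1 := hc.toOk.hx
  have o2 := hc.toOk.hy
  have hhb : (geo c P.n).hb = (64 * (67 + 2 * (P.n : ℤ)) - 8 + hX, 64 * (42 + 3 * (P.n : ℤ)) - 8 + hY) := by
    unfold FGeo.hb
    simp only [geo]
    refine Prod.ext ?_ ?_
    · simp only; omega
    · simp only; omega
  have hhb2 : (geo c P.n).hb = stepL (World.org (87 + 5 * P.n) 23) zB 61 (jB P hX zB) := by
    rw [hhb, lnB_st]
    unfold jB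
    refine Prod.ext ?_ ?_
    · simp only; omega
    · simp only; omega
  have hR' := hR.Z
  refine ⟨geo_ok hc.toOk P.n, farWorld P hc hD.toOk2 hW, lineB P hc hD hW hH hB hG hC hE, ?_, ?_, ?_,
    ⟨?_, ?_⟩, ?_, ?_, ?_, ?_⟩
  · -- the special square
    unfold FGeo.se
    simp only [geo]
    unfold jB
    refine Prod.ext ?_ ?_
    · rw [sqA_fst, org_fst]; push_cast; omega
    · rw [sqA_snd, org_snd]; push_cast; omega
  · -- behind the home
    obtain ⟨κ, h1, h2⟩ := lnB_beh P hc hD hH hB hG (μ := μ) (x := x)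
    refine ⟨κ, ?_, h2⟩
    rw [hhb, ← h1]
    congr 1
  · obtain ⟨m, h1, h2⟩ := lnB_beh2 P hc hD hH hB hG (μ := μ) (x := x)
    refine ⟨m, ?_, h2⟩
    rw [hhb, ← h1]
    congr 1
  · -- the square of the line
    have h1 : (geo c P.n).hb + (1, -1) = stepL (World.org (87 + 5 * P.n) 23) zB 61
        (jB P hX zB - 1) := by
      rw [hhb2, lnB_st, lnB_st]
      unfold jB
      refine Prod.ext ?_ ?_
      · change _ + 1 = _
        simp only; omega
      · change _ + -1 = _
        simp only; omega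
    rw [h1, lnB_clear P hc hD hW hH hB (lnB_step P hH (by unfold jB; omega) (by omega))]
    simp
  · intro h
    have ht : Tl P (67 + 2 * P.n) (43 + 3 * P.n) (hX - 1) (hY - 65) ((geo c P.n).hb + (-1, -1)) := by
      have h10 := hH.x10
      have h20 := hH.y2
      rw [hhb]
      refine ⟨by unfold nx; omega, by unfold ny; omega, by omega, by omega, by omega, by omega, ?_, ?_⟩
      · change _ + -1 = _
        push_cast
        omega
      · change _ + -1 = _
        push_cast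
        omega
    have h3 := wh_cell P ht h
    rw [k35] at h3
    exact hG.wp (dec_pn _ (WA_codeA_lt _ _ _) h3)
  · -- the region of the tile
    intro s h
    unfold TileRegH at h
    rw [Set.mem_ofPred_eq, org_fst, org_snd] at h
    obtain ⟨-, -, h3, h4⟩ := h
    push_cast at h4
    exact low_zone P hc (by omega)
  · intro s h
    obtain ⟨-, -, -, h4⟩ := hR' s h
    exact low_zone P hc (by omega)
  · exact reg_king hR (by omega) (by omega)
  · refine hR.G _ fun X Y hX2 hX3 hY2 hY3 => ?_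
    have h39 := kd00 P
    have h5 := fit_resB P hD.toOk2 (μ := μ) (x := x) (i := 0) (j := 0) (by unfold nx; omega)
      (by unfold ny; omega) (X := X) (Y := Y)
      (by omega) (by omega) (by rw [h39]; exact hR.cells X Y hX2 hX3 hY2 hY3)
    rw [h39] at h5
    exact h5

end

end Pool.Agent.Lib.H32C.Ly
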