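import Pool.Agent.Lib.H32C.FoA
import Pool.Agent.Lib.H32C.WldR

/-!
# The service `Out` in the world of a program
-/

set_option autoImplicit false

namespace Pool.Agent.Lib.H32C.Ly

open Loc

variable (P : Prog)

/-- the region of the tile of `Out` -/
def QO : Set Sq := CoreH 3 80 (World.org (67 + 2 * P.n) (41 + 3 * P.n))

theorem qo_iff {q : Sq} (hq : q ∈ QO P) : 64 * (67 + 2 * (P.n : ℤ)) - 5 ≤ q.1 ∧
    q.1 ≤ 64 * (67 + 2 * (P.n : ℤ)) + 68 ∧ 64 * (41 + 3 * (P.n : ℤ)) - 5 ≤ q.2 ∧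
    q.2 ≤ 64 * (41 + 3 * (P.n : ℤ)) + 68 := by
  unfold QO CoreH at hq
  rw [Set.mem_ofPred_eq, org_fst, org_snd] at hq
  push_cast at hq
  omega

section

variable {c : Offs} (hc : c.Ok2) {D : TD} (hD : D.Ok3) (hW : WallOk c D) {μ : Option ℕ}
  {x : Option (ℕ × ℕ)} {tb hX hY zB nb zE : ℕ} (hH : Hs c hX hY zB nb)
  (hB : BinF D tb hX hY zB nb zE) (hG : BinG D tb hX hY zB nb) {zO : ℕ}
  (hC : ColF D tb hX hY zO) (hO : OutF D tb hX hY)

include hc hD hW hH hB in
/-- the line of `Bin` from the home on -/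
theorem home_se {i : ℕ} (h0 : 0 < i) :
    (i < jB P hX zB + nb → resB P D μ x (64 * (67 + 2 * (P.n : ℤ)) - 8 + hX + i,
      64 * (42 + 3 * (P.n : ℤ)) - 8 + hY - i) = none) ∧
    (i = jB P hX zB + nb → ∃ κ, resB P D μ x (64 * (67 + 2 * (P.n : ℤ)) - 8 + hX + i,
      64 * (42 + 3 * (P.n : ℤ)) - 8 + hY - i) = some (false, κ) ∧
        (κ = Kind.pawn ∨ κ = Kind.knight)) := by
  obtain ⟨z1, z2, z3, z4⟩ := hB.z1
  have hz := hH.z
  have hs := hH.s
  have h10 := hH.x10
  have hlt : zB % 80 + zB / 80 < 144 := by omega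
  have h79 : hX ≤ 79 := by
    have := hH.x
    have := hc.toOk.hx
    omega
  obtain ⟨J, hJ⟩ : ∃ J, jB P hX zB = J := ⟨_, rfl⟩
  have hJ2 := hJ
  unfold jB at hJ2
  rcases Nat.lt_or_ge i J with h1 | h1
  · rw [hJ]
    refine ⟨fun _ => ?_, fun h => by omega⟩
    have h2 := lnB_clear P hc hD hW hH hB (μ := μ) (x := x)
      (lnB_step P hH (j := J - i) (by omega) (by omega))
    rw [lnB_st] at h2
    rw [← h2]
    congr 1
    refine Prod.ext ?_ ?_
    · simp only; clear z1 z2 hz hlt hs; omega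
    · simp only; clear z3 z4 hs; omega
  · have e : ((64 * (67 + 2 * (P.n : ℤ)) - 8 + hX + i, 64 * (42 + 3 * (P.n : ℤ)) - 8 + hY - i) : Sq) =
        (64 * (87 + 5 * (P.n : ℤ)) - 8 + ((zB % 80 : ℕ) : ℤ) + ((i - J : ℕ) : ℤ),
          64 * 23 - 8 + ((zB / 80 : ℕ) : ℤ) - ((i - J : ℕ) : ℤ)) := by
      refine Prod.ext ?_ ?_
      · simp only; clear z1 z2 hz hlt hs; omega
      · simp only; clear z3 z4 hs; omega
    rw [hJ, e]
    constructor
    · intro h2
      exact (lnB_se P hD hB hlt (t := i - J)).1 (by omega)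
    · intro h2
      exact (lnB_se P hD hB hlt (t := i - J)).2 (by omega)

include hD hB hC hH hc in
/-- the rook above the home -/
theorem home_rook (h : codeA tb hX (hY + 1) = 12) :
    resB P D μ x (64 * (67 + 2 * (P.n : ℤ)) - 8 + hX, 64 * (42 + 3 * (P.n : ℤ)) - 8 + hY + 1) =
      some (false, Kind.rook) := by
  have h1 := hH.x10
  have h2 := hH.y2
  have h3 := hH.s
  have h4 := hH.x
  have h5 := hc.toOk.hx
  have h6 := tb_cellc P hD hB (μ := μ) (x := x) (X := hX) (Y := hY + 1) (by omega) (by omega)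
    (by omega) (by omega) (by rw [h]; decide)
  rw [h] at h6
  rw [show ((64 * (67 + 2 * (P.n : ℤ)) - 8 + hX, 64 * (42 + 3 * (P.n : ℤ)) - 8 + hY + 1) : Sq) =
    (64 * (67 + 2 * (P.n : ℤ)) - 8 + hX, 64 * (42 + 3 * (P.n : ℤ)) - 8 + ((hY + 1 : ℕ) : ℤ)) from
    Prod.ext rfl (by push_cast; ring)]
  exact h6

include hc hD hW hH hB hC hO in
/-- nobody sees the column from the sides -/
theorem lnO_side {p : Sq} (h : ColS P hX hY zO p) (h14 : 64 * (42 + 3 * (P.n : ℤ)) - 8 + 14 ≤ p.2)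
    {u : ℕ} (hu : u ∈ sdO) : BlW (resB P D μ x) (QO P) (WD u 62) u p := by
  obtain ⟨v1, v2, v3, v4, v5, v6, v7, v8⟩ := vec8
  have hu' : u ∈ orT ++ diT := by
    have : ∀ u ∈ sdO, u ∈ orT ++ diT := by decide
    exact this u hu
  obtain ⟨h1, h2, h3⟩ := h
  have g1 := hH.x10
  have g2 := hH.y2
  have g3 := hH.s
  have g4 := hH.x
  have g5 := hc.toOk.hx
  obtain ⟨Y, hY'⟩ : ∃ Y : ℕ, (Y : ℤ) = p.2 - (64 * (42 + 3 * (P.n : ℤ)) - 8) :=
    ⟨(p.2 - (64 * (42 + 3 * (P.n : ℤ)) - 8)).toNat, by omega⟩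
  rcases hO.side Y (by omega) (by omega) u hu with ⟨h4, h5⟩ | h4
  · subst h5
    have e : ∀ i : ℕ, p + i • vec 23 = (64 * (67 + 2 * (P.n : ℤ)) - 8 + hX + i,
        64 * (42 + 3 * (P.n : ℤ)) - 8 + hY - i) := by
      intro i
      refine Prod.ext ?_ ?_
      · rw [add_nsmul_fst, v8, h1]; simp
      · rw [add_nsmul_snd, v8]; simp only; omega
    obtain ⟨J, hJ⟩ : ∃ J, jB P hX zB = J := ⟨_, rfl⟩
    have hJ2 := hJ
    unfold jB at hJ2
    have hnb := hH.nb
    have h79 : hX ≤ 79 := by omega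
    have hp : 0 < J := by clear h1 h2 h3 h4 hY'; omega
    obtain ⟨κ, w1, w2⟩ := (home_se P hc hD hW hH hB (μ := μ) (x := x) (i := J + nb) (by omega)).2
      (by rw [hJ])
    refine BlW.steps (J + nb - 1) (fun i h0 hi => ?_) (BlW.quiet (m := (false, κ)) ?_
      (fun h5 => slk_quiet w2 h5.1) ?_)
    · rw [e]
      exact (home_se P hc hD hW hH hB h0).1 (by rw [hJ]; omega)
    · rw [add_assoc, ← succ_nsmul, show J + nb - 1 + 1 = J + nb by omega, e]
      exact w1
    · rw [add_assoc, ← succ_nsmul, show J + nb - 1 + 1 = J + nb by omega, e]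
      intro hq
      have := (qo_iff P hq).2.1
      simp only at this
      push_cast at this
      clear h1 h2 h3 h4 hY' w1
      omega
  · rw [show p = sqA (World.org (67 + 2 * P.n) (42 + 3 * P.n)) (hX + 80 * Y) by
      refine Prod.ext ?_ ?_
      · rw [sqA_fst, org_fst, show (hX + 80 * Y) % 80 = hX by omega, h1]; push_cast; ring
      · rw [sqA_snd, org_snd, show (hX + 80 * Y) / 80 = Y by omega]; push_cast; omega]
    refine scg_blw (fun j hj hne => tb_cells P hD hB j hj hne) ?_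
      (fun k hk h => tmk_spec u hu' 62 (by decide) k hk h) ?_ hu' 150 _ h4
    · intro j hj hj2 hq
      have h5 := (qo_iff P hq).2.2.2
      rw [sqA_snd, org_snd] at h5
      push_cast at h5
      omega
    · intro j hj h5 i
      by_cases h6 : u = 43 ∨ u = 63
      · have h7 : zsO hX hY u = hX + hY + 2 := by
          rcases h6 with rfl | rfl <;> rfl
        rw [h7] at h5
        exact (farWorld P hc hD.toOk2 hW).zone _
          (tb_zone P hH h5 hc (h6.elim Or.inl fun h => Or.inr (Or.inr h)) i)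
      · exfalso
        have h7 : zsO hX hY u = 1000 := by
          have : ∀ u ∈ sdO, ¬ (u = 43 ∨ u = 63) → zsO hX hY u = 1000 := by
            intro u hu h
            unfold sdO at hu
            simp only [List.mem_cons, List.not_mem_nil, or_false] at hu
            rcases hu with rfl | rfl | rfl | rfl | rfl | rfl
            · exact absurd (Or.inl rfl) h
            · rfl
            · exact absurd (Or.inr rfl) h
            · rfl
            · rfl
            · rfl
          exact this u hu h6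
        have := (inA_lt hj).1
        omega

include hc hD hH hO in
/-- no White knight near the column -/
theorem lnO_kn {p a : Sq} (h1 : p.1 = 64 * (67 + 2 * (P.n : ℤ)) - 8 + hX)
    (h2 : 64 * (42 + 3 * (P.n : ℤ)) - 8 + 14 ≤ p.2)
    (h3 : p.2 ≤ 64 * (42 + 3 * (P.n : ℤ)) - 8 + hY + 1) (h : p - a ∈ knightJumps) :
    resB P D μ x a ≠ some (true, Kind.knight) := by
  obtain ⟨-, -, -, k37, k36, k35⟩ := kd_bin P
  intro h0
  have g1 := hH.x10
  have g3 := hH.s
  have g4 := hH.x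
  have g5 := hc.toOk.hx
  have g6 := hc.hx2
  obtain ⟨g7, g8⟩ := hO.y
  obtain ⟨q, hq, w1, w2⟩ := knL_of _ h
  obtain ⟨r1, r2, r3, r4⟩ := knL_le q hq
  have e1 : (p - a).1 = p.1 - a.1 := rfl
  have e2 : (p - a).2 = p.2 - a.2 := rfl
  rw [e1] at w1
  rw [e2] at w2
  obtain ⟨Y, hY'⟩ : ∃ Y : ℕ, (Y : ℤ) = p.2 - (64 * (42 + 3 * (P.n : ℤ)) - 8) :=
    ⟨(p.2 - (64 * (42 + 3 * (P.n : ℤ)) - 8)).toNat, by omega⟩
  obtain ⟨f1, f2⟩ := hO.kn Y (by omega) (by omega) q hq
  rcases Nat.lt_or_ge (Y + q.2) 74 with h4 | h4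
  · have ht : Tl P (67 + 2 * P.n) (42 + 3 * P.n) (hX + q.1 - 2) (Y + q.2 - 2) a := by
      refine ⟨by unfold nx; omega, by unfold ny; omega, by omega, by omega, by omega, by omega,
        ?_, ?_⟩
      · push_cast; omega
      · push_cast; omega
    have h5 := wh_cell P ht h0
    rw [k36] at h5
    exact f1 h4 (dec_kn _ (WA_codeA_lt _ _ _) h5)
  · have ht : Tl P (67 + 2 * P.n) (43 + 3 * P.n) (hX + q.1 - 2) (Y + q.2 - 66) a := by
      refine ⟨by unfold nx; omega, by unfold ny; omega, by omega, by omega, by omega, by omega,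
        ?_, ?_⟩
      · push_cast; omega
      · push_cast; omega
    have h5 := wh_cell P ht h0
    rw [k35] at h5
    exact f2 h4 (dec_kn _ (WA_codeA_lt _ _ _) h5)

include hc hD hW hH hB hC hO in
/-- sliders which come to a square of the column -/
theorem lnO_slide {p : Sq} (h : ColS P hX hY zO p) (h14 : 64 * (42 + 3 * (P.n : ℤ)) - 8 + 14 ≤ p.2)
    {a : Sq} {κ : Kind} (ha : resB P D μ x a = some (true, κ)) :
    ∀ u ∈ orT ++ diT, ∀ l : ℕ, 0 < l → a = p + l • vec u → SlK κ u →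
      ∃ i : ℕ, 0 < i ∧ i < l ∧ resB P D μ x (p + i • vec u) ≠ none := by
  obtain ⟨v1, v2, v3, v4, v5, v6, v7, v8⟩ := vec8
  intro u hu l hl hal hs
  have hcase : u = 62 ∨ u = 22 ∨ u ∈ sdO := by
    have : ∀ u ∈ orT ++ diT, u = 62 ∨ u = 22 ∨ u ∈ sdO := by decide
    exact this u hu
  rw [hal] at ha
  rcases hcase with rfl | rfl | h1
  · -- upwards
    have hrk := home_rook P hc hD hH hB hC (μ := μ) (x := x) hO.rook
    obtain ⟨h1, h2, h3⟩ := h
    have e : ∀ i : ℕ, p + i • vec 62 = (p.1, p.2 + i) := by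
      intro i
      refine Prod.ext ?_ ?_
      · rw [add_nsmul_fst, v2]; simp
      · rw [add_nsmul_snd, v2]; simp
    obtain ⟨K, hK⟩ : ∃ K : ℕ, (K : ℤ) = 64 * (42 + 3 * (P.n : ℤ)) - 8 + hY + 1 - p.2 :=
      ⟨(64 * (42 + 3 * (P.n : ℤ)) - 8 + hY + 1 - p.2).toNat, by omega⟩
    have eK : p + K • vec 62 = (64 * (67 + 2 * (P.n : ℤ)) - 8 + hX,
        64 * (42 + 3 * (P.n : ℤ)) - 8 + hY + 1) := by
      rw [e]
      refine Prod.ext ?_ ?_
      · exact h1
      · simp only; omega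
    have hlK : K < l := by
      rcases Nat.lt_trichotomy l K with h4 | h4 | h4
      · exfalso
        have hcs : ColS P hX hY zO (p.1, p.2 + (l : ℤ)) :=
          ⟨h1, by simp only; omega, by simp only; omega⟩
        rw [e, col_none P hc hD hH hB hC hcs] at ha
        cases ha
      · exfalso
        rw [h4, eK, hrk] at ha
        cases ha
      · exact h4
    refine ⟨K, by omega, hlK, ?_⟩
    rw [eK, hrk]
    simp
  · obtain ⟨i, g1, g2, -, g4⟩ := col_down P hc hD hH hB hC (Q := ∅) (W := fun m => SlK m.2 22) rfl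
      (fun q hq => absurd hq (Set.notMem_empty q)) (fun m h => h) h l _ hl ha hs
    exact ⟨i, g1, g2, g4⟩
  · obtain ⟨i, g1, g2, -, g4⟩ := lnO_side P hc hD hW hH hB hC hO h h14 h1 l _ hl ha
      ⟨hs, fun h => by cases h⟩
    exact ⟨i, g1, g2, g4⟩

include hc hD hW hH hB hC hO in
/-- sliders which come to the anchor rook -/
theorem rkO_slide {a : Sq} {κ : Kind} (ha : resB P D μ x a = some (true, κ)) :
    ∀ u ∈ orT ++ diT, ∀ l : ℕ, 0 < l →
      a = ((64 * (67 + 2 * (P.n : ℤ)) - 8 + hX, 64 * (42 + 3 * (P.n : ℤ)) - 8 + hY + 1) : Sq) +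
        l • vec u → SlK κ u →
      ∃ i : ℕ, 0 < i ∧ i < l ∧ resB P D μ x (((64 * (67 + 2 * (P.n : ℤ)) - 8 + hX,
        64 * (42 + 3 * (P.n : ℤ)) - 8 + hY + 1) : Sq) + i • vec u) ≠ none := by
  obtain ⟨v1, v2, v3, v4, v5, v6, v7, v8⟩ := vec8
  intro u hu l hl hal hs
  obtain ⟨r, hr⟩ : ∃ r : Sq, r = (64 * (67 + 2 * (P.n : ℤ)) - 8 + hX,
    64 * (42 + 3 * (P.n : ℤ)) - 8 + hY + 1) := ⟨_, rfl⟩
  rw [← hr] at hal ⊢
  have g1 := hH.x10
  have g2 := hH.y2
  have g3 := hH.s
  have g4 := hH.x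
  have g5 := hc.toOk.hx
  have gy := hH.y
  have gy2 := hc.toOk.hy
  have ge := hc.toOk.rE
  obtain ⟨g7, g8⟩ := hO.y
  have hr1 : r.1 = 64 * (67 + 2 * (P.n : ℤ)) - 8 + hX := by rw [hr]
  have hr2 : r.2 = 64 * (42 + 3 * (P.n : ℤ)) - 8 + hY + 1 := by rw [hr]
  have hcase : (u = 62 ∨ u = 43 ∨ u = 63) ∨ u = 22 ∨
      ∃ t, (u, t) ∈ ([(61, 62), (21, 62), (23, 62), (41, 61)] : List (ℕ × ℕ)) ∧
        t ∈ orT ++ diT := by
    have : ∀ u ∈ orT ++ diT, (u = 62 ∨ u = 43 ∨ u = 63) ∨ u = 22 ∨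
      ∃ t ∈ orT ++ diT, (u, t) ∈ ([(61, 62), (21, 62), (23, 62), (41, 61)] : List (ℕ × ℕ)) := by
      decide
    obtain h | h | ⟨t, h1, h2⟩ := this u hu
    · exact Or.inl h
    · exact Or.inr (Or.inl h)
    · exact Or.inr (Or.inr ⟨t, h2, h1⟩)
  rw [hal] at ha
  rcases hcase with h1 | rfl | ⟨t, h1, ht⟩
  · exfalso
    have hz : (geo c P.n).Zone (r + l • vec u) := by
      left
      rw [add_nsmul_fst, add_nsmul_snd, hr1, hr2]
      simp only [geo]
      rcases h1 with rfl | rfl | rfl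
      · rw [v2]; constructor <;> simp only <;> omega
      · rw [v1]; constructor <;> simp only <;> omega
      · rw [v5]; constructor <;> simp only <;> omega
    rw [(farWorld P hc hD.toOk2 hW).zone _ hz] at ha
    cases ha
  · have hh : ColS P hX hY zO (r + vec 22) := by
      obtain ⟨c1, c2, c3⟩ := hC.z
      have f1 : (r + vec 22).1 = r.1 := by change r.1 + (vec 22).1 = _; rw [v4]; simp
      have f2 : (r + vec 22).2 = r.2 - 1 := by change r.2 + (vec 22).2 = _; rw [v4]; ring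
      exact ⟨by rw [f1, hr1], by rw [f2]; omega, by rw [f2]; omega⟩
    obtain ⟨i, g1, g2, -, g4⟩ := (BlW.step (Q := ∅) (W := fun m => SlK m.2 22) (u := 22) (c := r)
      (col_none P hc hD hH hB hC hh)
      (col_down P hc hD hH hB hC rfl (fun q hq => absurd hq (Set.notMem_empty q)) (fun m h => h) hh))
      l _ hl ha hs
    exact ⟨i, g1, g2, g4⟩
  · have h2 := hO.rks _ h1
    have e : r = sqA (World.org (67 + 2 * P.n) (42 + 3 * P.n)) (hX + 80 * (hY + 1)) := by
      refine Prod.ext ?_ ?_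
      · rw [sqA_fst, org_fst, show (hX + 80 * (hY + 1)) % 80 = hX by omega, hr1]; push_cast; ring
      · rw [sqA_snd, org_snd, show (hX + 80 * (hY + 1)) / 80 = hY + 1 by omega, hr2]
        push_cast; ring
    have h3 : BlW (resB P D μ x) ∅ (WD u t) u r := by
      rw [e]
      refine scg_blw (fun j hj hne => tb_cells P hD hB j hj hne)
        (fun j _ _ => Set.notMem_empty _)
        (fun k hk h => tmk_spec u hu t ht k hk h) ?_ hu 150 _ h2
      intro j hj h5
      have := (inA_lt hj).1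
      omega
    obtain ⟨i, g1, g2, -, g4⟩ := h3 l _ hl ha ⟨hs, fun h => by cases h⟩
    exact ⟨i, g1, g2, g4⟩

theorem lnO_st (hz : zO % 80 = hX) (j : ℕ) :
    stepL (World.org (67 + 2 * P.n) (41 + 3 * P.n)) zO 62 j =
    (64 * (67 + 2 * (P.n : ℤ)) - 8 + hX, 64 * (41 + 3 * (P.n : ℤ)) - 8 + ((zO / 80 : ℕ) : ℤ) + j) := by
  have hv : vec 62 = (0, 1) := by decide
  unfold stepL
  refine Prod.ext ?_ ?_
  · rw [add_nsmul_fst, sqA_fst, org_fst, hv, hz]; push_cast; ring
  · rw [add_nsmul_snd, sqA_snd, org_snd, hv]; push_cast; ring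

include hc hD hW hH hB hC hO in
/-- **The line of `Out`.** -/
theorem lineO : LineT (resB P D μ x) 80 (D.ar 37) 62 zO (64 + hY - zO / 80)
    (World.org (67 + 2 * P.n) (41 + 3 * P.n)) := by
  obtain ⟨-, -, -, k37, k36, k35⟩ := kd_bin P
  obtain ⟨c1, c2, c3⟩ := hC.z
  have hz1 : zO % 80 = hX := c1
  have hcol : ∀ j : ℕ, j ≤ 64 + hY - zO / 80 →
      ColS P hX hY zO (stepL (World.org (67 + 2 * P.n) (41 + 3 * P.n)) zO 62 j) := by
    intro j hj
    rw [lnO_st P hz1]
    refine ⟨rfl, ?_, ?_⟩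
    · simp only; omega
    · simp only; omega
  have hcore : ∀ j : ℕ, stepL (World.org (67 + 2 * P.n) (41 + 3 * P.n)) zO 62 j ∉
      CoreH 2 80 (World.org (67 + 2 * P.n) (41 + 3 * P.n)) →
      64 * (42 + 3 * (P.n : ℤ)) - 8 + 14 ≤
        (stepL (World.org (67 + 2 * P.n) (41 + 3 * P.n)) zO 62 j).2 := by
    intro j hj
    have h10 := hH.x10
    have hx1 := hH.x
    have hx2 := hc.toOk.hx
    rw [lnO_st P hz1] at hj ⊢
    unfold CoreH at hj
    rw [Set.mem_ofPred_eq, org_fst, org_snd] at hj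
    push_cast at hj
    simp only
    by_contra h3
    apply hj
    refine ⟨?_, ?_, ?_, ?_⟩ <;> omega
  refine ⟨by decide, ⟨?_, ?_⟩, ?_, ?_, ?_, ?_⟩
  · intro X Y hX' hY' hne
    have h := fit_resB P hD.toOk2 (μ := μ) (x := x) (i := 67 + 2 * P.n) (j := 41 + 3 * P.n)
      (by unfold nx; omega) (by unfold ny; omega) hX' (Y := Y) (by omega) (by rw [k37]; exact hne)
    rw [k37] at h
    exact h
  · exact resB_noK P hD.toOk2
  · exact fun j g1 g2 => col_none P hc hD hH hB hC (hcol j g2)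
  · intro j g1 g2 g3 u hu hu1 hu2 l κ hl ha hs hs2
    have hcase : u ∈ sdO := by
      have : ∀ u ∈ orT ++ diT, u ≠ 62 → u + 62 ≠ 84 → u ∈ sdO := by decide
      exact this u hu hu1 hu2
    exact lnO_side P hc hD hW hH hB hC hO (hcol j g2) (hcore j g3) hcase l _ hl ha
      ⟨hs, fun _ => hs2⟩
  · intro j g1 g2 g3 a κ ha
    have hL := hcol j g2
    have h14 := hcore j g3
    have hnk := resB_noK P hD.toOk2 (μ := μ) (x := x)
    have hsl := lnO_slide P hc hD hW hH hB hC hO hL h14 ha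
    cases κ with
    | king => exact (hnk a).1 ha
    | queen =>
      intro h5
      exact line_betw hsl (h5.imp (fun h => ⟨h, Or.inl rfl⟩) (fun h => ⟨h, Or.inl rfl⟩))
    | rook =>
      intro h5
      exact line_betw hsl (Or.inl ⟨h5, Or.inr rfl⟩)
    | bishop =>
      intro h5
      exact line_betw hsl (Or.inr ⟨h5, Or.inr rfl⟩)
    | knight =>
      intro h5
      exact lnO_kn P hc hD hH hO hL.1 h14 (by have := hL.2.2; omega) h5 ha
    | pawn =>
      refine ⟨fun h5 => ?_, fun h5 => ?_⟩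
      · have e1 : (stepL (World.org (67 + 2 * P.n) (41 + 3 * P.n)) zO 62 j).1 - a.1 = 0 :=
          congrArg Prod.fst h5
        have e2 : (stepL (World.org (67 + 2 * P.n) (41 + 3 * P.n)) zO 62 j).2 - a.2 = 1 :=
          congrArg Prod.snd h5
        obtain ⟨q1, q2, q3⟩ := hL
        rw [col_none P hc hD hH hB hC ⟨by omega, by omega, by omega⟩] at ha
        cases ha
      · exact absurd (col_none P hc hD hH hB hC hL) h5
  · intro h
    rw [lnO_st P hz1] at h
    unfold CoreH at h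
    rw [Set.mem_ofPred_eq, org_fst, org_snd] at h
    push_cast at h
    obtain ⟨-, -, -, h4⟩ := h
    have h1 := hH.s
    have h2 := hO.y
    omega

include hc in
/-- squares outside of the zone -/
theorem not_zone {s : Sq} (h1 : s.2 ≤ (geo c P.n).T) (h2 : s.1 + s.2 < (geo c P.n).X0)
    (h3 : s.2 - s.1 < (geo c P.n).c1) : ¬ (geo c P.n).Zone s := by
  have hG := geo_ok hc.toOk P.n
  rintro (⟨-, k2⟩ | ⟨-, k2⟩ | ⟨q, k1, k2, k3⟩)
  · omega
  · omega
  · have := hG.hT q
    omega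

include hH in
theorem hb_eq : (geo c P.n).hb =
    (64 * (67 + 2 * (P.n : ℤ)) - 8 + hX, 64 * (42 + 3 * (P.n : ℤ)) - 8 + hY) := by
  have hx1 := hH.x
  have hy1 := hH.y
  unfold FGeo.hb
  simp only [geo]
  refine Prod.ext ?_ ?_
  · simp only; omega
  · simp only; omega

include hc hH hC hO in
/-- squares near the tiles `37`, `38` -/
theorem outHull {s : Sq} (h1 : 64 * (67 + 2 * (P.n : ℤ)) - 10 ≤ s.1)
    (h2 : s.1 ≤ 64 * (67 + 2 * (P.n : ℤ)) + 73)
    (h3 : s.2 ≤ 64 * (41 + 3 * (P.n : ℤ)) + 73) : OutHull (geo c P.n) s := by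
  have hx1 := hH.x
  have hy1 := hH.y
  have hxy := hc.hxy
  have hs := hH.s
  have h10 := hH.x10
  have ho := hc.toOk.o
  have hx2 := hc.hx2
  obtain ⟨y1, y2⟩ := hO.y
  refine ⟨?_, not_zone P hc ?_ ?_ ?_, ?_, ?_, fun t _ _ => ?_, fun t _ _ => ?_⟩
  · simp only [geo]; omega
  · simp only [geo]; omega
  · simp only [geo]; omega
  · simp only [geo, FGeo.c1, colq]; omega
  · rintro rfl
    simp only [geo, FGeo.hb] at h3
    omega
  · rintro rfl
    unfold rkS at h3
    change (geo c P.n).hb.2 + 1 ≤ _ at h3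
    simp only [geo, FGeo.hb] at h3
    omega
  · rintro rfl
    simp only [geo, FGeo.se] at h2 h3
    omega
  · rintro rfl
    simp only [geo, FGeo.sw] at h3
    omega

include hc hD hW hH hB hG hC hO in
/-- **The service `Out`.** -/
theorem outT {R : Room} (hR : RoomOk D R) :
    OutT (geo c P.n) (resB P D μ x) R 80 (D.ar 37) zO (64 + hY - zO / 80)
      (World.org (67 + 2 * P.n) (41 + 3 * P.n)) := by
  obtain ⟨c1, c2, c3⟩ := hC.z
  have hR' := hR.Z
  have hhb := hb_eq P (c := c) hH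
  have g1 := hH.x10
  have g2 := hH.y2
  have g3 := hH.s
  have g4 := hH.x
  have g5 := hc.toOk.hx
  obtain ⟨g7, g8⟩ := hO.y
  have hrk : rkS (geo c P.n) = (64 * (67 + 2 * (P.n : ℤ)) - 8 + hX,
      64 * (42 + 3 * (P.n : ℤ)) - 8 + hY + 1) := by
    unfold rkS
    rw [hhb]
    refine Prod.ext ?_ ?_
    · change _ + 0 = _
      simp
    · rfl
  refine ⟨geo_ok hc.toOk P.n, farWorld P hc hD.toOk2 hW, lineO P hc hD hW hH hB hC hO, ?_, ?_, ?_,
    ?_, ?_, ?_, ?_, ?_, ?_, ?_⟩
  · -- the home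
    rw [lnO_st P c1, hhb]
    refine Prod.ext rfl ?_
    simp only
    push_cast [show zO / 80 ≤ 64 + hY by omega]
    ring
  · rw [hrk]
    exact home_rook P hc hD hH hB hC hO.rook
  · obtain ⟨κ, w1, w2⟩ := lnB_beh P hc hD hH hB hG (μ := μ) (x := x)
    refine ⟨κ, ?_⟩
    rw [hhb, ← w1]
    congr 1
  · obtain ⟨κ, w1, w2⟩ := (home_se P hc hD hW hH hB (μ := μ) (x := x) (i := jB P hX zB + nb)
      (by have := hH.nb; omega)).2 rfl
    refine ⟨κ, ?_⟩
    rw [← w1]
    have hm := hH.m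
    have h79 : hX ≤ 79 := by omega
    have hy := hH.y
    congr 1
    unfold FGeo.se
    simp only [geo]
    unfold jB
    clear w1 hhb hrk
    refine Prod.ext ?_ ?_
    · simp only; omega
    · simp only; omega
  · refine ⟨Kind.knight, ?_⟩
    have h6 := tb_cellc P hD hB (μ := μ) (x := x) (X := hX - 1) (Y := hY - 1) (by omega)
      (by omega) (by omega) (by omega) (by rw [hO.res]; decide)
    rw [hO.res] at h6
    have hy := hH.y
    rw [show (geo c P.n).sw 1 = (64 * (67 + 2 * (P.n : ℤ)) - 8 + ((hX - 1 : ℕ) : ℤ),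
      64 * (42 + 3 * (P.n : ℤ)) - 8 + ((hY - 1 : ℕ) : ℤ)) by
      unfold FGeo.sw
      simp only [geo]
      refine Prod.ext ?_ ?_
      · simp only; omega
      · simp only; omega]
    exact h6
  · -- White pieces near the rook
    intro a κ ha
    have hnk := resB_noK P hD.toOk2 (μ := μ) (x := x)
    have hsl := rkO_slide P hc hD hW hH hB hC hO ha
    rw [hrk]
    obtain ⟨-, -, -, k37, k36, k35⟩ := kd_bin P
    cases κ with
    | king => exact (hnk a).1 ha
    | queen =>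
      intro h5
      exact line_betw hsl (h5.imp (fun h => ⟨h, Or.inl rfl⟩) (fun h => ⟨h, Or.inl rfl⟩))
    | rook =>
      intro h5
      exact line_betw hsl (Or.inl ⟨h5, Or.inr rfl⟩)
    | bishop =>
      intro h5
      exact line_betw hsl (Or.inr ⟨h5, Or.inr rfl⟩)
    | knight =>
      intro h5
      exact lnO_kn P hc hD hH hO (by rfl) (by simp only; omega) (by simp only; omega) h5 ha
    | pawn =>
      have hx2 := hc.hx2
      refine ⟨fun h5 => ?_, fun _ => ⟨fun h5 => ?_, fun h5 => ?_⟩⟩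
      · have e1 : (64 * (67 + 2 * (P.n : ℤ)) - 8 + hX) - a.1 = 0 := congrArg Prod.fst h5
        have e2 : (64 * (42 + 3 * (P.n : ℤ)) - 8 + hY + 1) - a.2 = 1 := congrArg Prod.snd h5
        have hcs : ColS P hX hY zO a := ⟨by omega, by omega, by omega⟩
        rw [col_none P hc hD hH hB hC hcs] at ha
        cases ha
      · have e1 : (64 * (67 + 2 * (P.n : ℤ)) - 8 + hX) - a.1 = 1 := congrArg Prod.fst h5
        have e2 : (64 * (42 + 3 * (P.n : ℤ)) - 8 + hY + 1) - a.2 = 1 := congrArg Prod.snd h5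
        have ht : Tl P (67 + 2 * P.n) (43 + 3 * P.n) (hX - 1) (hY - 64) a := by
          refine ⟨by unfold nx; omega, by unfold ny; omega, by omega, by omega, by omega, by omega,
            ?_, ?_⟩
          · push_cast; omega
          · push_cast; omega
        have h3 := wh_cell P ht ha
        rw [k35] at h3
        exact hO.pw.1 (dec_pn _ (WA_codeA_lt _ _ _) h3)
      · have e1 : (64 * (67 + 2 * (P.n : ℤ)) - 8 + hX) - a.1 = -1 := congrArg Prod.fst h5
        have e2 : (64 * (42 + 3 * (P.n : ℤ)) - 8 + hY + 1) - a.2 = 1 := congrArg Prod.snd h5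
        have ht : Tl P (67 + 2 * P.n) (43 + 3 * P.n) (hX + 1) (hY - 64) a := by
          refine ⟨by unfold nx; omega, by unfold ny; omega, by omega, by omega, by omega, by omega,
            ?_, ?_⟩
          · push_cast; omega
          · push_cast; omega
        have h3 := wh_cell P ht ha
        rw [k35] at h3
        exact hO.pw.2 (dec_pn _ (WA_codeA_lt _ _ _) h3)
  · -- the region of the tile
    intro s h
    unfold TileRegH at h
    rw [Set.mem_ofPred_eq, org_fst, org_snd] at h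
    obtain ⟨h1, h2, h3, h4⟩ := h
    push_cast at h1 h2 h3 h4
    exact outHull P hc hH hC hO (by omega) (by omega) (by omega)
  · intro s h
    obtain ⟨r1, r2, r3, r4⟩ := hR' s h
    obtain ⟨l1, l2, l3⟩ := low_zone P hc (s := s) (by omega)
    refine ⟨⟨l1, l2, l3, ?_, fun t _ _ => ?_, fun t _ ht => ?_⟩, ?_⟩
    · intro he
      rw [he, hrk] at r4
      simp only at r4
      omega
    · rintro rfl
      simp only [geo, FGeo.se] at r2
      omega
    · rintro rfl
      simp only [geo, FGeo.sw] at r2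
      omega
    · simp only [geo]
      omega
  · exact reg_king hR (by omega) (by omega)
  · refine hR.G _ fun X Y hX2 hX3 hY2 hY3 => ?_
    have h39 := kd00 P
    have h5 := fit_resB P hD.toOk2 (μ := μ) (x := x) (i := 0) (j := 0) (by unfold nx; omega)
      (by unfold ny; omega) (X := X) (Y := Y)
      (by omega) (by omega) (by rw [h39]; exact hR.cells X Y hX2 hX3 hY2 hY3)
    rw [h39] at h5
    exact h5

end

end Pool.Agent.Lib.H32C.Ly
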