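import Pool.Agent.Lib.H32C.ChK
import Pool.Agent.Lib.H32C.WldPt
import Pool.Agent.Lib.H32C.WldS

/-!
# The services `Out` and `Bin` in the world of a program
-/

set_option autoImplicit false

namespace Pool.Agent.Lib.H32C.Ly

open Loc

/-- The certificates of `Out` and `Bin`, and the corner below the tile of `Out`. -/
structure OBCert (D : TD) (R : Room) (zO zB : ℕ) : Prop where
  O : ∃ S x y, EvC 80 (D.ar 37) 62 12 zO S x y ∧ nthP S x = Loc.ent Dir.U ∧
    nthP S y = Loc.ext Dir.L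
  B : ∃ S x y, EvC 72 (D.ar 34) 61 11 zB S x y ∧ nthP S x = Loc.ent Dir.L ∧
    nthP S y = Loc.ext Dir.D
  d3 : ∀ O F, Fits (D.ar 38) O F → (∀ s ∈ TileReg O, s ∉ R.Z) → R.G F →
    Imp (ps F O (Loc.ent Dir.R)) (ps F O (Loc.ext Dir.U))

/-- table facts on the ports of `Out` and `Bin` -/
theorem obpt_tab : lpt 37 = 2 ∧ lpt 38 = 1 ∧ rpt 34 = 2 ∧ bpt 34 = 2 ∧ lpt 36 = 1 ∧
    lpt 35 = 2 := by
  decide +kernel

variable (P : Prog)

/-- the ports of the services `Out`, `Tb` and `Bin` -/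
theorem ob_port : enI P.n (sc Svc.Out) = 67 + 2 * P.n ∧ enJ P.n (sc Svc.Out) = 40 + 3 * P.n ∧
    enD (sc Svc.Out) = 0 ∧ exI P.n (sc Svc.Out) + 1 = 67 + 2 * P.n ∧
    exJ P.n (sc Svc.Out) = 41 + 3 * P.n ∧ exD (sc Svc.Out) = 1 ∧
    enI P.n (sc Svc.Tb) = 67 + 2 * P.n ∧ enJ P.n (sc Svc.Tb) = 42 + 3 * P.n ∧
    enD (sc Svc.Tb) = 0 ∧ exI P.n (sc Svc.Tb) + 1 = 67 + 2 * P.n ∧
    exJ P.n (sc Svc.Tb) = 43 + 3 * P.n ∧ exD (sc Svc.Tb) = 1 ∧
    enI P.n (sc Svc.Bin) = 87 + 5 * P.n ∧ enJ P.n (sc Svc.Bin) = 23 ∧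
    enD (sc Svc.Bin) = 1 ∧ exI P.n (sc Svc.Bin) = 87 + 5 * P.n ∧
    exJ P.n (sc Svc.Bin) = 22 ∧ exD (sc Svc.Bin) = 3 := by
  have t : enS 0 = 69 ∧ enL 0 = 42 ∧ exS 0 = 68 ∧ exL 0 = 43 ∧ enD 0 = 0 ∧ exD 0 = 1 ∧
      enS 1 = 69 ∧ enL 1 = 44 ∧ exS 1 = 68 ∧ exL 1 = 45 ∧ enD 1 = 0 ∧ exD 1 = 1 ∧
      enS 3 = 76 ∧ enL 3 = 23 ∧ exS 3 = 76 ∧ exL 3 = 22 ∧ enD 3 = 1 ∧ exD 3 = 3 := by
    decide +kernel
  obtain ⟨t1, t2, t3, t4, t5, t6, t7, t8, t9, t10, t11, t12, t13, t14, t15, t16, t17, t18⟩ := t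
  unfold enI enJ exI exJ
  simp only [sc]
  rw [t1, t2, t3, t4, t7, t8, t9, t10, t13, t14, t15, t16]
  unfold xf yf
  refine ⟨?_, ?_, t5, ?_, ?_, t6, ?_, ?_, t11, ?_, ?_, t12, ?_, ?_, t17, ?_, ?_, t18⟩ <;>
    split_ifs <;> omega

section

variable (c : Offs) (D : TD) {μ : Option ℕ} {F : Far} {S : List (List Pc)} {x : Nat}

/-- entry from the right -/
theorem en_L {i j : ℕ} (hi : i + 1 < nx P.n) (hj : j < ny P.n) (h : rpt (kd P i j) = 2)
    (hx : nthP S x = Loc.ent Dir.L) :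
    ent (VHp P c D) (VVp P c D) i j 1 μ F =
      PFw (geo c P.n) (resB P D μ none) S (World.org i j) F x := by
  unfold ent PFw
  rw [if_neg (by decide), if_pos rfl, VH_right P c D hi hj, if_neg (by rw [h]; decide), hx]
  rfl

/-- exit downwards -/
theorem ex_D {i j : ℕ} (h : bpt (kd P i (j + 1)) = 2) (hx : nthP S x = Loc.ext Dir.D) :
    ent (VHp P c D) (VVp P c D) i j 3 μ F =
      PFw (geo c P.n) (resB P D μ none) S (World.org i (j + 1)) F x := by
  unfold ent VVp PFw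
  rw [if_neg (by decide), if_neg (by decide), if_neg (by decide), if_neg (by rw [h]; decide), hx]
  rfl

end

section

variable {c : Offs} (hc : c.Ok2) {D : TD} (hD : D.Ok3) (hW : WallOk c D) {μ : Option ℕ}
  {x : Option (ℕ × ℕ)} {tb hX hY zB nb zE : ℕ} (hH : Hs c hX hY zB nb)
  (hB : BinF D tb hX hY zB nb zE) (hG : BinG D tb hX hY zB nb) {zO : ℕ}
  (hC : ColF D tb hX hY zO) (hO : OutF D tb hX hY)

include hc hD hW hH hB hG hC in
/-- **The service `Bin`.** -/
theorem svcOk_bin {R : Room} (hR : RoomOk D R) {zW : ℕ} (hE : WinE D zE zW)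
    (hK : OBCert D R zO zB) : SvcOk P c D Svc.Bin := by
  obtain ⟨-, -, -, -, -, -, -, -, -, -, -, -, e1, e2, e3, e4, e5, e6⟩ := ob_port P
  obtain ⟨-, -, p5, p6, -, -⟩ := obpt_tab
  obtain ⟨-, k34, -, -, k36, k35⟩ := kd_bin P
  obtain ⟨S, a, b, g1, g2, g3⟩ := hK.B
  have hT := fun m => binT P hc hD hW hH hB hG hC (μ := some m) (x := none) hR hE
  have hJ : 0 < jB P hX zB := by
    have := hH.x
    have := hc.toOk.hx
    unfold jB
    omega
  have hx : ∀ m F, ent (VHp P c D) (VVp P c D) (enI P.n (sc Svc.Bin)) (enJ P.n (sc Svc.Bin))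
      (enD (sc Svc.Bin)) (some m) F = PFw (geo c P.n) (resB P D (some m) none) S
        (World.org (87 + 5 * P.n) 23) F a := by
    intro m F
    rw [e1, e2, e3]
    exact en_L P c D (by unfold nx; omega) (by unfold ny; omega) (by rw [k34]; exact p5) g2
  have hy : ∀ m F, ent (VHp P c D) (VVp P c D) (exI P.n (sc Svc.Bin)) (exJ P.n (sc Svc.Bin))
      (exD (sc Svc.Bin)) (some m) F = PFw (geo c P.n) (resB P D (some m) none) S
        (World.org (87 + 5 * P.n) 23) F b := by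
    intro m F
    rw [e4, e5, e6]
    exact ex_D P c D (by rw [k34]; exact p6) g3
  constructor
  · intro m F hI _ hex
    rw [hx]
    refine g1.binU (hT m) hI fun F' hF' => ?_
    rw [← hy]
    exact hex F' hF'
  · intro m F F' β hI hst _ hex
    rw [hx]
    rw [hy] at hex
    exact g1.binL (hT m) hJ hI hst hex

include hc hD hW hH hB hG hC hO in
/-- the tile below the tile of `Out` -/
theorem fits_d3 {F : Far} (hI : Inv (geo c P.n) Svc.Out F) {R : Room} (hR : RoomOk D R) :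
    Fits (D.ar 38) (World.org (67 + 2 * P.n) (40 + 3 * P.n)) (FB P c D μ x F) ∧
      R.G (FB P c D μ x F) := by
  obtain ⟨-, -, k38, k37, k36, k35⟩ := kd_bin P
  have hT := outT P hc hD hW hH hB hG hC hO (μ := μ) (x := x) hR
  have hq := hI.2.2.2.2.1
  have hb := hI.2.2.2.2.2
  have hF : F = ⟨F.q, (geo c P.n).hb⟩ := by rw [← hb]
  constructor
  · refine ⟨fun X Y hX hY hne => ?_, FB_noK P hD.toOk2⟩
    have h1 : FB P c D μ x F (tsq (World.org (67 + 2 * P.n) (40 + 3 * P.n)) X Y) =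
        resB P D μ x (tsq (World.org (67 + 2 * P.n) (40 + 3 * P.n)) X Y) := by
      unfold FB
      rw [hF]
      refine out_hull hT hq (Or.inl rfl) (outHull P hc hH hC hO ?_ ?_ ?_)
      · change _ ≤ (World.org (67 + 2 * P.n) (40 + 3 * P.n)).1 + _
        rw [org_fst]; push_cast; omega
      · change (World.org (67 + 2 * P.n) (40 + 3 * P.n)).1 + _ ≤ _
        rw [org_fst]; push_cast; omega
      · change (World.org (67 + 2 * P.n) (40 + 3 * P.n)).2 + _ ≤ _
        rw [org_snd]; push_cast; omega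
    have h2 := fit_resB P hD.toOk2 (μ := μ) (x := x) (i := 67 + 2 * P.n) (j := 40 + 3 * P.n)
      (by unfold nx; omega) (by unfold ny; omega) hX (Y := Y) hY (by rw [k38]; exact hne)
    rw [k38] at h2
    rw [h1, h2]
  · have h3 := (out_bd hT hq (b := (geo c P.n).hb) (Or.inl rfl)).G
    unfold FB
    rw [hF]
    exact h3

include hc hD hW hH hB hG hC hO in
/-- **The service `Out`.** -/
theorem svcOk_out {R : Room} (hR : RoomOk D R) (hK : OBCert D R zO zB) : SvcOk P c D Svc.Out := by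
  obtain ⟨e1, e2, e3, e4, e5, e6, -⟩ := ob_port P
  obtain ⟨p2, p3, -⟩ := obpt_tab
  obtain ⟨-, -, k38, k37, k36, k35⟩ := kd_bin P
  obtain ⟨S, a, b, g1, g2, g3⟩ := hK.O
  have hT := fun m => outT P hc hD hW hH hB hG hC hO (μ := some m) (x := none) hR
  have hJ : 0 < 64 + hY - zO / 80 := by
    have := hC.z
    omega
  have hx : ∀ m F, Inv (geo c P.n) Svc.Out F →
      Imp (ent (VHp P c D) (VVp P c D) (enI P.n (sc Svc.Out)) (enJ P.n (sc Svc.Out))
      (enD (sc Svc.Out)) (some m) F) (PFw (geo c P.n) (resB P D (some m) none) S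
        (World.org (67 + 2 * P.n) (41 + 3 * P.n)) F a) := by
    intro m F hI
    obtain ⟨f1, f2⟩ := fits_d3 P hc hD hW hH hB hG hC hO (μ := some m) (x := none) hI hR
    have h1 := hK.d3 _ _ f1 (reg_king' hR (by omega) (by omega)) f2
    have h2 : ent (VHp P c D) (VVp P c D) (enI P.n (sc Svc.Out)) (enJ P.n (sc Svc.Out))
        (enD (sc Svc.Out)) (some m) F = ps (FB P c D (some m) none F)
          (World.org (67 + 2 * P.n) (40 + 3 * P.n)) (Loc.ent Dir.R) := by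
      rw [e1, e2, e3]
      unfold ent VHp ps
      rw [if_pos rfl, if_pos (by rw [k38]; exact p3)]
    have h3 : ps (FB P c D (some m) none F)
        (World.org (67 + 2 * P.n) (40 + 3 * P.n)) (Loc.ext Dir.U) =
        PFw (geo c P.n) (resB P D (some m) none) S
          (World.org (67 + 2 * P.n) (41 + 3 * P.n)) F a := by
      unfold ps PFw
      rw [show 41 + 3 * P.n = 40 + 3 * P.n + 1 by ring, org_up, stB_shp, g2]
      rfl
    rw [h2, ← h3]
    exact h1
  have hy : ∀ m F, ent (VHp P c D) (VVp P c D) (exI P.n (sc Svc.Out)) (exJ P.n (sc Svc.Out))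
      (exD (sc Svc.Out)) (some m) F = PFw (geo c P.n) (resB P D (some m) none) S
        (World.org (67 + 2 * P.n) (41 + 3 * P.n)) F b := by
    intro m F
    rw [e6, ex_L P c D (by rw [e4, e5, k37]; exact p2) g3, e4, e5]
  constructor
  · intro m F hI _ hex
    refine (hx m F hI).1 (g1.outU (hT m) hI fun F' hF' => ?_)
    rw [← hy]
    exact hex F' hF'
  · intro m F F' β hI hst _ hex
    rw [hy] at hex
    exact (hx m F hI).not_valLE (g1.outL (hT m) hJ hI hst hex)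

end

end Pool.Agent.Lib.H32C.Ly
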