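import Pool.Agent.Lib.H32C.TbB
import Pool.Agent.Lib.H32C.WldT

/-!
# The service `Tb` in the world of a program
-/

set_option autoImplicit false

namespace Pool.Agent.Lib.H32C.Ly

open Loc

variable (P : Prog)

section

variable {c : Offs} (hc : c.Ok2) {D : TD} (hD : D.Ok3) (hW : WallOk c D) {μ : Option ℕ}
  {x : Option (ℕ × ℕ)} {tb hX hY zB nb zE : ℕ} (hH : Hs c hX hY zB nb)
  (hB : BinF D tb hX hY zB nb zE) (hG : BinG D tb hX hY zB nb) {zO : ℕ}
  (hC : ColF D tb hX hY zO) (hO : OutF D tb hX hY) {A : ℕ} (hT : TbF D A tb hX hY)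

include hH in
/-- the squares of the ray -/
theorem rayO_eq (t : ℕ) : (geo c P.n).out t =
    (64 * (67 + 2 * (P.n : ℤ)) - 8 + hX + t, 64 * (42 + 3 * (P.n : ℤ)) - 8 + hY + t) := by
  have hx1 := hH.x
  have hy1 := hH.y
  unfold FGeo.out
  simp only [geo]
  refine Prod.ext ?_ ?_
  · simp only; omega
  · simp only; omega

include hc hH in
theorem rayO_zone {t : ℕ} (ht : 0 < t) {p : Sq} (h1 : ((geo c P.n).out t).1 + ((geo c P.n).out t).2 ≤ p.1 + p.2)
    (h2 : ((geo c P.n).out t).2 ≤ p.2) : (geo c P.n).Zone p := by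
  have hx1 := hH.x
  have hy1 := hH.y
  have ho := hc.toOk.rE
  have hy := hc.toOk.hy
  left
  rw [rayO_eq P hH] at h1 h2
  simp only at h1 h2
  simp only [geo]
  constructor <;> omega

include hc hD hW hH hB hO hT in
/-- White sliders do not come to the ray from the left -/
theorem rayO_left {t : ℕ} (ht : 0 < t) :
    BlW (resB P D μ x) ∅ (WD 41 61) 41 ((geo c P.n).out t) := by
  obtain ⟨v1, v2, v3, v4, v5, v6, v7, v8⟩ := vec8
  have hx1 := hH.x
  have hy1 := hH.y
  have hy0 := hc.toOk.hy
  have hx0 := hc.toOk.hx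
  have hx2 := hc.hx2
  have hs := hH.s
  obtain ⟨y1, y2⟩ := hO.y
  refine BlW.walk {p | ¬ Hull P c p} (fun p hp => land_none P hc hD.toOk2 hW hp)
    (fun ⟨_, _, _, _, _, _, hz⟩ => hz (rayO_zone P hc hH ht le_rfl le_rfl)) ?_
  intro k hk hk1
  have hk1 : Hull P c ((geo c P.n).out t + (k + 1) • vec 41) := by
    by_contra h
    exact hk1 h
  obtain ⟨i, j, X, Y, htl, hkd, hz⟩ := hk1
  have hland : ¬ Hull P c ((geo c P.n).out t + k • vec 41) := hk k le_rfl
  have e : (geo c P.n).out t + (k + 1) • vec 41 = (geo c P.n).out t + k • vec 41 + vec 41 := by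
    rw [succ_nsmul, add_assoc]
  rw [e] at htl hz
  have q2 : ((geo c P.n).out t + k • vec 41).2 = 64 * (42 + 3 * (P.n : ℤ)) - 8 + hY + t := by
    rw [add_nsmul_snd, v3, rayO_eq P hH]; simp
  generalize (geo c P.n).out t + k • vec 41 = p at *
  have f1 : (p + vec 41).1 = p.1 - 1 := by change p.1 + (vec 41).1 = _; rw [v3]; ring
  have f2 : (p + vec 41).2 = p.2 := by change p.2 + (vec 41).2 = _; rw [v3]; simp
  obtain ⟨i1, i2, x1, x2, y3, y4, e1, e2⟩ := id htl
  rw [f1] at e1
  rw [f2] at e2
  have hj : 43 + 3 * P.n ≤ j := by omega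
  by_cases hex : Exc (kd P i j) i j 41
  · have hk3 : kd P i j = 35 ∨ kd P i j = 40 := by
      rcases hex with ⟨h3 | h3 | h3, -⟩ | ⟨-, h4⟩ | ⟨h3, -⟩ | ⟨-, h4⟩ | ⟨-, h4⟩
      · exact Or.inl h3
      · have := (pos_36 P i1 i2 h3).2
        omega
      · exact Or.inr h3
      · exact absurd h4 (by decide)
      · have := (pos_31 P i1 i2 h3).2
        omega
      · exact absurd h4 (by decide)
      · exact absurd h4 (by decide)
    have hsum : (X : ℤ) + Y < c.hx + c.hy + 18 := by
      by_contra h5
      exact hz (zone_cut P hc htl hk3 (by omega))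
    have hnext : X = 71 ∨ X + Y + 63 = hX + hY := by
      rcases Nat.lt_or_ge X 71 with g | g
      · right
        have ht' : Tl P i j (X + 1) Y p :=
          ⟨i1, i2, by omega, by omega, y3, y4, by push_cast; omega, e2⟩
        rcases land_tl P hc hland ht' with h5 | ⟨-, -, h5⟩
        · exact absurd h5 hkd
        · push_cast at h5
          omega
      · left; omega
    rcases hk3 with hk3 | hk3
    · obtain ⟨rfl, rfl⟩ := (pos_D P i1 i2).1 hk3
      have hX71 : X + Y + 63 = hX + hY := by
        rcases hnext with h6 | h6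
        · exfalso
          push_cast at e2
          omega
        · exact h6
      have h7 := hT.wl (Y + 64) (by push_cast at e2; omega) (by omega)
      have e3 : p = sqA (World.org (67 + 2 * P.n) (42 + 3 * P.n))
          (hX + hY + 2 - (Y + 64) + 80 * (Y + 64)) := by
        push_cast at e1 e2
        refine Prod.ext ?_ ?_
        · rw [sqA_fst, org_fst, show (hX + hY + 2 - (Y + 64) + 80 * (Y + 64)) % 80 = X + 1 by omega]
          push_cast; omega
        · rw [sqA_snd, org_snd, show (hX + hY + 2 - (Y + 64) + 80 * (Y + 64)) / 80 = Y + 64 by omega]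
          push_cast; omega
      rw [e3]
      refine scg_blw (fun j hj hne => tb_cells P hD hB j hj hne) (fun j _ _ => Set.notMem_empty _)
        (fun k hk h => tmk_spec 41 (by decide) 61 (by decide) k hk h) ?_ (by decide) 150 _ h7
      intro j hj h8
      have := (inA_lt hj).1
      omega
    · have h7 := hT.fd X Y x1 x2 y3 y4 (by omega) hnext
      have hfit := fit_resA P hD.toOk2 (μ := μ) (x := x) i1 i2
      rw [hk3] at hfit
      have e3 : p = sqA (World.org i j) (X + 1 + 80 * Y) := by
        refine Prod.ext ?_ ?_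
        · rw [sqA_fst, org_fst, show (X + 1 + 80 * Y) % 80 = X + 1 by omega]
          push_cast; omega
        · rw [sqA_snd, org_snd, show (X + 1 + 80 * Y) / 80 = Y by omega]
          exact e2
      rw [e3]
      exact BlW.of_bl (scn_bl hfit (by decide) 90 _ h7) (fun m hm => hm.1)
        (fun i _ => Set.notMem_empty _)
  · exact BlW.of_bl (cross_bl P hc hD.toOk2 hW (by decide) hland htl hkd hz hex) (fun m hm => hm.1)
      (fun i _ => Set.notMem_empty _)

include hc hD hW hH hB hO hT in
/-- White sliders do not come to the ray from below -/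
theorem rayO_down {t : ℕ} (ht : 0 < t) :
    BlW (resB P D μ x) ∅ (WD 22 61) 22 ((geo c P.n).out t) := by
  obtain ⟨v1, v2, v3, v4, v5, v6, v7, v8⟩ := vec8
  have hx1 := hH.x
  have hy1 := hH.y
  have hy0 := hc.toOk.hy
  have hx0 := hc.toOk.hx
  have hx2 := hc.hx2
  have hs := hH.s
  obtain ⟨y1, y2⟩ := hO.y
  refine BlW.walk {p | ¬ Hull P c p} (fun p hp => land_none P hc hD.toOk2 hW hp)
    (fun ⟨_, _, _, _, _, _, hz⟩ => hz (rayO_zone P hc hH ht le_rfl le_rfl)) ?_
  intro k hk hk1
  have hk1 : Hull P c ((geo c P.n).out t + (k + 1) • vec 22) := by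
    by_contra h
    exact hk1 h
  obtain ⟨i, j, X, Y, htl, hkd, hz⟩ := hk1
  have hland : ¬ Hull P c ((geo c P.n).out t + k • vec 22) := hk k le_rfl
  have e : (geo c P.n).out t + (k + 1) • vec 22 = (geo c P.n).out t + k • vec 22 + vec 22 := by
    rw [succ_nsmul, add_assoc]
  rw [e] at htl hz
  have q2 : ((geo c P.n).out t + k • vec 22).1 = 64 * (67 + 2 * (P.n : ℤ)) - 8 + hX + t := by
    rw [add_nsmul_fst, v4, rayO_eq P hH]; simp
  generalize (geo c P.n).out t + k • vec 22 = p at *
  have f1 : (p + vec 22).1 = p.1 := by change p.1 + (vec 22).1 = _; rw [v4]; simp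
  have f2 : (p + vec 22).2 = p.2 - 1 := by change p.2 + (vec 22).2 = _; rw [v4]; ring
  obtain ⟨i1, i2, x1, x2, y3, y4, e1, e2⟩ := id htl
  rw [f1] at e1
  rw [f2] at e2
  have hi : 67 + 2 * P.n ≤ i := by omega
  by_cases hex : Exc (kd P i j) i j 22
  · have hk3 : kd P i j = 35 := by
      rcases hex with ⟨h3 | h3 | h3, -⟩ | ⟨h3, h4⟩ | ⟨-, h4⟩ | ⟨-, h4⟩ | ⟨-, h4⟩
      · exact h3
      · exfalso
        obtain ⟨rfl, rfl⟩ := pos_36 P i1 i2 h3
        obtain ⟨-, -, -, -, -, k35⟩ := kd_bin P
        rcases Nat.lt_or_ge Y 71 with g | g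
        · have ht' : Tl P (67 + 2 * P.n) (42 + 3 * P.n) X (Y + 1) p :=
            ⟨i1, i2, x1, x2, by omega, by omega, e1, by push_cast at e2 ⊢; omega⟩
          rcases land_tl P hc hland ht' with h5 | ⟨-, ⟨h5, -⟩ | ⟨h5, -⟩, -⟩ <;> omega
        · have ht' : Tl P (67 + 2 * P.n) (43 + 3 * P.n) X 8 p := by
            refine ⟨i1, by unfold ny; omega, x1, x2, le_rfl, by omega, e1, ?_⟩
            push_cast at e2 ⊢
            omega
          rcases land_tl P hc hland ht' with h5 | ⟨-, -, h5⟩
          · omega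
          · push_cast at h5
            omega
      · have := ((pos_D P i1 i2).2 h3).1
        omega
      · have := pos_29 P i1 i2 h3
        omega
      · exact absurd h4 (by decide)
      · exact absurd h4 (by decide)
      · exact absurd h4 (by decide)
    obtain ⟨rfl, rfl⟩ := (pos_D P i1 i2).1 hk3
    have hsum : (X : ℤ) + Y < c.hx + c.hy + 18 := by
      by_contra h5
      exact hz (zone_cut P hc htl (Or.inl hk3) (by omega))
    push_cast at e1 e2
    have hY71 : X + Y + 63 = hX + hY := by
      rcases Nat.lt_or_ge Y 71 with g | g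
      · have ht' : Tl P (67 + 2 * P.n) (43 + 3 * P.n) X (Y + 1) p :=
          ⟨i1, i2, x1, x2, by omega, by omega, by push_cast; omega, by push_cast; omega⟩
        rcases land_tl P hc hland ht' with h5 | ⟨-, -, h5⟩
        · exact absurd h5 hkd
        · push_cast at h5
          omega
      · exfalso
        omega
    have h7 := hT.wd X (by omega) x2
    have e3 : p = sqA (World.org (67 + 2 * P.n) (42 + 3 * P.n)) (X + 80 * (hX + hY + 2 - X)) := by
      refine Prod.ext ?_ ?_
      · rw [sqA_fst, org_fst, show (X + 80 * (hX + hY + 2 - X)) % 80 = X by omega]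
        push_cast; omega
      · rw [sqA_snd, org_snd, show (X + 80 * (hX + hY + 2 - X)) / 80 = hX + hY + 2 - X by omega]
        push_cast; omega
    rw [e3]
    refine scg_blw (fun j hj hne => tb_cells P hD hB j hj hne) (fun j _ _ => Set.notMem_empty _)
      (fun k hk h => tmk_spec 22 (by decide) 61 (by decide) k hk h) ?_ (by decide) 150 _ h7
    intro j hj h8
    have := (inA_lt hj).1
    omega
  · exact BlW.of_bl (cross_bl P hc hD.toOk2 hW (by decide) hland htl hkd hz hex) (fun m hm => hm.1)
      (fun i _ => Set.notMem_empty _)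

include hc hD hW hH hB hC hO hT in
/-- White pieces do not come to the ray of the bishop -/
theorem rayO_white {a : Sq} {κ : Kind} (ha : resB P D μ x a = some (true, κ))
    (hne : a.1 - (geo c P.n).hb.1 ≠ a.2 - (geo c P.n).hb.2) {t : ℕ} (ht : 0 < t) :
    WNo (resB P D μ x) κ a ((geo c P.n).out t) := by
  obtain ⟨v1, v2, v3, v4, v5, v6, v7, v8⟩ := vec8
  have hnk := resB_noK P hD.toOk2 (μ := μ) (x := x)
  have hzn : ∀ p, (geo c P.n).Zone p → resB P D μ x p = none :=
    (farWorld P hc hD.toOk2 hW).zone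
  have hhb := hb_eq P (c := c) hH
  have hout := rayO_eq P (c := c) hH t
  have hx1 := hH.x
  have hy1 := hH.y
  have hs := hH.s
  have h10 := hH.x10
  have hx0 := hc.toOk.hx
  have hx2 := hc.hx2
  have hy0 := hc.toOk.hy
  have he := hc.toOk.rE
  obtain ⟨y1, y2⟩ := hO.y
  obtain ⟨-, -, -, k37, k36, k35⟩ := kd_bin P
  -- the sum of the coordinates
  have hsumz : ∀ p : Sq, resB P D μ x p ≠ none → 64 * (42 + 3 * (P.n : ℤ)) ≤ p.2 →
      p.1 + p.2 < 64 * (109 + 5 * (P.n : ℤ)) - 16 + hX + hY + 2 := by
    intro p hp h1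
    by_contra h2
    refine hp (hzn p (Or.inl ?_))
    simp only [geo]
    constructor <;> omega
  have hsl : ∀ u ∈ orT ++ diT, ∀ l : ℕ, 0 < l → a = (geo c P.n).out t + l • vec u → SlK κ u →
      ∃ i : ℕ, 0 < i ∧ i < l ∧ resB P D μ x ((geo c P.n).out t + i • vec u) ≠ none := by
    intro u hu l hl hal hs
    have hcase : (u = 43 ∨ u = 62 ∨ u = 61) ∨ (u = 63 ∨ u = 21) ∨ u = 23 ∨ u = 41 ∨ u = 22 := by
      have : ∀ u ∈ orT ++ diT,
          (u = 43 ∨ u = 62 ∨ u = 61) ∨ (u = 63 ∨ u = 21) ∨ u = 23 ∨ u = 41 ∨ u = 22 := by decide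
      exact this u hu
    rcases hcase with h1 | h1 | rfl | rfl | rfl
    · exfalso
      have hz : (geo c P.n).Zone a := by
        rw [hal]
        refine rayO_zone P hc hH ht ?_ ?_
        · rw [add_nsmul_fst, add_nsmul_snd]
          rcases h1 with rfl | rfl | rfl
          · rw [v1]; simp only; omega
          · rw [v2]; simp only; omega
          · rw [v6]; simp only; omega
        · rw [add_nsmul_snd]
          rcases h1 with rfl | rfl | rfl
          · rw [v1]; simp only; omega
          · rw [v2]; simp only; omega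
          · rw [v6]; simp only; omega
      rw [hzn _ hz] at ha
      cases ha
    · exfalso
      apply hne
      rw [hal, add_nsmul_fst, add_nsmul_snd, hout, hhb]
      rcases h1 with rfl | rfl
      · rw [v5]; simp only; ring
      · rw [v7]; simp only; ring
    · have hl0 : ¬ Hull P c ((geo c P.n).out t) :=
        fun ⟨_, _, _, _, _, _, hz⟩ => hz (rayO_zone P hc hH ht le_rfl le_rfl)
      have h2 := land_bl P hc hD.toOk2 hW (μ := μ) (x := x) (u := 23) (by decide) hl0
        (fun k i j X Y _ hex => by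
          unfold Exc at hex
          omega)
      obtain ⟨i, g1, g2, g3⟩ := h2 l _ hl (by rw [← hal]; exact ha) hs
      exact ⟨i, g1, g2, g3⟩
    · obtain ⟨i, g1, g2, -, g4⟩ := rayO_left P hc hD hW hH hB hO hT (μ := μ) (x := x) ht l _ hl
        (by rw [← hal]; exact ha) ⟨hs, fun h => by cases h⟩
      exact ⟨i, g1, g2, g4⟩
    · obtain ⟨i, g1, g2, -, g4⟩ := rayO_down P hc hD hW hH hB hO hT (μ := μ) (x := x) ht l _ hl
        (by rw [← hal]; exact ha) ⟨hs, fun h => by cases h⟩
      exact ⟨i, g1, g2, g4⟩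
  have hnn : resB P D μ x a ≠ none := by rw [ha]; simp
  cases κ with
  | king => exact (hnk a).1 ha
  | queen =>
    intro h5
    exact line_betw hsl (h5.imp (fun h => ⟨h, Or.inl rfl⟩) (fun h => ⟨h, Or.inl rfl⟩))
  | rook =>
    intro h5
    exact line_betw hsl (Or.inl ⟨h5, Or.inr rfl⟩)
  | bishop =>
    intro h5
    exact line_betw hsl (Or.inr ⟨h5, Or.inr rfl⟩)
  | knight =>
    intro h5
    obtain ⟨q, hq, w1, w2⟩ := knL_of _ h5
    have e1 : ((geo c P.n).out t - a).1 = ((geo c P.n).out t).1 - a.1 := rfl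
    have e2 : ((geo c P.n).out t - a).2 = ((geo c P.n).out t).2 - a.2 := rfl
    rw [e1, hout] at w1
    rw [e2, hout] at w2
    simp only at w1 w2
    obtain ⟨r1, r2, r3, r4⟩ := knL_le q hq
    have h6 := hsumz a hnn (by omega)
    have hq2 : (t = 1 ∧ (q = (0, 1) ∨ q = (0, 3) ∨ q = (1, 0) ∨ q = (3, 0))) ∨
        (t = 2 ∧ (q = (0, 1) ∨ q = (1, 0))) := by
      have h7 : q.1 + q.2 + 2 * t < 6 := by omega
      have h8 : ∀ q ∈ knL, ∀ t : ℕ, 0 < t → t < 3 → q.1 + q.2 + 2 * t < 6 →
          (t = 1 ∧ (q = (0, 1) ∨ q = (0, 3) ∨ q = (1, 0) ∨ q = (3, 0))) ∨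
          (t = 2 ∧ (q = (0, 1) ∨ q = (1, 0))) := by
        intro q hq t h0 h3
        have : t = 1 ∨ t = 2 := by omega
        rcases this with rfl | rfl
        · revert q; decide
        · revert q; decide
      exact h8 q hq t ht (by omega) h7
    have hkn : ∀ X Y : ℕ, 8 ≤ X → X < 72 → 8 ≤ Y → Y < 72 →
        a.1 = 64 * (67 + 2 * (P.n : ℤ)) - 8 + X → a.2 = 64 * (42 + 3 * (P.n : ℤ)) - 8 + 64 + Y →
        codeA (D.ar 35) X Y = 2 := by
      intro X Y g1 g2 g3 g4 g5 g6
      have htl : Tl P (67 + 2 * P.n) (43 + 3 * P.n) X Y a := by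
        refine ⟨by unfold nx; omega, by unfold ny; omega, g1, g2, g3, g4, ?_, ?_⟩
        · push_cast; omega
        · push_cast; omega
      have h3 := wh_cell P htl ha
      rw [k35] at h3
      exact dec_kn _ (WA_codeA_lt _ _ _) h3
    rcases hq2 with ⟨rfl, rfl | rfl | rfl | rfl⟩ | ⟨rfl, rfl | rfl⟩
    · exact hT.kn1 (hkn _ _ (by omega) (by omega) (by omega) (by omega) (by push_cast; omega)
        (by push_cast; omega))
    · exact hT.kn2 (hkn _ _ (by omega) (by omega) (by omega) (by omega) (by push_cast; omega)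
        (by push_cast; omega))
    · have hcs : ColS P hX hY zO a := by
        have := hC.z
        exact ⟨by push_cast at w1; omega, by push_cast at w2; omega, by push_cast at w2; omega⟩
      exact hnn (col_none P hc hD hH hB hC hcs)
    · exact hT.kn3 (hkn _ _ (by omega) (by omega) (by omega) (by omega) (by push_cast; omega)
        (by push_cast; omega))
    · have hrk := home_rook P hc hD hH hB hC (μ := μ) (x := x) hO.rook
      have : a = (64 * (67 + 2 * (P.n : ℤ)) - 8 + hX, 64 * (42 + 3 * (P.n : ℤ)) - 8 + hY + 1) := by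
        refine Prod.ext ?_ ?_
        · push_cast at w1; simp only; omega
        · push_cast at w2; simp only; omega
      rw [this, hrk] at ha
      cases ha
    · exact hT.kn4 (hkn _ _ (by omega) (by omega) (by omega) (by omega) (by push_cast; omega)
        (by push_cast; omega))
  | pawn =>
    refine ⟨fun h5 => ?_, fun h5 => ?_⟩
    · have e1 : ((geo c P.n).out t).1 - a.1 = 0 := congrArg Prod.fst h5
      have e2 : ((geo c P.n).out t).2 - a.2 = 1 := congrArg Prod.snd h5
      rw [hout] at e1 e2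
      simp only at e1 e2
      have h6 := hsumz a hnn (by omega)
      have ht1 : t = 1 := by omega
      subst ht1
      have htl : Tl P (67 + 2 * P.n) (43 + 3 * P.n) (hX + 1) (hY - 64) a := by
        refine ⟨by unfold nx; omega, by unfold ny; omega, by omega, by omega, by omega, by omega,
          ?_, ?_⟩
        · push_cast at e1 ⊢; omega
        · push_cast at e2 ⊢; omega
      have h3 := wh_cell P htl ha
      rw [k35] at h3
      exact hO.pw.2 (dec_pn _ (WA_codeA_lt _ _ _) h3)
    · exact absurd (hzn _ (rayO_zone P hc hH ht le_rfl le_rfl)) h5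

include hc hD hW hH hB hC hO hT in
/-- **The service `Tb`.** -/
theorem tbT {R : Room} (hR : RoomOk D R) :
    TbT (geo c P.n) (resB P D μ x) R 144 A (hX + 80 * hY)
      (World.org (67 + 2 * P.n) (42 + 3 * P.n)) := by
  obtain ⟨-, -, -, k37, k36, k35⟩ := kd_bin P
  have hhb := hb_eq P (c := c) hH
  have hx1 := hH.x
  have hy1 := hH.y
  have hs := hH.s
  have h10 := hH.x10
  have hx0 := hc.toOk.hx
  have hx2 := hc.hx2
  have hy0 := hc.toOk.hy
  obtain ⟨y1, y2⟩ := hO.y
  have hG := geo_ok hc.toOk P.n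
  have hTT : (geo c P.n).T = 64 * (45 + 3 * (P.n : ℤ)) - 1 := rfl
  have hG0 : R.G (resB P D μ x) := by
    refine hR.G _ fun X Y hX2 hX3 hY2 hY3 => ?_
    have h39 := kd00 P
    have h5 := fit_resB P hD.toOk2 (μ := μ) (x := x) (i := 0) (j := 0) (by unfold nx; omega)
      (by unfold ny; omega) (X := X) (Y := Y)
      (by omega) (by omega) (by rw [h39]; exact hR.cells X Y hX2 hX3 hY2 hY3)
    rw [h39] at h5
    exact h5
  refine ⟨hG, farWorld P hc hD.toOk2 hW, ?_, ?_, ?_, ?_, ?_, ?_, ?_⟩
  · rw [hhb]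
    refine Prod.ext ?_ ?_
    · rw [sqA_fst, org_fst, show (hX + 80 * hY) % 80 = hX by omega]; push_cast; ring
    · rw [sqA_snd, org_snd, show (hX + 80 * hY) / 80 = hY by omega]; push_cast; ring
  · rw [hhb]
    have := hC.z
    exact col_none P hc hD hH hB hC ⟨rfl, by simp only; omega, by simp only; omega⟩
  · intro F hF hq hb
    have hfull : ∀ p : Sq, p.2 ≤ (geo c P.n).T + 1 → fullB (geo c P.n) (resB P D μ x) F p =
        if p = F.b then some (false, Kind.bishop) else resB P D μ x p := by
      intro p hp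
      have := foa1_full (B0 := resB P D μ x) hG hq (b := F.b) (c := p) (Or.inl hp)
      exact this
    refine ⟨⟨?_, FB_noK P hD.toOk2⟩, reg_king hR (by omega) (by omega), ?_⟩
    · intro X Y hX' hY' hne
      have e2 : (tsq (World.org (67 + 2 * P.n) (42 + 3 * P.n)) X Y).2 =
          64 * (42 + 3 * (P.n : ℤ)) - 8 + Y := by
        change (World.org (67 + 2 * P.n) (42 + 3 * P.n)).2 + _ = _
        rw [org_snd]; push_cast; ring
      have e1 : (tsq (World.org (67 + 2 * P.n) (42 + 3 * P.n)) X Y).1 =
          64 * (67 + 2 * (P.n : ℤ)) - 8 + X := by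
        change (World.org (67 + 2 * P.n) (42 + 3 * P.n)).1 + _ = _
        rw [org_fst]; push_cast; ring
      rw [hfull _ (by rw [e2, hTT]; omega), if_neg]
      · exact comp_resA P hD.toOk2 (by unfold nx; omega) (by unfold ny; omega) k36
          (by rw [show 42 + 3 * P.n + 1 = 43 + 3 * P.n by ring]; exact k35) hT.comp hX' hY' hne
      · intro he
        rcases hb with ⟨t, ht, hb⟩ | ⟨t, ht, -, hb⟩
        · rw [hb, rayO_eq P hH] at he
          have g1 := congrArg Prod.fst he
          have g2 := congrArg Prod.snd he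
          rw [e1] at g1
          rw [e2] at g2
          simp only at g1 g2
          have h3 : X = hX + t ∧ Y = hY + t := by omega
          apply hne
          rw [h3.1, h3.2]
          exact hT.ne t (by omega) (by omega)
        · rw [hb] at he
          have g1 := congrArg Prod.fst he
          have g2 := congrArg Prod.snd he
          rw [e1] at g1
          rw [e2] at g2
          simp only [FGeo.se, geo] at g1 g2
          have h3 : X = hX + t ∧ Y = hY - t := by omega
          apply hne
          rw [h3.1, h3.2]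
          exact hT.se t (by omega)
    · refine R.dep (resB P D μ x) _ (fun p hp => ?_) hG0
      obtain ⟨r1, r2, r3, r4⟩ := hR.Z p hp
      rw [hfull _ (by rw [hTT]; omega), if_neg]
      intro he
      rw [he] at r2
      rcases hb with ⟨t, ht, hb⟩ | ⟨t, ht, -, hb⟩
      · rw [hb, rayO_eq P hH] at r2
        simp only at r2
        omega
      · rw [hb] at r2
        simp only [FGeo.se, geo] at r2
        omega
  · intro t ht hz
    obtain ⟨r1, r2, r3, r4⟩ := hR.Z _ hz
    rw [rayO_eq P hH] at r2
    simp only at r2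
    omega
  · intro t ht ht2
    have h1 := (home_se P hc hD hW hH hB (μ := μ) (x := x) ht).1 (by
      have := hH.z
      unfold jB
      omega)
    rw [← h1]
    congr 1
    have h2 : (geo c P.n).hb.1 = _ := congrArg Prod.fst hhb
    have h3 : (geo c P.n).hb.2 = _ := congrArg Prod.snd hhb
    unfold FGeo.hb at h2 h3
    unfold FGeo.se
    simp only at h2 h3
    refine Prod.ext ?_ ?_
    · simp only
      rw [h2]
    · simp only
      rw [h3]
  · intro a κ ha hne t ht
    exact rayO_white P hc hD hW hH hB hC hO hT ha hne ht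
  · intro κ l hl ha
    have h2 : (geo c P.n).hb.1 = _ := congrArg Prod.fst hhb
    have h3 : (geo c P.n).hb.2 = _ := congrArg Prod.snd hhb
    have hse : ∀ i : ℕ, (geo c P.n).se i = ((64 * (67 + 2 * (P.n : ℤ)) - 8 + hX + i,
        64 * (42 + 3 * (P.n : ℤ)) - 8 + hY - i) : Sq) := by
      intro i
      unfold FGeo.hb at h2 h3
      unfold FGeo.se
      simp only at h2 h3
      refine Prod.ext ?_ ?_
      · simp only
        rw [h2]
      · simp only
        rw [h3]
    have hJ := fun i (h0 : 0 < i) => home_se P hc hD hW hH hB (μ := μ) (x := x) (i := i) h0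
    have hJ0 : 0 < jB P hX zB + nb := by
      have := hH.z
      unfold jB
      omega
    obtain ⟨κ', hκ', -⟩ := (hJ _ hJ0).2 rfl
    rw [← hse] at hκ'
    rcases Nat.lt_trichotomy l (jB P hX zB + nb) with g1 | g1 | g1
    · have g2 := (hJ l hl).1 g1
      rw [← hse, ha] at g2
      cases g2
    · rw [g1, hκ'] at ha
      cases ha
    · have hbt : BetwI ((geo c P.n).se l) (geo c P.n).hb ((geo c P.n).se (jB P hX zB + nb)) := by
        unfold BetwI
        rw [hse, hse]
        rw [h2, h3]
        simp only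
        refine ⟨?_, ?_, ?_, ?_, Or.inr ?_⟩ <;> omega
      have hbl : ∃ d, BetwI ((geo c P.n).se l) (geo c P.n).hb d ∧ resB P D μ x d ≠ none :=
        ⟨_, hbt, by rw [hκ']; exact Option.some_ne_none _⟩
      have hd : (geo c P.n).hb - (geo c P.n).se l = (-(l : ℤ), (l : ℤ)) := by
        refine Prod.ext ?_ ?_
        · rw [Prod.fst_sub, hse, h2]
          simp
        · rw [Prod.snd_sub, hse, h3]
          simp
      cases κ with
      | king => exact (resB_noK P hD.toOk2 (μ := μ) (x := x) _).1 ha
      | knight =>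
        have g3 : ∀ v ∈ knightJumps, v.1 ≠ -v.2 := by decide
        intro h
        rw [hd] at h
        exact g3 _ h rfl
      | pawn =>
        refine ⟨?_, fun h => ?_⟩
        · rw [hd]
          intro h
          have := congrArg Prod.fst h
          simp only at this
          omega
        · rw [hd]
          constructor
          · intro h
            have := congrArg Prod.fst h
            simp only at this
            omega
          · intro h
            have := congrArg Prod.fst h
            simp only at this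
            omega
      | queen => exact fun _ => hbl
      | rook => exact fun _ => hbl
      | bishop => exact fun _ => hbl

/-- exit to the left from the upper tile of a composite -/
theorem ex_L2 (c : Offs) (D : TD) {μ : Option ℕ} {F : Far} {S : List (List Pc)} {x : Nat} {i j : ℕ}
    (h : lpt (kd P (i + 1) (j + 1)) = 2) (hx : nthP S x = shp 0 64 (Loc.ext Dir.L)) :
    ent (VHp P c D) (VVp P c D) i (j + 1) 1 μ F =
      PFw (geo c P.n) (resB P D μ none) S (World.org (i + 1) j) F x := by
  unfold ent VHp PFw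
  rw [if_neg (by decide), if_pos rfl, if_neg (by rw [h]; decide), hx, org_up, stB_shp]
  rfl

include hc hD hW hH hB hC hO hT in
/-- **The service `Tb`.** -/
theorem svcOk_tb {R : Room} (hR : RoomOk D R) {A' A1 n : ℕ} {S S' : List (List Pc)} {a b : ℕ}
    (hK : TbD 144 A A' A1 (hX + 80 * hY) n S S' a b) (ha : nthP S a = Loc.ent Dir.R)
    (hb : nthP S b = shp 0 64 (Loc.ext Dir.L)) : SvcOk P c D Svc.Tb := by
  obtain ⟨-, -, -, -, -, -, e1, e2, e3, e4, e5, e6, -⟩ := ob_port P
  obtain ⟨-, -, -, -, p1, p2⟩ := obpt_tab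
  obtain ⟨-, -, -, -, k36, k35⟩ := kd_bin P
  have hT' := fun m => tbT P hc hD hW hH hB hC hO hT (μ := some m) (x := none) hR
  have hx : ∀ m F, ent (VHp P c D) (VVp P c D) (enI P.n (sc Svc.Tb)) (enJ P.n (sc Svc.Tb))
      (enD (sc Svc.Tb)) (some m) F = PFw (geo c P.n) (resB P D (some m) none) S
        (World.org (67 + 2 * P.n) (42 + 3 * P.n)) F a := by
    intro m F
    rw [e1, e2, e3]
    exact en_R P c D (by rw [k36]; exact p1) ha
  have hy : ∀ m F, ent (VHp P c D) (VVp P c D) (exI P.n (sc Svc.Tb)) (exJ P.n (sc Svc.Tb))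
      (exD (sc Svc.Tb)) (some m) F = PFw (geo c P.n) (resB P D (some m) none) S
        (World.org (67 + 2 * P.n) (42 + 3 * P.n)) F b := by
    intro m F
    rw [e6, e5, show 43 + 3 * P.n = 42 + 3 * P.n + 1 by ring,
      ex_L2 P c D (by rw [e4, show 42 + 3 * P.n + 1 = 43 + 3 * P.n by ring, k35]; exact p2) hb, e4]
  constructor
  · intro m F hI _ hex
    rw [hx]
    refine hK.up (hT' m) ⟨hI.1, hI.2.1, hI.2.2.1, hI.2.2.2.1⟩ hI.2.2.2.2.1 hI.2.2.2.2.2
      fun hst => ?_
    rw [← hy]
    exact hex F hst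
  · intro m F F' β hI hst _ hex
    rw [hx]
    rw [hy] at hex
    exact hK.low (hT' m) ⟨hI.1, hI.2.1, hI.2.2.1, hI.2.2.2.1⟩ hI.2.2.2.2.1 hst hex

end

end Pool.Agent.Lib.H32C.Ly
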