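import Pool.Agent.Lib.H32C.WldN
import Pool.Agent.Lib.H32C.WldU

/-!
# The final reduction: all hypotheses are facts about the data of the tiles
-/

set_option autoImplicit false

namespace Pool.Agent.Lib.H32C.Ly

open Loc

/-- **All services.** -/
theorem svcFacts_all {c : Offs} (hc : c.Ok2) {D : TD} (hD : D.Ok3) {R : Room} (hR : RoomOk D R)
    (hW : WallOk c D) {tou xo : ℕ} (hS : ShaftV D tou xo) {zN z2 zT zE zW : ℕ}
    (hz : Zs c xo zN z2 zT zE zW) (hF : WinF D tou zN z2 zT) (hQ : TouF D zN) (hE : WinE D zE zW)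
    (hCe : SCert D tou zN z2 zT zE zW) {tb hX hY zB nb : ℕ} (hH : Hs c hX hY zB nb)
    (hB : BinF D tb hX hY zB nb zE) (hG : BinG D tb hX hY zB nb) {zO : ℕ}
    (hC : ColF D tb hX hY zO) (hO : OutF D tb hX hY) {A : ℕ} (hT : TbF D A tb hX hY)
    (hK : OBCert D R zO zB) {A' A1 n : ℕ} {S S' : List (List Pc)} {a b : ℕ}
    (hTb : TbD 144 A A' A1 (hX + 80 * hY) n S S' a b) (ha : nthP S a = Loc.ent Dir.R)
    (hb : nthP S b = shp 0 64 (Loc.ext Dir.L)) (P : Prog) : SvcFacts P c D := by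
  refine svcFacts_of P fun s => ?_
  have hv : wk s ≠ 0 ∨ s = Svc.E ∨ s = Svc.W → SvcOk P c D s :=
    svcOk_v P hc hD hW hS hR hz hF hQ hE hCe
  cases s with
  | Out => exact svcOk_out P hc hD hW hH hB hG hC hO hR hK
  | Bin => exact svcOk_bin P hc hD hW hH hB hG hC hR hE hK
  | Tb => exact svcOk_tb P hc hD hW hH hB hC hO hT hR hTb ha hb
  | E => exact hv (Or.inr (Or.inl rfl))
  | W => exact hv (Or.inr (Or.inr rfl))
  | N => exact hv (Or.inl (by decide))
  | N1 => exact hv (Or.inl (by decide))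
  | N2 => exact hv (Or.inl (by decide))
  | H q => cases q <;> exact hv (Or.inl (by decide))
  | Z q => cases q <;> exact hv (Or.inl (by decide))
  | T q => cases q <;> exact hv (Or.inl (by decide))

/-- **The main theorem, reduced to facts about the data of the tiles.** -/
theorem omega_of_data {c : Offs} (hc : c.Ok2) {D : TD} (hD : D.Ok3) {R : Room} (hR : RoomOk D R)
    {mem cho : ℕ} (hf : FinFacts D) (hFa : Facts D R mem cho)
    (hW : WallOk c D) {tou xo : ℕ} (hS : ShaftV D tou xo) {zN z2 zT zE zW : ℕ}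
    (hz : Zs c xo zN z2 zT zE zW) (hF : WinF D tou zN z2 zT) (hQ : TouF D zN) (hE : WinE D zE zW)
    (hCe : SCert D tou zN z2 zT zE zW) {tb hX hY zB nb : ℕ} (hH : Hs c hX hY zB nb)
    (hB : BinF D tb hX hY zB nb zE) (hG : BinG D tb hX hY zB nb) {zO : ℕ}
    (hC : ColF D tb hX hY zO) (hO : OutF D tb hX hY) {A : ℕ} (hT : TbF D A tb hX hY)
    (hK : OBCert D R zO zB) {A' A1 n : ℕ} {S S' : List (List Pc)} {a b : ℕ}
    (hTb : TbD 144 A A' A1 (hX + 80 * hY) n S S' a b) (ha : nthP S a = Loc.ent Dir.R)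
    (hb : nthP S b = shp 0 64 (Loc.ext Dir.L)) : omegaOneChess = omegaOneCK :=
  omegaOne_of_facts hc hD hR hf hFa
    (svcFacts_all hc hD hR hW hS hz hF hQ hE hCe hH hB hG hC hO hT hK hTb ha hb)

end Pool.Agent.Lib.H32C.Ly
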