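import Pool.Agent.Lib.H32C.DatE
import Pool.Agent.Lib.H32C.DatG
import Pool.Agent.Lib.H32C.TdOUT
import Pool.Agent.Lib.H32C.TdT
import Pool.Agent.Lib.H32C.TdWB
import Pool.Agent.Lib.H32C.TdWE
import Pool.Agent.Lib.H32C.TdWN2
import Pool.Agent.Lib.H32C.TdWW
import Pool.Agent.Lib.H32C.WldV

/-!
# The data of the tiles: certificates of the services, and the main theorem for the data
-/

set_option autoImplicit false

namespace Pool.Agent.Lib.H32C.Ly

open Loc

variable {A0 A1 A3 : ℕ}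

/-- **The certificates of windows and touches.** -/
theorem dD_sCert : SCert (dD A0 A1 A3) AT 2759 2838 5639 3315 3560 where
  N := ⟨SWN, 0, 69, WWN_cert, SWN_x, SWN_y⟩
  a := ⟨SWN2, 0, 73, WWN2_cert, SWN2_x, SWN2_y⟩
  T := ⟨Stou, 0, 96, Wtou_cert, Stou_x, Stou_y⟩
  E := ⟨SWE, 0, 89, WWE_cert, SWE_x, SWE_y⟩
  W := ⟨SWW, 0, 89, WWW_cert, SWW_x, SWW_y⟩

/-- **The certificates of `Out` and `Bin`.** The array of the kind `38` is the one of the kind `7`. -/
theorem dD_obCert (R : Room) : OBCert (dD A0 A1 ARU) R 2759 4283 where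
  O := ⟨SWN, 0, 69, EOUT_cert, SWN_x, SWN_y⟩
  B := ⟨SWB, 0, 85, EWB_cert, SWB_x, SWB_y⟩
  d3 O F hF hR hG := imp_track (A := ARU) hF hR hG SRUR_ok rfl rfl

theorem AV_nock : nockOk AV (Loc.ext Dir.U) = true := by decide +kernel

theorem AROOM_28 : codeA AROOM 28 28 = 14 := by decide +kernel

/-- **The Black king.** -/
theorem dD_fin (h : PB A0 A1 A3) : FinFacts (dD A0 A1 A3) where
  nock O F hF := nock_of AV_nock O F hF
  bkX := ⟨28, 28, by norm_num, by norm_num, by norm_num, by norm_num, AROOM_28,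
    fun X Y h1 h2 h3 h4 h5 => ((dD_ok h).bk 39 (by norm_num) X Y h1 h2 h3 h4 h5).2⟩
  bk k hk h39 X Y h1 h2 h3 h4 := nobB_spec (dD_bk h k hk h39) X Y h1 h2 h3 h4

/-- **The main theorem, reduced to the data of the service `Tb`.** `A0`, `A1` are the arrays of the
kinds `35`, `36`, `tb` and `A` are composite arrays of them. -/
theorem omega_of_tb {A0 A1 tb A A' B n : ℕ} (h1 : pB A0 A1 ARU = true) (h2 : wB A0 A1 ARU = true)
    (h3 : bpB tb A0 A1 = true) (h4 : opB tb A0 A1 = true) (h5 : tpB tb A A0 A1 = true)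
    {S S' : List (List Pc)} {a b : ℕ} (hTb : TbD 144 A A' B (39 + 80 * 121) n S S' a b)
    (ha : nthP S a = Loc.ent Dir.R) (hb : nthP S b = shp 0 64 (Loc.ext Dir.L)) :
    omegaOneChess = omegaOneCK :=
  omega_of_data cD_ok2 (dD_ok3 (pB_iff h1)) (roomOk_of rfl) (dD_fin (pB_iff h1)) (dD_facts RP)
    (dD_wall (wB_iff h2)) dD_shaft dD_zs dD_winF dD_touF dD_winE dD_sCert dD_hs (dD_binF h3) (dD_binG h3)
    (dD_colF h4) (dD_outF h4) (dD_tbF h5) (dD_obCert RP) hTb ha hb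

end Pool.Agent.Lib.H32C.Ly
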