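import Pool.Agent.Lib.H32C.DatD
import Pool.Agent.Lib.H32C.TdTB0

/-!
# The data of the tiles: the rays of the service `Tb`
-/

set_option autoImplicit false

namespace Pool.Agent.Lib.H32C.Ly

open Loc

theorem AD_tpB : tpB ADB ATB AD0 AD1 = true := by decide +kernel

end Pool.Agent.Lib.H32C.Ly
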