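import Pool.Agent.Lib.H32C.FarWin

/-!
# Tile data: T_b, items
-/

set_option autoImplicit false

namespace Pool.Agent.Lib.H32C.Loc

/-- pairs -/
def kU0a : List Mo := [⟨144, 1⟩]

/-- pairs -/
def kU0b : List Mo := []

/-- items -/
def gT1 : List WU :=
  [⟨124, 1, 20, 110, 0, (.cons 210 190 (.exit 0) .nil), [125], []⟩,
   ⟨125, 1, 20, 109, 0, (.cons 210 191 .nil (.cons 229 251 (.cons 210 191 .nil .nil) (.cons 210 191 (.exit 0) (.cons 211 229 (.cons 210 191 .nil (.cons 229 251 (.cons 210 191 .nil .nil) (.cons 210 211 (.cons 190 229 .nil .nil) .nil))) .nil)))), [126], []⟩,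
   ⟨126, 1, 21, 108, 0, (.cons 210 190 (.exit 0) .nil), [127], []⟩,
   ⟨127, 1, 21, 107, 0, (.cons 210 191 .nil (.cons 210 191 (.exit 0) (.cons 211 229 (.cons 210 191 .nil (.cons 210 211 .nil .nil)) .nil))), [128], []⟩,
   ⟨128, 1, 22, 106, 0, (.cons 210 190 (.exit 0) .nil), [129], []⟩,
   ⟨129, 1, 22, 105, 0, (.cons 210 189 .nil (.cons 250 228 (.cons 210 189 .nil (.cons 210 230 .nil .nil)) (.cons 210 189 (.exit 0) (.cons 210 189 (.cons 189 188 .nil (.cons 250 228 (.cons 189 188 .nil .nil) (.cons 189 188 .nil .nil))) .nil)))), [130], []⟩,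
   ⟨130, 1, 21, 104, 0, (.cons 210 209 (.exit 0) (.cons 271 249 .nil .nil)), [131], []⟩,
   ⟨131, 1, 20, 104, 0, (.cons 210 229 (.exit 0) (.cons 290 249 .nil .nil)), [132], []⟩,
   ⟨132, 1, 19, 105, 0, (.cons 210 209 (.exit 0) .nil), [133], []⟩,
   ⟨133, 1, 18, 105, 0, (.cons 254 232 (.cons 210 189 .nil (.cons 210 189 (.cons 189 188 (.cons 249 229 .nil .nil) .nil) (.cons 210 189 (.cons 189 188 (.cons 249 229 .nil .nil) .nil) (.cons 210 189 (.cons 189 188 .nil (.cons 189 188 .nil .nil)) .nil)))) (.cons 210 189 .nil (.cons 210 189 (.exit 0) (.cons 210 189 (.cons 189 188 (.cons 249 229 .nil .nil) .nil) (.cons 210 189 (.cons 189 188 (.cons 249 229 .nil .nil) .nil) (.cons 210 189 (.cons 189 188 .nil (.cons 189 188 .nil .nil)) .nil)))))), [134], []⟩,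
   ⟨134, 1, 17, 104, 0, (.cons 210 209 (.exit 0) .nil), [135], []⟩,
   ⟨135, 1, 16, 104, 0, (.cons 271 251 (.cons 210 229 .nil .nil) (.cons 210 229 (.exit 0) .nil)), [136], []⟩,
   ⟨136, 1, 15, 105, 0, (.cons 252 232 .nil (.cons 210 209 (.exit 0) .nil)), [137], []⟩,
   ⟨137, 1, 14, 105, 0, (.cons 233 232 (.cons 210 189 .nil .nil) (.cons 210 189 .nil (.cons 210 189 (.exit 0) .nil))), [138], []⟩,
   ⟨138, 1, 13, 104, 0, (.cons 210 209 (.exit 0) .nil), [139], []⟩,
   ⟨139, 1, 12, 104, 0, (.cons 212 251 (.cons 210 229 .nil .nil) (.cons 210 229 (.exit 0) .nil)), [140], []⟩,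
   ⟨140, 1, 11, 105, 0, (.cons 193 232 .nil (.cons 210 209 (.exit 0) .nil)), [141], []⟩,
   ⟨141, 1, 10, 105, 0, (.cons 233 232 (.cons 210 189 .nil .nil) (.cons 210 189 .nil (.cons 210 189 (.exit 0) .nil))), [142], []⟩,
   ⟨142, 1, 9, 104, 0, (.cons 210 209 (.exit 0) .nil), [143], []⟩,
   ⟨143, 1, 8, 104, 0, (.cons 212 251 (.cons 210 229 .nil .nil) (.cons 210 229 (.exit 0) .nil)), [144], []⟩]

/-- pairs -/
def kT1 : List Mo := keysWU gT1 kU0a

/-- items -/
def gT2 : List WU :=
  [⟨116, 1, 20, 118, 0, (.cons 210 190 (.exit 0) (.cons 189 171 (.cons 210 190 (.cons 190 169 (.cons 171 210 .nil .nil) (.cons 190 169 .nil (.cons 190 169 (.cons 171 210 .nil .nil) .nil))) .nil) .nil)), [117], []⟩,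
   ⟨117, 1, 20, 117, 0, (.cons 210 189 (.exit 0) (.cons 210 189 .nil (.cons 272 231 (.cons 253 251 (.cons 210 189 .nil .nil) (.cons 210 189 .nil .nil)) .nil))), [118], []⟩,
   ⟨118, 1, 19, 116, 0, (.cons 210 190 (.exit 0) .nil), [119], []⟩,
   ⟨119, 1, 19, 115, 0, (.cons 210 191 (.exit 0) (.cons 250 232 (.cons 249 251 (.cons 233 232 (.cons 210 231 .nil .nil) (.cons 210 191 .nil (.cons 210 231 (.cons 231 210 .nil (.cons 251 249 .nil .nil)) .nil))) (.cons 212 232 (.cons 210 191 .nil (.cons 210 191 .nil .nil)) (.cons 210 191 .nil (.cons 190 231 (.cons 253 251 (.cons 233 232 .nil (.cons 210 191 .nil .nil)) (.cons 233 232 (.cons 210 191 .nil .nil) (.cons 210 191 .nil .nil))) .nil)))) (.cons 250 232 (.cons 210 230 (.cons 190 212 .nil .nil) (.cons 212 232 (.cons 210 191 .nil (.cons 210 191 .nil .nil)) (.cons 210 230 (.cons 211 252 .nil .nil) .nil))) (.cons 210 191 (.cons 250 232 .nil (.cons 231 213 .nil .nil)) (.cons 210 191 (.cons 191 171 (.cons 171 150 .nil (.cons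 171 190 .nil .nil)) (.cons 191 171 (.cons 171 150 .nil (.cons 171 190 .nil .nil)) (.cons 191 171 (.cons 171 190 .nil .nil) (.cons 191 171 (.cons 171 150 .nil (.cons 188 189 (.cons 171 190 .nil .nil) (.cons 171 190 (.cons 213 212 .nil (.cons 190 171 .nil .nil)) .nil))) (.cons 191 171 (.cons 171 190 .nil .nil) .nil))))) .nil))))), [120], []⟩,
   ⟨120, 1, 20, 114, 0, (.cons 269 251 (.cons 252 251 .nil (.cons 210 190 (.cons 190 169 .nil (.cons 190 169 (.cons 251 210 .nil (.cons 230 208 .nil .nil)) (.cons 230 208 (.cons 190 169 .nil (.cons 190 169 .nil (.cons 190 210 .nil .nil))) (.cons 190 169 (.cons 251 210 .nil (.cons 230 208 .nil .nil)) (.cons 190 169 (.cons 251 210 (.cons 210 188 .nil .nil) (.cons 188 208 .nil (.cons 169 149 (.cons 129 170 .nil .nil) .nil))) .nil))))) .nil)) (.cons 269 251 (.cons 252 251 .nil (.cons 250 232 .nil .nil)) (.cons 250 232 (.cons 269 251 .nil (.cons 251 249 .nil .nil)) (.cons 210 190 (.exit 0) .nil)))), [121], []⟩,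
   ⟨121, 1, 20, 113, 0, (.cons 210 189 .nil (.cons 229 251 (.cons 210 189 .nil (.cons 250 228 .nil .nil)) (.cons 208 228 (.cons 210 189 .nil (.cons 210 189 .nil (.cons 210 189 .nil .nil))) (.cons 210 189 (.exit 0) (.cons 270 229 (.cons 210 189 .nil (.cons 229 251 (.cons 210 189 .nil (.cons 210 229 .nil .nil)) (.cons 250 228 (.cons 210 189 .nil (.cons 210 189 .nil .nil)) (.cons 247 249 (.cons 210 189 .nil (.cons 250 228 .nil .nil)) .nil)))) .nil))))), [122], []⟩,
   ⟨122, 1, 19, 112, 0, (.cons 210 190 (.exit 0) (.cons 271 249 .nil .nil)), [123], []⟩,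
   ⟨123, 1, 19, 111, 0, (.cons 210 191 (.exit 0) (.cons 269 249 (.cons 210 191 .nil (.cons 190 231 (.cons 210 191 .nil .nil) .nil)) (.cons 210 191 .nil (.cons 190 231 (.cons 253 251 (.cons 210 191 .nil .nil) (.cons 231 249 (.cons 210 191 .nil .nil) (.cons 210 191 .nil .nil))) .nil)))), [124], []⟩]

/-- pairs -/
def kT2 : List Mo := keysWU gT2 kT1

/-- items -/
def gT3 : List WU :=
  [⟨100, 1, 33, 121, 0, (.cons 210 209 (.exit 0) (.cons 212 171 (.cons 210 229 .nil .nil) (.cons 210 229 .nil .nil))), [101], []⟩,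
   ⟨101, 1, 32, 121, 0, (.cons 210 229 (.cons 227 249 (.cons 150 189 .nil .nil) (.cons 150 189 (.cons 227 249 .nil .nil) .nil)) (.cons 132 192 (.cons 210 211 (.cons 192 193 .nil (.cons 270 250 .nil .nil)) (.cons 210 211 (.cons 192 193 (.cons 211 230 .nil .nil) (.cons 211 230 (.cons 253 212 .nil .nil) .nil)) (.cons 210 231 .nil .nil))) (.cons 210 229 (.cons 227 249 (.cons 150 189 .nil .nil) (.cons 150 189 (.cons 227 249 .nil .nil) .nil)) (.cons 210 229 (.exit 0) (.cons 210 231 (.cons 173 192 .nil .nil) .nil))))), [102], []⟩,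
   ⟨102, 1, 31, 122, 0, (.cons 210 209 (.exit 0) (.cons 210 230 (.cons 230 209 (.cons 231 191 .nil .nil) (.cons 230 210 (.cons 210 191 (.cons 191 212 .nil .nil) (.cons 208 169 (.cons 210 191 (.cons 191 212 .nil .nil) (.cons 131 170 (.cons 170 192 .nil .nil) .nil)) (.cons 131 170 (.cons 170 192 .nil .nil) .nil))) (.cons 131 170 (.cons 230 210 (.cons 170 192 .nil .nil) (.cons 230 210 (.cons 170 192 .nil .nil) .nil)) .nil))) (.cons 131 170 (.cons 170 192 (.cons 208 230 .nil .nil) (.cons 208 230 (.cons 170 192 .nil .nil) .nil)) .nil))), [103], []⟩,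
   ⟨103, 1, 30, 122, 0, (.cons 210 229 (.cons 209 227 .nil (.cons 266 227 .nil .nil)) (.cons 210 229 (.exit 0) .nil)), [104], []⟩,
   ⟨104, 1, 29, 123, 0, (.cons 210 230 (.exit 0) (.cons 190 208 (.cons 189 192 .nil .nil) (.cons 210 230 (.cons 230 249 .nil (.cons 230 249 .nil (.cons 230 249 (.cons 211 229 .nil .nil) (.cons 230 249 (.cons 211 250 .nil .nil) .nil)))) .nil))), [105], []⟩,
   ⟨105, 1, 29, 124, 0, (.cons 174 192 (.cons 170 211 .nil .nil) (.cons 210 229 (.exit 0) (.cons 170 211 (.cons 174 192 .nil (.cons 169 171 .nil .nil)) .nil))), [106], []⟩,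
   ⟨106, 1, 28, 125, 0, (.cons 151 192 .nil (.cons 210 209 (.exit 0) .nil)), [107], []⟩,
   ⟨107, 1, 27, 125, 0, (.cons 210 189 (.exit 0) .nil), [108], []⟩,
   ⟨108, 1, 26, 124, 0, (.cons 210 209 (.exit 0) (.cons 212 171 .nil .nil)), [109], []⟩,
   ⟨109, 1, 25, 124, 0, (.cons 210 189 .nil (.cons 210 189 (.exit 0) .nil)), [110], []⟩,
   ⟨110, 1, 24, 123, 0, (.cons 210 209 (.exit 0) .nil), [111], []⟩,
   ⟨111, 1, 23, 123, 0, (.cons 210 189 .nil (.cons 210 189 (.exit 0) (.cons 210 189 .nil (.cons 210 230 (.cons 249 248 .nil .nil) .nil)))), [112], []⟩,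
   ⟨112, 1, 22, 122, 0, (.cons 210 190 (.exit 0) .nil), [113], []⟩,
   ⟨113, 1, 22, 121, 0, (.cons 210 189 (.exit 0) .nil), [114], []⟩,
   ⟨114, 1, 21, 120, 0, (.cons 210 190 (.exit 0) .nil), [115], []⟩,
   ⟨115, 1, 21, 119, 0, (.cons 210 189 (.exit 0) (.cons 210 189 (.cons 168 150 .nil .nil) (.cons 210 189 (.cons 168 150 .nil .nil) (.cons 272 231 (.cons 253 251 (.cons 250 232 .nil (.cons 231 249 .nil .nil)) (.cons 210 189 (.cons 168 150 .nil .nil) (.cons 210 189 (.cons 168 150 .nil .nil) .nil))) .nil)))), [116], []⟩]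

/-- pairs -/
def kT3 : List Mo := keysWU gT3 kT2

/-- items -/
def gT4 : List WU :=
  [⟨98, 1, 35, 120, 0, (.cons 210 209 (.exit 0) (.cons 149 169 .nil .nil)), [99], []⟩,
   ⟨99, 1, 34, 120, 0, (.cons 251 232 (.cons 210 229 (.cons 232 211 (.cons 229 248 .nil .nil) (.cons 231 190 (.cons 229 248 .nil .nil) (.cons 229 248 .nil .nil))) .nil) (.cons 210 229 (.cons 229 228 (.cons 228 247 (.cons 245 267 (.cons 168 207 .nil .nil) (.cons 168 207 (.cons 245 267 .nil .nil) .nil)) (.cons 150 210 (.cons 228 229 (.cons 210 211 .nil (.cons 288 268 .nil .nil)) (.cons 228 229 (.cons 210 211 (.cons 229 248 .nil .nil) (.cons 229 248 (.cons 271 230 .nil .nil) .nil)) (.cons 228 249 .nil .nil))) (.cons 228 247 (.cons 245 267 (.cons 168 207 .nil .nil) (.cons 168 207 (.cons 245 267 .nil .nil) .nil)) (.cons 228 249 (.cons 249 269 (.cons 271 230 .nil .nil) (.cons 191 210 .nil .nil)) .nil)))) (.cons 231 190 (.cons 229 248 .nil .nil) (.cons 229 248 .nil .nil))) (.cons 210 229 (.exit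 0) .nil))), [100], []⟩]

/-- pairs -/
def kT4 : List Mo := keysWU gT4 kT3

/-- pairs -/
def kT5 : List Mo := ⟨3, 1⟩ :: kU0b

/-- items -/
def gT6 : List WU :=
  [⟨1, 1, 35, 118, 274, (.cons 210 231 (.cons 173 192 (.cons 270 252 .nil .nil) (.cons 189 209 (.cons 270 252 .nil .nil) (.cons 270 252 (.cons 173 192 .nil (.cons 189 209 .nil .nil)) .nil))) (.cons 173 192 (.cons 210 209 (.cons 209 188 .nil (.cons 209 208 (.cons 186 227 .nil .nil) (.cons 209 208 (.cons 186 227 .nil .nil) (.cons 209 208 .nil (.cons 209 208 (.cons 186 227 .nil .nil) .nil))))) (.cons 210 231 (.cons 231 250 .nil (.cons 189 209 (.cons 231 250 .nil .nil) (.cons 231 250 (.cons 192 211 .nil (.cons 189 209 .nil .nil)) .nil))) (.cons 210 231 (.cons 231 250 .nil (.cons 189 209 (.cons 231 250 .nil .nil) (.cons 231 250 (.cons 250 249 .nil (.cons 189 209 .nil .nil)) .nil))) .nil))) (.cons 210 209 (.cons 209 188 .nil (.cons 209 208 (.cons 186 227 .nil .nil) (.cons 209 208 (.cons 186 227 .nil .nil)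 (.cons 209 208 .nil (.cons 209 208 (.cons 186 227 .nil .nil) .nil))))) (.cons 210 231 (.exit 0) (.cons 210 231 (.cons 231 250 (.cons 291 211 .nil (.cons 189 209 .nil .nil)) (.cons 231 250 (.cons 291 211 .nil (.cons 189 209 .nil .nil)) (.cons 231 250 (.cons 213 232 .nil .nil) (.cons 189 209 (.cons 231 250 .nil (.cons 231 250 .nil (.cons 231 250 (.cons 213 232 .nil .nil) .nil))) (.cons 231 250 (.cons 213 232 (.cons 250 249 .nil (.cons 189 209 .nil .nil)) (.cons 250 249 .nil (.cons 189 209 (.cons 213 232 .nil .nil) .nil))) .nil))))) .nil))))), [2], []⟩,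
   ⟨2, 1, 36, 119, 253, (.cons 210 229 (.exit 0) (.cons 152 171 (.cons 210 229 .nil (.cons 168 188 (.cons 210 229 .nil .nil) (.cons 210 229 (.cons 171 190 .nil (.cons 168 188 .nil .nil)) .nil))) (.cons 210 229 (.cons 192 211 .nil .nil) (.cons 168 188 (.cons 210 229 .nil (.cons 210 229 .nil (.cons 210 229 (.cons 192 211 .nil .nil) .nil))) (.cons 249 231 (.cons 210 229 (.cons 231 190 .nil (.cons 168 188 .nil .nil)) (.cons 210 229 (.cons 231 190 .nil (.cons 168 188 .nil .nil)) (.cons 210 229 (.cons 192 211 .nil .nil) (.cons 168 188 (.cons 210 229 .nil (.cons 210 229 .nil .nil)) .nil)))) .nil))))), [3], []⟩]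

/-- pairs -/
def kT6 : List Mo := keysWU gT6 kT5

/-- items -/
def gT7 : List WU :=
  [⟨0, 1, 35, 117, 294, (.cons 210 230 (.cons 193 212 (.cons 230 229 (.cons 229 208 .nil (.cons 229 228 (.cons 206 247 .nil .nil) (.cons 229 228 (.cons 206 247 .nil .nil) (.cons 229 228 .nil (.cons 229 228 (.cons 206 247 .nil .nil) .nil))))) (.cons 230 251 (.cons 251 270 .nil .nil) (.cons 308 269 (.cons 230 251 (.cons 251 270 .nil .nil) (.cons 230 251 (.cons 251 270 .nil .nil) .nil)) .nil))) (.cons 193 212 (.cons 230 229 (.cons 229 208 .nil (.cons 229 228 (.cons 206 247 .nil .nil) (.cons 229 228 (.cons 206 247 .nil .nil) (.cons 229 228 .nil (.cons 229 228 (.cons 206 247 .nil .nil) .nil))))) (.cons 230 251 (.cons 251 270 .nil (.cons 209 229 (.cons 251 270 .nil .nil) (.cons 251 270 (.cons 212 231 .nil (.cons 209 229 .nil .nil)) .nil))) (.cons 230 251 (.cons 251 270 .nil (.cons 209 229 (.cons 251 270 .nil .nil) (.cons 251 270 (.cons 270 269 .nil (.cons 209 229 .nil .nil)) .nil)))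 .nil))) (.cons 230 251 (.cons 251 270 .nil (.cons 209 229 (.cons 251 270 .nil .nil) (.cons 290 272 (.cons 251 270 .nil (.cons 209 229 .nil .nil)) .nil))) (.cons 308 269 (.cons 193 212 (.cons 230 251 (.cons 251 270 .nil .nil) (.cons 230 251 (.cons 251 270 .nil .nil) .nil)) (.cons 230 251 (.cons 251 270 .nil (.cons 209 229 (.cons 251 270 .nil .nil) (.cons 290 272 (.cons 251 270 .nil (.cons 209 229 .nil .nil)) .nil))) (.cons 230 251 (.cons 251 270 .nil (.cons 209 229 (.cons 251 270 .nil .nil) (.cons 251 270 (.cons 311 231 .nil (.cons 209 229 .nil .nil)) .nil))) .nil))) .nil)))) (.cons 210 230 (.exit 0) (.cons 210 230 (.cons 193 212 (.cons 230 229 (.cons 229 208 .nil (.cons 229 228 (.cons 206 247 .nil .nil) (.cons 229 228 (.cons 206 247 .nil .nil) (.cons 229 228 .nil (.cons 229 228 (.cons 206 247 .nil .nil) .nil))))) (.cons 230 251 (.cons 251 270 .nil .nil) (.cons 308 269 (.cons 230 251 (.cons 251 270 .nil .nil) (.cons 230 251 (.cons 251 270 .nil .nil) .nil))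 .nil))) (.cons 193 212 (.cons 230 229 (.cons 229 208 .nil (.cons 229 228 (.cons 206 247 .nil .nil) (.cons 229 228 (.cons 206 247 .nil .nil) (.cons 229 228 .nil (.cons 229 228 (.cons 206 247 .nil .nil) .nil))))) (.cons 230 251 (.cons 251 270 .nil (.cons 209 229 (.cons 251 270 .nil .nil) (.cons 251 270 (.cons 212 231 .nil (.cons 209 229 .nil .nil)) .nil))) (.cons 230 251 (.cons 251 270 .nil (.cons 209 229 (.cons 251 270 .nil .nil) (.cons 251 270 (.cons 270 269 .nil (.cons 209 229 .nil .nil)) .nil))) .nil))) (.cons 230 251 (.cons 251 270 .nil (.cons 209 229 (.cons 251 270 .nil .nil) (.cons 290 272 (.cons 251 270 .nil (.cons 209 229 .nil .nil)) .nil))) (.cons 308 269 (.cons 193 212 (.cons 230 251 (.cons 251 270 .nil .nil) (.cons 230 251 (.cons 251 270 .nil .nil) .nil)) (.cons 230 251 (.cons 251 270 .nil (.cons 209 229 (.cons 251 270 .nil .nil) (.cons 290 272 (.cons 251 270 .nil (.cons 209 229 .nil .nil)) .nil))) (.cons 230 251 (.cons 251 270 .nil (.cons 209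 229 (.cons 251 270 .nil .nil) (.cons 251 270 (.cons 311 231 .nil (.cons 209 229 .nil .nil)) .nil))) .nil))) .nil)))) (.cons 210 230 (.cons 230 251 (.cons 193 212 (.cons 290 272 .nil .nil) (.cons 209 229 (.cons 290 272 .nil .nil) (.cons 290 272 (.cons 193 212 .nil (.cons 209 229 .nil .nil)) .nil))) (.cons 193 212 (.cons 230 251 (.cons 290 272 .nil .nil) (.cons 230 251 (.cons 251 270 .nil (.cons 251 270 .nil (.cons 290 272 (.cons 251 270 .nil (.cons 251 270 .nil .nil)) .nil))) (.cons 308 269 (.cons 230 251 (.cons 251 270 .nil .nil) (.cons 230 251 (.cons 251 270 .nil .nil) .nil)) (.cons 230 229 (.cons 229 208 (.cons 186 227 .nil .nil) (.cons 229 208 (.cons 209 229 .nil .nil) .nil)) .nil)))) (.cons 230 251 (.cons 251 270 (.exit 1) (.cons 193 212 (.cons 251 270 .nil (.cons 251 270 .nil (.cons 290 272 (.cons 251 270 .nil (.cons 251 270 .nil .nil)) .nil))) (.cons 209 229 (.cons 251 270 .nil (.cons 251 270 .nil (.cons 290 272 (.cons 251 270 .nil (.cons 251 270 .nil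 .nil)) .nil))) (.cons 308 269 (.cons 251 270 .nil (.cons 209 229 (.cons 251 270 .nil .nil) (.cons 290 272 (.cons 251 270 .nil (.cons 209 229 .nil .nil)) .nil))) (.cons 290 272 (.cons 251 270 (.cons 272 231 .nil (.cons 209 229 .nil .nil)) (.cons 193 212 (.cons 251 270 .nil (.cons 251 270 .nil .nil)) (.cons 209 229 (.cons 251 270 .nil (.cons 251 270 .nil .nil)) (.cons 251 270 (.cons 272 231 .nil (.cons 209 229 .nil .nil)) .nil)))) .nil))))) (.cons 308 269 (.cons 193 212 (.cons 230 251 (.cons 251 270 .nil .nil) (.cons 230 251 (.cons 251 270 .nil .nil) .nil)) (.cons 230 251 (.cons 251 270 .nil (.cons 209 229 (.cons 251 270 .nil .nil) (.cons 290 272 (.cons 251 270 .nil (.cons 209 229 .nil .nil)) .nil))) (.cons 230 251 (.cons 251 270 .nil (.cons 209 229 (.cons 251 270 .nil .nil) (.cons 251 270 (.cons 311 231 .nil (.cons 209 229 .nil .nil)) .nil))) .nil))) (.cons 230 251 (.cons 251 270 (.cons 311 231 .nil (.cons 209 229 .nil .nil)) (.cons 193 212 (.cons 251 270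 .nil (.cons 251 270 .nil (.cons 290 272 (.cons 251 270 .nil (.cons 251 270 .nil .nil)) .nil))) (.cons 209 229 (.cons 251 270 .nil (.cons 251 270 .nil (.cons 290 272 (.cons 251 270 .nil (.cons 251 270 .nil .nil)) .nil))) (.cons 251 270 (.cons 270 269 .nil (.cons 209 229 .nil .nil)) (.cons 290 272 (.cons 251 270 (.cons 272 231 .nil (.cons 209 229 .nil .nil)) (.cons 193 212 (.cons 251 270 .nil (.cons 251 270 .nil .nil)) (.cons 209 229 (.cons 251 270 .nil (.cons 251 270 .nil .nil)) (.cons 251 270 (.cons 270 269 .nil (.cons 209 229 .nil .nil)) .nil)))) .nil))))) .nil))))) .nil)))), [1, 3], []⟩]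

/-- pairs -/
def kT7 : List Mo := keysWU gT7 kT6

/-- pairs -/
def kT8 : List Mo := ⟨97, 1⟩ :: kT4

/-- the array of phase `0` -/
def ATBr : Nat :=
  0xf00000000000000000000000000000000000000000000000000000000000000000000000000000000f00000000000000000000000000000000000000000000000000000000000000000000000000000000f00000000000000000000000000000000000000000000000000000000000000000000000000000000f00000000000000000000000000000000000000000000000000000000000000000000000000000000f00000000000000000000000000000000000000000000000000000000000000000000000000000000f00000000000000000000000000000000000000000000000000000000000000000000000000000000f00000000000000000000000000000000000000000000000000000000000000000000000000000000f00000000000000000000000000000000000000000000000000000000000000000000000000000000f00000000000000000000000000000000000000000000000000000000000000000000000000000000f00000000000000000000000000000000000000000000000000000000000000000000000000000000f000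00000000000000000000000000000000000000000000000000000000000000000000000000000f00000000000000000000000000000000000000000000000000000000000000000000000000000000f00000000000000000000000000000000000000000000000000000000000000000000000000000000f00000000000000000000000000000000000000000000000000000000000000000000000000000000f00000000000000000000000000000000000000000000000000000000000000000000000000000000f00000000000000000000000000000000000000000000000000000000000000000000000000000000f00000000000000000000000000000000000000000000000000000000000000000000000000000000f00000000000000000000000000000000000000000000000000000000000000000000000000000000f00000000000000000000000000000000000000000000000000000000000000fffffffffffffffffffffffffffffffffffffffffffffffffffffffffffffffffffffffffffffffffffffffffffffffffffffffffffffffffffffffffffffffffffffffffffffffffffffffffffffffffffffffffffffffffffffffffffffffffffffffffffffffffffffffffffffffffffffffffffffffffffffffffffffffffffff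fffffffffffffffffffffffffffffffffffffffffffffffffffffffffffffffffffffffffffffffffffffffffffffffffffffffffffffffffffffffffffffffffffffffffffffffffffffffffffffffffffffffffffffffffffffffffffffffffffffffffffffffffffffffffffffffffffffffffffffffffffffffffffffffffffffffffffffffffffffffffffffffffffffffffffffffffffffffffffffffffffffffffffffffffffffffffffffffffffffffffffffffffffffffffffffffffff000000000000000000f00000000000000000000000000111111111111111111111111111ffffffff0000000000000000000f0000000000000000000000001111111111111111111111111111ffffffff00000000000000000000f000000000000000000000011111111111111111111111111111ffffffff000000000000000000000f00000000000000000000111111111111111111111111111111ffffffff0000000000000000000000f0000000000000000001111111111111111111111111111111ffffffff00000000000000000000000f000000000000000011111111111111111111111111111111ffffffff000000000000000000000000f00000000000000111111111111111111111111111111111ffffffff000000000000000000000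0000f0000000000001144444444111111111111111111111111ffffffff00000000000000000000000000f000000000011444c44444441111111111111111111111ffffffff000000000000000000000000000f00000000111444411444444411111111111111111111ffffffff0000000000000000000000000000f0000003121111100214c44441111111111111111111ffffffff00000000000000000000000000000f0000313144c1029002149441111111111111111111ffffffff000000000000000000000000000000f001412b941209c9200a4444111111111111111111ffffffff0000000000000000000000000000000fc994312a00243449201944111111111111111111ffffffff0000000000000000000000000000000909902100994144449024c4411111111111111111ffffffff0000000000000000000000000000003000190099c1114444420194411111111111111111ffffffff00000000000000000000000000000309090010011311c144490a44441111111111111111ffffffff000000000000000000000000000030390190009211411144491019441111111111111111ffffffff0000000000000000000000000003f3490149049421111114a49024441111111111111111ffffffff000000000000000000000000001f3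4410190099329411114444201941111111111111111ffffffff00000000000000000000000001f9144b0100001114411111444209441111111111111111ffffffff0000000000000000000000001f9114410101300114444111491024441111111111111111ffffffff000000000000000000000001f91114490910092014444411449024441111111111111111ffffffff00000000000000000000001f9111111909949c90214444114c9101441111111111111111ffffffff0000000000000000000001f911111119091b214900344414441209441111111111111111ffffffff000000000000000000001f91111111190911111492019414441029c41111111111111111ffffffff00000000000000000001f911111111190911444449094444442094a41111111111111111ffffffff0000000000000000001f9111111111190911144410294444410294441111111111111111ffffffff000000000000000001f9111111111119091144442094b4444209494c4444444444444444ffffffff00000000000000001f911111111111190911444102444444101411441144114411441144ffffffff0000000000000001f9111111111111190914444209444144902100220022002200220022ffffffff000000000000001f911111111111111909144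41024444144c90099009200920092009200ffffffff00000000000001f911111111111111190944442094a41144c499cc99c999c999c999c999ffffffff0000000000001f91111111111111111909444102944411444444444b444b444b444b444bffffffff000000000001f9111111111111111119094442094a411114444444441111111111111111ffffffff00000000001f911111111111111111190944102944411111111111111111111111111111ffffffff0000000001f9111111111111111111190944209444111111111111111111111111111111ffffffff000000001f91111111111111111111190991024444111111111111111111111111111111ffffffff00000001f911111111111111111111190949024441111111111111111111111111111111ffffffff0000001f91111111111111111111111909c9101941111111111111111111111111111111ffffffff000001f91111111111111111111111190941209441111111111111111111111111111111ffffffff00001f911111111111111111111111190991024441111111111111111111111111111111ffffffff0001f9111111111111111111111111190949024441111111111111111111111111111111ffffffff001f911111111111111111111111111909c9101941111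111111111111111111111111111ffffffff01f911111111111111111111111111190941209441111111111111111111111111111111ffffffff1f9111111111111111111111111111190991024441111111111111111111111111111111fffffffff91111111111111111111111111111190949024441111111111111111111111111111111ffffffff9111111111111111111111111111111909c9101941111111111111111111111111111111ffffffff111111111111111111111111111111190941209441111111111111111111111111111111ffffffff111111111111111111111111111111190991024441111111111111111111111111111111ffffffff111111111111111111111111111111190949024441111111111111111111111111111111ffffffff1111111111111111111111111111111909c9101941111111111111111111111111111111ffffffff111111111111111111111111111111190941209441111111111111111111111111111111ffffffff111111111111111111111111111111190991024441111111111111111111111111111111ffffffff111111111111111111111111111111190949024441111111111111111111111111111111ffffffff1111111111111111111111111111111909c910194111111111111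1111111111111111111ffffffff111111111111111111111111111111190941209441111111111111111111111111111111ffffffff111111111111111111111111111111190991024441111111111111111111111111111111ffffffff111111111111111111111111111111190949024441111111111111111111111111111111ffffffff1111111111111111111111111111111909c9101941111111111111111111111111111111ffffffff111111111111111111111111111111190941209441111111111111111111111111111111ffffffff111111111111111111111111111111190991024441111111111111111111111111111111ffffffff111111111111111111111111111111190949024441111111111111111111111111111111ffffffff1111111111111111111111111111111909c9101941111111111111111111111111111111ffffffff111111111111111111111111111111190941209441111111111111111111111111111111ffffffff111111111111111111111111111111190991024441111111111111111111111111111111ffffffff111111111111111111111111111111190949024441111111111111111111111111111111ffffffff1111111111111111111111111111111909c91019411111111111111111111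11111111111ffffffff111111111111111111111111111111190941209441111111111111111111111111111111ffffffff111111111111111111111111111111190991024441111111111111111111111111111111ffffffff111111111111111111111111111111190949024441111111111111111111111111111111ffffffff1111111111111111111111111111111909c9101941111111111111111111111111111111ffffffff111111111111111111111111111111190941209441111111111111111111111111111111ffffffff111111111111111111111111111111190941024441111111111111111111111111111111ffffffff111111111111111111111111111111190949024444111111111111111111111111111111ffffffff111111111111111111111111111111190944101444111111111111111111111111111111ffffffff1111111111111111111111111111111909a9902444411111111111111111111111111111ffffffff11111111111111111111111111111119094c910144411111111111111111111111111111ffffffff11111111111111111111111111111119094a490244441111111111111111111111111111ffffffff111111111111111111111111111111190944491014441111111111111111111111111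111ffffffff111111111111111111111111111111190914449024c44111111111111111111111111111ffffffff111111111111111111111111111111190914444201444111111111111111111111111111ffffffff11111111111111111111111111111119091144490a4c4411111111111111111111111111ffffffff111111111111111111111111111111190911444910194411111111111111111111111111ffffffff11111111111111111111111111111119091114a490a44441111111111111111111111111ffffffff111111111111111111111111111111190911144491019441111111111111111111111111ffffffff111111111111111111111111111111190911114449024c44111111111111111111111111ffffffff111111111111111111111111111111190911114444201c44111111111111111111111111ffffffff11111111111111111111111111111119091111144490a4c4411111111111111111111111ffffffff111111111111111111111111111111190911111444920194411111111111111111111111ffffffff11111111111111111111111111111119091111114a490a44424111111111111111111111ffffffff111111111111111111111111111111190911111144491019444444441111111111111111fffff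fff11111111111111111111111111111119091111111444902149c444444444444444444444ffffffff111111111111111111111111111111190911111114444300a11411441144114411441144ffffffff111111111111111111111111111111190911111111444492002200220022002200220022ffffffff111111111111111111111111111111190911111111444449990022009200920092009200ffffffff111111111111111111111111111111190911111111144449c9994499c999c999c999c999ffffffff11111111111111111111111111111119091111111111144444b4444b444b444b444b444bffffffff111111111111111111111111111111190911111111111114444444441111111111111111ffffffff111111111111111111111111111111190911111111111111111111111111111111111111ffffffff111111111111111111111111111111190911111111111111111111111111111111111111ffffffff111111111111111111111111111111190911111111111111111111111111111111111111ffffffff111111111111111111111111111111190911111111111111111111111111111111111111ffffffff111111111111111111111111111111190911111111111111111111111111111111111111ffffffff11111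1111111111111111111111111190911111111111111111111111111111111111111ffffffff111111111111111111111111111111190911111111111111111111111111111111111111ffffffff111111111111111111111111111111190911111111111111111111111111111111111111ffffffff111111111111111111111111111111190911111111111111111111111111111111111111ffffffff111111111111111111111111111111190911111111111111111111111111111111111111ffffffff111111111111111111111111111111190911111111111111111111111111111111111111ffffffff111111111111111111111111111111190911111111111111111111111111111111111111ffffffff111111111111111111111111111111190911111111111111111111111111111111111111ffffffff111111111111111111111111111111190911111111111111111111111111111111111111ffffffff111111111111111111111111111111190911111111111111111111111111111111111111ffffffff111111111111111111111111111111190911111111111111111111111111111111111111ffffffff111111111111111111111111111111190911111111111111111111111111111111111111ffffffff1111111111111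11111111111111111190911111111111111111111111111111111111111ffffffff111111111111111111111111111111190911111111111111111111111111111111111111ffffffff111111111111111111111111111111190911111111111111111111111111111111111111ffffffff111111111111111111111111111111190911111111111111111111111111111111111111ffffffff111111111111111111111111111111190911111111111111111111111111111111111111ffffffff111111111111111111111111111111190911111111111111111111111111111111111111ffffffff111111111111111111111111111111190911111111111111111111111111111111111111ffffffff111111111111111111111111111111190911111111111111111111111111111111111111ffffffff111111111111111111111111111111190911111111111111111111111111111111111111ffffffff111111111111111111111111111111190911111111111111111111111111111111111111ffffffff111111111111111111111111111111190911111111111111111111111111111111111111ffffffff111111111111111111111111111111190911111111111111111111111111111111111111ffffffff111111111111111111111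1111111111909111111111111111111111111111111ffffffffffffffff1111111111111111111111111111111909111111111111111111111111111111ffffffffffffffff1111111111111111111111111111111909111111111111111111111111111111ffffffffffffffff1111111111111111111111111111111909111111111111111111111111111111ffffffffffffffff1111111111111111111111111111111909111111111111111111111111111111ffffffffffffffff1111111111111111111111111111111909111111111111111111111111111111ffffffffffffffff1111111111111111111111111111111909111111111111111111111111111111ffffffffffffffff1111111111111111111111111111111909111111111111111111111111111111ffffffff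

/-- an item -/
def uV : WU := ⟨0, 0, 35, 117, 294, (.cons 210 230 (.cons 193 212 (.cons 230 229 (.cons 229 208 .nil (.cons 229 228 (.cons 206 247 .nil .nil) (.cons 229 228 (.cons 206 247 .nil .nil) (.cons 229 228 .nil .nil)))) (.cons 230 251 (.cons 251 270 .nil .nil) (.cons 308 269 (.cons 230 251 (.cons 251 270 .nil .nil) (.cons 230 229 (.cons 229 228 .nil .nil) .nil)) .nil))) (.cons 193 212 (.cons 230 229 (.cons 229 208 .nil (.cons 229 228 (.cons 206 247 .nil .nil) (.cons 229 228 (.cons 206 247 .nil .nil) (.cons 229 228 .nil .nil)))) (.cons 230 251 (.cons 251 270 .nil (.cons 209 229 (.cons 251 270 .nil .nil) (.cons 251 270 (.cons 212 231 .nil (.cons 209 229 .nil .nil)) .nil))) (.cons 230 251 (.cons 251 270 .nil (.cons 209 229 (.cons 251 270 .nil .nil) (.cons 251 270 (.cons 270 269 .nil (.cons 209 229 .nil .nil)) .nil))) .nil))) (.cons 230 251 (.cons 251 270 .nil (.cons 209 229 (.cons 251 270 .nil .nil) (.cons 290 272 (.cons 251 270 .nil (.cons 209 229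 .nil .nil)) .nil))) (.cons 250 269 (.cons 230 229 (.cons 229 208 .nil (.cons 229 228 (.cons 206 247 .nil .nil) (.cons 229 228 .nil .nil))) (.cons 230 251 (.cons 251 270 .nil (.cons 209 229 (.cons 251 270 .nil .nil) (.cons 290 272 (.cons 251 270 .nil (.cons 209 229 .nil .nil)) .nil))) (.cons 230 250 (.cons 330 289 .nil .nil) .nil))) .nil)))) .nil), [], []⟩

/-- an item -/
def uV1 : WU := ⟨4, 0, 35, 117, 294, (.cons 210 230 (.cons 193 212 (.cons 230 229 (.cons 229 208 .nil (.cons 229 228 (.cons 206 247 .nil .nil) (.cons 229 228 (.cons 206 247 .nil .nil) (.cons 229 228 .nil .nil)))) (.cons 230 251 (.cons 251 270 .nil .nil) (.cons 308 269 (.cons 230 251 (.cons 251 270 .nil .nil) (.cons 230 229 (.cons 229 228 .nil .nil) .nil)) .nil))) (.cons 193 212 (.cons 230 229 (.cons 229 208 .nil (.cons 229 228 (.cons 206 247 .nil .nil) (.cons 229 228 (.cons 206 247 .nil .nil) (.cons 229 228 .nil .nil)))) (.cons 230 251 (.cons 251 270 .nil (.cons 209 229 (.cons 251 270 .nil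 .nil) (.cons 251 270 (.cons 212 231 .nil (.cons 209 229 .nil .nil)) .nil))) (.cons 230 251 (.cons 251 270 .nil (.cons 209 229 (.cons 251 270 .nil .nil) (.cons 251 270 (.cons 270 269 .nil (.cons 209 229 .nil .nil)) .nil))) .nil))) (.cons 230 251 (.cons 251 270 .nil (.cons 209 229 (.cons 251 270 .nil .nil) (.cons 290 272 (.cons 251 270 .nil (.cons 209 229 .nil .nil)) .nil))) (.cons 250 269 (.cons 230 229 (.cons 229 208 .nil (.cons 229 228 (.cons 206 247 .nil .nil) (.cons 229 228 .nil .nil))) (.cons 230 251 (.cons 251 270 .nil (.cons 209 229 (.cons 251 270 .nil .nil) (.cons 290 272 (.cons 251 270 .nil (.cons 209 229 .nil .nil)) .nil))) (.cons 230 250 (.cons 330 289 .nil .nil) .nil))) .nil)))) .nil), [], []⟩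

/-- an item -/
def uV2 : WU := ⟨5, 0, 35, 117, 294, (.cons 210 230 (.cons 193 212 (.cons 230 229 (.cons 229 208 .nil (.cons 229 228 (.cons 206 247 .nil .nil) (.cons 229 228 (.cons 206 247 .nil .nil) (.cons 229 228 .nil .nil)))) (.cons 230 251 (.cons 251 270 .nil .nil) (.cons 308 269 (.cons 230 251 (.cons 251 270 .nil .nil) (.cons 230 229 (.cons 229 228 .nil .nil) .nil)) .nil))) (.cons 193 212 (.cons 230 229 (.cons 229 208 .nil (.cons 229 228 (.cons 206 247 .nil .nil) (.cons 229 228 (.cons 206 247 .nil .nil) (.cons 229 228 .nil .nil)))) (.cons 230 251 (.cons 251 270 .nil (.cons 209 229 (.cons 251 270 .nil .nil) (.cons 251 270 (.cons 212 231 .nil (.cons 209 229 .nil .nil)) .nil))) (.cons 230 251 (.cons 251 270 .nil (.cons 209 229 (.cons 251 270 .nil .nil) (.cons 251 270 (.cons 270 269 .nil (.cons 209 229 .nil .nil)) .nil))) .nil))) (.cons 230 251 (.cons 251 270 .nil (.cons 209 229 (.cons 251 270 .nil .nil) (.cons 290 272 (.cons 251 270 .nil (.cons 209 229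 .nil .nil)) .nil))) (.cons 250 269 (.cons 230 229 (.cons 229 208 .nil (.cons 229 228 (.cons 206 247 .nil .nil) (.cons 229 228 .nil .nil))) (.cons 230 251 (.cons 251 270 .nil (.cons 209 229 (.cons 251 270 .nil .nil) (.cons 290 272 (.cons 251 270 .nil (.cons 209 229 .nil .nil)) .nil))) (.cons 230 250 (.cons 330 289 .nil .nil) .nil))) .nil)))) .nil), [], []⟩

/-- an item -/
def uV3 : WU := ⟨6, 0, 35, 117, 294, (.cons 210 230 (.cons 193 212 (.cons 230 229 (.cons 229 208 .nil (.cons 229 228 (.cons 206 247 .nil .nil) (.cons 229 228 (.cons 206 247 .nil .nil) (.cons 229 228 .nil .nil)))) (.cons 230 251 (.cons 251 270 .nil .nil) (.cons 308 269 (.cons 230 251 (.cons 251 270 .nil .nil) (.cons 230 229 (.cons 229 228 .nil .nil) .nil)) .nil))) (.cons 193 212 (.cons 230 229 (.cons 229 208 .nil (.cons 229 228 (.cons 206 247 .nil .nil) (.cons 229 228 (.cons 206 247 .nil .nil) (.cons 229 228 .nil .nil)))) (.cons 230 251 (.cons 251 270 .nil (.cons 209 229 (.cons 251 270 .nil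 .nil) (.cons 251 270 (.cons 212 231 .nil (.cons 209 229 .nil .nil)) .nil))) (.cons 230 251 (.cons 251 270 .nil (.cons 209 229 (.cons 251 270 .nil .nil) (.cons 251 270 (.cons 270 269 .nil (.cons 209 229 .nil .nil)) .nil))) .nil))) (.cons 230 251 (.cons 251 270 .nil (.cons 209 229 (.cons 251 270 .nil .nil) (.cons 290 272 (.cons 251 270 .nil (.cons 209 229 .nil .nil)) .nil))) (.cons 250 269 (.cons 230 229 (.cons 229 208 .nil (.cons 229 228 (.cons 206 247 .nil .nil) (.cons 229 228 .nil .nil))) (.cons 230 251 (.cons 251 270 .nil (.cons 209 229 (.cons 251 270 .nil .nil) (.cons 290 272 (.cons 251 270 .nil (.cons 209 229 .nil .nil)) .nil))) (.cons 230 250 (.cons 330 289 .nil .nil) .nil))) .nil)))) .nil), [], []⟩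

/-- pairs -/
def kT9 : List Mo := ⟨0, 0⟩ :: kT7

/-- pairs -/
def kT10 : List Mo := ⟨97, 0⟩ :: kT8

/-- items -/
def gT11 : List WU :=
  [⟨89, 0, 32, 113, 0, (.cons 210 231 (.exit 0) (.cons 208 188 .nil .nil)), [90], []⟩,
   ⟨89, 1, 32, 113, 0, (.cons 210 231 (.exit 0) (.cons 208 188 .nil .nil)), [90], []⟩,
   ⟨90, 0, 33, 114, 0, (.cons 210 211 (.exit 0) (.cons 187 188 (.cons 210 211 (.cons 188 189 .nil .nil) (.cons 210 231 (.cons 268 250 .nil .nil) .nil)) (.cons 210 211 (.cons 211 192 (.cons 192 193 .nil .nil) .nil) (.cons 210 231 (.cons 268 250 .nil .nil) .nil)))), [91], []⟩,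
   ⟨90, 1, 33, 114, 0, (.cons 210 211 (.exit 0) (.cons 187 188 (.cons 210 211 (.cons 188 189 .nil .nil) (.cons 210 231 (.cons 268 250 .nil .nil) .nil)) (.cons 210 211 (.cons 211 192 (.cons 192 193 .nil .nil) .nil) (.cons 210 231 (.cons 268 250 .nil .nil) .nil)))), [91], []⟩,
   ⟨91, 0, 34, 114, 0, (.cons 210 191 (.exit 0) (.cons 247 229 (.cons 229 188 (.cons 188 229 .nil .nil) .nil) .nil)), [92], []⟩,
   ⟨91, 1, 34, 114, 0, (.cons 210 191 (.exit 0) (.cons 247 229 (.cons 229 188 (.cons 188 229 .nil .nil) .nil) .nil)), [92], []⟩,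
   ⟨92, 0, 35, 113, 0, (.cons 208 169 .nil (.cons 210 211 (.exit 0) .nil)), [93], []⟩,
   ⟨92, 1, 35, 113, 0, (.cons 208 169 .nil (.cons 210 211 (.exit 0) .nil)), [93], []⟩,
   ⟨93, 0, 36, 113, 0, (.cons 210 231 (.exit 0) (.cons 230 249 (.cons 210 209 (.cons 209 188 .nil .nil) .nil) .nil)), [94], []⟩,
   ⟨93, 1, 36, 113, 0, (.cons 210 231 (.exit 0) (.cons 230 249 (.cons 210 209 (.cons 209 188 .nil .nil) .nil) .nil)), [94], []⟩,
   ⟨94, 0, 37, 115, 0, (.cons 190 210 (.exit 0) (.cons 189 208 (.cons 190 210 (.cons 210 229 .nil (.cons 210 229 .nil (.cons 210 229 .nil .nil))) .nil) (.cons 190 210 (.cons 210 229 .nil (.cons 210 229 .nil (.cons 210 229 .nil .nil))) .nil))), [95], []⟩,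
   ⟨94, 1, 37, 115, 0, (.cons 190 210 (.exit 0) (.cons 189 208 (.cons 190 210 (.cons 210 229 .nil (.cons 210 229 .nil (.cons 210 229 .nil .nil))) .nil) (.cons 190 210 (.cons 210 229 .nil (.cons 210 229 .nil (.cons 210 229 .nil .nil))) .nil))), [95], []⟩,
   ⟨95, 0, 37, 115, 0, (.cons 128 169 (.cons 210 229 (.cons 229 210 .nil (.cons 229 210 .nil .nil)) .nil) (.cons 210 229 (.exit 0) (.cons 210 229 (.cons 229 210 (.cons 128 169 .nil (.cons 210 190 (.cons 190 169 (.cons 169 168 .nil (.cons 169 168 (.cons 168 147 .nil .nil) .nil)) .nil) .nil)) (.cons 166 207 .nil .nil)) .nil))), [96], []⟩,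
   ⟨95, 1, 37, 115, 0, (.cons 128 169 (.cons 210 229 (.cons 229 210 .nil (.cons 229 210 .nil .nil)) .nil) (.cons 210 229 (.exit 0) (.cons 210 229 (.cons 229 210 (.cons 128 169 .nil (.cons 210 190 (.cons 190 169 (.cons 169 168 .nil (.cons 169 168 (.cons 168 147 .nil .nil) .nil)) .nil) .nil)) (.cons 166 207 .nil .nil)) .nil))), [96], []⟩,
   ⟨96, 0, 36, 116, 0, (.cons 210 229 (.exit 0) (.cons 147 188 .nil .nil)), [97], []⟩,
   ⟨96, 1, 36, 116, 0, (.cons 210 229 (.exit 0) (.cons 147 188 .nil .nil)), [97], []⟩]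

/-- pairs -/
def kT11 : List Mo := keysWU gT11 kT10

/-- items -/
def gT12 : List WU :=
  [⟨78, 1, 32, 103, 0, (.cons 210 230 (.exit 0) (.cons 210 230 (.cons 230 249 (.cons 250 268 .nil .nil) (.cons 230 249 (.cons 249 268 .nil .nil) .nil)) .nil)), [79], []⟩,
   ⟨79, 0, 32, 104, 0, (.cons 210 229 (.cons 230 248 .nil .nil) (.cons 210 229 (.exit 0) .nil)), [80], []⟩,
   ⟨79, 1, 32, 104, 0, (.cons 210 229 (.cons 230 248 .nil .nil) (.cons 210 229 (.exit 0) .nil)), [80], []⟩,
   ⟨80, 0, 31, 105, 0, (.cons 210 230 (.exit 0) (.cons 210 229 (.cons 172 190 .nil (.cons 208 207 .nil .nil)) .nil)), [81], []⟩,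
   ⟨80, 1, 31, 105, 0, (.cons 210 230 (.exit 0) (.cons 210 229 (.cons 172 190 .nil (.cons 208 207 .nil .nil)) .nil)), [81], []⟩,
   ⟨81, 0, 31, 106, 0, (.cons 170 192 (.cons 169 171 .nil .nil) (.cons 210 229 (.exit 0) (.cons 191 169 (.cons 210 191 .nil .nil) .nil))), [82], []⟩,
   ⟨81, 1, 31, 106, 0, (.cons 170 192 (.cons 169 171 .nil .nil) (.cons 210 229 (.exit 0) (.cons 191 169 (.cons 210 191 .nil .nil) .nil))), [82], []⟩,
   ⟨82, 0, 30, 107, 0, (.cons 210 230 (.exit 0) (.cons 210 230 (.cons 230 249 .nil .nil) (.cons 210 230 (.cons 230 249 .nil .nil) (.cons 210 230 (.cons 230 249 .nil .nil) .nil)))), [83], []⟩,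
   ⟨82, 1, 30, 107, 0, (.cons 210 230 (.exit 0) (.cons 210 230 (.cons 230 249 .nil .nil) (.cons 210 230 (.cons 230 249 .nil .nil) (.cons 210 230 (.cons 230 249 .nil .nil) .nil)))), [83], []⟩,
   ⟨83, 0, 30, 108, 0, (.cons 210 229 .nil (.cons 210 229 (.exit 0) (.cons 210 229 .nil .nil))), [84], []⟩,
   ⟨83, 1, 30, 108, 0, (.cons 210 229 .nil (.cons 210 229 (.exit 0) (.cons 210 229 .nil .nil))), [84], []⟩,
   ⟨84, 0, 29, 109, 0, (.cons 210 230 (.exit 0) .nil), [85], []⟩,
   ⟨84, 1, 29, 109, 0, (.cons 210 230 (.exit 0) .nil), [85], []⟩,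
   ⟨85, 0, 29, 110, 0, (.cons 170 192 (.cons 210 231 .nil .nil) (.cons 210 231 (.exit 0) .nil)), [86], []⟩,
   ⟨85, 1, 29, 110, 0, (.cons 170 192 (.cons 210 231 .nil .nil) (.cons 210 231 (.exit 0) .nil)), [86], []⟩,
   ⟨86, 0, 30, 111, 0, (.cons 149 171 .nil (.cons 210 211 (.exit 0) .nil)), [87], []⟩,
   ⟨86, 1, 30, 111, 0, (.cons 149 171 .nil (.cons 210 211 (.exit 0) .nil)), [87], []⟩,
   ⟨87, 0, 31, 111, 0, (.cons 130 171 .nil (.cons 210 231 (.exit 0) .nil)), [88], []⟩,
   ⟨87, 1, 31, 111, 0, (.cons 130 171 .nil (.cons 210 231 (.exit 0) .nil)), [88], []⟩,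
   ⟨88, 0, 32, 112, 0, (.cons 210 230 (.exit 0) (.cons 210 190 (.cons 127 149 (.cons 190 210 (.cons 210 230 .nil .nil) .nil) (.cons 228 208 (.cons 190 210 (.cons 210 230 .nil .nil) .nil) (.cons 190 210 (.cons 191 188 .nil .nil) .nil))) .nil)), [89], []⟩,
   ⟨88, 1, 32, 112, 0, (.cons 210 230 (.exit 0) (.cons 210 190 (.cons 127 149 (.cons 190 210 (.cons 210 230 .nil .nil) .nil) (.cons 228 208 (.cons 190 210 (.cons 210 230 .nil .nil) .nil) (.cons 190 210 (.cons 191 188 .nil .nil) .nil))) .nil)), [89], []⟩]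

/-- pairs -/
def kT12 : List Mo := keysWU gT12 kT11

/-- items -/
def gT13 : List WU :=
  [⟨70, 0, 34, 95, 0, (.cons 210 230 (.exit 0) (.cons 189 169 (.cons 190 231 .nil .nil) (.cons 210 231 (.cons 212 233 .nil (.cons 211 233 .nil .nil)) .nil))), [71], []⟩,
   ⟨70, 1, 34, 95, 0, (.cons 210 230 (.exit 0) (.cons 189 169 (.cons 190 231 .nil .nil) (.cons 210 231 (.cons 212 233 .nil (.cons 211 233 .nil .nil)) .nil))), [71], []⟩,
   ⟨71, 0, 34, 96, 0, (.cons 170 192 (.cons 169 171 .nil (.cons 191 169 .nil .nil)) (.cons 210 231 (.exit 0) (.cons 210 231 (.cons 289 250 .nil .nil) (.cons 191 169 (.cons 170 192 .nil (.cons 168 169 .nil .nil)) .nil)))), [72], []⟩,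
   ⟨71, 1, 34, 96, 0, (.cons 170 192 (.cons 169 171 .nil (.cons 191 169 .nil .nil)) (.cons 210 231 (.exit 0) (.cons 210 231 (.cons 289 250 .nil .nil) (.cons 191 169 (.cons 170 192 .nil (.cons 168 169 .nil .nil)) .nil)))), [72], []⟩,
   ⟨72, 0, 35, 97, 0, (.cons 149 171 (.cons 210 229 .nil .nil) (.cons 210 230 (.exit 0) (.cons 210 229 .nil .nil))), [73], []⟩,
   ⟨72, 1, 35, 97, 0, (.cons 149 171 (.cons 210 229 .nil .nil) (.cons 210 230 (.exit 0) (.cons 210 229 .nil .nil))), [73], []⟩,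
   ⟨73, 0, 35, 98, 0, (.cons 210 229 (.exit 0) (.cons 208 188 (.cons 210 229 (.cons 230 248 .nil .nil) .nil) .nil)), [74], []⟩,
   ⟨73, 1, 35, 98, 0, (.cons 210 229 (.exit 0) (.cons 208 188 (.cons 210 229 (.cons 230 248 .nil .nil) .nil) .nil)), [74], []⟩,
   ⟨74, 0, 34, 99, 0, (.cons 210 230 (.exit 0) (.cons 189 169 (.cons 211 229 .nil .nil) (.cons 210 229 (.cons 208 207 .nil (.cons 250 268 .nil .nil)) .nil))), [75], []⟩,
   ⟨74, 1, 34, 99, 0, (.cons 210 230 (.exit 0) (.cons 189 169 (.cons 211 229 .nil .nil) (.cons 210 229 (.cons 208 207 .nil (.cons 250 268 .nil .nil)) .nil))), [75], []⟩,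
   ⟨75, 0, 34, 100, 0, (.cons 210 229 (.cons 230 248 .nil .nil) (.cons 210 229 (.exit 0) (.cons 210 229 (.cons 230 248 .nil .nil) (.cons 191 169 (.cons 210 191 .nil (.cons 168 169 .nil .nil)) .nil)))), [76], []⟩,
   ⟨75, 1, 34, 100, 0, (.cons 210 229 (.cons 230 248 .nil .nil) (.cons 210 229 (.exit 0) (.cons 210 229 (.cons 230 248 .nil .nil) (.cons 191 169 (.cons 210 191 .nil (.cons 168 169 .nil .nil)) .nil)))), [76], []⟩,
   ⟨76, 0, 33, 101, 0, (.cons 210 230 (.exit 0) (.cons 210 230 (.cons 230 249 (.cons 250 268 .nil .nil) (.cons 230 249 (.cons 250 268 .nil .nil) .nil)) .nil)), [77], []⟩,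
   ⟨76, 1, 33, 101, 0, (.cons 210 230 (.exit 0) (.cons 210 230 (.cons 230 249 (.cons 250 268 .nil .nil) (.cons 230 249 (.cons 250 268 .nil .nil) .nil)) .nil)), [77], []⟩,
   ⟨77, 0, 33, 102, 0, (.cons 210 229 (.cons 230 248 .nil .nil) (.cons 210 229 (.exit 0) .nil)), [78], []⟩,
   ⟨77, 1, 33, 102, 0, (.cons 210 229 (.cons 230 248 .nil .nil) (.cons 210 229 (.exit 0) .nil)), [78], []⟩,
   ⟨78, 0, 32, 103, 0, (.cons 210 230 (.exit 0) (.cons 210 230 (.cons 230 249 (.cons 250 268 .nil .nil) (.cons 230 249 (.cons 249 268 .nil .nil) .nil)) .nil)), [79], []⟩]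

/-- pairs -/
def kT13 : List Mo := keysWU gT13 kT12

/-- items -/
def gT14 : List WU :=
  [⟨62, 0, 34, 87, 0, (.cons 210 230 (.exit 0) (.cons 189 169 (.cons 190 231 .nil .nil) (.cons 210 231 (.cons 212 233 .nil (.cons 211 233 .nil .nil)) .nil))), [63], []⟩,
   ⟨62, 1, 34, 87, 0, (.cons 210 230 (.exit 0) (.cons 189 169 (.cons 190 231 .nil .nil) (.cons 210 231 (.cons 212 233 .nil (.cons 211 233 .nil .nil)) .nil))), [63], []⟩,
   ⟨63, 0, 34, 88, 0, (.cons 170 192 (.cons 169 171 .nil (.cons 191 169 .nil .nil)) (.cons 210 231 (.exit 0) (.cons 210 231 (.cons 249 250 .nil .nil) (.cons 191 169 (.cons 170 192 .nil (.cons 168 169 .nil .nil)) .nil)))), [64], []⟩,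
   ⟨63, 1, 34, 88, 0, (.cons 170 192 (.cons 169 171 .nil (.cons 191 169 .nil .nil)) (.cons 210 231 (.exit 0) (.cons 210 231 (.cons 249 250 .nil .nil) (.cons 191 169 (.cons 170 192 .nil (.cons 168 169 .nil .nil)) .nil)))), [64], []⟩,
   ⟨64, 0, 35, 89, 0, (.cons 149 171 (.cons 228 229 .nil .nil) (.cons 210 230 (.exit 0) (.cons 210 229 (.cons 209 250 .nil .nil) .nil))), [65], []⟩,
   ⟨64, 1, 35, 89, 0, (.cons 149 171 (.cons 228 229 .nil .nil) (.cons 210 230 (.exit 0) (.cons 210 229 (.cons 209 250 .nil .nil) .nil))), [65], []⟩,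
   ⟨65, 0, 35, 90, 0, (.cons 210 229 (.exit 0) (.cons 208 188 (.cons 210 229 (.cons 209 250 .nil .nil) .nil) .nil)), [66], []⟩,
   ⟨65, 1, 35, 90, 0, (.cons 210 229 (.exit 0) (.cons 208 188 (.cons 210 229 (.cons 209 250 .nil .nil) .nil) .nil)), [66], []⟩,
   ⟨66, 0, 34, 91, 0, (.cons 210 230 (.exit 0) (.cons 189 169 (.cons 190 231 .nil .nil) (.cons 210 231 (.cons 212 233 .nil (.cons 211 233 .nil .nil)) .nil))), [67], []⟩,
   ⟨66, 1, 34, 91, 0, (.cons 210 230 (.exit 0) (.cons 189 169 (.cons 190 231 .nil .nil) (.cons 210 231 (.cons 212 233 .nil (.cons 211 233 .nil .nil)) .nil))), [67], []⟩,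
   ⟨67, 0, 34, 92, 0, (.cons 170 192 (.cons 169 171 .nil (.cons 191 169 .nil .nil)) (.cons 210 231 (.exit 0) (.cons 210 231 (.cons 249 250 .nil .nil) (.cons 191 169 (.cons 170 192 .nil (.cons 168 169 .nil .nil)) .nil)))), [68], []⟩,
   ⟨67, 1, 34, 92, 0, (.cons 170 192 (.cons 169 171 .nil (.cons 191 169 .nil .nil)) (.cons 210 231 (.exit 0) (.cons 210 231 (.cons 249 250 .nil .nil) (.cons 191 169 (.cons 170 192 .nil (.cons 168 169 .nil .nil)) .nil)))), [68], []⟩,
   ⟨68, 0, 35, 93, 0, (.cons 149 171 (.cons 228 229 .nil .nil) (.cons 210 230 (.exit 0) (.cons 210 229 (.cons 209 250 .nil .nil) .nil))), [69], []⟩,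
   ⟨68, 1, 35, 93, 0, (.cons 149 171 (.cons 228 229 .nil .nil) (.cons 210 230 (.exit 0) (.cons 210 229 (.cons 209 250 .nil .nil) .nil))), [69], []⟩,
   ⟨69, 0, 35, 94, 0, (.cons 210 229 (.exit 0) (.cons 208 188 (.cons 210 229 (.cons 209 250 .nil .nil) .nil) .nil)), [70], []⟩,
   ⟨69, 1, 35, 94, 0, (.cons 210 229 (.exit 0) (.cons 208 188 (.cons 210 229 (.cons 209 250 .nil .nil) .nil) .nil)), [70], []⟩]

/-- pairs -/
def kT14 : List Mo := keysWU gT14 kT13

/-- items -/
def gT15 : List WU :=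
  [⟨54, 0, 34, 79, 0, (.cons 210 230 (.exit 0) (.cons 189 169 (.cons 190 231 .nil .nil) (.cons 210 231 (.cons 212 233 .nil (.cons 211 233 .nil .nil)) .nil))), [55], []⟩,
   ⟨54, 1, 34, 79, 0, (.cons 210 230 (.exit 0) (.cons 189 169 (.cons 190 231 .nil .nil) (.cons 210 231 (.cons 212 233 .nil (.cons 211 233 .nil .nil)) .nil))), [55], []⟩,
   ⟨55, 0, 34, 80, 0, (.cons 170 192 (.cons 169 171 .nil (.cons 191 169 .nil .nil)) (.cons 210 231 (.exit 0) (.cons 210 231 (.cons 249 250 .nil .nil) (.cons 191 169 (.cons 170 192 .nil (.cons 168 169 .nil .nil)) .nil)))), [56], []⟩,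
   ⟨55, 1, 34, 80, 0, (.cons 170 192 (.cons 169 171 .nil (.cons 191 169 .nil .nil)) (.cons 210 231 (.exit 0) (.cons 210 231 (.cons 249 250 .nil .nil) (.cons 191 169 (.cons 170 192 .nil (.cons 168 169 .nil .nil)) .nil)))), [56], []⟩,
   ⟨56, 0, 35, 81, 0, (.cons 149 171 (.cons 228 229 .nil .nil) (.cons 210 230 (.exit 0) (.cons 210 229 (.cons 209 250 .nil .nil) .nil))), [57], []⟩,
   ⟨56, 1, 35, 81, 0, (.cons 149 171 (.cons 228 229 .nil .nil) (.cons 210 230 (.exit 0) (.cons 210 229 (.cons 209 250 .nil .nil) .nil))), [57], []⟩,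
   ⟨57, 0, 35, 82, 0, (.cons 210 229 (.exit 0) (.cons 208 188 (.cons 210 229 (.cons 209 250 .nil .nil) .nil) .nil)), [58], []⟩,
   ⟨57, 1, 35, 82, 0, (.cons 210 229 (.exit 0) (.cons 208 188 (.cons 210 229 (.cons 209 250 .nil .nil) .nil) .nil)), [58], []⟩,
   ⟨58, 0, 34, 83, 0, (.cons 210 230 (.exit 0) (.cons 189 169 (.cons 190 231 .nil .nil) (.cons 210 231 (.cons 212 233 .nil (.cons 211 233 .nil .nil)) .nil))), [59], []⟩,
   ⟨58, 1, 34, 83, 0, (.cons 210 230 (.exit 0) (.cons 189 169 (.cons 190 231 .nil .nil) (.cons 210 231 (.cons 212 233 .nil (.cons 211 233 .nil .nil)) .nil))), [59], []⟩,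
   ⟨59, 0, 34, 84, 0, (.cons 170 192 (.cons 169 171 .nil (.cons 191 169 .nil .nil)) (.cons 210 231 (.exit 0) (.cons 210 231 (.cons 249 250 .nil .nil) (.cons 191 169 (.cons 170 192 .nil (.cons 168 169 .nil .nil)) .nil)))), [60], []⟩,
   ⟨59, 1, 34, 84, 0, (.cons 170 192 (.cons 169 171 .nil (.cons 191 169 .nil .nil)) (.cons 210 231 (.exit 0) (.cons 210 231 (.cons 249 250 .nil .nil) (.cons 191 169 (.cons 170 192 .nil (.cons 168 169 .nil .nil)) .nil)))), [60], []⟩,
   ⟨60, 0, 35, 85, 0, (.cons 149 171 (.cons 228 229 .nil .nil) (.cons 210 230 (.exit 0) (.cons 210 229 (.cons 209 250 .nil .nil) .nil))), [61], []⟩,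
   ⟨60, 1, 35, 85, 0, (.cons 149 171 (.cons 228 229 .nil .nil) (.cons 210 230 (.exit 0) (.cons 210 229 (.cons 209 250 .nil .nil) .nil))), [61], []⟩,
   ⟨61, 0, 35, 86, 0, (.cons 210 229 (.exit 0) (.cons 208 188 (.cons 210 229 (.cons 209 250 .nil .nil) .nil) .nil)), [62], []⟩,
   ⟨61, 1, 35, 86, 0, (.cons 210 229 (.exit 0) (.cons 208 188 (.cons 210 229 (.cons 209 250 .nil .nil) .nil) .nil)), [62], []⟩]

/-- pairs -/
def kT15 : List Mo := keysWU gT15 kT14

/-- items -/
def gT16 : List WU :=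
  [⟨46, 0, 34, 71, 0, (.cons 210 230 (.exit 0) (.cons 189 169 (.cons 190 231 .nil .nil) (.cons 210 231 (.cons 212 233 .nil (.cons 211 233 .nil .nil)) .nil))), [47], []⟩,
   ⟨46, 1, 34, 71, 0, (.cons 210 230 (.exit 0) (.cons 189 169 (.cons 190 231 .nil .nil) (.cons 210 231 (.cons 212 233 .nil (.cons 211 233 .nil .nil)) .nil))), [47], []⟩,
   ⟨47, 0, 34, 72, 0, (.cons 170 192 (.cons 169 171 .nil (.cons 191 169 .nil .nil)) (.cons 210 231 (.exit 0) (.cons 210 231 (.cons 249 250 .nil .nil) (.cons 191 169 (.cons 170 192 .nil (.cons 168 169 .nil .nil)) .nil)))), [48], []⟩,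
   ⟨47, 1, 34, 72, 0, (.cons 170 192 (.cons 169 171 .nil (.cons 191 169 .nil .nil)) (.cons 210 231 (.exit 0) (.cons 210 231 (.cons 249 250 .nil .nil) (.cons 191 169 (.cons 170 192 .nil (.cons 168 169 .nil .nil)) .nil)))), [48], []⟩,
   ⟨48, 0, 35, 73, 0, (.cons 149 171 (.cons 228 229 .nil .nil) (.cons 210 230 (.exit 0) (.cons 210 229 (.cons 209 250 .nil .nil) .nil))), [49], []⟩,
   ⟨48, 1, 35, 73, 0, (.cons 149 171 (.cons 228 229 .nil .nil) (.cons 210 230 (.exit 0) (.cons 210 229 (.cons 209 250 .nil .nil) .nil))), [49], []⟩,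
   ⟨49, 0, 35, 74, 0, (.cons 210 229 (.exit 0) (.cons 208 188 (.cons 210 229 (.cons 209 250 .nil .nil) .nil) .nil)), [50], []⟩,
   ⟨49, 1, 35, 74, 0, (.cons 210 229 (.exit 0) (.cons 208 188 (.cons 210 229 (.cons 209 250 .nil .nil) .nil) .nil)), [50], []⟩,
   ⟨50, 0, 34, 75, 0, (.cons 210 230 (.exit 0) (.cons 189 169 (.cons 190 231 .nil .nil) (.cons 210 231 (.cons 212 233 .nil (.cons 211 233 .nil .nil)) .nil))), [51], []⟩,
   ⟨50, 1, 34, 75, 0, (.cons 210 230 (.exit 0) (.cons 189 169 (.cons 190 231 .nil .nil) (.cons 210 231 (.cons 212 233 .nil (.cons 211 233 .nil .nil)) .nil))), [51], []⟩,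
   ⟨51, 0, 34, 76, 0, (.cons 170 192 (.cons 169 171 .nil (.cons 191 169 .nil .nil)) (.cons 210 231 (.exit 0) (.cons 210 231 (.cons 249 250 .nil .nil) (.cons 191 169 (.cons 170 192 .nil (.cons 168 169 .nil .nil)) .nil)))), [52], []⟩,
   ⟨51, 1, 34, 76, 0, (.cons 170 192 (.cons 169 171 .nil (.cons 191 169 .nil .nil)) (.cons 210 231 (.exit 0) (.cons 210 231 (.cons 249 250 .nil .nil) (.cons 191 169 (.cons 170 192 .nil (.cons 168 169 .nil .nil)) .nil)))), [52], []⟩,
   ⟨52, 0, 35, 77, 0, (.cons 149 171 (.cons 228 229 .nil .nil) (.cons 210 230 (.exit 0) (.cons 210 229 (.cons 209 250 .nil .nil) .nil))), [53], []⟩,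
   ⟨52, 1, 35, 77, 0, (.cons 149 171 (.cons 228 229 .nil .nil) (.cons 210 230 (.exit 0) (.cons 210 229 (.cons 209 250 .nil .nil) .nil))), [53], []⟩,
   ⟨53, 0, 35, 78, 0, (.cons 210 229 (.exit 0) (.cons 208 188 (.cons 210 229 (.cons 209 250 .nil .nil) .nil) .nil)), [54], []⟩,
   ⟨53, 1, 35, 78, 0, (.cons 210 229 (.exit 0) (.cons 208 188 (.cons 210 229 (.cons 209 250 .nil .nil) .nil) .nil)), [54], []⟩]

/-- pairs -/
def kT16 : List Mo := keysWU gT16 kT15

/-- items -/
def gT17 : List WU :=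
  [⟨38, 0, 34, 63, 0, (.cons 210 230 (.exit 0) (.cons 189 169 (.cons 190 231 .nil .nil) (.cons 210 231 (.cons 212 233 .nil (.cons 211 233 .nil .nil)) .nil))), [39], []⟩,
   ⟨38, 1, 34, 63, 0, (.cons 210 230 (.exit 0) (.cons 189 169 (.cons 190 231 .nil .nil) (.cons 210 231 (.cons 212 233 .nil (.cons 211 233 .nil .nil)) .nil))), [39], []⟩,
   ⟨39, 0, 34, 64, 0, (.cons 170 192 (.cons 169 171 .nil (.cons 191 169 .nil .nil)) (.cons 210 231 (.exit 0) (.cons 210 231 (.cons 249 250 .nil .nil) (.cons 191 169 (.cons 170 192 .nil (.cons 168 169 .nil .nil)) .nil)))), [40], []⟩,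
   ⟨39, 1, 34, 64, 0, (.cons 170 192 (.cons 169 171 .nil (.cons 191 169 .nil .nil)) (.cons 210 231 (.exit 0) (.cons 210 231 (.cons 249 250 .nil .nil) (.cons 191 169 (.cons 170 192 .nil (.cons 168 169 .nil .nil)) .nil)))), [40], []⟩,
   ⟨40, 0, 35, 65, 0, (.cons 149 171 (.cons 228 229 .nil .nil) (.cons 210 230 (.exit 0) (.cons 210 229 (.cons 209 250 .nil .nil) .nil))), [41], []⟩,
   ⟨40, 1, 35, 65, 0, (.cons 149 171 (.cons 228 229 .nil .nil) (.cons 210 230 (.exit 0) (.cons 210 229 (.cons 209 250 .nil .nil) .nil))), [41], []⟩,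
   ⟨41, 0, 35, 66, 0, (.cons 210 229 (.exit 0) (.cons 208 188 (.cons 210 229 (.cons 209 250 .nil .nil) .nil) .nil)), [42], []⟩,
   ⟨41, 1, 35, 66, 0, (.cons 210 229 (.exit 0) (.cons 208 188 (.cons 210 229 (.cons 209 250 .nil .nil) .nil) .nil)), [42], []⟩,
   ⟨42, 0, 34, 67, 0, (.cons 210 230 (.exit 0) (.cons 189 169 (.cons 190 231 .nil .nil) (.cons 210 231 (.cons 212 233 .nil (.cons 211 233 .nil .nil)) .nil))), [43], []⟩,
   ⟨42, 1, 34, 67, 0, (.cons 210 230 (.exit 0) (.cons 189 169 (.cons 190 231 .nil .nil) (.cons 210 231 (.cons 212 233 .nil (.cons 211 233 .nil .nil)) .nil))), [43], []⟩,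
   ⟨43, 0, 34, 68, 0, (.cons 170 192 (.cons 169 171 .nil (.cons 191 169 .nil .nil)) (.cons 210 231 (.exit 0) (.cons 210 231 (.cons 249 250 .nil .nil) (.cons 191 169 (.cons 170 192 .nil (.cons 168 169 .nil .nil)) .nil)))), [44], []⟩,
   ⟨43, 1, 34, 68, 0, (.cons 170 192 (.cons 169 171 .nil (.cons 191 169 .nil .nil)) (.cons 210 231 (.exit 0) (.cons 210 231 (.cons 249 250 .nil .nil) (.cons 191 169 (.cons 170 192 .nil (.cons 168 169 .nil .nil)) .nil)))), [44], []⟩,
   ⟨44, 0, 35, 69, 0, (.cons 149 171 (.cons 228 229 .nil .nil) (.cons 210 230 (.exit 0) (.cons 210 229 (.cons 209 250 .nil .nil) .nil))), [45], []⟩,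
   ⟨44, 1, 35, 69, 0, (.cons 149 171 (.cons 228 229 .nil .nil) (.cons 210 230 (.exit 0) (.cons 210 229 (.cons 209 250 .nil .nil) .nil))), [45], []⟩,
   ⟨45, 0, 35, 70, 0, (.cons 210 229 (.exit 0) (.cons 208 188 (.cons 210 229 (.cons 209 250 .nil .nil) .nil) .nil)), [46], []⟩,
   ⟨45, 1, 35, 70, 0, (.cons 210 229 (.exit 0) (.cons 208 188 (.cons 210 229 (.cons 209 250 .nil .nil) .nil) .nil)), [46], []⟩]

/-- pairs -/
def kT17 : List Mo := keysWU gT17 kT16

/-- items -/
def gT18 : List WU :=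
  [⟨28, 0, 31, 53, 0, (.cons 210 230 (.exit 0) (.cons 210 230 (.cons 230 251 (.cons 232 272 .nil .nil) .nil) .nil)), [29], []⟩,
   ⟨28, 1, 31, 53, 0, (.cons 210 230 (.exit 0) (.cons 210 230 (.cons 230 251 (.cons 232 272 .nil .nil) .nil) .nil)), [29], []⟩,
   ⟨29, 0, 31, 54, 0, (.cons 210 231 (.exit 0) (.cons 210 231 (.cons 211 252 .nil .nil) .nil)), [30], []⟩,
   ⟨29, 1, 31, 54, 0, (.cons 210 231 (.exit 0) (.cons 210 231 (.cons 211 252 .nil .nil) .nil)), [30], []⟩,
   ⟨30, 0, 32, 55, 0, (.cons 210 230 (.exit 0) (.cons 210 230 (.cons 230 251 (.cons 250 272 .nil .nil) .nil) .nil)), [31], []⟩,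
   ⟨30, 1, 32, 55, 0, (.cons 210 230 (.exit 0) (.cons 210 230 (.cons 230 251 (.cons 250 272 .nil .nil) .nil) .nil)), [31], []⟩,
   ⟨31, 0, 32, 56, 0, (.cons 210 231 (.cons 230 252 .nil .nil) (.cons 210 231 (.exit 0) (.cons 210 231 (.cons 230 252 .nil .nil) .nil))), [32], []⟩,
   ⟨31, 1, 32, 56, 0, (.cons 210 231 (.cons 230 252 .nil .nil) (.cons 210 231 (.exit 0) (.cons 210 231 (.cons 230 252 .nil .nil) .nil))), [32], []⟩,
   ⟨32, 0, 33, 57, 0, (.cons 210 230 (.exit 0) (.cons 210 230 (.cons 230 251 (.cons 250 272 .nil .nil) (.cons 230 251 (.cons 250 272 .nil .nil) .nil)) .nil)), [33], []⟩,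
   ⟨32, 1, 33, 57, 0, (.cons 210 230 (.exit 0) (.cons 210 230 (.cons 230 251 (.cons 250 272 .nil .nil) (.cons 230 251 (.cons 250 272 .nil .nil) .nil)) .nil)), [33], []⟩,
   ⟨33, 0, 33, 58, 0, (.cons 210 231 (.exit 0) (.cons 210 231 (.cons 230 252 .nil .nil) .nil)), [34], []⟩,
   ⟨33, 1, 33, 58, 0, (.cons 210 231 (.exit 0) (.cons 210 231 (.cons 230 252 .nil .nil) .nil)), [34], []⟩,
   ⟨34, 0, 34, 59, 0, (.cons 210 230 (.exit 0) (.cons 210 230 (.cons 230 251 (.cons 269 270 .nil .nil) (.cons 230 251 (.cons 269 270 .nil .nil) .nil)) .nil)), [35], []⟩,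
   ⟨34, 1, 34, 59, 0, (.cons 210 230 (.exit 0) (.cons 210 230 (.cons 230 251 (.cons 269 270 .nil .nil) (.cons 230 251 (.cons 269 270 .nil .nil) .nil)) .nil)), [35], []⟩,
   ⟨35, 0, 34, 60, 0, (.cons 210 231 (.exit 0) (.cons 210 231 (.cons 249 250 .nil .nil) .nil)), [36], []⟩,
   ⟨35, 1, 34, 60, 0, (.cons 210 231 (.exit 0) (.cons 210 231 (.cons 249 250 .nil .nil) .nil)), [36], []⟩,
   ⟨36, 0, 35, 61, 0, (.cons 210 230 (.exit 0) (.cons 210 230 (.cons 230 249 (.cons 251 270 .nil .nil) .nil) .nil)), [37], []⟩,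
   ⟨36, 1, 35, 61, 0, (.cons 210 230 (.exit 0) (.cons 210 230 (.cons 230 249 (.cons 251 270 .nil .nil) .nil) .nil)), [37], []⟩,
   ⟨37, 0, 35, 62, 0, (.cons 210 229 (.cons 209 250 .nil .nil) (.cons 210 229 (.exit 0) (.cons 208 188 (.cons 210 229 (.cons 209 250 .nil .nil) .nil) .nil))), [38], []⟩,
   ⟨37, 1, 35, 62, 0, (.cons 210 229 (.cons 209 250 .nil .nil) (.cons 210 229 (.exit 0) (.cons 208 188 (.cons 210 229 (.cons 209 250 .nil .nil) .nil) .nil))), [38], []⟩]

/-- pairs -/
def kT18 : List Mo := keysWU gT18 kT17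

/-- items -/
def gT19 : List WU :=
  [⟨21, 1, 27, 46, 0, (.cons 210 231 (.exit 0) (.cons 210 231 (.cons 211 252 .nil .nil) .nil)), [22], []⟩,
   ⟨22, 0, 28, 47, 0, (.cons 210 230 (.exit 0) (.cons 210 230 (.cons 230 251 (.cons 250 272 (.cons 247 249 .nil .nil) .nil) (.cons 230 251 (.cons 232 272 .nil .nil) (.cons 230 251 (.cons 232 272 .nil .nil) .nil))) .nil)), [23], []⟩,
   ⟨22, 1, 28, 47, 0, (.cons 210 230 (.exit 0) (.cons 210 230 (.cons 230 251 (.cons 250 272 (.cons 247 249 .nil .nil) .nil) (.cons 230 251 (.cons 232 272 .nil .nil) (.cons 230 251 (.cons 232 272 .nil .nil) .nil))) .nil)), [23], []⟩,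
   ⟨23, 0, 28, 48, 0, (.cons 210 231 (.exit 0) (.cons 210 231 (.cons 211 252 .nil .nil) (.cons 210 231 (.cons 231 251 (.cons 251 272 (.cons 334 293 .nil .nil) (.cons 251 272 (.cons 334 293 .nil .nil) (.cons 170 211 (.cons 230 212 .nil (.cons 211 229 .nil .nil)) .nil))) (.cons 231 251 (.cons 274 273 (.cons 170 211 .nil .nil) (.cons 251 272 (.cons 334 293 .nil .nil) .nil)) (.cons 170 211 (.cons 231 251 (.cons 230 212 .nil (.cons 211 229 .nil .nil)) (.cons 231 251 (.cons 274 273 .nil .nil) .nil)) .nil))) .nil))), [24], []⟩,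
   ⟨23, 1, 28, 48, 0, (.cons 210 231 (.exit 0) (.cons 210 231 (.cons 211 252 .nil .nil) (.cons 210 231 (.cons 231 251 (.cons 251 272 (.cons 334 293 .nil .nil) (.cons 251 272 (.cons 334 293 .nil .nil) (.cons 170 211 (.cons 230 212 .nil (.cons 211 229 .nil .nil)) .nil))) (.cons 231 251 (.cons 274 273 (.cons 170 211 .nil .nil) (.cons 251 272 (.cons 334 293 .nil .nil) .nil)) (.cons 170 211 (.cons 231 251 (.cons 230 212 .nil (.cons 211 229 .nil .nil)) (.cons 231 251 (.cons 274 273 .nil .nil) .nil)) .nil))) .nil))), [24], []⟩,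
   ⟨24, 0, 29, 49, 0, (.cons 210 230 (.exit 0) (.cons 210 230 (.cons 230 251 (.cons 313 272 .nil .nil) (.cons 230 251 (.cons 313 272 .nil .nil) .nil)) .nil)), [25], []⟩,
   ⟨24, 1, 29, 49, 0, (.cons 210 230 (.exit 0) (.cons 210 230 (.cons 230 251 (.cons 313 272 .nil .nil) (.cons 230 251 (.cons 313 272 .nil .nil) .nil)) .nil)), [25], []⟩,
   ⟨25, 0, 29, 50, 0, (.cons 210 231 (.cons 293 252 .nil .nil) (.cons 210 231 (.exit 0) (.cons 210 231 (.cons 293 252 .nil .nil) .nil))), [26], []⟩,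
   ⟨25, 1, 29, 50, 0, (.cons 210 231 (.cons 293 252 .nil .nil) (.cons 210 231 (.exit 0) (.cons 210 231 (.cons 293 252 .nil .nil) .nil))), [26], []⟩,
   ⟨26, 0, 30, 51, 0, (.cons 210 230 (.exit 0) (.cons 210 230 (.cons 230 251 (.cons 273 272 .nil .nil) (.cons 230 251 (.cons 273 272 .nil .nil) .nil)) .nil)), [27], []⟩,
   ⟨26, 1, 30, 51, 0, (.cons 210 230 (.exit 0) (.cons 210 230 (.cons 230 251 (.cons 273 272 .nil .nil) (.cons 230 251 (.cons 273 272 .nil .nil) .nil)) .nil)), [27], []⟩,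
   ⟨27, 0, 30, 52, 0, (.cons 210 231 (.exit 0) (.cons 210 231 (.cons 253 252 .nil .nil) .nil)), [28], []⟩,
   ⟨27, 1, 30, 52, 0, (.cons 210 231 (.exit 0) (.cons 210 231 (.cons 253 252 .nil .nil) .nil)), [28], []⟩]

/-- pairs -/
def kT19 : List Mo := keysWU gT19 kT18

/-- items -/
def gT20 : List WU :=
  [⟨16, 0, 24, 42, 0, (.cons 210 211 (.exit 0) (.cons 210 211 (.cons 211 232 (.cons 268 250 (.cons 270 250 (.cons 294 253 .nil .nil) (.cons 294 253 (.cons 270 250 .nil .nil) .nil)) (.cons 268 250 (.cons 270 250 (.cons 294 253 .nil .nil) (.cons 294 253 (.cons 270 250 .nil .nil) .nil)) (.cons 294 253 (.cons 268 250 (.cons 270 250 .nil .nil) (.cons 268 250 (.cons 270 250 .nil .nil) .nil)) .nil))) (.cons 268 250 (.cons 211 232 (.cons 270 250 (.cons 294 253 .nil .nil) (.cons 294 253 (.cons 270 250 .nil .nil) .nil)) (.cons 270 250 (.cons 229 189 .nil .nil) .nil)) (.cons 268 250 (.cons 229 189 (.cons 270 250 .nil .nil) (.cons 270 250 (.cons 229 189 .nil .nil) .nil))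 .nil))) (.cons 190 229 (.cons 229 188 .nil .nil) .nil))), [17], []⟩,
   ⟨16, 1, 24, 42, 0, (.cons 210 211 (.exit 0) (.cons 210 211 (.cons 211 232 (.cons 268 250 (.cons 270 250 (.cons 294 253 .nil .nil) (.cons 294 253 (.cons 270 250 .nil .nil) .nil)) (.cons 268 250 (.cons 270 250 (.cons 294 253 .nil .nil) (.cons 294 253 (.cons 270 250 .nil .nil) .nil)) (.cons 294 253 (.cons 268 250 (.cons 270 250 .nil .nil) (.cons 268 250 (.cons 270 250 .nil .nil) .nil)) .nil))) (.cons 268 250 (.cons 211 232 (.cons 270 250 (.cons 294 253 .nil .nil) (.cons 294 253 (.cons 270 250 .nil .nil) .nil)) (.cons 270 250 (.cons 229 189 .nil .nil) .nil)) (.cons 268 250 (.cons 229 189 (.cons 270 250 .nil .nil) (.cons 270 250 (.cons 229 189 .nil .nil) .nil)) .nil))) (.cons 190 229 (.cons 229 188 .nil .nil) .nil))), [17], []⟩,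
   ⟨17, 0, 25, 42, 0, (.cons 210 231 (.exit 0) (.cons 210 231 (.cons 293 252 .nil .nil) .nil)), [18], []⟩,
   ⟨17, 1, 25, 42, 0, (.cons 210 231 (.exit 0) (.cons 210 231 (.cons 293 252 .nil .nil) .nil)), [18], []⟩,
   ⟨18, 0, 26, 43, 0, (.cons 210 230 (.exit 0) (.cons 210 230 (.cons 230 251 (.cons 313 272 (.cons 314 311 .nil .nil) (.cons 272 311 .nil .nil)) (.cons 230 251 (.cons 313 272 .nil .nil) (.cons 230 251 (.cons 313 272 .nil .nil) .nil))) .nil)), [19], []⟩,
   ⟨18, 1, 26, 43, 0, (.cons 210 230 (.exit 0) (.cons 210 230 (.cons 230 251 (.cons 313 272 (.cons 314 311 .nil .nil) (.cons 272 311 .nil .nil)) (.cons 230 251 (.cons 313 272 .nil .nil) (.cons 230 251 (.cons 313 272 .nil .nil) .nil))) .nil)), [19], []⟩,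
   ⟨19, 0, 26, 44, 0, (.cons 210 231 (.exit 0) (.cons 187 188 .nil .nil)), [20], []⟩,
   ⟨19, 1, 26, 44, 0, (.cons 210 231 (.exit 0) (.cons 187 188 .nil .nil)), [20], []⟩,
   ⟨20, 0, 27, 45, 0, (.cons 210 230 (.exit 0) (.cons 167 188 (.cons 272 231 .nil .nil) (.cons 210 230 (.cons 230 251 (.cons 273 272 .nil .nil) (.cons 230 251 (.cons 273 272 .nil .nil) .nil)) .nil))), [21], []⟩,
   ⟨20, 1, 27, 45, 0, (.cons 210 230 (.exit 0) (.cons 167 188 (.cons 272 231 .nil .nil) (.cons 210 230 (.cons 230 251 (.cons 273 272 .nil .nil) (.cons 230 251 (.cons 273 272 .nil .nil) .nil)) .nil))), [21], []⟩,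
   ⟨21, 0, 27, 46, 0, (.cons 210 231 (.exit 0) (.cons 210 231 (.cons 211 252 .nil .nil) .nil)), [22], []⟩]

/-- pairs -/
def kT20 : List Mo := keysWU gT20 kT19

/-- items -/
def gT21 : List WU :=
  [⟨6, 1, 14, 41, 0, (.cons 210 211 (.exit 0) (.cons 229 228 .nil .nil)), [7], []⟩,
   ⟨7, 0, 15, 41, 0, (.cons 210 191 (.exit 0) (.cons 210 191 .nil (.cons 248 228 (.cons 210 191 .nil .nil) .nil))), [8], []⟩,
   ⟨7, 1, 15, 41, 0, (.cons 210 191 (.exit 0) (.cons 210 191 .nil (.cons 248 228 (.cons 210 191 .nil .nil) .nil))), [8], []⟩,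
   ⟨8, 0, 16, 40, 0, (.cons 210 211 (.exit 0) .nil), [9], []⟩,
   ⟨8, 1, 16, 40, 0, (.cons 210 211 (.exit 0) .nil), [9], []⟩,
   ⟨9, 0, 17, 40, 0, (.cons 210 231 (.exit 0) (.cons 250 249 (.cons 210 231 .nil .nil) .nil)), [10], []⟩,
   ⟨9, 1, 17, 40, 0, (.cons 210 231 (.exit 0) (.cons 250 249 (.cons 210 231 .nil .nil) .nil)), [10], []⟩,
   ⟨10, 0, 18, 41, 0, (.cons 210 211 (.exit 0) (.cons 229 228 .nil .nil)), [11], []⟩,
   ⟨10, 1, 18, 41, 0, (.cons 210 211 (.exit 0) (.cons 229 228 .nil .nil)), [11], []⟩,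
   ⟨11, 0, 19, 41, 0, (.cons 208 169 (.cons 210 191 .nil (.cons 210 191 .nil .nil)) (.cons 210 191 (.exit 0) (.cons 210 191 .nil (.cons 248 228 (.cons 208 169 .nil (.cons 210 191 .nil .nil)) .nil)))), [12], []⟩,
   ⟨11, 1, 19, 41, 0, (.cons 208 169 (.cons 210 191 .nil (.cons 210 191 .nil .nil)) (.cons 210 191 (.exit 0) (.cons 210 191 .nil (.cons 248 228 (.cons 208 169 .nil (.cons 210 191 .nil .nil)) .nil)))), [12], []⟩,
   ⟨12, 0, 20, 40, 0, (.cons 227 188 .nil (.cons 210 211 (.exit 0) .nil)), [13], []⟩,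
   ⟨12, 1, 20, 40, 0, (.cons 227 188 .nil (.cons 210 211 (.exit 0) .nil)), [13], []⟩,
   ⟨13, 0, 21, 40, 0, (.cons 229 188 (.cons 187 188 .nil (.cons 208 249 .nil .nil)) (.cons 210 231 (.cons 249 250 .nil .nil) (.cons 210 231 (.exit 0) (.cons 208 249 (.cons 229 188 .nil (.cons 188 228 .nil .nil)) .nil)))), [14], []⟩,
   ⟨13, 1, 21, 40, 0, (.cons 229 188 (.cons 187 188 .nil (.cons 208 249 .nil .nil)) (.cons 210 231 (.cons 249 250 .nil .nil) (.cons 210 231 (.exit 0) (.cons 208 249 (.cons 229 188 .nil (.cons 188 228 .nil .nil)) .nil)))), [14], []⟩,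
   ⟨14, 0, 22, 41, 0, (.cons 210 211 (.exit 0) (.cons 248 228 (.cons 228 229 .nil .nil) (.cons 210 211 (.cons 211 232 (.cons 212 253 .nil (.cons 212 251 .nil .nil)) .nil) .nil))), [15], []⟩,
   ⟨14, 1, 22, 41, 0, (.cons 210 211 (.exit 0) (.cons 248 228 (.cons 228 229 .nil .nil) (.cons 210 211 (.cons 211 232 (.cons 212 253 .nil (.cons 212 251 .nil .nil)) .nil) .nil))), [15], []⟩,
   ⟨15, 0, 23, 41, 0, (.cons 210 231 (.exit 0) (.cons 210 231 (.cons 211 252 .nil (.cons 211 250 .nil .nil)) (.cons 227 228 (.cons 210 231 (.cons 211 252 .nil (.cons 211 250 .nil .nil)) .nil) .nil))), [16], []⟩,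
   ⟨15, 1, 23, 41, 0, (.cons 210 231 (.exit 0) (.cons 210 231 (.cons 211 252 .nil (.cons 211 250 .nil .nil)) (.cons 227 228 (.cons 210 231 (.cons 211 252 .nil (.cons 211 250 .nil .nil)) .nil) .nil))), [16], []⟩]

/-- pairs -/
def kT21 : List Mo := keysWU gT21 kT20

/-- items -/
def gT22 : List WU :=
  [⟨0, 0, 8, 40, 0, (.cons 210 211 (.exit 0) .nil), [1], []⟩,
   ⟨0, 1, 8, 40, 0, (.cons 210 211 (.exit 0) .nil), [1], []⟩,
   ⟨1, 0, 9, 40, 0, (.cons 210 231 (.exit 0) (.cons 250 249 (.cons 210 231 .nil .nil) .nil)), [2], []⟩,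
   ⟨1, 1, 9, 40, 0, (.cons 210 231 (.exit 0) (.cons 250 249 (.cons 210 231 .nil .nil) .nil)), [2], []⟩,
   ⟨2, 0, 10, 41, 0, (.cons 210 211 (.exit 0) (.cons 229 228 .nil .nil)), [3], []⟩,
   ⟨2, 1, 10, 41, 0, (.cons 210 211 (.exit 0) (.cons 229 228 .nil .nil)), [3], []⟩,
   ⟨3, 0, 11, 41, 0, (.cons 210 191 (.exit 0) (.cons 210 191 .nil (.cons 248 228 (.cons 210 191 .nil .nil) .nil))), [4], []⟩,
   ⟨3, 1, 11, 41, 0, (.cons 210 191 (.exit 0) (.cons 210 191 .nil (.cons 248 228 (.cons 210 191 .nil .nil) .nil))), [4], []⟩,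
   ⟨4, 0, 12, 40, 0, (.cons 210 211 (.exit 0) .nil), [5], []⟩,
   ⟨4, 1, 12, 40, 0, (.cons 210 211 (.exit 0) .nil), [5], []⟩,
   ⟨5, 0, 13, 40, 0, (.cons 210 231 (.exit 0) (.cons 250 249 (.cons 210 231 .nil .nil) .nil)), [6], []⟩,
   ⟨5, 1, 13, 40, 0, (.cons 210 231 (.exit 0) (.cons 250 249 (.cons 210 231 .nil .nil) .nil)), [6], []⟩,
   ⟨6, 0, 14, 41, 0, (.cons 210 211 (.exit 0) (.cons 229 228 .nil .nil)), [7], []⟩]

/-- pairs -/
def kT22 : List Mo := keysWU gT22 kT21

/-- pairs -/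
def kL0a : List Mo := [⟨144, 1⟩]

/-- pairs -/
def kL0b : List Mo := []

/-- items -/
def gT23 : List WL :=
  [⟨119, 1, 19, 115, 0, 0, 292, 251, 251, 191, 120, 0, 0⟩,
   ⟨120, 1, 20, 114, 0, 0, 290, 249, 249, 190, 121, 0, 0⟩,
   ⟨121, 1, 20, 113, 0, 0, 290, 249, 249, 189, 122, 0, 0⟩,
   ⟨122, 1, 19, 112, 0, 0, 290, 251, 251, 190, 123, 0, 0⟩,
   ⟨123, 1, 19, 111, 0, 0, 290, 251, 251, 191, 124, 0, 0⟩,
   ⟨124, 1, 20, 110, 0, 0, 290, 249, 249, 190, 125, 0, 0⟩,
   ⟨125, 1, 20, 109, 0, 0, 290, 249, 249, 191, 126, 0, 0⟩,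
   ⟨126, 1, 21, 108, 0, 0, 288, 249, 249, 190, 127, 0, 0⟩,
   ⟨127, 1, 21, 107, 0, 0, 288, 249, 249, 191, 128, 0, 0⟩,
   ⟨128, 1, 22, 106, 0, 0, 288, 249, 249, 190, 129, 0, 0⟩,
   ⟨129, 1, 22, 105, 0, 0, 288, 249, 249, 189, 130, 0, 0⟩,
   ⟨130, 1, 21, 104, 0, 0, 290, 251, 251, 209, 131, 0, 0⟩,
   ⟨131, 1, 20, 104, 0, 0, 271, 232, 232, 229, 132, 0, 0⟩,
   ⟨132, 1, 19, 105, 0, 0, 233, 192, 192, 209, 133, 0, 0⟩,
   ⟨133, 1, 18, 105, 0, 0, 214, 192, 192, 189, 134, 0, 0⟩,
   ⟨134, 1, 17, 104, 0, 0, 214, 232, 232, 209, 135, 0, 0⟩,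
   ⟨135, 1, 16, 104, 0, 0, 214, 232, 232, 229, 136, 0, 0⟩,
   ⟨136, 1, 15, 105, 0, 0, 214, 192, 192, 209, 137, 0, 0⟩,
   ⟨137, 1, 14, 105, 0, 0, 214, 192, 192, 189, 138, 0, 0⟩,
   ⟨138, 1, 13, 104, 0, 0, 214, 232, 232, 209, 139, 0, 0⟩,
   ⟨139, 1, 12, 104, 0, 0, 214, 232, 232, 229, 140, 0, 0⟩,
   ⟨140, 1, 11, 105, 0, 0, 214, 192, 192, 209, 141, 0, 0⟩,
   ⟨141, 1, 10, 105, 0, 0, 214, 192, 192, 189, 142, 0, 0⟩,
   ⟨142, 1, 9, 104, 0, 0, 214, 232, 232, 209, 143, 0, 0⟩,
   ⟨143, 1, 8, 104, 0, 0, 214, 232, 232, 229, 144, 0, 0⟩]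

/-- pairs -/
def kT23 : List Mo := keysWL gT23 kL0a

/-- items -/
def gT24 : List WL :=
  [⟨98, 1, 35, 120, 0, 0, 130, 171, 171, 209, 99, 0, 0⟩,
   ⟨99, 1, 34, 120, 0, 0, 132, 171, 171, 229, 100, 0, 0⟩,
   ⟨100, 1, 33, 121, 0, 0, 153, 192, 192, 209, 101, 0, 0⟩,
   ⟨101, 1, 32, 121, 0, 0, 153, 171, 171, 229, 102, 0, 0⟩,
   ⟨102, 1, 31, 122, 0, 0, 174, 192, 192, 209, 103, 0, 0⟩,
   ⟨103, 1, 30, 122, 0, 0, 153, 192, 192, 229, 104, 0, 0⟩,
   ⟨104, 1, 29, 123, 0, 0, 174, 192, 192, 230, 105, 0, 0⟩,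
   ⟨105, 1, 29, 124, 0, 0, 153, 171, 171, 229, 106, 0, 0⟩,
   ⟨106, 1, 28, 125, 0, 0, 153, 171, 171, 209, 107, 0, 0⟩,
   ⟨107, 1, 27, 125, 0, 0, 153, 192, 192, 189, 108, 0, 0⟩,
   ⟨108, 1, 26, 124, 0, 0, 193, 232, 232, 209, 109, 0, 0⟩,
   ⟨109, 1, 25, 124, 0, 0, 214, 232, 232, 189, 110, 0, 0⟩,
   ⟨110, 1, 24, 123, 0, 0, 254, 232, 232, 209, 111, 0, 0⟩,
   ⟨111, 1, 23, 123, 0, 0, 254, 232, 232, 189, 112, 0, 0⟩,
   ⟨112, 1, 22, 122, 0, 0, 254, 232, 232, 190, 113, 0, 0⟩,
   ⟨113, 1, 22, 121, 0, 0, 273, 251, 251, 189, 114, 0, 0⟩,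
   ⟨114, 1, 21, 120, 0, 0, 273, 251, 251, 190, 115, 0, 0⟩,
   ⟨115, 1, 21, 119, 0, 0, 292, 251, 251, 189, 116, 0, 0⟩,
   ⟨116, 1, 20, 118, 0, 0, 292, 251, 251, 190, 117, 0, 0⟩,
   ⟨117, 1, 20, 117, 0, 0, 292, 251, 251, 189, 118, 0, 0⟩,
   ⟨118, 1, 19, 116, 0, 0, 292, 251, 251, 190, 119, 0, 0⟩]

/-- pairs -/
def kT24 : List Mo := keysWL gT24 kT23

/-- pairs -/
def kT25 : List Mo := ⟨3, 1⟩ :: kL0b

/-- items -/
def gT26 : List WL :=
  [⟨1, 1, 35, 118, 274, 0, 132, 171, 171, 231, 2, 0, 0⟩,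
   ⟨2, 1, 36, 119, 253, 0, 193, 232, 232, 229, 3, 0, 0⟩]

/-- pairs -/
def kT26 : List Mo := keysWL gT26 kT25

/-- the item of the discovered check -/
def uE : WL := ⟨0, 1, 35, 117, 294, 0, 273, 234, 0, 230, 1, 0, 0⟩

/-- pairs -/
def kT27 : List Mo := ⟨0, 1⟩ :: kT26

/-- pairs -/
def kT28 : List Mo := ⟨97, 1⟩ :: kT24

/-- items -/
def gT29 : List WL :=
  [⟨72, 1, 35, 97, 0, 0, 130, 169, 169, 230, 73, 0, 0⟩,
   ⟨73, 1, 35, 98, 0, 0, 130, 169, 169, 229, 74, 0, 0⟩,
   ⟨74, 1, 34, 99, 0, 0, 130, 171, 171, 230, 75, 0, 0⟩,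
   ⟨75, 1, 34, 100, 0, 0, 130, 171, 171, 229, 76, 0, 0⟩,
   ⟨76, 1, 33, 101, 0, 0, 132, 171, 171, 230, 77, 0, 0⟩,
   ⟨77, 1, 33, 102, 0, 0, 132, 171, 171, 229, 78, 0, 0⟩,
   ⟨78, 1, 32, 103, 0, 0, 132, 171, 171, 230, 79, 0, 0⟩,
   ⟨79, 1, 32, 104, 0, 0, 132, 171, 171, 229, 80, 0, 0⟩,
   ⟨80, 1, 31, 105, 0, 0, 132, 171, 171, 230, 81, 0, 0⟩,
   ⟨81, 1, 31, 106, 0, 0, 132, 171, 171, 229, 82, 0, 0⟩,
   ⟨82, 1, 30, 107, 0, 0, 132, 171, 171, 230, 83, 0, 0⟩,
   ⟨83, 1, 30, 108, 0, 0, 132, 171, 171, 229, 84, 0, 0⟩,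
   ⟨84, 1, 29, 109, 0, 0, 132, 171, 171, 230, 85, 0, 0⟩,
   ⟨85, 1, 29, 110, 0, 0, 132, 171, 171, 231, 86, 0, 0⟩,
   ⟨86, 1, 30, 111, 0, 0, 130, 169, 169, 211, 87, 0, 0⟩,
   ⟨87, 1, 31, 111, 0, 0, 149, 188, 188, 231, 88, 0, 0⟩,
   ⟨88, 1, 32, 112, 0, 0, 147, 188, 188, 230, 89, 0, 0⟩,
   ⟨89, 1, 32, 113, 0, 0, 147, 169, 169, 231, 90, 0, 0⟩,
   ⟨90, 1, 33, 114, 0, 0, 147, 169, 169, 211, 91, 0, 0⟩,
   ⟨91, 1, 34, 114, 0, 0, 147, 188, 188, 191, 92, 0, 0⟩,
   ⟨92, 1, 35, 113, 0, 0, 187, 228, 228, 211, 93, 0, 0⟩,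
   ⟨93, 1, 36, 113, 0, 0, 206, 228, 228, 231, 94, 0, 0⟩,
   ⟨94, 1, 37, 114, 0, 0, 206, 188, 188, 230, 95, 0, 0⟩,
   ⟨95, 1, 37, 115, 0, 0, 187, 228, 228, 229, 96, 0, 0⟩,
   ⟨96, 1, 36, 116, 0, 0, 149, 171, 171, 229, 97, 0, 0⟩]

/-- pairs -/
def kT29 : List Mo := keysWL gT29 kT28

/-- items -/
def gT30 : List WL :=
  [⟨47, 1, 34, 72, 0, 0, 130, 171, 171, 231, 48, 0, 0⟩,
   ⟨48, 1, 35, 73, 0, 0, 130, 169, 169, 230, 49, 0, 0⟩,
   ⟨49, 1, 35, 74, 0, 0, 130, 169, 169, 229, 50, 0, 0⟩,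
   ⟨50, 1, 34, 75, 0, 0, 130, 171, 171, 230, 51, 0, 0⟩,
   ⟨51, 1, 34, 76, 0, 0, 130, 171, 171, 231, 52, 0, 0⟩,
   ⟨52, 1, 35, 77, 0, 0, 130, 169, 169, 230, 53, 0, 0⟩,
   ⟨53, 1, 35, 78, 0, 0, 130, 169, 169, 229, 54, 0, 0⟩,
   ⟨54, 1, 34, 79, 0, 0, 130, 171, 171, 230, 55, 0, 0⟩,
   ⟨55, 1, 34, 80, 0, 0, 130, 171, 171, 231, 56, 0, 0⟩,
   ⟨56, 1, 35, 81, 0, 0, 130, 169, 169, 230, 57, 0, 0⟩,
   ⟨57, 1, 35, 82, 0, 0, 130, 169, 169, 229, 58, 0, 0⟩,
   ⟨58, 1, 34, 83, 0, 0, 130, 171, 171, 230, 59, 0, 0⟩,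
   ⟨59, 1, 34, 84, 0, 0, 130, 171, 171, 231, 60, 0, 0⟩,
   ⟨60, 1, 35, 85, 0, 0, 130, 169, 169, 230, 61, 0, 0⟩,
   ⟨61, 1, 35, 86, 0, 0, 130, 169, 169, 229, 62, 0, 0⟩,
   ⟨62, 1, 34, 87, 0, 0, 130, 171, 171, 230, 63, 0, 0⟩,
   ⟨63, 1, 34, 88, 0, 0, 130, 171, 171, 231, 64, 0, 0⟩,
   ⟨64, 1, 35, 89, 0, 0, 130, 169, 169, 230, 65, 0, 0⟩,
   ⟨65, 1, 35, 90, 0, 0, 130, 169, 169, 229, 66, 0, 0⟩,
   ⟨66, 1, 34, 91, 0, 0, 130, 171, 171, 230, 67, 0, 0⟩,
   ⟨67, 1, 34, 92, 0, 0, 130, 171, 171, 231, 68, 0, 0⟩,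
   ⟨68, 1, 35, 93, 0, 0, 130, 169, 169, 230, 69, 0, 0⟩,
   ⟨69, 1, 35, 94, 0, 0, 130, 169, 169, 229, 70, 0, 0⟩,
   ⟨70, 1, 34, 95, 0, 0, 130, 171, 171, 230, 71, 0, 0⟩,
   ⟨71, 1, 34, 96, 0, 0, 130, 171, 171, 231, 72, 0, 0⟩]

/-- pairs -/
def kT30 : List Mo := keysWL gT30 kT29

/-- items -/
def gT31 : List WL :=
  [⟨22, 1, 28, 47, 0, 0, 128, 169, 169, 230, 23, 0, 0⟩,
   ⟨23, 1, 28, 48, 0, 0, 128, 169, 169, 231, 24, 0, 0⟩,
   ⟨24, 1, 29, 49, 0, 0, 128, 169, 169, 230, 25, 0, 0⟩,
   ⟨25, 1, 29, 50, 0, 0, 128, 169, 169, 231, 26, 0, 0⟩,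
   ⟨26, 1, 30, 51, 0, 0, 128, 169, 169, 230, 27, 0, 0⟩,
   ⟨27, 1, 30, 52, 0, 0, 128, 169, 169, 231, 28, 0, 0⟩,
   ⟨28, 1, 31, 53, 0, 0, 128, 169, 169, 230, 29, 0, 0⟩,
   ⟨29, 1, 31, 54, 0, 0, 128, 169, 169, 231, 30, 0, 0⟩,
   ⟨30, 1, 32, 55, 0, 0, 128, 169, 169, 230, 31, 0, 0⟩,
   ⟨31, 1, 32, 56, 0, 0, 128, 169, 169, 231, 32, 0, 0⟩,
   ⟨32, 1, 33, 57, 0, 0, 128, 169, 169, 230, 33, 0, 0⟩,
   ⟨33, 1, 33, 58, 0, 0, 128, 169, 169, 231, 34, 0, 0⟩,
   ⟨34, 1, 34, 59, 0, 0, 128, 169, 169, 230, 35, 0, 0⟩,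
   ⟨35, 1, 34, 60, 0, 0, 128, 169, 169, 231, 36, 0, 0⟩,
   ⟨36, 1, 35, 61, 0, 0, 128, 169, 169, 230, 37, 0, 0⟩,
   ⟨37, 1, 35, 62, 0, 0, 128, 169, 169, 229, 38, 0, 0⟩,
   ⟨38, 1, 34, 63, 0, 0, 130, 171, 171, 230, 39, 0, 0⟩,
   ⟨39, 1, 34, 64, 0, 0, 130, 171, 171, 231, 40, 0, 0⟩,
   ⟨40, 1, 35, 65, 0, 0, 130, 169, 169, 230, 41, 0, 0⟩,
   ⟨41, 1, 35, 66, 0, 0, 130, 169, 169, 229, 42, 0, 0⟩,
   ⟨42, 1, 34, 67, 0, 0, 130, 171, 171, 230, 43, 0, 0⟩,
   ⟨43, 1, 34, 68, 0, 0, 130, 171, 171, 231, 44, 0, 0⟩,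
   ⟨44, 1, 35, 69, 0, 0, 130, 169, 169, 230, 45, 0, 0⟩,
   ⟨45, 1, 35, 70, 0, 0, 130, 169, 169, 229, 46, 0, 0⟩,
   ⟨46, 1, 34, 71, 0, 0, 130, 171, 171, 230, 47, 0, 0⟩]

/-- pairs -/
def kT31 : List Mo := keysWL gT31 kT30

/-- items -/
def gT32 : List WL :=
  [⟨1, 1, 9, 40, 0, 0, 206, 228, 228, 231, 2, 0, 0⟩,
   ⟨2, 1, 10, 41, 0, 0, 206, 188, 188, 211, 3, 0, 0⟩,
   ⟨3, 1, 11, 41, 0, 0, 206, 188, 188, 191, 4, 0, 0⟩,
   ⟨4, 1, 12, 40, 0, 0, 206, 228, 228, 211, 5, 0, 0⟩,
   ⟨5, 1, 13, 40, 0, 0, 206, 228, 228, 231, 6, 0, 0⟩,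
   ⟨6, 1, 14, 41, 0, 0, 206, 188, 188, 211, 7, 0, 0⟩,
   ⟨7, 1, 15, 41, 0, 0, 206, 188, 188, 191, 8, 0, 0⟩,
   ⟨8, 1, 16, 40, 0, 0, 206, 228, 228, 211, 9, 0, 0⟩,
   ⟨9, 1, 17, 40, 0, 0, 206, 228, 228, 231, 10, 0, 0⟩,
   ⟨10, 1, 18, 41, 0, 0, 206, 188, 188, 211, 11, 0, 0⟩,
   ⟨11, 1, 19, 41, 0, 0, 206, 188, 188, 191, 12, 0, 0⟩,
   ⟨12, 1, 20, 40, 0, 0, 206, 228, 228, 211, 13, 0, 0⟩,
   ⟨13, 1, 21, 40, 0, 0, 206, 228, 228, 231, 14, 0, 0⟩,
   ⟨14, 1, 22, 41, 0, 0, 206, 188, 188, 211, 15, 0, 0⟩,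
   ⟨15, 1, 23, 41, 0, 0, 206, 188, 188, 231, 16, 0, 0⟩,
   ⟨16, 1, 24, 42, 0, 0, 166, 188, 188, 211, 17, 0, 0⟩,
   ⟨17, 1, 25, 42, 0, 0, 166, 188, 188, 231, 18, 0, 0⟩,
   ⟨18, 1, 26, 43, 0, 0, 166, 188, 188, 230, 19, 0, 0⟩,
   ⟨19, 1, 26, 44, 0, 0, 147, 169, 169, 231, 20, 0, 0⟩,
   ⟨20, 1, 27, 45, 0, 0, 147, 169, 169, 230, 21, 0, 0⟩,
   ⟨21, 1, 27, 46, 0, 0, 128, 169, 169, 231, 22, 0, 0⟩]

/-- pairs -/
def kT32 : List Mo := keysWL gT32 kT31

/-- the first item of the lower bound -/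
def uTB : WL := ⟨0, 1, 8, 40, 0, 0, 206, 228, 228, 211, 1, 0, 0⟩

end Pool.Agent.Lib.H32C.Loc
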