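import Pool.Agent.Lib.H32C.TbA
import Pool.Agent.Lib.H32C.TdTB0
import Pool.Agent.Lib.H32C.TdTB1

/-!
# Tile data: T_b, checks, part 1
-/

set_option autoImplicit false

namespace Pool.Agent.Lib.H32C.Loc

theorem oT7 : grpKU 144 ATBq 63 11 STBp kT6 gT7 = true := by decide +kernel

theorem wT7 : wpB 9719 gT7 = true := by decide +kernel

theorem oT21 : grpKU 144 ATB 63 11 STB kT20 gT21 = true := by decide +kernel

theorem wT21 : allb (fun u => Nat.beq u.e 0) gT21 = true := by decide +kernel

theorem oT15 : grpKU 144 ATB 63 11 STB kT14 gT15 = true := by decide +kernel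

theorem wT15 : allb (fun u => Nat.beq u.e 0) gT15 = true := by decide +kernel

theorem oT6 : grpKU 144 ATBq 63 11 STBp kT5 gT6 = true := by decide +kernel

theorem wT6 : wpB 9719 gT6 = true := by decide +kernel

theorem oV2 : wvOk 144 ATBr 9719 STBp uV2 = true := by decide +kernel

theorem oT24 : grpKL 144 ATB 63 11 9719 STB kT23 gT24 = true := by decide +kernel

theorem wT24 : allb (fun u => Nat.beq u.e 0) gT24 = true := by decide +kernel

theorem oE : weOk 144 ATBq 9719 STBp kT26 uE = true := by decide +kernel

end Pool.Agent.Lib.H32C.Loc
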