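import Pool.Agent.Lib.H32C.TbA
import Pool.Agent.Lib.H32C.TdTB0
import Pool.Agent.Lib.H32C.TdTB1

/-!
# Tile data: T_b, checks, part 2
-/

set_option autoImplicit false

namespace Pool.Agent.Lib.H32C.Loc

theorem oT2 : grpKU 144 ATB 63 11 STB kT1 gT2 = true := by decide +kernel

theorem wT2 : allb (fun u => Nat.beq u.e 0) gT2 = true := by decide +kernel

theorem oT3 : grpKU 144 ATB 63 11 STB kT2 gT3 = true := by decide +kernel

theorem wT3 : allb (fun u => Nat.beq u.e 0) gT3 = true := by decide +kernel

theorem oT11 : grpKU 144 ATB 63 11 STB kT10 gT11 = true := by decide +kernel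

theorem wT11 : allb (fun u => Nat.beq u.e 0) gT11 = true := by decide +kernel

theorem oT17 : grpKU 144 ATB 63 11 STB kT16 gT17 = true := by decide +kernel

theorem wT17 : allb (fun u => Nat.beq u.e 0) gT17 = true := by decide +kernel

theorem oV1 : wvOk 144 ATBr 9719 STBp uV1 = true := by decide +kernel

theorem oT4 : grpKU 144 ATB 63 11 STB kT3 gT4 = true := by decide +kernel

theorem wT4 : allb (fun u => Nat.beq u.e 0) gT4 = true := by decide +kernel

theorem oT31 : grpKL 144 ATB 63 11 9719 STB kT30 gT31 = true := by decide +kernel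

theorem wT31 : allb (fun u => Nat.beq u.e 0) gT31 = true := by decide +kernel

theorem hATBr : arSe ATBp 9719 3 = ATBr := by decide +kernel

end Pool.Agent.Lib.H32C.Loc
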