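import Pool.Agent.Lib.H32C.FarEv
import Pool.Agent.Lib.H32C.TdTB0
import Pool.Agent.Lib.H32C.TdTB1

/-!
# Tile data: T_b, checks, part 3
-/

set_option autoImplicit false

namespace Pool.Agent.Lib.H32C.Loc

theorem oT12 : grpKU 144 ATB 63 11 STB kT11 gT12 = true := by decide +kernel

theorem wT12 : allb (fun u => Nat.beq u.e 0) gT12 = true := by decide +kernel

theorem oT18 : grpKU 144 ATB 63 11 STB kT17 gT18 = true := by decide +kernel

theorem wT18 : allb (fun u => Nat.beq u.e 0) gT18 = true := by decide +kernel

theorem oT19 : grpKU 144 ATB 63 11 STB kT18 gT19 = true := by decide +kernel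

theorem wT19 : allb (fun u => Nat.beq u.e 0) gT19 = true := by decide +kernel

theorem oT1 : grpKU 144 ATB 63 11 STB kU0a gT1 = true := by decide +kernel

theorem wT1 : allb (fun u => Nat.beq u.e 0) gT1 = true := by decide +kernel

theorem oT22 : grpKU 144 ATB 63 11 STB kT21 gT22 = true := by decide +kernel

theorem wT22 : allb (fun u => Nat.beq u.e 0) gT22 = true := by decide +kernel

theorem oT23 : grpKL 144 ATB 63 11 9719 STB kL0a gT23 = true := by decide +kernel

theorem wT23 : allb (fun u => Nat.beq u.e 0) gT23 = true := by decide +kernel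

theorem oT29 : grpKL 144 ATB 63 11 9719 STB kT28 gT29 = true := by decide +kernel

theorem wT29 : allb (fun u => Nat.beq u.e 0) gT29 = true := by decide +kernel

theorem oT30 : grpKL 144 ATB 63 11 9719 STB kT29 gT30 = true := by decide +kernel

theorem wT30 : allb (fun u => Nat.beq u.e 0) gT30 = true := by decide +kernel

theorem oT32 : grpKL 144 ATB 63 11 9719 STB kT31 gT32 = true := by decide +kernel

theorem wT32 : allb (fun u => Nat.beq u.e 0) gT32 = true := by decide +kernel

end Pool.Agent.Lib.H32C.Loc
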