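import Pool.Agent.Lib.H32C.TbA
import Pool.Agent.Lib.H32C.TdTB0
import Pool.Agent.Lib.H32C.TdTB1

/-!
# Tile data: T_b, checks, part 4
-/

set_option autoImplicit false

namespace Pool.Agent.Lib.H32C.Loc

theorem oT13 : grpKU 144 ATB 63 11 STB kT12 gT13 = true := by decide +kernel

theorem wT13 : allb (fun u => Nat.beq u.e 0) gT13 = true := by decide +kernel

theorem oT20 : grpKU 144 ATB 63 11 STB kT19 gT20 = true := by decide +kernel

theorem wT20 : allb (fun u => Nat.beq u.e 0) gT20 = true := by decide +kernel

theorem oT14 : grpKU 144 ATB 63 11 STB kT13 gT14 = true := by decide +kernel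

theorem wT14 : allb (fun u => Nat.beq u.e 0) gT14 = true := by decide +kernel

theorem oT16 : grpKU 144 ATB 63 11 STB kT15 gT16 = true := by decide +kernel

theorem wT16 : allb (fun u => Nat.beq u.e 0) gT16 = true := by decide +kernel

theorem oV : wvOk 144 ATBr 9719 STBp uV = true := by decide +kernel

theorem oV3 : wvOk 144 ATBr 9719 STBp uV3 = true := by decide +kernel

theorem oT26 : grpKL 144 ATBq 63 11 9719 STBp kT25 gT26 = true := by decide +kernel

theorem wT26 : wpBL 9719 gT26 = true := by decide +kernel

end Pool.Agent.Lib.H32C.Loc
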