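import Pool.Agent.Lib.H32C.TbB
import Pool.Agent.Lib.H32C.TdTBh1
import Pool.Agent.Lib.H32C.TdTBh2
import Pool.Agent.Lib.H32C.TdTBh3
import Pool.Agent.Lib.H32C.TdTBh4

/-!
# Tile data: T_b, the certificate
-/

set_option autoImplicit false

namespace Pool.Agent.Lib.H32C.Loc

theorem cU0 : BU 144 ATB ATBp ATBq 9719 40 38 120 STB STBp 144 kU0a kU0b := .nil

theorem cT1 : BU 144 ATB ATBp ATBq 9719 40 38 120 STB STBp 144 kT1 kU0b := .A cU0 gT1 oT1 wT1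

theorem cT2 : BU 144 ATB ATBp ATBq 9719 40 38 120 STB STBp 144 kT2 kU0b := .A cT1 gT2 oT2 wT2

theorem cT3 : BU 144 ATB ATBp ATBq 9719 40 38 120 STB STBp 144 kT3 kU0b := .A cT2 gT3 oT3 wT3

theorem cT4 : BU 144 ATB ATBp ATBq 9719 40 38 120 STB STBp 144 kT4 kU0b := .A cT3 gT4 oT4 wT4

theorem cT5 : BU 144 ATB ATBp ATBq 9719 40 38 120 STB STBp 144 kT4 kT5 := .S cT4 98 3 1 (by decide +kernel) rfl

theorem cT6 : BU 144 ATB ATBp ATBq 9719 40 38 120 STB STBp 144 kT4 kT6 := .B cT5 gT6 oT6 wT6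

theorem cT7 : BU 144 ATB ATBp ATBq 9719 40 38 120 STB STBp 144 kT4 kT7 := .B cT6 gT7 oT7 wT7

theorem cT8 : BU 144 ATB ATBp ATBq 9719 40 38 120 STB STBp 144 kT8 kT7 := .T cT7 97 0 1 (by decide +kernel) rfl

theorem wsp : WSp 144 ATBr 9719 STBp uV.i 3 := .cons (.cons (.cons .nil uV1 rfl oV1) uV2 rfl oV2) uV3 rfl oV3

theorem cT9 : BU 144 ATB ATBp ATBq 9719 40 38 120 STB STBp 144 kT8 kT9 := .V cT8 3 (by decide) uV (by rw [hATBr]; exact oV) (by rw [hATBr]; exact wsp)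

theorem cT10 : BU 144 ATB ATBp ATBq 9719 40 38 120 STB STBp 144 kT10 kT9 := .T cT9 97 0 0 (by decide +kernel) rfl

theorem cT11 : BU 144 ATB ATBp ATBq 9719 40 38 120 STB STBp 144 kT11 kT9 := .A cT10 gT11 oT11 wT11

theorem cT12 : BU 144 ATB ATBp ATBq 9719 40 38 120 STB STBp 144 kT12 kT9 := .A cT11 gT12 oT12 wT12

theorem cT13 : BU 144 ATB ATBp ATBq 9719 40 38 120 STB STBp 144 kT13 kT9 := .A cT12 gT13 oT13 wT13

theorem cT14 : BU 144 ATB ATBp ATBq 9719 40 38 120 STB STBp 144 kT14 kT9 := .A cT13 gT14 oT14 wT14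

theorem cT15 : BU 144 ATB ATBp ATBq 9719 40 38 120 STB STBp 144 kT15 kT9 := .A cT14 gT15 oT15 wT15

theorem cT16 : BU 144 ATB ATBp ATBq 9719 40 38 120 STB STBp 144 kT16 kT9 := .A cT15 gT16 oT16 wT16

theorem cT17 : BU 144 ATB ATBp ATBq 9719 40 38 120 STB STBp 144 kT17 kT9 := .A cT16 gT17 oT17 wT17

theorem cT18 : BU 144 ATB ATBp ATBq 9719 40 38 120 STB STBp 144 kT18 kT9 := .A cT17 gT18 oT18 wT18

theorem cT19 : BU 144 ATB ATBp ATBq 9719 40 38 120 STB STBp 144 kT19 kT9 := .A cT18 gT19 oT19 wT19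

theorem cT20 : BU 144 ATB ATBp ATBq 9719 40 38 120 STB STBp 144 kT20 kT9 := .A cT19 gT20 oT20 wT20

theorem cT21 : BU 144 ATB ATBp ATBq 9719 40 38 120 STB STBp 144 kT21 kT9 := .A cT20 gT21 oT21 wT21

theorem cT22 : BU 144 ATB ATBp ATBq 9719 40 38 120 STB STBp 144 kT22 kT9 := .A cT21 gT22 oT22 wT22

theorem cL0 : BL 144 ATB ATBp ATBq 9719 38 120 STB STBp 144 kL0a kL0b := .nil

theorem cT23 : BL 144 ATB ATBp ATBq 9719 38 120 STB STBp 144 kT23 kL0b := .A cL0 gT23 oT23 wT23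

theorem cT24 : BL 144 ATB ATBp ATBq 9719 38 120 STB STBp 144 kT24 kL0b := .A cT23 gT24 oT24 wT24

theorem cT25 : BL 144 ATB ATBp ATBq 9719 38 120 STB STBp 144 kT24 kT25 := .S cT24 98 3 (by decide +kernel) rfl

theorem cT26 : BL 144 ATB ATBp ATBq 9719 38 120 STB STBp 144 kT24 kT26 := .B cT25 gT26 oT26 wT26

theorem cT27 : BL 144 ATB ATBp ATBq 9719 38 120 STB STBp 144 kT24 kT27 := .E cT26 uE oE

theorem cT28 : BL 144 ATB ATBp ATBq 9719 38 120 STB STBp 144 kT28 kT27 := .T cT27 97 0 (by decide +kernel) rfl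

theorem cT29 : BL 144 ATB ATBp ATBq 9719 38 120 STB STBp 144 kT29 kT27 := .A cT28 gT29 oT29 wT29

theorem cT30 : BL 144 ATB ATBp ATBq 9719 38 120 STB STBp 144 kT30 kT27 := .A cT29 gT30 oT30 wT30

theorem cT31 : BL 144 ATB ATBp ATBq 9719 38 120 STB STBp 144 kT31 kT27 := .A cT30 gT31 oT31 wT31

theorem cT32 : BL 144 ATB ATBp ATBq 9719 38 120 STB STBp 144 kT32 kT27 := .A cT31 gT32 oT32 wT32

/-- **The certificate of the tile `T_b`.** -/
theorem TB_cert : TbD 144 ATB ATBp ATBq (39 + 80 * 121) 40 STB STBp 0 144 :=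
  ⟨by decide +kernel, by decide +kernel,
    ⟨⟨kT22, kT9, cT22, by decide +kernel, by decide +kernel⟩,
      ⟨kT32, kT27, cT32, uTB, rfl, rfl, rfl, rfl, by decide +kernel⟩⟩⟩

end Pool.Agent.Lib.H32C.Loc
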