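import Pool.Agent.Lib.H32C.DatH
import Pool.Agent.Lib.H32C.DatI
import Pool.Agent.Lib.H32C.TdTB

/-!
# The omega one of chess: the final assembly
-/

set_option autoImplicit false

namespace Pool.Agent.Lib.H32C.Ly

open Loc

theorem STB_y : nthP STB 144 = shp 0 64 (Loc.ext Dir.L) := by
  rw [STB_y0]
  rfl

/-- **The omega one of chess is the Church-Kleene ordinal.** -/
theorem omega_final : omegaOneChess = omegaOneCK :=
  omega_of_tb AD_pB AD_wB AD_bpB AD_opB AD_tpB TB_cert STB_x STB_y

end Pool.Agent.Lib.H32C.Ly
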