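import Mathlib

/-!
# Infinite chess: definitions

Boards, moves and ordinal game values of infinite chess on `ℤ × ℤ`; the omega one of chess and the
Church-Kleene ordinal.
-/

set_option autoImplicit false

namespace Pool.Agent.Lib.H32C

/-- the kinds of chess pieces -/
inductive Kind
  | king | queen | rook | bishop | knight | pawn
  deriving DecidableEq

/-- A square of the infinite board. -/
abbrev Sq := ℤ × ℤ

/-- A piece: its colour (`true` = White, `false` = Black) and its kind. -/
abbrev Man := Bool × Kind

/-- A board: every square is empty (`none`) or holds a piece. -/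
abbrev Board := Sq → Option Man

/-- the directions of rook moves -/
def orthDirs : List Sq := [(1, 0), (-1, 0), (0, 1), (0, -1)]

/-- the directions of bishop moves -/
def diagDirs : List Sq := [(1, 1), (1, -1), (-1, 1), (-1, -1)]

/-- the knight jumps -/
def knightJumps : List Sq :=
  [(1, 2), (2, 1), (2, -1), (1, -2), (-1, -2), (-2, -1), (-2, 1), (-1, 2)]

/-- the direction of the pawns: White pawns go up, Black pawns go down -/
def fwd (c : Bool) : ℤ := if c then 1 else -1

/-- `b` is reached from `a` by sliding along one of the directions `ds`, over empty squares. -/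
def Slides (B : Board) (ds : List Sq) (a b : Sq) : Prop :=
  ∃ d ∈ ds, ∃ n : ℕ, 0 < n ∧ b = a + n • d ∧ ∀ k : ℕ, 0 < k → k < n → B (a + k • d) = none

/-- A piece `m` standing on `a` attacks the square `b`. -/
def ManAttacks (B : Board) (m : Man) (a b : Sq) : Prop :=
  match m.2 with
  | Kind.king => b - a ∈ orthDirs ++ diagDirs
  | Kind.queen => Slides B (orthDirs ++ diagDirs) a b
  | Kind.rook => Slides B orthDirs a b
  | Kind.bishop => Slides B diagDirs a b
  | Kind.knight => b - a ∈ knightJumps
  | Kind.pawn => b - a = (1, fwd m.1) ∨ b - a = (-1, fwd m.1)

/-- The king of colour `c` is in check. -/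
def InCheck (B : Board) (c : Bool) : Prop :=
  ∃ s a : Sq, ∃ m : Man, B s = some (c, Kind.king) ∧ B a = some m ∧ m.1 = !c ∧ ManAttacks B m a s

/-- The board after the piece on `a` has moved to `b`. -/
def Board.move (B : Board) (a b : Sq) : Board :=
  fun s => if s = a then none else if s = b then B a else B s

/-- The piece `m` of colour `c` may go from `a` to `b` (without regard to checks): a pawn steps one
square forward to an empty square or captures diagonally, every other piece goes to a square which
it attacks; the square `b` is empty or holds a hostile piece other than the king. -/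
def CanGo (B : Board) (c : Bool) (a b : Sq) : Prop :=
  ∃ m : Man, B a = some m ∧ m.1 = c ∧
    ((B b = none ∧ (if m.2 = Kind.pawn then b - a = (0, fwd c) else ManAttacks B m a b)) ∨
      ((∃ t : Man, B b = some t ∧ t.1 = !c ∧ t.2 ≠ Kind.king) ∧ ManAttacks B m a b))

/-- A legal move of the side `c`. -/
def Legal (B : Board) (c : Bool) (a b : Sq) : Prop :=
  CanGo B c a b ∧ ¬ InCheck (B.move a b) c

/-- A position: a board and the side to move (`true` = White). -/
structure Pos where
  /-- the board -/
  board : Board
  /-- the side to move -/
  turn : Bool

/-- `q` arises from `p` by a legal move. -/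
def Pos.Move (p q : Pos) : Prop :=
  ∃ a b : Sq, Legal p.board p.turn a b ∧ q = ⟨p.board.move a b, !p.turn⟩

/-- Black is to move and is checkmated. -/
def Pos.Mate (p : Pos) : Prop :=
  p.turn = false ∧ InCheck p.board false ∧ ∀ q, ¬ p.Move q

/-- `ValLE p β` : the position `p` has a game value, and this value is at most `β`. -/
inductive ValLE : Pos → Ordinal.{0} → Prop
  /-- checkmate has value `0` -/
  | mate {p : Pos} {β : Ordinal.{0}} (h : p.Mate) : ValLE p β
  /-- White to move: the least value of a successor, plus one -/
  | white {p q : Pos} {α β : Ordinal.{0}} (ht : p.turn = true) (hm : p.Move q) (hq : ValLE q α)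
      (hab : α + 1 ≤ β) : ValLE p β
  /-- Black to move, not without moves: the supremum of the values of the successors -/
  | black {p : Pos} {β : Ordinal.{0}} (ht : p.turn = false) (hex : ∃ q, p.Move q)
      (h : ∀ q, p.Move q → ValLE q β) : ValLE p β

/-- The position has a value, that is, White has a winning strategy. -/
def HasValue (p : Pos) : Prop := ∃ β, ValLE p β

/-- The game value of a position (`0` if there is none). -/
noncomputable def val (p : Pos) : Ordinal.{0} := sInf {β | ValLE p β}

/-- A finite position: finitely many pieces, exactly one king of each colour, and the side which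
has just moved is not in check. -/
def FinitePos (p : Pos) : Prop :=
  {s | p.board s ≠ none}.Finite ∧ (∃! s, p.board s = some (true, Kind.king)) ∧
    (∃! s, p.board s = some (false, Kind.king)) ∧ ¬ InCheck p.board (!p.turn)

/-- The omega one of chess: the supremum of the values of the finite positions with a value. -/
noncomputable def omegaOneChess : Ordinal.{0} :=
  sSup {α | ∃ p, FinitePos p ∧ HasValue p ∧ val p = α}

/-- The Church-Kleene ordinal: the supremum of the order types of computable well orders of `ℕ`. -/
noncomputable def omegaOneCK : Ordinal.{0} :=
  sSup {α | ∃ (r : ℕ → ℕ → Prop) (_ : IsWellOrder ℕ r),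
    ComputablePred (fun x : ℕ × ℕ => r x.1 x.2) ∧ Ordinal.type r = α}

end Pool.Agent.Lib.H32C
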