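import Pool.Agent.Lib.H32C.Geo

/-!
# Far pieces of the chess machine

Three far Black queens `A`, `B`, `C` (the counters `1`, `2`, `0`) and one Black bishop move outside
of the hull.  This file contains the constants of the geometry, the services (corridors with one
special square each) and, for every service, the possible effects on the far pieces.
-/

set_option autoImplicit false

namespace Pool.Agent.Lib.H32C

/-- the three far queens -/
inductive Qn
  | A | B | C
  deriving DecidableEq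

/-- the services -/
inductive Svc
  | E | W | N | N1 | N2
  | H (q : Qn) | Z (q : Qn) | T (q : Qn)
  | Out | Bin | Tb
  deriving DecidableEq

/-- the squares of the far pieces -/
structure Far where
  /-- the queens -/
  q : Qn → Sq
  /-- the bishop -/
  b : Sq

/-- the constants of the geometry -/
structure FGeo where
  /-- row of the ray to the east -/
  e : ℤ
  /-- row of the ray to the west -/
  w : ℤ
  /-- file of the window square of the service `E` -/
  xE : ℤ
  /-- file of the window square of the service `W` -/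
  xW : ℤ
  /-- file of the window `N` -/
  xN : ℤ
  /-- file of the window `N1` -/
  x1 : ℤ
  /-- file of the window `N2` -/
  x2 : ℤ
  /-- the home files of the queens -/
  col : Qn → ℤ
  /-- the distance of the file of the zero window from the home file -/
  j : Qn → ℤ
  /-- the file of the bishop and the anchor -/
  xD : ℤ
  /-- the least value of `x + y` for the queen `C` at home -/
  X0 : ℤ
  /-- the row of the window square of the services of type north -/
  yw : Svc → ℤ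
  /-- all static pieces except the floating pawns are in rows `≤ T` -/
  T : ℤ
  /-- the length of the line of the service `Bin` -/
  m : ℕ

variable (G : FGeo)

/-- the least height of a queen at home -/
def FGeo.base (q : Qn) : ℤ :=
  match q with
  | Qn.A => G.X0 + 1 - G.col Qn.A
  | Qn.B => G.X0 + 3 - G.col Qn.B
  | Qn.C => G.X0 - G.col Qn.C

/-- the unit of the counters -/
def FGeo.unit (q : Qn) : ℤ :=
  match q with
  | Qn.A => 2 * (G.col Qn.A - G.xN)
  | Qn.B => 2 * (G.col Qn.B - G.xN)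
  | Qn.C => 2

/-- the square of the bishop at home -/
def FGeo.hb : Sq := (G.xD, G.X0 - 2 - G.xD)

/-- the square of the bishop after it has left by `t` steps -/
def FGeo.out (t : ℕ) : Sq := (G.xD + t, G.X0 - 2 - G.xD + t)

/-- the squares on the line of the service `Bin` -/
def FGeo.se (t : ℕ) : Sq := (G.xD + t, G.X0 - 2 - G.xD - t)

/-- the squares to the south west of the home of the bishop -/
def FGeo.sw (t : ℕ) : Sq := (G.xD - t, G.X0 - 2 - G.xD - t)

/-- the squares from which a slider checks the window square of a service -/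
def FGeo.ray (s : Svc) (t : Sq) : Prop :=
  match s with
  | Svc.E => t.2 = G.e ∧ G.xE < t.1
  | Svc.W => t.2 = G.w ∧ t.1 < G.xW
  | Svc.N => t.1 = G.xN ∧ G.yw Svc.N < t.2
  | Svc.N1 => t.1 = G.x1 ∧ G.yw Svc.N1 < t.2
  | Svc.N2 => t.1 = G.x2 ∧ G.yw Svc.N2 < t.2
  | Svc.H q => t.1 = G.col q ∧ G.yw (Svc.H q) < t.2
  | Svc.Z q => t.1 = G.col q - G.j q ∧ G.yw (Svc.Z q) < t.2 ∧ t.2 ≤ G.base q - G.j q
  | _ => False

/-- the line on which the ray of a service lies -/
def FGeo.axis (s : Svc) (c : Sq) : Prop :=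
  match s with
  | Svc.E => c.2 = G.e
  | Svc.W => c.2 = G.w
  | Svc.N => c.1 = G.xN
  | Svc.N1 => c.1 = G.x1
  | Svc.N2 => c.1 = G.x2
  | Svc.H q => c.1 = G.col q
  | Svc.Z q => c.1 = G.col q - G.j q
  | Svc.T q => c.1 = G.col q
  | _ => False

/-- the squares beyond the special square of a window or touch on its line -/
def FGeo.line (s : Svc) (c : Sq) : Prop :=
  match s with
  | Svc.E => c.2 = G.e ∧ G.xE < c.1
  | Svc.W => c.2 = G.w ∧ c.1 < G.xW
  | Svc.N => c.1 = G.xN ∧ G.yw Svc.N < c.2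
  | Svc.N1 => c.1 = G.x1 ∧ G.yw Svc.N1 < c.2
  | Svc.N2 => c.1 = G.x2 ∧ G.yw Svc.N2 < c.2
  | Svc.H q => c.1 = G.col q ∧ G.yw (Svc.H q) < c.2
  | Svc.Z q => c.1 = G.col q - G.j q ∧ G.yw (Svc.Z q) < c.2
  | Svc.T q => c.1 = G.col q ∧ G.yw (Svc.T q) < c.2
  | _ => False

/-- the floating pawns (Black) -/
def FGeo.floater (c : Sq) : Prop :=
  ∃ q, c = (G.col q - G.j q + 1, G.base q - G.j q) ∨
    c = (G.col q - G.j q + 1, G.base q - G.j q - 1) ∨
    c = (G.col q - G.j q - 1, G.base q - G.j q - 1) ∨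
    c = (G.col q - G.j q, G.base q - G.j q + 1)

/-- the least value of `y - x` on the lines in the west -/
def FGeo.c1 : ℤ := G.X0 - 2 * G.col Qn.C + 2

/-- squares which are free of static pieces -/
def FGeo.Zone (c : Sq) : Prop :=
  (G.e ≤ c.2 ∧ G.X0 ≤ c.1 + c.2) ∨ (G.w ≤ c.2 ∧ G.c1 ≤ c.2 - c.1) ∨
    ∃ q, c.1 < G.col q ∧ G.col q - G.j q < c.1 ∧ c.2 - c.1 = G.base q - G.col q

/-- squares far away from the hull -/
def FGeo.Outside (c : Sq) : Prop :=
  (G.e ≤ c.2 ∧ G.X0 ≤ c.1 + c.2) ∨ (G.w ≤ c.2 ∧ G.c1 ≤ c.2 - c.1) ∨ G.T + 3 ≤ c.2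

/-- the hypotheses on the constants -/
structure FGeo.Ok : Prop where
  hN1 : G.xN + 2 ≤ G.x1
  h1C : G.x1 + 2 ≤ G.col Qn.C - G.j Qn.C
  hjC : 3 ≤ G.j Qn.C
  hjA : 3 ≤ G.j Qn.A
  hjB : 3 ≤ G.j Qn.B
  h2 : G.x2 = G.col Qn.C + G.x1 - G.xN - 1
  h2A : G.x2 + 2 ≤ G.col Qn.A - G.j Qn.A
  hAB : G.col Qn.A + 2 ≤ G.col Qn.B - G.j Qn.B
  hBD : G.col Qn.B + 2 ≤ G.xD
  hBE : G.col Qn.B + 2 ≤ G.xE
  hWN : G.xW + 2 ≤ G.xN
  evA : (G.col Qn.A - G.xN) % 2 = 0
  evB : (G.col Qn.B - G.xN) % 2 = 0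
  he : ∀ s, G.e ≤ G.yw s
  hw : ∀ s, G.w ≤ G.yw s
  hy : ∀ s, G.yw s ≤ G.T
  hT : ∀ q, G.T + 4 ≤ G.base q - G.j q
  /-- the east window is to the left of the line `x + y = X0` -/
  hE0 : G.xE + G.e + 3 ≤ G.X0
  /-- the west window is to the right of the line `y - x = c1` -/
  hW0 : G.w - G.xW + 3 ≤ G.c1
  heD : G.e + 3 ≤ G.X0 - 2 - G.xD
  hTD : G.X0 - 2 - G.xD ≤ G.T

/-- the square is occupied by a floating pawn or by a far piece -/
def Occ (F : Far) (c : Sq) : Prop := G.floater c ∨ c = F.b ∨ ∃ r, c = F.q r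

/-- A queen of the far pieces `F` slides from its square `p` to the empty square `t`. -/
def FarU (F : Far) (p t : Sq) : Prop :=
  (OrthI p t ∨ DiagI p t) ∧ (∀ c, BetwI p t c → ¬ Occ G F c) ∧ ¬ Occ G F t

/-- The queen `q` of the far pieces `F` can certainly slide from its square to `t`. -/
def FarL (F : Far) (q : Qn) (t : Sq) : Prop :=
  (OrthI (F.q q) t ∨ DiagI (F.q q) t) ∧ (∀ c, BetwI (F.q q) t c → G.Zone c ∧ c ≠ F.b) ∧ t ≠ F.b ∧
    ∀ r, r ≠ q → t ≠ F.q r ∧ ∀ c, BetwI (F.q q) t c → c ≠ F.q r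

/-- replace the square of the queen `q` -/
def Far.set (F : Far) (q : Qn) (t : Sq) : Far := ⟨Function.update F.q q t, F.b⟩

/-- upper bound for the effects of a service (`U`: everything which Black may achieve) -/
def StepU (s : Svc) (F F' : Far) : Prop :=
  match s with
  | Svc.T q => F' = F ∧ ∃ r, (F.q r).1 = G.col q
  | Svc.Out => F'.q = F.q ∧ ((∃ t : ℕ, 0 < t ∧ F'.b = G.out t) ∨
      ∃ t : ℕ, 0 < t ∧ t ≤ G.m ∧ F'.b = G.se t)
  | Svc.Tb => F' = F ∧ ∃ t : ℕ, 0 < t ∧ F.b = G.out t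
  | Svc.Bin => F'.q = F.q ∧ F'.b = G.hb
  | s => ∃ q t, G.ray s t ∧ FarU G F (F.q q) t ∧ F' = F.set q t

/-- lower bound for the effects of a service (`L`: what Black can certainly achieve) -/
def StepL (s : Svc) (F F' : Far) : Prop :=
  match s with
  | Svc.T q => F' = F ∧ ∃ r, (F.q r).1 = G.col q
  | Svc.Out => F'.q = F.q ∧ ∃ t : ℕ, 0 < t ∧ F'.b = G.out t
  | Svc.Tb => F' = F ∧ ∃ t : ℕ, 0 < t ∧ F.b = G.out t
  | Svc.Bin => F'.q = F.q ∧ F'.b = G.hb
  | s => ∃ q t, G.ray s t ∧ G.Outside t ∧ FarL G F q t ∧ F' = F.set q t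

/-- the bishop is at home or on its ray -/
def BOk (F : Far) : Prop := F.b = G.hb ∨ ∃ t : ℕ, 0 < t ∧ F.b = G.out t

/-- the queen `q` is on its home file -/
def AtHome (F : Far) (q : Qn) : Prop := (F.q q).1 = G.col q ∧ G.base q ≤ (F.q q).2

/-- The far pieces for which a service is called (invariant for `StepU`). -/
def Inv (s : Svc) (F : Far) : Prop :=
  (∀ q r, q ≠ r → F.q q ≠ F.q r) ∧ (∀ q, F.q q ≠ F.b) ∧ (∀ q, G.Outside (F.q q)) ∧
  (∀ q, ¬ G.floater (F.q q)) ∧
  match s with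
  | Svc.T p => BOk G F ∧ ((AtHome G F p ∧ ∀ r, r ≠ p → (F.q r).1 ≠ G.col p) ∨
      ∀ r, (F.q r).1 ≠ G.col p)
  | Svc.Out => (∀ q, AtHome G F q) ∧ F.b = G.hb
  | Svc.Bin => (∀ q, AtHome G F q) ∧ ∃ t : ℕ, 0 < t ∧ F.b = G.out t
  | Svc.Tb => (∀ q, AtHome G F q) ∧ ((∃ t : ℕ, 0 < t ∧ F.b = G.out t) ∨
      ∃ t : ℕ, 0 < t ∧ t ≤ G.m ∧ F.b = G.se t)
  | s => BOk G F ∧ ∀ q, ¬ G.line s (F.q q)

/-- the modules of the control part -/
inductive Md (L : Type)
  | call (s : Svc) (n : L)
  | choice (a b : L)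
  | halt

/-- upper bound for a step of the control part -/
def MStepU {L : Type} (M : L → Md L) (a b : L × Far) : Prop :=
  match M a.1 with
  | Md.call s n => b.1 = n ∧ StepU G s a.2 b.2
  | Md.choice x y => b.2 = a.2 ∧ (b.1 = x ∨ b.1 = y)
  | Md.halt => False

/-- lower bound for a step of the control part -/
def MStepL {L : Type} (M : L → Md L) (a b : L × Far) : Prop :=
  match M a.1 with
  | Md.call s n => b.1 = n ∧ StepL G s a.2 b.2
  | Md.choice x y => b.2 = a.2 ∧ (b.1 = x ∨ b.1 = y)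
  | Md.halt => False

/-- the invariant of the control part -/
def MInv {L : Type} (M : L → Md L) (a : L × Far) : Prop :=
  match M a.1 with
  | Md.call s _ => Inv G s a.2
  | _ => (∀ q r, q ≠ r → a.2.q q ≠ a.2.q r) ∧ (∀ q, a.2.q q ≠ a.2.b) ∧
      (∀ q, G.Outside (a.2.q q)) ∧ (∀ q, ¬ G.floater (a.2.q q)) ∧ BOk G a.2

/-- White forces a position of the set `S` or wins. -/
inductive MWin {L : Type} (M : L → Md L) (S : L × Far → Prop) : L × Far → Prop
  | tgt {a : L × Far} (h : S a) : MWin M S a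
  | step {a : L × Far} (hi : MInv G M a) (h : ∀ b, MStepU G M a b → MWin M S b) : MWin M S a

/-- Black forces the position `b`. -/
inductive MForce {L : Type} (M : L → Md L) (b : L × Far) : L × Far → Prop
  | one {a : L × Far} (hi : MInv G M a) (h : MStepL G M a b) : MForce M b a
  | step {a c : L × Far} (hi : MInv G M a) (h : MStepL G M a c) (hc : MForce M b c) : MForce M b a

end Pool.Agent.Lib.H32C
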