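import Pool.Agent.Lib.H32C.Far

/-!
# Layouts: basic definitions
-/

set_option autoImplicit false

namespace Pool.Agent.Lib.H32C

/-- all targets of a module -/
def Md.tgt {L : Type} : Md L → L → Prop
  | Md.call _ n, l => l = n
  | Md.choice a b, l => l = a ∨ l = b
  | Md.halt, _ => False

/-- the part of the invariants which all modules have -/
def FBase (G : FGeo) (F : Far) : Prop :=
  (∀ q r, q ≠ r → F.q q ≠ F.q r) ∧ (∀ q, F.q q ≠ F.b) ∧ (∀ q, G.Outside (F.q q)) ∧
    (∀ q, ¬ G.floater (F.q q))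

/-- admissible far pieces when no service is called -/
def Adm (G : FGeo) (F : Far) : Prop :=
  (∀ q r, q ≠ r → F.q q ≠ F.q r) ∧ (∀ q, F.q q ≠ F.b) ∧ (∀ q, G.Outside (F.q q)) ∧
    (∀ q, ¬ G.floater (F.q q)) ∧ BOk G F

end Pool.Agent.Lib.H32C
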