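import Mathlib

/-!
# Three counter machines with an arbitrary choice

The counters are `c₀, c₁, c₂` (a triple of natural numbers).  `inc c j`: increment; `dec c j k`: if
the counter is positive decrement it and go to `j`, otherwise go to `k`; `choose j`: applicable if
`c₀ = 0`, puts an arbitrary number `n ≥ 1` into `c₀`; `halt`: no continuation.
-/

set_option autoImplicit false

namespace Pool.Agent.Lib.H32C

/-- the contents of the three counters -/
abbrev Store := ℕ × ℕ × ℕ

/-- instructions -/
inductive Instr (Q : Type)
  | inc (c : Fin 3) (j : Q)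
  | dec (c : Fin 3) (j k : Q)
  | choose (j : Q)
  | halt

/-- the contents of a counter -/
def Store.get (s : Store) (c : Fin 3) : ℕ :=
  match c with
  | 0 => s.1
  | 1 => s.2.1
  | 2 => s.2.2

/-- change of a counter -/
def Store.set (s : Store) (c : Fin 3) (n : ℕ) : Store :=
  match c with
  | 0 => (n, s.2.1, s.2.2)
  | 1 => (s.1, n, s.2.2)
  | 2 => (s.1, s.2.1, n)

/-- renaming of the labels -/
def Instr.map {X Y : Type} (f : X → Y) : Instr X → Instr Y
  | Instr.inc c j => Instr.inc c (f j)
  | Instr.dec c j k => Instr.dec c (f j) (f k)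
  | Instr.choose j => Instr.choose (f j)
  | Instr.halt => Instr.halt

theorem Instr.map_map {X Y Z : Type} (f : X → Y) (g : Y → Z) (i : Instr X) :
    (i.map f).map g = i.map (g ∘ f) := by cases i <;> rfl

/-- the effect of a deterministic instruction -/
def Instr.next {Q : Type} (i : Instr Q) (s : Store) : Option (Q × Store) :=
  match i with
  | Instr.inc c j => some (j, s.set c (s.get c + 1))
  | Instr.dec c j k => if s.get c = 0 then some (k, s) else some (j, s.set c (s.get c - 1))
  | Instr.choose _ => none
  | Instr.halt => none

/-- one step of the machine -/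
def Step {Q : Type} (P : Q → Instr Q) (a b : Q × Store) : Prop :=
  (P a.1).next a.2 = some b ∨
    ∃ j n, P a.1 = Instr.choose j ∧ a.2.1 = 0 ∧ 1 ≤ n ∧ b = (j, (n, a.2.2.1, a.2.2.2))

/-- deterministic run -/
def DReach {Q : Type} (P : Q → Instr Q) : Q × Store → Q × Store → Prop :=
  Relation.ReflTransGen (fun a b => (P a.1).next a.2 = some b)

theorem step_det {Q : Type} (P : Q → Instr Q) {a b c : Q × Store}
    (h : (P a.1).next a.2 = some b) : Step P a c ↔ c = b := by
  unfold Step
  constructor
  · rintro (h1 | ⟨j, n, h1, -⟩)
    · rw [h] at h1; exact (Option.some.inj h1).symm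
    · rw [h1] at h; exact absurd h (by simp [Instr.next])
  · rintro rfl; exact Or.inl h

theorem acc_of_dreach {Q : Type} (P : Q → Instr Q) {a b : Q × Store} (h : DReach P a b)
    (hb : Acc (fun y x => Step P x y) b) : Acc (fun y x => Step P x y) a := by
  induction h using Relation.ReflTransGen.head_induction_on with
  | refl => exact hb
  | head h1 _ ih =>
    refine Acc.intro _ fun y hy => ?_
    rw [step_det P h1] at hy
    rw [hy]; exact ih

/-- lower bound for the rank: `RankGE P β a` -/
inductive RankGE {Q : Type} (P : Q → Instr Q) : Ordinal.{0} → Q × Store → Prop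
  | mk {β : Ordinal.{0}} {a : Q × Store} (f : Ordinal.{0} → Q × Store)
      (hs : ∀ γ < β, Step P a (f γ)) (h : ∀ γ < β, RankGE P γ (f γ)) : RankGE P β a

theorem RankGE.intro {Q : Type} {P : Q → Instr Q} {β : Ordinal.{0}} {a : Q × Store}
    (h : ∀ γ < β, ∃ b, Step P a b ∧ RankGE P γ b) : RankGE P β a := by
  classical
  refine RankGE.mk (fun γ => if hγ : γ < β then (h γ hγ).choose else a) ?_ ?_
  · intro γ hγ
    rw [dif_pos hγ]
    exact (h γ hγ).choose_spec.1
  · intro γ hγ
    rw [dif_pos hγ]
    exact (h γ hγ).choose_spec.2

theorem RankGE.mono {Q : Type} {P : Q → Instr Q} {α β : Ordinal.{0}} {a : Q × Store}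
    (h : RankGE P β a) (hab : α ≤ β) : RankGE P α a := by
  cases h with
  | mk f hs h =>
    exact RankGE.mk f (fun γ hγ => hs γ (hγ.trans_le hab)) (fun γ hγ => h γ (hγ.trans_le hab))

theorem RankGE.of_dreach {Q : Type} {P : Q → Instr Q} {β : Ordinal.{0}} {a b : Q × Store}
    (h : DReach P a b) (hb : RankGE P β b) : RankGE P β a := by
  induction h using Relation.ReflTransGen.head_induction_on with
  | refl => exact hb
  | head h1 _ ih =>
    exact RankGE.intro fun γ hγ => ⟨_, (step_det P h1).2 rfl, ih.mono hγ.le⟩

/-! ### Fragments -/

/-- a program fragment with exits in `E` -/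
structure Frag (E : Type) where
  /-- the labels -/
  Q : Type
  /-- finitely many labels -/
  fin : Finite Q
  /-- the first label -/
  entry : Q
  /-- the instructions -/
  prog : Q → Instr (Q ⊕ E)

/-- The fragment runs from the store `s` to the exit `e` with the store `s'`, in every program in
which it is contained. -/
def Frag.Run {E : Type} (F : Frag E) (s : Store) (e : E) (s' : Store) : Prop :=
  ∀ (Q' : Type) (P' : Q' → Instr Q') (φ : F.Q ⊕ E → Q'),
    (∀ q, P' (φ (Sum.inl q)) = (F.prog q).map φ) →
      DReach P' (φ (Sum.inl F.entry), s) (φ (Sum.inr e), s')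

/-- increment -/
def incF (c : Fin 3) : Frag Unit where
  Q := Unit
  fin := inferInstance
  entry := ()
  prog _ := Instr.inc c (Sum.inr ())

theorem incF_run (c : Fin 3) (s : Store) : (incF c).Run s () (s.set c (s.get c + 1)) := by
  intro Q' P' φ h
  refine Relation.ReflTransGen.single ?_
  simp only
  rw [h]
  rfl

/-- decrement: exit `true` if the counter was positive -/
def decF (c : Fin 3) : Frag Bool where
  Q := Unit
  fin := inferInstance
  entry := ()
  prog _ := Instr.dec c (Sum.inr true) (Sum.inr false)

theorem decF_run_pos (c : Fin 3) (s : Store) (hs : s.get c ≠ 0) :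
    (decF c).Run s true (s.set c (s.get c - 1)) := by
  intro Q' P' φ h
  refine Relation.ReflTransGen.single ?_
  simp only
  rw [h]
  simp [decF, Instr.map, Instr.next, hs]

theorem decF_run_zero (c : Fin 3) (s : Store) (hs : s.get c = 0) : (decF c).Run s false s := by
  intro Q' P' φ h
  refine Relation.ReflTransGen.single ?_
  simp only
  rw [h]
  simp [decF, Instr.map, Instr.next, hs]

/-- renaming of exits -/
def Frag.map {E E' : Type} (F : Frag E) (g : E → E') : Frag E' where
  Q := F.Q
  fin := F.fin
  entry := F.entry
  prog q := (F.prog q).map (Sum.map id g)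

theorem Frag.map_run {E E' : Type} (F : Frag E) (g : E → E') {s s' : Store} {e : E}
    (h : F.Run s e s') : (F.map g).Run s (g e) s' := by
  intro Q' P' φ hφ
  have := h Q' P' (φ ∘ Sum.map id g) (fun q => by
    have := hφ q
    simp only [Frag.map, Instr.map_map] at this
    exact this)
  exact this

/-- sequential composition with branching -/
def Frag.bind {E E' : Type} [Finite E] (F : Frag E) (G : E → Frag E') : Frag E' where
  Q := F.Q ⊕ Σ e, (G e).Q
  fin := by
    have := F.fin
    have : ∀ e, Finite (G e).Q := fun e => (G e).fin
    infer_instance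
  entry := Sum.inl F.entry
  prog q := match q with
    | Sum.inl q => (F.prog q).map
        (Sum.elim (fun q => Sum.inl (Sum.inl q)) (fun e => Sum.inl (Sum.inr ⟨e, (G e).entry⟩)))
    | Sum.inr ⟨e, q⟩ => ((G e).prog q).map
        (Sum.elim (fun q => Sum.inl (Sum.inr ⟨e, q⟩)) (fun e' => Sum.inr e'))

theorem Frag.bind_run {E E' : Type} [Finite E] (F : Frag E) (G : E → Frag E') {s s' s'' : Store}
    {e : E} {e' : E'} (h : F.Run s e s') (h' : (G e).Run s' e' s'') :
    (F.bind G).Run s e' s'' := by
  intro Q' P' φ hφ
  have h1 := h Q' P' (φ ∘ (Sum.elim (fun q => Sum.inl (Sum.inl q))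
      (fun e => Sum.inl (Sum.inr ⟨e, (G e).entry⟩)))) (fun q => by
    have := hφ (Sum.inl q)
    simp only [Frag.bind, Instr.map_map] at this
    exact this)
  have h2 := h' Q' P' (φ ∘ (Sum.elim (fun q => Sum.inl (Sum.inr ⟨e, q⟩)) (fun e' => Sum.inr e')))
    (fun q => by
      have := hφ (Sum.inr ⟨e, q⟩)
      simp only [Frag.bind, Instr.map_map] at this
      exact this)
  exact Relation.ReflTransGen.trans h1 h2

/-- repetition: the exit `none` goes back to the entry -/
def Frag.loop {E : Type} (F : Frag (Option E)) : Frag E where
  Q := F.Q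
  fin := F.fin
  entry := F.entry
  prog q := (F.prog q).map (Sum.elim Sum.inl (fun o => match o with
    | none => Sum.inl F.entry
    | some e => Sum.inr e))

theorem Frag.loop_run_exit {E : Type} (F : Frag (Option E)) {s s' : Store} {e : E}
    (h : F.Run s (some e) s') : F.loop.Run s e s' := by
  intro Q' P' φ hφ
  exact h Q' P' (φ ∘ (Sum.elim Sum.inl (fun o => match o with
    | none => Sum.inl F.entry
    | some e => Sum.inr e))) (fun q => by
      have := hφ q
      simp only [Frag.loop, Instr.map_map] at this
      exact this)

theorem Frag.loop_run_again {E : Type} (F : Frag (Option E)) {s s' s'' : Store} {e : E}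
    (h : F.Run s none s') (h' : F.loop.Run s' e s'') : F.loop.Run s e s'' := by
  intro Q' P' φ hφ
  have h1 := h Q' P' (φ ∘ (Sum.elim Sum.inl (fun o => match o with
    | none => Sum.inl F.entry
    | some e => Sum.inr e))) (fun q => by
      have := hφ q
      simp only [Frag.loop, Instr.map_map] at this
      exact this)
  have h2 := h' Q' P' φ hφ
  exact Relation.ReflTransGen.trans h1 h2

/-- nothing: implemented by an increment and a decrement of `c₂` -/
def retF {E : Type} (e : E) : Frag E :=
  ((incF 2).bind fun _ => decF 2).map fun _ => e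

theorem retF_run {E : Type} (e : E) (s : Store) : (retF e).Run s e s := by
  have h := Frag.bind_run (incF 2) (fun _ => decF 2) (incF_run 2 s)
    (decF_run_pos 2 _ (by simp [Store.get, Store.set]))
  have h2 := Frag.map_run _ (fun _ : Bool => e) h
  simpa [retF, Store.get, Store.set] using h2

/-- several increments -/
def incsF (c : Fin 3) : ℕ → Frag Unit
  | 0 => retF ()
  | n + 1 => (incF c).bind fun _ => incsF c n

theorem incsF_run (c : Fin 3) (n : ℕ) (s : Store) :
    (incsF c n).Run s () (s.set c (s.get c + n)) := by
  induction n generalizing s with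
  | zero =>
    have : s.set c (s.get c + 0) = s := by
      fin_cases c <;> rfl
    rw [this]; exact retF_run () s
  | succ n ih =>
    have h := Frag.bind_run (incF c) (fun _ => incsF c n) (incF_run c s) (ih _)
    have h2 : (s.set c (s.get c + 1)).set c ((s.set c (s.get c + 1)).get c + n) =
        s.set c (s.get c + (n + 1)) := by
      fin_cases c <;> simp [Store.get, Store.set] <;> omega
    rw [h2] at h
    exact h

/-- `c₁` is decreased by `n`; if it is `i < n` it is set to `0` and the exit is `some i` -/
def decsF : (n : ℕ) → Frag (Option (Fin n))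
  | 0 => retF none
  | n + 1 => (decF 1).bind fun b => match b with
      | true => (decsF n).map (Option.map Fin.succ)
      | false => retF (some 0)

theorem decsF_run_none (n a b c : ℕ) : (decsF n).Run (a, b + n, c) none (a, b, c) := by
  induction n with
  | zero => exact retF_run _ _
  | succ n ih =>
    have h1 := decF_run_pos 1 (a, b + (n + 1), c) (by simp [Store.get])
    have h2 := Frag.map_run _ (Option.map Fin.succ) ih
    exact Frag.bind_run (decF 1) _ h1 h2

theorem decsF_run_some (n a c : ℕ) (i : Fin n) :
    (decsF n).Run (a, i, c) (some i) (a, 0, c) := by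
  induction n with
  | zero => exact i.elim0
  | succ n ih =>
    refine Fin.cases ?_ (fun i => ?_) i
    · exact Frag.bind_run (decF 1) _ (decF_run_zero 1 (a, 0, c) rfl) (retF_run _ _)
    · have h1 := decF_run_pos 1 (a, (i.succ : ℕ), c) (by simp [Store.get])
      have h2 := Frag.map_run _ (Option.map Fin.succ) (ih i)
      exact Frag.bind_run (decF 1) _ h1 h2

/-- `c₂ := c₂ + p * c₁`, `c₁ := 0` -/
def upF (p : ℕ) : Frag Unit :=
  Frag.loop ((decF 1).bind fun b => match b with
    | true => (incsF 2 p).map fun _ => none
    | false => retF (some ()))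

theorem upF_run (p a b c : ℕ) : (upF p).Run (a, b, c) () (a, 0, c + b * p) := by
  induction b generalizing c with
  | zero =>
    refine Frag.loop_run_exit _ ?_
    have := Frag.bind_run (decF 1) (fun b => match b with
      | true => (incsF 2 p).map fun _ => (none : Option Unit)
      | false => retF (some ())) (decF_run_zero 1 (a, 0, c) rfl) (retF_run _ _)
    simpa using this
  | succ b ih =>
    refine Frag.loop_run_again _ ?_ (?_ : (upF p).Run (a, b, c + p) () _)
    · have h1 := decF_run_pos 1 (a, b + 1, c) (by simp [Store.get])
      have h2 := Frag.map_run _ (fun _ => (none : Option Unit)) (incsF_run 2 p (a, b, c))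
      exact Frag.bind_run (decF 1) _ h1 h2
    · have := ih (c + p)
      have e : c + p + b * p = c + (b + 1) * p := by ring
      rw [e] at this
      exact this

/-- `c₁ := c₁ + p * c₂`, `c₂ := 0` -/
def downF (p : ℕ) : Frag Unit :=
  Frag.loop ((decF 2).bind fun b => match b with
    | true => (incsF 1 p).map fun _ => none
    | false => retF (some ()))

theorem downF_run (p a b c : ℕ) : (downF p).Run (a, b, c) () (a, b + c * p, 0) := by
  induction c generalizing b with
  | zero =>
    refine Frag.loop_run_exit _ ?_
    have := Frag.bind_run (decF 2) (fun b => match b with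
      | true => (incsF 1 p).map fun _ => (none : Option Unit)
      | false => retF (some ())) (decF_run_zero 2 (a, b, 0) rfl) (retF_run _ _)
    simpa using this
  | succ c ih =>
    refine Frag.loop_run_again _ ?_ (?_ : (downF p).Run (a, b + p, c) () _)
    · have h1 := decF_run_pos 2 (a, b, c + 1) (by simp [Store.get])
      have h2 := Frag.map_run _ (fun _ => (none : Option Unit)) (incsF_run 1 p (a, b, c))
      exact Frag.bind_run (decF 2) _ h1 h2
    · have := ih (b + p)
      have e : b + p + c * p = b + (c + 1) * p := by ring
      rw [e] at this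
      exact this

/-- multiplication of `c₁` by `p` -/
def mulF (p : ℕ) : Frag Unit := (upF p).bind fun _ => downF 1

theorem mulF_run (p a b : ℕ) : (mulF p).Run (a, b, 0) () (a, b * p, 0) := by
  have := Frag.bind_run (upF p) (fun _ => downF 1) (upF_run p a b 0) (downF_run 1 a 0 _)
  have e : 0 + (0 + b * p) * 1 = b * p := by ring
  rw [e] at this
  exact this

/-- division of `c₁` by `p` into `c₂`; the exit is the remainder -/
def quotF (p : ℕ) : Frag (Fin p) :=
  Frag.loop ((decsF p).bind fun o => match o with
    | none => (incF 2).map fun _ => none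
    | some i => retF (some i))

theorem quotF_run (p a c d : ℕ) (i : Fin p) :
    (quotF p).Run (a, d * p + i, c) i (a, 0, c + d) := by
  induction d generalizing c with
  | zero =>
    refine Frag.loop_run_exit _ ?_
    have := Frag.bind_run (decsF p) (fun o => match o with
      | none => (incF 2).map fun _ => none
      | some i => retF (some i)) (decsF_run_some p a c i) (retF_run (some i) _)
    simpa using this
  | succ d ih =>
    refine Frag.loop_run_again _ ?_ (?_ : (quotF p).Run (a, d * p + i, c + 1) i _)
    · have h1 := decsF_run_none p a (d * p + i) c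
      have e : d * p + (i : ℕ) + p = (d + 1) * p + i := by ring
      rw [e] at h1
      have h2 := Frag.map_run _ (fun _ => (none : Option (Fin p))) (incF_run 2 (a, d * p + i, c))
      exact Frag.bind_run (decsF p) _ h1 h2
    · have := ih (c + 1)
      have e : c + 1 + d = c + (d + 1) := by ring
      rw [e] at this
      exact this

/-- exit `true`: `p` divides `c₁` and `c₁` has been divided by `p`; exit `false`: `p` does not
divide `c₁` -/
def divF (p : ℕ) : Frag Bool :=
  (quotF p).bind fun i => if (i : ℕ) = 0 then (downF 1).map (fun _ => true)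
    else ((downF p).bind fun _ => incsF 1 i).map (fun _ => false)

theorem divF_run_true (p a b : ℕ) (hp : 0 < p) : (divF p).Run (a, b * p, 0) true (a, b, 0) := by
  have h1 := quotF_run p a 0 b ⟨0, hp⟩
  have h2 := Frag.map_run _ (fun _ => true) (downF_run 1 a 0 b)
  have := Frag.bind_run (quotF p) (fun i => if (i : ℕ) = 0 then (downF 1).map (fun _ => true)
    else ((downF p).bind fun _ => incsF 1 i).map (fun _ => false)) (s'' := (a, b, 0))
    (e' := true) h1 (by simpa using h2)
  exact this

theorem divF_run_false (p a b : ℕ) (hp : 0 < p) (hb : ¬ p ∣ b) :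
    (divF p).Run (a, b, 0) false (a, b, 0) := by
  have hmod : b % p ≠ 0 := fun h => hb (Nat.dvd_of_mod_eq_zero h)
  have h1 := quotF_run p a 0 (b / p) ⟨b % p, Nat.mod_lt _ hp⟩
  simp only [Nat.div_add_mod', Nat.zero_add] at h1
  have h2 := Frag.map_run _ (fun _ => false) (Frag.bind_run (downF p)
    (fun _ => incsF 1 (b % p)) (downF_run p a 0 (b / p)) (incsF_run 1 (b % p) _))
  have e : 0 + b / p * p + b % p = b := by rw [Nat.zero_add]; exact Nat.div_add_mod' b p
  simp only [Store.get, Store.set, e] at h2
  have := Frag.bind_run (quotF p) (fun i => if (i : ℕ) = 0 then (downF 1).map (fun _ => true)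
    else ((downF p).bind fun _ => incsF 1 i).map (fun _ => false)) (s'' := (a, b, 0))
    (e' := false) h1 (by simpa [hmod] using h2)
  exact this

end Pool.Agent.Lib.H32C
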