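import Pool.Agent.Lib.H32C.FarWordL
import Pool.Agent.Lib.H32C.Mach

/-!
# The control part simulates the counter machine
-/

set_option autoImplicit false

namespace Pool.Agent.Lib.H32C

variable {G : FGeo}

/-- the queen of a counter -/
def qn (c : Fin 3) : Qn :=
  match c with
  | 0 => Qn.C
  | 1 => Qn.A
  | 2 => Qn.B

/-- the contents of the counter of a queen -/
def lvl (s : Store) (q : Qn) : ℕ :=
  match q with
  | Qn.A => s.2.1
  | Qn.B => s.2.2
  | Qn.C => s.1

/-- The far pieces for the contents `n` of the counters. -/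
def farOf (G : FGeo) (n : Qn → ℕ) (b : Sq) : Far := ⟨fun q => (G.col q, G.base q + G.unit q * n q), b⟩

/-- The control part `M` is a translation of the machine `P`. -/
structure FImpl {Q L : Type} (P : Q → Instr Q) (M : L → Md L) (ent : Q → L) : Prop where
  inc : ∀ q c j, P q = Instr.inc c j → Seq M (ent q) (tour (qn c) (incS (qn c))) (ent j)
  dec : ∀ q c j k, P q = Instr.dec c j k → ∃ l1 l2, M (ent q) = Md.choice l1 l2 ∧
    Seq M l1 (tour (qn c) (decS (qn c))) (ent j) ∧ Seq M l2 (tour (qn c) (zeroS (qn c))) (ent k)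
  cho : ∀ q j, P q = Instr.choose j → ∃ l0 l1 l2,
    Seq M (ent q) (tour Qn.C (zeroS Qn.C) ++ [Svc.Out, Svc.Tb]) l0 ∧
    Seq M l0 (tour Qn.C (incS Qn.C)) l1 ∧ M l1 = Md.choice l0 l2 ∧ Seq M l2 [Svc.Bin] (ent j)
  hal : ∀ q, P q = Instr.halt → M (ent q) = Md.halt

/-- the representation of a configuration -/
def rep (G : FGeo) {Q L : Type} (ent : Q → L) (c : Q × Store) : L × Far :=
  (ent c.1, farOf G (lvl c.2) G.hb)

theorem lvl_set (s : Store) (c : Fin 3) (n : ℕ) :
    lvl (s.set c n) = Function.update (lvl s) (qn c) n := by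
  funext q
  fin_cases c <;> cases q <;> simp [lvl, qn, Store.set, Function.update]

theorem lvl_get (s : Store) (c : Fin 3) : lvl s (qn c) = s.get c := by
  fin_cases c <;> rfl

theorem farOf_set (n : Qn → ℕ) (b : Sq) (q : Qn) (m : ℕ) :
    (farOf G n b).set q (G.col q, G.base q + G.unit q * m) =
      farOf G (Function.update n q m) b := by
  unfold farOf Far.set
  simp only [Far.mk.injEq, and_true]
  funext r
  by_cases hr : r = q
  · subst hr; simp
  · simp [Function.update_of_ne hr]

theorem homeC_lvl (h : G.Ok) (q : Qn) (n : ℕ) :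
    HomeC G q (G.col q, G.base q + G.unit q * n) := by
  have hu := unit_pos h q
  refine ⟨rfl, ?_, ?_⟩
  · rcases Nat.eq_zero_or_pos n with hn | hn
    · left; simp [hn]
    · right
      have : (1 : ℤ) ≤ n := by exact_mod_cast hn
      simp only
      nlinarith
  · have h1 := h.evA
    have h2 := h.evB
    cases q
    · simp only [FGeo.unit, add_sub_cancel_left]
      obtain ⟨k, hk⟩ : ∃ k, G.col Qn.A - G.xN = 2 * k := ⟨(G.col Qn.A - G.xN) / 2, by omega⟩
      rw [hk, show 2 * (2 * k) * (n : ℤ) = 4 * (k * n) by ring]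
      omega
    · simp only [FGeo.unit, add_sub_cancel_left]
      obtain ⟨k, hk⟩ : ∃ k, G.col Qn.B - G.xN = 2 * k := ⟨(G.col Qn.B - G.xN) / 2, by omega⟩
      rw [hk, show 2 * (2 * k) * (n : ℤ) = 4 * (k * n) by ring]
      omega
    · simp only [FGeo.unit, add_sub_cancel_left]
      omega

theorem hb_ok (n : Qn → ℕ) : BOk G (farOf G n G.hb) := Or.inl rfl

theorem out_ok (n : Qn → ℕ) {t : ℕ} (ht : 0 < t) : BOk G (farOf G n (G.out t)) :=
  Or.inr ⟨t, ht, rfl⟩

theorem farOf_b (n : Qn → ℕ) (b : Sq) : (farOf G n b).b = b := rfl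

theorem mid_farOf (h : G.Ok) (q : Qn) (n : Qn → ℕ) {b : Sq} (hb : BOk G (farOf G n b)) :
    Mid G q (farOf G n b) where
  hr r _ := homeC_lvl h r (n r)
  hc r hr he := hr (col_inj h he).symm
  ho := (homeC_lvl h q (n q)).outside h
  hf := col_not_floater h rfl
  hb := hb
  hqb := by
    intro he
    have h1 := hb.ge
    have h2 := col_lt_xD h q
    rw [← he] at h1
    simp only [farOf] at h1
    omega

theorem farOf_self (n : Qn → ℕ) (b : Sq) (q : Qn) :
    (farOf G n b).set q (G.col q, G.base q + G.unit q * n q) = farOf G n b := by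
  rw [farOf_set, Function.update_eq_self]

theorem base_le (h : G.Ok) (q : Qn) (n : ℕ) : G.base q ≤ G.base q + G.unit q * n :=
  (homeC_lvl h q n).ge h

section moves

variable {L : Type} {M : L → Md L}

theorem inc_win (h : G.Ok) {S : L × Far → Prop} (q : Qn) (n : Qn → ℕ) {b : Sq}
    (hb : BOk G (farOf G n b)) {l l' : L} (hl : Seq M l (tour q (incS q)) l')
    (hS : MWin G M S (l', farOf G (Function.update n q (n q + 1)) b)) :
    MWin G M S (l, farOf G n b) := by
  have key := tour_win h (M := M) (S := S) (l' := l') (incU h q (farOf G n b) (base_le h q (n q)))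
    (l := l) ?_ ?_ ?_
  · rwa [farOf_self] at key
  · rw [farOf_self]; exact mid_farOf h q n hb
  · rw [incW_fst]; exact hl
  · intro _
    rw [incW_last, show G.base q + G.unit q * ↑(n q) + G.unit q =
      G.base q + G.unit q * ((n q + 1 : ℕ) : ℤ) by push_cast; ring, farOf_set]
    exact hS

theorem dec_win (h : G.Ok) {S : L × Far → Prop} (q : Qn) (n : Qn → ℕ) {b : Sq}
    (hb : BOk G (farOf G n b)) {l l' : L} (hl : Seq M l (tour q (decS q)) l')
    (hS : n q ≠ 0 → MWin G M S (l', farOf G (Function.update n q (n q - 1)) b)) :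
    MWin G M S (l, farOf G n b) := by
  rcases Nat.eq_zero_or_pos (n q) with h0 | h0
  · have hm := mid_farOf h q n hb
    have hl2 : ∃ w, Seq M l ([Svc.W, Svc.T q.o1, Svc.T q.o2] ++ w) l' := by
      cases q <;> exact ⟨_, hl⟩
    obtain ⟨w, hl2⟩ := hl2
    rw [Seq.append] at hl2
    obtain ⟨l1, hl3, -⟩ := hl2
    have hd : ∀ t, G.ray Svc.W t → FarU G (farOf G n b) ((farOf G n b).q q) t → False := by
      intro t ht hf
      refine dec_dead h (q := q) ?_ ?_ ht hf
      · rfl
      · simp [farOf, h0]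
    refine leg_win (s := Svc.W) h hm rfl (fun r _ => ⟨nofun, nofun⟩) ?_ hl3
      (fun t ht hf => (hd t ht hf).elim) (fun t ht hf => (hd t ht hf).elim)
    have e1 := base_le h q (n q)
    have e2 := h.hT q
    have e3 := h.hy Svc.N
    have e4 := h.hw Svc.N
    have e5 := j_ge h q
    simp only [farOf, FGeo.line]
    omega
  · have hy : G.base q + G.unit q ≤ G.base q + G.unit q * n q := by
      have hu := unit_pos h q
      have : (1 : ℤ) ≤ n q := by exact_mod_cast h0
      nlinarith
    have key := tour_win h (M := M) (S := S) (l' := l') (decU h q (farOf G n b) hy) (l := l) ?_ ?_ ?_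
    · rwa [farOf_self] at key
    · rw [farOf_self]; exact mid_farOf h q n hb
    · rw [decW_fst]; exact hl
    · intro _
      obtain ⟨m, hm⟩ : ∃ m, n q = m + 1 := ⟨n q - 1, by omega⟩
      rw [decW_last, show G.base q + G.unit q * ↑(n q) - G.unit q =
        G.base q + G.unit q * ((n q - 1 : ℕ) : ℤ) by rw [hm]; push_cast; ring, farOf_set]
      exact hS (by omega)

theorem zero_win (h : G.Ok) {S : L × Far → Prop} (q : Qn) (n : Qn → ℕ) {b : Sq}
    (hb : BOk G (farOf G n b)) {l l' : L} (hl : Seq M l (tour q (zeroS q)) l')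
    (hS : n q = 0 → MWin G M S (l', farOf G n b)) :
    MWin G M S (l, farOf G n b) := by
  rcases Nat.eq_zero_or_pos (n q) with h0 | h0
  · have e : (farOf G n b).set q (G.col q, G.base q) = farOf G n b := by
      have := farOf_self (G := G) n b q
      rwa [h0, Nat.cast_zero, mul_zero, add_zero] at this
    have key := tour_win h (M := M) (S := S) (l' := l') (zeroU h q (farOf G n b)) (l := l) ?_ ?_ ?_
    · rwa [e] at key
    · rw [e]; exact mid_farOf h q n hb
    · rw [zeroW_fst]; exact hl
    · intro _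
      rw [zeroW_last, e]
      exact hS h0
  · have hm := mid_farOf h q n hb
    have hl2 : Seq M l ([Svc.Z q, Svc.T q.o1, Svc.T q.o2] ++ tour q [Svc.H q]) l' := hl
    rw [Seq.append] at hl2
    obtain ⟨l1, hl3, -⟩ := hl2
    have hu := unit_pos h q
    have hn : (1 : ℤ) ≤ n q := by exact_mod_cast h0
    have hd : ∀ t, G.ray (Svc.Z q) t → FarU G (farOf G n b) ((farOf G n b).q q) t → False := by
      intro t ht hf
      refine zero_dead h ?_ ?_ ht hf
      · rfl
      · simp only [farOf]; nlinarith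
    refine leg_win (s := Svc.Z q) h hm rfl (fun r hr => ⟨nofun, fun hz => hr (Svc.Z.inj hz).symm⟩) ?_ hl3
      (fun t ht hf => (hd t ht hf).elim) (fun t ht hf => (hd t ht hf).elim)
    have e5 := j_ge h q
    simp only [farOf, FGeo.line]
    omega

theorem inc_force (h : G.Ok) {c : L × Far} (q : Qn) (n : Qn → ℕ) {b : Sq}
    (hb : BOk G (farOf G n b)) (hbE : b.1 + b.2 ≠ G.col q + (G.base q + G.unit q * n q))
    (hbE2 : q = Qn.C → b.1 + b.2 ≠
      G.col Qn.C + (G.base Qn.C + G.unit Qn.C * n Qn.C) + 2 * (G.x1 - G.xN))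
    {l l' : L} (hl : Seq M l (tour q (incS q)) l')
    (hS : MF G M c (l', farOf G (Function.update n q (n q + 1)) b)) :
    MForce G M c (l, farOf G n b) := by
  have hT := incL h q (F := farOf G n b) (fun r _ => homeC_lvl h r (n r)) hb
    (homeC_lvl h q (n q)) hbE ?_
  · have key := tour_force h (M := M) (b := c) (l' := l') (l := l) ?_ hT ?_ ?_ ?_
    · rwa [farOf_self] at key
    · cases q <;> simp [incW, incW1, incW2]
    · rw [farOf_self]; exact mid_farOf h q n hb
    · rw [incW_fst]; exact hl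
    · rw [incW_last, show G.base q + G.unit q * ↑(n q) + G.unit q =
        G.base q + G.unit q * ((n q + 1 : ℕ) : ℤ) by push_cast; ring, farOf_set]
      exact hS
  · rintro rfl
    exact hbE2 rfl

theorem dec_force (h : G.Ok) {c : L × Far} (q : Qn) (n : Qn → ℕ) (h0 : n q ≠ 0)
    {l l' : L} (hl : Seq M l (tour q (decS q)) l')
    (hS : MF G M c (l', farOf G (Function.update n q (n q - 1)) G.hb)) :
    MForce G M c (l, farOf G n G.hb) := by
  have hb := hb_ok (G := G) n
  have hy : G.base q + G.unit q ≤ G.base q + G.unit q * n q := by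
    have hu := unit_pos h q
    have : (1 : ℤ) ≤ n q := by exact_mod_cast Nat.pos_of_ne_zero h0
    nlinarith
  have hT := decL h q (F := farOf G n G.hb) (fun r _ => homeC_lvl h r (n r)) hb
    (homeC_lvl h q (n q)) hy (by simp only [farOf, FGeo.hb]; omega)
  have key := tour_force h (M := M) (b := c) (l' := l') (l := l) ?_ hT ?_ ?_ ?_
  · rwa [farOf_self] at key
  · cases q <;> simp [decW, decW1, decW2]
  · rw [farOf_self]; exact mid_farOf h q n hb
  · rw [decW_fst]; exact hl
  · obtain ⟨m, hm⟩ : ∃ m, n q = m + 1 := ⟨n q - 1, by omega⟩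
    rw [decW_last, show G.base q + G.unit q * ↑(n q) - G.unit q =
      G.base q + G.unit q * ((n q - 1 : ℕ) : ℤ) by rw [hm]; push_cast; ring, farOf_set]
    exact hS

theorem zero_force (h : G.Ok) {c : L × Far} (q : Qn) (n : Qn → ℕ) (h0 : n q = 0)
    {l l' : L} (hl : Seq M l (tour q (zeroS q)) l')
    (hS : MF G M c (l', farOf G n G.hb)) :
    MForce G M c (l, farOf G n G.hb) := by
  have hb := hb_ok (G := G) n
  have e : (farOf G n G.hb).set q (G.col q, G.base q) = farOf G n G.hb := by
    have := farOf_self (G := G) n G.hb q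
    rwa [h0, Nat.cast_zero, mul_zero, add_zero] at this
  have hT := zeroL h q (F := farOf G n G.hb) (fun r _ => homeC_lvl h r (n r)) hb
  have key := tour_force h (M := M) (b := c) (l' := l') (l := l) (by simp [zeroW]) hT ?_ ?_ ?_
  · rwa [e] at key
  · rw [e]; exact mid_farOf h q n hb
  · rw [zeroW_fst]; exact hl
  · rw [zeroW_last, e]
    exact hS

/-- the common part of the invariants -/
theorem base_farOf (h : G.Ok) (n : Qn → ℕ) {b : Sq} (hb : BOk G (farOf G n b)) :
    (∀ q r, q ≠ r → (farOf G n b).q q ≠ (farOf G n b).q r) ∧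
    (∀ q, (farOf G n b).q q ≠ (farOf G n b).b) ∧ (∀ q, G.Outside ((farOf G n b).q q)) ∧
      (∀ q, ¬ G.floater ((farOf G n b).q q)) :=
  (mid_farOf h Qn.A n hb).base h

theorem minv_choice (h : G.Ok) (n : Qn → ℕ) {b : Sq} (hb : BOk G (farOf G n b)) {l l1 l2 : L}
    (hl : M l = Md.choice l1 l2) : MInv G M (l, farOf G n b) := by
  obtain ⟨h1, h2, h3, h4⟩ := base_farOf h n hb
  unfold MInv
  simp only [hl]
  exact ⟨h1, h2, h3, h4, hb⟩

theorem atHome (h : G.Ok) (n : Qn → ℕ) (b : Sq) (q : Qn) : AtHome G (farOf G n b) q :=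
  ⟨rfl, base_le h q (n q)⟩

theorem choice_win (h : G.Ok) {S : L × Far → Prop} (n : Qn → ℕ) {b : Sq}
    (hb : BOk G (farOf G n b)) {l l1 l2 : L} (hl : M l = Md.choice l1 l2)
    (h1 : MWin G M S (l1, farOf G n b)) (h2 : MWin G M S (l2, farOf G n b)) :
    MWin G M S (l, farOf G n b) := by
  refine MWin.step (minv_choice h n hb hl) ?_
  rintro ⟨b1, b2⟩ hb'
  unfold MStepU at hb'
  simp only [hl] at hb'
  obtain ⟨rfl, rfl | rfl⟩ := hb'
  · exact h1
  · exact h2

end moves

/-- the steps of the bishop before the loop -/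
theorem out_win (h : G.Ok) {L : Type} {M : L → Md L} {S : L × Far → Prop} (n : Qn → ℕ) {l l' : L}
    (hl : Seq M l [Svc.Out, Svc.Tb] l')
    (hS : ∀ t : ℕ, 0 < t → MWin G M S (l', farOf G n (G.out t))) :
    MWin G M S (l, farOf G n G.hb) := by
  obtain ⟨l1, e1, l2, e2, e3⟩ := hl
  cases e3
  have e5 := h.hT
  have e6 := h.hTD
  have hcol := col_lt_xD h
  have ebase := fun q => base_le h q (n q)
  have ej := j_ge h
  refine MWin.step ?_ ?_
  · unfold MInv
    simp only [e1]
    obtain ⟨h1, h2, h3, h4⟩ := base_farOf h n (hb_ok n)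
    exact ⟨h1, h2, h3, h4, fun q => atHome h n _ q, rfl⟩
  · rintro ⟨b1, ⟨Fq, b⟩⟩ hb
    unfold MStepU at hb
    simp only [e1] at hb
    obtain ⟨rfl, hq, hb⟩ := hb
    simp only at hq hb
    subst hq
    obtain ⟨h1, h2, h3, h4⟩ := base_farOf h n (hb_ok n)
    refine MWin.step ?_ ?_
    · unfold MInv
      simp only [e2]
      refine ⟨h1, fun q he => ?_, h3, h4, fun q => atHome h n _ q, hb⟩
      have k1 := e5 q
      have k2 := hcol q
      have k3 := ebase q
      have k4 := ej q
      simp only [farOf] at he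
      rcases hb with ⟨t, ht, rfl⟩ | ⟨t, ht, -, rfl⟩
      · simp only [FGeo.out, Prod.mk.injEq] at he
        omega
      · simp only [FGeo.se, Prod.mk.injEq] at he
        omega
    · rintro ⟨c1, c2⟩ hc
      unfold MStepU at hc
      simp only [e2] at hc
      obtain ⟨rfl, rfl, t, ht, hbt⟩ := hc
      simp only at hbt
      subst hbt
      exact hS t ht

theorem bin_win (h : G.Ok) {L : Type} {M : L → Md L} {S : L × Far → Prop} (n : Qn → ℕ) {l l' : L}
    (hl : Seq M l [Svc.Bin] l') {t : ℕ} (ht : 0 < t)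
    (hS : MWin G M S (l', farOf G n G.hb)) : MWin G M S (l, farOf G n (G.out t)) := by
  obtain ⟨l1, e1, e2⟩ := hl
  cases e2
  obtain ⟨h1, h2, h3, h4⟩ := base_farOf h n (out_ok n ht)
  refine MWin.step ?_ ?_
  · unfold MInv
    simp only [e1]
    exact ⟨h1, h2, h3, h4, fun q => atHome h n _ q, t, ht, rfl⟩
  · rintro ⟨b1, ⟨Fq, b⟩⟩ hb
    unfold MStepU at hb
    simp only [e1] at hb
    obtain ⟨rfl, hq, hb⟩ := hb
    simp only at hq hb
    subst hq hb
    exact hS

/-- the increment is impossible if the bishop stands on the line -/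
theorem inc_dead (h : G.Ok) {F : Far} {m : ℕ} (hb : F.b = G.out (m + 1)) {t : Sq}
    (ht : G.ray Svc.E t)
    (hf : FarU G F (G.col Qn.C, G.base Qn.C + G.unit Qn.C * m) t) : False := by
  have k1 := h.hT Qn.C
  have k2 := h.hTD
  have k3 := h.heD
  have k4 := col_lt_xD h Qn.C
  have k5 := h.he Svc.N
  have k6 := h.hy Svc.N
  obtain ⟨a1, a2, a3, a4, a5, a6, a7, a8, a9, a10, a11⟩ := h.all
  simp only [FGeo.base, FGeo.unit] at *
  have key := ray_E hf.1 ht (by simp only; omega) (by simp only; omega)
  rw [key] at hf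
  refine hf.2.1 F.b ?_ (Or.inr (Or.inl rfl))
  rw [hb]
  simp only [BetwI, OrthI, FGeo.out]
  push_cast
  omega

theorem loop_win (h : G.Ok) {L : Type} {M : L → Md L} {S : L × Far → Prop} {l0 l1 l2 l3 : L}
    (hl0 : Seq M l0 (tour Qn.C (incS Qn.C)) l1) (hl1 : M l1 = Md.choice l0 l2)
    (hl2 : Seq M l2 [Svc.Bin] l3) {t : ℕ} (ht : 0 < t)
    (n : Qn → ℕ) (hS : ∀ m : ℕ, 1 ≤ m → MWin G M S (l3, farOf G (Function.update n Qn.C m) G.hb))
    (k : ℕ) : ∀ m : ℕ, m + k + 1 = t →
      MWin G M S (l0, farOf G (Function.update n Qn.C m) (G.out t)) := by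
  induction k with
  | zero =>
    intro m hm
    have hmid := mid_farOf h Qn.C (Function.update n Qn.C m) (out_ok (G := G) _ ht)
    have hl2 : Seq M l0 ([Svc.E, Svc.T Qn.C.o1, Svc.T Qn.C.o2] ++
      tour Qn.C [Svc.N, Svc.W, Svc.N1, Svc.E, Svc.N2, Svc.W, Svc.H Qn.C]) l1 := hl0
    rw [Seq.append] at hl2
    obtain ⟨l1', hl3, -⟩ := hl2
    have hd : ∀ s, G.ray Svc.E s → FarU G (farOf G (Function.update n Qn.C m) (G.out t))
        ((farOf G (Function.update n Qn.C m) (G.out t)).q Qn.C) s → False := by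
      intro s hs hf
      refine inc_dead h (m := m) (F := farOf G (Function.update n Qn.C m) (G.out t)) ?_ hs ?_
      · rw [farOf_b, ← hm, Nat.add_zero]
      · simpa [farOf] using hf
    refine leg_win (s := Svc.E) h hmid rfl (fun r _ => ⟨nofun, nofun⟩) ?_ hl3
      (fun t ht hf => (hd t ht hf).elim) (fun t ht hf => (hd t ht hf).elim)
    have e1 := base_le h Qn.C m
    have e2 := h.hT Qn.C
    have e3 := h.hy Svc.N
    have e4 := h.he Svc.N
    have e5 := j_ge h Qn.C
    simp only [farOf, FGeo.line, Function.update_self]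
    omega
  | succ k ih =>
    intro m hm
    refine inc_win h Qn.C _ (out_ok _ ht) hl0 ?_
    rw [Function.update_self, Function.update_idem]
    refine choice_win h _ (out_ok _ ht) hl1 (ih (m + 1) (by omega)) ?_
    exact bin_win h _ hl2 ht (hS (m + 1) (by omega))

/-- **Upper bound**: White forces the representation of a next configuration. -/
theorem micro_upper (h : G.Ok) {Q L : Type} {P : Q → Instr Q} {M : L → Md L} {ent : Q → L}
    (hI : FImpl P M ent) (c : Q × Store) :
    MWin G M (fun x => ∃ c', Step P c c' ∧ x = rep G ent c') (rep G ent c) := by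
  obtain ⟨q, s⟩ := c
  unfold rep
  simp only
  rcases hP : P q with ⟨i, j⟩ | ⟨i, j, k⟩ | j | _
  · refine inc_win h (qn i) _ (hb_ok _) (hI.inc q i j hP) (MWin.tgt ?_)
    refine ⟨(j, s.set i (s.get i + 1)), Or.inl ?_, ?_⟩
    · simp only [hP, Instr.next]
    · rw [lvl_get, ← lvl_set]
  · obtain ⟨l1, l2, e1, e2, e3⟩ := hI.dec q i j k hP
    refine choice_win h _ (hb_ok _) e1 ?_ ?_
    · refine dec_win h (qn i) _ (hb_ok _) e2 fun h0 => MWin.tgt ?_
      rw [lvl_get] at h0
      refine ⟨(j, s.set i (s.get i - 1)), Or.inl ?_, ?_⟩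
      · simp only [hP, Instr.next, h0, if_false]
      · rw [lvl_get, ← lvl_set]
    · refine zero_win h (qn i) _ (hb_ok _) e3 fun h0 => MWin.tgt ?_
      rw [lvl_get] at h0
      refine ⟨(k, s), Or.inl ?_, rfl⟩
      simp only [hP, Instr.next, h0, if_true]
  · obtain ⟨l0, l1, l2, e1, e2, e3, e4⟩ := hI.cho q j hP
    rw [Seq.append] at e1
    obtain ⟨l, e5, e6⟩ := e1
    refine zero_win h Qn.C _ (hb_ok _) e5 fun h0 => ?_
    refine out_win h _ e6 fun t ht => ?_
    have := loop_win h (S := fun x => ∃ c', Step P (q, s) c' ∧ x = (ent c'.1, farOf G (lvl c'.2) G.hb))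
      e2 e3 e4 ht (lvl s) ?_ (t - 1) 0 (by omega)
    · rwa [← h0, Function.update_eq_self] at this
    · intro m hm
      refine MWin.tgt ⟨(j, (m, s.2.1, s.2.2)), Or.inr ⟨j, m, hP, h0, hm, rfl⟩, ?_⟩
      have : lvl (m, s.2.1, s.2.2) = Function.update (lvl s) Qn.C m := lvl_set s 0 m
      rw [this]
  · have e := hI.hal q hP
    refine MWin.step ?_ ?_
    · obtain ⟨h1, h2, h3, h4⟩ := base_farOf h (lvl s) (hb_ok _)
      unfold MInv
      simp only [e]
      exact ⟨h1, h2, h3, h4, hb_ok _⟩
    · intro b hb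
      unfold MStepU at hb
      simp only [e] at hb

theorem loop_mf (h : G.Ok) {L : Type} {M : L → Md L} {c : L × Far} {l0 l1 l2 l3 : L}
    (hl0 : Seq M l0 (tour Qn.C (incS Qn.C)) l1) (hl1 : M l1 = Md.choice l0 l2)
    (hl2 : Seq M l2 [Svc.Bin] l3) {t : ℕ} (ht : 0 < t)
    (n : Qn → ℕ) (k : ℕ) : ∀ m : ℕ, ((m + k + 1 : ℕ) : ℤ) + (G.x1 - G.xN) < t →
      MF G M c (l3, farOf G (Function.update n Qn.C (m + k + 1)) G.hb) →
      MF G M c (l0, farOf G (Function.update n Qn.C m) (G.out t)) := by
  induction k with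
  | zero =>
    intro m hm hS
    push_cast at hm
    have hN := h.hN1
    refine (inc_force h Qn.C _ (out_ok _ ht) ?_ ?_ hl0 ?_).mf
    · simp only [FGeo.out, FGeo.base, FGeo.unit, Function.update_self]; omega
    · intro _
      simp only [FGeo.out, FGeo.base, FGeo.unit, Function.update_self]; omega
    · rw [Function.update_self, Function.update_idem]
      refine MF.step (c := (l2, farOf G (Function.update n Qn.C (m + 1)) (G.out t)))
        (minv_choice h _ (out_ok _ ht) hl1) ?_ ?_
      · unfold MStepL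
        simp only [hl1]
        exact ⟨trivial, Or.inr trivial⟩
      · obtain ⟨l4, e1, e2⟩ := hl2
        cases e2
        refine MF.step (c := (_, farOf G (Function.update n Qn.C (m + 1)) G.hb)) ?_ ?_ hS
        · obtain ⟨h1, h2, h3, h4⟩ := base_farOf h (Function.update n Qn.C (m + 1)) (out_ok _ ht)
          unfold MInv
          simp only [e1]
          exact ⟨h1, h2, h3, h4, fun q => atHome h _ _ q, t, ht, rfl⟩
        · unfold MStepL
          simp only [e1]
          exact ⟨trivial, rfl, rfl⟩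
  | succ k ih =>
    intro m hm hS
    have hN := h.hN1
    refine (inc_force h Qn.C _ (out_ok _ ht) ?_ ?_ hl0 ?_).mf
    · simp only [FGeo.out, FGeo.base, FGeo.unit, Function.update_self]
      push_cast at hm; omega
    · intro _
      simp only [FGeo.out, FGeo.base, FGeo.unit, Function.update_self]
      push_cast at hm; omega
    · rw [Function.update_self, Function.update_idem]
      refine MF.step (c := (l0, farOf G (Function.update n Qn.C (m + 1)) (G.out t)))
        (minv_choice h _ (out_ok _ ht) hl1) ?_ ?_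
      · unfold MStepL
        simp only [hl1]
        exact ⟨trivial, Or.inl trivial⟩
      · refine ih (m + 1) ?_ ?_
        · rw [show m + 1 + k + 1 = m + (k + 1) + 1 by omega]
          exact hm
        · rw [show m + 1 + k + 1 = m + (k + 1) + 1 by omega]
          exact hS

/-- **Lower bound**: Black forces the representation of every next configuration. -/
theorem micro_lower (h : G.Ok) {Q L : Type} {P : Q → Instr Q} {M : L → Md L} {ent : Q → L}
    (hI : FImpl P M ent) {c c' : Q × Store} (hs : Step P c c') :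
    MForce G M (rep G ent c') (rep G ent c) := by
  obtain ⟨q, s⟩ := c
  rcases hs with hs | ⟨j, n, hP, h0, hn, rfl⟩
  · simp only at hs
    rcases hP : P q with ⟨i, j⟩ | ⟨i, j, k⟩ | j | _
    · rw [hP] at hs
      simp only [Instr.next, Option.some.injEq] at hs
      subst hs
      unfold rep
      have e1 := unit_pos h (qn i)
      have hx : ∀ r : Qn, G.X0 ≤ G.col r + (G.base r + G.unit r * (lvl s r : ℕ)) := by
        intro r
        have := base_le h r (lvl s r)
        cases r <;> simp only [FGeo.base] at * <;> omega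
      refine inc_force h (qn i) _ (hb_ok _) ?_ ?_ (hI.inc q i j hP) ?_
      · have := hx (qn i)
        simp only [FGeo.hb]
        omega
      · intro _
        have := hx Qn.C
        have hN := h.hN1
        simp only [FGeo.hb]
        omega
      · rw [lvl_get, ← lvl_set]
        exact MF.refl
    · obtain ⟨l1, l2, e1, e2, e3⟩ := hI.dec q i j k hP
      rw [hP] at hs
      by_cases h0 : s.get i = 0
      · simp only [Instr.next, h0, if_true, Option.some.injEq] at hs
        subst hs
        unfold rep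
        refine MF.force (c := (l2, farOf G (lvl s) G.hb)) (minv_choice h _ (hb_ok _) e1) ?_ ?_
        · unfold MStepL
          simp only [e1]
          exact ⟨trivial, Or.inr trivial⟩
        · refine (zero_force h (qn i) _ ?_ e3 MF.refl).mf
          rw [lvl_get]; exact h0
      · simp only [Instr.next, h0, if_false, Option.some.injEq] at hs
        subst hs
        unfold rep
        refine MF.force (c := (l1, farOf G (lvl s) G.hb)) (minv_choice h _ (hb_ok _) e1) ?_ ?_
        · unfold MStepL
          simp only [e1]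
          exact ⟨trivial, Or.inl trivial⟩
        · refine (dec_force h (qn i) _ ?_ e2 ?_).mf
          · rw [lvl_get]; exact h0
          · rw [lvl_get, ← lvl_set]
            exact MF.refl
    · rw [hP] at hs
      simp [Instr.next] at hs
    · rw [hP] at hs
      simp [Instr.next] at hs
  · simp only at hP h0
    obtain ⟨l0, l1, l2, e1, e2, e3, e4⟩ := hI.cho q j hP
    rw [Seq.append] at e1
    obtain ⟨l, e5, e6⟩ := e1
    unfold rep
    refine zero_force h Qn.C _ h0 e5 ?_
    obtain ⟨l3, e7, l4, e8, e9⟩ := e6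
    cases e9
    have hN := h.hN1
    obtain ⟨t, ht⟩ : ∃ t : ℕ, (t : ℤ) = n + (G.x1 - G.xN) + 1 :=
      ⟨(n + (G.x1 - G.xN) + 1).toNat, by omega⟩
    have ht0 : 0 < t := by omega
    have hb0 := base_farOf h (lvl s) (hb_ok (G := G) _)
    have hb1 := base_farOf h (lvl s) (out_ok (G := G) _ ht0)
    refine MF.step (c := (l3, farOf G (lvl s) (G.out t))) ?_ ?_
      (MF.step (c := (l0, farOf G (lvl s) (G.out t))) ?_ ?_ ?_)
    · unfold MInv
      simp only [e7]
      exact ⟨hb0.1, hb0.2.1, hb0.2.2.1, hb0.2.2.2, fun q => atHome h _ _ q, rfl⟩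
    · unfold MStepL
      simp only [e7]
      exact ⟨trivial, rfl, t, ht0, rfl⟩
    · unfold MInv
      simp only [e8]
      exact ⟨hb1.1, hb1.2.1, hb1.2.2.1, hb1.2.2.2, fun q => atHome h _ _ q, Or.inl ⟨t, ht0, rfl⟩⟩
    · unfold MStepL
      simp only [e8]
      exact ⟨trivial, rfl, t, ht0, rfl⟩
    · have key := loop_mf h (c := (ent j, farOf G (lvl (n, s.2.1, s.2.2)) G.hb)) e2 e3 e4 ht0
        (lvl s) (n - 1) 0 (by push_cast; omega) ?_
      · have h0' : lvl s Qn.C = 0 := h0
        rwa [← h0', Function.update_eq_self] at key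
      · have : lvl (n, s.2.1, s.2.2) = Function.update (lvl s) Qn.C n := lvl_set s 0 n
        rw [this, show 0 + (n - 1) + 1 = n by omega]
        exact MF.refl

end Pool.Agent.Lib.H32C
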