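import Pool.Agent.Lib.H32C.FarDf
import Pool.Agent.Lib.H32C.FarSim
import Pool.Agent.Lib.H32C.Sim

/-!
# From a layout of the control part to the omega one of infinite chess
-/

set_option autoImplicit false

namespace Pool.Agent.Lib.H32C

/-! ### The labels -/

/-- labels: the entry of an instruction, the loop of a choice, and `run w l`: perform the calls
`w`, then go to `l` -/
inductive Lab (Q : Type)
  | ent (q : Q)
  | ch (q : Q)
  | run (w : List Svc) (l : Lab Q)

/-- perform the calls and go to `x` -/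
def Lab.go {Q : Type} (w : List Svc) (x : Lab Q) : Md (Lab Q) :=
  match w with
  | [] => Md.halt
  | s :: w => Md.call s (if w = [] then x else Lab.run w x)

/-- the control part -/
def labM {Q : Type} (P : Q → Instr Q) : Lab Q → Md (Lab Q)
  | Lab.ent q =>
    match P q with
    | Instr.inc c j => Lab.go (tour (qn c) (incS (qn c))) (Lab.ent j)
    | Instr.dec c j k => Md.choice (Lab.run (tour (qn c) (decS (qn c))) (Lab.ent j))
        (Lab.run (tour (qn c) (zeroS (qn c))) (Lab.ent k))
    | Instr.choose j => Lab.go (tour Qn.C (zeroS Qn.C) ++ [Svc.Out, Svc.Tb])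
        (Lab.run (tour Qn.C (incS Qn.C)) (Lab.ch j))
    | Instr.halt => Md.halt
  | Lab.ch j => Md.choice (Lab.run (tour Qn.C (incS Qn.C)) (Lab.ch j)) (Lab.run [Svc.Bin] (Lab.ent j))
  | Lab.run w x => Lab.go w x

theorem seq_run {Q : Type} (P : Q → Instr Q) (x : Lab Q) : ∀ w : List Svc,
    Seq (labM P) (if w = [] then x else Lab.run w x) w x := by
  intro w
  induction w with
  | nil => simp [Seq]
  | cons s w ih =>
    rw [if_neg (by simp)]
    exact ⟨_, rfl, ih⟩

theorem seq_go {Q : Type} (P : Q → Instr Q) (x l : Lab Q) {w : List Svc} (hw : w ≠ [])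
    (hl : labM P l = Lab.go w x) : Seq (labM P) l w x := by
  cases w with
  | nil => exact absurd rfl hw
  | cons s w => exact ⟨_, hl, seq_run P x w⟩

theorem seq_run' {Q : Type} (P : Q → Instr Q) (x : Lab Q) {w : List Svc} (hw : w ≠ []) :
    Seq (labM P) (Lab.run w x) w x := seq_go P x _ hw rfl

theorem tour_ne (q : Qn) {w : List Svc} (hw : w ≠ []) : tour q w ≠ [] := by
  cases w with
  | nil => exact absurd rfl hw
  | cons s w => simp [tour]

theorem incS_ne (q : Qn) : incS q ≠ [] := by cases q <;> simp [incS]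

theorem decS_ne (q : Qn) : decS q ≠ [] := by cases q <;> simp [decS]

theorem zeroS_ne (q : Qn) : zeroS q ≠ [] := by simp [zeroS]

theorem labM_impl {Q : Type} (P : Q → Instr Q) : FImpl P (labM P) Lab.ent where
  inc q c j h := seq_go P _ _ (tour_ne _ (incS_ne _)) (by simp only [labM, h])
  dec q c j k h := ⟨_, _, by simp only [labM, h], seq_run' P _ (tour_ne _ (decS_ne _)),
    seq_run' P _ (tour_ne _ (zeroS_ne _))⟩
  cho q j h := ⟨Lab.run (tour Qn.C (incS Qn.C)) (Lab.ch j), Lab.ch j, Lab.run [Svc.Bin] (Lab.ent j),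
    seq_go P _ _ (by simp [tour, zeroS]) (by simp only [labM, h]),
    seq_run' P _ (tour_ne _ (incS_ne _)), rfl, seq_run' P _ (by simp)⟩
  hal q h := by simp only [labM, h]

/-! ### A finite closed set of labels -/

/-- the words which occur -/
def words : List (List Svc) :=
  [tour Qn.A (incS Qn.A), tour Qn.B (incS Qn.B), tour Qn.C (incS Qn.C),
    tour Qn.A (decS Qn.A), tour Qn.B (decS Qn.B), tour Qn.C (decS Qn.C),
    tour Qn.A (zeroS Qn.A), tour Qn.B (zeroS Qn.B), tour Qn.C (zeroS Qn.C),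
    tour Qn.C (zeroS Qn.C) ++ [Svc.Out, Svc.Tb], [Svc.Bin]]

/-- the suffixes of the words -/
def Suf (w : List Svc) : Prop := ∃ v ∈ words, w <:+ v

theorem Suf.tail {s : Svc} {w : List Svc} (h : Suf (s :: w)) : Suf w := by
  obtain ⟨v, hv, h⟩ := h
  exact ⟨v, hv, (List.suffix_cons s w).trans h⟩

theorem suf_words {w : List Svc} (h : w ∈ words) : Suf w := ⟨w, h, List.suffix_rfl⟩

theorem suf_finite : {w | Suf w}.Finite := by
  have : {w | Suf w} ⊆ {w | w ∈ words.flatMap List.tails} := by
    rintro w ⟨v, hv, h⟩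
    simp only [Set.mem_setOf_eq, List.mem_flatMap]
    exact ⟨v, hv, (List.mem_tails _ _).2 h⟩
  exact (List.finite_toSet _).subset this

/-- possible targets of a run -/
inductive Tgt {Q : Type} : Lab Q → Prop
  | ent (q : Q) : Tgt (Lab.ent q)
  | ch (q : Q) : Tgt (Lab.ch q)
  | cc (q : Q) : Tgt (Lab.run (tour Qn.C (incS Qn.C)) (Lab.ch q))

/-- the labels which occur -/
def LK {Q : Type} (l : Lab Q) : Prop := Tgt l ∨ ∃ w x, Suf w ∧ Tgt x ∧ l = Lab.run w x

theorem tgt_finite {Q : Type} [Finite Q] : {l : Lab Q | Tgt l}.Finite := by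
  have : {l : Lab Q | Tgt l} ⊆ Set.range Lab.ent ∪ Set.range Lab.ch ∪
      Set.range (fun q => Lab.run (tour Qn.C (incS Qn.C)) (Lab.ch q)) := by
    rintro l (q | q | q)
    · exact Or.inl (Or.inl ⟨q, rfl⟩)
    · exact Or.inl (Or.inr ⟨q, rfl⟩)
    · exact Or.inr ⟨q, rfl⟩
  exact ((((Set.finite_range _)).union (Set.finite_range _)).union (Set.finite_range _)).subset this

theorem lk_finite {Q : Type} [Finite Q] : {l : Lab Q | LK l}.Finite := by
  have : {l : Lab Q | LK l} ⊆ {l | Tgt l} ∪
      (fun p : List Svc × Lab Q => Lab.run p.1 p.2) '' ({w | Suf w} ×ˢ {l | Tgt l}) := by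
    rintro l (h | ⟨w, x, hw, hx, rfl⟩)
    · exact Or.inl h
    · exact Or.inr ⟨(w, x), ⟨hw, hx⟩, rfl⟩
  exact (tgt_finite.union ((suf_finite.prod tgt_finite).image _)).subset this

theorem go_closed {Q : Type} {w : List Svc} {x l : Lab Q} (hw : Suf w) (hx : Tgt x)
    (h : (Lab.go w x).tgt l) : LK l := by
  cases w with
  | nil => exact h.elim
  | cons s w =>
    simp only [Lab.go, Md.tgt] at h
    subst h
    split_ifs
    · exact Or.inl hx
    · exact Or.inr ⟨w, x, hw.tail, hx, rfl⟩

theorem labM_closed {Q : Type} (P : Q → Instr Q) {l l' : Lab Q} (hl : LK l)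
    (h : (labM P l).tgt l') : LK l' := by
  have hinc : ∀ q, Suf (tour q (incS q)) := by
    intro q; apply suf_words; cases q <;> simp [words]
  have hdec : ∀ q, Suf (tour q (decS q)) := by
    intro q; apply suf_words; cases q <;> simp [words]
  have hzer : ∀ q, Suf (tour q (zeroS q)) := by
    intro q; apply suf_words; cases q <;> simp [words]
  have key : ∀ l : Lab Q, Tgt l → (labM P l).tgt l' → LK l' := by
    rintro l (q | q | q) h
    · simp only [labM] at h
      split at h
      · exact go_closed (hinc _) (Tgt.ent _) h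
      · rcases h with rfl | rfl
        · exact Or.inr ⟨_, _, hdec _, Tgt.ent _, rfl⟩
        · exact Or.inr ⟨_, _, hzer _, Tgt.ent _, rfl⟩
      · exact go_closed (suf_words (by simp [words])) (Tgt.cc _) h
      · exact h.elim
    · simp only [labM] at h
      rcases h with rfl | rfl
      · exact Or.inl (Tgt.cc _)
      · exact Or.inr ⟨_, _, suf_words (by simp [words]), Tgt.ent _, rfl⟩
    · simp only [labM] at h
      exact go_closed (hinc _) (Tgt.ch _) h
  rcases hl with hl | ⟨w, x, hw, hx, rfl⟩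
  · exact key l hl h
  · simp only [labM] at h
    exact go_closed hw hx h

/-! ### Restriction to a closed set of labels -/

/-- restriction of a module -/
def Md.res {L : Type} {K : L → Prop} (m : Md L) (h : ∀ l, m.tgt l → K l) : Md {l // K l} :=
  match m, h with
  | Md.call s n, h => Md.call s ⟨n, h n rfl⟩
  | Md.choice a b, h => Md.choice ⟨a, h a (Or.inl rfl)⟩ ⟨b, h b (Or.inr rfl)⟩
  | Md.halt, _ => Md.halt

theorem res_call {L : Type} {K : L → Prop} {m : Md L} (h : ∀ l, m.tgt l → K l) {s : Svc} {n : L}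
    (hm : m = Md.call s n) : ∃ hn, m.res h = Md.call s ⟨n, hn⟩ := by
  subst hm
  exact ⟨_, rfl⟩

theorem res_choice {L : Type} {K : L → Prop} {m : Md L} (h : ∀ l, m.tgt l → K l) {a b : L}
    (hm : m = Md.choice a b) : ∃ ha hb, m.res h = Md.choice ⟨a, ha⟩ ⟨b, hb⟩ := by
  subst hm
  exact ⟨_, _, rfl⟩

theorem res_halt {L : Type} {K : L → Prop} {m : Md L} (h : ∀ l, m.tgt l → K l)
    (hm : m = Md.halt) : m.res h = Md.halt := by
  subst hm
  rfl

theorem seq_res {L : Type} {K : L → Prop} {M : L → Md L} (h : ∀ l, K l → ∀ l', (M l).tgt l' → K l')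
    {w : List Svc} : ∀ {l l' : L}, Seq M l w l' → ∀ hl : K l,
      ∃ hl', Seq (fun x : {l // K l} => (M x.1).res (h x.1 x.2)) ⟨l, hl⟩ w ⟨l', hl'⟩ := by
  induction w with
  | nil =>
    intro l l' hs hl
    cases hs
    exact ⟨hl, rfl⟩
  | cons s w ih =>
    intro l l' hs hl
    obtain ⟨n, h1, h2⟩ := hs
    obtain ⟨hn, h3⟩ := res_call (h l hl) h1
    obtain ⟨hl', h4⟩ := ih h2 hn
    exact ⟨hl', _, h3, h4⟩

/-- **Every machine has a finite control part.** -/
theorem exists_fimpl {Q : Type} [Finite Q] (P : Q → Instr Q) :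
    ∃ (L : Type) (_ : Finite L) (M : L → Md L) (ent : Q → L), FImpl P M ent := by
  have hc : ∀ l : Lab Q, LK l → ∀ l', (labM P l).tgt l' → LK l' :=
    fun l hl l' h => labM_closed P hl h
  have he : ∀ q : Q, LK (Lab.ent q) := fun q => Or.inl (Tgt.ent q)
  have hI := labM_impl P
  refine ⟨{l : Lab Q // LK l}, lk_finite.to_subtype, fun x => (labM P x.1).res (hc x.1 x.2),
    fun q => ⟨Lab.ent q, he q⟩, ?_, ?_, ?_, ?_⟩
  · intro q c j h
    obtain ⟨_, h1⟩ := seq_res hc (hI.inc q c j h) (he q)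
    exact h1
  · intro q c j k h
    obtain ⟨l1, l2, h1, h2, h3⟩ := hI.dec q c j k h
    obtain ⟨k1, k2, h4⟩ := res_choice (hc _ (he q)) h1
    obtain ⟨_, h5⟩ := seq_res hc h2 k1
    obtain ⟨_, h6⟩ := seq_res hc h3 k2
    exact ⟨⟨l1, k1⟩, ⟨l2, k2⟩, h4, h5, h6⟩
  · intro q j h
    obtain ⟨l0, l1, l2, h1, h2, h3, h4⟩ := hI.cho q j h
    obtain ⟨k0, h5⟩ := seq_res hc h1 (he q)
    obtain ⟨k1, h6⟩ := seq_res hc h2 k0
    obtain ⟨k2, k3, h7⟩ := res_choice (hc _ k1) h3
    obtain ⟨_, h8⟩ := seq_res hc h4 k3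
    exact ⟨⟨l0, k0⟩, ⟨l1, k1⟩, ⟨l2, k3⟩, h5, h6, h7, h8⟩
  · intro q h
    exact res_halt (hc _ (he q)) (hI.hal q h)

/-! ### Layouts -/

theorem MInv.fbase {G : FGeo} {L : Type} {M : L → Md L} {m : L × Far} (h : MInv G M m) :
    FBase G m.2 := by
  unfold MInv at h
  split at h
  · exact ⟨h.1, h.2.1, h.2.2.1, h.2.2.2.1⟩
  · exact ⟨h.1, h.2.1, h.2.2.1, h.2.2.2.1⟩

/-- A family of chess positions realises the control part `M` with the far pieces. -/
structure Lay (G : FGeo) {L : Type} (M : L → Md L) (pos : L × Far → Pos) : Prop where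
  /-- finite positions -/
  fin : ∀ m, MInv G M m → FinitePos (pos m)
  /-- White wins if White wins from all possible successors -/
  upper : ∀ m, MInv G M m → (∀ m', MStepU G M m m' → FBase G m'.2) →
    (∀ m', MStepU G M m m' → HasValue (pos m')) → HasValue (pos m)
  /-- Black can force every certain successor -/
  lower : ∀ m m' β, MInv G M m → MStepL G M m m' → GE (pos m') β → ¬ ValLE (pos m) β

theorem Lay.hasValue {G : FGeo} {L : Type} {M : L → Md L} {pos : L × Far → Pos}
    (hL : Lay G M pos) {S : L × Far → Prop} (hS : ∀ m, S m → FBase G m.2 ∧ HasValue (pos m))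
    {m : L × Far} (hm : MWin G M S m) : FBase G m.2 ∧ HasValue (pos m) := by
  induction hm with
  | tgt h => exact hS _ h
  | step hi _ ih =>
    exact ⟨hi.fbase, hL.upper _ hi (fun m' hm' => (ih m' hm').1) fun m' hm' => (ih m' hm').2⟩

theorem Lay.not_valLE {G : FGeo} {L : Type} {M : L → Md L} {pos : L × Far → Pos}
    (hL : Lay G M pos) {b : L × Far} {β : Ordinal.{0}} (hb : GE (pos b) β) {m : L × Far}
    (hm : MForce G M b m) : ¬ ValLE (pos m) β := by
  induction hm with
  | one hi h => exact hL.lower _ _ _ hi h hb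
  | step hi h _ ih => exact hL.lower _ _ _ hi h fun α hα hv => ih (hv.mono hα.le)

/-- The control part starts with far pieces at home. -/
theorem minv_rep {G : FGeo} (h : G.Ok) {Q L : Type} {P : Q → Instr Q} {M : L → Md L} {ent : Q → L}
    (hI : FImpl P M ent) (c : Q × Store) : MInv G M (rep G ent c) := by
  obtain ⟨q, s⟩ := c
  obtain ⟨h1, h2, h3, h4⟩ := base_farOf h (lvl s) (hb_ok (G := G) _)
  rcases hP : P q with ⟨i, j⟩ | ⟨i, j, k⟩ | j | _
  · have hh := hI.inc q i j hP
    have hw : ∃ w l, M (ent q) = Md.call Svc.E l ∧ Seq M l w (ent j) := by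
      cases hq : qn i <;> rw [hq] at hh <;> obtain ⟨l, e1, e2⟩ := hh <;> exact ⟨_, l, e1, e2⟩
    obtain ⟨-, l, e1, -⟩ := hw
    unfold MInv
    simp only [rep, e1]
    refine (mid_farOf h (qn i) _ (hb_ok (G := G) (lvl s))).inv_win h rfl (fun _ _ => nofun) ?_
    have e2 := base_le h (qn i) (lvl s (qn i))
    have e3 := h.hT (qn i)
    have e4 := h.hy Svc.N
    have e5 := h.he Svc.N
    have e6 := j_ge h (qn i)
    simp only [farOf, FGeo.line]
    omega
  · obtain ⟨l1, l2, e1, -, -⟩ := hI.dec q i j k hP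
    exact minv_choice h _ (hb_ok _) e1
  · obtain ⟨l0, l1, l2, e1, -⟩ := hI.cho q j hP
    obtain ⟨l, e2, -⟩ := e1
    unfold MInv
    simp only [rep, e2]
    refine (mid_farOf h Qn.C _ (hb_ok (G := G) (lvl s))).inv_win h rfl (fun _ _ => nofun) ?_
    have e6 := h.hjC
    simp only [farOf, FGeo.line]
    omega
  · have e1 := hI.hal q hP
    unfold MInv
    simp only [rep, e1]
    exact ⟨h1, h2, h3, h4, hb_ok _⟩

theorem simulation_of_lay {G : FGeo} (h : G.Ok) {Q L : Type} {P : Q → Instr Q} {M : L → Md L}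
    {ent : Q → L} (hI : FImpl P M ent) {pos : L × Far → Pos} (hL : Lay G M pos) :
    Simulation P (fun c p => p = pos (rep G ent c)) where
  finite := by
    rintro c p rfl
    exact hL.fin _ (minv_rep h hI c)
  upper := by
    rintro c p rfl hc
    refine (hL.hasValue ?_ (micro_upper h hI c)).2
    rintro m ⟨c', hs, rfl⟩
    exact ⟨(minv_rep h hI c').fbase, hc c' _ hs rfl⟩
  lower := by
    rintro c c' p β rfl hs hp
    exact hL.not_valLE (hp _ rfl) (micro_lower h hI hs)

/-- **Reduction to layouts.** -/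
theorem omegaOne_of_layout
    (h : ∀ (L : Type) (_ : Finite L) (M : L → Md L), ∃ (G : FGeo) (_ : G.Ok) (pos : L × Far → Pos),
      Lay G M pos) : omegaOneChess = omegaOneCK := by
  refine omegaOne_of_simulation fun Q hQ P => ?_
  obtain ⟨L, hL, M, ent, hI⟩ := exists_fimpl P
  obtain ⟨G, hG, pos, hpos⟩ := h L hL M
  exact ⟨_, simulation_of_lay hG hI hpos, fun q N => ⟨_, rfl⟩⟩

/-- A layout from facts about the modules. -/
theorem lay_of {G : FGeo} {L : Type} {M : L → Md L} {pos : L → Far → Pos}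
    (fin : ∀ l F s j, M l = Md.call s j → Inv G s F → FinitePos (pos l F))
    (fin' : ∀ l F, Adm G F → FinitePos (pos l F))
    (call_up : ∀ l F s j, M l = Md.call s j → Inv G s F → (∀ F', StepU G s F F' → FBase G F') →
      (∀ F', StepU G s F F' → HasValue (pos j F')) → HasValue (pos l F))
    (call_low : ∀ l F s j F' β, M l = Md.call s j → Inv G s F → StepL G s F F' →
      GE (pos j F') β → ¬ ValLE (pos l F) β)
    (choice_up : ∀ l F j k, M l = Md.choice j k → Adm G F → HasValue (pos j F) →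
      HasValue (pos k F) → HasValue (pos l F))
    (choice_low₁ : ∀ l F j k β, M l = Md.choice j k → Adm G F → GE (pos j F) β →
      ¬ ValLE (pos l F) β)
    (choice_low₂ : ∀ l F j k β, M l = Md.choice j k → Adm G F → GE (pos k F) β →
      ¬ ValLE (pos l F) β)
    (halt : ∀ l F, M l = Md.halt → Adm G F → HasValue (pos l F)) :
    Lay G M (fun m => pos m.1 m.2) where
  fin := by
    rintro ⟨l, F⟩ hi
    unfold MInv at hi
    rcases hm : M l with ⟨s, j⟩ | ⟨j, k⟩ | _
    · simp only [hm] at hi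
      exact fin l F s j hm hi
    · simp only [hm] at hi
      exact fin' l F hi
    · simp only [hm] at hi
      exact fin' l F hi
  upper := by
    rintro ⟨l, F⟩ hi hb h
    unfold MInv at hi
    unfold MStepU at h hb
    rcases hm : M l with ⟨s, j⟩ | ⟨j, k⟩ | _
    · simp only [hm] at hi h hb
      exact call_up l F s j hm hi (fun F' hF => hb (j, F') ⟨rfl, hF⟩)
        fun F' hF => h (j, F') ⟨rfl, hF⟩
    · simp only [hm] at hi h hb
      exact choice_up l F j k hm hi (h (j, F) ⟨rfl, Or.inl rfl⟩) (h (k, F) ⟨rfl, Or.inr rfl⟩)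
    · simp only [hm] at hi
      exact halt l F hm hi
  lower := by
    rintro ⟨l, F⟩ ⟨l', F'⟩ β hi h hG
    unfold MInv at hi
    unfold MStepL at h
    rcases hm : M l with ⟨s, j⟩ | ⟨j, k⟩ | _
    · simp only [hm] at hi h
      obtain ⟨rfl, h⟩ := h
      exact call_low l F s _ F' β hm hi h hG
    · simp only [hm] at hi h
      obtain ⟨rfl, rfl | rfl⟩ := h
      · exact choice_low₁ l _ _ _ β hm hi hG
      · exact choice_low₂ l _ _ _ β hm hi hG
    · simp only [hm] at h

end Pool.Agent.Lib.H32C
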