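import Pool.Agent.Lib.H32C.FarWin

/-!
# Rays with one event: general boards

The services `Out` and `Bin` have one ray per patch, with a far slider of code `k`.  Phase `0`: before the event, the
board outside of the patch is `Bf`; phase `1`: after the event, the board is `B`, and the far slider stands on `f`.
-/

set_option autoImplicit false

namespace Pool.Agent.Lib.H32C.Loc

/-- the board without the piece on `f` -/
def delB (B : Board) (f : Sq) : Board := fun s => if s = f then none else B s

/-- the context with one ray -/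
def cxG (t k : Nat) (O : Sq) (X Y e : Nat) (B : Board) (f : Sq) : Ctx :=
  ⟨orgP O X Y, B, [⟨e, t, k⟩], fun i => if i = e then f else (0, 0)⟩

/-- the `n`-th square beyond the mark -/
def rayG (t : Nat) (O : Sq) (X Y e : Nat) (n : ℕ) : Sq := sq (orgP O X Y) e + n • vec t

/-- contexts of phase `1` -/
def K1 (t k : Nat) (O : Sq) (X Y e : Nat) (B : Board) (f : Sq) (l : Nat) (C : Ctx) : Prop :=
  l = 0 ∧ C = cxG t k O X Y e (delB B f) f

/-- contexts of phase `0`; `W B f`: the board and the far slider after a possible event -/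
def K0 (t k : Nat) (O : Sq) (X Y e : Nat) (Bf : Board) (W : Board → Sq → Prop) (l : Nat) (C : Ctx) :
    Prop :=
  (l = 1 ∧ C = cxG t k O X Y e Bf (rayG t O X Y e 1)) ∨
    (l = 0 ∧ ∃ B f, W B f ∧ C = cxG t k O X Y e (delB B f) f)

/-- the rays of a patch -/
def rsK (t k e : Nat) : List Ray := cond (Nat.beq e 0) [] [⟨e, t, k⟩]

/-- the verification datum of an item -/
def WU.swK (t k : Nat) (u : WU) : SW :=
  cond (Nat.beq u.φ 0 && !Nat.beq u.e 0)
    ⟨u.X, u.Y, mkW u.X u.Y u.e 7, rsK t k u.e, PW, 1, u.tr,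
      [exW u.X u.Y u.e 8 u.x0, exW u.X u.Y u.e 7 u.x1]⟩
    ⟨u.X, u.Y, mkW u.X u.Y u.e 8, rsK t k u.e, PW, 0, u.tr, [exW u.X u.Y u.e 8 u.x0]⟩

/-- the check of an item with patch `p` and king on `κ` -/
noncomputable def wuOkK (H A t k : Nat) (S : List (List Pc)) (acc : List Mo) (u : WU) (p κ : Nat) :
    Bool :=
  noMk (nthP S u.i) && (Nat.ble u.φ 1 && (swOk H A S u.i (u.swK t k) p κ &&
    (allb (fun i => noMk (nthP S i) && membM i (cond (Nat.beq u.e 0) u.φ 1) acc) u.x0 &&
      allb (fun i => noMk (nthP S i) && membM i u.φ acc) u.x1)))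

/-- the check of a list of items -/
noncomputable def grpKU (H A t k : Nat) (S : List (List Pc)) (acc : List Mo) (L : List WU) : Bool :=
  List.rec true (fun u L' ih => wuOkK H A t k S (keysWU L' acc) u
    (patW A S u.X u.Y u.i (u.swK t k).M) (kOf u.X u.Y (nthP S u.i)) && ih) L

/-- the verification datum of an item of a lower bound -/
def WL.swK (t k : Nat) (u : WL) : SW :=
  ⟨u.X, u.Y, mkW u.X u.Y u.e (cond (Nat.beq u.φ 0) 7 8), rsK t k u.e, PW, Nat.sub 1 u.φ, Tr.nil, []⟩

/-- the check of an item of the lower bound with patch `p` and king on `κ` -/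
def wlOkK (H A t k z : Nat) (S : List (List Pc)) (acc : List Mo) (u : WL) (p κ : Nat) : Bool :=
  ands [noMk (nthP S u.i), Nat.ble u.φ 1, noMk (nthP S u.j₁), noMk (nthP S u.j₂),
    cond (Nat.beq u.kd 0)
      (mainW H A S u.i (u.swK t k) p κ u.a u.b u.s u.k₁ u.j₁ u.mk' && membM u.j₁ u.φ acc)
      (cond (Nat.beq u.kd 1) (mateW H A S u.i (u.swK t k) p κ u.a u.b u.s)
        (cond (Nat.beq u.kd 2)
          (mainW2 H A S u.i (u.swK t k) p κ u.a u.b u.s u.k₁ u.j₁ u.k₂ u.j₂ u.mk' &&
            (membM u.j₁ u.φ acc && membM u.j₂ u.φ acc))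
          (ands [Nat.beq u.φ 0, !Nat.beq u.e 0,
            eventW H A S u.i (u.swK t k) p κ u.e t u.k₁ u.j₁ (mkW u.X u.Y u.e 8),
            allb (fun q => Nat.ble 9 q.c || Nat.beq q.c 6) (nthP S u.i),
            Nat.beq (kA (nthP S u.i)) z, membM u.j₁ 1 acc])))]

/-- the check of a list of items -/
def grpKL (H A t k z : Nat) (S : List (List Pc)) (acc : List Mo) (L : List WL) : Bool :=
  List.rec true (fun u L' ih => wlOkK H A t k z S (keysWL L' acc) u
    (patW A S u.X u.Y u.i (u.swK t k).M) (kOf u.X u.Y (nthP S u.i)) && ih) L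

/-- the position of a state -/
def PB (S : List (List Pc)) (O : Sq) (B : Board) (i : Nat) : Pos := ⟨stB B O (nthP S i), false⟩

/-- conditions on a board outside of a (composite) tile -/
structure BdOk (H A : Nat) (O : Sq) (R : Room) (B : Board) : Prop where
  fits : FitsH H A O B
  reg : ∀ s ∈ TileRegH H O, s ∉ R.Z
  G : R.G B

/-- conditions on the far slider -/
structure FsOk (H k : Nat) (O : Sq) (B : Board) (f : Sq) : Prop where
  occ : B f = dec k
  k : 9 ≤ k ∧ k ≤ 13
  /-- the far slider does not stand on a square of the array -/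
  out : ∀ x y : Nat, x < 80 → y < H → f ≠ tsq O x y

end Pool.Agent.Lib.H32C.Loc
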