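import Pool.Agent.Lib.H32C.FarWordL

/-!
# The far pieces on the board

The board consists of a static board `B0`, the floating pawns, the far queens of a set `A` and the far
bishop (if `bp`).  `FarWorld` contains the facts about the static board which are needed to show that the far
queens are the only pieces which can arrive on the ray of a window.
-/

set_option autoImplicit false

namespace Pool.Agent.Lib.H32C

open Classical in
/-- The board with the static content `B0`, the floating pawns, the far queens in the set `A` and the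
far bishop (if `bp`). -/
noncomputable def farB (G : FGeo) (B0 : Board) (F : Far) (A : Qn → Prop) (bp : Prop) : Board := fun s =>
  if ∃ q, A q ∧ s = F.q q then some (false, Kind.queen)
  else if bp ∧ s = F.b then some (false, Kind.bishop)
  else if G.floater s then some (false, Kind.pawn)
  else B0 s

/-- the board with all far pieces -/
noncomputable def fullB (G : FGeo) (B0 : Board) (F : Far) : Board :=
  farB G B0 F (fun _ => True) True

/-- A White piece of kind `κ` on `a` cannot reach `t`: not by a knight jump, a pawn step or a pawn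
capture far away, and its lines to `t` are blocked outside of the region `R`. -/
def WStop (G : FGeo) (B0 : Board) (R : Set Sq) (κ : Kind) (a t : Sq) : Prop :=
  match κ with
  | Kind.king => False
  | Kind.knight => t - a ∉ knightJumps
  | Kind.pawn => t - a ≠ (0, 1) ∧ (G.Outside t ∨ G.floater t → t - a ≠ (1, 1) ∧ t - a ≠ (-1, 1))
  | Kind.queen => (OrthI a t ∨ DiagI a t) → ∃ c, BetwI a t c ∧ c ∉ R ∧ B0 c ≠ none
  | Kind.rook => OrthI a t → ∃ c, BetwI a t c ∧ c ∉ R ∧ B0 c ≠ none
  | Kind.bishop => DiagI a t → ∃ c, BetwI a t c ∧ c ∉ R ∧ B0 c ≠ none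

/-- Facts about the static board. -/
structure FarWorld (G : FGeo) (B0 : Board) : Prop where
  fin : {s | B0 s ≠ none}.Finite
  /-- the zone of the tours is free -/
  zone : ∀ c, G.Zone c → B0 c = none
  /-- nothing above the hull -/
  top : ∀ c, G.T < c.2 → B0 c = none

/-- Facts about the static board and the region `P` in which the local verification for a position near
the special square of the service `s` takes place. -/
structure FarPatch (G : FGeo) (B0 : Board) (s : Svc) (P : Set Sq) : Prop where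
  /-- the ray is free -/
  line : ∀ c, G.line s c → c ∉ P → B0 c = none
  /-- the region lies in the hull -/
  hull : ∀ c ∈ P, c.2 ≤ G.T ∧ ¬ G.Zone c
  /-- the home of the bishop is not in the region of a window or touch -/
  home : ∀ c, G.line s c → G.hb ∉ P
  /-- static Black queens and rooks outside of the region cannot reach the ray -/
  closed : ∀ t, G.line s t → t ∉ P → ∀ a κ, a ∉ P → B0 a = some (false, κ) →
    (κ = Kind.queen ∨ κ = Kind.rook) → ¬ G.axis s a → (OrthI a t ∨ (κ = Kind.queen ∧ DiagI a t)) →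
    ∃ c, BetwI a t c ∧ c ∉ P ∧ B0 c ≠ none
  /-- static White pieces outside of the region cannot reach the ray -/
  white : ∀ t, G.line s t → t ∉ P → ∀ a κ, a ∉ P → B0 a = some (true, κ) → WStop G B0 P κ a t

variable {G : FGeo} {B0 : Board}

theorem farB_queen {F : Far} {A : Qn → Prop} {bp : Prop} {q : Qn} (hq : A q) :
    farB G B0 F A bp (F.q q) = some (false, Kind.queen) := by
  unfold farB
  rw [if_pos ⟨q, hq, rfl⟩]

theorem farB_none {F : Far} {A : Qn → Prop} {bp : Prop} {c : Sq} :
    farB G B0 F A bp c = none ↔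
      (¬ ∃ q, A q ∧ c = F.q q) ∧ ¬ (bp ∧ c = F.b) ∧ ¬ G.floater c ∧ B0 c = none := by
  unfold farB
  split_ifs with h1 h2 h3
  · simp only [reduceCtorEq, false_iff]; exact fun h => h.1 h1
  · simp only [reduceCtorEq, false_iff]; exact fun h => h.2.1 h2
  · simp only [reduceCtorEq, false_iff]; exact fun h => h.2.2.1 h3
  · exact ⟨fun h => ⟨h1, h2, h3, h⟩, fun h => h.2.2.2⟩

theorem fullB_none {F : Far} {c : Sq} :
    fullB G B0 F c = none ↔ ¬ Occ G F c ∧ B0 c = none := by
  unfold fullB
  rw [farB_none]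
  unfold Occ
  simp only [true_and]
  tauto

/-- the kinds of pieces on `farB` -/
theorem farB_slider {F : Far} {A : Qn → Prop} {bp : Prop} {a : Sq} {κ : Kind}
    (h : farB G B0 F A bp a = some (false, κ)) (hκ : κ = Kind.queen ∨ κ = Kind.rook) :
    (∃ q, A q ∧ a = F.q q) ∨ B0 a = some (false, κ) := by
  unfold farB at h
  split_ifs at h with h1 h2 h3
  · exact Or.inl h1
  · simp only [Option.some.injEq, Prod.mk.injEq, true_and] at h
    rcases hκ with rfl | rfl <;> exact absurd h (by decide)
  · simp only [Option.some.injEq, Prod.mk.injEq, true_and] at h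
    rcases hκ with rfl | rfl <;> exact absurd h (by decide)
  · exact Or.inr h

theorem outside_free (hW : FarWorld G B0) {c : Sq} (hc : G.Outside c) :
    B0 c = none := by
  rcases hc with hc | hc | hc
  · exact hW.zone c (Or.inl hc)
  · exact hW.zone c (Or.inr (Or.inl hc))
  · exact hW.top c (by omega)

theorem outside_notP {s : Svc} {P : Set Sq} (hPt : FarPatch G B0 s P) {c : Sq}
    (hc : G.Outside c) : c ∉ P := by
  intro hP
  obtain ⟨h1, h2⟩ := hPt.hull c hP
  rcases hc with hc | hc | hc
  · exact h2 (Or.inl hc)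
  · exact h2 (Or.inr (Or.inl hc))
  · omega

theorem floater_above (h : G.Ok) {c : Sq} (hc : G.floater c) : G.T + 3 ≤ c.2 := by
  obtain ⟨q, hq⟩ := hc
  have := h.hT q
  rcases hq with hq | hq | hq | hq <;> rw [hq] <;> simp only <;> omega

theorem out_zone (h : G.Ok) {t : ℕ} (ht : 0 < t) : G.Zone (G.out t) := by
  left
  have := h.heD
  simp only [FGeo.out]
  omega

/-- the region of a service is free of far pieces -/
theorem notOcc_P (h : G.Ok) {s : Svc} {P : Set Sq} (hPt : FarPatch G B0 s P) {F : Far}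
    (ho : ∀ q, G.Outside (F.q q)) (hb : BOk G F) {t : Sq} (ht : G.line s t) {c : Sq}
    (hc : c ∈ P) : ¬ Occ G F c := by
  rintro (h1 | h1 | ⟨q, h1⟩)
  · have := floater_above h h1
    have := (hPt.hull c hc).1
    omega
  · rcases hb with hb | ⟨n, hn, hb⟩
    · rw [hb] at h1
      rw [h1] at hc
      exact hPt.home t ht hc
    · rw [hb] at h1
      rw [h1] at hc
      exact (hPt.hull _ hc).2 (out_zone h hn)
  · rw [h1] at hc
    exact outside_notP hPt (ho q) hc

theorem canGo_slider {B : Board} {a t : Sq} {κ : Kind} (hk : B a = some (false, κ))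
    (hκ : κ = Kind.queen ∨ κ = Kind.rook) (hgo : CanGo B false a t) :
    (OrthI a t ∨ (κ = Kind.queen ∧ DiagI a t)) ∧ (∀ c, BetwI a t c → B c = none) ∧
      ∀ m, B t = some m → m.1 = true ∧ m.2 ≠ Kind.king := by
  obtain ⟨m, hm, -, h⟩ := hgo
  rw [hk] at hm
  obtain rfl : (false, κ) = m := by simpa using hm
  have hatt : ManAttacks B (false, κ) a t := by
    rcases h with ⟨-, h⟩ | ⟨-, h⟩
    · rw [if_neg] at h
      · exact h
      · rcases hκ with rfl | rfl <;> decide
    · exact h
  have hline : (OrthI a t ∨ (κ = Kind.queen ∧ DiagI a t)) ∧ ∀ c, BetwI a t c → B c = none := by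
    rcases hκ with rfl | rfl
    · have := (slides_all B a t).1 hatt
      exact ⟨this.1.imp id fun h => ⟨rfl, h⟩, this.2⟩
    · have := (slides_orth B a t).1 hatt
      exact ⟨Or.inl this.1, this.2⟩
  refine ⟨hline.1, hline.2, fun m hm => ?_⟩
  rcases h with ⟨h, -⟩ | ⟨⟨t', ht', h1, h2⟩, -⟩
  · rw [hm] at h; cases h
  · rw [hm] at ht'
    obtain rfl : m = t' := by simpa using ht'
    exact ⟨by simpa using h1, h2⟩

/-- the squares on the axis: on the ray, or on the other side of the king -/
theorem axis_cases {s : Svc} {κ t a : Sq} (hκ : G.axis s κ) (hκl : ¬ G.line s κ)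
    (ht : G.line s t) (ha : G.axis s a) (hne : a ≠ κ) :
    G.line s a ∨ BetwI a t κ ∨ BetwI κ t a := by
  obtain ⟨κ1, κ2⟩ := κ
  obtain ⟨t1, t2⟩ := t
  obtain ⟨a1, a2⟩ := a
  have hne' : a1 = κ1 → a2 ≠ κ2 := fun h1 h2 => hne (by rw [h1, h2])
  cases s <;> simp only [FGeo.axis, FGeo.line, BetwI, OrthI] at * <;> omega

/-- **Arrivals on the ray of a window.**  `B` is a board which agrees with the board of the far pieces
outside of the region `P`; the White king stands on `κ` on the axis, and everything between it and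
the target `t` on the ray is empty.  Then a queen or rook arriving on `t` from outside the region is a
far queen. -/
theorem arrive {s : Svc} {P : Set Sq} (hPt : FarPatch G B0 s P) {F : Far}
    {A : Qn → Prop} {bp : Prop} {B : Board}
    (hB : ∀ c, c ∉ P → B c = farB G B0 F A bp c) {κ t a : Sq}
    (hκ : B κ = some (true, Kind.king)) (hκa : G.axis s κ) (hκl : ¬ G.line s κ) (hfree : ∀ c, BetwI κ t c → B c = none)
    (ht : G.line s t) (htP : t ∉ P) (haP : a ∉ P) {k : Kind} (hk : B a = some (false, k))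
    (hk2 : k = Kind.queen ∨ k = Kind.rook) (hgo : CanGo B false a t) :
    ∃ q, A q ∧ a = F.q q := by
  obtain ⟨h1, h2, h3⟩ := canGo_slider hk hk2 hgo
  have hk' := hk
  rw [hB a haP] at hk'
  rcases farB_slider hk' hk2 with hq | hs
  · exact hq
  exfalso
  by_cases hax : G.axis s a
  · have hne : a ≠ κ := by
      rintro rfl
      rw [hk] at hκ
      simp at hκ
    rcases axis_cases hκa hκl ht hax hne with h4 | h4 | h4
    · rw [hPt.line a h4 haP] at hs
      cases hs
    · rw [h2 κ h4] at hκ
      cases hκ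
    · rw [hfree a h4] at hk
      cases hk
  · obtain ⟨c, hc1, hc2, hc3⟩ := hPt.closed t ht htP a k haP hs hk2 hax h1
    have h5 := h2 c hc1
    rw [hB c hc2, farB_none] at h5
    exact hc3 h5.2.2.2

theorem occ_fullB {F : Far} {c : Sq} (hc : Occ G F c) : ∃ κ, fullB G B0 F c = some (false, κ) := by
  unfold fullB farB
  split_ifs with h1 h2 h3
  · exact ⟨_, rfl⟩
  · exact ⟨_, rfl⟩
  · exact ⟨_, rfl⟩
  · exfalso
    rcases hc with hc | hc | ⟨q, hc⟩
    · exact h3 hc
    · exact h2 ⟨trivial, hc⟩
    · exact h1 ⟨q, trivial, hc⟩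

theorem line_of_ray {s : Svc} {t : Sq} (ht : G.ray s t) : G.line s t := by
  cases s <;> simp only [FGeo.ray, FGeo.line] at * <;>
    first | exact ht | exact ⟨ht.1, ht.2.1⟩ | exact ht.elim

/-- the parts of the invariant which all services have -/
theorem Inv.base {s : Svc} {F : Far} (hI : Inv G s F) :
    (∀ q r, q ≠ r → F.q q ≠ F.q r) ∧ (∀ q, F.q q ≠ F.b) ∧ (∀ q, G.Outside (F.q q)) ∧
      (∀ q, ¬ G.floater (F.q q)) := ⟨hI.1, hI.2.1, hI.2.2.1, hI.2.2.2.1⟩

theorem Inv.win {s : Svc} (hw : s.win = true) {F : Far} (hI : Inv G s F) :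
    BOk G F ∧ ∀ q, ¬ G.line s (F.q q) := by
  have := hI.2.2.2.2
  cases s <;> first | exact this | exact absurd hw (by simp [Svc.win])

/-- the roof closes the ray of the zero test; all other rays are infinite -/
theorem line_cases {s : Svc} (hw : s.win = true) {t : Sq} (ht : G.line s t) :
    G.ray s t ∨ ∃ q, s = Svc.Z q ∧ t.1 = G.col q - G.j q ∧ G.base q - G.j q < t.2 := by
  cases s <;> simp only [FGeo.ray, FGeo.line] at *
  case Z q =>
    by_cases h : t.2 ≤ G.base q - G.j q
    · exact Or.inl ⟨ht.1, ht.2, h⟩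
    · exact Or.inr ⟨q, rfl, ht.1, by omega⟩
  all_goals first | exact Or.inl ht | exact absurd hw (by simp [Svc.win])

/-- the roof of a zero ray -/
def FGeo.roof (G : FGeo) (q : Qn) : Sq := (G.col q - G.j q, G.base q - G.j q + 1)

theorem floater_roof (q : Qn) : G.floater (G.roof q) := ⟨q, Or.inr (Or.inr (Or.inr rfl))⟩

/-- **Arrivals on the ray of a window, upper bound.** -/
theorem arrive_farU (h : G.Ok) {s : Svc} {P : Set Sq} (hPt : FarPatch G B0 s P)
    (hw : s.win = true) {F : Far} (hI : Inv G s F) {B : Board}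
    (hB : ∀ c, c ∉ P → B c = fullB G B0 F c) {κ t a : Sq}
    (hκ : B κ = some (true, Kind.king)) (hκa : G.axis s κ) (hκl : ¬ G.line s κ)
    (hκT : κ.2 ≤ G.T)
    (hfree : ∀ c, BetwI κ t c → B c = none) (ht : G.line s t) (htP : t ∉ P) (haP : a ∉ P)
    {k : Kind} (hk : B a = some (false, k)) (hk2 : k = Kind.queen ∨ k = Kind.rook)
    (hgo : CanGo B false a t) : ∃ q, a = F.q q ∧ G.ray s t ∧ FarU G F (F.q q) t := by
  obtain ⟨q, -, rfl⟩ := arrive hPt hB hκ hκa hκl hfree ht htP haP hk hk2 hgo
  obtain ⟨hb, hn⟩ := Inv.win hw hI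
  obtain ⟨h1, h2, h3⟩ := canGo_slider hk hk2 hgo
  have hto : ¬ Occ G F t := by
    intro ho
    obtain ⟨k', hk'⟩ := occ_fullB (B0 := B0) ho
    rw [← hB t htP] at hk'
    have := (h3 _ hk').1
    simp at this
  have hfo : ∀ c, BetwI (F.q q) t c → ¬ Occ G F c := by
    intro c hc
    by_cases hcP : c ∈ P
    · exact notOcc_P h hPt hI.base.2.2.1 hb ht hcP
    · have := h2 c hc
      rw [hB c hcP, fullB_none] at this
      exact this.1
  refine ⟨q, rfl, ?_, h1.imp id fun h => h.2, hfo, hto⟩
  rcases line_cases hw ht with hr | ⟨r, rfl, e1, e2⟩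
  · exact hr
  · exfalso
    have hroof := floater_roof (G := G) r
    have hTr := floater_above h hroof
    have hrP : G.roof r ∉ P := fun hm => by
      have := (hPt.hull _ hm).1
      omega
    have hκ1 : κ.1 = G.col r - G.j r := hκa
    rcases eq_or_lt_of_le (show G.base r - G.j r + 1 ≤ t.2 by omega) with h5 | h5
    · refine hto (Or.inl ?_)
      have : t = G.roof r := Prod.ext e1 h5.symm
      rw [this]; exact hroof
    · have hbet : BetwI κ t (G.roof r) := by
        obtain ⟨κ1, κ2⟩ := κ
        obtain ⟨t1, t2⟩ := t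
        simp only [BetwI, OrthI, FGeo.roof] at *
        omega
      have := hfree _ hbet
      rw [hB _ hrP, fullB_none] at this
      exact this.1 (Or.inl hroof)

theorem floater_col {t : Sq} (hf : G.floater t) : ∃ r, G.col r - G.j r - 1 ≤ t.1 ∧
    t.1 ≤ G.col r - G.j r + 1 ∧ (t.1 = G.col r - G.j r → G.base r - G.j r < t.2) := by
  obtain ⟨r, hq | hq | hq | hq⟩ := hf <;> refine ⟨r, ?_⟩ <;> rw [hq] <;> simp only <;> omega

/-- the files of the lines are away from the floaters -/
theorem file_not_floater (h : G.Ok) {x : ℤ}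
    (hx : x = G.xN ∨ x = G.x1 ∨ x = G.x2 ∨ ∃ q, x = G.col q) (r : Qn)
    (h1 : G.col r - G.j r - 1 ≤ x) (h2 : x ≤ G.col r - G.j r + 1) : False := by
  obtain ⟨a1, a2, a3, a4, a5, a6, a7, a8, a9, a10, a11⟩ := h.all
  rcases hx with rfl | rfl | rfl | ⟨q, rfl⟩
  · cases r <;> omega
  · cases r <;> omega
  · cases r <;> omega
  · cases q <;> cases r <;> omega

/-- a square of a line is no floater, except beyond the roof -/
theorem line_not_floater (h : G.Ok) {s : Svc} {t : Sq} (ht : G.line s t)
    (hz : ∀ q, s = Svc.Z q → t.2 ≤ G.base q - G.j q) : ¬ G.floater t := by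
  intro hf
  have hT := floater_above h hf
  obtain ⟨r, k1, k2, k3⟩ := floater_col hf
  have e1 := h.he Svc.N
  have e2 := h.hw Svc.N
  have e3 := h.hy Svc.N
  cases s with
  | E => have := ht.1; omega
  | W => have := ht.1; omega
  | N => rw [ht.1] at k1 k2; exact file_not_floater h (Or.inl rfl) r k1 k2
  | N1 => rw [ht.1] at k1 k2; exact file_not_floater h (Or.inr (Or.inl rfl)) r k1 k2
  | N2 => rw [ht.1] at k1 k2; exact file_not_floater h (Or.inr (Or.inr (Or.inl rfl))) r k1 k2
  | H q => rw [ht.1] at k1 k2; exact file_not_floater h (Or.inr (Or.inr (Or.inr ⟨q, rfl⟩))) r k1 k2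
  | T q => rw [ht.1] at k1 k2; exact file_not_floater h (Or.inr (Or.inr (Or.inr ⟨q, rfl⟩))) r k1 k2
  | Z q =>
    have hz' := hz q rfl
    have hx := ht.1
    obtain ⟨a1, a2, a3, a4, a5, a6, a7, a8, a9, a10, a11⟩ := h.all
    cases q <;> cases r <;> omega
  | Out => exact ht
  | Bin => exact ht
  | Tb => exact ht

/-- the lines are free -/
theorem line_free (h : G.Ok) {s : Svc} {P : Set Sq} (hPt : FarPatch G B0 s P) {F : Far}
    {A : Qn → Prop} {bp : Prop} {t : Sq} (ht : G.line s t) (htP : t ∉ P)
    (hz : ∀ q, s = Svc.Z q → t.2 ≤ G.base q - G.j q) (hA : ∀ q, A q → ¬ G.line s (F.q q))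
    (hb : BOk G F) : farB G B0 F A bp t = none := by
  rw [farB_none]
  refine ⟨?_, ?_, line_not_floater h ht hz, hPt.line t ht htP⟩
  · rintro ⟨q, hq, rfl⟩
    exact hA q hq ht
  · rintro ⟨-, rfl⟩
    have h1 := hb.ge
    have h2 := hb.dif
    have h3 := h.heD
    obtain ⟨a1, a2, a3, a4, a5, a6, a7, a8, a9, a10, a11⟩ := h.all
    have h4 := col_lt_xD h
    have e1 := h.he Svc.N
    cases s with
    | E => have := ht.1; omega
    | W => have := ht.2; omega
    | N => have := ht.1; omega
    | N1 => have := ht.1; omega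
    | N2 => have := ht.1; omega
    | H q => have := ht.1; have := h4 q; omega
    | T q => have := ht.1; have := h4 q; omega
    | Z q => have := ht.1; have := h4 q; have := j_ge h q; omega
    | Out => exact ht
    | Bin => exact ht
    | Tb => exact ht

theorem farB_white {F : Far} {A : Qn → Prop} {bp : Prop} {a : Sq} {κ : Kind}
    (h : farB G B0 F A bp a = some (true, κ)) : B0 a = some (true, κ) := by
  unfold farB at h
  split_ifs at h with h1 h2 h3
  · simp at h
  · simp at h
  · simp at h
  · exact h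

/-- the bishop is not on a line -/
theorem b_not_line (h : G.Ok) {s : Svc} {F : Far} (hb : BOk G F) : ¬ G.line s F.b := by
  intro ht
  have h1 := hb.ge
  have h2 := hb.dif
  have h3 := h.heD
  obtain ⟨a1, a2, a3, a4, a5, a6, a7, a8, a9, a10, a11⟩ := h.all
  have h4 := col_lt_xD h
  have e1 := h.he Svc.N
  cases s with
  | E => have := ht.1; omega
  | W => have := ht.2; omega
  | N => have := ht.1; omega
  | N1 => have := ht.1; omega
  | N2 => have := ht.1; omega
  | H q => have := ht.1; have := h4 q; omega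
  | T q => have := ht.1; have := h4 q; omega
  | Z q => have := ht.1; have := h4 q; have := j_ge h q; omega
  | Out => exact ht
  | Bin => exact ht
  | Tb => exact ht

/-- **White pieces from outside of the region cannot go to the ray.** -/
theorem white_clear (h : G.Ok) {s : Svc} {P : Set Sq} (hPt : FarPatch G B0 s P) {F : Far}
    {A : Qn → Prop} {bp : Prop} (hA : ∀ q, A q → G.Outside (F.q q)) (hb : BOk G F) {B : Board}
    (hB : ∀ c, c ∉ P → B c = farB G B0 F A bp c) {t a : Sq} (ht : G.line s t) (htP : t ∉ P)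
    (haP : a ∉ P) : ¬ CanGo B true a t := by
  rintro ⟨⟨c, κ⟩, hm, hc, hgo⟩
  simp only at hc
  subst hc
  rw [hB a haP] at hm
  have hst := hPt.white t ht htP a κ haP (farB_white hm)
  have hatt : ∀ {l : List Sq}, (∀ c, BetwI a t c → B c = none) →
      (∃ c, BetwI a t c ∧ c ∉ P ∧ B0 c ≠ none) → False := by
    rintro - h1 ⟨c, h2, h3, h4⟩
    have h5 := h1 c h2
    rw [hB c h3, farB_none] at h5
    exact h4 h5.2.2.2
  cases κ with
  | king => exact hst
  | knight =>
    rcases hgo with ⟨-, hgo⟩ | ⟨-, hgo⟩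
    · rw [if_neg (by decide)] at hgo; exact hst hgo
    · exact hst hgo
  | pawn =>
    rcases hgo with ⟨-, hgo⟩ | ⟨⟨m, hm1, hm2, -⟩, hgo⟩
    · rw [if_pos rfl] at hgo
      exact hst.1 hgo
    · have ho : G.Outside t ∨ G.floater t := by
        rw [hB t htP] at hm1
        unfold farB at hm1
        split_ifs at hm1 with h1 h2 h3
        · obtain ⟨q, hq, rfl⟩ := h1
          exact Or.inl (hA q hq)
        · rw [h2.2] at ht
          exact absurd ht (b_not_line h hb)
        · exact Or.inr h3
        · rw [hPt.line t ht htP] at hm1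
          cases hm1
      rcases hgo with hgo | hgo
      · exact (hst.2 ho).1 hgo
      · exact (hst.2 ho).2 hgo
  | queen =>
    have hgo' : Slides B (orthDirs ++ diagDirs) a t := by
      rcases hgo with ⟨-, hgo⟩ | ⟨-, hgo⟩
      · rw [if_neg (by decide)] at hgo; exact hgo
      · exact hgo
    rw [slides_all] at hgo'
    exact hatt (l := []) hgo'.2 (hst hgo'.1)
  | rook =>
    have hgo' : Slides B orthDirs a t := by
      rcases hgo with ⟨-, hgo⟩ | ⟨-, hgo⟩
      · rw [if_neg (by decide)] at hgo; exact hgo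
      · exact hgo
    rw [slides_orth] at hgo'
    exact hatt (l := []) hgo'.2 (hst hgo'.1)
  | bishop =>
    have hgo' : Slides B diagDirs a t := by
      rcases hgo with ⟨-, hgo⟩ | ⟨-, hgo⟩
      · rw [if_neg (by decide)] at hgo; exact hgo
      · exact hgo
    rw [slides_diag] at hgo'
    exact hatt (l := []) hgo'.2 (hst hgo'.1)

theorem zone_not_floater (h : G.Ok) {c : Sq} (hc : G.Zone c) : ¬ G.floater c := by
  rcases hc with hc | hc | ⟨q, h1, h2, h3⟩
  · exact flE h hc.2
  · exact flW h hc.2
  · intro hf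
    obtain ⟨a1, a2, a3, a4, a5, a6, a7, a8, a9, a10, a11⟩ := h.all
    obtain ⟨r, hq⟩ := hf
    have hb1 : ∀ q, G.base q = G.X0 + (match q with | Qn.A => 1 | Qn.B => 3 | Qn.C => 0) - G.col q := by
      intro q; cases q <;> simp only [FGeo.base] <;> omega
    rcases hq with hq | hq | hq | hq <;> rw [hq] at h1 h2 h3 <;> simp only at h1 h2 h3 <;>
      cases q <;> cases r <;> simp only [FGeo.base] at h3 <;> omega

theorem zone_notP {s : Svc} {P : Set Sq} (hPt : FarPatch G B0 s P) {c : Sq} (hc : G.Zone c) :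
    c ∉ P := fun hP => (hPt.hull c hP).2 hc

/-- **Arrivals on the ray of a window, lower bound.** -/
theorem canGo_far (h : G.Ok) (hW : FarWorld G B0) {s : Svc} {P : Set Sq}
    (hPt : FarPatch G B0 s P)
    {F : Far} {A : Qn → Prop} {bp : Prop} {B : Board}
    (hB : ∀ c, c ∉ P → B c = farB G B0 F A bp c) {q : Qn} (hq : A q)
    (hqo : G.Outside (F.q q)) {t : Sq} (hf : FarL G F q t) (hto : G.Outside t)
    (htf : ¬ G.floater t) :
    B (F.q q) = some (false, Kind.queen) ∧ B t = none ∧
      ManAttacks B (false, Kind.queen) (F.q q) t ∧ CanGo B false (F.q q) t := by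
  obtain ⟨h1, h2, h3, h4⟩ := hf
  have hmid : ∀ c, BetwI (F.q q) t c → B c = none := by
    intro c hc
    obtain ⟨hz, hcb⟩ := h2 c hc
    rw [hB c (zone_notP hPt hz), farB_none]
    refine ⟨?_, fun hh => hcb hh.2, zone_not_floater h hz, hW.zone c hz⟩
    rintro ⟨r, -, hr⟩
    by_cases hrq : r = q
    · subst hrq
      exact hc.1 ⟨by rw [hr], by rw [hr]⟩
    · exact (h4 r hrq).2 c hc hr
  have hne : t ≠ F.q q := by
    rintro rfl
    rcases h1 with h1 | h1
    · rcases h1 with h1 | h1
      · exact h1.2 rfl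
      · exact h1.1 rfl
    · exact h1.2 rfl
  have hBt : B t = none := by
    rw [hB t (outside_notP hPt hto), farB_none]
    refine ⟨?_, fun hh => h3 hh.2, htf, outside_free hW hto⟩
    rintro ⟨r, -, hr⟩
    by_cases hrq : r = q
    · subst hrq; exact hne hr
    · exact (h4 r hrq).1 hr
  have hBq : B (F.q q) = some (false, Kind.queen) := by
    rw [hB _ (outside_notP hPt hqo)]
    exact farB_queen hq
  have hatt : ManAttacks B (false, Kind.queen) (F.q q) t := (slides_all B _ _).2 ⟨h1, hmid⟩
  refine ⟨hBq, hBt, hatt, ⟨(false, Kind.queen), hBq, rfl, Or.inl ⟨hBt, ?_⟩⟩⟩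
  rw [if_neg (by decide)]
  exact hatt

/-- the board without the queen `q` -/
theorem farB_remove {F : Far} {A : Qn → Prop} {bp : Prop} {q : Qn}
    (hd : ∀ r, r ≠ q → F.q r ≠ F.q q) (hb : F.q q ≠ F.b) (hf : ¬ G.floater (F.q q))
    (h0 : B0 (F.q q) = none) (s : Sq) :
    (if s = F.q q then none else farB G B0 F A bp s) =
      farB G B0 F (fun r => A r ∧ r ≠ q) bp s := by
  by_cases hs : s = F.q q
  · subst hs
    rw [if_pos rfl, eq_comm, farB_none]
    refine ⟨?_, fun hh => hb hh.2, hf, h0⟩
    rintro ⟨r, ⟨-, hr⟩, hr2⟩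
    exact hd r hr hr2.symm
  · rw [if_neg hs]
    unfold farB
    have : (∃ r, A r ∧ s = F.q r) ↔ ∃ r, (A r ∧ r ≠ q) ∧ s = F.q r := by
      constructor
      · rintro ⟨r, h1, h2⟩
        refine ⟨r, ⟨h1, ?_⟩, h2⟩
        rintro rfl
        exact hs h2
      · rintro ⟨r, ⟨h1, -⟩, h2⟩
        exact ⟨r, h1, h2⟩
    classical exact if_congr this rfl rfl

/-- the board with the queen `q` on `t` -/
theorem farB_insert {F : Far} {A : Qn → Prop} {bp : Prop} {q : Qn} (hq : A q) (t s : Sq) :
    farB G B0 (F.set q t) A bp s =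
      if s = t then some (false, Kind.queen) else farB G B0 F (fun r => A r ∧ r ≠ q) bp s := by
  by_cases hs : s = t
  · subst hs
    rw [if_pos rfl]
    unfold farB
    rw [if_pos ⟨q, hq, by rw [Far.set_q]⟩]
  · rw [if_neg hs]
    unfold farB
    have : (∃ r, A r ∧ s = (F.set q t).q r) ↔ ∃ r, (A r ∧ r ≠ q) ∧ s = F.q r := by
      constructor
      · rintro ⟨r, h1, h2⟩
        by_cases hr : r = q
        · subst hr
          rw [Far.set_q] at h2
          exact absurd h2 hs
        · rw [Far.set_ne _ _ hr] at h2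
          exact ⟨r, ⟨h1, hr⟩, h2⟩
      · rintro ⟨r, ⟨h1, hr⟩, h2⟩
        exact ⟨r, h1, by rw [Far.set_ne _ _ hr]; exact h2⟩
    classical exact if_congr this rfl rfl

/-- the board after the move of a far queen -/
theorem farB_move {F : Far} {A : Qn → Prop} {bp : Prop} {q : Qn} (hq : A q)
    (hd : ∀ r, r ≠ q → F.q r ≠ F.q q) (hb : F.q q ≠ F.b) (hf : ¬ G.floater (F.q q))
    (h0 : B0 (F.q q) = none) {t : Sq} (hne : t ≠ F.q q) :
    (farB G B0 F A bp).move (F.q q) t = farB G B0 (F.set q t) A bp := by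
  funext s
  rw [farB_insert hq, ← farB_remove hd hb hf h0]
  unfold Board.move
  rw [farB_queen hq]
  by_cases h1 : s = F.q q
  · subst h1
    rw [if_pos rfl, if_pos rfl, if_neg hne.symm]
  · rw [if_neg h1, if_neg h1]

theorem fullB_move {F : Far}
    (hd : ∀ q r, q ≠ r → F.q q ≠ F.q r) (q : Qn) (hb : F.q q ≠ F.b) (hf : ¬ G.floater (F.q q))
    (h0 : B0 (F.q q) = none) {t : Sq} (hne : t ≠ F.q q) :
    (fullB G B0 F).move (F.q q) t = fullB G B0 (F.set q t) :=
  farB_move trivial (fun r hr => hd r q hr) hb hf h0 hne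

/-- the board with all far pieces is finite -/
theorem farB_finite (hW : FarWorld G B0) (F : Far) (A : Qn → Prop)
    (bp : Prop) : {s | farB G B0 F A bp s ≠ none}.Finite := by
  have h1 : {s | farB G B0 F A bp s ≠ none} ⊆
      {s | B0 s ≠ none} ∪ ({F.q Qn.A, F.q Qn.B, F.q Qn.C, F.b} ∪
        ⋃ q ∈ ({Qn.A, Qn.B, Qn.C} : Set Qn), ({(G.col q - G.j q + 1, G.base q - G.j q),
          (G.col q - G.j q + 1, G.base q - G.j q - 1), (G.col q - G.j q - 1, G.base q - G.j q - 1),
          (G.col q - G.j q, G.base q - G.j q + 1)} : Set Sq)) := by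
    intro s hs
    have hs' : farB G B0 F A bp s ≠ none := hs
    rw [Ne, farB_none] at hs'
    by_cases h1 : B0 s = none
    · right
      by_cases h2 : s = F.q Qn.A ∨ s = F.q Qn.B ∨ s = F.q Qn.C ∨ s = F.b
      · left
        exact h2
      · right
        have h3 : G.floater s := by
          by_contra hf
          refine hs' ⟨?_, fun hh => h2 (Or.inr (Or.inr (Or.inr hh.2))), hf, h1⟩
          rintro ⟨q, -, hq⟩
          cases q
          · exact h2 (Or.inl hq)
          · exact h2 (Or.inr (Or.inl hq))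
          · exact h2 (Or.inr (Or.inr (Or.inl hq)))
        obtain ⟨q, hq⟩ := h3
        refine Set.mem_biUnion (x := q) ?_ hq
        cases q <;> simp
    · left; exact h1
  refine (hW.fin.union ((Set.toFinite _).union ?_)).subset h1
  exact Set.Finite.biUnion (Set.toFinite _) (fun q _ => Set.toFinite _)

end Pool.Agent.Lib.H32C
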