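import Pool.Agent.Lib.H32C.Far

/-!
# The legs of the tours of the far queens
-/

set_option autoImplicit false

namespace Pool.Agent.Lib.H32C

variable {G : FGeo}

/-- the square of a queen at home -/
def HomeC (G : FGeo) (r : Qn) (s : Sq) : Prop :=
  s.1 = G.col r ∧ (s.2 = G.base r ∨ G.base r + G.unit r ≤ s.2) ∧
  match r with
  | Qn.C => (s.2 - G.base r) % 2 = 0
  | _ => (s.2 - G.base r) % 4 = 0

/-- the service is a window for the far queens -/
def Svc.win : Svc → Bool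
  | Svc.T _ => false
  | Svc.Out => false
  | Svc.Bin => false
  | Svc.Tb => false
  | _ => true

theorem unit_pos (h : G.Ok) (r : Qn) : 2 ≤ G.unit r := by
  have := h.hN1; have := h.h1C; have := h.hjC; have := h.hjA; have := h.hjB; have := h.h2
  have := h.h2A; have := h.hAB
  cases r <;> simp only [FGeo.unit] <;> omega

theorem HomeC.ge {r : Qn} {s : Sq} (h : G.Ok) (hs : HomeC G r s) : G.base r ≤ s.2 := by
  have := unit_pos h r
  obtain ⟨_, h2, _⟩ := hs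
  omega

theorem Far.set_q (F : Far) (q : Qn) (t : Sq) : (F.set q t).q q = t := by
  simp [Far.set]

theorem Far.set_ne (F : Far) {q r : Qn} (t : Sq) (h : r ≠ q) : (F.set q t).q r = F.q r := by
  simp [Far.set, Function.update_of_ne h]

theorem Far.set_b (F : Far) (q : Qn) (t : Sq) : (F.set q t).b = F.b := rfl

theorem Far.set_set (F : Far) (q : Qn) (s t : Sq) : (F.set q s).set q t = F.set q t := by
  simp [Far.set]

theorem Far.set_self (F : Far) (q : Qn) : F.set q (F.q q) = F := by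
  simp [Far.set]

theorem ray_E {p t : Sq} (h : OrthI p t ∨ DiagI p t) (hr : G.ray Svc.E t)
    (h1 : p.1 ≤ G.xE) (h2 : G.e < p.2) : t = (p.1 + p.2 - G.e, G.e) := by
  obtain ⟨hr1, hr2⟩ := hr
  obtain ⟨p1, p2⟩ := p
  obtain ⟨t1, t2⟩ := t
  simp only [OrthI, DiagI, Prod.mk.injEq] at *
  omega

theorem ray_W {p t : Sq} (h : OrthI p t ∨ DiagI p t) (hr : G.ray Svc.W t)
    (h1 : G.xW ≤ p.1) (h2 : G.w < p.2) : t = (G.w + p.1 - p.2, G.w) := by
  obtain ⟨hr1, hr2⟩ := hr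
  obtain ⟨p1, p2⟩ := p
  obtain ⟨t1, t2⟩ := t
  simp only [OrthI, DiagI, Prod.mk.injEq] at *
  omega

theorem col_E {p t : Sq} {x y : ℤ} (h : OrthI p t ∨ DiagI p t) (hr : t.1 = x ∧ y < t.2)
    (h1 : x < p.1) (h2 : p.2 = G.e) (h3 : G.e ≤ y) : t = (x, p.1 + p.2 - x) := by
  obtain ⟨hr1, hr2⟩ := hr
  obtain ⟨p1, p2⟩ := p
  obtain ⟨t1, t2⟩ := t
  simp only [OrthI, DiagI, Prod.mk.injEq] at *
  omega

theorem col_W {p t : Sq} {x y : ℤ} (h : OrthI p t ∨ DiagI p t) (hr : t.1 = x ∧ y < t.2)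
    (h1 : p.1 < x) (h2 : p.2 = G.w) (h3 : G.w ≤ y) : t = (x, p.2 - p.1 + x) := by
  obtain ⟨hr1, hr2⟩ := hr
  obtain ⟨p1, p2⟩ := p
  obtain ⟨t1, t2⟩ := t
  simp only [OrthI, DiagI, Prod.mk.injEq] at *
  omega

theorem ray_Z {p t : Sq} {q : Qn} (h : OrthI p t ∨ DiagI p t) (hr : G.ray (Svc.Z q) t)
    (h1 : p.1 = G.col q) (h2 : G.base q ≤ p.2) (hj : 3 ≤ G.j q) :
    p.2 = G.base q ∧ t = (G.col q - G.j q, G.base q - G.j q) := by
  obtain ⟨hr1, hr2, hr3⟩ := hr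
  obtain ⟨p1, p2⟩ := p
  obtain ⟨t1, t2⟩ := t
  simp only [OrthI, DiagI, Prod.mk.injEq] at *
  omega

theorem home_Z {F : Far} {t : Sq} {q : Qn}
    (h : FarU G F (G.col q - G.j q, G.base q - G.j q) t)
    (h1 : t.1 = G.col q) (hj : 3 ≤ G.j q) : t = (G.col q, G.base q) := by
  obtain ⟨h, hc, -⟩ := h
  obtain ⟨t1, t2⟩ := t
  have k1 : ¬ BetwI (G.col q - G.j q, G.base q - G.j q) (t1, t2)
      (G.col q - G.j q + 1, G.base q - G.j q) := fun hb => hc _ hb (Or.inl ⟨q, Or.inl rfl⟩)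
  have k2 : ¬ BetwI (G.col q - G.j q, G.base q - G.j q) (t1, t2)
      (G.col q - G.j q + 1, G.base q - G.j q - 1) :=
    fun hb => hc _ hb (Or.inl ⟨q, Or.inr (Or.inl rfl)⟩)
  simp only [BetwI, OrthI, DiagI, Prod.mk.injEq] at *
  omega

/-- A queen at home which moves to the south west from the lowest square is stopped. -/
theorem stop_SW {F : Far} {p t : Sq} {q : Qn} (h : FarU G F p t)
    (h1 : p.1 = G.col q) (h2 : p.2 = G.base q) (hj : 3 ≤ G.j q)
    (h3 : t.1 ≤ G.col q - G.j q - 2) (h4 : t.2 < p.2) (h5 : t.2 - t.1 = p.2 - p.1) : False := by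
  obtain ⟨h, hc, -⟩ := h
  obtain ⟨t1, t2⟩ := t
  obtain ⟨p1, p2⟩ := p
  refine hc (G.col q - G.j q - 1, G.base q - G.j q - 1) ?_ (Or.inl ⟨q, Or.inr (Or.inr (Or.inl rfl))⟩)
  simp only [BetwI, OrthI, DiagI] at *
  subst h1 h2
  omega

/-- all facts about the constants, as a tuple -/
theorem FGeo.Ok.all (h : G.Ok) :
    G.xN + 2 ≤ G.x1 ∧ G.x1 + 2 ≤ G.col Qn.C - G.j Qn.C ∧ 3 ≤ G.j Qn.C ∧ 3 ≤ G.j Qn.A ∧
    3 ≤ G.j Qn.B ∧ G.x2 = G.col Qn.C + G.x1 - G.xN - 1 ∧ G.x2 + 2 ≤ G.col Qn.A - G.j Qn.A ∧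
    G.col Qn.A + 2 ≤ G.col Qn.B - G.j Qn.B ∧ G.col Qn.B + 2 ≤ G.xD ∧ G.col Qn.B + 2 ≤ G.xE ∧
    G.xW + 2 ≤ G.xN :=
  ⟨h.hN1, h.h1C, h.hjC, h.hjA, h.hjB, h.h2, h.h2A, h.hAB, h.hBD, h.hBE, h.hWN⟩

/-- the file of a target square of another queen is not its home file -/
theorem ray_ne_col (h : G.Ok) {s : Svc} {t : Sq} (hr : G.ray s t) {r : Qn} (hs : s ≠ Svc.H r) :
    t.1 ≠ G.col r := by
  obtain ⟨a1, a2, a3, a4, a5, a6, a7, a8, a9, a10, a11⟩ := h.all
  cases s with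
  | H q => obtain ⟨hr1, -⟩ := hr
           rw [hr1]
           rcases q with _ | _ | _ <;> rcases r with _ | _ | _ <;>
             first | (exact absurd rfl hs) | omega
  | Z q => obtain ⟨hr1, -⟩ := hr
           rw [hr1]
           rcases q with _ | _ | _ <;> rcases r with _ | _ | _ <;> omega
  | E => obtain ⟨-, hr1⟩ := hr; rcases r with _ | _ | _ <;> omega
  | W => obtain ⟨-, hr1⟩ := hr; rcases r with _ | _ | _ <;> omega
  | N => obtain ⟨hr1, -⟩ := hr; rcases r with _ | _ | _ <;> omega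
  | N1 => obtain ⟨hr1, -⟩ := hr; rcases r with _ | _ | _ <;> omega
  | N2 => obtain ⟨hr1, -⟩ := hr; rcases r with _ | _ | _ <;> omega
  | T q => exact hr.elim
  | Out => exact hr.elim
  | Bin => exact hr.elim
  | Tb => exact hr.elim

/-- every landing square of another queen is outside -/
theorem wrong_outside (h : G.Ok) {F : Far} {s : Svc} {r : Qn} {t : Sq} (hr : G.ray s t)
    (hs : s ≠ Svc.H r) (hz : s ≠ Svc.Z r) (hh : HomeC G r (F.q r)) (hf : FarU G F (F.q r) t) :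
    G.Outside t := by
  obtain ⟨a1, a2, a3, a4, a5, a6, a7, a8, a9, a10, a11⟩ := h.all
  have a12 := h.hE0
  have a13 := h.hW0
  have e1 := h.he s
  have e2 := h.hw s
  have e3 := h.hT r
  have e4 := h.hy s
  have hst : ¬ ((F.q r).2 = G.base r ∧ t.1 ≤ G.col r - G.j r - 2 ∧ t.2 < (F.q r).2 ∧
      t.2 - t.1 = (F.q r).2 - (F.q r).1) := by
    rintro ⟨k1, k2, k3, k4⟩
    exact stop_SW hf hh.1 k1 (by cases r <;> assumption) k2 k3 k4
  have hl := hf.1
  have hu := unit_pos h r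
  obtain ⟨g1, g2, g3⟩ := hh
  obtain ⟨t1, t2⟩ := t
  generalize hp : F.q r = p at *
  obtain ⟨p1, p2⟩ := p
  simp only [FGeo.Outside, FGeo.c1]
  simp only [FGeo.base, FGeo.unit, FGeo.c1] at *
  clear hp hf h
  cases s with
  | H q =>
    obtain ⟨hr1, hr2⟩ := hr
    rcases q with _ | _ | _ <;> rcases r with _ | _ | _ <;>
      first
      | (exact absurd rfl hs)
      | (simp only [OrthI, DiagI] at *; omega)
  | Z q =>
    obtain ⟨hr1, hr2, hr3⟩ := hr
    rcases q with _ | _ | _ <;> rcases r with _ | _ | _ <;>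
      first
      | (exact absurd rfl hz)
      | (simp only [OrthI, DiagI] at *; omega)
  | E =>
    obtain ⟨hr1, hr2⟩ := hr
    rcases r with _ | _ | _ <;> simp only [OrthI, DiagI] at * <;> omega
  | W =>
    obtain ⟨hr1, hr2⟩ := hr
    rcases r with _ | _ | _ <;> simp only [OrthI, DiagI] at * <;> omega
  | N =>
    obtain ⟨hr1, hr2⟩ := hr
    rcases r with _ | _ | _ <;> simp only [OrthI, DiagI] at * <;> omega
  | N1 =>
    obtain ⟨hr1, hr2⟩ := hr
    rcases r with _ | _ | _ <;> simp only [OrthI, DiagI] at * <;> omega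
  | N2 =>
    obtain ⟨hr1, hr2⟩ := hr
    rcases r with _ | _ | _ <;> simp only [OrthI, DiagI] at * <;> omega
  | T q => exact hr.elim
  | Out => exact hr.elim
  | Bin => exact hr.elim
  | Tb => exact hr.elim

end Pool.Agent.Lib.H32C
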