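import Pool.Agent.Lib.H32C.FarLeg

/-!
# Tours of the far queens: general part
-/

set_option autoImplicit false

namespace Pool.Agent.Lib.H32C

variable {G : FGeo}

/-- a run of calls -/
def Seq {L : Type} (M : L → Md L) : L → List Svc → L → Prop
  | l, [], l' => l = l'
  | l, s :: w, l' => ∃ n, M l = Md.call s n ∧ Seq M n w l'

theorem Seq.append {L : Type} {M : L → Md L} {l l' : L} {v w : List Svc} :
    Seq M l (v ++ w) l' ↔ ∃ n, Seq M l v n ∧ Seq M n w l' := by
  induction v generalizing l with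
  | nil => simp [Seq]
  | cons s v ih =>
    simp only [List.cons_append, Seq, ih]
    constructor
    · rintro ⟨n, h1, m, h2, h3⟩; exact ⟨m, ⟨n, h1, h2⟩, h3⟩
    · rintro ⟨m, ⟨n, h1, h2⟩, h3⟩; exact ⟨n, h1, m, h2, h3⟩

/-- the first other queen -/
def Qn.o1 : Qn → Qn
  | Qn.A => Qn.B
  | Qn.B => Qn.A
  | Qn.C => Qn.A

/-- the second other queen -/
def Qn.o2 : Qn → Qn
  | Qn.A => Qn.C
  | Qn.B => Qn.C
  | Qn.C => Qn.B

/-- the calls of a tour: after every window both other home files are touched -/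
def tour (q : Qn) : List Svc → List Svc
  | [] => []
  | s :: w => s :: Svc.T q.o1 :: Svc.T q.o2 :: tour q w

/-- White forces a position of the set `S` or wins; Black forces `b` or we are in `b`. -/
inductive MF (G : FGeo) {L : Type} (M : L → Md L) (b : L × Far) : L × Far → Prop
  | refl : MF G M b b
  | step {a c : L × Far} (hi : MInv G M a) (h : MStepL G M a c) (hc : MF G M b c) : MF G M b a

theorem MF.force {L : Type} {M : L → Md L} {a b c : L × Far} (hi : MInv G M a)
    (h : MStepL G M a c) (hc : MF G M b c) : MForce G M b a := by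
  cases hc with
  | refl => exact MForce.one hi h
  | step hi' h' hc' =>
    have : ∀ {x : L × Far}, MF G M b x → ∀ {y : L × Far}, MInv G M y → MStepL G M y x →
        MForce G M b y := by
      intro x hx
      induction hx with
      | refl => exact fun hi h => MForce.one hi h
      | step hi2 h2 _ ih => exact fun hi h => MForce.step hi h (ih hi2 h2)
    exact this (MF.step hi' h' hc') hi h

theorem MForce.mf {L : Type} {M : L → Md L} {a b : L × Far} (h : MForce G M b a) :
    MF G M b a := by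
  induction h with
  | one hi h => exact MF.step hi h MF.refl
  | step hi h _ ih => exact MF.step hi h ih

theorem MF.trans {L : Type} {M : L → Md L} {a b c : L × Far} (h : MF G M b a)
    (h2 : MF G M c b) : MF G M c a := by
  induction h with
  | refl => exact h2
  | step hi h _ ih => exact MF.step hi h ih

/-- the far pieces during a tour of the queen `q` -/
structure Mid (G : FGeo) (q : Qn) (F : Far) : Prop where
  hr : ∀ r, r ≠ q → HomeC G r (F.q r)
  hc : ∀ r, r ≠ q → (F.q q).1 ≠ G.col r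
  ho : G.Outside (F.q q)
  hf : ¬ G.floater (F.q q)
  hb : BOk G F
  hqb : F.q q ≠ F.b

theorem col_inj (h : G.Ok) {q r : Qn} (hqr : G.col q = G.col r) : q = r := by
  obtain ⟨a1, a2, a3, a4, a5, a6, a7, a8, a9, a10, a11⟩ := h.all
  rcases q with _ | _ | _ <;> rcases r with _ | _ | _ <;> first | rfl | omega

theorem col_lt_xD (h : G.Ok) (q : Qn) : G.col q < G.xD := by
  obtain ⟨a1, a2, a3, a4, a5, a6, a7, a8, a9, a10, a11⟩ := h.all
  rcases q with _ | _ | _ <;> omega

theorem BOk.ge {F : Far} (hb : BOk G F) : G.xD ≤ F.b.1 := by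
  rcases hb with hb | ⟨t, ht, hb⟩ <;> rw [hb] <;> simp only [FGeo.hb, FGeo.out] <;> omega

theorem BOk.dif {F : Far} (hb : BOk G F) : F.b.2 - F.b.1 = G.X0 - 2 - 2 * G.xD := by
  rcases hb with hb | ⟨t, ht, hb⟩ <;> rw [hb] <;> simp only [FGeo.hb, FGeo.out] <;> omega

theorem HomeC.outside (h : G.Ok) {r : Qn} {s : Sq} (hs : HomeC G r s) : G.Outside s := by
  have h1 := hs.ge h
  have h2 := h.hT r
  obtain ⟨a1, a2, a3, a4, a5, a6, a7, a8, a9, a10, a11⟩ := h.all
  right; right
  rcases r with _ | _ | _ <;> omega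

/-- a home file contains no floater -/
theorem col_not_floater (h : G.Ok) {r : Qn} {s : Sq} (hs : s.1 = G.col r) : ¬ G.floater s := by
  obtain ⟨a1, a2, a3, a4, a5, a6, a7, a8, a9, a10, a11⟩ := h.all
  rintro ⟨q, hq | hq | hq | hq⟩ <;> rw [hq] at hs <;> simp only at hs <;>
    rcases q with _ | _ | _ <;> rcases r with _ | _ | _ <;> omega

theorem Mid.base (h : G.Ok) {q : Qn} {F : Far} (hm : Mid G q F) :
    (∀ q r, q ≠ r → F.q q ≠ F.q r) ∧ (∀ q, F.q q ≠ F.b) ∧ (∀ q, G.Outside (F.q q)) ∧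
      (∀ q, ¬ G.floater (F.q q)) := by
  refine ⟨fun a b hab he => ?_, fun a => ?_, fun a => ?_, fun a => ?_⟩
  · by_cases ha : a = q
    · subst ha
      exact hm.hc b (Ne.symm hab) (by rw [he]; exact (hm.hr b (Ne.symm hab)).1)
    · by_cases hb : b = q
      · subst hb
        exact hm.hc a hab (by rw [← he]; exact (hm.hr a hab).1)
      · refine hab (col_inj h ?_)
        rw [← (hm.hr a ha).1, ← (hm.hr b hb).1, he]
  · by_cases ha : a = q
    · subst ha; exact hm.hqb
    · intro he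
      have h1 := (hm.hr a ha).1
      have h2 := col_lt_xD h a
      have h3 := hm.hb.ge
      rw [he] at h1
      omega
  · by_cases ha : a = q
    · subst ha; exact hm.ho
    · exact (hm.hr a ha).outside h
  · by_cases ha : a = q
    · subst ha; exact hm.hf
    · exact col_not_floater h (hm.hr a ha).1

theorem base_set {F : Far}
    (hb : (∀ q r, q ≠ r → F.q q ≠ F.q r) ∧ (∀ q, F.q q ≠ F.b) ∧ (∀ q, G.Outside (F.q q)) ∧
      (∀ q, ¬ G.floater (F.q q))) {r : Qn} {t : Sq} (hf : ¬ Occ G F t) (ho : G.Outside t) :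
    (∀ a b, a ≠ b → (F.set r t).q a ≠ (F.set r t).q b) ∧ (∀ a, (F.set r t).q a ≠ (F.set r t).b) ∧
      (∀ a, G.Outside ((F.set r t).q a)) ∧ (∀ a, ¬ G.floater ((F.set r t).q a)) := by
  obtain ⟨h1, h2, h3, h4⟩ := hb
  have k : ∀ a, t ≠ F.q a := fun a ha => hf (Or.inr (Or.inr ⟨a, ha⟩))
  refine ⟨fun a b hab => ?_, fun a => ?_, fun a => ?_, fun a => ?_⟩
  · by_cases ha : a = r
    · subst ha
      rw [Far.set_q, Far.set_ne _ _ (Ne.symm hab)]
      exact k b
    · by_cases hb : b = r
      · subst hb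
        rw [Far.set_q, Far.set_ne _ _ ha]
        exact fun he => k a he.symm
      · rw [Far.set_ne _ _ ha, Far.set_ne _ _ hb]
        exact h1 a b hab
  · rw [Far.set_b]
    by_cases ha : a = r
    · subst ha
      rw [Far.set_q]
      exact fun he => hf (Or.inr (Or.inl he))
    · rw [Far.set_ne _ _ ha]
      exact h2 a
  · by_cases ha : a = r
    · subst ha; rw [Far.set_q]; exact ho
    · rw [Far.set_ne _ _ ha]; exact h3 a
  · by_cases ha : a = r
    · subst ha; rw [Far.set_q]; exact fun he => hf (Or.inl he)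
    · rw [Far.set_ne _ _ ha]; exact h4 a

theorem Inv_win {s : Svc} (hw : s.win = true) {F : Far}
    (hb : (∀ q r, q ≠ r → F.q q ≠ F.q r) ∧ (∀ q, F.q q ≠ F.b) ∧ (∀ q, G.Outside (F.q q)) ∧
      (∀ q, ¬ G.floater (F.q q))) (hB : BOk G F) (hn : ∀ q, ¬ G.line s (F.q q)) : Inv G s F := by
  obtain ⟨h1, h2, h3, h4⟩ := hb
  cases s <;> first | exact ⟨h1, h2, h3, h4, hB, hn⟩ | exact absurd hw (by simp [Svc.win])

theorem StepU_win {s : Svc} (hw : s.win = true) {F F' : Far} (h : StepU G s F F') :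
    ∃ q t, G.ray s t ∧ FarU G F (F.q q) t ∧ F' = F.set q t := by
  cases s <;> first | exact h | exact absurd hw (by simp [Svc.win])

theorem StepL_win {s : Svc} (hw : s.win = true) {F F' : Far}
    (h : ∃ q t, G.ray s t ∧ G.Outside t ∧ FarL G F q t ∧ F' = F.set q t) : StepL G s F F' := by
  cases s <;> first | exact h | exact absurd hw (by simp [Svc.win])

/-- a square of a line of a window is not on the file of another home -/
theorem line_ne_col (h : G.Ok) {s : Svc} (hw : s.win = true) {t : Sq} (hr : G.line s t) {r : Qn}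
    (hs : s ≠ Svc.H r) : t.1 ≠ G.col r := by
  obtain ⟨a1, a2, a3, a4, a5, a6, a7, a8, a9, a10, a11⟩ := h.all
  cases s with
  | H q => obtain ⟨hr1, -⟩ := hr
           rw [hr1]
           rcases q with _ | _ | _ <;> rcases r with _ | _ | _ <;>
             first | (exact absurd rfl hs) | omega
  | Z q => obtain ⟨hr1, -⟩ := hr
           rw [hr1]
           rcases q with _ | _ | _ <;> rcases r with _ | _ | _ <;> omega
  | E => obtain ⟨-, hr1⟩ := hr; rcases r with _ | _ | _ <;> omega
  | W => obtain ⟨-, hr1⟩ := hr; rcases r with _ | _ | _ <;> omega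
  | N => obtain ⟨hr1, -⟩ := hr; rcases r with _ | _ | _ <;> omega
  | N1 => obtain ⟨hr1, -⟩ := hr; rcases r with _ | _ | _ <;> omega
  | N2 => obtain ⟨hr1, -⟩ := hr; rcases r with _ | _ | _ <;> omega
  | T q => exact absurd hw (by simp [Svc.win])
  | Out => exact hr.elim
  | Bin => exact hr.elim
  | Tb => exact hr.elim

theorem Mid.inv_win (h : G.Ok) {q : Qn} {F : Far} (hm : Mid G q F) {s : Svc}
    (hw : s.win = true) (hs : ∀ r, r ≠ q → s ≠ Svc.H r) (hn : ¬ G.line s (F.q q)) :
    Inv G s F := by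
  refine Inv_win hw (hm.base h) hm.hb fun a ha => ?_
  by_cases haq : a = q
  · subst haq; exact hn ha
  · exact line_ne_col h hw ha (hs a haq) (hm.hr a haq).1

theorem Mid.inv_T (h : G.Ok) {q : Qn} {F : Far} (hm : Mid G q F) {r : Qn} (hr : r ≠ q) :
    Inv G (Svc.T r) F := by
  obtain ⟨h1, h2, h3, h4⟩ := hm.base h
  refine ⟨h1, h2, h3, h4, hm.hb, Or.inl ⟨⟨(hm.hr r hr).1, (hm.hr r hr).ge h⟩, fun a ha => ?_⟩⟩
  by_cases haq : a = q
  · subst haq; exact hm.hc r hr
  · rw [(hm.hr a haq).1]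
    exact fun he => ha (col_inj h he)

/-- the wrong queen has moved: White wins at the touches -/
theorem wrong_win (h : G.Ok) {L : Type} {M : L → Md L} {S : L × Far → Prop} {q : Qn} {F : Far}
    (hm : Mid G q F) {s : Svc} (hw : s.win = true) (hs : ∀ r, r ≠ q → s ≠ Svc.H r ∧ s ≠ Svc.Z r)
    {r : Qn} (hr : r ≠ q) {t : Sq} (ht : G.ray s t) (hf : FarU G F (F.q r) t)
    {l l' : L} (hl : Seq M l [Svc.T q.o1, Svc.T q.o2] l') : MWin G M S (l, F.set r t) := by
  have ho : G.Outside t := wrong_outside h ht (hs r hr).1 (hs r hr).2 (hm.hr r hr) hf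
  obtain ⟨h1, h2, h3, h4⟩ := base_set (r := r) (hm.base h) hf.2.2 ho
  have hcol : ∀ a, a ≠ q → t.1 ≠ G.col a := fun a ha => ray_ne_col h ht (hs a ha).1
  have hB : BOk G (F.set r t) := hm.hb
  obtain ⟨l1, e1, l2, e2, -⟩ := hl
  -- nobody on the file of `r`
  have hno : ∀ a, ((F.set r t).q a).1 ≠ G.col r := by
    intro a
    by_cases ha : a = r
    · subst ha; rw [Far.set_q]; exact hcol a hr
    · rw [Far.set_ne _ _ ha]
      by_cases haq : a = q
      · subst haq; exact hm.hc r hr
      · rw [(hm.hr a haq).1]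
        exact fun he => ha (col_inj h he)
  have hinv : Inv G (Svc.T r) (F.set r t) := ⟨h1, h2, h3, h4, hB, Or.inr hno⟩
  have hdead : ∀ {x y : L}, M x = Md.call (Svc.T r) y → MWin G M S (x, F.set r t) := by
    intro x y hx
    refine MWin.step ?_ ?_
    · unfold MInv
      simp only [hx]
      exact hinv
    · intro b hb
      unfold MStepU at hb
      simp only [hx] at hb
      obtain ⟨-, -, a, ha⟩ := hb
      exact absurd ha (hno a)
  have hother : q.o1 = r ∨ (q.o1 ≠ r ∧ q.o2 = r ∧ q.o1 ≠ q) := by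
    revert hr
    rcases q with _ | _ | _ <;> rcases r with _ | _ | _ <;> simp [Qn.o1, Qn.o2]
  rcases hother with ho1 | ⟨ho1, ho2, ho3⟩
  · rw [ho1] at e1
    exact hdead e1
  · refine MWin.step ?_ ?_
    · unfold MInv
      simp only [e1]
      refine ⟨h1, h2, h3, h4, hB, Or.inl ⟨⟨?_, ?_⟩, fun a ha => ?_⟩⟩
      · rw [Far.set_ne _ _ ho1]; exact (hm.hr _ ho3).1
      · rw [Far.set_ne _ _ ho1]; exact (hm.hr _ ho3).ge h
      · by_cases har : a = r
        · subst har; rw [Far.set_q]; exact hcol _ ho3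
        · rw [Far.set_ne _ _ har]
          by_cases haq : a = q
          · subst haq; exact hm.hc _ ho3
          · rw [(hm.hr a haq).1]
            exact fun he => ha (col_inj h he)
    · intro b hb
      obtain ⟨b1, b2⟩ := b
      unfold MStepU at hb
      simp only [e1] at hb
      obtain ⟨rfl, rfl, -⟩ := hb
      rw [ho2] at e2
      exact hdead e2

theorem Mid.set (h : G.Ok) {q : Qn} {F : Far} (hm : Mid G q F) {t : Sq}
    (hc : ∀ r, r ≠ q → t.1 ≠ G.col r) (ho : G.Outside t) (hf : ¬ G.floater t) (hb : t ≠ F.b) :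
    Mid G q (F.set q t) where
  hr r hr := by rw [Far.set_ne _ _ hr]; exact hm.hr r hr
  hc r hr := by rw [Far.set_q]; exact hc r hr
  ho := by rw [Far.set_q]; exact ho
  hf := by rw [Far.set_q]; exact hf
  hb := hm.hb
  hqb := by rw [Far.set_q]; exact hb

theorem o1_ne (q : Qn) : q.o1 ≠ q := by cases q <;> simp [Qn.o1]

theorem o2_ne (q : Qn) : q.o2 ≠ q := by cases q <;> simp [Qn.o2]

/-- both touches are passed (upper bound) -/
theorem touch_win (h : G.Ok) {L : Type} {M : L → Md L} {S : L × Far → Prop} {q : Qn} {F : Far}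
    (hm : Mid G q F) {l l' : L} (hl : Seq M l [Svc.T q.o1, Svc.T q.o2] l')
    (hS : MWin G M S (l', F)) : MWin G M S (l, F) := by
  obtain ⟨l1, e1, l2, e2, e3⟩ := hl
  cases e3
  refine MWin.step ?_ ?_
  · unfold MInv
    simp only [e1]
    exact hm.inv_T h (o1_ne q)
  · rintro ⟨b1, b2⟩ hb
    unfold MStepU at hb
    simp only [e1] at hb
    obtain ⟨rfl, rfl, -⟩ := hb
    refine MWin.step ?_ ?_
    · unfold MInv
      simp only [e2]
      exact hm.inv_T h (o2_ne q)
    · rintro ⟨b1, b2⟩ hb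
      unfold MStepU at hb
      simp only [e2] at hb
      obtain ⟨rfl, rfl, -⟩ := hb
      exact hS

/-- both touches are passed (lower bound) -/
theorem touch_mf (h : G.Ok) {L : Type} {M : L → Md L} {b : L × Far} {q : Qn} {F : Far}
    (hm : Mid G q F) {l l' : L} (hl : Seq M l [Svc.T q.o1, Svc.T q.o2] l')
    (hS : MF G M b (l', F)) : MF G M b (l, F) := by
  obtain ⟨l1, e1, l2, e2, e3⟩ := hl
  cases e3
  refine MF.step (c := (l1, F)) ?_ ?_ (MF.step (c := (_, F)) ?_ ?_ hS)
  · unfold MInv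
    simp only [e1]
    exact hm.inv_T h (o1_ne q)
  · unfold MStepL
    simp only [e1]
    exact ⟨trivial, rfl, q.o1, (hm.hr _ (o1_ne q)).1⟩
  · unfold MInv
    simp only [e2]
    exact hm.inv_T h (o2_ne q)
  · unfold MStepL
    simp only [e2]
    exact ⟨trivial, rfl, q.o2, (hm.hr _ (o2_ne q)).1⟩

/-- a window and two touches (upper bound) -/
theorem leg_win (h : G.Ok) {L : Type} {M : L → Md L} {S : L × Far → Prop} {q : Qn} {F : Far}
    (hm : Mid G q F) {s : Svc} (hw : s.win = true) (hs : ∀ r, r ≠ q → s ≠ Svc.H r ∧ s ≠ Svc.Z r)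
    (hn : ¬ G.line s (F.q q)) {l l' : L} (hl : Seq M l [s, Svc.T q.o1, Svc.T q.o2] l')
    (ho : ∀ t, G.ray s t → FarU G F (F.q q) t → G.Outside t)
    (hS : ∀ t, G.ray s t → FarU G F (F.q q) t → Mid G q (F.set q t) →
      MWin G M S (l', F.set q t)) : MWin G M S (l, F) := by
  obtain ⟨l1, e1, hl'⟩ := hl
  refine MWin.step ?_ ?_
  · unfold MInv
    simp only [e1]
    exact hm.inv_win h hw (fun r hr => (hs r hr).1) hn
  · rintro ⟨b1, b2⟩ hb
    unfold MStepU at hb
    simp only [e1] at hb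
    obtain ⟨rfl, hb⟩ := hb
    obtain ⟨r, t, ht, hf, rfl⟩ := StepU_win hw hb
    by_cases hr : r = q
    · subst hr
      have hm' : Mid G r (F.set r t) := hm.set h (fun a ha => ray_ne_col h ht (hs a ha).1)
        (ho t ht hf) (fun hfl => hf.2.2 (Or.inl hfl)) (fun hfl => hf.2.2 (Or.inr (Or.inl hfl)))
      exact touch_win h hm' hl' (hS t ht hf hm')
    · exact wrong_win h hm hw hs hr ht hf hl'

/-- a window and two touches (lower bound) -/
theorem leg_force (h : G.Ok) {L : Type} {M : L → Md L} {b : L × Far} {q : Qn} {F : Far}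
    (hm : Mid G q F) {s : Svc} (hw : s.win = true) (hs : ∀ r, r ≠ q → s ≠ Svc.H r)
    (hn : ¬ G.line s (F.q q)) {l l' : L} (hl : Seq M l [s, Svc.T q.o1, Svc.T q.o2] l')
    {t : Sq} (ht : G.ray s t) (hf : FarL G F q t) (ho : G.Outside t) (hfl : ¬ G.floater t)
    (hS : MF G M b (l', F.set q t)) : MForce G M b (l, F) := by
  obtain ⟨l1, e1, hl'⟩ := hl
  have hm' : Mid G q (F.set q t) := hm.set h (fun a ha => ray_ne_col h ht (hs a ha)) ho hfl hf.2.2.1
  refine MF.force (c := (l1, F.set q t)) ?_ ?_ (touch_mf h hm' hl' hS)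
  · unfold MInv
    simp only [e1]
    exact hm.inv_win h hw hs hn
  · unfold MStepL
    simp only [e1]
    exact ⟨trivial, StepL_win hw ⟨q, t, ht, ho, hf, rfl⟩⟩

/-- the last square of a tour -/
def lastSq (p : Sq) : List (Svc × Sq) → Sq
  | [] => p
  | (_, t) :: w => lastSq t w

/-- conditions for a tour (upper bound) -/
def TourU (G : FGeo) (q : Qn) (F : Far) : Sq → List (Svc × Sq) → Prop
  | _, [] => True
  | p, (s, t) :: w => s.win = true ∧ (∀ r, r ≠ q → s ≠ Svc.H r ∧ s ≠ Svc.Z r) ∧ ¬ G.line s p ∧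
      (∀ t', G.ray s t' → FarU G (F.set q p) p t' → t' = t) ∧ G.Outside t ∧ TourU G q F t w

/-- conditions for a tour (lower bound) -/
def TourL (G : FGeo) (q : Qn) (F : Far) : Sq → List (Svc × Sq) → Prop
  | _, [] => True
  | p, (s, t) :: w => s.win = true ∧ (∀ r, r ≠ q → s ≠ Svc.H r) ∧ ¬ G.line s p ∧
      G.ray s t ∧ FarL G (F.set q p) q t ∧ G.Outside t ∧ ¬ G.floater t ∧ TourL G q F t w

theorem tour_win (h : G.Ok) {L : Type} {M : L → Md L} {S : L × Far → Prop} {q : Qn} {F : Far}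
    {w : List (Svc × Sq)} : ∀ {p : Sq} {l l' : L}, TourU G q F p w → Mid G q (F.set q p) →
      Seq M l (tour q (w.map Prod.fst)) l' →
      (Mid G q (F.set q (lastSq p w)) → MWin G M S (l', F.set q (lastSq p w))) →
      MWin G M S (l, F.set q p) := by
  induction w with
  | nil =>
    intro p l l' _ hm hl hS
    cases hl
    exact hS hm
  | cons a w ih =>
    obtain ⟨s, t⟩ := a
    intro p l l' hT hm hl hS
    obtain ⟨hw, hs, hn, hu, ho, hT'⟩ := hT
    have hl2 : Seq M l ([s, Svc.T q.o1, Svc.T q.o2] ++ tour q (w.map Prod.fst)) l' := hl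
    rw [Seq.append] at hl2
    obtain ⟨n, hl3, hl4⟩ := hl2
    refine leg_win h hm hw hs (by rw [Far.set_q]; exact hn) hl3 ?_ ?_
    · intro t' ht' hf
      rw [Far.set_q] at hf
      rw [hu t' ht' hf]
      exact ho
    · intro t' ht' hf hm'
      rw [Far.set_q] at hf
      rw [hu t' ht' hf, Far.set_set] at hm' ⊢
      exact ih hT' hm' hl4 hS

theorem tour_mf (h : G.Ok) {L : Type} {M : L → Md L} {b : L × Far} {q : Qn} {F : Far}
    {w : List (Svc × Sq)} : ∀ {p : Sq} {l l' : L}, TourL G q F p w → Mid G q (F.set q p) →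
      Seq M l (tour q (w.map Prod.fst)) l' → MF G M b (l', F.set q (lastSq p w)) →
      MF G M b (l, F.set q p) := by
  induction w with
  | nil =>
    intro p l l' _ hm hl hS
    cases hl
    exact hS
  | cons a w ih =>
    obtain ⟨s, t⟩ := a
    intro p l l' hT hm hl hS
    obtain ⟨hw, hs, hn, ht, hf, ho, hfl, hT'⟩ := hT
    have hl2 : Seq M l ([s, Svc.T q.o1, Svc.T q.o2] ++ tour q (w.map Prod.fst)) l' := hl
    rw [Seq.append] at hl2
    obtain ⟨n, hl3, hl4⟩ := hl2
    refine (leg_force h hm hw hs (by rw [Far.set_q]; exact hn) hl3 ht hf ho hfl ?_).mf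
    rw [Far.set_set]
    refine ih hT' ?_ hl4 hS
    have := hm.set h (fun a ha => ray_ne_col h ht (hs a ha)) ho hfl hf.2.2.1
    rwa [Far.set_set] at this

theorem tour_force (h : G.Ok) {L : Type} {M : L → Md L} {b : L × Far} {q : Qn} {F : Far}
    {w : List (Svc × Sq)} (hne : w ≠ []) {p : Sq} {l l' : L} (hT : TourL G q F p w)
    (hm : Mid G q (F.set q p)) (hl : Seq M l (tour q (w.map Prod.fst)) l')
    (hS : MF G M b (l', F.set q (lastSq p w))) : MForce G M b (l, F.set q p) := by
  cases w with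
  | nil => exact absurd rfl hne
  | cons a w =>
    obtain ⟨s, t⟩ := a
    obtain ⟨hw, hs, hn, ht, hf, ho, hfl, hT'⟩ := hT
    have hl2 : Seq M l ([s, Svc.T q.o1, Svc.T q.o2] ++ tour q (w.map Prod.fst)) l' := hl
    rw [Seq.append] at hl2
    obtain ⟨n, hl3, hl4⟩ := hl2
    refine leg_force h hm hw hs (by rw [Far.set_q]; exact hn) hl3 ht hf ho hfl ?_
    rw [Far.set_set]
    refine tour_mf h hT' ?_ hl4 hS
    have := hm.set h (fun a ha => ray_ne_col h ht (hs a ha)) ho hfl hf.2.2.1
    rwa [Far.set_set] at this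

end Pool.Agent.Lib.H32C
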