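import Pool.Agent.Lib.H32C.FarDf
import Pool.Agent.Lib.H32C.FarGlue
import Pool.Agent.Lib.H32C.Mem

/-!
# Windows: tiles with a ray for a far queen

In a patch of a window tile there is one ray which leaves the patch, with its mark on the cell `e`; it belongs to the
line of a service `s` (`FGeo.line`).  Phase `0`: no queen on the ray; phase `1`: the queen `q` has arrived.
-/

set_option autoImplicit false

namespace Pool.Agent.Lib.H32C.Loc

/-- a window tile: the line of the service begins after the special square -/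
structure WT where
  /-- number of rows -/
  H : Nat
  /-- the array -/
  A : Nat
  /-- the step of the ray -/
  t : Nat
  /-- the cell of the special square -/
  z : Nat

/-- the origin of the patch around `(X, Y)` -/
def orgP (O : Sq) (X Y : Nat) : Sq := (O.1 + (X : ℤ) - 10, O.2 + (Y : ℤ) - 10)

/-- the inner squares of the patch around `(X, Y)` -/
def inP (O : Sq) (X Y : Nat) : Set Sq :=
  {s | O.1 + (X : ℤ) - 8 ≤ s.1 ∧ s.1 < O.1 + (X : ℤ) + 8 ∧ O.2 + (Y : ℤ) - 8 ≤ s.2 ∧
    s.2 < O.2 + (Y : ℤ) + 8}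

/-- the squares of an array with distance at least `m` from its boundary -/
def CoreH (m : ℤ) (H : Nat) (O : Sq) : Set Sq :=
  {s | O.1 + m ≤ s.1 ∧ s.1 + m ≤ O.1 + 79 ∧ O.2 + m ≤ s.2 ∧ s.2 + m + 1 ≤ O.2 + (H : ℤ)}

/-- the `n`-th square beyond the mark -/
def rayW (T : WT) (O : Sq) (X Y e : Nat) (n : ℕ) : Sq := sq (orgP O X Y) e + n • vec T.t

/-- the context with the board `B` outside of the patch, and the far slider on `f` -/
def cxW (T : WT) (O : Sq) (X Y e : Nat) (B : Board) (f : Sq) : Ctx :=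
  ⟨orgP O X Y, B, [⟨e, T.t, 13⟩], fun i => if i = e then f else (0, 0)⟩

/-- the board of the far pieces without the queen `q` -/
noncomputable def remB (G : FGeo) (B0 : Board) (F : Far) (q : Qn) : Board :=
  farB G B0 F (fun r => r ≠ q) True

/-- the context in which the queen `q` stands on the ray -/
noncomputable def cxA (G : FGeo) (B0 : Board) (T : WT) (O : Sq) (X Y e : Nat) (F : Far) (q : Qn) : Ctx :=
  cxW T O X Y e (remB G B0 F q) (F.q q)

/-- the context without a queen on the ray -/
noncomputable def cxE (G : FGeo) (B0 : Board) (T : WT) (O : Sq) (X Y e : Nat) (F : Far) : Ctx :=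
  cxW T O X Y e (fullB G B0 F) (rayW T O X Y e 1)

/-- the queen `q` stands on the ray, nothing before it -/
def OnRay (G : FGeo) (B0 : Board) (T : WT) (O : Sq) (X Y e : Nat) (F : Far) (q : Qn) : Prop :=
  ∃ n : ℕ, 0 < n ∧ F.q q = rayW T O X Y e n ∧
    ∀ i : ℕ, 0 < i → i ≤ n → remB G B0 F q (rayW T O X Y e i) = none

/-- facts about a window tile: `B0` is the static board, `s` the service, `R` the mating room -/
structure WinT (G : FGeo) (B0 : Board) (s : Svc) (R : Room) (T : WT) (O : Sq) : Prop where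
  geo : G.Ok
  wor : FarWorld G B0
  t : T.t ∈ orT
  fits : FitsH T.H T.A O B0
  line : ∀ c, G.line s c ↔ ∃ n : ℕ, 0 < n ∧ c = sqA O T.z + n • vec T.t
  axis : ∀ c, G.axis s c ↔ ∃ j : ℤ, c = sqA O T.z + j • vec T.t
  /-- the line is free of static pieces -/
  clear : ∀ c, G.line s c → B0 c = none
  /-- the tile lies in the hull -/
  hull : ∀ c ∈ TileRegH T.H O, c.2 ≤ G.T ∧ ¬ G.Zone c ∧ c ≠ G.hb
  /-- static Black queens and rooks do not come to the line outside of the array -/
  closed : ∀ c, G.line s c → c ∉ CoreH 2 T.H O →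
    ∀ a κ, B0 a = some (false, κ) → (κ = Kind.queen ∨ κ = Kind.rook) → ¬ G.axis s a →
      (OrthI a c ∨ (κ = Kind.queen ∧ DiagI a c)) → ∃ d, BetwI a c d ∧ d ∉ CoreH 3 T.H O ∧ B0 d ≠ none
  /-- static White pieces do not come to the line outside of the array -/
  white : ∀ c, G.line s c → c ∉ CoreH 2 T.H O →
    ∀ a κ, B0 a = some (true, κ) → WStop G B0 ∅ κ a c
  /-- the room -/
  hullZ : ∀ c ∈ R.Z, c.2 ≤ G.T ∧ ¬ G.Zone c ∧ c ≠ G.hb ∧ ¬ G.line s c
  regZ : ∀ c ∈ TileRegH T.H O, c ∉ R.Z
  G : R.G B0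

/-- facts about a patch of a window tile with the mark on the cell `e` -/
structure WinP (G : FGeo) (B0 : Board) (s : Svc) (T : WT) (O : Sq) (X Y e : Nat) : Prop where
  hX : 8 ≤ X ∧ X ≤ 72
  hY : 8 ≤ Y ∧ Y + 8 ≤ T.H
  inn : Inner e
  out : ¬ Inner (stp T.t e)
  line : ∀ c, (G.line s c ∧ c ∉ inP O X Y) ↔ ∃ n : ℕ, 0 < n ∧ c = rayW T O X Y e n
  axis : ∀ c, G.axis s c ↔ ∃ j : ℤ, c = sq (orgP O X Y) e + j • vec T.t
  closed : ∀ c, G.line s c → c ∉ inP O X Y → ∀ a κ, B0 a = some (false, κ) →
    (κ = Kind.queen ∨ κ = Kind.rook) → ¬ G.axis s a →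
      (OrthI a c ∨ (κ = Kind.queen ∧ DiagI a c)) → ∃ d, BetwI a c d ∧ d ∉ inP O X Y ∧ B0 d ≠ none
  /-- the cells next to the mark in the directions in which the patch ends -/
  edge : ∀ u ∈ orT ++ diT, u ≠ T.t → ¬ Inner (stp u e) →
    ∃ m, B0 (sq (orgP O X Y) e + vec u) = some m ∧ (m.2 = Kind.pawn ∨ m.2 = Kind.knight)

/-- conditions on the far pieces: `A` is the set of the queens considered -/
structure FarS (G : FGeo) (s : Svc) (F : Far) (A : Qn → Prop) : Prop where
  b : BOk G F
  off : ∀ q, A q → ¬ G.line s (F.q q)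
  out : ∀ q, A q → G.Outside (F.q q)

/-- the family of contexts of phase `0`; `W` tells which arrivals are possible -/
def KW (G : FGeo) (B0 : Board) (T : WT) (O : Sq) (X Y e : Nat) (F : Far) (W : Qn → Sq → Prop)
    (l : Nat) (C : Ctx) : Prop :=
  (l = 1 ∧ C = cxE G B0 T O X Y e F) ∨
    (l = 0 ∧ ∃ q t, W q t ∧ OnRay G B0 T O X Y e (F.set q t) q ∧ C = cxA G B0 T O X Y e (F.set q t) q)

/-- the family of contexts of phase `1` -/
def KW1 (G : FGeo) (B0 : Board) (T : WT) (O : Sq) (X Y e : Nat) (F : Far) (q : Qn)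
    (l : Nat) (C : Ctx) : Prop :=
  l = 0 ∧ C = cxA G B0 T O X Y e F q

/-- the parameters of windows -/
def PW : Par := ⟨false, [], false⟩

/-! ### Items -/

/-- an item of the upper bound of a window: state `i`, phase `φ`, centre, mark (`e = 0`: no ray), certificate, exits of
level `0` and of level `1`.  An exit of level `l` has the phase `1 - l` if `φ = 0` and there is a ray, and
the phase `φ` otherwise. -/
structure WU where
  /-- the state -/
  i : Nat
  /-- the phase -/
  φ : Nat
  /-- first coordinate of the centre -/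
  X : Nat
  /-- second coordinate of the centre -/
  Y : Nat
  /-- the cell of the mark, or `0` -/
  e : Nat
  /-- certificate -/
  tr : Tr
  /-- exits of level `0` -/
  x0 : List Nat
  /-- exits of level `1` -/
  x1 : List Nat

/-- the mark as a piece of the patch around `(X, Y)` -/
def mkW (X Y e c : Nat) : List Pc :=
  cond (Nat.beq e 0) [] [⟨Nat.sub (Nat.add X (Nat.mod e 20)) 10, Nat.sub (Nat.add Y (Nat.div e 20)) 10, c⟩]

/-- the rays of a patch -/
def rsW (t e : Nat) : List Ray := cond (Nat.beq e 0) [] [⟨e, t, 13⟩]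

/-- exits with marks -/
def exW (X Y e c : Nat) (L : List Nat) : List Ex := List.rec [] (fun i _ ih => ⟨i, mkW X Y e c⟩ :: ih) L

/-- the verification datum of an item: with a ray and phase `0` there are two levels -/
def WU.sw (t : Nat) (u : WU) : SW :=
  cond (Nat.beq u.φ 0 && !Nat.beq u.e 0)
    ⟨u.X, u.Y, mkW u.X u.Y u.e 7, rsW t u.e, PW, 1, u.tr, [exW u.X u.Y u.e 8 u.x0, exW u.X u.Y u.e 7 u.x1]⟩
    ⟨u.X, u.Y, mkW u.X u.Y u.e 8, rsW t u.e, PW, 0, u.tr, [exW u.X u.Y u.e 8 u.x0]⟩

/-- the check of an item with patch `p` and king on `k` -/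
noncomputable def wuOk (T : WT) (S : List (List Pc)) (acc : List Mo) (u : WU) (p k : Nat) : Bool :=
  noMk (nthP S u.i) && (Nat.ble u.φ 1 && (swOk T.H T.A S u.i (u.sw T.t) p k &&
    (allb (fun i => noMk (nthP S i) && membM i (cond (Nat.beq u.e 0) u.φ 1) acc) u.x0 &&
      allb (fun i => noMk (nthP S i) && membM i u.φ acc) u.x1)))

/-- the pairs of a list of items -/
def keysWU (L : List WU) (acc : List Mo) : List Mo := List.rec acc (fun u _ ih => ⟨u.i, u.φ⟩ :: ih) L

/-- the check of a list of items -/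
noncomputable def grpWU (T : WT) (S : List (List Pc)) (acc : List Mo) (L : List WU) : Bool :=
  List.rec true (fun u L' ih => wuOk T S (keysWU L' acc) u (patW T.A S u.X u.Y u.i (u.sw T.t).M)
    (kOf u.X u.Y (nthP S u.i)) && ih) L

/-- all patches of a list of items satisfy a condition -/
def AllP (L : List WU) (Q : Nat → Nat → Nat → Prop) : Prop := ∀ u ∈ L, u.e ≠ 0 → Q u.X u.Y u.e

/-- An item of a lower bound: state `i`, phase `φ`; kind `0`: Black plays `a → b` (check by the piece on
`s`), White answers with the king to `k₁`, which leads to the state `j₁`; kind `1`: mate; kind `2`: fork, two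
answers; kind `3`: a queen arrives on the ray. -/
structure WL where
  /-- the state -/
  i : Nat
  /-- the phase -/
  φ : Nat
  /-- first coordinate of the centre -/
  X : Nat
  /-- second coordinate of the centre -/
  Y : Nat
  /-- the cell of the mark, or `0` -/
  e : Nat
  /-- kind -/
  kd : Nat
  /-- source -/
  a : Nat
  /-- target -/
  b : Nat
  /-- checking piece -/
  s : Nat
  /-- first answer -/
  k₁ : Nat
  /-- first next state -/
  j₁ : Nat
  /-- second answer -/
  k₂ : Nat
  /-- second next state -/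
  j₂ : Nat

/-- the verification datum of an item -/
def WL.sw (t : Nat) (u : WL) : SW :=
  ⟨u.X, u.Y, mkW u.X u.Y u.e (cond (Nat.beq u.φ 0) 7 8), rsW t u.e, PW, Nat.sub 1 u.φ, Tr.nil, []⟩

/-- the marks after the move -/
def WL.mk' (u : WL) : List Pc := mkW u.X u.Y u.e (cond (Nat.beq u.φ 0) 7 8)

/-- the window tile as a tile with a resident (without stations), for the scans of `Mem.lean` -/
def WT.mt (T : WT) : MT := ⟨T.H, T.A, 12, []⟩

/-- the cells of the line from the cell `j` on, as long as they have distance at least two from the boundary of the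
array, satisfy a condition -/
def upA (T : WT) (f : Nat → Bool) (n : Nat) : Nat → Bool :=
  Nat.rec (fun _ => false) (fun _ ih j => cond (inA2 T.H j) (f j && ih (stA T.t j)) true) n

/-- no White piece comes to the cells of the line -/
def whiteUp (T : WT) : Bool := upA T (whiteZ T.mt T.t false) 150 (stA T.t T.z)

/-- the ray as in `Mem.lean` -/
def WT.ray (T : WT) (e : Nat) : Ray := ⟨e, T.t, 13⟩

/-- the cell `z` is reached from `j` in direction `t` -/
def onL (t z n : Nat) : Nat → Bool :=
  Nat.rec (fun _ => false) (fun _ ih j => Nat.beq j z || ih (stA t j)) n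

/-- the cell `j` holds a pawn or a knight -/
def pnA (T : WT) (j : Nat) : Bool := inA T.H j && msk 0x606 (cell T.A j)

/-- the check of the patch around `(X, Y)` with mark on `e` -/
def wpOk (T : WT) (X Y e : Nat) : Bool :=
  ands [Nat.ble 11 X, Nat.ble X 68, Nat.ble 11 Y, Nat.ble (Nat.add Y 11) T.H,
    decide (Inner e), decide (¬ Inner (stp T.t e)),
    nearA X Y (stA T.t T.z), onL T.t (zA X Y (T.ray e) 0) 16 (stA T.t T.z),
    (aO fun u => (Nat.beq u T.t || !outC (stp u e)) || pnA T (stA u (zA X Y (T.ray e) 0))),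
    (aD fun u => (Nat.beq u T.t || !outC (stp u e)) || pnA T (stA u (zA X Y (T.ray e) 0))),
    upA T (sideA T.mt X Y [] T.t) 150 (zA X Y (T.ray e) 1)]

/-- the check of a window tile -/
def wtOk (T : WT) : Bool :=
  ands [!(aO fun u => !Nat.beq u T.t), Nat.ble 20 T.H, inA2 T.H T.z, whiteUp T]

/-- the check of an item of the lower bound with patch `p` and king on `k` -/
def wlOk (T : WT) (S : List (List Pc)) (acc : List Mo) (u : WL) (p k : Nat) : Bool :=
  ands [noMk (nthP S u.i), Nat.ble u.φ 1, noMk (nthP S u.j₁), noMk (nthP S u.j₂),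
    cond (Nat.beq u.kd 0)
      (mainW T.H T.A S u.i (u.sw T.t) p k u.a u.b u.s u.k₁ u.j₁ u.mk' && membM u.j₁ u.φ acc)
      (cond (Nat.beq u.kd 1) (mateW T.H T.A S u.i (u.sw T.t) p k u.a u.b u.s)
        (cond (Nat.beq u.kd 2)
          (mainW2 T.H T.A S u.i (u.sw T.t) p k u.a u.b u.s u.k₁ u.j₁ u.k₂ u.j₂ u.mk' &&
            (membM u.j₁ u.φ acc && membM u.j₂ u.φ acc))
          (ands [Nat.beq u.φ 0, !Nat.beq u.e 0,
            eventW T.H T.A S u.i (u.sw T.t) p k u.e T.t u.k₁ u.j₁ (mkW u.X u.Y u.e 8),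
            allb (fun q => Nat.ble 9 q.c || Nat.beq q.c 6) (nthP S u.i),
            Nat.beq (kA (nthP S u.i)) T.z, membM u.j₁ 1 acc])))]

/-- the pairs of a list of items -/
def keysWL (L : List WL) (acc : List Mo) : List Mo := List.rec acc (fun u _ ih => ⟨u.i, u.φ⟩ :: ih) L

/-- the check of a list of items -/
def grpWL (T : WT) (S : List (List Pc)) (acc : List Mo) (L : List WL) : Bool :=
  List.rec true (fun u L' ih => wlOk T S (keysWL L' acc) u (patW T.A S u.X u.Y u.i (u.sw T.t).M)
    (kOf u.X u.Y (nthP S u.i)) && ih) L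

/-- the position of a state -/
noncomputable def PFw (G : FGeo) (B0 : Board) (S : List (List Pc)) (O : Sq) (F : Far) (i : Nat) : Pos :=
  ⟨stB (fullB G B0 F) O (nthP S i), false⟩

/-- the queen `q` stands on the line, and there is no floating pawn before it -/
structure Ph1 (G : FGeo) (s : Svc) (T : WT) (F : Far) (q : Qn) : Prop where
  base : FBase G F
  far : FarS G s F (fun r => r ≠ q)
  on : G.line s (F.q q)
  free : ∀ c, G.line s c → (∃ i : ℕ, F.q q = c + i • vec T.t) → ¬ G.floater c

end Pool.Agent.Lib.H32C.Loc
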