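import Pool.Agent.Lib.H32C.FarTour

/-!
# The tours of the far queens
-/

set_option autoImplicit false

namespace Pool.Agent.Lib.H32C

variable {G : FGeo}

/-- services for an increment -/
def incS (q : Qn) : List Svc :=
  match q with
  | Qn.C => [Svc.E, Svc.N, Svc.W, Svc.N1, Svc.E, Svc.N2, Svc.W, Svc.H Qn.C]
  | q => [Svc.E, Svc.N, Svc.W, Svc.H q]

/-- services for a decrement -/
def decS (q : Qn) : List Svc :=
  match q with
  | Qn.C => [Svc.W, Svc.N2, Svc.E, Svc.N1, Svc.W, Svc.N, Svc.E, Svc.H Qn.C]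
  | q => [Svc.W, Svc.N, Svc.E, Svc.H q]

/-- services for a zero test -/
def zeroS (q : Qn) : List Svc := [Svc.Z q, Svc.H q]

/-- the tour of an increment of `A` or `B` -/
def incW2 (G : FGeo) (q : Qn) (y : ℤ) : List (Svc × Sq) :=
  [(Svc.E, (G.col q + y - G.e, G.e)), (Svc.N, (G.xN, G.col q + y - G.xN)),
    (Svc.W, (G.w + 2 * G.xN - G.col q - y, G.w)),
    (Svc.H q, (G.col q, y + 2 * (G.col q - G.xN)))]

/-- the tour of an increment of `C` -/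
def incW1 (G : FGeo) (y : ℤ) : List (Svc × Sq) :=
  [(Svc.E, (G.col Qn.C + y - G.e, G.e)), (Svc.N, (G.xN, G.col Qn.C + y - G.xN)),
    (Svc.W, (G.w + 2 * G.xN - G.col Qn.C - y, G.w)),
    (Svc.N1, (G.x1, G.col Qn.C + y - 2 * G.xN + G.x1)),
    (Svc.E, (G.col Qn.C + y - 2 * G.xN + 2 * G.x1 - G.e, G.e)),
    (Svc.N2, (G.x2, G.col Qn.C + y - 2 * G.xN + 2 * G.x1 - G.x2)),
    (Svc.W, (G.w - (G.col Qn.C + y - 2 * G.xN + 2 * G.x1 - 2 * G.x2), G.w)),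
    (Svc.H Qn.C, (G.col Qn.C, y + 2))]

/-- the tour of a decrement of `A` or `B` -/
def decW2 (G : FGeo) (q : Qn) (y : ℤ) : List (Svc × Sq) :=
  [(Svc.W, (G.w + G.col q - y, G.w)), (Svc.N, (G.xN, y - G.col q + G.xN)),
    (Svc.E, (y - G.col q + 2 * G.xN - G.e, G.e)),
    (Svc.H q, (G.col q, y - 2 * (G.col q - G.xN)))]

/-- the tour of a decrement of `C` -/
def decW1 (G : FGeo) (y : ℤ) : List (Svc × Sq) :=
  [(Svc.W, (G.w + G.col Qn.C - y, G.w)), (Svc.N2, (G.x2, y - G.col Qn.C + G.x2)),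
    (Svc.E, (y - G.col Qn.C + 2 * G.x2 - G.e, G.e)),
    (Svc.N1, (G.x1, y - G.col Qn.C + 2 * G.x2 - G.x1)),
    (Svc.W, (G.w - (y - G.col Qn.C + 2 * G.x2 - 2 * G.x1), G.w)),
    (Svc.N, (G.xN, y - G.col Qn.C + 2 * G.x2 - 2 * G.x1 + G.xN)),
    (Svc.E, (y - G.col Qn.C + 2 * G.x2 - 2 * G.x1 + 2 * G.xN - G.e, G.e)),
    (Svc.H Qn.C, (G.col Qn.C, y - 2))]

/-- the tour of an increment -/
def incW (G : FGeo) (q : Qn) (y : ℤ) : List (Svc × Sq) :=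
  match q with
  | Qn.C => incW1 G y
  | q => incW2 G q y

/-- the tour of a decrement -/
def decW (G : FGeo) (q : Qn) (y : ℤ) : List (Svc × Sq) :=
  match q with
  | Qn.C => decW1 G y
  | q => decW2 G q y

/-- the tour of a zero test -/
def zeroW (G : FGeo) (q : Qn) : List (Svc × Sq) :=
  [(Svc.Z q, (G.col q - G.j q, G.base q - G.j q)), (Svc.H q, (G.col q, G.base q))]

theorem incW_fst (q : Qn) (y : ℤ) : (incW G q y).map Prod.fst = incS q := by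
  cases q <;> rfl

theorem decW_fst (q : Qn) (y : ℤ) : (decW G q y).map Prod.fst = decS q := by
  cases q <;> rfl

theorem zeroW_fst (q : Qn) : (zeroW G q).map Prod.fst = zeroS q := rfl

theorem incW_last (p : Sq) (q : Qn) (y : ℤ) : lastSq p (incW G q y) = (G.col q, y + G.unit q) := by
  cases q <;> rfl

theorem decW_last (p : Sq) (q : Qn) (y : ℤ) : lastSq p (decW G q y) = (G.col q, y - G.unit q) := by
  cases q <;> rfl

theorem zeroW_last (p : Sq) (q : Qn) : lastSq p (zeroW G q) = (G.col q, G.base q) := rfl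

theorem uE {F : Far} {p t : Sq} (h1 : p.1 ≤ G.xE) (h2 : G.e < p.2)
    (ht : t = (p.1 + p.2 - G.e, G.e)) :
    ∀ t', G.ray Svc.E t' → FarU G F p t' → t' = t :=
  fun _ hr hf => (ray_E hf.1 hr h1 h2).trans ht.symm

theorem uW {F : Far} {p t : Sq} (h1 : G.xW ≤ p.1) (h2 : G.w < p.2)
    (ht : t = (G.w + p.1 - p.2, G.w)) :
    ∀ t', G.ray Svc.W t' → FarU G F p t' → t' = t :=
  fun _ hr hf => (ray_W hf.1 hr h1 h2).trans ht.symm

theorem ucE {F : Far} {p t : Sq} {s : Svc} {x y : ℤ} (hs : ∀ t', G.ray s t' → t'.1 = x ∧ y < t'.2)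
    (h1 : x < p.1) (h2 : p.2 = G.e) (h3 : G.e ≤ y) (ht : t = (x, p.1 + p.2 - x)) :
    ∀ t', G.ray s t' → FarU G F p t' → t' = t :=
  fun _ hr hf => (col_E hf.1 (hs _ hr) h1 h2 h3).trans ht.symm

theorem ucW {F : Far} {p t : Sq} {s : Svc} {x y : ℤ} (hs : ∀ t', G.ray s t' → t'.1 = x ∧ y < t'.2)
    (h1 : p.1 < x) (h2 : p.2 = G.w) (h3 : G.w ≤ y) (ht : t = (x, p.2 - p.1 + x)) :
    ∀ t', G.ray s t' → FarU G F p t' → t' = t :=
  fun _ hr hf => (col_W hf.1 (hs _ hr) h1 h2 h3).trans ht.symm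

theorem rayN {t : Sq} (h : G.ray Svc.N t) : t.1 = G.xN ∧ G.yw Svc.N < t.2 := h
theorem rayN1 {t : Sq} (h : G.ray Svc.N1 t) : t.1 = G.x1 ∧ G.yw Svc.N1 < t.2 := h
theorem rayN2 {t : Sq} (h : G.ray Svc.N2 t) : t.1 = G.x2 ∧ G.yw Svc.N2 < t.2 := h
theorem rayH {q : Qn} {t : Sq} (h : G.ray (Svc.H q) t) :
    t.1 = G.col q ∧ G.yw (Svc.H q) < t.2 := h

theorem HZ_ne {q : Qn} : ∀ r, r ≠ q → Svc.H q ≠ Svc.H r ∧ Svc.H q ≠ Svc.Z r := by
  intro r hr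
  exact ⟨fun h => hr (Svc.H.inj h).symm, fun h => by cases h⟩

theorem outE {c : Sq} (h1 : G.e ≤ c.2) (h2 : G.X0 ≤ c.1 + c.2) : G.Outside c := Or.inl ⟨h1, h2⟩

theorem outW {c : Sq} (h1 : G.w ≤ c.2) (h2 : G.c1 ≤ c.2 - c.1) : G.Outside c :=
  Or.inr (Or.inl ⟨h1, h2⟩)

theorem incU2 (h : G.Ok) {q : Qn} (hq : q ≠ Qn.C) (F : Far) {y : ℤ} (hy : G.base q ≤ y) :
    TourU G q F (G.col q, y) (incW2 G q y) := by
  obtain ⟨a1, a2, a3, a4, a5, a6, a7, a8, a9, a10, a11⟩ := h.all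
  have e1 := h.he Svc.N
  have e2 := h.hw Svc.N
  have e3 := h.he (Svc.H q)
  have e4 := h.hw (Svc.H q)
  have e5 := h.hT q
  have e6 := h.hy Svc.N
  have e7 := h.hy (Svc.H q)
  have hb : G.base q + G.col q ≥ G.X0 := by cases q <;> simp only [FGeo.base] <;> omega
  have hc : G.col Qn.C + 4 ≤ G.col q ∧ G.col q ≤ G.xE ∧ 3 ≤ G.j q := by
    rcases q with _ | _ | _
    · omega
    · omega
    · exact absurd rfl hq
  obtain ⟨hc, hcE, hcj⟩ := hc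
  refine ⟨rfl, fun r _ => ⟨nofun, nofun⟩, ?_, uE ?_ ?_ ?_, outE ?_ ?_,
    rfl, fun r _ => ⟨nofun, nofun⟩, ?_, ucE (fun _ => rayN) ?_ ?_ ?_ ?_, outE ?_ ?_,
    rfl, fun r _ => ⟨nofun, nofun⟩, ?_, uW ?_ ?_ ?_, outW ?_ ?_,
    rfl, HZ_ne, ?_, ucW (fun _ => rayH) ?_ ?_ ?_ ?_, outE ?_ ?_, trivial⟩ <;>
  (try simp only [FGeo.ray, FGeo.line, FGeo.c1, Prod.mk.injEq, true_and, and_true]) <;> omega

theorem decU2 (h : G.Ok) {q : Qn} (hq : q ≠ Qn.C) (F : Far) {y : ℤ}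
    (hy : G.base q + G.unit q ≤ y) : TourU G q F (G.col q, y) (decW2 G q y) := by
  obtain ⟨a1, a2, a3, a4, a5, a6, a7, a8, a9, a10, a11⟩ := h.all
  have e1 := h.he Svc.N
  have e2 := h.hw Svc.N
  have e3 := h.he (Svc.H q)
  have e4 := h.hw (Svc.H q)
  have e5 := h.hT q
  have e6 := h.hy Svc.N
  have e7 := h.hy (Svc.H q)
  have hb : G.base q + G.col q ≥ G.X0 := by cases q <;> simp only [FGeo.base] <;> omega
  have hc : G.col Qn.C + 4 ≤ G.col q ∧ G.col q ≤ G.xE ∧ 3 ≤ G.j q ∧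
      G.unit q = 2 * (G.col q - G.xN) := by
    rcases q with _ | _ | _
    · exact ⟨by omega, by omega, by omega, rfl⟩
    · exact ⟨by omega, by omega, by omega, rfl⟩
    · exact absurd rfl hq
  obtain ⟨hc, hcE, hcj, hu⟩ := hc
  rw [hu] at hy
  refine ⟨rfl, fun r _ => ⟨nofun, nofun⟩, ?_, uW ?_ ?_ ?_, outW ?_ ?_,
    rfl, fun r _ => ⟨nofun, nofun⟩, ?_, ucW (fun _ => rayN) ?_ ?_ ?_ ?_, outW ?_ ?_,
    rfl, fun r _ => ⟨nofun, nofun⟩, ?_, uE ?_ ?_ ?_, outE ?_ ?_,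
    rfl, HZ_ne, ?_, ucE (fun _ => rayH) ?_ ?_ ?_ ?_, outE ?_ ?_, trivial⟩ <;>
  (try simp only [FGeo.ray, FGeo.line, FGeo.c1, Prod.mk.injEq, true_and, and_true]) <;> omega

theorem incU1 (h : G.Ok) (F : Far) {y : ℤ} (hy : G.base Qn.C ≤ y) :
    TourU G Qn.C F (G.col Qn.C, y) (incW1 G y) := by
  obtain ⟨a1, a2, a3, a4, a5, a6, a7, a8, a9, a10, a11⟩ := h.all
  have e1 := h.he Svc.N
  have e2 := h.hw Svc.N
  have e3 := h.he (Svc.H Qn.C)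
  have e4 := h.hw (Svc.H Qn.C)
  have e5 := h.hT Qn.C
  have e6 := h.hy Svc.N
  have e7 := h.hy (Svc.H Qn.C)
  have f1 := h.he Svc.N1
  have f2 := h.hw Svc.N1
  have f3 := h.hy Svc.N1
  have f4 := h.he Svc.N2
  have f5 := h.hw Svc.N2
  have f6 := h.hy Svc.N2
  simp only [FGeo.base] at hy e5
  refine ⟨rfl, fun r _ => ⟨nofun, nofun⟩, ?_, uE ?_ ?_ ?_, outE ?_ ?_,
    rfl, fun r _ => ⟨nofun, nofun⟩, ?_, ucE (fun _ => rayN) ?_ ?_ ?_ ?_, outE ?_ ?_,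
    rfl, fun r _ => ⟨nofun, nofun⟩, ?_, uW ?_ ?_ ?_, outW ?_ ?_,
    rfl, fun r _ => ⟨nofun, nofun⟩, ?_, ucW (fun _ => rayN1) ?_ ?_ ?_ ?_, outW ?_ ?_,
    rfl, fun r _ => ⟨nofun, nofun⟩, ?_, uE ?_ ?_ ?_, outE ?_ ?_,
    rfl, fun r _ => ⟨nofun, nofun⟩, ?_, ucE (fun _ => rayN2) ?_ ?_ ?_ ?_, outE ?_ ?_,
    rfl, fun r _ => ⟨nofun, nofun⟩, ?_, uW ?_ ?_ ?_, outW ?_ ?_,
    rfl, HZ_ne, ?_, ucW (fun _ => rayH) ?_ ?_ ?_ ?_, outE ?_ ?_, trivial⟩ <;>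
  (try simp only [FGeo.ray, FGeo.line, FGeo.c1, Prod.mk.injEq, true_and, and_true]) <;> omega

theorem decU1 (h : G.Ok) (F : Far) {y : ℤ} (hy : G.base Qn.C + 2 ≤ y) :
    TourU G Qn.C F (G.col Qn.C, y) (decW1 G y) := by
  obtain ⟨a1, a2, a3, a4, a5, a6, a7, a8, a9, a10, a11⟩ := h.all
  have e1 := h.he Svc.N
  have e2 := h.hw Svc.N
  have e3 := h.he (Svc.H Qn.C)
  have e4 := h.hw (Svc.H Qn.C)
  have e5 := h.hT Qn.C
  have e6 := h.hy Svc.N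
  have e7 := h.hy (Svc.H Qn.C)
  have f1 := h.he Svc.N1
  have f2 := h.hw Svc.N1
  have f3 := h.hy Svc.N1
  have f4 := h.he Svc.N2
  have f5 := h.hw Svc.N2
  have f6 := h.hy Svc.N2
  simp only [FGeo.base] at hy e5
  refine ⟨rfl, fun r _ => ⟨nofun, nofun⟩, ?_, uW ?_ ?_ ?_, outW ?_ ?_,
    rfl, fun r _ => ⟨nofun, nofun⟩, ?_, ucW (fun _ => rayN2) ?_ ?_ ?_ ?_, outW ?_ ?_,
    rfl, fun r _ => ⟨nofun, nofun⟩, ?_, uE ?_ ?_ ?_, outE ?_ ?_,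
    rfl, fun r _ => ⟨nofun, nofun⟩, ?_, ucE (fun _ => rayN1) ?_ ?_ ?_ ?_, outE ?_ ?_,
    rfl, fun r _ => ⟨nofun, nofun⟩, ?_, uW ?_ ?_ ?_, outW ?_ ?_,
    rfl, fun r _ => ⟨nofun, nofun⟩, ?_, ucW (fun _ => rayN) ?_ ?_ ?_ ?_, outW ?_ ?_,
    rfl, fun r _ => ⟨nofun, nofun⟩, ?_, uE ?_ ?_ ?_, outE ?_ ?_,
    rfl, HZ_ne, ?_, ucE (fun _ => rayH) ?_ ?_ ?_ ?_, outE ?_ ?_, trivial⟩ <;>
  (try simp only [FGeo.ray, FGeo.line, FGeo.c1, Prod.mk.injEq, true_and, and_true]) <;> omega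

theorem incU (h : G.Ok) (q : Qn) (F : Far) {y : ℤ} (hy : G.base q ≤ y) :
    TourU G q F (G.col q, y) (incW G q y) := by
  cases q
  · exact incU2 h (by simp) F hy
  · exact incU2 h (by simp) F hy
  · exact incU1 h F hy

theorem decU (h : G.Ok) (q : Qn) (F : Far) {y : ℤ} (hy : G.base q + G.unit q ≤ y) :
    TourU G q F (G.col q, y) (decW G q y) := by
  cases q
  · exact decU2 h (by simp) F hy
  · exact decU2 h (by simp) F hy
  · exact decU1 h F hy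

theorem j_ge (h : G.Ok) (q : Qn) : 3 ≤ G.j q := by
  cases q
  · exact h.hjA
  · exact h.hjB
  · exact h.hjC

theorem zeroU (h : G.Ok) (q : Qn) (F : Far) :
    TourU G q F (G.col q, G.base q) (zeroW G q) := by
  have hj := j_ge h q
  have e5 := h.hT q
  have e7 := h.hy (Svc.H q)
  refine ⟨rfl, fun r hr => ⟨nofun, fun hz => hr (Svc.Z.inj hz).symm⟩, ?_, ?_, Or.inr (Or.inr ?_),
    rfl, HZ_ne, ?_, ?_, Or.inr (Or.inr ?_), trivial⟩
  · simp only [FGeo.line]; omega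
  · intro t' hr hf
    exact (ray_Z hf.1 hr rfl le_rfl hj).2
  · simp only; omega
  · simp only [FGeo.line]; omega
  · intro t' hr hf
    exact home_Z hf hr.1 hj
  · simp only; omega

/-- the zero test is impossible for a positive counter -/
theorem zero_dead (h : G.Ok) {q : Qn} {F : Far} {p t : Sq} (h1 : p.1 = G.col q)
    (h2 : G.base q < p.2) (ht : G.ray (Svc.Z q) t) (hf : FarU G F p t) : False := by
  have := (ray_Z hf.1 ht h1 h2.le (j_ge h q)).1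
  omega

/-- the decrement is impossible for the counter zero -/
theorem dec_dead (h : G.Ok) {q : Qn} {F : Far} {p t : Sq} (h1 : p.1 = G.col q)
    (h2 : p.2 = G.base q) (ht : G.ray Svc.W t) (hf : FarU G F p t) : False := by
  have hj := j_ge h q
  have e2 := h.hw Svc.N
  have e5 := h.hT q
  have e6 := h.hy Svc.N
  have hx : G.xW ≤ p.1 := by
    obtain ⟨a1, a2, a3, a4, a5, a6, a7, a8, a9, a10, a11⟩ := h.all
    rw [h1]
    cases q <;> omega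
  have := ray_W hf.1 ht hx (by omega)
  rw [this] at hf
  refine stop_SW hf h1 h2 hj ?_ ?_ ?_ <;> simp only <;> omega

end Pool.Agent.Lib.H32C
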