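import Pool.Agent.Lib.H32C.FarWord

/-!
# The tours of the far queens: lower bounds
-/

set_option autoImplicit false

namespace Pool.Agent.Lib.H32C

variable {G : FGeo}

theorem farL_E {F : Far} {q : Qn} {p t : Sq} {V : ℤ} (h1 : p.1 + p.2 = V) (h2 : t.1 + t.2 = V)
    (hne : p.1 ≠ t.1) (he1 : G.e ≤ p.2) (he2 : G.e ≤ t.2) (hV : G.X0 ≤ V)
    (hb : F.b.1 + F.b.2 ≠ V) (hr : ∀ r, r ≠ q → (F.q r).1 + (F.q r).2 ≠ V) :
    FarL G (F.set q p) q t := by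
  have key : ∀ c, BetwI p t c → c.1 + c.2 = V ∧ G.e ≤ c.2 := by
    intro c hc
    obtain ⟨c1, c2⟩ := c
    obtain ⟨p1, p2⟩ := p
    obtain ⟨t1, t2⟩ := t
    simp only [BetwI, OrthI] at *
    omega
  refine ⟨?_, ?_, ?_, ?_⟩
  · rw [Far.set_q]
    right
    obtain ⟨p1, p2⟩ := p
    obtain ⟨t1, t2⟩ := t
    simp only [DiagI] at *
    omega
  · rw [Far.set_q]
    intro c hc
    have := key c hc
    refine ⟨Or.inl ⟨this.2, by omega⟩, ?_⟩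
    rintro rfl
    exact hb this.1
  · rintro rfl
    exact hb h2
  · intro r hrq
    rw [Far.set_q, Far.set_ne _ _ hrq]
    refine ⟨?_, fun c hc => ?_⟩
    · rintro rfl
      exact hr r hrq h2
    · rintro rfl
      exact hr r hrq (key _ hc).1

theorem farL_W {F : Far} {q : Qn} {p t : Sq} {V : ℤ} (h1 : p.2 - p.1 = V) (h2 : t.2 - t.1 = V)
    (hne : p.1 ≠ t.1) (he1 : G.w ≤ p.2) (he2 : G.w ≤ t.2) (hV : G.c1 ≤ V)
    (hb : F.b.2 - F.b.1 ≠ V) (hr : ∀ r, r ≠ q → (F.q r).2 - (F.q r).1 ≠ V) :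
    FarL G (F.set q p) q t := by
  have key : ∀ c, BetwI p t c → c.2 - c.1 = V ∧ G.w ≤ c.2 := by
    intro c hc
    obtain ⟨c1, c2⟩ := c
    obtain ⟨p1, p2⟩ := p
    obtain ⟨t1, t2⟩ := t
    simp only [BetwI, OrthI] at *
    omega
  refine ⟨?_, ?_, ?_, ?_⟩
  · rw [Far.set_q]
    right
    obtain ⟨p1, p2⟩ := p
    obtain ⟨t1, t2⟩ := t
    simp only [DiagI] at *
    omega
  · rw [Far.set_q]
    intro c hc
    have := key c hc
    refine ⟨Or.inr (Or.inl ⟨this.2, by omega⟩), ?_⟩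
    rintro rfl
    exact hb this.1
  · rintro rfl
    exact hb h2
  · intro r hrq
    rw [Far.set_q, Far.set_ne _ _ hrq]
    refine ⟨?_, fun c hc => ?_⟩
    · rintro rfl
      exact hr r hrq h2
    · rintro rfl
      exact hr r hrq (key _ hc).1

/-- moves on the short diagonal of a zero test -/
theorem farL_Z {F : Far} {q : Qn} {p t : Sq} (h1 : p.2 - p.1 = G.base q - G.col q)
    (h2 : t.2 - t.1 = G.base q - G.col q) (hne : p.1 ≠ t.1)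
    (hp : G.col q - G.j q ≤ p.1 ∧ p.1 ≤ G.col q) (ht : G.col q - G.j q ≤ t.1 ∧ t.1 ≤ G.col q)
    (hb : F.b.2 - F.b.1 ≠ G.base q - G.col q)
    (hr : ∀ r, r ≠ q → (F.q r).2 - (F.q r).1 ≠ G.base q - G.col q) :
    FarL G (F.set q p) q t := by
  have key : ∀ c, BetwI p t c → c.2 - c.1 = G.base q - G.col q ∧ c.1 < G.col q ∧
      G.col q - G.j q < c.1 := by
    intro c hc
    obtain ⟨c1, c2⟩ := c
    obtain ⟨p1, p2⟩ := p
    obtain ⟨t1, t2⟩ := t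
    simp only [BetwI, OrthI] at *
    omega
  refine ⟨?_, ?_, ?_, ?_⟩
  · rw [Far.set_q]
    right
    obtain ⟨p1, p2⟩ := p
    obtain ⟨t1, t2⟩ := t
    simp only [DiagI] at *
    omega
  · rw [Far.set_q]
    intro c hc
    have := key c hc
    refine ⟨Or.inr (Or.inr ⟨q, this.2.1, this.2.2, this.1⟩), ?_⟩
    rintro rfl
    exact hb this.1
  · rintro rfl
    exact hb h2
  · intro r hrq
    rw [Far.set_q, Far.set_ne _ _ hrq]
    refine ⟨?_, fun c hc => ?_⟩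
    · rintro rfl
      exact hr r hrq h2
    · rintro rfl
      exact hr r hrq (key _ hc).1

/-- no floaters on the lines in the east -/
theorem flE (h : G.Ok) {t : Sq} (ht : G.X0 ≤ t.1 + t.2) : ¬ G.floater t := by
  have h1 := h.hjA
  have h2 := h.hjB
  have h3 := h.hjC
  rintro ⟨q, hq | hq | hq | hq⟩ <;> rw [hq] at ht <;> cases q <;> simp only [FGeo.base] at ht <;> omega

/-- no floaters on the lines in the west -/
theorem flW (h : G.Ok) {t : Sq} (ht : G.c1 ≤ t.2 - t.1) : ¬ G.floater t := by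
  obtain ⟨a1, a2, a3, a4, a5, a6, a7, a8, a9, a10, a11⟩ := h.all
  rintro ⟨q, hq | hq | hq | hq⟩ <;> rw [hq] at ht <;> cases q <;>
    simp only [FGeo.base, FGeo.c1] at ht <;> omega

theorem flZ (h : G.Ok) {q : Qn} : ¬ G.floater (G.col q - G.j q, G.base q - G.j q) := by
  obtain ⟨a1, a2, a3, a4, a5, a6, a7, a8, a9, a10, a11⟩ := h.all
  rintro ⟨r, hq | hq | hq | hq⟩ <;> simp only [Prod.mk.injEq] at hq <;> cases q <;> cases r <;> omega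

theorem clsE2 (h : G.Ok) {q r : Qn} (hq : q ≠ Qn.C) (hr : r ≠ q) {p : Sq} (hp : HomeC G r p)
    {y : ℤ} (hy : HomeC G q (G.col q, y)) {V : ℤ} (hV : (V - (G.col q + y)) % 4 = 0) :
    p.1 + p.2 ≠ V := by
  have h1 := h.evA
  have h2 := h.evB
  obtain ⟨p1, p2⟩ := p
  obtain ⟨hp1, -, hp2⟩ := hp
  obtain ⟨-, -, hy2⟩ := hy
  cases q <;> cases r <;>
    first
    | exact absurd rfl hq
    | exact absurd rfl hr
    | (simp only [FGeo.base] at *; omega)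

theorem clsW2 (h : G.Ok) {q r : Qn} (hq : q ≠ Qn.C) (hr : r ≠ q) {p : Sq} (hp : HomeC G r p)
    {y : ℤ} (hy : HomeC G q (G.col q, y)) {V : ℤ} (hV : (V - (y - G.col q)) % 4 = 0) :
    p.2 - p.1 ≠ V := by
  have h1 := h.evA
  have h2 := h.evB
  obtain ⟨p1, p2⟩ := p
  obtain ⟨hp1, -, hp2⟩ := hp
  obtain ⟨-, -, hy2⟩ := hy
  cases q <;> cases r <;>
    first
    | exact absurd rfl hq
    | exact absurd rfl hr
    | (simp only [FGeo.base] at *; omega)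

theorem clsE1 (h : G.Ok) {r : Qn} (hr : r ≠ Qn.C) {p : Sq} (hp : HomeC G r p)
    {y : ℤ} (hy : HomeC G Qn.C (G.col Qn.C, y)) {V : ℤ} (hV : (V - (G.col Qn.C + y)) % 2 = 0) :
    p.1 + p.2 ≠ V := by
  have h1 := h.evA
  have h2 := h.evB
  obtain ⟨p1, p2⟩ := p
  obtain ⟨hp1, -, hp2⟩ := hp
  obtain ⟨-, -, hy2⟩ := hy
  cases r <;>
    first
    | exact absurd rfl hr
    | (simp only [FGeo.base] at *; omega)

theorem clsW1 (h : G.Ok) {r : Qn} (hr : r ≠ Qn.C) {p : Sq} (hp : HomeC G r p)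
    {y : ℤ} (hy : HomeC G Qn.C (G.col Qn.C, y)) {V : ℤ} (hV : (V - (y - G.col Qn.C)) % 2 = 0) :
    p.2 - p.1 ≠ V := by
  have h1 := h.evA
  have h2 := h.evB
  obtain ⟨p1, p2⟩ := p
  obtain ⟨hp1, -, hp2⟩ := hp
  obtain ⟨-, -, hy2⟩ := hy
  cases r <;>
    first
    | exact absurd rfl hr
    | (simp only [FGeo.base] at *; omega)

/-- the bishop is never on the lines in the west -/
theorem b_W (h : G.Ok) {F : Far} (hb : BOk G F) {V : ℤ} (hV : G.X0 - 2 * G.xD < V) :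
    F.b.2 - F.b.1 ≠ V := by
  have := hb.dif
  omega

theorem incL2 (h : G.Ok) {q : Qn} (hq : q ≠ Qn.C) {F : Far} (hF : ∀ r, r ≠ q → HomeC G r (F.q r))
    (hB : BOk G F) {y : ℤ} (hy : HomeC G q (G.col q, y)) (hbE : F.b.1 + F.b.2 ≠ G.col q + y) :
    TourL G q F (G.col q, y) (incW2 G q y) := by
  obtain ⟨a1, a2, a3, a4, a5, a6, a7, a8, a9, a10, a11⟩ := h.all
  have e1 := h.he Svc.N
  have e2 := h.hw Svc.N
  have e3 := h.he (Svc.H q)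
  have e4 := h.hw (Svc.H q)
  have e5 := h.hT q
  have e6 := h.hy Svc.N
  have e7 := h.hy (Svc.H q)
  have e8 := h.hE0
  have e9 := h.hW0
  have hb : G.base q + G.col q ≥ G.X0 := by cases q <;> simp only [FGeo.base] <;> omega
  have hc : G.col Qn.C + 4 ≤ G.col q ∧ G.col q ≤ G.xE ∧ 3 ≤ G.j q ∧ (G.col q - G.xN) % 2 = 0 ∧
      G.col q + 2 ≤ G.xD := by
    have h1 := h.evA
    have h2 := h.evB
    rcases q with _ | _ | _
    · exact ⟨by omega, by omega, by omega, h1, by omega⟩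
    · exact ⟨by omega, by omega, by omega, h2, by omega⟩
    · exact absurd rfl hq
  obtain ⟨hc, hcE, hcj, hev, hcD⟩ := hc
  have hy' : G.base q ≤ y := hy.ge h
  simp only [FGeo.c1] at e9
  refine ⟨rfl, fun r _ => nofun, ?_, ⟨?_, ?_⟩,
    farL_E (V := G.col q + y) ?_ ?_ ?_ ?_ ?_ ?_ ?_ (fun r hr => clsE2 h hq hr (hF r hr) hy ?_),
      outE ?_ ?_, flE h ?_,
    rfl, fun r _ => nofun, ?_, ⟨?_, ?_⟩,
    farL_E (V := G.col q + y) ?_ ?_ ?_ ?_ ?_ ?_ ?_ (fun r hr => clsE2 h hq hr (hF r hr) hy ?_),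
      outE ?_ ?_, flE h ?_,
    rfl, fun r _ => nofun, ?_, ⟨?_, ?_⟩,
    farL_W (V := G.col q + y - 2 * G.xN) ?_ ?_ ?_ ?_ ?_ ?_ (b_W h hB ?_)
      (fun r hr => clsW2 h hq hr (hF r hr) hy ?_), outW ?_ ?_, flW h ?_,
    rfl, fun r hr => (HZ_ne r hr).1, ?_, ⟨?_, ?_⟩,
    farL_W (V := G.col q + y - 2 * G.xN) ?_ ?_ ?_ ?_ ?_ ?_ (b_W h hB ?_)
      (fun r hr => clsW2 h hq hr (hF r hr) hy ?_), outE ?_ ?_, flE h ?_, trivial⟩ <;>
  first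
  | exact hbE
  | ((try simp only [FGeo.ray, FGeo.line, FGeo.c1, Prod.mk.injEq, true_and, and_true]) <;> omega)

theorem decL2 (h : G.Ok) {q : Qn} (hq : q ≠ Qn.C) {F : Far} (hF : ∀ r, r ≠ q → HomeC G r (F.q r))
    (hB : BOk G F) {y : ℤ} (hy : HomeC G q (G.col q, y)) (hy1 : G.base q + G.unit q ≤ y)
    (hbE : F.b.1 + F.b.2 < G.X0) :
    TourL G q F (G.col q, y) (decW2 G q y) := by
  obtain ⟨a1, a2, a3, a4, a5, a6, a7, a8, a9, a10, a11⟩ := h.all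
  have e1 := h.he Svc.N
  have e2 := h.hw Svc.N
  have e3 := h.he (Svc.H q)
  have e4 := h.hw (Svc.H q)
  have e5 := h.hT q
  have e6 := h.hy Svc.N
  have e7 := h.hy (Svc.H q)
  have e8 := h.hE0
  have e9 := h.hW0
  have hb : G.base q + G.col q ≥ G.X0 := by cases q <;> simp only [FGeo.base] <;> omega
  have hc : G.col Qn.C + 4 ≤ G.col q ∧ G.col q ≤ G.xE ∧ 3 ≤ G.j q ∧ (G.col q - G.xN) % 2 = 0 ∧
      G.col q + 2 ≤ G.xD ∧ G.unit q = 2 * (G.col q - G.xN) := by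
    have h1 := h.evA
    have h2 := h.evB
    rcases q with _ | _ | _
    · exact ⟨by omega, by omega, by omega, h1, by omega, rfl⟩
    · exact ⟨by omega, by omega, by omega, h2, by omega, rfl⟩
    · exact absurd rfl hq
  obtain ⟨hc, hcE, hcj, hev, hcD, hu⟩ := hc
  rw [hu] at hy1
  simp only [FGeo.c1] at e9
  refine ⟨rfl, fun r _ => nofun, ?_, ⟨?_, ?_⟩,
    farL_W (V := y - G.col q) ?_ ?_ ?_ ?_ ?_ ?_ (b_W h hB ?_)
      (fun r hr => clsW2 h hq hr (hF r hr) hy ?_), outW ?_ ?_, flW h ?_,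
    rfl, fun r _ => nofun, ?_, ⟨?_, ?_⟩,
    farL_W (V := y - G.col q) ?_ ?_ ?_ ?_ ?_ ?_ (b_W h hB ?_)
      (fun r hr => clsW2 h hq hr (hF r hr) hy ?_), outW ?_ ?_, flW h ?_,
    rfl, fun r _ => nofun, ?_, ⟨?_, ?_⟩,
    farL_E (V := y - G.col q + 2 * G.xN) ?_ ?_ ?_ ?_ ?_ ?_ ?_
      (fun r hr => clsE2 h hq hr (hF r hr) hy ?_), outE ?_ ?_, flE h ?_,
    rfl, fun r hr => (HZ_ne r hr).1, ?_, ⟨?_, ?_⟩,
    farL_E (V := y - G.col q + 2 * G.xN) ?_ ?_ ?_ ?_ ?_ ?_ ?_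
      (fun r hr => clsE2 h hq hr (hF r hr) hy ?_), outE ?_ ?_, flE h ?_, trivial⟩ <;>
  ((try simp only [FGeo.ray, FGeo.line, FGeo.c1, Prod.mk.injEq, true_and, and_true]) <;> omega)

theorem incL1 (h : G.Ok) {F : Far} (hF : ∀ r, r ≠ Qn.C → HomeC G r (F.q r))
    (hB : BOk G F) {y : ℤ} (hy : HomeC G Qn.C (G.col Qn.C, y))
    (hbE : F.b.1 + F.b.2 ≠ G.col Qn.C + y)
    (hbE2 : F.b.1 + F.b.2 ≠ G.col Qn.C + y + 2 * (G.x1 - G.xN)) :
    TourL G Qn.C F (G.col Qn.C, y) (incW1 G y) := by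
  obtain ⟨a1, a2, a3, a4, a5, a6, a7, a8, a9, a10, a11⟩ := h.all
  have e1 := h.he Svc.N
  have e2 := h.hw Svc.N
  have e3 := h.he (Svc.H Qn.C)
  have e4 := h.hw (Svc.H Qn.C)
  have e5 := h.hT Qn.C
  have e6 := h.hy Svc.N
  have e7 := h.hy (Svc.H Qn.C)
  have f1 := h.he Svc.N1
  have f2 := h.hw Svc.N1
  have f3 := h.hy Svc.N1
  have f4 := h.he Svc.N2
  have f5 := h.hw Svc.N2
  have f6 := h.hy Svc.N2
  have e8 := h.hE0
  have e9 := h.hW0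
  have hy' : G.base Qn.C ≤ y := hy.ge h
  simp only [FGeo.c1] at e9
  simp only [FGeo.base] at e5 hy'
  refine ⟨rfl, fun r _ => nofun, ?_, ⟨?_, ?_⟩,
    farL_E (V := G.col Qn.C + y) ?_ ?_ ?_ ?_ ?_ ?_ ?_
      (fun r hr => clsE1 h hr (hF r hr) hy ?_), outE ?_ ?_, flE h ?_,
    rfl, fun r _ => nofun, ?_, ⟨?_, ?_⟩,
    farL_E (V := G.col Qn.C + y) ?_ ?_ ?_ ?_ ?_ ?_ ?_
      (fun r hr => clsE1 h hr (hF r hr) hy ?_), outE ?_ ?_, flE h ?_,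
    rfl, fun r _ => nofun, ?_, ⟨?_, ?_⟩,
    farL_W (V := G.col Qn.C + y - 2 * G.xN) ?_ ?_ ?_ ?_ ?_ ?_ (b_W h hB ?_)
      (fun r hr => clsW1 h hr (hF r hr) hy ?_), outW ?_ ?_, flW h ?_,
    rfl, fun r _ => nofun, ?_, ⟨?_, ?_⟩,
    farL_W (V := G.col Qn.C + y - 2 * G.xN) ?_ ?_ ?_ ?_ ?_ ?_ (b_W h hB ?_)
      (fun r hr => clsW1 h hr (hF r hr) hy ?_), outW ?_ ?_, flW h ?_,
    rfl, fun r _ => nofun, ?_, ⟨?_, ?_⟩,
    farL_E (V := G.col Qn.C + y + 2 * (G.x1 - G.xN)) ?_ ?_ ?_ ?_ ?_ ?_ ?_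
      (fun r hr => clsE1 h hr (hF r hr) hy ?_), outE ?_ ?_, flE h ?_,
    rfl, fun r _ => nofun, ?_, ⟨?_, ?_⟩,
    farL_E (V := G.col Qn.C + y + 2 * (G.x1 - G.xN)) ?_ ?_ ?_ ?_ ?_ ?_ ?_
      (fun r hr => clsE1 h hr (hF r hr) hy ?_), outE ?_ ?_, flE h ?_,
    rfl, fun r _ => nofun, ?_, ⟨?_, ?_⟩,
    farL_W (V := y + 2 - G.col Qn.C) ?_ ?_ ?_ ?_ ?_ ?_ (b_W h hB ?_)
      (fun r hr => clsW1 h hr (hF r hr) hy ?_), outW ?_ ?_, flW h ?_,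
    rfl, fun r hr => (HZ_ne r hr).1, ?_, ⟨?_, ?_⟩,
    farL_W (V := y + 2 - G.col Qn.C) ?_ ?_ ?_ ?_ ?_ ?_ (b_W h hB ?_)
      (fun r hr => clsW1 h hr (hF r hr) hy ?_), outE ?_ ?_, flE h ?_, trivial⟩ <;>
  ((try simp only [FGeo.ray, FGeo.line, FGeo.c1, Prod.mk.injEq, true_and, and_true]) <;> omega)

theorem decL1 (h : G.Ok) {F : Far} (hF : ∀ r, r ≠ Qn.C → HomeC G r (F.q r))
    (hB : BOk G F) {y : ℤ} (hy : HomeC G Qn.C (G.col Qn.C, y)) (hy1 : G.base Qn.C + 2 ≤ y)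
    (hbE : F.b.1 + F.b.2 < G.X0) :
    TourL G Qn.C F (G.col Qn.C, y) (decW1 G y) := by
  obtain ⟨a1, a2, a3, a4, a5, a6, a7, a8, a9, a10, a11⟩ := h.all
  have e1 := h.he Svc.N
  have e2 := h.hw Svc.N
  have e3 := h.he (Svc.H Qn.C)
  have e4 := h.hw (Svc.H Qn.C)
  have e5 := h.hT Qn.C
  have e6 := h.hy Svc.N
  have e7 := h.hy (Svc.H Qn.C)
  have f1 := h.he Svc.N1
  have f2 := h.hw Svc.N1
  have f3 := h.hy Svc.N1
  have f4 := h.he Svc.N2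
  have f5 := h.hw Svc.N2
  have f6 := h.hy Svc.N2
  have e8 := h.hE0
  have e9 := h.hW0
  simp only [FGeo.c1] at e9
  simp only [FGeo.base] at e5 hy1
  refine ⟨rfl, fun r _ => nofun, ?_, ⟨?_, ?_⟩,
    farL_W (V := y - G.col Qn.C) ?_ ?_ ?_ ?_ ?_ ?_ (b_W h hB ?_)
      (fun r hr => clsW1 h hr (hF r hr) hy ?_), outW ?_ ?_, flW h ?_,
    rfl, fun r _ => nofun, ?_, ⟨?_, ?_⟩,
    farL_W (V := y - G.col Qn.C) ?_ ?_ ?_ ?_ ?_ ?_ (b_W h hB ?_)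
      (fun r hr => clsW1 h hr (hF r hr) hy ?_), outW ?_ ?_, flW h ?_,
    rfl, fun r _ => nofun, ?_, ⟨?_, ?_⟩,
    farL_E (V := y - G.col Qn.C + 2 * G.x2) ?_ ?_ ?_ ?_ ?_ ?_ ?_
      (fun r hr => clsE1 h hr (hF r hr) hy ?_), outE ?_ ?_, flE h ?_,
    rfl, fun r _ => nofun, ?_, ⟨?_, ?_⟩,
    farL_E (V := y - G.col Qn.C + 2 * G.x2) ?_ ?_ ?_ ?_ ?_ ?_ ?_
      (fun r hr => clsE1 h hr (hF r hr) hy ?_), outE ?_ ?_, flE h ?_,
    rfl, fun r _ => nofun, ?_, ⟨?_, ?_⟩,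
    farL_W (V := y - G.col Qn.C + 2 * G.x2 - 2 * G.x1) ?_ ?_ ?_ ?_ ?_ ?_ (b_W h hB ?_)
      (fun r hr => clsW1 h hr (hF r hr) hy ?_), outW ?_ ?_, flW h ?_,
    rfl, fun r _ => nofun, ?_, ⟨?_, ?_⟩,
    farL_W (V := y - G.col Qn.C + 2 * G.x2 - 2 * G.x1) ?_ ?_ ?_ ?_ ?_ ?_ (b_W h hB ?_)
      (fun r hr => clsW1 h hr (hF r hr) hy ?_), outW ?_ ?_, flW h ?_,
    rfl, fun r _ => nofun, ?_, ⟨?_, ?_⟩,
    farL_E (V := y - G.col Qn.C + 2 * G.x2 - 2 * G.x1 + 2 * G.xN) ?_ ?_ ?_ ?_ ?_ ?_ ?_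
      (fun r hr => clsE1 h hr (hF r hr) hy ?_), outE ?_ ?_, flE h ?_,
    rfl, fun r hr => (HZ_ne r hr).1, ?_, ⟨?_, ?_⟩,
    farL_E (V := y - G.col Qn.C + 2 * G.x2 - 2 * G.x1 + 2 * G.xN) ?_ ?_ ?_ ?_ ?_ ?_ ?_
      (fun r hr => clsE1 h hr (hF r hr) hy ?_), outE ?_ ?_, flE h ?_, trivial⟩ <;>
  ((try simp only [FGeo.ray, FGeo.line, FGeo.c1, Prod.mk.injEq, true_and, and_true]) <;> omega)

theorem incL (h : G.Ok) (q : Qn) {F : Far} (hF : ∀ r, r ≠ q → HomeC G r (F.q r))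
    (hB : BOk G F) {y : ℤ} (hy : HomeC G q (G.col q, y))
    (hbE : F.b.1 + F.b.2 ≠ G.col q + y)
    (hbE2 : q = Qn.C → F.b.1 + F.b.2 ≠ G.col Qn.C + y + 2 * (G.x1 - G.xN)) :
    TourL G q F (G.col q, y) (incW G q y) := by
  cases q
  · exact incL2 h (by simp) hF hB hy hbE
  · exact incL2 h (by simp) hF hB hy hbE
  · exact incL1 h hF hB hy hbE (hbE2 rfl)

theorem decL (h : G.Ok) (q : Qn) {F : Far} (hF : ∀ r, r ≠ q → HomeC G r (F.q r))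
    (hB : BOk G F) {y : ℤ} (hy : HomeC G q (G.col q, y)) (hy1 : G.base q + G.unit q ≤ y)
    (hbE : F.b.1 + F.b.2 < G.X0) :
    TourL G q F (G.col q, y) (decW G q y) := by
  cases q
  · exact decL2 h (by simp) hF hB hy hy1 hbE
  · exact decL2 h (by simp) hF hB hy hy1 hbE
  · exact decL1 h hF hB hy hy1 hbE

theorem homeC_base (h : G.Ok) (q : Qn) : HomeC G q (G.col q, G.base q) := by
  have := unit_pos h q
  refine ⟨rfl, Or.inl rfl, ?_⟩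
  cases q <;> simp

theorem clsW0 (h : G.Ok) {q r : Qn} (hr : r ≠ q) {p : Sq} (hp : HomeC G r p) :
    p.2 - p.1 ≠ G.base q - G.col q := by
  cases q with
  | C => exact clsW1 h hr hp (homeC_base h _) (by omega)
  | A => exact clsW2 h (by simp) hr hp (homeC_base h _) (by omega)
  | B => exact clsW2 h (by simp) hr hp (homeC_base h _) (by omega)

theorem zeroL (h : G.Ok) (q : Qn) {F : Far} (hF : ∀ r, r ≠ q → HomeC G r (F.q r))
    (hB : BOk G F) : TourL G q F (G.col q, G.base q) (zeroW G q) := by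
  have hj := j_ge h q
  have e5 := h.hT q
  have e6 := h.hy (Svc.Z q)
  have e7 := h.hy (Svc.H q)
  have hb : F.b.2 - F.b.1 ≠ G.base q - G.col q := by
    refine b_W h hB ?_
    obtain ⟨a1, a2, a3, a4, a5, a6, a7, a8, a9, a10, a11⟩ := h.all
    cases q <;> simp only [FGeo.base] <;> omega
  refine ⟨rfl, fun r hr => nofun, ?_, ⟨?_, ?_, ?_⟩,
    farL_Z ?_ ?_ ?_ ⟨?_, ?_⟩ ⟨?_, ?_⟩ hb (fun r hr => clsW0 h hr (hF r hr)),
      Or.inr (Or.inr ?_), flZ h,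
    rfl, fun r hr => (HZ_ne r hr).1, ?_, ⟨?_, ?_⟩,
    farL_Z ?_ ?_ ?_ ⟨?_, ?_⟩ ⟨?_, ?_⟩ hb (fun r hr => clsW0 h hr (hF r hr)),
      Or.inr (Or.inr ?_), col_not_floater h rfl, trivial⟩ <;>
  ((try simp only [FGeo.ray, FGeo.line, FGeo.c1, Prod.mk.injEq, true_and, and_true]) <;> omega)

end Pool.Agent.Lib.H32C
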