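import Pool.Agent.Lib.H32C.Mem

/-!
# Chunk MN: groups of items without rays
-/

set_option autoImplicit false

namespace Pool.Agent.Lib.H32C.Loc

theorem MN_sep {R : Room} {H : Nat} {O : Sq} {F : Board}
    (hreg : ∀ s ∈ TileRegH H O, s ∉ R.Z) {X Y : Nat} (hX : 8 ≤ X ∧ X ≤ 72)
    (hY : 8 ≤ Y ∧ Y + 8 ≤ H) : R.Sep (ctx O F X Y) := by
  constructor
  · intro s hs
    refine hreg s ?_
    obtain ⟨h1, h2, h3, h4⟩ := hs
    have e1 : (ctx O F X Y).o.1 = O.1 + (X : ℤ) - 10 := rfl
    have e2 : (ctx O F X Y).o.2 = O.2 + (Y : ℤ) - 10 := rfl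
    rw [e1] at h1 h2
    rw [e2] at h3 h4
    refine ⟨?_, ?_, ?_, ?_⟩ <;> omega
  · intro ρ hρ
    exact absurd hρ (by simp [ctx])

theorem MN_G {R : Room} {H : Nat} {O : Sq} {F : Board}
    (hreg : ∀ s ∈ TileRegH H O, s ∉ R.Z) (hG : R.G F) {X Y : Nat} (hX : 8 ≤ X ∧ X ≤ 72)
    (hY : 8 ≤ Y ∧ Y + 8 ≤ H) (p : Nat) : R.G ((ctx O F X Y).brd p) := by
  refine R.dep F _ (fun s hs => ?_) hG
  have h1 : ¬ InB (ctx O F X Y).o s := fun h => (MN_sep hreg hX hY (F := F)).patch s h hs
  unfold Ctx.brd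
  rw [if_neg (fun h => h1 h.1)]
  rfl

/-- the contexts without rays form a family (no event is possible) -/
theorem famN {R : Room} {H : Nat} {O : Sq} {F : Board} (hF : ∀ s, NK (F s) s)
    (hreg : ∀ s ∈ TileRegH H O, s ∉ R.Z) {X Y : Nat} (hX : 8 ≤ X ∧ X ≤ 72)
    (hY : 8 ≤ Y ∧ Y + 8 ≤ H) (P : Par) (hP : P.lv = false) :
    Family R P [] (fun l C => l = 0 ∧ C = ctx O F X Y) where
  ok := by
    rintro n C ⟨-, rfl⟩
    exact ctx_ok hF X Y
  rays := by
    rintro n C ⟨-, rfl⟩
    rfl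
  sep := by
    rintro n C ⟨-, rfl⟩
    exact MN_sep hreg hX hY
  edge := fun _ _ _ _ _ hρ => absurd hρ List.not_mem_nil
  event := by
    intro n C p k a b ρ hρ
    exact absurd hρ List.not_mem_nil
  leave := by
    intro h
    rw [hP] at h
    exact absurd h Bool.false_ne_true

theorem MN_msk : ∀ c < 16, (msk 0x180 c = false ↔ c ≠ 7 ∧ c ≠ 8) := by
  decide

theorem MN_noMk {A X Y : Nat} {L : List Pc} (h : noMk L = true) : ∀ q ∈ L, q.c ≠ 7 ∧ q.c ≠ 8 := by
  intro q hq
  unfold noMk at h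
  rw [TS1_allb] at h
  have h1 := h q hq
  rw [Bool.not_eq_true'] at h1
  by_cases hc : q.c < 16
  · exact (MN_msk q.c hc).1 h1
  · omega

/-- the board of a state without marks -/
theorem MN_brd {H A : Nat} {S : List (List Pc)} {O : Sq} {F : Board} (hF : FitsH H A O F)
    {X Y i : Nat} (hX : 8 ≤ X ∧ X ≤ 72) (hY : 8 ≤ Y ∧ Y + 8 ≤ H)
    (hp : pcsOkW A X Y (catP [] (nthP S i)) = true) (hn : noMk (nthP S i) = true) :
    (ctx O F X Y).brd (patW A S X Y i []) = stB F O (nthP S i) := by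
  unfold patW
  rw [brd_patW (ctx_ok hF.noK X Y) rfl hF hX hY hp (fun q hq => absurd hq List.not_mem_nil)
    (MN_noMk (A := A) (X := X) (Y := Y) hn) (fun ρ hρ => absurd hρ List.not_mem_nil)
    (fun ρ hρ => absurd hρ List.not_mem_nil)]
  rfl

theorem MN_mem_exN {L : List Nat} {e : Ex} (h : e ∈ exN L) : e.M = [] ∧ e.i ∈ L := by
  induction L with
  | nil => exact absurd h List.not_mem_nil
  | cons i L ih =>
    have h1 : exN (i :: L) = ⟨i, []⟩ :: exN L := rfl
    rw [h1] at h
    rcases List.mem_cons.1 h with rfl | h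
    · exact ⟨rfl, List.mem_cons_self⟩
    · exact ⟨(ih h).1, List.mem_cons_of_mem _ (ih h).2⟩

theorem MN_memb {x : Nat} {L : List Nat} (h : memb x L = true) : x ∈ L := by
  induction L with
  | nil => exact absurd h Bool.false_ne_true
  | cons y L ih =>
    have h1 : memb x (y :: L) = (Nat.beq x y || memb x L) := rfl
    rw [h1, Bool.or_eq_true, TS1_beq] at h
    rcases h with rfl | h
    · exact List.mem_cons_self
    · exact List.mem_cons_of_mem _ (ih h)

/-- chunk MN: one item, upper bound -/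
theorem MN_item {H A : Nat} {S : List (List Pc)} {acc : List Nat} {u : NI}
    (h : niUp H A S acc u (patW A S u.X u.Y u.i []) (kOf u.X u.Y (nthP S u.i)) = true) {O : Sq}
    {F : Board} {R : Room} (hF : FitsH H A O F)
    (hreg : ∀ s ∈ TileRegH H O, s ∉ R.Z) (hG : R.G F)
    (hacc : ∀ j ∈ acc, HasValue ⟨stB F O (nthP S j), false⟩) :
    HasValue ⟨stB F O (nthP S u.i), false⟩ := by
  unfold niUp at h
  rw [Bool.and_eq_true, Bool.and_eq_true, TS1_allb] at h
  obtain ⟨h1, h2, h3⟩ := h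
  have hb : baseOk H A S u.i u.sw (patW A S u.X u.Y u.i []) (kOf u.X u.Y (nthP S u.i)) = true := by
    unfold swOk at h2
    simp only [TS3_ands_cons] at h2
    exact h2.1
  have d := TW1_base hb
  have hX : 8 ≤ u.X ∧ u.X ≤ 72 := d.hX
  have hY : 8 ≤ u.Y ∧ u.Y + 8 ≤ H := d.hY
  have hex : allb (fun E => allb (fun e => pcsOkW A u.X u.Y (catP e.M (nthP S e.i))) E)
      [exN u.ex] = true := by
    unfold swOk at h2
    simp only [TS3_ands_cons] at h2
    exact h2.2.1
  have key := sw_hasValue (x := u.sw) h2 (R := R)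
    (K := fun l C => l = 0 ∧ C = ctx O F u.X u.Y)
    (famN hF.noK hreg hX hY ⟨false, [], true⟩ rfl) ?_ (C := ctx O F u.X u.Y) ⟨rfl, rfl⟩
    (MN_G hreg hG hX hY _)
  · have hbrd := MN_brd (S := S) (i := u.i) hF hX hY d.pcs h1
    rw [← hbrd]
    exact key
  · rintro l E hE e he C ⟨-, rfl⟩
    have hl : E = exN u.ex := by
      cases l with
      | zero =>
        have : some (exN u.ex) = some E := hE
        exact (Option.some.inj this).symm
      | succ l =>
        have : (none : Option (List Ex)) = some E := hE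
        exact absurd this (by simp)
    subst hl
    rw [TS1_allb] at hex
    have hex1 := hex (exN u.ex) List.mem_cons_self
    rw [TS1_allb] at hex1
    have hpc := hex1 e he
    obtain ⟨heM, hei⟩ := MN_mem_exN he
    have h4 := h3 e.i hei
    rw [Bool.and_eq_true] at h4
    rw [heM] at hpc ⊢
    have hbrd := MN_brd (S := S) (i := e.i) (O := O) hF hX hY hpc h4.1
    have hv := hacc e.i (MN_memb h4.2)
    rw [← hbrd] at hv
    exact hv

/-- chunk MN: **a group of items without rays, upper bound** -/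
theorem grpNU_hasValue {H A : Nat} {S : List (List Pc)} {acc : List Nat} {L : List NI}
    (h : grpNU H A S acc L = true) {O : Sq} {F : Board} {R : Room} (hF : FitsH H A O F)
    (hreg : ∀ s ∈ TileRegH H O, s ∉ R.Z) (hG : R.G F)
    (hacc : ∀ j ∈ acc, HasValue ⟨stB F O (nthP S j), false⟩) :
    ∀ j ∈ keysN L acc, HasValue ⟨stB F O (nthP S j), false⟩ := by
  induction L with
  | nil => exact hacc
  | cons u L ih =>
    have h1 : grpNU H A S acc (u :: L) = (niUp H A S (keysN L acc) u (patW A S u.X u.Y u.i [])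
      (kOf u.X u.Y (nthP S u.i)) && grpNU H A S acc L) := rfl
    rw [h1, Bool.and_eq_true] at h
    have ih' := ih h.2
    intro j hj
    have h2 : keysN (u :: L) acc = u.i :: keysN L acc := rfl
    rw [h2] at hj
    rcases List.mem_cons.1 hj with rfl | hj
    · exact MN_item h.1 hF hreg hG ih'
    · exact ih' j hj

/-- chunk MN: one item, lower bound -/
theorem MN_itemL {H A : Nat} {S : List (List Pc)} {acc : List Nat} {u : NI}
    (h : niLo H A S acc u (patW A S u.X u.Y u.i []) (kOf u.X u.Y (nthP S u.i)) = true) {O : Sq}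
    {F : Board} {R : Room} (hF : FitsH H A O F)
    (hreg : ∀ s ∈ TileRegH H O, s ∉ R.Z) (hG : R.G F) {β : Ordinal.{0}}
    (hacc : ∀ j ∈ acc, GE ⟨stB F O (nthP S j), false⟩ β) :
    GE ⟨stB F O (nthP S u.i), false⟩ β := by
  unfold niLo at h
  simp only [TS3_ands_cons] at h
  obtain ⟨n0, n1, n2, h3, -⟩ := h
  by_cases c0 : Nat.beq u.kd 0 = true
  · rw [c0, cond_true, Bool.and_eq_true] at h3
    obtain ⟨hm, hj⟩ := h3
    have hm' := hm
    unfold mainW at hm'
    simp only [TS3_ands_cons] at hm'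
    have d := TW1_base hm'.1
    have hX : 8 ≤ u.X ∧ u.X ≤ 72 := d.hX
    have hY : 8 ≤ u.Y ∧ u.Y + 8 ≤ H := d.hY
    have hbrd := MN_brd (S := S) (i := u.i) (O := O) hF hX hY d.pcs n0
    have hbrd1 := MN_brd (S := S) (i := u.j₁) (O := O) hF hX hY hm'.2.1 n1
    have hv := hacc u.j₁ (MN_memb hj)
    rw [← hbrd1] at hv
    rw [← hbrd]
    exact (mainW_ge (x := u.sw) hm (C := ctx O F u.X u.Y) (ctx_ok hF.noK _ _) rfl R
      (MN_sep hreg hX hY) (MN_G hreg hG hX hY _) hv).1
  · rw [Bool.not_eq_true] at c0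
    rw [c0, cond_false] at h3
    by_cases c1 : Nat.beq u.kd 1 = true
    · rw [c1, cond_true] at h3
      have hm' := h3
      unfold mateW at hm'
      simp only [TS3_ands_cons] at hm'
      have d := TW1_base hm'.1
      have hX : 8 ≤ u.X ∧ u.X ≤ 72 := d.hX
      have hY : 8 ≤ u.Y ∧ u.Y + 8 ≤ H := d.hY
      have hbrd := MN_brd (S := S) (i := u.i) (O := O) hF hX hY d.pcs n0
      rw [← hbrd]
      exact mateW_ge (x := u.sw) h3 (C := ctx O F u.X u.Y) (ctx_ok hF.noK _ _) rfl R
        (MN_sep hreg hX hY) (MN_G hreg hG hX hY _) β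
    · rw [Bool.not_eq_true] at c1
      rw [c1, cond_false, Bool.and_eq_true, Bool.and_eq_true] at h3
      obtain ⟨hm, hj1, hj2⟩ := h3
      have hm' := hm
      unfold mainW2 at hm'
      simp only [TS3_ands_cons] at hm'
      have d := TW1_base hm'.1
      have hX : 8 ≤ u.X ∧ u.X ≤ 72 := d.hX
      have hY : 8 ≤ u.Y ∧ u.Y + 8 ≤ H := d.hY
      have hbrd := MN_brd (S := S) (i := u.i) (O := O) hF hX hY d.pcs n0
      have hbrd1 := MN_brd (S := S) (i := u.j₁) (O := O) hF hX hY hm'.2.1 n1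
      have hbrd2 := MN_brd (S := S) (i := u.j₂) (O := O) hF hX hY hm'.2.2.1 n2
      have hv1 := hacc u.j₁ (MN_memb hj1)
      have hv2 := hacc u.j₂ (MN_memb hj2)
      rw [← hbrd1] at hv1
      rw [← hbrd2] at hv2
      rw [← hbrd]
      exact mainW2_ge (x := u.sw) hm (C := ctx O F u.X u.Y) (ctx_ok hF.noK _ _) rfl R
        (MN_sep hreg hX hY) (MN_G hreg hG hX hY _) hv1 hv2

/-- chunk MN: **a group of items without rays, lower bound** -/
theorem grpNL_ge {H A : Nat} {S : List (List Pc)} {acc : List Nat} {L : List NI}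
    (h : grpNL H A S acc L = true) {O : Sq} {F : Board} {R : Room} (hF : FitsH H A O F)
    (hreg : ∀ s ∈ TileRegH H O, s ∉ R.Z) (hG : R.G F) {β : Ordinal.{0}}
    (hacc : ∀ j ∈ acc, GE ⟨stB F O (nthP S j), false⟩ β) :
    ∀ j ∈ keysN L acc, GE ⟨stB F O (nthP S j), false⟩ β := by
  induction L with
  | nil => exact hacc
  | cons u L ih =>
    have h1 : grpNL H A S acc (u :: L) = (niLo H A S (keysN L acc) u (patW A S u.X u.Y u.i [])
      (kOf u.X u.Y (nthP S u.i)) && grpNL H A S acc L) := rfl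
    rw [h1, Bool.and_eq_true] at h
    have ih' := ih h.2
    intro j hj
    have h2 : keysN (u :: L) acc = u.i :: keysN L acc := rfl
    rw [h2] at hj
    rcases List.mem_cons.1 hj with rfl | hj
    · exact MN_itemL h.1 hF hreg hG ih'
    · exact ih' j hj

/-- chunk MN: the board with the resident on a station fits -/
theorem fits_FM {T : MT} {O : Sq} {F : Board} {R : Room} (hT : mtOk T = true) (hF : MBase T O F R)
    {q : Nat} (hq : q = 0 ∨ q ∈ T.st) :
    FitsH T.H T.A O (FM T F O q) ∧ R.G (FM T F O q) := by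
  rcases hq with rfl | hq
  · have h1 : FM T F O 0 = F := by
      funext s
      unfold FM
      rw [if_neg (fun h => h.1 rfl)]
    rw [h1]
    exact ⟨hF.fits, hF.G⟩
  · unfold mtOk at hT
    rw [Bool.and_eq_true, Bool.or_eq_true, TS1_beq, TS1_beq, TS1_allb] at hT
    obtain ⟨hk, hst⟩ := hT
    have h1 := hst q hq
    rw [Bool.and_eq_true, TS1_beq] at h1
    obtain ⟨hin, h15⟩ := h1
    unfold inA at hin
    rw [Bool.and_eq_true, Bool.and_eq_true, Bool.and_eq_true, TS1_ble, TS1_ble, TS1_ble] at hin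
    obtain ⟨i1, i2, i3, i4⟩ := hin
    have i4' : q + 80 < 80 * T.H := by
      have : Nat.ble (q + 80 + 1) (80 * T.H) = true := i4
      exact TS1_ble.1 this
    have i2' : q % 80 ≤ 78 := i2
    have hdm := Nat.div_add_mod q 80
    refine ⟨⟨?_, ?_⟩, ?_⟩
    · intro X Y hX hY hc
      unfold FM
      rw [if_neg ?_]
      · exact hF.fits.cells X Y hX hY hc
      · rintro ⟨-, hs⟩
        apply hc
        unfold sqA tsq at hs
        have e1 := congrArg Prod.fst hs
        have e2 := congrArg Prod.snd hs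
        simp only at e1 e2
        have e3 : X = q % 80 := by omega
        have e4 : Y = q / 80 := by omega
        rw [TS1_codeA, e3, e4]
        have e5 : q % 80 + 80 * (q / 80) = q := by omega
        rw [e5, h15]
    · intro s
      unfold FM
      split_ifs with hs
      · rcases hk with hk | hk <;> rw [hk] <;> exact nk_dec (by decide) (by decide) s
      · exact hF.fits.noK s
    · refine R.dep F _ (fun s hs => ?_) hF.G
      unfold FM
      rw [if_neg]
      rintro ⟨-, rfl⟩
      refine hF.reg _ ?_ hs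
      unfold sqA tsq
      have h2 : q / 80 < T.H := by omega
      refine ⟨?_, ?_, ?_, ?_⟩ <;> simp only <;> omega

end Pool.Agent.Lib.H32C.Loc
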