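import Pool.Agent.Lib.H32C.FwB
import Pool.Agent.Lib.H32C.MemE
import Pool.Agent.Lib.H32C.MemN

/-!
# Chunk FWC: boards of states, groups of items of windows (upper bound)
-/

set_option autoImplicit false

namespace Pool.Agent.Lib.H32C.Loc

variable {G : FGeo} {B0 : Board} {s : Svc} {R : Room} {T : WT} {O : Sq} {X Y e : Nat}

theorem fwc_beq0 {a : Nat} (h : a ≠ 0) : Nat.beq a 0 = false := by
  rw [Bool.eq_false_iff, ne_eq, TS1_beq]
  exact h

theorem fwc_mkW (hi : Inner e) (c : Nat) : mkW X Y e c =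
    [⟨Nat.sub (Nat.add X (Nat.mod e 20)) 10, Nat.sub (Nat.add Y (Nat.div e 20)) 10, c⟩] := by
  unfold mkW
  rw [fwc_beq0 (by rintro rfl; exact absurd hi.1 (by decide)), cond_false]

theorem fwc_mark (hX : 8 ≤ X ∧ X ≤ 72) (hY : 8 ≤ Y) (hi : Inner e) {A c : Nat} {L : List Pc}
    (h : pcsOkW A X Y (catP (mkW X Y e c) L) = true) :
    cell (pat A X Y (catP (mkW X Y e c) L)) e = c := by
  have h1 : (⟨Nat.sub (Nat.add X (Nat.mod e 20)) 10, Nat.sub (Nat.add Y (Nat.div e 20)) 10, c⟩ : Pc) ∈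
      catP (mkW X Y e c) L := by
    rw [TW1_mem_cat, fwc_mkW hi]
    exact Or.inl (List.mem_singleton.2 rfl)
  have h2 := TW1_cell_mem hX hY h h1
  have h3 : cellOf X Y (Nat.sub (Nat.add X (Nat.mod e 20)) 10)
      (Nat.sub (Nat.add Y (Nat.div e 20)) 10) = e := by
    obtain ⟨a1, a2, a3, a4⟩ := hi
    change (X + e % 20 - 10 + 10 - X) + 20 * (Y + e / 20 - 10 + 10 - Y) = e
    omega
  exact (congrArg (cell _) h3.symm).trans h2

theorem fwc_mk_c {c : Nat} (hc : c = 7 ∨ c = 8) : ∀ q ∈ mkW X Y e c, q.c = 7 ∨ q.c = 8 := by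
  intro q hq
  unfold mkW at hq
  cases h : Nat.beq e 0 with
  | true =>
    rw [h, cond_true] at hq
    exact absurd hq List.not_mem_nil
  | false =>
    rw [h, cond_false, List.mem_singleton] at hq
    rw [hq]
    exact hc

/-- the board of a state in phase `0` (`brd_patW`) -/
theorem brdW0 (hT : WinT G B0 s R T O) (hP : WinP G B0 s T O X Y e) {F : Far}
    (hF : FarS G s F (fun _ => True)) {S : List (List Pc)} {i : Nat} (hn : noMk (nthP S i) = true)
    (hp : pcsOkW T.A X Y (catP (mkW X Y e 7) (nthP S i)) = true) :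
    (cxE G B0 T O X Y e F).brd (patW T.A S X Y i (mkW X Y e 7)) =
      stB (fullB G B0 F) O (nthP S i) := by
  have h1 := brd_patW (C := cxE G B0 T O X Y e F) (cxE_ok hT hP hF) (O := O) (X := X) (Y := Y) rfl
    (farB_fits hT hF.b hF.out : FitsH T.H T.A O (fullB G B0 F)) hP.hX hP.hY hp
    (fwc_mk_c (Or.inl rfl)) (ME1_noMk hn)
    (fun ρ hρ => by
      simp only [cxE, cxW, List.mem_singleton] at hρ
      subst hρ
      have hin := hP.inn
      unfold Inner at hin
      simp only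
      omega)
    (fun ρ hρ _ => by
      simp only [cxE, cxA, cxW, List.mem_singleton] at hρ
      subst hρ
      exact Or.inl hP.out)
  have h2 : (cxE G B0 T O X Y e F).out8 (pat T.A X Y (catP (mkW X Y e 7) (nthP S i))) =
      fullB G B0 F := by
    funext c
    have h3 := fwc_mark hP.hX hP.hY.1 hP.inn hp
    unfold Ctx.out8
    have h4 : (cxE G B0 T O X Y e F).R.find? (fun ρ => decide (c = (cxE G B0 T O X Y e F).f ρ.e ∧
        cell (pat T.A X Y (catP (mkW X Y e 7) (nthP S i))) ρ.e = 8)) = none := by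
      rw [List.find?_eq_none]
      intro ρ hρ hd
      simp only [cxE, cxW, List.mem_singleton] at hρ
      subst hρ
      have h5 := (of_decide_eq_true hd).2
      simp only at h5
      rw [h3] at h5
      exact absurd h5 (by decide)
    rw [h4]
    rfl
  rw [h2] at h1
  exact h1

/-- the board of a state in phase `1` -/
theorem brdW1 (hT : WinT G B0 s R T O) (hP : WinP G B0 s T O X Y e) {F : Far} {q : Qn}
    (hF : FarS G s F (fun r => r ≠ q)) (ho : OnRay G B0 T O X Y e F q) {S : List (List Pc)} {i : Nat}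
    (hn : noMk (nthP S i) = true)
    (hp : pcsOkW T.A X Y (catP (mkW X Y e 8) (nthP S i)) = true) :
    (cxA G B0 T O X Y e F q).brd (patW T.A S X Y i (mkW X Y e 8)) =
      stB (fullB G B0 F) O (nthP S i) := by
  have h1 := brd_patW (C := cxA G B0 T O X Y e F q) (cxA_ok hT hP hF ho) (O := O) (X := X) (Y := Y)
    rfl (farB_fits hT hF.b hF.out : FitsH T.H T.A O (remB G B0 F q)) hP.hX hP.hY hp
    (fwc_mk_c (Or.inr rfl)) (ME1_noMk hn)
    (fun ρ hρ => by
      simp only [cxA, cxW, List.mem_singleton] at hρ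
      subst hρ
      have hin := hP.inn
      unfold Inner at hin
      simp only
      omega)
    (fun ρ hρ _ => by
      simp only [cxE, cxA, cxW, List.mem_singleton] at hρ
      subst hρ
      exact Or.inl hP.out)
  have h2 : (cxA G B0 T O X Y e F q).out8 (pat T.A X Y (catP (mkW X Y e 8) (nthP S i))) =
      fullB G B0 F := by
    funext c
    have h3 := fwc_mark hP.hX hP.hY.1 hP.inn hp
    have hR : (cxA G B0 T O X Y e F q).R = [⟨e, T.t, 13⟩] := rfl
    have hf : (cxA G B0 T O X Y e F q).f e = F.q q := if_pos rfl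
    unfold Ctx.out8
    rw [hR]
    by_cases hc : c = F.q q
    · rw [List.find?_cons_of_pos (by
        simp only [decide_eq_true_eq]
        rw [hf, h3]
        exact ⟨hc, rfl⟩)]
      rw [hc]
      exact (farB_queen trivial).symm
    · rw [List.find?_cons_of_neg (by
        simp only [decide_eq_true_eq]
        rw [hf]
        exact fun h => hc h.1), List.find?_nil]
      change remB G B0 F q c = fullB G B0 F c
      unfold remB fullB farB
      have h4 : (∃ r, r ≠ q ∧ c = F.q r) ↔ (∃ r, True ∧ c = F.q r) := by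
        constructor
        · rintro ⟨r, -, h⟩
          exact ⟨r, trivial, h⟩
        · rintro ⟨r, -, h⟩
          refine ⟨r, ?_, h⟩
          rintro rfl
          exact hc h
      by_cases h5 : ∃ r, True ∧ c = F.q r
      · rw [if_pos (h4.2 h5), if_pos h5]
      · rw [if_neg (fun h => h5 (h4.1 h)), if_neg h5]
  rw [h2] at h1
  exact h1

theorem fwc_sw_B {t : Nat} {u : WU} (h : u.φ ≠ 0 ∨ u.e = 0) : u.sw t =
    ⟨u.X, u.Y, mkW u.X u.Y u.e 8, rsW t u.e, PW, 0, u.tr, [exW u.X u.Y u.e 8 u.x0]⟩ := by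
  unfold WU.sw
  have h1 : (Nat.beq u.φ 0 && !Nat.beq u.e 0) = false := by
    rcases h with h | h
    · rw [fwc_beq0 h, Bool.false_and]
    · rw [h]
      exact Bool.and_false _
  rw [h1, cond_false]

theorem fwc_sw_A {t : Nat} {u : WU} (h1 : u.φ = 0) (h2 : u.e ≠ 0) : u.sw t =
    ⟨u.X, u.Y, mkW u.X u.Y u.e 7, rsW t u.e, PW, 1, u.tr,
      [exW u.X u.Y u.e 8 u.x0, exW u.X u.Y u.e 7 u.x1]⟩ := by
  unfold WU.sw
  rw [h1, fwc_beq0 h2]
  rfl

theorem fwc_mem_exW {c : Nat} {L : List Nat} {x : Ex} (h : x ∈ exW X Y e c L) :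
    x.M = mkW X Y e c ∧ x.i ∈ L := by
  induction L with
  | nil => exact absurd h List.not_mem_nil
  | cons i L ih =>
    have h1 : exW X Y e c (i :: L) = ⟨i, mkW X Y e c⟩ :: exW X Y e c L := rfl
    rw [h1] at h
    rcases List.mem_cons.1 h with rfl | h
    · exact ⟨rfl, List.mem_cons_self⟩
    · exact ⟨(ih h).1, List.mem_cons_of_mem _ (ih h).2⟩

/-- the parts of the check of an item -/
theorem fwc_parts {S : List (List Pc)} {acc : List Mo} {u : WU} {p k : Nat}
    (h : wuOk T S acc u p k = true) : noMk (nthP S u.i) = true ∧ u.φ ≤ 1 ∧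
      swOk T.H T.A S u.i (u.sw T.t) p k = true ∧
      (∀ i ∈ u.x0, noMk (nthP S i) = true ∧
        (⟨i, cond (Nat.beq u.e 0) u.φ 1⟩ : Mo) ∈ acc) ∧
      (∀ i ∈ u.x1, noMk (nthP S i) = true ∧ (⟨i, u.φ⟩ : Mo) ∈ acc) := by
  unfold wuOk at h
  rw [Bool.and_eq_true, Bool.and_eq_true, Bool.and_eq_true, Bool.and_eq_true, TS1_ble, TS1_allb,
    TS1_allb] at h
  obtain ⟨h1, h2, h3, h4, h5⟩ := h
  refine ⟨h1, h2, h3, fun i hi => ?_, fun i hi => ?_⟩
  · have h6 := h4 i hi
    rw [Bool.and_eq_true] at h6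
    exact ⟨h6.1, ME2_membM _ h6.2⟩
  · have h6 := h5 i hi
    rw [Bool.and_eq_true] at h6
    exact ⟨h6.1, ME2_membM _ h6.2⟩

/-- the exits of a datum are made of pieces -/
theorem fwc_swOk {H A : Nat} {S : List (List Pc)} {i : Nat} {x : SW} {p k : Nat}
    (h : swOk H A S i x p k = true) : baseOk H A S i x p k = true ∧
      ∀ E ∈ x.ex, ∀ y ∈ E, pcsOkW A x.X x.Y (catP y.M (nthP S y.i)) = true := by
  unfold swOk at h
  simp only [TS3_ands_cons] at h
  obtain ⟨h1, h2, -⟩ := h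
  refine ⟨h1, fun E hE y hy => ?_⟩
  rw [TS1_allb] at h2
  have h3 := h2 E hE
  rw [TS1_allb] at h3
  exact h3 y hy

/-- an item without a ray -/
theorem fwc_item0 {S : List (List Pc)} {acc : List Mo} {u : WU} (he : u.e = 0)
    (h : wuOk T S acc u (patW T.A S u.X u.Y u.i (u.sw T.t).M) (kOf u.X u.Y (nthP S u.i)) = true)
    {F : Board} (hF : FitsH T.H T.A O F) (hreg : ∀ c ∈ TileRegH T.H O, c ∉ R.Z) (hG : R.G F)
    (hacc : ∀ m ∈ acc, m.k = u.φ → HasValue ⟨stB F O (nthP S m.j), false⟩) :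
    HasValue ⟨stB F O (nthP S u.i), false⟩ := by
  obtain ⟨h1, -, h3, h4, -⟩ := fwc_parts h
  have hM : ∀ c, mkW u.X u.Y u.e c = [] := by
    intro c
    rw [he]
    rfl
  have hR : rsW T.t u.e = [] := by
    rw [he]
    rfl
  rw [fwc_sw_B (Or.inr he), hM, hR] at h3
  change swOk T.H T.A S u.i _ (patW T.A S u.X u.Y u.i []) (kOf u.X u.Y (nthP S u.i)) = true at h3
  obtain ⟨hb, hex⟩ := fwc_swOk h3
  have d := TW1_base hb
  have hX : 8 ≤ u.X ∧ u.X ≤ 72 := d.hX
  have hY : 8 ≤ u.Y ∧ u.Y + 8 ≤ T.H := d.hY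
  have key := sw_hasValue (x := ⟨u.X, u.Y, [], [], PW, 0, u.tr, [exW u.X u.Y u.e 8 u.x0]⟩) h3
    (R := R) (K := fun l C => l = 0 ∧ C = ctx O F u.X u.Y)
    (famN hF.noK hreg hX hY PW rfl) ?_ (C := ctx O F u.X u.Y) ⟨rfl, rfl⟩
    (MN_G hreg hG hX hY _)
  · have hbrd := MN_brd (S := S) (i := u.i) hF hX hY d.pcs h1
    rw [← hbrd]
    exact key
  · rintro l E hE y hy C ⟨-, rfl⟩
    have hl : E = exW u.X u.Y u.e 8 u.x0 := by
      cases l with
      | zero =>
        have : some (exW u.X u.Y u.e 8 u.x0) = some E := hE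
        exact (Option.some.inj this).symm
      | succ l =>
        have : (none : Option (List Ex)) = some E := hE
        exact absurd this (by simp)
    subst hl
    have hpc := hex _ (List.mem_singleton.2 rfl) y hy
    obtain ⟨hyM, hyi⟩ := fwc_mem_exW hy
    rw [hM] at hyM
    obtain ⟨g1, g2⟩ := h4 y.i hyi
    rw [hyM] at hpc ⊢
    have hbrd := MN_brd (S := S) (i := y.i) (O := O) hF hX hY hpc g1
    have hv := hacc _ g2 (by
      show cond (Nat.beq u.e 0) u.φ 1 = u.φ
      rw [he]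
      rfl)
    change HasValue ⟨(ctx O F u.X u.Y).brd (patW T.A S u.X u.Y y.i []), false⟩
    rw [hbrd]
    exact hv

/-- an item with a ray, phase `1` -/
theorem fwc_item1 {S : List (List Pc)} {acc : List Mo} {u : WU} (he : u.e ≠ 0) (hφ : u.φ ≠ 0)
    (h : wuOk T S acc u (patW T.A S u.X u.Y u.i (u.sw T.t).M) (kOf u.X u.Y (nthP S u.i)) = true)
    (hT : WinT G B0 s R T O) (hP : WinP G B0 s T O u.X u.Y u.e) {F : Far} {q : Qn}
    (h1 : Ph1 G s T F q) (hacc : ∀ m ∈ acc, m.k = 1 → HasValue (PFw G B0 S O F m.j)) :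
    HasValue (PFw G B0 S O F u.i) := by
  obtain ⟨g1, -, h3, h4, -⟩ := fwc_parts h
  rw [fwc_sw_B (Or.inl hφ)] at h3
  change swOk T.H T.A S u.i _ (patW T.A S u.X u.Y u.i (mkW u.X u.Y u.e 8))
    (kOf u.X u.Y (nthP S u.i)) = true at h3
  obtain ⟨hb, hex⟩ := fwc_swOk h3
  have d := TW1_base hb
  have ho := h1.onRay hT hP
  have hline : G.line s (F.q q) := h1.on
  have key := sw_hasValue
    (x := ⟨u.X, u.Y, mkW u.X u.Y u.e 8, rsW T.t u.e, PW, 0, u.tr, [exW u.X u.Y u.e 8 u.x0]⟩) h3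
    (R := R) (K := KW1 G B0 T O u.X u.Y u.e F q)
    (famW1 hT hP h1.far ho) ?_ (C := cxA G B0 T O u.X u.Y u.e F q) ⟨rfl, rfl⟩
    (cxW_G hT hP h1.far.b h1.far.out hline _)
  · have hbrd := brdW1 hT hP h1.far ho (S := S) (i := u.i) g1 d.pcs
    unfold PFw
    rw [← hbrd]
    exact key
  · rintro l E hE y hy C ⟨hl0, rfl⟩
    subst hl0
    have hl : E = exW u.X u.Y u.e 8 u.x0 := by
      have : some (exW u.X u.Y u.e 8 u.x0) = some E := hE
      exact (Option.some.inj this).symm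
    subst hl
    have hpc := hex _ (List.mem_singleton.2 rfl) y hy
    obtain ⟨hyM, hyi⟩ := fwc_mem_exW hy
    obtain ⟨k1, k2⟩ := h4 y.i hyi
    rw [hyM] at hpc ⊢
    have hbrd := brdW1 hT hP h1.far ho (S := S) (i := y.i) k1 hpc
    have hv := hacc _ k2 (by
      show cond (Nat.beq u.e 0) u.φ 1 = 1
      rw [fwc_beq0 he]
      rfl)
    change HasValue ⟨(cxA G B0 T O u.X u.Y u.e F q).brd
      (patW T.A S u.X u.Y y.i (mkW u.X u.Y u.e 8)), false⟩
    rw [hbrd]
    exact hv

/-- an item with a ray, phase `0` -/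
theorem fwc_item2 {S : List (List Pc)} {acc : List Mo} {u : WU} (he : u.e ≠ 0) (hφ : u.φ = 0)
    (h : wuOk T S acc u (patW T.A S u.X u.Y u.i (u.sw T.t).M) (kOf u.X u.Y (nthP S u.i)) = true)
    (hT : WinT G B0 s R T O) (hP : WinP G B0 s T O u.X u.Y u.e) {F : Far}
    (hB : FBase G F) (hF : FarS G s F (fun _ => True)) {W : Qn → Sq → Prop}
    (hW : ∀ q t, G.line s t → FarU G F (F.q q) t → (s.win = true → G.ray s t) → W q t)
    (h1 : u.x0 = [] ∨ ∀ q t, W q t → Ph1 G s T (F.set q t) q ∧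
      ∀ m ∈ acc, m.k = 1 → HasValue (PFw G B0 S O (F.set q t) m.j))
    (hacc : ∀ m ∈ acc, m.k = 0 → HasValue (PFw G B0 S O F m.j)) :
    HasValue (PFw G B0 S O F u.i) := by
  obtain ⟨g1, -, h3, h4, h5⟩ := fwc_parts h
  rw [fwc_sw_A hφ he] at h3
  change swOk T.H T.A S u.i _ (patW T.A S u.X u.Y u.i (mkW u.X u.Y u.e 7))
    (kOf u.X u.Y (nthP S u.i)) = true at h3
  obtain ⟨hb, hex⟩ := fwc_swOk h3
  have d := TW1_base hb
  have key := sw_hasValue
    (x := ⟨u.X, u.Y, mkW u.X u.Y u.e 7, rsW T.t u.e, PW, 1, u.tr,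
      [exW u.X u.Y u.e 8 u.x0, exW u.X u.Y u.e 7 u.x1]⟩) h3
    (R := R) (K := KW G B0 T O u.X u.Y u.e F W)
    (famW hT hP hB hF hW) ?_ (C := cxE G B0 T O u.X u.Y u.e F) (Or.inl ⟨rfl, rfl⟩)
    (cxW_G hT hP hF.b hF.out (rayW_line hP one_pos).1 _)
  · have hbrd := brdW0 hT hP hF (S := S) (i := u.i) g1 d.pcs
    unfold PFw
    rw [← hbrd]
    exact key
  · rintro l E hE y hy C (⟨hl, rfl⟩ | ⟨hl, q, t, hWt, ho, rfl⟩)
    · subst hl
      have hl : E = exW u.X u.Y u.e 7 u.x1 := by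
        have : some (exW u.X u.Y u.e 7 u.x1) = some E := hE
        exact (Option.some.inj this).symm
      subst hl
      have hpc := hex _ (List.mem_cons_of_mem _ (List.mem_singleton.2 rfl)) y hy
      obtain ⟨hyM, hyi⟩ := fwc_mem_exW hy
      obtain ⟨k1, k2⟩ := h5 y.i hyi
      rw [hyM] at hpc ⊢
      have hbrd := brdW0 hT hP hF (S := S) (i := y.i) k1 hpc
      have hv := hacc _ k2 hφ
      change HasValue ⟨(cxE G B0 T O u.X u.Y u.e F).brd
        (patW T.A S u.X u.Y y.i (mkW u.X u.Y u.e 7)), false⟩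
      rw [hbrd]
      exact hv
    · subst hl
      have hl : E = exW u.X u.Y u.e 8 u.x0 := by
        have : some (exW u.X u.Y u.e 8 u.x0) = some E := hE
        exact (Option.some.inj this).symm
      subst hl
      have hpc := hex _ List.mem_cons_self y hy
      obtain ⟨hyM, hyi⟩ := fwc_mem_exW hy
      rcases h1 with h1 | h1
      · rw [h1] at hyi
        exact absurd hyi List.not_mem_nil
      obtain ⟨hPh, hv⟩ := h1 q t hWt
      obtain ⟨k1, k2⟩ := h4 y.i hyi
      rw [hyM] at hpc ⊢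
      have hbrd := brdW1 hT hP hPh.far ho (S := S) (i := y.i) k1 hpc
      have hv' := hv _ k2 (by
        show cond (Nat.beq u.e 0) u.φ 1 = 1
        rw [fwc_beq0 he]
        rfl)
      change HasValue ⟨(cxA G B0 T O u.X u.Y u.e (F.set q t) q).brd
        (patW T.A S u.X u.Y y.i (mkW u.X u.Y u.e 8)), false⟩
      rw [hbrd]
      exact hv'

theorem fwc_grp {S : List (List Pc)} {acc : List Mo} {u : WU} {L : List WU}
    (h : grpWU T S acc (u :: L) = true) :
    wuOk T S (keysWU L acc) u (patW T.A S u.X u.Y u.i (u.sw T.t).M)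
      (kOf u.X u.Y (nthP S u.i)) = true ∧ grpWU T S acc L = true := by
  have h1 : grpWU T S acc (u :: L) = (wuOk T S (keysWU L acc) u
    (patW T.A S u.X u.Y u.i (u.sw T.t).M) (kOf u.X u.Y (nthP S u.i)) && grpWU T S acc L) := rfl
  rw [h1, Bool.and_eq_true] at h
  exact h

/-- chunk FWC: **a group of items, phase 1**: the queen `q` stands on the line -/
theorem grpWU_1 {S : List (List Pc)} {acc : List Mo} {L : List WU} (h : grpWU T S acc L = true)
    (hT : WinT G B0 s R T O) (hP : ∀ u ∈ L, u.e ≠ 0 → WinP G B0 s T O u.X u.Y u.e) {F : Far}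
    {q : Qn} (h1 : Ph1 G s T F q)
    (hacc : ∀ m ∈ acc, m.k = 1 → HasValue (PFw G B0 S O F m.j)) :
    ∀ m ∈ keysWU L acc, m.k = 1 → HasValue (PFw G B0 S O F m.j) := by
  induction L with
  | nil => exact hacc
  | cons u L ih =>
    obtain ⟨h2, h3⟩ := fwc_grp h
    have ih' := ih h3 (fun u hu => hP u (List.mem_cons_of_mem _ hu))
    have hk : keysWU (u :: L) acc = ⟨u.i, u.φ⟩ :: keysWU L acc := rfl
    rw [hk]
    intro m hm hmk
    rcases List.mem_cons.1 hm with rfl | hm
    · simp only at hmk ⊢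
      by_cases he : u.e = 0
      · exact fwc_item0 he h2 (farB_fits hT h1.far.b (fun r _ => h1.base.2.2.1 r)) hT.regZ
          (farB_G hT h1.far.b (fun r _ => h1.base.2.2.1 r)) (fun m hm hmk' =>
            ih' m hm (hmk'.trans hmk))
      · exact fwc_item1 he (by omega) h2 hT (hP u List.mem_cons_self he) h1 ih'
    · exact ih' m hm hmk

/-- chunk FWC: **a group of items, phase 0**: no queen stands on the line; `W q t` means that the queen `q` may arrive
on `t` -/
theorem grpWU_0 {S : List (List Pc)} {acc : List Mo} {L : List WU} (h : grpWU T S acc L = true)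
    (hT : WinT G B0 s R T O) (hP : ∀ u ∈ L, u.e ≠ 0 → WinP G B0 s T O u.X u.Y u.e) {F : Far}
    (hB : FBase G F) (hF : FarS G s F (fun _ => True)) {W : Qn → Sq → Prop}
    (hW : ∀ q t, G.line s t → FarU G F (F.q q) t → (s.win = true → G.ray s t) → W q t)
    (h1 : (∀ u ∈ L, u.φ = 0 → u.e ≠ 0 → u.x0 = []) ∨ ∀ q t, W q t → Ph1 G s T (F.set q t) q ∧
      ∀ m ∈ acc, m.k = 1 → HasValue (PFw G B0 S O (F.set q t) m.j))
    (hacc : ∀ m ∈ acc, m.k = 0 → HasValue (PFw G B0 S O F m.j)) :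
    ∀ m ∈ keysWU L acc, m.k = 0 → HasValue (PFw G B0 S O F m.j) := by
  induction L with
  | nil => exact hacc
  | cons u L ih =>
    obtain ⟨h2, h3⟩ := fwc_grp h
    have ih' := ih h3 (fun u hu => hP u (List.mem_cons_of_mem _ hu))
      (h1.imp (fun h u hu => h u (List.mem_cons_of_mem _ hu)) id)
    have hk : keysWU (u :: L) acc = ⟨u.i, u.φ⟩ :: keysWU L acc := rfl
    rw [hk]
    intro m hm hmk
    rcases List.mem_cons.1 hm with rfl | hm
    · simp only at hmk ⊢
      by_cases he : u.e = 0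
      · exact fwc_item0 he h2 (farB_fits hT hF.b hF.out) hT.regZ
          (farB_G hT hF.b hF.out) (fun m hm hmk' => ih' m hm (hmk'.trans hmk))
      · refine fwc_item2 he hmk h2 hT (hP u List.mem_cons_self he) hB hF hW ?_ ih'
        rcases h1 with h1 | h1
        · exact Or.inl (h1 u List.mem_cons_self hmk he)
        · right
          intro q t hqt
          obtain ⟨k1, k2⟩ := h1 q t hqt
          exact ⟨k1, grpWU_1 h3 hT (fun u hu => hP u (List.mem_cons_of_mem _ hu)) k1 k2⟩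
    · exact ih' m hm hmk

end Pool.Agent.Lib.H32C.Loc
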