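import Pool.Agent.Lib.H32C.FarEv
import Pool.Agent.Lib.H32C.FwC

/-!
# Chunk FEA: groups of items with one event, upper bound
-/

set_option autoImplicit false

namespace Pool.Agent.Lib.H32C.Loc

variable {R : Room} {H A t k : Nat} {O : Sq}

/-! helpers of chunk FEA -/

/-- the cells of the marks are cells of the patch -/
theorem fea_lt {X Y e : Nat} {B : Board} {f : Sq} (he : Inner e) :
    ∀ ρ ∈ (cxG t k O X Y e B f).R, ρ.e < 400 := by
  intro ρ hρ
  simp only [cxG, List.mem_singleton] at hρ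
  subst hρ
  have hin := he
  unfold Inner at hin
  simp only
  omega

/-- the board of a state in phase `0` (cf. `brdW0`, `brd_patW`) -/
theorem brdK0 {B : Board} (hB : BdOk H A O R B) {X Y e : Nat} {f : Sq}
    (hC : (cxG t k O X Y e B f).Ok) (hX : 8 ≤ X ∧ X ≤ 72) (hY : 8 ≤ Y ∧ Y + 8 ≤ H)
    {S : List (List Pc)} {i : Nat} (hn : noMk (nthP S i) = true) (he : Inner e)
    (hp : pcsOkW A X Y (catP (mkW X Y e 7) (nthP S i)) = true) :
    (cxG t k O X Y e B f).brd (patW A S X Y i (mkW X Y e 7)) = stB B O (nthP S i) := by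
  have h1 := brd_patW (C := cxG t k O X Y e B f) hC (O := O) (X := X) (Y := Y) rfl
    hB.fits hX hY hp (fwc_mk_c (Or.inl rfl)) (ME1_noMk hn) (fea_lt he)
    (fun ρ hρ h8 => by
      simp only [cxG, List.mem_singleton] at hρ
      subst hρ
      rw [fwc_mark hX hY.1 he hp] at h8
      exact absurd h8 (by decide))
  have h2 : (cxG t k O X Y e B f).out8 (pat A X Y (catP (mkW X Y e 7) (nthP S i))) = B := by
    funext c
    have h3 := fwc_mark hX hY.1 he hp
    unfold Ctx.out8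
    have h4 : (cxG t k O X Y e B f).R.find? (fun ρ => decide (c = (cxG t k O X Y e B f).f ρ.e ∧
        cell (pat A X Y (catP (mkW X Y e 7) (nthP S i))) ρ.e = 8)) = none := by
      rw [List.find?_eq_none]
      intro ρ hρ hd
      simp only [cxG, List.mem_singleton] at hρ
      subst hρ
      have h5 := (of_decide_eq_true hd).2
      simp only at h5
      rw [h3] at h5
      exact absurd h5 (by decide)
    rw [h4]
    rfl
  rw [h2] at h1
  exact h1

theorem fea_fits {B : Board} (hB : BdOk H A O R B) {f : Sq} (hf : FsOk H k O B f) :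
    FitsH H A O (delB B f) := by
  constructor
  · intro X Y hX hY hc
    unfold delB
    rw [if_neg (fun h => hf.out X Y hX hY h.symm)]
    exact hB.fits.cells X Y hX hY hc
  · intro s
    unfold delB
    split_ifs
    · exact nk_none s
    · exact hB.fits.noK s

/-- the board of a state in phase `1` (cf. `brdW1`) -/
theorem brdK1 {B : Board} (hB : BdOk H A O R B) {X Y e : Nat} {f : Sq} (hf : FsOk H k O B f)
    (hC : (cxG t k O X Y e (delB B f) f).Ok) (hX : 8 ≤ X ∧ X ≤ 72) (hY : 8 ≤ Y ∧ Y + 8 ≤ H)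
    {S : List (List Pc)} {i : Nat} (hn : noMk (nthP S i) = true) (he : Inner e)
    (hp : pcsOkW A X Y (catP (mkW X Y e 8) (nthP S i)) = true) :
    (cxG t k O X Y e (delB B f) f).brd (patW A S X Y i (mkW X Y e 8)) = stB B O (nthP S i) := by
  have h1 := brd_patW (C := cxG t k O X Y e (delB B f) f) hC (O := O) (X := X) (Y := Y) rfl
    (fea_fits hB hf) hX hY hp (fwc_mk_c (Or.inr rfl)) (ME1_noMk hn) (fea_lt he)
    (fun ρ hρ _ => by
      simp only [cxG, List.mem_singleton] at hρ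
      subst hρ
      refine Or.inr fun x y hx hy _ => ?_
      have hff : (cxG t k O X Y e (delB B f) f).f e = f := if_pos rfl
      change (cxG t k O X Y e (delB B f) f).f e ≠ tsq O x y
      rw [hff]
      exact hf.out x y hx hy)
  have h2 : (cxG t k O X Y e (delB B f) f).out8 (pat A X Y (catP (mkW X Y e 8) (nthP S i))) =
      B := by
    funext c
    have h3 := fwc_mark hX hY.1 he hp
    have hR : (cxG t k O X Y e (delB B f) f).R = [⟨e, t, k⟩] := rfl
    have hff : (cxG t k O X Y e (delB B f) f).f e = f := if_pos rfl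
    unfold Ctx.out8
    rw [hR]
    by_cases hc : c = f
    · rw [List.find?_cons_of_pos (by
        simp only [decide_eq_true_eq]
        rw [hff, h3]
        exact ⟨hc, rfl⟩)]
      rw [hc]
      exact hf.occ.symm
    · rw [List.find?_cons_of_neg (by
        simp only [decide_eq_true_eq]
        rw [hff]
        exact fun h => hc h.1), List.find?_nil]
      change delB B f c = B c
      unfold delB
      rw [if_neg hc]
  rw [h2] at h1
  exact h1

/-- the condition of the room does not depend on the pieces of the patch -/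
theorem fea_G0 {B : Board} (hB : BdOk H A O R B) {X Y e : Nat} {f : Sq}
    (hsep : R.Sep (cxG t k O X Y e B f)) (p : Nat) : R.G ((cxG t k O X Y e B f).brd p) := by
  refine R.dep B _ (fun s hs => ?_) hB.G
  have h1 : ¬ InB (cxG t k O X Y e B f).o s := fun h => hsep.patch s h hs
  unfold Ctx.brd
  rw [if_neg (fun h => h1 h.1)]
  have h2 : (cxG t k O X Y e B f).R.find?
      (fun ρ => decide (s = (cxG t k O X Y e B f).f ρ.e ∧ cell p ρ.e = 8)) = none := by
    rw [List.find?_eq_none]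
    intro ρ hρ hd
    exact hsep.far ρ hρ ((of_decide_eq_true hd).1 ▸ hs)
  rw [h2]
  rfl

theorem fea_G1 {B : Board} (hB : BdOk H A O R B) {X Y e : Nat} {f : Sq}
    (hsep : R.Sep (cxG t k O X Y e (delB B f) f)) (p : Nat) :
    R.G ((cxG t k O X Y e (delB B f) f).brd p) := by
  refine R.dep B _ (fun s hs => ?_) hB.G
  have h1 : ¬ InB (cxG t k O X Y e (delB B f) f).o s := fun h => hsep.patch s h hs
  have h3 : s ≠ f := by
    rintro rfl
    refine hsep.far ⟨e, t, k⟩ (List.mem_singleton.2 rfl) ?_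
    have h4 : (cxG t k O X Y e (delB B s) s).f e = s := if_pos rfl
    simp only
    rw [h4]
    exact hs
  unfold Ctx.brd
  rw [if_neg (fun h => h1 h.1)]
  have h2 : (cxG t k O X Y e (delB B f) f).R.find?
      (fun ρ => decide (s = (cxG t k O X Y e (delB B f) f).f ρ.e ∧ cell p ρ.e = 8)) = none := by
    rw [List.find?_eq_none]
    intro ρ hρ hd
    exact hsep.far ρ hρ ((of_decide_eq_true hd).1 ▸ hs)
  rw [h2]
  change B s = delB B f s
  unfold delB
  rw [if_neg h3]

theorem fea_sw_B {u : WU} (h : u.φ ≠ 0 ∨ u.e = 0) : u.swK t k =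
    ⟨u.X, u.Y, mkW u.X u.Y u.e 8, rsK t k u.e, PW, 0, u.tr, [exW u.X u.Y u.e 8 u.x0]⟩ := by
  unfold WU.swK
  have h1 : (Nat.beq u.φ 0 && !Nat.beq u.e 0) = false := by
    rcases h with h | h
    · rw [fwc_beq0 h, Bool.false_and]
    · rw [h]
      exact Bool.and_false _
  rw [h1, cond_false]

theorem fea_sw_A {u : WU} (h1 : u.φ = 0) (h2 : u.e ≠ 0) : u.swK t k =
    ⟨u.X, u.Y, mkW u.X u.Y u.e 7, rsK t k u.e, PW, 1, u.tr,
      [exW u.X u.Y u.e 8 u.x0, exW u.X u.Y u.e 7 u.x1]⟩ := by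
  unfold WU.swK
  rw [h1, fwc_beq0 h2]
  rfl

/-- the parts of the check of an item -/
theorem fea_parts {S : List (List Pc)} {acc : List Mo} {u : WU} {p κ : Nat}
    (h : wuOkK H A t k S acc u p κ = true) : noMk (nthP S u.i) = true ∧ u.φ ≤ 1 ∧
      swOk H A S u.i (u.swK t k) p κ = true ∧
      (∀ i ∈ u.x0, noMk (nthP S i) = true ∧
        (⟨i, cond (Nat.beq u.e 0) u.φ 1⟩ : Mo) ∈ acc) ∧
      (∀ i ∈ u.x1, noMk (nthP S i) = true ∧ (⟨i, u.φ⟩ : Mo) ∈ acc) := by
  unfold wuOkK at h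
  rw [Bool.and_eq_true, Bool.and_eq_true, Bool.and_eq_true, Bool.and_eq_true, TS1_ble, TS1_allb,
    TS1_allb] at h
  obtain ⟨h1, h2, h3, h4, h5⟩ := h
  refine ⟨h1, h2, h3, fun i hi => ?_, fun i hi => ?_⟩
  · have h6 := h4 i hi
    rw [Bool.and_eq_true] at h6
    exact ⟨h6.1, ME2_membM _ h6.2⟩
  · have h6 := h5 i hi
    rw [Bool.and_eq_true] at h6
    exact ⟨h6.1, ME2_membM _ h6.2⟩

/-- an item without a ray -/
theorem fea_item0 {S : List (List Pc)} {acc : List Mo} {u : WU} (he : u.e = 0)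
    (h : wuOkK H A t k S acc u (patW A S u.X u.Y u.i (u.swK t k).M)
      (kOf u.X u.Y (nthP S u.i)) = true)
    {B : Board} (hB : BdOk H A O R B)
    (hacc : ∀ m ∈ acc, m.k = u.φ → HasValue (PB S O B m.j)) :
    HasValue (PB S O B u.i) := by
  obtain ⟨h1, -, h3, h4, -⟩ := fea_parts h
  have hM : ∀ c, mkW u.X u.Y u.e c = [] := by
    intro c
    rw [he]
    rfl
  have hR : rsK t k u.e = [] := by
    rw [he]
    rfl
  rw [fea_sw_B (Or.inr he), hM, hR] at h3
  change swOk H A S u.i _ (patW A S u.X u.Y u.i []) (kOf u.X u.Y (nthP S u.i)) = true at h3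
  obtain ⟨hb, hex⟩ := fwc_swOk h3
  have d := TW1_base hb
  have hX : 8 ≤ u.X ∧ u.X ≤ 72 := d.hX
  have hY : 8 ≤ u.Y ∧ u.Y + 8 ≤ H := d.hY
  have key := sw_hasValue (x := ⟨u.X, u.Y, [], [], PW, 0, u.tr, [exW u.X u.Y u.e 8 u.x0]⟩) h3
    (R := R) (K := fun l C => l = 0 ∧ C = ctx O B u.X u.Y)
    (famN hB.fits.noK hB.reg hX hY PW rfl) ?_ (C := ctx O B u.X u.Y) ⟨rfl, rfl⟩
    (MN_G hB.reg hB.G hX hY _)
  · have hbrd := MN_brd (S := S) (i := u.i) hB.fits hX hY d.pcs h1
    unfold PB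
    rw [← hbrd]
    exact key
  · rintro l E hE y hy C ⟨-, rfl⟩
    have hl : E = exW u.X u.Y u.e 8 u.x0 := by
      cases l with
      | zero =>
        have : some (exW u.X u.Y u.e 8 u.x0) = some E := hE
        exact (Option.some.inj this).symm
      | succ l =>
        have : (none : Option (List Ex)) = some E := hE
        exact absurd this (by simp)
    subst hl
    have hpc := hex _ (List.mem_singleton.2 rfl) y hy
    obtain ⟨hyM, hyi⟩ := fwc_mem_exW hy
    rw [hM] at hyM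
    obtain ⟨g1, g2⟩ := h4 y.i hyi
    rw [hyM] at hpc ⊢
    have hbrd := MN_brd (S := S) (i := y.i) (O := O) hB.fits hX hY hpc g1
    have hv := hacc _ g2 (by
      show cond (Nat.beq u.e 0) u.φ 1 = u.φ
      rw [he]
      rfl)
    change HasValue ⟨(ctx O B u.X u.Y).brd (patW A S u.X u.Y y.i []), false⟩
    rw [hbrd]
    exact hv

/-- an item with a ray, phase `1` -/
theorem fea_item1 {S : List (List Pc)} {acc : List Mo} {u : WU} (he : u.e ≠ 0) (hφ : u.φ ≠ 0)
    (h : wuOkK H A t k S acc u (patW A S u.X u.Y u.i (u.swK t k).M)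
      (kOf u.X u.Y (nthP S u.i)) = true)
    {B : Board} (hB : BdOk H A O R B) {f : Sq} (hf : FsOk H k O B f) (hin : Inner u.e)
    (hfam : Family R PW (rsK t k u.e) (K1 t k O u.X u.Y u.e B f))
    (hacc : ∀ m ∈ acc, m.k = 1 → HasValue (PB S O B m.j)) :
    HasValue (PB S O B u.i) := by
  obtain ⟨g1, -, h3, h4, -⟩ := fea_parts h
  rw [fea_sw_B (Or.inl hφ)] at h3
  change swOk H A S u.i _ (patW A S u.X u.Y u.i (mkW u.X u.Y u.e 8))
    (kOf u.X u.Y (nthP S u.i)) = true at h3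
  obtain ⟨hb, hex⟩ := fwc_swOk h3
  have d := TW1_base hb
  have hX : 8 ≤ u.X ∧ u.X ≤ 72 := d.hX
  have hY : 8 ≤ u.Y ∧ u.Y + 8 ≤ H := d.hY
  have hok := hfam.ok 0 _ ⟨rfl, rfl⟩
  have hsep := hfam.sep 0 _ ⟨rfl, rfl⟩
  have key := sw_hasValue
    (x := ⟨u.X, u.Y, mkW u.X u.Y u.e 8, rsK t k u.e, PW, 0, u.tr, [exW u.X u.Y u.e 8 u.x0]⟩) h3
    (R := R) (K := K1 t k O u.X u.Y u.e B f)
    hfam ?_ (C := cxG t k O u.X u.Y u.e (delB B f) f) ⟨rfl, rfl⟩
    (fea_G1 hB hsep _)
  · have hbrd := brdK1 hB hf hok hX hY (S := S) (i := u.i) g1 hin d.pcs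
    unfold PB
    rw [← hbrd]
    exact key
  · rintro l E hE y hy C ⟨hl0, rfl⟩
    subst hl0
    have hl : E = exW u.X u.Y u.e 8 u.x0 := by
      have : some (exW u.X u.Y u.e 8 u.x0) = some E := hE
      exact (Option.some.inj this).symm
    subst hl
    have hpc := hex _ (List.mem_singleton.2 rfl) y hy
    obtain ⟨hyM, hyi⟩ := fwc_mem_exW hy
    obtain ⟨k1, k2⟩ := h4 y.i hyi
    rw [hyM] at hpc ⊢
    have hbrd := brdK1 hB hf hok hX hY (S := S) (i := y.i) k1 hin hpc
    have hv := hacc _ k2 (by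
      show cond (Nat.beq u.e 0) u.φ 1 = 1
      rw [fwc_beq0 he]
      rfl)
    change HasValue ⟨(cxG t k O u.X u.Y u.e (delB B f) f).brd
      (patW A S u.X u.Y y.i (mkW u.X u.Y u.e 8)), false⟩
    rw [hbrd]
    exact hv

/-- an item with a ray, phase `0` -/
theorem fea_item2 {S : List (List Pc)} {acc : List Mo} {u : WU} (he : u.e ≠ 0) (hφ : u.φ = 0)
    (h : wuOkK H A t k S acc u (patW A S u.X u.Y u.i (u.swK t k).M)
      (kOf u.X u.Y (nthP S u.i)) = true)
    {Bf : Board} (hB : BdOk H A O R Bf) {W : Board → Sq → Prop}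
    (hW : ∀ B f, W B f → BdOk H A O R B ∧ FsOk H k O B f) (hin : Inner u.e)
    (hfam0 : Family R PW (rsK t k u.e) (K0 t k O u.X u.Y u.e Bf W))
    (hacc0 : ∀ m ∈ acc, m.k = 0 → HasValue (PB S O Bf m.j))
    (hacc1 : ∀ B f, W B f → ∀ m ∈ acc, m.k = 1 → HasValue (PB S O B m.j)) :
    HasValue (PB S O Bf u.i) := by
  obtain ⟨g1, -, h3, h4, h5⟩ := fea_parts h
  rw [fea_sw_A hφ he] at h3
  change swOk H A S u.i _ (patW A S u.X u.Y u.i (mkW u.X u.Y u.e 7))
    (kOf u.X u.Y (nthP S u.i)) = true at h3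
  obtain ⟨hb, hex⟩ := fwc_swOk h3
  have d := TW1_base hb
  have hX : 8 ≤ u.X ∧ u.X ≤ 72 := d.hX
  have hY : 8 ≤ u.Y ∧ u.Y + 8 ≤ H := d.hY
  have hok := hfam0.ok 1 _ (Or.inl ⟨rfl, rfl⟩)
  have hsep := hfam0.sep 1 _ (Or.inl ⟨rfl, rfl⟩)
  have key := sw_hasValue
    (x := ⟨u.X, u.Y, mkW u.X u.Y u.e 7, rsK t k u.e, PW, 1, u.tr,
      [exW u.X u.Y u.e 8 u.x0, exW u.X u.Y u.e 7 u.x1]⟩) h3
    (R := R) (K := K0 t k O u.X u.Y u.e Bf W)
    hfam0 ?_ (C := cxG t k O u.X u.Y u.e Bf (rayG t O u.X u.Y u.e 1)) (Or.inl ⟨rfl, rfl⟩)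
    (fea_G0 hB hsep _)
  · have hbrd := brdK0 hB hok hX hY (S := S) (i := u.i) g1 hin d.pcs
    unfold PB
    rw [← hbrd]
    exact key
  · rintro l E hE y hy C (⟨hl, rfl⟩ | ⟨hl, B, f, hWt, rfl⟩)
    · subst hl
      have hl : E = exW u.X u.Y u.e 7 u.x1 := by
        have : some (exW u.X u.Y u.e 7 u.x1) = some E := hE
        exact (Option.some.inj this).symm
      subst hl
      have hpc := hex _ (List.mem_cons_of_mem _ (List.mem_singleton.2 rfl)) y hy
      obtain ⟨hyM, hyi⟩ := fwc_mem_exW hy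
      obtain ⟨k1, k2⟩ := h5 y.i hyi
      rw [hyM] at hpc ⊢
      have hbrd := brdK0 hB hok hX hY (S := S) (i := y.i) k1 hin hpc
      have hv := hacc0 _ k2 hφ
      change HasValue ⟨(cxG t k O u.X u.Y u.e Bf (rayG t O u.X u.Y u.e 1)).brd
        (patW A S u.X u.Y y.i (mkW u.X u.Y u.e 7)), false⟩
      rw [hbrd]
      exact hv
    · subst hl
      have hl : E = exW u.X u.Y u.e 8 u.x0 := by
        have : some (exW u.X u.Y u.e 8 u.x0) = some E := hE
        exact (Option.some.inj this).symm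
      subst hl
      have hpc := hex _ List.mem_cons_self y hy
      obtain ⟨hyM, hyi⟩ := fwc_mem_exW hy
      obtain ⟨hB1, hf1⟩ := hW B f hWt
      have hok1 := hfam0.ok 0 _ (Or.inr ⟨rfl, B, f, hWt, rfl⟩)
      obtain ⟨k1, k2⟩ := h4 y.i hyi
      rw [hyM] at hpc ⊢
      have hbrd := brdK1 hB1 hf1 hok1 hX hY (S := S) (i := y.i) k1 hin hpc
      have hv' := hacc1 B f hWt _ k2 (by
        show cond (Nat.beq u.e 0) u.φ 1 = 1
        rw [fwc_beq0 he]
        rfl)
      change HasValue ⟨(cxG t k O u.X u.Y u.e (delB B f) f).brd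
        (patW A S u.X u.Y y.i (mkW u.X u.Y u.e 8)), false⟩
      rw [hbrd]
      exact hv'

theorem fea_grp {S : List (List Pc)} {acc : List Mo} {u : WU} {L : List WU}
    (h : grpKU H A t k S acc (u :: L) = true) :
    wuOkK H A t k S (keysWU L acc) u (patW A S u.X u.Y u.i (u.swK t k).M)
      (kOf u.X u.Y (nthP S u.i)) = true ∧ grpKU H A t k S acc L = true := by
  have h1 : grpKU H A t k S acc (u :: L) = (wuOkK H A t k S (keysWU L acc) u
    (patW A S u.X u.Y u.i (u.swK t k).M) (kOf u.X u.Y (nthP S u.i)) &&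
      grpKU H A t k S acc L) := rfl
  rw [h1, Bool.and_eq_true] at h
  exact h

/-- chunk FEA: **phase 1** -/
theorem grpKU_1 {S : List (List Pc)} {acc : List Mo} {L : List WU} (h : grpKU H A t k S acc L = true)
    {B : Board} (hB : BdOk H A O R B) {f : Sq} (hf : FsOk H k O B f)
    (hin : ∀ u ∈ L, u.e ≠ 0 → Inner u.e)
    (hfam : ∀ u ∈ L, u.e ≠ 0 → Family R PW (rsK t k u.e) (K1 t k O u.X u.Y u.e B f))
    (hacc : ∀ m ∈ acc, m.k = 1 → HasValue (PB S O B m.j)) :
    ∀ m ∈ keysWU L acc, m.k = 1 → HasValue (PB S O B m.j) := by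
  induction L with
  | nil => exact hacc
  | cons u L ih =>
    obtain ⟨h2, h3⟩ := fea_grp h
    have ih' := ih h3 (fun u hu => hin u (List.mem_cons_of_mem _ hu))
      (fun u hu => hfam u (List.mem_cons_of_mem _ hu))
    have hk : keysWU (u :: L) acc = ⟨u.i, u.φ⟩ :: keysWU L acc := rfl
    rw [hk]
    intro m hm hmk
    rcases List.mem_cons.1 hm with rfl | hm
    · simp only at hmk ⊢
      by_cases he : u.e = 0
      · exact fea_item0 he h2 hB (fun m hm hmk' => ih' m hm (hmk'.trans hmk))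
      · exact fea_item1 he (by omega) h2 hB hf (hin u List.mem_cons_self he)
          (hfam u List.mem_cons_self he) ih'
    · exact ih' m hm hmk

/-- chunk FEA: **phase 0** -/
theorem grpKU_0 {S : List (List Pc)} {acc : List Mo} {L : List WU} (h : grpKU H A t k S acc L = true)
    {Bf : Board} (hB : BdOk H A O R Bf) {W : Board → Sq → Prop}
    (hW : ∀ B f, W B f → BdOk H A O R B ∧ FsOk H k O B f)
    (hin : ∀ u ∈ L, u.e ≠ 0 → Inner u.e)
    (hfam0 : ∀ u ∈ L, u.e ≠ 0 → Family R PW (rsK t k u.e) (K0 t k O u.X u.Y u.e Bf W))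
    (hfam1 : ∀ B f, W B f → ∀ u ∈ L, u.e ≠ 0 → Family R PW (rsK t k u.e) (K1 t k O u.X u.Y u.e B f))
    (hacc0 : ∀ m ∈ acc, m.k = 0 → HasValue (PB S O Bf m.j))
    (hacc1 : ∀ B f, W B f → ∀ m ∈ acc, m.k = 1 → HasValue (PB S O B m.j)) :
    ∀ m ∈ keysWU L acc, m.k = 0 → HasValue (PB S O Bf m.j) := by
  induction L with
  | nil => exact hacc0
  | cons u L ih =>
    obtain ⟨h2, h3⟩ := fea_grp h
    have ih' := ih h3 (fun u hu => hin u (List.mem_cons_of_mem _ hu))
      (fun u hu => hfam0 u (List.mem_cons_of_mem _ hu))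
      (fun B f hw u hu => hfam1 B f hw u (List.mem_cons_of_mem _ hu))
    have hk : keysWU (u :: L) acc = ⟨u.i, u.φ⟩ :: keysWU L acc := rfl
    rw [hk]
    intro m hm hmk
    rcases List.mem_cons.1 hm with rfl | hm
    · simp only at hmk ⊢
      by_cases he : u.e = 0
      · exact fea_item0 he h2 hB (fun m hm hmk' => ih' m hm (hmk'.trans hmk))
      · refine fea_item2 he hmk h2 hB hW (hin u List.mem_cons_self he)
          (hfam0 u List.mem_cons_self he) ih' ?_
        intro B f hw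
        exact grpKU_1 h3 (hW B f hw).1 (hW B f hw).2 (fun u hu => hin u (List.mem_cons_of_mem _ hu))
          (fun u hu => hfam1 B f hw u (List.mem_cons_of_mem _ hu)) (hacc1 B f hw)
    · exact ih' m hm hmk

end Pool.Agent.Lib.H32C.Loc
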