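import Pool.Agent.Lib.H32C.FarWin

/-!
# Chunk FWA: contexts of windows
-/

set_option autoImplicit false

namespace Pool.Agent.Lib.H32C.Loc

variable {G : FGeo} {B0 : Board} {s : Svc} {R : Room} {T : WT} {O : Sq} {X Y e : Nat}

/-- chunk FWA: the bishop is not on a line -/
theorem fwa_b_notline (h : G.Ok) {F : Far} (hb : BOk G F) {s : Svc} {c : Sq} (hc : G.line s c) :
    c ≠ F.b := by
  intro hcb
  have h1 := h.hN1
  have h2 := h.h1C
  have h3 := h.hjC
  have h4 := h.hjA
  have h5 := h.hjB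
  have h6 := h.h2A
  have h7 := h.hAB
  have h8 := h.hBD
  have h9 := h.hWN
  have h10 := h.heD
  have h11 := h.h2
  obtain ⟨n, hn⟩ : ∃ n : ℕ, F.b = (G.xD + n, G.X0 - 2 - G.xD + n) := by
    rcases hb with hb | ⟨n, -, hb⟩
    · refine ⟨0, ?_⟩
      rw [hb]
      simp [FGeo.hb]
    · exact ⟨n, hb⟩
  rw [hn] at hcb
  have e1 : c.1 = G.xD + n := by rw [hcb]
  have e2 : c.2 = G.X0 - 2 - G.xD + n := by rw [hcb]
  cases s with
  | H q => cases q <;> simp only [FGeo.line] at hc <;> omega
  | Z q => cases q <;> simp only [FGeo.line] at hc <;> omega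
  | T q => cases q <;> simp only [FGeo.line] at hc <;> omega
  | _ => simp only [FGeo.line] at hc <;> omega

/-- a far piece or floating pawn on the line is a floating pawn -/
theorem farB_line (hT : WinT G B0 s R T O) {F : Far} {A : Qn → Prop} {bp : Prop}
    (hF : FarS G s F A) {c : Sq} (hc : G.line s c) {m : Man} (h : farB G B0 F A bp c = some m) :
    m = (false, Kind.pawn) ∧ G.floater c := by
  unfold farB at h
  split_ifs at h with h1 h2 h3
  · obtain ⟨q, hq, rfl⟩ := h1
    exact absurd hc (hF.off q hq)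
  · exact absurd h2.2 (fwa_b_notline hT.geo hF.b hc)
  · simp only [Option.some.injEq] at h
    exact ⟨h.symm, h3⟩
  · rw [hT.clear c hc] at h
    cases h

/-- no far piece and no floating pawn in the hull -/
theorem farB_hull (hT : WinT G B0 s R T O) {F : Far} {A : Qn → Prop} {bp : Prop}
    (hb : BOk G F) (hA : ∀ q, A q → G.Outside (F.q q)) {c : Sq} (hc : c.2 ≤ G.T + 1) (hz : ¬ G.Zone c) (hh : c ≠ G.hb) : farB G B0 F A bp c = B0 c := by
  unfold farB
  rw [if_neg, if_neg, if_neg]
  · intro h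
    have := floater_above hT.geo h
    omega
  · rintro ⟨-, h⟩
    rcases hb with hb | ⟨n, hn, hb⟩
    · exact hh (h.trans hb)
    · apply hz
      rw [h, hb]
      exact out_zone hT.geo hn
  · rintro ⟨q, hq, rfl⟩
    rcases hA q hq with h | h | h
    · exact hz (Or.inl h)
    · exact hz (Or.inr (Or.inl h))
    · omega

theorem rayW_line (hP : WinP G B0 s T O X Y e) {n : ℕ} (hn : 0 < n) :
    G.line s (rayW T O X Y e n) ∧ rayW T O X Y e n ∉ inP O X Y :=
  (hP.line _).2 ⟨n, hn, rfl⟩

/-- the squares of a patch belong to the region of the tile -/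
theorem patch_reg (hP : WinP G B0 s T O X Y e) {c : Sq} (hc : InB (orgP O X Y) c) :
    c ∈ TileRegH T.H O := by
  obtain ⟨h1, h2, h3, h4⟩ := hc
  obtain ⟨h5, h6⟩ := hP.hX
  obtain ⟨h7, h8⟩ := hP.hY
  simp only [orgP] at h1 h2 h3 h4
  refine ⟨?_, ?_, ?_, ?_⟩ <;> omega

/-- a White king is nowhere on the board of the far pieces -/
theorem farB_noK (hT : WinT G B0 s R T O) {F : Far} {A : Qn → Prop} {bp : Prop} (c : Sq) :
    NK (farB G B0 F A bp c) c := by
  unfold farB
  split_ifs
  · exact nk_man (by decide) c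
  · exact nk_man (by decide) c
  · exact nk_man (by decide) c
  · exact hT.fits.noK c

/-- the contexts are admissible -/
theorem cxW_ok (hT : WinT G B0 s R T O) (hP : WinP G B0 s T O X Y e) {F : Far} {A : Qn → Prop}
    {bp : Prop} (hF : FarS G s F A) {f : Sq} {n : ℕ} (hn : 0 < n) (hf : f = rayW T O X Y e n)
    (hfree : ∀ i : ℕ, 0 < i → i ≤ n → farB G B0 F A bp (rayW T O X Y e i) = none) :
    (cxW T O X Y e (farB G B0 F A bp) f).Ok where
  noK c := farB_noK hT c
  nodup := by simp [cxW]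
  kind := by
    intro ρ hρ
    simp only [cxW, List.mem_singleton] at hρ
    subst hρ
    exact Or.inl ⟨hT.t, Or.inr rfl⟩
  inner := by
    intro ρ hρ
    simp only [cxW, List.mem_singleton] at hρ
    subst hρ
    exact ⟨hP.inn, fun _ => hP.out⟩
  empty := by
    intro ρ hρ n' hn' _ m hm
    simp only [cxW, List.mem_singleton] at hρ
    subst hρ
    obtain ⟨h1, -⟩ := farB_line hT hF (rayW_line hP hn').1 hm
    rw [h1]
    exact Or.inl rfl
  far := by
    intro ρ hρ
    simp only [cxW, List.mem_singleton] at hρ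
    subst hρ
    refine ⟨n, hn, ?_, fun i hi hin => hfree i hi hin⟩
    simp only [cxW, if_true]
    exact hf
  disj := by
    intro ρ hρ ρ' hρ' hne
    simp only [cxW, List.mem_singleton] at hρ hρ'
    subst hρ
    subst hρ'
    exact absurd rfl hne

/-- the room is away -/
theorem cxW_sep (hT : WinT G B0 s R T O) (hP : WinP G B0 s T O X Y e) {B : Board} {f : Sq}
    (hf : G.line s f) : R.Sep (cxW T O X Y e B f) where
  patch := fun c hc => hT.regZ c (patch_reg hP hc)
  far := by
    intro ρ hρ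
    simp only [cxW, List.mem_singleton] at hρ
    subst hρ
    intro h
    simp only [cxW, if_true] at h
    exact (hT.hullZ f h).2.2.2 hf

/-- the mating threat of the room -/
theorem farB_G (hT : WinT G B0 s R T O) {F : Far} {A : Qn → Prop} {bp : Prop}
    (hb : BOk G F) (hA : ∀ q, A q → G.Outside (F.q q)) : R.G (farB G B0 F A bp) := by
  refine R.dep B0 _ (fun c hc => ?_) hT.G
  obtain ⟨h1, h2, h3, -⟩ := hT.hullZ c hc
  exact (farB_hull hT hb hA (by omega) h2 h3).symm

theorem cxW_G (hT : WinT G B0 s R T O) (hP : WinP G B0 s T O X Y e) {F : Far} {A : Qn → Prop}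
    {bp : Prop} (hb : BOk G F) (hA : ∀ q, A q → G.Outside (F.q q)) {f : Sq} (hf : G.line s f)
    (p : Nat) : R.G ((cxW T O X Y e (farB G B0 F A bp) f).brd p) := by
  refine R.dep (farB G B0 F A bp) _ (fun c hc => ?_) (farB_G hT hb hA)
  have h1 : ¬ InB (cxW T O X Y e (farB G B0 F A bp) f).o c := fun h =>
    hT.regZ c (patch_reg hP h) hc
  have h2 : c ≠ f := by
    rintro rfl
    exact (hT.hullZ c hc).2.2.2 hf
  unfold Ctx.brd
  rw [if_neg (fun h => h1 h.1)]
  have h3 : (cxW T O X Y e (farB G B0 F A bp) f).R.find? (fun ρ =>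
      decide (c = (cxW T O X Y e (farB G B0 F A bp) f).f ρ.e ∧ cell p ρ.e = 8)) = none := by
    rw [List.find?_eq_none]
    intro ρ hρ
    simp only [cxW, List.mem_singleton] at hρ
    subst hρ
    simp [cxW, h2]
  rw [h3]
  rfl

/-- the static content of the tile agrees with the board of the far pieces -/
theorem farB_fits (hT : WinT G B0 s R T O) {F : Far} {A : Qn → Prop} {bp : Prop}
    (hb : BOk G F) (hA : ∀ q, A q → G.Outside (F.q q)) : FitsH T.H T.A O (farB G B0 F A bp) where
  cells := by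
    intro X Y hX hY hc
    obtain ⟨h1, h2, h3⟩ := hT.hull (tsq O X Y) (by
      refine ⟨?_, ?_, ?_, ?_⟩ <;> simp only [tsq] <;> omega)
    rw [farB_hull hT hb hA (by omega) h2 h3]
    exact hT.fits.cells X Y hX hY hc
  noK c := farB_noK hT c

/-- chunk FWA: the first square beyond the mark belongs to the patch -/
theorem fwa_ray1 (hT : WinT G B0 s R T O) (hP : WinP G B0 s T O X Y e) :
    InB (orgP O X Y) (rayW T O X Y e 1) := by
  have h1 := hT.t
  obtain ⟨h2, h3, h4, h5⟩ := hP.inn
  unfold rayW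
  rw [one_smul]
  simp only [orT, List.mem_cons, List.not_mem_nil, or_false] at h1
  rcases h1 with h | h | h | h <;> rw [h] <;>
    refine ⟨?_, ?_, ?_, ?_⟩ <;> simp only [sq, vec, Prod.fst_add, Prod.snd_add] <;> omega

/-- chunk FWA: the context without a queen on the ray -/
theorem cxE_ok (hT : WinT G B0 s R T O) (hP : WinP G B0 s T O X Y e) {F : Far}
    (hF : FarS G s F (fun _ => True)) : (cxE G B0 T O X Y e F).Ok := by
  refine cxW_ok hT hP hF one_pos rfl (fun i hi hi1 => ?_)
  obtain rfl : i = 1 := by omega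
  obtain ⟨h1, h2, h3⟩ := hT.hull _ (patch_reg hP (fwa_ray1 hT hP))
  rw [farB_hull hT hF.b hF.out (by omega) h2 h3]
  exact hT.clear _ (rayW_line hP one_pos).1

/-- a queen on the line is on the ray of every patch with a ray -/
theorem Ph1.onRay (hT : WinT G B0 s R T O) (hP : WinP G B0 s T O X Y e) {F : Far} {q : Qn}
    (h : Ph1 G s T F q) : OnRay G B0 T O X Y e F q := by
  have h1 : F.q q ∉ inP O X Y := by
    intro hin
    have h2 : InB (orgP O X Y) (F.q q) := by
      obtain ⟨a1, a2, a3, a4⟩ := hin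
      refine ⟨?_, ?_, ?_, ?_⟩ <;> simp only [orgP] <;> omega
    obtain ⟨h3, h4, -⟩ := hT.hull _ (patch_reg hP h2)
    rcases h.base.2.2.1 q with h5 | h5 | h5
    · exact h4 (Or.inl h5)
    · exact h4 (Or.inr (Or.inl h5))
    · omega
  obtain ⟨n, hn, hq⟩ := (hP.line _).1 ⟨h.on, h1⟩
  refine ⟨n, hn, hq, fun i hi hin => ?_⟩
  by_contra hne
  obtain ⟨m, hm⟩ := Option.ne_none_iff_exists'.1 hne
  have hl := (rayW_line hP hi).1
  obtain ⟨-, h2⟩ := farB_line hT h.far hl hm
  refine h.free _ hl ⟨n - i, ?_⟩ h2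
  rw [hq]
  unfold rayW
  rw [add_assoc, ← add_smul]
  congr 3
  omega

/-- chunk FWA: the context with a queen on the ray -/
theorem cxA_ok (hT : WinT G B0 s R T O) (hP : WinP G B0 s T O X Y e) {F : Far} {q : Qn}
    (hF : FarS G s F (fun r => r ≠ q)) (ho : OnRay G B0 T O X Y e F q) :
    (cxA G B0 T O X Y e F q).Ok := by
  obtain ⟨n, hn, hq, hfree⟩ := ho
  exact cxW_ok hT hP hF hn hq hfree

end Pool.Agent.Lib.H32C.Loc
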