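import Pool.Agent.Lib.H32C.FwA

/-!
# Chunk FWB: the families of contexts of windows
-/

set_option autoImplicit false

namespace Pool.Agent.Lib.H32C.Loc

variable {G : FGeo} {B0 : Board} {s : Svc} {R : Room} {T : WT} {O : Sq} {X Y e : Nat}

/-- chunk FWB1: outside of the inner squares the cells are unknown -/
theorem fwb1_inP {C : Ctx} (ho : C.o = orgP O X Y) {p k : Nat} (hp : WF C p k) {d : Sq}
    (hd : d ∉ inP O X Y) : ¬ (InB C.o d ∧ cell p (idx C.o d) ≠ 15) := by
  rintro ⟨h1, h2⟩
  apply h2
  apply hp.margin _ (sq_idx h1).2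
  intro hI
  apply hd
  rw [ho] at h1 hI
  obtain ⟨a1, a2, a3, a4⟩ := h1
  obtain ⟨b1, b2, b3, b4⟩ := hI
  simp only [idx, orgP] at *
  refine ⟨?_, ?_, ?_, ?_⟩ <;> omega

/-- chunk FWB1: the king sees the mark -/
theorem fwb1_sees {C : Ctx} {p k : Nat} (hp : WF C p k) {t : Nat} (ht : t ∈ orT)
    (hs : see7 p k ⟨e, t, 13⟩ = true) : cell p e = 7 ∧ ∃ n, Sees C p k t n e := by
  unfold see7 at hs
  rw [Bool.and_eq_true, TS1_beq, TS1_beq] at hs
  obtain ⟨h7, hfirst⟩ := hs
  simp only at h7 hfirst
  refine ⟨h7, ?_⟩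
  obtain ⟨n', hS⟩ := first_spec hp hp.lt (by rw [hp.king]; decide) (List.mem_append_left _ ht)
    (by rw [hfirst, h7]; decide)
  rw [hfirst] at hS
  exact ⟨n', hS⟩

/-- chunk FWB1: squares of a line with a step -/
theorem fwb1_betw {t : Nat} (ht : t ∈ orT) (c : Sq) {x y z : ℤ} (h1 : x < y) (h2 : y < z) :
    BetwI (c + x • vec t) (c + z • vec t) (c + y • vec t) := by
  obtain ⟨c1, c2⟩ := c
  simp only [orT, List.mem_cons, List.not_mem_nil, or_false] at ht
  rcases ht with h | h | h | h <;> rw [h] <;>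
    simp only [BetwI, OrthI, vec, Prod.fst_add, Prod.snd_add, Prod.smul_fst, Prod.smul_snd,
      smul_eq_mul] <;> norm_num <;> omega

/-- **Arrivals.** `B` is the board of a patch with mark `7` seen by the king; a Black move `a → b`, where `a` is not a known
cell, after which a slider attacks along the ray, is the arrival of a queen.

Proof.  Let `κ` be the king's square; `see7`: `κ = sq e - l₀ • vec t` with `l₀ > 0`, the cells between `κ` and
`sq e`, and `sq e` itself (code `7`), are empty on the board.  `Hit`: a slider stands on `ray m` after the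
move, the squares `ray i`, `0 < i < m`, are empty.  If `b ≠ ray m`, the slider stood there before: contradiction to
`farB_line` (brd_ray with mark `7`).  So `b = ray m`, and the man of `a` is a queen or a rook (`T.t ∈ orT`).  The
board outside of the inner squares of the patch, and on `a`, is `fullB`.  By `farB_slider` `a` is `F.q q`
or a static slider.  Static: if `a` is on the axis, `a = sq e + j • vec t`: `j > 0`: `WinP.line`, `WinT.clear`
contradict; `- l₀ < j ≤ 0`: the board is empty; `j = - l₀`: the king; `j < - l₀`: the king is in between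
(canGo_slider).  If `a` is not on the axis: `WinP.closed` gives a static piece in between outside of the
inner squares, contradiction to canGo_slider.  Far queen: `FarU` as in `arrive_farU` (canGo_slider, `farB_hull` for
the squares of the patch: no far piece there), and `G.ray s b` by `line_cases` and the argument with the
roof in `arrive_farU`. -/
theorem arriveW (hT : WinT G B0 s R T O) (hP : WinP G B0 s T O X Y e) {F : Far}
    (hF : FarS G s F (fun _ => True)) {p k : Nat} (hp : WF (cxE G B0 T O X Y e F) p k)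
    (hs : see7 p k ⟨e, T.t, 13⟩ = true) {a b : Sq}
    (hl : Legal ((cxE G B0 T O X Y e F).brd p) false a b)
    (hout : ¬ (InB (cxE G B0 T O X Y e F).o a ∧ cell p (idx (cxE G B0 T O X Y e F).o a) ≠ 15))
    (hh : Hit (cxE G B0 T O X Y e F) (((cxE G B0 T O X Y e F).brd p).move a b) ⟨e, T.t, 13⟩) :
    ∃ q, a = F.q q ∧ G.line s b ∧ FarU G F (F.q q) b ∧ (s.win = true → G.ray s b) ∧
      OnRay G B0 T O X Y e (F.set q b) q := by
  have hC := cxE_ok hT hP hF
  have hR : (⟨e, T.t, 13⟩ : Ray) ∈ (cxE G B0 T O X Y e F).R := by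
    simp [cxE, cxW]
  have ho : (cxE G B0 T O X Y e F).o = orgP O X Y := rfl
  have hCF : (cxE G B0 T O X Y e F).F = fullB G B0 F := rfl
  obtain ⟨h7, n', hS⟩ := fwb1_sees hp hT.t hs
  have hout' : ∀ c : Sq, ¬ (InB (cxE G B0 T O X Y e F).o c ∧
      cell p (idx (cxE G B0 T O X Y e F).o c) ≠ 15) →
      (cxE G B0 T O X Y e F).brd p c = fullB G B0 F c := by
    intro c hc
    rw [brd_out hc, hCF]
    intro ρ hρ _
    simp only [cxE, cxW, List.mem_singleton] at hρ
    subst hρ
    rw [h7]
    decide
  have hray : ∀ i : ℕ, 0 < i → (cxE G B0 T O X Y e F).brd p (rayW T O X Y e i) =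
      fullB G B0 F (rayW T O X Y e i) := by
    intro i hi
    exact hout' _ (fwb1_inP ho hp (rayW_line hP hi).2)
  obtain ⟨m, hm, hcl, κ, hκm, hκ⟩ := hh
  have hκ2 : κ = Kind.queen ∨ κ = Kind.rook := by
    rcases hκ with h | ⟨-, h⟩ | ⟨h, -⟩
    · exact Or.inl h
    · exact Or.inr h
    · exfalso
      have h1 := hT.t
      simp only [orT, diT, List.mem_cons, List.not_mem_nil, or_false] at h1 h
      omega
  change ((cxE G B0 T O X Y e F).brd p).move a b (rayW T O X Y e m) = _ at hκm
  change ∀ i : ℕ, 0 < i → i < m →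
    ((cxE G B0 T O X Y e F).brd p).move a b (rayW T O X Y e i) = none at hcl
  have hsa : rayW T O X Y e m ≠ a := by
    intro he
    unfold Board.move at hκm
    rw [if_pos he] at hκm
    cases hκm
  by_cases hsb : rayW T O X Y e m = b
  swap
  · exfalso
    unfold Board.move at hκm
    rw [if_neg hsa, if_neg hsb, hray m hm] at hκm
    obtain ⟨h1, -⟩ := farB_line hT hF (rayW_line hP hm).1 hκm
    rcases hκ2 with rfl | rfl <;> simp at h1
  obtain ⟨hcan, -⟩ := hl
  have hMa : (cxE G B0 T O X Y e F).brd p a = some (false, κ) := by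
    unfold Board.move at hκm
    rw [if_neg hsa, if_pos hsb] at hκm
    exact hκm
  obtain ⟨g1, g2, g3⟩ := canGo_slider hMa hκ2 hcan
  have hMa' := hMa
  rw [hout' a hout] at hMa'
  have hbl : G.line s b := by rw [← hsb]; exact (rayW_line hP hm).1
  have hbP : b ∉ inP O X Y := by rw [← hsb]; exact (rayW_line hP hm).2
  have hbB : (cxE G B0 T O X Y e F).brd p b = fullB G B0 F b := by
    rw [← hsb]; exact hray m hm
  have hking := (kingAt hC hp).1
  have hint : ∀ j : ℕ, rayW T O X Y e j = sq (orgP O X Y) e + (j : ℤ) • vec T.t := by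
    intro j
    unfold rayW
    rw [natCast_zsmul]
  have hke : sq (orgP O X Y) k = sq (orgP O X Y) e + (-(n' : ℤ)) • vec T.t := by
    have h1 := hS.eq
    rw [ho] at h1
    rw [h1, neg_smul, natCast_zsmul]
    abel
  rcases farB_slider hMa' hκ2 with ⟨q, -, haq⟩ | hst
  swap
  · -- a static slider
    exfalso
    by_cases hax : G.axis s a
    · obtain ⟨j, hj⟩ := (hP.axis a).1 hax
      rcases lt_trichotomy j (-(n' : ℤ)) with hj1 | hj1 | hj1
      · -- the king is in between
        have h1 : BetwI a b (sq (orgP O X Y) k) := by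
          rw [hj, hke, ← hsb, hint]
          exact fwb1_betw hT.t _ hj1 (by omega)
        have h2 := g2 _ h1
        rw [ho] at hking
        rw [hking] at h2
        cases h2
      · have h1 : a = sq (cxE G B0 T O X Y e F).o k := by
          rw [ho, hke, hj, hj1]
        rw [h1, hking] at hMa
        simp at hMa
      · rcases lt_trichotomy j 0 with hj2 | hj2 | hj2
        · obtain ⟨c, hc, hc0, hce⟩ := hS.clear (n' + j).toNat (by omega) (by omega)
          have h1 : a = sq (cxE G B0 T O X Y e F).o c := by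
            rw [hce, ho, hke, hj, add_assoc, ← natCast_zsmul, ← add_smul]
            congr 2
            omega
          rw [h1, brd_sq _ hc (by rw [hc0]; decide), hc0] at hMa
          cases hMa
        · have h1 : a = sq (cxE G B0 T O X Y e F).o e := by
            rw [hj, hj2, zero_smul, add_zero, ho]
          apply hout
          have he : e < 400 := by
            obtain ⟨a1, a2, a3, a4⟩ := hP.inn
            omega
          rw [h1, idx_sq _ he, h7]
          exact ⟨inB_sq _ he, by decide⟩
        · have h1 : a = rayW T O X Y e j.toNat := by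
            rw [hint, hj, Int.toNat_of_nonneg hj2.le]
          have h2 := (rayW_line hP (n := j.toNat) (by omega)).1
          rw [← h1] at h2
          rw [hT.clear a h2] at hst
          cases hst
    · obtain ⟨d, hd1, hd2, hd3⟩ := hP.closed b hbl hbP a κ hst hκ2 hax g1
      have h1 := g2 d hd1
      rw [hout' d (fwb1_inP ho hp hd2), fullB_none] at h1
      exact hd3 h1.2
  -- a far queen
  have hbO : ¬ Occ G F b := by
    intro hoc
    obtain ⟨k', hk'⟩ := occ_fullB (B0 := B0) hoc
    rw [← hbB] at hk'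
    have := (g3 _ hk').1
    simp at this
  have hhull : ∀ c : Sq, c.2 ≤ G.T → ¬ G.Zone c → c ≠ G.hb → ¬ Occ G F c := by
    rintro c hc1 hc2 hc3 (h1 | h1 | ⟨r, h1⟩)
    · have := floater_above hT.geo h1
      omega
    · rcases hF.b with hb | ⟨n, hn, hb⟩
      · exact hc3 (h1.trans hb)
      · apply hc2
        rw [h1, hb]
        exact out_zone hT.geo hn
    · subst h1
      rcases hF.out r trivial with h | h | h
      · exact hc2 (Or.inl h)
      · exact hc2 (Or.inr (Or.inl h))
      · omega
  have hbet : ∀ c, BetwI (F.q q) b c → ¬ Occ G F c := by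
    intro c hc
    by_cases hcP : InB (orgP O X Y) c
    · obtain ⟨h1, h2, h3⟩ := hT.hull c (patch_reg hP hcP)
      exact hhull c h1 h2 h3
    · have h1 := g2 c (by rw [haq]; exact hc)
      rw [hout' c (fun h => hcP (by rw [← ho]; exact h.1)), fullB_none] at h1
      exact h1.1
  have hraynone : ∀ i : ℕ, 0 < i → i < m → fullB G B0 F (rayW T O X Y e i) = none := by
    intro i hi him
    have h1 := hcl i hi him
    have h2 : rayW T O X Y e i ≠ a := by
      intro h
      have h3 := (rayW_line hP hi).1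
      rw [h, haq] at h3
      exact hF.off q trivial h3
    unfold Board.move at h1
    rw [if_neg h2] at h1
    split_ifs at h1 with h3
    · rw [hMa] at h1
      cases h1
    · rw [hray i hi] at h1
      exact h1
  refine ⟨q, haq, hbl, ⟨?_, hbet, hbO⟩, ?_, ?_⟩
  · rw [← haq]
    exact g1.imp id fun h => h.2
  · intro hw
    rcases line_cases hw hbl with hr | ⟨r, rfl, e1, e2⟩
    · exact hr
    · exfalso
      have hroof := floater_roof (G := G) r
      have hTr := floater_above hT.geo hroof
      rcases eq_or_lt_of_le (show G.base r - G.j r + 1 ≤ b.2 by omega) with h5 | h5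
      · refine hbO (Or.inl ?_)
        have : b = G.roof r := Prod.ext e1 h5.symm
        rw [this]; exact hroof
      · have hrl : G.line (Svc.Z r) (G.roof r) := by
          have h6 := hT.geo.hy (Svc.Z r)
          refine ⟨rfl, ?_⟩
          omega
        have hrP : G.roof r ∉ inP O X Y := by
          intro hin
          have h2 : InB (orgP O X Y) (G.roof r) := by
            obtain ⟨a1, a2, a3, a4⟩ := hin
            refine ⟨?_, ?_, ?_, ?_⟩ <;> simp only [orgP] <;> omega
          have h6 := (hT.hull _ (patch_reg hP h2)).1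
          omega
        obtain ⟨i, hi, hri⟩ := (hP.line _).1 ⟨hrl, hrP⟩
        have hsqe : (sq (orgP O X Y) e).2 ≤ G.T := by
          have he : e < 400 := by
            obtain ⟨a1, a2, a3, a4⟩ := hP.inn
            omega
          exact (hT.hull _ (patch_reg hP (inB_sq _ he))).1
        have him : i < m := by
          have e3 : (G.roof r).2 = (sq (orgP O X Y) e).2 + i * (vec T.t).2 := by
            rw [hri, hint, Prod.snd_add, Prod.smul_snd, smul_eq_mul]
          have e4 : b.2 = (sq (orgP O X Y) e).2 + m * (vec T.t).2 := by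
            rw [← hsb, hint, Prod.snd_add, Prod.smul_snd, smul_eq_mul]
          have e5 : (G.roof r).2 = G.base r - G.j r + 1 := rfl
          have h1 := hT.t
          simp only [orT, List.mem_cons, List.not_mem_nil, or_false] at h1
          rcases h1 with h | h | h | h <;> rw [h] at e3 e4 <;> simp [vec] at e3 e4 <;> omega
        have h6 := hraynone i hi him
        rw [← hri, fullB_none] at h6
        exact h6.1 (Or.inl hroof)
  · have hsetq : (F.set q b).q q = b := Function.update_self _ _ _
    have hsetr : ∀ r, r ≠ q → (F.set q b).q r = F.q r := fun r hr =>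
      Function.update_of_ne hr _ _
    refine ⟨m, hm, by rw [hsetq, hsb], fun i hi him => ?_⟩
    unfold remB
    have key : ∀ c : Sq, ¬ Occ G F c → B0 c = none →
        farB G B0 (F.set q b) (fun r => r ≠ q) True c = none := by
      intro c h1 h2
      rw [farB_none]
      refine ⟨?_, ?_, fun h => h1 (Or.inl h), h2⟩
      · rintro ⟨r, hr, hcr⟩
        rw [hsetr r hr] at hcr
        exact h1 (Or.inr (Or.inr ⟨r, hcr⟩))
      · rintro ⟨-, hcb⟩
        exact h1 (Or.inr (Or.inl hcb))
    rcases eq_or_lt_of_le him with h1 | h1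
    · rw [h1, hsb]
      exact key b hbO (hT.clear b hbl)
    · have h2 := hraynone i hi h1
      rw [fullB_none] at h2
      exact key _ h2.1 h2.2

/-! helpers of chunk FWB2 -/

theorem fwb_remB {F : Far} (hB : FBase G F) (hT : WinT G B0 s R T O) {q : Qn} {t : Sq} :
    (fun c => if c = F.q q then none else fullB G B0 F c) = remB G B0 (F.set q t) q := by
  funext c
  have h1 := farB_remove (G := G) (B0 := B0) (F := F) (A := fun _ => True) (bp := True) (q := q)
    (fun r hr => hB.1 r q hr) (hB.2.1 q) (hB.2.2.2 q) (outside_free hT.wor (hB.2.2.1 q)) c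
  have h2 : fullB G B0 F = farB G B0 F (fun _ => True) True := rfl
  rw [h2, h1]
  unfold remB farB
  have h3 : (∃ r, (True ∧ r ≠ q) ∧ c = F.q r) ↔ ∃ r, r ≠ q ∧ c = (F.set q t).q r := by
    constructor
    · rintro ⟨r, ⟨-, hr⟩, hc⟩
      exact ⟨r, hr, by rw [Far.set_ne _ _ hr]; exact hc⟩
    · rintro ⟨r, hr, hc⟩
      rw [Far.set_ne _ _ hr] at hc
      exact ⟨r, ⟨trivial, hr⟩, hc⟩
  classical exact if_congr h3 rfl rfl

theorem fwb_arr {F : Far} (hB : FBase G F) (hT : WinT G B0 s R T O) {q : Qn} {t : Sq} :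
    (cxE G B0 T O X Y e F).arr (F.q q) e t = cxA G B0 T O X Y e (F.set q t) q := by
  unfold Ctx.arr cxE cxA cxW
  rw [← fwb_remB hB hT, Far.set_q]
  congr 1
  funext i
  show (if i = e then t else if i = e then rayW T O X Y e 1 else (0, 0)) = if i = e then t else (0, 0)
  split_ifs <;> rfl

theorem fwb_farS {F : Far} {q : Qn} {t : Sq} (hF : FarS G s F (fun _ => True)) :
    FarS G s (F.set q t) (fun r => r ≠ q) := by
  refine ⟨hF.b, ?_, ?_⟩
  · intro r hr
    rw [Far.set_ne _ _ hr]
    exact hF.off r trivial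
  · intro r hr
    rw [Far.set_ne _ _ hr]
    exact hF.out r trivial

/-- the board after an arrival (`brd_arr`, `farB_remove`) -/
theorem brd_arrW (hT : WinT G B0 s R T O) (hP : WinP G B0 s T O X Y e) {F : Far}
    (hB : FBase G F) (hF : FarS G s F (fun _ => True)) {p k : Nat} (hp : WF (cxE G B0 T O X Y e F) p k)
    (h7 : cell p e = 7) {q : Qn} {t : Sq} (ho : OnRay G B0 T O X Y e (F.set q t) q)
    (hout : ¬ (InB (cxE G B0 T O X Y e F).o (F.q q) ∧
      cell p (idx (cxE G B0 T O X Y e F).o (F.q q)) ≠ 15)) :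
    (cxA G B0 T O X Y e (F.set q t) q).brd (arr' p e) =
      ((cxE G B0 T O X Y e F).brd p).move (F.q q) t := by
  obtain ⟨n, hn, ht, hfr⟩ := ho
  have ho' : OnRay G B0 T O X Y e (F.set q t) q := ⟨n, hn, ht, hfr⟩
  rw [Far.set_q] at ht
  have hC := cxE_ok hT hP hF
  have hρ : (⟨e, T.t, 13⟩ : Ray) ∈ (cxE G B0 T O X Y e F).R := List.mem_singleton.2 rfl
  have hray : (cxE G B0 T O X Y e F).ray ⟨e, T.t, 13⟩ n = t := ht.symm
  have key := brd_arr hC hp hρ h7 (a := F.q q) hout (by
      intro ρ' hρ' _
      rw [List.mem_singleton.1 hρ']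
      show cell p e ≠ 8
      rw [h7]
      decide) (by
      show fullB G B0 F (F.q q) = dec 13
      exact farB_queen trivial) (n := n) hn (by
      intro he
      refine hF.off q trivial ?_
      rw [he, hray, ht]
      exact (rayW_line hP hn).1) (by
      rw [hray]
      show ((cxE G B0 T O X Y e F).arr (F.q q) e t).Ok
      rw [fwb_arr hB hT]
      exact cxA_ok hT hP (fwb_farS hF) ho')
  rw [hray] at key
  have h2 := key.2
  have h3 : (cxE G B0 T O X Y e F).arr (F.q q) (⟨e, T.t, 13⟩ : Ray).e t =
    cxA G B0 T O X Y e (F.set q t) q := fwb_arr hB hT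
  rw [h3] at h2
  rw [arr'_eq]
  exact h2

/-- nobody comes to the mark from a direction in which the patch ends -/
theorem edgeW (hT : WinT G B0 s R T O) (hP : WinP G B0 s T O X Y e) {F : Far} {A : Qn → Prop}
    {bp : Prop} (hF : FarS G s F A) {f : Sq} (hf : G.line s f) {p k : Nat}
    (hp : WF (cxW T O X Y e (farB G B0 F A bp) f) p k) (h7 : cell p e = 7) (a : Sq) :
    ¬ Edge' (cxW T O X Y e (farB G B0 F A bp) f) p ⟨e, T.t, 13⟩ a := by
  rintro ⟨u, hu, hne, hin, l, hl, ha, hcl, κ, hB, hκ⟩
  have hne' : u ≠ T.t := hne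
  have hin' : ¬ Inner (stp u e) := hin
  obtain ⟨m, hm, hm2⟩ := hP.edge u hu hne' hin'
  obtain ⟨hlt, hsq⟩ := stp_inner (List.mem_append_left knT hu) hP.inn
  have hsq' := hsq (orgP O X Y)
  have hInB : InB (orgP O X Y) (sq (orgP O X Y) e + vec u) := by
    rw [← hsq']
    exact inB_sq _ hlt
  have hreg := hT.hull _ (patch_reg hP hInB)
  have hbrd : (cxW T O X Y e (farB G B0 F A bp) f).brd p (sq (orgP O X Y) e + vec u) = some m := by
    unfold Ctx.brd
    rw [if_neg]
    · have h1 : (cxW T O X Y e (farB G B0 F A bp) f).R.find? (fun ρ => decide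
          (sq (orgP O X Y) e + vec u = (cxW T O X Y e (farB G B0 F A bp) f).f ρ.e ∧
            cell p ρ.e = 8)) = none := by
        rw [List.find?_eq_none]
        intro ρ hρ
        rw [List.mem_singleton.1 hρ]
        show ¬ (decide (_ ∧ cell p e = 8) = true)
        rw [decide_eq_true_iff, h7]
        exact fun h => absurd h.2 (by decide)
      rw [h1]
      show farB G B0 F A bp (sq (orgP O X Y) e + vec u) = some m
      rw [farB_hull hT hF.b hF.out (by have := hreg.1; omega) hreg.2.1 hreg.2.2]
      exact hm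
    · rintro ⟨-, h2⟩
      apply h2
      show cell p (idx (orgP O X Y) (sq (orgP O X Y) e + vec u)) = 15
      rw [← hsq', idx_sq _ hlt]
      exact hp.margin _ hlt hin'
  by_cases hl1 : l = 1
  · subst hl1
    rw [one_smul] at ha
    have ha' : a = sq (orgP O X Y) e + vec u := ha
    rw [ha', hbrd] at hB
    have h3 : m = (false, κ) := by simpa using hB
    rw [h3] at hm2
    rcases hκ with rfl | ⟨-, rfl⟩ | ⟨-, rfl⟩ <;> rcases hm2 with h4 | h4 <;> cases h4
  · have h3 := hcl 1 one_pos (by omega)
    rw [one_smul] at h3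
    have h4 : (cxW T O X Y e (farB G B0 F A bp) f).brd p (sq (orgP O X Y) e + vec u) = none := h3
    rw [hbrd] at h4
    cases h4

theorem fwb_rs (hP : WinP G B0 s T O X Y e) : rsW T.t e = [⟨e, T.t, 13⟩] := by
  unfold rsW
  have h1 : Nat.beq e 0 = false := by
    rw [← Bool.not_eq_true]
    intro h
    have h2 := Nat.eq_of_beq_eq_true h
    have h3 := hP.inn
    unfold Inner at h3
    omega
  rw [h1]
  rfl

theorem fwb_onLine (hP : WinP G B0 s T O X Y e) {F : Far} {q : Qn}
    (ho : OnRay G B0 T O X Y e F q) : G.line s (F.q q) := by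
  obtain ⟨n, hn, ht, -⟩ := ho
  rw [ht]
  exact (rayW_line hP hn).1

/-- chunk FWB: **phase 0** -/
theorem famW (hT : WinT G B0 s R T O) (hP : WinP G B0 s T O X Y e) {F : Far} (hB : FBase G F)
    (hF : FarS G s F (fun _ => True)) {W : Qn → Sq → Prop}
    (hW : ∀ q t, G.line s t → FarU G F (F.q q) t → (s.win = true → G.ray s t) → W q t) :
    Family R PW (rsW T.t e) (KW G B0 T O X Y e F W) := by
  rw [fwb_rs hP]
  refine ⟨?_, ?_, ?_, ?_, ?_, ?_⟩
  · rintro n C (⟨-, rfl⟩ | ⟨-, q, t, -, ho, rfl⟩)
    · exact cxE_ok hT hP hF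
    · exact cxA_ok hT hP (fwb_farS hF) ho
  · rintro n C (⟨-, rfl⟩ | ⟨-, q, t, -, ho, rfl⟩) <;> rfl
  · rintro n C (⟨-, rfl⟩ | ⟨-, q, t, -, ho, rfl⟩)
    · exact cxW_sep hT hP (rayW_line hP one_pos).1
    · exact cxW_sep hT hP (fwb_onLine hP ho)
  · intro n C p k a b ρ hρ hK hp hG hs hl hout hh
    rw [List.mem_singleton.1 hρ] at hs hh ⊢
    refine ⟨rfl, fun h => absurd h (by decide), fun n' hn' => ?_⟩
    rcases hK with ⟨hn, rfl⟩ | ⟨hn, -⟩
    · obtain ⟨q, e1, e2, e3, e4, e5⟩ := arriveW hT hP hF hp hs hl hout hh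
      have h7 : cell p e = 7 := by
        unfold see7 at hs
        exact Nat.eq_of_beq_eq_true (Bool.and_eq_true_iff.1 hs).1
      rw [e1] at hout
      have hb := brd_arrW hT hP hB hF hp h7 e5 hout
      rw [← e1] at hb
      refine ⟨cxA G B0 T O X Y e (F.set q b) q, Or.inr ⟨by omega, q, b, hW q b e2 ?_ e4, e5, rfl⟩,
        hb, ?_⟩
      · exact e3
      · rw [← hb]
        exact cxW_G hT hP (fwb_farS (q := q) (t := b) hF).b (fwb_farS (q := q) (t := b) hF).out
          (fwb_onLine hP e5) _
    · omega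
  · intro n C p k ρ hρ hK hp hG hs a hl
    rw [List.mem_singleton.1 hρ] at hs hl ⊢
    have h7 : cell p e = 7 := by
      unfold see7 at hs
      exact Nat.eq_of_beq_eq_true (Bool.and_eq_true_iff.1 hs).1
    rcases hK with ⟨-, rfl⟩ | ⟨-, q, t, -, ho, rfl⟩
    · exact edgeW hT hP hF (rayW_line hP one_pos).1 hp h7 a
    · exact edgeW hT hP (fwb_farS hF) (fwb_onLine hP ho) hp h7 a
  · intro h
    exact absurd h (by decide)

/-- chunk FWB: **phase 1** -/
theorem famW1 (hT : WinT G B0 s R T O) (hP : WinP G B0 s T O X Y e) {F : Far} {q : Qn}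
    (hF : FarS G s F (fun r => r ≠ q)) (ho : OnRay G B0 T O X Y e F q) :
    Family R PW (rsW T.t e) (KW1 G B0 T O X Y e F q) := by
  rw [fwb_rs hP]
  refine ⟨?_, ?_, ?_, ?_, ?_, ?_⟩
  · rintro n C ⟨-, rfl⟩
    exact cxA_ok hT hP hF ho
  · rintro n C ⟨-, rfl⟩
    rfl
  · rintro n C ⟨-, rfl⟩
    exact cxW_sep hT hP (fwb_onLine hP ho)
  · intro n C p k a b ρ hρ hK hp hG hs hl hout hh
    rw [List.mem_singleton.1 hρ] at hs hh ⊢
    refine ⟨rfl, fun h => absurd h (by decide), fun n' hn' => ?_⟩
    obtain ⟨hn, -⟩ := hK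
    omega
  · intro n C p k ρ hρ hK hp hG hs a hl
    rw [List.mem_singleton.1 hρ] at hs hl ⊢
    have h7 : cell p e = 7 := by
      unfold see7 at hs
      exact Nat.eq_of_beq_eq_true (Bool.and_eq_true_iff.1 hs).1
    obtain ⟨-, rfl⟩ := hK
    exact edgeW hT hP hF (fwb_onLine hP ho) hp h7 a
  · intro h
    exact absurd h (by decide)

end Pool.Agent.Lib.H32C.Loc
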