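import Pool.Agent.Lib.H32C.MemE

/-!
# Chunk MF: groups of items with rays (lower bound)
-/

set_option autoImplicit false

namespace Pool.Agent.Lib.H32C.Loc

/-- The White men of the board of a patch are static, or the king: `p` has no White pieces except static ones and the
king. -/
def StatW (T : MT) (C : Ctx) (O : Sq) (p : Nat) : Prop :=
  ∀ i < 400, 1 ≤ cell p i → cell p i ≤ 5 → ∀ j : Nat, sqA O j = sq C.o i → cell T.A j = cell p i

/-- chunk MF1: the cells of `p` with a code different from `15` agree with the array, or hold a Black piece, the king or a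
mark -/
def Stat (T : MT) (C : Ctx) (O : Sq) (p : Nat) : Prop :=
  ∀ i < 400, cell p i ≠ 15 → ∀ j : Nat, sqA O j = sq C.o i →
    cell T.A j = cell p i ∨ (cell T.A j = 0 ∧ 6 ≤ cell p i)

/-! helpers of chunk MF1 -/

theorem mf1_dec {c : Nat} {κ : Kind} (h : dec c = some (true, κ)) :
    (c = 1 ∧ κ = Kind.pawn) ∨ (c = 2 ∧ κ = Kind.knight) ∨ (c = 3 ∧ κ = Kind.bishop) ∨
      (c = 4 ∧ κ = Kind.rook) ∨ (c = 5 ∧ κ = Kind.queen) ∨ (c = 6 ∧ κ = Kind.king) := by
  have aux : ∀ c κ, dec c = some (true, κ) → c < 16 →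
      (c = 1 ∧ κ = Kind.pawn) ∨ (c = 2 ∧ κ = Kind.knight) ∨ (c = 3 ∧ κ = Kind.bishop) ∨
      (c = 4 ∧ κ = Kind.rook) ∨ (c = 5 ∧ κ = Kind.queen) ∨ (c = 6 ∧ κ = Kind.king) := by
    intro c κ h hc
    interval_cases c <;> first | (cases h; done) | (cases h; tauto)
  by_cases hc : c < 16
  · exact aux c κ h hc
  · exfalso
    obtain ⟨d, rfl⟩ : ∃ d, c = d + 15 := ⟨c - 15, by omega⟩
    cases h

theorem mf1_noW {c : Nat} {κ : Kind} (hc : 9 ≤ c) : dec c ≠ some (true, κ) := by
  intro h
  have := mf1_dec h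
  omega

theorem mf1_maskLt : ∀ c < 16, (msk 0x28 c = true ↔ (c = 3 ∨ c = 5)) ∧
    (msk 0x30 c = true ↔ (c = 4 ∨ c = 5)) ∧
    (msk 0x7e7e c = true ↔ (1 ≤ c ∧ c ≤ 14 ∧ c ≠ 7 ∧ c ≠ 8)) := by
  decide

/-- the cases for the board of a patch setting -/
theorem mf1_cases (T : MT) (ps : PS) (O : Sq) (F : Board) (q p : Nat) (s : Sq) :
    (∃ i < 400, s = sq (cxM T ps O F q).o i ∧ cell p i ≠ 15 ∧
      (cxM T ps O F q).brd p s = dec (cell p i)) ∨
    (∃ r ∈ ps.rs, (cxM T ps O F q).brd p s = dec r.ρ.k) ∨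
    (q ≠ 0 ∧ s = sqA O q ∧ (cxM T ps O F q).brd p s = dec T.k) ∨
    (cxM T ps O F q).brd p s = F s := by
  by_cases h1 : InB (cxM T ps O F q).o s ∧ cell p (idx (cxM T ps O F q).o s) ≠ 15
  · left
    exact ⟨idx (cxM T ps O F q).o s, (sq_idx h1.1).2, (sq_idx h1.1).1.symm, h1.2, LB_e1 _ h1⟩
  · right
    unfold Ctx.brd
    rw [if_neg h1]
    cases hc : (cxM T ps O F q).R.find?
        (fun ρ => decide (s = (cxM T ps O F q).f ρ.e ∧ cell p ρ.e = 8)) with
    | some ρ =>
      left
      obtain ⟨r, hr, he⟩ := mem_raysOf.1 (List.mem_of_find?_eq_some hc)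
      exact ⟨r, hr, by rw [he]⟩
    | none =>
      right
      show (q ≠ 0 ∧ s = sqA O q ∧ FM T F O q s = dec T.k) ∨ FM T F O q s = F s
      unfold FM
      by_cases h2 : q ≠ 0 ∧ s = sqA O q
      · left
        exact ⟨h2.1, h2.2, by rw [if_pos h2]⟩
      · right
        rw [if_neg h2]

/-- a White man of the board: it is the king, or a static piece -/
theorem white_static {T : MT} {O : Sq} {F : Board} {R : Room} (hT : mtOk T = true)
    (hF : MBase T O F R) {ps : PS} (hX : 8 ≤ ps.X ∧ ps.X ≤ 72) (hY : 8 ≤ ps.Y)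
    (hk : ∀ r ∈ ps.rs, 9 ≤ r.ρ.k ∧ r.ρ.k ≤ 13) {q p : Nat} (hq : q = 0 ∨ q ∈ T.st)
    (hst : Stat T (cxM T ps O F q) O p) {j : Nat} (hj : inA T.H j = true ∨ (cell T.A j ≠ 15 ∧ j < 80 * T.H))
    {κ : Kind} (hB : (cxM T ps O F q).brd p (sqA O j) = some (true, κ)) :
    κ = Kind.king ∨ dec (cell T.A j) = some (true, κ) ∨ (cell T.A j = 15 ∧ j ∉ T.st) := by
  have _ := hX
  have _ := hY
  have _ := hq
  have hj' : j < 80 * T.H := by
    rcases hj with h | h
    · exact (inA_lt h).1
    · exact h.2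
  rcases mf1_cases T ps O F q p (sqA O j) with ⟨i, hi, hs, hc, he⟩ | ⟨r, hr, he⟩ | ⟨-, -, he⟩ | he
  · rw [he] at hB
    rcases hst i hi hc j hs with h1 | ⟨-, h1⟩
    · right; left
      rw [h1]
      exact hB
    · left
      rcases mf1_dec hB with h | h | h | h | h | h <;> first | exact h.2 | (exfalso; omega)
  · rw [he] at hB
    exact absurd hB (mf1_noW (hk r hr).1)
  · rw [he] at hB
    refine absurd hB (mf1_noW ?_)
    have := mc_k hT
    omega
  · rw [he] at hB
    right
    by_cases h15 : cell T.A j = 15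
    · right
      refine ⟨h15, fun hm => ?_⟩
      rw [hF.st j hm] at hB
      cases hB
    · left
      rw [cell_sqA hF.fits hj' h15] at hB
      exact hB

/-- the board is not empty on the cell of a static piece -/
theorem static_ne {T : MT} {O : Sq} {F : Board} {R : Room} (hT : mtOk T = true)
    (hF : MBase T O F R) {ps : PS} (hX : 8 ≤ ps.X ∧ ps.X ≤ 72) (hY : 8 ≤ ps.Y)
    (hk : ∀ r ∈ ps.rs, 9 ≤ r.ρ.k ∧ r.ρ.k ≤ 13) {q p : Nat} (hq : q = 0 ∨ q ∈ T.st)
    (hst : Stat T (cxM T ps O F q) O p) {j : Nat} (hj : j < 80 * T.H) (h0 : cell T.A j ≠ 0)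
    (h15 : cell T.A j ≤ 14) (h7 : cell T.A j ≠ 7) (h8 : cell T.A j ≠ 8) :
    (cxM T ps O F q).brd p (sqA O j) ≠ none := by
  have _ := hX
  have _ := hY
  have _ := hq
  rcases mf1_cases T ps O F q p (sqA O j) with ⟨i, hi, hs, hc, he⟩ | ⟨r, hr, he⟩ | ⟨-, -, he⟩ | he
  · rw [he]
    rcases hst i hi hc j hs with h1 | ⟨h1, -⟩
    · rw [← h1]
      exact LB_decne h0 (by omega) h7 h8
    · exact absurd h1 h0
  · rw [he]
    have h1 := hk r hr
    exact LB_decne (by omega) (by omega) (by omega) (by omega)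
  · rw [he]
    have h1 := mc_k hT
    exact LB_decne (by omega) (by omega) (by omega) (by omega)
  · rw [he, cell_sqA hF.fits hj (by omega)]
    exact LB_decne h0 (by omega) h7 h8

/-- no White slider comes to `j` from the direction `u`.  (A static cell with code `7` or `8` does not occur on the
way, since the board would be empty there: treat it as in the definition, `dec 7 = none`.) -/
theorem scanW_board {T : MT} {O : Sq} {F : Board} {R : Room} (hT : mtOk T = true)
    (hF : MBase T O F R) {ps : PS} (hX : 8 ≤ ps.X ∧ ps.X ≤ 72) (hY : 8 ≤ ps.Y)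
    (hk : ∀ r ∈ ps.rs, 9 ≤ r.ρ.k ∧ r.ρ.k ≤ 13)
    {q p : Nat} (hq : q = 0 ∨ q ∈ T.st) (hst : Stat T (cxM T ps O F q) O p)
    {u n j : Nat} (hu : u ∈ orT ++ diT) (h : scanW T u n j = true) {κ : Kind} (hκ : SlK κ u)
    {l : ℕ} (hl : 0 < l)
    (hB : (cxM T ps O F q).brd p (sqA O j + l • vec u) = some (true, κ))
    (hcl : ∀ i : ℕ, 0 < i → i < l → (cxM T ps O F q).brd p (sqA O j + i • vec u) = none) :
    False := by
  induction n generalizing j l with
  | zero => cases h
  | succ n ih =>
    have h' : (inA T.H (stA u j) &&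
      cond (Nat.beq (cell T.A (stA u j)) 15) (memb (stA u j) T.st && scanW T u n (stA u j))
        (!msk (cond (aO fun v => !Nat.beq v u) 0x28 0x30) (cell T.A (stA u j)) &&
          cond (Nat.beq (cell T.A (stA u j)) 0) (scanW T u n (stA u j))
            (msk 0x7e7e (cell T.A (stA u j))))) = true := h
    rw [Bool.and_eq_true] at h'
    obtain ⟨h1, h2⟩ := h'
    have hs := sqA_stA (O := O) hu h1
    have hlt := (inA_lt h1).1
    have hc16 := cell_lt T.A (stA u j)
    -- the next square
    have step : scanW T u n (stA u j) = true → 1 < l → False := by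
      intro h3 h4
      refine ih (j := stA u j) (l := l - 1) h3 (by omega) ?_ ?_
      · rw [hs, add_assoc, ← succ_nsmul', show l - 1 + 1 = l by omega]
        exact hB
      · intro i h0 hi
        rw [hs, add_assoc, ← succ_nsmul']
        exact hcl (i + 1) (by omega) (by omega)
    have one : l = 1 → (cell T.A (stA u j) = 15 ∧ stA u j ∉ T.st) ∨
        ∃ c, cell T.A (stA u j) = c ∧ (c = 5 ∨ (u ∈ orT ∧ c = 4) ∨ (u ∈ diT ∧ c = 3)) := by
      intro h4
      rw [h4, one_smul, ← hs] at hB
      rcases white_static hT hF hX hY hk hq hst (Or.inl h1) hB with h5 | h5 | h5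
      · exfalso
        subst h5
        rcases hκ with h6 | ⟨-, h6⟩ | ⟨-, h6⟩ <;> cases h6
      · right
        refine ⟨_, rfl, ?_⟩
        rcases hκ with h6 | ⟨h7, h6⟩ | ⟨h7, h6⟩ <;> subst h6 <;>
          rcases mf1_dec h5 with h | h | h | h | h | h <;>
          first | (exact absurd h.2 (by decide)) | (exact Or.inl h.1) |
            (exact Or.inr (Or.inl ⟨h7, h.1⟩)) | (exact Or.inr (Or.inr ⟨h7, h.1⟩))
      · exact Or.inl h5
    rcases Nat.lt_or_ge 1 l with hl1 | hl1
    · have hn := hcl 1 Nat.one_pos hl1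
      rw [one_smul, ← hs] at hn
      by_cases h15 : cell T.A (stA u j) = 15
      · rw [h15] at h2
        have h3 : (memb (stA u j) T.st && scanW T u n (stA u j)) = true := h2
        rw [Bool.and_eq_true] at h3
        exact step h3.2 hl1
      · rw [mc_beq_false.2 h15] at h2
        rw [cond_false, Bool.and_eq_true] at h2
        by_cases h0 : cell T.A (stA u j) = 0
        · have h3 := h2.2
          rw [h0] at h3
          exact step h3 hl1
        · have h3 := h2.2
          rw [mc_beq_false.2 h0, cond_false] at h3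
          have h4 := (mf1_maskLt _ hc16).2.2.1 h3
          exact static_ne hT hF hX hY hk hq hst hlt h0 h4.2.1 h4.2.2.1 h4.2.2.2 hn
    · have hl2 : l = 1 := by omega
      rcases one hl2 with ⟨h3, h4⟩ | ⟨c, h3, h4⟩
      · rw [h3] at h2
        have h5 : (memb (stA u j) T.st && scanW T u n (stA u j)) = true := h2
        rw [Bool.and_eq_true, mc_memb] at h5
        exact h4 h5.1
      · rw [h3, mc_beq_false.2 (by omega : c ≠ 15), cond_false, Bool.and_eq_true] at h2
        have h5 := h2.1
        have hc : c < 16 := by omega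
        cases ha : (aO fun v => !Nat.beq v u) with
        | true =>
          have hno : u ∉ orT := by
            rw [← mc_aO, ha]
            intro hh
            cases hh
          rw [ha, cond_true, Bool.not_eq_true'] at h5
          have h6 := (mf1_maskLt c hc).1.2 (by
            rcases h4 with h4 | h4 | h4
            · exact Or.inr h4
            · exact absurd h4.1 hno
            · exact Or.inl h4.2)
          rw [h5] at h6
          cases h6
        | false =>
          have hno : u ∈ orT := by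
            rw [← mc_aO, ha]
            rfl
          rw [ha, cond_false, Bool.not_eq_true'] at h5
          have h6 := (mf1_maskLt c hc).2.1.2 (by
            rcases h4 with h4 | h4 | h4
            · exact Or.inr h4
            · exact Or.inl h4.2
            · exact absurd hno (LD_disj u h4.1))
          rw [h5] at h6
          cases h6

/-! helpers of chunk MF1 (White men at a line) -/

theorem mf1_in {H j : Nat} (h : inA2 H j = true) : inA H j = true := by
  have h1 := ma_inA2 h
  have e1 : Nat.mod j 80 = j % 80 := rfl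
  have e2 : Nat.add j 80 = j + 80 := rfl
  have e3 : Nat.mul 80 H = 80 * H := rfl
  unfold inA
  rw [Bool.and_eq_true, Bool.and_eq_true, Bool.and_eq_true, TS1_ble, TS1_ble, TS1_ble]
  unfold Nat.blt
  rw [TS1_ble, e1, e2, e3]
  omega

theorem mf1_Z {T : MT} {t z : Nat} {la : Bool} (h : whiteZ T t la z = true) :
    inA2 T.H z = true ∧ (∀ u ∈ knT, notW T 2 (stA u z) = true) ∧ notW T 1 (stA 22 z) = true ∧
    (la = true → notW T 1 (stA 21 z) = true ∧ notW T 1 (stA 23 z) = true ∧
      scanW T t 90 z = true) ∧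
    (∀ u ∈ orT ++ diT, u ≠ t → u + t ≠ 84 → scanW T u 90 z = true) := by
  unfold whiteZ at h
  rw [Bool.and_eq_true, Bool.and_eq_true, Bool.and_eq_true, Bool.and_eq_true, Bool.and_eq_true,
    Bool.or_eq_true, Bool.and_eq_true, Bool.and_eq_true, a8_iff, aO_iff, aD_iff] at h
  obtain ⟨h1, h2, h3, h4, h5, h6⟩ := h
  refine ⟨h1, h2, h3, ?_, ?_⟩
  · intro hla
    rcases h4 with h4 | h4
    · rw [hla] at h4
      cases h4
    · exact h4
  · intro u hu hne hop
    have key : ((Nat.beq u t || Nat.beq (Nat.add u t) 84) || scanW T u 90 z) = true := by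
      rcases List.mem_append.1 hu with h7 | h7
      · exact h5 u h7
      · exact h6 u h7
    rw [Bool.or_eq_true, Bool.or_eq_true, TS1_beq, TS1_beq] at key
    rcases key with (h7 | h7) | h7
    · exact absurd h7 hne
    · exact absurd h7 hop
    · exact h7

/-- the cells between the king and the far slider -/
theorem mf1_line {T : MT} {O : Sq} {t z : Nat} (ht : t ∈ orT ++ diT) (n : Nat) :
    ∀ {j m l : Nat}, whiteTo T t z n j = true → sqA O z = sqA O j + m • vec t → 0 < l → l ≤ m →
    ∃ z', sqA O z' = sqA O j + l • vec t ∧ whiteZ T t (decide (l = m)) z' = true := by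
  induction n with
  | zero =>
    intro j m l h
    cases h
  | succ n ih =>
    intro j m l h hz hl hlm
    have h' : (whiteZ T t (Nat.beq (stA t j) z) (stA t j) &&
      (Nat.beq (stA t j) z || whiteTo T t z n (stA t j))) = true := h
    rw [Bool.and_eq_true, Bool.or_eq_true, TS1_beq] at h'
    obtain ⟨h1, h2⟩ := h'
    have hs := sqA_stA (O := O) ht (mf1_in (mf1_Z h1).1)
    by_cases he : stA t j = z
    · have hm1 : m = 1 := by
        rw [← he, hs] at hz
        have h3 := add_left_cancel hz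
        refine (LC_smul_inj (LC_vec_ne ht) (m := 1) ?_).symm
        rw [one_smul]
        exact h3
      have hl1 : l = 1 := by omega
      refine ⟨stA t j, ?_, ?_⟩
      · rw [hs, hl1, one_smul]
      · have hb : Nat.beq (stA t j) z = true := TS1_beq.2 he
        rw [hb] at h1
        rw [decide_eq_true (by omega : l = m)]
        exact h1
    · have h3 : whiteTo T t z n (stA t j) = true := h2.resolve_left he
      have hm1 : m ≠ 1 := by
        intro hm1
        apply he
        apply sqA_inj (O := O)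
        rw [hz, hs, hm1, one_smul]
      have hz' : sqA O z = sqA O (stA t j) + (m - 1) • vec t := by
        rw [hz, hs, add_assoc, ← succ_nsmul', show m - 1 + 1 = m by omega]
      by_cases hl1 : l = 1
      · refine ⟨stA t j, ?_, ?_⟩
        · rw [hs, hl1, one_smul]
        · rw [mc_beq_false.2 he] at h1
          rw [decide_eq_false (by omega : ¬ l = m)]
          exact h1
      · obtain ⟨z', h4, h5⟩ := ih (j := stA t j) (m := m - 1) (l := l - 1) h3 hz' (by omega)
          (by omega)
        refine ⟨z', ?_, ?_⟩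
        · rw [h4, hs, add_assoc, ← succ_nsmul', show l - 1 + 1 = l by omega]
        · have e : decide (l - 1 = m - 1) = decide (l = m) := by
            by_cases hlm' : l = m
            · rw [decide_eq_true hlm', decide_eq_true (by omega)]
            · rw [decide_eq_false hlm', decide_eq_false (by omega)]
          rw [← e]
          exact h5

/-- a line read backwards -/
theorem mf1_back {B : Board} {x y d v : Sq} {n : ℕ} (hx : x = y + n • d)
    (hcl : ∀ k : ℕ, 0 < k → k < n → B (y + k • d) = none) (hv : v = -d) :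
    y = x + n • v ∧ ∀ i : ℕ, 0 < i → i < n → B (x + i • v) = none := by
  subst hv
  constructor
  · rw [hx, smul_neg, add_neg_cancel_right]
  · intro i h0 hi
    have h1 := hcl (n - i) (by omega) (by omega)
    have e : x + i • -d = y + (n - i) • d := by
      obtain ⟨k, rfl⟩ : ∃ k, n = k + i := ⟨n - i, by omega⟩
      rw [hx, Nat.add_sub_cancel, add_smul, smul_neg, add_assoc, add_assoc, add_neg_cancel, add_zero]
    rw [e]
    exact h1

/-- chunk MF1: no White piece other than the king can go to a square between the king and the far slider, nor to the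
square of the far slider -/
theorem whiteTo_sound {T : MT} {O : Sq} {F : Board} {R : Room} (hT : mtOk T = true)
    (hF : MBase T O F R) {ps : PS} (h : psOkE T ps = true) {p k kk : Nat}
    (hst : Stat T (cxM T ps O F 0) O p) {r : RI} (hr : r ∈ ps.rs)
    (hwf : WF (cxM T ps O F 0) p k) (hkk : sqA O kk = sq (cxM T ps O F 0).o k)
    (h8 : cell p r.ρ.e = 8) (hs : first p r.ρ.t 20 k = r.ρ.e)
    (hw : whiteTo T r.ρ.t (zA ps.X ps.Y r.ρ r.n) 150 kk = true) (y : Sq) (l m : ℕ)
    (hm : (cxM T ps O F 0).f r.ρ.e = sq (cxM T ps O F 0).o k + m • vec r.ρ.t) (hl : 0 < l)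
    (hlm : l ≤ m) (hy : y ≠ sq (cxM T ps O F 0).o k) :
    ¬ CanGo ((cxM T ps O F 0).brd p) true y (sq (cxM T ps O F 0).o k + l • vec r.ρ.t) := by
  have d := psD h
  have hC := cxM_ok hT hF h (q := 0) (Or.inr rfl)
  have hρ : r.ρ ∈ (cxM T ps O F 0).R := mem_raysOf.2 ⟨r, hr, rfl⟩
  have ht := mc_t (rayD (d.ray r hr))
  have hk : ∀ r ∈ ps.rs, 9 ≤ r.ρ.k ∧ r.ρ.k ≤ 13 := by
    intro r' hr'
    have h1 := LB_kind hC (mem_raysOf.2 ⟨r', hr', rfl⟩)
    omega
  obtain ⟨n₀, hS⟩ := first_spec hwf hwf.lt (by rw [hwf.king]; decide) ht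
    (by rw [hs, h8]; decide)
  rw [hs] at hS
  obtain ⟨m', hm', hf, hbf, hcl⟩ := mark8_sees hC hwf hwf.lt hρ hS h8
  have hmm : m' = m := LC_smul_inj (LC_vec_ne ht) (add_left_cancel (hf.symm.trans hm))
  subst hmm
  rw [hf] at hbf
  have hz : sqA O (zA ps.X ps.Y r.ρ r.n) = sqA O kk + m' • vec r.ρ.t := by
    rw [hkk, ← hf]
    exact (fM_eq d hr).symm
  obtain ⟨z, hz', hZ⟩ := mf1_line ht 150 hw hz hl hlm
  rw [hkk] at hz'
  obtain ⟨hi2, hkn, hp, hla, hsc⟩ := mf1_Z hZ
  have hking := kingAt hC hwf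
  have hkr := hk r hr
  have hbf' : (cxM T ps O F 0).brd p (sq (cxM T ps O F 0).o k + m' • vec r.ρ.t) ≠ none := by
    rw [hbf]
    exact LB_decne (by omega) (by omega) (by omega) (by omega)
  rintro ⟨⟨c, κ⟩, hM, hM1, hgo⟩
  have hc : c = true := hM1
  subst hc
  have hκK : κ ≠ Kind.king := by
    intro hh
    subst hh
    exact hy (hking.2 y hM)
  -- the pieces near the line
  have near : ∀ u ∈ orT ++ diT ++ knT, ∀ c₀ : Nat, notW T c₀ (stA u z) = true →
      y = sqA O z + vec u → dec (cell T.A (stA u z)) = some (true, κ) ∧ cell T.A (stA u z) ≠ c₀ := by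
    intro u hu c₀ hn hyu
    obtain ⟨h1, h2⟩ := sqA_stA2 (O := O) hu hi2
    unfold notW at hn
    rw [Bool.and_eq_true, Bool.or_eq_true, mc_notbeq, mc_notbeq, mc_memb] at hn
    rw [hyu, ← h1] at hM
    have h3 : inA T.H (stA u z) = true ∨ (cell T.A (stA u z) ≠ 15 ∧ stA u z < 80 * T.H) := by
      rcases hn.2 with h4 | h4
      · exact Or.inr ⟨h4, h2⟩
      · exact Or.inl (mc_st hT h4).1
    rcases white_static hT hF d.hX d.hY.1 hk (Or.inl rfl) hst h3 hM with h4 | h4 | h4
    · exact absurd h4 hκK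
    · exact ⟨h4, hn.1⟩
    · exfalso
      rcases hn.2 with h5 | h5
      · exact h5 h4.1
      · exact h4.2 h5
  -- the sliders
  have slide : ∀ u ∈ orT ++ diT, SlK κ u → ∀ n : ℕ, 0 < n → y = sqA O z + n • vec u →
      (∀ i : ℕ, 0 < i → i < n → (cxM T ps O F 0).brd p (sqA O z + i • vec u) = none) → False := by
    intro u hu hκ n hn hyu hcu
    have sb : scanW T u 90 z = true → False := by
      intro h1
      exact scanW_board hT hF d.hX d.hY.1 hk (Or.inl rfl) hst hu h1 hκ hn (by rw [← hyu]; exact hM)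
        hcu
    by_cases hut : u = r.ρ.t
    · subst hut
      rcases Nat.lt_or_ge l m' with h1 | h1
      · rw [hz'] at hyu hcu
        rcases lt_trichotomy (l + n) m' with h2 | h2 | h2
        · rw [hyu, add_assoc, ← add_smul, hcl (l + n) (by omega) h2] at hM
          cases hM
        · rw [hyu, add_assoc, ← add_smul, h2, hbf] at hM
          exact mf1_noW hkr.1 hM
        · apply hbf'
          rw [← hcu (m' - l) (by omega) (by omega), add_assoc, ← add_smul,
            show l + (m' - l) = m' by omega]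
      · exact sb (hla (decide_eq_true (by omega))).2.2
    · by_cases hop : u + r.ρ.t = 84
      · have hou : opp r.ρ.t = u := by
          unfold opp
          omega
        have hv : vec u = - vec r.ρ.t := by
          rw [← hou]
          exact (opp_spec ht).2.1
        have e : ∀ i : ℕ, i ≤ l → sqA O z + i • vec u =
            sq (cxM T ps O F 0).o k + (l - i) • vec r.ρ.t := by
          intro i hi
          obtain ⟨a, ha⟩ : ∃ a, l = a + i := ⟨l - i, by omega⟩
          rw [hz', hv, ha, Nat.add_sub_cancel, add_smul, smul_neg, add_assoc, add_assoc,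
            add_neg_cancel, add_zero]
        rcases lt_trichotomy n l with h1 | h1 | h1
        · rw [hyu, e n (by omega), hcl (l - n) (by omega) (by omega)] at hM
          cases hM
        · apply hy
          rw [hyu, e n (by omega), h1, Nat.sub_self, zero_smul, add_zero]
        · have h2 := hcu l hl h1
          rw [e l le_rfl, Nat.sub_self, zero_smul, add_zero, hking.1] at h2
          cases h2
      · exact sb (hsc u hu hut hop)
  rw [← hz'] at hgo
  -- the attack of a man which is not a pawn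
  have hatt : κ ≠ Kind.pawn → ManAttacks ((cxM T ps O F 0).brd p) (true, κ) y (sqA O z) := by
    intro hκ
    rcases hgo with ⟨-, h1⟩ | ⟨-, h1⟩
    · have h2 : ¬ ((true, κ) : Man).2 = Kind.pawn := hκ
      rw [if_neg h2] at h1
      exact h1
    · exact h1
  have sl1 : (κ = Kind.queen ∨ κ = Kind.rook) →
      Slides ((cxM T ps O F 0).brd p) orthDirs y (sqA O z) → False := by
    rintro hκ ⟨dd, hd, n, hn, hx, hcd⟩
    obtain ⟨t, ht', htd⟩ := or_vec hd
    have ho := opp_spec (List.mem_append_left diT ht')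
    obtain ⟨h1, h2⟩ := mf1_back (v := vec (opp t)) hx hcd (by rw [ho.2.1, htd])
    refine slide (opp t) ho.1 ?_ n hn h1 h2
    rcases hκ with h3 | h3
    · exact Or.inl h3
    · exact Or.inr (Or.inl ⟨ho.2.2.1 ht', h3⟩)
  have sl2 : (κ = Kind.queen ∨ κ = Kind.bishop) →
      Slides ((cxM T ps O F 0).brd p) diagDirs y (sqA O z) → False := by
    rintro hκ ⟨dd, hd, n, hn, hx, hcd⟩
    obtain ⟨t, ht', htd⟩ := di_vec hd
    have ho := opp_spec (List.mem_append_right orT ht')
    obtain ⟨h1, h2⟩ := mf1_back (v := vec (opp t)) hx hcd (by rw [ho.2.1, htd])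
    refine slide (opp t) ho.1 ?_ n hn h1 h2
    rcases hκ with h3 | h3
    · exact Or.inl h3
    · exact Or.inr (Or.inr ⟨ho.2.2.2 ht', h3⟩)
  cases κ with
  | king => exact hκK rfl
  | queen =>
    obtain ⟨dd, hd, n, hn, hx, hcd⟩ := hatt (by decide)
    rcases List.mem_append.1 hd with hd | hd
    · exact sl1 (Or.inl rfl) ⟨dd, hd, n, hn, hx, hcd⟩
    · exact sl2 (Or.inl rfl) ⟨dd, hd, n, hn, hx, hcd⟩
  | rook => exact sl1 (Or.inr rfl) (hatt (by decide))
  | bishop => exact sl2 (Or.inr rfl) (hatt (by decide))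
  | knight =>
    have h1 : sqA O z - y ∈ knightJumps := hatt (by decide)
    have h2 : y - sqA O z ∈ knightJumps := by
      obtain ⟨t, ht', htd⟩ := kn_vec h1
      have e : y - sqA O z = - vec t := by rw [htd, neg_sub]
      rw [e]
      simp only [knT, List.mem_cons, List.not_mem_nil, or_false] at ht'
      rcases ht' with rfl | rfl | rfl | rfl | rfl | rfl | rfl | rfl <;> decide
    obtain ⟨u, hu, hud⟩ := kn_vec h2
    obtain ⟨h3, h4⟩ := near u (List.mem_append_right _ hu) 2 (hkn u hu)
      (by rw [hud, add_sub_cancel])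
    rcases mf1_dec h3 with h | h | h | h | h | h <;>
      first | (exact h4 h.1) | (exact absurd h.2 (by decide))
  | pawn =>
    have np : ∀ u ∈ orT ++ diT ++ knT, notW T 1 (stA u z) = true → y = sqA O z + vec u → False := by
      intro u hu hn hyu
      obtain ⟨h3, h4⟩ := near u hu 1 hn hyu
      rcases mf1_dec h3 with h | h | h | h | h | h <;>
        first | (exact h4 h.1) | (exact absurd h.2 (by decide))
    rcases hgo with ⟨-, h1⟩ | ⟨⟨M', hM', -⟩, h1⟩
    · have h2 : ((true, Kind.pawn) : Man).2 = Kind.pawn := rfl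
      rw [if_pos h2] at h1
      refine np 22 (by decide) hp ?_
      have h3 : sqA O z = y + (0, 1) := by
        have h4 : sqA O z - y = (0, 1) := h1
        rw [← h4, add_sub_cancel]
      rw [h3, add_assoc]
      have h5 : ((0, 1) : Sq) + vec 22 = 0 := by decide
      rw [h5, add_zero]
    · have hlm' : l = m' := by
        by_contra hne
        rw [hz', hcl l hl (by omega)] at hM'
        cases hM'
      have hla' := hla (decide_eq_true hlm')
      have h2 : sqA O z - y = (1, 1) ∨ sqA O z - y = (-1, 1) := h1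
      rcases h2 with h2 | h2
      · refine np 21 (by decide) hla'.1 ?_
        have h3 : sqA O z = y + (1, 1) := by rw [← h2, add_sub_cancel]
        rw [h3, add_assoc]
        have h5 : ((1, 1) : Sq) + vec 21 = 0 := by decide
        rw [h5, add_zero]
      · refine np 23 (by decide) hla'.2.1 ?_
        have h3 : sqA O z = y + (-1, 1) := by rw [← h2, add_sub_cancel]
        rw [h3, add_assoc]
        have h5 : ((-1, 1) : Sq) + vec 23 = 0 := by decide
        rw [h5, add_zero]

theorem MF2_it_zero (u j : Nat) : itA u j 0 = j := rfl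

theorem MF2_it_add (u j i : Nat) : itA u j (i + 1) = stA u (itA u j i) := by
  unfold itA
  exact Nat.rec_add_one _ _ _

theorem MF2_it_succ (u j : Nat) (i : Nat) : itA u (stA u j) i = itA u j (i + 1) := by
  induction i with
  | zero => rw [MF2_it_add, MF2_it_zero, MF2_it_zero]
  | succ i ih => rw [MF2_it_add, MF2_it_add, ih]

theorem MF2_goA_spec {T : MT} {X Y u z : Nat} (n : Nat) : ∀ {j : Nat}, goA T X Y u z n j = true →
    ∃ L : ℕ, 0 < L ∧ itA u j L = z ∧ (∀ i : ℕ, 0 < i → i ≤ L → inA T.H (itA u j i) = true) ∧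
      (∀ i : ℕ, 0 < i → i < L → cell T.A (itA u j i) = 0 ∧ nearA X Y (itA u j i) = false) := by
  induction n with
  | zero =>
    intro j h
    exact absurd h (by simp [goA])
  | succ n ih =>
    intro j h
    have h1 : goA T X Y u z (n + 1) j = (inA T.H (stA u j) && (Nat.beq (stA u j) z ||
      (Nat.beq (cell T.A (stA u j)) 0 && (!nearA X Y (stA u j) && goA T X Y u z n (stA u j))))) :=
      rfl
    rw [h1, Bool.and_eq_true, Bool.or_eq_true, Bool.and_eq_true, Bool.and_eq_true, Nat.beq_eq,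
      Nat.beq_eq, Bool.not_eq_true'] at h
    obtain ⟨hin, h | ⟨h0, hnear, hgo⟩⟩ := h
    · refine ⟨1, Nat.one_pos, h, ?_, ?_⟩
      · intro i hi hi1
        have : i = 1 := by omega
        subst this
        exact hin
      · intro i hi hi1
        omega
    · obtain ⟨L, hL, hz, hA, hB⟩ := ih hgo
      refine ⟨L + 1, Nat.succ_pos L, ?_, ?_, ?_⟩
      · rw [← MF2_it_succ]
        exact hz
      · intro i hi hiL
        rcases Nat.eq_zero_or_pos (i - 1) with h2 | h2
        · have : i = 1 := by omega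
          subst this
          exact hin
        · have h3 : i = (i - 1) + 1 := by omega
          rw [h3, ← MF2_it_succ]
          exact hA (i - 1) h2 (by omega)
      · intro i hi hiL
        rcases Nat.eq_zero_or_pos (i - 1) with h2 | h2
        · have : i = 1 := by omega
          subst this
          exact ⟨h0, hnear⟩
        · have h3 : i = (i - 1) + 1 := by omega
          rw [h3, ← MF2_it_succ]
          exact hB (i - 1) h2 (by omega)

theorem MF2_sq {O : Sq} {H u j L : Nat} (hu : u ∈ orT ++ diT)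
    (hA : ∀ i : ℕ, 0 < i → i ≤ L → inA H (itA u j i) = true) :
    ∀ i : ℕ, i ≤ L → sqA O (itA u j i) = sqA O j + i • vec u := by
  intro i
  induction i with
  | zero =>
    intro _
    have h1 : itA u j 0 = j := rfl
    rw [h1, zero_smul, add_zero]
  | succ i ih =>
    intro hi
    have h1 : itA u j (i + 1) = stA u (itA u j i) := rfl
    have h2 := hA (i + 1) (Nat.succ_pos i) hi
    rw [h1] at h2
    rw [h1, sqA_stA hu h2, ih (by omega), succ_nsmul, add_assoc]

theorem MF2_mem_raysOf {L : List RI} {ρ : Ray} : ρ ∈ raysOf L ↔ ∃ r ∈ L, r.ρ = ρ := mem_raysOf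

/-- chunk MF2: the resident can go from its station to its arrival square -/
theorem goesA_sound {T : MT} {O : Sq} {F : Board} {R : Room} (hT : mtOk T = true)
    (hF : MBase T O F R) {ps : PS} (h : psOkE T ps = true) (hq : ps.q ≠ 0) {p : Nat}
    (hmar : ∀ i < 400, ¬ Inner i → cell p i = 15)
    (hout : ¬ (InB (cxM T ps O F ps.q).o (sqA O ps.q) ∧
      cell p (idx (cxM T ps O F ps.q).o (sqA O ps.q)) ≠ 15))
    (h8 : ∀ r ∈ ps.rs, cell p r.ρ.e ≠ 8) {r : RI} (hr : r ∈ ps.rs)
    (hg : goesA T ps.X ps.Y ps.q (zA ps.X ps.Y r.ρ r.n) = true) :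
    CanGo ((cxM T ps O F ps.q).brd p) false (sqA O ps.q) (sqA O (zA ps.X ps.Y r.ρ r.n)) := by
  have hD := psD h
  have hOk := cxM_ok hT hF h (q := ps.q) (Or.inl rfl)
  have hRD := rayD (hD.ray r hr)
  set C := cxM T ps O F ps.q with hC
  have hCF : C.F = FM T F O ps.q := rfl
  have hCR : C.R = raysOf ps.rs := rfl
  have hqst : ps.q ∈ T.st := by
    rcases hD.q with h1 | h1
    · exact absurd h1 hq
    · exact h1
  have hfar : ∀ s : Sq, ∀ ρ ∈ C.R, s = C.f ρ.e → cell p ρ.e ≠ 8 := by
    intro s ρ hρ _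
    rw [hCR, mem_raysOf] at hρ
    obtain ⟨r', hr', rfl⟩ := hρ
    exact h8 r' hr'
  -- the resident
  have hBq : C.brd p (sqA O ps.q) = dec T.k := by
    rw [brd_out hout (hfar _), hCF]
    unfold FM
    rw [if_pos ⟨hq, rfl⟩]
  -- the target
  have hz : sqA O (zA ps.X ps.Y r.ρ r.n) = C.ray r.ρ r.n :=
    (ray_zA hD hr (by have := hRD.nN; omega)).symm
  have ht : r.ρ.t ∈ orT ++ diT := by
    rcases hRD.kind with h3 | h3
    · exact List.mem_append_left _ h3.1
    · exact List.mem_append_right _ h3.1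
  have hBz : C.brd p (sqA O (zA ps.X ps.Y r.ρ r.n)) = none := by
    rw [hz]
    have hn : 0 < r.n := hRD.n1
    have h1 : ¬ (InB C.o (C.ray r.ρ r.n) ∧ cell p (idx C.o (C.ray r.ρ r.n)) ≠ 15) := by
      rintro ⟨h2, h3⟩
      exact h3 (hmar _ (sq_idx h2).2 (LB_out ht hRD.inn hRD.out r.n hn h2))
    rw [brd_out h1 (hfar _)]
    exact ray_empty hT hF hD (Or.inl rfl) hr hn hRD.nN
  -- the way
  have hway : ∃ u ∈ orT ++ diT, msk (slM u) T.k = true ∧
      goA T ps.X ps.Y u (zA ps.X ps.Y r.ρ r.n) 90 ps.q = true := by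
    by_contra hcon
    push Not at hcon
    have h1 : goesA T ps.X ps.Y ps.q (zA ps.X ps.Y r.ρ r.n) = false := by
      unfold goesA
      rw [Bool.not_eq_false', Bool.and_eq_true, aO_iff, aD_iff]
      constructor
      · intro u hu
        rw [Bool.not_eq_true']
        by_contra h2
        rw [Bool.not_eq_false, Bool.and_eq_true] at h2
        exact hcon u (List.mem_append_left _ hu) h2.1 h2.2
      · intro u hu
        rw [Bool.not_eq_true']
        by_contra h2
        rw [Bool.not_eq_false, Bool.and_eq_true] at h2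
        exact hcon u (List.mem_append_right _ hu) h2.1 h2.2
    rw [h1] at hg
    exact absurd hg (by decide)
  obtain ⟨u, hu, hmk, hgo⟩ := hway
  have hkT : T.k = 11 ∨ T.k = 12 := by
    unfold mtOk at hT
    rw [Bool.and_eq_true, Bool.or_eq_true, Nat.beq_eq, Nat.beq_eq] at hT
    exact hT.1
  have hk16 : T.k < 16 := by omega
  obtain ⟨κ, hκ, hSl⟩ := (slM_iff hu hk16).mp hmk
  obtain ⟨L, hL, hLz, hLA, hLB⟩ := MF2_goA_spec 90 hgo
  have hsq := MF2_sq (O := O) hu hLA
  have hclear : ∀ i : ℕ, 0 < i → i < L → C.brd p (sqA O ps.q + i • vec u) = none := by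
    intro i hi hiL
    rw [← hsq i hiL.le]
    obtain ⟨h0, hnear⟩ := hLB i hi hiL
    have hin := hLA i hi hiL.le
    have hout' : ¬ (InB C.o (sqA O (itA u ps.q i)) ∧
        cell p (idx C.o (sqA O (itA u ps.q i))) ≠ 15) := by
      rintro ⟨h2, h3⟩
      by_cases hI : Inner (idx C.o (sqA O (itA u ps.q i)))
      · have h4 := (nearA_iff (cxM_at T ps O F ps.q) hD.hX.1 hD.hY.1).mpr ⟨h2, hI⟩
        rw [hnear] at h4
        exact absurd h4 (by decide)
      · exact h3 (hmar _ (sq_idx h2).2 hI)
    rw [brd_out hout' (hfar _), hCF]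
    unfold FM
    have hst : cell T.A ps.q = 15 := by
      have h5 := hT
      unfold mtOk at h5
      rw [Bool.and_eq_true] at h5
      have h6 := (TS1_allb _ _).mp h5.2 ps.q hqst
      rw [Bool.and_eq_true, Nat.beq_eq] at h6
      exact h6.2
    have hne : sqA O (itA u ps.q i) ≠ sqA O ps.q := by
      intro h7
      have h8' := sqA_inj h7
      rw [h8'] at h0
      omega
    rw [if_neg (fun h9 => hne h9.2), cell_sqA hF.fits (inA_lt hin).1 (by omega), h0]
    rfl
  have hslide : ∀ ds : List Sq, vec u ∈ ds →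
      Slides (C.brd p) ds (sqA O ps.q) (sqA O (zA ps.X ps.Y r.ρ r.n)) := by
    intro ds hds
    refine ⟨vec u, hds, L, hL, ?_, hclear⟩
    rw [← hLz, hsq L le_rfl]
  refine ⟨(false, κ), by rw [hBq, hκ], rfl, Or.inl ⟨hBz, ?_⟩⟩
  rcases hSl with rfl | ⟨hu', rfl⟩ | ⟨hu', rfl⟩
  · exfalso
    rcases hkT with h1 | h1 <;> rw [h1] at hκ <;> exact absurd hκ (by decide)
  · have h1 : ManAttacks (C.brd p) (false, Kind.rook) (sqA O ps.q)
        (sqA O (zA ps.X ps.Y r.ρ r.n)) := hslide _ (vec_or hu')
    simpa using h1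
  · have h1 : ManAttacks (C.brd p) (false, Kind.bishop) (sqA O ps.q)
        (sqA O (zA ps.X ps.Y r.ρ r.n)) := hslide _ (vec_di hu')
    simpa using h1

theorem MF3_sq {O o : Sq} {X Y : Nat} (ho : o = (O.1 + (X : ℤ) - 10, O.2 + (Y : ℤ) - 10)) {i j : Nat}
    (h : sqA O j = sq o i) : j % 80 + 10 = X + i % 20 ∧ j / 80 + 10 = Y + i / 20 := by
  unfold sqA tsq sq at h
  rw [ho] at h
  have h1 := congrArg Prod.fst h
  have h2 := congrArg Prod.snd h
  dsimp only at h1 h2
  omega

theorem MF3_codeA (A j : Nat) : codeA A (j % 80) (j / 80) = cell A j := by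
  have e : Nat.add (j % 80) (Nat.mul 80 (j / 80)) = j := by
    change j % 80 + 80 * (j / 80) = j
    omega
  unfold codeA cell
  rw [e]

/-- a cell of the patch, and the cell of the array on its square -/
theorem MF3_cell {O o : Sq} {A X Y : Nat} (ho : o = (O.1 + (X : ℤ) - 10, O.2 + (Y : ℤ) - 10))
    (hX : 8 ≤ X ∧ X ≤ 72) (hY : 8 ≤ Y) {L : List Pc} (h : pcsOkW A X Y L = true) {i j : Nat}
    (hi : i < 400) (hj : sqA O j = sq o i) :
    (∃ q ∈ L, cell (pat A X Y L) i = q.c ∧ cell A j = 0) ∨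
      (Inner i ∧ cell (pat A X Y L) i = cell A j) ∨ (¬ Inner i ∧ cell (pat A X Y L) i = 15) := by
  obtain ⟨g1, g2⟩ := MF3_sq ho hj
  rw [TW1_cell hX hY h i hi]
  cases hf : L.find? (fun q => decide (cellOf X Y q.x q.y = i)) with
  | some q =>
    left
    have h1 := List.mem_of_find?_eq_some hf
    have h2 := List.find?_some hf
    have h3 : cellOf X Y q.x q.y = i := by simpa using h2
    obtain ⟨c1, c2, c3⟩ := TW1_pcs h q h1
    obtain ⟨g3, g4, _, _⟩ := TS2_cellOf c1
    rw [h3] at g3 g4
    refine ⟨q, h1, rfl, ?_⟩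
    rw [← MF3_codeA]
    have e1 : j % 80 = q.x := by omega
    have e2 : j / 80 = q.y := by omega
    rw [e1, e2, c3]
  | none =>
    right
    by_cases hin : Inner i
    · left
      refine ⟨hin, ?_⟩
      show (if Inner i then codeA A (X + i % 20 - 10) (Y + i / 20 - 10) else 15) = cell A j
      rw [if_pos hin, ← MF3_codeA]
      have e1 : X + i % 20 - 10 = j % 80 := by omega
      have e2 : Y + i / 20 - 10 = j / 80 := by omega
      rw [e1, e2]
    · right
      refine ⟨hin, ?_⟩
      show (if Inner i then codeA A (X + i % 20 - 10) (Y + i / 20 - 10) else 15) = 15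
      rw [if_neg hin]

theorem MF3_ev {T : MT} {S : List (List Pc)} {ps : PS} {acc : List Mo} {u : LI} {p k : Nat}
    (h : liEv T S ps acc u p k = true) : ps.n = 1 ∧ ∃ r ∈ ps.rs, r.ρ.e = ps.e ∧
      liEvR T S ps acc u p k r = true := by
  unfold liEv at h
  obtain ⟨h1, h2⟩ := Bool.and_eq_true_iff.1 h
  refine ⟨Nat.eq_of_beq_eq_true h1, ?_⟩
  have gen : ∀ L : List RI, (List.rec false (fun r _ ih => cond (Nat.beq r.ρ.e ps.e)
      (liEvR T S ps acc u p k r) ih) L : Bool) = true →
      ∃ r ∈ L, r.ρ.e = ps.e ∧ liEvR T S ps acc u p k r = true := by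
    intro L
    induction L with
    | nil => exact fun h5 => (Bool.false_ne_true h5).elim
    | cons r L ih =>
      intro h5
      have e1 : (List.rec false (fun r _ ih => cond (Nat.beq r.ρ.e ps.e)
        (liEvR T S ps acc u p k r) ih) (r :: L) : Bool) = cond (Nat.beq r.ρ.e ps.e)
        (liEvR T S ps acc u p k r) (List.rec false (fun r _ ih => cond (Nat.beq r.ρ.e ps.e)
        (liEvR T S ps acc u p k r) ih) L) := rfl
      rw [e1] at h5
      by_cases h6 : r.ρ.e = ps.e
      · rw [TS1_beq.2 h6, cond_true] at h5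
        exact ⟨r, List.mem_cons_self, h6, h5⟩
      · have hb : Nat.beq r.ρ.e ps.e = false := by
          rw [Bool.eq_false_iff, ne_eq, TS1_beq]
          exact h6
        rw [hb, cond_false] at h5
        obtain ⟨r', hr', h7⟩ := ih h5
        exact ⟨r', List.mem_cons_of_mem _ hr', h7⟩
  exact gen ps.rs h2

/-- the arrival of the resident -/
theorem MF3_evR {T : MT} {S : List (List Pc)} {ps : PS} {acc : List Mo} {u : LI}
    (hT : mtOk T = true) (hps : psOkE T ps = true)
    {O : Sq} {F : Board} {R : Room} (hF : MBase T O F R) {β : Ordinal.{0}}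
    (hacc : ∀ m ∈ acc, GE (PM T S F O m.j m.k) β)
    (h5 : noMk (nthP S u.i) = true) (h6 : allb (fun m => msk 0x180 m.c) u.M = true)
    (h8 : phP T ps ps.q (patW T.A S ps.X ps.Y u.i u.M) ≠ 0) (h9 : noMk (nthP S u.j₁) = true)
    (h10 : allb (fun m => msk 0x180 m.c) u.M' = true)
    (h : liEv T S ps acc u (patW T.A S ps.X ps.Y u.i u.M) (kOf ps.X ps.Y (nthP S u.i)) = true) :
    GE ⟨(cxM T ps O F ps.q).brd (patW T.A S ps.X ps.Y u.i u.M), false⟩ β := by
  have hD := psD hps
  obtain ⟨hn1, r, hr, hre, h11⟩ := MF3_ev h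
  unfold liEvR at h11
  simp only [TS3_ands_cons] at h11
  obtain ⟨h12, h13, h14, h15, h16, h17, -⟩ := h11
  obtain ⟨a1, a2, r', hr', a3, a4, a5⟩ := MD_arrOk ((hD.n.resolve_left (by omega)).2)
  have hrr : r' = r := by
    by_contra hne
    exact (hD.pair r' hr' r hr hne).1 (a3.trans hre.symm)
  subst hrr
  have hRD := rayD (hD.ray r' hr')
  -- the parts of the check of the event
  have h18 := h12
  unfold eventW at h18
  simp only [TS3_ands_cons] at h18
  obtain ⟨b1, b2, b3, b4, b5, b6, b7, -⟩ := h18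
  have dB := TW1_base b1
  have hwf : WF (cxM T ps O F ps.q) (patW T.A S ps.X ps.Y u.i u.M) (kOf ps.X ps.Y (nthP S u.i)) :=
    wf_base (x := u.sw ps) (cxM_ok hT hF hps (q := ps.q) (Or.inl rfl)) rfl b1
  have h7 : cell (patW T.A S ps.X ps.Y u.i u.M) r'.ρ.e = 7 := by
    unfold see7 at b3
    rw [Bool.and_eq_true] at b3
    exact Nat.eq_of_beq_eq_true b3.1
  have hcell := cell_arr h7
  have hC0 := cxM_ok hT hF hps (q := 0) (Or.inr rfl)
  have hR0 : r'.ρ ∈ (cxM T ps O F 0).R := mem_raysOf.2 ⟨r', hr', rfl⟩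
  have hwf0 : WF (cxM T ps O F 0) (patW T.A S ps.X ps.Y u.i u.M) (kOf ps.X ps.Y (nthP S u.i)) :=
    wf_base (x := u.sw ps) hC0 rfl b1
  have hwf' : WF (cxM T ps O F 0) (arr' (patW T.A S ps.X ps.Y u.i u.M) r'.ρ.e)
      (kOf ps.X ps.Y (nthP S u.i)) := LK2_wf_arr hC0 rfl hwf0 hR0 h7
  have hmar : ∀ i < 400, ¬ Inner i → cell (patW T.A S ps.X ps.Y u.i u.M) i = 15 := hwf.margin
  have h8' : ∀ r ∈ ps.rs, cell (patW T.A S ps.X ps.Y u.i u.M) r.ρ.e ≠ 8 := by
    have hph : phP T ps ps.q (patW T.A S ps.X ps.Y u.i u.M) = cond (allb (fun r' =>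
        !Nat.beq (cell (patW T.A S ps.X ps.Y u.i u.M) r'.ρ.e) 8) ps.rs) ps.q 0 := by
      unfold phP
      have hb : Nat.beq ps.q 0 = false := by
        rw [Bool.eq_false_iff, ne_eq, TS1_beq]
        exact a1
      rw [hb, cond_false]
    rw [hph] at h8
    cases hcc : allb (fun r' => !Nat.beq (cell (patW T.A S ps.X ps.Y u.i u.M) r'.ρ.e) 8) ps.rs with
    | true => exact ME1_ne8 hcc
    | false =>
      rw [hcc, cond_false] at h8
      exact absurd rfl h8
  -- the station of the resident is an unknown cell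
  have hout : ¬ (InB (cxM T ps O F ps.q).o (sqA O ps.q) ∧
      cell (patW T.A S ps.X ps.Y u.i u.M) (idx (cxM T ps O F ps.q).o (sqA O ps.q)) ≠ 15) := by
    rintro ⟨c1, c2⟩
    obtain ⟨c3, c4⟩ := sq_idx c1
    have hst : cell T.A ps.q = 15 := by
      have h5 := hT
      unfold mtOk at h5
      rw [Bool.and_eq_true] at h5
      have h6 := (TS1_allb _ _).mp h5.2 ps.q (hD.q.resolve_left a1)
      rw [Bool.and_eq_true, Nat.beq_eq] at h6
      exact h6.2
    rcases MF3_cell (cxM_at T ps O F ps.q) hD.hX hD.hY.1 dB.pcs c4 c3.symm with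
      ⟨q, hq, d1, d2⟩ | ⟨d1, d2⟩ | ⟨d1, d2⟩
    · rw [hst] at d2
      exact absurd d2 (by decide)
    · exact c2 (d2.trans hst)
    · exact c2 d2
  -- the static cells
  have hstat : Stat T (cxM T ps O F 0) O (arr' (patW T.A S ps.X ps.Y u.i u.M) r'.ρ.e) := by
    intro i hi hc j hj
    rw [arr'_eq, hcell] at hc ⊢
    by_cases hie : i = r'.ρ.e
    · rw [if_pos hie] at hc ⊢
      right
      refine ⟨?_, by decide⟩
      -- the cell of the mark is empty in the array
      rcases MF3_cell (cxM_at T ps O F 0) hD.hX hD.hY.1 dB.pcs hi hj with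
        ⟨q, hq, d1, d2⟩ | ⟨d1, d2⟩ | ⟨d1, d2⟩
      · exact d2
      · exfalso
        have d3 : cell (patW T.A S ps.X ps.Y u.i u.M) i = cell T.A j := d2
        rw [hie, h7] at d3
        have d4 := Nat.eq_of_beq_eq_true b7
        have g0 : cell (arr' (patW T.A S ps.X ps.Y u.i u.M) r'.ρ.e) u.k₁ = 0 :=
          Nat.eq_of_beq_eq_true b5
        have g1 : cell (arr' (patW T.A S ps.X ps.Y u.i u.M) r'.ρ.e)
            (kOf ps.X ps.Y (nthP S u.i)) = 6 := hwf'.king
        have g2 : cell (arr' (patW T.A S ps.X ps.Y u.i u.M) r'.ρ.e) r'.ρ.e = 8 := by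
          rw [arr'_eq, hcell, if_pos rfl]
        have n1 : kOf ps.X ps.Y (nthP S u.i) ≠ u.k₁ := by
          intro h
          rw [h, g0] at g1
          exact absurd g1 (by decide)
        have n2 : r'.ρ.e ≠ kOf ps.X ps.Y (nthP S u.i) := by
          intro h
          rw [← h, g2] at g1
          exact absurd g1 (by decide)
        have n3 : r'.ρ.e ≠ u.k₁ := by
          intro h
          rw [← h, g2] at g0
          exact absurd g0 (by decide)
        have d5 : cell (mv (arr' (patW T.A S ps.X ps.Y u.i u.M) r'.ρ.e)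
            (kOf ps.X ps.Y (nthP S u.i)) u.k₁) r'.ρ.e = 8 := by
          rw [cell_mv n1, if_neg n2, if_neg n3, g2]
        have d6 : cell (patW T.A S ps.X ps.Y u.j₁ u.M') r'.ρ.e = 8 := by
          rw [← d5]
          exact congrArg (fun x => cell x r'.ρ.e) d4.symm
        rw [hie] at hi hj
        rcases MF3_cell (cxM_at T ps O F 0) hD.hX hD.hY.1 b2 hi hj with
          ⟨q, hq, f1, f2⟩ | ⟨f1, f2⟩ | ⟨f1, f2⟩
        · omega
        · have f3 : cell (patW T.A S ps.X ps.Y u.j₁ u.M') r'.ρ.e = cell T.A j := f2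
          omega
        · exact f1 hRD.inn
      · exfalso
        rw [hie] at d1
        exact d1 hRD.inn
    · rw [if_neg hie] at hc ⊢
      rcases MF3_cell (cxM_at T ps O F 0) hD.hX hD.hY.1 dB.pcs hi hj with
        ⟨q, hq, d1, d2⟩ | ⟨d1, d2⟩ | ⟨d1, d2⟩
      · right
        refine ⟨d2, ?_⟩
        have d3 : cell (patW T.A S ps.X ps.Y u.i u.M) i = q.c := d1
        rw [d3]
        rcases TW1_mem_cat.1 hq with hq | hq
        · have := ME1_msk' q.c ((TS1_allb _ _).mp h6 q hq)
          omega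
        · have := (TS1_allb _ _).mp h13 q hq
          rw [Bool.or_eq_true, TS1_ble, TS1_beq] at this
          omega
      · left
        exact d2.symm
      · exact absurd d2 hc
  -- the board after the arrival
  have hb := brd_arrM hT hF hps a1 hwf hr' h7 a4 hout
  have hgo := goesA_sound hT hF hps a1 hmar hout h8' hr' h14
  have hleg : Legal ((cxM T ps O F ps.q).brd (patW T.A S ps.X ps.Y u.i u.M)) false (sqA O ps.q)
      (sqA O (zA ps.X ps.Y r'.ρ r'.n)) := by
    refine ⟨hgo, ?_⟩
    rw [← hb]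
    exact room_nocheck (cxM_ok hT hF hps (Or.inr rfl)) R (cxM_sep hT hF hps (Or.inr rfl)) hwf'
      (cxM_G hT hF hps (Or.inr rfl) _)
  have hno : ¬ InCheck ((cxM T ps O F ps.q).brd (patW T.A S ps.X ps.Y u.i u.M)) false :=
    room_nocheck (cxM_ok hT hF hps (Or.inl rfl)) R (cxM_sep hT hF hps (Or.inl rfl)) hwf
      (cxM_G hT hF hps (Or.inl rfl) _)
  -- the position after the answer
  have hz0 : zA ps.X ps.Y r'.ρ r'.n ≠ 0 :=
    (inA_lt (mc_inA hRD hRD.n1 (by have := hRD.nN; omega))).2
  have hph : phP T ps 0 (patW T.A S ps.X ps.Y u.j₁ u.M') = zA ps.X ps.Y r'.ρ r'.n :=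
    Nat.eq_of_beq_eq_true h16
  have hb2 := brd_phase hT hF hps (O := O) (q := 0) (Or.inr rfl) h10 h9 b2 (by rw [hph]; exact hz0)
  rw [hph] at hb2
  have hge : GE ⟨(cxM T ps O F 0).brd (patW T.A S ps.X ps.Y u.j₁ u.M'), false⟩ β := by
    rw [hb2]
    exact hacc _ (ME2_membM _ h17)
  -- the king
  have hkk : sqA O (kA (nthP S u.i)) = sq (cxM T ps O F 0).o (kOf ps.X ps.Y (nthP S u.i)) := by
    obtain ⟨q, L', hq⟩ : ∃ q L', nthP S u.i = q :: L' := by
      cases hn : nthP S u.i with
      | nil =>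
        have := dB.hC
        rw [hn] at this
        cases this
      | cons q L' => exact ⟨q, L', rfl⟩
    have hmem : q ∈ catP u.M (nthP S u.i) := by
      rw [TW1_mem_cat, hq]
      exact Or.inr List.mem_cons_self
    have c1 := (TW1_pcs dB.pcs q hmem).1
    have c2 := TW1_sq (cxM_at T ps O F 0) c1
    have c3 : kOf ps.X ps.Y (nthP S u.i) = cellOf ps.X ps.Y q.x q.y := by rw [hq]; rfl
    have c4 : kA (nthP S u.i) = q.x + 80 * q.y := by rw [hq]; rfl
    rw [c3, ← c2, c4]
    have hX := hD.hX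
    have c5 : ps.X ≤ q.x + 8 ∧ q.x ≤ ps.X + 7 ∧ ps.Y ≤ q.y + 8 ∧ q.y ≤ ps.Y + 7 := c1
    unfold sqA
    have e1 : (q.x + 80 * q.y) % 80 = q.x := by omega
    have e2 : (q.x + 80 * q.y) / 80 = q.y := by omega
    rw [e1, e2]
  have hF8 : cell (arr' (patW T.A S ps.X ps.Y u.i u.M) r'.ρ.e) r'.ρ.e = 8 ∧
      first (arr' (patW T.A S ps.X ps.Y u.i u.M) r'.ρ.e) r'.ρ.t 20 (kOf ps.X ps.Y (nthP S u.i)) =
        r'.ρ.e := by
    unfold onlyF at b6
    rw [Bool.and_eq_true, Bool.and_eq_true] at b6
    exact ⟨Nat.eq_of_beq_eq_true b6.1.1, Nat.eq_of_beq_eq_true b6.1.2⟩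
  refine eventW_ge (x := u.sw ps) h12 hleg hno hC0 rfl hb.symm (ρ := r'.ρ) hR0 rfl rfl ?_ hge
  intro y l m hm hl hlm hy
  exact whiteTo_sound hT hF hps hstat hr' hwf' hkk hF8.1 hF8.2 h15 y l m hm hl hlm hy

theorem MF3_li {T : MT} {S : List (List Pc)} {ps : PS} {acc : List Mo} {u : LI}
    (hT : mtOk T = true) (hps : psOkE T ps = true)
    {O : Sq} {F : Board} {R : Room} (hF : MBase T O F R) {β : Ordinal.{0}}
    (hacc : ∀ m ∈ acc, GE (PM T S F O m.j m.k) β)
    (h : liOk T S ps acc u (patW T.A S ps.X ps.Y u.i u.M) (kOf ps.X ps.Y (nthP S u.i)) = true) :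
    GE (PM T S F O u.i u.φ) β := by
  have hC := cxM_ok hT hF hps (q := ps.q) (Or.inl rfl)
  have hsep := cxM_sep hT hF hps (q := ps.q) (Or.inl rfl)
  have hG := cxM_G hT hF hps (q := ps.q) (Or.inl rfl) (patW T.A S ps.X ps.Y u.i u.M)
  unfold liOk at h
  simp only [TS3_ands_cons] at h
  obtain ⟨h5, h6, h7, h8, h9, h9', h10, h11, -⟩ := h
  rw [TS1_beq] at h7
  have h8' : u.φ ≠ 0 := by
    intro h0
    rw [h0] at h8
    exact absurd h8 (by decide)
  have hph : phP T ps ps.q (patW T.A S ps.X ps.Y u.i u.M) ≠ 0 := by rw [h7]; exact h8'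
  have main : ∀ (hp : pcsOkW T.A ps.X ps.Y (catP u.M (nthP S u.i)) = true),
      GE ⟨(cxM T ps O F ps.q).brd (patW T.A S ps.X ps.Y u.i u.M), false⟩ β →
      GE (PM T S F O u.i u.φ) β := by
    intro hp hge
    have hb := brd_phase hT hF hps (O := O) (Or.inl rfl) h6 h5 hp hph
    rw [h7] at hb
    rw [hb] at hge
    exact hge
  have next : ∀ j, noMk (nthP S j) = true →
      pcsOkW T.A ps.X ps.Y (catP u.M' (nthP S j)) = true →
      (Nat.beq (phP T ps ps.q (patW T.A S ps.X ps.Y j u.M')) u.φ && membM j u.φ acc) = true →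
      GE ⟨(cxM T ps O F ps.q).brd (patW T.A S ps.X ps.Y j u.M'), false⟩ β := by
    intro j hj hp hh
    rw [Bool.and_eq_true, TS1_beq] at hh
    have hb := brd_phase hT hF hps (O := O) (q := ps.q) (Or.inl rfl) h10 hj hp
      (by rw [hh.1]; exact h8')
    rw [hh.1] at hb
    rw [hb]
    exact hacc _ (ME2_membM _ hh.2)
  by_cases k0 : u.kd = 0
  · rw [TS1_beq.2 k0, cond_true, Bool.and_eq_true] at h11
    obtain ⟨h12, h13⟩ := h11
    have h14 := h12
    unfold mainW at h14
    simp only [TS3_ands_cons] at h14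
    obtain ⟨b1, b2, -⟩ := h14
    refine main (TW1_base b1).pcs ?_
    exact (mainW_ge (x := u.sw ps) h12 hC rfl R hsep hG (next u.j₁ h9 b2 h13)).1
  · have e0 : Nat.beq u.kd 0 = false := by
      rw [Bool.eq_false_iff, ne_eq, TS1_beq]
      exact k0
    rw [e0, cond_false] at h11
    by_cases k1 : u.kd = 1
    · rw [TS1_beq.2 k1, cond_true] at h11
      have h14 := h11
      unfold mateW at h14
      simp only [TS3_ands_cons] at h14
      obtain ⟨b1, -⟩ := h14
      refine main (TW1_base b1).pcs ?_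
      exact mateW_ge (x := u.sw ps) h11 hC rfl R hsep hG β
    · have e1 : Nat.beq u.kd 1 = false := by
        rw [Bool.eq_false_iff, ne_eq, TS1_beq]
        exact k1
      rw [e1, cond_false] at h11
      by_cases k2 : u.kd = 2
      · rw [TS1_beq.2 k2, cond_true, Bool.and_eq_true, Bool.and_eq_true] at h11
        obtain ⟨h12, h13, h13'⟩ := h11
        have h14 := h12
        unfold mainW2 at h14
        simp only [TS3_ands_cons] at h14
        obtain ⟨b1, b2, b3, -⟩ := h14
        refine main (TW1_base b1).pcs ?_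
        exact mainW2_ge (x := u.sw ps) h12 hC rfl R hsep hG (next u.j₁ h9 b2 h13)
          (next u.j₂ h9' b3 h13')
      · have e2 : Nat.beq u.kd 2 = false := by
          rw [Bool.eq_false_iff, ne_eq, TS1_beq]
          exact k2
        rw [e2, cond_false] at h11
        obtain ⟨-, r, -, -, h12⟩ := MF3_ev h11
        unfold liEvR at h12
        simp only [TS3_ands_cons] at h12
        obtain ⟨h13, -⟩ := h12
        unfold eventW at h13
        simp only [TS3_ands_cons] at h13
        obtain ⟨b1, -⟩ := h13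
        refine main (TW1_base b1).pcs ?_
        exact MF3_evR hT hps hF hacc h5 h6 hph h9 h10 h11

/-- chunk MF: **a group of items, lower bound** -/
theorem grpL_ge {T : MT} {S : List (List Pc)} {ps : PS} {acc : List Mo} {L : List LI}
    (hT : mtOk T = true) (hps : psOkE T ps = true) (h : grpL T S ps acc L = true)
    {O : Sq} {F : Board} {R : Room} (hF : MBase T O F R) {β : Ordinal.{0}}
    (hacc : ∀ m ∈ acc, GE (PM T S F O m.j m.k) β) :
    ∀ m ∈ keysL L acc, GE (PM T S F O m.j m.k) β := by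
  induction L with
  | nil => exact hacc
  | cons u L ih =>
    have h1 : grpL T S ps acc (u :: L) = (liOk T S ps (keysL L acc) u
      (patW T.A S ps.X ps.Y u.i u.M) (kOf ps.X ps.Y (nthP S u.i)) && grpL T S ps acc L) := rfl
    have h2 : keysL (u :: L) acc = ⟨u.i, u.φ⟩ :: keysL L acc := rfl
    rw [h1, Bool.and_eq_true] at h
    obtain ⟨h3, h4⟩ := h
    have ih' := ih h4
    rw [h2]
    intro m hm
    rcases List.mem_cons.1 hm with rfl | hm
    · exact MF3_li hT hps hF ih' h3
    · exact ih' m hm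

end Pool.Agent.Lib.H32C.Loc
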