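import Pool.Agent.Lib.H32C.FwC
import Pool.Agent.Lib.H32C.MemF

/-!
# Chunk FWD: groups of items of windows (lower bound)
-/

set_option autoImplicit false

namespace Pool.Agent.Lib.H32C.Loc

variable {G : FGeo} {B0 : Board} {s : Svc} {R : Room} {T : WT} {O : Sq} {X Y e : Nat}

/-- no White piece comes to the line -/
def WhiteL (G : FGeo) (B0 : Board) (s : Svc) : Prop :=
  ∀ c, G.line s c → ∀ a κ, B0 a = some (true, κ) → WStop G B0 ∅ κ a c

/-! helpers of chunk FWD -/

/-- the content of a square of the board of a state -/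
theorem fwd_stB (F : Board) (O : Sq) (L : List Pc) (a : Sq) :
    (∃ u ∈ L, tsq O u.x u.y = a ∧ stB F O L a = dec u.c) ∨
      (stB F O L a = F a ∧ ∀ u ∈ L, tsq O u.x u.y ≠ a) := by
  unfold stB
  cases hf : L.find? (fun q => decide (tsq O q.x q.y = a)) with
  | some u =>
    left
    have h2 := List.find?_some hf
    exact ⟨u, List.mem_of_find?_eq_some hf, of_decide_eq_true h2, rfl⟩
  | none =>
    right
    refine ⟨rfl, ?_⟩
    rw [List.find?_eq_none] at hf
    intro u hu hs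
    exact hf u hu (decide_eq_true hs)

theorem fwd_dec_ne {c : Nat} (h : (9 ≤ c ∧ c ≤ 13) ∨ c = 6) : dec c ≠ none := by
  rcases h with ⟨h1, h2⟩ | rfl
  · exact LB_decne (by omega) (by omega) (by omega) (by omega)
  · decide

theorem fwd_dec_white {c : Nat} (h : (9 ≤ c ∧ c ≤ 13) ∨ c = 6) {κ : Kind}
    (hd : dec c = some (true, κ)) : κ = Kind.king := by
  rcases mf1_dec hd with h1 | h1 | h1 | h1 | h1 | h1 <;> first | exact h1.2 | (exfalso; omega)

/-- no White piece other than the king goes to the line on the board of a state whose pieces are Black, except the king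
(cf. `white_clear`) -/
theorem hfarW (hT : WinT G B0 s R T O) (hL : WhiteL G B0 s) {F : Far}
    {q : Qn} (h1 : Ph1 G s T F q) {L : List Pc}
    (hb : ∀ q ∈ L, (9 ≤ q.c ∧ q.c ≤ 13) ∨ q.c = 6) {c : Sq} (hc : G.line s c)
    (hcL : stB (fullB G B0 F) O L c = none ∨ ∀ u ∈ L, tsq O u.x u.y ≠ c) {a : Sq}
    (ha : stB (fullB G B0 F) O L a ≠ some (true, Kind.king)) :
    ¬ CanGo (stB (fullB G B0 F) O L) true a c := by
  rintro ⟨⟨w, κ⟩, hm, hw, hgo⟩
  simp only at hw
  subst hw
  -- the man is static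
  have hB0 : B0 a = some (true, κ) := by
    rcases fwd_stB (fullB G B0 F) O L a with ⟨u, hu, -, he⟩ | ⟨he, -⟩
    · exfalso
      rw [hm] at he
      have hk := fwd_dec_white (hb u hu) he.symm
      subst hk
      exact ha hm
    · rw [hm] at he
      exact farB_white he.symm
  have hst := hL c hc a κ hB0
  -- static pieces remain on the board
  have hne : ∀ d, B0 d ≠ none → stB (fullB G B0 F) O L d ≠ none := by
    intro d hd
    rcases fwd_stB (fullB G B0 F) O L d with ⟨u, hu, -, he⟩ | ⟨he, -⟩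
    · rw [he]
      exact fwd_dec_ne (hb u hu)
    · rw [he]
      intro h
      rw [fullB_none] at h
      exact hd h.2
  have hatt : (∀ d, BetwI a c d → stB (fullB G B0 F) O L d = none) →
      (∃ d, BetwI a c d ∧ d ∉ (∅ : Set Sq) ∧ B0 d ≠ none) → False := by
    rintro h2 ⟨d, h3, -, h4⟩
    exact hne d h4 (h2 d h3)
  cases κ with
  | king => exact hst
  | knight =>
    rcases hgo with ⟨-, hgo⟩ | ⟨-, hgo⟩
    · rw [if_neg (by decide)] at hgo; exact hst hgo
    · exact hst hgo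
  | pawn =>
    rcases hgo with ⟨-, hgo⟩ | ⟨⟨m, hm1, hm2, -⟩, hgo⟩
    · rw [if_pos rfl] at hgo
      exact hst.1 hgo
    · have ho : G.Outside c ∨ G.floater c := by
        rcases hcL with hcL | hcL
        · rw [hm1] at hcL
          cases hcL
        rcases fwd_stB (fullB G B0 F) O L c with ⟨u, hu, he, -⟩ | ⟨he, -⟩
        · exact absurd he (hcL u hu)
        · rw [hm1] at he
          have hm3 := he.symm
          unfold fullB farB at hm3
          split_ifs at hm3 with g1 g2 g3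
          · obtain ⟨r, -, rfl⟩ := g1
            exact Or.inl (h1.base.2.2.1 r)
          · rw [g2.2] at hc
            exact absurd hc (b_not_line hT.geo h1.far.b)
          · exact Or.inr g3
          · rw [hT.clear c hc] at hm3
            cases hm3
      rcases hgo with hgo | hgo
      · exact (hst.2 ho).1 hgo
      · exact (hst.2 ho).2 hgo
  | queen =>
    have hgo' : Slides (stB (fullB G B0 F) O L) (orthDirs ++ diagDirs) a c := by
      rcases hgo with ⟨-, hgo⟩ | ⟨-, hgo⟩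
      · rw [if_neg (by decide)] at hgo; exact hgo
      · exact hgo
    rw [slides_all] at hgo'
    exact hatt hgo'.2 (hst hgo'.1)
  | rook =>
    have hgo' : Slides (stB (fullB G B0 F) O L) orthDirs a c := by
      rcases hgo with ⟨-, hgo⟩ | ⟨-, hgo⟩
      · rw [if_neg (by decide)] at hgo; exact hgo
      · exact hgo
    rw [slides_orth] at hgo'
    exact hatt hgo'.2 (hst hgo'.1)
  | bishop =>
    have hgo' : Slides (stB (fullB G B0 F) O L) diagDirs a c := by
      rcases hgo with ⟨-, hgo⟩ | ⟨-, hgo⟩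
      · rw [if_neg (by decide)] at hgo; exact hgo
      · exact hgo
    rw [slides_diag] at hgo'
    exact hatt hgo'.2 (hst hgo'.1)

theorem fwd_rs {t e : Nat} (he : e ≠ 0) : rsW t e = [⟨e, t, 13⟩] := by
  unfold rsW
  have hb : Nat.beq e 0 = false := by
    rw [Bool.eq_false_iff, ne_eq, TS1_beq]
    exact he
  rw [hb, cond_false]

/-- the items of kinds `0`, `1`, `2` in a context -/
theorem fwd_item {S : List (List Pc)} {acc : List Mo} {u : WL}
    (h : wlOk T S acc u (patW T.A S u.X u.Y u.i (u.sw T.t).M) (kOf u.X u.Y (nthP S u.i)) = true)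
    (hk : u.kd = 0 ∨ u.kd = 1 ∨ u.kd = 2) {F : Far} {β : Ordinal.{0}}
    (hacc : ∀ m ∈ acc, m.k = u.φ → GE (PFw G B0 S O F m.j) β) {C : Ctx} (hC : C.Ok)
    (hR : C.R = rsW T.t u.e) (hsep : R.Sep C)
    (hG : R.G (C.brd (patW T.A S u.X u.Y u.i (u.sw T.t).M)))
    (hbrd : ∀ j, noMk (nthP S j) = true →
      pcsOkW T.A u.X u.Y (catP (u.sw T.t).M (nthP S j)) = true →
      TW1_Base T.H T.A S u.i (u.sw T.t) (patW T.A S u.X u.Y u.i (u.sw T.t).M)
        (kOf u.X u.Y (nthP S u.i)) →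
      C.brd (patW T.A S u.X u.Y j (u.sw T.t).M) = stB (fullB G B0 F) O (nthP S j)) :
    GE (PFw G B0 S O F u.i) β ∧ (u.kd = 0 → ¬ ValLE (PFw G B0 S O F u.i) β) := by
  unfold wlOk at h
  simp only [TS3_ands_cons] at h
  obtain ⟨h5, -, h9, h9', h11, -⟩ := h
  have next : ∀ j, noMk (nthP S j) = true →
      pcsOkW T.A u.X u.Y (catP (u.sw T.t).M (nthP S j)) = true → membM j u.φ acc = true →
      TW1_Base T.H T.A S u.i (u.sw T.t) (patW T.A S u.X u.Y u.i (u.sw T.t).M)
        (kOf u.X u.Y (nthP S u.i)) →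
      GE ⟨C.brd (patW T.A S u.X u.Y j (u.sw T.t).M), false⟩ β := by
    intro j hj hp hm hb
    rw [hbrd j hj hp hb]
    exact hacc _ (ME2_membM _ hm) rfl
  by_cases k0 : u.kd = 0
  · rw [TS1_beq.2 k0, cond_true, Bool.and_eq_true] at h11
    obtain ⟨h12, h13⟩ := h11
    have h14 := h12
    unfold mainW at h14
    simp only [TS3_ands_cons] at h14
    obtain ⟨b1, b2, -⟩ := h14
    have hb := TW1_base b1
    have hge := mainW_ge (x := u.sw T.t) h12 hC hR R hsep hG (next u.j₁ h9 b2 h13 hb)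
    have e1 : C.brd (patW T.A S (u.sw T.t).X (u.sw T.t).Y u.i (u.sw T.t).M) =
        stB (fullB G B0 F) O (nthP S u.i) := hbrd u.i h5 hb.pcs hb
    rw [e1] at hge
    exact ⟨hge.1, fun _ => hge.2⟩
  · refine ⟨?_, fun h => absurd h k0⟩
    have e0 : Nat.beq u.kd 0 = false := by
      rw [Bool.eq_false_iff, ne_eq, TS1_beq]
      exact k0
    rw [e0, cond_false] at h11
    by_cases k1 : u.kd = 1
    · rw [TS1_beq.2 k1, cond_true] at h11
      have h14 := h11
      unfold mateW at h14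
      simp only [TS3_ands_cons] at h14
      obtain ⟨b1, -⟩ := h14
      have hb := TW1_base b1
      have hge := mateW_ge (x := u.sw T.t) h11 hC hR R hsep hG β
      have e1 : C.brd (patW T.A S (u.sw T.t).X (u.sw T.t).Y u.i (u.sw T.t).M) =
          stB (fullB G B0 F) O (nthP S u.i) := hbrd u.i h5 hb.pcs hb
      rw [e1] at hge
      exact hge
    · have e1 : Nat.beq u.kd 1 = false := by
        rw [Bool.eq_false_iff, ne_eq, TS1_beq]
        exact k1
      rw [e1, cond_false] at h11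
      have k2 : u.kd = 2 := by omega
      rw [TS1_beq.2 k2, cond_true, Bool.and_eq_true, Bool.and_eq_true] at h11
      obtain ⟨h12, h13, h13'⟩ := h11
      have h14 := h12
      unfold mainW2 at h14
      simp only [TS3_ands_cons] at h14
      obtain ⟨b1, b2, b3, -⟩ := h14
      have hb := TW1_base b1
      have hge := mainW2_ge (x := u.sw T.t) h12 hC hR R hsep hG (next u.j₁ h9 b2 h13 hb)
        (next u.j₂ h9' b3 h13' hb)
      have e1 : C.brd (patW T.A S (u.sw T.t).X (u.sw T.t).Y u.i (u.sw T.t).M) =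
          stB (fullB G B0 F) O (nthP S u.i) := hbrd u.i h5 hb.pcs hb
      rw [e1] at hge
      exact hge

/-- the items without a ray -/
theorem fwd_item0 {S : List (List Pc)} {acc : List Mo} {u : WL}
    (h : wlOk T S acc u (patW T.A S u.X u.Y u.i (u.sw T.t).M) (kOf u.X u.Y (nthP S u.i)) = true)
    (he : u.e = 0) (hT : WinT G B0 s R T O) {F : Far} (hb : BOk G F)
    (hA : ∀ q, G.Outside (F.q q)) {β : Ordinal.{0}}
    (hacc : ∀ m ∈ acc, m.k = u.φ → GE (PFw G B0 S O F m.j) β) :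
    GE (PFw G B0 S O F u.i) β ∧ (u.kd = 0 → ¬ ValLE (PFw G B0 S O F u.i) β) := by
  have hk : u.kd = 0 ∨ u.kd = 1 ∨ u.kd = 2 := by
    by_contra hk
    have h' := h
    unfold wlOk at h'
    simp only [TS3_ands_cons] at h'
    obtain ⟨-, -, -, -, h11, -⟩ := h'
    have e0 : Nat.beq u.kd 0 = false := by
      rw [Bool.eq_false_iff, ne_eq, TS1_beq]; omega
    have e1 : Nat.beq u.kd 1 = false := by
      rw [Bool.eq_false_iff, ne_eq, TS1_beq]; omega
    have e2 : Nat.beq u.kd 2 = false := by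
      rw [Bool.eq_false_iff, ne_eq, TS1_beq]; omega
    rw [e0, cond_false, e1, cond_false, e2, cond_false] at h11
    simp only [TS3_ands_cons] at h11
    obtain ⟨-, h12, -⟩ := h11
    rw [TS1_beq.2 he] at h12
    cases h12
  have hM : ∀ c, mkW u.X u.Y u.e c = [] := by
    intro c
    unfold mkW
    rw [TS1_beq.2 he, cond_true]
  have hM' : (u.sw T.t).M = [] := hM _
  have hF := farB_fits hT (F := F) (A := fun _ => True) (bp := True) hb (fun q _ => hA q)
  have hC : (ctx O (fullB G B0 F) u.X u.Y).Ok := ctx_ok hF.noK u.X u.Y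
  have hR : (ctx O (fullB G B0 F) u.X u.Y).R = rsW T.t u.e := by
    unfold rsW
    rw [TS1_beq.2 he, cond_true]
    rfl
  -- the basic conditions
  have hbase : TW1_Base T.H T.A S u.i (u.sw T.t) (patW T.A S u.X u.Y u.i (u.sw T.t).M)
        (kOf u.X u.Y (nthP S u.i)) := by
    have h' := h
    unfold wlOk at h'
    simp only [TS3_ands_cons] at h'
    obtain ⟨-, -, -, -, h11, -⟩ := h'
    rcases hk with k0 | k1 | k2
    · rw [TS1_beq.2 k0, cond_true, Bool.and_eq_true] at h11
      have h14 := h11.1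
      unfold mainW at h14
      simp only [TS3_ands_cons] at h14
      exact TW1_base h14.1
    · have e0 : Nat.beq u.kd 0 = false := by
        rw [Bool.eq_false_iff, ne_eq, TS1_beq]; omega
      rw [e0, cond_false, TS1_beq.2 k1, cond_true] at h11
      have h14 := h11
      unfold mateW at h14
      simp only [TS3_ands_cons] at h14
      exact TW1_base h14.1
    · have e0 : Nat.beq u.kd 0 = false := by
        rw [Bool.eq_false_iff, ne_eq, TS1_beq]; omega
      have e1 : Nat.beq u.kd 1 = false := by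
        rw [Bool.eq_false_iff, ne_eq, TS1_beq]; omega
      rw [e0, cond_false, e1, cond_false, TS1_beq.2 k2, cond_true, Bool.and_eq_true] at h11
      have h14 := h11.1
      unfold mainW2 at h14
      simp only [TS3_ands_cons] at h14
      exact TW1_base h14.1
  have hX : 8 ≤ u.X ∧ u.X ≤ 72 := hbase.hX
  have hY : 8 ≤ u.Y ∧ u.Y + 8 ≤ T.H := hbase.hY
  have hsep : R.Sep (ctx O (fullB G B0 F) u.X u.Y) := by
    constructor
    · intro c hc
      refine hT.regZ c ?_
      obtain ⟨h1, h2, h3, h4⟩ := hc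
      simp only [ctx] at h1 h2 h3 h4
      refine ⟨?_, ?_, ?_, ?_⟩ <;> omega
    · intro ρ hρ
      exact absurd hρ (by simp [ctx])
  have hG : R.G ((ctx O (fullB G B0 F) u.X u.Y).brd (patW T.A S u.X u.Y u.i (u.sw T.t).M)) := by
    refine R.dep (fullB G B0 F) _ (fun c hc => ?_)
      (farB_G hT (F := F) (A := fun _ => True) (bp := True) hb (fun q _ => hA q))
    have h1 : ¬ InB (ctx O (fullB G B0 F) u.X u.Y).o c := fun h => hsep.patch c h hc
    unfold Ctx.brd
    rw [if_neg (fun h => h1 h.1)]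
    rfl
  refine fwd_item h hk hacc hC hR hsep hG ?_
  intro j hj hp _
  have hp' : pcsOkW T.A u.X u.Y (catP [] (nthP S j)) = true := by rw [← hM']; exact hp
  have e1 := brd_patW (H := T.H) (A := T.A) (O := O) hC (X := u.X) (Y := u.Y) rfl hF hX hY
    (M := []) (L := nthP S j) hp'
    (fun q hq => absurd hq List.not_mem_nil) (ME1_noMk hj) (fun ρ hρ => absurd hρ (by simp [ctx]))
    (fun ρ hρ _ => absurd hρ (by simp [ctx]))
  have e2 : patW T.A S u.X u.Y j (u.sw T.t).M = pat T.A u.X u.Y (catP [] (nthP S j)) := by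
    rw [hM']
    rfl
  rw [e2, e1]
  rfl

theorem fwd_cx {F : Far} {q : Qn} (hT : WinT G B0 s R T O) (hP : WinP G B0 s T O X Y e)
    (h1 : Ph1 G s T F q) (p : Nat) :
    (cxA G B0 T O X Y e F q).Ok ∧ R.Sep (cxA G B0 T O X Y e F q) ∧
      R.G ((cxA G B0 T O X Y e F q).brd p) :=
  ⟨cxA_ok hT hP h1.far (h1.onRay hT hP), cxW_sep hT hP h1.on,
    cxW_G hT hP h1.far.b h1.far.out h1.on p⟩

/-- the items of phase `1` -/
theorem fwd_item1 {S : List (List Pc)} {acc : List Mo} {u : WL}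
    (h : wlOk T S acc u (patW T.A S u.X u.Y u.i (u.sw T.t).M) (kOf u.X u.Y (nthP S u.i)) = true)
    (hφ : u.φ = 1) (hT : WinT G B0 s R T O) (hP : u.e ≠ 0 → WinP G B0 s T O u.X u.Y u.e)
    {F : Far} {q : Qn} (h1 : Ph1 G s T F q) {β : Ordinal.{0}}
    (hacc : ∀ m ∈ acc, m.k = 1 → GE (PFw G B0 S O F m.j) β) : GE (PFw G B0 S O F u.i) β := by
  have hacc' : ∀ m ∈ acc, m.k = u.φ → GE (PFw G B0 S O F m.j) β := by
    rw [hφ]
    exact hacc
  by_cases he : u.e = 0
  · exact (fwd_item0 h he hT h1.far.b h1.base.2.2.1 hacc').1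
  have hP' := hP he
  have hk : u.kd = 0 ∨ u.kd = 1 ∨ u.kd = 2 := by
    by_contra hk
    have h' := h
    unfold wlOk at h'
    simp only [TS3_ands_cons] at h'
    obtain ⟨-, -, -, -, h11, -⟩ := h'
    have e0 : Nat.beq u.kd 0 = false := by
      rw [Bool.eq_false_iff, ne_eq, TS1_beq]; omega
    have e1 : Nat.beq u.kd 1 = false := by
      rw [Bool.eq_false_iff, ne_eq, TS1_beq]; omega
    have e2 : Nat.beq u.kd 2 = false := by
      rw [Bool.eq_false_iff, ne_eq, TS1_beq]; omega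
    rw [e0, cond_false, e1, cond_false, e2, cond_false] at h11
    simp only [TS3_ands_cons] at h11
    obtain ⟨h12, -⟩ := h11
    rw [TS1_beq, hφ] at h12
    cases h12
  have hM : (u.sw T.t).M = mkW u.X u.Y u.e 8 := by
    show mkW u.X u.Y u.e (cond (Nat.beq u.φ 0) 7 8) = _
    rw [hφ]
    rfl
  obtain ⟨c1, c2, c3⟩ := fwd_cx hT hP' h1 (patW T.A S u.X u.Y u.i (u.sw T.t).M)
  refine (fwd_item h hk hacc' c1 (fwd_rs he).symm c2 c3 ?_).1
  intro j hj hp _
  rw [hM] at hp ⊢
  exact brdW1 hT hP' h1.far (h1.onRay hT hP') hj hp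

/-- chunk FWD: **a group of items, phase 1, lower bound** -/
theorem grpWL_1 {S : List (List Pc)} {acc : List Mo} {L : List WL} (h : grpWL T S acc L = true)
    (hT : WinT G B0 s R T O) (hP : ∀ u ∈ L, u.e ≠ 0 → WinP G B0 s T O u.X u.Y u.e) {F : Far}
    {q : Qn} (h1 : Ph1 G s T F q) {β : Ordinal.{0}}
    (hacc : ∀ m ∈ acc, m.k = 1 → GE (PFw G B0 S O F m.j) β) :
    ∀ m ∈ keysWL L acc, m.k = 1 → GE (PFw G B0 S O F m.j) β := by
  induction L with
  | nil => exact hacc
  | cons u L ih =>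
    have e1 : grpWL T S acc (u :: L) = (wlOk T S (keysWL L acc) u
      (patW T.A S u.X u.Y u.i (u.sw T.t).M) (kOf u.X u.Y (nthP S u.i)) && grpWL T S acc L) := rfl
    have e2 : keysWL (u :: L) acc = ⟨u.i, u.φ⟩ :: keysWL L acc := rfl
    rw [e1, Bool.and_eq_true] at h
    obtain ⟨h3, h4⟩ := h
    have ih' := ih h4 (fun v hv => hP v (List.mem_cons_of_mem _ hv))
    rw [e2]
    intro m hm hk
    rcases List.mem_cons.1 hm with rfl | hm
    · exact fwd_item1 h3 hk hT (hP u List.mem_cons_self) h1 ih'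
    · exact ih' m hm hk

/-- squares outside are not in the tile -/
theorem fwd_out (hT : WinT G B0 s R T O) {c : Sq} (hc : G.Outside c) : c ∉ TileRegH T.H O := by
  intro h
  obtain ⟨h1, h2, -⟩ := hT.hull c h
  rcases hc with hc | hc | hc
  · exact h2 (Or.inl hc)
  · exact h2 (Or.inr (Or.inl hc))
  · omega


/-- the tile as a region for `canGo_far` -/
theorem fwd_farPatch (hT : WinT G B0 s R T O) : FarPatch G B0 Svc.Out (TileRegH T.H O) := by
  refine ⟨?_, ?_, ?_, ?_, ?_⟩
  · intro c hc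
    exact hc.elim
  · intro c hc
    obtain ⟨h1, h2, -⟩ := hT.hull c hc
    exact ⟨h1, h2⟩
  · intro c hc
    exact hc.elim
  · intro c hc
    exact hc.elim
  · intro c hc
    exact hc.elim

/-- the pieces of a state stand in the tile -/
theorem fwd_pcs {A : Nat} (hX : 8 ≤ X ∧ X ≤ 72) (hY : 8 ≤ Y ∧ Y + 8 ≤ T.H) {M L : List Pc}
    (h : pcsOkW A X Y (catP M L) = true) {u : Pc} (hu : u ∈ L) :
    tsq O u.x u.y ∈ TileRegH T.H O := by
  obtain ⟨h1, -, -⟩ := TW1_pcs h u (TW1_mem_cat.2 (Or.inr hu))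
  unfold tsq
  refine ⟨?_, ?_, ?_, ?_⟩ <;> simp only <;> omega

/-- the board after the move of the queen -/
theorem fwd_move {F : Far} (hB : FBase G F) {q : Qn} {t : Sq} (hne : t ≠ F.q q)
    (h0 : B0 (F.q q) = none) {L : List Pc} (hq : ∀ u ∈ L, tsq O u.x u.y ≠ F.q q)
    (ht : ∀ u ∈ L, tsq O u.x u.y ≠ t) :
    (stB (fullB G B0 F) O L).move (F.q q) t = stB (fullB G B0 (F.set q t)) O L := by
  have hmv := fullB_move (B0 := B0) hB.1 q (hB.2.1 q) (hB.2.2.2 q) h0 hne
  have key : ∀ (B : Board) (c : Sq), (∀ u ∈ L, tsq O u.x u.y ≠ c) → stB B O L c = B c := by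
    intro B c hc
    rcases fwd_stB B O L c with ⟨u, hu, he, -⟩ | ⟨he, -⟩
    · exact absurd he (hc u hu)
    · exact he
  funext c
  by_cases hc : ∀ u ∈ L, tsq O u.x u.y ≠ c
  · rw [key _ c hc, ← hmv]
    unfold Board.move
    rw [key _ _ hq, key _ c hc]
  · push Not at hc
    obtain ⟨u, hu, he⟩ := hc
    have n1 : c ≠ F.q q := by
      rintro rfl
      exact hq u hu he
    have n2 : c ≠ t := by
      rintro rfl
      exact ht u hu he
    unfold Board.move
    rw [if_neg n1, if_neg n2]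
    unfold stB
    cases hf : L.find? (fun q => decide (tsq O q.x q.y = c)) with
    | some v => rfl
    | none =>
      rw [List.find?_eq_none] at hf
      exact absurd (decide_eq_true he) (hf u hu)

/-- chunk FWD: the arrival of a queen (`canGo_far`, `eventW_ge`) -/
theorem evW_ge {S : List (List Pc)} {acc : List Mo} {u : WL}
    (h : wlOk T S acc u (patW T.A S u.X u.Y u.i (u.sw T.t).M) (kOf u.X u.Y (nthP S u.i)) = true)
    (hφ : u.φ = 0) (hk : u.kd ≠ 0 ∧ u.kd ≠ 1 ∧ u.kd ≠ 2) (hw : wtOk T = true)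
    (hT : WinT G B0 s R T O) (hL : WhiteL G B0 s) (hP : WinP G B0 s T O u.X u.Y u.e) {F : Far}
    (hB : FBase G F) (hF : FarS G s F (fun _ => True)) {q : Qn} {t : Sq} (ht : G.line s t) (hto : G.Outside t)
    (hf : FarL G F q t) (h1 : Ph1 G s T (F.set q t) q) {β : Ordinal.{0}}
    (hacc : ∀ m ∈ acc, m.k = 1 → GE (PFw G B0 S O (F.set q t) m.j) β) :
    GE (PFw G B0 S O F u.i) β := by
  have _ := hw
  unfold wlOk at h
  simp only [TS3_ands_cons] at h
  obtain ⟨h5, -, h9, -, h11, -⟩ := h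
  have e0 : Nat.beq u.kd 0 = false := by
    rw [Bool.eq_false_iff, ne_eq, TS1_beq]; omega
  have e1 : Nat.beq u.kd 1 = false := by
    rw [Bool.eq_false_iff, ne_eq, TS1_beq]; omega
  have e2 : Nat.beq u.kd 2 = false := by
    rw [Bool.eq_false_iff, ne_eq, TS1_beq]; omega
  rw [e0, cond_false, e1, cond_false, e2, cond_false] at h11
  simp only [TS3_ands_cons] at h11
  obtain ⟨-, he', h12, h13, h14, h15, -⟩ := h11
  have he : u.e ≠ 0 := by
    intro h0
    rw [TS1_beq.2 h0] at he'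
    cases he'
  have hM : (u.sw T.t).M = mkW u.X u.Y u.e 7 := by
    show mkW u.X u.Y u.e (cond (Nat.beq u.φ 0) 7 8) = _
    rw [hφ]
    rfl
  have hrs : (u.sw T.t).R = [⟨u.e, T.t, 13⟩] := fwd_rs he
  -- the parts of the check of the event
  have h18 := h12
  unfold eventW at h18
  simp only [TS3_ands_cons] at h18
  obtain ⟨b1, b2, b3, b4, b5, b6, b7, -⟩ := h18
  have dB := TW1_base b1
  have hX : 8 ≤ u.X ∧ u.X ≤ 72 := dB.hX
  have hY : 8 ≤ u.Y ∧ u.Y + 8 ≤ T.H := dB.hY
  have hpc : pcsOkW T.A u.X u.Y (catP (mkW u.X u.Y u.e 7) (nthP S u.i)) = true := by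
    rw [← hM]
    exact dB.pcs
  have h7 : cell (patW T.A S u.X u.Y u.i (u.sw T.t).M) u.e = 7 := by
    unfold see7 at b3
    rw [Bool.and_eq_true] at b3
    exact Nat.eq_of_beq_eq_true b3.1
  -- the two contexts
  have hRE : (cxE G B0 T O u.X u.Y u.e F).R = (u.sw T.t).R := hrs.symm
  have hRA : (cxA G B0 T O u.X u.Y u.e (F.set q t) q).R = (u.sw T.t).R := hrs.symm
  have hwf : WF (cxE G B0 T O u.X u.Y u.e F) (patW T.A S u.X u.Y u.i (u.sw T.t).M)
      (kOf u.X u.Y (nthP S u.i)) := wf_base (x := u.sw T.t) (cxE_ok hT hP hF) hRE b1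
  have hray := h1.onRay hT hP
  have hqt : (F.set q t).q q = t := by rw [Far.set_q]
  obtain ⟨c1, c2, c3⟩ := fwd_cx hT hP h1 (arr' (patW T.A S u.X u.Y u.i (u.sw T.t).M) u.e)
  have hGE : R.G ((cxE G B0 T O u.X u.Y u.e F).brd (patW T.A S u.X u.Y u.i (u.sw T.t).M)) :=
    cxW_G hT hP hF.b hF.out (rayW_line hP Nat.one_pos).1 _
  have hρ : (⟨u.e, T.t, 13⟩ : Ray) ∈ (cxA G B0 T O u.X u.Y u.e (F.set q t) q).R := by
    rw [hRA, hrs]
    exact List.mem_cons_self
  have hρx : (⟨u.e, T.t, 13⟩ : Ray) ∈ (u.sw T.t).R := by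
    rw [hrs]
    exact List.mem_cons_self
  have hwfA0 : WF (cxA G B0 T O u.X u.Y u.e (F.set q t) q)
      (patW T.A S u.X u.Y u.i (u.sw T.t).M) (kOf u.X u.Y (nthP S u.i)) :=
    wf_base (x := u.sw T.t) c1 hRA b1
  have hwfA : WF (cxA G B0 T O u.X u.Y u.e (F.set q t) q)
      (arr' (patW T.A S u.X u.Y u.i (u.sw T.t).M) u.e) (kOf u.X u.Y (nthP S u.i)) :=
    LK2_wf_arr (ρ := ⟨u.e, T.t, 13⟩) c1 rfl hwfA0 hρ h7
  -- no piece of the state on the squares of the queen
  have hnoP : ∀ c, G.Outside c → ∀ v ∈ nthP S u.i, tsq O v.x v.y ≠ c := by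
    intro c hc v hv hvc
    exact fwd_out hT hc (hvc ▸ fwd_pcs hX hY dB.pcs hv)
  have hout : ¬ (InB (cxE G B0 T O u.X u.Y u.e F).o (F.q q) ∧
      cell (patW T.A S u.X u.Y u.i (u.sw T.t).M) (idx (cxE G B0 T O u.X u.Y u.e F).o (F.q q)) ≠ 15) :=
    fun hh => fwd_out hT (hF.out q trivial) (patch_reg hP hh.1)
  have hne : t ≠ F.q q := by
    rintro rfl
    exact hF.off q trivial ht
  -- the boards
  have hbE : (cxE G B0 T O u.X u.Y u.e F).brd (patW T.A S u.X u.Y u.i (u.sw T.t).M) =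
      stB (fullB G B0 F) O (nthP S u.i) := by
    rw [hM]
    exact brdW0 hT hP hF h5 hpc
  have hbA := brd_arrW hT hP hB hF hwf h7 hray hout
  have hbA' : (cxA G B0 T O u.X u.Y u.e (F.set q t) q).brd
      (arr' (patW T.A S u.X u.Y u.i (u.sw T.t).M) u.e) =
        stB (fullB G B0 (F.set q t)) O (nthP S u.i) := by
    rw [hbA, hbE]
    exact fwd_move hB hne (outside_free hT.wor (hF.out q trivial)) (hnoP _ (hF.out q trivial))
      (hnoP _ hto)
  -- the move of the queen
  have htf : ¬ G.floater t := h1.free t ht ⟨0, by rw [hqt, zero_smul, add_zero]⟩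
  have hgo : CanGo (stB (fullB G B0 F) O (nthP S u.i)) false (F.q q) t := by
    refine (canGo_far hT.geo hT.wor (fwd_farPatch hT) (A := fun _ => True) (bp := True)
      (B := stB (fullB G B0 F) O (nthP S u.i)) ?_ trivial (hF.out q trivial) hf hto htf).2.2.2
    intro c hc
    rcases fwd_stB (fullB G B0 F) O (nthP S u.i) c with ⟨v, hv, hvc, -⟩ | ⟨hvc, -⟩
    · exact absurd (hvc ▸ fwd_pcs hX hY dB.pcs hv) hc
    · exact hvc
  have hleg : Legal (stB (fullB G B0 F) O (nthP S u.i)) false (F.q q) t := by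
    refine ⟨hgo, ?_⟩
    rw [← hbE, ← hbA]
    exact room_nocheck c1 R c2 hwfA c3
  have hno : ¬ InCheck (stB (fullB G B0 F) O (nthP S u.i)) false := by
    rw [← hbE]
    exact room_nocheck (cxE_ok hT hP hF) R (cxW_sep hT hP (rayW_line hP Nat.one_pos).1) hwf hGE
  -- the king
  have hkk : sqA O T.z = sq (cxA G B0 T O u.X u.Y u.e (F.set q t) q).o
      (kOf u.X u.Y (nthP S u.i)) := by
    obtain ⟨v, L', hq⟩ : ∃ v L', nthP S u.i = v :: L' := by
      cases hn : nthP S u.i with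
      | nil =>
        have := dB.hC
        rw [hn] at this
        cases this
      | cons v L' => exact ⟨v, L', rfl⟩
    have hmem : v ∈ catP (u.sw T.t).M (nthP S u.i) := by
      rw [TW1_mem_cat, hq]
      exact Or.inr List.mem_cons_self
    have d1 := (TW1_pcs dB.pcs v hmem).1
    have d2 : tsq O v.x v.y = sq (orgP O u.X u.Y) (cellOf u.X u.Y v.x v.y) := TW1_sq rfl d1
    have d3 : kOf u.X u.Y (nthP S u.i) = cellOf u.X u.Y v.x v.y := by rw [hq]; rfl
    have d4 : kA (nthP S u.i) = v.x + 80 * v.y := by rw [hq]; rfl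
    have d5 : kA (nthP S u.i) = T.z := Nat.eq_of_beq_eq_true h14
    have d6 : u.X ≤ v.x + 8 ∧ v.x ≤ u.X + 7 ∧ u.Y ≤ v.y + 8 ∧ v.y ≤ u.Y + 7 := d1
    show sqA O T.z = sq (orgP O u.X u.Y) (kOf u.X u.Y (nthP S u.i))
    rw [d3, ← d2, ← d5, d4]
    unfold sqA
    have e1 : (v.x + 80 * v.y) % 80 = v.x := by omega
    have e2 : (v.x + 80 * v.y) / 80 = v.y := by omega
    rw [e1, e2]
  -- the next state
  have hge : GE ⟨(cxA G B0 T O u.X u.Y u.e (F.set q t) q).brd
      (patW T.A S u.X u.Y u.j₁ (mkW u.X u.Y u.e 8)), false⟩ β := by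
    rw [brdW1 hT hP h1.far hray h9 b2]
    exact hacc _ (ME2_membM _ h15) rfl
  -- the codes of the pieces
  have hcod : ∀ v ∈ nthP S u.i, (9 ≤ v.c ∧ v.c ≤ 13) ∨ v.c = 6 := by
    intro v hv
    have d1 := (TW1_pcs dB.pcs v (TW1_mem_cat.2 (Or.inr hv))).2.1
    have d2 := (TS1_allb _ _).mp h13 v hv
    rw [Bool.or_eq_true, TS1_ble, TS1_beq] at d2
    omega
  have hking := kingAt c1 hwfA
  -- the squares between the king and the queen
  have hF8 : cell (arr' (patW T.A S u.X u.Y u.i (u.sw T.t).M) u.e) u.e = 8 ∧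
      first (arr' (patW T.A S u.X u.Y u.i (u.sw T.t).M) u.e) T.t 20 (kOf u.X u.Y (nthP S u.i)) =
        u.e := by
    unfold onlyF at b6
    rw [Bool.and_eq_true, Bool.and_eq_true] at b6
    exact ⟨Nat.eq_of_beq_eq_true b6.1.1, Nat.eq_of_beq_eq_true b6.1.2⟩
  have htt : T.t ∈ orT ++ diT := List.mem_append_left _ hT.t
  obtain ⟨n₀, hS⟩ := first_spec hwfA hwfA.lt (by rw [hwfA.king]; decide) htt
    (by rw [hF8.2, hF8.1]; decide)
  rw [hF8.2] at hS
  obtain ⟨m', hm', hf', -, hcl⟩ := mark8_sees (ρ := ⟨u.e, T.t, 13⟩) c1 hwfA hwfA.lt hρ hS hF8.1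
  have hmain := eventW_ge (x := u.sw T.t) h12 (B := stB (fullB G B0 F) O (nthP S u.i))
    (a := F.q q) (b := t) hleg hno c1 hRA (by rw [← hbE]; exact hbA.symm)
    (ρ := ⟨u.e, T.t, 13⟩) hρx rfl rfl ?_ hge
  · exact hmain
  intro y l m hm hl hlm hy
  have hmm : m' = m := LC_smul_inj (LC_vec_ne htt) (add_left_cancel (hf'.symm.trans hm))
  subst hmm
  have hcan : ¬ CanGo (stB (fullB G B0 (F.set q t)) O (nthP S u.i)) true y
      (sq (cxA G B0 T O u.X u.Y u.e (F.set q t) q).o (kOf u.X u.Y (nthP S u.i)) + l • vec T.t) := by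
    refine hfarW hT hL h1 hcod ((hT.line _).2 ⟨l, hl, by rw [hkk]⟩) ?_ ?_
    · rcases Nat.lt_or_ge l m' with h2 | h2
      · left
        rw [← hbA']
        exact hcl l hl h2
      · right
        have h3 : l = m' := by omega
        have h4 : sq (cxA G B0 T O u.X u.Y u.e (F.set q t) q).o (kOf u.X u.Y (nthP S u.i)) +
            l • vec T.t = t := by
          have h5 : (cxA G B0 T O u.X u.Y u.e (F.set q t) q).f u.e = (F.set q t).q q := if_pos rfl
          rw [h3]
          exact hf'.symm.trans (h5.trans hqt)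
        rw [h4]
        exact hnoP t hto
    · rw [← hbA']
      intro h2
      exact hy (hking.2 y h2)
  have e3 : (cxA G B0 T O u.X u.Y u.e (F.set q t) q).brd
      (arr' (patW T.A S (u.sw T.t).X (u.sw T.t).Y u.i (u.sw T.t).M) u.e) =
        stB (fullB G B0 (F.set q t)) O (nthP S u.i) := hbA'
  rw [e3]
  exact hcan

/-- chunk FWD: **a group of items, phase 0, lower bound** -/
theorem grpWL_0 {S : List (List Pc)} {acc : List Mo} {L : List WL} (h : grpWL T S acc L = true)
    (hw : wtOk T = true)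
    (hT : WinT G B0 s R T O) (hL : WhiteL G B0 s)
    (hP : ∀ u ∈ L, u.e ≠ 0 → WinP G B0 s T O u.X u.Y u.e) {F : Far} (hB : FBase G F)
    (hF : FarS G s F (fun _ => True)) {q : Qn} {t : Sq} (ht : G.line s t) (hto : G.Outside t)
    (hf : FarL G F q t) (h1 : Ph1 G s T (F.set q t) q) {β : Ordinal.{0}}
    (hacc : ∀ m ∈ acc, m.k = 0 → GE (PFw G B0 S O F m.j) β)
    (hacc1 : ∀ m ∈ acc, m.k = 1 → GE (PFw G B0 S O (F.set q t) m.j) β) :
    ∀ m ∈ keysWL L acc, m.k = 0 → GE (PFw G B0 S O F m.j) β := by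
  induction L with
  | nil => exact hacc
  | cons u L ih =>
    have e1 : grpWL T S acc (u :: L) = (wlOk T S (keysWL L acc) u
      (patW T.A S u.X u.Y u.i (u.sw T.t).M) (kOf u.X u.Y (nthP S u.i)) && grpWL T S acc L) := rfl
    have e2 : keysWL (u :: L) acc = ⟨u.i, u.φ⟩ :: keysWL L acc := rfl
    rw [e1, Bool.and_eq_true] at h
    obtain ⟨h3, h4⟩ := h
    have hPL : ∀ v ∈ L, v.e ≠ 0 → WinP G B0 s T O v.X v.Y v.e :=
      fun v hv => hP v (List.mem_cons_of_mem _ hv)
    have ih' := ih h4 hPL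
    have ih1 := grpWL_1 h4 hT hPL h1 hacc1
    rw [e2]
    intro m hm hk
    rcases List.mem_cons.1 hm with rfl | hm
    · have hφ : u.φ = 0 := hk
      have hacc' : ∀ m ∈ keysWL L acc, m.k = u.φ → GE (PFw G B0 S O F m.j) β := by
        rw [hφ]
        exact ih'
      by_cases he : u.e = 0
      · exact (fwd_item0 h3 he hT hF.b (fun r => hF.out r trivial) hacc').1
      have hP' := hP u List.mem_cons_self he
      by_cases hkd : u.kd = 0 ∨ u.kd = 1 ∨ u.kd = 2
      · have hM : (u.sw T.t).M = mkW u.X u.Y u.e 7 := by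
          show mkW u.X u.Y u.e (cond (Nat.beq u.φ 0) 7 8) = _
          rw [hφ]
          rfl
        refine (fwd_item h3 hkd hacc' (cxE_ok hT hP' hF) (fwd_rs he).symm
          (cxW_sep hT hP' (rayW_line hP' Nat.one_pos).1)
          (cxW_G hT hP' hF.b hF.out (rayW_line hP' Nat.one_pos).1 _) ?_).1
        intro j hj hp _
        rw [hM] at hp ⊢
        exact brdW0 hT hP' hF hj hp
      · push Not at hkd
        exact evW_ge h3 hφ hkd hw hT hL hP' hB hF ht hto hf h1 ih1
    · exact ih' m hm hk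

/-- chunk FWD: the strict form for the first item, which has kind `0` and no ray -/
theorem wl_strict {S : List (List Pc)} {acc : List Mo} {u : WL}
    (h : wlOk T S acc u (patW T.A S u.X u.Y u.i (u.sw T.t).M) (kOf u.X u.Y (nthP S u.i)) = true)
    (he : u.e = 0) (hk : u.kd = 0)
    (hT : WinT G B0 s R T O) {F : Far} (hb : BOk G F) (hA : ∀ q, G.Outside (F.q q)) {β : Ordinal.{0}}
    (hacc : ∀ m ∈ acc, m.k = u.φ → GE (PFw G B0 S O F m.j) β) :
    ¬ ValLE (PFw G B0 S O F u.i) β :=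
  (fwd_item0 h he hT hb hA hacc).2 hk

end Pool.Agent.Lib.H32C.Loc
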