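import Pool.Agent.Lib.H32C.FwD

/-!
# Chunk FWE: the checks of window tiles and their patches
-/

set_option autoImplicit false

namespace Pool.Agent.Lib.H32C.Loc

variable {G : FGeo} {B0 : Board} {s : Svc} {R : Room} {T : WT} {O : Sq} {X Y e : Nat}

/-- what `upA` says -/
theorem upA_spec {T : WT} {f : Nat → Bool} (n : Nat) {j : Nat} (h : upA T f n j = true) :
    ∀ i : ℕ, (∀ i' ≤ i, inA2 T.H (itA T.t j i') = true) → f (itA T.t j i) = true := by
  induction n generalizing j with
  | zero => cases h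
  | succ n ih =>
    intro i hi
    have h' : cond (inA2 T.H j) (f j && upA T f n (stA T.t j)) true = true := h
    have h0 : inA2 T.H j = true := hi 0 (Nat.zero_le _)
    rw [h0, cond_true, Bool.and_eq_true] at h'
    rcases Nat.eq_zero_or_pos i with hz | hpos
    · rw [hz]
      exact h'.1
    · obtain ⟨i', rfl⟩ : ∃ k, i = k + 1 := ⟨i - 1, by omega⟩
      rw [mb_itA_succ]
      apply ih h'.2 i'
      intro k hk
      have h1 := hi (k + 1) (by omega)
      rwa [mb_itA_succ] at h1

/-! helpers of chunk FWE -/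

theorem fwe_inA2 {H j : Nat} : inA2 H j = true ↔ sqA O j ∈ CoreH 2 H O := by
  constructor
  · intro h
    have h1 := ma_inA2 h
    unfold CoreH sqA tsq
    simp only [Set.mem_ofPred_eq]
    omega
  · intro h
    unfold CoreH sqA tsq at h
    simp only [Set.mem_ofPred_eq] at h
    have e1 : Nat.mod j 80 = j % 80 := rfl
    have e2 : Nat.add j 160 = j + 160 := rfl
    have e3 : Nat.mul 80 H = 80 * H := rfl
    unfold inA2
    rw [Bool.and_eq_true, Bool.and_eq_true, Bool.and_eq_true, TS1_ble, TS1_ble, TS1_ble]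
    unfold Nat.blt
    rw [TS1_ble, e1, e2, e3]
    omega

theorem fwe_near {X Y j : Nat} : nearA X Y j = true ↔ sqA O j ∈ inP O X Y := by
  unfold nearA
  rw [TS1_near]
  unfold inP sqA tsq
  simp only [Set.mem_ofPred_eq]
  have e1 : Nat.mod j 80 = j % 80 := rfl
  have e2 : Nat.div j 80 = j / 80 := rfl
  rw [e1, e2]
  omega

theorem fwe_conv {m : ℤ} {H : Nat} {a v : Sq} {n i : ℕ} (hv1 : v.1 = -1 ∨ v.1 = 0 ∨ v.1 = 1)
    (hv2 : v.2 = -1 ∨ v.2 = 0 ∨ v.2 = 1) (h0 : a ∈ CoreH m H O) (hn : a + n • v ∈ CoreH m H O)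
    (hi : i ≤ n) : a + i • v ∈ CoreH m H O := by
  unfold CoreH at *
  simp only [Set.mem_ofPred_eq, add_nsmul_fst, add_nsmul_snd] at *
  rcases hv1 with h | h | h <;> rcases hv2 with h' | h' | h' <;> simp only [h, h'] at * <;> omega

theorem fwe_convP {a v : Sq} {n i : ℕ} (hv1 : v.1 = -1 ∨ v.1 = 0 ∨ v.1 = 1)
    (hv2 : v.2 = -1 ∨ v.2 = 0 ∨ v.2 = 1) (h0 : a ∈ inP O X Y) (hn : a + n • v ∈ inP O X Y)
    (hi : i ≤ n) : a + i • v ∈ inP O X Y := by
  unfold inP at *
  simp only [Set.mem_ofPred_eq, add_nsmul_fst, add_nsmul_snd] at *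
  rcases hv1 with h | h | h <;> rcases hv2 with h' | h' | h' <;> simp only [h, h'] at * <;> omega

theorem fwe_it {H t : Nat} (ht : t ∈ orT ++ diT ++ knT) (j : Nat) (n : ℕ)
    (h : ∀ i ≤ n, sqA O j + i • vec t ∈ CoreH 2 H O) :
    ∀ i ≤ n, sqA O (itA t j i) = sqA O j + i • vec t ∧ inA2 H (itA t j i) = true := by
  intro i
  induction i with
  | zero =>
    intro _
    have h0 := h 0 (Nat.zero_le _)
    rw [zero_smul, add_zero] at h0 ⊢
    exact ⟨rfl, fwe_inA2.2 h0⟩
  | succ i ih =>
    intro hi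
    obtain ⟨h1, h2⟩ := ih (by omega)
    have h3 := (sqA_stA2 (O := O) ht h2).1
    have h4 : sqA O (itA t j (i + 1)) = sqA O j + (i + 1) • vec t := by
      rw [mb_itA_s, h3, h1, succ_nsmul, add_assoc]
    have h5 := h (i + 1) hi
    rw [← h4] at h5
    exact ⟨h4, fwe_inA2.2 h5⟩

theorem fwe_onL {t z : Nat} (n : Nat) : ∀ {j : Nat}, onL t z n j = true → ∃ i < n, itA t j i = z := by
  induction n with
  | zero =>
    intro j h
    cases h
  | succ n ih =>
    intro j h
    have h' : (Nat.beq j z || onL t z n (stA t j)) = true := h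
    rw [Bool.or_eq_true, TS1_beq] at h'
    rcases h' with h' | h'
    · exact ⟨0, Nat.succ_pos _, h'⟩
    · obtain ⟨i, hi, h1⟩ := ih h'
      refine ⟨i + 1, by omega, ?_⟩
      rw [mb_itA_succ]
      exact h1

theorem fwe_it43 (j i : Nat) : itA 43 j i = j + i := by
  induction i with
  | zero => rfl
  | succ i ih =>
    rw [mb_itA_s, ih, ma_stA]
    omega

theorem fwe_it41 (j i : Nat) : itA 41 j i = j - i := by
  induction i with
  | zero => rfl
  | succ i ih =>
    rw [mb_itA_s, ih, ma_stA]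
    omega

theorem fwe_it62 (j i : Nat) : itA 62 j i = j + 80 * i := by
  induction i with
  | zero => rfl
  | succ i ih =>
    rw [mb_itA_s, ih, ma_stA]
    omega

theorem fwe_it22 (j i : Nat) : itA 22 j i = j - 80 * i := by
  induction i with
  | zero => rfl
  | succ i ih =>
    rw [mb_itA_s, ih, ma_stA]
    omega

theorem fwe_v43 : vec 43 = (1, 0) := by decide
theorem fwe_v41 : vec 41 = (-1, 0) := by decide
theorem fwe_v62 : vec 62 = (0, 1) := by decide
theorem fwe_v22 : vec 22 = (0, -1) := by decide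

theorem fwe_or {t : Nat} (ht : t ∈ orT) : t = 43 ∨ t = 62 ∨ t = 41 ∨ t = 22 := by
  simpa only [orT, List.mem_cons, List.not_mem_nil, or_false] using ht

/-- the steps from a cell near the centre to a cell near the centre are exact -/
theorem fwe_exact {t j i : Nat} (ht : t ∈ orT) (_hX : 11 ≤ X ∧ X ≤ 68) (hY : 11 ≤ Y)
    (h1 : sqA O j ∈ inP O X Y) (h2 : sqA O (itA t j i) ∈ inP O X Y) (hi : i ≤ 15) :
    sqA O (itA t j i) = sqA O j + i • vec t := by
  unfold inP sqA tsq at h1 h2
  simp only [Set.mem_ofPred_eq] at h1 h2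
  unfold sqA tsq
  ext
  · rw [add_nsmul_fst]
    rcases fwe_or ht with rfl | rfl | rfl | rfl
    · rw [fwe_it43] at *
      rw [fwe_v43]
      dsimp only
      omega
    · rw [fwe_it62] at *
      rw [fwe_v62]
      dsimp only
      omega
    · rw [fwe_it41] at *
      rw [fwe_v41]
      dsimp only
      omega
    · rw [fwe_it22] at *
      rw [fwe_v22]
      dsimp only
      omega
  · rw [add_nsmul_snd]
    rcases fwe_or ht with rfl | rfl | rfl | rfl
    · rw [fwe_it43] at *
      rw [fwe_v43]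
      dsimp only
      omega
    · rw [fwe_it62] at *
      rw [fwe_v62]
      dsimp only
      omega
    · rw [fwe_it41] at *
      rw [fwe_v41]
      dsimp only
      omega
    · rw [fwe_it22] at *
      rw [fwe_v22]
      dsimp only
      omega

/-- beyond the mark the ray has left the patch -/
theorem fwe_out {t : Nat} (ht : t ∈ orT) (he : Inner e) (ho : ¬ Inner (stp t e)) {n : ℕ}
    (hn : 0 < n) : sq (orgP O X Y) e + n • vec t ∉ inP O X Y := by
  have e1 : stp t e = e + t - 42 := rfl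
  rw [e1] at ho
  unfold Inner at he ho
  unfold inP sq orgP
  rw [Set.mem_ofPred_eq, add_nsmul_fst, add_nsmul_snd]
  rcases fwe_or ht with rfl | rfl | rfl | rfl
  · rw [fwe_v43]
    dsimp only
    omega
  · rw [fwe_v62]
    dsimp only
    omega
  · rw [fwe_v41]
    dsimp only
    omega
  · rw [fwe_v22]
    dsimp only
    omega

/-- the mark belongs to the inner squares -/
theorem fwe_markP (he : Inner e) : sq (orgP O X Y) e ∈ inP O X Y := by
  unfold Inner at he
  unfold inP sq orgP
  simp only [Set.mem_ofPred_eq]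
  omega

theorem fwe_mark (he : Inner e) (hX : 8 ≤ X ∧ X ≤ 72) (hY : 8 ≤ Y) :
    sqA O (zA X Y (T.ray e) 0) = sq (orgP O X Y) e := by
  rw [ma_zA_zero]
  have e1 : (T.ray e).e = e := rfl
  rw [e1]
  unfold Inner at he
  unfold sq orgP sqA tsq
  ext
  · dsimp only
    omega
  · dsimp only
    omega

theorem fwe_side {mv : List Mo} {M : MT} {t j : Nat} (h : sideA M X Y mv t j = true) :
    ∀ u ∈ orT ++ diT, u ≠ t → u + t ≠ 84 → scanA M X Y mv u 90 j = true := by
  intro u hu hne hop
  unfold sideA at h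
  rw [Bool.and_eq_true, aO_iff, aD_iff] at h
  have key : ((Nat.beq u t || Nat.beq (Nat.add u t) 84) || scanA M X Y mv u 90 j) = true := by
    rcases List.mem_append.1 hu with h7 | h7
    · exact h.1 u h7
    · exact h.2 u h7
  rw [Bool.or_eq_true, Bool.or_eq_true, TS1_beq, TS1_beq] at key
  rcases key with (h7 | h7) | h7
  · exact absurd h7 hne
  · exact absurd h7 hop
  · exact h7

/-- a line between two squares as a step -/
theorem fwe_line {a c : Sq} (h : OrthI a c ∨ DiagI a c) :
    ∃ u ∈ orT ++ diT, ∃ l : ℕ, 0 < l ∧ a = c + l • vec u ∧ (u ∈ orT → OrthI a c) ∧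
      (u ∈ diT → DiagI a c) := by
  rcases h with h | h
  · have h' : OrthI c a := by
      unfold OrthI at *
      omega
    obtain ⟨d, hd, l, hl, hl'⟩ := (orth_iff c a).2 h'
    obtain ⟨u, hu, rfl⟩ := or_vec hd
    refine ⟨u, List.mem_append_left _ hu, l, hl, hl', fun _ => h, fun hu' => ?_⟩
    exact absurd hu (LD_disj u hu')
  · have h' : DiagI c a := by
      unfold DiagI at *
      omega
    obtain ⟨d, hd, l, hl, hl'⟩ := (diag_iff c a).2 h'
    obtain ⟨u, hu, rfl⟩ := di_vec hd
    refine ⟨u, List.mem_append_right _ hu, l, hl, hl', fun hu' => ?_, fun _ => h⟩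
    exact absurd hu' (LD_disj u hu)

/-- the facts of the check of a patch -/
theorem fwe_wp {T : WT} (h : wpOk T X Y e = true) :
    11 ≤ X ∧ X ≤ 68 ∧ 11 ≤ Y ∧ Y + 11 ≤ T.H ∧ Inner e ∧ ¬ Inner (stp T.t e) ∧
    nearA X Y (stA T.t T.z) = true ∧ onL T.t (zA X Y (T.ray e) 0) 16 (stA T.t T.z) = true ∧
    (∀ u ∈ orT ++ diT, u ≠ T.t → ¬ Inner (stp u e) →
      pnA T (stA u (zA X Y (T.ray e) 0)) = true) ∧
    upA T (sideA T.mt X Y [] T.t) 150 (zA X Y (T.ray e) 1) = true := by
  unfold wpOk at h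
  simp only [TS3_ands_cons] at h
  obtain ⟨h1, h2, h3, h4, h5, h6, h7, h8, h9, h10, h11, -⟩ := h
  rw [TS1_ble] at h1 h2 h3 h4
  have e1 : Nat.add Y 11 = Y + 11 := rfl
  rw [e1] at h4
  rw [decide_eq_true_eq] at h5 h6
  rw [aO_iff] at h9
  rw [aD_iff] at h10
  refine ⟨h1, h2, h3, h4, h5, h6, h7, h8, ?_, h11⟩
  intro u hu hne ho
  have key : ((Nat.beq u T.t || !outC (stp u e)) || pnA T (stA u (zA X Y (T.ray e) 0))) = true := by
    rcases List.mem_append.1 hu with h | h
    · exact h9 u h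
    · exact h10 u h
  rw [Bool.or_eq_true, Bool.or_eq_true, TS1_beq, Bool.not_eq_true'] at key
  rcases key with (h | h) | h
  · exact absurd h hne
  · rw [(outC_iff _).2 ho] at h
    cases h
  · exact h

/-- the facts of the check of a window tile -/
theorem fwe_wt {T : WT} (hw : wtOk T = true) :
    20 ≤ T.H ∧ inA2 T.H T.z = true ∧ whiteUp T = true := by
  unfold wtOk at hw
  simp only [TS3_ands_cons] at hw
  obtain ⟨-, h1, h2, h3, -⟩ := hw
  rw [TS1_ble] at h1
  exact ⟨h1, h2, h3⟩

theorem fwe_data (hT : WinT G B0 s R T O) (hw : wtOk T = true) (h : wpOk T X Y e = true) :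
    ∃ i₀ : ℕ, 0 < i₀ ∧ sq (orgP O X Y) e = sqA O T.z + i₀ • vec T.t ∧
      sqA O T.z + 1 • vec T.t ∈ inP O X Y := by
  obtain ⟨h1, h2, h3, h4, h5, h6, h7, h8, h9, h10⟩ := fwe_wp h
  obtain ⟨-, hz, -⟩ := fwe_wt hw
  have hs := (sqA_stA2 (O := O) (List.mem_append_left _ (List.mem_append_left _ hT.t)) hz).1
  have hn : sqA O (stA T.t T.z) ∈ inP O X Y := fwe_near.1 h7
  obtain ⟨i, hi, hi'⟩ := fwe_onL 16 h8
  have hm := fwe_mark (T := T) (O := O) (X := X) (Y := Y) h5 ⟨by omega, by omega⟩ (by omega)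
  have hx := fwe_exact (i := i) (j := stA T.t T.z) hT.t ⟨h1, h2⟩ h3 hn
    (by rw [hi', hm]; exact fwe_markP h5) (by omega)
  refine ⟨i + 1, by omega, ?_, ?_⟩
  · rw [← hm, ← hi', hx, hs, succ_nsmul', add_assoc]
  · rw [one_smul, ← hs]
    exact hn

theorem fwe_lineP (hT : WinT G B0 s R T O) (hw : wtOk T = true) (h : wpOk T X Y e = true)
    (c : Sq) : (G.line s c ∧ c ∉ inP O X Y) ↔ ∃ n : ℕ, 0 < n ∧ c = rayW T O X Y e n := by
  obtain ⟨i₀, hi₀, he, h1⟩ := fwe_data hT hw h
  obtain ⟨_, _, _, _, h5, h6, _⟩ := fwe_wp h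
  obtain ⟨v1, v2⟩ := fwe_vec (List.mem_append_left diT hT.t)
  constructor
  · rintro ⟨hc, hcp⟩
    obtain ⟨n, hn, rfl⟩ := (hT.line c).1 hc
    have hlt : i₀ < n := by
      by_contra hle
      apply hcp
      have h2 : sqA O T.z + 1 • vec T.t + (i₀ - 1) • vec T.t ∈ inP O X Y := by
        rw [add_assoc, ← add_smul, show 1 + (i₀ - 1) = i₀ by omega, ← he]
        exact fwe_markP h5
      have h3 := fwe_convP (i := n - 1) v1 v2 h1 h2 (by omega)
      rwa [add_assoc, ← add_smul, show 1 + (n - 1) = n by omega] at h3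
    refine ⟨n - i₀, by omega, ?_⟩
    unfold rayW
    rw [he, add_assoc, ← add_smul, show i₀ + (n - i₀) = n by omega]
  · rintro ⟨n, hn, rfl⟩
    refine ⟨(hT.line _).2 ⟨i₀ + n, by omega, ?_⟩, fwe_out hT.t h5 h6 hn⟩
    unfold rayW
    rw [he, add_assoc, ← add_smul]

theorem fwe_axisP (hT : WinT G B0 s R T O) (hw : wtOk T = true) (h : wpOk T X Y e = true)
    (c : Sq) : G.axis s c ↔ ∃ j : ℤ, c = sq (orgP O X Y) e + j • vec T.t := by
  obtain ⟨i₀, hi₀, he, h1⟩ := fwe_data hT hw h
  rw [hT.axis, he, ← natCast_zsmul]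
  constructor
  · rintro ⟨j, rfl⟩
    refine ⟨j - i₀, ?_⟩
    rw [add_assoc, ← add_smul, show (i₀ : ℤ) + (j - i₀) = j by ring]
  · rintro ⟨j, rfl⟩
    refine ⟨i₀ + j, ?_⟩
    rw [add_assoc, ← add_smul]

theorem fwe_inCore (hX : 11 ≤ X ∧ X ≤ 68) (hY : 11 ≤ Y) {H : Nat} (hH : Y + 11 ≤ H) {c : Sq}
    (hc : c ∈ inP O X Y) : c ∈ CoreH 3 H O := by
  unfold inP at hc
  unfold CoreH
  rw [Set.mem_ofPred_eq] at *
  omega

theorem fwe_core32 {H : Nat} {c : Sq} (hc : c ∈ CoreH 3 H O) : c ∈ CoreH 2 H O := by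
  unfold CoreH at *
  rw [Set.mem_ofPred_eq] at *
  omega

theorem fwe_coreReg {H : Nat} {c : Sq} (hc : c ∈ CoreH 2 H O) : c ∈ TileRegH H O := by
  unfold CoreH at hc
  unfold TileRegH
  rw [Set.mem_ofPred_eq] at *
  omega

theorem fwe_side_block (hT : WinT G B0 s R T O) (hw : wtOk T = true) (h : wpOk T X Y e = true)
    {c : Sq} (hc : G.line s c) (hcp : c ∉ inP O X Y) {a : Sq} {κ : Kind}
    (ha : B0 a = some (false, κ)) (hκ : κ = Kind.queen ∨ κ = Kind.rook) (hax : ¬ G.axis s a)
    (hac : OrthI a c ∨ (κ = Kind.queen ∧ DiagI a c)) :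
    ∃ d, BetwI a c d ∧ d ∉ inP O X Y ∧ B0 d ≠ none := by
  obtain ⟨g1, g2, g3, g4, g5, g6, g7, g8, g9, g10⟩ := fwe_wp h
  by_cases hcore : c ∈ CoreH 2 T.H O
  · obtain ⟨n, hn, rfl⟩ := (fwe_lineP hT hw h c).1 ⟨hc, hcp⟩
    obtain ⟨v1, v2⟩ := fwe_vec (List.mem_append_left diT hT.t)
    have hm := fwe_mark (T := T) (O := O) (X := X) (Y := Y) g5 ⟨by omega, by omega⟩ (by omega)
    have hmc : sq (orgP O X Y) e ∈ CoreH 2 T.H O :=
      fwe_core32 (fwe_inCore ⟨g1, g2⟩ g3 g4 (fwe_markP g5))
    have hall : ∀ i ≤ n, sqA O (zA X Y (T.ray e) 0) + i • vec T.t ∈ CoreH 2 T.H O := by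
      intro i hi
      rw [hm]
      exact fwe_conv v1 v2 hmc hcore hi
    have hit := fwe_it (List.mem_append_left _ (List.mem_append_left _ hT.t)) _ n hall
    have hz1 : zA X Y (T.ray e) 1 = stA T.t (zA X Y (T.ray e) 0) := rfl
    rw [hz1] at g10
    have hup := upA_spec 150 g10 (n - 1) (by
      intro i' hi'
      rw [← mb_itA_succ]
      exact (hit (i' + 1) (by omega)).2)
    rw [← mb_itA_succ, show n - 1 + 1 = n by omega] at hup
    have hcq : sqA O (itA T.t (zA X Y (T.ray e) 0) n) = rayW T O X Y e n := by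
      rw [(hit n le_rfl).1, hm]
      rfl
    obtain ⟨j, hj⟩ : ∃ j, j = itA T.t (zA X Y (T.ray e) 0) n := ⟨_, rfl⟩
    rw [← hj] at hup hcq
    obtain ⟨u, hu, l, hl, hal, huo, hud⟩ := fwe_line (hac.imp id (fun h => h.2))
    -- the line is not the axis
    have haxis : ∀ k : ℤ, a ≠ rayW T O X Y e n + k • vec T.t := by
      intro k hk
      apply hax
      rw [fwe_axisP hT hw h]
      refine ⟨n + k, ?_⟩
      rw [hk]
      unfold rayW
      rw [add_assoc, add_smul, natCast_zsmul]
    have hne : u ≠ T.t := by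
      rintro rfl
      apply haxis l
      rw [hal, natCast_zsmul]
    have hop : u + T.t ≠ 84 := by
      intro hh
      have hou : opp T.t = u := by
        unfold opp
        omega
      have hv : vec u = - vec T.t := by
        rw [← hou]
        exact (opp_spec (List.mem_append_left _ hT.t)).2.1
      apply haxis (-l)
      rw [hal, hv, neg_smul, natCast_zsmul, smul_neg]
    obtain ⟨L, hL, k1, k2, k3, k4, k5, k6⟩ := scanA_spec 90 (fwe_side hup u hu hne hop)
    have hsq := mb_sq (T := T.mt) (O := O) hu (fun i h0 hi => (k1 i h0 hi).1)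
    have hfit : ∀ i : ℕ, 0 < i → i ≤ L → B0 (sqA O j + i • vec u) = dec (cell T.A (itA u j i)) ∧
        msk (slM u) (cell T.A (itA u j i)) = false := by
      intro i h0 hi
      obtain ⟨m1, -, m2⟩ := k1 i h0 hi
      rcases m2 with ⟨-, m2⟩ | ⟨m2, m3⟩
      · exact absurd m2 List.not_mem_nil
      · rw [← hsq i hi]
        exact ⟨cell_sqA hT.fits (inA_lt m1).1 m2, m3⟩
    rcases Nat.lt_or_ge L l with hLl | hLl
    · refine ⟨rayW T O X Y e n + L • vec u, fwe_betw hu hal hL hLl rfl, ?_, ?_⟩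
      · rw [← hcq, ← hsq L le_rfl, ← fwe_near, k5]
        exact Bool.false_ne_true
      · rw [← hcq, (hfit L hL le_rfl).1]
        exact mb_mskDec _ (cell_lt _ _) k6
    · exfalso
      obtain ⟨m1, m2⟩ := hfit l hl hLl
      rw [hcq, ← hal, ha] at m1
      have hslk : SlK κ u := by
        rcases hκ with rfl | rfl
        · exact Or.inl rfl
        · rcases List.mem_append.1 hu with h7 | h7
          · exact Or.inr (Or.inl ⟨h7, rfl⟩)
          · exfalso
            rcases hac with h8 | ⟨h8, -⟩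
            · have h9 := hud h7
              unfold DiagI at h9
              unfold OrthI at h8
              omega
            · cases h8
      have m3 := (slM_iff hu (cell_lt T.A (itA u j l))).2 ⟨κ, m1.symm, hslk⟩
      rw [m2] at m3
      cases m3
  · obtain ⟨d, hd, hd3, hd0⟩ := hT.closed c hc hcore a κ ha hκ hax hac
    exact ⟨d, hd, fun hd' => hd3 (fwe_inCore ⟨g1, g2⟩ g3 g4 hd'), hd0⟩

theorem fwe_pn : ∀ c < 16, msk 0x606 c = true →
    ∃ m, dec c = some m ∧ (m.2 = Kind.pawn ∨ m.2 = Kind.knight) := by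
  intro c hc h
  interval_cases c <;> first | (exact absurd h (by decide)) | exact ⟨_, rfl, Or.inl rfl⟩ |
    exact ⟨_, rfl, Or.inr rfl⟩

/-- chunk FWE: the facts about a patch from its check.  `closed`: for the squares of the line in `CoreH 2` by the
scans `sideA` (a static piece in direction `u`, outside of the inner squares, is met before a Black queen or rook), for
the others by `WinT.closed`, since the inner squares lie in `CoreH 3` -/
theorem winP_of (hT : WinT G B0 s R T O) (hw : wtOk T = true) (h : wpOk T X Y e = true) :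
    WinP G B0 s T O X Y e := by
  obtain ⟨g1, g2, g3, g4, g5, g6, g7, g8, g9, g10⟩ := fwe_wp h
  refine ⟨⟨by omega, by omega⟩, ⟨by omega, by omega⟩, g5, g6, fwe_lineP hT hw h,
    fwe_axisP hT hw h, ?_, ?_⟩
  · intro c hc hcp a κ ha hκ hax hac
    exact fwe_side_block hT hw h hc hcp ha hκ hax hac
  · intro u hu hne ho
    have h1 := g9 u hu hne ho
    unfold pnA at h1
    rw [Bool.and_eq_true] at h1
    have hm := fwe_mark (T := T) (O := O) (X := X) (Y := Y) g5 ⟨by omega, by omega⟩ (by omega)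
    obtain ⟨m, h2, h3⟩ := fwe_pn _ (cell_lt T.A (stA u (zA X Y (T.ray e) 0))) h1.2
    have h15 : cell T.A (stA u (zA X Y (T.ray e) 0)) ≠ 15 := by
      intro h4
      rw [h4] at h2
      cases h2
    refine ⟨m, ?_, h3⟩
    rw [← hm, ← sqA_stA hu h1.1, cell_sqA hT.fits (inA_lt h1.1).1 h15, h2]

/-! White pieces -/

theorem fwe_scanW {M : MT} (hst : M.st = []) {u : Nat} (n : Nat) : ∀ {j : Nat},
    scanW M u n j = true →
    ∃ L : ℕ, 0 < L ∧ (∀ i : ℕ, 0 < i → i ≤ L → inA M.H (itA u j i) = true ∧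
      cell M.A (itA u j i) ≠ 15 ∧
      msk (cond (aO fun v => !Nat.beq v u) 0x28 0x30) (cell M.A (itA u j i)) = false) ∧
      msk 0x7e7e (cell M.A (itA u j L)) = true := by
  induction n with
  | zero =>
    intro j h
    cases h
  | succ n ih =>
    intro j h
    have h' : (inA M.H (stA u j) &&
      cond (Nat.beq (cell M.A (stA u j)) 15) (memb (stA u j) M.st && scanW M u n (stA u j))
        (!msk (cond (aO fun v => !Nat.beq v u) 0x28 0x30) (cell M.A (stA u j)) &&
          cond (Nat.beq (cell M.A (stA u j)) 0) (scanW M u n (stA u j))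
            (msk 0x7e7e (cell M.A (stA u j))))) = true := h
    rw [Bool.and_eq_true] at h'
    obtain ⟨h1, h2⟩ := h'
    have h15 : cell M.A (stA u j) ≠ 15 := by
      intro h15
      rw [h15, hst] at h2
      cases h2
    rw [mc_beq_false.2 h15, cond_false, Bool.and_eq_true, Bool.not_eq_true'] at h2
    obtain ⟨h3, h4⟩ := h2
    by_cases h0 : cell M.A (stA u j) = 0
    · have h5 : scanW M u n (stA u j) = true := by
        rw [h0] at h4
        exact h4
      obtain ⟨L, hL, k1, k2⟩ := ih h5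
      refine ⟨L + 1, Nat.succ_pos _, ?_, ?_⟩
      · intro i hi hiL
        obtain ⟨i', rfl⟩ : ∃ i', i = i' + 1 := ⟨i - 1, by omega⟩
        rw [mb_itA_succ]
        rcases Nat.eq_zero_or_pos i' with hz | hz
        · rw [hz]
          exact ⟨h1, h15, h3⟩
        · exact k1 i' hz (by omega)
      · rw [mb_itA_succ]
        exact k2
    · rw [mc_beq_false.2 h0, cond_false] at h4
      refine ⟨1, Nat.one_pos, ?_, h4⟩
      intro i hi hi1
      obtain rfl : i = 1 := by omega
      exact ⟨h1, h15, h3⟩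

theorem fwe_maskW {u c : Nat} (_hu : u ∈ orT ++ diT) (hc : c < 16) {κ : Kind} (hκ : SlK κ u)
    (hd : dec c = some (true, κ)) :
    msk (cond (aO fun v => !Nat.beq v u) 0x28 0x30) c = true := by
  have h4 : c = 5 ∨ (u ∈ orT ∧ c = 4) ∨ (u ∈ diT ∧ c = 3) := by
    rcases hκ with h6 | ⟨h7, h6⟩ | ⟨h7, h6⟩ <;> subst h6 <;>
      rcases mf1_dec hd with h | h | h | h | h | h <;>
      first | (exact absurd h.2 (by decide)) | (exact Or.inl h.1) |
        (exact Or.inr (Or.inl ⟨h7, h.1⟩)) | (exact Or.inr (Or.inr ⟨h7, h.1⟩))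
  cases ha : (aO fun v => !Nat.beq v u) with
  | true =>
    have hno : u ∉ orT := by
      rw [← mc_aO, ha]
      intro hh
      cases hh
    rw [cond_true]
    exact (mf1_maskLt c hc).1.2 (by
      rcases h4 with h4 | h4 | h4
      · exact Or.inr h4
      · exact absurd h4.1 hno
      · exact Or.inl h4.2)
  | false =>
    have hno : u ∈ orT := by
      rw [← mc_aO, ha]
      rfl
    rw [cond_false]
    exact (mf1_maskLt c hc).2.1.2 (by
      rcases h4 with h4 | h4 | h4
      · exact Or.inr h4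
      · exact Or.inl h4.2
      · exact absurd hno (LD_disj u h4.1))

theorem fwe_farOut {t : Nat} (ht : t ∈ orT) {H : Nat} {a : Sq} (ha : a ∈ CoreH 2 H O) (n : ℕ) :
    a + (n + 80 + H) • vec t ∉ CoreH 2 H O := by
  unfold CoreH at *
  rw [Set.mem_ofPred_eq] at *
  rw [add_nsmul_fst, add_nsmul_snd]
  rcases fwe_or ht with rfl | rfl | rfl | rfl
  · rw [fwe_v43]
    dsimp only
    omega
  · rw [fwe_v62]
    dsimp only
    omega
  · rw [fwe_v41]
    dsimp only
    omega
  · rw [fwe_v22]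
    dsimp only
    omega

/-- White sliders are blocked -/
theorem fwe_whiteSlide (hT : WinT G B0 s R T O) {n : ℕ} (hn : 0 < n)
    (hz0 : sqA O T.z ∈ CoreH 2 T.H O) {z : Nat} (hz : sqA O z = sqA O T.z + n • vec T.t)
    (hZ : ∀ u ∈ orT ++ diT, u ≠ T.t → u + T.t ≠ 84 → scanW T.mt u 90 z = true)
    {a : Sq} {κ : Kind} (ha : B0 a = some (true, κ)) {u : Nat} (hu : u ∈ orT ++ diT)
    (hslk : SlK κ u) {l : ℕ} (hl : 0 < l) (hal : a = sqA O z + l • vec u) :
    ∃ d, BetwI a (sqA O z) d ∧ d ∉ (∅ : Set Sq) ∧ B0 d ≠ none := by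
  by_cases hut : u = T.t
  · exfalso
    have h1 : G.line s a := by
      rw [hT.line]
      refine ⟨n + l, by omega, ?_⟩
      rw [hal, hz, hut, add_assoc, ← add_smul]
    have h2 := hT.clear a h1
    rw [ha] at h2
    cases h2
  by_cases hop : u + T.t = 84
  · have hou : opp T.t = u := by
      unfold opp
      omega
    have ho := opp_spec (List.mem_append_left diT hT.t)
    have huo : u ∈ orT := by
      rw [← hou]
      exact ho.2.2.1 hT.t
    have hv : vec u = - vec T.t := by
      rw [← hou]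
      exact ho.2.1
    rcases Nat.lt_or_ge l n with hln | hln
    · exfalso
      have h1 : G.line s a := by
        rw [hT.line]
        refine ⟨n - l, by omega, ?_⟩
        obtain ⟨m, rfl⟩ : ∃ m, n = m + l := ⟨n - l, by omega⟩
        rw [hal, hz, hv, Nat.add_sub_cancel, add_smul, smul_neg, add_assoc, add_assoc,
          add_neg_cancel, add_zero]
      have h2 := hT.clear a h1
      rw [ha] at h2
      cases h2
    · obtain ⟨m, rfl⟩ : ∃ m, l = m + n := ⟨l - n, by omega⟩
      have hzv : sqA O z = a + (m + n) • vec T.t := by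
        rw [hal, hv, smul_neg, neg_add_cancel_right]
      have hazz : sqA O T.z = a + m • vec T.t := by
        have h1 := hz.symm.trans hzv
        rw [add_smul, ← add_assoc] at h1
        exact add_right_cancel h1
      have hc' : G.line s (sqA O T.z + (n + 80 + T.H) • vec T.t) :=
        (hT.line _).2 ⟨n + 80 + T.H, by omega, rfl⟩
      have hW := hT.white _ hc' (fwe_farOut hT.t hz0 n) a κ ha
      have hac' : sqA O T.z + (n + 80 + T.H) • vec T.t = a + (m + (n + 80 + T.H)) • vec T.t := by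
        rw [hazz, add_assoc, ← add_smul]
      rw [hac'] at hW
      have hO : OrthI a (a + (m + (n + 80 + T.H)) • vec T.t) :=
        (orth_iff a _).1 ⟨vec T.t, vec_or hT.t, m + (n + 80 + T.H), by omega, rfl⟩
      have hd : ∃ d, BetwI a (a + (m + (n + 80 + T.H)) • vec T.t) d ∧ d ∉ (∅ : Set Sq) ∧
          B0 d ≠ none := by
        rcases hslk with h1 | ⟨_, h1⟩ | ⟨h1, _⟩
        · subst h1
          exact hW (Or.inl hO)
        · subst h1
          exact hW hO
        · exact absurd huo (LD_disj u h1)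
      obtain ⟨d, hd1, hd2, hd3⟩ := hd
      rw [betwI_iff _ _ _ _ (List.mem_append_left _ (vec_or hT.t)) (by omega)] at hd1
      obtain ⟨k, hk0, hk1, hk2⟩ := hd1
      have hkm : k ≤ m := by
        by_contra hlt
        apply hd3
        apply hT.clear
        rw [hT.line]
        refine ⟨k - m, by omega, ?_⟩
        rw [hk2, hazz, add_assoc, ← add_smul, show m + (k - m) = k by omega]
      refine ⟨d, ?_, hd2, hd3⟩
      rw [hzv, betwI_iff _ _ _ _ (List.mem_append_left _ (vec_or hT.t)) (by omega)]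
      exact ⟨k, hk0, by omega, hk2⟩
  · obtain ⟨L, hL, k1, k2⟩ := fwe_scanW (M := T.mt) rfl 90 (hZ u hu hut hop)
    have hsq := mb_sq (T := T.mt) (O := O) hu (fun i h0 hi => (k1 i h0 hi).1)
    have hfit : ∀ i : ℕ, 0 < i → i ≤ L → B0 (sqA O z + i • vec u) = dec (cell T.A (itA u z i)) := by
      intro i h0 hi
      obtain ⟨m1, m2, -⟩ := k1 i h0 hi
      rw [← hsq i hi]
      exact cell_sqA hT.fits (inA_lt m1).1 m2
    rcases Nat.lt_or_ge L l with hLl | hLl
    · refine ⟨sqA O z + L • vec u, fwe_betw hu hal hL hLl rfl, Set.notMem_empty _, ?_⟩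
      rw [hfit L hL le_rfl]
      exact mb_mskDec _ (cell_lt _ _) k2
    · exfalso
      have h1 := hfit l hl hLl
      rw [← hal, ha] at h1
      have h2 := fwe_maskW hu (cell_lt T.A (itA u z l)) hslk h1.symm
      have h3 : msk (cond (aO fun v => !Nat.beq v u) 0x28 0x30) (cell T.A (itA u z l)) = false :=
        (k1 l hl hLl).2.2
      rw [h3] at h2
      cases h2

/-- chunk FWE: no White piece comes to the line -/
theorem whiteL_of (hT : WinT G B0 s R T O) (hw : wtOk T = true) : WhiteL G B0 s := by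
  intro c hc a κ ha
  by_cases hcore : c ∈ CoreH 2 T.H O
  swap
  · exact hT.white c hc hcore a κ ha
  obtain ⟨n, hn, hcn⟩ := (hT.line c).1 hc
  obtain ⟨-, hz2, hup⟩ := fwe_wt hw
  obtain ⟨v1, v2⟩ := fwe_vec (List.mem_append_left diT hT.t)
  have hz0 : sqA O T.z ∈ CoreH 2 T.H O := fwe_inA2.1 hz2
  have hall : ∀ i ≤ n, sqA O T.z + i • vec T.t ∈ CoreH 2 T.H O := by
    intro i hi
    rw [hcn] at hcore
    exact fwe_conv v1 v2 hz0 hcore hi
  have hit := fwe_it (List.mem_append_left _ (List.mem_append_left _ hT.t)) T.z n hall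
  unfold whiteUp at hup
  have hZ := upA_spec 150 hup (n - 1) (by
    intro i' hi'
    rw [← mb_itA_succ]
    exact (hit (i' + 1) (by omega)).2)
  rw [← mb_itA_succ, show n - 1 + 1 = n by omega] at hZ
  have hzn := (hit n le_rfl).1
  rw [← hcn] at hzn
  obtain ⟨z, hzd⟩ : ∃ z, z = itA T.t T.z n := ⟨_, rfl⟩
  rw [← hzd] at hZ hzn
  obtain ⟨hi2, hkn, hp, -, hsc⟩ := mf1_Z hZ
  have near : ∀ u ∈ orT ++ diT ++ knT, ∀ c₀ : Nat, notW T.mt c₀ (stA u z) = true →
      a = c + vec u → dec (cell T.A (stA u z)) = some (true, κ) ∧ cell T.A (stA u z) ≠ c₀ := by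
    intro u hu c₀ hnw hyu
    obtain ⟨h1, h2⟩ := sqA_stA2 (O := O) hu hi2
    unfold notW at hnw
    rw [Bool.and_eq_true, Bool.or_eq_true, mc_notbeq, mc_notbeq] at hnw
    have h15 : cell T.A (stA u z) ≠ 15 := by
      rcases hnw.2 with h4 | h4
      · exact h4
      · cases h4
    rw [hyu, ← hzn, ← h1, cell_sqA hT.fits h2 h15] at ha
    exact ⟨ha, hnw.1⟩
  have slide : ∀ u ∈ orT ++ diT, SlK κ u → ∀ l : ℕ, 0 < l → a = c + l • vec u →
      ∃ d, BetwI a c d ∧ d ∉ (∅ : Set Sq) ∧ B0 d ≠ none := by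
    intro u hu hslk l hl hal
    rw [← hzn] at hal ⊢
    exact fwe_whiteSlide hT hn hz0 (hzn.trans hcn) hsc ha hu hslk hl hal
  cases κ with
  | king => exact absurd ha (hT.fits.noK a).1
  | queen =>
    intro hac
    obtain ⟨u, hu, l, hl, hal, -, -⟩ := fwe_line hac
    exact slide u hu (Or.inl rfl) l hl hal
  | rook =>
    intro hac
    obtain ⟨u, hu, l, hl, hal, h1, h2⟩ := fwe_line (Or.inl hac)
    refine slide u hu (Or.inr (Or.inl ⟨?_, rfl⟩)) l hl hal
    rcases List.mem_append.1 hu with h3 | h3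
    · exact h3
    · exfalso
      have h4 := h2 h3
      have h5 : OrthI a c := hac
      unfold DiagI at h4
      unfold OrthI at h5
      omega
  | bishop =>
    intro hac
    obtain ⟨u, hu, l, hl, hal, h1, h2⟩ := fwe_line (Or.inr hac)
    refine slide u hu (Or.inr (Or.inr ⟨?_, rfl⟩)) l hl hal
    rcases List.mem_append.1 hu with h3 | h3
    · exfalso
      have h4 := h1 h3
      have h5 : DiagI a c := hac
      unfold DiagI at h5
      unfold OrthI at h4
      omega
    · exact h3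
  | knight =>
    intro hj
    have h2 : a - c ∈ knightJumps := by
      obtain ⟨t, ht', htd⟩ := kn_vec hj
      have e : a - c = - vec t := by rw [htd, neg_sub]
      rw [e]
      simp only [knT, List.mem_cons, List.not_mem_nil, or_false] at ht'
      rcases ht' with rfl | rfl | rfl | rfl | rfl | rfl | rfl | rfl <;> decide
    obtain ⟨u, hu, hud⟩ := kn_vec h2
    obtain ⟨h3, h4⟩ := near u (List.mem_append_right _ hu) 2 (hkn u hu)
      (by rw [hud, add_sub_cancel])
    rcases mf1_dec h3 with h | h | h | h | h | h <;>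
      first | (exact h4 h.1) | (exact absurd h.2 (by decide))
  | pawn =>
    refine ⟨?_, ?_⟩
    · intro hj
      have h3 : c = a + (0, 1) := by rw [← hj, add_sub_cancel]
      obtain ⟨h4, h5⟩ := near 22 (by decide) 1 hp (by
        rw [h3, add_assoc]
        have h5 : ((0, 1) : Sq) + vec 22 = 0 := by decide
        rw [h5, add_zero])
      rcases mf1_dec h4 with h | h | h | h | h | h <;>
        first | (exact h5 h.1) | (exact absurd h.2 (by decide))
    · intro hfl
      exfalso
      obtain ⟨g1, g2, -⟩ := hT.hull c (fwe_coreReg hcore)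
      rcases hfl with (h1 | h1 | h1) | h1
      · exact g2 (Or.inl h1)
      · exact g2 (Or.inr (Or.inl h1))
      · omega
      · have := floater_above hT.geo h1
        omega

end Pool.Agent.Lib.H32C.Loc
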