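import Pool.Agent.Lib.H32C.Kb

/-!
# Upper bound for the game values of a computable game

A coded game: `wm x m` is the position (Black to move) after White's move with code `m` in the
position `x` (White to move), `bm y m` the position (White to move) after Black's move `m` in `y`,
`none` if the move is not legal; `chk y` says that Black is in check in `y`.
-/

set_option autoImplicit false

namespace Pool.Agent.Lib.H32C

/-- a coded game -/
structure CGame where
  /-- White moves -/
  wm : ℕ → ℕ → Option ℕ
  /-- Black moves -/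
  bm : ℕ → ℕ → Option ℕ
  /-- Black is in check -/
  chk : ℕ → Prop

/-- `G.WV x β`: the position `x` with White to move has a value which is at most `β` -/
inductive CGame.WV (G : CGame) : ℕ → Ordinal.{0} → Prop
  | mate {x m y : ℕ} {β : Ordinal.{0}} (h : G.wm x m = some y) (hc : G.chk y)
      (hn : ∀ r, G.bm y r = none) (hβ : 1 ≤ β) : G.WV x β
  | step {x m y : ℕ} {α β : Ordinal.{0}} (h : G.wm x m = some y) (hex : ∃ r, G.bm y r ≠ none)
      (hall : ∀ r z, G.bm y r = some z → G.WV z α) (hαβ : α + 1 ≤ β) : G.WV x β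

namespace CGame

variable (G : CGame)

theorem WV.mono {G : CGame} {x : ℕ} {α β : Ordinal.{0}} (h : G.WV x α) (hab : α ≤ β) :
    G.WV x β := by
  cases h with
  | mate h hc hn hβ => exact WV.mate h hc hn (hβ.trans hab)
  | step h hex hall hαβ => exact WV.step h hex hall (hαβ.trans hab)

/-- the positions reached by a node -/
def pos (p : ℕ) (σ : List ℕ) (i : ℕ) : ℕ := if i = 0 then p else (σ.getD (i - 1) 0).unpair.1

/-- the condition on the entry number `t` of a node -/
def Cond (p : ℕ) (σ : List ℕ) (t : ℕ) : Prop :=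
  (G.wm (pos p σ t.unpair.1) t.unpair.2 = none ∧ σ.getD t 0 = Nat.pair p 0) ∨
  (∃ y, G.wm (pos p σ t.unpair.1) t.unpair.2 = some y ∧
    (((σ.getD t 0).unpair.2 = 0 ∧ (σ.getD t 0).unpair.1 = p ∧ ¬ G.chk y ∧
      ∀ m < σ.length, G.bm y m = none) ∨
    ((σ.getD t 0).unpair.2 ≠ 0 ∧
      G.bm y ((σ.getD t 0).unpair.2 - 1) = some (σ.getD t 0).unpair.1)))

/-- the nodes of the tree -/
def InT (p : ℕ) (σ : List ℕ) : Prop := ∀ t < σ.length, G.Cond p σ t

theorem getD_append_left (σ ρ : List ℕ) (i : ℕ) (h : i < σ.length) :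
    (σ ++ ρ).getD i 0 = σ.getD i 0 := List.getD_append _ _ _ _ h

theorem pos_append (p : ℕ) (σ ρ : List ℕ) (i : ℕ) (h : i ≤ σ.length) :
    pos p (σ ++ ρ) i = pos p σ i := by
  unfold pos
  split_ifs with h0
  · rfl
  · rw [getD_append_left _ _ _ (by omega)]

theorem inT_append (p : ℕ) (σ ρ : List ℕ) (h : G.InT p (σ ++ ρ)) : G.InT p σ := by
  intro t ht
  have ht' : t < (σ ++ ρ).length := by simp; omega
  have h1 := h t ht'
  unfold Cond at h1 ⊢
  rw [pos_append _ _ _ _ ((Nat.unpair_left_le t).trans ht.le), getD_append_left _ _ _ ht] at h1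
  rcases h1 with h1 | ⟨y, hy, h1⟩
  · exact Or.inl h1
  · refine Or.inr ⟨y, hy, ?_⟩
    rcases h1 with ⟨a, b, c, d⟩ | h1
    · exact Or.inl ⟨a, b, c, fun m hm => d m (by simp; omega)⟩
    · exact Or.inr h1

/-- the order on nodes, transported to `ℕ` -/
noncomputable def sumKey (p : ℕ) (n : ℕ) : ℕ ⊕ₗ List (WithTop ℕ) :=
  open Classical in
  if G.InT p (Denumerable.ofNat (List ℕ) n) then toLex (Sum.inr (key (Denumerable.ofNat (List ℕ) n)))
  else toLex (Sum.inl n)

/-- the well order on `ℕ` -/
def ord (p : ℕ) (a b : ℕ) : Prop := G.sumKey p a < G.sumKey p b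

theorem sumKey_injective (p : ℕ) : Function.Injective (G.sumKey p) := by
  intro a b h
  unfold sumKey at h
  split_ifs at h with h1 h2 h2
  · have h3 := Sum.inr_injective (toLex.injective h)
    have h4 := key_injective h3
    have h5 := congrArg Encodable.encode h4
    simpa using h5
  · exact absurd (toLex.injective h) (by simp)
  · exact absurd (toLex.injective h) (by simp)
  · exact Sum.inl_injective (toLex.injective h)

theorem ord_iff (p a b : ℕ) : G.ord p a b ↔
    (¬ G.InT p (Denumerable.ofNat (List ℕ) a) ∧ G.InT p (Denumerable.ofNat (List ℕ) b)) ∨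
    (¬ G.InT p (Denumerable.ofNat (List ℕ) a) ∧ ¬ G.InT p (Denumerable.ofNat (List ℕ) b) ∧ a < b) ∨
    (G.InT p (Denumerable.ofNat (List ℕ) a) ∧ G.InT p (Denumerable.ofNat (List ℕ) b) ∧
      KB (Denumerable.ofNat (List ℕ) a) (Denumerable.ofNat (List ℕ) b)) := by
  unfold ord sumKey KB
  by_cases h1 : G.InT p (Denumerable.ofNat (List ℕ) a) <;>
    by_cases h2 : G.InT p (Denumerable.ofNat (List ℕ) b) <;>
    simp [h1, h2, Sum.Lex.toLex_lt_toLex]

theorem ord_trichotomous (p a b : ℕ) : G.ord p a b ∨ a = b ∨ G.ord p b a := by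
  rcases lt_trichotomy (G.sumKey p a) (G.sumKey p b) with h | h | h
  · exact Or.inl h
  · exact Or.inr (Or.inl (G.sumKey_injective p h))
  · exact Or.inr (Or.inr h)

/-- the extension relation of the tree is well founded if the position has a value -/
theorem wf_ext (p : ℕ) {β : Ordinal.{0}} (hp : G.WV p β) :
    WellFounded (fun τ σ : List ℕ => G.InT p τ ∧ ∃ a, τ = σ ++ [a]) := by
  rw [wellFounded_iff_isEmpty_descending_chain]
  refine ⟨?_⟩
  rintro ⟨g, hg⟩
  have hT : ∀ n, G.InT p (g (n + 1)) := fun n => (hg n).1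
  have hpre : ∀ n k, ∃ ρ, g (n + k) = g n ++ ρ := by
    intro n k
    induction k with
    | zero => exact ⟨[], by simp⟩
    | succ k ih =>
      obtain ⟨ρ, hρ⟩ := ih
      obtain ⟨a, ha⟩ := (hg (n + k)).2
      exact ⟨ρ ++ [a], by rw [← Nat.add_assoc, ha, hρ, List.append_assoc]⟩
  have hlen : ∀ n, n ≤ (g n).length := by
    intro n
    induction n with
    | zero => exact Nat.zero_le _
    | succ n ih =>
      obtain ⟨a, ha⟩ := (hg n).2
      rw [ha]; simp; omega
  have hpos : ∀ n k i, i ≤ (g n).length → pos p (g (n + k)) i = pos p (g n) i := by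
    intro n k i hi
    obtain ⟨ρ, hρ⟩ := hpre n k
    rw [hρ, pos_append _ _ _ _ hi]
  have key : ∀ x β, G.WV x β → ∀ n i, i ≤ (g n).length → x ≠ pos p (g n) i := by
    intro x β h
    induction h with
    | @mate x m y β h hc hn hβ =>
      rintro n i hi rfl
      set t := Nat.pair i m with ht
      have hc1 := hT (n + t) t (lt_of_lt_of_le (by omega) (hlen _))
      have e1 : pos p (g (n + t + 1)) i = pos p (g n) i := by
        rw [Nat.add_assoc]; exact hpos n _ i hi
      unfold Cond at hc1
      rw [ht, Nat.unpair_pair] at hc1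
      simp only [← ht] at hc1
      rw [e1] at hc1
      rcases hc1 with ⟨h1, -⟩ | ⟨y', hy', ⟨-, -, h1, -⟩ | ⟨-, h1⟩⟩
      · rw [h] at h1; exact absurd h1 (by simp)
      · rw [h] at hy'; obtain rfl := Option.some.inj hy'; exact h1 hc
      · rw [h] at hy'; obtain rfl := Option.some.inj hy'; rw [hn] at h1; exact absurd h1 (by simp)
    | @step x m y α β h hex hall hαβ ih =>
      rintro n i hi rfl
      obtain ⟨r, hr⟩ := hex
      set t := Nat.pair i m with ht
      have hlt : t < (g (n + t + r + 1)).length := lt_of_lt_of_le (by omega) (hlen _)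
      have hc1 := hT (n + t + r) t hlt
      have e1 : pos p (g (n + t + r + 1)) i = pos p (g n) i := by
        have := hpos n (t + r + 1) i hi
        rw [← this]; congr 2; omega
      unfold Cond at hc1
      rw [ht, Nat.unpair_pair] at hc1
      simp only [← ht] at hc1
      rw [e1] at hc1
      rcases hc1 with ⟨h1, -⟩ | ⟨y', hy', ⟨-, -, -, h1⟩ | ⟨h0, h1⟩⟩
      · rw [h] at h1; exact absurd h1 (by simp)
      · rw [h] at hy'; obtain rfl := Option.some.inj hy'
        exact hr (h1 r (lt_of_lt_of_le (by omega) (hlen _)))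
      · rw [h] at hy'; obtain rfl := Option.some.inj hy'
        refine ih _ _ h1 (n + t + r + 1) (t + 1) (by omega) ?_
        unfold pos
        simp
  exact key p β hp 0 0 (Nat.zero_le _) (by simp [pos])

/-- the promises of a node hold -/
def Prom (p : ℕ) (σ : List ℕ) : Prop :=
  ∀ t < σ.length, (σ.getD t 0).unpair.2 = 0 → ∀ y,
    G.wm (pos p σ t.unpair.1) t.unpair.2 = some y → ∀ m, G.bm y m = none

/-- extension of a node -/
theorem extend (p : ℕ) (σ : List ℕ) (β γ : Ordinal.{0}) (hγ : γ < β) (hT : G.InT p σ)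
    (hP : G.Prom p σ) (hW : ∀ i ≤ σ.length, ¬ G.WV (pos p σ i) β) :
    ∃ e, G.InT p (σ ++ [e]) ∧ G.Prom p (σ ++ [e]) ∧
      ∀ i ≤ (σ ++ [e]).length, ¬ G.WV (pos p (σ ++ [e]) i) γ := by
  classical
  set t := σ.length with ht
  have h1β : (1 : Ordinal) ≤ β := by
    rw [Order.one_le_iff_pos]; exact lt_of_le_of_lt (bot_le (a := γ)) hγ
  have hWγ : ∀ i ≤ σ.length, ¬ G.WV (pos p σ i) γ := fun i hi h => hW i hi (h.mono hγ.le)
  have hpp : ¬ G.WV p γ := by
    have := hWγ 0 (Nat.zero_le _)
    simpa [pos] using this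
  -- general assembly
  have asm : ∀ e : ℕ, (G.Cond p (σ ++ [e]) t) → (¬ G.WV e.unpair.1 γ) →
      (e.unpair.2 = 0 → ∀ y, G.wm (pos p σ t.unpair.1) t.unpair.2 = some y →
        ∀ m, G.bm y m = none) →
      ∃ e, G.InT p (σ ++ [e]) ∧ G.Prom p (σ ++ [e]) ∧
      ∀ i ≤ (σ ++ [e]).length, ¬ G.WV (pos p (σ ++ [e]) i) γ := by
    intro e hc hw hpr
    have he : (σ ++ [e]).getD t 0 = e := by simp [ht]
    refine ⟨e, ?_, ?_, ?_⟩
    · intro s hs
      simp only [List.length_append, List.length_cons, List.length_nil] at hs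
      rcases Nat.lt_or_ge s σ.length with h | h
      · have h1 := hT s h
        unfold Cond at h1 ⊢
        rw [pos_append _ _ _ _ ((Nat.unpair_left_le s).trans h.le), getD_append_left _ _ _ h]
        rcases h1 with h1 | ⟨y, hy, h1⟩
        · exact Or.inl h1
        · refine Or.inr ⟨y, hy, ?_⟩
          rcases h1 with ⟨a, b, c, d⟩ | h1
          · exact Or.inl ⟨a, b, c, fun m _ => hP s h a y hy m⟩
          · exact Or.inr h1
      · have : s = t := by omega
        rw [this]; exact hc
    · intro s hs h0 y hy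
      simp only [List.length_append, List.length_cons, List.length_nil] at hs
      rcases Nat.lt_or_ge s σ.length with h | h
      · rw [pos_append _ _ _ _ ((Nat.unpair_left_le s).trans h.le)] at hy
        rw [getD_append_left _ _ _ h] at h0
        exact hP s h h0 y hy
      · have hst : s = t := by omega
        subst hst
        rw [pos_append _ _ _ _ (Nat.unpair_left_le _)] at hy
        rw [he] at h0
        exact hpr h0 y hy
    · intro i hi
      simp only [List.length_append, List.length_cons, List.length_nil] at hi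
      rcases Nat.lt_or_ge σ.length i with h | h
      · have hi' : i = t + 1 := by omega
        subst hi'
        have : pos p (σ ++ [e]) (t + 1) = e.unpair.1 := by
          unfold pos; rw [if_neg (by omega), Nat.add_sub_cancel, he]
        rw [this]; exact hw
      · rw [pos_append _ _ _ _ h]; exact hWγ i h
  have hx := hW t.unpair.1 (Nat.unpair_left_le _)
  have hposx : ∀ e, pos p (σ ++ [e]) t.unpair.1 = pos p σ t.unpair.1 := fun e =>
    pos_append _ _ _ _ (Nat.unpair_left_le _)
  have hget : ∀ e, (σ ++ [e]).getD t 0 = e := fun e => by simp [ht]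
  cases hwm : G.wm (pos p σ t.unpair.1) t.unpair.2 with
  | none =>
    refine asm (Nat.pair p 0) ?_ (by simpa using hpp) ?_
    · exact Or.inl ⟨by rw [hposx]; exact hwm, hget _⟩
    · intro _ y hy; rw [hwm] at hy; exact absurd hy (by simp)
  | some y =>
    by_cases hno : ∀ m, G.bm y m = none
    · have hchk : ¬ G.chk y := fun hc => hx (WV.mate hwm hc hno h1β)
      refine asm (Nat.pair p 0) ?_ (by simpa using hpp) ?_
      · refine Or.inr ⟨y, by rw [hposx]; exact hwm, Or.inl ?_⟩
        rw [hget]
        exact ⟨by simp, by simp, hchk, fun m _ => hno m⟩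
      · intro _ y' hy'
        rw [hwm] at hy'; obtain rfl := Option.some.inj hy'; exact hno
    · have : ¬ ∀ r z, G.bm y r = some z → G.WV z γ := by
        intro hall
        push Not at hno
        exact hx (WV.step hwm hno hall (Order.add_one_le_of_lt hγ))
      push Not at this
      obtain ⟨r, z, hr, hz⟩ := this
      refine asm (Nat.pair z (r + 1)) ?_ (by simpa using hz) ?_
      · refine Or.inr ⟨y, by rw [hposx]; exact hwm, Or.inr ?_⟩
        rw [hget]
        exact ⟨by simp, by simpa using hr⟩
      · intro h0; simp at h0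

theorem ord_acc (p : ℕ) {β : Ordinal.{0}} (hp : G.WV p β) : WellFounded (G.ord p) := by
  have hwf := G.wf_ext p hp
  have hacc := kb_acc (G.InT p) (fun σ a h => G.inT_append p σ [a] h) hwf
  -- nodes outside of the tree
  have h1 : ∀ a, ¬ G.InT p (Denumerable.ofNat (List ℕ) a) → Acc (G.ord p) a := by
    intro a
    induction a using Nat.strong_induction_on with
    | _ a ih =>
      intro ha
      refine Acc.intro _ ?_
      intro b hb
      rw [ord_iff] at hb
      rcases hb with hb | hb | hb
      · exact absurd hb.2 ha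
      · exact ih b hb.2.2 hb.1
      · exact absurd hb.2.1 ha
  have h2 : ∀ σ, Acc (fun a b : List ℕ => G.InT p a ∧ G.InT p b ∧ KB a b) σ → G.InT p σ →
      ∀ a, Denumerable.ofNat (List ℕ) a = σ → Acc (G.ord p) a := by
    intro σ h
    induction h with
    | intro σ _ ih =>
      intro hσ a ha
      refine Acc.intro _ ?_
      intro b hb
      rw [ord_iff] at hb
      rcases hb with hb | hb | hb
      · exact h1 b hb.1
      · exact h1 b hb.1
      · exact ih _ ⟨hb.1, by rw [← ha]; exact hb.2.1, by rw [← ha]; exact hb.2.2⟩ hb.1 b rfl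
  refine ⟨fun a => ?_⟩
  by_cases ha : G.InT p (Denumerable.ofNat (List ℕ) a)
  · exact h2 _ (hacc _ ha) ha a rfl
  · exact h1 a ha

theorem isWellOrder_ord (p : ℕ) {β : Ordinal.{0}} (hp : G.WV p β) : IsWellOrder ℕ (G.ord p) :=
  { trichotomous := fun a b h1 h2 => by
      rcases G.ord_trichotomous p a b with h | h | h
      · exact absurd h h1
      · exact h
      · exact absurd h h2
    wf := G.ord_acc p hp }

/-- **Generic upper bound.** -/
theorem wv_type (p : ℕ) {β : Ordinal.{0}} (hp : G.WV p β) :
    haveI := G.isWellOrder_ord p hp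
    G.WV p (Ordinal.type (G.ord p)) := by
  have := G.isWellOrder_ord p hp
  by_contra hcon
  have key : ∀ β : Ordinal.{0}, ∀ σ : List ℕ, G.InT p σ → G.Prom p σ →
      (∀ i ≤ σ.length, ¬ G.WV (pos p σ i) β) →
      β ≤ Ordinal.typein (G.ord p) (Encodable.encode σ) := by
    intro β
    induction β using WellFoundedLT.induction with
    | _ β ih =>
      intro σ hT hP hW
      by_contra hlt
      push Not at hlt
      obtain ⟨e, h1, h2, h3⟩ := G.extend p σ β _ hlt hT hP hW
      have h4 := ih _ hlt (σ ++ [e]) h1 h2 h3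
      have h5 : G.ord p (Encodable.encode (σ ++ [e])) (Encodable.encode σ) := by
        rw [ord_iff]
        right; right
        simp only [Denumerable.ofNat_encode]
        exact ⟨h1, hT, kb_concat σ e⟩
      rw [← Ordinal.typein_lt_typein (G.ord p)] at h5
      exact absurd h4 (not_le.mpr h5)
  have h0 := key _ [] (fun t ht => absurd ht (by simp)) (fun t ht => absurd ht (by simp))
    (fun i hi => by
      have : i = 0 := by simpa using hi
      subst this
      simpa [pos] using hcon)
  exact absurd h0 (not_le.mpr (Ordinal.typein_lt_type _ _))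

end CGame

end Pool.Agent.Lib.H32C
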