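import Mathlib

/-!
# The Kleene-Brouwer order of a tree of finite sequences
-/

set_option autoImplicit false

namespace Pool.Agent.Lib.H32C

/-- the key of a sequence: add a top symbol at the end -/
def key (σ : List ℕ) : List (WithTop ℕ) := σ.map (fun n => ((n : ℕ) : WithTop ℕ)) ++ [⊤]

/-- the Kleene-Brouwer order -/
def KB (σ τ : List ℕ) : Prop := key σ < key τ

theorem key_nil : key [] = [⊤] := rfl

theorem key_cons (a : ℕ) (σ : List ℕ) : key (a :: σ) = (a : WithTop ℕ) :: key σ := rfl

theorem key_injective : Function.Injective key := by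
  intro σ τ h
  unfold key at h
  have h1 := List.append_inj_left' h rfl
  exact List.map_injective_iff.mpr (fun a b hab => by exact_mod_cast hab) h1

theorem kb_nil_left (τ : List ℕ) : ¬ KB [] τ := by
  unfold KB
  cases τ with
  | nil => exact lt_irrefl _
  | cons b τ =>
    rw [key_nil, key_cons]
    intro h
    rw [List.cons_lt_cons_iff] at h
    rcases h with h | ⟨h, -⟩
    · exact not_top_lt h
    · exact WithTop.top_ne_coe h

theorem kb_cons_nil (a : ℕ) (σ : List ℕ) : KB (a :: σ) [] := by
  unfold KB
  rw [key_nil, key_cons, List.cons_lt_cons_iff]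
  exact Or.inl (WithTop.coe_lt_top a)

theorem kb_cons_cons (a b : ℕ) (σ τ : List ℕ) :
    KB (a :: σ) (b :: τ) ↔ a < b ∨ (a = b ∧ KB σ τ) := by
  unfold KB
  rw [key_cons, key_cons, List.cons_lt_cons_iff]
  simp

/-- a common prefix may be removed -/
theorem kb_append (ρ σ τ : List ℕ) : KB (ρ ++ σ) (ρ ++ τ) ↔ KB σ τ := by
  induction ρ with
  | nil => rfl
  | cons a ρ ih => simp [List.cons_append, kb_cons_cons, ih]

theorem kb_concat (σ : List ℕ) (a : ℕ) : KB (σ ++ [a]) σ := by
  have := (kb_append σ [a] []).2 (kb_cons_nil a [])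
  simpa using this

/-- an elementary description of the order -/
theorem kb_iff (σ τ : List ℕ) : KB σ τ ↔ ∃ i < σ.length + 1, i < σ.length ∧ σ.take i = τ.take i ∧
    (i = τ.length ∨ (i < τ.length ∧ σ.getD i 0 < τ.getD i 0)) := by
  induction σ generalizing τ with
  | nil => simp [kb_nil_left]
  | cons a σ ih =>
    cases τ with
    | nil =>
      simp only [kb_cons_nil, true_iff]
      exact ⟨0, by simp, by simp, by simp, Or.inl rfl⟩
    | cons b τ =>
      rw [kb_cons_cons, ih]
      constructor
      · rintro (h | ⟨rfl, i, hi, hi2, ht, hc⟩)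
        · exact ⟨0, by simp, by simp, by simp, Or.inr ⟨by simp, by simpa using h⟩⟩
        · refine ⟨i + 1, by simp; omega, by simp; omega, by simp [ht], ?_⟩
          rcases hc with hc | ⟨hc, hc2⟩
          · exact Or.inl (by simp [hc])
          · exact Or.inr ⟨by simp; omega, by simpa using hc2⟩
      · rintro ⟨i, hi, hi2, ht, hc⟩
        cases i with
        | zero =>
          rcases hc with hc | ⟨-, hc⟩
          · simp at hc
          · left; simpa using hc
        | succ i =>
          simp only [List.take_succ_cons, List.cons.injEq] at ht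
          right
          refine ⟨ht.1, i, by simp at hi; omega, by simp at hi2; omega, ht.2, ?_⟩
          rcases hc with hc | ⟨hc, hc2⟩
          · exact Or.inl (by simp at hc; omega)
          · exact Or.inr ⟨by simp at hc; omega, by simpa using hc2⟩

/-- The Kleene-Brouwer order of a tree whose extension relation is well founded is well founded. -/
theorem kb_acc (T : List ℕ → Prop) (hT : ∀ σ a, T (σ ++ [a]) → T σ)
    (hwf : WellFounded (fun τ σ : List ℕ => T τ ∧ ∃ a, τ = σ ++ [a])) (σ : List ℕ) (hσ : T σ) :
    Acc (fun a b : List ℕ => T a ∧ T b ∧ KB a b) σ := by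
  have hpre : ∀ ρ σ : List ℕ, T (σ ++ ρ) → T σ := by
    intro ρ
    induction ρ using List.reverseRecOn with
    | nil => intro σ h; simpa using h
    | append_singleton ρ a ih =>
      intro σ h
      rw [← List.append_assoc] at h
      exact ih σ (hT _ _ h)
  -- main induction
  have main : ∀ s : List ℕ, T s → ∀ ρ, T (s ++ ρ) →
      Acc (fun a b : List ℕ => T (s ++ a) ∧ T (s ++ b) ∧ KB a b) ρ := by
    intro s
    refine hwf.induction (C := fun s => T s → ∀ ρ, T (s ++ ρ) →
      Acc (fun a b : List ℕ => T (s ++ a) ∧ T (s ++ b) ∧ KB a b) ρ) s ?_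
    intro s ih hs
    -- extensions of `s ++ [n]`
    have hn : ∀ n : ℕ, ∀ ρ, T (s ++ n :: ρ) →
        Acc (fun a b : List ℕ => T (s ++ a) ∧ T (s ++ b) ∧ KB a b) (n :: ρ) := by
      intro n
      induction n using Nat.strong_induction_on with
      | _ n ihn =>
        intro ρ hρ
        have hsn : T (s ++ [n]) := hpre ρ _ (by simpa using hρ)
        have hacc := ih (s ++ [n]) ⟨hsn, n, rfl⟩ hsn ρ (by simpa using hρ)
        clear hρ
        induction hacc with
        | intro ρ _ ih2 =>
          refine Acc.intro _ ?_
          rintro τ ⟨h1, h2, h3⟩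
          cases τ with
          | nil => exact absurd h3 (kb_nil_left _)
          | cons m τ =>
            rw [kb_cons_cons] at h3
            rcases h3 with h3 | ⟨rfl, h3⟩
            · exact ihn m h3 τ h1
            · exact ih2 τ ⟨by simpa using h1, by simpa using h2, h3⟩
    intro ρ hρ
    cases ρ with
    | cons n ρ => exact hn n ρ hρ
    | nil =>
      refine Acc.intro _ ?_
      rintro τ ⟨h1, -, h3⟩
      cases τ with
      | nil => exact absurd h3 (kb_nil_left _)
      | cons m τ => exact hn m τ h1
  have hnil : T [] := hpre σ [] (by simpa using hσ)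
  simpa using main [] hnil σ (by simpa using hσ)

end Pool.Agent.Lib.H32C
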