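import Pool.Agent.Lib.H32C.FarDf
import Pool.Agent.Lib.H32C.LayT

/-!
# The layout of the control part: groups of columns and rows
-/

set_option autoImplicit false

namespace Pool.Agent.Lib.H32C.Ly

/-- programs with `n` labels -/
structure Prog where
  /-- number of labels -/
  n : ℕ
  pos : 0 < n
  /-- the modules -/
  M : ℕ → Md ℕ
  tg : ∀ m, m < n → ∀ t, (M m).tgt t → t < n

/-- the code of a service -/
def sc : Svc → ℕ
  | Svc.Out => 0
  | Svc.Tb => 1
  | Svc.E => 2
  | Svc.Bin => 3
  | Svc.W => 4
  | Svc.N => 5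
  | Svc.N1 => 6
  | Svc.Z Qn.C => 7
  | Svc.H Qn.C => 8
  | Svc.T Qn.C => 9
  | Svc.N2 => 10
  | Svc.Z Qn.A => 11
  | Svc.H Qn.A => 12
  | Svc.T Qn.A => 13
  | Svc.Z Qn.B => 14
  | Svc.H Qn.B => 15
  | Svc.T Qn.B => 16

/-- the code of a module -/
def ic {L : Type} : Md L → ℕ
  | Md.call s _ => sc s
  | Md.choice _ _ => 17
  | Md.halt => 18

/-- the target of the lower wire of a band -/
def tLo : Md ℕ → ℕ
  | Md.call _ t => t
  | Md.choice _ b => b
  | Md.halt => 0

/-- the target of the upper wire of a band -/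
def tUp : Md ℕ → ℕ
  | Md.choice a _ => a
  | _ => 0

theorem sc_lt (s : Svc) : sc s < 17 := by
  cases s with
  | H q => cases q <;> decide
  | Z q => cases q <;> decide
  | T q => cases q <;> decide
  | _ => decide

theorem ic_lt {L : Type} (m : Md L) : ic m < 19 := by
  cases m with
  | call s n => exact (sc_lt s).trans (by decide)
  | choice a b => exact (by decide : 17 < 19)
  | halt => exact (by decide : 18 < 19)

/-- the group of a column -/
def sx (n i : ℕ) : ℕ :=
  if i < 6 then i
  else if i < 6 + n then 6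
  else if i < 51 + n then i + 1 - n
  else if i < 51 + 2 * n then 52
  else if i < 72 + 2 * n then i + 2 - 2 * n
  else if i < 86 + 5 * n then 74
  else i - 11 - 5 * n

/-- the first column of a group -/
def xf (n s : ℕ) : ℕ :=
  if s ≤ 6 then s
  else if s ≤ 52 then s - 1 + n
  else if s ≤ 74 then s - 2 + 2 * n
  else s + 11 + 5 * n

/-- the index of the column `i` in a row with label `m` and target `t` -/
def cx (n m t i : ℕ) : ℕ :=
  if i < 6 then i
  else if i < 6 + n then
    (if i + m + 1 < 6 + n then 6 else if i + m + 1 = 6 + n then 79 else 80)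
  else if i < 51 + n then i + 1 - n
  else if i < 51 + 2 * n then
    (if i < 51 + n + t then 52 else if i = 51 + n + t then 81 else 82)
  else if i < 72 + 2 * n then i + 2 - 2 * n
  else if i < 86 + 5 * n then 74
  else i - 11 - 5 * n

/-- the group of a row -/
def lv (n j : ℕ) : ℕ :=
  if j < 25 then j
  else if j < 25 + n then 25
  else if j = 25 + n then 26
  else if j < 26 + 3 * n then 27
  else j + 2 - 3 * n

/-- the first row of a group -/
def yf (n l : ℕ) : ℕ :=
  if l ≤ 25 then l
  else if l = 26 then 25 + n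
  else if l = 27 then 26 + n
  else l - 2 + 3 * n

/-- the band of a row -/
def bm (n j : ℕ) : ℕ := (j - 26 - n) / 2

/-- the index of a row in the table -/
def rx (P : Prog) (j : ℕ) : ℕ :=
  if j < 25 then j
  else if j < 25 + P.n then 25
  else if j = 25 + P.n then 26
  else if j < 26 + 3 * P.n then
    (if (j - 26 - P.n) % 2 = 0 then 47 + ic (P.M (bm P.n j)) else 66 + ic (P.M (bm P.n j)))
  else j + 2 - 3 * P.n

/-- the label of a row -/
def pm (n j : ℕ) : ℕ :=
  if j < 25 then 0
  else if j < 25 + n then n + 24 - j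
  else if j = 25 + n then 0
  else if j < 26 + 3 * n then bm n j
  else 0

/-- the target of a row -/
def pt (P : Prog) (j : ℕ) : ℕ :=
  if j < 25 then 0
  else if j < 25 + P.n then P.n + 24 - j
  else if j = 25 + P.n then 0
  else if j < 26 + 3 * P.n then
    (if (j - 26 - P.n) % 2 = 0 then tLo (P.M (bm P.n j)) else tUp (P.M (bm P.n j)))
  else 0

/-- the kind of a tile -/
def kd (P : Prog) (i j : ℕ) : ℕ := kdt (rx P j) (cx P.n (pm P.n j) (pt P j) i)

/-- number of columns -/
def nx (n : ℕ) : ℕ := 90 + 5 * n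

/-- number of rows -/
def ny (n : ℕ) : ℕ := 45 + 3 * n

variable (P : Prog)

theorem pm_lt {n : ℕ} (h : 0 < n) (j : ℕ) : pm n j < n := by
  unfold pm bm
  split_ifs <;> omega

theorem tLo_lt {m : ℕ} (hm : m < P.n) : tLo (P.M m) < P.n := by
  have h := P.tg m hm
  cases hM : P.M m with
  | call s t => rw [hM] at h; exact h t rfl
  | choice a b => rw [hM] at h; exact h b (Or.inr rfl)
  | halt => exact P.pos

theorem tUp_lt {m : ℕ} (hm : m < P.n) : tUp (P.M m) < P.n := by
  have h := P.tg m hm
  cases hM : P.M m with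
  | call s t => exact P.pos
  | choice a b => rw [hM] at h; exact h a (Or.inl rfl)
  | halt => exact P.pos

theorem bm_lt {n j : ℕ} (h1 : 26 + n ≤ j) (h2 : j < 26 + 3 * n) : bm n j < n := by
  unfold bm
  omega

theorem pt_lt (j : ℕ) : pt P j < P.n := by
  have h := P.pos
  unfold pt
  split_ifs with h1 h2 h3 h4 h5
  · exact h
  · omega
  · exact h
  · exact tLo_lt P (bm_lt (by omega) h4)
  · exact tUp_lt P (bm_lt (by omega) h4)
  · exact h

/-! ### The index of a column -/

section cx

variable {n m t i : ℕ}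

theorem cx_a (h : i < 6) : cx n m t i = i := by
  unfold cx; rw [if_pos h]

theorem cx_l (h1 : 6 ≤ i) (h2 : i < 6 + n) : cx n m t i =
    if i + m + 1 < 6 + n then 6 else if i + m + 1 = 6 + n then 79 else 80 := by
  unfold cx; rw [if_neg (by omega), if_pos h2]

theorem cx_b (h1 : 6 + n ≤ i) (h2 : i < 51 + n) : cx n m t i = i + 1 - n := by
  unfold cx; rw [if_neg (by omega), if_neg (by omega), if_pos h2]

theorem cx_c (h1 : 51 + n ≤ i) (h2 : i < 51 + 2 * n) : cx n m t i =
    if i < 51 + n + t then 52 else if i = 51 + n + t then 81 else 82 := by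
  unfold cx; rw [if_neg (by omega), if_neg (by omega), if_neg (by omega), if_pos h2]

theorem cx_d (h1 : 51 + 2 * n ≤ i) (h2 : i < 72 + 2 * n) : cx n m t i = i + 2 - 2 * n := by
  unfold cx
  rw [if_neg (by omega), if_neg (by omega), if_neg (by omega), if_neg (by omega), if_pos h2]

theorem cx_g (h1 : 72 + 2 * n ≤ i) (h2 : i < 86 + 5 * n) : cx n m t i = 74 := by
  unfold cx
  rw [if_neg (by omega), if_neg (by omega), if_neg (by omega), if_neg (by omega), if_neg (by omega),
    if_pos h2]

theorem cx_e (h1 : 86 + 5 * n ≤ i) : cx n m t i = i - 11 - 5 * n := by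
  unfold cx
  rw [if_neg (by omega), if_neg (by omega), if_neg (by omega), if_neg (by omega), if_neg (by omega),
    if_neg (by omega)]

end cx

/-- pairs of indices of horizontal neighbours -/
def hsp : List (ℕ × ℕ) := [(5, 6), (5, 79), (6, 6), (6, 79), (79, 80), (80, 80), (80, 7), (79, 7),
  (51, 52), (51, 81), (52, 52), (52, 81), (81, 82), (82, 82), (82, 53), (81, 53), (74, 74)]

/-- `a` and `b` are indices of horizontal neighbours -/
def HP (a b : ℕ) : Prop :=
  (b = a + 1 ∧ a < 78 ∧ a ≠ 5 ∧ a ≠ 6 ∧ a ≠ 51 ∧ a ≠ 52) ∨ (a, b) ∈ hsp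

theorem cx_succ {n m t i : ℕ} (hn : 0 < n) (hm : m < n) (ht : t < n) (hi : i + 1 < nx n) :
    HP (cx n m t i) (cx n m t (i + 1)) := by
  unfold nx at hi
  rcases Nat.lt_or_ge i 5 with h1 | h1
  · rw [cx_a (by omega), cx_a (by omega)]
    exact Or.inl ⟨rfl, by omega, by omega, by omega, by omega, by omega⟩
  rcases Nat.lt_or_ge i 6 with h2 | h2
  · rw [cx_a (by omega), cx_l (by omega) (by omega), show i = 5 by omega]
    refine Or.inr ?_
    split_ifs <;> first | decide | (exfalso; omega)
  rcases Nat.lt_or_ge i (5 + n) with h3 | h3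
  · rw [cx_l (by omega) (by omega), cx_l (by omega) (by omega)]
    refine Or.inr ?_
    split_ifs <;> first | decide | (exfalso; omega)
  rcases Nat.lt_or_ge i (6 + n) with h4 | h4
  · rw [cx_l (by omega) (by omega), cx_b (by omega) (by omega), show i + 1 + 1 - n = 7 by omega]
    refine Or.inr ?_
    split_ifs <;> first | decide | (exfalso; omega)
  rcases Nat.lt_or_ge i (50 + n) with h5 | h5
  · rw [cx_b (by omega) (by omega), cx_b (by omega) (by omega)]
    exact Or.inl ⟨by omega, by omega, by omega, by omega, by omega, by omega⟩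
  rcases Nat.lt_or_ge i (51 + n) with h6 | h6
  · rw [cx_b (by omega) (by omega), cx_c (by omega) (by omega), show i + 1 - n = 51 by omega]
    refine Or.inr ?_
    split_ifs <;> first | decide | (exfalso; omega)
  rcases Nat.lt_or_ge i (50 + 2 * n) with h7 | h7
  · rw [cx_c (by omega) (by omega), cx_c (by omega) (by omega)]
    refine Or.inr ?_
    split_ifs <;> first | decide | (exfalso; omega)
  rcases Nat.lt_or_ge i (51 + 2 * n) with h8 | h8
  · rw [cx_c (by omega) (by omega), cx_d (by omega) (by omega),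
      show i + 1 + 2 - 2 * n = 53 by omega]
    refine Or.inr ?_
    split_ifs <;> first | decide | (exfalso; omega)
  rcases Nat.lt_or_ge i (71 + 2 * n) with h9 | h9
  · rw [cx_d (by omega) (by omega), cx_d (by omega) (by omega)]
    exact Or.inl ⟨by omega, by omega, by omega, by omega, by omega, by omega⟩
  rcases Nat.lt_or_ge i (72 + 2 * n) with h10 | h10
  · rw [cx_d (by omega) (by omega), cx_g (by omega) (by omega)]
    exact Or.inl ⟨by omega, by omega, by omega, by omega, by omega, by omega⟩
  rcases Nat.lt_or_ge i (85 + 5 * n) with h11 | h11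
  · rw [cx_g (by omega) (by omega), cx_g (by omega) (by omega)]
    exact Or.inr (by decide)
  rcases Nat.lt_or_ge i (86 + 5 * n) with h12 | h12
  · rw [cx_g (by omega) (by omega), cx_e (by omega)]
    exact Or.inl ⟨by omega, by omega, by omega, by omega, by omega, by omega⟩
  · rw [cx_e (by omega), cx_e (by omega)]
    exact Or.inl ⟨by omega, by omega, by omega, by omega, by omega, by omega⟩

theorem cx_lt {n m t i : ℕ} (hi : i < nx n) : cx n m t i < 83 := by
  unfold cx
  unfold nx at hi
  split_ifs <;> omega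

/-! ### The index of a row -/

theorem rx_a {j : ℕ} (h : j < 25) : rx P j = j := by
  unfold rx; rw [if_pos h]

theorem rx_l {j : ℕ} (h1 : 25 ≤ j) (h2 : j < 25 + P.n) : rx P j = 25 := by
  unfold rx; rw [if_neg (by omega), if_pos h2]

theorem rx_m : rx P (25 + P.n) = 26 := by
  unfold rx; rw [if_neg (by omega), if_neg (by omega), if_pos rfl]

theorem rx_lo {m : ℕ} (hm : m < P.n) : rx P (26 + P.n + 2 * m) = 47 + ic (P.M m) := by
  have h : bm P.n (26 + P.n + 2 * m) = m := by unfold bm; omega
  unfold rx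
  rw [if_neg (by omega), if_neg (by omega), if_neg (by omega), if_pos (by omega), if_pos (by omega), h]

theorem rx_up {m : ℕ} (hm : m < P.n) : rx P (27 + P.n + 2 * m) = 66 + ic (P.M m) := by
  have h : bm P.n (27 + P.n + 2 * m) = m := by unfold bm; omega
  unfold rx
  rw [if_neg (by omega), if_neg (by omega), if_neg (by omega), if_pos (by omega), if_neg (by omega), h]

theorem rx_t {j : ℕ} (h : 26 + 3 * P.n ≤ j) : rx P j = j + 2 - 3 * P.n := by
  unfold rx; rw [if_neg (by omega), if_neg (by omega), if_neg (by omega), if_neg (by omega)]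

/-- the rows of the bands -/
theorem band_cases {n j : ℕ} (h1 : 26 + n ≤ j) (h2 : j < 26 + 3 * n) :
    ∃ m < n, j = 26 + n + 2 * m ∨ j = 27 + n + 2 * m := by
  refine ⟨(j - 26 - n) / 2, by omega, by omega⟩

theorem rx_lt {j : ℕ} (hj : j < ny P.n) : rx P j < 85 ∧ rx P j ≠ 27 := by
  unfold ny at hj
  rcases Nat.lt_or_ge j 25 with h1 | h1
  · rw [rx_a P h1]; omega
  rcases Nat.lt_or_ge j (25 + P.n) with h2 | h2
  · rw [rx_l P h1 h2]; omega
  rcases Nat.eq_or_lt_of_le h2 with h3 | h3
  · rw [← h3, rx_m]; omega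
  rcases Nat.lt_or_ge j (26 + 3 * P.n) with h4 | h4
  · obtain ⟨m, hm, h5 | h5⟩ := band_cases (by omega) h4
    · rw [h5, rx_lo P hm]; have := ic_lt (P.M m); omega
    · rw [h5, rx_up P hm]; have := ic_lt (P.M m); omega
  · rw [rx_t P h4]; omega

/-- the kind of a tile in a lower row of a band -/
theorem kd_lo {m : ℕ} (hm : m < P.n) (i : ℕ) : kd P i (26 + P.n + 2 * m) =
    kdt (47 + ic (P.M m)) (cx P.n m (tLo (P.M m)) i) := by
  have h : bm P.n (26 + P.n + 2 * m) = m := by unfold bm; omega
  have h1 : pm P.n (26 + P.n + 2 * m) = m := by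
    unfold pm
    rw [if_neg (by omega), if_neg (by omega), if_neg (by omega), if_pos (by omega), h]
  have h2 : pt P (26 + P.n + 2 * m) = tLo (P.M m) := by
    unfold pt
    rw [if_neg (by omega), if_neg (by omega), if_neg (by omega), if_pos (by omega),
      if_pos (by omega), h]
  unfold kd
  rw [rx_lo P hm, h1, h2]

/-- the kind of a tile in an upper row of a band -/
theorem kd_up {m : ℕ} (hm : m < P.n) (i : ℕ) : kd P i (27 + P.n + 2 * m) =
    kdt (66 + ic (P.M m)) (cx P.n m (tUp (P.M m)) i) := by
  have h : bm P.n (27 + P.n + 2 * m) = m := by unfold bm; omega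
  have h1 : pm P.n (27 + P.n + 2 * m) = m := by
    unfold pm
    rw [if_neg (by omega), if_neg (by omega), if_neg (by omega), if_pos (by omega), h]
  have h2 : pt P (27 + P.n + 2 * m) = tUp (P.M m) := by
    unfold pt
    rw [if_neg (by omega), if_neg (by omega), if_neg (by omega), if_pos (by omega),
      if_neg (by omega), h]
  unfold kd
  rw [rx_up P hm, h1, h2]

/-- the kind of a tile in a row of a lane: the lane of the label `m` -/
theorem kd_lane {m : ℕ} (hm : m < P.n) (i : ℕ) : kd P i (P.n + 24 - m) =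
    kdt 25 (cx P.n m m i) := by
  have h1 : pm P.n (P.n + 24 - m) = m := by
    unfold pm
    rw [if_neg (by omega), if_pos (by omega)]
    omega
  have h2 : pt P (P.n + 24 - m) = m := by
    unfold pt
    rw [if_neg (by omega), if_pos (by omega)]
    omega
  unfold kd
  rw [rx_l P (by omega) (by omega), h1, h2]

/-- the kind of a tile in a lower row -/
theorem kd_a {j : ℕ} (h : j < 25) (i : ℕ) : kd P i j = kdt j (cx P.n 0 0 i) := by
  have h1 : pm P.n j = 0 := by unfold pm; rw [if_pos h]
  have h2 : pt P j = 0 := by unfold pt; rw [if_pos h]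
  unfold kd
  rw [rx_a P h, h1, h2]

theorem kd_m (i : ℕ) : kd P i (25 + P.n) = kdt 26 (cx P.n 0 0 i) := by
  have h1 : pm P.n (25 + P.n) = 0 := by
    unfold pm; rw [if_neg (by omega), if_neg (by omega), if_pos rfl]
  have h2 : pt P (25 + P.n) = 0 := by
    unfold pt; rw [if_neg (by omega), if_neg (by omega), if_pos rfl]
  unfold kd
  rw [rx_m P, h1, h2]

theorem kd_t {j : ℕ} (h : 26 + 3 * P.n ≤ j) (i : ℕ) :
    kd P i j = kdt (j + 2 - 3 * P.n) (cx P.n 0 0 i) := by
  have h1 : pm P.n j = 0 := by
    unfold pm; rw [if_neg (by omega), if_neg (by omega), if_neg (by omega), if_neg (by omega)]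
  have h2 : pt P j = 0 := by
    unfold pt; rw [if_neg (by omega), if_neg (by omega), if_neg (by omega), if_neg (by omega)]
  unfold kd
  rw [rx_t P h, h1, h2]

end Pool.Agent.Lib.H32C.Ly
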