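import Pool.Agent.Lib.H32C.LayA

/-!
# The layout of the control part: neighbours
-/

set_option autoImplicit false

namespace Pool.Agent.Lib.H32C.Ly

/-- the check of the horizontal neighbours -/
def hck : Bool := allN (fun r => Nat.beq r 27 || (allN (fun a => Nat.beq a 5 || (Nat.beq a 6 ||
  (Nat.beq a 51 || (Nat.beq a 52 || htb (kdt r a) (kdt r (Nat.add a 1)))))) 78 &&
    hsp.all fun p => htb (kdt r p.1) (kdt r p.2))) 85

theorem hck_true : hck = true := by decide +kernel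

theorem beq_ne {a b : ℕ} (h : a ≠ b) : Nat.beq a b = false := by
  cases h1 : Nat.beq a b
  · rfl
  · exact absurd (Nat.eq_of_beq_eq_true h1) h

theorem hck_of {r a b : ℕ} (hr : r < 85) (hr2 : r ≠ 27) (h : HP a b) :
    htb (kdt r a) (kdt r b) = true := by
  have h1 := (allN_iff _ _).1 hck_true r hr
  rw [beq_ne hr2, Bool.false_or, Bool.and_eq_true] at h1
  rcases h with ⟨rfl, h2, h3, h4, h5, h6⟩ | h
  · have h7 := (allN_iff _ _).1 h1.1 a h2
    rw [beq_ne h3, beq_ne h4, beq_ne h5, beq_ne h6] at h7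
    exact h7
  · exact List.all_eq_true.1 h1.2 _ h

variable (P : Prog)

/-- **Horizontal neighbours fit together.** -/
theorem hadj {i j : ℕ} (hi : i + 1 < nx P.n) (hj : j < ny P.n) :
    htb (kd P i j) (kd P (i + 1) j) = true := by
  obtain ⟨h1, h2⟩ := rx_lt P hj
  exact hck_of h1 h2 (cx_succ P.pos (pm_lt P.pos j) (pt_lt P j) hi)

/-- the index of a column in the rows which do not depend on labels -/
def gr (c : ℕ) : ℕ :=
  cond (Nat.beq c 79) 6 (cond (Nat.beq c 80) 6 (cond (Nat.beq c 81) 52 (cond (Nat.beq c 82) 52 c)))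

theorem gr_cx {n m t m' t' i : ℕ} (hi : i < nx n) :
    gr (cx n m t i) = gr (cx n m' t' i) := by
  unfold nx at hi
  rcases Nat.lt_or_ge i 6 with h1 | h1
  · rw [cx_a h1, cx_a h1]
  rcases Nat.lt_or_ge i (6 + n) with h2 | h2
  · rw [cx_l h1 h2, cx_l h1 h2]
    split_ifs <;> rfl
  rcases Nat.lt_or_ge i (51 + n) with h3 | h3
  · rw [cx_b h2 h3, cx_b h2 h3]
  rcases Nat.lt_or_ge i (51 + 2 * n) with h4 | h4
  · rw [cx_c h3 h4, cx_c h3 h4]
    split_ifs <;> rfl
  rcases Nat.lt_or_ge i (72 + 2 * n) with h5 | h5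
  · rw [cx_d h4 h5, cx_d h4 h5]
  rcases Nat.lt_or_ge i (86 + 5 * n) with h6 | h6
  · rw [cx_g h5 h6, cx_g h5 h6]
  · rw [cx_e h6, cx_e h6]

/-- The index of a column for different labels and targets. -/
theorem cx_reg {n i : ℕ} (hi : i < nx n) :
    (∃ c, c < 79 ∧ c ≠ 6 ∧ c ≠ 52 ∧ gr c = c ∧ ∀ m t, cx n m t i = c) ∨
      (6 ≤ i ∧ i < 6 + n ∧ ∀ m t, gr (cx n m t i) = 6) ∨
      (51 + n ≤ i ∧ i < 51 + 2 * n ∧ ∀ m t, gr (cx n m t i) = 52) := by
  unfold nx at hi
  have hg : ∀ c, c < 79 → gr c = c := by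
    intro c hc
    unfold gr
    rw [beq_ne (by omega), beq_ne (by omega), beq_ne (by omega), beq_ne (by omega)]
    rfl
  rcases Nat.lt_or_ge i 6 with h1 | h1
  · exact Or.inl ⟨i, by omega, by omega, by omega, hg _ (by omega), fun m t => cx_a h1⟩
  rcases Nat.lt_or_ge i (6 + n) with h2 | h2
  · refine Or.inr (Or.inl ⟨h1, h2, fun m t => ?_⟩)
    rw [cx_l h1 h2]
    split_ifs <;> rfl
  rcases Nat.lt_or_ge i (51 + n) with h3 | h3
  · exact Or.inl ⟨_, by omega, by omega, by omega, hg _ (by omega), fun m t => cx_b h2 h3⟩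
  rcases Nat.lt_or_ge i (51 + 2 * n) with h4 | h4
  · refine Or.inr (Or.inr ⟨h3, h4, fun m t => ?_⟩)
    rw [cx_c h3 h4]
    split_ifs <;> rfl
  rcases Nat.lt_or_ge i (72 + 2 * n) with h5 | h5
  · exact Or.inl ⟨_, by omega, by omega, by omega, hg _ (by omega), fun m t => cx_d h4 h5⟩
  rcases Nat.lt_or_ge i (86 + 5 * n) with h6 | h6
  · exact Or.inl ⟨74, by omega, by omega, by omega, hg _ (by omega), fun m t => cx_g h5 h6⟩
  · exact Or.inl ⟨_, by omega, by omega, by omega, hg _ (by omega), fun m t => cx_e h6⟩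

/-- the rows without labels -/
def fixr (r : ℕ) : Bool := !Nat.beq r 25 && (!Nat.beq r 27 && Nat.blt r 47)

/-- check: in the rows without labels, the kinds depend on the groups only -/
def gck : Bool := allN (fun r => !fixr r || allN (fun c => Nat.beq (kdt r c) (kdt r (gr c))) 83) 85

theorem gck_true : gck = true := by decide +kernel

theorem fixr_of {r : ℕ} (h1 : r ≠ 25) (h2 : r ≠ 27) (h3 : r < 47) : fixr r = true := by
  have h4 : Nat.blt r 47 = true := Nat.ble_eq_true_of_le h3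
  unfold fixr
  rw [beq_ne h1, beq_ne h2, h4]
  rfl

theorem kdt_gr {r c : ℕ} (h1 : r ≠ 25) (h2 : r ≠ 27) (h3 : r < 47) (hc : c < 83) :
    kdt r c = kdt r (gr c) := by
  have h4 := (allN_iff _ _).1 gck_true r (by omega)
  rw [fixr_of h1 h2 h3, Bool.not_true, Bool.false_or] at h4
  exact Nat.eq_of_beq_eq_true ((allN_iff _ _).1 h4 c hc)

/-- nine pairs -/
def cb9 : List (ℕ × ℕ) := [(52, 52), (52, 81), (52, 82), (81, 52), (81, 81), (81, 82), (82, 52),
  (82, 81), (82, 82)]

/-- pairs of indices in consecutive lanes -/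
def l3 : List (ℕ × ℕ) := [(6, 6), (79, 6), (80, 79), (80, 80), (52, 52), (52, 81), (81, 82), (82, 82)]

/-- pairs of indices in consecutive bands -/
def l7 : List (ℕ × ℕ) := (6, 6) :: (6, 79) :: (79, 80) :: (80, 80) :: cb9

/-- pairs of indices in a band -/
def l6 : List (ℕ × ℕ) := (6, 6) :: (79, 79) :: (80, 80) :: cb9

/-- a column which is a group -/
def single (c : ℕ) : Bool := !Nat.beq c 6 && !Nat.beq c 52

theorem single_of {c : ℕ} (h1 : c ≠ 6) (h2 : c ≠ 52) : single c = true := by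
  unfold single
  rw [beq_ne h1, beq_ne h2]
  rfl

/-- check of vertical neighbours with indices `r`, `r'` of rows: pairs of equal columns and pairs of
the list `l` -/
def vp (r r' : ℕ) (l : List (ℕ × ℕ)) : Bool :=
  allN (fun c => !single c || vtb (kdt r c) (kdt r' c)) 79 &&
    l.all fun p => vtb (kdt r p.1) (kdt r' p.2)

theorem vp_of {r r' : ℕ} {l : List (ℕ × ℕ)} (h : vp r r' l = true) {c c' : ℕ}
    (hc : (c' = c ∧ c < 79 ∧ c ≠ 6 ∧ c ≠ 52) ∨ (c, c') ∈ l) : vtb (kdt r c) (kdt r' c') = true := by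
  unfold vp at h
  rw [Bool.and_eq_true] at h
  rcases hc with ⟨rfl, h1, h2, h3⟩ | hc
  · have h4 := (allN_iff _ _).1 h.1 c' h1
    rw [single_of h2 h3, Bool.not_true, Bool.false_or] at h4
    exact h4
  · exact List.all_eq_true.1 h.2 _ hc

/-- the check of the vertical neighbours -/
def vck : Bool :=
  (allN (fun r => vp r (Nat.add r 1) [(6, 6), (52, 52)]) 24 &&
    allN (fun r => vp (Nat.add 28 r) (Nat.add 29 r) [(6, 6), (52, 52)]) 18) &&
  (vp 24 25 [(6, 79), (6, 80), (52, 52), (52, 81)] && (vp 25 25 l3 &&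
    (vp 25 26 [(6, 6), (79, 6), (81, 52), (82, 52)] &&
  allN (fun a => vp 26 (Nat.add 47 a) [(6, 6), (6, 79), (52, 52), (52, 81), (52, 82)] &&
    (vp (Nat.add 47 a) (Nat.add 66 a) l6 &&
    (vp (Nat.add 66 a) 28 [(79, 6), (80, 6), (52, 52), (81, 52), (82, 52)] &&
    allN (fun b => vp (Nat.add 66 a) (Nat.add 47 b) l7) 19))) 19)))

theorem vck_true : vck = true := by decide +kernel

theorem vck1 {r : ℕ} (h : r < 24) : vp r (r + 1) [(6, 6), (52, 52)] = true := by
  have h1 := vck_true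
  unfold vck at h1
  simp only [Bool.and_eq_true] at h1
  exact (allN_iff _ _).1 h1.1.1 r h

theorem vck9 {r : ℕ} (h : 28 ≤ r) (h' : r < 46) : vp r (r + 1) [(6, 6), (52, 52)] = true := by
  have h1 := vck_true
  unfold vck at h1
  simp only [Bool.and_eq_true] at h1
  have h2 := (allN_iff _ _).1 h1.1.2 (r - 28) (by omega)
  have e1 : Nat.add 28 (r - 28) = r := by
    show 28 + (r - 28) = r
    omega
  have e2 : Nat.add 29 (r - 28) = r + 1 := by
    show 29 + (r - 28) = r + 1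
    omega
  rw [e1, e2] at h2
  exact h2

theorem vck2 : vp 24 25 [(6, 79), (6, 80), (52, 52), (52, 81)] = true := by
  have h1 := vck_true
  unfold vck at h1
  simp only [Bool.and_eq_true] at h1
  exact h1.2.1

theorem vck3 : vp 25 25 l3 = true := by
  have h1 := vck_true
  unfold vck at h1
  simp only [Bool.and_eq_true] at h1
  exact h1.2.2.1

theorem vck4 : vp 25 26 [(6, 6), (79, 6), (81, 52), (82, 52)] = true := by
  have h1 := vck_true
  unfold vck at h1
  simp only [Bool.and_eq_true] at h1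
  exact h1.2.2.2.1

theorem vckb {a : ℕ} (ha : a < 19) :
    (vp 26 (47 + a) [(6, 6), (6, 79), (52, 52), (52, 81), (52, 82)] &&
    (vp (47 + a) (66 + a) l6 &&
    (vp (66 + a) 28 [(79, 6), (80, 6), (52, 52), (81, 52), (82, 52)] &&
    allN (fun b => vp (66 + a) (Nat.add 47 b) l7) 19))) = true := by
  have h1 := vck_true
  unfold vck at h1
  simp only [Bool.and_eq_true] at h1
  exact (allN_iff _ _).1 h1.2.2.2.2 a ha

/-- **Vertical neighbours fit together.** -/
theorem vadj {i j : ℕ} (hi : i < nx P.n) (hj : j + 1 < ny P.n) :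
    vtb (kd P i j) (kd P i (j + 1)) = true := by
  have hn := P.pos
  unfold ny at hj
  -- rows without labels
  have hfix : ∀ r, r ≠ 25 → r ≠ 27 → r < 47 → ∀ m t, kdt r (cx P.n m t i) =
      kdt r (gr (cx P.n m t i)) := fun r h1 h2 h3 m t => kdt_gr h1 h2 h3 (cx_lt hi)
  -- pairs of rows without labels
  have key : ∀ r r', r ≠ 25 → r ≠ 27 → r < 47 → r' ≠ 25 → r' ≠ 27 → r' < 47 →
      vp r r' [(6, 6), (52, 52)] = true →
      vtb (kdt r (cx P.n 0 0 i)) (kdt r' (cx P.n 0 0 i)) = true := by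
    intro r r' a1 a2 a3 b1 b2 b3 h
    rw [hfix r a1 a2 a3, hfix r' b1 b2 b3]
    refine vp_of h ?_
    rcases cx_reg hi with ⟨c, c1, c2, c3, c4, c5⟩ | ⟨c1, c2, c3⟩ | ⟨c1, c2, c3⟩
    · rw [c5, c4]; exact Or.inl ⟨rfl, c1, c2, c3⟩
    · rw [c3]; exact Or.inr (by decide)
    · rw [c3]; exact Or.inr (by decide)
  rcases Nat.lt_or_ge j 24 with h1 | h1
  · -- lower rows
    rw [kd_a P (by omega), kd_a P (by omega)]
    exact key j (j + 1) (by omega) (by omega) (by omega) (by omega) (by omega) (by omega) (vck1 h1)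
  rcases Nat.eq_or_lt_of_le h1 with h2 | h2
  · -- from the lower rows to the lanes
    have e1 : j + 1 = P.n + 24 - (P.n - 1) := by omega
    rw [kd_a P (by omega), e1, kd_lane P (by omega), ← h2,
      hfix 24 (by decide) (by decide) (by decide)]
    refine vp_of vck2 ?_
    rcases cx_reg hi with ⟨c, c1, c2, c3, c4, c5⟩ | ⟨c1, c2, c3⟩ | ⟨c1, c2, c3⟩
    · rw [c5, c5, c4]; exact Or.inl ⟨rfl, c1, c2, c3⟩
    · rw [c3, cx_l c1 c2]
      refine Or.inr ?_
      split_ifs <;> first | decide | (exfalso; omega)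
    · rw [c3, cx_c c1 c2]
      refine Or.inr ?_
      split_ifs <;> first | decide | (exfalso; omega)
  rcases Nat.lt_or_ge j (24 + P.n) with h3 | h3
  · -- lanes
    obtain ⟨m, hm, e1, e2⟩ : ∃ m, m + 1 < P.n ∧ j = P.n + 24 - (m + 1) ∧ j + 1 = P.n + 24 - m :=
      ⟨P.n + 23 - j, by omega, by omega, by omega⟩
    rw [e2, kd_lane P (by omega), e1, kd_lane P hm]
    refine vp_of vck3 ?_
    rcases cx_reg hi with ⟨c, c1, c2, c3, c4, c5⟩ | ⟨c1, c2, c3⟩ | ⟨c1, c2, c3⟩
    · rw [c5, c5]; exact Or.inl ⟨rfl, c1, c2, c3⟩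
    · rw [cx_l c1 c2, cx_l c1 c2]
      refine Or.inr ?_
      split_ifs <;> first | decide | (exfalso; omega)
    · rw [cx_c c1 c2, cx_c c1 c2]
      refine Or.inr ?_
      split_ifs <;> first | decide | (exfalso; omega)
  rcases Nat.eq_or_lt_of_le h3 with h4 | h4
  · -- above the lanes
    have e1 : j + 1 = 25 + P.n := by omega
    have e2 : j = P.n + 24 - 0 := by omega
    rw [e1, kd_m, e2, kd_lane P (by omega), hfix 26 (by decide) (by decide) (by decide)]
    refine vp_of vck4 ?_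
    rcases cx_reg hi with ⟨c, c1, c2, c3, c4, c5⟩ | ⟨c1, c2, c3⟩ | ⟨c1, c2, c3⟩
    · rw [c5, c4]; exact Or.inl ⟨rfl, c1, c2, c3⟩
    · rw [c3, cx_l c1 c2]
      refine Or.inr ?_
      split_ifs <;> first | decide | (exfalso; omega)
    · rw [c3, cx_c c1 c2]
      refine Or.inr ?_
      split_ifs <;> first | decide | (exfalso; omega)
  rcases Nat.eq_or_lt_of_le (show 25 + P.n ≤ j by omega) with h5 | h5
  · -- below the bands
    have hb := vckb (ic_lt (P.M 0))
    simp only [Bool.and_eq_true] at hb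
    have e1 : j + 1 = 26 + P.n + 2 * 0 := by omega
    rw [e1, kd_lo P hn, ← h5, kd_m, hfix 26 (by decide) (by decide) (by decide)]
    refine vp_of hb.1 ?_
    rcases cx_reg hi with ⟨c, c1, c2, c3, c4, c5⟩ | ⟨c1, c2, c3⟩ | ⟨c1, c2, c3⟩
    · rw [c5, c5, c4]; exact Or.inl ⟨rfl, c1, c2, c3⟩
    · rw [c3, cx_l c1 c2]
      refine Or.inr ?_
      split_ifs <;> first | decide | (exfalso; omega)
    · rw [c3, cx_c c1 c2]
      refine Or.inr ?_
      split_ifs <;> decide
  rcases Nat.lt_or_ge (j + 1) (26 + 3 * P.n) with h6 | h6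
  · -- in the bands
    obtain ⟨m, hm, e1 | e1⟩ := band_cases (n := P.n) (j := j) (by omega) (by omega)
    · have hb := vckb (ic_lt (P.M m))
      simp only [Bool.and_eq_true] at hb
      have e2 : j + 1 = 27 + P.n + 2 * m := by omega
      rw [e2, kd_up P hm, e1, kd_lo P hm]
      refine vp_of hb.2.1 ?_
      rcases cx_reg hi with ⟨c, c1, c2, c3, c4, c5⟩ | ⟨c1, c2, c3⟩ | ⟨c1, c2, c3⟩
      · rw [c5, c5]; exact Or.inl ⟨rfl, c1, c2, c3⟩
      · rw [cx_l c1 c2, cx_l c1 c2]
        refine Or.inr ?_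
        split_ifs <;> decide
      · rw [cx_c c1 c2, cx_c c1 c2]
        refine Or.inr ?_
        split_ifs <;> decide
    · have hb := vckb (ic_lt (P.M m))
      simp only [Bool.and_eq_true] at hb
      have e2 : j + 1 = 26 + P.n + 2 * (m + 1) := by omega
      have hm' : m + 1 < P.n := by omega
      have hb2 := (allN_iff _ _).1 hb.2.2.2 (ic (P.M (m + 1))) (ic_lt _)
      rw [e2, kd_lo P hm', e1, kd_up P hm]
      refine vp_of hb2 ?_
      rcases cx_reg hi with ⟨c, c1, c2, c3, c4, c5⟩ | ⟨c1, c2, c3⟩ | ⟨c1, c2, c3⟩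
      · rw [c5, c5]; exact Or.inl ⟨rfl, c1, c2, c3⟩
      · rw [cx_l c1 c2, cx_l c1 c2]
        refine Or.inr ?_
        split_ifs <;> first | decide | (exfalso; omega)
      · rw [cx_c c1 c2, cx_c c1 c2]
        refine Or.inr ?_
        split_ifs <;> decide
  rcases Nat.eq_or_lt_of_le h6 with h7 | h7
  · -- above the bands
    have hm : P.n - 1 < P.n := by omega
    have hb := vckb (ic_lt (P.M (P.n - 1)))
    simp only [Bool.and_eq_true] at hb
    have e1 : j = 27 + P.n + 2 * (P.n - 1) := by omega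
    have e2 : j + 1 + 2 - 3 * P.n = 28 := by omega
    rw [kd_t P (show 26 + 3 * P.n ≤ j + 1 by omega), e2, e1, kd_up P hm,
      hfix 28 (by decide) (by decide) (by decide)]
    refine vp_of hb.2.2.1 ?_
    rcases cx_reg hi with ⟨c, c1, c2, c3, c4, c5⟩ | ⟨c1, c2, c3⟩ | ⟨c1, c2, c3⟩
    · rw [c5, c5, c4]; exact Or.inl ⟨rfl, c1, c2, c3⟩
    · rw [c3, cx_l c1 c2]
      refine Or.inr ?_
      split_ifs <;> first | decide | (exfalso; omega)
    · rw [c3, cx_c c1 c2]
      refine Or.inr ?_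
      split_ifs <;> decide
  · -- upper rows
    have e1 : j + 1 + 2 - 3 * P.n = j + 2 - 3 * P.n + 1 := by omega
    rw [kd_t P (show 26 + 3 * P.n ≤ j by omega), kd_t P (show 26 + 3 * P.n ≤ j + 1 by omega), e1]
    exact key _ _ (by omega) (by omega) (by omega) (by omega) (by omega) (by omega)
      (vck9 (by omega) (by omega))

end Pool.Agent.Lib.H32C.Ly
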