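import Pool.Agent.Lib.H32C.LayC

/-!
# The layout of the control part: the paths of the calls
-/

set_option autoImplicit false

namespace Pool.Agent.Lib.H32C.Ly

/-- checks of the table for the bands -/
def bck : Bool :=
  (allN (fun b => Nat.beq (out (kdt (Nat.add 47 b) 80) 0) 0 &&
    (allN (fun c => Nat.blt c 7 || (Nat.blt (sO b) c ||
      Nat.beq (out (kdt (Nat.add 47 b) c) 0) 0)) 52 &&
    (Nat.beq (kdt (Nat.add 66 b) (Nat.add (sO b) 1)) 23 &&
    (Nat.beq (kdt (Nat.add 47 b) (Nat.add (sO b) 1)) 24 &&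
    (Nat.beq (out (kdt (Nat.add 66 b) (sO b)) 1) 3 &&
    (allN (fun a => Nat.beq (out (kdt (Nat.add 47 a) (sO b)) 3) 3) 38 &&
    (allN (fun a => Nat.beq a b || (Nat.beq (out (kdt (Nat.add 47 a) (Nat.add (sO b) 1)) 3) 3 &&
      Nat.beq (out (kdt (Nat.add 66 a) (Nat.add (sO b) 1)) 3) 3)) 19 &&
    (allN (fun c => Nat.blt c (Nat.add (sO b) 2) || Nat.beq (out (kdt (Nat.add 47 b) c) 0) 0) 53 &&
    Nat.beq (out (kdt (Nat.add 47 b) 81) 0) 3)))))))) 17) &&
  ((allN (fun a => Nat.beq (out (kdt (Nat.add 47 a) 52) 3) 3 &&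
      (Nat.beq (out (kdt (Nat.add 47 a) 81) 3) 3 && (Nat.beq (out (kdt (Nat.add 47 a) 82) 3) 3 &&
      Nat.beq (out (kdt (Nat.add 47 a) 6) 2) 2))) 38) &&
  ((allN (fun a => cond (Nat.blt a 17) (Nat.beq (out (kdt (Nat.add 47 a) 79) 2) 0)
      (Nat.beq (out (kdt (Nat.add 47 a) 79) 2) 2 &&
      Nat.beq (out (kdt (Nat.add 66 a) 79) 2) 0)) 19) &&
  ((Nat.beq (out (kdt 26 52) 3) 3 && (Nat.beq (out (kdt 25 82) 3) 3 &&
      (Nat.beq (out (kdt 25 81) 3) 1 && (Nat.beq (out (kdt 25 80) 1) 1 &&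
      (Nat.beq (out (kdt 25 79) 1) 2 && (Nat.beq (out (kdt 25 6) 2) 2 &&
      (Nat.beq (out (kdt 26 6) 2) 2 && (allN (fun c => Nat.blt c 7 ||
        Nat.beq (out (kdt 25 c) 1) 1) 53)))))))) &&
  ((Nat.beq (out (kdt 83 80) 0) 0 && (Nat.beq (kdt 83 7) 21 && (Nat.beq (kdt 64 7) 22 &&
      (allN (fun c => Nat.blt c 8 || (Nat.beq (out (kdt 83 c) 0) 0 &&
        Nat.beq (out (kdt 64 c) 0) 0)) 53 &&
      (Nat.beq (out (kdt 83 81) 0) 3 && Nat.beq (out (kdt 64 81) 0) 3))))) &&
  (Nat.beq (out (kdt 84 80) 0) 0 && Nat.beq (kdt 84 7) 20)))))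

theorem bck_true : bck = true := by decide +kernel

/-- the facts of `bck`, unfolded -/
structure BData : Prop where
  a1 : ∀ b < 17, out (kdt (47 + b) 80) 0 = 0
  a2 : ∀ b < 17, ∀ c, 7 ≤ c → c ≤ sO b → c < 52 → out (kdt (47 + b) c) 0 = 0
  a3 : ∀ b < 17, kdt (66 + b) (sO b + 1) = 23
  a4 : ∀ b < 17, kdt (47 + b) (sO b + 1) = 24
  a5 : ∀ b < 17, out (kdt (66 + b) (sO b)) 1 = 3
  a6 : ∀ b < 17, ∀ a < 38, out (kdt (47 + a) (sO b)) 3 = 3
  a7 : ∀ b < 17, ∀ a < 19, a ≠ b → out (kdt (47 + a) (sO b + 1)) 3 = 3 ∧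
    out (kdt (66 + a) (sO b + 1)) 3 = 3
  a8 : ∀ b < 17, ∀ c, sO b + 2 ≤ c → c < 53 → out (kdt (47 + b) c) 0 = 0
  a9 : ∀ b < 17, out (kdt (47 + b) 81) 0 = 3
  b1 : ∀ a < 38, out (kdt (47 + a) 52) 3 = 3 ∧ out (kdt (47 + a) 81) 3 = 3 ∧
    out (kdt (47 + a) 82) 3 = 3 ∧ out (kdt (47 + a) 6) 2 = 2
  b2 : ∀ a < 17, out (kdt (47 + a) 79) 2 = 0
  b3 : ∀ a < 19, 17 ≤ a → out (kdt (47 + a) 79) 2 = 2 ∧ out (kdt (66 + a) 79) 2 = 0
  c1 : out (kdt 26 52) 3 = 3
  c2 : out (kdt 25 82) 3 = 3
  c3 : out (kdt 25 81) 3 = 1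
  c4 : out (kdt 25 80) 1 = 1
  c5 : out (kdt 25 79) 1 = 2
  c6 : out (kdt 25 6) 2 = 2
  c7 : out (kdt 26 6) 2 = 2
  c8 : ∀ c, 7 ≤ c → c < 53 → out (kdt 25 c) 1 = 1
  d1 : out (kdt 83 80) 0 = 0
  d2 : kdt 83 7 = 21
  d3 : kdt 64 7 = 22
  d4 : ∀ c, 8 ≤ c → c < 53 → out (kdt 83 c) 0 = 0 ∧ out (kdt 64 c) 0 = 0
  d5 : out (kdt 83 81) 0 = 3 ∧ out (kdt 64 81) 0 = 3
  e1 : out (kdt 84 80) 0 = 0
  e2 : kdt 84 7 = 20

theorem blt_false {a b : ℕ} (h : b ≤ a) : Nat.blt a b = false := by
  cases h1 : Nat.blt a b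
  · rfl
  · exact absurd (blt_of h1) (by omega)

theorem bdata : BData := by
  have h := bck_true
  unfold bck at h
  simp only [Bool.and_eq_true] at h
  obtain ⟨hA, ⟨hB, ⟨hC, ⟨hD, ⟨hE, hG⟩⟩⟩⟩⟩ := h
  have hA' := fun b (hb : b < 17) => (allN_iff _ _).1 hA b hb
  simp only [Bool.and_eq_true] at hA'
  have hB' := fun b (hb : b < 38) => (allN_iff _ _).1 hB b hb
  simp only [Bool.and_eq_true] at hB'
  have hC' := fun b (hb : b < 19) => (allN_iff _ _).1 hC b hb
  refine ⟨?_, ?_, ?_, ?_, ?_, ?_, ?_, ?_, ?_, ?_, ?_, ?_, ?_, ?_, ?_, ?_, ?_, ?_, ?_, ?_, ?_, ?_, ?_,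
    ?_, ?_, ?_, ?_⟩
  · exact fun b hb => Nat.eq_of_beq_eq_true (hA' b hb).1
  · intro b hb c h1 h2 h3
    have h4 := (allN_iff _ _).1 (hA' b hb).2.1 c h3
    exact Nat.eq_of_beq_eq_true (or_of_false (or_of_false h4 (blt_false h1)) (blt_false h2))
  · exact fun b hb => Nat.eq_of_beq_eq_true (hA' b hb).2.2.1
  · exact fun b hb => Nat.eq_of_beq_eq_true (hA' b hb).2.2.2.1
  · exact fun b hb => Nat.eq_of_beq_eq_true (hA' b hb).2.2.2.2.1
  · exact fun b hb a ha => Nat.eq_of_beq_eq_true ((allN_iff _ _).1 (hA' b hb).2.2.2.2.2.1 a ha)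
  · intro b hb a ha hab
    have h4 := (allN_iff _ _).1 (hA' b hb).2.2.2.2.2.2.1 a ha
    have h5 := or_of_false h4 (beq_ne hab)
    rw [Bool.and_eq_true] at h5
    exact ⟨Nat.eq_of_beq_eq_true h5.1, Nat.eq_of_beq_eq_true h5.2⟩
  · intro b hb c h1 h2
    have h4 := (allN_iff _ _).1 (hA' b hb).2.2.2.2.2.2.2.1 c h2
    exact Nat.eq_of_beq_eq_true (or_of_false h4 (blt_false h1))
  · exact fun b hb => Nat.eq_of_beq_eq_true (hA' b hb).2.2.2.2.2.2.2.2
  · intro a ha
    obtain ⟨g1, g2, g3, g4⟩ := hB' a ha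
    exact ⟨Nat.eq_of_beq_eq_true g1, Nat.eq_of_beq_eq_true g2, Nat.eq_of_beq_eq_true g3,
      Nat.eq_of_beq_eq_true g4⟩
  · intro a ha
    have g := hC' a (by omega)
    have g0 : Nat.blt a 17 = true := Nat.ble_eq_true_of_le ha
    rw [g0, cond_true] at g
    exact Nat.eq_of_beq_eq_true g
  · intro a ha ha2
    have g := hC' a ha
    rw [blt_false ha2, cond_false, Bool.and_eq_true] at g
    exact ⟨Nat.eq_of_beq_eq_true g.1, Nat.eq_of_beq_eq_true g.2⟩
  · exact Nat.eq_of_beq_eq_true hD.1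
  · exact Nat.eq_of_beq_eq_true hD.2.1
  · exact Nat.eq_of_beq_eq_true hD.2.2.1
  · exact Nat.eq_of_beq_eq_true hD.2.2.2.1
  · exact Nat.eq_of_beq_eq_true hD.2.2.2.2.1
  · exact Nat.eq_of_beq_eq_true hD.2.2.2.2.2.1
  · exact Nat.eq_of_beq_eq_true hD.2.2.2.2.2.2.1
  · intro c h1 h2
    have h4 := (allN_iff _ _).1 hD.2.2.2.2.2.2.2 c h2
    exact Nat.eq_of_beq_eq_true (or_of_false h4 (blt_false h1))
  · exact Nat.eq_of_beq_eq_true hE.1
  · exact Nat.eq_of_beq_eq_true hE.2.1
  · exact Nat.eq_of_beq_eq_true hE.2.2.1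
  · intro c h1 h2
    have h4 := (allN_iff _ _).1 hE.2.2.2.1 c h2
    have h5 := or_of_false h4 (blt_false h1)
    rw [Bool.and_eq_true] at h5
    exact ⟨Nat.eq_of_beq_eq_true h5.1, Nat.eq_of_beq_eq_true h5.2⟩
  · exact ⟨Nat.eq_of_beq_eq_true hE.2.2.2.2.1, Nat.eq_of_beq_eq_true hE.2.2.2.2.2⟩
  · exact Nat.eq_of_beq_eq_true hG.1
  · exact Nat.eq_of_beq_eq_true hG.2

/-- the facts of `svc_tab`, unfolded -/
theorem svc_data {b : ℕ} (hb : b < 17) : sO b < 50 ∧ 7 < sO b ∧ enS b < 79 ∧ exS b < 79 ∧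
    bigS (enS b) = false ∧ bigS (exS b) = false ∧ enL b < 47 ∧ exL b < 47 ∧ enD b < 4 ∧
    exD b < 4 ∧ enL b ≠ 25 ∧ enL b ≠ 27 ∧ exL b ≠ 25 ∧ exL b ≠ 27 := by
  have h := (allN_iff _ _).1 svc_tab b hb
  simp only [Bool.and_eq_true] at h
  obtain ⟨h1, h2, h3, h4, h5, h6, h7, h8, h9, h10, h11, h12, h13, h14⟩ := h
  exact ⟨blt_of h1, blt_of h2, blt_of h3, blt_of h4, by simpa using h5, by simpa using h6, blt_of h7,
    blt_of h8, blt_of h9, blt_of h10, bne_false h11, bne_false h12, bne_false h13, bne_false h14⟩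

section paths

variable {P : Prog} {G : FGeo} {VH VV : ℕ → ℕ → Option ℕ → Far → Pos} (hT : TileSys P G VH VV)
  {μ : Option ℕ} {F : Far} (hF : FarOk G F)

include hT hF

/-- from a target column down, over the lane and up the loop to the label -/
theorem to_label {t r : ℕ} (ht : t < P.n) (h1 : 26 + P.n ≤ r) (h2 : r ≤ 26 + 3 * P.n) :
    Imp (VV (51 + P.n + t) r μ F) (VV (lp P.n t) (lo P.n t) μ F) := by
  have hn := P.pos
  have hB := bdata
  have hx : 51 + P.n + t < nx P.n := by unfold nx; omega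
  have hx2 : lp P.n t < nx P.n := by unfold nx lp; omega
  have hcx : ∀ m t' i, i = 51 + P.n + t → cx P.n m t' i = 52 ∨ cx P.n m t' i = 81 ∨
      cx P.n m t' i = 82 := by
    rintro m t' i rfl
    rw [cx_c (by omega) (by omega)]
    split_ifs <;> simp
  -- bands
  have s1 : Imp (VV (51 + P.n + t) r μ F) (VV (51 + P.n + t) (26 + P.n) μ F) := by
    refine run3 hT hF hx (by unfold ny; omega) h1 fun j h3 h4 => ?_
    obtain ⟨m, hm, rfl | rfl⟩ := band_cases h3 (by omega)
    · rw [kd_lo P hm]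
      have := hB.b1 (ic (P.M m)) ((ic_lt _).trans (by decide))
      rcases hcx m (tLo (P.M m)) _ rfl with e | e | e <;> rw [e]
      · exact this.1
      · exact this.2.1
      · exact this.2.2.1
    · rw [kd_up P hm]
      have := hB.b1 (19 + ic (P.M m)) (by have := ic_lt (P.M m); omega)
      have e0 : 47 + (19 + ic (P.M m)) = 66 + ic (P.M m) := by omega
      rw [e0] at this
      rcases hcx m (tUp (P.M m)) _ rfl with e | e | e <;> rw [e]
      · exact this.1
      · exact this.2.1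
      · exact this.2.2.1
  -- down to the lane
  have s2 : Imp (VV (51 + P.n + t) (26 + P.n) μ F) (VV (51 + P.n + t) (P.n + 25 - t) μ F) := by
    refine run3 hT hF hx (by unfold ny; omega) (by omega) fun j h3 h4 => ?_
    rcases Nat.eq_or_lt_of_le (show j ≤ 25 + P.n by omega) with h5 | h5
    · rw [h5, kd_m, kdt_gr (by decide) (by decide) (by decide) (cx_lt hx)]
      rcases hcx 0 0 _ rfl with e | e | e <;> rw [e] <;> exact hB.c1
    · obtain ⟨m, hm, rfl⟩ : ∃ m < t, j = P.n + 24 - m := ⟨P.n + 24 - j, by omega, by omega⟩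
      rw [kd_lane P (by omega), cx_c (by omega) (by omega), if_neg (by omega), if_neg (by omega)]
      exact hB.c2
  -- the corner
  have k3 : out (kd P (51 + P.n + t) (P.n + 24 - t)) 3 = 1 := by
    rw [kd_lane P ht, cx_c (by omega) (by omega), if_neg (by omega), if_pos (by omega)]
    exact hB.c3
  have s3 := hT.wire (51 + P.n + t) (P.n + 24 - t) 3 μ F hx (by unfold ny; omega) (by decide) hF
    (by rw [k3]; decide)
  rw [k3] at s3
  have e3 : P.n + 24 - t + 1 = P.n + 25 - t := by omega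
  simp only [ent, lea, e3] at s3
  -- the lane
  have s4 : Imp (VH (51 + P.n + t) (P.n + 24 - t) μ F) (VH (lp P.n t + 1) (P.n + 24 - t) μ F) := by
    refine run1 hT hF (by unfold ny; omega) hx.le (by unfold lp; omega) fun i h3 h4 => ?_
    unfold lp at h3
    rw [kd_lane P ht]
    rcases Nat.lt_or_ge i (6 + P.n) with h5 | h5
    · rw [cx_l (by omega) h5, if_neg (by omega), if_neg (by omega)]
      exact hB.c4
    rcases Nat.lt_or_ge i (51 + P.n) with h6 | h6
    · rw [cx_b h5 h6]
      exact hB.c8 _ (by omega) (by omega)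
    · rw [cx_c h6 (by omega), if_pos (by omega)]
      exact hB.c8 _ (by decide) (by decide)
  -- the corner at the loop
  have k5 : out (kd P (lp P.n t) (P.n + 24 - t)) 1 = 2 := by
    rw [kd_lane P ht, cx_l (by unfold lp; omega) (by unfold lp; omega),
      if_neg (by unfold lp; omega), if_pos (by unfold lp; omega)]
    exact hB.c5
  have s5 := hT.wire (lp P.n t) (P.n + 24 - t) 1 μ F hx2 (by unfold ny; omega) (by decide) hF
    (by rw [k5]; decide)
  rw [k5] at s5
  simp only [ent, lea, e3] at s5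
  -- the loop
  have s6 : Imp (VV (lp P.n t) (P.n + 25 - t) μ F) (VV (lp P.n t) (lo P.n t) μ F) := by
    refine run2 hT hF hx2 (by unfold ny lo; omega) (by unfold lo; omega) fun j h3 h4 => ?_
    unfold lo at h4
    have hl1 : 6 ≤ lp P.n t := by unfold lp; omega
    have hl2 : lp P.n t < 6 + P.n := by unfold lp; omega
    rcases Nat.lt_or_ge j (25 + P.n) with h5 | h5
    · obtain ⟨m, hm, rfl⟩ : ∃ m < t, j = P.n + 24 - m := ⟨P.n + 24 - j, by omega, by omega⟩
      rw [kd_lane P (by omega), cx_l hl1 hl2, if_pos (by unfold lp; omega)]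
      exact hB.c6
    rcases Nat.eq_or_lt_of_le h5 with h6 | h6
    · rw [← h6, kd_m, kdt_gr (by decide) (by decide) (by decide) (cx_lt hx2), cx_l hl1 hl2]
      split_ifs <;> exact hB.c7
    · obtain ⟨m, hm, rfl | rfl⟩ := band_cases (show 26 + P.n ≤ j by omega) (by omega)
      · rw [kd_lo P hm, cx_l hl1 hl2, if_pos (by unfold lp; omega)]
        exact (hB.b1 _ ((ic_lt _).trans (by decide))).2.2.2
      · rw [kd_up P hm, cx_l hl1 hl2, if_pos (by unfold lp; omega)]
        have := hB.b1 (19 + ic (P.M m)) (by have := ic_lt (P.M m); omega)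
        have e0 : 47 + (19 + ic (P.M m)) = 66 + ic (P.M m) := by omega
        rw [e0] at this
        exact this.2.2.2
  exact s1.trans (s2.trans (s3.trans (s4.trans (s5.trans s6))))

/-- from the label of a call to the first column after the loops -/
theorem from_label_lo {m : ℕ} (hm : m < P.n) (h : ic (P.M m) < 17) :
    Imp (VV (lp P.n m) (lo P.n m) μ F) (VH (6 + P.n) (lo P.n m) μ F) := by
  have hx2 : lp P.n m < nx P.n := by unfold nx lp; omega
  have k7 : out (kd P (lp P.n m) (lo P.n m)) 2 = 0 := by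
    unfold lo
    rw [kd_lo P hm, cx_l (by unfold lp; omega) (by unfold lp; omega),
      if_neg (by unfold lp; omega), if_pos (by unfold lp; omega)]
    exact bdata.b2 _ h
  have s7 := hT.wire (lp P.n m) (lo P.n m) 2 μ F hx2 (by unfold ny lo; omega) (by decide) hF
    (by rw [k7]; decide)
  rw [k7] at s7
  simp only [ent, lea] at s7
  refine s7.trans (run0 hT hF (by unfold ny lo; omega) (by unfold nx; omega) (by unfold lp; omega)
    fun i h3 h4 => ?_)
  unfold lp at h3
  unfold lo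
  rw [kd_lo P hm, cx_l (by omega) h4, if_neg (by omega), if_neg (by omega)]
  exact bdata.a1 _ h

/-- from the label of a choice or an end to the first column after the loops -/
theorem from_label {m : ℕ} (hm : m < P.n) (h17 : 17 ≤ ic (P.M m))
    (h : out (kdt (66 + ic (P.M m)) 80) 0 = 0) :
    Imp (VV (lp P.n m) (lo P.n m) μ F) (VH (6 + P.n) (up P.n m) μ F) := by
  have hx2 : lp P.n m < nx P.n := by unfold nx lp; omega
  have k6 : out (kd P (lp P.n m) (lo P.n m)) 2 = 2 := by
    unfold lo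
    rw [kd_lo P hm, cx_l (by unfold lp; omega) (by unfold lp; omega),
      if_neg (by unfold lp; omega), if_pos (by unfold lp; omega)]
    exact (bdata.b3 _ (ic_lt _) h17).1
  have s6 := hT.wire (lp P.n m) (lo P.n m) 2 μ F hx2 (by unfold ny lo; omega) (by decide) hF
    (by rw [k6]; decide)
  have k7 : out (kd P (lp P.n m) (up P.n m)) 2 = 0 := by
    unfold up
    rw [kd_up P hm, cx_l (by unfold lp; omega) (by unfold lp; omega),
      if_neg (by unfold lp; omega), if_pos (by unfold lp; omega)]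
    exact (bdata.b3 _ (ic_lt _) h17).2
  have s7 := hT.wire (lp P.n m) (up P.n m) 2 μ F hx2 (by unfold ny up; omega) (by decide) hF
    (by rw [k7]; decide)
  rw [k6] at s6
  rw [k7] at s7
  have e6 : lo P.n m + 1 = up P.n m := by unfold lo up; omega
  simp only [ent, lea, e6] at s6 s7
  refine s6.trans (s7.trans ?_)
  refine run0 hT hF (by unfold ny up; omega) (by unfold nx; omega) (by unfold lp; omega)
    fun i h3 h4 => ?_
  unfold lp at h3
  unfold up
  rw [kd_up P hm, cx_l (by omega) h4, if_neg (by omega), if_neg (by omega)]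
  exact h

omit hF in
/-- from the label of a call to the entry of the service -/
theorem to_svc {F : Far} (hF : FarOk G F) {m t : ℕ} {s : Svc} (hm : m < P.n)
    (hc : P.M m = Md.call s t) :
    Imp (VV (lp P.n m) (lo P.n m) none F)
      (ent VH VV (enI P.n (sc s)) (enJ P.n (sc s)) (enD (sc s)) (some m) F) := by
  have hn := P.pos
  have hB := bdata
  have hb := sc_lt s
  obtain ⟨g1, g2, g3, g4, g5, g6, g7, g8, g9, g10, g11, g12, g13, g14⟩ := svc_data hb
  set b := sc s with hbs
  have hic : ic (P.M m) = b := by rw [hc]; rfl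
  have s1 := from_label_lo hT (μ := none) hF hm (by rw [hic]; exact hb)
  -- to the memory
  have hrc : xf P.n (sO b + 1) = sO b + P.n := by unfold xf; split_ifs <;> omega
  have hoc : xf P.n (sO b) = sO b - 1 + P.n := by unfold xf; split_ifs <;> omega
  have hx : sO b + P.n < nx P.n := by unfold nx; omega
  have s2 : Imp (VH (6 + P.n) (lo P.n m) none F) (VH (sO b + P.n) (lo P.n m) none F) := by
    refine run0 hT hF (by unfold ny lo; omega) hx.le (by omega) fun i h3 h4 => ?_
    unfold lo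
    rw [kd_lo P hm, hic, cx_b h3 (by omega)]
    exact hB.a2 b hb _ (by omega) (by omega) (by omega)
  have cr : ∀ t, cx P.n m t (sO b + P.n) = sO b + 1 := by
    intro t
    rw [cx_b (by omega) (by omega)]; omega
  have s3 := hT.set (sO b + P.n) m F hm hx hF
    (by unfold lo; rw [kd_lo P hm, hic, cr]; exact hB.a4 b hb)
    (by unfold up; rw [kd_up P hm, hic, cr]; exact hB.a3 b hb)
  -- the merge
  have k4 : out (kd P (sO b - 1 + P.n) (up P.n m)) 1 = 3 := by
    unfold up
    rw [kd_up P hm, hic, cx_b (by omega) (by omega)]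
    have e : sO b - 1 + P.n + 1 - P.n = sO b := by omega
    rw [e]
    exact hB.a5 b hb
  have s4 := hT.wire (sO b - 1 + P.n) (up P.n m) 1 (some m) F (by omega)
    (by unfold ny up; omega) (by decide) hF (by rw [k4]; decide)
  rw [k4] at s4
  have e4 : sO b - 1 + P.n + 1 = sO b + P.n := by omega
  simp only [ent, lea, e4] at s4
  -- down the column
  have s5 : Imp (VV (sO b - 1 + P.n) (up P.n m) (some m) F)
      (VV (sO b - 1 + P.n) (26 + P.n) (some m) F) := by
    refine run3 hT hF (by omega) (by unfold ny up; omega) (by unfold up; omega) fun j h3 h4 => ?_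
    unfold up at h4
    obtain ⟨a, ha, h5⟩ := kd_band P (s := sO b) (by omega) (by omega) (by omega) h3 (by omega)
    rw [← hoc, h5]
    exact hB.a6 b hb a ha
  have s6 := walk_imp hT (μ := some m) hF 200 (sO b) 26 3 (by omega) (by decide) (by decide)
    ((allN_iff _ _).1 walk_to b hb)
  have e6 : gent (fun a b => VH a b (some m) F) (fun a b => VV a b (some m) F) P.n (sO b) 26 3 =
      VV (sO b - 1 + P.n) (26 + P.n) (some m) F := by
    simp only [gent, hoc]
    rfl
  rw [e6] at s6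
  have e7 : gent (fun a b => VH a b (some m) F) (fun a b => VV a b (some m) F) P.n (enS b) (enL b)
      (enD b) = ent VH VV (enI P.n b) (enJ P.n b) (enD b) (some m) F := by
    obtain ⟨b1, b2, b3⟩ := bigS_false g5
    unfold gent ent enI enJ
    rw [xf_succ b1 b2 b3, yf_succ g11 g12]
    split_ifs <;> rfl
  rw [e7] at s6
  exact s1.trans (s2.trans (s3.trans ((Imp.of_eq rfl).trans (s4.trans (s5.trans s6)))))

/-- down the column of the returns, over the bands above `m` -/
theorem ret_down {m : ℕ} {b : ℕ} (hb : b < 17) (hμ : μ = some m) {k : ℕ} (hk : k ≤ P.n)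
    (hmk : m + 1 ≤ k) : Imp (VV (sO b + P.n) (26 + P.n + 2 * k) μ F)
      (VV (sO b + P.n) (up P.n m + 1) μ F) := by
  have hn := P.pos
  have hB := bdata
  obtain ⟨g1, g2, -⟩ := svc_data hb
  have hx : sO b + P.n < nx P.n := by unfold nx; omega
  induction k, hmk using Nat.le_induction with
  | base =>
    exact Imp.of_eq (by congr 1; unfold up; omega)
  | succ k hmk ih =>
    refine Imp.trans ?_ (ih (by omega))
    have hkn : k < P.n := by omega
    have cr : ∀ t, cx P.n k t (sO b + P.n) = sO b + 1 := by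
      intro t
      rw [cx_b (by omega) (by omega)]; omega
    have klo : kd P (sO b + P.n) (lo P.n k) = kdt (47 + ic (P.M k)) (sO b + 1) := by
      unfold lo; rw [kd_lo P hkn, cr]
    have kup : kd P (sO b + P.n) (up P.n k) = kdt (66 + ic (P.M k)) (sO b + 1) := by
      unfold up; rw [kd_up P hkn, cr]
    have e1 : 26 + P.n + 2 * (k + 1) = up P.n k + 1 := by unfold up; omega
    by_cases hic : ic (P.M k) = b
    · rw [e1]
      refine hT.pass _ k μ F hkn hx hF ?_ ?_ ?_
      · rw [klo, hic]; exact hB.a4 b hb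
      · rw [kup, hic]; exact hB.a3 b hb
      · rw [hμ]
        simp only [ne_eq, Option.some.injEq]
        omega
    · obtain ⟨f1, f2⟩ := hB.a7 b hb (ic (P.M k)) (ic_lt _) hic
      have w1 := hT.wire (sO b + P.n) (up P.n k) 3 μ F hx (by unfold ny up; omega) (by decide) hF
        (by rw [kup, f2]; decide)
      rw [kup, f2] at w1
      have w2 := hT.wire (sO b + P.n) (lo P.n k) 3 μ F hx (by unfold ny lo; omega) (by decide) hF
        (by rw [klo, f1]; decide)
      rw [klo, f1] at w2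
      simp only [ent, lea] at w1 w2
      rw [e1]
      have e2 : lo P.n k + 1 = up P.n k := by unfold lo up; omega
      simp only [e2] at w2
      exact w1.trans w2

/-- from the lower or upper wire of a band to the target -/
theorem to_target {m t j i0 : ℕ} (ht : t < P.n) (hj : j < ny P.n)
    (hi0 : i0 ≤ 51 + P.n) (h1 : 26 + P.n ≤ j) (h2 : j < 26 + 3 * P.n)
    (hr : ∀ i, i0 ≤ i → i < 51 + P.n → out (kd P i j) 0 = 0) (hc : ∀ i, kd P i j = kdt m (cx P.n ((j - 26 - P.n) / 2) t i))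
    (h52 : out (kdt m 52) 0 = 0) (h81 : out (kdt m 81) 0 = 3) :
    Imp (VH i0 j μ F) (VV (lp P.n t) (lo P.n t) μ F) := by
  have hx : 51 + P.n + t < nx P.n := by unfold nx; omega
  have s1 : Imp (VH i0 j μ F) (VH (51 + P.n + t) j μ F) := by
    refine run0 hT hF hj hx.le (by omega) fun i h3 h4 => ?_
    rcases Nat.lt_or_ge i (51 + P.n) with h5 | h5
    · exact hr i h3 h5
    · rw [hc, cx_c h5 (by omega), if_pos (by omega)]
      exact h52
  have k2 : out (kd P (51 + P.n + t) j) 0 = 3 := by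
    rw [hc, cx_c (by omega) (by omega), if_neg (by omega), if_pos rfl]
    exact h81
  have s2 := hT.wire (51 + P.n + t) j 0 μ F hx hj (by decide) hF (by rw [k2]; decide)
  rw [k2] at s2
  simp only [ent, lea] at s2
  exact s1.trans (s2.trans (to_label hT hF ht h1 h2.le))

omit hF in
/-- from the exit of a service to the target of the call -/
theorem from_svc {F : Far} (hF : FarOk G F) {m t : ℕ} {s : Svc} (hm : m < P.n)
    (hc : P.M m = Md.call s t) :
    Imp (ent VH VV (exI P.n (sc s)) (exJ P.n (sc s)) (exD (sc s)) (some m) F)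
      (VV (lp P.n t) (lo P.n t) none F) := by
  have hn := P.pos
  have hB := bdata
  have hb := sc_lt s
  have ht : t < P.n := by
    have := P.tg m hm t
    rw [hc] at this
    exact this rfl
  obtain ⟨g1, g2, g3, g4, g5, g6, g7, g8, g9, g10, g11, g12, g13, g14⟩ := svc_data hb
  set b := sc s with hbs
  have hic : ic (P.M m) = b := by rw [hc]; rfl
  have htl : tLo (P.M m) = t := by rw [hc]; rfl
  have hrc : xf P.n (sO b + 1) = sO b + P.n := by unfold xf; split_ifs <;> omega
  have hx : sO b + P.n < nx P.n := by unfold nx; omega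
  have s1 := walk_imp hT (μ := some m) hF 200 (exS b) (exL b) (exD b) g4 g8 g10
    ((allN_iff _ _).1 walk_from b hb)
  have e1 : gent (fun a b => VH a b (some m) F) (fun a b => VV a b (some m) F) P.n
      (Nat.add (sO b) 1) 27 3 = VV (sO b + P.n) (26 + P.n + 2 * P.n) (some m) F := by
    simp only [gent]
    have e0 : xf P.n (Nat.add (sO b) 1) = sO b + P.n := hrc
    have e00 : yf P.n (27 + 1) = 26 + P.n + 2 * P.n := by
      have : yf P.n (27 + 1) = 26 + 3 * P.n := rfl
      omega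
    rw [e0, e00]
    rfl
  rw [e1] at s1
  have e2 : gent (fun a b => VH a b (some m) F) (fun a b => VV a b (some m) F) P.n (exS b) (exL b)
      (exD b) = ent VH VV (exI P.n b) (exJ P.n b) (exD b) (some m) F := by
    obtain ⟨b1, b2, b3⟩ := bigS_false g6
    unfold gent ent exI exJ
    rw [xf_succ b1 b2 b3, yf_succ g13 g14]
    split_ifs <;> rfl
  rw [e2] at s1
  have s2 := ret_down hT hF hb (μ := some m) (m := m) rfl (k := P.n) le_rfl (by omega)
  have cr : ∀ t, cx P.n m t (sO b + P.n) = sO b + 1 := by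
    intro t
    rw [cx_b (by omega) (by omega)]; omega
  have s3 := hT.ret (sO b + P.n) m F hm hx hF
    (by unfold lo; rw [kd_lo P hm, hic, cr]; exact hB.a4 b hb)
    (by unfold up; rw [kd_up P hm, hic, cr]; exact hB.a3 b hb)
  have hlo : (lo P.n m - 26 - P.n) / 2 = m := by unfold lo; omega
  have s4 := to_target hT (μ := none) hF (m := 47 + b) (t := t) (j := lo P.n m)
    (i0 := sO b + P.n + 1) ht
    (by unfold ny lo; omega) (by omega) (by unfold lo; omega) (by unfold lo; omega)
    (fun i h3 h4 => by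
      unfold lo
      rw [kd_lo P hm, hic, cx_b (by omega) (by omega)]
      exact hB.a8 b hb _ (by omega) (by omega))
    (fun i => by
      rw [hlo]
      unfold lo
      rw [kd_lo P hm, hic, htl])
    (hB.a8 b hb 52 (by omega) (by decide)) (hB.a9 b hb)
  exact s1.trans (s2.trans (s3.trans s4))

/-- from the choice to the target of its upper wire -/
theorem cho_upper {m a b : ℕ} (hm : m < P.n) (hc : P.M m = Md.choice a b) :
    Imp (VH (7 + P.n) (up P.n m) μ F) (VV (lp P.n a) (lo P.n a) μ F) := by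
  have hB := bdata
  have ha : a < P.n := by
    have := P.tg m hm a
    rw [hc] at this
    exact this (Or.inl rfl)
  have hic : ic (P.M m) = 17 := by rw [hc]; rfl
  have htu : tUp (P.M m) = a := by rw [hc]; rfl
  have hup : (up P.n m - 26 - P.n) / 2 = m := by unfold up; omega
  exact to_target hT hF (m := 83) (t := a) (j := up P.n m) ha (by unfold ny up; omega) (by omega)
    (by unfold up; omega) (by unfold up; omega)
    (fun i h3 h4 => by
      unfold up
      rw [kd_up P hm, hic, cx_b (by omega) (by omega)]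
      exact (hB.d4 _ (by omega) (by omega)).1)
    (fun i => by
      rw [hup]
      unfold up
      rw [kd_up P hm, hic, htu])
    (hB.d4 52 (by decide) (by decide)).1 hB.d5.1

/-- from the choice to the target of its lower wire -/
theorem cho_lower {m a b : ℕ} (hm : m < P.n) (hc : P.M m = Md.choice a b) :
    Imp (VH (7 + P.n) (lo P.n m) μ F) (VV (lp P.n b) (lo P.n b) μ F) := by
  have hB := bdata
  have hb : b < P.n := by
    have := P.tg m hm b
    rw [hc] at this
    exact this (Or.inr rfl)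
  have hic : ic (P.M m) = 17 := by rw [hc]; rfl
  have htl : tLo (P.M m) = b := by rw [hc]; rfl
  have hlo : (lo P.n m - 26 - P.n) / 2 = m := by unfold lo; omega
  exact to_target hT hF (m := 64) (t := b) (j := lo P.n m) hb (by unfold ny lo; omega) (by omega)
    (by unfold lo; omega) (by unfold lo; omega)
    (fun i h3 h4 => by
      unfold lo
      rw [kd_lo P hm, hic, cx_b (by omega) (by omega)]
      exact (hB.d4 _ (by omega) (by omega)).2)
    (fun i => by
      rw [hlo]
      unfold lo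
      rw [kd_lo P hm, hic, htl])
    (hB.d4 52 (by decide) (by decide)).2 hB.d5.2

end paths

end Pool.Agent.Lib.H32C.Ly
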