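import Pool.Agent.Lib.H32C.FarEnd
import Pool.Agent.Lib.H32C.FarGlue
import Pool.Agent.Lib.H32C.LayD

/-!
# The layout of the control part: the reduction to tiles
-/

set_option autoImplicit false

namespace Pool.Agent.Lib.H32C.Ly

/-! ### Far pieces -/

theorem farOk_of_inv {G : FGeo} {s : Svc} {F : Far} (h : Inv G s F) : FarOk G F := by
  refine ⟨⟨h.1, h.2.1, h.2.2.1, h.2.2.2.1⟩, ?_⟩
  have h5 := h.2.2.2.2
  cases s with
  | E => exact Or.inl h5.1
  | W => exact Or.inl h5.1
  | N => exact Or.inl h5.1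
  | N1 => exact Or.inl h5.1
  | N2 => exact Or.inl h5.1
  | H q => exact Or.inl h5.1
  | Z q => exact Or.inl h5.1
  | T q => exact Or.inl h5.1
  | Out => exact Or.inl (Or.inl h5.2)
  | Bin => exact Or.inl (Or.inr h5.2)
  | Tb =>
    rcases h5.2 with h6 | h6
    · exact Or.inl (Or.inr h6)
    · exact Or.inr h6

theorem farOk_of_adm {G : FGeo} {F : Far} (h : Adm G F) : FarOk G F :=
  ⟨⟨h.1, h.2.1, h.2.2.1, h.2.2.2.1⟩, Or.inl h.2.2.2.2⟩

theorem farOk_of_stepU {G : FGeo} {s : Svc} {F F' : Far} (h : Inv G s F) (hs : StepU G s F F')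
    (hb : FBase G F') : FarOk G F' := by
  refine ⟨hb, ?_⟩
  have h5 := h.2.2.2.2
  have key : BOk G F → (∃ q t, G.ray s t ∧ FarU G F (F.q q) t ∧ F' = F.set q t) → BOk G F' := by
    rintro h1 ⟨q, t, -, -, rfl⟩
    exact h1
  cases s with
  | E => exact Or.inl (key h5.1 hs)
  | W => exact Or.inl (key h5.1 hs)
  | N => exact Or.inl (key h5.1 hs)
  | N1 => exact Or.inl (key h5.1 hs)
  | N2 => exact Or.inl (key h5.1 hs)
  | H q => exact Or.inl (key h5.1 hs)
  | Z q => exact Or.inl (key h5.1 hs)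
  | T q => rw [hs.1]; exact Or.inl h5.1
  | Out =>
    rcases hs.2 with h6 | h6
    · exact Or.inl (Or.inr h6)
    · exact Or.inr h6
  | Bin => exact Or.inl (Or.inl hs.2)
  | Tb => rw [hs.1]; exact Or.inl (Or.inr hs.2)

theorem fbase_set {G : FGeo} {F : Far} {q : Qn} {t : Sq} (h : FBase G F) (h1 : ∀ r, r ≠ q → t ≠ F.q r)
    (h2 : t ≠ F.b) (h3 : G.Outside t) (h4 : ¬ G.floater t) : FBase G (F.set q t) := by
  obtain ⟨a1, a2, a3, a4⟩ := h
  refine ⟨?_, ?_, ?_, ?_⟩
  · intro r r' hr
    by_cases e1 : r = q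
    · subst e1
      have e2 : r' ≠ r := fun e => hr e.symm
      simp only [Far.set, Function.update_self, Function.update_of_ne e2]
      exact h1 r' e2
    · by_cases e2 : r' = q
      · subst e2
        simp only [Far.set, Function.update_self, Function.update_of_ne e1]
        exact fun e => h1 r e1 e.symm
      · simp only [Far.set, Function.update_of_ne e1, Function.update_of_ne e2]
        exact a1 r r' hr
  · intro r
    by_cases e1 : r = q
    · subst e1
      simp only [Far.set, Function.update_self]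
      exact h2
    · simp only [Far.set, Function.update_of_ne e1]
      exact a2 r
  · intro r
    by_cases e1 : r = q
    · subst e1
      simp only [Far.set, Function.update_self]
      exact h3
    · simp only [Far.set, Function.update_of_ne e1]
      exact a3 r
  · intro r
    by_cases e1 : r = q
    · subst e1
      simp only [Far.set, Function.update_self]
      exact h4
    · simp only [Far.set, Function.update_of_ne e1]
      exact a4 r

theorem home_ne_out {G : FGeo} (h : G.Ok) {F : Far} {q : Qn} (hq : AtHome G F q) (t : ℕ) :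
    F.q q ≠ G.out t := by
  intro e
  have h1 := col_lt_xD h q
  have h2 := hq.1
  rw [e] at h2
  simp only [FGeo.out] at h2
  omega

theorem fbase_of_stepL {G : FGeo} (hG : G.Ok) {s : Svc} {F F' : Far} (h : Inv G s F)
    (hs : StepL G s F F') : FBase G F' := by
  have hb : FBase G F := ⟨h.1, h.2.1, h.2.2.1, h.2.2.2.1⟩
  have key : s.win = true → (∃ q t, G.ray s t ∧ G.Outside t ∧ FarL G F q t ∧ F' = F.set q t) →
      FBase G F' := by
    rintro hw ⟨q, t, h1, h2, h3, rfl⟩
    refine fbase_set hb (fun r hr => (h3.2.2.2 r hr).1) h3.2.2.1 h2 ?_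
    refine line_not_floater hG (line_of_ray h1) fun p hp => ?_
    subst hp
    exact h1.2.2
  have h5 := h.2.2.2.2
  cases s with
  | E => exact key rfl hs
  | W => exact key rfl hs
  | N => exact key rfl hs
  | N1 => exact key rfl hs
  | N2 => exact key rfl hs
  | H q => exact key rfl hs
  | Z q => exact key rfl hs
  | T q => rw [hs.1]; exact hb
  | Out =>
    obtain ⟨h1, t, ht, h2⟩ := hs
    refine ⟨?_, ?_, ?_, ?_⟩
    · rw [h1]; exact hb.1
    · rw [h1, h2]; exact fun q => home_ne_out hG (h5.1 q) t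
    · rw [h1]; exact hb.2.2.1
    · rw [h1]; exact hb.2.2.2
  | Bin =>
    obtain ⟨h1, h2⟩ := hs
    refine ⟨?_, ?_, ?_, ?_⟩
    · rw [h1]; exact hb.1
    · rw [h1, h2]
      intro q
      have := home_ne_out hG (h5.1 q) 0
      simpa [FGeo.out, FGeo.hb] using this
    · rw [h1]; exact hb.2.2.1
    · rw [h1]; exact hb.2.2.2
  | Tb => rw [hs.1]; exact hb

theorem farOk_of_stepL {G : FGeo} (hG : G.Ok) {s : Svc} {F F' : Far} (h : Inv G s F)
    (hs : StepL G s F F') : FarOk G F' := by
  refine ⟨fbase_of_stepL hG h hs, ?_⟩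
  have h5 := h.2.2.2.2
  have key : BOk G F → (∃ q t, G.ray s t ∧ G.Outside t ∧ FarL G F q t ∧ F' = F.set q t) →
      BOk G F' := by
    rintro h1 ⟨q, t, -, -, -, rfl⟩
    exact h1
  cases s with
  | E => exact Or.inl (key h5.1 hs)
  | W => exact Or.inl (key h5.1 hs)
  | N => exact Or.inl (key h5.1 hs)
  | N1 => exact Or.inl (key h5.1 hs)
  | N2 => exact Or.inl (key h5.1 hs)
  | H q => exact Or.inl (key h5.1 hs)
  | Z q => exact Or.inl (key h5.1 hs)
  | T q => rw [hs.1]; exact Or.inl h5.1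
  | Out => exact Or.inl (Or.inr hs.2)
  | Bin => exact Or.inl (Or.inl hs.2)
  | Tb => rw [hs.1]; exact Or.inl (Or.inr hs.2)

/-! ### Programs -/

/-- change the labels of a module -/
def mapM {L L' : Type} (e : L → L') : Md L → Md L'
  | Md.call s n => Md.call s (e n)
  | Md.choice a b => Md.choice (e a) (e b)
  | Md.halt => Md.halt

theorem mapM_tgt {L L' : Type} {e : L → L'} {m : Md L} {t : L'} (h : (mapM e m).tgt t) :
    ∃ l, t = e l := by
  cases m with
  | call s n => exact ⟨n, h⟩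
  | choice a b =>
    rcases h with h | h
    · exact ⟨a, h⟩
    · exact ⟨b, h⟩
  | halt => exact h.elim

theorem exists_prog (L : Type) [Finite L] (M : L → Md L) : ∃ (P : Prog) (e : L → ℕ),
    (∀ l, e l < P.n) ∧ ∀ l, P.M (e l) = mapM e (M l) := by
  obtain ⟨k, ⟨f⟩⟩ := Finite.exists_equiv_fin L
  refine ⟨⟨k + 1, by omega, fun m => if h : m < k then mapM (fun l => (f l : ℕ))
    (M (f.symm ⟨m, h⟩)) else Md.halt, ?_⟩, fun l => (f l : ℕ), ?_, ?_⟩
  · intro m hm t ht
    by_cases h : m < k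
    · rw [dif_pos h] at ht
      obtain ⟨l, rfl⟩ := mapM_tgt ht
      have := (f l).2
      omega
    · rw [dif_neg h] at ht
      exact ht.elim
  · intro l
    have := (f l).2
    simp only
    omega
  · intro l
    simp only
    rw [dif_pos (f l).2]
    congr 2
    exact f.symm_apply_apply l

/-! ### The reduction -/

theorem Imp.not_valLE {a b : Pos} (h : Imp a b) {β : Ordinal.{0}} (hb : ¬ ValLE b β) :
    ¬ ValLE a β := by
  have h1 : GE b (Order.succ β) := fun α hα hv => hb (hv.mono (Order.lt_succ_iff.1 hα))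
  exact h.2 _ h1 β (Order.lt_succ β)

/-- **A layout from facts about tiles.** -/
theorem lay_of_sys {G : FGeo} (hG : G.Ok) {P : Prog} {VH VV : ℕ → ℕ → Option ℕ → Far → Pos}
    (hT : TileSys P G VH VV) {L : Type} {M : L → Md L} {e : L → ℕ} (he : ∀ l, e l < P.n)
    (hM : ∀ l, P.M (e l) = mapM e (M l)) :
    Lay G M (fun x => VV (lp P.n (e x.1)) (lo P.n (e x.1)) none x.2) := by
  have hn := P.pos
  have hB := bdata
  have hx7 : 6 + P.n < nx P.n := by unfold nx; omega
  -- choices
  have hcho : ∀ l j k, M l = Md.choice j k → ic (P.M (e l)) = 17 ∧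
      P.M (e l) = Md.choice (e j) (e k) := by
    intro l j k h
    rw [hM, h]
    exact ⟨rfl, rfl⟩
  have c7 : ∀ m t, cx P.n m t (6 + P.n) = 7 := by
    intro m t
    rw [cx_b (by omega) (by omega)]; omega
  have k7 : ∀ l, ic (P.M (e l)) = 17 → kd P (6 + P.n) (lo P.n (e l)) = 22 ∧
      kd P (6 + P.n) (up P.n (e l)) = 21 := by
    intro l h
    unfold lo up
    rw [kd_lo P (he l), kd_up P (he l), h, c7, c7]
    exact ⟨hB.d3, hB.d2⟩
  have e7 : 6 + P.n + 1 = 7 + P.n := by omega
  refine lay_of (pos := fun l F => VV (lp P.n (e l)) (lo P.n (e l)) none F)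
    ?_ ?_ ?_ ?_ ?_ ?_ ?_ ?_
  · intro l F s j h hi
    exact hT.fin _ F (he l) (farOk_of_inv hi)
  · intro l F hi
    exact hT.fin _ F (he l) (farOk_of_adm hi)
  · intro l F s j h hi hb hv
    have hc : P.M (e l) = Md.call s (e j) := by rw [hM, h]; rfl
    refine (to_svc hT (farOk_of_inv hi) (he l) hc).1 (hT.svc_up s (e l) F (he l) hi hb ?_)
    intro F' hF'
    exact (from_svc hT (farOk_of_stepU hi hF' (hb F' hF')) (he l) hc).1 (hv F' hF')
  · intro l F s j F' β h hi hs hv
    have hc : P.M (e l) = Md.call s (e j) := by rw [hM, h]; rfl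
    refine (to_svc hT (farOk_of_inv hi) (he l) hc).not_valLE
      (hT.svc_low s (e l) F F' β (he l) hi hs (fbase_of_stepL hG hi hs) ?_)
    exact (from_svc hT (farOk_of_stepL hG hi hs) (he l) hc).2 β hv
  · intro l F j k h hi h1 h2
    obtain ⟨h3, h4⟩ := hcho l j k h
    obtain ⟨h5, h6⟩ := k7 l h3
    have hF := farOk_of_adm hi
    refine (from_label hT hF (he l) (by rw [h3]) (by rw [h3]; exact hB.d1)).1 ?_
    refine hT.cho_up (6 + P.n) (e l) F (he l) hx7 hF h5 h6 ?_ ?_
    · rw [e7]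
      exact (cho_upper hT hF (he l) h4).1 h1
    · rw [e7]
      exact (cho_lower hT hF (he l) h4).1 h2
  · intro l F j k β h hi h1
    obtain ⟨h3, h4⟩ := hcho l j k h
    obtain ⟨h5, h6⟩ := k7 l h3
    have hF := farOk_of_adm hi
    refine (from_label hT hF (he l) (by rw [h3]) (by rw [h3]; exact hB.d1)).not_valLE ?_
    refine hT.cho_low (6 + P.n) (e l) F β (he l) hx7 hF h5 h6 (Or.inl ?_)
    rw [e7]
    exact (cho_upper hT hF (he l) h4).2 β h1
  · intro l F j k β h hi h1
    obtain ⟨h3, h4⟩ := hcho l j k h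
    obtain ⟨h5, h6⟩ := k7 l h3
    have hF := farOk_of_adm hi
    refine (from_label hT hF (he l) (by rw [h3]) (by rw [h3]; exact hB.d1)).not_valLE ?_
    refine hT.cho_low (6 + P.n) (e l) F β (he l) hx7 hF h5 h6 (Or.inr ?_)
    rw [e7]
    exact (cho_lower hT hF (he l) h4).2 β h1
  · intro l F h hi
    have h3 : ic (P.M (e l)) = 18 := by rw [hM, h]; rfl
    have hF := farOk_of_adm hi
    refine (from_label hT hF (he l) (by rw [h3]; decide) (by rw [h3]; exact hB.e1)).1 ?_
    refine hT.halt (6 + P.n) (e l) F (he l) hx7 hF ?_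
    unfold up
    rw [kd_up P (he l), h3, c7]
    exact hB.e2

/-- **Reduction to tiles.** -/
theorem omegaOne_of_sys {G : ℕ → FGeo} (hG : ∀ n, (G n).Ok)
    (h : ∀ P : Prog, ∃ VH VV, TileSys P (G P.n) VH VV) : omegaOneChess = omegaOneCK := by
  refine omegaOne_of_layout fun L hL M => ?_
  obtain ⟨P, e, he, hM⟩ := exists_prog L M
  obtain ⟨VH, VV, hT⟩ := h P
  exact ⟨G P.n, hG _, _, lay_of_sys (hG _) hT he hM⟩

end Pool.Agent.Lib.H32C.Ly
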