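import Pool.Agent.Lib.H32C.Defs

/-!
# The local checker

A *patch* is a natural number with four bits per cell; cell `i = x + 20 * y` is the square `(x, y)` of
the patch (`0 ≤ x, y < 20`).  Codes: `0` empty; `1, 2, 3, 4, 5, 6` White pawn, knight, bishop, rook,
queen, king; `9, 10, 11, 12, 13, 14` the same for Black; `7` and `8` mark the last cell of a shaft which
leaves the patch: the cell is empty, and beyond it the ray is empty (`7`) or its only piece is a
Black slider (`8`); `15` unknown.  The two outer layers of a patch are unknown.

A step `t` stands for the vector `(t % 20 - 2, t / 20 - 2)`.  The parameter `R` is the list of the rays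
leaving the patch.
-/

set_option autoImplicit false

namespace Pool.Agent.Lib.H32C.Loc

/-- the code of cell `i` -/
def cell (p i : Nat) : Nat := Nat.land (Nat.shiftRight p (Nat.mul 4 i)) 15

/-- the patch after the piece on `a` has moved to `b` -/
def mv (p a b : Nat) : Nat :=
  Nat.xor (Nat.xor p (Nat.shiftLeft (cell p a) (Nat.mul 4 a)))
    (Nat.shiftLeft (Nat.xor (cell p a) (cell p b)) (Nat.mul 4 b))

/-- membership of a code in a set of codes given by a bit mask -/
def msk (m c : Nat) : Bool := Nat.beq (Nat.land (Nat.shiftRight m c) 1) 1

/-- a step -/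
def stp (t i : Nat) : Nat := Nat.sub (Nat.add i t) 42

/-- run through the eight knight steps -/
def e8 (f : Nat → List Nat → List Nat) (L : List Nat) : List Nat :=
  f 83 (f 64 (f 24 (f 3 (f 1 (f 20 (f 60 (f 81 L)))))))

/-- run through the four rook steps -/
def eO (f : Nat → List Nat → List Nat) (L : List Nat) : List Nat := f 43 (f 62 (f 41 (f 22 L)))

/-- run through the four bishop steps -/
def eD (f : Nat → List Nat → List Nat) (L : List Nat) : List Nat := f 63 (f 61 (f 21 (f 23 L)))

/-- run through the steps of the squares from which a Black pawn attacks -/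
def eP (f : Nat → List Nat → List Nat) (L : List Nat) : List Nat := f 63 (f 61 L)

/-- run through the steps of the squares attacked by a Black pawn -/
def eQ (f : Nat → List Nat → List Nat) (L : List Nat) : List Nat := f 21 (f 23 L)

/-- all knight steps satisfy a condition -/
def a8 (f : Nat → Bool) : Bool :=
  f 83 && (f 64 && (f 24 && (f 3 && (f 1 && (f 20 && (f 60 && f 81))))))

/-- all rook steps -/
def aO (f : Nat → Bool) : Bool := f 43 && (f 62 && (f 41 && f 22))

/-- all bishop steps -/
def aD (f : Nat → Bool) : Bool := f 63 && (f 61 && (f 21 && f 23))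

/-- A ray leaving the patch: the cell `e` of its mark, its step `t`, the code `k` of the far slider
which may stand on it. -/
structure Ray where
  /-- the cell of the mark -/
  e : Nat
  /-- the step -/
  t : Nat
  /-- the code of the far slider -/
  k : Nat

/-- a ray with mark on `j` and step `t` exists -/
def isRay (R : List Ray) (j t : Nat) : Bool :=
  List.rec false (fun x _ ih => cond (Nat.beq x.e j && Nat.beq x.t t) true ih) R

/-- the code of the far slider of the ray with mark on `j` -/
def farK (R : List Ray) (j : Nat) : Nat :=
  List.rec 13 (fun x _ ih => cond (Nat.beq x.e j) x.k ih) R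

/-- a Black move; if `a` is a mark, the far slider goes to `b` -/
def mvb (R : List Ray) (p a b : Nat) : Nat :=
  cond (Nat.beq (cell p a) 8)
    (Nat.xor (Nat.xor p (Nat.shiftLeft 15 (Nat.mul 4 a)))
      (Nat.shiftLeft (Nat.xor (farK R a) (cell p b)) (Nat.mul 4 b)))
    (mv p a b)

/-- the first nonempty cell from `i` in direction `t` -/
def first (p t : Nat) (n : Nat) : Nat → Nat :=
  Nat.rec (fun _ => 0)
    (fun _ ih i => cond (Nat.beq (cell p (stp t i)) 0) (ih (stp t i)) (stp t i)) n

/-- the code `c` of the first nonempty cell `j` in direction `t`, where a mark met in a wrong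
direction counts as unknown -/
def fc (R : List Ray) (t j c : Nat) : Nat := cond (msk 0x180 c) (cond (isRay R j t) c 15) c

/-- the code of the first nonempty cell from `i` in direction `t` -/
def fcode (R : List Ray) (p t i : Nat) : Nat := fc R t (first p t 20 i) (cell p (first p t 20 i))

/-- Black attacks cell `i` -/
def att (R : List Ray) (p i : Nat) : Bool :=
  !((a8 fun t => !Nat.beq (cell p (stp t i)) 10) &&
  ((!Nat.beq (cell p (stp 63 i)) 9 && !Nat.beq (cell p (stp 61 i)) 9) &&
  ((aO fun t => !msk 0x3100 (fcode R p t i)) && (aD fun t => !msk 0x2900 (fcode R p t i)))))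

/-- Black does not attack cell `i` -/
def safe (R : List Ray) (p i : Nat) : Bool :=
  (a8 fun t => !msk 0x8400 (cell p (stp t i))) &&
  ((!msk 0x8200 (cell p (stp 63 i)) && !msk 0x8200 (cell p (stp 61 i))) &&
  ((aO fun t => !msk 0xf100 (fcode R p t i)) && (aD fun t => !msk 0xe900 (fcode R p t i))))

/-- code of a move; `0` marks a failure -/
def enc (a b : Nat) : Nat := Nat.add (Nat.mul 400 a) b

/-- Black knights which can go to `z` -/
def nMov (p z : Nat) (L : List Nat) : List Nat :=
  e8 (fun t L => cond (Nat.beq (cell p (stp t z)) 10) (enc (stp t z) z :: L)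
    (cond (Nat.beq (cell p (stp t z)) 15) (0 :: L) L)) L

/-- Black knight moves which give check to the king on `k` -/
def kChk (p k : Nat) (L : List Nat) : List Nat :=
  e8 (fun t L => cond (msk 0x3f (cell p (stp t k))) (nMov p (stp t k) L)
    (cond (msk 0x8180 (cell p (stp t k))) (0 :: L) L)) L

/-- Black pawns which capture on `z` -/
def pCap (p z : Nat) (L : List Nat) : List Nat :=
  eP (fun t L => cond (Nat.beq (cell p (stp t z)) 9) (enc (stp t z) z :: L)
    (cond (Nat.beq (cell p (stp t z)) 15) (0 :: L) L)) L

/-- a Black pawn which steps to `z` -/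
def pStep (p z : Nat) (L : List Nat) : List Nat :=
  cond (Nat.beq (cell p (stp 62 z)) 9) (enc (stp 62 z) z :: L)
    (cond (Nat.beq (cell p (stp 62 z)) 15) (0 :: L) L)

/-- Black pawn moves which give check -/
def pChk (p k : Nat) (L : List Nat) : List Nat :=
  eP (fun t L => cond (msk 0x8180 (cell p (stp t k))) (0 :: L)
    (cond (Nat.beq (cell p (stp t k)) 0) (pStep p (stp t k) L)
      (cond (msk 0x3e (cell p (stp t k))) (pCap p (stp t k) L) L))) L

/-- Black sliders (codes in the mask `m`) which can go to `j` along the direction `t` -/
def sMov1 (R : List Ray) (p m j t : Nat) (L : List Nat) : List Nat :=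
  cond (msk m (fcode R p t j)) (enc (first p t 20 j) j :: L)
    (cond (Nat.beq (fcode R p t j) 15) (0 :: L) L)

/-- Black sliders which can go to `j`: rooks if `ro`, bishops if not, and queens -/
def sMov (R : List Ray) (p : Nat) (ro : Bool) (j : Nat) (L : List Nat) : List Nat :=
  eO (sMov1 R p (cond ro 0x3100 0x2100) j) (eD (sMov1 R p (cond ro 0x2100 0x2900) j) L)

/-- the cell belongs to the two outer layers of a patch -/
def outC (j : Nat) : Bool :=
  Nat.blt (Nat.mod j 20) 2 || (Nat.ble 18 (Nat.mod j 20) ||
    (Nat.blt (Nat.div j 20) 2 || Nat.ble 18 (Nat.div j 20)))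

/-- `sMov1` without the directions in which the patch ends -/
def sMovE1 (R : List Ray) (p m j t : Nat) (L : List Nat) : List Nat :=
  cond (outC (stp t j)) L (sMov1 R p m j t L)

/-- `sMov` without the directions in which the patch ends -/
def sMovE (R : List Ray) (p : Nat) (ro : Bool) (j : Nat) (L : List Nat) : List Nat :=
  eO (sMovE1 R p (cond ro 0x3100 0x2100) j) (eD (sMovE1 R p (cond ro 0x2100 0x2900) j) L)

/-- the moves of a slider on `s` from cell `i` on in direction `t`, and the failure mark; if `sp`, the
moves beyond the mark of the ray are ignored -/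
def walk (R : List Ray) (p : Nat) (sp : Bool) (t s : Nat) (n : Nat) : Nat → List Nat → List Nat :=
  Nat.rec (fun _ L => 0 :: L)
    (fun _ ih i L => cond (Nat.beq (cell p (stp t i)) 0) (enc s (stp t i) :: ih (stp t i) L)
      (cond (msk 0x3e (cell p (stp t i))) (enc s (stp t i) :: L)
        (cond (msk 0x8180 (cell p (stp t i)))
          (cond (sp && (Nat.beq (cell p (stp t i)) 7 && isRay R (stp t i) t)) (enc s (stp t i) :: L)
            (0 :: L)) L))) n

/-- all moves of the Black piece with code `c` on `j` -/
def bMoves (R : List Ray) (p : Nat) (sp : Bool) (c j : Nat) (L : List Nat) : List Nat :=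
  cond (Nat.beq c 10)
    (e8 (fun t L => cond (msk 0x3f (cell p (stp t j))) (enc j (stp t j) :: L)
      (cond (msk 0x8180 (cell p (stp t j))) (0 :: L) L)) L)
    (cond (Nat.beq c 9)
      (cond (Nat.beq (cell p (stp 22 j)) 0) (enc j (stp 22 j) ::
          eQ (fun t L => cond (msk 0x3e (cell p (stp t j))) (enc j (stp t j) :: L)
            (cond (Nat.beq (cell p (stp t j)) 15) (0 :: L) L)) L)
        (cond (msk 0x8180 (cell p (stp 22 j))) (0 :: L)
          (eQ (fun t L => cond (msk 0x3e (cell p (stp t j))) (enc j (stp t j) :: L)
            (cond (Nat.beq (cell p (stp t j)) 15) (0 :: L) L)) L)))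
      (cond (msk 0x3800 c)
        (cond (msk 0x3000 c) (eO (fun t L => walk R p sp t j 20 j L)
            (cond (msk 0x2800 c) (eD (fun t L => walk R p sp t j 20 j L) L) L))
          (eD (fun t L => walk R p sp t j 20 j L) L))
        (0 :: L)))

/-- Black slider checks along the direction `t` from the king: `ro` tells whether the direction is
orthogonal.  `i` is the current cell.  If `sp`, arrivals from far on the ray are ignored. -/
def lChk (R : List Ray) (p : Nat) (sp ro : Bool) (t : Nat) (n : Nat) : Nat → List Nat → List Nat :=
  Nat.rec (fun _ L => 0 :: L)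
    (fun _ ih i L => cond (Nat.beq (cell p (stp t i)) 0)
      (sMov R p ro (stp t i) (ih (stp t i) L))
      (cond (msk 0x3e (cell p (stp t i))) (sMov R p ro (stp t i) L)
        (cond (msk 0x3e00 (cell p (stp t i)))
          (cond (msk (cond ro 0xb100 0xa900) (fcode R p t (stp t i)))
            (bMoves R p sp (cell p (stp t i)) (stp t i) L) L)
          (cond (sp && (Nat.beq (cell p (stp t i)) 7 && isRay R (stp t i) t))
            (sMovE R p ro (stp t i) L) (0 :: L))))) n

/-- Black moves among which are all moves which give check to the king on `k` -/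
def checks (R : List Ray) (sp : Bool) (p k : Nat) : List Nat :=
  kChk p k (pChk p k (eO (fun t L => lChk R p sp true t 20 k L)
    (eD (fun t L => lChk R p sp false t 20 k L) [])))

/-- the White move from `a` to `b` is possible -/
def wGo (p a b : Nat) : Bool :=
  cond (Nat.beq (cell p a) 6)
    (!((aO fun t => !Nat.beq (stp t a) b) && (aD fun t => !Nat.beq (stp t a) b)) &&
      msk 0x3e01 (cell p b))
    (cond (Nat.beq (cell p a) 1)
      ((Nat.beq (stp 62 a) b && Nat.beq (cell p b) 0) ||
        ((Nat.beq (stp 63 a) b || Nat.beq (stp 61 a) b) && msk 0x3e00 (cell p b)))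
      (cond (Nat.beq (cell p a) 2)
        (!(a8 fun t => !Nat.beq (stp t a) b) && msk 0x3e01 (cell p b))
        (cond (Nat.beq (cell p a) 4)
          (!(aO fun t => !Nat.beq (first p t 20 a) b) && msk 0x3e00 (cell p b))
          (cond (Nat.beq (cell p a) 3)
            (!(aD fun t => !Nat.beq (first p t 20 a) b) && msk 0x3e00 (cell p b)) false))))

/-- the cell of the White king after the White move `a` to `b` -/
def newK (k a b : Nat) : Nat := cond (Nat.beq a k) b k

/-- legal White reply `a` to `b`, the king being on `k` -/
def wOk (R : List Ray) (p k a b : Nat) : Bool := wGo p a b && safe R (mv p a b) (newK k a b)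

/-- Certificates: a list of White replies with certificates of the resulting positions -/
inductive Tr
  | exit (i : Nat)
  | nil
  | cons (a b : Nat) (sub rest : Tr)

/-- element of a list -/
def nth (L : List Nat) : Nat → Nat := List.rec (fun _ => 0)
  (fun x _ ih i => Nat.rec x (fun j _ => ih j) i) L

/-- The certificate proves that White wins from the patch `p` with Black to move and the king on
`k`, or reaches one of the patches `X`; the list `L` contains the Black moves to be dealt with. -/
noncomputable def chk (R : List Ray) (X : List Nat) : Tr → Nat → Nat → List Nat → Bool :=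
  Tr.rec (fun i p _ _ => Nat.beq (nth X i) p)
    (fun p k L => List.rec true
      (fun m _ ihL => Nat.blt 0 m &&
        (safe R (mvb R p (Nat.div m 400) (Nat.mod m 400)) k && ihL)) L)
    (fun a b _ _ ihs ihr p k L =>
      List.rec false
        (fun m L' ihL =>
          cond (Nat.beq 0 m) false
          (cond (safe R (mvb R p (Nat.div m 400) (Nat.mod m 400)) k) ihL
            (wOk R (mvb R p (Nat.div m 400) (Nat.mod m 400)) k a b &&
              (ihs (mv (mvb R p (Nat.div m 400) (Nat.mod m 400)) a b) (newK k a b)
                (checks R false (mv (mvb R p (Nat.div m 400) (Nat.mod m 400)) a b)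
                  (newK k a b)) &&
              ihr p k L')))) L)

/-- no White piece other than the king can go to the cell `z`, the direction `sk` not considered;
`cap` tells whether there is a Black piece on `z` -/
def noW (R : List Ray) (p sk : Nat) (cap : Bool) (z : Nat) : Bool :=
  (a8 fun t => !msk 0x8004 (cell p (stp t z))) &&
  ((cond cap (!msk 0x8002 (cell p (stp 21 z)) && !msk 0x8002 (cell p (stp 23 z)))
      (!msk 0x8002 (cell p (stp 22 z)))) &&
  ((aO fun t => Nat.beq t sk || !msk 0x8030 (fcode R p t z)) &&
    (aD fun t => Nat.beq t sk || !msk 0x8028 (fcode R p t z))))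

/-- all empty cells from `i` in direction `t` before the first nonempty cell satisfy `noW` -/
def noWs (R : List Ray) (p t : Nat) (n : Nat) : Nat → Bool :=
  Nat.rec (fun _ => false)
    (fun _ ih i => cond (Nat.beq (cell p (stp t i)) 0)
      (noW R p 0 false (stp t i) && ih (stp t i)) true) n

/-- the king on `k` cannot go to the cell in direction `t` -/
def noK (R : List Ray) (p k t : Nat) : Bool :=
  cond (msk 0x7e (cell p (stp t k))) true
    (cond (msk 0x8180 (cell p (stp t k))) false (att R (mv p k (stp t k)) (stp t k)))

/-- the cell `b` sees the mark on `a` in the direction of its ray -/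
def seesM (R : List Ray) (p b a : Nat) : Bool :=
  List.rec false (fun x _ ih =>
    cond (Nat.beq x.e a && Nat.beq (first p x.t 20 b) a) true ih) R

/-- the Black piece on `a` may go to `b` (knights, rooks, bishops, the far slider) -/
def bGo (R : List Ray) (p a b : Nat) : Bool :=
  cond (Nat.beq (cell p a) 10) (!(a8 fun t => !Nat.beq (stp t a) b))
    (cond (msk 0x3800 (cell p a))
      (!((!msk 0x3000 (cell p a) || aO fun t => !Nat.beq (first p t 20 b) a) &&
        (!msk 0x2800 (cell p a) || aD fun t => !Nat.beq (first p t 20 b) a)))
      (cond (Nat.beq (cell p a) 8) (seesM R p b a) false)) &&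
  msk 0x3f (cell p b)

/-- the king on `k` has to go to `k'` or stay -/
def onlyK (R : List Ray) (p k k' : Nat) : Bool :=
  (aO fun t => Nat.beq (stp t k) k' || noK R p k t) &&
    (aD fun t => Nat.beq (stp t k) k' || noK R p k t)

/-- no interposition on the empty cells between the king on `k` and the piece on `b` -/
def noI (R : List Ray) (p k b : Nat) : Bool :=
  (aO fun t => cond (Nat.beq (first p t 20 k) b) (noWs R p t 20 k) true) &&
    (aD fun t => cond (Nat.beq (first p t 20 k) b) (noWs R p t 20 k) true)

/-- the Black piece on `s` attacks `k` -/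
def hit (p s k : Nat) : Bool :=
  cond (Nat.beq (cell p s) 10) (!(a8 fun t => !Nat.beq (stp t k) s))
    (cond (Nat.beq (cell p s) 9) (Nat.beq (stp 63 k) s || Nat.beq (stp 61 k) s)
      ((msk 0x3000 (cell p s) && !(aO fun t => !Nat.beq (first p t 20 k) s)) ||
        (msk 0x2800 (cell p s) && !(aD fun t => !Nat.beq (first p t 20 k) s))))

/-- With the king on `k` in check by the piece on `s`, every legal White move goes from `k` to
`k'`. -/
def only (R : List Ray) (p k s k' : Nat) : Bool :=
  hit p s k && (noW R p 0 true s && (onlyK R p k k' && noI R p k s))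

/-- Black plays `a` to `b`, which gives check by the piece on `s`, and White has to answer `k` to
`k'`. -/
def main (R : List Ray) (p k a b s k' : Nat) : Bool := bGo R p a b && only R (mvb R p a b) k s k'

/-- the mark of the ray on `e` is changed from `7` to `8` -/
def arr (p e : Nat) : Nat := Nat.xor p (Nat.shiftLeft 15 (Nat.mul 4 e))

/-- With the king on `k` in check by the far slider on the ray with mark on `e` and step `t`, every
legal White move by the king goes from `k` to `k'`. -/
def onlyF (R : List Ray) (p k e t k' : Nat) : Bool :=
  (Nat.beq (cell p e) 8 && Nat.beq (first p t 20 k) e) && onlyK R p k k'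

end Pool.Agent.Lib.H32C.Loc
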