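import Pool.Agent.Lib.H32C.LocDef

/-!
# Chunk LA: arithmetic of patches

Everything is elementary: `cell p i` is the `i`-th hexadecimal digit of `p`; use `Nat.testBit`
extensionality (`Nat.testBit_xor`, `Nat.testBit_shiftLeft`, `Nat.testBit_shiftRight`, `Nat.testBit_land`,
and `cell p i = cell q j ↔ ∀ k < 4, p.testBit (4 * i + k) = q.testBit (4 * j + k)`).
-/

set_option autoImplicit false

namespace Pool.Agent.Lib.H32C.Loc

/-- chunk LA: the bits of a cell -/
theorem LA_cell_testBit (p i k : Nat) :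
    (cell p i).testBit k = (decide (k < 4) && p.testBit (4 * i + k)) := by
  have h : cell p i = (p >>> (4 * i)) &&& (2 ^ 4 - 1) := rfl
  rw [h, Nat.testBit_and, Nat.testBit_shiftRight, Nat.testBit_two_pow_sub_one, Bool.and_comm]

theorem LA_cell_xor (p q i : Nat) : cell (Nat.xor p q) i = cell p i ^^^ cell q i := by
  apply Nat.eq_of_testBit_eq
  intro k
  have h : Nat.xor p q = p ^^^ q := rfl
  rw [h, Nat.testBit_xor, LA_cell_testBit, LA_cell_testBit, LA_cell_testBit, Nat.testBit_xor]
  cases decide (k < 4) <;> simp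

theorem LA_cell_shl {c : Nat} (hc : c < 16) (a i : Nat) :
    cell (Nat.shiftLeft c (Nat.mul 4 a)) i = if i = a then c else 0 := by
  apply Nat.eq_of_testBit_eq
  intro k
  have h : Nat.shiftLeft c (Nat.mul 4 a) = c <<< (4 * a) := rfl
  rw [h, LA_cell_testBit, Nat.testBit_shiftLeft]
  by_cases hk : k < 4
  · by_cases hia : i = a
    · subst hia
      simp [hk]
    · rcases Nat.lt_or_gt_of_ne hia with h1 | h1
      · have h2 : ¬ (4 * a ≤ 4 * i + k) := by omega
        simp [h2, hia]
      · have h2 : 4 ≤ 4 * i + k - 4 * a := by omega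
        have h3 : c < 2 ^ (4 * i + k - 4 * a) := by
          calc c < 2 ^ 4 := by simpa using hc
            _ ≤ 2 ^ (4 * i + k - 4 * a) := Nat.pow_le_pow_right (by norm_num) h2
        rw [Nat.testBit_lt_two_pow h3]
        simp [hia]
  · have h3 : c < 2 ^ k := by
      calc c < 2 ^ 4 := by simpa using hc
        _ ≤ 2 ^ k := Nat.pow_le_pow_right (by norm_num) (by omega)
    by_cases hia : i = a
    · simp [hk, hia, Nat.testBit_lt_two_pow h3]
    · simp [hk, hia]

theorem cell_lt (p i : Nat) : cell p i < 16 := by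
  have h : cell p i = (p >>> (4 * i)) &&& 15 := rfl
  rw [h]
  exact Nat.lt_succ_of_le Nat.and_le_right

theorem cell_mv {p a b : Nat} (hne : a ≠ b) (i : Nat) :
    cell (mv p a b) i = if i = a then 0 else if i = b then cell p a else cell p i := by
  have h1 : cell p a ^^^ cell p b < 2 ^ 4 :=
    Nat.xor_lt_two_pow (cell_lt p a) (cell_lt p b)
  have h2 : Nat.xor (cell p a) (cell p b) < 16 := h1
  unfold mv
  rw [LA_cell_xor, LA_cell_xor, LA_cell_shl (cell_lt p a), LA_cell_shl h2]
  by_cases hia : i = a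
  · subst hia
    simp [hne]
  · by_cases hib : i = b
    · subst hib
      have h3 : Nat.xor (cell p a) (cell p i) = cell p a ^^^ cell p i := rfl
      simp only [hia, if_false, if_true, h3]
      rw [Nat.xor_zero, Nat.xor_comm (cell p a), ← Nat.xor_assoc, Nat.xor_self, Nat.zero_xor]
    · simp [hia, hib]

theorem mvb_eq {R : List Ray} {p a b : Nat} (h : cell p a ≠ 8) : mvb R p a b = mv p a b := by
  have h1 : Nat.beq (cell p a) 8 = false := by
    rw [Bool.eq_false_iff, ne_eq, Nat.beq_eq]
    exact h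
  unfold mvb
  rw [h1]
  rfl

theorem cell_mvb {R : List Ray} {p a b : Nat} (h : cell p a = 8) (hfk : farK R a < 16)
    (hne : a ≠ b) (i : Nat) :
    cell (mvb R p a b) i = if i = a then 7 else if i = b then farK R a else cell p i := by
  have h1 : Nat.beq (cell p a) 8 = true := by
    rw [Nat.beq_eq]
    exact h
  have h2 : farK R a ^^^ cell p b < 2 ^ 4 := Nat.xor_lt_two_pow hfk (cell_lt p b)
  have h4 : Nat.xor (farK R a) (cell p b) < 16 := h2
  unfold mvb
  rw [h1]
  simp only [cond_true]
  rw [LA_cell_xor, LA_cell_xor, LA_cell_shl (by norm_num : 15 < 16), LA_cell_shl h4]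
  by_cases hia : i = a
  · subst hia
    simp [hne, h]
  · by_cases hib : i = b
    · subst hib
      have h3 : Nat.xor (farK R a) (cell p i) = farK R a ^^^ cell p i := rfl
      simp only [hia, if_false, if_true, h3]
      rw [Nat.xor_zero, Nat.xor_comm (farK R a), ← Nat.xor_assoc, Nat.xor_self, Nat.zero_xor]
    · simp [hia, hib]

theorem isRay_iff (R : List Ray) (j t : Nat) :
    isRay R j t = true ↔ ∃ ρ ∈ R, ρ.e = j ∧ ρ.t = t := by
  induction R with
  | nil =>
    constructor
    · intro h
      exact absurd h (by simp [isRay])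
    · rintro ⟨ρ, hρ, -⟩
      exact absurd hρ (by simp)
  | cons x R ih =>
    have h1 : isRay (x :: R) j t = cond (Nat.beq x.e j && Nat.beq x.t t) true (isRay R j t) := rfl
    rw [h1]
    by_cases hx : x.e = j ∧ x.t = t
    · have h2 : (Nat.beq x.e j && Nat.beq x.t t) = true := by
        rw [Bool.and_eq_true, Nat.beq_eq, Nat.beq_eq]
        exact hx
      rw [h2]
      simp only [cond_true, true_iff]
      exact ⟨x, by simp, hx⟩
    · have h2 : (Nat.beq x.e j && Nat.beq x.t t) = false := by
        rw [Bool.eq_false_iff]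
        intro h3
        rw [Bool.and_eq_true, Nat.beq_eq, Nat.beq_eq] at h3
        exact hx h3
      rw [h2]
      simp only [cond_false]
      rw [ih]
      constructor
      · rintro ⟨ρ, hρ, h3⟩
        exact ⟨ρ, List.mem_cons_of_mem _ hρ, h3⟩
      · rintro ⟨ρ, hρ, h3⟩
        rcases List.mem_cons.mp hρ with h4 | h4
        · exact absurd (h4 ▸ h3) hx
        · exact ⟨ρ, h4, h3⟩

theorem farK_eq {R : List Ray} (hR : (R.map (fun ρ => ρ.e)).Nodup) {ρ : Ray} (h : ρ ∈ R) :
    farK R ρ.e = ρ.k := by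
  induction R with
  | nil => exact absurd h (by simp)
  | cons x R ih =>
    have h1 : farK (x :: R) ρ.e = cond (Nat.beq x.e ρ.e) x.k (farK R ρ.e) := rfl
    rw [h1]
    rw [List.map_cons, List.nodup_cons] at hR
    rcases List.mem_cons.mp h with h2 | h2
    · subst h2
      have h3 : Nat.beq ρ.e ρ.e = true := by rw [Nat.beq_eq]
      rw [h3]
      rfl
    · have h3 : Nat.beq x.e ρ.e = false := by
        rw [Bool.eq_false_iff, ne_eq, Nat.beq_eq]
        intro h4
        exact hR.1 (List.mem_map.mpr ⟨ρ, h2, h4.symm⟩)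
      rw [h3]
      exact ih hR.2 h2

theorem seesM_iff (R : List Ray) (p b a : Nat) :
    seesM R p b a = true ↔ ∃ ρ ∈ R, ρ.e = a ∧ first p ρ.t 20 b = a := by
  induction R with
  | nil =>
    constructor
    · intro h
      exact absurd h (by simp [seesM])
    · rintro ⟨ρ, hρ, -⟩
      exact absurd hρ (by simp)
  | cons x R ih =>
    have h1 : seesM (x :: R) p b a =
      cond (Nat.beq x.e a && Nat.beq (first p x.t 20 b) a) true (seesM R p b a) := rfl
    rw [h1]
    by_cases hx : x.e = a ∧ first p x.t 20 b = a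
    · have h2 : (Nat.beq x.e a && Nat.beq (first p x.t 20 b) a) = true := by
        rw [Bool.and_eq_true, Nat.beq_eq, Nat.beq_eq]
        exact hx
      rw [h2]
      simp only [cond_true, true_iff]
      exact ⟨x, by simp, hx⟩
    · have h2 : (Nat.beq x.e a && Nat.beq (first p x.t 20 b) a) = false := by
        rw [Bool.eq_false_iff]
        intro h3
        rw [Bool.and_eq_true, Nat.beq_eq, Nat.beq_eq] at h3
        exact hx h3
      rw [h2]
      simp only [cond_false]
      rw [ih]
      constructor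
      · rintro ⟨ρ, hρ, h3⟩
        exact ⟨ρ, List.mem_cons_of_mem _ hρ, h3⟩
      · rintro ⟨ρ, hρ, h3⟩
        rcases List.mem_cons.mp hρ with h4 | h4
        · exact absurd (h4 ▸ h3) hx
        · exact ⟨ρ, h4, h3⟩

theorem cell_arr {p e : Nat} (h : cell p e = 7) (i : Nat) :
    cell (arr p e) i = if i = e then 8 else cell p i := by
  unfold arr
  rw [LA_cell_xor, LA_cell_shl (by norm_num : 15 < 16)]
  by_cases hi : i = e
  · subst hi
    simp [h]
  · simp [hi]

theorem msk_iff (m c : Nat) : msk m c = true ↔ m.testBit c = true := by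
  have h : msk m c = Nat.beq (Nat.land (Nat.shiftRight m c) 1) 1 := rfl
  rw [h, Nat.beq_eq]
  have h1 : Nat.land (Nat.shiftRight m c) 1 = (m >>> c) &&& 1 := rfl
  rw [h1]
  unfold Nat.testBit
  rw [Nat.and_comm 1, Nat.and_one_is_mod]
  rcases Nat.mod_two_eq_zero_or_one (m >>> c) with h2 | h2
  · rw [h2]; simp
  · rw [h2]; simp

theorem a8_iff (f : Nat → Bool) : a8 f = true ↔ ∀ t ∈ knT, f t = true := by
  unfold a8 knT
  simp

theorem aO_iff (f : Nat → Bool) : aO f = true ↔ ∀ t ∈ orT, f t = true := by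
  unfold aO orT
  simp

theorem aD_iff (f : Nat → Bool) : aD f = true ↔ ∀ t ∈ diT, f t = true := by
  unfold aD diT
  simp

/-- the elements of `f t L` are those of `f t []` and those of `L` -/
def Adds (f : Nat → List Nat → List Nat) : Prop := ∀ t L x, x ∈ f t L ↔ x ∈ f t [] ∨ x ∈ L

theorem mem_e8 {f : Nat → List Nat → List Nat} (hf : Adds f) (L : List Nat) (x : Nat) :
    x ∈ e8 f L ↔ (∃ t ∈ knT, x ∈ f t []) ∨ x ∈ L := by
  unfold e8 knT
  rw [hf 83, hf 64, hf 24, hf 3, hf 1, hf 20, hf 60, hf 81]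
  simp only [List.mem_cons, List.not_mem_nil, or_false, exists_eq_or_imp, exists_eq_left]
  tauto

theorem mem_eO {f : Nat → List Nat → List Nat} (hf : Adds f) (L : List Nat) (x : Nat) :
    x ∈ eO f L ↔ (∃ t ∈ orT, x ∈ f t []) ∨ x ∈ L := by
  unfold eO orT
  rw [hf 43, hf 62, hf 41, hf 22]
  simp only [List.mem_cons, List.not_mem_nil, or_false, exists_eq_or_imp, exists_eq_left]
  tauto

theorem mem_eD {f : Nat → List Nat → List Nat} (hf : Adds f) (L : List Nat) (x : Nat) :
    x ∈ eD f L ↔ (∃ t ∈ diT, x ∈ f t []) ∨ x ∈ L := by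
  unfold eD diT
  rw [hf 63, hf 61, hf 21, hf 23]
  simp only [List.mem_cons, List.not_mem_nil, or_false, exists_eq_or_imp, exists_eq_left]
  tauto

theorem mem_eP {f : Nat → List Nat → List Nat} (hf : Adds f) (L : List Nat) (x : Nat) :
    x ∈ eP f L ↔ (∃ t ∈ [63, 61], x ∈ f t []) ∨ x ∈ L := by
  unfold eP
  rw [hf 63, hf 61]
  simp only [List.mem_cons, List.not_mem_nil, or_false, exists_eq_or_imp, exists_eq_left]
  tauto

theorem mem_eQ {f : Nat → List Nat → List Nat} (hf : Adds f) (L : List Nat) (x : Nat) :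
    x ∈ eQ f L ↔ (∃ t ∈ [21, 23], x ∈ f t []) ∨ x ∈ L := by
  unfold eQ
  rw [hf 21, hf 23]
  simp only [List.mem_cons, List.not_mem_nil, or_false, exists_eq_or_imp, exists_eq_left]
  tauto

/-- the value of `enc` -/
theorem enc_eq (a b : Nat) : enc a b = 400 * a + b := by
  rfl

theorem enc_div {a b : Nat} (hb : b < 400) : enc a b / 400 = a := by
  rw [enc_eq]
  omega

theorem enc_mod {a b : Nat} (hb : b < 400) : enc a b % 400 = b := by
  rw [enc_eq]
  omega

end Pool.Agent.Lib.H32C.Loc
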