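import Pool.Agent.Lib.H32C.LocA

/-!
# Chunk LB: geometry of patches and moves of the board described by a patch
-/

set_option autoImplicit false

namespace Pool.Agent.Lib.H32C.Loc

/-- a step from an inner cell -/
theorem stp_inner {t i : Nat} (ht : t ∈ orT ++ diT ++ knT) (hi : Inner i) :
    stp t i < 400 ∧ ∀ o : Sq, sq o (stp t i) = sq o i + vec t := by
  obtain ⟨h1, h2, h3, h4⟩ := hi
  have e : stp t i = i + t - 42 := rfl
  rw [e]
  simp only [orT, diT, knT, List.cons_append, List.nil_append, List.mem_cons,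
    List.not_mem_nil, or_false] at ht
  rcases ht with rfl | rfl | rfl | rfl | rfl | rfl | rfl | rfl | rfl | rfl | rfl | rfl | rfl | rfl |
    rfl | rfl
  all_goals
    refine ⟨by omega, fun o => ?_⟩
    unfold sq vec
    refine Prod.ext ?_ ?_
    · simp only [Prod.fst_add]; omega
    · simp only [Prod.snd_add]; omega

theorem inner_lt {i : Nat} (h : Inner i) : i < 400 := by
  obtain ⟨h1, h2, h3, h4⟩ := h
  omega

theorem inB_sq (o : Sq) {i : Nat} (hi : i < 400) : InB o (sq o i) := by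
  unfold InB sq
  refine ⟨?_, ?_, ?_, ?_⟩ <;> dsimp only <;> omega

theorem idx_sq (o : Sq) {i : Nat} (hi : i < 400) : idx o (sq o i) = i := by
  unfold idx sq
  dsimp only
  omega

theorem sq_idx {o s : Sq} (h : InB o s) : sq o (idx o s) = s ∧ idx o s < 400 := by
  obtain ⟨h1, h2, h3, h4⟩ := h
  unfold idx sq
  refine ⟨Prod.ext ?_ ?_, ?_⟩
  · dsimp only; omega
  · dsimp only; omega
  · omega

theorem sq_inj (o : Sq) {i j : Nat} (hi : i < 400) (hj : j < 400) (h : sq o i = sq o j) : i = j := by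
  rw [← idx_sq o hi, h, idx_sq o hj]

/-- the vectors of the steps -/
theorem vec_or {t : Nat} (h : t ∈ orT) : vec t ∈ orthDirs := by
  simp only [orT, List.mem_cons, List.not_mem_nil, or_false] at h
  rcases h with rfl | rfl | rfl | rfl <;> decide

theorem vec_di {t : Nat} (h : t ∈ diT) : vec t ∈ diagDirs := by
  simp only [diT, List.mem_cons, List.not_mem_nil, or_false] at h
  rcases h with rfl | rfl | rfl | rfl <;> decide

theorem vec_kn {t : Nat} (h : t ∈ knT) : vec t ∈ knightJumps := by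
  simp only [knT, List.mem_cons, List.not_mem_nil, or_false] at h
  rcases h with rfl | rfl | rfl | rfl | rfl | rfl | rfl | rfl <;> decide

theorem or_vec {v : Sq} (h : v ∈ orthDirs) : ∃ t ∈ orT, vec t = v := by
  simp only [orthDirs, List.mem_cons, List.not_mem_nil, or_false] at h
  rcases h with rfl | rfl | rfl | rfl
  · exact ⟨43, by decide, by decide⟩
  · exact ⟨41, by decide, by decide⟩
  · exact ⟨62, by decide, by decide⟩
  · exact ⟨22, by decide, by decide⟩

theorem di_vec {v : Sq} (h : v ∈ diagDirs) : ∃ t ∈ diT, vec t = v := by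
  simp only [diagDirs, List.mem_cons, List.not_mem_nil, or_false] at h
  rcases h with rfl | rfl | rfl | rfl
  · exact ⟨63, by decide, by decide⟩
  · exact ⟨23, by decide, by decide⟩
  · exact ⟨61, by decide, by decide⟩
  · exact ⟨21, by decide, by decide⟩

theorem kn_vec {v : Sq} (h : v ∈ knightJumps) : ∃ t ∈ knT, vec t = v := by
  simp only [knightJumps, List.mem_cons, List.not_mem_nil, or_false] at h
  rcases h with rfl | rfl | rfl | rfl | rfl | rfl | rfl | rfl
  · exact ⟨83, by decide, by decide⟩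
  · exact ⟨64, by decide, by decide⟩
  · exact ⟨24, by decide, by decide⟩
  · exact ⟨3, by decide, by decide⟩
  · exact ⟨1, by decide, by decide⟩
  · exact ⟨20, by decide, by decide⟩
  · exact ⟨60, by decide, by decide⟩
  · exact ⟨81, by decide, by decide⟩

theorem inner_of_cell {C : Ctx} {p k i : Nat} (h : WF C p k) (hi : i < 400) (hc : cell p i ≠ 15) :
    Inner i := by
  by_contra hn
  exact hc (h.margin i hi hn)

theorem LB_out {o : Sq} {t e : Nat} (ht : t ∈ orT ++ diT) (h1 : Inner e) (h2 : ¬ Inner (stp t e))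
    (n : ℕ) (hn : 0 < n) (hB : InB o (sq o e + n • vec t)) : ¬ Inner (idx o (sq o e + n • vec t)) := by
  obtain ⟨hx1, hx2, hy1, hy2⟩ := h1
  obtain ⟨hb1, hb2, hb3, hb4⟩ := hB
  have e1 : stp t e = e + t - 42 := rfl
  rw [e1] at h2
  intro hI
  apply h2
  obtain ⟨i1, i2, i3, i4⟩ := hI
  unfold idx at i1 i2 i3 i4
  simp only [sq, vec, Prod.fst_add, Prod.snd_add, nsmul_eq_mul]
    at i1 i2 i3 i4 hb1 hb2 hb3 hb4
  simp only [orT, diT, List.cons_append, List.nil_append, List.mem_cons,
    List.not_mem_nil, or_false] at ht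
  unfold Inner
  rcases ht with rfl | rfl | rfl | rfl | rfl | rfl | rfl | rfl
  all_goals
    norm_num at i1 i2 i3 i4 hb1 hb2 hb3 hb4
    refine ⟨?_, ?_, ?_, ?_⟩ <;> omega

/-- The squares of the ray beyond the mark are not known squares of the patch. -/
theorem ray_out {C : Ctx} (hC : C.Ok) {p k : Nat} (h : WF C p k) {ρ : Ray} (hρ : ρ ∈ C.R) (n : ℕ)
    (hn : 0 < n) : ¬ (InB C.o (C.ray ρ n) ∧ cell p (idx C.o (C.ray ρ n)) ≠ 15) := by
  rintro ⟨h1, h2⟩
  have _ := hC
  refine h2 (h.ray15 ρ hρ _ (sq_idx h1).2 ⟨n, hn, ?_⟩)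
  have h3 := (sq_idx h1).1
  have h4 : C.ray ρ n = sq C.o ρ.e + n • vec ρ.t := rfl
  rw [h4] at h3
  have e1 := congrArg Prod.fst h3
  have e2 := congrArg Prod.snd h3
  rw [h4]
  apply Prod.ext
  · simp only [sq, Prod.fst_add] at e1 ⊢
    omega
  · simp only [sq, Prod.snd_add] at e2 ⊢
    omega

/-- the cells beyond a mark remain unknown -/
theorem ray15_congr {C C' : Ctx} {p p' k : Nat} (h : WF C p k) (hR : C'.R = C.R)
    (hc : ∀ i < 400, cell p i = 15 → cell p' i = 15) :
    ∀ ρ ∈ C'.R, ∀ i < 400, On ρ.t ρ.e i → cell p' i = 15 :=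
  fun ρ hρ i hi ho => hc i hi (h.ray15 ρ (hR ▸ hρ) i hi ho)

/-- the board at a known cell -/
theorem brd_sq (C : Ctx) {p i : Nat} (hi : i < 400) (hc : cell p i ≠ 15) :
    C.brd p (sq C.o i) = dec (cell p i) := by
  unfold Ctx.brd
  rw [idx_sq C.o hi, if_pos ⟨inB_sq C.o hi, hc⟩]

theorem LB_e1 (C : Ctx) {p : Nat} {s : Sq} (h : InB C.o s ∧ cell p (idx C.o s) ≠ 15) :
    C.brd p s = dec (cell p (idx C.o s)) := by
  unfold Ctx.brd
  rw [if_pos h]

theorem LB_uniq {C : Ctx} (hC : C.Ok) {ρ ρ' : Ray} (h : ρ ∈ C.R) (h' : ρ' ∈ C.R)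
    (he : ρ.e = ρ'.e) : ρ = ρ' :=
  List.inj_on_of_nodup_map hC.nodup h h' he

theorem LB_far {C : Ctx} (hC : C.Ok) {ρ ρ' : Ray} (h : ρ ∈ C.R) (h' : ρ' ∈ C.R)
    (he : C.f ρ.e = C.f ρ'.e) : ρ = ρ' := by
  by_contra hne
  have h1 : ρ.e ≠ ρ'.e := fun h2 => hne (LB_uniq hC h h' h2)
  obtain ⟨n, hn, e1, -⟩ := hC.far ρ h
  obtain ⟨n', hn', e2, -⟩ := hC.far ρ' h'
  exact hC.disj ρ h ρ' h' h1 n n' hn hn' (by rw [← e1, ← e2, he])

/-- the square `n` steps beyond the mark of `ρ` is the far square of `ρ'` only if `ρ = ρ'` -/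
theorem LB_rayfar {C : Ctx} (hC : C.Ok) {ρ ρ' : Ray} (h : ρ ∈ C.R) (h' : ρ' ∈ C.R) {n : ℕ}
    (hn : 0 < n) (he : C.ray ρ n = C.f ρ'.e) : ρ = ρ' := by
  by_contra hne
  have h1 : ρ.e ≠ ρ'.e := fun h2 => hne (LB_uniq hC h h' h2)
  obtain ⟨n', hn', e2, -⟩ := hC.far ρ' h'
  exact hC.disj ρ h ρ' h' h1 n n' hn hn' (by rw [← e2, he])

theorem LB_e2 {C : Ctx} (hC : C.Ok) {p : Nat} {ρ : Ray} (hρ : ρ ∈ C.R)
    (h₁ : ¬ (InB C.o (C.f ρ.e) ∧ cell p (idx C.o (C.f ρ.e)) ≠ 15)) (h8 : cell p ρ.e = 8) :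
    C.brd p (C.f ρ.e) = dec ρ.k := by
  unfold Ctx.brd
  rw [if_neg h₁]
  have hf : C.R.find? (fun ρ' => decide (C.f ρ.e = C.f ρ'.e ∧ cell p ρ'.e = 8)) = some ρ := by
    cases hc : C.R.find? (fun ρ' => decide (C.f ρ.e = C.f ρ'.e ∧ cell p ρ'.e = 8)) with
    | none =>
      rw [List.find?_eq_none] at hc
      exact absurd (decide_eq_true (⟨rfl, h8⟩ : C.f ρ.e = C.f ρ.e ∧ cell p ρ.e = 8)) (hc ρ hρ)
    | some ρ' =>
      have h1 := List.find?_some hc
      have h2 := List.mem_of_find?_eq_some hc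
      have h3 := of_decide_eq_true h1
      rw [LB_far hC hρ h2 h3.1]
  rw [hf]

/-- the board away from the known cells and the far sliders -/
theorem brd_out {C : Ctx} {p : Nat} {s : Sq} (h₁ : ¬ (InB C.o s ∧ cell p (idx C.o s) ≠ 15))
    (h₂ : ∀ ρ ∈ C.R, s = C.f ρ.e → cell p ρ.e ≠ 8) : C.brd p s = C.F s := by
  unfold Ctx.brd
  rw [if_neg h₁]
  have hf : C.R.find? (fun ρ' => decide (s = C.f ρ'.e ∧ cell p ρ'.e = 8)) = none := by
    rw [List.find?_eq_none]
    intro ρ hρ hd
    have h3 := of_decide_eq_true hd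
    exact h₂ ρ hρ h3.1 h3.2
  rw [hf]

/-- the board on the ray beyond the mark -/
theorem brd_ray {C : Ctx} (hC : C.Ok) {p k : Nat} (h : WF C p k) {ρ : Ray} (hρ : ρ ∈ C.R) (n : ℕ)
    (hn : 0 < n) :
    C.brd p (C.ray ρ n) =
      if C.ray ρ n = C.f ρ.e ∧ cell p ρ.e = 8 then dec ρ.k else C.F (C.ray ρ n) := by
  have h1 := ray_out hC h hρ n hn
  split_ifs with h2
  · rw [h2.1] at h1 ⊢
    exact LB_e2 hC hρ h1 h2.2
  · rw [brd_out h1]
    intro ρ' hρ' he h8
    have h3 := LB_rayfar hC hρ hρ' hn he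
    subst h3
    exact h2 ⟨he, h8⟩

/-- the three cases for a square -/
theorem LB_cases {C : Ctx} (hC : C.Ok) (p : Nat) (s : Sq) :
    (∃ i < 400, s = sq C.o i ∧ cell p i ≠ 15 ∧ C.brd p s = dec (cell p i)) ∨
    (¬ (InB C.o s ∧ cell p (idx C.o s) ≠ 15) ∧
      ∃ ρ ∈ C.R, s = C.f ρ.e ∧ cell p ρ.e = 8 ∧ C.brd p s = dec ρ.k) ∨
    (¬ (InB C.o s ∧ cell p (idx C.o s) ≠ 15) ∧ (∀ ρ ∈ C.R, s = C.f ρ.e → cell p ρ.e ≠ 8) ∧
      C.brd p s = C.F s) := by
  by_cases h1 : InB C.o s ∧ cell p (idx C.o s) ≠ 15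
  · left
    exact ⟨idx C.o s, (sq_idx h1.1).2, (sq_idx h1.1).1.symm, h1.2, LB_e1 C h1⟩
  · right
    by_cases h2 : ∃ ρ ∈ C.R, s = C.f ρ.e ∧ cell p ρ.e = 8
    · left
      obtain ⟨ρ, hρ, rfl, h8⟩ := h2
      exact ⟨h1, ρ, hρ, rfl, h8, LB_e2 hC hρ h1 h8⟩
    · right
      push Not at h2
      exact ⟨h1, h2, brd_out h1 h2⟩

theorem LB_kind {C : Ctx} (hC : C.Ok) {ρ : Ray} (hρ : ρ ∈ C.R) : 11 ≤ ρ.k ∧ ρ.k ≤ 13 := by
  rcases hC.kind ρ hρ with ⟨-, h | h⟩ | ⟨-, h | h⟩ <;> omega

theorem LB_dec6 {c : Nat} (h : dec c = some (true, Kind.king)) : c = 6 := by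
  unfold dec at h
  split at h <;> first | rfl | (exact absurd h (by decide)) 

theorem LB_decne {c : Nat} (h1 : c ≠ 0) (h2 : c < 15) (h3 : c ≠ 7) (h4 : c ≠ 8) :
    dec c ≠ none := by
  unfold dec
  interval_cases c <;> simp_all

theorem kingAt {C : Ctx} (hC : C.Ok) {p k : Nat} (h : WF C p k) : KingAt (C.brd p) (sq C.o k) := by
  constructor
  · rw [brd_sq C h.lt (by rw [h.king]; decide), h.king]
    rfl
  · intro s hs
    rcases LB_cases hC p s with ⟨i, hi, rfl, hc, he⟩ | ⟨-, ρ, hρ, rfl, h8, he⟩ | ⟨-, -, he⟩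
    · rw [he] at hs
      rw [h.uniq i hi (LB_dec6 hs)]
    · rw [he] at hs
      have h1 := LB_dec6 hs
      have h2 := LB_kind hC hρ
      omega
    · rw [he] at hs
      exact absurd hs (hC.noK s).1

theorem LB_dec14 {c : Nat} (h : dec c = some (false, Kind.king)) : c = 14 := by
  unfold dec at h
  split at h <;> first | rfl | (exact absurd h (by decide))

/-- there is no second Black king -/
theorem oneBK {C : Ctx} (hC : C.Ok) {p k : Nat} (h : WF C p k) : OneBK (C.brd p) := by
  intro s hs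
  rcases LB_cases hC p s with ⟨i, hi, rfl, hc, he⟩ | ⟨-, ρ, hρ, rfl, h8, he⟩ | ⟨-, -, he⟩
  · rw [he] at hs
    exact absurd (LB_dec14 hs) (h.noBK i hi)
  · rw [he] at hs
    have h1 := LB_dec14 hs
    have h2 := LB_kind hC hρ
    omega
  · rw [he] at hs
    exact (hC.noK s).2 hs

/-- Black is not in check -/
theorem room_nocheck {C : Ctx} (hC : C.Ok) (R : Room) (hR : R.Sep C) {p k : Nat} (h : WF C p k)
    (hG : R.G (C.brd p)) : ¬ InCheck (C.brd p) false :=
  R.nocheck _ _ hG (oneBK hC h) (kingAt hC h) (hR.patch _ (inB_sq C.o h.lt))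

theorem LB_find_congr {α : Type} (f g : α → Bool) : ∀ L : List α, (∀ x ∈ L, f x = g x) →
    L.find? f = L.find? g
  | [], _ => rfl
  | x :: L, h => by
    rw [List.find?_cons, List.find?_cons, h x (by simp),
      LB_find_congr f g L (fun y hy => h y (by simp [hy]))]

theorem LB_congr (C : Ctx) {p q : Nat} {s : Sq}
    (h1 : InB C.o s → cell p (idx C.o s) = cell q (idx C.o s))
    (h2 : ∀ ρ ∈ C.R, s = C.f ρ.e → (cell p ρ.e = 8 ↔ cell q ρ.e = 8)) : C.brd p s = C.brd q s := by
  have hf : C.R.find? (fun ρ => decide (s = C.f ρ.e ∧ cell p ρ.e = 8)) =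
      C.R.find? (fun ρ => decide (s = C.f ρ.e ∧ cell q ρ.e = 8)) := by
    apply LB_find_congr
    intro ρ hρ
    apply decide_eq_decide.mpr
    constructor
    · rintro ⟨h3, h4⟩; exact ⟨h3, (h2 ρ hρ h3).1 h4⟩
    · rintro ⟨h3, h4⟩; exact ⟨h3, (h2 ρ hρ h3).2 h4⟩
  unfold Ctx.brd
  rw [hf]
  by_cases hB : InB C.o s
  · rw [h1 hB]
  · rw [if_neg (fun h => hB h.1), if_neg (fun h => hB h.1)]

/-- a move of a piece standing in the patch to a square of the patch -/
theorem brd_mv (C : Ctx) {p k a b : Nat} (h : WF C p k) (ha : a < 400) (hb : b < 400) (hne : a ≠ b)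
    (hca : cell p a ≠ 15 ∧ cell p a ≠ 7 ∧ cell p a ≠ 8 ∧ cell p a ≠ 0)
    (hcb : cell p b ≠ 15 ∧ cell p b ≠ 8) :
    C.brd (mv p a b) = (C.brd p).move (sq C.o a) (sq C.o b) := by
  have hcell := cell_mv (p := p) hne
  funext s
  unfold Board.move
  by_cases hsa : s = sq C.o a
  · rw [if_pos hsa, hsa, brd_sq C ha (by rw [hcell, if_pos rfl]; decide), hcell, if_pos rfl]
    rfl
  rw [if_neg hsa]
  by_cases hsb : s = sq C.o b
  · have e : cell (mv p a b) b = cell p a := by rw [hcell, if_neg (Ne.symm hne), if_pos rfl]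
    rw [if_pos hsb, hsb, brd_sq C hb (by rw [e]; exact hca.1), e, brd_sq C ha hca.1]
  rw [if_neg hsb]
  apply LB_congr
  · intro hB
    rw [hcell, if_neg, if_neg]
    · intro he; exact hsb (by rw [← he, (sq_idx hB).1])
    · intro he; exact hsa (by rw [← he, (sq_idx hB).1])
  · intro ρ _ _
    rw [hcell]
    split_ifs with h1 h2
    · rw [h1]
      constructor
      · intro h3; exact absurd h3 (by decide)
      · intro h3; exact absurd h3 hca.2.2.1
    · rw [h2]
      constructor
      · intro h3; exact absurd h3 hca.2.2.1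
      · intro h3; exact absurd h3 hcb.2
    · rfl

/-- a move of a far slider into the patch -/
theorem brd_mvb {C : Ctx} (hC : C.Ok) {p k b : Nat} (h : WF C p k) {ρ : Ray} (hρ : ρ ∈ C.R)
    (h8 : cell p ρ.e = 8) (hb : b < 400) (hcb : cell p b ≤ 5 ∨ cell p b = 7) (hne : b ≠ ρ.e) :
    C.brd (mvb C.R p ρ.e b) = (C.brd p).move (C.f ρ.e) (sq C.o b) := by
  have hk := farK_eq hC.nodup hρ
  have hkk := LB_kind hC hρ
  have hcell := cell_mvb (R := C.R) h8 (by rw [hk]; omega) (Ne.symm hne)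
  rw [hk] at hcell
  obtain ⟨n, hn, hfar, hfe⟩ := hC.far ρ hρ
  have hout := ray_out hC h hρ n hn
  rw [← hfar] at hout
  have heI := (hC.inner ρ hρ).1
  funext s
  unfold Board.move
  by_cases hsa : s = C.f ρ.e
  · rw [if_pos hsa, hsa, brd_out, hfar, hfe n hn le_rfl]
    · rintro ⟨h1, h2⟩
      apply hout
      refine ⟨h1, ?_⟩
      rw [hcell] at h2
      split_ifs at h2 with h3 h4
      · rw [h3, h8]; decide
      · rw [h4]; omega
      · exact h2
    · intro ρ' hρ' he
      have h1 := LB_far hC hρ hρ' he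
      subst h1
      rw [hcell, if_pos rfl]
      decide
  rw [if_neg hsa]
  by_cases hsb : s = sq C.o b
  · have e : cell (mvb C.R p ρ.e b) b = ρ.k := by rw [hcell, if_neg hne, if_pos rfl]
    rw [if_pos hsb, hsb, brd_sq C hb (by rw [e]; omega), e, LB_e2 hC hρ hout h8]
  rw [if_neg hsb]
  by_cases hse : s = sq C.o ρ.e
  · rw [hse, brd_sq C (inner_lt heI) (by rw [hcell, if_pos rfl]; decide), hcell, if_pos rfl,
      brd_sq C (inner_lt heI) (by rw [h8]; decide), h8]
    rfl
  apply LB_congr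
  · intro hB
    rw [hcell, if_neg, if_neg]
    · intro he; exact hsb (by rw [← he, (sq_idx hB).1])
    · intro he; exact hse (by rw [← he, (sq_idx hB).1])
  · intro ρ' hρ' he
    rw [hcell]
    split_ifs with h1 h2
    · exact absurd (by rw [he, h1]) hsa
    · rw [h2]
      omega
    · rfl

/-- a Black move in the patch keeps the patch well formed -/
theorem wf_mvb {C : Ctx} (hC : C.Ok) {p k a b : Nat} (h : WF C p k) (hm : MoveOk p a b) :
    WF C (mvb C.R p a b) k := by
  obtain ⟨ha, hb, hne, hsrc, hdst⟩ := hm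
  have haI : Inner a := inner_of_cell h ha (by omega)
  have hbI : Inner b := inner_of_cell h hb (by omega)
  have hka : k ≠ a := by
    rintro rfl
    have := h.king
    omega
  have hkb : k ≠ b := by
    rintro rfl
    have := h.king
    omega
  rcases hsrc with h8 | h9
  · obtain ⟨ρ, hρ, rfl⟩ := h.mark a ha (Or.inr h8)
    have hk := farK_eq hC.nodup hρ
    have hkk := LB_kind hC hρ
    have hcell := cell_mvb (R := C.R) h8 (by rw [hk]; omega) hne
    rw [hk] at hcell
    refine ⟨h.lt, ?_, ?_, ?_, ?_, ?_, ?_⟩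
    · rw [hcell, if_neg hka, if_neg hkb]; exact h.king
    · intro i hi h6
      rw [hcell] at h6
      split_ifs at h6 with h1 h2
      · omega
      · omega
      · exact h.uniq i hi h6
    · intro i hi hI
      rw [hcell, if_neg, if_neg]
      · exact h.margin i hi hI
      · rintro rfl; exact hI hbI
      · rintro rfl; exact hI haI
    · intro i hi h78
      rw [hcell] at h78
      split_ifs at h78 with h1 h2
      · exact ⟨ρ, hρ, h1.symm⟩
      · omega
      · exact h.mark i hi h78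
    · intro i hi
      rw [hcell]
      split_ifs with h1 h2
      · decide
      · omega
      · exact h.noBK i hi
    · refine ray15_congr h rfl fun i hi h15 => ?_
      rw [hcell, if_neg, if_neg]
      · exact h15
      · rintro rfl; omega
      · rintro rfl; omega
  · rw [mvb_eq (by omega)]
    have hcell := cell_mv (p := p) hne
    refine ⟨h.lt, ?_, ?_, ?_, ?_, ?_, ?_⟩
    · rw [hcell, if_neg hka, if_neg hkb]; exact h.king
    · intro i hi h6
      rw [hcell] at h6
      split_ifs at h6 with h1 h2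
      · omega
      · exact h.uniq i hi h6
    · intro i hi hI
      rw [hcell, if_neg, if_neg]
      · exact h.margin i hi hI
      · rintro rfl; exact hI hbI
      · rintro rfl; exact hI haI
    · intro i hi h78
      rw [hcell] at h78
      split_ifs at h78 with h1 h2
      · simp at h78
      · omega
      · exact h.mark i hi h78
    · intro i hi
      rw [hcell]
      split_ifs with h1 h2
      · decide
      · omega
      · exact h.noBK i hi
    · refine ray15_congr h rfl fun i hi h15 => ?_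
      rw [hcell, if_neg, if_neg]
      · exact h15
      · rintro rfl; omega
      · rintro rfl; omega

/-- a White move in the patch keeps the patch well formed -/
theorem wf_mv {C : Ctx} {p k a b : Nat} (h : WF C p k) (ha : a < 400) (hb : b < 400)
    (hca : 1 ≤ cell p a ∧ cell p a ≤ 6) (hcb : cell p b = 0 ∨ (9 ≤ cell p b ∧ cell p b ≤ 13)) :
    WF C (mv p a b) (newK k a b) := by
  have haI : Inner a := inner_of_cell h ha (by omega)
  have hbI : Inner b := inner_of_cell h hb (by omega)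
  have hne : a ≠ b := by rintro rfl; omega
  have hcell := cell_mv (p := p) hne
  have hkb : k ≠ b := by
    rintro rfl
    have := h.king
    omega
  have hnk : newK k a b = if a = k then b else k := by
    unfold newK
    by_cases hak : a = k
    · rw [if_pos hak, hak]
      simp [Nat.beq_refl]
    · rw [if_neg hak]
      have : Nat.beq a k = false := by
        rw [Bool.eq_false_iff]
        intro h'
        exact hak (Nat.eq_of_beq_eq_true h')
      rw [this]
      rfl
  rw [hnk]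
  refine ⟨?_, ?_, ?_, ?_, ?_, ?_, ?_⟩
  · split_ifs
    · exact hb
    · exact h.lt
  · split_ifs with h1
    · rw [hcell, if_neg (Ne.symm hne), if_pos rfl, h1]; exact h.king
    · rw [hcell, if_neg (Ne.symm h1), if_neg hkb]; exact h.king
  · intro i hi h6
    rw [hcell] at h6
    split_ifs at h6 with h1 h2
    · rw [if_pos (h.uniq a ha h6)]
      exact h2
    · have h3 := h.uniq i hi h6
      rw [if_neg]
      · exact h3
      · intro h4; exact h1 (by rw [h3, h4])
  · intro i hi hI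
    rw [hcell, if_neg, if_neg]
    · exact h.margin i hi hI
    · rintro rfl; exact hI hbI
    · rintro rfl; exact hI haI
  · intro i hi h78
    rw [hcell] at h78
    split_ifs at h78 with h1 h2
    · simp at h78
    · omega
    · exact h.mark i hi h78
  · intro i hi
    rw [hcell]
    split_ifs with h1 h2
    · decide
    · omega
    · exact h.noBK i hi
  · refine ray15_congr h rfl fun i hi h15 => ?_
    rw [hcell, if_neg, if_neg]
    · exact h15
    · rintro rfl; omega
    · rintro rfl; omega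

/-- the context in which the piece on `a` (outside the patch) has gone to the square `f'` of the ray with
mark on `e` -/
def Ctx.arr (C : Ctx) (a : Sq) (e : Nat) (f' : Sq) : Ctx :=
  ⟨C.o, fun s => if s = a then none else C.F s, C.R, fun i => if i = e then f' else C.f i⟩

theorem LB_congr2 (C C' : Ctx) {p q : Nat} {s : Sq} (ho : C'.o = C.o) (hR : C'.R = C.R)
    (h1 : InB C.o s → cell p (idx C.o s) = cell q (idx C.o s))
    (h2 : ∀ ρ ∈ C.R, (s = C.f ρ.e ∧ cell p ρ.e = 8) ↔ (s = C'.f ρ.e ∧ cell q ρ.e = 8))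
    (h3 : C.F s = C'.F s) : C.brd p s = C'.brd q s := by
  have hf : C.R.find? (fun ρ => decide (s = C.f ρ.e ∧ cell p ρ.e = 8)) =
      C'.R.find? (fun ρ => decide (s = C'.f ρ.e ∧ cell q ρ.e = 8)) := by
    rw [hR]
    apply LB_find_congr
    intro ρ hρ
    apply decide_eq_decide.mpr
    exact h2 ρ hρ
  unfold Ctx.brd
  rw [hf, ho, h3]
  by_cases hB : InB C.o s
  · rw [h1 hB]
  · rw [if_neg (fun h => hB h.1), if_neg (fun h => hB h.1)]

/-- The board after the arrival of a piece from `a` on the `n`-th square of the ray `ρ`. -/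
theorem brd_arr {C : Ctx} (hC : C.Ok) {p k : Nat} (h : WF C p k) {ρ : Ray} (hρ : ρ ∈ C.R)
    (h7 : cell p ρ.e = 7) {a : Sq} (ha : ¬ (InB C.o a ∧ cell p (idx C.o a) ≠ 15))
    (hfa : ∀ ρ' ∈ C.R, a = C.f ρ'.e → cell p ρ'.e ≠ 8)
    (hFa : C.F a = dec ρ.k) {n : ℕ} (hn : 0 < n) (hna : a ≠ C.ray ρ n)
    (hOk : (C.arr a ρ.e (C.ray ρ n)).Ok) :
    WF (C.arr a ρ.e (C.ray ρ n)) (Loc.arr p ρ.e) k ∧
    (C.arr a ρ.e (C.ray ρ n)).brd (Loc.arr p ρ.e) = (C.brd p).move a (C.ray ρ n) := by
  have hkk := LB_kind hC hρ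
  have hcell := cell_arr h7
  have heI := (hC.inner ρ hρ).1
  have hWF : WF (C.arr a ρ.e (C.ray ρ n)) (Loc.arr p ρ.e) k := by
    refine ⟨h.lt, ?_, ?_, ?_, ?_, ?_, ?_⟩
    · rw [hcell, if_neg]
      · exact h.king
      · rintro rfl
        have := h.king
        omega
    · intro i hi h6
      rw [hcell] at h6
      split_ifs at h6 with h1
      · omega
      · exact h.uniq i hi h6
    · intro i hi hI
      rw [hcell, if_neg]
      · exact h.margin i hi hI
      · rintro rfl; exact hI heI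
    · intro i hi h78
      rw [hcell] at h78
      split_ifs at h78 with h1
      · exact ⟨ρ, hρ, h1.symm⟩
      · exact h.mark i hi h78
    · intro i hi
      rw [hcell]
      split_ifs with h1
      · decide
      · exact h.noBK i hi
    · refine ray15_congr h rfl fun i hi h15 => ?_
      rw [hcell, if_neg]
      · exact h15
      · rintro rfl; omega
  refine ⟨hWF, ?_⟩
  funext s
  unfold Board.move
  by_cases hsa : s = a
  · rw [if_pos hsa, hsa, brd_out]
    · simp [Ctx.arr]
    · rintro ⟨h1, h2⟩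
      have h1' : InB C.o a := h1
      have h2' : cell (Loc.arr p ρ.e) (idx C.o a) ≠ 15 := h2
      rw [hcell] at h2'
      split_ifs at h2' with h3
      · exact ha ⟨h1', by rw [h3, h7]; decide⟩
      · exact ha ⟨h1', h2'⟩
    · intro ρ' hρ' he
      have he' : a = if ρ'.e = ρ.e then C.ray ρ n else C.f ρ'.e := he
      split_ifs at he' with h3
      · exact absurd he' hna
      · rw [hcell, if_neg h3]
        exact hfa ρ' hρ' he'
  rw [if_neg hsa]
  by_cases hsr : s = C.ray ρ n
  · rw [if_pos hsr, hsr]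
    have e1 := brd_ray hOk hWF (ρ := ρ) hρ n hn
    have e2 : (C.arr a ρ.e (C.ray ρ n)).ray ρ n = C.ray ρ n := rfl
    rw [e2, if_pos] at e1
    · rw [e1, brd_out ha hfa, hFa]
    · refine ⟨by simp [Ctx.arr], ?_⟩
      rw [hcell, if_pos rfl]
  rw [if_neg hsr]
  by_cases hse : s = sq C.o ρ.e
  · rw [hse, brd_sq C (inner_lt heI) (by rw [h7]; decide), h7]
    have e1 := brd_sq (C.arr a ρ.e (C.ray ρ n)) (p := Loc.arr p ρ.e) (inner_lt heI)
      (by rw [hcell, if_pos rfl]; decide)
    rw [hcell, if_pos rfl] at e1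
    exact e1
  symm
  apply LB_congr2 C (C.arr a ρ.e (C.ray ρ n)) rfl rfl
  · intro hB
    rw [hcell, if_neg]
    intro he
    exact hse (by rw [← he, (sq_idx hB).1])
  · intro ρ' hρ'
    rw [hcell]
    have e1 : (C.arr a ρ.e (C.ray ρ n)).f ρ'.e = if ρ'.e = ρ.e then C.ray ρ n else C.f ρ'.e := rfl
    rw [e1]
    split_ifs with h1
    · rw [h1, h7]
      constructor
      · rintro ⟨-, h2⟩; exact absurd h2 (by decide)
      · rintro ⟨h2, -⟩; exact absurd h2 hsr
    · rfl
  · simp [Ctx.arr, hsa]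

/-- the context in which the piece on the cell `j` of the patch has gone to the square `f'` of the ray
with mark on `e` -/
def Ctx.out (C : Ctx) (e : Nat) (f' : Sq) : Ctx :=
  ⟨C.o, C.F, C.R, fun i => if i = e then f' else C.f i⟩

theorem LB_cell_xor {p j c : Nat} (hc : cell p j = c) (i : Nat) :
    cell (Nat.xor p (Nat.shiftLeft c (4 * j))) i = if i = j then 0 else cell p i := by
  have h1 : c < 16 := by rw [← hc]; exact cell_lt p j
  have h2 := LA_cell_shl h1 j i
  rw [LA_cell_xor]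
  have h3 : Nat.shiftLeft c (Nat.mul 4 j) = Nat.shiftLeft c (4 * j) := rfl
  rw [← h3, h2]
  split_ifs with h4
  · rw [h4, hc, Nat.xor_self]
  · rw [Nat.xor_zero]

/-- The board after a piece of the patch has left it along the ray `ρ`. -/
theorem brd_leave {C : Ctx} (hC : C.Ok) {p k : Nat} (h : WF C p k) {ρ : Ray} (hρ : ρ ∈ C.R)
    (h7 : cell p ρ.e = 7) {j : Nat} (hj : j < 400) (hcj : cell p j = ρ.k) {n : ℕ} (hn : 0 < n)
    (hOk : (C.out ρ.e (C.ray ρ n)).Ok) :
    WF (C.out ρ.e (C.ray ρ n)) (Loc.arr (Nat.xor p (Nat.shiftLeft ρ.k (4 * j))) ρ.e) k ∧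
    (C.out ρ.e (C.ray ρ n)).brd (Loc.arr (Nat.xor p (Nat.shiftLeft ρ.k (4 * j))) ρ.e) =
      (C.brd p).move (sq C.o j) (C.ray ρ n) := by
  have hkk := LB_kind hC hρ
  have hje : ρ.e ≠ j := by
    rintro rfl
    omega
  have hc1 := LB_cell_xor hcj
  have h7' : cell (Nat.xor p (Nat.shiftLeft ρ.k (4 * j))) ρ.e = 7 := by
    rw [hc1, if_neg hje, h7]
  have hcell : ∀ i, cell (Loc.arr (Nat.xor p (Nat.shiftLeft ρ.k (4 * j))) ρ.e) i =
      if i = ρ.e then 8 else if i = j then 0 else cell p i := by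
    intro i
    rw [cell_arr h7', hc1]
  have heI := (hC.inner ρ hρ).1
  have hjI : Inner j := inner_of_cell h hj (by omega)
  have hjk : k ≠ j := by
    rintro rfl
    have := h.king
    omega
  generalize hp' : Loc.arr (Nat.xor p (Nat.shiftLeft ρ.k (4 * j))) ρ.e = p' at hcell
  have hWF : WF (C.out ρ.e (C.ray ρ n)) p' k := by
    refine ⟨h.lt, ?_, ?_, ?_, ?_, ?_, ?_⟩
    · rw [hcell, if_neg, if_neg hjk]
      · exact h.king
      · rintro rfl
        have := h.king
        omega
    · intro i hi h6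
      rw [hcell] at h6
      split_ifs at h6 with h1 h2
      · omega
      · exact h.uniq i hi h6
    · intro i hi hI
      rw [hcell, if_neg, if_neg]
      · exact h.margin i hi hI
      · rintro rfl; exact hI hjI
      · rintro rfl; exact hI heI
    · intro i hi h78
      rw [hcell] at h78
      split_ifs at h78 with h1 h2
      · exact ⟨ρ, hρ, h1.symm⟩
      · simp at h78
      · exact h.mark i hi h78
    · intro i hi
      rw [hcell]
      split_ifs with h1 h2
      · decide
      · decide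
      · exact h.noBK i hi
    · refine ray15_congr h rfl fun i hi h15 => ?_
      rw [hcell, if_neg, if_neg]
      · exact h15
      · rintro rfl; omega
      · rintro rfl; omega
  refine ⟨hWF, ?_⟩
  have hrs : C.ray ρ n ≠ sq C.o j := by
    intro he
    have h1 := ray_out hC h hρ n hn
    rw [he] at h1
    apply h1
    refine ⟨inB_sq C.o hj, ?_⟩
    rw [idx_sq C.o hj]
    omega
  funext s
  unfold Board.move
  by_cases hsj : s = sq C.o j
  · rw [if_pos hsj, hsj]
    have e1 := brd_sq (C.out ρ.e (C.ray ρ n)) (p := p') hj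
      (by rw [hcell, if_neg (Ne.symm hje), if_pos rfl]; decide)
    rw [hcell, if_neg (Ne.symm hje), if_pos rfl] at e1
    exact e1
  rw [if_neg hsj]
  by_cases hsr : s = C.ray ρ n
  · rw [if_pos hsr, hsr]
    have e1 := brd_ray hOk hWF (ρ := ρ) hρ n hn
    have e2 : (C.out ρ.e (C.ray ρ n)).ray ρ n = C.ray ρ n := rfl
    rw [e2, if_pos] at e1
    · rw [e1, brd_sq C hj (by omega), hcj]
    · refine ⟨by simp [Ctx.out], ?_⟩
      rw [hcell, if_pos rfl]
  rw [if_neg hsr]
  by_cases hse : s = sq C.o ρ.e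
  · rw [hse, brd_sq C (inner_lt heI) (by rw [h7]; decide), h7]
    have e1 := brd_sq (C.out ρ.e (C.ray ρ n)) (p := p') (inner_lt heI)
      (by rw [hcell, if_pos rfl]; decide)
    rw [hcell, if_pos rfl] at e1
    exact e1
  symm
  apply LB_congr2 C (C.out ρ.e (C.ray ρ n)) rfl rfl
  · intro hB
    rw [hcell, if_neg, if_neg]
    · intro he
      exact hsj (by rw [← he, (sq_idx hB).1])
    · intro he
      exact hse (by rw [← he, (sq_idx hB).1])
  · intro ρ' hρ'
    rw [hcell]
    have e1 : (C.out ρ.e (C.ray ρ n)).f ρ'.e = if ρ'.e = ρ.e then C.ray ρ n else C.f ρ'.e := rfl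
    rw [e1]
    split_ifs with h1 h2
    · rw [h1, h7]
      constructor
      · rintro ⟨-, h2⟩; exact absurd h2 (by decide)
      · rintro ⟨h2, -⟩; exact absurd h2 hsr
    · rw [h2]
      constructor
      · rintro ⟨-, h3⟩; omega
      · rintro ⟨-, h3⟩; exact absurd h3 (by decide)
    · rfl
  · rfl

end Pool.Agent.Lib.H32C.Loc
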