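import Pool.Agent.Lib.H32C.LocB

/-!
# Chunk LC: lines of sight

`Sees C p i t n j`: from the cell `i` in direction `t` the cells are empty up to the cell `j`, which is
`n` steps away.
-/

set_option autoImplicit false

namespace Pool.Agent.Lib.H32C.Loc

/-- `j` is the first nonempty cell from `i` in direction `t`, `n` steps away -/
structure Sees (C : Ctx) (p i t n j : Nat) : Prop where
  pos : 0 < n
  lt : j < 400
  eq : sq C.o j = sq C.o i + n • vec t
  ne : cell p j ≠ 0
  clear : ∀ m : ℕ, 0 < m → m < n → ∃ c < 400, cell p c = 0 ∧ sq C.o c = sq C.o i + m • vec t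

theorem LC_first_succ (p t N i : Nat) :
    first p t (N + 1) i = if cell p (stp t i) = 0 then first p t N (stp t i) else stp t i := by
  have h1 : first p t (N + 1) i =
      cond (Nat.beq (cell p (stp t i)) 0) (first p t N (stp t i)) (stp t i) := rfl
  rw [h1]
  by_cases h2 : cell p (stp t i) = 0
  · have h3 : Nat.beq (cell p (stp t i)) 0 = true := by rw [h2]; rfl
    rw [h3, if_pos h2]
    rfl
  · have h3 : Nat.beq (cell p (stp t i)) 0 = false := by
      rw [Bool.eq_false_iff]
      intro h4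
      exact h2 (Nat.eq_of_beq_eq_true h4)
    rw [h3, if_neg h2]
    rfl

theorem LC_first_spec {C : Ctx} {p k t : Nat} (h : WF C p k) (ht : t ∈ orT ++ diT) :
    ∀ (N i : Nat), i < 400 → cell p i ≠ 15 → cell p (first p t N i) ≠ 15 →
      ∃ n, Sees C p i t n (first p t N i) := by
  intro N
  induction N with
  | zero =>
    intro i _ _ hj
    exfalso
    apply hj
    have h0 : first p t 0 i = 0 := rfl
    rw [h0]
    exact h.margin 0 (by norm_num) (by unfold Inner; omega)
  | succ N ih =>
    intro i hi hci hj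
    have hst := stp_inner (List.mem_append_left knT ht) (inner_of_cell h hi hci)
    rw [LC_first_succ] at hj ⊢
    split_ifs at hj ⊢ with h0
    · obtain ⟨n, hS⟩ := ih (stp t i) hst.1 (by rw [h0]; decide) hj
      refine ⟨n + 1, Nat.succ_pos _, hS.lt, ?_, hS.ne, ?_⟩
      · rw [hS.eq, hst.2 C.o, add_assoc, add_smul, one_smul, add_comm (vec t)]
      · intro m hm hmn
        by_cases hm1 : m = 1
        · subst hm1
          exact ⟨stp t i, hst.1, h0, by rw [hst.2 C.o, one_smul]⟩
        · obtain ⟨c, hc, hc0, hce⟩ := hS.clear (m - 1) (by omega) (by omega)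
          refine ⟨c, hc, hc0, ?_⟩
          have e1 : m = (m - 1) + 1 := by omega
          rw [hce, hst.2 C.o, add_assoc]
          conv_rhs => rw [e1, add_smul, one_smul, add_comm _ (vec t)]
    · refine ⟨1, Nat.one_pos, hst.1, by rw [hst.2 C.o, one_smul], h0, ?_⟩
      intro m hm hm1
      omega

/-- the first nonempty cell, if it is known -/
theorem first_spec {C : Ctx} {p k i t : Nat} (h : WF C p k) (hi : i < 400) (hci : cell p i ≠ 15)
    (ht : t ∈ orT ++ diT) (hj : cell p (first p t 20 i) ≠ 15) :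
    ∃ n, Sees C p i t n (first p t 20 i) :=
  LC_first_spec h ht 20 i hi hci hj

theorem LC_clear {C : Ctx} {p i t n j m : Nat} (hS : Sees C p i t n j) (hm : 0 < m) (hmn : m < n) :
    C.brd p (sq C.o i + m • vec t) = none := by
  obtain ⟨c, hc, hc0, he⟩ := hS.clear m hm hmn
  rw [← he, brd_sq C hc (by rw [hc0]; decide), hc0]
  rfl

theorem LC_ray {C : Ctx} {p i n m : Nat} {ρ : Ray} (hS : Sees C p i ρ.t n ρ.e) (hnm : n < m) :
    sq C.o i + m • vec ρ.t = C.ray ρ (m - n) := by
  unfold Ctx.ray
  rw [hS.eq, add_assoc, ← add_smul]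
  congr 2
  omega

theorem LC_vec_ne {t : Nat} (ht : t ∈ orT ++ diT) : vec t ≠ 0 := by
  simp only [orT, diT, List.cons_append, List.nil_append, List.mem_cons,
    List.not_mem_nil, or_false] at ht
  rcases ht with rfl | rfl | rfl | rfl | rfl | rfl | rfl | rfl <;> decide

theorem LC_smul_inj {v : Sq} (hv : v ≠ 0) {m n : ℕ} (h : m • v = n • v) : m = n := by
  by_contra hne
  apply hv
  have h1 : (m : ℤ) * v.1 = n * v.1 := by
    have := congrArg Prod.fst h
    simpa using this
  have h2 : (m : ℤ) * v.2 = n * v.2 := by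
    have := congrArg Prod.snd h
    simpa using this
  have h3 : (m : ℤ) ≠ n := by exact_mod_cast hne
  refine Prod.ext ?_ ?_
  · by_contra h4
    exact h3 (mul_right_cancel₀ h4 h1)
  · by_contra h4
    exact h3 (mul_right_cancel₀ h4 h2)

/-- uniqueness of the first nonempty square: if a square `s` in direction `t` is nonempty and all squares before
it are empty on the board, and the first nonempty cell is known and not a mark, then it is `s`. -/
theorem first_unique {C : Ctx} (hC : C.Ok) {p k i t j n m : Nat} (h : WF C p k) (hi : i < 400)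
    (hS : Sees C p i t n j) (h78 : cell p j ≠ 7 ∧ cell p j ≠ 8) (h15 : cell p j ≠ 15) (hm : 0 < m)
    (hne : C.brd p (sq C.o i + m • vec t) ≠ none)
    (hcl : ∀ l : ℕ, 0 < l → l < m → C.brd p (sq C.o i + l • vec t) = none) :
    m = n := by
  rcases lt_trichotomy m n with h1 | h1 | h1
  · exact absurd (LC_clear hS hm h1) hne
  · exact h1
  · exfalso
    have h2 := hcl n hS.pos h1
    rw [← hS.eq, brd_sq C hS.lt h15] at h2
    have h3 := cell_lt p j
    exact LB_decne hS.ne (by omega) h78.1 h78.2 h2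

theorem LD_disj : ∀ t ∈ diT, t ∉ orT := by decide

/-- a quiet man does not attack along the ray -/
theorem LD_quiet {t : Nat} {m : Man} (h : Quiet t m) :
    m.2 ≠ Kind.king ∧ m.2 ≠ Kind.queen ∧ (t ∈ orT → m.2 ≠ Kind.rook) ∧
      (t ∈ diT → m.2 ≠ Kind.bishop) := by
  have hd := LD_disj t
  obtain ⟨c, k⟩ := m
  rcases h with h | h | ⟨-, ⟨h1, h⟩ | ⟨h1, h⟩⟩
  all_goals
    simp only at h
    subst h
    refine ⟨fun e => (by cases e), fun e => (by cases e), fun h3 e => ?_, fun h3 e => ?_⟩
    all_goals first | (cases e; done) | (exact hd h3 h1) | (exact hd h1 h3)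

/-- the board on the ray of a seen mark, beyond the mark -/
theorem LC_brd_ray {C : Ctx} (hC : C.Ok) {p k i n m : Nat} (h : WF C p k) {ρ : Ray}
    (hρ : ρ ∈ C.R) (hS : Sees C p i ρ.t n ρ.e) (hm : n < m) :
    C.brd p (sq C.o i + m • vec ρ.t) =
      if C.ray ρ (m - n) = C.f ρ.e ∧ cell p ρ.e = 8 then dec ρ.k else C.F (C.ray ρ (m - n)) := by
  rw [LC_ray hS hm, brd_ray hC h hρ _ (by omega)]

/-- the same for the mark `7` of a ray, met in the direction of the ray: the first nonempty square is beyond the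
mark, and its man is quiet -/
theorem first_mark7 {C : Ctx} (hC : C.Ok) {p k i n m : Nat} (h : WF C p k) {ρ : Ray}
    (hρ : ρ ∈ C.R) (hS : Sees C p i ρ.t n ρ.e) (h7 : cell p ρ.e = 7) (hm : 0 < m)
    (hcl : ∀ l : ℕ, 0 < l → l < m → C.brd p (sq C.o i + l • vec ρ.t) = none) {M : Man}
    (hM : C.brd p (sq C.o i + m • vec ρ.t) = some M) :
    n < m ∧ (∀ l : ℕ, 0 < l → l < m - n → C.F (C.ray ρ l) = none) ∧
      C.F (C.ray ρ (m - n)) = some M ∧ Quiet ρ.t M := by
  have h0 : n < m := by
    rcases lt_trichotomy m n with h1 | h1 | h1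
    · rw [LC_clear hS hm h1] at hM
      cases hM
    · rw [h1, ← hS.eq, brd_sq C hS.lt (by rw [h7]; decide), h7] at hM
      cases hM
    · exact h1
  have h7' : cell p ρ.e ≠ 8 := by omega
  have e1 : C.F (C.ray ρ (m - n)) = some M := by
    rw [← hM, LC_brd_ray hC h hρ hS h0, if_neg (fun hh => h7' hh.2)]
  have e2 : ∀ l : ℕ, 0 < l → l < m - n → C.F (C.ray ρ l) = none := by
    intro l hl hlm
    have h2 := hcl (n + l) (by omega) (by omega)
    rw [LC_brd_ray hC h hρ hS (by omega), if_neg (fun hh => h7' hh.2)] at h2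
    rwa [show n + l - n = l by omega] at h2
  exact ⟨h0, e2, e1, hC.empty ρ hρ (m - n) (by omega) e2 M e1⟩

/-- the same for the mark `8`: the first nonempty square is that of the far slider -/
theorem first_mark8 {C : Ctx} (hC : C.Ok) {p k i n m : Nat} (h : WF C p k) {ρ : Ray}
    (hρ : ρ ∈ C.R) (hS : Sees C p i ρ.t n ρ.e) (h8 : cell p ρ.e = 8) (hm : 0 < m)
    (hcl : ∀ l : ℕ, 0 < l → l < m → C.brd p (sq C.o i + l • vec ρ.t) = none)
    (hne : C.brd p (sq C.o i + m • vec ρ.t) ≠ none) :
    sq C.o i + m • vec ρ.t = C.f ρ.e := by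
  rcases lt_trichotomy m n with h1 | h1 | h1
  · exact absurd (LC_clear hS hm h1) hne
  · exfalso
    apply hne
    rw [h1, ← hS.eq, brd_sq C hS.lt (by rw [h8]; decide), h8]
    rfl
  · obtain ⟨n', hn', hf, hfe⟩ := hC.far ρ hρ
    rw [LC_ray hS h1]
    by_contra h2
    rw [LC_brd_ray hC h hρ hS h1, if_neg (fun h3 => h2 h3.1)] at hne
    have h3 : ¬ m - n ≤ n' := fun h3 => hne (hfe _ (by omega) h3)
    have h4 := hcl (n + n') (by omega) (by omega)
    rw [LC_brd_ray hC h hρ hS (by omega), show n + n' - n = n' by omega, if_pos ⟨hf.symm, h8⟩] at h4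
    have hk := LB_kind hC hρ
    exact LB_decne (by omega) (by omega) (by omega) (by omega) h4

/-- the far slider sees the cell `i` -/
theorem mark8_sees {C : Ctx} (hC : C.Ok) {p k i n : Nat} (h : WF C p k) (hi : i < 400) {ρ : Ray}
    (hρ : ρ ∈ C.R) (hS : Sees C p i ρ.t n ρ.e) (h8 : cell p ρ.e = 8) :
    ∃ m : ℕ, 0 < m ∧ C.f ρ.e = sq C.o i + m • vec ρ.t ∧ C.brd p (C.f ρ.e) = dec ρ.k ∧
      ∀ l : ℕ, 0 < l → l < m → C.brd p (sq C.o i + l • vec ρ.t) = none := by
  obtain ⟨n', hn', hf, hfe⟩ := hC.far ρ hρ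
  have ht : ρ.t ∈ orT ++ diT := by
    rcases hC.kind ρ hρ with h3 | h3
    · exact List.mem_append_left _ h3.1
    · exact List.mem_append_right _ h3.1
  refine ⟨n + n', by omega, ?_, ?_, ?_⟩
  · rw [hf, LC_ray hS (by omega)]
    congr 1
    omega
  · have h1 := ray_out hC h hρ n' hn'
    rw [← hf] at h1
    exact LB_e2 hC hρ h1 h8
  · intro l hl hlm
    rcases lt_trichotomy l n with h1 | h1 | h1
    · exact LC_clear hS hl h1
    · rw [h1, ← hS.eq, brd_sq C hS.lt (by rw [h8]; decide), h8]
      rfl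
    · rw [LC_brd_ray hC h hρ hS h1, if_neg]
      · exact hfe _ (by omega) (by omega)
      rintro ⟨h2, -⟩
      rw [hf] at h2
      unfold Ctx.ray at h2
      have h3 := LC_smul_inj (LC_vec_ne ht) (add_left_cancel h2)
      omega

/-- the opposite step: `sq i = sq j + n • vec (opp t)` -/
def opp (t : Nat) : Nat := 84 - t

theorem opp_spec {t : Nat} (ht : t ∈ orT ++ diT) : opp t ∈ orT ++ diT ∧ vec (opp t) = - vec t ∧
    (t ∈ orT → opp t ∈ orT) ∧ (t ∈ diT → opp t ∈ diT) := by
  simp only [orT, diT, List.cons_append, List.nil_append, List.mem_cons,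
    List.not_mem_nil, or_false] at ht
  rcases ht with rfl | rfl | rfl | rfl | rfl | rfl | rfl | rfl <;> decide

/-- `fcode` in terms of `first`: a code `7` or `8` appears only in the direction of the ray -/
theorem fcode_cases (R : List Ray) (p t i : Nat) :
    (fcode R p t i = cell p (first p t 20 i) ∧ cell p (first p t 20 i) ≠ 7 ∧
      cell p (first p t 20 i) ≠ 8) ∨
    (fcode R p t i = 15 ∧ (cell p (first p t 20 i) = 7 ∨ cell p (first p t 20 i) = 8)) ∨
    (fcode R p t i = cell p (first p t 20 i) ∧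
      (cell p (first p t 20 i) = 7 ∨ cell p (first p t 20 i) = 8) ∧
      ∃ ρ ∈ R, ρ.e = first p t 20 i ∧ ρ.t = t) := by
  unfold fcode fc
  generalize first p t 20 i = j
  have h1 : msk 0x180 (cell p j) = true ↔ (cell p j = 7 ∨ cell p j = 8) := by
    rw [msk_iff]
    have h2 := cell_lt p j
    generalize cell p j = c at h2
    interval_cases c <;> decide
  by_cases h2 : cell p j = 7 ∨ cell p j = 8
  · right
    rw [h1.2 h2]
    by_cases h3 : isRay R j t = true
    · right
      rw [h3]
      exact ⟨rfl, h2, (isRay_iff R j t).1 h3⟩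
    · left
      rw [Bool.not_eq_true] at h3
      rw [h3]
      exact ⟨rfl, h2⟩
  · left
    have h3 : msk 0x180 (cell p j) = false := by
      rw [Bool.eq_false_iff]
      exact fun h4 => h2 (h1.1 h4)
    rw [h3]
    push Not at h2
    exact ⟨rfl, h2⟩

end Pool.Agent.Lib.H32C.Loc
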