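import Pool.Agent.Lib.H32C.LocC

/-!
# Chunk LD: attacked and safe cells
-/

set_option autoImplicit false

namespace Pool.Agent.Lib.H32C.Loc

/-- LD: a slide in terms of the squares seen from its end -/
theorem LD_slides_of {B : Board} {ds : List Sq} {x v : Sq} {m : ℕ} (hv : -v ∈ ds) (hm : 0 < m)
    (hcl : ∀ l : ℕ, 0 < l → l < m → B (x + l • v) = none) : Slides B ds (x + m • v) x := by
  refine ⟨-v, hv, m, hm, ?_, ?_⟩
  · rw [smul_neg]
    abel
  · intro k hk hkm
    have h1 : x + m • v + k • -v = x + (m - k) • v := by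
      have h2 : m • v = (m - k) • v + k • v := by
        rw [← add_smul, Nat.sub_add_cancel hkm.le]
      rw [h2, smul_neg]
      abel
    rw [h1]
    exact hcl _ (Nat.sub_pos_of_lt hkm) (Nat.sub_lt hm hk)

/-- LD: a slide in terms of the squares seen from its end -/
theorem LD_of_slides {B : Board} {ds : List Sq} {s x : Sq} (h : Slides B ds s x) :
    ∃ d ∈ ds, ∃ m : ℕ, 0 < m ∧ s = x + m • (-d) ∧
      ∀ l : ℕ, 0 < l → l < m → B (x + l • (-d)) = none := by
  obtain ⟨d, hd, m, hm, hx, hcl⟩ := h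
  refine ⟨d, hd, m, hm, ?_, ?_⟩
  · rw [hx, smul_neg]
    abel
  · intro l hl hlm
    have h1 : x + l • -d = s + (m - l) • d := by
      have h2 : m • d = (m - l) • d + l • d := by
        rw [← add_smul, Nat.sub_add_cancel hlm.le]
      rw [hx, h2, smul_neg]
      abel
    rw [h1]
    exact hcl _ (Nat.sub_pos_of_lt hlm) (Nat.sub_lt hm hl)

theorem LD_neg_orth {v : Sq} (h : v ∈ orthDirs) : -v ∈ orthDirs := by
  revert v
  decide

theorem LD_neg_diag {v : Sq} (h : v ∈ diagDirs) : -v ∈ diagDirs := by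
  revert v
  decide

theorem LD_neg_kn {v : Sq} (h : v ∈ knightJumps) : -v ∈ knightJumps := by
  revert v
  decide

/-- LD: the squares before the first nonempty cell are empty -/
theorem Sees.LD_clear {C : Ctx} {p i t n j : Nat} (hS : Sees C p i t n j) (m : ℕ) (hm : 0 < m)
    (hmn : m < n) : C.brd p (sq C.o i + m • vec t) = none := by
  obtain ⟨c, hc, h0, hs⟩ := hS.clear m hm hmn
  rw [← hs, brd_sq C hc (by omega), h0]
  rfl

/-- LD: the first nonempty cell -/
theorem Sees.LD_brd {C : Ctx} {p i t n j : Nat} (hS : Sees C p i t n j) (hj : cell p j ≠ 15) :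
    C.brd p (sq C.o i + n • vec t) = dec (cell p j) := by
  rw [← hS.eq, brd_sq C hS.lt hj]

theorem LD_dec_inv {c : Nat} (hc : c < 16) {m : Man} (h : dec c = some m) :
    (c = 1 ∧ m = (true, Kind.pawn)) ∨ (c = 2 ∧ m = (true, Kind.knight)) ∨
    (c = 3 ∧ m = (true, Kind.bishop)) ∨ (c = 4 ∧ m = (true, Kind.rook)) ∨
    (c = 5 ∧ m = (true, Kind.queen)) ∨ (c = 6 ∧ m = (true, Kind.king)) ∨
    (c = 9 ∧ m = (false, Kind.pawn)) ∨ (c = 10 ∧ m = (false, Kind.knight)) ∨
    (c = 11 ∧ m = (false, Kind.bishop)) ∨ (c = 12 ∧ m = (false, Kind.rook)) ∨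
    (c = 13 ∧ m = (false, Kind.queen)) ∨ (c = 14 ∧ m = (false, Kind.king)) := by
  interval_cases c <;> simp [dec] at h <;> simp [h.symm]

/-- LD: what a piece seen from the cell `i` in the direction `t` can be: `c` is the code seen -/
theorem LD_seen {C : Ctx} (hC : C.Ok) {p k i t : Nat} (h : WF C p k) (hi : i < 400)
    (hci : cell p i ≠ 15) (ht : t ∈ orT ++ diT) {m : ℕ} (hm : 0 < m) {M : Man}
    (hM : C.brd p (sq C.o i + m • vec t) = some M)
    (hcl : ∀ l : ℕ, 0 < l → l < m → C.brd p (sq C.o i + l • vec t) = none) :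
    fcode C.R p t i = 15 ∨ fcode C.R p t i = 8 ∨ dec (fcode C.R p t i) = some M ∨ Quiet t M := by
  have hne : C.brd p (sq C.o i + m • vec t) ≠ none := by
    rw [hM]
    exact Option.some_ne_none M
  rcases fcode_cases C.R p t i with ⟨h1, h7, h8⟩ | ⟨h1, -⟩ | ⟨h1, h78, ρ, hρ, he, htt⟩
  · by_cases h15 : cell p (first p t 20 i) = 15
    · exact Or.inl (h1.trans h15)
    · obtain ⟨n, hS⟩ := first_spec h hi hci ht h15
      have hmn := first_unique hC h hi hS ⟨h7, h8⟩ h15 hm hne hcl
      rw [hmn, hS.LD_brd h15] at hM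
      right
      right
      left
      rw [h1]
      exact hM
  · exact Or.inl h1
  · rcases h78 with h7 | h8
    · have h15 : cell p (first p t 20 i) ≠ 15 := by omega
      obtain ⟨n, hS⟩ := first_spec h hi hci ht h15
      rw [← he, ← htt] at hS
      rw [← he] at h7
      have h9 := (first_mark7 hC h hρ hS h7 hm (by rw [htt]; exact hcl) (M := M)
        (by rw [htt]; exact hM)).2.2.2
      rw [htt] at h9
      exact Or.inr (Or.inr (Or.inr h9))
    · exact Or.inr (Or.inl (h1.trans h8))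

theorem LD_fcode_lt {R : List Ray} {p t i : Nat} : fcode R p t i < 16 := by
  rcases fcode_cases R p t i with ⟨h1, -⟩ | ⟨h1, -⟩ | ⟨h1, -⟩
  · rw [h1]
    exact cell_lt _ _
  · omega
  · rw [h1]
    exact cell_lt _ _

/-- LD: a slider seen from the cell `i` gives a code -/
theorem LD_slide_code {C : Ctx} (hC : C.Ok) {p k i : Nat} (h : WF C p k) (hi : i < 400)
    (hci : cell p i ≠ 15) {s : Sq} {M : Man} (hM : C.brd p s = some M) :
    (Slides (C.brd p) orthDirs s (sq C.o i) → ∃ t ∈ orT, fcode C.R p t i = 15 ∨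
      fcode C.R p t i = 8 ∨ dec (fcode C.R p t i) = some M ∨ Quiet t M) ∧
    (Slides (C.brd p) diagDirs s (sq C.o i) → ∃ t ∈ diT, fcode C.R p t i = 15 ∨
      fcode C.R p t i = 8 ∨ dec (fcode C.R p t i) = some M ∨ Quiet t M) := by
  constructor
  · intro hs
    obtain ⟨d, hd, m, hm, hsx, hcl⟩ := LD_of_slides hs
    obtain ⟨t, ht, hv⟩ := or_vec (LD_neg_orth hd)
    rw [← hv] at hsx hcl
    rw [hsx] at hM
    exact ⟨t, ht, LD_seen hC h hi hci (List.mem_append.2 (Or.inl ht)) hm hM hcl⟩
  · intro hs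
    obtain ⟨d, hd, m, hm, hsx, hcl⟩ := LD_of_slides hs
    obtain ⟨t, ht, hv⟩ := di_vec (LD_neg_diag hd)
    rw [← hv] at hsx hcl
    rw [hsx] at hM
    exact ⟨t, ht, LD_seen hC h hi hci (List.mem_append.2 (Or.inr ht)) hm hM hcl⟩

theorem LD_slides_append {B : Board} {ds ds' : List Sq} {a b : Sq}
    (h : Slides B (ds ++ ds') a b) : Slides B ds a b ∨ Slides B ds' a b := by
  obtain ⟨d, hd, r⟩ := h
  rcases List.mem_append.1 hd with h1 | h1
  · exact Or.inl ⟨d, h1, r⟩
  · exact Or.inr ⟨d, h1, r⟩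

theorem LD_slides_left {B : Board} {ds ds' : List Sq} {a b : Sq}
    (h : Slides B ds a b) : Slides B (ds ++ ds') a b := by
  obtain ⟨d, hd, r⟩ := h
  exact ⟨d, List.mem_append.2 (Or.inl hd), r⟩

theorem LD_slides_right {B : Board} {ds ds' : List Sq} {a b : Sq}
    (h : Slides B ds' a b) : Slides B (ds ++ ds') a b := by
  obtain ⟨d, hd, r⟩ := h
  exact ⟨d, List.mem_append.2 (Or.inr hd), r⟩

/-- LD: the square of a step from a known cell -/
theorem LD_brd_stp {C : Ctx} {p k i t : Nat} (h : WF C p k) (hi : i < 400)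
    (hci : cell p i ≠ 15) (ht : t ∈ orT ++ diT ++ knT) (hct : cell p (stp t i) ≠ 15) :
    C.brd p (sq C.o i + vec t) = dec (cell p (stp t i)) := by
  obtain ⟨h1, h2⟩ := stp_inner ht (inner_of_cell h hi hci)
  rw [← h2 C.o, brd_sq C h1 hct]

theorem LD_msk (m : Nat) {c : Nat} (P : Nat → Prop) [DecidablePred P] (hc : c < 16)
    (h : ∀ c < 16, msk m c = true → P c) (hm : msk m c = true) : P c := h c hc hm

/-- the cell `i` is not attacked by Black -/
theorem safe_sound {C : Ctx} (hC : C.Ok) {p k i : Nat} (h : WF C p k) (hi : i < 400)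
    (hci : cell p i ≠ 15) (hs : safe C.R p i = true) (s : Sq) (m : Man) (hm : C.brd p s = some m)
    (hb : m.1 = false) : ¬ ManAttacks (C.brd p) m s (sq C.o i) := by
  intro hA
  unfold safe at hs
  rw [Bool.and_eq_true, Bool.and_eq_true, Bool.and_eq_true, Bool.and_eq_true, a8_iff, aO_iff,
    aD_iff] at hs
  obtain ⟨hkn, ⟨hp1, hp2⟩, hor, hdi⟩ := hs
  have hin := inner_of_cell h hi hci
  -- masks
  have hkn' : ∀ t ∈ knT, cell p (stp t i) ≠ 10 ∧ cell p (stp t i) ≠ 15 := by
    intro t ht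
    have h1 := hkn t ht
    have h2 : ∀ c < 16, (!msk 0x8400 c) = true → c ≠ 10 ∧ c ≠ 15 := by decide
    exact h2 _ (cell_lt _ _) h1
  have hpw : ∀ c < 16, (!msk 0x8200 c) = true → c ≠ 9 ∧ c ≠ 15 := by decide
  have hp1' := hpw _ (cell_lt _ _) hp1
  have hp2' := hpw _ (cell_lt _ _) hp2
  have hor' : ∀ t ∈ orT, fcode C.R p t i ≠ 8 ∧ fcode C.R p t i ≠ 12 ∧ fcode C.R p t i ≠ 13 ∧
      fcode C.R p t i ≠ 14 ∧ fcode C.R p t i ≠ 15 := by
    intro t ht
    have h1 := hor t ht
    have h2 : ∀ c < 16, (!msk 0xf100 c) = true → c ≠ 8 ∧ c ≠ 12 ∧ c ≠ 13 ∧ c ≠ 14 ∧ c ≠ 15 := by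
      decide
    exact h2 _ LD_fcode_lt h1
  have hdi' : ∀ t ∈ diT, fcode C.R p t i ≠ 8 ∧ fcode C.R p t i ≠ 11 ∧ fcode C.R p t i ≠ 13 ∧
      fcode C.R p t i ≠ 14 ∧ fcode C.R p t i ≠ 15 := by
    intro t ht
    have h1 := hdi t ht
    have h2 : ∀ c < 16, (!msk 0xe900 c) = true → c ≠ 8 ∧ c ≠ 11 ∧ c ≠ 13 ∧ c ≠ 14 ∧ c ≠ 15 := by
      decide
    exact h2 _ LD_fcode_lt h1
  obtain ⟨mc, mk⟩ := m
  simp only at hb
  subst hb
  have hslO : (mk = Kind.rook ∨ mk = Kind.queen) →
      Slides (C.brd p) orthDirs s (sq C.o i) → False := by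
    intro hk hsl
    obtain ⟨t, ht, h1⟩ := (LD_slide_code hC h hi hci hm).1 hsl
    obtain ⟨a1, a2, a3, a4, a5⟩ := hor' t ht
    rcases h1 with h1 | h1 | h1 | h1
    · exact a5 h1
    · exact a1 h1
    · have h2 := LD_dec_inv LD_fcode_lt h1
      rcases hk with rfl | rfl
      · simp at h2
        exact a2 h2
      · simp at h2
        exact a3 h2
    · have h2 := LD_quiet h1
      rcases hk with rfl | rfl
      · exact h2.2.2.1 ht rfl
      · exact h2.2.1 rfl
  have hslD : (mk = Kind.bishop ∨ mk = Kind.queen) →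
      Slides (C.brd p) diagDirs s (sq C.o i) → False := by
    intro hk hsl
    obtain ⟨t, ht, h1⟩ := (LD_slide_code hC h hi hci hm).2 hsl
    obtain ⟨a1, a2, a3, a4, a5⟩ := hdi' t ht
    rcases h1 with h1 | h1 | h1 | h1
    · exact a5 h1
    · exact a1 h1
    · have h2 := LD_dec_inv LD_fcode_lt h1
      rcases hk with rfl | rfl
      · simp at h2
        exact a2 h2
      · simp at h2
        exact a3 h2
    · have h2 := LD_quiet h1
      rcases hk with rfl | rfl
      · exact h2.2.2.2 ht rfl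
      · exact h2.2.1 rfl
  cases mk with
  | king =>
    have hA' : sq C.o i - s ∈ orthDirs ++ diagDirs := hA
    have hsx : s = sq C.o i + 1 • (-(sq C.o i - s)) := by
      rw [one_smul]
      abel
    have hcl : ∀ l : ℕ, 0 < l → l < 1 → C.brd p (sq C.o i + l • (-(sq C.o i - s))) = none := by
      intro l h1 h2
      omega
    rcases List.mem_append.1 hA' with h1 | h1
    · obtain ⟨t, ht, hv⟩ := or_vec (LD_neg_orth h1)
      rw [← hv] at hsx hcl
      rw [hsx] at hm
      obtain ⟨a1, a2, a3, a4, a5⟩ := hor' t ht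
      rcases LD_seen hC h hi hci (List.mem_append.2 (Or.inl ht)) Nat.one_pos hm hcl with
        h1 | h1 | h1 | h1
      · exact a5 h1
      · exact a1 h1
      · have h2 := LD_dec_inv LD_fcode_lt h1
        simp at h2
        exact a4 h2
      · exact (LD_quiet h1).1 rfl
    · obtain ⟨t, ht, hv⟩ := di_vec (LD_neg_diag h1)
      rw [← hv] at hsx hcl
      rw [hsx] at hm
      obtain ⟨a1, a2, a3, a4, a5⟩ := hdi' t ht
      rcases LD_seen hC h hi hci (List.mem_append.2 (Or.inr ht)) Nat.one_pos hm hcl with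
        h1 | h1 | h1 | h1
      · exact a5 h1
      · exact a1 h1
      · have h2 := LD_dec_inv LD_fcode_lt h1
        simp at h2
        exact a4 h2
      · exact (LD_quiet h1).1 rfl
  | queen =>
    have hA' : Slides (C.brd p) (orthDirs ++ diagDirs) s (sq C.o i) := hA
    rcases LD_slides_append hA' with h1 | h1
    · exact hslO (Or.inr rfl) h1
    · exact hslD (Or.inr rfl) h1
  | rook => exact hslO (Or.inl rfl) hA
  | bishop => exact hslD (Or.inl rfl) hA
  | knight =>
    have hA' : sq C.o i - s ∈ knightJumps := hA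
    obtain ⟨t, ht, hv⟩ := kn_vec (LD_neg_kn hA')
    obtain ⟨a1, a2⟩ := hkn' t ht
    have hsx : s = sq C.o i + vec t := by
      rw [hv]
      abel
    rw [hsx, LD_brd_stp h hi hci (List.mem_append.2 (Or.inr ht)) a2] at hm
    have h2 := LD_dec_inv (cell_lt _ _) hm
    simp at h2
    exact a1 h2
  | pawn =>
    have hA' : sq C.o i - s = (1, fwd false) ∨ sq C.o i - s = (-1, fwd false) := hA
    rcases hA' with h1 | h1
    · have hsx : s = sq C.o i + vec 61 := by
        have h2 : vec 61 = -(1, fwd false) := by decide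
        rw [h2, ← h1]
        abel
      rw [hsx, LD_brd_stp h hi hci (by decide) hp2'.2] at hm
      have h2 := LD_dec_inv (cell_lt _ _) hm
      simp at h2
      exact hp2'.1 h2
    · have hsx : s = sq C.o i + vec 63 := by
        have h2 : vec 63 = -(-1, fwd false) := by decide
        rw [h2, ← h1]
        abel
      rw [hsx, LD_brd_stp h hi hci (by decide) hp1'.2] at hm
      have h2 := LD_dec_inv (cell_lt _ _) hm
      simp at h2
      exact hp1'.1 h2

/-- LD: a slider seen in the direction `t` -/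
theorem LD_att_line {C : Ctx} (hC : C.Ok) {p k i t : Nat} (h : WF C p k) (hi : i < 400)
    (hci : cell p i ≠ 15) (ht : t ∈ orT ++ diT) {ds : List Sq} (hds : -vec t ∈ ds)
    (hc : fcode C.R p t i = 8 ∨ (9 ≤ fcode C.R p t i ∧ fcode C.R p t i ≤ 14)) :
    ∃ s c, C.brd p s = dec c ∧ Slides (C.brd p) ds s (sq C.o i) ∧
      ((c = fcode C.R p t i ∧ c ≠ 8) ∨
        ((t ∈ orT ∧ (c = 12 ∨ c = 13)) ∨ (t ∈ diT ∧ (c = 11 ∨ c = 13)))) := by
  rcases fcode_cases C.R p t i with ⟨h1, h7, h8⟩ | ⟨h1, -⟩ | ⟨h1, h78, ρ, hρ, he, htt⟩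
  · have h15 : cell p (first p t 20 i) ≠ 15 := by omega
    obtain ⟨n, hS⟩ := first_spec h hi hci ht h15
    refine ⟨sq C.o i + n • vec t, cell p (first p t 20 i), hS.LD_brd h15,
      LD_slides_of hds hS.pos (fun l hl hln => hS.LD_clear l hl hln), Or.inl ⟨h1.symm, h8⟩⟩
  · omega
  · rcases h78 with h7 | h8
    · omega
    · have h15 : cell p (first p t 20 i) ≠ 15 := by omega
      obtain ⟨n, hS⟩ := first_spec h hi hci ht h15
      rw [← he, ← htt] at hS
      rw [← he] at h8
      obtain ⟨m, hm, hf, hk, hcl⟩ := mark8_sees hC h hi hρ hS h8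
      refine ⟨C.f ρ.e, ρ.k, hk, ?_, ?_⟩
      · rw [hf]
        rw [htt] at hcl ⊢
        exact LD_slides_of hds hm hcl
      · right
        have := hC.kind ρ hρ
        rw [htt] at this
        exact this

/-- the cell `i` is attacked by Black -/
theorem att_sound {C : Ctx} (hC : C.Ok) {p k i : Nat} (h : WF C p k) (hi : i < 400)
    (hci : cell p i ≠ 15) (hs : att C.R p i = true) :
    ∃ s m, C.brd p s = some m ∧ m.1 = false ∧ ManAttacks (C.brd p) m s (sq C.o i) := by
  have hin := inner_of_cell h hi hci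
  have horDi : ∀ t, t ∈ orT → t ∈ diT → False := by
    intro t h1 h2
    revert h2
    revert t
    decide
  by_contra hno
  push Not at hno
  unfold att at hs
  rw [Bool.not_eq_true', ← Bool.not_eq_true, Bool.and_eq_true, Bool.and_eq_true, Bool.and_eq_true,
    Bool.and_eq_true, a8_iff, aO_iff, aD_iff] at hs
  apply hs
  refine ⟨?_, ⟨?_, ?_⟩, ?_, ?_⟩
  · intro t ht
    by_contra hcon
    have hc : cell p (stp t i) = 10 := by
      simpa using hcon
    have hb := LD_brd_stp h hi hci (List.mem_append.2 (Or.inr ht)) (by omega)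
    rw [hc] at hb
    refine hno _ _ hb rfl ?_
    have h1 : sq C.o i - (sq C.o i + vec t) = -vec t := by abel
    have h2 : sq C.o i - (sq C.o i + vec t) ∈ knightJumps := by
      rw [h1]
      exact LD_neg_kn (vec_kn ht)
    exact h2
  · by_contra hcon
    have hc : cell p (stp 63 i) = 9 := by
      simpa using hcon
    have hb := LD_brd_stp h hi hci (t := 63) (by decide) (by omega)
    rw [hc] at hb
    refine hno _ _ hb rfl ?_
    have h1 : sq C.o i - (sq C.o i + vec 63) = -vec 63 := by abel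
    have h2 : sq C.o i - (sq C.o i + vec 63) = (1, fwd false) ∨
        sq C.o i - (sq C.o i + vec 63) = (-1, fwd false) := by
      rw [h1]
      right
      decide
    exact h2
  · by_contra hcon
    have hc : cell p (stp 61 i) = 9 := by
      simpa using hcon
    have hb := LD_brd_stp h hi hci (t := 61) (by decide) (by omega)
    rw [hc] at hb
    refine hno _ _ hb rfl ?_
    have h1 : sq C.o i - (sq C.o i + vec 61) = -vec 61 := by abel
    have h2 : sq C.o i - (sq C.o i + vec 61) = (1, fwd false) ∨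
        sq C.o i - (sq C.o i + vec 61) = (-1, fwd false) := by
      rw [h1]
      left
      decide
    exact h2
  · intro t ht
    by_contra hcon
    have h2 : ∀ c < 16, ¬ (!msk 0x3100 c) = true → c = 8 ∨ c = 12 ∨ c = 13 := by decide
    have hc := h2 _ LD_fcode_lt hcon
    obtain ⟨s, c, hb, hsl, hcc⟩ := LD_att_line hC h hi hci (List.mem_append.2 (Or.inl ht))
      (LD_neg_orth (vec_or ht)) (by omega)
    have hc' : c = 12 ∨ c = 13 := by
      rcases hcc with h1 | ⟨-, h1⟩ | ⟨h1, -⟩
      · omega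
      · omega
      · exact absurd h1 (fun h1 => horDi t ht h1)
    rcases hc' with rfl | rfl
    · exact hno _ _ hb rfl hsl
    · exact hno _ _ hb rfl (LD_slides_left hsl)
  · intro t ht
    by_contra hcon
    have h2 : ∀ c < 16, ¬ (!msk 0x2900 c) = true → c = 8 ∨ c = 11 ∨ c = 13 := by decide
    have hc := h2 _ LD_fcode_lt hcon
    obtain ⟨s, c, hb, hsl, hcc⟩ := LD_att_line hC h hi hci (List.mem_append.2 (Or.inr ht))
      (LD_neg_diag (vec_di ht)) (by omega)
    have hc' : c = 11 ∨ c = 13 := by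
      rcases hcc with h1 | ⟨h1, -⟩ | ⟨-, h1⟩
      · omega
      · exact absurd ht (fun h3 => horDi t h1 h3)
      · omega
    rcases hc' with rfl | rfl
    · exact hno _ _ hb rfl hsl
    · exact hno _ _ hb rfl (LD_slides_right hsl)

/-- White is not in check -/
theorem safe_noCheck {C : Ctx} (hC : C.Ok) {p k : Nat} (h : WF C p k) (hs : safe C.R p k = true) :
    ¬ InCheck (C.brd p) true := by
  rintro ⟨s, a, m, hk, ha, hm, hA⟩
  have h1 := (kingAt hC h).2 s hk
  rw [h1] at hA
  exact safe_sound hC h h.lt (by rw [h.king]; decide) hs a m ha (by simpa using hm) hA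

/-- White is in check -/
theorem att_inCheck {C : Ctx} (hC : C.Ok) {p k : Nat} (h : WF C p k) (hs : att C.R p k = true) :
    InCheck (C.brd p) true := by
  obtain ⟨s, m, hb, hm, hA⟩ := att_sound hC h h.lt (by rw [h.king]; decide) hs
  exact ⟨sq C.o k, s, m, (kingAt hC h).1, hb, by simpa using hm, hA⟩

end Pool.Agent.Lib.H32C.Loc
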