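import Pool.Agent.Lib.H32C.Defs
import Pool.Agent.Lib.H32C.Loc

/-!
# The meaning of the local checker: definitions
-/

set_option autoImplicit false

namespace Pool.Agent.Lib.H32C.Loc

/-- the square of cell `i` of a patch with origin `o` -/
def sq (o : Sq) (i : Nat) : Sq := (o.1 + ((i % 20 : ℕ) : ℤ), o.2 + ((i / 20 : ℕ) : ℤ))

/-- the vector of a step -/
def vec (t : Nat) : Sq := (((t % 20 : ℕ) : ℤ) - 2, ((t / 20 : ℕ) : ℤ) - 2)

/-- the rook steps -/
def orT : List Nat := [43, 62, 41, 22]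

/-- the bishop steps -/
def diT : List Nat := [63, 61, 21, 23]

/-- the knight steps -/
def knT : List Nat := [83, 64, 24, 3, 1, 20, 60, 81]

/-- the content of a cell with code `c` -/
def dec (c : Nat) : Option Man :=
  match c with
  | 1 => some (true, Kind.pawn)
  | 2 => some (true, Kind.knight)
  | 3 => some (true, Kind.bishop)
  | 4 => some (true, Kind.rook)
  | 5 => some (true, Kind.queen)
  | 6 => some (true, Kind.king)
  | 9 => some (false, Kind.pawn)
  | 10 => some (false, Kind.knight)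
  | 11 => some (false, Kind.bishop)
  | 12 => some (false, Kind.rook)
  | 13 => some (false, Kind.queen)
  | 14 => some (false, Kind.king)
  | _ => none

/-- the cells not in the two outer layers -/
def Inner (i : Nat) : Prop := 2 ≤ i % 20 ∧ i % 20 < 18 ∧ 2 ≤ i / 20 ∧ i / 20 < 18

instance (i : Nat) : Decidable (Inner i) := by unfold Inner; infer_instance

/-- the square `s` belongs to the patch with origin `o` -/
def InB (o s : Sq) : Prop := o.1 ≤ s.1 ∧ s.1 < o.1 + 20 ∧ o.2 ≤ s.2 ∧ s.2 < o.2 + 20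

instance (o s : Sq) : Decidable (InB o s) := by unfold InB; infer_instance

/-- the cell of a square -/
def idx (o s : Sq) : Nat := (s.1 - o.1).toNat + 20 * (s.2 - o.2).toNat

/-- The surroundings of a patch: origin `o`, the board `F` outside the patch, the rays `R` leaving the
patch, and for each mark `e` the square `f e` of the far slider on its ray. -/
structure Ctx where
  /-- the origin -/
  o : Sq
  /-- the board outside the patch -/
  F : Board
  /-- the rays -/
  R : List Ray
  /-- the squares of the far sliders -/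
  f : Nat → Sq

/-- the board described by a patch in a context -/
def Ctx.brd (C : Ctx) (p : Nat) : Board := fun s =>
  if InB C.o s ∧ cell p (idx C.o s) ≠ 15 then dec (cell p (idx C.o s))
  else match C.R.find? (fun ρ => decide (s = C.f ρ.e ∧ cell p ρ.e = 8)) with
    | some ρ => dec ρ.k
    | none => C.F s

/-- the `n`-th square of a ray beyond its mark -/
def Ctx.ray (C : Ctx) (ρ : Ray) (n : ℕ) : Sq := sq C.o ρ.e + n • vec ρ.t

/-- the man is a quiet blocker on a ray with step `t`: a pawn, a knight, or a Black slider which does not attack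
along the ray -/
def Quiet (t : Nat) (m : Man) : Prop :=
  m.2 = Kind.pawn ∨ m.2 = Kind.knight ∨
    (m.1 = false ∧ ((t ∈ orT ∧ m.2 = Kind.bishop) ∨ (t ∈ diT ∧ m.2 = Kind.rook)))

/-- the square of the Black king -/
def bkSq : Sq := (20, 20)

/-- the man `m` on the square `s` is not the White king, and it is the Black king only if `s` is `bkSq` -/
def NK (m : Option Man) (s : Sq) : Prop :=
  m ≠ some (true, Kind.king) ∧ (m = some (false, Kind.king) → s = bkSq)

/-- there is no Black king on squares other than `bkSq` -/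
def OneBK (B : Board) : Prop := ∀ s, B s = some (false, Kind.king) → s = bkSq

theorem nk_none (s : Sq) : NK none s := by
  constructor
  · intro h
    cases h
  · intro h
    cases h

theorem nk_man {c : Bool} {κ : Kind} (h : κ ≠ Kind.king) (s : Sq) : NK (some (c, κ)) s := by
  constructor
  · intro h1
    injection h1 with h1
    exact h (congrArg Prod.snd h1)
  · intro h1
    injection h1 with h1
    exact absurd (congrArg Prod.snd h1) h

theorem nk_dec {c : Nat} (h1 : c ≠ 6) (h2 : c ≠ 14) (s : Sq) : NK (dec c) s := by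
  unfold dec
  split <;> first | exact nk_none s | exact nk_man (by decide) s | exact absurd rfl h1 | exact absurd rfl h2

/-- conditions on a context -/
structure Ctx.Ok (C : Ctx) : Prop where
  noK : ∀ s, NK (C.F s) s
  nodup : (C.R.map (fun ρ => ρ.e)).Nodup
  kind : ∀ ρ ∈ C.R, (ρ.t ∈ orT ∧ (ρ.k = 12 ∨ ρ.k = 13)) ∨ (ρ.t ∈ diT ∧ (ρ.k = 11 ∨ ρ.k = 13))
  inner : ∀ ρ ∈ C.R, Inner ρ.e ∧ (ρ.t ∈ orT → ¬ Inner (stp ρ.t ρ.e))
  empty : ∀ ρ ∈ C.R, ∀ n : ℕ, 0 < n → (∀ i : ℕ, 0 < i → i < n → C.F (C.ray ρ i) = none) →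
    ∀ m, C.F (C.ray ρ n) = some m → Quiet ρ.t m
  far : ∀ ρ ∈ C.R, ∃ n : ℕ, 0 < n ∧ C.f ρ.e = C.ray ρ n ∧
    ∀ i : ℕ, 0 < i → i ≤ n → C.F (C.ray ρ i) = none
  disj : ∀ ρ ∈ C.R, ∀ ρ' ∈ C.R, ρ.e ≠ ρ'.e → ∀ n n' : ℕ, 0 < n → 0 < n' → C.ray ρ n ≠ C.ray ρ' n'

/-- the cell `i` lies beyond the cell `e` in direction `t` -/
def On (t e i : Nat) : Prop := ∃ n : ℕ, 0 < n ∧ sq (0, 0) i = sq (0, 0) e + n • vec t

/-- well formed patches, with the White king on `k` -/
structure WF (C : Ctx) (p k : Nat) : Prop where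
  lt : k < 400
  king : cell p k = 6
  uniq : ∀ i < 400, cell p i = 6 → i = k
  margin : ∀ i < 400, ¬ Inner i → cell p i = 15
  mark : ∀ i < 400, cell p i = 7 ∨ cell p i = 8 → ∃ ρ ∈ C.R, ρ.e = i
  noBK : ∀ i < 400, cell p i ≠ 14
  /-- the cells beyond a mark on its ray are unknown -/
  ray15 : ∀ ρ ∈ C.R, ∀ i < 400, On ρ.t ρ.e i → cell p i = 15

/-- the move `a → b` of the board described by `p` is the move `m` of the patch -/
def Is (C : Ctx) (p m : Nat) (a b : Sq) : Prop :=
  m ≠ 0 ∧ b = sq C.o (m % 400) ∧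
    ((cell p (m / 400) ≠ 8 ∧ a = sq C.o (m / 400)) ∨ (cell p (m / 400) = 8 ∧ a = C.f (m / 400)))

/-- `b` is a square of a ray beyond its mark, and the ray is empty -/
def Beyond (C : Ctx) (p : Nat) (b : Sq) : Prop :=
  ∃ ρ ∈ C.R, cell p ρ.e = 7 ∧ ∃ n : ℕ, 0 < n ∧ b = C.ray ρ n

/-- a Black slider stands on the ray, beyond its mark, and attacks along it -/
def Hit (C : Ctx) (B : Board) (ρ : Ray) : Prop :=
  ∃ m : ℕ, 0 < m ∧ (∀ i : ℕ, 0 < i → i < m → B (C.ray ρ i) = none) ∧
    ∃ κ, B (C.ray ρ m) = some (false, κ) ∧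
      (κ = Kind.queen ∨ (ρ.t ∈ orT ∧ κ = Kind.rook) ∨ (ρ.t ∈ diT ∧ κ = Kind.bishop))

/-- A Black slider which comes from a direction `u` in which the patch ends can go from `a` to the mark. -/
def Edge (C : Ctx) (p : Nat) (ρ : Ray) (a : Sq) : Prop :=
  ∃ u ∈ orT ++ diT, ¬ Inner (stp u ρ.e) ∧ ∃ l : ℕ, 0 < l ∧ a = sq C.o ρ.e + l • vec u ∧
    (∀ i : ℕ, 0 < i → i < l → C.brd p (sq C.o ρ.e + i • vec u) = none) ∧
    ∃ κ, C.brd p a = some (false, κ) ∧
      (κ = Kind.queen ∨ (u ∈ orT ∧ κ = Kind.rook) ∨ (u ∈ diT ∧ κ = Kind.bishop))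

/-- a possible Black move in a patch -/
structure MoveOk (p a b : Nat) : Prop where
  a_lt : a < 400
  b_lt : b < 400
  ne : a ≠ b
  src : cell p a = 8 ∨ (9 ≤ cell p a ∧ cell p a ≤ 13)
  dst : cell p b ≤ 5 ∨ cell p b = 7

/-- the White king stands on `κ` (and nowhere else) -/
def KingAt (B : Board) (κ : Sq) : Prop :=
  B κ = some (true, Kind.king) ∧ ∀ s, B s = some (true, Kind.king) → s = κ

/-- A mating room: a region `Z` of the board and a condition `G` on its content, such that White
threatens mate in one there and Black always has a legal move. -/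
structure Room where
  /-- the region -/
  Z : Set Sq
  /-- the condition -/
  G : Board → Prop
  dep : ∀ B B' : Board, (∀ s ∈ Z, B s = B' s) → G B → G B'
  legal : ∀ (B : Board) (κ : Sq), G B → OneBK B → KingAt B κ → κ ∉ Z → ∃ a b, Legal B false a b
  mate : ∀ (B : Board) (κ a b : Sq), G B → OneBK B → KingAt B κ → κ ∉ Z → Legal B false a b →
    ¬ InCheck (B.move a b) true → HasValue ⟨B.move a b, true⟩
  nocheck : ∀ (B : Board) (κ : Sq), G B → OneBK B → KingAt B κ → κ ∉ Z → ¬ InCheck B false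

/-- the room is away from the patch and its ray -/
structure Room.Sep (R : Room) (C : Ctx) : Prop where
  patch : ∀ s, InB C.o s → s ∉ R.Z
  far : ∀ ρ ∈ C.R, C.f ρ.e ∉ R.Z

end Pool.Agent.Lib.H32C.Loc
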