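import Pool.Agent.Lib.H32C.LocC

/-!
# Chunk LE: the moves listed by `checks` are moves in the patch

`Adds` for all the lists of `Loc.lean`, and `MoveOk` for their members.
-/

set_option autoImplicit false

namespace Pool.Agent.Lib.H32C.Loc

theorem le_cond2 (b c : Bool) (u v : Nat) (L : List Nat) (x : Nat) :
    x ∈ cond b (u :: L) (cond c (v :: L) L) ↔ x ∈ cond b [u] (cond c [v] []) ∨ x ∈ L := by
  cases b <;> cases c <;> simp

theorem le_of_e8 {f : Nat → Nat → List Nat → List Nat} (hf : ∀ z, Adds (f z)) :
    Adds (fun z L => e8 (f z) L) := by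
  intro z L x
  simp only
  rw [mem_e8 (hf z), mem_e8 (hf z)]
  simp

theorem le_of_eO {f : Nat → Nat → List Nat → List Nat} (hf : ∀ z, Adds (f z)) :
    Adds (fun z L => eO (f z) L) := by
  intro z L x
  simp only
  rw [mem_eO (hf z), mem_eO (hf z)]
  simp

theorem le_of_eD {f : Nat → Nat → List Nat → List Nat} (hf : ∀ z, Adds (f z)) :
    Adds (fun z L => eD (f z) L) := by
  intro z L x
  simp only
  rw [mem_eD (hf z), mem_eD (hf z)]
  simp

theorem le_of_eP {f : Nat → Nat → List Nat → List Nat} (hf : ∀ z, Adds (f z)) :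
    Adds (fun z L => eP (f z) L) := by
  intro z L x
  simp only
  rw [mem_eP (hf z), mem_eP (hf z)]
  simp

theorem le_of_eQ {f : Nat → Nat → List Nat → List Nat} (hf : ∀ z, Adds (f z)) :
    Adds (fun z L => eQ (f z) L) := by
  intro z L x
  simp only
  rw [mem_eQ (hf z), mem_eQ (hf z)]
  simp

theorem le_f1 (p z : Nat) : Adds (fun t L =>
    cond (Nat.beq (cell p (stp t z)) 10) (enc (stp t z) z :: L)
      (cond (Nat.beq (cell p (stp t z)) 15) (0 :: L) L)) :=
  fun _ L x => le_cond2 _ _ _ _ L x

theorem adds_nMov (p : Nat) : Adds (fun t L => nMov p t L) :=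
  le_of_e8 (f := fun z t L => cond (Nat.beq (cell p (stp t z)) 10) (enc (stp t z) z :: L)
      (cond (Nat.beq (cell p (stp t z)) 15) (0 :: L) L)) (fun z => le_f1 p z)

theorem le_f2 (p z : Nat) : Adds (fun t L =>
    cond (Nat.beq (cell p (stp t z)) 9) (enc (stp t z) z :: L)
      (cond (Nat.beq (cell p (stp t z)) 15) (0 :: L) L)) :=
  fun _ L x => le_cond2 _ _ _ _ L x

theorem adds_pCap (p : Nat) : Adds (fun t L => pCap p t L) :=
  le_of_eP (f := fun z t L => cond (Nat.beq (cell p (stp t z)) 9) (enc (stp t z) z :: L)
      (cond (Nat.beq (cell p (stp t z)) 15) (0 :: L) L)) (fun z => le_f2 p z)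

theorem adds_pStep (p : Nat) : Adds (fun t L => pStep p t L) :=
  fun _ L x => le_cond2 _ _ _ _ L x

theorem adds_sMov1 (R : List Ray) (p m j : Nat) : Adds (sMov1 R p m j) :=
  fun _ L x => le_cond2 _ _ _ _ L x

theorem adds_sMov (R : List Ray) (p : Nat) (ro : Bool) : Adds (fun j L => sMov R p ro j L) := by
  intro j L x
  simp only [sMov]
  rw [mem_eO (adds_sMov1 _ _ _ _), mem_eD (adds_sMov1 _ _ _ _), mem_eO (adds_sMov1 _ _ _ _),
    mem_eD (adds_sMov1 _ _ _ _)]
  simp only [List.not_mem_nil, or_false, or_assoc]

theorem adds_sMovE1 (R : List Ray) (p m j : Nat) : Adds (sMovE1 R p m j) := by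
  intro t L x
  unfold sMovE1
  cases outC (stp t j)
  · exact adds_sMov1 R p m j t L x
  · simp

theorem adds_sMovE (R : List Ray) (p : Nat) (ro : Bool) : Adds (fun j L => sMovE R p ro j L) := by
  intro j L x
  simp only [sMovE]
  rw [mem_eO (adds_sMovE1 _ _ _ _), mem_eD (adds_sMovE1 _ _ _ _), mem_eO (adds_sMovE1 _ _ _ _),
    mem_eD (adds_sMovE1 _ _ _ _)]
  simp only [List.not_mem_nil, or_false, or_assoc]

theorem outC_iff (j : Nat) : outC j = true ↔ ¬ Inner j := by
  unfold outC Inner
  rw [Bool.or_eq_true, Bool.or_eq_true, Bool.or_eq_true]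
  have h1 : ∀ a b : Nat, Nat.ble a b = true ↔ a ≤ b :=
    fun a b => ⟨Nat.le_of_ble_eq_true, Nat.ble_eq_true_of_le⟩
  have h2 : ∀ a b : Nat, Nat.blt a b = true ↔ a < b := fun a b => h1 (a + 1) b
  rw [h1, h1, h2, h2]
  have e1 : Nat.mod j 20 = j % 20 := rfl
  have e2 : Nat.div j 20 = j / 20 := rfl
  rw [e1, e2]
  omega

theorem le_walk_succ (R : List Ray) (p : Nat) (sp : Bool) (t s n i : Nat) (L : List Nat) :
    walk R p sp t s (n + 1) i L =
      cond (Nat.beq (cell p (stp t i)) 0) (enc s (stp t i) :: walk R p sp t s n (stp t i) L)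
      (cond (msk 0x3e (cell p (stp t i))) (enc s (stp t i) :: L)
        (cond (msk 0x8180 (cell p (stp t i)))
          (cond (sp && (Nat.beq (cell p (stp t i)) 7 && isRay R (stp t i) t)) (enc s (stp t i) :: L)
            (0 :: L)) L)) := rfl

theorem le_walk_zero (R : List Ray) (p : Nat) (sp : Bool) (t s i : Nat) (L : List Nat) :
    walk R p sp t s 0 i L = 0 :: L := rfl

theorem le_lChk_succ (R : List Ray) (p : Nat) (sp ro : Bool) (t n i : Nat) (L : List Nat) :
    lChk R p sp ro t (n + 1) i L = cond (Nat.beq (cell p (stp t i)) 0)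
      (sMov R p ro (stp t i) (lChk R p sp ro t n (stp t i) L))
      (cond (msk 0x3e (cell p (stp t i))) (sMov R p ro (stp t i) L)
        (cond (msk 0x3e00 (cell p (stp t i)))
          (cond (msk (cond ro 0xb100 0xa900) (fcode R p t (stp t i)))
            (bMoves R p sp (cell p (stp t i)) (stp t i) L) L)
          (cond (sp && (Nat.beq (cell p (stp t i)) 7 && isRay R (stp t i) t))
            (sMovE R p ro (stp t i) L) (0 :: L)))) := rfl

theorem le_lChk_zero (R : List Ray) (p : Nat) (sp ro : Bool) (t i : Nat) (L : List Nat) :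
    lChk R p sp ro t 0 i L = 0 :: L := rfl

theorem adds_walk (R : List Ray) (p : Nat) (sp : Bool) (s n i : Nat) :
    Adds (fun t L => walk R p sp t s n i L) := by
  intro t L x
  simp only
  induction n generalizing i with
  | zero => simp [le_walk_zero]
  | succ n ih =>
    rw [le_walk_succ, le_walk_succ]
    cases Nat.beq (cell p (stp t i)) 0
    · cases msk 0x3e (cell p (stp t i))
      · cases msk 0x8180 (cell p (stp t i))
        · simp
        · cases (sp && (Nat.beq (cell p (stp t i)) 7 && isRay R (stp t i) t))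
          · simp
          · simp
      · simp
    · simp only [cond_true, List.mem_cons]
      rw [ih]
      simp only [or_assoc]

theorem adds_bMoves (R : List Ray) (p : Nat) (sp : Bool) (c : Nat) :
    Adds (fun j L => bMoves R p sp c j L) := by
  intro j L x
  simp only [bMoves]
  have h8 : Adds (fun t L => cond (msk 0x3f (cell p (stp t j))) (enc j (stp t j) :: L)
      (cond (msk 0x8180 (cell p (stp t j))) (0 :: L) L)) := fun _ L x => le_cond2 _ _ _ _ L x
  have hQ : Adds (fun t L => cond (msk 0x3e (cell p (stp t j))) (enc j (stp t j) :: L)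
            (cond (Nat.beq (cell p (stp t j)) 15) (0 :: L) L)) := fun _ L x => le_cond2 _ _ _ _ L x
  have hW : Adds (fun t L => walk R p sp t j 20 j L) := adds_walk R p sp j 20 j
  cases Nat.beq c 10
  · cases Nat.beq c 9
    · cases msk 0x3800 c
      · simp
      · cases msk 0x3000 c
        · simp only [cond_true, cond_false]
          rw [mem_eD hW, mem_eD hW]
          simp
        · cases msk 0x2800 c
          · simp only [cond_true, cond_false]
            rw [mem_eO hW, mem_eO hW]
            simp
          · simp only [cond_true, cond_false]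
            rw [mem_eO hW, mem_eD hW, mem_eO hW, mem_eD hW]
            simp only [List.not_mem_nil, or_false, or_assoc]
    · simp only [cond_true, cond_false]
      cases Nat.beq (cell p (stp 22 j)) 0
      · cases msk 0x8180 (cell p (stp 22 j))
        · simp only [cond_false]
          rw [mem_eQ hQ, mem_eQ hQ]
          simp
        · simp
      · simp only [cond_true, List.mem_cons]
        rw [mem_eQ hQ, mem_eQ hQ]
        simp only [List.not_mem_nil, or_false, or_assoc]
  · simp only [cond_true]
    rw [mem_e8 h8, mem_e8 h8]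
    simp

theorem adds_lChk (R : List Ray) (p : Nat) (sp ro : Bool) (n i : Nat) :
    Adds (fun t L => lChk R p sp ro t n i L) := by
  intro t L x
  simp only
  induction n generalizing i with
  | zero => simp [le_lChk_zero]
  | succ n ih =>
    have hs : ∀ L', x ∈ sMov R p ro (stp t i) L' ↔ x ∈ sMov R p ro (stp t i) [] ∨ x ∈ L' :=
      fun L' => adds_sMov R p ro (stp t i) L' x
    have hb : ∀ L', x ∈ bMoves R p sp (cell p (stp t i)) (stp t i) L' ↔
        x ∈ bMoves R p sp (cell p (stp t i)) (stp t i) [] ∨ x ∈ L' :=
      fun L' => adds_bMoves R p sp (cell p (stp t i)) (stp t i) L' x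
    rw [le_lChk_succ, le_lChk_succ]
    cases Nat.beq (cell p (stp t i)) 0
    · cases msk 0x3e (cell p (stp t i))
      · cases msk 0x3e00 (cell p (stp t i))
        · cases (sp && (Nat.beq (cell p (stp t i)) 7 && isRay R (stp t i) t))
          · simp
          · simp only [cond_true, cond_false]
            exact adds_sMovE R p ro (stp t i) L x
        · cases msk (cond ro 0xb100 0xa900) (fcode R p t (stp t i))
          · simp
          · simp only [cond_true, cond_false]
            exact hb L
      · simp only [cond_true, cond_false]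
        exact hs L
    · simp only [cond_true]
      rw [hs, ih, hs (lChk R p sp ro t n (stp t i) [])]
      simp only [or_assoc]

theorem le_f3 (p k : Nat) : Adds (fun t L => cond (msk 0x3f (cell p (stp t k))) (nMov p (stp t k) L)
    (cond (msk 0x8180 (cell p (stp t k))) (0 :: L) L)) := by
  intro t L x
  simp only
  cases msk 0x3f (cell p (stp t k))
  · cases msk 0x8180 (cell p (stp t k)) <;> simp
  · exact adds_nMov p (stp t k) L x

theorem adds_kChk (p : Nat) : Adds (fun k L => kChk p k L) :=
  le_of_e8 (f := fun k t L => cond (msk 0x3f (cell p (stp t k))) (nMov p (stp t k) L)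
    (cond (msk 0x8180 (cell p (stp t k))) (0 :: L) L)) (fun k => le_f3 p k)

theorem le_f4 (p k : Nat) : Adds (fun t L => cond (msk 0x8180 (cell p (stp t k))) (0 :: L)
    (cond (Nat.beq (cell p (stp t k)) 0) (pStep p (stp t k) L)
      (cond (msk 0x3e (cell p (stp t k))) (pCap p (stp t k) L) L))) := by
  intro t L x
  simp only
  cases msk 0x8180 (cell p (stp t k))
  · cases Nat.beq (cell p (stp t k)) 0
    · cases msk 0x3e (cell p (stp t k))
      · simp
      · exact adds_pCap p (stp t k) L x
    · exact adds_pStep p (stp t k) L x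
  · simp

theorem adds_pChk (p : Nat) : Adds (fun k L => pChk p k L) :=
  le_of_eP (f := fun k t L => cond (msk 0x8180 (cell p (stp t k))) (0 :: L)
    (cond (Nat.beq (cell p (stp t k)) 0) (pStep p (stp t k) L)
      (cond (msk 0x3e (cell p (stp t k))) (pCap p (stp t k) L) L))) (fun k => le_f4 p k)

/-- the list of checks is the union of its parts -/
theorem mem_checks (R : List Ray) (sp : Bool) (p k x : Nat) : x ∈ checks R sp p k ↔
    x ∈ kChk p k [] ∨ x ∈ pChk p k [] ∨ (∃ t ∈ orT, x ∈ lChk R p sp true t 20 k []) ∨
      ∃ t ∈ diT, x ∈ lChk R p sp false t 20 k [] := by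
  have h1 : Adds (fun t L => lChk R p sp true t 20 k L) := adds_lChk R p sp true 20 k
  have h2 : Adds (fun t L => lChk R p sp false t 20 k L) := adds_lChk R p sp false 20 k
  unfold checks
  have hk := adds_kChk p k (pChk p k (eO (fun t L => lChk R p sp true t 20 k L)
    (eD (fun t L => lChk R p sp false t 20 k L) []))) x
  have hp := adds_pChk p k (eO (fun t L => lChk R p sp true t 20 k L)
    (eD (fun t L => lChk R p sp false t 20 k L) [])) x
  simp only at hk hp
  rw [hk, hp, mem_eO h1, mem_eD h2]
  simp only [List.not_mem_nil, or_false]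

/-- `0` or a move in the patch -/
def LeGood (p x : Nat) : Prop := x = 0 ∨ MoveOk p (x / 400) (x % 400)

theorem le_good_enc {p a b : Nat} (ha : a < 400) (hb : b < 400)
    (hs : cell p a = 8 ∨ (9 ≤ cell p a ∧ cell p a ≤ 13)) (hd : cell p b ≤ 5 ∨ cell p b = 7) :
    LeGood p (enc a b) := by
  right
  rw [enc_div hb, enc_mod hb]
  refine ⟨ha, hb, ?_, hs, hd⟩
  rintro rfl
  omega

theorem le_msk_lt {m c : Nat} (h : msk m c = true) : m.testBit c = true := (msk_iff m c).1 h

theorem le_3f {c : Nat} (hc : c < 16) (h : msk 0x3f c = true) : c ≤ 5 := by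
  rw [msk_iff] at h
  interval_cases c <;> first | omega | (exfalso; revert h; decide)

theorem le_3e {c : Nat} (hc : c < 16) (h : msk 0x3e c = true) : 1 ≤ c ∧ c ≤ 5 := by
  rw [msk_iff] at h
  interval_cases c <;> first | omega | (exfalso; revert h; decide)

theorem le_3e00 {c : Nat} (hc : c < 16) (h : msk 0x3e00 c = true) : 9 ≤ c ∧ c ≤ 13 := by
  rw [msk_iff] at h
  interval_cases c <;> first | omega | (exfalso; revert h; decide)

theorem le_slider {m c : Nat} (hc : c < 16) (hm : m = 0x3100 ∨ m = 0x2100 ∨ m = 0x2900)
    (h : msk m c = true) : c = 8 ∨ (11 ≤ c ∧ c ≤ 13) := by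
  rw [msk_iff] at h
  rcases hm with rfl | rfl | rfl <;> interval_cases c <;>
    first | omega | (exfalso; revert h; decide)

theorem le_stp_lt {t i : Nat} (ht : t ∈ orT ++ diT ++ knT) (hi : Inner i) : stp t i < 400 :=
  (stp_inner ht hi).1

theorem le_inner {C : Ctx} {p k i : Nat} (h : WF C p k) (hi : i < 400) (hc : cell p i ≠ 15) :
    Inner i := inner_of_cell h hi hc

theorem le_kn {t : Nat} (ht : t ∈ knT) : t ∈ orT ++ diT ++ knT := by simp [ht]

theorem le_nMov {C : Ctx} {p k z : Nat} (h : WF C p k) (hz : z < 400) (hcz : cell p z ≤ 5) :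
    ∀ x ∈ nMov p z [], LeGood p x := by
  intro x hx
  have hin : Inner z := le_inner h hz (by omega)
  unfold nMov at hx
  rw [mem_e8 (le_f1 p z)] at hx
  rcases hx with ⟨t, ht, hx⟩ | hx
  · have hlt := le_stp_lt (le_kn ht) hin
    cases h1 : Nat.beq (cell p (stp t z)) 10
    · cases h2 : Nat.beq (cell p (stp t z)) 15
      · simp [h1, h2] at hx
      · simp only [h1, h2, cond_true, cond_false, List.mem_singleton] at hx
        exact Or.inl hx
    · simp only [h1, cond_true, List.mem_singleton] at hx
      rw [hx]
      have h3 := Nat.eq_of_beq_eq_true h1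
      exact le_good_enc hlt hz (Or.inr (by omega)) (Or.inl hcz)
  · simp at hx

theorem le_pCap {C : Ctx} {p k z : Nat} (h : WF C p k) (hz : z < 400) (hcz : cell p z ≤ 5) :
    ∀ x ∈ pCap p z [], LeGood p x := by
  intro x hx
  have hin : Inner z := le_inner h hz (by omega)
  unfold pCap at hx
  rw [mem_eP (le_f2 p z)] at hx
  rcases hx with ⟨t, ht, hx⟩ | hx
  · have ht' : t ∈ orT ++ diT ++ knT := by
      simp only [List.mem_cons, List.not_mem_nil, or_false] at ht
      rcases ht with rfl | rfl <;> decide
    have hlt := le_stp_lt ht' hin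
    cases h1 : Nat.beq (cell p (stp t z)) 9
    · cases h2 : Nat.beq (cell p (stp t z)) 15
      · simp [h1, h2] at hx
      · simp only [h1, h2, cond_true, cond_false, List.mem_singleton] at hx
        exact Or.inl hx
    · simp only [h1, cond_true, List.mem_singleton] at hx
      rw [hx]
      have h3 := Nat.eq_of_beq_eq_true h1
      exact le_good_enc hlt hz (Or.inr (by omega)) (Or.inl hcz)
  · simp at hx

theorem le_pStep {C : Ctx} {p k z : Nat} (h : WF C p k) (hz : z < 400) (hcz : cell p z ≤ 5) :
    ∀ x ∈ pStep p z [], LeGood p x := by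
  intro x hx
  have hin : Inner z := le_inner h hz (by omega)
  unfold pStep at hx
  have hlt := le_stp_lt (t := 62) (by decide) hin
  cases h1 : Nat.beq (cell p (stp 62 z)) 9
  · cases h2 : Nat.beq (cell p (stp 62 z)) 15
    · simp [h1, h2] at hx
    · simp only [h1, h2, cond_true, cond_false, List.mem_singleton] at hx
      exact Or.inl hx
  · simp only [h1, cond_true, List.mem_singleton] at hx
    rw [hx]
    have h3 := Nat.eq_of_beq_eq_true h1
    exact le_good_enc hlt hz (Or.inr (by omega)) (Or.inl hcz)

theorem le_sMov1 {C : Ctx} {p k m j t : Nat} (h : WF C p k) (hj : j < 400)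
    (hcj : cell p j ≤ 5 ∨ cell p j = 7) (ht : t ∈ orT ++ diT)
    (hm : m = 0x3100 ∨ m = 0x2100 ∨ m = 0x2900) :
    ∀ x ∈ sMov1 C.R p m j t [], LeGood p x := by
  intro x hx
  unfold sMov1 at hx
  cases h1 : msk m (fcode C.R p t j)
  · cases h2 : Nat.beq (fcode C.R p t j) 15
    · simp [h1, h2] at hx
    · simp only [h1, h2, cond_true, cond_false, List.mem_singleton] at hx
      exact Or.inl hx
  · simp only [h1, cond_true, List.mem_singleton] at hx
    rw [hx]
    have hlt16 : fcode C.R p t j < 16 := by
      rcases fcode_cases C.R p t j with ⟨h2, -⟩ | ⟨h2, -⟩ | ⟨h2, -⟩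
      · rw [h2]; exact cell_lt _ _
      · rw [h2]; omega
      · rw [h2]; exact cell_lt _ _
    have h3 := le_slider hlt16 hm h1
    have h4 : fcode C.R p t j = cell p (first p t 20 j) := by
      rcases fcode_cases C.R p t j with ⟨h2, -⟩ | ⟨h2, -⟩ | ⟨h2, -⟩
      · exact h2
      · omega
      · exact h2
    rw [h4] at h3
    obtain ⟨n, hn⟩ := first_spec h hj (show cell p j ≠ 15 by omega) ht
      (show cell p (first p t 20 j) ≠ 15 by omega)
    exact le_good_enc hn.lt hj (by omega) hcj

theorem le_sMov {C : Ctx} {p k j : Nat} (h : WF C p k) (ro : Bool) (hj : j < 400)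
    (hcj : cell p j ≤ 5 ∨ cell p j = 7) :
    ∀ x ∈ sMov C.R p ro j [], LeGood p x := by
  intro x hx
  unfold sMov at hx
  rw [mem_eO (adds_sMov1 _ _ _ _), mem_eD (adds_sMov1 _ _ _ _)] at hx
  rcases hx with ⟨t, ht, hx⟩ | ⟨t, ht, hx⟩ | hx
  · exact le_sMov1 h hj hcj (by simp [ht]) (by cases ro <;> simp) x hx
  · exact le_sMov1 h hj hcj (by simp [ht]) (by cases ro <;> simp) x hx
  · simp at hx

theorem le_sMovE {C : Ctx} {p k j : Nat} (h : WF C p k) (ro : Bool) (hj : j < 400)
    (hcj : cell p j ≤ 5 ∨ cell p j = 7) :
    ∀ x ∈ sMovE C.R p ro j [], LeGood p x := by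
  intro x hx
  unfold sMovE at hx
  have key : ∀ t ∈ orT ++ diT, ∀ m, (m = 0x3100 ∨ m = 0x2100 ∨ m = 0x2900) →
      x ∈ sMovE1 C.R p m j t [] → LeGood p x := by
    intro t ht m hm hx
    unfold sMovE1 at hx
    cases ho : outC (stp t j)
    · rw [ho] at hx
      exact le_sMov1 h hj hcj ht hm x hx
    · rw [ho] at hx
      simp at hx
  rw [mem_eO (adds_sMovE1 _ _ _ _), mem_eD (adds_sMovE1 _ _ _ _)] at hx
  rcases hx with ⟨t, ht, hx⟩ | ⟨t, ht, hx⟩ | hx
  · exact key t (by simp [ht]) _ (by cases ro <;> simp) hx
  · exact key t (by simp [ht]) _ (by cases ro <;> simp) hx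
  · simp at hx

theorem le_walk {C : Ctx} {p k s t : Nat} (h : WF C p k) (sp : Bool) (hs : s < 400)
    (hcs : 9 ≤ cell p s ∧ cell p s ≤ 13) (ht : t ∈ orT ++ diT) (n : Nat) :
    ∀ i, Inner i → ∀ x ∈ walk C.R p sp t s n i [], LeGood p x := by
  have ht' : t ∈ orT ++ diT ++ knT := by
    rw [List.mem_append]; exact Or.inl ht
  induction n with
  | zero =>
    intro i _ x hx
    rw [le_walk_zero, List.mem_singleton] at hx
    exact Or.inl hx
  | succ n ih =>
    intro i hi x hx
    have hlt := le_stp_lt ht' hi
    have h16 := cell_lt p (stp t i)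
    rw [le_walk_succ] at hx
    cases h1 : Nat.beq (cell p (stp t i)) 0
    · cases h2 : msk 0x3e (cell p (stp t i))
      · cases h3 : msk 0x8180 (cell p (stp t i))
        · simp [h1, h2, h3] at hx
        · cases h4 : (sp && (Nat.beq (cell p (stp t i)) 7 && isRay C.R (stp t i) t))
          · simp only [h1, h2, h3, h4, cond_true, cond_false, List.mem_singleton] at hx
            exact Or.inl hx
          · simp only [h1, h2, h3, h4, cond_true, cond_false, List.mem_singleton] at hx
            rw [hx]
            simp only [Bool.and_eq_true] at h4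
            have h5 := Nat.eq_of_beq_eq_true h4.2.1
            exact le_good_enc hs hlt (Or.inr hcs) (Or.inr h5)
      · simp only [h1, h2, cond_true, cond_false, List.mem_singleton] at hx
        rw [hx]
        exact le_good_enc hs hlt (Or.inr hcs) (Or.inl (le_3e h16 h2).2)
    · simp only [h1, cond_true, List.mem_cons] at hx
      have h3 := Nat.eq_of_beq_eq_true h1
      rcases hx with hx | hx
      · rw [hx]
        exact le_good_enc hs hlt (Or.inr hcs) (Or.inl (by omega))
      · exact ih (stp t i) (le_inner h hlt (by omega)) x hx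

theorem le_bMoves {C : Ctx} {p k j : Nat} (h : WF C p k) (sp : Bool) (hj : j < 400)
    (hcj : 9 ≤ cell p j ∧ cell p j ≤ 13) :
    ∀ x ∈ bMoves C.R p sp (cell p j) j [], LeGood p x := by
  intro x hx
  have hin : Inner j := le_inner h hj (by omega)
  have h8 : Adds (fun t L => cond (msk 0x3f (cell p (stp t j))) (enc j (stp t j) :: L)
      (cond (msk 0x8180 (cell p (stp t j))) (0 :: L) L)) := fun _ L x => le_cond2 _ _ _ _ L x
  have hQ : Adds (fun t L => cond (msk 0x3e (cell p (stp t j))) (enc j (stp t j) :: L)
            (cond (Nat.beq (cell p (stp t j)) 15) (0 :: L) L)) := fun _ L x => le_cond2 _ _ _ _ L x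
  have hW : Adds (fun t L => walk C.R p sp t j 20 j L) := adds_walk C.R p sp j 20 j
  have hwO : ∀ t ∈ orT, ∀ x ∈ walk C.R p sp t j 20 j [], LeGood p x := fun t ht x hx =>
    le_walk h sp hj hcj (by simp [ht]) 20 j hin x hx
  have hwD : ∀ t ∈ diT, ∀ x ∈ walk C.R p sp t j 20 j [], LeGood p x := fun t ht x hx =>
    le_walk h sp hj hcj (by simp [ht]) 20 j hin x hx
  have hQ2 : x ∈ eQ (fun t L => cond (msk 0x3e (cell p (stp t j))) (enc j (stp t j) :: L)
            (cond (Nat.beq (cell p (stp t j)) 15) (0 :: L) L)) [] → LeGood p x := by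
    intro hx
    rw [mem_eQ hQ] at hx
    rcases hx with ⟨t, ht, hx⟩ | hx
    · have ht' : t ∈ orT ++ diT ++ knT := by
        simp only [List.mem_cons, List.not_mem_nil, or_false] at ht
        rcases ht with rfl | rfl <;> decide
      have hlt := le_stp_lt ht' hin
      cases h1 : msk 0x3e (cell p (stp t j))
      · cases h2 : Nat.beq (cell p (stp t j)) 15
        · simp [h1, h2] at hx
        · simp only [h1, h2, cond_true, cond_false, List.mem_singleton] at hx
          exact Or.inl hx
      · simp only [h1, cond_true, List.mem_singleton] at hx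
        rw [hx]
        exact le_good_enc hj hlt (Or.inr hcj) (Or.inl (le_3e (cell_lt _ _) h1).2)
    · simp at hx
  unfold bMoves at hx
  cases h1 : Nat.beq (cell p j) 10
  · cases h2 : Nat.beq (cell p j) 9
    · cases h3 : msk 0x3800 (cell p j)
      · simp only [h1, h2, h3, cond_false, List.mem_singleton] at hx
        exact Or.inl hx
      · cases h4 : msk 0x3000 (cell p j)
        · simp only [h1, h2, h3, h4, cond_true, cond_false] at hx
          rw [mem_eD hW] at hx
          rcases hx with ⟨t, ht, hx⟩ | hx
          · exact hwD t ht x hx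
          · simp at hx
        · cases h5 : msk 0x2800 (cell p j)
          · simp only [h1, h2, h3, h4, h5, cond_true, cond_false] at hx
            rw [mem_eO hW] at hx
            rcases hx with ⟨t, ht, hx⟩ | hx
            · exact hwO t ht x hx
            · simp at hx
          · simp only [h1, h2, h3, h4, h5, cond_true, cond_false] at hx
            rw [mem_eO hW, mem_eD hW] at hx
            rcases hx with ⟨t, ht, hx⟩ | ⟨t, ht, hx⟩ | hx
            · exact hwO t ht x hx
            · exact hwD t ht x hx
            · simp at hx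
    · cases h3 : Nat.beq (cell p (stp 22 j)) 0
      · cases h4 : msk 0x8180 (cell p (stp 22 j))
        · simp only [h1, h2, h3, h4, cond_true, cond_false] at hx
          exact hQ2 hx
        · simp only [h1, h2, h3, h4, cond_true, cond_false, List.mem_singleton] at hx
          exact Or.inl hx
      · simp only [h1, h2, h3, cond_true, cond_false, List.mem_cons] at hx
        rcases hx with hx | hx
        · rw [hx]
          have h5 := Nat.eq_of_beq_eq_true h3
          exact le_good_enc hj (le_stp_lt (by decide) hin) (Or.inr hcj) (Or.inl (by omega))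
        · exact hQ2 hx
  · simp only [h1, cond_true] at hx
    rw [mem_e8 h8] at hx
    rcases hx with ⟨t, ht, hx⟩ | hx
    · have hlt := le_stp_lt (le_kn ht) hin
      cases h2 : msk 0x3f (cell p (stp t j))
      · cases h3 : msk 0x8180 (cell p (stp t j))
        · simp [h2, h3] at hx
        · simp only [h2, h3, cond_true, cond_false, List.mem_singleton] at hx
          exact Or.inl hx
      · simp only [h2, cond_true, List.mem_singleton] at hx
        rw [hx]
        exact le_good_enc hj hlt (Or.inr hcj) (Or.inl (le_3f (cell_lt _ _) h2))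
    · simp at hx

theorem le_lChk {C : Ctx} {p k t : Nat} (h : WF C p k) (sp ro : Bool)
    (ht : t ∈ orT ++ diT) (n : Nat) :
    ∀ i, Inner i → ∀ x ∈ lChk C.R p sp ro t n i [], LeGood p x := by
  have ht' : t ∈ orT ++ diT ++ knT := by
    rw [List.mem_append]; exact Or.inl ht
  induction n with
  | zero =>
    intro i _ x hx
    rw [le_lChk_zero, List.mem_singleton] at hx
    exact Or.inl hx
  | succ n ih =>
    intro i hi x hx
    have hlt := le_stp_lt ht' hi
    have h16 := cell_lt p (stp t i)
    rw [le_lChk_succ] at hx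
    cases h1 : Nat.beq (cell p (stp t i)) 0
    · cases h2 : msk 0x3e (cell p (stp t i))
      · cases h3 : msk 0x3e00 (cell p (stp t i))
        · cases h4 : (sp && (Nat.beq (cell p (stp t i)) 7 && isRay C.R (stp t i) t))
          · simp only [h1, h2, h3, h4, cond_false, List.mem_singleton] at hx
            exact Or.inl hx
          · simp only [h1, h2, h3, h4, cond_true, cond_false] at hx
            simp only [Bool.and_eq_true] at h4
            have h5 := Nat.eq_of_beq_eq_true h4.2.1
            exact le_sMovE h ro hlt (Or.inr h5) x hx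
        · cases h4 : msk (cond ro 0xb100 0xa900) (fcode C.R p t (stp t i))
          · simp [h1, h2, h3, h4] at hx
          · simp only [h1, h2, h3, h4, cond_true, cond_false] at hx
            exact le_bMoves h sp hlt (le_3e00 h16 h3) x hx
      · simp only [h1, h2, cond_true, cond_false] at hx
        exact le_sMov h ro hlt (Or.inl (le_3e h16 h2).2) x hx
    · have h3 := Nat.eq_of_beq_eq_true h1
      simp only [h1, cond_true] at hx
      rcases (adds_sMov C.R p ro (stp t i) _ x).1 hx with hx | hx
      · exact le_sMov h ro hlt (Or.inl (by omega)) x hx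
      · exact ih (stp t i) (le_inner h hlt (by omega)) x hx

/-- Every listed move is a move in the patch. -/
theorem checks_ok {C : Ctx} {p k : Nat} (h : WF C p k) (sp : Bool)
    (h0 : 0 ∉ checks C.R sp p k) {m : Nat} (hm : m ∈ checks C.R sp p k) :
    MoveOk p (m / 400) (m % 400) := by
  have hk : Inner k := le_inner h h.lt (by rw [h.king]; decide)
  have key : LeGood p m := by
    rw [mem_checks] at hm
    rcases hm with hm | hm | ⟨t, ht, hm⟩ | ⟨t, ht, hm⟩
    · unfold kChk at hm
      rw [mem_e8 (le_f3 p k)] at hm
      rcases hm with ⟨t, ht, hm⟩ | hm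
      · have hlt := le_stp_lt (le_kn ht) hk
        cases h2 : msk 0x3f (cell p (stp t k))
        · cases h3 : msk 0x8180 (cell p (stp t k))
          · simp [h2, h3] at hm
          · simp only [h2, h3, cond_true, cond_false, List.mem_singleton] at hm
            exact Or.inl hm
        · simp only [h2, cond_true] at hm
          exact le_nMov h hlt (le_3f (cell_lt _ _) h2) m hm
      · simp at hm
    · unfold pChk at hm
      rw [mem_eP (le_f4 p k)] at hm
      rcases hm with ⟨t, ht, hm⟩ | hm
      · have ht' : t ∈ orT ++ diT ++ knT := by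
          simp only [List.mem_cons, List.not_mem_nil, or_false] at ht
          rcases ht with rfl | rfl <;> decide
        have hlt := le_stp_lt ht' hk
        cases h2 : msk 0x8180 (cell p (stp t k))
        · cases h3 : Nat.beq (cell p (stp t k)) 0
          · cases h4 : msk 0x3e (cell p (stp t k))
            · simp [h2, h3, h4] at hm
            · simp only [h2, h3, h4, cond_true, cond_false] at hm
              exact le_pCap h hlt (le_3e (cell_lt _ _) h4).2 m hm
          · simp only [h2, h3, cond_true, cond_false] at hm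
            have h5 := Nat.eq_of_beq_eq_true h3
            exact le_pStep h hlt (by omega) m hm
        · simp only [h2, cond_true, List.mem_singleton] at hm
          exact Or.inl hm
      · simp at hm
    · exact le_lChk h sp true (by simp [ht]) 20 k hk m hm
    · exact le_lChk h sp false (by simp [ht]) 20 k hk m hm
  rcases key with key | key
  · rw [key] at hm
    exact absurd hm h0
  · exact key

end Pool.Agent.Lib.H32C.Loc
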