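import Pool.Agent.Lib.H32C.LocB

/-!
# Chunk LF1: completeness of the lists of knight and pawn moves
-/

set_option autoImplicit false

namespace Pool.Agent.Lib.H32C.Loc

/-- chunk LF1: the boards agree -/
theorem Is.brd {C : Ctx} (hC : C.Ok) {p k m : Nat} {a b : Sq} (h : WF C p k) (hi : Is C p m a b)
    (hm : MoveOk p (m / 400) (m % 400)) :
    C.brd (mvb C.R p (m / 400) (m % 400)) = (C.brd p).move a b := by
  obtain ⟨-, hb, ha⟩ := hi
  subst hb
  rcases ha with ⟨h8, rfl⟩ | ⟨h8, rfl⟩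
  · rw [mvb_eq h8]
    have h1 := hm.src
    have h2 := hm.dst
    exact brd_mv C h hm.a_lt hm.b_lt hm.ne ⟨by omega, by omega, by omega, by omega⟩
      ⟨by omega, by omega⟩
  · obtain ⟨ρ, hρ, he⟩ := h.mark _ hm.a_lt (Or.inr h8)
    have hne := hm.ne
    rw [← he] at h8 hne ⊢
    exact brd_mvb hC h hρ h8 hm.b_lt hm.dst hne.symm

theorem LF1_dec {c : Nat} (hc : c < 16) {m : Man} (h : dec c = some m) (hm : m.1 = false) :
    (m.2 = Kind.pawn → c = 9) ∧ (m.2 = Kind.knight → c = 10) ∧ (m.2 = Kind.bishop → c = 11) ∧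
      (m.2 = Kind.rook → c = 12) ∧ (m.2 = Kind.queen → c = 13) ∧ (m.2 = Kind.king → c = 14) := by
  interval_cases c <;> simp only [dec, Option.some.injEq, reduceCtorEq] at h <;> subst h <;>
    simp at hm ⊢

theorem LF1_adds {f : Nat → Nat} {P Q : Nat → Bool} :
    Adds (fun t L => cond (P t) (f t :: L) (cond (Q t) (0 :: L) L)) := by
  intro t L x
  cases hP : P t <;> cases hQ : Q t <;> simp [hP, hQ]

theorem LF1_src {C : Ctx} {p k z t : Nat} (h : WF C p k) (hz : z < 400) (hcz : cell p z ≠ 15)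
    (ht : t ∈ orT ++ diT ++ knT) {a : Sq} (ha : a = sq C.o z + vec t) :
    stp t z < 400 ∧ a = sq C.o (stp t z) ∧ z ≠ 0 := by
  have hin := inner_of_cell h hz hcz
  obtain ⟨h1, h2⟩ := stp_inner ht hin
  refine ⟨h1, by rw [ha, h2], ?_⟩
  rintro rfl
  have := hin.1
  simp at this

theorem LF1_is {C : Ctx} {p z j : Nat} {a : Sq} (hz : z < 400) (hz0 : z ≠ 0)
    (hc : cell p j ≠ 8) (ha : a = sq C.o j) : Is C p (enc j z) a (sq C.o z) := by
  refine ⟨?_, ?_, Or.inl ⟨?_, ?_⟩⟩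
  · rw [enc_eq]
    omega
  · rw [enc_mod hz]
  · rw [enc_div hz]
    exact hc
  · rw [enc_div hz]
    exact ha

theorem LF1_code {C : Ctx} {p j c : Nat} (hj : j < 400) (hc : cell p j ≠ 15) {m : Man}
    (ha : C.brd p (sq C.o j) = some m) (hm : m.1 = false)
    (hmc : (m.2 = Kind.pawn ∧ c = 9) ∨ (m.2 = Kind.knight ∧ c = 10)) : cell p j = c := by
  rw [brd_sq C hj hc] at ha
  obtain ⟨h1, h2, -⟩ := LF1_dec (cell_lt p j) ha hm
  rcases hmc with ⟨h3, rfl⟩ | ⟨h3, rfl⟩
  · exact h1 h3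
  · exact h2 h3

theorem LF1_neg {v : Sq} (h : v ∈ knightJumps) : -v ∈ knightJumps := by
  simp only [knightJumps, List.mem_cons, List.not_mem_nil, or_false] at h ⊢
  rcases h with rfl | rfl | rfl | rfl | rfl | rfl | rfl | rfl <;> decide

/-- chunk LF2: a Black knight which can go to the cell `z` is listed by `nMov` -/
theorem nMov_complete {C : Ctx} (hC : C.Ok) {p k z : Nat} (h : WF C p k) (hz : z < 400)
    (hcz : cell p z ≠ 15) (h0 : 0 ∉ nMov p z []) (a : Sq)
    (ha : C.brd p a = some (false, Kind.knight)) (hab : sq C.o z - a ∈ knightJumps) :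
    ∃ m ∈ nMov p z [], Is C p m a (sq C.o z) := by
  obtain ⟨t, ht, hv⟩ := kn_vec (LF1_neg hab)
  have hae : a = sq C.o z + vec t := by
    rw [hv]
    abel
  obtain ⟨h1, h2, h3⟩ := LF1_src h hz hcz (List.mem_append.2 (Or.inr ht)) hae
  subst h2
  unfold nMov at h0 ⊢
  have hc : cell p (stp t z) ≠ 15 := by
    intro hc
    apply h0
    rw [mem_e8 LF1_adds]
    refine Or.inl ⟨t, ht, ?_⟩
    rw [hc]
    exact List.mem_cons_self
  have hc2 : cell p (stp t z) = 10 := LF1_code h1 hc ha rfl (Or.inr ⟨rfl, rfl⟩)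
  refine ⟨enc (stp t z) z, ?_, LF1_is hz h3 (by omega) rfl⟩
  rw [mem_e8 LF1_adds]
  refine Or.inl ⟨t, ht, ?_⟩
  rw [hc2]
  exact List.mem_cons_self

/-- chunk LF2: a Black pawn which can step to the empty cell `z` is listed by `pStep` -/
theorem pStep_complete {C : Ctx} (hC : C.Ok) {p k z : Nat} (h : WF C p k) (hz : z < 400)
    (hcz : cell p z ≠ 15) (h0 : 0 ∉ pStep p z []) (a : Sq)
    (ha : C.brd p a = some (false, Kind.pawn)) (hab : sq C.o z - a = (0, -1)) :
    ∃ m ∈ pStep p z [], Is C p m a (sq C.o z) := by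
  have hae : a = sq C.o z + vec 62 := by
    have h1 : vec 62 = (0, 1) := by decide
    rw [h1]
    have h2 : a = sq C.o z - (0, -1) := by
      rw [← hab]
      abel
    rw [h2]
    ext <;> simp
  obtain ⟨h1, h2, h3⟩ := LF1_src h hz hcz (by decide) hae
  subst h2
  unfold pStep at h0 ⊢
  have hc : cell p (stp 62 z) ≠ 15 := by
    intro hc
    apply h0
    rw [hc]
    exact List.mem_cons_self
  have hc2 : cell p (stp 62 z) = 9 := LF1_code h1 hc ha rfl (Or.inl ⟨rfl, rfl⟩)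
  refine ⟨enc (stp 62 z) z, ?_, LF1_is hz h3 (by omega) rfl⟩
  rw [hc2]
  exact List.mem_cons_self

/-- chunk LF2: a Black pawn which can capture on the cell `z` is listed by `pCap` -/
theorem pCap_complete {C : Ctx} (hC : C.Ok) {p k z : Nat} (h : WF C p k) (hz : z < 400)
    (hcz : cell p z ≠ 15) (h0 : 0 ∉ pCap p z []) (a : Sq)
    (ha : C.brd p a = some (false, Kind.pawn))
    (hab : sq C.o z - a = (1, -1) ∨ sq C.o z - a = (-1, -1)) :
    ∃ m ∈ pCap p z [], Is C p m a (sq C.o z) := by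
  obtain ⟨t, ht, ht2, hae⟩ : ∃ t ∈ [63, 61], t ∈ orT ++ diT ++ knT ∧ a = sq C.o z + vec t := by
    rcases hab with hab | hab
    · refine ⟨61, by decide, by decide, ?_⟩
      have h1 : vec 61 = (-1, 1) := by decide
      rw [h1]
      have h2 : a = sq C.o z - (1, -1) := by
        rw [← hab]
        abel
      rw [h2]
      ext <;> simp <;> ring
    · refine ⟨63, by decide, by decide, ?_⟩
      have h1 : vec 63 = (1, 1) := by decide
      rw [h1]
      have h2 : a = sq C.o z - (-1, -1) := by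
        rw [← hab]
        abel
      rw [h2]
      ext <;> simp
  obtain ⟨h1, h2, h3⟩ := LF1_src h hz hcz ht2 hae
  subst h2
  unfold pCap at h0 ⊢
  have hc : cell p (stp t z) ≠ 15 := by
    intro hc
    apply h0
    rw [mem_eP LF1_adds]
    refine Or.inl ⟨t, ht, ?_⟩
    rw [hc]
    exact List.mem_cons_self
  have hc2 : cell p (stp t z) = 9 := LF1_code h1 hc ha rfl (Or.inl ⟨rfl, rfl⟩)
  refine ⟨enc (stp t z) z, ?_, LF1_is hz h3 (by omega) rfl⟩
  rw [mem_eP LF1_adds]
  refine Or.inl ⟨t, ht, ?_⟩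
  rw [hc2]
  exact List.mem_cons_self


end Pool.Agent.Lib.H32C.Loc
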