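import Pool.Agent.Lib.H32C.LocE

/-!
# Chunk LF3: completeness of `sMov`
-/

set_option autoImplicit false

namespace Pool.Agent.Lib.H32C.Loc

theorem LF3_core {C : Ctx} (hC : C.Ok) {p k j t n M : Nat} (h : WF C p k) (hj : j < 400)
    (hcj : cell p j ≠ 15) (ht : t ∈ orT ++ diT) (hM15 : msk M 15 = false) (hM8 : msk M 8 = true)
    (h0 : 0 ∉ sMov1 C.R p M j t []) (hn : 0 < n) {m : Man}
    (ha : C.brd p (sq C.o j + n • vec t) = some m)
    (hcl : ∀ l : ℕ, 0 < l → l < n → C.brd p (sq C.o j + l • vec t) = none)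
    (hcode : ∀ c < 16, dec c = some m → msk M c = true) (hq : ¬ Quiet t m) :
    ∃ x ∈ sMov1 C.R p M j t [], Is C p x (sq C.o j + n • vec t) (sq C.o j) := by
  have hne : C.brd p (sq C.o j + n • vec t) ≠ none := by
    rw [ha]
    exact Option.some_ne_none m
  have hj0 : j ≠ 0 := by
    rintro rfl
    have := (inner_of_cell h hj hcj).1
    simp at this
  have henc : ∀ i, enc i j ≠ 0 := by
    intro i
    rw [enc_eq]
    omega
  have hno15 : fcode C.R p t j ≠ 15 := by
    intro hf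
    apply h0
    unfold sMov1
    rw [hf, hM15]
    exact List.mem_cons_self
  have hmem : msk M (fcode C.R p t j) = true → enc (first p t 20 j) j ∈ sMov1 C.R p M j t [] := by
    intro hf
    unfold sMov1
    rw [hf]
    exact List.mem_cons_self
  rcases fcode_cases C.R p t j with ⟨hf, h7, h8⟩ | ⟨hf, -⟩ | ⟨hf, h78, ρ, hρ, he, hρt⟩
  · have h15 : cell p (first p t 20 j) ≠ 15 := by
      rw [← hf]
      exact hno15
    obtain ⟨n', hS⟩ := first_spec h hj hcj ht h15
    have hnn : n = n' := first_unique hC h hj hS ⟨h7, h8⟩ h15 hn hne hcl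
    have hsq : sq C.o (first p t 20 j) = sq C.o j + n • vec t := by
      rw [hnn]
      exact hS.eq
    rw [← hsq, brd_sq C hS.lt h15] at ha
    refine ⟨enc (first p t 20 j) j, hmem ?_, henc _, ?_, Or.inl ⟨?_, ?_⟩⟩
    · rw [hf]
      exact hcode _ (cell_lt _ _) ha
    · rw [enc_mod hj]
    · rw [enc_div hj]
      exact h8
    · rw [enc_div hj]
      exact hsq.symm
  · exact absurd hf hno15
  · have h15 : cell p (first p t 20 j) ≠ 15 := by
      rw [← hf]
      exact hno15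
    obtain ⟨n', hS⟩ := first_spec h hj hcj ht h15
    rw [← he] at hS h78
    rw [← hρt] at hS hne hcl ha hq ⊢
    rcases h78 with h7 | h8
    · exact absurd (first_mark7 hC h hρ hS h7 hn hcl ha).2.2.2 hq
    · have hfe := first_mark8 hC h hρ hS h8 hn hcl hne
      refine ⟨enc (first p t 20 j) j, ?_, henc _, ?_, Or.inr ⟨?_, ?_⟩⟩
      · rw [hρt]
        refine hmem ?_
        rw [hf, ← he, h8]
        exact hM8
      · rw [enc_mod hj]
      · rw [enc_div hj, ← he]
        exact h8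
      · rw [enc_div hj, ← he]
        exact hfe

theorem LF3_dec {c : Nat} (hc : c < 16) {m : Man} (h : dec c = some m) (hm : m.1 = false) :
    (m.2 = Kind.bishop → c = 11) ∧ (m.2 = Kind.rook → c = 12) ∧ (m.2 = Kind.queen → c = 13) := by
  interval_cases c <;> simp only [dec, Option.some.injEq, reduceCtorEq] at h <;> subst h <;>
    simp at hm ⊢

/-- reversal of a slide -/
theorem LF3_rev {B : Board} {a b d v : Sq} {n : ℕ} (hv : v = -d) (hb : b = a + n • d)
    (hcl : ∀ k : ℕ, 0 < k → k < n → B (a + k • d) = none) :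
    a = b + n • v ∧ ∀ l : ℕ, 0 < l → l < n → B (b + l • v) = none := by
  subst hv
  subst hb
  constructor
  · simp
  · intro l hl hln
    have h1 : a + n • d + l • -d = a + (n - l) • d := by
      obtain ⟨r, rfl⟩ := Nat.exists_eq_add_of_lt hln
      have h2 : l + r + 1 - l = r + 1 := by omega
      rw [h2, smul_neg, show l + r + 1 = (r + 1) + l by ring, add_nsmul]
      abel
    rw [h1]
    exact hcl _ (by omega) (by omega)

theorem LF3_negO {v : Sq} (h : v ∈ orthDirs) : -v ∈ orthDirs := by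
  simp only [orthDirs, List.mem_cons, List.not_mem_nil, or_false] at h ⊢
  rcases h with rfl | rfl | rfl | rfl <;> decide

theorem LF3_negD {v : Sq} (h : v ∈ diagDirs) : -v ∈ diagDirs := by
  simp only [diagDirs, List.mem_cons, List.not_mem_nil, or_false] at h ⊢
  rcases h with rfl | rfl | rfl | rfl <;> decide

/-- chunk LF3: a Black slider which can go to the cell `j` along an orthogonal line is listed by `sMov`
(rooks only if `ro`) -/
theorem sMov_orth {C : Ctx} (hC : C.Ok) {p k j : Nat} (ro : Bool) (h : WF C p k) (hj : j < 400)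
    (hcj : cell p j ≠ 15) (h0 : 0 ∉ sMov C.R p ro j []) (a : Sq) (m : Man)
    (ha : C.brd p a = some m) (hb : m.1 = false)
    (hk : m.2 = Kind.queen ∨ (ro = true ∧ m.2 = Kind.rook))
    (hs : Slides (C.brd p) orthDirs a (sq C.o j)) :
    ∃ x ∈ sMov C.R p ro j [], Is C p x a (sq C.o j) := by
  obtain ⟨d, hd, n, hn, hbe, hcl⟩ := hs
  obtain ⟨t, ht, hv⟩ := or_vec (LF3_negO hd)
  obtain ⟨hae, hcl'⟩ := LF3_rev (B := C.brd p) hv hbe hcl
  unfold sMov at h0 ⊢
  rw [mem_eO (adds_sMov1 _ _ _ _), not_or] at h0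
  have h0' : 0 ∉ sMov1 C.R p (cond ro 0x3100 0x2100) j t [] := fun hc => h0.1 ⟨t, ht, hc⟩
  rw [hae] at ha
  obtain ⟨x, hx, hI⟩ := LF3_core hC h hj hcj (List.mem_append.2 (Or.inl ht))
    (by cases ro <;> rfl) (by cases ro <;> rfl) h0' hn ha hcl' (fun c hc hdc => by
      obtain ⟨-, h2, h3⟩ := LF3_dec hc hdc hb
      rcases hk with hk | ⟨hr, hk⟩
      · rw [h3 hk]
        cases ro <;> rfl
      · rw [h2 hk, hr]
        rfl) (fun hq => by
      obtain ⟨-, g2, g3, -⟩ := LD_quiet hq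
      rcases hk with hk | ⟨-, hk⟩
      · exact g2 hk
      · exact g3 ht hk)
  rw [← hae] at hI
  exact ⟨x, (mem_eO (adds_sMov1 _ _ _ _) _ _).2 (Or.inl ⟨t, ht, hx⟩), hI⟩

/-- chunk LF3: the same for diagonal lines (bishops only if `ro = false`) -/
theorem sMov_diag {C : Ctx} (hC : C.Ok) {p k j : Nat} (ro : Bool) (h : WF C p k) (hj : j < 400)
    (hcj : cell p j ≠ 15) (h0 : 0 ∉ sMov C.R p ro j []) (a : Sq) (m : Man)
    (ha : C.brd p a = some m) (hb : m.1 = false)
    (hk : m.2 = Kind.queen ∨ (ro = false ∧ m.2 = Kind.bishop))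
    (hs : Slides (C.brd p) diagDirs a (sq C.o j)) :
    ∃ x ∈ sMov C.R p ro j [], Is C p x a (sq C.o j) := by
  obtain ⟨d, hd, n, hn, hbe, hcl⟩ := hs
  obtain ⟨t, ht, hv⟩ := di_vec (LF3_negD hd)
  obtain ⟨hae, hcl'⟩ := LF3_rev (B := C.brd p) hv hbe hcl
  unfold sMov at h0 ⊢
  rw [mem_eO (adds_sMov1 _ _ _ _), mem_eD (adds_sMov1 _ _ _ _), not_or, not_or] at h0
  have h0' : 0 ∉ sMov1 C.R p (cond ro 0x2100 0x2900) j t [] := fun hc => h0.2.1 ⟨t, ht, hc⟩
  rw [hae] at ha
  obtain ⟨x, hx, hI⟩ := LF3_core hC h hj hcj (List.mem_append.2 (Or.inr ht))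
    (by cases ro <;> rfl) (by cases ro <;> rfl) h0' hn ha hcl' (fun c hc hdc => by
      obtain ⟨h1, -, h3⟩ := LF3_dec hc hdc hb
      rcases hk with hk | ⟨hr, hk⟩
      · rw [h3 hk]
        cases ro <;> rfl
      · rw [h1 hk, hr]
        rfl) (fun hq => by
      obtain ⟨-, g2, -, g3⟩ := LD_quiet hq
      rcases hk with hk | ⟨-, hk⟩
      · exact g2 hk
      · exact g3 ht hk)
  rw [← hae] at hI
  refine ⟨x, (mem_eO (adds_sMov1 _ _ _ _) _ _).2 (Or.inr ?_), hI⟩
  exact (mem_eD (adds_sMov1 _ _ _ _) _ _).2 (Or.inl ⟨t, ht, hx⟩)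


end Pool.Agent.Lib.H32C.Loc
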