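import Pool.Agent.Lib.H32C.LocE

/-!
# Chunk LF4: completeness of `bMoves`
-/

set_option autoImplicit false

namespace Pool.Agent.Lib.H32C.Loc

/-- chunk LF4: a code below `16` which is `0`, or one of the codes `1` to `5`, or in the mask `0x8180`,
or decodes to a piece which is Black or the White king -/
theorem LF4_codes {c : Nat} (hc : c < 16) :
    c = 0 ∨ (msk 0x3e c = true ∧ c ≠ 0) ∨ (msk 0x8180 c = true ∧ msk 0x3e c = false ∧ c ≠ 0) ∨
    (msk 0x8180 c = false ∧ msk 0x3e c = false ∧ msk 0x3f c = false ∧ c ≠ 0 ∧ c ≠ 15 ∧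
      ∃ m : Man, dec c = some m ∧ (m.1 = true → m.2 = Kind.king)) := by
  interval_cases c
  · left; rfl
  · right; left; decide
  · right; left; decide
  · right; left; decide
  · right; left; decide
  · right; left; decide
  · right; right; right
    exact ⟨by decide, by decide, by decide, by decide, by decide, _, rfl, fun _ => rfl⟩
  · right; right; left; decide
  · right; right; left; decide
  · right; right; right
    exact ⟨by decide, by decide, by decide, by decide, by decide, _, rfl,
      fun h => absurd h (by decide)⟩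
  · right; right; right
    exact ⟨by decide, by decide, by decide, by decide, by decide, _, rfl,
      fun h => absurd h (by decide)⟩
  · right; right; right
    exact ⟨by decide, by decide, by decide, by decide, by decide, _, rfl,
      fun h => absurd h (by decide)⟩
  · right; right; right
    exact ⟨by decide, by decide, by decide, by decide, by decide, _, rfl,
      fun h => absurd h (by decide)⟩
  · right; right; right
    exact ⟨by decide, by decide, by decide, by decide, by decide, _, rfl,
      fun h => absurd h (by decide)⟩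
  · right; right; right
    exact ⟨by decide, by decide, by decide, by decide, by decide, _, rfl,
      fun h => absurd h (by decide)⟩
  · right; right; left; decide

/-- chunk LF4: the mask `0x3f` -/
theorem LF4_mask {c : Nat} (hc : c < 16) (h : c = 0 ∨ msk 0x3e c = true) : msk 0x3f c = true := by
  interval_cases c <;> revert h <;> decide

/-- chunk LF4: the square `b` is empty or holds a White piece other than the king -/
def LF4Free (B : Board) (b : Sq) : Prop :=
  B b = none ∨ ∃ m : Man, B b = some m ∧ m.1 = true ∧ m.2 ≠ Kind.king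

theorem LF4_free_of_canGo {B : Board} {a b : Sq} (hg : CanGo B false a b) : LF4Free B b := by
  obtain ⟨m, -, -, h | ⟨⟨t, h1, h2, h3⟩, -⟩⟩ := hg
  · exact Or.inl h.1
  · exact Or.inr ⟨t, h1, h2, h3⟩

/-- chunk LF4: codes of a free cell -/
theorem LF4_free_codes {C : Ctx} {p z : Nat} (hz : z < 400) (hf : LF4Free (C.brd p) (sq C.o z)) :
    cell p z = 0 ∨ (msk 0x3e (cell p z) = true ∧ cell p z ≠ 0) ∨
    (msk 0x8180 (cell p z) = true ∧ msk 0x3e (cell p z) = false ∧ cell p z ≠ 0) := by
  rcases LF4_codes (cell_lt p z) with h | h | h | ⟨-, -, -, -, h15, m, hm, hm2⟩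
  · exact Or.inl h
  · exact Or.inr (Or.inl h)
  · exact Or.inr (Or.inr h)
  · exfalso
    have hb := brd_sq C hz h15
    rw [hm] at hb
    rcases hf with h1 | ⟨m', h1, h2, h3⟩
    · rw [hb] at h1
      exact absurd h1 (by simp)
    · rw [hb] at h1
      have h4 : m = m' := Option.some.inj h1
      subst h4
      exact h3 (hm2 h2)

/-- chunk LF4: the move from `j` to `z` -/
theorem LF4_is {C : Ctx} {p k j z : Nat} (h : WF C p k) (hj : j < 400)
    (hcj : 9 ≤ cell p j ∧ cell p j ≤ 13) (hz : z < 400) :
    Is C p (enc j z) (sq C.o j) (sq C.o z) := by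
  have hin : Inner j := inner_of_cell h hj (by omega)
  have hj0 : 0 < j := by
    unfold Inner at hin
    omega
  refine ⟨?_, ?_, Or.inl ⟨?_, ?_⟩⟩
  · rw [enc_eq]; omega
  · rw [enc_mod hz]
  · rw [enc_div hz]; omega
  · rw [enc_div hz]

theorem LF4_walk {C : Ctx} {p k s t : Nat} (sp : Bool) (h : WF C p k) (ht : t ∈ orT ++ diT) (N : ℕ) :
    ∀ (i n : Nat), i < 400 → cell p i ≠ 15 → 0 ∉ walk C.R p sp t s N i [] → 0 < n →
      (∀ l : ℕ, 0 < l → l < n → C.brd p (sq C.o i + l • vec t) = none) →
      LF4Free (C.brd p) (sq C.o i + n • vec t) →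
      (∃ z < 400, enc s z ∈ walk C.R p sp t s N i [] ∧ sq C.o z = sq C.o i + n • vec t) ∨
        (sp = true ∧ Beyond C p (sq C.o i + n • vec t)) := by
  induction N with
  | zero =>
    intro i n hi hci h0
    exact absurd (List.mem_cons_self) h0
  | succ N ih =>
    intro i n hi hci h0 hn hcl hfree
    have hin : Inner i := inner_of_cell h hi hci
    have ht' : t ∈ orT ++ diT ++ knT := List.mem_append_left _ ht
    obtain ⟨hz, hsq⟩ := stp_inner ht' hin
    have hsq := hsq C.o
    set z := stp t i with hzdef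
    have hw : walk C.R p sp t s (N + 1) i [] =
      cond (Nat.beq (cell p z) 0) (enc s z :: walk C.R p sp t s N z [])
      (cond (msk 0x3e (cell p z)) (enc s z :: [])
        (cond (msk 0x8180 (cell p z))
          (cond (sp && (Nat.beq (cell p z) 7 && isRay C.R z t)) (enc s z :: [])
            (0 :: [])) [])) := rfl
    rw [hw] at h0 ⊢
    have hstep : ∀ l : ℕ, sq C.o i + (l + 1) • vec t = sq C.o z + l • vec t := by
      intro l
      rw [hsq, add_smul, one_smul]
      abel
    have hz1 : sq C.o z = sq C.o i + 1 • vec t := by rw [one_smul, hsq]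
    -- the first cell is free or the piece stops there
    have hzfree : LF4Free (C.brd p) (sq C.o z) := by
      by_cases h1 : n = 1
      · subst h1
        rw [hz1]; exact hfree
      · left
        rw [hz1]
        exact hcl 1 (by norm_num) (by omega)
    rcases LF4_free_codes hz hzfree with hc | ⟨hc, hc0⟩ | ⟨hc, hc1, hc0⟩
    · have e1 : Nat.beq (cell p z) 0 = true := by rw [Nat.beq_eq]; exact hc
      rw [e1] at h0 ⊢
      simp only [cond_true] at h0 ⊢
      by_cases h1 : n = 1
      · subst h1
        exact Or.inl ⟨z, hz, List.mem_cons_self, hz1⟩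
      · obtain ⟨n', rfl⟩ : ∃ n', n = n' + 1 := ⟨n - 1, by omega⟩
        have h0' : 0 ∉ walk C.R p sp t s N z [] := fun h2 => h0 (List.mem_cons_of_mem _ h2)
        have h2 := ih z n' hz (by rw [hc]; norm_num) h0' (by omega)
          (fun l hl1 hl2 => by rw [← hstep]; exact hcl (l + 1) (by omega) (by omega))
          (by rw [← hstep]; exact hfree)
        rw [hstep]
        rcases h2 with ⟨z', hz', h3, h4⟩ | h3
        · exact Or.inl ⟨z', hz', List.mem_cons_of_mem _ h3, h4⟩
        · exact Or.inr h3
    · have e1 : Nat.beq (cell p z) 0 = false := by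
        rw [Bool.eq_false_iff, ne_eq, Nat.beq_eq]; exact hc0
      rw [e1, hc] at h0 ⊢
      simp only [cond_true, cond_false] at h0 ⊢
      by_cases h1 : n = 1
      · subst h1
        exact Or.inl ⟨z, hz, List.mem_cons_self, hz1⟩
      · exfalso
        have h2 := hcl 1 (by norm_num) (by omega)
        rw [← hz1] at h2
        have h3 : ∀ c : Nat, c < 16 → msk 0x3e c = true → c ≠ 15 ∧ dec c ≠ none := by
          intro c hc
          interval_cases c <;> decide
        obtain ⟨h4, h5⟩ := h3 _ (cell_lt p z) hc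
        rw [brd_sq C hz h4] at h2
        exact h5 h2
    · have e1 : Nat.beq (cell p z) 0 = false := by
        rw [Bool.eq_false_iff, ne_eq, Nat.beq_eq]; exact hc0
      rw [e1, hc, hc1] at h0 ⊢
      simp only [cond_true, cond_false] at h0 ⊢
      cases hb : (sp && (Nat.beq (cell p z) 7 && isRay C.R z t)) with
      | false =>
        rw [hb] at h0
        exact absurd (List.mem_cons_self) h0
      | true =>
        simp only [cond_true]
        rw [Bool.and_eq_true, Bool.and_eq_true, Nat.beq_eq, isRay_iff] at hb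
        obtain ⟨hsp, h7, ρ, hρ, hρe, hρt⟩ := hb
        by_cases h1 : n = 1
        · subst h1
          exact Or.inl ⟨z, hz, List.mem_cons_self, hz1⟩
        · obtain ⟨n', rfl⟩ : ∃ n', n = n' + 1 := ⟨n - 1, by omega⟩
          right
          refine ⟨hsp, ρ, hρ, by rw [hρe]; exact h7, n', by omega, ?_⟩
          rw [hstep]
          unfold Ctx.ray
          rw [hρe, hρt]

/-- chunk LF4: slider moves -/
theorem LF4_slide {C : Ctx} {p k j : Nat} (sp : Bool) (h : WF C p k) (hj : j < 400)
    (hcj : 9 ≤ cell p j ∧ cell p j ≤ 13) {b : Sq} (hfree : LF4Free (C.brd p) b) {T : List Nat}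
    (hT : ∀ t ∈ T, t ∈ orT ++ diT) {ds : List Sq} (hds : ∀ v ∈ ds, ∃ t ∈ T, vec t = v)
    (h0 : ∀ t ∈ T, 0 ∉ walk C.R p sp t j 20 j [])
    (hs : Slides (C.brd p) ds (sq C.o j) b) :
    (∃ t ∈ T, ∃ x ∈ walk C.R p sp t j 20 j [], Is C p x (sq C.o j) b) ∨
      (sp = true ∧ Beyond C p b) := by
  obtain ⟨d, hd, n, hn, hb, hcl⟩ := hs
  obtain ⟨t, ht, rfl⟩ := hds d hd
  subst hb
  rcases LF4_walk sp h (hT t ht) 20 j n hj (by omega) (h0 t ht) hn hcl hfree with
    ⟨z, hz, h1, h2⟩ | h1
  · left
    refine ⟨t, ht, enc j z, h1, ?_⟩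
    rw [← h2]
    exact LF4_is h hj hcj hz
  · exact Or.inr h1

/-- chunk LF4: all moves of a Black piece on the cell `j` are listed by `bMoves` -/
theorem bMoves_complete {C : Ctx} (hC : C.Ok) {p k j : Nat} (sp : Bool) (h : WF C p k)
    (hj : j < 400) (hcj : 9 ≤ cell p j ∧ cell p j ≤ 13)
    (h0 : 0 ∉ bMoves C.R p sp (cell p j) j []) (b : Sq)
    (hg : CanGo (C.brd p) false (sq C.o j) b) :
    (∃ x ∈ bMoves C.R p sp (cell p j) j [], Is C p x (sq C.o j) b) ∨ (sp = true ∧ Beyond C p b) := by
  have hfree : LF4Free (C.brd p) b := LF4_free_of_canGo hg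
  have hin : Inner j := inner_of_cell h hj (by omega)
  have hbj := brd_sq C (i := j) (p := p) hj (by omega)
  obtain ⟨m, hm, hm1, hm2⟩ := hg
  rw [hbj] at hm
  have h9 : cell p j = 9 ∨ cell p j = 10 ∨ cell p j = 11 ∨ cell p j = 12 ∨ cell p j = 13 := by omega
  -- the steps of `walk`
  have hwO : ∀ L x, x ∈ eO (fun t L => walk C.R p sp t j 20 j L) L ↔
      (∃ t ∈ orT, x ∈ walk C.R p sp t j 20 j []) ∨ x ∈ L := mem_eO (adds_walk C.R p sp j 20 j)
  have hwD : ∀ L x, x ∈ eD (fun t L => walk C.R p sp t j 20 j L) L ↔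
      (∃ t ∈ diT, x ∈ walk C.R p sp t j 20 j []) ∨ x ∈ L := mem_eD (adds_walk C.R p sp j 20 j)
  rcases h9 with hc | hc | hc | hc | hc
  · -- pawn
    left
    have hb : bMoves C.R p sp 9 j [] =
      cond (Nat.beq (cell p (stp 22 j)) 0) (enc j (stp 22 j) ::
          eQ (fun t L => cond (msk 0x3e (cell p (stp t j))) (enc j (stp t j) :: L)
            (cond (Nat.beq (cell p (stp t j)) 15) (0 :: L) L)) [])
        (cond (msk 0x8180 (cell p (stp 22 j))) (0 :: [])
          (eQ (fun t L => cond (msk 0x3e (cell p (stp t j))) (enc j (stp t j) :: L)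
            (cond (Nat.beq (cell p (stp t j)) 15) (0 :: L) L)) [])) := rfl
    have hA : Adds (fun t L => cond (msk 0x3e (cell p (stp t j))) (enc j (stp t j) :: L)
            (cond (Nat.beq (cell p (stp t j)) 15) (0 :: L) L)) := by
      intro t L x
      show x ∈ cond (msk 0x3e (cell p (stp t j))) (enc j (stp t j) :: L)
            (cond (Nat.beq (cell p (stp t j)) 15) (0 :: L) L) ↔
          x ∈ cond (msk 0x3e (cell p (stp t j))) (enc j (stp t j) :: [])
            (cond (Nat.beq (cell p (stp t j)) 15) (0 :: []) []) ∨ x ∈ L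
      cases msk 0x3e (cell p (stp t j)) <;> cases Nat.beq (cell p (stp t j)) 15 <;> simp
    have hQ := mem_eQ hA []
    rw [hc] at h0 hm ⊢
    rw [hb] at h0 ⊢
    obtain ⟨hz, hsq⟩ := stp_inner (t := 22) (by decide) hin
    have hsq := hsq C.o
    have h22 : vec 22 = (0, -1) := by decide
    have hm' : m = (false, Kind.pawn) := (Option.some.inj hm).symm
    subst hm'
    rcases hm2 with ⟨h1, h2⟩ | ⟨⟨t, ht1, ht2, ht3⟩, h2⟩
    · have h3 : b - sq C.o j = (0, -1) := by simpa [fwd] using h2
      have h4 : b = sq C.o (stp 22 j) := by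
        rw [hsq, h22, ← h3]; abel
      subst h4
      rcases LF4_free_codes hz hfree with hd | ⟨hd, hd0⟩ | ⟨hd, hd1, hd0⟩
      · have e1 : Nat.beq (cell p (stp 22 j)) 0 = true := by rw [Nat.beq_eq]; exact hd
        rw [e1]
        simp only [cond_true]
        exact ⟨_, List.mem_cons_self, LF4_is h hj (by rw [hc]; decide) hz⟩
      · exfalso
        have h3 : ∀ c : Nat, c < 16 → msk 0x3e c = true → c ≠ 15 ∧ dec c ≠ none := by
          intro c hc
          interval_cases c <;> decide
        obtain ⟨h4, h5⟩ := h3 _ (cell_lt p _) hd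
        rw [brd_sq C hz h4] at h1
        exact h5 h1
      · exfalso
        have e1 : Nat.beq (cell p (stp 22 j)) 0 = false := by
          rw [Bool.eq_false_iff, ne_eq, Nat.beq_eq]; exact hd0
        rw [e1, hd] at h0
        exact h0 (by simp)
    · have h0' : 0 ∉ eQ (fun t L => cond (msk 0x3e (cell p (stp t j))) (enc j (stp t j) :: L)
            (cond (Nat.beq (cell p (stp t j)) 15) (0 :: L) L)) [] := by
        intro h5
        apply h0
        cases Nat.beq (cell p (stp 22 j)) 0
        · simp only [cond_false]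
          cases msk 0x8180 (cell p (stp 22 j))
          · exact h5
          · simp
        · exact List.mem_cons_of_mem _ h5
      have hsub : ∀ x, x ∈ eQ (fun t L => cond (msk 0x3e (cell p (stp t j))) (enc j (stp t j) :: L)
            (cond (Nat.beq (cell p (stp t j)) 15) (0 :: L) L)) [] → 
          x ∈ cond (Nat.beq (cell p (stp 22 j)) 0) (enc j (stp 22 j) ::
          eQ (fun t L => cond (msk 0x3e (cell p (stp t j))) (enc j (stp t j) :: L)
            (cond (Nat.beq (cell p (stp t j)) 15) (0 :: L) L)) [])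
        (cond (msk 0x8180 (cell p (stp 22 j))) (0 :: [])
          (eQ (fun t L => cond (msk 0x3e (cell p (stp t j))) (enc j (stp t j) :: L)
            (cond (Nat.beq (cell p (stp t j)) 15) (0 :: L) L)) [])) := by
        intro x hx
        cases h6 : Nat.beq (cell p (stp 22 j)) 0
        · simp only [cond_false]
          cases h7 : msk 0x8180 (cell p (stp 22 j))
          · exact hx
          · exfalso
            rw [h6, h7] at h0
            exact h0 (by simp)
        · exact List.mem_cons_of_mem _ hx
      have h3 : b - sq C.o j = (1, -1) ∨ b - sq C.o j = (-1, -1) := by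
        simpa [ManAttacks, fwd] using h2
      have h4 : ∃ t ∈ [21, 23], t ∈ orT ++ diT ++ knT ∧ vec t = b - sq C.o j := by
        rcases h3 with h3 | h3
        · exact ⟨23, by simp, by decide, by rw [h3]; decide⟩
        · exact ⟨21, by simp, by decide, by rw [h3]; decide⟩
      obtain ⟨u, hu, hu2, hu3⟩ := h4
      obtain ⟨hz', hsq'⟩ := stp_inner hu2 hin
      have hsq' := hsq' C.o
      have h5 : b = sq C.o (stp u j) := by rw [hsq', hu3]; abel
      subst h5
      rcases LF4_free_codes hz' hfree with hd | ⟨hd, hd0⟩ | ⟨hd, hd1, hd0⟩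
      · exfalso
        rw [brd_sq C hz' (by omega), hd] at ht1
        exact absurd ht1 (by simp [dec])
      · refine ⟨enc j (stp u j), hsub _ ?_, LF4_is h hj (by rw [hc]; decide) hz'⟩
        rw [hQ]
        left
        refine ⟨u, hu, ?_⟩
        rw [hd]
        simp
      · exfalso
        by_cases h15 : cell p (stp u j) = 15
        · apply h0'
          rw [hQ]
          left
          refine ⟨u, hu, ?_⟩
          have e2 : Nat.beq (cell p (stp u j)) 15 = true := by rw [Nat.beq_eq]; exact h15
          rw [hd1, e2]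
          simp
        · have h3 : ∀ c : Nat, c < 16 → msk 0x8180 c = true → c ≠ 15 → dec c = none := by
            intro c hc
            interval_cases c <;> decide
          rw [brd_sq C hz' h15, h3 _ (cell_lt p _) hd h15] at ht1
          exact absurd ht1 (by simp)
  · -- knight
    left
    have hb : bMoves C.R p sp 10 j [] =
      e8 (fun t L => cond (msk 0x3f (cell p (stp t j))) (enc j (stp t j) :: L)
      (cond (msk 0x8180 (cell p (stp t j))) (0 :: L) L)) [] := rfl
    have hA : Adds (fun t L => cond (msk 0x3f (cell p (stp t j))) (enc j (stp t j) :: L)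
      (cond (msk 0x8180 (cell p (stp t j))) (0 :: L) L)) := by
      intro t L x
      show x ∈ cond (msk 0x3f (cell p (stp t j))) (enc j (stp t j) :: L)
            (cond (msk 0x8180 (cell p (stp t j))) (0 :: L) L) ↔
          x ∈ cond (msk 0x3f (cell p (stp t j))) (enc j (stp t j) :: [])
            (cond (msk 0x8180 (cell p (stp t j))) (0 :: []) []) ∨ x ∈ L
      cases msk 0x3f (cell p (stp t j)) <;> cases msk 0x8180 (cell p (stp t j)) <;> simp
    have hQ := mem_e8 hA []
    rw [hc] at h0 hm ⊢
    rw [hb] at h0 ⊢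
    have hm' : m = (false, Kind.knight) := (Option.some.inj hm).symm
    subst hm'
    have h2 : b - sq C.o j ∈ knightJumps := by
      rcases hm2 with ⟨h1, h2⟩ | ⟨-, h2⟩
      · simpa [ManAttacks] using h2
      · simpa [ManAttacks] using h2
    obtain ⟨u, hu, hu3⟩ := kn_vec h2
    have hu2 : u ∈ orT ++ diT ++ knT := List.mem_append_right _ hu
    obtain ⟨hz', hsq'⟩ := stp_inner hu2 hin
    have hsq' := hsq' C.o
    have h5 : b = sq C.o (stp u j) := by rw [hsq', hu3]; abel
    subst h5
    have hmain : msk 0x3f (cell p (stp u j)) = true →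
        ∃ x ∈ e8 (fun t L => cond (msk 0x3f (cell p (stp t j))) (enc j (stp t j) :: L)
      (cond (msk 0x8180 (cell p (stp t j))) (0 :: L) L)) [],
        Is C p x (sq C.o j) (sq C.o (stp u j)) := by
      intro h6
      refine ⟨enc j (stp u j), ?_, LF4_is h hj (by rw [hc]; decide) hz'⟩
      rw [hQ]
      left
      refine ⟨u, hu, ?_⟩
      rw [h6]
      simp
    rcases LF4_free_codes hz' hfree with hd | ⟨hd, hd0⟩ | ⟨hd, hd1, hd0⟩
    · exact hmain (LF4_mask (cell_lt p _) (Or.inl hd))
    · exact hmain (LF4_mask (cell_lt p _) (Or.inr hd))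
    · by_cases h6 : msk 0x3f (cell p (stp u j)) = true
      · exact hmain h6
      · exfalso
        apply h0
        rw [hQ]
        left
        refine ⟨u, hu, ?_⟩
        rw [Bool.not_eq_true] at h6
        rw [h6, hd]
        simp
  · -- bishop
    have hb : bMoves C.R p sp 11 j [] = eD (fun t L => walk C.R p sp t j 20 j L) [] := rfl
    rw [hc] at h0 hm ⊢
    rw [hb] at h0 ⊢
    have hm' : m = (false, Kind.bishop) := (Option.some.inj hm).symm
    subst hm'
    have h2 : Slides (C.brd p) diagDirs (sq C.o j) b := by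
      rcases hm2 with ⟨h1, h2⟩ | ⟨-, h2⟩
      · simpa [ManAttacks] using h2
      · simpa [ManAttacks] using h2
    rcases LF4_slide sp h hj (by omega) hfree (T := diT)
      (fun t ht => List.mem_append_right _ ht) (fun v hv => di_vec hv)
      (fun t ht h3 => h0 ((hwD [] 0).mpr (Or.inl ⟨t, ht, h3⟩))) h2 with
      ⟨t, ht, x, hx, hx2⟩ | h3
    · exact Or.inl ⟨x, (hwD [] x).mpr (Or.inl ⟨t, ht, hx⟩), hx2⟩
    · exact Or.inr h3
  · -- rook
    have hb : bMoves C.R p sp 12 j [] = eO (fun t L => walk C.R p sp t j 20 j L) [] := rfl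
    rw [hc] at h0 hm ⊢
    rw [hb] at h0 ⊢
    have hm' : m = (false, Kind.rook) := (Option.some.inj hm).symm
    subst hm'
    have h2 : Slides (C.brd p) orthDirs (sq C.o j) b := by
      rcases hm2 with ⟨h1, h2⟩ | ⟨-, h2⟩
      · simpa [ManAttacks] using h2
      · simpa [ManAttacks] using h2
    rcases LF4_slide sp h hj (by omega) hfree (T := orT)
      (fun t ht => List.mem_append_left _ ht) (fun v hv => or_vec hv)
      (fun t ht h3 => h0 ((hwO [] 0).mpr (Or.inl ⟨t, ht, h3⟩))) h2 with
      ⟨t, ht, x, hx, hx2⟩ | h3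
    · exact Or.inl ⟨x, (hwO [] x).mpr (Or.inl ⟨t, ht, hx⟩), hx2⟩
    · exact Or.inr h3
  · -- queen
    have hb : bMoves C.R p sp 13 j [] = eO (fun t L => walk C.R p sp t j 20 j L)
      (eD (fun t L => walk C.R p sp t j 20 j L) []) := rfl
    rw [hc] at h0 hm ⊢
    rw [hb] at h0 ⊢
    have hm' : m = (false, Kind.queen) := (Option.some.inj hm).symm
    subst hm'
    have h2 : Slides (C.brd p) (orthDirs ++ diagDirs) (sq C.o j) b := by
      rcases hm2 with ⟨h1, h2⟩ | ⟨-, h2⟩
      · simpa [ManAttacks] using h2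
      · simpa [ManAttacks] using h2
    rcases LF4_slide sp h hj (by omega) hfree (T := orT ++ diT)
      (fun t ht => ht) (fun v hv => by
        rcases List.mem_append.mp hv with h3 | h3
        · obtain ⟨t, ht, h4⟩ := or_vec h3
          exact ⟨t, List.mem_append_left _ ht, h4⟩
        · obtain ⟨t, ht, h4⟩ := di_vec h3
          exact ⟨t, List.mem_append_right _ ht, h4⟩)
      (fun t ht h3 => by
        apply h0
        rcases List.mem_append.mp ht with h4 | h4
        · exact (hwO _ 0).mpr (Or.inl ⟨t, h4, h3⟩)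
        · exact (hwO _ 0).mpr (Or.inr ((hwD _ 0).mpr (Or.inl ⟨t, h4, h3⟩)))) h2 with
      ⟨t, ht, x, hx, hx2⟩ | h3
    · left
      refine ⟨x, ?_, hx2⟩
      rcases List.mem_append.mp ht with h4 | h4
      · exact (hwO _ x).mpr (Or.inl ⟨t, h4, hx⟩)
      · exact (hwO _ x).mpr (Or.inr ((hwD _ x).mpr (Or.inl ⟨t, h4, hx⟩)))
    · exact Or.inr h3

end Pool.Agent.Lib.H32C.Loc
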