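import Pool.Agent.Lib.H32C.LocE

/-!
# Chunk LF5: the lines from the king
-/

set_option autoImplicit false

namespace Pool.Agent.Lib.H32C.Loc

theorem LF5_zero (R : List Ray) (p : Nat) (sp ro : Bool) (t i : Nat) (L : List Nat) :
    lChk R p sp ro t 0 i L = 0 :: L := rfl

theorem LF5_succ (R : List Ray) (p : Nat) (sp ro : Bool) (t n i : Nat) (L : List Nat) :
    lChk R p sp ro t (n + 1) i L = cond (Nat.beq (cell p (stp t i)) 0)
      (sMov R p ro (stp t i) (lChk R p sp ro t n (stp t i) L))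
      (cond (msk 0x3e (cell p (stp t i))) (sMov R p ro (stp t i) L)
        (cond (msk 0x3e00 (cell p (stp t i)))
          (cond (msk (cond ro 0xb100 0xa900) (fcode R p t (stp t i)))
            (bMoves R p sp (cell p (stp t i)) (stp t i) L) L)
          (cond (sp && (Nat.beq (cell p (stp t i)) 7 && isRay R (stp t i) t))
            (sMovE R p ro (stp t i) L) (0 :: L)))) := rfl

theorem LF5_beq {a b : Nat} : Nat.beq a b = true ↔ a = b :=
  ⟨Nat.eq_of_beq_eq_true, fun h => h ▸ Nat.beq_refl a⟩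

theorem LF5_msk1 : ∀ c < 16, (msk 0x3e c = true ↔ 1 ≤ c ∧ c ≤ 5) := by decide

theorem LF5_msk2 : ∀ c < 16, (msk 0x3e00 c = true ↔ 9 ≤ c ∧ c ≤ 13) := by decide

theorem LF5_msk3 : ∀ c < 16, (msk 0xb100 c = true ↔ c = 8 ∨ c = 12 ∨ c = 13 ∨ c = 15) := by decide

theorem LF5_msk4 : ∀ c < 16, (msk 0xa900 c = true ↔ c = 8 ∨ c = 11 ∨ c = 13 ∨ c = 15) := by decide

/-- the cases of the content of a cell -/
theorem LF5_cases (R : List Ray) (p : Nat) (sp ro : Bool) (t n i : Nat) (L : List Nat) :
    (cell p (stp t i) = 0 ∧ lChk R p sp ro t (n + 1) i L =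
      sMov R p ro (stp t i) (lChk R p sp ro t n (stp t i) L)) ∨
    ((1 ≤ cell p (stp t i) ∧ cell p (stp t i) ≤ 5) ∧ lChk R p sp ro t (n + 1) i L =
      sMov R p ro (stp t i) L) ∨
    ((9 ≤ cell p (stp t i) ∧ cell p (stp t i) ≤ 13) ∧ lChk R p sp ro t (n + 1) i L =
      cond (msk (cond ro 0xb100 0xa900) (fcode R p t (stp t i)))
            (bMoves R p sp (cell p (stp t i)) (stp t i) L) L) ∨
    (sp = true ∧ cell p (stp t i) = 7 ∧ (∃ ρ ∈ R, ρ.e = stp t i ∧ ρ.t = t) ∧
      lChk R p sp ro t (n + 1) i L = sMovE R p ro (stp t i) L) ∨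
    (lChk R p sp ro t (n + 1) i L = 0 :: L) := by
  rw [LF5_succ]
  have hlt := cell_lt p (stp t i)
  by_cases h0 : cell p (stp t i) = 0
  · left
    rw [LF5_beq.2 h0]
    exact ⟨h0, rfl⟩
  · right
    have e0 : Nat.beq (cell p (stp t i)) 0 = false := by
      rw [Bool.eq_false_iff, ne_eq, LF5_beq]
      exact h0
    rw [e0]
    by_cases h1 : 1 ≤ cell p (stp t i) ∧ cell p (stp t i) ≤ 5
    · left
      rw [(LF5_msk1 _ hlt).2 h1]
      exact ⟨h1, rfl⟩
    · right
      have e1 : msk 0x3e (cell p (stp t i)) = false := by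
        rw [Bool.eq_false_iff, ne_eq, LF5_msk1 _ hlt]
        exact h1
      rw [e1]
      by_cases h2 : 9 ≤ cell p (stp t i) ∧ cell p (stp t i) ≤ 13
      · left
        rw [(LF5_msk2 _ hlt).2 h2]
        exact ⟨h2, rfl⟩
      · right
        have e2 : msk 0x3e00 (cell p (stp t i)) = false := by
          rw [Bool.eq_false_iff, ne_eq, LF5_msk2 _ hlt]
          exact h2
        rw [e2]
        by_cases h3 : (sp && (Nat.beq (cell p (stp t i)) 7 && isRay R (stp t i) t)) = true
        · left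
          rw [h3]
          rw [Bool.and_eq_true, Bool.and_eq_true, LF5_beq, isRay_iff] at h3
          exact ⟨h3.1, h3.2.1, h3.2.2, rfl⟩
        · right
          rw [Bool.not_eq_true] at h3
          rw [h3]
          rfl

theorem LF5_dec_white : ∀ c, 1 ≤ c → c ≤ 5 → ∃ m : Man, dec c = some m ∧ m.1 = true := by
  intro c h1 h2
  interval_cases c <;> exact ⟨_, rfl, rfl⟩

theorem LF5_dec_black : ∀ c, 9 ≤ c → c ≤ 13 → ∃ m : Man, dec c = some m ∧ m.1 = false := by
  intro c h1 h2
  interval_cases c <;> exact ⟨_, rfl, rfl⟩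

theorem LF5_dec_inv : ∀ c < 16, ∀ m : Man, dec c = some m → m.1 = false →
    (m.2 = Kind.queen → c = 13) ∧ (m.2 = Kind.rook → c = 12) ∧ (m.2 = Kind.bishop → c = 11) := by
  intro c hc m h1 h2
  interval_cases c <;> simp only [dec, Option.some.injEq, reduceCtorEq] at h1 <;> subst h1 <;>
    simp at h2 ⊢

theorem LF5_add (o : Sq) {k i c t m : Nat} (h1 : sq o i = sq o k + m • vec t)
    (h2 : sq o c = sq o i + vec t) : sq o c = sq o k + (m + 1) • vec t := by
  rw [h2, h1, add_smul, one_smul, add_assoc]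

/-- general form of `lChk_landing` -/
theorem LF5_landing {C : Ctx} (hC : C.Ok) {p k t n : Nat} (sp ro : Bool) (h : WF C p k)
    (ht : t ∈ orT ++ diT)
    (hcl : ∀ m : ℕ, 0 < m → m < n → C.brd p (sq C.o k + m • vec t) = none)
    (hb : C.brd p (sq C.o k + n • vec t) = none ∨
      ∃ m : Man, C.brd p (sq C.o k + n • vec t) = some m ∧ m.1 = true ∧ m.2 ≠ Kind.king)
    (N : Nat) : ∀ i m : ℕ, Inner i → sq C.o i = sq C.o k + m • vec t → m < n →
      first p t 20 k = first p t N i → 0 ∉ lChk C.R p sp ro t N i [] →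
    (∃ j < 400, cell p j ≠ 15 ∧ sq C.o j = sq C.o k + n • vec t ∧
      ∀ x ∈ sMov C.R p ro j [], x ∈ lChk C.R p sp ro t N i []) ∨
    (sp = true ∧ Beyond C p (sq C.o k + n • vec t)) ∨
    (sp = true ∧ ∃ ρ ∈ C.R, cell p ρ.e = 7 ∧ ρ.t = t ∧ first p t 20 k = ρ.e ∧
      sq C.o ρ.e = sq C.o k + n • vec t ∧
      ∀ x ∈ sMovE C.R p ro ρ.e [], x ∈ lChk C.R p sp ro t N i []) := by
  have ht' : t ∈ orT ++ diT ++ knT := List.mem_append_left _ ht
  induction N with
  | zero =>
    intro i m _ _ _ _ h0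
    rw [LF5_zero] at h0
    exact absurd List.mem_cons_self h0
  | succ N ih =>
    intro i m hi him hmn hfi h0
    obtain ⟨hc400, hstep⟩ := stp_inner ht' hi
    have hcs := LF5_add C.o him (hstep C.o)
    rcases LF5_cases C.R p sp ro t N i [] with ⟨h1, h2⟩ | ⟨h1, h2⟩ | ⟨h1, h2⟩ | ⟨h1, h3, h4, h2⟩ | h2
    · rw [h2] at h0 ⊢
      have hA := adds_sMov C.R p ro (stp t i) (lChk C.R p sp ro t N (stp t i) [])
      simp only at hA
      have h15 : cell p (stp t i) ≠ 15 := by omega
      rcases Nat.lt_or_ge (m + 1) n with h5 | h5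
      · have h6 : 0 ∉ lChk C.R p sp ro t N (stp t i) [] := fun hh => h0 ((hA 0).2 (Or.inr hh))
        have hfi' : first p t 20 k = first p t N (stp t i) := by
          rw [hfi, LC_first_succ, if_pos h1]
        rcases ih (stp t i) (m + 1) (inner_of_cell h hc400 h15) hcs h5 hfi' h6 with
          ⟨j, hj1, hj2, hj3, hj4⟩ | h7 | ⟨hsp, ρ, hρ, g1, g2, g3, g4, g5⟩
        · exact Or.inl ⟨j, hj1, hj2, hj3, fun x hx => (hA x).2 (Or.inr (hj4 x hx))⟩
        · exact Or.inr (Or.inl h7)
        · exact Or.inr (Or.inr ⟨hsp, ρ, hρ, g1, g2, g3, g4,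
            fun x hx => (hA x).2 (Or.inr (g5 x hx))⟩)
      · have h6 : m + 1 = n := by omega
        rw [h6] at hcs
        exact Or.inl ⟨stp t i, hc400, h15, hcs, fun x hx => (hA x).2 (Or.inl hx)⟩
    · rw [h2]
      have h15 : cell p (stp t i) ≠ 15 := by omega
      have hbrd := brd_sq C hc400 h15
      obtain ⟨m', hm1, _⟩ := LF5_dec_white _ h1.1 h1.2
      have h6 : m + 1 = n := by
        by_contra h6
        have h7 := hcl (m + 1) (by omega) (by omega)
        rw [← hcs, hbrd, hm1] at h7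
        cases h7
      rw [h6] at hcs
      exact Or.inl ⟨stp t i, hc400, h15, hcs, fun x hx => hx⟩
    · exfalso
      have h15 : cell p (stp t i) ≠ 15 := by omega
      have hbrd := brd_sq C hc400 h15
      obtain ⟨m', hm1, hm2⟩ := LF5_dec_black _ h1.1 h1.2
      rcases Nat.lt_or_ge (m + 1) n with h5 | h5
      · have h7 := hcl (m + 1) (by omega) h5
        rw [← hcs, hbrd, hm1] at h7
        cases h7
      · have h6 : m + 1 = n := by omega
        rw [h6] at hcs
        rw [← hcs, hbrd, hm1] at hb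
        rcases hb with hb | ⟨m'', hb1, hb2, _⟩
        · cases hb
        · cases hb1
          rw [hm2] at hb2
          cases hb2
    · rw [h2]
      obtain ⟨ρ, hρ, hρe, hρt⟩ := h4
      rcases Nat.lt_or_ge (m + 1) n with h5 | h5
      · right
        left
        refine ⟨h1, ρ, hρ, by rw [hρe]; exact h3, n - (m + 1), by omega, ?_⟩
        unfold Ctx.ray
        rw [hρe, hρt, hcs, add_assoc, ← add_smul]
        congr 2
        omega
      · right
        right
        have h6 : m + 1 = n := by omega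
        rw [h6] at hcs
        refine ⟨h1, ρ, hρ, by rw [hρe]; exact h3, hρt, ?_, by rw [hρe]; exact hcs,
          fun x hx => by rw [hρe] at hx; exact hx⟩
        rw [hfi, LC_first_succ, if_neg (by omega), hρe]
    · rw [h2] at h0
      exact absurd List.mem_cons_self h0

theorem LF5_king {C : Ctx} {p k : Nat} (h : WF C p k) : Inner k :=
  inner_of_cell h h.lt (by rw [h.king]; decide)

/-- chunk LF5: a line of sight from the king to a square `b`, on which a piece arrives, is followed by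
`lChk`: `b` is the `n`-th square from the king in the direction `t`, the squares before it are empty,
and the square `b` is empty or holds a White piece other than the king -/
theorem lChk_landing {C : Ctx} (hC : C.Ok) {p k t n : Nat} (sp ro : Bool) (h : WF C p k)
    (ht : t ∈ orT ++ diT) (h0 : 0 ∉ lChk C.R p sp ro t 20 k []) (hn : 0 < n)
    (hcl : ∀ m : ℕ, 0 < m → m < n → C.brd p (sq C.o k + m • vec t) = none)
    (hb : C.brd p (sq C.o k + n • vec t) = none ∨
      ∃ m : Man, C.brd p (sq C.o k + n • vec t) = some m ∧ m.1 = true ∧ m.2 ≠ Kind.king) :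
    (∃ j < 400, cell p j ≠ 15 ∧ sq C.o j = sq C.o k + n • vec t ∧
      ∀ x ∈ sMov C.R p ro j [], x ∈ lChk C.R p sp ro t 20 k []) ∨
    (sp = true ∧ Beyond C p (sq C.o k + n • vec t)) ∨
    (sp = true ∧ ∃ ρ ∈ C.R, cell p ρ.e = 7 ∧ ρ.t = t ∧ first p t 20 k = ρ.e ∧
      sq C.o ρ.e = sq C.o k + n • vec t ∧
      ∀ x ∈ sMovE C.R p ro ρ.e [], x ∈ lChk C.R p sp ro t 20 k []) :=
  LF5_landing hC sp ro h ht hcl hb 20 k 0 (LF5_king h) (by simp) hn rfl h0

/-- general form of `lChk_discovered` -/
theorem LF5_discovered {C : Ctx} (hC : C.Ok) {p k t n₁ n₂ : Nat} (sp ro : Bool) (h : WF C p k)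
    (ht : t ∈ orT ++ diT) (hro : ro = true ↔ t ∈ orT) (hn₂ : n₁ < n₂)
    (hcl₁ : ∀ m : ℕ, 0 < m → m < n₁ → C.brd p (sq C.o k + m • vec t) = none)
    (hcl₂ : ∀ m : ℕ, n₁ < m → m < n₂ → C.brd p (sq C.o k + m • vec t) = none)
    {m₁ m₂ : Man} (hm₁ : C.brd p (sq C.o k + n₁ • vec t) = some m₁) (hb₁ : m₁.1 = false)
    (hm₂ : C.brd p (sq C.o k + n₂ • vec t) = some m₂) (hb₂ : m₂.1 = false)
    (hk₂ : m₂.2 = Kind.queen ∨ (ro = true ∧ m₂.2 = Kind.rook) ∨
      (ro = false ∧ m₂.2 = Kind.bishop))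
    (N : Nat) : ∀ i m : ℕ, Inner i → sq C.o i = sq C.o k + m • vec t → m < n₁ →
      first p t 20 k = first p t N i → 0 ∉ lChk C.R p sp ro t N i [] →
    (∃ j < 400, 9 ≤ cell p j ∧ cell p j ≤ 13 ∧ sq C.o j = sq C.o k + n₁ • vec t ∧
      (∀ x ∈ bMoves C.R p sp (cell p j) j [], x ∈ lChk C.R p sp ro t N i []) ∧
      0 ∉ bMoves C.R p sp (cell p j) j []) ∨
    (sp = true ∧ ∃ ρ ∈ C.R, cell p ρ.e = 7 ∧ ρ.t = t ∧ first p t 20 k = ρ.e ∧
      ∃ n : ℕ, 0 < n ∧ sq C.o k + n₁ • vec t = C.ray ρ n) := by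
  have ht' : t ∈ orT ++ diT ++ knT := List.mem_append_left _ ht
  induction N with
  | zero =>
    intro i m _ _ _ _ h0
    rw [LF5_zero] at h0
    exact absurd List.mem_cons_self h0
  | succ N ih =>
    intro i m hi him hmn hfi h0
    obtain ⟨hc400, hstep⟩ := stp_inner ht' hi
    have hcs := LF5_add C.o him (hstep C.o)
    rcases LF5_cases C.R p sp ro t N i [] with ⟨h1, h2⟩ | ⟨h1, h2⟩ | ⟨h1, h2⟩ | ⟨h1, h3, h4, h2⟩ | h2
    · rw [h2] at h0 ⊢
      have hA := adds_sMov C.R p ro (stp t i) (lChk C.R p sp ro t N (stp t i) [])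
      simp only at hA
      have h15 : cell p (stp t i) ≠ 15 := by omega
      have hbrd := brd_sq C hc400 h15
      have h5 : m + 1 < n₁ := by
        by_contra h5
        have h6 : m + 1 = n₁ := by omega
        rw [← h6, ← hcs, hbrd, h1] at hm₁
        cases hm₁
      have h6 : 0 ∉ lChk C.R p sp ro t N (stp t i) [] := fun hh => h0 ((hA 0).2 (Or.inr hh))
      have hfi' : first p t 20 k = first p t N (stp t i) := by
        rw [hfi, LC_first_succ, if_pos h1]
      rcases ih (stp t i) (m + 1) (inner_of_cell h hc400 h15) hcs h5 hfi' h6 with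
        ⟨j, g1, g2, g3, g4, g5, g6⟩ | g
      · exact Or.inl ⟨j, g1, g2, g3, g4, fun x hx => (hA x).2 (Or.inr (g5 x hx)), g6⟩
      · exact Or.inr g
    · exfalso
      have h15 : cell p (stp t i) ≠ 15 := by omega
      have hbrd := brd_sq C hc400 h15
      obtain ⟨m', hm1, hm2⟩ := LF5_dec_white _ h1.1 h1.2
      rcases Nat.lt_or_ge (m + 1) n₁ with h5 | h5
      · have h7 := hcl₁ (m + 1) (by omega) h5
        rw [← hcs, hbrd, hm1] at h7
        cases h7
      · have h6 : m + 1 = n₁ := by omega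
        rw [← h6, ← hcs, hbrd, hm1] at hm₁
        cases hm₁
        rw [hm2] at hb₁
        cases hb₁
    · have h15 : cell p (stp t i) ≠ 15 := by omega
      have hbrd := brd_sq C hc400 h15
      obtain ⟨m', hm1, hm2⟩ := LF5_dec_black _ h1.1 h1.2
      have h6 : m + 1 = n₁ := by
        by_contra h6
        have h7 := hcl₁ (m + 1) (by omega) (by omega)
        rw [← hcs, hbrd, hm1] at h7
        cases h7
      have hcs' : sq C.o (stp t i) = sq C.o k + n₁ • vec t := by rw [← h6]; exact hcs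
      -- the rest of the line
      have hline : ∀ l : ℕ, sq C.o (stp t i) + l • vec t = sq C.o k + (n₁ + l) • vec t := by
        intro l
        rw [hcs', add_assoc, ← add_smul]
      have hne : C.brd p (sq C.o (stp t i) + (n₂ - n₁) • vec t) ≠ none := by
        rw [hline, Nat.add_sub_cancel' hn₂.le, hm₂]
        simp
      have hcl : ∀ l : ℕ, 0 < l → l < n₂ - n₁ →
          C.brd p (sq C.o (stp t i) + l • vec t) = none := by
        intro l hl1 hl2
        rw [hline]
        exact hcl₂ _ (by omega) (by omega)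
      have hmask : msk (cond ro 0xb100 0xa900) (fcode C.R p t (stp t i)) = true := by
        have key : fcode C.R p t (stp t i) = 8 ∨ fcode C.R p t (stp t i) = 15 ∨
            fcode C.R p t (stp t i) = 13 ∨ (ro = true ∧ fcode C.R p t (stp t i) = 12) ∨
            (ro = false ∧ fcode C.R p t (stp t i) = 11) := by
          by_cases hf15 : cell p (first p t 20 (stp t i)) = 15
          · rcases fcode_cases C.R p t (stp t i) with ⟨g1, _⟩ | ⟨g1, _⟩ | ⟨g1, g2, _⟩
            · rw [hf15] at g1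
              exact Or.inr (Or.inl g1)
            · exact Or.inr (Or.inl g1)
            · omega
          · obtain ⟨n', hS⟩ := first_spec h hc400 h15 ht hf15
            rcases fcode_cases C.R p t (stp t i) with ⟨g1, g2⟩ | ⟨g1, _⟩ | ⟨g1, g2, ρ, hρ, hρe, hρt⟩
            · have g3 := first_unique hC h hc400 hS g2 hf15 (by omega : 0 < n₂ - n₁) hne hcl
              have g4 := hS.eq
              rw [← g3, hline, Nat.add_sub_cancel' hn₂.le] at g4
              have g5 := brd_sq C hS.lt hf15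
              rw [g4, hm₂] at g5
              have g6 := LF5_dec_inv _ (cell_lt _ _) m₂ g5.symm hb₂
              rw [g1]
              rcases hk₂ with h7 | ⟨h7, h8⟩ | ⟨h7, h8⟩
              · exact Or.inr (Or.inr (Or.inl (g6.1 h7)))
              · exact Or.inr (Or.inr (Or.inr (Or.inl ⟨h7, g6.2.1 h8⟩)))
              · exact Or.inr (Or.inr (Or.inr (Or.inr ⟨h7, g6.2.2 h8⟩)))
            · exact Or.inr (Or.inl g1)
            · rcases g2 with g2 | g2
              · exfalso
                subst hρt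
                rw [← hρe] at hS g2
                have g3 := (first_mark7 hC h hρ hS g2 (by omega : 0 < n₂ - n₁) hcl (M := m₂)
                  (by rw [hline, Nat.add_sub_cancel' hn₂.le, hm₂])).2.2.2
                obtain ⟨-, q1, q2, q3⟩ := LD_quiet g3
                rcases hk₂ with h7 | ⟨h7, h8⟩ | ⟨h7, h8⟩
                · exact q1 h7
                · exact q2 (hro.1 h7) h8
                · refine q3 ?_ h8
                  rcases List.mem_append.1 ht with h9 | h9
                  · rw [hro.2 h9] at h7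
                    cases h7
                  · exact h9
              · left
                rw [g1, g2]
        have hflt : fcode C.R p t (stp t i) < 16 := by
          rcases key with g | g | g | ⟨_, g⟩ | ⟨_, g⟩ <;> omega
        cases ro with
        | true =>
          show msk 0xb100 _ = true
          rw [LF5_msk3 _ hflt]
          rcases key with g | g | g | ⟨_, g⟩ | ⟨g', g⟩
          · exact Or.inl g
          · exact Or.inr (Or.inr (Or.inr g))
          · exact Or.inr (Or.inr (Or.inl g))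
          · exact Or.inr (Or.inl g)
          · cases g'
        | false =>
          show msk 0xa900 _ = true
          rw [LF5_msk4 _ hflt]
          rcases key with g | g | g | ⟨g', g⟩ | ⟨_, g⟩
          · exact Or.inl g
          · exact Or.inr (Or.inr (Or.inr g))
          · exact Or.inr (Or.inr (Or.inl g))
          · cases g'
          · exact Or.inr (Or.inl g)
      rw [hmask] at h2
      rw [h2] at h0 ⊢
      exact Or.inl ⟨stp t i, hc400, h1.1, h1.2, hcs', fun x hx => hx, h0⟩
    · obtain ⟨ρ, hρ, hρe, hρt⟩ := h4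
      rcases Nat.lt_or_ge (m + 1) n₁ with h5 | h5
      · have h6 : sq C.o k + n₁ • vec t = C.ray ρ (n₁ - (m + 1)) := by
          unfold Ctx.ray
          rw [hρe, hρt, hcs, add_assoc, ← add_smul]
          congr 2
          omega
        right
        refine ⟨h1, ρ, hρ, by rw [hρe]; exact h3, hρt, ?_, n₁ - (m + 1), by omega, h6⟩
        rw [hfi, LC_first_succ, if_neg (by omega), hρe]
      · exfalso
        have h6 : m + 1 = n₁ := by omega
        rw [← h6, ← hcs, brd_sq C hc400 (by omega), h3] at hm₁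
        cases hm₁
    · rw [h2] at h0
      exact absurd List.mem_cons_self h0

/-- chunk LF5: a discovered check: the `n₁`-th square from the king in the direction `t` holds a Black
piece, the squares before it are empty, the next nonempty square is the `n₂`-th and it holds a Black
slider attacking along the line; then all moves of the first piece are listed by `lChk`. -/
theorem lChk_discovered {C : Ctx} (hC : C.Ok) {p k t n₁ n₂ : Nat} (sp ro : Bool) (h : WF C p k)
    (ht : t ∈ orT ++ diT) (hro : ro = true ↔ t ∈ orT) (h0 : 0 ∉ lChk C.R p sp ro t 20 k [])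
    (hn₁ : 0 < n₁) (hn₂ : n₁ < n₂)
    (hcl₁ : ∀ m : ℕ, 0 < m → m < n₁ → C.brd p (sq C.o k + m • vec t) = none)
    (hcl₂ : ∀ m : ℕ, n₁ < m → m < n₂ → C.brd p (sq C.o k + m • vec t) = none)
    {m₁ m₂ : Man} (hm₁ : C.brd p (sq C.o k + n₁ • vec t) = some m₁) (hb₁ : m₁.1 = false)
    (hm₂ : C.brd p (sq C.o k + n₂ • vec t) = some m₂) (hb₂ : m₂.1 = false)
    (hk₂ : m₂.2 = Kind.queen ∨ (ro = true ∧ m₂.2 = Kind.rook) ∨
      (ro = false ∧ m₂.2 = Kind.bishop)) :
    (∃ j < 400, 9 ≤ cell p j ∧ cell p j ≤ 13 ∧ sq C.o j = sq C.o k + n₁ • vec t ∧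
      (∀ x ∈ bMoves C.R p sp (cell p j) j [], x ∈ lChk C.R p sp ro t 20 k []) ∧
      0 ∉ bMoves C.R p sp (cell p j) j []) ∨
    (sp = true ∧ ∃ ρ ∈ C.R, cell p ρ.e = 7 ∧ ρ.t = t ∧ first p t 20 k = ρ.e ∧
      ∃ n : ℕ, 0 < n ∧ sq C.o k + n₁ • vec t = C.ray ρ n) :=
  LF5_discovered hC sp ro h ht hro hn₂ hcl₁ hcl₂ hm₁ hb₁ hm₂ hb₂ hk₂ 20 k 0 (LF5_king h)
    (by simp) hn₁ rfl h0

end Pool.Agent.Lib.H32C.Loc
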