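import Pool.Agent.Lib.H32C.LocDef

/-!
# Chunk LF6: a chess lemma on checks
-/

set_option autoImplicit false

namespace Pool.Agent.Lib.H32C.Loc

/-- a purely chess-theoretic lemma, chunk LF6: if a Black move gives check, then either the moved
piece gives it, or it is a discovered check by a slider behind the square left -/
theorem check_cases (B : Board) {κ a b : Sq} (hκ : KingAt B κ) (hl : Legal B false a b)
    (hno : ¬ InCheck B true) (hc : InCheck (B.move a b) true) :
    (∃ m : Man, B a = some m ∧ m.1 = false ∧ ManAttacks (B.move a b) m b κ) ∨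
    (∃ s : Sq, ∃ m : Man, s ≠ a ∧ s ≠ b ∧ B s = some m ∧ m.1 = false ∧
      ((m.2 = Kind.queen ∨ m.2 = Kind.rook ∨ m.2 = Kind.bishop) ∧
      ManAttacks (B.move a b) m s κ ∧ ¬ ManAttacks B m s κ)) := by
  obtain ⟨s0, a0, m, hs0, ha0, hmc, hatt⟩ := hc
  obtain ⟨⟨m', hm', hm'c, -⟩, -⟩ := hl
  have hmc' : m.1 = false := by simpa using hmc
  have hs : s0 = κ := by
    unfold Board.move at hs0
    split_ifs at hs0 with h1 h2
    · rw [hm'] at hs0
      cases hs0
      exact absurd hm'c (by simp)
    · exact hκ.2 s0 hs0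
  subst hs
  unfold Board.move at ha0
  split_ifs at ha0 with h1 h2
  · left
    subst h2
    exact ⟨m, ha0, hmc', hatt⟩
  · right
    have hn : ¬ ManAttacks B m a0 s0 := fun h => hno ⟨s0, a0, m, hκ.1, ha0, hmc, h⟩
    refine ⟨a0, m, h1, h2, ha0, hmc', ?_, hatt, hn⟩
    obtain ⟨mc, mk⟩ := m
    cases mk
    · exact absurd hatt hn
    · exact Or.inl rfl
    · exact Or.inr (Or.inl rfl)
    · exact Or.inr (Or.inr rfl)
    · exact absurd hatt hn
    · exact absurd hatt hn

end Pool.Agent.Lib.H32C.Loc
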