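import Pool.Agent.Lib.H32C.LocD
import Pool.Agent.Lib.H32C.LocF1
import Pool.Agent.Lib.H32C.LocF3
import Pool.Agent.Lib.H32C.LocF4
import Pool.Agent.Lib.H32C.LocF5
import Pool.Agent.Lib.H32C.LocF6

/-!
# Chunk LF7: completeness of the list of checks
-/

set_option autoImplicit false

namespace Pool.Agent.Lib.H32C.Loc

/-- the direction `t` is orthogonal if `ro` and diagonal if not -/
def LF7_dir (ro : Bool) (t : Nat) : Prop := (ro = true ∧ t ∈ orT) ∨ (ro = false ∧ t ∈ diT)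

/-- the piece `m` slides in orthogonal (if `ro`) or diagonal (if not) directions -/
def LF7_can (ro : Bool) (m : Man) : Prop :=
  m.2 = Kind.queen ∨ (ro = true ∧ m.2 = Kind.rook) ∨ (ro = false ∧ m.2 = Kind.bishop)

theorem LF7_disj : ∀ t ∈ diT, t ∉ orT := by decide

theorem LF7_ro {ro : Bool} {t : Nat} (h : LF7_dir ro t) : (ro = true ↔ t ∈ orT) := by
  rcases h with ⟨h1, h2⟩ | ⟨h1, h2⟩
  · exact ⟨fun _ => h2, fun _ => h1⟩
  · rw [h1]
    constructor
    · intro h3; exact absurd h3 (by decide)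
    · intro h3; exact absurd h3 (LF7_disj t h2)

theorem LF7_mem {ro : Bool} {t : Nat} (h : LF7_dir ro t) : t ∈ orT ++ diT := by
  rcases h with ⟨_, h2⟩ | ⟨_, h2⟩
  · exact List.mem_append_left _ h2
  · exact List.mem_append_right _ h2

theorem LF7_negO : ∀ d ∈ orthDirs, -d ∈ orthDirs := by decide

theorem LF7_negD : ∀ d ∈ diagDirs, -d ∈ diagDirs := by decide

theorem LF7_rev {s κ v : Sq} {n : ℕ} (h : s = κ + n • v) {j : ℕ} (hj : j ≤ n) :
    s + j • (-v) = κ + (n - j) • v := by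
  have h1 : (n - j) • v = n • v - j • v := by
    rw [eq_sub_iff_add_eq, ← add_smul, Nat.sub_add_cancel hj]
  rw [h, h1, smul_neg]
  abel

theorem LF7_fwd {B : Board} {ds : List Sq} {s κ : Sq} (h : Slides B ds s κ) :
    ∃ d ∈ ds, ∃ n : ℕ, 0 < n ∧ s = κ + n • (-d) ∧
      ∀ j : ℕ, 0 < j → j < n → B (κ + j • (-d)) = none := by
  obtain ⟨d, hd, n, hn, hκ, hcl⟩ := h
  refine ⟨d, hd, n, hn, ?_, ?_⟩
  · have h1 := LF7_rev hκ (le_refl n)
    rw [Nat.sub_self, zero_smul, add_zero] at h1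
    exact h1.symm
  · intro j hj hjn
    rw [LF7_rev hκ hjn.le]
    exact hcl _ (by omega) (by omega)

theorem LF7_bwd {B : Board} {ds : List Sq} {s κ v : Sq} {n : ℕ} (hv : -v ∈ ds) (hn : 0 < n)
    (hs : s = κ + n • v) (hcl : ∀ j : ℕ, 0 < j → j < n → B (κ + j • v) = none) :
    Slides B ds s κ := by
  refine ⟨-v, hv, n, hn, ?_, ?_⟩
  · have h1 := LF7_rev hs (le_refl n)
    rw [Nat.sub_self, zero_smul, add_zero] at h1
    exact h1.symm
  · intro j hj hjn
    rw [LF7_rev hs hjn.le]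
    exact hcl _ (by omega) (by omega)

theorem LF7_att {B : Board} {m : Man} {s κ : Sq}
    (hm : m.2 = Kind.queen ∨ m.2 = Kind.rook ∨ m.2 = Kind.bishop) (ha : ManAttacks B m s κ) :
    ∃ (ro : Bool) (t n : ℕ), LF7_dir ro t ∧ LF7_can ro m ∧ 0 < n ∧ s = κ + n • vec t ∧
      ∀ j : ℕ, 0 < j → j < n → B (κ + j • vec t) = none := by
  have hO : ∀ d ∈ orthDirs, ∀ n : ℕ, (m.2 = Kind.queen ∨ m.2 = Kind.rook) → 0 < n →
      s = κ + n • (-d) → (∀ j : ℕ, 0 < j → j < n → B (κ + j • (-d)) = none) →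
      ∃ (ro : Bool) (t n : ℕ), LF7_dir ro t ∧ LF7_can ro m ∧ 0 < n ∧ s = κ + n • vec t ∧
      ∀ j : ℕ, 0 < j → j < n → B (κ + j • vec t) = none := by
    intro d hd n hk hn hs hcl
    obtain ⟨t, ht, hv⟩ := or_vec (LF7_negO d hd)
    refine ⟨true, t, n, Or.inl ⟨rfl, ht⟩, ?_, hn, by rw [hv]; exact hs, by rw [hv]; exact hcl⟩
    rcases hk with h1 | h1
    · exact Or.inl h1
    · exact Or.inr (Or.inl ⟨rfl, h1⟩)
  have hD : ∀ d ∈ diagDirs, ∀ n : ℕ, (m.2 = Kind.queen ∨ m.2 = Kind.bishop) → 0 < n →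
      s = κ + n • (-d) → (∀ j : ℕ, 0 < j → j < n → B (κ + j • (-d)) = none) →
      ∃ (ro : Bool) (t n : ℕ), LF7_dir ro t ∧ LF7_can ro m ∧ 0 < n ∧ s = κ + n • vec t ∧
      ∀ j : ℕ, 0 < j → j < n → B (κ + j • vec t) = none := by
    intro d hd n hk hn hs hcl
    obtain ⟨t, ht, hv⟩ := di_vec (LF7_negD d hd)
    refine ⟨false, t, n, Or.inr ⟨rfl, ht⟩, ?_, hn, by rw [hv]; exact hs, by rw [hv]; exact hcl⟩
    rcases hk with h1 | h1
    · exact Or.inl h1
    · exact Or.inr (Or.inr ⟨rfl, h1⟩)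
  unfold ManAttacks at ha
  rcases hm with h | h | h
  · rw [h] at ha
    obtain ⟨d, hd, n, hn, hs, hcl⟩ := LF7_fwd ha
    rcases List.mem_append.1 hd with h1 | h1
    · exact hO d h1 n (Or.inl h) hn hs hcl
    · exact hD d h1 n (Or.inl h) hn hs hcl
  · rw [h] at ha
    obtain ⟨d, hd, n, hn, hs, hcl⟩ := LF7_fwd ha
    exact hO d hd n (Or.inr h) hn hs hcl
  · rw [h] at ha
    obtain ⟨d, hd, n, hn, hs, hcl⟩ := LF7_fwd ha
    exact hD d hd n (Or.inr h) hn hs hcl

theorem LF7_att' {B : Board} {m : Man} {s κ : Sq} {ro : Bool} {t n : ℕ} (hd : LF7_dir ro t)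
    (hc : LF7_can ro m) (hn : 0 < n) (hs : s = κ + n • vec t)
    (hcl : ∀ j : ℕ, 0 < j → j < n → B (κ + j • vec t) = none) : ManAttacks B m s κ := by
  unfold ManAttacks
  rcases hd with ⟨h1, ht⟩ | ⟨h1, ht⟩
  · have hv := LF7_negO _ (vec_or ht)
    rcases hc with h | ⟨-, h⟩ | ⟨h2, h⟩
    · rw [h]; exact LF7_bwd (List.mem_append_left _ hv) hn hs hcl
    · rw [h]; exact LF7_bwd hv hn hs hcl
    · rw [h1] at h2; exact absurd h2 (by decide)
  · have hv := LF7_negD _ (vec_di ht)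
    rcases hc with h | ⟨h2, h⟩ | ⟨-, h⟩
    · rw [h]; exact LF7_bwd (List.mem_append_right _ hv) hn hs hcl
    · rw [h1] at h2; exact absurd h2 (by decide)
    · rw [h]; exact LF7_bwd hv hn hs hcl

theorem LF7_split {B : Board} {ds ds' : List Sq} {a b : Sq} (h : Slides B (ds ++ ds') a b) :
    Slides B ds a b ∨ Slides B ds' a b := by
  obtain ⟨d, hd, h1⟩ := h
  rcases List.mem_append.1 hd with h2 | h2
  · exact Or.inl ⟨d, h2, h1⟩
  · exact Or.inr ⟨d, h2, h1⟩

theorem LF7_lmem {R : List Ray} {sp ro : Bool} {p k t x : Nat} (h : LF7_dir ro t)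
    (hx : x ∈ lChk R p sp ro t 20 k []) : x ∈ checks R sp p k := by
  rw [mem_checks]
  rcases h with ⟨rfl, h2⟩ | ⟨rfl, h2⟩
  · exact Or.inr (Or.inr (Or.inl ⟨t, h2, hx⟩))
  · exact Or.inr (Or.inr (Or.inr ⟨t, h2, hx⟩))

/-- the content of a cell which is the target of a Black move -/
theorem LF7_code {c : Nat} (hc : c < 16) (h15 : c ≠ 15) (h7 : c ≠ 7) (h8 : c ≠ 8)
    (hd : dec c = none ∨ ∃ t : Man, dec c = some t ∧ t.1 = true ∧ t.2 ≠ Kind.king) : c ≤ 5 := by
  by_contra hcon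
  push Not at hcon
  rcases hd with h | ⟨t, ht, h1, h2⟩
  · exact LB_decne (by omega) (by omega) h7 h8 h
  · unfold dec at ht
    interval_cases c <;> simp_all <;> subst ht <;> simp at h1 h2

theorem LF7_m1 {c : Nat} (h : c = 15 ∨ c = 7 ∨ c = 8) : msk 0x3f c = false ∧ msk 0x8180 c = true := by
  rcases h with rfl | rfl | rfl <;> decide

theorem LF7_m2 {c : Nat} (h : c ≤ 5) : msk 0x3f c = true ∧ msk 0x8180 c = false ∧
    (c ≠ 0 → Nat.beq c 0 = false ∧ msk 0x3e c = true) := by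
  interval_cases c <;> decide

/-- a knight which gives check after its move -/
theorem LF7_knight {C : Ctx} (hC : C.Ok) {p k : Nat} (h : WF C p k) (sp : Bool)
    (h0 : 0 ∉ checks C.R sp p k) {a b : Sq}
    (hcode : ∀ i < 400, sq C.o i = b → cell p i ≠ 15 → cell p i ≠ 7 → cell p i ≠ 8 →
      cell p i ≤ 5) (ha : C.brd p a = some (false, Kind.knight)) (hab : b - a ∈ knightJumps)
    (hκ : sq C.o k - b ∈ knightJumps) : ∃ m ∈ checks C.R sp p k, Is C p m a b := by
  have hkI : Inner k := inner_of_cell h h.lt (by rw [h.king]; decide)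
  have h1 : ∀ d ∈ knightJumps, -d ∈ knightJumps := by decide
  obtain ⟨t, ht, hv⟩ := kn_vec (h1 _ hκ)
  have hst := stp_inner (List.mem_append_right (orT ++ diT) ht) hkI
  have hz : sq C.o (stp t k) = b := by
    rw [hst.2 C.o, hv]; abel
  have hx : ∀ x, x ∈ cond (msk 0x3f (cell p (stp t k))) (nMov p (stp t k) [])
      (cond (msk 0x8180 (cell p (stp t k))) [0] []) → x ∈ checks C.R sp p k := by
    intro x hx
    rw [mem_checks]
    left
    exact (mem_e8 (le_f3 p k) [] x).2 (Or.inl ⟨t, ht, hx⟩)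
  have hn : ¬ (cell p (stp t k) = 15 ∨ cell p (stp t k) = 7 ∨ cell p (stp t k) = 8) := by
    intro h2
    apply h0
    apply hx
    rw [(LF7_m1 h2).1, (LF7_m1 h2).2]
    exact List.mem_singleton.2 rfl
  push Not at hn
  have hc := hcode _ hst.1 hz hn.1 hn.2.1 hn.2.2
  rw [(LF7_m2 hc).1] at hx
  simp only [cond_true] at hx
  obtain ⟨m, hm, hi⟩ := nMov_complete hC h hst.1 hn.1 (fun h2 => h0 (hx 0 h2)) a ha
    (by rw [hz]; exact hab)
  rw [hz] at hi
  exact ⟨m, hx m hm, hi⟩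

/-- a pawn which gives check after its move -/
theorem LF7_pawn {C : Ctx} (hC : C.Ok) {p k : Nat} (h : WF C p k) (sp : Bool)
    (h0 : 0 ∉ checks C.R sp p k) {a b : Sq}
    (hcode : ∀ i < 400, sq C.o i = b → cell p i ≠ 15 → cell p i ≠ 7 → cell p i ≠ 8 →
      cell p i ≤ 5) (ha : C.brd p a = some (false, Kind.pawn))
    (hab : (C.brd p b = none ∧ b - a = (0, -1)) ∨
      (C.brd p b ≠ none ∧ (b - a = (1, -1) ∨ b - a = (-1, -1))))
    (hκ : sq C.o k - b = (1, -1) ∨ sq C.o k - b = (-1, -1)) :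
    ∃ m ∈ checks C.R sp p k, Is C p m a b := by
  have hkI : Inner k := inner_of_cell h h.lt (by rw [h.king]; decide)
  obtain ⟨t, ht, hto, hv⟩ : ∃ t ∈ [63, 61], t ∈ orT ++ diT ++ knT ∧ vec t = b - sq C.o k := by
    rcases hκ with h1 | h1
    · refine ⟨61, by decide, by decide, ?_⟩
      rw [← neg_sub, h1]
      decide
    · refine ⟨63, by decide, by decide, ?_⟩
      rw [← neg_sub, h1]
      decide
  have hst := stp_inner hto hkI
  have hz : sq C.o (stp t k) = b := by
    rw [hst.2 C.o, hv]; abel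
  have hx : ∀ x, x ∈ cond (msk 0x8180 (cell p (stp t k))) [0]
      (cond (Nat.beq (cell p (stp t k)) 0) (pStep p (stp t k) [])
      (cond (msk 0x3e (cell p (stp t k))) (pCap p (stp t k) []) [])) → x ∈ checks C.R sp p k := by
    intro x hx
    rw [mem_checks]
    right; left
    exact (mem_eP (le_f4 p k) [] x).2 (Or.inl ⟨t, ht, hx⟩)
  have hn : ¬ (cell p (stp t k) = 15 ∨ cell p (stp t k) = 7 ∨ cell p (stp t k) = 8) := by
    intro h2
    apply h0
    apply hx
    rw [(LF7_m1 h2).2]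
    exact List.mem_singleton.2 rfl
  push Not at hn
  have hc := hcode _ hst.1 hz hn.1 hn.2.1 hn.2.2
  have hm2 := LF7_m2 hc
  rw [hm2.2.1] at hx
  simp only [cond_false] at hx
  have hbz := brd_sq C hst.1 hn.1
  rw [hz] at hbz
  rcases hab with ⟨hbn, hab⟩ | ⟨hbn, hab⟩
  · have hc0 : cell p (stp t k) = 0 := by
      by_contra hne
      rw [hbz] at hbn
      exact LB_decne hne (by omega) hn.2.1 hn.2.2 hbn
    rw [hc0] at hx
    obtain ⟨m, hm, hi⟩ := pStep_complete hC h hst.1 hn.1 (fun h2 => h0 (hx 0 h2)) a ha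
      (by rw [hz]; exact hab)
    rw [hz] at hi
    exact ⟨m, hx m hm, hi⟩
  · have hc0 : cell p (stp t k) ≠ 0 := by
      intro he
      rw [he] at hbz
      exact hbn hbz
    rw [(hm2.2.2 hc0).1, (hm2.2.2 hc0).2] at hx
    simp only [cond_false, cond_true] at hx
    obtain ⟨m, hm, hi⟩ := pCap_complete hC h hst.1 hn.1 (fun h2 => h0 (hx 0 h2)) a ha
      (by rw [hz]; exact hab)
    rw [hz] at hi
    exact ⟨m, hx m hm, hi⟩

/-- a slider which goes to the mark `ρ.e`: it is listed by `sMovE`, or it comes from a direction in which the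
patch ends -/
theorem LF7_edge {C : Ctx} (hC : C.Ok) {p k : Nat} (h : WF C p k) {ρ : Ray} (hρ : ρ ∈ C.R)
    (h7 : cell p ρ.e = 7) {ro : Bool} (h0 : 0 ∉ sMovE C.R p ro ρ.e []) {a : Sq} {m : Man}
    (ha : C.brd p a = some m) (hmc : m.1 = false) (hcan : LF7_can ro m)
    (hab : ManAttacks (C.brd p) m a (sq C.o ρ.e)) :
    (∃ x ∈ sMovE C.R p ro ρ.e [], Is C p x a (sq C.o ρ.e)) ∨ Edge C p ρ a := by
  have hj : ρ.e < 400 := inner_lt (hC.inner ρ hρ).1
  have hcj : cell p ρ.e ≠ 15 := by omega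
  have ha' : C.brd p a = some (false, m.2) := by
    rw [ha]; exact congrArg some (Prod.ext hmc rfl)
  have horth : (m.2 = Kind.queen ∨ (ro = true ∧ m.2 = Kind.rook)) →
      Slides (C.brd p) orthDirs a (sq C.o ρ.e) →
      (∃ x ∈ sMovE C.R p ro ρ.e [], Is C p x a (sq C.o ρ.e)) ∨ Edge C p ρ a := by
    intro hk hs
    obtain ⟨d, hd, n, hn, hbe, hcl⟩ := hs
    obtain ⟨u, hu, hv⟩ := or_vec (LF3_negO hd)
    obtain ⟨hae, hcl'⟩ := LF3_rev (B := C.brd p) hv hbe hcl
    by_cases hin : Inner (stp u ρ.e)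
    · left
      have ho : outC (stp u ρ.e) = false := by
        rw [Bool.eq_false_iff, ne_eq, outC_iff]
        exact fun hh => hh hin
      have hmem : ∀ x, x ∈ sMov1 C.R p (cond ro 0x3100 0x2100) ρ.e u [] → x ∈ sMovE C.R p ro ρ.e [] := by
        intro x hx
        unfold sMovE
        refine (mem_eO (adds_sMovE1 _ _ _ _) _ _).2 (Or.inl ⟨u, hu, ?_⟩)
        unfold sMovE1
        rw [ho]
        exact hx
      rw [hae] at ha
      obtain ⟨x, hx, hI⟩ := LF3_core hC h hj hcj (List.mem_append.2 (Or.inl hu))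
        (by cases ro <;> rfl) (by cases ro <;> rfl) (fun hc => h0 (hmem 0 hc)) hn ha hcl' (fun c hc hdc => by
          obtain ⟨-, h2, h3⟩ := LF3_dec hc hdc hmc
          rcases hk with hk | ⟨hr, hk⟩
          · rw [h3 hk]
            cases ro <;> rfl
          · rw [h2 hk, hr]
            rfl) (fun hq => by
          obtain ⟨-, g2, g3, -⟩ := LD_quiet hq
          rcases hk with hk | ⟨-, hk⟩
          · exact g2 hk
          · exact g3 hu hk)
      rw [← hae] at hI
      exact ⟨x, hmem x hx, hI⟩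
    · right
      refine ⟨u, List.mem_append.2 (Or.inl hu), hin, n, hn, hae, hcl', m.2, ha', ?_⟩
      rcases hk with hk | ⟨-, hk⟩
      · exact Or.inl hk
      · exact Or.inr (Or.inl ⟨hu, hk⟩)
  have hdiag : (m.2 = Kind.queen ∨ (ro = false ∧ m.2 = Kind.bishop)) →
      Slides (C.brd p) diagDirs a (sq C.o ρ.e) →
      (∃ x ∈ sMovE C.R p ro ρ.e [], Is C p x a (sq C.o ρ.e)) ∨ Edge C p ρ a := by
    intro hk hs
    obtain ⟨d, hd, n, hn, hbe, hcl⟩ := hs
    obtain ⟨u, hu, hv⟩ := di_vec (LF3_negD hd)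
    obtain ⟨hae, hcl'⟩ := LF3_rev (B := C.brd p) hv hbe hcl
    by_cases hin : Inner (stp u ρ.e)
    · left
      have ho : outC (stp u ρ.e) = false := by
        rw [Bool.eq_false_iff, ne_eq, outC_iff]
        exact fun hh => hh hin
      have hmem : ∀ x, x ∈ sMov1 C.R p (cond ro 0x2100 0x2900) ρ.e u [] → x ∈ sMovE C.R p ro ρ.e [] := by
        intro x hx
        unfold sMovE
        refine (mem_eO (adds_sMovE1 _ _ _ _) _ _).2 (Or.inr ?_)
        refine (mem_eD (adds_sMovE1 _ _ _ _) _ _).2 (Or.inl ⟨u, hu, ?_⟩)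
        unfold sMovE1
        rw [ho]
        exact hx
      rw [hae] at ha
      obtain ⟨x, hx, hI⟩ := LF3_core hC h hj hcj (List.mem_append.2 (Or.inr hu))
        (by cases ro <;> rfl) (by cases ro <;> rfl) (fun hc => h0 (hmem 0 hc)) hn ha hcl' (fun c hc hdc => by
          obtain ⟨h1, -, h3⟩ := LF3_dec hc hdc hmc
          rcases hk with hk | ⟨hr, hk⟩
          · rw [h3 hk]
            cases ro <;> rfl
          · rw [h1 hk, hr]
            rfl) (fun hq => by
          obtain ⟨-, g2, -, g3⟩ := LD_quiet hq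
          rcases hk with hk | ⟨-, hk⟩
          · exact g2 hk
          · exact g3 hu hk)
      rw [← hae] at hI
      exact ⟨x, hmem x hx, hI⟩
    · right
      refine ⟨u, List.mem_append.2 (Or.inr hu), hin, n, hn, hae, hcl', m.2, ha', ?_⟩
      rcases hk with hk | ⟨-, hk⟩
      · exact Or.inl hk
      · exact Or.inr (Or.inr ⟨hu, hk⟩)
  unfold ManAttacks at hab
  rcases hcan with h1 | h1 | h1
  · rw [h1] at hab
    rcases LF7_split hab with h2 | h2
    · exact horth (Or.inl h1) h2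
    · exact hdiag (Or.inl h1) h2
  · rw [h1.2] at hab
    exact horth (Or.inr h1) hab
  · rw [h1.2] at hab
    exact hdiag (Or.inr h1) hab

/-- a slider which gives check after its move -/
theorem LF7_slider {C : Ctx} (hC : C.Ok) {p k : Nat} (h : WF C p k) (sp : Bool)
    (h0 : 0 ∉ checks C.R sp p k) {a b : Sq} {m : Man} (ha : C.brd p a = some m)
    (hmc : m.1 = false)
    (htgt : C.brd p b = none ∨ ∃ t : Man, C.brd p b = some t ∧ t.1 = true ∧ t.2 ≠ Kind.king)
    (hab : ManAttacks (C.brd p) m a b) {ro : Bool} {t n : ℕ} (hd : LF7_dir ro t)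
    (hcan : LF7_can ro m) (hn : 0 < n) (hb : b = sq C.o k + n • vec t)
    (hcl : ∀ j : ℕ, 0 < j → j < n → C.brd p (sq C.o k + j • vec t) = none) :
    (∃ m ∈ checks C.R sp p k, Is C p m a b) ∨ (sp = true ∧ Beyond C p b) ∨
    (sp = true ∧ ∃ ρ ∈ C.R, cell p ρ.e = 7 ∧ first p ρ.t 20 k = ρ.e ∧ b = sq C.o ρ.e ∧
      Edge C p ρ a) := by
  have hl0 : 0 ∉ lChk C.R p sp ro t 20 k [] := fun h2 => h0 (LF7_lmem hd h2)
  rw [hb] at htgt
  rcases lChk_landing hC sp ro h (LF7_mem hd) hl0 hn hcl htgt with ⟨j, hj, h15, hjb, hx⟩ | h1 |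
    ⟨hsp, ρ, hρ, h7, hρt, hfst, hjb, hx⟩
  · left
    rw [← hb] at hjb
    have hs0 : 0 ∉ sMov C.R p ro j [] := fun h2 => hl0 (hx 0 h2)
    have horth : (m.2 = Kind.queen ∨ (ro = true ∧ m.2 = Kind.rook)) →
        Slides (C.brd p) orthDirs a b → ∃ m ∈ checks C.R sp p k, Is C p m a b := by
      intro hk hs
      obtain ⟨x, hxm, hi⟩ := sMov_orth hC ro h hj h15 hs0 a m ha hmc hk (by rw [hjb]; exact hs)
      rw [hjb] at hi
      exact ⟨x, LF7_lmem hd (hx x hxm), hi⟩
    have hdiag : (m.2 = Kind.queen ∨ (ro = false ∧ m.2 = Kind.bishop)) →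
        Slides (C.brd p) diagDirs a b → ∃ m ∈ checks C.R sp p k, Is C p m a b := by
      intro hk hs
      obtain ⟨x, hxm, hi⟩ := sMov_diag hC ro h hj h15 hs0 a m ha hmc hk (by rw [hjb]; exact hs)
      rw [hjb] at hi
      exact ⟨x, LF7_lmem hd (hx x hxm), hi⟩
    unfold ManAttacks at hab
    rcases hcan with h1 | h1 | h1
    · rw [h1] at hab
      rcases LF7_split hab with h2 | h2
      · exact horth (Or.inl h1) h2
      · exact hdiag (Or.inl h1) h2
    · rw [h1.2] at hab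
      exact horth (Or.inr h1) hab
    · rw [h1.2] at hab
      exact hdiag (Or.inr h1) hab
  · right
    left
    rw [hb]
    exact h1
  · rw [← hb] at hjb
    rw [← hjb] at hab
    have hs0 : 0 ∉ sMovE C.R p ro ρ.e [] := fun h2 => hl0 (hx 0 h2)
    rcases LF7_edge hC h hρ h7 hs0 ha hmc hcan hab with ⟨x, hxm, hi⟩ | h1
    · left
      rw [hjb] at hi
      exact ⟨x, LF7_lmem hd (hx x hxm), hi⟩
    · right
      right
      exact ⟨hsp, ρ, hρ, h7, by rw [hρt]; exact hfst, hjb.symm, h1⟩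

/-- chunk LF6: **Completeness of the list of checks.** -/
theorem checks_complete {C : Ctx} (hC : C.Ok) {p k : Nat} (h : WF C p k)
    (hs : safe C.R p k = true) (sp : Bool) (h0 : 0 ∉ checks C.R sp p k) (a b : Sq)
    (hl : Legal (C.brd p) false a b) (hc : InCheck ((C.brd p).move a b) true) :
    (∃ m ∈ checks C.R sp p k, Is C p m a b ∧ MoveOk p (m / 400) (m % 400)) ∨
      (sp = true ∧ Beyond C p b) ∨
      (sp = true ∧ ∃ ρ ∈ C.R, cell p ρ.e = 7 ∧ first p ρ.t 20 k = ρ.e ∧ b = sq C.o ρ.e ∧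
        Edge C p ρ a) ∨
      (sp = true ∧ ∃ ρ ∈ C.R, cell p ρ.e = 7 ∧ first p ρ.t 20 k = ρ.e ∧
        (∃ n : ℕ, 0 < n ∧ a = C.ray ρ n) ∧ Hit C ((C.brd p).move a b) ρ) := by
  have hK := kingAt hC h
  have hno := safe_noCheck hC h hs
  obtain ⟨m₀, hm₀, hm₀c, hgo⟩ := hl.1
  -- the target
  have htgt : C.brd p b = none ∨ ∃ t : Man, C.brd p b = some t ∧ t.1 = true ∧ t.2 ≠ Kind.king := by
    rcases hgo with ⟨h1, -⟩ | ⟨⟨t, ht, h1, h2⟩, -⟩
    · exact Or.inl h1
    · exact Or.inr ⟨t, ht, by simpa using h1, h2⟩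
  have hab : a ≠ b := by
    rintro rfl
    rcases htgt with h1 | ⟨t, ht, h1, -⟩
    · rw [hm₀] at h1; cases h1
    · rw [hm₀] at ht; cases ht; rw [hm₀c] at h1; cases h1
  have haκ : a ≠ sq C.o k := by
    rintro rfl
    rw [hK.1] at hm₀
    cases hm₀
    cases hm₀c
  have hbκ : b ≠ sq C.o k := by
    rintro rfl
    rcases htgt with h1 | ⟨t, ht, -, h2⟩
    · rw [hK.1] at h1; cases h1
    · rw [hK.1] at ht; cases ht; exact h2 rfl
  have hfin : (∃ m ∈ checks C.R sp p k, Is C p m a b) ∨ (sp = true ∧ Beyond C p b) ∨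
      (sp = true ∧ ∃ ρ ∈ C.R, cell p ρ.e = 7 ∧ first p ρ.t 20 k = ρ.e ∧ b = sq C.o ρ.e ∧
        Edge C p ρ a) →
      (∃ m ∈ checks C.R sp p k, Is C p m a b ∧ MoveOk p (m / 400) (m % 400)) ∨
      (sp = true ∧ Beyond C p b) ∨
      (sp = true ∧ ∃ ρ ∈ C.R, cell p ρ.e = 7 ∧ first p ρ.t 20 k = ρ.e ∧ b = sq C.o ρ.e ∧
        Edge C p ρ a) := by
    rintro (⟨m, hm, hi⟩ | h1)
    · exact Or.inl ⟨m, hm, hi, checks_ok h sp h0 hm⟩
    · exact Or.inr h1
  suffices hsuf : ((∃ m ∈ checks C.R sp p k, Is C p m a b ∧ MoveOk p (m / 400) (m % 400)) ∨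
      (sp = true ∧ Beyond C p b) ∨
      (sp = true ∧ ∃ ρ ∈ C.R, cell p ρ.e = 7 ∧ first p ρ.t 20 k = ρ.e ∧ b = sq C.o ρ.e ∧
        Edge C p ρ a)) ∨
      (sp = true ∧ ∃ ρ ∈ C.R, cell p ρ.e = 7 ∧ first p ρ.t 20 k = ρ.e ∧
        (∃ n : ℕ, 0 < n ∧ a = C.ray ρ n) ∧ Hit C ((C.brd p).move a b) ρ) by
    rcases hsuf with (h1 | h1 | h1) | h1
    · exact Or.inl h1
    · exact Or.inr (Or.inl h1)
    · exact Or.inr (Or.inr (Or.inl h1))
    · exact Or.inr (Or.inr (Or.inr h1))
  have hcode : ∀ i < 400, sq C.o i = b → cell p i ≠ 15 → cell p i ≠ 7 → cell p i ≠ 8 →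
      cell p i ≤ 5 := by
    intro i hi hib h15 h7 h8
    have h1 := brd_sq C hi h15
    rw [hib] at h1
    rw [h1] at htgt
    exact LF7_code (cell_lt p i) h15 h7 h8 htgt
  have hmove : ∀ s, s ≠ a → s ≠ b → (C.brd p).move a b s = C.brd p s := by
    intro s h1 h2
    unfold Board.move
    rw [if_neg h1, if_neg h2]
  have hmoveb : (C.brd p).move a b b = some m₀ := by
    unfold Board.move
    rw [if_neg (Ne.symm hab), if_pos rfl, hm₀]
  rcases check_cases (C.brd p) hK hl hno hc with ⟨m, hm, hmc, hat⟩ |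
    ⟨s, m, hsa, hsb, hm, hmc, hsl, hat, hnat⟩
  · left
    apply hfin
    rw [hm₀] at hm
    cases hm
    have hkinds : m₀.2 = Kind.king ∨ m₀.2 = Kind.knight ∨ m₀.2 = Kind.pawn ∨
        (m₀.2 = Kind.queen ∨ m₀.2 = Kind.rook ∨ m₀.2 = Kind.bishop) := by
      rcases m₀.2 with _ | _ | _ | _ | _ | _ <;> simp
    rcases hkinds with hk | hk | hk | hk
    · -- the king cannot give check
      exfalso
      apply hl.2
      refine ⟨b, sq C.o k, (true, Kind.king), ?_, ?_, rfl, ?_⟩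
      · rw [hmoveb]
        exact congrArg some (Prod.ext hm₀c hk)
      · rw [hmove _ (Ne.symm haκ) (Ne.symm hbκ)]
        exact hK.1
      · unfold ManAttacks at hat ⊢
        rw [hk] at hat
        have h1 : ∀ d ∈ orthDirs ++ diagDirs, -d ∈ orthDirs ++ diagDirs := by decide
        have h2 := h1 _ hat
        rw [neg_sub] at h2
        exact h2
    · -- a knight
      left
      have hba : b - a ∈ knightJumps := by
        rcases hgo with ⟨-, h1⟩ | ⟨-, h1⟩
        · rw [if_neg (by rw [hk]; decide)] at h1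
          unfold ManAttacks at h1
          rw [hk] at h1
          exact h1
        · unfold ManAttacks at h1
          rw [hk] at h1
          exact h1
      unfold ManAttacks at hat
      rw [hk] at hat
      exact LF7_knight hC h sp h0 hcode (by rw [hm₀]; exact congrArg some (Prod.ext hm₀c hk))
        hba hat
    · -- a pawn
      left
      unfold ManAttacks at hat
      rw [hk] at hat
      simp only [hm₀c] at hat
      refine LF7_pawn hC h sp h0 hcode (by rw [hm₀]; exact congrArg some (Prod.ext hm₀c hk))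
        ?_ hat
      rcases hgo with ⟨h1, h2⟩ | ⟨⟨t, h1, -⟩, h2⟩
      · left
        rw [if_pos hk] at h2
        exact ⟨h1, h2⟩
      · right
        refine ⟨by rw [h1]; simp, ?_⟩
        unfold ManAttacks at h2
        rw [hk] at h2
        simp only [hm₀c] at h2
        exact h2
    · -- a slider
      obtain ⟨ro, t, n, hd, hcan, hn, hbn, hcl⟩ := LF7_att hk hat
      have hvne := LC_vec_ne (LF7_mem hd)
      have hnb : ∀ j : ℕ, j < n → sq C.o k + j • vec t ≠ b := by
        intro j hj he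
        rw [hbn] at he
        have h1 := LC_smul_inj hvne (add_left_cancel he)
        omega
      have hna : ∀ j : ℕ, 0 < j → j < n → sq C.o k + j • vec t ≠ a := by
        intro j hj
        induction j using Nat.strong_induction_on with
        | _ j ih =>
          intro hjn he
          apply hno
          refine ⟨sq C.o k, a, m₀, hK.1, hm₀, by rw [hm₀c]; rfl, ?_⟩
          refine LF7_att' hd hcan hj he.symm ?_
          intro l hl hlj
          rw [← hmove _ (ih l hlj hl (by omega)) (hnb l (by omega))]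
          exact hcl l hl (by omega)
      have hcl' : ∀ j : ℕ, 0 < j → j < n → C.brd p (sq C.o k + j • vec t) = none := by
        intro j hj hjn
        rw [← hmove _ (hna j hj hjn) (hnb j hjn)]
        exact hcl j hj hjn
      have hatt : ManAttacks (C.brd p) m₀ a b := by
        rcases hgo with ⟨-, h1⟩ | ⟨-, h1⟩
        · rw [if_neg] at h1
          · exact h1
          · intro h2
            rw [h2] at hk
            rcases hk with h3 | h3 | h3 <;> cases h3
        · exact h1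
      exact LF7_slider hC h sp h0 hm₀ hm₀c htgt hatt hd hcan hn hbn hcl'
  · obtain ⟨ro, t, n, hd, hcan, hn, hbn, hcl⟩ := LF7_att hsl hat
    have hvne := LC_vec_ne (LF7_mem hd)
    have hnb : ∀ j : ℕ, 0 < j → j < n → sq C.o k + j • vec t ≠ b := by
      intro j hj hjn he
      have h1 := hcl j hj hjn
      rw [he, hmoveb] at h1
      cases h1
    have hex : ∃ j : ℕ, 0 < j ∧ j < n ∧ sq C.o k + j • vec t = a := by
      by_contra hcon
      push Not at hcon
      apply hnat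
      refine LF7_att' hd hcan hn hbn ?_
      intro j hj hjn
      rw [← hmove _ (hcon j hj hjn) (hnb j hj hjn)]
      exact hcl j hj hjn
    obtain ⟨n₁, hn₁, hn₁n, hen₁⟩ := hex
    have hcl' : ∀ j : ℕ, 0 < j → j < n → j ≠ n₁ → C.brd p (sq C.o k + j • vec t) = none := by
      intro j hj hjn hjne
      rw [← hmove _ _ (hnb j hj hjn)]
      · exact hcl j hj hjn
      · intro he
        rw [← hen₁] at he
        exact hjne (LC_smul_inj hvne (add_left_cancel he))
    rcases lChk_discovered hC (n₁ := n₁) (n₂ := n) (m₁ := m₀)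
      (m₂ := m) sp ro h (LF7_mem hd)
      (LF7_ro hd) (fun h2 => h0 (LF7_lmem hd h2)) hn₁ hn₁n
      (fun l hl hln => hcl' l hl (by omega) (by omega))
      (fun l hl hln => hcl' l (by omega) hln (by omega))
      (by rw [hen₁]; exact hm₀) hm₀c (by rw [← hbn]; exact hm) hmc hcan with
      ⟨j, hj, hcj1, hcj2, hja, hx, hb0⟩ | ⟨hsp, ρ, hρ, h7, hρt, hfst, na, hna, hray⟩
    · left
      apply hfin
      rw [hen₁] at hja
      rcases bMoves_complete hC sp h hj ⟨hcj1, hcj2⟩ hb0 b (by rw [hja]; exact hl.1) with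
        ⟨x, hxm, hi⟩ | h1
      · left
        rw [hja] at hi
        exact ⟨x, LF7_lmem hd (hx x hxm), hi⟩
      · exact Or.inr (Or.inl h1)
    · right
      refine ⟨hsp, ρ, hρ, h7, by rw [hρt]; exact hfst, ⟨na, hna, by rw [← hray, hen₁]⟩, ?_⟩
      have h15 : cell p (first p t 20 k) ≠ 15 := by rw [hfst, h7]; decide
      obtain ⟨n', hS⟩ := first_spec h h.lt (by rw [h.king]; decide) (LF7_mem hd) h15
      have e1 := hS.eq
      rw [hfst] at e1
      have hpos := hS.pos
      have e2 : n₁ = n' + na := by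
        have e3 : sq C.o k + n₁ • vec t = sq C.o k + (n' + na) • vec t := by
          rw [hray]
          unfold Ctx.ray
          rw [hρt, e1, add_assoc, ← add_smul]
        exact LC_smul_inj hvne (add_left_cancel e3)
      have e4 : ∀ i : ℕ, C.ray ρ i = sq C.o k + (n' + i) • vec t := by
        intro i
        unfold Ctx.ray
        rw [hρt, e1, add_assoc, ← add_smul]
      refine ⟨n - n', by omega, ?_, m.2, ?_, ?_⟩
      · intro i hi him
        rw [e4]
        exact hcl _ (by omega) (by omega)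
      · rw [e4, show n' + (n - n') = n by omega, ← hbn, hmove _ hsa hsb, hm]
        exact congrArg some (Prod.ext hmc rfl)
      · rw [hρt]
        rcases hcan with h1 | ⟨h1, h2⟩ | ⟨h1, h2⟩
        · exact Or.inl h1
        · exact Or.inr (Or.inl ⟨(LF7_ro hd).1 h1, h2⟩)
        · refine Or.inr (Or.inr ⟨?_, h2⟩)
          rcases hd with ⟨h3, -⟩ | ⟨-, h3⟩
          · rw [h3] at h1
            cases h1
          · exact h3

end Pool.Agent.Lib.H32C.Loc
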