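import Pool.Agent.Lib.H32C.LocD

/-!
# Chunk LG: White replies
-/

set_option autoImplicit false

namespace Pool.Agent.Lib.H32C.Loc

theorem LG_exists_of_not {L : List Nat} {f : Nat → Nat} {b : Nat}
    (h : ¬ ∀ t ∈ L, (!Nat.beq (f t) b) = true) : ∃ t ∈ L, f t = b := by
  by_contra hno
  push Not at hno
  apply h
  intro t ht
  rw [Bool.not_eq_true', ← Bool.not_eq_true]
  intro h1
  exact hno t ht (Nat.eq_of_beq_eq_true h1)

/-- LG: the cases of a White move accepted by `wGo` -/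
theorem LG_cases {p a b : Nat} (hw : wGo p a b = true) :
    (cell p a = 6 ∧ (∃ t ∈ orT ++ diT, stp t a = b) ∧
      (cell p b = 0 ∨ (9 ≤ cell p b ∧ cell p b ≤ 13))) ∨
    (cell p a = 1 ∧ stp 62 a = b ∧ cell p b = 0) ∨
    (cell p a = 1 ∧ (stp 63 a = b ∨ stp 61 a = b) ∧ (9 ≤ cell p b ∧ cell p b ≤ 13)) ∨
    (cell p a = 2 ∧ (∃ t ∈ knT, stp t a = b) ∧
      (cell p b = 0 ∨ (9 ≤ cell p b ∧ cell p b ≤ 13))) ∨
    (cell p a = 4 ∧ (∃ t ∈ orT, first p t 20 a = b) ∧ (9 ≤ cell p b ∧ cell p b ≤ 13)) ∨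
    (cell p a = 3 ∧ (∃ t ∈ diT, first p t 20 a = b) ∧ (9 ≤ cell p b ∧ cell p b ≤ 13)) := by
  have h1 : ∀ c < 16, msk 0x3e01 c = true → c = 0 ∨ (9 ≤ c ∧ c ≤ 13) := by decide
  have h2 : ∀ c < 16, msk 0x3e00 c = true → 9 ≤ c ∧ c ≤ 13 := by decide
  have h1' := h1 _ (cell_lt p b)
  have h2' := h2 _ (cell_lt p b)
  unfold wGo at hw
  rcases hc6 : Nat.beq (cell p a) 6 with _ | _
  · rw [hc6, cond_false] at hw
    rcases hc1 : Nat.beq (cell p a) 1 with _ | _
    · rw [hc1, cond_false] at hw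
      rcases hc2 : Nat.beq (cell p a) 2 with _ | _
      · rw [hc2, cond_false] at hw
        rcases hc4 : Nat.beq (cell p a) 4 with _ | _
        · rw [hc4, cond_false] at hw
          rcases hc3 : Nat.beq (cell p a) 3 with _ | _
          · rw [hc3, cond_false] at hw
            exact absurd hw (by decide)
          · rw [hc3, cond_true, Bool.and_eq_true, Bool.not_eq_true', ← Bool.not_eq_true,
              aD_iff] at hw
            right; right; right; right; right
            exact ⟨Nat.eq_of_beq_eq_true hc3, LG_exists_of_not hw.1, h2' hw.2⟩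
        · rw [hc4, cond_true, Bool.and_eq_true, Bool.not_eq_true', ← Bool.not_eq_true,
            aO_iff] at hw
          right; right; right; right; left
          exact ⟨Nat.eq_of_beq_eq_true hc4, LG_exists_of_not hw.1, h2' hw.2⟩
      · rw [hc2, cond_true, Bool.and_eq_true, Bool.not_eq_true', ← Bool.not_eq_true,
          a8_iff] at hw
        right; right; right; left
        exact ⟨Nat.eq_of_beq_eq_true hc2, LG_exists_of_not hw.1, h1' hw.2⟩
    · rw [hc1, cond_true, Bool.or_eq_true, Bool.and_eq_true, Bool.and_eq_true,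
        Bool.or_eq_true] at hw
      rcases hw with ⟨hw1, hw2⟩ | ⟨hw1, hw2⟩
      · right; left
        exact ⟨Nat.eq_of_beq_eq_true hc1, Nat.eq_of_beq_eq_true hw1, Nat.eq_of_beq_eq_true hw2⟩
      · right; right; left
        refine ⟨Nat.eq_of_beq_eq_true hc1, ?_, h2' hw2⟩
        rcases hw1 with hw1 | hw1
        · exact Or.inl (Nat.eq_of_beq_eq_true hw1)
        · exact Or.inr (Nat.eq_of_beq_eq_true hw1)
  · rw [hc6, cond_true, Bool.and_eq_true, Bool.not_eq_true', ← Bool.not_eq_true,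
      Bool.and_eq_true, aO_iff, aD_iff] at hw
    left
    refine ⟨Nat.eq_of_beq_eq_true hc6, ?_, h1' hw.2⟩
    by_contra hno
    push Not at hno
    apply hw.1
    constructor
    · intro t ht
      rw [Bool.not_eq_true', ← Bool.not_eq_true]
      intro h3
      exact hno t (List.mem_append.2 (Or.inl ht)) (Nat.eq_of_beq_eq_true h3)
    · intro t ht
      rw [Bool.not_eq_true', ← Bool.not_eq_true]
      intro h3
      exact hno t (List.mem_append.2 (Or.inr ht)) (Nat.eq_of_beq_eq_true h3)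

/-- the data of a White move accepted by `wGo` -/
theorem wGo_ok {C : Ctx} {p k a b : Nat} (h : WF C p k) (ha : a < 400) (hw : wGo p a b = true) :
    b < 400 ∧ a ≠ b ∧ (1 ≤ cell p a ∧ cell p a ≤ 6) ∧
      (cell p b = 0 ∨ (9 ≤ cell p b ∧ cell p b ≤ 13)) := by
  have hstep : ∀ t ∈ orT ++ diT ++ knT, cell p a ≠ 15 → stp t a = b → b < 400 := by
    intro t ht hc he
    rw [← he]
    exact (stp_inner ht (inner_of_cell h ha hc)).1
  have hne : (1 ≤ cell p a ∧ cell p a ≤ 6) → (cell p b = 0 ∨ (9 ≤ cell p b ∧ cell p b ≤ 13)) →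
      a ≠ b := by
    intro h1 h2 h3
    rw [h3] at h1
    omega
  have hslide : ∀ t ∈ orT ++ diT, cell p a ≠ 15 → cell p b ≠ 15 → first p t 20 a = b →
      b < 400 := by
    intro t ht hc hcb he
    rw [← he] at hcb ⊢
    obtain ⟨n, hS⟩ := first_spec h ha hc ht hcb
    exact hS.lt
  rcases LG_cases hw with ⟨h1, ⟨t, ht, h2⟩, h3⟩ | ⟨h1, h2, h3⟩ | ⟨h1, h2, h3⟩ |
    ⟨h1, ⟨t, ht, h2⟩, h3⟩ | ⟨h1, ⟨t, ht, h2⟩, h3⟩ | ⟨h1, ⟨t, ht, h2⟩, h3⟩
  · exact ⟨hstep t (List.mem_append.2 (Or.inl ht)) (by omega) h2, hne (by omega) h3, by omega, h3⟩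
  · exact ⟨hstep 62 (by decide) (by omega) h2, hne (by omega) (Or.inl h3), by omega, Or.inl h3⟩
  · refine ⟨?_, hne (by omega) (Or.inr h3), by omega, Or.inr h3⟩
    rcases h2 with h2 | h2
    · exact hstep 63 (by decide) (by omega) h2
    · exact hstep 61 (by decide) (by omega) h2
  · exact ⟨hstep t (List.mem_append.2 (Or.inr ht)) (by omega) h2, hne (by omega) h3, by omega, h3⟩
  · exact ⟨hslide t (List.mem_append.2 (Or.inl ht)) (by omega) (by omega) h2,
      hne (by omega) (Or.inr h3), by omega, Or.inr h3⟩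
  · exact ⟨hslide t (List.mem_append.2 (Or.inr ht)) (by omega) (by omega) h2,
      hne (by omega) (Or.inr h3), by omega, Or.inr h3⟩

theorem LG_dec_hostile {c : Nat} (hc : 9 ≤ c ∧ c ≤ 13) :
    ∃ t : Man, dec c = some t ∧ t.1 = !true ∧ t.2 ≠ Kind.king := by
  obtain ⟨h1, h2⟩ := hc
  interval_cases c <;> simp [dec]

/-- LG: a move of a piece other than a pawn -/
theorem LG_go {C : Ctx} {p a b : Nat} (ha : a < 400) (hb : b < 400) (hca : cell p a ≠ 15)
    (hcb : cell p b = 0 ∨ (9 ≤ cell p b ∧ cell p b ≤ 13)) {m : Man} (hm : dec (cell p a) = some m)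
    (hw : m.1 = true) (hp : m.2 ≠ Kind.pawn)
    (hA : ManAttacks (C.brd p) m (sq C.o a) (sq C.o b)) :
    CanGo (C.brd p) true (sq C.o a) (sq C.o b) := by
  refine ⟨m, (brd_sq C ha hca).trans hm, hw, ?_⟩
  rcases hcb with h0 | h9
  · left
    refine ⟨?_, ?_⟩
    · rw [brd_sq C hb (by omega), h0]
      rfl
    · rw [if_neg hp]
      exact hA
  · right
    refine ⟨?_, hA⟩
    rw [brd_sq C hb (by omega)]
    exact LG_dec_hostile h9

/-- a White move accepted by `wGo` is possible on the board -/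
theorem wGo_sound {C : Ctx} (hC : C.Ok) {p k a b : Nat} (h : WF C p k) (ha : a < 400)
    (hw : wGo p a b = true) : CanGo (C.brd p) true (sq C.o a) (sq C.o b) := by
  obtain ⟨hb, hne, hca, hcb⟩ := wGo_ok h ha hw
  have hca' : cell p a ≠ 15 := by omega
  have hin := inner_of_cell h ha hca'
  have hstep : ∀ t ∈ orT ++ diT ++ knT, stp t a = b → sq C.o b - sq C.o a = vec t := by
    intro t ht he
    rw [← he, (stp_inner ht hin).2 C.o]
    abel
  have hslide : ∀ t ∈ orT ++ diT, cell p b ≠ 15 → first p t 20 a = b → ∀ ds : List Sq,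
      vec t ∈ ds → Slides (C.brd p) ds (sq C.o a) (sq C.o b) := by
    intro t ht hcb he ds hds
    rw [← he] at hcb ⊢
    obtain ⟨n, hS⟩ := first_spec h ha hca' ht hcb
    exact ⟨vec t, hds, n, hS.pos, hS.eq, fun l hl hln => hS.LD_clear l hl hln⟩
  rcases LG_cases hw with ⟨h1, ⟨t, ht, h2⟩, h3⟩ | ⟨h1, h2, h3⟩ | ⟨h1, h2, h3⟩ |
    ⟨h1, ⟨t, ht, h2⟩, h3⟩ | ⟨h1, ⟨t, ht, h2⟩, h3⟩ | ⟨h1, ⟨t, ht, h2⟩, h3⟩
  · refine LG_go ha hb hca' hcb (m := (true, Kind.king)) (by rw [h1]; rfl) rfl (by decide) ?_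
    have h4 : sq C.o b - sq C.o a ∈ orthDirs ++ diagDirs := by
      rw [hstep t (List.mem_append.2 (Or.inl ht)) h2]
      rcases List.mem_append.1 ht with h5 | h5
      · exact List.mem_append.2 (Or.inl (vec_or h5))
      · exact List.mem_append.2 (Or.inr (vec_di h5))
    exact h4
  · refine ⟨(true, Kind.pawn), ?_, rfl, ?_⟩
    · rw [brd_sq C ha hca', h1]
      rfl
    · left
      refine ⟨?_, ?_⟩
      · rw [brd_sq C hb (by omega), h3]
        rfl
      · rw [if_pos rfl, hstep 62 (by decide) h2]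
        decide
  · refine ⟨(true, Kind.pawn), ?_, rfl, ?_⟩
    · rw [brd_sq C ha hca', h1]
      rfl
    · right
      refine ⟨?_, ?_⟩
      · rw [brd_sq C hb (by omega)]
        exact LG_dec_hostile h3
      · have h4 : sq C.o b - sq C.o a = (1, fwd true) ∨ sq C.o b - sq C.o a = (-1, fwd true) := by
          rcases h2 with h2 | h2
          · left
            rw [hstep 63 (by decide) h2]
            decide
          · right
            rw [hstep 61 (by decide) h2]
            decide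
        exact h4
  · refine LG_go ha hb hca' hcb (m := (true, Kind.knight)) (by rw [h1]; rfl) rfl (by decide) ?_
    have h4 : sq C.o b - sq C.o a ∈ knightJumps := by
      rw [hstep t (List.mem_append.2 (Or.inr ht)) h2]
      exact vec_kn ht
    exact h4
  · refine LG_go ha hb hca' hcb (m := (true, Kind.rook)) (by rw [h1]; rfl) rfl (by decide) ?_
    exact hslide t (List.mem_append.2 (Or.inl ht)) (by omega) h2 orthDirs (vec_or ht)
  · refine LG_go ha hb hca' hcb (m := (true, Kind.bishop)) (by rw [h1]; rfl) rfl (by decide) ?_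
    exact hslide t (List.mem_append.2 (Or.inr ht)) (by omega) h2 diagDirs (vec_di ht)

/-- a White reply accepted by `wOk` is legal -/
theorem wOk_sound {C : Ctx} (hC : C.Ok) {p k a b : Nat} (h : WF C p k) (ha : a < 400)
    (hw : wOk C.R p k a b = true) : Legal (C.brd p) true (sq C.o a) (sq C.o b) ∧
      C.brd (mv p a b) = (C.brd p).move (sq C.o a) (sq C.o b) ∧ WF C (mv p a b) (newK k a b) ∧
      safe C.R (mv p a b) (newK k a b) = true := by
  unfold wOk at hw
  rw [Bool.and_eq_true] at hw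
  obtain ⟨hb, hne, hca, hcb⟩ := wGo_ok h ha hw.1
  have h1 := brd_mv C h ha hb hne (by omega) (by omega)
  have h2 := wf_mv h ha hb hca hcb
  refine ⟨⟨wGo_sound hC h ha hw.1, ?_⟩, h1, h2, hw.2⟩
  rw [← h1]
  exact safe_noCheck hC h2 hw.2

end Pool.Agent.Lib.H32C.Loc
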