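import Pool.Agent.Lib.H32C.Bisim
import Pool.Agent.Lib.H32C.LocDef

/-!
# Chunk LH1: general facts on values, rooms, certificates
-/

set_option autoImplicit false

namespace Pool.Agent.Lib.H32C.Loc

/-- the condition of the room holds on all boards described by patches in the same context, if it holds
on one of them -/
theorem Room.G_brd {C : Ctx} (R : Room) (hR : R.Sep C) {p q : Nat} (h : R.G (C.brd p)) :
    R.G (C.brd q) := by
  refine R.dep _ _ (fun s hs => ?_) h
  have h1 : ¬ InB C.o s := fun hi => hR.patch s hi hs
  have h2 : ∀ r : Nat, C.brd r s = C.F s := by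
    intro r
    unfold Ctx.brd
    rw [if_neg (fun h => h1 h.1)]
    have h3 : C.R.find? (fun ρ => decide (s = C.f ρ.e ∧ cell r ρ.e = 8)) = none := by
      rw [List.find?_eq_none]
      intro ρ hρ
      simp only [decide_eq_true_eq, not_and]
      intro h4
      exact absurd (h4 ▸ hs) (hR.far ρ hρ)
    rw [h3]
  rw [h2 p, h2 q]

/-- A position with White to move is won if a reply leads to a won position. -/
theorem hasValue_white {B : Board} {a b : Sq} (hl : Legal B true a b)
    (h : HasValue ⟨B.move a b, false⟩) : HasValue ⟨B, true⟩ := by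
  obtain ⟨α, hα⟩ := h
  exact ⟨α + 1, ValLE.white rfl ⟨a, b, hl, rfl⟩ hα le_rfl⟩

/-- A position with Black to move is won if Black has a legal move and all legal moves lead to won
positions. (Use `Ordinal` suprema: `BddAbove` is automatic for families indexed by pairs of squares.) -/
theorem hasValue_black {B : Board} (hex : ∃ a b, Legal B false a b)
    (h : ∀ a b, Legal B false a b → HasValue ⟨B.move a b, true⟩) : HasValue ⟨B, false⟩ := by
  classical
  let f : Sq × Sq → Ordinal.{0} := fun x =>
    if hx : Legal B false x.1 x.2 then (h x.1 x.2 hx).choose else 0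
  have hf : ∀ x : Sq × Sq, Legal B false x.1 x.2 → ValLE ⟨B.move x.1 x.2, true⟩ (f x) := by
    intro x hx
    simp only [f, dif_pos hx]
    exact (h x.1 x.2 hx).choose_spec
  refine ⟨⨆ x, f x, ValLE.black rfl ?_ ?_⟩
  · obtain ⟨a, b, hab⟩ := hex
    exact ⟨_, a, b, hab, rfl⟩
  · rintro q ⟨a, b, hab, rfl⟩
    exact (hf (a, b) hab).mono (Ordinal.le_iSup f (a, b))

/-- the cells named in a certificate are cells of the patch (needed for `wGo_sound`) -/
def Tr.Small : Tr → Prop
  | Tr.exit _ => True
  | Tr.nil => True
  | Tr.cons a _ sub rest => a < 400 ∧ Tr.Small sub ∧ Tr.Small rest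

/-- a computable version of `Tr.Small` -/
noncomputable def Tr.small : Tr → Bool :=
  Tr.rec (fun _ => true) true (fun a _ _ _ ihs ihr => Nat.blt a 400 && (ihs && ihr))

theorem Tr.small_iff (t : Tr) : Tr.small t = true ↔ t.Small := by
  induction t with
  | exit i => exact ⟨fun _ => trivial, fun _ => rfl⟩
  | nil => exact ⟨fun _ => trivial, fun _ => rfl⟩
  | cons a b sub rest ihs ihr =>
    have h1 : Tr.small (Tr.cons a b sub rest) =
        (Nat.blt a 400 && (Tr.small sub && Tr.small rest)) := rfl
    rw [h1]
    unfold Tr.Small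
    rw [Bool.and_eq_true, Bool.and_eq_true, ihs, ihr, Nat.blt_eq]


end Pool.Agent.Lib.H32C.Loc
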