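import Pool.Agent.Lib.H32C.LocF7
import Pool.Agent.Lib.H32C.LocG
import Pool.Agent.Lib.H32C.LocH1

/-!
# Chunk LH2: soundness of certificates
-/

set_option autoImplicit false

namespace Pool.Agent.Lib.H32C.Loc

theorem LH2_beq {a b : Nat} : Nat.beq a b = true ↔ a = b :=
  ⟨Nat.eq_of_beq_eq_true, fun h => h ▸ Nat.beq_refl a⟩

theorem LH2_blt {m : Nat} (h : Nat.blt 0 m = true) : m ≠ 0 := by
  rintro rfl
  cases h

theorem LH2_nth_nil (i : Nat) : nth [] i = 0 := rfl

theorem LH2_nth_cons_zero (x : Nat) (L : List Nat) : nth (x :: L) 0 = x := rfl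

theorem LH2_nth_cons_succ (x : Nat) (L : List Nat) (i : Nat) : nth (x :: L) (i + 1) = nth L i := rfl

theorem LH2_nth {X : List Nat} : ∀ i : Nat, nth X i ≠ 0 → nth X i ∈ X := by
  induction X with
  | nil => intro i h; exact absurd (LH2_nth_nil i) h
  | cons x L ih =>
    intro i h
    cases i with
    | zero =>
      rw [LH2_nth_cons_zero]
      exact List.mem_cons_self
    | succ i =>
      rw [LH2_nth_cons_succ] at h ⊢
      exact List.mem_cons_of_mem _ (ih i h)

theorem LH2_ne_zero {C : Ctx} {p k : Nat} (h : WF C p k) : p ≠ 0 := by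
  rintro rfl
  have h1 := h.king
  have h2 : cell 0 k = 0 := by
    unfold cell
    simp
  rw [h2] at h1
  cases h1

theorem LH2_exit (R : List Ray) (X : List Nat) (i p k : Nat) (L : List Nat) :
    chk R X (Tr.exit i) p k L = Nat.beq (nth X i) p := rfl

theorem LH2_nil_cons (R : List Ray) (X : List Nat) (p k m : Nat) (L : List Nat) :
    chk R X Tr.nil p k (m :: L) = (Nat.blt 0 m &&
      (safe R (mvb R p (Nat.div m 400) (Nat.mod m 400)) k && chk R X Tr.nil p k L)) := rfl

theorem LH2_cons_nil (R : List Ray) (X : List Nat) (a b : Nat) (sub rest : Tr) (p k : Nat) :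
    chk R X (Tr.cons a b sub rest) p k [] = false := rfl

theorem LH2_cons_cons (R : List Ray) (X : List Nat) (a b : Nat) (sub rest : Tr) (p k m : Nat)
    (L : List Nat) :
    chk R X (Tr.cons a b sub rest) p k (m :: L) = cond (Nat.beq 0 m) false
      (cond (safe R (mvb R p (Nat.div m 400) (Nat.mod m 400)) k)
        (chk R X (Tr.cons a b sub rest) p k L)
        (wOk R (mvb R p (Nat.div m 400) (Nat.mod m 400)) k a b &&
              (chk R X sub (mv (mvb R p (Nat.div m 400) (Nat.mod m 400)) a b) (newK k a b)
                (checks R false (mv (mvb R p (Nat.div m 400) (Nat.mod m 400)) a b)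
                  (newK k a b)) &&
              chk R X rest p k L))) := rfl

/-- the cases of a certificate which is a list of replies -/
theorem LH2_cons {R : List Ray} {X : List Nat} {a b : Nat} {sub rest : Tr} {p k m : Nat}
    {L : List Nat} (h : chk R X (Tr.cons a b sub rest) p k (m :: L) = true) :
    m ≠ 0 ∧ ((safe R (mvb R p (m / 400) (m % 400)) k = true ∧
        chk R X (Tr.cons a b sub rest) p k L = true) ∨
      (wOk R (mvb R p (m / 400) (m % 400)) k a b = true ∧
        chk R X sub (mv (mvb R p (m / 400) (m % 400)) a b) (newK k a b)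
                (checks R false (mv (mvb R p (m / 400) (m % 400)) a b) (newK k a b)) = true ∧
        chk R X rest p k L = true)) := by
  rw [LH2_cons_cons] at h
  have e1 : Nat.div m 400 = m / 400 := rfl
  have e2 : Nat.mod m 400 = m % 400 := rfl
  rw [e1, e2] at h
  by_cases hm : m = 0
  · subst hm
    exact absurd h Bool.false_ne_true
  · have hb : Nat.beq 0 m = false := by
      rw [Bool.eq_false_iff, ne_eq, LH2_beq]
      exact fun hh => hm hh.symm
    rw [hb] at h
    refine ⟨hm, ?_⟩
    by_cases hs : safe R (mvb R p (m / 400) (m % 400)) k = true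
    · left
      rw [hs] at h
      exact ⟨hs, h⟩
    · right
      rw [Bool.not_eq_true] at hs
      rw [hs] at h
      have h' : (wOk R (mvb R p (m / 400) (m % 400)) k a b &&
              (chk R X sub (mv (mvb R p (m / 400) (m % 400)) a b) (newK k a b)
                (checks R false (mv (mvb R p (m / 400) (m % 400)) a b)
                  (newK k a b)) &&
              chk R X rest p k L)) = true := h
      rw [Bool.and_eq_true, Bool.and_eq_true] at h'
      exact h'

theorem LH2_zero (R : List Ray) (X : List Nat) (tr : Tr) : ∀ (p k : Nat) (L : List Nat),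
    (∀ i, tr ≠ Tr.exit i) → chk R X tr p k L = true → (∃ i, nth X i = p) ∨ 0 ∉ L := by
  induction tr with
  | exit i => intro p k L h _; exact absurd rfl (h i)
  | nil =>
    intro p k L _ hc
    right
    induction L with
    | nil => exact List.not_mem_nil
    | cons m L ih =>
      rw [LH2_nil_cons, Bool.and_eq_true, Bool.and_eq_true] at hc
      intro h0
      rcases List.mem_cons.1 h0 with h1 | h1
      · exact LH2_blt hc.1 h1.symm
      · exact ih hc.2.2 h1
  | cons a b sub rest _ ihr =>
    intro p k L hne hc
    induction L with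
    | nil => exact Or.inr List.not_mem_nil
    | cons m L ih =>
      obtain ⟨hm, hc⟩ := LH2_cons hc
      have key : (∃ i, nth X i = p) ∨ 0 ∉ L := by
        rcases hc with ⟨_, hc⟩ | ⟨_, _, hc⟩
        · exact ih hc
        · by_cases hr : ∃ i, rest = Tr.exit i
          · obtain ⟨i, rfl⟩ := hr
            rw [LH2_exit, LH2_beq] at hc
            exact Or.inl ⟨i, hc⟩
          · push Not at hr
            exact ihr p k L hr hc
      rcases key with key | key
      · exact Or.inl key
      · right
        intro h0
        rcases List.mem_cons.1 h0 with h1 | h1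
        · exact hm h1.symm
        · exact key h1

/-- Black to move: all checks are dealt with -/
theorem LH2_black {C : Ctx} (hC : C.Ok) (R : Room) (hR : R.Sep C) {p k : Nat} (h : WF C p k)
    (hG : R.G (C.brd p)) (hs : safe C.R p k = true) (sp : Bool) (h0 : 0 ∉ checks C.R sp p k)
    (hm : ∀ m ∈ checks C.R sp p k, safe C.R (mvb C.R p (m / 400) (m % 400)) k = true ∨
      HasValue ⟨C.brd (mvb C.R p (m / 400) (m % 400)), true⟩)
    (hfar : sp = true → ∀ a b, Legal (C.brd p) false a b → InCheck ((C.brd p).move a b) true →
      HasValue ⟨(C.brd p).move a b, true⟩) :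
    HasValue ⟨C.brd p, false⟩ := by
  have hK := kingAt hC h
  have hZ : sq C.o k ∉ R.Z := hR.patch _ (inB_sq C.o h.lt)
  apply hasValue_black (R.legal _ _ hG (oneBK hC h) hK hZ)
  intro a b hl
  by_cases hc : InCheck ((C.brd p).move a b) true
  · rcases checks_complete hC h hs sp h0 a b hl hc with
      ⟨m, hm1, hm2, hm3⟩ | ⟨h1, -⟩ | ⟨h1, -⟩ | ⟨h1, -⟩
    · have hb := Is.brd hC h hm2 hm3
      rcases hm m hm1 with h3 | h3
      · exfalso
        have h4 := safe_noCheck hC (wf_mvb hC h hm3) h3
        rw [hb] at h4
        exact h4 hc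
      · rw [hb] at h3
        exact h3
    · exact hfar h1 a b hl hc
    · exact hfar h1 a b hl hc
    · exact hfar h1 a b hl hc
  · exact R.mate _ _ a b hG (oneBK hC h) hK hZ hl hc

/-- **Soundness of certificates**, general form: `L` is any list of moves in the patch. -/
theorem chk_sound_list {C : Ctx} (hC : C.Ok) (R : Room) (hR : R.Sep C) (X : List Nat)
    (hX : ∀ x ∈ X, HasValue ⟨C.brd x, false⟩) (tr : Tr) : ∀ (htr : tr.Small) (p k : Nat)
    (L : List Nat) (h : WF C p k) (hG : R.G (C.brd p)) (hne : ∀ i, tr ≠ Tr.exit i)
    (hL : ∀ m ∈ L, m ≠ 0 → MoveOk p (m / 400) (m % 400))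
    (hc : chk C.R X tr p k L = true),
    p ∈ X ∨ ∀ m ∈ L, m ≠ 0 ∧ (safe C.R (mvb C.R p (m / 400) (m % 400)) k = true ∨
      HasValue ⟨C.brd (mvb C.R p (m / 400) (m % 400)), true⟩) := by
  induction tr with
  | exit i => intro _ p k L _ _ h _ _; exact absurd rfl (h i)
  | nil =>
    intro _ p k L h hG _ hL hc
    right
    clear hL
    induction L with
    | nil => intro m hm; exact absurd hm List.not_mem_nil
    | cons m L ih =>
      rw [LH2_nil_cons, Bool.and_eq_true, Bool.and_eq_true] at hc
      intro m' hm'
      rcases List.mem_cons.1 hm' with h1 | h1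
      · subst h1
        exact ⟨LH2_blt hc.1, Or.inl hc.2.1⟩
      · exact ih hc.2.2 m' h1
  | cons a b sub rest ihs ihr =>
    intro htr p k L h hG _ hL hc
    obtain ⟨ha, hsub, hrest⟩ := htr
    induction L with
    | nil => right; intro m hm; exact absurd hm List.not_mem_nil
    | cons m L ih =>
      have hL' : ∀ m ∈ L, m ≠ 0 → MoveOk p (m / 400) (m % 400) :=
        fun m' hm' => hL m' (List.mem_cons_of_mem _ hm')
      obtain ⟨hm, hc⟩ := LH2_cons hc
      have hmok := hL m List.mem_cons_self hm
      have key : (p ∈ X ∨ ∀ m ∈ L, m ≠ 0 ∧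
          (safe C.R (mvb C.R p (m / 400) (m % 400)) k = true ∨
          HasValue ⟨C.brd (mvb C.R p (m / 400) (m % 400)), true⟩)) ∧
          (safe C.R (mvb C.R p (m / 400) (m % 400)) k = true ∨
          HasValue ⟨C.brd (mvb C.R p (m / 400) (m % 400)), true⟩) := by
        rcases hc with ⟨hs, hc⟩ | ⟨hw, hcs, hcr⟩
        · exact ⟨ih hL' hc, Or.inl hs⟩
        · constructor
          · by_cases hr : ∃ i, rest = Tr.exit i
            · obtain ⟨i, rfl⟩ := hr
              rw [LH2_exit, LH2_beq] at hcr
              left
              rw [← hcr]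
              apply LH2_nth
              rw [hcr]
              exact LH2_ne_zero h
            · push Not at hr
              exact ihr hrest p k L h hG hr hL' hcr
          · right
            have hq := wf_mvb hC h hmok
            obtain ⟨hl, hb, hwf, hsafe⟩ := wOk_sound hC hq ha hw
            refine hasValue_white hl ?_
            rw [← hb]
            by_cases hr : ∃ i, sub = Tr.exit i
            · obtain ⟨i, rfl⟩ := hr
              rw [LH2_exit, LH2_beq] at hcs
              apply hX
              rw [← hcs]
              apply LH2_nth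
              rw [hcs]
              exact LH2_ne_zero hwf
            · push Not at hr
              have hG' : R.G (C.brd (mv (mvb C.R p (m / 400) (m % 400)) a b)) :=
                Room.G_brd R hR hG
              rcases LH2_zero C.R X sub _ _ _ hr hcs with ⟨i, hi⟩ | h0
              · apply hX
                rw [← hi]
                apply LH2_nth
                rw [hi]
                exact LH2_ne_zero hwf
              · rcases ihs hsub _ _ _ hwf hG' hr
                  (fun m' hm' _ => checks_ok hwf false h0 hm') hcs with h1 | h1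
                · exact hX _ h1
                · exact LH2_black hC R hR hwf hG' hsafe false h0
                    (fun m' hm' => (h1 m' hm').2) (fun hh => absurd hh Bool.false_ne_true)
      obtain ⟨k1, k2⟩ := key
      rcases k1 with k1 | k1
      · exact Or.inl k1
      · right
        intro m' hm'
        rcases List.mem_cons.1 hm' with h1 | h1
        · subst h1
          exact ⟨hm, k2⟩
        · exact k1 m' h1

/-- common part of the two soundness theorems -/
theorem LH2_sound {C : Ctx} (hC : C.Ok) (R : Room) (hR : R.Sep C) (X : List Nat)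
    (hX : ∀ x ∈ X, HasValue ⟨C.brd x, false⟩) (tr : Tr) (htr : tr.Small)
    (hne : ∀ i, tr ≠ Tr.exit i) (p k : Nat) (h : WF C p k) (hG : R.G (C.brd p))
    (hs : safe C.R p k = true) (sp : Bool)
    (hc : chk C.R X tr p k (checks C.R sp p k) = true)
    (hfar : sp = true → ∀ a b, Legal (C.brd p) false a b → InCheck ((C.brd p).move a b) true →
      HasValue ⟨(C.brd p).move a b, true⟩) :
    HasValue ⟨C.brd p, false⟩ := by
  rcases LH2_zero C.R X tr _ _ _ hne hc with ⟨i, hi⟩ | h0
  · apply hX
    rw [← hi]
    apply LH2_nth
    rw [hi]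
    exact LH2_ne_zero h
  · rcases chk_sound_list hC R hR X hX tr htr p k _ h hG hne
      (fun m' hm' _ => checks_ok h sp h0 hm') hc with h1 | h1
    · exact hX _ h1
    · exact LH2_black hC R hR h hG hs sp h0 (fun m' hm' => (h1 m' hm').2) hfar

/-- **Soundness of certificates.** -/
theorem chk_sound {C : Ctx} (hC : C.Ok) (R : Room) (hR : R.Sep C) (X : List Nat)
    (hX : ∀ x ∈ X, HasValue ⟨C.brd x, false⟩) (tr : Tr) (htr : tr.Small)
    (hne : ∀ i, tr ≠ Tr.exit i) (p k : Nat) (h : WF C p k) (hG : R.G (C.brd p))
    (hs : safe C.R p k = true) (hc : chk C.R X tr p k (checks C.R false p k) = true) :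
    HasValue ⟨C.brd p, false⟩ :=
  LH2_sound hC R hR X hX tr htr hne p k h hG hs false hc
    (fun hh => absurd hh Bool.false_ne_true)

end Pool.Agent.Lib.H32C.Loc
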