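import Pool.Agent.Lib.H32C.LocDef
import Pool.Agent.Lib.H32C.Sim

/-!
# Chunk LI1: two chess lemmas
-/

set_option autoImplicit false

namespace Pool.Agent.Lib.H32C.Loc

theorem LI1_slide (B : Board) {ds : List Sq} (hds : ∀ d ∈ ds, -d ∈ orthDirs ++ diagDirs)
    {κ s a b : Sq} (ha : Slides B ds s κ) (hn : ¬ Slides (B.move a b) ds s κ) :
    ∃ d ∈ orthDirs ++ diagDirs, ∃ n l : ℕ, 0 < l ∧ l < n ∧ s = κ + n • d ∧
      b = κ + l • d ∧ ∀ j : ℕ, 0 < j → j < n → B (κ + j • d) = none := by
  obtain ⟨d, hd, n, hn0, hκ, hcl⟩ := ha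
  have h1 : ∃ k : ℕ, 0 < k ∧ k < n ∧ (B.move a b) (s + k • d) ≠ none := by
    by_contra hcon
    push Not at hcon
    exact hn ⟨d, hd, n, hn0, hκ, fun k hk hkn => hcon k hk hkn⟩
  obtain ⟨k, hk, hkn, hne⟩ := h1
  have hb : s + k • d = b := by
    unfold Board.move at hne
    split_ifs at hne with h1 h2
    · exact absurd rfl hne
    · exact h2
    · exact absurd (hcl k hk hkn) hne
  have key : ∀ j : ℕ, j ≤ n → κ + j • (-d) = s + (n - j) • d := by
    intro j hj
    rw [hκ]
    have : (n - j : ℕ) • d = n • d - j • d := by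
      rw [eq_sub_iff_add_eq, ← add_smul, Nat.sub_add_cancel hj]
    rw [this, smul_neg]
    abel
  refine ⟨-d, hds d hd, n, n - k, by omega, by omega, ?_, ?_, ?_⟩
  · rw [key n le_rfl]; simp
  · rw [key (n - k) (by omega), ← hb]
    congr 2
    omega
  · intro j hj hjn
    rw [key j hjn.le]
    exact hcl _ (by omega) (by omega)

theorem LI1_neg1 : ∀ d ∈ orthDirs, -d ∈ orthDirs ++ diagDirs := by
  decide

theorem LI1_neg2 : ∀ d ∈ diagDirs, -d ∈ orthDirs ++ diagDirs := by
  decide

theorem LI1_neg3 : ∀ d ∈ orthDirs ++ diagDirs, -d ∈ orthDirs ++ diagDirs := by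
  decide

/-- a purely chess-theoretic lemma: White (king on `κ`) is in check by the piece `m` on `s`; a legal
White move of another piece captures on `s` or goes to a square between `s` and `κ`. -/
theorem reply_cases (B : Board) {κ s a b : Sq} {m : Man} (hκ : KingAt B κ) (hm : B s = some m)
    (hb : m.1 = false) (ha : ManAttacks B m s κ) (hl : Legal B true a b) :
    a = κ ∨ b = s ∨ (∃ d ∈ orthDirs ++ diagDirs, ∃ n l : ℕ, 0 < l ∧ l < n ∧ s = κ + n • d ∧
      b = κ + l • d ∧ ∀ j : ℕ, 0 < j → j < n → B (κ + j • d) = none) := by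
  by_cases hak : a = κ
  · exact Or.inl hak
  by_cases hbs : b = s
  · exact Or.inr (Or.inl hbs)
  right; right
  obtain ⟨⟨m', hm', hm'c, hgo⟩, hnc⟩ := hl
  have hbk : b ≠ κ := by
    rintro rfl
    rcases hgo with ⟨h1, -⟩ | ⟨⟨t, ht, -, htk⟩, -⟩
    · rw [hκ.1] at h1; cases h1
    · rw [hκ.1] at ht; cases ht; exact htk rfl
  have has : a ≠ s := by
    rintro rfl
    rw [hm] at hm'
    cases hm'
    rw [hb] at hm'c
    cases hm'c
  have hK : (B.move a b) κ = some (true, Kind.king) := by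
    unfold Board.move
    rw [if_neg (Ne.symm hak), if_neg (Ne.symm hbk)]
    exact hκ.1
  have hS : (B.move a b) s = some m := by
    unfold Board.move
    rw [if_neg (Ne.symm has), if_neg (Ne.symm hbs)]
    exact hm
  have hnat : ¬ ManAttacks (B.move a b) m s κ := fun h => hnc ⟨κ, s, m, hK, hS, by simp [hb], h⟩
  obtain ⟨mc, mk⟩ := m
  cases mk
  · exact absurd ha hnat
  · exact LI1_slide B LI1_neg3 ha hnat
  · exact LI1_slide B LI1_neg1 ha hnat
  · exact LI1_slide B LI1_neg2 ha hnat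
  · exact absurd ha hnat
  · exact absurd ha hnat

/-- lower bound: `q` results from White's only reply to a Black move -/
theorem ge_step {B : Board} {a b x y : Sq} {β : Ordinal.{0}} (hl : Legal B false a b)
    (hno : ¬ InCheck B false)
    (hu : ∀ x' y', Legal (B.move a b) true x' y' → x' = x ∧ y' = y)
    (h : GE ⟨(B.move a b).move x y, false⟩ β) : GE ⟨B, false⟩ β := by
  intro α hα hv
  cases hv with
  | mate h1 => exact hno h1.2.1
  | white ht _ _ _ => cases ht
  | black ht hex hall =>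
    have h2 := hall ⟨B.move a b, true⟩ ⟨a, b, hl, rfl⟩
    cases h2 with
    | mate h1 => exact absurd h1.1 (by simp)
    | black ht' _ _ => cases ht'
    | white ht' hm hq hab =>
      obtain ⟨x', y', hl', rfl⟩ := hm
      obtain ⟨rfl, rfl⟩ := hu x' y' hl'
      refine h _ ?_ hq
      exact lt_of_lt_of_le (Order.lt_add_one_iff.mpr le_rfl) (hab.trans hα.le)

end Pool.Agent.Lib.H32C.Loc
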