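import Pool.Agent.Lib.H32C.LocD

/-!
# Chunk LI2: White pieces other than the king
-/

set_option autoImplicit false

namespace Pool.Agent.Lib.H32C.Loc

/-- LI2: the far sliders are Black -/
theorem LI2_far {C : Ctx} (hC : C.Ok) {ρ : Ray} (hρ : ρ ∈ C.R) {M : Man} (h : dec ρ.k = some M) :
    M.1 = false := by
  have h1 : ρ.k = 11 ∨ ρ.k = 12 ∨ ρ.k = 13 := by
    rcases hC.kind ρ hρ with ⟨-, h1⟩ | ⟨-, h1⟩ <;> omega
  rcases h1 with h1 | h1 | h1 <;> rw [h1] at h <;> simp [dec] at h <;> rw [← h]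

/-- LI2: what a piece seen from the cell `i` in the direction `t` can be -/
theorem LI2_seen {C : Ctx} (hC : C.Ok) {p k i t : Nat} (h : WF C p k) (hi : i < 400)
    (hci : cell p i ≠ 15) (ht : t ∈ orT ++ diT) {m : ℕ} (hm : 0 < m) {M : Man}
    (hM : C.brd p (sq C.o i + m • vec t) = some M)
    (hcl : ∀ l : ℕ, 0 < l → l < m → C.brd p (sq C.o i + l • vec t) = none) (hw : M.1 = true) :
    fcode C.R p t i = 15 ∨ dec (fcode C.R p t i) = some M ∨ Quiet t M := by
  have hne : C.brd p (sq C.o i + m • vec t) ≠ none := by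
    rw [hM]
    exact Option.some_ne_none M
  rcases fcode_cases C.R p t i with ⟨h1, h7, h8⟩ | ⟨h1, -⟩ | ⟨h1, h78, ρ, hρ, he, htt⟩
  · by_cases h15 : cell p (first p t 20 i) = 15
    · exact Or.inl (h1.trans h15)
    · obtain ⟨n, hS⟩ := first_spec h hi hci ht h15
      have hmn := first_unique hC h hi hS ⟨h7, h8⟩ h15 hm hne hcl
      rw [hmn, hS.LD_brd h15] at hM
      right
      left
      rw [h1]
      exact hM
  · exact Or.inl h1
  · have h15 : cell p (first p t 20 i) ≠ 15 := by omega
    obtain ⟨n, hS⟩ := first_spec h hi hci ht h15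
    rw [← he, ← htt] at hS
    rw [← he] at h78
    rcases h78 with h7 | h8
    · have h9 := (first_mark7 hC h hρ hS h7 hm (by rw [htt]; exact hcl) (M := M)
        (by rw [htt]; exact hM)).2.2.2
      rw [htt] at h9
      exact Or.inr (Or.inr h9)
    · have h2 := first_mark8 hC h hρ hS h8 hm (by rw [htt]; exact hcl) (by rw [htt]; exact hne)
      obtain ⟨m', -, -, hk, -⟩ := mark8_sees hC h hi hρ hS h8
      rw [← h2, htt, hM] at hk
      have h3 := LI2_far hC hρ hk.symm
      rw [h3] at hw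
      exact absurd hw (by decide)

/-- LI2: no White slider, knight goes to `z` -/
theorem LI2_main {C : Ctx} (hC : C.Ok) {p k z sk : Nat} {cap : Bool} (h : WF C p k) (hz : z < 400)
    (hcz : cell p z ≠ 15) (hn : noW C.R p sk cap z = true)
    (hsk : sk ∈ orT ++ diT → ∀ m : ℕ, 0 < m →
      (∀ l : ℕ, 0 < l → l < m → C.brd p (sq C.o z + l • vec sk) = none) →
      ∀ M, C.brd p (sq C.o z + m • vec sk) = some M → M.1 = false)
    {a : Sq} {m : Man} (hm : C.brd p a = some m) (hw : m.1 = true) (hp : m.2 ≠ Kind.pawn)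
    (hA : ManAttacks (C.brd p) m a (sq C.o z)) : a = sq C.o k := by
  unfold noW at hn
  rw [Bool.and_eq_true, Bool.and_eq_true, Bool.and_eq_true, a8_iff, aO_iff, aD_iff] at hn
  obtain ⟨hkn, -, hor, hdi⟩ := hn
  have hkn' : ∀ t ∈ knT, cell p (stp t z) ≠ 2 ∧ cell p (stp t z) ≠ 15 := by
    intro t ht
    have h1 := hkn t ht
    have h2 : ∀ c < 16, (!msk 0x8004 c) = true → c ≠ 2 ∧ c ≠ 15 := by decide
    exact h2 _ (cell_lt _ _) h1
  have hor' : ∀ t ∈ orT, t = sk ∨ (fcode C.R p t z ≠ 4 ∧ fcode C.R p t z ≠ 5 ∧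
      fcode C.R p t z ≠ 15) := by
    intro t ht
    have h1 := hor t ht
    rw [Bool.or_eq_true] at h1
    rcases h1 with h1 | h1
    · exact Or.inl (Nat.eq_of_beq_eq_true h1)
    · have h2 : ∀ c < 16, (!msk 0x8030 c) = true → c ≠ 4 ∧ c ≠ 5 ∧ c ≠ 15 := by decide
      exact Or.inr (h2 _ LD_fcode_lt h1)
  have hdi' : ∀ t ∈ diT, t = sk ∨ (fcode C.R p t z ≠ 3 ∧ fcode C.R p t z ≠ 5 ∧
      fcode C.R p t z ≠ 15) := by
    intro t ht
    have h1 := hdi t ht
    rw [Bool.or_eq_true] at h1
    rcases h1 with h1 | h1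
    · exact Or.inl (Nat.eq_of_beq_eq_true h1)
    · have h2 : ∀ c < 16, (!msk 0x8028 c) = true → c ≠ 3 ∧ c ≠ 5 ∧ c ≠ 15 := by decide
      exact Or.inr (h2 _ LD_fcode_lt h1)
  obtain ⟨mc, mk⟩ := m
  simp only at hw hp
  subst hw
  have hslO : (mk = Kind.rook ∨ mk = Kind.queen) →
      Slides (C.brd p) orthDirs a (sq C.o z) → False := by
    intro hk hsl
    obtain ⟨d, hd, n, hn, hsx, hcl⟩ := LD_of_slides hsl
    obtain ⟨t, ht, hv⟩ := or_vec (LD_neg_orth hd)
    rw [← hv] at hsx hcl
    rw [hsx] at hm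
    rcases hor' t ht with h1 | ⟨a1, a2, a3⟩
    · rw [h1] at hm ht hcl
      have := hsk (List.mem_append.2 (Or.inl ht)) n hn hcl _ hm
      simp at this
    · rcases LI2_seen hC h hz hcz (List.mem_append.2 (Or.inl ht)) hn hm hcl rfl with h1 | h1 | h1
      · exact a3 h1
      · have h2 := LD_dec_inv LD_fcode_lt h1
        rcases hk with rfl | rfl
        · simp at h2
          exact a1 h2
        · simp at h2
          exact a2 h2
      · have h2 := LD_quiet h1
        rcases hk with rfl | rfl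
        · exact h2.2.2.1 ht rfl
        · exact h2.2.1 rfl
  have hslD : (mk = Kind.bishop ∨ mk = Kind.queen) →
      Slides (C.brd p) diagDirs a (sq C.o z) → False := by
    intro hk hsl
    obtain ⟨d, hd, n, hn, hsx, hcl⟩ := LD_of_slides hsl
    obtain ⟨t, ht, hv⟩ := di_vec (LD_neg_diag hd)
    rw [← hv] at hsx hcl
    rw [hsx] at hm
    rcases hdi' t ht with h1 | ⟨a1, a2, a3⟩
    · rw [h1] at hm ht hcl
      have := hsk (List.mem_append.2 (Or.inr ht)) n hn hcl _ hm
      simp at this
    · rcases LI2_seen hC h hz hcz (List.mem_append.2 (Or.inr ht)) hn hm hcl rfl with h1 | h1 | h1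
      · exact a3 h1
      · have h2 := LD_dec_inv LD_fcode_lt h1
        rcases hk with rfl | rfl
        · simp at h2
          exact a1 h2
        · simp at h2
          exact a2 h2
      · have h2 := LD_quiet h1
        rcases hk with rfl | rfl
        · exact h2.2.2.2 ht rfl
        · exact h2.2.1 rfl
  cases mk with
  | king => exact (kingAt hC h).2 a hm
  | queen =>
    have hA' : Slides (C.brd p) (orthDirs ++ diagDirs) a (sq C.o z) := hA
    rcases LD_slides_append hA' with h1 | h1
    · exact absurd h1 (hslO (Or.inr rfl))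
    · exact absurd h1 (hslD (Or.inr rfl))
  | rook => exact absurd hA (hslO (Or.inl rfl))
  | bishop => exact absurd hA (hslD (Or.inl rfl))
  | knight =>
    have hA' : sq C.o z - a ∈ knightJumps := hA
    obtain ⟨t, ht, hv⟩ := kn_vec (LD_neg_kn hA')
    obtain ⟨a1, a2⟩ := hkn' t ht
    have hsx : a = sq C.o z + vec t := by
      rw [hv]
      abel
    rw [hsx, LD_brd_stp h hz hcz (List.mem_append.2 (Or.inr ht)) a2] at hm
    have h2 := LD_dec_inv (cell_lt _ _) hm
    simp at h2
    exact absurd h2 a1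
  | pawn => exact absurd rfl hp

/-- LI2: no White piece other than the king goes to the empty cell `z` -/
theorem LI2_empty {C : Ctx} (hC : C.Ok) {p k z sk : Nat} (h : WF C p k) (hz : z < 400)
    (hcz : cell p z ≠ 15) (hd : dec (cell p z) = none) (hn : noW C.R p sk false z = true)
    (hsk : sk ∈ orT ++ diT → ∀ m : ℕ, 0 < m →
      (∀ l : ℕ, 0 < l → l < m → C.brd p (sq C.o z + l • vec sk) = none) →
      ∀ M, C.brd p (sq C.o z + m • vec sk) = some M → M.1 = false) (a : Sq)
    (hg : CanGo (C.brd p) true a (sq C.o z)) : a = sq C.o k := by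
  obtain ⟨m, hm, hw, hgo⟩ := hg
  rcases hgo with ⟨-, hgo⟩ | ⟨⟨t, ht, -⟩, -⟩
  · by_cases hp : m.2 = Kind.pawn
    · rw [if_pos hp] at hgo
      exfalso
      have hn' := hn
      unfold noW at hn'
      rw [Bool.and_eq_true, Bool.and_eq_true] at hn'
      have h2 : ∀ c < 16, (!msk 0x8002 c) = true → c ≠ 1 ∧ c ≠ 15 := by decide
      obtain ⟨a1, a2⟩ := h2 _ (cell_lt _ _) hn'.2.1
      have hsx : a = sq C.o z + vec 22 := by
        have h2 : vec 22 = -(0, fwd true) := by decide
        rw [h2, ← hgo]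
        abel
      rw [hsx, LD_brd_stp h hz hcz (by decide) a2] at hm
      obtain ⟨mc, mk⟩ := m
      simp only at hp hw
      subst hp hw
      have h3 := LD_dec_inv (cell_lt _ _) hm
      simp at h3
      exact a1 h3
    · rw [if_neg hp] at hgo
      exact LI2_main hC h hz hcz hn hsk hm hw hp hgo
  · rw [brd_sq C hz hcz, hd] at ht
    exact absurd ht (by simp)

/-- no White piece other than the king can capture on the cell `z`, which holds a Black piece -/
theorem noW_cap {C : Ctx} (hC : C.Ok) {p k z : Nat} (h : WF C p k) (hz : z < 400)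
    (hcz : 9 ≤ cell p z ∧ cell p z ≤ 13) (hn : noW C.R p 0 true z = true) (a : Sq)
    (hg : CanGo (C.brd p) true a (sq C.o z)) : a = sq C.o k := by
  have hcz' : cell p z ≠ 15 := by omega
  obtain ⟨m, hm, hw, hgo⟩ := hg
  rcases hgo with ⟨hB, -⟩ | ⟨-, hgo⟩
  · rw [brd_sq C hz hcz'] at hB
    have h1 : ∀ c < 16, 9 ≤ c ∧ c ≤ 13 → dec c ≠ none := by
      intro c hc
      interval_cases c <;> simp [dec]
    exact absurd hB (h1 _ (cell_lt _ _) hcz)
  · by_cases hp : m.2 = Kind.pawn
    · exfalso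
      have hn' := hn
      unfold noW at hn'
      rw [Bool.and_eq_true, Bool.and_eq_true] at hn'
      have h2 : ∀ c < 16, (!msk 0x8002 c) = true → c ≠ 1 ∧ c ≠ 15 := by decide
      have h3 := hn'.2.1
      simp only [cond_true] at h3
      rw [Bool.and_eq_true] at h3
      obtain ⟨a1, a2⟩ := h2 _ (cell_lt _ _) h3.1
      obtain ⟨a3, a4⟩ := h2 _ (cell_lt _ _) h3.2
      obtain ⟨mc, mk⟩ := m
      simp only at hp hw
      subst hp hw
      have hA' : sq C.o z - a = (1, fwd true) ∨ sq C.o z - a = (-1, fwd true) := hgo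
      rcases hA' with h1 | h1
      · have hsx : a = sq C.o z + vec 21 := by
          have h2 : vec 21 = -(1, fwd true) := by decide
          rw [h2, ← h1]
          abel
        rw [hsx, LD_brd_stp h hz hcz' (by decide) a2] at hm
        have h3 := LD_dec_inv (cell_lt _ _) hm
        simp at h3
        exact a1 h3
      · have hsx : a = sq C.o z + vec 23 := by
          have h2 : vec 23 = -(-1, fwd true) := by decide
          rw [h2, ← h1]
          abel
        rw [hsx, LD_brd_stp h hz hcz' (by decide) a4] at hm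
        have h3 := LD_dec_inv (cell_lt _ _) hm
        simp at h3
        exact a3 h3
    · exact LI2_main (sk := 0) hC h hz hcz' hn (fun h0 => absurd h0 (by decide)) hm hw hp hgo

/-- no White piece other than the king can go to the empty cell `z` -/
theorem noW_empty {C : Ctx} (hC : C.Ok) {p k z : Nat} (h : WF C p k) (hz : z < 400)
    (hcz : cell p z = 0) (hn : noW C.R p 0 false z = true) (a : Sq)
    (hg : CanGo (C.brd p) true a (sq C.o z)) : a = sq C.o k :=
  LI2_empty (sk := 0) hC h hz (by omega) (by rw [hcz]; rfl) hn (fun h0 => absurd h0 (by decide)) a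
    hg

/-- no White piece other than the king can go to the mark of a ray on which there is a far slider -/
theorem noW_mark {C : Ctx} (hC : C.Ok) {p k : Nat} (h : WF C p k) {ρ : Ray} (hρ : ρ ∈ C.R)
    (hcz : cell p ρ.e = 8) (hn : noW C.R p ρ.t false ρ.e = true) (a : Sq)
    (hg : CanGo (C.brd p) true a (sq C.o ρ.e)) : a = sq C.o k := by
  refine LI2_empty (sk := ρ.t) hC h (inner_lt (hC.inner ρ hρ).1) (by omega) (by rw [hcz]; rfl) hn
    (fun _ m hm hcl M hM => ?_) a hg
  have h1 : ∀ m : ℕ, sq C.o ρ.e + m • vec ρ.t = C.ray ρ m := fun _ => rfl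
  rw [h1, brd_ray hC h hρ m hm] at hM
  split_ifs at hM with h2
  · exact LI2_far hC hρ hM
  · exfalso
    obtain ⟨n', hn', hf, hfe⟩ := hC.far ρ hρ
    rcases Nat.lt_or_ge n' m with h3 | h3
    · have h4 := hcl n' hn' h3
      rw [h1, brd_ray hC h hρ n' hn', if_pos ⟨hf.symm, hcz⟩] at h4
      have hk := LB_kind hC hρ
      exact LB_decne (by omega) (by omega) (by omega) (by omega) h4
    · rw [hfe m hm h3] at hM
      cases hM

end Pool.Agent.Lib.H32C.Loc
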