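import Pool.Agent.Lib.H32C.LocI1
import Pool.Agent.Lib.H32C.LocI2

/-!
# Chunk LI3: forced replies
-/

set_option autoImplicit false

namespace Pool.Agent.Lib.H32C.Loc

/-- the cell of the king is an inner cell -/
theorem LI3_kinner {C : Ctx} {p k : Nat} (h : WF C p k) : Inner k :=
  inner_of_cell h h.lt (by rw [h.king]; decide)

theorem LI3_noK_cases {R : List Ray} {p k t : Nat} (hn : noK R p k t = true) :
    (1 ≤ cell p (stp t k) ∧ cell p (stp t k) ≤ 6) ∨
      ((cell p (stp t k) = 0 ∨ 9 ≤ cell p (stp t k)) ∧ cell p (stp t k) ≤ 14 ∧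
        att R (mv p k (stp t k)) (stp t k) = true) := by
  have hlt := cell_lt p (stp t k)
  unfold noK at hn
  generalize cell p (stp t k) = c at hn hlt
  interval_cases c <;> revert hn <;> simp [msk]

theorem LI3_dec_white {c : Nat} (h1 : 1 ≤ c) (h6 : c ≤ 6) : ∃ m : Man, dec c = some m ∧ m.1 = true := by
  interval_cases c <;> exact ⟨_, rfl, rfl⟩

theorem LI3_dir_ne {t : Nat} (ht : t ∈ orT ++ diT) : vec t ≠ 0 := by
  simp only [orT, diT, List.cons_append, List.nil_append, List.mem_cons, List.not_mem_nil, or_false] at ht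
  rcases ht with rfl | rfl | rfl | rfl | rfl | rfl | rfl | rfl <;> decide

/-- the king has to go to `k'` -/
theorem onlyK_sound {C : Ctx} (hC : C.Ok) {p k k' : Nat} (h : WF C p k) (ho : onlyK C.R p k k' = true)
    (b : Sq) (hl : Legal (C.brd p) true (sq C.o k) b) : b = sq C.o k' := by
  have hki := LI3_kinner h
  have hK := kingAt hC h
  obtain ⟨⟨m, hm, hmc, hcan⟩, hchk⟩ := hl
  rw [hK.1] at hm
  obtain rfl : m = (true, Kind.king) := by simpa using hm.symm
  have hatt : b - sq C.o k ∈ orthDirs ++ diagDirs := by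
    rcases hcan with ⟨_, h2⟩ | ⟨_, h2⟩
    · simpa [ManAttacks] using h2
    · simpa [ManAttacks] using h2
  have hdest : ¬ ∃ t : Man, C.brd p b = some t ∧ t.1 = true := by
    rintro ⟨t, ht, ht1⟩
    rcases hcan with ⟨h2, _⟩ | ⟨⟨t', h2, h3, _⟩, _⟩
    · rw [h2] at ht; exact absurd ht (by simp)
    · rw [h2] at ht
      obtain rfl : t' = t := by simpa using ht
      rw [ht1] at h3
      exact absurd h3 (by decide)
  unfold onlyK at ho
  rw [Bool.and_eq_true, aO_iff, aD_iff] at ho
  have key : ∀ t ∈ orT ++ diT, vec t = b - sq C.o k →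
      (Nat.beq (stp t k) k' || noK C.R p k t) = true → b = sq C.o k' := by
    intro t ht hv hor
    obtain ⟨hlt, hsq⟩ := stp_inner (t := t) (by
      rw [List.mem_append]; exact Or.inl ht) hki
    have hsb : sq C.o (stp t k) = b := by
      rw [hsq C.o, hv]; abel
    rw [Bool.or_eq_true] at hor
    rcases hor with h1 | h1
    · rw [← Nat.eq_of_beq_eq_true h1, hsb]
    · exfalso
      rcases LI3_noK_cases h1 with ⟨h2, h3⟩ | ⟨h2, h3, h4⟩
      · apply hdest
        obtain ⟨m, hm, hm1⟩ := LI3_dec_white h2 h3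
        refine ⟨m, ?_, hm1⟩
        rw [← hsb, brd_sq C hlt (by omega), hm]
      · have h14 := h.noBK _ hlt
        have hcb : cell p (stp t k) = 0 ∨ (9 ≤ cell p (stp t k) ∧ cell p (stp t k) ≤ 13) := by omega
        have hne : k ≠ stp t k := by
          intro he
          have h5 := hsq C.o
          rw [← he] at h5
          exact LI3_dir_ne ht (by simpa using h5)
        have hwf := wf_mv h h.lt hlt (by rw [h.king]; decide) hcb
        have hnk : newK k k (stp t k) = stp t k := by
          unfold newK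
          rw [show Nat.beq k k = true from Nat.beq_refl k]
          rfl
        rw [hnk] at hwf
        have hbd := brd_mv C h h.lt hlt hne (by rw [h.king]; decide) (by omega)
        have := att_inCheck hC hwf h4
        rw [hbd, hsb] at this
        exact hchk this
  rcases List.mem_append.1 hatt with hd | hd
  · obtain ⟨t, ht, hv⟩ := or_vec hd
    exact key t (List.mem_append.2 (Or.inl ht)) hv (ho.1 t ht)
  · obtain ⟨t, ht, hv⟩ := di_vec hd
    exact key t (List.mem_append.2 (Or.inr ht)) hv (ho.2 t ht)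

theorem LI3_slides {C : Ctx} {p i t n j : Nat} (hS : Sees C p i t n j) {ds : List Sq}
    (hd : - vec t ∈ ds) : Slides (C.brd p) ds (sq C.o j) (sq C.o i) := by
  refine ⟨- vec t, hd, n, hS.pos, ?_, ?_⟩
  · rw [hS.eq, smul_neg]; abel
  · intro l hl hln
    obtain ⟨c, hc, hc0, hcs⟩ := hS.clear (n - l) (by omega) (by omega)
    have h1 : sq C.o j + l • (- vec t) = sq C.o c := by
      have h2 : n • vec t = (n - l) • vec t + l • vec t := by
        rw [← add_smul]; congr 1; omega
      rw [hS.eq, hcs, h2, smul_neg]; abel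
    rw [h1, brd_sq C hc (by omega), hc0]
    rfl

theorem LI3_neg_or {t : Nat} (h : t ∈ orT) : - vec t ∈ orthDirs := by
  simp only [orT, List.mem_cons, List.not_mem_nil, or_false] at h
  rcases h with rfl | rfl | rfl | rfl <;> decide

theorem LI3_neg_di {t : Nat} (h : t ∈ diT) : - vec t ∈ diagDirs := by
  simp only [diT, List.mem_cons, List.not_mem_nil, or_false] at h
  rcases h with rfl | rfl | rfl | rfl <;> decide

theorem LI3_neg_kn {t : Nat} (h : t ∈ knT) : - vec t ∈ knightJumps := by
  simp only [knT, List.mem_cons, List.not_mem_nil, or_false] at h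
  rcases h with rfl | rfl | rfl | rfl | rfl | rfl | rfl | rfl <;> decide

theorem LI3_beq_false {a b : Nat} (h : a ≠ b) : (!Nat.beq a b) = true := by
  rw [Bool.not_eq_true', ← Bool.not_eq_true, Nat.beq_eq]
  exact h

/-- what `hit` means -/
theorem LI3_hit_cases {p s k : Nat} (hh : hit p s k = true) (hcs : 9 ≤ cell p s ∧ cell p s ≤ 13) :
    (cell p s = 10 ∧ ∃ t ∈ knT, stp t k = s) ∨ (cell p s = 9 ∧ (stp 63 k = s ∨ stp 61 k = s)) ∨
      ((cell p s = 12 ∨ cell p s = 13) ∧ ∃ t ∈ orT, first p t 20 k = s) ∨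
      ((cell p s = 11 ∨ cell p s = 13) ∧ ∃ t ∈ diT, first p t 20 k = s) := by
  have ha8 : (!(a8 fun t => !Nat.beq (stp t k) s)) = true → ∃ t ∈ knT, stp t k = s := by
    intro h1
    by_contra hcon
    push Not at hcon
    rw [Bool.not_eq_true'] at h1
    have h2 := (a8_iff (fun t => !Nat.beq (stp t k) s)).2 (by
      intro t ht
      exact LI3_beq_false (hcon t ht))
    rw [h1] at h2
    exact absurd h2 (by decide)
  have haO : (!(aO fun t => !Nat.beq (first p t 20 k) s)) = true → ∃ t ∈ orT, first p t 20 k = s := by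
    intro h1
    by_contra hcon
    push Not at hcon
    rw [Bool.not_eq_true'] at h1
    have h2 := (aO_iff (fun t => !Nat.beq (first p t 20 k) s)).2 (by
      intro t ht
      exact LI3_beq_false (hcon t ht))
    rw [h1] at h2
    exact absurd h2 (by decide)
  have haD : (!(aD fun t => !Nat.beq (first p t 20 k) s)) = true → ∃ t ∈ diT, first p t 20 k = s := by
    intro h1
    by_contra hcon
    push Not at hcon
    rw [Bool.not_eq_true'] at h1
    have h2 := (aD_iff (fun t => !Nat.beq (first p t 20 k) s)).2 (by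
      intro t ht
      exact LI3_beq_false (hcon t ht))
    rw [h1] at h2
    exact absurd h2 (by decide)
  unfold hit at hh
  obtain ⟨hc9, hc13⟩ := hcs
  generalize cell p s = c at hh hc9 hc13 ⊢
  interval_cases c
  · right; left
    refine ⟨rfl, ?_⟩
    have h1 : (Nat.beq (stp 63 k) s || Nat.beq (stp 61 k) s) = true := hh
    rw [Bool.or_eq_true] at h1
    exact h1.imp Nat.eq_of_beq_eq_true Nat.eq_of_beq_eq_true
  · left
    exact ⟨rfl, ha8 hh⟩
  · right; right; right
    refine ⟨Or.inl rfl, haD ?_⟩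
    have h1 : ((false && !(aO fun t => !Nat.beq (first p t 20 k) s)) ||
        (true && !(aD fun t => !Nat.beq (first p t 20 k) s))) = true := hh
    rw [Bool.false_and, Bool.false_or, Bool.true_and] at h1
    exact h1
  · right; right; left
    refine ⟨Or.inl rfl, haO ?_⟩
    have h1 : ((true && !(aO fun t => !Nat.beq (first p t 20 k) s)) ||
        (false && !(aD fun t => !Nat.beq (first p t 20 k) s))) = true := hh
    rw [Bool.false_and, Bool.or_false, Bool.true_and] at h1
    exact h1
  · right; right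
    have h1 : ((true && !(aO fun t => !Nat.beq (first p t 20 k) s)) ||
        (true && !(aD fun t => !Nat.beq (first p t 20 k) s))) = true := hh
    rw [Bool.true_and, Bool.true_and, Bool.or_eq_true] at h1
    rcases h1 with h1 | h1
    · exact Or.inl ⟨Or.inr rfl, haO h1⟩
    · exact Or.inr ⟨Or.inr rfl, haD h1⟩

/-- the piece on `s` attacks `k` -/
theorem hit_sound {C : Ctx} (hC : C.Ok) {p k s : Nat} (h : WF C p k) (hs : s < 400)
    (hcs : 9 ≤ cell p s ∧ cell p s ≤ 13) (hh : hit p s k = true) :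
    ∃ m : Man, C.brd p (sq C.o s) = some m ∧ m.1 = false ∧
      ManAttacks (C.brd p) m (sq C.o s) (sq C.o k) := by
  have _ := hC
  have hki := LI3_kinner h
  have hbs := brd_sq C hs (by omega : cell p s ≠ 15)
  rcases LI3_hit_cases hh hcs with ⟨hc, t, ht, hst⟩ | ⟨hc, hst⟩ | ⟨hc, t, ht, hst⟩ | ⟨hc, t, ht, hst⟩
  · rw [hc] at hbs
    refine ⟨_, hbs, rfl, ?_⟩
    have hsq := (stp_inner (t := t) (List.mem_append.2 (Or.inr ht)) hki).2 C.o
    rw [hst] at hsq
    change sq C.o k - sq C.o s ∈ knightJumps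
    rw [hsq, show sq C.o k - (sq C.o k + vec t) = - vec t by abel]
    exact LI3_neg_kn ht
  · rw [hc] at hbs
    refine ⟨_, hbs, rfl, ?_⟩
    change sq C.o k - sq C.o s = (1, fwd false) ∨ sq C.o k - sq C.o s = (-1, fwd false)
    rcases hst with hst | hst
    · right
      have hsq := (stp_inner (t := 63) (by decide) hki).2 C.o
      rw [hst] at hsq
      rw [hsq, show sq C.o k - (sq C.o k + vec 63) = - vec 63 by abel]
      decide
    · left
      have hsq := (stp_inner (t := 61) (by decide) hki).2 C.o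
      rw [hst] at hsq
      rw [hsq, show sq C.o k - (sq C.o k + vec 61) = - vec 61 by abel]
      decide
  · have ht' : t ∈ orT ++ diT := List.mem_append.2 (Or.inl ht)
    obtain ⟨n, hS⟩ := first_spec h h.lt (by rw [h.king]; decide) ht' (by rw [hst]; omega)
    rw [hst] at hS
    rcases hc with hc | hc <;> rw [hc] at hbs
    · exact ⟨_, hbs, rfl, LI3_slides hS (LI3_neg_or ht)⟩
    · exact ⟨_, hbs, rfl, LI3_slides hS (List.mem_append.2 (Or.inl (LI3_neg_or ht)))⟩
  · have ht' : t ∈ orT ++ diT := List.mem_append.2 (Or.inr ht)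
    obtain ⟨n, hS⟩ := first_spec h h.lt (by rw [h.king]; decide) ht' (by rw [hst]; omega)
    rw [hst] at hS
    rcases hc with hc | hc <;> rw [hc] at hbs
    · exact ⟨_, hbs, rfl, LI3_slides hS (LI3_neg_di ht)⟩
    · exact ⟨_, hbs, rfl, LI3_slides hS (List.mem_append.2 (Or.inr (LI3_neg_di ht)))⟩

/-- the meaning of `noWs` -/
theorem LI3_noWs {C : Ctx} {p k t : Nat} (h : WF C p k) (ht : t ∈ orT ++ diT) (N : Nat) :
    ∀ (i l c : Nat), Inner i → noWs C.R p t N i = true → 0 < l → c < 400 → cell p c = 0 →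
      sq C.o c = sq C.o i + l • vec t →
      (∀ m : ℕ, 0 < m → m < l → ∃ c < 400, cell p c = 0 ∧ sq C.o c = sq C.o i + m • vec t) →
      noW C.R p 0 false c = true := by
  induction N with
  | zero => intro i l c _ h1; exact absurd h1 (by simp [noWs])
  | succ N ih =>
    intro i l c hi h1 hl hc hc0 hcs hcl
    have h2 : cond (Nat.beq (cell p (stp t i)) 0)
      (noW C.R p 0 false (stp t i) && noWs C.R p t N (stp t i)) true = true := h1
    obtain ⟨hlt, hsq⟩ := stp_inner (t := t) (List.mem_append.2 (Or.inl ht)) hi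
    have h3 : ∃ c₁ < 400, cell p c₁ = 0 ∧ sq C.o c₁ = sq C.o i + 1 • vec t := by
      rcases Nat.lt_or_ge 1 l with h4 | h4
      · exact hcl 1 one_pos h4
      · obtain rfl : l = 1 := by omega
        exact ⟨c, hc, hc0, hcs⟩
    obtain ⟨c₁, hc₁, hc₁0, hc₁s⟩ := h3
    have h5 : stp t i = c₁ := sq_inj C.o hlt hc₁ (by rw [hsq C.o, hc₁s, one_smul])
    rw [h5] at h2 hsq
    rw [hc₁0] at h2
    have h6 : (noW C.R p 0 false c₁ && noWs C.R p t N c₁) = true := h2
    rw [Bool.and_eq_true] at h6
    rcases Nat.lt_or_ge 1 l with h4 | h4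
    · refine ih c₁ (l - 1) c (inner_of_cell h hc₁ (by omega)) h6.2 (by omega) hc hc0 ?_ ?_
      · rw [hcs, hc₁s, add_assoc, ← add_smul]
        congr 2; omega
      · intro m hm hml
        obtain ⟨c', hc', hc'0, hc's⟩ := hcl (m + 1) (by omega) (by omega)
        refine ⟨c', hc', hc'0, ?_⟩
        rw [hc's, hc₁s, add_assoc, ← add_smul]
        congr 2; omega
    · obtain rfl : l = 1 := by omega
      have : c = c₁ := sq_inj C.o hc hc₁ (by rw [hcs, hc₁s])
      rw [this]; exact h6.1

/-- no White piece other than the king can go between the king and the first nonempty cell -/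
theorem LI3_between {C : Ctx} (hC : C.Ok) {p k t n j l : Nat} (h : WF C p k) (ht : t ∈ orT ++ diT)
    (hS : Sees C p k t n j) (hW : noWs C.R p t 20 k = true) (hl : 0 < l) (hln : l < n) (x : Sq)
    (hg : CanGo (C.brd p) true x (sq C.o k + l • vec t)) : x = sq C.o k := by
  obtain ⟨c, hc, hc0, hcs⟩ := hS.clear l hl hln
  have h1 := LI3_noWs h ht 20 k l c (LI3_kinner h) hW hl hc hc0 hcs
    (fun m hm hml => hS.clear m hm (by omega))
  rw [← hcs] at hg
  exact noW_empty hC h hc hc0 h1 x hg

/-- multiples of directions -/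
theorem LI3_dir_inj {d e : Sq} (hd : d ∈ orthDirs ++ diagDirs) (he : e ∈ orthDirs ++ diagDirs)
    {m n : ℕ} (hm : 0 < m) (hn : 0 < n) (h : m • d = n • e) : d = e ∧ m = n := by
  simp only [orthDirs, diagDirs, List.cons_append, List.nil_append, List.mem_cons,
    List.not_mem_nil, or_false] at hd he
  have h1 := congrArg Prod.fst h
  have h2 := congrArg Prod.snd h
  rcases hd with rfl | rfl | rfl | rfl | rfl | rfl | rfl | rfl <;>
    rcases he with rfl | rfl | rfl | rfl | rfl | rfl | rfl | rfl <;>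
      simp only [Prod.smul_mk, mul_zero, mul_one, nsmul_eq_mul, mul_neg] at h1 h2 <;>
        first
          | exact ⟨rfl, by omega⟩
          | (exfalso; omega)

theorem LI3_kn_dir {d e : Sq} (hd : d ∈ orthDirs ++ diagDirs) (he : e ∈ knightJumps)
    {m : ℕ} (h : m • d = e) : False := by
  simp only [orthDirs, diagDirs, List.cons_append, List.nil_append, List.mem_cons,
    List.not_mem_nil, or_false] at hd
  simp only [knightJumps, List.mem_cons, List.not_mem_nil, or_false] at he
  have h1 := congrArg Prod.fst h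
  have h2 := congrArg Prod.snd h
  rcases hd with rfl | rfl | rfl | rfl | rfl | rfl | rfl | rfl <;>
    rcases he with rfl | rfl | rfl | rfl | rfl | rfl | rfl | rfl <;>
      simp only [Prod.smul_mk, mul_zero, mul_one, nsmul_eq_mul, mul_neg] at h1 h2 <;>
        omega

theorem LI3_vec_dir {t : Nat} (ht : t ∈ orT ++ diT) : vec t ∈ orthDirs ++ diagDirs := by
  rcases List.mem_append.1 ht with h | h
  · exact List.mem_append.2 (Or.inl (vec_or h))
  · exact List.mem_append.2 (Or.inr (vec_di h))

theorem LI3_noI {R : List Ray} {p k b : Nat} (h : noI R p k b = true) {t : Nat}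
    (ht : t ∈ orT ++ diT) (hf : first p t 20 k = b) : noWs R p t 20 k = true := by
  unfold noI at h
  rw [Bool.and_eq_true, aO_iff, aD_iff] at h
  have h1 : cond (Nat.beq (first p t 20 k) b) (noWs R p t 20 k) true = true := by
    rcases List.mem_append.1 ht with h2 | h2
    · exact h.1 t h2
    · exact h.2 t h2
  rw [hf, show Nat.beq b b = true from Nat.beq_refl b] at h1
  exact h1

/-- White is in check by the Black piece on the cell `s`; the only possible legal move is `k → k'` -/
theorem only_sound {C : Ctx} (hC : C.Ok) {p k s k' : Nat} (h : WF C p k) (hs : s < 400)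
    (hcs : 9 ≤ cell p s ∧ cell p s ≤ 13) (ho : only C.R p k s k' = true) (x y : Sq)
    (hl : Legal (C.brd p) true x y) : x = sq C.o k ∧ y = sq C.o k' := by
  unfold only at ho
  rw [Bool.and_eq_true, Bool.and_eq_true, Bool.and_eq_true] at ho
  obtain ⟨hhit, hnoW, honlyK, hnoI⟩ := ho
  have hki := LI3_kinner h
  suffices hx : x = sq C.o k by
    refine ⟨hx, ?_⟩
    rw [hx] at hl
    exact onlyK_sound hC h honlyK y hl
  obtain ⟨m, hm, hmb, hatt⟩ := hit_sound hC h hs hcs hhit
  rcases reply_cases (C.brd p) (kingAt hC h) hm hmb hatt hl with h1 | h1 | h1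
  · exact h1
  · have hg := hl.1
    rw [h1] at hg
    exact noW_cap hC h hs hcs hnoW x hg
  · obtain ⟨d, hd, n, l, hl0, hln, hsd, hyd, _⟩ := h1
    have hslide : ∀ t ∈ orT ++ diT, first p t 20 k = s → x = sq C.o k := by
      intro t ht hf
      obtain ⟨n', hS⟩ := first_spec h h.lt (by rw [h.king]; decide) ht (by rw [hf]; omega)
      rw [hf] at hS
      have h2 : n • d = n' • vec t := by
        have h3 := hS.eq
        rw [hsd] at h3
        exact add_left_cancel h3
      obtain ⟨h4, h5⟩ := LI3_dir_inj hd (LI3_vec_dir ht) (by omega) hS.pos h2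
      have hg := hl.1
      rw [hyd, h4] at hg
      exact LI3_between hC h ht hS (LI3_noI hnoI ht hf) hl0 (by omega) x hg
    rcases LI3_hit_cases hhit hcs with ⟨_, t, ht, hst⟩ | ⟨_, hst⟩ | ⟨_, t, ht, hst⟩ | ⟨_, t, ht, hst⟩
    · exfalso
      have hsq := (stp_inner (t := t) (List.mem_append.2 (Or.inr ht)) hki).2 C.o
      rw [hst, hsd] at hsq
      exact LI3_kn_dir hd (vec_kn ht) (add_left_cancel hsq)
    · exfalso
      rcases hst with hst | hst
      · have hsq := (stp_inner (t := 63) (by decide) hki).2 C.o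
        rw [hst, hsd] at hsq
        have h2 : n • d = 1 • vec 63 := by rw [one_smul]; exact add_left_cancel hsq
        have := (LI3_dir_inj hd (LI3_vec_dir (t := 63) (by decide)) (by omega) one_pos h2).2
        omega
      · have hsq := (stp_inner (t := 61) (by decide) hki).2 C.o
        rw [hst, hsd] at hsq
        have h2 : n • d = 1 • vec 61 := by rw [one_smul]; exact add_left_cancel hsq
        have := (LI3_dir_inj hd (LI3_vec_dir (t := 61) (by decide)) (by omega) one_pos h2).2
        omega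
    · exact hslide t (List.mem_append.2 (Or.inl ht)) hst
    · exact hslide t (List.mem_append.2 (Or.inr ht)) hst

theorem LI3_onlyF {R : List Ray} {p k e t k' : Nat} (ho : onlyF R p k e t k' = true) :
    cell p e = 8 ∧ first p t 20 k = e ∧ onlyK R p k k' = true := by
  unfold onlyF at ho
  rw [Bool.and_eq_true, Bool.and_eq_true] at ho
  obtain ⟨⟨h1, h2⟩, h3⟩ := ho
  exact ⟨Nat.eq_of_beq_eq_true h1, Nat.eq_of_beq_eq_true h2, h3⟩

theorem LI3_ray_t {C : Ctx} (hC : C.Ok) {ρ : Ray} (hρ : ρ ∈ C.R) : ρ.t ∈ orT ++ diT := by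
  rcases hC.kind ρ hρ with ⟨h1, _⟩ | ⟨h1, _⟩
  · exact List.mem_append.2 (Or.inl h1)
  · exact List.mem_append.2 (Or.inr h1)

/-- the far slider attacks the king -/
theorem LI3_far_attacks {C : Ctx} (hC : C.Ok) {p k k' : Nat} (h : WF C p k) {ρ : Ray} (hρ : ρ ∈ C.R)
    (ho : onlyF C.R p k ρ.e ρ.t k' = true) : ∃ (n m' : ℕ) (m : Man),
      Sees C p k ρ.t n ρ.e ∧ C.f ρ.e = sq C.o k + m' • vec ρ.t ∧ 0 < m' ∧
      C.brd p (C.f ρ.e) = some m ∧ m.1 = false ∧ ManAttacks (C.brd p) m (C.f ρ.e) (sq C.o k) := by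
  obtain ⟨h8, hf, honlyK⟩ := LI3_onlyF ho
  have ht := LI3_ray_t hC hρ
  obtain ⟨n, hS⟩ := first_spec h h.lt (by rw [h.king]; decide) ht (by rw [hf, h8]; decide)
  rw [hf] at hS
  obtain ⟨m', hm', hfm, hbf, hcl⟩ := mark8_sees hC h h.lt hρ hS h8
  have hsl : ∀ ds : List Sq, - vec ρ.t ∈ ds → Slides (C.brd p) ds (C.f ρ.e) (sq C.o k) := by
    intro ds hds
    refine ⟨- vec ρ.t, hds, m', hm', ?_, ?_⟩
    · rw [hfm, smul_neg]; abel
    · intro l hl hlm
      have h1 : C.f ρ.e + l • (- vec ρ.t) = sq C.o k + (m' - l) • vec ρ.t := by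
        have h2 : m' • vec ρ.t = (m' - l) • vec ρ.t + l • vec ρ.t := by
          rw [← add_smul]; congr 1; omega
        rw [hfm, h2, smul_neg]; abel
      rw [h1]
      exact hcl _ (by omega) (by omega)
  rcases hC.kind ρ hρ with ⟨h1, h2 | h2⟩ | ⟨h1, h2 | h2⟩ <;> rw [h2] at hbf
  · exact ⟨n, m', _, hS, hfm, hm', hbf, rfl, hsl _ (LI3_neg_or h1)⟩
  · exact ⟨n, m', _, hS, hfm, hm', hbf, rfl, hsl _ (List.mem_append.2 (Or.inl (LI3_neg_or h1)))⟩
  · exact ⟨n, m', _, hS, hfm, hm', hbf, rfl, hsl _ (LI3_neg_di h1)⟩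
  · exact ⟨n, m', _, hS, hfm, hm', hbf, rfl, hsl _ (List.mem_append.2 (Or.inr (LI3_neg_di h1)))⟩

/-- the far slider gives check -/
theorem onlyF_check {C : Ctx} (hC : C.Ok) {p k k' : Nat} (h : WF C p k) {ρ : Ray} (hρ : ρ ∈ C.R)
    (ho : onlyF C.R p k ρ.e ρ.t k' = true) : InCheck (C.brd p) true := by
  obtain ⟨n, m', m, _, _, _, hm, hmb, hatt⟩ := LI3_far_attacks hC h hρ ho
  exact ⟨sq C.o k, C.f ρ.e, m, (kingAt hC h).1, hm, hmb, hatt⟩

/-- the same as `only_sound` for a check by the far slider, if no White piece other than the king can go to a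
square between the king and the far slider, nor to the square of the far slider -/
theorem onlyF_sound {C : Ctx} (hC : C.Ok) {p k k' : Nat} (h : WF C p k) {ρ : Ray} (hρ : ρ ∈ C.R)
    (hfar : ∀ (x : Sq) (l m : ℕ), C.f ρ.e = sq C.o k + m • vec ρ.t → 0 < l → l ≤ m →
      x ≠ sq C.o k → ¬ CanGo (C.brd p) true x (sq C.o k + l • vec ρ.t))
    (ho : onlyF C.R p k ρ.e ρ.t k' = true) (x y : Sq) (hl : Legal (C.brd p) true x y) :
    x = sq C.o k ∧ y = sq C.o k' := by
  obtain ⟨h8, hf, honlyK⟩ := LI3_onlyF ho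
  have ht := LI3_ray_t hC hρ
  suffices hx : x = sq C.o k by
    refine ⟨hx, ?_⟩
    rw [hx] at hl
    exact onlyK_sound hC h honlyK y hl
  obtain ⟨n₀, m', m, hS, hfm, hm', hm, hmb, hatt⟩ := LI3_far_attacks hC h hρ ho
  rcases reply_cases (C.brd p) (kingAt hC h) hm hmb hatt hl with h1 | h1 | h1
  · exact h1
  · by_contra hx
    have hg := hl.1
    rw [h1, hfm] at hg
    exact hfar x m' m' hfm hm' le_rfl hx hg
  · by_contra hx
    obtain ⟨d, hd, n, l, hl0, hln, hsd, hyd, _⟩ := h1
    have h2 : n • d = m' • vec ρ.t := by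
      rw [hsd] at hfm
      exact add_left_cancel hfm
    obtain ⟨h4, h5⟩ := LI3_dir_inj hd (LI3_vec_dir ht) (by omega) hm' h2
    have hg := hl.1
    rw [hyd, h4] at hg
    exact hfar x l m' hfm hl0 (by omega) hx hg

end Pool.Agent.Lib.H32C.Loc
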