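import Pool.Agent.Lib.H32C.LocH2
import Pool.Agent.Lib.H32C.LocK

/-!
# Chunk LK1: events
-/

set_option autoImplicit false

namespace Pool.Agent.Lib.H32C.Loc

theorem arr'_eq (p e : Nat) : arr' p e = arr p e := rfl

/-- A Black slider can go from `a` to the mark, coming from a direction `u`, different from that of the ray, in
which the patch ends. -/
def Edge' (C : Ctx) (p : Nat) (ρ : Ray) (a : Sq) : Prop :=
  ∃ u ∈ orT ++ diT, u ≠ ρ.t ∧ ¬ Inner (stp u ρ.e) ∧ ∃ l : ℕ, 0 < l ∧ a = sq C.o ρ.e + l • vec u ∧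
    (∀ i : ℕ, 0 < i → i < l → C.brd p (sq C.o ρ.e + i • vec u) = none) ∧
    ∃ κ, C.brd p a = some (false, κ) ∧
      (κ = Kind.queen ∨ (u ∈ orT ∧ κ = Kind.rook) ∨ (u ∈ diT ∧ κ = Kind.bishop))

/-- nobody comes along the ray itself, since its first man is quiet -/
theorem edge_edge' {C : Ctx} (hC : C.Ok) {p k : Nat} (h : WF C p k) {ρ : Ray} (hρ : ρ ∈ C.R)
    (h7 : cell p ρ.e = 7) {a : Sq} (hE : Edge C p ρ a) : Edge' C p ρ a := by
  obtain ⟨u, hu, hin, l, hl, ha, hcl, κ, hB, hκ⟩ := hE
  refine ⟨u, hu, ?_, hin, l, hl, ha, hcl, κ, hB, hκ⟩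
  intro hut
  subst hut
  have h8 : ¬ cell p ρ.e = 8 := by omega
  have hr : ∀ i : ℕ, sq C.o ρ.e + i • vec ρ.t = C.ray ρ i := fun _ => rfl
  have e1 : ∀ i : ℕ, 0 < i → C.brd p (C.ray ρ i) = C.F (C.ray ρ i) := by
    intro i hi
    rw [brd_ray hC h hρ i hi, if_neg (fun hh => h8 hh.2)]
  rw [ha, hr, e1 l hl] at hB
  have hq := hC.empty ρ hρ l hl (fun i hi hil => by rw [← e1 i hi, ← hr]; exact hcl i hi hil) _ hB
  obtain ⟨-, q1, q2, q3⟩ := LD_quiet hq
  rcases hκ with hk | ⟨ht, hk⟩ | ⟨ht, hk⟩
  · exact q1 hk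
  · exact q2 ht hk
  · exact q3 ht hk

/-! ### Masks and lists -/

theorem lk1_closedX {R : List Ray} {p m : Nat} : ∀ n, closedX R p m n = true →
    ∀ i < n, msk m (cell p i) = true → closed1 R p (cell p i) i = true := by
  intro n
  induction n with
  | zero => intro _ i hi; omega
  | succ n ih =>
    intro h i hi hm
    have h1 : (closedX R p m n && (!msk m (cell p n) || closed1 R p (cell p n) n)) = true := h
    rw [Bool.and_eq_true, Bool.or_eq_true] at h1
    rcases Nat.lt_or_ge i n with h2 | h2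
    · exact ih h1.1 i h2 hm
    · have h3 : i = n := by omega
      subst h3
      rcases h1.2 with h4 | h4
      · rw [hm] at h4
        cases h4
      · exact h4

theorem lk1_see7 {p k : Nat} {ρ : Ray} :
    see7 p k ρ = true ↔ cell p ρ.e = 7 ∧ first p ρ.t 20 k = ρ.e := by
  unfold see7
  rw [Bool.and_eq_true, LH2_beq, LH2_beq]

theorem lk1_seenM {p k : Nat} {ρ : Ray} (hs : see7 p k ρ = true) (c : Nat)
    (hc : (xM ρ.t).testBit c = true) : ∀ R : List Ray, ρ ∈ R → (seenM R p k).testBit c = true := by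
  intro R
  induction R with
  | nil => intro h; cases h
  | cons x R ih =>
    intro h
    have h1 : seenM (x :: R) p k = cond (see7 p k x) (Nat.lor (xM x.t) (seenM R p k))
        (seenM R p k) := rfl
    have h3 : ∀ a b : Nat, (Nat.lor a b).testBit c = (a.testBit c || b.testBit c) :=
      fun a b => Nat.testBit_or a b c
    rw [h1]
    rcases List.mem_cons.1 h with h2 | h2
    · subst h2
      rw [hs, cond_true, h3, hc, Bool.true_or]
    · cases see7 p k x with
      | true =>
        rw [cond_true, h3, ih h2, Bool.or_true]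
      | false =>
        rw [cond_false]
        exact ih h2

/-- the mask of the crossing sliders -/
theorem lk1_xM {t c : Nat} (h : (t ∈ orT ∧ c = 13) ∨ (t ∈ diT ∧ (c = 11 ∨ c = 13))) :
    (xM t).testBit c = true := by
  have h1 : ∀ t ∈ orT, xM t = 0x2000 := by decide
  have h2 : ∀ t ∈ diT, xM t = 0x2800 := by decide
  rcases h with ⟨ht, rfl⟩ | ⟨ht, rfl | rfl⟩
  · rw [h1 t ht]; decide
  · rw [h2 t ht]; decide
  · rw [h2 t ht]; decide

/-- a slider with a code in the mask sees nothing unknown -/
theorem lk1_closed {C : Ctx} {p k : Nat}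
    (hcl : seenM C.R p k = 0 ∨ closedX C.R p (seenM C.R p k) 400 = true) {ρ : Ray} (hρ : ρ ∈ C.R)
    (hsee : see7 p k ρ = true) {j u : Nat} (hj : j < 400)
    (hmv : (u ∈ orT ∧ (cell p j = 12 ∨ cell p j = 13)) ∨
      (u ∈ diT ∧ (cell p j = 11 ∨ cell p j = 13)))
    (hx : (ρ.t ∈ orT ∧ cell p j = 13) ∨ (ρ.t ∈ diT ∧ (cell p j = 11 ∨ cell p j = 13))) :
    fcode C.R p u j ≠ 15 := by
  have h1 := lk1_seenM hsee (cell p j) (lk1_xM hx) C.R hρ
  rcases hcl with h2 | h2
  · rw [h2] at h1
    simp at h1
  · have h3 := lk1_closedX 400 h2 j hj ((msk_iff _ _).2 h1)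
    unfold closed1 at h3
    rw [Bool.and_eq_true, Bool.or_eq_true, Bool.or_eq_true, aO_iff, aD_iff] at h3
    have h4 : ∀ c, (!Nat.beq c 15) = true → c ≠ 15 := by
      intro c h5 h6
      rw [h6] at h5
      exact absurd h5 (by decide)
    rcases hmv with ⟨hu, hc⟩ | ⟨hu, hc⟩
    · rcases h3.1 with h5 | h5
      · exfalso
        rcases hc with h6 | h6 <;> rw [h6] at h5 <;> exact absurd h5 (by decide)
      · exact h4 _ (h5 u hu)
    · rcases h3.2 with h5 | h5
      · exfalso
        rcases hc with h6 | h6 <;> rw [h6] at h5 <;> exact absurd h5 (by decide)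
      · exact h4 _ (h5 u hu)

/-! ### Lines leaving the patch -/

theorem lk1_ray_t {C : Ctx} (hC : C.Ok) {ρ : Ray} (hρ : ρ ∈ C.R) : ρ.t ∈ orT ++ diT := by
  rcases hC.kind ρ hρ with h3 | h3
  · exact List.mem_append_left _ h3.1
  · exact List.mem_append_right _ h3.1

/-- a known cell is not on a ray beyond the mark -/
theorem lk1_not_ray {C : Ctx} (hC : C.Ok) {p k : Nat} (h : WF C p k) {ρ : Ray} (hρ : ρ ∈ C.R)
    {n c : Nat} (hn : 0 < n) (hc : c < 400) (h15 : cell p c ≠ 15) (he : sq C.o c = C.ray ρ n) :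
    False := by
  apply ray_out hC h hρ n hn
  rw [← he]
  exact ⟨inB_sq C.o hc, by rw [idx_sq C.o hc]; exact h15⟩

/-- a line from a known cell to a square of a ray beyond its mark, not going into the unknown -/
theorem lk1_line {C : Ctx} (hC : C.Ok) {p k : Nat} (h : WF C p k) {ρ : Ray} (hρ : ρ ∈ C.R)
    {i u n N : Nat} (hi : i < 400) (hci : cell p i ≠ 15) (hu : u ∈ orT ++ diT) (hn : 0 < n)
    (hN : 0 < N) (heq : sq C.o i + N • vec u = C.ray ρ n)
    (hcl : ∀ l : ℕ, 0 < l → l < N → C.brd p (sq C.o i + l • vec u) = none)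
    (hf : fcode C.R p u i ≠ 15) : u = ρ.t ∧ first p ρ.t 20 i = ρ.e ∧ ∃ n', Sees C p i ρ.t n' ρ.e ∧
      N = n' + n := by
  have h15 : cell p (first p u 20 i) ≠ 15 := by
    rcases fcode_cases C.R p u i with ⟨h1, -⟩ | ⟨h1, -⟩ | ⟨h1, -⟩
    · rw [← h1]; exact hf
    · exact absurd h1 hf
    · rw [← h1]; exact hf
  obtain ⟨n', hS⟩ := first_spec h hi hci hu h15
  have hlt : n' < N := by
    rcases lt_trichotomy n' N with h1 | h1 | h1
    · exact h1
    · exfalso
      have h2 := hS.eq
      rw [h1, heq] at h2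
      exact lk1_not_ray hC h hρ hn hS.lt h15 h2
    · exfalso
      obtain ⟨c, hc, h0, hs⟩ := hS.clear N hN h1
      rw [heq] at hs
      exact lk1_not_ray hC h hρ hn hc (by rw [h0]; decide) hs
  rcases fcode_cases C.R p u i with ⟨h1, h7, h8⟩ | ⟨h1, -⟩ | ⟨h1, h78, ρ', hρ', he, hρt⟩
  · exfalso
    have h2 := hcl n' hS.pos hlt
    rw [← hS.eq, brd_sq C hS.lt h15] at h2
    have h3 := cell_lt p (first p u 20 i)
    exact LB_decne hS.ne (by omega) h7 h8 h2
  · exact absurd h1 hf
  · subst hρt
    rw [← he] at hS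
    have h2 := LC_ray hS hlt
    rw [heq] at h2
    have h3 : ρ.e = ρ'.e := by
      by_contra hne
      exact hC.disj ρ hρ ρ' hρ' hne n (N - n') hn (by omega) h2
    have h4 : ρ = ρ' := LB_uniq hC hρ hρ' h3
    subst h4
    refine ⟨rfl, he.symm, n', hS, ?_⟩
    have h5 : sq C.o ρ.e + n • vec ρ.t = sq C.o ρ.e + (N - n') • vec ρ.t := h2
    have h6 := LC_smul_inj (LC_vec_ne hu) (add_left_cancel h5)
    omega

/-- two known cells which are not empty cannot see the same cell in the same direction -/
theorem lk1_two {C : Ctx} {p i j t e n n' : Nat} (hi : i < 400) (hj : j < 400) (hci : cell p i ≠ 0)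
    (hcj : cell p j ≠ 0) (h1 : Sees C p i t n e) (h2 : Sees C p j t n' e) : i = j := by
  have key : ∀ {i j n n' : Nat}, i < 400 → cell p i ≠ 0 → Sees C p i t n e → Sees C p j t n' e →
      n < n' → False := by
    intro i j n n' hi hci h1 h2 hlt
    obtain ⟨c, hc, h0, hs⟩ := h2.clear (n' - n) (by omega) (by have := h1.pos; omega)
    have h3 : sq C.o i + n • vec t = sq C.o c + n • vec t := by
      rw [← h1.eq, h2.eq, hs, add_assoc, ← add_smul]
      congr 2
      omega
    have h4 := sq_inj C.o hi hc (add_right_cancel h3)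
    rw [h4] at hci
    exact hci h0
  rcases lt_trichotomy n n' with h3 | h3 | h3
  · exact (key hi hci h1 h2 h3).elim
  · subst h3
    have h4 : sq C.o i + n • vec t = sq C.o j + n • vec t := by rw [← h1.eq, h2.eq]
    exact sq_inj C.o hi hj (add_right_cancel h4)
  · exact (key hj hcj h2 h1 h3).elim

/-- an orthogonal line meets an orthogonal ray only if it is parallel to it -/
theorem lk1_geo {o : Sq} {t u e j n N : Nat} (ht : t ∈ orT) (hu : u ∈ orT) (he : Inner e)
    (hne : ¬ Inner (stp t e)) (hj : Inner j) (hn : 0 < n) (hN : 0 < N)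
    (heq : sq o j + N • vec u = sq o e + n • vec t) : u = t := by
  have e1 : stp t e = e + t - 42 := rfl
  rw [e1] at hne
  have hx := congrArg Prod.fst heq
  have hy := congrArg Prod.snd heq
  obtain ⟨i1, i2, i3, i4⟩ := he
  obtain ⟨j1, j2, j3, j4⟩ := hj
  simp only [orT, List.mem_cons, List.not_mem_nil, or_false] at ht hu
  unfold Inner at hne
  rcases ht with rfl | rfl | rfl | rfl <;> rcases hu with rfl | rfl | rfl | rfl <;>
    first
    | rfl
    | (exfalso
       simp [sq, vec] at hx hy
       omega)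

/-- a slider of the patch cannot reach a ray seen by the king from which it attacks the king -/
theorem lk1_cross {C : Ctx} (hC : C.Ok) {p k : Nat} (h : WF C p k)
    (hcl : seenM C.R p k = 0 ∨ closedX C.R p (seenM C.R p k) 400 = true)
    {ρ : Ray} (hρ : ρ ∈ C.R) (hsee : see7 p k ρ = true) {j u n N : Nat} (hj : j < 400)
    (hu : u ∈ orT ++ diT) (hN : 0 < N) (hn : 0 < n) (heq : sq C.o j + N • vec u = C.ray ρ n)
    (hcl' : ∀ l : ℕ, 0 < l → l < N → C.brd p (sq C.o j + l • vec u) = none)
    (hmv : (u ∈ orT ∧ (cell p j = 12 ∨ cell p j = 13)) ∨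
      (u ∈ diT ∧ (cell p j = 11 ∨ cell p j = 13)))
    (hat : (ρ.t ∈ orT ∧ (cell p j = 12 ∨ cell p j = 13)) ∨
      (ρ.t ∈ diT ∧ (cell p j = 11 ∨ cell p j = 13))) : False := by
  obtain ⟨h7, hfst⟩ := lk1_see7.1 hsee
  have ht := lk1_ray_t hC hρ
  have hk15 : cell p (first p ρ.t 20 k) ≠ 15 := by rw [hfst, h7]; decide
  obtain ⟨nk, hSk⟩ := first_spec h h.lt (by rw [h.king]; decide) ht hk15
  rw [hfst] at hSk
  have hcj : 11 ≤ cell p j ∧ cell p j ≤ 13 := by
    rcases hmv with ⟨-, h1⟩ | ⟨-, h1⟩ <;> omega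
  have hkj : k ≠ j := by
    rintro rfl
    have := h.king
    omega
  have hfin : ¬ ∃ n', Sees C p j ρ.t n' ρ.e := by
    rintro ⟨n', hS⟩
    exact hkj (lk1_two h.lt hj (by rw [h.king]; decide) (by omega) hSk hS)
  by_cases hx : (ρ.t ∈ orT ∧ cell p j = 13) ∨ (ρ.t ∈ diT ∧ (cell p j = 11 ∨ cell p j = 13))
  · have h1 := lk1_closed hcl hρ hsee hj hmv hx
    obtain ⟨-, -, n', hS, -⟩ := lk1_line hC h hρ hj (by omega) hu hn hN heq hcl' h1
    exact hfin ⟨n', hS⟩
  · have h12 : ρ.t ∈ orT ∧ cell p j = 12 := by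
      rcases hat with ⟨h1, h2 | h2⟩ | h1
      · exact ⟨h1, h2⟩
      · exact absurd (Or.inl ⟨h1, h2⟩) hx
      · exact absurd (Or.inr h1) hx
    have huo : u ∈ orT := by
      rcases hmv with ⟨h1, -⟩ | ⟨-, h1⟩
      · exact h1
      · exfalso; omega
    have hin := hC.inner ρ hρ
    have hu2 : u = ρ.t := lk1_geo h12.1 huo hin.1 (hin.2 h12.1) (inner_of_cell h hj (by omega)) hn hN heq
    subst hu2
    have hray : ∀ m : ℕ, C.ray ρ m = sq C.o ρ.e + m • vec ρ.t := fun m => rfl
    rw [hray] at heq
    rcases Nat.lt_or_ge n N with h1 | h1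
    · -- the mark is on the line from j
      have h2 : sq C.o ρ.e = sq C.o j + (N - n) • vec ρ.t := by
        have h3 : sq C.o ρ.e + n • vec ρ.t = sq C.o j + (N - n) • vec ρ.t + n • vec ρ.t := by
          rw [← heq, add_assoc, ← add_smul]
          congr 2
          omega
        exact add_right_cancel h3
      rcases lt_trichotomy nk (N - n) with h3 | h3 | h3
      · have h4 : sq C.o k = sq C.o j + (N - n - nk) • vec ρ.t := by
          have h5 : sq C.o k + nk • vec ρ.t = sq C.o j + (N - n - nk) • vec ρ.t + nk • vec ρ.t := by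
            rw [← hSk.eq, h2, add_assoc, ← add_smul]
            congr 2
            omega
          exact add_right_cancel h5
        have h5 := hcl' (N - n - nk) (by omega) (by omega)
        rw [← h4, (kingAt hC h).1] at h5
        cases h5
      · have h4 : sq C.o k + nk • vec ρ.t = sq C.o j + nk • vec ρ.t := by
          rw [← hSk.eq, h2, h3]
        exact hkj (sq_inj C.o h.lt hj (add_right_cancel h4))
      · obtain ⟨c, hc, h0, hs⟩ := hSk.clear (nk - (N - n)) (by omega) (by omega)
        have h4 : sq C.o c + (N - n) • vec ρ.t = sq C.o j + (N - n) • vec ρ.t := by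
          rw [← h2, hSk.eq, hs, add_assoc, ← add_smul]
          congr 2
          omega
        have h5 := sq_inj C.o hc hj (add_right_cancel h4)
        rw [h5] at h0
        omega
    · rcases Nat.lt_or_ge N n with h2 | h2
      · have h3 : sq C.o j = C.ray ρ (n - N) := by
          have h4 : sq C.o j + N • vec ρ.t = C.ray ρ (n - N) + N • vec ρ.t := by
            rw [heq, hray, add_assoc, ← add_smul]
            congr 2
            omega
          exact add_right_cancel h4
        exact lk1_not_ray hC h hρ (by omega) hj (by omega) h3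
      · have h3 : n = N := by omega
        rw [h3] at heq
        have h4 := sq_inj C.o hj (inner_lt hin.1) (add_right_cancel heq)
        rw [h4] at hcj
        omega

/-! ### What the lists tell about lines -/

theorem lk1_fcode {R : List Ray} {p t i : Nat} (h1 : cell p (first p t 20 i) ≠ 15)
    (h2 : cell p (first p t 20 i) = 7 ∨ cell p (first p t 20 i) = 8 →
      isRay R (first p t 20 i) t = true) : fcode R p t i ≠ 15 := by
  unfold fcode fc
  cases h3 : msk 0x180 (cell p (first p t 20 i)) with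
  | false =>
    rw [cond_false]
    exact h1
  | true =>
    rw [cond_true]
    have h4 : ∀ c < 16, msk 0x180 c = true → c = 7 ∨ c = 8 := by decide
    rw [h2 (h4 _ (cell_lt _ _) h3), cond_true]
    exact h1

theorem lk1_c8180 : ∀ c < 16, msk 0x8180 c = false → c ≠ 7 ∧ c ≠ 8 ∧ c ≠ 15 := by decide

theorem lk1_c3e : ∀ c < 16, msk 0x3e c = true → c ≠ 7 ∧ c ≠ 8 ∧ c ≠ 15 := by decide

theorem lk1_c3e00 : ∀ c < 16, msk 0x3e00 c = true → c ≠ 7 ∧ c ≠ 8 ∧ c ≠ 15 := by decide

/-- a walk which does not fail meets no unknown cell -/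
theorem lk1_walk {R : List Ray} {p : Nat} (sp : Bool) (s u : Nat) : ∀ N i : Nat,
    0 ∉ walk R p sp u s N i [] → cell p (first p u N i) ≠ 15 ∧
      (cell p (first p u N i) = 7 ∨ cell p (first p u N i) = 8 →
        isRay R (first p u N i) u = true) := by
  intro N
  induction N with
  | zero =>
    intro i h0
    exact absurd List.mem_cons_self h0
  | succ N ih =>
    intro i h0
    rw [le_walk_succ] at h0
    rw [LC_first_succ]
    by_cases h1 : cell p (stp u i) = 0
    · rw [if_pos h1]
      rw [LH2_beq.2 h1, cond_true] at h0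
      exact ih _ (fun h2 => h0 (List.mem_cons_of_mem _ h2))
    · rw [if_neg h1]
      have e1 : Nat.beq (cell p (stp u i)) 0 = false := by
        rw [Bool.eq_false_iff, ne_eq, LH2_beq]
        exact h1
      rw [e1, cond_false] at h0
      have hlt := cell_lt p (stp u i)
      cases h2 : msk 0x3e (cell p (stp u i)) with
      | true =>
        have h3 := lk1_c3e _ hlt h2
        exact ⟨h3.2.2, fun h4 => by omega⟩
      | false =>
        rw [h2, cond_false] at h0
        cases h3 : msk 0x8180 (cell p (stp u i)) with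
        | false =>
          have h4 := lk1_c8180 _ hlt h3
          exact ⟨h4.2.2, fun h5 => by omega⟩
        | true =>
          rw [h3, cond_true] at h0
          cases h4 : (sp && (Nat.beq (cell p (stp u i)) 7 && isRay R (stp u i) u)) with
          | false =>
            rw [h4, cond_false] at h0
            exact absurd List.mem_cons_self h0
          | true =>
            rw [Bool.and_eq_true, Bool.and_eq_true, LH2_beq] at h4
            exact ⟨by rw [h4.2.1]; decide, fun _ => h4.2.2⟩

/-- the walk from the king which does not fail meets no unknown cell -/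
theorem lk1_lChk {R : List Ray} {p : Nat} (sp ro : Bool) (u : Nat) : ∀ N i : Nat,
    0 ∉ lChk R p sp ro u N i [] → cell p (first p u N i) ≠ 15 ∧
      (cell p (first p u N i) = 7 ∨ cell p (first p u N i) = 8 →
        isRay R (first p u N i) u = true) := by
  intro N
  induction N with
  | zero =>
    intro i h0
    exact absurd List.mem_cons_self h0
  | succ N ih =>
    intro i h0
    rw [le_lChk_succ] at h0
    rw [LC_first_succ]
    by_cases h1 : cell p (stp u i) = 0
    · rw [if_pos h1]
      rw [LH2_beq.2 h1, cond_true] at h0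
      have hA := adds_sMov R p ro (stp u i) (lChk R p sp ro u N (stp u i) [])
      exact ih _ (fun h2 => h0 ((hA 0).2 (Or.inr h2)))
    · rw [if_neg h1]
      have e1 : Nat.beq (cell p (stp u i)) 0 = false := by
        rw [Bool.eq_false_iff, ne_eq, LH2_beq]
        exact h1
      rw [e1, cond_false] at h0
      have hlt := cell_lt p (stp u i)
      cases h2 : msk 0x3e (cell p (stp u i)) with
      | true =>
        have h3 := lk1_c3e _ hlt h2
        exact ⟨h3.2.2, fun h4 => by omega⟩
      | false =>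
        rw [h2, cond_false] at h0
        cases h3 : msk 0x3e00 (cell p (stp u i)) with
        | true =>
          have h4 := lk1_c3e00 _ hlt h3
          exact ⟨h4.2.2, fun h5 => by omega⟩
        | false =>
          rw [h3, cond_false] at h0
          cases h4 : (sp && (Nat.beq (cell p (stp u i)) 7 && isRay R (stp u i) u)) with
          | false =>
            rw [h4, cond_false] at h0
            exact absurd List.mem_cons_self h0
          | true =>
            rw [Bool.and_eq_true, Bool.and_eq_true, LH2_beq] at h4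
            exact ⟨by rw [h4.2.1]; decide, fun _ => h4.2.2⟩

/-! ### Removing a piece -/

theorem lk1_del {C : Ctx} {p k j : Nat} (h : WF C p k) (hj : j < 400)
    (hcj : 9 ≤ cell p j ∧ cell p j ≤ 13) :
    WF C (del p j) k ∧ (∀ s, s ≠ sq C.o j → C.brd (del p j) s = C.brd p s) ∧
      C.brd (del p j) (sq C.o j) = none := by
  have hcell : ∀ i, cell (del p j) i = if i = j then 0 else cell p i :=
    fun i => LB_cell_xor (p := p) (j := j) rfl i
  have hjI : Inner j := inner_of_cell h hj (by omega)
  have hkj : k ≠ j := by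
    rintro rfl
    have := h.king
    omega
  refine ⟨⟨h.lt, ?_, ?_, ?_, ?_, ?_, ?_⟩, ?_, ?_⟩
  · rw [hcell, if_neg hkj]
    exact h.king
  · intro i hi hci
    rw [hcell] at hci
    split_ifs at hci with h1
    exact h.uniq i hi hci
  · intro i hi hin
    rw [hcell, if_neg]
    · exact h.margin i hi hin
    · rintro rfl
      exact hin hjI
  · intro i hi hci
    rw [hcell] at hci
    by_cases h1 : i = j
    · rw [if_pos h1] at hci
      omega
    · rw [if_neg h1] at hci
      exact h.mark i hi hci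
  · intro i hi
    rw [hcell]
    split_ifs with h1
    · decide
    · exact h.noBK i hi
  · refine ray15_congr h rfl fun i hi h15 => ?_
    rw [hcell, if_neg]
    · exact h15
    · rintro rfl
      omega
  · intro s hs
    apply LB_congr
    · intro hB
      rw [hcell, if_neg]
      intro he
      apply hs
      rw [← he]
      exact (sq_idx hB).1.symm
    · intro ρ _ _
      rw [hcell]
      by_cases h1 : ρ.e = j
      · rw [if_pos h1, h1]
        omega
      · rw [if_neg h1]
  · rw [brd_sq C hj (by rw [hcell, if_pos rfl]; decide), hcell, if_pos rfl]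
    rfl

/-! ### The line seen backwards -/

theorem lk1_back {C : Ctx} {p k t : Nat} (h : WF C p k) (ht : t ∈ orT ++ diT) {j : Nat}
    (hj : j < 400) (hcj : cell p j ≠ 0) : ∀ (N m i : Nat), Inner i → 0 < m → m ≤ N →
    sq C.o j = sq C.o i + m • vec t →
    (∀ l : ℕ, 0 < l → l < m → ∃ c < 400, cell p c = 0 ∧ sq C.o c = sq C.o i + l • vec t) →
    first p t N i = j := by
  intro N
  induction N with
  | zero => intro m i _ hm hmN; omega
  | succ N ih =>
    intro m i hi hm hmN he hcl
    obtain ⟨h400, hst⟩ := stp_inner (List.mem_append_left knT ht) hi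
    have hst := hst C.o
    rw [LC_first_succ]
    by_cases hm1 : m = 1
    · subst hm1
      rw [one_smul, ← hst] at he
      have h1 := sq_inj C.o hj h400 he
      rw [← h1, if_neg hcj]
    · obtain ⟨c, hc, h0, hs⟩ := hcl 1 (by norm_num) (by omega)
      rw [one_smul, ← hst] at hs
      have h1 := sq_inj C.o hc h400 hs
      rw [← h1, if_pos h0]
      have hin : Inner c := inner_of_cell h hc (by rw [h0]; decide)
      have hstep : ∀ l : ℕ, sq C.o i + (l + 1) • vec t = sq C.o c + l • vec t := by
        intro l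
        rw [hs, hst, add_smul, one_smul]
        abel
      apply ih (m - 1) c hin (by omega) (by omega)
      · rw [he, ← hstep]
        congr 2
        omega
      · intro l hl hlm
        obtain ⟨c', hc', h0', hs'⟩ := hcl (l + 1) (by omega) (by omega)
        exact ⟨c', hc', h0', by rw [hs', hstep]⟩

theorem lk1_le {o : Sq} {t i e n : Nat} (ht : t ∈ orT ++ diT) (hi : Inner i) (he : Inner e)
    (heq : sq o e = sq o i + n • vec t) : n ≤ 20 := by
  obtain ⟨i1, i2, i3, i4⟩ := hi
  obtain ⟨j1, j2, j3, j4⟩ := he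
  have hx := congrArg Prod.fst heq
  have hy := congrArg Prod.snd heq
  simp only [orT, diT, List.cons_append, List.nil_append, List.mem_cons,
    List.not_mem_nil, or_false] at ht
  rcases ht with rfl | rfl | rfl | rfl | rfl | rfl | rfl | rfl <;> simp [sq, vec] at hx hy <;> omega

theorem lk1_opp {C : Ctx} {p k j n : Nat} (h : WF C p k) {t e : Nat} (ht : t ∈ orT ++ diT)
    (hj : j < 400) (hcj : cell p j ≠ 0) (hj15 : cell p j ≠ 15) (he : Inner e)
    (hS : Sees C p j t n e) : first p (84 - t) 20 e = j := by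
  obtain ⟨ho, hv, -⟩ := opp_spec ht
  have ho' : (84 - t) ∈ orT ++ diT := ho
  have hv' : vec (84 - t) = - vec t := hv
  have hjI : Inner j := inner_of_cell h hj hj15
  apply lk1_back h ho' hj hcj 20 n e he hS.pos (lk1_le ht hjI he hS.eq)
  · rw [hS.eq, hv', smul_neg]
    abel
  · intro l hl hln
    obtain ⟨c, hc, h0, hs⟩ := hS.clear (n - l) (by omega) (by omega)
    refine ⟨c, hc, h0, ?_⟩
    rw [hs, hS.eq, hv', smul_neg]
    have h1 : n • vec t = (n - l) • vec t + l • vec t := by
      rw [← add_smul]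
      congr 1
      omega
    rw [h1]
    abel

/-! ### Moves to squares which are not known -/

theorem lk1_out15 {C : Ctx} {p c : Nat} (hc : c < 400) {b : Sq}
    (hb : ¬ (InB C.o b ∧ cell p (idx C.o b) ≠ 15)) (he : sq C.o c = b) : cell p c = 15 := by
  by_contra h15
  apply hb
  rw [← he, idx_sq C.o hc]
  exact ⟨inB_sq C.o hc, h15⟩

theorem lk1_knight {C : Ctx} {p k : Nat} (h : WF C p k) {sp : Bool}
    (h0 : 0 ∉ checks C.R sp p k) {b : Sq} (hb : ¬ (InB C.o b ∧ cell p (idx C.o b) ≠ 15))
    (hκ : sq C.o k - b ∈ knightJumps) : False := by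
  have hkI : Inner k := inner_of_cell h h.lt (by rw [h.king]; decide)
  have h1 : ∀ d ∈ knightJumps, -d ∈ knightJumps := by decide
  obtain ⟨t, ht, hv⟩ := kn_vec (h1 _ hκ)
  have hst := stp_inner (List.mem_append_right (orT ++ diT) ht) hkI
  have hz : sq C.o (stp t k) = b := by
    rw [hst.2 C.o, hv]; abel
  have h15 := lk1_out15 hst.1 hb hz
  apply h0
  rw [mem_checks]
  left
  refine (mem_e8 (le_f3 p k) [] 0).2 (Or.inl ⟨t, ht, ?_⟩)
  rw [h15]
  exact List.mem_cons_self

theorem lk1_pawn {C : Ctx} {p k : Nat} (h : WF C p k) {sp : Bool}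
    (h0 : 0 ∉ checks C.R sp p k) {b : Sq} (hb : ¬ (InB C.o b ∧ cell p (idx C.o b) ≠ 15))
    (hκ : sq C.o k - b = (1, -1) ∨ sq C.o k - b = (-1, -1)) : False := by
  have hkI : Inner k := inner_of_cell h h.lt (by rw [h.king]; decide)
  obtain ⟨t, ht, hto, hv⟩ : ∃ t ∈ [63, 61], t ∈ orT ++ diT ++ knT ∧ vec t = b - sq C.o k := by
    rcases hκ with h1 | h1
    · refine ⟨61, by decide, by decide, ?_⟩
      rw [← neg_sub, h1]
      decide
    · refine ⟨63, by decide, by decide, ?_⟩
      rw [← neg_sub, h1]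
      decide
  have hst := stp_inner hto hkI
  have hz : sq C.o (stp t k) = b := by
    rw [hst.2 C.o, hv]; abel
  have h15 := lk1_out15 hst.1 hb hz
  apply h0
  rw [mem_checks]
  right; left
  refine (mem_eP (le_f4 p k) [] 0).2 (Or.inl ⟨t, ht, ?_⟩)
  rw [h15]
  exact List.mem_cons_self

theorem lk1_bknight {C : Ctx} {p k j : Nat} (h : WF C p k) {sp : Bool} (hj : j < 400)
    (hcj : cell p j = 10) (h0 : 0 ∉ bMoves C.R p sp (cell p j) j []) {b : Sq}
    (hb : ¬ (InB C.o b ∧ cell p (idx C.o b) ≠ 15)) (hd : b - sq C.o j ∈ knightJumps) : False := by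
  have hjI : Inner j := inner_of_cell h hj (by omega)
  obtain ⟨t, ht, hv⟩ := kn_vec hd
  have hst := stp_inner (List.mem_append_right (orT ++ diT) ht) hjI
  have hz : sq C.o (stp t j) = b := by
    rw [hst.2 C.o, hv]; abel
  have h15 := lk1_out15 hst.1 hb hz
  apply h0
  rw [hcj]
  have h8 : Adds (fun t L => cond (msk 0x3f (cell p (stp t j))) (enc j (stp t j) :: L)
      (cond (msk 0x8180 (cell p (stp t j))) (0 :: L) L)) := fun _ L x => le_cond2 _ _ _ _ L x
  have hb1 : bMoves C.R p sp 10 j [] =
    e8 (fun t L => cond (msk 0x3f (cell p (stp t j))) (enc j (stp t j) :: L)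
      (cond (msk 0x8180 (cell p (stp t j))) (0 :: L) L)) [] := rfl
  rw [hb1]
  refine (mem_e8 h8 [] 0).2 (Or.inl ⟨t, ht, ?_⟩)
  show 0 ∈ cond (msk 0x3f (cell p (stp t j))) (enc j (stp t j) :: [])
      (cond (msk 0x8180 (cell p (stp t j))) (0 :: []) [])
  rw [h15]
  exact List.mem_cons_self

theorem lk1_bpawn {C : Ctx} {p k j : Nat} (h : WF C p k) {sp : Bool} (hj : j < 400)
    (hcj : cell p j = 9) (h0 : 0 ∉ bMoves C.R p sp (cell p j) j []) {b : Sq}
    (hb : ¬ (InB C.o b ∧ cell p (idx C.o b) ≠ 15))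
    (hd : b - sq C.o j = (0, -1) ∨ b - sq C.o j = (1, -1) ∨ b - sq C.o j = (-1, -1)) : False := by
  have hjI : Inner j := inner_of_cell h hj (by omega)
  have hA : Adds (fun t L => cond (msk 0x3e (cell p (stp t j))) (enc j (stp t j) :: L)
      (cond (Nat.beq (cell p (stp t j)) 15) (0 :: L) L)) := fun _ L x => le_cond2 _ _ _ _ L x
  have hb1 : bMoves C.R p sp 9 j [] =
      cond (Nat.beq (cell p (stp 22 j)) 0) (enc j (stp 22 j) ::
          eQ (fun t L => cond (msk 0x3e (cell p (stp t j))) (enc j (stp t j) :: L)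
            (cond (Nat.beq (cell p (stp t j)) 15) (0 :: L) L)) [])
        (cond (msk 0x8180 (cell p (stp 22 j))) (0 :: [])
          (eQ (fun t L => cond (msk 0x3e (cell p (stp t j))) (enc j (stp t j) :: L)
            (cond (Nat.beq (cell p (stp t j)) 15) (0 :: L) L)) [])) := rfl
  have hcap : b - sq C.o j = (1, -1) ∨ b - sq C.o j = (-1, -1) → False := by
    intro h1
    obtain ⟨t, ht, hto, hv⟩ : ∃ t ∈ [21, 23], t ∈ orT ++ diT ++ knT ∧ vec t = b - sq C.o j := by
      rcases h1 with h1 | h1
      · exact ⟨23, by decide, by decide, by rw [h1]; decide⟩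
      · exact ⟨21, by decide, by decide, by rw [h1]; decide⟩
    have hst := stp_inner hto hjI
    have hz : sq C.o (stp t j) = b := by
      rw [hst.2 C.o, hv]; abel
    have h15 := lk1_out15 hst.1 hb hz
    have hmem : 0 ∈ eQ (fun t L => cond (msk 0x3e (cell p (stp t j))) (enc j (stp t j) :: L)
            (cond (Nat.beq (cell p (stp t j)) 15) (0 :: L) L)) [] := by
      refine (mem_eQ hA [] 0).2 (Or.inl ⟨t, ht, ?_⟩)
      show 0 ∈ cond (msk 0x3e (cell p (stp t j))) (enc j (stp t j) :: [])
            (cond (Nat.beq (cell p (stp t j)) 15) (0 :: []) [])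
      rw [h15]
      exact List.mem_cons_self
    apply h0
    rw [hcj, hb1]
    cases Nat.beq (cell p (stp 22 j)) 0
    · cases msk 0x8180 (cell p (stp 22 j))
      · exact hmem
      · exact List.mem_cons_self
    · exact List.mem_cons_of_mem _ hmem
  rcases hd with h1 | h1
  · have hto : 22 ∈ orT ++ diT ++ knT := by decide
    have hst := stp_inner hto hjI
    have hv : vec 22 = (0, -1) := by decide
    have hz : sq C.o (stp 22 j) = b := by
      rw [hst.2 C.o, hv, ← h1]; abel
    have h15 := lk1_out15 hst.1 hb hz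
    apply h0
    rw [hcj, hb1, h15]
    exact List.mem_cons_self
  · exact hcap h1

theorem lk1_bslide {C : Ctx} {p j u : Nat} {sp : Bool}
    (h0 : 0 ∉ bMoves C.R p sp (cell p j) j [])
    (hmv : (u ∈ orT ∧ (cell p j = 12 ∨ cell p j = 13)) ∨
      (u ∈ diT ∧ (cell p j = 11 ∨ cell p j = 13))) : fcode C.R p u j ≠ 15 := by
  have hW : Adds (fun t L => walk C.R p sp t j 20 j L) := adds_walk C.R p sp j 20 j
  have hfin : 0 ∉ walk C.R p sp u j 20 j [] → fcode C.R p u j ≠ 15 := by
    intro h1
    obtain ⟨h2, h3⟩ := lk1_walk sp j u 20 j h1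
    exact lk1_fcode h2 h3
  apply hfin
  intro h1
  apply h0
  rcases hmv with ⟨hu, hc | hc⟩ | ⟨hu, hc | hc⟩
  · rw [hc]
    show 0 ∈ eO (fun t L => walk C.R p sp t j 20 j L) []
    exact (mem_eO hW _ _).2 (Or.inl ⟨u, hu, h1⟩)
  · rw [hc]
    show 0 ∈ eO (fun t L => walk C.R p sp t j 20 j L) (eD (fun t L => walk C.R p sp t j 20 j L) [])
    exact (mem_eO hW _ _).2 (Or.inl ⟨u, hu, h1⟩)
  · rw [hc]
    show 0 ∈ eD (fun t L => walk C.R p sp t j 20 j L) []
    exact (mem_eD hW _ _).2 (Or.inl ⟨u, hu, h1⟩)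
  · rw [hc]
    show 0 ∈ eO (fun t L => walk C.R p sp t j 20 j L) (eD (fun t L => walk C.R p sp t j 20 j L) [])
    exact (mem_eO hW _ _).2 (Or.inr ((mem_eD hW _ _).2 (Or.inl ⟨u, hu, h1⟩)))

theorem lk1_dir {B : Board} {c : Nat} (hc : 11 ≤ c ∧ c ≤ 13) {m : Man} (hm : dec c = some m)
    {a b : Sq} (hA : ManAttacks B m a b) :
    ∃ u N : ℕ, u ∈ orT ++ diT ∧ 0 < N ∧ b = a + N • vec u ∧
      (∀ l : ℕ, 0 < l → l < N → B (a + l • vec u) = none) ∧
      ((u ∈ orT ∧ (c = 12 ∨ c = 13)) ∨ (u ∈ diT ∧ (c = 11 ∨ c = 13))) := by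
  have hO : Slides B orthDirs a b → (c = 12 ∨ c = 13) →
      ∃ u N : ℕ, u ∈ orT ++ diT ∧ 0 < N ∧ b = a + N • vec u ∧
      (∀ l : ℕ, 0 < l → l < N → B (a + l • vec u) = none) ∧
      ((u ∈ orT ∧ (c = 12 ∨ c = 13)) ∨ (u ∈ diT ∧ (c = 11 ∨ c = 13))) := by
    rintro ⟨d, hd, N, hN, hb, hcl⟩ hcc
    obtain ⟨u, hu, rfl⟩ := or_vec hd
    exact ⟨u, N, List.mem_append_left _ hu, hN, hb, hcl, Or.inl ⟨hu, hcc⟩⟩
  have hD : Slides B diagDirs a b → (c = 11 ∨ c = 13) →
      ∃ u N : ℕ, u ∈ orT ++ diT ∧ 0 < N ∧ b = a + N • vec u ∧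
      (∀ l : ℕ, 0 < l → l < N → B (a + l • vec u) = none) ∧
      ((u ∈ orT ∧ (c = 12 ∨ c = 13)) ∨ (u ∈ diT ∧ (c = 11 ∨ c = 13))) := by
    rintro ⟨d, hd, N, hN, hb, hcl⟩ hcc
    obtain ⟨u, hu, rfl⟩ := di_vec hd
    exact ⟨u, N, List.mem_append_right _ hu, hN, hb, hcl, Or.inr ⟨hu, hcc⟩⟩
  obtain ⟨h1, h2⟩ := hc
  have h3 : c = 11 ∨ c = 12 ∨ c = 13 := by omega
  rcases h3 with rfl | rfl | rfl
  · have h4 : m = (false, Kind.bishop) := (Option.some.inj hm).symm
    subst h4
    exact hD hA (Or.inl rfl)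
  · have h4 : m = (false, Kind.rook) := (Option.some.inj hm).symm
    subst h4
    exact hO hA (Or.inl rfl)
  · have h4 : m = (false, Kind.queen) := (Option.some.inj hm).symm
    subst h4
    rcases LF7_split hA with h5 | h5
    · exact hO h5 (Or.inr rfl)
    · exact hD h5 (Or.inr rfl)

theorem lk1_slider_code {c : Nat} (hc : c < 16) {m : Man} (hm : dec c = some m) (hmc : m.1 = false)
    (hk : m.2 = Kind.queen ∨ m.2 = Kind.rook ∨ m.2 = Kind.bishop) : 11 ≤ c ∧ c ≤ 13 := by
  have h1 := LF5_dec_inv c hc m hm hmc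
  rcases hk with h2 | h2 | h2
  · have := h1.1 h2; omega
  · have := h1.2.1 h2; omega
  · have := h1.2.2 h2; omega

/-- a line from the king to a square of a ray beyond its mark sees the mark -/
theorem lk1_king_line {C : Ctx} (hC : C.Ok) {p k : Nat} (h : WF C p k) {sp ro : Bool}
    (h0 : 0 ∉ checks C.R sp p k) {ρ : Ray} (hρ : ρ ∈ C.R) (h7 : cell p ρ.e = 7) {t N n : ℕ}
    (hd : LF7_dir ro t) (hN : 0 < N) (hn : 0 < n) (heq : sq C.o k + N • vec t = C.ray ρ n)
    (hcl : ∀ l : ℕ, 0 < l → l < N → C.brd p (sq C.o k + l • vec t) = none) :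
    t = ρ.t ∧ see7 p k ρ = true ∧ ∃ n', Sees C p k ρ.t n' ρ.e ∧ N = n' + n := by
  have hl0 : 0 ∉ lChk C.R p sp ro t 20 k [] := fun h2 => h0 (LF7_lmem hd h2)
  obtain ⟨h2, h3⟩ := lk1_lChk sp ro t 20 k hl0
  obtain ⟨h4, h5, h6⟩ := lk1_line hC h hρ h.lt (by rw [h.king]; decide) (LF7_mem hd) hn hN heq hcl
    (lk1_fcode h2 h3)
  exact ⟨h4, lk1_see7.2 ⟨h7, h5⟩, h6⟩

/-- an attack along a seen ray -/
theorem lk1_hit {C : Ctx} {p k : Nat} {B : Board} {ρ : Ray} {ro : Bool}
    {n' N : ℕ} {m : Man} (hd : LF7_dir ro ρ.t) (hcan : LF7_can ro m) (hmc : m.1 = false)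
    (hS : Sees C p k ρ.t n' ρ.e) (hlt : n' < N) (hB : B (sq C.o k + N • vec ρ.t) = some m)
    (hcl : ∀ l : ℕ, 0 < l → l < N → B (sq C.o k + l • vec ρ.t) = none) : Hit C B ρ := by
  have e4 : ∀ i : ℕ, C.ray ρ i = sq C.o k + (n' + i) • vec ρ.t := by
    intro i
    unfold Ctx.ray
    rw [hS.eq, add_assoc, ← add_smul]
  have hpos := hS.pos
  refine ⟨N - n', by omega, ?_, m.2, ?_, ?_⟩
  · intro i hi him
    rw [e4]
    exact hcl _ (by omega) (by omega)
  · rw [e4, show n' + (N - n') = N by omega, hB]
    exact congrArg some (Prod.ext hmc rfl)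
  · rcases hcan with h1 | ⟨h1, h2⟩ | ⟨h1, h2⟩
    · exact Or.inl h1
    · exact Or.inr (Or.inl ⟨(LF7_ro hd).1 h1, h2⟩)
    · refine Or.inr (Or.inr ⟨?_, h2⟩)
      rcases hd with ⟨h3, -⟩ | ⟨-, h3⟩
      · rw [h3] at h1
        cases h1
      · exact h3

/-- A Black move giving check: it is listed; or it is a move outside of the patch, and a slider attacks along a ray
seen by the king; or it is a move to a seen mark from a direction in which the patch ends; or a slider of the
patch leaves it along a ray. -/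
theorem event_cases {C : Ctx} (hC : C.Ok) {p k : Nat} (h : WF C p k) (hs : safe C.R p k = true)
    (hcl : seenM C.R p k = 0 ∨ closedX C.R p (seenM C.R p k) 400 = true)
    (h0 : 0 ∉ checks C.R true p k) (a b : Sq)
    (hl : Legal (C.brd p) false a b) (hc : InCheck ((C.brd p).move a b) true) :
    (∃ m ∈ checks C.R true p k, Is C p m a b ∧ MoveOk p (m / 400) (m % 400)) ∨
    (∃ ρ ∈ C.R, see7 p k ρ = true ∧ Hit C ((C.brd p).move a b) ρ ∧
      ¬ (InB C.o a ∧ cell p (idx C.o a) ≠ 15)) ∨
    (∃ ρ ∈ C.R, see7 p k ρ = true ∧ b = sq C.o ρ.e ∧ Edge' C p ρ a) ∨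
    (∃ ρ ∈ C.R, cell p ρ.e = 7 ∧ (∃ n : ℕ, 0 < n ∧ b = C.ray ρ n) ∧
      ∃ j < 400, j = first p (84 - ρ.t) 20 ρ.e ∧ a = sq C.o j ∧
        msk (slM ρ.t) (cell p j) = true ∧ safe C.R (del p j) k = false) := by
  have hK := kingAt hC h
  have hno := safe_noCheck hC h hs
  have hmark : ∀ ρ ∈ C.R, (∃ n : ℕ, 0 < n ∧ a = C.ray ρ n) →
      ¬ (InB C.o a ∧ cell p (idx C.o a) ≠ 15) := by
    rintro ρ hρ ⟨n, hn, rfl⟩
    exact ray_out hC h hρ n hn
  rcases checks_complete hC h hs true h0 a b hl hc with h1 | ⟨-, ρ, hρ, h7, n, hn, hbr⟩ |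
    ⟨-, ρ, hρ, h7, hfst, hbe, hE⟩ | ⟨-, ρ, hρ, h7, hfst, ha, hH⟩
  · exact Or.inl h1
  · obtain ⟨m₀, hm₀, hm₀c, hgo⟩ := hl.1
    have hbout : ¬ (InB C.o b ∧ cell p (idx C.o b) ≠ 15) := by
      rw [hbr]
      exact ray_out hC h hρ n hn
    -- the target
    have htgt : C.brd p b = none ∨
        ∃ t : Man, C.brd p b = some t ∧ t.1 = true ∧ t.2 ≠ Kind.king := by
      rcases hgo with ⟨h1, -⟩ | ⟨⟨t, ht, h1, h2⟩, -⟩
      · exact Or.inl h1
      · exact Or.inr ⟨t, ht, by simpa using h1, h2⟩
    have hab : a ≠ b := by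
      rintro rfl
      rcases htgt with h1 | ⟨t, ht, h1, -⟩
      · rw [hm₀] at h1; cases h1
      · rw [hm₀] at ht; cases ht; rw [hm₀c] at h1; cases h1
    have haκ : a ≠ sq C.o k := by
      rintro rfl
      rw [hK.1] at hm₀
      cases hm₀
      cases hm₀c
    have hbκ : b ≠ sq C.o k := by
      rintro rfl
      rcases htgt with h1 | ⟨t, ht, -, h2⟩
      · rw [hK.1] at h1; cases h1
      · rw [hK.1] at ht; cases ht; exact h2 rfl
    have hmove : ∀ s, s ≠ a → s ≠ b → (C.brd p).move a b s = C.brd p s := by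
      intro s h1 h2
      unfold Board.move
      rw [if_neg h1, if_neg h2]
    have hmoveb : (C.brd p).move a b b = some m₀ := by
      unfold Board.move
      rw [if_neg (Ne.symm hab), if_pos rfl, hm₀]
    rcases check_cases (C.brd p) hK hl hno hc with ⟨m, hm, hmc, hat⟩ |
      ⟨s, m, hsa, hsb, hm, hmc, hsl, hat, hnat⟩
    · -- the moved piece gives check
      rw [hm₀] at hm
      cases hm
      have hkinds : m₀.2 = Kind.king ∨ m₀.2 = Kind.knight ∨ m₀.2 = Kind.pawn ∨
          (m₀.2 = Kind.queen ∨ m₀.2 = Kind.rook ∨ m₀.2 = Kind.bishop) := by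
        rcases m₀.2 with _ | _ | _ | _ | _ | _ <;> simp
      rcases hkinds with hk | hk | hk | hk
      · -- the king cannot give check
        exfalso
        apply hl.2
        refine ⟨b, sq C.o k, (true, Kind.king), ?_, ?_, rfl, ?_⟩
        · rw [hmoveb]
          exact congrArg some (Prod.ext hm₀c hk)
        · rw [hmove _ (Ne.symm haκ) (Ne.symm hbκ)]
          exact hK.1
        · unfold ManAttacks at hat ⊢
          rw [hk] at hat
          have h1 : ∀ d ∈ orthDirs ++ diagDirs, -d ∈ orthDirs ++ diagDirs := by decide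
          have h2 := h1 _ hat
          rw [neg_sub] at h2
          exact h2
      · exfalso
        unfold ManAttacks at hat
        rw [hk] at hat
        exact lk1_knight h h0 hbout hat
      · exfalso
        unfold ManAttacks at hat
        rw [hk] at hat
        simp only [hm₀c] at hat
        exact lk1_pawn h h0 hbout hat
      · -- a slider
        obtain ⟨ro, t, N, hd, hcan, hN, hbN, hcl0⟩ := LF7_att hk hat
        have hvne := LC_vec_ne (LF7_mem hd)
        have hnb : ∀ j : ℕ, j < N → sq C.o k + j • vec t ≠ b := by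
          intro j hj he
          rw [hbN] at he
          have h1 := LC_smul_inj hvne (add_left_cancel he)
          omega
        have hna : ∀ j : ℕ, 0 < j → j < N → sq C.o k + j • vec t ≠ a := by
          intro j hj
          induction j using Nat.strong_induction_on with
          | _ j ih =>
            intro hjn he
            apply hno
            refine ⟨sq C.o k, a, m₀, hK.1, hm₀, by rw [hm₀c]; rfl, ?_⟩
            refine LF7_att' hd hcan hj he.symm ?_
            intro l hl hlj
            rw [← hmove _ (ih l hlj hl (by omega)) (hnb l (by omega))]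
            exact hcl0 l hl (by omega)
        have hcl' : ∀ j : ℕ, 0 < j → j < N → C.brd p (sq C.o k + j • vec t) = none := by
          intro j hj hjn
          rw [← hmove _ (hna j hj hjn) (hnb j hjn)]
          exact hcl0 j hj hjn
        have hatt : ManAttacks (C.brd p) m₀ a b := by
          rcases hgo with ⟨-, h1⟩ | ⟨-, h1⟩
          · rw [if_neg] at h1
            · exact h1
            · intro h2
              rw [h2] at hk
              rcases hk with h3 | h3 | h3 <;> cases h3
          · exact h1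
        obtain ⟨ht, hsee, n', hS, hNn⟩ := lk1_king_line hC h h0 hρ h7 hd hN hn
          (by rw [← hbN, hbr]) hcl'
        subst ht
        by_cases hin : InB C.o a ∧ cell p (idx C.o a) ≠ 15
        · exfalso
          obtain ⟨hsj, hj⟩ := sq_idx hin.1
          have hdec : dec (cell p (idx C.o a)) = some m₀ := by
            rw [← brd_sq C hj hin.2, hsj, hm₀]
          have hcj := lk1_slider_code (cell_lt _ _) hdec hm₀c hk
          obtain ⟨u, N', hu, hN', hbu, hclu, hmv⟩ := lk1_dir hcj hdec hatt
          refine lk1_cross hC h hcl hρ hsee hj hu hN' hn (by rw [hsj, ← hbu, hbr])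
            (by rw [hsj]; exact hclu) hmv ?_
          have h5 := LF5_dec_inv _ (cell_lt _ _) m₀ hdec hm₀c
          rcases hcan with h6 | ⟨h6, h6'⟩ | ⟨h6, h6'⟩
          · rcases List.mem_append.1 (LF7_mem hd) with h8 | h8
            · exact Or.inl ⟨h8, Or.inr (h5.1 h6)⟩
            · exact Or.inr ⟨h8, Or.inr (h5.1 h6)⟩
          · exact Or.inl ⟨(LF7_ro hd).1 h6, Or.inl (h5.2.1 h6')⟩
          · refine Or.inr ⟨?_, Or.inl (h5.2.2 h6')⟩
            rcases hd with ⟨h3, -⟩ | ⟨-, h3⟩
            · rw [h3] at h6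
              cases h6
            · exact h3
        · right; left
          refine ⟨ρ, hρ, hsee, lk1_hit hd hcan hm₀c hS (by omega) ?_ hcl0, hin⟩
          rw [← hbN]
          exact hmoveb
    · -- a discovered check
      obtain ⟨ro, t, N, hd, hcan, hN, hbN, hcl0⟩ := LF7_att hsl hat
      have hvne := LC_vec_ne (LF7_mem hd)
      have hnb : ∀ j : ℕ, 0 < j → j < N → sq C.o k + j • vec t ≠ b := by
        intro j hj hjn he
        have h1 := hcl0 j hj hjn
        rw [he, hmoveb] at h1
        cases h1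
      have hex : ∃ j : ℕ, 0 < j ∧ j < N ∧ sq C.o k + j • vec t = a := by
        by_contra hcon
        push Not at hcon
        apply hnat
        refine LF7_att' hd hcan hN hbN ?_
        intro j hj hjn
        rw [← hmove _ (hcon j hj hjn) (hnb j hj hjn)]
        exact hcl0 j hj hjn
      obtain ⟨n₁, hn₁, hn₁n, hen₁⟩ := hex
      have hcl' : ∀ j : ℕ, 0 < j → j < N → j ≠ n₁ → C.brd p (sq C.o k + j • vec t) = none := by
        intro j hj hjn hjne
        rw [← hmove _ _ (hnb j hj hjn)]
        · exact hcl0 j hj hjn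
        · intro he
          rw [← hen₁] at he
          exact hjne (LC_smul_inj hvne (add_left_cancel he))
      rcases lChk_discovered hC (n₁ := n₁) (n₂ := N) (m₁ := m₀)
        (m₂ := m) true ro h (LF7_mem hd)
        (LF7_ro hd) (fun h2 => h0 (LF7_lmem hd h2)) hn₁ hn₁n
        (fun l hl hln => hcl' l hl (by omega) (by omega))
        (fun l hl hln => hcl' l (by omega) hln (by omega))
        (by rw [hen₁]; exact hm₀) hm₀c (by rw [← hbN]; exact hm) hmc hcan with
        ⟨j, hj, hcj1, hcj2, hja, hx, hb0⟩ | ⟨hsp, ρ', hρ', h7', hρt, hfst, na, hna, hray⟩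
      · -- a piece of the patch
        rw [hen₁] at hja
        right; right; right
        have hdec : dec (cell p j) = some m₀ := by
          rw [← brd_sq C hj (by omega), hja, hm₀]
        have hkinds : (m₀.2 = Kind.king ∨ m₀.2 = Kind.knight ∨ m₀.2 = Kind.pawn) ∨
            (m₀.2 = Kind.queen ∨ m₀.2 = Kind.rook ∨ m₀.2 = Kind.bishop) := by
          rcases m₀.2 with _ | _ | _ | _ | _ | _ <;> simp
        rcases hkinds with hk | hk
        · exfalso
          have h9 : cell p j = 9 ∨ cell p j = 10 ∨ cell p j = 11 ∨ cell p j = 12 ∨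
              cell p j = 13 := by omega
          rcases h9 with h9 | h9 | h9 | h9 | h9
          · rw [h9] at hdec
            have h10 : m₀ = (false, Kind.pawn) := (Option.some.inj hdec).symm
            subst h10
            refine lk1_bpawn h hj h9 hb0 hbout ?_
            rw [hja]
            rcases hgo with ⟨-, h1⟩ | ⟨-, h1⟩
            · left
              simpa [fwd] using h1
            · right
              simpa [ManAttacks, fwd] using h1
          · rw [h9] at hdec
            have h10 : m₀ = (false, Kind.knight) := (Option.some.inj hdec).symm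
            subst h10
            refine lk1_bknight h hj h9 hb0 hbout ?_
            rw [hja]
            rcases hgo with ⟨-, h1⟩ | ⟨-, h1⟩
            · simpa [ManAttacks] using h1
            · simpa [ManAttacks] using h1
          · rw [h9] at hdec
            have h10 : m₀ = (false, Kind.bishop) := (Option.some.inj hdec).symm
            subst h10
            simp at hk
          · rw [h9] at hdec
            have h10 : m₀ = (false, Kind.rook) := (Option.some.inj hdec).symm
            subst h10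
            simp at hk
          · rw [h9] at hdec
            have h10 : m₀ = (false, Kind.queen) := (Option.some.inj hdec).symm
            subst h10
            simp at hk
        · have hcj := lk1_slider_code (cell_lt _ _) hdec hm₀c hk
          have hatt : ManAttacks (C.brd p) m₀ (sq C.o j) b := by
            rw [hja]
            rcases hgo with ⟨-, h1⟩ | ⟨-, h1⟩
            · rw [if_neg] at h1
              · exact h1
              · intro h2
                rw [h2] at hk
                rcases hk with h3 | h3 | h3 <;> cases h3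
            · exact h1
          obtain ⟨u, N', hu, hN', hbu, hclu, hmv⟩ := lk1_dir hcj hdec hatt
          obtain ⟨hut, hfj, n', hS, -⟩ := lk1_line hC h hρ hj (by omega) hu hn hN'
            (by rw [← hbu, hbr]) hclu (lk1_bslide hb0 hmv)
          subst hut
          refine ⟨ρ, hρ, h7, ⟨n, hn, hbr⟩, j, hj, ?_, hja.symm, ?_, ?_⟩
          · exact (lk1_opp h hu hj (by omega) (by omega) (hC.inner ρ hρ).1 hS).symm
          · have e1 : ∀ t ∈ orT, slM t = 0x3000 := by decide
            have e2 : ∀ t ∈ diT, slM t = 0x2800 := by decide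
            rcases hmv with ⟨h1, h2 | h2⟩ | ⟨h1, h2 | h2⟩
            · rw [e1 _ h1, h2]; decide
            · rw [e1 _ h1, h2]; decide
            · rw [e2 _ h1, h2]; decide
            · rw [e2 _ h1, h2]; decide
          · rw [Bool.eq_false_iff]
            intro hsafe
            obtain ⟨hWF, hb1, hb2⟩ := lk1_del h hj ⟨hcj1, hcj2⟩
            have hne : s ≠ sq C.o j := by rw [hja]; exact hsa
            refine safe_sound hC hWF h.lt (by rw [hWF.king]; decide) hsafe s m ?_ hmc ?_
            · rw [hb1 s hne]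
              exact hm
            · refine LF7_att' hd hcan hN hbN ?_
              intro l hl0 hln
              by_cases hln1 : l = n₁
              · rw [hln1, hen₁, ← hja]
                exact hb2
              · rw [hb1]
                · exact hcl' l hl0 hln hln1
                · intro he
                  rw [hja, ← hen₁] at he
                  exact hln1 (LC_smul_inj hvne (add_left_cancel he))
      · -- a piece on the ray
        subst hρt
        right; left
        have h15 : cell p (first p ρ'.t 20 k) ≠ 15 := by rw [hfst, h7']; decide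
        obtain ⟨n', hS⟩ := first_spec h h.lt (by rw [h.king]; decide) (LF7_mem hd) h15
        rw [hfst] at hS
        have e2 : n₁ = n' + na := by
          have e3 : sq C.o k + n₁ • vec ρ'.t = sq C.o k + (n' + na) • vec ρ'.t := by
            rw [hray]
            unfold Ctx.ray
            rw [hS.eq, add_assoc, ← add_smul]
          exact LC_smul_inj hvne (add_left_cancel e3)
        refine ⟨ρ', hρ', lk1_see7.2 ⟨h7', hfst⟩, lk1_hit hd hcan hmc hS (by omega) ?_ hcl0,
          hmark ρ' hρ' ⟨na, hna, by rw [← hray, hen₁]⟩⟩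
        rw [← hbN, hmove _ hsa hsb, hm]
  · right; right; left
    exact ⟨ρ, hρ, lk1_see7.2 ⟨h7, hfst⟩, hbe, edge_edge' hC h hρ h7 hE⟩
  · right; left
    exact ⟨ρ, hρ, lk1_see7.2 ⟨h7, hfst⟩, hH, hmark ρ hρ ha⟩

end Pool.Agent.Lib.H32C.Loc
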