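import Pool.Agent.Lib.H32C.LocL1

/-!
# Chunk LK2: soundness of certificates with events
-/

set_option autoImplicit false

namespace Pool.Agent.Lib.H32C.Loc

/-- A family of contexts `K n` (with at most `n` further events) closed under events. -/
structure Family (R : Room) (P : Par) (Rs : List Ray) (K : Nat → Ctx → Prop) : Prop where
  ok : ∀ n C, K n C → C.Ok
  rays : ∀ n C, K n C → C.R = Rs
  sep : ∀ n C, K n C → R.Sep C
  event : ∀ n C p k a b, ∀ ρ ∈ Rs, K n C → WF C p k → R.G (C.brd p) → see7 p k ρ = true →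
    Legal (C.brd p) false a b → ¬ (InB C.o a ∧ cell p (idx C.o a) ≠ 15) →
    Hit C ((C.brd p).move a b) ρ →
    memb ρ.e P.dead = false ∧ (P.fin = true → n ≠ 0) ∧ ∀ n', n = n' + 1 → ∃ C', K n' C' ∧
      C'.brd (arr' p ρ.e) = (C.brd p).move a b ∧ R.G ((C.brd p).move a b)
  edge : ∀ n C p k, ∀ ρ ∈ Rs, K n C → WF C p k → R.G (C.brd p) → see7 p k ρ = true →
    ∀ a, Legal (C.brd p) false a (sq C.o ρ.e) → ¬ Edge' C p ρ a
  leave : P.lv = true → ∀ n C p k j m, ∀ ρ ∈ Rs, K (n + 1) C → WF C p k → R.G (C.brd p) →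
    cell p ρ.e = 7 → memb ρ.e P.dead = false → j < 400 → cell p j = ρ.k → 0 < m →
    Legal (C.brd p) false (sq C.o j) (C.ray ρ m) → ∃ C', K n C' ∧
      C'.brd (arr' (Nat.xor p (Nat.shiftLeft ρ.k (Nat.mul 4 j))) ρ.e) =
        (C.brd p).move (sq C.o j) (C.ray ρ m) ∧ R.G ((C.brd p).move (sq C.o j) (C.ray ρ m))

/-! ### Unfolding of `chkA` -/

theorem LK2_exit (P : Par) (R : List Ray) (X : List (List Nat)) (i n p k : Nat) (L : List Nat) :
    chkA P R X (Tr.exit i) n p k L = Nat.beq (nth (nthL X n) i) p := rfl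

theorem LK2_nil_cons (P : Par) (R : List Ray) (X : List (List Nat)) (n p k m : Nat)
    (L : List Nat) :
    chkA P R X Tr.nil n p k (m :: L) = (Nat.blt 0 m &&
      (safe R (mvA R p (Nat.div m 400) (Nat.mod m 400)) k && chkA P R X Tr.nil n p k L)) := rfl

theorem LK2_cons_cons (P : Par) (R : List Ray) (X : List (List Nat)) (a b : Nat)
    (sub rest : Tr) (n p k m : Nat) (L : List Nat) :
    chkA P R X (Tr.cons a b sub rest) n p k (m :: L) = cond (Nat.beq 0 m) false
      (cond (safe R (mvA R p (Nat.div m 400) (Nat.mod m 400)) k)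
        (chkA P R X (Tr.cons a b sub rest) n p k L)
        (wOk R (mvA R p (Nat.div m 400) (Nat.mod m 400)) k a b &&
              (chkA P R X sub (naA n p (Nat.div m 400))
                (mv (mvA R p (Nat.div m 400) (Nat.mod m 400)) a b) (newK k a b)
                (checksA P R (naA n p (Nat.div m 400))
                  (mv (mvA R p (Nat.div m 400) (Nat.mod m 400)) a b) (newK k a b)) &&
              chkA P R X rest n p k L))) := rfl

/-- the cases of a certificate which is a list of replies -/
theorem LK2_cons {P : Par} {R : List Ray} {X : List (List Nat)} {a b : Nat} {sub rest : Tr}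
    {n p k m : Nat} {L : List Nat}
    (h : chkA P R X (Tr.cons a b sub rest) n p k (m :: L) = true) :
    m ≠ 0 ∧ ((safe R (mvA R p (m / 400) (m % 400)) k = true ∧
        chkA P R X (Tr.cons a b sub rest) n p k L = true) ∨
      (wOk R (mvA R p (m / 400) (m % 400)) k a b = true ∧
        chkA P R X sub (naA n p (m / 400)) (mv (mvA R p (m / 400) (m % 400)) a b) (newK k a b)
                (checksA P R (naA n p (m / 400))
                  (mv (mvA R p (m / 400) (m % 400)) a b) (newK k a b)) = true ∧
        chkA P R X rest n p k L = true)) := by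
  rw [LK2_cons_cons] at h
  have e1 : Nat.div m 400 = m / 400 := rfl
  have e2 : Nat.mod m 400 = m % 400 := rfl
  rw [e1, e2] at h
  by_cases hm : m = 0
  · subst hm
    exact absurd h Bool.false_ne_true
  · have hb : Nat.beq 0 m = false := by
      rw [Bool.eq_false_iff, ne_eq, LH2_beq]
      exact fun hh => hm hh.symm
    rw [hb] at h
    refine ⟨hm, ?_⟩
    by_cases hs : safe R (mvA R p (m / 400) (m % 400)) k = true
    · left
      rw [hs] at h
      exact ⟨hs, h⟩
    · right
      rw [Bool.not_eq_true] at hs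
      rw [hs] at h
      have h' : (wOk R (mvA R p (m / 400) (m % 400)) k a b &&
              (chkA P R X sub (naA n p (m / 400))
                (mv (mvA R p (m / 400) (m % 400)) a b) (newK k a b)
                (checksA P R (naA n p (m / 400)) (mv (mvA R p (m / 400) (m % 400)) a b)
                  (newK k a b)) &&
              chkA P R X rest n p k L)) = true := h
      rw [Bool.and_eq_true, Bool.and_eq_true] at h'
      exact h'

/-! ### The lists of events and departures -/

theorem LK2_arrL_cons (P : Par) (y : Ray) (R : List Ray) (n p k : Nat) (L : List Nat) :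
    arrL P (y :: R) n p k L = cond (see7 p k y && !memb y.e P.dead)
      (cond (Nat.beq n 0) (cond P.fin (arrL P R n p k L) (0 :: arrL P R n p k L))
        (enc y.e y.e :: arrL P R n p k L))
      (arrL P R n p k L) := rfl

theorem LK2_arrL_cons_sub {P : Par} {y : Ray} {R : List Ray} {n p k : Nat} {L : List Nat} {x : Nat}
    (hx : x ∈ arrL P R n p k L) : x ∈ arrL P (y :: R) n p k L := by
  rw [LK2_arrL_cons]
  cases (see7 p k y && !memb y.e P.dead) with
  | false => exact hx
  | true =>
    cases Nat.beq n 0 with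
    | true =>
      cases hf : P.fin with
      | true => exact hx
      | false => exact List.mem_cons_of_mem _ hx
    | false => exact List.mem_cons_of_mem _ hx

theorem LK2_arrL_sub {P : Par} {R : List Ray} {n p k : Nat} {L : List Nat} {x : Nat} (hx : x ∈ L) :
    x ∈ arrL P R n p k L := by
  induction R with
  | nil => exact hx
  | cons y R ih => exact LK2_arrL_cons_sub ih

theorem LK2_arrL_arr {P : Par} {R : List Ray} {n p k : Nat} {L : List Nat} {ρ : Ray} (hρ : ρ ∈ R)
    (h7 : see7 p k ρ = true) (hd : memb ρ.e P.dead = false) (hf : P.fin = true → n ≠ 0)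
    (h0 : 0 ∉ arrL P R n p k L) :
    n ≠ 0 ∧ enc ρ.e ρ.e ∈ arrL P R n p k L := by
  induction R with
  | nil => exact absurd hρ List.not_mem_nil
  | cons y R ih =>
    rcases List.mem_cons.1 hρ with h2 | h2
    · subst h2
      have h1 := LK2_arrL_cons P ρ R n p k L
      rw [h7, hd] at h1
      have h1' : arrL P (ρ :: R) n p k L = cond (Nat.beq n 0)
        (cond P.fin (arrL P R n p k L) (0 :: arrL P R n p k L))
        (enc ρ.e ρ.e :: arrL P R n p k L) := h1
      by_cases hn : n = 0
      · exfalso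
        apply h0
        have hff : P.fin = false := by
          rw [Bool.eq_false_iff]
          exact fun h => hf h hn
        rw [h1', LH2_beq.2 hn, hff]
        exact List.mem_cons_self
      · refine ⟨hn, ?_⟩
        have h3 : Nat.beq n 0 = false := by
          rw [Bool.eq_false_iff, ne_eq, LH2_beq]
          exact hn
        rw [h1', h3]
        exact List.mem_cons_self
    · obtain ⟨h3, h4⟩ := ih h2 (fun h => h0 (LK2_arrL_cons_sub h))
      exact ⟨h3, LK2_arrL_cons_sub h4⟩

/-- the list of departures, the list of rays used by `safe` being fixed -/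
def LK2_out (P : Par) (R₀ R : List Ray) (na p k : Nat) (L : List Nat) : List Nat :=
  List.rec L (fun ρ _ ih => cond (Nat.beq (cell p ρ.e) 7 &&
      msk (slM ρ.t) (cell p (first p (Nat.sub 84 ρ.t) 20 ρ.e)))
    (cond (safe R₀ (del p (first p (Nat.sub 84 ρ.t) 20 ρ.e)) k) ih
      (cond (P.lv && (Nat.blt 0 na && (Nat.beq (cell p (first p (Nat.sub 84 ρ.t) 20 ρ.e)) ρ.k &&
          !memb ρ.e P.dead)))
        (enc ρ.e (first p (Nat.sub 84 ρ.t) 20 ρ.e) :: ih) (0 :: ih))) ih) R

theorem LK2_outL_eq (P : Par) (R : List Ray) (n p k : Nat) (L : List Nat) :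
    outL P R n p k L = LK2_out P R R n p k L := rfl

theorem LK2_out_cons (P : Par) (R₀ : List Ray) (ρ : Ray) (R : List Ray) (n p k : Nat)
    (L : List Nat) :
    LK2_out P R₀ (ρ :: R) n p k L = cond (Nat.beq (cell p ρ.e) 7 &&
      msk (slM ρ.t) (cell p (first p (Nat.sub 84 ρ.t) 20 ρ.e)))
    (cond (safe R₀ (del p (first p (Nat.sub 84 ρ.t) 20 ρ.e)) k) (LK2_out P R₀ R n p k L)
      (cond (P.lv && (Nat.blt 0 n && (Nat.beq (cell p (first p (Nat.sub 84 ρ.t) 20 ρ.e)) ρ.k &&
          !memb ρ.e P.dead)))
        (enc ρ.e (first p (Nat.sub 84 ρ.t) 20 ρ.e) :: LK2_out P R₀ R n p k L)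
        (0 :: LK2_out P R₀ R n p k L))) (LK2_out P R₀ R n p k L) := rfl

theorem LK2_out_cons_sub {P : Par} {R₀ : List Ray} {y : Ray} {R : List Ray} {n p k : Nat}
    {L : List Nat} {x : Nat} (hx : x ∈ LK2_out P R₀ R n p k L) :
    x ∈ LK2_out P R₀ (y :: R) n p k L := by
  rw [LK2_out_cons]
  cases (Nat.beq (cell p y.e) 7 &&
      msk (slM y.t) (cell p (first p (Nat.sub 84 y.t) 20 y.e))) with
  | false => exact hx
  | true =>
    cases safe R₀ (del p (first p (Nat.sub 84 y.t) 20 y.e)) k with
    | true => exact hx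
    | false =>
      cases (P.lv && (Nat.blt 0 n && (Nat.beq (cell p (first p (Nat.sub 84 y.t) 20 y.e)) y.k &&
          !memb y.e P.dead))) with
      | true => exact List.mem_cons_of_mem _ hx
      | false => exact List.mem_cons_of_mem _ hx

theorem LK2_out_sub {P : Par} {R₀ R : List Ray} {n p k : Nat} {L : List Nat} {x : Nat}
    (hx : x ∈ L) : x ∈ LK2_out P R₀ R n p k L := by
  induction R with
  | nil => exact hx
  | cons y R ih => exact LK2_out_cons_sub ih

theorem LK2_out_out {P : Par} {R₀ R : List Ray} {n p k : Nat} {L : List Nat} {ρ : Ray}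
    (hρ : ρ ∈ R) (h7 : cell p ρ.e = 7) (h0 : 0 ∉ LK2_out P R₀ R n p k L) {j : Nat}
    (hj : j = first p (84 - ρ.t) 20 ρ.e) (hm : msk (slM ρ.t) (cell p j) = true)
    (hns : safe R₀ (del p j) k = false) :
    P.lv = true ∧ 0 < n ∧ cell p j = ρ.k ∧ memb ρ.e P.dead = false ∧
      enc ρ.e j ∈ LK2_out P R₀ R n p k L := by
  induction R with
  | nil => exact absurd hρ List.not_mem_nil
  | cons y R ih =>
    rcases List.mem_cons.1 hρ with h2 | h2
    · subst h2
      have h1 := LK2_out_cons P R₀ ρ R n p k L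
      have e : first p (Nat.sub 84 ρ.t) 20 ρ.e = j := hj.symm
      rw [e, h7, LH2_beq.2 rfl, hm, hns] at h1
      have h1' : LK2_out P R₀ (ρ :: R) n p k L =
        cond (P.lv && (Nat.blt 0 n && (Nat.beq (cell p j) ρ.k && !memb ρ.e P.dead)))
          (enc ρ.e j :: LK2_out P R₀ R n p k L) (0 :: LK2_out P R₀ R n p k L) := h1
      by_cases hc : (P.lv && (Nat.blt 0 n && (Nat.beq (cell p j) ρ.k && !memb ρ.e P.dead))) = true
      · rw [hc] at h1'
        rw [Bool.and_eq_true, Bool.and_eq_true, Bool.and_eq_true, LH2_beq, Nat.blt_eq,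
          Bool.not_eq_true'] at hc
        refine ⟨hc.1, hc.2.1, hc.2.2.1, hc.2.2.2, ?_⟩
        rw [h1']
        exact List.mem_cons_self
      · rw [Bool.not_eq_true] at hc
        rw [hc] at h1'
        exfalso
        apply h0
        rw [h1']
        exact List.mem_cons_self
    · obtain ⟨h3, h4, h5, h6, h7⟩ := ih h2 (fun h => h0 (LK2_out_cons_sub h))
      exact ⟨h3, h4, h5, h6, LK2_out_cons_sub h7⟩

/-! ### Well formed patches after an event -/

theorem LK2_wf_arr {C C' : Ctx} (hC : C.Ok) (hR : C'.R = C.R) {p k : Nat} (h : WF C p k)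
    {ρ : Ray} (hρ : ρ ∈ C.R) (h7 : cell p ρ.e = 7) : WF C' (arr' p ρ.e) k := by
  have hcell : ∀ i, cell (arr' p ρ.e) i = if i = ρ.e then 8 else cell p i := cell_arr h7
  have heI := (hC.inner ρ hρ).1
  refine ⟨h.lt, ?_, ?_, ?_, ?_, ?_, ?_⟩
  · rw [hcell, if_neg]
    · exact h.king
    · rintro rfl
      have := h.king
      omega
  · intro i hi h6
    rw [hcell] at h6
    split_ifs at h6 with h1
    · omega
    · exact h.uniq i hi h6
  · intro i hi hI
    rw [hcell, if_neg]
    · exact h.margin i hi hI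
    · rintro rfl; exact hI heI
  · intro i hi h78
    rw [hR]
    rw [hcell] at h78
    split_ifs at h78 with h1
    · exact ⟨ρ, hρ, h1.symm⟩
    · exact h.mark i hi h78
  · intro i hi
    rw [hcell]
    split_ifs with h1
    · decide
    · exact h.noBK i hi
  · refine ray15_congr h hR fun i hi h15 => ?_
    rw [hcell, if_neg]
    · exact h15
    · rintro rfl
      omega

theorem LK2_wf_out {C C' : Ctx} (hC : C.Ok) (hR : C'.R = C.R) {p k : Nat} (h : WF C p k)
    {ρ : Ray} (hρ : ρ ∈ C.R) (h7 : cell p ρ.e = 7) {j : Nat} (hj : j < 400)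
    (hcj : cell p j = ρ.k) :
    WF C' (arr' (Nat.xor p (Nat.shiftLeft ρ.k (Nat.mul 4 j))) ρ.e) k := by
  have hkk : 11 ≤ ρ.k ∧ ρ.k ≤ 13 := by
    rcases hC.kind ρ hρ with ⟨_, h1 | h1⟩ | ⟨_, h1 | h1⟩ <;> omega
  have hje : ρ.e ≠ j := by
    rintro rfl
    omega
  have hc1 : ∀ i, cell (Nat.xor p (Nat.shiftLeft ρ.k (Nat.mul 4 j))) i =
      if i = j then 0 else cell p i := LB_cell_xor hcj
  have h7' : cell (Nat.xor p (Nat.shiftLeft ρ.k (Nat.mul 4 j))) ρ.e = 7 := by
    rw [hc1, if_neg hje, h7]
  have hcell : ∀ i, cell (arr' (Nat.xor p (Nat.shiftLeft ρ.k (Nat.mul 4 j))) ρ.e) i =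
      if i = ρ.e then 8 else if i = j then 0 else cell p i := by
    intro i
    have h1 : cell (arr' (Nat.xor p (Nat.shiftLeft ρ.k (Nat.mul 4 j))) ρ.e) i =
      if i = ρ.e then 8 else cell (Nat.xor p (Nat.shiftLeft ρ.k (Nat.mul 4 j))) i := cell_arr h7' i
    rw [h1, hc1]
  have heI := (hC.inner ρ hρ).1
  have hjI : Inner j := inner_of_cell h hj (by omega)
  have hjk : k ≠ j := by
    rintro rfl
    have := h.king
    omega
  generalize hp' : arr' (Nat.xor p (Nat.shiftLeft ρ.k (Nat.mul 4 j))) ρ.e = p' at hcell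
  refine ⟨h.lt, ?_, ?_, ?_, ?_, ?_, ?_⟩
  · rw [hcell, if_neg, if_neg hjk]
    · exact h.king
    · rintro rfl
      have := h.king
      omega
  · intro i hi h6
    rw [hcell] at h6
    split_ifs at h6 with h1 h2
    · omega
    · exact h.uniq i hi h6
  · intro i hi hI
    rw [hcell, if_neg, if_neg]
    · exact h.margin i hi hI
    · rintro rfl; exact hI hjI
    · rintro rfl; exact hI heI
  · intro i hi h78
    rw [hR]
    rw [hcell] at h78
    split_ifs at h78 with h1 h2
    · exact ⟨ρ, hρ, h1.symm⟩
    · simp at h78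
    · exact h.mark i hi h78
  · intro i hi
    rw [hcell]
    split_ifs with h1 h2
    · decide
    · decide
    · exact h.noBK i hi
  · refine ray15_congr h hR fun i hi h15 => ?_
    rw [hcell, if_neg, if_neg]
    · exact h15
    · rintro rfl
      omega
    · rintro rfl
      omega

/-! ### The main argument -/

/-- what is known about an element of the list of moves -/
def LK2_Good (R : Room) (Rs : List Ray) (K : Nat → Ctx → Prop) (n p k m : Nat) : Prop :=
  m ≠ 0 ∧ ∀ C', K (naA n p (m / 400)) C' → WF C' (mvA Rs p (m / 400) (m % 400)) k →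
    R.G (C'.brd (mvA Rs p (m / 400) (m % 400))) →
    safe Rs (mvA Rs p (m / 400) (m % 400)) k = true ∨
      HasValue ⟨C'.brd (mvA Rs p (m / 400) (m % 400)), true⟩

theorem LK2_mvA_ne {Rs : List Ray} {p a b : Nat} (h : cell p a ≠ 7) :
    mvA Rs p a b = mvb Rs p a b := by
  have h1 : Nat.beq (cell p a) 7 = false := by
    rw [Bool.eq_false_iff, ne_eq, LH2_beq]
    exact h
  unfold mvA
  rw [h1]
  rfl

theorem LK2_naA_ne {n p a : Nat} (h : cell p a ≠ 7) : naA n p a = n := by
  have h1 : Nat.beq (cell p a) 7 = false := by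
    rw [Bool.eq_false_iff, ne_eq, LH2_beq]
    exact h
  unfold naA
  rw [h1]
  rfl

theorem LK2_naA_eq {n p a : Nat} (h : cell p a = 7) : naA (n + 1) p a = n := by
  unfold naA
  rw [h]
  rfl

theorem LK2_mvA_arr {Rs : List Ray} {p a : Nat} (h : cell p a = 7) :
    mvA Rs p a a = arr' p a := by
  unfold mvA
  rw [h, LH2_beq.2 rfl, LH2_beq.2 rfl, cond_true, cond_true]

theorem LK2_mvA_out {Rs : List Ray} {p a b : Nat} (h : cell p a = 7) (hab : a ≠ b) :
    mvA Rs p a b = arr' (Nat.xor p (Nat.shiftLeft (farK Rs a) (Nat.mul 4 b))) a := by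
  have h1 : Nat.beq a b = false := by
    rw [Bool.eq_false_iff, ne_eq, LH2_beq]
    exact hab
  unfold mvA
  rw [h, LH2_beq.2 rfl, h1, cond_true, cond_false]

/-- a move of the patch: the statement for the move in the context itself -/
theorem LK2_move {R : Room} {P : Par} {Rs : List Ray} {K : Nat → Ctx → Prop}
    (hK : Family R P Rs K) {n : Nat} {C : Ctx} (hn : K n C) {p k m : Nat} (h : WF C p k)
    (hG : R.G (C.brd p)) {a b : Sq} (hm : Is C p m a b) (hmo : MoveOk p (m / 400) (m % 400))
    (hch : InCheck ((C.brd p).move a b) true) (hg : LK2_Good R Rs K n p k m) :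
    HasValue ⟨(C.brd p).move a b, true⟩ := by
  have hC := hK.ok n C hn
  have h7 : cell p (m / 400) ≠ 7 := by
    have := hmo.src
    omega
  have h1 := hg.2 C
  rw [LK2_mvA_ne h7, LK2_naA_ne h7, ← hK.rays n C hn] at h1
  have hb := Is.brd hC h hm hmo
  rcases h1 hn (wf_mvb hC h hmo) (Room.G_brd R (hK.sep n C hn) hG) with h3 | h3
  · exfalso
    have h4 := safe_noCheck hC (wf_mvb hC h hmo) h3
    rw [hb] at h4
    exact h4 hch
  · rw [hb] at h3
    exact h3

theorem LK2_black {R : Room} {P : Par} {Rs : List Ray} {K : Nat → Ctx → Prop}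
    (hK : Family R P Rs K) {n : Nat} {C : Ctx} (hn : K n C) {p k : Nat} (h : WF C p k)
    (hG : R.G (C.brd p)) (hs : safe Rs p k = true)
    (hg : ∀ m ∈ checksA P Rs n p k, LK2_Good R Rs K n p k m) : HasValue ⟨C.brd p, false⟩ := by
  have hC := hK.ok n C hn
  have hR := hK.sep n C hn
  have hRs := hK.rays n C hn
  have h0 : 0 ∉ checksA P Rs n p k := fun h0 => (hg 0 h0).1 rfl
  have hs' : safe C.R p k = true := by rw [hRs]; exact hs
  have hKa := kingAt hC h
  have hZ : sq C.o k ∉ R.Z := hR.patch _ (inB_sq C.o h.lt)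
  apply hasValue_black (R.legal _ _ hG (oneBK hC h) hKa hZ)
  intro a b hl
  by_cases hch : InCheck ((C.brd p).move a b) true
  swap
  · exact R.mate _ _ a b hG (oneBK hC h) hKa hZ hl hch
  cases hc : has7 Rs p with
  | false =>
    have e : checksA P Rs n p k = checks C.R false p k := by
      unfold checksA
      rw [hc, hRs]
      rfl
    rw [e] at h0 hg
    rcases checks_complete hC h hs' false h0 a b hl hch with ⟨m, hm1, hm2, hm3⟩ | h3
    · exact LK2_move hK hn h hG hm2 hm3 hch (hg m hm1)
    · exfalso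
      simp at h3
  | true =>
    cases hcl : (Nat.beq (seenM Rs p k) 0 || closedX Rs p (seenM Rs p k) 400) with
    | false =>
      exfalso
      apply h0
      unfold checksA
      rw [hc, hcl]
      exact List.mem_cons_self
    | true =>
      have e : checksA P Rs n p k =
          arrL P Rs n p k (LK2_out P Rs Rs n p k (checks Rs true p k)) := by
        unfold checksA
        rw [hc, hcl]
        rfl
      rw [e] at h0 hg
      have h0' : 0 ∉ LK2_out P Rs Rs n p k (checks Rs true p k) := fun hh => h0 (LK2_arrL_sub hh)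
      have h0'' : 0 ∉ checks C.R true p k := by
        rw [hRs]
        exact fun hh => h0' (LK2_out_sub hh)
      have hcl' : seenM C.R p k = 0 ∨ closedX C.R p (seenM C.R p k) 400 = true := by
        rw [hRs]
        rw [Bool.or_eq_true, LH2_beq] at hcl
        exact hcl
      rcases event_cases hC h hs' hcl' h0'' a b hl hch with
        ⟨m, hm1, hm2, hm3⟩ | ⟨ρ, hρ, hsee, hhit, hout⟩ | ⟨ρ, hρ, hsee, rfl, hE⟩ |
          ⟨ρ, hρ, h7, ⟨m, hm, rfl⟩, j, hj, hj1, rfl, hj2, hj3⟩
      · rw [hRs] at hm1
        exact LK2_move hK hn h hG hm2 hm3 hch (hg m (LK2_arrL_sub (LK2_out_sub hm1)))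
      · have hρ' : ρ ∈ Rs := by rw [← hRs]; exact hρ
        obtain ⟨hd, hfin, hev⟩ := hK.event n C p k a b ρ hρ' hn h hG hsee hl hout hhit
        obtain ⟨hn0, hmem⟩ := LK2_arrL_arr hρ' hsee hd hfin h0
        obtain ⟨n', rfl⟩ := Nat.exists_eq_succ_of_ne_zero hn0
        obtain ⟨C', hC', hbrd, hG'⟩ := hev n' rfl
        have h7 : cell p ρ.e = 7 := by
          unfold see7 at hsee
          rw [Bool.and_eq_true, LH2_beq] at hsee
          exact hsee.1
        have he := inner_lt (hC.inner ρ hρ).1
        have h1 := (hg _ hmem).2 C'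
        have e1 : naA (n'.succ) p ρ.e = n' := LK2_naA_eq h7
        rw [enc_div he, enc_mod he, LK2_mvA_arr h7, e1] at h1
        have hRs' := hK.rays _ _ hC'
        have hWF : WF C' (arr' p ρ.e) k := LK2_wf_arr hC (hRs'.trans hRs.symm) h hρ h7
        rw [← hbrd] at hG'
        rcases h1 hC' hWF hG' with h2 | h2
        · exfalso
          have h3 := safe_noCheck (hK.ok _ _ hC') hWF (hRs' ▸ h2)
          rw [hbrd] at h3
          exact h3 hch
        · rw [hbrd] at h2
          exact h2
      · exact absurd hE (hK.edge n C p k ρ (by rw [← hRs]; exact hρ) hn h hG hsee a hl)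
      · have hρ' : ρ ∈ Rs := by rw [← hRs]; exact hρ
        rw [hRs] at hj3
        obtain ⟨hlv, hn0, hcj, hd, hmem⟩ := LK2_out_out hρ' h7 h0' hj1 hj2 hj3
        obtain ⟨n', rfl⟩ := Nat.exists_eq_succ_of_ne_zero hn0.ne'
        obtain ⟨C', hC', hbrd, hG'⟩ :=
          hK.leave hlv n' C p k j m ρ hρ' hn h hG h7 hd hj hcj hm hl
        have h1 := (hg _ (LK2_arrL_sub hmem)).2 C'
        have hkk : 11 ≤ ρ.k ∧ ρ.k ≤ 13 := by
          rcases hC.kind ρ hρ with ⟨_, h1 | h1⟩ | ⟨_, h1 | h1⟩ <;> omega
        have hej : ρ.e ≠ j := by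
          rintro he
          rw [he] at h7
          omega
        have hfk : farK Rs ρ.e = ρ.k := by
          rw [← hRs]
          exact farK_eq hC.nodup hρ
        have e1 : naA (n'.succ) p ρ.e = n' := LK2_naA_eq h7
        rw [enc_div hj, enc_mod hj, LK2_mvA_out h7 hej, hfk, e1] at h1
        have hRs' := hK.rays _ _ hC'
        have hWF := LK2_wf_out hC (hRs'.trans hRs.symm) h hρ h7 hj hcj
        rw [← hbrd] at hG'
        rcases h1 hC' hWF hG' with h2 | h2
        · exfalso
          have h3 := safe_noCheck (hK.ok _ _ hC') hWF (hRs' ▸ h2)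
          rw [hbrd] at h3
          exact h3 hch
        · rw [hbrd] at h2
          exact h2

theorem LK2_list {R : Room} {P : Par} {Rs : List Ray} {K : Nat → Ctx → Prop}
    (hK : Family R P Rs K) (X : List (List Nat))
    (hX : ∀ n C x, K n C → x ∈ nthL X n → HasValue ⟨C.brd x, false⟩) (tr : Tr) :
    ∀ (_ : tr.Small) (_ : ∀ i, tr ≠ Tr.exit i) (n p k : Nat) (_ : p ≠ 0) (L : List Nat)
    (_ : chkA P Rs X tr n p k L = true),
    p ∈ nthL X n ∨ ∀ m ∈ L, LK2_Good R Rs K n p k m := by
  induction tr with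
  | exit i => intro _ h; exact absurd rfl (h i)
  | nil =>
    intro _ _ n p k _ L hc
    right
    induction L with
    | nil => intro m hm; exact absurd hm List.not_mem_nil
    | cons m L ih =>
      rw [LK2_nil_cons, Bool.and_eq_true, Bool.and_eq_true] at hc
      intro m' hm'
      rcases List.mem_cons.1 hm' with h1 | h1
      · subst h1
        exact ⟨LH2_blt hc.1, fun C' _ _ _ => Or.inl hc.2.1⟩
      · exact ih hc.2.2 m' h1
  | cons a b sub rest ihs ihr =>
    intro htr _ n p k hp L hc
    obtain ⟨ha, hsub, hrest⟩ := htr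
    induction L with
    | nil => right; intro m hm; exact absurd hm List.not_mem_nil
    | cons m L ih =>
      obtain ⟨hm, hc⟩ := LK2_cons hc
      have key : (p ∈ nthL X n ∨ ∀ m ∈ L, LK2_Good R Rs K n p k m) ∧
          LK2_Good R Rs K n p k m := by
        rcases hc with ⟨hs, hc⟩ | ⟨hw, hcs, hcr⟩
        · exact ⟨ih hc, hm, fun C' _ _ _ => Or.inl hs⟩
        · constructor
          · by_cases hr : ∃ i, rest = Tr.exit i
            · obtain ⟨i, rfl⟩ := hr
              rw [LK2_exit, LH2_beq] at hcr
              left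
              rw [← hcr]
              apply LH2_nth
              rw [hcr]
              exact hp
            · push Not at hr
              exact ihr hrest hr n p k hp L hcr
          · refine ⟨hm, fun C' hn' hq hGq => Or.inr ?_⟩
            have hC' := hK.ok _ _ hn'
            have hR' := hK.rays _ _ hn'
            rw [← hR'] at hw
            obtain ⟨hl, hb, hwf, hsafe⟩ := wOk_sound hC' (by rw [hR']; exact hq) ha hw
            rw [hR'] at hl hb hwf hsafe
            refine hasValue_white hl ?_
            rw [← hb]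
            have hG' : R.G (C'.brd (mv (mvA Rs p (m / 400) (m % 400)) a b)) :=
              Room.G_brd R (hK.sep _ _ hn') hGq
            by_cases hr : ∃ i, sub = Tr.exit i
            · obtain ⟨i, rfl⟩ := hr
              rw [LK2_exit, LH2_beq] at hcs
              apply hX _ _ _ hn'
              rw [← hcs]
              apply LH2_nth
              rw [hcs]
              exact LH2_ne_zero hwf
            · push Not at hr
              rcases ihs hsub hr _ _ _ (LH2_ne_zero hwf) _ hcs with h1 | h1
              · exact hX _ _ _ hn' h1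
              · exact LK2_black hK hn' hwf hG' hsafe h1
      obtain ⟨k1, k2⟩ := key
      rcases k1 with k1 | k1
      · exact Or.inl k1
      · right
        intro m' hm'
        rcases List.mem_cons.1 hm' with h1 | h1
        · subst h1
          exact k2
        · exact k1 m' h1

/-- **Soundness of certificates with events.** -/
theorem chkA_sound {R : Room} {P : Par} {Rs : List Ray} {K : Nat → Ctx → Prop}
    (hK : Family R P Rs K) (X : List (List Nat))
    (hX : ∀ n C x, K n C → x ∈ nthL X n → HasValue ⟨C.brd x, false⟩)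
    (tr : Tr) (htr : tr.Small) (hne : ∀ i, tr ≠ Tr.exit i) (n : Nat) (C : Ctx) (hn : K n C)
    (p k : Nat) (h : WF C p k) (hG : R.G (C.brd p)) (hs : safe Rs p k = true)
    (hc : chkA P Rs X tr n p k (checksA P Rs n p k) = true) : HasValue ⟨C.brd p, false⟩ := by
  rcases LK2_list hK X hX tr htr hne n p k (LH2_ne_zero h) _ hc with h1 | h1
  · exact hX _ _ _ hn h1
  · exact LK2_black hK hn h hG hs h1

end Pool.Agent.Lib.H32C.Loc
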