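import Pool.Agent.Lib.H32C.LocL2

/-!
# Certificates with events: contexts which allow only some marks

In a family of contexts with several possible events the exits of a certificate are valid only for some of the
contexts: `V C e` means that in the context `C` the ray with mark on `e` may have a far slider (code `8`).
-/

set_option autoImplicit false

namespace Pool.Agent.Lib.H32C.Loc

/-- the marks with code `8` are allowed -/
def ValP (Rs : List Ray) (V : Ctx → Nat → Prop) (C : Ctx) (p : Nat) : Prop :=
  ∀ ρ ∈ Rs, cell p ρ.e = 8 → V C ρ.e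

/-- a family of contexts with allowed marks -/
structure FamV (R : Room) (P : Par) (Rs : List Ray) (K : Nat → Ctx → Prop) (V : Ctx → Nat → Prop) :
    Prop where
  fam : Family R P Rs K
  lv : P.lv = false
  event : ∀ n C p k a b, ∀ ρ ∈ Rs, K (n + 1) C → WF C p k → R.G (C.brd p) → see7 p k ρ = true →
    Legal (C.brd p) false a b → ¬ (InB C.o a ∧ cell p (idx C.o a) ≠ 15) →
    Hit C ((C.brd p).move a b) ρ → ValP Rs V C p →
    ∃ C', K n C' ∧ C'.brd (arr' p ρ.e) = (C.brd p).move a b ∧ R.G ((C.brd p).move a b) ∧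
      V C' ρ.e ∧ ∀ ρ' ∈ Rs, cell p ρ'.e = 8 → V C' ρ'.e

theorem LN_mvb {C : Ctx} (hC : C.Ok) {V : Ctx → Nat → Prop} {p k a b : Nat} (h : WF C p k)
    (hm : MoveOk p a b) (hv : ValP C.R V C p) : ValP C.R V C (mvb C.R p a b) := by
  obtain ⟨ha, hb, hne, hsrc, hdst⟩ := hm
  intro ρ' hρ' h8'
  apply hv ρ' hρ'
  rcases hsrc with h8 | h9
  · obtain ⟨ρ, hρ, rfl⟩ := h.mark a ha (Or.inr h8)
    have hk := farK_eq hC.nodup hρ
    have hkk := LB_kind hC hρ
    have hcell := cell_mvb (R := C.R) h8 (by rw [hk]; omega) hne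
    rw [hk] at hcell
    rw [hcell] at h8'
    split_ifs at h8' with h1 h2
    · exfalso
      omega
    · exfalso
      omega
    · exact h8'
  · rw [mvb_eq (by omega), cell_mv hne] at h8'
    split_ifs at h8' with h1 h2
    · omega
    · exact h8'

theorem LN_mv {C : Ctx} {V : Ctx → Nat → Prop} {p k a b : Nat} (h : WF C p k) (ha : a < 400)
    (hw : wOk C.R p k a b = true) (hv : ValP C.R V C p) : ValP C.R V C (mv p a b) := by
  unfold wOk at hw
  rw [Bool.and_eq_true] at hw
  obtain ⟨hb, hne, hca, hcb⟩ := wGo_ok h ha hw.1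
  intro ρ' hρ' h8'
  apply hv ρ' hρ'
  rw [cell_mv hne] at h8'
  split_ifs at h8' with h1 h2
  · omega
  · exact h8'

/-- what is known about an element of the list of moves -/
def LN_Good (R : Room) (Rs : List Ray) (K : Nat → Ctx → Prop) (V : Ctx → Nat → Prop)
    (n p k m : Nat) : Prop :=
  m ≠ 0 ∧ ∀ C', K (naA n p (m / 400)) C' → WF C' (mvA Rs p (m / 400) (m % 400)) k →
    R.G (C'.brd (mvA Rs p (m / 400) (m % 400))) →
    ValP Rs V C' (mvA Rs p (m / 400) (m % 400)) →
    safe Rs (mvA Rs p (m / 400) (m % 400)) k = true ∨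
      HasValue ⟨C'.brd (mvA Rs p (m / 400) (m % 400)), true⟩

/-- a move of the patch: the statement for the move in the context itself -/
theorem LN_move {R : Room} {P : Par} {Rs : List Ray} {K : Nat → Ctx → Prop} {V : Ctx → Nat → Prop}
    (hK : FamV R P Rs K V) {n : Nat} {C : Ctx} (hn : K n C) {p k m : Nat} (h : WF C p k)
    (hG : R.G (C.brd p)) (hv : ValP Rs V C p) {a b : Sq} (hm : Is C p m a b)
    (hmo : MoveOk p (m / 400) (m % 400))
    (hch : InCheck ((C.brd p).move a b) true) (hg : LN_Good R Rs K V n p k m) :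
    HasValue ⟨(C.brd p).move a b, true⟩ := by
  have hC := hK.fam.ok n C hn
  have h7 : cell p (m / 400) ≠ 7 := by
    have := hmo.src
    omega
  have h1 := hg.2 C
  rw [LK2_mvA_ne h7, LK2_naA_ne h7, ← hK.fam.rays n C hn] at h1
  rw [← hK.fam.rays n C hn] at hv
  have hb := Is.brd hC h hm hmo
  rcases h1 hn (wf_mvb hC h hmo) (Room.G_brd R (hK.fam.sep n C hn) hG) (LN_mvb hC h hmo hv) with h3 | h3
  · exfalso
    have h4 := safe_noCheck hC (wf_mvb hC h hmo) h3
    rw [hb] at h4
    exact h4 hch
  · rw [hb] at h3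
    exact h3

theorem LN_black {R : Room} {P : Par} {Rs : List Ray} {K : Nat → Ctx → Prop} {V : Ctx → Nat → Prop}
    (hK : FamV R P Rs K V) {n : Nat} {C : Ctx} (hn : K n C) {p k : Nat} (h : WF C p k)
    (hG : R.G (C.brd p)) (hv : ValP Rs V C p) (hs : safe Rs p k = true)
    (hg : ∀ m ∈ checksA P Rs n p k, LN_Good R Rs K V n p k m) : HasValue ⟨C.brd p, false⟩ := by
  have hC := hK.fam.ok n C hn
  have hR := hK.fam.sep n C hn
  have hRs := hK.fam.rays n C hn
  have h0 : 0 ∉ checksA P Rs n p k := fun h0 => (hg 0 h0).1 rfl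
  have hs' : safe C.R p k = true := by rw [hRs]; exact hs
  have hKa := kingAt hC h
  have hZ : sq C.o k ∉ R.Z := hR.patch _ (inB_sq C.o h.lt)
  apply hasValue_black (R.legal _ _ hG (oneBK hC h) hKa hZ)
  intro a b hl
  by_cases hch : InCheck ((C.brd p).move a b) true
  swap
  · exact R.mate _ _ a b hG (oneBK hC h) hKa hZ hl hch
  cases hc : has7 Rs p with
  | false =>
    have e : checksA P Rs n p k = checks C.R false p k := by
      unfold checksA
      rw [hc, hRs]
      rfl
    rw [e] at h0 hg
    rcases checks_complete hC h hs' false h0 a b hl hch with ⟨m, hm1, hm2, hm3⟩ | h3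
    · exact LN_move hK hn h hG hv hm2 hm3 hch (hg m hm1)
    · exfalso
      simp at h3
  | true =>
    cases hcl : (Nat.beq (seenM Rs p k) 0 || closedX Rs p (seenM Rs p k) 400) with
    | false =>
      exfalso
      apply h0
      unfold checksA
      rw [hc, hcl]
      exact List.mem_cons_self
    | true =>
      have e : checksA P Rs n p k =
          arrL P Rs n p k (LK2_out P Rs Rs n p k (checks Rs true p k)) := by
        unfold checksA
        rw [hc, hcl]
        rfl
      rw [e] at h0 hg
      have h0' : 0 ∉ LK2_out P Rs Rs n p k (checks Rs true p k) := fun hh => h0 (LK2_arrL_sub hh)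
      have h0'' : 0 ∉ checks C.R true p k := by
        rw [hRs]
        exact fun hh => h0' (LK2_out_sub hh)
      have hcl' : seenM C.R p k = 0 ∨ closedX C.R p (seenM C.R p k) 400 = true := by
        rw [hRs]
        rw [Bool.or_eq_true, LH2_beq] at hcl
        exact hcl
      rcases event_cases hC h hs' hcl' h0'' a b hl hch with
        ⟨m, hm1, hm2, hm3⟩ | ⟨ρ, hρ, hsee, hhit, hout⟩ | ⟨ρ, hρ, hsee, rfl, hE⟩ |
          ⟨ρ, hρ, h7, ⟨m, hm, rfl⟩, j, hj, hj1, rfl, hj2, hj3⟩
      · rw [hRs] at hm1
        exact LN_move hK hn h hG hv hm2 hm3 hch (hg m (LK2_arrL_sub (LK2_out_sub hm1)))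
      · have hρ' : ρ ∈ Rs := by rw [← hRs]; exact hρ
        obtain ⟨hd, hfin, hev⟩ := hK.fam.event n C p k a b ρ hρ' hn h hG hsee hl hout hhit
        obtain ⟨hn0, hmem⟩ := LK2_arrL_arr hρ' hsee hd hfin h0
        obtain ⟨n', rfl⟩ := Nat.exists_eq_succ_of_ne_zero hn0
        obtain ⟨C', hC', hbrd, hG', hV1, hV2⟩ := hK.event n' C p k a b ρ hρ' hn h hG hsee hl hout hhit hv
        have h7 : cell p ρ.e = 7 := by
          unfold see7 at hsee
          rw [Bool.and_eq_true, LH2_beq] at hsee
          exact hsee.1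
        have he := inner_lt (hC.inner ρ hρ).1
        have h1 := (hg _ hmem).2 C'
        have e1 : naA (n'.succ) p ρ.e = n' := LK2_naA_eq h7
        rw [enc_div he, enc_mod he, LK2_mvA_arr h7, e1] at h1
        have hRs' := hK.fam.rays _ _ hC'
        have hWF : WF C' (arr' p ρ.e) k := LK2_wf_arr hC (hRs'.trans hRs.symm) h hρ h7
        rw [← hbrd] at hG'
        have hVP : ValP Rs V C' (arr' p ρ.e) := by
          intro ρ' hρ'' h8
          have h9 : cell (arr' p ρ.e) ρ'.e = if ρ'.e = ρ.e then 8 else cell p ρ'.e := cell_arr h7 _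
          rw [h9] at h8
          split_ifs at h8 with h10
          · rw [h10]
            exact hV1
          · exact hV2 ρ' hρ'' h8
        rcases h1 hC' hWF hG' hVP with h2 | h2
        · exfalso
          have h3 := safe_noCheck (hK.fam.ok _ _ hC') hWF (hRs' ▸ h2)
          rw [hbrd] at h3
          exact h3 hch
        · rw [hbrd] at h2
          exact h2
      · exact absurd hE (hK.fam.edge n C p k ρ (by rw [← hRs]; exact hρ) hn h hG hsee a hl)
      · exfalso
        have hρ' : ρ ∈ Rs := by rw [← hRs]; exact hρ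
        rw [hRs] at hj3
        obtain ⟨hlv, -⟩ := LK2_out_out hρ' h7 h0' hj1 hj2 hj3
        rw [hK.lv] at hlv
        exact Bool.false_ne_true hlv

theorem LN_list {R : Room} {P : Par} {Rs : List Ray} {K : Nat → Ctx → Prop} {V : Ctx → Nat → Prop}
    (hK : FamV R P Rs K V) (X : List (List Nat))
    (hX : ∀ n C x, K n C → ValP Rs V C x → x ∈ nthL X n → HasValue ⟨C.brd x, false⟩) (tr : Tr) :
    ∀ (_ : tr.Small) (_ : ∀ i, tr ≠ Tr.exit i) (n p k : Nat) (_ : p ≠ 0) (L : List Nat)
    (_ : chkA P Rs X tr n p k L = true),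
    p ∈ nthL X n ∨ ∀ m ∈ L, LN_Good R Rs K V n p k m := by
  induction tr with
  | exit i => intro _ h; exact absurd rfl (h i)
  | nil =>
    intro _ _ n p k _ L hc
    right
    induction L with
    | nil => intro m hm; exact absurd hm List.not_mem_nil
    | cons m L ih =>
      rw [LK2_nil_cons, Bool.and_eq_true, Bool.and_eq_true] at hc
      intro m' hm'
      rcases List.mem_cons.1 hm' with h1 | h1
      · subst h1
        exact ⟨LH2_blt hc.1, fun C' _ _ _ _ => Or.inl hc.2.1⟩
      · exact ih hc.2.2 m' h1
  | cons a b sub rest ihs ihr =>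
    intro htr _ n p k hp L hc
    obtain ⟨ha, hsub, hrest⟩ := htr
    induction L with
    | nil => right; intro m hm; exact absurd hm List.not_mem_nil
    | cons m L ih =>
      obtain ⟨hm, hc⟩ := LK2_cons hc
      have key : (p ∈ nthL X n ∨ ∀ m ∈ L, LN_Good R Rs K V n p k m) ∧
          LN_Good R Rs K V n p k m := by
        rcases hc with ⟨hs, hc⟩ | ⟨hw, hcs, hcr⟩
        · exact ⟨ih hc, hm, fun C' _ _ _ _ => Or.inl hs⟩
        · constructor
          · by_cases hr : ∃ i, rest = Tr.exit i
            · obtain ⟨i, rfl⟩ := hr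
              rw [LK2_exit, LH2_beq] at hcr
              left
              rw [← hcr]
              apply LH2_nth
              rw [hcr]
              exact hp
            · push Not at hr
              exact ihr hrest hr n p k hp L hcr
          · refine ⟨hm, fun C' hn' hq hGq hvq => Or.inr ?_⟩
            have hC' := hK.fam.ok _ _ hn'
            have hR' := hK.fam.rays _ _ hn'
            rw [← hR'] at hw
            have hvm : ValP Rs V C' (mv (mvA Rs p (m / 400) (m % 400)) a b) := by
              have hq2 : WF C' (mvA C'.R p (m / 400) (m % 400)) k := by rw [hR']; exact hq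
              have h9 := LN_mv (V := V) hq2 ha hw (by rw [hR']; exact hvq)
              rw [hR'] at h9
              exact h9
            obtain ⟨hl, hb, hwf, hsafe⟩ := wOk_sound hC' (by rw [hR']; exact hq) ha hw
            rw [hR'] at hl hb hwf hsafe
            refine hasValue_white hl ?_
            rw [← hb]
            have hG' : R.G (C'.brd (mv (mvA Rs p (m / 400) (m % 400)) a b)) :=
              Room.G_brd R (hK.fam.sep _ _ hn') hGq
            by_cases hr : ∃ i, sub = Tr.exit i
            · obtain ⟨i, rfl⟩ := hr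
              rw [LK2_exit, LH2_beq] at hcs
              apply hX _ _ _ hn' hvm
              rw [← hcs]
              apply LH2_nth
              rw [hcs]
              exact LH2_ne_zero hwf
            · push Not at hr
              rcases ihs hsub hr _ _ _ (LH2_ne_zero hwf) _ hcs with h1 | h1
              · exact hX _ _ _ hn' hvm h1
              · exact LN_black hK hn' hwf hG' hvm hsafe h1
      obtain ⟨k1, k2⟩ := key
      rcases k1 with k1 | k1
      · exact Or.inl k1
      · right
        intro m' hm'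
        rcases List.mem_cons.1 hm' with h1 | h1
        · subst h1
          exact k2
        · exact k1 m' h1

/-- **Soundness of certificates with events, allowed marks.** -/
theorem chkA_soundV {R : Room} {P : Par} {Rs : List Ray} {K : Nat → Ctx → Prop} {V : Ctx → Nat → Prop}
    (hK : FamV R P Rs K V) (X : List (List Nat))
    (hX : ∀ n C x, K n C → ValP Rs V C x → x ∈ nthL X n → HasValue ⟨C.brd x, false⟩)
    (tr : Tr) (htr : tr.Small) (hne : ∀ i, tr ≠ Tr.exit i) (n : Nat) (C : Ctx) (hn : K n C)
    (p k : Nat) (h : WF C p k) (hG : R.G (C.brd p)) (hv : ValP Rs V C p) (hs : safe Rs p k = true)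
    (hc : chkA P Rs X tr n p k (checksA P Rs n p k) = true) : HasValue ⟨C.brd p, false⟩ := by
  rcases LN_list hK X hX tr htr hne n p k (LH2_ne_zero h) _ hc with h1 | h1
  · exact hX _ _ _ hn hv h1
  · exact LN_black hK hn h hG hv hs h1

end Pool.Agent.Lib.H32C.Loc
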