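import Pool.Agent.Lib.H32C.FarWin

/-!
# Certificates in which the White king never sees an empty ray

At level `0`, and with the parameters `PW`, a certificate fails as soon as the White king sees a mark `7` while Black
is to move.  So no conditions on events are needed.
-/

set_option autoImplicit false

namespace Pool.Agent.Lib.H32C.Loc

/-- what is shown for a move `m` of a certificate of level `0` in the context `C` -/
def LT_Good (R : Room) (C : Ctx) (p k m : Nat) : Prop :=
  m ≠ 0 ∧ (WF C (mvA C.R p (m / 400) (m % 400)) k → R.G (C.brd (mvA C.R p (m / 400) (m % 400))) →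
    safe C.R (mvA C.R p (m / 400) (m % 400)) k = true ∨
      HasValue ⟨C.brd (mvA C.R p (m / 400) (m % 400)), true⟩)

theorem LT_move {R : Room} {C : Ctx} (hC : C.Ok) (hR : R.Sep C) {p k m : Nat} (h : WF C p k)
    (hG : R.G (C.brd p)) {a b : Sq} (hm : Is C p m a b) (hmo : MoveOk p (m / 400) (m % 400))
    (hch : InCheck ((C.brd p).move a b) true) (hg : LT_Good R C p k m) :
    HasValue ⟨(C.brd p).move a b, true⟩ := by
  have h7 : cell p (m / 400) ≠ 7 := by
    have := hmo.src
    omega
  have h1 := hg.2
  rw [LK2_mvA_ne h7] at h1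
  have hb := Is.brd hC h hm hmo
  rcases h1 (wf_mvb hC h hmo) (Room.G_brd R hR hG) with h3 | h3
  · exfalso
    have h4 := safe_noCheck hC (wf_mvb hC h hmo) h3
    rw [hb] at h4
    exact h4 hch
  · rw [hb] at h3
    exact h3

theorem LT_black {R : Room} {C : Ctx} (hC : C.Ok) (hR : R.Sep C) {p k : Nat} (h : WF C p k)
    (hG : R.G (C.brd p)) (hs : safe C.R p k = true)
    (hg : ∀ m ∈ checksA PW C.R 0 p k, LT_Good R C p k m) : HasValue ⟨C.brd p, false⟩ := by
  have h0 : 0 ∉ checksA PW C.R 0 p k := fun h0 => (hg 0 h0).1 rfl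
  have hKa := kingAt hC h
  have hZ : sq C.o k ∉ R.Z := hR.patch _ (inB_sq C.o h.lt)
  apply hasValue_black (R.legal _ _ hG (oneBK hC h) hKa hZ)
  intro a b hl
  by_cases hch : InCheck ((C.brd p).move a b) true
  swap
  · exact R.mate _ _ a b hG (oneBK hC h) hKa hZ hl hch
  cases hc : has7 C.R p with
  | false =>
    have e : checksA PW C.R 0 p k = checks C.R false p k := by
      unfold checksA
      rw [hc]
      rfl
    rw [e] at h0 hg
    rcases checks_complete hC h hs false h0 a b hl hch with ⟨m, hm1, hm2, hm3⟩ | h3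
    · exact LT_move hC hR h hG hm2 hm3 hch (hg m hm1)
    · exfalso
      simp at h3
  | true =>
    cases hcl : (Nat.beq (seenM C.R p k) 0 || closedX C.R p (seenM C.R p k) 400) with
    | false =>
      exfalso
      apply h0
      unfold checksA
      rw [hc, hcl]
      exact List.mem_cons_self
    | true =>
      have e : checksA PW C.R 0 p k =
          arrL PW C.R 0 p k (LK2_out PW C.R C.R 0 p k (checks C.R true p k)) := by
        unfold checksA
        rw [hc, hcl]
        rfl
      rw [e] at h0 hg
      have h0' : 0 ∉ LK2_out PW C.R C.R 0 p k (checks C.R true p k) :=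
        fun hh => h0 (LK2_arrL_sub hh)
      have h0'' : 0 ∉ checks C.R true p k := fun hh => h0' (LK2_out_sub hh)
      have hcl' : seenM C.R p k = 0 ∨ closedX C.R p (seenM C.R p k) 400 = true := by
        rw [Bool.or_eq_true, LH2_beq] at hcl
        exact hcl
      have hsee : ∀ ρ ∈ C.R, see7 p k ρ = true → False := by
        intro ρ hρ h7
        obtain ⟨hn0, -⟩ := LK2_arrL_arr (P := PW) hρ h7 rfl (fun h => absurd h (by decide)) h0
        exact hn0 rfl
      rcases event_cases hC h hs hcl' h0'' a b hl hch with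
        ⟨m, hm1, hm2, hm3⟩ | ⟨ρ, hρ, h7, -⟩ | ⟨ρ, hρ, h7, -⟩ |
          ⟨ρ, hρ, h7, ⟨m, hm, rfl⟩, j, hj, hj1, rfl, hj2, hj3⟩
      · exact LT_move hC hR h hG hm2 hm3 hch (hg m (LK2_arrL_sub (LK2_out_sub hm1)))
      · exact (hsee ρ hρ h7).elim
      · exact (hsee ρ hρ h7).elim
      · exfalso
        obtain ⟨hlv, -⟩ := LK2_out_out hρ h7 h0' hj1 hj2 hj3
        exact Bool.false_ne_true hlv

theorem LT_na (p a : Nat) : naA 0 p a = 0 := by
  unfold naA
  cases Nat.beq (cell p a) 7 <;> rfl

theorem LT_list {R : Room} {C : Ctx} (hC : C.Ok) (hR : R.Sep C) (X : List (List Nat))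
    (hX : ∀ x ∈ nthL X 0, HasValue ⟨C.brd x, false⟩) (tr : Tr) :
    ∀ (_ : tr.Small) (_ : ∀ i, tr ≠ Tr.exit i) (p k : Nat) (_ : p ≠ 0)
    (L : List Nat) (_ : chkA PW C.R X tr 0 p k L = true),
    p ∈ nthL X 0 ∨ ∀ m ∈ L, LT_Good R C p k m := by
  induction tr with
  | exit i => intro _ h; exact absurd rfl (h i)
  | nil =>
    intro _ _ p k _ L hc
    right
    induction L with
    | nil => intro m hm; exact absurd hm List.not_mem_nil
    | cons m L ih =>
      rw [LK2_nil_cons, Bool.and_eq_true, Bool.and_eq_true] at hc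
      intro m' hm'
      rcases List.mem_cons.1 hm' with h1 | h1
      · subst h1
        exact ⟨LH2_blt hc.1, fun _ _ => Or.inl hc.2.1⟩
      · exact ih hc.2.2 m' h1
  | cons a b sub rest ihs ihr =>
    intro htr _ p k hp L hc
    obtain ⟨ha, hsub, hrest⟩ := htr
    induction L with
    | nil => right; intro m hm; exact absurd hm List.not_mem_nil
    | cons m L ih =>
      obtain ⟨hm, hc⟩ := LK2_cons hc
      have key : (p ∈ nthL X 0 ∨ ∀ m ∈ L, LT_Good R C p k m) ∧ LT_Good R C p k m := by
        rcases hc with ⟨hs, hc⟩ | ⟨hw, hcs, hcr⟩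
        · exact ⟨ih hc, hm, fun _ _ => Or.inl hs⟩
        · constructor
          · by_cases hr : ∃ i, rest = Tr.exit i
            · obtain ⟨i, rfl⟩ := hr
              rw [LK2_exit, LH2_beq] at hcr
              left
              rw [← hcr]
              apply LH2_nth
              rw [hcr]
              exact hp
            · push Not at hr
              exact ihr hrest hr p k hp L hcr
          · refine ⟨hm, fun hq hGq => Or.inr ?_⟩
            obtain ⟨hl, hb, hwf, hsafe⟩ := wOk_sound hC hq ha hw
            refine hasValue_white hl ?_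
            rw [← hb]
            have hG' : R.G (C.brd (mv (mvA C.R p (m / 400) (m % 400)) a b)) :=
              Room.G_brd R hR hGq
            rw [LT_na] at hcs
            by_cases hr : ∃ i, sub = Tr.exit i
            · obtain ⟨i, rfl⟩ := hr
              rw [LK2_exit, LH2_beq] at hcs
              apply hX
              rw [← hcs]
              apply LH2_nth
              rw [hcs]
              exact LH2_ne_zero hwf
            · push Not at hr
              rcases ihs hsub hr _ _ (LH2_ne_zero hwf) _ hcs with h1 | h1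
              · exact hX _ h1
              · exact LT_black hC hR hwf hG' hsafe h1
      obtain ⟨k1, k2⟩ := key
      rcases k1 with k1 | k1
      · exact Or.inl k1
      · right
        intro m' hm'
        rcases List.mem_cons.1 hm' with h1 | h1
        · subst h1
          exact k2
        · exact k1 m' h1

/-- **Soundness of certificates of level `0`.** -/
theorem chkA_sound0 {R : Room} {C : Ctx} (hC : C.Ok) (hR : R.Sep C) (X : List (List Nat))
    (hX : ∀ x ∈ nthL X 0, HasValue ⟨C.brd x, false⟩) (tr : Tr) (htr : tr.Small)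
    (hne : ∀ i, tr ≠ Tr.exit i) (p k : Nat) (h : WF C p k) (hG : R.G (C.brd p))
    (hs : safe C.R p k = true)
    (hc : chkA PW C.R X tr 0 p k (checksA PW C.R 0 p k) = true) : HasValue ⟨C.brd p, false⟩ := by
  rcases LT_list hC hR X hX tr htr hne p k (LH2_ne_zero h) _ hc with h1 | h1
  · exact hX _ h1
  · exact LT_black hC hR h hG hs h1

/-- **Upper bound at level `0`.** -/
theorem sw0_hasValue {H A : Nat} {S : List (List Pc)} {i : Nat} {x : SW}
    (h : swOk H A S i x (patW A S x.X x.Y i x.M) (kOf x.X x.Y (nthP S i)) = true) {R : Room}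
    (hP : x.P = PW) (hn : x.n = 0) {C : Ctx} (hC : C.Ok) (hRs : C.R = x.R) (hR : R.Sep C)
    (hex : ∀ E : List Ex, x.ex[0]? = some E → ∀ e ∈ E,
      HasValue ⟨C.brd (patW A S x.X x.Y e.i e.M), false⟩)
    (hG : R.G (C.brd (patW A S x.X x.Y i x.M))) :
    HasValue ⟨C.brd (patW A S x.X x.Y i x.M), false⟩ := by
  unfold swOk at h
  simp only [TS3_ands_cons] at h
  obtain ⟨h1, -, h3, h4, h5, -⟩ := h
  obtain ⟨hsm, hne⟩ := TS3_small h4
  rw [hP, hn, ← hRs] at h5
  refine chkA_sound0 hC hR _ ?_ x.tr hsm hne _ _ (wf_base hC hRs h1) hG (by rw [hRs]; exact h3) h5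
  intro p' hp'
  obtain ⟨E, hE, hp2⟩ := TW2_mem_exPP x.ex hp'
  obtain ⟨e, he, rfl⟩ := TW2_mem_exP E hp2
  exact hex E hE e he

end Pool.Agent.Lib.H32C.Loc
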