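import Pool.Agent.Lib.H32C.TileW

/-!
# Chunk LU: a discovered check by the far slider in the lower bound
-/

set_option autoImplicit false

namespace Pool.Agent.Lib.H32C.Loc

/-- no White piece other than the king can go to the empty cell `z`, the directions `sk`, `sk'` not considered -/
def noW2 (R : List Ray) (p sk sk' : Nat) (z : Nat) : Bool :=
  (a8 fun t => !msk 0x8004 (cell p (stp t z))) &&
  (!msk 0x8002 (cell p (stp 22 z)) &&
  ((aO fun t => Nat.beq t sk || !msk 0x8030 (fcode R p t z)) &&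
    (aD fun t => (Nat.beq t sk || Nat.beq t sk') || !msk 0x8028 (fcode R p t z))))

/-- lower bound: Black moves `a → b`, which discovers a check by the far slider on the ray with mark on `e` and step
`t`; White answers `k → k'`, and this leads to the state number `j` with marks `M'`; White pieces to the south east
of the mark are not considered -/
def mainF (H A : Nat) (S : List (List Pc)) (i : Nat) (x : SW) (p k e t a b k' j : Nat) (M' : List Pc) :
    Bool :=
  ands [baseOk H A S i x p k, pcsOkW A x.X x.Y (catP M' (nthP S j)),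
    Nat.blt a 400, Nat.blt b 400, Nat.blt k' 400,
    Nat.beq (cell (mvb x.R p a b) k') 0, bGo x.R p a b, onlyF x.R (mvb x.R p a b) k e t k',
    noWs x.R (mvb x.R p a b) t 20 k, noW2 x.R (mvb x.R p a b) t 23 e,
    Nat.beq (mv (mvb x.R p a b) k k') (patW A S x.X x.Y j M')]

/-- chunk LU: meaning of `noW2` -/
theorem noW2_empty {C : Ctx} (hC : C.Ok) {p k z sk sk' : Nat} (h : WF C p k) (hz : z < 400)
    (hcz : cell p z ≠ 15) (hd : dec (cell p z) = none) (hn : noW2 C.R p sk sk' z = true)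
    (hsk : sk ∈ orT ++ diT → ∀ m : ℕ, 0 < m →
      (∀ l : ℕ, 0 < l → l < m → C.brd p (sq C.o z + l • vec sk) = none) →
      ∀ M, C.brd p (sq C.o z + m • vec sk) = some M → M.1 = false) (a : Sq)
    (hse : ∀ q : ℕ, 0 < q → a ≠ sq C.o z + q • vec sk')
    (hg : CanGo (C.brd p) true a (sq C.o z)) : a = sq C.o k := by
  unfold noW2 at hn
  rw [Bool.and_eq_true, Bool.and_eq_true, Bool.and_eq_true, a8_iff, aO_iff, aD_iff] at hn
  obtain ⟨hkn, hpw, hor, hdi⟩ := hn
  have hkn' : ∀ t ∈ knT, cell p (stp t z) ≠ 2 ∧ cell p (stp t z) ≠ 15 := by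
    intro t ht
    have h1 := hkn t ht
    have h2 : ∀ c < 16, (!msk 0x8004 c) = true → c ≠ 2 ∧ c ≠ 15 := by decide
    exact h2 _ (cell_lt _ _) h1
  have hor' : ∀ t ∈ orT, t = sk ∨ (fcode C.R p t z ≠ 4 ∧ fcode C.R p t z ≠ 5 ∧
      fcode C.R p t z ≠ 15) := by
    intro t ht
    have h1 := hor t ht
    rw [Bool.or_eq_true] at h1
    rcases h1 with h1 | h1
    · exact Or.inl (Nat.eq_of_beq_eq_true h1)
    · have h2 : ∀ c < 16, (!msk 0x8030 c) = true → c ≠ 4 ∧ c ≠ 5 ∧ c ≠ 15 := by decide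
      exact Or.inr (h2 _ LD_fcode_lt h1)
  have hdi' : ∀ t ∈ diT, t = sk ∨ t = sk' ∨ (fcode C.R p t z ≠ 3 ∧ fcode C.R p t z ≠ 5 ∧
      fcode C.R p t z ≠ 15) := by
    intro t ht
    have h1 := hdi t ht
    rw [Bool.or_eq_true, Bool.or_eq_true] at h1
    rcases h1 with (h1 | h1) | h1
    · exact Or.inl (Nat.eq_of_beq_eq_true h1)
    · exact Or.inr (Or.inl (Nat.eq_of_beq_eq_true h1))
    · have h2 : ∀ c < 16, (!msk 0x8028 c) = true → c ≠ 3 ∧ c ≠ 5 ∧ c ≠ 15 := by decide
      exact Or.inr (Or.inr (h2 _ LD_fcode_lt h1))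
  obtain ⟨m, hm, hw, hgo⟩ := hg
  rcases hgo with ⟨-, hgo⟩ | ⟨⟨t, ht, -⟩, -⟩
  swap
  · rw [brd_sq C hz hcz, hd] at ht
    exact absurd ht (by simp)
  by_cases hp : m.2 = Kind.pawn
  · rw [if_pos hp] at hgo
    exfalso
    have h2 : ∀ c < 16, (!msk 0x8002 c) = true → c ≠ 1 ∧ c ≠ 15 := by decide
    obtain ⟨a1, a2⟩ := h2 _ (cell_lt _ _) hpw
    have hsx : a = sq C.o z + vec 22 := by
      have h2 : vec 22 = -(0, fwd true) := by decide
      rw [h2, ← hgo]
      abel
    rw [hsx, LD_brd_stp h hz hcz (by decide) a2] at hm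
    obtain ⟨mc, mk⟩ := m
    simp only at hp hw
    subst hp hw
    have h3 := LD_dec_inv (cell_lt _ _) hm
    simp at h3
    exact a1 h3
  rw [if_neg hp] at hgo
  have hA := hgo
  obtain ⟨mc, mk⟩ := m
  simp only at hw hp
  subst hw
  have hslO : (mk = Kind.rook ∨ mk = Kind.queen) →
      Slides (C.brd p) orthDirs a (sq C.o z) → False := by
    intro hk hsl
    obtain ⟨d, hd, n, hn, hsx, hcl⟩ := LD_of_slides hsl
    obtain ⟨t, ht, hv⟩ := or_vec (LD_neg_orth hd)
    rw [← hv] at hsx hcl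
    rw [hsx] at hm
    rcases hor' t ht with h1 | ⟨a1, a2, a3⟩
    · rw [h1] at hm ht hcl
      have := hsk (List.mem_append.2 (Or.inl ht)) n hn hcl _ hm
      simp at this
    · rcases LI2_seen hC h hz hcz (List.mem_append.2 (Or.inl ht)) hn hm hcl rfl with h1 | h1 | h1
      · exact a3 h1
      · have h2 := LD_dec_inv LD_fcode_lt h1
        rcases hk with rfl | rfl
        · simp at h2
          exact a1 h2
        · simp at h2
          exact a2 h2
      · have h2 := LD_quiet h1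
        rcases hk with rfl | rfl
        · exact h2.2.2.1 ht rfl
        · exact h2.2.1 rfl
  have hslD : (mk = Kind.bishop ∨ mk = Kind.queen) →
      Slides (C.brd p) diagDirs a (sq C.o z) → False := by
    intro hk hsl
    obtain ⟨d, hd, n, hn, hsx, hcl⟩ := LD_of_slides hsl
    obtain ⟨t, ht, hv⟩ := di_vec (LD_neg_diag hd)
    rw [← hv] at hsx hcl
    rw [hsx] at hm
    rcases hdi' t ht with h1 | h1 | ⟨a1, a2, a3⟩
    · rw [h1] at hm ht hcl
      have := hsk (List.mem_append.2 (Or.inr ht)) n hn hcl _ hm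
      simp at this
    · rw [h1] at hsx
      exact hse n hn hsx
    · rcases LI2_seen hC h hz hcz (List.mem_append.2 (Or.inr ht)) hn hm hcl rfl with h1 | h1 | h1
      · exact a3 h1
      · have h2 := LD_dec_inv LD_fcode_lt h1
        rcases hk with rfl | rfl
        · simp at h2
          exact a1 h2
        · simp at h2
          exact a2 h2
      · have h2 := LD_quiet h1
        rcases hk with rfl | rfl
        · exact h2.2.2.2 ht rfl
        · exact h2.2.1 rfl
  cases mk with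
  | king => exact (kingAt hC h).2 a hm
  | queen =>
    have hA' : Slides (C.brd p) (orthDirs ++ diagDirs) a (sq C.o z) := hA
    rcases LD_slides_append hA' with h1 | h1
    · exact absurd h1 (hslO (Or.inr rfl))
    · exact absurd h1 (hslD (Or.inr rfl))
  | rook => exact absurd hA (hslO (Or.inl rfl))
  | bishop => exact absurd hA (hslD (Or.inl rfl))
  | knight =>
    have hA' : sq C.o z - a ∈ knightJumps := hA
    obtain ⟨t, ht, hv⟩ := kn_vec (LD_neg_kn hA')
    obtain ⟨a1, a2⟩ := hkn' t ht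
    have hsx : a = sq C.o z + vec t := by
      rw [hv]
      abel
    rw [hsx, LD_brd_stp h hz hcz (List.mem_append.2 (Or.inr ht)) a2] at hm
    have h2 := LD_dec_inv (cell_lt _ _) hm
    simp at h2
    exact absurd h2 a1
  | pawn => exact absurd rfl hp

/-- chunk LU: no White piece other than the king goes to the mark of a ray on which there is a far slider -/
theorem noW2_mark {C : Ctx} (hC : C.Ok) {p k sk' : Nat} (h : WF C p k) {ρ : Ray} (hρ : ρ ∈ C.R)
    (hcz : cell p ρ.e = 8) (hn : noW2 C.R p ρ.t sk' ρ.e = true) (a : Sq)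
    (hse : ∀ q : ℕ, 0 < q → a ≠ sq C.o ρ.e + q • vec sk')
    (hg : CanGo (C.brd p) true a (sq C.o ρ.e)) : a = sq C.o k := by
  refine noW2_empty (sk := ρ.t) hC h (inner_lt (hC.inner ρ hρ).1) (by omega) (by rw [hcz]; rfl) hn
    (fun _ m hm hcl M hM => ?_) a hse hg
  have h1 : ∀ m : ℕ, sq C.o ρ.e + m • vec ρ.t = C.ray ρ m := fun _ => rfl
  rw [h1, brd_ray hC h hρ m hm] at hM
  split_ifs at hM with h2
  · exact LI2_far hC hρ hM
  · exfalso
    obtain ⟨n', hn', hf, hfe⟩ := hC.far ρ hρ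
    rcases Nat.lt_or_ge n' m with h3 | h3
    · have h4 := hcl n' hn' h3
      rw [h1, brd_ray hC h hρ n' hn', if_pos ⟨hf.symm, hcz⟩] at h4
      have hk := LB_kind hC hρ
      exact LB_decne (by omega) (by omega) (by omega) (by omega) h4
    · rw [hfe m hm h3] at hM
      cases hM

/-- chunk LU: the king on `y` is in check by the far slider on `y + m • vec t`, the mark is on `y + n • vec t`; the
hypothesis `hfar` says that no White piece other than the king goes to a square beyond the mark -/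
theorem mainF_strict {H A : Nat} {S : List (List Pc)} {i : Nat} {x : SW} {e t a b k' j : Nat}
    {M' : List Pc}
    (h : mainF H A S i x (patW A S x.X x.Y i x.M) (kOf x.X x.Y (nthP S i)) e t a b k' j M' = true)
    {C : Ctx} (hC : C.Ok) (hR : C.R = x.R) (R : Room) (hRC : R.Sep C)
    (hG : R.G (C.brd (patW A S x.X x.Y i x.M))) {ρ : Ray} (hρ : ρ ∈ C.R) (hρe : ρ.e = e) (hρt : ρ.t = t)
    (hfar : ∀ (D : Board) (y z : Sq) (n m l : ℕ) (w : Sq),
      D.move y z = C.brd (patW A S x.X x.Y j M') → y ≠ z → D z = none →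
      KingAt D y → sq C.o e = y + n • vec t → C.f e = y + m • vec t →
      (∀ q : ℕ, 0 < q → q < m → D (y + q • vec t) = none) →
      0 < n → 0 < l → n + l ≤ m → w ≠ y → ¬ CanGo D true w (y + (n + l) • vec t))
    (hse : ∀ (D : Board) (y z : Sq) (q : ℕ), D.move y z = C.brd (patW A S x.X x.Y j M') → y ≠ z →
      D z = none → KingAt D y → 0 < q → sq C.o e + q • vec 23 ≠ y →
      ¬ CanGo D true (sq C.o e + q • vec 23) (sq C.o e))
    {β : Ordinal.{0}} (hge : GE ⟨C.brd (patW A S x.X x.Y j M'), false⟩ β) :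
    ¬ ValLE ⟨C.brd (patW A S x.X x.Y i x.M), false⟩ β := by
  unfold mainF at h
  simp only [TS3_ands_cons] at h
  obtain ⟨h1, -, h3, h4, h5, h6, h7, h8, h9, h10, h11, -⟩ := h
  have hwf := wf_base hC hR h1
  rw [← hR] at h6 h7 h8 h9 h10 h11
  have ha := Nat.le_of_ble_eq_true h3
  have hb := Nat.le_of_ble_eq_true h4
  have hk' := Nat.le_of_ble_eq_true h5
  have hck := Nat.eq_of_beq_eq_true h6
  have hnx := Nat.eq_of_beq_eq_true h11
  obtain ⟨hwf', hno, x', y', hbrd, hleg⟩ := LM_prep hC R hRC hwf hG ha hb h7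
  have hbk := LM_brd_king hwf' hk' hck
  have hge' : GE ⟨C.brd (mv (mvb C.R (patW A S x.X x.Y i x.M) a b)
      (kOf x.X x.Y (nthP S i)) k'), false⟩ β := by
    rw [hnx]
    exact hge
  have hking := kingAt hC hwf'
  have ht := LI3_ray_t hC hρ
  subst hρe hρt
  obtain ⟨h8a, h8b, -⟩ := LI3_onlyF h8
  obtain ⟨n, hS⟩ := first_spec hwf' hwf'.lt (by rw [hwf'.king]; decide) ht
    (by rw [h8b, h8a]; decide)
  rw [h8b] at hS
  obtain ⟨m, hm, hfm, -, hcl⟩ := mark8_sees hC hwf' hwf'.lt hρ hS h8a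
  have hyz : sq C.o (kOf x.X x.Y (nthP S i)) ≠ sq C.o k' := by
    intro hh
    have h12 := sq_inj C.o hwf'.lt hk' hh
    rw [← h12, hwf'.king] at hck
    exact absurd hck (by decide)
  refine LM_not_valLE_gen hleg hno fun x₁ y₁ hl' => ?_
  rw [← hbrd] at hl' ⊢
  suffices hs : x₁ = sq C.o (kOf x.X x.Y (nthP S i)) ∧ y₁ = sq C.o k' by
    rw [hs.1, hs.2, ← hbk]
    exact hge'
  refine onlyF_sound hC hwf' hρ ?_ h8 x₁ y₁ hl'
  intro w l m' hfm' hl hlm hw
  have hmm : m = m' := LC_smul_inj (LC_vec_ne ht) (add_left_cancel (hfm.symm.trans hfm'))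
  subst hmm
  rcases Nat.lt_trichotomy l n with h12 | h12 | h12
  · exact fun hg => hw (LI3_between hC hwf' ht hS h9 hl h12 w hg)
  · subst h12
    rw [← hS.eq]
    intro hg
    refine hw (noW2_mark hC hwf' hρ h8a h10 w (fun q hq hwq => ?_) hg)
    rw [hwq] at hg hw
    refine hse (C.brd (mvb C.R (patW A S x.X x.Y i x.M) a b)) (sq C.o (kOf x.X x.Y (nthP S i)))
      (sq C.o k') q ?_ hyz ?_ hking hq hw hg
    · rw [← hnx, hbk]
    · rw [brd_sq C hk' (by rw [hck]; decide), hck]
      rfl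
  · obtain ⟨l', rfl⟩ : ∃ l', l = n + l' := ⟨l - n, by omega⟩
    refine hfar (C.brd (mvb C.R (patW A S x.X x.Y i x.M) a b)) (sq C.o (kOf x.X x.Y (nthP S i)))
      (sq C.o k') n m l' w ?_ hyz ?_ hking hS.eq hfm hcl hS.pos (by omega) hlm hw
    · rw [← hnx, hbk]
    · rw [brd_sq C hk' (by rw [hck]; decide), hck]
      rfl

end Pool.Agent.Lib.H32C.Loc
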