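import Pool.Agent.Lib.H32C.Mem

/-!
# Chunk MA: geometry of arrays, disjoint rays

Cells are numbered `j = x + 80 * y`; `stA t j` is `j + (vec t).1 + 80 * (vec t).2` (natural subtraction).  If the
new cell is not on the boundary (`inA`), then the step was exact: a wrap around would give `x = 0` or `x = 79`.
-/

set_option autoImplicit false

namespace Pool.Agent.Lib.H32C.Loc

/-- the cell after `i` steps -/
def itA (u j : Nat) : Nat → Nat := Nat.rec j (fun _ ih => stA u ih)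

theorem ma_inA2 {H j : Nat} (h : inA2 H j = true) :
    2 ≤ j % 80 ∧ j % 80 ≤ 77 ∧ 160 ≤ j ∧ j + 160 < 80 * H := by
  unfold inA2 at h
  simp only [Bool.and_eq_true, Nat.ble_eq, Nat.blt] at h
  obtain ⟨h1, h2, h3, h4⟩ := h
  have e1 : Nat.mod j 80 = j % 80 := rfl
  have e2 : Nat.add j 160 = j + 160 := rfl
  have e3 : Nat.mul 80 H = 80 * H := rfl
  rw [e1] at h1 h2
  rw [e2, e3] at h4
  omega

theorem ma_odk {t : Nat} (ht : t ∈ orT ++ diT ++ knT) :
    t % 20 ≤ 4 ∧ t / 20 ≤ 4 := by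
  simp only [orT, diT, knT, List.cons_append, List.nil_append, List.mem_cons, List.not_mem_nil,
    or_false] at ht
  rcases ht with rfl | rfl | rfl | rfl | rfl | rfl | rfl | rfl | rfl | rfl | rfl | rfl | rfl | rfl |
    rfl | rfl <;> norm_num

theorem sqA_inj {O : Sq} {j j' : Nat} (h : sqA O j = sqA O j') : j = j' := by
  unfold sqA tsq at h
  have h1 := congrArg Prod.fst h
  have h2 := congrArg Prod.snd h
  dsimp only at h1 h2
  omega

/-- the step is exact if the source has distance two from the boundary -/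
theorem sqA_stA2 {O : Sq} {H j t : Nat} (ht : t ∈ orT ++ diT ++ knT) (h : inA2 H j = true) :
    sqA O (stA t j) = sqA O j + vec t ∧ stA t j < 80 * H := by
  have h1 := ma_inA2 h
  have h2 := ma_odk ht
  obtain ⟨x, hx⟩ : ∃ x, x = t % 20 := ⟨_, rfl⟩
  obtain ⟨y, hy⟩ : ∃ y, y = t / 20 := ⟨_, rfl⟩
  obtain ⟨s, hs⟩ : ∃ s, s = stA t j := ⟨_, rfl⟩
  have h3 := ma_stA t j
  rw [← hs] at h3
  rw [← hx, ← hy] at h2 h3
  unfold sqA tsq vec
  rw [← hs, ← hx, ← hy]
  refine ⟨?_, by omega⟩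
  ext
  · simp only [Prod.fst_add]
    have : s % 80 + 2 = j % 80 + x := by omega
    omega
  · simp only [Prod.snd_add]
    have : s / 80 + 2 = j / 80 + y := by omega
    omega

theorem inA_lt {H j : Nat} (h : inA H j = true) : j < 80 * H ∧ j ≠ 0 := by
  have h1 := ma_inA h
  omega

theorem inA_reg {H j : Nat} {O : Sq} (h : inA H j = true) : sqA O j ∈ TileRegH H O := by
  have h1 := ma_inA h
  unfold sqA tsq TileRegH
  simp only [Set.mem_setOf_eq]
  omega

/-- the content of the board on a cell of the array -/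
theorem cell_sqA {H A j : Nat} {O : Sq} {F : Board} (hF : FitsH H A O F) (hj : j < 80 * H)
    (h15 : cell A j ≠ 15) : F (sqA O j) = dec (cell A j) := by
  have h1 : codeA A (j % 80) (j / 80) = cell A j := by
    have e : Nat.add (j % 80) (Nat.mul 80 (j / 80)) = j := by
      change j % 80 + 80 * (j / 80) = j
      omega
    unfold codeA cell
    rw [e]
  have h2 := hF.cells (j % 80) (j / 80) (by omega) (by omega) (by rw [h1]; exact h15)
  rw [h1] at h2
  exact h2

theorem ma_zA_zero (X Y : Nat) (ρ : Ray) :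
    zA X Y ρ 0 = (X + ρ.e % 20 - 10) + 80 * (Y + ρ.e / 20 - 10) := rfl

theorem ma_zA_succ (X Y : Nat) (ρ : Ray) (n : Nat) : zA X Y ρ (n + 1) = stA ρ.t (zA X Y ρ n) := rfl

/-- the cells of a ray beyond its mark -/
theorem sqA_zA {H X Y : Nat} {O : Sq} {C : Ctx} (hC : C.At O X Y) (hX : 8 ≤ X ∧ X ≤ 72)
    (hY : 8 ≤ Y) {ρ : Ray} (ht : ρ.t ∈ orT ++ diT) (he : Inner ρ.e) {n : Nat}
    (h : ∀ i : ℕ, 0 < i → i ≤ n → inA H (zA X Y ρ i) = true) :
    sqA O (zA X Y ρ n) = C.ray ρ n := by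
  induction n with
  | zero =>
    rw [ma_zA_zero]
    unfold Ctx.ray sq sqA tsq
    unfold Ctx.At at hC
    unfold Inner at he
    rw [hC]
    ext
    · simp only [Prod.fst_add, zero_smul, Prod.fst_zero]
      omega
    · simp only [Prod.snd_add, zero_smul, Prod.snd_zero]
      omega
  | succ n ih =>
    have ih1 := ih (fun i h0 hi => h i h0 (by omega))
    have h1 := h (n + 1) (by omega) le_rfl
    rw [ma_zA_succ] at h1 ⊢
    rw [sqA_stA ht h1, ih1]
    unfold Ctx.ray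
    rw [succ_nsmul, add_assoc]

/-- soundness of `rDisj`: with `d = e' - e`, a common square `e + n v = e' + n' w` gives
`cross d w = n * cross v w` and `cross d v = n' * cross v w` -/
theorem rDisj_sound {C : Ctx} {ρ ρ' : Ray} (ht : ρ.t ∈ orT ++ diT) (h : rDisj ρ ρ' = true)
    (n n' : ℕ) (hn : 0 < n) (hn' : 0 < n') : C.ray ρ n ≠ C.ray ρ' n' := by
  intro he
  unfold Ctx.ray sq at he
  have h1 := congrArg Prod.fst he
  have h2 := congrArg Prod.snd he
  simp only [Prod.fst_add, Prod.snd_add, Prod.smul_fst, Prod.smul_snd] at h1 h2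
  simp only [nsmul_eq_mul] at h1 h2
  have hv : (vec ρ.t).1 ≠ 0 ∨ (vec ρ.t).2 ≠ 0 := by
    have h3 := ma_od ht
    unfold vec
    dsimp only
    omega
  unfold rDisj at h
  simp only [Bool.or_eq_true, decide_eq_true_eq] at h
  have hn1 : (0 : ℤ) < n := by exact_mod_cast hn
  have hn1' : (0 : ℤ) < n' := by exact_mod_cast hn'
  have hd1 : (sq (0, 0) ρ'.e - sq (0, 0) ρ.e).1 = n * (vec ρ.t).1 - n' * (vec ρ'.t).1 := by
    unfold sq
    simp only [Prod.fst_sub]
    linarith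
  have hd2 : (sq (0, 0) ρ'.e - sq (0, 0) ρ.e).2 = n * (vec ρ.t).2 - n' * (vec ρ'.t).2 := by
    unfold sq
    simp only [Prod.snd_sub]
    linarith
  rw [hd1, hd2] at h
  obtain ⟨v1, hv1⟩ : ∃ v1, v1 = (vec ρ.t).1 := ⟨_, rfl⟩
  obtain ⟨v2, hv2⟩ : ∃ v2, v2 = (vec ρ.t).2 := ⟨_, rfl⟩
  obtain ⟨w1, hw1⟩ : ∃ w1, w1 = (vec ρ'.t).1 := ⟨_, rfl⟩
  obtain ⟨w2, hw2⟩ : ∃ w2, w2 = (vec ρ'.t).2 := ⟨_, rfl⟩
  have hvw : vec ρ.t = -vec ρ'.t → v1 = -w1 ∧ v2 = -w2 := by
    intro hh
    rw [hv1, hv2, hh, hw1, hw2]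
    exact ⟨rfl, rfl⟩
  rw [← hv1, ← hv2, ← hw1, ← hw2] at h
  rw [← hv1, ← hv2] at hv
  have ea : (n * v1 - n' * w1) * w2 - (n * v2 - n' * w2) * w1 = n * (v1 * w2 - v2 * w1) := by ring
  have eb : (n * v1 - n' * w1) * v2 - (n * v2 - n' * w2) * v1 = n' * (v1 * w2 - v2 * w1) := by ring
  rw [ea, eb] at h
  obtain ⟨D, hD⟩ : ∃ D, D = v1 * w2 - v2 * w1 := ⟨_, rfl⟩
  rw [← hD] at h
  rcases h with ⟨h3, h4⟩ | ⟨h3, h4⟩
  · have h5 : 0 < D * D := by
      rcases lt_or_gt_of_ne h3 with h6 | h6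
      · exact mul_pos_of_neg_of_neg h6 h6
      · exact mul_pos h6 h6
    rcases h4 with h4 | h4
    · have := mul_pos hn1 h5
      rw [← mul_assoc] at this
      linarith
    · have := mul_pos hn1' h5
      rw [← mul_assoc] at this
      linarith
  · rw [h3, mul_zero] at h4
    rcases h4 with h4 | ⟨h4, h5⟩
    · exact h4 rfl
    · obtain ⟨h6, h7⟩ := hvw h4
      have h8 : (n * v1 - n' * w1) * v1 + (n * v2 - n' * w2) * v2 =
          (n + n') * (v1 * v1 + v2 * v2) := by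
        have e1 : w1 = -v1 := by omega
        have e2 : w2 = -v2 := by omega
        rw [e1, e2]
        ring
      rw [h8] at h5
      have h9 : 0 < v1 * v1 + v2 * v2 := by
        rcases hv with h10 | h10
        · have := mul_self_pos.2 h10
          have := mul_self_nonneg v2
          linarith
        · have := mul_self_pos.2 h10
          have := mul_self_nonneg v1
          linarith
      have h11 : (0 : ℤ) < n + n' := by linarith
      have := mul_pos h11 h9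
      linarith

/-- the cells of the patch around `(X, Y)` -/
theorem nearA_iff {O : Sq} {C : Ctx} {X Y j : Nat} (hC : C.At O X Y) (hX : 8 ≤ X) (hY : 8 ≤ Y) :
    nearA X Y j = true ↔ InB C.o (sqA O j) ∧ Inner (idx C.o (sqA O j)) := by
  unfold Ctx.At at hC
  unfold nearA near InB Inner idx sqA tsq
  rw [hC]
  simp only [Bool.and_eq_true, Nat.ble_eq]
  have e1 : Nat.add (Nat.mod j 80) 8 = j % 80 + 8 := rfl
  have e2 : Nat.add (Nat.div j 80) 8 = j / 80 + 8 := rfl
  have e3 : Nat.mod j 80 = j % 80 := rfl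
  have e4 : Nat.div j 80 = j / 80 := rfl
  have e5 : Nat.add X 7 = X + 7 := rfl
  have e6 : Nat.add Y 7 = Y + 7 := rfl
  rw [e1, e2, e3, e4, e5, e6]
  obtain ⟨x, hx⟩ : ∃ x, x = j % 80 := ⟨_, rfl⟩
  obtain ⟨y, hy⟩ : ∃ y, y = j / 80 := ⟨_, rfl⟩
  rw [← hx, ← hy]
  have f1 : O.1 + (x : ℤ) - (O.1 + (X : ℤ) - 10) = (x : ℤ) + 10 - X := by ring
  have f2 : O.2 + (y : ℤ) - (O.2 + (Y : ℤ) - 10) = (y : ℤ) + 10 - Y := by ring
  rw [f1, f2]
  constructor
  · rintro ⟨h1, h2, h3, h4⟩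
    refine ⟨by omega, ?_⟩
    have g1 : ((x : ℤ) + 10 - X).toNat = x + 10 - X := by omega
    have g2 : ((y : ℤ) + 10 - Y).toNat = y + 10 - Y := by omega
    rw [g1, g2]
    omega
  · rintro ⟨h1, h2⟩
    have g1 : ((x : ℤ) + 10 - X).toNat = x + 10 - X := by omega
    have g2 : ((y : ℤ) + 10 - Y).toNat = y + 10 - Y := by omega
    rw [g1, g2] at h2
    omega

end Pool.Agent.Lib.H32C.Loc
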