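import Pool.Agent.Lib.H32C.MemA

/-!
# Chunk MB: soundness of the scans
-/

set_option autoImplicit false

namespace Pool.Agent.Lib.H32C.Loc

theorem mb_msk12Lt : ∀ c < 16, (msk 0x3000 c = true ↔ (c = 12 ∨ c = 13)) := by
  decide

theorem mb_msk11Lt : ∀ c < 16, (msk 0x2800 c = true ↔ (c = 11 ∨ c = 13)) := by
  decide

theorem mb_mskDec : ∀ c < 16, msk 0x7e7e c = true → dec c ≠ none := by
  decide

/-- the mask `slM` -/
theorem slM_iff {u c : Nat} (hu : u ∈ orT ++ diT) (hc : c < 16) : msk (slM u) c = true ↔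
    ∃ κ, dec c = some (false, κ) ∧ SlK κ u := by
  have hK : ∀ κ, dec c = some (false, κ) → (κ = Kind.queen → c = 13) ∧ (κ = Kind.rook → c = 12) ∧
      (κ = Kind.bishop → c = 11) := by
    intro κ h
    refine ⟨?_, ?_, ?_⟩ <;> rintro rfl <;> interval_cases c <;> simp [dec] at h ⊢
  rcases List.mem_append.1 hu with h | h
  · have h1 : slM u = 0x3000 ∧ u ∉ diT := by
      simp only [orT, List.mem_cons, List.not_mem_nil, or_false] at h
      rcases h with rfl | rfl | rfl | rfl <;> exact ⟨rfl, by decide⟩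
    rw [h1.1, mb_msk12Lt c hc]
    constructor
    · rintro (rfl | rfl)
      · exact ⟨Kind.rook, rfl, Or.inr (Or.inl ⟨h, rfl⟩)⟩
      · exact ⟨Kind.queen, rfl, Or.inl rfl⟩
    · rintro ⟨κ, h2, h3⟩
      obtain ⟨k1, k2, k3⟩ := hK κ h2
      rcases h3 with h3 | ⟨_, h3⟩ | ⟨h3, _⟩
      · exact Or.inr (k1 h3)
      · exact Or.inl (k2 h3)
      · exact absurd h3 h1.2
  · have h1 : slM u = 0x2800 ∧ u ∉ orT := by
      simp only [diT, List.mem_cons, List.not_mem_nil, or_false] at h
      rcases h with rfl | rfl | rfl | rfl <;> exact ⟨rfl, by decide⟩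
    rw [h1.1, mb_msk11Lt c hc]
    constructor
    · rintro (rfl | rfl)
      · exact ⟨Kind.bishop, rfl, Or.inr (Or.inr ⟨h, rfl⟩)⟩
      · exact ⟨Kind.queen, rfl, Or.inl rfl⟩
    · rintro ⟨κ, h2, h3⟩
      obtain ⟨k1, k2, k3⟩ := hK κ h2
      rcases h3 with h3 | ⟨h3, _⟩ | ⟨_, h3⟩
      · exact Or.inr (k1 h3)
      · exact absurd h3 h1.2
      · exact Or.inl (k3 h3)

theorem mb_itA_zero (u j : Nat) : itA u j 0 = j := rfl

theorem mb_itA_s (u j i : Nat) : itA u j (i + 1) = stA u (itA u j i) := rfl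

theorem mb_itA_succ (u : Nat) : ∀ (i j : Nat), itA u j (i + 1) = itA u (stA u j) i := by
  intro i
  induction i with
  | zero =>
    intro j
    rw [mb_itA_s, mb_itA_zero, mb_itA_zero]
  | succ i ih =>
    intro j
    rw [mb_itA_s, ih j, mb_itA_s]

theorem mb_memb {x : Nat} {L : List Nat} (h : memb x L = true) : x ∈ L := by
  induction L with
  | nil => exact (Bool.false_ne_true h).elim
  | cons y L ih =>
    rcases Bool.or_eq_true_iff.1 h with h1 | h1
    · exact (Nat.eq_of_beq_eq_true h1) ▸ List.mem_cons_self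
    · exact List.mem_cons_of_mem _ (ih h1)

theorem mb_mvHit {mv : List Mo} {u j : Nat} (h : mvHit mv u j = false) {k : Nat}
    (hm : (⟨j, k⟩ : Mo) ∈ mv) : msk (slM u) k = false := by
  induction mv with
  | nil => exact absurd hm List.not_mem_nil
  | cons m L ih =>
    have h0 : ((Nat.beq m.j j && msk (slM u) m.k) || mvHit L u j) = false := h
    rw [Bool.or_eq_false_iff] at h0
    rcases List.mem_cons.1 hm with h1 | h1
    · have h2 := h0.1
      rw [← h1] at h2
      dsimp only at h2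
      rw [Bool.and_eq_false_iff] at h2
      rcases h2 with h2 | h2
      · exact absurd (Nat.beq_refl j) (by rw [h2]; decide)
      · exact h2
    · exact ih h0.2 h1

/-- what `scanA` says -/
theorem scanA_spec {T : MT} {X Y : Nat} {mv : List Mo} {u : Nat} (n : Nat) : ∀ {j : Nat},
    scanA T X Y mv u n j = true →
    ∃ L : ℕ, 0 < L ∧
      (∀ i : ℕ, 0 < i → i ≤ L → inA T.H (itA u j i) = true ∧ mvHit mv u (itA u j i) = false ∧
        ((cell T.A (itA u j i) = 15 ∧ itA u j i ∈ T.st) ∨
          (cell T.A (itA u j i) ≠ 15 ∧ msk (slM u) (cell T.A (itA u j i)) = false))) ∧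
      (∀ i : ℕ, 0 < i → i < L → cell T.A (itA u j i) = 0 ∨ cell T.A (itA u j i) = 15 ∨
        nearA X Y (itA u j i) = true) ∧
      cell T.A (itA u j L) ≠ 0 ∧ cell T.A (itA u j L) ≠ 15 ∧ nearA X Y (itA u j L) = false ∧
      msk 0x7e7e (cell T.A (itA u j L)) = true := by
  induction n with
  | zero => exact fun h => (Bool.false_ne_true h).elim
  | succ n ih =>
    intro j h
    have h0 : (inA T.H (stA u j) && (!mvHit mv u (stA u j) &&
      cond (Nat.beq (cell T.A (stA u j)) 15) (memb (stA u j) T.st && scanA T X Y mv u n (stA u j))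
        (!msk (slM u) (cell T.A (stA u j)) &&
          cond (Nat.beq (cell T.A (stA u j)) 0 || nearA X Y (stA u j)) (scanA T X Y mv u n (stA u j))
            (msk 0x7e7e (cell T.A (stA u j)))))) = true := h
    obtain ⟨h1, h2⟩ := Bool.and_eq_true_iff.1 h0
    obtain ⟨h3, h4⟩ := Bool.and_eq_true_iff.1 h2
    have h3' : mvHit mv u (stA u j) = false := by
      simpa using h3
    have key : scanA T X Y mv u n (stA u j) = true →
        ((cell T.A (stA u j) = 15 ∧ stA u j ∈ T.st) ∨
          (cell T.A (stA u j) ≠ 15 ∧ msk (slM u) (cell T.A (stA u j)) = false)) →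
        (cell T.A (stA u j) = 0 ∨ cell T.A (stA u j) = 15 ∨ nearA X Y (stA u j) = true) →
        ∃ L : ℕ, 0 < L ∧
        (∀ i : ℕ, 0 < i → i ≤ L → inA T.H (itA u j i) = true ∧ mvHit mv u (itA u j i) = false ∧
          ((cell T.A (itA u j i) = 15 ∧ itA u j i ∈ T.st) ∨
            (cell T.A (itA u j i) ≠ 15 ∧ msk (slM u) (cell T.A (itA u j i)) = false))) ∧
        (∀ i : ℕ, 0 < i → i < L → cell T.A (itA u j i) = 0 ∨ cell T.A (itA u j i) = 15 ∨
          nearA X Y (itA u j i) = true) ∧
        cell T.A (itA u j L) ≠ 0 ∧ cell T.A (itA u j L) ≠ 15 ∧ nearA X Y (itA u j L) = false ∧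
        msk 0x7e7e (cell T.A (itA u j L)) = true := by
      intro g1 g2 g3
      obtain ⟨L, k1, k2, k3, k4, k5, k6, k7⟩ := ih g1
      refine ⟨L + 1, Nat.succ_pos _, ?_, ?_, ?_⟩
      · intro i hi hiL
        obtain ⟨i', rfl⟩ : ∃ i', i = i' + 1 := ⟨i - 1, by omega⟩
        rw [mb_itA_succ]
        rcases Nat.eq_zero_or_pos i' with hz | hz
        · rw [hz]
          exact ⟨h1, h3', g2⟩
        · exact k2 i' hz (by omega)
      · intro i hi hiL
        obtain ⟨i', rfl⟩ : ∃ i', i = i' + 1 := ⟨i - 1, by omega⟩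
        rw [mb_itA_succ]
        rcases Nat.eq_zero_or_pos i' with hz | hz
        · rw [hz]
          exact g3
        · exact k3 i' hz (by omega)
      · rw [mb_itA_succ]
        exact ⟨k4, k5, k6, k7⟩
    by_cases hc : cell T.A (stA u j) = 15
    · have hb : Nat.beq (cell T.A (stA u j)) 15 = true := by
        rw [hc]
        rfl
      rw [hb, cond_true] at h4
      obtain ⟨h5, h6⟩ := Bool.and_eq_true_iff.1 h4
      exact key h6 (Or.inl ⟨hc, mb_memb h5⟩) (Or.inr (Or.inl hc))
    · have hb : Nat.beq (cell T.A (stA u j)) 15 = false := by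
        rw [Bool.eq_false_iff]
        exact fun h7 => hc (Nat.eq_of_beq_eq_true h7)
      rw [hb, cond_false] at h4
      obtain ⟨h5, h6⟩ := Bool.and_eq_true_iff.1 h4
      have h5' : msk (slM u) (cell T.A (stA u j)) = false := by
        simpa using h5
      cases h7 : (Nat.beq (cell T.A (stA u j)) 0 || nearA X Y (stA u j)) with
      | true =>
        rw [h7, cond_true] at h6
        refine key h6 (Or.inr ⟨hc, h5'⟩) ?_
        rcases Bool.or_eq_true_iff.1 h7 with h8 | h8
        · exact Or.inl (Nat.eq_of_beq_eq_true h8)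
        · exact Or.inr (Or.inr h8)
      | false =>
        rw [h7, cond_false] at h6
        rw [Bool.or_eq_false_iff] at h7
        refine ⟨1, Nat.one_pos, ?_, ?_, ?_, hc, h7.2, h6⟩
        · intro i hi hi1
          obtain rfl : i = 1 := by omega
          exact ⟨h1, h3', Or.inr ⟨hc, h5'⟩⟩
        · intro i hi hi1
          omega
        · intro h8
          have h9 := h7.1
          have h10 : cell T.A (stA u j) = 0 := h8
          rw [h10] at h9
          exact absurd h9 (by decide)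

/-- the context of a patch setting with the resident on `q` -/
theorem cxM_at (T : MT) (ps : PS) (O : Sq) (F : Board) (q : Nat) :
    (cxM T ps O F q).At O ps.X ps.Y := rfl

theorem mb_sq {T : MT} {O : Sq} {u j L : Nat} (hu : u ∈ orT ++ diT)
    (h : ∀ i : ℕ, 0 < i → i ≤ L → inA T.H (itA u j i) = true) : ∀ i : ℕ, i ≤ L →
    sqA O (itA u j i) = sqA O j + i • vec u := by
  intro i
  induction i with
  | zero =>
    intro _
    rw [zero_smul, add_zero]
    rfl
  | succ i ih =>
    intro hi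
    have h1 : itA u j (i + 1) = stA u (itA u j i) := rfl
    have h2 := h (i + 1) (Nat.succ_pos _) hi
    rw [h1] at h2 ⊢
    rw [sqA_stA hu h2, ih (by omega), succ_nsmul, add_assoc]

theorem mb_rays {L : List RI} {ρ : Ray} (h : ρ ∈ raysOf L) : ∃ r ∈ L, r.ρ = ρ := by
  induction L with
  | nil => exact absurd h List.not_mem_nil
  | cons r L ih =>
    have h0 : ρ ∈ r.ρ :: raysOf L := h
    rcases List.mem_cons.1 h0 with h1 | h1
    · exact ⟨r, List.mem_cons_self, h1.symm⟩
    · obtain ⟨r', h2, h3⟩ := ih h1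
      exact ⟨r', List.mem_cons_of_mem _ h2, h3⟩

theorem mb_fM {ps : PS} {O : Sq} (hnd : (ps.rs.map (fun r => r.ρ.e)).Nodup) {r : RI}
    (hr : r ∈ ps.rs) : fM ps O r.ρ.e = sqA O (zA ps.X ps.Y r.ρ r.n) := by
  unfold fM
  cases h : ps.rs.find? (fun r' => decide (r'.ρ.e = r.ρ.e)) with
  | none =>
    have h1 := List.find?_eq_none.1 h r hr
    simp at h1
  | some r' =>
    have h1 := List.find?_some h
    have h2 := List.mem_of_find?_eq_some h
    have h3 : r'.ρ.e = r.ρ.e := by simpa using h1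
    have h4 : r' = r := List.inj_on_of_nodup_map hnd h2 hr h3
    rw [h4]

/-- the board outside of the known cells -/
theorem mb_brd {T : MT} {O : Sq} {F : Board} {ps : PS}
    (hnd : (ps.rs.map (fun r => r.ρ.e)).Nodup) {q p : Nat} {s : Sq}
    (hout : ¬ (InB (cxM T ps O F q).o s ∧ cell p (idx (cxM T ps O F q).o s) ≠ 15)) :
    (∃ r ∈ ps.rs, s = sqA O (zA ps.X ps.Y r.ρ r.n) ∧ cell p r.ρ.e = 8 ∧
      (cxM T ps O F q).brd p s = dec r.ρ.k) ∨
    (q ≠ 0 ∧ s = sqA O q ∧ (cxM T ps O F q).brd p s = dec T.k) ∨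
    (¬ (q ≠ 0 ∧ s = sqA O q) ∧ (cxM T ps O F q).brd p s = F s) := by
  unfold Ctx.brd
  rw [if_neg hout]
  cases h : (cxM T ps O F q).R.find?
      (fun ρ => decide (s = (cxM T ps O F q).f ρ.e ∧ cell p ρ.e = 8)) with
  | some ρ =>
    left
    have h1 := List.find?_some h
    have h2 : ρ ∈ raysOf ps.rs := List.mem_of_find?_eq_some h
    have h3 : s = fM ps O ρ.e ∧ cell p ρ.e = 8 := of_decide_eq_true h1
    obtain ⟨r, h4, h5⟩ := mb_rays h2
    rw [← h5, mb_fM hnd h4] at h3
    exact ⟨r, h4, h3.1, h3.2, by rw [h5]⟩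
  | none =>
    right
    show (q ≠ 0 ∧ s = sqA O q ∧ FM T F O q s = dec T.k) ∨
      (¬ (q ≠ 0 ∧ s = sqA O q) ∧ FM T F O q s = F s)
    unfold FM
    by_cases h1 : q ≠ 0 ∧ s = sqA O q
    · left
      rw [if_pos h1]
      exact ⟨h1.1, h1.2, rfl⟩
    · right
      rw [if_neg h1]
      exact ⟨h1, rfl⟩

/-- **Scans.** Let `B` be the board of a patch `p`, and let the list `mv` contain the resident (if `q` is not `0`, or
the slider considered is not the resident) and all far sliders (of rays with mark `8`).  If `scanA` succeeds from `j` in direction `u`, then no Black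
slider which stands outside of the known cells comes to `j` from this direction.

Proof: let `L` be as in `scanA_spec`.  The `L`-th square holds a static piece (it is outside of the inner part
of the patch, so it is not a known cell; its code is not `15`, so it is not a station, hence
the resident does not stand there; if a far slider stands there, `brd` is `dec` of its code; in any
case `brd` is not empty there), so `l ≤ L`.  The square of `a` is the cell `z = itA u j l`.  If `brd a` is the resident or a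
far slider: it is in `mv`, contradiction to `mvHit = false`.  Otherwise `brd a = F (sqA O z) = dec (cell A z)` if
the code is not `15`, contradiction to `msk (slM u) = false`; if it is `15`, then `z` is a station and
`F` is empty there. -/
theorem scanA_board {T : MT} {O : Sq} {F : Board} {R : Room} (hT : mtOk T = true)
    (hF : MBase T O F R) {ps : PS} (hX : 8 ≤ ps.X ∧ ps.X ≤ 72) (hY : 8 ≤ ps.Y)
    (hnd : (ps.rs.map (fun r => r.ρ.e)).Nodup) (hkk : ∀ r ∈ ps.rs, 9 ≤ r.ρ.k ∧ r.ρ.k ≤ 13)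
    {q : Nat} {p : Nat} {mv : List Mo} {u n j : Nat} {l : ℕ}
    (hq : q ≠ 0 → ⟨q, T.k⟩ ∈ mv ∨ sqA O j + l • vec u ≠ sqA O q)
    (hfar : ∀ r ∈ ps.rs, cell p r.ρ.e = 8 → ⟨zA ps.X ps.Y r.ρ r.n, r.ρ.k⟩ ∈ mv)
    (hu : u ∈ orT ++ diT)
    (h : scanA T ps.X ps.Y mv u n j = true) {κ : Kind} (hκ : SlK κ u) (hl : 0 < l)
    (hB : (cxM T ps O F q).brd p (sqA O j + l • vec u) = some (false, κ))
    (hcl : ∀ i : ℕ, 0 < i → i < l → (cxM T ps O F q).brd p (sqA O j + i • vec u) = none)
    (hout : ¬ (InB (cxM T ps O F q).o (sqA O j + l • vec u) ∧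
      cell p (idx (cxM T ps O F q).o (sqA O j + l • vec u)) ≠ 15))
    (hmar : ∀ i < 400, ¬ Inner i → cell p i = 15) : False := by
  obtain ⟨L, hL, h1, h2, h3, h4, h5, h6⟩ := scanA_spec n h
  have hsq := mb_sq (O := O) hu (fun i h0 hi => (h1 i h0 hi).1)
  have hk : 9 ≤ T.k ∧ T.k ≤ 13 := by
    unfold mtOk at hT
    rcases Bool.or_eq_true_iff.1 (Bool.and_eq_true_iff.1 hT).1 with h7 | h7
    · rw [Nat.eq_of_beq_eq_true h7]
      decide
    · rw [Nat.eq_of_beq_eq_true h7]
      decide
  have hdec : ∀ c : ℕ, 9 ≤ c ∧ c ≤ 13 → dec c ≠ none := by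
    rintro c ⟨h7, h8⟩
    interval_cases c <;> decide
  have hlL : l ≤ L := by
    by_contra hlt
    have hlt' : L < l := by omega
    have h7 := hcl L hL hlt'
    rw [← hsq L le_rfl] at h7
    have hout' : ¬ (InB (cxM T ps O F q).o (sqA O (itA u j L)) ∧
        cell p (idx (cxM T ps O F q).o (sqA O (itA u j L))) ≠ 15) := by
      rintro ⟨g1, g2⟩
      have g3 : ¬ Inner (idx (cxM T ps O F q).o (sqA O (itA u j L))) := by
        intro g4
        have g5 := (nearA_iff (cxM_at T ps O F q) hX.1 hY).2 ⟨g1, g4⟩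
        rw [h5] at g5
        exact Bool.false_ne_true g5
      refine g2 (hmar _ ?_ g3)
      unfold InB at g1
      unfold idx
      omega
    rcases mb_brd hnd hout' with ⟨r, hr, _, _, g⟩ | ⟨_, _, g⟩ | ⟨_, g⟩
    · rw [g] at h7
      exact hdec _ (hkk r hr) h7
    · rw [g] at h7
      exact hdec _ hk h7
    · rw [g, cell_sqA hF.fits (inA_lt (h1 L hL le_rfl).1).1 h4] at h7
      exact mb_mskDec _ (cell_lt _ _) h6 h7
  obtain ⟨g1, g2, g3⟩ := h1 l hl hlL
  rw [← hsq l hlL] at hB hout hq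
  rcases mb_brd hnd hout with ⟨r, hr, e1, e2, g⟩ | ⟨e1, e2, g⟩ | ⟨_, g⟩
  · rw [g] at hB
    have e3 := sqA_inj e1
    have e4 := hfar r hr e2
    rw [← e3] at e4
    have e5 := mb_mvHit g2 e4
    have e6 := (slM_iff hu (c := r.ρ.k) (by have := (hkk r hr).2; omega)).2 ⟨κ, hB, hκ⟩
    rw [e5] at e6
    exact Bool.false_ne_true e6
  · rw [g] at hB
    rcases hq e1 with e3 | e3
    · have e4 := sqA_inj e2
      rw [← e4] at e3
      have e5 := mb_mvHit g2 e3
      have e6 := (slM_iff hu (c := T.k) (by omega)).2 ⟨κ, hB, hκ⟩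
      rw [e5] at e6
      exact Bool.false_ne_true e6
    · exact e3 e2
  · rw [g] at hB
    rcases g3 with ⟨_, e1⟩ | ⟨e1, e2⟩
    · rw [hF.st _ e1] at hB
      exact absurd hB (by simp)
    · rw [cell_sqA hF.fits (inA_lt g1).1 e1] at hB
      have e6 := (slM_iff hu (cell_lt T.A (itA u j l))).2 ⟨κ, hB, hκ⟩
      rw [e2] at e6
      exact Bool.false_ne_true e6

end Pool.Agent.Lib.H32C.Loc
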