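import Pool.Agent.Lib.H32C.MemB

/-!
# Chunk MC: the contexts of a patch setting are admissible
-/

set_option autoImplicit false

namespace Pool.Agent.Lib.H32C.Loc

/-! helpers of chunk MC -/

theorem mc_msk_ge {m c : Nat} (hm : m < 2 ^ 16) (hc : ¬ c < 16) : ¬ msk m c = true := by
  rw [msk_iff, Nat.testBit_lt_two_pow]
  · intro h
    cases h
  · exact lt_of_lt_of_le hm (Nat.pow_le_pow_right (by norm_num) (by omega))

theorem mc_msk12Lt : ∀ c < 16, (msk 0x3000 c = true ↔ (c = 12 ∨ c = 13)) := by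
  decide

theorem mc_msk11Lt : ∀ c < 16, (msk 0x2800 c = true ↔ (c = 11 ∨ c = 13)) := by
  decide

theorem mc_mskqoLt : ∀ c < 16, (msk 0x1606 c = true ↔ (c = 1 ∨ c = 2 ∨ c = 9 ∨ c = 10 ∨ c = 12)) := by
  decide

theorem mc_mskqdLt : ∀ c < 16, (msk 0x0e06 c = true ↔ (c = 1 ∨ c = 2 ∨ c = 9 ∨ c = 10 ∨ c = 11)) := by
  decide

theorem mc_msk12 {c : Nat} (h : msk 0x3000 c = true) : c = 12 ∨ c = 13 := by
  by_cases hc : c < 16
  · exact (mc_msk12Lt c hc).1 h
  · exact absurd h (mc_msk_ge (by norm_num) hc)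

theorem mc_msk11 {c : Nat} (h : msk 0x2800 c = true) : c = 11 ∨ c = 13 := by
  by_cases hc : c < 16
  · exact (mc_msk11Lt c hc).1 h
  · exact absurd h (mc_msk_ge (by norm_num) hc)

theorem mc_mskqo {c : Nat} (h : msk 0x1606 c = true) : c = 1 ∨ c = 2 ∨ c = 9 ∨ c = 10 ∨ c = 12 := by
  by_cases hc : c < 16
  · exact (mc_mskqoLt c hc).1 h
  · exact absurd h (mc_msk_ge (by norm_num) hc)

theorem mc_mskqd {c : Nat} (h : msk 0x0e06 c = true) : c = 1 ∨ c = 2 ∨ c = 9 ∨ c = 10 ∨ c = 11 := by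
  by_cases hc : c < 16
  · exact (mc_mskqdLt c hc).1 h
  · exact absurd h (mc_msk_ge (by norm_num) hc)

theorem mc_memb {x : Nat} {L : List Nat} : memb x L = true ↔ x ∈ L := by
  induction L with
  | nil => exact ⟨fun h => (by cases h), fun h => absurd h List.not_mem_nil⟩
  | cons y L ih =>
    have h1 : memb x (y :: L) = (Nat.beq x y || memb x L) := rfl
    rw [h1, Bool.or_eq_true, TS1_beq, ih, List.mem_cons]

theorem mc_beq_false {a b : Nat} : Nat.beq a b = false ↔ a ≠ b := by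
  rw [← Bool.not_eq_true, TS1_beq]

theorem mc_notbeq {a b : Nat} : (!Nat.beq a b) = true ↔ a ≠ b := by
  rw [Bool.not_eq_true', mc_beq_false]

theorem mc_aO {t : Nat} : (!(aO fun u => !Nat.beq u t)) = true ↔ t ∈ orT := by
  unfold aO orT
  simp only [Bool.not_eq_true', Bool.and_eq_false_iff, Bool.not_eq_false', TS1_beq,
    List.mem_cons, List.not_mem_nil, or_false, eq_comm (b := t)]

theorem mc_aD {t : Nat} : (!(aD fun u => !Nat.beq u t)) = true ↔ t ∈ diT := by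
  unfold aD diT
  simp only [Bool.not_eq_true', Bool.and_eq_false_iff, Bool.not_eq_false', TS1_beq,
    List.mem_cons, List.not_mem_nil, or_false, eq_comm (b := t)]

theorem mc_pair_nil : rayPair [] = true := rfl

theorem mc_pair_cons (r : RI) (L : List RI) : rayPair (r :: L) = true ↔
    (∀ r' ∈ L, r.ρ.e ≠ r'.ρ.e ∧ rDisj r.ρ r'.ρ = true ∧ rDisj r'.ρ r.ρ = true) ∧
      rayPair L = true := by
  have h1 : rayPair (r :: L) = (allb (fun r' => !Nat.beq r.ρ.e r'.ρ.e &&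
    (rDisj r.ρ r'.ρ && rDisj r'.ρ r.ρ)) L && rayPair L) := rfl
  rw [h1, Bool.and_eq_true, TS1_allb]
  simp only [Bool.and_eq_true, mc_notbeq]

theorem mc_pair {L : List RI} (h : rayPair L = true) :
    (∀ r ∈ L, ∀ r' ∈ L, r ≠ r' → r.ρ.e ≠ r'.ρ.e ∧ rDisj r.ρ r'.ρ = true) ∧
      (L.map (fun r => r.ρ.e)).Nodup := by
  induction L with
  | nil => exact ⟨fun r hr => absurd hr List.not_mem_nil, List.nodup_nil⟩
  | cons x L ih =>
    rw [mc_pair_cons] at h
    obtain ⟨h1, h2⟩ := h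
    obtain ⟨h3, h4⟩ := ih h2
    constructor
    · intro r hr r' hr' hne
      rcases List.mem_cons.1 hr with he | hrL
      · rcases List.mem_cons.1 hr' with he' | hrL'
        · exact absurd (he.trans he'.symm) hne
        · rw [he]
          exact ⟨(h1 r' hrL').1, (h1 r' hrL').2.1⟩
      · rcases List.mem_cons.1 hr' with he' | hrL'
        · rw [he']
          exact ⟨fun h => (h1 r hrL).1 h.symm, (h1 r hrL).2.2⟩
        · exact h3 r hrL r' hrL' hne
    · rw [List.map_cons, List.nodup_cons]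
      refine ⟨?_, h4⟩
      intro hm
      obtain ⟨r', hr', he⟩ := List.mem_map.1 hm
      exact (h1 r' hr').1 he.symm

/-! from the strong to the weak checks -/

theorem mc_insE {T : MT} {ps : PS} {r : RI} (m : ℕ) (h : rayIns T ps r m = true) :
    rayInsE T ps r m = true := by
  induction m with
  | zero => rfl
  | succ m ih =>
    have h1 : rayIns T ps r (m + 1) = (rayIns T ps r m &&
      rayIn T ps r (m + 1) (zA ps.X ps.Y r.ρ (m + 1))) := rfl
    have h2 : rayInsE T ps r (m + 1) = (rayInsE T ps r m &&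
      rayInE T ps (zA ps.X ps.Y r.ρ (m + 1))) := rfl
    rw [h1, Bool.and_eq_true] at h
    rw [h2, Bool.and_eq_true]
    refine ⟨ih h.1, ?_⟩
    have h3 := h.2
    unfold rayIn at h3
    rw [Bool.and_eq_true, Bool.and_eq_true, Bool.and_eq_true] at h3
    unfold rayInE
    rw [Bool.and_eq_true, Bool.and_eq_true]
    exact ⟨h3.1, h3.2.1, h3.2.2.1⟩

theorem mc_endE {T : MT} {ps : PS} {r : RI} {z : Nat} (h : rayEnd T ps r z = true) :
    rayEndE T r z = true := by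
  unfold rayEnd at h
  rw [Bool.and_eq_true, Bool.and_eq_true] at h
  unfold rayEndE
  rw [Bool.and_eq_true]
  exact ⟨h.1, h.2.1⟩

theorem rayOk_E {T : MT} {ps : PS} {r : RI} (h : rayOk T ps r = true) : rayOkE T ps r = true := by
  unfold rayOk at h
  rw [Bool.and_eq_true, Bool.and_eq_true, Bool.and_eq_true, Bool.and_eq_true, Bool.and_eq_true,
    Bool.and_eq_true, Bool.and_eq_true] at h
  obtain ⟨h1, h2, h3, h4, h5, he, h6, h7⟩ := h
  unfold rayOkE
  rw [Bool.and_eq_true, Bool.and_eq_true, Bool.and_eq_true, Bool.and_eq_true, Bool.and_eq_true,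
    Bool.and_eq_true, Bool.and_eq_true]
  exact ⟨h1, h2, h3, h4, h5, he, mc_insE _ h6, mc_endE h7⟩

theorem psOk_E {T : MT} {ps : PS} (h : psOk T ps = true) : psOkE T ps = true := by
  unfold psOk at h
  simp only [TS3_ands_cons] at h
  obtain ⟨h1, h2, h3, h4, h5, h6, h7, h8, h9, h10⟩ := h
  unfold psOkE
  simp only [TS3_ands_cons]
  refine ⟨h1, h2, h3, h4, h5, h6, h7, h8, ?_, h10⟩
  rw [TS1_allb] at h9 ⊢
  exact fun r hr => rayOk_E (h9 r hr)

theorem psOk_ray {T : MT} {ps : PS} (h : psOk T ps = true) : ∀ r ∈ ps.rs, rayOk T ps r = true := by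
  unfold psOk at h
  simp only [TS3_ands_cons] at h
  obtain ⟨h1, h2, h3, h4, h5, h6, h7, h8, h9, h10⟩ := h
  rw [TS1_allb] at h9
  exact h9

/-- the conditions of `psOkE`, unfolded -/
structure PsD (T : MT) (ps : PS) : Prop where
  hX : 8 ≤ ps.X ∧ ps.X ≤ 72
  hY : 8 ≤ ps.Y ∧ ps.Y + 8 ≤ T.H
  lv : ps.P.lv = false
  pair : ∀ r ∈ ps.rs, ∀ r' ∈ ps.rs, r ≠ r' → r.ρ.e ≠ r'.ρ.e ∧ rDisj r.ρ r'.ρ = true
  nodup : (ps.rs.map (fun r => r.ρ.e)).Nodup
  q : ps.q = 0 ∨ ps.q ∈ T.st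
  n : ps.n = 0 ∨ (ps.n = 1 ∧ arrOk T ps = true)
  ray : ∀ r ∈ ps.rs, rayOkE T ps r = true

theorem psD {T : MT} {ps : PS} (h : psOkE T ps = true) : PsD T ps := by
  unfold psOkE at h
  simp only [TS3_ands_cons] at h
  obtain ⟨h1, h2, h3, h4, h5, h6, h7, h8, h9, -⟩ := h
  rw [Bool.or_eq_true, TS1_beq, mc_memb] at h7
  rw [Bool.or_eq_true, TS1_beq, Bool.and_eq_true, TS1_beq] at h8
  rw [Bool.not_eq_true'] at h5
  rw [TS1_allb] at h9
  exact ⟨⟨TS1_ble.1 h1, TS1_ble.1 h2⟩, ⟨TS1_ble.1 h3, TS1_ble.1 h4⟩, h5, (mc_pair h6).1,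
    (mc_pair h6).2, h7, h8, h9⟩

/-- the conditions of `rayOkE`, unfolded -/
structure RayD (T : MT) (ps : PS) (r : RI) : Prop where
  kind : (r.ρ.t ∈ orT ∧ (r.ρ.k = 12 ∨ r.ρ.k = 13)) ∨ (r.ρ.t ∈ diT ∧ (r.ρ.k = 11 ∨ r.ρ.k = 13))
  inn : Inner r.ρ.e
  out : ¬ Inner (stp r.ρ.t r.ρ.e)
  n1 : 1 ≤ r.n
  nN : r.n ≤ r.N
  edge : ∀ u ∈ orT ++ diT, u ≠ r.ρ.t → ¬ Inner (stp u r.ρ.e) →
    scanA T ps.X ps.Y (movers T ps r.ρ.e) u 90 (zA ps.X ps.Y r.ρ 0) = true
  ins : ∀ i : ℕ, 0 < i → i ≤ r.N → rayInE T ps (zA ps.X ps.Y r.ρ i) = true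
  fin : rayEndE T r (zA ps.X ps.Y r.ρ (r.N + 1)) = true

theorem mc_ins {T : MT} {ps : PS} {r : RI} (m : ℕ) (h : rayInsE T ps r m = true) : ∀ i : ℕ, 0 < i →
    i ≤ m → rayInE T ps (zA ps.X ps.Y r.ρ i) = true := by
  induction m with
  | zero => intro i h0 h1; omega
  | succ m ih =>
    have h1 : rayInsE T ps r (m + 1) = (rayInsE T ps r m &&
      rayInE T ps (zA ps.X ps.Y r.ρ (m + 1))) := rfl
    rw [h1, Bool.and_eq_true] at h
    intro i h0 hi
    by_cases him : i ≤ m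
    · exact ih h.1 i h0 him
    · have : i = m + 1 := by omega
      subst this
      exact h.2

theorem mc_edge {T : MT} {ps : PS} {r : RI} (h : edgeOk T ps r = true) :
    ∀ u ∈ orT ++ diT, u ≠ r.ρ.t → ¬ Inner (stp u r.ρ.e) →
    scanA T ps.X ps.Y (movers T ps r.ρ.e) u 90 (zA ps.X ps.Y r.ρ 0) = true := by
  unfold edgeOk at h
  rw [Bool.and_eq_true, aO_iff, aD_iff] at h
  intro u hu hne hin
  have key : ((Nat.beq u r.ρ.t || !outC (stp u r.ρ.e)) ||
      scanA T ps.X ps.Y (movers T ps r.ρ.e) u 90 (zA ps.X ps.Y r.ρ 0)) = true := by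
    rcases List.mem_append.1 hu with h1 | h1
    · exact h.1 u h1
    · exact h.2 u h1
  rw [Bool.or_eq_true, Bool.or_eq_true, TS1_beq, Bool.not_eq_true'] at key
  rcases key with (h1 | h1) | h1
  · exact absurd h1 hne
  · rw [(outC_iff _).2 hin] at h1
    cases h1
  · exact h1

theorem rayD {T : MT} {ps : PS} {r : RI} (h : rayOkE T ps r = true) : RayD T ps r := by
  unfold rayOkE at h
  rw [Bool.and_eq_true, Bool.and_eq_true, Bool.and_eq_true, Bool.and_eq_true, Bool.and_eq_true,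
    Bool.and_eq_true, Bool.and_eq_true, Bool.or_eq_true, Bool.and_eq_true, Bool.and_eq_true, mc_aO,
    mc_aD] at h
  obtain ⟨h1, h2, h3, h4, h5, he, h6, h7⟩ := h
  refine ⟨?_, of_decide_eq_true h2, of_decide_eq_true h3, TS1_ble.1 h4, TS1_ble.1 h5, mc_edge he,
    mc_ins _ h6, h7⟩
  rcases h1 with h1 | h1
  · exact Or.inl ⟨h1.1, mc_msk12 h1.2⟩
  · exact Or.inr ⟨h1.1, mc_msk11 h1.2⟩

/-- the strong conditions of `rayOk`, unfolded -/
structure RayF (T : MT) (ps : PS) (r : RI) : Prop where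
  ins : ∀ i : ℕ, 0 < i → i ≤ r.N → rayIn T ps r i (zA ps.X ps.Y r.ρ i) = true
  fin : rayEnd T ps r (zA ps.X ps.Y r.ρ (r.N + 1)) = true

theorem mc_insF {T : MT} {ps : PS} {r : RI} (m : ℕ) (h : rayIns T ps r m = true) : ∀ i : ℕ, 0 < i →
    i ≤ m → rayIn T ps r i (zA ps.X ps.Y r.ρ i) = true := by
  induction m with
  | zero => intro i h0 h1; omega
  | succ m ih =>
    have h1 : rayIns T ps r (m + 1) = (rayIns T ps r m &&
      rayIn T ps r (m + 1) (zA ps.X ps.Y r.ρ (m + 1))) := rfl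
    rw [h1, Bool.and_eq_true] at h
    intro i h0 hi
    by_cases him : i ≤ m
    · exact ih h.1 i h0 him
    · have : i = m + 1 := by omega
      subst this
      exact h.2

theorem rayF {T : MT} {ps : PS} {r : RI} (h : rayOk T ps r = true) : RayF T ps r := by
  unfold rayOk at h
  rw [Bool.and_eq_true, Bool.and_eq_true, Bool.and_eq_true, Bool.and_eq_true, Bool.and_eq_true,
    Bool.and_eq_true, Bool.and_eq_true] at h
  obtain ⟨h1, h2, h3, h4, h5, he, h6, h7⟩ := h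
  exact ⟨mc_insF _ h6, h7⟩

theorem mem_raysOf {L : List RI} {ρ : Ray} : ρ ∈ raysOf L ↔ ∃ r ∈ L, r.ρ = ρ := by
  induction L with
  | nil =>
    constructor
    · intro h; exact absurd h List.not_mem_nil
    · rintro ⟨r, hr, -⟩; exact absurd hr List.not_mem_nil
  | cons x L ih =>
    have h1 : raysOf (x :: L) = x.ρ :: raysOf L := rfl
    rw [h1, List.mem_cons, ih]
    constructor
    · rintro (h | ⟨r, hr, h⟩)
      · exact ⟨x, List.mem_cons_self, h.symm⟩
      · exact ⟨r, List.mem_cons_of_mem _ hr, h⟩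
    · rintro ⟨r, hr, h⟩
      rcases List.mem_cons.1 hr with rfl | hr
      · exact Or.inl h.symm
      · exact Or.inr ⟨r, hr, h⟩

theorem mc_raysOf (L : List RI) : raysOf L = L.map (fun r => r.ρ) := by
  induction L with
  | nil => rfl
  | cons x L ih =>
    have h1 : raysOf (x :: L) = x.ρ :: raysOf L := rfl
    rw [h1, ih, List.map_cons]

theorem mc_eq_of_e {T : MT} {ps : PS} (h : PsD T ps) {r r' : RI} (hr : r ∈ ps.rs) (hr' : r' ∈ ps.rs)
    (he : r.ρ.e = r'.ρ.e) : r = r' := by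
  by_contra hne
  exact (h.pair r hr r' hr' hne).1 he

/-- the square of the far slider -/
theorem fM_eq {T : MT} {ps : PS} (h : PsD T ps) {O : Sq} {r : RI} (hr : r ∈ ps.rs) :
    fM ps O r.ρ.e = sqA O (zA ps.X ps.Y r.ρ r.n) := by
  unfold fM
  cases hf : ps.rs.find? (fun r' => decide (r'.ρ.e = r.ρ.e)) with
  | none =>
    rw [List.find?_eq_none] at hf
    exact absurd (by simp) (hf r hr)
  | some r' =>
    have h1 := List.mem_of_find?_eq_some hf
    have h2 := List.find?_some hf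
    have h3 : r'.ρ.e = r.ρ.e := by simpa using h2
    have h4 := mc_eq_of_e h h1 hr h3
    subst h4
    rfl

theorem mc_t {T : MT} {ps : PS} {r : RI} (d : RayD T ps r) : r.ρ.t ∈ orT ++ diT := by
  rcases d.kind with h | h
  · exact List.mem_append_left _ h.1
  · exact List.mem_append_right _ h.1

theorem mc_inA {T : MT} {ps : PS} {r : RI} (d : RayD T ps r) {i : ℕ} (h0 : 0 < i) (hi : i ≤ r.N + 1) :
    inA T.H (zA ps.X ps.Y r.ρ i) = true := by
  by_cases h : i ≤ r.N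
  · have h1 := d.ins i h0 h
    unfold rayInE at h1
    rw [Bool.and_eq_true] at h1
    exact h1.1
  · have : i = r.N + 1 := by omega
    subst this
    have h1 := d.fin
    unfold rayEndE at h1
    rw [Bool.and_eq_true] at h1
    exact h1.1

/-- the squares of a ray, beyond its mark -/
theorem ray_zA {T : MT} {ps : PS} {O : Sq} {F : Board} {q : Nat} (h : PsD T ps) {r : RI} (hr : r ∈ ps.rs)
    {i : ℕ} (hi : i ≤ r.N + 1) :
    (cxM T ps O F q).ray r.ρ i = sqA O (zA ps.X ps.Y r.ρ i) := by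
  have d := rayD (h.ray r hr)
  exact (sqA_zA (H := T.H) (cxM_at T ps O F q) h.hX h.hY.1 (mc_t d) d.inn
    (fun j h0 hj => mc_inA d h0 (by omega))).symm

theorem mc_st {T : MT} (hT : mtOk T = true) {j : Nat} (hj : j ∈ T.st) :
    inA T.H j = true ∧ cell T.A j = 15 := by
  unfold mtOk at hT
  rw [Bool.and_eq_true, TS1_allb] at hT
  have h1 := hT.2 j hj
  rw [Bool.and_eq_true, TS1_beq] at h1
  exact h1

theorem mc_k {T : MT} (hT : mtOk T = true) : T.k = 11 ∨ T.k = 12 := by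
  unfold mtOk at hT
  rw [Bool.and_eq_true, Bool.or_eq_true, TS1_beq, TS1_beq] at hT
  exact hT.1

theorem mc_q {T : MT} {ps : PS} (h : PsD T ps) {q : Nat} (hq : q = ps.q ∨ q = 0) :
    q = 0 ∨ (q = ps.q ∧ q ∈ T.st) := by
  rcases hq with hq | hq
  · rcases h.q with h1 | h1
    · left; rw [hq, h1]
    · right; exact ⟨hq, by rw [hq]; exact h1⟩
  · exact Or.inl hq

/-- the ray is empty -/
theorem ray_empty {T : MT} {O : Sq} {F : Board} {R : Room} (hT : mtOk T = true)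
    (hF : MBase T O F R) {ps : PS} (h : PsD T ps) {q : Nat} (hq : q = ps.q ∨ q = 0) {r : RI}
    (hr : r ∈ ps.rs) {i : ℕ} (h0 : 0 < i) (hi : i ≤ r.N) :
    (cxM T ps O F q).F ((cxM T ps O F q).ray r.ρ i) = none := by
  have _ := hT
  have d := rayD (h.ray r hr)
  rw [ray_zA h hr (by omega)]
  have h1 := d.ins i h0 hi
  unfold rayInE at h1
  rw [Bool.and_eq_true, Bool.and_eq_true, Bool.or_eq_true, TS1_beq,
    Bool.and_eq_true, TS1_beq, mc_memb, mc_notbeq] at h1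
  obtain ⟨h2, h3, h4⟩ := h1
  show FM T F O q (sqA O (zA ps.X ps.Y r.ρ i)) = none
  unfold FM
  rw [if_neg]
  · rcases h3 with h3 | h3
    · rw [cell_sqA hF.fits (inA_lt h2).1 (by rw [h3]; norm_num), h3]
      rfl
    · exact hF.st _ h3.2
  · rintro ⟨h5, h6⟩
    have h7 := sqA_inj h6
    rcases mc_q h hq with h8 | h8
    · exact h5 h8
    · exact h4 (by rw [h7]; exact h8.1)

/-- the blocker -/
theorem ray_block {T : MT} {O : Sq} {F : Board} {R : Room} (hT : mtOk T = true)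
    (hF : MBase T O F R) {ps : PS} (h : PsD T ps) {q : Nat} (hq : q = ps.q ∨ q = 0) {r : RI}
    (hr : r ∈ ps.rs) :
    ∃ m, (cxM T ps O F q).F ((cxM T ps O F q).ray r.ρ (r.N + 1)) = some m ∧ Quiet r.ρ.t m ∧
      some m = dec (cell T.A (zA ps.X ps.Y r.ρ (r.N + 1))) := by
  have d := rayD (h.ray r hr)
  rw [ray_zA h hr le_rfl]
  have h1 := d.fin
  unfold rayEndE at h1
  rw [Bool.and_eq_true] at h1
  obtain ⟨h2, h3⟩ := h1
  have hcases : (cell T.A (zA ps.X ps.Y r.ρ (r.N + 1)) = 1 ∨ cell T.A (zA ps.X ps.Y r.ρ (r.N + 1)) = 2 ∨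
      cell T.A (zA ps.X ps.Y r.ρ (r.N + 1)) = 9 ∨ cell T.A (zA ps.X ps.Y r.ρ (r.N + 1)) = 10) ∨
      (r.ρ.t ∉ orT ∧ cell T.A (zA ps.X ps.Y r.ρ (r.N + 1)) = 12) ∨
      (r.ρ.t ∈ orT ∧ cell T.A (zA ps.X ps.Y r.ρ (r.N + 1)) = 11) := by
    unfold qM at h3
    cases ha : (aO fun u => !Nat.beq u r.ρ.t) with
    | true =>
      rw [ha] at h3
      have hno : r.ρ.t ∉ orT := by
        rw [← mc_aO, ha]
        intro hh
        cases hh
      rcases mc_mskqo h3 with h4 | h4 | h4 | h4 | h4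
      · exact Or.inl (Or.inl h4)
      · exact Or.inl (Or.inr (Or.inl h4))
      · exact Or.inl (Or.inr (Or.inr (Or.inl h4)))
      · exact Or.inl (Or.inr (Or.inr (Or.inr h4)))
      · exact Or.inr (Or.inl ⟨hno, h4⟩)
    | false =>
      rw [ha] at h3
      have hno : r.ρ.t ∈ orT := by
        rw [← mc_aO, ha]
        rfl
      rcases mc_mskqd h3 with h4 | h4 | h4 | h4 | h4
      · exact Or.inl (Or.inl h4)
      · exact Or.inl (Or.inr (Or.inl h4))
      · exact Or.inl (Or.inr (Or.inr (Or.inl h4)))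
      · exact Or.inl (Or.inr (Or.inr (Or.inr h4)))
      · exact Or.inr (Or.inr ⟨hno, h4⟩)
  have hFd : FM T F O q (sqA O (zA ps.X ps.Y r.ρ (r.N + 1))) =
      dec (cell T.A (zA ps.X ps.Y r.ρ (r.N + 1))) := by
    unfold FM
    rw [if_neg]
    · exact cell_sqA hF.fits (inA_lt h2).1 (by omega)
    · rintro ⟨h5, h6⟩
      have h7 := sqA_inj h6
      rcases mc_q h hq with h8 | h8
      · exact h5 h8
      · have h9 := (mc_st hT h8.2).2
        rw [h7, h9] at hcases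
        omega
  show ∃ m, FM T F O q (sqA O (zA ps.X ps.Y r.ρ (r.N + 1))) = some m ∧ _
  rw [hFd]
  have hdi : r.ρ.t ∉ orT → r.ρ.t ∈ diT := by
    intro hno
    rcases d.kind with h | h
    · exact absurd h.1 hno
    · exact h.1
  rcases hcases with (h5 | h5 | h5 | h5) | ⟨h6, h5⟩ | ⟨h6, h5⟩ <;> rw [h5]
  · exact ⟨_, rfl, Or.inl rfl, rfl⟩
  · exact ⟨_, rfl, Or.inr (Or.inl rfl), rfl⟩
  · exact ⟨_, rfl, Or.inl rfl, rfl⟩
  · exact ⟨_, rfl, Or.inr (Or.inl rfl), rfl⟩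
  · exact ⟨_, rfl, Or.inr (Or.inr ⟨rfl, Or.inr ⟨hdi h6, rfl⟩⟩), rfl⟩
  · exact ⟨_, rfl, Or.inr (Or.inr ⟨rfl, Or.inl ⟨h6, rfl⟩⟩), rfl⟩

theorem mc_noK {T : MT} {O : Sq} {F : Board} {R : Room} (hT : mtOk T = true)
    (hF : MBase T O F R) (q : Nat) (s : Sq) : NK (FM T F O q s) s := by
  unfold FM
  split
  · rcases mc_k hT with h | h <;> rw [h] <;> exact nk_dec (by decide) (by decide) s
  · exact hF.fits.noK s

/-- chunk MC: **the contexts are admissible** -/
theorem cxM_ok {T : MT} {O : Sq} {F : Board} {R : Room} (hT : mtOk T = true)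
    (hF : MBase T O F R) {ps : PS} (h : psOkE T ps = true) {q : Nat} (hq : q = ps.q ∨ q = 0) :
    (cxM T ps O F q).Ok := by
  have d := psD h
  refine ⟨mc_noK hT hF q, ?_, ?_, ?_, ?_, ?_, ?_⟩
  · show ((raysOf ps.rs).map (fun ρ => ρ.e)).Nodup
    rw [mc_raysOf, List.map_map]
    exact d.nodup
  · intro ρ hρ
    obtain ⟨r, hr, rfl⟩ := mem_raysOf.1 hρ
    exact (rayD (d.ray r hr)).kind
  · intro ρ hρ
    obtain ⟨r, hr, rfl⟩ := mem_raysOf.1 hρ
    exact ⟨(rayD (d.ray r hr)).inn, fun _ => (rayD (d.ray r hr)).out⟩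
  · intro ρ hρ n hn hemp m hm
    obtain ⟨r, hr, rfl⟩ := mem_raysOf.1 hρ
    obtain ⟨m', h1, h2, -⟩ := ray_block hT hF d hq hr
    have hn' : n = r.N + 1 := by
      rcases lt_trichotomy n (r.N + 1) with h3 | h3 | h3
      · rw [ray_empty hT hF d hq hr hn (by omega)] at hm
        cases hm
      · exact h3
      · rw [hemp (r.N + 1) (by omega) h3] at h1
        cases h1
    subst hn'
    rw [h1] at hm
    cases hm
    exact h2
  · intro ρ hρ
    obtain ⟨r, hr, rfl⟩ := mem_raysOf.1 hρ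
    have dr := rayD (d.ray r hr)
    have hn1 := dr.n1
    have hnN := dr.nN
    refine ⟨r.n, hn1, ?_, ?_⟩
    · rw [ray_zA d hr (by omega)]
      exact fM_eq d hr
    · intro i h0 hi
      exact ray_empty hT hF d hq hr h0 (by omega)
  · intro ρ hρ ρ' hρ' hne n n' hn hn'
    obtain ⟨r, hr, rfl⟩ := mem_raysOf.1 hρ
    obtain ⟨r', hr', rfl⟩ := mem_raysOf.1 hρ'
    exact rDisj_sound (List.mem_append.2 ((rayD (d.ray r hr)).kind.imp (fun h => h.1)
      (fun h => h.1))) (d.pair r hr r' hr' (fun hh => hne (by rw [hh]))).2 n n' hn hn'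

theorem mc_patch {T : MT} {ps : PS} {O : Sq} {F : Board} {q : Nat} (d : PsD T ps) {s : Sq}
    (hs : InB (cxM T ps O F q).o s) : s ∈ TileRegH T.H O := by
  have hX := d.hX
  have hY := d.hY
  obtain ⟨h1, h2, h3, h4⟩ := hs
  have o1 : (cxM T ps O F q).o.1 = O.1 + (ps.X : ℤ) - 10 := rfl
  have o2 : (cxM T ps O F q).o.2 = O.2 + (ps.Y : ℤ) - 10 := rfl
  rw [o1] at h1 h2
  rw [o2] at h3 h4
  show O.1 - 2 ≤ s.1 ∧ s.1 < O.1 + 82 ∧ O.2 - 2 ≤ s.2 ∧ s.2 < O.2 + (T.H : ℤ) + 2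
  refine ⟨?_, ?_, ?_, ?_⟩ <;> omega

theorem cxM_sep {T : MT} {O : Sq} {F : Board} {R : Room} (hT : mtOk T = true)
    (hF : MBase T O F R) {ps : PS} (h : psOkE T ps = true) {q : Nat} (hq : q = ps.q ∨ q = 0) :
    R.Sep (cxM T ps O F q) := by
  have _ := hT
  have _ := hq
  have d := psD h
  refine ⟨fun s hs => hF.reg s (mc_patch d hs), ?_⟩
  intro ρ hρ
  obtain ⟨r, hr, rfl⟩ := mem_raysOf.1 hρ
  have dr := rayD (d.ray r hr)
  have hn1 := dr.n1
  have hnN := dr.nN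
  show fM ps O r.ρ.e ∉ R.Z
  rw [fM_eq d hr]
  exact hF.reg _ (inA_reg (mc_inA dr hn1 (by omega)))

theorem cxM_G {T : MT} {O : Sq} {F : Board} {R : Room} (hT : mtOk T = true)
    (hF : MBase T O F R) {ps : PS} (h : psOkE T ps = true) {q : Nat} (hq : q = ps.q ∨ q = 0)
    (p : Nat) : R.G ((cxM T ps O F q).brd p) := by
  have hsep := cxM_sep hT hF h hq
  have d := psD h
  refine R.dep F _ ?_ hF.G
  intro s hs
  have h1 : ¬ InB (cxM T ps O F q).o s := fun hh => hsep.patch s hh hs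
  unfold Ctx.brd
  rw [if_neg (fun hh => h1 hh.1)]
  have hnone : (cxM T ps O F q).R.find?
      (fun ρ => decide (s = (cxM T ps O F q).f ρ.e ∧ cell p ρ.e = 8)) = none := by
    rw [List.find?_eq_none]
    intro ρ hρ hd
    have h3 := of_decide_eq_true hd
    exact hsep.far ρ hρ (by rw [← h3.1]; exact hs)
  rw [hnone]
  show F s = FM T F O q s
  unfold FM
  rw [if_neg]
  rintro ⟨h5, h6⟩
  rcases mc_q d hq with h8 | h8
  · exact h5 h8
  · exact hF.reg s (by rw [h6]; exact inA_reg (mc_st hT h8.2).1) hs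

end Pool.Agent.Lib.H32C.Loc
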