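import Pool.Agent.Lib.H32C.MemF
import Pool.Agent.Lib.H32C.MemN

/-!
# Chains of groups of items
-/

set_option autoImplicit false

namespace Pool.Agent.Lib.H32C.Loc

/-- the states of the phase `q` -/
def phs (q : Nat) (acc : List Mo) : List Nat :=
  List.rec [] (fun m _ ih => cond (Nat.beq m.k q) (m.j :: ih) ih) acc

/-- add the states of a list of items without rays in the phase `q` -/
def addN (q : Nat) (L : List NI) (acc : List Mo) : List Mo :=
  List.rec acc (fun u _ ih => ⟨u.i, q⟩ :: ih) L

theorem mem_phs {q j : Nat} {acc : List Mo} : j ∈ phs q acc ↔ (⟨j, q⟩ : Mo) ∈ acc := by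
  induction acc with
  | nil => exact ⟨fun h => absurd h List.not_mem_nil, fun h => absurd h List.not_mem_nil⟩
  | cons m acc ih =>
    have h1 : phs q (m :: acc) = cond (Nat.beq m.k q) (m.j :: phs q acc) (phs q acc) := rfl
    rw [h1, List.mem_cons]
    by_cases hk : m.k = q
    · rw [TS1_beq.2 hk, cond_true, List.mem_cons, ih]
      constructor
      · rintro (h | h)
        · left
          rw [h, ← hk]
        · exact Or.inr h
      · rintro (h | h)
        · left
          rw [← h]
        · exact Or.inr h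
    · rw [mc_beq_false.2 hk, cond_false, ih]
      constructor
      · exact Or.inr
      · rintro (h | h)
        · exact absurd (by rw [← h]) hk
        · exact h

theorem mem_addN {q : Nat} {L : List NI} {acc : List Mo} {m : Mo} (hm : m ∈ addN q L acc) :
    m ∈ acc ∨ (m.k = q ∧ ∀ A : List Nat, m.j ∈ keysN L A) := by
  induction L with
  | nil => exact Or.inl hm
  | cons u L ih =>
    have h1 : addN q (u :: L) acc = ⟨u.i, q⟩ :: addN q L acc := rfl
    rw [h1] at hm
    rcases List.mem_cons.1 hm with h | h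
    · right
      rw [h]
      exact ⟨rfl, fun A => List.mem_cons_self⟩
    · rcases ih h with h2 | ⟨h2, h3⟩
      · exact Or.inl h2
      · exact Or.inr ⟨h2, fun A => List.mem_cons_of_mem _ (h3 A)⟩

/-- White wins from all states of a list -/
def HVs (T : MT) (S : List (List Pc)) (F : Board) (O : Sq) (acc : List Mo) : Prop :=
  ∀ m ∈ acc, HasValue (PM T S F O m.j m.k)

/-- lower bounds for all states of a list -/
def GEs (T : MT) (S : List (List Pc)) (F : Board) (O : Sq) (β : Ordinal.{0}) (acc : List Mo) : Prop :=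
  ∀ m ∈ acc, GE (PM T S F O m.j m.k) β

theorem HVs.U {T : MT} {S : List (List Pc)} {F : Board} {O : Sq} {acc : List Mo} {R : Room}
    (hF : MBase T O F R) (hT : mtOk T = true) (ps : PS) (L : List UI) (hps : psOk T ps = true)
    (h : grpU T S ps acc L = true) (hacc : HVs T S F O acc) : HVs T S F O (keysU L acc) :=
  grpU_hasValue hT hps h hF hacc

theorem GEs.U {T : MT} {S : List (List Pc)} {F : Board} {O : Sq} {acc : List Mo} {R : Room}
    (hF : MBase T O F R) (hT : mtOk T = true) (ps : PS) (L : List LI) (hps : psOk T ps = true)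
    {β : Ordinal.{0}} (h : grpL T S ps acc L = true) (hacc : GEs T S F O β acc) :
    GEs T S F O β (keysL L acc) :=
  grpL_ge hT (psOk_E hps) h hF hacc

theorem HVs.E {T : MT} {S : List (List Pc)} {F : Board} {O : Sq} {acc : List Mo} {R : Room}
    (hF : MBase T O F R) (hT : mtOk T = true) (ps : PS) (L : List UI) (hps : psOkE T ps = true)
    (hn : psNo ps = true) (h : grpU T S ps acc L = true) (hacc : HVs T S F O acc) :
    HVs T S F O (keysU L acc) :=
  grpU_hasValue0 hT hps hn h hF hacc

theorem GEs.E {T : MT} {S : List (List Pc)} {F : Board} {O : Sq} {acc : List Mo} {R : Room}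
    (hF : MBase T O F R) (hT : mtOk T = true) (ps : PS) (L : List LI) (hps : psOkE T ps = true)
    {β : Ordinal.{0}} (h : grpL T S ps acc L = true) (hacc : GEs T S F O β acc) :
    GEs T S F O β (keysL L acc) :=
  grpL_ge hT hps h hF hacc

theorem HVs.N {T : MT} {S : List (List Pc)} {F : Board} {O : Sq} {acc : List Mo} {R : Room}
    (hF : MBase T O F R) (hT : mtOk T = true) (q : Nat) (hq : (Nat.beq q 0 || memb q T.st) = true)
    (L : List NI) (h : grpNU T.H T.A S (phs q acc) L = true) (hacc : HVs T S F O acc) :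
    HVs T S F O (addN q L acc) := by
  rw [Bool.or_eq_true, TS1_beq, mc_memb] at hq
  obtain ⟨h1, h2⟩ := fits_FM hT hF hq
  have h3 := grpNU_hasValue h h1 hF.reg h2 (fun j hj => hacc ⟨j, q⟩ (mem_phs.1 hj))
  intro m hm
  rcases mem_addN hm with h4 | ⟨h4, h5⟩
  · exact hacc m h4
  · have h6 := h3 m.j (h5 _)
    unfold PM
    rw [h4]
    exact h6

theorem GEs.N {T : MT} {S : List (List Pc)} {F : Board} {O : Sq} {acc : List Mo} {R : Room}
    (hF : MBase T O F R) (hT : mtOk T = true) (q : Nat) (hq : (Nat.beq q 0 || memb q T.st) = true)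
    (L : List NI) {β : Ordinal.{0}} (h : grpNL T.H T.A S (phs q acc) L = true)
    (hacc : GEs T S F O β acc) :
    GEs T S F O β (addN q L acc) := by
  rw [Bool.or_eq_true, TS1_beq, mc_memb] at hq
  obtain ⟨h1, h2⟩ := fits_FM hT hF hq
  have h3 := grpNL_ge h h1 hF.reg h2 (fun j hj => hacc ⟨j, q⟩ (mem_phs.1 hj))
  intro m hm
  rcases mem_addN hm with h4 | ⟨h4, h5⟩
  · exact hacc m h4
  · have h6 := h3 m.j (h5 _)
    unfold PM
    rw [h4]
    exact h6

end Pool.Agent.Lib.H32C.Loc
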