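import Pool.Agent.Lib.H32C.MemC

/-!
# Chunk MD: the only event is the arrival of the resident
-/

set_option autoImplicit false

namespace Pool.Agent.Lib.H32C.Loc

/-! helpers of chunk MD1 -/

theorem MD1_ghost {X Y e : Nat} (L : List RI) {r : RI} (hr : r ∈ L) (he : r.ρ.e ≠ e) :
    (⟨zA X Y r.ρ r.n, r.ρ.k⟩ : Mo) ∈ ghosts X Y e L := by
  induction L with
  | nil => exact absurd hr List.not_mem_nil
  | cons u L ih =>
    have h1 : ghosts X Y e (u :: L) = cond (Nat.beq u.ρ.e e) (ghosts X Y e L)
      (⟨zA X Y u.ρ u.n, u.ρ.k⟩ :: ghosts X Y e L) := rfl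
    rw [h1]
    rcases List.mem_cons.1 hr with rfl | hr
    · have h2 : Nat.beq r.ρ.e e = false := by
        rw [← Bool.not_eq_true, TS1_beq]
        exact he
      rw [h2]
      exact List.mem_cons_self
    · cases Nat.beq u.ρ.e e
      · exact List.mem_cons_of_mem _ (ih hr)
      · exact ih hr

theorem MD1_movers_ghost {T : MT} {ps : PS} {e : Nat} {r : RI} (hr : r ∈ ps.rs) (he : r.ρ.e ≠ e) :
    (⟨zA ps.X ps.Y r.ρ r.n, r.ρ.k⟩ : Mo) ∈ movers T ps e := by
  unfold movers
  cases Nat.beq ps.q 0
  · exact List.mem_cons_of_mem _ (MD1_ghost ps.rs hr he)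
  · exact MD1_ghost ps.rs hr he

theorem MD1_movers_q {T : MT} {ps : PS} {e : Nat} (hq : ps.q ≠ 0) :
    (⟨ps.q, T.k⟩ : Mo) ∈ movers T ps e := by
  unfold movers
  have h2 : Nat.beq ps.q 0 = false := by
    rw [← Bool.not_eq_true, TS1_beq]
    exact hq
  rw [h2]
  exact List.mem_cons_self

theorem MD1_side {T : MT} {X Y : Nat} {mv : List Mo} {t j : Nat} (h : sideA T X Y mv t j = true)
    {u : Nat} (hu : u ∈ orT ++ diT) (h1 : u ≠ t) (h2 : u + t ≠ 84) :
    scanA T X Y mv u 90 j = true := by
  unfold sideA at h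
  rw [Bool.and_eq_true, aO_iff, aD_iff] at h
  have key : ((Nat.beq u t || Nat.beq (Nat.add u t) 84) || scanA T X Y mv u 90 j) = true →
      scanA T X Y mv u 90 j = true := by
    intro h3
    rw [Bool.or_eq_true, Bool.or_eq_true, TS1_beq, TS1_beq] at h3
    rcases h3 with (h3 | h3) | h3
    · exact absurd h3 h1
    · exact absurd h3 h2
    · exact h3
  rcases List.mem_append.1 hu with hu | hu
  · exact key (h.1 u hu)
  · exact key (h.2 u hu)

/-- a Black slider which goes to `b` comes along a line -/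
theorem MD1_line {B : Board} {a b : Sq} {κ : Kind} {t : Nat} (hκ : SlK κ t)
    (h : ManAttacks B (false, κ) a b) :
    ∃ u ∈ orT ++ diT, SlK κ u ∧ ∃ n : ℕ, 0 < n ∧ a = b + n • vec u ∧
      ∀ i : ℕ, 0 < i → i < n → B (b + i • vec u) = none := by
  have key : ∀ d ∈ orthDirs ++ diagDirs, ∃ u ∈ orT ++ diT, vec u = -d ∧
      (d ∈ orthDirs → u ∈ orT) ∧ (d ∈ diagDirs → u ∈ diT) := by
    decide
  have key2 : ∀ (ds : List Sq), (∀ d ∈ ds, d ∈ orthDirs ++ diagDirs) →
      (∀ u, u ∈ orT ++ diT → -vec u ∈ ds → SlK κ u) → Slides B ds a b →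
      ∃ u ∈ orT ++ diT, SlK κ u ∧ ∃ n : ℕ, 0 < n ∧ a = b + n • vec u ∧
      ∀ i : ℕ, 0 < i → i < n → B (b + i • vec u) = none := by
    intro ds hds hsl hs
    obtain ⟨d, hd, m, hm, hx, hcl⟩ := LD_of_slides hs
    obtain ⟨u, hu, hv, -⟩ := key d (hds d hd)
    refine ⟨u, hu, hsl u hu ?_, m, hm, ?_, ?_⟩
    · rw [hv, neg_neg]
      exact hd
    · rw [hv]
      exact hx
    · rw [hv]
      exact hcl
  have h1 : ∀ u, u ∈ orT ++ diT → -vec u ∈ orthDirs → u ∈ orT := by decide
  have h2 : ∀ u, u ∈ orT ++ diT → -vec u ∈ diagDirs → u ∈ diT := by decide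
  rcases hκ with rfl | ⟨-, rfl⟩ | ⟨-, rfl⟩
  · exact key2 (orthDirs ++ diagDirs) (fun d hd => hd) (fun u _ _ => Or.inl rfl) h
  · exact key2 orthDirs (fun d hd => List.mem_append_left _ hd)
      (fun u hu hv => Or.inr (Or.inl ⟨h1 u hu hv, rfl⟩)) h
  · exact key2 diagDirs (fun d hd => List.mem_append_right _ hd)
      (fun u hu hv => Or.inr (Or.inr ⟨h2 u hu hv, rfl⟩)) h

theorem MD1_quiet {t : Nat} {κ : Kind} (h : Quiet t (false, κ)) (hκ : SlK κ t) : False := by
  obtain ⟨-, h1, h2, h3⟩ := LD_quiet h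
  rcases hκ with rfl | ⟨h4, rfl⟩ | ⟨h4, rfl⟩
  · exact h1 rfl
  · exact h2 h4 rfl
  · exact h3 h4 rfl

/-- **The only event.** Let `B = brd p`, let the king see the mark `7` of `ρ = r.ρ`, and let `a → b` be a legal Black move
with `a` not a known cell, after which a slider on the `m`-th square of the ray attacks along the ray (`Hit`).  Then `a` is the
resident and `b` its arrival square.

Proof.  (1) `B` is empty on the squares `1, ..., N` of the ray and quiet on square `N + 1` (brd_ray with mark `7`, ray_empty,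
ray_block).  (2) If `b` is not the `m`-th square: the slider stood there before, so `m > N` by (1), `m ≠ N + 1`
(quiet), so `m > N + 1` and `a` is the blocker (square `N + 1`, the only nonempty one among the first `N + 1`); the squares
`N + 2, ..., m - 1` are empty after the move, so also before (`b` is none of them).  So a Black slider attacks
the blocker's square from direction `t`: contradiction to `scanA ... r.ρ.t` in `rayEnd` (scanA_board with `j = zA (N+1)`, `u = t`;
the square is not a known cell by ray_out; `movers` contains the resident, and the far sliders of the other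
rays, which have mark `8`; `r` itself has mark `7`).  (3) `b` is the `m`-th square.  Then `m ≤ N + 1`, since otherwise `a` would be the
blocker, which is quiet, but the man from `a` attacks along the ray.  The man of `a` (a slider, since it is
queen, rook on an orthogonal ray or bishop on a diagonal one) comes along a line: `a = b + l • vec u`, empty
in between.  `u = t`: then `m = N + 1` (else the blocker, quiet, would be `a` or in between) and `rayEnd` gives a contradiction.
`u = opp t`: the squares towards the patch are empty up to the mark, then the cells of the patch up to the king are known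
(`see7`, `first_spec`), `a` is not a known cell, and the king blocks.  Other `u`: if `m = N + 1`: `B b` is not empty, so it is White (Black does not capture its
own men), so the code of the blocker is at most `7` and `sideA` holds: contradiction.  If `m ≤ N`: `rayIn`
gives `sideA` with `movers` or, on the arrival square of the ray `ps.e` if `ps.n = 1`, with
`ghosts`: in the first case contradiction; in the second case: if `a` is not the resident, the same contradiction
(the second alternative in the hypothesis `hq` of `scanA_board`); so `a` is the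
resident. -/
theorem event_only {T : MT} {O : Sq} {F : Board} {R : Room} (hT : mtOk T = true)
    (hF : MBase T O F R) {ps : PS} (h : psOkE T ps = true) {q : Nat}
    (hq : q = ps.q ∨ (ps.n = 1 ∧ q = 0)) {p k : Nat} (hp : WF (cxM T ps O F q) p k) {r : RI}
    (hr : r ∈ ps.rs) (hfull : rayOk T ps r = true) (hs : see7 p k r.ρ = true) {a b : Sq}
    (hl : Legal ((cxM T ps O F q).brd p) false a b)
    (hout : ¬ (InB (cxM T ps O F q).o a ∧ cell p (idx (cxM T ps O F q).o a) ≠ 15))
    (hh : Hit (cxM T ps O F q) (((cxM T ps O F q).brd p).move a b) r.ρ) :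
    q ≠ 0 ∧ ps.n = 1 ∧ r.ρ.e = ps.e ∧ a = sqA O q ∧ b = sqA O (zA ps.X ps.Y r.ρ r.n) := by
  have hq' : q = ps.q ∨ q = 0 := hq.imp id (fun h => h.2)
  have hC := cxM_ok hT hF h hq'
  have hP := psD h
  have hD := rayD (hP.ray r hr)
  have hDF := rayF hfull
  have hR : r.ρ ∈ (cxM T ps O F q).R := mem_raysOf.2 ⟨r, hr, rfl⟩
  have ht : r.ρ.t ∈ orT ++ diT := by
    rcases hD.kind with h3 | h3
    · exact List.mem_append_left _ h3.1
    · exact List.mem_append_right _ h3.1
  have hvt := LC_vec_ne ht
  unfold see7 at hs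
  rw [Bool.and_eq_true, TS1_beq, TS1_beq] at hs
  obtain ⟨h7, hfirst⟩ := hs
  -- the ray is empty
  have hE : ∀ i : ℕ, 0 < i → i ≤ r.N → (cxM T ps O F q).brd p ((cxM T ps O F q).ray r.ρ i) = none := by
    intro i h0 hi
    rw [brd_ray hC hp hR i h0, if_neg (fun hh => by rw [h7] at hh; exact absurd hh.2 (by decide))]
    exact ray_empty hT hF hP hq' hr h0 hi
  -- the blocker
  obtain ⟨m₀, hm₀, hquiet, hdec⟩ := ray_block hT hF hP hq' hr
  have hQ : (cxM T ps O F q).brd p ((cxM T ps O F q).ray r.ρ (r.N + 1)) = some m₀ := by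
    rw [brd_ray hC hp hR _ (Nat.succ_pos _),
      if_neg (fun hh => by rw [h7] at hh; exact absurd hh.2 (by decide))]
    exact hm₀
  -- scans
  have hkk : ∀ r' ∈ ps.rs, 9 ≤ r'.ρ.k ∧ r'.ρ.k ≤ 13 := by
    intro r' hr'
    rcases (rayD (hP.ray r' hr')).kind with ⟨-, h3 | h3⟩ | ⟨-, h3 | h3⟩ <;> omega
  have hfar : ∀ r' ∈ ps.rs, cell p r'.ρ.e = 8 → r'.ρ.e ≠ r.ρ.e := by
    intro r' _ h8 he
    rw [he, h7] at h8
    exact absurd h8 (by decide)
  have hmvq : q ≠ 0 → (⟨q, T.k⟩ : Mo) ∈ movers T ps r.ρ.e := by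
    intro h0
    have h1 : q = ps.q := by
      rcases hq' with h1 | h1
      · exact h1
      · exact absurd h1 h0
    rw [h1] at h0 ⊢
    exact MD1_movers_q h0
  have hray : ∀ i, i ≤ r.N + 1 →
      (cxM T ps O F q).ray r.ρ i = sqA O (zA ps.X ps.Y r.ρ i) := fun i hi => ray_zA hP hr hi
  have hinj : ∀ i j : ℕ, (cxM T ps O F q).ray r.ρ i = (cxM T ps O F q).ray r.ρ j → i = j := by
    intro i j hij
    unfold Ctx.ray at hij
    exact LC_smul_inj hvt (add_left_cancel hij)
  have hadd : ∀ i j : ℕ, (cxM T ps O F q).ray r.ρ i + j • vec r.ρ.t =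
      (cxM T ps O F q).ray r.ρ (i + j) := by
    intro i j
    unfold Ctx.ray
    rw [add_assoc, ← add_smul]
  obtain ⟨m, hm, hcl, κ, hκm, hκ⟩ := hh
  have hκ' : SlK κ r.ρ.t := hκ
  have hsa : (cxM T ps O F q).ray r.ρ m ≠ a := by
    intro he
    unfold Board.move at hκm
    rw [if_pos he] at hκm
    cases hκm
  obtain ⟨hcan, -⟩ := hl
  have hBa : (cxM T ps O F q).brd p a ≠ none := by
    obtain ⟨M, hM, -⟩ := hcan
    rw [hM]
    exact fun h => by cases h
  -- the squares which are empty after the move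
  have hpre : ∀ i : ℕ, (cxM T ps O F q).ray r.ρ i ≠ a →
      ((cxM T ps O F q).brd p).move a b ((cxM T ps O F q).ray r.ρ i) = none →
      (cxM T ps O F q).brd p ((cxM T ps O F q).ray r.ρ i) = none := by
    intro i h1 h2
    unfold Board.move at h2
    rw [if_neg h1] at h2
    split_ifs at h2 with h3
    · exact absurd h2 hBa
    · exact h2
  have hblk : r.N + 1 < m → a = (cxM T ps O F q).ray r.ρ (r.N + 1) := by
    intro h1
    by_contra h2
    have h3 := hpre _ (fun h => h2 h.symm) (hcl _ (Nat.succ_pos _) h1)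
    rw [hQ] at h3
    cases h3
  by_cases hsb : (cxM T ps O F q).ray r.ρ m = b
  · -- the slider has moved to the ray
    have hMa : (cxM T ps O F q).brd p a = some (false, κ) := by
      unfold Board.move at hκm
      rw [if_neg hsa, if_pos hsb] at hκm
      exact hκm
    have hm1 : m ≤ r.N + 1 := by
      by_contra h1
      have h2 := hblk (by omega)
      rw [h2, hQ] at hMa
      have h3 : m₀ = (false, κ) := by simpa using hMa
      rw [h3] at hquiet
      exact MD1_quiet hquiet hκ'
    have hatt : ManAttacks ((cxM T ps O F q).brd p) (false, κ) a b := by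
      obtain ⟨M, hM, -, hcan⟩ := hcan
      rw [hMa] at hM
      have h3 : M = (false, κ) := by simpa using hM.symm
      subst h3
      rcases hcan with ⟨-, hcan⟩ | ⟨-, hcan⟩
      · have h4 : ¬ κ = Kind.pawn := by
          rcases hκ' with rfl | ⟨-, rfl⟩ | ⟨-, rfl⟩ <;> exact fun h => by cases h
        rw [if_neg h4] at hcan
        exact hcan
      · exact hcan
    obtain ⟨u, hu, hκu, l, hl0, hal, hlcl⟩ := MD1_line hκ' hatt
    have hb : b = sqA O (zA ps.X ps.Y r.ρ m) := by rw [← hsb, hray m hm1]
    -- a scan which succeeds gives a contradiction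
    have hscan : ∀ mv : List Mo, (q ≠ 0 → (⟨q, T.k⟩ : Mo) ∈ mv ∨ a ≠ sqA O q) →
        (∀ r' ∈ ps.rs, cell p r'.ρ.e = 8 → (⟨zA ps.X ps.Y r'.ρ r'.n, r'.ρ.k⟩ : Mo) ∈ mv) →
        scanA T ps.X ps.Y mv u 90 (zA ps.X ps.Y r.ρ m) = true → False := by
      intro mv h1 h2 h3
      refine scanA_board hT hF hP.hX hP.hY.1 hP.nodup hkk (q := q) (p := p) (mv := mv) (l := l)
        ?_ h2 hu h3 hκu hl0 ?_ ?_ ?_ hp.margin
      · rw [← hb, ← hal]
        exact h1
      · rw [← hb, ← hal]
        exact hMa
      · rw [← hb]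
        exact hlcl
      · rw [← hb, ← hal]
        exact hout
    have hghost : ∀ r' ∈ ps.rs, cell p r'.ρ.e = 8 →
        (⟨zA ps.X ps.Y r'.ρ r'.n, r'.ρ.k⟩ : Mo) ∈ movers T ps r.ρ.e :=
      fun r' h1 h2 => MD1_movers_ghost h1 (hfar r' h1 h2)
    by_cases hut : u = r.ρ.t
    · -- along the ray from outside
      exfalso
      rw [hut] at hal hlcl
      rw [← hsb, hadd] at hal
      rw [← hsb] at hlcl
      have h1 : ∀ i : ℕ, m < i → i < m + l →
          (cxM T ps O F q).brd p ((cxM T ps O F q).ray r.ρ i) = none := by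
        intro i h2 h3
        have h4 := hlcl (i - m) (by omega) (by omega)
        rw [hadd, show m + (i - m) = i by omega] at h4
        exact h4
      rcases lt_trichotomy (m + l) (r.N + 1) with h2 | h2 | h2
      · rw [hal] at hMa
        rw [hE (m + l) (by omega) (by omega)] at hMa
        cases hMa
      · rw [hal, h2, hQ] at hMa
        have h3 : m₀ = (false, κ) := by simpa using hMa
        rw [h3] at hquiet
        exact MD1_quiet hquiet hκ'
      · by_cases h3 : m < r.N + 1
        · have h4 := h1 (r.N + 1) h3 h2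
          rw [hQ] at h4
          cases h4
        · have h4 : m = r.N + 1 := by omega
          have h5 := hDF.fin
          unfold rayEnd at h5
          rw [Bool.and_eq_true, Bool.and_eq_true, Bool.and_eq_true] at h5
          refine hscan (movers T ps r.ρ.e) (fun h => Or.inl (hmvq h)) hghost ?_
          rw [hut, h4]
          exact h5.2.2.1
    · by_cases huo : u + r.ρ.t = 84
      · -- from the patch
        exfalso
        have hopp : u = opp r.ρ.t := by unfold opp; omega
        have hv : vec u = - vec r.ρ.t := by rw [hopp]; exact (opp_spec ht).2.1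
        rw [hv, ← hsb] at hal hlcl
        obtain ⟨n', hS⟩ := first_spec hp hp.lt (by rw [hp.king]; decide) ht (by rw [hfirst, h7]; decide)
        rw [hfirst] at hS
        have hneg : ∀ i j : ℕ, j ≤ i → (cxM T ps O F q).ray r.ρ i + j • (- vec r.ρ.t) =
            (cxM T ps O F q).ray r.ρ (i - j) := by
          intro i j hij
          have h1 := hadd (i - j) j
          rw [Nat.sub_add_cancel hij] at h1
          rw [← h1, smul_neg]
          abel
        have hneg2 : ∀ i j : ℕ, i ≤ j → j ≤ i + n' → (cxM T ps O F q).ray r.ρ i + j • (- vec r.ρ.t) =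
            sq (cxM T ps O F q).o k + (i + n' - j) • vec r.ρ.t := by
          intro i j hij hj
          unfold Ctx.ray
          rw [hS.eq, smul_neg]
          have h1 : i + n' = (i + n' - j) + j := by omega
          have h2 : (i + n') • vec r.ρ.t = (i + n' - j) • vec r.ρ.t + j • vec r.ρ.t := by
            rw [← add_smul, ← h1]
          rw [add_smul] at h2
          have h3 : sq (cxM T ps O F q).o k + n' • vec r.ρ.t + i • vec r.ρ.t + -(j • vec r.ρ.t) =
            sq (cxM T ps O F q).o k + ((i • vec r.ρ.t + n' • vec r.ρ.t) - j • vec r.ρ.t) := by abel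
          rw [h3, h2]
          abel
        rcases lt_trichotomy l m with h1 | h1 | h1
        · rw [hneg m l h1.le] at hal
          rw [hal, hE (m - l) (by omega) (by omega)] at hMa
          cases hMa
        · rw [hneg m l h1.le, h1, Nat.sub_self] at hal
          have h2 : a = sq (cxM T ps O F q).o r.ρ.e := by
            rw [hal]
            unfold Ctx.ray
            rw [zero_smul, add_zero]
          rw [h2, brd_sq _ (inner_lt hD.inn) (by rw [h7]; decide), h7] at hMa
          cases hMa
        · rcases lt_trichotomy l (m + n') with h2 | h2 | h2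
          · rw [hneg2 m l h1.le h2.le] at hal
            obtain ⟨c, hc, hc0, hce⟩ := hS.clear (m + n' - l) (by omega) (by omega)
            rw [hal, ← hce, brd_sq _ hc (by rw [hc0]; decide), hc0] at hMa
            cases hMa
          · rw [hneg2 m l h1.le h2.le, h2, Nat.sub_self, zero_smul, add_zero] at hal
            rw [hal, (kingAt hC hp).1] at hMa
            simp at hMa
          · have h3 := hlcl (m + n') (by omega) h2
            rw [hneg2 m (m + n') (by omega) le_rfl, Nat.sub_self, zero_smul, add_zero,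
              (kingAt hC hp).1] at h3
            cases h3
      · -- from the side
        by_cases hmN : m = r.N + 1
        · exfalso
          have h1 : (cxM T ps O F q).brd p b = some m₀ := by rw [← hsb, hmN, hQ]
          obtain ⟨M, hM, -, hcan⟩ := hcan
          rw [h1] at hcan
          rcases hcan with ⟨h2, -⟩ | ⟨⟨t', h2, h3, -⟩, -⟩
          · cases h2
          · have h4 : m₀ = t' := by simpa using h2
            subst h4
            have hc8 : cell T.A (zA ps.X ps.Y r.ρ (r.N + 1)) < 8 := by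
              have hlt := cell_lt T.A (zA ps.X ps.Y r.ρ (r.N + 1))
              rcases LD_dec_inv hlt hdec.symm with h | h | h | h | h | h | h | h | h | h | h | h <;>
                first
                | omega
                | (rw [h.2] at h3; exact absurd h3 (by decide))
            have h5 := hDF.fin
            unfold rayEnd at h5
            rw [Bool.and_eq_true, Bool.and_eq_true, Bool.and_eq_true, Bool.or_eq_true, TS1_ble] at h5
            rcases h5.2.2.2 with h6 | h6
            · omega
            · refine hscan (movers T ps r.ρ.e) (fun h => Or.inl (hmvq h)) hghost ?_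
              rw [hmN]
              exact MD1_side h6 hu hut huo
        · have h5 := hDF.ins m hm (by omega)
          unfold rayIn at h5
          rw [Bool.and_eq_true, Bool.and_eq_true, Bool.and_eq_true] at h5
          have h6 := h5.2.2.2
          cases hex : exempt ps r m with
          | false =>
            exfalso
            rw [hex] at h6
            exact hscan (movers T ps r.ρ.e) (fun h => Or.inl (hmvq h)) hghost
              (MD1_side h6 hu hut huo)
          | true =>
            rw [hex] at h6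
            unfold exempt at hex
            rw [Bool.and_eq_true, Bool.and_eq_true, TS1_beq, TS1_beq, TS1_beq] at hex
            obtain ⟨e1, e2, e3⟩ := hex
            by_cases hfin : q ≠ 0 ∧ a = sqA O q
            · exact ⟨hfin.1, e2, e3, hfin.2, by rw [hb, e1]⟩
            · exfalso
              refine hscan (ghosts ps.X ps.Y r.ρ.e ps.rs) (fun h => Or.inr (fun h' => hfin ⟨h, h'⟩))
                (fun r' h1 h2 => MD1_ghost ps.rs h1 (hfar r' h1 h2)) (MD1_side h6 hu hut huo)
  · -- the slider was on the ray before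
    exfalso
    have hMs : (cxM T ps O F q).brd p ((cxM T ps O F q).ray r.ρ m) = some (false, κ) := by
      unfold Board.move at hκm
      rw [if_neg hsa, if_neg hsb] at hκm
      exact hκm
    have hm1 : r.N + 1 < m := by
      rcases lt_trichotomy m (r.N + 1) with h1 | h1 | h1
      · rw [hE m hm (by omega)] at hMs
        cases hMs
      · rw [h1, hQ] at hMs
        have h3 : m₀ = (false, κ) := by simpa using hMs
        rw [h3] at hquiet
        exact (MD1_quiet hquiet hκ').elim
      · exact h1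
    have h2 := hblk hm1
    have h5 := hDF.fin
    unfold rayEnd at h5
    rw [Bool.and_eq_true, Bool.and_eq_true, Bool.and_eq_true] at h5
    have hms : sqA O (zA ps.X ps.Y r.ρ (r.N + 1)) + (m - (r.N + 1)) • vec r.ρ.t =
        (cxM T ps O F q).ray r.ρ m := by
      rw [← hray _ le_rfl, hadd]
      congr 1
      omega
    refine scanA_board hT hF hP.hX hP.hY.1 hP.nodup hkk (q := q) (p := p)
      (mv := movers T ps r.ρ.e) (l := m - (r.N + 1)) (fun h => Or.inl (hmvq h))
      (fun r' h1 h2 => MD1_movers_ghost h1 (hfar r' h1 h2)) ht h5.2.2.1 hκ' (by omega) ?_ ?_ ?_ hp.margin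
    · rw [hms]
      exact hMs
    · intro i hi0 hi1
      rw [← hray _ le_rfl, hadd]
      refine hpre _ ?_ (hcl _ (by omega) (by omega))
      rw [h2]
      intro h3
      have := hinj _ _ h3
      omega
    · rw [hms]
      exact ray_out hC hp hR m hm

theorem MD_q {T : MT} {O : Sq} {F : Board} {R : Room} (hT : mtOk T = true)
    (hF : MBase T O F R) {ps : PS} (h : psOkE T ps = true) (hq : ps.q ≠ 0) :
    F (sqA O ps.q) = none ∧ FM T F O ps.q (sqA O ps.q) = dec T.k ∧ dec T.k ≠ none := by
  have hD := psD h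
  refine ⟨hF.st _ (hD.q.resolve_left hq), ?_, ?_⟩
  · unfold FM
    rw [if_pos ⟨hq, rfl⟩]
  · unfold mtOk at hT
    have h1 := (Bool.and_eq_true_iff.1 hT).1
    rcases Bool.or_eq_true_iff.1 h1 with h2 | h2
    · rw [Nat.eq_of_beq_eq_true h2]
      decide
    · rw [Nat.eq_of_beq_eq_true h2]
      decide

theorem MD_arr {T : MT} {O : Sq} {F : Board} {R : Room} (hT : mtOk T = true)
    (hF : MBase T O F R) {ps : PS} (h : psOkE T ps = true) (hq : ps.q ≠ 0) {r : RI}
    (hr : r ∈ ps.rs) :
    (cxM T ps O F ps.q).arr (sqA O ps.q) r.ρ.e ((cxM T ps O F ps.q).ray r.ρ r.n) =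
      cxM T ps O F 0 := by
  have hD := psD h
  obtain ⟨h1, h2, h3⟩ := MD_q hT hF h hq
  have hR := rayD (hD.ray r hr)
  have e1 : (cxM T ps O F ps.q).ray r.ρ r.n = fM ps O r.ρ.e := by
    rw [ray_zA hD hr (hR.nN.trans (Nat.le_succ _)), fM_eq hD hr]
  unfold Ctx.arr
  rw [e1]
  show (⟨_, _, _, _⟩ : Ctx) = ⟨_, _, _, _⟩
  congr 1
  · funext s
    show (if s = sqA O ps.q then none else FM T F O ps.q s) = FM T F O 0 s
    unfold FM
    split_ifs with h4 h5 h6 h7 h8
    · exact absurd rfl h5.1
    · rw [h4, h1]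
    · exact absurd h6.2 h4
    · exact absurd h6.2 h4
    · exact absurd rfl h8.1
    · rfl
  · funext i
    show (if i = r.ρ.e then fM ps O r.ρ.e else fM ps O i) = fM ps O i
    split_ifs with h4
    · rw [h4]
    · rfl

/-- the board after the arrival of the resident: `q` is its station -/
theorem brd_arrM {T : MT} {O : Sq} {F : Board} {R : Room} (hT : mtOk T = true)
    (hF : MBase T O F R) {ps : PS} (h : psOkE T ps = true) (hq : ps.q ≠ 0) {p k : Nat}
    (hp : WF (cxM T ps O F ps.q) p k) {r : RI} (hr : r ∈ ps.rs) (h7 : cell p r.ρ.e = 7)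
    (hk : r.ρ.k = T.k)
    (hout : ¬ (InB (cxM T ps O F ps.q).o (sqA O ps.q) ∧
      cell p (idx (cxM T ps O F ps.q).o (sqA O ps.q)) ≠ 15)) :
    (cxM T ps O F 0).brd (arr' p r.ρ.e) =
      ((cxM T ps O F ps.q).brd p).move (sqA O ps.q) (sqA O (zA ps.X ps.Y r.ρ r.n)) := by
  have hD := psD h
  obtain ⟨h1, h2, h3⟩ := MD_q hT hF h hq
  have hR := rayD (hD.ray r hr)
  have hC : (cxM T ps O F ps.q).Ok := cxM_ok hT hF h (Or.inl rfl)
  have hρ : r.ρ ∈ (cxM T ps O F ps.q).R := mem_raysOf.2 ⟨r, hr, rfl⟩
  have hray : (cxM T ps O F ps.q).ray r.ρ r.n = sqA O (zA ps.X ps.Y r.ρ r.n) :=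
    ray_zA hD hr (hR.nN.trans (Nat.le_succ _))
  have hFa : (cxM T ps O F ps.q).F (sqA O ps.q) = dec T.k := h2
  have hArr := MD_arr hT hF h hq hr
  have key := brd_arr hC hp hρ h7 (a := sqA O ps.q) hout (by
      intro ρ' hρ' he
      exfalso
      obtain ⟨n', hn', e2, e3⟩ := hC.far ρ' hρ'
      have h4 := e3 n' hn' le_rfl
      rw [← e2, ← he, hFa] at h4
      exact h3 h4) (by rw [hFa, hk]) (n := r.n) hR.n1 (by
      intro he
      have h4 := ray_empty hT hF hD (Or.inl rfl) hr hR.n1 hR.nN
      rw [← he, hFa] at h4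
      exact h3 h4) (by
      rw [hArr]
      exact cxM_ok hT hF h (Or.inr rfl))
  rw [hArr, hray] at key
  rw [arr'_eq]
  exact key.2

theorem MD_arrOk {T : MT} {ps : PS} (h : arrOk T ps = true) : ps.q ≠ 0 ∧
    memb ps.e ps.P.dead = false ∧ ∃ r ∈ ps.rs, r.ρ.e = ps.e ∧ r.ρ.k = T.k ∧
      memb (zA ps.X ps.Y r.ρ r.n) T.st = true := by
  unfold arrOk at h
  obtain ⟨h1, h2⟩ := Bool.and_eq_true_iff.1 h
  obtain ⟨h3, h4⟩ := Bool.and_eq_true_iff.1 h2
  refine ⟨?_, ?_, ?_⟩
  · intro h0
    rw [h0] at h1
    exact absurd h1 (by decide)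
  · simpa using h3
  · have gen : ∀ L : List RI, (List.rec false (fun r _ ih => (Nat.beq r.ρ.e ps.e &&
        (Nat.beq r.ρ.k T.k && memb (zA ps.X ps.Y r.ρ r.n) T.st)) || ih) L : Bool) = true →
        ∃ r ∈ L, r.ρ.e = ps.e ∧ r.ρ.k = T.k ∧ memb (zA ps.X ps.Y r.ρ r.n) T.st = true := by
      intro L
      induction L with
      | nil => exact fun h5 => (Bool.false_ne_true h5).elim
      | cons r L ih =>
        intro h5
        rcases Bool.or_eq_true_iff.1 h5 with h6 | h6
        · obtain ⟨h7, h8⟩ := Bool.and_eq_true_iff.1 h6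
          obtain ⟨h9, h10⟩ := Bool.and_eq_true_iff.1 h8
          exact ⟨r, List.mem_cons_self, Nat.eq_of_beq_eq_true h7, Nat.eq_of_beq_eq_true h9, h10⟩
        · obtain ⟨r', hr', h7⟩ := ih h6
          exact ⟨r', List.mem_cons_of_mem _ hr', h7⟩
    exact gen ps.rs h4

theorem mdE_ghost {X Y e : Nat} {L : List RI} {r : RI} (hr : r ∈ L) (he : r.ρ.e ≠ e) :
    (⟨zA X Y r.ρ r.n, r.ρ.k⟩ : Mo) ∈ ghosts X Y e L := by
  induction L with
  | nil => exact absurd hr List.not_mem_nil
  | cons x L ih =>
    have h1 : ghosts X Y e (x :: L) = cond (Nat.beq x.ρ.e e) (ghosts X Y e L)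
      (⟨zA X Y x.ρ x.n, x.ρ.k⟩ :: ghosts X Y e L) := rfl
    rw [h1]
    rcases List.mem_cons.1 hr with h2 | h2
    · subst h2
      rw [mc_beq_false.2 he]
      exact List.mem_cons_self
    · cases Nat.beq x.ρ.e e with
      | true => exact ih h2
      | false => exact List.mem_cons_of_mem _ (ih h2)

/-- no slider comes to a seen mark from a direction in which the patch ends -/
theorem edge_not {T : MT} {O : Sq} {F : Board} {R : Room} (hT : mtOk T = true)
    (hF : MBase T O F R) {ps : PS} (h : psOkE T ps = true) {q : Nat} (hq : q = ps.q ∨ q = 0)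
    {p k : Nat} (hp : WF (cxM T ps O F q) p k) {r : RI} (hr : r ∈ ps.rs) (h7 : cell p r.ρ.e = 7)
    (a : Sq) : ¬ Edge' (cxM T ps O F q) p r.ρ a := by
  rintro ⟨u, hu, hne, hin, l, hl, ha, hcl, κ, hB, hκ⟩
  have hD := psD h
  have dr := rayD (hD.ray r hr)
  have hsc := dr.edge u hu hne hin
  have e0 : sqA O (zA ps.X ps.Y r.ρ 0) = sq (cxM T ps O F q).o r.ρ.e := by
    rw [← ray_zA (q := q) (F := F) hD hr (Nat.zero_le _)]
    unfold Ctx.ray
    rw [zero_smul, add_zero]
  have hmv : ∀ m, m ∈ ghosts ps.X ps.Y r.ρ.e ps.rs → m ∈ movers T ps r.ρ.e := by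
    intro m hm
    unfold movers
    cases Nat.beq ps.q 0 with
    | true => exact hm
    | false => exact List.mem_cons_of_mem _ hm
  rw [ha] at hB
  refine scanA_board hT hF hD.hX hD.hY.1 hD.nodup ?_ ?_ ?_ hu hsc hκ hl ?_ ?_ ?_ hp.margin
    (q := q) (p := p) (l := l) (κ := κ)
  · intro r' hr'
    rcases (rayD (hD.ray r' hr')).kind with ⟨-, h1 | h1⟩ | ⟨-, h1 | h1⟩ <;> omega
  · intro hq0
    left
    rcases hq with hq | hq
    · unfold movers
      rw [mc_beq_false.2 (by rw [← hq]; exact hq0), hq]
      exact List.mem_cons_self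
    · exact absurd hq hq0
  · intro r' hr' h8
    apply hmv
    apply mdE_ghost hr'
    intro he
    rw [he] at h8
    omega
  · rw [e0]
    exact hB
  · intro i hi hil
    rw [e0]
    exact hcl i hi hil
  · rw [e0]
    rintro ⟨g1, g2⟩
    apply g2
    apply hp.margin _ (sq_idx g1).2
    exact LB_out hu dr.inn hin l hl g1

/-- chunk MD: **the family of contexts of a patch setting** -/
theorem psFamily {T : MT} {O : Sq} {F : Board} {R : Room} (hT : mtOk T = true)
    (hF : MBase T O F R) {ps : PS} (h' : psOk T ps = true) :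
    Family R ps.P (raysOf ps.rs) (KM T ps O F) := by
  have h := psOk_E h'
  have hfu := psOk_ray h'
  have hD := psD h
  have hcase : ∀ n C, KM T ps O F n C → ∃ q, (q = ps.q ∨ q = 0) ∧ C = cxM T ps O F q := by
    intro n C hK
    rcases hK with ⟨-, hC⟩ | ⟨-, -, hC⟩
    · exact ⟨ps.q, Or.inl rfl, hC⟩
    · exact ⟨0, Or.inr rfl, hC⟩
  refine ⟨?_, ?_, ?_, ?_, ?_, ?_⟩
  · intro n C hK
    obtain ⟨q, hq, rfl⟩ := hcase n C hK
    exact cxM_ok hT hF h hq
  · intro n C hK
    obtain ⟨q, hq, rfl⟩ := hcase n C hK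
    rfl
  · intro n C hK
    obtain ⟨q, hq, rfl⟩ := hcase n C hK
    exact cxM_sep hT hF h hq
  · intro n C p k a b ρ hρ hK hp hG hs hl hout hh
    obtain ⟨r, hr, rfl⟩ := mem_raysOf.1 hρ
    rcases hK with ⟨hn, rfl⟩ | ⟨hn1, hn0, rfl⟩
    · obtain ⟨e1, e2, e3, e4, e5⟩ := event_only hT hF h (Or.inl rfl) hp hr (hfu r hr) hs hl hout hh
      have hA := MD_arrOk ((hD.n.resolve_left (by omega)).2)
      obtain ⟨a1, a2, r', hr', a3, a4, a5⟩ := hA
      have hrr : r' = r := by
        by_contra hne
        exact (hD.pair r' hr' r hr hne).1 (a3.trans e3.symm)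
      subst hrr
      refine ⟨by rw [e3]; exact a2, fun _ => by omega, fun n' hn' => ?_⟩
      have h7 : cell p r'.ρ.e = 7 := by
        unfold see7 at hs
        exact Nat.eq_of_beq_eq_true (Bool.and_eq_true_iff.1 hs).1
      subst e4
      subst e5
      have hb := brd_arrM hT hF h e1 hp hr h7 a4 hout
      refine ⟨cxM T ps O F 0, Or.inr ⟨e2, by omega, rfl⟩, hb, ?_⟩
      rw [← hb]
      exact cxM_G hT hF h (Or.inr rfl) _
    · obtain ⟨e1, -⟩ := event_only hT hF h (Or.inr ⟨hn1, rfl⟩) hp hr (hfu r hr) hs hl hout hh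
      exact absurd rfl e1
  · intro n C p k ρ hρ hK hp hG hs a hl
    obtain ⟨r, hr, rfl⟩ := mem_raysOf.1 hρ
    obtain ⟨q, hq, rfl⟩ := hcase n C hK
    have h7 : cell p r.ρ.e = 7 := by
      unfold see7 at hs
      exact Nat.eq_of_beq_eq_true (Bool.and_eq_true_iff.1 hs).1
    exact edge_not hT hF h hq hp hr h7 a
  · intro hlv
    rw [hD.lv] at hlv
    exact absurd hlv (by decide)

theorem psNo_spec {ps : PS} (h : psNo ps = true) : ps.n = 0 ∧ ps.P.fin = false ∧ ps.P.dead = [] := by
  unfold psNo at h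
  rw [Bool.and_eq_true, Bool.and_eq_true, TS1_beq, Bool.not_eq_true'] at h
  obtain ⟨h1, h2, h3⟩ := h
  refine ⟨h1, h2, ?_⟩
  cases hd : ps.P.dead with
  | nil => rfl
  | cons x L =>
    rw [hd] at h3
    exact absurd h3 Bool.false_ne_true

/-- **the family of contexts of a weak patch setting without events** -/
theorem psFamilyE {T : MT} {O : Sq} {F : Board} {R : Room} (hT : mtOk T = true)
    (hF : MBase T O F R) {ps : PS} (h : psOkE T ps = true) (hn : psNo ps = true) :
    Family R ps.P (raysOf ps.rs) (KM T ps O F) := by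
  have hD := psD h
  obtain ⟨n0, hfin, hdead⟩ := psNo_spec hn
  have hcase : ∀ n C, KM T ps O F n C → n = 0 ∧ C = cxM T ps O F ps.q := by
    intro n C hK
    rcases hK with ⟨h1, hC⟩ | ⟨h1, -, -⟩
    · exact ⟨h1.trans n0, hC⟩
    · omega
  refine ⟨?_, ?_, ?_, ?_, ?_, ?_⟩
  · intro n C hK
    obtain ⟨-, rfl⟩ := hcase n C hK
    exact cxM_ok hT hF h (Or.inl rfl)
  · intro n C hK
    obtain ⟨-, rfl⟩ := hcase n C hK
    rfl
  · intro n C hK
    obtain ⟨-, rfl⟩ := hcase n C hK
    exact cxM_sep hT hF h (Or.inl rfl)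
  · intro n C p k a b ρ hρ hK hp hG hs hl hout hh
    obtain ⟨rfl, -⟩ := hcase n C hK
    refine ⟨by rw [hdead]; rfl, fun h1 => absurd (hfin.symm.trans h1) Bool.false_ne_true,
      fun n' hn' => by omega⟩
  · intro n C p k ρ hρ hK hp hG hs a hl
    obtain ⟨r, hr, rfl⟩ := mem_raysOf.1 hρ
    obtain ⟨-, rfl⟩ := hcase n C hK
    have h7 : cell p r.ρ.e = 7 := by
      unfold see7 at hs
      exact Nat.eq_of_beq_eq_true (Bool.and_eq_true_iff.1 hs).1
    exact edge_not hT hF h (Or.inl rfl) hp hr h7 a
  · intro hlv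
    rw [hD.lv] at hlv
    exact absurd hlv (by decide)

end Pool.Agent.Lib.H32C.Loc
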