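import Pool.Agent.Lib.H32C.Sim

/-!
# Micro programs

A micro program acts on a far configuration by calling services; it is the interface between the geometry
(tiles) and the combinatorics of far pieces.
-/

set_option autoImplicit false

namespace Pool.Agent.Lib.H32C

/-- instructions of micro programs: `σ` is the set of services, `Λ` the set of labels -/
inductive MInstr (σ Λ : Type)
  | call (s : σ) (j : Λ)
  | choice (j₁ j₂ : Λ)
  | halt

/-- The abstract behaviour of services on far configurations: `up s F F'`: Black may be able to change
`F` into `F'` by calling `s`; `low s F F'`: Black can force this. -/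
structure Services (σ Φ : Type) where
  /-- upper bound for the possibilities of Black -/
  up : σ → Φ → Φ → Prop
  /-- lower bound for the possibilities of Black -/
  low : σ → Φ → Φ → Prop
  /-- admissible far configurations -/
  inv : Φ → Prop

/-- A realisation of a micro program by chess positions. -/
structure Realises {σ Φ Λ : Type} (V : Services σ Φ) (M : Λ → MInstr σ Λ)
    (pos : Λ → Φ → Pos) : Prop where
  finite : ∀ l F, V.inv F → FinitePos (pos l F)
  call_up : ∀ l F s j, V.inv F → M l = MInstr.call s j →
    (∀ F', V.up s F F' → HasValue (pos j F')) → HasValue (pos l F)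
  call_low : ∀ l F s j F' β, V.inv F → M l = MInstr.call s j → V.low s F F' →
    GE (pos j F') β → ¬ ValLE (pos l F) β
  choice_up : ∀ l F j₁ j₂, V.inv F → M l = MInstr.choice j₁ j₂ → HasValue (pos j₁ F) →
    HasValue (pos j₂ F) → HasValue (pos l F)
  choice_low₁ : ∀ l F j₁ j₂ β, V.inv F → M l = MInstr.choice j₁ j₂ → GE (pos j₁ F) β →
    ¬ ValLE (pos l F) β
  choice_low₂ : ∀ l F j₁ j₂ β, V.inv F → M l = MInstr.choice j₁ j₂ → GE (pos j₂ F) β →
    ¬ ValLE (pos l F) β
  halt : ∀ l F, V.inv F → M l = MInstr.halt → HasValue (pos l F)

/-- **The combinatorial part (far configurations).**  Every machine `P` has a micro program `M` with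
finitely many labels and a representation of its configurations, such that every realisation of `M`
gives a simulation of `P`. -/
def Compiles {σ Φ : Type} (V : Services σ Φ) : Prop :=
  ∀ (Q : Type) (_ : Finite Q) (P : Q → Instr Q), ∃ (n : ℕ) (M : Fin n → MInstr σ (Fin n))
    (rep : Q × Store → Fin n × Φ), (∀ c, V.inv (rep c).2) ∧
    ∀ pos : Fin n → Φ → Pos, Realises V M pos →
      Simulation P (fun c p => p = pos (rep c).1 (rep c).2)

/-- **Summary:** geometry and combinatorics together give the omega one of chess. -/
theorem omegaOne_of_micro {σ Φ : Type} (V : Services σ Φ) (hc : Compiles V)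
    (hg : ∀ (n : ℕ) (M : Fin n → MInstr σ (Fin n)), ∃ pos, Realises V M pos) :
    omegaOneChess = omegaOneCK := by
  refine omegaOne_of_simulation fun Q hQ P => ?_
  obtain ⟨n, M, rep, -, h⟩ := hc Q hQ P
  obtain ⟨pos, hp⟩ := hg n M
  exact ⟨_, h pos hp, fun q N => ⟨_, rfl⟩⟩

end Pool.Agent.Lib.H32C
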