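import Pool.Agent.Lib.H32C.Regs

/-!
# Primitive recursive functions are computed by register programs
-/

set_option autoImplicit false
set_option linter.unusedSimpArgs false
set_option linter.unusedVariables false

namespace Pool.Agent.Lib.H32C

open Function

/-- `f` is computed by programs: arguments in the registers `a i`, result in the register `o`,
scratch registers `≥ b`. -/
def Comp {n : ℕ} (f : List.Vector ℕ n → ℕ) : Prop :=
  ∀ (a : Fin n → ℕ) (o b : ℕ), (∀ i, a i < b) → o < b → (∀ i, a i ≠ o) →
    ∃ g : (ℕ → ℕ) → (ℕ → ℕ), Impl g ∧ (∀ w j, j < b → j ≠ o → g w j = w j) ∧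
      (∀ v : ℕ → ℕ, (∀ j, b ≤ j → v j = 0) → v o = 0 →
        g v = update v o (f (List.Vector.ofFn fun i => v (a i))))

theorem comp_zero : Comp (fun _ : List.Vector ℕ 0 => 0) := by
  intro a o b _ _ _
  refine ⟨id, Impl.id, fun w j _ _ => rfl, fun v _ ho => ?_⟩
  funext x
  by_cases hx : x = o
  · subst hx; simp [ho]
  · simp [hx]

theorem comp_succ : Comp (fun v : List.Vector ℕ 1 => Nat.succ v.head) := by
  intro a o b ha hob hao
  have h1 := hao 0
  have h2 : a 0 ≠ b := (ha 0).ne
  have h3 : o ≠ b := hob.ne
  refine ⟨fun v => incR o (copyR (a 0) o b v), Impl.comp (Impl.inc o) (Impl.copy _ _ _ h1 h2 h3),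
    fun w j hj hjo => ?_, fun v hv ho => ?_⟩
  · unfold incR copyR
    beta_reduce
    rw [update_of_ne hjo, update_of_ne hjo, update_of_ne (by omega)]
  · unfold incR copyR
    beta_reduce
    have hb : v b = 0 := hv b le_rfl
    funext x
    by_cases hx : x = o
    · subst hx; simp [ho, List.Vector.ofFn]
    · rw [update_of_ne hx, update_of_ne hx, update_of_ne hx]
      by_cases hxb : x = b
      · subst hxb; rw [update_self, hb]
      · rw [update_of_ne hxb]

theorem comp_get {n : ℕ} (i : Fin n) : Comp (fun v : List.Vector ℕ n => v.get i) := by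
  intro a o b ha hob hao
  have h1 := hao i
  have h2 : a i ≠ b := (ha i).ne
  have h3 : o ≠ b := hob.ne
  refine ⟨copyR (a i) o b, Impl.copy _ _ _ h1 h2 h3, fun w j hj hjo => ?_, fun v hv ho => ?_⟩
  · unfold copyR
    rw [update_of_ne hjo, update_of_ne (by omega)]
  · unfold copyR
    have hb : v b = 0 := hv b le_rfl
    funext x
    by_cases hx : x = o
    · subst hx; simp [ho]
    · rw [update_of_ne hx, update_of_ne hx]
      by_cases hxb : x = b
      · subst hxb; rw [update_self, hb]
      · rw [update_of_ne hxb]

/-- clear the registers `b, …, b + m - 1` -/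
def clearsR (b m : ℕ) (v : ℕ → ℕ) (j : ℕ) : ℕ := if b ≤ j ∧ j < b + m then 0 else v j

theorem impl_clears (b m : ℕ) : Impl (clearsR b m) := by
  induction m with
  | zero =>
    refine Impl.id.congr fun v => ?_
    funext j
    unfold clearsR
    rw [if_neg (by omega)]
    rfl
  | succ m ih =>
    refine (Impl.comp (Impl.clear (b + m)) ih).congr fun v => ?_
    funext j
    unfold clearR clearsR
    by_cases hj : j = b + m
    · subst hj
      rw [update_self, if_pos (by omega)]
    · rw [update_of_ne hj]
      by_cases h : b ≤ j ∧ j < b + m
      · rw [if_pos h, if_pos (by omega)]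
      · rw [if_neg h, if_neg (by omega)]

theorem comp_comp {m n : ℕ} {f : List.Vector ℕ m → ℕ} (hf : Comp f)
    (g : Fin m → List.Vector ℕ n → ℕ) (hg : ∀ i, Comp (g i)) :
    Comp (fun v => f (List.Vector.ofFn fun i => g i v)) := by
  intro a o b ha hob hao
  -- computation of the first `k` arguments
  have step : ∀ k, k ≤ m → ∃ G : (ℕ → ℕ) → (ℕ → ℕ), Impl G ∧ (∀ w j, j < b → G w j = w j) ∧
      (∀ v : ℕ → ℕ, (∀ j, b ≤ j → v j = 0) → ∀ j, G v j =
        if h : b ≤ j ∧ j < b + k ∧ j - b < m then
          g ⟨j - b, h.2.2⟩ (List.Vector.ofFn fun i => v (a i)) else v j) := by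
    intro k
    induction k with
    | zero =>
      intro _
      refine ⟨id, Impl.id, fun w j _ => rfl, fun v _ j => ?_⟩
      rw [dif_neg (by omega)]
      rfl
    | succ k ih =>
      intro hk
      obtain ⟨G, hG1, hG2, hG3⟩ := ih (by omega)
      obtain ⟨G', hG1', hG2', hG3'⟩ := hg ⟨k, by omega⟩ a (b + k) (b + m)
        (fun i => (ha i).trans_le (by omega)) (by omega) (fun i => by have := ha i; omega)
      refine ⟨fun v => G' (G v), Impl.comp hG1' hG1, fun w j hj => ?_, fun v hv j => ?_⟩
      · beta_reduce
        rw [hG2' _ _ (by omega) (by omega), hG2 _ _ hj]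
      · have h1 : ∀ j, b + m ≤ j → G v j = 0 := by
          intro j hj
          rw [hG3 v hv, dif_neg (by omega)]
          exact hv j (by omega)
        have h2 : G v (b + k) = 0 := by
          rw [hG3 v hv, dif_neg (by omega)]
          exact hv _ (by omega)
        have h3 : ∀ i, G v (a i) = v (a i) := fun i => hG2 v _ (ha i)
        simp only [hG3' (G v) h1 h2, h3]
        by_cases hj : j = b + k
        · subst hj
          rw [update_self, dif_pos ⟨by omega, by omega, by omega⟩]
          have e : (⟨b + k - b, by omega⟩ : Fin m) = ⟨k, by omega⟩ := Fin.ext (by simp)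
          rw [e]
        · rw [update_of_ne hj, hG3 v hv]
          by_cases h : b ≤ j ∧ j < b + k ∧ j - b < m
          · rw [dif_pos h, dif_pos ⟨h.1, by omega, h.2.2⟩]
          · rw [dif_neg h, dif_neg (by omega)]
  obtain ⟨G, hG1, hG2, hG3⟩ := step m le_rfl
  obtain ⟨F, hF1, hF2, hF3⟩ := hf (fun i => b + i) o (b + m) (fun i => by have := i.2; omega)
    (by omega) (fun i => by omega)
  refine ⟨fun v => clearsR b m (F (G v)),
    Impl.comp (impl_clears b m) (Impl.comp hF1 hG1), fun w j hj hjo => ?_, fun v hv ho => ?_⟩
  · unfold clearsR
    beta_reduce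
    rw [if_neg (by omega), hF2 _ _ (by omega) hjo, hG2 _ _ hj]
  · have h1 : ∀ j, b + m ≤ j → G v j = 0 := by
      intro j hj
      rw [hG3 v hv, dif_neg (by omega)]
      exact hv j (by omega)
    have h2 : G v o = 0 := by rw [hG2 v o hob, ho]
    have h3 : ∀ i : Fin m, G v (b + i) = g i (List.Vector.ofFn fun i => v (a i)) := by
      intro i
      rw [hG3 v hv, dif_pos ⟨by omega, by have := i.2; omega, by have := i.2; omega⟩]
      have e : (⟨b + i - b, by have := i.2; omega⟩ : Fin m) = i := Fin.ext (by simp)
      rw [e]
    simp only [hF3 (G v) h1 h2, h3]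
    funext j
    unfold clearsR
    by_cases hjo : j = o
    · subst hjo
      rw [if_neg (by omega), update_self, update_self]
    · rw [update_of_ne hjo, update_of_ne hjo]
      by_cases hj : b ≤ j ∧ j < b + m
      · rw [if_pos hj, hv j hj.1]
      · rw [if_neg hj, hG3 v hv, dif_neg (by omega)]

theorem comp_prec {n : ℕ} {f : List.Vector ℕ n → ℕ} {g : List.Vector ℕ (n + 2) → ℕ}
    (hf : Comp f) (hg : Comp g) :
    Comp (fun v : List.Vector ℕ (n + 1) =>
      v.head.rec (f v.tail) fun y IH => g (y ::ᵥ IH ::ᵥ v.tail)) := by
  intro a o b ha hob hao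
  -- the arguments of `g`
  let a' : Fin (n + 2) → ℕ := Fin.cons (b + 1) (Fin.cons (b + 2) (fun i => a i.succ))
  have ha' : ∀ i, a' i < b + 4 := by
    intro i
    refine Fin.cases ?_ (fun i => ?_) i
    · show b + 1 < b + 4; omega
    · refine Fin.cases ?_ (fun i => ?_) i
      · show b + 2 < b + 4; omega
      · show a i.succ < b + 4; have := ha i.succ; omega
  have hao' : ∀ i, a' i ≠ b + 3 := by
    intro i
    refine Fin.cases ?_ (fun i => ?_) i
    · show b + 1 ≠ b + 3; omega
    · refine Fin.cases ?_ (fun i => ?_) i
      · show b + 2 ≠ b + 3; omega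
      · show a i.succ ≠ b + 3; have := ha i.succ; omega
  obtain ⟨F, hF1, hF2, hF3⟩ := hf (fun i => a i.succ) (b + 2) (b + 4)
    (fun i => by have := ha i.succ; omega) (by omega) (fun i => by have := ha i.succ; omega)
  obtain ⟨H, hH1, hH2, hH3⟩ := hg a' (b + 3) (b + 4) ha' (by omega) hao'
  -- the body of the loop
  let body : (ℕ → ℕ) → (ℕ → ℕ) := fun w => incR (b + 1) (moveR (b + 3) (b + 2)
    (clearR (b + 2) (H w)))
  have hbody : Impl body := Impl.comp (Impl.inc _) (Impl.comp (Impl.move _ _ (by omega))
    (Impl.comp (Impl.clear _) hH1))
  have hbodyb : ∀ w, body w b = w b := by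
    intro w
    simp only [body, incR, moveR, clearR]
    rw [update_of_ne (by omega), update_of_ne (by omega), update_of_ne (by omega),
      update_of_ne (by omega), hH2 _ _ (by omega) (by omega)]
  have hbodylow : ∀ w j, j < b → body w j = w j := by
    intro w j hj
    simp only [body, incR, moveR, clearR]
    rw [update_of_ne (by omega), update_of_ne (by omega), update_of_ne (by omega),
      update_of_ne (by omega), hH2 _ _ (by omega) (by omega)]
  -- the whole program
  refine ⟨fun v => clearR (b + 1) (moveR (b + 2) o (loopR b body (F (copyR (a 0) b (b + 4) v)))),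
    Impl.comp (Impl.clear _) (Impl.comp (Impl.move _ _ (by omega)) (Impl.comp
      (Impl.loop hbody b hbodyb) (Impl.comp hF1 (Impl.copy _ _ _ (ha 0).ne
        (by have := ha 0; omega) (by omega))))), fun w j hj hjo => ?_, fun v hv ho => ?_⟩
  · have hlow : ∀ n w, (fun w => body (decR b w))^[n] w j = w j := by
      intro n
      induction n with
      | zero => intro w; rfl
      | succ n ih =>
        intro w
        rw [iterate_succ_apply, ih, hbodylow _ _ hj]
        unfold decR
        rw [update_of_ne (by omega)]
    simp only [clearR, moveR, loopR]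
    rw [update_of_ne (by omega), update_of_ne hjo, update_of_ne (by omega), hlow,
      hF2 _ _ (by omega) (by omega)]
    unfold copyR
    rw [update_of_ne (by omega), update_of_ne (by omega)]
  · -- the state after the preparation
    set N := v (a 0) with hN
    set T : List.Vector ℕ n := List.Vector.ofFn fun i => v (a i.succ) with hT
    let r : ℕ → ℕ := fun y => Nat.rec (f T) (fun y IH => g (y ::ᵥ IH ::ᵥ T)) y
    have hcopy : copyR (a 0) b (b + 4) v = update v b N := by
      unfold copyR
      rw [hv b le_rfl, Nat.zero_add]
      have : update v (b + 4) 0 = v := by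
        rw [← hv (b + 4) (by omega), update_eq_self]
      rw [this]
    have hFv : F (update v b N) = update (update v b N) (b + 2) (f T) := by
      have := hF3 (update v b N) (fun j hj => by
        rw [update_of_ne (by omega)]; exact hv j (by omega))
        (by rw [update_of_ne (by omega)]; exact hv _ (by omega))
      rw [this]
      congr 3
      funext i
      rw [update_of_ne (by have := ha i.succ; omega)]
    -- the loop
    let st : ℕ → ℕ → (ℕ → ℕ) := fun c y j => if j = b then c else if j = b + 1 then y else
      if j = b + 2 then r y else v j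
    have hst0 : update (update v b N) (b + 2) (f T) = st N 0 := by
      funext j
      by_cases h0 : j = b
      · subst h0; simp [st]
      · by_cases h1 : j = b + 1
        · subst h1; simp [st, hv (b + 1) (by omega)]
        · by_cases h2 : j = b + 2
          · subst h2; simp [st, r]
          · simp [st, h0, h1, h2]
    have hstep : ∀ c y, body (decR b (st (c + 1) y)) = st c (y + 1) := by
      intro c y
      have e1 : decR b (st (c + 1) y) = st c y := by
        funext j
        unfold decR
        by_cases h0 : j = b
        · subst h0; simp [st]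
        · rw [update_of_ne h0]; simp [st, h0]
      rw [e1]
      have e2 : H (st c y) = update (st c y) (b + 3) (g (y ::ᵥ r y ::ᵥ T)) := by
        have := hH3 (st c y) (fun j hj => by
          simp only [st]
          rw [if_neg (by omega), if_neg (by omega), if_neg (by omega)]
          exact hv j (by omega)) (by
          simp only [st]
          rw [if_neg (by omega), if_neg (by omega), if_neg (by omega)]
          exact hv _ (by omega))
        rw [this]
        congr 2
        apply List.Vector.ext
        intro i
        rw [List.Vector.get_ofFn]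
        refine Fin.cases ?_ (fun i => ?_) i
        · rw [List.Vector.get_cons_zero]
          show st c y (b + 1) = y
          simp [st]
        · rw [List.Vector.get_cons_succ]
          refine Fin.cases ?_ (fun i => ?_) i
          · rw [List.Vector.get_cons_zero]
            show st c y (b + 2) = r y
            simp [st]
          · rw [List.Vector.get_cons_succ, hT, List.Vector.get_ofFn]
            show st c y (a i.succ) = v (a i.succ)
            simp only [st]
            have := ha i.succ
            rw [if_neg (by omega), if_neg (by omega), if_neg (by omega)]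
      simp only [body, e2]
      have hv3 : v (b + 3) = 0 := hv _ (by omega)
      funext j
      by_cases h0 : j = b
      · subst h0; simp [st, incR, moveR, clearR, update_apply]
      · by_cases h1 : j = b + 1
        · subst h1; simp [st, incR, moveR, clearR, update_apply]
        · by_cases h2 : j = b + 2
          · subst h2; simp [st, incR, moveR, clearR, update_apply, r]
          · by_cases h3 : j = b + 3
            · subst h3; simp [st, incR, moveR, clearR, update_apply, hv3]
            · simp [st, incR, moveR, clearR, update_apply, h0, h1, h2, h3]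
    have hloop : ∀ c y, (fun w => body (decR b w))^[c] (st c y) = st 0 (y + c) := by
      intro c
      induction c with
      | zero => intro y; rfl
      | succ c ih =>
        intro y
        rw [iterate_succ_apply, hstep, ih]
        congr 1
        omega
    have hN' : st N 0 b = N := by simp [st]
    simp only
    rw [hcopy, hFv, hst0]
    unfold loopR
    rw [hN', hloop N 0, Nat.zero_add]
    have hres : (List.Vector.ofFn fun i => v (a i)).head.rec
        (f (List.Vector.ofFn fun i => v (a i)).tail)
        (fun y IH => g (y ::ᵥ IH ::ᵥ (List.Vector.ofFn fun i => v (a i)).tail)) = r N := by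
      simp only [List.Vector.ofFn, List.Vector.head_cons, List.Vector.tail_cons, r, hN, hT]
    rw [hres]
    funext j
    have hvb : v b = 0 := hv b le_rfl
    have hvb1 : v (b + 1) = 0 := hv _ (by omega)
    have hvb2 : v (b + 2) = 0 := hv _ (by omega)
    have ob : o ≠ b := by omega
    have ob1 : o ≠ b + 1 := by omega
    have ob2 : o ≠ b + 2 := by omega
    by_cases hjo : j = o
    · subst hjo
      simp [st, moveR, clearR, update_apply, ob, ob1, ob2, ho]
    · by_cases h0 : j = b
      · subst h0; simp [st, moveR, clearR, update_apply, hjo, hvb]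
      · by_cases h1 : j = b + 1
        · subst h1; simp [st, moveR, clearR, update_apply, hjo, hvb1]
        · by_cases h2 : j = b + 2
          · subst h2; simp [st, moveR, clearR, update_apply, hjo, hvb2]
          · simp [st, moveR, clearR, update_apply, hjo, h0, h1, h2]

theorem comp_of_primrec' {n : ℕ} {f : List.Vector ℕ n → ℕ} (hf : Nat.Primrec' f) : Comp f := by
  induction hf with
  | zero => exact comp_zero
  | succ => exact comp_succ
  | get i => exact comp_get i
  | comp g _ _ ihf ihg => exact comp_comp ihf g ihg
  | prec _ _ ihf ihg => exact comp_prec ihf ihg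

end Pool.Agent.Lib.H32C
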