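import Pool.Agent.Lib.H32C.Mach

/-!
# Registers on three counters; primitive recursive functions
-/

set_option autoImplicit false
set_option linter.unusedSimpArgs false
set_option linter.unusedVariables false

namespace Pool.Agent.Lib.H32C

open Function

/-- the prime number `i` -/
noncomputable def pr (i : ℕ) : ℕ := Nat.nth Nat.Prime i

theorem pr_prime (i : ℕ) : (pr i).Prime := Nat.prime_nth_prime i

theorem pr_injective : Function.Injective pr :=
  (Nat.nth_strictMono Nat.infinite_setOfPred_prime).injective

/-- the code of a valuation of the registers `< K` -/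
noncomputable def G (K : ℕ) (v : ℕ → ℕ) : ℕ := ∏ i ∈ Finset.range K, pr i ^ v i

theorem G_inc (K i : ℕ) (hi : i < K) (v : ℕ → ℕ) :
    G K (update v i (v i + 1)) = G K v * pr i := by
  unfold G
  rw [← Finset.mul_prod_erase (Finset.range K) _ (Finset.mem_range.2 hi),
    ← Finset.mul_prod_erase (Finset.range K) _ (Finset.mem_range.2 hi)]
  have : ∏ x ∈ (Finset.range K).erase i, pr x ^ update v i (v i + 1) x =
      ∏ x ∈ (Finset.range K).erase i, pr x ^ v x := by
    refine Finset.prod_congr rfl fun x hx => ?_
    rw [update_of_ne (Finset.ne_of_mem_erase hx)]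
  rw [this, update_self, pow_succ]
  ring

theorem G_dvd (K i : ℕ) (hi : i < K) (v : ℕ → ℕ) : pr i ∣ G K v ↔ v i ≠ 0 := by
  unfold G
  constructor
  · intro h h0
    rw [Prime.dvd_finsetProd_iff (pr_prime i).prime] at h
    obtain ⟨j, -, hj⟩ := h
    have h1 := (pr_prime i).dvd_of_dvd_pow hj
    have h2 := (Nat.prime_dvd_prime_iff_eq (pr_prime i) (pr_prime j)).1 h1
    have h3 := pr_injective h2
    subst h3
    rw [h0, pow_zero] at hj
    exact (pr_prime i).one_lt.ne' (Nat.dvd_one.1 hj)
  · intro h
    refine dvd_trans (dvd_pow_self _ h) ?_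
    exact Finset.dvd_prod_of_mem (fun j => pr j ^ v j) (Finset.mem_range.2 hi)

theorem G_dec (K i : ℕ) (hi : i < K) (v : ℕ → ℕ) (hv : v i ≠ 0) :
    G K v = G K (update v i (v i - 1)) * pr i := by
  have := G_inc K i hi (update v i (v i - 1))
  rw [update_self, update_idem] at this
  have e : v i - 1 + 1 = v i := by omega
  rw [e, update_eq_self] at this
  exact this

/-- implementable transformations of the registers -/
def Impl (f : (ℕ → ℕ) → (ℕ → ℕ)) : Prop :=
  ∃ K0, ∀ K, K0 ≤ K → ∃ F : Frag Unit, ∀ v a, F.Run (a, G K v, 0) () (a, G K (f v), 0)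

theorem Impl.id : Impl id := ⟨0, fun K _ => ⟨retF (), fun v a => retF_run () _⟩⟩

theorem Impl.comp {f g : (ℕ → ℕ) → (ℕ → ℕ)} (hg : Impl g) (hf : Impl f) :
    Impl (fun v => g (f v)) := by
  obtain ⟨K1, h1⟩ := hf
  obtain ⟨K2, h2⟩ := hg
  refine ⟨max K1 K2, fun K hK => ?_⟩
  obtain ⟨F1, hF1⟩ := h1 K ((le_max_left _ _).trans hK)
  obtain ⟨F2, hF2⟩ := h2 K ((le_max_right _ _).trans hK)
  exact ⟨F1.bind fun _ => F2, fun v a => Frag.bind_run F1 (fun _ => F2) (hF1 v a) (hF2 (f v) a)⟩

theorem Impl.congr {f g : (ℕ → ℕ) → (ℕ → ℕ)} (hf : Impl f) (h : ∀ v, f v = g v) : Impl g := by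
  have : f = g := funext h
  exact this ▸ hf

/-- increment of a register -/
def incR (i : ℕ) (v : ℕ → ℕ) : ℕ → ℕ := update v i (v i + 1)

/-- decrement of a register -/
def decR (i : ℕ) (v : ℕ → ℕ) : ℕ → ℕ := update v i (v i - 1)

theorem Impl.inc (i : ℕ) : Impl (incR i) := by
  refine ⟨i + 1, fun K hK => ⟨mulF (pr i), fun v a => ?_⟩⟩
  have := mulF_run (pr i) a (G K v)
  rw [← G_inc K i hK v] at this
  exact this

/-- repetition: while the register `i` is not `0`, decrement it and do `f` -/
def loopR (i : ℕ) (f : (ℕ → ℕ) → (ℕ → ℕ)) (v : ℕ → ℕ) : ℕ → ℕ := (fun w => f (decR i w))^[v i] v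

theorem Impl.loop {f : (ℕ → ℕ) → (ℕ → ℕ)} (hf : Impl f) (i : ℕ) (hi : ∀ w, f w i = w i) :
    Impl (loopR i f) := by
  obtain ⟨K1, h1⟩ := hf
  refine ⟨max K1 (i + 1), fun K hK => ?_⟩
  obtain ⟨F, hF⟩ := h1 K ((le_max_left _ _).trans hK)
  have hiK : i < K := (le_max_right K1 (i + 1)).trans hK
  refine ⟨Frag.loop ((divF (pr i)).bind fun b => match b with
    | true => F.map fun _ => none
    | false => retF (some ())), fun v a => ?_⟩
  have key : ∀ n, ∀ v : ℕ → ℕ, v i = n → (Frag.loop ((divF (pr i)).bind fun b => match b with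
      | true => F.map fun _ => none
      | false => retF (some ()))).Run (a, G K v, 0) ()
        (a, G K ((fun w => f (decR i w))^[n] v), 0) := by
    intro n
    induction n with
    | zero =>
      intro v hv
      refine Frag.loop_run_exit _ ?_
      have h2 : ¬ pr i ∣ G K v := by rw [G_dvd K i hiK]; simpa using hv
      exact Frag.bind_run (divF (pr i)) _ (divF_run_false (pr i) a (G K v) (pr_prime i).pos h2)
        (retF_run _ _)
    | succ n ih =>
      intro v hv
      refine Frag.loop_run_again _ (s' := (a, G K (f (decR i v)), 0)) ?_ ?_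
      · have h2 := divF_run_true (pr i) a (G K (decR i v)) (pr_prime i).pos
        have h3 : G K (decR i v) * pr i = G K v := (G_dec K i hiK v (by omega)).symm
        rw [h3] at h2
        exact Frag.bind_run (divF (pr i)) _ h2 (Frag.map_run _ (fun _ => none) (hF (decR i v) a))
      · rw [iterate_succ_apply]
        refine ih (f (decR i v)) ?_
        rw [hi]
        unfold decR
        rw [update_self, hv]
        rfl
  exact key _ v rfl

/-- clear a register -/
def clearR (i : ℕ) (v : ℕ → ℕ) : ℕ → ℕ := update v i 0

theorem iter_decR (i n : ℕ) (v : ℕ → ℕ) : (fun w => decR i w)^[n] v = update v i (v i - n) := by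
  induction n with
  | zero => simp
  | succ n ih =>
    rw [iterate_succ_apply', ih]
    unfold decR
    rw [update_self, update_idem]
    congr 1

theorem Impl.clear (i : ℕ) : Impl (clearR i) := by
  refine (Impl.loop Impl.id i (fun w => rfl)).congr fun v => ?_
  unfold loopR clearR
  have := iter_decR i (v i) v
  rw [Nat.sub_self] at this
  exact this

/-- `o := o + i`, `i := 0` -/
def moveR (i o : ℕ) (v : ℕ → ℕ) : ℕ → ℕ := update (update v i 0) o (v o + v i)

theorem Impl.move (i o : ℕ) (h : i ≠ o) : Impl (moveR i o) := by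
  refine (Impl.loop (Impl.inc o) i (fun w => by unfold incR; rw [update_of_ne h])).congr
    fun v => ?_
  unfold loopR
  have key : ∀ n, n ≤ v i → (fun w => incR o (decR i w))^[n] v =
      update (update v i (v i - n)) o (v o + n) := by
    intro n
    induction n with
    | zero => intro _; simp
    | succ n ih =>
      intro hn
      rw [iterate_succ_apply', ih (by omega)]
      unfold incR decR
      funext x
      by_cases hx1 : x = i
      · subst hx1
        simp [update_apply, h, h.symm]
        omega
      · by_cases hx2 : x = o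
        · subst hx2
          simp [update_apply, h, h.symm]
          omega
        · simp [update_apply, hx1, hx2]
  have := key (v i) le_rfl
  rw [Nat.sub_self] at this
  exact this

/-- `o := o + i`, with the scratch register `k` (which is cleared) -/
def copyR (i o k : ℕ) (v : ℕ → ℕ) : ℕ → ℕ := update (update v k 0) o (v o + v i)

theorem Impl.copy (i o k : ℕ) (h1 : i ≠ o) (h2 : i ≠ k) (h3 : o ≠ k) : Impl (copyR i o k) := by
  have hbody : Impl (fun w => incR k (incR o w)) := Impl.comp (Impl.inc k) (Impl.inc o)
  have hl := Impl.loop hbody i (fun w => by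
    unfold incR; rw [update_of_ne h2, update_of_ne h1])
  refine (Impl.comp (Impl.move k i h2.symm) (Impl.comp hl (Impl.clear k))).congr fun v => ?_
  have key : ∀ n, ∀ u : ℕ → ℕ, n ≤ u i → (fun w => incR k (incR o (decR i w)))^[n] u =
      update (update (update u i (u i - n)) o (u o + n)) k (u k + n) := by
    intro n
    induction n with
    | zero => intro u _; simp
    | succ n ih =>
      intro u hn
      rw [iterate_succ_apply', ih u (by omega)]
      unfold incR decR
      funext x
      by_cases hx1 : x = i
      · subst hx1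
        simp [update_apply, h1, h2, h3, h1.symm, h2.symm, h3.symm]
        omega
      · by_cases hx2 : x = o
        · subst hx2
          simp [update_apply, h1, h2, h3, h1.symm, h2.symm, h3.symm]
          omega
        · by_cases hx3 : x = k
          · subst hx3
            simp [update_apply, h1, h2, h3, h1.symm, h2.symm, h3.symm]
            omega
          · simp [update_apply, hx1, hx2, hx3]
  have hk := key (clearR k v i) (clearR k v) le_rfl
  unfold loopR
  rw [hk]
  unfold moveR copyR clearR
  funext x
  by_cases hx1 : x = i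
  · subst hx1
    simp [update_apply, h1, h2, h3, h1.symm, h2.symm, h3.symm]
  · by_cases hx2 : x = o
    · subst hx2
      simp [update_apply, h1, h2, h3, h1.symm, h2.symm, h3.symm]
    · by_cases hx3 : x = k
      · subst hx3
        simp [update_apply, h1, h2, h3, h1.symm, h2.symm, h3.symm]
      · simp [update_apply, hx1, hx2, hx3]

end Pool.Agent.Lib.H32C
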