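import Pool.Agent.Lib.H32C.LocH1

/-!
# The mating room

The Black king on `(20, 20)` is enclosed by White pawns and two Black pawns; White threatens two different
smothered mates by knights.
-/

set_option autoImplicit false

namespace Pool.Agent.Lib.H32C.Loc

/-- the content of the room -/
def rp : Board := fun s =>
  if s = (20, 20) then some (false, Kind.king)
  else if s = (19, 19) ∨ s = (21, 19) then some (false, Kind.pawn)
  else if s = (23, 23) ∨ s = (17, 23) then some (true, Kind.knight)
  else if s = (21, 22) ∨ s = (19, 22) then none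
  else some (true, Kind.pawn)

/-- the region of the room -/
def rZ : Set Sq := {s | 10 ≤ s.1 ∧ s.1 ≤ 30 ∧ 10 ≤ s.2 ∧ s.2 ≤ 30}

/-- the inner part of the room -/
def rJ (s : Sq) : Prop := 13 ≤ s.1 ∧ s.1 ≤ 27 ∧ 13 ≤ s.2 ∧ s.2 ≤ 27

/-- the content of the room is as it should be -/
def rG (B : Board) : Prop := ∀ s ∈ rZ, B s = rp s

/-- all eight directions -/
def dirs8 : List Sq := orthDirs ++ diagDirs

theorem dirs8_bd : ∀ d ∈ dirs8, -1 ≤ d.1 ∧ d.1 ≤ 1 ∧ -1 ≤ d.2 ∧ d.2 ≤ 1 ∧ -d ∈ dirs8 ∧
    (d.1 ≠ 0 ∨ d.2 ≠ 0) := by decide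

theorem rm_fst (n : ℕ) (d : Sq) : (n • d).1 = n * d.1 := by rw [Prod.smul_fst, nsmul_eq_mul]

theorem rm_snd (n : ℕ) (d : Sq) : (n • d).2 = n * d.2 := by rw [Prod.smul_snd, nsmul_eq_mul]

/-- sliders attack along the eight directions -/
theorem rm_slides {B : Board} {ds : List Sq} (hds : ∀ d ∈ ds, d ∈ dirs8) {a c : Sq}
    (h : Slides B ds a c) : ∃ d ∈ dirs8, ∃ n : ℕ, 0 < n ∧ c = a + n • d ∧
      ∀ k : ℕ, 0 < k → k < n → B (a + k • d) = none := by
  obtain ⟨d, hd, n, h1, h2, h3⟩ := h
  exact ⟨d, hds d hd, n, h1, h2, h3⟩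

/-- the attack of a piece: a short step, or a slide -/
theorem rm_att {B : Board} {m : Man} {a c : Sq} (h : ManAttacks B m a c) :
    ((m.2 = Kind.king ∧ c - a ∈ dirs8) ∨ (m.2 = Kind.knight ∧ c - a ∈ knightJumps) ∨
      (m.2 = Kind.pawn ∧ (c - a = (1, fwd m.1) ∨ c - a = (-1, fwd m.1)))) ∨
    ((m.2 = Kind.queen ∨ m.2 = Kind.rook ∨ m.2 = Kind.bishop) ∧
      ∃ d ∈ dirs8, ∃ n : ℕ, 0 < n ∧ c = a + n • d ∧
        ∀ k : ℕ, 0 < k → k < n → B (a + k • d) = none) := by
  obtain ⟨col, κ⟩ := m
  cases κ with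
  | king => exact Or.inl (Or.inl ⟨rfl, h⟩)
  | knight => exact Or.inl (Or.inr (Or.inl ⟨rfl, h⟩))
  | pawn => exact Or.inl (Or.inr (Or.inr ⟨rfl, h⟩))
  | queen => exact Or.inr ⟨Or.inl rfl, rm_slides (fun d hd => hd) h⟩
  | rook => exact Or.inr ⟨Or.inr (Or.inl rfl), rm_slides (fun d hd => List.mem_append_left _ hd) h⟩
  | bishop =>
    exact Or.inr ⟨Or.inr (Or.inr rfl), rm_slides (fun d hd => List.mem_append_right _ hd) h⟩

/-- short steps are short -/
theorem rm_short {m : Man} {a c : Sq}
    (h : (m.2 = Kind.king ∧ c - a ∈ dirs8) ∨ (m.2 = Kind.knight ∧ c - a ∈ knightJumps) ∨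
      (m.2 = Kind.pawn ∧ (c - a = (1, fwd m.1) ∨ c - a = (-1, fwd m.1)))) :
    c.1 - 2 ≤ a.1 ∧ a.1 ≤ c.1 + 2 ∧ c.2 - 2 ≤ a.2 ∧ a.2 ≤ c.2 + 2 := by
  have key : ∀ v : Sq, v = c - a → (-2 ≤ v.1 ∧ v.1 ≤ 2 ∧ -2 ≤ v.2 ∧ v.2 ≤ 2) →
      c.1 - 2 ≤ a.1 ∧ a.1 ≤ c.1 + 2 ∧ c.2 - 2 ≤ a.2 ∧ a.2 ≤ c.2 + 2 := by
    rintro v rfl ⟨h1, h2, h3, h4⟩
    simp only [Prod.fst_sub, Prod.snd_sub] at h1 h2 h3 h4
    omega
  rcases h with ⟨-, h⟩ | ⟨-, h⟩ | ⟨-, h | h⟩
  · have := dirs8_bd _ h
    exact key _ rfl (by omega)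
  · have h2 : ∀ d ∈ knightJumps, -2 ≤ d.1 ∧ d.1 ≤ 2 ∧ -2 ≤ d.2 ∧ d.2 ≤ 2 := by decide
    exact key _ rfl (h2 _ h)
  · refine key _ h.symm ?_
    have : fwd m.1 = 1 ∨ fwd m.1 = -1 := by
      unfold fwd
      split_ifs <;> simp
    rcases this with h3 | h3 <;> simp only [h3] <;> omega
  · refine key _ h.symm ?_
    have : fwd m.1 = 1 ∨ fwd m.1 = -1 := by
      unfold fwd
      split_ifs <;> simp
    rcases this with h3 | h3 <;> simp only [h3] <;> omega

/-- if all lines to `c` are blocked near `c`, then attackers of `c` are near `c` -/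
theorem rm_box {B : Board} {c : Sq}
    (h : ∀ d ∈ dirs8, B (c + d) ≠ none ∨ B (c + (2 : ℕ) • d) ≠ none) {m : Man} {a : Sq}
    (ha : ManAttacks B m a c) : c.1 - 2 ≤ a.1 ∧ a.1 ≤ c.1 + 2 ∧ c.2 - 2 ≤ a.2 ∧ a.2 ≤ c.2 + 2 := by
  rcases rm_att ha with h1 | ⟨-, d, hd, n, hn, hc, hk⟩
  · exact rm_short h1
  · obtain ⟨b1, b2, b3, b4, b5, -⟩ := dirs8_bd d hd
    have hc1 := congrArg Prod.fst hc
    have hc2 := congrArg Prod.snd hc
    rw [Prod.fst_add, rm_fst] at hc1
    rw [Prod.snd_add, rm_snd] at hc2
    by_cases hn3 : n < 3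
    · have : n = 1 ∨ n = 2 := by omega
      rcases this with rfl | rfl
      · rw [Nat.cast_one] at hc1 hc2
        omega
      · rw [Nat.cast_ofNat] at hc1 hc2
        omega
    · exfalso
      have e1 : c + (-d) = a + (n - 1) • d := by
        rw [hc]
        obtain ⟨k, rfl⟩ : ∃ k, n = k + 1 := ⟨n - 1, by omega⟩
        rw [Nat.add_sub_cancel, add_smul, one_smul]
        abel
      have e2 : c + (2 : ℕ) • (-d) = a + (n - 2) • d := by
        rw [hc]
        obtain ⟨k, rfl⟩ : ∃ k, n = k + 2 := ⟨n - 2, by omega⟩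
        rw [Nat.add_sub_cancel, add_smul]
        simp only [smul_neg]
        abel
      rcases h (-d) b5 with h1 | h1
      · rw [e1] at h1
        exact h1 (hk _ (by omega) (by omega))
      · rw [e2] at h1
        exact h1 (hk _ (by omega) (by omega))

/-- the contents of the room after a Black move -/
def rQ : List Board := [rp, rp.move (19, 19) (18, 18), rp.move (19, 19) (20, 18),
  rp.move (21, 19) (20, 18), rp.move (21, 19) (22, 18)]

/-- a box of squares around `c` -/
def bx (c : Sq) : List Sq :=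
  (List.range 5).flatMap fun i : ℕ => (List.range 5).map fun j : ℕ =>
    ((c.1 - 2 + (i : ℤ), c.2 - 2 + (j : ℤ)) : Sq)

theorem mem_bx {c a : Sq} (h : c.1 - 2 ≤ a.1 ∧ a.1 ≤ c.1 + 2 ∧ c.2 - 2 ≤ a.2 ∧ a.2 ≤ c.2 + 2) :
    a ∈ bx c := by
  obtain ⟨h1, h2, h3, h4⟩ := h
  have g1 : (a.1 - c.1 + 2).toNat < 5 := by omega
  have g2 : (a.2 - c.2 + 2).toNat < 5 := by omega
  refine List.mem_flatMap.2 ⟨(a.1 - c.1 + 2).toNat, List.mem_range.2 g1, ?_⟩
  refine List.mem_map.2 ⟨(a.2 - c.2 + 2).toNat, List.mem_range.2 g2, ?_⟩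
  apply Prod.ext
  · show c.1 - 2 + ((a.1 - c.1 + 2).toNat : ℤ) = a.1
    omega
  · show c.2 - 2 + ((a.2 - c.2 + 2).toNat : ℤ) = a.2
    omega

/-- no attack on the Black king by the White pieces near it -/
def noAtt (Q : Board) (a : Sq) : Bool :=
  match Q a with
  | some (true, Kind.pawn) => decide ((20, 20) - a ≠ (1, 1) ∧ (20, 20) - a ≠ (-1, 1))
  | some (true, Kind.knight) => decide ((20, 20) - a ∉ knightJumps)
  | some (true, _) => false
  | _ => true

theorem rm_noAtt : ∀ Q ∈ [rp, rp.move (19, 19) (18, 18)], ∀ a ∈ bx (20, 20), noAtt Q a = true := by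
  decide +kernel

theorem rm_blk : ∀ Q ∈ rQ, ∀ d ∈ dirs8,
    (Q ((20, 20) + d) ≠ none ∨ Q ((20, 20) + (2 : ℕ) • d) ≠ none) ∧ Q ((21, 22) + d) ≠ none := by
  decide +kernel

theorem rJ_bx {a : Sq} (h : a ∈ bx (20, 20) ∨ a ∈ bx (21, 22)) : rJ a := by
  have key : ∀ a ∈ bx (20, 20) ++ bx (21, 22), 13 ≤ a.1 ∧ a.1 ≤ 27 ∧ 13 ≤ a.2 ∧ a.2 ≤ 27 := by
    decide +kernel
  exact key a (List.mem_append.2 h)

/-- The Black king is not in check. -/
theorem rm_nocheck {B Q : Board} (hQ : Q ∈ [rp, rp.move (19, 19) (18, 18)])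
    (hB : ∀ s, rJ s → B s = Q s) {a : Sq} {m : Man} (ha : B a = some m) (hm : m.1 = true)
    (hat : ManAttacks B m a (20, 20)) : False := by
  have hQ' : Q ∈ rQ := by
    unfold rQ
    simp only [List.mem_cons, List.not_mem_nil, or_false] at hQ ⊢
    tauto
  have hbl : ∀ d ∈ dirs8, B ((20, 20) + d) ≠ none ∨ B ((20, 20) + (2 : ℕ) • d) ≠ none := by
    intro d hd
    have h1 := (rm_blk Q hQ' d hd).1
    obtain ⟨b1, b2, b3, b4, -, -⟩ := dirs8_bd d hd
    rw [hB _ ⟨by simp only [Prod.fst_add]; omega, by simp only [Prod.fst_add]; omega,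
      by simp only [Prod.snd_add]; omega, by simp only [Prod.snd_add]; omega⟩]
    have e1 : ((20, 20) + (2 : ℕ) • d).1 = 20 + 2 * d.1 := by
      rw [Prod.fst_add, rm_fst]
      rfl
    have e2 : ((20, 20) + (2 : ℕ) • d).2 = 20 + 2 * d.2 := by
      rw [Prod.snd_add, rm_snd]
      rfl
    rw [hB ((20, 20) + (2 : ℕ) • d) ⟨by omega, by omega, by omega, by omega⟩]
    exact h1
  have h2 := mem_bx (rm_box hbl hat)
  have h3 := rm_noAtt Q hQ a h2
  unfold noAtt at h3
  rw [← hB a (rJ_bx (Or.inl h2)), ha] at h3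
  obtain ⟨c, κ⟩ := m
  simp only at hm
  subst hm
  cases κ with
  | pawn =>
    have h4 := of_decide_eq_true h3
    rcases hat with h5 | h5
    · exact h4.1 h5
    · exact h4.2 h5
  | knight => exact of_decide_eq_true h3 hat
  | king => exact absurd h3 Bool.false_ne_true
  | queen => exact absurd h3 Bool.false_ne_true
  | rook => exact absurd h3 Bool.false_ne_true
  | bishop => exact absurd h3 Bool.false_ne_true

theorem rm_K : ∀ Q ∈ rQ, Q (20, 20) = some (false, Kind.king) ∧ Q (23, 23) = some (true, Kind.knight) ∧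
    Q (21, 22) = none ∧ (∀ d ∈ dirs8, Q ((23, 23) + d) = some (true, Kind.pawn)) ∧
    (∀ a ∈ bx (21, 22), a ≠ (20, 20) → ∀ κ, κ ∈ [Kind.king, Kind.queen, Kind.rook, Kind.bishop, Kind.knight,
      Kind.pawn] → Q a ≠ some (false, κ)) := by
  decide +kernel

/-- flight squares: each is occupied by a Black piece or attacked by a White pawn -/
theorem rm_fl : ∀ Q ∈ rQ, ∀ d ∈ dirs8, (∃ κ ∈ [Kind.pawn], Q ((20, 20) + d) = some (false, κ)) ∨
    (Q ((20, 20) + d + (-1, -1)) = some (true, Kind.pawn) ∧ (20, 20) + d + (-1, -1) ≠ (20, 20)) ∨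
    (Q ((20, 20) + d + (1, -1)) = some (true, Kind.pawn) ∧ (20, 20) + d + (1, -1) ≠ (20, 20)) := by
  decide +kernel

theorem rJ_near {x y : ℤ} (hx : 15 ≤ x ∧ x ≤ 25) (hy : 15 ≤ y ∧ y ≤ 25) {d : Sq} (hd : d ∈ dirs8) :
    rJ ((x, y) + d) := by
  obtain ⟨b1, b2, b3, b4, -, -⟩ := dirs8_bd d hd
  refine ⟨?_, ?_, ?_, ?_⟩
  · show 13 ≤ x + d.1
    omega
  · show x + d.1 ≤ 27
    omega
  · show 13 ≤ y + d.2
    omega
  · show y + d.2 ≤ 27
    omega

/-- the board after the mating move -/
def mB (B : Board) : Board := B.move (23, 23) (21, 22)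

theorem mB_ne {B : Board} {s : Sq} (h1 : s ≠ (23, 23)) (h2 : s ≠ (21, 22)) : mB B s = B s := by
  unfold mB Board.move
  rw [if_neg h1, if_neg h2]

theorem mB_23 (B : Board) : mB B (23, 23) = none := by
  unfold mB Board.move
  rw [if_pos rfl]

theorem mB_21 (B : Board) : mB B (21, 22) = B (23, 23) := by
  unfold mB Board.move
  rw [if_neg (by decide), if_pos rfl]

/-- The mating move is legal. -/
theorem rm_legal {B Q : Board} (hQ : Q ∈ rQ) (hB : ∀ s, rJ s → B s = Q s)
    (hc : ¬ InCheck B true) : Legal B true (23, 23) (21, 22) := by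
  obtain ⟨k1, k2, k3, k4, k5⟩ := rm_K Q hQ
  have j1 : B (23, 23) = some (true, Kind.knight) := by
    rw [hB _ ⟨by decide, by decide, by decide, by decide⟩, k2]
  have j2 : B (21, 22) = none := by
    rw [hB _ ⟨by decide, by decide, by decide, by decide⟩, k3]
  refine ⟨⟨(true, Kind.knight), j1, rfl, Or.inl ⟨j2, ?_⟩⟩, ?_⟩
  · rw [if_neg (by decide)]
    show ((21, 22) : Sq) - (23, 23) ∈ knightJumps
    decide
  · rintro ⟨s, x, m, h1, h2, h3, h4⟩
    change mB B s = some (true, Kind.king) at h1
    change mB B x = some m at h2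
    apply hc
    have hs1 : s ≠ (23, 23) := by
      rintro rfl
      rw [mB_23] at h1
      cases h1
    have hs2 : s ≠ (21, 22) := by
      rintro rfl
      rw [mB_21, j1] at h1
      exact absurd h1 (by decide)
    have hx1 : x ≠ (23, 23) := by
      rintro rfl
      rw [mB_23] at h2
      cases h2
    have hx2 : x ≠ (21, 22) := by
      rintro rfl
      rw [mB_21, j1] at h2
      obtain rfl : (true, Kind.knight) = m := Option.some.inj h2
      exact absurd h3 (by decide)
    rw [mB_ne hs1 hs2] at h1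
    rw [mB_ne hx1 hx2] at h2
    refine ⟨s, x, m, h1, h2, h3, ?_⟩
    -- the squares between are the same
    have key : ∀ d ∈ dirs8, ∀ n : ℕ, 0 < n → s = x + n • d →
        (∀ k : ℕ, 0 < k → k < n → mB B (x + k • d) = none) →
        ∀ k : ℕ, 0 < k → k < n → B (x + k • d) = none := by
      intro d hd n hn hsn hk k hk0 hkn
      have h5 := hk k hk0 hkn
      by_cases e1 : x + k • d = (23, 23)
      · exfalso
        have h6 := k4 d hd
        have h7 : x + (k + 1) • d = (23, 23) + d := by
          rw [← e1, add_smul, one_smul, add_assoc]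
        have h8 : B ((23, 23) + d) = some (true, Kind.pawn) := by
          rw [hB _ (rJ_near (by decide) (by decide) hd), h6]
        by_cases hkn' : k + 1 = n
        · rw [hkn', ← hsn] at h7
          rw [h7, h8] at h1
          exact absurd h1 (by decide)
        · have h9 := hk (k + 1) (by omega) (by omega)
          rw [h7] at h9
          have n1 : (23, 23) + d ≠ (23, 23) := by
            intro h
            have := (dirs8_bd d hd).2.2.2.2.2
            have e3 := congrArg Prod.fst h
            have e4 := congrArg Prod.snd h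
            simp only [Prod.fst_add, Prod.snd_add] at e3 e4
            omega
          have n2 : (23, 23) + d ≠ (21, 22) := by
            intro h
            rw [h, j2] at h8
            cases h8
          rw [mB_ne n1 n2, h8] at h9
          cases h9
      · by_cases e2 : x + k • d = (21, 22)
        · rw [e2, j2]
        · rw [mB_ne e1 e2] at h5
          exact h5
    obtain ⟨col, κ⟩ := m
    cases κ with
    | king => exact h4
    | knight => exact h4
    | pawn => exact h4
    | queen =>
      obtain ⟨d, hd, n, g1, g2, g3⟩ := h4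
      exact ⟨d, hd, n, g1, g2, key d hd n g1 g2 g3⟩
    | rook =>
      obtain ⟨d, hd, n, g1, g2, g3⟩ := h4
      exact ⟨d, hd, n, g1, g2, key d (List.mem_append_left _ hd) n g1 g2 g3⟩
    | bishop =>
      obtain ⟨d, hd, n, g1, g2, g3⟩ := h4
      exact ⟨d, hd, n, g1, g2, key d (List.mem_append_right _ hd) n g1 g2 g3⟩

/-- The mate. -/
theorem rm_mate {B Q : Board} (hQ : Q ∈ rQ) (hB : ∀ s, rJ s → B s = Q s)
    (hc : ¬ InCheck B true) : HasValue ⟨B, true⟩ := by
  obtain ⟨k1, k2, k3, k4, k5⟩ := rm_K Q hQ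
  refine hasValue_white (rm_legal hQ hB hc) ⟨0, ValLE.mate ⟨rfl, ?_, ?_⟩⟩
  · refine ⟨(20, 20), (21, 22), (true, Kind.knight), ?_, ?_, rfl, ?_⟩
    · show mB B (20, 20) = _
      rw [mB_ne (by decide) (by decide), hB _ ⟨by decide, by decide, by decide, by decide⟩, k1]
    · show mB B (21, 22) = _
      rw [mB_21, hB _ ⟨by decide, by decide, by decide, by decide⟩, k2]
    · show ((20, 20) : Sq) - (21, 22) ∈ knightJumps
      decide
  · rintro q ⟨x, y, ⟨⟨⟨col, κ⟩, h1, h2, h3⟩, h4⟩, -⟩
    change mB B x = _ at h1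
    simp only at h2
    subst h2
    apply h4
    have hx1 : x ≠ (23, 23) := by
      rintro rfl
      rw [mB_23] at h1
      cases h1
    have hx2 : x ≠ (21, 22) := by
      rintro rfl
      rw [mB_21, hB _ ⟨by decide, by decide, by decide, by decide⟩, k2] at h1
      exact absurd (congrArg Prod.fst (Option.some.inj h1)).symm Bool.false_ne_true
    have hxB : B x = some (false, κ) := by
      rw [← mB_ne (B := B) hx1 hx2]
      exact h1
    -- the target is not a Black piece
    have hy : ∀ κ', mB B y ≠ some (false, κ') := by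
      intro κ' h
      rcases h3 with ⟨h5, -⟩ | ⟨⟨t, h5, h6, -⟩, -⟩
      · change mB B y = none at h5
        rw [h] at h5
        cases h5
      · change mB B y = some t at h5
        rw [h] at h5
        obtain rfl : (false, κ') = t := Option.some.inj h5
        exact Bool.false_ne_true h6
    have hyK : y ≠ (20, 20) := by
      rintro rfl
      apply hy Kind.king
      rw [mB_ne (by decide) (by decide), hB _ ⟨by decide, by decide, by decide, by decide⟩, k1]
    by_cases hxK : x = (20, 20)
    · -- a king move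
      subst hxK
      have hκ : κ = Kind.king := by
        rw [hB _ ⟨by decide, by decide, by decide, by decide⟩, k1] at hxB
        have := Option.some.inj hxB
        exact (congrArg Prod.snd this).symm
      subst hκ
      have hd : y - (20, 20) ∈ dirs8 := by
        rcases h3 with ⟨-, h5⟩ | ⟨-, h5⟩
        · rw [if_neg (by decide)] at h5
          exact h5
        · exact h5
      have hyd : (20, 20) + (y - (20, 20)) = y := by abel
      have hf := rm_fl Q hQ _ hd
      rw [hyd] at hf
      have hJy : rJ y := by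
        have := rJ_near (x := 20) (y := 20) (by decide) (by decide) hd
        rwa [hyd] at this
      have hyn1 : y ≠ (23, 23) := by
        intro h
        rw [h] at hd
        exact absurd hd (by decide)
      have hyn2 : y ≠ (21, 22) := by
        intro h
        rw [h] at hd
        exact absurd hd (by decide)
      have fin : ∀ v : Sq, v = (-1, -1) ∨ v = (1, -1) → Q (y + v) = some (true, Kind.pawn) →
          y + v ≠ (20, 20) → InCheck ((mB B).move (20, 20) y) false := by
        intro v hv hQv hne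
        obtain ⟨b1, b2, b3, b4, -, -⟩ := dirs8_bd _ hd
        simp only [Prod.fst_sub, Prod.snd_sub] at b1 b2 b3 b4
        have hJv : rJ (y + v) := by
          rcases hv with rfl | rfl <;>
            refine ⟨?_, ?_, ?_, ?_⟩ <;> simp only [Prod.fst_add, Prod.snd_add] <;> omega
        have n1 : y + v ≠ (23, 23) := by
          intro h
          rw [h, k2] at hQv
          exact absurd hQv (by decide)
        have n2 : y + v ≠ (21, 22) := by
          intro h
          rw [h, k3] at hQv
          cases hQv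
        have n3 : y + v ≠ y := by
          intro h
          have e1 := congrArg Prod.fst h
          rcases hv with rfl | rfl <;> simp only [Prod.fst_add] at e1 <;> omega
        refine ⟨y, y + v, (true, Kind.pawn), ?_, ?_, rfl, ?_⟩
        · unfold Board.move
          rw [if_neg hyK, if_pos rfl]
          exact h1
        · unfold Board.move
          rw [if_neg hne, if_neg n3, mB_ne n1 n2, hB _ hJv, hQv]
        · show y - (y + v) = (1, 1) ∨ y - (y + v) = (-1, 1)
          rcases hv with rfl | rfl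
          · left
            rw [sub_add_cancel_left]
            rfl
          · right
            rw [sub_add_cancel_left]
            rfl
      rcases hf with ⟨κ', -, hf⟩ | ⟨hf, hne⟩ | ⟨hf, hne⟩
      · exfalso
        apply hy κ'
        rw [mB_ne hyn1 hyn2, hB _ hJy, hf]
      · exact fin _ (Or.inl rfl) hf hne
      · exact fin _ (Or.inr rfl) hf hne
    · by_cases hyN : y = (21, 22)
      · -- the knight cannot be captured
        exfalso
        subst hyN
        have hat : ManAttacks (mB B) (false, κ) x (21, 22) := by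
          rcases h3 with ⟨h5, -⟩ | ⟨-, h5⟩
          · change mB B (21, 22) = none at h5
            rw [mB_21, hB _ ⟨by decide, by decide, by decide, by decide⟩, k2] at h5
            cases h5
          · exact h5
        have hbl : ∀ d ∈ dirs8, mB B ((21, 22) + d) ≠ none ∨ mB B ((21, 22) + (2 : ℕ) • d) ≠ none := by
          intro d hd
          left
          have h6 := (rm_blk Q hQ d hd).2
          have n1 : (21, 22) + d ≠ (23, 23) := by
            intro h
            obtain ⟨b1, b2, b3, b4, -, -⟩ := dirs8_bd d hd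
            have e3 := congrArg Prod.fst h
            simp only [Prod.fst_add] at e3
            omega
          have n2 : (21, 22) + d ≠ (21, 22) := by
            intro h
            have := (dirs8_bd d hd).2.2.2.2.2
            have e3 := congrArg Prod.fst h
            have e4 := congrArg Prod.snd h
            simp only [Prod.fst_add, Prod.snd_add] at e3 e4
            omega
          rw [mB_ne n1 n2, hB _ (rJ_near (by decide) (by decide) hd)]
          exact h6
        have h7 := mem_bx (rm_box hbl hat)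
        refine k5 x h7 hxK κ ?_ ?_
        · cases κ <;> simp
        · rw [← hB x (rJ_bx (Or.inr h7)), hxB]
      · refine ⟨(20, 20), (21, 22), (true, Kind.knight), ?_, ?_, rfl, ?_⟩
        · show (mB B).move x y (20, 20) = _
          unfold Board.move
          rw [if_neg (Ne.symm hxK), if_neg (Ne.symm hyK), mB_ne (by decide) (by decide),
            hB _ ⟨by decide, by decide, by decide, by decide⟩, k1]
        · show (mB B).move x y (21, 22) = _
          unfold Board.move
          rw [if_neg (Ne.symm hx2), if_neg (Ne.symm hyN), mB_21,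
            hB _ ⟨by decide, by decide, by decide, by decide⟩, k2]
        · show ((20, 20) : Sq) - (21, 22) ∈ knightJumps
          decide

/-- the Black pieces in the room -/
theorem rp_black {s : Sq} {κ : Kind} (h : rp s = some (false, κ)) :
    (s = (20, 20) ∧ κ = Kind.king) ∨ ((s = (19, 19) ∨ s = (21, 19)) ∧ κ = Kind.pawn) := by
  unfold rp at h
  split_ifs at h with h1 h2 h3
  · exact Or.inl ⟨h1, (congrArg Prod.snd (Option.some.inj h)).symm⟩
  · exact Or.inr ⟨h2, (congrArg Prod.snd (Option.some.inj h)).symm⟩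
  · exact absurd (congrArg Prod.fst (Option.some.inj h)).symm Bool.false_ne_true
  · exact absurd (congrArg Prod.fst (Option.some.inj h)).symm Bool.false_ne_true

/-- the empty squares in the room -/
theorem rp_none {s : Sq} (h : rp s = none) : s = (21, 22) ∨ s = (19, 22) := by
  unfold rp at h
  split_ifs at h with h1 h2 h3 h4
  exact h4

theorem rJ_Z {s : Sq} (h : rJ s) : s ∈ rZ := by
  obtain ⟨h1, h2, h3, h4⟩ := h
  exact ⟨by omega, by omega, by omega, by omega⟩

/-- captures by the Black king are not possible -/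
theorem rm_prot : ∀ d ∈ dirs8, rp ((20, 20) + d) = some (false, Kind.pawn) ∨
    (rp ((20, 20) + d + (-1, -1)) = some (true, Kind.pawn)) ∨
    (rp ((20, 20) + d + (1, -1)) = some (true, Kind.pawn)) := by
  decide +kernel

/-- a Black piece outside of the room cannot enter its inner part -/
theorem rm_enter {B : Board} (hG : rG B) {a b : Sq} {m : Man} (ha : a ∉ rZ) (hb : rJ b)
    (h : ManAttacks B m a b) : False := by
  obtain ⟨j1, j2, j3, j4⟩ := hb
  have haZ : ¬ (10 ≤ a.1 ∧ a.1 ≤ 30 ∧ 10 ≤ a.2 ∧ a.2 ≤ 30) := ha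
  rcases rm_att h with h1 | ⟨-, d, hd, n, hn, hc, hk⟩
  · have := rm_short h1
    omega
  · obtain ⟨b1, b2, b3, b4, -, b6⟩ := dirs8_bd d hd
    have hc1 := congrArg Prod.fst hc
    have hc2 := congrArg Prod.snd hc
    rw [Prod.fst_add, rm_fst] at hc1
    rw [Prod.snd_add, rm_snd] at hc2
    have hn4 : 4 ≤ n := by
      by_contra hlt
      have : n = 1 ∨ n = 2 ∨ n = 3 := by omega
      rcases this with rfl | rfl | rfl
      · rw [Nat.cast_one] at hc1 hc2
        omega
      · rw [Nat.cast_ofNat] at hc1 hc2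
        omega
      · rw [Nat.cast_ofNat] at hc1 hc2
        omega
    have e1 : a + (n - 1) • d = b - d := by
      rw [hc]
      obtain ⟨k, rfl⟩ : ∃ k, n = k + 1 := ⟨n - 1, by omega⟩
      rw [Nat.add_sub_cancel, add_smul, one_smul]
      abel
    have e2 : a + (n - 2) • d = b - d - d := by
      rw [hc]
      obtain ⟨k, rfl⟩ : ∃ k, n = k + 2 := ⟨n - 2, by omega⟩
      rw [Nat.add_sub_cancel, add_smul, two_smul]
      abel
    have f1 := hk (n - 1) (by omega) (by omega)
    have f2 := hk (n - 2) (by omega) (by omega)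
    rw [e1, hG _ (by
      refine ⟨?_, ?_, ?_, ?_⟩ <;> simp only [Prod.fst_sub, Prod.snd_sub] <;> omega)] at f1
    rw [e2, hG _ (by
      refine ⟨?_, ?_, ?_, ?_⟩ <;> simp only [Prod.fst_sub, Prod.snd_sub] <;> omega)] at f2
    have g : ∀ s : Sq, s = (21, 22) ∨ s = (19, 22) → (s.1 = 21 ∨ s.1 = 19) ∧ s.2 = 22 := by
      rintro s (rfl | rfl)
      · exact ⟨Or.inl rfl, rfl⟩
      · exact ⟨Or.inr rfl, rfl⟩
    obtain ⟨f3, f4⟩ := g _ (rp_none f1)
    obtain ⟨f5, f6⟩ := g _ (rp_none f2)
    simp only [Prod.fst_sub, Prod.snd_sub] at f3 f4 f5 f6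
    omega

/-- **The Black moves.** -/
theorem rm_moves {B : Board} (hG : rG B) {a b : Sq} (hl : Legal B false a b) :
    ∃ Q ∈ rQ, ∀ s, rJ s → B.move a b s = Q s := by
  obtain ⟨⟨⟨col, κ⟩, h1, h2, h3⟩, h4⟩ := hl
  simp only at h2
  subst h2
  have hat : κ ≠ Kind.pawn → ManAttacks B (false, κ) a b := by
    intro hp
    rcases h3 with ⟨-, h5⟩ | ⟨-, h5⟩
    · rw [if_neg hp] at h5
      exact h5
    · exact h5
  have hown : ∀ κ', B b ≠ some (false, κ') := by
    intro κ' h
    rcases h3 with ⟨h5, -⟩ | ⟨⟨t, h5, h6, -⟩, -⟩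
    · rw [h] at h5
      cases h5
    · rw [h] at h5
      obtain rfl : (false, κ') = t := Option.some.inj h5
      exact Bool.false_ne_true h6
  by_cases haZ : a ∈ rZ
  · have h1' := h1
    rw [hG a haZ] at h1'
    have hmove : ∀ c, B c = rp c → ∀ s, rJ s → (B.move a c) s = (rp.move a c) s := by
      intro c _ s hs
      unfold Board.move
      rw [hG s (rJ_Z hs), hG a haZ]
    rcases rp_black h1' with ⟨rfl, rfl⟩ | ⟨haa, rfl⟩
    · -- the king cannot move
      exfalso
      have hd : b - (20, 20) ∈ dirs8 := hat (by decide)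
      have hyd : (20, 20) + (b - (20, 20)) = b := by abel
      have hJb : rJ b := by
        have := rJ_near (x := 20) (y := 20) (by decide) (by decide) hd
        rwa [hyd] at this
      have hbK : b ≠ (20, 20) := by
        intro h
        rw [h] at hd
        exact absurd hd (by decide)
      obtain ⟨b1, b2, b3, b4, -, -⟩ := dirs8_bd _ hd
      simp only [Prod.fst_sub, Prod.snd_sub] at b1 b2 b3 b4
      have fin : ∀ v : Sq, v = (-1, -1) ∨ v = (1, -1) → rp (b + v) = some (true, Kind.pawn) →
          False := by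
        intro v hv hQv
        apply h4
        have hZv : b + v ∈ rZ := by
          rcases hv with rfl | rfl <;>
            refine ⟨?_, ?_, ?_, ?_⟩ <;> simp only [Prod.fst_add, Prod.snd_add] <;> omega
        have n3 : b + v ≠ b := by
          intro h
          have e1 := congrArg Prod.fst h
          rcases hv with rfl | rfl <;> simp only [Prod.fst_add] at e1 <;> omega
        have n4 : b + v ≠ (20, 20) := by
          intro h
          rw [h] at hQv
          exact absurd hQv (by decide)
        refine ⟨b, b + v, (true, Kind.pawn), ?_, ?_, rfl, ?_⟩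
        · unfold Board.move
          rw [if_neg hbK, if_pos rfl]
          exact h1
        · unfold Board.move
          rw [if_neg n4, if_neg n3, hG _ hZv, hQv]
        · show b - (b + v) = (1, 1) ∨ b - (b + v) = (-1, 1)
          rcases hv with rfl | rfl
          · left
            rw [sub_add_cancel_left]
            rfl
          · right
            rw [sub_add_cancel_left]
            rfl
      have hf := rm_prot _ hd
      rw [hyd] at hf
      rcases hf with hf | hf | hf
      · apply hown Kind.pawn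
        rw [hG _ (rJ_Z hJb), hf]
      · exact fin _ (Or.inl rfl) hf
      · exact fin _ (Or.inr rfl) hf
    · -- captures by the pawns
      have hZb : ∀ v : Sq, v ∈ ([(0, -1), (1, -1), (-1, -1)] : List Sq) → a + v ∈ rZ := by
        intro v hv
        have h5 : ∀ v ∈ ([(0, -1), (1, -1), (-1, -1)] : List Sq), -1 ≤ v.1 ∧ v.1 ≤ 1 ∧ v.2 = -1 := by
          decide
        obtain ⟨g1, g2, g3⟩ := h5 v hv
        rcases haa with rfl | rfl <;> refine ⟨?_, ?_, ?_, ?_⟩ <;>
          simp only [Prod.fst_add, Prod.snd_add] <;> omega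
      rcases h3 with ⟨h5, h6⟩ | ⟨-, h6⟩
      · exfalso
        rw [if_pos rfl] at h6
        have h7 : b = a + (0, -1) := by
          have : b = a + (b - a) := by abel
          rw [this, h6]
          rfl
        rw [h7, hG _ (hZb _ (by simp))] at h5
        rcases haa with rfl | rfl <;> exact absurd h5 (by decide)
      · have h7 : b = a + (1, -1) ∨ b = a + (-1, -1) := by
          have : b = a + (b - a) := by abel
          rcases h6 with h6 | h6
          · left
            rw [this, h6]
            rfl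
          · right
            rw [this, h6]
            rfl
        rcases haa with rfl | rfl <;> rcases h7 with rfl | rfl
        · exact ⟨_, by unfold rQ; simp, hmove (20, 18) (hG _ (by
            refine ⟨?_, ?_, ?_, ?_⟩ <;> decide))⟩
        · exact ⟨_, by unfold rQ; simp, hmove (18, 18) (hG _ (by
            refine ⟨?_, ?_, ?_, ?_⟩ <;> decide))⟩
        · exact ⟨_, by unfold rQ; simp, hmove (22, 18) (hG _ (by
            refine ⟨?_, ?_, ?_, ?_⟩ <;> decide))⟩
        · exact ⟨_, by unfold rQ; simp, hmove (20, 18) (hG _ (by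
            refine ⟨?_, ?_, ?_, ?_⟩ <;> decide))⟩
  · -- a piece outside
    have hbJ : ¬ rJ b := by
      intro hb
      by_cases hp : κ = Kind.pawn
      · subst hp
        have hs : a.1 - 1 ≤ b.1 ∧ b.1 ≤ a.1 + 1 ∧ a.2 - 1 ≤ b.2 ∧ b.2 ≤ a.2 + 1 := by
          have h7 : b - a = (0, -1) ∨ b - a = (1, -1) ∨ b - a = (-1, -1) := by
            rcases h3 with ⟨-, h6⟩ | ⟨-, h6⟩
            · rw [if_pos rfl] at h6
              exact Or.inl h6
            · exact Or.inr h6
          have e : ∀ v : Sq, b - a = v → b.1 - a.1 = v.1 ∧ b.2 - a.2 = v.2 := by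
            rintro v rfl
            exact ⟨rfl, rfl⟩
          rcases h7 with h7 | h7 | h7 <;> obtain ⟨e1, e2⟩ := e _ h7 <;> simp only at e1 e2 <;> omega
        obtain ⟨j1, j2, j3, j4⟩ := hb
        have haZ' : ¬ (10 ≤ a.1 ∧ a.1 ≤ 30 ∧ 10 ≤ a.2 ∧ a.2 ≤ 30) := haZ
        omega
      · exact rm_enter hG haZ hb (hat hp)
    refine ⟨rp, by unfold rQ; simp, fun s hs => ?_⟩
    have n1 : s ≠ a := by
      rintro rfl
      exact haZ (rJ_Z hs)
    have n2 : s ≠ b := by
      rintro rfl
      exact hbJ hs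
    unfold Board.move
    rw [if_neg n1, if_neg n2]
    exact hG s (rJ_Z hs)

theorem rm_nc {B Q : Board} (hQ : Q ∈ [rp, rp.move (19, 19) (18, 18)])
    (hB : ∀ s, rJ s → B s = Q s) (h1 : OneBK B) : ¬ InCheck B false := by
  rintro ⟨s, a, m, h2, h3, h4, h5⟩
  obtain rfl : s = (20, 20) := h1 s h2
  exact rm_nocheck hQ hB h3 h4 h5

/-- **The mating room.** -/
def RP : Room where
  Z := rZ
  G := rG
  dep := fun B B' h hG s hs => by rw [← h s hs]; exact hG s hs
  legal := fun B κ hG h1 _ _ => by
    have e1 : B (19, 19) = some (false, Kind.pawn) := by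
      rw [hG _ (by refine ⟨?_, ?_, ?_, ?_⟩ <;> decide)]
      decide
    have e2 : B (18, 18) = some (true, Kind.pawn) := by
      rw [hG _ (by refine ⟨?_, ?_, ?_, ?_⟩ <;> decide)]
      decide
    have e3 : B (20, 20) = some (false, Kind.king) := by
      rw [hG _ (by refine ⟨?_, ?_, ?_, ?_⟩ <;> decide)]
      decide
    refine ⟨(19, 19), (18, 18), ⟨(false, Kind.pawn), e1, rfl, Or.inr ⟨⟨_, e2, rfl, by decide⟩, ?_⟩⟩, ?_⟩
    · right
      decide
    · refine rm_nc (Q := rp.move (19, 19) (18, 18)) (by simp) (fun s hs => ?_) (fun s hs => ?_)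
      · unfold Board.move
        rw [hG s (rJ_Z hs), e1]
        rfl
      · unfold Board.move at hs
        split_ifs at hs with g1 g2
        · rw [e1] at hs
          exact absurd hs (by decide)
        · exact h1 s hs
  mate := fun B κ a b hG _ _ _ hl hc => by
    obtain ⟨Q, hQ, hB⟩ := rm_moves hG hl
    exact rm_mate hQ hB hc
  nocheck := fun B _ hG h1 _ _ => rm_nc (Q := rp) (by simp) (fun s hs => hG s (rJ_Z hs)) h1

end Pool.Agent.Lib.H32C.Loc
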