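import Pool.Agent.Lib.H32C.FeB
import Pool.Agent.Lib.H32C.FwE
import Pool.Agent.Lib.H32C.LocT
import Pool.Agent.Lib.H32C.LocU

/-!
# The service `Tb`: certificates

A Black knight, the resident, stands on the square to the south west of the home `h` of the bishop.  The White king
goes to a square of the diagonal of `h`; Black can only go on if the resident gives a discovered check, i.e. if the
bishop stands to the north east of `h`.

There are three arrays: in `A` the resident is static; in `A'` its cell is empty, and the resident is the last piece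
of the states; `A1` is `A'` with known empty cells to the south east of `h`.  The patches over `A'` and `A1` may have
a ray, whose mark is on the cell `z` of `h`.  Phase `1`: the bishop stands on the ray; phase `0`: it does not.
In phase `1` the array `A1` may be used.
-/

set_option autoImplicit false

namespace Pool.Agent.Lib.H32C.Loc

/-- the ray of a patch -/
def rNE (e : Nat) : Ray := ⟨e, 63, 11⟩

/-- the mark on the cell `e` of the patch around `(X, Y)` is on the cell `z` -/
def mkOk (z X Y e : Nat) : Bool :=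
  ands [decide (Inner e), Nat.beq (zA X Y (rNE e) 0) z]

/-- the patches of items of phase `1` -/
def wpB (z : Nat) (L : List WU) : Bool :=
  allb (fun u => Nat.beq u.φ 1 && (Nat.beq u.e 0 || mkOk z u.X u.Y u.e)) L

/-- the patches of items of phase `1`, lower bound -/
def wpBL (z : Nat) (L : List WL) : Bool :=
  allb (fun u => Nat.beq u.φ 1 && (Nat.beq u.e 0 || mkOk z u.X u.Y u.e)) L

/-- the verification datum of an item of phase `0` with a ray -/
def WU.swD (u : WU) : SW := ⟨u.X, u.Y, mkW u.X u.Y u.e 7, rsK 63 11 u.e, PW, 0, u.tr, []⟩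

/-- the check of an item of phase `0` with a ray: White wins -/
noncomputable def wdOk (H A z : Nat) (S : List (List Pc)) (u : WU) : Bool :=
  noMk (nthP S u.i) && (!Nat.beq u.e 0 && (mkOk z u.X u.Y u.e &&
    swOk H A S u.i u.swD (patW A S u.X u.Y u.i (mkW u.X u.Y u.e 7)) (kOf u.X u.Y (nthP S u.i))))

/-- the check of an item of phase `0`: White wins -/
noncomputable def wvOk (H A z : Nat) (S : List (List Pc)) (u : WU) : Bool :=
  noMk (nthP S u.i) && ((Nat.beq u.e 0 || mkOk z u.X u.Y u.e) &&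
    swOk H A S u.i u.swD (patW A S u.X u.Y u.i (mkW u.X u.Y u.e 7)) (kOf u.X u.Y (nthP S u.i)))

/-- the array `A'` with known empty cells `z - 79`, `z - 158`, ... -/
def arSe (A' z : Nat) (n : Nat) : Nat :=
  Nat.rec A' (fun i v => Nat.xor v (Nat.shiftLeft 15 (Nat.mul 4 (Nat.sub z (Nat.mul 79 (Nat.add i 1)))))) n

/-- White wins if the bishop stands on one of the first `t` cells to the south east -/
inductive WSp (H A2 z : Nat) (S : List (List Pc)) (i : Nat) : Nat → Prop
  | nil : WSp H A2 z S i 0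
  | cons {t : Nat} (h : WSp H A2 z S i t) (u : WU)
      (e : nthP S u.i = catP (nthP S i) [⟨(z - 79 * (t + 1)) % 80, (z - 79 * (t + 1)) / 80, 11⟩])
      (hg : wvOk H A2 z S u = true) : WSp H A2 z S i (t + 1)

/-- the verification datum of an item of phase `1` in which Black discovers the check by the far bishop -/
def WL.swE (u : WL) : SW := ⟨u.X, u.Y, mkW u.X u.Y u.e 8, rsK 63 11 u.e, PW, 0, Tr.nil, []⟩

/-- the check of an item of phase `1` in which Black discovers the check by the far bishop -/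
def weOk (H A z : Nat) (S : List (List Pc)) (bcc : List Mo) (u : WL) : Bool :=
  ands [noMk (nthP S u.i), noMk (nthP S u.j₁), !Nat.beq u.e 0, mkOk z u.X u.Y u.e,
    mainF H A S u.i u.swE (patW A S u.X u.Y u.i (mkW u.X u.Y u.e 8)) (kOf u.X u.Y (nthP S u.i)) u.e 63
      u.a u.b u.k₁ u.j₁ (mkW u.X u.Y u.e 8),
    allb (fun q => Nat.ble 9 q.c || Nat.beq q.c 6) (nthP S u.j₁), membM u.j₁ 1 bcc]

/-- a loop: in the state `u.i` Black discovers the check by the far bishop, which leads to the state `v.i`; there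
Black gives a check with two answers, one of which leads back to the state `u.i` -/
def wloOk (H A z : Nat) (S : List (List Pc)) (bcc : List Mo) (u v : WL) : Bool :=
  ands [weOk H A z S [⟨v.i, 1⟩] u, Nat.beq u.j₁ v.i, noMk (nthP S v.i), noMk (nthP S v.j₁),
    noMk (nthP S v.j₂), Nat.beq v.j₂ u.i, Nat.beq v.e 0 || mkOk z v.X v.Y v.e,
    mainW2 H A S v.i v.swE (patW A S v.X v.Y v.i (mkW v.X v.Y v.e 8)) (kOf v.X v.Y (nthP S v.i))
      v.a v.b v.s v.k₁ v.j₁ v.k₂ v.j₂ (mkW v.X v.Y v.e 8), membM v.j₁ 1 bcc]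

/-- A chain for the upper bound of `Tb`: the pairs over `A`, the pairs over `A'`. -/
inductive BU (H A A' A1 z n xr yr : Nat) (S S' : List (List Pc)) (y : Nat) : List Mo → List Mo → Prop
  | nil : BU H A A' A1 z n xr yr S S' y [⟨y, 1⟩] []
  | A {acc bcc : List Mo} (h : BU H A A' A1 z n xr yr S S' y acc bcc) (L : List WU)
      (hg : grpKU H A 63 11 S acc L = true) (hp : allb (fun u => Nat.beq u.e 0) L = true) :
      BU H A A' A1 z n xr yr S S' y (keysWU L acc) bcc
  | B {acc bcc : List Mo} (h : BU H A A' A1 z n xr yr S S' y acc bcc) (L : List WU)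
      (hg : grpKU H A1 63 11 S' bcc L = true) (hp : wpB z L = true) :
      BU H A A' A1 z n xr yr S S' y acc (keysWU L bcc)
  | C {acc bcc : List Mo} (h : BU H A A' A1 z n xr yr S S' y acc bcc) (L : List WU)
      (hg : grpKU H A' 63 11 S' bcc L = true) (hp : allb (fun u => Nat.beq u.e 0) L = true) :
      BU H A A' A1 z n xr yr S S' y acc (keysWU L bcc)
  | S {acc bcc : List Mo} (h : BU H A A' A1 z n xr yr S S' y acc bcc) (i i' φ : Nat)
      (hm : membM i φ acc = true) (e : nthP S' i' = catP (nthP S i) [⟨xr, yr, 10⟩]) :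
      BU H A A' A1 z n xr yr S S' y acc (⟨i', φ⟩ :: bcc)
  | T {acc bcc : List Mo} (h : BU H A A' A1 z n xr yr S S' y acc bcc) (i i' φ : Nat)
      (hm : membM i' φ bcc = true) (e : nthP S' i' = catP (nthP S i) [⟨xr, yr, 10⟩]) :
      BU H A A' A1 z n xr yr S S' y (⟨i, φ⟩ :: acc) bcc
  | W {acc bcc : List Mo} (h : BU H A A' A1 z n xr yr S S' y acc bcc) (u : WU)
      (hg : wdOk H A' z S' u = true) : BU H A A' A1 z n xr yr S S' y acc (⟨u.i, 0⟩ :: bcc)
  | V {acc bcc : List Mo} (h : BU H A A' A1 z n xr yr S S' y acc bcc) (m : Nat) (hm : m ≤ n) (u : WU)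
      (hg : wvOk H (arSe A' z m) z S' u = true) (hs : WSp H (arSe A' z m) z S' u.i m) :
      BU H A A' A1 z n xr yr S S' y acc (⟨u.i, 0⟩ :: bcc)

/-- A chain for the lower bound of `Tb`. -/
inductive BL (H A A' A1 z xr yr : Nat) (S S' : List (List Pc)) (y : Nat) : List Mo → List Mo → Prop
  | nil : BL H A A' A1 z xr yr S S' y [⟨y, 1⟩] []
  | A {acc bcc : List Mo} (h : BL H A A' A1 z xr yr S S' y acc bcc) (L : List WL)
      (hg : grpKL H A 63 11 z S acc L = true) (hp : allb (fun u => Nat.beq u.e 0) L = true) :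
      BL H A A' A1 z xr yr S S' y (keysWL L acc) bcc
  | B {acc bcc : List Mo} (h : BL H A A' A1 z xr yr S S' y acc bcc) (L : List WL)
      (hg : grpKL H A1 63 11 z S' bcc L = true) (hp : wpBL z L = true) :
      BL H A A' A1 z xr yr S S' y acc (keysWL L bcc)
  | S {acc bcc : List Mo} (h : BL H A A' A1 z xr yr S S' y acc bcc) (i i' : Nat)
      (hm : membM i 1 acc = true) (e : nthP S' i' = catP (nthP S i) [⟨xr, yr, 10⟩]) :
      BL H A A' A1 z xr yr S S' y acc (⟨i', 1⟩ :: bcc)
  | T {acc bcc : List Mo} (h : BL H A A' A1 z xr yr S S' y acc bcc) (i i' : Nat)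
      (hm : membM i' 1 bcc = true) (e : nthP S' i' = catP (nthP S i) [⟨xr, yr, 10⟩]) :
      BL H A A' A1 z xr yr S S' y (⟨i, 1⟩ :: acc) bcc
  | E {acc bcc : List Mo} (h : BL H A A' A1 z xr yr S S' y acc bcc) (u : WL)
      (hg : weOk H A1 z S' bcc u = true) : BL H A A' A1 z xr yr S S' y acc (⟨u.i, 1⟩ :: bcc)
  | L {acc bcc : List Mo} (h : BL H A A' A1 z xr yr S S' y acc bcc) (u v : WL)
      (hg : wloOk H A1 z S' bcc u v = true) :
      BL H A A' A1 z xr yr S S' y acc (⟨u.i, 1⟩ :: ⟨v.i, 1⟩ :: bcc)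

/-- **The certificate of `Tb`**, from the state `x` to the state `y`. -/
structure TbC (H A A' A1 z n xr yr : Nat) (S S' : List (List Pc)) (x y : Nat) : Prop where
  up : ∃ acc bcc, BU H A A' A1 z n xr yr S S' y acc bcc ∧ membM x 0 acc = true ∧ membM x 1 acc = true
  low : ∃ acc bcc, BL H A A' A1 z xr yr S S' y acc bcc ∧ ∃ u : WL, u.e = 0 ∧ u.kd = 0 ∧ u.φ = 1 ∧
    u.i = x ∧ wlOkK H A 63 11 z S acc u (patW A S u.X u.Y u.i (u.swK 63 11).M)
      (kOf u.X u.Y (nthP S u.i)) = true

/-! ### Boards -/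

/-- The White piece of kind `κ` on `a` cannot go to `c`, nor capture on `c`. -/
def WNc (B : Board) (κ : Kind) (a c : Sq) : Prop :=
  match κ with
  | Kind.king => False
  | Kind.knight => c - a ∉ knightJumps
  | Kind.pawn => c - a ≠ (0, 1) ∧ c - a ≠ (1, 1) ∧ c - a ≠ (-1, 1)
  | Kind.queen => (OrthI a c ∨ DiagI a c) → ∃ d, BetwI a c d ∧ B d ≠ none
  | Kind.rook => OrthI a c → ∃ d, BetwI a c d ∧ B d ≠ none
  | Kind.bishop => DiagI a c → ∃ d, BetwI a c d ∧ B d ≠ none

/-- The board `B`, with the resident on `r`. -/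
structure TbB (H A A' : Nat) (O : Sq) (R : Room) (r : Sq) (B : Board) : Prop where
  bd : BdOk H A O R B
  fits : FitsH H A' O (delB B r)
  res : B r = some (false, Kind.knight)
  resZ : r ∉ R.Z

/-- the bishop stands on `b`, to the north east of `h` -/
structure TbG (H A A' A1 : Nat) (O : Sq) (R : Room) (r h : Sq) (B : Board) (b : Sq) : Prop extends
    TbB H A A' O R r B where
  fits1 : FitsH H A1 O (delB B r)
  occ : B b = some (false, Kind.bishop)
  ray : ∃ n : ℕ, 0 < n ∧ b = h + n • vec 63 ∧ ∀ i : ℕ, 0 < i → i ≠ n → B (h + i • vec 63) = none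
  far : ∀ x y : Nat, x < 80 → y < H → codeA A1 x y ≠ 15 → b ≠ tsq O x y
  bZ : b ∉ R.Z
  rh : h = r + vec 63
  /-- no White piece which does not stand on the diagonal goes to the north east of `h` -/
  white : ∀ (a : Sq) (κ : Kind), B a = some (true, κ) → a.1 - h.1 ≠ a.2 - h.2 → ∀ l : ℕ, 0 < l →
    WNc B κ a (h + l • vec 63)
  /-- no White piece to the south east of `h` goes to `h` -/
  whiteS : ∀ (a : Sq) (κ : Kind), B a = some (true, κ) → ∀ l : ℕ, 0 < l → a = h + l • vec 23 →
    WNc B κ a h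

/-- there is no piece to the north east of the square of the cell `z`; the bishop stands to the south east -/
structure TbN (H A A' z n : Nat) (O : Sq) (R : Room) (r : Sq) (B : Board) : Prop extends
    TbB H A A' O R r B where
  ray : ∀ i : ℕ, 0 < i → B (sqA O z + i • vec 63) = none
  farZ : sqA O z + 1 • vec 63 ∉ R.Z
  /-- the bishop is far away, or stands on one of the cells -/
  split : ∀ m ≤ n, FitsH H (arSe A' z m) O (delB B r) ∨ ∃ t < m,
    B (sqA O (z - 79 * (t + 1))) = some (false, Kind.bishop) ∧ sqA O (z - 79 * (t + 1)) ≠ r ∧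
    sqA O (z - 79 * (t + 1)) ∉ R.Z ∧
    FitsH H (arSe A' z m) O (delB (delB B r) (sqA O (z - 79 * (t + 1))))

section

variable {H A A' A1 z n xr yr : Nat} {S S' : List (List Pc)} {x y : Nat} {O : Sq} {R : Room} {B : Board}
  {b : Sq} {X Y e : Nat}

theorem tb_find_cat (L M : List Pc) (P : Pc → Bool) : (catP L M).find? P = (L.find? P).or (M.find? P) := by
  have h : catP L M = L ++ M := by
    induction L with
    | nil => rfl
    | cons q L ih =>
      show q :: catP L M = _
      rw [ih]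
      rfl
  rw [h, List.find?_append]

/-- the resident is static or a piece of the state -/
theorem tb_stB {r : Sq} (hr : tsq O xr yr = r) (hB : B r = some (false, Kind.knight)) (L : List Pc) :
    stB (delB B r) O (catP L [⟨xr, yr, 10⟩]) = stB B O L := by
  funext s
  unfold stB
  rw [tb_find_cat]
  cases hf : L.find? (fun q => decide (tsq O q.x q.y = s)) with
  | some q => rfl
  | none =>
    simp only [Option.none_or]
    by_cases hs : r = s
    · rw [List.find?_cons_of_pos (by simpa [hr] using hs)]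
      simp only
      rw [← hs, hB]
      rfl
    · rw [List.find?_cons_of_neg (by simpa [hr] using hs), List.find?_nil]
      simp only
      unfold delB
      rw [if_neg (fun h => hs h.symm)]

/-- the bishop is static or a piece of the state -/
theorem tb_stBb {r : Sq} {x y : Nat} (hr : tsq O x y = r) (hB : B r = some (false, Kind.bishop))
    (L : List Pc) : stB (delB B r) O (catP L [⟨x, y, 11⟩]) = stB B O L := by
  funext s
  unfold stB
  rw [tb_find_cat]
  cases hf : L.find? (fun q => decide (tsq O q.x q.y = s)) with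
  | some q => rfl
  | none =>
    simp only [Option.none_or]
    by_cases hs : r = s
    · rw [List.find?_cons_of_pos (by simpa [hr] using hs)]
      simp only
      rw [← hs, hB]
      rfl
    · rw [List.find?_cons_of_neg (by simpa [hr] using hs), List.find?_nil]
      simp only
      unfold delB
      rw [if_neg (fun h => hs h.symm)]

theorem TbB.bd' {r : Sq} (h : TbB H A A' O R r B) : BdOk H A' O R (delB B r) where
  fits := h.fits
  reg := h.bd.reg
  G := R.dep B _ (fun s hs => by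
    unfold delB
    rw [if_neg]
    rintro rfl
    exact h.resZ hs) h.bd.G

theorem TbG.bd1 {r h : Sq} (hG : TbG H A A' A1 O R r h B b) : BdOk H A1 O R (delB B r) :=
  ⟨hG.fits1, hG.bd'.reg, hG.bd'.G⟩

theorem TbG.fits2 {r h : Sq} (hG : TbG H A A' A1 O R r h B b) :
    FitsH H A1 O (delB (delB B r) b) := by
  constructor
  · intro X Y hX hY hc
    have h1 := hG.fits1.cells X Y hX hY hc
    unfold delB at h1 ⊢
    rw [if_neg (fun h => hG.far X Y hX hY hc h.symm)]
    exact h1
  · intro s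
    unfold delB
    split_ifs
    · exact nk_none s
    · exact nk_none s
    · exact hG.bd.fits.noK s

theorem mkOk_iff (h : mkOk z X Y e = true) : Inner e ∧ zA X Y (rNE e) 0 = z := by
  unfold mkOk at h
  simp only [TS3_ands_cons] at h
  obtain ⟨h1, h3, -⟩ := h
  exact ⟨of_decide_eq_true h1, Nat.eq_of_beq_eq_true h3⟩

theorem mkOk_sq (h : mkOk z X Y e = true) (hX : 8 ≤ X ∧ X ≤ 72) (hY : 8 ≤ Y) :
    sq (orgP O X Y) e = sqA O z := by
  obtain ⟨h1, h3⟩ := mkOk_iff h
  have h4 := fwe_mark (T := ⟨0, 0, 63, 0⟩) (O := O) (X := X) (Y := Y) h1 hX hY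
  rw [← h4, ← h3]
  rfl

/-- the context of phase `1` -/
theorem tb_ok1 {r : Sq} (hG : TbG H A A' A1 O R r (sqA O z) B b) (hm : mkOk z X Y e = true)
    (hX : 8 ≤ X ∧ X ≤ 72) (hY : 8 ≤ Y) : (cxG 63 11 O X Y e (delB (delB B r) b) b).Ok := by
  obtain ⟨h1, -⟩ := mkOk_iff hm
  have hs := mkOk_sq (O := O) hm hX hY
  obtain ⟨n, hn, hb, hr⟩ := hG.ray
  have hray : ∀ i : ℕ, (cxG 63 11 O X Y e (delB (delB B r) b) b).ray ⟨e, 63, 11⟩ i =
      sqA O z + i • vec 63 := by
    intro i
    show sq (orgP O X Y) e + i • vec 63 = _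
    rw [hs]
  have hF : ∀ i : ℕ, 0 < i → delB (delB B r) b (sqA O z + i • vec 63) = none := by
    intro i hi
    unfold delB
    split_ifs with g1 g2
    · rfl
    · rfl
    · refine hr i hi ?_
      rintro rfl
      exact g1 hb.symm
  refine ⟨hG.fits2.noK, ?_, ?_, ?_, ?_, ?_, ?_⟩
  · simp [cxG]
  · intro ρ hρ
    rw [List.mem_singleton.1 hρ]
    exact Or.inr ⟨(by decide : (63 : ℕ) ∈ diT), Or.inl rfl⟩
  · intro ρ hρ
    rw [List.mem_singleton.1 hρ]
    exact ⟨h1, fun h => absurd h (by decide : (63 : ℕ) ∉ orT)⟩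
  · intro ρ hρ i hi _ m hm'
    rw [List.mem_singleton.1 hρ, hray] at hm'
    have h3 : delB (delB B r) b (sqA O z + i • vec 63) = some m := hm'
    rw [hF i hi] at h3
    cases h3
  · intro ρ hρ
    rw [List.mem_singleton.1 hρ]
    refine ⟨n, hn, ?_, fun i hi _ => ?_⟩
    · rw [hray, ← hb]
      exact if_pos rfl
    · rw [hray]
      exact hF i hi
  · intro ρ hρ ρ' hρ' hne
    rw [List.mem_singleton.1 hρ, List.mem_singleton.1 hρ'] at hne
    exact absurd rfl hne

/-- the context of phase `0` -/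
theorem tb_ok0 {B' : Board} (hK : ∀ s, NK (B' s) s)
    (hN : ∀ i : ℕ, 0 < i → B' (sqA O z + i • vec 63) = none) (hm : mkOk z X Y e = true)
    (hX : 8 ≤ X ∧ X ≤ 72) (hY : 8 ≤ Y) :
    (cxG 63 11 O X Y e B' (sqA O z + 1 • vec 63)).Ok := by
  obtain ⟨h1, -⟩ := mkOk_iff hm
  have hs := mkOk_sq (O := O) hm hX hY
  have hray : ∀ i : ℕ, (cxG 63 11 O X Y e B' (sqA O z + 1 • vec 63)).ray ⟨e, 63, 11⟩ i =
      sqA O z + i • vec 63 := by
    intro i
    show sq (orgP O X Y) e + i • vec 63 = _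
    rw [hs]
  refine ⟨hK, ?_, ?_, ?_, ?_, ?_, ?_⟩
  · simp [cxG]
  · intro ρ hρ
    rw [List.mem_singleton.1 hρ]
    exact Or.inr ⟨(by decide : (63 : ℕ) ∈ diT), Or.inl rfl⟩
  · intro ρ hρ
    rw [List.mem_singleton.1 hρ]
    exact ⟨h1, fun h => absurd h (by decide : (63 : ℕ) ∉ orT)⟩
  · intro ρ hρ i hi _ m hm'
    rw [List.mem_singleton.1 hρ, hray] at hm'
    have h3 : B' (sqA O z + i • vec 63) = some m := hm'
    rw [hN i hi] at h3
    cases h3
  · intro ρ hρ
    rw [List.mem_singleton.1 hρ]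
    refine ⟨1, one_pos, ?_, fun i hi _ => ?_⟩
    · rw [hray]
      exact if_pos rfl
    · rw [hray]
      exact hN i hi
  · intro ρ hρ ρ' hρ' hne
    rw [List.mem_singleton.1 hρ, List.mem_singleton.1 hρ'] at hne
    exact absurd rfl hne

theorem tb_sep {f : Sq} {B' : Board} (hreg : ∀ s ∈ TileRegH H O, s ∉ R.Z) (hX : 8 ≤ X ∧ X ≤ 72)
    (hY : 8 ≤ Y ∧ Y + 8 ≤ H) (hf : f ∉ R.Z) : R.Sep (cxG 63 11 O X Y e B' f) where
  patch := fun s hs => (MN_sep hreg hX hY (F := B')).patch s hs
  far := by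
    intro ρ hρ
    simp only [cxG, List.mem_singleton] at hρ
    subst hρ
    simpa only [cxG, if_true] using hf

/-- the board of a state in phase `1` -/
theorem tb_brd1 {r : Sq} (hG : TbG H A A' A1 O R r (sqA O z) B b) (hm : mkOk z X Y e = true)
    (hX : 8 ≤ X ∧ X ≤ 72) (hY : 8 ≤ Y ∧ Y + 8 ≤ H) {i : Nat} (hn : noMk (nthP S' i) = true)
    (hp : pcsOkW A1 X Y (catP (mkW X Y e 8) (nthP S' i)) = true) :
    (cxG 63 11 O X Y e (delB (delB B r) b) b).brd (patW A1 S' X Y i (mkW X Y e 8)) =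
      stB (delB B r) O (nthP S' i) := by
  have he := (mkOk_iff hm).1
  have h1 := brd_patW (C := cxG 63 11 O X Y e (delB (delB B r) b) b) (tb_ok1 hG hm hX hY.1)
    (O := O) (X := X) (Y := Y) rfl hG.fits2 hX hY hp (fwc_mk_c (Or.inr rfl)) (ME1_noMk hn) (fea_lt he)
    (fun ρ hρ _ => by
      rw [List.mem_singleton.1 hρ]
      have hff : (cxG 63 11 O X Y e (delB (delB B r) b) b).f e = b := if_pos rfl
      refine Or.inr fun x y hx hy hc => ?_
      change (cxG 63 11 O X Y e (delB (delB B r) b) b).f e ≠ tsq O x y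
      rw [hff]
      exact hG.far x y hx hy hc)
  have h2 : (cxG 63 11 O X Y e (delB (delB B r) b) b).out8
      (pat A1 X Y (catP (mkW X Y e 8) (nthP S' i))) = delB B r := by
    funext c
    have h3 := fwc_mark hX hY.1 he hp
    have hR : (cxG 63 11 O X Y e (delB (delB B r) b) b).R = [⟨e, 63, 11⟩] := rfl
    have hff : (cxG 63 11 O X Y e (delB (delB B r) b) b).f e = b := if_pos rfl
    unfold Ctx.out8
    rw [hR]
    by_cases hc : c = b
    · rw [List.find?_cons_of_pos (by
        simp only [decide_eq_true_eq]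
        rw [hff, h3]
        exact ⟨hc, rfl⟩)]
      rw [hc]
      have hbr : b ≠ r := by
        rintro rfl
        have h4 := hG.res
        rw [hG.occ] at h4
        cases h4
      show dec 11 = delB B r b
      unfold delB
      rw [if_neg hbr, hG.occ]
      rfl
    · rw [List.find?_cons_of_neg (by
        simp only [decide_eq_true_eq]
        rw [hff]
        exact fun h => hc h.1), List.find?_nil]
      change delB (delB B r) b c = delB B r c
      conv_lhs => unfold delB
      rw [if_neg hc]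
      rfl
  rw [h2] at h1
  exact h1

theorem tb_G {B' : Board} {f : Sq} (hG : R.G B') (hsep : R.Sep (cxG 63 11 O X Y e B' f)) (p : Nat) :
    R.G ((cxG 63 11 O X Y e B' f).brd p) := by
  refine R.dep B' _ (fun s hs => ?_) hG
  have h1 : ¬ InB (cxG 63 11 O X Y e B' f).o s := fun h => hsep.patch s h hs
  unfold Ctx.brd
  rw [if_neg (fun h => h1 h.1)]
  have h2 : (cxG 63 11 O X Y e B' f).R.find?
      (fun ρ => decide (s = (cxG 63 11 O X Y e B' f).f ρ.e ∧ cell p ρ.e = 8)) = none := by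
    rw [List.find?_eq_none]
    intro ρ hρ hd
    exact hsep.far ρ hρ ((of_decide_eq_true hd).1 ▸ hs)
  rw [h2]
  rfl

theorem tb_G1 {r : Sq} (hG : TbG H A A' A1 O R r (sqA O z) B b) : R.G (delB (delB B r) b) := by
  refine R.dep (delB B r) _ (fun s hs => ?_) hG.bd'.G
  show delB B r s = if s = b then none else delB B r s
  rw [if_neg]
  rintro rfl
  exact hG.bZ hs

/-! ### Items -/

/-- an item of phase `1` with a ray, upper bound -/
theorem tb_item1 {r : Sq} {acc : List Mo} {u : WU} (he : u.e ≠ 0) (hφ : u.φ = 1)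
    (h : wuOkK H A1 63 11 S' acc u (patW A1 S' u.X u.Y u.i (u.swK 63 11).M)
      (kOf u.X u.Y (nthP S' u.i)) = true)
    (hG : TbG H A A' A1 O R r (sqA O z) B b) (hm : mkOk z u.X u.Y u.e = true)
    (hacc : ∀ m ∈ acc, m.k = 1 → HasValue (PB S' O (delB B r) m.j)) :
    HasValue (PB S' O (delB B r) u.i) := by
  have hφ' : u.φ ≠ 0 := by omega
  obtain ⟨g1, -, h3, h4, -⟩ := fea_parts h
  rw [fea_sw_B (Or.inl hφ')] at h3
  change swOk H A1 S' u.i _ (patW A1 S' u.X u.Y u.i (mkW u.X u.Y u.e 8))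
    (kOf u.X u.Y (nthP S' u.i)) = true at h3
  obtain ⟨hb, hex⟩ := fwc_swOk h3
  have d := TW1_base hb
  have hX : 8 ≤ u.X ∧ u.X ≤ 72 := d.hX
  have hY : 8 ≤ u.Y ∧ u.Y + 8 ≤ H := d.hY
  have hok := tb_ok1 hG hm hX hY.1
  have hsep : R.Sep (cxG 63 11 O u.X u.Y u.e (delB (delB B r) b) b) :=
    tb_sep hG.bd.reg hX hY hG.bZ
  have key := sw0_hasValue
    (x := ⟨u.X, u.Y, mkW u.X u.Y u.e 8, rsK 63 11 u.e, PW, 0, u.tr, [exW u.X u.Y u.e 8 u.x0]⟩) h3
    (R := R) rfl rfl hok (feb_rs he).symm hsep ?_ (tb_G (tb_G1 hG) hsep _)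
  · have hbrd := tb_brd1 hG hm hX hY (S' := S') (i := u.i) g1 d.pcs
    unfold PB
    rw [← hbrd]
    exact key
  · intro E hE y hy
    have hl : E = exW u.X u.Y u.e 8 u.x0 := by
      have : some (exW u.X u.Y u.e 8 u.x0) = some E := hE
      exact (Option.some.inj this).symm
    subst hl
    have hpc := hex _ (List.mem_singleton.2 rfl) y hy
    obtain ⟨hyM, hyi⟩ := fwc_mem_exW hy
    obtain ⟨k1, k2⟩ := h4 y.i hyi
    rw [hyM] at hpc ⊢
    have hbrd := tb_brd1 hG hm hX hY (S' := S') (i := y.i) k1 hpc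
    have hv := hacc _ k2 (by
      show cond (Nat.beq u.e 0) u.φ 1 = 1
      rw [fwc_beq0 he]
      rfl)
    change HasValue ⟨(cxG 63 11 O u.X u.Y u.e (delB (delB B r) b) b).brd
      (patW A1 S' u.X u.Y y.i (mkW u.X u.Y u.e 8)), false⟩
    rw [hbrd]
    exact hv

/-- an item of phase `0`: White wins -/
theorem tb_itemV {B' : Board} {A2 : Nat} {u : WU} (h : wvOk H A2 z S' u = true) (hbd : BdOk H A2 O R B')
    (hN : ∀ i : ℕ, 0 < i → B' (sqA O z + i • vec 63) = none) (hZ : sqA O z + 1 • vec 63 ∉ R.Z) :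
    HasValue (PB S' O B' u.i) := by
  unfold wvOk at h
  rw [Bool.and_eq_true, Bool.and_eq_true] at h
  obtain ⟨g1, hm, h3⟩ := h
  obtain ⟨hb, -⟩ := fwc_swOk h3
  have d := TW1_base hb
  have hX : 8 ≤ u.X ∧ u.X ≤ 72 := d.hX
  have hY : 8 ≤ u.Y ∧ u.Y + 8 ≤ H := d.hY
  by_cases he : u.e = 0
  · have hM : mkW u.X u.Y u.e 7 = [] := by
      unfold mkW
      rw [TS1_beq.2 he, cond_true]
    have hR : (ctx O B' u.X u.Y).R = u.swD.R := by
      show _ = rsK 63 11 u.e
      unfold rsK
      rw [TS1_beq.2 he, cond_true]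
      rfl
    have hbrd : (ctx O B' u.X u.Y).brd (patW A2 S' u.X u.Y u.i (mkW u.X u.Y u.e 7)) =
        stB B' O (nthP S' u.i) := by
      have hp := d.pcs
      change pcsOkW A2 u.X u.Y (catP (mkW u.X u.Y u.e 7) (nthP S' u.i)) = true at hp
      rw [hM] at hp ⊢
      exact MN_brd hbd.fits hX hY hp g1
    have key := sw0_hasValue (x := u.swD) h3 (R := R) rfl rfl (ctx_ok hbd.fits.noK u.X u.Y) hR
      (MN_sep hbd.reg hX hY) (fun E hE => by cases hE) (MN_G hbd.reg hbd.G hX hY _)
    unfold PB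
    rw [← hbrd]
    exact key
  · rw [fwc_beq0 he, Bool.false_or] at hm
    have hok := tb_ok0 hbd.fits.noK hN hm hX hY.1
    have hsep : R.Sep (cxG 63 11 O u.X u.Y u.e B' (sqA O z + 1 • vec 63)) :=
      tb_sep hbd.reg hX hY hZ
    have key := sw0_hasValue (x := u.swD) h3
      (R := R) rfl rfl hok (feb_rs he).symm hsep (fun E hE => by cases hE)
      (tb_G hbd.G hsep _)
    have hbrd := brdK0 hbd hok hX hY (S := S') (i := u.i) g1 (mkOk_iff hm).1 d.pcs
    unfold PB
    rw [← hbrd]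
    exact key

theorem wdOk_wv {A2 : Nat} {u : WU} (h : wdOk H A2 z S' u = true) : wvOk H A2 z S' u = true := by
  unfold wdOk at h
  unfold wvOk
  rw [Bool.and_eq_true, Bool.and_eq_true, Bool.and_eq_true] at h
  rw [Bool.and_eq_true, Bool.and_eq_true, Bool.or_eq_true]
  exact ⟨h.1, Or.inr h.2.2.1, h.2.2.2⟩

/-- an item of phase `0` with a ray: White wins -/
theorem tb_item0 {r : Sq} {u : WU} (h : wdOk H A' z S' u = true)
    (hN : TbN H A A' z n O R r B) : HasValue (PB S' O (delB B r) u.i) := by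
  refine tb_itemV (wdOk_wv h) hN.bd' (fun i hi => ?_) hN.farZ
  unfold delB
  split_ifs
  · rfl
  · exact hN.ray i hi

/-- meaning of the items for the squares of the bishop -/
theorem WSp.hv {A2 i : Nat} {m : Nat} (h : WSp H A2 z S' i m) {B1 : Board} {t : Nat} (ht : t < m)
    (hB : B1 (sqA O (z - 79 * (t + 1))) = some (false, Kind.bishop))
    (hbd : BdOk H A2 O R (delB B1 (sqA O (z - 79 * (t + 1)))))
    (hN : ∀ i : ℕ, 0 < i → B1 (sqA O z + i • vec 63) = none) (hZ : sqA O z + 1 • vec 63 ∉ R.Z) :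
    HasValue (PB S' O B1 i) := by
  induction h with
  | nil => omega
  | @cons s _ u e hg ih =>
    rcases Nat.lt_succ_iff_lt_or_eq.1 ht with h1 | rfl
    · exact ih h1
    · have h2 := tb_itemV hg hbd (fun i hi => by
        unfold delB
        split_ifs
        · rfl
        · exact hN i hi) hZ
      have h3 : PB S' O (delB B1 (sqA O (z - 79 * (t + 1)))) u.i = PB S' O B1 i := by
        unfold PB
        rw [e]
        exact congrArg (fun b => (⟨b, false⟩ : Pos)) (tb_stBb rfl hB _)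
      rw [← h3]
      exact h2

/-- an item of phase `0`, with the squares of the bishop -/
theorem tb_itemW {r : Sq} {u : WU} {m : Nat} (hm : m ≤ n) (h : wvOk H (arSe A' z m) z S' u = true)
    (hs : WSp H (arSe A' z m) z S' u.i m)
    (hN : TbN H A A' z n O R r B) : HasValue (PB S' O (delB B r) u.i) := by
  have hray : ∀ i : ℕ, 0 < i → delB B r (sqA O z + i • vec 63) = none := by
    intro i hi
    unfold delB
    split_ifs
    · rfl
    · exact hN.ray i hi
  rcases hN.split m hm with h1 | ⟨t, ht, h2, h3, h4, h5⟩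
  · exact tb_itemV h ⟨h1, hN.bd'.reg, hN.bd'.G⟩ hray hN.farZ
  · refine hs.hv ht (B1 := delB B r) ?_ ⟨h5, hN.bd'.reg, ?_⟩ hray hN.farZ
    · unfold delB
      rw [if_neg h3]
      exact h2
    · refine R.dep (delB B r) _ (fun s hs => ?_) hN.bd'.G
      show delB B r s = if s = sqA O (z - 79 * (t + 1)) then none else delB B r s
      rw [if_neg]
      rintro rfl
      exact h4 hs

/-- an item of phase `1`, lower bound -/
theorem tb_item1L {r : Sq} {acc : List Mo} {u : WL} (hφ : u.φ = 1)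
    (h : wlOkK H A1 63 11 z S' acc u (patW A1 S' u.X u.Y u.i (u.swK 63 11).M)
      (kOf u.X u.Y (nthP S' u.i)) = true)
    (hG : TbG H A A' A1 O R r (sqA O z) B b) (hm : u.e ≠ 0 → mkOk z u.X u.Y u.e = true)
    {β : Ordinal.{0}} (hacc : ∀ m ∈ acc, m.k = 1 → GE (PB S' O (delB B r) m.j) β) :
    GE (PB S' O (delB B r) u.i) β := by
  have hacc' : ∀ m ∈ acc, m.k = u.φ → GE (PB S' O (delB B r) m.j) β := by
    rw [hφ]
    exact hacc
  by_cases he : u.e = 0
  · exact (feb_item0 h he hG.bd1 hacc').1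
  have hk := feb_kd h (Or.inr (by omega))
  have hM : (u.swK 63 11).M = mkW u.X u.Y u.e 8 := by
    show mkW u.X u.Y u.e (cond (Nat.beq u.φ 0) 7 8) = _
    rw [hφ]
    rfl
  have hbase := feb_base h
  have hX : 8 ≤ u.X ∧ u.X ≤ 72 := hbase.hX
  have hY : 8 ≤ u.Y ∧ u.Y + 8 ≤ H := hbase.hY
  have hok := tb_ok1 hG (hm he) hX hY.1
  have hsep : R.Sep (cxG 63 11 O u.X u.Y u.e (delB (delB B r) b) b) :=
    tb_sep hG.bd.reg hX hY hG.bZ
  refine (feb_item h hk hacc' hok (feb_rs he).symm hsep (tb_G (tb_G1 hG) hsep _) ?_).1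
  intro j hj hp _
  rw [hM] at hp ⊢
  exact tb_brd1 hG (hm he) hX hY hj hp

theorem tb_line {h w c d : Sq} (hc : c.1 - h.1 = c.2 - h.2) (hd : d.1 - h.1 = d.2 - h.2)
    (hb : BetwI w c d) (hl : OrthI w c ∨ DiagI w c) : w.1 - h.1 = w.2 - h.2 := by
  obtain ⟨b1, b2, b3, b4, b5⟩ := hb
  rcases hl with (⟨h1, h2⟩ | ⟨h1, h2⟩) | ⟨h1, h2⟩
  · omega
  · omega
  · rcases b5 with (⟨h3, h4⟩ | ⟨h3, h4⟩) | h3 <;> omega

theorem tb_v63 : vec 63 = (1, 1) := by decide

/-- no White piece other than the king goes to the north east of `h` -/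
theorem tb_far {r h : Sq} (hG : TbG H A A' A1 O R r h B b) {L : List Pc}
    (hL : ∀ q ∈ L, (9 ≤ q.c ∧ q.c ≤ 13) ∨ q.c = 6) (hA : ∀ q ∈ L, delB B r (tsq O q.x q.y) = none)
    {D : Board} {y z : Sq} {n m l : ℕ} {w : Sq} (hm : D.move y z = stB (delB B r) O L) (hyz : y ≠ z)
    (hz : D z = none) (hy : KingAt D y) (hn : h = y + n • vec 63) (hbm : b = y + m • vec 63)
    (hcl : ∀ q : ℕ, 0 < q → q < m → D (y + q • vec 63) = none) (hn0 : 0 < n) (hl : 0 < l)
    (hlm : n + l ≤ m) (hw : w ≠ y) : ¬ CanGo D true w (y + (n + l) • vec 63) := by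
  have hch : y + (n + l) • vec 63 = h + l • vec 63 := by
    rw [hn, add_assoc, ← add_smul]
  rintro ⟨⟨col, κ⟩, hw1, hw2, hgo⟩
  simp only at hw2
  subst hw2
  have hκ : κ ≠ Kind.king := by
    rintro rfl
    exact hw (hy.2 w hw1)
  have hwz : w ≠ z := by
    rintro rfl
    rw [hz] at hw1
    cases hw1
  have hD : ∀ s, s ≠ y → s ≠ z → D s = stB (delB B r) O L s := by
    intro s h1 h2
    rw [← hm]
    unfold Board.move
    rw [if_neg h1, if_neg h2]
  have hDz : stB (delB B r) O L z = some (true, Kind.king) := by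
    rw [← hm]
    unfold Board.move
    rw [if_neg hyz.symm, if_pos rfl, hy.1]
  have hBw : B w = some (true, κ) := by
    have h1 := hD w hw hwz
    rw [hw1] at h1
    rcases fwd_stB (delB B r) O L w with ⟨u, hu, -, h2⟩ | ⟨h2, -⟩
    · rw [← h1] at h2
      exact absurd (fwd_dec_white (hL u hu) h2.symm) hκ
    · rw [← h1] at h2
      unfold delB at h2
      split_ifs at h2
      exact h2.symm
  have hblk : ∀ d, d ≠ r → B d ≠ none → D d ≠ none := by
    intro d hdr hd
    by_cases h1 : d = y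
    · rw [h1, hy.1]
      exact Option.some_ne_none _
    by_cases h2 : d = z
    · exfalso
      subst h2
      rcases fwd_stB (delB B r) O L d with ⟨u, hu, h3, -⟩ | ⟨h3, -⟩
      · have h4 := hA u hu
        rw [h3] at h4
        unfold delB at h4
        rw [if_neg hdr] at h4
        exact hd h4
      · rw [hDz] at h3
        exact (hG.fits.noK d).1 h3.symm
    · rw [hD d h1 h2]
      rcases fwd_stB (delB B r) O L d with ⟨u, hu, -, h3⟩ | ⟨h3, -⟩
      · rw [h3]
        exact fwd_dec_ne (hL u hu)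
      · rw [h3]
        unfold delB
        rw [if_neg hdr]
        exact hd
  have hv := tb_v63
  have hn1 : h.1 = y.1 + n ∧ h.2 = y.2 + n := by
    rw [hn, hv]
    constructor <;> simp
  have hc1 : (y + (n + l) • vec 63).1 = y.1 + (n + l) ∧ (y + (n + l) • vec 63).2 = y.2 + (n + l) := by
    rw [hv]
    constructor <;> simp
  have hgo' : (∀ d, BetwI w (y + (n + l) • vec 63) d → D d = none) →
      (∃ d, BetwI w (y + (n + l) • vec 63) d ∧ D d ≠ none) → False := by
    rintro h2 ⟨d, h3, h4⟩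
    exact h4 (h2 d h3)
  by_cases hdg : w.1 - h.1 = w.2 - h.2
  · -- on the diagonal
    rcases lt_or_ge y.1 w.1 with h1 | h1
    · exfalso
      obtain ⟨k, hk⟩ : ∃ k : ℕ, w.1 = y.1 + k := ⟨(w.1 - y.1).toNat, by omega⟩
      have hwk : w = y + k • vec 63 := by
        rw [hv]
        ext
        · simp [hk]
        · simp
          omega
      have hk0 : 0 < k := by omega
      rcases Nat.lt_trichotomy k m with h2 | h2 | h2
      · rw [hwk, hcl k hk0 h2] at hw1
        cases hw1
      · rw [hwk, h2, ← hbm, hG.occ] at hBw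
        cases hBw
      · obtain ⟨n', hn', hb', hr⟩ := hG.ray
        have h3 : w = h + (k - n) • vec 63 := by
          rw [hwk, hn, add_assoc, ← add_smul]
          congr 2
          omega
        rw [h3, hr (k - n) (by omega) ?_] at hBw
        · cases hBw
        · rintro rfl
          rw [← hb', hG.occ] at hBw
          cases hBw
    · have hy1 : w.1 < y.1 := by
        rcases lt_or_eq_of_le h1 with h2 | h2
        · exact h2
        · exfalso
          apply hw
          ext
          · exact h2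
          · omega
      have hbt : BetwI w (y + (n + l) • vec 63) y := by
        unfold BetwI
        rw [hc1.1, hc1.2]
        refine ⟨?_, ?_, ?_, ?_, Or.inr ?_⟩ <;> omega
      have hslide : ∀ P : Prop, (P ∧ ∀ d, BetwI w (y + (n + l) • vec 63) d → D d = none) → False :=
        fun P hP => hgo' hP.2 ⟨y, hbt, by rw [hy.1]; exact Option.some_ne_none _⟩
      have hsub : ∀ v : Sq, y + (n + l) • vec 63 - w = v → 3 ≤ v.1 ∧ v.1 = v.2 := by
        rintro v rfl
        rw [Prod.fst_sub, Prod.snd_sub, hc1.1, hc1.2]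
        omega
      cases κ with
      | king => exact hκ rfl
      | knight =>
        have h2 : y + (n + l) • vec 63 - w ∈ knightJumps := by
          rcases hgo with ⟨-, hgo⟩ | ⟨-, hgo⟩
          · rw [if_neg (by decide)] at hgo; exact hgo
          · exact hgo
        have h3 : ∀ v ∈ knightJumps, v.1 ≤ 2 := by decide
        have h4 := h3 _ h2
        have h5 := (hsub _ rfl).1
        omega
      | pawn =>
        rcases hgo with ⟨-, hgo⟩ | ⟨-, hgo | hgo⟩
        · rw [if_pos rfl] at hgo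
          have := (hsub _ hgo).1
          simp at this
        · have := (hsub _ hgo).1
          simp at this
        · have := (hsub _ hgo).1
          simp at this
      | queen =>
        have h2 : Slides D (orthDirs ++ diagDirs) w (y + (n + l) • vec 63) := by
          rcases hgo with ⟨-, hgo⟩ | ⟨-, hgo⟩
          · rw [if_neg (by decide)] at hgo; exact hgo
          · exact hgo
        rw [slides_all] at h2
        exact hslide _ h2
      | rook =>
        have h2 : Slides D orthDirs w (y + (n + l) • vec 63) := by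
          rcases hgo with ⟨-, hgo⟩ | ⟨-, hgo⟩
          · rw [if_neg (by decide)] at hgo; exact hgo
          · exact hgo
        rw [slides_orth] at h2
        exact hslide _ h2
      | bishop =>
        have h2 : Slides D diagDirs w (y + (n + l) • vec 63) := by
          rcases hgo with ⟨-, hgo⟩ | ⟨-, hgo⟩
          · rw [if_neg (by decide)] at hgo; exact hgo
          · exact hgo
        rw [slides_diag] at h2
        exact hslide _ h2
  · -- off the diagonal
    have hst := hG.white w κ hBw hdg l hl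
    rw [← hch] at hst
    have hr1 : r.1 - h.1 = r.2 - h.2 := by
      rw [hG.rh, hv]
      simp
    have hbl : (OrthI w (y + (n + l) • vec 63) ∨ DiagI w (y + (n + l) • vec 63)) →
        (∃ d, BetwI w (y + (n + l) • vec 63) d ∧ B d ≠ none) →
        ∃ d, BetwI w (y + (n + l) • vec 63) d ∧ D d ≠ none := by
      rintro h1 ⟨d, h2, h3⟩
      refine ⟨d, h2, hblk d ?_ h3⟩
      rintro rfl
      exact hdg (tb_line (by rw [hc1.1, hc1.2]; omega) hr1 h2 h1)
    cases κ with
    | king => exact hst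
    | knight =>
      rcases hgo with ⟨-, hgo⟩ | ⟨-, hgo⟩
      · rw [if_neg (by decide)] at hgo; exact hst hgo
      · exact hst hgo
    | pawn =>
      rcases hgo with ⟨-, hgo⟩ | ⟨-, hgo | hgo⟩
      · rw [if_pos rfl] at hgo
        exact hst.1 hgo
      · exact hst.2.1 hgo
      · exact hst.2.2 hgo
    | queen =>
      have h2 : Slides D (orthDirs ++ diagDirs) w (y + (n + l) • vec 63) := by
        rcases hgo with ⟨-, hgo⟩ | ⟨-, hgo⟩
        · rw [if_neg (by decide)] at hgo; exact hgo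
        · exact hgo
      rw [slides_all] at h2
      exact hgo' h2.2 (hbl h2.1 (hst h2.1))
    | rook =>
      have h2 : Slides D orthDirs w (y + (n + l) • vec 63) := by
        rcases hgo with ⟨-, hgo⟩ | ⟨-, hgo⟩
        · rw [if_neg (by decide)] at hgo; exact hgo
        · exact hgo
      rw [slides_orth] at h2
      exact hgo' h2.2 (hbl (Or.inl h2.1) (hst h2.1))
    | bishop =>
      have h2 : Slides D diagDirs w (y + (n + l) • vec 63) := by
        rcases hgo with ⟨-, hgo⟩ | ⟨-, hgo⟩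
        · rw [if_neg (by decide)] at hgo; exact hgo
        · exact hgo
      rw [slides_diag] at h2
      exact hgo' h2.2 (hbl (Or.inr h2.1) (hst h2.1))

theorem tb_v23 : vec 23 = (1, -1) := by decide

/-- no White piece to the south east of `h` goes to `h` -/
theorem tb_farS {r h : Sq} (hG : TbG H A A' A1 O R r h B b) {L : List Pc}
    (hL : ∀ q ∈ L, (9 ≤ q.c ∧ q.c ≤ 13) ∨ q.c = 6) (hA : ∀ q ∈ L, delB B r (tsq O q.x q.y) = none)
    {D : Board} {y z : Sq} {q : ℕ} (hm : D.move y z = stB (delB B r) O L) (hyz : y ≠ z)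
    (hz : D z = none) (hy : KingAt D y) (hq : 0 < q) (hw : h + q • vec 23 ≠ y) :
    ¬ CanGo D true (h + q • vec 23) h := by
  obtain ⟨w, hwe⟩ : ∃ w, w = h + q • vec 23 := ⟨_, rfl⟩
  rw [← hwe] at hw ⊢
  rintro ⟨⟨col, κ⟩, hw1, hw2, hgo⟩
  simp only at hw2
  subst hw2
  have hκ : κ ≠ Kind.king := by
    rintro rfl
    exact hw (hy.2 w hw1)
  have hwz : w ≠ z := by
    rintro rfl
    rw [hz] at hw1
    cases hw1
  have hD : ∀ s, s ≠ y → s ≠ z → D s = stB (delB B r) O L s := by
    intro s h1 h2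
    rw [← hm]
    unfold Board.move
    rw [if_neg h1, if_neg h2]
  have hDz : stB (delB B r) O L z = some (true, Kind.king) := by
    rw [← hm]
    unfold Board.move
    rw [if_neg hyz.symm, if_pos rfl, hy.1]
  have hBw : B w = some (true, κ) := by
    have h1 := hD w hw hwz
    rw [hw1] at h1
    rcases fwd_stB (delB B r) O L w with ⟨u, hu, -, h2⟩ | ⟨h2, -⟩
    · rw [← h1] at h2
      exact absurd (fwd_dec_white (hL u hu) h2.symm) hκ
    · rw [← h1] at h2
      unfold delB at h2
      split_ifs at h2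
      exact h2.symm
  have hblk : ∀ d, d ≠ r → B d ≠ none → D d ≠ none := by
    intro d hdr hd
    by_cases h1 : d = y
    · rw [h1, hy.1]
      exact Option.some_ne_none _
    by_cases h2 : d = z
    · exfalso
      subst h2
      rcases fwd_stB (delB B r) O L d with ⟨u, hu, h3, -⟩ | ⟨h3, -⟩
      · have h4 := hA u hu
        rw [h3] at h4
        unfold delB at h4
        rw [if_neg hdr] at h4
        exact hd h4
      · rw [hDz] at h3
        exact (hG.fits.noK d).1 h3.symm
    · rw [hD d h1 h2]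
      rcases fwd_stB (delB B r) O L d with ⟨u, hu, -, h3⟩ | ⟨h3, -⟩
      · rw [h3]
        exact fwd_dec_ne (hL u hu)
      · rw [h3]
        unfold delB
        rw [if_neg hdr]
        exact hd
  have hw' : w.1 = h.1 + q ∧ w.2 = h.2 - q := by
    rw [hwe, tb_v23]
    constructor
    · simp
    · simp [sub_eq_add_neg]
  have hr' : r.1 = h.1 - 1 ∧ r.2 = h.2 - 1 := by
    rw [hG.rh, tb_v63]
    constructor <;> simp
  have hbw : ∀ d, BetwI w h d → d ≠ r := by
    rintro d ⟨b1, b2, b3, b4, -⟩ rfl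
    omega
  have hgo' : (∀ d, BetwI w h d → D d = none) → (∃ d, BetwI w h d ∧ B d ≠ none) → False := by
    rintro h2 ⟨d, h3, h4⟩
    exact hblk d (hbw d h3) h4 (h2 d h3)
  have hst := hG.whiteS w κ hBw q hq hwe
  cases κ with
  | king => exact hst
  | knight =>
    rcases hgo with ⟨-, hgo⟩ | ⟨-, hgo⟩
    · rw [if_neg (by decide)] at hgo; exact hst hgo
    · exact hst hgo
  | pawn =>
    rcases hgo with ⟨-, hgo⟩ | ⟨-, hgo | hgo⟩
    · rw [if_pos rfl] at hgo
      exact hst.1 hgo
    · exact hst.2.1 hgo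
    · exact hst.2.2 hgo
  | queen =>
    have h2 : Slides D (orthDirs ++ diagDirs) w h := by
      rcases hgo with ⟨-, hgo⟩ | ⟨-, hgo⟩
      · rw [if_neg (by decide)] at hgo; exact hgo
      · exact hgo
    rw [slides_all] at h2
    exact hgo' h2.2 (hst h2.1)
  | rook =>
    have h2 : Slides D orthDirs w h := by
      rcases hgo with ⟨-, hgo⟩ | ⟨-, hgo⟩
      · rw [if_neg (by decide)] at hgo; exact hgo
      · exact hgo
    rw [slides_orth] at h2
    exact hgo' h2.2 (hst h2.1)
  | bishop =>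
    have h2 : Slides D diagDirs w h := by
      rcases hgo with ⟨-, hgo⟩ | ⟨-, hgo⟩
      · rw [if_neg (by decide)] at hgo; exact hgo
      · exact hgo
    rw [slides_diag] at h2
    exact hgo' h2.2 (hst h2.1)

/-- an item in which Black discovers the check by the far bishop -/
theorem tb_itemS {r : Sq} {bcc : List Mo} {u : WL} (h : weOk H A1 z S' bcc u = true)
    (hG : TbG H A A' A1 O R r (sqA O z) B b) {β : Ordinal.{0}}
    (hj : GE (PB S' O (delB B r) u.j₁) β) : ¬ ValLE (PB S' O (delB B r) u.i) β := by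
  unfold weOk at h
  simp only [TS3_ands_cons] at h
  obtain ⟨g1, g2, g3, hm, h5, h6, -, -⟩ := h
  have he : u.e ≠ 0 := by
    intro h
    rw [h] at g3
    cases g3
  have h8 := h5
  unfold mainF at h8
  simp only [TS3_ands_cons] at h8
  obtain ⟨b1, b2, -⟩ := h8
  have d := TW1_base b1
  have hX : 8 ≤ u.X ∧ u.X ≤ 72 := d.hX
  have hY : 8 ≤ u.Y ∧ u.Y + 8 ≤ H := d.hY
  have hok := tb_ok1 hG hm hX hY.1
  have hsep : R.Sep (cxG 63 11 O u.X u.Y u.e (delB (delB B r) b) b) :=
    tb_sep hG.bd.reg hX hY hG.bZ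
  have hbi := tb_brd1 hG hm hX hY (S' := S') (i := u.i) g1 d.pcs
  have hbj := tb_brd1 hG hm hX hY (S' := S') (i := u.j₁) g2 b2
  have hs := mkOk_sq (O := O) hm hX hY.1
  have hcod : ∀ v ∈ nthP S' u.j₁, (9 ≤ v.c ∧ v.c ≤ 13) ∨ v.c = 6 := by
    intro v hv
    have d1 := (TW1_pcs b2 v (TW1_mem_cat.2 (Or.inr hv))).2.1
    have d2 := (TS1_allb _ _).mp h6 v hv
    rw [Bool.or_eq_true, TS1_ble, TS1_beq] at d2
    omega
  have hemp : ∀ v ∈ nthP S' u.j₁, delB B r (tsq O v.x v.y) = none := by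
    intro v hv
    obtain ⟨d1, -, d2⟩ := TW1_pcs b2 v (TW1_mem_cat.2 (Or.inr hv))
    change u.X ≤ v.x + 8 ∧ v.x ≤ u.X + 7 ∧ u.Y ≤ v.y + 8 ∧ v.y ≤ u.Y + 7 at d1
    rw [hG.fits1.cells v.x v.y (by omega) (by omega) (by rw [d2]; decide), d2]
    rfl
  have key := mainF_strict (x := u.swE) h5 hok (feb_rs he).symm R hsep (tb_G (tb_G1 hG) hsep _)
    (ρ := ⟨u.e, 63, 11⟩) (List.mem_singleton.2 rfl) rfl rfl ?_ ?_ (β := β) ?_
  · unfold PB
    rw [← hbi]
    exact key
  · intro D y zz n m l w hmv hyz hz hy hn hbm hcl hn0 hl hlm hw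
    have hff : (cxG 63 11 O u.X u.Y u.e (delB (delB B r) b) b).f u.e = b := if_pos rfl
    refine tb_far hG hcod hemp (hmv.trans hbj) hyz hz hy ?_ (hff.symm.trans hbm) hcl hn0 hl hlm hw
    rw [← hs]
    exact hn
  · intro D y zz q hmv hyz hz hy hq hw
    have hh : sq (cxG 63 11 O u.X u.Y u.e (delB (delB B r) b) b).o u.e = sqA O z := hs
    rw [hh] at hw ⊢
    exact tb_farS hG hcod hemp (hmv.trans hbj) hyz hz hy hq hw
  · unfold PB at hj
    rw [← hbj] at hj
    exact hj

theorem weOk_memb {bcc : List Mo} {u : WL} (h : weOk H A1 z S' bcc u = true) :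
    membM u.j₁ 1 bcc = true := by
  unfold weOk at h
  simp only [TS3_ands_cons] at h
  exact h.2.2.2.2.2.2.1

theorem tb_itemE {r : Sq} {bcc : List Mo} {u : WL} (h : weOk H A1 z S' bcc u = true)
    (hG : TbG H A A' A1 O R r (sqA O z) B b) {β : Ordinal.{0}}
    (hbcc : ∀ m ∈ bcc, m.k = 1 → GE (PB S' O (delB B r) m.j) β) :
    GE (PB S' O (delB B r) u.i) β := fun _ hα =>
  tb_itemS h hG fun γ hγ => hbcc _ (ME2_membM _ (weOk_memb h)) rfl γ (hγ.trans hα)

/-- the fork of a loop -/
theorem tb_fork {r : Sq} {v : WL} (hG : TbG H A A' A1 O R r (sqA O z) B b)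
    (g3 : noMk (nthP S' v.i) = true) (g4 : noMk (nthP S' v.j₁) = true)
    (g5 : noMk (nthP S' v.j₂) = true) (hm : v.e ≠ 0 → mkOk z v.X v.Y v.e = true)
    (h : mainW2 H A1 S' v.i v.swE (patW A1 S' v.X v.Y v.i (mkW v.X v.Y v.e 8))
      (kOf v.X v.Y (nthP S' v.i)) v.a v.b v.s v.k₁ v.j₁ v.k₂ v.j₂ (mkW v.X v.Y v.e 8) = true)
    {β : Ordinal.{0}} (h1 : GE (PB S' O (delB B r) v.j₁) β) (h2 : GE (PB S' O (delB B r) v.j₂) β) :
    GE (PB S' O (delB B r) v.i) β := by
  have h' := h
  unfold mainW2 at h'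
  simp only [TS3_ands_cons] at h'
  obtain ⟨b1, b2, b3, -⟩ := h'
  have d := TW1_base b1
  have hX : 8 ≤ v.X ∧ v.X ≤ 72 := d.hX
  have hY : 8 ≤ v.Y ∧ v.Y + 8 ≤ H := d.hY
  by_cases he : v.e = 0
  · have hM : mkW v.X v.Y v.e 8 = [] := by
      unfold mkW
      rw [TS1_beq.2 he, cond_true]
    have hC : (ctx O (delB B r) v.X v.Y).Ok := ctx_ok hG.bd1.fits.noK v.X v.Y
    have hR : (ctx O (delB B r) v.X v.Y).R = v.swE.R := by
      show _ = rsK 63 11 v.e
      unfold rsK
      rw [TS1_beq.2 he, cond_true]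
      rfl
    have hbrd : ∀ j, noMk (nthP S' j) = true →
        pcsOkW A1 v.X v.Y (catP (mkW v.X v.Y v.e 8) (nthP S' j)) = true →
        (ctx O (delB B r) v.X v.Y).brd (patW A1 S' v.X v.Y j (mkW v.X v.Y v.e 8)) =
          stB (delB B r) O (nthP S' j) := by
      intro j hj hp
      rw [hM] at hp ⊢
      exact MN_brd hG.bd1.fits hX hY hp hj
    have key := mainW2_ge (x := v.swE) h hC hR R (MN_sep hG.bd1.reg hX hY)
      (MN_G hG.bd1.reg hG.bd1.G hX hY _) (β := β) ?_ ?_
    · unfold PB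
      rw [← hbrd v.i g3 d.pcs]
      exact key
    · unfold PB at h1
      rw [← hbrd v.j₁ g4 b2] at h1
      exact h1
    · unfold PB at h2
      rw [← hbrd v.j₂ g5 b3] at h2
      exact h2
  · have hok := tb_ok1 hG (hm he) hX hY.1
    have hsep : R.Sep (cxG 63 11 O v.X v.Y v.e (delB (delB B r) b) b) :=
      tb_sep hG.bd.reg hX hY hG.bZ
    have key := mainW2_ge (x := v.swE) h hok (feb_rs he).symm R hsep (tb_G (tb_G1 hG) hsep _)
      (β := β) ?_ ?_
    · unfold PB
      rw [← tb_brd1 hG (hm he) hX hY g3 d.pcs]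
      exact key
    · unfold PB at h1
      rw [← tb_brd1 hG (hm he) hX hY g4 b2] at h1
      exact h1
    · unfold PB at h2
      rw [← tb_brd1 hG (hm he) hX hY g5 b3] at h2
      exact h2

/-- a loop -/
theorem tb_loop {r : Sq} {bcc : List Mo} {u v : WL} (h : wloOk H A1 z S' bcc u v = true)
    (hG : TbG H A A' A1 O R r (sqA O z) B b) {β : Ordinal.{0}}
    (hbcc : ∀ m ∈ bcc, m.k = 1 → GE (PB S' O (delB B r) m.j) β) :
    GE (PB S' O (delB B r) u.i) β ∧ GE (PB S' O (delB B r) v.i) β := by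
  unfold wloOk at h
  simp only [TS3_ands_cons] at h
  obtain ⟨g1, g2, g3, g4, g5, g6, g7, g8, g9, -⟩ := h
  have g2 := Nat.eq_of_beq_eq_true g2
  have g6 := Nat.eq_of_beq_eq_true g6
  have hm : v.e ≠ 0 → mkOk z v.X v.Y v.e = true := by
    intro he
    rw [fwc_beq0 he, Bool.false_or] at g7
    exact g7
  have hs : ∀ α, GE (PB S' O (delB B r) v.i) α → ¬ ValLE (PB S' O (delB B r) u.i) α := by
    intro α hα
    rw [← g2] at hα
    exact tb_itemS g1 hG hα
  have key : ∀ α ≤ β, GE (PB S' O (delB B r) u.i) α ∧ GE (PB S' O (delB B r) v.i) α := by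
    intro α
    induction α using WellFoundedLT.induction with
    | _ α ih =>
      intro hα
      have h1 : GE (PB S' O (delB B r) u.i) α := fun γ hγ => hs γ (ih γ hγ (hγ.le.trans hα)).2
      refine ⟨h1, tb_fork hG g3 g4 g5 hm g8 ?_ ?_⟩
      · exact fun γ hγ => hbcc _ (ME2_membM _ g9) rfl γ (hγ.trans_le hα)
      · rw [g6]
        exact h1
  exact key β le_rfl

/-! ### Groups -/

theorem tb_grpA {acc : List Mo} {L : List WU} (h : grpKU H A 63 11 S acc L = true)
    (hp : allb (fun u => Nat.beq u.e 0) L = true) (hB : BdOk H A O R B) (φ : Nat)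
    (hacc : ∀ m ∈ acc, m.k = φ → HasValue (PB S O B m.j)) :
    ∀ m ∈ keysWU L acc, m.k = φ → HasValue (PB S O B m.j) := by
  rw [TS1_allb] at hp
  induction L with
  | nil => exact hacc
  | cons u L ih =>
    obtain ⟨h2, h3⟩ := fea_grp h
    have ih' := ih h3 (fun u hu => hp u (List.mem_cons_of_mem _ hu))
    have hk : keysWU (u :: L) acc = ⟨u.i, u.φ⟩ :: keysWU L acc := rfl
    rw [hk]
    intro m hm hmk
    rcases List.mem_cons.1 hm with rfl | hm
    · exact fea_item0 (Nat.eq_of_beq_eq_true (hp u List.mem_cons_self)) h2 hB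
        (fun m hm hmk' => ih' m hm (hmk'.trans hmk))
    · exact ih' m hm hmk

theorem tb_grpB1 {r : Sq} {bcc : List Mo} {L : List WU} (h : grpKU H A1 63 11 S' bcc L = true)
    (hp : wpB z L = true) (hG : TbG H A A' A1 O R r (sqA O z) B b)
    (hacc : ∀ m ∈ bcc, m.k = 1 → HasValue (PB S' O (delB B r) m.j)) :
    ∀ m ∈ keysWU L bcc, m.k = 1 → HasValue (PB S' O (delB B r) m.j) := by
  unfold wpB at hp
  rw [TS1_allb] at hp
  induction L with
  | nil => exact hacc
  | cons u L ih =>
    obtain ⟨h2, h3⟩ := fea_grp h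
    have ih' := ih h3 (fun u hu => hp u (List.mem_cons_of_mem _ hu))
    have hk : keysWU (u :: L) bcc = ⟨u.i, u.φ⟩ :: keysWU L bcc := rfl
    rw [hk]
    intro m hm hmk
    rcases List.mem_cons.1 hm with rfl | hm
    · simp only at hmk ⊢
      by_cases he : u.e = 0
      · exact fea_item0 he h2 hG.bd1 (fun m hm hmk' => ih' m hm (hmk'.trans hmk))
      · have h5 := hp u List.mem_cons_self
        rw [Bool.and_eq_true, fwc_beq0 he, Bool.false_or] at h5
        exact tb_item1 he hmk h2 hG h5.2 ih'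
    · exact ih' m hm hmk

theorem tb_grpB0 {bcc : List Mo} {L : List WU} (hp : wpB z L = true) {P : Nat → Prop}
    (hacc : ∀ m ∈ bcc, m.k = 0 → P m.j) : ∀ m ∈ keysWU L bcc, m.k = 0 → P m.j := by
  unfold wpB at hp
  rw [TS1_allb] at hp
  induction L with
  | nil => exact hacc
  | cons u L ih =>
    have ih' := ih (fun u hu => hp u (List.mem_cons_of_mem _ hu))
    have hk : keysWU (u :: L) bcc = ⟨u.i, u.φ⟩ :: keysWU L bcc := rfl
    rw [hk]
    intro m hm hmk
    rcases List.mem_cons.1 hm with rfl | hm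
    · exfalso
      have h5 := hp u List.mem_cons_self
      rw [Bool.and_eq_true, TS1_beq] at h5
      have h6 : u.φ = 0 := hmk
      omega
    · exact ih' m hm hmk

theorem tb_grpAL {acc : List Mo} {L : List WL} (h : grpKL H A 63 11 z S acc L = true)
    (hp : allb (fun u => Nat.beq u.e 0) L = true) (hB : BdOk H A O R B) {β : Ordinal.{0}}
    (hacc : ∀ m ∈ acc, m.k = 1 → GE (PB S O B m.j) β) :
    ∀ m ∈ keysWL L acc, m.k = 1 → GE (PB S O B m.j) β := by
  rw [TS1_allb] at hp
  induction L with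
  | nil => exact hacc
  | cons u L ih =>
    obtain ⟨h2, h3⟩ := feb_grp h
    have ih' := ih h3 (fun u hu => hp u (List.mem_cons_of_mem _ hu))
    have hk : keysWL (u :: L) acc = ⟨u.i, u.φ⟩ :: keysWL L acc := rfl
    rw [hk]
    intro m hm hmk
    rcases List.mem_cons.1 hm with rfl | hm
    · exact (feb_item0 h2 (Nat.eq_of_beq_eq_true (hp u List.mem_cons_self)) hB
        (fun m hm hmk' => ih' m hm (hmk'.trans hmk))).1
    · exact ih' m hm hmk

theorem tb_grpBL {r : Sq} {bcc : List Mo} {L : List WL} (h : grpKL H A1 63 11 z S' bcc L = true)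
    (hp : wpBL z L = true) (hG : TbG H A A' A1 O R r (sqA O z) B b) {β : Ordinal.{0}}
    (hacc : ∀ m ∈ bcc, m.k = 1 → GE (PB S' O (delB B r) m.j) β) :
    ∀ m ∈ keysWL L bcc, m.k = 1 → GE (PB S' O (delB B r) m.j) β := by
  unfold wpBL at hp
  rw [TS1_allb] at hp
  induction L with
  | nil => exact hacc
  | cons u L ih =>
    obtain ⟨h2, h3⟩ := feb_grp h
    have ih' := ih h3 (fun u hu => hp u (List.mem_cons_of_mem _ hu))
    have hk : keysWL (u :: L) bcc = ⟨u.i, u.φ⟩ :: keysWL L bcc := rfl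
    rw [hk]
    intro m hm hmk
    rcases List.mem_cons.1 hm with rfl | hm
    · refine tb_item1L hmk h2 hG (fun he => ?_) ih'
      have h5 := hp u List.mem_cons_self
      rw [Bool.and_eq_true, fwc_beq0 he, Bool.false_or] at h5
      exact h5.2
    · exact ih' m hm hmk

/-! ### Chains -/

/-- the position of a state does not depend on whether the resident is static -/
theorem tb_PB {r : Sq} (hr : tsq O xr yr = r) (hB : B r = some (false, Kind.knight)) {i i' : Nat}
    (e : nthP S' i' = catP (nthP S i) [⟨xr, yr, 10⟩]) : PB S' O (delB B r) i' = PB S O B i := by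
  unfold PB
  rw [e, tb_stB hr hB]

/-- the upper bound, phase `1` -/
theorem BU.hv1 {acc bcc : List Mo} (h : BU H A A' A1 z n xr yr S S' y acc bcc)
    (hG : TbG H A A' A1 O R (tsq O xr yr) (sqA O z) B b) (hy : HasValue (PB S O B y)) :
    (∀ m ∈ acc, m.k = 1 → HasValue (PB S O B m.j)) ∧
      ∀ m ∈ bcc, m.k = 1 → HasValue (PB S' O (delB B (tsq O xr yr)) m.j) := by
  induction h with
  | nil =>
    refine ⟨fun m hm _ => ?_, fun m hm => absurd hm List.not_mem_nil⟩
    rw [List.mem_singleton.1 hm]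
    exact hy
  | A _ L hg hp ih => exact ⟨tb_grpA hg hp hG.bd 1 ih.1, ih.2⟩
  | B _ L hg hp ih => exact ⟨ih.1, tb_grpB1 hg hp hG ih.2⟩
  | C _ L hg hp ih => exact ⟨ih.1, tb_grpA hg hp hG.bd' 1 ih.2⟩
  | S _ i i' φ hm e ih =>
    refine ⟨ih.1, fun m hmem hk => ?_⟩
    rcases List.mem_cons.1 hmem with rfl | hmem
    · rw [tb_PB rfl hG.res e]
      exact ih.1 _ (ME2_membM _ hm) hk
    · exact ih.2 m hmem hk
  | T _ i i' φ hm e ih =>
    refine ⟨fun m hmem hk => ?_, ih.2⟩
    rcases List.mem_cons.1 hmem with rfl | hmem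
    · rw [← tb_PB rfl hG.res e]
      exact ih.2 _ (ME2_membM _ hm) hk
    · exact ih.1 m hmem hk
  | W _ u hg ih =>
    refine ⟨ih.1, fun m hmem hk => ?_⟩
    rcases List.mem_cons.1 hmem with rfl | hmem
    · exact absurd hk (by simp)
    · exact ih.2 m hmem hk
  | V _ m hm u hg hs ih =>
    refine ⟨ih.1, fun m hmem hk => ?_⟩
    rcases List.mem_cons.1 hmem with rfl | hmem
    · exact absurd hk (by simp)
    · exact ih.2 m hmem hk

/-- the upper bound, phase `0` -/
theorem BU.hv0 {acc bcc : List Mo} (h : BU H A A' A1 z n xr yr S S' y acc bcc)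
    (hN : TbN H A A' z n O R (tsq O xr yr) B) :
    (∀ m ∈ acc, m.k = 0 → HasValue (PB S O B m.j)) ∧
      ∀ m ∈ bcc, m.k = 0 → HasValue (PB S' O (delB B (tsq O xr yr)) m.j) := by
  induction h with
  | nil =>
    refine ⟨fun m hm hk => ?_, fun m hm => absurd hm List.not_mem_nil⟩
    rw [List.mem_singleton.1 hm] at hk
    exact absurd hk (by simp)
  | A _ L hg hp ih => exact ⟨tb_grpA hg hp hN.bd 0 ih.1, ih.2⟩
  | B _ L _ hp ih =>
    exact ⟨ih.1, tb_grpB0 (P := fun j => HasValue (PB S' O (delB B (tsq O xr yr)) j)) hp ih.2⟩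
  | C _ L hg hp ih => exact ⟨ih.1, tb_grpA hg hp hN.bd' 0 ih.2⟩
  | S _ i i' φ hm e ih =>
    refine ⟨ih.1, fun m hmem hk => ?_⟩
    rcases List.mem_cons.1 hmem with rfl | hmem
    · rw [tb_PB rfl hN.res e]
      exact ih.1 _ (ME2_membM _ hm) hk
    · exact ih.2 m hmem hk
  | T _ i i' φ hm e ih =>
    refine ⟨fun m hmem hk => ?_, ih.2⟩
    rcases List.mem_cons.1 hmem with rfl | hmem
    · rw [← tb_PB rfl hN.res e]
      exact ih.2 _ (ME2_membM _ hm) hk
    · exact ih.1 m hmem hk
  | W _ u hg ih =>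
    refine ⟨ih.1, fun m hmem hk => ?_⟩
    rcases List.mem_cons.1 hmem with rfl | hmem
    · exact tb_item0 hg hN
    · exact ih.2 m hmem hk
  | V _ m hm u hg hs ih =>
    refine ⟨ih.1, fun m hmem hk => ?_⟩
    rcases List.mem_cons.1 hmem with rfl | hmem
    · exact tb_itemW hm hg hs hN
    · exact ih.2 m hmem hk

/-- the lower bound -/
theorem BL.ge1 {acc bcc : List Mo} (h : BL H A A' A1 z xr yr S S' y acc bcc)
    (hG : TbG H A A' A1 O R (tsq O xr yr) (sqA O z) B b) {β : Ordinal.{0}}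
    (hy : GE (PB S O B y) β) : (∀ m ∈ acc, m.k = 1 → GE (PB S O B m.j) β) ∧
      ∀ m ∈ bcc, m.k = 1 → GE (PB S' O (delB B (tsq O xr yr)) m.j) β := by
  induction h with
  | nil =>
    refine ⟨fun m hm _ => ?_, fun m hm => absurd hm List.not_mem_nil⟩
    rw [List.mem_singleton.1 hm]
    exact hy
  | A _ L hg hp ih => exact ⟨tb_grpAL hg hp hG.bd ih.1, ih.2⟩
  | B _ L hg hp ih => exact ⟨ih.1, tb_grpBL hg hp hG ih.2⟩
  | S _ i i' hm e ih =>
    refine ⟨ih.1, fun m hmem hk => ?_⟩
    rcases List.mem_cons.1 hmem with rfl | hmem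
    · rw [tb_PB rfl hG.res e]
      exact ih.1 _ (ME2_membM _ hm) hk
    · exact ih.2 m hmem hk
  | T _ i i' hm e ih =>
    refine ⟨fun m hmem hk => ?_, ih.2⟩
    rcases List.mem_cons.1 hmem with rfl | hmem
    · rw [← tb_PB rfl hG.res e]
      exact ih.2 _ (ME2_membM _ hm) hk
    · exact ih.1 m hmem hk
  | E _ u hg ih =>
    refine ⟨ih.1, fun m hmem hk => ?_⟩
    rcases List.mem_cons.1 hmem with rfl | hmem
    · exact tb_itemE hg hG ih.2
    · exact ih.2 m hmem hk
  | L _ u v hg ih =>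
    obtain ⟨h1, h2⟩ := tb_loop hg hG ih.2
    refine ⟨ih.1, fun m hmem hk => ?_⟩
    rcases List.mem_cons.1 hmem with rfl | hmem
    · exact h1
    · rcases List.mem_cons.1 hmem with rfl | hmem
      · exact h2
      · exact ih.2 m hmem hk

/-- **`Tb`, upper bound**: the bishop stands on the ray. -/
theorem TbC.up1 (h : TbC H A A' A1 z n xr yr S S' x y)
    (hG : TbG H A A' A1 O R (tsq O xr yr) (sqA O z) B b) (hy : HasValue (PB S O B y)) :
    HasValue (PB S O B x) := by
  obtain ⟨acc, bcc, h1, -, h2⟩ := h.up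
  exact (h1.hv1 hG hy).1 _ (ME2_membM _ h2) rfl

/-- **`Tb`, upper bound**: the bishop does not stand on the ray. -/
theorem TbC.up0 (h : TbC H A A' A1 z n xr yr S S' x y)
    (hN : TbN H A A' z n O R (tsq O xr yr) B) : HasValue (PB S O B x) := by
  obtain ⟨acc, bcc, h1, h2, -⟩ := h.up
  exact (h1.hv0 hN).1 _ (ME2_membM _ h2) rfl

/-- **`Tb`, lower bound.** -/
theorem TbC.low1 (h : TbC H A A' A1 z n xr yr S S' x y)
    (hG : TbG H A A' A1 O R (tsq O xr yr) (sqA O z) B b) {β : Ordinal.{0}}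
    (hy : GE (PB S O B y) β) : ¬ ValLE (PB S O B x) β := by
  obtain ⟨acc, bcc, h1, u, h2, h3, h4, h5, h6⟩ := h.low
  rw [← h5]
  refine wlK_strict h6 h2 h3 hG.bd ?_
  rw [h4]
  exact (h1.ge1 hG hy).1

end

end Pool.Agent.Lib.H32C.Loc
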