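import Pool.Agent.Lib.H32C.FoA
import Pool.Agent.Lib.H32C.TbA

/-!
# The service `Tb`: the array without the resident, and the far pieces
-/

set_option autoImplicit false

namespace Pool.Agent.Lib.H32C.Loc

/-- the array without the resident on the cell `z - 81`, and with a known empty cell `z` -/
def arTb (A z : Nat) : Nat :=
  Nat.xor (Nat.xor A (Nat.shiftLeft 10 (Nat.mul 4 (Nat.sub z 81)))) (Nat.shiftLeft 15 (Nat.mul 4 z))

/-- the cells `z + 81`, `z + 162`, ... are not specified -/
def ne15 (A z : Nat) (n : Nat) : Bool :=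
  Nat.rec true (fun i ih => ih && Nat.beq (cell A (Nat.add z (Nat.mul 81 (Nat.add i 1)))) 15) n

/-- the check of the arrays of `Tb`; the home of the bishop is on the cell `z` -/
def tbAr (H A A' z : Nat) : Bool :=
  ands [Nat.beq A' (arTb A z), Nat.beq (cell A z) 15, Nat.beq (cell A (Nat.sub z 81)) 10, inA2 H z,
    inA2 H (Nat.sub z 81), ne15 A z (Nat.sub 80 (Nat.mod z 80))]

/-- the cells `z - 79`, `z - 158`, ... are not specified -/
def se15 (A z : Nat) (n : Nat) : Bool :=
  Nat.rec true (fun i ih => ih && Nat.beq (cell A (Nat.sub z (Nat.mul 79 (Nat.add i 1)))) 15) n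

/-- the check of the array of phase `1` -/
def tbAr1 (A A' A1 z n : Nat) : Bool :=
  ands [Nat.ble n 40, Nat.ble (Nat.add (Nat.mod z 80) n) 79, Nat.ble (Nat.mul 79 n) z, se15 A z n,
    Nat.beq A1 (arSe A' z n)]

/-- **The certificate of `Tb` with its arrays.** -/
structure TbD (H A A' A1 z n : Nat) (S S' : List (List Pc)) (x y : Nat) : Prop where
  ar : tbAr H A A' z = true
  ar1 : tbAr1 A A' A1 z n = true
  cert : TbC H A A' A1 z n ((z - 81) % 80) ((z - 81) / 80) S S' x y

/-- the squares of the bishop when `Tb` is called -/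
def TbDst (G : FGeo) (b : Sq) : Prop :=
  (∃ t : ℕ, 0 < t ∧ b = G.out t) ∨ ∃ t : ℕ, 0 < t ∧ t ≤ G.m ∧ b = G.se t

/-- **Facts about the tile of `Tb`.** -/
structure TbT (G : FGeo) (B0 : Board) (R : Room) (H A z : Nat) (O : Sq) : Prop where
  geo : G.Ok
  wor : FarWorld G B0
  home : sqA O z = G.hb
  hb0 : B0 G.hb = none
  bd : ∀ F, FBase G F → (∀ q, AtHome G F q) → TbDst G F.b → BdOk H A O R (fullB G B0 F)
  zZ : ∀ t : ℕ, 0 < t → G.out t ∉ R.Z
  /-- the squares to the south east of the home are empty -/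
  se : ∀ t : ℕ, 0 < t → t ≤ 40 → B0 (G.se t) = none
  /-- no White piece which does not stand on the diagonal goes to the squares `G.out t` -/
  white : ∀ (a : Sq) (κ : Kind), B0 a = some (true, κ) → a.1 - G.hb.1 ≠ a.2 - G.hb.2 → ∀ t : ℕ, 0 < t →
    WNo B0 κ a (G.out t)
  /-- no White piece to the south east goes to the home -/
  whiteS : ∀ (κ : Kind) (l : ℕ), 0 < l → B0 (G.se l) = some (true, κ) → WNo B0 κ (G.se l) G.hb

section

variable {G : FGeo} {B0 : Board} {R : Room} {H A A' A1 z n : Nat} {O : Sq} {F : Far}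

theorem tbb_cellA (A X Y : Nat) : codeA A X Y = cell A (X + 80 * Y) := rfl

theorem tbb_ne15 {z : Nat} (n : Nat) (h : ne15 A z n = true) : ∀ i < n, cell A (z + 81 * (i + 1)) = 15 := by
  induction n with
  | zero => intro i hi; omega
  | succ n ih =>
    have h1 : ne15 A z (n + 1) = (ne15 A z n && Nat.beq (cell A (Nat.add z (Nat.mul 81 (Nat.add n 1)))) 15) :=
      rfl
    rw [h1, Bool.and_eq_true] at h
    intro i hi
    rcases Nat.lt_succ_iff_lt_or_eq.1 hi with h2 | h2
    · exact ih h.1 i h2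
    · rw [h2]
      exact Nat.eq_of_beq_eq_true h.2

structure TbbAr (H A A' z : Nat) : Prop where
  h81 : 81 ≤ z
  cz : cell A z = 15
  cr : cell A (z - 81) = 10
  iz : inA2 H z = true
  ir : inA2 H (z - 81) = true
  ne : ∀ i < 80 - z % 80, cell A (z + 81 * (i + 1)) = 15
  cells : ∀ j, cell A' j = if j = z ∨ j = z - 81 then 0 else cell A j

theorem tbb_ar (h : tbAr H A A' z = true) : TbbAr H A A' z := by
  unfold tbAr at h
  simp only [TS3_ands_cons] at h
  obtain ⟨h1, h2, h3, h4, h5, h6, -⟩ := h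
  have h1 := Nat.eq_of_beq_eq_true h1
  have h2 := Nat.eq_of_beq_eq_true h2
  have h3 : cell A (z - 81) = 10 := Nat.eq_of_beq_eq_true h3
  have h81 : 81 ≤ z := by
    unfold inA2 at h4
    rw [Bool.and_eq_true, Bool.and_eq_true, Bool.and_eq_true] at h4
    have := Nat.le_of_ble_eq_true h4.2.2.1
    omega
  refine ⟨h81, h2, h3, h4, h5, tbb_ne15 _ h6, ?_⟩
  intro j
  rw [h1]
  unfold arTb
  rw [LA_cell_xor, LA_cell_xor, LA_cell_shl (by norm_num : 10 < 16), LA_cell_shl (by norm_num : 15 < 16)]
  have e1 : Nat.sub z 81 = z - 81 := rfl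
  rw [e1]
  by_cases g1 : j = z
  · have g2 : j ≠ z - 81 := by omega
    rw [if_neg g2, if_pos g1, if_pos (Or.inl g1), g1, h2]
    decide
  · by_cases g2 : j = z - 81
    · rw [if_pos g2, if_neg g1, if_pos (Or.inr g2), g2, h3]
      decide
    · rw [if_neg g2, if_neg g1, if_neg (fun h => h.elim g1 g2)]
      simp

theorem tbb_se15 {z : Nat} (n : Nat) (h : se15 A z n = true) :
    ∀ i < n, cell A (z - 79 * (i + 1)) = 15 := by
  induction n with
  | zero => intro i hi; omega
  | succ n ih =>
    have h1 : se15 A z (n + 1) = (se15 A z n && Nat.beq (cell A (Nat.sub z (Nat.mul 79 (Nat.add n 1)))) 15) :=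
      rfl
    rw [h1, Bool.and_eq_true] at h
    intro i hi
    rcases Nat.lt_succ_iff_lt_or_eq.1 hi with h2 | h2
    · exact ih h.1 i h2
    · rw [h2]
      exact Nat.eq_of_beq_eq_true h.2

theorem tbb_arSe {z : Nat} (n : Nat) (hz : 79 * n ≤ z) (h : ∀ i < n, cell A' (z - 79 * (i + 1)) = 15) :
    (∀ i < n, cell (arSe A' z n) (z - 79 * (i + 1)) = 0) ∧
      ∀ j, (∀ i < n, j ≠ z - 79 * (i + 1)) → cell (arSe A' z n) j = cell A' j := by
  induction n with
  | zero => exact ⟨fun i hi => absurd hi (by omega), fun j _ => rfl⟩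
  | succ n ih =>
    obtain ⟨h1, h2⟩ := ih (by omega) (fun i hi => h i (by omega))
    have h3 : arSe A' z (n + 1) = Nat.xor (arSe A' z n)
      (Nat.shiftLeft 15 (Nat.mul 4 (Nat.sub z (Nat.mul 79 (Nat.add n 1))))) := rfl
    have h4 : Nat.sub z (Nat.mul 79 (Nat.add n 1)) = z - 79 * (n + 1) := rfl
    have h5 : ∀ j, cell (arSe A' z (n + 1)) j = cell (arSe A' z n) j ^^^
        (if j = z - 79 * (n + 1) then 15 else 0) := by
      intro j
      rw [h3, h4, LA_cell_xor, LA_cell_shl (by norm_num : 15 < 16)]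
    constructor
    · intro i hi
      rw [h5]
      by_cases h6 : i = n
      · subst h6
        rw [if_pos rfl, h2 _ (fun k hk => by omega), h i (by omega)]
        decide
      · rw [if_neg (by omega), h1 i (by omega)]
        rfl
    · intro j hj
      rw [h5, if_neg (hj n (by omega)), h2 j (fun i hi => hj i (by omega))]
      simp

/-- meaning of the check of the array of phase `1` -/
structure TbbA1 (A' A1 z n : Nat) : Prop where
  n40 : n ≤ 40
  zn : z % 80 + n ≤ 79
  nz : 79 * n ≤ z
  c15 : ∀ i < n, cell A' (z - 79 * (i + 1)) = 15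
  a1 : A1 = arSe A' z n

theorem tbb_a1 (ha : TbbAr H A A' z) (h : tbAr1 A A' A1 z n = true) : TbbA1 A' A1 z n := by
  unfold tbAr1 at h
  simp only [TS3_ands_cons] at h
  obtain ⟨h1, h2, h3, h4, h5, -⟩ := h
  have h1 := Nat.le_of_ble_eq_true h1
  have h2 : z % 80 + n ≤ 79 := Nat.le_of_ble_eq_true h2
  have h3 : 79 * n ≤ z := Nat.le_of_ble_eq_true h3
  have h4' := tbb_se15 _ h4
  have h81 := ha.h81
  refine ⟨h1, h2, h3, fun i hi => ?_, Nat.eq_of_beq_eq_true h5⟩
  rw [ha.cells, if_neg (by omega)]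
  exact h4' i hi

/-- the squares of the array are distinct -/
theorem tbb_inj {x y x' y' : Nat} (h : tsq O x y = tsq O x' y') : x = x' ∧ y = y' := by
  have h1 := congrArg Prod.fst h
  have h2 := congrArg Prod.snd h
  simp only [tsq] at h1 h2
  omega

theorem tbb_in {j : Nat} (h : inA2 H j = true) : j % 80 < 80 ∧ j / 80 < H := by
  unfold inA2 at h
  rw [Bool.and_eq_true, Bool.and_eq_true, Bool.and_eq_true] at h
  have h1 : j + 160 < 80 * H := by
    have := h.2.2.2
    unfold Nat.blt at this
    exact Nat.le_of_ble_eq_true this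
  omega

theorem tbb_mod {j : Nat} (h : inA2 H j = true) : 2 ≤ j % 80 ∧ j % 80 ≤ 77 ∧ 160 ≤ j := by
  unfold inA2 at h
  rw [Bool.and_eq_true, Bool.and_eq_true, Bool.and_eq_true] at h
  exact ⟨Nat.le_of_ble_eq_true h.1, Nat.le_of_ble_eq_true h.2.1, Nat.le_of_ble_eq_true h.2.2.1⟩

/-- the square of the resident -/
theorem tbb_r (ha : TbbAr H A A' z) (hT : TbT G B0 R H A z O) :
    tsq O ((z - 81) % 80) ((z - 81) / 80) = (G.xD - 1, G.X0 - 2 - G.xD - 1) := by
  obtain ⟨m1, m2, m3⟩ := tbb_mod ha.iz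
  obtain ⟨m4, m5, m6⟩ := tbb_mod ha.ir
  have h := hT.home
  unfold sqA tsq FGeo.hb at h
  have h1 := congrArg Prod.fst h
  have h2 := congrArg Prod.snd h
  simp only at h1 h2
  have h81 := ha.h81
  have e1 : (z - 81) % 80 = z % 80 - 1 ∧ (z - 81) / 80 = z / 80 - 1 := by
    omega
  unfold tsq
  rw [e1.1, e1.2]
  ext
  · simp only
    omega
  · simp only
    omega

theorem tbb_full (hT : TbT G B0 R H A z O) (hq : ∀ q, AtHome G F q) {c : Sq} (hc : G.xD ≤ c.1) :
    fullB G B0 F c = if c = F.b then some (false, Kind.bishop) else B0 c := by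
  have h := foa1_full (B0 := B0) hT.geo hq (b := F.b) (c := c) (Or.inr hc)
  exact h

/-- the square of the resident is not free for far pieces -/
theorem tbb_TbB (ha : TbbAr H A A' z) (hT : TbT G B0 R H A z O) (hF : FBase G F)
    (hq : ∀ q, AtHome G F q) (hb : TbDst G F.b) :
    TbB H A A' O R (tsq O ((z - 81) % 80) ((z - 81) / 80)) (fullB G B0 F) := by
  have hbd := hT.bd F hF hq hb
  obtain ⟨r1, r2⟩ := tbb_in ha.ir
  have hres : fullB G B0 F (tsq O ((z - 81) % 80) ((z - 81) / 80)) = some (false, Kind.knight) := by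
    have hc : codeA A ((z - 81) % 80) ((z - 81) / 80) = 10 := by
      rw [tbb_cellA, Nat.mod_add_div]
      exact ha.cr
    rw [hbd.fits.cells _ _ r1 r2 (by rw [hc]; norm_num), hc]
    rfl
  refine ⟨hbd, ⟨?_, ?_⟩, hres, ?_⟩
  · intro X Y hX hY hc
    have hcell := ha.cells (X + 80 * Y)
    rw [tbb_cellA] at hc
    by_cases g1 : X + 80 * Y = z - 81
    · have g2 : X = (z - 81) % 80 ∧ Y = (z - 81) / 80 := by omega
      rw [tbb_cellA, hcell, if_pos (Or.inr g1)]
      unfold delB
      rw [if_pos (by rw [← g2.1, ← g2.2])]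
      rfl
    · have hne : tsq O X Y ≠ tsq O ((z - 81) % 80) ((z - 81) / 80) := by
        intro h
        obtain ⟨g2, g3⟩ := tbb_inj h
        omega
      unfold delB
      rw [if_neg hne]
      by_cases g2 : X + 80 * Y = z
      · have g3 : tsq O X Y = G.hb := by
          rw [← hT.home]
          unfold sqA
          have e1 : X = z % 80 ∧ Y = z / 80 := by omega
          rw [e1.1, e1.2]
        rw [tbb_cellA, hcell, if_pos (Or.inl g2), g3, tbb_full hT hq le_rfl, if_neg, hT.hb0]
        · rfl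
        · intro h
          rcases hb with ⟨t, ht, h1⟩ | ⟨t, ht, -, h1⟩ <;> rw [h1] at h <;>
            have h2 := congrArg Prod.fst h <;> simp only [FGeo.hb, FGeo.out, FGeo.se] at h2 <;> omega
      · rw [hcell, if_neg (fun h => h.elim g2 g1)] at hc
        rw [hbd.fits.cells X Y hX hY (by rw [tbb_cellA]; exact hc), tbb_cellA, tbb_cellA, hcell,
          if_neg (fun h => h.elim g2 g1)]
  · intro s
    unfold delB
    split_ifs
    · exact nk_none s
    · exact hbd.fits.noK s
  · refine hbd.reg _ ⟨?_, ?_, ?_, ?_⟩ <;> simp only [tsq] <;> omega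

theorem tbb_vec (t : ℕ) : G.hb + t • vec 63 = G.out t := by
  have h : vec 63 = (1, 1) := by decide
  rw [h]
  ext
  · simp [FGeo.hb, FGeo.out]
  · simp [FGeo.hb, FGeo.out]

theorem tbb_out_inj {s t : ℕ} (h : G.out s = G.out t) : s = t := by
  have h1 := congrArg Prod.fst h
  simp only [FGeo.out] at h1
  omega

/-- the square of the cell `z - 79 * t` -/
theorem tbb_seq (h1 : TbbA1 A' A1 z n) (hT : TbT G B0 R H A z O) {i : ℕ} (hi : i < n) :
    sqA O (z - 79 * (i + 1)) = G.se (i + 1) := by
  have hzn := h1.zn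
  have hnz := h1.nz
  have e1 : (z - 79 * (i + 1)) % 80 = z % 80 + (i + 1) ∧ (z - 79 * (i + 1)) / 80 + (i + 1) = z / 80 := by
    omega
  have h0 := hT.home
  unfold sqA tsq FGeo.hb at h0
  have h3 := congrArg Prod.fst h0
  have h4 := congrArg Prod.snd h0
  simp only at h3 h4
  unfold sqA tsq FGeo.se
  ext
  · simp only
    omega
  · simp only
    omega

/-- the array with known empty cells -/
theorem tbb_fitsSe (h1 : TbbA1 A' A1 z n) {m : ℕ} (hm : m ≤ n) {B1 B2 : Board} (hf : FitsH H A' O B1)
    (h2 : ∀ s, (∀ i < m, s ≠ sqA O (z - 79 * (i + 1))) → B2 s = B1 s)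
    (h0 : ∀ i < m, B2 (sqA O (z - 79 * (i + 1))) = none) (hK : ∀ s, NK (B2 s) s) :
    FitsH H (arSe A' z m) O B2 := by
  have hzn := h1.zn
  have hnz := h1.nz
  obtain ⟨a1, a2⟩ := tbb_arSe (A' := A') (z := z) m (by omega) (fun i hi => h1.c15 i (by omega))
  refine ⟨fun X Y hX hY hc => ?_, hK⟩
  rw [tbb_cellA] at hc ⊢
  by_cases hi : ∀ i < m, X + 80 * Y ≠ z - 79 * (i + 1)
  · rw [a2 _ hi] at hc ⊢
    rw [h2 _ (fun i hi2 h => ?_)]
    · exact hf.cells X Y hX hY hc
    · unfold sqA at h
      have h5 := tbb_inj h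
      exact hi i hi2 (by omega)
  · obtain ⟨i, hi2⟩ := not_forall.1 hi
    obtain ⟨hin, hi3⟩ := Classical.not_imp.1 hi2
    have hi4 := not_not.1 hi3
    rw [hi4, a1 i hin]
    have e2 : tsq O X Y = sqA O (z - 79 * (i + 1)) := by
      rw [← hi4]
      unfold sqA
      have e1 : (X + 80 * Y) % 80 = X ∧ (X + 80 * Y) / 80 = Y := by omega
      rw [e1.1, e1.2]
    rw [e2, h0 i hin]
    rfl

theorem tbb_se_inj {s t : ℕ} (h : G.se s = G.se t) : s = t := by
  have h1 := congrArg Prod.fst h
  simp only [FGeo.se] at h1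
  omega

/-- the board of phase `1` fits the array of phase `1` -/
theorem tbb_fits1 (ha : TbbAr H A A' z) (h1 : TbbA1 A' A1 z n) (hT : TbT G B0 R H A z O) (hF : FBase G F)
    (hq : ∀ q, AtHome G F q) {t : ℕ} (ht : 0 < t) (hb : F.b = G.out t) :
    FitsH H A1 O (delB (fullB G B0 F) (tsq O ((z - 81) % 80) ((z - 81) / 80))) := by
  have hB := tbb_TbB ha hT hF hq (Or.inl ⟨t, ht, hb⟩)
  rw [h1.a1]
  refine tbb_fitsSe h1 le_rfl hB.fits (fun s _ => rfl) (fun i hi => ?_) hB.fits.noK
  rw [tbb_seq h1 hT hi]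
  unfold delB
  split_ifs with g1
  · rfl
  · rw [tbb_full hT hq (by simp only [FGeo.se]; omega), if_neg,
      hT.se (i + 1) (by omega) (by have := h1.n40; omega)]
    rw [hb]
    intro h
    have h5 := congrArg Prod.fst h
    have h6 := congrArg Prod.snd h
    simp only [FGeo.out, FGeo.se] at h5 h6
    omega

/-- the bishop stands to the north east -/
theorem tbb_TbG (ha : TbbAr H A A' z) (h1 : TbbA1 A' A1 z n) (hT : TbT G B0 R H A z O) (hF : FBase G F)
    (hq : ∀ q, AtHome G F q) {t : ℕ} (ht : 0 < t) (hb : F.b = G.out t) :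
    TbG H A A' A1 O R (tsq O ((z - 81) % 80) ((z - 81) / 80)) (sqA O z) (fullB G B0 F) (G.out t) where
  toTbB := tbb_TbB ha hT hF hq (Or.inl ⟨t, ht, hb⟩)
  fits1 := tbb_fits1 ha h1 hT hF hq ht hb
  occ := by
    rw [tbb_full hT hq (by simp only [FGeo.out]; omega), if_pos hb.symm]
  ray := by
    refine ⟨t, ht, ?_, fun i hi hne => ?_⟩
    · rw [hT.home, tbb_vec]
    · rw [hT.home, tbb_vec, tbb_full hT hq (by simp only [FGeo.out]; omega), if_neg, hT.wor.zone]
      · left
        have := hT.geo.heD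
        simp only [FGeo.out]
        omega
      · rw [hb]
        exact fun h => hne (tbb_out_inj h)
  far := by
    intro x y hx hy hc h
    obtain ⟨m1, m2, m3⟩ := tbb_mod ha.iz
    have h0 := hT.home
    unfold sqA tsq FGeo.hb at h0
    unfold tsq FGeo.out at h
    have h1' := congrArg Prod.fst h
    have h2 := congrArg Prod.snd h
    have h3 := congrArg Prod.fst h0
    have h4 := congrArg Prod.snd h0
    simp only at h1' h2 h3 h4
    have e1 : x = z % 80 + t ∧ y = z / 80 + t := by omega
    have e2 : x + 80 * y = z + 81 * ((t - 1) + 1) := by omega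
    apply hc
    obtain ⟨-, a2⟩ := tbb_arSe (A' := A') (z := z) n h1.nz h1.c15
    rw [tbb_cellA, h1.a1, a2 _ (fun i _ => by omega), ha.cells, if_neg (by omega), e2]
    exact ha.ne (t - 1) (by omega)
  bZ := hT.zZ t ht
  rh := by
    rw [hT.home, tbb_r ha hT, tb_v63]
    ext
    · simp [FGeo.hb]
    · simp [FGeo.hb]
  white := by
    intro a κ hB hd l hl
    rw [hT.home] at hd ⊢
    rw [tbb_vec]
    have hB0 : B0 a = some (true, κ) := farB_white hB
    have hw := hT.white a κ hB0 hd l hl
    have hne : ∀ d, B0 d ≠ none → fullB G B0 F d ≠ none := by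
      intro d hd h
      rw [fullB_none] at h
      exact hd h.2
    have hbl : (∃ d, BetwI a (G.out l) d ∧ B0 d ≠ none) →
        ∃ d, BetwI a (G.out l) d ∧ fullB G B0 F d ≠ none := fun ⟨d, h1, h2⟩ => ⟨d, h1, hne d h2⟩
    cases κ with
    | king => exact hw
    | knight => exact hw
    | pawn =>
      refine ⟨hw.1, ?_, ?_⟩
      · intro h
        apply hd
        have h1 := congrArg Prod.fst h
        have h2 := congrArg Prod.snd h
        simp only [Prod.fst_sub, Prod.snd_sub, FGeo.out, FGeo.hb] at h1 h2 ⊢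
        omega
      · intro h
        have h1 := congrArg Prod.fst h
        have h2 := congrArg Prod.snd h
        simp only [Prod.fst_sub, Prod.snd_sub, FGeo.out] at h1 h2
        rw [hT.wor.zone a ?_] at hB0
        · cases hB0
        · left
          have := hT.geo.heD
          omega
    | queen => exact fun h => hbl (hw h)
    | rook => exact fun h => hbl (hw h)
    | bishop => exact fun h => hbl (hw h)
  whiteS := by
    intro a κ hB l hl ha
    rw [hT.home] at ha ⊢
    have hv : G.hb + l • vec 23 = G.se l := by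
      rw [tb_v23]
      ext
      · simp [FGeo.hb, FGeo.se]
      · simp [FGeo.hb, FGeo.se, sub_eq_add_neg]
    rw [hv] at ha
    subst ha
    have hB0 : B0 (G.se l) = some (true, κ) := farB_white hB
    have hw := hT.whiteS κ l hl hB0
    have hne : ∀ d, B0 d ≠ none → fullB G B0 F d ≠ none := by
      intro d hd h
      rw [fullB_none] at h
      exact hd h.2
    have hbl : (∃ d, BetwI (G.se l) G.hb d ∧ B0 d ≠ none) →
        ∃ d, BetwI (G.se l) G.hb d ∧ fullB G B0 F d ≠ none := fun ⟨d, h1, h2⟩ => ⟨d, h1, hne d h2⟩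
    cases κ with
    | king => exact hw
    | knight => exact hw
    | pawn =>
      refine ⟨hw.1, ?_, ?_⟩
      · intro h
        have h1 := congrArg Prod.fst h
        have h2 := congrArg Prod.snd h
        simp only [Prod.fst_sub, Prod.snd_sub, FGeo.se, FGeo.hb] at h1 h2
        omega
      · intro h
        have h1 := congrArg Prod.fst h
        simp only [Prod.fst_sub, FGeo.se, FGeo.hb] at h1
        have h2 := hT.se l hl (by omega)
        rw [hB0] at h2
        cases h2
    | queen => exact fun h => hbl (hw h)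
    | rook => exact fun h => hbl (hw h)
    | bishop => exact fun h => hbl (hw h)

/-- there is no piece to the north east -/
theorem tbb_TbN (ha : TbbAr H A A' z) (h1 : TbbA1 A' A1 z n) (hT : TbT G B0 R H A z O) (hF : FBase G F)
    (hq : ∀ q, AtHome G F q) {t : ℕ} (ht : 0 < t) (htm : t ≤ G.m) (hb : F.b = G.se t) :
    TbN H A A' z n O R (tsq O ((z - 81) % 80) ((z - 81) / 80)) (fullB G B0 F) where
  toTbB := tbb_TbB ha hT hF hq (Or.inr ⟨t, ht, htm, hb⟩)
  ray := by
    intro i hi
    rw [hT.home, tbb_vec, tbb_full hT hq (by simp only [FGeo.out]; omega), if_neg, hT.wor.zone]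
    · left
      have := hT.geo.heD
      simp only [FGeo.out]
      omega
    · rw [hb]
      intro h
      have h1 := congrArg Prod.fst h
      have h2 := congrArg Prod.snd h
      simp only [FGeo.out, FGeo.se] at h1 h2
      omega
  farZ := by
    rw [hT.home, tbb_vec]
    exact hT.zZ 1 one_pos
  split := by
    intro m hm
    have hB := tbb_TbB ha hT hF hq (Or.inr ⟨t, ht, htm, hb⟩)
    have hr := tbb_r ha hT
    have hne : ∀ i : ℕ, G.se i ≠ tsq O ((z - 81) % 80) ((z - 81) / 80) := by
      intro i h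
      rw [hr] at h
      have h2 := congrArg Prod.fst h
      simp only [FGeo.se] at h2
      omega
    have hse : ∀ i < m, i + 1 ≠ t → delB (fullB G B0 F) (tsq O ((z - 81) % 80) ((z - 81) / 80))
        (sqA O (z - 79 * (i + 1))) = none := by
      intro i hi hit
      rw [tbb_seq h1 hT (by omega)]
      unfold delB
      split_ifs with g1
      · rfl
      · rw [tbb_full hT hq (by simp only [FGeo.se]; omega), if_neg,
          hT.se (i + 1) (by omega) (by have := h1.n40; omega)]
        rw [hb]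
        exact fun h => hit (tbb_se_inj h)
    by_cases htm' : t ≤ m
    · right
      refine ⟨t - 1, by omega, ?_⟩
      have e1 : sqA O (z - 79 * (t - 1 + 1)) = G.se t := by
        rw [tbb_seq h1 hT (by omega)]
        congr 1
        omega
      rw [e1]
      refine ⟨?_, hne t, ?_, ?_⟩
      · rw [tbb_full hT hq (by simp only [FGeo.se]; omega), if_pos hb.symm]
      · intro hz
        have h2 := h1.zn
        have h3 := h1.nz
        have h4 := tbb_in ha.iz
        rw [← e1] at hz
        refine hB.bd.reg _ ⟨?_, ?_, ?_, ?_⟩ hz <;> simp only [sqA, tsq] <;> omega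
      · refine tbb_fitsSe h1 hm hB.fits (fun s hs => ?_) (fun i hi => ?_) (fun s => ?_)
        · have h2 : s ≠ G.se t := by
            have h3 := hs (t - 1) (by omega)
            rw [e1] at h3
            exact h3
          show (if s = G.se t then none else _) = _
          rw [if_neg h2]
        · show (if sqA O (z - 79 * (i + 1)) = G.se t then none else _) = _
          split_ifs with g1
          · rfl
          · refine hse i hi fun h => g1 ?_
            rw [tbb_seq h1 hT (by omega), h]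
        · show NK (if s = G.se t then none else _) s
          split_ifs
          · exact nk_none s
          · exact hB.fits.noK s
    · left
      exact tbb_fitsSe h1 hm hB.fits (fun s _ => rfl) (fun i hi => hse i hi (by omega)) hB.fits.noK

variable {S S' : List (List Pc)} {x y : Nat}

/-- **`Tb`, upper bound.** -/
theorem TbD.up (h : TbD H A A' A1 z n S S' x y) (hT : TbT G B0 R H A z O) (hF : FBase G F)
    (hq : ∀ q, AtHome G F q) (hb : TbDst G F.b)
    (hex : StepU G Svc.Tb F F → HasValue (PFw G B0 S O F y)) : HasValue (PFw G B0 S O F x) := by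
  have ha := tbb_ar h.ar
  rcases hb with ⟨t, ht, hb⟩ | ⟨t, ht, htm, hb⟩
  · exact h.cert.up1 (tbb_TbG ha (tbb_a1 ha h.ar1) hT hF hq ht hb) (hex ⟨rfl, t, ht, hb⟩)
  · exact h.cert.up0 (tbb_TbN ha (tbb_a1 ha h.ar1) hT hF hq ht htm hb)

/-- **`Tb`, lower bound.** -/
theorem TbD.low (h : TbD H A A' A1 z n S S' x y) (hT : TbT G B0 R H A z O) (hF : FBase G F)
    (hq : ∀ q, AtHome G F q) {F' : Far} (hst : StepL G Svc.Tb F F') {β : Ordinal.{0}}
    (hex : GE (PFw G B0 S O F' y) β) : ¬ ValLE (PFw G B0 S O F x) β := by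
  have ha := tbb_ar h.ar
  obtain ⟨rfl, t, ht, hb⟩ := hst
  exact h.cert.low1 (tbb_TbG ha (tbb_a1 ha h.ar1) hT hF hq ht hb) hex

end

end Pool.Agent.Lib.H32C.Loc
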