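import Pool.Agent.Lib.H32C.TdCL0

/-!
# Tile data: CL (crossing; resident bishop)
-/

set_option autoImplicit false

namespace Pool.Agent.Lib.H32C.Loc

theorem CL_entL : nthP SCL 0 = ent Dir.L := rfl

theorem CL_extL : nthP SCL 86 = ext Dir.L := rfl

theorem CL_entD : nthP SCL 87 = ent Dir.D := rfl

theorem CL_extD : nthP SCL 148 = ext Dir.D := rfl

end Pool.Agent.Lib.H32C.Loc
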