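import Pool.Agent.Lib.H32C.TdCR0

/-!
# Tile data: CR (crossing; resident bishop)
-/

set_option autoImplicit false

namespace Pool.Agent.Lib.H32C.Loc

theorem CR_entR : nthP SCR 0 = ent Dir.R := rfl

theorem CR_extR : nthP SCR 90 = ext Dir.R := rfl

theorem CR_entD : nthP SCR 91 = ent Dir.D := rfl

theorem CR_extD : nthP SCR 150 = ext Dir.D := rfl

end Pool.Agent.Lib.H32C.Loc
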