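import Pool.Agent.Lib.H32C.TdMEM0

/-!
# Tile data: MEM (memory; resident bishop; composite of two tiles; the call line goes up)
-/

set_option autoImplicit false

namespace Pool.Agent.Lib.H32C.Loc

theorem MEM_setIn : nthP SMEM 0 = ent Dir.R := rfl

theorem MEM_setOut : nthP SMEM 105 = (ext Dir.L).map fun q => ⟨q.x + 0, q.y + 64, q.c⟩ := rfl

theorem MEM_retIn : nthP SMEM 106 = (ent Dir.D).map fun q => ⟨q.x + 0, q.y + 64, q.c⟩ := rfl

theorem MEM_retOut : nthP SMEM 235 = ext Dir.R := rfl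

theorem MEM_passOut : nthP SMEM 271 = ext Dir.D := rfl

end Pool.Agent.Lib.H32C.Loc
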