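import Pool.Agent.Lib.H32C.MemChain
import Pool.Agent.Lib.H32C.TdMEM0

/-!
# Part c of the certificate of the tile TdMEM
-/

set_option autoImplicit false

namespace Pool.Agent.Lib.H32C.Loc

/-- accumulated states -/
def uMEMp0 : List Mo := [⟨271, 2382⟩]

/-- items -/
def uMEMpL0 : List NI := [
⟨246, 37, 29, (.cons 210 189 (.exit 0) (.cons 210 189 .nil (.cons 210 189 .nil (.cons 210 189 (.cons 189 169 (.cons 169 148 .nil (.cons 168 190 (.cons 169 148 .nil .nil) .nil)) (.cons 189 169 (.cons 169 148 .nil .nil) .nil)) .nil)))), [247], 0, 0, 0, 0, 0, 0, 0, 0⟩,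
⟨247, 36, 28, (.cons 210 190 (.exit 0) .nil), [248], 0, 0, 0, 0, 0, 0, 0, 0⟩,
⟨248, 36, 27, (.cons 210 189 (.exit 0) (.cons 210 189 .nil (.cons 209 231 (.cons 210 209 (.cons 212 231 .nil .nil) (.cons 210 189 .nil .nil)) .nil))), [249], 0, 0, 0, 0, 0, 0, 0, 0⟩,
⟨249, 35, 26, (.cons 210 190 (.exit 0) .nil), [250], 0, 0, 0, 0, 0, 0, 0, 0⟩,
⟨250, 35, 25, (.cons 210 189 (.exit 0) (.cons 210 189 .nil (.cons 209 231 (.cons 210 209 .nil (.cons 210 189 .nil .nil)) .nil))), [251], 0, 0, 0, 0, 0, 0, 0, 0⟩,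
⟨251, 34, 24, (.cons 210 190 (.exit 0) .nil), [252], 0, 0, 0, 0, 0, 0, 0, 0⟩,
⟨252, 34, 23, (.cons 210 191 (.exit 0) (.cons 250 232 (.cons 210 191 .nil (.cons 210 230 .nil .nil)) (.cons 210 191 .nil (.cons 210 191 (.cons 191 192 (.cons 192 173 .nil .nil) (.cons 191 192 .nil (.cons 191 192 .nil .nil))) .nil)))), [253], 0, 0, 0, 0, 0, 0, 0, 0⟩,
⟨253, 35, 22, (.cons 269 251 .nil (.cons 210 211 (.exit 0) .nil)), [254], 0, 0, 0, 0, 0, 0, 0, 0⟩,
⟨254, 36, 22, (.cons 229 251 .nil (.cons 210 191 (.exit 0) .nil)), [255], 0, 0, 0, 0, 0, 0, 0, 0⟩,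
⟨255, 37, 21, (.cons 210 211 (.exit 0) (.cons 230 249 .nil .nil)), [256], 0, 0, 0, 0, 0, 0, 0, 0⟩,
⟨256, 38, 21, (.cons 210 191 (.cons 190 212 .nil .nil) (.cons 210 191 (.exit 0) (.cons 210 191 (.cons 190 212 .nil .nil) (.cons 190 231 (.cons 210 191 (.cons 191 212 (.cons 213 234 .nil .nil) .nil) (.cons 210 190 (.cons 151 172 .nil (.cons 247 229 .nil .nil)) (.cons 231 249 (.cons 210 231 .nil .nil) .nil))) (.cons 210 191 (.cons 191 192 (.cons 192 173 .nil (.cons 172 213 (.cons 192 173 .nil .nil) .nil)) (.cons 191 212 (.cons 213 234 .nil .nil) .nil)) .nil))))), [257], 0, 0, 0, 0, 0, 0, 0, 0⟩,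
⟨257, 39, 20, (.cons 210 211 (.exit 0) (.cons 210 231 (.cons 232 253 (.cons 209 250 .nil .nil) (.cons 209 250 (.cons 232 253 .nil .nil) .nil)) .nil)), [258], 0, 0, 0, 0, 0, 0, 0, 0⟩,
⟨258, 40, 20, (.cons 210 191 (.exit 0) (.cons 210 191 .nil (.cons 210 191 (.cons 191 171 .nil (.cons 191 171 .nil .nil)) .nil))), [259], 0, 0, 0, 0, 0, 0, 0, 0⟩,
⟨259, 41, 19, (.cons 210 190 (.exit 0) .nil), [260], 0, 0, 0, 0, 0, 0, 0, 0⟩,
⟨260, 41, 18, (.cons 210 189 (.exit 0) .nil), [261], 0, 0, 0, 0, 0, 0, 0, 0⟩,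
⟨261, 40, 17, (.cons 210 190 (.exit 0) (.cons 250 228 (.cons 268 229 .nil .nil) (.cons 210 190 (.cons 190 171 .nil (.cons 190 171 (.cons 170 192 .nil .nil) (.cons 190 171 (.cons 170 192 .nil .nil) (.cons 190 171 .nil .nil)))) .nil))), [262], 0, 0, 0, 0, 0, 0, 0, 0⟩,
⟨262, 40, 16, (.cons 210 191 (.exit 0) (.cons 213 232 (.cons 210 191 .nil (.cons 210 191 .nil (.cons 210 191 (.cons 190 212 .nil .nil) (.cons 210 230 (.cons 288 249 .nil .nil) (.cons 210 191 .nil .nil))))) (.cons 288 249 (.cons 213 232 (.cons 210 191 (.cons 191 212 .nil .nil) (.cons 210 230 (.cons 230 251 .nil .nil) (.cons 210 191 .nil .nil))) (.cons 210 191 .nil (.cons 232 231 (.cons 231 232 (.cons 210 191 .nil .nil) (.cons 210 191 .nil (.cons 190 231 (.cons 213 232 .nil (.cons 210 191 .nil .nil)) (.cons 210 191 (.cons 213 232 .nil (.cons 231 230 .nil .nil)) .nil)))) (.cons 232 231 (.cons 231 232 .nil (.cons 210 191 .nil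 (.cons 190 231 (.cons 213 232 .nil (.cons 210 191 .nil .nil)) .nil))) (.cons 270 229 (.cons 213 232 (.cons 190 231 .nil .nil) (.cons 210 191 .nil (.cons 190 231 (.cons 213 232 .nil (.cons 210 191 .nil .nil)) .nil))) .nil))))) (.cons 210 191 .nil (.cons 210 191 (.cons 213 232 (.cons 190 212 .nil .nil) (.cons 191 171 (.cons 171 150 .nil (.cons 188 189 (.cons 171 190 .nil .nil) (.cons 171 190 (.cons 232 212 .nil (.cons 190 171 .nil .nil)) .nil))) (.cons 191 171 (.cons 171 190 .nil .nil) .nil))) (.cons 210 191 (.cons 213 232 (.cons 190 212 .nil .nil) (.cons 191 171 (.cons 171 150 .nil (.cons 188 189 (.cons 171 190 .nil .nil) (.cons 171 190 (.cons 232 212 .nil (.cons 190 171 .nil .nil)) .nil))) (.cons 191 171 (.cons 171 190 .nil .nil) .nil))) (.cons 210 191 (.cons 213 232 .nil (.cons 191 171 (.cons 171 150 .nil (.cons 211 189 (.cons 171 191 .nil .nil) (.cons 189 190 (.cons 171 150 .nil (.cons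 211 189 .nil .nil)) .nil))) .nil)) .nil))))))), [263], 0, 0, 0, 0, 0, 0, 0, 0⟩,
⟨263, 41, 15, (.cons 232 251 .nil (.cons 210 190 (.exit 0) .nil)), [264], 0, 0, 0, 0, 0, 0, 0, 0⟩,
⟨264, 41, 14, (.cons 210 189 .nil (.cons 229 251 (.cons 210 189 .nil (.cons 250 228 .nil .nil)) (.cons 250 228 (.cons 210 189 .nil (.cons 210 189 .nil (.cons 210 230 .nil .nil))) (.cons 210 189 (.exit 0) (.cons 228 229 (.cons 210 189 .nil (.cons 210 189 (.cons 229 230 .nil (.cons 250 228 .nil .nil)) (.cons 250 228 (.cons 210 189 .nil (.cons 210 189 .nil .nil)) (.cons 210 189 (.cons 229 230 .nil (.cons 250 228 .nil .nil)) .nil)))) .nil))))), [265], 0, 0, 0, 0, 0, 0, 0, 0⟩,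
⟨265, 40, 13, (.cons 210 190 (.exit 0) (.cons 271 249 .nil .nil)), [266], 0, 0, 0, 0, 0, 0, 0, 0⟩,
⟨266, 40, 12, (.cons 210 191 (.exit 0) (.cons 269 249 (.cons 210 191 .nil (.cons 190 231 (.cons 210 191 .nil .nil) .nil)) (.cons 210 191 .nil (.cons 190 231 (.cons 253 251 (.cons 210 191 .nil .nil) (.cons 231 249 (.cons 210 191 .nil .nil) (.cons 210 191 .nil .nil))) .nil)))), [267], 0, 0, 0, 0, 0, 0, 0, 0⟩,
⟨267, 41, 11, (.cons 210 190 (.exit 0) .nil), [268], 0, 0, 0, 0, 0, 0, 0, 0⟩,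
⟨268, 41, 10, (.cons 210 189 .nil (.cons 229 251 (.cons 210 189 .nil (.cons 250 228 .nil .nil)) (.cons 250 228 (.cons 210 189 .nil (.cons 210 189 .nil (.cons 210 230 .nil .nil))) (.cons 210 189 (.exit 0) (.cons 228 229 (.cons 210 189 .nil (.cons 210 189 (.cons 229 230 .nil (.cons 250 228 .nil .nil)) (.cons 250 228 (.cons 210 189 .nil (.cons 210 189 .nil .nil)) (.cons 210 189 (.cons 229 230 .nil (.cons 250 228 .nil .nil)) .nil)))) .nil))))), [269], 0, 0, 0, 0, 0, 0, 0, 0⟩,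
⟨269, 40, 9, (.cons 210 190 (.exit 0) (.cons 271 249 .nil .nil)), [270], 0, 0, 0, 0, 0, 0, 0, 0⟩,
⟨270, 40, 8, (.cons 210 191 (.exit 0) (.cons 269 249 (.cons 210 191 .nil (.cons 190 231 (.cons 210 191 .nil .nil) .nil)) (.cons 210 191 .nil (.cons 190 231 (.cons 253 251 (.cons 210 191 .nil .nil) (.cons 231 249 (.cons 210 191 .nil .nil) (.cons 210 191 .nil .nil))) .nil)))), [271], 0, 0, 0, 0, 0, 0, 0, 0⟩]

theorem uMEMpL0_ok : grpNU MMEM.H MMEM.A SMEM (phs 2382 uMEMp0) uMEMpL0 = true := by decide +kernel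

/-- accumulated states -/
def uMEMp1 : List Mo := addN 2382 uMEMpL0 uMEMp0

/-- patch setting -/
def uMEMpP1 : PS := ⟨37, 30, [⟨⟨345, 61, 11⟩, 1, 4⟩, ⟨⟨117, 23, 11⟩, 7, 7⟩], ⟨false, [345], true⟩, 1, 2382, 117⟩

theorem uMEMpP1_ok : psOk MMEM uMEMpP1 = true := by decide +kernel

/-- items -/
def uMEMpL1 : List UI := [
⟨245, 2382, [⟨32, 37, 7⟩, ⟨44, 25, 7⟩], (.cons 210 190 (.exit 0) .nil), [[], [⟨246, [⟨32, 37, 7⟩, ⟨44, 25, 7⟩]⟩]]⟩]

theorem uMEMpL1_ok : grpU MMEM SMEM uMEMpP1 uMEMp1 uMEMpL1 = true := by decide +kernel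

/-- accumulated states -/
def uMEMp2 : List Mo := keysU uMEMpL1 uMEMp1

/-- patch setting -/
def uMEMpP2 : PS := ⟨38, 31, [⟨⟨343, 61, 11⟩, 1, 3⟩, ⟨⟨77, 23, 11⟩, 6, 6⟩], ⟨false, [343], true⟩, 1, 2382, 77⟩

theorem uMEMpP2_ok : psOk MMEM uMEMpP2 = true := by decide +kernel

/-- items -/
def uMEMpL2 : List UI := [
⟨244, 2382, [⟨31, 38, 7⟩, ⟨45, 24, 7⟩], (.cons 210 189 (.cons 189 169 (.cons 169 148 .nil (.cons 169 148 .nil (.cons 167 188 (.cons 169 148 .nil (.cons 169 148 .nil .nil)) .nil))) (.cons 189 169 (.cons 167 188 .nil .nil) .nil)) (.cons 210 189 (.exit 0) (.cons 210 189 .nil (.cons 210 189 (.cons 189 169 (.cons 169 148 .nil (.cons 169 148 .nil (.cons 167 188 (.cons 169 148 .nil (.cons 169 148 .nil .nil)) .nil))) .nil) (.cons 210 229 (.cons 229 228 .nil (.cons 229 228 .nil (.cons 229 228 (.cons 228 209 .nil .nil) .nil))) .nil))))), [[], [⟨245, [⟨31, 38, 7⟩, ⟨45, 24, 7⟩]⟩]]⟩]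

theorem uMEMpL2_ok : grpU MMEM SMEM uMEMpP2 uMEMp2 uMEMpL2 = true := by decide +kernel

/-- accumulated states -/
def uMEMp3 : List Mo := keysU uMEMpL2 uMEMp2

/-- patch setting -/
def uMEMpP3 : PS := ⟨38, 32, [⟨⟨342, 61, 11⟩, 1, 2⟩, ⟨⟨57, 23, 11⟩, 6, 6⟩], ⟨false, [342], true⟩, 1, 2382, 57⟩

theorem uMEMpP3_ok : psOk MMEM uMEMpP3 = true := by decide +kernel

/-- items -/
def uMEMpL3 : List UI := [
⟨243, 2382, [⟨30, 39, 7⟩, ⟨45, 24, 7⟩], (.cons 210 190 (.exit 0) .nil), [[], [⟨244, [⟨30, 39, 7⟩, ⟨45, 24, 7⟩]⟩]]⟩]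

theorem uMEMpL3_ok : grpU MMEM SMEM uMEMpP3 uMEMp3 uMEMpL3 = true := by decide +kernel

/-- accumulated states -/
def uMEMp4 : List Mo := keysU uMEMpL3 uMEMp3

/-- patch setting -/
def uMEMpP4 : PS := ⟨37, 33, [⟨⟨342, 61, 11⟩, 1, 1⟩, ⟨⟨57, 23, 11⟩, 7, 7⟩], ⟨false, [342], true⟩, 1, 2382, 57⟩

theorem uMEMpP4_ok : psOk MMEM uMEMpP4 = true := by decide +kernel

/-- items -/
def uMEMpL4 : List UI := [
⟨242, 2382, [⟨29, 40, 7⟩, ⟨44, 25, 7⟩], (.cons 212 191 (.exit 0) (.cons 212 191 .nil (.cons 212 233 (.cons 252 274 (.cons 233 252 .nil (.cons 233 212 (.cons 212 191 .nil .nil) (.cons 233 252 .nil (.cons 233 212 (.cons 212 191 .nil .nil) .nil)))) (.cons 233 212 (.cons 212 191 .nil .nil) (.cons 233 212 (.cons 212 191 .nil .nil) (.cons 194 215 (.cons 233 212 (.cons 212 191 .nil .nil) (.cons 233 212 (.cons 212 191 .nil .nil) (.cons 233 232 (.cons 232 212 (.cons 212 233 (.cons 236 255 .nil (.cons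 233 232 (.cons 232 253 (.cons 252 274 .nil .nil) (.cons 232 251 .nil (.cons 192 210 (.cons 232 251 .nil (.cons 232 251 .nil .nil)) (.cons 232 251 .nil .nil)))) .nil)) (.cons 212 191 .nil .nil)) (.cons 192 210 .nil .nil)) (.cons 233 212 (.cons 212 191 .nil .nil) .nil)))) (.cons 233 232 (.cons 232 212 (.cons 212 233 (.cons 233 253 (.cons 214 235 .nil (.cons 271 292 .nil .nil)) (.cons 236 255 (.cons 252 274 .nil (.cons 194 215 .nil .nil)) (.cons 233 253 (.cons 252 274 .nil .nil) (.cons 233 232 (.cons 232 253 (.cons 252 274 .nil .nil) (.cons 232 251 .nil (.cons 192 210 (.cons 232 251 .nil (.cons 232 251 .nil .nil)) (.cons 232 251 .nil .nil)))) .nil)))) (.cons 212 191 .nil .nil)) (.cons 192 210 .nil .nil)) (.cons 233 212 (.cons 212 191 .nil .nil) .nil)))))) .nil))), [[], [⟨243, [⟨29, 40, 7⟩, ⟨44, 25, 7⟩]⟩]]⟩]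

theorem uMEMpL4_ok : grpU MMEM SMEM uMEMpP4 uMEMp4 uMEMpL4 = true := by decide +kernel

/-- accumulated states -/
def uMEMp5 : List Mo := keysU uMEMpL4 uMEMp4

/-- items -/
def uMEMpL5 : List NI := [
⟨169, 40, 72, (.cons 210 191 (.exit 0) (.cons 269 249 (.cons 210 191 .nil (.cons 190 231 (.cons 210 191 .nil .nil) .nil)) (.cons 210 191 .nil (.cons 190 231 (.cons 253 251 (.cons 210 191 .nil .nil) (.cons 231 249 (.cons 210 191 .nil .nil) (.cons 210 191 .nil .nil))) .nil)))), [170], 0, 0, 0, 0, 0, 0, 0, 0⟩,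
⟨170, 41, 71, (.cons 210 190 (.exit 0) .nil), [171], 0, 0, 0, 0, 0, 0, 0, 0⟩,
⟨171, 41, 70, (.cons 210 189 .nil (.cons 229 251 (.cons 210 189 .nil (.cons 250 228 .nil .nil)) (.cons 250 228 (.cons 210 189 .nil (.cons 210 189 .nil (.cons 210 230 .nil .nil))) (.cons 210 189 (.exit 0) (.cons 228 229 (.cons 210 189 .nil (.cons 210 189 (.cons 229 230 .nil (.cons 250 228 .nil .nil)) (.cons 250 228 (.cons 210 189 .nil (.cons 210 189 .nil .nil)) (.cons 210 189 (.cons 229 230 .nil (.cons 250 228 .nil .nil)) .nil)))) .nil))))), [172], 0, 0, 0, 0, 0, 0, 0, 0⟩,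
⟨172, 40, 69, (.cons 210 190 (.exit 0) (.cons 271 249 .nil .nil)), [173], 0, 0, 0, 0, 0, 0, 0, 0⟩,
⟨173, 40, 68, (.cons 210 191 (.exit 0) (.cons 269 249 (.cons 210 191 .nil (.cons 190 231 (.cons 210 191 .nil .nil) .nil)) (.cons 210 191 .nil (.cons 190 231 (.cons 253 251 (.cons 210 191 .nil .nil) (.cons 231 249 (.cons 210 191 .nil .nil) (.cons 210 191 .nil .nil))) .nil)))), [174], 0, 0, 0, 0, 0, 0, 0, 0⟩,
⟨174, 41, 67, (.cons 210 190 (.exit 0) .nil), [175], 0, 0, 0, 0, 0, 0, 0, 0⟩,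
⟨175, 41, 66, (.cons 210 189 .nil (.cons 229 251 (.cons 210 189 .nil (.cons 250 228 .nil .nil)) (.cons 250 228 (.cons 210 189 .nil (.cons 210 189 .nil (.cons 210 230 .nil .nil))) (.cons 210 189 (.exit 0) (.cons 228 229 (.cons 210 189 .nil (.cons 210 189 (.cons 229 230 .nil (.cons 250 228 .nil .nil)) (.cons 250 228 (.cons 210 189 .nil (.cons 210 189 .nil .nil)) (.cons 210 189 (.cons 229 230 .nil (.cons 250 228 .nil .nil)) .nil)))) .nil))))), [176], 0, 0, 0, 0, 0, 0, 0, 0⟩,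
⟨176, 40, 65, (.cons 210 190 (.exit 0) (.cons 271 249 .nil .nil)), [177], 0, 0, 0, 0, 0, 0, 0, 0⟩,
⟨177, 40, 64, (.cons 210 191 (.exit 0) (.cons 269 249 (.cons 210 191 .nil (.cons 270 231 (.cons 210 191 .nil .nil) .nil)) (.cons 210 191 .nil (.cons 270 231 (.cons 253 251 (.cons 210 191 .nil .nil) (.cons 231 249 (.cons 210 191 .nil .nil) (.cons 210 191 .nil .nil))) .nil)))), [178], 0, 0, 0, 0, 0, 0, 0, 0⟩,
⟨178, 41, 63, (.cons 210 190 (.exit 0) .nil), [179], 0, 0, 0, 0, 0, 0, 0, 0⟩,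
⟨179, 41, 62, (.cons 210 189 .nil (.cons 252 251 (.cons 210 189 .nil (.cons 250 228 (.cons 210 230 .nil .nil) (.cons 208 229 (.cons 210 189 .nil (.cons 250 228 .nil .nil)) .nil))) (.cons 250 228 (.cons 210 189 .nil (.cons 210 189 .nil (.cons 210 230 .nil .nil))) (.cons 210 189 (.exit 0) (.cons 208 229 (.cons 210 189 .nil (.cons 252 251 (.cons 210 189 .nil (.cons 250 228 .nil .nil)) (.cons 250 228 (.cons 210 189 .nil (.cons 210 189 .nil .nil)) (.cons 247 249 (.cons 210 189 .nil (.cons 250 228 .nil .nil)) .nil)))) .nil))))), [180], 0, 0, 0, 0, 0, 0, 0, 0⟩,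
⟨180, 40, 61, (.cons 210 190 (.exit 0) (.cons 271 249 .nil .nil)), [181], 0, 0, 0, 0, 0, 0, 0, 0⟩,
⟨181, 40, 60, (.cons 210 191 (.exit 0) (.cons 250 232 (.cons 210 191 .nil (.cons 210 191 .nil (.cons 210 230 .nil .nil))) (.cons 269 249 (.cons 250 232 (.cons 210 230 .nil .nil) (.cons 210 191 .nil (.cons 212 231 (.cons 250 232 .nil (.cons 210 191 .nil .nil)) .nil))) (.cons 210 191 .nil (.cons 232 231 (.cons 210 191 (.cons 250 232 .nil (.cons 231 230 .nil .nil)) (.cons 250 232 (.cons 210 191 .nil (.cons 210 191 .nil .nil)) (.cons 210 191 (.cons 250 232 .nil (.cons 231 230 .nil .nil)) (.cons 210 191 .nil .nil)))) .nil))))), [182], 0, 0, 0, 0, 0, 0, 0, 0⟩,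
⟨182, 41, 59, (.cons 269 251 .nil (.cons 210 190 (.exit 0) .nil)), [183], 0, 0, 0, 0, 0, 0, 0, 0⟩,
⟨183, 41, 58, (.cons 210 189 .nil (.cons 271 251 (.cons 210 189 .nil (.cons 250 228 (.cons 210 230 .nil .nil) (.cons 208 229 (.cons 210 189 .nil (.cons 250 228 .nil .nil)) .nil))) (.cons 250 228 (.cons 210 189 .nil (.cons 210 189 .nil (.cons 210 230 .nil .nil))) (.cons 210 189 (.exit 0) (.cons 228 229 (.cons 210 189 .nil (.cons 210 189 (.cons 229 230 .nil (.cons 250 228 .nil .nil)) (.cons 250 228 (.cons 210 189 .nil (.cons 210 189 .nil .nil)) (.cons 210 189 (.cons 229 230 .nil (.cons 250 228 .nil .nil)) .nil)))) .nil))))), [184], 0, 0, 0, 0, 0, 0, 0, 0⟩,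
⟨184, 40, 57, (.cons 210 190 (.exit 0) (.cons 271 249 .nil .nil)), [185], 0, 0, 0, 0, 0, 0, 0, 0⟩,
⟨185, 40, 56, (.cons 210 191 (.exit 0) (.cons 250 232 (.cons 210 191 .nil (.cons 210 191 .nil (.cons 210 230 .nil .nil))) (.cons 269 249 (.cons 250 232 (.cons 210 230 .nil .nil) (.cons 210 191 .nil (.cons 210 231 (.cons 231 210 .nil (.cons 248 249 .nil .nil)) .nil))) (.cons 210 191 .nil (.cons 232 231 (.cons 210 191 (.cons 250 232 .nil (.cons 231 230 .nil .nil)) (.cons 250 232 (.cons 210 191 .nil (.cons 210 191 .nil .nil)) (.cons 210 191 (.cons 250 232 .nil (.cons 231 230 .nil .nil)) (.cons 210 191 .nil .nil)))) .nil))))), [186], 0, 0, 0, 0, 0, 0, 0, 0⟩,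
⟨186, 41, 55, (.cons 269 251 .nil (.cons 210 190 (.exit 0) .nil)), [187], 0, 0, 0, 0, 0, 0, 0, 0⟩,
⟨187, 41, 54, (.cons 210 189 .nil (.cons 229 251 (.cons 210 189 .nil (.cons 250 228 .nil .nil)) (.cons 250 228 (.cons 210 189 .nil (.cons 210 189 .nil (.cons 210 230 .nil .nil))) (.cons 210 189 (.exit 0) (.cons 228 229 (.cons 210 189 .nil (.cons 210 189 (.cons 229 230 .nil (.cons 250 228 .nil .nil)) (.cons 250 228 (.cons 210 189 .nil (.cons 210 189 .nil .nil)) (.cons 210 189 (.cons 229 230 .nil (.cons 250 228 .nil .nil)) .nil)))) .nil))))), [188], 0, 0, 0, 0, 0, 0, 0, 0⟩,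
⟨188, 40, 53, (.cons 210 190 (.exit 0) (.cons 271 249 .nil .nil)), [189], 0, 0, 0, 0, 0, 0, 0, 0⟩,
⟨189, 40, 52, (.cons 210 189 (.exit 0) (.cons 231 249 (.cons 210 189 .nil .nil) (.cons 210 189 .nil (.cons 209 231 (.cons 210 209 (.cons 270 231 .nil .nil) (.cons 231 249 (.cons 210 189 .nil .nil) (.cons 210 189 .nil .nil))) .nil)))), [190], 0, 0, 0, 0, 0, 0, 0, 0⟩,
⟨190, 39, 51, (.cons 210 190 (.exit 0) .nil), [191], 0, 0, 0, 0, 0, 0, 0, 0⟩,
⟨191, 39, 50, (.cons 210 191 (.exit 0) (.cons 210 191 .nil (.cons 210 231 (.cons 250 272 (.cons 231 250 .nil (.cons 231 250 .nil (.cons 231 250 .nil (.cons 231 250 .nil .nil)))) (.cons 231 210 (.cons 210 191 .nil .nil) (.cons 231 210 (.cons 210 191 .nil .nil) (.cons 269 249 (.cons 231 230 .nil (.cons 231 210 .nil (.cons 231 210 .nil .nil))) (.cons 231 210 (.cons 210 191 .nil .nil) .nil))))) .nil))), [192], 0, 0, 0, 0, 0, 0, 0, 0⟩,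
⟨192, 40, 49, (.cons 210 190 (.exit 0) .nil), [193], 0, 0, 0, 0, 0, 0, 0, 0⟩,
⟨193, 40, 48, (.cons 210 191 .nil (.cons 229 251 (.cons 210 191 .nil (.cons 210 231 (.cons 211 250 .nil .nil) .nil)) (.cons 210 191 (.exit 0) (.cons 251 231 (.cons 210 191 .nil (.cons 210 191 (.cons 231 230 .nil .nil) (.cons 210 191 (.cons 231 230 .nil .nil) (.cons 210 191 (.cons 231 230 .nil .nil) .nil)))) (.cons 211 229 (.cons 210 191 .nil (.cons 210 211 (.cons 212 233 .nil (.cons 208 229 .nil .nil)) (.cons 210 211 .nil (.cons 210 211 (.cons 233 252 .nil .nil) .nil)))) .nil))))), [194], 0, 0, 0, 0, 0, 0, 0, 0⟩,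
⟨194, 41, 47, (.cons 210 190 (.exit 0) .nil), [195], 0, 0, 0, 0, 0, 0, 0, 0⟩,
⟨195, 41, 46, (.cons 210 189 .nil (.cons 250 228 (.cons 210 189 .nil (.cons 210 230 .nil .nil)) (.cons 210 189 (.exit 0) (.cons 228 229 (.cons 210 189 .nil (.cons 250 228 (.cons 210 189 .nil .nil) (.cons 210 189 (.cons 229 230 .nil (.cons 250 228 .nil .nil)) .nil))) .nil)))), [196], 0, 0, 0, 0, 0, 0, 0, 0⟩,
⟨196, 40, 45, (.cons 210 190 (.exit 0) (.cons 271 249 .nil .nil)), [197], 0, 0, 0, 0, 0, 0, 0, 0⟩,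
⟨197, 40, 44, (.cons 210 189 (.exit 0) (.cons 228 249 (.cons 210 189 .nil (.cons 209 231 (.cons 210 189 .nil .nil) .nil)) (.cons 210 189 .nil (.cons 209 231 (.cons 210 209 .nil (.cons 231 249 (.cons 210 189 .nil .nil) (.cons 210 189 .nil .nil))) .nil)))), [198], 0, 0, 0, 0, 0, 0, 0, 0⟩,
⟨198, 39, 43, (.cons 210 190 (.exit 0) .nil), [199], 0, 0, 0, 0, 0, 0, 0, 0⟩,
⟨199, 39, 42, (.cons 210 191 (.exit 0) (.cons 250 232 (.cons 210 191 .nil (.cons 210 230 .nil .nil)) (.cons 210 191 .nil (.cons 210 191 (.cons 250 232 (.cons 191 192 .nil .nil) (.cons 191 192 .nil (.cons 191 192 .nil .nil))) .nil)))), [200], 0, 0, 0, 0, 0, 0, 0, 0⟩,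
⟨200, 40, 41, (.cons 269 251 .nil (.cons 210 211 (.exit 0) .nil)), [201], 0, 0, 0, 0, 0, 0, 0, 0⟩,
⟨201, 41, 41, (.cons 229 251 .nil (.cons 210 191 (.exit 0) .nil)), [202], 0, 0, 0, 0, 0, 0, 0, 0⟩,
⟨202, 42, 40, (.cons 210 190 (.exit 0) (.cons 230 249 .nil .nil)), [236], 0, 0, 0, 0, 0, 0, 0, 0⟩,
⟨236, 42, 39, (.cons 210 189 (.exit 0) .nil), [237], 0, 0, 0, 0, 0, 0, 0, 0⟩,
⟨237, 41, 38, (.cons 210 190 (.exit 0) (.cons 250 228 .nil .nil)), [238], 0, 0, 0, 0, 0, 0, 0, 0⟩,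
⟨238, 41, 37, (.cons 210 189 (.exit 0) (.cons 210 189 .nil (.cons 228 249 (.cons 210 189 .nil (.cons 210 189 .nil (.cons 209 231 (.cons 210 189 .nil (.cons 210 189 .nil (.cons 210 209 .nil (.cons 210 209 .nil .nil)))) (.cons 209 231 (.cons 210 189 .nil (.cons 210 189 .nil (.cons 210 209 .nil .nil))) (.cons 210 229 (.cons 229 228 .nil (.cons 229 228 .nil .nil)) .nil))))) (.cons 210 189 .nil (.cons 210 189 (.cons 189 169 (.cons 169 148 .nil (.cons 149 190 (.cons 169 148 .nil .nil) .nil)) .nil) (.cons 210 189 (.cons 189 169 (.cons 169 148 .nil (.cons 149 190 (.cons 169 148 .nil .nil) .nil)) .nil) (.cons 210 189 (.cons 189 169 (.cons 169 148 .nil (.cons 149 190 (.cons 169 148 .nil .nil) .nil)) (.cons 189 169 (.cons 169 148 .nil .nil) .nil)) .nil))))))), [239], 0, 0, 0, 0, 0, 0, 0, 0⟩,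
⟨239, 40, 36, (.cons 210 190 (.exit 0) .nil), [240], 0, 0, 0, 0, 0, 0, 0, 0⟩,
⟨240, 40, 35, (.cons 210 189 (.exit 0) (.cons 210 189 .nil (.cons 209 231 (.cons 210 209 (.cons 190 231 .nil .nil) (.cons 210 189 .nil .nil)) .nil))), [241], 0, 0, 0, 0, 0, 0, 0, 0⟩,
⟨241, 39, 34, (.cons 210 190 (.exit 0) .nil), [242], 0, 0, 0, 0, 0, 0, 0, 0⟩]

theorem uMEMpL5_ok : grpNU MMEM.H MMEM.A SMEM (phs 2382 uMEMp5) uMEMpL5 = true := by decide +kernel

/-- accumulated states -/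
def uMEMp6 : List Mo := addN 2382 uMEMpL5 uMEMp5

/-- items -/
def uMEMpL6 : List NI := [
⟨129, 40, 112, (.cons 210 191 (.exit 0) (.cons 269 249 (.cons 210 191 .nil (.cons 190 231 (.cons 210 191 .nil .nil) .nil)) (.cons 210 191 .nil (.cons 190 231 (.cons 253 251 (.cons 210 191 .nil .nil) (.cons 231 249 (.cons 210 191 .nil .nil) (.cons 210 191 .nil .nil))) .nil)))), [130], 0, 0, 0, 0, 0, 0, 0, 0⟩,
⟨130, 41, 111, (.cons 210 190 (.exit 0) .nil), [131], 0, 0, 0, 0, 0, 0, 0, 0⟩,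
⟨131, 41, 110, (.cons 210 189 .nil (.cons 229 251 (.cons 210 189 .nil (.cons 250 228 .nil .nil)) (.cons 250 228 (.cons 210 189 .nil (.cons 210 189 .nil (.cons 210 230 .nil .nil))) (.cons 210 189 (.exit 0) (.cons 228 229 (.cons 210 189 .nil (.cons 210 189 (.cons 229 230 .nil (.cons 250 228 .nil .nil)) (.cons 250 228 (.cons 210 189 .nil (.cons 210 189 .nil .nil)) (.cons 210 189 (.cons 229 230 .nil (.cons 250 228 .nil .nil)) .nil)))) .nil))))), [132], 0, 0, 0, 0, 0, 0, 0, 0⟩,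
⟨132, 40, 109, (.cons 210 190 (.exit 0) (.cons 271 249 .nil .nil)), [133], 0, 0, 0, 0, 0, 0, 0, 0⟩,
⟨133, 40, 108, (.cons 210 191 (.exit 0) (.cons 269 249 (.cons 210 191 .nil (.cons 190 231 (.cons 210 191 .nil .nil) .nil)) (.cons 210 191 .nil (.cons 190 231 (.cons 253 251 (.cons 210 191 .nil .nil) (.cons 231 249 (.cons 210 191 .nil .nil) (.cons 210 191 .nil .nil))) .nil)))), [134], 0, 0, 0, 0, 0, 0, 0, 0⟩,
⟨134, 41, 107, (.cons 210 190 (.exit 0) .nil), [135], 0, 0, 0, 0, 0, 0, 0, 0⟩,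
⟨135, 41, 106, (.cons 210 189 .nil (.cons 229 251 (.cons 210 189 .nil (.cons 250 228 .nil .nil)) (.cons 250 228 (.cons 210 189 .nil (.cons 210 189 .nil (.cons 210 230 .nil .nil))) (.cons 210 189 (.exit 0) (.cons 228 229 (.cons 210 189 .nil (.cons 210 189 (.cons 229 230 .nil (.cons 250 228 .nil .nil)) (.cons 250 228 (.cons 210 189 .nil (.cons 210 189 .nil .nil)) (.cons 210 189 (.cons 229 230 .nil (.cons 250 228 .nil .nil)) .nil)))) .nil))))), [136], 0, 0, 0, 0, 0, 0, 0, 0⟩,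
⟨136, 40, 105, (.cons 210 190 (.exit 0) (.cons 271 249 .nil .nil)), [137], 0, 0, 0, 0, 0, 0, 0, 0⟩,
⟨137, 40, 104, (.cons 210 191 (.exit 0) (.cons 269 249 (.cons 210 191 .nil (.cons 190 231 (.cons 210 191 .nil .nil) .nil)) (.cons 210 191 .nil (.cons 190 231 (.cons 253 251 (.cons 210 191 .nil .nil) (.cons 231 249 (.cons 210 191 .nil .nil) (.cons 210 191 .nil .nil))) .nil)))), [138], 0, 0, 0, 0, 0, 0, 0, 0⟩,
⟨138, 41, 103, (.cons 210 190 (.exit 0) .nil), [139], 0, 0, 0, 0, 0, 0, 0, 0⟩,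
⟨139, 41, 102, (.cons 210 189 .nil (.cons 229 251 (.cons 210 189 .nil (.cons 250 228 .nil .nil)) (.cons 250 228 (.cons 210 189 .nil (.cons 210 189 .nil (.cons 210 230 .nil .nil))) (.cons 210 189 (.exit 0) (.cons 228 229 (.cons 210 189 .nil (.cons 210 189 (.cons 229 230 .nil (.cons 250 228 .nil .nil)) (.cons 250 228 (.cons 210 189 .nil (.cons 210 189 .nil .nil)) (.cons 210 189 (.cons 229 230 .nil (.cons 250 228 .nil .nil)) .nil)))) .nil))))), [140], 0, 0, 0, 0, 0, 0, 0, 0⟩,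
⟨140, 40, 101, (.cons 210 190 (.exit 0) (.cons 271 249 .nil .nil)), [141], 0, 0, 0, 0, 0, 0, 0, 0⟩,
⟨141, 40, 100, (.cons 210 191 (.exit 0) (.cons 269 249 (.cons 210 191 .nil (.cons 190 231 (.cons 210 191 .nil .nil) .nil)) (.cons 210 191 .nil (.cons 190 231 (.cons 253 251 (.cons 210 191 .nil .nil) (.cons 231 249 (.cons 210 191 .nil .nil) (.cons 210 191 .nil .nil))) .nil)))), [142], 0, 0, 0, 0, 0, 0, 0, 0⟩,
⟨142, 41, 99, (.cons 210 190 (.exit 0) .nil), [143], 0, 0, 0, 0, 0, 0, 0, 0⟩,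
⟨143, 41, 98, (.cons 210 189 .nil (.cons 229 251 (.cons 210 189 .nil (.cons 250 228 .nil .nil)) (.cons 250 228 (.cons 210 189 .nil (.cons 210 189 .nil (.cons 210 230 .nil .nil))) (.cons 210 189 (.exit 0) (.cons 228 229 (.cons 210 189 .nil (.cons 210 189 (.cons 229 230 .nil (.cons 250 228 .nil .nil)) (.cons 250 228 (.cons 210 189 .nil (.cons 210 189 .nil .nil)) (.cons 210 189 (.cons 229 230 .nil (.cons 250 228 .nil .nil)) .nil)))) .nil))))), [144], 0, 0, 0, 0, 0, 0, 0, 0⟩,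
⟨144, 40, 97, (.cons 210 190 (.exit 0) (.cons 271 249 .nil .nil)), [145], 0, 0, 0, 0, 0, 0, 0, 0⟩,
⟨145, 40, 96, (.cons 210 191 (.exit 0) (.cons 269 249 (.cons 210 191 .nil (.cons 190 231 (.cons 210 191 .nil .nil) .nil)) (.cons 210 191 .nil (.cons 190 231 (.cons 253 251 (.cons 210 191 .nil .nil) (.cons 231 249 (.cons 210 191 .nil .nil) (.cons 210 191 .nil .nil))) .nil)))), [146], 0, 0, 0, 0, 0, 0, 0, 0⟩,
⟨146, 41, 95, (.cons 210 190 (.exit 0) .nil), [147], 0, 0, 0, 0, 0, 0, 0, 0⟩,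
⟨147, 41, 94, (.cons 210 189 .nil (.cons 229 251 (.cons 210 189 .nil (.cons 250 228 .nil .nil)) (.cons 250 228 (.cons 210 189 .nil (.cons 210 189 .nil (.cons 210 230 .nil .nil))) (.cons 210 189 (.exit 0) (.cons 228 229 (.cons 210 189 .nil (.cons 210 189 (.cons 229 230 .nil (.cons 250 228 .nil .nil)) (.cons 250 228 (.cons 210 189 .nil (.cons 210 189 .nil .nil)) (.cons 210 189 (.cons 229 230 .nil (.cons 250 228 .nil .nil)) .nil)))) .nil))))), [148], 0, 0, 0, 0, 0, 0, 0, 0⟩,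
⟨148, 40, 93, (.cons 210 190 (.exit 0) (.cons 271 249 .nil .nil)), [149], 0, 0, 0, 0, 0, 0, 0, 0⟩,
⟨149, 40, 92, (.cons 210 191 (.exit 0) (.cons 269 249 (.cons 210 191 .nil (.cons 190 231 (.cons 210 191 .nil .nil) .nil)) (.cons 210 191 .nil (.cons 190 231 (.cons 253 251 (.cons 210 191 .nil .nil) (.cons 231 249 (.cons 210 191 .nil .nil) (.cons 210 191 .nil .nil))) .nil)))), [150], 0, 0, 0, 0, 0, 0, 0, 0⟩,
⟨150, 41, 91, (.cons 210 190 (.exit 0) .nil), [151], 0, 0, 0, 0, 0, 0, 0, 0⟩,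
⟨151, 41, 90, (.cons 210 189 .nil (.cons 229 251 (.cons 210 189 .nil (.cons 250 228 .nil .nil)) (.cons 250 228 (.cons 210 189 .nil (.cons 210 189 .nil (.cons 210 230 .nil .nil))) (.cons 210 189 (.exit 0) (.cons 228 229 (.cons 210 189 .nil (.cons 210 189 (.cons 229 230 .nil (.cons 250 228 .nil .nil)) (.cons 250 228 (.cons 210 189 .nil (.cons 210 189 .nil .nil)) (.cons 210 189 (.cons 229 230 .nil (.cons 250 228 .nil .nil)) .nil)))) .nil))))), [152], 0, 0, 0, 0, 0, 0, 0, 0⟩,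
⟨152, 40, 89, (.cons 210 190 (.exit 0) (.cons 271 249 .nil .nil)), [153], 0, 0, 0, 0, 0, 0, 0, 0⟩,
⟨153, 40, 88, (.cons 210 191 (.exit 0) (.cons 269 249 (.cons 210 191 .nil (.cons 190 231 (.cons 210 191 .nil .nil) .nil)) (.cons 210 191 .nil (.cons 190 231 (.cons 253 251 (.cons 210 191 .nil .nil) (.cons 231 249 (.cons 210 191 .nil .nil) (.cons 210 191 .nil .nil))) .nil)))), [154], 0, 0, 0, 0, 0, 0, 0, 0⟩,
⟨154, 41, 87, (.cons 210 190 (.exit 0) .nil), [155], 0, 0, 0, 0, 0, 0, 0, 0⟩,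
⟨155, 41, 86, (.cons 210 189 .nil (.cons 229 251 (.cons 210 189 .nil (.cons 250 228 .nil .nil)) (.cons 250 228 (.cons 210 189 .nil (.cons 210 189 .nil (.cons 210 230 .nil .nil))) (.cons 210 189 (.exit 0) (.cons 228 229 (.cons 210 189 .nil (.cons 210 189 (.cons 229 230 .nil (.cons 250 228 .nil .nil)) (.cons 250 228 (.cons 210 189 .nil (.cons 210 189 .nil .nil)) (.cons 210 189 (.cons 229 230 .nil (.cons 250 228 .nil .nil)) .nil)))) .nil))))), [156], 0, 0, 0, 0, 0, 0, 0, 0⟩,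
⟨156, 40, 85, (.cons 210 190 (.exit 0) (.cons 271 249 .nil .nil)), [157], 0, 0, 0, 0, 0, 0, 0, 0⟩,
⟨157, 40, 84, (.cons 210 191 (.exit 0) (.cons 269 249 (.cons 210 191 .nil (.cons 190 231 (.cons 210 191 .nil .nil) .nil)) (.cons 210 191 .nil (.cons 190 231 (.cons 253 251 (.cons 210 191 .nil .nil) (.cons 231 249 (.cons 210 191 .nil .nil) (.cons 210 191 .nil .nil))) .nil)))), [158], 0, 0, 0, 0, 0, 0, 0, 0⟩,
⟨158, 41, 83, (.cons 210 190 (.exit 0) .nil), [159], 0, 0, 0, 0, 0, 0, 0, 0⟩,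
⟨159, 41, 82, (.cons 210 189 .nil (.cons 229 251 (.cons 210 189 .nil (.cons 250 228 .nil .nil)) (.cons 250 228 (.cons 210 189 .nil (.cons 210 189 .nil (.cons 210 230 .nil .nil))) (.cons 210 189 (.exit 0) (.cons 228 229 (.cons 210 189 .nil (.cons 210 189 (.cons 229 230 .nil (.cons 250 228 .nil .nil)) (.cons 250 228 (.cons 210 189 .nil (.cons 210 189 .nil .nil)) (.cons 210 189 (.cons 229 230 .nil (.cons 250 228 .nil .nil)) .nil)))) .nil))))), [160], 0, 0, 0, 0, 0, 0, 0, 0⟩,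
⟨160, 40, 81, (.cons 210 190 (.exit 0) (.cons 271 249 .nil .nil)), [161], 0, 0, 0, 0, 0, 0, 0, 0⟩,
⟨161, 40, 80, (.cons 210 191 (.exit 0) (.cons 269 249 (.cons 210 191 .nil (.cons 190 231 (.cons 210 191 .nil .nil) .nil)) (.cons 210 191 .nil (.cons 190 231 (.cons 253 251 (.cons 210 191 .nil .nil) (.cons 231 249 (.cons 210 191 .nil .nil) (.cons 210 191 .nil .nil))) .nil)))), [162], 0, 0, 0, 0, 0, 0, 0, 0⟩,
⟨162, 41, 79, (.cons 210 190 (.exit 0) .nil), [163], 0, 0, 0, 0, 0, 0, 0, 0⟩,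
⟨163, 41, 78, (.cons 210 189 .nil (.cons 229 251 (.cons 210 189 .nil (.cons 250 228 .nil .nil)) (.cons 250 228 (.cons 210 189 .nil (.cons 210 189 .nil (.cons 210 230 .nil .nil))) (.cons 210 189 (.exit 0) (.cons 228 229 (.cons 210 189 .nil (.cons 210 189 (.cons 229 230 .nil (.cons 250 228 .nil .nil)) (.cons 250 228 (.cons 210 189 .nil (.cons 210 189 .nil .nil)) (.cons 210 189 (.cons 229 230 .nil (.cons 250 228 .nil .nil)) .nil)))) .nil))))), [164], 0, 0, 0, 0, 0, 0, 0, 0⟩,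
⟨164, 40, 77, (.cons 210 190 (.exit 0) (.cons 271 249 .nil .nil)), [165], 0, 0, 0, 0, 0, 0, 0, 0⟩,
⟨165, 40, 76, (.cons 210 191 (.exit 0) (.cons 269 249 (.cons 210 191 .nil (.cons 190 231 (.cons 210 191 .nil .nil) .nil)) (.cons 210 191 .nil (.cons 190 231 (.cons 253 251 (.cons 210 191 .nil .nil) (.cons 231 249 (.cons 210 191 .nil .nil) (.cons 210 191 .nil .nil))) .nil)))), [166], 0, 0, 0, 0, 0, 0, 0, 0⟩,
⟨166, 41, 75, (.cons 210 190 (.exit 0) .nil), [167], 0, 0, 0, 0, 0, 0, 0, 0⟩,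
⟨167, 41, 74, (.cons 210 189 .nil (.cons 229 251 (.cons 210 189 .nil (.cons 250 228 .nil .nil)) (.cons 250 228 (.cons 210 189 .nil (.cons 210 189 .nil (.cons 210 230 .nil .nil))) (.cons 210 189 (.exit 0) (.cons 228 229 (.cons 210 189 .nil (.cons 210 189 (.cons 229 230 .nil (.cons 250 228 .nil .nil)) (.cons 250 228 (.cons 210 189 .nil (.cons 210 189 .nil .nil)) (.cons 210 189 (.cons 229 230 .nil (.cons 250 228 .nil .nil)) .nil)))) .nil))))), [168], 0, 0, 0, 0, 0, 0, 0, 0⟩,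
⟨168, 40, 73, (.cons 210 190 (.exit 0) (.cons 271 249 .nil .nil)), [169], 0, 0, 0, 0, 0, 0, 0, 0⟩]

theorem uMEMpL6_ok : grpNU MMEM.H MMEM.A SMEM (phs 2382 uMEMp6) uMEMpL6 = true := by decide +kernel

/-- accumulated states -/
def uMEMp7 : List Mo := addN 2382 uMEMpL6 uMEMp6

/-- items -/
def uMEMpL7 : List NI := [
⟨106, 41, 135, (.cons 210 190 (.exit 0) .nil), [107], 0, 0, 0, 0, 0, 0, 0, 0⟩,
⟨107, 41, 134, (.cons 210 189 .nil (.cons 229 251 (.cons 210 189 .nil (.cons 250 228 .nil .nil)) (.cons 250 228 (.cons 210 189 .nil (.cons 210 189 .nil (.cons 210 230 .nil .nil))) (.cons 210 189 (.exit 0) (.cons 228 229 (.cons 210 189 .nil (.cons 210 189 (.cons 229 230 .nil (.cons 250 228 .nil .nil)) (.cons 250 228 (.cons 210 189 .nil (.cons 210 189 .nil .nil)) (.cons 210 189 (.cons 229 230 .nil (.cons 250 228 .nil .nil)) .nil)))) .nil))))), [108], 0, 0, 0, 0, 0, 0, 0, 0⟩,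
⟨108, 40, 133, (.cons 210 190 (.exit 0) (.cons 271 249 .nil .nil)), [109], 0, 0, 0, 0, 0, 0, 0, 0⟩,
⟨109, 40, 132, (.cons 210 191 (.exit 0) (.cons 269 249 (.cons 210 191 .nil (.cons 190 231 (.cons 210 191 .nil .nil) .nil)) (.cons 210 191 .nil (.cons 190 231 (.cons 253 251 (.cons 210 191 .nil .nil) (.cons 231 249 (.cons 210 191 .nil .nil) (.cons 210 191 .nil .nil))) .nil)))), [110], 0, 0, 0, 0, 0, 0, 0, 0⟩,
⟨110, 41, 131, (.cons 210 190 (.exit 0) .nil), [111], 0, 0, 0, 0, 0, 0, 0, 0⟩,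
⟨111, 41, 130, (.cons 210 189 .nil (.cons 229 251 (.cons 210 189 .nil (.cons 250 228 .nil .nil)) (.cons 250 228 (.cons 210 189 .nil (.cons 210 189 .nil (.cons 210 230 .nil .nil))) (.cons 210 189 (.exit 0) (.cons 228 229 (.cons 210 189 .nil (.cons 210 189 (.cons 229 230 .nil (.cons 250 228 .nil .nil)) (.cons 250 228 (.cons 210 189 .nil (.cons 210 189 .nil .nil)) (.cons 210 189 (.cons 229 230 .nil (.cons 250 228 .nil .nil)) .nil)))) .nil))))), [112], 0, 0, 0, 0, 0, 0, 0, 0⟩,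
⟨112, 40, 129, (.cons 210 190 (.exit 0) (.cons 271 249 .nil .nil)), [113], 0, 0, 0, 0, 0, 0, 0, 0⟩,
⟨113, 40, 128, (.cons 210 191 (.exit 0) (.cons 269 249 (.cons 210 191 .nil (.cons 190 231 (.cons 210 191 .nil .nil) .nil)) (.cons 210 191 .nil (.cons 190 231 (.cons 253 251 (.cons 210 191 .nil .nil) (.cons 231 249 (.cons 210 191 .nil .nil) (.cons 210 191 .nil .nil))) .nil)))), [114], 0, 0, 0, 0, 0, 0, 0, 0⟩,
⟨114, 41, 127, (.cons 210 190 (.exit 0) .nil), [115], 0, 0, 0, 0, 0, 0, 0, 0⟩,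
⟨115, 41, 126, (.cons 210 189 .nil (.cons 229 251 (.cons 210 189 .nil (.cons 250 228 .nil .nil)) (.cons 250 228 (.cons 210 189 .nil (.cons 210 189 .nil (.cons 210 230 .nil .nil))) (.cons 210 189 (.exit 0) (.cons 228 229 (.cons 210 189 .nil (.cons 210 189 (.cons 229 230 .nil (.cons 250 228 .nil .nil)) (.cons 250 228 (.cons 210 189 .nil (.cons 210 189 .nil .nil)) (.cons 210 189 (.cons 229 230 .nil (.cons 250 228 .nil .nil)) .nil)))) .nil))))), [116], 0, 0, 0, 0, 0, 0, 0, 0⟩,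
⟨116, 40, 125, (.cons 210 190 (.exit 0) (.cons 271 249 .nil .nil)), [117], 0, 0, 0, 0, 0, 0, 0, 0⟩,
⟨117, 40, 124, (.cons 210 191 (.exit 0) (.cons 269 249 (.cons 210 191 .nil (.cons 190 231 (.cons 210 191 .nil .nil) .nil)) (.cons 210 191 .nil (.cons 190 231 (.cons 253 251 (.cons 210 191 .nil .nil) (.cons 231 249 (.cons 210 191 .nil .nil) (.cons 210 191 .nil .nil))) .nil)))), [118], 0, 0, 0, 0, 0, 0, 0, 0⟩,
⟨118, 41, 123, (.cons 210 190 (.exit 0) .nil), [119], 0, 0, 0, 0, 0, 0, 0, 0⟩,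
⟨119, 41, 122, (.cons 210 189 .nil (.cons 229 251 (.cons 210 189 .nil (.cons 250 228 .nil .nil)) (.cons 250 228 (.cons 210 189 .nil (.cons 210 189 .nil (.cons 210 230 .nil .nil))) (.cons 210 189 (.exit 0) (.cons 228 229 (.cons 210 189 .nil (.cons 210 189 (.cons 229 230 .nil (.cons 250 228 .nil .nil)) (.cons 250 228 (.cons 210 189 .nil (.cons 210 189 .nil .nil)) (.cons 210 189 (.cons 229 230 .nil (.cons 250 228 .nil .nil)) .nil)))) .nil))))), [120], 0, 0, 0, 0, 0, 0, 0, 0⟩,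
⟨120, 40, 121, (.cons 210 190 (.exit 0) (.cons 271 249 .nil .nil)), [121], 0, 0, 0, 0, 0, 0, 0, 0⟩,
⟨121, 40, 120, (.cons 210 191 (.exit 0) (.cons 269 249 (.cons 210 191 .nil (.cons 190 231 (.cons 210 191 .nil .nil) .nil)) (.cons 210 191 .nil (.cons 190 231 (.cons 253 251 (.cons 210 191 .nil .nil) (.cons 231 249 (.cons 210 191 .nil .nil) (.cons 210 191 .nil .nil))) .nil)))), [122], 0, 0, 0, 0, 0, 0, 0, 0⟩,
⟨122, 41, 119, (.cons 210 190 (.exit 0) .nil), [123], 0, 0, 0, 0, 0, 0, 0, 0⟩,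
⟨123, 41, 118, (.cons 210 189 .nil (.cons 229 251 (.cons 210 189 .nil (.cons 250 228 .nil .nil)) (.cons 250 228 (.cons 210 189 .nil (.cons 210 189 .nil (.cons 210 230 .nil .nil))) (.cons 210 189 (.exit 0) (.cons 228 229 (.cons 210 189 .nil (.cons 210 189 (.cons 229 230 .nil (.cons 250 228 .nil .nil)) (.cons 250 228 (.cons 210 189 .nil (.cons 210 189 .nil .nil)) (.cons 210 189 (.cons 229 230 .nil (.cons 250 228 .nil .nil)) .nil)))) .nil))))), [124], 0, 0, 0, 0, 0, 0, 0, 0⟩,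
⟨124, 40, 117, (.cons 210 190 (.exit 0) (.cons 271 249 .nil .nil)), [125], 0, 0, 0, 0, 0, 0, 0, 0⟩,
⟨125, 40, 116, (.cons 210 191 (.exit 0) (.cons 269 249 (.cons 210 191 .nil (.cons 190 231 (.cons 210 191 .nil .nil) .nil)) (.cons 210 191 .nil (.cons 190 231 (.cons 253 251 (.cons 210 191 .nil .nil) (.cons 231 249 (.cons 210 191 .nil .nil) (.cons 210 191 .nil .nil))) .nil)))), [126], 0, 0, 0, 0, 0, 0, 0, 0⟩,
⟨126, 41, 115, (.cons 210 190 (.exit 0) .nil), [127], 0, 0, 0, 0, 0, 0, 0, 0⟩,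
⟨127, 41, 114, (.cons 210 189 .nil (.cons 229 251 (.cons 210 189 .nil (.cons 250 228 .nil .nil)) (.cons 250 228 (.cons 210 189 .nil (.cons 210 189 .nil (.cons 210 230 .nil .nil))) (.cons 210 189 (.exit 0) (.cons 228 229 (.cons 210 189 .nil (.cons 210 189 (.cons 229 230 .nil (.cons 250 228 .nil .nil)) (.cons 250 228 (.cons 210 189 .nil (.cons 210 189 .nil .nil)) (.cons 210 189 (.cons 229 230 .nil (.cons 250 228 .nil .nil)) .nil)))) .nil))))), [128], 0, 0, 0, 0, 0, 0, 0, 0⟩,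
⟨128, 40, 113, (.cons 210 190 (.exit 0) (.cons 271 249 .nil .nil)), [129], 0, 0, 0, 0, 0, 0, 0, 0⟩]

theorem uMEMpL7_ok : grpNU MMEM.H MMEM.A SMEM (phs 2382 uMEMp7) uMEMpL7 = true := by decide +kernel

/-- accumulated states -/
def uMEMp8 : List Mo := addN 2382 uMEMpL7 uMEMp7

theorem MEMpass_up {R : Room} {F : Board} {O : Sq} (hF : MBase MMEM O F R) (h0 : HasValue (PM MMEM SMEM F O 271 2382)) :
    HasValue (PM MMEM SMEM F O 106 2382) := by
  have a0 : HVs MMEM SMEM F O uMEMp0 := by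
    intro m hm
    rw [List.mem_singleton.1 hm]
    exact h0
  have a1 := HVs.N hF MMEM_ok 2382 (by decide +kernel) uMEMpL0 uMEMpL0_ok a0
  have a2 := HVs.U hF MMEM_ok uMEMpP1 uMEMpL1 uMEMpP1_ok uMEMpL1_ok a1
  have a3 := HVs.U hF MMEM_ok uMEMpP2 uMEMpL2 uMEMpP2_ok uMEMpL2_ok a2
  have a4 := HVs.U hF MMEM_ok uMEMpP3 uMEMpL3 uMEMpP3_ok uMEMpL3_ok a3
  have a5 := HVs.U hF MMEM_ok uMEMpP4 uMEMpL4 uMEMpP4_ok uMEMpL4_ok a4
  have a6 := HVs.N hF MMEM_ok 2382 (by decide +kernel) uMEMpL5 uMEMpL5_ok a5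
  have a7 := HVs.N hF MMEM_ok 2382 (by decide +kernel) uMEMpL6 uMEMpL6_ok a6
  have a8 := HVs.N hF MMEM_ok 2382 (by decide +kernel) uMEMpL7 uMEMpL7_ok a7
  exact a8 ⟨106, 2382⟩ (ME2_membM _ (by decide +kernel))

end Pool.Agent.Lib.H32C.Loc
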