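import Pool.Agent.Lib.H32C.TdT0
import Pool.Agent.Lib.H32C.TouT

/-!
# Part a of the certificate of the tile TdT
-/

set_option autoImplicit false

namespace Pool.Agent.Lib.H32C.Loc

/-- the pairs at the exit -/
def ktouU_0 : List Mo := [⟨96, 1⟩]

theorem ctouU_0 : CY Wtou Stou ktouU_0 ktouU_0 := .nil

/-- items -/
def gtouU_1 : List WU :=
  [⟨74, 1, 23, 48, 0, (.cons 210 190 (.exit 0) .nil), [75], []⟩,
   ⟨75, 1, 23, 47, 0, (.cons 210 189 (.exit 0) (.cons 210 189 .nil (.cons 209 231 (.cons 210 209 (.cons 212 231 .nil .nil) (.cons 210 189 .nil .nil)) .nil))), [76], []⟩,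
   ⟨76, 1, 22, 46, 0, (.cons 210 190 (.exit 0) .nil), [77], []⟩,
   ⟨77, 1, 22, 45, 0, (.cons 210 189 (.exit 0) (.cons 210 189 .nil (.cons 209 231 (.cons 210 209 .nil (.cons 210 189 .nil .nil)) .nil))), [78], []⟩,
   ⟨78, 1, 21, 44, 0, (.cons 210 190 (.exit 0) .nil), [79], []⟩,
   ⟨79, 1, 21, 43, 0, (.cons 210 191 (.exit 0) (.cons 250 232 (.cons 210 191 .nil (.cons 210 230 .nil .nil)) (.cons 210 191 .nil (.cons 232 231 (.cons 210 191 (.cons 250 232 .nil (.cons 231 230 .nil .nil)) (.cons 250 232 (.cons 210 191 .nil .nil) (.cons 210 191 .nil .nil))) .nil)))), [80], []⟩,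
   ⟨80, 1, 22, 42, 0, (.cons 269 251 .nil (.cons 210 190 (.exit 0) .nil)), [81], []⟩,
   ⟨81, 1, 22, 41, 0, (.cons 210 189 .nil (.cons 232 251 (.cons 210 189 .nil (.cons 250 228 (.cons 210 230 .nil .nil) (.cons 210 229 (.cons 271 251 .nil (.cons 229 210 .nil .nil)) .nil))) (.cons 250 228 (.cons 210 189 .nil (.cons 210 189 .nil (.cons 210 230 .nil .nil))) (.cons 210 189 (.exit 0) (.cons 210 189 (.cons 189 188 .nil (.cons 250 228 (.cons 189 188 .nil .nil) (.cons 189 188 .nil .nil))) .nil))))), [82], []⟩,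
   ⟨82, 1, 21, 40, 0, (.cons 210 209 (.exit 0) (.cons 271 249 .nil .nil)), [83], []⟩,
   ⟨83, 1, 20, 40, 0, (.cons 210 229 (.exit 0) (.cons 231 249 .nil .nil)), [84], []⟩,
   ⟨84, 1, 19, 41, 0, (.cons 210 209 (.exit 0) .nil), [85], []⟩,
   ⟨85, 1, 18, 41, 0, (.cons 254 232 (.cons 210 189 .nil (.cons 213 231 (.cons 210 189 .nil .nil) .nil)) (.cons 210 189 .nil (.cons 210 189 (.exit 0) (.cons 210 189 (.cons 189 188 (.cons 270 229 .nil .nil) .nil) .nil)))), [86], []⟩,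
   ⟨86, 1, 17, 40, 0, (.cons 210 209 (.exit 0) .nil), [87], []⟩,
   ⟨87, 1, 16, 40, 0, (.cons 292 251 (.cons 210 229 .nil .nil) (.cons 210 229 (.exit 0) .nil)), [88], []⟩,
   ⟨88, 1, 15, 41, 0, (.cons 273 232 .nil (.cons 210 209 (.exit 0) .nil)), [89], []⟩,
   ⟨89, 1, 14, 41, 0, (.cons 213 232 (.cons 210 189 .nil .nil) (.cons 210 189 .nil (.cons 210 189 (.exit 0) .nil))), [90], []⟩,
   ⟨90, 1, 13, 40, 0, (.cons 210 209 (.exit 0) .nil), [91], []⟩,
   ⟨91, 1, 12, 40, 0, (.cons 212 251 (.cons 210 229 .nil .nil) (.cons 210 229 (.exit 0) .nil)), [92], []⟩,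
   ⟨92, 1, 11, 41, 0, (.cons 193 232 .nil (.cons 210 209 (.exit 0) .nil)), [93], []⟩,
   ⟨93, 1, 10, 41, 0, (.cons 233 232 (.cons 210 189 .nil .nil) (.cons 210 189 .nil (.cons 210 189 (.exit 0) .nil))), [94], []⟩,
   ⟨94, 1, 9, 40, 0, (.cons 210 209 (.exit 0) .nil), [95], []⟩,
   ⟨95, 1, 8, 40, 0, (.cons 212 251 (.cons 210 229 .nil .nil) (.cons 210 229 (.exit 0) .nil)), [96], []⟩]

theorem otouU_1 : grpWU Wtou Stou ktouU_0 gtouU_1 = true := by decide +kernel

theorem wtouU_1 : wpTU Wtou gtouU_1 = true := by decide +kernel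

theorem xtouU_1 : noX gtouU_1 = true := by decide +kernel

/-- the pairs proved -/
def ktouU_1 : List Mo := keysWU gtouU_1 ktouU_0

theorem ctouU_1 : CY Wtou Stou ktouU_0 ktouU_1 :=
  .grp ctouU_0 gtouU_1 otouU_1 wtouU_1 xtouU_1

/-- items -/
def gtouU_2 : List WU :=
  [⟨54, 1, 35, 66, 0, (.cons 210 209 (.exit 0) (.cons 271 249 (.cons 210 209 (.cons 229 250 .nil (.cons 249 231 .nil .nil)) .nil) .nil)), [55], []⟩,
   ⟨55, 1, 34, 66, 0, (.cons 230 251 .nil (.cons 210 189 (.exit 0) .nil)), [56], []⟩,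
   ⟨56, 1, 33, 65, 0, (.cons 269 251 .nil (.cons 210 190 (.exit 0) .nil)), [57], []⟩,
   ⟨57, 1, 33, 64, 0, (.cons 210 189 (.exit 0) .nil), [58], []⟩,
   ⟨58, 1, 32, 63, 0, (.cons 210 209 (.exit 0) .nil), [59], []⟩,
   ⟨59, 1, 31, 63, 0, (.cons 230 251 (.cons 253 231 .nil (.cons 190 229 .nil .nil)) (.cons 210 189 (.exit 0) (.cons 210 189 (.cons 248 230 .nil (.cons 189 169 .nil .nil)) (.cons 210 189 (.cons 189 169 (.cons 169 148 .nil .nil) (.cons 189 169 .nil (.cons 189 169 .nil .nil))) .nil)))), [60], []⟩,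
   ⟨60, 1, 30, 62, 0, (.cons 269 251 .nil (.cons 210 190 (.exit 0) .nil)), [61], []⟩,
   ⟨61, 1, 30, 61, 0, (.cons 210 189 (.exit 0) .nil), [62], []⟩,
   ⟨62, 1, 29, 60, 0, (.cons 210 190 (.exit 0) .nil), [63], []⟩,
   ⟨63, 1, 29, 59, 0, (.cons 210 189 (.exit 0) (.cons 210 189 .nil (.cons 210 189 .nil (.cons 209 231 (.cons 210 209 (.cons 272 250 .nil .nil) (.cons 210 189 .nil (.cons 210 189 .nil .nil))) .nil)))), [64], []⟩,
   ⟨64, 1, 28, 58, 0, (.cons 210 190 (.exit 0) .nil), [65], []⟩,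
   ⟨65, 1, 28, 57, 0, (.cons 210 189 (.exit 0) (.cons 210 189 .nil (.cons 210 189 .nil (.cons 209 231 (.cons 210 209 (.cons 212 231 .nil .nil) (.cons 210 189 .nil (.cons 210 189 .nil .nil))) .nil)))), [66], []⟩,
   ⟨66, 1, 27, 56, 0, (.cons 210 190 (.exit 0) .nil), [67], []⟩,
   ⟨67, 1, 27, 55, 0, (.cons 210 189 (.exit 0) (.cons 210 189 .nil (.cons 209 231 (.cons 210 209 (.cons 212 231 .nil .nil) (.cons 210 189 .nil .nil)) .nil))), [68], []⟩,
   ⟨68, 1, 26, 54, 0, (.cons 210 190 (.exit 0) .nil), [69], []⟩,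
   ⟨69, 1, 26, 53, 0, (.cons 210 189 (.exit 0) (.cons 210 189 .nil (.cons 209 231 (.cons 210 209 .nil (.cons 210 189 .nil .nil)) .nil))), [70], []⟩,
   ⟨70, 1, 25, 52, 0, (.cons 210 190 (.exit 0) .nil), [71], []⟩,
   ⟨71, 1, 25, 51, 0, (.cons 210 189 (.exit 0) (.cons 210 189 .nil (.cons 210 189 .nil (.cons 209 231 (.cons 210 209 .nil (.cons 210 189 .nil (.cons 210 189 .nil .nil))) .nil)))), [72], []⟩,
   ⟨72, 1, 24, 50, 0, (.cons 210 190 (.exit 0) .nil), [73], []⟩,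
   ⟨73, 1, 24, 49, 0, (.cons 210 189 (.exit 0) (.cons 210 189 .nil (.cons 210 189 .nil (.cons 209 231 (.cons 210 209 (.cons 212 231 .nil .nil) (.cons 210 189 .nil (.cons 210 189 .nil .nil))) .nil)))), [74], []⟩]

theorem otouU_2 : grpWU Wtou Stou ktouU_1 gtouU_2 = true := by decide +kernel

theorem wtouU_2 : wpTU Wtou gtouU_2 = true := by decide +kernel

theorem xtouU_2 : noX gtouU_2 = true := by decide +kernel

/-- the pairs proved -/
def ktouU_2 : List Mo := keysWU gtouU_2 ktouU_1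

theorem ctouU_2 : CY Wtou Stou ktouU_0 ktouU_2 :=
  .grp ctouU_1 gtouU_2 otouU_2 wtouU_2 xtouU_2

/-- items -/
def gtouU_3 : List WU :=
  [⟨51, 1, 37, 69, 0, (.cons 210 189 (.exit 0) (.cons 210 189 .nil (.cons 228 249 (.cons 210 189 .nil (.cons 210 189 .nil (.cons 209 231 (.cons 210 189 .nil (.cons 210 189 .nil .nil)) (.cons 210 229 (.cons 209 248 .nil .nil) .nil)))) (.cons 210 189 .nil (.cons 209 231 (.cons 210 209 (.cons 127 168 .nil (.cons 166 187 .nil .nil)) (.cons 210 189 .nil (.cons 228 249 (.cons 210 189 .nil (.cons 210 189 .nil .nil)) (.cons 210 189 .nil .nil)))) (.cons 247 229 (.cons 229 251 (.cons 210 189 .nil (.cons 210 189 .nil .nil)) (.cons 210 189 .nil (.cons 228 249 (.cons 210 189 .nil (.cons 210 189 .nil .nil)) (.cons 210 189 .nil .nil)))) .nil)))))), [52], []⟩,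
   ⟨52, 1, 36, 68, 0, (.cons 210 190 (.exit 0) .nil), [53], []⟩,
   ⟨53, 1, 36, 67, 0, (.cons 210 189 (.exit 0) (.cons 250 228 (.cons 210 189 (.cons 189 188 (.cons 208 229 .nil (.cons 228 210 .nil .nil)) .nil) (.cons 210 189 .nil (.cons 210 189 (.cons 189 188 .nil .nil) .nil))) (.cons 210 189 (.cons 250 228 .nil .nil) (.cons 210 189 (.cons 189 188 .nil (.cons 189 188 (.cons 188 167 .nil .nil) .nil)) .nil)))), [54], []⟩]

theorem otouU_3 : grpWU Wtou Stou ktouU_2 gtouU_3 = true := by decide +kernel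

theorem wtouU_3 : wpTU Wtou gtouU_3 = true := by decide +kernel

theorem xtouU_3 : noX gtouU_3 = true := by decide +kernel

/-- the pairs proved -/
def ktouU_3 : List Mo := keysWU gtouU_3 ktouU_2

theorem ctouU_3 : CY Wtou Stou ktouU_0 ktouU_3 :=
  .grp ctouU_2 gtouU_3 otouU_3 wtouU_3 xtouU_3

/-- items with a ray down -/
def gtouU_4 : List TU :=
  [⟨⟨50, 1, 37, 70, 352, (.cons 210 190 (.exit 0) (.cons 210 190 (.cons 190 169 .nil (.cons 190 169 (.cons 168 189 .nil .nil) (.cons 190 169 (.cons 168 189 .nil .nil) (.cons 190 169 (.cons 227 188 (.cons 168 189 .nil .nil) (.cons 168 189 (.cons 169 168 .nil .nil) .nil)) (.cons 190 169 (.cons 151 170 .nil (.cons 168 189 .nil (.cons 169 190 (.cons 190 169 .nil (.cons 190 169 .nil (.cons 190 169 .nil (.cons 190 169 (.cons 227 188 .nil .nil) .nil)))) (.cons 189 211 .nil .nil)))) (.cons 168 189 (.cons 190 169 .nil (.cons 190 169 .nil (.cons 190 169 .nil (.cons 190 169 (.cons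 169 168 .nil .nil) .nil)))) .nil)))))) (.cons 210 190 (.cons 190 169 .nil (.cons 190 169 .nil (.cons 190 169 .nil (.cons 190 169 (.cons 227 188 .nil .nil) (.cons 173 192 (.cons 190 169 .nil (.cons 190 169 .nil (.cons 190 169 .nil (.cons 190 169 (.cons 227 188 .nil .nil) .nil)))) .nil))))) .nil))), [51], []⟩, 52⟩]

theorem otouU_4 : grpTU Wtou Stou ktouU_3 gtouU_4 = true := by decide +kernel

theorem wtouU_4 : wpT Wtou gtouU_4 = true := by decide +kernel

/-- the pairs proved -/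
def ktouU_4 : List Mo := keysTU gtouU_4 ktouU_3

theorem ctouU_4 : CY Wtou Stou ktouU_0 ktouU_4 :=
  .dn ctouU_3 gtouU_4 otouU_4 wtouU_4

/-- items with a ray down -/
def gtouU_5 : List TU :=
  [⟨⟨49, 1, 38, 71, 351, (.cons 210 189 (.cons 113 132 .nil .nil) (.cons 210 189 (.exit 0) (.cons 210 189 (.cons 189 169 (.cons 169 148 .nil (.cons 169 148 .nil (.cons 168 190 (.cons 169 148 .nil (.cons 169 148 .nil .nil)) (.cons 206 188 (.cons 169 148 .nil (.cons 169 148 .nil .nil)) .nil)))) (.cons 189 169 (.cons 169 148 .nil (.cons 206 188 .nil .nil)) (.cons 212 231 (.cons 189 169 (.cons 169 148 .nil (.cons 169 148 .nil (.cons 168 190 (.cons 169 148 .nil (.cons 169 148 .nil .nil)) (.cons 206 188 (.cons 169 148 .nil (.cons 169 148 .nil .nil)) .nil)))) (.cons 189 169 (.cons 169 190 .nil (.cons 206 188 .nil .nil)) (.cons 189 169 (.cons 169 148 .nil (.cons 206 188 .nil .nil)) .nil))) (.cons 189 169 (.cons 169 148 .nil (.cons 169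 148 (.cons 206 167 .nil .nil) (.cons 152 171 (.cons 169 148 .nil (.cons 206 188 .nil .nil)) .nil))) .nil)))) (.cons 210 189 (.cons 189 169 (.cons 169 148 .nil (.cons 169 148 .nil (.cons 168 190 (.cons 169 148 .nil (.cons 169 148 .nil .nil)) (.cons 206 188 (.cons 169 148 .nil (.cons 169 148 .nil .nil)) .nil)))) (.cons 189 169 (.cons 169 148 .nil (.cons 206 188 .nil .nil)) (.cons 212 231 (.cons 189 169 (.cons 169 148 .nil (.cons 169 148 .nil (.cons 168 190 (.cons 169 148 .nil (.cons 169 148 .nil .nil)) (.cons 206 188 (.cons 169 148 .nil (.cons 169 148 .nil .nil)) .nil)))) (.cons 189 169 (.cons 169 190 .nil (.cons 206 188 .nil .nil)) (.cons 189 169 (.cons 169 148 .nil (.cons 206 188 .nil .nil)) .nil))) (.cons 189 169 (.cons 169 148 .nil (.cons 169 148 (.cons 206 167 .nil .nil) (.cons 152 171 (.cons 169 148 .nil (.cons 206 188 .nil .nil)) .nil))) .nil)))) (.cons 190 211 (.cons 210 191 .nil (.cons 210 189 (.cons 211 230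 (.cons 113 132 .nil .nil) (.cons 113 132 (.cons 211 230 .nil .nil) .nil)) (.cons 210 191 (.cons 191 192 .nil .nil) (.cons 210 191 (.cons 191 192 .nil .nil) .nil)))) (.cons 212 231 (.cons 210 191 .nil (.cons 210 211 (.cons 211 212 (.cons 232 251 .nil .nil) .nil) (.cons 210 211 .nil (.cons 210 211 .nil (.cons 210 211 (.cons 211 192 .nil .nil) .nil))))) (.cons 210 189 (.cons 189 169 (.cons 169 148 (.cons 168 190 .nil .nil) (.cons 168 190 (.cons 187 208 (.cons 190 229 .nil (.cons 169 190 .nil .nil)) (.cons 190 229 (.cons 169 190 .nil (.cons 169 148 .nil .nil)) (.cons 169 190 (.cons 190 169 .nil (.cons 187 208 .nil .nil)) .nil))) (.cons 169 188 (.cons 186 207 (.cons 168 190 .nil .nil) (.cons 168 190 (.cons 186 207 .nil .nil) .nil)) (.cons 168 190 (.cons 169 148 .nil (.cons 169 148 .nil (.cons 169 168 (.cons 108 127 .nil (.cons 125 146 .nil .nil)) (.cons 169 188 (.cons 186 207 .nil .nil) .nil)))) .nil)))) (.cons 168 190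 (.cons 189 210 (.cons 210 230 (.cons 230 251 .nil (.cons 190 208 .nil .nil)) (.cons 210 230 .nil (.cons 210 230 .nil .nil))) (.cons 189 169 (.cons 169 190 .nil (.cons 206 188 .nil .nil)) .nil)) (.cons 189 169 (.cons 169 148 (.cons 147 168 .nil .nil) (.cons 169 148 (.cons 206 167 (.cons 147 168 .nil (.cons 168 190 .nil .nil)) (.cons 147 168 (.cons 148 147 .nil .nil) (.cons 168 190 (.cons 148 169 .nil .nil) .nil))) (.cons 169 148 (.cons 130 149 .nil (.cons 147 168 .nil (.cons 148 169 (.cons 169 190 .nil (.cons 206 188 .nil .nil)) (.cons 168 190 .nil .nil)))) (.cons 147 168 (.cons 169 190 .nil (.cons 206 188 .nil .nil)) (.cons 168 190 (.cons 169 190 .nil (.cons 206 188 .nil .nil)) .nil))))) (.cons 212 231 (.cons 189 210 (.cons 210 230 (.cons 230 251 .nil (.cons 187 208 .nil .nil)) (.cons 210 230 .nil (.cons 210 230 .nil (.cons 210 230 .nil .nil)))) (.cons 189 169 (.cons 169 190 .nil (.cons 206 188 .nil .nil)) .nil))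 (.cons 189 169 (.cons 169 148 .nil (.cons 169 148 (.cons 148 167 (.cons 232 251 .nil .nil) (.cons 168 190 (.cons 148 169 .nil .nil) .nil)) (.cons 169 148 (.cons 147 168 .nil (.cons 148 169 (.cons 169 190 .nil (.cons 206 188 .nil .nil)) (.cons 168 190 .nil .nil))) (.cons 152 171 (.cons 169 190 .nil (.cons 206 188 .nil .nil)) (.cons 153 172 (.cons 169 190 .nil (.cons 206 188 .nil .nil)) (.cons 168 190 (.cons 169 190 .nil (.cons 206 188 .nil .nil)) .nil)))))) .nil))))) .nil))))))), [50], []⟩, 51⟩]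

theorem otouU_5 : grpTU Wtou Stou ktouU_4 gtouU_5 = true := by decide +kernel

theorem wtouU_5 : wpT Wtou gtouU_5 = true := by decide +kernel

/-- the pairs proved -/
def ktouU_5 : List Mo := keysTU gtouU_5 ktouU_4

theorem ctouU_5 : CY Wtou Stou ktouU_0 ktouU_5 :=
  .dn ctouU_4 gtouU_5 otouU_5 wtouU_5

/-- items with a ray down -/
def gtouU_6 : List TU :=
  [⟨⟨47, 1, 37, 73, 352, (.cons 210 191 (.exit 0) (.cons 151 172 (.cons 210 191 (.cons 191 171 (.cons 171 152 .nil (.cons 171 150 (.cons 172 191 (.cons 74 93 .nil .nil) (.cons 74 93 (.cons 172 191 .nil .nil) .nil)) (.cons 171 152 (.cons 152 153 .nil .nil) (.cons 171 152 (.cons 152 153 .nil .nil) .nil)))) .nil) .nil) .nil)), [48], []⟩, 52⟩,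
   ⟨⟨48, 1, 38, 72, 351, (.cons 210 190 (.exit 0) (.cons 192 211 (.cons 210 191 (.cons 191 172 .nil .nil) .nil) (.cons 212 231 (.cons 210 191 (.cons 191 212 .nil .nil) .nil) (.cons 170 191 (.cons 210 190 (.cons 190 171 .nil (.cons 190 169 (.cons 191 210 (.cons 93 112 .nil .nil) (.cons 93 112 (.cons 191 210 .nil .nil) .nil)) (.cons 190 171 (.cons 171 172 .nil .nil) (.cons 190 171 (.cons 171 172 .nil .nil) .nil)))) .nil) .nil)))), [49], []⟩, 51⟩]

theorem otouU_6 : grpTU Wtou Stou ktouU_5 gtouU_6 = true := by decide +kernel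

theorem wtouU_6 : wpT Wtou gtouU_6 = true := by decide +kernel

/-- the pairs proved -/
def ktouU_6 : List Mo := keysTU gtouU_6 ktouU_5

theorem ctouU_6 : CY Wtou Stou ktouU_0 ktouU_6 :=
  .dn ctouU_5 gtouU_6 otouU_6 wtouU_6

/-- items -/
def gtouU_7 : List WU :=
  [⟨28, 1, 25, 89, 0, (.cons 210 190 (.exit 0) .nil), [29], []⟩,
   ⟨29, 1, 25, 88, 0, (.cons 210 191 .nil (.cons 210 191 (.exit 0) (.cons 211 229 (.cons 210 191 .nil (.cons 210 211 (.cons 208 229 .nil .nil) .nil)) .nil))), [30], []⟩,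
   ⟨30, 1, 26, 87, 0, (.cons 210 190 (.exit 0) .nil), [31], []⟩,
   ⟨31, 1, 26, 86, 0, (.cons 210 191 .nil (.cons 210 191 (.exit 0) (.cons 211 229 (.cons 210 191 .nil (.cons 210 211 .nil .nil)) .nil))), [32], []⟩,
   ⟨32, 1, 27, 85, 0, (.cons 210 190 (.exit 0) .nil), [33], []⟩,
   ⟨33, 1, 27, 84, 0, (.cons 210 191 .nil (.cons 210 191 .nil (.cons 210 191 (.exit 0) (.cons 211 229 (.cons 210 191 .nil (.cons 210 191 .nil (.cons 210 211 .nil .nil))) .nil)))), [34], []⟩,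
   ⟨34, 1, 28, 83, 0, (.cons 210 190 (.exit 0) .nil), [35], []⟩,
   ⟨35, 1, 28, 82, 0, (.cons 210 191 .nil (.cons 210 191 .nil (.cons 210 191 (.exit 0) (.cons 211 229 (.cons 210 191 .nil (.cons 210 191 .nil (.cons 210 211 (.cons 208 229 .nil .nil) .nil))) .nil)))), [36], []⟩,
   ⟨36, 1, 29, 81, 0, (.cons 210 190 (.exit 0) .nil), [37], []⟩,
   ⟨37, 1, 29, 80, 0, (.cons 210 191 .nil (.cons 210 191 (.exit 0) (.cons 211 229 (.cons 210 191 .nil (.cons 210 211 (.cons 208 229 .nil .nil) .nil)) .nil))), [38], []⟩,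
   ⟨38, 1, 30, 79, 0, (.cons 210 190 (.exit 0) .nil), [39], []⟩,
   ⟨39, 1, 30, 78, 0, (.cons 210 191 .nil (.cons 210 191 (.exit 0) (.cons 210 191 (.cons 191 192 .nil .nil) .nil))), [40], []⟩,
   ⟨40, 1, 31, 77, 0, (.cons 210 211 (.exit 0) .nil), [41], []⟩,
   ⟨41, 1, 32, 77, 0, (.cons 210 191 (.exit 0) (.cons 230 249 .nil .nil)), [42], []⟩,
   ⟨42, 1, 33, 76, 0, (.cons 210 211 (.exit 0) (.cons 230 249 .nil .nil)), [43], []⟩,
   ⟨43, 1, 34, 76, 0, (.cons 210 191 (.cons 208 190 .nil .nil) (.cons 210 191 (.exit 0) (.cons 210 191 (.cons 208 190 .nil .nil) (.cons 210 190 (.cons 110 149 .nil (.cons 190 171 .nil .nil)) .nil)))), [44], []⟩,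
   ⟨44, 1, 35, 75, 0, (.cons 210 211 (.exit 0) (.cons 188 209 (.cons 209 228 .nil .nil) .nil)), [45], []⟩,
   ⟨45, 1, 36, 75, 0, (.cons 210 191 (.exit 0) (.cons 210 191 .nil (.cons 210 189 (.cons 146 167 (.cons 189 208 (.cons 230 249 .nil (.cons 208 228 .nil .nil)) (.cons 189 170 (.cons 167 188 .nil .nil) (.cons 189 169 (.cons 168 189 .nil (.cons 169 150 .nil .nil)) .nil))) (.cons 189 208 (.cons 208 228 (.cons 228 209 .nil (.cons 228 209 .nil .nil)) (.cons 208 227 .nil (.cons 208 228 .nil (.cons 208 227 .nil .nil)))) (.cons 189 170 (.cons 170 191 (.cons 191 211 (.cons 149 170 .nil (.cons 211 191 .nil .nil)) .nil) .nil) (.cons 189 169 (.cons 168 189 .nil (.cons 169 150 .nil .nil)) .nil)))) .nil))), [46], []⟩,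
   ⟨46, 1, 37, 74, 0, (.cons 210 190 (.exit 0) .nil), [47], []⟩]

theorem otouU_7 : grpWU Wtou Stou ktouU_6 gtouU_7 = true := by decide +kernel

theorem wtouU_7 : wpTU Wtou gtouU_7 = true := by decide +kernel

theorem xtouU_7 : noX gtouU_7 = true := by decide +kernel

/-- the pairs proved -/
def ktouU_7 : List Mo := keysWU gtouU_7 ktouU_6

theorem ctouU_7 : CY Wtou Stou ktouU_0 ktouU_7 :=
  .grp ctouU_6 gtouU_7 otouU_7 wtouU_7 xtouU_7

/-- items -/
def gtouU_8 : List WU :=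
  [⟨14, 1, 21, 102, 0, (.cons 210 211 (.exit 0) .nil), [15], []⟩,
   ⟨15, 1, 22, 102, 0, (.cons 210 191 (.exit 0) (.cons 230 249 .nil .nil)), [16], []⟩,
   ⟨16, 1, 23, 101, 0, (.cons 210 190 (.exit 0) (.cons 230 249 .nil .nil)), [17], []⟩,
   ⟨17, 1, 23, 100, 0, (.cons 210 189 (.exit 0) .nil), [18], []⟩,
   ⟨18, 1, 22, 99, 0, (.cons 210 190 (.exit 0) (.cons 250 228 .nil .nil)), [19], []⟩,
   ⟨19, 1, 22, 98, 0, (.cons 210 189 (.exit 0) (.cons 228 249 (.cons 210 189 .nil (.cons 209 231 (.cons 210 189 .nil (.cons 210 209 .nil (.cons 210 209 (.cons 209 228 .nil .nil) .nil))) (.cons 209 231 (.cons 210 189 .nil (.cons 210 209 .nil .nil)) (.cons 210 229 (.cons 229 228 .nil .nil) .nil)))) (.cons 210 189 .nil (.cons 210 189 (.cons 189 169 (.cons 169 150 .nil (.cons 171 190 (.cons 186 208 .nil .nil) .nil)) .nil) (.cons 210 189 (.cons 189 169 (.cons 169 150 .nil (.cons 171 190 (.cons 186 208 .nil .nil) .nil)) .nil) (.cons 210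 189 (.cons 189 169 (.cons 169 150 .nil (.cons 171 190 (.cons 186 208 .nil .nil) .nil)) (.cons 189 169 (.cons 171 190 .nil .nil) .nil)) .nil)))))), [20], []⟩,
   ⟨20, 1, 21, 97, 0, (.cons 210 190 (.exit 0) .nil), [21], []⟩,
   ⟨21, 1, 21, 96, 0, (.cons 210 191 (.exit 0) (.cons 210 191 .nil (.cons 210 231 (.cons 250 272 (.cons 231 210 (.cons 210 191 .nil .nil) (.cons 231 210 (.cons 210 191 .nil .nil) (.cons 231 250 (.cons 250 249 .nil .nil) (.cons 231 210 (.cons 210 191 .nil .nil) .nil)))) (.cons 231 210 (.cons 210 191 .nil .nil) (.cons 231 210 (.cons 210 191 .nil .nil) (.cons 227 249 (.cons 231 230 .nil (.cons 231 210 .nil (.cons 231 210 .nil .nil))) (.cons 231 210 (.cons 210 191 .nil .nil) .nil))))) .nil))), [22], []⟩,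
   ⟨22, 1, 22, 95, 0, (.cons 210 190 (.exit 0) .nil), [23], []⟩,
   ⟨23, 1, 22, 94, 0, (.cons 210 191 .nil (.cons 232 251 (.cons 210 191 .nil (.cons 210 231 (.cons 211 250 .nil .nil) (.cons 211 229 (.cons 210 191 .nil (.cons 210 211 (.cons 211 232 .nil .nil) .nil)) .nil))) (.cons 210 191 (.exit 0) (.cons 210 191 (.cons 191 171 (.cons 171 152 .nil (.cons 171 152 .nil (.cons 172 190 (.cons 171 152 .nil (.cons 171 152 .nil .nil)) .nil))) (.cons 191 171 (.cons 171 152 .nil .nil) .nil)) (.cons 210 191 (.cons 191 171 (.cons 171 152 .nil (.cons 171 152 .nil (.cons 172 190 (.cons 171 152 .nil (.cons 171 152 .nil .nil)) .nil))) .nil) .nil))))), [24], []⟩,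
   ⟨24, 1, 23, 93, 0, (.cons 210 190 (.exit 0) .nil), [25], []⟩,
   ⟨25, 1, 23, 92, 0, (.cons 210 191 .nil (.cons 210 191 .nil (.cons 210 191 (.exit 0) (.cons 211 229 (.cons 210 191 .nil (.cons 210 191 .nil (.cons 210 211 .nil .nil))) .nil)))), [26], []⟩,
   ⟨26, 1, 24, 91, 0, (.cons 210 190 (.exit 0) .nil), [27], []⟩,
   ⟨27, 1, 24, 90, 0, (.cons 210 191 .nil (.cons 210 191 .nil (.cons 210 191 (.exit 0) (.cons 211 229 (.cons 210 191 .nil (.cons 210 191 .nil (.cons 210 211 (.cons 208 229 .nil .nil) .nil))) .nil)))), [28], []⟩]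

theorem otouU_8 : grpWU Wtou Stou ktouU_7 gtouU_8 = true := by decide +kernel

theorem wtouU_8 : wpTU Wtou gtouU_8 = true := by decide +kernel

theorem xtouU_8 : noX gtouU_8 = true := by decide +kernel

/-- the pairs proved -/
def ktouU_8 : List Mo := keysWU gtouU_8 ktouU_7

theorem ctouU_8 : CY Wtou Stou ktouU_0 ktouU_8 :=
  .grp ctouU_7 gtouU_8 otouU_8 wtouU_8 xtouU_8

/-- items -/
def gtouU_9 : List WU :=
  [⟨0, 1, 8, 104, 0, (.cons 210 211 (.exit 0) .nil), [1], []⟩,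
   ⟨1, 1, 9, 104, 0, (.cons 210 231 (.exit 0) (.cons 250 249 (.cons 210 231 .nil .nil) .nil)), [2], []⟩,
   ⟨2, 1, 10, 105, 0, (.cons 210 211 (.exit 0) (.cons 229 228 .nil .nil)), [3], []⟩,
   ⟨3, 1, 11, 105, 0, (.cons 210 191 (.exit 0) (.cons 210 191 .nil (.cons 248 228 (.cons 210 191 .nil .nil) .nil))), [4], []⟩,
   ⟨4, 1, 12, 104, 0, (.cons 210 211 (.exit 0) .nil), [5], []⟩,
   ⟨5, 1, 13, 104, 0, (.cons 210 231 (.exit 0) (.cons 250 249 (.cons 210 231 .nil .nil) .nil)), [6], []⟩,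
   ⟨6, 1, 14, 105, 0, (.cons 210 211 (.exit 0) (.cons 229 228 .nil .nil)), [7], []⟩,
   ⟨7, 1, 15, 105, 0, (.cons 210 191 (.exit 0) (.cons 210 191 .nil (.cons 248 228 (.cons 210 191 .nil .nil) .nil))), [8], []⟩,
   ⟨8, 1, 16, 104, 0, (.cons 210 211 (.exit 0) .nil), [9], []⟩,
   ⟨9, 1, 17, 104, 0, (.cons 210 231 (.exit 0) (.cons 230 249 (.cons 210 231 .nil .nil) .nil)), [10], []⟩,
   ⟨10, 1, 18, 105, 0, (.cons 210 211 (.exit 0) (.cons 209 228 .nil .nil)), [11], []⟩,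
   ⟨11, 1, 19, 105, 0, (.cons 210 191 (.exit 0) (.cons 210 191 .nil (.cons 207 228 (.cons 210 191 .nil .nil) .nil))), [12], []⟩,
   ⟨12, 1, 20, 104, 0, (.cons 210 190 (.exit 0) .nil), [13], []⟩,
   ⟨13, 1, 20, 103, 0, (.cons 210 191 (.exit 0) .nil), [14], []⟩]

theorem otouU_9 : grpWU Wtou Stou ktouU_8 gtouU_9 = true := by decide +kernel

theorem wtouU_9 : wpTU Wtou gtouU_9 = true := by decide +kernel

theorem xtouU_9 : noX gtouU_9 = true := by decide +kernel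

/-- the pairs proved -/
def ktouU_9 : List Mo := keysWU gtouU_9 ktouU_8

theorem ctouU_9 : CY Wtou Stou ktouU_0 ktouU_9 :=
  .grp ctouU_8 gtouU_9 otouU_9 wtouU_9 xtouU_9

end Pool.Agent.Lib.H32C.Loc
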