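import Pool.Agent.Lib.H32C.ChK
import Pool.Agent.Lib.H32C.TdWB0

/-!
# Part a of the certificate of the tile TdWB
-/

set_option autoImplicit false

namespace Pool.Agent.Lib.H32C.Loc

/-- the pairs at the exit -/
def kWBU_0 : List Mo := [⟨85, 1⟩]

theorem cWBU_0 : KU 72 AWB 61 11 4283 SWB kWBU_0 kWBU_0 := .nil

/-- items -/
def gWBU_1 : List WU :=
  [⟨73, 1, 41, 19, 0, (.cons 210 190 (.exit 0) .nil), [74], []⟩,
   ⟨74, 1, 41, 18, 0, (.cons 210 189 .nil (.cons 250 228 (.cons 210 189 .nil (.cons 210 230 .nil .nil)) (.cons 210 189 (.exit 0) (.cons 228 229 (.cons 210 189 .nil (.cons 250 228 (.cons 210 189 .nil .nil) (.cons 210 189 (.cons 229 230 .nil (.cons 250 228 .nil .nil)) .nil))) .nil)))), [75], []⟩,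
   ⟨75, 1, 40, 17, 0, (.cons 210 190 (.exit 0) (.cons 271 249 .nil .nil)), [76], []⟩,
   ⟨76, 1, 40, 16, 0, (.cons 210 191 (.exit 0) (.cons 250 232 (.cons 210 191 .nil (.cons 210 191 .nil (.cons 210 230 .nil .nil))) (.cons 269 249 (.cons 250 232 (.cons 210 230 .nil .nil) (.cons 210 191 .nil (.cons 190 231 (.cons 250 232 .nil (.cons 210 191 .nil .nil)) .nil))) (.cons 210 191 .nil (.cons 232 231 (.cons 210 191 (.cons 250 232 .nil (.cons 231 230 .nil .nil)) (.cons 250 232 (.cons 210 191 .nil (.cons 210 191 .nil .nil)) (.cons 210 191 (.cons 250 232 .nil (.cons 231 230 .nil .nil)) (.cons 210 191 .nil .nil)))) .nil))))), [77], []⟩,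
   ⟨77, 1, 41, 15, 0, (.cons 269 251 .nil (.cons 210 190 (.exit 0) .nil)), [78], []⟩,
   ⟨78, 1, 41, 14, 0, (.cons 210 189 .nil (.cons 229 251 (.cons 210 189 .nil (.cons 250 228 .nil .nil)) (.cons 250 228 (.cons 210 189 .nil (.cons 210 189 .nil (.cons 210 230 .nil .nil))) (.cons 210 189 (.exit 0) (.cons 228 229 (.cons 210 189 .nil (.cons 210 189 (.cons 229 230 .nil (.cons 250 228 .nil .nil)) (.cons 250 228 (.cons 210 189 .nil (.cons 210 189 .nil .nil)) (.cons 210 189 (.cons 229 230 .nil (.cons 250 228 .nil .nil)) .nil)))) .nil))))), [79], []⟩,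
   ⟨79, 1, 40, 13, 0, (.cons 210 190 (.exit 0) (.cons 271 249 .nil .nil)), [80], []⟩,
   ⟨80, 1, 40, 12, 0, (.cons 210 191 (.exit 0) (.cons 269 249 (.cons 210 191 .nil (.cons 190 231 (.cons 210 191 .nil .nil) .nil)) (.cons 210 191 .nil (.cons 190 231 (.cons 253 251 (.cons 210 191 .nil .nil) (.cons 231 249 (.cons 210 191 .nil .nil) (.cons 210 191 .nil .nil))) .nil)))), [81], []⟩,
   ⟨81, 1, 41, 11, 0, (.cons 210 190 (.exit 0) .nil), [82], []⟩,
   ⟨82, 1, 41, 10, 0, (.cons 210 189 .nil (.cons 229 251 (.cons 210 189 .nil (.cons 250 228 .nil .nil)) (.cons 250 228 (.cons 210 189 .nil (.cons 210 189 .nil (.cons 210 230 .nil .nil))) (.cons 210 189 (.exit 0) (.cons 228 229 (.cons 210 189 .nil (.cons 210 189 (.cons 229 230 .nil (.cons 250 228 .nil .nil)) (.cons 250 228 (.cons 210 189 .nil (.cons 210 189 .nil .nil)) (.cons 210 189 (.cons 229 230 .nil (.cons 250 228 .nil .nil)) .nil)))) .nil))))),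 [83], []⟩,
   ⟨83, 1, 40, 9, 0, (.cons 210 190 (.exit 0) (.cons 271 249 .nil .nil)), [84], []⟩,
   ⟨84, 1, 40, 8, 0, (.cons 210 191 (.exit 0) (.cons 269 249 (.cons 210 191 .nil (.cons 190 231 (.cons 210 191 .nil .nil) .nil)) (.cons 210 191 .nil (.cons 190 231 (.cons 253 251 (.cons 210 191 .nil .nil) (.cons 231 249 (.cons 210 191 .nil .nil) (.cons 210 191 .nil .nil))) .nil)))), [85], []⟩]

theorem oWBU_1 : grpKU 72 AWB 61 11 SWB kWBU_0 gWBU_1 = true := by decide +kernel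

theorem wWBU_1 : wpU ⟨72, AWB, 61, 4283⟩ gWBU_1 = true := by decide +kernel

/-- the pairs proved -/
def kWBU_1 : List Mo := keysWU gWBU_1 kWBU_0

theorem cWBU_1 : KU 72 AWB 61 11 4283 SWB kWBU_0 kWBU_1 := .grp cWBU_0 gWBU_1 oWBU_1 wWBU_1

/-- items -/
def gWBU_2 : List WU :=
  [⟨53, 1, 31, 39, 0, (.cons 210 190 (.exit 0) .nil), [54], []⟩,
   ⟨54, 1, 31, 38, 0, (.cons 210 191 (.exit 0) (.cons 250 232 (.cons 210 191 .nil (.cons 210 230 (.cons 211 252 .nil .nil) .nil)) (.cons 210 191 .nil (.cons 232 231 (.cons 210 191 (.cons 250 232 .nil (.cons 231 230 .nil .nil)) (.cons 250 232 (.cons 210 191 .nil .nil) (.cons 210 191 .nil .nil))) .nil)))), [55], []⟩,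
   ⟨55, 1, 32, 37, 0, (.cons 269 251 .nil (.cons 210 190 (.exit 0) .nil)), [56], []⟩,
   ⟨56, 1, 32, 36, 0, (.cons 210 191 .nil (.cons 232 251 (.cons 210 191 .nil (.cons 211 229 (.cons 210 191 .nil .nil) .nil)) (.cons 210 191 (.exit 0) (.cons 211 229 (.cons 210 191 .nil (.cons 229 251 (.cons 210 191 .nil .nil) (.cons 210 211 .nil .nil))) .nil)))), [57], []⟩,
   ⟨57, 1, 33, 35, 0, (.cons 210 190 (.exit 0) .nil), [58], []⟩,
   ⟨58, 1, 33, 34, 0, (.cons 210 191 .nil (.cons 210 191 .nil (.cons 210 191 (.exit 0) (.cons 211 229 (.cons 210 191 .nil (.cons 210 191 .nil (.cons 210 211 .nil .nil))) .nil)))), [59], []⟩,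
   ⟨59, 1, 34, 33, 0, (.cons 210 190 (.exit 0) .nil), [60], []⟩,
   ⟨60, 1, 34, 32, 0, (.cons 210 191 .nil (.cons 210 191 .nil (.cons 210 191 (.exit 0) (.cons 211 229 (.cons 210 191 .nil (.cons 210 191 .nil (.cons 210 211 (.cons 208 229 .nil .nil) .nil))) .nil)))), [61], []⟩,
   ⟨61, 1, 35, 31, 0, (.cons 210 190 (.exit 0) .nil), [62], []⟩,
   ⟨62, 1, 35, 30, 0, (.cons 210 191 .nil (.cons 210 191 (.exit 0) (.cons 211 229 (.cons 210 191 .nil (.cons 210 211 (.cons 208 229 .nil .nil) .nil)) .nil))), [63], []⟩,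
   ⟨63, 1, 36, 29, 0, (.cons 210 190 (.exit 0) .nil), [64], []⟩,
   ⟨64, 1, 36, 28, 0, (.cons 210 191 .nil (.cons 210 191 (.exit 0) (.cons 211 229 (.cons 210 191 .nil (.cons 210 211 .nil .nil)) .nil))), [65], []⟩,
   ⟨65, 1, 37, 27, 0, (.cons 210 190 (.exit 0) .nil), [66], []⟩,
   ⟨66, 1, 37, 26, 0, (.cons 210 191 .nil (.cons 210 191 .nil (.cons 210 191 (.exit 0) (.cons 211 229 (.cons 210 191 .nil (.cons 210 191 .nil (.cons 210 211 .nil .nil))) .nil)))), [67], []⟩,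
   ⟨67, 1, 38, 25, 0, (.cons 210 190 (.exit 0) .nil), [68], []⟩,
   ⟨68, 1, 38, 24, 0, (.cons 210 191 .nil (.cons 210 191 .nil (.cons 210 191 (.exit 0) (.cons 211 229 (.cons 210 191 .nil (.cons 210 191 .nil (.cons 210 211 (.cons 208 229 .nil .nil) .nil))) .nil)))), [69], []⟩,
   ⟨69, 1, 39, 23, 0, (.cons 210 190 (.exit 0) .nil), [70], []⟩,
   ⟨70, 1, 39, 22, 0, (.cons 210 191 .nil (.cons 210 191 (.exit 0) (.cons 211 229 (.cons 210 191 .nil (.cons 210 211 (.cons 208 229 .nil .nil) .nil)) .nil))), [71], []⟩,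
   ⟨71, 1, 40, 21, 0, (.cons 210 190 (.exit 0) .nil), [72], []⟩,
   ⟨72, 1, 40, 20, 0, (.cons 210 191 .nil (.cons 210 191 (.exit 0) (.cons 211 229 (.cons 210 191 .nil (.cons 210 211 .nil .nil)) .nil))), [73], []⟩]

theorem oWBU_2 : grpKU 72 AWB 61 11 SWB kWBU_1 gWBU_2 = true := by decide +kernel

theorem wWBU_2 : wpU ⟨72, AWB, 61, 4283⟩ gWBU_2 = true := by decide +kernel

/-- the pairs proved -/
def kWBU_2 : List Mo := keysWU gWBU_2 kWBU_1

theorem cWBU_2 : KU 72 AWB 61 11 4283 SWB kWBU_0 kWBU_2 := .grp cWBU_1 gWBU_2 oWBU_2 wWBU_2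

/-- items -/
def gWBU_3 : List WU :=
  [⟨34, 1, 43, 52, 344, (.cons 210 191 (.exit 0) (.cons 209 231 (.cons 210 191 (.cons 231 213 .nil (.cons 174 193 (.cons 231 213 .nil .nil) .nil)) .nil) .nil)), [35], []⟩,
   ⟨35, 1, 44, 51, 344, (.cons 210 190 (.exit 0) (.cons 210 190 (.cons 190 169 .nil (.cons 190 169 .nil (.cons 190 169 (.cons 169 149 .nil (.cons 169 149 .nil .nil)) (.cons 190 169 (.cons 148 189 .nil .nil) (.cons 190 169 (.cons 148 170 .nil .nil) .nil))))) .nil)), [36], []⟩,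
   ⟨36, 1, 44, 49, 346, (.cons 252 271 (.cons 210 249 (.cons 232 251 .nil .nil) .nil) (.cons 230 209 (.exit 0) (.cons 230 209 (.cons 209 189 (.cons 207 228 .nil .nil) (.cons 209 189 .nil (.cons 209 189 .nil (.cons 209 189 .nil .nil)))) .nil))), [37], []⟩,
   ⟨37, 1, 43, 49, 347, (.cons 269 251 .nil (.cons 210 190 (.exit 0) .nil)), [38], []⟩,
   ⟨38, 1, 43, 49, 347, (.cons 190 169 (.exit 0) (.cons 211 229 .nil .nil)), [39], []⟩,
   ⟨39, 1, 42, 46, 0, (.cons 230 229 (.exit 0) (.cons 211 191 (.cons 230 211 .nil .nil) .nil)), [40], []⟩,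
   ⟨40, 1, 41, 46, 0, (.cons 250 271 (.cons 289 270 .nil .nil) (.cons 230 249 (.exit 0) .nil)), [41], []⟩,
   ⟨41, 1, 40, 49, 350, (.cons 190 189 (.exit 0) .nil), [42], []⟩,
   ⟨42, 1, 39, 49, 351, (.cons 231 212 (.cons 190 169 (.cons 111 130 .nil .nil) .nil) (.cons 190 169 (.cons 111 130 .nil .nil) (.cons 190 169 (.exit 0) .nil))), [43], []⟩,
   ⟨43, 1, 38, 46, 0, (.cons 230 210 (.exit 0) (.cons 230 210 (.cons 210 191 (.cons 231 209 .nil .nil) (.cons 210 191 .nil .nil)) .nil)), [44], []⟩,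
   ⟨44, 1, 38, 46, 0, (.cons 210 189 (.exit 0) (.cons 267 228 (.cons 210 189 (.cons 189 188 (.cons 247 229 .nil (.cons 228 210 .nil .nil)) .nil) .nil) .nil)), [45], []⟩,
   ⟨45, 1, 37, 45, 0, (.cons 210 209 (.exit 0) (.cons 288 249 (.cons 210 209 (.cons 268 250 .nil (.cons 249 231 .nil .nil)) .nil) .nil)), [46], []⟩,
   ⟨46, 1, 36, 45, 0, (.cons 269 251 .nil (.cons 210 189 (.exit 0) .nil)), [47], []⟩,
   ⟨47, 1, 35, 44, 0, (.cons 290 251 (.cons 251 229 .nil .nil) (.cons 210 209 (.exit 0) (.cons 210 229 (.cons 290 251 (.cons 228 247 .nil .nil) (.cons 228 247 (.cons 290 251 .nil .nil) .nil)) .nil))), [48], []⟩,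
   ⟨48, 1, 34, 44, 0, (.cons 210 189 .nil (.cons 210 189 (.exit 0) (.cons 190 229 (.cons 210 189 .nil (.cons 210 189 (.cons 229 211 .nil .nil) .nil)) .nil))), [49], []⟩,
   ⟨49, 1, 33, 43, 0, (.cons 210 190 (.exit 0) .nil), [50], []⟩,
   ⟨50, 1, 33, 42, 0, (.cons 210 189 (.exit 0) (.cons 268 229 (.cons 229 251 .nil .nil) .nil)), [51], []⟩,
   ⟨51, 1, 32, 41, 0, (.cons 210 190 (.exit 0) .nil), [52], []⟩,
   ⟨52, 1, 32, 40, 0, (.cons 210 189 (.exit 0) (.cons 210 189 .nil (.cons 210 189 (.cons 189 169 (.cons 209 191 (.cons 171 190 .nil .nil) (.cons 169 150 .nil (.cons 171 190 (.cons 209 191 .nil (.cons 169 150 .nil .nil)) .nil))) .nil) .nil))), [53], []⟩]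

theorem oWBU_3 : grpKU 72 AWB 61 11 SWB kWBU_2 gWBU_3 = true := by decide +kernel

theorem wWBU_3 : wpU ⟨72, AWB, 61, 4283⟩ gWBU_3 = true := by decide +kernel

/-- the pairs proved -/
def kWBU_3 : List Mo := keysWU gWBU_3 kWBU_2

theorem cWBU_3 : KU 72 AWB 61 11 4283 SWB kWBU_0 kWBU_3 := .grp cWBU_2 gWBU_3 oWBU_3 wWBU_3

/-- items -/
def gWBU_4 : List WU :=
  [⟨12, 0, 59, 41, 0, (.cons 193 232 (.cons 211 229 .nil .nil) (.cons 210 230 (.exit 0) (.cons 210 230 (.cons 211 252 .nil (.cons 230 249 (.cons 250 268 .nil .nil) .nil)) .nil))), [13], []⟩,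
   ⟨13, 0, 59, 42, 0, (.cons 191 232 .nil (.cons 210 229 (.exit 0) .nil)), [14], []⟩,
   ⟨14, 0, 58, 43, 0, (.cons 173 192 (.cons 211 229 .nil .nil) (.cons 210 230 (.exit 0) (.cons 210 230 (.cons 230 249 (.cons 226 247 (.cons 249 228 .nil .nil) .nil) (.cons 230 249 .nil .nil)) .nil))), [15], []⟩,
   ⟨15, 0, 58, 44, 0, (.cons 210 229 .nil (.cons 210 229 (.exit 0) .nil)), [16], []⟩,
   ⟨16, 0, 57, 45, 0, (.cons 210 230 (.exit 0) .nil), [17], []⟩,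
   ⟨17, 0, 57, 46, 0, (.cons 210 229 .nil (.cons 210 229 (.exit 0) .nil)), [18], []⟩,
   ⟨18, 0, 56, 47, 0, (.cons 210 209 (.exit 0) .nil), [19], []⟩,
   ⟨19, 0, 55, 47, 0, (.cons 210 229 (.exit 0) .nil), [20], []⟩,
   ⟨20, 0, 54, 48, 0, (.cons 210 230 (.exit 0) (.cons 210 230 (.cons 193 212 .nil (.cons 230 249 (.cons 268 227 .nil .nil) .nil)) .nil)), [21], []⟩,
   ⟨21, 0, 54, 49, 0, (.cons 173 192 .nil (.cons 210 229 (.exit 0) .nil)), [22], []⟩,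
   ⟨22, 0, 53, 50, 0, (.cons 173 192 (.cons 229 188 .nil .nil) (.cons 210 230 (.exit 0) (.cons 229 188 (.cons 210 229 .nil (.cons 210 229 .nil .nil)) .nil))), [23], []⟩,
   ⟨23, 0, 53, 51, 0, (.cons 210 229 .nil (.cons 210 229 (.exit 0) (.cons 210 229 .nil .nil))), [24], []⟩,
   ⟨24, 0, 52, 52, 0, (.cons 210 209 (.exit 0) .nil), [25], []⟩,
   ⟨25, 0, 51, 52, 0, (.cons 210 229 (.exit 0) .nil), [26], []⟩,
   ⟨26, 0, 50, 53, 222, (.cons 210 209 (.exit 0) (.cons 169 188 (.cons 210 209 (.cons 209 228 .nil (.cons 209 228 (.cons 228 227 (.cons 227 246 .nil (.cons 188 209 (.cons 227 246 .nil (.cons 227 246 .nil .nil)) (.cons 227 246 .nil .nil))) .nil) (.cons 209 228 .nil .nil))) .nil) .nil)), [], [27]⟩,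
   ⟨27, 0, 50, 53, 222, (.cons 209 228 .nil (.cons 209 228 (.exit 0) (.cons 209 228 .nil .nil))), [], [28]⟩,
   ⟨28, 0, 50, 54, 202, (.cons 208 207 (.exit 0) .nil), [], [29]⟩,
   ⟨29, 0, 44, 54, 322, (.cons 213 232 .nil (.cons 213 232 (.exit 0) (.cons 213 232 .nil (.cons 155 174 (.cons 213 232 .nil (.cons 174 195 (.cons 213 232 .nil (.cons 213 232 .nil .nil)) (.cons 213 232 .nil .nil))) .nil)))), [], [30]⟩,
   ⟨30, 0, 44, 55, 302, (.cons 212 211 (.exit 0) .nil), [], [31]⟩,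
   ⟨31, 0, 44, 55, 302, (.cons 211 190 .nil (.cons 211 190 (.exit 0) (.cons 211 210 (.cons 209 228 .nil .nil) (.cons 211 210 (.cons 213 232 .nil (.cons 209 228 .nil .nil)) .nil)))), [], [32]⟩,
   ⟨32, 0, 44, 54, 322, (.cons 210 189 (.exit 0) .nil), [], [33]⟩,
   ⟨33, 0, 43, 53, 343, (.cons 210 190 (.exit 0) (.cons 210 190 (.cons 189 211 .nil .nil) .nil)), [34], []⟩]

theorem oWBU_4 : grpKU 72 AWB 61 11 SWB kWBU_3 gWBU_4 = true := by decide +kernel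

theorem wWBU_4 : wpU ⟨72, AWB, 61, 4283⟩ gWBU_4 = true := by decide +kernel

/-- the pairs proved -/
def kWBU_4 : List Mo := keysWU gWBU_4 kWBU_3

theorem cWBU_4 : KU 72 AWB 61 11 4283 SWB kWBU_0 kWBU_4 := .grp cWBU_3 gWBU_4 oWBU_4 wWBU_4

/-- items -/
def gWBU_5 : List WU :=
  [⟨0, 0, 71, 41, 0, (.cons 193 232 .nil (.cons 210 209 (.exit 0) .nil)), [1], []⟩,
   ⟨1, 0, 70, 41, 0, (.cons 233 232 (.cons 210 189 .nil .nil) (.cons 210 189 .nil (.cons 210 189 (.exit 0) .nil))), [2], []⟩,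
   ⟨2, 0, 69, 40, 0, (.cons 210 209 (.exit 0) .nil), [3], []⟩,
   ⟨3, 0, 68, 40, 0, (.cons 212 251 (.cons 210 229 .nil .nil) (.cons 210 229 (.exit 0) .nil)), [4], []⟩,
   ⟨4, 0, 67, 41, 0, (.cons 193 232 .nil (.cons 210 209 (.exit 0) .nil)), [5], []⟩,
   ⟨5, 0, 66, 41, 0, (.cons 233 232 (.cons 210 189 .nil .nil) (.cons 210 189 .nil (.cons 210 189 (.exit 0) .nil))), [6], []⟩,
   ⟨6, 0, 65, 40, 0, (.cons 210 209 (.exit 0) .nil), [7], []⟩,
   ⟨7, 0, 64, 40, 0, (.cons 212 251 (.cons 210 229 .nil .nil) (.cons 210 229 (.exit 0) .nil)), [8], []⟩,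
   ⟨8, 0, 63, 41, 0, (.cons 193 232 .nil (.cons 210 209 (.exit 0) .nil)), [9], []⟩,
   ⟨9, 0, 62, 41, 0, (.cons 233 232 (.cons 210 189 .nil .nil) (.cons 210 189 .nil (.cons 210 189 (.exit 0) .nil))), [10], []⟩,
   ⟨10, 0, 61, 40, 0, (.cons 210 209 (.exit 0) .nil), [11], []⟩,
   ⟨11, 0, 60, 40, 0, (.cons 212 251 (.cons 210 211 (.cons 231 250 .nil .nil) .nil) (.cons 210 229 (.exit 0) .nil)), [12], []⟩]

theorem oWBU_5 : grpKU 72 AWB 61 11 SWB kWBU_4 gWBU_5 = true := by decide +kernel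

theorem wWBU_5 : wpU ⟨72, AWB, 61, 4283⟩ gWBU_5 = true := by decide +kernel

/-- the pairs proved -/
def kWBU_5 : List Mo := keysWU gWBU_5 kWBU_4

theorem cWBU_5 : KU 72 AWB 61 11 4283 SWB kWBU_0 kWBU_5 := .grp cWBU_4 gWBU_5 oWBU_5 wWBU_5

end Pool.Agent.Lib.H32C.Loc
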