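import Pool.Agent.Lib.H32C.WldB
import Pool.Agent.Lib.H32C.WldDf

/-!
# Lines of sight in the world of a program

`Land` is the set of the squares outside of the world, of the empty tiles (kind `1`) and of the zone of the far
pieces.  No slider sees a square of `Land`, with few exceptions.
-/

set_option autoImplicit false

namespace Pool.Agent.Lib.H32C.Ly

open Loc

/-- no slider of the board sees the square `c` from the direction `u` -/
def Bl (B : Board) (u : Nat) (c : Sq) : Prop :=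
  ∀ (l : ℕ) (m : Man), 0 < l → B (c + l • vec u) = some m → SlK m.2 u →
    ∃ i : ℕ, 0 < i ∧ i < l ∧ B (c + i • vec u) ≠ none

theorem Bl.step {B : Board} {u : Nat} {c : Sq} (h : B (c + vec u) = none)
    (h2 : Bl B u (c + vec u)) : Bl B u c := by
  intro l m hl hB hm
  obtain ⟨l', rfl⟩ : ∃ l', l = l' + 1 := ⟨l - 1, by omega⟩
  rcases Nat.eq_zero_or_pos l' with h0 | h0
  · subst h0
    rw [zero_add, one_smul, h] at hB
    cases hB
  · have e : ∀ i : ℕ, c + vec u + i • vec u = c + (i + 1) • vec u := by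
      intro i
      rw [succ_nsmul', add_assoc]
    obtain ⟨i, g1, g2, g3⟩ := h2 l' m h0 (by rw [e]; exact hB) hm
    exact ⟨i + 1, by omega, by omega, by rw [← e]; exact g3⟩

theorem Bl.quiet {B : Board} {u : Nat} {c : Sq} {m : Man} (h : B (c + vec u) = some m)
    (h2 : ¬ SlK m.2 u) : Bl B u c := by
  intro l m' hl hB hm
  obtain ⟨l', rfl⟩ : ∃ l', l = l' + 1 := ⟨l - 1, by omega⟩
  rcases Nat.eq_zero_or_pos l' with h0 | h0
  · subst h0
    rw [zero_add, one_smul, h] at hB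
    cases hB
    exact absurd hm h2
  · exact ⟨1, by omega, by omega, by rw [one_smul, h]; simp⟩

theorem Bl.steps {B : Board} {u : Nat} {c : Sq} (k : ℕ)
    (h : ∀ i : ℕ, 0 < i → i ≤ k → B (c + i • vec u) = none)
    (h2 : Bl B u (c + k • vec u)) : Bl B u c := by
  induction k with
  | zero => rwa [zero_smul, add_zero] at h2
  | succ k ih =>
    refine ih (fun i h0 hi => h i h0 (by omega)) (Bl.step ?_ ?_)
    · rw [add_assoc, ← succ_nsmul]
      exact h (k + 1) (by omega) le_rfl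
    · rw [add_assoc, ← succ_nsmul]
      exact h2

/-- nothing in this direction -/
theorem Bl.free {B : Board} {u : Nat} {c : Sq} (h : ∀ i : ℕ, 0 < i → B (c + i • vec u) = none) :
    Bl B u c := by
  intro l m hl hB
  rw [h l hl] at hB
  cases hB

theorem qmk_spec : ∀ u ∈ orT ++ diT, ∀ c < 16, msk (qmk u) c = true →
    ∃ m, dec c = some m ∧ ¬ (m.2 = Kind.queen ∨ (u ∈ orT ∧ m.2 = Kind.rook) ∨
      (u ∈ diT ∧ m.2 = Kind.bishop)) := by
  intro u hu c hc h
  have h1 : c = 1 ∨ c = 2 ∨ c = 9 ∨ c = 10 ∨ ((c = 3 ∨ c = 11) ∧ u ∉ diT) ∨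
      ((c = 4 ∨ c = 12) ∧ u ∉ orT) := by
    have : ∀ u ∈ orT ++ diT, ∀ c < 16, msk (qmk u) c = true → c = 1 ∨ c = 2 ∨ c = 9 ∨ c = 10 ∨
        ((c = 3 ∨ c = 11) ∧ u ∉ diT) ∨ ((c = 4 ∨ c = 12) ∧ u ∉ orT) := by decide
    exact this u hu c hc h
  rcases h1 with rfl | rfl | rfl | rfl | ⟨rfl | rfl, h2⟩ | ⟨rfl | rfl, h2⟩
  · exact ⟨_, rfl, by simp⟩
  · exact ⟨_, rfl, by simp⟩
  · exact ⟨_, rfl, by simp⟩
  · exact ⟨_, rfl, by simp⟩
  · exact ⟨_, rfl, by simp [h2]⟩
  · exact ⟨_, rfl, by simp [h2]⟩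
  · exact ⟨_, rfl, by simp [h2]⟩
  · exact ⟨_, rfl, by simp [h2]⟩

theorem scn_bl {H A : ℕ} {O : Sq} {B : Board}
    (hB : ∀ j, inA H j = true → cell A j ≠ 15 → B (sqA O j) = dec (cell A j)) {u : Nat}
    (hu : u ∈ orT ++ diT) : ∀ n j : ℕ, scn H A u n j = true → Bl B u (sqA O j) := by
  intro n
  induction n with
  | zero => intro j h; cases h
  | succ n ih =>
    intro j h
    have h1 : scn H A u (n + 1) j = (inA H (stA u j) &&
      cond (Nat.beq (cell A (stA u j)) 0) (scn H A u n (stA u j))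
        (msk (qmk u) (cell A (stA u j)))) := rfl
    rw [h1, Bool.and_eq_true] at h
    obtain ⟨h2, h3⟩ := h
    have e := sqA_stA (O := O) hu h2
    cases h4 : Nat.beq (cell A (stA u j)) 0 with
    | true =>
      rw [h4] at h3
      have h5 := Nat.eq_of_beq_eq_true h4
      refine Bl.step ?_ ?_
      · rw [← e, hB _ h2 (by rw [h5]; decide), h5]
        rfl
      · rw [← e]
        exact ih _ h3
    | false =>
      rw [h4] at h3
      obtain ⟨m, h5, h6⟩ := qmk_spec u hu _ (cell_lt _ _) h3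
      have h7 : cell A (stA u j) ≠ 15 := by
        intro h7
        rw [h7] at h5
        cases h5
      exact Bl.quiet (m := m) (by rw [← e, hB _ h2 h7, h5]) h6

/-! ### Hull and land -/

variable (P : Prog)

/-- the square is the cell `(X, Y)` of the core of the tile `(i, j)` -/
structure Tl (i j X Y : ℕ) (s : Sq) : Prop where
  hi : i < nx P.n
  hj : j < ny P.n
  X1 : 8 ≤ X
  X2 : X < 72
  Y1 : 8 ≤ Y
  Y2 : Y < 72
  e1 : s.1 = 64 * (i : ℤ) - 8 + X
  e2 : s.2 = 64 * (j : ℤ) - 8 + Y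

theorem Tl.eq {P : Prog} {i j X Y : ℕ} {s : Sq} (h : Tl P i j X Y s) :
    s = tsq (World.org i j) X Y := Prod.ext h.e1 h.e2

theorem Tl.eqA {P : Prog} {i j X Y : ℕ} {s : Sq} (h : Tl P i j X Y s) :
    s = sqA (World.org i j) (X + 80 * Y) := by
  rw [h.eq]
  unfold sqA
  have h1 := h.X2
  rw [show (X + 80 * Y) % 80 = X by omega, show (X + 80 * Y) / 80 = Y by omega]

/-- squares of the world -/
theorem tl_of {s : Sq} (h1 : 0 ≤ s.1) (h2 : s.1 < 64 * (nx P.n : ℤ)) (h3 : 0 ≤ s.2)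
    (h4 : s.2 < 64 * (ny P.n : ℤ)) : ∃ i j X Y, Tl P i j X Y s := by
  refine ⟨(s.1 / 64).toNat, (s.2 / 64).toNat, (s.1 % 64).toNat + 8, (s.2 % 64).toNat + 8, ?_⟩
  constructor <;> omega

theorem Tl.uniq {P : Prog} {i j X Y i' j' X' Y' : ℕ} {s : Sq} (h : Tl P i j X Y s)
    (h' : Tl P i' j' X' Y' s) : i = i' ∧ j = j' ∧ X = X' ∧ Y = Y' := by
  obtain ⟨-, -, a1, a2, a3, a4, a5, a6⟩ := h
  obtain ⟨-, -, b1, b2, b3, b4, b5, b6⟩ := h'
  omega

theorem Tl.code {P : Prog} {D : TD} {i j X Y : ℕ} {s : Sq} (h : Tl P i j X Y s) :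
    (wld D P).code s.1 s.2 = codeA (D.ar (kd P i j)) X Y := by
  rw [h.eq]
  exact World.code_in (W := wld D P) h.hi h.hj h.X1 h.X2 h.Y1 h.Y2

theorem blt_iff {a b : ℕ} : Nat.blt a b = true ↔ a < b :=
  ⟨fun h => blt_of h, fun h => Nat.ble_eq_true_of_le h⟩

theorem beqT {a b : ℕ} : Nat.beq a b = true ↔ a = b := by
  rw [Nat.beq_eq]

theorem znk_tab {r q : ℕ} (h1 : 28 ≤ r) (h2 : r < 47) (h3 : q < 83) : kdt r q = 1 ∨ q < 53 ∨
    78 < q ∨ (q < 74 ∧ (q + r < 114 ∨ (q = 69 ∧ r = 45 ∧ kdt r q = 35) ∨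
      (q = 68 ∧ r = 46 ∧ kdt r q = 40))) := by
  have h := znk_true
  unfold znk at h
  have h4 := (allN_iff _ _).1 h r (by omega)
  simp only [Bool.or_eq_true, blt_iff] at h4
  rcases h4 with h4 | h4 | h4
  · omega
  · omega
  · have h5 := (allN_iff _ _).1 h4 q h3
    simp only [Bool.or_eq_true, Bool.and_eq_true, blt_iff, beqT] at h5
    exact h5

/-- **The tiles which meet the zone.** -/
theorem zone_tl {c : Offs} (hc : c.Ok2) {i j X Y : ℕ} {s : Sq} (h : Tl P i j X Y s)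
    (hz : (geo c P.n).Zone s) : kd P i j = 1 ∨
      (((kd P i j = 35 ∧ i = 67 + 2 * P.n ∧ j = 43 + 3 * P.n) ∨
        (kd P i j = 40 ∧ i = 66 + 2 * P.n ∧ j = 44 + 3 * P.n)) ∧
          c.hx + c.hy + 18 ≤ (X : ℤ) + Y) := by
  have hG := geo_ok hc.toOk P.n
  obtain ⟨h1, h2, h3, h4, h5, h6, h7, h8⟩ := h
  obtain ⟨o1, o2, o3, o4, o5, o6, o7, o8, o9, o10⟩ := hc.toOk
  have o11 := hc.rE8
  have o12 := hc.rW8
  have o13 := hc.hx1
  have o14 := hc.hx2
  have o15 := hc.hxy
  have hnx : nx P.n = 90 + 5 * P.n := rfl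
  have hny : ny P.n = 45 + 3 * P.n := rfl
  rcases hz with ⟨z1, z2⟩ | ⟨z1, z2⟩ | ⟨q, z1, z2, z3⟩
  · -- east
    simp only [geo] at z1 z2
    have hj : 26 + 3 * P.n ≤ j := by omega
    have hk : kd P i j = kdt (j + 2 - 3 * P.n) (cx P.n 0 0 i) := kd_t P hj i
    have ht := znk_tab (r := j + 2 - 3 * P.n) (q := cx P.n 0 0 i) (by omega) (by omega)
      (cx_lt h1)
    rw [hk]
    rcases ht with ht | ht | ht | ⟨ht1, ht2⟩
    · exact Or.inl ht
    · exfalso
      have : i < 51 + 2 * P.n := by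
        by_contra hge
        unfold cx at ht
        split_ifs at ht <;> omega
      omega
    · exfalso
      have : i < 51 + 2 * P.n := by
        by_contra hge
        unfold cx at ht
        rw [hnx] at h1
        split_ifs at ht <;> omega
      omega
    · have hcol : i < 51 + 2 * P.n ∨ (i < 72 + 2 * P.n ∧ cx P.n 0 0 i = i + 2 - 2 * P.n) := by
        rcases Nat.lt_or_ge i (51 + 2 * P.n) with g | g
        · exact Or.inl g
        · right
          rcases Nat.lt_or_ge i (72 + 2 * P.n) with g2 | g2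
          · exact ⟨g2, cx_d g g2⟩
          · exfalso
            unfold cx at ht1
            split_ifs at ht1 <;> omega
      rcases hcol with g | ⟨g, g2⟩
      · exfalso; omega
      · rw [g2] at ht2 ⊢
        rcases ht2 with ht2 | ⟨ht2, ht3, ht4⟩ | ⟨ht2, ht3, ht4⟩
        · exfalso; omega
        · right
          refine ⟨Or.inl ⟨ht4, by omega, by omega⟩, by omega⟩
        · right
          refine ⟨Or.inr ⟨ht4, by omega, by omega⟩, by omega⟩
  · -- west
    exfalso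
    simp only [geo, FGeo.c1, colq] at z1 z2
    omega
  · -- above
    exfalso
    have hT := hG.hT q
    have h9 : s.2 < 64 * (45 + 3 * (P.n : ℤ)) := by omega
    simp only [geo] at hT z1 z2 z3
    omega

end Pool.Agent.Lib.H32C.Ly
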