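import Pool.Agent.Lib.H32C.MemA
import Pool.Agent.Lib.H32C.WldG

/-!
# Lines of sight in the world of a program: crossings of the border of the hull
-/

set_option autoImplicit false

namespace Pool.Agent.Lib.H32C.Ly

open Loc

variable (P : Prog)

/-- the hull: the squares of the tiles which are not empty, without the zone -/
def Hull (c : Offs) (s : Sq) : Prop :=
  ∃ i j X Y, Tl P i j X Y s ∧ kd P i j ≠ 1 ∧ ¬ (geo c P.n).Zone s

section

variable {c : Offs} (hc : c.Ok2) {D : TD} (hD : D.Ok2) (hW : WallOk c D) {μ : Option ℕ}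
  {x : Option (ℕ × ℕ)}

include hc hD hW in
/-- static pieces belong to the hull -/
theorem hull_of {s : Sq} (h : resB P D μ x s ≠ none) : Hull P c s := by
  have key : ∀ i j X Y, Tl P i j X Y s → kd P i j ≠ 1 → (codeA (D.ar (kd P i j)) X Y ≠ 0) →
      Hull P c s := by
    intro i j X Y h1 h2 h3
    refine ⟨i, j, X, Y, h1, h2, fun hz => h3 ?_⟩
    rcases zone_tl P hc h1 hz with h4 | ⟨h4, h5⟩
    · exact absurd h4 h2
    · rcases h4 with ⟨h4, -, -⟩ | ⟨h4, -, -⟩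
      · rw [h4]
        exact hW.cut 35 (Or.inl rfl) X Y h1.X1 h1.X2 h1.Y1 h1.Y2 h5
      · rw [h4]
        exact hW.cut 40 (Or.inr rfl) X Y h1.X1 h1.X2 h1.Y1 h1.Y2 h5
  have hcode : (wld D P).code s.1 s.2 ≠ 0 := by
    intro h0
    apply h
    rw [resB_of_code P hD (by rw [h0]; decide)]
    change dec _ = none
    rw [h0]
    rfl
  have hin : 0 ≤ s.1 ∧ s.1 < 64 * (nx P.n : ℤ) ∧ 0 ≤ s.2 ∧ s.2 < 64 * (ny P.n : ℤ) := by
    by_contra hn
    apply hcode
    unfold World.code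
    exact if_neg hn
  obtain ⟨i, j, X, Y, ht⟩ := tl_of P hin.1 hin.2.1 hin.2.2.1 hin.2.2.2
  rw [ht.code] at hcode
  refine key i j X Y ht ?_ hcode
  intro hk
  rw [hk] at hcode
  exact hcode (hW.x1 X Y ht.X1 ht.X2 ht.Y1 ht.Y2)

include hc hD hW in
theorem land_none {s : Sq} (h : ¬ Hull P c s) : resB P D μ x s = none := by
  by_contra h1
  exact h (hull_of P hc hD hW h1)

include hD in
/-- the cells of the array of a tile -/
theorem fit_resB {i j : ℕ} (hi : i < nx P.n) (hj : j < ny P.n) {X Y : ℕ} (hX : X < 80) (hY : Y < 80)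
    (hne : codeA (D.ar (kd P i j)) X Y ≠ 15) :
    resB P D μ x (tsq (World.org i j) X Y) = dec (codeA (D.ar (kd P i j)) X Y) := by
  have e : (wld D P).code (tsq (World.org i j) X Y).1 (tsq (World.org i j) X Y).2 =
      codeA (D.ar (kd P i j)) X Y :=
    (wld_ok P hD.toOk).code_eq (i := i) (j := j) hi hj hX hY hne
  rw [resB_of_code P hD (by rw [e]; exact hne)]
  change dec _ = _
  rw [e]

include hD in
theorem fit_resA {i j : ℕ} (hi : i < nx P.n) (hj : j < ny P.n) (q : ℕ) (hq : inA 80 q = true)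
    (hne : cell (D.ar (kd P i j)) q ≠ 15) :
    resB P D μ x (sqA (World.org i j) q) = dec (cell (D.ar (kd P i j)) q) := by
  have h1 := (inA_lt hq).1
  have e : codeA (D.ar (kd P i j)) (q % 80) (q / 80) = cell (D.ar (kd P i j)) q := by
    rw [WA_codeA]
    congr 1
    omega
  rw [← e] at hne ⊢
  exact fit_resB P hD hi hj (by omega) (by omega) hne

/-- The exceptional crossings: `d` belongs to the tile `(i, j)` of kind `k` and is seen from the square `d'` of the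
land in direction `u`. -/
def Exc (k i j u : ℕ) : Prop :=
  ((k = 35 ∨ k = 36 ∨ k = 40) ∧ (u = 41 ∨ u = 22 ∨ u = 21)) ∨
    ((k = 29 ∨ k = 41) ∧ u = 22) ∨ (k = 31 ∧ u = 41) ∨ (i = 0 ∧ u = 43) ∨
    (j = 0 ∧ (u = 62 ∨ u = 63 ∨ u = 61))

theorem nbk_tab {k : ℕ} (hk : k < 42) :
    (htb k 1 = true → k = 0 ∨ k = 1 ∨ k = 29 ∨ k = 31 ∨ k = 35 ∨ k = 36 ∨ k = 40) ∧
    (htb 1 k = true → k = 0 ∨ k = 1 ∨ k = 29) ∧
    (vtb k 1 = true → k = 0 ∨ k = 1 ∨ k = 29 ∨ k = 34 ∨ k = 35 ∨ k = 41) ∧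
    (vtb 1 k = true → k = 1) ∧ (htb 35 k = true → k = 1) ∧ (htb 40 k = true → k = 1) ∧
    (vtb 35 k = true → k = 1) := by
  have h := (allN_iff _ _).1 nbk_true k hk
  simp only [Bool.and_eq_true, Bool.or_eq_true, Bool.not_eq_true', beqT] at h
  obtain ⟨h1, h2, h3, h4, h5, h6, h7⟩ := h
  refine ⟨?_, ?_, ?_, ?_, ?_, ?_, ?_⟩ <;> intro g
  · rcases h1 with h1 | h1
    · rw [g] at h1; cases h1
    · exact h1
  · rcases h2 with h1 | h1
    · rw [g] at h1; cases h1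
    · exact h1
  · rcases h3 with h1 | h1
    · rw [g] at h1; cases h1
    · exact h1
  · rcases h4 with h1 | h1
    · rw [g] at h1; cases h1
    · exact h1
  · rcases h5 with h1 | h1
    · rw [g] at h1; cases h1
    · exact h1
  · rcases h6 with h1 | h1
    · rw [g] at h1; cases h1
    · exact h1
  · rcases h7 with h1 | h1
    · rw [g] at h1; cases h1
    · exact h1

theorem out_right {j : ℕ} (hj : j < ny P.n) : kd P (nx P.n - 1) j = 0 ∨ kd P (nx P.n - 1) j = 1 := by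
  have h := obk_true
  unfold obk at h
  simp only [Bool.and_eq_true] at h
  have h1 := (allN_iff _ _).1 h.1 _ (rx_lt P hj).1
  have e : cx P.n (pm P.n j) (pt P j) (nx P.n - 1) = 78 := by
    unfold nx
    rw [cx_e (by omega)]
    omega
  unfold kd
  rw [e]
  simp only [Bool.or_eq_true, beqT] at h1
  rcases h1 with h1 | h1
  · exact absurd h1 (rx_lt P hj).2
  · exact h1

theorem out_left {j : ℕ} (hj : j < ny P.n) :
    kd P 0 j = 0 ∨ kd P 0 j = 1 ∨ kd P 0 j = 33 ∨ kd P 0 j = 39 := by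
  have h := obk_true
  unfold obk at h
  simp only [Bool.and_eq_true] at h
  have h1 := (allN_iff _ _).1 h.2.1 _ (rx_lt P hj).1
  have e : cx P.n (pm P.n j) (pt P j) 0 = 0 := cx_a (by omega)
  unfold kd
  rw [e]
  simp only [Bool.or_eq_true, beqT] at h1
  rcases h1 with h1 | h1
  · exact absurd h1 (rx_lt P hj).2
  · exact h1

theorem out_top {i : ℕ} (hi : i < nx P.n) :
    kd P i (ny P.n - 1) = 0 ∨ kd P i (ny P.n - 1) = 1 ∨ kd P i (ny P.n - 1) = 40 := by
  have h := obk_true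
  unfold obk at h
  simp only [Bool.and_eq_true] at h
  have e : ny P.n - 1 + 2 - 3 * P.n = 46 := by unfold ny; omega
  rw [kd_t P (by unfold ny; omega), e]
  have h1 := (allN_iff _ _).1 h.2.2 _ (cx_lt (m := 0) (t := 0) hi)
  simp only [Bool.or_eq_true, beqT] at h1
  exact h1

theorem qn_quiet {k : ℕ} (hk : k < 16) (h : msk 0x606 k = true) :
    ∃ m, dec k = some m ∧ (m.2 = Kind.pawn ∨ m.2 = Kind.knight) := by
  have : k = 1 ∨ k = 2 ∨ k = 9 ∨ k = 10 := by
    have : ∀ k < 16, msk 0x606 k = true → k = 1 ∨ k = 2 ∨ k = 9 ∨ k = 10 := by decide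
    exact this k hk h
  rcases this with rfl | rfl | rfl | rfl
  · exact ⟨_, rfl, Or.inl rfl⟩
  · exact ⟨_, rfl, Or.inr rfl⟩
  · exact ⟨_, rfl, Or.inl rfl⟩
  · exact ⟨_, rfl, Or.inr rfl⟩

theorem slk_quiet {m : Man} {u : ℕ} (h : m.2 = Kind.pawn ∨ m.2 = Kind.knight) : ¬ SlK m.2 u := by
  rintro (h1 | ⟨-, h1⟩ | ⟨-, h1⟩) <;> rcases h with h | h <;> rw [h] at h1 <;> cases h1

/-- the vectors of the directions -/
theorem vec8 : vec 43 = (1, 0) ∧ vec 62 = (0, 1) ∧ vec 41 = (-1, 0) ∧ vec 22 = (0, -1) ∧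
    vec 63 = (1, 1) ∧ vec 61 = (-1, 1) ∧ vec 21 = (-1, -1) ∧ vec 23 = (1, -1) := by decide

theorem row_of {j r0 : ℕ} (h : rx P j = r0) (h2 : r0 < 47) (h3 : r0 < 25 ∨ 28 ≤ r0) :
    (r0 < 25 → j = r0) ∧ (28 ≤ r0 → j = r0 - 2 + 3 * P.n) := by
  unfold rx at h
  split_ifs at h <;> omega

theorem col_of {n m t i q0 : ℕ} (hi : i < nx n) (h : cx n m t i = q0) (h2 : q0 < 79) (h3 : q0 ≠ 6)
    (h4 : q0 ≠ 52) (h5 : q0 ≠ 74) : (q0 < 6 → i = q0) ∧ (6 < q0 → q0 < 52 → i = q0 - 1 + n) ∧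
      (52 < q0 → q0 < 74 → i = q0 - 2 + 2 * n) ∧ (74 < q0 → i = q0 + 11 + 5 * n) := by
  unfold cx at h
  unfold nx at hi
  split_ifs at h <;> omega

theorem uq_of {i j : ℕ} (hi : i < nx P.n) (hj : j < ny P.n) {a : ℕ × ℕ × ℕ} (ha : a ∈ UQ)
    (h : kd P i j = a.1) : rx P j = a.2.1 ∧ cx P.n (pm P.n j) (pt P j) i = a.2.2 := by
  have h1 := (allN_iff _ _).1 ((allN_iff _ _).1 uqk_true _ (rx_lt P hj).1) _
    (cx_lt (m := pm P.n j) (t := pt P j) hi)
  rw [List.all_eq_true] at h1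
  have h2 := h1 a ha
  rw [Bool.or_eq_true, Bool.not_eq_true', Bool.and_eq_true, beqT, beqT] at h2
  rcases h2 with h2 | h2
  · exfalso
    have h3 : Nat.beq (kdt (rx P j) (cx P.n (pm P.n j) (pt P j) i)) a.1 = true := beqT.2 h
    rw [h3] at h2
    cases h2
  · exact h2

/-- the place of `D0` and `FD` -/
theorem pos_D {i j : ℕ} (hi : i < nx P.n) (hj : j < ny P.n) :
    (kd P i j = 35 → i = 67 + 2 * P.n ∧ j = 43 + 3 * P.n) ∧
      (kd P i j = 40 → i = 66 + 2 * P.n ∧ j = 44 + 3 * P.n) := by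
  constructor
  · intro h
    obtain ⟨h1, h2⟩ := uq_of P hi hj (a := (35, 45, 69)) (by decide) h
    have h3 := (row_of P h1 (by decide) (by decide)).2 (by decide)
    have h4 := (col_of hi h2 (by decide) (by decide) (by decide) (by decide)).2.2.1 (by decide)
      (by decide)
    exact ⟨by omega, by omega⟩
  · intro h
    obtain ⟨h1, h2⟩ := uq_of P hi hj (a := (40, 46, 68)) (by decide) h
    have h3 := (row_of P h1 (by decide) (by decide)).2 (by decide)
    have h4 := (col_of hi h2 (by decide) (by decide) (by decide) (by decide)).2.2.1 (by decide)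
      (by decide)
    exact ⟨by omega, by omega⟩

include hc in
/-- the part of the tiles `D0` and `FD` in the zone -/
theorem zone_cut {i j X Y : ℕ} {s : Sq} (h : Tl P i j X Y s) (hk : kd P i j = 35 ∨ kd P i j = 40)
    (hs : c.hx + c.hy + 18 ≤ (X : ℤ) + Y) : (geo c P.n).Zone s := by
  have hp := pos_D P h.hi h.hj
  have h7 := h.e1
  have h8 := h.e2
  have h9 := h.Y1
  have o6 := hc.toOk.rE
  left
  simp only [geo]
  rcases hk with hk | hk
  · obtain ⟨rfl, rfl⟩ := hp.1 hk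
    push_cast at h7 h8
    constructor <;> omega
  · obtain ⟨rfl, rfl⟩ := hp.2 hk
    push_cast at h7 h8
    constructor <;> omega

include hc in
theorem land_tl {s : Sq} (h : ¬ Hull P c s) {i j X Y : ℕ} (ht : Tl P i j X Y s) :
    kd P i j = 1 ∨ (kd P i j ≠ 1 ∧ ((kd P i j = 35 ∧ i = 67 + 2 * P.n ∧ j = 43 + 3 * P.n) ∨
        (kd P i j = 40 ∧ i = 66 + 2 * P.n ∧ j = 44 + 3 * P.n)) ∧
          c.hx + c.hy + 18 ≤ (X : ℤ) + Y) := by
  by_cases hk : kd P i j = 1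
  · exact Or.inl hk
  · right
    have hz : (geo c P.n).Zone s := by
      by_contra hz
      exact h ⟨i, j, X, Y, ht, hk, hz⟩
    rcases zone_tl P hc ht hz with h1 | h1
    · exact absurd h1 hk
    · exact ⟨hk, h1⟩

include hc in
theorem cr_right {i j Y : ℕ} {s : Sq} (hi : i < nx P.n) (hj : j < ny P.n) (hY : 8 ≤ Y)
    (hY2 : Y < 72) (e1 : s.1 = 64 * (i : ℤ) - 8 + 72) (e2 : s.2 = 64 * (j : ℤ) - 8 + Y)
    (h : ¬ Hull P c s) (hk : kd P i j ≠ 1) : kd P i j = 0 ∨ kd P i j = 29 ∨ kd P i j = 31 ∨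
      kd P i j = 35 ∨ kd P i j = 36 ∨ kd P i j = 40 := by
  have o15 := hc.hxy
  rcases Nat.lt_or_ge (i + 1) (nx P.n) with h1 | h1
  · have ht : Tl P (i + 1) j 8 Y s := ⟨h1, hj, le_rfl, by decide, hY, hY2, by push_cast; omega, e2⟩
    rcases land_tl P hc h ht with h2 | ⟨-, -, h2⟩
    · have h3 := hadj P h1 hj
      rw [h2] at h3
      have h4 := (nbk_tab (kd_lt P hi hj)).1 h3
      omega
    · push_cast at h2
      omega
  · have e : i = nx P.n - 1 := by omega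
    have h2 := out_right P hj
    rw [← e] at h2
    omega

include hc in
theorem cr_left {i j Y : ℕ} {s : Sq} (hi : i < nx P.n) (hj : j < ny P.n) (hY : 8 ≤ Y)
    (hY2 : Y < 72) (e1 : s.1 = 64 * (i : ℤ) - 8 + 7) (e2 : s.2 = 64 * (j : ℤ) - 8 + Y)
    (h : ¬ Hull P c s) (hk : kd P i j ≠ 1) : (i = 0 ∧ (kd P i j = 0 ∨ kd P i j = 33 ∨
      kd P i j = 39)) ∨ (kd P i j = 0 ∨ kd P i j = 29) := by
  rcases Nat.eq_zero_or_pos i with h1 | h1
  · subst h1
    have h2 := out_left P hj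
    omega
  · obtain ⟨i', rfl⟩ : ∃ i', i = i' + 1 := ⟨i - 1, by omega⟩
    have ht : Tl P i' j 71 Y s :=
      ⟨by omega, hj, by decide, by decide, hY, hY2, by push_cast at e1 ⊢; omega, e2⟩
    have h3 := hadj P hi hj
    have hkl := nbk_tab (kd_lt P hi hj)
    rcases land_tl P hc h ht with h2 | ⟨-, ⟨h2, -, -⟩ | ⟨h2, -, -⟩, -⟩
    · rw [h2] at h3
      have h4 := hkl.2.1 h3
      omega
    · rw [h2] at h3
      exact absurd (hkl.2.2.2.2.1 h3) hk
    · rw [h2] at h3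
      exact absurd (hkl.2.2.2.2.2.1 h3) hk

include hc in
theorem cr_top {i j X : ℕ} {s : Sq} (hi : i < nx P.n) (hj : j < ny P.n) (hX : 8 ≤ X)
    (hX2 : X < 72) (e1 : s.1 = 64 * (i : ℤ) - 8 + X) (e2 : s.2 = 64 * (j : ℤ) - 8 + 72)
    (h : ¬ Hull P c s) (hk : kd P i j ≠ 1) : kd P i j = 0 ∨ kd P i j = 29 ∨ kd P i j = 34 ∨
      kd P i j = 35 ∨ kd P i j = 41 ∨ kd P i j = 40 := by
  have o15 := hc.hxy
  rcases Nat.lt_or_ge (j + 1) (ny P.n) with h1 | h1
  · have ht : Tl P i (j + 1) X 8 s := ⟨hi, h1, hX, hX2, le_rfl, by decide, e1, by push_cast; omega⟩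
    rcases land_tl P hc h ht with h2 | ⟨-, -, h2⟩
    · have h3 := vadj P hi h1
      rw [h2] at h3
      have h4 := (nbk_tab (kd_lt P hi hj)).2.2.1 h3
      omega
    · push_cast at h2
      omega
  · have e : j = ny P.n - 1 := by omega
    have h2 := out_top P hi
    rw [← e] at h2
    omega

include hc in
theorem cr_bot {i j X : ℕ} {s : Sq} (hi : i < nx P.n) (hj : j < ny P.n) (hX : 8 ≤ X)
    (hX2 : X < 72) (e1 : s.1 = 64 * (i : ℤ) - 8 + X) (e2 : s.2 = 64 * (j : ℤ) - 8 + 7)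
    (h : ¬ Hull P c s) (hk : kd P i j ≠ 1) : j = 0 := by
  by_contra h1
  obtain ⟨j', rfl⟩ : ∃ j', j = j' + 1 := ⟨j - 1, by omega⟩
  have ht : Tl P i j' X 71 s :=
    ⟨hi, by omega, hX, hX2, by decide, by decide, e1, by push_cast at e2 ⊢; omega⟩
  have h3 := vadj P hi hj
  have hkl := nbk_tab (kd_lt P hi hj)
  rcases land_tl P hc h ht with h2 | ⟨-, ⟨h2, -, -⟩ | ⟨-, -, h2⟩, -⟩
  · rw [h2] at h3
    exact hk (hkl.2.2.2.1 h3)
  · rw [h2] at h3
    exact hk (hkl.2.2.2.2.2.2 h3)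
  · unfold ny at hj
    omega

end

end Pool.Agent.Lib.H32C.Ly
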