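import Pool.Agent.Lib.H32C.WldH

/-!
# Nobody sees the land
-/

set_option autoImplicit false

namespace Pool.Agent.Lib.H32C.Ly

open Loc

variable (P : Prog)

section

variable {c : Offs} (hc : c.Ok2) {D : TD} (hD : D.Ok2) (hW : WallOk c D) {μ : Option ℕ}
  {x : Option (ℕ × ℕ)}

include hc hD hW in
/-- **Crossings of the border of the hull**: nobody sees the square `s'` of the land from the direction `u`, if the
next square in this direction belongs to the hull. -/
theorem cross_bl {s' : Sq} {u : ℕ} (hu : u ∈ orT ++ diT) (h' : ¬ Hull P c s') {i j X Y : ℕ}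
    (ht : Tl P i j X Y (s' + vec u)) (hk : kd P i j ≠ 1) (hz : ¬ (geo c P.n).Zone (s' + vec u))
    (hex : ¬ Exc (kd P i j) i j u) : Bl (resB P D μ x) u s' := by
  obtain ⟨v1, v2, v3, v4, v5, v6, v7, v8⟩ := vec8
  have hkl := kd_lt P ht.hi ht.hj
  have hfit := fit_resA P hD (μ := μ) (x := x) ht.hi ht.hj
  have o14 := hc.hx2
  have o15 := hc.hxy
  have o16 := hc.toOk.hx
  have o17 := hc.toOk.hy
  -- the corner cells
  by_cases hcor : (X = 8 ∨ X = 71) ∧ (Y = 8 ∨ Y = 71)
  · have hD4 : (kd P i j = 35 ∨ kd P i j = 40) → ¬ (X = 71 ∧ Y = 71) := by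
      rintro h1 ⟨rfl, rfl⟩
      exact hz (zone_cut P hc ht h1 (by push_cast; omega))
    obtain ⟨m, h1, h2⟩ := qn_quiet (WA_codeA_lt _ _ _) (hW.corner _ hkl hk X Y hcor.1 hcor.2 hD4)
    refine Bl.quiet (m := m) ?_ (slk_quiet h2)
    rw [ht.eq, fit_resB P hD ht.hi ht.hj (by have := ht.X2; omega) (by have := ht.Y2; omega), h1]
    intro h15
    rw [h15] at h1
    cases h1
  obtain ⟨i1, i2, x1, x2, y1, y2, e1, e2⟩ := id ht
  -- the land in the same tile
  have hcore : ∀ {X' Y' : ℕ}, Tl P i j X' Y' s' → (X : ℤ) + Y < (X' : ℤ) + Y' ∧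
      (kd P i j = 35 ∨ kd P i j = 40) := by
    intro X' Y' ht'
    rcases land_tl P hc h' ht' with h2 | ⟨-, h2, h3⟩
    · exact absurd h2 hk
    · have h4 : kd P i j = 35 ∨ kd P i j = 40 := h2.imp (fun h => h.1) (fun h => h.1)
      refine ⟨?_, h4⟩
      by_contra h5
      exact hz (zone_cut P hc ht h4 (by omega))
  have hsum : (kd P i j = 35 ∨ kd P i j = 40) → (X : ℤ) + Y < c.hx + c.hy + 18 := by
    intro h4
    by_contra h5
    exact hz (zone_cut P hc ht h4 (by omega))
  have f1 : (s' + vec u).1 = s'.1 + (vec u).1 := rfl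
  have f2 : (s' + vec u).2 = s'.2 + (vec u).2 := rfl
  rw [f1] at e1
  rw [f2] at e2
  have hsq : ∀ q : ℕ, s'.1 = 64 * (i : ℤ) - 8 + ((q % 80 : ℕ) : ℤ) →
      s'.2 = 64 * (j : ℤ) - 8 + ((q / 80 : ℕ) : ℤ) → s' = sqA (World.org i j) q :=
    fun q h1 h2 => Prod.ext h1 h2
  have hgo : ∀ q : ℕ, s'.1 = 64 * (i : ℤ) - 8 + ((q % 80 : ℕ) : ℤ) →
      s'.2 = 64 * (j : ℤ) - 8 + ((q / 80 : ℕ) : ℤ) → scn 80 (D.ar (kd P i j)) u 90 q = true →
      Bl (resB P D μ x) u s' := by
    intro q h1 h2 h3
    rw [hsq q h1 h2]
    exact scn_bl hfit hu 90 q h3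
  simp only [orT, diT, List.cons_append, List.nil_append, List.mem_cons, List.not_mem_nil,
    or_false] at hu
  unfold Exc at hex
  replace hex : id _ := hex
  rcases hu with rfl | rfl | rfl | rfl | rfl | rfl | rfl | rfl
  · -- to the right
    rw [v1] at e1 e2
    dsimp only at e1 e2
    rcases Nat.lt_or_ge 8 X with g | g
    · exfalso
      have := (hcore (X' := X - 1) (Y' := Y) ⟨i1, i2, by omega, by omega, y1, y2, by omega,
        by omega⟩).1
      omega
    · have hX : X = 8 := by omega
      have h1 := cr_left P hc (Y := Y) i1 i2 y1 y2 (by omega) (by omega) h' hk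
      rcases h1 with ⟨h1, -⟩ | h1
      · exact absurd (Or.inr (Or.inr (Or.inr (Or.inl ⟨h1, rfl⟩)))) hex
      · exact hgo (7 + 80 * Y) (by omega) (by omega) (hW.left _ h1 Y y1 y2)
  · -- upwards
    rw [v2] at e1 e2
    dsimp only at e1 e2
    rcases Nat.lt_or_ge 8 Y with g | g
    · exfalso
      have := (hcore (X' := X) (Y' := Y - 1) ⟨i1, i2, x1, x2, by omega, by omega, by omega,
        by omega⟩).1
      omega
    · exfalso
      have h1 := cr_bot P hc (X := X) i1 i2 x1 x2 (by omega) (by omega) h' hk
      exact hex (Or.inr (Or.inr (Or.inr (Or.inr ⟨h1, Or.inl rfl⟩))))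
  · -- to the left
    rw [v3] at e1 e2
    dsimp only at e1 e2
    rcases Nat.lt_or_ge X 71 with g | g
    · exfalso
      have := (hcore (X' := X + 1) (Y' := Y) ⟨i1, i2, by omega, by omega, y1, y2, by push_cast; omega,
        by omega⟩).2
      exact hex (Or.inl ⟨by omega, Or.inl rfl⟩)
    · have hX : X = 71 := by omega
      have h1 := cr_right P hc (Y := Y) i1 i2 y1 y2 (by omega) (by omega) h' hk
      have h2 : kd P i j = 0 ∨ kd P i j = 29 := by
        by_contra h2
        exact hex (by omega)
      exact hgo (72 + 80 * Y) (by omega) (by omega) (hW.right _ h2 Y y1 y2).1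
  · -- downwards
    rw [v4] at e1 e2
    dsimp only at e1 e2
    rcases Nat.lt_or_ge Y 71 with g | g
    · exfalso
      have := (hcore (X' := X) (Y' := Y + 1) ⟨i1, i2, x1, x2, by omega, by omega, by omega,
        by push_cast; omega⟩).2
      exact hex (Or.inl ⟨by omega, Or.inr (Or.inl rfl)⟩)
    · have hY : Y = 71 := by omega
      have h1 := cr_top P hc (X := X) i1 i2 x1 x2 (by omega) (by omega) h' hk
      have h2 : kd P i j = 0 ∨ kd P i j = 34 := by
        by_contra h2
        exact hex (by omega)
      exact hgo (X + 80 * 72) (by omega) (by omega) (hW.top _ h2 X x1 x2)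
  · -- upper right
    rw [v5] at e1 e2
    dsimp only at e1 e2
    rcases Nat.lt_or_ge 8 Y with gy | gy
    · rcases Nat.lt_or_ge 8 X with g | g
      · exfalso
        have := (hcore (X' := X - 1) (Y' := Y - 1) ⟨i1, i2, by omega, by omega, by omega, by omega,
          by omega, by omega⟩).1
        omega
      · have hX : X = 8 := by omega
        have h1 := cr_left P hc (Y := Y - 1) i1 i2 (by omega) (by omega) (by omega) (by omega) h' hk
        have h2 := (hW.left2 (kd P i j) (by omega) (Y - 1) (by omega) (by omega)).1 (by omega)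
        exact hgo (7 + 80 * (Y - 1)) (by omega) (by omega) h2
    · exfalso
      have h1 := cr_bot P hc (X := X - 1) i1 i2 (by omega) (by omega) (by omega) (by omega) h' hk
      exact hex (Or.inr (Or.inr (Or.inr (Or.inr ⟨h1, Or.inr (Or.inl rfl)⟩))))
  · -- upper left
    rw [v6] at e1 e2
    dsimp only at e1 e2
    rcases Nat.lt_or_ge 8 Y with gy | gy
    · rcases Nat.lt_or_ge X 71 with g | g
      · exfalso
        have := (hcore (X' := X + 1) (Y' := Y - 1) ⟨i1, i2, by omega, by omega, by omega, by omega,
          by push_cast; omega, by omega⟩).1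
        omega
      · have hX : X = 71 := by omega
        have h1 := cr_right P hc (Y := Y - 1) i1 i2 (by omega) (by omega) (by omega) (by omega) h' hk
        refine hgo (72 + 80 * (Y - 1)) (by omega) (by omega) ?_
        rcases h1 with h1 | h1 | h1 | h1 | h1 | h1
        · exact (hW.right _ (Or.inl h1) (Y - 1) (by omega) (by omega)).2.1 (by omega)
        · exact (hW.right _ (Or.inr h1) (Y - 1) (by omega) (by omega)).2.1 (by omega)
        · rw [h1]
          exact (hW.rightE (Y - 1) (by omega) (by omega)).1 (by omega)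
        · refine hW.rightD _ (Or.inl h1) (Y - 1) (by omega) (by omega) fun _ => ?_
          have := hsum (Or.inl h1)
          omega
        · refine hW.rightD _ (Or.inr (Or.inl h1)) (Y - 1) (by omega) (by omega) fun h2 => ?_
          exact absurd h1 h2
        · refine hW.rightD _ (Or.inr (Or.inr h1)) (Y - 1) (by omega) (by omega) fun _ => ?_
          have := hsum (Or.inr h1)
          omega
    · exfalso
      have h1 := cr_bot P hc (X := X + 1) i1 i2 (by omega) (by omega) (by push_cast; omega) (by omega) h' hk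
      exact hex (Or.inr (Or.inr (Or.inr (Or.inr ⟨h1, Or.inr (Or.inr rfl)⟩))))
  · -- lower left
    rw [v7] at e1 e2
    dsimp only at e1 e2
    rcases Nat.lt_or_ge Y 71 with gy | gy
    · rcases Nat.lt_or_ge X 71 with g | g
      · exfalso
        have := (hcore (X' := X + 1) (Y' := Y + 1) ⟨i1, i2, by omega, by omega, by omega, by omega,
          by push_cast; omega, by push_cast; omega⟩).2
        exact hex (Or.inl ⟨by omega, Or.inr (Or.inr rfl)⟩)
      · have hX : X = 71 := by omega
        have h1 := cr_right P hc (Y := Y + 1) i1 i2 (by omega) (by omega) (by omega)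
          (by push_cast; omega) h' hk
        refine hgo (72 + 80 * (Y + 1)) (by omega) (by omega) ?_
        have h2 : kd P i j = 0 ∨ kd P i j = 29 ∨ kd P i j = 31 := by
          by_contra h2
          exact hex (by omega)
        rcases h2 with h1 | h1 | h1
        · exact (hW.right _ (Or.inl h1) (Y + 1) (by omega) (by omega)).2.2 (by omega)
        · exact (hW.right _ (Or.inr h1) (Y + 1) (by omega) (by omega)).2.2 (by omega)
        · rw [h1]
          exact (hW.rightE (Y + 1) (by omega) (by omega)).2 (by omega)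
    · have h1 := cr_top P hc (X := X + 1) i1 i2 (by omega) (by omega) (by push_cast; omega)
        (by omega) h' hk
      have h2 : kd P i j = 0 ∨ kd P i j = 34 ∨ kd P i j = 29 ∨ kd P i j = 41 := by
        by_contra h2
        exact hex (by omega)
      exact hgo (X + 1 + 80 * 72) (by omega) (by omega)
        ((hW.top2 _ h2 (X + 1) (by omega) (by omega)).1 (by omega))
  · -- lower right
    rw [v8] at e1 e2
    dsimp only at e1 e2
    rcases Nat.lt_or_ge Y 71 with gy | gy
    · rcases Nat.lt_or_ge 8 X with g | g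
      · exfalso
        have := (hcore (X' := X - 1) (Y' := Y + 1) ⟨i1, i2, by omega, by omega, by omega, by omega,
          by omega, by push_cast; omega⟩).1
        omega
      · have hX : X = 8 := by omega
        have h1 := cr_left P hc (Y := Y + 1) i1 i2 (by omega) (by omega) (by omega)
          (by push_cast; omega) h' hk
        have h2 := (hW.left2 (kd P i j) (by omega) (Y + 1) (by omega) (by omega)).2 (by omega)
        exact hgo (7 + 80 * (Y + 1)) (by omega) (by omega) h2
    · have h1 := cr_top P hc (X := X - 1) i1 i2 (by omega) (by omega) (by omega)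
        (by omega) h' hk
      refine hgo (X - 1 + 80 * 72) (by omega) (by omega) ?_
      rcases h1 with h1 | h1 | h1 | h1 | h1 | h1
      · exact (hW.top2 _ (by omega) (X - 1) (by omega) (by omega)).2 (by omega)
      · exact (hW.top2 _ (by omega) (X - 1) (by omega) (by omega)).2 (by omega)
      · exact (hW.top2 _ (by omega) (X - 1) (by omega) (by omega)).2 (by omega)
      · refine hW.topD _ (Or.inl h1) (X - 1) (by omega) (by omega) ?_
        have := hsum (Or.inl h1)
        omega
      · exact (hW.top2 _ (by omega) (X - 1) (by omega) (by omega)).2 (by omega)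
      · refine hW.topD _ (Or.inr h1) (X - 1) (by omega) (by omega) ?_
        have := hsum (Or.inr h1)
        omega

include hc hD hW in
/-- **Nobody sees the land**, without exceptional crossings. -/
theorem land_bl {s : Sq} {u : ℕ} (hu : u ∈ orT ++ diT) (h : ¬ Hull P c s)
    (hex : ∀ (k i j X Y : ℕ), Tl P i j X Y (s + (k + 1) • vec u) → ¬ Exc (kd P i j) i j u) :
    Bl (resB P D μ x) u s := by
  classical
  by_cases hh : ∃ k : ℕ, Hull P c (s + k • vec u)
  · -- the first square of the hull
    have h1 := Nat.find_spec hh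
    have h2 : Nat.find hh ≠ 0 := by
      intro h0
      rw [h0, zero_smul, add_zero] at h1
      exact h h1
    obtain ⟨k, hk⟩ : ∃ k, Nat.find hh = k + 1 := ⟨Nat.find hh - 1, by omega⟩
    rw [hk] at h1
    have hland : ∀ i : ℕ, i ≤ k → ¬ Hull P c (s + i • vec u) := by
      intro i hi
      exact Nat.find_min hh (by omega)
    obtain ⟨i, j, X, Y, ht, hk1, hz⟩ := h1
    have e : s + (k + 1) • vec u = s + k • vec u + vec u := by
      rw [succ_nsmul, add_assoc]
    refine Bl.steps k (fun i _ hi => land_none P hc hD hW (hland i hi)) ?_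
    have he := hex k i j X Y ht
    rw [e] at ht hz
    exact cross_bl P hc hD hW hu (hland k le_rfl) ht hk1 hz he
  · refine Bl.free fun i _ => land_none P hc hD hW fun h1 => hh ⟨i, h1⟩

end

end Pool.Agent.Lib.H32C.Ly
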