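import Pool.Agent.Lib.H32C.WldF
import Pool.Agent.Lib.H32C.WldH

/-!
# Lines of sight in the world of a program: the shafts of the windows
-/

set_option autoImplicit false

namespace Pool.Agent.Lib.H32C.Ly

open Loc

/-- no slider of the board sees the square `c` from the direction `u`; the lines are blocked outside of `Q` -/
def BlP (B : Board) (Q : Set Sq) (u : Nat) (c : Sq) : Prop :=
  ∀ (l : ℕ) (m : Man), 0 < l → B (c + l • vec u) = some m → SlK m.2 u →
    ∃ i : ℕ, 0 < i ∧ i < l ∧ c + i • vec u ∉ Q ∧ B (c + i • vec u) ≠ none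

theorem BlP.of_bl {B : Board} {Q : Set Sq} {u : Nat} {c : Sq} (h : Bl B u c)
    (h2 : ∀ i : ℕ, 0 < i → c + i • vec u ∉ Q) : BlP B Q u c := by
  intro l m hl hB hm
  obtain ⟨i, g1, g2, g3⟩ := h l m hl hB hm
  exact ⟨i, g1, g2, h2 i g1, g3⟩

theorem BlP.quiet {B : Board} {Q : Set Sq} {u : Nat} {c : Sq} {m : Man}
    (h : B (c + vec u) = some m) (h2 : ¬ SlK m.2 u) (h3 : c + vec u ∉ Q) : BlP B Q u c := by
  intro l m' hl hB hm
  obtain ⟨l', rfl⟩ : ∃ l', l = l' + 1 := ⟨l - 1, by omega⟩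
  rcases Nat.eq_zero_or_pos l' with h0 | h0
  · subst h0
    rw [zero_add, one_smul, h] at hB
    cases hB
    exact absurd hm h2
  · exact ⟨1, by omega, by omega, by rw [one_smul]; exact h3, by rw [one_smul, h]; simp⟩

theorem BlP.step {B : Board} {Q : Set Sq} {u : Nat} {c : Sq} (h : B (c + vec u) = none)
    (h2 : BlP B Q u (c + vec u)) : BlP B Q u c := by
  intro l m hl hB hm
  obtain ⟨l', rfl⟩ : ∃ l', l = l' + 1 := ⟨l - 1, by omega⟩
  rcases Nat.eq_zero_or_pos l' with h0 | h0
  · subst h0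
    rw [zero_add, one_smul, h] at hB
    cases hB
  · have e : ∀ i : ℕ, c + vec u + i • vec u = c + (i + 1) • vec u := by
      intro i
      rw [succ_nsmul', add_assoc]
    obtain ⟨i, g1, g2, g3, g4⟩ := h2 l' m h0 (by rw [e]; exact hB) hm
    exact ⟨i + 1, by omega, by omega, by rw [← e]; exact g3, by rw [← e]; exact g4⟩

section blw

/-- No piece with `W` comes to `c` from the direction `u`: the lines are blocked outside of `Q`. -/
def BlW (B : Board) (Q : Set Sq) (W : Man → Prop) (u : Nat) (c : Sq) : Prop :=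
  ∀ (l : ℕ) (m : Man), 0 < l → B (c + l • vec u) = some m → W m →
    ∃ i : ℕ, 0 < i ∧ i < l ∧ c + i • vec u ∉ Q ∧ B (c + i • vec u) ≠ none

variable {B : Board} {Q : Set Sq} {W : Man → Prop} {u : Nat} {c : Sq}

theorem BlW.of_bl (h : Bl B u c) (h1 : ∀ m, W m → SlK m.2 u)
    (h2 : ∀ i : ℕ, 0 < i → c + i • vec u ∉ Q) : BlW B Q W u c := by
  intro l m hl hB hm
  obtain ⟨i, g1, g2, g3⟩ := h l m hl hB (h1 m hm)
  exact ⟨i, g1, g2, h2 i g1, g3⟩

theorem BlW.of_blp (h : BlP B Q u c) (h1 : ∀ m, W m → SlK m.2 u) : BlW B Q W u c :=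
  fun l m hl hB hm => h l m hl hB (h1 m hm)

theorem BlW.quiet {m : Man} (h : B (c + vec u) = some m) (h2 : ¬ W m) (h3 : c + vec u ∉ Q) :
    BlW B Q W u c := by
  intro l m' hl hB hm
  obtain ⟨l', rfl⟩ : ∃ l', l = l' + 1 := ⟨l - 1, by omega⟩
  rcases Nat.eq_zero_or_pos l' with h0 | h0
  · subst h0
    rw [zero_add, one_smul, h] at hB
    cases hB
    exact absurd hm h2
  · exact ⟨1, by omega, by omega, by rw [one_smul]; exact h3, by rw [one_smul, h]; simp⟩

theorem BlW.step (h : B (c + vec u) = none) (h2 : BlW B Q W u (c + vec u)) : BlW B Q W u c := by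
  intro l m hl hB hm
  obtain ⟨l', rfl⟩ : ∃ l', l = l' + 1 := ⟨l - 1, by omega⟩
  rcases Nat.eq_zero_or_pos l' with h0 | h0
  · subst h0
    rw [zero_add, one_smul, h] at hB
    cases hB
  · have e : ∀ i : ℕ, c + vec u + i • vec u = c + (i + 1) • vec u := by
      intro i
      rw [succ_nsmul', add_assoc]
    obtain ⟨i, g1, g2, g3, g4⟩ := h2 l' m h0 (by rw [e]; exact hB) hm
    exact ⟨i + 1, by omega, by omega, by rw [← e]; exact g3, by rw [← e]; exact g4⟩

theorem BlW.steps (k : ℕ) (h : ∀ i : ℕ, 0 < i → i ≤ k → B (c + i • vec u) = none)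
    (h2 : BlW B Q W u (c + k • vec u)) : BlW B Q W u c := by
  induction k with
  | zero => rwa [zero_smul, add_zero] at h2
  | succ k ih =>
    refine ih (fun i h0 hi => h i h0 (by omega)) (BlW.step ?_ ?_)
    · rw [add_assoc, ← succ_nsmul]
      exact h (k + 1) (by omega) le_rfl
    · rw [add_assoc, ← succ_nsmul]
      exact h2

theorem BlW.free (h : ∀ i : ℕ, 0 < i → B (c + i • vec u) = none) : BlW B Q W u c := by
  intro l m hl hB
  rw [h l hl] at hB
  cases hB

/-- a walk through a free region -/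
theorem BlW.walk (L : Set Sq) (hL : ∀ p ∈ L, B p = none) (h : c ∈ L)
    (hcr : ∀ k : ℕ, (∀ i ≤ k, c + i • vec u ∈ L) → c + (k + 1) • vec u ∉ L →
      BlW B Q W u (c + k • vec u)) : BlW B Q W u c := by
  classical
  by_cases hh : ∃ k : ℕ, c + k • vec u ∉ L
  · have h1 := Nat.find_spec hh
    have h2 : Nat.find hh ≠ 0 := by
      intro h0
      rw [h0, zero_smul, add_zero] at h1
      exact h1 h
    obtain ⟨k, hk⟩ : ∃ k, Nat.find hh = k + 1 := ⟨Nat.find hh - 1, by omega⟩
    rw [hk] at h1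
    have hland : ∀ i : ℕ, i ≤ k → c + i • vec u ∈ L := by
      intro i hi
      by_contra h3
      exact Nat.find_min hh (by omega) h3
    exact BlW.steps k (fun i _ hi => hL _ (hland i hi)) (hcr k hland h1)
  · exact BlW.free fun i _ => hL _ (by by_contra h1; exact hh ⟨i, h1⟩)

/-- lines are blocked -/
theorem blw_betw (hu : u ∈ orT ++ diT) (h : BlW B Q W u c) {a : Sq} {m : Man} (ha : B a = some m)
    (hm : W m) {l : ℕ} (hl : 0 < l) (hal : a = c + l • vec u) :
    ∃ d, BetwI a c d ∧ d ∉ Q ∧ B d ≠ none := by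
  obtain ⟨i, g1, g2, g3, g4⟩ := h l m hl (by rw [← hal]; exact ha) hm
  exact ⟨_, fwe_betw hu hal g1 g2 rfl, g3, g4⟩

/-- the pieces which are dangerous for the direction `u` on a line with step `t` -/
def WD (u t : Nat) (m : Man) : Prop := SlK m.2 u ∧ (m.1 = false → SlK m.2 t)

theorem tmk_spec : ∀ u ∈ orT ++ diT, ∀ t ∈ orT ++ diT, ∀ k < 16, msk (tmk u t) k = true →
    ∃ m, dec k = some m ∧ ¬ WD u t m := by
  intro u hu t ht k hk h
  have key : ∀ u ∈ orT ++ diT, ∀ t ∈ orT ++ diT, ∀ k < 16, msk (tmk u t) k = true →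
      k = 1 ∨ k = 2 ∨ k = 9 ∨ k = 10 ∨ (k = 3 ∧ u ∉ diT) ∨ (k = 4 ∧ u ∉ orT) ∨
        (k = 11 ∧ (u ∉ diT ∨ t ∉ diT)) ∨ (k = 12 ∧ (u ∉ orT ∨ t ∉ orT)) := by decide +kernel
  have h1 := key u hu t ht k hk h
  unfold WD SlK
  rcases h1 with rfl | rfl | rfl | rfl | ⟨rfl, h2⟩ | ⟨rfl, h2⟩ | ⟨rfl, h2⟩ | ⟨rfl, h2⟩
  · exact ⟨_, rfl, by simp⟩
  · exact ⟨_, rfl, by simp⟩
  · exact ⟨_, rfl, by simp⟩
  · exact ⟨_, rfl, by simp⟩
  · exact ⟨_, rfl, by simp [h2]⟩
  · exact ⟨_, rfl, by simp [h2]⟩
  · refine ⟨_, rfl, ?_⟩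
    rcases h2 with h2 | h2 <;> simp [h2]
  · refine ⟨_, rfl, ?_⟩
    rcases h2 with h2 | h2 <;> simp [h2]

theorem scg_blw {H A b s M : ℕ} {O : Sq}
    (hB : ∀ j, inA H j = true → cell A j ≠ 15 → B (sqA O j) = dec (cell A j))
    (hQ : ∀ j, inA H j = true → b ≤ j → sqA O j ∉ Q)
    (hM : ∀ k < 16, msk M k = true → ∃ m, dec k = some m ∧ ¬ W m)
    (hz : ∀ j, inA H j = true → s ≤ j % 80 + j / 80 → ∀ i : ℕ, B (sqA O j + i • vec u) = none)
    (hu : u ∈ orT ++ diT) : ∀ n j : ℕ, scg H A b s M u n j = true → BlW B Q W u (sqA O j) := by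
  intro n
  induction n with
  | zero => intro j h; cases h
  | succ n ih =>
    intro j h
    have h1 : scg H A b s M u (n + 1) j = (inA H (stA u j) &&
      (Nat.ble s (Nat.add (Nat.mod (stA u j) 80) (Nat.div (stA u j) 80)) ||
      cond (Nat.beq (cell A (stA u j)) 0) (scg H A b s M u n (stA u j))
        (msk M (cell A (stA u j)) && Nat.ble b (stA u j)))) := rfl
    rw [h1, Bool.and_eq_true, Bool.or_eq_true] at h
    obtain ⟨h2, h3⟩ := h
    have e := sqA_stA (O := O) hu h2
    rcases h3 with h3 | h3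
    · have h4 := hz _ h2 (Nat.le_of_ble_eq_true h3)
      refine BlW.free fun i hi => ?_
      obtain ⟨i', rfl⟩ : ∃ i', i = i' + 1 := ⟨i - 1, by omega⟩
      have h5 := h4 i'
      rw [e, add_assoc, ← succ_nsmul'] at h5
      exact h5
    cases h4 : Nat.beq (cell A (stA u j)) 0 with
    | true =>
      rw [h4] at h3
      have h5 := Nat.eq_of_beq_eq_true h4
      refine BlW.step ?_ ?_
      · rw [← e, hB _ h2 (by rw [h5]; decide), h5]
        rfl
      · rw [← e]
        exact ih _ h3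
    | false =>
      rw [h4] at h3
      have h3' : (msk M (cell A (stA u j)) && Nat.ble b (stA u j)) = true := h3
      rw [Bool.and_eq_true] at h3'
      obtain ⟨m, h5, h6⟩ := hM _ (cell_lt _ _) h3'.1
      have h7 : cell A (stA u j) ≠ 15 := by
        intro h7
        rw [h7] at h5
        cases h5
      exact BlW.quiet (m := m) (by rw [← e, hB _ h2 h7, h5]) h6
        (by rw [← e]; exact hQ _ h2 (Nat.le_of_ble_eq_true h3'.2))

theorem WD.sl {u t : Nat} {m : Man} (h : WD u t m) : SlK m.2 u := h.1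

end blw

theorem scb_bl {H A b : ℕ} {O : Sq} {B : Board} {Q : Set Sq}
    (hB : ∀ j, inA H j = true → cell A j ≠ 15 → B (sqA O j) = dec (cell A j))
    (hQ : ∀ j, inA H j = true → b ≤ j → sqA O j ∉ Q) {u : Nat}
    (hu : u ∈ orT ++ diT) : ∀ n j : ℕ, scb H A b u n j = true → BlP B Q u (sqA O j) := by
  intro n
  induction n with
  | zero => intro j h; cases h
  | succ n ih =>
    intro j h
    have h1 : scb H A b u (n + 1) j = ((inA H (stA u j) && Nat.ble b (stA u j)) &&
      cond (Nat.beq (cell A (stA u j)) 0) (scb H A b u n (stA u j))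
        (msk (qmk u) (cell A (stA u j)))) := rfl
    rw [h1, Bool.and_eq_true, Bool.and_eq_true] at h
    obtain ⟨⟨h2, h2'⟩, h3⟩ := h
    have e := sqA_stA (O := O) hu h2
    have hq := hQ _ h2 (Nat.le_of_ble_eq_true h2')
    cases h4 : Nat.beq (cell A (stA u j)) 0 with
    | true =>
      rw [h4] at h3
      have h5 := Nat.eq_of_beq_eq_true h4
      refine BlP.step ?_ ?_
      · rw [← e, hB _ h2 (by rw [h5]; decide), h5]
        rfl
      · rw [← e]
        exact ih _ h3
    | false =>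
      rw [h4] at h3
      obtain ⟨m, h5, h6⟩ := qmk_spec u hu _ (cell_lt _ _) h3
      have h7 : cell A (stA u j) ≠ 15 := by
        intro h7
        rw [h7] at h5
        cases h5
      exact BlP.quiet (m := m) (by rw [← e, hB _ h2 h7, h5]) h6 (by rw [← e]; exact hq)

theorem mskW : ∀ c < 16, msk 0x7e4e c = true →
    ∃ m, dec c = some m ∧ m ≠ (true, Kind.rook) ∧ m ≠ (true, Kind.queen) := by
  intro c hc h
  interval_cases c <;> first | exact absurd h (by decide) | exact ⟨_, rfl, by decide, by decide⟩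

theorem scw_spec {H A : ℕ} {O : Sq} {B : Board}
    (hB : ∀ j, inA H j = true → cell A j ≠ 15 → B (sqA O j) = dec (cell A j)) {u : Nat}
    (hu : u ∈ orT ++ diT) : ∀ n j : ℕ, scw H A u n j = true →
      ∀ (l : ℕ) (κ : Kind), 0 < l → B (sqA O j + l • vec u) = some (true, κ) →
        (κ = Kind.rook ∨ κ = Kind.queen) →
        ∃ i : ℕ, 0 < i ∧ i < l ∧ B (sqA O j + i • vec u) ≠ none := by
  intro n
  induction n with
  | zero => intro j h; cases h
  | succ n ih =>
    intro j h l κ hl hl2 hκ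
    have h1 : scw H A u (n + 1) j = (inA H (stA u j) &&
      cond (Nat.beq (cell A (stA u j)) 0) (scw H A u n (stA u j))
        (msk 0x7e4e (cell A (stA u j)))) := rfl
    rw [h1, Bool.and_eq_true] at h
    obtain ⟨h2, h3⟩ := h
    have e := sqA_stA (O := O) hu h2
    obtain ⟨l', rfl⟩ : ∃ l', l = l' + 1 := ⟨l - 1, by omega⟩
    cases h4 : Nat.beq (cell A (stA u j)) 0 with
    | true =>
      rw [h4] at h3
      have h5 := Nat.eq_of_beq_eq_true h4
      have hn : B (sqA O j + vec u) = none := by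
        rw [← e, hB _ h2 (by rw [h5]; decide), h5]
        rfl
      rcases Nat.eq_zero_or_pos l' with h0 | h0
      · subst h0
        rw [zero_add, one_smul, hn] at hl2
        cases hl2
      · have e2 : ∀ i : ℕ, sqA O (stA u j) + i • vec u = sqA O j + (i + 1) • vec u := by
          intro i
          rw [e, succ_nsmul', add_assoc]
        obtain ⟨i, g1, g2, g3⟩ := ih _ h3 l' κ h0 (by rw [e2]; exact hl2) hκ
        exact ⟨i + 1, by omega, by omega, by rw [← e2]; exact g3⟩
    | false =>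
      rw [h4] at h3
      obtain ⟨m, h5, h6, h8⟩ := mskW _ (cell_lt _ _) h3
      have h7 : cell A (stA u j) ≠ 15 := by
        intro h7
        rw [h7] at h5
        cases h5
      have hn : B (sqA O j + vec u) = some m := by rw [← e, hB _ h2 h7, h5]
      rcases Nat.eq_zero_or_pos l' with h0 | h0
      · subst h0
        rw [zero_add, one_smul, hn, Option.some.injEq] at hl2
        subst hl2
        rcases hκ with rfl | rfl
        · exact absurd rfl h6
        · exact absurd rfl h8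
      · exact ⟨1, by omega, by omega, by rw [one_smul, hn]; simp⟩

/-! ### The world -/

variable (P : Prog)

section

variable {c : Offs} (hc : c.Ok2) {D : TD} (hD : D.Ok2) (hW : WallOk c D) {μ : Option ℕ}
  {x : Option (ℕ × ℕ)}

include hc hD hW in
/-- **The static board.** -/
theorem farWorld : FarWorld (geo c P.n) (resB P D μ x) where
  fin := finite_resB P D μ x
  zone s hs := land_none P hc hD hW fun ⟨_, _, _, _, _, _, h⟩ => h hs
  top s hs := land_none P hc hD hW fun ⟨i, j, X, Y, h, _, _⟩ => by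
    have h1 := h.e2
    have h2 := h.hj
    have h3 := h.Y2
    unfold ny at h2
    simp only [geo] at hs
    omega

include hD in
/-- composite tiles -/
theorem comp_resA {i j k A : ℕ} (hi : i < nx P.n) (hj : j + 1 < ny P.n) (hk : kd P i j = k)
    (hk2 : kd P i (j + 1) = k - 1) (hA : Comp D k A) {X Y : ℕ} (hX : X < 80) (hY : Y < 144)
    (hne : codeA A X Y ≠ 15) : resB P D μ x (tsq (World.org i j) X Y) = dec (codeA A X Y) := by
  obtain ⟨a1, a2⟩ := hA X Y hX hY hne
  rcases Nat.lt_or_ge Y 72 with h6 | h6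
  · have e := a1 h6
    rw [← hk] at e
    rw [e]
    exact fit_resB P hD hi (by omega) hX (by omega) (by rw [← e]; exact hne)
  · have e := a2 h6
    rw [← hk2] at e
    have h7 := fit_resB P hD (μ := μ) (x := x) hi hj hX (Y := Y - 64) (by omega)
      (by rw [← e]; exact hne)
    rw [← e] at h7
    have e3 : tsq (World.org i (j + 1)) X (Y - 64) = tsq (World.org i j) X Y := by
      unfold tsq
      rw [org_snd, org_snd]
      have : 64 ≤ Y := by omega
      refine Prod.ext rfl ?_
      simp only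
      push_cast [this]
      ring
    rw [e3] at h7
    exact h7

include hc in
/-- the tiles of the hull are away from the zone -/
theorem hull_sum {s : Sq} (h : Hull P c s) (hD' : s.1 < 64 * (66 + 2 * (P.n : ℤ)) ∨
    s.2 < 64 * (43 + 3 * (P.n : ℤ))) (he : 64 * (26 + 3 * (P.n : ℤ)) ≤ s.2) :
    s.1 + s.2 + 3 ≤ (geo c P.n).X0 ∧ s.2 - s.1 + 3 ≤ (geo c P.n).c1 := by
  obtain ⟨i, j, X, Y, ht, hk, -⟩ := h
  obtain ⟨h1, h2, h3, h4, h5, h6, h7, h8⟩ := ht
  have hnx : nx P.n = 90 + 5 * P.n := rfl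
  have hny : ny P.n = 45 + 3 * P.n := rfl
  have o1 := hc.toOk.o
  have o15 := hc.hxy
  have hj : 26 + 3 * P.n ≤ j := by omega
  have hk' : kd P i j = kdt (j + 2 - 3 * P.n) (cx P.n 0 0 i) := kd_t P hj i
  have ht := znk_tab (r := j + 2 - 3 * P.n) (q := cx P.n 0 0 i) (by omega) (by omega)
      (cx_lt h1)
  simp only [geo, FGeo.c1, colq]
  refine ⟨?_, by omega⟩
  rw [← hk'] at ht
  rcases ht with ht | ht | ht | ⟨ht1, ht2⟩
  · exact absurd ht hk
  · have : i < 51 + 2 * P.n := by
      by_contra hge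
      unfold cx at ht
      split_ifs at ht <;> omega
    omega
  · have : i < 51 + 2 * P.n := by
      by_contra hge
      unfold cx at ht
      rw [hnx] at h1
      split_ifs at ht <;> omega
    omega
  · rcases Nat.lt_or_ge i (51 + 2 * P.n) with g | g
    · omega
    · rcases Nat.lt_or_ge i (72 + 2 * P.n) with g2 | g2
      · rw [cx_d g g2] at ht2
        omega
      · exfalso
        unfold cx at ht1
        split_ifs at ht1 <;> omega

end

end Pool.Agent.Lib.H32C.Ly
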