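import Pool.Agent.Lib.H32C.WldD
import Pool.Agent.Lib.H32C.WldH

/-!
# Small facts on the world of a program
-/

set_option autoImplicit false

namespace Pool.Agent.Lib.H32C.Ly

open Loc

/-- table facts: the row of the windows `E`, `W` -/
theorem row28 : kdt 28 0 = 33 ∧ kdt 28 1 = 32 ∧ kdt 28 72 = 30 ∧ kdt 28 73 = 31 ∧ kdt 28 74 = 1 ∧
    kdt 28 75 = 1 ∧ kdt 28 76 = 1 ∧ kdt 28 77 = 1 ∧ kdt 28 78 = 1 := by
  decide +kernel

variable (P : Prog)

/-- the tiles of this row -/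
theorem kd_row28 : kd P 0 (26 + 3 * P.n) = 33 ∧ kd P 1 (26 + 3 * P.n) = 32 ∧
    kd P (70 + 2 * P.n) (26 + 3 * P.n) = 30 ∧ kd P (71 + 2 * P.n) (26 + 3 * P.n) = 31 ∧
    ∀ i, 72 + 2 * P.n ≤ i → i < nx P.n → kd P i (26 + 3 * P.n) = 1 := by
  obtain ⟨t1, t2, t3, t4, t5, t6, t7, t8, t9⟩ := row28
  have hk : ∀ i, kd P i (26 + 3 * P.n) = kdt 28 (cx P.n 0 0 i) := by
    intro i
    rw [kd_t P le_rfl]
    congr 1
    omega
  refine ⟨?_, ?_, ?_, ?_, ?_⟩
  · rw [hk, cx_a (by omega)]; exact t1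
  · rw [hk, cx_a (by omega)]; exact t2
  · rw [hk, cx_d (by omega) (by omega), show 70 + 2 * P.n + 2 - 2 * P.n = 72 by omega]; exact t3
  · rw [hk, cx_d (by omega) (by omega), show 71 + 2 * P.n + 2 - 2 * P.n = 73 by omega]; exact t4
  · intro i h1 h2
    unfold nx at h2
    rw [hk]
    rcases Nat.lt_or_ge i (86 + 5 * P.n) with h3 | h3
    · rw [cx_g h1 h3]
      exact t5
    · rw [cx_e h3]
      have : i - 11 - 5 * P.n = 75 ∨ i - 11 - 5 * P.n = 76 ∨ i - 11 - 5 * P.n = 77 ∨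
          i - 11 - 5 * P.n = 78 := by omega
      rcases this with h | h | h | h <;> rw [h] <;> assumption

section

variable {c : Offs} {D : TD} (hD : D.Ok2) {μ : Option ℕ} {x : Option (ℕ × ℕ)}

include hD in
/-- a pawn or knight at a cell -/
theorem pn_cell {i j X Y : ℕ} {s : Sq} (ht : Tl P i j X Y s)
    (h : msk 0x606 (codeA (D.ar (kd P i j)) X Y) = true) :
    ∃ m, resB P D μ x s = some m ∧ (m.2 = Kind.pawn ∨ m.2 = Kind.knight) := by
  obtain ⟨m, h1, h2⟩ := qn_quiet (WA_codeA_lt _ _ _) h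
  refine ⟨m, ?_, h2⟩
  rw [ht.eq, fit_resB P hD ht.hi ht.hj (by have := ht.X2; omega) (by have := ht.Y2; omega), h1]
  intro h15
  rw [h15] at h1
  cases h1

end

section

variable {D : TD} (hD : D.Ok3) {μ : Option ℕ} {x : Option (ℕ × ℕ)}

include hD in
theorem fitsH_resB {i j : ℕ} (hi : i < nx P.n) (hj : j < ny P.n) :
    FitsH 80 (D.ar (kd P i j)) (World.org i j) (resB P D μ x) :=
  ⟨fun _ _ hX hY hne => fit_resB P hD.toOk2 hi hj hX hY hne, resB_noK P hD.toOk2⟩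

end

end Pool.Agent.Lib.H32C.Ly
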