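import Pool.Agent.Lib.H32C.WldHb
import Pool.Agent.Lib.H32C.WldI
import Pool.Agent.Lib.H32C.WldIa

/-!
# Lines of sight in the world of a program: vertical shafts
-/

set_option autoImplicit false

namespace Pool.Agent.Lib.H32C.Ly

open Loc

theorem abk_tab {k : ℕ} (hk : k < 42) :
    (vtb 25 k = true → k = 28 ∨ k = 29) ∧ (vtb 26 k = true → k = 41) ∧
    (vtb 28 k = true → k = 27) ∧ (vtb 27 k = true → k = 29) ∧
    (vtb 29 k = true → k = 1 ∨ k = 29) ∧ (vtb 41 k = true → k = 1) ∧
    (vtb 1 k = true → k = 1) := by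
  have h := (allN_iff _ _).1 abk_true k hk
  simp only [Bool.and_eq_true, Bool.or_eq_true, Bool.not_eq_true', beqT] at h
  obtain ⟨h1, h2, h3, h4, h5, h6, h7⟩ := h
  refine ⟨?_, ?_, ?_, ?_, ?_, ?_, ?_⟩ <;> intro g
  · rcases h1 with h1 | h1
    · rw [g] at h1; cases h1
    · exact h1
  · rcases h2 with h1 | h1
    · rw [g] at h1; cases h1
    · exact h1
  · rcases h3 with h1 | h1
    · rw [g] at h1; cases h1
    · exact h1
  · rcases h4 with h1 | h1
    · rw [g] at h1; cases h1
    · exact h1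
  · rcases h5 with h1 | h1
    · rw [g] at h1; cases h1
    · exact h1
  · rcases h6 with h1 | h1
    · rw [g] at h1; cases h1
    · exact h1
  · rcases h7 with h1 | h1
    · rw [g] at h1; cases h1
    · exact h1

variable (P : Prog)

/-- the rows of the shafts -/
theorem pos_sv {i j : ℕ} (hi : i < nx P.n) (hj : j < ny P.n) (h : kd P i j = 29) :
    29 + 3 * P.n ≤ j := by
  have h1 := (allN_iff _ _).1 ((allN_iff _ _).1 svp_true _ (rx_lt P hj).1) _
    (cx_lt (m := pm P.n j) (t := pt P j) hi)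
  have h3 : Nat.beq (kdt (rx P j) (cx P.n (pm P.n j) (pt P j) i)) 29 = true := beqT.2 h
  rw [h3, Bool.not_true, Bool.false_or, Bool.and_eq_true, blt_iff, blt_iff] at h1
  have h4 := (row_of P (r0 := rx P j) rfl h1.2 (Or.inr (by omega))).2 (by omega)
  omega

/-- the columns and rows of the kinds with exceptional crossings -/
theorem pos_exc {i j : ℕ} (hi : i < nx P.n) (hj : j < ny P.n) :
    (kd P i j = 35 ∨ kd P i j = 36 ∨ kd P i j = 40 → 66 + 2 * P.n ≤ i ∧ 42 + 3 * P.n ≤ j) ∧
      (kd P i j = 31 → i = 71 + 2 * P.n ∧ j = 26 + 3 * P.n) ∧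
      (kd P i j = 41 → j = 34 + 3 * P.n) := by
  refine ⟨?_, ?_, ?_⟩
  · rintro (h | h | h)
    · have := (pos_D P hi hj).1 h
      omega
    · obtain ⟨h1, h2⟩ := uq_of P hi hj (a := (36, 44, 69)) (by decide) h
      have h3 := (row_of P h1 (by decide) (by decide)).2 (by decide)
      have h4 := (col_of hi h2 (by decide) (by decide) (by decide) (by decide)).2.2.1 (by decide)
        (by decide)
      simp only at h3 h4
      omega
    · have := (pos_D P hi hj).2 h
      omega
  · intro h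
    obtain ⟨h1, h2⟩ := uq_of P hi hj (a := (31, 28, 73)) (by decide) h
    have h3 := (row_of P h1 (by decide) (by decide)).2 (by decide)
    have h4 := (col_of hi h2 (by decide) (by decide) (by decide) (by decide)).2.2.1 (by decide)
      (by decide)
    simp only at h3 h4
    omega
  · intro h
    obtain ⟨h1, h2⟩ := uq_of P hi hj (a := (41, 36, 34)) (by decide) h
    have h3 := (row_of P h1 (by decide) (by decide)).2 (by decide)
    simp only at h3
    omega

/-- the tiles above the tile `(i, jt)`, which is above a window or touch -/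
theorem stack {i jt : ℕ} (hi : i < nx P.n) (hk : kd P i jt = 28 ∨ kd P i jt = 29 ∨ kd P i jt = 41)
    {j : ℕ} (hj : jt ≤ j) (hj2 : j < ny P.n) : kd P i j = 1 ∨ kd P i j = 29 ∧ kd P i jt ≠ 41 ∨
      (kd P i j = 41 ∧ j = jt) ∨ (kd P i j = 28 ∧ j = jt) ∨ (kd P i j = 27 ∧ j = jt + 1 ∧
        kd P i jt = 28) := by
  induction j, hj using Nat.le_induction with
  | base =>
    rcases hk with h | h | h
    · exact Or.inr (Or.inr (Or.inr (Or.inl ⟨h, rfl⟩)))
    · exact Or.inr (Or.inl ⟨h, by omega⟩)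
    · exact Or.inr (Or.inr (Or.inl ⟨h, rfl⟩))
  | succ j hj ih =>
    have h1 := ih (by omega)
    have h2 := vadj P hi hj2
    have h3 := abk_tab (kd_lt P hi hj2)
    rcases h1 with h1 | ⟨h1, h1'⟩ | ⟨h1, h4⟩ | ⟨h1, h4⟩ | ⟨h1, h4, h5⟩
    · rw [h1] at h2
      exact Or.inl (h3.2.2.2.2.2.2 h2)
    · rw [h1] at h2
      rcases h3.2.2.2.2.1 h2 with h4 | h4
      · exact Or.inl h4
      · exact Or.inr (Or.inl ⟨h4, h1'⟩)
    · rw [h1] at h2
      exact Or.inl (h3.2.2.2.2.2.1 h2)
    · rw [h1] at h2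
      subst h4
      exact Or.inr (Or.inr (Or.inr (Or.inr ⟨h3.2.2.1 h2, rfl, h1⟩)))
    · rw [h1] at h2
      exact Or.inr (Or.inl ⟨h3.2.2.2.1 h2, by omega⟩)

section

variable {c : Offs} (hc : c.Ok2) {D : TD} (hD : D.Ok2) (hW : WallOk c D) {tou xo : ℕ}
  (hS : ShaftV D tou xo) {μ : Option ℕ} {x : Option (ℕ × ℕ)}

theorem b600 {k : ℕ} (hk : k < 16) (h : msk 0x600 k = true) :
    ∃ m : Man, dec k = some m ∧ (m.2 = Kind.pawn ∨ m.2 = Kind.knight) ∧ m.1 = false := by
  have : k = 9 ∨ k = 10 := by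
    have : ∀ k < 16, msk 0x600 k = true → k = 9 ∨ k = 10 := by decide
    exact this k hk h
  rcases this with rfl | rfl
  · exact ⟨_, rfl, Or.inl rfl, rfl⟩
  · exact ⟨_, rfl, Or.inr rfl, rfl⟩

theorem m600 {k : ℕ} (hk : k < 16) (h : msk 0x600 k = true) : msk 0x606 k = true := by
  have : ∀ k < 16, msk 0x600 k = true → msk 0x606 k = true := by decide
  exact this k hk h

theorem mem6 {u : ℕ} (hu : u ∈ orT ++ diT) (hv : (vec u).1 ≠ 0) : u ∈ [43, 41, 63, 61, 21, 23] ∧
    ((vec u).1 = 1 ∨ (vec u).1 = -1) ∧ ((vec u).2 = 0 ∨ (vec u).2 = 1 ∨ (vec u).2 = -1) := by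
  revert hv
  revert u
  decide

include hc hD hW in
/-- the land above a shaft is not seen from the sides -/
theorem col_land {i0 : ℕ} (h1 : 1 ≤ i0) (h2 : i0 < 66 + 2 * P.n) {s : Sq} {u : ℕ}
    (hu : u ∈ orT ++ diT) (hv : (vec u).1 ≠ 0) (hs1 : 64 * (i0 : ℤ) ≤ s.1)
    (hs2 : s.1 < 64 * (i0 : ℤ) + 64) (hs3 : 64 * (27 + 3 * (P.n : ℤ)) ≤ s.2) (hl : ¬ Hull P c s) :
    Bl (resB P D μ x) u s := by
  refine land_bl P hc hD hW hu hl ?_
  intro k i j X Y ht hex
  obtain ⟨i1, i2, x1, x2, y1, y2, e1, e2⟩ := ht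
  rw [add_nsmul_fst] at e1
  rw [add_nsmul_snd] at e2
  have hp := pos_exc P i1 i2
  push_cast at e1 e2
  obtain ⟨v1, v2, v3, v4, v5, v6, v7, v8⟩ := vec8
  rcases hex with ⟨h3, h4⟩ | ⟨-, h4⟩ | ⟨h3, h4⟩ | ⟨h3, h4⟩ | ⟨h3, h4⟩
  · have h5 := (hp.1 h3).1
    rcases h4 with rfl | rfl | rfl
    · rw [v3] at e1
      simp only at e1
      omega
    · rw [v4] at hv
      exact hv rfl
    · rw [v7] at e1
      simp only at e1
      omega
  · rw [h4, v4] at hv
    exact hv rfl
  · have h5 := hp.2.1 h3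
    rw [h4, v3] at e1
    simp only at e1
    omega
  · rw [h4, v1] at e1
    simp only at e1
    omega
  · rcases h4 with rfl | rfl | rfl
    · rw [v2] at hv
      exact hv rfl
    · rw [v5] at e2
      simp only at e2
      omega
    · rw [v6] at e2
      simp only at e2
      omega

/-- a region around the column `xc`, below the row `q` -/
def Reg (Q : Set Sq) (xc q : ℤ) : Prop := ∀ s ∈ Q, s.2 < q ∧ s.1 - xc < 60 ∧ xc - s.1 < 60

include hc hD hW hS in
/-- **The squares of the shafts and the land above are not seen from the sides.** -/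
theorem col_bl {i0 jt : ℕ} (h1 : 1 ≤ i0) (h2 : i0 < 66 + 2 * P.n) (h3 : 27 + 3 * P.n ≤ jt)
    (h4 : jt < ny P.n) (hk : kd P i0 jt = 28 ∨ kd P i0 jt = 29 ∨ kd P i0 jt = 41) {s : Sq}
    (hs1 : s.1 = 64 * (i0 : ℤ) + xoK xo (kd P i0 jt)) (hs2 : 64 * (jt : ℤ) + 6 ≤ s.2) {Q : Set Sq}
    (hQ : Reg Q s.1 (64 * (jt : ℤ) + 5)) {u : ℕ} (hu : u ∈ orT ++ diT) (hv : (vec u).1 ≠ 0) :
    BlW (resB P D μ x) Q (WD u 62) u s := by
  have hnx : nx P.n = 90 + 5 * P.n := rfl
  have hny : ny P.n = 45 + 3 * P.n := rfl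
  have hi0 : i0 < nx P.n := by omega
  obtain ⟨hm, hv1, hv2⟩ := mem6 hu hv
  have hx0 := hS.hx
  have hxo : xoK xo (kd P i0 jt) = xo - 9 ∨ xoK xo (kd P i0 jt) = xo - 8 := by
    unfold xoK; split_ifs <;> simp
  -- squares which are high enough
  have hup : ∀ {s' : Sq}, 64 * (jt : ℤ) + 5 ≤ s'.2 → s' ∉ Q := by
    intro s' h5 h6
    have := (hQ s' h6).1
    omega
  -- the land
  have hland : ∀ s' : Sq, ¬ Hull P c s' → (s'.1 = s.1 ∨ (s'.1 = s.1 + (vec u).1 ∧ (vec u).2 = 1)) →
      64 * ((jt : ℤ) + 1) ≤ s'.2 → BlW (resB P D μ x) Q (WD u 62) u s' := by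
    intro s' h5 h6 h7
    refine BlW.of_bl (col_land P hc hD hW h1 h2 hu hv (by omega) (by omega) (by omega) h5)
      (fun m hm => hm.1) ?_
    intro i hi h8
    obtain ⟨h9, h10, h11⟩ := hQ _ h8
    rw [add_nsmul_snd] at h9
    rw [add_nsmul_fst] at h10 h11
    rcases h6 with h6 | ⟨h6, h12⟩
    · rcases hv2 with hv2 | hv2 | hv2 <;> rw [hv2] at h9
      · omega
      · omega
      · rcases hv1 with hv1 | hv1 <;> rw [hv1] at h10 h11 <;> omega
    · rw [h12] at h9
      omega
  rcases lt_or_ge s.2 (64 * (ny P.n : ℤ)) with h5 | h5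
  swap
  · refine hland s ?_ (Or.inl rfl) (by omega)
    rintro ⟨i, j, X, Y, ht, -, -⟩
    have g1 := ht.e2
    have g2 := ht.hj
    have g3 := ht.Y2
    omega
  obtain ⟨i, j, X, Y, ht⟩ := tl_of P (s := s) (by omega) (by omega) (by omega) (by omega)
  have hii : i = i0 := by have := ht.e1; have := ht.X1; have := ht.X2; omega
  subst hii
  have hjj : jt ≤ j := by have := ht.e2; have := ht.Y1; have := ht.Y2; omega
  have hX : X = xoK xo (kd P i jt) + 8 := by have := ht.e1; omega
  -- the neighbour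
  have hnb : ∀ {X' Y' : ℕ} {j' : ℕ}, Tl P i j' X' Y' (s + vec u) → jt ≤ j' →
      msk 0x606 (codeA (D.ar (kd P i j')) X' Y') = true → 64 * (jt : ℤ) + 5 ≤ (s + vec u).2 →
      BlW (resB P D μ x) Q (WD u 62) u s := by
    intro X' Y' j' ht' _ h6 h7
    obtain ⟨m, g1, g2⟩ := pn_cell P hD ht' h6
    exact BlW.quiet g1 (fun h => slk_quiet g2 h.1) (hup h7)
  have hsv : ∀ {X' Y' j' : ℕ}, Tl P i j' X' Y' (s + vec u) → jt ≤ j' → (kd P i j' = 29 ∨
      kd P i j' = 41) → 64 * (jt : ℤ) + 5 ≤ (s + vec u).2 → BlW (resB P D μ x) Q (WD u 62) u s := by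
    intro X' Y' j' ht' hj' h6 h7
    refine hnb ht' hj' ?_ h7
    have e1 := ht'.e1
    have f1 : (s + vec u).1 = s.1 + (vec u).1 := rfl
    rw [f1, hs1] at e1
    rcases stack P hi0 hk hj' ht'.hj with g | ⟨g, g'⟩ | ⟨g, g'⟩ | ⟨g, g'⟩ | ⟨g, g', -⟩
    · omega
    · have hx : xoK xo (kd P i jt) = xo - 8 := by unfold xoK; rw [if_neg g']
      rw [g]
      have h8 := hS.sv Y' ht'.Y1 ht'.Y2
      rcases hv1 with hv1 | hv1
      · rw [show X' = xo + 1 by omega]
        exact m600 (WA_codeA_lt _ _ _) h8.2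
      · rw [show X' = xo - 1 by omega]
        exact m600 (WA_codeA_lt _ _ _) h8.1
    · subst g'
      have hx : xoK xo (kd P i j') = xo - 9 := by unfold xoK; rw [if_pos g]
      rw [g]
      have h8 := hS.s2 Y' ht'.Y1 ht'.Y2
      rcases hv1 with hv1 | hv1
      · rw [show X' = xo by omega]
        exact m600 (WA_codeA_lt _ _ _) h8.2.2
      · rw [show X' = xo - 2 by omega]
        exact m600 (WA_codeA_lt _ _ _) h8.2.1
    · omega
    · omega
  have he1 := ht.e1
  have he2 := ht.e2
  have hy1 := ht.Y1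
  have hy2 := ht.Y2
  have f1 : (s + vec u).1 = s.1 + (vec u).1 := rfl
  have f2 : (s + vec u).2 = s.2 + (vec u).2 := rfl
  -- the step into the tile above
  have habove : Y = 71 → (vec u).2 = 1 → (kd P i j = 29 ∨ kd P i j = 41 ∨ kd P i j = 27) →
      BlW (resB P D μ x) Q (WD u 62) u s := by
    intro h6 h7 h8
    rcases Nat.lt_or_ge (j + 1) (ny P.n) with h9 | h9
    · have ht' : Tl P i (j + 1) (X + 1 * (if (vec u).1 = 1 then 1 else 0) -
          (if (vec u).1 = 1 then 0 else 1)) 8 (s + vec u) := by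
        refine ⟨ht.hi, h9, ?_, ?_, le_rfl, by decide, ?_, ?_⟩
        · rcases hv1 with g | g
          · rw [if_pos g, if_pos g]; omega
          · rw [if_neg (by omega), if_neg (by omega)]; omega
        · rcases hv1 with g | g
          · rw [if_pos g, if_pos g]; omega
          · rw [if_neg (by omega), if_neg (by omega)]; omega
        · rw [f1]
          rcases hv1 with g | g
          · rw [if_pos g, if_pos g]; push_cast; omega
          · rw [if_neg (by omega), if_neg (by omega)]; push_cast; omega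
        · rw [f2]; push_cast; omega
      have h10 := vadj P ht.hi h9
      have h11 := abk_tab (kd_lt P ht.hi h9)
      have h12 : kd P i (j + 1) = 1 ∨ kd P i (j + 1) = 29 := by
        rcases h8 with h8 | h8 | h8 <;> rw [h8] at h10
        · exact h11.2.2.2.2.1 h10
        · exact Or.inl (h11.2.2.2.2.2.1 h10)
        · exact Or.inr (h11.2.2.2.1 h10)
      rcases h12 with h12 | h12
      · have h13 : ¬ Hull P c (s + vec u) := by
          rintro ⟨i', j', X', Y', ht2, hk2, -⟩
          obtain ⟨rfl, rfl, -, -⟩ := ht'.uniq ht2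
          exact hk2 h12
        refine BlW.step (land_none P hc hD hW h13) (hland _ h13 (Or.inr ⟨f1, h7⟩) ?_)
        rw [f2]
        omega
      · exact hsv ht' (by omega) (Or.inl h12) (by rw [f2]; omega)
    · have h13 : ¬ Hull P c (s + vec u) := by
        rintro ⟨i', j', X', Y', ht2, -, -⟩
        have g1 := ht2.e2
        have g2 := ht2.hj
        have g3 := ht2.Y2
        rw [f2] at g1
        omega
      refine BlW.step (land_none P hc hD hW h13) (hland _ h13 (Or.inr ⟨f1, h7⟩) ?_)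
      rw [f2]
      omega
  -- steps inside of the tile
  have hin : ∀ Y' : ℕ, 8 ≤ Y' → Y' < 72 → (Y' : ℤ) = Y + (vec u).2 →
      ∃ X', Tl P i j X' Y' (s + vec u) := by
    intro Y' g1 g2 g3
    rcases hv1 with g | g
    · exact ⟨X + 1, ht.hi, ht.hj, by omega, by omega, g1, g2, by rw [f1, g]; push_cast; omega,
        by rw [f2]; omega⟩
    · exact ⟨X - 1, ht.hi, ht.hj, by omega, by omega, g1, g2, by rw [f1, g]; omega,
        by rw [f2]; omega⟩
  rcases stack P hi0 hk hjj ht.hj with g | ⟨g, g'⟩ | ⟨g, g'⟩ | ⟨g, g'⟩ | ⟨g, g', g''⟩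
  · -- the land
    refine hland s ?_ (Or.inl rfl) ?_
    · rintro ⟨i', j', X', Y', ht2, hk2, -⟩
      obtain ⟨rfl, rfl, -, -⟩ := ht.uniq ht2
      exact hk2 g
    · have : j ≠ jt := by rintro rfl; omega
      omega
  · -- the shaft
    by_cases ha : Y = 71 ∧ (vec u).2 = 1
    · exact habove ha.1 ha.2 (Or.inl g)
    by_cases hb : Y = 8 ∧ (vec u).2 = -1
    · -- the tile below
      obtain ⟨hb1, hb2⟩ := hb
      have hj1 : jt < j := by omega
      obtain ⟨j', rfl⟩ : ∃ j', j = j' + 1 := ⟨j - 1, by omega⟩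
      have ht' : ∃ X', Tl P i j' X' 71 (s + vec u) ∧
          (xoK xo (kd P i jt) = xo - 8 → X' = xo - 1 ∨ X' = xo + 1) := by
        rcases hv1 with g | g
        · refine ⟨X + 1, ⟨ht.hi, by have := ht.hj; omega, by omega, by omega, by decide, by decide,
            by rw [f1, g]; push_cast; omega, by rw [f2]; push_cast at he2; omega⟩, by omega⟩
        · refine ⟨X - 1, ⟨ht.hi, by have := ht.hj; omega, by omega, by omega, by decide, by decide,
            by rw [f1, g]; omega, by rw [f2]; push_cast at he2; omega⟩, by omega⟩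
      obtain ⟨X', ht', hX'⟩ := ht'
      have hx : xoK xo (kd P i jt) = xo - 8 := by unfold xoK; rw [if_neg g']
      have hhi : 64 * (jt : ℤ) + 5 ≤ (s + vec u).2 := by
        rw [f2]
        push_cast at he2
        omega
      rcases stack P hi0 hk (show jt ≤ j' by omega) ht'.hj with k | ⟨k, k'⟩ | ⟨k, k'⟩ | ⟨k, k'⟩ |
        ⟨k, k', -⟩
      · have h10 := vadj P ht.hi ht.hj
        rw [k] at h10
        have h11 := (abk_tab (kd_lt P ht.hi ht.hj)).2.2.2.2.2.2 h10
        omega
      · exact hsv ht' (by omega) (Or.inl k) hhi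
      · exact hsv ht' (by omega) (Or.inr k) hhi
      · have h10 := vadj P ht.hi ht.hj
        rw [k] at h10
        have h11 := (abk_tab (kd_lt P ht.hi ht.hj)).2.2.1 h10
        omega
      · refine hnb ht' (by omega) ?_ hhi
        rw [k]
        rcases hX' hx with e | e
        · rw [e]; exact hS.tw.1
        · rw [e]; exact hS.tw.2
    · have : ∃ Y' : ℕ, 8 ≤ Y' ∧ Y' < 72 ∧ (Y' : ℤ) = Y + (vec u).2 := by
        rcases hv2 with e | e | e
        · exact ⟨Y, by omega, by omega, by omega⟩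
        · exact ⟨Y + 1, by omega, by omega, by omega⟩
        · exact ⟨Y - 1, by omega, by omega, by omega⟩
      obtain ⟨Y', k1, k2, k3⟩ := this
      obtain ⟨X', ht'⟩ := hin Y' k1 k2 k3
      refine hsv ht' hjj (Or.inl g) ?_
      rw [f2]
      omega
  · -- the shaft above `WN2`
    subst g'
    by_cases ha : Y = 71 ∧ (vec u).2 = 1
    · exact habove ha.1 ha.2 (Or.inr (Or.inl g))
    · have : ∃ Y' : ℕ, 8 ≤ Y' ∧ Y' < 72 ∧ (Y' : ℤ) = Y + (vec u).2 := by
        rcases hv2 with e | e | e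
        · exact ⟨Y, by omega, by omega, by omega⟩
        · exact ⟨Y + 1, by omega, by omega, by omega⟩
        · exact ⟨Y - 1, by omega, by omega, by omega⟩
      obtain ⟨Y', k1, k2, k3⟩ := this
      obtain ⟨X', ht'⟩ := hin Y' k1 k2 k3
      refine hsv ht' hjj (Or.inr g) ?_
      rw [f2]
      omega
  · -- the lower tile of the touch
    subst g'
    have hx : xoK xo (kd P i j) = xo - 8 := by unfold xoK; rw [if_neg (by omega)]
    have hj1 : j + 1 < ny P.n := by
      have hb : kingK (kd P i j) = true := by rw [g]; decide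
      exact (king_pos P ht.hi ht.hj hb).2.2.2.1
    have hk1 : kd P i (j + 1) = 28 - 1 := by
      have h10 := vadj P ht.hi hj1
      rw [g] at h10
      exact (abk_tab (kd_lt P ht.hi hj1)).2.2.1 h10
    have hsc := hS.tsc Y (by omega) (by omega) u hm
    rcases hsc with ⟨hsc, -⟩ | hsc
    · omega
    · have h6 := scg_blw (W := WD u 62) (O := World.org i j) (B := resB P D μ x) (Q := Q) (fun q hq hne => by
          have h7 := (inA_lt hq).1
          have e : codeA tou (q % 80) (q / 80) = cell tou q := by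
            rw [WA_codeA, show q % 80 + 80 * (q / 80) = q by omega]
          rw [← e] at hne ⊢
          exact comp_resA P hD ht.hi hj1 g hk1 hS.comp (by omega) (by omega) hne)
        (fun q _ hq => hup (by rw [sqA_snd, org_snd]; omega))
        (fun k hk h => tmk_spec u hu 62 (by decide) k hk h)
        (fun q hq h => absurd (inA_lt hq).1 (by omega)) hu 90 _ hsc
      rw [show s = sqA (World.org i j) (xo + 80 * Y) by
        rw [ht.eqA, show X = xo by omega]]
      exact h6
  · -- the upper tile of the touch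
    subst g'
    have hx : xoK xo (kd P i jt) = xo - 8 := by unfold xoK; rw [if_neg (by omega)]
    have hj1 : jt + 1 < ny P.n := ht.hj
    have hk1 : kd P i (jt + 1) = 28 - 1 := g
    have hsc := hS.tsc (Y + 64) (by omega) (by omega) u hm
    rcases hsc with ⟨hsc, h6⟩ | hsc
    · refine habove (by omega) ?_ (Or.inr (Or.inr g))
      rcases h6 with rfl | rfl <;> decide
    · have h6 := scg_blw (W := WD u 62) (O := World.org i jt) (B := resB P D μ x) (Q := Q) (fun q hq hne => by
          have h7 := (inA_lt hq).1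
          have e : codeA tou (q % 80) (q / 80) = cell tou q := by
            rw [WA_codeA, show q % 80 + 80 * (q / 80) = q by omega]
          rw [← e] at hne ⊢
          exact comp_resA P hD ht.hi hj1 g'' hk1 hS.comp (by omega) (by omega) hne)
        (fun q _ hq => hup (by rw [sqA_snd, org_snd]; omega))
        (fun k hk h => tmk_spec u hu 62 (by decide) k hk h)
        (fun q hq h => absurd (inA_lt hq).1 (by omega)) hu 90 _ hsc
      rw [show s = sqA (World.org i jt) (xo + 80 * (Y + 64)) by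
        refine Prod.ext ?_ ?_
        · rw [sqA_fst, org_fst]
          omega
        · rw [sqA_snd, org_snd]
          push_cast at he2
          omega]
      exact h6

end

end Pool.Agent.Lib.H32C.Ly
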