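import Pool.Agent.Lib.H32C.FwE
import Pool.Agent.Lib.H32C.WldJ

/-!
# Windows in the world of a program: vertical shafts
-/

set_option autoImplicit false

namespace Pool.Agent.Lib.H32C.Ly

open Loc

theorem noWK {H A : ℕ} {O : Sq} {B : Board} (h : FitsH H A O B) (s : Sq) :
    B s ≠ some (true, Kind.king) := (h.noK s).1

/-- lines from the side are blocked -/
theorem blp_betw {B : Board} {Q : Set Sq} {c : Sq} {p : ℕ → Prop} {t : ℕ} (ht : t ∈ orT)
    (h : ∀ u ∈ orT ++ diT, p u → BlW B Q (WD u t) u c) {a : Sq} {m : Man} (ha : B a = some m)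
    (hm : m.1 = false → m.2 = Kind.queen ∨ m.2 = Kind.rook)
    (h1 : ∀ u ∈ orT ++ diT, ∀ l : ℕ, a = c + l • vec u → p u)
    (hl : (OrthI a c ∧ (m.2 = Kind.queen ∨ m.2 = Kind.rook)) ∨
      (DiagI a c ∧ (m.2 = Kind.queen ∨ m.2 = Kind.bishop))) :
    ∃ d, BetwI a c d ∧ d ∉ Q ∧ B d ≠ none := by
  obtain ⟨u, hu, l, hl0, hal, h2, h3⟩ := fwe_line (a := a) (c := c)
    (hl.imp (fun h => h.1) (fun h => h.1))
  have hs : SlK m.2 u := by
    rcases List.mem_append.1 hu with h4 | h4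
    · rcases hl with ⟨-, h5 | h5⟩ | ⟨h6, h5⟩
      · exact Or.inl h5
      · exact Or.inr (Or.inl ⟨h4, h5⟩)
      · exfalso
        have h7 := h2 h4
        unfold OrthI at h7
        unfold DiagI at h6
        omega
    · rcases hl with ⟨h6, h5⟩ | ⟨-, h5 | h5⟩
      · exfalso
        have h7 := h3 h4
        unfold OrthI at h6
        unfold DiagI at h7
        omega
      · exact Or.inl h5
      · exact Or.inr (Or.inr ⟨h4, h5⟩)
  obtain ⟨i, g1, g2, g3, g4⟩ := h u hu (h1 u hu l hal) l m hl0 (by rw [← hal]; exact ha)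
    ⟨hs, fun h => (hm h).elim Or.inl fun h => Or.inr (Or.inl ⟨ht, h⟩)⟩
  exact ⟨_, fwe_betw hu hal g1 g2 rfl, g3, g4⟩

/-- no White rook or queen comes to the square `s` from below -/
def NoBel (B : Board) (s : Sq) : Prop :=
  ∀ (l : ℕ) (κ : Kind), 0 < l → B (s + l • vec 22) = some (true, κ) →
    (κ = Kind.rook ∨ κ = Kind.queen) → ∃ i : ℕ, 0 < i ∧ i < l ∧ B (s + i • vec 22) ≠ none

theorem noBel_of {H A z : ℕ} {O : Sq} {B : Board} (hfit : FitsH H A O B)
    (h : scw H A 22 90 z = true) : NoBel B (sqA O z) := by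
  intro l κ hl ha hκ
  exact scw_spec (O := O) (B := B) (fun j hj h15 => cell_sqA hfit (inA_lt hj).1 h15) (by decide)
    90 z h l κ hl ha hκ

variable (P : Prog)

section

variable {c : Offs} (hc : c.Ok2) {D : TD} (hD : D.Ok2) (hW : WallOk c D) {tou xo : ℕ}
  (hS : ShaftV D tou xo) {μ : Option ℕ} {x : Option (ℕ × ℕ)}

include hc hD hW hS in
/-- the column above a window is free -/
theorem col_clear {i0 jt : ℕ} (h2 : i0 < 66 + 2 * P.n) (h4 : jt < ny P.n)
    (hk : kd P i0 jt = 28 ∨ kd P i0 jt = 29 ∨ kd P i0 jt = 41) {s : Sq}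
    (hs1 : s.1 = 64 * (i0 : ℤ) + xoK xo (kd P i0 jt)) (hs2 : 64 * (jt : ℤ) ≤ s.2) :
    resB P D μ x s = none := by
  have hnx : nx P.n = 90 + 5 * P.n := rfl
  have hny : ny P.n = 45 + 3 * P.n := rfl
  have hi0 : i0 < nx P.n := by omega
  have hx0 := hS.hx
  have hxo : xoK xo (kd P i0 jt) = xo - 9 ∨ xoK xo (kd P i0 jt) = xo - 8 := by
    unfold xoK; split_ifs <;> simp
  rcases lt_or_ge s.2 (64 * (ny P.n : ℤ)) with h5 | h5
  swap
  · refine land_none P hc hD hW ?_
    rintro ⟨i, j, X, Y, ht, -, -⟩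
    have g1 := ht.e2
    have g2 := ht.hj
    have g3 := ht.Y2
    omega
  obtain ⟨i, j, X, Y, ht⟩ := tl_of P (s := s) (by omega) (by omega) (by omega) (by omega)
  have hii : i = i0 := by have := ht.e1; have := ht.X1; have := ht.X2; omega
  subst hii
  have hjj : jt ≤ j := by have := ht.e2; have := ht.Y1; have := ht.Y2; omega
  have hX : X = xoK xo (kd P i jt) + 8 := by have := ht.e1; omega
  have hgo : codeA (D.ar (kd P i j)) X Y = 0 → resB P D μ x s = none := by
    intro h0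
    rw [ht.eq, fit_resB P hD ht.hi ht.hj (by have := ht.X2; omega) (by have := ht.Y2; omega), h0]
    · rfl
    · rw [h0]; decide
  have hy1 := ht.Y1
  have hy2 := ht.Y2
  have hkk : (kd P i j = 1) ∨ ((kd P i j = 27 ∨ kd P i j = 28 ∨ kd P i j = 29) ∧ X = xo) ∨
      (kd P i j = 41 ∧ X = xo - 1) := by
    unfold xoK at hX
    rcases stack P hi0 hk hjj ht.hj with g | ⟨g, g'⟩ | ⟨g, g'⟩ | ⟨g, g'⟩ | ⟨g, g', g''⟩
    · exact Or.inl g
    · rw [if_neg g'] at hX
      exact Or.inr (Or.inl ⟨by omega, by omega⟩)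
    · subst g'
      rw [if_pos g] at hX
      exact Or.inr (Or.inr ⟨by omega, by omega⟩)
    · subst g'
      rw [if_neg (by omega)] at hX
      exact Or.inr (Or.inl ⟨by omega, by omega⟩)
    · rw [if_neg (by omega)] at hX
      exact Or.inr (Or.inl ⟨by omega, by omega⟩)
  rcases hkk with g | ⟨g, rfl⟩ | ⟨g, rfl⟩
  · refine land_none P hc hD hW ?_
    rintro ⟨i', j', X', Y', ht2, hk2, -⟩
    obtain ⟨rfl, rfl, -, -⟩ := ht.uniq ht2
    exact hk2 g
  · exact hgo (hS.cl _ g Y ht.Y1 ht.Y2)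
  · apply hgo
    rw [g]
    exact (hS.s2 Y ht.Y1 ht.Y2).1

include hc hD hW hS in
/-- no White knight near the shafts -/
theorem col_kn {i0 jt : ℕ} (h2 : i0 < 66 + 2 * P.n) (h4 : jt < ny P.n)
    (hk : kd P i0 jt = 28 ∨ kd P i0 jt = 29 ∨ kd P i0 jt = 41) {a s : Sq}
    (hs1 : s.1 = 64 * (i0 : ℤ) + xoK xo (kd P i0 jt)) (h5 : s.1 - 2 ≤ a.1) (h6 : a.1 ≤ s.1 + 2)
    (h7 : 64 * (jt : ℤ) ≤ a.2) : resB P D μ x a ≠ some (true, Kind.knight) := by
  have hnx : nx P.n = 90 + 5 * P.n := rfl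
  have hny : ny P.n = 45 + 3 * P.n := rfl
  have hi0 : i0 < nx P.n := by omega
  have hx0 := hS.hx
  have hxo : xoK xo (kd P i0 jt) = xo - 9 ∨ xoK xo (kd P i0 jt) = xo - 8 := by
    unfold xoK; split_ifs <;> simp
  rcases lt_or_ge a.2 (64 * (ny P.n : ℤ)) with h8 | h8
  swap
  · rw [land_none P hc hD hW]
    · simp
    · rintro ⟨i, j, X, Y, ht, -, -⟩
      have g1 := ht.e2
      have g2 := ht.hj
      have g3 := ht.Y2
      omega
  obtain ⟨i, j, X, Y, ht⟩ := tl_of P (s := a) (by omega) (by omega) (by omega) (by omega)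
  have hii : i = i0 := by have := ht.e1; have := ht.X1; have := ht.X2; omega
  subst hii
  have hjj : jt ≤ j := by have := ht.e2; have := ht.Y1; have := ht.Y2; omega
  have hX1 : xoK xo (kd P i jt) + 6 ≤ X := by have := ht.e1; omega
  have hX2 : X ≤ xoK xo (kd P i jt) + 10 := by have := ht.e1; omega
  have hdec : ∀ k, k < 16 → k ≠ 2 → dec k ≠ some (true, Kind.knight) := by decide
  have hy1 := ht.Y1
  have hy2 := ht.Y2
  have hgo : codeA (D.ar (kd P i j)) X Y ≠ 2 → codeA (D.ar (kd P i j)) X Y ≠ 15 →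
      resB P D μ x a ≠ some (true, Kind.knight) := by
    intro h0 h15
    rw [ht.eq, fit_resB P hD ht.hi ht.hj (by have := ht.X2; omega) (by have := ht.Y2; omega) h15]
    exact hdec _ (WA_codeA_lt _ _ _) h0
  have h15 : codeA (D.ar (kd P i j)) X Y = 15 → resB P D μ x a ≠ some (true, Kind.knight) := by
    intro h0
    have h1 := ht.code (D := D)
    rw [h0] at h1
    intro h2
    unfold resB at h2
    split_ifs at h2 with h3 h4
    · cases h2
    · cases h2
    · unfold World.board at h2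
      rw [h1] at h2
      cases h2
  have hkk : (kd P i j = 1) ∨ ((kd P i j = 27 ∨ kd P i j = 28 ∨ kd P i j = 29) ∧
      xoK xo (kd P i jt) = xo - 8) ∨ (kd P i j = 41 ∧ xoK xo (kd P i jt) = xo - 9) := by
    unfold xoK
    rcases stack P hi0 hk hjj ht.hj with g | ⟨g, g'⟩ | ⟨g, g'⟩ | ⟨g, g'⟩ | ⟨g, g', g''⟩
    · exact Or.inl g
    · rw [if_neg g']
      exact Or.inr (Or.inl ⟨by omega, rfl⟩)
    · subst g'
      rw [if_pos g]
      exact Or.inr (Or.inr ⟨by omega, rfl⟩)
    · subst g'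
      rw [if_neg (by omega)]
      exact Or.inr (Or.inl ⟨by omega, rfl⟩)
    · rw [if_neg (by omega)]
      exact Or.inr (Or.inl ⟨by omega, rfl⟩)
  rcases hkk with g | ⟨g, g'⟩ | ⟨g, g'⟩
  · rw [land_none P hc hD hW]
    · simp
    · rintro ⟨i', j', X', Y', ht2, hk2, -⟩
      obtain ⟨rfl, rfl, -, -⟩ := ht.uniq ht2
      exact hk2 g
  · by_cases h0 : codeA (D.ar (kd P i j)) X Y = 15
    · exact h15 h0
    · exact hgo (hS.kn _ g X Y (by omega) (by omega) ht.Y1 ht.Y2) h0
  · by_cases h0 : codeA (D.ar (kd P i j)) X Y = 15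
    · exact h15 h0
    · refine hgo ?_ h0
      rw [g]
      exact hS.s2k X Y (by omega) (by omega) ht.Y1 ht.Y2

theorem kn_abs {d : Sq} (h : d ∈ knightJumps) : -2 ≤ d.1 ∧ d.1 ≤ 2 ∧ -2 ≤ d.2 ∧ d.2 ≤ 2 := by
  revert h
  revert d
  decide

include hc hD hW hS in
/-- White pieces do not come to the line -/
theorem col_white {i0 j0 jt H A z : ℕ} (h1 : 1 ≤ i0)
    (h2 : i0 ≤ 49 + P.n) (h3 : 26 + 3 * P.n ≤ j0) (h3' : j0 < jt) (h4 : jt < ny P.n)
    (hH : H = 64 * (jt - j0) + 16)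
    (hk : kd P i0 jt = 28 ∨ kd P i0 jt = 29 ∨ kd P i0 jt = 41)
    (hfit : FitsH H A (World.org i0 j0) (resB P D μ x))
    (hz : z % 80 = xoK xo (kd P i0 jt) + 8) (hV : WinV H A z)
    (hbel : NoBel (resB P D μ x) (sqA (World.org i0 j0) z)) {s : Sq}
    (hs1 : s.1 = (sqA (World.org i0 j0) z).1) (hs2 : 64 * (jt : ℤ) + 6 ≤ s.2)
    (hclr : ∀ s' : Sq, s'.1 = s.1 → (sqA (World.org i0 j0) z).2 ≤ s'.2 → resB P D μ x s' = none)
    {a : Sq} {κ : Kind} (ha : resB P D μ x a = some (true, κ)) :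
    WStop (geo c P.n) (resB P D μ x) ∅ κ a s := by
  have hn := P.pos
  have hx0 := hS.hx
  have hxo : xoK xo (kd P i0 jt) = xo - 9 ∨ xoK xo (kd P i0 jt) = xo - 8 := by
    unfold xoK; split_ifs <;> simp
  have he1 : s.1 = 64 * (i0 : ℤ) + xoK xo (kd P i0 jt) := by
    rw [hs1, sqA_fst, org_fst, hz]
    push_cast
    ring
  obtain ⟨z1, z2⟩ := hV.z1
  have hside : ∀ u ∈ orT ++ diT, (vec u).1 ≠ 0 → BlW (resB P D μ x) ∅ (WD u 62) u s := by
    intro u hu hv
    exact col_bl P hc hD hW hS h1 (by omega) (by omega) h4 hk he1 hs2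
      (fun q hq => absurd hq (Set.notMem_empty q)) hu hv
  have hb : ∀ (h5 : a.1 ≠ s.1) (h6 : (OrthI a s ∧ (κ = Kind.queen ∨ κ = Kind.rook)) ∨
      (DiagI a s ∧ (κ = Kind.queen ∨ κ = Kind.bishop))), ∃ d, BetwI a s d ∧ d ∉ (∅ : Set Sq) ∧
        resB P D μ x d ≠ none := by
    intro h5 h6
    refine blp_betw (p := fun u => (vec u).1 ≠ 0) (by decide) hside ha (fun h => by cases h) ?_ h6
    intro u _ l hal h0
    apply h5
    rw [hal, add_nsmul_fst, h0, mul_zero, add_zero]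
  have hver : ∀ (h5 : a.1 = s.1) (h6 : κ = Kind.rook ∨ κ = Kind.queen), ∃ d, BetwI a s d ∧
      d ∉ (∅ : Set Sq) ∧ resB P D μ x d ≠ none := by
    intro h5 h6
    have h7 : a.2 < (sqA (World.org i0 j0) z).2 := by
      by_contra h7
      rw [hclr a h5 (by omega)] at ha
      cases ha
    obtain ⟨l, hl⟩ : ∃ l : ℕ, a.2 = (sqA (World.org i0 j0) z).2 - l :=
      ⟨((sqA (World.org i0 j0) z).2 - a.2).toNat, by omega⟩
    have hv : vec 22 = (0, -1) := by decide
    have hst : ∀ i : ℕ, sqA (World.org i0 j0) z + i • vec 22 =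
        (s.1, (sqA (World.org i0 j0) z).2 - i) := by
      intro i
      rw [hv]
      refine Prod.ext ?_ ?_
      · rw [add_nsmul_fst, hs1]
        simp
      · rw [add_nsmul_snd]
        simp only
        ring
    obtain ⟨i, g1, g2, g3⟩ := hbel l κ (by omega)
      (by rw [hst l, ← ha]; congr 1; exact Prod.ext h5.symm hl.symm) h6
    refine ⟨_, ?_, Set.notMem_empty _, g3⟩
    rw [hst i]
    have hzz : (sqA (World.org i0 j0) z).2 = 64 * (j0 : ℤ) - 8 + ((z / 80 : ℕ) : ℤ) := by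
      rw [sqA_snd, org_snd]
    unfold BetwI OrthI
    dsimp only
    omega
  cases κ with
  | king => exact noWK hfit a ha
  | queen =>
    intro h5
    by_cases h6 : a.1 = s.1
    · exact hver h6 (Or.inr rfl)
    · exact hb h6 (h5.imp (fun h => ⟨h, Or.inl rfl⟩) (fun h => ⟨h, Or.inl rfl⟩))
  | rook =>
    intro h5
    by_cases h6 : a.1 = s.1
    · exact hver h6 (Or.inl rfl)
    · exact hb h6 (Or.inl ⟨h5, Or.inr rfl⟩)
  | bishop =>
    intro h5
    exact hb h5.2 (Or.inr ⟨h5, Or.inr rfl⟩)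
  | knight =>
    intro h5
    obtain ⟨k1, k2, k3, k4⟩ := kn_abs h5
    have e1 : (s - a).1 = s.1 - a.1 := rfl
    have e2 : (s - a).2 = s.2 - a.2 := rfl
    exact col_kn P hc hD hW hS (a := a) (by omega) h4 hk he1 (by omega) (by omega) (by omega) ha
  | pawn =>
    have hns : ∀ d : Sq, s - a = d → a.1 = s.1 - d.1 ∧ a.2 = s.2 - d.2 := by
      rintro d rfl
      have e1 : (s - a).1 = s.1 - a.1 := rfl
      have e2 : (s - a).2 = s.2 - a.2 := rfl
      omega
    have hz2 : (sqA (World.org i0 j0) z).2 < 64 * (jt : ℤ) := by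
      rw [sqA_snd, org_snd]
      omega
    refine ⟨?_, ?_⟩
    · intro h5
      obtain ⟨k1, k2⟩ := hns _ h5
      rw [hclr a (by simpa using k1) (by simp only at k2; omega)] at ha
      cases ha
    · intro h5
      have key : ∀ d : Sq, (d.1 = 1 ∨ d.1 = -1) → d.2 = 1 → s - a ≠ d := by
        intro d hd1 hd2 hd
        obtain ⟨k1, k2⟩ := hns _ hd
        rw [hd2] at k2
        have hna : resB P D μ x a ≠ none := by rw [ha]; simp
        have hhull := hull_of P hc hD hW hna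
        have hG := geo_ok hc.toOk P.n
        have hny : ny P.n = 45 + 3 * P.n := rfl
        have hT : a.2 ≤ (geo c P.n).T := by
          by_contra h6
          exact hna ((farWorld P hc hD hW).top a (by omega))
        obtain ⟨s1, s2⟩ := hull_sum P hc hhull (Or.inl (by omega)) (by omega)
        rcases h5 with (⟨h6, h7⟩ | ⟨h6, h7⟩ | h6) | h6
        · omega
        · omega
        · omega
        · have h7 := floater_above hG h6
          omega
      exact ⟨key (1, 1) (Or.inl rfl) rfl, key (-1, 1) (Or.inr rfl) rfl⟩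

include hc hD hW hS in
/-- **Windows with vertical shafts.** -/
theorem winT_col {R : Room} (hR : RoomOk D R) {s : Svc} {i0 j0 jt H A z : ℕ} (h1 : 1 ≤ i0)
    (h2 : i0 ≤ 49 + P.n) (h3 : 26 + 3 * P.n ≤ j0) (h3' : j0 < jt) (h4 : jt < ny P.n)
    (hH : H = 64 * (jt - j0) + 16)
    (hk : kd P i0 jt = 28 ∨ kd P i0 jt = 29 ∨ kd P i0 jt = 41)
    (hfit : FitsH H A (World.org i0 j0) (resB P D μ x))
    (hz : z % 80 = xoK xo (kd P i0 jt) + 8) (hV : WinV H A z)
    (hbel : NoBel (resB P D μ x) (sqA (World.org i0 j0) z))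
    (hline : ∀ p, (geo c P.n).line s p ↔ p.1 = (sqA (World.org i0 j0) z).1 ∧
      (sqA (World.org i0 j0) z).2 < p.2)
    (haxis : ∀ p, (geo c P.n).axis s p ↔ p.1 = (sqA (World.org i0 j0) z).1) :
    WinT (geo c P.n) (resB P D μ x) s R ⟨H, A, 62, z⟩ (World.org i0 j0) := by
  have hn := P.pos
  have hny : ny P.n = 45 + 3 * P.n := rfl
  have hnx : nx P.n = 90 + 5 * P.n := rfl
  have hx0 := hS.hx
  have hxo : xoK xo (kd P i0 jt) = xo - 9 ∨ xoK xo (kd P i0 jt) = xo - 8 := by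
    unfold xoK; split_ifs <;> simp
  have he1 : (sqA (World.org i0 j0) z).1 = 64 * (i0 : ℤ) + xoK xo (kd P i0 jt) := by
    rw [sqA_fst, org_fst, hz]
    push_cast
    ring
  have he2 : (sqA (World.org i0 j0) z).2 = 64 * (j0 : ℤ) - 8 + ((z / 80 : ℕ) : ℤ) := by
    rw [sqA_snd, org_snd]
  obtain ⟨z1, z2⟩ := hV.z1
  have hv : vec 62 = (0, 1) := by decide
  have hG := geo_ok hc.toOk P.n
  obtain ⟨o1, o2, o3, o4, o5, o6, o7, o8, o9, o10⟩ := hc.toOk
  have hclr : ∀ p : Sq, p.1 = (sqA (World.org i0 j0) z).1 → (sqA (World.org i0 j0) z).2 ≤ p.2 →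
      resB P D μ x p = none := by
    intro p g1 g2
    rcases lt_or_ge p.2 (64 * (jt : ℤ)) with g3 | g3
    · obtain ⟨Y, hY⟩ : ∃ Y : ℕ, p.2 = 64 * (j0 : ℤ) - 8 + Y :=
        ⟨(p.2 - (64 * (j0 : ℤ) - 8)).toNat, by omega⟩
      have h0 := hV.clr Y (by omega) (by omega)
      have h5 := hfit.cells (z % 80) Y (by omega) (by omega) (by rw [h0]; decide)
      rw [h0] at h5
      rw [show p = tsq (World.org i0 j0) (z % 80) Y from Prod.ext g1 hY, h5]
      rfl
    · exact col_clear P hc hD hW hS (by omega) h4 hk (by rw [g1, he1]) g3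
  have hcore : ∀ p : Sq, (geo c P.n).line s p → p ∉ CoreH 2 H (World.org i0 j0) →
      64 * (jt : ℤ) + 6 ≤ p.2 := by
    intro p g1 g2
    obtain ⟨g3, g4⟩ := (hline p).1 g1
    by_contra g5
    apply g2
    unfold CoreH
    rw [Set.mem_ofPred_eq, org_fst, org_snd]
    omega
  have hZ : ∀ p ∈ R.Z, p.2 ≤ (geo c P.n).T ∧ ¬ (geo c P.n).Zone p ∧ p ≠ (geo c P.n).hb ∧
      ¬ (geo c P.n).line s p := by
    intro p hp
    obtain ⟨g1, g2, g3, g4⟩ := hR.Z p hp
    refine ⟨by simp only [geo]; omega, ?_, ?_, ?_⟩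
    · rintro (⟨k1, -⟩ | ⟨k1, -⟩ | ⟨q, k1, k2, k3⟩)
      · simp only [geo] at k1
        omega
      · simp only [geo] at k1
        omega
      · have := hG.hT q
        simp only [geo] at this k1 k2 k3
        omega
    · rintro rfl
      simp only [geo, FGeo.hb] at g2
      omega
    · intro k1
      have := ((hline p).1 k1).2
      omega
  refine ⟨hG, farWorld P hc hD hW, (show 62 ∈ orT by decide), hfit, ?_, ?_, ?_, ?_, ?_, ?_, hZ,
    reg_king hR h1 (by omega), ?_⟩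
  · -- line
    intro p
    rw [hline]
    change _ ↔ ∃ n : ℕ, 0 < n ∧ p = sqA (World.org i0 j0) z + n • vec 62
    rw [hv]
    constructor
    · rintro ⟨g1, g2⟩
      refine ⟨(p.2 - (sqA (World.org i0 j0) z).2).toNat, by omega, Prod.ext ?_ ?_⟩
      · rw [add_nsmul_fst, g1]
        simp
      · rw [add_nsmul_snd]
        simp only
        omega
    · rintro ⟨n, g1, rfl⟩
      rw [add_nsmul_fst, add_nsmul_snd]
      simp only
      omega
  · -- axis
    intro p
    rw [haxis]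
    change _ ↔ ∃ j : ℤ, p = sqA (World.org i0 j0) z + j • vec 62
    rw [hv]
    constructor
    · intro g1
      refine ⟨p.2 - (sqA (World.org i0 j0) z).2, Prod.ext ?_ ?_⟩
      · rw [g1]
        simp
      · simp
    · rintro ⟨j, rfl⟩
      simp
  · -- clear
    intro p g1
    obtain ⟨g3, g4⟩ := (hline p).1 g1
    exact hclr p g3 (by omega)
  · -- hull
    intro p hp
    unfold TileRegH at hp
    rw [Set.mem_ofPred_eq, org_fst, org_snd] at hp
    dsimp only at hp
    obtain ⟨p1, p2, p3, p4⟩ := hp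
    have hT : p.2 ≤ (geo c P.n).T := by
      simp only [geo]
      omega
    refine ⟨hT, ?_, ?_⟩
    · rintro (⟨-, k1⟩ | ⟨-, k1⟩ | ⟨q, k1, k2, k3⟩)
      · simp only [geo] at k1
        omega
      · simp only [geo, FGeo.c1, colq] at k1
        omega
      · have := hG.hT q
        simp only [geo] at this k1 k2 k3 hT
        omega
    · rintro rfl
      simp only [geo, FGeo.hb] at p2
      omega
  · -- closed
    intro p g1 g2 a κ ha hκ hax hl
    have g3 := hcore p g1 g2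
    have g4 := ((hline p).1 g1).1
    have g5 : a.1 ≠ p.1 := by
      intro h5
      exact hax ((haxis a).2 (by rw [h5, g4]))
    refine blp_betw (m := (false, κ)) (p := fun u => (vec u).1 ≠ 0) (t := 62)
      (Q := CoreH 3 H (World.org i0 j0)) (by decide) ?_ ha (fun _ => hκ) ?_ ?_
    · intro u hu hv'
      refine col_bl P hc hD hW hS h1 (by omega) (by omega) h4 hk (by rw [g4, he1]) g3 ?_ hu hv'
      intro q hq
      unfold CoreH at hq
      rw [Set.mem_ofPred_eq, org_fst, org_snd] at hq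
      rw [g4, he1]
      omega
    · intro u _ l hal h0
      apply g5
      rw [hal, add_nsmul_fst, h0, mul_zero, add_zero]
    · rcases hl with hl | ⟨hl, hl'⟩
      · exact Or.inl ⟨hl, hκ⟩
      · exact Or.inr ⟨hl', Or.inl hl⟩
  · -- white
    intro p g1 g2 a κ ha
    have g4 := ((hline p).1 g1).1
    exact col_white P hc hD hW hS h1 h2 h3 h3' h4 hH hk hfit hz hV hbel g4 (hcore p g1 g2)
      (fun q g5 g6 => hclr q (by rw [g5, g4]) g6) ha
  · -- the room
    refine hR.G _ fun X Y hX hX2 hY hY2 => ?_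
    have h39 := kd00 P
    have h5 := fit_resB P hD (μ := μ) (x := x) (i := 0) (j := 0) (by omega) (by omega) (X := X) (Y := Y)
      (by omega) (by omega) (by rw [h39]; exact hR.cells X Y hX hX2 hY hY2)
    rw [h39] at h5
    exact h5

end

end Pool.Agent.Lib.H32C.Ly
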