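import Pool.Agent.Lib.H32C.WldK

/-!
# Windows in the world of a program: the services with vertical shafts
-/

set_option autoImplicit false

namespace Pool.Agent.Lib.H32C.Ly

open Loc

variable (P : Prog)

/-- tiles of the upper part -/
theorem kd_w {a b : ℕ} (ha : 6 ≤ a) (ha2 : a < 51) (hb : 26 ≤ b) (hb2 : b < 45) :
    kd P (a + P.n) (b + 3 * P.n) = kdt (b + 2) (a + 1) := by
  rw [kd_t P (by omega), cx_b (by omega) (by omega)]
  congr 1 <;> omega

/-- the place of the window or touch of a service -/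
def wa : Svc → ℕ
  | Svc.N => 19
  | Svc.N1 => 22
  | Svc.N2 => 33
  | Svc.Z Qn.C => 25
  | Svc.H Qn.C => 30
  | Svc.T Qn.C => 30
  | Svc.Z Qn.A => 36
  | Svc.H Qn.A => 41
  | Svc.T Qn.A => 41
  | Svc.Z Qn.B => 44
  | Svc.H Qn.B => 49
  | Svc.T Qn.B => 49
  | _ => 0

/-- the row of the window or touch of a service -/
def wb : Svc → ℕ
  | Svc.N => 28
  | Svc.N1 => 29
  | Svc.N2 => 33
  | Svc.Z Qn.C => 30
  | Svc.H Qn.C => 32
  | Svc.T Qn.C => 33
  | Svc.Z Qn.A => 34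
  | Svc.H Qn.A => 36
  | Svc.T Qn.A => 37
  | Svc.Z Qn.B => 37
  | Svc.H Qn.B => 39
  | Svc.T Qn.B => 40
  | _ => 0

/-- the class of a service: windows of kind `25`, `26`, touches -/
def wk : Svc → ℕ
  | Svc.N => 25
  | Svc.N1 => 25
  | Svc.N2 => 26
  | Svc.Z _ => 25
  | Svc.H _ => 25
  | Svc.T _ => 28
  | _ => 0

theorem svc_cases {s : Svc} (h : wk s ≠ 0) : s = Svc.N ∨ s = Svc.N1 ∨ s = Svc.N2 ∨
    s = Svc.Z Qn.C ∨ s = Svc.H Qn.C ∨ s = Svc.T Qn.C ∨ s = Svc.Z Qn.A ∨ s = Svc.H Qn.A ∨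
    s = Svc.T Qn.A ∨ s = Svc.Z Qn.B ∨ s = Svc.H Qn.B ∨ s = Svc.T Qn.B := by
  cases s with
  | H q => cases q <;> simp
  | Z q => cases q <;> simp
  | T q => cases q <;> simp
  | E => exact absurd rfl h
  | W => exact absurd rfl h
  | Out => exact absurd rfl h
  | Bin => exact absurd rfl h
  | Tb => exact absurd rfl h
  | _ => simp

/-- table facts: the tile, the tile above, the first tile of the shaft -/
theorem wk_tab {s : Svc} (h : wk s ≠ 0) : 6 ≤ wa s ∧ wa s < 51 ∧ wa s ≤ 49 ∧ 26 ≤ wb s ∧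
    wb s + 2 < 45 ∧ kdt (wb s + 2) (wa s + 1) = wk s ∧
    (wk s = 25 → kdt (wb s + 3) (wa s + 1) = 28 ∨ kdt (wb s + 3) (wa s + 1) = 29) ∧
    (wk s = 26 → kdt (wb s + 3) (wa s + 1) = 41) ∧
    (wk s = 28 → kdt (wb s + 3) (wa s + 1) = 27 ∧ kdt (wb s + 4) (wa s + 1) = 29) ∧
    (wk s = 25 ∨ wk s = 26 ∨ wk s = 28) := by
  rcases svc_cases h with rfl | rfl | rfl | rfl | rfl | rfl | rfl | rfl | rfl | rfl | rfl | rfl <;>
    decide +kernel

/-- the line and the axis of a service -/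
theorem wk_geo {c : Offs} {xo zN z2 zT zE zW : ℕ} (hz : Zs c xo zN z2 zT zE zW) (hx : 20 ≤ xo)
    {s : Svc} (h : wk s ≠ 0) {z : ℕ}
    (hzz : z = if wk s = 25 then zN else if wk s = 26 then z2 else zT) (p : Sq) :
    ((geo c P.n).line s p ↔ p.1 = (sqA (World.org (wa s + P.n) (wb s + 3 * P.n)) z).1 ∧
      (sqA (World.org (wa s + P.n) (wb s + 3 * P.n)) z).2 < p.2) ∧
    ((geo c P.n).axis s p ↔ p.1 = (sqA (World.org (wa s + P.n) (wb s + 3 * P.n)) z).1) := by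
  obtain ⟨o, n1, n2, a1, a2, t1, t2, -, -, -, -⟩ := hz
  rw [sqA_fst, sqA_snd, org_fst, org_snd]
  rcases svc_cases h with rfl | rfl | rfl | rfl | rfl | rfl | rfl | rfl | rfl | rfl | rfl | rfl <;>
    simp only [wk, wa, wb, FGeo.line, FGeo.axis, geo, colq, yw] at * <;>
    norm_num at hzz <;> subst hzz <;> push_cast <;>
    (constructor <;> (try constructor) <;> omega)

/-- the tile of a service -/
def wT (D : TD) (tou zN z2 zT : ℕ) (s : Svc) : WT :=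
  if wk s = 25 then ⟨80, D.ar 25, 62, zN⟩ else if wk s = 26 then ⟨80, D.ar 26, 62, z2⟩
  else ⟨144, tou, 62, zT⟩

section

variable {c : Offs} (hc : c.Ok2) {D : TD} (hD : D.Ok3) (hW : WallOk c D) {tou xo : ℕ}
  (hS : ShaftV D tou xo) {μ : Option ℕ} {x : Option (ℕ × ℕ)}

include hD in
theorem fitsH_comp {i j k A : ℕ} (hi : i < nx P.n) (hj : j + 1 < ny P.n) (hk : kd P i j = k)
    (hk2 : kd P i (j + 1) = k - 1) (hA : Comp D k A) :
    FitsH 144 A (World.org i j) (resB P D μ x) :=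
  ⟨fun _ _ hX hY hne => comp_resA P hD.toOk2 hi hj hk hk2 hA hX hY hne, resB_noK P hD.toOk2⟩

/-- the row below the special square of the window below a touch -/
def ybT (zN : ℕ) (q : Qn) : ℤ :=
  64 * (((wb (Svc.T q) : ℕ) : ℤ) - 1 + 3 * (P.n : ℤ)) - 8 + ((zN / 80 : ℕ) : ℤ) - 1

theorem tq_tab (q : Qn) : 6 ≤ wa (Svc.T q) ∧ wa (Svc.T q) < 51 ∧ 27 ≤ wb (Svc.T q) ∧
    wb (Svc.T q) < 43 ∧ kdt (wb (Svc.T q) + 1) (wa (Svc.T q) + 1) = 25 ∧
    kdt (wb (Svc.T q) + 2) (wa (Svc.T q) + 1) = 28 ∧ wa (Svc.T q) + wb (Svc.T q) < 100 ∧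
    wb (Svc.T q) ≤ wa (Svc.T q) + 3 := by
  cases q <;> decide +kernel

/-- the tiles of a touch and of the window below -/
theorem tq_kd (q : Qn) : kd P (wa (Svc.T q) + P.n) (wb (Svc.T q) - 1 + 3 * P.n) = 25 ∧
    kd P (wa (Svc.T q) + P.n) (wb (Svc.T q) + 3 * P.n) = 28 := by
  obtain ⟨t1, t2, t3, t4, t5, t6, -, -⟩ := tq_tab q
  constructor
  · rw [kd_w P t1 t2 (by omega) (by omega), show wb (Svc.T q) - 1 + 2 = wb (Svc.T q) + 1 by omega]
    exact t5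
  · rw [kd_w P t1 t2 (by omega) (by omega)]
    exact t6

include hD hS in
/-- the file below a touch -/
theorem tq_col {zN z2 zT : ℕ} (hz1 : zN % 80 = xo) (hF : WinF D tou zN z2 zT) (q : Qn) :
    (∀ y : ℤ, ybT P zN q < y → y ≤ 64 * ((wb (Svc.T q) : ℕ) + 3 * (P.n : ℤ)) - 8 + ((zT / 80 : ℕ) : ℤ) →
      resB P D μ x (64 * ((wa (Svc.T q) : ℕ) + (P.n : ℤ)) - 8 + (xo : ℤ), y) = none) ∧
    resB P D μ x (64 * ((wa (Svc.T q) : ℕ) + (P.n : ℤ)) - 8 + (xo : ℤ), ybT P zN q) =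
      some (false, Kind.pawn) ∧
    ∃ m, resB P D μ x (64 * ((wa (Svc.T q) : ℕ) + (P.n : ℤ)) - 8 + (xo : ℤ), ybT P zN q - 1) = some m ∧
      (m.2 = Kind.pawn ∨ m.2 = Kind.knight) := by
  have hnx : nx P.n = 90 + 5 * P.n := rfl
  have hny : ny P.n = 45 + 3 * P.n := rfl
  obtain ⟨t1, t2, t3, t4, t5, t6, -, -⟩ := tq_tab q
  obtain ⟨k1, k2⟩ := tq_kd P q
  have hx := hS.hx
  obtain ⟨z1, z2'⟩ := hF.N.z1
  have hi : wa (Svc.T q) + P.n < nx P.n := by omega
  have key : ∀ j k : ℕ, kd P (wa (Svc.T q) + P.n) j = k → j < ny P.n → ∀ Y : ℕ, 8 ≤ Y → Y < 72 →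
      codeA (D.ar k) xo Y ≠ 15 → resB P D μ x (64 * ((wa (Svc.T q) : ℕ) + (P.n : ℤ)) - 8 + (xo : ℤ),
        64 * (j : ℤ) - 8 + Y) = dec (codeA (D.ar k) xo Y) := by
    intro j k hk hj Y h1 h2 h3
    have h := fit_resB P hD.toOk2 (μ := μ) (x := x) hi hj (X := xo) (Y := Y) (by omega) (by omega)
      (by rw [hk]; exact h3)
    rw [hk] at h
    rw [← h]
    refine congrArg _ (Prod.ext ?_ ?_)
    · change _ = (World.org (wa (Svc.T q) + P.n) j).1 + (xo : ℤ)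
      rw [org_fst]; push_cast; ring
    · change _ = (World.org (wa (Svc.T q) + P.n) j).2 + (Y : ℤ)
      rw [org_snd]
  refine ⟨?_, ?_, ?_⟩
  · intro y h1 h2
    unfold ybT at h1
    rcases lt_or_ge y (64 * ((wb (Svc.T q) : ℕ) + 3 * (P.n : ℤ))) with h3 | h3
    · obtain ⟨Y, hY⟩ : ∃ Y : ℕ, (Y : ℤ) = y - (64 * (((wb (Svc.T q) : ℕ) : ℤ) - 1 + 3 * (P.n : ℤ)) - 8) :=
        ⟨(y - (64 * (((wb (Svc.T q) : ℕ) : ℤ) - 1 + 3 * (P.n : ℤ)) - 8)).toNat, by omega⟩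
      have h0 := hF.N.clr Y (by omega) (by omega)
      rw [hz1] at h0
      have h4 := key _ _ k1 (by omega) Y (by omega) (by omega) (by rw [h0]; decide)
      rw [h0] at h4
      rw [show y = 64 * ((wb (Svc.T q) - 1 + 3 * P.n : ℕ) : ℤ) - 8 + Y by
        push_cast [show 1 ≤ wb (Svc.T q) by omega]; omega, h4]
      rfl
    · obtain ⟨Y, hY⟩ : ∃ Y : ℕ, (Y : ℤ) = y - (64 * (((wb (Svc.T q) : ℕ) : ℤ) + 3 * (P.n : ℤ)) - 8) :=
        ⟨(y - (64 * (((wb (Svc.T q) : ℕ) : ℤ) + 3 * (P.n : ℤ)) - 8)).toNat, by omega⟩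
      have hzT := hF.zT1
      have h0 := hS.cl 28 (Or.inr (Or.inl rfl)) Y (by omega) (by omega)
      have h4 := key _ _ k2 (by omega) Y (by omega) (by omega) (by rw [h0]; decide)
      rw [h0] at h4
      rw [show y = 64 * ((wb (Svc.T q) + 3 * P.n : ℕ) : ℤ) - 8 + Y by push_cast; omega, h4]
      rfl
  · have h0 := hF.b1
    rw [hz1] at h0
    have h4 := key _ _ k1 (by omega) (zN / 80 - 1) (by omega) (by omega) (by rw [h0]; decide)
    rw [h0] at h4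
    unfold ybT
    rw [show 64 * (((wb (Svc.T q) : ℕ) : ℤ) - 1 + 3 * (P.n : ℤ)) - 8 + ((zN / 80 : ℕ) : ℤ) - 1 =
      64 * ((wb (Svc.T q) - 1 + 3 * P.n : ℕ) : ℤ) - 8 + ((zN / 80 - 1 : ℕ) : ℤ) by
        push_cast [show 1 ≤ wb (Svc.T q) by omega, show 1 ≤ zN / 80 by omega]; ring, h4]
    rfl
  · obtain ⟨m, h1, h2⟩ := qn_quiet (WA_codeA_lt _ _ _) hF.b2
    rw [hz1] at h1
    refine ⟨m, ?_, h2⟩
    have h4 := key _ _ k1 (by omega) (zN / 80 - 2) (by omega) (by omega) (by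
      intro h; rw [h] at h1; cases h1)
    rw [h1] at h4
    unfold ybT
    rw [show 64 * (((wb (Svc.T q) : ℕ) : ℤ) - 1 + 3 * (P.n : ℤ)) - 8 + ((zN / 80 : ℕ) : ℤ) - 1 - 1 =
      64 * ((wb (Svc.T q) - 1 + 3 * P.n : ℕ) : ℤ) - 8 + ((zN / 80 - 2 : ℕ) : ℤ) by
        push_cast [show 1 ≤ wb (Svc.T q) by omega, show 2 ≤ zN / 80 by omega]; ring, h4]

include hD hS in
/-- nobody comes to the special square of a touch from below -/
theorem tq_bel {zN z2 zT : ℕ} (hz1 : zN % 80 = xo) (hz2 : zT % 80 = xo) (hF : WinF D tou zN z2 zT)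
    (q : Qn) : NoBel (resB P D μ x) (sqA (World.org (wa (Svc.T q) + P.n) (wb (Svc.T q) + 3 * P.n)) zT) := by
  obtain ⟨h1, h2, -⟩ := tq_col P hD hS (μ := μ) (x := x) hz1 hF q
  obtain ⟨t1, t2, t3, t4, t5, t6, -, -⟩ := tq_tab q
  have hv : vec 22 = (0, -1) := by decide
  have hst : ∀ i : ℕ, sqA (World.org (wa (Svc.T q) + P.n) (wb (Svc.T q) + 3 * P.n)) zT + i • vec 22 =
      (64 * ((wa (Svc.T q) : ℕ) + (P.n : ℤ)) - 8 + (xo : ℤ),
        64 * ((wb (Svc.T q) : ℕ) + 3 * (P.n : ℤ)) - 8 + ((zT / 80 : ℕ) : ℤ) - i) := by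
    intro i
    refine Prod.ext ?_ ?_
    · rw [add_nsmul_fst, hv, sqA_fst, org_fst, hz2]; push_cast; ring
    · rw [add_nsmul_snd, hv, sqA_snd, org_snd]; push_cast; ring
  have hyb : ybT P zN q = 64 * ((wb (Svc.T q) : ℕ) + 3 * (P.n : ℤ)) - 73 + ((zN / 80 : ℕ) : ℤ) := by
    unfold ybT; ring
  obtain ⟨z1, z2'⟩ := hF.N.z1
  have z3 := hF.T.z1
  intro l κ hl ha hκ
  rw [hst] at ha
  obtain ⟨i0, hi0⟩ : ∃ i0 : ℕ, (i0 : ℤ) = 64 * ((wb (Svc.T q) : ℕ) + 3 * (P.n : ℤ)) - 8 +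
      ((zT / 80 : ℕ) : ℤ) - ybT P zN q :=
    ⟨(64 * ((wb (Svc.T q) : ℕ) + 3 * (P.n : ℤ)) - 8 + ((zT / 80 : ℕ) : ℤ) - ybT P zN q).toNat, by
      rw [hyb]; omega⟩
  have hi1 : 0 < i0 := by rw [hyb] at hi0; omega
  have e0 : 64 * ((wb (Svc.T q) : ℕ) + 3 * (P.n : ℤ)) - 8 + ((zT / 80 : ℕ) : ℤ) - i0 = ybT P zN q := by
    omega
  have hl1 : i0 ≤ l := by
    by_contra h
    rw [h1 _ (by omega) (by omega)] at ha
    cases ha
  have hl2 : l ≠ i0 := by
    rintro rfl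
    rw [e0, h2] at ha
    cases ha
  refine ⟨i0, hi1, by omega, ?_⟩
  rw [hst, e0, h2]
  simp

include hc hD hW hS in
/-- **The windows and touches with vertical shafts.** -/
theorem winT_v {R : Room} (hR : RoomOk D R) {zN z2 zT zE zW : ℕ} (hz : Zs c xo zN z2 zT zE zW)
    (hF : WinF D tou zN z2 zT) {s : Svc} (h : wk s ≠ 0) :
    WinT (geo c P.n) (resB P D μ x) s R (wT D tou zN z2 zT s)
      (World.org (wa s + P.n) (wb s + 3 * P.n)) := by
  have hn := P.pos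
  have hny : ny P.n = 45 + 3 * P.n := rfl
  have hnx : nx P.n = 90 + 5 * P.n := rfl
  obtain ⟨k1, k2, k3, k4, k5, k6, k7, k8, k9, k10⟩ := wk_tab h
  have hx := hS.hx
  have hkd : kd P (wa s + P.n) (wb s + 3 * P.n) = wk s := by
    rw [kd_w P k1 k2 k4 (by omega), k6]
  have hkd1 : kd P (wa s + P.n) (wb s + 3 * P.n + 1) = kdt (wb s + 3) (wa s + 1) := by
    rw [show wb s + 3 * P.n + 1 = (wb s + 1) + 3 * P.n by ring, kd_w P k1 k2 (by omega) (by omega)]
  have hg := fun z hzz p => wk_geo P hz hx.1 h (z := z) hzz p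
  rcases k10 with h5 | h5 | h5
  · have e : wT D tou zN z2 zT s = ⟨80, D.ar 25, 62, zN⟩ := by unfold wT; rw [if_pos h5]
    rw [e]
    have hg' := hg zN (by rw [if_pos h5])
    have h29 := k7 h5
    rw [← hkd1] at h29
    have hxo : xoK xo (kd P (wa s + P.n) (wb s + 3 * P.n + 1)) = xo - 8 := by
      unfold xoK; rw [if_neg (by omega)]
    rw [h5] at hkd
    have hfit := fitsH_resB P hD (μ := μ) (x := x) (i := wa s + P.n) (j := wb s + 3 * P.n)
      (by omega) (by omega)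
    rw [hkd] at hfit
    exact winT_col P hc hD.toOk2 hW hS hR (jt := wb s + 3 * P.n + 1) (by omega) (by omega)
      (by omega) (by omega)
      (by omega) (by omega) (by omega) hfit (by rw [hxo, hz.N1]; omega) hF.N (noBel_of hfit hF.bN)
      (fun p => (hg' p).1) (fun p => (hg' p).2)
  · have e : wT D tou zN z2 zT s = ⟨80, D.ar 26, 62, z2⟩ := by
      unfold wT; rw [if_neg (by omega), if_pos h5]
    rw [e]
    have hg' := hg z2 (by rw [if_neg (by omega), if_pos h5])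
    have h29 := k8 h5
    rw [← hkd1] at h29
    have hxo : xoK xo (kd P (wa s + P.n) (wb s + 3 * P.n + 1)) = xo - 9 := by
      unfold xoK; rw [if_pos h29]
    rw [h5] at hkd
    have hfit := fitsH_resB P hD (μ := μ) (x := x) (i := wa s + P.n) (j := wb s + 3 * P.n)
      (by omega) (by omega)
    rw [hkd] at hfit
    exact winT_col P hc hD.toOk2 hW hS hR (jt := wb s + 3 * P.n + 1) (by omega) (by omega)
      (by omega) (by omega)
      (by omega) (by omega) (by omega) hfit (by rw [hxo, hz.a1]; omega) hF.a (noBel_of hfit hF.ba)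
      (fun p => (hg' p).1) (fun p => (hg' p).2)
  · have e : wT D tou zN z2 zT s = ⟨144, tou, 62, zT⟩ := by
      unfold wT; rw [if_neg (by omega), if_neg (by omega)]
    rw [e]
    have hg' := hg zT (by rw [if_neg (by omega), if_neg (by omega)])
    obtain ⟨h27, h29⟩ := k9 h5
    rw [← hkd1] at h27
    have hkd2 : kd P (wa s + P.n) (wb s + 3 * P.n + 2) = kdt (wb s + 4) (wa s + 1) := by
      rw [show wb s + 3 * P.n + 2 = (wb s + 2) + 3 * P.n by ring,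
        kd_w P k1 k2 (by omega) (by omega)]
    rw [← hkd2] at h29
    have hxo : xoK xo (kd P (wa s + P.n) (wb s + 3 * P.n + 2)) = xo - 8 := by
      unfold xoK; rw [if_neg (by omega)]
    rw [h5] at hkd
    have hfit := fitsH_comp P hD (μ := μ) (x := x) (i := wa s + P.n) (j := wb s + 3 * P.n)
      (by omega) (by omega) hkd (by rw [h27]) hS.comp
    obtain ⟨q, rfl⟩ : ∃ q, s = Svc.T q := by
      cases s with
      | T q => exact ⟨q, rfl⟩
      | H q => cases h5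
      | Z q => cases h5
      | N => cases h5
      | N1 => cases h5
      | N2 => cases h5
      | E => cases h5
      | W => cases h5
      | Out => cases h5
      | Bin => cases h5
      | Tb => cases h5
    exact winT_col P hc hD.toOk2 hW hS hR (jt := wb (Svc.T q) + 3 * P.n + 2) (by omega) (by omega)
      (by omega) (by omega) (by omega) (by omega) (by omega) hfit (by rw [hxo, hz.T1]; omega) hF.T
      (tq_bel P hD hS hz.N1 hz.T1 hF q) (fun p => (hg' p).1) (fun p => (hg' p).2)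

end

end Pool.Agent.Lib.H32C.Ly
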