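import Pool.Agent.Lib.H32C.WldK

/-!
# Windows in the world of a program: the windows `E` and `W`
-/

set_option autoImplicit false

namespace Pool.Agent.Lib.H32C.Ly

open Loc

theorem mem6h {u : ℕ} (hu : u ∈ orT ++ diT) (hv : (vec u).2 ≠ 0) :
    ((vec u).2 = 1 ∨ (vec u).2 = -1) ∧ ((vec u).1 = 0 ∨ (vec u).1 = 1 ∨ (vec u).1 = -1) := by
  revert hv
  revert u
  decide

variable (P : Prog)

section

variable {c : Offs} (hc : c.Ok2) {D : TD} (hD : D.Ok3) (hW : WallOk c D) {μ : Option ℕ}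
  {x : Option (ℕ × ℕ)}

include hc hD hW in
/-- the land in the rows of the lines `E` and `W` is not seen from above and below -/
theorem row_land {s : Sq} {u : ℕ} (hu : u ∈ orT ++ diT) (hv : (vec u).2 ≠ 0)
    (hs1 : 64 * (26 : ℤ) ≤ s.2) (hs2 : s.2 < 64 * (27 + 3 * (P.n : ℤ))) (hl : ¬ Hull P c s) :
    Bl (resB P D μ x) u s := by
  refine land_bl P hc hD.toOk2 hW hu hl ?_
  intro k i j X Y ht hex
  obtain ⟨i1, i2, x1, x2, y1, y2, e1, e2⟩ := ht
  rw [add_nsmul_fst] at e1
  rw [add_nsmul_snd] at e2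
  have hp := pos_exc P i1 i2
  push_cast at e1 e2
  obtain ⟨v1, v2, v3, v4, v5, v6, v7, v8⟩ := vec8
  rcases hex with ⟨h3, h4⟩ | ⟨h3, h4⟩ | ⟨-, h4⟩ | ⟨-, h4⟩ | ⟨h3, h4⟩
  · have h5 := (hp.1 h3).2
    rcases h4 with rfl | rfl | rfl
    · rw [v3] at hv
      exact hv rfl
    · rw [v4] at e2
      simp only at e2
      omega
    · rw [v7] at e2
      simp only at e2
      omega
  · rw [h4, v4] at e2
    simp only at e2
    rcases h3 with h3 | h3
    · have := pos_sv P i1 i2 h3
      omega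
    · have := hp.2.2 h3
      omega
  · rw [h4, v3] at hv
    exact hv rfl
  · rw [h4, v1] at hv
    exact hv rfl
  · rcases h4 with rfl | rfl | rfl
    · rw [v2] at e2
      simp only at e2
      omega
    · rw [v5] at e2
      simp only at e2
      omega
    · rw [v6] at e2
      simp only at e2
      omega

/-- the place of a horizontal shaft: the tile `i1` of kind `k1` in the row `26 + 3 n` -/
def SideH (t i1 k1 : ℕ) : Prop :=
  (t = 43 ∧ i1 = 71 + 2 * P.n ∧ k1 = 31) ∨ (t = 41 ∧ i1 = 0 ∧ k1 = 33)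

/-- the squares beyond the shaft are land -/
theorem row_beyond {t i1 k1 : ℕ} (hs : SideH P t i1 k1) {s : Sq}
    (h1 : t = 43 → 64 * ((i1 : ℤ) + 1) ≤ s.1) (h2 : t = 41 → s.1 < 0)
    (h3 : 64 * (26 + 3 * (P.n : ℤ)) ≤ s.2) (h4 : s.2 < 64 * (27 + 3 * (P.n : ℤ))) :
    ¬ Hull P c s := by
  rintro ⟨i, j, X, Y, ht, hk, -⟩
  obtain ⟨g1, g2, g3, g4, g5, g6, g7, g8⟩ := ht
  have hj : j = 26 + 3 * P.n := by omega
  subst hj
  rcases hs with ⟨k1, k2, -⟩ | ⟨k1, -, -⟩
  · have := h1 k1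
    subst k2
    push_cast at this
    exact hk ((kd_row28 P).2.2.2.2 i (by omega) g1)
  · have := h2 k1
    omega

include hc hD hW in
/-- **The squares of the horizontal shafts and the land beyond are not seen from above and below.** -/
theorem row_bl {t i1 k1 Y0 : ℕ} (hs : SideH P t i1 k1) (hA : ShaftH (D.ar k1) Y0)
    (hY : 17 ≤ Y0 ∧ Y0 ≤ 62) {s : Sq} (h1 : t = 43 → 64 * (i1 : ℤ) + 6 ≤ s.1)
    (h2 : t = 41 → s.1 ≤ 57) (h3 : s.2 = 64 * (26 + 3 * (P.n : ℤ)) - 8 + Y0) {Q : Set Sq}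
    (hQ : ∀ q ∈ Q, (t = 43 → q.1 < 64 * (i1 : ℤ) + 5) ∧ (t = 41 → 58 < q.1) ∧ q.2 - s.2 < 60 ∧
      s.2 - q.2 < 60) {u : ℕ} (hu : u ∈ orT ++ diT) (hv : (vec u).2 ≠ 0) :
    BlP (resB P D μ x) Q u s := by
  obtain ⟨hv1, hv2⟩ := mem6h hu hv
  have hnx : nx P.n = 90 + 5 * P.n := rfl
  have hny : ny P.n = 45 + 3 * P.n := rfl
  have f1 : (s + vec u).1 = s.1 + (vec u).1 := rfl
  have f2 : (s + vec u).2 = s.2 + (vec u).2 := rfl
  have ht : t = 43 ∨ t = 41 := hs.imp (fun h => h.1) (fun h => h.1)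
  have hkd : kd P i1 (26 + 3 * P.n) = k1 := by
    rcases hs with ⟨-, h4, h5⟩ | ⟨-, h4, h5⟩
    · rw [h4, h5]; exact (kd_row28 P).2.2.2.1
    · rw [h4, h5]; exact (kd_row28 P).1
  have hi1 : i1 < nx P.n := by
    rcases hs with ⟨-, h4, -⟩ | ⟨-, h4, -⟩ <;> omega
  -- the land
  have hland : ∀ s' : Sq, (t = 43 → 64 * ((i1 : ℤ) + 1) ≤ s'.1) → (t = 41 → s'.1 < 0) →
      (s'.2 = s.2 ∨ s'.2 = s.2 + (vec u).2) → BlP (resB P D μ x) Q u s' := by
    intro s' h4 h5 h6
    have h7 : 64 * (26 + 3 * (P.n : ℤ)) ≤ s'.2 ∧ s'.2 < 64 * (27 + 3 * (P.n : ℤ)) := by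
      rcases hv1 with h8 | h8 <;> rw [h8] at h6 <;> omega
    refine BlP.of_bl (row_land P hc hD hW hu hv (by omega) h7.2
      (row_beyond P hs h4 h5 h7.1 h7.2)) ?_
    intro i hi h8
    obtain ⟨g1, g2, g3, g4⟩ := hQ _ h8
    rw [add_nsmul_fst] at g1 g2
    rw [add_nsmul_snd] at g3 g4
    have h9 : i < 60 := by
      rcases hv1 with h8 | h8 <;> rw [h8] at h6 g3 g4 <;> omega
    rcases ht with h10 | h10
    · have := g1 h10
      have := h4 h10
      rcases hv2 with h11 | h11 | h11 <;> rw [h11] at g1 <;> omega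
    · have := g2 h10
      have := h5 h10
      rcases hv2 with h11 | h11 | h11 <;> rw [h11] at g2 <;> omega
  by_cases hb : (t = 43 → 64 * ((i1 : ℤ) + 1) ≤ s.1) ∧ (t = 41 → s.1 < 0)
  · exact hland s hb.1 hb.2 (Or.inl rfl)
  -- the square belongs to the shaft
  have hin : 64 * (i1 : ℤ) ≤ s.1 ∧ s.1 < 64 * ((i1 : ℤ) + 1) := by
    rcases hs with ⟨h4, h5, -⟩ | ⟨h4, h5, -⟩
    · have := h1 h4
      constructor
      · omega
      · by_contra h6
        exact hb ⟨fun _ => by omega, fun h7 => by omega⟩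
    · have := h2 h4
      subst h5
      constructor
      · by_contra h6
        exact hb ⟨fun h7 => by omega, fun _ => by push_cast at h6; omega⟩
      · push_cast
        omega
  by_cases hstep : 64 * (i1 : ℤ) ≤ (s + vec u).1 ∧ (s + vec u).1 < 64 * ((i1 : ℤ) + 1)
  · -- the next square belongs to the tile
    have ht' : Tl P i1 (26 + 3 * P.n) ((s + vec u).1 - 64 * (i1 : ℤ) + 8).toNat
        (if (vec u).2 = 1 then Y0 + 1 else Y0 - 1) (s + vec u) := by
      refine ⟨hi1, by omega, by omega, by omega, ?_, ?_, by omega, ?_⟩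
      · split_ifs <;> omega
      · split_ifs <;> omega
      · rw [f2, h3]
        rcases hv1 with h4 | h4
        · rw [if_pos h4, h4]; push_cast; ring
        · rw [if_neg (by omega), h4]; push_cast; omega
    obtain ⟨a1, a2, a3⟩ := hA.cl _ ht'.X1 ht'.X2
    obtain ⟨m, g1, g2⟩ := pn_cell P hD.toOk2 (μ := μ) (x := x) ht' (by
      rw [hkd]
      apply m600 (WA_codeA_lt _ _ _)
      split_ifs
      · exact a3
      · exact a2)
    refine BlP.quiet g1 (slk_quiet g2) ?_
    intro h4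
    obtain ⟨q1, q2, -, -⟩ := hQ _ h4
    rw [f1] at q1 q2
    rcases ht with h5 | h5
    · have := q1 h5
      have := h1 h5
      rcases hv2 with h6 | h6 | h6 <;> rw [h6] at q1 <;> omega
    · have := q2 h5
      have := h2 h5
      rcases hv2 with h6 | h6 | h6 <;> rw [h6] at q2 <;> omega
  · -- the next square is land
    have h4 : (t = 43 → 64 * ((i1 : ℤ) + 1) ≤ (s + vec u).1) ∧ (t = 41 → (s + vec u).1 < 0) := by
      rcases hs with ⟨h4, h5, -⟩ | ⟨h4, h5, -⟩
      · have := h1 h4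
        refine ⟨fun _ => ?_, fun h => by omega⟩
        rw [f1] at hstep ⊢
        rcases hv2 with h6 | h6 | h6 <;> rw [h6] at hstep ⊢ <;> omega
      · have := h2 h4
        subst h5
        refine ⟨fun h => by omega, fun _ => ?_⟩
        rw [f1] at hstep ⊢
        push_cast at hstep
        rcases hv2 with h6 | h6 | h6 <;> rw [h6] at hstep ⊢ <;> omega
    refine BlP.step ?_ (hland _ h4.1 h4.2 (Or.inr f2))
    refine land_none P hc hD.toOk2 hW (row_beyond P hs h4.1 h4.2 ?_ ?_)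
    · rw [f2, h3]
      rcases hv1 with h5 | h5 <;> rw [h5] <;> omega
    · rw [f2, h3]
      rcases hv1 with h5 | h5 <;> rw [h5] <;> omega

include hc hD hW in
/-- no White knight near a horizontal shaft, and no White pawn below -/
theorem row_kn {t i1 k1 Y0 : ℕ} (hs : SideH P t i1 k1) (hA : ShaftH (D.ar k1) Y0)
    (hY : 17 ≤ Y0 ∧ Y0 ≤ 62) {a : Sq} (h1 : t = 43 → 64 * (i1 : ℤ) ≤ a.1)
    (h2 : t = 41 → a.1 ≤ 63) (h3 : 64 * (26 + 3 * (P.n : ℤ)) - 8 + Y0 - 2 ≤ a.2)
    (h4 : a.2 ≤ 64 * (26 + 3 * (P.n : ℤ)) - 8 + Y0 + 2) :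
    resB P D μ x a ≠ some (true, Kind.knight) ∧
      (a.2 = 64 * (26 + 3 * (P.n : ℤ)) - 8 + Y0 - 1 → resB P D μ x a ≠ some (true, Kind.pawn)) ∧
      (a.2 = 64 * (26 + 3 * (P.n : ℤ)) - 8 + Y0 → resB P D μ x a = none) := by
  have hnx : nx P.n = 90 + 5 * P.n := rfl
  have hny : ny P.n = 45 + 3 * P.n := rfl
  have hkd : kd P i1 (26 + 3 * P.n) = k1 := by
    rcases hs with ⟨-, h4, h5⟩ | ⟨-, h4, h5⟩
    · rw [h4, h5]; exact (kd_row28 P).2.2.2.1
    · rw [h4, h5]; exact (kd_row28 P).1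
  have hi1 : i1 < nx P.n := by
    rcases hs with ⟨-, h4, -⟩ | ⟨-, h4, -⟩ <;> omega
  by_cases hb : (t = 43 → 64 * ((i1 : ℤ) + 1) ≤ a.1) ∧ (t = 41 → a.1 < 0)
  · rw [land_none P hc hD.toOk2 hW (row_beyond P hs hb.1 hb.2 (by omega) (by omega))]
    exact ⟨by simp, fun _ => by simp, fun _ => rfl⟩
  have hin : 64 * (i1 : ℤ) ≤ a.1 ∧ a.1 < 64 * ((i1 : ℤ) + 1) := by
    rcases hs with ⟨h5, h6, -⟩ | ⟨h5, h6, -⟩
    · have := h1 h5
      refine ⟨this, ?_⟩
      by_contra h7
      exact hb ⟨fun _ => by omega, fun h8 => by omega⟩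
    · have := h2 h5
      subst h6
      constructor
      · by_contra h7
        exact hb ⟨fun h8 => by omega, fun _ => by push_cast at h7; omega⟩
      · push_cast
        omega
  have ht' : Tl P i1 (26 + 3 * P.n) (a.1 - 64 * (i1 : ℤ) + 8).toNat
      (a.2 - 64 * (26 + 3 * (P.n : ℤ)) + 8).toNat a :=
    ⟨hi1, by omega, by omega, by omega, by omega, by omega, by omega, by push_cast; omega⟩
  have hcell : codeA (D.ar k1) (a.1 - 64 * (i1 : ℤ) + 8).toNat
      (a.2 - 64 * (26 + 3 * (P.n : ℤ)) + 8).toNat ≠ 15 → resB P D μ x a =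
        dec (codeA (D.ar k1) (a.1 - 64 * (i1 : ℤ) + 8).toNat
          (a.2 - 64 * (26 + 3 * (P.n : ℤ)) + 8).toNat) := by
    intro h5
    have h6 := fit_resB P hD.toOk2 (μ := μ) (x := x) ht'.hi ht'.hj
      (X := (a.1 - 64 * (i1 : ℤ) + 8).toNat) (Y := (a.2 - 64 * (26 + 3 * (P.n : ℤ)) + 8).toNat)
      (by omega) (by omega)
    rw [hkd] at h6
    rw [← h6 h5, ← ht'.eq]
  refine ⟨?_, ?_, ?_⟩
  · have h5 := hA.kn _ (a.2 - 64 * (26 + 3 * (P.n : ℤ)) + 8).toNat ht'.X1 ht'.X2
      (by omega) (by omega)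
    by_cases h15 : codeA (D.ar k1) (a.1 - 64 * (i1 : ℤ) + 8).toNat
      (a.2 - 64 * (26 + 3 * (P.n : ℤ)) + 8).toNat = 15
    · have h6 := ht'.code (D := D)
      rw [hkd, h15] at h6
      intro h7
      unfold resB at h7
      split_ifs at h7 with h8 h9
      · cases h7
      · cases h7
      · unfold World.board at h7
        rw [h6] at h7
        cases h7
    · rw [hcell h15]
      have : ∀ k, k < 16 → k ≠ 2 → dec k ≠ some (true, Kind.knight) := by decide
      exact this _ (WA_codeA_lt _ _ _) h5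
  · intro h5
    have h6 := (hA.cl _ ht'.X1 ht'.X2).2.1
    rw [show (a.2 - 64 * (26 + 3 * (P.n : ℤ)) + 8).toNat = Y0 - 1 by omega] at hcell
    have h7 : ∀ k, k < 16 → msk 0x600 k = true → k ≠ 15 ∧ dec k ≠ some (true, Kind.pawn) := by
      decide
    obtain ⟨h8, h9⟩ := h7 _ (WA_codeA_lt _ _ _) h6
    rw [hcell h8]
    exact h9
  · intro h5
    have h6 := (hA.cl _ ht'.X1 ht'.X2).1
    rw [show (a.2 - 64 * (26 + 3 * (P.n : ℤ)) + 8).toNat = Y0 by omega] at hcell
    rw [hcell (by rw [h6]; decide), h6]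
    rfl

include hc hD hW in
/-- **Windows with horizontal shafts.** -/
theorem winT_row {R : Room} (hR : RoomOk D R) {s : Svc} {t i1 k1 i0 k0 z : ℕ}
    (hs : SideH P t i1 k1) (hi : (t = 43 → i0 + 1 = i1) ∧ (t = 41 → i0 = 1))
    (hA : ShaftH (D.ar k1) (z / 80)) (hV : WinH (D.ar k0) z t)
    (hk : kd P i0 (26 + 3 * P.n) = k0)
    (hline : ∀ p, (geo c P.n).line s p ↔ p.2 = (sqA (World.org i0 (26 + 3 * P.n)) z).2 ∧
      (t = 43 → (sqA (World.org i0 (26 + 3 * P.n)) z).1 < p.1) ∧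
      (t = 41 → p.1 < (sqA (World.org i0 (26 + 3 * P.n)) z).1))
    (haxis : ∀ p, (geo c P.n).axis s p ↔ p.2 = (sqA (World.org i0 (26 + 3 * P.n)) z).2) :
    WinT (geo c P.n) (resB P D μ x) s R ⟨80, D.ar k0, t, z⟩ (World.org i0 (26 + 3 * P.n)) := by
  have hn := P.pos
  have hny : ny P.n = 45 + 3 * P.n := rfl
  have hnx : nx P.n = 90 + 5 * P.n := rfl
  have hG := geo_ok hc.toOk P.n
  have hfit : FitsH 80 (D.ar k0) (World.org i0 (26 + 3 * P.n)) (resB P D μ x) := by
    rw [← hk]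
    refine fitsH_resB P hD ?_ (by omega)
    rcases hs with ⟨h4, h5, -⟩ | ⟨h4, h5, -⟩
    · have := hi.1 h4
      omega
    · have := hi.2 h4
      omega
  obtain ⟨z1, z1'⟩ := hV.z1
  obtain ⟨z2, z2'⟩ := hV.z2
  have he1 : (sqA (World.org i0 (26 + 3 * P.n)) z).1 = 64 * (i0 : ℤ) - 8 + ((z % 80 : ℕ) : ℤ) := by
    rw [sqA_fst, org_fst]
  have he2 : (sqA (World.org i0 (26 + 3 * P.n)) z).2 = 64 * (26 + 3 * (P.n : ℤ)) - 8 +
      ((z / 80 : ℕ) : ℤ) := by
    rw [sqA_snd, org_snd]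
    push_cast
    ring
  have ho1 := org_fst i0 (26 + 3 * P.n)
  have ho2 := org_snd i0 (26 + 3 * P.n)
  push_cast at ho2
  obtain ⟨zs, hzs⟩ : ∃ zs, zs = sqA (World.org i0 (26 + 3 * P.n)) z := ⟨_, rfl⟩
  rw [← hzs] at he1 he2 hline haxis
  have ht : (t = 43 ∧ i1 = 71 + 2 * P.n ∧ k1 = 31 ∧ i0 + 1 = i1) ∨
      (t = 41 ∧ i1 = 0 ∧ k1 = 33 ∧ i0 = 1) := by
    rcases hs with ⟨h4, h5, h6⟩ | ⟨h4, h5, h6⟩
    · exact Or.inl ⟨h4, h5, h6, hi.1 h4⟩
    · exact Or.inr ⟨h4, h5, h6, hi.2 h4⟩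
  -- the line is free
  have hclr : ∀ p : Sq, p.2 = zs.2 → (t = 43 → zs.1 ≤ p.1) → (t = 41 → p.1 ≤ zs.1) →
      resB P D μ x p = none := by
    intro p g1 g2 g3
    by_cases hin : 64 * (i0 : ℤ) ≤ p.1 ∧ p.1 < 64 * ((i0 : ℤ) + 1)
    · have h0 := hV.clr (p.1 - 64 * (i0 : ℤ) + 8).toNat (by omega) (by omega) (by
        rcases ht with ⟨h4, -⟩ | ⟨h4, -⟩
        · left; have := g2 h4; omega
        · right; have := g3 h4; omega)
      have h5 := hfit.cells (p.1 - 64 * (i0 : ℤ) + 8).toNat (z / 80) (by omega) (by omega)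
        (by rw [h0]; decide)
      rw [h0] at h5
      rw [show p = tsq (World.org i0 (26 + 3 * P.n)) (p.1 - 64 * (i0 : ℤ) + 8).toNat (z / 80) from
        Prod.ext (by change p.1 = (World.org i0 (26 + 3 * P.n)).1 + _; rw [ho1]; omega)
          (by change p.2 = (World.org i0 (26 + 3 * P.n)).2 + _; rw [ho2]; omega), h5]
      rfl
    · refine (row_kn P hc hD hW hs hA ⟨z2, z2'⟩ ?_ ?_ (by omega) (by omega)).2.2 (by omega)
      · intro h4
        have := g2 h4
        omega
      · intro h4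
        have := g3 h4
        omega
  have hcore : ∀ p : Sq, (geo c P.n).line s p → p ∉ CoreH 2 80 (World.org i0 (26 + 3 * P.n)) →
      (t = 43 → 64 * (i1 : ℤ) + 6 ≤ p.1) ∧ (t = 41 → p.1 ≤ 57) := by
    intro p g1 g2
    obtain ⟨g3, g4, g5⟩ := (hline p).1 g1
    unfold CoreH at g2
    rw [Set.mem_ofPred_eq, ho1, ho2] at g2
    constructor
    · intro h4
      have := g4 h4
      by_contra g6
      apply g2
      omega
    · intro h4
      have := g5 h4
      by_contra g6
      apply g2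
      omega
  have hZ : ∀ p ∈ R.Z, p.2 ≤ (geo c P.n).T ∧ ¬ (geo c P.n).Zone p ∧ p ≠ (geo c P.n).hb ∧
      ¬ (geo c P.n).line s p := by
    intro p hp
    obtain ⟨g1, g2, g3, g4⟩ := hR.Z p hp
    obtain ⟨o1, o2, o3, o4, o5, o6, o7, o8, o9, o10⟩ := hc.toOk
    refine ⟨by simp only [geo]; omega, ?_, ?_, ?_⟩
    · rintro (⟨k1, -⟩ | ⟨k1, -⟩ | ⟨q, k1, k2, k3⟩)
      · simp only [geo] at k1
        omega
      · simp only [geo] at k1
        omega
      · have := hG.hT q
        simp only [geo] at this k1 k2 k3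
        omega
    · rintro rfl
      simp only [geo, FGeo.hb] at g2
      omega
    · intro k1
      have := ((hline p).1 k1).1
      omega
  have hzo : t = 43 ∨ t = 41 := ht.imp (fun h => h.1) (fun h => h.1)
  have hvt : vec t = (1, 0) ∧ t = 43 ∨ vec t = (-1, 0) ∧ t = 41 := by
    rcases hzo with rfl | rfl
    · exact Or.inl ⟨by decide, rfl⟩
    · exact Or.inr ⟨by decide, rfl⟩
  have hto : t ∈ orT := by rcases hzo with rfl | rfl <;> decide
  refine ⟨hG, farWorld P hc hD.toOk2 hW, hto, hfit, ?_, ?_, ?_, ?_, ?_, ?_, hZ,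
    reg_king hR (by omega) (by omega), ?_⟩
  · -- line
    intro p
    rw [hline, hzs]
    change _ ↔ ∃ n : ℕ, 0 < n ∧ p = sqA (World.org i0 (26 + 3 * P.n)) z + n • vec t
    rw [← hzs]
    rcases hvt with ⟨hv, rfl⟩ | ⟨hv, rfl⟩
    · rw [hv]
      constructor
      · rintro ⟨g1, g2, -⟩
        have := g2 rfl
        refine ⟨(p.1 - zs.1).toNat, by omega, Prod.ext ?_ ?_⟩
        · rw [add_nsmul_fst]
          simp only
          omega
        · rw [add_nsmul_snd, g1]
          simp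
      · rintro ⟨n, g1, rfl⟩
        rw [add_nsmul_fst, add_nsmul_snd]
        simp only
        refine ⟨by ring, fun _ => by omega, fun h => by omega⟩
    · rw [hv]
      constructor
      · rintro ⟨g1, -, g2⟩
        have := g2 rfl
        refine ⟨(zs.1 - p.1).toNat, by omega, Prod.ext ?_ ?_⟩
        · rw [add_nsmul_fst]
          simp only
          omega
        · rw [add_nsmul_snd, g1]
          simp
      · rintro ⟨n, g1, rfl⟩
        rw [add_nsmul_fst, add_nsmul_snd]
        simp only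
        refine ⟨by ring, fun h => by omega, fun _ => by omega⟩
  · -- axis
    intro p
    rw [haxis, hzs]
    change _ ↔ ∃ j : ℤ, p = sqA (World.org i0 (26 + 3 * P.n)) z + j • vec t
    rw [← hzs]
    rcases hvt with ⟨hv, rfl⟩ | ⟨hv, rfl⟩
    · rw [hv]
      constructor
      · intro g1
        refine ⟨p.1 - zs.1, Prod.ext ?_ ?_⟩
        · simp
        · rw [g1]
          simp
      · rintro ⟨j, rfl⟩
        simp
    · rw [hv]
      constructor
      · intro g1
        refine ⟨zs.1 - p.1, Prod.ext ?_ ?_⟩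
        · simp
        · rw [g1]
          simp
      · rintro ⟨j, rfl⟩
        simp
  · -- clear
    intro p g1
    obtain ⟨g3, g4, g5⟩ := (hline p).1 g1
    exact hclr p g3 (fun h => by have := g4 h; omega) (fun h => by have := g5 h; omega)
  · -- hull
    intro p hp
    unfold TileRegH at hp
    rw [Set.mem_ofPred_eq, ho1, ho2] at hp
    dsimp only at hp
    obtain ⟨p1, p2, p3, p4⟩ := hp
    obtain ⟨o1, o2, o3, o4, o5, o6, o7, o8, o9, o10⟩ := hc.toOk
    have hT : p.2 ≤ (geo c P.n).T := by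
      simp only [geo]
      omega
    refine ⟨hT, ?_, ?_⟩
    · rintro (⟨-, k1⟩ | ⟨-, k1⟩ | ⟨q, k1, k2, k3⟩)
      · simp only [geo] at k1
        omega
      · simp only [geo, FGeo.c1, colq] at k1
        omega
      · have := hG.hT q
        simp only [geo] at this k1 k2 k3 hT
        omega
    · rintro rfl
      simp only [geo, FGeo.hb] at p4
      omega
  · -- closed
    intro p g1 g2 a κ ha hκ hax hl
    obtain ⟨g3, g3'⟩ := hcore p g1 g2
    have g4 := ((hline p).1 g1).1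
    have g5 : a.2 ≠ p.2 := by
      intro h5
      exact hax ((haxis a).2 (by rw [h5, g4]))
    refine blp_betw (m := (false, κ)) (p := fun u => (vec u).2 ≠ 0) (t := 43)
      (Q := CoreH 3 80 (World.org i0 (26 + 3 * P.n))) (by decide) ?_ ha (fun _ => hκ) ?_ ?_
    · intro u hu hv'
      refine BlW.of_blp (row_bl P hc hD hW hs hA ⟨z2, z2'⟩ g3 g3' (by rw [g4, he2]) ?_ hu hv')
        (fun m hm => hm.1)
      intro q hq
      unfold CoreH at hq
      rw [Set.mem_ofPred_eq, ho1, ho2] at hq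
      refine ⟨fun h => ?_, fun h => ?_, by omega, by omega⟩
      · omega
      · omega
    · intro u _ l hal h0
      apply g5
      rw [hal, add_nsmul_snd, h0, mul_zero, add_zero]
    · rcases hl with hl | ⟨hl, hl'⟩
      · exact Or.inl ⟨hl, hκ⟩
      · exact Or.inr ⟨hl', Or.inl hl⟩
  · -- white
    intro p g1 g2 a κ ha
    obtain ⟨g3, g3'⟩ := hcore p g1 g2
    obtain ⟨g4, g5, g6⟩ := (hline p).1 g1
    have hside : ∀ u ∈ orT ++ diT, (vec u).2 ≠ 0 → BlP (resB P D μ x) ∅ u p := by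
      intro u hu hv
      exact row_bl P hc hD hW hs hA ⟨z2, z2'⟩ g3 g3' (by rw [g4, he2])
        (fun q hq => absurd hq (Set.notMem_empty q)) hu hv
    have hb : ∀ (h5 : a.2 ≠ p.2) (h6 : (OrthI a p ∧ (κ = Kind.queen ∨ κ = Kind.rook)) ∨
        (DiagI a p ∧ (κ = Kind.queen ∨ κ = Kind.bishop))), ∃ d, BetwI a p d ∧ d ∉ (∅ : Set Sq) ∧
          resB P D μ x d ≠ none := by
      intro h5 h6
      refine blp_betw (p := fun u => (vec u).2 ≠ 0) (t := 43) (by decide)
        (fun u hu hp => BlW.of_blp (hside u hu hp) fun m hm => hm.1) ha (fun h => by cases h) ?_ h6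
      intro u _ l hal h0
      apply h5
      rw [hal, add_nsmul_snd, h0, mul_zero, add_zero]
    have hver : ∀ (h5 : a.2 = p.2) (h6 : κ = Kind.rook ∨ κ = Kind.queen), ∃ d, BetwI a p d ∧
        d ∉ (∅ : Set Sq) ∧ resB P D μ x d ≠ none := by
      intro h5 h6
      have h7 : (t = 43 → a.1 < zs.1) ∧ (t = 41 → zs.1 < a.1) := by
        constructor
        · intro h8
          by_contra h7
          rw [hclr a (by rw [h5, g4]) (fun _ => by omega) (fun h9 => by omega)] at ha
          cases ha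
        · intro h8
          by_contra h7
          rw [hclr a (by rw [h5, g4]) (fun h9 => by omega) (fun _ => by omega)] at ha
          cases ha
      obtain ⟨l, hl, hl0⟩ : ∃ l : ℕ, a.1 = zs.1 - l * (vec t).1 ∧ 0 < l := by
        rcases hvt with ⟨hv, h8⟩ | ⟨hv, h8⟩
        · have := h7.1 h8
          exact ⟨(zs.1 - a.1).toNat, by rw [hv]; simp only; omega, by omega⟩
        · have := h7.2 h8
          exact ⟨(a.1 - zs.1).toNat, by rw [hv]; simp only; omega, by omega⟩
      have hv' : vec (84 - t) = - vec t := by rcases hzo with rfl | rfl <;> decide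
      have hst : ∀ i : ℕ, zs + i • vec (84 - t) = (zs.1 - i * (vec t).1, p.2) := by
        intro i
        rw [hv']
        refine Prod.ext ?_ ?_
        · rw [add_nsmul_fst]
          simp only [Prod.fst_neg]
          ring
        · rw [add_nsmul_snd, g4]
          rcases hvt with ⟨hv, -⟩ | ⟨hv, -⟩ <;> rw [hv] <;> simp
      obtain ⟨i, k1, k2, k3⟩ := scw_spec (O := World.org i0 (26 + 3 * P.n)) (B := resB P D μ x)
        (fun j hj h15 => cell_sqA hfit (inA_lt hj).1 h15)
        (u := 84 - t) (by rcases hzo with rfl | rfl <;> decide) 90 z hV.below l κ hl0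
        (by rw [← hzs, hst l, ← ha]; congr 1; exact Prod.ext hl.symm h5.symm) h6
      refine ⟨_, ?_, Set.notMem_empty _, k3⟩
      rw [← hzs, hst i]
      unfold BetwI OrthI
      dsimp only
      rcases hvt with ⟨hv, h8⟩ | ⟨hv, h8⟩
      · have := h7.1 h8
        have := g5 h8
        rw [hv] at hl ⊢
        dsimp only at hl ⊢
        omega
      · have := h7.2 h8
        have := g6 h8
        rw [hv] at hl ⊢
        dsimp only at hl ⊢
        omega
    cases κ with
    | king => exact noWK hfit a ha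
    | queen =>
      intro h5
      by_cases h6 : a.2 = p.2
      · exact hver h6 (Or.inr rfl)
      · exact hb h6 (h5.imp (fun h => ⟨h, Or.inl rfl⟩) (fun h => ⟨h, Or.inl rfl⟩))
    | rook =>
      intro h5
      by_cases h6 : a.2 = p.2
      · exact hver h6 (Or.inl rfl)
      · exact hb h6 (Or.inl ⟨h5, Or.inr rfl⟩)
    | bishop =>
      intro h5
      have h6 : DiagI a p := h5
      refine hb ?_ (Or.inr ⟨h5, Or.inr rfl⟩)
      unfold DiagI at h6
      omega
    | knight =>
      intro h5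
      obtain ⟨k1, k2, k3, k4⟩ := kn_abs h5
      have e1 : (p - a).1 = p.1 - a.1 := rfl
      have e2 : (p - a).2 = p.2 - a.2 := rfl
      refine (row_kn P hc hD hW hs hA ⟨z2, z2'⟩ (a := a) ?_ ?_ (by omega) (by omega)).1 ha
      · intro h
        have := g3 h
        omega
      · intro h
        have := g3' h
        omega
    | pawn =>
      have hns : ∀ d : Sq, p - a = d → a.1 = p.1 - d.1 ∧ a.2 = p.2 - d.2 := by
        rintro d rfl
        have e1 : (p - a).1 = p.1 - a.1 := rfl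
        have e2 : (p - a).2 = p.2 - a.2 := rfl
        omega
      refine ⟨?_, ?_⟩
      · intro h5
        obtain ⟨k1, k2⟩ := hns _ h5
        simp only at k1 k2
        refine (row_kn P hc hD hW hs hA ⟨z2, z2'⟩ (a := a) ?_ ?_ (by omega) (by omega)).2.1
          (by omega) ha
        · intro h
          have := g3 h
          omega
        · intro h
          have := g3' h
          omega
      · intro h5
        have key : ∀ d : Sq, (d.1 = 1 ∨ d.1 = -1) → d.2 = 1 → p - a ≠ d := by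
          intro d hd1 hd2 hd
          obtain ⟨k1, k2⟩ := hns _ hd
          rw [hd2] at k2
          have hna : resB P D μ x a ≠ none := by rw [ha]; simp
          have hhull := hull_of P hc hD.toOk2 hW hna
          obtain ⟨s1, s2⟩ := hull_sum P hc hhull (Or.inr (by omega)) (by omega)
          have hT : (geo c P.n).T = 64 * (45 + 3 * (P.n : ℤ)) - 1 := rfl
          rcases h5 with (⟨h6, h7⟩ | ⟨h6, h7⟩ | h6) | h6
          · omega
          · omega
          · omega
          · have h7 := floater_above hG h6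
            omega
        exact ⟨key (1, 1) (Or.inl rfl) rfl, key (-1, 1) (Or.inr rfl) rfl⟩
  · -- the room
    refine hR.G _ fun X Y hX hX2 hY hY2 => ?_
    have h39 := kd00 P
    have h5 := fit_resB P hD.toOk2 (μ := μ) (x := x) (i := 0) (j := 0) (by omega) (by omega)
      (X := X) (Y := Y) (by omega) (by omega) (by rw [h39]; exact hR.cells X Y hX hX2 hY hY2)
    rw [h39] at h5
    exact h5

end

end Pool.Agent.Lib.H32C.Ly
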