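import Pool.Agent.Lib.H32C.TouS
import Pool.Agent.Lib.H32C.WldL

/-!
# Touches in the world of a program: the file below a touch
-/

set_option autoImplicit false

namespace Pool.Agent.Lib.H32C.Ly

open Loc

theorem sch_spec {H A b M : ℕ} {O : Sq} {B : Board} {W : Man → Prop} {u : ℕ}
    (hB : ∀ j, inA H j = true → cell A j ≠ 15 → B (sqA O j) = dec (cell A j))
    (hM : ∀ k < 16, msk M k = true → ∃ m, dec k = some m ∧ ¬ W m)
    (hu : u ∈ orT ++ diT) : ∀ n j : ℕ, sch H A b M u n j = true →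
    ∃ (i j' : ℕ), 0 < i ∧ sqA O j + i • vec u = sqA O j' ∧ inA H j' = true ∧ j' < b ∧
      (∃ m, B (sqA O j') = some m ∧ ¬ W m) ∧ ∀ i' : ℕ, 0 < i' → i' < i →
        B (sqA O j + i' • vec u) = none ∧ ∃ j'', inA H j'' = true ∧ sqA O j + i' • vec u = sqA O j'' := by
  intro n
  induction n with
  | zero => intro j h; cases h
  | succ n ih =>
    intro j h
    have h1 : sch H A b M u (n + 1) j = (inA H (stA u j) &&
      cond (Nat.beq (cell A (stA u j)) 0) (sch H A b M u n (stA u j))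
        (msk M (cell A (stA u j)) && Nat.blt (stA u j) b)) := rfl
    rw [h1, Bool.and_eq_true] at h
    obtain ⟨h2, h3⟩ := h
    have e := sqA_stA (O := O) hu h2
    have est : ∀ i : ℕ, sqA O j + (i + 1) • vec u = sqA O (stA u j) + i • vec u := by
      intro i
      rw [e, add_assoc, ← succ_nsmul']
    cases h4 : Nat.beq (cell A (stA u j)) 0 with
    | true =>
      rw [h4] at h3
      have h5 := Nat.eq_of_beq_eq_true h4
      obtain ⟨i, j', g1, g2, g3, g4, g5, g6⟩ := ih _ h3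
      refine ⟨i + 1, j', by omega, by rw [est]; exact g2, g3, g4, g5, ?_⟩
      intro i' h6 h7
      obtain ⟨i'', rfl⟩ : ∃ i'', i' = i'' + 1 := ⟨i' - 1, by omega⟩
      rcases Nat.eq_zero_or_pos i'' with h8 | h8
      · subst h8
        have e1 : sqA O j + (0 + 1) • vec u = sqA O (stA u j) := by
          rw [est, zero_smul, add_zero]
        rw [e1]
        refine ⟨?_, _, h2, rfl⟩
        rw [hB _ h2 (by rw [h5]; decide), h5]
        rfl
      · rw [est]
        exact g6 i'' h8 (by omega)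
    | false =>
      rw [h4] at h3
      have h3' : (msk M (cell A (stA u j)) && Nat.blt (stA u j) b) = true := h3
      rw [Bool.and_eq_true] at h3'
      obtain ⟨m, h5, h6⟩ := hM _ (cell_lt _ _) h3'.1
      have h7 : cell A (stA u j) ≠ 15 := by
        intro h7
        rw [h7] at h5
        cases h5
      refine ⟨1, stA u j, by omega, ?_, h2, blt_of h3'.2, ⟨m, by rw [hB _ h2 h7, h5], h6⟩, ?_⟩
      · rw [one_smul]; exact e.symm
      · intro i' h8 h9
        omega

/-- static Black pieces which come from direction `u` to a line upwards -/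
def WB62 (u : Nat) (m : Man) : Prop := m.1 = false ∧ SlK m.2 u ∧ SlK m.2 62

theorem bmk_spec : ∀ u ∈ orT ++ diT, ∀ k < 16, msk (bmk u) k = true →
    ∃ m, dec k = some m ∧ ¬ WB62 u m := by
  intro u hu k hk h
  have key : ∀ u ∈ orT ++ diT, ∀ k < 16, msk (bmk u) k = true →
      k = 1 ∨ k = 2 ∨ k = 3 ∨ k = 4 ∨ k = 5 ∨ k = 9 ∨ k = 10 ∨ k = 11 ∨
        (k = 12 ∧ u ∉ orT) := by decide +kernel
  have h62 : ¬ (62 ∈ diT) := by decide
  have h1 := key u hu k hk h
  unfold WB62 SlK
  rcases h1 with rfl | rfl | rfl | rfl | rfl | rfl | rfl | rfl | ⟨rfl, h2⟩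
  · exact ⟨_, rfl, by simp⟩
  · exact ⟨_, rfl, by simp⟩
  · exact ⟨_, rfl, by simp⟩
  · exact ⟨_, rfl, by simp⟩
  · exact ⟨_, rfl, by simp⟩
  · exact ⟨_, rfl, by simp⟩
  · exact ⟨_, rfl, by simp⟩
  · exact ⟨_, rfl, by simp [h62]⟩
  · exact ⟨_, rfl, by simp [h2]⟩

variable (P : Prog)

section

variable {c : Offs} (hc : c.Ok2) {D : TD} (hD : D.Ok3) (hW : WallOk c D) {tou xo : ℕ}
  (hS : ShaftV D tou xo) {μ : Option ℕ} {x : Option (ℕ × ℕ)}

include hc hD hS in
/-- **The file below a touch.** -/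
theorem tq_scol {R : Room} (hR : RoomOk D R) {zN z2 zT zE zW : ℕ} (hz : Zs c xo zN z2 zT zE zW)
    (hF : WinF D tou zN z2 zT) (hQ : TouF D zN) (q : Qn) :
    SCol (geo c P.n) (resB P D μ x) q R ⟨144, tou, 62, zT⟩
      (World.org (wa (Svc.T q) + P.n) (wb (Svc.T q) + 3 * P.n)) (ybT P zN q) := by
  have hn := P.pos
  have hnx : nx P.n = 90 + 5 * P.n := rfl
  have hny : ny P.n = 45 + 3 * P.n := rfl
  obtain ⟨t1, t2, t3, t4, t5, t6, t7, t8⟩ := tq_tab q
  obtain ⟨k1, k2⟩ := tq_kd P q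
  obtain ⟨z1, z2'⟩ := hF.N.z1
  have hzT := hF.zT1
  obtain ⟨c1, c2, c3⟩ := tq_col P hD hS (μ := μ) (x := x) hz.N1 hF q
  have hx := hS.hx
  have o1 := hz.o
  have hcol : (geo c P.n).col q = 64 * ((wa (Svc.T q) : ℕ) + (P.n : ℤ)) - 8 + (xo : ℤ) := by
    simp only [geo, colq]
    cases q <;> simp only [wa] <;> rw [o1] <;> push_cast <;> ring
  have hO1 : (World.org (wa (Svc.T q) + P.n) (wb (Svc.T q) + 3 * P.n)).1 =
      64 * ((wa (Svc.T q) : ℕ) + (P.n : ℤ)) - 8 := by rw [org_fst]; push_cast; ring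
  have hO2 : (World.org (wa (Svc.T q) + P.n) (wb (Svc.T q) + 3 * P.n)).2 =
      64 * ((wb (Svc.T q) : ℕ) + 3 * (P.n : ℤ)) - 8 := by rw [org_snd]; push_cast; ring
  have hzz : (sqA (World.org (wa (Svc.T q) + P.n) (wb (Svc.T q) + 3 * P.n)) zT).2 =
      64 * ((wb (Svc.T q) : ℕ) + 3 * (P.n : ℤ)) - 8 + ((zT / 80 : ℕ) : ℤ) := by
    rw [sqA_snd, hO2]
  have hyb : ybT P zN q = 64 * ((wb (Svc.T q) : ℕ) + 3 * (P.n : ℤ)) - 73 + ((zN / 80 : ℕ) : ℤ) := by
    unfold ybT; ring
  have hG := geo_ok hc.toOk P.n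
  obtain ⟨p1, p2, p3, p4, p5, p6, p7, p8, p9, p10⟩ := hc.toOk
  -- the region of the tile below is not outside
  have hout : ∀ a : Sq, a.1 ≤ 64 * ((wa (Svc.T q) : ℕ) + (P.n : ℤ)) + 72 →
      64 * ((wa (Svc.T q) : ℕ) + (P.n : ℤ)) - 10 ≤ a.1 →
      a.2 ≤ 64 * ((wb (Svc.T q) : ℕ) + 3 * (P.n : ℤ)) + 72 → ¬ (geo c P.n).Outside a := by
    intro a h1 h2 h3 h4
    rcases h4 with ⟨-, h4⟩ | ⟨-, h4⟩ | h4
    · simp only [geo] at h4
      omega
    · simp only [geo, FGeo.c1, colq] at h4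
      omega
    · simp only [geo] at h4
      omega
  refine ⟨?_, ?_, ?_, ?_, ?_, ?_, ?_⟩
  · have hz60 := hQ.z
    rw [hyb, hO2]
    omega
  · rw [hcol]
    exact c2
  · rw [hcol]
    exact c3
  · intro y h1 h2
    rw [hcol]
    exact c1 y h1 (by rw [← hzz]; exact h2)
  · intro y h1 h2
    change y ≤ (sqA (World.org (wa (Svc.T q) + P.n) (wb (Svc.T q) + 3 * P.n)) zT).2 at h2
    rw [hzz] at h2
    rw [hyb] at h1
    have hT : y ≤ (geo c P.n).T := by simp only [geo]; omega
    refine ⟨hT, ?_, ?_⟩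
    · have h3 := hout ((geo c P.n).col q, y) (by rw [hcol]; simp only; omega)
        (by rw [hcol]; simp only; omega) (by simp only; omega)
      rintro (h4 | h4 | ⟨r, h4, h5, h6⟩)
      · exact h3 (Or.inl h4)
      · exact h3 (Or.inr (Or.inl h4))
      · have h7 := hG.hT r
        simp only at h4 h5 h6
        omega
    · intro h3
      have h4 := congrArg Prod.fst h3
      simp only [FGeo.hb] at h4
      rw [hcol] at h4
      simp only [geo] at h4
      omega
  · intro y h1 h2 h3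
    obtain ⟨-, -, -, h4⟩ := hR.Z _ h3
    rw [hyb] at h1
    simp only at h4
    omega
  · intro y h1 h2 h3 a κ h4 h5
    change y ≤ (sqA (World.org (wa (Svc.T q) + P.n) (wb (Svc.T q) + 3 * P.n)) zT).2 at h2
    rw [hzz] at h2
    rw [hyb] at h1
    have hy66 : y < 64 * ((wb (Svc.T q) : ℕ) + 3 * (P.n : ℤ)) - 8 + 2 := by
      by_contra h
      apply h3
      unfold CoreH
      rw [Set.mem_ofPred_eq, hO1, hO2, hcol]
      simp only
      omega
    obtain ⟨Y, hY⟩ : ∃ Y : ℕ, (Y : ℤ) = y - (64 * (((wb (Svc.T q) : ℕ) : ℤ) - 1 + 3 * (P.n : ℤ)) - 8) :=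
      ⟨(y - (64 * (((wb (Svc.T q) : ℕ) : ℤ) - 1 + 3 * (P.n : ℤ)) - 8)).toNat, by omega⟩
    obtain ⟨g1, g2, g3⟩ := h4
    obtain ⟨u, hu, l, hl0, hal, w2, w3⟩ := fwe_line (a := a) (c := ((geo c P.n).col q, y))
      (g3.imp id fun h => h.2)
    have hs : SlK κ u := by
      rcases List.mem_append.1 hu with h6 | h6
      · rcases g2 with g2 | g2
        · exact Or.inl g2
        · exact Or.inr (Or.inl ⟨h6, g2⟩)
      · rcases g2 with g2 | g2
        · exact Or.inl g2
        · exfalso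
          have h7 := w3 h6
          rcases g3 with g3 | g3
          · unfold OrthI at g3
            unfold DiagI at h7
            omega
          · rw [g3.1] at g2; cases g2
    have hs2 : SlK κ 62 := by
      rcases g2 with g2 | g2
      · exact Or.inl g2
      · exact Or.inr (Or.inl ⟨by decide, g2⟩)
    have hv : (vec u).1 ≠ 0 := by
      intro h6
      apply h5
      rw [hal, add_nsmul_fst, h6, mul_zero, add_zero]
    obtain ⟨hm, -, -⟩ := mem6 hu hv
    have hsc := hQ.sc Y (by omega) (by omega) u hm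
    have hfit := fit_resA P hD.toOk2 (μ := μ) (x := x) (i := wa (Svc.T q) + P.n)
      (j := wb (Svc.T q) - 1 + 3 * P.n) (by omega) (by omega)
    rw [k1] at hfit
    obtain ⟨i, j', f1, f2, f3, f4, ⟨m, f5, f6⟩, f7⟩ := sch_spec (W := WB62 u) hfit
      (fun k hk h => bmk_spec u hu k hk h) hu 90 _ hsc
    have hc0 : ((geo c P.n).col q, y) =
        sqA (World.org (wa (Svc.T q) + P.n) (wb (Svc.T q) - 1 + 3 * P.n)) (zN % 80 + 80 * Y) := by
      have e1 : (zN % 80 + 80 * Y) % 80 = xo := by have := hz.N1; omega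
      have e2 : (zN % 80 + 80 * Y) / 80 = Y := by have := hz.N1; omega
      refine Prod.ext ?_ ?_
      · rw [sqA_fst, org_fst, e1, hcol]
        push_cast
        ring
      · rw [sqA_snd, org_snd, e2]
        simp only
        push_cast [show 1 ≤ wb (Svc.T q) by omega]
        omega
    rw [← hc0] at f2 f7
    -- cells of the array are not outside
    have hin : ∀ j'' : ℕ, inA 80 j'' = true → ¬ (geo c P.n).Outside
        (sqA (World.org (wa (Svc.T q) + P.n) (wb (Svc.T q) - 1 + 3 * P.n)) j'') := by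
      intro j'' h6
      have h7 := (inA_lt h6).1
      refine hout _ ?_ ?_ ?_
      · rw [sqA_fst, org_fst]; push_cast; omega
      · rw [sqA_fst, org_fst]; push_cast; omega
      · rw [sqA_snd, org_snd]; push_cast [show 1 ≤ wb (Svc.T q) by omega]; omega
    have hil : i < l := by
      rcases lt_trichotomy l i with h6 | h6 | h6
      · exfalso
        obtain ⟨h7, j'', h8, h9⟩ := f7 l hl0 h6
        rw [← hal] at h7 h9
        rcases g1 with g1 | g1
        · rw [h7] at g1; cases g1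
        · rw [h9] at g1
          exact hin j'' h8 g1.1
      · exfalso
        subst h6
        rw [← hal] at f2
        rcases g1 with g1 | g1
        · rw [f2, f5] at g1
          cases g1
          exact f6 ⟨rfl, hs, hs2⟩
        · rw [f2] at g1
          exact hin j' f3 g1.1
      · exact h6
    refine ⟨_, fwe_betw hu hal f1 hil rfl, ?_, ?_⟩
    · rw [f2]
      intro h6
      unfold CoreH at h6
      rw [Set.mem_ofPred_eq, hO1, hO2, sqA_snd, org_snd] at h6
      push_cast [show 1 ≤ wb (Svc.T q) by omega] at h6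
      omega
    · rw [f2, f5]
      simp

end

end Pool.Agent.Lib.H32C.Ly
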