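import Pool.Agent.Lib.H32C.TouT
import Pool.Agent.Lib.H32C.WldM
import Pool.Agent.Lib.H32C.WldNb
import Pool.Agent.Lib.H32C.WldPt

/-!
# The services of windows and touches in the world of a program
-/

set_option autoImplicit false

namespace Pool.Agent.Lib.H32C.Ly

open Loc

variable (P : Prog)

section

variable {c : Offs} (hc : c.Ok2) {D : TD} (hD : D.Ok3) (hW : WallOk c D) {μ : Option ℕ}
  {x : Option (ℕ × ℕ)}

include hc hD hW in
/-- **The window `E`.** -/
theorem winT_E {R : Room} (hR : RoomOk D R) {xo zN z2 zT zE zW : ℕ}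
    (hz : Zs c xo zN z2 zT zE zW) (hE : WinE D zE zW) :
    WinT (geo c P.n) (resB P D μ x) Svc.E R ⟨80, D.ar 30, 43, zE⟩
      (World.org (70 + 2 * P.n) (26 + 3 * P.n)) := by
  refine winT_row P hc hD hW hR (i1 := 71 + 2 * P.n) (k1 := 31) (Or.inl ⟨rfl, rfl, rfl⟩)
    ⟨fun _ => by omega, fun h => by omega⟩ hE.E2 hE.E (kd_row28 P).2.2.1 ?_ ?_
  · intro p
    have h1 := hz.E1
    have h2 := hz.E2
    rw [sqA_fst, sqA_snd, org_fst, org_snd]
    simp only [FGeo.line, geo]
    push_cast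
    constructor
    · rintro ⟨h3, h4⟩
      exact ⟨by omega, fun _ => by omega, fun h => by first | exact h.elim | omega⟩
    · rintro ⟨h3, h4, -⟩
      have := h4 trivial
      omega
  · intro p
    have h2 := hz.E2
    rw [sqA_snd, org_snd]
    simp only [FGeo.axis, geo]
    push_cast
    constructor <;> intro <;> omega

include hc hD hW in
/-- **The window `W`.** -/
theorem winT_W {R : Room} (hR : RoomOk D R) {xo zN z2 zT zE zW : ℕ}
    (hz : Zs c xo zN z2 zT zE zW) (hE : WinE D zE zW) :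
    WinT (geo c P.n) (resB P D μ x) Svc.W R ⟨80, D.ar 32, 41, zW⟩
      (World.org 1 (26 + 3 * P.n)) := by
  refine winT_row P hc hD hW hR (i1 := 0) (k1 := 33) (Or.inr ⟨rfl, rfl, rfl⟩)
    ⟨fun h => by omega, fun _ => rfl⟩ hE.W2 hE.W (kd_row28 P).2.1 ?_ ?_
  · intro p
    have h1 := hz.W1
    have h2 := hz.W2
    rw [sqA_fst, sqA_snd, org_fst, org_snd]
    simp only [FGeo.line, geo]
    push_cast
    constructor
    · rintro ⟨h3, h4⟩
      exact ⟨by omega, fun h => by first | exact h.elim | omega, fun _ => by omega⟩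
    · rintro ⟨h3, -, h4⟩
      have := h4 trivial
      omega
  · intro p
    have h2 := hz.W2
    rw [sqA_snd, org_snd]
    simp only [FGeo.axis, geo]
    push_cast
    constructor <;> intro <;> omega

end

/-! ### Positions at the ports -/

section

variable (c : Offs) (D : TD) {μ : Option ℕ} {F : Far} {S : List (List Pc)} {x : Nat}

end

/-- table facts on the ports of windows and touches -/
theorem wpt_tab : bpt 25 = 1 ∧ lpt 25 = 2 ∧ bpt 26 = 1 ∧ lpt 26 = 2 ∧ lpt 27 = 1 ∧ lpt 28 = 2 ∧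
    bpt 30 = 1 ∧ tpt 30 = 1 ∧ bpt 32 = 1 ∧ tpt 32 = 1 := by
  decide +kernel

/-- The certificates of the windows and touches. -/
structure SCert (D : TD) (tou zN z2 zT zE zW : ℕ) : Prop where
  N : ∃ S x y, WinC ⟨80, D.ar 25, 62, zN⟩ S x y ∧ nthP S x = Loc.ent Dir.U ∧
    nthP S y = Loc.ext Dir.L
  a : ∃ S x y, WinC ⟨80, D.ar 26, 62, z2⟩ S x y ∧ nthP S x = Loc.ent Dir.U ∧
    nthP S y = Loc.ext Dir.L
  T : ∃ S x y, TouD ⟨144, tou, 62, zT⟩ S x y ∧ nthP S x = shp 0 64 (Loc.ent Dir.R) ∧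
    nthP S y = Loc.ext Dir.L
  E : ∃ S x y, WinC ⟨80, D.ar 30, 43, zE⟩ S x y ∧ nthP S x = Loc.ent Dir.U ∧
    nthP S y = Loc.ext Dir.U
  W : ∃ S x y, WinC ⟨80, D.ar 32, 41, zW⟩ S x y ∧ nthP S x = Loc.ent Dir.U ∧
    nthP S y = Loc.ext Dir.U

/-- the ports of the windows and touches in vertical shafts -/
theorem wv_port {s : Svc} (h : wk s ≠ 0) : enI P.n (sc s) = wa s + P.n ∧
    exI P.n (sc s) + 1 = wa s + P.n ∧ exJ P.n (sc s) = wb s + 3 * P.n ∧ exD (sc s) = 1 ∧
    (wk s ≠ 28 → enJ P.n (sc s) = wb s + 3 * P.n ∧ enD (sc s) = 2) ∧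
    (wk s = 28 → enJ P.n (sc s) = wb s + 3 * P.n + 1 ∧ enD (sc s) = 0) := by
  have t : ∀ s : Svc, wk s ≠ 0 → enS (sc s) = wa s + 1 ∧ exS (sc s) = wa s ∧
      exL (sc s) = wb s + 2 ∧ exD (sc s) = 1 ∧ 7 ≤ wa s ∧ wa s < 52 ∧ 26 ≤ wb s ∧
      (wk s ≠ 28 → enL (sc s) = wb s + 2 ∧ enD (sc s) = 2) ∧
      (wk s = 28 → enL (sc s) = wb s + 3 ∧ enD (sc s) = 0) := by
    intro s h
    rcases svc_cases h with rfl | rfl | rfl | rfl | rfl | rfl | rfl | rfl | rfl | rfl | rfl | rfl <;>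
      decide +kernel
  obtain ⟨t1, t2, t3, t4, t5, t6, t7, t8, t9⟩ := t s h
  refine ⟨?_, ?_, ?_, t4, ?_, ?_⟩
  · unfold enI xf
    rw [t1, if_neg (by omega), if_pos (by omega)]
    omega
  · unfold exI xf
    rw [t2, if_neg (by omega), if_pos (by omega)]
    omega
  · unfold exJ yf
    rw [t3, if_neg (by omega), if_neg (by omega), if_neg (by omega)]
    omega
  · intro h1
    obtain ⟨u1, u2⟩ := t8 h1
    refine ⟨?_, u2⟩
    unfold enJ yf
    rw [u1, if_neg (by omega), if_neg (by omega), if_neg (by omega)]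
    omega
  · intro h1
    obtain ⟨u1, u2⟩ := t9 h1
    refine ⟨?_, u2⟩
    unfold enJ yf
    rw [u1, if_neg (by omega), if_neg (by omega), if_neg (by omega)]
    omega

/-- the ports of the windows `E` and `W` -/
theorem we_port : enI P.n (sc Svc.E) = 70 + 2 * P.n ∧ enJ P.n (sc Svc.E) = 26 + 3 * P.n ∧
    enD (sc Svc.E) = 2 ∧ exI P.n (sc Svc.E) = 70 + 2 * P.n ∧
    exJ P.n (sc Svc.E) = 26 + 3 * P.n + 1 ∧ exD (sc Svc.E) = 2 ∧
    enI P.n (sc Svc.W) = 1 ∧ enJ P.n (sc Svc.W) = 26 + 3 * P.n ∧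
    enD (sc Svc.W) = 2 ∧ exI P.n (sc Svc.W) = 1 ∧
    exJ P.n (sc Svc.W) = 26 + 3 * P.n + 1 ∧ exD (sc Svc.W) = 2 := by
  have t : enS 2 = 72 ∧ enL 2 = 28 ∧ exS 2 = 72 ∧ exL 2 = 29 ∧ enS 4 = 1 ∧ enL 4 = 28 ∧
      exS 4 = 1 ∧ exL 4 = 29 ∧ enD 2 = 2 ∧ exD 2 = 2 ∧ enD 4 = 2 ∧ exD 4 = 2 := by decide +kernel
  obtain ⟨t1, t2, t3, t4, t5, t6, t7, t8, t9, t10, t11, t12⟩ := t
  unfold enI enJ exI exJ
  simp only [sc]
  rw [t1, t2, t3, t4, t5, t6, t7, t8]
  unfold xf yf
  refine ⟨?_, ?_, t9, ?_, ?_, t10, ?_, ?_, t11, ?_, ?_, t12⟩ <;> split_ifs <;> omega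

/-- a window -/
theorem svcOk_win {c : Offs} {D : TD} {s : Svc} (hs : s.win = true) {R : Room} {T : WT} {O : Sq}
    (hT : ∀ m, WinT (geo c P.n) (resB P D (some m) none) s R T O) {S : List (List Pc)} {x y : Nat}
    (hC : WinC T S x y)
    (hx : ∀ m F, ent (VHp P c D) (VVp P c D) (enI P.n (sc s)) (enJ P.n (sc s)) (enD (sc s)) (some m) F =
      PFw (geo c P.n) (resB P D (some m) none) S O F x)
    (hy : ∀ m F, ent (VHp P c D) (VVp P c D) (exI P.n (sc s)) (exJ P.n (sc s)) (exD (sc s)) (some m) F =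
      PFw (geo c P.n) (resB P D (some m) none) S O F y) : SvcOk P c D s := by
  constructor
  · intro m F hI hb hex
    rw [hx]
    refine hC.upS (hT m) hs hI hb fun F' hF' => ?_
    rw [← hy]
    exact hex F' hF'
  · intro m F F' β hI hst hb hex
    rw [hx]
    rw [hy] at hex
    exact hC.lowS (hT m) hs hI hst hb hex

/-- a touch -/
theorem svcOk_tou {c : Offs} {D : TD} {q : Qn} {R : Room} {T : WT} {O : Sq}
    (hT : ∀ m, WinT (geo c P.n) (resB P D (some m) none) (Svc.T q) R T O) {yb : ℤ}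
    (hSc : ∀ m, SCol (geo c P.n) (resB P D (some m) none) q R T O yb) {S : List (List Pc)}
    {x y : Nat} (hC : TouD T S x y)
    (hx : ∀ m F, ent (VHp P c D) (VVp P c D) (enI P.n (sc (Svc.T q))) (enJ P.n (sc (Svc.T q)))
      (enD (sc (Svc.T q))) (some m) F = PFw (geo c P.n) (resB P D (some m) none) S O F x)
    (hy : ∀ m F, ent (VHp P c D) (VVp P c D) (exI P.n (sc (Svc.T q))) (exJ P.n (sc (Svc.T q)))
      (exD (sc (Svc.T q))) (some m) F = PFw (geo c P.n) (resB P D (some m) none) S O F y) :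
    SvcOk P c D (Svc.T q) := by
  constructor
  · intro m F hI _ hex
    rw [hx]
    refine hC.upS (hT m) (hSc m) hI fun F' hF' => ?_
    rw [← hy]
    exact hex F' hF'
  · intro m F F' β hI hst _ hex
    rw [hx]
    rw [hy] at hex
    exact hC.lowS (hT m) hI hst hex

section

variable {c : Offs} (hc : c.Ok2) {D : TD} (hD : D.Ok3) (hW : WallOk c D) {tou xo : ℕ}
  (hS : ShaftV D tou xo)

include hc hD hW hS in
/-- **The services of windows and touches.** -/
theorem svcOk_v {R : Room} (hR : RoomOk D R) {zN z2 zT zE zW : ℕ}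
    (hz : Zs c xo zN z2 zT zE zW) (hF : WinF D tou zN z2 zT) (hQ : TouF D zN) (hE : WinE D zE zW)
    (hC : SCert D tou zN z2 zT zE zW) {s : Svc} (h : wk s ≠ 0 ∨ s = Svc.E ∨ s = Svc.W) :
    SvcOk P c D s := by
  obtain ⟨p1, p2, p3, p4, p5, p6, p7, p8, p9, p10⟩ := wpt_tab
  obtain ⟨e1, e2, e3, e4, e5, e6, e7, e8, e9, e10, e11, e12⟩ := we_port P
  have hn := P.pos
  have hny : ny P.n = 45 + 3 * P.n := rfl
  have hnx : nx P.n = 90 + 5 * P.n := rfl
  rcases h with h | rfl | rfl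
  · obtain ⟨k1, k2, k3, k4, k5, k6, k7, k8, k9, k10⟩ := wk_tab h
    obtain ⟨q1, q2, q3, q4, q5, q6⟩ := wv_port P h
    have hT := fun m => winT_v P hc hD hW hS (μ := some m) (x := none) hR hz hF h
    have hkd : kd P (wa s + P.n) (wb s + 3 * P.n) = wk s := by
      rw [kd_w P k1 k2 k4 (by omega), k6]
    have hlp : lpt (kd P (exI P.n (sc s) + 1) (exJ P.n (sc s))) = 2 := by
      rw [q2, q3, hkd]
      rcases k10 with h5 | h5 | h5 <;> rw [h5] <;> assumption
    by_cases h5 : wk s = 28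
    · obtain ⟨S, x, y, g1, g2, g3⟩ := hC.T
      obtain ⟨r1, r2⟩ := q6 h5
      have e : wT D tou zN z2 zT s = ⟨144, tou, 62, zT⟩ := by
        unfold wT; rw [if_neg (by omega), if_neg (by omega)]
      rw [e] at hT
      obtain ⟨q, rfl⟩ : ∃ q, s = Svc.T q := by
        cases s with
        | T q => exact ⟨q, rfl⟩
        | H q => cases h5
        | Z q => cases h5
        | N => cases h5
        | N1 => cases h5
        | N2 => cases h5
        | E => cases h5
        | W => cases h5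
        | Out => cases h5
        | Bin => cases h5
        | Tb => cases h5
      have hkd1 : kd P (wa (Svc.T q) + P.n) (wb (Svc.T q) + 3 * P.n + 1) = 27 := by
        rw [show wb (Svc.T q) + 3 * P.n + 1 = (wb (Svc.T q) + 1) + 3 * P.n by ring,
          kd_w P k1 k2 (by omega) (by omega)]
        exact (k9 h5).1
      refine svcOk_tou P hT (fun m => tq_scol P hc hD hS hR hz hF hQ q) g1 ?_ ?_
      · intro m F
        rw [q1, r1, r2]
        exact en_R2 P c D (by rw [hkd1]; exact p5) g2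
      · intro m F
        rw [q4, ex_L P c D hlp g3, q2, q3]
    · obtain ⟨r1, r2⟩ := q5 h5
      have hs : s.win = true := by
        rcases svc_cases h with rfl | rfl | rfl | rfl | rfl | rfl | rfl | rfl | rfl | rfl | rfl | rfl <;>
          first | rfl | exact absurd rfl h5
      have key : ∀ T, T = wT D tou zN z2 zT s → (∃ S x y, WinC T S x y ∧
          nthP S x = Loc.ent Dir.U ∧ nthP S y = Loc.ext Dir.L) → bpt (wk s) = 1 →
          SvcOk P c D s := by
        rintro T rfl ⟨S, x, y, g1, g2, g3⟩ hb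
        refine svcOk_win P hs hT g1 ?_ ?_
        · intro m F
          rw [q1, r1, r2]
          exact en_U P c D (by rw [hkd]; exact hb) g2
        · intro m F
          rw [q4, ex_L P c D hlp g3, q2, q3]
      rcases k10 with h6 | h6 | h6
      · exact key ⟨80, D.ar 25, 62, zN⟩ (by unfold wT; rw [if_pos h6]) hC.N (by rw [h6]; exact p1)
      · exact key ⟨80, D.ar 26, 62, z2⟩ (by unfold wT; rw [if_neg (by omega), if_pos h6]) hC.a
          (by rw [h6]; exact p3)
      · exact absurd h6 h5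
  · obtain ⟨S, x, y, g1, g2, g3⟩ := hC.E
    have hT := fun m => winT_E P hc hD hW (μ := some m) (x := none) hR hz hE
    have hk := (kd_row28 P).2.2.1
    refine svcOk_win P rfl hT g1 ?_ ?_
    · intro m F
      rw [e1, e2, e3]
      exact en_U P c D (by rw [hk]; exact p7) g2
    · intro m F
      rw [e4, e5, e6]
      exact ex_U P c D (by omega) (by omega) (by rw [hk]; exact p8) g3
  · obtain ⟨S, x, y, g1, g2, g3⟩ := hC.W
    have hT := fun m => winT_W P hc hD hW (μ := some m) (x := none) hR hz hE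
    have hk := (kd_row28 P).2.1
    refine svcOk_win P rfl hT g1 ?_ ?_
    · intro m F
      rw [e7, e8, e9]
      exact en_U P c D (by rw [hk]; exact p9) g2
    · intro m F
      rw [e10, e11, e12]
      exact ex_U P c D (by omega) (by omega) (by rw [hk]; exact p10) g3

end

end Pool.Agent.Lib.H32C.Ly
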