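import Pool.Agent.Lib.H32C.FarWin
import Pool.Agent.Lib.H32C.WldHb
import Pool.Agent.Lib.H32C.WldI
import Pool.Agent.Lib.H32C.WldIa

/-!
# The line of `Bin` in the world of a program
-/

set_option autoImplicit false

namespace Pool.Agent.Lib.H32C.Ly

open Loc

/-! ### Positions -/

variable (P : Prog)

theorem rx_ge {j : ℕ} (h : 24 ≤ j) : 24 ≤ rx P j := by
  unfold rx
  split_ifs <;> omega

/-- the column `87 + 5 n` and its left neighbour -/
theorem col_bin {i j : ℕ} (hi : i = 86 + 5 * P.n ∨ i = 87 + 5 * P.n) (hj : j < ny P.n) :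
    (24 ≤ j → kd P i j = 1) ∧ (j < 24 → kd P i j ≠ 1) := by
  have h := dgk_true
  unfold dgk at h
  rw [Bool.and_eq_true] at h
  have h1 := (allN_iff _ _).1 h.1 _ (rx_lt P hj).1
  have h27 := (rx_lt P hj).2
  simp only [Bool.or_eq_true, Bool.and_eq_true, beqT, blt_iff, Bool.not_eq_true'] at h1
  have e : ∀ m t, cx P.n m t (86 + 5 * P.n) = 75 ∧ cx P.n m t (87 + 5 * P.n) = 76 := by
    intro m t
    constructor
    · rw [cx_e (by omega)]; omega
    · rw [cx_e (by omega)]; omega
  constructor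
  · intro h2
    have h3 := rx_ge P h2
    unfold kd
    rcases hi with rfl | rfl
    · rw [(e _ _).1]
      omega
    · rw [(e _ _).2]
      omega
  · intro h2
    have h3 : rx P j = j := rx_a P (by omega)
    have h4 : (Nat.beq (kdt (rx P j) 75) 1 = false) ∧ (Nat.beq (kdt (rx P j) 76) 1 = false) := by
      rcases h1 with h1 | ⟨h1 | h1, -⟩
      · exact absurd h1 h27
      · omega
      · exact h1
    unfold kd
    rcases hi with rfl | rfl
    · rw [(e _ _).1]
      intro h5
      rw [h5] at h4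
      exact absurd h4.1 (by decide)
    · rw [(e _ _).2]
      intro h5
      rw [h5] at h4
      exact absurd h4.2 (by decide)

/-- the empty tiles on the diagonal -/
theorem diag_kd {i j : ℕ} (h1 : 68 + 2 * P.n ≤ i) (h2 : i ≤ 87 + 5 * P.n) (h3 : 24 ≤ j)
    (hj : j < ny P.n) (h4 : 110 + 5 * P.n ≤ i + j) (h5 : i + j ≤ 111 + 5 * P.n) : kd P i j = 1 := by
  rcases Nat.lt_or_ge i (86 + 5 * P.n) with h6 | h6
  · have h := dgk_true
    unfold dgk at h
    rw [Bool.and_eq_true] at h
    rcases Nat.lt_or_ge i (72 + 2 * P.n) with h7 | h7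
    · have hj2 : 26 + 3 * P.n ≤ j := by omega
      have hr := (allN_iff _ _).1 h.1 (j + 2 - 3 * P.n) (by unfold ny at hj; omega)
      simp only [Bool.or_eq_true, Bool.and_eq_true, beqT, blt_iff, Bool.not_eq_true'] at hr
      rw [kd_t P hj2, cx_d (by omega) h7]
      unfold ny at hj
      rcases hr with hr | ⟨-, -, hr | hr | hr⟩
      · omega
      · omega
      · omega
      · have hq := (allN_iff _ _).1 hr (i + 2 - 2 * P.n) (by omega)
        simp only [Bool.or_eq_true, beqT, blt_iff] at hq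
        have : Nat.add (i + 2 - 2 * P.n) (j + 2 - 3 * P.n) = i + j + 4 - 5 * P.n := by
          change i + 2 - 2 * P.n + (j + 2 - 3 * P.n) = _
          omega
        rw [this] at hq
        omega
    · have hr := (allN_iff _ _).1 h.1 _ (rx_lt P hj).1
      have h27 := (rx_lt P hj).2
      simp only [Bool.or_eq_true, Bool.and_eq_true, beqT, blt_iff, Bool.not_eq_true'] at hr
      have h8 := rx_ge P h3
      unfold kd
      rw [cx_g h7 h6]
      omega
  · exact (col_bin P (by omega) hj).1 h3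

/-- further positions -/
theorem kd_bin : kd P (86 + 5 * P.n) 23 = 0 ∧ kd P (87 + 5 * P.n) 23 = 34 ∧
    kd P (67 + 2 * P.n) (40 + 3 * P.n) = 38 ∧ kd P (67 + 2 * P.n) (41 + 3 * P.n) = 37 ∧
    kd P (67 + 2 * P.n) (42 + 3 * P.n) = 36 ∧ kd P (67 + 2 * P.n) (43 + 3 * P.n) = 35 := by
  have h := dgk_true
  unfold dgk at h
  simp only [Bool.and_eq_true, beqT] at h
  obtain ⟨-, -, t1, t2, t3, t4, t5, t6⟩ := h
  have e : ∀ b, 26 ≤ b → kd P (67 + 2 * P.n) (b + 3 * P.n) = kdt (b + 2) 69 := by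
    intro b hb
    rw [kd_t P (by omega), cx_d (by omega) (by omega)]
    congr 1 <;> omega
  refine ⟨?_, ?_, ?_, ?_, ?_, ?_⟩
  · rw [kd_a P (by omega), cx_e (by omega), show 86 + 5 * P.n - 11 - 5 * P.n = 75 by omega]
    exact t1
  · rw [kd_a P (by omega), cx_e (by omega), show 87 + 5 * P.n - 11 - 5 * P.n = 76 by omega]
    exact t2
  · rw [e 40 (by omega)]; exact t3
  · rw [e 41 (by omega)]; exact t4
  · rw [e 42 (by omega)]; exact t5
  · rw [e 43 (by omega)]; exact t6

/-- the columns of the vertical shafts -/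
theorem pos_29 {i j : ℕ} (hi : i < nx P.n) (hj : j < ny P.n) (h : kd P i j = 29 ∨ kd P i j = 41) :
    i ≤ 50 + P.n := by
  rcases h with h | h
  · have h0 := dgk_true
    unfold dgk at h0
    simp only [Bool.and_eq_true] at h0
    have h1 := (allN_iff _ _).1 ((allN_iff _ _).1 h0.2.1 _ (rx_lt P hj).1) _
      (cx_lt (m := pm P.n j) (t := pt P j) hi)
    have h3 : Nat.beq (kdt (rx P j) (cx P.n (pm P.n j) (pt P j) i)) 29 = true := beqT.2 h
    rw [h3, Bool.not_true, Bool.false_or, Bool.and_eq_true, blt_iff, Bool.not_eq_true'] at h1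
    have h4 : cx P.n (pm P.n j) (pt P j) i ≠ 6 := by
      intro h5
      rw [h5] at h1
      exact absurd h1.2 (by decide)
    have h5 := col_of hi rfl (q0 := cx P.n (pm P.n j) (pt P j) i) (by omega) h4 (by omega)
      (by omega)
    omega
  · obtain ⟨h1, h2⟩ := uq_of P hi hj (a := (41, 36, 34)) (by decide) h
    have h4 := (col_of hi h2 (by decide) (by decide) (by decide) (by decide)).2.1 (by decide)
      (by decide)
    simp only at h4
    omega

/-- the position of `D1` -/
theorem pos_36 {i j : ℕ} (hi : i < nx P.n) (hj : j < ny P.n) (h : kd P i j = 36) :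
    i = 67 + 2 * P.n ∧ j = 42 + 3 * P.n := by
  obtain ⟨h1, h2⟩ := uq_of P hi hj (a := (36, 44, 69)) (by decide) h
  have h3 := (row_of P h1 (by decide) (by decide)).2 (by decide)
  have h4 := (col_of hi h2 (by decide) (by decide) (by decide) (by decide)).2.2.1 (by decide)
    (by decide)
  simp only at h3 h4
  omega

/-! ### The data -/

section

variable {c : Offs} (hc : c.Ok2) {D : TD} (hD : D.Ok3) (hW : WallOk c D) {μ : Option ℕ}
  {x : Option (ℕ × ℕ)} {tb hX hY zB nb zE : ℕ} (hH : Hs c hX hY zB nb)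
  (hB : BinF D tb hX hY zB nb zE)

/-- the region of the tile of `Bin` -/
def QB : Set Sq := CoreH 3 72 (World.org (87 + 5 * P.n) 23)

theorem qb_iff {q : Sq} (hq : q ∈ QB P) : 64 * (87 + 5 * (P.n : ℤ)) - 5 ≤ q.1 ∧
    q.1 ≤ 64 * (87 + 5 * (P.n : ℤ)) + 68 ∧ 64 * 23 - 5 ≤ q.2 ∧ q.2 ≤ 64 * 23 + 60 := by
  unfold QB CoreH at hq
  rw [Set.mem_ofPred_eq, org_fst, org_snd] at hq
  push_cast at hq
  omega

include hc hD hW in
/-- the land is not seen from the right and from above -/
theorem land_up {W : Man → Prop} {u : ℕ} (hu : u = 43 ∨ u = 62 ∨ u = 63) (hWs : ∀ m, W m → SlK m.2 u)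
    {p : Sq} (h1 : 64 ≤ p.1) (h2 : 64 * 24 ≤ p.2) (hl : ¬ Hull P c p) :
    BlW (resB P D μ x) (QB P) W u p := by
  obtain ⟨v1, v2, v3, v4, v5, v6, v7, v8⟩ := vec8
  have hu' : u ∈ orT ++ diT := by rcases hu with rfl | rfl | rfl <;> decide
  have hv : (vec u).1 = 0 ∨ (vec u).1 = 1 := by
    rcases hu with rfl | rfl | rfl
    · rw [v1]; exact Or.inr rfl
    · rw [v2]; exact Or.inl rfl
    · rw [v5]; exact Or.inr rfl
  have hv2 : (vec u).2 = 0 ∨ (vec u).2 = 1 := by
    rcases hu with rfl | rfl | rfl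
    · rw [v1]; exact Or.inl rfl
    · rw [v2]; exact Or.inr rfl
    · rw [v5]; exact Or.inr rfl
  refine BlW.of_bl (land_bl P hc hD.toOk2 hW hu' hl ?_) hWs ?_
  · intro k i j X Y ht hex
    obtain ⟨i1, i2, x1, x2, y1, y2, e1, e2⟩ := ht
    rw [add_nsmul_fst] at e1
    rw [add_nsmul_snd] at e2
    push_cast at e1 e2
    rcases hex with ⟨-, h4⟩ | ⟨-, h4⟩ | ⟨-, h4⟩ | ⟨h3, -⟩ | ⟨h3, -⟩
    · omega
    · omega
    · omega
    · subst h3
      rcases hv with hv | hv <;> rw [hv] at e1 <;> omega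
    · subst h3
      rcases hv2 with hv | hv <;> rw [hv] at e2 <;> omega
  · intro i hi hq
    have := (qb_iff P hq).2.2.2
    rw [add_nsmul_snd] at this
    rcases hv2 with hv | hv <;> rw [hv] at this <;> omega

include hD hB in
/-- the composite tile with the home -/
theorem tb_cells (j : ℕ) (hj : inA 144 j = true) (hne : cell tb j ≠ 15) :
    resB P D μ x (sqA (World.org (67 + 2 * P.n) (42 + 3 * P.n)) j) = dec (cell tb j) := by
  have hnx : nx P.n = 90 + 5 * P.n := rfl
  have hny : ny P.n = 45 + 3 * P.n := rfl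
  obtain ⟨-, -, -, -, k1, k2⟩ := kd_bin P
  have h1 := (inA_lt hj).1
  have e : codeA tb (j % 80) (j / 80) = cell tb j := by
    rw [WA_codeA, show j % 80 + 80 * (j / 80) = j by omega]
  rw [← e] at hne ⊢
  exact comp_resA P hD.toOk2 (by omega) (by omega) k1
    (by rw [show 42 + 3 * P.n + 1 = 43 + 3 * P.n by ring]; exact k2) hB.comp (by omega) (by omega) hne

include hH in
/-- the zone in the composite tile with the home -/
theorem tb_zone {j : ℕ} (hj : hX + hY + 2 ≤ j % 80 + j / 80) (hc' : c.Ok2) {u : ℕ}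
    (hu : u = 43 ∨ u = 62 ∨ u = 63) (i : ℕ) :
    (geo c P.n).Zone (sqA (World.org (67 + 2 * P.n) (42 + 3 * P.n)) j + i • vec u) := by
  obtain ⟨v1, v2, v3, v4, v5, v6, v7, v8⟩ := vec8
  have o6 := hc'.toOk.rE
  have h1 := hH.x
  have h2 := hH.y
  left
  rw [add_nsmul_fst, add_nsmul_snd, sqA_fst, sqA_snd, org_fst, org_snd]
  simp only [geo]
  push_cast
  rcases hu with rfl | rfl | rfl
  · rw [v1]; constructor <;> simp only <;> omega
  · rw [v2]; constructor <;> simp only <;> omega
  · rw [v5]; constructor <;> simp only <;> omega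

include hc hD hW hB in
/-- the composite tile with the home seen from its right border -/
theorem bl_D {u Y : ℕ} (hu : u = 41 ∨ (u = 21 ∧ 9 ≤ Y)) (g1 : 8 ≤ Y) (g2 : Y + 72 ≤ hX + hY)
    {p : Sq} (h1 : p.1 = 64 * (68 + 2 * (P.n : ℤ))) (h2 : p.2 = 64 * (42 + 3 * (P.n : ℤ)) - 8 + Y) :
    BlW (resB P D μ x) (QB P) (WD u 61) u p := by
  have hu' : u ∈ orT ++ diT := by rcases hu with rfl | ⟨rfl, -⟩ <;> decide
  have h3 : scg 144 tb 0 1000 (tmk u 61) u 150 (72 + 80 * Y) = true := by
    rcases hu with rfl | ⟨rfl, h4⟩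
    · exact (hB.rt Y g1 g2).1
    · exact (hB.rt Y g1 g2).2 h4
  rw [show p = sqA (World.org (67 + 2 * P.n) (42 + 3 * P.n)) (72 + 80 * Y) by
    refine Prod.ext ?_ ?_
    · rw [sqA_fst, org_fst, show (72 + 80 * Y) % 80 = 72 by omega, h1]; push_cast; ring
    · rw [sqA_snd, org_snd, show (72 + 80 * Y) / 80 = Y by omega, h2]; push_cast; ring]
  refine scg_blw (fun j hj hne => tb_cells P hD hB j hj hne) ?_
    (fun k hk h => tmk_spec u hu' 61 (by decide) k hk h) ?_ hu' 150 _ h3
  · intro j hj _ hq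
    have h4 := (qb_iff P hq).1
    rw [sqA_fst, org_fst] at h4
    push_cast at h4
    omega
  · intro j hj h4
    have := (inA_lt hj).1
    omega

include hc hD hW hB in
/-- the row of the window `E` and the filler above and below seen from the right -/
theorem bl_SE {zW : ℕ} (hE : WinE D zE zW) {Y : ℕ} (g1 : 8 ≤ Y) (g2 : Y < 72)
    {p : Sq} (h1 : p.1 = 64 * (72 + 2 * (P.n : ℤ))) (h2 : p.2 = 64 * (26 + 3 * (P.n : ℤ)) - 8 + Y) :
    Bl (resB P D μ x) 41 p := by
  have hnx : nx P.n = 90 + 5 * P.n := rfl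
  have hny : ny P.n = 45 + 3 * P.n := rfl
  obtain ⟨-, -, k1, k2, -⟩ := kd_row28 P
  have hv : vec 41 = (-1, 0) := by decide
  have hfit := fit_resA P hD.toOk2 (μ := μ) (x := x) (i := 71 + 2 * P.n) (j := 26 + 3 * P.n)
    (by omega) (by omega)
  rw [k2] at hfit
  have hfit0 := fit_resA P hD.toOk2 (μ := μ) (x := x) (i := 70 + 2 * P.n) (j := 26 + 3 * P.n)
    (by omega) (by omega)
  rw [k1] at hfit0
  by_cases hY' : Y = zE / 80
  · -- the row of the window
    subst hY'
    obtain ⟨z1, z2⟩ := hE.E.z1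
    have h3 : Bl (resB P D μ x) 41 (sqA (World.org (70 + 2 * P.n) (26 + 3 * P.n)) zE) :=
      scn_bl hfit0 (by decide) 90 _ hB.we
    have hz1 : (sqA (World.org (70 + 2 * P.n) (26 + 3 * P.n)) zE).1 =
        64 * (70 + 2 * (P.n : ℤ)) - 8 + ((zE % 80 : ℕ) : ℤ) := by
      rw [sqA_fst, org_fst]; push_cast; ring
    have hz2 : (sqA (World.org (70 + 2 * P.n) (26 + 3 * P.n)) zE).2 = p.2 := by
      rw [sqA_snd, org_snd, h2]; push_cast; ring
    obtain ⟨K, hK⟩ : ∃ K : ℕ, (K : ℤ) = p.1 - (sqA (World.org (70 + 2 * P.n) (26 + 3 * P.n)) zE).1 :=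
      ⟨(p.1 - (sqA (World.org (70 + 2 * P.n) (26 + 3 * P.n)) zE).1).toNat, by omega⟩
    refine Bl.steps K ?_ ?_
    · intro i hi0 hi
      have e1 : (p + i • vec 41).1 = p.1 - i := by
        rw [add_nsmul_fst, hv]; simp only; ring
      have e2 : (p + i • vec 41).2 = 64 * (26 + 3 * (P.n : ℤ)) - 8 + ((zE / 80 : ℕ) : ℤ) := by
        rw [add_nsmul_snd, hv, h2]; simp
      rcases lt_or_ge (p + i • vec 41).1 (64 * (71 + 2 * (P.n : ℤ))) with h5 | h5
      · -- the window
        obtain ⟨X, hX'⟩ : ∃ X : ℕ, (p + i • vec 41).1 = 64 * (70 + 2 * (P.n : ℤ)) - 8 + X :=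
          ⟨((p + i • vec 41).1 - (64 * (70 + 2 * (P.n : ℤ)) - 8)).toNat, by omega⟩
        have h0 := hE.E.clr X (by omega) (by omega) (Or.inl ⟨rfl, by omega⟩)
        have h6 := fit_resB P hD.toOk2 (μ := μ) (x := x) (i := 70 + 2 * P.n) (j := 26 + 3 * P.n)
          (by omega) (by omega) (X := X) (Y := zE / 80) (by omega) (by omega)
          (by rw [k1, h0]; decide)
        rw [k1, h0] at h6
        rw [show p + i • vec 41 = tsq (World.org (70 + 2 * P.n) (26 + 3 * P.n)) X (zE / 80) from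
          Prod.ext (by rw [hX']; change _ = (World.org (70 + 2 * P.n) (26 + 3 * P.n)).1 + _
                       rw [org_fst]; push_cast; ring)
            (by rw [e2]; change _ = (World.org (70 + 2 * P.n) (26 + 3 * P.n)).2 + _
                rw [org_snd]; push_cast; ring), h6]
        rfl
      · obtain ⟨X, hX'⟩ : ∃ X : ℕ, (p + i • vec 41).1 = 64 * (71 + 2 * (P.n : ℤ)) - 8 + X :=
          ⟨((p + i • vec 41).1 - (64 * (71 + 2 * (P.n : ℤ)) - 8)).toNat, by omega⟩
        have h0 := (hE.E2.cl X (by omega) (by omega)).1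
        have h6 := fit_resB P hD.toOk2 (μ := μ) (x := x) (i := 71 + 2 * P.n) (j := 26 + 3 * P.n)
          (by omega) (by omega) (X := X) (Y := zE / 80) (by omega) (by omega)
          (by rw [k2, h0]; decide)
        rw [k2, h0] at h6
        rw [show p + i • vec 41 = tsq (World.org (71 + 2 * P.n) (26 + 3 * P.n)) X (zE / 80) from
          Prod.ext (by rw [hX']; change _ = (World.org (71 + 2 * P.n) (26 + 3 * P.n)).1 + _
                       rw [org_fst]; push_cast; ring)
            (by rw [e2]; change _ = (World.org (71 + 2 * P.n) (26 + 3 * P.n)).2 + _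
                rw [org_snd]; push_cast; ring), h6]
        rfl
    · rw [show p + K • vec 41 = sqA (World.org (70 + 2 * P.n) (26 + 3 * P.n)) zE from
        Prod.ext (by rw [add_nsmul_fst, hv]; simp only; omega)
          (by rw [add_nsmul_snd, hv, hz2]; simp)]
      exact h3
  · have h3 := scn_bl (O := World.org (71 + 2 * P.n) (26 + 3 * P.n)) hfit (by decide) 90 _
      (hB.se Y g1 g2 hY')
    rw [show p = sqA (World.org (71 + 2 * P.n) (26 + 3 * P.n)) (72 + 80 * Y) by
      refine Prod.ext ?_ ?_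
      · rw [sqA_fst, org_fst, show (72 + 80 * Y) % 80 = 72 by omega, h1]; push_cast; ring
      · rw [sqA_snd, org_snd, show (72 + 80 * Y) / 80 = Y by omega, h2]; push_cast; ring]
    exact h3

include hc hD hW hB in
/-- the tops of the tiles `(86 + 5 n, 23)` and `(87 + 5 n, 23)` -/
theorem bl_top {u X i : ℕ} (hu : u = 22 ∨ u = 21) (hi : i = 86 + 5 * P.n ∨ i = 87 + 5 * P.n)
    {p : Sq} (ht : Tl P i 23 X 71 (p + vec u)) (h24 : p.2 = 64 * 24)
    (h87 : i = 87 + 5 * P.n → u = 21 → X < 71) :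
    BlW (resB P D μ x) (QB P) (WD u 61) u p := by
  have hnx : nx P.n = 90 + 5 * P.n := rfl
  have hny : ny P.n = 45 + 3 * P.n := rfl
  obtain ⟨k1, k2, -⟩ := kd_bin P
  obtain ⟨v1, v2, v3, v4, v5, v6, v7, v8⟩ := vec8
  have hu' : u ∈ orT ++ diT := by rcases hu with rfl | rfl <;> decide
  have hkk : kd P i 23 = 0 ∨ kd P i 23 = 34 := by
    rcases hi with rfl | rfl
    · exact Or.inl k1
    · exact Or.inr k2
  have hfit := fit_resA P hD.toOk2 (μ := μ) (x := x) (i := i) (j := 23) (by omega) (by omega)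
  have x1 := ht.X1
  have x2 := ht.X2
  have e1 := ht.e1
  have e2 := ht.e2
  have f1 : (p + vec u).1 = p.1 + (vec u).1 := rfl
  have f2 : (p + vec u).2 = p.2 + (vec u).2 := rfl
  rw [f1] at e1
  rw [f2] at e2
  -- the corner
  by_cases hcor : u = 21 ∧ X = 71
  · obtain ⟨rfl, rfl⟩ := hcor
    have hi' : i = 86 + 5 * P.n := by
      rcases hi with h | h
      · exact h
      · exact absurd (h87 h rfl) (by omega)
    obtain ⟨m, h1, h2⟩ := pn_cell P hD.toOk2 (μ := μ) (x := x) ht
      (hW.corner _ (by rcases hkk with h | h <;> rw [h] <;> decide)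
        (by rcases hkk with h | h <;> rw [h] <;> decide) 71 71 (Or.inr rfl) (Or.inr rfl)
        (by rcases hkk with h | h <;> rw [h] <;> decide))
    refine BlW.quiet h1 (fun h3 => slk_quiet h2 h3.1) ?_
    intro hq
    have := (qb_iff P hq).2.2.2
    rw [f2] at this
    rw [v7] at this
    simp only at this
    omega
  have h3 : scg 80 (D.ar (kd P i 23)) 5520 1000 (tmk u 61) u 90
      ((if u = 21 then X + 1 else X) + 80 * 72) = true := by
    rcases hu with rfl | rfl
    · rw [if_neg (by decide)]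
      rcases hkk with h | h
      · rw [h]; exact (hB.top0 X x1 x2).1
      · rw [h]; exact (hB.top X x1 x2).1
    · rw [if_pos rfl]
      have hX1 : X + 1 < 72 := by
        by_contra h
        exact hcor ⟨rfl, by omega⟩
      rcases hkk with h | h
      · rw [h]; exact (hB.top0 (X + 1) (by omega) hX1).2 (by omega)
      · rw [h]; exact (hB.top (X + 1) (by omega) hX1).2 (by omega)
  have hp : p = sqA (World.org i 23) ((if u = 21 then X + 1 else X) + 80 * 72) := by
    rcases hu with rfl | rfl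
    · rw [if_neg (by decide)]
      rw [v4] at e1 e2
      refine Prod.ext ?_ ?_
      · rw [sqA_fst, org_fst, show (X + 80 * 72) % 80 = X by omega]
        simp only at e1
        omega
      · rw [sqA_snd, org_snd, show (X + 80 * 72) / 80 = 72 by omega, h24]
        norm_num
    · rw [if_pos rfl]
      rw [v7] at e1 e2
      refine Prod.ext ?_ ?_
      · rw [sqA_fst, org_fst, show (X + 1 + 80 * 72) % 80 = X + 1 by omega]
        simp only at e1
        push_cast
        omega
      · rw [sqA_snd, org_snd, show (X + 1 + 80 * 72) / 80 = 72 by omega, h24]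
        norm_num
  rw [hp]
  refine scg_blw hfit ?_ (fun k hk h => tmk_spec u hu' 61 (by decide) k hk h) ?_ hu' 90 _ h3
  · intro j hj hj2 hq
    have h4 := (qb_iff P hq).2.2.2
    rw [sqA_snd, org_snd] at h4
    push_cast at h4
    omega
  · intro j hj h4
    have := (inA_lt hj).1
    omega

end

end Pool.Agent.Lib.H32C.Ly
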